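import Pool.Agent.Work.MP_5391ad_co.ADef

-- merged part: Pool.Agent.Work.MP_5391ad_co.AAiry
section
/-! The Airy eigenfunction.
Existence of a nonzero solution of `y'' = x y` tending to zero: for example
`y x = e^{-x} ∫ s, e^{-s^2} cos (s^3/3 + (x-1) s)` (differentiate under the integral, integrate by
parts; at `x = 1` use `cos u ≥ 1 - u^2/2`), or power series solutions `f, g` and
`y = f - c g`, `c = lim f/g`, or `y = g ∫_x^∞ g⁻²` for `x > 0` continued by the power series.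
Let `y` be any solution tending to zero. On `[0,∞)`, `(y y')' = y'^2 + x y^2 ≥ 0`, and `y y' > 0` at
one point would make `y^2` grow; so `y y' ≤ 0`, and `y x0 = 0` with `x0 ≥ 0` forces `y = 0`
(`ODE_solution_unique` or Gronwall for `y^2 + y'^2`). Hence two decaying solutions are proportional
(`y2 0 • y1 - y1 0 • y2`), and all nonzero ones have the same zeros, all negative. A zero exists: if
`y > 0` on `(-∞,0]` then `y` is concave there; `y' x0 > 0` gives `y → -∞`, and `y' ≤ 0` gives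
`y ≥ y 0 > 0`, `y' x ≥ y' 0 + y 0 x^2/2 → ∞`. The zero set is closed and bounded above, so
`airyZero` is the largest zero `a < 0`; `y' a ≠ 0` by uniqueness. Put
`φ x = y (2^(1/3) x + a) / (2^(1/3) y' a)`. Decay: if `2 (x - kap0) ≥ m^2`, then `w = φ' + m φ`
satisfies `w' ≥ m w` and is bounded, so `w ≤ 0`; and `φ x - φ (x-1) ≤ φ' x ≤ 0` by convexity. -/

namespace Pool.Agent.Work.MP_5391ad_co

open Real

/-- the normalised principal eigenfunction -/
structure IsPhi (φ φ' : ℝ → ℝ) : Prop where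
  d1 : ∀ x, HasDerivAt φ (φ' x) x
  d2 : ∀ x, HasDerivAt φ' (2 * (x - kap0) * φ x) x
  zero : φ 0 = 0
  one : φ' 0 = 1
  pos : ∀ x, 0 < x → 0 < φ x
  dec : ∀ m : ℝ, ∃ C, ∀ x, 0 ≤ x → |φ x| ≤ C * exp (-(m * x)) ∧ |φ' x| ≤ C * exp (-(m * x))

section aux

open MeasureTheory Filter Complex
open scoped FourierTransform Topology

/-- the integrand of the representation on the line of height `η` -/
noncomputable def aairy_g (η : ℝ) (k : ℕ) (x s : ℝ) : ℂ :=
  (I * (s + η * I)) ^ k * cexp (I * ((s + η * I) ^ 3 / 3 + x * (s + η * I)))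

theorem aairy_norm (η : ℝ) {k : ℕ} (hk : k ≤ 2) (x s : ℝ) : ‖aairy_g η k x s‖ ≤
    (1 + η ^ 2) * rexp (η ^ 3 / 3) * rexp (-(η * x)) * rexp (-(η - 1) * s ^ 2) := by
  have h1 : (I * ((s + η * I) ^ 3 / 3 + x * (s + η * I))).re =
      η ^ 3 / 3 + -(η * x) + -η * s ^ 2 := by
    simp [pow_succ]
    ring
  have h2 : ‖(s + η * I : ℂ)‖ ^ 2 = s ^ 2 + η ^ 2 := by
    rw [Complex.sq_norm, Complex.normSq_add_mul_I]
  have h3 : ‖(s + η * I : ℂ)‖ ^ k ≤ (1 + η ^ 2) * rexp (s ^ 2) := by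
    have h4 : ‖(s + η * I : ℂ)‖ ^ k ≤ 1 + ‖(s + η * I : ℂ)‖ ^ 2 := by
      interval_cases k <;> linarith only [sq_nonneg (‖(s + η * I : ℂ)‖ - 1), sq_nonneg ‖↑s + ↑η * I‖, sq_nonneg (‖↑s + ↑η * I‖ - (1 : ℝ))]
    linarith only [h2, h4, add_one_le_exp (s ^ 2), sq_nonneg η, sq_nonneg s, mul_nonneg_of_nonpos_of_nonpos (Mathlib.Tactic.Linarith.sub_nonpos_of_le (sq_nonneg s)) (Mathlib.Tactic.Linarith.sub_nonpos_of_le (sq_nonneg η)), mul_nonneg_of_nonpos_of_nonpos (Mathlib.Tactic.Linarith.sub_nonpos_of_le (sq_nonneg η)) (Mathlib.Tactic.Linarith.sub_nonpos_of_le (add_one_le_exp (s ^ (2 : ℕ))))]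
  rw [aairy_g, norm_mul, norm_pow, norm_mul, norm_I, one_mul, Complex.norm_exp, h1]
  refine (mul_le_mul_of_nonneg_right h3 (exp_pos _).le).trans_eq ?_
  simp only [mul_assoc, ← Real.exp_add]
  congr 2
  ring

theorem aairy_cont (η : ℝ) (k : ℕ) (x : ℝ) : Continuous (aairy_g η k x) := by
  unfold aairy_g
  fun_prop

theorem aairy_int {η : ℝ} (hη : 1 < η) {k : ℕ} (hk : k ≤ 2) (x : ℝ) :
    Integrable (aairy_g η k x) :=
  ((integrable_exp_neg_mul_sq (sub_pos.2 hη)).const_mul _).mono'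
    (aairy_cont η k x).aestronglyMeasurable (ae_of_all _ (aairy_norm η hk x))

theorem aairy_der {η : ℝ} (hη : 1 < η) {k : ℕ} (hk : k ≤ 1) (x : ℝ) :
    HasDerivAt (fun x => ∫ s, aairy_g η k x s) (∫ s, aairy_g η (k + 1) x s) x := by
  refine (hasDerivAt_integral_of_dominated_loc_of_deriv_le (Ioi_mem_nhds (sub_one_lt x))
    (Eventually.of_forall fun y => (aairy_cont η k y).aestronglyMeasurable)
    (aairy_int hη (by omega) x) (aairy_cont η _ x).aestronglyMeasurable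
    (ae_of_all _ fun s y hy => (aairy_norm η (by omega) y s).trans ?_)
    ((integrable_exp_neg_mul_sq (sub_pos.2 hη)).const_mul
      ((1 + η ^ 2) * rexp (η ^ 3 / 3) * rexp (-(η * (x - 1))))) (ae_of_all _ fun s y _ => ?_)).2
  · have : x - 1 < y := hy
    gcongr
  · have h := (((((hasDerivAt_id y).ofReal_comp.mul_const (s + η * I)).const_add
      ((s + η * I) ^ 3 / 3)).const_mul I).cexp).const_mul ((I * (s + η * I)) ^ k)
    refine h.congr_deriv ?_
    simp only [aairy_g, id, ofReal_one]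
    ring

theorem aairy_ode {η : ℝ} (hη : 1 < η) (x : ℝ) :
    ∫ s, aairy_g η 2 x s = x • ∫ s, aairy_g η 0 x s := by
  have h1 : Integrable fun s => x • aairy_g η 0 x s := (aairy_int hη zero_le_two x).smul x
  have h2 := aairy_int hη le_rfl x
  have h := integral_eq_zero_of_hasDerivAt_of_integrable (f := aairy_g η 0 x)
    (f' := fun s => I * (x • aairy_g η 0 x s - aairy_g η 2 x s)) (fun s => ?_)
    ((h1.sub h2).const_mul I) (aairy_int hη zero_le_two x)
  · rw [integral_const_mul, integral_sub h1 h2, integral_smul, mul_eq_zero] at h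
    exact (sub_eq_zero.1 (h.resolve_left I_ne_zero)).symm
  · have h3 := (hasDerivAt_id s).ofReal_comp.add_const (η * I)
    have h4 := ((((h3.fun_pow 3).div_const 3).add
      (h3.const_mul (x : ℂ))).const_mul I).cexp.const_mul (1 : ℂ)
    refine h4.congr_deriv ?_
    simp only [aairy_g, id, ofReal_one, real_smul, Pi.add_apply, mul_pow, I_sq]
    push_cast
    ring

theorem aairy_ne {η : ℝ} (hη : 1 < η) : ∃ x, ∫ s, aairy_g η 0 x s ≠ 0 := by
  by_contra! h
  have h1 : 𝓕 (aairy_g η 0 0) = 0 := by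
    funext w
    have h2 := congrArg (cexp (-2 * π * w * η) * ·) (h (-2 * π * w))
    rw [mul_zero, ← integral_const_mul] at h2
    rw [fourier_real_eq_integral_exp_smul]
    refine Eq.trans (congrArg _ (funext fun s => ?_)) h2
    simp only [aairy_g, pow_zero, one_mul, smul_eq_mul, ← Complex.exp_add]
    congr 1
    push_cast
    linear_combination (2 * π * w * η) * I_sq
  have h2 := (aairy_cont η 0 0).fourierInv_fourier_eq (aairy_int hη zero_le_two 0)
    (h1 ▸ integrable_zero _ _ _)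
  have h3 := congrFun h2 0
  rw [h1, fourierInv_eq] at h3
  simp [aairy_g, (Complex.exp_ne_zero _).symm] at h3

/-- decaying solutions -/
structure aairy_S (y y' : ℝ → ℝ) : Prop where
  d1 : ∀ x, HasDerivAt y (y' x) x
  d2 : ∀ x, HasDerivAt y' (x * y x) x
  lim : Tendsto y atTop (𝓝 0)

theorem aairy_ex {η : ℝ} (hη : 1 < η) : ∃ y y' C, aairy_S y y' ∧ y ≠ 0 ∧
    ∀ x, |y x| ≤ C * rexp (-(η * x)) ∧ |y' x| ≤ C * rexp (-(η * x)) := by
  obtain ⟨x0, h0⟩ := aairy_ne hη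
  obtain ⟨L, h1, h2⟩ : ∃ L : ℂ →L[ℝ] ℝ, (∀ z, |L z| ≤ ‖z‖) ∧ L (∫ s, aairy_g η 0 x0 s) ≠ 0 := by
    by_cases e : (∫ s, aairy_g η 0 x0 s).re = 0
    · exact ⟨imCLM, abs_im_le_norm, fun e' => h0 (Complex.ext e e')⟩
    · exact ⟨reCLM, abs_re_le_norm, e⟩
  obtain ⟨C, hC⟩ : ∃ C, ∀ k ≤ 2, ∀ x, |L (∫ s, aairy_g η k x s)| ≤ C * rexp (-(η * x)) :=
    ⟨(1 + η ^ 2) * rexp (η ^ 3 / 3) * ∫ s : ℝ, rexp (-(η - 1) * s ^ 2), fun k hk x =>
      (h1 _).trans ((norm_integral_le_of_norm_le ((integrable_exp_neg_mul_sq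
        (sub_pos.2 hη)).const_mul _) (ae_of_all _ (aairy_norm η hk x))).trans_eq (by
          rw [integral_const_mul]
          ring))⟩
  refine ⟨fun x => L (∫ s, aairy_g η 0 x s), fun x => L (∫ s, aairy_g η 1 x s), C,
    ⟨fun x => L.hasFDerivAt.comp_hasDerivAt x (aairy_der hη zero_le_one x), fun x => ?_, ?_⟩,
    fun e => h2 (congrFun e x0), fun x => ⟨hC 0 zero_le_two x, hC 1 one_le_two x⟩⟩
  · have h := L.hasFDerivAt.comp_hasDerivAt x (aairy_der hη le_rfl x)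
    rwa [aairy_ode hη, map_smul] at h
  · refine squeeze_zero_norm (hC 0 zero_le_two) ?_
    simpa using (tendsto_exp_neg_atTop_nhds_zero.comp
      (tendsto_id.const_mul_atTop (zero_lt_one.trans hη))).const_mul C

theorem aairy_mono {f f' : ℝ → ℝ} (hf : ∀ x, HasDerivAt f (f' x) x) {a b : ℝ} (hab : a ≤ b)
    (h : ∀ x, a < x → x < b → 0 ≤ f' x) : f a ≤ f b :=
  monotoneOn_of_hasDerivWithinAt_nonneg (convex_Icc a b)
    (fun x _ => (hf x).continuousAt.continuousWithinAt) (fun x _ => (hf x).hasDerivWithinAt)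
    (fun x hx => by rw [interior_Icc] at hx; exact h x hx.1 hx.2) ⟨le_rfl, hab⟩ ⟨hab, le_rfl⟩ hab

namespace aairy_S

variable {y y' z z' : ℝ → ℝ} (h : aairy_S y y')
include h

theorem cont : Continuous y := continuous_iff_continuousAt.2 fun x => (h.d1 x).continuousAt

theorem lin (k : aairy_S z z') (a b : ℝ) :
    aairy_S (fun x => a * y x + b * z x) fun x => a * y' x + b * z' x :=
  ⟨fun x => ((h.d1 x).const_mul a).add ((k.d1 x).const_mul b),
    fun x => (((h.d2 x).const_mul a).add ((k.d2 x).const_mul b)).congr_deriv (by ring),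
    by simpa using (h.lim.const_mul a).add (k.lim.const_mul b)⟩

theorem uniq {a : ℝ} (h1 : y a = 0) (h2 : y' a = 0) (x : ℝ) : y x = 0 ∧ y' x = 0 := by
  have key : ∀ c : ℝ, ∀ t, HasDerivAt
      (fun t => (y t ^ 2 + y' t ^ 2) * rexp (c * (t ^ 3 / 3 + 2 * t)))
      ((2 * (1 + t) * y t * y' t + c * (t ^ 2 + 2) * (y t ^ 2 + y' t ^ 2)) *
        rexp (c * (t ^ 3 / 3 + 2 * t))) t := fun c t => by
    refine ((((h.d1 t).fun_pow 2).add ((h.d2 t).fun_pow 2)).mul
      (((((hasDerivAt_id t).fun_pow 3).div_const 3).add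
        ((hasDerivAt_id t).const_mul 2)).const_mul c).exp).congr_deriv ?_
    simp only [id, Pi.add_apply]
    push_cast
    ring
  have hb : ∀ t, |2 * (1 + t) * y t * y' t| ≤ (t ^ 2 + 2) * (y t ^ 2 + y' t ^ 2) := fun t => by
    have h3 : |1 + t| ≤ t ^ 2 + 2 := abs_le.2 ⟨by (refine le_of_not_gt fun h_nl => ?_; linarith only [h_nl, sq_nonneg t, mul_nonneg_of_nonpos_of_nonpos (Mathlib.Tactic.Linarith.sub_nonpos_of_le (sq_nonneg t)) (Mathlib.Tactic.Linarith.sub_nonpos_of_le (sq_nonneg t)), mul_nonneg_of_nonpos_of_nonpos (Mathlib.Tactic.Linarith.sub_nonpos_of_le (sq_nonneg t)) (le_of_lt (Mathlib.Tactic.Linarith.sub_neg_of_lt h_nl)), mul_pos_of_neg_of_neg (Mathlib.Tactic.Linarith.sub_neg_of_lt h_nl) (Mathlib.Tactic.Linarith.sub_neg_of_lt h_nl)]), by nlinarith⟩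
    have h4 : |2 * y t * y' t| ≤ y t ^ 2 + y' t ^ 2 :=
      abs_le.2 ⟨by linarith only [sq_nonneg (y t + y' t), sq_nonneg (y t + y' t)], by linarith only [sq_nonneg (y t - y' t), sq_nonneg (y t - y' t)]⟩
    rw [show 2 * (1 + t) * y t * y' t = (1 + t) * (2 * y t * y' t) by ring, abs_mul]
    exact mul_le_mul h3 h4 (abs_nonneg _) (by positivity)
  have h3 : y x ^ 2 + y' x ^ 2 ≤ 0 := by
    rcases le_total x a with e | e
    · have := monotone_of_hasDerivAt_nonneg (key 1) (fun t => mul_nonneg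
        (by linarith only [hb, (abs_le.1 (hb t)).1]) (exp_pos _).le) e
      simp only [h1, h2, sq, mul_zero, add_zero, zero_mul] at this
      simpa only [sq] using nonpos_of_mul_nonpos_left this (exp_pos _)
    · have := antitone_of_hasDerivAt_nonpos (key (-1)) (fun t => mul_nonpos_of_nonpos_of_nonneg
        (by linarith only [hb, (abs_le.1 (hb t)).2]) (exp_pos _).le) e
      simp only [h1, h2, sq, mul_zero, add_zero, zero_mul] at this
      simpa only [sq] using nonpos_of_mul_nonpos_left this (exp_pos _)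
  exact ⟨by nlinarith [sq_nonneg (y' x)], by nlinarith [sq_nonneg (y x)]⟩

theorem np {a : ℝ} (ha : 0 ≤ a) : y a * y' a ≤ 0 := by
  by_contra! e
  have h1 : ∀ x, a ≤ x → 0 ≤ y x * y' x := fun x hx => e.le.trans
    (aairy_mono (fun t => (h.d1 t).mul (h.d2 t)) hx fun t ht _ => by
      linarith only [ha, ht, mul_self_nonneg (y' t), mul_nonneg (ha.trans ht.le) (mul_self_nonneg (y t)), mul_self_nonneg (y' t), mul_self_nonneg (y t)])
  have h2 : y a * y a ≤ 0 * 0 := ge_of_tendsto (h.lim.mul h.lim)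
    ((eventually_ge_atTop a).mono fun x hx => aairy_mono (fun t => (h.d1 t).mul (h.d1 t)) hx
      fun t ht _ => by linarith [h1 t ht.le])
  rw [mul_self_eq_zero.1 (le_antisymm (h2.trans_eq (mul_zero 0)) (mul_self_nonneg _)),
    zero_mul] at e
  exact e.false

theorem zero {a : ℝ} (ha : 0 ≤ a) (h1 : y a = 0) (x : ℝ) : y x = 0 ∧ y' x = 0 := by
  have h2 : ∀ t, a ≤ t → y t = 0 := fun t ht => by
    have := aairy_mono (fun t => ((h.d1 t).mul (h.d1 t)).neg) ht
      fun t ht _ => by linarith [h.np (ha.trans ht.le)]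
    simp only [Pi.neg_apply, Pi.mul_apply, h1, mul_zero, neg_zero] at this
    exact mul_self_eq_zero.1 (le_antisymm (by linarith) (mul_self_nonneg _))
  refine h.uniq (h2 (a + 1) (by linarith)) ((h.d1 _).unique
    ((hasDerivAt_const (a + 1) (0 : ℝ)).congr_of_eventuallyEq ?_)) x
  exact (eventually_ge_nhds (lt_add_one a)).mono h2

theorem ne (h0 : y ≠ 0) {a : ℝ} (ha : 0 ≤ a) : y a ≠ 0 :=
  fun e => h0 (funext fun x => (h.zero ha e x).1)

theorem prop (k : aairy_S z z') (h0 : z ≠ 0) : ∃ c, ∀ x, y x = c * z x ∧ y' x = c * z' x := by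
  have h1 := k.ne h0 le_rfl
  refine ⟨y 0 / z 0, fun x => ?_⟩
  obtain ⟨h2, h3⟩ := (h.lin k 1 (-(y 0 / z 0))).zero le_rfl (by field_simp; ring) x
  exact ⟨by linarith only [h2], by linarith only [h3]⟩

theorem pos (h0 : 0 < y 0) {a : ℝ} (h1 : ∀ x, a < x → y x ≠ 0) (ha : a < 0) {x : ℝ} (hx : a < x) :
    0 < y x := by
  by_contra! e
  obtain ⟨t, ht, e'⟩ := intermediate_value_uIcc (a := x) (b := 0) h.cont.continuousOn
    (Set.mem_uIcc_of_le e h0.le)
  exact h1 t ((lt_min hx ha).trans_le ht.1) e'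

theorem root (h0 : 0 < y 0) : ∃ a, y a = 0 := by
  by_contra! e
  have h1 : ∀ x, -5 < x → 0 < y x := fun x => h.pos h0 (fun x _ => e x) (by norm_num)
  have h2 := aairy_mono (f := fun t => y' t * Real.sin (t + 1) - y t * Real.cos (t + 1))
    (fun t => ((h.d2 t).mul ((hasDerivAt_id t).add_const 1).sin).sub
      ((h.d1 t).mul ((hasDerivAt_id t).add_const 1).cos)) (a := -π - 1) (b := -1)
    (by linarith [pi_pos]) fun t a1 a2 => by
      have a3 : Real.sin (t + 1) ≤ 0 := sin_nonpos_of_nonpos_of_neg_pi_le (by linarith) (by linarith)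
      have a4 := mul_nonneg (mul_nonneg_of_nonpos_of_nonpos a3 (show t + 1 ≤ 0 by linarith))
        (h1 t (by linarith [pi_lt_four])).le
      simp only [id]
      linarith
  simp only [sub_add_cancel, neg_add_cancel, Real.sin_neg, Real.cos_neg, Real.sin_pi, Real.cos_pi,
    Real.sin_zero, Real.cos_zero] at h2
  linarith only [h2, h1, h1 (-π - 1) (by linarith [pi_lt_four]), h1 (-1) (by norm_num)]

end aairy_S

theorem aairy_main : ∃ y y', aairy_S y y' ∧ airyZero < 0 ∧ y airyZero = 0 ∧ 0 < y' airyZero ∧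
    ∀ x, airyZero < x → 0 < y x := by
  obtain ⟨y, y', h, h0⟩ : ∃ y y', aairy_S y y' ∧ 0 < y 0 := by
    obtain ⟨y, y', -, h, h0, -⟩ := aairy_ex one_lt_two
    exact ⟨_, _, h.lin h (y 0) 0, by simpa using h.ne h0 le_rfl⟩
  have h1 : y ≠ 0 := fun e => h0.ne' (congrFun e 0)
  have h2 : airyZero = sSup {a | y a = 0} := by
    refine congrArg sSup (Set.ext fun a => ⟨?_, fun e => ⟨y, y', h.d1, h.d2, h.lim, h1, e⟩⟩)
    rintro ⟨z, z', a1, a2, a3, a4, a5⟩
    obtain ⟨c, hc⟩ := h.prop ⟨a1, a2, a3⟩ a4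
    exact (hc a).1.trans (by rw [a5, mul_zero])
  have h3 : BddAbove {a | y a = 0} := ⟨0, fun a e => le_of_not_ge fun e' => h.ne h1 e' e⟩
  have h4 : y airyZero = 0 :=
    h2 ▸ (isClosed_eq h.cont continuous_const).csSup_mem (h.root h0) h3
  have h5 : airyZero < 0 := lt_of_not_ge fun e => h.ne h1 e h4
  have h6 : ∀ x, airyZero < x → 0 < y x := fun x =>
    h.pos h0 (fun x hx e => hx.not_ge (h2 ▸ le_csSup h3 e)) h5
  refine ⟨y, y', h, h5, h4, lt_of_le_of_ne ?_ fun e => h0.ne' (h.uniq h4 e.symm 0).1, h6⟩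
  refine ge_of_tendsto (hasDerivAt_iff_tendsto_slope_left_right.1 (h.d1 airyZero)).2
    (eventually_nhdsWithin_of_forall fun x hx => ?_)
  rw [slope_def_field, h4, sub_zero]
  exact div_nonneg (h6 x hx).le (sub_pos.2 hx).le

end aux

theorem airyZero_neg : airyZero < 0 := by
  obtain ⟨_, _, -, h, -⟩ := aairy_main
  exact h

theorem kap0_pos : 0 < kap0 := by
  exact mul_pos (abs_pos.2 airyZero_neg.ne) (rpow_pos_of_pos two_pos _)

theorem kappa_pos : 0 < kappa := by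
  exact mul_pos kap0_pos (div_pos (pow_pos (Gamma_pos_of_pos (by norm_num)) _)
    (Gamma_pos_of_pos (by norm_num)))

theorem exists_phi : ∃ φ φ', IsPhi φ φ' := by
  obtain ⟨y, y', h, h1, h2, h3, h4⟩ := aairy_main
  obtain ⟨c, c1, c2, c3⟩ : ∃ c : ℝ, 1 ≤ c ∧ c ^ 3 = 2 ∧ kap0 = -airyZero / c :=
    ⟨2 ^ (1 / 3 : ℝ), one_le_rpow one_le_two (by norm_num),
      by rw [← rpow_natCast, ← rpow_mul zero_le_two]; norm_num,
      by rw [kap0, abs_of_neg h1, rpow_neg zero_le_two, div_eq_mul_inv (-airyZero)]⟩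
  have c0 : 0 < c := zero_lt_one.trans_le c1
  have hd : ∀ x, HasDerivAt (fun x => c * x + airyZero) (c * 1) x := fun x =>
    ((hasDerivAt_id x).const_mul c).add_const _
  refine ⟨fun x => y (c * x + airyZero) / (c * y' airyZero),
    fun x => y' (c * x + airyZero) / y' airyZero,
    fun x => (((h.d1 _).comp x (hd x)).div_const _).congr_deriv (by field_simp),
    fun x => (((h.d2 _).comp x (hd x)).div_const _).congr_deriv ?_, by simp [h2],
    by simp [h3.ne'], fun x hx => div_pos (h4 _ (by linarith only [hx, c1, mul_nonneg_of_nonpos_of_nonpos (Mathlib.Tactic.Linarith.sub_nonpos_of_le c1) (le_of_lt (Mathlib.Tactic.Linarith.sub_neg_of_lt hx))])) (mul_pos c0 h3), fun m => ?_⟩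
  · rw [c3, ← c2]
    field_simp
    ring
  · obtain ⟨z, z', C, a1, a2, a3⟩ := aairy_ex (η := |m| + 2) (by linarith only [abs_nonneg m])
    obtain ⟨d, hd⟩ := h.prop a1 a2
    have a4 : 0 ≤ C := nonneg_of_mul_nonneg_left ((abs_nonneg _).trans (a3 0).1) (exp_pos _)
    refine ⟨|d| * (C * exp (-((|m| + 2) * airyZero))) / y' airyZero, fun x hx => ?_⟩
    have a5 : ∀ r : ℝ, |r| ≤ C * exp (-((|m| + 2) * (c * x + airyZero))) → |d * r| / y' airyZero ≤
        |d| * (C * exp (-((|m| + 2) * airyZero))) / y' airyZero * exp (-(m * x)) := fun r hr => by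
      clear * - d r y' C m x c hr hx c1 c0 a4 h3
      rw [div_mul_eq_mul_div, abs_mul, mul_assoc, mul_assoc, ← exp_add]
      refine div_le_div_of_nonneg_right (mul_le_mul_of_nonneg_left (hr.trans
        (mul_le_mul_of_nonneg_left (exp_le_exp.2 ?_) a4)) (abs_nonneg _)) h3.le
      linarith only [hx, c1, c0, mul_le_mul_of_nonneg_right (le_abs_self m) hx,
        mul_nonneg (mul_nonneg (abs_nonneg m) (sub_nonneg.2 c1)) hx, mul_nonneg c0.le hx]
    rw [abs_div, abs_div, abs_of_pos h3, abs_of_pos (mul_pos c0 h3), (hd _).1,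
      (hd (c * x + airyZero)).2]
    exact ⟨(div_le_div_of_nonneg_left (abs_nonneg _) h3 (le_mul_of_one_le_left h3.le c1)).trans
      (a5 _ (a3 _).1), a5 _ (a3 _).2⟩

end Pool.Agent.Work.MP_5391ad_co
end

-- merged part: Pool.Agent.Work.MP_5391ad_co.AExp
section
/-! One step of the Poisson walk. `K` is Poisson(1): `E (K-1) = 0`, `E (K-1)^2 = 1`,
`E |K-1| ≤ 1`, `E |K-1|^3 ≤ E (K-1)^2 + E (K-1)^4 = 5` (any finite bound will do).
`pois_exp`: `∑ e^{-1} / k! e^{c k} = exp (e^c - 1)`.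
`pois_taylor`: Taylor at `x = β (q+1)` with the point `β (q + k) ≥ 0`.
`pois_phi`: (i) `|φ (β' k) - φ (β k)| ≤ C η β^2` by the mean value theorem and
`sup x |φ' x| < ∞`; (ii) `|e^{-β^2 x} φ x - (1 - β^2 x) φ x| ≤ β^4 sup x^2 |φ| / 2`; (iii)
`pois_taylor` for `φ` (third derivative `2 φ + 2 (x - kap0) φ'` is bounded on `[0,∞)`), and
`x φ x` is Lipschitz on `[0,∞)`; `β^2 φ''/2 - β^2 x φ = - kap0 β^2 φ`; `β ≤ η`.
`pois_cor`: with `x = β (q+1)`, `ψ a = e^{-a} - 1 + a ∈ [a^2/3, a^2/2]` for `0 ≤ a ≤ 1`, the left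
side is `e^{-β^2 x} (e^{ψ (β^3)} - e^{-m β' (q+1)} e^{ψ (β^3 + m β')})`, the bracket is at most
`1 - e^{-m x} + 2 β^2 - (m^2/16) β^2 [x ≤ 1/m]`. Take `m^2 = 16 (kap0 + 5)`, `X0 = 4 (kap0 + 5)`;
three cases `x ≤ 1/m`, `x ≥ X0` (use `e^{-β^2 X0} ≤ 1 - β^2 X0 / 2`), and in between
`C' = (kap0 + 5) / min φ`. -/

namespace Pool.Agent.Work.MP_5391ad_co

open Real

theorem aexp_hs (x : ℝ) : HasSum (fun k : ℕ => x ^ k / k.factorial) (exp x) := by
  rw [Real.exp_eq_exp_ℝ]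
  exact NormedSpace.expSeries_div_hasSum_exp x

theorem aexp_p_nonneg (k : ℕ) : 0 ≤ exp (-1) / (k.factorial : ℝ) := by positivity

theorem pois_summable {h : ℕ → ℝ} {C c : ℝ} (hh : ∀ k, |h k| ≤ C * exp (c * k)) (q : ℕ) :
    Summable fun k : ℕ => exp (-1) / k.factorial * h (q + k) := by
  refine Summable.of_norm_bounded
    (((aexp_hs (exp c)).mul_left (exp (-1) * (C * exp (c * q)))).summable) fun k => ?_
  rw [norm_mul, Real.norm_of_nonneg (aexp_p_nonneg k), Real.norm_eq_abs]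
  calc exp (-1) / k.factorial * |h (q + k)|
      ≤ exp (-1) / k.factorial * (C * exp (c * (q + k : ℕ))) :=
        mul_le_mul_of_nonneg_left (hh _) (aexp_p_nonneg k)
    _ = _ := by
        rw [← exp_nat_mul]
        push_cast
        rw [mul_add, exp_add, mul_comm (k : ℝ) c]
        ring

theorem pois_exp (c : ℝ) (q : ℕ) :
    Pois (fun k => exp (c * k)) q = exp (c * (q + 1)) * exp (exp c - 1 - c) := by
  have h := (aexp_hs (exp c)).mul_left (exp (-1) * exp (c * q))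
  have e : (fun k : ℕ => exp (-1) / k.factorial * exp (c * (q + k : ℕ))) =
      fun k : ℕ => exp (-1) * exp (c * q) * (exp c ^ k / k.factorial) := by
    funext k
    rw [← exp_nat_mul]
    push_cast
    rw [mul_add, exp_add, mul_comm (k : ℝ) c]
    ring
  unfold Pois
  rw [e, h.tsum_eq, ← exp_add, ← exp_add, ← exp_add]
  congr 1
  ring

theorem pois_mono {h h' : ℕ → ℝ} {C c : ℝ} (hh : ∀ k, |h k| ≤ C * exp (c * k))
    (hh' : ∀ k, |h' k| ≤ C * exp (c * k)) (hle : ∀ k, h k ≤ h' k) (q : ℕ) :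
    Pois h q ≤ Pois h' q := by
  exact (pois_summable hh q).tsum_le_tsum
    (fun k => mul_le_mul_of_nonneg_left (hle _) (aexp_p_nonneg k)) (pois_summable hh' q)

theorem pois_add {h h' : ℕ → ℝ} {C c : ℝ} (hh : ∀ k, |h k| ≤ C * exp (c * k))
    (hh' : ∀ k, |h' k| ≤ C * exp (c * k)) (a a' : ℝ) (q : ℕ) :
    Pois (fun k => a * h k + a' * h' k) q = a * Pois h q + a' * Pois h' q := by
  have h1 := ((pois_summable hh q).hasSum.mul_left a).add ((pois_summable hh' q).hasSum.mul_left a')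
  unfold Pois
  rw [← h1.tsum_eq]
  refine tsum_congr fun k => ?_
  ring

theorem aexp_congr {f g : ℕ → ℝ} {a b : ℝ} (h : HasSum f a) (h1 : ∀ k, g k = f k) (h2 : b = a) :
    HasSum g b := by
  rw [funext h1, h2]; exact h

theorem aexp_m0 : HasSum (fun k : ℕ => exp (-1) / (k.factorial : ℝ)) 1 := by
  have h := (aexp_hs 1).mul_left (exp (-1))
  rw [← exp_add, neg_add_cancel, exp_zero] at h
  simpa [div_eq_mul_inv] using h

theorem aexp_shift {f : ℕ → ℝ} {a : ℝ}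
    (h : HasSum (fun k : ℕ => exp (-1) / (k.factorial : ℝ) * f k) a) :
    HasSum (fun k : ℕ => exp (-1) / (k.factorial : ℝ) * (k * f (k - 1))) a := by
  refine (hasSum_nat_add_iff' 1).1 ?_
  have e : (fun k : ℕ => exp (-1) / ((k + 1).factorial : ℝ) * ((k + 1 : ℕ) * f (k + 1 - 1))) =
      fun k : ℕ => exp (-1) / (k.factorial : ℝ) * f k := by
    funext k
    rw [Nat.factorial_succ, Nat.add_sub_cancel]
    push_cast
    field_simp
  rw [e]
  simpa using h

theorem aexp_m1 : HasSum (fun k : ℕ => exp (-1) / (k.factorial : ℝ) * k) 1 := by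
  simpa using aexp_shift (f := fun _ => 1) (by simpa using aexp_m0)

theorem aexp_m2 : HasSum (fun k : ℕ => exp (-1) / (k.factorial : ℝ) * (k * (k - 1))) 1 := by
  have h := aexp_shift (f := fun k => (k : ℝ)) aexp_m1
  have e : (fun k : ℕ => exp (-1) / (k.factorial : ℝ) * (k * (k - 1))) =
      fun k : ℕ => exp (-1) / (k.factorial : ℝ) * (k * ((k - 1 : ℕ) : ℝ)) := by
    funext k
    rcases k with _ | k
    · simp
    · simp
  rw [e]
  exact h

/-- the third absolute central moment -/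
noncomputable def aexp_C : ℝ := ∑' k : ℕ, exp (-1) / (k.factorial : ℝ) * |(k : ℝ) - 1| ^ 3

theorem aexp_m3 : HasSum (fun k : ℕ => exp (-1) / (k.factorial : ℝ) * |(k : ℝ) - 1| ^ 3) aexp_C := by
  have h := pois_summable (h := fun k => |(k : ℝ) - 1| ^ 3) (C := 1) (c := 3) (fun k => ?_) 0
  · unfold aexp_C
    simpa only [zero_add] using h.hasSum
  · have h1 : |(k : ℝ) - 1| ≤ exp k := by
      have : (0 : ℝ) ≤ k := Nat.cast_nonneg k
      rw [abs_le]
      constructor <;> linarith only [add_one_le_exp (k : ℝ)]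
    rw [abs_of_nonneg (by positivity), one_mul, show (3 : ℝ) = (3 : ℕ) by norm_num, exp_nat_mul]
    gcongr

theorem aexp_C_nonneg : 0 ≤ aexp_C := tsum_nonneg fun k => by positivity

theorem aexp_main {h : ℕ → ℝ} {q : ℕ} {a b c u v : ℝ}
    (H : ∀ k : ℕ, |h (q + k) - (a + b * (k - 1) + c * (k - 1) ^ 2)| ≤ u + v * |(k : ℝ) - 1| ^ 3) :
    |Pois h q - (a + c)| ≤ u + v * aexp_C := by
  have h1 : HasSum (fun k : ℕ => exp (-1) / (k.factorial : ℝ) *
      (a + b * (k - 1) + c * (k - 1) ^ 2)) (a + c) := by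
    exact aexp_congr (((aexp_m0.mul_left (a - b + c)).add (aexp_m1.mul_left (b - c))).add
      (aexp_m2.mul_left c)) (fun k => by ring) (by ring)
  have h2 : HasSum (fun k : ℕ => exp (-1) / (k.factorial : ℝ) * (u + v * |(k : ℝ) - 1| ^ 3))
      (u + v * aexp_C) := by
    exact aexp_congr ((aexp_m0.mul_left u).add (aexp_m3.mul_left v)) (fun k => by ring) (by ring)
  have hb : ∀ k : ℕ, ‖exp (-1) / (k.factorial : ℝ) *
      (h (q + k) - (a + b * (k - 1) + c * (k - 1) ^ 2))‖ ≤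
      exp (-1) / (k.factorial : ℝ) * (u + v * |(k : ℝ) - 1| ^ 3) := fun k => by
    rw [norm_mul, Real.norm_of_nonneg (aexp_p_nonneg k), Real.norm_eq_abs]
    exact mul_le_mul_of_nonneg_left (H k) (aexp_p_nonneg k)
  have h3 := Summable.of_norm_bounded h2.summable hb
  have h4 := tsum_of_norm_bounded h2 hb
  have h5 := (h3.hasSum.add h1).tsum_eq
  have h6 : Pois h q = ∑' k : ℕ, (exp (-1) / (k.factorial : ℝ) *
      (h (q + k) - (a + b * (k - 1) + c * (k - 1) ^ 2)) + exp (-1) / (k.factorial : ℝ) *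
      (a + b * (k - 1) + c * (k - 1) ^ 2)) := tsum_congr fun k => by ring
  rw [h6, h5, add_sub_cancel_right]
  exact h4

theorem aexp_mvt {f f' : ℝ → ℝ} {M x y : ℝ} (hf : ∀ t, HasDerivAt f (f' t) t)
    (hb : ∀ t ∈ Set.uIcc x y, |f' t| ≤ M) : ∀ t ∈ Set.uIcc x y, |f t - f x| ≤ M * |y - x| := by
  intro t ht
  have hM : 0 ≤ M := (abs_nonneg _).trans (hb x Set.left_mem_uIcc)
  have := (convex_uIcc x y).norm_image_sub_le_of_norm_hasDerivWithin_le
    (fun s _ => (hf s).hasDerivWithinAt) hb Set.left_mem_uIcc ht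
  rw [Real.norm_eq_abs, Real.norm_eq_abs] at this
  exact this.trans (mul_le_mul_of_nonneg_left (Set.abs_sub_left_of_mem_uIcc ht) hM)

theorem aexp_uIcc {x y t : ℝ} (hx : 0 ≤ x) (hy : 0 ≤ y) (ht : t ∈ Set.uIcc x y) : 0 ≤ t :=
  (le_min hx hy).trans ht.1

theorem aexp_tay {f f1 f2 f3 : ℝ → ℝ} {M x y : ℝ} (h1 : ∀ x, HasDerivAt f (f1 x) x)
    (h2 : ∀ x, HasDerivAt f1 (f2 x) x) (h3 : ∀ x, HasDerivAt f2 (f3 x) x)
    (hM : ∀ x, 0 ≤ x → |f3 x| ≤ M) (hx : 0 ≤ x) (hy : 0 ≤ y) :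
    |f y - (f x + f1 x * (y - x) + f2 x / 2 * (y - x) ^ 2)| ≤ M * |y - x| ^ 3 := by
  have a2 := aexp_mvt (x := x) (y := y) h3 fun t ht => hM t (aexp_uIcc hx hy ht)
  have a1 := aexp_mvt (f := fun t => f1 t - f2 x * t) (f' := fun t => f2 t - f2 x) (x := x) (y := y)
    (fun t => ((h2 t).fun_sub ((hasDerivAt_id' t).const_mul (f2 x))).congr_deriv (by ring)) a2
  have a0 := aexp_mvt (f := fun t => f t - f1 x * t - f2 x / 2 * (t - x) ^ 2)
    (f' := fun t => f1 t - f2 x * t - (f1 x - f2 x * x)) (x := x) (y := y)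
    (fun t => (((h1 t).fun_sub ((hasDerivAt_id' t).const_mul (f1 x))).fun_sub
        ((((hasDerivAt_id' t).sub_const x).fun_pow 2).const_mul (f2 x / 2))).congr_deriv
        (by push_cast; ring)) a1 y Set.right_mem_uIcc
  calc _ = |f y - f1 x * y - f2 x / 2 * (y - x) ^ 2 - (f x - f1 x * x - f2 x / 2 * (x - x) ^ 2)| := by
        congr 1; ring
    _ ≤ M * |y - x| * |y - x| * |y - x| := a0
    _ = _ := by ring

theorem pois_taylor : ∃ C : ℝ, ∀ (f f1 f2 f3 : ℝ → ℝ) (M β : ℝ), 0 < β →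
    (∀ x, HasDerivAt f (f1 x) x) → (∀ x, HasDerivAt f1 (f2 x) x) →
    (∀ x, HasDerivAt f2 (f3 x) x) → (∀ x, 0 ≤ x → |f x| ≤ M ∧ |f3 x| ≤ M) → ∀ q : ℕ,
    |Pois (fun k => f (β * k)) q - f (β * (q + 1)) - β ^ 2 / 2 * f2 (β * (q + 1))| ≤
      C * M * β ^ 3 := by
  refine ⟨aexp_C, fun f f1 f2 f3 M β hβ h1 h2 h3 hM q => ?_⟩
  have := aexp_main (h := fun k => f (β * k)) (q := q) (a := f (β * (q + 1)))
    (b := f1 (β * (q + 1)) * β) (c := β ^ 2 / 2 * f2 (β * (q + 1))) (u := 0) (v := M * β ^ 3)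
    (fun k => by
      have h := aexp_tay (x := β * (q + 1)) (y := β * (q + k : ℕ)) h1 h2 h3 (fun x hx => (hM x hx).2)
        (by positivity) (by positivity)
      have e : β * ((q + k : ℕ) : ℝ) - β * (q + 1) = β * (k - 1) := by push_cast; ring
      rw [e, abs_mul, abs_of_pos hβ] at h
      convert h using 1
      · congr 1; ring
      · ring)
  convert this using 1
  · congr 1; ring
  · ring

theorem aexp_bounds {φ φ' : ℝ → ℝ} (h : IsPhi φ φ') : ∃ B : ℝ, 0 ≤ B ∧ ∀ x, 0 ≤ x →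
    |φ x| ≤ B ∧ |φ' x| ≤ B ∧ x * |φ' x| ≤ B ∧ x ^ 2 * |φ x| ≤ 2 * B := by
  obtain ⟨C, hC⟩ := h.dec 1
  have hC0 : 0 ≤ C := by
    have := (hC 0 le_rfl).1
    simpa using (abs_nonneg _).trans this
  refine ⟨C, hC0, fun x hx => ?_⟩
  obtain ⟨h1, h2⟩ := hC x hx
  rw [one_mul] at h1 h2
  have hq := quadratic_le_exp_of_nonneg hx
  have hE : exp x * exp (-x) = 1 := by rw [← exp_add]; simp
  have hp := exp_pos (-x)
  have e0 : exp (-x) ≤ 1 := by linarith only [hE, hp, hx, hq, sq_nonneg x, mul_nonneg_of_nonpos_of_nonpos (Mathlib.Tactic.Linarith.sub_nonpos_of_le (sq_nonneg x)) (le_of_lt (Mathlib.Tactic.Linarith.sub_neg_of_lt hp)), mul_nonneg_of_nonpos_of_nonpos (Mathlib.Tactic.Linarith.sub_nonpos_of_le hx) (le_of_lt (Mathlib.Tactic.Linarith.sub_neg_of_lt hp)), mul_nonneg_of_nonpos_of_nonpos (Mathlib.Tactic.Linarith.sub_nonpos_of_le hq) (le_of_lt (Mathlib.Tactic.Linarith.sub_neg_of_lt hp))]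
  have e1 : x * exp (-x) ≤ 1 := by (refine le_of_not_gt fun h_nl => ?_; linarith only [h_nl, hE, hp, hx, e0, hq, sq_nonneg x, mul_nonneg_of_nonpos_of_nonpos (Mathlib.Tactic.Linarith.sub_nonpos_of_le hx) (Mathlib.Tactic.Linarith.sub_nonpos_of_le e0), mul_nonneg_of_nonpos_of_nonpos (Mathlib.Tactic.Linarith.sub_nonpos_of_le hx) (le_of_lt (Mathlib.Tactic.Linarith.sub_neg_of_lt h_nl)), mul_nonneg_of_nonpos_of_nonpos (Mathlib.Tactic.Linarith.sub_nonpos_of_le hq) (le_of_lt (Mathlib.Tactic.Linarith.sub_neg_of_lt hp))])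
  have e2 : x ^ 2 * exp (-x) ≤ 2 := by linarith only [hE, hp, hx, hq, mul_nonneg_of_nonpos_of_nonpos (Mathlib.Tactic.Linarith.sub_nonpos_of_le hx) (le_of_lt (Mathlib.Tactic.Linarith.sub_neg_of_lt hp)), mul_nonneg_of_nonpos_of_nonpos (Mathlib.Tactic.Linarith.sub_nonpos_of_le hq) (le_of_lt (Mathlib.Tactic.Linarith.sub_neg_of_lt hp))]
  refine ⟨h1.trans (mul_le_of_le_one_right hC0 e0), h2.trans (mul_le_of_le_one_right hC0 e0), ?_, ?_⟩
  · calc x * |φ' x| ≤ x * (C * exp (-x)) := by gcongr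
      _ = C * (x * exp (-x)) := by ring
      _ ≤ C := mul_le_of_le_one_right hC0 e1
  · calc x ^ 2 * |φ x| ≤ x ^ 2 * (C * exp (-x)) := by gcongr
      _ = C * (x ^ 2 * exp (-x)) := by ring
      _ ≤ C * 2 := by gcongr
      _ = _ := by ring

theorem aexp_psi_le {a : ℝ} (ha : 0 ≤ a) : |exp (-a) - 1 + a| ≤ a ^ 2 := by
  rcases le_total a 1 with h | h
  · have := abs_exp_sub_one_sub_id_le (x := -a) (by rwa [abs_neg, abs_of_nonneg ha])
    simpa using this
  · have h1 : exp (-a) ≤ 1 := exp_le_one_iff.2 (by linarith)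
    rw [abs_of_nonneg (by linarith [add_one_le_exp (-a)])]
    linarith only [h1, ha, h, mul_nonneg_of_nonpos_of_nonpos (Mathlib.Tactic.Linarith.sub_nonpos_of_le ha) (Mathlib.Tactic.Linarith.sub_nonpos_of_le h)]

theorem aexp_abs_le (k : ℕ) : |(k : ℝ) - 1| ≤ |(k : ℝ) - 1| ^ 3 := by
  rcases k with _ | _ | k
  · simp
  · simp
  · refine le_self_pow₀ ?_ (by norm_num)
    have : (0 : ℝ) ≤ k := Nat.cast_nonneg k
    push_cast
    rw [abs_of_nonneg (by linarith)]
    linarith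

theorem pois_phi {φ φ' : ℝ → ℝ} (h : IsPhi φ φ') : ∃ C : ℝ, 0 ≤ C ∧ ∀ β β' η : ℝ, 0 < β → β ≤ η →
    η ≤ 1 → 0 < β' → |log (β' / β)| ≤ η * β ^ 2 → ∀ q : ℕ,
    |Pois (fun k => exp (-(β ^ 3 * k)) * φ (β' * k)) q -
      (1 - kap0 * β ^ 2) * φ (β * (q + 1))| ≤ C * η * β ^ 2 := by
  obtain ⟨B, hB, hb⟩ := aexp_bounds h
  have hκ := kap0_pos
  have hC := aexp_C_nonneg
  set M := 2 * B + 2 * B + 2 * kap0 * B with hM
  have hM0 : 0 ≤ M := by positivity
  refine ⟨3 * B + (M + 2 * B) * aexp_C, by positivity, fun β β' η hβ hβη hη hβ' hlog q => ?_⟩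
  have hd3 : ∀ x, HasDerivAt (fun x => 2 * (x - kap0) * φ x) (2 * φ x + 2 * (x - kap0) * φ' x) x :=
    fun x => ((((hasDerivAt_id' x).sub_const kap0).const_mul 2).fun_mul (h.d1 x)).congr_deriv (by ring)
  have hM3 : ∀ x, 0 ≤ x → |2 * φ x + 2 * (x - kap0) * φ' x| ≤ M := by
    clear * - φ B φ' M hb hκ
    intro x hx
    obtain ⟨h1, h2, h3, -⟩ := hb x hx
    have e : 2 * φ x + 2 * (x - kap0) * φ' x = 2 * φ x + 2 * (x * φ' x) - 2 * (kap0 * φ' x) := by ring
    have h4 : |x * φ' x| ≤ B := by rwa [abs_mul, abs_of_nonneg hx]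
    have h5 : |kap0 * φ' x| ≤ kap0 * B := by
      rw [abs_mul, abs_of_pos hκ]; gcongr
    rw [e, abs_le] at *
    constructor <;> linarith only [h1, h4, h5, h1.1, h1.2, h4.1, h4.2, h5.1, h5.2]
  have hG : ∀ x y, 0 ≤ x → 0 ≤ y → |y * φ y - x * φ x| ≤ 2 * B * |y - x| := by
    intro x y hx hy
    refine aexp_mvt (f := fun t => t * φ t) (f' := fun t => φ t + t * φ' t)
      (fun t => ((hasDerivAt_id' t).fun_mul (h.d1 t)).congr_deriv (by ring)) (fun t ht => ?_) y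
      Set.right_mem_uIcc
    have ht0 := aexp_uIcc hx hy ht
    obtain ⟨h1, -, h3, -⟩ := hb t ht0
    refine (abs_add_le _ _).trans ?_
    rw [abs_mul, abs_of_nonneg ht0]
    linarith only [h1, h3]
  have hS : ∀ k : ℝ, 0 ≤ k → |φ (β' * k) - φ (β * k)| ≤ B * (η * β ^ 2) := by
    clear * - φ β β' B φ' h hβ hb η hβ' hlog hB M
    intro k hk
    have := aexp_mvt (f := fun s => φ (β * k * exp s)) (f' := fun s => φ' (β * k * exp s) * (β * k * exp s))
      (x := 0) (y := log (β' / β)) (M := B)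
      (fun s => (h.d1 _).comp s ((hasDerivAt_exp s).const_mul (β * k))) (fun s _ => by
        have h0 : 0 ≤ β * k * exp s := by positivity
        rw [abs_mul, abs_of_nonneg h0, mul_comm]
        exact (hb _ h0).2.2.1) _ Set.right_mem_uIcc
    rw [exp_log (by positivity), exp_zero, mul_one, sub_zero,
      show β * k * (β' / β) = β' * k by field_simp] at this
    exact this.trans (mul_le_mul_of_nonneg_left hlog hB)
  set x := β * (q + 1) with hx
  have hx0 : 0 ≤ x := by positivity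
  have hβ1 : β ≤ 1 := hβη.trans hη
  have hη0 : 0 < η := hβ.trans_le hβη
  have key := aexp_main (h := fun k => exp (-(β ^ 3 * k)) * φ (β' * k)) (q := q)
    (a := φ x - β ^ 2 * (x * φ x)) (b := φ' x * β) (c := β ^ 2 * ((x - kap0) * φ x))
    (u := 3 * B * (η * β ^ 2)) (v := (M + 2 * B) * β ^ 3) (fun k => by
      set y := β * ((q + k : ℕ) : ℝ) with hy
      have hy0 : 0 ≤ y := by positivity
      have e : y - x = β * (k - 1) := by rw [hy, hx]; push_cast; ring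
      have t1 := aexp_tay (x := x) (y := y) h.d1 h.d2 hd3 hM3 hx0 hy0
      have t2 := hG x y hx0 hy0
      have t3 := hS ((q + k : ℕ) : ℝ) (Nat.cast_nonneg _)
      rw [e, abs_mul, abs_of_pos hβ] at t1 t2
      rw [← hy] at t3
      have e2 : β ^ 3 * ((q + k : ℕ) : ℝ) = β ^ 2 * y := by rw [hy]; ring
      have t4 : |(exp (-(β ^ 2 * y)) - 1 + β ^ 2 * y) * φ y| ≤ 2 * B * (η * β ^ 2) := by
        clear * - β y φ B η hβ q k φ' hb hy0 hβη hβ1 hη0 hB
        rw [abs_mul]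
        calc |exp (-(β ^ 2 * y)) - 1 + β ^ 2 * y| * |φ y| ≤ (β ^ 2 * y) ^ 2 * |φ y| := by
              gcongr; exact aexp_psi_le (by positivity)
          _ = y ^ 2 * |φ y| * (β * β * β ^ 2) := by ring
          _ ≤ 2 * B * (η * 1 * β ^ 2) :=
              mul_le_mul (hb y hy0).2.2.2 (by gcongr) (by positivity) (by positivity)
          _ = _ := by ring
      have t5 : |exp (-(β ^ 2 * y)) * (φ (β' * ((q + k : ℕ) : ℝ)) - φ y)| ≤ B * (η * β ^ 2) := by
        clear * - β y φ β' q k B η hβ t3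
        rw [abs_mul, abs_of_pos (exp_pos _)]
        refine (mul_le_of_le_one_left (abs_nonneg _) (exp_le_one_iff.2 ?_)).trans t3
        have : 0 ≤ β ^ 2 * y := by positivity
        linarith
      have t6 : |β ^ 2 * (y * φ y - x * φ x)| ≤ 2 * B * β ^ 3 * |(k : ℝ) - 1| ^ 3 := by
        clear * - β y φ x B k hβ t2 hB
        rw [abs_mul, abs_of_pos (by positivity : 0 < β ^ 2)]
        calc β ^ 2 * |y * φ y - x * φ x| ≤ β ^ 2 * (2 * B * (β * |(k : ℝ) - 1|)) := by gcongr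
          _ ≤ β ^ 2 * (2 * B * (β * |(k : ℝ) - 1| ^ 3)) := by gcongr; exact aexp_abs_le k
          _ = _ := by ring
      show |exp (-(β ^ 3 * ((q + k : ℕ) : ℝ))) * φ (β' * ((q + k : ℕ) : ℝ)) - _| ≤ _
      rw [e2]
      rw [abs_le] at t1 t4 t5 t6 ⊢
      constructor <;> linarith only [t1, t4, t5, t6, t1.1, t1.2, t4.1, t4.2, t5.1, t5.2, t6.1, t6.2])
  have e3 : φ x - β ^ 2 * (x * φ x) + β ^ 2 * ((x - kap0) * φ x) = (1 - kap0 * β ^ 2) * φ x := by ring
  rw [e3] at key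
  refine key.trans ?_
  have h7 : (M + 2 * B) * β ^ 3 * aexp_C ≤ (M + 2 * B) * (η * β ^ 2) * aexp_C := by
    clear * - M B β η hβη hβ hB hκ hC
    gcongr
    calc β ^ 3 = β * β ^ 2 := by ring
      _ ≤ _ := by gcongr
  linarith only [h7]

theorem aexp_psi_ge {a : ℝ} (h0 : 0 ≤ a) (h1 : a ≤ 1) : a ^ 2 / 4 ≤ exp (-a) - 1 + a := by
  have h := Real.exp_bound (x := -a) (by rwa [abs_neg, abs_of_nonneg h0]) (n := 3) (by norm_num)
  rw [abs_neg, abs_of_nonneg h0, abs_le] at h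
  have h2 := h.1
  simp only [Finset.sum_range_succ, Finset.range_zero, Finset.sum_empty, Nat.factorial] at h2
  norm_num at h2
  linarith only [h2, h1, mul_nonneg (sq_nonneg a) (sub_nonneg.2 h1), sq_nonneg a]

theorem aexp_exact {a b : ℝ} (ha : 0 ≤ a) (hb : 0 ≤ b) (q : ℕ) :
    Pois (fun k => exp (-(a * k)) * (1 - exp (-(b * k)))) q =
      exp (-(a * (q + 1))) * (exp (exp (-a) - 1 + a) -
        exp (-(b * (q + 1))) * exp (exp (-(a + b)) - 1 + (a + b))) := by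
  have hbd : ∀ c : ℝ, 0 ≤ c → ∀ k : ℕ, |exp (-c * k)| ≤ 1 * exp (0 * k) := by
    intro c hc k
    rw [abs_of_pos (exp_pos _), one_mul]
    have : 0 ≤ c * k := by positivity
    exact exp_le_exp.2 (by linarith)
  have h := pois_add (hbd a ha) (hbd (a + b) (add_nonneg ha hb)) 1 (-1) q
  have e : (fun k : ℕ => exp (-(a * k)) * (1 - exp (-(b * k)))) =
      fun k : ℕ => 1 * exp (-a * k) + -1 * exp (-(a + b) * k) := by
    funext k
    rw [show -(a + b) * k = -(a * k) + -(b * k) by ring, exp_add, neg_mul]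
    ring
  rw [e, h, pois_exp, pois_exp, show -(a + b) * ((q : ℝ) + 1) = -(a * (q + 1)) + -(b * (q + 1)) by ring,
    exp_add, neg_mul, sub_neg_eq_add, sub_neg_eq_add]
  ring

theorem aexp_bracket {m K β β' x : ℝ} (hK : 1 ≤ K) (hm : m = 25 * K) (hβ : 0 < β)
    (hβ0 : β ≤ 1 / (4 * m)) (hβ' : 0 < β') (hlog : |log (β' / β)| ≤ β ^ 2) (hx : 0 ≤ x) :
    exp (exp (-β ^ 3) - 1 + β ^ 3) - exp (-(m * x * (β' / β))) *
        exp (exp (-(β ^ 3 + m * β')) - 1 + (β ^ 3 + m * β')) ≤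
      1 - exp (-(m * x)) + 2 * β ^ 2 - if m * x ≤ 1 then K * β ^ 2 else 0 := by
  have hm1 : 1 ≤ m := by linarith only [hK, hm]
  have hmβ : m * β ≤ 1 / 4 := by
    rw [le_div_iff₀ (by positivity)] at hβ0
    linarith only [hβ0]
  have hβ4 : β ≤ 1 / 4 := by clear * - β m K hβ hmβ hK hm; linarith only [hβ, hmβ, hK, hm, mul_nonneg_of_nonpos_of_nonpos (Mathlib.Tactic.Linarith.sub_nonpos_of_le hK) (le_of_lt (Mathlib.Tactic.Linarith.sub_neg_of_lt hβ)), Mathlib.Tactic.Linarith.zero_mul_eq (sub_eq_zero_of_eq hm) (Mathlib.Tactic.Linarith.sub_neg_of_lt hβ)]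
  have hβ2 : β ^ 2 ≤ 1 / 16 := by clear * - β m K hβ hmβ hK hm; linarith only [hβ, hmβ, hK, hm, mul_nonneg_of_nonpos_of_nonpos (Mathlib.Tactic.Linarith.sub_nonpos_of_le (sq_nonneg ((1 : ℝ) * β))) (Mathlib.Tactic.Linarith.sub_nonpos_of_le hK), Mathlib.Tactic.Linarith.mul_zero_eq (Mathlib.Tactic.Linarith.sub_nonpos_of_le (sq_nonneg ((1 : ℝ) * β))) (sub_eq_zero_of_eq hm), mul_nonneg_of_nonpos_of_nonpos (Mathlib.Tactic.Linarith.sub_nonpos_of_le hK) (le_of_lt (Mathlib.Tactic.Linarith.sub_neg_of_lt hβ)), Mathlib.Tactic.Linarith.zero_mul_eq (sub_eq_zero_of_eq hm) (Mathlib.Tactic.Linarith.sub_neg_of_lt hβ), mul_nonneg_of_nonpos_of_nonpos (le_of_lt (Mathlib.Tactic.Linarith.sub_neg_of_lt hβ)) (Mathlib.Tactic.Linarith.sub_nonpos_of_le hmβ)]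
  have hβ3 : β ^ 3 ≤ 1 / 64 := by clear * - β hβ2 hβ4; linarith only [hβ2, hβ4, sq_nonneg β, mul_nonneg_of_nonpos_of_nonpos (Mathlib.Tactic.Linarith.sub_nonpos_of_le (sq_nonneg β)) (Mathlib.Tactic.Linarith.sub_nonpos_of_le hβ4)]
  set r := β' / β with hr
  have hr0 : 0 < r := by positivity
  have hr1 : |r - 1| ≤ 2 * β ^ 2 := by
    clear * - r β hβ hβ4 hβ2 hlog hr0 x
    have := abs_exp_sub_one_le (x := log r) (by linarith only [hβ, hβ4, hβ2, hlog])
    rw [exp_log hr0] at this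
    linarith only [hlog, this]
  rw [abs_le] at hr1
  have hβr : β' = β * r := by rw [hr]; field_simp
  have h1 : exp (exp (-β ^ 3) - 1 + β ^ 3) ≤ 1 + β ^ 2 := by
    clear * - β hβ hβ2 hβ4 x
    have h2 := aexp_psi_le (a := β ^ 3) (by positivity)
    have h3 : (β ^ 3) ^ 2 ≤ β ^ 2 / 2 := by
      have : (β ^ 3) ^ 2 = β ^ 2 * (β ^ 2 * β ^ 2) := by ring
      rw [this]
      nlinarith only [hβ2, sq_nonneg β, mul_le_mul hβ2 hβ2 (sq_nonneg β) (by norm_num : (0 : ℝ) ≤ 1 / 16)]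
    have h4 := abs_exp_sub_one_le (x := exp (-β ^ 3) - 1 + β ^ 3) (by linarith only [hβ, hβ4, hβ2, h2, h3])
    linarith only [h2, h3, h4, (abs_le.1 h4).2]
  have h5 : exp (-(m * x)) - β ^ 2 ≤ exp (-(m * x * r)) := by
    clear * - m x β r hm1 hx hβ hβ4 β' hr1
    set t := m * x with ht
    have ht0 : 0 ≤ t := by positivity
    have h6 : t * exp (-t) ≤ 1 / 2 := by
      have hq := quadratic_le_exp_of_nonneg ht0
      have hE : exp t * exp (-t) = 1 := by rw [← exp_add]; simp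
      have hp := exp_pos (-t)
      have : 2 * t ≤ exp t := by linarith only [hβ, hβ4, hq, sq_nonneg (t - 1), sq_nonneg (t - (1 : ℝ))]
      (refine le_of_not_gt fun h_nl => ?_; linarith only [h_nl, this, hβ, hβ4, ht0, hE, hq, mul_nonneg_of_nonpos_of_nonpos (Mathlib.Tactic.Linarith.sub_nonpos_of_le (sq_nonneg ((1 : ℝ) * t))) (le_of_lt (Mathlib.Tactic.Linarith.sub_neg_of_lt h_nl)), mul_pos_of_neg_of_neg (Mathlib.Tactic.Linarith.sub_neg_of_lt hβ) (Mathlib.Tactic.Linarith.sub_neg_of_lt h_nl), mul_nonneg_of_nonpos_of_nonpos (Mathlib.Tactic.Linarith.sub_nonpos_of_le hβ4) (le_of_lt (Mathlib.Tactic.Linarith.sub_neg_of_lt h_nl)), Mathlib.Tactic.Linarith.mul_zero_eq (Mathlib.Tactic.Linarith.sub_nonpos_of_le ht0) (sub_eq_zero_of_eq hE), mul_nonneg_of_nonpos_of_nonpos (Mathlib.Tactic.Linarith.sub_nonpos_of_le ht0) (le_of_lt (Mathlib.Tactic.Linarith.sub_neg_of_lt h_nl)), mul_nonneg_of_nonpos_of_nonpos (Mathlib.Tactic.Linarith.sub_nonpos_of_le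 hq) (le_of_lt (Mathlib.Tactic.Linarith.sub_neg_of_lt h_nl))])
    have h7 : exp (-t) * (1 - t * (2 * β ^ 2)) ≤ exp (-(t * r)) := by
      rw [show -(t * r) = -t + -(t * (r - 1)) by ring, exp_add]
      refine mul_le_mul_of_nonneg_left ?_ (exp_pos _).le
      have := add_one_le_exp (-(t * (r - 1)))
      have : t * (r - 1) ≤ t * (2 * β ^ 2) := mul_le_mul_of_nonneg_left hr1.2 ht0
      linarith
    linarith only [h7, h6, sq_nonneg β, mul_nonneg_of_nonpos_of_nonpos (Mathlib.Tactic.Linarith.sub_nonpos_of_le (sq_nonneg β)) (Mathlib.Tactic.Linarith.sub_nonpos_of_le h6)]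
  set s := β ^ 3 + m * β' with hs
  have hmb : m * β' = m * β * r := by rw [hβr]; ring
  have hs0 : m * β / 2 ≤ s := by
    clear * - m β r β' hβ hβ4 hβ2 hr1 hm1 s hmb
    have : m * β * (1 / 2) ≤ m * β * r := mul_le_mul_of_nonneg_left (by linarith only [hβ, hβ4, hβ2, hr1]) (by positivity)
    have : 0 < β ^ 3 := by positivity
    linarith
  have hs1 : s ≤ 1 := by
    clear * - m β r hmβ β' hβ hβ4 hβ2 hr1 hr0 s hβ3 hmb
    have : m * β * r ≤ 1 / 4 * 2 := mul_le_mul hmβ (by linarith only [hβ, hβ4, hβ2, hr1]) hr0.le (by norm_num)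
    linarith only [hβ, hβ4, hβ3, hmb, this]
  have hmβ0 : 0 < m * β / 2 := by positivity
  have h8 := aexp_psi_ge (hmβ0.le.trans hs0) hs1
  have h9 : 1 + (m * β / 2) ^ 2 / 4 ≤ exp (exp (-s) - 1 + s) := by
    clear * - s m β hm1 hβ hs0 β' h8
    have := add_one_le_exp (exp (-s) - 1 + s)
    have : (m * β / 2) ^ 2 ≤ s ^ 2 := by gcongr
    linarith
  have h10 : exp (-(m * x * r)) * (1 + (m * β / 2) ^ 2 / 4) ≤
      exp (-(m * x * r)) * exp (exp (-s) - 1 + s) := mul_le_mul_of_nonneg_left h9 (exp_pos _).le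
  have h11 : (if m * x ≤ 1 then K * β ^ 2 else 0) ≤ exp (-(m * x * r)) * ((m * β / 2) ^ 2 / 4) := by
    clear * - m x K β r β' hβ hβ4 hβ2 hr1 hr0 hm hK hm1
    split_ifs with hc
    · have h12 : 1 / 9 ≤ exp (-(m * x * r)) := by
        have h13 : m * x * r ≤ 1 * 2 := mul_le_mul hc (by linarith only [hβ, hβ4, hβ2, hr1]) hr0.le (by norm_num)
        have h14 : exp 2 ≤ 9 := by
          rw [show (2 : ℝ) = 1 + 1 by norm_num, exp_add]
          (refine le_of_not_gt fun h_nl => ?_; linarith only [h_nl, hβ4, hβ, exp_one_lt_d9, exp_pos 1, mul_pos_of_neg_of_neg (Mathlib.Tactic.Linarith.sub_neg_of_lt hβ) (Mathlib.Tactic.Linarith.sub_neg_of_lt hβ), mul_nonneg_of_nonpos_of_nonpos (le_of_lt (Mathlib.Tactic.Linarith.sub_neg_of_lt hβ)) (Mathlib.Tactic.Linarith.sub_nonpos_of_le hβ4), mul_pos_of_neg_of_neg (Mathlib.Tactic.Linarith.sub_neg_of_lt hβ) (Mathlib.Tactic.Linarith.sub_neg_of_lt h_nl), mul_pos_of_neg_of_neg (Mathlib.Tactic.Linarith.sub_neg_of_lt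 hβ) (Mathlib.Tactic.Linarith.sub_neg_of_lt exp_one_lt_d9), mul_nonneg_of_nonpos_of_nonpos (Mathlib.Tactic.Linarith.sub_nonpos_of_le hβ4) (le_of_lt (Mathlib.Tactic.Linarith.sub_neg_of_lt h_nl)), mul_nonneg_of_nonpos_of_nonpos (Mathlib.Tactic.Linarith.sub_nonpos_of_le hβ4) (le_of_lt (Mathlib.Tactic.Linarith.sub_neg_of_lt exp_one_lt_d9)), mul_pos_of_neg_of_neg (Mathlib.Tactic.Linarith.sub_neg_of_lt exp_one_lt_d9) (Mathlib.Tactic.Linarith.sub_neg_of_lt (exp_pos (1 : ℝ)))])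
        calc (1 / 9 : ℝ) ≤ (exp 2)⁻¹ := by rw [one_div]; exact inv_anti₀ (exp_pos _) h14
          _ = exp (-2) := (exp_neg 2).symm
          _ ≤ _ := exp_le_exp.2 (by linarith only [h13])
      calc K * β ^ 2 ≤ 1 / 9 * ((m * β / 2) ^ 2 / 4) := by
            rw [hm]
            have : 0 ≤ K * (K - 1) * β ^ 2 := by
              have : 0 ≤ K - 1 := by linarith only [hK]
              positivity
            have : 0 ≤ K * β ^ 2 := by positivity
            nlinarith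
        _ ≤ _ := by gcongr
    · positivity
  clear * - β m x r s K h1 h5 h10 h11
  linarith only [h1, h5, h10, h11]

theorem pois_cor {φ φ' : ℝ → ℝ} (h : IsPhi φ φ') : ∃ m C β0 : ℝ, 1 ≤ m ∧ 0 ≤ C ∧ 0 < β0 ∧
    ∀ β β' : ℝ, 0 < β → β ≤ β0 → 0 < β' → |log (β' / β)| ≤ β ^ 2 → ∀ q : ℕ,
    Pois (fun k => exp (-(β ^ 3 * k)) * (1 - exp (-(m * (β' * k))))) q ≤
      exp (-((kap0 + 2) * β ^ 2)) * (1 - exp (-(m * (β * (q + 1))))) - β ^ 2 +
        C * β ^ 2 * φ (β * (q + 1)) := by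
  have hκ := kap0_pos
  set K := kap0 + 5 with hK
  set m := 25 * K with hm
  have hK1 : 1 ≤ K := by linarith
  have hm1 : 1 ≤ m := by linarith
  have hcont : Continuous φ := continuous_iff_continuousAt.2 fun x => (h.d1 x).continuousAt
  have hle : 1 / m ≤ 4 * K := by
    have : 1 / m ≤ 1 := by rw [div_le_one (by linarith)]; exact hm1
    linarith only [hκ, this]
  obtain ⟨x0, hx0, hmin⟩ := (isCompact_Icc (a := 1 / m) (b := 4 * K)).exists_isMinOn
    (Set.nonempty_Icc.2 hle) hcont.continuousOn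
  have hφ0 : 0 < φ x0 := h.pos x0 (lt_of_lt_of_le (by positivity) hx0.1)
  refine ⟨m, K / φ x0, 1 / (4 * m), hm1, by positivity, by positivity,
    fun β β' hβ hβ0 hβ' hlog q => ?_⟩
  set x := β * (q + 1) with hx
  have hxp : 0 < x := by positivity
  have hφx := h.pos x hxp
  have hnn : 0 ≤ Pois (fun k => exp (-(β ^ 3 * k)) * (1 - exp (-(m * β' * k)))) q :=
    tsum_nonneg fun k => mul_nonneg (aexp_p_nonneg k) (mul_nonneg (exp_pos _).le
      (sub_nonneg.2 (exp_le_one_iff.2 (neg_nonpos.2 (by positivity)))))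
  have hbr := aexp_bracket hK1 hm hβ hβ0 hβ' hlog hxp.le
  simp only [← mul_assoc m β']
  rw [aexp_exact (by positivity) (by positivity),
    show β ^ 3 * ((q : ℝ) + 1) = β ^ 2 * x by rw [hx]; ring,
    show m * β' * ((q : ℝ) + 1) = m * x * (β' / β) by rw [hx]; field_simp] at hnn ⊢
  set Br := exp (exp (-β ^ 3) - 1 + β ^ 3) - exp (-(m * x * (β' / β))) *
    exp (exp (-(β ^ 3 + m * β')) - 1 + (β ^ 3 + m * β')) with hBr
  have hBr0 : 0 ≤ Br := nonneg_of_mul_nonneg_right hnn (exp_pos _)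
  set u := 1 - exp (-(m * x)) with hu
  have hu0 : 0 ≤ u := sub_nonneg.2 (exp_le_one_iff.2 (neg_nonpos.2 (by positivity)))
  have hu1 : u ≤ 1 := by linarith only [exp_pos (-(m * x))]
  have hb2 : 0 < β ^ 2 := by positivity
  have h1 : (1 - (kap0 + 2) * β ^ 2) * u ≤ exp (-((kap0 + 2) * β ^ 2)) * u :=
    mul_le_mul_of_nonneg_right (by linarith only [add_one_le_exp (-((kap0 + 2) * β ^ 2))]) hu0
  have h2 : (kap0 + 2) * β ^ 2 * u ≤ (kap0 + 2) * β ^ 2 := mul_le_of_le_one_right (by positivity) hu1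
  have h3 : exp (-(β ^ 2 * x)) * Br ≤ Br :=
    mul_le_of_le_one_left hBr0 (exp_le_one_iff.2 (neg_nonpos.2 (by positivity)))
  have h4 : 0 ≤ K / φ x0 * β ^ 2 * φ x := by positivity
  by_cases hc : m * x ≤ 1
  · rw [if_pos hc] at hbr
    clear * - β x Br u K φ x0 m β' hbr h1 h2 h3 h4
    linarith only [hbr, h1, h2, h3, h4]
  rw [if_neg hc] at hbr
  rcases le_total x (4 * K) with hX | hX
  · have h5 : φ x0 ≤ φ x := hmin ⟨by rw [div_le_iff₀ (by positivity)]; linarith only [hc], hX⟩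
    have h6 : K * β ^ 2 ≤ K / φ x0 * β ^ 2 * φ x := by
      calc K * β ^ 2 = K / φ x0 * β ^ 2 * φ x0 := by field_simp
        _ ≤ _ := by gcongr
    clear * - β x Br u K φ x0 m β' hbr h1 h2 h3 h6
    linarith only [hbr, h1, h2, h3, h6]
  · have h5 : 1 / 2 ≤ u := by
      clear * - m x β q K hc u
      have h6 : exp (-(m * x)) ≤ exp (-1) := exp_le_exp.2 (by linarith only [hc])
      linarith only [h6, exp_neg_one_lt_d9]
    have h7 : β ^ 2 * (4 * K) ≤ 1 := by
      clear * - β K hβ m hm hκ hβ0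
      rw [le_div_iff₀ (by positivity), hm] at hβ0
      linarith only [hβ, hβ0, hκ, mul_pos_of_neg_of_neg (Mathlib.Tactic.Linarith.sub_neg_of_lt hκ) (Mathlib.Tactic.Linarith.sub_neg_of_lt hβ), mul_nonneg_of_nonpos_of_nonpos (le_of_lt (Mathlib.Tactic.Linarith.sub_neg_of_lt hβ)) (Mathlib.Tactic.Linarith.sub_nonpos_of_le hβ0)]
    have h8 : exp (-(β ^ 2 * x)) ≤ 1 - β ^ 2 * (4 * K) / 2 := by
      clear * - β K x hβ hκ hX hb2 h7
      set t := β ^ 2 * (4 * K) with ht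
      have ht0 : 0 ≤ t := by positivity
      have h9 : exp (-(β ^ 2 * x)) ≤ exp (-t) :=
        exp_le_exp.2 (neg_le_neg (mul_le_mul_of_nonneg_left hX hb2.le))
      have hE : exp t * exp (-t) = 1 := by rw [← exp_add]; simp
      have h10 : (1 + t) * exp (-t) ≤ 1 := by
        rw [← hE]
        exact mul_le_mul_of_nonneg_right (by linarith only [hE, add_one_le_exp t]) (exp_pos _).le
      have h11 : exp (-t) ≤ 1 - t / 2 := by
        by_contra hn
        have := mul_lt_mul_of_pos_left (not_le.1 hn) (by linarith only [ht0] : 0 < 1 + t)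
        linarith only [h10, this, h7, ht0, mul_nonneg_of_nonpos_of_nonpos (Mathlib.Tactic.Linarith.sub_nonpos_of_le h7) (Mathlib.Tactic.Linarith.sub_nonpos_of_le ht0)]
      linarith only [h9, h11]
    have h12 : exp (-(β ^ 2 * x)) * Br ≤ exp (-(β ^ 2 * x)) * (u + 2 * β ^ 2) :=
      mul_le_mul_of_nonneg_left (by linarith only [hbr]) (exp_pos _).le
    have h13 : exp (-(β ^ 2 * x)) * u ≤ (1 - β ^ 2 * (4 * K) / 2) * u :=
      mul_le_mul_of_nonneg_right h8 hu0
    have h14 : exp (-(β ^ 2 * x)) * (2 * β ^ 2) ≤ 2 * β ^ 2 :=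
      mul_le_of_le_one_left (by positivity) (exp_le_one_iff.2 (neg_nonpos.2 (by positivity)))
    have h15 : (kap0 + 8) * β ^ 2 * (1 / 2) ≤ (kap0 + 8) * β ^ 2 * u :=
      mul_le_mul_of_nonneg_left h5 (by positivity)
    have h16 : 0 ≤ kap0 * β ^ 2 := by positivity
    rw [hK] at h13
    clear * - β x Br u K φ x0 m β' hb2 h1 h4 h12 h13 h14 h15 h16
    linarith only [hb2, h1, h4, h12, h13, h14, h15, h16]

end Pool.Agent.Work.MP_5391ad_co
end
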