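import Mathlib

/-! Analytic objects: tree function, Airy zero, main term. -/

namespace Pool.Agent.Work.MP_5391ad_co

open Real

/-- the largest zero of the Airy function: the supremum of the zeros of the nonzero solutions of
`y'' = x y` which tend to zero at `+∞` -/
noncomputable def airyZero : ℝ :=
  sSup {a | ∃ y y' : ℝ → ℝ, (∀ x, HasDerivAt y (y' x) x) ∧ (∀ x, HasDerivAt y' (x * y x) x) ∧
    Filter.Tendsto y Filter.atTop (nhds 0) ∧ y ≠ 0 ∧ y a = 0}

/-- the constant of the stretched exponential -/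
noncomputable def kappa : ℝ :=
  |airyZero| * (2 : ℝ) ^ (-(1 / 3) : ℝ) * (Gamma (2 / 3) ^ 2 / Gamma (4 / 3))

/-- the solution `L > e ^ 2` of `L (log ^ 2 L - π ^ 2 / 6) = n` -/
noncomputable def ell (n : ℝ) : ℝ := sInf {L | exp 2 ≤ L ∧ n ≤ L * (log L ^ 2 - π ^ 2 / 6)}

/-- the principal eigenvalue -/
noncomputable def kap0 : ℝ := |airyZero| * (2 : ℝ) ^ (-(1 / 3) : ℝ)

/-- logarithm of the main term -/
noncomputable def FF (n : ℝ) : ℝ :=
  (n + 2 * ell n) * (log (ell n) - 1) - kappa * ell n ^ (1 / 3 : ℝ)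

/-- the tree function on `[0, 1 / e]` -/
noncomputable def lamT (x : ℝ) : ℝ := sInf {τ | 0 ≤ τ ∧ x * exp τ ≤ τ}

/-- the tree function along the exploration -/
noncomputable def tau (t x : ℝ) : ℝ := lamT (t * exp (t * x))

/-- total birth rate with `x` served vertices -/
noncomputable def Lam (t x : ℝ) : ℝ := t * x + tau t x

/-- the critical time -/
noncomputable def xc (t : ℝ) : ℝ := t⁻¹ * (log t⁻¹ - 1)

/-- logarithmic derivative of the rate -/
noncomputable def eh (t x : ℝ) : ℝ := t * tau t x / (1 - tau t x) ^ 2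

/-- the rate of the service after which `n` of `b` vertices remain, with shift `y` -/
noncomputable def rate (t y : ℝ) (b n : ℕ) : ℝ :=
  Lam t (y + (b - n : ℕ)) - Lam t (y + (b - n : ℕ) - 1)

/-- one step of the walk with Poisson offspring -/
noncomputable def Pois (h : ℕ → ℝ) (q : ℕ) : ℝ :=
  ∑' k : ℕ, exp (-1) / k.factorial * h (q + k)

/-- the profile without the Airy term -/
noncomputable def prof (n L : ℝ) : ℝ :=
  n * log L - L * (log L ^ 2 - 2 * log L + 2 - π ^ 2 / 6)

end Pool.Agent.Work.MP_5391ad_co
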