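import Mathlib
import Pool.Agent.Work.MP_5391ad_co.ADef

-- merged part: Pool.Agent.Work.MP_5391ad_co.Struct
section
/-! Structure of the digraph of a nearly decomposable matrix with positive diagonal. -/

namespace Pool.Agent.Work.MP_5391ad_co

open Finset

variable {V : Type*}

/-- strongly connected, every arc critical, every diagonal entry critical -/
structure Good (D : V → V → Prop) : Prop where
  irr : ∀ a, ¬ D a a
  sc : ∀ S : Set V, S.Nonempty → Sᶜ.Nonempty → ∃ a b, a ∉ S ∧ b ∈ S ∧ D a b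
  cr : ∀ u v, D u v → ∃ S : Set V, v ∈ S ∧ u ∉ S ∧
    ∀ a b, a ∉ S → b ∈ S → D a b → a = u ∧ b = v
  dg : ∀ v, ∃ (X Y : Set V) (z : V), v ∈ X ∧ v ∈ Y ∧ z ∉ X ∧ z ∉ Y ∧
    (∀ x, x ∈ X ∨ x ∈ Y ∨ x = z) ∧ ∀ a b, a ∈ X → b ∈ Y → ¬ D a b

/-- reversed digraph -/
def rv (D : V → V → Prop) : V → V → Prop := fun a b => D b a

theorem Good.rev {D : V → V → Prop} (h : Good D) : Good (rv D) where
  irr := h.irr
  sc S h1 h2 := by
    obtain ⟨a, b, ha, hb, hab⟩ := h.sc Sᶜ h2 (by simpa using h1)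
    exact ⟨b, a, hb, by simpa using ha, hab⟩
  cr u v huv := by
    obtain ⟨S, h1, h2, h3⟩ := h.cr v u huv
    refine ⟨Sᶜ, h2, by simpa using h1, fun a b ha hb hab => ?_⟩
    have := h3 b a hb (by simpa using ha) hab
    exact ⟨this.2, this.1⟩
  dg v := by
    obtain ⟨X, Y, z, h1, h2, h3, h4, h5, h6⟩ := h.dg v
    refine ⟨Y, X, z, h2, h1, h4, h3, fun x => ?_, fun a b ha hb => h6 b a hb ha⟩
    rcases h5 x with h | h | h <;> simp [h]

/-- a set avoiding the root whose only possible entering arc is `(u, v)` -/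
def Cut (D : V → V → Prop) (s u v : V) (S : Set V) : Prop :=
  s ∉ S ∧ ∀ a b, a ∉ S → b ∈ S → D a b → a = u ∧ b = v

/-- the largest such set -/
def SS (D : V → V → Prop) (s u v : V) : Set V := {x | ∃ S, Cut D s u v S ∧ x ∈ S}

/-- out-bridge -/
def OB (D : V → V → Prop) (s u v : V) : Prop := D u v ∧ v ∈ SS D s u v

/-- in-degree at least two -/
def Br (D : V → V → Prop) (v : V) : Prop := ∃ a a', a ≠ a' ∧ D a v ∧ D a' v

/-- in-degree at least two, with an entering out-bridge -/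
def Bs (D : V → V → Prop) (s v : V) : Prop := Br D v ∧ ∃ u, OB D s u v

/-- an arc that is both an out-bridge and an in-bridge -/
def Both (D : V → V → Prop) (s u v : V) : Prop := OB D s u v ∧ OB (rv D) s v u

variable {D : V → V → Prop} {s : V}

theorem both_rev {u v : V} : Both (rv D) s v u ↔ Both D s u v := by
  unfold Both; exact ⟨fun h => ⟨h.2, h.1⟩, fun h => ⟨h.2, h.1⟩⟩

theorem cut_SS (D : V → V → Prop) (s u v : V) : Cut D s u v (SS D s u v) := by
  refine ⟨?_, ?_⟩
  · rintro ⟨S, hS, h⟩; exact hS.1 h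
  · rintro a b ha ⟨S, hS, hb⟩ hab
    exact hS.2 a b (fun h => ha ⟨S, hS, h⟩) hb hab

theorem Cut.sub {u v : V} {S : Set V} (h : Cut D s u v S) : S ⊆ SS D s u v :=
  fun _ hx => ⟨S, h, hx⟩

theorem Good.empty (h : Good D) {S : Set V} {y : V} (hy : y ∉ S)
    (hS : ∀ a b, a ∉ S → b ∈ S → ¬ D a b) {x : V} : x ∉ S := by
  intro hx
  obtain ⟨a, b, ha, hb, hab⟩ := h.sc S ⟨x, hx⟩ ⟨y, hy⟩
  exact hS a b ha hb hab

theorem Good.ob_of_cut (h : Good D) {u v x : V} {S : Set V} (hS : Cut D s u v S) (hx : x ∈ S) :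
    OB D s u v ∧ u ∉ S ∧ v ∈ S := by
  obtain ⟨a, b, ha, hb, hab⟩ := h.sc S ⟨x, hx⟩ ⟨s, hS.1⟩
  obtain ⟨rfl, rfl⟩ := hS.2 a b ha hb hab
  exact ⟨⟨hab, hS.sub hb⟩, ha, hb⟩

theorem Good.tail_not_mem (h : Good D) {u v : V} (ho : OB D s u v) : u ∉ SS D s u v :=
  (h.ob_of_cut (cut_SS D s u v) ho.2).2.1

theorem Good.ob_or (h : Good D) (s : V) {u v : V} (huv : D u v) :
    OB D s u v ∨ OB (rv D) s v u := by
  obtain ⟨S, h1, h2, h3⟩ := h.cr u v huv
  by_cases hs : s ∈ S
  · right
    refine (h.rev.ob_of_cut (S := Sᶜ) (x := u) ⟨by simpa using hs, fun a b ha hb hab => ?_⟩ h2).1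
    have := h3 b a hb (by simpa using ha) hab
    exact ⟨this.2, this.1⟩
  · left
    exact (h.ob_of_cut ⟨hs, h3⟩ h1).1

theorem Good.mem_of_arc {u v a b : V} (hb : b ∈ SS D s u v) (hab : D a b)
    (hne : ¬ (a = u ∧ b = v)) : a ∈ SS D s u v := by
  by_contra ha
  exact hne ((cut_SS D s u v).2 a b ha hb hab)

theorem Good.ob_unique (h : Good D) {u u' v : V} (h1 : OB D s u v) (h2 : OB D s u' v) :
    u = u' := by
  by_contra hne
  have hu : u ∈ SS D s u' v := Good.mem_of_arc h2.2 h1.1 (fun e => hne e.1)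
  have hu' : u' ∈ SS D s u v := Good.mem_of_arc h1.2 h2.1 (fun e => hne e.1.symm)
  refine h.empty (S := SS D s u v ∪ SS D s u' v) (y := s) (x := v) ?_ ?_ (Or.inl h1.2)
  · rintro (e | e)
    · exact (cut_SS D s u v).1 e
    · exact (cut_SS D s u' v).1 e
  · rintro a b ha (hb | hb) hab
    · obtain ⟨rfl, rfl⟩ := (cut_SS D s u v).2 a b (fun e => ha (Or.inl e)) hb hab
      exact ha (Or.inr hu)
    · obtain ⟨rfl, rfl⟩ := (cut_SS D s u' v).2 a b (fun e => ha (Or.inr e)) hb hab
      exact ha (Or.inl hu')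

theorem sub_of_tail_mem {u v u' v' : V} (hu : u ∈ SS D s u' v') :
    SS D s u v ⊆ SS D s u' v' := by
  have : Cut D s u' v' (SS D s u v ∪ SS D s u' v') := by
    refine ⟨?_, ?_⟩
    · rintro (e | e)
      · exact (cut_SS D s u v).1 e
      · exact (cut_SS D s u' v').1 e
    · rintro a b ha (hb | hb) hab
      · obtain ⟨rfl, rfl⟩ := (cut_SS D s u v).2 a b (fun e => ha (Or.inl e)) hb hab
        exact absurd (Or.inr hu) ha
      · exact (cut_SS D s u' v').2 a b (fun e => ha (Or.inr e)) hb hab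
  exact fun x hx => this.sub (Or.inl hx)

theorem Good.not_mem_of_mem (h : Good D) {u v u' v' : V} (h1 : OB D s u v) (h2 : OB D s u' v')
    (hne : v ≠ v') (hv : v ∈ SS D s u' v') : v' ∉ SS D s u v := by
  intro hv'
  have hu : u ∈ SS D s u' v' := Good.mem_of_arc hv h1.1 (fun e => hne e.2)
  have hu' : u' ∈ SS D s u v := Good.mem_of_arc hv' h2.1 (fun e => hne e.2.symm)
  exact h.tail_not_mem h2 (sub_of_tail_mem hu hu')

theorem Good.laminar (h : Good D) {u v u' v' : V} (h1 : OB D s u v) (h2 : OB D s u' v')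
    (hne : v ≠ v') :
    v ∉ SS D s u' v' ∨ v' ∉ SS D s u v := by
  by_cases hv : v ∈ SS D s u' v'
  · exact Or.inr (h.not_mem_of_mem h1 h2 hne hv)
  · exact Or.inl hv

theorem Good.exists_other {u v : V} (hb : Br D v) : ∃ u', u' ≠ u ∧ D u' v := by
  obtain ⟨a, a', hne, ha, ha'⟩ := hb
  by_cases e : a = u
  · exact ⟨a', fun e' => hne (e.trans e'.symm), ha'⟩
  · exact ⟨a, e, ha⟩

theorem eq_of_not_br {a a' v : V} (hb : ¬ Br D v) (ha : D a v) (ha' : D a' v) : a = a' := by
  by_contra hne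
  exact hb ⟨a, a', hne, ha, ha'⟩

theorem Good.ob_of_not_br (h : Good D) {u v : V} (hb : ¬ Br D v) (huv : D u v) (hs : v ≠ s) :
    OB D s u v := by
  refine (h.ob_of_cut (S := {v}) (x := v) ⟨fun e => hs (Set.mem_singleton_iff.1 e).symm, ?_⟩
    rfl).1
  intro a b _ hb' hab
  obtain rfl : b = v := hb'
  exact ⟨eq_of_not_br hb hab huv, rfl⟩

theorem Good.both_of_bs (h : Good D) {v w : V} (hv : Bs D s v)
    (hc : ¬ Br (rv D) v) (hw : D v w) : Both D s v w := by
  obtain ⟨hb, u, hu⟩ := hv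
  have hvs : v ≠ s := fun e => (cut_SS D s u v).1 (e ▸ hu.2)
  refine ⟨?_, h.rev.ob_of_not_br hc hw hvs⟩
  obtain ⟨u', hne, hu'⟩ := Good.exists_other (u := u) hb
  have hm : u' ∈ SS D s u v := Good.mem_of_arc hu.2 hu' (fun e => hne e.1)
  have hne' : u' ≠ v := fun e => h.irr v (e ▸ hu')
  refine (h.ob_of_cut (S := SS D s u v \ {v}) (x := u') ⟨fun e => (cut_SS D s u v).1 e.1, ?_⟩
    ⟨hm, hne'⟩).1
  intro a b ha hb' hab
  by_cases hav : a = v
  · subst hav
    exact ⟨rfl, eq_of_not_br (D := rv D) hc hab hw⟩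
  · have : a ∉ SS D s u v := fun e => ha ⟨e, hav⟩
    exact absurd ((cut_SS D s u v).2 a b this hb'.1 hab).2 hb'.2

theorem Good.diag_sub (h : Good D) {u v z : V} {X Y : Set V} (hb : Br D v) (hu : OB D s u v)
    (h1 : v ∈ X) (h2 : v ∈ Y) (h5 : ∀ x, x ∈ X ∨ x ∈ Y ∨ x = z)
    (h6 : ∀ a b, a ∈ X → b ∈ Y → ¬ D a b) : X ⊆ SS D s u v ∧ z ∈ SS D s u v := by
  have hz : z ∈ SS D s u v := by
    by_contra hz
    obtain ⟨u', hne, hu'⟩ := Good.exists_other (u := u) hb
    have hm : u' ∈ SS D s u v := Good.mem_of_arc hu.2 hu' (fun e => hne e.1)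
    refine h.empty (S := SS D s u v \ X) (y := s) (x := u')
      (fun e => (cut_SS D s u v).1 e.1) ?_ ⟨hm, fun e => h6 u' v e h2 hu'⟩
    intro a b ha hb' hab
    by_cases haX : a ∈ X
    · rcases h5 b with e | e | e
      · exact hb'.2 e
      · exact h6 a b haX e hab
      · exact hz (e ▸ hb'.1)
    · have : a ∉ SS D s u v := fun e => ha ⟨e, haX⟩
      exact hb'.2 (((cut_SS D s u v).2 a b this hb'.1 hab).2 ▸ h1)
  refine ⟨fun x hx => ?_, hz⟩
  by_contra hxS
  refine h.rev.empty (S := X \ SS D s u v) (y := v) (x := x) (fun e => e.2 hu.2) ?_ ⟨hx, hxS⟩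
  intro b a hb' ha hab
  have hbS : b ∈ SS D s u v := by
    rcases h5 b with e | e | e
    · by_contra e'; exact hb' ⟨e, e'⟩
    · exact absurd hab (h6 a b ha.1 e)
    · exact e ▸ hz
  obtain ⟨-, rfl⟩ := (cut_SS D s u v).2 a b ha.2 hbS hab
  exact h6 a b ha.1 h2 hab

theorem Good.not_bs_bs (h : Good D) {v : V} (h1 : Bs D s v)
    (h2 : Bs (rv D) s v) : False := by
  obtain ⟨X, Y, z, a1, a2, -, -, a5, a6⟩ := h.dg v
  obtain ⟨hb, u, hu⟩ := h1
  obtain ⟨hc, w, hw⟩ := h2
  have p := h.diag_sub hb hu a1 a2 a5 a6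
  have q := h.rev.diag_sub (X := Y) (Y := X) (z := z) hc hw a2 a1
    (fun x => by rcases a5 x with e | e | e <;> simp [e]) (fun a b ha hb => a6 b a hb ha)
  rcases a5 s with e | e | e
  · exact (cut_SS D s u v).1 (p.1 e)
  · exact (cut_SS _ s w v).1 (q.1 e)
  · exact (cut_SS D s u v).1 (e ▸ p.2)

/-- along a chain of doubly critical arcs the cuts are nested -/
theorem chain_mem {u v w : V} (hu : OB D s u v)
    (hc : Relation.ReflTransGen (Both D s) v w) : w ∈ SS D s u v := by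
  induction hc with
  | refl => exact hu.2
  | tail _ hb ih => exact sub_of_tail_mem ih hb.1.2

theorem Good.sub_of_ends (h : Good D) {u v w w' : V} (hn : ¬ OB D s w w')
    (hv : v ∈ SS (rv D) s w' w) :
    SS D s u v ⊆ SS (rv D) s w' w := by
  intro x hx
  by_contra hxT
  refine hn (h.ob_of_cut (S := SS D s u v \ SS (rv D) s w' w)
    (x := x) ⟨fun e => (cut_SS D s u v).1 e.1, ?_⟩ ⟨hx, hxT⟩).1
  intro a b ha hb hab
  by_cases haT : a ∈ SS (rv D) s w' w
  · have := (cut_SS _ s w' w).2 b a hb.2 haT hab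
    exact ⟨this.2, this.1⟩
  · have : a ∉ SS D s u v := fun e => ha ⟨e, haT⟩
    exact absurd (((cut_SS D s u v).2 a b this hb.1 hab).2 ▸ hv) hb.2

end Pool.Agent.Work.MP_5391ad_co
end

-- merged part: Pool.Agent.Work.MP_5391ad_co.PDef
section
/-! Rooted digraphs: walks, domination, bridges, object codes and the two reduction phases. -/

namespace Pool.Agent.Work.MP_5391ad_co

open Finset
open scoped Classical

variable {α : Type*}

/-- a walk from `x` to `y` all of whose vertices avoid `B` -/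
def Av (D : α → α → Prop) (B : Set α) (x y : α) : Prop :=
  x ∉ B ∧ Relation.ReflTransGen (fun a b => D a b ∧ b ∉ B) x y

/-- `z` strictly dominates `x` -/
def dom (D : α → α → Prop) (s z x : α) : Prop := x ≠ z ∧ ¬ Av D {z} s x

/-- `z` strictly post-dominates `x` -/
def pdom (D : α → α → Prop) (s z x : α) : Prop := x ≠ z ∧ ¬ Av D {z} x s

/-- out-bridge: every walk from the root to `v` uses the arc `(u, v)` -/
def OBr (D : α → α → Prop) (s u v : α) : Prop :=
  D u v ∧ ¬ Relation.ReflTransGen (fun a b => D a b ∧ ¬ (a = u ∧ b = v)) s v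

/-- in-bridge: every walk from `u` to the root uses the arc `(u, v)` -/
def IBr (D : α → α → Prop) (s u v : α) : Prop :=
  D u v ∧ ¬ Relation.ReflTransGen (fun a b => D a b ∧ ¬ (a = u ∧ b = v)) u s

/-- `u` lies on a closed walk avoiding `B` -/
def CycA (D : α → α → Prop) (B : Set α) (u : α) : Prop := ∃ v, D u v ∧ Av D B v u

/-- same strong component of `D - s` -/
def Sc (D : α → α → Prop) (s x y : α) : Prop := Av D {s} x y ∧ Av D {s} y x

/-- good rooted digraph on the vertex set `V` -/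
structure GR (V : Finset α) (D : α → α → Prop) (s : α) : Prop where
  root : s ∈ V
  mem : ∀ a b, D a b → a ∈ V ∧ b ∈ V
  irr : ∀ a, ¬ D a a
  fwd : ∀ x ∈ V, Relation.ReflTransGen D s x
  bwd : ∀ x ∈ V, Relation.ReflTransGen D x s
  cr : ∀ u v, D u v → OBr D s u v ∨ IBr D s u v
  dg : ∀ u, CycA D {s} u →
    ∃ z, z ≠ u ∧ z ≠ s ∧ ¬ CycA D {s, z} u ∧ (dom D s z u ∨ pdom D s z u)

/-- the strong component of `u` has a post-dominator outside, or a unique exit arc, into `s` -/
def CCase (D : α → α → Prop) (s u : α) : Prop :=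
  (∃ g, g ≠ s ∧ ¬ Sc D s u g ∧ pdom D s g u) ∨
    ∃ b, Sc D s u b ∧ D b s ∧ ∀ x y, Sc D s u x → D x y → ¬ Sc D s u y → x = b ∧ y = s

/-- the only out-arc of `x` goes to the root -/
def Snk (D : α → α → Prop) (s x : α) : Prop := ∀ y, D x y ↔ y = s

/-- the only in-arc of `x` comes from the root -/
def Src (D : α → α → Prop) (s x : α) : Prop := ∀ y, D y x ↔ y = s

/-- `w` has a post-dominator other than the root, or its arc to the root is an in-bridge -/
def PDd (D : α → α → Prop) (s w : α) : Prop := (∃ y, y ≠ s ∧ pdom D s y w) ∨ IBr D s w s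

/-- a linear vertex whose in-arc is not an in-bridge and whose out-arc is not an out-bridge -/
def IsEar (D : α → α → Prop) (s x : α) : Prop :=
  ∃ u y, (∀ a, D a x ↔ a = u) ∧ (∀ a, D x a ↔ a = y) ∧ ¬ IBr D s u x ∧ ¬ OBr D s x y

/-- code of a deleted object: hubs, parent arcs, target arcs, one forced arc -/
structure OCode (α : Type*) where
  H : Finset α
  par : α → Option α
  tgt : α → Option α
  frc : Option α

noncomputable instance [Fintype α] : Fintype (OCode α) :=
  Fintype.ofInjective (fun c : OCode α => (c.H, c.par, c.tgt, c.frc)) (by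
    rintro ⟨a, b, c, d⟩ ⟨a', b', c', d'⟩ h
    simp only [Prod.mk.injEq] at h
    obtain ⟨rfl, rfl, rfl, rfl⟩ := h
    rfl)

/-- the arcs described by a code, with forced target `g` -/
def OCode.arc (c : OCode α) (g x y : α) : Prop :=
  c.par y = some x ∨ c.tgt x = some y ∨ (c.frc = some x ∧ y = g)

/-- deficiency of a code -/
noncomputable def OCode.dfc (c : OCode α) : ℕ :=
  (c.H.filter fun x => c.par x = none).card + (c.H.filter fun x => c.tgt x = none).card

/-- validity of a code with root `a`, vertex set `P`, outside targets `Y` -/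
structure Val0 (a : α) (P Y : Finset α) (c : OCode α) : Prop where
  sub : c.H ⊆ P
  out : ∀ x, x ∉ P → c.par x = none ∧ c.tgt x = none
  parm : ∀ x u, c.par x = some u → u ∈ c.H ∨ u = a
  tgtm : ∀ x y, c.tgt x = some y → y ∈ c.H ∨ y ∈ Y
  ear : ∀ e ∈ P, e ∉ c.H → c.par e ≠ none ∧ c.tgt e ≠ none
  frcm : ∀ x, c.frc = some x → x ∈ c.H ∨ x = a
  two : 2 * (c.H.filter fun x => c.par x = none).card ≤
    (P.filter fun x => ∃ y ∈ c.H, c.tgt x = some y).card
  size : c.H.card ≤ 2 * c.dfc + 1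

/-- validity of the code of an object of the column phase -/
structure ValC (a : α) (P Y : Finset α) (c : OCode α) : Prop extends Val0 a P Y c where
  opn : ∀ e ∈ P, e ∉ c.H → ∀ y, c.tgt e = some y → y ∉ c.H →
    ∃ u ∈ c.H, c.par e = some u ∧ c.tgt u = none
  pos : 1 ≤ c.dfc
  ext : ∃ x y, c.tgt x = some y ∧ y ∉ c.H

/-- possible targets of an object located at `a` -/
def InT (D : α → α → Prop) (s a y : α) : Prop :=
  y = a ∨ (y ≠ s ∧ (Br D y ∨ ∃ u, IBr D s u y) ∧ ∃ g, (∀ w, D a w ↔ w = g) ∧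
    ((g ≠ s ∧ (y = g ∨ pdom D s g y)) ∨ (g = s ∧ pdom D s a y)))

/-- the finite set of possible targets -/
noncomputable def TT (V : Finset α) (D : α → α → Prop) (s a : α) : Finset α :=
  V.filter (InT D s a)

/-- number of arcs -/
noncomputable def narc [Fintype α] (D : α → α → Prop) : ℕ :=
  (univ.filter fun p : α × α => D p.1 p.2).card

/-- the decoding part of the link phase -/
structure GEnc (V : Finset α) (D : α → α → Prop) (s : α) (V1 : Finset α) (D1 : α → α → Prop)
    (M : Finset α) (nx : α → α) (P : α → Finset α) (c : α → OCode α) : Prop where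
  inj : Set.InjOn nx M
  ends : ∀ x ∈ M, Snk D1 s x ∧ Src D1 s (nx x)
  sub : V1 ⊆ V
  part : V \ V1 = M.biUnion P
  disj : ∀ x ∈ M, ∀ y ∈ M, x ≠ y → Disjoint (P x) (P y)
  val : ∀ x ∈ M, Val0 x (P x) {nx x} (c x)
  arcs : ∀ u w, D u w ↔ (∃ x ∈ M, (c x).arc (nx x) u w) ∨
    (D1 u w ∧ u ∉ M ∧ ¬ (u = s ∧ ∃ x ∈ M, w = nx x))

/-- everything the link phase provides -/
structure GDat [Fintype α] (V : Finset α) (D : α → α → Prop) (s : α) (V1 : Finset α)
    (D1 : α → α → Prop) (M : Finset α) (nx : α → α) (P : α → Finset α) (c : α → OCode α) : Prop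
    extends GEnc V D s V1 D1 M nx P c where
  good : GR V1 D1 s
  dm : ∀ z ∈ V1, ∀ w ∈ V1, dom D1 s z w → dom D s z w
  pdm : ∀ z ∈ V1, ∀ w ∈ V1, pdom D1 s z w → pdom D s z w
  loc : ∀ x ∈ M, x ≠ s ∧ nx x ≠ s ∧ pdom D s (nx x) x ∧ dom D s x (nx x) ∧
    ∀ y ∈ P x, pdom D s (nx x) y ∧ dom D s x y
  defi : narc D + 2 * V1.card + M.card + ∑ x ∈ M, (c x).dfc ≤ narc D1 + 2 * V.card

/-- the decoding part of the column phase -/
structure CEnc (V : Finset α) (D : α → α → Prop) (s : α) (V2 : Finset α) (D2 : α → α → Prop)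
    (M : Finset α) (g : α → α) (P : α → Finset α) (c : α → OCode α) : Prop where
  mk2 : M ⊆ V2.erase s
  out : ∀ a ∈ M, ∀ y, D2 a y ↔ y = g a
  sub : V2 ⊆ V
  part : V \ V2 = M.biUnion P
  disj : ∀ x ∈ M, ∀ y ∈ M, x ≠ y → Disjoint (P x) (P y)
  val : ∀ a ∈ M, ValC a (P a) (TT V2 D2 s a ∪ M.biUnion fun b => (c b).H) (c a)
  arcs : ∀ u w, D u w ↔ (∃ a ∈ M, (c a).arc (g a) u w) ∨ (D2 u w ∧ u ∉ M)

/-- everything the column phase provides -/
structure CDat [Fintype α] (V : Finset α) (D : α → α → Prop) (s : α) (V2 : Finset α)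
    (D2 : α → α → Prop) (M : Finset α) (g : α → α) (P : α → Finset α) (c : α → OCode α) : Prop
    extends CEnc V D s V2 D2 M g P c where
  good : GR V2 D2 s
  pdm : ∀ z ∈ V2, ∀ w ∈ V2, pdom D2 s z w ↔ pdom D s z w
  dmu : ∀ z ∈ V2, ∀ w ∈ V2, dom D s z w → dom D2 s z w
  dmg : ∀ z ∈ V2, ∀ w ∈ V2, dom D2 s z w → dom D s z w ∨ PDd D s w
  ob : ∀ u w, OBr D s u w → D2 u w → OBr D2 s u w
  ib : ∀ u w, IBr D s u w → D2 u w → IBr D2 s u w
  av : ∀ x ∈ V2, ∀ y ∈ V2, Av D2 {s} x y → Av D {s} x y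
  loc : ∀ a ∈ M, CycA D {s} a ∧ Br D a ∧ PDd D s a ∧ pdom D s (g a) a ∧
    ∀ y ∈ P a, PDd D s y ∧ pdom D s (g a) y ∧ Av D {s} a y
  obx : ∀ y ∈ V2, (∃ u, OBr D s u y) → ∃ u, OBr D2 s u y
  nob : ∀ a ∈ M, ∀ p y, (c a).tgt p = some y → y ∉ (c a).H → y = a ∨ ∀ u, ¬ OBr D s u y
  reg : ∀ a ∈ M, ∀ p y, (c a).tgt p = some y → y ∉ (c a).H → y ≠ s ∧
    ((g a ≠ s ∧ (y = g a ∨ pdom D s (g a) y)) ∨ (g a = s ∧ (y = a ∨ pdom D s a y)))
  earn : ∀ a ∈ M, ∀ e ∈ P a, e ∉ (c a).H → ∀ u, (c a).par e = some u → ¬ IBr D s u e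
  tno : ∀ a ∈ M, ∀ p y, (c a).tgt p = some y → ¬ OBr D s p y
  uniq : ∀ x ∈ V2, x ≠ s → ∀ u, (∀ w, D w x ↔ w = u) → ∃ u2, (∀ w, D2 w x ↔ w = u2) ∧
    (u = s ↔ u2 = s) ∧ ∀ y ∈ V2, (y = u ∨ dom D s u y) → (y = u2 ∨ dom D2 s u2 y)
  cc : ∀ u, CycA D2 {s} u → CCase D s u → CCase D2 s u
  rc : ∀ u, CycA D2 {s} u → CCase (rv D) s u → CCase D2 s u ∨ CCase (rv D2) s u
  snk : ∀ x, Snk D s x → Snk D2 s x
  src : ∀ x, Src D s x → Src D2 s x
  defi : narc D + 2 * V2.card + ∑ a ∈ M, (c a).dfc ≤ narc D2 + 2 * V.card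

/-- a vertex which later column events cannot delete -/
def Inert (D : α → α → Prop) (s a : α) : Prop :=
  ¬ CycA D {s} a ∧
    Av D {x | x ≠ a ∧ ¬ pdom D s a x ∧ CycA D {s} x ∧ CCase D s x} s a

/-- the ends of a chain in the strong component of `q` -/
structure Chain (D : α → α → Prop) (s q a b : α) : Prop where
  sa : Sc D s q a
  sb : Sc D s q b
  qa : a = q ∨ pdom D s a q
  ab : dom D s a b
  ba : pdom D s b a
  topa : ∀ z, Sc D s q z → ¬ dom D s z a
  topb : ∀ z, Sc D s q z → ¬ pdom D s z b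
  pd : ∀ w, Sc D s q w → pdom D s w a → dom D s a w
  dp : ∀ w, Sc D s q w → dom D s w b → pdom D s b w

/-- a fat link -/
structure FLink (D : α → α → Prop) (s x x' : α) : Prop where
  sc : Sc D s x x'
  dm : dom D s x x'
  pd : pdom D s x' x
  c1 : ¬ CycA D {s, x'} x
  c2 : ¬ CycA D {s, x} x'
  p1 : ∀ z, Sc D s x z → dom D s z x' → z = x ∨ pdom D s x z
  p2 : ∀ z, Sc D s x z → pdom D s z x → z = x' ∨ dom D s x' z

/-- `D` reduces to `D1` by `k` link events whose objects have at most `vm` hubs -/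
def GRed (V : Finset α) (D : α → α → Prop) (s : α) (V1 : Finset α) (D1 : α → α → Prop)
    (k vm : ℕ) : Prop :=
  ∃ M nx P c, GEnc V D s V1 D1 M nx P c ∧ M.card = k ∧ ∀ x ∈ M, (c x).H.card ≤ vm

/-- `D` reduces to `D2` by column events with `m` hubs in total -/
def CRed (V : Finset α) (D : α → α → Prop) (s : α) (V2 : Finset α) (D2 : α → α → Prop)
    (m cap vm : ℕ) : Prop :=
  ∃ M g P c, CEnc V D s V2 D2 M g P c ∧ ∑ a ∈ M, (c a).H.card = m ∧
    ∀ a ∈ M, (c a).H.card ≤ vm ∧ (TT V2 D2 s a).card + m ≤ cap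

end Pool.Agent.Work.MP_5391ad_co
end

-- merged part: Pool.Agent.Work.MP_5391ad_co.QDef
section
/-! Acyclic cores, two-coloured structures, trees, feed structures and the walk recursion. -/

namespace Pool.Agent.Work.MP_5391ad_co

open Finset
open scoped Classical

variable {α : Type*}

/-- acyclic digraph on `W` in which every arc is the only arc out of its tail or into its head -/
structure IsDag (W : Finset α) (Δ : α → α → Prop) : Prop where
  mem : ∀ a b, Δ a b → a ∈ W ∧ b ∈ W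
  acyc : ∃ rk : α → ℕ, ∀ a b, Δ a b → rk a < rk b
  rule : ∀ u v, Δ u v → (∀ w, Δ u w → w = v) ∨ ∀ w, Δ w v → w = u

/-- all such digraphs -/
noncomputable def dags [Fintype α] (W : Finset α) : Finset (α → α → Prop) := univ.filter (IsDag W)

/-- their number on `N` labelled vertices -/
noncomputable def numDag (N : ℕ) : ℕ := (dags (univ : Finset (Fin N))).card

/-- add a root joined to the sources and from the sinks -/
def rootD (s : α) (W : Finset α) (Δ : α → α → Prop) (u v : α) : Prop :=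
  Δ u v ∨ (u = s ∧ v ∈ W ∧ ∀ w, ¬ Δ w v) ∨ (v = s ∧ u ∈ W ∧ ∀ w, ¬ Δ u w)

/-- row nodes: no out-arc has a head of in-degree at least two -/
noncomputable def RN (W : Finset α) (Δ : α → α → Prop) : Finset α :=
  W.filter fun u => ∀ v, Δ u v → ¬ Br Δ v

/-- every walk from a source to `v` meets `u` -/
def DomD (W : Finset α) (Δ : α → α → Prop) (u v : α) : Prop :=
  v ≠ u ∧ ∀ r ∈ W, (∀ w, ¬ Δ w r) → ¬ Av Δ {u} r v

/-- out-degree -/
noncomputable def odeg (W : Finset α) (Δ : α → α → Prop) (u : α) : ℕ := (W.filter (Δ u)).card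

/-- the gain functional of the row side -/
noncomputable def SR (W : Finset α) (Δ : α → α → Prop) : ℕ :=
  ∑ u ∈ RN W Δ, (odeg W Δ u + 1) * ((RN W Δ).filter fun v => v = u ∨ DomD W Δ u v).card

/-- number of sources -/
noncomputable def nsrc (W : Finset α) (Δ : α → α → Prop) : ℕ :=
  (W.filter fun v => ∀ w, ¬ Δ w v).card

/-- number of arcs which are the only arc out of the tail and into the head -/
noncomputable def nlink (W : Finset α) (Δ : α → α → Prop) : ℕ :=
  (W.filter fun u => ∃ v, (∀ w, Δ u w ↔ w = v) ∧ ∀ w, Δ w v ↔ w = u).card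

/-- a two-coloured structure: `F.1 v` is the row parent of `v`, `F.2 u` the column target of `u` -/
abbrev FStr (α : Type*) := (α → Option α) × (α → Option α)

/-- arcs of a two-coloured structure -/
def FStr.arc (F : FStr α) (u v : α) : Prop := F.1 v = some u ∨ F.2 u = some v

/-- validity -/
structure IsF (W : Finset α) (F : FStr α) : Prop where
  hp : ∀ u v, F.1 v = some u → u ∈ W ∧ v ∈ W ∧ F.2 u = none
  hq : ∀ u v, F.2 u = some v → u ∈ W ∧ v ∈ W ∧ F.1 v = none
  acyc : ∃ rk : α → ℕ, ∀ a b, F.arc a b → rk a < rk b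

/-- row nodes -/
noncomputable def FStr.rows (W : Finset α) (F : FStr α) : Finset α :=
  W.filter fun u => F.2 u = none

/-- number of vertices with exactly one entering column arc -/
noncomputable def FStr.one (W : Finset α) (F : FStr α) : ℕ :=
  (W.filter fun v => (W.filter fun u => F.2 u = some v).card = 1).card

/-- `x` lies in the block of `v` -/
def FStr.inb (F : FStr α) (x v : α) : Prop :=
  Relation.ReflTransGen (fun a b => F.2 a = some b) x v

/-- the row parents of the block of the row node `v` -/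
noncomputable def FStr.feed (W : Finset α) (F : FStr α) (v : α) : Finset α :=
  if v ∈ F.rows W then W.filter fun u => ∃ x, F.1 x = some u ∧ F.inb x v else ∅

/-- number of non-root vertices of the block of the row node `v` -/
noncomputable def FStr.bsz (W : Finset α) (F : FStr α) (v : α) : ℕ :=
  if v ∈ F.rows W then (W.filter fun x => x ≠ v ∧ F.inb x v).card else 0

/-- weight: `κ` per vertex with one entering column arc, `1 + y` per source, `ν u` per row arc
out of `u` -/
noncomputable def FStr.wt (W : Finset α) (κ y : ℝ) (ν : α → ℝ) (F : FStr α) : ℝ :=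
  κ ^ F.one W * (1 + y) ^ nsrc W F.arc * ∏ u ∈ W, ν u ^ (W.filter fun v => F.1 v = some u).card

/-- valid structures with a given set of row nodes -/
noncomputable def fstrs [Fintype α] (W R : Finset α) : Finset (FStr α) :=
  univ.filter fun F => IsF W F ∧ F.rows W = R

/-- rooted trees on `k` labelled non-root vertices; `none` is the root -/
noncomputable def trees (k : ℕ) : Finset (Fin k → Option (Fin k)) :=
  univ.filter fun τ => ∃ rk : Fin k → ℕ, ∀ a b, τ a = some b → rk b < rk a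

/-- number of children -/
noncomputable def nch {k : ℕ} (τ : Fin k → Option (Fin k)) (x : Option (Fin k)) : ℕ :=
  (univ.filter fun a => τ a = x).card

/-- total weight of trees: `κ` per node with one child, `ω` per leaf -/
noncomputable def treeW (κ ω : ℝ) (k : ℕ) : ℝ :=
  ∑ τ ∈ trees k, κ ^ (univ.filter fun x => nch τ x = 1).card *
    ω ^ (univ.filter fun x => nch τ x = 0).card

/-- total weight of blocks with `k` non-root vertices and feed set exactly `T` -/
noncomputable def blockW [Fintype α] (κ y : ℝ) (ν : α → ℝ) (k : ℕ) (T : Finset α) : ℝ :=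
  ∑ τ ∈ trees k, κ ^ (univ.filter fun x => nch τ x = 1).card *
    ∑ l ∈ (univ : Finset (Option (Fin k) → Option α)).filter
      (fun l => (∀ x, nch τ x ≠ 0 → l x = none) ∧ ∀ u, u ∈ T ↔ ∃ x, l x = some u),
      ∏ x ∈ univ.filter (fun x => nch τ x = 0), (l x).elim (1 + y) ν

/-- acyclic feed structures on `R` -/
def Acy {Ω : Type*} (fd : Ω → Finset α) (R : Finset α) (φ : α → Ω) : Prop :=
  ∃ rk : α → ℕ, ∀ v ∈ R, ∀ u ∈ fd (φ v), u ∈ R ∧ rk u < rk v

/-- acyclic feed structures with options in `O`, equal to `o0` off `R` -/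
noncomputable def acys [Fintype α] {Ω : Type*} (fd : Ω → Finset α) (O : Finset Ω) (o0 : Ω)
    (R : Finset α) : Finset (α → Ω) :=
  (Fintype.piFinset fun v => if v ∈ R then O else {o0}).filter (Acy fd R)

/-- completions: `S` served, `B` born, the options of born vertices are those of `φ0` -/
noncomputable def exts [Fintype α] {Ω : Type*} (fd : Ω → Finset α) (O : Finset Ω)
    (R S B : Finset α) (φ0 : α → Ω) : Finset (α → Ω) :=
  (Fintype.piFinset fun v => if v ∈ R \ B then O else {φ0 v}).filter fun φ =>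
    (∃ rk : α → ℕ, ∀ v ∈ R \ B, ∀ u ∈ fd (φ v), u ∈ B ∨ (u ∈ R ∧ rk u < rk v)) ∧
      ∀ v ∈ R \ B, ¬ fd (φ v) ⊆ S

/-- the walk recursion: `n` vertices unserved, `q` of them born; `A n` is the birth rate of the
service after which `n` remain, `gm q` the gain at queue length `q` -/
noncomputable def Vg {𝕜 : Type*} [CommRing 𝕜] [Algebra ℝ 𝕜] (A gm : ℕ → 𝕜) : ℕ → ℕ → 𝕜
  | 0, q => if q = 0 then 1 else 0
  | _ + 1, 0 => 0
  | n + 1, q + 1 => gm (q + 1) *
      ∑ k ∈ range (n + 1), ((k.factorial : ℝ)⁻¹ • A n ^ k) * Vg A gm n (q + k)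

/-- total weight of the walk with initial rate `a0` -/
noncomputable def Vol {𝕜 : Type*} [CommRing 𝕜] [Algebra ℝ 𝕜] (a0 : 𝕜) (A gm : ℕ → 𝕜) (b : ℕ) :
    𝕜 :=
  ∑ k ∈ range (b + 1), ((k.factorial : ℝ)⁻¹ • a0 ^ k) * Vg A gm b k

/-- domination in a feed structure -/
def DomS (φ : α → Finset α) (u v : α) : Prop :=
  v ≠ u ∧ ∀ r, φ r = ∅ → ¬ Av (fun a b => a ∈ φ b) {u} r v

/-- total size of the dominated regions -/
noncomputable def SS2 (R : Finset α) (φ : α → Finset α) : ℕ :=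
  ∑ u ∈ R, (R.filter fun v => v = u ∨ DomS φ u v).card

/-- push the newborn vertices; the lowest one inherits the level counter -/
def push (c : ℕ) : List α → List (α × ℕ) → List (α × ℕ)
  | [], st => st
  | [x], st => (x, c + 1) :: st
  | x :: y :: l, st => (x, 0) :: push c (y :: l) st

/-- the vertices born when `a` is served -/
noncomputable def born (R : Finset α) (φ : α → Finset α) (S : Finset α) (a : α) : Finset α :=
  R.filter fun v => φ v ⊆ insert a S ∧ ¬ φ v ⊆ S

/-- depth first exploration: the list of (stack length, level counter) at each service -/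
noncomputable def dfs (R : Finset α) (φ : α → Finset α) :
    ℕ → Finset α → List (α × ℕ) → List (ℕ × ℕ)
  | 0, _, _ => []
  | _ + 1, _, [] => []
  | n + 1, S, (a, c) :: st => (st.length + 1, c) ::
      dfs R φ n (insert a S) (push c (born R φ S a).toList st)

/-- the exploration from the start -/
noncomputable def dfs0 (R : Finset α) (φ : α → Finset α) : List (ℕ × ℕ) :=
  dfs R φ R.card ∅ ((R.filter fun v => φ v = ∅).toList.map fun v => (v, 0))

end Pool.Agent.Work.MP_5391ad_co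
end

-- merged part: Pool.Agent.Work.MP_5391ad_co.MDef
section
/-! The interface between the structure side and the counting side. -/

namespace Pool.Agent.Work.MP_5391ad_co

open Finset
open scoped Classical

variable {α : Type*}

/-- bound on the number of hubs of one object -/
noncomputable def vmax (ε : ℝ) (n : ℕ) : ℕ := ⌊ε * n / Real.log n⌋₊

/-- bound on the number of possible targets of an object -/
noncomputable def capn (ε : ℝ) (n : ℕ) : ℕ := ⌊(1 / 2 + ε) * n / Real.log n⌋₊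

/-- `D` reduces in three phases to an acyclic core `(W, Δ)` with the property `E` -/
def Red3 [Fintype α] (vm cap N0 : ℕ) (s : α) (E : Finset α → (α → α → Prop) → Prop)
    (D : α → α → Prop) : Prop :=
  ∃ (V1 : Finset α) (D1 : α → α → Prop) (V2 : Finset α) (D2 : α → α → Prop) (W : Finset α)
    (Δ : α → α → Prop) (k mC mR : ℕ), s ∉ W ∧ IsDag W Δ ∧ E W Δ ∧ N0 ≤ W.card ∧
    GRed univ D s V1 D1 k vm ∧ CRed V1 D1 s V2 D2 mC cap vm ∧
    CRed V2 (rv D2) s (insert s W) (rv (rootD s W Δ)) mR cap vm ∧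
    (∀ x, Snk D1 s x → Snk (rootD s W Δ) s x) ∧ (∀ x, Src D1 s x → Src (rootD s W Δ) s x) ∧
    ∀ a ∈ W, (TT V2 D2 s a).card ≤ (TT (insert s W) (rootD s W Δ) s a).card + 2 * mR

/-- the typical reductions -/
def TypRed [Fintype α] (ε : ℝ) (s : α) (E : Finset α → (α → α → Prop) → Prop)
    (D : α → α → Prop) : Prop :=
  Red3 (vmax ε (Fintype.card α)) (capn ε (Fintype.card α)) ⌈(1 - ε) * Fintype.card α⌉₊ s E D

/-- bound for the number of partial matchings between sources and sinks -/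
noncomputable def gam (o : ℕ) : ℝ := 3 ^ o * √(o.factorial : ℝ)

/-- cost of a hub -/
noncomputable def cX (z : ℝ) (vm cap : ℕ) : ℝ :=
  100000 * (1 + z * vm) * (1 + z * cap) * Real.exp (2 * (z * vm))

/-- gain of a unit of deficiency -/
noncomputable def cR (z : ℝ) (vm cap : ℕ) : ℝ := z * Real.exp (z * cap) * (1 + z * vm)

/-- weight of all objects at one location, per possible target -/
noncomputable def cG (z : ℝ) (vm cap : ℕ) : ℝ := 4 * cX z vm cap ^ 3 * cR z vm cap * z

/-- total stack length of the depth first exploration -/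
noncomputable def FStr.area (W : Finset α) (F : FStr α) : ℕ :=
  ((dfs0 (F.rows W) (F.feed W)).map Prod.fst).sum

/-- number of exceptional services -/
noncomputable def FStr.exc (W : Finset α) (M : ℕ) (F : FStr α) : ℕ :=
  ((dfs0 (F.rows W) (F.feed W)).filter fun p => M ≤ p.2).length

/-- number of row arcs out of `u` -/
noncomputable def FStr.outs (W : Finset α) (F : FStr α) (u : α) : ℕ :=
  (W.filter fun v => F.1 v = some u).card

/-- the volume of the walk with the rates of the tree function -/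
noncomputable def VolT (t y γ : ℝ) (b : ℕ) : ℝ :=
  Vol (Lam t y) (rate t y b) (fun q => Real.exp (γ * q)) b

/-- the free volume -/
noncomputable def FreeT (t y : ℝ) (b : ℕ) : ℝ := ∏ i ∈ range b, (Real.exp 1 * rate t y b i)

/-- the part of the main term which does not depend on `n` -/
noncomputable def hL (L : ℝ) : ℝ := L * (Real.log L ^ 2 - 2 * Real.log L + 2 - Real.pi ^ 2 / 6)

end Pool.Agent.Work.MP_5391ad_co
end

-- merged part: Pool.Agent.Work.MP_5391ad_co.QStep
section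
/-! The one step identity of the exploration. For `φ ∈ exts S B φ0` put
`C = {v ∈ R \ B | fd (φ v) ⊆ insert a S}` and `ψ = φ` on `C`, `φ0` elsewhere; this is a bijection
(`Finset.sum_sigma'` or `sum_fiberwise_of_maps_to`; for the inverse direction shift the rank by
one outside `C` and put it to zero on `C`). -/

namespace Pool.Agent.Work.MP_5391ad_co

open Finset
open scoped Classical

variable {α Ω 𝕜 : Type*} [Fintype α] [CommSemiring 𝕜] (fd : Ω → Finset α) (O : Finset Ω)

theorem qstep_fiber {X I Y : Type*} {A : Finset X} {T : Finset I} {P : I → Finset Y}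
    {E : I → Y → Finset X} (c : X → I) (p : X → Y)
    (h1 : ∀ x ∈ A, c x ∈ T ∧ p x ∈ P (c x) ∧ x ∈ E (c x) (p x))
    (h2 : ∀ i ∈ T, ∀ y ∈ P i, ∀ x ∈ E i y, x ∈ A ∧ c x = i ∧ p x = y) (F : X → 𝕜) :
    ∑ x ∈ A, F x = ∑ i ∈ T, ∑ y ∈ P i, ∑ x ∈ E i y, F x := by
  rw [← sum_fiberwise_of_maps_to (g := c) fun x hx => (h1 x hx).1]
  refine sum_congr rfl fun i hi => ?_
  rw [← sum_fiberwise_of_maps_to (g := p) (t := P i) fun x hx => by
    obtain ⟨h3, rfl⟩ := mem_filter.1 hx
    exact (h1 x h3).2.1]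
  refine sum_congr rfl fun y hy => sum_congr ?_ fun _ _ => rfl
  ext x
  simp only [mem_filter]
  constructor
  · rintro ⟨⟨h3, rfl⟩, rfl⟩
    exact (h1 x h3).2.2
  · intro h3
    obtain ⟨h4, h5, h6⟩ := h2 i hi y hy x h3
    exact ⟨⟨h4, h5⟩, h6⟩

theorem qstep_pi {C : Finset α} {O' : Finset Ω} {φ0 ψ : α → Ω} :
    ψ ∈ Fintype.piFinset (fun v => if v ∈ C then O' else {φ0 v}) ↔
      (∀ v ∈ C, ψ v ∈ O') ∧ ∀ v, v ∉ C → ψ v = φ0 v := by
  rw [Fintype.mem_piFinset]
  constructor
  · intro h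
    refine ⟨fun v hv => ?_, fun v hv => ?_⟩
    · simpa only [if_pos hv] using h v
    · simpa only [if_neg hv, mem_singleton] using h v
  · rintro ⟨h1, h2⟩ v
    split_ifs with hv
    · exact h1 v hv
    · exact mem_singleton.2 (h2 v hv)

theorem qstep_exts {R S B : Finset α} {φ0 φ : α → Ω} : φ ∈ exts fd O R S B φ0 ↔
    ((∀ v ∈ R \ B, φ v ∈ O) ∧ ∀ v, v ∉ R \ B → φ v = φ0 v) ∧
      (∃ rk : α → ℕ, ∀ v ∈ R \ B, ∀ u ∈ fd (φ v), u ∈ B ∨ (u ∈ R ∧ rk u < rk v)) ∧
        ∀ v ∈ R \ B, ¬ fd (φ v) ⊆ S := by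
  rw [exts, mem_filter, qstep_pi]

theorem qstep_acys {R : Finset α} {o0 : Ω} {φ : α → Ω} : φ ∈ acys fd O o0 R ↔
    ((∀ v ∈ R, φ v ∈ O) ∧ ∀ v, v ∉ R → φ v = o0) ∧
      ∃ rk : α → ℕ, ∀ v ∈ R, ∀ u ∈ fd (φ v), u ∈ R ∧ rk u < rk v := by
  rw [acys, mem_filter, qstep_pi (φ0 := fun _ => o0), Acy]

omit [Fintype α] in
theorem qstep_prod {A C E : Finset α} (hC : C ⊆ A) (hE : E = A \ C) {φ ψ : α → Ω}
    (h : ∀ v ∈ C, φ v = ψ v) (w : Ω → 𝕜) (x : 𝕜) :
    (∏ v ∈ A, w (φ v)) * x = (∏ v ∈ C, w (ψ v)) * ((∏ v ∈ E, w (φ v)) * x) := by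
  rw [hE, ← mul_assoc, ← prod_sdiff hC, mul_comm (∏ v ∈ A \ C, w (φ v))]
  congr 2
  exact prod_congr rfl fun v hv => by rw [h v hv]

theorem exts_step {R S B : Finset α} (hSB : S ⊆ B) (hBR : B ⊆ R) {a : α} (ha : a ∈ B)
    (φ0 : α → Ω) (w : Ω → 𝕜) (f : (α → Ω) → 𝕜) :
    ∑ φ ∈ exts fd O R S B φ0, (∏ v ∈ R \ B, w (φ v)) * f φ =
      ∑ C ∈ (R \ B).powerset, ∑ ψ ∈ Fintype.piFinset (fun v => if v ∈ C then
          O.filter (fun o => fd o ⊆ insert a S ∧ ¬ fd o ⊆ S) else {φ0 v}),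
        (∏ v ∈ C, w (ψ v)) * ∑ φ ∈ exts fd O R (insert a S) (B ∪ C) ψ,
          (∏ v ∈ R \ (B ∪ C), w (φ v)) * f φ := by
  have _ := hBR
  rw [qstep_fiber (T := (R \ B).powerset)
    (P := fun C => Fintype.piFinset (fun v => if v ∈ C then
      O.filter (fun o => fd o ⊆ insert a S ∧ ¬ fd o ⊆ S) else {φ0 v}))
    (E := fun C ψ => exts fd O R (insert a S) (B ∪ C) ψ)
    (fun φ => (R \ B).filter fun v => fd (φ v) ⊆ insert a S)
    (fun φ v => if v ∈ (R \ B).filter fun v => fd (φ v) ⊆ insert a S then φ v else φ0 v)]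
  · refine sum_congr rfl fun C hC => sum_congr rfl fun ψ _ => ?_
    rw [mul_sum]
    refine sum_congr rfl fun φ hφ => qstep_prod (mem_powerset.1 hC) (sdiff_sdiff_left.symm)
      (fun v hv => ((qstep_exts fd O).1 hφ).1.2 v fun h => ?_) w _
    exact (mem_sdiff.1 h).2 (mem_union_right _ hv)
  · intro φ hφ
    obtain ⟨⟨h1, h2⟩, ⟨rk, h3⟩, h4⟩ := (qstep_exts fd O).1 hφ
    have hs : ∀ v ∈ R \ (B ∪ (R \ B).filter fun v => fd (φ v) ⊆ insert a S),
        v ∈ R \ B ∧ ¬ fd (φ v) ⊆ insert a S := by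
      intro v hv
      simp only [mem_sdiff, mem_union, mem_filter] at hv ⊢
      tauto
    refine ⟨mem_powerset.2 (filter_subset _ _), qstep_pi.2 ⟨fun v hv => ?_, fun v hv => if_neg hv⟩,
      (qstep_exts fd O).2 ⟨⟨fun v hv => h1 v (hs v hv).1, fun v hv => ?_⟩,
        ⟨rk, fun v hv u hu => (h3 v (hs v hv).1 u hu).imp_left (mem_union_left _)⟩,
        fun v hv => (hs v hv).2⟩⟩
    · rw [if_pos hv]
      obtain ⟨h5, h6⟩ := mem_filter.1 hv
      exact mem_filter.2 ⟨h1 v h5, h6, h4 v h5⟩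
    · split_ifs with h5
      · rfl
      · refine h2 v fun h6 => hv (mem_sdiff.2 ⟨(mem_sdiff.1 h6).1, fun h7 => ?_⟩)
        exact (mem_union.1 h7).elim (mem_sdiff.1 h6).2 h5
  · intro C hC ψ hψ φ hφ
    rw [mem_powerset] at hC
    obtain ⟨g1, g2⟩ := qstep_pi.1 hψ
    obtain ⟨⟨h1, h2⟩, ⟨rk, h3⟩, h4⟩ := (qstep_exts fd O).1 hφ
    have e1 : ∀ v ∈ C, φ v = ψ v := fun v hv =>
      h2 v fun h => (mem_sdiff.1 h).2 (mem_union_right _ hv)
    have e2 : ∀ v ∈ R \ B, v ∉ C → v ∈ R \ (B ∪ C) := fun v hv hv' =>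
      mem_sdiff.2 ⟨(mem_sdiff.1 hv).1, fun h => (mem_union.1 h).elim (mem_sdiff.1 hv).2 hv'⟩
    have e3 : ((R \ B).filter fun v => fd (φ v) ⊆ insert a S) = C := by
      ext v
      rw [mem_filter]
      refine ⟨fun h => by_contra fun h' => h4 v (e2 v h.1 h') h.2, fun h => ⟨hC h, ?_⟩⟩
      rw [e1 v h]
      exact (mem_filter.1 (g1 v h)).2.1
    refine ⟨(qstep_exts fd O).2 ⟨⟨fun v hv => ?_, fun v hv => ?_⟩,
      ⟨fun v => if v ∈ C then 0 else rk v + 1, fun v hv u hu => ?_⟩, fun v hv => ?_⟩, e3, ?_⟩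
    · by_cases h : v ∈ C
      · rw [e1 v h]
        exact (mem_filter.1 (g1 v h)).1
      · exact h1 v (e2 v hv h)
    · rw [h2 v fun h => hv (mem_sdiff.2 ⟨(mem_sdiff.1 h).1,
        fun h' => (mem_sdiff.1 h).2 (mem_union_left _ h')⟩), g2 v fun h => hv (hC h)]
    · by_cases h : v ∈ C
      · rw [e1 v h] at hu
        exact Or.inl (insert_subset ha hSB ((mem_filter.1 (g1 v h)).2.1 hu))
      · rcases h3 v (e2 v hv h) u hu with h5 | h5
        · refine (mem_union.1 h5).imp_right fun h6 => ⟨(mem_sdiff.1 (hC h6)).1, ?_⟩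
          simp only [if_pos h6, if_neg h]
          omega
        · refine Or.inr ⟨h5.1, ?_⟩
          have := h5.2
          simp only [if_neg h]
          split_ifs <;> omega
    · by_cases h : v ∈ C
      · rw [e1 v h]
        exact (mem_filter.1 (g1 v h)).2.2
      · exact fun h' => h4 v (e2 v hv h) (h'.trans (subset_insert _ _))
    · funext v
      rw [e3]
      split_ifs with h
      · exact e1 v h
      · exact (g2 v h).symm

theorem exts_dead {R S : Finset α} (h : (R \ S).Nonempty) (φ0 : α → Ω) :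
    exts fd O R S S φ0 = ∅ := by
  refine eq_empty_of_forall_notMem fun φ hφ => ?_
  obtain ⟨-, ⟨rk, h3⟩, h4⟩ := (qstep_exts fd O).1 hφ
  obtain ⟨v, hv, hm⟩ := exists_min_image _ rk h
  obtain ⟨u, hu, hu'⟩ := not_subset.1 (h4 v hv)
  obtain ⟨h5, h6⟩ := (h3 v hv u hu).resolve_left hu'
  exact absurd (hm u (mem_sdiff.2 ⟨h5, hu'⟩)) (not_le.2 h6)

theorem exts_full (R S : Finset α) (φ0 : α → Ω) : exts fd O R S R φ0 = {φ0} := by
  ext φ
  rw [qstep_exts, sdiff_self, mem_singleton]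
  simp [funext_iff]

theorem acys_init (R : Finset α) (o0 : Ω) (w : Ω → 𝕜) (f : (α → Ω) → 𝕜) :
    ∑ φ ∈ acys fd O o0 R, (∏ v ∈ R, w (φ v)) * f φ =
      ∑ C ∈ R.powerset, ∑ ψ ∈ Fintype.piFinset (fun v => if v ∈ C then
          O.filter (fun o => fd o = ∅) else {o0}),
        (∏ v ∈ C, w (ψ v)) * ∑ φ ∈ exts fd O R ∅ C ψ, (∏ v ∈ R \ C, w (φ v)) * f φ := by
  rw [qstep_fiber (T := R.powerset)
    (P := fun C => Fintype.piFinset (fun v => if v ∈ C then
      O.filter (fun o => fd o = ∅) else {o0}))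
    (E := fun C ψ => exts fd O R ∅ C ψ)
    (fun φ => R.filter fun v => fd (φ v) = ∅)
    (fun φ v => if v ∈ R.filter fun v => fd (φ v) = ∅ then φ v else o0)]
  · refine sum_congr rfl fun C hC => sum_congr rfl fun ψ _ => ?_
    rw [mul_sum]
    exact sum_congr rfl fun φ hφ => qstep_prod (mem_powerset.1 hC) rfl
      (fun v hv => ((qstep_exts fd O).1 hφ).1.2 v fun h => (mem_sdiff.1 h).2 hv) w _
  · intro φ hφ
    obtain ⟨⟨h1, h2⟩, rk, h3⟩ := (qstep_acys fd O).1 hφ
    refine ⟨mem_powerset.2 (filter_subset _ _),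
      (qstep_pi (φ0 := fun _ => o0)).2 ⟨fun v hv => ?_, fun v hv => if_neg hv⟩,
      (qstep_exts fd O).2 ⟨⟨fun v hv => h1 v (mem_sdiff.1 hv).1, fun v hv => ?_⟩,
        ⟨rk, fun v hv u hu => Or.inr (h3 v (mem_sdiff.1 hv).1 u hu)⟩, fun v hv h => ?_⟩⟩
    · rw [if_pos hv]
      obtain ⟨h5, h6⟩ := mem_filter.1 hv
      exact mem_filter.2 ⟨h1 v h5, h6⟩
    · split_ifs with h5
      · rfl
      · exact h2 v fun h6 => hv (mem_sdiff.2 ⟨h6, h5⟩)
    · exact (mem_sdiff.1 hv).2 (mem_filter.2 ⟨(mem_sdiff.1 hv).1, subset_empty.1 h⟩)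
  · intro C hC ψ hψ φ hφ
    rw [mem_powerset] at hC
    obtain ⟨g1, g2⟩ := (qstep_pi (φ0 := fun _ => o0)).1 hψ
    obtain ⟨⟨h1, h2⟩, ⟨rk, h3⟩, h4⟩ := (qstep_exts fd O).1 hφ
    have e1 : ∀ v ∈ C, φ v = ψ v := fun v hv => h2 v fun h => (mem_sdiff.1 h).2 hv
    have e3 : (R.filter fun v => fd (φ v) = ∅) = C := by
      ext v
      rw [mem_filter]
      refine ⟨fun h => by_contra fun h' => h4 v (mem_sdiff.2 ⟨h.1, h'⟩) h.2.subset,
        fun h => ⟨hC h, ?_⟩⟩
      rw [e1 v h]
      exact (mem_filter.1 (g1 v h)).2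
    refine ⟨(qstep_acys fd O).2 ⟨⟨fun v hv => ?_, fun v hv => ?_⟩,
      fun v => if v ∈ C then 0 else rk v + 1, fun v hv u hu => ?_⟩, e3, ?_⟩
    · by_cases h : v ∈ C
      · rw [e1 v h]
        exact (mem_filter.1 (g1 v h)).1
      · exact h1 v (mem_sdiff.2 ⟨hv, h⟩)
    · rw [h2 v fun h => hv (mem_sdiff.1 h).1, g2 v fun h => hv (hC h)]
    · by_cases h : v ∈ C
      · rw [e1 v h, (mem_filter.1 (g1 v h)).2] at hu
        exact absurd hu (notMem_empty u)
      · rcases h3 v (mem_sdiff.2 ⟨hv, h⟩) u hu with h5 | h5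
        · refine ⟨hC h5, ?_⟩
          simp only [if_pos h5, if_neg h]
          omega
        · refine ⟨h5.1, ?_⟩
          have := h5.2
          simp only [if_neg h]
          split_ifs <;> omega
    · funext v
      rw [e3]
      split_ifs with h
      · exact e1 v h
      · exact (g2 v h).symm

/-- the sum over the options of the newborn vertices -/
theorem sum_pi_born (C : Finset α) (O' : Finset Ω) (φ0 : α → Ω) (w : Ω → 𝕜) :
    ∑ ψ ∈ Fintype.piFinset (fun v => if v ∈ C then O' else {φ0 v}), ∏ v ∈ C, w (ψ v) =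
      (∑ o ∈ O', w o) ^ C.card := by
  have h1 := prod_univ_sum (fun v => if v ∈ C then O' else {φ0 v})
    (fun v o => if v ∈ C then w o else 1)
  simp only [prod_ite_mem, univ_inter] at h1
  rw [← h1, ← prod_const, ← univ_inter C, ← prod_ite_mem, univ_inter]
  refine prod_congr rfl fun v _ => ?_
  split_ifs with h
  · rfl
  · exact sum_singleton _ _

/-- vertices of `I` feed nobody -/
theorem acys_unused {R I : Finset α} (hI : I ⊆ R) (o0 : Ω) (f : (α → Ω) → 𝕜) :
    ∑ φ ∈ (acys fd O o0 R).filter (fun φ => ∀ v ∈ R, ∀ u ∈ I, u ∉ fd (φ v)), f φ =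
      ∑ φ ∈ acys fd O o0 (R \ I), ∑ ψ ∈ Fintype.piFinset (fun v => if v ∈ I then
          O.filter (fun o => fd o ⊆ R \ I) else {o0}),
        f (fun v => if v ∈ I then ψ v else φ v) := by
  rw [← sum_product']
  refine sum_nbij' (fun φ => (fun v => if v ∈ I then o0 else φ v, fun v => if v ∈ I then φ v else o0))
    (fun q v => if v ∈ I then q.2 v else q.1 v) ?_ ?_ ?_ ?_ ?_
  · intro φ hφ
    obtain ⟨hφ, h4⟩ := mem_filter.1 hφ
    obtain ⟨⟨h1, h2⟩, rk, h3⟩ := (qstep_acys fd O).1 hφ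
    have h5 : ∀ v ∈ R, fd (φ v) ⊆ R \ I := fun v hv u hu =>
      mem_sdiff.2 ⟨(h3 v hv u hu).1, fun h => h4 v hv u h hu⟩
    refine mem_product.2 ⟨(qstep_acys fd O).2 ⟨⟨fun v hv => ?_, fun v hv => ?_⟩, rk,
      fun v hv u hu => ?_⟩, (qstep_pi (φ0 := fun _ => o0)).2 ⟨fun v hv => ?_, fun v hv => if_neg hv⟩⟩
    · simp only [if_neg (mem_sdiff.1 hv).2]
      exact h1 v (mem_sdiff.1 hv).1
    · dsimp only
      split_ifs with h
      · rfl
      · exact h2 v fun h' => hv (mem_sdiff.2 ⟨h', h⟩)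
    · simp only [if_neg (mem_sdiff.1 hv).2] at hu
      exact ⟨h5 v (mem_sdiff.1 hv).1 hu, (h3 v (mem_sdiff.1 hv).1 u hu).2⟩
    · simp only [if_pos hv]
      exact mem_filter.2 ⟨h1 v (hI hv), h5 v (hI hv)⟩
  · rintro ⟨φ, ψ⟩ hq
    obtain ⟨hφ, hψ⟩ := mem_product.1 hq
    obtain ⟨⟨h1, h2⟩, rk, h3⟩ := (qstep_acys fd O).1 hφ
    obtain ⟨g1, g2⟩ := (qstep_pi (φ0 := fun _ => o0)).1 hψ
    have h5 : ∀ v ∈ R, fd (if v ∈ I then ψ v else φ v) ⊆ R \ I := by
      intro v hv
      split_ifs with h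
      · exact (mem_filter.1 (g1 v h)).2
      · exact fun u hu => (h3 v (mem_sdiff.2 ⟨hv, h⟩) u hu).1
    refine mem_filter.2 ⟨(qstep_acys fd O).2 ⟨⟨fun v hv => ?_, fun v hv => ?_⟩,
      fun v => if v ∈ I then R.sup rk + 1 else rk v, fun v hv u hu => ?_⟩,
      fun v hv u hu h => (mem_sdiff.1 (h5 v hv h)).2 hu⟩
    · dsimp only
      split_ifs with h
      · exact (mem_filter.1 (g1 v h)).1
      · exact h1 v (mem_sdiff.2 ⟨hv, h⟩)
    · simp only [if_neg fun h => hv (hI h)]
      exact h2 v fun h => hv (mem_sdiff.1 h).1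
    · obtain ⟨h6, h7⟩ := mem_sdiff.1 (h5 v hv hu)
      refine ⟨h6, ?_⟩
      simp only [if_neg h7]
      split_ifs with h
      · exact Nat.lt_succ_of_le (le_sup h6)
      · simp only [if_neg h] at hu
        exact (h3 v (mem_sdiff.2 ⟨hv, h⟩) u hu).2
  · intro φ _
    funext v
    dsimp only
    split_ifs <;> rfl
  · rintro ⟨φ, ψ⟩ hq
    obtain ⟨hφ, hψ⟩ := mem_product.1 hq
    refine Prod.ext (funext fun v => ?_) (funext fun v => ?_)
    · dsimp only
      split_ifs with h
      · exact (((qstep_acys fd O).1 hφ).1.2 v fun h' => (mem_sdiff.1 h').2 h).symm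
      · rfl
    · dsimp only
      split_ifs with h
      · rfl
      · exact (((qstep_pi (φ0 := fun _ => o0)).1 hψ).2 v h).symm
  · intro φ _
    congr 1
    funext v
    dsimp only
    split_ifs <;> rfl

end Pool.Agent.Work.MP_5391ad_co
end

-- merged part: Pool.Agent.Work.MP_5391ad_co.ALam
section
/-! The tree function. For `0 ≤ x ≤ 1/e` the set defining `lamT x` is closed, contains `1`, and its
infimum is the unique solution of `τ = x e^τ` in `[0, 1]` (`τ ↦ τ e^{-τ}` is strictly increasing on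
`[0,1]`). Derivative: `HasDerivAt.of_local_left_inverse` applied to `τ ↦ τ e^{-τ}`; continuity from
strict monotonicity and surjectivity, or directly. `t e^{t x} < 1/e` iff `x < xc t`. -/

namespace Pool.Agent.Work.MP_5391ad_co

open Real

theorem lamT_spec {x : ℝ} (h0 : 0 ≤ x) (h1 : x ≤ exp (-1)) :
    0 ≤ lamT x ∧ lamT x ≤ 1 ∧ lamT x = x * exp (lamT x) := by
  have hb : BddBelow {τ : ℝ | 0 ≤ τ ∧ x * exp τ ≤ τ} := ⟨0, fun _ h => h.1⟩
  have h2 : (1 : ℝ) ∈ {τ : ℝ | 0 ≤ τ ∧ x * exp τ ≤ τ} := by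
    refine ⟨zero_le_one, (mul_le_mul_of_nonneg_right h1 (exp_pos 1).le).trans ?_⟩
    rw [← exp_add, neg_add_cancel, exp_zero]
  have hc : IsClosed {τ : ℝ | 0 ≤ τ ∧ x * exp τ ≤ τ} :=
    (isClosed_le continuous_const continuous_id).inter (isClosed_le (by fun_prop) continuous_id)
  have h3 : 0 ≤ lamT x ∧ x * exp (lamT x) ≤ lamT x := hc.csInf_mem ⟨1, h2⟩ hb
  refine ⟨h3.1, csInf_le hb h2, le_antisymm (csInf_le hb ⟨by positivity, ?_⟩) h3.2⟩
  exact mul_le_mul_of_nonneg_left (exp_le_exp.2 h3.2) h0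

theorem lamT_unique {x τ : ℝ} (h0 : 0 ≤ τ) (h1 : τ ≤ 1) (h : τ = x * exp τ) : lamT x = τ := by
  refine IsLeast.csInf_eq ⟨⟨h0, h.ge⟩, fun σ hσ => not_lt.1 fun hlt => ?_⟩
  have h2 : 0 < τ := hσ.1.trans_lt hlt
  have h3 : σ - τ + 1 < exp (σ - τ) := add_one_lt_exp (sub_ne_zero.2 hlt.ne)
  have h4 : τ * exp (σ - τ) = x * exp σ := by
    conv_lhs => rw [h]
    rw [mul_assoc, ← exp_add, ← h, add_sub_cancel]
  have h5 := mul_lt_mul_of_pos_left h3 h2
  have h6 := hσ.2
  nlinarith [mul_nonneg (sub_nonneg.2 h1) (sub_nonneg.2 hlt.le)]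

theorem alam_exp {t : ℝ} (ht : 0 < t) (x : ℝ) : t * exp (t * x) = exp (log t + t * x) := by
  rw [exp_add, exp_log ht]

theorem alam_xc {t : ℝ} (ht : 0 < t) : t * xc t = -log t - 1 := by
  rw [xc, mul_inv_cancel_left₀ ht.ne', log_inv]

theorem alam_spec {t x : ℝ} (ht : 0 < t) (hx : x ≤ xc t) :
    0 < tau t x ∧ tau t x ≤ 1 ∧ log (tau t x) - tau t x = log t + t * x := by
  have h1 : t * exp (t * x) ≤ exp (-1) := by
    rw [alam_exp ht, exp_le_exp]
    linarith [mul_le_mul_of_nonneg_left hx ht.le, alam_xc ht]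
  obtain ⟨-, h2, h3⟩ := lamT_spec (by positivity) h1
  have h4 : tau t x = exp (log t + t * x + tau t x) := by
    rw [exp_add, ← alam_exp ht]
    exact h3
  refine ⟨h4 ▸ exp_pos _, h2, ?_⟩
  have h5 := congrArg log h4
  rw [log_exp] at h5
  linarith

theorem lt_xc_iff {t x : ℝ} (ht : 0 < t) : t * exp (t * x) < exp (-1) ↔ x < xc t := by
  rw [alam_exp ht, exp_lt_exp, ← mul_lt_mul_iff_right₀ (b := x) ht, alam_xc ht]
  constructor <;> intro h <;> linarith

theorem tau_spec {t x : ℝ} (ht : 0 < t) (hx : x < xc t) :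
    0 < tau t x ∧ tau t x < 1 ∧ log (tau t x) - tau t x = log t + t * x := by
  obtain ⟨h1, h2, h3⟩ := alam_spec ht hx.le
  refine ⟨h1, lt_of_le_of_ne h2 fun h => ?_, h3⟩
  rw [h, log_one] at h3
  linarith [mul_lt_mul_of_pos_left hx ht, alam_xc ht]

theorem tau_xc {t : ℝ} (ht : 0 < t) : tau t (xc t) = 1 := by
  refine lamT_unique zero_le_one le_rfl ?_
  rw [alam_exp ht, ← exp_add, alam_xc ht, show log t + (-log t - 1) + 1 = 0 by ring, exp_zero]

theorem tau_eq {t x τ : ℝ} (ht : 0 < t) (h0 : 0 < τ) (h1 : τ ≤ 1)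
    (h : log τ - τ = log t + t * x) : tau t x = τ ∧ x ≤ xc t := by
  constructor
  · refine lamT_unique h0.le h1 ?_
    rw [alam_exp ht, ← exp_add, ← h, sub_add_cancel, exp_log h0]
  · rw [← mul_le_mul_iff_right₀ ht, alam_xc ht]
    linarith [log_le_sub_one_of_pos h0]

theorem tau_strictMonoOn {t : ℝ} (ht : 0 < t) : StrictMonoOn (tau t) (Set.Iic (xc t)) := by
  intro x hx y hy hxy
  obtain ⟨-, h2, h3⟩ := alam_spec ht hx
  obtain ⟨h4, -, h6⟩ := alam_spec ht hy
  refine not_le.1 fun h => ?_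
  have h7 := log_le_sub_one_of_pos (div_pos h4 (h4.trans_le h))
  rw [log_div h4.ne' (h4.trans_le h).ne'] at h7
  have h8 : tau t y / tau t x - 1 ≤ tau t y - tau t x := by
    rw [sub_le_iff_le_add, div_le_iff₀ (h4.trans_le h)]
    nlinarith [mul_nonneg (sub_nonneg.2 h2) (sub_nonneg.2 h)]
  linarith [mul_lt_mul_of_pos_left hxy ht]

theorem tau_continuousOn {t : ℝ} (ht : 0 < t) : ContinuousOn (tau t) (Set.Iic (xc t)) := by
  have h1 : Monotone fun x => log (tau t (min x (xc t))) + max (x - xc t) 0 := by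
    intro x y hxy
    refine add_le_add (log_le_log (alam_spec ht (min_le_right _ _)).1 ?_)
      (max_le_max_right _ (sub_le_sub_right hxy _))
    exact (tau_strictMonoOn ht).monotoneOn (Set.mem_Iic.2 (min_le_right _ _))
      (Set.mem_Iic.2 (min_le_right _ _)) (min_le_min_right _ hxy)
  have h2 : Function.Surjective fun x => log (tau t (min x (xc t))) + max (x - xc t) 0 := by
    intro v
    rcases le_total v 0 with h | h
    · obtain ⟨h3, h4⟩ := tau_eq (x := (v - exp v - log t) / t) ht (exp_pos v) (exp_le_one_iff.2 h)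
        (by rw [log_exp, mul_div_cancel₀ _ ht.ne']; ring)
      refine ⟨(v - exp v - log t) / t, ?_⟩
      simp only
      rw [min_eq_left h4, h3, log_exp, max_eq_right (sub_nonpos.2 h4), add_zero]
    · refine ⟨xc t + v, ?_⟩
      simp only
      rw [min_eq_right (le_add_of_nonneg_right h), tau_xc ht, log_one, add_sub_cancel_left,
        max_eq_left h, zero_add]
  refine (continuous_exp.comp (h1.continuous_of_surjective h2)).continuousOn.congr fun x hx => ?_
  have hx' : x ≤ xc t := hx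
  simp only [Function.comp]
  rw [min_eq_left hx', max_eq_right (sub_nonpos.2 hx'), add_zero, exp_log (alam_spec ht hx').1]

theorem hasDerivAt_tau {t x : ℝ} (ht : 0 < t) (hx : x < xc t) :
    HasDerivAt (tau t) (t * tau t x / (1 - tau t x)) x := by
  obtain ⟨h1, h2, -⟩ := tau_spec ht hx
  have h3 : 0 < 1 - tau t x := sub_pos.2 h2
  have hf : HasDerivAt (fun τ => (log τ - τ - log t) / t) (((tau t x)⁻¹ - 1) / t) (tau t x) :=
    (((hasDerivAt_log h1.ne').sub (hasDerivAt_id' _)).sub_const _).div_const t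
  have he : ((tau t x)⁻¹ - 1) / t = (t * tau t x / (1 - tau t x))⁻¹ := by
    field_simp
  have h4 := HasDerivAt.of_local_left_inverse
    ((tau_continuousOn ht).continuousAt (Iic_mem_nhds hx)) hf (by rw [he]; positivity)
    ((gt_mem_nhds hx).mono fun y hy => by
      rw [(tau_spec ht hy).2.2, add_sub_cancel_left, mul_div_cancel_left₀ _ ht.ne'])
  rwa [he, inv_inv] at h4

theorem hasDerivAt_Lam {t x : ℝ} (ht : 0 < t) (hx : x < xc t) :
    HasDerivAt (Lam t) (t / (1 - tau t x)) x := by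
  have h3 : 0 < 1 - tau t x := sub_pos.2 (tau_spec ht hx).2.1
  have h1 := ((hasDerivAt_id' x).const_mul t).add (hasDerivAt_tau ht hx)
  have he : t * 1 + t * tau t x / (1 - tau t x) = t / (1 - tau t x) := by
    field_simp
    ring
  rw [he] at h1
  exact h1

theorem alam_mono {t x y : ℝ} (ht : 0 < t) (hxy : x ≤ y) (hy : y < xc t) : tau t x ≤ tau t y :=
  (tau_strictMonoOn ht).monotoneOn (hxy.trans hy.le) hy.le hxy

theorem alam_rate {t x y : ℝ} (ht : 0 < t) (hxy : x ≤ y) (hy : y < xc t) :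
    t / (1 - tau t x) ≤ t / (1 - tau t y) := by
  have h1 := alam_mono ht hxy hy
  have h3 : 0 < 1 - tau t y := sub_pos.2 (tau_spec ht hy).2.1
  gcongr

theorem alam_mvt {f f' : ℝ → ℝ} {a b : ℝ} (hab : a ≤ b)
    (h : ∀ u, a ≤ u → u ≤ b → HasDerivAt f (f' u) u) (h0 : ∀ u, a ≤ u → u ≤ b → 0 ≤ f' u) :
    f a ≤ f b := by
  rcases hab.eq_or_lt with rfl | hab
  · exact le_rfl
  · obtain ⟨c, hc, h1⟩ := exists_hasDerivAt_eq_slope f f' hab
      (fun u hu => (h u hu.1 hu.2).continuousAt.continuousWithinAt)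
      fun u hu => h u hu.1.le hu.2.le
    have h2 := h0 c hc.1.le hc.2.le
    rw [h1, le_div_iff₀ (sub_pos.2 hab)] at h2
    linarith

/-- unit increments lie between bounds of the derivative -/
theorem alam_unit {f f' : ℝ → ℝ} {a p q : ℝ}
    (h : ∀ u, a ≤ u → u ≤ a + 1 → HasDerivAt f (f' u) u)
    (h0 : ∀ u, a ≤ u → u ≤ a + 1 → p ≤ f' u ∧ f' u ≤ q) :
    p ≤ f (a + 1) - f a ∧ f (a + 1) - f a ≤ q := by
  obtain ⟨c, hc, h1⟩ := exists_hasDerivAt_eq_slope f f' (lt_add_one a)
    (fun u hu => (h u hu.1 hu.2).continuousAt.continuousWithinAt)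
    fun u hu => h u hu.1.le hu.2.le
  have h2 := h0 c hc.1.le hc.2.le
  rwa [h1, add_sub_cancel_left, div_one] at h2

theorem eh_monotoneOn {t : ℝ} (ht : 0 < t) : MonotoneOn (eh t) (Set.Iio (xc t)) := by
  intro x hx y hy hxy
  have h1 := alam_mono ht hxy hy
  have h2 := (tau_spec ht hx).1
  have h3 : 0 < 1 - tau t y := sub_pos.2 (tau_spec ht hy).2.1
  have h4 := (tau_spec ht hy).1
  unfold eh
  gcongr

/-- bounds in terms of the distance to the critical time: `-σ - log (1 - σ) = t (xc - x)` -/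
theorem sigma_bounds {t x : ℝ} (ht : 0 < t) (hx : x < xc t) :
    (1 - tau t x) ^ 2 ≤ 2 * (t * (xc t - x)) ∧
    t * (xc t - x) * tau t x ≤ (1 - tau t x) ^ 2 ∧
    exp (-1 - t * (xc t - x)) ≤ tau t x ∧ tau t x ≤ exp (-(t * (xc t - x))) := by
  obtain ⟨h1, h2, h3⟩ := tau_spec ht hx
  have hD : t * (xc t - x) = -1 - (log (tau t x) - tau t x) := by
    rw [mul_sub, alam_xc ht, h3]
    ring
  rw [hD]
  generalize tau t x = τ at h1 h2
  refine ⟨?_, ?_, ?_, ?_⟩
  · have h4 := sum_le_hasSum (Finset.range 2) (fun n _ => by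
      have : 0 ≤ 1 - τ := by linarith
      positivity) (hasSum_pow_div_log_of_abs_lt_one (x := 1 - τ) (by
        rw [abs_lt]; constructor <;> linarith))
    simp only [Finset.sum_range_succ, Finset.range_zero, Finset.sum_empty, sub_sub_cancel] at h4
    norm_num at h4
    linarith
  · have h4 := mul_le_mul_of_nonneg_right (one_sub_inv_le_log_of_pos h1) h1.le
    rw [sub_mul, inv_mul_cancel₀ h1.ne'] at h4
    nlinarith
  · rw [← le_log_iff_exp_le h1]
    linarith
  · rw [← log_le_iff_le_exp h1]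
    linarith

/-- unit increments of `Lam` lie between the derivatives at the ends -/
theorem incr_bounds {t x : ℝ} (ht : 0 < t) (hx : x < xc t) :
    t / (1 - tau t (x - 1)) ≤ Lam t x - Lam t (x - 1) ∧
      Lam t x - Lam t (x - 1) ≤ t / (1 - tau t x) := by
  have h := alam_unit (f := Lam t) (f' := fun u => t / (1 - tau t u)) (a := x - 1)
    (p := t / (1 - tau t (x - 1))) (q := t / (1 - tau t x))
    (fun u _ h => hasDerivAt_Lam ht (by linarith))
    fun u h1 h2 => ⟨alam_rate ht h1 (by linarith), alam_rate ht (by linarith) hx⟩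
  rwa [sub_add_cancel] at h

/-- convexity of `Lam` -/
theorem incr_mono {t x x' h : ℝ} (ht : 0 < t) (hh : 0 ≤ h) (hx : x ≤ x') (hx' : x' + h < xc t) :
    Lam t (x + h) - Lam t x ≤ Lam t (x' + h) - Lam t x' := by
  exact alam_mvt (f := fun u => Lam t (u + h) - Lam t u)
    (f' := fun u => t / (1 - tau t (u + h)) - t / (1 - tau t u)) hx
    (fun u _ h2 => ((hasDerivAt_Lam ht (by linarith)).comp_add_const u h).sub
      (hasDerivAt_Lam ht (by linarith)))
    fun u _ h2 => sub_nonneg.2 (alam_rate ht (by linarith) (by linarith))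

theorem alam_log_sigma {t x : ℝ} (ht : 0 < t) (hx : x < xc t) :
    HasDerivAt (fun u => -log (1 - tau t u)) (eh t x) x := by
  have h3 : 0 < 1 - tau t x := sub_pos.2 (tau_spec ht hx).2.1
  have h1 := (((hasDerivAt_tau ht hx).const_sub 1).log h3.ne').fun_neg
  refine h1.congr_deriv ?_
  unfold eh
  field_simp

theorem alam_log_tau {t x : ℝ} (ht : 0 < t) (hx : x < xc t) :
    HasDerivAt (fun u => log (tau t u)) (t / (1 - tau t x)) x := by
  have h3 := (tau_spec ht hx).1
  have h1 := (hasDerivAt_tau ht hx).log h3.ne'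
  refine h1.congr_deriv ?_
  field_simp

/-- ratio of consecutive increments: `log (t / σ)` has derivative `eh`, which is monotone; write
the increments as integrals of `t / σ` or use the mean value theorem for
`u ↦ Lam (u + 1) - e^c Lam u` -/
theorem incr_ratio {t x : ℝ} (ht : 0 < t) (hx : x + 1 < xc t) :
    exp (eh t (x - 1)) * (Lam t x - Lam t (x - 1)) ≤ Lam t (x + 1) - Lam t x ∧
      Lam t (x + 1) - Lam t x ≤ exp (eh t (x + 1)) * (Lam t x - Lam t (x - 1)) := by
  have key : ∀ u, x - 1 ≤ u → u ≤ x →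
      exp (eh t (x - 1)) * (t / (1 - tau t u)) ≤ t / (1 - tau t (u + 1)) ∧
        t / (1 - tau t (u + 1)) ≤ exp (eh t (x + 1)) * (t / (1 - tau t u)) := by
    intro u h1 h2
    have h3 : 0 < 1 - tau t u := sub_pos.2 (tau_spec ht (by linarith)).2.1
    have h4 : 0 < 1 - tau t (u + 1) := sub_pos.2 (tau_spec ht (by linarith)).2.1
    have h5 := alam_unit (a := u) (p := eh t (x - 1)) (q := eh t (x + 1))
      (fun v _ h => alam_log_sigma ht (x := v) (by linarith))
      fun v h6 h7 => ⟨eh_monotoneOn ht (show x - 1 < xc t by linarith) (show v < xc t by linarith)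
        (by linarith), eh_monotoneOn ht (show v < xc t by linarith) hx (by linarith)⟩
    have h6 : t / (1 - tau t (u + 1)) =
        exp (-log (1 - tau t (u + 1)) - -log (1 - tau t u)) * (t / (1 - tau t u)) := by
      rw [exp_sub, exp_neg, exp_neg, exp_log h3, exp_log h4]
      field_simp
    rw [h6]
    exact ⟨mul_le_mul_of_nonneg_right (exp_le_exp.2 h5.1) (by positivity),
      mul_le_mul_of_nonneg_right (exp_le_exp.2 h5.2) (by positivity)⟩
  have hd : ∀ c u, u ≤ x → HasDerivAt (fun u => Lam t (u + 1) - c * Lam t u)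
      (t / (1 - tau t (u + 1)) - c * (t / (1 - tau t u))) u := fun c u h =>
    ((hasDerivAt_Lam ht (by linarith)).comp_add_const u 1).sub
      ((hasDerivAt_Lam ht (by linarith)).const_mul c)
  have h1 := alam_mvt (a := x - 1) (b := x) (by linarith) (fun u _ h => hd (exp (eh t (x - 1))) u h)
    fun u h1 h2 => sub_nonneg.2 (key u h1 h2).1
  have h2 := alam_mvt (a := x - 1) (b := x) (by linarith)
    (fun u _ h => (hd (exp (eh t (x + 1))) u h).fun_neg)
    fun u h1 h2 => neg_nonneg.2 (sub_nonpos.2 (key u h1 h2).2)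
  simp only [sub_add_cancel] at h1 h2
  constructor <;> linarith

/-- regularity of `eh` and `tau`: the logarithmic derivatives are `t (1 + τ) / σ ^ 2` and `t / σ` -/
theorem eh_ratio {t x : ℝ} (ht : 0 < t) (hx : x + 1 < xc t) :
    eh t (x + 1) ≤ eh t x * exp (2 * t / (1 - tau t (x + 1)) ^ 2) ∧
      tau t (x + 1) ≤ tau t x * exp (t / (1 - tau t (x + 1))) := by
  have hx0 : x < xc t := by linarith
  obtain ⟨a1, a2, -⟩ := tau_spec ht hx0
  obtain ⟨b1, b2, -⟩ := tau_spec ht hx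
  have a3 : 0 < 1 - tau t x := sub_pos.2 a2
  have b3 : 0 < 1 - tau t (x + 1) := sub_pos.2 b2
  constructor
  · have h1 := (alam_unit (a := x) (p := 0) (q := 2 * t / (1 - tau t (x + 1)) ^ 2)
      (f := fun u => log (tau t u) + 2 * -log (1 - tau t u))
      (fun v _ h => (alam_log_tau ht (x := v) (by linarith)).add
        ((alam_log_sigma ht (x := v) (by linarith)).const_mul 2))
      fun v _ h7 => by
        obtain ⟨c1, c2, -⟩ := tau_spec ht (show v < xc t by linarith)
        have c3 : 0 < 1 - tau t v := sub_pos.2 c2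
        have c4 := alam_mono ht h7 hx
        have c5 : t / (1 - tau t v) + 2 * eh t v = (1 + tau t v) * t / (1 - tau t v) ^ 2 := by
          unfold eh
          field_simp
          ring
        rw [c5]
        refine ⟨by positivity, ?_⟩
        gcongr
        linarith).2
    have h2 : ∀ v, v < xc t → eh t v = t * exp (log (tau t v) + 2 * -log (1 - tau t v)) := by
      intro v hv
      obtain ⟨c1, c2, -⟩ := tau_spec ht hv
      have c3 : 0 < 1 - tau t v := sub_pos.2 c2
      rw [exp_add, exp_log c1, two_mul, exp_add, exp_neg, exp_log c3]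
      unfold eh
      field_simp
    rw [h2 _ hx, h2 _ hx0, mul_assoc, ← exp_add]
    exact mul_le_mul_of_nonneg_left (exp_le_exp.2 (by linarith)) ht.le
  · have h1 := (alam_unit (a := x) (p := t / (1 - tau t x)) (q := t / (1 - tau t (x + 1)))
      (fun v _ h => alam_log_tau ht (x := v) (by linarith))
      fun v h6 h7 => ⟨alam_rate ht h6 (by linarith), alam_rate ht h7 hx⟩).2
    rw [← log_le_log_iff b1 (by positivity), log_mul a1.ne' (exp_pos _).ne', log_exp]
    linarith

end Pool.Agent.Work.MP_5391ad_co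
end

-- merged part: Pool.Agent.Work.MP_5391ad_co.QTree
section
/-! Trees. `treeW_eq`: apply `exts_step` with `α = Option (Fin k)`, options `Ω = α` (the parent),
`fd o = {o}`, `R = univ`, weight `1` and the functional `∏_{u ∈ R \ S} cW (number of v with
φ v = u, v ∈ R \ B)`; the sum over `exts S B φ0` is `|R \ B|! * Wr n q`, start `S = ∅`,
`B = {none}`. `card_trees`: for `κ = ω = 1`, `r! * Wr (q + r) q = q (q + r)^(r-1)` by induction and
the binomial theorem. `le_treeW`: `(1 + x)^leaves ≥ x^(k-j)` times the number of sets `E` of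
`k - j` non-root leaves; pairs `(τ, E)` correspond to a set `J` of `j` vertices, a tree on
`J` and the root, and a map from `E` to `J` and the root. -/

namespace Pool.Agent.Work.MP_5391ad_co

open Finset
open scoped Classical

/-- weight of a node with `k` children -/
noncomputable def cW (κ ω : ℝ) (k : ℕ) : ℝ := if k = 0 then ω else if k = 1 then κ else 1

/-- forests: `n` unserved nodes, `q` of them born -/
noncomputable def Wr (κ ω : ℝ) : ℕ → ℕ → ℝ
  | 0, q => if q = 0 then 1 else 0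
  | _ + 1, 0 => 0
  | n + 1, q + 1 => ∑ k ∈ range (n + 1), cW κ ω k / k.factorial * Wr κ ω n (q + k)

theorem qtree_zero (κ ω : ℝ) : ∀ {n q : ℕ}, n < q → Wr κ ω n q = 0
  | 0, _ + 1, _ => if_neg (Nat.succ_ne_zero _)
  | _ + 1, _ + 1, h => sum_eq_zero fun _ _ => by rw [qtree_zero κ ω (by omega), mul_zero]

theorem qtree_succ (κ ω : ℝ) (q r : ℕ) : r.factorial * Wr κ ω (q + r + 1) (q + 1) =
    ∑ k ∈ range (r + 1), r.choose k • (cW κ ω k * ((r - k).factorial * Wr κ ω (q + r) (q + k))) := by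
  rw [Wr, ← sum_subset (range_subset_range.2 (by omega : r + 1 ≤ q + r + 1)) fun k _ hk => by
    rw [qtree_zero κ ω (by simp only [mem_range] at hk; omega), mul_zero], mul_sum]
  refine sum_congr rfl fun k hk => ?_
  rw [← Nat.choose_mul_factorial_mul_factorial (Nat.lt_succ_iff.1 (mem_range.1 hk)), nsmul_eq_mul]
  have : (k.factorial : ℝ) ≠ 0 := by positivity
  push_cast
  field_simp

theorem qtree_one : ∀ n q r : ℕ, n = q + r →
    (n : ℝ) * (r.factorial * Wr 1 1 n q) = q * (n : ℝ) ^ r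
  | 0, q, r, h => by simp [show q = 0 by omega]
  | n + 1, 0, r, h => by simp [Wr]
  | n + 1, q + 1, r, h => by
    obtain rfl : n = q + r := by omega
    rcases Nat.eq_zero_or_pos (q + r) with e | e
    · obtain rfl : q = 0 := by omega
      obtain rfl : r = 0 := by omega
      simp [Wr, cW]
    have h1 : ∀ n : ℝ, (n + 1) * ∑ k ∈ range (r + 1), (r.choose k : ℝ) * k * n ^ (r - k) =
        r * (n + 1) ^ r := fun n => by
      cases r with
      | zero => simp
      | succ r =>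
        rw [sum_range_succ', pow_succ', add_comm n, add_pow, mul_left_comm, mul_sum _ _ (_ : ℝ)]
        simp only [Nat.cast_zero, mul_zero, zero_mul, add_zero, mul_sum]
        refine sum_congr rfl fun k _ => ?_
        rw [← Nat.cast_mul, ← Nat.add_one_mul_choose_eq, Nat.add_sub_add_right]
        push_cast
        ring
    have h2 : ((q + r : ℕ) : ℝ) * (r.factorial * Wr 1 1 (q + r + 1) (q + 1)) =
        q * (((q + r : ℕ) : ℝ) + 1) ^ r +
          ∑ k ∈ range (r + 1), (r.choose k : ℝ) * k * ((q + r : ℕ) : ℝ) ^ (r - k) := by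
      rw [qtree_succ, add_comm _ (1 : ℝ), add_pow, mul_sum, mul_sum, ← sum_add_distrib]
      refine sum_congr rfl fun k hk => ?_
      have := qtree_one (q + r) (q + k) (r - k) (by have := mem_range.1 hk; omega)
      rw [show cW 1 1 k = 1 by simp [cW], nsmul_eq_mul, one_mul, mul_left_comm, this]
      push_cast
      ring
    refine mul_left_cancel₀ (Nat.cast_pos (α := ℝ).2 e).ne' ?_
    rw [mul_left_comm, h2, mul_add, Nat.cast_add_one, h1]
    push_cast
    ring

section

variable {α : Type*} [Fintype α]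

theorem qtree_pow (κ ω : ℝ) (A : Finset α) (q : ℕ) (o : Option α) (φ0 : α → Option α)
    (G : Finset α → (α → Option α) → ℝ)
    (hG : ∀ C ⊆ A, ∀ ψ : α → Option α, (∀ v ∈ C, ψ v = o) → G C ψ =
      cW κ ω C.card * ((A.card - C.card).factorial * Wr κ ω (q + A.card) (q + C.card))) :
    ∑ C ∈ A.powerset, ∑ ψ ∈ Fintype.piFinset (fun v => if v ∈ C then {o} else {φ0 v}), G C ψ =
      A.card.factorial * Wr κ ω (q + A.card + 1) (q + 1) := by
  rw [qtree_succ, ← sum_powerset_apply_card fun k =>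
    cW κ ω k * ((A.card - k).factorial * Wr κ ω (q + A.card) (q + k))]
  refine sum_congr rfl fun C hC => ?_
  have h1 := sum_pi_born C {o} φ0 fun _ => (1 : ℝ)
  simp only [prod_const_one, sum_const, nsmul_eq_mul, mul_one, card_singleton, Nat.cast_one,
    one_pow] at h1
  rw [sum_congr rfl fun ψ hψ => hG C (mem_powerset.1 hC) ψ fun v hv =>
    mem_singleton.1 ((qstep_pi.1 hψ).1 v hv), sum_const, nsmul_eq_mul, h1, one_mul]

omit [Fintype α] in
theorem qtree_split (κ ω : ℝ) {A C U : Finset α} (hC : C ⊆ A) {o : Option α} {φ : α → Option α}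
    (h1 : ∀ v ∈ C, φ v = o) (h2 : ∀ v ∈ A \ C, φ v ≠ o) (h3 : ∀ u ∈ U, o ≠ some u) :
    cW κ ω (A.filter fun v => φ v = o).card *
        ∏ u ∈ U, cW κ ω (A.filter fun v => φ v = some u).card =
      cW κ ω C.card * ∏ u ∈ U, cW κ ω ((A \ C).filter fun v => φ v = some u).card := by
  rw [show (A.filter fun v => φ v = o) = C from ext fun v => mem_filter.trans
    ⟨fun h => by_contra fun h' => h2 v (mem_sdiff.2 ⟨h.1, h'⟩) h.2, fun h => ⟨hC h, h1 v h⟩⟩]
  refine congrArg _ (prod_congr rfl fun u hu => congrArg _ (congrArg _ (ext fun v => ?_)))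
  simp only [mem_filter, mem_sdiff]
  exact ⟨fun h => ⟨⟨h.1, fun h' => h3 u hu ((h1 v h').symm.trans h.2)⟩, h.2⟩,
    fun h => ⟨h.1.1, h.2⟩⟩

theorem qtree_exts (κ ω : ℝ) (R : Finset α) (n : ℕ) : ∀ (S B : Finset α) (φ0 : α → Option α),
    S ⊆ B → B ⊆ R → (R \ S).card = n →
    ∑ φ ∈ exts Option.toFinset univ R S B φ0,
        ∏ u ∈ R \ S, cW κ ω ((R \ B).filter fun v => φ v = some u).card =
      (R \ B).card.factorial * Wr κ ω n (B \ S).card := by
  induction n with
  | zero =>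
    intro S B φ0 h1 h2 h3
    obtain rfl : S = R := (h1.trans h2).antisymm (sdiff_eq_empty_iff_subset.1 (card_eq_zero.1 h3))
    obtain rfl : B = S := h2.antisymm h1
    simp [exts_full, Wr]
  | succ n ih =>
    intro S B φ0 h1 h2 h3
    rcases (B \ S).eq_empty_or_nonempty with e | ⟨a, ha⟩
    · obtain rfl : S = B := h1.antisymm (sdiff_eq_empty_iff_subset.1 e)
      rw [exts_dead _ _ (card_pos.1 (by omega)), e]
      simp [Wr]
    obtain ⟨a1, a2⟩ := mem_sdiff.1 ha
    have e1 := exts_step Option.toFinset univ h1 h2 a1 φ0 (fun _ => (1 : ℝ))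
      fun φ => ∏ u ∈ R \ S, cW κ ω ((R \ B).filter fun v => φ v = some u).card
    have e2 : (univ.filter fun o : Option α => o.toFinset ⊆ insert a S ∧ ¬ o.toFinset ⊆ S) =
        {some a} := by
      ext (_ | o)
      · simp
      · simp only [mem_filter, mem_univ, Option.toFinset_some, singleton_subset_iff, mem_insert,
          true_and, mem_singleton, Option.some.injEq]
        exact ⟨fun h => h.1.resolve_right h.2, fun h => ⟨Or.inl h, h ▸ a2⟩⟩
    simp only [prod_const_one, one_mul, e2] at e1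
    have e3 : R \ S = insert a (R \ insert a S) := by
      rw [sdiff_insert, insert_erase (mem_sdiff.2 ⟨h2 a1, a2⟩)]
    have e4 : a ∉ R \ insert a S := by simp
    have c1 := card_sdiff_of_subset h1
    have c2 := card_sdiff_of_subset h2
    have c3 := card_sdiff_of_subset (h1.trans h2)
    have c4 := card_le_card h1
    have c5 := card_le_card h2
    have c6 := card_pos.2 ⟨a, ha⟩
    obtain ⟨q, hq⟩ : ∃ q, (B \ S).card = q + 1 := ⟨(B \ S).card - 1, by omega⟩
    obtain rfl : n = q + (R \ B).card := by omega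
    rw [e1, hq]
    refine qtree_pow κ ω _ q _ φ0 _ fun C hC ψ hψ => ?_
    have d1 : B ∪ C ⊆ R := union_subset h2 (hC.trans sdiff_subset)
    have d2 : insert a S ⊆ B ∪ C := (insert_subset a1 h1).trans subset_union_left
    have d3 : R \ (B ∪ C) = (R \ B) \ C := sdiff_sdiff_left.symm
    have d4 : (B ∪ C).card = B.card + C.card :=
      card_union_of_disjoint (disjoint_sdiff.mono_right hC)
    have := ih _ _ ψ d2 d1 (by rw [e3, card_insert_of_notMem e4] at h3; omega)
    rw [card_sdiff_of_subset d2, card_insert_of_notMem a2, d3, card_sdiff_of_subset hC,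
      show (B ∪ C).card - (S.card + 1) = q + C.card by omega] at this
    rw [← this, mul_sum]
    refine sum_congr rfl fun φ hφ => ?_
    obtain ⟨⟨-, k1⟩, -, k2⟩ := (qstep_exts _ _).1 hφ
    rw [e3, prod_insert e4]
    refine qtree_split κ ω hC (fun v hv => (k1 v (by simp [hv])).trans (hψ v hv))
      (fun v hv e => k2 v (d3 ▸ hv) (by simp [e])) fun u hu e => e4 (Option.some.inj e ▸ hu)

theorem qtree_acys (κ ω : ℝ) (R : Finset α) :
    ∑ φ ∈ acys Option.toFinset univ none R, cW κ ω (R.filter fun v => φ v = none).card *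
        ∏ u ∈ R, cW κ ω (R.filter fun v => φ v = some u).card =
      R.card.factorial * Wr κ ω (R.card + 1) 1 := by
  have e1 := acys_init Option.toFinset univ R none (fun _ => (1 : ℝ))
    fun φ => cW κ ω (R.filter fun v => φ v = none).card *
      ∏ u ∈ R, cW κ ω (R.filter fun v => φ v = some u).card
  have e2 : (univ.filter fun o : Option α => o.toFinset = ∅) = {none} := by
    ext (_ | o) <;> simp
  simp only [prod_const_one, one_mul, e2] at e1
  rw [e1]
  refine (qtree_pow κ ω R 0 none (fun _ => none) _ fun C hC ψ hψ => ?_).trans (by simp)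
  have := qtree_exts κ ω R _ ∅ C ψ (empty_subset _) hC rfl
  rw [sdiff_empty, sdiff_empty, card_sdiff_of_subset hC] at this
  rw [zero_add, zero_add, ← this, mul_sum]
  refine sum_congr rfl fun φ hφ => ?_
  obtain ⟨⟨-, k1⟩, -, k2⟩ := (qstep_exts _ _).1 hφ
  exact qtree_split κ ω hC (fun v hv => (k1 v (by simp [hv])).trans (hψ v hv))
    (fun v hv e => k2 v hv (by simp [e])) fun u _ e => nomatch e

theorem qtree_card (R : Finset α) :
    ((acys Option.toFinset univ none R).card : ℝ) = (R.card + 1) ^ (R.card - 1) := by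
  have h1 := qtree_acys 1 1 R
  have h2 := qtree_one (R.card + 1) 1 R.card (add_comm _ _)
  simp only [cW, ite_self, prod_const_one, mul_one, sum_const, nsmul_eq_mul] at h1
  rw [← h1, Nat.cast_one, one_mul, Nat.cast_add_one] at h2
  refine mul_left_cancel₀ (by positivity : (R.card : ℝ) + 1 ≠ 0) (h2.trans ?_)
  cases R.card with
  | zero => simp
  | succ r => rw [pow_succ', Nat.add_sub_cancel]

theorem qtree_unused (E : Finset α) {j : ℕ} (h : Fintype.card α - E.card = j) :
    (((acys Option.toFinset univ none (univ : Finset α)).filter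
      fun φ => ∀ v ∈ univ, ∀ u ∈ E, u ∉ (φ v).toFinset).card : ℝ) =
        ((j : ℝ) + 1) ^ (j - 1) * (j + 1) ^ E.card := by
  rw [← card_univ_sdiff] at h
  have e3 : (univ.filter fun o : Option α => o.toFinset ⊆ univ \ E) = insertNone (univ \ E) := by
    ext (_ | o) <;> simp
  have e4 := sum_pi_born E (insertNone (univ \ E)) (fun _ => none) fun _ => (1 : ℝ)
  have e5 := acys_unused Option.toFinset univ (subset_univ E) none fun _ => (1 : ℝ)
  simp only [prod_const_one, sum_const, nsmul_eq_mul, mul_one, card_insertNone, h] at e4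
  simp only [sum_const, nsmul_eq_mul, mul_one, e3, e4, qtree_card, h] at e5
  rw [e5, Nat.cast_add_one]

end

theorem qtree_trees (k : ℕ) : trees k = acys Option.toFinset univ none univ := by
  ext τ
  rw [qstep_acys, trees, mem_filter]
  simp only [mem_univ, true_and, Option.mem_toFinset, Option.mem_def, forall_const, not_true,
    false_imp_iff, implies_true]

theorem treeW_eq (κ ω : ℝ) (k : ℕ) : treeW κ ω k = k.factorial * Wr κ ω (k + 1) 1 := by
  have := qtree_acys κ ω (univ : Finset (Fin k))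
  rw [card_univ, Fintype.card_fin, ← qtree_trees] at this
  rw [← this, treeW]
  refine sum_congr rfl fun τ _ => ?_
  have e : ∀ n, cW κ ω n = (if n = 1 then κ else 1) * (if n = 0 then ω else 1) := fun n => by
    unfold cW
    split_ifs <;> simp_all
  rw [← prod_const, ← prod_const, prod_filter, prod_filter, ← prod_mul_distrib,
    Fintype.prod_option]
  simp only [e, nch]
  congr!

theorem card_trees (k : ℕ) : (trees k).card = (k + 1) ^ (k - 1) := by
  have := qtree_card (univ : Finset (Fin k))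
  rw [card_univ, Fintype.card_fin, ← qtree_trees] at this
  exact_mod_cast this

theorem le_treeW {x : ℝ} (hx : 0 ≤ x) {j k : ℕ} (h : j ≤ k) :
    (k.choose j : ℝ) * (j + 1) ^ (j - 1) * ((j + 1) * x) ^ (k - j) ≤ treeW 1 (1 + x) k := by
  have h1 : ∀ E ∈ powersetCard (k - j) (univ : Finset (Fin k)),
      ∑ _φ ∈ (trees k).filter (fun φ => ∀ v ∈ univ, ∀ u ∈ E, u ∉ (φ v).toFinset), x ^ (k - j) =
        ((j : ℝ) + 1) ^ (j - 1) * ((j + 1) * x) ^ (k - j) := fun E hE => by
    have e1 := (mem_powersetCard.1 hE).2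
    have e2 := qtree_unused E (j := j) (by rw [Fintype.card_fin, e1]; omega)
    rw [sum_const, nsmul_eq_mul, mul_pow, ← mul_assoc, ← e1, ← e2, qtree_trees]
    congr!
  have h2 := sum_congr rfl h1
  rw [sum_const, card_powersetCard, card_univ, Fintype.card_fin, Nat.choose_symm h,
    nsmul_eq_mul, ← mul_assoc] at h2
  rw [← h2, treeW]
  simp only [sum_filter]
  rw [sum_comm]
  refine sum_le_sum fun τ _ => ?_
  have h3 : (univ.filter fun a => nch τ (some a) = 0).card ≤
      (univ.filter fun o => nch τ o = 0).card :=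
    card_le_card_of_injOn some (fun a ha => by simpa using ha) (Option.some_injective _).injOn
  rw [one_pow, one_mul, ← sum_filter]
  refine le_trans ?_ (pow_le_pow_right₀ (by linarith) h3)
  rw [← prod_const, prod_one_add]
  refine (sum_congr rfl fun E hE => ?_).trans_le (sum_le_sum_of_subset_of_nonneg
    (fun E hE => mem_powerset.2 fun u hu => ?_) fun E _ _ => prod_nonneg fun _ _ => hx)
  · rw [prod_const, (mem_powersetCard.1 (mem_filter.1 hE).1).2]
  · have := fun v => (mem_filter.1 hE).2 v (mem_univ v) u hu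
    simpa [nch] using this

end Pool.Agent.Work.MP_5391ad_co
end

-- merged part: Pool.Agent.Work.MP_5391ad_co.QBlk
section
/-! Blocks on a finite set of labels.
`blockS_eq`: transport along an equivalence `Fin k ≃ B` (`Finset.equivFin`), extended by
`none ↦ v`; `Finset.sum_bij'` or `Fintype.sum_equiv` on the subtypes; `τ a = none` iff
`F.2 a = some v`; labels `l x = F.1 x`.
`sum_blockW`: exchange sums; labellings with image inside `S` are the elements of a `piFinset`,
`Finset.prod_univ_sum`. -/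

namespace Pool.Agent.Work.MP_5391ad_co

open Finset
open scoped Classical

variable {α : Type*} [Fintype α]

/-- a block with root `v`, non-root vertices `B` and feed set `T` -/
structure IsBlk (B : Finset α) (v : α) (T : Finset α) (F : FStr α) : Prop where
  h2 : ∀ x, F.2 x ≠ none ↔ x ∈ B
  h2m : ∀ x w, F.2 x = some w → (w ∈ B ∨ w = v) ∧ F.1 w = none
  h1 : ∀ x, F.1 x ≠ none → x ∈ B ∨ x = v
  acyc : ∃ rk : α → ℕ, ∀ x w, F.2 x = some w → rk w < rk x
  fd : ∀ u, u ∈ T ↔ ∃ x, F.1 x = some u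

/-- weight of a block -/
noncomputable def blkWt (κ y : ℝ) (ν : α → ℝ) (B : Finset α) (v : α) (F : FStr α) : ℝ :=
  κ ^ ((insert v B).filter fun x => (B.filter fun u => F.2 u = some x).card = 1).card *
    ∏ x ∈ (insert v B).filter (fun x => ∀ u, F.2 u ≠ some x), (F.1 x).elim (1 + y) ν

/-- the structure attached to a labelled tree along an injection -/
noncomputable def qblk_mk {k : ℕ} (ι : Option (Fin k) → α) (τ : Fin k → Option (Fin k))
    (l : Option (Fin k) → Option α) : FStr α :=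
  (Function.extend ι l fun _ => none,
    Function.extend (fun a => ι (some a)) (fun a => some (ι (τ a))) fun _ => none)

section
variable {k : ℕ} {ι : Option (Fin k) → α} {τ : Fin k → Option (Fin k)}
  {l : Option (Fin k) → Option α} {B : Finset α}

omit [Fintype α] in
theorem qblk_fst (hι : Function.Injective ι) (x : Option (Fin k)) :
    (qblk_mk ι τ l).1 (ι x) = l x := hι.extend_apply l (fun _ => none) x

omit [Fintype α] in
theorem qblk_fst' {x : α} (hx : ¬ ∃ z, ι z = x) : (qblk_mk ι τ l).1 x = none :=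
  Function.extend_apply' l (fun _ => none) x hx

omit [Fintype α] in
theorem qblk_snd (hι : Function.Injective ι) (a : Fin k) :
    (qblk_mk ι τ l).2 (ι (some a)) = some (ι (τ a)) :=
  Function.Injective.extend_apply (f := fun a => ι (some a))
    (fun _ _ h => Option.some.inj (hι h)) (fun a => some (ι (τ a))) (fun _ => none) a

omit [Fintype α] in
theorem qblk_snd' {x : α} (hx : ¬ ∃ a, ι (some a) = x) : (qblk_mk ι τ l).2 x = none :=
  Function.extend_apply' (f := fun a => ι (some a)) (fun a => some (ι (τ a))) (fun _ => none) x hx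

omit [Fintype α] in
theorem qblk_snd_eq (hι : Function.Injective ι) {u w : α} :
    (qblk_mk ι τ l).2 u = some w ↔ ∃ a, ι (some a) = u ∧ ι (τ a) = w := by
  constructor
  · intro h
    by_cases hu : ∃ a, ι (some a) = u
    · obtain ⟨a, rfl⟩ := hu
      rw [qblk_snd hι] at h
      exact ⟨a, rfl, Option.some.inj h⟩
    · rw [qblk_snd' hu] at h
      cases h
  · rintro ⟨a, rfl, rfl⟩
    exact qblk_snd hι a

omit [Fintype α] in
theorem qblk_nch (hι : Function.Injective ι) (hB : ∀ x, x ∈ B ↔ ∃ a, ι (some a) = x)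
    (x : Option (Fin k)) :
    (B.filter fun u => (qblk_mk ι τ l).2 u = some (ι x)).card = nch τ x := by
  unfold nch
  symm
  refine Finset.card_bij (fun a _ => ι (some a)) ?_ ?_ ?_
  · intro a ha
    rw [mem_filter] at ha ⊢
    exact ⟨(hB _).2 ⟨a, rfl⟩, by rw [qblk_snd hι, ha.2]⟩
  · intro a _ b _ h
    exact Option.some.inj (hι h)
  · intro u hu
    rw [mem_filter] at hu
    obtain ⟨a, rfl, h⟩ := (qblk_snd_eq hι).1 hu.2
    exact ⟨a, mem_filter.2 ⟨mem_univ _, hι h⟩, rfl⟩

omit [Fintype α] in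
theorem qblk_nch0 {x : Option (Fin k)} : nch τ x = 0 ↔ ∀ a, τ a ≠ x := by
  unfold nch
  rw [card_eq_zero, filter_eq_empty_iff]
  simp

omit [Fintype α] in
theorem qblk_ins (hB : ∀ x, x ∈ B ↔ ∃ a, ι (some a) = x) {x : α} :
    x ∈ insert (ι none) B ↔ ∃ z, ι z = x := by
  rw [mem_insert, hB]
  constructor
  · rintro (rfl | ⟨a, rfl⟩)
    · exact ⟨_, rfl⟩
    · exact ⟨_, rfl⟩
  · rintro ⟨_ | a, rfl⟩
    · exact Or.inl rfl
    · exact Or.inr ⟨a, rfl⟩

theorem qblk_wt (κ y : ℝ) (ν : α → ℝ) (hι : Function.Injective ι)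
    (hB : ∀ x, x ∈ B ↔ ∃ a, ι (some a) = x) :
    blkWt κ y ν B (ι none) (qblk_mk ι τ l) =
      κ ^ (univ.filter fun x => nch τ x = 1).card *
        ∏ x ∈ univ.filter (fun x => nch τ x = 0), (l x).elim (1 + y) ν := by
  unfold blkWt
  congr 1
  · congr 1
    symm
    refine Finset.card_bij (fun z _ => ι z) ?_ ?_ ?_
    · intro z hz
      rw [mem_filter] at hz ⊢
      exact ⟨(qblk_ins hB).2 ⟨z, rfl⟩, by rw [qblk_nch hι hB, hz.2]⟩
    · intro a _ b _ h
      exact hι h
    · intro u hu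
      rw [mem_filter] at hu
      obtain ⟨z, rfl⟩ := (qblk_ins hB).1 hu.1
      exact ⟨z, mem_filter.2 ⟨mem_univ _, by rw [← qblk_nch (l := l) hι hB, hu.2]⟩, rfl⟩
  · symm
    refine Finset.prod_bij (fun z _ => ι z) ?_ ?_ ?_ ?_
    · intro z hz
      rw [mem_filter] at hz ⊢
      refine ⟨(qblk_ins hB).2 ⟨z, rfl⟩, fun u hu => ?_⟩
      obtain ⟨a, -, h⟩ := (qblk_snd_eq hι).1 hu
      exact qblk_nch0.1 hz.2 a (hι h)
    · intro a _ b _ h
      exact hι h
    · intro u hu
      rw [mem_filter] at hu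
      obtain ⟨z, rfl⟩ := (qblk_ins hB).1 hu.1
      refine ⟨z, mem_filter.2 ⟨mem_univ _, qblk_nch0.2 fun a ha => ?_⟩, rfl⟩
      exact hu.2 _ (by rw [qblk_snd hι, ha])
    · intro z _
      rw [qblk_fst hι]

omit [Fintype α] in
theorem qblk_isBlk (hι : Function.Injective ι) (hB : ∀ x, x ∈ B ↔ ∃ a, ι (some a) = x)
    {T : Finset α} (hτ : τ ∈ trees k) (h1 : ∀ x, nch τ x ≠ 0 → l x = none)
    (h2 : ∀ u, u ∈ T ↔ ∃ x, l x = some u) : IsBlk B (ι none) T (qblk_mk ι τ l) where
  h2 x := by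
    rw [hB]
    constructor
    · intro h
      by_contra hx
      exact h (qblk_snd' hx)
    · rintro ⟨a, rfl⟩
      rw [qblk_snd hι]
      exact Option.some_ne_none _
  h2m x w h := by
    obtain ⟨a, rfl, rfl⟩ := (qblk_snd_eq hι).1 h
    refine ⟨?_, ?_⟩
    · exact (mem_insert.1 ((qblk_ins hB).2 ⟨_, rfl⟩)).symm
    · rw [qblk_fst hι]
      exact h1 _ fun h0 => qblk_nch0.1 h0 a rfl
  h1 x h := by
    have : x ∈ insert (ι none) B := by
      rw [qblk_ins hB]
      by_contra hx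
      exact h (qblk_fst' hx)
    exact (mem_insert.1 this).symm
  acyc := by
    obtain ⟨rk, hrk⟩ := (mem_filter.1 hτ).2
    refine ⟨Function.extend ι (fun z => z.elim 0 fun a => rk a + 1) fun _ => 0, fun x w h => ?_⟩
    obtain ⟨a, rfl, rfl⟩ := (qblk_snd_eq hι).1 h
    rw [hι.extend_apply, hι.extend_apply]
    cases hb : τ a with
    | none => simp
    | some b => simpa using hrk a b hb
  fd u := by
    rw [h2]
    constructor
    · rintro ⟨z, hz⟩
      exact ⟨ι z, by rw [qblk_fst hι, hz]⟩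
    · rintro ⟨x, hx⟩
      by_cases hz : ∃ z, ι z = x
      · obtain ⟨z, rfl⟩ := hz
        exact ⟨z, by rw [← hx, qblk_fst hι]⟩
      · rw [qblk_fst' hz] at hx
        cases hx

omit [Fintype α] in
theorem qblk_surj (hι : Function.Injective ι) (hB : ∀ x, x ∈ B ↔ ∃ a, ι (some a) = x)
    {T : Finset α} {F : FStr α} (hF : IsBlk B (ι none) T F) :
    ∃ τ l, τ ∈ trees k ∧ (∀ x, nch τ x ≠ 0 → l x = none) ∧ (∀ u, u ∈ T ↔ ∃ x, l x = some u) ∧
      qblk_mk ι τ l = F := by
  have hex : ∀ a : Fin k, ∃ z, F.2 (ι (some a)) = some (ι z) := by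
    intro a
    obtain ⟨w, hw⟩ := Option.ne_none_iff_exists'.1 ((hF.h2 _).2 ((hB _).2 ⟨a, rfl⟩))
    obtain ⟨z, rfl⟩ := (qblk_ins hB).1 (mem_insert.2 (hF.h2m _ _ hw).1.symm)
    exact ⟨z, hw⟩
  choose τ hτ using hex
  have hout : ∀ x, (¬ ∃ z, ι z = x) → F.1 x = none := by
    intro x hx
    by_contra h
    exact hx ((qblk_ins hB).1 (mem_insert.2 (hF.h1 x h).symm))
  refine ⟨τ, fun z => F.1 (ι z), ?_, ?_, ?_, ?_⟩
  · obtain ⟨rk, hrk⟩ := hF.acyc
    refine mem_filter.2 ⟨mem_univ _, fun a => rk (ι (some a)), fun a b hab => hrk _ _ ?_⟩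
    rw [hτ, hab]
  · intro x hx
    rw [Ne, qblk_nch0] at hx
    push Not at hx
    obtain ⟨a, rfl⟩ := hx
    exact (hF.h2m _ _ (hτ a)).2
  · intro u
    rw [hF.fd]
    constructor
    · rintro ⟨x, hx⟩
      by_cases hz : ∃ z, ι z = x
      · obtain ⟨z, rfl⟩ := hz
        exact ⟨z, hx⟩
      · rw [hout x hz] at hx
        cases hx
    · rintro ⟨z, hz⟩
      exact ⟨_, hz⟩
  · refine Prod.ext (funext fun x => ?_) (funext fun x => ?_)
    · by_cases hz : ∃ z, ι z = x
      · obtain ⟨z, rfl⟩ := hz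
        rw [qblk_fst hι]
      · rw [qblk_fst' hz, hout x hz]
    · by_cases hz : ∃ a, ι (some a) = x
      · obtain ⟨a, rfl⟩ := hz
        rw [qblk_snd hι, hτ]
      · rw [qblk_snd' hz]
        by_contra h
        exact hz ((hB _).1 ((hF.h2 x).1 (Ne.symm h)))

end

theorem blockS_eq (κ y : ℝ) (ν : α → ℝ) {B : Finset α} {v : α} (hv : v ∉ B) (T : Finset α) :
    ∑ F ∈ univ.filter (IsBlk B v T), blkWt κ y ν B v F = blockW κ y ν B.card T := by
  obtain ⟨ι, hι, h0, hB⟩ : ∃ ι : Option (Fin B.card) → α, Function.Injective ι ∧ ι none = v ∧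
      ∀ x, x ∈ B ↔ ∃ a, ι (some a) = x := by
    refine ⟨fun z => z.elim v fun a => (B.equivFin.symm a : α), ?_, rfl, fun x => ?_⟩
    · rintro (_ | a) (_ | b) h
      · rfl
      · exact absurd (by rw [show v = _ from h]; exact (B.equivFin.symm b).2) hv
      · exact absurd (by rw [← show _ = v from h]; exact (B.equivFin.symm a).2) hv
      · exact congrArg some (B.equivFin.symm.injective (Subtype.ext h))
    · constructor
      · intro hx
        exact ⟨B.equivFin ⟨x, hx⟩, by simp⟩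
      · rintro ⟨a, rfl⟩
        exact (B.equivFin.symm a).2
  subst h0
  unfold blockW
  simp_rw [mul_sum]
  rw [sum_sigma']
  symm
  refine Finset.sum_bij (fun p _ => qblk_mk ι p.1 p.2) ?_ ?_ ?_ ?_
  · rintro ⟨τ, l⟩ hp
    rw [mem_sigma, mem_filter] at hp
    exact mem_filter.2 ⟨mem_univ _, qblk_isBlk hι hB hp.1 hp.2.2.1 hp.2.2.2⟩
  · rintro ⟨τ, l⟩ _ ⟨τ', l'⟩ _ h
    have e1 : τ = τ' := funext fun a => by
      have := congrArg (fun F : FStr α => F.2 (ι (some a))) h
      simp only [qblk_snd hι] at this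
      exact hι (Option.some.inj this)
    have e2 : l = l' := funext fun z => by
      have := congrArg (fun F : FStr α => F.1 (ι z)) h
      simpa only [qblk_fst hι] using this
    subst e1 e2
    rfl
  · intro F hF
    obtain ⟨τ, l, h1, h2, h3, h4⟩ := qblk_surj hι hB (mem_filter.1 hF).2
    exact ⟨⟨τ, l⟩, mem_sigma.2 ⟨h1, mem_filter.2 ⟨mem_univ _, h2, h3⟩⟩, h4⟩
  · rintro ⟨τ, l⟩ _
    exact (qblk_wt κ y ν hι hB).symm

theorem sum_blockW (κ y : ℝ) (ν : α → ℝ) (k : ℕ) (S : Finset α) :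
    ∑ T ∈ S.powerset, blockW κ y ν k T = treeW κ (1 + y + ∑ u ∈ S, ν u) k := by
  unfold blockW treeW
  rw [sum_comm]
  refine sum_congr rfl fun τ _ => ?_
  rw [← mul_sum]
  congr 1
  have e1 : (1 + y + ∑ u ∈ S, ν u) ^ (univ.filter fun x => nch τ x = 0).card =
      ∏ x : Option (Fin k), ∑ o ∈ (if nch τ x = 0 then insertNone S else {none}),
        (if nch τ x = 0 then o.elim (1 + y) ν else 1) := by
    rw [← prod_const, prod_filter]
    refine prod_congr rfl fun x _ => ?_
    by_cases hx : nch τ x = 0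
    · simp [hx, sum_insertNone]
    · simp [hx]
  rw [e1, prod_univ_sum]
  simp_rw [← prod_filter]
  rw [← sum_fiberwise_of_maps_to (s := Fintype.piFinset _) (t := S.powerset)
    (g := fun l : Option (Fin k) → Option α => univ.filter fun u => ∃ x, l x = some u)]
  · refine sum_congr rfl fun T hT => sum_congr ?_ fun _ _ => rfl
    ext l
    rw [mem_powerset] at hT
    simp only [mem_filter, mem_univ, true_and, Fintype.mem_piFinset]
    constructor
    · rintro ⟨h1, h2⟩
      refine ⟨fun x => ?_, ?_⟩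
      · by_cases hx : nch τ x = 0
        · rw [if_pos hx, mem_insertNone]
          intro a ha
          exact hT ((h2 a).2 ⟨x, ha⟩)
        · rw [if_neg hx, mem_singleton]
          exact h1 x hx
      · ext u
        simp [h2]
    · rintro ⟨h1, rfl⟩
      refine ⟨fun x hx => ?_, fun u => by simp⟩
      have := h1 x
      rwa [if_neg hx, mem_singleton] at this
  · intro l hl
    rw [mem_powerset]
    intro u hu
    obtain ⟨x, hx⟩ := (mem_filter.1 hu).2
    have := Fintype.mem_piFinset.1 hl x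
    by_cases h0 : nch τ x = 0
    · rw [if_pos h0, mem_insertNone] at this
      exact this u hx
    · rw [if_neg h0, mem_singleton, hx] at this
      cases this

theorem blockW_nonneg {κ y : ℝ} {ν : α → ℝ} (hκ : 0 ≤ κ) (hy : 0 ≤ y) (hν : ∀ u, 0 ≤ ν u)
    (k : ℕ) (T : Finset α) : 0 ≤ blockW κ y ν k T := by
  unfold blockW
  refine sum_nonneg fun τ _ => mul_nonneg (pow_nonneg hκ _) (sum_nonneg fun l _ =>
    prod_nonneg fun x _ => ?_)
  cases l x with
  | none => exact add_nonneg zero_le_one hy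
  | some u => exact hν u

theorem qblk_mono (R : Finset α) (k : α → ℕ) (hk : ∀ v, k v ≠ 0 → v ∈ R) :
    ∏ v ∈ R, (MvPolynomial.X v : MvPolynomial α ℝ) ^ k v =
      MvPolynomial.monomial (Finsupp.equivFunOnFinite.symm k) 1 := by
  rw [← MvPolynomial.prod_X_pow_eq_monomial]
  symm
  refine (prod_subset (fun v hv => hk v (by simpa using hv)) fun v _ hv => ?_).trans
    (prod_congr rfl fun v _ => by simp)
  rw [Finsupp.notMem_support_iff.1 hv, pow_zero]

/-- maps `X → R` counted by their fibre sizes -/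
theorem sum_fibres (X R : Finset α) (x0 : α) (G : (α → ℕ) → ℝ) {m : ℕ} (hm : X.card ≤ m) :
    ∑ β ∈ Fintype.piFinset (fun x => if x ∈ X then R else {x0}),
        G (fun v => if v ∈ R then (X.filter fun x => β x = v).card else 0) =
      ∑ k ∈ (Fintype.piFinset fun v => if v ∈ R then range (m + 1) else {0}).filter
          (fun k => ∑ v ∈ R, k v = X.card),
        (X.card.factorial : ℝ) * (∏ v ∈ R, ((k v).factorial : ℝ)⁻¹) * G k := by
  obtain ⟨L, hL⟩ : ∃ L : MvPolynomial α ℝ →ₗ[ℝ] ℝ, ∀ k : α → ℕ,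
      L (MvPolynomial.monomial (Finsupp.equivFunOnFinite.symm k) 1) = G k := by
    refine ⟨(MvPolynomial.basisMonomials α ℝ).constr ℝ fun d => G d, fun k => ?_⟩
    have := (MvPolynomial.basisMonomials α ℝ).constr_basis ℝ (fun d => G d)
      (Finsupp.equivFunOnFinite.symm k)
    rw [MvPolynomial.coe_basisMonomials] at this
    exact this
  have e1 : (∑ v ∈ R, (MvPolynomial.X v : MvPolynomial α ℝ)) ^ X.card =
      ∏ x : α, ∑ r ∈ (if x ∈ X then R else {x0}),
        (if x ∈ X then (MvPolynomial.X r : MvPolynomial α ℝ) else 1) := by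
    rw [← prod_const]
    conv_lhs => rw [show X = univ.filter (· ∈ X) by simp]
    rw [prod_filter]
    refine prod_congr rfl fun x _ => ?_
    by_cases hx : x ∈ X
    · simp [hx]
    · simp [hx]
  rw [prod_univ_sum, sum_pow_eq_sum_piAntidiag] at e1
  have e2 := congrArg L e1
  rw [map_sum, map_sum] at e2
  refine Eq.trans (sum_congr rfl fun β hβ => ?_) (e2.symm.trans (sum_congr ?_ fun k hk => ?_))
  · rw [← hL, ← qblk_mono R _ (fun v hv => by by_contra h; exact hv (if_neg h)), ← prod_filter,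
      show univ.filter (· ∈ X) = X by simp]
    congr 1
    rw [← prod_fiberwise_of_maps_to (s := X) (t := R) (g := β)]
    · refine prod_congr rfl fun v hv => ?_
      rw [if_pos hv, ← prod_const]
      exact prod_congr rfl fun x hx => by rw [(mem_filter.1 hx).2]
    · intro x hx
      have := Fintype.mem_piFinset.1 hβ x
      rwa [if_pos hx] at this
  · ext k
    rw [mem_piAntidiag, mem_filter, Fintype.mem_piFinset]
    constructor
    · rintro ⟨h1, h2⟩
      refine ⟨fun v => ?_, h1⟩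
      by_cases hv : v ∈ R
      · rw [if_pos hv, mem_range, Nat.lt_succ_iff]
        exact ((single_le_sum (fun _ _ => Nat.zero_le _) hv).trans h1.le).trans hm
      · rw [if_neg hv, mem_singleton]
        by_contra h
        exact hv (h2 v h)
    · rintro ⟨h1, h2⟩
      refine ⟨h2, fun v hv => ?_⟩
      by_contra h
      have := h1 v
      rw [if_neg h, mem_singleton] at this
      exact hv this
  · obtain ⟨h1, h2⟩ := mem_filter.1 hk
    have h3 : ∀ v, k v ≠ 0 → v ∈ R := fun v hv => by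
      by_contra h
      have := Fintype.mem_piFinset.1 h1 v
      rw [if_neg h, mem_singleton] at this
      exact hv this
    rw [qblk_mono R k h3, ← nsmul_eq_mul, map_nsmul, hL, nsmul_eq_mul]
    congr 1
    have h4 := Nat.multinomial_spec R k
    rw [h2] at h4
    rw [← h4, prod_inv_distrib]
    push_cast
    have : (∏ v ∈ R, ((k v).factorial : ℝ)) ≠ 0 :=
      prod_ne_zero_iff.2 fun v _ => Nat.cast_ne_zero.2 (Nat.factorial_ne_zero _)
    field_simp

end Pool.Agent.Work.MP_5391ad_co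
end

-- merged part: Pool.Agent.Work.MP_5391ad_co.QLay
section
/-! Decomposition of a two-coloured structure into blocks.
`fstrs_blocks`: for `F ∈ fstrs W R` every `x ∈ W \ R` lies in the block of a unique row node `β x`
(follow `F.2`; the rank increases). Restricting `F` to `insert v {x | β x = v}` gives `IsBlk`, the
feeds are acyclic (use the rank of `F`: a row parent `u` of `x` in the block of `v` has
`rk u < rk x ≤ rk v`). Conversely glue blocks `G v`: `F.1 x = (G (β' x)).1 x`, where `β' x = x` on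
`R`; a rank for the glued structure is `rk1 (β' x) * (N + 1) + (N - rk2 x)` with the ranks bounded
by `N` (replace a rank by the number of vertices of smaller rank). The weight is multiplicative.
`layer`: combine with `blockS_eq` and `sum_fibres`. -/

namespace Pool.Agent.Work.MP_5391ad_co

open Finset
open scoped Classical

variable {α : Type*} [Fintype α]

theorem qlay_mem {Ω : Type*} {C : Finset α} {t : α → Finset Ω} {d : Ω} {ψ : α → Ω} :
    ψ ∈ Fintype.piFinset (fun v => if v ∈ C then t v else {d}) ↔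
      (∀ v ∈ C, ψ v ∈ t v) ∧ ∀ v, v ∉ C → ψ v = d := by
  rw [Fintype.mem_piFinset]
  constructor
  · intro h
    refine ⟨fun v hv => ?_, fun v hv => ?_⟩
    · simpa only [if_pos hv] using h v
    · simpa only [if_neg hv, mem_singleton] using h v
  · rintro ⟨h1, h2⟩ v
    split_ifs with hv
    · exact h1 v hv
    · exact mem_singleton.2 (h2 v hv)

theorem qlay_pi {Ω : Type*} (C : Finset α) (t : α → Finset Ω) (d : Ω) (g : α → Ω → ℝ) :
    ∏ v ∈ C, ∑ o ∈ t v, g v o =
      ∑ ψ ∈ Fintype.piFinset (fun v => if v ∈ C then t v else {d}), ∏ v ∈ C, g v (ψ v) := by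
  have h1 := prod_univ_sum (fun v => if v ∈ C then t v else {d})
    (fun v o => if v ∈ C then g v o else 1)
  simp only [prod_ite_mem, univ_inter] at h1
  rw [← h1, ← univ_inter C, ← prod_ite_mem, univ_inter]
  refine prod_congr rfl fun v _ => ?_
  split_ifs with h
  · rfl
  · exact (sum_singleton (fun _ => (1 : ℝ)) d).symm

theorem qlay_acys {R : Finset α} {φ : α → Finset α} : φ ∈ acys id R.powerset ∅ R ↔
    ((∀ v ∈ R, φ v ∈ R.powerset) ∧ ∀ v, v ∉ R → φ v = ∅) ∧
      ∃ rk : α → ℕ, ∀ v ∈ R, ∀ u ∈ φ v, u ∈ R ∧ rk u < rk v := by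
  rw [acys, mem_filter, qlay_mem (t := fun _ => R.powerset)]
  rfl

theorem qlay_split {X I : Type*} {A : Finset X} {T : Finset I} (r : I → X → Prop)
    (h : ∀ x ∈ A, ∃ i ∈ T, r i x ∧ ∀ j ∈ T, r j x → j = i) (F : X → ℝ) :
    ∑ x ∈ A, F x = ∑ i ∈ T, ∑ x ∈ A.filter (r i), F x := by
  simp only [sum_filter]
  rw [sum_comm]
  refine sum_congr rfl fun x hx => ?_
  obtain ⟨i, hi, h1, h2⟩ := h x hx
  rw [sum_eq_single_of_mem i hi fun j hj hne => if_neg fun h3 => hne (h2 j hj h3), if_pos h1]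

/-- restriction to a block -/
noncomputable def qlayRes (ρ : α → α) (F : FStr α) (v : α) : FStr α :=
  (fun x => if ρ x = v then F.1 x else none, fun x => if ρ x = v then F.2 x else none)

/-- `β` gives the roots of the blocks -/
def qlayRt (X : Finset α) (β : α → α) (F : FStr α) : Prop := ∀ x ∈ X, F.inb x (β x)

/-- gluing of blocks -/
def qlayGlue (ρ : α → α) (G : α → FStr α) : FStr α :=
  (fun x => (G (ρ x)).1 x, fun x => (G (ρ x)).2 x)

section
variable {W R : Finset α} {F : FStr α} {ρ : α → α}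

omit [Fintype α] in
theorem qlay_row (hr : F.rows W = R) {x : α} : x ∈ R ↔ x ∈ W ∧ F.2 x = none := by
  rw [← hr, FStr.rows, mem_filter]

omit [Fintype α] in
theorem qlay_end {v w : α} (hv : F.2 v = none) (h : F.inb v w) : v = w := by
  rcases h.cases_head with h1 | ⟨c, h1, -⟩
  · exact h1
  · rw [hv] at h1
    exact absurd h1 (by simp)

omit [Fintype α] in
theorem qlay_uniq (hr : F.rows W = R) {x v w : α} (hv : v ∈ R) (hw : w ∈ R) (h1 : F.inb x v)
    (h2 : F.inb x w) : v = w := by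
  rcases Relation.ReflTransGen.total_of_right_unique
    (fun a b c (h : F.2 a = some b) (h' : F.2 a = some c) => Option.some.inj (h.symm.trans h'))
    h1 h2 with h | h
  · exact qlay_end ((qlay_row hr).1 hv).2 h
  · exact (qlay_end ((qlay_row hr).1 hw).2 h).symm

theorem qlay_root (hF : IsF W F) (hr : F.rows W = R) {x : α} (hx : x ∈ W) :
    ∃ v ∈ R, F.inb x v := by
  obtain ⟨rk, hrk⟩ := hF.acyc
  induction hn : univ.sup rk - rk x using Nat.strong_induction_on generalizing x with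
  | _ n ih =>
    cases h : F.2 x with
    | none => exact ⟨x, (qlay_row hr).2 ⟨hx, h⟩, Relation.ReflTransGen.refl⟩
    | some w =>
      have h1 := hrk x w (Or.inr h)
      have h2 : rk w ≤ univ.sup rk := le_sup (mem_univ w)
      obtain ⟨v, hv, h3⟩ := ih _ (by omega) (hF.hq x w h).2.1 rfl
      exact ⟨v, hv, Relation.ReflTransGen.head h h3⟩

omit [Fintype α] in
theorem qlay_blk (h2 : ∀ v ∈ R, ρ v = v) {x v : α} (hx : x ∈ W) (h : ρ x = v) :
    x ∈ (W \ R).filter (fun x => ρ x = v) ∨ x = v := by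
  by_cases hR : x ∈ R
  · exact Or.inr ((h2 x hR).symm.trans h)
  · exact Or.inl (mem_filter.2 ⟨mem_sdiff.2 ⟨hx, hR⟩, h⟩)

omit [Fintype α] in
theorem qlay_res1 {v x u : α} : (qlayRes ρ F v).1 x = some u ↔ ρ x = v ∧ F.1 x = some u := by
  unfold qlayRes
  dsimp only
  split_ifs with h <;> simp [h]

omit [Fintype α] in
theorem qlay_res2 {v x u : α} : (qlayRes ρ F v).2 x = some u ↔ ρ x = v ∧ F.2 x = some u := by
  unfold qlayRes
  dsimp only
  split_ifs with h <;> simp [h]

omit [Fintype α] in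
theorem qlay_mem_feed (hr : F.rows W = R) {v u : α} (hv : v ∈ R) :
    u ∈ F.feed W v ↔ u ∈ W ∧ ∃ x, F.1 x = some u ∧ F.inb x v := by
  rw [FStr.feed, hr, if_pos hv, mem_filter]

theorem qlay_feed (hF : IsF W F) (hr : F.rows W = R) : F.feed W ∈ acys id R.powerset ∅ R := by
  obtain ⟨rk, hrk⟩ := hF.acyc
  have h1 : ∀ v ∈ R, ∀ u ∈ F.feed W v, u ∈ R ∧ rk u < rk v := by
    intro v hv u hu
    replace hu := (qlay_mem_feed hr hv).1 hu
    obtain ⟨hu, x, h1, h2⟩ := hu
    refine ⟨(qlay_row hr).2 ⟨hu, (hF.hp u x h1).2.2⟩, (hrk u x (Or.inl h1)).trans_le ?_⟩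
    clear hv
    induction h2 with
    | refl => exact le_rfl
    | tail _ h ih => exact ih.trans (hrk _ _ (Or.inr h)).le
  refine qlay_acys.2 ⟨⟨fun v hv => mem_powerset.2 fun u hu => (h1 v hv u hu).1, fun v hv => ?_⟩,
    rk, h1⟩
  rw [FStr.feed, hr, if_neg hv]

theorem qlay_wt (hF : IsF W F) (κ y : ℝ) (ν : α → ℝ) : F.wt W κ y ν =
    ∏ x ∈ W, ((if (W.filter fun u => F.2 u = some x).card = 1 then κ else 1) *
      if ∀ u, F.2 u ≠ some x then (F.1 x).elim (1 + y) ν else 1) := by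
  have h1 : ∏ u ∈ W, ν u ^ (W.filter fun v => F.1 v = some u).card =
      ∏ x ∈ W, (F.1 x).elim 1 ν := by
    simp only [← prod_const, prod_filter]
    rw [prod_comm]
    refine prod_congr rfl fun x _ => ?_
    cases h : F.1 x with
    | none => simp
    | some u =>
      rw [prod_eq_single_of_mem u (hF.hp u x h).1 fun w _ hw =>
        if_neg fun e => hw (Option.some.inj e).symm, if_pos rfl]
      rfl
  rw [FStr.wt, h1, FStr.one, nsrc, ← prod_const, ← prod_const, prod_filter, prod_filter, mul_assoc,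
    ← prod_mul_distrib, ← prod_mul_distrib]
  refine prod_congr rfl fun x _ => ?_
  congr 1
  cases h : F.1 x with
  | none =>
    simp only [FStr.arc, h, Option.elim, mul_one]
    simp
  | some u =>
    rw [if_neg fun h' => h' u (Or.inl h), if_pos fun w e => by
      rw [(hF.hq w x e).2.2] at h
      exact absurd h (by simp), one_mul]
    rfl

variable (hF : IsF W F) (hr : F.rows W = R) (h1 : ∀ x ∈ W, ρ x ∈ R) (h2 : ∀ v ∈ R, ρ v = v)
  (h3 : ∀ x ∈ W, F.inb x (ρ x))
include hF hr h1 h3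

omit [Fintype α] hF in
theorem qlay_inb {x v : α} (hx : x ∈ W) (hv : v ∈ R) : F.inb x v ↔ ρ x = v :=
  ⟨qlay_uniq hr (h1 x hx) hv (h3 x hx), fun h => h ▸ h3 x hx⟩

omit [Fintype α] in
theorem qlay_step {x w : α} (h : F.2 x = some w) : x ∈ W \ R ∧ ρ x = ρ w := by
  obtain ⟨hx, hw, -⟩ := hF.hq x w h
  refine ⟨mem_sdiff.2 ⟨hx, fun h4 => ?_⟩,
    (qlay_inb hr h1 h3 hx (h1 w hw)).1 (Relation.ReflTransGen.head h (h3 w hw))⟩
  rw [((qlay_row hr).1 h4).2] at h
  exact absurd h (by simp)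

include h2

theorem qlay_isBlk {v : α} (hv : v ∈ R) :
    IsBlk ((W \ R).filter fun x => ρ x = v) v (F.feed W v) (qlayRes ρ F v) := by
  refine ⟨fun x => ?_, fun x w h => ?_, fun x h => ?_, ?_, fun u => ?_⟩
  · rw [Option.ne_none_iff_exists', mem_filter]
    constructor
    · rintro ⟨w, h⟩
      obtain ⟨h4, h5⟩ := qlay_res2.1 h
      exact ⟨(qlay_step hF hr h1 h3 h5).1, h4⟩
    · rintro ⟨h4, h5⟩
      obtain ⟨w, h⟩ := Option.ne_none_iff_exists'.1 fun e =>
        (mem_sdiff.1 h4).2 ((qlay_row hr).2 ⟨(mem_sdiff.1 h4).1, e⟩)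
      exact ⟨w, qlay_res2.2 ⟨h5, h⟩⟩
  · obtain ⟨h4, h5⟩ := qlay_res2.1 h
    obtain ⟨-, h6, h7⟩ := hF.hq x w h5
    refine ⟨qlay_blk h2 h6 ((qlay_step hF hr h1 h3 h5).2.symm.trans h4), ?_⟩
    simp only [qlayRes, h7, ite_self]
  · obtain ⟨u, h⟩ := Option.ne_none_iff_exists'.1 h
    obtain ⟨h4, h5⟩ := qlay_res1.1 h
    exact qlay_blk h2 (hF.hp u x h5).2.1 h4
  · obtain ⟨rk, hrk⟩ := hF.acyc
    refine ⟨fun x => univ.sup rk - rk x, fun x w h => ?_⟩
    have h4 := hrk x w (Or.inr (qlay_res2.1 h).2)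
    have h5 : rk w ≤ univ.sup rk := le_sup (mem_univ w)
    dsimp only
    omega
  · rw [qlay_mem_feed hr hv]
    constructor
    · rintro ⟨-, x, h4, h5⟩
      exact ⟨x, qlay_res1.2 ⟨(qlay_inb hr h1 h3 (hF.hp u x h4).2.1 hv).1 h5, h4⟩⟩
    · rintro ⟨x, h⟩
      obtain ⟨h4, h5⟩ := qlay_res1.1 h
      exact ⟨(hF.hp u x h5).1, x, h5, (qlay_inb hr h1 h3 (hF.hp u x h5).2.1 hv).2 h4⟩

omit [Fintype α] hF in
theorem qlay_bsz : F.bsz W =
    fun v => if v ∈ R then ((W \ R).filter fun x => ρ x = v).card else 0 := by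
  funext v
  rw [FStr.bsz, hr]
  split_ifs with hv
  · congr 1
    ext x
    simp only [mem_filter, mem_sdiff]
    constructor
    · rintro ⟨h4, h5, h6⟩
      have h7 := (qlay_inb hr h1 h3 h4 hv).1 h6
      exact ⟨⟨h4, fun h => h5 ((h2 x h).symm.trans h7)⟩, h7⟩
    · rintro ⟨⟨h4, h5⟩, h6⟩
      exact ⟨h4, fun e => h5 (e ▸ hv), (qlay_inb hr h1 h3 h4 hv).2 h6⟩
  · rfl

theorem qlay_mul (κ y : ℝ) (ν : α → ℝ) : F.wt W κ y ν =
    ∏ v ∈ R, blkWt κ y ν ((W \ R).filter fun x => ρ x = v) v (qlayRes ρ F v) := by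
  rw [qlay_wt hF, ← prod_fiberwise_of_maps_to h1]
  refine prod_congr rfl fun v hv => ?_
  have e1 : insert v ((W \ R).filter fun x => ρ x = v) = W.filter fun x => ρ x = v := by
    ext x
    rw [mem_insert, mem_filter (s := W)]
    constructor
    · rintro (rfl | h)
      · exact ⟨((qlay_row hr).1 hv).1, h2 x hv⟩
      · exact ⟨(mem_sdiff.1 (mem_filter.1 h).1).1, (mem_filter.1 h).2⟩
    · exact fun h => (qlay_blk h2 h.1 h.2).symm
  rw [blkWt, e1, ← prod_const, prod_filter (s := W.filter fun x => ρ x = v),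
    prod_filter (s := W.filter fun x => ρ x = v), ← prod_mul_distrib]
  refine prod_congr rfl fun x hx => ?_
  have h4 := (mem_filter.1 hx).2
  have e2 : ∀ u, (qlayRes ρ F v).2 u = some x ↔ F.2 u = some x := fun u =>
    qlay_res2.trans (and_iff_right_of_imp fun h => (qlay_step hF hr h1 h3 h).2.trans h4)
  have e3 : (((W \ R).filter fun x => ρ x = v).filter fun u => (qlayRes ρ F v).2 u = some x) =
      W.filter fun u => F.2 u = some x := by
    ext u
    rw [mem_filter, mem_filter, mem_filter, e2]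
    refine ⟨fun h => ⟨(mem_sdiff.1 h.1.1).1, h.2⟩, fun h => ⟨?_, h.2⟩⟩
    exact (qlay_step hF hr h1 h3 h.2).imp_right fun h5 => h5.trans h4
  have e4 : (qlayRes ρ F v).1 x = F.1 x := if_pos h4
  rw [e3, e4]
  simp only [Ne, e2]

end

section
variable {W R : Finset α} {ρ : α → α} {φ : α → Finset α} {G : α → FStr α} (hR : R ⊆ W)
  (h1 : ∀ x ∈ W, ρ x ∈ R) (h2 : ∀ v ∈ R, ρ v = v)
  (hG : ∀ v ∈ R, IsBlk ((W \ R).filter fun x => ρ x = v) v (φ v) (G v))
  (hG' : ∀ v, v ∉ R → G v = (fun _ => none, fun _ => none))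
include h2 hG hG'

omit [Fintype α] in
theorem qlay_res_glue : qlayRes ρ (qlayGlue ρ G) = G := by
  have h3 : ∀ v ∈ R, ∀ x, x ∈ (W \ R).filter (fun x => ρ x = v) ∨ x = v → ρ x = v := by
    rintro v hv x (h | rfl)
    · exact (mem_filter.1 h).2
    · exact h2 x hv
  funext v
  refine Prod.ext (funext fun x => ?_) (funext fun x => ?_)
  · simp only [qlayRes, qlayGlue]
    split_ifs with h
    · rw [h]
    · by_cases hv : v ∈ R
      · exact (by_contra fun e => h (h3 v hv x ((hG v hv).h1 x e)) : (G v).1 x = none).symm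
      · rw [hG' v hv]
  · simp only [qlayRes, qlayGlue]
    split_ifs with h
    · rw [h]
    · by_cases hv : v ∈ R
      · exact (by_contra fun e => h (h3 v hv x (Or.inl (((hG v hv).h2 x).1 e))) :
          (G v).2 x = none).symm
      · rw [hG' v hv]

include hR h1

theorem qlay_glue (hφ : φ ∈ acys id R.powerset ∅ R) :
    IsF W (qlayGlue ρ G) ∧ (qlayGlue ρ G).rows W = R ∧ (∀ x ∈ W, (qlayGlue ρ G).inb x (ρ x)) ∧
      (qlayGlue ρ G).feed W = φ := by
  obtain ⟨⟨-, g2⟩, rk1, g3⟩ := qlay_acys.1 hφ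
  have hW : ∀ v ∈ R, ∀ x, x ∈ (W \ R).filter (fun x => ρ x = v) ∨ x = v → x ∈ W ∧ ρ x = v := by
    rintro v hv x (h | rfl)
    · exact ⟨(mem_sdiff.1 (mem_filter.1 h).1).1, (mem_filter.1 h).2⟩
    · exact ⟨hR hv, h2 x hv⟩
  have a2 : ∀ x w, (G (ρ x)).2 x = some w →
      ρ x ∈ R ∧ x ∈ W \ R ∧ w ∈ W ∧ ρ w = ρ x ∧ (G (ρ w)).1 w = none := by
    intro x w h
    have hv : ρ x ∈ R := by_contra fun hv => by
      rw [hG' _ hv] at h
      exact absurd h (by simp)
    obtain ⟨h4, h5⟩ := (hG _ hv).h2m x w h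
    obtain ⟨h6, h7⟩ := hW _ hv w h4
    exact ⟨hv, (mem_filter.1 (((hG _ hv).h2 x).1 (by simp [h]))).1, h6, h7, by rwa [h7]⟩
  have a1 : ∀ x u, (G (ρ x)).1 x = some u → ρ x ∈ R ∧ x ∈ W ∧ u ∈ φ (ρ x) := by
    intro x u h
    have hv : ρ x ∈ R := by_contra fun hv => by
      rw [hG' _ hv] at h
      exact absurd h (by simp)
    exact ⟨hv, (hW _ hv x ((hG _ hv).h1 x (by simp [h]))).1, ((hG _ hv).fd u).2 ⟨x, h⟩⟩
  have a3 : ∀ u ∈ R, (G (ρ u)).2 u = none := fun u hu => by_contra fun e => by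
    obtain ⟨w, h⟩ := Option.ne_none_iff_exists'.1 e
    exact (mem_sdiff.1 (a2 u w h).2.1).2 hu
  have hF : IsF W (qlayGlue ρ G) := by
    refine ⟨fun u v h => ?_, fun u v h => ?_, ?_⟩
    · obtain ⟨h4, h5, h6⟩ := a1 v u h
      have h7 := (g3 _ h4 u h6).1
      exact ⟨hR h7, h5, a3 u h7⟩
    · obtain ⟨-, h4, h5, -, h6⟩ := a2 u v h
      exact ⟨(mem_sdiff.1 h4).1, h5, h6⟩
    · have h4 : ∀ v, ∃ rk : α → ℕ, v ∈ R → ∀ x w, (G v).2 x = some w → rk w < rk x := by
        intro v
        by_cases hv : v ∈ R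
        · obtain ⟨rk, h⟩ := (hG v hv).acyc
          exact ⟨rk, fun _ => h⟩
        · exact ⟨fun _ => 0, fun h => absurd h hv⟩
      choose rk2 h4 using h4
      obtain ⟨N, hN⟩ : ∃ N, ∀ x, rk2 (ρ x) x ≤ N :=
        ⟨univ.sup fun x => rk2 (ρ x) x, fun x => le_sup (f := fun x => rk2 (ρ x) x) (mem_univ x)⟩
      refine ⟨fun x => rk1 (ρ x) * (N + 1) + (N - rk2 (ρ x) x), fun a b h => ?_⟩
      dsimp only
      rcases h with h | h
      · obtain ⟨h5, -, h6⟩ := a1 b a h
        obtain ⟨h7, h8⟩ := g3 _ h5 a h6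
        have h9 : (rk1 a + 1) * (N + 1) ≤ rk1 (ρ b) * (N + 1) := Nat.mul_le_mul_right _ h8
        rw [h2 a h7]
        rw [Nat.succ_mul] at h9
        omega
      · obtain ⟨h5, -, -, h6, -⟩ := a2 a b h
        have h7 := h4 _ h5 a b h
        have h8 := hN a
        rw [h6]
        omega
  have hr : (qlayGlue ρ G).rows W = R := by
    ext u
    rw [FStr.rows, mem_filter]
    refine ⟨fun h => by_contra fun hu => ?_, fun h => ⟨hR h, a3 u h⟩⟩
    exact ((hG _ (h1 u h.1)).h2 u).2 (mem_filter.2 ⟨mem_sdiff.2 ⟨h.1, hu⟩, rfl⟩) h.2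
  have h3 : ∀ x ∈ W, (qlayGlue ρ G).inb x (ρ x) := by
    intro x hx
    obtain ⟨v, hv, h⟩ := qlay_root hF hr hx
    have h4 : ρ v = ρ x := by
      clear hv
      induction h with
      | refl => rfl
      | tail _ h ih => exact (a2 _ _ h).2.2.2.1.trans ih
    rwa [← h4, h2 v hv]
  refine ⟨hF, hr, h3, funext fun v => ?_⟩
  by_cases hv : v ∈ R
  · have h4 := qlay_isBlk hF hr h1 h2 h3 hv
    rw [qlay_res_glue h2 hG hG'] at h4
    ext u
    rw [h4.fd, (hG v hv).fd]
  · rw [FStr.feed, hr, if_neg hv, g2 v hv]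

end

theorem qlay_fibre {W R : Finset α} {ρ : α → α} {φ : α → Finset α} (hR : R ⊆ W)
    (h1 : ∀ x ∈ W, ρ x ∈ R) (h2 : ∀ v ∈ R, ρ v = v) (hφ : φ ∈ acys id R.powerset ∅ R)
    {A : Finset (FStr α)}
    (hA : ∀ F, F ∈ A ↔ IsF W F ∧ F.rows W = R ∧ (∀ x ∈ W, F.inb x (ρ x)) ∧ F.feed W = φ)
    (κ y : ℝ) (ν : α → ℝ) :
    ∑ F ∈ A, F.wt W κ y ν =
      ∏ v ∈ R, ∑ G ∈ univ.filter (IsBlk ((W \ R).filter fun x => ρ x = v) v (φ v)),
        blkWt κ y ν ((W \ R).filter fun x => ρ x = v) v G := by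
  rw [qlay_pi R _ (fun _ => none, fun _ => none)]
  refine sum_nbij' (qlayRes ρ) (qlayGlue ρ) (fun F hF => ?_) (fun G hG => ?_) (fun F _ => ?_)
    (fun G hG => ?_) fun F hF => ?_
  · obtain ⟨hF, hr, h3, rfl⟩ := (hA F).1 hF
    refine qlay_mem.2 ⟨fun v hv => mem_filter.2 ⟨mem_univ _, qlay_isBlk hF hr h1 h2 h3 hv⟩,
      fun v hv => Prod.ext (funext fun x => by_contra fun e => ?_)
        (funext fun x => by_contra fun e => ?_)⟩
    · obtain ⟨u, h⟩ := Option.ne_none_iff_exists'.1 e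
      obtain ⟨h4, h5⟩ := qlay_res1.1 h
      exact hv (h4 ▸ h1 x (hF.hp u x h5).2.1)
    · obtain ⟨u, h⟩ := Option.ne_none_iff_exists'.1 e
      obtain ⟨h4, h5⟩ := qlay_res2.1 h
      exact hv (h4 ▸ h1 x (hF.hq x u h5).1)
  · obtain ⟨g1, g2⟩ := qlay_mem.1 hG
    exact (hA _).2 (qlay_glue hR h1 h2 (fun v hv => (mem_filter.1 (g1 v hv)).2) g2 hφ)
  · simp [qlayGlue, qlayRes]
  · obtain ⟨g1, g2⟩ := qlay_mem.1 hG
    exact qlay_res_glue h2 (fun v hv => (mem_filter.1 (g1 v hv)).2) g2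
  · obtain ⟨hF, hr, h3, -⟩ := (hA F).1 hF
    exact qlay_mul hF hr h1 h2 h3 κ y ν

theorem fstrs_blocks {W R : Finset α} (hR : R ⊆ W) (x0 : α) (κ y : ℝ) (ν : α → ℝ)
    (f : (α → Finset α) → (α → ℕ) → ℝ) :
    ∑ F ∈ fstrs W R, F.wt W κ y ν * f (F.feed W) (F.bsz W) =
      ∑ β ∈ Fintype.piFinset (fun x => if x ∈ W \ R then R else {x0}),
        ∑ φ ∈ acys id R.powerset ∅ R,
          f φ (fun v => if v ∈ R then ((W \ R).filter fun x => β x = v).card else 0) *
            ∏ v ∈ R, ∑ G ∈ univ.filter (IsBlk ((W \ R).filter fun x => β x = v) v (φ v)),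
              blkWt κ y ν ((W \ R).filter fun x => β x = v) v G := by
  have hm : ∀ F, F ∈ fstrs W R ↔ IsF W F ∧ F.rows W = R := fun F => by
    rw [fstrs, mem_filter, and_iff_right (mem_univ _)]
  rw [qlay_split (T := Fintype.piFinset (fun x => if x ∈ W \ R then R else {x0}))
    (qlayRt (W \ R))]
  · refine sum_congr rfl fun β hβ => ?_
    obtain ⟨g1, -⟩ := (qlay_mem (t := fun _ => R)).1 hβ
    have h1 : ∀ x ∈ W, (if x ∈ R then x else β x) ∈ R := fun x hx => by
      split_ifs with h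
      · exact h
      · exact g1 x (mem_sdiff.2 ⟨hx, h⟩)
    have h2 : ∀ v ∈ R, (if v ∈ R then v else β v) = v := fun v hv => if_pos hv
    have h3 : ∀ F : FStr α, qlayRt (W \ R) β F ↔
        ∀ x ∈ W, F.inb x (if x ∈ R then x else β x) := fun F => by
      refine ⟨fun h x hx => ?_, fun h x hx => ?_⟩
      · split_ifs with h'
        · exact Relation.ReflTransGen.refl
        · exact h x (mem_sdiff.2 ⟨hx, h'⟩)
      · simpa only [if_neg (mem_sdiff.1 hx).2] using h x (mem_sdiff.1 hx).1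
    have h4 : ∀ v, ((W \ R).filter fun x => β x = v) =
        (W \ R).filter fun x => (if x ∈ R then x else β x) = v := fun v =>
      filter_congr fun x hx => by rw [if_neg (mem_sdiff.1 hx).2]
    simp only [h4]
    rw [← sum_fiberwise_of_maps_to (g := fun F : FStr α => F.feed W) (t := acys id R.powerset ∅ R)
      fun F hF => qlay_feed ((hm F).1 (mem_filter.1 hF).1).1 ((hm F).1 (mem_filter.1 hF).1).2]
    refine sum_congr rfl fun φ hφ => ?_
    refine (sum_congr rfl fun F hF => ?_).trans ((mul_sum _ _ _).symm.trans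
      (congrArg _ (qlay_fibre hR h1 h2 hφ (fun F => ?_) κ y ν)))
    · obtain ⟨h5, rfl⟩ := mem_filter.1 hF
      obtain ⟨h5, h6⟩ := mem_filter.1 h5
      rw [qlay_bsz ((hm F).1 h5).2 h1 h2 ((h3 F).1 h6), mul_comm]
    · rw [mem_filter, mem_filter, hm, h3, and_assoc, and_assoc]
  · intro F hF
    obtain ⟨hF, hr⟩ := (hm F).1 hF
    have h1 : ∀ x, ∃ v, (x ∈ W \ R → v ∈ R ∧ F.inb x v) ∧ (x ∉ W \ R → v = x0) := by
      intro x
      by_cases hx : x ∈ W \ R
      · obtain ⟨v, h⟩ := qlay_root hF hr (mem_sdiff.1 hx).1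
        exact ⟨v, fun _ => h, fun h' => absurd hx h'⟩
      · exact ⟨x0, fun h' => absurd h' hx, fun _ => rfl⟩
    choose β g1 g2 using h1
    refine ⟨β, (qlay_mem (t := fun _ => R)).2 ⟨fun x hx => (g1 x hx).1, g2⟩,
      fun x hx => (g1 x hx).2, fun γ hγ h => funext fun x => ?_⟩
    obtain ⟨g3, g4⟩ := (qlay_mem (t := fun _ => R)).1 hγ
    by_cases hx : x ∈ W \ R
    · exact qlay_uniq hr (g3 x hx) (g1 x hx).1 (h x hx) (g1 x hx).2
    · rw [g4 x hx, g2 x hx]

theorem layer {W R : Finset α} (hR : R ⊆ W) (κ y : ℝ) (ν : α → ℝ)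
    (f : (α → Finset α) → (α → ℕ) → ℝ) :
    ∑ F ∈ fstrs W R, F.wt W κ y ν * f (F.feed W) (F.bsz W) =
      ((W.card - R.card).factorial : ℝ) * ∑ φ ∈ acys id R.powerset ∅ R,
        ∑ k ∈ (Fintype.piFinset fun v => if v ∈ R then range (W.card + 1) else {0}).filter
            (fun k => ∑ v ∈ R, k v = W.card - R.card),
          f φ k * ∏ v ∈ R, (blockW κ y ν (k v) (φ v) / (k v).factorial) := by
  by_cases hα : Nonempty α
  · obtain ⟨x0⟩ := hα
    have h1 := sum_fibres (W \ R) R x0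
      (fun k => ∑ φ ∈ acys id R.powerset ∅ R, f φ k * ∏ v ∈ R, blockW κ y ν (k v) (φ v))
      (card_le_card (sdiff_subset (s := W) (t := R)))
    rw [card_sdiff_of_subset hR] at h1
    rw [fstrs_blocks hR x0, sum_comm (s := acys id R.powerset ∅ R), mul_sum]
    refine (sum_congr rfl fun β _ => sum_congr rfl fun φ _ => ?_).trans
      (h1.trans (sum_congr rfl fun k _ => ?_))
    · congr 1
      refine prod_congr rfl fun v hv => ?_
      dsimp only
      rw [if_pos hv, blockS_eq]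
      exact fun h => (mem_sdiff.1 (mem_filter.1 h).1).2 hv
    · rw [mul_assoc, mul_sum]
      congr 1
      refine sum_congr rfl fun φ _ => ?_
      simp only [div_eq_mul_inv]
      rw [prod_mul_distrib]
      ring
  · rw [not_nonempty_iff] at hα
    obtain rfl : W = ∅ := Finset.eq_empty_of_isEmpty W
    obtain rfl : R = ∅ := Finset.eq_empty_of_isEmpty R
    have h1 : fstrs (∅ : Finset α) ∅ = {(fun _ => none, fun _ => none)} := by
      refine eq_singleton_iff_unique_mem.2 ⟨mem_filter.2 ⟨mem_univ _,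
        ⟨fun u => isEmptyElim u, fun u => isEmptyElim u, fun _ => 0, fun u => isEmptyElim u⟩,
        Finset.eq_empty_of_isEmpty _⟩, fun F _ => Subsingleton.elim _ _⟩
    have h2 : acys id (∅ : Finset α).powerset ∅ ∅ = {fun _ : α => (∅ : Finset α)} :=
      eq_singleton_iff_unique_mem.2 ⟨qlay_acys.2 ⟨⟨fun u => isEmptyElim u, fun u => isEmptyElim u⟩,
        fun _ => 0, fun u => isEmptyElim u⟩, fun F _ => Subsingleton.elim _ _⟩
    have h3 : ((Fintype.piFinset fun v : α => if v ∈ (∅ : Finset α) then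
        range ((∅ : Finset α).card + 1) else {0}).filter fun k =>
          ∑ v ∈ (∅ : Finset α), k v = (∅ : Finset α).card - (∅ : Finset α).card) = {fun _ => 0} :=
      eq_singleton_iff_unique_mem.2 ⟨mem_filter.2 ⟨Fintype.mem_piFinset.2 fun u => isEmptyElim u,
        by simp⟩, fun F _ => Subsingleton.elim _ _⟩
    rw [h1, h2, h3, sum_singleton, sum_singleton, sum_singleton]
    simp only [FStr.wt, FStr.one, nsrc, filter_empty, card_empty, pow_zero, prod_empty, mul_one,
      one_mul, Nat.sub_self, Nat.factorial_zero, Nat.cast_one]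
    congr 1

/-- the upper bound used throughout: evaluate the generating functions at `z` -/
theorem layer_le {W R : Finset α} (hR : R ⊆ W) {κ y z : ℝ} {ν : α → ℝ} (hκ : 0 ≤ κ) (hy : 0 ≤ y)
    (hν : ∀ u, 0 ≤ ν u) (hz : 0 < z) (w : Finset α → ℝ)
    (hw : ∀ T ⊆ R, HasSum (fun k => z ^ (k + 1) * blockW κ y ν k T / k.factorial) (w T))
    (f : (α → Finset α) → ℝ) (hf : ∀ φ, 0 ≤ f φ) :
    ∑ F ∈ fstrs W R, F.wt W κ y ν * f (F.feed W) ≤
      ((W.card - R.card).factorial : ℝ) * z⁻¹ ^ W.card *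
        ∑ φ ∈ acys id R.powerset ∅ R, (∏ v ∈ R, w (φ v)) * f φ := by
  rw [layer hR κ y ν fun φ _ => f φ, mul_assoc, mul_sum (a := z⁻¹ ^ W.card)]
  refine mul_le_mul_of_nonneg_left (sum_le_sum fun φ hφ => ?_) (Nat.cast_nonneg _)
  have h0 : ∀ k T, 0 ≤ z ^ (k + 1) * blockW κ y ν k T / k.factorial := fun k T => by
    have := blockW_nonneg hκ hy hν k T
    positivity
  have h1 : ∏ v ∈ R, ∑ k ∈ range (W.card + 1),
      z ^ (k + 1) * blockW κ y ν k (φ v) / k.factorial ≤ ∏ v ∈ R, w (φ v) :=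
    prod_le_prod (fun v _ => sum_nonneg fun k _ => h0 k _) fun v hv =>
      sum_le_hasSum _ (fun k _ => h0 k _) (hw _ (mem_powerset.1 ((qlay_acys.1 hφ).1.1 v hv)))
  rw [qlay_pi R _ 0] at h1
  rw [← mul_sum, mul_comm (f φ), ← mul_assoc]
  refine mul_le_mul_of_nonneg_right (le_trans ?_
    (mul_le_mul_of_nonneg_left h1 (by positivity))) (hf φ)
  refine le_trans (le_of_eq ?_) (mul_le_mul_of_nonneg_left (sum_le_sum_of_subset_of_nonneg
    (filter_subset (fun k => ∑ v ∈ R, k v = W.card - R.card) _)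
      fun k _ _ => prod_nonneg fun v _ => h0 _ _) (by positivity))
  rw [mul_sum]
  refine sum_congr rfl fun k hk => ?_
  have h2 : ∑ v ∈ R, (k v + 1) = W.card := by
    have := card_le_card hR
    rw [sum_add_distrib, (mem_filter.1 hk).2, sum_const, smul_eq_mul, mul_one]
    omega
  simp only [mul_div_assoc]
  rw [prod_mul_distrib, prod_pow_eq_pow_sum, h2, ← mul_assoc, ← mul_pow, inv_mul_cancel₀ hz.ne',
    one_pow, one_mul]

end Pool.Agent.Work.MP_5391ad_co
end

-- merged part: Pool.Agent.Work.MP_5391ad_co.QTsum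
section
/-! The generating function of the blocks. Put `L = Lam t x`; from `τ = t e^{t x} e^τ` one gets
`L = z (e^L - (1 - κ) L + x) = z ∑ cW k L^k / k!`. Let
`u N q = ∑_{n ≤ N} z^n Wr n q` and `ρ N q = L^q - u N q`. Then `ρ N 0 = 0`,
`ρ (N+1) (q+1) = z ∑' cW k / k! ρ N (q+k)` (`Wr n q = 0` for `q > n`), so by induction
`0 ≤ ρ N q ≤ λ^N r^q` with `r = t x + 1`, `λ = z (e^r - (1-κ) r + x) / r < 1`
(equivalent to `t e^{t x} e < 1`).
`exists_blockGF`: each `blockW k T ≤ treeW` (`sum_blockW`, `blockW_nonneg`), so the series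
converge; sum over `T ⊆ S`. -/

namespace Pool.Agent.Work.MP_5391ad_co

open Finset
open scoped Classical

theorem qtsum_congr {f g : ℕ → ℝ} {a : ℝ} (h : HasSum f a) (e : ∀ k, g k = f k) :
    HasSum g a := (funext e : g = f) ▸ h

theorem qtsum_cW_nonneg {κ ω : ℝ} (hκ : 0 ≤ κ) (hω : 0 ≤ ω) (k : ℕ) : 0 ≤ cW κ ω k := by
  unfold cW
  split_ifs
  · exact hω
  · exact hκ
  · exact zero_le_one

theorem qtsum_Wr_nonneg {κ ω : ℝ} (hκ : 0 ≤ κ) (hω : 0 ≤ ω) (n : ℕ) :
    ∀ q, 0 ≤ Wr κ ω n q := by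
  induction n with
  | zero =>
    intro q
    unfold Wr
    split_ifs
    · exact zero_le_one
    · exact le_rfl
  | succ n ih =>
    intro q
    cases q with
    | zero => exact le_rfl
    | succ q =>
      unfold Wr
      exact sum_nonneg fun k _ =>
        mul_nonneg (div_nonneg (qtsum_cW_nonneg hκ hω k) (Nat.cast_nonneg _)) (ih _)

theorem qtsum_Wr_zero (κ ω : ℝ) (n : ℕ) : ∀ q, n < q → Wr κ ω n q = 0 := by
  induction n with
  | zero =>
    intro q hq
    unfold Wr
    rw [if_neg hq.ne']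
  | succ n ih =>
    intro q hq
    cases q with
    | zero => rfl
    | succ q =>
      unfold Wr
      exact sum_eq_zero fun k _ => by rw [ih (q + k) (by omega), mul_zero]

theorem qtsum_hasSum_Wr (κ ω : ℝ) (n q : ℕ) :
    HasSum (fun k : ℕ => cW κ ω k / k.factorial * Wr κ ω n (q + k)) (Wr κ ω (n + 1) (q + 1)) := by
  have h : Wr κ ω (n + 1) (q + 1) =
      ∑ k ∈ range (n + 1), cW κ ω k / k.factorial * Wr κ ω n (q + k) := by rw [Wr]
  rw [h]
  refine hasSum_sum_of_ne_finset_zero fun k hk => ?_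
  rw [qtsum_Wr_zero κ ω n (q + k) (by have := mem_range.not.1 hk; omega), mul_zero]

theorem qtsum_hasSum_cW (κ x s : ℝ) :
    HasSum (fun k : ℕ => cW κ (1 + x) k / k.factorial * s ^ k)
      (Real.exp s + x - (1 - κ) * s) := by
  have h1 : HasSum (fun k : ℕ => s ^ k / k.factorial) (Real.exp s) := by
    rw [Real.exp_eq_exp_ℝ]
    exact NormedSpace.expSeries_div_hasSum_exp s
  have h2 := (h1.add (hasSum_ite_eq 0 x)).sub (hasSum_ite_eq 1 ((1 - κ) * s))
  refine qtsum_congr h2 ?_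
  intro k
  unfold cW
  rcases k with _ | _ | k
  · simp
  · simp
    ring
  · simp
    ring

/-- the remainder estimate -/
theorem qtsum_rem {κ z x L r lam : ℝ} (hκ : 0 ≤ κ) (hz : 0 < z) (hx : 0 ≤ x) (hL0 : 0 ≤ L)
    (hLr : L ≤ r) (hL : z * (Real.exp L + x - (1 - κ) * L) = L)
    (hr : z * (Real.exp r + x - (1 - κ) * r) = lam * r) (hlam : 0 ≤ lam) (N : ℕ) : ∀ q : ℕ,
    0 ≤ L ^ q - ∑ n ∈ range N, z ^ n * Wr κ (1 + x) n q ∧
      L ^ q - ∑ n ∈ range N, z ^ n * Wr κ (1 + x) n q ≤ lam ^ N * r ^ q := by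
  induction N with
  | zero =>
    intro q
    simp only [range_zero, sum_empty, sub_zero, pow_zero, one_mul]
    exact ⟨pow_nonneg hL0 q, pow_le_pow_left₀ hL0 hLr q⟩
  | succ N ih =>
    intro q
    cases q with
    | zero =>
      have h : ∑ n ∈ range (N + 1), z ^ n * Wr κ (1 + x) n 0 = 1 := by
        rw [sum_range_succ', sum_eq_zero fun n _ => by rw [Wr, mul_zero]]
        simp [Wr]
      rw [h, pow_zero, pow_zero, sub_self, mul_one]
      exact ⟨le_rfl, pow_nonneg hlam _⟩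
    | succ q =>
      have hc : ∀ k : ℕ, 0 ≤ z * (cW κ (1 + x) k / k.factorial) := fun k => mul_nonneg hz.le
        (div_nonneg (qtsum_cW_nonneg hκ (by linarith) k) (Nat.cast_nonneg _))
      have h1 := (qtsum_hasSum_cW κ x L).mul_left (z * L ^ q)
      have h2 := hasSum_sum (s := range N) fun n _ =>
        (qtsum_hasSum_Wr κ (1 + x) n q).mul_left (z ^ (n + 1))
      have h3 : HasSum (fun k : ℕ => z * (cW κ (1 + x) k / k.factorial) *
          (L ^ (q + k) - ∑ n ∈ range N, z ^ n * Wr κ (1 + x) n (q + k)))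
          (L ^ (q + 1) - ∑ n ∈ range (N + 1), z ^ n * Wr κ (1 + x) n (q + 1)) := by
        have h4 : L ^ (q + 1) - ∑ n ∈ range (N + 1), z ^ n * Wr κ (1 + x) n (q + 1) =
            z * L ^ q * (Real.exp L + x - (1 - κ) * L) -
              ∑ n ∈ range N, z ^ (n + 1) * Wr κ (1 + x) (n + 1) (q + 1) := by
          rw [sum_range_succ']
          have h5 : Wr κ (1 + x) 0 (q + 1) = 0 := by simp [Wr]
          rw [h5]
          linear_combination (-L ^ q) * hL
        rw [h4]
        refine qtsum_congr (h1.sub h2) ?_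
        intro k
        rw [mul_sub, mul_sum]
        congr 1
        · ring
        · exact sum_congr rfl fun n _ => by ring
      have h6 : HasSum (fun k : ℕ => z * (cW κ (1 + x) k / k.factorial) * (lam ^ N * r ^ (q + k)))
          (lam ^ (N + 1) * r ^ (q + 1)) := by
        have h4 : lam ^ (N + 1) * r ^ (q + 1) =
            z * lam ^ N * r ^ q * (Real.exp r + x - (1 - κ) * r) := by
          linear_combination (-(lam ^ N * r ^ q)) * hr
        rw [h4]
        refine qtsum_congr ((qtsum_hasSum_cW κ x r).mul_left (z * lam ^ N * r ^ q)) ?_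
        intro k
        ring
      exact ⟨h3.nonneg fun k => mul_nonneg (hc k) (ih _).1,
        hasSum_le (fun k => mul_le_mul_of_nonneg_left (ih _).2 (hc k)) h3 h6⟩

theorem hasSum_treeW {κ t z x : ℝ} (hκ : 0 ≤ κ) (ht : 0 < t) (hz : 0 < z) (hx : 0 ≤ x)
    (htz : t * (1 + (1 - κ) * z) = z) (hc : x < xc t) :
    HasSum (fun k : ℕ => z ^ (k + 1) * treeW κ (1 + x) k / k.factorial) (Lam t x) := by
  obtain ⟨h0, h1, h2⟩ := tau_spec ht hc
  have htx : 0 ≤ t * x := mul_nonneg ht.le hx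
  have hτ : tau t x = t * Real.exp (Lam t x) := by
    have h3 : Real.log (tau t x) = Real.log t + Lam t x := by
      unfold Lam
      linarith
    rw [← Real.exp_log h0, h3, Real.exp_add, Real.exp_log ht]
  have hLe : Lam t x = t * (Real.exp (Lam t x) + x) := by
    have h3 : Lam t x = t * x + tau t x := rfl
    linarith
  have hL : z * (Real.exp (Lam t x) + x - (1 - κ) * Lam t x) = Lam t x := by
    apply mul_left_cancel₀ ht.ne'
    linear_combination (-z) * hLe - Lam t x * htz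
  set r := t * x + 1 with hr
  have hrp : 0 < r := by linarith
  have hΦ : 0 ≤ Real.exp r + x - (1 - κ) * r :=
    (qtsum_hasSum_cW κ x r).nonneg fun k => mul_nonneg
      (div_nonneg (qtsum_cW_nonneg hκ (by linarith) k) (Nat.cast_nonneg _)) (pow_nonneg hrp.le _)
  set lam := z * (Real.exp r + x - (1 - κ) * r) / r with hlam
  have hl0 : 0 ≤ lam := div_nonneg (mul_nonneg hz.le hΦ) hrp.le
  have hl1 : lam < 1 := by
    rw [hlam, div_lt_one hrp]
    have h3 := (lt_xc_iff ht).2 hc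
    have h4 : t * Real.exp r < 1 := by
      have h5 := mul_lt_mul_of_pos_right h3 (Real.exp_pos 1)
      rw [← Real.exp_add, neg_add_cancel, Real.exp_zero, mul_assoc, ← Real.exp_add] at h5
      exact h5
    refine lt_of_mul_lt_mul_left ?_ ht.le
    have h6 := mul_lt_mul_of_pos_left h4 hz
    have h7 : t * r = z * r - t * (1 - κ) * z * r := by linear_combination r * htz
    rw [h7]
    nlinarith
  have hrem := qtsum_rem hκ hz hx (L := Lam t x) (r := r) (lam := lam)
    (by unfold Lam; linarith) (by unfold Lam; linarith) hL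
    (by rw [hlam, div_mul_cancel₀ _ hrp.ne']) hl0
  have hterm : ∀ k : ℕ, z ^ (k + 1) * treeW κ (1 + x) k / k.factorial =
      z ^ (k + 1) * Wr κ (1 + x) (k + 1) 1 := by
    intro k
    have hk : (k.factorial : ℝ) ≠ 0 := Nat.cast_ne_zero.2 k.factorial_ne_zero
    rw [treeW_eq]
    field_simp
  simp only [hterm]
  rw [hasSum_iff_tendsto_nat_of_nonneg fun k =>
    mul_nonneg (pow_nonneg hz.le _) (qtsum_Wr_nonneg hκ (by linarith) _ _)]
  have hlim : Filter.Tendsto (fun N : ℕ => Lam t x - lam ^ (N + 1) * r) Filter.atTop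
      (nhds (Lam t x)) := by
    have h3 := ((tendsto_pow_atTop_nhds_zero_of_lt_one hl0 hl1).comp
      (Filter.tendsto_add_atTop_nat 1)).mul_const r
    have h4 := h3.const_sub (Lam t x)
    rwa [zero_mul, sub_zero] at h4
  have hb : ∀ N : ℕ, ∑ n ∈ range (N + 1), z ^ n * Wr κ (1 + x) n 1 =
      ∑ k ∈ range N, z ^ (k + 1) * Wr κ (1 + x) (k + 1) 1 := by
    intro N
    rw [sum_range_succ']
    simp [Wr]
  refine tendsto_of_tendsto_of_tendsto_of_le_of_le hlim tendsto_const_nhds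
    (fun N => ?_) fun N => ?_
  · have h3 := (hrem (N + 1) 1).2
    rw [hb, pow_one, pow_one] at h3
    show Lam t x - lam ^ (N + 1) * r ≤ ∑ k ∈ range N, z ^ (k + 1) * Wr κ (1 + x) (k + 1) 1
    linarith
  · have h3 := (hrem (N + 1) 1).1
    rw [hb, pow_one] at h3
    show ∑ k ∈ range N, z ^ (k + 1) * Wr κ (1 + x) (k + 1) 1 ≤ Lam t x
    linarith

theorem exists_blockGF {α : Type*} [Fintype α] (R : Finset α) {κ t z y : ℝ} {ν : α → ℝ}
    (hκ : 0 ≤ κ) (ht : 0 < t) (hz : 0 < z) (hy : 0 ≤ y) (hν : ∀ u, 0 ≤ ν u)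
    (htz : t * (1 + (1 - κ) * z) = z) (hc : y + ∑ u ∈ R, ν u < xc t) :
    ∃ w : Finset α → ℝ, (∀ T, 0 ≤ w T) ∧
      (∀ T ⊆ R, HasSum (fun k => z ^ (k + 1) * blockW κ y ν k T / k.factorial) (w T)) ∧
      w ∅ = Lam t y ∧
      (∀ S ⊆ R, ∑ T ∈ S.powerset, w T = Lam t (y + ∑ u ∈ S, ν u)) ∧
      ∀ S ⊆ R, ∀ a ∈ R, a ∉ S →
        ∑ o ∈ R.powerset.filter (fun o => o ⊆ insert a S ∧ ¬ o ⊆ S), w o =
          Lam t (y + ∑ u ∈ S, ν u + ν a) - Lam t (y + ∑ u ∈ S, ν u) := by
  have hnn : ∀ (T : Finset α) (k : ℕ), 0 ≤ z ^ (k + 1) * blockW κ y ν k T / k.factorial :=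
    fun T k => div_nonneg (mul_nonneg (pow_nonneg hz.le _) (blockW_nonneg hκ hy hν k T))
      (Nat.cast_nonneg _)
  have htree : ∀ S ⊆ R, HasSum (fun k : ℕ => ∑ T ∈ S.powerset,
      z ^ (k + 1) * blockW κ y ν k T / k.factorial) (Lam t (y + ∑ u ∈ S, ν u)) := by
    intro S hS
    have h1 : ∑ u ∈ S, ν u ≤ ∑ u ∈ R, ν u :=
      sum_le_sum_of_subset_of_nonneg hS fun u _ _ => hν u
    have h2 : 0 ≤ ∑ u ∈ S, ν u := sum_nonneg fun u _ => hν u
    refine qtsum_congr (hasSum_treeW hκ ht hz (x := y + ∑ u ∈ S, ν u) (by linarith) htz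
      (by linarith)) ?_
    intro k
    rw [← sum_div, ← mul_sum, sum_blockW, add_assoc]
  have hs : ∀ T ⊆ R, HasSum (fun k : ℕ => z ^ (k + 1) * blockW κ y ν k T / k.factorial)
      (∑' k : ℕ, z ^ (k + 1) * blockW κ y ν k T / k.factorial) := by
    intro T hT
    refine (Summable.of_nonneg_of_le (hnn T) (fun k => ?_) (htree R subset_rfl).summable).hasSum
    exact single_le_sum (f := fun T => z ^ (k + 1) * blockW κ y ν k T / k.factorial)
      (fun T _ => hnn T k) (mem_powerset.2 hT)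
  have hsum : ∀ S ⊆ R, ∑ T ∈ S.powerset,
      ∑' k : ℕ, z ^ (k + 1) * blockW κ y ν k T / k.factorial = Lam t (y + ∑ u ∈ S, ν u) :=
    fun S hS => (hasSum_sum fun T hT => hs T ((mem_powerset.1 hT).trans hS)).unique (htree S hS)
  refine ⟨fun T => ∑' k : ℕ, z ^ (k + 1) * blockW κ y ν k T / k.factorial,
    fun T => tsum_nonneg (hnn T), hs, ?_, hsum, fun S hS a ha haS => ?_⟩
  · simpa using hsum ∅ (empty_subset _)
  · have hi : insert a S ⊆ R := insert_subset ha hS
    have he : R.powerset.filter (fun o => o ⊆ insert a S ∧ ¬ o ⊆ S) =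
        (insert a S).powerset \ S.powerset := by
      ext o
      simp only [mem_filter, mem_powerset, mem_sdiff]
      exact ⟨fun h => h.2, fun h => ⟨h.1.trans hi, h⟩⟩
    rw [he, sum_sdiff_eq_sub (powerset_mono.2 (subset_insert a S)), hsum _ hi, hsum S hS,
      sum_insert haS, add_comm (ν a), add_assoc]

end Pool.Agent.Work.MP_5391ad_co
end
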