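import Pool.Agent.Work.MP_5391ad_co.AUp
import Pool.Agent.Work.MP_5391ad_co.QTsum
import Pool.Agent.Work.MP_5391ad_co.AExp

-- merged part: Pool.Agent.Work.MP_5391ad_co.ASum
section
/-! The free volume. `t = L⁻¹`, `ℓ x = -log (1 - tau t x)` is increasing, and by `incr_bounds`
`log t + ℓ (x-1) ≤ log (Lam x - Lam (x-1)) ≤ log t + ℓ x`. Antiderivative: `I x = L D (tau t x)` with
`D τ = ∫_0^τ -log (1-s) (1-s)/s ds`, `0 ≤ D τ ≤ τ`, `D 1 = π^2/6 - 1` (the integrand is
`∑_{k≥1} s^(k-1) (1-s)/k`, with integrals `1/k^2 - 1/(k(k+1))`; `hasSum_zeta_two`; or define `D` by the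
series `∑ τ^k/k^2 - (1-τ) log (1-τ) - τ`). `I` is continuous on `(-∞, xc]`, `I' = ℓ` inside
(`hasDerivAt_tau`), so `ℓ x ≤ I (x+1) - I x ≤ ℓ (x+1)` by the mean value theorem.
`xc L⁻¹ (1 - log L) + L (π^2/6 - 1) = - hL L`. End piece, `s = xc - x ≤ 2 L`, by `sigma_bounds`:
`(log L - log (2 s))/2 ≤ ℓ x ≤ (log L - log s + 3)/2`; compare `I` with explicit antiderivatives
(`s - s log s`), or sum over unit steps. Start piece: `I (y - 1) ≤ L tau (y-1) ≤ e^2` for `y ≤ L`. -/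

namespace Pool.Agent.Work.MP_5391ad_co

open Real Finset Filter

/-- the dilogarithm -/
noncomputable def asum_Li (τ : ℝ) : ℝ := ∑' n : ℕ, τ ^ (n + 1) / ((n : ℝ) + 1) ^ 2

theorem asum_zeta : HasSum (fun n : ℕ => 1 / ((n : ℝ) + 1) ^ 2) (π ^ 2 / 6) := by
  have h := (hasSum_nat_add_iff' 1).2 hasSum_zeta_two
  simpa using h

theorem asum_Li_one : asum_Li 1 = π ^ 2 / 6 := by
  simpa [asum_Li] using asum_zeta.tsum_eq

theorem asum_Li_zero : asum_Li 0 = 0 := by simp [asum_Li]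

theorem asum_term {x : ℝ} (h0 : 0 ≤ x) (h1 : x ≤ 1) (n : ℕ) :
    ‖x ^ (n + 1) / ((n : ℝ) + 1) ^ 2‖ ≤ 1 / ((n : ℝ) + 1) ^ 2 := by
  rw [Real.norm_of_nonneg (by positivity)]
  gcongr
  exact pow_le_one₀ h0 h1

theorem asum_Li_cont : ContinuousOn asum_Li (Set.Icc 0 1) :=
  continuousOn_tsum (u := fun n : ℕ => 1 / ((n : ℝ) + 1) ^ 2) (fun n => by fun_prop)
    asum_zeta.summable fun n x hx => asum_term hx.1 hx.2 n

theorem asum_Li_deriv {τ : ℝ} (h0 : 0 < τ) (h1 : τ < 1) :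
    HasDerivAt asum_Li (-log (1 - τ) / τ) τ := by
  have hr0 : (0 : ℝ) ≤ (1 + τ) / 2 := by linarith only [h0, h1]
  have hr1 : (1 + τ) / 2 < 1 := by linarith only [h1]
  have hm : τ ∈ Set.Ioo 0 ((1 + τ) / 2) := ⟨h0, by linarith only [h1]⟩
  have h := hasDerivAt_tsum_of_isPreconnected (u := fun n : ℕ => ((1 + τ) / 2) ^ n)
    (t := Set.Ioo 0 ((1 + τ) / 2)) (g := fun (n : ℕ) (x : ℝ) => x ^ (n + 1) / ((n : ℝ) + 1) ^ 2)
    (g' := fun (n : ℕ) (x : ℝ) => x ^ n / ((n : ℝ) + 1)) (y₀ := τ) (y := τ)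
    (summable_geometric_of_lt_one hr0 hr1) isOpen_Ioo isPreconnected_Ioo
    (fun n y _ => by
      refine ((hasDerivAt_pow (n + 1) y).div_const (((n : ℝ) + 1) ^ 2)).congr_deriv ?_
      have : (n : ℝ) + 1 ≠ 0 := by positivity
      simp only [Nat.add_sub_cancel, Nat.cast_add, Nat.cast_one]
      field_simp)
    (fun n y hy => by
      have h2 := hy.1
      rw [Real.norm_of_nonneg (by positivity)]
      calc y ^ n / ((n : ℝ) + 1) ≤ y ^ n :=
            div_le_self (by positivity) (le_add_of_nonneg_left (Nat.cast_nonneg n))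
        _ ≤ _ := pow_le_pow_left₀ h2.le hy.2.le n)
    hm (Summable.of_norm_bounded asum_zeta.summable (asum_term h0.le h1.le)) hm
  have h2 := (hasSum_pow_div_log_of_abs_lt_one (x := τ) (by rwa [abs_of_pos h0])).div_const τ
  have h3 : (fun n : ℕ => τ ^ (n + 1) / ((n : ℝ) + 1) / τ) = fun n : ℕ => τ ^ n / ((n : ℝ) + 1) := by
    funext n
    have : (n : ℝ) + 1 ≠ 0 := by positivity
    rw [pow_succ]
    field_simp
  rw [h3] at h2
  rw [h2.tsum_eq] at h
  exact h

theorem asum_mvt {f f' : ℝ → ℝ} {a b : ℝ} (hab : a ≤ b) (hc : ContinuousOn f (Set.Icc a b))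
    (h : ∀ u, a < u → u < b → HasDerivAt f (f' u) u) (h0 : ∀ u, a < u → u < b → 0 ≤ f' u) :
    f a ≤ f b := by
  rcases hab.eq_or_lt with rfl | hab
  · exact le_rfl
  · obtain ⟨c, hc, h1⟩ := exists_hasDerivAt_eq_slope f f' hab hc fun u hu => h u hu.1 hu.2
    have h2 := h0 c hc.1 hc.2
    rw [h1, le_div_iff₀ (sub_pos.2 hab)] at h2
    linarith only [h2]

/-- the antiderivative in the variable `τ` -/
noncomputable def asum_D (τ : ℝ) : ℝ := asum_Li τ - (1 - τ) * log (1 - τ) - τ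

theorem asum_D_one : asum_D 1 = π ^ 2 / 6 - 1 := by simp [asum_D, asum_Li_one]

theorem asum_D_zero : asum_D 0 = 0 := by simp [asum_D, asum_Li_zero]

theorem asum_D_cont : ContinuousOn asum_D (Set.Icc 0 1) :=
  (asum_Li_cont.sub (continuous_mul_log.comp (continuous_const.sub continuous_id)).continuousOn).sub
    continuousOn_id

theorem asum_D_deriv {τ : ℝ} (h0 : 0 < τ) (h1 : τ < 1) :
    HasDerivAt asum_D (-log (1 - τ) * (1 - τ) / τ) τ := by
  have h2 : HasDerivAt (fun s : ℝ => (1 - s) * log (1 - s)) ((log (1 - τ) + 1) * -1) τ :=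
    (hasDerivAt_mul_log (sub_pos.2 h1).ne').comp τ ((hasDerivAt_id' τ).const_sub 1)
  refine (((asum_Li_deriv h0 h1).sub h2).sub (hasDerivAt_id' τ)).congr_deriv ?_
  field_simp
  ring

theorem asum_D_bounds {τ : ℝ} (h0 : 0 ≤ τ) (h1 : τ ≤ 1) :
    0 ≤ asum_D τ ∧ asum_D τ ≤ τ ∧ asum_D τ ≤ π ^ 2 / 6 - 1 := by
  have hp : ∀ u : ℝ, 0 < u → u < 1 → 0 ≤ -log (1 - u) * (1 - u) / u := fun u h2 h3 =>
    div_nonneg (mul_nonneg (neg_nonneg.2 (log_nonpos (by linarith) (by linarith)))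
      (by linarith)) h2.le
  refine ⟨?_, ?_, ?_⟩
  · rw [← asum_D_zero]
    exact asum_mvt h0 (asum_D_cont.mono (Set.Icc_subset_Icc_right h1))
      (fun u h2 h3 => asum_D_deriv h2 (by linarith)) fun u h2 h3 => hp u h2 (by linarith)
  · have := asum_mvt (f := fun s => s - asum_D s) h0
      (continuousOn_id.sub (asum_D_cont.mono (Set.Icc_subset_Icc_right h1)))
      (fun u h2 h3 => (hasDerivAt_id' u).sub (asum_D_deriv h2 (by linarith))) fun u h2 h3 => by
        have h4 : 0 < 1 - u := by linarith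
        have h5 := mul_le_mul_of_nonneg_right (one_sub_inv_le_log_of_pos h4) h4.le
        rw [sub_mul, inv_mul_cancel₀ h4.ne'] at h5
        rw [sub_nonneg, div_le_one h2]
        linarith
    simp only [asum_D_zero] at this
    linarith
  · rw [← asum_D_one]
    exact asum_mvt h1 (asum_D_cont.mono (Set.Icc_subset_Icc_left h0))
      (fun u h2 h3 => asum_D_deriv (by linarith) h3) fun u h2 h3 => hp u (by linarith) h3

/-- the logarithm of the normalised rate -/
noncomputable def asum_l (t x : ℝ) : ℝ := -log (1 - tau t x)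

/-- its antiderivative -/
noncomputable def asum_I (t x : ℝ) : ℝ := t⁻¹ * asum_D (tau t x)

theorem asum_I_cont {t : ℝ} (ht : 0 < t) : ContinuousOn (asum_I t) (Set.Iic (xc t)) :=
  continuousOn_const.mul (asum_D_cont.comp (tau_continuousOn ht) fun _ hx =>
    ⟨(alam_spec ht hx).1.le, (alam_spec ht hx).2.1⟩)

theorem asum_I_deriv {t x : ℝ} (ht : 0 < t) (hx : x < xc t) :
    HasDerivAt (asum_I t) (asum_l t x) x := by
  obtain ⟨h1, h2, -⟩ := tau_spec ht hx
  have h3 : 0 < 1 - tau t x := sub_pos.2 h2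
  refine (((asum_D_deriv h1 h2).comp x (hasDerivAt_tau ht hx)).const_mul t⁻¹).congr_deriv ?_
  unfold asum_l
  field_simp

theorem asum_l_mono {t x y : ℝ} (ht : 0 < t) (hxy : x ≤ y) (hy : y < xc t) :
    asum_l t x ≤ asum_l t y := by
  have h1 := alam_mono ht hxy hy
  have h3 : 0 < 1 - tau t y := sub_pos.2 (tau_spec ht hy).2.1
  exact neg_le_neg (log_le_log h3 (by linarith))

theorem asum_l_exp {t x : ℝ} (ht : 0 < t) (hx : x < xc t) :
    t / (1 - tau t x) = exp (log t + asum_l t x) := by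
  have h3 : 0 < 1 - tau t x := sub_pos.2 (tau_spec ht hx).2.1
  rw [asum_l, exp_add, exp_neg, exp_log ht, exp_log h3, div_eq_mul_inv]

theorem asum_A {t x : ℝ} (ht : 0 < t) (hx : x + 1 ≤ xc t) :
    asum_l t x ≤ asum_I t (x + 1) - asum_I t x := by
  have := asum_mvt (f := fun u => asum_I t u - asum_l t x * u) (a := x) (b := x + 1) (by linarith only [])
    (((asum_I_cont ht).mono fun u hu => hu.2.trans hx).sub (by fun_prop))
    (fun u _ h3 => (asum_I_deriv ht (by linarith)).sub ((hasDerivAt_id' u).const_mul _))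
    fun u h2 h3 => by
      rw [mul_one]
      exact sub_nonneg.2 (asum_l_mono ht h2.le (by linarith))
  linarith

theorem asum_B {t x : ℝ} (ht : 0 < t) (hx : x < xc t) :
    asum_I t x - asum_I t (x - 1) ≤ asum_l t x := by
  have := asum_mvt (f := fun u => asum_l t x * u - asum_I t u) (a := x - 1) (b := x) (by linarith)
    (ContinuousOn.sub (by fun_prop) ((asum_I_cont ht).mono fun u hu => hu.2.trans hx.le))
    (fun u _ h3 => ((hasDerivAt_id' u).const_mul _).sub (asum_I_deriv ht (by linarith)))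
    fun u h2 h3 => by
      rw [mul_one]
      exact sub_nonneg.2 (asum_l_mono ht h3.le hx)
  linarith

theorem asum_up {t y : ℝ} {b : ℕ} (ht : 0 < t) (h : y + b + 1 ≤ xc t) :
    FreeT t y b ≤ exp (b * (1 + log t) + (asum_I t (y + b + 1) - asum_I t (y + 1))) := by
  have h1 := Finset.sum_range_sub' (fun i : ℕ => asum_I t (y + b + 1 - i)) b
  simp only [Nat.cast_zero, sub_zero, show y + b + 1 - b = y + 1 by ring] at h1
  have h2 : (b : ℝ) * (1 + log t) = ∑ _i ∈ range b, (1 + log t) := by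
    rw [sum_const, card_range, nsmul_eq_mul]
  rw [← h1, h2, ← sum_add_distrib, exp_sum]
  refine Finset.prod_le_prod (fun i hi => ?_) fun i hi => ?_
  · have hi' : (0 : ℝ) ≤ i := Nat.cast_nonneg i
    have hx : y + ((b - i : ℕ) : ℝ) < xc t := by
      rw [Nat.cast_sub (mem_range.1 hi).le]; linarith only [h]
    refine mul_nonneg (exp_pos _).le (le_trans ?_ (incr_bounds ht hx).1)
    rw [asum_l_exp ht (by linarith)]
    exact (exp_pos _).le
  · have hi' : (0 : ℝ) ≤ i := Nat.cast_nonneg i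
    have hx : y + (b - i) < xc t := by linarith
    rw [rate, Nat.cast_sub (mem_range.1 hi).le]
    refine (mul_le_mul_of_nonneg_left (incr_bounds ht hx).2 (exp_pos _).le).trans ?_
    rw [asum_l_exp ht hx, ← exp_add, exp_le_exp]
    have h3 := asum_A (x := y + (b - i)) ht (by linarith)
    rw [show y + b + 1 - (i : ℝ) = y + (b - i) + 1 by ring,
      show y + b + 1 - ((i + 1 : ℕ) : ℝ) = y + (b - i) by push_cast; ring]
    linarith only [h3]

theorem asum_low {t y : ℝ} {b : ℕ} (ht : 0 < t) (h : y + b < xc t) :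
    exp (b * (1 + log t) + (asum_I t (y + b - 1) - asum_I t (y - 1))) ≤ FreeT t y b := by
  have h1 := Finset.sum_range_sub' (fun i : ℕ => asum_I t (y + b - 1 - i)) b
  simp only [Nat.cast_zero, sub_zero, show y + b - 1 - b = y - 1 by ring] at h1
  have h2 : (b : ℝ) * (1 + log t) = ∑ _i ∈ range b, (1 + log t) := by
    rw [sum_const, card_range, nsmul_eq_mul]
  rw [← h1, h2, ← sum_add_distrib, exp_sum]
  refine Finset.prod_le_prod (fun i _ => (exp_pos _).le) fun i hi => ?_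
  have hi' : (0 : ℝ) ≤ i := Nat.cast_nonneg i
  have hx : y + (b - i) < xc t := by linarith only [h]
  rw [rate, Nat.cast_sub (mem_range.1 hi).le]
  refine le_trans ?_ (mul_le_mul_of_nonneg_left (incr_bounds ht hx).1 (exp_pos _).le)
  rw [asum_l_exp ht (by linarith), ← exp_add, exp_le_exp]
  have h3 := asum_B (x := y + (b - i) - 1) ht (by linarith)
  rw [show y + b - 1 - (i : ℝ) = y + (b - i) - 1 by ring,
    show y + b - 1 - ((i + 1 : ℕ) : ℝ) = y + (b - i) - 1 - 1 by push_cast; ring]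
  linarith

theorem asum_I_bounds {L x : ℝ} (hL : 0 < L) (hx : x ≤ xc L⁻¹) :
    0 ≤ asum_I L⁻¹ x ∧ asum_I L⁻¹ x ≤ L * tau L⁻¹ x ∧ asum_I L⁻¹ x ≤ L * (π ^ 2 / 6 - 1) := by
  obtain ⟨h1, h2, -⟩ := alam_spec (inv_pos.2 hL) hx
  obtain ⟨h3, h4, h5⟩ := asum_D_bounds h1.le h2
  rw [asum_I, inv_inv]
  exact ⟨by positivity, by gcongr, by gcongr⟩

theorem asum_I_xc {L : ℝ} (hL : 0 < L) : asum_I L⁻¹ (xc L⁻¹) = L * (π ^ 2 / 6 - 1) := by
  rw [asum_I, inv_inv, tau_xc (inv_pos.2 hL), asum_D_one]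

theorem asum_hL (L b : ℝ) : -hL L + (xc L⁻¹ - b) * (log L - 1) =
    b * (1 + log L⁻¹) + L * (π ^ 2 / 6 - 1) := by
  rw [hL, xc, inv_inv, log_inv]
  ring

theorem asum_l_bounds {L s : ℝ} (hL : 0 < L) (hs : 0 < s) (hs2 : s ≤ 2 * L) :
    (log L - log 2 - log s) / 2 ≤ asum_l L⁻¹ (xc L⁻¹ - s) ∧
      asum_l L⁻¹ (xc L⁻¹ - s) ≤ (log L + 3 - log s) / 2 := by
  have ht := inv_pos.2 hL
  have hx : xc L⁻¹ - s < xc L⁻¹ := by linarith only [hs]
  obtain ⟨h1, h2, h3, -⟩ := sigma_bounds ht hx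
  have h4 : 0 < 1 - tau L⁻¹ (xc L⁻¹ - s) := sub_pos.2 (tau_spec ht hx).2.1
  rw [sub_sub_cancel] at h1 h2 h3
  unfold asum_l
  constructor
  · have h5 := log_le_log (by positivity) h1
    rw [log_pow, log_mul two_ne_zero (by positivity), log_mul ht.ne' hs.ne', log_inv] at h5
    push_cast at h5
    linarith only [h5]
  · have h6 : L⁻¹ * s ≤ 2 := by rw [inv_mul_le_iff₀ hL]; linarith only [hs2]
    have h7 : L⁻¹ * s * exp (-3) ≤ (1 - tau L⁻¹ (xc L⁻¹ - s)) ^ 2 :=
      (mul_le_mul_of_nonneg_left ((exp_le_exp.2 (by linarith only [h6])).trans h3) (by positivity)).trans h2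
    have h5 := log_le_log (by positivity) h7
    rw [log_pow, log_mul (by positivity) (exp_pos _).ne', log_mul ht.ne' hs.ne', log_inv,
      log_exp] at h5
    push_cast at h5
    linarith only [h5]

theorem asum_end {L v : ℝ} (hL : 0 < L) (hv : 0 ≤ v) (hv2 : v ≤ 2 * L) :
    ((log L - log 2 + 1) * v - v * log v) / 2 ≤ L * (π ^ 2 / 6 - 1) - asum_I L⁻¹ (xc L⁻¹ - v) ∧
      L * (π ^ 2 / 6 - 1) - asum_I L⁻¹ (xc L⁻¹ - v) ≤ ((log L + 4) * v - v * log v) / 2 := by
  have ht := inv_pos.2 hL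
  have hc : ContinuousOn (fun s => asum_I L⁻¹ (xc L⁻¹ - s)) (Set.Icc 0 v) :=
    (asum_I_cont ht).comp (by fun_prop) fun s hs => sub_le_self _ hs.1
  have hd : ∀ s, 0 < s → HasDerivAt (fun s => asum_I L⁻¹ (xc L⁻¹ - s))
      (asum_l L⁻¹ (xc L⁻¹ - s) * -1) s := fun s hs =>
    (asum_I_deriv ht (by linarith only [hs])).comp s ((hasDerivAt_id' s).const_sub _)
  have hc2 : ∀ c : ℝ, ContinuousOn (fun s => (c * s - s * log s) / 2) (Set.Icc 0 v) := fun c =>
    (((continuous_const.mul continuous_id).sub continuous_mul_log).div_const 2).continuousOn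
  have hd2 : ∀ c s : ℝ, 0 < s → HasDerivAt (fun s => (c * s - s * log s) / 2)
      ((c * 1 - (log s + 1)) / 2) s := fun c s hs =>
    (((hasDerivAt_id' s).const_mul c).sub (hasDerivAt_mul_log hs.ne')).div_const 2
  constructor
  · have := asum_mvt hv (hc.neg.sub (hc2 (log L - log 2 + 1)))
      (fun s h1 _ => (hd s h1).neg.sub (hd2 _ s h1)) fun s h1 h2 => by
        linarith only [hL, h1, hv2, h2, (asum_l_bounds hL h1 (by linarith)).1]
    simp only [Pi.sub_apply, Pi.neg_apply, sub_zero, asum_I_xc hL, mul_zero, zero_mul,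
      zero_div] at this
    linarith only [this]
  · have := asum_mvt hv (hc.add (hc2 (log L + 4)))
      (fun s h1 _ => (hd s h1).add (hd2 _ s h1)) fun s h1 h2 => by
        linarith only [hL, h1, hv2, h2, (asum_l_bounds hL h1 (by linarith)).2]
    simp only [Pi.add_apply, sub_zero, asum_I_xc hL, mul_zero, zero_mul, zero_div] at this
    linarith only [this]

theorem asum_start {L x : ℝ} (hL : 0 < L) (hx : x ≤ xc L⁻¹) (hxL : x ≤ L) :
    L * tau L⁻¹ x ≤ exp 2 := by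
  obtain ⟨h1, h2, h3⟩ := alam_spec (inv_pos.2 hL) hx
  have h4 : L⁻¹ * x ≤ 1 := by rw [inv_mul_le_iff₀ hL]; linarith only [hxL]
  rw [← log_le_iff_le_exp (by positivity), log_mul hL.ne' h1.ne']
  rw [log_inv] at h3
  linarith only [h2, h3, h4]

theorem freeT_pos {t y : ℝ} {b : ℕ} (ht : 0 < t) (h : y + b < xc t) : 0 < FreeT t y b :=
  (exp_pos _).trans_le (asum_low ht h)

theorem freeT_crude {L y : ℝ} {b : ℕ} (hL1 : exp 1 ≤ L) (h : y + b + 1 ≤ xc L⁻¹) :
    FreeT L⁻¹ y b ≤ exp L ∧ FreeT L⁻¹ y b ≤ exp (-hL L + (xc L⁻¹ - b) * (log L - 1)) := by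
  have hL : 0 < L := (exp_pos 1).trans_le hL1
  have hb : (0 : ℝ) ≤ b := Nat.cast_nonneg b
  have h1 := asum_up (inv_pos.2 hL) h
  have h2 := (asum_I_bounds hL h).2.2
  have h3 := (asum_I_bounds hL (x := y + 1) (by linarith only [h])).1
  have h4 : 1 ≤ log L := (le_log_iff_exp_le hL).2 hL1
  have h5 : π ^ 2 / 6 - 1 ≤ 1 := by linarith only [pi_lt_d2, pi_pos, mul_pos_of_neg_of_neg (Mathlib.Tactic.Linarith.sub_neg_of_lt pi_lt_d2) (Mathlib.Tactic.Linarith.sub_neg_of_lt pi_pos)]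
  rw [asum_hL]
  refine ⟨h1.trans (exp_le_exp.2 ?_), h1.trans (exp_le_exp.2 (by linarith only [h2, h3]))⟩
  rw [log_inv]
  linarith only [h2, h3, hb, h4, h5, hL, mul_nonneg hb (sub_nonneg.2 h4), mul_le_mul_of_nonneg_left h5 hL.le]

theorem freeT_sharp : ∃ C : ℝ, ∀ᶠ L : ℝ in atTop, ∀ (y u : ℝ) (b : ℕ), 0 ≤ y → y ≤ L → 1 ≤ u →
    u ≤ L → y + b + u = xc L⁻¹ →
    FreeT L⁻¹ y b ≤ exp (-hL L + u / 2 * (log L + log u) + C * (u + (1 + y) * log L)) ∧
      exp (-hL L + u / 2 * log L - C * (u + log L)) ≤ FreeT L⁻¹ y b := by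
  refine ⟨exp 2 + 6, (eventually_ge_atTop (exp 1)).mono fun L hL1 y u b hy hyL hu huL he => ?_⟩
  have hL : 0 < L := (exp_pos 1).trans_le hL1
  have hb : (0 : ℝ) ≤ b := Nat.cast_nonneg b
  have h4 : 1 ≤ log L := (le_log_iff_exp_le hL).2 hL1
  have h0 := asum_hL L b
  have hxb : xc L⁻¹ - b = y + u := by linarith only [he]
  rw [hxb] at h0
  have he2 := exp_pos 2
  have hyl : 0 ≤ y * log L := by positivity
  constructor
  · refine (asum_up (inv_pos.2 hL) (by linarith only [hu, he])).trans (exp_le_exp.2 ?_)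
    have h3 := (asum_I_bounds hL (x := y + 1) (by linarith only [hu, he])).1
    have h5 := (asum_end hL (v := u - 1) (by linarith only [hu]) (by linarith only [hu, huL])).1
    rw [show xc L⁻¹ - (u - 1) = y + b + 1 by linarith only [he]] at h5
    have h6 : (u - 1) * log (u - 1) ≤ u * log u := by
      rcases hu.eq_or_lt with rfl | hu'
      · simp
      · have h7 := log_nonneg hu
        have h8 := mul_le_mul_of_nonneg_left
          (log_le_log (by linarith only [hu'] : 0 < u - 1) (by linarith only [] : u - 1 ≤ u)) (by linarith only [hu'] : 0 ≤ u - 1)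
        linarith only [h7, h8]
    have h7 : log 2 ≤ 1 := by linarith only [log_le_sub_one_of_pos two_pos]
    have h8 := mul_nonneg (sub_nonneg.2 h7) (sub_nonneg.2 hu)
    have h9 : 0 ≤ exp 2 * (u + (1 + y) * log L) := by positivity
    linarith only [hy, hu, h4, h0, hyl, h3, h5, h6, h8, h9]
  · refine le_trans (exp_le_exp.2 ?_) (asum_low (inv_pos.2 hL) (by linarith only [hu, he]))
    have h3 := (asum_I_bounds hL (x := y - 1) (by linarith only [hu, he])).2.1.trans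
      (asum_start hL (by linarith only [hu, he]) (by linarith only [hyL]))
    have h5 := (asum_end hL (v := u + 1) (by linarith only [hu]) (by linarith only [hu, huL])).2
    rw [show xc L⁻¹ - (u + 1) = y + b - 1 by linarith only [he]] at h5
    have h6 : 0 ≤ (u + 1) * log (u + 1) := mul_nonneg (by linarith only [hu]) (log_nonneg (by linarith only [hu]))
    have h7 := mul_nonneg hy (sub_nonneg.2 h4)
    have h8 : exp 2 * 1 ≤ exp 2 * (u + log L) := by gcongr; linarith only [hu, h4]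
    linarith only [hu, h4, h0, h3, h5, h6, h7, h8]

end Pool.Agent.Work.MP_5391ad_co
end

-- merged part: Pool.Agent.Work.MP_5391ad_co.AEll
section
/-! The scale `ell` and the main term. `G L = L (log^2 L - π^2/6)` is continuous, strictly increasing
and unbounded on `[e^2, ∞)`, `G (e^2) ≤ 30`. `hL' = log^2 L - π^2/6`, so
`∂_L prof n L = n/L - (log^2 L - π^2/6)`; for `1 ≤ L' ≤ L = ell n` this is at least
`n/L' - n/L ≥ (L - L')/L`, so `prof n L' ≤ prof n L - (L - L')^2/(2L)`; and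
`L^(1/3) - L'^(1/3) ≤ (L - L') L^(-2/3)`. `prof n L` is affine in `n` with slope `log L`, and
`ell n - ell N ≤ n - N`. -/

namespace Pool.Agent.Work.MP_5391ad_co

open Real Filter

theorem aell_pi : 3 / 2 ≤ π ^ 2 / 6 ∧ π ^ 2 / 6 ≤ 2 := by
  constructor <;> (refine le_of_not_gt fun h_nl => ?_; linarith only [h_nl, pi_gt_three, pi_lt_d2, mul_pos_of_neg_of_neg (Mathlib.Tactic.Linarith.sub_neg_of_lt pi_gt_three) (Mathlib.Tactic.Linarith.sub_neg_of_lt pi_gt_three), mul_pos_of_neg_of_neg (Mathlib.Tactic.Linarith.sub_neg_of_lt h_nl) (Mathlib.Tactic.Linarith.sub_neg_of_lt pi_gt_three), mul_pos_of_neg_of_neg (Mathlib.Tactic.Linarith.sub_neg_of_lt h_nl) (Mathlib.Tactic.Linarith.sub_neg_of_lt pi_lt_d2), mul_pos_of_neg_of_neg (Mathlib.Tactic.Linarith.sub_neg_of_lt pi_gt_three) (Mathlib.Tactic.Linarith.sub_neg_of_lt pi_lt_d2)])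

theorem aell_log {L : ℝ} (h : exp 2 ≤ L) : 2 ≤ log L :=
  (le_log_iff_exp_le ((exp_pos 2).trans_le h)).2 h

theorem aell_one {L : ℝ} (h : exp 2 ≤ L) : 1 ≤ L := (one_le_exp zero_le_two).trans h

theorem aell_two {L : ℝ} (h : exp 2 ≤ L) : 2 ≤ log L ^ 2 - π ^ 2 / 6 := by
  linarith only [h, aell_log h, aell_pi.2, mul_nonneg_of_nonpos_of_nonpos (Mathlib.Tactic.Linarith.sub_nonpos_of_le (aell_log h)) (Mathlib.Tactic.Linarith.sub_nonpos_of_le (aell_log h))]

theorem aell_sq {a b : ℝ} (ha : 1 ≤ a) (h : a ≤ b) : log a ^ 2 ≤ log b ^ 2 :=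
  pow_le_pow_left₀ (log_nonneg ha) (log_le_log (zero_lt_one.trans_le ha) h) 2

theorem aell_incr {a b : ℝ} (ha : exp 2 ≤ a) (h : a ≤ b) :
    a * (log a ^ 2 - π ^ 2 / 6) + (b - a) ≤ b * (log b ^ 2 - π ^ 2 / 6) := by
  have h1 := mul_le_mul_of_nonneg_left (aell_sq (aell_one ha) h)
    (zero_le_one.trans ((aell_one ha).trans h))
  linarith only [h, h1, ha, mul_le_mul_of_nonneg_left (aell_two ha) (sub_nonneg.2 h)]

theorem aell_mem (n : ℝ) :
    max (exp 2) n ∈ {L | exp 2 ≤ L ∧ n ≤ L * (log L ^ 2 - π ^ 2 / 6)} := by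
  have h := le_max_left (exp 2) n
  exact ⟨h, by linarith only [h, aell_two h, aell_one h, le_max_right (exp 2) n, mul_nonneg_of_nonpos_of_nonpos (Mathlib.Tactic.Linarith.sub_nonpos_of_le (aell_two h)) (Mathlib.Tactic.Linarith.sub_nonpos_of_le (aell_one h))]⟩

theorem aell_mono {f f' : ℝ → ℝ} {a b : ℝ} (hab : a ≤ b)
    (hf : ∀ x, a ≤ x → HasDerivAt f (f' x) x) (h : ∀ x, a ≤ x → x ≤ b → 0 ≤ f' x) : f a ≤ f b :=
  monotoneOn_of_deriv_nonneg (convex_Icc a b)
    (fun x hx => (hf x hx.1).continuousAt.continuousWithinAt)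
    (fun x hx => (hf x (interior_subset hx).1).differentiableAt.differentiableWithinAt)
    (fun x hx => (hf x (interior_subset hx).1).deriv ▸
      h x (interior_subset hx).1 (interior_subset hx).2)
    (Set.left_mem_Icc.2 hab) (Set.right_mem_Icc.2 hab) hab

theorem aell_cube {L : ℝ} (h : 1 ≤ L) : 1 ≤ L ^ (1 / 3 : ℝ) ∧ (L ^ (1 / 3 : ℝ)) ^ 3 = L := by
  refine ⟨one_le_rpow h (by norm_num), ?_⟩
  rw [← rpow_natCast, ← rpow_mul (zero_le_one.trans h)]
  norm_num

theorem le_ell (n : ℝ) : exp 2 ≤ ell n := by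
  exact le_csInf ⟨_, aell_mem n⟩ fun _ h => h.1

theorem ell_spec {n : ℝ} (hn : 30 ≤ n) : ell n * (log (ell n) ^ 2 - π ^ 2 / 6) = n := by
  have h1 : ContinuousOn (fun L : ℝ => L * (log L ^ 2 - π ^ 2 / 6))
      (Set.Icc (exp 2) (max (exp 2) n)) :=
    continuousOn_id.mul (((continuousOn_log.mono fun x hx =>
      ((exp_pos 2).trans_le hx.1).ne').pow 2).sub continuousOn_const)
  have h2 : exp 2 * (log (exp 2) ^ 2 - π ^ 2 / 6) ≤ n := by
    have h3 : exp 2 = exp 1 * exp 1 := by rw [← exp_add]; norm_num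
    have h4 : exp 2 ≤ 9 := by linarith only [h3, exp_one_lt_three, exp_pos 1, mul_pos_of_neg_of_neg (Mathlib.Tactic.Linarith.sub_neg_of_lt exp_one_lt_three) (Mathlib.Tactic.Linarith.sub_neg_of_lt (exp_pos (1 : ℝ)))]
    rw [log_exp]
    linarith only [hn, h3, h4, aell_pi.1, exp_pos 2, Mathlib.Tactic.Linarith.mul_zero_eq (Mathlib.Tactic.Linarith.sub_nonpos_of_le (sq_nonneg ((1 : ℝ) * π))) (sub_eq_zero_of_eq h3), mul_nonneg_of_nonpos_of_nonpos (Mathlib.Tactic.Linarith.sub_nonpos_of_le (mul_self_nonneg (rexp (1 : ℝ)))) (Mathlib.Tactic.Linarith.sub_nonpos_of_le aell_pi.left)]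
  obtain ⟨L, h3, h4⟩ := intermediate_value_Icc (le_max_left _ _) h1 ⟨h2, (aell_mem n).2⟩
  have h5 : ell n = L := IsLeast.csInf_eq ⟨⟨h3.1, h4.ge⟩, fun x hx => not_lt.1 fun h => by
    linarith only [h4, h, hx, aell_incr hx.1 h.le, hx.2]⟩
  rw [h5]
  exact h4

theorem ell_mono : Monotone ell := by
  exact fun n m h => csInf_le_csInf ⟨_, fun _ h => h.1⟩ ⟨_, aell_mem m⟩
    fun _ hx => ⟨hx.1, h.trans hx.2⟩

theorem ell_le {n : ℝ} (hn : 30 ≤ n) : ell n ≤ n := by
  (refine le_of_not_gt fun h_nl => ?_; linarith only [h_nl, hn, ell_spec hn, aell_two (le_ell n), aell_one (le_ell n), mul_nonneg_of_nonpos_of_nonpos (Mathlib.Tactic.Linarith.sub_nonpos_of_le hn) (Mathlib.Tactic.Linarith.sub_nonpos_of_le (aell_two (le_ell n))), mul_nonneg_of_nonpos_of_nonpos (le_of_lt (Mathlib.Tactic.Linarith.sub_neg_of_lt h_nl)) (Mathlib.Tactic.Linarith.sub_nonpos_of_le (aell_two (le_ell n)))])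

theorem ell_sub_le {N n : ℝ} (hN : 30 ≤ N) (h : N ≤ n) : ell n - ell N ≤ n - N := by
  linarith only [hN, h, ell_spec hN, ell_spec (hN.trans h), aell_incr (le_ell N) (ell_mono h)]

theorem mul_ell_le {c n : ℝ} (hc : 0 < c) (hc1 : c ≤ 1) (hn : 30 ≤ n) : c * ell n ≤ ell (c * n) := by
  refine le_csInf ⟨_, aell_mem _⟩ fun L hL => not_lt.1 fun h => ?_
  have h1 := aell_one (hL.1.trans h.le)
  have h2 := mul_le_mul_of_nonneg_left (aell_sq h1
    (mul_le_of_le_one_left (zero_le_one.trans (aell_one (le_ell n))) hc1)) (zero_le_one.trans h1)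
  have h3 := congrArg (c * ·) (ell_spec hn)
  linarith only [h, h2, h3, hL, aell_incr hL.1 h.le, hL.2]

theorem div_log_le {n : ℝ} (hn : 30 ≤ n) :
    n / log n ≤ ell n * log (ell n) ∧ n ≤ ell n * log (ell n) ^ 2 := by
  have h1 := aell_one (le_ell n)
  have h2 := aell_log (le_ell n)
  have h3 : n ≤ ell n * log (ell n) ^ 2 := by linarith only [hn, h1, ell_spec hn, aell_pi.1, mul_nonneg_of_nonpos_of_nonpos (Mathlib.Tactic.Linarith.sub_nonpos_of_le (sq_nonneg ((1 : ℝ) * π))) (Mathlib.Tactic.Linarith.sub_nonpos_of_le h1)]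
  have h4 := log_le_log (zero_lt_one.trans_le h1) (ell_le hn)
  refine ⟨(div_le_iff₀ (by linarith)).2 (h3.trans ?_), h3⟩
  rw [sq, ← mul_assoc]
  exact mul_le_mul_of_nonneg_left h4 (by positivity)

theorem tendsto_ell : Tendsto ell atTop atTop := by
  refine tendsto_atTop.2 fun b => ?_
  filter_upwards [eventually_ge_atTop 30, eventually_ge_atTop
    (max (exp 2) b * (log (max (exp 2) b) ^ 2 - π ^ 2 / 6))] with n h1 h2
  refine (le_max_right (exp 2) b).trans (not_lt.1 fun h => ?_)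
  linarith only [h2, h, h1, aell_incr (le_ell n) h.le, ell_spec h1]

theorem rpow_le_ell {δ : ℝ} (hδ : 0 < δ) : ∀ᶠ n : ℝ in atTop, n ^ (1 - δ) ≤ ell n := by
  filter_upwards [eventually_ge_atTop 30,
    (isLittleO_log_rpow_rpow_atTop 2 hδ).eventuallyLE] with n h1 h2
  have h0 : 0 < n := by linarith
  have h3 := aell_one (le_ell n)
  rw [norm_of_nonneg (rpow_pos_of_pos h0 δ).le, rpow_two, norm_of_nonneg (sq_nonneg _)] at h2
  rw [rpow_sub h0, rpow_one, div_le_iff₀ (rpow_pos_of_pos h0 δ)]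
  exact (div_log_le h1).2.trans
    (mul_le_mul_of_nonneg_left ((aell_sq h3 (ell_le h1)).trans h2) (by linarith))

theorem xc_inv {L : ℝ} (hL0 : 0 < L) : xc L⁻¹ = L * (log L - 1) := by
  rw [xc, inv_inv]

theorem exists_xc {L0 x : ℝ} (h0 : 1 ≤ L0) (hx : xc L0⁻¹ ≤ x) : ∃ L, L0 ≤ L ∧ xc L⁻¹ = x := by
  have h1 : ContinuousOn (fun L : ℝ => L * (log L - 1)) (Set.Icc L0 (max L0 (max (exp 2) x))) :=
    continuousOn_id.mul ((continuousOn_log.mono fun y hy =>
      (zero_lt_one.trans_le (h0.trans hy.1)).ne').sub continuousOn_const)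
  have h2 := (le_max_left (exp 2) x).trans (le_max_right L0 _)
  have h3 := (le_max_right (exp 2) x).trans (le_max_right L0 _)
  rw [xc, inv_inv] at hx
  obtain ⟨L, h4, h5⟩ := intermediate_value_Icc (le_max_left _ _) h1
    ⟨hx, by linarith only [h3, h2, aell_log h2, aell_one h2, mul_nonneg_of_nonpos_of_nonpos (Mathlib.Tactic.Linarith.sub_nonpos_of_le (aell_log h2)) (Mathlib.Tactic.Linarith.sub_nonpos_of_le (aell_one h2))]⟩
  exact ⟨L, h4.1, by rw [xc, inv_inv]; exact h5⟩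

theorem prof_eq (n L : ℝ) : prof n L = n * log L - hL L := by
  rfl

theorem hasDerivAt_hL {L : ℝ} (hL0 : 0 < L) : HasDerivAt hL (log L ^ 2 - π ^ 2 / 6) L := by
  have h := hasDerivAt_log hL0.ne'
  refine ((hasDerivAt_id L).mul ((((h.pow 2).sub (h.const_mul 2)).add_const 2).sub_const
    (π ^ 2 / 6))).congr_deriv ?_
  simp only [id, Pi.pow_apply, Pi.sub_apply]
  field_simp
  ring

theorem FF_eq {n : ℝ} (hn : 30 ≤ n) : FF n = prof n (ell n) - kappa * ell n ^ (1 / 3 : ℝ) := by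
  rw [FF, prof]
  linear_combination ell_spec hn

theorem aell_prof (n : ℝ) {L : ℝ} (h : 0 < L) :
    HasDerivAt (prof n) (n * L⁻¹ - (log L ^ 2 - π ^ 2 / 6)) L :=
  ((hasDerivAt_log h.ne').const_mul n).sub (hasDerivAt_hL h)

theorem aell_low {n L : ℝ} (hn : 30 ≤ n) (hL1 : 1 ≤ L) (h : L ≤ ell n) :
    prof n L + (ell n - L) ^ 2 / (2 * ell n) ≤ prof n (ell n) := by
  have h0 := zero_lt_one.trans_le (aell_one (le_ell n))
  have h1 := aell_mono (f := fun x => prof n x + (ell n - x) ^ 2 / (2 * ell n)) h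
    (fun x hx => (aell_prof n (by linarith)).add
      ((((hasDerivAt_id x).const_sub (ell n)).pow 2).div_const _)) fun x h1 h2 => by
      have h3 : 0 < x := by linarith
      have h4 : log x ^ 2 - π ^ 2 / 6 ≤ n / ell n := by
        rw [le_div_iff₀ h0]
        linarith only [hL1, h1, h2, hn, h, aell_sq (hL1.trans h1) h2, ell_spec hn, mul_nonneg_of_nonpos_of_nonpos (Mathlib.Tactic.Linarith.sub_nonpos_of_le hL1) (Mathlib.Tactic.Linarith.sub_nonpos_of_le (aell_sq (LE.le.trans hL1 h1) h2)), mul_nonneg_of_nonpos_of_nonpos (Mathlib.Tactic.Linarith.sub_nonpos_of_le h) (Mathlib.Tactic.Linarith.sub_nonpos_of_le (aell_sq (LE.le.trans hL1 h1) h2))]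
      have h5 : n * x⁻¹ - n / ell n - (ell n - x) / ell n = (n - x) * (ell n - x) / (x * ell n) := by
        field_simp
      have h6 : 0 ≤ (n - x) * (ell n - x) / (x * ell n) :=
        div_nonneg (mul_nonneg (by linarith only [h2, hn, ell_le hn]) (by linarith only [h2])) (by positivity)
      have h7 : ((2 : ℕ) : ℝ) * (ell n - id x) ^ (2 - 1) * -1 / (2 * ell n) =
          -((ell n - x) / ell n) := by
        simp only [id]
        field_simp
        ring
      rw [h7]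
      linarith only [h4, h5, h6]
  simpa using h1

theorem aell_max {n L : ℝ} (hn : 30 ≤ n) (hL1 : 1 ≤ L) : prof n L ≤ prof n (ell n) := by
  have h0 := zero_lt_one.trans_le (aell_one (le_ell n))
  rcases le_total L (ell n) with h | h
  · exact (le_add_of_nonneg_right (by positivity)).trans (aell_low hn hL1 h)
  · refine neg_le_neg_iff.1 (aell_mono (f := fun x => -prof n x) h
      (fun x hx => (aell_prof n (by linarith)).neg) fun x h1 _ => ?_)
    rw [neg_sub, sub_nonneg, ← div_eq_mul_inv, div_le_iff₀ (by linarith)]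
    linarith only [h1, hn, aell_incr (le_ell n) h1, ell_spec hn]

theorem prof_le {n L : ℝ} (hn : 30 ≤ n) (hL1 : 1 ≤ L) :
    prof n L ≤ prof n (ell n) ∧ prof n L - kappa * L ^ (1 / 3 : ℝ) ≤ FF n + kappa ^ 2 := by
  refine ⟨aell_max hn hL1, ?_⟩
  have hk := kappa_pos
  rw [FF_eq hn]
  rcases le_total L (ell n) with h | h
  · have h1 := aell_low hn hL1 h
    obtain ⟨a1, a2⟩ := aell_cube (hL1.trans h)
    obtain ⟨b1, b2⟩ := aell_cube hL1
    have h2 := rpow_le_rpow (zero_le_one.trans hL1) h (show (0 : ℝ) ≤ 1 / 3 by norm_num)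
    generalize ell n ^ (1 / 3 : ℝ) = a at *
    generalize L ^ (1 / 3 : ℝ) = b at *
    have h3 : (a - b) ^ 2 / 2 ≤ (ell n - L) ^ 2 / (2 * ell n) := by
      have h4 : (a - b) * a ^ 2 ≤ ell n - L := by
        rw [← a2, ← b2]
        linarith only [h2, a1, b1, mul_nonneg (sub_nonneg.2 h2) (show 0 ≤ a * b + b ^ 2 by positivity)]
      have h5 := pow_le_pow_left₀ (mul_nonneg (sub_nonneg.2 h2) (sq_nonneg a)) h4 2
      have h6 : (a - b) ^ 2 * a ^ 3 ≤ (a - b) ^ 2 * a ^ 4 :=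
        mul_le_mul_of_nonneg_left (pow_le_pow_right₀ a1 (by norm_num)) (sq_nonneg _)
      rw [div_le_div_iff₀ two_pos (by linarith only [hL1, h])]
      rw [a2] at h6
      linarith only [h5, h6]
    linarith only [h1, h3, sq_nonneg (kappa - (a - b)), sq_nonneg kappa, sq_nonneg kappa, sq_nonneg (kappa - (a - b))]
  · have h2 := rpow_le_rpow (zero_le_one.trans (aell_one (le_ell n))) h
      (show (0 : ℝ) ≤ 1 / 3 by norm_num)
    linarith only [hn, hL1, hk, h2, aell_max hn hL1, sq_nonneg kappa, mul_pos_of_neg_of_neg (Mathlib.Tactic.Linarith.sub_neg_of_lt hk) (Mathlib.Tactic.Linarith.sub_neg_of_lt hk), mul_nonneg_of_nonpos_of_nonpos (le_of_lt (Mathlib.Tactic.Linarith.sub_neg_of_lt hk)) (Mathlib.Tactic.Linarith.sub_nonpos_of_le h2)]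

theorem aell_root : Tendsto (fun n => ell n ^ (1 / 3 : ℝ)) atTop atTop :=
  (tendsto_rpow_atTop (by norm_num)).comp tendsto_ell

theorem FF_incr {δ : ℝ} (hδ : 0 < δ) : ∀ᶠ N : ℝ in atTop, ∀ n, N ≤ n →
    FF N + (n - N) * (log (ell N) - δ) ≤ FF n := by
  filter_upwards [eventually_ge_atTop 30, aell_root.eventually_ge_atTop (kappa / δ)]
    with N hN h1 n h
  have hk := kappa_pos
  have h2 := aell_max (hN.trans h) (aell_one (le_ell N))
  have h3 := ell_sub_le hN h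
  obtain ⟨a1, a2⟩ := aell_cube (aell_one (le_ell n))
  obtain ⟨b1, b2⟩ := aell_cube (aell_one (le_ell N))
  have h4 := rpow_le_rpow (zero_le_one.trans (aell_one (le_ell N))) (ell_mono h)
    (show (0 : ℝ) ≤ 1 / 3 by norm_num)
  rw [FF_eq hN, FF_eq (hN.trans h)]
  rw [div_le_iff₀ hδ] at h1
  simp only [prof_eq] at h2 ⊢
  generalize ell n ^ (1 / 3 : ℝ) = a at *
  generalize ell N ^ (1 / 3 : ℝ) = b at *
  have h5 : (a - b) * b ≤ n - N := by
    refine le_trans ?_ h3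
    rw [← a2, ← b2]
    nlinarith [mul_nonneg (sub_nonneg.2 h4) (show 0 ≤ a ^ 2 + a * b + b ^ 2 - b by nlinarith)]
  linarith only [h2, h1, h4, h5, hδ, mul_le_mul_of_nonneg_left h1 (sub_nonneg.2 h4), mul_le_mul_of_nonneg_right h5 hδ.le]

theorem FF_step {N n : ℝ} (hN : 30 ≤ N) (h : N ≤ n) : FF n ≤ FF N + (n - N) * log (ell n) := by
  have h2 := aell_max hN (aell_one (le_ell n))
  have h4 := mul_le_mul_of_nonneg_left (rpow_le_rpow (zero_le_one.trans (aell_one (le_ell N)))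
    (ell_mono h) (show (0 : ℝ) ≤ 1 / 3 by norm_num)) kappa_pos.le
  rw [FF_eq hN, FF_eq (hN.trans h)]
  simp only [prof_eq] at h2 ⊢
  linarith only [h4, h2]

/-- a quarter of the optimal scale loses a linear amount -/
theorem quarter_le : ∀ᶠ n : ℝ in atTop, n * log (ell n / 4) + n / 4 ≤ FF n := by
  filter_upwards [eventually_ge_atTop 30, aell_root.eventually_ge_atTop kappa] with n hn h1
  have h0 := aell_one (le_ell n)
  have h2 := aell_log (le_ell n)
  obtain ⟨a1, a2⟩ := aell_cube h0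
  have h3 : log 4 = 2 * log 2 := by rw [← log_rpow two_pos]; norm_num
  rw [FF, log_div (by linarith only [h0]) (by norm_num), h3]
  generalize ell n ^ (1 / 3 : ℝ) = a at *
  have h4 : kappa * a ≤ ell n := by
    rw [← a2]
    linarith only [h1, a1, mul_nonneg (sub_nonneg.2 a1) (sq_nonneg a), sq_nonneg a, mul_nonneg_of_nonpos_of_nonpos (Mathlib.Tactic.Linarith.sub_nonpos_of_le h1) (Mathlib.Tactic.Linarith.sub_nonpos_of_le a1)]
  linarith only [hn, h0, h2, h4, log_two_gt_d9, mul_nonneg_of_nonpos_of_nonpos (Mathlib.Tactic.Linarith.sub_nonpos_of_le hn) (le_of_lt (Mathlib.Tactic.Linarith.sub_neg_of_lt log_two_gt_d9)), mul_nonneg_of_nonpos_of_nonpos (Mathlib.Tactic.Linarith.sub_nonpos_of_le h0) (Mathlib.Tactic.Linarith.sub_nonpos_of_le h2)]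

end Pool.Agent.Work.MP_5391ad_co
end

-- merged part: Pool.Agent.Work.MP_5391ad_co.AGiant
section
/-! The weight of a block of a given size. `t = L⁻¹`, `λ = t b = log L - 1 - t u ≥ log L - 2 ≥ 1`,
`j = ⌊k/(1+λ)⌋ ≤ k/2`, `J = j + 1`, `m = k - j ≥ 1`, `μ = J λ`, `|m - μ| ≤ λ`. By `le_treeW`,
`t^(k+1) treeW / k! ≥ t^J J^(j-1)/j! μ^m/m!`. With `n! ≤ e n (n/e)^n` (`n ≥ 1`):
`J^(j-1)/j! ≥ J^J/(J J!) ≥ e^J/(e J^2)`, and `μ^m/m! ≥ exp (μ - (m-μ)^2/μ)/(e m)` from
`log (μ/m) ≥ 1 - m/μ`; `(m-μ)^2/μ ≤ λ ≤ log L`; `t e^{1+λ} = e^{-t u}`,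
`t u J ≤ u k/(L (log L - 1)) + 1`. -/

namespace Pool.Agent.Work.MP_5391ad_co

open Real

theorem agiant_fact {n : ℕ} (hn : 1 ≤ n) : exp ((n : ℝ) - 1) / n ≤ (n : ℝ) ^ n / n.factorial := by
  obtain ⟨n, rfl⟩ : ∃ m, n = m + 1 := ⟨n - 1, by omega⟩
  have h : Stirling.stirlingSeq (n + 1) ≤ Stirling.stirlingSeq 1 :=
    Stirling.stirlingSeq'_antitone (Nat.zero_le n)
  rw [Stirling.stirlingSeq_one, Stirling.stirlingSeq] at h
  generalize hN : n + 1 = N at h hn
  have h0 : (1 : ℝ) ≤ N := by exact_mod_cast hn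
  have h1 : √(2 * (N : ℝ)) ≤ √2 * N := by
    rw [sqrt_mul zero_le_two]
    exact mul_le_mul_of_nonneg_left (sqrt_le_iff.2 ⟨by linarith only [h0], by linarith only [h0, mul_nonneg_of_nonpos_of_nonpos (Mathlib.Tactic.Linarith.sub_nonpos_of_le (Mathlib.Tactic.Linarith.natCast_nonneg ℝ N)) (Mathlib.Tactic.Linarith.sub_nonpos_of_le h0)]⟩) (sqrt_nonneg _)
  have h2 : (0 : ℝ) < √2 := sqrt_pos.2 two_pos
  rw [div_le_iff₀ (by positivity)] at h
  have h3 : (N.factorial : ℝ) ≤ exp 1 * N * ((N : ℝ) / exp 1) ^ N := by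
    refine h.trans ((mul_le_mul_of_nonneg_left (mul_le_mul_of_nonneg_right h1 (by positivity))
      (by positivity)).trans_eq ?_)
    field_simp
  rw [div_le_div_iff₀ (by positivity) (by positivity)]
  refine (mul_le_mul_of_nonneg_left h3 (exp_pos _).le).trans_eq ?_
  rw [div_pow, exp_one_pow, exp_sub]
  field_simp

theorem agiant_pois {m : ℕ} (hm : 1 ≤ m) {μ : ℝ} (hμ : 0 < μ) :
    exp (μ - (m - μ) ^ 2 / μ - 1) / m ≤ μ ^ m / m.factorial := by
  have h0 : (0 : ℝ) < m := by exact_mod_cast hm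
  have h1 : exp (1 - m / μ) ≤ μ / m := by
    have := one_sub_inv_le_log_of_pos (div_pos hμ h0)
    rw [inv_div] at this
    exact (exp_le_exp.2 this).trans_eq (exp_log (div_pos hμ h0))
  have h2 := mul_le_mul (pow_le_pow_left₀ (exp_pos _).le h1 m) (agiant_fact hm) (by positivity)
    (by positivity)
  rw [← exp_nat_mul, ← mul_div_assoc, ← exp_add] at h2
  have e1 : μ - (m - μ) ^ 2 / μ - 1 = m * (1 - m / μ) + (m - 1) := by
    field_simp
    ring
  rw [e1]
  refine h2.trans_eq ?_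
  rw [div_pow]
  field_simp

theorem agiant_tree (j : ℕ) :
    exp j / ((j : ℝ) + 1) ^ 2 ≤ ((j : ℝ) + 1) ^ (j - 1) / j.factorial := by
  have h := agiant_fact (n := j + 1) (by omega)
  have e : ((j : ℝ) + 1) ^ (j + 1) = ((j : ℝ) + 1) ^ (j - 1) * (j + 1) ^ 2 := by
    cases j with
    | zero => simp
    | succ j => rw [← pow_add]; rfl
  rw [Nat.factorial_succ, Nat.cast_mul, Nat.cast_succ, add_sub_cancel_right, e] at h
  have h1 := div_le_div_of_nonneg_right h (by positivity : (0 : ℝ) ≤ j + 1)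
  rw [div_div, ← sq] at h1
  refine h1.trans_eq ?_
  field_simp

theorem giant_lower {L u : ℝ} {b k : ℕ} (hL3 : exp 3 ≤ L) (hu0 : 0 ≤ u) (hu : u ≤ L)
    (hb : b + u = xc L⁻¹) (hk : 1 ≤ k) :
    exp (-(u * k / (L * (log L - 1))) - 3) / ((k + 1) ^ 3 * L) ≤
      L⁻¹ ^ (k + 1) * treeW 1 (1 + b) k / k.factorial := by
  have hL0 : 0 < L := (exp_pos 3).trans_le hL3
  have hl : 3 ≤ log L := (le_log_iff_exp_le hL0).2 hL3
  rw [xc_inv hL0] at hb
  obtain ⟨s, rfl⟩ : ∃ s, u = s * L := ⟨u / L, (div_mul_cancel₀ _ hL0.ne').symm⟩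
  have hs0 : 0 ≤ s := nonneg_of_mul_nonneg_left hu0 hL0
  have hs1 : s ≤ 1 := (mul_le_iff_le_one_left hL0).1 hu
  obtain ⟨a, ha⟩ : ∃ a, a = log L - 1 - s := ⟨_, rfl⟩
  have hb' : (b : ℝ) = a * L := by rw [ha]; linarith only [hb]
  have ha1 : 1 ≤ a := by linarith only [hl, hs1, ha]
  obtain ⟨j, hj⟩ : ∃ j, j = ⌊(k : ℝ) / (1 + a)⌋₊ := ⟨_, rfl⟩
  have j1 : (j : ℝ) ≤ k / (1 + a) := hj ▸ Nat.floor_le (by positivity)
  have j2 : (k : ℝ) / (1 + a) < j + 1 := hj ▸ Nat.lt_floor_add_one _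
  have j3 := (le_div_iff₀ (by positivity)).1 j1
  rw [div_lt_iff₀ (by positivity)] at j2
  have j0 : (0 : ℝ) ≤ j := j.cast_nonneg
  have k1 : (1 : ℝ) ≤ k := by exact_mod_cast hk
  have j4 : j < k := by
    have : (j : ℝ) < k := by linarith only [j3, k1, hl, hs1, ha, mul_nonneg_of_nonpos_of_nonpos (Mathlib.Tactic.Linarith.sub_nonpos_of_le (Mathlib.Tactic.Linarith.natCast_nonneg ℝ j)) (Mathlib.Tactic.Linarith.sub_nonpos_of_le hl), mul_nonneg_of_nonpos_of_nonpos (Mathlib.Tactic.Linarith.sub_nonpos_of_le (Mathlib.Tactic.Linarith.natCast_nonneg ℝ j)) (Mathlib.Tactic.Linarith.sub_nonpos_of_le hs1), Mathlib.Tactic.Linarith.mul_zero_eq (Mathlib.Tactic.Linarith.sub_nonpos_of_le (Mathlib.Tactic.Linarith.natCast_nonneg ℝ j)) (sub_eq_zero_of_eq ha)]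
    exact_mod_cast this
  obtain ⟨m, rfl⟩ : ∃ m, k = j + m := ⟨k - j, by omega⟩
  have m1 : 1 ≤ m := by omega
  have m0 : (0 : ℝ) < m := by exact_mod_cast m1
  have h1 := le_treeW (x := b) b.cast_nonneg (Nat.le_add_right j m)
  rw [Nat.add_sub_cancel_left] at h1
  have hμ : 0 < ((j : ℝ) + 1) * a := by positivity
  have h2 := mul_le_mul (agiant_tree j) (agiant_pois m1 hμ) (by positivity) (by positivity)
  have h3 : L⁻¹ ^ (j + 1) * (((j : ℝ) + 1) ^ (j - 1) / j.factorial *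
      ((((j : ℝ) + 1) * a) ^ m / m.factorial)) ≤
      L⁻¹ ^ (j + m + 1) * treeW 1 (1 + b) (j + m) / (j + m).factorial := by
    refine le_trans (le_of_eq ?_) (div_le_div_of_nonneg_right
      (mul_le_mul_of_nonneg_left h1 (by positivity)) (by positivity))
    rw [Nat.cast_add_choose, hb', ← mul_assoc ((j : ℝ) + 1), mul_pow _ L, inv_pow, inv_pow]
    field_simp
    ring
  refine le_trans ?_ ((mul_le_mul_of_nonneg_left h2 (by positivity)).trans h3)
  rw [Nat.cast_add] at j1 j2 j3 ⊢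
  have e1 : L⁻¹ ^ (j + 1) = exp ((j + 1) * -log L) := by
    rw [← Nat.cast_succ, exp_nat_mul, exp_neg, exp_log hL0]
  have e2 : s * L * (j + m) / (L * (log L - 1)) = s * ((j + m) / (log L - 1)) := by
    have : log L - 1 ≠ 0 := by linarith only [hl]
    field_simp
  have h4 : ((m : ℝ) - (j + 1) * a) ^ 2 / ((j + 1) * a) ≤ a := by
    rw [div_le_iff₀ hμ]
    have : ((m : ℝ) - (j + 1) * a) ^ 2 ≤ a ^ 2 := sq_le_sq' (by linarith only [j3]) (by linarith only [hl, hs1, ha, j2])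
    linarith only [this, j0, mul_nonneg j0 (sq_nonneg a), sq_nonneg a]
  have h5 : (j : ℝ) ≤ (j + m) / (log L - 1) :=
    j1.trans (div_le_div_of_nonneg_left (by positivity) (by linarith only [hl]) (by linarith only [hs1, ha]))
  have h6 := mul_le_mul_of_nonneg_left h5 hs0
  rw [e1, e2, div_mul_div_comm, ← exp_add, ← mul_div_assoc (exp _), ← exp_add, mul_comm _ L,
    ← div_div]
  refine div_le_div₀ (exp_pos _).le ?_ (by positivity) ?_
  · rw [div_le_iff₀ hL0]
    nth_rw 3 [← exp_log hL0]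
    rw [← exp_add, exp_le_exp]
    have e3 : log L = a + 1 + s := by linarith only [ha]
    generalize s * ((j + m) / (log L - 1)) = E at h6
    rw [e3]
    linarith only [h4, h6]
  · rw [pow_succ _ 2]
    exact mul_le_mul (pow_le_pow_left₀ (by positivity) (by linarith only [m0]) 2) (by linarith only []) m0.le
      (by positivity)

end Pool.Agent.Work.MP_5391ad_co
end
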