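import Pool.Agent.Work.MP_5391ad_co.MGr

/-! The Laplace sum over the number of row nodes.
`gauss_sum`: compare with the integral on unit intervals (the function is unimodal and at most
`1`, so sum and integral over `[x - H, x + H]` differ by at most `3`); Gaussian tail
`∫_{|u| ≥ H} e^{-k u^2/2} ≤ e^{-k H^2/4} ∫ e^{-k u^2/4}`.
`prof_quad`: as in `prof_le`; for `L ≥ ell`, `∂ prof ≤ n/L - n/ell ≤ -(L - ell)/(2 ell)` on
`[ell, 2 ell]`.
`prof_taylor`: `ℓ = ell N`, `d = L - ℓ`; `|d| ≤ ℓ^(3/5)/(log ℓ - 1)`; `prof'' = -N/L^2 - 2 log L/L`,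
`|prof'''| ≤ C log^2 ℓ/ℓ^2`; `xc L⁻¹ - xc ℓ⁻¹ = d log ξ`, `|log ξ - log ℓ| ≤ 2 ℓ^(-2/5)`;
`N log (1 - 1/L) = -N/L + O(N/L^2)`, `N/ℓ = log^2 ℓ - π^2/6`.
`outside`: `ev_PV`, `Ev.sum_le`, then the two cases of `vol_B0` (`volT_crude`, `freeT_crude`,
`quarter_le`; or `vol_up` with `η = 1/10`, `u = 1` and `prof_quad`, `|L - ℓ| ≥ ℓ^(3/5)/(4 log ℓ)`). -/

namespace Pool.Agent.Work.MP_5391ad_co

open Real Finset Filter PowerSeries
open scoped Classical

theorem clap_int {c : ℝ} (hc : 0 < c) (x : ℝ) :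
    MeasureTheory.Integrable (fun t : ℝ => exp (-c * (t - x) ^ 2)) ∧
      ∫ t : ℝ, exp (-c * (t - x) ^ 2) = √(π / c) :=
  ⟨(integrable_exp_neg_mul_sq hc).comp_sub_right x, by
    rw [MeasureTheory.integral_sub_right_eq_self (fun t : ℝ => exp (-c * t ^ 2)) x,
      integral_gaussian]⟩

theorem clap_up {c p q : ℝ} (hc : 0 < c) (x : ℝ) (h : p ≤ q) :
    ∫ t in p..q, exp (-c * (t - x) ^ 2) ≤ √(π / c) := by
  rw [intervalIntegral.integral_of_le h, ← (clap_int hc x).2]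
  exact MeasureTheory.setIntegral_le_integral (clap_int hc x).1
    (Eventually.of_forall fun t => (exp_pos _).le)

theorem clap_low {c c' E p q x : ℝ} (hc : 0 < c) (hc' : 0 < c') (hE : 0 ≤ E) (h : p ≤ q)
    (ht : ∀ t, t ∉ Set.Ioc p q → exp (-c * (t - x) ^ 2) ≤ E * exp (-c' * (t - x) ^ 2)) :
    √(π / c) - E * √(π / c') ≤ ∫ t in p..q, exp (-c * (t - x) ^ 2) := by
  rw [intervalIntegral.integral_of_le h, ← (clap_int hc x).2, ← (clap_int hc' x).2,
    ← MeasureTheory.integral_add_compl measurableSet_Ioc (clap_int hc x).1,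
    ← MeasureTheory.integral_const_mul]
  have h1 := ((clap_int hc' x).1.const_mul E)
  have h2 := MeasureTheory.setIntegral_mono_on (s := (Set.Ioc p q)ᶜ) (clap_int hc x).1.integrableOn
    h1.integrableOn measurableSet_Ioc.compl ht
  have h3 := MeasureTheory.setIntegral_le_integral (s := (Set.Ioc p q)ᶜ) h1
    (Eventually.of_forall fun t => by positivity)
  linarith

theorem clap_sum {a n : ℕ} (h : a ≤ n) (F : ℕ → ℝ) {g : ℝ → ℝ} (hg : Continuous g)
    (hF : ∀ j : ℕ, ∀ t : ℝ, |t - j| ≤ 1 → F j ≤ g t) :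
    ∑ j ∈ Ico a n, F j ≤ ∫ t in (a : ℝ)..n, g t := by
  rw [← intervalIntegral.sum_integral_adjacent_intervals_Ico (a := fun k : ℕ => (k : ℝ)) h
    fun k _ => hg.intervalIntegrable _ _]
  refine sum_le_sum fun j _ => ?_
  have h1 := intervalIntegral.integral_mono_on (μ := MeasureTheory.volume) (a := (j : ℝ))
    (b := ((j + 1 : ℕ) : ℝ)) (f := fun _ => F j) (g := g) (by push_cast; linarith)
    (continuous_const.intervalIntegrable _ _) (hg.intervalIntegrable _ _) fun t ht => hF j t (by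
      have h2 := ht.1
      have h3 := ht.2
      push_cast at h3
      rw [abs_le]
      constructor <;> linarith only [h2, h3])
  simpa using h1

theorem clap_sq {δ u v : ℝ} (h0 : 0 < δ) (h1 : δ ≤ 1) (h : |v - u| ≤ 1) :
    v ^ 2 ≤ (1 + δ) * u ^ 2 + 2 / δ := by
  have h2 : (v - u) ^ 2 ≤ 1 := by
    rw [← sq_abs]
    exact pow_le_one₀ (abs_nonneg _) h
  have h3 : δ * v ^ 2 ≤ δ * ((1 + δ) * u ^ 2) + 2 := by
    linarith only [h1, h2, h0, sq_nonneg (δ * u - (v - u)), mul_le_mul_of_nonneg_left h2 h0.le, sq_nonneg (δ * u - (v - u))]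
  rw [← sub_le_iff_le_add', le_div_iff₀ h0]
  linarith

theorem gauss_sum {ζ : ℝ} (hζ : 0 < ζ) : ∃ θ : ℝ, 0 < θ ∧ ∀ (k H x : ℝ) (M : ℕ), 0 < k → k ≤ θ →
    0 < H → θ⁻¹ ≤ k * H ^ 2 → H ≤ x → x + H < M →
    |(∑ j ∈ (range M).filter (fun j : ℕ => |(j : ℝ) - x| ≤ H), exp (-(k * ((j : ℝ) - x) ^ 2 / 2))) *
      √(k / (2 * π)) - 1| ≤ ζ := by
  obtain ⟨δ, d0, d1, d2⟩ : ∃ δ : ℝ, 0 < δ ∧ δ ≤ ζ / 4 ∧ δ ≤ 1 / 16 :=
    ⟨min (ζ / 4) (1 / 16), by positivity, min_le_left _ _, min_le_right _ _⟩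
  refine ⟨δ ^ 2, by positivity, fun k H x M k0 k1 H0 H1 hx hM => ?_⟩
  have e1 : (range M).filter (fun j : ℕ => |(j : ℝ) - x| ≤ H) = Ico ⌈x - H⌉₊ (⌊x + H⌋₊ + 1) := by
    clear * - x H M H0 hx hM
    ext j
    rw [mem_filter, mem_range, mem_Ico, Nat.lt_add_one_iff, Nat.ceil_le,
      Nat.le_floor_iff (by linarith), abs_le]
    constructor
    · rintro ⟨_, h1, h2⟩
      constructor <;> linarith only [h1, h2]
    · rintro ⟨h1, h2⟩
      exact ⟨Nat.cast_lt.1 (h2.trans_lt hM), by linarith, by linarith⟩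
  have e2 : ⌈x - H⌉₊ ≤ ⌊x + H⌋₊ + 1 :=
    Nat.ceil_le.2 (by push_cast; linarith only [H0, Nat.lt_floor_add_one (x + H)])
  have e2' : (⌈x - H⌉₊ : ℝ) ≤ (⌊x + H⌋₊ + 1 : ℕ) := Nat.cast_le.2 e2
  have kd : k / δ ≤ δ := by
    rw [div_le_iff₀ d0]
    linarith only [k1]
  have H2 : 1 ≤ δ ^ 2 * (k * H ^ 2) := by
    rwa [inv_le_iff_one_le_mul₀' (by positivity)] at H1
  have H3 : 2 ≤ H := by
    clear * - H δ d0 d2 H0 k k1 H2
    by_contra h
    have h1 : H ^ 2 ≤ 4 := by (refine le_of_not_gt fun h_nl => ?_; linarith only [h_nl, h, d0, d2, H0, mul_pos_of_neg_of_neg (Mathlib.Tactic.Linarith.sub_neg_of_lt d0) (Mathlib.Tactic.Linarith.sub_neg_of_lt h_nl), mul_nonneg_of_nonpos_of_nonpos (Mathlib.Tactic.Linarith.sub_nonpos_of_le d2) (le_of_lt (Mathlib.Tactic.Linarith.sub_neg_of_lt h_nl)), mul_pos_of_neg_of_neg (Mathlib.Tactic.Linarith.sub_neg_of_lt H0) (Mathlib.Tactic.Linarith.sub_neg_of_lt (lt_of_not_ge h))])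
    have h2 : δ ^ 2 ≤ 1 / 16 := by linarith only [d0, d2, mul_nonneg_of_nonpos_of_nonpos (le_of_lt (Mathlib.Tactic.Linarith.sub_neg_of_lt d0)) (Mathlib.Tactic.Linarith.sub_nonpos_of_le d2)]
    have h3 : k * H ^ 2 ≤ 1 := by linarith only [d0, d2, h1, k1, h2, mul_nonneg_of_nonpos_of_nonpos (Mathlib.Tactic.Linarith.sub_nonpos_of_le (sq_nonneg H)) (Mathlib.Tactic.Linarith.sub_nonpos_of_le k1), mul_nonneg_of_nonpos_of_nonpos (Mathlib.Tactic.Linarith.sub_nonpos_of_le (sq_nonneg H)) (Mathlib.Tactic.Linarith.sub_nonpos_of_le h2)]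
    linarith only [d0, d2, H2, h2, h3, mul_nonneg_of_nonpos_of_nonpos (Mathlib.Tactic.Linarith.sub_nonpos_of_le (sq_nonneg δ)) (Mathlib.Tactic.Linarith.sub_nonpos_of_le h3)]
  have sq : ∀ c : ℝ, 0 < c → √(π / c) * √(k / (2 * π)) = √(k / (2 * c)) := fun c hc => by
    rw [← sqrt_mul (by positivity)]
    congr 1
    field_simp
  have s0 : 0 ≤ √(k / (2 * π)) := sqrt_nonneg _
  rw [e1, abs_le]
  constructor
  · have c0 : 0 < k * (1 + δ) / 2 := by positivity
    have h1 := clap_sum e2 (fun j => -exp (-(k * ((j : ℝ) - x) ^ 2 / 2)))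
      (g := fun t => -exp (-δ) * exp (-(k * (1 + δ) / 2) * (t - x) ^ 2)) (by fun_prop)
      fun j t ht => by
        clear * - k j x δ t d0 d2 ht k0 kd
        rw [neg_mul, neg_le_neg_iff, ← exp_add, exp_le_exp]
        have h2 := mul_le_mul_of_nonneg_left (clap_sq (u := t - x) (v := j - x) d0 (by linarith only [d0, d2])
          (by rw [abs_sub_comm]; simpa using ht)) k0.le
        have h3 : k * (2 / δ) = 2 * (k / δ) := by ring
        linarith only [kd, h2, h3]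
    rw [intervalIntegral.integral_const_mul, sum_neg_distrib] at h1
    have h2 := clap_low (x := x) (E := exp (-(k * H ^ 2 / 16))) c0 (show 0 < k / 4 by positivity)
      (exp_pos _).le e2' fun t ht => by
        clear * - k δ t x H ht H3 hx d0 d2 H0 k0
        rw [← exp_add, exp_le_exp]
        have h3 : H / 2 ≤ |t - x| := by
          rw [Set.mem_Ioc, not_and_or, not_lt, not_le] at ht
          rcases ht with ht | ht
          · rw [abs_sub_comm]
            refine le_trans ?_ (le_abs_self _)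
            linarith only [H3, ht, hx, Nat.ceil_lt_add_one (show 0 ≤ x - H by linarith)]
          · refine le_trans ?_ (le_abs_self _)
            push_cast at ht
            linarith only [d0, d2, H3, ht, Nat.lt_floor_add_one (x + H)]
        have h4 := mul_le_mul_of_nonneg_left
          (pow_le_pow_left₀ (by positivity) h3 2) k0.le
        rw [sq_abs] at h4
        linarith only [h4, k0, d0, mul_nonneg (mul_pos k0 d0).le (sq_nonneg (t - x)), sq_nonneg (t - x)]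
    have h3 := mul_le_mul_of_nonneg_right h2 s0
    rw [sub_mul, mul_assoc, sq _ c0, sq _ (by positivity)] at h3
    have h4 : 1 - δ ≤ √(k / (2 * (k * (1 + δ) / 2))) := by
      clear * - δ k k0 d0 H d2 H2 k1
      refine le_sqrt_of_sq_le ?_
      rw [le_div_iff₀ (by positivity)]
      (refine le_of_not_gt fun h_nl => ?_; linarith only [h_nl, d2, H2, k0, d0, k1, mul_pos k0 d0, mul_pos (mul_pos k0 d0) d0, mul_pos (mul_pos (mul_pos k0 d0) d0) d0, mul_nonneg_of_nonpos_of_nonpos (Mathlib.Tactic.Linarith.sub_nonpos_of_le (sq_nonneg δ)) (Mathlib.Tactic.Linarith.sub_nonpos_of_le d2), mul_nonneg_of_nonpos_of_nonpos (Mathlib.Tactic.Linarith.sub_nonpos_of_le (sq_nonneg H)) (le_of_lt (Mathlib.Tactic.Linarith.sub_neg_of_lt h_nl)), mul_nonneg_of_nonpos_of_nonpos (Mathlib.Tactic.Linarith.sub_nonpos_of_le (sq_nonneg H)) (le_of_lt (Mathlib.Tactic.Linarith.sub_neg_of_lt (mul_pos k0 d0))), mul_nonneg_of_nonpos_of_nonpos (le_of_lt (Mathlib.Tactic.Linarith.sub_neg_of_lt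 d0)) (Mathlib.Tactic.Linarith.sub_nonpos_of_le d2), mul_nonneg_of_nonpos_of_nonpos (le_of_lt (Mathlib.Tactic.Linarith.sub_neg_of_lt d0)) (Mathlib.Tactic.Linarith.sub_nonpos_of_le k1), mul_nonneg_of_nonpos_of_nonpos (Mathlib.Tactic.Linarith.sub_nonpos_of_le d2) (Mathlib.Tactic.Linarith.sub_nonpos_of_le H2)])
    have h5 : √(k / (2 * (k / 4))) ≤ 2 := by
      clear * - k k0 δ d0 d2
      rw [sqrt_le_iff, div_le_iff₀ (by positivity)]
      constructor <;> linarith only [d0, d2, k0]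
    have h6 : exp (-(k * H ^ 2 / 16)) ≤ δ := by
      clear * - k H δ d2 H2 d0 k0 k1 H0
      rw [exp_neg, inv_le_iff_one_le_mul₀' (exp_pos _)]
      have h7 := add_one_le_exp (k * H ^ 2 / 16)
      have h8 : 1 ≤ δ * (k * H ^ 2 / 16) := by
        (refine le_of_not_gt fun h_nl => ?_; linarith only [h_nl, d2, H2, d0, mul_nonneg d0.le (mul_pos k0 (pow_pos H0 2)).le, mul_pos_of_neg_of_neg (Mathlib.Tactic.Linarith.sub_neg_of_lt d0) (Mathlib.Tactic.Linarith.sub_neg_of_lt h_nl)])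
      linarith only [h8, d2, d0, k0, k1, h7, mul_nonneg_of_nonpos_of_nonpos (Mathlib.Tactic.Linarith.sub_nonpos_of_le (sq_nonneg δ)) (Mathlib.Tactic.Linarith.sub_nonpos_of_le d2), mul_nonneg_of_nonpos_of_nonpos (le_of_lt (Mathlib.Tactic.Linarith.sub_neg_of_lt d0)) (Mathlib.Tactic.Linarith.sub_nonpos_of_le d2), mul_pos_of_neg_of_neg (Mathlib.Tactic.Linarith.sub_neg_of_lt d0) (Mathlib.Tactic.Linarith.sub_neg_of_lt k0), mul_nonneg_of_nonpos_of_nonpos (le_of_lt (Mathlib.Tactic.Linarith.sub_neg_of_lt d0)) (Mathlib.Tactic.Linarith.sub_nonpos_of_le k1), mul_nonneg_of_nonpos_of_nonpos (le_of_lt (Mathlib.Tactic.Linarith.sub_neg_of_lt d0)) (Mathlib.Tactic.Linarith.sub_nonpos_of_le h7)]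
    have h7 := add_one_le_exp (-δ)
    have h8 := mul_le_mul h6 h5 (sqrt_nonneg _) d0.le
    have h9 := mul_le_mul_of_nonneg_right h1 s0
    have h10 := mul_le_mul h7 ((show 1 - 3 * δ ≤ _ by clear * - δ k H h4 h8 h3 h7; linarith only [h4, h8]).trans h3) (by clear * - δ d0 d2 h3 h7; linarith only [d0, d2])
      (exp_pos _).le
    clear * - ζ x H k δ d1 k0 k1 h9 h10
    linarith only [d1, k0, k1, h9, h10]
  · have c0 : 0 < k / (2 * (1 + δ)) := by positivity
    have h1 := clap_sum e2 (fun j => exp (-(k * ((j : ℝ) - x) ^ 2 / 2)))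
      (g := fun t => exp δ * exp (-(k / (2 * (1 + δ))) * (t - x) ^ 2)) (by fun_prop)
      fun j t ht => by
        clear * - k j x δ t d0 d2 ht c0 k0 kd
        rw [← exp_add, exp_le_exp]
        have h2 := mul_le_mul_of_nonneg_left (clap_sq (u := j - x) (v := t - x) d0 (by linarith only [d0, d2])
          (by simpa using ht)) c0.le
        have h3 : k / (2 * (1 + δ)) * ((1 + δ) * (j - x) ^ 2 + 2 / δ) =
            k * (j - x) ^ 2 / 2 + k / δ / (1 + δ) := by
          field_simp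
        have h4 : k / δ / (1 + δ) ≤ k / δ := div_le_self (by positivity) (by linarith only [d0])
        linarith only [kd, h2, h3, h4]
    rw [intervalIntegral.integral_const_mul] at h1
    have h2 := mul_le_mul_of_nonneg_right (clap_up c0 x e2') s0
    rw [sq _ c0] at h2
    have h4 : √(k / (2 * (k / (2 * (1 + δ))))) ≤ 1 + δ := by
      clear * - k δ k0 d0 d2 k1
      have h5 : k / (2 * (k / (2 * (1 + δ)))) = 1 + δ := by field_simp
      rw [h5, sqrt_le_iff]
      constructor <;> linarith only [d0, d2, k0, k1]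
    have h5 := (abs_le.1 (abs_exp_sub_one_le (x := δ) (by rw [abs_of_pos d0]; linarith only [d0, d2]))).2
    rw [abs_of_pos d0] at h5
    have h6 := mul_le_mul_of_nonneg_right h1 s0
    have h7 := mul_le_mul (show exp δ ≤ 1 + 2 * δ by linarith only [h5]) (h2.trans h4)
      (mul_nonneg (intervalIntegral.integral_nonneg e2' fun t _ => (exp_pos _).le) s0) (by clear * - δ d0 d2 e2' s0; linarith only [d0, d2])
    clear * - x H k ζ δ d1 k0 k1 h6 h7 hζ d2 d0
    linarith only [d1, h6, h7, hζ, d0, d2, mul_pos_of_neg_of_neg (Mathlib.Tactic.Linarith.sub_neg_of_lt hζ) (Mathlib.Tactic.Linarith.sub_neg_of_lt d0), mul_nonneg_of_nonpos_of_nonpos (le_of_lt (Mathlib.Tactic.Linarith.sub_neg_of_lt hζ)) (Mathlib.Tactic.Linarith.sub_nonpos_of_le d2), mul_nonneg_of_nonpos_of_nonpos (le_of_lt (Mathlib.Tactic.Linarith.sub_neg_of_lt d0)) (Mathlib.Tactic.Linarith.sub_nonpos_of_le d1)]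

theorem clap_anti {n a b : ℝ} (hn : 30 ≤ n) (ha : ell n ≤ a) (h : a ≤ b) : prof n b ≤ prof n a := by
  have h0 := zero_lt_one.trans_le (aell_one (le_ell n))
  refine neg_le_neg_iff.1 (aell_mono (f := fun x => -prof n x) h
    (fun x hx => (aell_prof n (by linarith)).neg) fun x h1 _ => ?_)
  rw [neg_sub, sub_nonneg, ← div_eq_mul_inv, div_le_iff₀ (by linarith)]
  linarith only [ha, h1, hn, aell_incr (le_ell n) (ha.trans h1), ell_spec hn]

theorem clap_high {n L : ℝ} (hn : 30 ≤ n) (h : ell n ≤ L) (h' : L ≤ 2 * ell n) :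
    prof n L + (L - ell n) ^ 2 / (4 * ell n) ≤ prof n (ell n) := by
  have h00 := aell_one (le_ell n)
  have h0 := zero_lt_one.trans_le h00
  have h1 := aell_mono (f := fun x => -(prof n x + (x - ell n) ^ 2 / (4 * ell n))) h
    (fun x hx => ((aell_prof n (by linarith)).add
      ((((hasDerivAt_id x).sub_const (ell n)).pow 2).div_const _)).neg) fun x h1 h2 => by
      have h3 : 0 < x := by linarith
      have h4 : n / ell n ≤ log x ^ 2 - π ^ 2 / 6 := by
        rw [div_le_iff₀ h0]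
        linarith only [hn, h, h00, h1, h', aell_sq h00 h1, ell_spec hn, mul_nonneg_of_nonpos_of_nonpos (Mathlib.Tactic.Linarith.sub_nonpos_of_le h) (Mathlib.Tactic.Linarith.sub_nonpos_of_le (aell_sq h00 h1)), mul_nonneg_of_nonpos_of_nonpos (Mathlib.Tactic.Linarith.sub_nonpos_of_le h') (Mathlib.Tactic.Linarith.sub_nonpos_of_le (aell_sq h00 h1))]
      have h5 : n / ell n - n * x⁻¹ - (x - ell n) / (2 * ell n) =
          (2 * n - x) * (x - ell n) / (2 * x * ell n) := by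
        field_simp
      have h6 : 0 ≤ (2 * n - x) * (x - ell n) / (2 * x * ell n) :=
        div_nonneg (mul_nonneg (by linarith only [h', h2, hn, ell_le hn]) (by linarith only [h1])) (by positivity)
      have h7 : ((2 : ℕ) : ℝ) * (id x - ell n) ^ (2 - 1) * 1 / (4 * ell n) =
          (x - ell n) / (2 * ell n) := by
        simp only [id]
        field_simp
        ring
      rw [h7]
      linarith only [h4, h5, h6]
  simpa using h1

theorem prof_quad {n L : ℝ} (hn : 30 ≤ n) (hL1 : 1 ≤ L) :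
    prof n L - kappa * L ^ (1 / 3 : ℝ) ≤
      FF n + kappa ^ 2 - min ((L - ell n) ^ 2) (ell n ^ 2) / (4 * ell n) := by
  have hk := kappa_pos
  have h0 := zero_lt_one.trans_le (aell_one (le_ell n))
  have m1 : min ((L - ell n) ^ 2) (ell n ^ 2) / (4 * ell n) ≤ (L - ell n) ^ 2 / (4 * ell n) :=
    div_le_div_of_nonneg_right (min_le_left _ _) (by positivity)
  have m2 : min ((L - ell n) ^ 2) (ell n ^ 2) / (4 * ell n) ≤ ell n ^ 2 / (4 * ell n) :=
    div_le_div_of_nonneg_right (min_le_right _ _) (by positivity)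
  rw [FF_eq hn]
  rcases le_total L (ell n) with h | h
  · have h1 := aell_low hn hL1 h
    obtain ⟨a1, a2⟩ := aell_cube (hL1.trans h)
    obtain ⟨b1, b2⟩ := aell_cube hL1
    have h2 := rpow_le_rpow (zero_le_one.trans hL1) h (show (0 : ℝ) ≤ 1 / 3 by norm_num)
    generalize ell n ^ (1 / 3 : ℝ) = a at *
    generalize L ^ (1 / 3 : ℝ) = b at *
    have h3 : (a - b) ^ 2 / 4 ≤ (L - ell n) ^ 2 / (4 * ell n) := by
      clear * - a b n L a2 b2 h2 a1 b1 h0
      have h4 : (a - b) * a ^ 2 ≤ ell n - L := by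
        rw [← a2, ← b2]
        linarith only [h2, a1, b1, mul_nonneg (sub_nonneg.2 h2) (show 0 ≤ a * b + b ^ 2 by positivity)]
      have h5 := pow_le_pow_left₀ (mul_nonneg (sub_nonneg.2 h2) (sq_nonneg a)) h4 2
      have h6 : (a - b) ^ 2 * a ^ 3 ≤ (a - b) ^ 2 * a ^ 4 :=
        mul_le_mul_of_nonneg_left (pow_le_pow_right₀ a1 (by norm_num)) (sq_nonneg _)
      rw [div_le_div_iff₀ four_pos (by linarith)]
      rw [a2] at h6
      linarith only [h5, h6]
    have h4 : (ell n - L) ^ 2 / (2 * ell n) = 2 * ((L - ell n) ^ 2 / (4 * ell n)) := by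
      field_simp
      ring
    linarith only [m1, h1, h3, h4, sq_nonneg (kappa - (a - b) / 2), sq_nonneg ((2 : ℝ) * kappa - ((1 : ℝ) * a - (1 : ℝ) * b))]
  · have h2 := mul_le_mul_of_nonneg_left (rpow_le_rpow h0.le h
      (show (0 : ℝ) ≤ 1 / 3 by norm_num)) hk.le
    rcases le_total L (2 * ell n) with h3 | h3
    · linarith only [m1, h2, hn, h, h3, clap_high hn h h3, sq_nonneg kappa]
    · have h4 := clap_high hn (show ell n ≤ 2 * ell n by linarith only [h0]) le_rfl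
      rw [show 2 * ell n - ell n = ell n by ring] at h4
      linarith only [m2, h2, h4, hn, h0, h3, clap_anti hn (show ell n ≤ 2 * ell n by linarith) h3, sq_nonneg kappa]

/-- the curvature in the number of row nodes -/
noncomputable def curv (n : ℝ) : ℝ :=
  (n / ell n ^ 2 + 2 * log (ell n) / ell n) / log (ell n) ^ 2

theorem clap_curv {n : ℝ} (hn : 30 ≤ n) :
    curv n = (log (ell n) ^ 2 - π ^ 2 / 6 + 2 * log (ell n)) / (ell n * log (ell n) ^ 2) := by
  have h0 := zero_lt_one.trans_le (aell_one (le_ell n))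
  have h1 := aell_log (le_ell n)
  have h2 : n / ell n ^ 2 = (log (ell n) ^ 2 - π ^ 2 / 6) / ell n := by
    rw [div_eq_div_iff (by positivity) h0.ne']
    linear_combination -ell n * ell_spec hn
  rw [curv, h2]
  field_simp

theorem curv_lim : Tendsto (fun n : ℝ => curv n * ell n) atTop (nhds 1) := by
  have h := (tendsto_log_atTop.comp tendsto_ell).inv_tendsto_atTop
  have h1 := (((h.pow 2).const_mul (π ^ 2 / 6)).const_sub 1).add (h.const_mul 2)
  simp only [ne_eq, OfNat.ofNat_ne_zero, not_false_eq_true, zero_pow, mul_zero, sub_zero,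
    add_zero] at h1
  refine h1.congr' ?_
  filter_upwards [eventually_ge_atTop 30] with n hn
  have h0 := zero_lt_one.trans_le (aell_one (le_ell n))
  have h2 := aell_log (le_ell n)
  have h3 : 0 < log (ell n) := by linarith only [h2]
  rw [clap_curv hn]
  simp only [Pi.inv_apply, Function.comp]
  field_simp

theorem clap_mul {a b A B : ℝ} (ha : |a| ≤ A) (hb : |b| ≤ B) : |a * b| ≤ A * B := by
  rw [abs_mul]
  exact mul_le_mul ha hb (abs_nonneg _) ((abs_nonneg _).trans ha)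

theorem clap_alg {l p u s ε : ℝ} (hl : 2 ≤ l) (p0 : 0 ≤ p) (p1 : p ≤ 2) (hu : |u| ≤ ε)
    (he : ε ≤ 1 / 2) (hs : |s - u + u ^ 2 / 2| ≤ 2 * ε ^ 3) :
    |(l ^ 2 - p) * s - ((1 + u) * ((l + s) ^ 2 - 2 * (l + s) + 2 - p) - (l ^ 2 - 2 * l + 2 - p)) +
      (l ^ 2 - p + 2 * l) / l ^ 2 * ((1 + u) * (l + s - 1) - (l - 1)) ^ 2 / 2| ≤
      16 * (l ^ 2 * ε ^ 3) := by
  have e0 : 0 ≤ ε := (abs_nonneg _).trans hu
  have l0 : 0 < l := by linarith only [hl]
  have hl' : |l| ≤ l := (abs_of_pos l0).le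
  obtain ⟨r, rfl⟩ : ∃ r, s = u - u ^ 2 / 2 + r := ⟨s - u + u ^ 2 / 2, by ring⟩
  rw [show u - u ^ 2 / 2 + r - u + u ^ 2 / 2 = r by ring] at hs
  have f3 : ε ^ 3 ≤ ε ^ 2 / 2 := by clear * - ε he; linarith only [he, sq_nonneg ε, mul_nonneg_of_nonpos_of_nonpos (Mathlib.Tactic.Linarith.sub_nonpos_of_le (sq_nonneg ε)) (Mathlib.Tactic.Linarith.sub_nonpos_of_le he)]
  have f2 : ε ^ 2 ≤ ε / 2 := by linarith only [he, e0, mul_nonneg_of_nonpos_of_nonpos (Mathlib.Tactic.Linarith.sub_nonpos_of_le he) (Mathlib.Tactic.Linarith.sub_nonpos_of_le e0)]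
  have f4 : ε ^ 4 ≤ ε ^ 3 / 2 := by clear * - ε f2 e0; linarith only [f2, pow_nonneg e0 3, mul_nonneg_of_nonpos_of_nonpos (Mathlib.Tactic.Linarith.sub_nonpos_of_le (sq_nonneg ((1 : ℝ) * ε))) (Mathlib.Tactic.Linarith.sub_nonpos_of_le f2)]
  have e2 := pow_nonneg e0 2
  have e3 := pow_nonneg e0 3
  have g1 : ε ^ 3 * 4 ≤ l ^ 2 * ε ^ 3 := by
    clear * - ε l hl e3
    linarith only [hl, e3, mul_le_mul_of_nonneg_right (show 4 ≤ l ^ 2 by nlinarith) e3]
  have g2 : l * ε ^ 3 * 2 ≤ l ^ 2 * ε ^ 3 := by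
    linarith only [hl, l0, e3, mul_le_mul_of_nonneg_right hl (mul_nonneg l0.le e3)]
  have g3 : 2 * l ≤ l ^ 2 := by clear * - l hl; nlinarith
  have u2 := abs_le.1 (clap_mul hu hu)
  have u3 := abs_le.1 (clap_mul (clap_mul hu hu) hu)
  have ur := abs_le.1 (clap_mul hu hs)
  have r1 := abs_le.1 hs
  have u1 := abs_le.1 hu
  have a1 : |r - u ^ 3 / 2 + u * r| ≤ 4 * ε ^ 3 := abs_le.2 ⟨by linarith only [f4, e3, u3, ur, r1], by linarith only [f4, e3, u3, ur, r1]⟩
  obtain ⟨y, hy⟩ : ∃ y, y = r - u ^ 3 / 2 + u * r := ⟨_, rfl⟩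
  rw [← hy] at a1
  have y1 := abs_le.1 a1
  have a2 : |u ^ 2 / 2 + y| ≤ 3 * ε ^ 2 := abs_le.2 ⟨by clear * - ε u y r f3 f4 e2 u2 u3 ur r1 hy; linarith only [f3, f4, e2, u2, u3, ur, r1, hy], by linarith only [f3, f4, e3, u2, u3, ur, r1, hy]⟩
  have a3 : |r - u ^ 2 / 2| ≤ 2 * ε ^ 2 := abs_le.2 ⟨by linarith only [f3, e2, u2, r1], by linarith only [f3, e3, u2, r1]⟩
  have a4 : |u - u ^ 2 / 2 + r| ≤ 2 * ε := abs_le.2 ⟨by linarith only [e0, f3, f2, u2, r1, u1], by linarith only [e0, f3, f2, u2, r1, u1]⟩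
  have a5 : |2 * u - u ^ 2 / 2 + r| ≤ 3 * ε := abs_le.2 ⟨by clear * - ε u r e0 f3 f2 u2 r1 u1; linarith only [e0, f3, f2, u2, r1, u1], by clear * - u r ε e0 f3 f2 u2 r1 u1; linarith only [e0, f3, f2, u2, r1, u1]⟩
  have b1 := abs_le.1 (clap_mul (show |l ^ 2 - p| ≤ l ^ 2 from
    abs_le.2 ⟨by linarith only [hl, p1, g3], by linarith only [p0]⟩) hs)
  have b2 := abs_le.1 (clap_mul hl' a1)
  have b3 := abs_le.1 (clap_mul a3 a5)
  have b4 := abs_le.1 (clap_mul hu (clap_mul a4 a4))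
  have c1 := abs_le.1 (clap_mul (clap_mul hu hl') a2)
  have c2 := abs_le.1 (clap_mul a2 a2)
  have c3 : |2 * (u * l * (u ^ 2 / 2 + y)) + (u ^ 2 / 2 + y) * (u ^ 2 / 2 + y)| ≤
      5 * (l ^ 2 * ε ^ 3) := abs_le.2 ⟨by clear * - l ε u y f4 e3 g1 g2 c1 c2; linarith only [f4, e3, g1, g2, c1, c2], by clear * - u l y ε f4 e3 g1 g2 c1 c2; linarith only [f4, e3, g1, g2, c1, c2]⟩
  have c4 : |(l ^ 2 - p + 2 * l) / l ^ 2 / 2| ≤ 1 := by
    clear * - l p hl p1 g3 p0
    rw [div_div, abs_of_nonneg (div_nonneg (by linarith) (by positivity)),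
      div_le_one (by positivity)]
    linarith
  have b5 := abs_le.1 (clap_mul c4 c3)
  have key : (l ^ 2 - p) * (u - u ^ 2 / 2 + r) - ((1 + u) * ((l + (u - u ^ 2 / 2 + r)) ^ 2 -
      2 * (l + (u - u ^ 2 / 2 + r)) + 2 - p) - (l ^ 2 - 2 * l + 2 - p)) +
      (l ^ 2 - p + 2 * l) / l ^ 2 * ((1 + u) * (l + (u - u ^ 2 / 2 + r) - 1) - (l - 1)) ^ 2 / 2 =
      (l ^ 2 - p) * r - 2 * (l * y) - (r - u ^ 2 / 2) * (2 * u - u ^ 2 / 2 + r) -
        u * ((u - u ^ 2 / 2 + r) * (u - u ^ 2 / 2 + r)) + 2 * y + (l ^ 2 - p + 2 * l) / l ^ 2 / 2 *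
        (2 * (u * l * (u ^ 2 / 2 + y)) + (u ^ 2 / 2 + y) * (u ^ 2 / 2 + y)) := by
    clear * - l p u r y hy hl
    rw [hy]
    field_simp
    ring
  rw [key, abs_le]
  constructor <;> linarith only [f4, e3, g1, g2, u3, ur, r1, hy, b1, b2, b3, b4, b5]

theorem clap_xc {a b : ℝ} (ha : 0 < a) (hb : 0 < b) : xc b⁻¹ - xc a⁻¹ ≤ (b - a) * log b := by
  have h := mul_le_mul_of_nonneg_left (log_le_sub_one_of_pos (div_pos hb ha)) ha.le
  rw [log_div hb.ne' ha.ne', mul_sub a (b / a), mul_div_cancel₀ _ ha.ne'] at h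
  rw [xc_inv ha, xc_inv hb]
  linarith

theorem clap_near {a b : ℝ} (ha : exp 1 ≤ a) (hb : exp 1 ≤ b) : |b - a| ≤ |xc b⁻¹ - xc a⁻¹| := by
  wlog h : a ≤ b generalizing a b
  · rw [abs_sub_comm, abs_sub_comm (xc _)]
    exact this hb ha (not_le.1 h).le
  have h1 := clap_xc ((exp_pos 1).trans_le hb) ((exp_pos 1).trans_le ha)
  rw [abs_of_nonneg (sub_nonneg.2 h)]
  refine le_trans ?_ (le_abs_self _)
  linarith only [h1, ha, h, mul_le_mul_of_nonneg_left (ab0_log ha) (sub_nonneg.2 h)]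

theorem clap_log2 {c s : ℝ} (hc : 0 < c) (hs : 0 < s) :
    ∀ᶠ x : ℝ in atTop, log x ^ 2 ≤ c * x ^ s := by
  filter_upwards [(isLittleO_log_rpow_rpow_atTop 2 hs).bound hc, eventually_ge_atTop 0]
    with x h hx
  rwa [rpow_two, norm_of_nonneg (sq_nonneg _), norm_of_nonneg (rpow_nonneg hx _)] at h

theorem clap_pw {x : ℝ} (hx : 0 ≤ x) (a : ℝ) (k : ℕ) {b : ℝ} (h : a * k = b) :
    (x ^ a) ^ k = x ^ b := by
  rw [← rpow_natCast, ← rpow_mul hx, h]

theorem clap_e1 {v : ℝ} (v0 : 0 < v) (v3 : v ≤ 1 / 2) : |v + log (1 - v)| ≤ 2 * v ^ 2 := by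
  have h := abs_log_sub_add_sum_range_le (x := v) (by rw [abs_of_pos v0]; linarith only [v0, v3]) 1
  rw [abs_of_pos v0] at h
  refine (le_of_eq ?_).trans (h.trans ?_)
  · simp
  · rw [div_le_iff₀ (by linarith only [v0, v3]), one_add_one_eq_two]
    linarith only [v3, mul_le_mul_of_nonneg_left v3 (sq_nonneg v)]

theorem clap_e2 {u ε : ℝ} (hu : |u| ≤ ε) (he : ε ≤ 1 / 2) :
    |log (1 + u) - u + u ^ 2 / 2| ≤ 2 * ε ^ 3 := by
  have h := abs_log_sub_add_sum_range_le (x := -u) (by rw [abs_neg]; linarith only [hu, he]) 2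
  rw [abs_neg, sub_neg_eq_add] at h
  refine (le_of_eq ?_).trans (h.trans ?_)
  · congr 1
    simp only [sum_range_succ, sum_range_zero]
    push_cast
    ring
  · rw [div_le_iff₀ (by linarith only [hu, he])]
    have h1 : |u| ^ (2 + 1) ≤ ε ^ 3 := pow_le_pow_left₀ (abs_nonneg _) hu 3
    linarith only [h1, hu, he, mul_le_mul_of_nonneg_left (hu.trans he) (pow_nonneg ((abs_nonneg _).trans hu) 3)]

theorem clap_e3 {u : ℝ} (u0 : 0 ≤ 1 + u) : |(1 + u) ^ (1 / 3 : ℝ) - 1| ≤ |u| := by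
  have h1 := clap_pw u0 (1 / 3) 3 (b := 1) (by norm_num)
  have h2 := rpow_nonneg u0 (1 / 3)
  rw [rpow_one] at h1
  generalize (1 + u) ^ (1 / 3 : ℝ) = y at *
  rw [show u = (y - 1) * (y ^ 2 + y + 1) by linear_combination -h1, abs_mul,
    abs_of_nonneg (show 0 ≤ y ^ 2 + y + 1 by positivity)]
  exact le_mul_of_one_le_right (abs_nonneg _) (by linarith [sq_nonneg y])

theorem prof_taylor {ζ : ℝ} (hζ : 0 < ζ) : ∀ᶠ N : ℕ in atTop, ∀ L : ℝ, exp 1 ≤ L →
    |xc L⁻¹ - xc (ell N)⁻¹| ≤ ell N ^ (3 / 5 : ℝ) → |L - ell N| ≤ ell N ^ (3 / 5 : ℝ) ∧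
    |N * log (L - 1) - hL L - kappa * L ^ (1 / 3 : ℝ) - (FF N - log (ell N) ^ 2 + π ^ 2 / 6 -
      curv N * (xc L⁻¹ - xc (ell N)⁻¹) ^ 2 / 2)| ≤ ζ := by
  have hk := kappa_pos
  have hT := (tendsto_rpow_atTop (show (0 : ℝ) < 1 / 15 by norm_num)).comp tendsto_ell
  filter_upwards [tendsto_natCast_atTop_atTop.eventually ((eventually_ge_atTop 30).and
    ((tendsto_ell.eventually (clap_log2 (show 0 < ζ / 60 by positivity)
      (show (0 : ℝ) < 1 / 15 by norm_num))).and ((hT.eventually_ge_atTop 2).and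
      (hT.eventually_ge_atTop (2 * kappa / ζ)))))] with N ⟨hN, t1, t2, t3⟩ L hL1 hx
  have hd := (clap_near ((exp_le_exp.2 one_le_two).trans (le_ell N)) hL1).trans hx
  refine ⟨hd, ?_⟩
  have L0 := (exp_pos 1).trans_le hL1
  have l0 := (exp_pos 2).trans_le (le_ell N)
  have l2 := aell_log (le_ell N)
  have hs := ell_spec hN
  have hp := aell_pi
  rw [FF_eq hN, clap_curv hN, xc_inv L0, xc_inv l0, prof, hL]
  simp only [Function.comp] at t2 t3
  generalize ell N = l at *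
  generalize (N : ℝ) = n at *
  generalize π ^ 2 / 6 = p at *
  have p15 := clap_pw l0.le (1 / 15) 15 (b := 1) (by norm_num)
  have p9 := clap_pw l0.le (1 / 15) 9 (b := 3 / 5) (by norm_num)
  have p5 := clap_pw l0.le (1 / 15) 5 (b := 1 / 3) (by norm_num)
  rw [rpow_one] at p15
  rw [← p9] at hd
  generalize l ^ (1 / 15 : ℝ) = T at *
  have T0 : 0 < T := by linarith only [t2]
  obtain ⟨u, rfl⟩ : ∃ u, L = l * (1 + u) := ⟨(L - l) / l, by field_simp; ring⟩
  obtain ⟨ε, hε⟩ : ∃ ε, ε = (T ^ 6)⁻¹ := ⟨_, rfl⟩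
  have e1 : ε * T ^ 6 = 1 := by
    rw [hε]
    field_simp
  have e0 : 0 < ε := by
    rw [hε]
    positivity
  have hu : |u| ≤ ε := by
    rw [show l * (1 + u) - l = l * u by ring, abs_mul, abs_of_pos l0, ← p15] at hd
    refine le_of_mul_le_mul_left (hd.trans_eq ?_) (pow_pos T0 15)
    linear_combination -T ^ 9 * e1
  have e2 : ε * T ≤ 1 :=
    (mul_le_mul_of_nonneg_left (le_self_pow₀ (by linarith only [t2]) (by norm_num)) e0.le).trans_eq e1
  have e3 : ε ≤ 1 / 2 := by linarith only [e2, t2, e0, mul_le_mul_of_nonneg_left t2 e0.le]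
  have u1 := abs_le.1 hu
  have u0 : 0 < 1 + u := by linarith only [e0, e3, u1]
  have A := clap_mul (abs_of_pos l0).le (clap_alg l2 (by linarith only [hp, e0, e3]) hp.2 hu e3 (clap_e2 hu e3))
  have lT : T ≤ l := by
    clear * - T l p15 ε t2 e0 e3
    rw [← p15]
    exact le_self_pow₀ (by linarith only [t2, e0, e3]) (by norm_num)
  have l8 : 8 ≤ l := by
    rw [← p15]
    exact le_trans (by norm_num) (pow_le_pow_left₀ zero_le_two t2 15)
  obtain ⟨v, hv⟩ : ∃ v, v = (l * (1 + u))⁻¹ := ⟨_, rfl⟩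
  have v0 : 0 < v := hv ▸ inv_pos.2 L0
  have v1 : v * (l * (1 + u)) = 1 := hv ▸ inv_mul_cancel₀ L0.ne'
  have v2 : v * l ≤ 2 := by
    clear * - v l u v1 ε e3 u1 v0 l0
    linarith only [v1, e3, u1, v0, l0, mul_le_mul_of_nonneg_left (show 1 / 2 ≤ 1 + u by linarith) (mul_pos v0 l0).le]
  have v3 : v ≤ 1 / 2 := by linarith only [e0, e3, v2, l8, v0, mul_le_mul_of_nonneg_left l8 v0.le]
  have hs2 := clap_e1 v0 v3
  have q1 : log (l * (1 + u) - 1) = log l + log (1 + u) + log (1 - v) := by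
    clear * - l u v l0 u0 L0 ε e0 e3 v3 v1
    rw [← log_mul l0.ne' u0.ne', ← log_mul L0.ne' (by linarith only [e0, e3, v3])]
    congr 1
    linear_combination v1
  have q2 := (clap_e3 u0.le).trans hu
  rw [q1, log_mul l0.ne' u0.ne', mul_rpow l0.le u0.le, ← p5]
  generalize (1 + u) ^ (1 / 3 : ℝ) = y at *
  generalize log (1 + u) = s at *
  generalize log (1 - v) = w at *
  generalize log l = a at *
  have a0 : 0 < a := by clear * - a ε e0 e3 l2; linarith only [e0, e3, l2]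
  have a1 : |a ^ 2 - p| ≤ a ^ 2 :=
    abs_le.2 ⟨by clear * - a p ε hp e0 e3 l2; linarith only [hp, e0, e3, l2, pow_le_pow_left₀ zero_le_two l2 2], by linarith only [hp, e0, e3]⟩
  have B := clap_mul (clap_mul (abs_of_pos l0).le a1) hs2
  have C := clap_mul (clap_mul a1 (show |v * l| ≤ 2 by rwa [abs_of_pos (mul_pos v0 l0)])) hu
  have D := clap_mul (abs_of_pos (mul_pos hk (pow_pos T0 5))).le q2
  have key : n * (a + s + w) - l * (1 + u) * ((a + s) ^ 2 - 2 * (a + s) + 2 - p) -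
      kappa * (T ^ 5 * y) - (n * a - l * (a ^ 2 - 2 * a + 2 - p) - kappa * T ^ 5 - a ^ 2 + p -
      (a ^ 2 - p + 2 * a) / (l * a ^ 2) * (l * (1 + u) * (a + s - 1) - l * (a - 1)) ^ 2 / 2) =
      l * ((a ^ 2 - p) * s - ((1 + u) * ((a + s) ^ 2 - 2 * (a + s) + 2 - p) -
        (a ^ 2 - 2 * a + 2 - p)) + (a ^ 2 - p + 2 * a) / a ^ 2 *
        ((1 + u) * (a + s - 1) - (a - 1)) ^ 2 / 2) + l * (a ^ 2 - p) * (v + w) +
        (a ^ 2 - p) * (v * l) * u - kappa * T ^ 5 * (y - 1) := by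
    clear * - a p l u s l0 l2 n w T y v hs v1
    have h : (a ^ 2 - p + 2 * a) / (l * a ^ 2) * (l * (1 + u) * (a + s - 1) - l * (a - 1)) ^ 2 =
        l * ((a ^ 2 - p + 2 * a) / a ^ 2 * ((1 + u) * (a + s - 1) - (a - 1)) ^ 2) := by
      field_simp
    rw [h, ← hs]
    linear_combination -(a ^ 2 - p) * v1
  have w1 : l * ε ^ 3 * T ≤ 1 := by
    clear * - l ε T p15 hε t2 l0 e0 e3
    have h : l * ε ^ 3 * T * T ^ 2 = 1 := by
      rw [← p15, hε]
      field_simp
    exact (le_mul_of_one_le_right (by positivity) (one_le_pow₀ (by linarith only [t2, e0, e3]))).trans_eq h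
  have w2 : l * v ^ 2 * T ≤ 4 := by
    clear * - l v T lT l0 v0 v2
    have h := mul_le_mul_of_nonneg_left lT (show 0 ≤ l * v ^ 2 by positivity)
    linarith [pow_le_pow_left₀ (mul_pos v0 l0).le v2 2]
  have w3 : kappa * T ^ 5 * ε ≤ ζ / 2 := by
    clear * - T ε ζ hζ t3 e1 T0
    rw [div_le_iff₀ hζ] at t3
    refine le_of_mul_le_mul_right ?_ T0
    linarith only [t3, e1, show kappa * T ^ 5 * ε * T = kappa by linear_combination kappa * e1]
  have w4 : l * (16 * (a ^ 2 * ε ^ 3)) + l * a ^ 2 * (2 * v ^ 2) + a ^ 2 * 2 * ε ≤ ζ / 2 := by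
    clear * - T l a ε v ζ t1 w1 w2 e2 T0
    refine le_of_mul_le_mul_right ?_ T0
    linarith only [t1, w1, w2, e2, mul_le_mul_of_nonneg_left w1 (sq_nonneg a), mul_le_mul_of_nonneg_left w2 (sq_nonneg a),
      mul_le_mul_of_nonneg_left e2 (sq_nonneg a), sq_nonneg a]
  rw [key, abs_le]
  rw [abs_le] at A B C D
  constructor <;> linarith only [A, B, C, D, w3, w4, A.1, A.2, B.1, B.2, C.1, C.2, D.1, D.2]

theorem clap_coeff {L : ℝ} {b : ℕ} (hL1 : 1 < L) (hb : (b : ℝ) < xc L⁻¹) (N : ℕ) :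
    coeff N (PV b) ≤ L ^ N * VolT L⁻¹ 0 0 b := by
  have h0 := sub_pos.2 hL1
  have h1 := ev_PV hL1 hb
  have h2 := h1.sum_le (inv_pos.2 h0).le {N}
  rw [sum_singleton, inv_pow, mul_inv_le_iff₀ (pow_pos h0 N), mul_comm] at h2
  exact h2.trans (mul_le_mul_of_nonneg_right (pow_le_pow_left₀ h0.le (by linarith only []) N)
    (h1.nonneg (inv_pos.2 h0).le))

theorem clap_far {a b : ℝ} (ha : exp 2 ≤ a) (hb : 1 ≤ b) (h : b ≤ 2 * a) :
    |xc b⁻¹ - xc a⁻¹| ≤ |b - a| * (2 * log a) := by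
  have a0 := (exp_pos 2).trans_le ha
  have b0 := zero_lt_one.trans_le hb
  have a2 := aell_log ha
  have h1 : log b ≤ 2 * log a := by
    have h2 := log_le_log b0 h
    rw [log_mul two_ne_zero a0.ne'] at h2
    linarith only [a2, h2, log_two_lt_d9]
  have h2 := (abs_le.1 (clap_mul (le_refl |b - a|)
    ((abs_of_nonneg (log_nonneg hb)).trans_le h1))).2
  have h3 := (abs_le.1 (clap_mul (le_refl |b - a|) (show |log a| ≤ 2 * log a by
    rw [abs_of_nonneg] <;> linarith only [a2]))).1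
  rw [abs_le]
  constructor <;> linarith only [h3, b0, a0, h2, clap_xc a0 b0, clap_xc b0 a0]

theorem outside : ∀ᶠ N : ℕ in atTop, ∀ b ≤ N,
    ell N ^ (3 / 5 : ℝ) - 3 ≤ |(b : ℝ) - xc (ell N)⁻¹| →
    coeff N (PV b) ≤ exp (FF N - ell N ^ (1 / 6 : ℝ)) := by
  obtain ⟨η', h1, C1, hC, h2⟩ := vol_up (show (0 : ℝ) < 1 / 10 by norm_num)
  obtain ⟨C0, h3⟩ := volT_crude
  obtain ⟨L1, h2⟩ := eventually_atTop.1 h2
  obtain ⟨K, hK⟩ : ∃ K, K = kappa ^ 2 + C1 + 7 := ⟨_, rfl⟩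
  have K1 : 7 ≤ K := by linarith only [hC, hK, sq_nonneg kappa]
  have hT := (tendsto_rpow_atTop (show (0 : ℝ) < 1 / 30 by norm_num)).comp tendsto_ell
  filter_upwards [tendsto_natCast_atTop_atTop.eventually ((ab0_pick L1).and (quarter_le.and
    ((tendsto_ell.eventually (clap_log2 (show 0 < (64 * K)⁻¹ by positivity)
      (show (0 : ℝ) < 1 / 30 by norm_num))).and ((hT.eventually_ge_atTop (4 * K)).and
      (eventually_ge_atTop (16 * |C0|))))))]
    with N ⟨⟨a1, a2, a3, a4, a5⟩, b1, b2, b3, b4⟩ b hb hx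
  have hb' : (b : ℝ) ≤ N := Nat.cast_le.2 hb
  have l2 := le_ell N
  have l0 := (exp_pos 2).trans_le l2
  have h8 := (exp_pos 1).trans_le a3
  have h9 : 1 < ell N / 4 := by clear * - N a3; linarith only [a3, add_one_le_exp (1 : ℝ)]
  have p30 := clap_pw l0.le (1 / 30) 30 (b := 1) (by norm_num)
  have p18 := clap_pw l0.le (1 / 30) 18 (b := 3 / 5) (by norm_num)
  have p5 := clap_pw l0.le (1 / 30) 5 (b := 1 / 6) (by norm_num)
  simp only [Function.comp] at b3
  rw [rpow_one] at p30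
  rw [← p18] at hx
  rw [← p5]
  generalize ell N ^ (1 / 30 : ℝ) = T at *
  have T1 : 1 ≤ T := by linarith only [K1, b3]
  have T0 : 0 < T := by linarith only [K1, b3]
  have t25 : 4 * K ≤ T ^ 25 := b3.trans (le_self_pow₀ T1 (by norm_num))
  rcases le_total ((b : ℝ) + 1) (xc (ell N / 4)⁻¹) with h | h
  · refine (clap_coeff h9 (by linarith only [h]) N).trans ((mul_le_mul_of_nonneg_left
      ((h3 _ 0 0 b h8 le_rfl h8.le le_rfl (by simp) (by linarith only [h])).trans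
      (mul_le_mul_of_nonneg_right (freeT_crude a3 (by linarith only [h])).1 (exp_pos _).le))
      (by positivity)).trans ?_)
    rw [ab0_exp h8, ← exp_add, ← exp_add, exp_le_exp]
    have c1 := mul_le_mul_of_nonneg_left (show 28 ≤ T ^ 25 by linarith only [K1, t25]) (pow_pos T0 5).le
    clear * - N b C0 T a1 a4 b1 b4 p30 c1
    linarith only [a1, a4, b1, b4, p30, c1, le_abs_self C0]
  · obtain ⟨L, c1, c2, c3⟩ := a5 _ (by linarith only [a1, hb']) h
    have c4 := h8.trans_le c1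
    have c5 := h9.trans_le c1
    refine (clap_coeff c5 (by linarith only [c3]) N).trans ((mul_le_mul_of_nonneg_left
      (h2 L (a2.trans c1) 0 0 1 b le_rfl c4.le le_rfl (by positivity) le_rfl c5.le (by clear * - b L c3 a2 c1 c4 c5 h2; linarith only [c3]))
      (by positivity)).trans ?_)
    rw [ab0_exp c4, ← exp_add, exp_le_exp, log_one]
    have c6 := prof_quad a1 c5.le
    rw [prof_eq] at c6
    have d0 : 64 * K * log (ell N) ^ 2 ≤ T := by
      rwa [le_inv_mul_iff₀ (by positivity)] at b2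
    have d1 : L ^ (1 / 10 : ℝ) ≤ T ^ 5 := by
      clear * - N T K K1 b3 d0 L c2 a1 l0 p30 T1 c4 b
      have e1 : log (ell N) ^ 2 ≤ T := by
        linarith only [K1, b3, d0, mul_le_mul_of_nonneg_right K1 (sq_nonneg (log (ell N))), sq_nonneg (log (ell N))]
      have e2 : L ≤ (T ^ 5) ^ 10 :=
        calc L ≤ ell N * T := c2.trans ((div_log_le a1).2.trans
              (mul_le_mul_of_nonneg_left e1 l0.le))
          _ = T ^ 31 := by rw [← p30]; ring
          _ ≤ T ^ (5 * 10) := pow_le_pow_right₀ T1 (by norm_num)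
          _ = _ := pow_mul _ _ _
      refine le_of_pow_le_pow_left₀ (n := 10) (by norm_num) (by positivity) ?_
      rwa [clap_pw c4.le (1 / 10) 10 (b := 1) (by norm_num), rpow_one]
    have d2 := log_le_rpow_div c4.le (show (0 : ℝ) < 1 / 10 by norm_num)
    have d3 : 4 * K * T ^ 35 ≤ ell N ^ 2 := by
      clear * - K T N p30 t25 T0
      rw [← p30]
      linarith [mul_le_mul_of_nonneg_right t25 (pow_pos T0 35).le]
    have d4 : 4 * K * T ^ 35 ≤ (L - ell N) ^ 2 := by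
      clear * - L N K T l2 c5 b c3 T1 K1 b3 hx d0 T0 d3 l0
      rcases le_total L (2 * ell N) with e | e
      · have e1 := clap_far l2 c5.le e
        have e2 : |(b : ℝ) - xc (ell N)⁻¹| ≤ |xc L⁻¹ - xc (ell N)⁻¹| + 1 := by
          rw [c3, abs_le]
          constructor <;> linarith only [le_abs_self (b + 1 - xc (ell N)⁻¹),
            neg_abs_le (b + 1 - xc (ell N)⁻¹)]
        have e3 : T ≤ T ^ 18 := le_self_pow₀ T1 (by norm_num)
        have e4 := pow_le_pow_left₀ (by positivity)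
          (show T ^ 18 ≤ |L - ell N| * (4 * log (ell N)) by linarith only [K1, b3, hx, e1, e2, e3]) 2
        rw [mul_pow, sq_abs] at e4
        refine le_of_mul_le_mul_right ?_ T0
        linarith only [e4, K1, d0, mul_le_mul_of_nonneg_left e4 (show 0 ≤ 4 * K by positivity),
          mul_le_mul_of_nonneg_left d0 (sq_nonneg (L - ell N))]
      · exact d3.trans (pow_le_pow_left₀ l0.le (by linarith only [e]) 2)
    have d5 : K * T ^ 5 ≤ min ((L - ell N) ^ 2) (ell N ^ 2) / (4 * ell N) := by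
      rw [le_div_iff₀ (by positivity)]
      refine le_trans (le_of_eq ?_) (le_min d4 d3)
      rw [← p30]
      ring
    have d6 := mul_le_mul_of_nonneg_left (one_le_pow₀ T1 (n := 5))
      (show 0 ≤ kappa ^ 2 + C1 by positivity)
    rw [hK] at d5
    clear * - N L C1 T c6 d1 d2 d5 d6
    linarith only [c6, d1, d2, d5, d6]

end Pool.Agent.Work.MP_5391ad_co
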