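import Pool.Agent.Work.MP_5391ad_co.AUp

/-! The lower bound for the rates of the tree function. `t = L⁻¹`, `u = xc - b`, `x n = b - n`,
`τ1 = L^(-1/2 + η1)` with `η1 = min η (1/100)`, `tau t x1 = τ1`, `X n = max (x n + 2) x1`,
`β n = eh (X n)^(1/3)`, `η n = 15 β n / tau (X n)`, `n0 = ⌊u⌋`. Apply `walk_lower`.
`A (n-1) ≤ A n exp (eh (x n + 1))` by `incr_ratio`, and `x n + 1 = x (n+1) + 2`.
`X (n+1) ≤ X n ≤ X (n+1) + 1`, so `eh_ratio` and monotonicity give the regularity as in `AUp`.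
At `n0`: `u ≤ xc - X n0 ≤ 2 u`, `τ ≥ e^{-3}`, `β^3 ≥ τ / (2 (xc - X)) ≥ e^{-3} / (4 u)`, so
`β n0 * n0 ≥ c u^(2/3)`, and `|log η| ≤ C + log u`. `A 0 ≤ t/σ(b)`, `A (n0-1) ≥ t/σ(b - n0)`,
`σ(b - n0)^2 ≤ 4 t u`, `σ(b)^2 ≥ t u e^{-2}`. `∑ β^2 ≤ b eh(x1)^(2/3) + ∑_{i<b} eh(i)^(2/3)`.
`Lam t 0 / A (b-1) ≥ σ(1) ≥ 1/2`, `β b ≥ (t τ1)^(1/3) ≥ L^(-1/2)`. -/

namespace Pool.Agent.Work.MP_5391ad_co

open Real Finset Filter

theorem alow_eh_pos {t x : ℝ} (ht : 0 < t) (hx : x < xc t) : 0 < eh t x := by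
  obtain ⟨h0, h1, -⟩ := tau_spec ht hx
  have h2 : 0 < 1 - tau t x := by linarith only [h1]
  unfold eh
  positivity

theorem alow_eh_le {t x : ℝ} (ht : 0 < t) (hx : x < xc t) : eh t x * (xc t - x) ≤ 1 := by
  obtain ⟨h0, h1, -⟩ := tau_spec ht hx
  obtain ⟨-, h3, -, -⟩ := sigma_bounds ht hx
  have h2 : 0 < (1 - tau t x) ^ 2 := by
    have : 0 < 1 - tau t x := by linarith
    positivity
  unfold eh
  rw [div_mul_eq_mul_div, div_le_one h2]
  linarith only [h3]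

theorem alow_tau_le {t x : ℝ} (ht : 0 < t) (hx : x < xc t) :
    tau t x ≤ 2 * (eh t x * (xc t - x)) := by
  obtain ⟨h0, h1, -⟩ := tau_spec ht hx
  obtain ⟨h3, -, -, -⟩ := sigma_bounds ht hx
  have h2 : 0 < (1 - tau t x) ^ 2 := by
    have : 0 < 1 - tau t x := by linarith
    positivity
  unfold eh
  rw [div_mul_eq_mul_div, ← mul_div_assoc, le_div_iff₀ h2]
  linarith only [h0, h3, mul_nonneg_of_nonpos_of_nonpos (le_of_lt (Mathlib.Tactic.Linarith.sub_neg_of_lt h0)) (Mathlib.Tactic.Linarith.sub_nonpos_of_le h3)]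

theorem alow_eh_eq {t x : ℝ} : eh t x = t / (1 - tau t x) ^ 2 * tau t x := by
  unfold eh
  ring

theorem alow_r_small {t x : ℝ} (ht : 0 < t) (h : tau t x ≤ 1 / 2) :
    t / (1 - tau t x) ^ 2 ≤ 4 * t := by
  have h2 : 0 < (1 - tau t x) ^ 2 := by
    have : 0 < 1 - tau t x := by linarith only [h]
    positivity
  rw [div_le_iff₀ h2]
  have : 1 / 4 ≤ (1 - tau t x) ^ 2 := by linarith only [h, mul_nonneg_of_nonpos_of_nonpos (Mathlib.Tactic.Linarith.sub_nonpos_of_le h) (Mathlib.Tactic.Linarith.sub_nonpos_of_le h)]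
  linarith only [ht, this, mul_nonneg_of_nonpos_of_nonpos (le_of_lt (Mathlib.Tactic.Linarith.sub_neg_of_lt ht)) (Mathlib.Tactic.Linarith.sub_nonpos_of_le this)]

theorem alow_r_le {t x : ℝ} (ht : 0 < t) (hx : x < xc t) :
    t / (1 - tau t x) ^ 2 ≤ 4 * t + 2 / (xc t - x) := by
  have hd : 0 < xc t - x := by linarith
  rcases le_total (tau t x) (1 / 2) with h | h
  · have := alow_r_small ht h
    have : 0 ≤ 2 / (xc t - x) := by positivity
    linarith
  · have h1 := alow_eh_le ht hx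
    rw [alow_eh_eq] at h1
    have h2 : 0 ≤ t / (1 - tau t x) ^ 2 := by positivity
    have h3 : t / (1 - tau t x) ^ 2 ≤ 2 / (xc t - x) := by
      rw [le_div_iff₀ hd]
      have h4 : 0 ≤ t / (1 - tau t x) ^ 2 * (xc t - x) := by positivity
      linarith only [h1, h, h4, mul_nonneg_of_nonpos_of_nonpos (Mathlib.Tactic.Linarith.sub_nonpos_of_le h) (Mathlib.Tactic.Linarith.sub_nonpos_of_le h4)]
    linarith only [ht, h3]

theorem alow_r_step {t x : ℝ} (ht : 0 < t) (hx : x + 2 ≤ xc t) :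
    t / (1 - tau t (x + 1)) ^ 2 ≤ 9 * (t / (1 - tau t x) ^ 2) := by
  have h := (alam_unit (f := fun u => -log (1 - tau t u)) (f' := eh t) (a := x) (p := 0) (q := 1)
    (fun u _ h2 => alam_log_sigma ht (by linarith)) (fun u _ h2 => by
      have hu : u < xc t := by linarith
      have h3 := alow_eh_pos ht hu
      have h4 := alow_eh_le ht hu
      refine ⟨h3.le, ?_⟩
      linarith only [h4, hx, h3, h2, mul_nonneg_of_nonpos_of_nonpos (Mathlib.Tactic.Linarith.sub_nonpos_of_le hx) (le_of_lt (Mathlib.Tactic.Linarith.sub_neg_of_lt h3)), mul_nonneg_of_nonpos_of_nonpos (Mathlib.Tactic.Linarith.sub_nonpos_of_le h2) (le_of_lt (Mathlib.Tactic.Linarith.sub_neg_of_lt h3))])).2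
  obtain ⟨-, h1, -⟩ := tau_spec ht (show x < xc t by linarith)
  obtain ⟨-, h2, -⟩ := tau_spec ht (show x + 1 < xc t by linarith)
  have s0 : 0 < 1 - tau t x := by linarith
  have s1 : 0 < 1 - tau t (x + 1) := by linarith
  have h3 : 1 - tau t x ≤ exp 1 * (1 - tau t (x + 1)) := by
    rw [← exp_log s0, ← exp_log s1, ← exp_add]
    apply exp_le_exp.2
    linarith
  have h4 : 1 - tau t x ≤ 3 * (1 - tau t (x + 1)) := by
    have := exp_one_lt_three
    linarith only [h3, h2, this, mul_pos_of_neg_of_neg (Mathlib.Tactic.Linarith.sub_neg_of_lt h2) (Mathlib.Tactic.Linarith.sub_neg_of_lt this)]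
  rw [← mul_div_assoc, div_le_div_iff₀ (by positivity) (by positivity)]
  have h5 : (1 - tau t x) ^ 2 ≤ (3 * (1 - tau t (x + 1))) ^ 2 := pow_le_pow_left₀ s0.le h4 2
  linarith only [ht, h5, mul_nonneg_of_nonpos_of_nonpos (le_of_lt (Mathlib.Tactic.Linarith.sub_neg_of_lt ht)) (Mathlib.Tactic.Linarith.sub_nonpos_of_le h5)]

/-- the scale -/
noncomputable def alowB (t x : ℝ) : ℝ := eh t x ^ (1 / 3 : ℝ)

/-- the error scale -/
noncomputable def alowH (t x : ℝ) : ℝ := 15 * alowB t x / tau t x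

theorem alow_B_pos {t x : ℝ} (ht : 0 < t) (hx : x < xc t) : 0 < alowB t x :=
  rpow_pos_of_pos (alow_eh_pos ht hx) _

theorem alow_B_cube {t x : ℝ} (ht : 0 < t) (hx : x < xc t) : alowB t x ^ 3 = eh t x := by
  unfold alowB
  rw [← rpow_natCast, ← rpow_mul (alow_eh_pos ht hx).le]
  norm_num

theorem alow_B_sq {t x : ℝ} (ht : 0 < t) (hx : x < xc t) :
    alowB t x ^ 2 = eh t x ^ (2 / 3 : ℝ) := by
  unfold alowB
  rw [← rpow_natCast, ← rpow_mul (alow_eh_pos ht hx).le]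
  norm_num

theorem alow_HB {t x : ℝ} (ht : 0 < t) (hx : x < xc t) :
    alowH t x * alowB t x ^ 2 = 15 * (t / (1 - tau t x) ^ 2) := by
  obtain ⟨h0, -, -⟩ := tau_spec ht hx
  have h := alow_B_cube ht hx
  rw [alow_eh_eq] at h
  unfold alowH
  have : 15 * alowB t x / tau t x * alowB t x ^ 2 = 15 * (alowB t x ^ 3 / tau t x) := by ring
  rw [this, h, mul_div_assoc, div_self h0.ne', mul_one]

theorem alow_reg {t y z : ℝ} (ht : 0 < t) (hy : y + 2 ≤ xc t) (h1 : y ≤ z) (h2 : z ≤ y + 1) :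
    |log (alowB t z / alowB t y)| ≤ alowH t y * alowB t y ^ 2 ∧
      |log (alowH t z / alowH t y)| ≤ 3 * alowH t y * alowB t y ^ 2 := by
  have hy0 : y < xc t := by linarith
  have hy1 : y + 1 < xc t := by linarith
  have hz : z < xc t := by linarith
  have hr := alow_r_step ht hy
  obtain ⟨e1, e2⟩ := eh_ratio ht hy1
  have py := alow_eh_pos ht hy0
  have pz := alow_eh_pos ht hz
  obtain ⟨ty, ty1, -⟩ := tau_spec ht hy0
  obtain ⟨tz, -, -⟩ := tau_spec ht hz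
  obtain ⟨t1, t11, -⟩ := tau_spec ht hy1
  have m1 : eh t y ≤ eh t z := eh_monotoneOn ht hy0 hz h1
  have m2 : eh t z ≤ eh t (y + 1) := eh_monotoneOn ht hz hy1 h2
  have m3 : tau t y ≤ tau t z := alam_mono ht h1 hz
  have m4 : tau t z ≤ tau t (y + 1) := alam_mono ht h2 hy1
  set r := t / (1 - tau t y) ^ 2 with hrd
  have r0 : 0 ≤ r := by positivity
  have a0 : log (eh t y) ≤ log (eh t z) := log_le_log py m1
  have a1 : log (eh t z) ≤ log (eh t y) + 18 * r := by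
    have h3 := log_le_log pz (m2.trans e1)
    rw [log_mul py.ne' (exp_pos _).ne', log_exp, mul_div_assoc] at h3
    linarith only [hr, h3]
  have b0 : log (tau t y) ≤ log (tau t z) := log_le_log ty m3
  have b1 : log (tau t z) ≤ log (tau t y) + 9 * r := by
    have h3 := log_le_log tz (m4.trans e2)
    rw [log_mul ty.ne' (exp_pos _).ne', log_exp] at h3
    have s1 : 0 < 1 - tau t (y + 1) := by linarith only [t11]
    have h4 : t / (1 - tau t (y + 1)) ≤ t / (1 - tau t (y + 1)) ^ 2 := by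
      apply div_le_div_of_nonneg_left ht.le (by positivity)
      (refine le_of_not_gt fun h_nl => ?_; linarith only [h_nl, ty, ty1, t1, t11, mul_pos_of_neg_of_neg (Mathlib.Tactic.Linarith.sub_neg_of_lt ty) (Mathlib.Tactic.Linarith.sub_neg_of_lt h_nl), mul_pos_of_neg_of_neg (Mathlib.Tactic.Linarith.sub_neg_of_lt ty1) (Mathlib.Tactic.Linarith.sub_neg_of_lt h_nl), mul_pos_of_neg_of_neg (Mathlib.Tactic.Linarith.sub_neg_of_lt t1) (Mathlib.Tactic.Linarith.sub_neg_of_lt t11)])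
    linarith only [hr, h3, h4]
  have By := alow_B_pos ht hy0
  have Bz := alow_B_pos ht hz
  have c1 : log (alowB t z / alowB t y) = (log (eh t z) - log (eh t y)) / 3 := by
    rw [log_div Bz.ne' By.ne']
    unfold alowB
    rw [log_rpow pz, log_rpow py]
    ring
  have c2 : log (alowH t z / alowH t y) =
      log (alowB t z / alowB t y) - (log (tau t z) - log (tau t y)) := by
    unfold alowH
    rw [log_div (by positivity) (by positivity), log_div (by positivity) tz.ne',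
      log_div (by positivity) ty.ne', log_mul (by norm_num) Bz.ne', log_mul (by norm_num) By.ne',
      log_div Bz.ne' By.ne']
    ring
  have c3 := alow_HB ht hy0
  rw [mul_assoc, c2, c1, c3, ← hrd]
  constructor <;> rw [abs_le] <;> constructor <;> linarith only [r0, a0, a1, b1, b0]

theorem alow_small {t x x1 η0 u : ℝ} (ht : 0 < t) (h0 : 0 < η0) (hu : 0 < u)
    (hx : x + u ≤ xc t) (h1 : x1 ≤ x) (h2 : 4 * t ≤ (η0 / 15) ^ 3 * tau t x1 ^ 2)
    (h3 : 8 ≤ (η0 / 15) ^ 3 * u) :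
    0 < alowB t x ∧ alowB t x ≤ alowH t x ∧ alowH t x ≤ η0 := by
  have hx0 : x < xc t := by linarith only [hu, hx]
  have hB := alow_B_pos ht hx0
  obtain ⟨t0, t1, -⟩ := tau_spec ht hx0
  obtain ⟨s0, -, -⟩ := tau_spec ht (show x1 < xc t by linarith only [hu, hx, h1])
  have m := alam_mono ht h1 hx0
  have hd : 0 < (η0 / 15) ^ 3 := by positivity
  refine ⟨hB, ?_, ?_⟩
  · unfold alowH
    rw [le_div_iff₀ t0]
    linarith only [hB, t1, mul_pos_of_neg_of_neg (Mathlib.Tactic.Linarith.sub_neg_of_lt hB) (Mathlib.Tactic.Linarith.sub_neg_of_lt t1)]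
  · have h4 : eh t x ≤ (η0 / 15) ^ 3 * tau t x ^ 3 := by
      rcases le_total (tau t x) (1 / 2) with h | h
      · have h5 := alow_r_small ht h
        have h6 : tau t x1 ^ 2 ≤ tau t x ^ 2 := pow_le_pow_left₀ s0.le m 2
        have h7 : t / (1 - tau t x) ^ 2 ≤ (η0 / 15) ^ 3 * tau t x ^ 2 := by (refine le_of_not_gt fun h_nl => ?_; linarith only [h_nl, h6, hu, h2, h5, h3, mul_nonneg_of_nonpos_of_nonpos (le_of_lt (Mathlib.Tactic.Linarith.sub_neg_of_lt hu)) (Mathlib.Tactic.Linarith.sub_nonpos_of_le h2), mul_nonneg_of_nonpos_of_nonpos (le_of_lt (Mathlib.Tactic.Linarith.sub_neg_of_lt hu)) (Mathlib.Tactic.Linarith.sub_nonpos_of_le h5), mul_pos_of_neg_of_neg (Mathlib.Tactic.Linarith.sub_neg_of_lt hu) (Mathlib.Tactic.Linarith.sub_neg_of_lt h_nl), mul_nonneg_of_nonpos_of_nonpos (Mathlib.Tactic.Linarith.sub_nonpos_of_le h3) (Mathlib.Tactic.Linarith.sub_nonpos_of_le h6)])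
        rw [alow_eh_eq]
        linarith only [t0, h7, mul_nonneg_of_nonpos_of_nonpos (le_of_lt (Mathlib.Tactic.Linarith.sub_neg_of_lt t0)) (Mathlib.Tactic.Linarith.sub_nonpos_of_le h7)]
      · have h5 := alow_eh_le ht hx0
        have h6 := alow_eh_pos ht hx0
        have h7 : eh t x * u ≤ 1 := by linarith only [h5, hx, h6, mul_nonneg_of_nonpos_of_nonpos (Mathlib.Tactic.Linarith.sub_nonpos_of_le hx) (le_of_lt (Mathlib.Tactic.Linarith.sub_neg_of_lt h6))]
        have h8 : (1 / 2 : ℝ) ^ 3 ≤ tau t x ^ 3 := pow_le_pow_left₀ (by norm_num) h 3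
        have h9 : 8 * eh t x ≤ (η0 / 15) ^ 3 := by (refine le_of_not_gt fun h_nl => ?_; linarith only [h_nl, h3, h7, hu, mul_pos_of_neg_of_neg (Mathlib.Tactic.Linarith.sub_neg_of_lt hu) (Mathlib.Tactic.Linarith.sub_neg_of_lt h_nl)])
        (refine le_of_not_gt fun h_nl => ?_; linarith only [h_nl, h3, h7, h8, hu, mul_pos_of_neg_of_neg (Mathlib.Tactic.Linarith.sub_neg_of_lt hu) (Mathlib.Tactic.Linarith.sub_neg_of_lt h_nl), mul_nonneg_of_nonpos_of_nonpos (Mathlib.Tactic.Linarith.sub_nonpos_of_le h3) (Mathlib.Tactic.Linarith.sub_nonpos_of_le h8)])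
    rw [← alow_B_cube ht hx0, ← mul_pow] at h4
    have h5 := (pow_le_pow_iff_left₀ hB.le (by positivity) (by norm_num : 3 ≠ 0)).1 h4
    unfold alowH
    rw [div_le_iff₀ t0]
    linarith only [h5]

theorem alow_tau0 {t x : ℝ} (ht : 0 < t) (h0 : 0 ≤ x) (hx : x < xc t) : t ≤ tau t x := by
  obtain ⟨t0, -, h⟩ := tau_spec ht hx
  have h1 : log t ≤ log (tau t x) := by linarith only [t0, h, ht, h0, mul_nonneg ht.le h0]
  exact (log_le_log_iff ht t0).1 h1

theorem alow_B_ge {t x : ℝ} (ht : 0 < t) (ht1 : t ≤ 1) (h0 : 0 ≤ x) (hx : x < xc t) :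
    t ≤ alowB t x := by
  have h1 := alow_tau0 ht h0 hx
  obtain ⟨t0, t1, -⟩ := tau_spec ht hx
  have h2 : t ≤ t / (1 - tau t x) ^ 2 := by
    have s : 0 < 1 - tau t x := by linarith
    rw [le_div_iff₀ (by positivity)]
    have : (1 - tau t x) ^ 2 ≤ 1 := by linarith only [h1, ht, t1, mul_pos_of_neg_of_neg (Mathlib.Tactic.Linarith.sub_neg_of_lt ht) (Mathlib.Tactic.Linarith.sub_neg_of_lt ht), mul_nonneg_of_nonpos_of_nonpos (le_of_lt (Mathlib.Tactic.Linarith.sub_neg_of_lt ht)) (Mathlib.Tactic.Linarith.sub_nonpos_of_le h1), mul_pos_of_neg_of_neg (Mathlib.Tactic.Linarith.sub_neg_of_lt ht) (Mathlib.Tactic.Linarith.sub_neg_of_lt t1), mul_nonneg_of_nonpos_of_nonpos (Mathlib.Tactic.Linarith.sub_nonpos_of_le h1) (le_of_lt (Mathlib.Tactic.Linarith.sub_neg_of_lt t1))]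
    linarith only [ht, this, mul_nonneg_of_nonpos_of_nonpos (le_of_lt (Mathlib.Tactic.Linarith.sub_neg_of_lt ht)) (Mathlib.Tactic.Linarith.sub_nonpos_of_le this)]
  have h3 : t ^ 3 ≤ alowB t x ^ 3 := by
    rw [alow_B_cube ht hx, alow_eh_eq]
    have : t * t ≤ t / (1 - tau t x) ^ 2 * tau t x := mul_le_mul h2 h1 ht.le (by positivity)
    linarith only [this, ht1, mul_pos ht ht, mul_nonneg_of_nonpos_of_nonpos (Mathlib.Tactic.Linarith.sub_nonpos_of_le (mul_self_nonneg t)) (Mathlib.Tactic.Linarith.sub_nonpos_of_le ht1)]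
  exact (pow_le_pow_iff_left₀ ht.le (alow_B_pos ht hx).le (by norm_num : 3 ≠ 0)).1 h3

theorem alow_start {t x u C m : ℝ} (ht : 0 < t) (hC : 1 ≤ C) (hu : (72 * C) ^ 3 ≤ u)
    (h1 : x + u ≤ xc t) (h2 : xc t ≤ x + 2 * u) (h3 : t * u ≤ 1) (hm : u / 2 ≤ m)
    (hH : alowH t x ≤ 1) (hBH : alowB t x ≤ alowH t x) :
    C * (1 + |log (alowH t x)|) ≤ alowB t x * m := by
  have u0 : 0 < u := lt_of_lt_of_le (by positivity) hu
  have hx : x < xc t := by linarith only [h1, u0]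
  have hB := alow_B_pos ht hx
  obtain ⟨v, v0, hv⟩ : ∃ v : ℝ, 0 < v ∧ v ^ 3 = u := by
    refine ⟨u ^ (1 / 3 : ℝ), by positivity, ?_⟩
    rw [← rpow_natCast, ← rpow_mul u0.le]
    norm_num
  have hv1 : 72 * C ≤ v := by
    rw [← hv] at hu
    exact (pow_le_pow_iff_left₀ (by positivity) v0.le (by norm_num : 3 ≠ 0)).1 hu
  obtain ⟨-, -, s, -⟩ := sigma_bounds ht hx
  have h4 : 1 / 27 ≤ tau t x := by
    refine le_trans ?_ s
    have h5 : exp (-3) ≤ exp (-1 - t * (xc t - x)) := exp_le_exp.2 (by linarith only [h3, ht, h2, mul_nonneg_of_nonpos_of_nonpos (le_of_lt (Mathlib.Tactic.Linarith.sub_neg_of_lt ht)) (Mathlib.Tactic.Linarith.sub_nonpos_of_le h2)])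
    refine le_trans ?_ h5
    rw [exp_neg, one_div]
    apply inv_anti₀ (exp_pos _)
    have h6 : exp 3 = exp 1 ^ 3 := by rw [← exp_nat_mul]; norm_num
    rw [h6]
    have h7 := pow_le_pow_left₀ (exp_pos 1).le exp_one_lt_three.le 3
    linarith only [h7]
  have h5 := alow_tau_le ht hx
  have h6 := alow_eh_pos ht hx
  have h7 : 1 ^ 3 ≤ (6 * v * alowB t x) ^ 3 := by
    rw [mul_pow, mul_pow, hv, alow_B_cube ht hx]
    linarith only [h4, h5, h2, h6, mul_nonneg_of_nonpos_of_nonpos (Mathlib.Tactic.Linarith.sub_nonpos_of_le h2) (le_of_lt (Mathlib.Tactic.Linarith.sub_neg_of_lt h6))]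
  have h8 := (pow_le_pow_iff_left₀ (by norm_num) (by positivity) (by norm_num : 3 ≠ 0)).1 h7
  have H0 : 0 < alowH t x := by linarith only [hBH, hB]
  have h9 : 1 + |log (alowH t x)| ≤ 6 * v := by
    rw [abs_of_nonpos (log_nonpos H0.le hH), ← log_inv]
    have h10 := log_le_sub_one_of_pos (inv_pos.2 H0)
    have h11 : (alowH t x)⁻¹ ≤ 6 * v := by
      rw [inv_le_iff_one_le_mul₀ H0]
      linarith only [h8, hBH, v0, mul_nonneg_of_nonpos_of_nonpos (Mathlib.Tactic.Linarith.sub_nonpos_of_le hBH) (le_of_lt (Mathlib.Tactic.Linarith.sub_neg_of_lt v0))]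
    linarith only [h10, h11]
  have h10 : C * (6 * v) ≤ alowB t x * (u / 2) := by
    rw [← hv]
    have h11 : v ^ 2 * 1 ≤ v ^ 2 * (6 * v * alowB t x) := by gcongr
    linarith only [h11, v0, hv1, mul_nonneg_of_nonpos_of_nonpos (le_of_lt (Mathlib.Tactic.Linarith.sub_neg_of_lt v0)) (Mathlib.Tactic.Linarith.sub_nonpos_of_le hv1)]
  calc C * (1 + |log (alowH t x)|) ≤ C * (6 * v) := by gcongr
    _ ≤ alowB t x * (u / 2) := h10
    _ ≤ _ := by gcongr


theorem alow_rate_eq {t : ℝ} {b n : ℕ} (h : n ≤ b) :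
    rate t 0 b n = Lam t ((b : ℝ) - n) - Lam t ((b : ℝ) - n - 1) := by
  unfold rate
  rw [Nat.cast_sub h, zero_add]

theorem alow_nine {t : ℝ} {b n : ℕ} (ht : 0 < t) (h1 : 1 ≤ n) (hn : n ≤ b) (hb : (b : ℝ) < xc t)
    (h2 : (n : ℝ) ≤ xc t - b) (h3 : t * (xc t - b) ≤ 1) :
    rate t 0 b 0 ≤ 9 * rate t 0 b (n - 1) := by
  rw [alow_rate_eq (Nat.zero_le b), alow_rate_eq (by omega), Nat.cast_sub h1]
  have h1' : (1 : ℝ) ≤ n := by exact_mod_cast h1
  simp only [Nat.cast_zero, sub_zero, Nat.cast_one]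
  have a1 := (incr_bounds ht hb).2
  have a2 := (incr_bounds ht (show (b : ℝ) - (n - 1) < xc t by linarith only [hb, h1'])).1
  have hy : (b : ℝ) - (n - 1) - 1 < xc t := by linarith only [hb, h1']
  obtain ⟨s1, -, -, -⟩ := sigma_bounds ht hy
  obtain ⟨-, s2, s3, -⟩ := sigma_bounds ht hb
  obtain ⟨-, t1, -⟩ := tau_spec ht hy
  obtain ⟨-, t2, -⟩ := tau_spec ht hb
  have h4 : 1 / 9 ≤ tau t b := by
    refine le_trans ?_ s3
    have h5 : exp (-2) ≤ exp (-1 - t * (xc t - b)) := exp_le_exp.2 (by linarith only [h3])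
    refine le_trans ?_ h5
    rw [exp_neg, one_div]
    apply inv_anti₀ (exp_pos _)
    have h6 : exp 2 = exp 1 ^ 2 := by rw [← exp_nat_mul]; norm_num
    rw [h6]
    have h7 := pow_le_pow_left₀ (exp_pos 1).le exp_one_lt_three.le 2
    linarith only [h7]
  have D0 : 0 < t * (xc t - b) := mul_pos ht (by linarith only [h2, h1', t2, h4])
  have h5 : (1 - tau t ((b : ℝ) - (n - 1) - 1)) ^ 2 ≤ (9 * (1 - tau t b)) ^ 2 := by
    have h6 : t * (xc t - ((b : ℝ) - (n - 1) - 1)) ≤ 2 * (t * (xc t - b)) := by linarith only [ht, h2, mul_nonneg_of_nonpos_of_nonpos (le_of_lt (Mathlib.Tactic.Linarith.sub_neg_of_lt ht)) (Mathlib.Tactic.Linarith.sub_nonpos_of_le h2)]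
    linarith only [s1, s2, h6, h3, h4, ht, h1', t2, mul_nonneg_of_nonpos_of_nonpos (Mathlib.Tactic.Linarith.sub_nonpos_of_le (sq_nonneg ((1 : ℝ) - tau t ↑b))) (Mathlib.Tactic.Linarith.sub_nonpos_of_le h3), mul_nonneg_of_nonpos_of_nonpos (Mathlib.Tactic.Linarith.sub_nonpos_of_le (sq_nonneg ((1 : ℝ) - tau t ↑b))) (Mathlib.Tactic.Linarith.sub_nonpos_of_le h4), mul_nonneg_of_nonpos_of_nonpos (le_of_lt (Mathlib.Tactic.Linarith.sub_neg_of_lt ht)) (Mathlib.Tactic.Linarith.sub_nonpos_of_le h1'), mul_pos_of_neg_of_neg (Mathlib.Tactic.Linarith.sub_neg_of_lt ht) (Mathlib.Tactic.Linarith.sub_neg_of_lt t2), mul_nonneg_of_nonpos_of_nonpos (le_of_lt (Mathlib.Tactic.Linarith.sub_neg_of_lt ht)) (Mathlib.Tactic.Linarith.sub_nonpos_of_le h4), mul_nonneg_of_nonpos_of_nonpos (Mathlib.Tactic.Linarith.sub_nonpos_of_le s2) (le_of_lt (Mathlib.Tactic.Linarith.sub_neg_of_lt t2))]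
  have h6 := (pow_le_pow_iff_left₀ (by linarith only [t1]) (by linarith only [t2]) (by norm_num : 2 ≠ 0)).1 h5
  have h7 : t / (1 - tau t b) ≤ 9 * (t / (1 - tau t ((b : ℝ) - (n - 1) - 1))) := by
    rw [← mul_div_assoc, div_le_div_iff₀ (by linarith only [t2]) (by linarith only [t1])]
    linarith only [ht, h6, mul_nonneg_of_nonpos_of_nonpos (le_of_lt (Mathlib.Tactic.Linarith.sub_neg_of_lt ht)) (Mathlib.Tactic.Linarith.sub_nonpos_of_le h6)]
  linarith only [a1, a2, h7]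

theorem alow_first {t : ℝ} {b : ℕ} (ht : 0 < t) (ht1 : t ≤ 1) (h1 : 1 ≤ b) (h3 : 3 ≤ t * xc t) :
    1 / 2 ≤ Lam t 0 / rate t 0 b (b - 1) := by
  have hx : 1 < xc t := by (refine lt_of_not_ge fun h_nl => ?_; linarith only [h_nl, ht1, h3, ht, mul_nonneg_of_nonpos_of_nonpos (le_of_lt (Mathlib.Tactic.Linarith.sub_neg_of_lt ht)) (Mathlib.Tactic.Linarith.sub_nonpos_of_le h_nl)])
  rw [alow_rate_eq (by omega), Nat.cast_sub h1]
  simp only [Nat.cast_one, sub_sub_cancel]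
  obtain ⟨a1, a2⟩ := incr_bounds ht hx
  obtain ⟨-, -, -, s⟩ := sigma_bounds ht hx
  have h4 : tau t 1 ≤ 1 / 2 := by
    refine s.trans ?_
    have h5 : exp (-(t * (xc t - 1))) ≤ exp (-1) := exp_le_exp.2 (by linarith only [ht1, h3])
    refine h5.trans ?_
    rw [exp_neg, one_div]
    apply inv_anti₀ (by norm_num)
    linarith only [add_one_le_exp (1 : ℝ)]
  obtain ⟨-, t1, -⟩ := tau_spec ht (show (1 : ℝ) - 1 < xc t by linarith only [hx])
  have p : 0 < t / (1 - tau t (1 - 1)) := div_pos ht (by linarith only [t1])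
  have h5 : t / (1 - tau t 1) ≤ 2 * t := by
    rw [div_le_iff₀ (by linarith only [h4])]
    linarith only [ht, h4, mul_nonneg_of_nonpos_of_nonpos (le_of_lt (Mathlib.Tactic.Linarith.sub_neg_of_lt ht)) (Mathlib.Tactic.Linarith.sub_nonpos_of_le h4)]
  have h6 : t ≤ Lam t 0 := by
    have := alow_tau0 ht le_rfl (show (0 : ℝ) < xc t by linarith only [hx])
    unfold Lam
    linarith only [this]
  rw [le_div_iff₀ (lt_of_lt_of_le p a1)]
  linarith only [a2, h5, h6]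

/-- the location of the scales -/
noncomputable def alowX (x1 : ℝ) (b n : ℕ) : ℝ := max ((b : ℝ) - n + 2) x1

theorem alow_sum1 {t x1 : ℝ} {b n0 : ℕ} (ht : 0 < t) (h2 : 2 ≤ n0) (hb : (b : ℝ) < xc t) :
    ∑ n ∈ Ioc n0 b, alowB t (alowX x1 b n) ^ 2 ≤
      ∑ i ∈ range b, eh t i ^ (2 / 3 : ℝ) + b * alowB t x1 ^ 2 := by
  have h1 : ∀ n ∈ Ioc n0 b, alowB t (alowX x1 b n) ^ 2 ≤
      eh t ((b - n + 2 : ℕ) : ℝ) ^ (2 / 3 : ℝ) + alowB t x1 ^ 2 := by
    intro n hn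
    rw [mem_Ioc] at hn
    have h3 : (2 : ℝ) ≤ n := by exact_mod_cast (by omega : 2 ≤ n)
    have h4 : ((b - n + 2 : ℕ) : ℝ) = (b : ℝ) - n + 2 := by
      rw [Nat.cast_add, Nat.cast_sub hn.2]; norm_num
    rw [h4, ← alow_B_sq ht (by linarith only [hb, h3])]
    unfold alowX
    rcases max_choice ((b : ℝ) - n + 2) x1 with h | h <;> rw [h]
    · linarith only [sq_nonneg (alowB t x1)]
    · linarith only [sq_nonneg (alowB t ((b : ℝ) - n + 2))]
  refine (sum_le_sum h1).trans ?_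
  rw [sum_add_distrib, sum_const, nsmul_eq_mul]
  apply add_le_add
  · rw [← sum_image (s := Ioc n0 b) (g := fun n => b - n + 2)
      (f := fun i : ℕ => eh t i ^ (2 / 3 : ℝ))]
    · apply sum_le_sum_of_subset_of_nonneg
      · intro i hi
        obtain ⟨n, hn, rfl⟩ := mem_image.1 hi
        rw [mem_Ioc] at hn
        rw [mem_range]
        omega
      · intro i hi _
        have : (i : ℝ) < b := by exact_mod_cast mem_range.1 hi
        exact rpow_nonneg (alow_eh_pos ht (by linarith only [hb, this])).le _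
    · intro n hn m hm h
      rw [mem_coe, mem_Ioc] at hn hm
      simp only at h
      omega
  · have : ((Ioc n0 b).card : ℝ) ≤ b := by
      rw [Nat.card_Ioc]
      exact_mod_cast Nat.sub_le b n0
    gcongr

theorem alow_sum2 {t x1 : ℝ} {b n0 : ℕ} (ht : 0 < t) (hb : (b : ℝ) + 2 ≤ xc t)
    (hx : x1 < xc t) (h1 : tau t x1 ≤ 1 / 2) :
    ∑ n ∈ Ioc n0 b, alowH t (alowX x1 b n) * alowB t (alowX x1 b n) ^ 2 ≤
      15 * (4 * (t * b) + 2 * (1 + log b)) := by
  have h2 : ∀ n ∈ Ioc n0 b, alowH t (alowX x1 b n) * alowB t (alowX x1 b n) ^ 2 ≤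
      15 * (4 * t + 2 * (n : ℝ)⁻¹) := by
    intro n hn
    rw [mem_Ioc] at hn
    have h3 : (1 : ℝ) ≤ n := by exact_mod_cast (by omega : 1 ≤ n)
    unfold alowX
    rcases max_choice ((b : ℝ) - n + 2) x1 with h | h <;> rw [h]
    · have h4 : (b : ℝ) - n + 2 < xc t := by linarith only [hb, h3]
      rw [alow_HB ht h4]
      have h5 := alow_r_le ht h4
      have h6 : 2 / (xc t - ((b : ℝ) - n + 2)) ≤ 2 / n :=
        div_le_div_of_nonneg_left (by norm_num) (by linarith only [h3]) (by linarith only [hb])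
      rw [div_eq_mul_inv 2 (n : ℝ)] at h6
      linarith only [h5, h6]
    · rw [alow_HB ht hx]
      have h5 := alow_r_small ht h1
      have : 0 ≤ (n : ℝ)⁻¹ := by positivity
      linarith only [h5, this]
  refine (sum_le_sum h2).trans ?_
  rw [← mul_sum, sum_add_distrib, sum_const, nsmul_eq_mul, ← mul_sum]
  have h3 : ((Ioc n0 b).card : ℝ) ≤ b := by
    rw [Nat.card_Ioc]
    exact_mod_cast Nat.sub_le b n0
  have h4 : ∑ n ∈ Ioc n0 b, (n : ℝ)⁻¹ ≤ 1 + log b := by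
    refine le_trans ?_ (harmonic_le_one_add_log b)
    rw [harmonic_eq_sum_Icc]
    push_cast
    apply sum_le_sum_of_subset_of_nonneg
    · intro n hn
      rw [mem_Ioc] at hn
      rw [mem_Icc]
      omega
    · intro n _ _
      positivity
  linarith only [h4, ht, h3, mul_nonneg_of_nonpos_of_nonpos (le_of_lt (Mathlib.Tactic.Linarith.sub_neg_of_lt ht)) (Mathlib.Tactic.Linarith.sub_nonpos_of_le h3)]

theorem alow_core : ∃ C δ u0 : ℝ, 1 ≤ C ∧ 0 < δ ∧ 0 < u0 ∧ ∀ (t x1 : ℝ) (b : ℕ), 0 < t → t ≤ 1 →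
    3 ≤ t * xc t → 2 ≤ t * (xc t - x1) → tau t x1 ≤ 1 / 2 → 4 * t ≤ δ * tau t x1 ^ 2 →
    b + u0 ≤ xc t → t * (xc t - b) ≤ 1 →
    FreeT t 0 b * exp (-(kap0 * (∑ i ∈ range b, eh t i ^ (2 / 3 : ℝ) + b * alowB t x1 ^ 2)) -
      C * (15 * (4 * (t * b) + 2 * (1 + log b))) - 4 * (xc t - b)) * (t / (2 * C)) ≤
      VolT t 0 0 b := by
  obtain ⟨C, η0, hC, h0, h01, hW⟩ := walk_lower
  have hd : 0 < (η0 / 15) ^ 3 := by positivity
  refine ⟨C, (η0 / 15) ^ 3, (72 * C) ^ 3 + 8 / (η0 / 15) ^ 3 + 3, hC, hd, by positivity, ?_⟩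
  intro t x1 b ht ht1 h3 hx1 hτ hδ hb hu1
  have p1 : 0 < (72 * C) ^ 3 := by positivity
  have p2 : 0 < 8 / (η0 / 15) ^ 3 := by positivity
  obtain ⟨u, hu⟩ : ∃ u, u = xc t - b := ⟨_, rfl⟩
  rw [← hu] at hu1 ⊢
  have u3 : 3 ≤ u := by linarith only [hb, p1, p2, hu]
  have u8 : 8 ≤ (η0 / 15) ^ 3 * u := by
    have : 8 / (η0 / 15) ^ 3 ≤ u := by linarith only [hb, p1, hu]
    rw [div_le_iff₀ hd] at this
    linarith only [this]
  have hx2 : x1 + 2 * u ≤ xc t := by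
    by_contra h
    push Not at h
    linarith only [hx1, hu1, ht, h, mul_pos_of_neg_of_neg (Mathlib.Tactic.Linarith.sub_neg_of_lt ht) (Mathlib.Tactic.Linarith.sub_neg_of_lt h)]
  have hub : u ≤ b := by
    by_contra h
    push Not at h
    linarith only [ht, h3, hu1, hb, p1, p2, hu, h, mul_nonneg_of_nonpos_of_nonpos (le_of_lt (Mathlib.Tactic.Linarith.sub_neg_of_lt ht)) (Mathlib.Tactic.Linarith.sub_nonpos_of_le hb), mul_pos_of_neg_of_neg (Mathlib.Tactic.Linarith.sub_neg_of_lt ht) (Mathlib.Tactic.Linarith.sub_neg_of_lt p1), mul_pos_of_neg_of_neg (Mathlib.Tactic.Linarith.sub_neg_of_lt ht) (Mathlib.Tactic.Linarith.sub_neg_of_lt p2), Mathlib.Tactic.Linarith.mul_zero_eq (Mathlib.Tactic.Linarith.sub_neg_of_lt ht) (sub_eq_zero_of_eq hu), mul_pos_of_neg_of_neg (Mathlib.Tactic.Linarith.sub_neg_of_lt ht) (Mathlib.Tactic.Linarith.sub_neg_of_lt h)]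
  obtain ⟨n0, hn0⟩ : ∃ n0, n0 = ⌊u⌋₊ := ⟨_, rfl⟩
  have n1 : (n0 : ℝ) ≤ u := hn0 ▸ Nat.floor_le (by linarith only [hb, p1, p2, hu])
  have n2 : u < n0 + 1 := hn0 ▸ Nat.lt_floor_add_one u
  have n3 : (2 : ℝ) ≤ n0 := by linarith only [hb, p1, p2, hu, n2]
  have n4 : 2 ≤ n0 := by exact_mod_cast n3
  have n5 : n0 ≤ b := by exact_mod_cast n1.trans hub
  have hbx : (0 : ℝ) + b < xc t := by linarith only [hb, p1, p2]
  have hX : ∀ n, n0 ≤ n → alowX x1 b n + u ≤ xc t := by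
    intro n hn
    have : (n0 : ℝ) ≤ n := by exact_mod_cast hn
    have : alowX x1 b n ≤ xc t - u := max_le (by linarith only [hb, p1, p2, n2, this]) (by linarith only [hb, p1, p2, hu, hx2])
    linarith only [this]
  have hS : ∀ n, n0 ≤ n → 0 < alowB t (alowX x1 b n) ∧
      alowB t (alowX x1 b n) ≤ alowH t (alowX x1 b n) ∧ alowH t (alowX x1 b n) ≤ η0 :=
    fun n hn => alow_small ht h0 (by linarith only [hb, p1, p2, hu]) (hX n hn) (le_max_right _ _) hδ u8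
  have hA : ∀ n, 0 < rate t 0 b n := fun n => lt_of_lt_of_le ht (rate_pos ht hbx n)
  have hL : 0 ≤ Lam t 0 := by
    have := alow_tau0 ht le_rfl (show (0 : ℝ) < xc t by linarith only [hb, p1, p2, hu, hub])
    unfold Lam
    linarith only [ht, this]
  have key := hW (Lam t 0) (rate t 0 b) (fun n => alowB t (alowX x1 b n))
    (fun n => alowH t (alowX x1 b n)) b n0 hL hA (fun i j hij _ => rate_anti ht hbx hij)
    (by omega) n5 ⟨fun n hn _ => hS n hn, fun n hn _ => by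
      clear * - t x1 b n ht C η0 u hb p1 p2 hu hX n0 hn0 hn
      apply alow_reg ht
      · linarith only [hb, p1, p2, hu, hX, hn0, hn, hX (n + 1) (by omega)]
      · unfold alowX
        push_cast
        exact max_le_max (by linarith only []) le_rfl
      · unfold alowX
        push_cast
        apply max_le
        · linarith only [le_max_left ((b : ℝ) - (n + 1) + 2) x1]
        · linarith only [le_max_right ((b : ℝ) - (n + 1) + 2) x1]⟩
    (fun n hn hnb => by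
      clear * - n b u n0 hn0 n4 hn x1 t hX C η0 hb p1 p2 ht hnb hu hA n2
      have h1 : 1 ≤ n := by omega
      have h2 : (n0 : ℝ) ≤ n := by exact_mod_cast hn
      have h4 := hX (n + 1) (by omega)
      have h5 : (b : ℝ) - n + 1 < xc t := by linarith only [hb, p1, p2, hu, n2, h2]
      have h6 := (incr_ratio ht h5).2
      rw [alow_rate_eq (by omega), alow_rate_eq hnb.le, Nat.cast_sub h1,
        alow_B_cube ht (by linarith only [hb, p1, p2, hu, h4])]
      have h7 : eh t ((b : ℝ) - n + 1) ≤ eh t (alowX x1 b (n + 1)) := by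
        apply eh_monotoneOn ht h5 (show alowX x1 b (n + 1) < xc t by linarith only [hb, p1, p2, hu, h4])
        unfold alowX
        push_cast
        linarith only [le_max_left ((b : ℝ) - (n + 1) + 2) x1]
      have h8 := hA n
      rw [alow_rate_eq hnb.le] at h8
      have e1 : (b : ℝ) - (n - (1 : ℕ)) = b - n + 1 := by push_cast; ring
      rw [e1, add_sub_cancel_right, mul_comm]
      refine h6.trans ?_
      gcongr)
    (alow_start (u := u) ht hC (by linarith only [hb, p2, hu]) (hX n0 le_rfl)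
      (by linarith only [hu, n1, le_max_left ((b : ℝ) - n0 + 2) x1, show alowX x1 b n0 = max _ _ from rfl])
      hu1 (by linarith only [hb, p1, p2, hu, n2]) ((hS n0 le_rfl).2.2.trans h01) (hS n0 le_rfl).2.1)
    (alow_nine ht (by omega) n5 (by linarith only [hb, p1, p2]) (by linarith only [hu, n1]) (hu ▸ hu1))
  have e : VolT t 0 0 b = Vol (Lam t 0) (rate t 0 b) (fun _ => 1) b := by
    unfold VolT
    simp
  rw [e]
  refine le_trans ?_ key
  have f1 := alow_first ht ht1 (show 1 ≤ b by omega) h3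
  have f2 := alow_sum1 (x1 := x1) ht n4 (show (b : ℝ) < xc t by linarith only [hb, p1, p2])
  have f3 := alow_sum2 (x1 := x1) (n0 := n0) ht (show (b : ℝ) + 2 ≤ xc t by linarith only [hb, p1, p2])
    (by linarith only [hb, p1, p2, hu, hx2]) hτ
  have f4 : t ≤ alowB t (alowX x1 b b) := alow_B_ge ht ht1
    (by linarith only [le_max_left ((b : ℝ) - b + 2) x1, show alowX x1 b b = max _ _ from rfl])
    (by linarith only [hb, p1, p2, hu, hX, n5, hX b n5])
  have f5 : 0 ≤ FreeT t 0 b := prod_nonneg fun i _ => mul_nonneg (exp_pos _).le (hA i).le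
  have f6 := kap0_pos
  have e2 : ∀ F E : ℝ, F * E * (t / (2 * C)) = 1 / 2 * F * E * (t / C) := by
    intro F E
    field_simp
  rw [e2]
  unfold FreeT at f5 ⊢
  clear * - b t x1 C u n0 f1 f5 f2 f6 f3 hC n1 f4 ht; gcongr

theorem alow_ev {η δ K : ℝ} (hη : 0 < η) (hδ : 0 < δ) (hK : 0 ≤ K) : ∀ᶠ L : ℝ in atTop,
    1 ≤ L ∧ 4 ≤ log L ∧ ∃ s w : ℝ, 0 < s ∧ 1 ≤ w ∧ s ^ 2 = L⁻¹ ∧ s * w ^ 3 ≤ exp (-3) ∧
      4 ≤ δ * w ^ 6 ∧ K * log L ≤ w ∧ w ^ 3 ≤ L ^ η := by
  obtain ⟨η1, e0, e1, e2⟩ : ∃ η1 : ℝ, 0 < η1 ∧ η1 ≤ η ∧ η1 ≤ 1 / 4 :=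
    ⟨min η (1 / 4), lt_min hη (by norm_num), min_le_left _ _, min_le_right _ _⟩
  have e3 : 0 < η1 / 3 := by positivity
  have h1 := (isLittleO_log_rpow_atTop e3).bound (show 0 < 1 / (K + 1) by positivity)
  have h2 := (tendsto_rpow_neg_atTop (show (0 : ℝ) < 1 / 4 by norm_num)).eventually
    (ge_mem_nhds (exp_pos (-3)))
  have h3 := (tendsto_rpow_atTop e3).eventually_ge_atTop (4 / δ)
  filter_upwards [h1, h2, h3, eventually_ge_atTop 1, tendsto_log_atTop.eventually_ge_atTop 4]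
    with L a1 a2 a3 a4 a5
  have L0 : 0 < L := by linarith only [e0, e2, a4]
  have w1 : 1 ≤ L ^ (η1 / 3) := one_le_rpow a4 e3.le
  have w3 : (L ^ (η1 / 3)) ^ 3 = L ^ η1 := by
    rw [← rpow_natCast, ← rpow_mul L0.le]
    norm_num
  refine ⟨a4, a5, L ^ (-(1 / 2) : ℝ), L ^ (η1 / 3), by positivity, w1, ?_, ?_, ?_, ?_, ?_⟩
  · rw [← rpow_natCast, ← rpow_mul L0.le, ← rpow_neg_one]
    norm_num
  · rw [w3, ← rpow_add L0]
    exact le_trans (rpow_le_rpow_of_exponent_le a4 (by linarith only [e2])) a2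
  · rw [div_le_iff₀ hδ] at a3
    have : L ^ (η1 / 3) ≤ (L ^ (η1 / 3)) ^ 6 := le_self_pow₀ w1 (by norm_num)
    linarith only [a3, hδ, this, mul_nonneg_of_nonpos_of_nonpos (le_of_lt (Mathlib.Tactic.Linarith.sub_neg_of_lt hδ)) (Mathlib.Tactic.Linarith.sub_nonpos_of_le this)]
  · rw [norm_of_nonneg (by linarith only [e0, e2, a5]), norm_of_nonneg (by linarith only [e0, e2, w1]), div_mul_eq_mul_div,
      le_div_iff₀ (by linarith only [hK, e0, e2])] at a1
    linarith only [e0, e2, a1, a5]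
  · rw [w3]
    exact rpow_le_rpow_of_exponent_le a4 e1

theorem volT_lower {η : ℝ} (hη : 0 < η) : ∃ u0 C : ℝ, ∀ᶠ L : ℝ in atTop, ∀ b : ℕ,
    b + u0 ≤ xc L⁻¹ → xc L⁻¹ ≤ b + L →
    FreeT L⁻¹ 0 b * exp (-(kap0 * ∑ i ∈ range b, eh L⁻¹ i ^ (2 / 3 : ℝ)) - L ^ η -
      C * (xc L⁻¹ - b)) ≤ VolT L⁻¹ 0 0 b := by
  obtain ⟨C, δ, u0, hC, hδ, hu0, H⟩ := alow_core
  have k0 := kap0_pos
  refine ⟨u0, 4, ?_⟩
  filter_upwards [alow_ev (K := 4 * kap0 + 152 * C + 1) hη hδ (by positivity)]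
    with L ⟨L1, L4, s, w, s0, w1, hs, hw, hw6, hK, hw3⟩ b hb1 hb2
  have L0 : 0 < L := by linarith only [L1]
  have ht : 0 < L⁻¹ := by positivity
  have ht1 : L⁻¹ ≤ 1 := inv_le_one_of_one_le₀ L1
  have hxc : L⁻¹ * xc L⁻¹ = log L - 1 := by rw [alam_xc ht, log_inv]; ring
  have tL : L⁻¹ * L = 1 := inv_mul_cancel₀ L0.ne'
  have τ0 : 0 < s * w ^ 3 := by positivity
  have τ1 : s * w ^ 3 ≤ 1 / 2 := by
    refine hw.trans ?_
    rw [exp_neg, one_div]
    apply inv_anti₀ (by norm_num)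
    linarith only [add_one_le_exp (3 : ℝ)]
  obtain ⟨x1, hx1⟩ : ∃ x1, log (s * w ^ 3) - s * w ^ 3 = log L⁻¹ + L⁻¹ * x1 :=
    ⟨L * (log (s * w ^ 3) - s * w ^ 3 - log L⁻¹), by rw [← mul_assoc, tL]; ring⟩
  have hτ := (tau_eq ht τ0 (by linarith only [τ0, τ1]) hx1).1
  have hl : log (s * w ^ 3) ≤ -3 := (log_le_iff_le_exp τ0).2 hw
  have hD : 2 ≤ L⁻¹ * (xc L⁻¹ - x1) := by
    rw [log_inv] at hx1
    rw [mul_sub, hxc]
    linarith only [τ0, hx1, hl]
  have hx : x1 < xc L⁻¹ := by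
    have h : 0 < L⁻¹ * (xc L⁻¹ - x1) := by linarith only [τ0, τ1, hD]
    linarith only [h, ht, pos_of_mul_pos_right h ht.le]
  have key := H L⁻¹ x1 b ht ht1 (by linarith only [L4, hxc]) hD (by rw [hτ]; exact τ1)
    (by
      rw [hτ, mul_pow, hs, ← pow_mul]
      linarith only [hw6, ht, mul_le_mul_of_nonneg_left hw6 ht.le]) hb1
    (by linarith only [tL, hb2, ht, mul_le_mul_of_nonneg_left (show xc L⁻¹ - b ≤ L by linarith) ht.le])
  refine le_trans ?_ key
  have hF : 0 ≤ FreeT L⁻¹ 0 b := prod_nonneg fun i _ => mul_nonneg (exp_pos _).le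
    (ht.le.trans (rate_pos ht (by linarith only [hu0, hb1]) i))
  have hB : alowB L⁻¹ x1 ^ 2 ≤ 4 * L⁻¹ * w ^ 2 := by
    clear * - L x1 s w ht hx hτ τ1 hs s0 w1
    have h1 : alowB L⁻¹ x1 ^ 3 ≤ (2 * s * w) ^ 3 := by
      rw [alow_B_cube ht hx, alow_eh_eq]
      have h2 := alow_r_small ht (x := x1) (by rw [hτ]; exact τ1)
      have h3 : (2 * s * w) ^ 3 = 8 * L⁻¹ * (s * w ^ 3) := by rw [← hs]; ring
      rw [h3]
      nth_rewrite 2 [hτ]
      gcongr
      linarith only [ht, h2]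
    have h2 := (pow_le_pow_iff_left₀ (alow_B_pos ht hx).le (by positivity)
      (by norm_num : 3 ≠ 0)).1 h1
    have h3 := pow_le_pow_left₀ (alow_B_pos ht hx).le h2 2
    have h4 : (2 * s * w) ^ 2 = 4 * L⁻¹ * w ^ 2 := by rw [← hs]; ring
    linarith only [h3, h4]
  clear H key
  have tb : L⁻¹ * b ≤ log L := by
    have : L⁻¹ * b ≤ L⁻¹ * xc L⁻¹ := mul_le_mul_of_nonneg_left (by linarith only [hu0, hb1]) ht.le
    linarith only [hxc, τ0, τ1, this]
  have b0 : (0 : ℝ) < b := by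
    have h1 : L⁻¹ * xc L⁻¹ ≤ L⁻¹ * (b + L) := mul_le_mul_of_nonneg_left hb2 ht.le
    have h2 : 0 < L⁻¹ * b := by linarith only [L4, hxc, tL, τ0, τ1, h1]
    exact pos_of_mul_pos_right h2 ht.le
  have lb : log b ≤ 2 * log L := by
    have h1 : (b : ℝ) ≤ L ^ 2 := by
      have h2 := log_le_sub_one_of_pos L0
      have h3 : (b : ℝ) = L * (L⁻¹ * b) := by rw [← mul_assoc, mul_comm L, tL, one_mul]
      rw [h3, sq]
      exact mul_le_mul_of_nonneg_left (by linarith only [τ0, τ1, tb, h2]) L0.le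
    have h2 := log_le_log b0 h1
    rw [log_pow] at h2
    exact_mod_cast h2
  have e1 : L⁻¹ / (2 * C) = exp (-log L - log (2 * C)) := by
    rw [exp_sub, exp_neg, exp_log L0, exp_log (by positivity)]
  rw [e1, mul_assoc, ← exp_add]
  gcongr
  have w2 : 1 ≤ w ^ 2 := one_le_pow₀ w1
  have l0 : 0 ≤ log L := by linarith only [L4, τ0, τ1]
  have g1 : b * alowB L⁻¹ x1 ^ 2 ≤ 4 * (log L * w ^ 2) := by
    clear * - b L x1 w hB b0 tb w1
    calc b * alowB L⁻¹ x1 ^ 2 ≤ b * (4 * L⁻¹ * w ^ 2) := by gcongr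
      _ = 4 * (L⁻¹ * b * w ^ 2) := by ring
      _ ≤ _ := by gcongr
  have g2 : log L ≤ log L * w ^ 2 := le_mul_of_one_le_right l0 w2
  have g3 : 15 * (4 * (L⁻¹ * b) + 2 * (1 + log b)) ≤ 150 * (log L * w ^ 2) := by linarith only [L4, τ0, τ1, tb, lb, g2]
  have g4 : log (2 * C) ≤ C * (2 * (log L * w ^ 2)) := by
    clear * - C hC L w s L4 τ0 τ1 g2
    have h1 := log_le_sub_one_of_pos (show 0 < 2 * C by positivity)
    have h2 : C * 2 ≤ C * (2 * (log L * w ^ 2)) :=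
      mul_le_mul_of_nonneg_left (by linarith only [L4, τ0, τ1, g2]) (by linarith only [hC, τ0, τ1])
    linarith only [τ0, τ1, h1, h2]
  have g5 : (4 * kap0 + 152 * C + 1) * (log L * w ^ 2) ≤ w ^ 3 := by
    clear * - C L w hK w1
    calc _ = (4 * kap0 + 152 * C + 1) * log L * w ^ 2 := by ring
      _ ≤ w * w ^ 2 := by gcongr
      _ = _ := by ring
  have g6 := mul_le_mul_of_nonneg_left g1 k0.le
  have g7 := mul_le_mul_of_nonneg_left g3 (show 0 ≤ C by linarith only [hC, τ0, τ1])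
  linarith only [hw3, g2, g4, g5, g6, g7]

end Pool.Agent.Work.MP_5391ad_co
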