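import Pool.Agent.Work.MP_5391ad_co.QTsum
import Pool.Agent.Work.MP_5391ad_co.AExp
import Pool.Agent.Work.MP_5391ad_co.ALow
import Pool.Agent.Work.MP_5391ad_co.AGiant

-- merged part: Pool.Agent.Work.MP_5391ad_co.CBase
section
-- merged part: Pool.Agent.Work.MP_5391ad_co.ASum2
section
/-! The Airy sum. `t = L⁻¹`. Antiderivative of `eh^(2/3)`: `J x = L^(1/3) B (tau t x)` with
`B τ = ∫_0^τ s^(-1/3) (1-s)^(-1/3) ds`, `B 1 = Γ(2/3)^2 / Γ(4/3)`
(`Complex.Gamma_mul_Gamma_eq_betaIntegral`, `Complex.betaIntegral_convergent`). `J` is continuous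
on `(-∞, xc]` and `J' = eh^(2/3)` is monotone, so
`J (y+b-1) - J (y-1) ≤ ∑ ≤ J (y+b) - J y ≤ J xc`. `B τ ≤ 2 τ^(2/3)` for `τ ≤ 1/2` and
`tau (y-1) ≤ e^2 / L`; `eh x ≤ 1/(xc - x)` gives `J xc - J (xc - s) ≤ 3 s^(1/3)`. -/

namespace Pool.Agent.Work.MP_5391ad_co

open Real Finset Filter

/-- the beta integrand -/
noncomputable def asum2_f (s : ℝ) : ℝ := s ^ (-(1 / 3) : ℝ) * (1 - s) ^ (-(1 / 3) : ℝ)

/-- the incomplete beta integral -/
noncomputable def asum2_B (τ : ℝ) : ℝ := ∫ s in (0 : ℝ)..τ, asum2_f s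

theorem asum2_coe {s : ℝ} (h : s ∈ Set.uIcc (0 : ℝ) 1) :
    (s : ℂ) ^ (((2 / 3 : ℝ) : ℂ) - 1) * (1 - (s : ℂ)) ^ (((2 / 3 : ℝ) : ℂ) - 1) =
      (asum2_f s : ℂ) := by
  rw [Set.uIcc_of_le zero_le_one] at h
  have e : ((2 / 3 : ℝ) : ℂ) - 1 = ((-(1 / 3) : ℝ) : ℂ) := by
    push_cast
    norm_num
  rw [e, asum2_f, Complex.ofReal_mul, Complex.ofReal_cpow h.1,
    Complex.ofReal_cpow (sub_nonneg.2 h.2), Complex.ofReal_sub, Complex.ofReal_one]

theorem asum2_int {a b : ℝ} (ha : a ∈ Set.Icc (0 : ℝ) 1) (hb : b ∈ Set.Icc (0 : ℝ) 1) :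
    IntervalIntegrable asum2_f MeasureTheory.volume a b := by
  have h := (Complex.betaIntegral_convergent (u := (2 / 3 : ℝ)) (v := (2 / 3 : ℝ))
    (by norm_num) (by norm_num)).congr fun s hs => asum2_coe (Set.uIoc_subset_uIcc hs)
  have h1 : IntervalIntegrable asum2_f MeasureTheory.volume 0 1 := ⟨h.1.re, h.2.re⟩
  exact h1.mono_set (Set.uIcc_subset_uIcc (by rwa [Set.uIcc_of_le zero_le_one])
    (by rwa [Set.uIcc_of_le zero_le_one]))

theorem asum2_one : asum2_B 1 = Gamma (2 / 3) ^ 2 / Gamma (4 / 3) := by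
  have h := ProbabilityTheory.beta_eq_betaIntegralReal (2 / 3) (2 / 3) (by norm_num) (by norm_num)
  rw [Complex.betaIntegral, intervalIntegral.integral_congr fun s hs => asum2_coe hs,
    intervalIntegral.integral_ofReal, Complex.ofReal_re, ProbabilityTheory.beta, ← sq,
    show (2 / 3 + 2 / 3 : ℝ) = 4 / 3 by norm_num] at h
  exact h.symm

theorem asum2_nonneg {τ : ℝ} (h : τ ∈ Set.Icc (0 : ℝ) 1) : 0 ≤ asum2_B τ :=
  intervalIntegral.integral_nonneg h.1 fun s hs =>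
    mul_nonneg (rpow_nonneg hs.1 _) (rpow_nonneg (sub_nonneg.2 (hs.2.trans h.2)) _)

theorem asum2_symm {τ : ℝ} (h : τ ∈ Set.Icc (0 : ℝ) 1) :
    asum2_B 1 - asum2_B τ = asum2_B (1 - τ) := by
  have h1 := intervalIntegral.integral_comp_sub_left (a := τ) (b := 1) asum2_f 1
  rw [asum2_B, asum2_B, intervalIntegral.integral_interval_sub_left
    (asum2_int (Set.left_mem_Icc.2 zero_le_one) (Set.right_mem_Icc.2 zero_le_one))
    (asum2_int (Set.left_mem_Icc.2 zero_le_one) h), asum2_B, ← sub_self (1 : ℝ), ← h1]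
  exact intervalIntegral.integral_congr fun s _ => by
    simp only [asum2_f, sub_sub_cancel, mul_comm]

theorem asum2_le_one {τ : ℝ} (h : τ ∈ Set.Icc (0 : ℝ) 1) : asum2_B τ ≤ asum2_B 1 :=
  sub_nonneg.1 ((asum2_nonneg ⟨sub_nonneg.2 h.2, sub_le_self _ h.1⟩).trans_eq (asum2_symm h).symm)

theorem asum2_le {τ : ℝ} (h : τ ∈ Set.Icc (0 : ℝ) 1) :
    asum2_B τ ≤ (3 + 2 * asum2_B 1) * τ ^ (2 / 3 : ℝ) := by
  have h0 := asum2_nonneg (Set.right_mem_Icc.2 zero_le_one)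
  have h1 := rpow_nonneg h.1 (2 / 3 : ℝ)
  rcases le_total τ (1 / 2) with h2 | h2
  · have h3 : asum2_B τ ≤ ∫ s in (0 : ℝ)..τ, 2 * s ^ (-(1 / 3) : ℝ) := by
      refine intervalIntegral.integral_mono_on h.1 (asum2_int (Set.left_mem_Icc.2 zero_le_one) h)
        ((intervalIntegral.intervalIntegrable_rpow' (by norm_num)).const_mul 2) fun s hs => ?_
      rw [asum2_f, mul_comm]
      refine mul_le_mul_of_nonneg_right ?_ (rpow_nonneg hs.1 _)
      calc (1 - s) ^ (-(1 / 3) : ℝ) ≤ (1 - s) ^ (-1 : ℝ) :=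
            rpow_le_rpow_of_exponent_ge (by linarith only [h2, hs, hs.2]) (by linarith only [hs, hs.1]) (by norm_num)
        _ ≤ 2 := by
          rw [rpow_neg_one, inv_le_comm₀ (by linarith only [h2, hs, hs.2]) two_pos]
          linarith only [h2, hs, hs.2]
    rw [intervalIntegral.integral_const_mul, integral_rpow (Or.inl (by norm_num)),
      show (-(1 / 3) + 1 : ℝ) = 2 / 3 by norm_num, zero_rpow (by norm_num)] at h3
    linarith only [h3, h0, h1, mul_nonneg h0 h1]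
  · have h3 : τ ^ (1 : ℝ) ≤ τ ^ (2 / 3 : ℝ) :=
      rpow_le_rpow_of_exponent_ge (by linarith only [h2]) h.2 (by norm_num)
    rw [rpow_one] at h3
    linarith only [h2, h3, h, h0, asum2_le_one h, mul_le_mul_of_nonneg_left (h2.trans h3) h0]

theorem asum2_deriv {τ : ℝ} (h0 : 0 < τ) (h1 : τ < 1) : HasDerivAt asum2_B (asum2_f τ) τ := by
  have hm : Measurable asum2_f := by
    unfold asum2_f
    fun_prop
  refine intervalIntegral.integral_hasDerivAt_right
    (asum2_int (Set.left_mem_Icc.2 zero_le_one) ⟨h0.le, h1.le⟩)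
    hm.stronglyMeasurable.stronglyMeasurableAtFilter ?_
  exact (continuousAt_id.rpow_const (Or.inl h0.ne')).mul
    ((continuousAt_const.sub continuousAt_id).rpow_const (Or.inl (sub_pos.2 h1).ne'))

theorem asum2_J {L x : ℝ} (hL : 0 < L) (hx : x < xc L⁻¹) :
    HasDerivAt (fun x => L ^ (1 / 3 : ℝ) * asum2_B (tau L⁻¹ x)) (eh L⁻¹ x ^ (2 / 3 : ℝ)) x := by
  have ht := inv_pos.2 hL
  obtain ⟨h1, h2, -⟩ := tau_spec ht hx
  refine (((asum2_deriv h1 h2).comp x (hasDerivAt_tau ht hx)).const_mul _).congr_deriv ?_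
  have h3 := sub_pos.2 h2
  rw [asum2_f, eh]
  generalize 1 - tau L⁻¹ x = σ at h3
  generalize tau L⁻¹ x = τ at h1
  refine log_injOn_pos (Set.mem_Ioi.2 (by positivity)) (Set.mem_Ioi.2 (by positivity)) ?_
  rw [log_rpow (by positivity), log_mul (by positivity) (by positivity),
    log_mul (by positivity) (by positivity), log_mul (by positivity) (by positivity),
    log_div (by positivity) h3.ne', log_div (by positivity) (by positivity),
    log_mul ht.ne' h1.ne', log_rpow hL, log_rpow h1, log_rpow h3, log_pow, log_inv]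
  push_cast
  ring

theorem asum2_sum {L y : ℝ} (hL : 0 < L) (b : ℕ) (h : y + b < xc L⁻¹) :
    L ^ (1 / 3 : ℝ) * asum2_B (tau L⁻¹ (y + b - 1)) - L ^ (1 / 3 : ℝ) * asum2_B (tau L⁻¹ (y - 1)) ≤
      ∑ i ∈ range b, eh L⁻¹ (y + i) ^ (2 / 3 : ℝ) ∧ ∑ i ∈ range b, eh L⁻¹ (y + i) ^ (2 / 3 : ℝ) ≤
    L ^ (1 / 3 : ℝ) * asum2_B (tau L⁻¹ (y + b)) - L ^ (1 / 3 : ℝ) * asum2_B (tau L⁻¹ y) := by
  have ht := inv_pos.2 hL
  have key : ∀ a, a + 1 < xc L⁻¹ → _ := fun a ha => alam_unit (a := a)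
    (p := eh L⁻¹ a ^ (2 / 3 : ℝ)) (q := eh L⁻¹ (a + 1) ^ (2 / 3 : ℝ))
    (fun v _ hv => asum2_J hL (hv.trans_lt ha)) fun v h1 h2 => by
      have h3 : ∀ v, v < xc L⁻¹ → 0 ≤ eh L⁻¹ v := fun v hv =>
        div_nonneg (mul_pos ht (tau_spec ht hv).1).le (sq_nonneg _)
      have h4 : v < xc L⁻¹ := h2.trans_lt ha
      have h5 : a < xc L⁻¹ := h1.trans_lt h4
      exact ⟨rpow_le_rpow (h3 a h5) (eh_monotoneOn ht h5 h4 h1) (by norm_num),
        rpow_le_rpow (h3 v h4) (eh_monotoneOn ht h4 ha h2) (by norm_num)⟩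
  induction b with
  | zero => simp
  | succ b ih =>
    rw [Nat.cast_succ, ← add_assoc] at h
    obtain ⟨h1, h2⟩ := ih (by linarith only [h])
    have h3 := (key _ h).1
    have h4 := (key (y + b - 1) (by linarith only [h])).2
    rw [sub_add_cancel] at h4
    rw [sum_range_succ, Nat.cast_succ, ← add_assoc, add_sub_cancel_right]
    constructor <;> linarith only [h1, h4, h2, h3]

theorem airy_sum : ∃ C : ℝ, ∀ᶠ L : ℝ in atTop, ∀ (y u : ℝ) (b : ℕ), 0 ≤ y → y ≤ L → 1 ≤ u →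
    u ≤ L → y + b + u = xc L⁻¹ →
    |kap0 * ∑ i ∈ range b, eh L⁻¹ (y + i) ^ (2 / 3 : ℝ) - kappa * L ^ (1 / 3 : ℝ)| ≤ C * u := by
  have h0 := asum2_nonneg (Set.right_mem_Icc.2 zero_le_one)
  set c := 3 + 2 * asum2_B 1 with hc
  have hc0 : 0 ≤ c := by positivity
  refine ⟨kap0 * (c * (4 + exp 2)), (eventually_ge_atTop 1).mono fun L hL y u b hy hyL hu huL e => ?_⟩
  have hL0 : 0 < L := by linarith only [hL]
  have ht := inv_pos.2 hL0
  have hm : ∀ x, x < xc L⁻¹ → tau L⁻¹ x ∈ Set.Icc (0 : ℝ) 1 := fun x hx =>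
    ⟨(tau_spec ht hx).1.le, (tau_spec ht hx).2.1.le⟩
  have hb : (0 : ℝ) ≤ b := b.cast_nonneg
  have h3 : 0 < L ^ (1 / 3 : ℝ) := by positivity
  obtain ⟨h1, h2⟩ := asum2_sum hL0 b (y := y) (by linarith only [hu, e])
  have hcube : ∀ σ z : ℝ, σ ∈ Set.Icc (0 : ℝ) 1 → 1 ≤ z → L * σ ^ 2 ≤ z →
      L ^ (1 / 3 : ℝ) * asum2_B σ ≤ c * z := fun σ z hσ hz h => by
    have h4 : L ^ (1 / 3 : ℝ) * σ ^ (2 / 3 : ℝ) = (L * σ ^ 2) ^ (1 / 3 : ℝ) := by
      rw [mul_rpow hL0.le (sq_nonneg σ), ← rpow_two, ← rpow_mul hσ.1]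
      norm_num
    have h5 : (L * σ ^ 2) ^ (1 / 3 : ℝ) ≤ z :=
      (rpow_le_rpow (by positivity) h (by norm_num)).trans
        ((rpow_le_rpow_of_exponent_le hz (by norm_num : (1 / 3 : ℝ) ≤ 1)).trans_eq (rpow_one z))
    calc _ ≤ L ^ (1 / 3 : ℝ) * (c * σ ^ (2 / 3 : ℝ)) :=
          mul_le_mul_of_nonneg_left (asum2_le hσ) h3.le
      _ = c * (L * σ ^ 2) ^ (1 / 3 : ℝ) := by rw [← h4, mul_left_comm]
      _ ≤ c * z := mul_le_mul_of_nonneg_left h5 hc0
  have a1 : y - 1 < xc L⁻¹ := by linarith only [hu, e]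
  have a2 : y + b - 1 < xc L⁻¹ := by linarith only [hu, e]
  have b1 : L ^ (1 / 3 : ℝ) * asum2_B (tau L⁻¹ (y - 1)) ≤ c * exp 2 := by
    refine hcube _ _ (hm _ a1) (one_le_exp zero_le_two) ?_
    have h4 : tau L⁻¹ (y - 1) ≤ L⁻¹ * exp 2 := by
      refine (sigma_bounds ht a1).2.2.2.trans ?_
      rw [← exp_log ht, ← exp_add, exp_log ht, exp_le_exp, mul_sub, alam_xc ht]
      have : L⁻¹ * (y - 1) ≤ 1 := by
        rw [inv_mul_le_iff₀ hL0]
        linarith only [hyL]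
      linarith only [this]
    rw [le_inv_mul_iff₀ hL0] at h4
    linarith only [h4, hm, a1, hL0, mul_le_mul_of_nonneg_left (hm _ a1).2 (mul_nonneg hL0.le (hm _ a1).1)]
  have b2 : L ^ (1 / 3 : ℝ) * asum2_B (1 - tau L⁻¹ (y + b - 1)) ≤ c * (4 * u) := by
    refine hcube _ _ ⟨sub_nonneg.2 (hm _ a2).2, sub_le_self _ (hm _ a2).1⟩ (by linarith only [hu]) ?_
    have h4 := mul_le_mul_of_nonneg_left (sigma_bounds ht a2).1 hL0.le
    rw [mul_left_comm, mul_inv_cancel_left₀ hL0.ne'] at h4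
    linarith only [hu, e, h4]
  rw [← asum2_symm (hm _ a2), mul_sub] at b2
  have b3 := mul_le_mul_of_nonneg_left (asum2_le_one (hm (y + b) (by linarith only [hu, e]))) h3.le
  have b4 := mul_nonneg h3.le (asum2_nonneg (hm y (by linarith only [hu, e])))
  have b5 : c * exp 2 ≤ c * exp 2 * u := le_mul_of_one_le_right (by positivity) hu
  have b6 : 0 ≤ c * (4 + exp 2) * u := by positivity
  rw [show kappa = kap0 * asum2_B 1 by rw [asum2_one]; rfl, mul_assoc, ← mul_sub, abs_mul,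
    abs_of_pos kap0_pos, mul_assoc]
  refine mul_le_mul_of_nonneg_left (abs_le.2 ⟨?_, ?_⟩) kap0_pos.le <;> linarith only [h1, b1, b2, b5, h2, b3, b4]

end Pool.Agent.Work.MP_5391ad_co
end

-- merged part: Pool.Agent.Work.MP_5391ad_co.AB0
section
/-! The volume against the main term. `vol_up`, `vol_low`: combine `volT_upper`, `volT_lower`,
`freeT_sharp`, `airy_sum`.
`vol_B0`: let `L0 = ell N / 4`. If `y + b + 1 ≤ xc L0⁻¹` take `L = L0`, `volT_crude`, `freeT_crude`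
(first part) and `quarter_le` (`L0 = o(N)` since `N = ell (log^2 ell - π^2/6)`; `y ≤ N^(4/5) ≤ L0`;
`b (γ b)^2 ≤ N^(2η')`). Otherwise take `L ≥ L0` with `xc L⁻¹ = y + b + 1` (`exists_xc`); then
`L ≤ N` because `L (log L - 1) ≤ 3 N`; `vol_up` with `u = 1`, `prof_eq`, `prof_le`.
`free_B0`: the same two cases with `freeT_crude` only; `prof N L ≤ FF N + κ N^(1/3)`. -/

namespace Pool.Agent.Work.MP_5391ad_co

open Real Finset Filter

theorem ab0_log {x : ℝ} (h : exp 1 ≤ x) : 1 ≤ log x := (le_log_iff_exp_le ((exp_pos 1).trans_le h)).2 h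

theorem ab0_pow {a b : ℝ} (hab : a < b) (C : ℝ) : ∀ᶠ x : ℝ in atTop, C * (x ^ a * log x) ≤ x ^ b := by
  filter_upwards [(isLittleO_log_rpow_atTop (sub_pos.2 hab)).bound
    (show 0 < (|C| + 1)⁻¹ by positivity), eventually_ge_atTop 1] with x h hx
  have h1 := log_nonneg hx
  rw [norm_of_nonneg h1, norm_of_nonneg (by positivity), le_inv_mul_iff₀ (by positivity)] at h
  calc C * (x ^ a * log x) ≤ (|C| + 1) * (x ^ a * log x) :=
        mul_le_mul_of_nonneg_right (by linarith [le_abs_self C]) (by positivity)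
    _ = x ^ a * ((|C| + 1) * log x) := by ring
    _ ≤ x ^ a * x ^ (b - a) := by gcongr
    _ = x ^ b := by rw [← rpow_add (by positivity), add_sub_cancel]

theorem ab0_lo {η : ℝ} (hη : 0 < η) (C : ℝ) :
    ∀ᶠ x : ℝ in atTop, C * log x + x ^ (η / 2) ≤ x ^ η := by
  filter_upwards [ab0_pow (half_lt_self hη) (|C| + 1), eventually_ge_atTop (exp 1)] with x h hx
  have h1 := ab0_log hx
  have h2 := one_le_rpow ((one_le_exp zero_le_one).trans hx) (half_pos hη).le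
  have h3 : C * log x ≤ |C| * (x ^ (η / 2) * log x) :=
    mul_le_mul (le_abs_self _) (le_mul_of_one_le_left (by positivity) h2) (by positivity)
      (abs_nonneg _)
  have h4 : x ^ (η / 2) ≤ x ^ (η / 2) * log x := le_mul_of_one_le_right (by positivity) h1
  linarith only [h, h3, h4]

theorem ab0_pick (L1 : ℝ) : ∀ᶠ N : ℝ in atTop, 30 ≤ N ∧ L1 ≤ ell N / 4 ∧ exp 1 ≤ ell N / 4 ∧
    ell N / 4 ≤ N / 8 ∧
    ∀ x, x ≤ 3 * N → xc (ell N / 4)⁻¹ ≤ x → ∃ L, ell N / 4 ≤ L ∧ L ≤ N ∧ xc L⁻¹ = x := by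
  have h := tendsto_ell.atTop_div_const (show (0 : ℝ) < 4 by norm_num)
  filter_upwards [eventually_ge_atTop 30, h.eventually_ge_atTop L1, h.eventually_ge_atTop (exp 4)]
    with N h1 h2 h3
  have h4 := (exp_le_exp.2 (show (1 : ℝ) ≤ 4 by norm_num)).trans h3
  refine ⟨h1, h2, h4, ?_, fun x a b => ?_⟩
  · have h5 := ell_spec h1
    have h6 := (exp_pos 2).trans_le (le_ell N)
    have h7 := (le_log_iff_exp_le h6).2 (le_ell N)
    have h8 : 2 ≤ log (ell N) ^ 2 - π ^ 2 / 6 := by linarith only [h7, pi_lt_d2, pi_pos, mul_nonneg_of_nonpos_of_nonpos (Mathlib.Tactic.Linarith.sub_nonpos_of_le h7) (Mathlib.Tactic.Linarith.sub_nonpos_of_le h7), mul_pos_of_neg_of_neg (Mathlib.Tactic.Linarith.sub_neg_of_lt pi_lt_d2) (Mathlib.Tactic.Linarith.sub_neg_of_lt pi_pos)]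
    linarith only [h5, h6, h8, mul_nonneg_of_nonpos_of_nonpos (le_of_lt (Mathlib.Tactic.Linarith.sub_neg_of_lt h6)) (Mathlib.Tactic.Linarith.sub_nonpos_of_le h8)]
  · obtain ⟨L, h5, h6⟩ := exists_xc ((one_le_exp zero_le_one).trans h4) b
    have h7 := (exp_pos 4).trans_le (h3.trans h5)
    have h8 := (le_log_iff_exp_le h7).2 (h3.trans h5)
    refine ⟨L, h5, ?_, h6⟩
    rw [xc_inv h7] at h6
    linarith only [a, h6, h7, h8, mul_nonneg_of_nonpos_of_nonpos (le_of_lt (Mathlib.Tactic.Linarith.sub_neg_of_lt h7)) (Mathlib.Tactic.Linarith.sub_nonpos_of_le h8)]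

theorem ab0_exp {L : ℝ} (h : 0 < L) (N : ℕ) : L ^ N = exp (N * log L) := by
  rw [exp_nat_mul, exp_log h]

theorem vol_up {η : ℝ} (hη : 0 < η) : ∃ η' : ℝ, 0 < η' ∧ ∃ C : ℝ, 0 ≤ C ∧ ∀ᶠ L : ℝ in atTop,
    ∀ (y γ u : ℝ) (b : ℕ), 0 ≤ y → y ≤ L → 0 ≤ γ → γ ≤ L ^ (-(3 / 2) + η') → 1 ≤ u → u ≤ L →
    y + b + u = xc L⁻¹ → VolT L⁻¹ y γ b ≤ exp (-hL L - kappa * L ^ (1 / 3 : ℝ) +
      u / 2 * (log L + log u) + C * (u + y * log L) + L ^ η) := by
  obtain ⟨η', h1, C1, h2⟩ := volT_upper (half_pos hη)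
  obtain ⟨C2, h3⟩ := freeT_sharp
  obtain ⟨C3, h4⟩ := airy_sum
  refine ⟨η', h1, |C1| + |C2| + |C3|, by positivity, ?_⟩
  filter_upwards [h2, h3, h4, ab0_lo hη |C2|, eventually_ge_atTop (exp 1)]
    with L a b c d e y γ u n y0 y1 g0 g1 u0 u1 hx
  have h5 := ab0_log e
  refine (a y γ n y0 y1 g0 g1 (by linarith only [u0, hx]) (by linarith only [u1, hx])).trans ((mul_le_mul_of_nonneg_right
    (b y u n y0 y1 u0 u1 hx).1 (exp_pos _).le).trans ?_)
  rw [← exp_add, exp_le_exp]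
  have h6 := (abs_le.1 (c y u n y0 y1 u0 u1 hx)).1
  have h7 : C1 * y ≤ |C1| * (y * log L) :=
    mul_le_mul (le_abs_self _) (le_mul_of_one_le_right y0 h5) y0 (abs_nonneg _)
  have h8 : C2 * (u + (1 + y) * log L) ≤ |C2| * (u + (1 + y) * log L) :=
    mul_le_mul_of_nonneg_right (le_abs_self _) (by positivity)
  have h9 : C3 * u ≤ |C3| * u := mul_le_mul_of_nonneg_right (le_abs_self _) (by positivity)
  have h10 : 0 ≤ |C1| * u := by positivity
  have h11 : 0 ≤ |C3| * (y * log L) := by positivity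
  linarith only [d, h6, h7, h8, h9, h10, h11]

theorem vol_low {η : ℝ} (hη : 0 < η) : ∃ u0 C : ℝ, 1 ≤ u0 ∧ 0 ≤ C ∧ ∀ᶠ L : ℝ in atTop,
    ∀ (u : ℝ) (b : ℕ), u0 ≤ u → u ≤ L → b + u = xc L⁻¹ →
    exp (-hL L - kappa * L ^ (1 / 3 : ℝ) + u / 2 * log L - C * u - L ^ η) ≤ VolT L⁻¹ 0 0 b := by
  obtain ⟨u0, C1, h2⟩ := volT_lower (half_pos hη)
  obtain ⟨C2, h3⟩ := freeT_sharp
  obtain ⟨C3, h4⟩ := airy_sum
  refine ⟨max u0 1, |C1| + |C2| + |C3|, le_max_right _ _, by positivity, ?_⟩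
  filter_upwards [h2, h3, h4, ab0_lo hη C2, eventually_ge_atTop 0] with L a b c d e u n u0 u1 hx
  obtain ⟨u2, u3⟩ := max_le_iff.1 u0
  refine le_trans ?_ ((mul_le_mul_of_nonneg_right (b 0 u n le_rfl e u3 u1 (by rwa [zero_add])).2
    (exp_pos _).le).trans (a n (by linarith only [hx, u2]) (by linarith only [u1, hx])))
  rw [← exp_add, exp_le_exp, ← hx, add_sub_cancel_left]
  have h6 := (abs_le.1 (c 0 u n le_rfl e u3 u1 (by rwa [zero_add]))).2
  simp only [zero_add] at h6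
  have h7 : ∀ C : ℝ, C * u ≤ |C| * u := fun C =>
    mul_le_mul_of_nonneg_right (le_abs_self _) (by positivity)
  linarith only [d, h6, h7, h7 C1, h7 C2, h7 C3]

theorem vol_B0 {η : ℝ} (hη : 0 < η) : ∃ η' : ℝ, 0 < η' ∧ ∃ C : ℝ, 0 ≤ C ∧ ∀ᶠ N : ℕ in atTop,
    ∀ (y γ : ℝ) (b : ℕ), b ≤ N → 0 ≤ y → y ≤ (N : ℝ) ^ (4 / 5 : ℝ) → 0 ≤ γ →
    γ ≤ (N : ℝ) ^ (-(3 / 2) + η') → ∃ L : ℝ, ell N / 4 ≤ L ∧ L ≤ N ∧ y + b < xc L⁻¹ ∧
      L ^ N * VolT L⁻¹ y γ b ≤ exp (FF N + (N : ℝ) ^ η + C * y * log N) := by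
  obtain ⟨η', h1, C1, hC, h2⟩ := vol_up (half_pos hη)
  obtain ⟨C0, h3⟩ := volT_crude
  obtain ⟨L1, h2⟩ := eventually_atTop.1 h2
  refine ⟨min η' (1 / 4), lt_min h1 (by norm_num), C1 + |C0|, by positivity, ?_⟩
  filter_upwards [tendsto_natCast_atTop_atTop.eventually ((ab0_pick L1).and (quarter_le.and
    ((rpow_le_ell (δ := 1 / 10) (by norm_num)).and ((ab0_pow (a := 4 / 5) (b := 1 - 1 / 10)
    (by norm_num) 4).and ((ab0_pow (a := 1 / 2) (b := 1) (by norm_num) 16).and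
    ((eventually_ge_atTop (16 * |C0|)).and ((ab0_lo hη (kappa ^ 2 + 1 / 2 + C1)).and
    (eventually_ge_atTop (exp 1)))))))))]
    with N ⟨⟨a1, a2, a3, a4, a5⟩, b1, b2, b3, b4, b5, b6, b7⟩ y γ n hn y0 y1 g0 g1
  have hn' : (n : ℝ) ≤ N := Nat.cast_le.2 hn
  have h4 := ab0_log b7
  have h5 : (1 : ℝ) ≤ N := by linarith only [a1]
  have h6 : ∀ a : ℝ, (N : ℝ) ^ a ≤ N ^ a * log N := fun a =>
    le_mul_of_one_le_right (by positivity) h4
  have h7 : y ≤ ell N / 4 := by linarith only [b2, b3, y1, h6, h6 (4 / 5)]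
  have h8 := (exp_pos 1).trans_le a3
  have h9 : 0 ≤ y * log N := by positivity
  rcases le_total (y + n + 1) (xc (ell N / 4)⁻¹) with h | h
  · have c1 : γ * n ≤ (N : ℝ) ^ (-(1 / 4) : ℝ) :=
      calc γ * n ≤ (N : ℝ) ^ (-(3 / 2) + 1 / 4 : ℝ) * (N : ℝ) ^ (1 : ℝ) := by
            rw [rpow_one]
            exact mul_le_mul (g1.trans (rpow_le_rpow_of_exponent_le h5 (by
              linarith only [min_le_right η' (1 / 4)]))) hn' (by positivity) (by positivity)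
        _ = _ := by rw [← rpow_add (by positivity)]; norm_num
    have c2 : n * (γ * n) ^ 2 ≤ (N : ℝ) ^ (1 / 2 : ℝ) :=
      calc n * (γ * n) ^ 2 ≤ (N : ℝ) ^ (1 : ℝ) * ((N : ℝ) ^ (-(1 / 4) : ℝ)) ^ 2 := by
            rw [rpow_one]
            gcongr
        _ = _ := by rw [sq, ← rpow_add (by positivity), ← rpow_add (by positivity)]; norm_num
    refine ⟨_, le_rfl, by linarith only [a1, a4], by linarith only [h], ?_⟩
    refine (mul_le_mul_of_nonneg_left ((h3 _ y γ n h8 y0 h7 g0 (c1.trans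
      (rpow_le_one_of_one_le_of_nonpos h5 (by norm_num))) (by linarith only [h])).trans
      (mul_le_mul_of_nonneg_right (freeT_crude a3 h).1 (exp_pos _).le)) (by positivity)).trans ?_
    rw [ab0_exp h8, ← exp_add, ← exp_add, exp_le_exp]
    have c3 : C0 * y ≤ |C0| * (y * log N) :=
      mul_le_mul (le_abs_self _) (le_mul_of_one_le_right y0 h4) y0 (abs_nonneg _)
    have c4 : 0 ≤ (N : ℝ) ^ η := by positivity
    rw [rpow_one] at b4
    linarith only [a4, b1, b4, b5, c2, c3, c4, h6, hC, h9, h6 (1 / 2), le_abs_self C0, mul_nonneg hC h9]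
  · obtain ⟨L, c1, c2, c3⟩ := a5 _ (by linarith only [a1, a4, hn', h7]) h
    have c4 := h8.trans_le c1
    have c5 : 1 ≤ L := (one_le_exp zero_le_one).trans (a3.trans c1)
    refine ⟨L, c1, c2, by linarith only [c3], (mul_le_mul_of_nonneg_left (h2 L (a2.trans c1) y γ 1 n y0
      (h7.trans c1) g0 (g1.trans ((rpow_le_rpow_of_nonpos c4 c2 (by
        linarith only [min_le_right η' (1 / 4)])).trans (rpow_le_rpow_of_exponent_le c5 (by
        linarith only [min_le_left η' (1 / 4)])))) le_rfl c5 c3.symm) (by positivity)).trans ?_⟩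
    rw [ab0_exp c4, ← exp_add, exp_le_exp, log_one]
    have c6 := (prof_le a1 c5).2
    rw [prof_eq] at c6
    have c7 := log_le_log c4 c2
    have c8 := rpow_le_rpow c4.le c2 (half_pos hη).le
    have c9 : C1 * (y * log L) ≤ C1 * (y * log N) := by gcongr
    have c10 : kappa ^ 2 + C1 ≤ (kappa ^ 2 + C1) * log N :=
      le_mul_of_one_le_right (by positivity) h4
    linarith only [b6, c6, c7, c8, c9, c10, h9, mul_nonneg (abs_nonneg C0) h9]

theorem free_B0 : ∃ C : ℝ, 0 ≤ C ∧ ∀ᶠ N : ℕ in atTop, ∀ b ≤ N, ∀ s ≤ N, ∃ L : ℝ,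
    ell N / 4 ≤ L ∧ L ≤ N ∧ (s : ℝ) + b < xc L⁻¹ ∧
      L ^ N * FreeT L⁻¹ s b ≤ exp (FF N + C * (N : ℝ) ^ (1 / 3 : ℝ)) * (N : ℝ) ^ s := by
  have hk := kappa_pos
  refine ⟨kappa + 3, by positivity, ?_⟩
  filter_upwards [tendsto_natCast_atTop_atTop.eventually ((ab0_pick 0).and quarter_le)]
    with N ⟨⟨a1, _, a3, a4, a5⟩, b1⟩ n hn s hs
  have hn' : (n : ℝ) ≤ N := Nat.cast_le.2 hn
  have hs' : (s : ℝ) ≤ N := Nat.cast_le.2 hs
  have h5 : (1 : ℝ) ≤ N := by linarith only [a1]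
  have h6 := log_nonneg h5
  have h8 := (exp_pos 1).trans_le a3
  rw [ab0_exp (zero_lt_one.trans_le h5), ← exp_add]
  rcases le_total (s + n + 1 : ℝ) (xc (ell N / 4)⁻¹) with h | h
  · refine ⟨_, le_rfl, by linarith only [a1, a4], by linarith only [h],
      (mul_le_mul_of_nonneg_left (freeT_crude a3 h).1 (by positivity)).trans ?_⟩
    rw [ab0_exp h8, ← exp_add, exp_le_exp]
    have c1 : 0 ≤ (kappa + 3) * (N : ℝ) ^ (1 / 3 : ℝ) := by positivity
    have c2 : 0 ≤ s * log N := by positivity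
    linarith only [a1, a4, b1, c1, c2]
  · obtain ⟨L, c1, c2, c3⟩ := a5 _ (by linarith only [a1, hn', hs']) h
    have c4 := h8.trans_le c1
    refine ⟨L, c1, c2, by linarith only [c3], (mul_le_mul_of_nonneg_left
      (freeT_crude (a3.trans c1) c3.ge).2 (by positivity)).trans ?_⟩
    rw [ab0_exp c4, ← exp_add, exp_le_exp, c3]
    have c6 := (prof_le a1 ((one_le_exp zero_le_one).trans (a3.trans c1))).1
    rw [prof_eq] at c6
    have c7 := FF_eq a1
    have c8 : kappa * ell N ^ (1 / 3 : ℝ) ≤ kappa * (N : ℝ) ^ (1 / 3 : ℝ) := by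
      have := (exp_pos 2).trans_le (le_ell N)
      have := ell_le a1
      gcongr
    have c9 := log_le_rpow_div (zero_le_one.trans h5) (show (0 : ℝ) < 1 / 3 by norm_num)
    have c10 : (s + 1 : ℝ) * (log L - 1) ≤ (s + 1) * log N :=
      mul_le_mul_of_nonneg_left (by linarith only [c4, c2, log_le_log c4 c2]) (by positivity)
    linarith only [c6, c7, c8, c9, c10]

end Pool.Agent.Work.MP_5391ad_co
end

-- merged part: Pool.Agent.Work.MP_5391ad_co.CDef
section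
/-! Definitions for the sharp asymptotics of the number of acyclic cores. -/

namespace Pool.Agent.Work.MP_5391ad_co

open Real Finset
open scoped Classical

/-- one backward step of the killed Poisson walk with tilt `r` -/
noncomputable def Tr (r : ℝ) (f : ℕ → ℝ) : ℕ → ℝ
  | 0 => 0
  | q + 1 => Pois (fun k => r ^ k * f k) q

/-- `i` backward steps from the index `n0` -/
noncomputable def Sol (r : ℕ → ℝ) (n0 : ℕ) (f : ℕ → ℝ) : ℕ → ℕ → ℝ
  | 0 => f
  | i + 1 => Tr (r (n0 + i)) (Sol r n0 f i)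

/-- point mass -/
noncomputable def dl (q0 q : ℕ) : ℝ := if q = q0 then 1 else 0

/-- bounded sequences -/
def Bdd (f : ℕ → ℝ) : Prop := ∃ B, ∀ q, |f q| ≤ B

/-- the eigenfunction -/
noncomputable def phi : ℝ → ℝ := exists_phi.choose

/-- its derivative -/
noncomputable def phi1 : ℝ → ℝ := exists_phi.choose_spec.choose

theorem phi_spec : IsPhi phi phi1 := exists_phi.choose_spec.choose_spec

/-- steepness of the corrector -/
noncomputable def mm : ℝ := 4 * (kap0 + 6)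

/-- the decaying corrector -/
noncomputable def gc (x : ℝ) : ℝ := exp (-x) - exp (-((mm + 1) * x))

/-- the eigenfunction with its first order corrections -/
noncomputable def h0 (β a : ℝ) (q : ℕ) : ℝ :=
  phi (β * q) - β * ((β * q - kap0) ^ 2 / 6 * phi (β * q)) - a * ((β * q) ^ 2 / 2 * phi (β * q))

/-- one admissible step from the scale `(β', a')` to the scale `(β, a)` -/
structure St3 (K a0 r β' a' β a : ℝ) : Prop where
  b0 : 0 < β
  ba : β ≤ 2 * a
  aa : a ≤ a0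
  b0' : 0 < β'
  lb : |log (β' / β) - a * β ^ 2| ≤ K * a ^ 2 * β ^ 2
  la : |a' - a| ≤ K * a ^ 2 * β ^ 2
  r0 : 0 < r
  lr : |log r + β ^ 3| ≤ K * a ^ 2 * β ^ 3

/-- admissible sequences on `[n0, n1]` -/
structure Adm3 (K a0 : ℝ) (r β a : ℕ → ℝ) (n0 n1 : ℕ) : Prop where
  le : n0 ≤ n1
  pt : ∀ n, n0 ≤ n → n ≤ n1 → 0 < β n ∧ β n ≤ 2 * a n ∧ a n ≤ a0
  st : ∀ n, n0 ≤ n → n < n1 → St3 K a0 (r n) (β n) (a n) (β (n + 1)) (a (n + 1))

/-- logarithm of the adiabatic factor -/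
noncomputable def lgL (β a : ℕ → ℝ) (n0 n1 : ℕ) : ℝ :=
  ∑ n ∈ Ioc n0 n1, (-(kap0 * β n ^ 2) + β n ^ 3 / 6 - a n * β n ^ 2 / 2)

/-- elapsed adiabatic time -/
noncomputable def sS (β : ℕ → ℝ) (n0 n1 : ℕ) : ℝ := ∑ n ∈ Ioc n0 n1, β n ^ 2

/-- total second order error -/
noncomputable def sE (β a : ℕ → ℝ) (n0 n1 : ℕ) : ℝ := ∑ n ∈ Ioc n0 n1, a n ^ 2 * β n ^ 2

/-- the heat semigroup -/
noncomputable def Pg (s : ℝ) (f : ℝ → ℝ) (x : ℝ) : ℝ :=
  ∫ z, f (x + √s * z) ∂(ProbabilityTheory.gaussianReal 0 1)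

/-- an odd function with three derivatives -/
structure Odd3 (f f1 f2 f3 : ℝ → ℝ) : Prop where
  odd : ∀ x, f (-x) = -f x
  d1 : ∀ x, HasDerivAt f (f1 x) x
  d2 : ∀ x, HasDerivAt f1 (f2 x) x
  d3 : ∀ x, HasDerivAt f2 (f3 x) x

/-- weighted bound -/
def Wb (M : ℝ) (f : ℝ → ℝ) : Prop := ∀ x, |f x| ≤ M / cosh x

/-- the first hypotheses of the start layer -/
structure StH0 (c θ δ : ℝ) (T : ℕ) (ε : ℕ → ℝ) : Prop where
  d0 : 0 < δ
  d1 : δ ≤ θ
  t0 : θ⁻¹ ≤ T * δ ^ 2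
  t1 : T * δ ^ 2 ≤ 3 * log δ⁻¹
  e0 : ∀ i < T, 0 ≤ ε i ∧ ε i ≤ 10 * c * δ ^ 3 * exp (-(i * δ ^ 2))

/-- all hypotheses of the start layer -/
structure StH (c K θ δ : ℝ) (T : ℕ) (ε : ℕ → ℝ) : Prop extends StH0 c θ δ T ε where
  e1 : ∀ i < T, i * δ ^ 2 ≤ K → |ε i - c * δ ^ 3 * exp (-(i * δ ^ 2))| ≤ θ * δ ^ 3

/-- the normalised value at the start -/
noncomputable def stV (δ : ℝ) (T : ℕ) (ε : ℕ → ℝ) (f : ℕ → ℝ) : ℝ :=
  (T * δ ^ 2) ^ (3 / 2 : ℝ) / δ * Sol (fun i => exp (-ε i)) 0 f T 1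

/-- volume of the walks with `q0` vertices in the queue after `B` services -/
noncomputable def VQg {𝕜 : Type*} [CommRing 𝕜] [Algebra ℝ 𝕜] (a0 : 𝕜) (A : ℕ → 𝕜) (B q0 : ℕ) :
    𝕜 :=
  Vol a0 (fun n => if n < q0 then 0 else A (n - q0)) (fun _ => 1) (B + q0)

/-- the tilts of a sequence of rates -/
noncomputable def rsA (a0 : ℝ) (A : ℕ → ℝ) (B i : ℕ) : ℝ :=
  if i = 0 then 1 else if i < B then A i / A (i - 1) else a0 / A (B - 1)

/-- the tilts of the rates of the tree function -/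
noncomputable def rs (t : ℝ) (B : ℕ) : ℕ → ℝ := rsA (Lam t 0) (rate t 0 B) B

/-- the volume for the rates of the tree function -/
noncomputable def VQ (t : ℝ) (B q0 : ℕ) : ℝ := VQg (Lam t 0) (rate t 0 B) B q0

/-- the spatial scale -/
noncomputable def bet (t : ℝ) (B n : ℕ) : ℝ := eh t ((B : ℝ) - n) ^ (1 / 3 : ℝ)

/-- the adiabatic parameter -/
noncomputable def ap3 (t : ℝ) (B n : ℕ) : ℝ :=
  (1 + tau t ((B : ℝ) - n)) * bet t B n / (3 * tau t ((B : ℝ) - n))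

/-- the distance to the critical time lies in `[1/4, 2]` -/
def Gap (L : ℝ) (B : ℕ) : Prop := (B : ℝ) + 1 / 4 ≤ xc L⁻¹ ∧ xc L⁻¹ ≤ B + 2

/-- main term of the walk -/
noncomputable def mainS (L : ℝ) : ℝ :=
  exp (-(kappa * L ^ (1 / 3 : ℝ))) * L ^ (-(2 / 3) : ℝ) * log L ^ (-(3 / 2) : ℝ)

/-- main term of the volume at distance `g` from the critical time -/
noncomputable def mainV (L g : ℝ) : ℝ := exp (-hL L) * L ^ ((g - 1) / 2) * mainS L

/-- a power series with nonnegative coefficients and its value at `z` -/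
def Ev (z : ℝ) (F : PowerSeries ℝ) (v : ℝ) : Prop :=
  (∀ k, 0 ≤ PowerSeries.coeff k F) ∧ HasSum (fun k => PowerSeries.coeff k F * z ^ k) v

/-- `G - F` is nonnegative and flat -/
def Fl (z lam : ℝ) (G F : PowerSeries ℝ) (g f : ℝ) : Prop :=
  Ev z G g ∧ Ev z F f ∧ ∀ k, PowerSeries.coeff k F ≤ PowerSeries.coeff k G ∧
    (PowerSeries.coeff k G - PowerSeries.coeff k F) * z ^ k ≤ lam * (g - f)

/-- the generating function of the blocks -/
noncomputable def pLam (x : ℝ) : PowerSeries ℝ :=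
  PowerSeries.mk fun m => if m = 0 then 0 else treeW 0 (1 + x) (m - 1) / (m - 1).factorial

/-- the rates as power series -/
noncomputable def pRate (b n : ℕ) : PowerSeries ℝ :=
  pLam (b - n : ℕ) - pLam ((b - n : ℕ) - 1)

/-- the volume as a power series -/
noncomputable def PV (b : ℕ) : PowerSeries ℝ := Vol (pLam 0) (pRate b) (fun _ => 1) b

/-- the volume with a prescribed final queue as a power series -/
noncomputable def PQ (B q0 : ℕ) : PowerSeries ℝ := VQg (pLam 0) (pRate B) B q0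

/-- the main term of the number of acyclic cores, divided by `N!` -/
noncomputable def mainD (n : ℝ) : ℝ :=
  exp (FF n - log (ell n) ^ 2) * ell n ^ (-(5 / 3) : ℝ) * log (ell n) ^ (-4 : ℝ)

end Pool.Agent.Work.MP_5391ad_co
end

-- merged part: Pool.Agent.Work.MP_5391ad_co.CBase
section
/-! Basic facts on `Tr`, `Sol`, `phi`, `gc`. Use `pois_summable`, `pois_mono`, `pois_add`,
`pois_exp` (with `c = 0` for bounded sequences).
`Tr_tp2`: with `k q i = e⁻¹/(i-q)!` for `i ≥ q` and `0` otherwise, `F i = r^i f i`, `G i = r^i g i`,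
twice the difference is the double series of
`(k q i * k q' j - k q j * k q' i) (G i F j - G j F i)`, whose terms are nonnegative (both factors
have the sign of `j - i`; `(i-q)! (j-q')! ≤ (j-q)! (i-q')!` for `q ≤ q' ≤ i ≤ j`).
`Sol_tendsto`: finite support, so every `Tr` is a finite sum.
`vqg_eq`: `Vg n q = dl n q` for `n ≤ q0`; put `U i q = c i ^ q Vg (q0 + i) q / ∏_{j<i} (e A j)` with
`c 0 = A 0`, `c (i+1) = A i`; `Vg_eq_zero` turns the finite sums into `Pois`.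
`phi_le_gc`: `gc x = e^{-x} (1 - e^{-mm x}) ≥ e^{-x} min x 1 / 2`; `|phi x| ≤ C x` near zero. -/

namespace Pool.Agent.Work.MP_5391ad_co

open Real Finset Filter Topology

theorem cbase_w {r B : ℝ} {f : ℕ → ℝ} (h0 : 0 ≤ r) (h1 : r ≤ 1) (h : ∀ q, |f q| ≤ B) (k : ℕ) :
    |r ^ k * f k| ≤ B * exp (0 * k) := by
  rw [zero_mul, exp_zero, mul_one, abs_mul, abs_of_nonneg (pow_nonneg h0 k)]
  exact (mul_le_of_le_one_left (abs_nonneg _) (pow_le_one₀ h0 h1)).trans (h k)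

theorem cbase_abs {h g : ℕ → ℝ} {C c : ℝ} (hg : ∀ k, |g k| ≤ C * exp (c * k))
    (hle : ∀ k, |h k| ≤ g k) (q : ℕ) : |Pois h q| ≤ Pois g q :=
  tsum_of_norm_bounded (f := fun k : ℕ => exp (-1) / k.factorial * h (q + k))
    (pois_summable hg q).hasSum fun k => by
    rw [Real.norm_eq_abs, abs_mul, abs_of_nonneg (aexp_p_nonneg k)]
    exact mul_le_mul_of_nonneg_left (hle _) (aexp_p_nonneg k)

theorem cbase_two {f g : ℕ → ℝ} (hf : Bdd f) (hg : Bdd g) :
    ∃ B, (∀ q, |f q| ≤ B) ∧ ∀ q, |g q| ≤ B := by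
  obtain ⟨B, h⟩ := hf
  obtain ⟨B', h'⟩ := hg
  exact ⟨max B B', fun q => (h q).trans (le_max_left _ _), fun q => (h' q).trans (le_max_right _ _)⟩

theorem Tr_bdd {r B : ℝ} {f : ℕ → ℝ} (h0 : 0 ≤ r) (h1 : r ≤ 1) (h : ∀ q, |f q| ≤ B) (q : ℕ) :
    |Tr r f q| ≤ B := by
  have hB : 0 ≤ B := (abs_nonneg _).trans (h 0)
  cases q with
  | zero => simpa [Tr] using hB
  | succ q =>
    refine (cbase_abs (h := fun k => r ^ k * f k) (g := fun _ => B) (C := B) (c := 0)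
      (fun k => by simp [abs_of_nonneg hB])
      (fun k => (cbase_w h0 h1 h k).trans (by simp)) q).trans (le_of_eq ?_)
    rw [Pois, tsum_mul_right, aexp_m0.tsum_eq, one_mul]

theorem Tr_lin {r : ℝ} {f g : ℕ → ℝ} (h0 : 0 ≤ r) (h1 : r ≤ 1) (hf : Bdd f) (hg : Bdd g)
    (a b : ℝ) (q : ℕ) : Tr r (fun k => a * f k + b * g k) q = a * Tr r f q + b * Tr r g q := by
  obtain ⟨B, hf, hg⟩ := cbase_two hf hg
  cases q with
  | zero => simp [Tr]
  | succ q =>
    simp only [Tr]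
    rw [← pois_add (cbase_w h0 h1 hf) (cbase_w h0 h1 hg)]
    congr 1
    funext k
    ring

theorem Tr_mono {r : ℝ} {f g : ℕ → ℝ} (h0 : 0 ≤ r) (h1 : r ≤ 1) (hf : Bdd f) (hg : Bdd g)
    (h : ∀ q, f q ≤ g q) (q : ℕ) : Tr r f q ≤ Tr r g q := by
  obtain ⟨B, hf, hg⟩ := cbase_two hf hg
  cases q with
  | zero => exact le_rfl
  | succ q =>
    exact pois_mono (cbase_w h0 h1 hf) (cbase_w h0 h1 hg)
      (fun k => mul_le_mul_of_nonneg_left (h k) (pow_nonneg h0 k)) q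

theorem cbase_mul {u v : ℕ → ℝ} {a b : ℝ} (hu : HasSum u a) (hv : HasSum v b) :
    HasSum (fun x : ℕ × ℕ => u x.1 * v x.2) (a * b) :=
  hu.mul hv (summable_mul_of_summable_norm hu.summable.norm hv.summable.norm)

theorem cbase_anti {u v F G : ℕ → ℝ} {A B C D : ℝ} (hA : HasSum (fun i => u i * G i) A)
    (hB : HasSum (fun i => u i * F i) B) (hC : HasSum (fun i => v i * G i) C)
    (hD : HasSum (fun i => v i * F i) D) (h1 : ∀ i j, i ≤ j → v i * u j ≤ u i * v j)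
    (h2 : ∀ i j, i ≤ j → G j * F i ≤ G i * F j) : C * B ≤ A * D := by
  have s := (((cbase_mul hA hD).sub (cbase_mul hB hC)).sub (cbase_mul hC hB)).add (cbase_mul hD hA)
  have := s.nonneg fun x => by
    obtain ⟨i, j⟩ := x
    rcases le_total i j with k | k
    · have := mul_nonneg (sub_nonneg.2 (h1 i j k)) (sub_nonneg.2 (h2 i j k))
      linarith only [this]
    · have := mul_nonneg (sub_nonneg.2 (h1 j i k)) (sub_nonneg.2 (h2 j i k))
      linarith
  linarith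

/-- the kernel -/
noncomputable def cbase_k (a i : ℕ) : ℝ := if a ≤ i then exp (-1) / (i - a).factorial else 0

theorem cbase_k_sum {h : ℕ → ℝ} {C c : ℝ} (hh : ∀ k, |h k| ≤ C * exp (c * k)) (a : ℕ) :
    HasSum (fun i => cbase_k a i * h i) (Pois h a) := by
  refine (hasSum_nat_add_iff' a).1 ?_
  rw [sum_eq_zero fun i hi => by rw [cbase_k, if_neg (by simpa using hi), zero_mul], sub_zero]
  refine aexp_congr (pois_summable hh a).hasSum (fun k => ?_) rfl
  rw [cbase_k, if_pos (Nat.le_add_left a k), Nat.add_sub_cancel, add_comm]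

theorem cbase_fac {x y : ℕ} (h : x ≤ y) (d : ℕ) :
    (x + d).factorial * y.factorial ≤ x.factorial * (y + d).factorial := by
  induction d with
  | zero => exact le_rfl
  | succ d ih =>
    rw [← add_assoc, ← add_assoc, Nat.factorial_succ, Nat.factorial_succ, mul_assoc,
      mul_left_comm x.factorial]
    exact Nat.mul_le_mul (by omega) ih

theorem cbase_k_tp {a b i j : ℕ} (h1 : a ≤ b) (h2 : i ≤ j) :
    cbase_k b i * cbase_k a j ≤ cbase_k a i * cbase_k b j := by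
  by_cases h : b ≤ i
  · simp only [cbase_k, if_pos h, if_pos (h1.trans h), if_pos (h.trans h2),
      if_pos ((h1.trans h).trans h2)]
    rw [div_mul_div_comm, div_mul_div_comm]
    refine div_le_div_of_nonneg_left (by positivity) (by positivity) ?_
    have := cbase_fac (x := i - b) (y := j - b) (by omega) (b - a)
    rw [show i - b + (b - a) = i - a by omega, show j - b + (b - a) = j - a by omega] at this
    exact_mod_cast this
  · rw [cbase_k, if_neg h, zero_mul]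
    refine mul_nonneg ?_ ?_ <;> rw [cbase_k] <;> split_ifs <;> positivity

theorem Tr_tp2 {r : ℝ} {f g : ℕ → ℝ} (h0 : 0 ≤ r) (h1 : r ≤ 1) (hf : Bdd f) (hg : Bdd g)
    (h : ∀ i j, i ≤ j → g j * f i ≤ g i * f j) {q q' : ℕ} (hq : q ≤ q') :
    Tr r g q' * Tr r f q ≤ Tr r g q * Tr r f q' := by
  obtain ⟨B, hf, hg⟩ := cbase_two hf hg
  cases q with
  | zero => simp [Tr]
  | succ q =>
    obtain ⟨q', rfl⟩ := Nat.exists_eq_add_of_le' (show 1 ≤ q' by omega)
    refine cbase_anti (cbase_k_sum (cbase_w h0 h1 hg) q) (cbase_k_sum (cbase_w h0 h1 hf) q)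
      (cbase_k_sum (cbase_w h0 h1 hg) q') (cbase_k_sum (cbase_w h0 h1 hf) q')
      (fun i j k => cbase_k_tp (by omega) k) fun i j k => ?_
    have := mul_le_mul_of_nonneg_left (h i j k) (mul_nonneg (pow_nonneg h0 i) (pow_nonneg h0 j))
    linarith only [this]

section
variable {r r' : ℕ → ℝ} {n0 i : ℕ} {f g : ℕ → ℝ}

theorem Sol_add (r : ℕ → ℝ) (n0 : ℕ) (f : ℕ → ℝ) (i j : ℕ) :
    Sol r n0 f (i + j) = Sol r (n0 + i) (Sol r n0 f i) j := by
  induction j with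
  | zero => rfl
  | succ j ih => rw [← add_assoc, Sol, Sol, ih, add_assoc]

theorem Sol_congr {n1 : ℕ} (h : ∀ j < i, r (n0 + j) = r' (n1 + j)) :
    Sol r n0 f i = Sol r' n1 f i := by
  induction i with
  | zero => rfl
  | succ i ih => rw [Sol, Sol, ih fun j hj => h j (by omega), h i (by omega)]

theorem Sol_bdd {B : ℝ} (hr : ∀ j < i, 0 ≤ r (n0 + j) ∧ r (n0 + j) ≤ 1) (h : ∀ q, |f q| ≤ B)
    (q : ℕ) : |Sol r n0 f i q| ≤ B := by
  induction i generalizing q with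
  | zero => exact h q
  | succ i ih =>
    exact Tr_bdd (hr i (by omega)).1 (hr i (by omega)).2 (ih fun j hj => hr j (by omega)) q

theorem cbase_bdd (hr : ∀ j < i, 0 ≤ r (n0 + j) ∧ r (n0 + j) ≤ 1) (hf : Bdd f) :
    Bdd (Sol r n0 f i) :=
  hf.imp fun _ h => Sol_bdd hr h

theorem Sol_lin (hr : ∀ j < i, 0 ≤ r (n0 + j) ∧ r (n0 + j) ≤ 1) (hf : Bdd f) (hg : Bdd g)
    (a b : ℝ) (q : ℕ) : Sol r n0 (fun k => a * f k + b * g k) i q =
      a * Sol r n0 f i q + b * Sol r n0 g i q := by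
  induction i generalizing q with
  | zero => rfl
  | succ i ih =>
    have hr' : ∀ j < i, 0 ≤ r (n0 + j) ∧ r (n0 + j) ≤ 1 := fun j hj => hr j (by omega)
    rw [Sol, Sol, Sol, funext (ih hr')]
    exact Tr_lin (hr i (by omega)).1 (hr i (by omega)).2 (cbase_bdd hr' hf) (cbase_bdd hr' hg) a b q

theorem Sol_mono (hr : ∀ j < i, 0 ≤ r (n0 + j) ∧ r (n0 + j) ≤ r' (n0 + j) ∧ r' (n0 + j) ≤ 1)
    (hf : Bdd f) (hg : Bdd g) (h : ∀ q, |f q| ≤ g q) (q : ℕ) :
    |Sol r n0 f i q| ≤ Sol r' n0 g i q := by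
  induction i generalizing q with
  | zero => exact h q
  | succ i ih =>
    have ih' := ih fun j hj => hr j (by omega)
    obtain ⟨h1, h2, h3⟩ := hr i (by omega)
    obtain ⟨B, hB⟩ := cbase_bdd (r := r') (n0 := n0) (i := i)
      (fun j hj => ⟨(hr j (by omega)).1.trans (hr j (by omega)).2.1, (hr j (by omega)).2.2⟩) hg
    cases q with
    | zero => simp [Sol, Tr]
    | succ q =>
      refine cbase_abs (h := fun k => r (n0 + i) ^ k * Sol r n0 f i k)
        (cbase_w (h1.trans h2) h3 hB) (fun k => ?_) q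
      rw [abs_mul, abs_of_nonneg (pow_nonneg h1 k)]
      exact mul_le_mul (pow_le_pow_left₀ h1 h2 k) (ih' k) (abs_nonneg _)
        (pow_nonneg (h1.trans h2) k)

theorem Sol_le (hr : ∀ j < i, 0 ≤ r (n0 + j) ∧ r (n0 + j) ≤ 1)
    (hf : Bdd f) (hg : Bdd g) (h : ∀ q, f q ≤ g q) (q : ℕ) :
    Sol r n0 f i q ≤ Sol r n0 g i q := by
  induction i generalizing q with
  | zero => exact h q
  | succ i ih =>
    have hr' : ∀ j < i, 0 ≤ r (n0 + j) ∧ r (n0 + j) ≤ 1 := fun j hj => hr j (by omega)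
    exact Tr_mono (hr i (by omega)).1 (hr i (by omega)).2 (cbase_bdd hr' hf) (cbase_bdd hr' hg)
      (ih hr') q

theorem Sol_supp {Q : ℕ} (h : ∀ q, Q < q → f q = 0) {q : ℕ} (hq : Q + i < q) :
    Sol r n0 f i q = 0 := by
  induction i generalizing q with
  | zero => exact h q hq
  | succ i ih =>
    obtain ⟨q, rfl⟩ := Nat.exists_eq_add_of_le' (show 1 ≤ q by omega)
    simp only [Sol, Tr, Pois]
    rw [← tsum_zero (α := ℝ) (β := ℕ)]
    exact tsum_congr fun k => by rw [ih (by omega), mul_zero, mul_zero]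

theorem cbase_dl (q0 q : ℕ) : 0 ≤ dl q0 q ∧ |dl q0 q| ≤ 1 := by
  rw [dl]
  split_ifs <;> simp

theorem cbase_lower {ρ : ℝ} (hρ : 0 ≤ ρ) {m : ℕ} (hm : i ≤ m)
    (hr : ∀ j < i, ρ ≤ r (n0 + j) ∧ r (n0 + j) ≤ 1) {q : ℕ}
    (h1 : 1 ≤ q) (h2 : q ≤ i + 1) : (exp (-1) * ρ ^ m) ^ i ≤ Sol r n0 (dl 1) i q := by
  induction i generalizing q with
  | zero =>
    obtain rfl : q = 1 := by omega
    simp [Sol, dl]
  | succ i ih =>
    have ih' := fun q => ih (q := q) (by omega) fun j hj => hr j (by omega)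
    have hr' : ∀ j < i, 0 ≤ r (n0 + j) ∧ r (n0 + j) ≤ 1 :=
      fun j hj => ⟨hρ.trans (hr j (by omega)).1, (hr j (by omega)).2⟩
    obtain ⟨r1, r2⟩ := hr i (by omega)
    have hb : Bdd (dl 1) := ⟨1, fun q => (cbase_dl 1 q).2⟩
    have hp : ∀ q, 0 ≤ Sol r n0 (dl 1) i q := fun q => (abs_nonneg _).trans
      (Sol_mono (fun j hj => ⟨(hr' j hj).1, le_rfl, (hr' j hj).2⟩) hb hb
        (fun q => (abs_of_nonneg (cbase_dl 1 q).1).le) q)
    obtain ⟨q, rfl⟩ := Nat.exists_eq_add_of_le' h1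
    obtain ⟨k, k1, k2, k3⟩ : ∃ k : ℕ, k.factorial = 1 ∧ 1 ≤ q + k ∧ q + k ≤ i + 1 := by
      rcases Nat.eq_zero_or_pos q with e | e
      · exact ⟨1, rfl, by omega, by omega⟩
      · exact ⟨0, rfl, by omega, by omega⟩
    refine le_trans ?_ ((pois_summable (cbase_w (hρ.trans r1) r2
      (Sol_bdd hr' fun q => (cbase_dl 1 q).2)) q).le_tsum k fun j _ =>
        mul_nonneg (aexp_p_nonneg j) (mul_nonneg (pow_nonneg (hρ.trans r1) _) (hp _)))
    rw [k1, Nat.cast_one, div_one, pow_succ', mul_assoc]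
    refine mul_le_mul_of_nonneg_left (mul_le_mul ?_ (ih' _ k2 k3) (by positivity)
      (pow_nonneg (hρ.trans r1) _)) (exp_pos _).le
    exact (pow_le_pow_of_le_one hρ (r1.trans r2) (by omega)).trans (pow_le_pow_left₀ hρ r1 _)

/-- keep the offspring numbers `0` and `1` -/
theorem Sol_dl_lower {ρ : ℝ} (hρ : 0 ≤ ρ) (hr : ∀ j < i, ρ ≤ r (n0 + j) ∧ r (n0 + j) ≤ 1) {q : ℕ}
    (h1 : 1 ≤ q) (h2 : q ≤ i + 1) : (exp (-1) * ρ ^ (i + 1)) ^ i ≤ Sol r n0 (dl 1) i q :=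
  cbase_lower hρ (Nat.le_succ i) hr h1 h2

theorem cbase_exp {δ : ℝ} (hδ : 0 ≤ δ) : exp (-δ) - 1 - -δ ≤ δ ^ 2 / 2 := by
  have a := quadratic_le_exp_of_nonneg hδ
  have b : exp (-δ) * exp δ = 1 := by rw [← exp_add, neg_add_cancel, exp_zero]
  have c := mul_le_mul_of_nonneg_left a (exp_pos (-δ)).le
  have d : 0 < 1 + δ + δ ^ 2 / 2 := by positivity
  refine le_of_mul_le_mul_right ?_ d
  linarith only [b, c, sq_nonneg (δ ^ 2), sq_nonneg (δ ^ (2 : ℕ))]

theorem Sol_exp {δ M : ℝ} (hδ : 0 ≤ δ) (hr : ∀ j < i, 0 ≤ r (n0 + j) ∧ r (n0 + j) ≤ 1)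
    (h : ∀ q, |f q| ≤ M * exp (-(δ * q))) (q : ℕ) :
    |Sol r n0 f i q| ≤ M * exp (i * δ ^ 2 / 2) * exp (-(δ * q)) := by
  have hM : 0 ≤ M := by simpa using (abs_nonneg _).trans (h 0)
  induction i generalizing q with
  | zero => simpa [Sol] using h q
  | succ i ih =>
    have ih' := ih fun j hj => hr j (by omega)
    obtain ⟨h1, h2⟩ := hr i (by omega)
    cases q with
    | zero =>
      simp only [Sol, Tr, abs_zero]
      positivity
    | succ q =>
      refine (cbase_abs (h := fun k => r (n0 + i) ^ k * Sol r n0 f i k)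
        (g := fun k => M * exp (i * δ ^ 2 / 2) * exp (-δ * k))
        (C := M * exp (i * δ ^ 2 / 2)) (c := -δ) (fun k => (abs_of_nonneg (by positivity)).le)
        (fun k => ?_) q).trans ?_
      · rw [abs_mul, abs_of_nonneg (pow_nonneg h1 k), neg_mul]
        exact (mul_le_of_le_one_left (abs_nonneg _) (pow_le_one₀ h1 h2)).trans (ih' k)
      · have e : Pois (fun k => M * exp (i * δ ^ 2 / 2) * exp (-δ * k)) q =
            M * exp (i * δ ^ 2 / 2) * Pois (fun k => exp (-δ * k)) q := by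
          simp only [Pois]
          rw [← tsum_mul_left]
          exact tsum_congr fun k => by ring
        rw [e, pois_exp, mul_assoc, mul_assoc, ← exp_add, ← exp_add, ← exp_add]
        refine mul_le_mul_of_nonneg_left (exp_le_exp.2 ?_) hM
        have := cbase_exp hδ
        push_cast
        linarith only [this]

end

theorem Sol_tendsto {ι : Type*} {l : Filter ι} {r : ι → ℕ → ℝ} {r0 : ℕ → ℝ} {n0 i : ℕ}
    (h : ∀ j < i, Tendsto (fun x => r x (n0 + j)) l (𝓝 (r0 (n0 + j)))) (q0 q : ℕ) :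
    Tendsto (fun x => Sol (r x) n0 (dl q0) i q) l (𝓝 (Sol r0 n0 (dl q0) i q)) := by
  induction i generalizing q with
  | zero => exact tendsto_const_nhds
  | succ i ih =>
    have ih' := ih fun j hj => h j (by omega)
    cases q with
    | zero => exact tendsto_const_nhds
    | succ q =>
      have e : ∀ s : ℕ → ℝ, Sol s n0 (dl q0) (i + 1) (q + 1) = ∑ k ∈ range (q0 + i + 1),
          exp (-1) / k.factorial * (s (n0 + i) ^ (q + k) * Sol s n0 (dl q0) i (q + k)) := by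
        intro s
        refine tsum_eq_sum fun k hk => ?_
        have z : Sol s n0 (dl q0) i (q + k) = 0 :=
          Sol_supp (Q := q0) (fun q hq => if_neg hq.ne') (by simp only [mem_range] at hk; omega)
        simp only [z, mul_zero]
      simp only [e]
      exact tendsto_finsetSum _ fun k _ => (((h i (by omega)).pow _).mul (ih' _)).const_mul _

theorem cbase_step {P a c : ℝ} {S V : ℕ → ℝ} {n : ℕ} (hc : c ≠ 0) (h : ∀ k, P * S k = c ^ k * V k)
    (hV : ∀ k, n < k → V k = 0) (q : ℕ) :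
    exp 1 * P * Pois (fun k => (a / c) ^ k * S k) q =
      a ^ q * ∑ k ∈ range (n + 1), ((k.factorial : ℝ)⁻¹ • a ^ k) * V (q + k) := by
  rw [Pois, ← tsum_mul_left, mul_sum,
    ← tsum_eq_sum (L := SummationFilter.unconditional ℕ) fun k hk => by
      rw [hV _ (by simp only [mem_range] at hk; omega), mul_zero, mul_zero]]
  refine tsum_congr fun k => ?_
  have e : exp 1 * P * (exp (-1) / k.factorial * ((a / c) ^ (q + k) * S (q + k))) =
      exp 1 * exp (-1) / k.factorial * (a / c) ^ (q + k) * (P * S (q + k)) := by ring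
  rw [e, h, ← exp_add, add_neg_cancel, exp_zero, div_pow, smul_eq_mul, pow_add a]
  field_simp

theorem cbase_start {A : ℕ → ℝ} {n : ℕ} (hA : ∀ i < n, A i = 0) (q : ℕ) :
    Vg A (fun _ => 1) n q = dl n q := by
  induction n generalizing q with
  | zero => rfl
  | succ n ih =>
    cases q with
    | zero => simp [Vg, dl]
    | succ q =>
      rw [Vg, hA n (by omega), sum_eq_single 0 (fun k _ hk => by simp [hk]) (by simp),
        ih fun i hi => hA i (by omega)]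
      simp [dl]

theorem vqg_eq {a0 : ℝ} {A : ℕ → ℝ} {B q0 : ℕ} (hB : 1 ≤ B) (hq : 1 ≤ q0)
    (hA : ∀ n < B, 0 < A n) : VQg a0 A B q0 = exp 1 * A 0 ^ q0 * (∏ i ∈ range B, (exp 1 * A i)) *
      Sol (rsA a0 A B) 0 (dl q0) (B + 1) 1 := by
  have key : ∀ i ≤ B, ∀ q, A 0 ^ q0 * (∏ j ∈ range i, (exp 1 * A j)) *
      Sol (rsA a0 A B) 0 (dl q0) i q = A (i - 1) ^ q *
        Vg (fun n => if n < q0 then 0 else A (n - q0)) (fun _ => 1) (i + q0) q := by
    intro i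
    induction i with
    | zero =>
      intro _ q
      rw [zero_add, cbase_start fun i hi => if_pos hi, Sol, dl]
      split_ifs with h
      · simp [h]
      · simp
    | succ i ih =>
      intro hi q
      rw [show i + 1 + q0 = i + q0 + 1 by omega]
      cases q with
      | zero => simp [Sol, Tr, Vg]
      | succ q =>
        have e : rsA a0 A B (0 + i) = A i / A (i - 1) := by
          rw [zero_add, rsA]
          split_ifs with h1 h2
          · rw [h1, div_self (hA _ (by omega)).ne']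
          · rfl
          · omega
        have k := cbase_step (a := A i) (hA (i - 1) (by omega)).ne' (ih (by omega))
          (fun k hk => Vg_eq_zero _ _ hk) q
        rw [Vg, if_neg (by omega), Nat.add_sub_cancel, Nat.add_sub_cancel, one_mul, pow_succ',
          mul_assoc (A i), ← k, Sol, Tr, e, prod_range_succ]
        ring
  have e : rsA a0 A B (0 + B) = a0 / A (B - 1) := by
    rw [zero_add, rsA, if_neg (by omega), if_neg (lt_irrefl B)]
  have k := cbase_step (a := a0) (hA (B - 1) (by omega)).ne' (key B le_rfl)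
    (fun k hk => Vg_eq_zero _ _ hk) 0
  simp only [pow_zero, one_mul, zero_add] at k
  rw [VQg, Vol, ← k, Sol, Tr, e]
  ring

theorem cbase_gc (x : ℝ) : gc x = exp (-x) * (1 - exp (-(mm * x))) := by
  rw [gc, mul_sub, mul_one, ← exp_add]
  congr 2
  ring

theorem cbase_mm : 24 ≤ mm := by
  have := kap0_pos
  rw [mm]
  linarith

theorem gc_basic : 24 ≤ mm ∧ gc 0 = 0 ∧ ∀ x, 0 ≤ x → 0 ≤ gc x ∧ gc x ≤ exp (-x) ∧
    gc x ≤ mm * x ∧ exp (-x) * min x 1 / 2 ≤ gc x := by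
  have hm := cbase_mm
  refine ⟨hm, by simp [gc], fun x hx => ?_⟩
  have h0 : 0 ≤ mm * x := by positivity
  obtain ⟨a, b⟩ := awalk_psi h0
  have c : exp (-x) ≤ 1 := exp_le_one_iff.2 (by linarith)
  have d := exp_pos (-x)
  rw [cbase_gc]
  refine ⟨mul_nonneg d.le a, mul_le_of_le_one_right d.le b,
    (mul_le_of_le_one_left a c).trans (by linarith [add_one_le_exp (-(mm * x))]), ?_⟩
  rw [mul_div_assoc]
  refine mul_le_mul_of_nonneg_left ?_ d.le
  have t0 : 0 ≤ min x 1 := le_min hx zero_le_one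
  have t1 : min x 1 ≤ 1 := min_le_right _ _
  have t2 : min x 1 ≤ mm * x := (min_le_left _ _).trans (by linarith only [h0, hm, hx, mul_nonneg_of_nonpos_of_nonpos (Mathlib.Tactic.Linarith.sub_nonpos_of_le hm) (Mathlib.Tactic.Linarith.sub_nonpos_of_le hx)])
  generalize min x 1 = t at t0 t1 t2
  have e1 : exp (-(mm * x)) ≤ exp (-t) := exp_le_exp.2 (by linarith)
  have e2 : exp (-t) * exp t = 1 := by rw [← exp_add, neg_add_cancel, exp_zero]
  have e3 := mul_le_mul_of_nonneg_left (add_one_le_exp t) (exp_pos (-t)).le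
  have e4 : exp (-t) ≤ 1 - t / 2 := by
    refine le_of_mul_le_mul_right ?_ (show 0 < t + 1 by linarith)
    linarith only [e2, e3, t0, t1, mul_nonneg_of_nonpos_of_nonpos (Mathlib.Tactic.Linarith.sub_nonpos_of_le t0) (Mathlib.Tactic.Linarith.sub_nonpos_of_le t1)]
  linarith only [e1, e4]

theorem gc_shift {x y : ℝ} (hx : 0 ≤ x) (hy : 0 ≤ y) : gc x ≤ exp y * gc (x + y) := by
  have hm := cbase_mm
  rw [cbase_gc, cbase_gc, ← mul_assoc, ← exp_add, show y + -(x + y) = -x by ring]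
  refine mul_le_mul_of_nonneg_left (sub_le_sub_left (exp_le_exp.2 ?_) 1) (exp_pos _).le
  linarith only [hy, hm, mul_nonneg_of_nonpos_of_nonpos (Mathlib.Tactic.Linarith.sub_nonpos_of_le hy) (Mathlib.Tactic.Linarith.sub_nonpos_of_le hm)]

theorem phi_le_gc : ∃ C : ℝ, 1 ≤ C ∧ ∀ x, 0 ≤ x → 0 ≤ phi x ∧ phi x ≤ C * gc x ∧
    (x - kap0) ^ 2 / 6 * phi x ≤ C * gc x ∧ x ^ 2 / 2 * phi x ≤ C * gc x ∧
    (x ≤ 1 → |phi x - x| ≤ C * x ^ 3) ∧
    ∀ y, x ≤ y → y ≤ 2 * x → x * |phi y - phi x| ≤ C * (y - x) * gc y := by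
  have h := phi_spec
  have hκ := kap0_pos
  obtain ⟨C, hC⟩ := h.dec 3
  have hC0 : 0 ≤ C := by simpa using (abs_nonneg _).trans (hC 0 le_rfl).1
  obtain ⟨B, hB0, hB⟩ := aexp_bounds h
  have mvt : ∀ x y, 0 ≤ x → x ≤ y → |phi y - phi x| ≤ C * exp (-(3 * x)) * (y - x) := by
    intro x y hx hxy
    have := aexp_mvt (x := x) (y := y) (M := C * exp (-(3 * x))) h.d1 (fun t ht => by
      rw [Set.uIcc_of_le hxy] at ht
      exact (hC t (hx.trans ht.1)).2.trans (mul_le_mul_of_nonneg_left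
        (exp_le_exp.2 (by linarith [ht.1])) hC0)) y Set.right_mem_uIcc
    rwa [abs_of_nonneg (sub_nonneg.2 hxy)] at this
  have key : ∀ x, 0 ≤ x → exp x * phi x ≤ 2 * (C * exp 2) * gc x := by
    intro x hx
    have a : exp x * phi x ≤ C * exp 2 * (exp (-x) * min x 1) := by
      rcases le_total x 1 with k | k
      · have b := mvt 0 x le_rfl hx
        rw [h.zero, sub_zero, sub_zero, mul_zero, neg_zero, exp_zero, mul_one] at b
        have c : exp x ≤ exp 2 * exp (-x) := by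
          rw [← exp_add]
          exact exp_le_exp.2 (by linarith)
        rw [min_eq_left k]
        calc exp x * phi x ≤ exp 2 * exp (-x) * (C * x) :=
              mul_le_mul c ((le_abs_self _).trans b) (awalk_phi_nonneg h hx) (by positivity)
          _ = _ := by ring
      · have c : exp x * exp (-(3 * x)) ≤ exp 2 * exp (-x) := by
          rw [← exp_add, ← exp_add]
          exact exp_le_exp.2 (by linarith)
        rw [min_eq_right k]
        calc exp x * phi x ≤ exp x * (C * exp (-(3 * x))) :=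
              mul_le_mul_of_nonneg_left ((le_abs_self _).trans (hC x hx).1) (exp_pos _).le
          _ = C * (exp x * exp (-(3 * x))) := by ring
          _ ≤ C * (exp 2 * exp (-x)) := mul_le_mul_of_nonneg_left c hC0
          _ = _ := by ring
    have b := mul_le_mul_of_nonneg_left (gc_basic.2.2 x hx).2.2.2
      (show 0 ≤ 2 * (C * exp 2) by positivity)
    linarith only [a, b]
  have p1 : 0 ≤ 2 * (C * exp 2) * (1 + kap0 ^ 2) := by positivity
  have p2 : 0 ≤ 4 * B + 2 * kap0 * B := by positivity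
  refine ⟨1 + 2 * (C * exp 2) * (1 + kap0 ^ 2) + (4 * B + 2 * kap0 * B) + 2 * C, by linarith,
    fun x hx => ?_⟩
  have g0 := (gc_basic.2.2 x hx).1
  have f0 := awalk_phi_nonneg h hx
  have w : ∀ u : ℝ, u ≤ (1 + kap0 ^ 2) * exp x → u * phi x ≤
      (1 + 2 * (C * exp 2) * (1 + kap0 ^ 2) + (4 * B + 2 * kap0 * B) + 2 * C) * gc x := by
    intro u hu
    calc u * phi x ≤ (1 + kap0 ^ 2) * exp x * phi x := mul_le_mul_of_nonneg_right hu f0
      _ = (1 + kap0 ^ 2) * (exp x * phi x) := by ring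
      _ ≤ (1 + kap0 ^ 2) * (2 * (C * exp 2) * gc x) :=
          mul_le_mul_of_nonneg_left (key x hx) (by positivity)
      _ = 2 * (C * exp 2) * (1 + kap0 ^ 2) * gc x := by ring
      _ ≤ _ := mul_le_mul_of_nonneg_right (by linarith) g0
  have q1 := quadratic_le_exp_of_nonneg hx
  have q2 : kap0 ^ 2 ≤ kap0 ^ 2 * exp x :=
    le_mul_of_one_le_right (sq_nonneg _) (one_le_exp hx)
  have q3 := sq_nonneg x
  have q4 := sq_nonneg kap0
  refine ⟨f0, ?_, w _ ?_, w _ ?_, fun _ => ?_, fun y hxy hy => ?_⟩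
  · have := w 1 (by linarith only [hx, q1, q2, q3, q4])
    rwa [one_mul] at this
  · linarith only [hx, q1, q2, hκ, mul_nonneg hx hκ.le, sq_nonneg x, sq_nonneg kap0]
  · linarith only [hx, q1, q2, q4]
  · have t := aexp_tay (f2 := fun x => 2 * (x - kap0) * phi x)
      (f3 := fun x => 2 * phi x + 2 * (x - kap0) * phi1 x) (M := 4 * B + 2 * kap0 * B)
      (x := 0) (y := x) h.d1 h.d2 (fun t => by
        exact ((((hasDerivAt_id' t).sub_const kap0).const_mul 2).fun_mul (h.d1 t)).congr_deriv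
          (by ring)) (fun t ht => by
        obtain ⟨b1, b2, b3, -⟩ := hB t ht
        have b4 : |t - kap0| ≤ t + kap0 := abs_le.2 ⟨by linarith only [ht], by linarith only [hκ]⟩
        have b5 := mul_le_mul_of_nonneg_right b4 (abs_nonneg (phi1 t))
        have b6 := mul_le_mul_of_nonneg_left b2 hκ.le
        refine (abs_add_le _ _).trans ?_
        rw [abs_mul, abs_mul, abs_mul, abs_two]
        linarith only [b1, b3, b5, b6]) le_rfl hx
    simp only [h.zero, h.one, mul_zero, zero_div, zero_mul, add_zero, zero_add, sub_zero, one_mul,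
      abs_of_nonneg hx] at t
    exact t.trans (mul_le_mul_of_nonneg_right (by linarith only [hC0, p1]) (by positivity))
  · have hy0 := hx.trans hxy
    have a : x * exp (-(3 * x)) ≤ exp (-y) * min y 1 := by
      have b : exp (-(3 * x)) ≤ exp (-y) * exp (-x) := by
        rw [← exp_add]
        exact exp_le_exp.2 (by linarith only [hy])
      have c : x * exp (-x) ≤ min y 1 := by
        have e2 : exp (-x) * exp x = 1 := by rw [← exp_add, neg_add_cancel, exp_zero]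
        have e3 := mul_le_mul_of_nonneg_left (add_one_le_exp x) (exp_pos (-x)).le
        have e4 := exp_pos (-x)
        exact le_min ((mul_le_of_le_one_right hx (exp_le_one_iff.2 (by linarith only [hx]))).trans hxy)
          (by linarith only [e2, e3, e4])
      calc x * exp (-(3 * x)) ≤ x * (exp (-y) * exp (-x)) := mul_le_mul_of_nonneg_left b hx
        _ = exp (-y) * (x * exp (-x)) := by ring
        _ ≤ _ := mul_le_mul_of_nonneg_left c (exp_pos _).le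
    obtain ⟨b0, -, -, b⟩ := gc_basic.2.2 y hy0
    have d := sub_nonneg.2 hxy
    calc x * |phi y - phi x| ≤ x * (C * exp (-(3 * x)) * (y - x)) :=
          mul_le_mul_of_nonneg_left (mvt x y hx hxy) hx
      _ = C * (y - x) * (x * exp (-(3 * x))) := by ring
      _ ≤ C * (y - x) * (2 * gc y) := mul_le_mul_of_nonneg_left (by linarith only [a, b]) (by positivity)
      _ = 2 * C * (y - x) * gc y := by ring
      _ ≤ _ := mul_le_mul_of_nonneg_right (mul_le_mul_of_nonneg_right (by linarith only [p1, p2]) d) b0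

/-- far out the corrector wins -/
theorem phi_far {η : ℝ} (hη : 0 < η) : ∃ X : ℝ, ∀ x, X ≤ x → phi x ≤ η * gc x := by
  obtain ⟨C, hC⟩ := phi_spec.dec 2
  refine ⟨max 1 (2 * C / η), fun x hx => ?_⟩
  obtain ⟨h1, h2⟩ := max_le_iff.1 hx
  have hx0 : 0 ≤ x := by linarith only [h1]
  have a := (gc_basic.2.2 x hx0).2.2.2
  rw [min_eq_right h1, mul_one] at a
  have b : 2 * C ≤ η * exp x := by
    rw [div_le_iff₀ hη] at h2
    linarith only [hη, h2, add_one_le_exp x, mul_nonneg_of_nonpos_of_nonpos (le_of_lt (Mathlib.Tactic.Linarith.sub_neg_of_lt hη)) (Mathlib.Tactic.Linarith.sub_nonpos_of_le (add_one_le_exp x))]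
  have c : exp x * exp (-(2 * x)) = exp (-x) := by
    rw [← exp_add]
    congr 1
    ring
  have d := mul_le_mul_of_nonneg_right b (exp_pos (-(2 * x))).le
  rw [mul_assoc η, c] at d
  have e := mul_le_mul_of_nonneg_left a hη.le
  have f := (le_abs_self _).trans (hC x hx0).1
  linarith only [d, e, f]

/-- the convergence criterion -/
theorem exists_lim {ι : Type*} {l : Filter ι} [l.NeBot] {G : ι → ℝ} {c0 : ℝ}
    (h0 : ∀ᶠ x in l, c0 ≤ G x) (h : ∀ ζ : ℝ, 0 < ζ → ∃ y : ℝ, ∀ᶠ x in l, |G x - y| ≤ ζ) :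
    ∃ c : ℝ, c0 ≤ c ∧ Tendsto G l (𝓝 c) := by
  have hc : Cauchy (map G l) := by
    refine Metric.cauchy_iff.2 ⟨inferInstance, fun ε hε => ?_⟩
    obtain ⟨y, hy⟩ := h (ε / 3) (by linarith only [hε])
    refine ⟨{z | |z - y| ≤ ε / 3}, hy, fun a ha b hb => ?_⟩
    have ha' := abs_le.1 (show |a - y| ≤ ε / 3 from ha)
    have hb' := abs_le.1 (show |b - y| ≤ ε / 3 from hb)
    rw [Real.dist_eq, abs_lt]
    constructor <;> linarith only [hε, ha', hb', ha'.1, ha'.2, hb'.1, hb'.2]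
  obtain ⟨c, hc⟩ := cauchy_map_iff_exists_tendsto.1 hc
  exact ⟨c, ge_of_tendsto hc h0, hc⟩

end Pool.Agent.Work.MP_5391ad_co
end
end

-- merged part: Pool.Agent.Work.MP_5391ad_co.CExp
section
/-! The sharp one step expansion. `K` Poisson(1): `E (K-1)^3 = 1`, all moments finite.
`pois_taylor4`: Taylor at `x = β (q+1)`; intermediate points `ξ ≥ β q = x - β`, so
`e^{-ξ} ≤ e e^{-x}`.
Functions of the form `P φ + Q φ'` with polynomials `P, Q` are closed under differentiation,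
`(P φ + Q φ')' = (P' + 2 (X - kap0) Q) φ + (P + Q') φ'`, and bounded by `C e^{-2 y}` on `[0,∞)`
(`phi_spec.dec`); apply `pois_taylor4` to them (lower order expansions follow).
`res_h0`: take `a1` with `K a1 ≤ 1/2`, `a1 ≤ 1/4`; then `β ≤ β' ≤ 2β`, `r ≤ 1`. With `y = β k`:
(a) `|r^k - e^{-β^3 k}| ≤ K a^2 β^2 y`; (b) `h0 β' a' k = φ + a β^2 y φ' - β φ1 - a φ2 + O(a^2 β^2 e^{-y})`
at `y`, `φ1 = (y - kap0)^2 φ/6`, `φ2 = y^2 φ/2`; (c) `e^{-β^2 y} = 1 - β^2 y + O(β^4 y^2)`; (d) expand: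
with `L f = f''/2 - y f`, `L φ = -kap0 φ`, `L φ1 = -kap0 φ1 + (y - kap0) φ'/3 + φ/6`,
`L φ2 = -kap0 φ2 + y φ' + φ/2`, `φ''' = 2 φ + 2 (y - kap0) φ'`; the result is
`(1 - kap0 β^2) h0 + (β^3/6 - a β^2/2) φ + O(a^2 β^2 e^{-x})`. `Pois (e^{-β k}) q ≤ 2 e^{-x}`.
`res_gc`: exact formula by `pois_exp`; with `ε = -log r ≥ β^3/2`, `β' ≥ β`, `m = mm`, the left side
is at most `e^{-x} e^{-β^2 x/2} (1 - e^{-m x} + 3 β^2 - (m^2/16) β^2 [x ≤ 1/m])` (compare `pois_cor`
in `AExp`); cases `x ≤ 1/m`, `x ≥ 8 (kap0 + 7)`, and in between `C = (kap0 + 7)/min φ`. -/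

namespace Pool.Agent.Work.MP_5391ad_co

open Real Finset

theorem cexp_m3 :
    HasSum (fun k : ℕ => exp (-1) / (k.factorial : ℝ) * (k * (k - 1) * (k - 2))) 1 := by
  refine aexp_congr (aexp_shift (f := fun k => (k : ℝ) * (k - 1)) aexp_m2) (fun k => ?_) rfl
  rcases k with _ | k
  · simp
  · simp only [Nat.add_sub_cancel]
    push_cast
    ring

/-- the fourth central moment -/
noncomputable def cexp_C : ℝ := ∑' k : ℕ, exp (-1) / (k.factorial : ℝ) * |(k : ℝ) - 1| ^ 4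

theorem cexp_m4 :
    HasSum (fun k : ℕ => exp (-1) / (k.factorial : ℝ) * |(k : ℝ) - 1| ^ 4) cexp_C := by
  have h := pois_summable (h := fun k => |(k : ℝ) - 1| ^ 4) (C := 1) (c := 4) (fun k => ?_) 0
  · unfold cexp_C
    simpa only [zero_add] using h.hasSum
  · have h1 : |(k : ℝ) - 1| ≤ exp k := by
      have : (0 : ℝ) ≤ k := Nat.cast_nonneg k
      rw [abs_le]
      constructor <;> linarith only [add_one_le_exp (k : ℝ)]
    rw [abs_of_nonneg (by positivity), one_mul, show (4 : ℝ) = (4 : ℕ) by norm_num, exp_nat_mul]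
    gcongr

theorem cexp_main {h : ℕ → ℝ} {q : ℕ} {a b c d v : ℝ}
    (H : ∀ k : ℕ, |h (q + k) - (a + b * (k - 1) + c * (k - 1) ^ 2 + d * (k - 1) ^ 3)| ≤
      v * |(k : ℝ) - 1| ^ 4) : |Pois h q - (a + c + d)| ≤ v * cexp_C := by
  have h1 : HasSum (fun k : ℕ => exp (-1) / (k.factorial : ℝ) *
      (a + b * (k - 1) + c * (k - 1) ^ 2 + d * (k - 1) ^ 3)) (a + c + d) :=
    aexp_congr ((((aexp_m0.mul_left (a - b + c - d)).add (aexp_m1.mul_left (b - c + d))).add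
      (aexp_m2.mul_left c)).add (cexp_m3.mul_left d)) (fun k => by ring) (by ring)
  have h2 : HasSum (fun k : ℕ => exp (-1) / (k.factorial : ℝ) * (v * |(k : ℝ) - 1| ^ 4))
      (v * cexp_C) := aexp_congr (cexp_m4.mul_left v) (fun k => by ring) rfl
  have hb : ∀ k : ℕ, ‖exp (-1) / (k.factorial : ℝ) *
      (h (q + k) - (a + b * (k - 1) + c * (k - 1) ^ 2 + d * (k - 1) ^ 3))‖ ≤
      exp (-1) / (k.factorial : ℝ) * (v * |(k : ℝ) - 1| ^ 4) := fun k => by
    rw [norm_mul, Real.norm_of_nonneg (aexp_p_nonneg k), Real.norm_eq_abs]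
    exact mul_le_mul_of_nonneg_left (H k) (aexp_p_nonneg k)
  have h3 := Summable.of_norm_bounded h2.summable hb
  have h4 := tsum_of_norm_bounded h2 hb
  have h5 := (h3.hasSum.add h1).tsum_eq
  have h6 : Pois h q = ∑' k : ℕ, (exp (-1) / (k.factorial : ℝ) *
      (h (q + k) - (a + b * (k - 1) + c * (k - 1) ^ 2 + d * (k - 1) ^ 3)) +
      exp (-1) / (k.factorial : ℝ) * (a + b * (k - 1) + c * (k - 1) ^ 2 + d * (k - 1) ^ 3)) :=
    tsum_congr fun k => by ring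
  rw [h6, h5, add_sub_cancel_right]
  exact h4

theorem cexp_tay2 {f f1 f2 : ℝ → ℝ} {M x y : ℝ} (h1 : ∀ x, HasDerivAt f (f1 x) x)
    (h2 : ∀ x, HasDerivAt f1 (f2 x) x) (hM : ∀ t ∈ Set.uIcc x y, |f2 t| ≤ M) :
    ∀ t ∈ Set.uIcc x y, |f t - f x - f1 x * (t - x)| ≤ M * |y - x| ^ 2 := by
  intro t ht
  have a0 := aexp_mvt (f := fun t => f t - f1 x * t) (f' := fun t => f1 t - f1 x) (x := x) (y := y)
    (fun t => ((h1 t).fun_sub ((hasDerivAt_id' t).const_mul (f1 x))).congr_deriv (by ring))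
    (aexp_mvt h2 hM) t ht
  calc _ = |f t - f1 x * t - (f x - f1 x * x)| := by congr 1; ring
    _ ≤ M * |y - x| * |y - x| := a0
    _ = _ := by ring

theorem cexp_tay4 {f f1 f2 f3 f4 : ℝ → ℝ} {M x y : ℝ} (h1 : ∀ x, HasDerivAt f (f1 x) x)
    (h2 : ∀ x, HasDerivAt f1 (f2 x) x) (h3 : ∀ x, HasDerivAt f2 (f3 x) x)
    (h4 : ∀ x, HasDerivAt f3 (f4 x) x) (hM : ∀ t ∈ Set.uIcc x y, |f4 t| ≤ M) :
    |f y - (f x + f1 x * (y - x) + f2 x / 2 * (y - x) ^ 2 + f3 x / 6 * (y - x) ^ 3)| ≤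
      M * |y - x| ^ 4 := by
  have a0 := cexp_tay2 (f := fun t => f t - f2 x / 2 * (t - x) ^ 2 - f3 x / 6 * (t - x) ^ 3)
    (f1 := fun t => f1 t - f2 x * (t - x) - f3 x / 2 * (t - x) ^ 2)
    (f2 := fun t => f2 t - f2 x - f3 x * (t - x)) (x := x) (y := y)
    (fun t => (((h1 t).fun_sub ((((hasDerivAt_id' t).sub_const x).fun_pow 2).const_mul
      (f2 x / 2))).fun_sub ((((hasDerivAt_id' t).sub_const x).fun_pow 3).const_mul
        (f3 x / 6))).congr_deriv (by push_cast; ring))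
    (fun t => (((h2 t).fun_sub (((hasDerivAt_id' t).sub_const x).const_mul (f2 x))).fun_sub
      ((((hasDerivAt_id' t).sub_const x).fun_pow 2).const_mul (f3 x / 2))).congr_deriv
        (by push_cast; ring))
    (cexp_tay2 h3 h4 hM) y Set.right_mem_uIcc
  convert a0 using 1
  · congr 1; ring
  · ring

theorem pois_taylor4 : ∃ C : ℝ, ∀ (f f1 f2 f3 f4 : ℝ → ℝ) (M β : ℝ), 0 < β → β ≤ 1 →
    (∀ x, HasDerivAt f (f1 x) x) → (∀ x, HasDerivAt f1 (f2 x) x) →
    (∀ x, HasDerivAt f2 (f3 x) x) → (∀ x, HasDerivAt f3 (f4 x) x) →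
    (∀ x, 0 ≤ x → |f x| ≤ M ∧ |f4 x| ≤ M * exp (-x)) → ∀ q : ℕ,
    |Pois (fun k => f (β * k)) q - f (β * (q + 1)) - β ^ 2 / 2 * f2 (β * (q + 1)) -
      β ^ 3 / 6 * f3 (β * (q + 1))| ≤ C * M * β ^ 4 * exp (-(β * (q + 1))) := by
  refine ⟨exp 1 * cexp_C, fun f f1 f2 f3 f4 M β hβ hβ1 h1 h2 h3 h4 hM q => ?_⟩
  have hM0 : 0 ≤ M := (abs_nonneg _).trans (hM 0 le_rfl).1
  have := cexp_main (h := fun k => f (β * k)) (q := q) (a := f (β * (q + 1)))
    (b := f1 (β * (q + 1)) * β) (c := β ^ 2 / 2 * f2 (β * (q + 1)))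
    (d := β ^ 3 / 6 * f3 (β * (q + 1))) (v := M * (exp 1 * exp (-(β * (q + 1)))) * β ^ 4)
    (fun k => by
      have h := cexp_tay4 (x := β * (q + 1)) (y := β * (q + k : ℕ))
        (M := M * (exp 1 * exp (-(β * (q + 1))))) h1 h2 h3 h4 (fun t ht => by
          have h5 : β * q ≤ t := by
            refine le_trans (le_min ?_ ?_) ht.1
            · linarith
            · push_cast
              have : 0 ≤ β * k := by positivity
              linarith
          refine (hM t (le_trans (by positivity) h5)).2.trans (mul_le_mul_of_nonneg_left ?_ hM0)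
          rw [← exp_add]
          exact exp_le_exp.2 (by linarith))
      have e : β * ((q + k : ℕ) : ℝ) - β * (q + 1) = β * (k - 1) := by push_cast; ring
      rw [e, abs_mul, abs_of_pos hβ] at h
      convert h using 1
      · congr 1; ring
      · ring)
  convert this using 1
  · congr 1; ring
  · ring

/-- the functions generated by the eigenfunction and its derivative -/
inductive cexp_N : (ℝ → ℝ) → Prop
  | p0 : cexp_N phi
  | p1 : cexp_N phi1
  | add {f g : ℝ → ℝ} : cexp_N f → cexp_N g → cexp_N fun y => f y + g y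
  | mul (a b : ℝ) {f : ℝ → ℝ} : cexp_N f → cexp_N fun y => (a + b * y) * f y

namespace cexp_N

open Filter

variable {f f1 f2 f3 : ℝ → ℝ}

theorem congr {g : ℝ → ℝ} (h : cexp_N f) (e : ∀ y, g y = f y) : cexp_N g := funext e ▸ h

theorem id_mul (h : cexp_N f) : cexp_N fun y => y * f y := (h.mul 0 1).congr fun y => by ring

theorem der (h : cexp_N f) : ∃ f', cexp_N f' ∧ ∀ x, HasDerivAt f (f' x) x := by
  induction h with
  | p0 => exact ⟨phi1, p1, phi_spec.d1⟩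
  | p1 => exact ⟨_, p0.mul (-2 * kap0) 2, fun x => (phi_spec.d2 x).congr_deriv (by ring)⟩
  | add _ _ h h' =>
    obtain ⟨f', h1, h2⟩ := h
    obtain ⟨g', h3, h4⟩ := h'
    exact ⟨_, h1.add h3, fun x => (h2 x).fun_add (h4 x)⟩
  | mul a b h h' =>
    obtain ⟨f', h1, h2⟩ := h'
    exact ⟨_, (h.mul b 0).add (h1.mul a b), fun x =>
      ((((hasDerivAt_id' x).const_mul b).const_add a).fun_mul (h2 x)).congr_deriv (by ring)⟩

theorem of_der (h : cexp_N f) (h1 : ∀ x, HasDerivAt f (f1 x) x) : cexp_N f1 := by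
  obtain ⟨f', h2, h3⟩ := h.der
  exact h2.congr fun y => (h1 y).unique (h3 y)

theorem ex (h : cexp_N f) (m : ℝ) :
    ∃ C, 0 ≤ C ∧ ∀ y, 0 ≤ y → |f y| ≤ C * exp (-(m * y)) := by
  induction h generalizing m with
  | p0 =>
    obtain ⟨C, hC⟩ := phi_spec.dec m
    exact ⟨|C|, abs_nonneg C, fun y hy => (hC y hy).1.trans (by gcongr; exact le_abs_self C)⟩
  | p1 =>
    obtain ⟨C, hC⟩ := phi_spec.dec m
    exact ⟨|C|, abs_nonneg C, fun y hy => (hC y hy).2.trans (by gcongr; exact le_abs_self C)⟩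
  | add _ _ h h' =>
    obtain ⟨C, h1, h2⟩ := h m
    obtain ⟨C', h3, h4⟩ := h' m
    exact ⟨C + C', by positivity, fun y hy =>
      (abs_add_le _ _).trans (by linarith only [h2, hy, h4, h2 y hy, h4 y hy])⟩
  | mul a b _ h =>
    obtain ⟨C, h1, h2⟩ := h (m + 1)
    refine ⟨(|a| + |b|) * C, by positivity, fun y hy => ?_⟩
    have h3 : |a + b * y| ≤ (|a| + |b|) * exp y := by
      refine (abs_add_le _ _).trans ?_
      rw [abs_mul, abs_of_nonneg hy, add_mul]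
      exact add_le_add (le_mul_of_one_le_right (abs_nonneg a) (one_le_exp hy))
        (mul_le_mul_of_nonneg_left (by linarith [add_one_le_exp y]) (abs_nonneg b))
    rw [abs_mul]
    refine (mul_le_mul h3 (h2 y hy) (abs_nonneg _) (by positivity)).trans_eq ?_
    rw [show -(m * y) = y + -((m + 1) * y) by ring, exp_add]
    ring

theorem dec (h : cexp_N f) : ∀ᶠ B in atTop, ∀ y, 0 ≤ y → |f y| ≤ B * exp (-y) := by
  obtain ⟨C, -, hC⟩ := h.ex 1
  filter_upwards [eventually_ge_atTop C] with B hB y hy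
  exact (hC y hy).trans (by rw [one_mul]; gcongr)

theorem loc (h : cexp_N f) (n : ℕ) : ∀ᶠ B in atTop, ∀ ρ y, 1 ≤ ρ → 0 ≤ y → ∃ M,
    (∀ t ∈ Set.uIcc y (ρ * y), |f t| ≤ M) ∧ M * |ρ * y - y| ^ n ≤ B * exp (-y) * (ρ - 1) ^ n := by
  obtain ⟨C, hC0, hC⟩ := h.ex (n + 1)
  filter_upwards [eventually_ge_atTop C] with B hB ρ y hρ hy
  have h1 : y ≤ ρ * y := le_mul_of_one_le_left hy hρ
  have h0 : 0 ≤ ρ - 1 := sub_nonneg.2 hρ
  refine ⟨C * exp (-((n + 1) * y)), fun t ht => ?_, ?_⟩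
  · rw [Set.uIcc_of_le h1] at ht
    refine (hC t (hy.trans ht.1)).trans ?_
    gcongr
    exact ht.1
  · have h2 : y ^ n ≤ exp (n * y) := by
      rw [exp_nat_mul]
      gcongr
      linarith [add_one_le_exp y]
    rw [abs_of_nonneg (sub_nonneg.2 h1), ← sub_one_mul, mul_pow]
    calc _ ≤ B * exp (-((n + 1) * y)) * ((ρ - 1) ^ n * exp (n * y)) := by
          clear * - B C hC0 hB n y ρ h2 hρ hy
          have := hC0.trans hB
          gcongr
      _ = _ := by rw [show -y = -((n + 1) * y) + n * y by ring, exp_add]; ring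

theorem s1 (h : cexp_N f) : ∀ᶠ B in atTop, ∀ ρ y, 1 ≤ ρ → 0 ≤ y →
    |f (ρ * y) - f y| ≤ B * exp (-y) * (ρ - 1) := by
  obtain ⟨f1, h1, h2⟩ := h.der
  filter_upwards [h1.loc 1] with B hB ρ y hρ hy
  obtain ⟨M, k1, k2⟩ := hB ρ y hρ hy
  rw [pow_one, pow_one] at k2
  exact (aexp_mvt h2 k1 _ Set.right_mem_uIcc).trans k2

theorem s2 (h : cexp_N f) (h1 : ∀ x, HasDerivAt f (f1 x) x) : ∀ᶠ B in atTop, ∀ ρ y, 1 ≤ ρ →
    0 ≤ y → |f (ρ * y) - f y - f1 y * (ρ * y - y)| ≤ B * exp (-y) * (ρ - 1) ^ 2 := by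
  obtain ⟨f2, h2, h3⟩ := (h.of_der h1).der
  filter_upwards [h2.loc 2] with B hB ρ y hρ hy
  obtain ⟨M, k1, k2⟩ := hB ρ y hρ hy
  exact (cexp_tay2 h1 h3 k1 _ Set.right_mem_uIcc).trans k2

theorem t3 (h : cexp_N f) (h1 : ∀ x, HasDerivAt f (f1 x) x) (h2 : ∀ x, HasDerivAt f1 (f2 x) x)
    (h3 : ∀ x, HasDerivAt f2 (f3 x) x) : ∀ᶠ B in atTop, ∀ β : ℝ, 0 < β → β ≤ 1 → ∀ q : ℕ,
    |Pois (fun k => f (β * k)) q - f (β * (q + 1)) - β ^ 2 / 2 * f2 (β * (q + 1)) -
      β ^ 3 / 6 * f3 (β * (q + 1))| ≤ B * exp (-(β * (q + 1))) * β ^ 4 := by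
  obtain ⟨f4, h4, h5⟩ := (((h.of_der h1).of_der h2).of_der h3).der
  obtain ⟨C, hC⟩ := pois_taylor4
  obtain ⟨M, ⟨k0, k1⟩, k2⟩ := (((eventually_ge_atTop 0).and h.dec).and h4.dec).exists
  filter_upwards [eventually_ge_atTop (C * M)] with B hB β hβ hβ1 q
  refine (hC f f1 f2 f3 f4 M β hβ hβ1 h1 h2 h3 h5 (fun x hx => ⟨(k1 x hx).trans
    (mul_le_of_le_one_right k0 (exp_le_one_iff.2 (by linarith))), k2 x hx⟩) q).trans ?_
  rw [mul_right_comm]
  gcongr

theorem t2 (h : cexp_N f) (h1 : ∀ x, HasDerivAt f (f1 x) x) (h2 : ∀ x, HasDerivAt f1 (f2 x) x) :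
    ∀ᶠ B in atTop, ∀ β : ℝ, 0 < β → β ≤ 1 → ∀ q : ℕ,
    |Pois (fun k => f (β * k)) q - f (β * (q + 1)) - β ^ 2 / 2 * f2 (β * (q + 1))| ≤
      B * exp (-(β * (q + 1))) * β ^ 3 := by
  obtain ⟨f3, h3, h4⟩ := ((h.of_der h1).of_der h2).der
  obtain ⟨M, ⟨k0, k1⟩, k2⟩ := (((eventually_ge_atTop 0).and (h.t3 h1 h2 h4)).and h3.dec).exists
  filter_upwards [eventually_ge_atTop (2 * M)] with B hB β hβ hβ1 q
  have a1 := abs_le.1 (k1 β hβ hβ1 q)
  have a2 := abs_le.1 (k2 (β * (q + 1)) (by positivity))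
  have a3 : 0 ≤ β ^ 3 := by positivity
  have a4 := mul_le_mul_of_nonneg_right a2.1 a3
  have a5 := mul_le_mul_of_nonneg_right a2.2 a3
  have a6 : 0 ≤ M * exp (-(β * (q + 1))) * β ^ 3 := by positivity
  have a7 := mul_le_of_le_one_right a6 hβ1
  have a8 := mul_le_mul_of_nonneg_right hB (by positivity : 0 ≤ exp (-(β * (q + 1))) * β ^ 3)
  rw [abs_le]
  constructor <;> linarith only [a1, a4, a5, a7, a8, a1.1, a1.2]

theorem t0 (h : cexp_N f) : ∀ᶠ B in atTop, ∀ β : ℝ, 0 < β → β ≤ 1 → ∀ q : ℕ,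
    |Pois (fun k => f (β * k)) q - f (β * (q + 1))| ≤ B * exp (-(β * (q + 1))) * β ^ 2 := by
  obtain ⟨f1, -, h1⟩ := h.der
  obtain ⟨f2, h3, h2⟩ := (h.of_der h1).der
  obtain ⟨M, ⟨k0, k1⟩, k2⟩ := (((eventually_ge_atTop 0).and (h.t2 h1 h2)).and h3.dec).exists
  filter_upwards [eventually_ge_atTop (2 * M)] with B hB β hβ hβ1 q
  have a1 := abs_le.1 (k1 β hβ hβ1 q)
  have a2 := abs_le.1 (k2 (β * (q + 1)) (by positivity))
  have a3 : 0 ≤ β ^ 2 := by positivity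
  have a4 := mul_le_mul_of_nonneg_right a2.1 a3
  have a5 := mul_le_mul_of_nonneg_right a2.2 a3
  have a6 : 0 ≤ M * exp (-(β * (q + 1))) * β ^ 2 := by positivity
  have a7 := mul_le_of_le_one_right a6 hβ1
  have a8 := mul_le_mul_of_nonneg_right hB (by positivity : 0 ≤ exp (-(β * (q + 1))) * β ^ 2)
  rw [abs_le]
  constructor <;> linarith only [a1, a4, a5, a7, a8, a1.1, a1.2]

theorem hasSum (h : cexp_N f) {β : ℝ} (hβ : 0 ≤ β) (q : ℕ) :
    HasSum (fun k : ℕ => exp (-1) / k.factorial * f (β * (q + k : ℕ)))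
      (Pois (fun k => f (β * k)) q) := by
  obtain ⟨C, -, hC⟩ := h.ex 0
  exact (pois_summable (h := fun k => f (β * k)) (C := C) (c := 0)
    (fun k => by simpa using hC (β * k) (by positivity)) q).hasSum

end cexp_N

/-- first correction -/
noncomputable def cexp_u (y : ℝ) : ℝ := (y - kap0) ^ 2 / 6 * phi y

/-- second correction -/
noncomputable def cexp_v (y : ℝ) : ℝ := y ^ 2 / 2 * phi y

theorem cexp_Nu : cexp_N cexp_u :=
  ((cexp_N.p0.mul (-kap0) 1).mul (-kap0 / 6) (1 / 6)).congr fun y => by unfold cexp_u; ring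

theorem cexp_Nv : cexp_N cexp_v :=
  ((cexp_N.p0.mul 0 1).mul 0 (1 / 2)).congr fun y => by unfold cexp_v; ring

theorem cexp_h0 (β a : ℝ) (q : ℕ) :
    h0 β a q = phi (β * q) - β * cexp_u (β * q) - a * cexp_v (β * q) := rfl

theorem cexp_cmp {h : ℕ → ℝ} {g A β : ℝ} {G : ℕ → ℝ} (hβ : 0 ≤ β) (hβ1 : β ≤ 1) {q : ℕ}
    (hG : HasSum (fun k : ℕ => exp (-1) / k.factorial * G (q + k)) g)
    (H : ∀ k : ℕ, |h k - G k| ≤ A * exp (-(β * k))) :
    |Pois h q - g| ≤ 3 * (A * exp (-(β * (q + 1)))) := by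
  have hA : 0 ≤ A := by simpa using (abs_nonneg _).trans (H 0)
  have h2 := ((pois_summable (h := fun k => exp (-β * k)) (C := 1) (c := -β)
    (fun k => by rw [abs_of_pos (exp_pos _), one_mul]) q).hasSum).mul_left A
  have hb : ∀ k : ℕ, ‖exp (-1) / (k.factorial : ℝ) * (h (q + k) - G (q + k))‖ ≤
      A * (exp (-1) / (k.factorial : ℝ) * exp (-β * (q + k : ℕ))) := fun k => by
    rw [norm_mul, Real.norm_of_nonneg (aexp_p_nonneg k), Real.norm_eq_abs, mul_left_comm, neg_mul]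
    exact mul_le_mul_of_nonneg_left (H _) (aexp_p_nonneg k)
  have h3 := Summable.of_norm_bounded h2.summable hb
  have h4 := tsum_of_norm_bounded h2 hb
  have h5 := (h3.hasSum.add hG).tsum_eq
  have h6 : Pois h q = ∑' k : ℕ, (exp (-1) / (k.factorial : ℝ) * (h (q + k) - G (q + k)) +
      exp (-1) / (k.factorial : ℝ) * G (q + k)) := tsum_congr fun k => by ring
  rw [h6, h5, add_sub_cancel_right]
  refine h4.trans ?_
  have h7 := pois_exp (-β) q
  unfold Pois at h7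
  have h8 : exp (exp (-β) - 1 - -β) ≤ 3 := by
    have := exp_le_one_iff.2 (neg_nonpos.2 hβ)
    exact (exp_le_exp.2 (by linarith only [hβ1, this])).trans (exp_one_lt_d9.le.trans (by norm_num))
  rw [h7, neg_mul, mul_left_comm, mul_comm 3]
  rw [← mul_assoc, mul_comm (exp _) A]
  exact mul_le_mul_of_nonneg_left h8 (by positivity)

theorem cexp_st {K r β' a' β a : ℝ} (hK : 0 ≤ K) (h : St3 K (1 / (4 * (K + mm + 1))) r β' a' β a) :
    0 < a ∧ K * a ≤ 1 / 4 ∧ (mm + 1) * a ≤ 1 / 4 ∧ a ≤ 1 / 100 ∧ ∃ ρ, β' = ρ * β ∧ 1 ≤ ρ ∧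
      ρ - 1 ≤ 4 * (a * β ^ 2) ∧ |ρ - 1 - a * β ^ 2| ≤ (K + 1) * (a ^ 2 * β ^ 2) ∧
      β ^ 3 / 2 ≤ -log r ∧ -log r ≤ 2 * β ^ 3 := by
  have hm := gc_basic.1
  have hb := h.b0
  have ha : 0 < a := by linarith only [hb, h, h.ba]
  have h1 := h.aa
  rw [le_div_iff₀ (by positivity)] at h1
  have h2 : 0 ≤ K * a := by positivity
  have h3 : 25 * a ≤ (mm + 1) * a := by gcongr; linarith
  have hKa : K * a ≤ 1 / 4 := by linarith only [ha, h1, h3]
  have ha1 : a ≤ 1 / 100 := by linarith only [h1, h2, h3]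
  have hb1 : β ^ 2 ≤ 1 / 4 := by (refine le_of_not_gt fun h_nl => ?_; linarith only [h_nl, h1, h2, h3, h, hb, ha, h.ba, mul_nonneg_of_nonpos_of_nonpos (Mathlib.Tactic.Linarith.sub_nonpos_of_le (sq_nonneg ((1 : ℝ) * β))) (Mathlib.Tactic.Linarith.sub_nonpos_of_le h1), mul_nonneg_of_nonpos_of_nonpos (Mathlib.Tactic.Linarith.sub_nonpos_of_le (sq_nonneg ((1 : ℝ) * β))) (Mathlib.Tactic.Linarith.sub_nonpos_of_le h2), mul_nonneg_of_nonpos_of_nonpos (Mathlib.Tactic.Linarith.sub_nonpos_of_le (sq_nonneg ((1 : ℝ) * β))) (Mathlib.Tactic.Linarith.sub_nonpos_of_le h3), mul_nonneg_of_nonpos_of_nonpos (Mathlib.Tactic.Linarith.sub_nonpos_of_le (sq_nonneg ((1 : ℝ) * β))) (Mathlib.Tactic.Linarith.sub_nonpos_of_le h.ba), mul_pos_of_neg_of_neg (Mathlib.Tactic.Linarith.sub_neg_of_lt hb) (Mathlib.Tactic.Linarith.sub_neg_of_lt ha), mul_nonneg_of_nonpos_of_nonpos (le_of_lt (Mathlib.Tactic.Linarith.sub_neg_of_lt hb)) (Mathlib.Tactic.Linarith.sub_nonpos_of_le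 h1), mul_nonneg_of_nonpos_of_nonpos (le_of_lt (Mathlib.Tactic.Linarith.sub_neg_of_lt hb)) (Mathlib.Tactic.Linarith.sub_nonpos_of_le h2), mul_nonneg_of_nonpos_of_nonpos (le_of_lt (Mathlib.Tactic.Linarith.sub_neg_of_lt hb)) (Mathlib.Tactic.Linarith.sub_nonpos_of_le h3), mul_pos_of_neg_of_neg (Mathlib.Tactic.Linarith.sub_neg_of_lt hb) (Mathlib.Tactic.Linarith.sub_neg_of_lt h_nl), mul_nonneg_of_nonpos_of_nonpos (le_of_lt (Mathlib.Tactic.Linarith.sub_neg_of_lt hb)) (Mathlib.Tactic.Linarith.sub_nonpos_of_le h.ba)])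
  have h4 : 0 ≤ a * β ^ 2 := by positivity
  have h5 : K * a ^ 2 * β ^ 2 ≤ a * β ^ 2 / 4 := by
    linarith only [hKa, h4, mul_le_mul_of_nonneg_right hKa h4]
  have h6 := abs_le.1 h.lb
  have h7 := abs_le.1 h.lr
  have hρ : 0 < β' / β := div_pos h.b0' hb
  set l := log (β' / β)
  have hl : exp l = β' / β := exp_log hρ
  have l0 : 0 ≤ l := by linarith only [h4, h5, h6]
  have l1 : l ≤ 2 * (a * β ^ 2) := by linarith only [h4, h5, h6]
  have l2 : a * β ^ 2 ≤ 1 / 4 := by clear * - a β K ha h1 h2 h3 hb1; linarith only [ha, h1, h2, h3, hb1, mul_nonneg_of_nonpos_of_nonpos (Mathlib.Tactic.Linarith.sub_nonpos_of_le (sq_nonneg ((1 : ℝ) * β))) (Mathlib.Tactic.Linarith.sub_nonpos_of_le h1), mul_nonneg_of_nonpos_of_nonpos (Mathlib.Tactic.Linarith.sub_nonpos_of_le (sq_nonneg ((1 : ℝ) * β))) (Mathlib.Tactic.Linarith.sub_nonpos_of_le h2), mul_nonneg_of_nonpos_of_nonpos (Mathlib.Tactic.Linarith.sub_nonpos_of_le (sq_nonneg ((1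 : ℝ) * β))) (Mathlib.Tactic.Linarith.sub_nonpos_of_le h3)]
  have l3 : |l| ≤ 1 := by rw [abs_of_nonneg l0]; linarith only [ha, h1, h2, h3, h5, h6, l2]
  have l4 := abs_le.1 (abs_exp_sub_one_le l3)
  have l5 := abs_le.1 (abs_exp_sub_one_sub_id_le l3)
  rw [abs_of_nonneg l0] at l4
  have l6 : l ^ 2 ≤ a ^ 2 * β ^ 2 := by
    clear * - a β hb1 ha hb l l0 l1
    have := mul_le_mul_of_nonneg_left hb1 (by positivity : 0 ≤ a ^ 2 * β ^ 2)
    linarith only [this, l0, l1, pow_le_pow_left₀ l0 l1 2]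
  have h8 : K * a ^ 2 * β ^ 3 ≤ β ^ 3 / 2 := by
    clear * - K a β h5 h1 h2 h3 hb
    have : K * a * a ≤ 1 / 2 := by (refine le_of_not_gt fun h_nl => ?_; linarith only [h_nl, h5, h1, h2, h3, hb, mul_nonneg_of_nonpos_of_nonpos (Mathlib.Tactic.Linarith.sub_nonpos_of_le (sq_nonneg ((1 : ℝ) * β))) (Mathlib.Tactic.Linarith.sub_nonpos_of_le h1), mul_nonneg_of_nonpos_of_nonpos (Mathlib.Tactic.Linarith.sub_nonpos_of_le (sq_nonneg ((1 : ℝ) * β))) (Mathlib.Tactic.Linarith.sub_nonpos_of_le h2), mul_nonneg_of_nonpos_of_nonpos (Mathlib.Tactic.Linarith.sub_nonpos_of_le (sq_nonneg ((1 : ℝ) * β))) (Mathlib.Tactic.Linarith.sub_nonpos_of_le h3), mul_nonneg_of_nonpos_of_nonpos (Mathlib.Tactic.Linarith.sub_nonpos_of_le (sq_nonneg ((1 : ℝ) * β))) (le_of_lt (Mathlib.Tactic.Linarith.sub_neg_of_lt h_nl)), mul_pos_of_neg_of_neg (Mathlib.Tactic.Linarith.sub_neg_of_lt hb) (Mathlib.Tactic.Linarith.sub_neg_of_lt hb)])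
    linarith only [this, hb, mul_le_mul_of_nonneg_right this (by positivity : 0 ≤ β ^ 3)]
  have h9 : 0 ≤ β ^ 3 := by positivity
  refine ⟨ha, hKa, by clear * - a K h1 h2 hKa ha ha1 hl l l0; linarith only [h1, h2], ha1, exp l, by rw [hl]; field_simp, one_le_exp l0, by clear * - l a β K h4 h5 h6 l4 hKa ha ha1 hl l0; linarith only [h4, h5, h6, l4],
    abs_le.2 ⟨by linarith only [h6, l5, l6], by linarith only [h6, l5, l6]⟩, by linarith only [h7, h8], by linarith only [h7, h8]⟩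

theorem cexp_mul {c u n w Z : ℝ} (hu : |u| ≤ Z) (hc : |c| ≤ n * w) : |c * u| ≤ n * (w * Z) := by
  rw [abs_mul, ← mul_assoc]
  exact mul_le_mul hc hu (abs_nonneg _) ((abs_nonneg _).trans hc)

theorem cexp_mul' {c u d n w Z : ℝ} (hZ : 0 ≤ Z) (hu : |u| ≤ Z * d) (hc : |c| * d ≤ n * w) :
    |c * u| ≤ n * (w * Z) := by
  rw [abs_mul]
  linarith only [hu, hc, hZ, mul_le_mul_of_nonneg_left hu (abs_nonneg c), mul_le_mul_of_nonneg_left hc hZ]

theorem cexp_exp {u v : ℝ} (hu : u ≤ 0) (hv : v ≤ 0) : |exp u - exp v| ≤ |u - v| := by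
  have := aexp_mvt (x := v) (y := u) (M := 1) hasDerivAt_exp (fun t ht => by
    rw [abs_of_pos (exp_pos t)]
    exact exp_le_one_iff.2 (ht.2.trans (max_le hv hu))) u Set.right_mem_uIcc
  rwa [one_mul] at this

theorem cexp_pw {K : ℝ} (hK : 0 ≤ K) : ∃ C : ℝ, 0 ≤ C ∧ ∀ r β' a' β a : ℝ,
    St3 K (1 / (4 * (K + mm + 1))) r β' a' β a → ∀ (k : ℕ) (y : ℝ), y = β * k →
    |r ^ k * h0 β' a' k - (phi y - β * cexp_u y - a * cexp_v y + a * β ^ 2 * (y * phi1 y) -
      β ^ 2 * (y * phi y) + β ^ 3 * (y * cexp_u y) + a * β ^ 2 * (y * cexp_v y))| ≤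
      C * (a ^ 2 * β ^ 2) * exp (-y) := by
  have hy : ∀ {f}, cexp_N f → ∀ᶠ B in Filter.atTop, ∀ y, 0 ≤ y →
      |(1 + y) * ((1 + y) * f y)| ≤ B * exp (-y) := fun h =>
    (((h.mul 1 1).mul 1 1).congr fun y => by simp only [one_mul]).dec
  obtain ⟨B, ⟨⟨⟨⟨⟨⟨⟨⟨⟨⟨⟨hB, b1⟩, b2⟩, b3⟩, b4⟩, b5⟩, b6⟩, b7⟩, b8⟩, b9⟩, b10⟩, b11⟩⟩ :=
    ((((((((((((Filter.eventually_ge_atTop 0).and (cexp_N.p0.s2 phi_spec.d1)).and
      cexp_N.p1.id_mul.dec).and cexp_Nu.s1).and cexp_Nu.dec).and cexp_Nv.s1).and cexp_Nv.dec).and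
      cexp_N.p1.id_mul.id_mul.dec).and (hy cexp_N.p0)).and (hy cexp_Nu)).and (hy cexp_Nv)).and
      (hy cexp_N.p1.id_mul)).exists
  refine ⟨(6 * K + 70) * B, by positivity, fun r β' a' β a h k y e => ?_⟩
  obtain ⟨ha, hKa, -, ha1, ρ, rfl, hρ, r1, r2, r3, -⟩ := cexp_st hK h
  have hb := h.b0
  have hba := h.ba
  have hb1 : β ≤ 1 := by linarith only [ha, ha1, hba]
  have hb2 : β ^ 2 ≤ 1 := pow_le_one₀ hb.le hb1
  have hy0 : 0 ≤ y := by rw [e]; positivity
  have hρ0 : 0 ≤ ρ - 1 := sub_nonneg.2 hρ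
  have hab : 0 ≤ a * β ^ 2 := by positivity
  have hab1 : a * β ^ 2 ≤ 1 / 100 := (mul_le_of_le_one_right ha.le hb2).trans ha1
  set w := a ^ 2 * β ^ 2 with hw
  have hw0 : 0 ≤ w := by positivity
  have w1 : β * (a * β ^ 2) ≤ 2 * w := by linarith only [hba, hab, mul_le_mul_of_nonneg_right hba hab]
  have w2 : β ^ 4 ≤ 4 * w := by
    linarith only [w1, hba, hb, mul_le_mul_of_nonneg_right hba (by positivity : 0 ≤ β ^ 3)]
  set Z := B * exp (-y) with hZ
  have hZ0 : 0 ≤ Z := by positivity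
  have e1 : ρ * β * k = ρ * y := by rw [e]; ring
  have hla := h.la
  have ha' : |a'| ≤ 2 * a := by
    clear * - K a β a' hla hKa hab ha hb2
    have := abs_le.1 hla
    have h1 := mul_le_mul_of_nonneg_right hKa hab
    have h2 := mul_le_of_le_one_right ha.le hb2
    rw [abs_le]
    constructor <;> linarith only [ha, this, h1, h2]
  have t1 := cexp_mul' (c := 1) (n := 16) (w := w) hZ0 (b1 ρ y hρ hy0) (by
    have h1 := mul_le_of_le_one_right hw0 hb2
    rw [abs_one]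
    linarith only [h1, hρ0, r1, pow_le_pow_left₀ hρ0 r1 2])
  have t2 := cexp_mul (b2 y hy0) r2
  have t3 := cexp_mul' (c := ρ * β) (n := 16) (w := w) hZ0 (b3 ρ y hρ hy0) (by
    clear * - ρ β a ha ha1 r1 hab1 hb w K r a' h w1 hρ0
    have h1 : ρ * β ≤ 2 * β := by gcongr; linarith only [ha, ha1, r1, hab1]
    rw [abs_of_pos h.b0']
    linarith only [w1, h1, r1, hρ0, hb, mul_le_mul h1 r1 hρ0 (by positivity)])
  have t4 := cexp_mul (c := β * (ρ - 1)) (n := 8) (w := w) (b4 y hy0) (by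
    clear * - β ρ w hb hρ a w1 r1
    rw [abs_of_nonneg (by positivity)]
    linarith [mul_le_mul_of_nonneg_left r1 hb.le])
  have t5 := cexp_mul' (c := a') (n := 8) (w := w) hZ0 (b5 ρ y hρ hy0) (by
    linarith only [ha', r1, hρ0, ha, mul_le_mul ha' r1 hρ0 (by positivity)])
  have t6 := cexp_mul (c := a' - a) (n := K) (w := w) (b6 y hy0) (by linarith only [hla])
  have t7 := cexp_mul (c := a * β ^ 4) (n := 4) (w := w) (b7 y hy0) (by
    clear * - a β w ha hb w2 ha1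
    rw [abs_of_nonneg (by positivity)]
    linarith only [w2, hb, ha, ha1, mul_le_of_le_one_left (by positivity : 0 ≤ β ^ 4) (by linarith : a ≤ 1)])
  have hR : r ^ k = exp (k * log r) := by rw [exp_nat_mul, exp_log h.r0]
  have hk0 : (0 : ℝ) ≤ k := Nat.cast_nonneg k
  have hR0 : k * log r ≤ 0 :=
    mul_nonpos_of_nonneg_of_nonpos hk0 (by linarith only [r3, hb, pow_pos hb 3])
  have hR1 : |r ^ k| ≤ 1 := by rw [hR, abs_of_pos (exp_pos _)]; exact exp_le_one_iff.2 hR0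
  have hby : 0 ≤ β ^ 2 * y := by positivity
  have hR2 : |(r ^ k - 1 + β ^ 2 * y) / (1 + y) ^ 2| ≤ (K + 4) * w := by
    clear * - k r β y hR0 hby K w e hk0 a ρ a' h hw w2 hK ha hb hy0 hw0 hR
    have h1 := cexp_exp hR0 (neg_nonpos.2 hby)
    have h2 : |k * log r - -(β ^ 2 * y)| ≤ K * w * y := by
      rw [show k * log r - -(β ^ 2 * y) = k * (log r + β ^ 3) by rw [e]; ring, abs_mul,
        abs_of_nonneg hk0]
      exact (mul_le_mul_of_nonneg_left h.lr hk0).trans_eq (by rw [e, hw]; ring)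
    have h3 := abs_le.1 (aexp_psi_le hby)
    have h4 := abs_le.1 (h1.trans h2)
    have h5 := mul_le_mul_of_nonneg_right w2 (sq_nonneg y)
    have h6 : 0 ≤ K * w := by positivity
    have h7 := mul_nonneg h6 hy0
    have h8 := mul_nonneg h6 (sq_nonneg y)
    have h9 := mul_nonneg hw0 hy0
    rw [abs_div, abs_of_pos (by positivity : 0 < (1 + y) ^ 2), div_le_iff₀ (by positivity), hR,
      abs_le]
    constructor <;> linarith only [hw0, h3, h4, h5, h6, h8, h9, h3.1, h3.2, h4.1, h4.2]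
  have hG : |(1 + y) * ((1 + y) * phi y) - β * ((1 + y) * ((1 + y) * cexp_u y)) -
      a * ((1 + y) * ((1 + y) * cexp_v y)) + a * β ^ 2 * ((1 + y) * ((1 + y) * (y * phi1 y)))| ≤
      4 * Z := by
    clear * - B y b8 hy0 β b9 hb a ha ha1 hba b10 b11 hab hab1 Z w
    have h1 := abs_le.1 (b8 y hy0)
    have h2 := abs_le.1 (cexp_mul (c := β) (n := 1) (w := 1) (b9 y hy0)
      (by rw [abs_of_pos hb]; linarith only [ha, ha1, hba]))
    have h3 := abs_le.1 (cexp_mul (c := a) (n := 1) (w := 1) (b10 y hy0)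
      (by rw [abs_of_pos ha]; linarith only [ha, ha1]))
    have h4 := abs_le.1 (cexp_mul (c := a * β ^ 2) (n := 1) (w := 1) (b11 y hy0)
      (by rw [abs_of_nonneg hab]; linarith only [ha, ha1, hab1]))
    rw [abs_le]
    constructor <;> linarith only [h1, h2, h3, h4, h1.1, h1.2, h2.1, h2.2, h3.1, h3.2, h4.1, h4.2]
  have t8 := cexp_mul hG hR2
  have t9 : |h0 (ρ * β) a' k - (phi y - β * cexp_u y - a * cexp_v y + a * β ^ 2 * (y * phi1 y))| ≤
      (2 * K + 49) * (w * Z) := by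
    clear * - ρ β a' k y a K w Z e1 B t1 t2 t3 t4 t5 t6
    rw [cexp_h0, e1]
    rw [abs_le] at t1 t2 t3 t4 t5 t6 ⊢
    constructor <;> linarith only [t1, t2, t3, t4, t5, t6, t1.1, t1.2, t2.1, t2.2, t3.1, t3.2, t4.1, t4.2, t5.1, t5.2, t6.1, t6.2]
  have t10 := cexp_mul (n := 1) (w := 1) t9 (by rwa [one_mul])
  have e2 : (r ^ k - 1 + β ^ 2 * y) / (1 + y) ^ 2 * ((1 + y) * ((1 + y) * phi y) -
      β * ((1 + y) * ((1 + y) * cexp_u y)) - a * ((1 + y) * ((1 + y) * cexp_v y)) +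
      a * β ^ 2 * ((1 + y) * ((1 + y) * (y * phi1 y)))) = (r ^ k - 1 + β ^ 2 * y) *
      (phi y - β * cexp_u y - a * cexp_v y + a * β ^ 2 * (y * phi1 y)) := by
    clear * - r k β y a hy0
    field_simp
  rw [e2] at t8
  have h10 : 0 ≤ w * Z := by positivity
  have e3 : (6 * K + 70) * B * w * exp (-y) = (6 * K + 70) * (w * Z) := by rw [hZ]; ring
  rw [e3]
  rw [abs_le] at t7 t8 t10 ⊢
  constructor <;> linarith only [t7, t8, t10, t7.1, t7.2, t8.1, t8.2, t10.1, t10.2]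

theorem res_h0 {K : ℝ} (hK : 0 ≤ K) : ∃ C a1 : ℝ, 0 ≤ C ∧ 0 < a1 ∧ ∀ r β' a' β a : ℝ,
    St3 K a1 r β' a' β a → ∀ q : ℕ,
    |Tr r (h0 β' a') (q + 1) - exp (-(kap0 * β ^ 2) + β ^ 3 / 6 - a * β ^ 2 / 2) *
      h0 β a (q + 1)| ≤ C * a ^ 2 * β ^ 2 * exp (-(β * (q + 1))) := by
  have hd3 : ∀ x, HasDerivAt (fun x => 2 * (x - kap0) * phi x)
      (2 * phi x + 2 * (x - kap0) * phi1 x) x := fun x =>
    ((((hasDerivAt_id' x).sub_const kap0).const_mul 2).fun_mul (phi_spec.d1 x)).congr_deriv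
      (by ring)
  have hu1 : ∀ x, HasDerivAt cexp_u ((x - kap0) / 3 * phi x + (x - kap0) ^ 2 / 6 * phi1 x) x :=
    fun x => (((((hasDerivAt_id' x).sub_const kap0).fun_pow 2).div_const 6).fun_mul
      (phi_spec.d1 x)).congr_deriv (by push_cast; ring)
  have hu2 : ∀ x, HasDerivAt (fun x => (x - kap0) / 3 * phi x + (x - kap0) ^ 2 / 6 * phi1 x)
      (phi x / 3 + 2 / 3 * (x - kap0) * phi1 x + 2 * (x - kap0) * cexp_u x) x := fun x =>
    (((((hasDerivAt_id' x).sub_const kap0).div_const 3).fun_mul (phi_spec.d1 x)).fun_add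
      (((((hasDerivAt_id' x).sub_const kap0).fun_pow 2).div_const 6).fun_mul
        (phi_spec.d2 x))).congr_deriv (by unfold cexp_u; push_cast; ring)
  have hv1 : ∀ x, HasDerivAt cexp_v (x * phi x + x ^ 2 / 2 * phi1 x) x := fun x =>
    ((((hasDerivAt_id' x).fun_pow 2).div_const 2).fun_mul (phi_spec.d1 x)).congr_deriv
      (by push_cast; ring)
  have hv2 : ∀ x, HasDerivAt (fun x => x * phi x + x ^ 2 / 2 * phi1 x)
      (phi x + 2 * x * phi1 x + 2 * (x - kap0) * cexp_v x) x := fun x =>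
    (((hasDerivAt_id' x).fun_mul (phi_spec.d1 x)).fun_add
      ((((hasDerivAt_id' x).fun_pow 2).div_const 2).fun_mul (phi_spec.d2 x))).congr_deriv
        (by unfold cexp_v; push_cast; ring)
  obtain ⟨C, hC, hpw⟩ := cexp_pw hK
  obtain ⟨B, ⟨⟨⟨⟨⟨⟨⟨⟨⟨⟨hB, b1⟩, b2⟩, b3⟩, b4⟩, b5⟩, b6⟩, b7⟩, b8⟩, b9⟩, b10⟩⟩ :=
    (((((((((((Filter.eventually_ge_atTop 0).and (cexp_N.p0.t3 phi_spec.d1 phi_spec.d2 hd3)).and
      (cexp_Nu.t2 hu1 hu2)).and (cexp_Nv.t2 hv1 hv2)).and cexp_N.p1.id_mul.t0).and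
      cexp_N.p0.id_mul.t0).and cexp_Nu.id_mul.t0).and cexp_Nv.id_mul.t0).and cexp_N.p0.dec).and
      cexp_Nu.dec).and cexp_Nv.dec).exists
  have hκ := kap0_pos
  have hm := gc_basic.1
  refine ⟨3 * C + (30 + 12 * (kap0 + 1) ^ 2) * B, 1 / (4 * (K + mm + 1)), by positivity,
    by positivity, fun r β' a' β a h q => ?_⟩
  obtain ⟨ha, -, hma, ha1, -⟩ := cexp_st hK h
  have hb := h.b0
  have hba := h.ba
  have hb1 : β ≤ 1 := by linarith only [ha, ha1, hba]
  have hb2 : β ^ 2 ≤ 1 := pow_le_one₀ hb.le hb1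
  have key := cexp_cmp (h := fun k => r ^ k * h0 β' a' k) hb.le hb1 (q := q)
    (G := fun k => phi (β * k) - β * cexp_u (β * k) - a * cexp_v (β * k) +
      a * β ^ 2 * (β * k * phi1 (β * k)) - β ^ 2 * (β * k * phi (β * k)) +
      β ^ 3 * (β * k * cexp_u (β * k)) + a * β ^ 2 * (β * k * cexp_v (β * k)))
    (aexp_congr (((((((cexp_N.p0.hasSum hb.le q).sub ((cexp_Nu.hasSum hb.le q).mul_left β)).sub
      ((cexp_Nv.hasSum hb.le q).mul_left a)).add
      ((cexp_N.p1.id_mul.hasSum hb.le q).mul_left (a * β ^ 2))).sub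
      ((cexp_N.p0.id_mul.hasSum hb.le q).mul_left (β ^ 2))).add
      ((cexp_Nu.id_mul.hasSum hb.le q).mul_left (β ^ 3))).add
      ((cexp_Nv.id_mul.hasSum hb.le q).mul_left (a * β ^ 2))) (fun k => by ring) rfl)
    (fun k => hpw r β' a' β a h k _ rfl)
  have t1 := b1 β hb hb1 q
  have t2 := b2 β hb hb1 q
  have t3 := b3 β hb hb1 q
  have t4 := b4 β hb hb1 q
  have t5 := b5 β hb hb1 q
  have t6 := b6 β hb hb1 q
  have t7 := b7 β hb hb1 q
  have e0 : Tr r (h0 β' a') (q + 1) = Pois (fun k => r ^ k * h0 β' a' k) q := rfl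
  rw [e0, cexp_h0, Nat.cast_add_one]
  set x := β * (q + 1) with hx
  have hx0 : 0 ≤ x := by positivity
  set Z := B * exp (-x) with hZ
  have hZ0 : 0 ≤ Z := by positivity
  set w := a ^ 2 * β ^ 2 with hw
  have hw0 : 0 ≤ w := by positivity
  have hab : 0 ≤ a * β ^ 2 := by positivity
  have h3 : 0 ≤ β ^ 3 := by positivity
  have h4 : 0 ≤ β ^ 4 := by positivity
  have w0 : β ^ 3 ≤ 2 * (a * β ^ 2) := by linarith only [hba, mul_le_mul_of_nonneg_right hba (sq_nonneg β)]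
  have w1 : β * (a * β ^ 2) ≤ 2 * w := by linarith only [hba, hab, mul_le_mul_of_nonneg_right hba hab]
  have w2 : β ^ 4 ≤ 4 * w := by linarith only [w1, hba, h3, mul_le_mul_of_nonneg_right hba h3]
  have w3 : a * β ^ 4 ≤ 4 * w := by clear * - a β w w2 h4 ha ha1; linarith only [w2, h4, ha, ha1, mul_le_of_le_one_left h4 (by linarith : a ≤ 1)]
  replace t1 := cexp_mul' (c := 1) (n := 4) (w := w) hZ0 t1 (by rw [abs_one]; linarith only [w2])
  replace t2 := cexp_mul' (c := β) (n := 4) (w := w) hZ0 t2 (by rw [abs_of_pos hb]; linarith only [w2])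
  replace t3 := cexp_mul' (c := a) (n := 2) (w := w) hZ0 t3 (by rw [abs_of_pos ha]; linarith only [w1])
  replace t4 := cexp_mul' (c := a * β ^ 2) (n := 4) (w := w) hZ0 t4
    (by rw [abs_of_nonneg hab]; linarith only [w3])
  replace t5 := cexp_mul' (c := β ^ 2) (n := 4) (w := w) hZ0 t5
    (by rw [abs_of_nonneg (sq_nonneg β)]; linarith only [w2])
  replace t6 := cexp_mul' (c := β ^ 3) (n := 4) (w := w) hZ0 t6
    (by rw [abs_of_nonneg h3]; linarith only [w2, h4, hb1, mul_le_of_le_one_left h4 hb1])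
  replace t7 := cexp_mul' (c := a * β ^ 2) (n := 4) (w := w) hZ0 t7
    (by clear * - a β w hab w3; rw [abs_of_nonneg hab]; linarith)
  have hs : |β ^ 3 / 6 - a * β ^ 2 / 2| ≤ a * β ^ 2 := abs_le.2 ⟨by clear * - a β hab h3; linarith only [hab, h3], by clear * - β a hab w0; linarith only [hab, w0]⟩
  have t8 := cexp_mul (c := (β ^ 3 / 6 - a * β ^ 2 / 2) * β) (n := 2) (w := w) (b9 x hx0) (by
    clear * - β a w hb w1 hs
    rw [abs_mul, abs_of_pos hb]
    linarith only [w1, hs, hb, mul_le_mul_of_nonneg_right hs hb.le])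
  have t9 := cexp_mul (c := (β ^ 3 / 6 - a * β ^ 2 / 2) * a) (n := 1) (w := w) (b10 x hx0) (by
    clear * - β a w ha hs
    rw [abs_mul, abs_of_pos ha]
    linarith only [hs, ha, mul_le_mul_of_nonneg_right hs ha.le])
  have hH : |phi x - β * cexp_u x - a * cexp_v x| ≤ 3 * Z := by
    clear * - B x b8 hx0 β b9 hb a ha ha1 hba b10 Z h3 w
    have h1 := abs_le.1 (b8 x hx0)
    have h2 := abs_le.1 (cexp_mul (c := β) (n := 1) (w := 1) (b9 x hx0)
      (by rw [abs_of_pos hb]; linarith))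
    have h3 := abs_le.1 (cexp_mul (c := a) (n := 1) (w := 1) (b10 x hx0)
      (by rw [abs_of_pos ha]; linarith only [ha, ha1]))
    rw [abs_le]
    constructor <;> linarith only [h1, h2, h3, h1.1, h1.2, h2.1, h2.2, h3.1, h3.2]
  set s := -(kap0 * β ^ 2) + β ^ 3 / 6 - a * β ^ 2 / 2 with hs'
  have s1 : |s| ≤ (kap0 + 1) * β ^ 2 := by
    clear * - a β hs ha ha1 hκ hb s hab h3 hs' w0
    have h1 := abs_le.1 hs
    have h2 := mul_le_of_le_one_left (sq_nonneg β) (by linarith only [ha, ha1] : a ≤ 1)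
    have h5 : 0 ≤ kap0 * β ^ 2 := by positivity
    rw [abs_le]
    constructor <;> linarith only [hab, h3, hs', h2, w0, h5, h1.1, h1.2]
  have s2 : (kap0 + 1) * β ^ 2 ≤ 1 := by
    have h1 : (kap0 + 1) * a ≤ (mm + 1) * a := by
      gcongr
      unfold mm
      linarith only [hκ, ha, ha1]
    have h2 : β ^ 2 ≤ 2 * a := by (refine le_of_not_gt fun h_nl => ?_; linarith only [h_nl, w2, hb2, ha, mul_nonneg_of_nonpos_of_nonpos (Mathlib.Tactic.Linarith.sub_nonpos_of_le (sq_nonneg a)) (Mathlib.Tactic.Linarith.sub_nonpos_of_le hb2), mul_nonneg_of_nonpos_of_nonpos (Mathlib.Tactic.Linarith.sub_nonpos_of_le (sq_nonneg β)) (le_of_lt (Mathlib.Tactic.Linarith.sub_neg_of_lt h_nl)), mul_pos_of_neg_of_neg (Mathlib.Tactic.Linarith.sub_neg_of_lt ha) (Mathlib.Tactic.Linarith.sub_neg_of_lt h_nl)])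
    linarith only [ha, hma, ha1, h1, h2, hκ, mul_le_mul_of_nonneg_left h2 (by positivity : 0 ≤ kap0 + 1)]
  have t10 := cexp_mul (c := exp s - 1 - s) (n := 4 * (kap0 + 1) ^ 2) (w := w) hH (by
    clear * - s β s1 w a s2 w2
    have h1 := pow_le_pow_left₀ (abs_nonneg _) s1 2
    rw [sq_abs] at h1
    linarith only [h1, s1, s2, w2, abs_exp_sub_one_sub_id_le (s1.trans s2),
      mul_le_mul_of_nonneg_left w2 (sq_nonneg (kap0 + 1))])
  have h10 : 0 ≤ w * Z := by positivity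
  have e3 : (3 * C + (30 + 12 * (kap0 + 1) ^ 2) * B) * a ^ 2 * β ^ 2 * exp (-x) =
      3 * (C * w * exp (-x)) + (30 + 12 * (kap0 + 1) ^ 2) * (w * Z) := by rw [hZ, hw]; ring
  rw [e3]
  generalize exp s = E at t10 ⊢
  rw [hs'] at t10
  rw [abs_le] at key t1 t2 t3 t4 t5 t6 t7 t8 t9 t10 ⊢
  constructor <;> linarith only [key, t1, t2, t3, t4, t5, t6, t7, t8, t9, t10, key.1, key.2, t1.1, t1.2, t2.1, t2.2, t3.1, t3.2, t4.1, t4.2, t5.1,
    t5.2, t6.1, t6.2, t7.1, t7.2, t8.1, t8.2, t9.1, t9.2, t10.1, t10.2]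

theorem cexp_br {β ρ ε x : ℝ} (hβ : 0 < β) (hm : (mm + 1) * β ≤ 1 / 2) (hρ : 1 ≤ ρ)
    (r1 : ρ - 1 ≤ β ^ 2) (e0 : 0 ≤ ε) (e1 : ε ≤ 2 * β ^ 3) (hx : 0 ≤ x) :
    exp (exp (-(ε + ρ * β)) - 1 + (ε + ρ * β)) - exp (-(mm * x * ρ)) *
        exp (exp (-(ε + ρ * β + mm * (ρ * β))) - 1 + (ε + ρ * β + mm * (ρ * β))) ≤
      1 - exp (-(mm * x)) + 3 * β ^ 2 - if mm * x ≤ 1 then (kap0 + 7) * β ^ 2 else 0 := by
  have hm1 := gc_basic.1
  have hκ := kap0_pos
  have hβ1 : β ≤ 1 / 50 := by clear * - β hm hβ hm1; linarith only [hm, hβ, hm1, mul_nonneg_of_nonpos_of_nonpos (le_of_lt (Mathlib.Tactic.Linarith.sub_neg_of_lt hβ)) (Mathlib.Tactic.Linarith.sub_nonpos_of_le hm1)]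
  have hβ2 : β ^ 2 ≤ 1 / 2500 := by clear * - β hβ1 hm1 hβ hm; linarith only [hβ1, hm1, hβ, hm, mul_nonneg_of_nonpos_of_nonpos (Mathlib.Tactic.Linarith.sub_nonpos_of_le (sq_nonneg ((1 : ℝ) * β))) (Mathlib.Tactic.Linarith.sub_nonpos_of_le hm1), mul_nonneg_of_nonpos_of_nonpos (le_of_lt (Mathlib.Tactic.Linarith.sub_neg_of_lt hβ)) (Mathlib.Tactic.Linarith.sub_nonpos_of_le hm)]
  have hb2 : 0 < β ^ 2 := by positivity
  have h0 : β ^ 3 ≤ β / 2500 := by linarith only [hβ2, hβ, mul_le_mul_of_nonneg_left hβ2 hβ.le]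
  have h0' : ρ * β ≤ β + β ^ 3 := by linarith only [r1, hβ, mul_le_mul_of_nonneg_right r1 hβ.le]
  have h0'' : β ≤ ρ * β := le_mul_of_one_le_left hβ.le hρ
  have h1 : exp (exp (-(ε + ρ * β)) - 1 + (ε + ρ * β)) ≤ 1 + 5 / 2 * β ^ 2 := by
    clear * - ε ρ β hβ e0 h0'' e1 h0 h0' hβ2 hb2 x
    have h2 := aexp_psi_le (a := ε + ρ * β) (by linarith only [hβ, e0, h0''])
    have h3 : (ε + ρ * β) ^ 2 ≤ (11 / 10 * β) ^ 2 := pow_le_pow_left₀ (by linarith only [hβ, e0, h0'']) (by linarith only [hβ, e1, h0, h0']) 2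
    have h4 := abs_exp_sub_one_le (x := exp (-(ε + ρ * β)) - 1 + (ε + ρ * β)) (by linarith only [hβ2, hb2, h2, h3])
    linarith only [hb2, h2, h3, h4, (abs_le.1 h4).2]
  have h5 : exp (-(mm * x)) - β ^ 2 / 2 ≤ exp (-(mm * x * ρ)) := by
    clear * - x β ρ hm1 hx hβ2 hb2 r1
    set t := mm * x with ht
    have ht0 : 0 ≤ t := by positivity
    have h6 : t * exp (-t) ≤ 1 / 2 := by
      clear * - t ht0 β x hβ2 hb2
      have hq := quadratic_le_exp_of_nonneg ht0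
      have hE : exp t * exp (-t) = 1 := by rw [← exp_add]; simp
      have : 2 * t ≤ exp t := by linarith only [hβ2, hb2, hq, sq_nonneg (t - 1), sq_nonneg (t - (1 : ℝ))]
      linarith only [hE, this, mul_le_mul_of_nonneg_right this (exp_pos (-t)).le]
    have h7 : exp (-t) * (1 - t * β ^ 2) ≤ exp (-(t * ρ)) := by
      rw [show -(t * ρ) = -t + -(t * (ρ - 1)) by ring, exp_add]
      refine mul_le_mul_of_nonneg_left ?_ (exp_pos _).le
      linarith only [r1, ht0, add_one_le_exp (-(t * (ρ - 1))), mul_le_mul_of_nonneg_left r1 ht0]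
    linarith only [h7, h6, hb2, mul_le_mul_of_nonneg_right h6 hb2.le]
  set s := ε + ρ * β + mm * (ρ * β) with hs
  have hs0 : mm * β ≤ s := by
    clear * - β s ε ρ hβ e0 h0'' hm1 hβ2 hb2
    linarith only [hβ, e0, h0'', hm1, hβ2, hb2, mul_le_mul_of_nonneg_left h0'' (by linarith : 0 ≤ mm)]
  have hs1 : s ≤ 1 := by
    clear * - ρ β r1 hβ2 hb2 hm hm1 hβ s ε e1 hβ1 h0
    have : ρ * ((mm + 1) * β) ≤ 3 / 2 * (1 / 2) :=
      mul_le_mul (by linarith only [r1, hβ2, hb2]) hm (by positivity) (by norm_num)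
    linarith only [e1, hβ1, hβ2, hb2, h0, this]
  have hmβ0 : 0 < mm * β := by positivity
  have h8 := aexp_psi_ge (hmβ0.le.trans hs0) hs1
  have h9 : 1 + (mm * β) ^ 2 / 4 ≤ exp (exp (-s) - 1 + s) := by
    clear * - β s ε ρ h8 hmβ0 hs0
    linarith only [h8, hmβ0, hs0, add_one_le_exp (exp (-s) - 1 + s), pow_le_pow_left₀ hmβ0.le hs0 2]
  have h10 := mul_le_mul_of_nonneg_left h9 (exp_pos (-(mm * x * ρ))).le
  have h11 : (if mm * x ≤ 1 then (kap0 + 7) * β ^ 2 else 0) ≤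
      exp (-(mm * x * ρ)) * ((mm * β) ^ 2 / 4) := by
    clear * - x β ρ r1 hβ2 hb2 hρ hκ hβ1 h0 hβ hm1
    split_ifs with hc
    · have h12 : 1 / 9 ≤ exp (-(mm * x * ρ)) := by
        clear * - x ρ hc β r1 hβ2 hb2 hρ
        have h13 : mm * x * ρ ≤ 1 * 2 := mul_le_mul hc (by linarith only [r1, hβ2, hb2]) (by linarith only [hρ, hβ2, hb2]) (by norm_num)
        have h14 : exp 2 ≤ 9 := by
          rw [show (2 : ℝ) = 1 + 1 by norm_num, exp_add]
          (refine le_of_not_gt fun h_nl => ?_; linarith only [h_nl, hβ2, hb2, exp_one_lt_d9, exp_pos 1, mul_nonneg_of_nonpos_of_nonpos (Mathlib.Tactic.Linarith.sub_nonpos_of_le hβ2) (le_of_lt (Mathlib.Tactic.Linarith.sub_neg_of_lt h_nl)), mul_pos_of_neg_of_neg (Mathlib.Tactic.Linarith.sub_neg_of_lt hb2) (Mathlib.Tactic.Linarith.sub_neg_of_lt h_nl), mul_pos_of_neg_of_neg (Mathlib.Tactic.Linarith.sub_neg_of_lt exp_one_lt_d9) (Mathlib.Tactic.Linarith.sub_neg_of_lt (exp_pos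 (1 : ℝ)))])
        calc (1 / 9 : ℝ) ≤ (exp 2)⁻¹ := by rw [one_div]; exact inv_anti₀ (exp_pos _) h14
          _ = exp (-2) := (exp_neg 2).symm
          _ ≤ _ := exp_le_exp.2 (by linarith)
      calc (kap0 + 7) * β ^ 2 ≤ 1 / 9 * ((mm * β) ^ 2 / 4) := by
            clear * - β hκ hβ1 h0 hβ hb2
            have : kap0 + 7 ≤ mm ^ 2 / 36 := by
              unfold mm
              linarith only [hκ, hβ1, h0, hβ, hb2, mul_pos_of_neg_of_neg (Mathlib.Tactic.Linarith.sub_neg_of_lt hβ) (Mathlib.Tactic.Linarith.sub_neg_of_lt hb2), mul_pos_of_neg_of_neg (Mathlib.Tactic.Linarith.sub_neg_of_lt hκ) (Mathlib.Tactic.Linarith.sub_neg_of_lt hκ)]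
            linarith only [this, hb2, mul_le_mul_of_nonneg_right this hb2.le]
        _ ≤ _ := by gcongr
    · positivity
  clear * - ε ρ β x s h1 h5 h10 h11
  linarith only [h1, h5, h10, h11]

theorem res_gc {K : ℝ} (hK : 0 ≤ K) : ∃ C a1 : ℝ, 0 ≤ C ∧ 0 < a1 ∧ ∀ r β' a' β a : ℝ,
    St3 K a1 r β' a' β a → ∀ q : ℕ,
    Tr r (fun k => gc (β' * k)) (q + 1) ≤ exp (-((kap0 + 3) * β ^ 2)) * gc (β * (q + 1)) -
      β ^ 2 * exp (-(β * (q + 1))) + C * β ^ 2 * phi (β * (q + 1)) := by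
  have hκ := kap0_pos
  have hm1 := gc_basic.1
  have hcont : Continuous phi := continuous_iff_continuousAt.2 fun x => (phi_spec.d1 x).continuousAt
  have hle : 1 / mm ≤ 8 * (kap0 + 7) := by
    have : 1 / mm ≤ 1 := by rw [div_le_one (by linarith)]; linarith
    linarith only [hκ, this]
  obtain ⟨x0, hx0, hmin⟩ := (isCompact_Icc (a := 1 / mm) (b := 8 * (kap0 + 7))).exists_isMinOn
    (Set.nonempty_Icc.2 hle) hcont.continuousOn
  have hφ0 : 0 < phi x0 := phi_spec.pos x0 (lt_of_lt_of_le (by positivity) hx0.1)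
  refine ⟨(kap0 + 7) / phi x0, 1 / (4 * (K + mm + 1)), by positivity, by positivity,
    fun r β' a' β a h q => ?_⟩
  obtain ⟨ha, -, hma, ha1, ρ, rfl, hρ, r1, -, r3, r4⟩ := cexp_st hK h
  have hβ := h.b0
  have hb2 : 0 < β ^ 2 := by positivity
  have hb3 : 0 < β ^ 3 := by positivity
  have hmβ : (mm + 1) * β ≤ 1 / 2 := by
    linarith only [hma, h, hm1, mul_le_mul_of_nonneg_left h.ba (by positivity : 0 ≤ mm + 1)]
  set ε := -log r with hε
  have he0 : 0 ≤ ε := by linarith only [hb3, r3]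
  have hρβ := h.b0'
  set x := β * (q + 1) with hx
  have hxp : 0 < x := by positivity
  have hφx := phi_spec.pos x hxp
  have hbr := cexp_br hβ hmβ hρ
    (by linarith only [r1, hb2, ha1, mul_le_mul_of_nonneg_right ha1 hb2.le]) he0 r4 hxp.le
  have e0 : Tr r (fun k => gc (ρ * β * k)) (q + 1) =
      Pois (fun k => exp (-((ε + ρ * β) * k)) * (1 - exp (-(mm * (ρ * β) * k)))) q := by
    change Pois (fun k => r ^ k * gc (ρ * β * k)) q = _
    refine congrArg (Pois · q) (funext fun k => ?_)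
    have hR : r ^ k = exp (k * log r) := by rw [exp_nat_mul, exp_log h.r0]
    unfold gc
    rw [hR, mul_sub, mul_sub, mul_one, ← exp_add, ← exp_add, ← exp_add, hε]
    congr 2 <;> ring
  have hnn : 0 ≤ Pois (fun k => exp (-((ε + ρ * β) * k)) * (1 - exp (-(mm * (ρ * β) * k)))) q :=
    tsum_nonneg fun k => mul_nonneg (aexp_p_nonneg k) (mul_nonneg (exp_pos _).le
      (sub_nonneg.2 (exp_le_one_iff.2 (neg_nonpos.2 (by positivity)))))
  rw [e0]
  rw [aexp_exact (by positivity) (by positivity),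
    show mm * (ρ * β) * ((q : ℝ) + 1) = mm * x * ρ by rw [hx]; ring] at hnn ⊢
  set Br := exp (exp (-(ε + ρ * β)) - 1 + (ε + ρ * β)) - exp (-(mm * x * ρ)) *
    exp (exp (-(ε + ρ * β + mm * (ρ * β))) - 1 + (ε + ρ * β + mm * (ρ * β))) with hBr
  have hBr0 : 0 ≤ Br := nonneg_of_mul_nonneg_right hnn (exp_pos _)
  set u := 1 - exp (-(mm * x)) with hu
  have hu0 : 0 ≤ u := sub_nonneg.2 (exp_le_one_iff.2 (neg_nonpos.2 (by positivity)))
  have hu1 : u ≤ 1 := by linarith only [exp_pos (-(mm * x))]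
  have hgc : gc x = exp (-x) * u := by
    unfold gc
    rw [hu, mul_sub, mul_one, ← exp_add]
    congr 2
    ring
  have hE := exp_pos (-x)
  have k1 : exp (-((ε + ρ * β) * ((q : ℝ) + 1))) ≤ exp (-x) * exp (-(β ^ 2 * x / 2)) := by
    clear * - ε ρ β q x r3 hxp hρ hx r
    rw [← exp_add]
    have hq : (0 : ℝ) ≤ q + 1 := by positivity
    have h1 := mul_le_mul_of_nonneg_right r3 hq
    have h2 := le_mul_of_one_le_left hxp.le hρ
    rw [hx] at h2 ⊢
    exact exp_le_exp.2 (by linarith only [h1, h2])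
  have k2 : exp (-(β ^ 2 * x / 2)) * Br ≤
      (1 - (kap0 + 3) * β ^ 2) * u - β ^ 2 + (kap0 + 7) / phi x0 * β ^ 2 * phi x := by
    clear * - β u hκ hβ hu1 x q Br hBr0 x0 hφ0 hφx ε ρ hbr hmin hm1 a ha ha1 hmβ K r a' h hb2 hu0
      hE
    have h2 : (kap0 + 3) * β ^ 2 * u ≤ (kap0 + 3) * β ^ 2 :=
      mul_le_of_le_one_right (by positivity) hu1
    have h0 : exp (-(β ^ 2 * x / 2)) ≤ 1 := exp_le_one_iff.2 (neg_nonpos.2 (by positivity))
    have h3 := mul_le_of_le_one_left hBr0 h0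
    have h4 : 0 ≤ (kap0 + 7) / phi x0 * β ^ 2 * phi x := by positivity
    by_cases hc : mm * x ≤ 1
    · rw [if_pos hc] at hbr
      linarith only [hbr, h2, h3, h4]
    rw [if_neg hc] at hbr
    rcases le_total x (8 * (kap0 + 7)) with hX | hX
    · have h5 : phi x0 ≤ phi x := hmin ⟨by rw [div_le_iff₀ (by positivity)]; linarith only [hc], hX⟩
      have h6 : (kap0 + 7) * β ^ 2 ≤ (kap0 + 7) / phi x0 * β ^ 2 * phi x := by
        calc (kap0 + 7) * β ^ 2 = (kap0 + 7) / phi x0 * β ^ 2 * phi x0 := by field_simp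
          _ ≤ _ := by gcongr
      clear * - β x Br u x0 ε ρ hbr h2 h3 h6
      linarith only [hbr, h2, h3, h6]
    · have h5 : 1 / 2 ≤ u := by
        clear * - x β q hc u a ha ha1
        have h6 : exp (-(mm * x)) ≤ exp (-1) := exp_le_exp.2 (by linarith only [hc])
        linarith only [ha, ha1, h6, exp_neg_one_lt_d9]
      set t := β ^ 2 * (4 * (kap0 + 7)) with ht
      have ht0 : 0 ≤ t := by positivity
      have h7 : t ≤ 1 := by
        clear * - β a ha ha1 hmβ hκ hβ K r ρ a' h t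
        have h8 : β * (4 * (kap0 + 7)) ≤ 1 := by
          unfold mm at hmβ
          linarith only [ha, ha1, hmβ, hκ, hβ, mul_pos hκ hβ]
        have h9 : β ≤ 1 := by linarith only [ha, ha1, h, h.ba]
        linarith only [h9, hβ, hκ, h8, mul_le_one₀ h9 (by positivity) h8]
      have h8 : exp (-(β ^ 2 * x / 2)) ≤ 1 - t / 2 := by
        clear * - β x t q hX hb2 a ha ha1 ht0 h7 hE
        have h9 : exp (-(β ^ 2 * x / 2)) ≤ exp (-t) :=
          exp_le_exp.2 (by linarith only [hX, hb2, mul_le_mul_of_nonneg_left hX hb2.le])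
        have h10 : (1 + t) * exp (-t) ≤ 1 := by
          have hE : exp t * exp (-t) = 1 := by rw [← exp_add]; simp
          rw [← hE]
          exact mul_le_mul_of_nonneg_right (by linarith only [hE, add_one_le_exp t]) (exp_pos _).le
        have h11 : exp (-t) ≤ 1 - t / 2 := by
          by_contra hn
          have := mul_lt_mul_of_pos_left (not_le.1 hn) (by linarith only [ha, ha1, ht0] : 0 < 1 + t)
          linarith only [h10, ha, this, ha1, ht0, h7, mul_pos_of_neg_of_neg (Mathlib.Tactic.Linarith.sub_neg_of_lt ha) (Mathlib.Tactic.Linarith.sub_neg_of_lt this), mul_nonneg_of_nonpos_of_nonpos (Mathlib.Tactic.Linarith.sub_nonpos_of_le ha1) (le_of_lt (Mathlib.Tactic.Linarith.sub_neg_of_lt this)), mul_nonneg_of_nonpos_of_nonpos (Mathlib.Tactic.Linarith.sub_nonpos_of_le ht0) (Mathlib.Tactic.Linarith.sub_nonpos_of_le h7)]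
        linarith only [h9, h11]
      have h12 := mul_le_mul_of_nonneg_left (by linarith only [hbr] : Br ≤ u + 3 * β ^ 2)
        (exp_pos (-(β ^ 2 * x / 2))).le
      have h13 := mul_le_mul_of_nonneg_right h8 hu0
      have h14 := mul_le_of_le_one_left (by positivity : 0 ≤ 3 * β ^ 2) h0
      have h15 := mul_le_mul_of_nonneg_left h5 (by positivity : 0 ≤ (kap0 + 11) * β ^ 2)
      have h16 : 0 ≤ kap0 * β ^ 2 := by positivity
      rw [ht] at h13
      clear * - β x Br u x0 ε ρ hb2 h4 h12 h13 h14 h15 h16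
      linarith only [hb2, h4, h12, h13, h14, h15, h16]
  have k3 : (1 - (kap0 + 3) * β ^ 2) * u ≤ exp (-((kap0 + 3) * β ^ 2)) * u :=
    mul_le_mul_of_nonneg_right (by linarith only [add_one_le_exp (-((kap0 + 3) * β ^ 2))]) hu0
  have k4 := mul_le_of_le_one_left (by positivity : 0 ≤ (kap0 + 7) / phi x0 * β ^ 2 * phi x)
    (exp_le_one_iff.2 (neg_nonpos.2 hxp.le))
  rw [hgc]
  clear * - ε ρ β q Br x u x0 k4 k1 hBr0 k2 hE k3
  linarith only [k4, k1, hBr0, k2, hE, k3, mul_le_mul_of_nonneg_right k1 hBr0, mul_le_mul_of_nonneg_left k2 hE.le,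
    mul_le_mul_of_nonneg_left k3 hE.le]

end Pool.Agent.Work.MP_5391ad_co
end
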