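import Pool.Agent.Work.MP_5391ad_co.QTsum
import Pool.Agent.Work.MP_5391ad_co.AExp

-- merged part: Pool.Agent.Work.MP_5391ad_co.QWalk
section
/-! Exact evaluation of the exploration by the walk recursion. Induction on the number `n` of
unserved vertices: for `S ⊆ B ⊆ R`, `n = |R \ S|`, `q = |B \ S|`, the sum over `exts S B φ0` equals
`|R \ B|! • Vg A gm n q`. Use `exts_step`, `sum_pi_born`, `Finset.sum_powerset` or
`sum_powerset_apply_card`, `C(r,k) (r-k)! = r!/k!` and `Vg_eq_zero` for the terms `k > r`.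
For the depth first version the invariant is: the stack lists `B \ S` without repetition and
`φ0 v ⊆ S` for `v ∈ B`; then `born R φ S a = C` for every `φ ∈ exts (insert a S) (B ∪ C) ψ`. -/

namespace Pool.Agent.Work.MP_5391ad_co

open Finset
open scoped Classical

variable {α Ω 𝕜 : Type*} [Fintype α] [CommRing 𝕜] [Algebra ℝ 𝕜]

theorem Vg_eq_zero (A gm : ℕ → 𝕜) {n q : ℕ} (h : n < q) : Vg A gm n q = 0 := by
  induction n generalizing q with
  | zero => rw [Vg, if_neg h.ne']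
  | succ n ih =>
    obtain ⟨q, rfl⟩ := Nat.exists_eq_add_of_le' (Nat.one_le_of_lt h)
    rw [Vg, sum_eq_zero fun k _ => by rw [ih (by omega), mul_zero], mul_zero]

theorem length_push (c : ℕ) (l : List α) (st : List (α × ℕ)) :
    (push c l st).length = l.length + st.length := by
  induction l with
  | nil => simp [push]
  | cons x l ih =>
    cases l with
    | nil => simp [push, add_comm]
    | cons y l => simp only [push, List.length_cons] at ih ⊢; omega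

theorem map_fst_push (c : ℕ) (l : List α) (st : List (α × ℕ)) :
    (push c l st).map Prod.fst = l ++ st.map Prod.fst := by
  induction l with
  | nil => simp [push]
  | cons x l ih =>
    cases l with
    | nil => simp [push]
    | cons y l => simp only [push, List.map_cons, ih, List.cons_append]

theorem qwalk_sum (T : Finset α) (x : 𝕜) (V : ℕ → 𝕜) {N : ℕ} (hN : T.card ≤ N)
    (hV : ∀ k, T.card < k → V k = 0) :
    ∑ C ∈ T.powerset, x ^ C.card * (((T.card - C.card).factorial : ℝ) • V C.card) =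
      (T.card.factorial : ℝ) • ∑ k ∈ range (N + 1), ((k.factorial : ℝ)⁻¹ • x ^ k) * V k := by
  rw [sum_powerset_apply_card fun k => x ^ k * (((T.card - k).factorial : ℝ) • V k),
    ← sum_subset (range_subset_range.2 (Nat.add_le_add_right hN 1)) fun k _ hk => by
      rw [hV k (by simpa using hk), mul_zero], smul_sum]
  refine sum_congr rfl fun k hk => ?_
  have h1 := Nat.choose_mul_factorial_mul_factorial (Nat.lt_succ_iff.1 (mem_range.1 hk))
  have h2 : (k.factorial : ℝ) ≠ 0 := Nat.cast_ne_zero.2 k.factorial_ne_zero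
  rw [mul_smul_comm, smul_mul_assoc, smul_smul, ← Nat.cast_smul_eq_nsmul ℝ, smul_smul, ← h1]
  congr 1
  push_cast
  field_simp

theorem qwalk_born (fd : Ω → Finset α) (O : Finset Ω) {R S B C : Finset α} {a : α}
    {φ0 ψ φ : α → Ω} (hC : C ⊆ R \ B) (h0 : ∀ v ∈ B, fd (φ0 v) ⊆ S)
    (hψ : ψ ∈ Fintype.piFinset fun v => if v ∈ C then
      O.filter (fun o => fd o ⊆ insert a S ∧ ¬ fd o ⊆ S) else {φ0 v})
    (hφ : φ ∈ exts fd O R (insert a S) (B ∪ C) ψ) : born R (fun v => fd (φ v)) S a = C := by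
  obtain ⟨h1, -, h2⟩ := mem_filter.1 hφ
  ext v
  have k1 := Fintype.mem_piFinset.1 h1 v
  have k2 := Fintype.mem_piFinset.1 hψ v
  rw [born, mem_filter]
  by_cases hv : v ∈ C
  · rw [if_neg fun h => (mem_sdiff.1 h).2 (mem_union_right _ hv), mem_singleton] at k1
    rw [if_pos hv, ← k1] at k2
    exact iff_of_true ⟨(mem_sdiff.1 (hC hv)).1, (mem_filter.1 k2).2⟩ hv
  · refine iff_of_false (fun h => ?_) hv
    by_cases hB : v ∈ B
    · rw [if_neg fun h => (mem_sdiff.1 h).2 (mem_union_left _ hB), mem_singleton] at k1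
      rw [if_neg hv, mem_singleton] at k2
      exact h.2.2 (by rw [k1, k2]; exact h0 v hB)
    · exact h2 v (mem_sdiff.2 ⟨h.1, fun k => (mem_union.1 k).elim hB hv⟩) h.2.1

theorem qwalk_ext (fd : Ω → Finset α) (O : Finset Ω) (R : Finset α) (w : Ω → 𝕜)
    (A gm : ℕ → 𝕜) (hA : ∀ S ⊆ R, ∀ a ∈ R, a ∉ S →
      ∑ o ∈ O.filter (fun o => fd o ⊆ insert a S ∧ ¬ fd o ⊆ S), w o = A (R.card - S.card - 1))
    (n : ℕ) : ∀ (S B : Finset α) (φ0 : α → Ω) (st : List (α × ℕ)), S ⊆ B → B ⊆ R →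
      R.card = S.card + n → (st.map Prod.fst).Nodup → (∀ x, x ∈ st.map Prod.fst ↔ x ∈ B ∧ x ∉ S) →
      (∀ v ∈ B, fd (φ0 v) ⊆ S) →
      ∑ φ ∈ exts fd O R S B φ0, (∏ v ∈ R \ B, w (φ v)) *
        ((dfs R (fun v => fd (φ v)) n S st).map fun p => gm p.1).prod =
        ((R \ B).card.factorial : ℝ) • Vg A gm n st.length := by
  induction n with
  | zero =>
    intro S B φ0 st h1 h2 h3 _ h5 _
    obtain rfl : S = R := eq_of_subset_of_card_le (h1.trans h2) h3.le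
    obtain rfl := h1.antisymm h2
    obtain rfl : st = [] := List.map_eq_nil_iff.1
      (List.eq_nil_iff_forall_not_mem.2 fun x hx => ((h5 x).1 hx).2 ((h5 x).1 hx).1)
    simp [exts_full, dfs, Vg]
  | succ n ih =>
    intro S B φ0 st h1 h2 h3 h4 h5 h6
    rcases st with _ | ⟨⟨a, c⟩, st⟩
    · obtain rfl : S = B := h1.antisymm fun x hx => by_contra fun k => by
        simpa using (h5 x).2 ⟨hx, k⟩
      rw [exts_dead fd O (card_pos.1 (by rw [card_sdiff_of_subset h2]; omega))]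
      simp [Vg]
    obtain ⟨a1, a2⟩ := (h5 a).1 (by simp)
    rw [List.map_cons, List.nodup_cons] at h4
    have hq : B.card = S.card + (st.length + 1) := by
      have : B \ S = (a :: st.map Prod.fst).toFinset := by
        ext x
        rw [List.mem_toFinset, mem_sdiff]
        exact (h5 x).symm
      rw [← card_sdiff_add_card_eq_card h1, this,
        List.toFinset_card_of_nodup (List.nodup_cons.2 h4), add_comm]
      simp
    have hr := card_sdiff_add_card_eq_card h2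
    rw [exts_step fd O h1 h2 a1, List.length_cons, Vg, ← mul_smul_comm,
      ← qwalk_sum (R \ B) (A n) (fun k => Vg A gm n (st.length + k)) (by omega)
        (fun k hk => Vg_eq_zero _ _ (by omega)), mul_sum]
    refine sum_congr rfl fun C hC => ?_
    rw [mem_powerset] at hC
    have hA' := hA S (h1.trans h2) a (h2 a1) a2
    rw [show R.card - S.card - 1 = n by omega] at hA'
    rw [← hA', ← sum_pi_born C _ φ0 w, sum_mul, mul_sum]
    refine sum_congr rfl fun ψ hψ => ?_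
    have key := ih (insert a S) (B ∪ C) ψ (push c C.toList st)
      ((insert_subset a1 h1).trans subset_union_left) (union_subset h2 (hC.trans sdiff_subset))
      (by rw [card_insert_of_notMem a2]; omega) ?_ ?_ ?_
    · rw [length_push, length_toList, add_comm C.card, show (R \ (B ∪ C)).card =
        (R \ B).card - C.card by rw [← card_sdiff_of_subset hC, sdiff_sdiff_left, sup_eq_union]] at key
      rw [mul_left_comm, ← key, mul_sum (a := gm _)]
      congr 1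
      refine sum_congr rfl fun φ hφ => ?_
      rw [dfs, qwalk_born fd O hC h6 hψ hφ, List.map_cons, List.prod_cons]
      ring
    · rw [map_fst_push, List.nodup_append]
      refine ⟨C.nodup_toList, h4.2, fun x hx y hy e => ?_⟩
      exact (mem_sdiff.1 (hC (mem_toList.1 hx))).2
        (e ▸ ((h5 y).1 (List.mem_cons_of_mem _ hy)).1)
    · intro x
      have k1 := h5 x
      have k2 := @hC x
      have k3 := @h1 x
      have k4 := h4.1
      rw [List.map_cons, List.mem_cons] at k1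
      rw [mem_sdiff] at k2
      rw [map_fst_push, List.mem_append, mem_toList, mem_union, mem_insert]
      by_cases e : x = a
      · subst e
        clear * - α C x R B st S k2 k3 c h4 k1 k4 a1; tauto
      · clear * - α st a c C x B S h4 k1 R k2 k3 e; tauto
    · intro v hv
      have k := Fintype.mem_piFinset.1 hψ v
      by_cases hv' : v ∈ C
      · rw [if_pos hv'] at k
        exact (mem_filter.1 k).2.1
      · rw [if_neg hv', mem_singleton] at k
        rw [k]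
        exact (h6 v ((mem_union.1 hv).resolve_right hv')).trans (subset_insert _ _)

theorem qwalk_all (fd : Ω → Finset α) (O : Finset Ω) (o0 : Ω) (R : Finset α) (w : Ω → 𝕜)
    (A gm : ℕ → 𝕜) (hA : ∀ S ⊆ R, ∀ a ∈ R, a ∉ S →
      ∑ o ∈ O.filter (fun o => fd o ⊆ insert a S ∧ ¬ fd o ⊆ S), w o = A (R.card - S.card - 1)) :
    ∑ φ ∈ acys fd O o0 R, (∏ v ∈ R, w (φ v)) *
        ((dfs0 R fun v => fd (φ v)).map fun p => gm p.1).prod =
      (R.card.factorial : ℝ) • Vol (∑ o ∈ O.filter (fun o => fd o = ∅), w o) A gm R.card := by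
  rw [acys_init, Vol, ← qwalk_sum R _ (fun k => Vg A gm R.card k) le_rfl
    fun k hk => Vg_eq_zero _ _ hk]
  refine sum_congr rfl fun C hC => ?_
  rw [mem_powerset] at hC
  rw [← sum_pi_born C _ (fun _ => o0) w, sum_mul]
  refine sum_congr rfl fun ψ hψ => ?_
  have k1 : ∀ v ∈ C, fd (ψ v) = ∅ := fun v hv => by
    have k := Fintype.mem_piFinset.1 hψ v
    rw [if_pos hv] at k
    exact (mem_filter.1 k).2
  have e : (C.toList.map fun v => (v, 0)).map Prod.fst = C.toList := by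
    rw [List.map_map]
    exact List.map_id _
  have key := qwalk_ext fd O R w A gm hA R.card ∅ C ψ (C.toList.map fun v => (v, 0))
    (empty_subset _) hC (by simp) (by rw [e]; exact C.nodup_toList) (by simp [e])
    fun v hv => (k1 v hv).le
  rw [List.length_map, length_toList, card_sdiff_of_subset hC] at key
  rw [← key]
  refine congrArg _ (sum_congr rfl fun φ hφ => ?_)
  obtain ⟨h1, -, h2⟩ := mem_filter.1 hφ
  have : R.filter (fun v => fd (φ v) = ∅) = C := by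
    ext v
    rw [mem_filter]
    refine ⟨fun h => by_contra fun k => h2 v (mem_sdiff.2 ⟨h.1, k⟩) h.2.le, fun h => ⟨hC h, ?_⟩⟩
    have k := Fintype.mem_piFinset.1 h1 v
    rw [if_neg fun k => (mem_sdiff.1 k).2 h, mem_singleton] at k
    rw [k, k1 v h]
  rw [dfs0, this]

theorem acys_sum_one (fd : Ω → Finset α) (O : Finset Ω) (o0 : Ω) (R : Finset α) (w : Ω → 𝕜)
    (A : ℕ → 𝕜) (hA : ∀ S ⊆ R, ∀ a ∈ R, a ∉ S →
      ∑ o ∈ O.filter (fun o => fd o ⊆ insert a S ∧ ¬ fd o ⊆ S), w o = A (R.card - S.card - 1)) :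
    ∑ φ ∈ acys fd O o0 R, ∏ v ∈ R, w (φ v) =
      (R.card.factorial : ℝ) • Vol (∑ o ∈ O.filter (fun o => fd o = ∅), w o) A (fun _ => 1)
        R.card := by
  simpa using qwalk_all fd O o0 R w A (fun _ => 1) hA

theorem acys_sum_dfs (R : Finset α) (w : Finset α → 𝕜) (A gm : ℕ → 𝕜)
    (hA : ∀ S ⊆ R, ∀ a ∈ R, a ∉ S →
      ∑ o ∈ R.powerset.filter (fun o => o ⊆ insert a S ∧ ¬ o ⊆ S), w o =
        A (R.card - S.card - 1)) :
    ∑ φ ∈ acys id R.powerset ∅ R, (∏ v ∈ R, w (φ v)) *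
        ((dfs0 R φ).map fun p => gm p.1).prod =
      (R.card.factorial : ℝ) • Vol (w ∅) A gm R.card := by
  have := qwalk_all id R.powerset ∅ R w A gm hA
  rwa [show R.powerset.filter (fun o => id o = ∅) = {∅} from by ext; simp +contextual,
    sum_singleton] at this

end Pool.Agent.Work.MP_5391ad_co
end

-- merged part: Pool.Agent.Work.MP_5391ad_co.AWalk
section
/-! Super- and subsolutions for the walk.
`step_both`: combine `pois_phi` (constant `C1`) and `pois_cor` (`m, C', β0`): `A = 3 C1 + 1`,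
`C = e A C' + (kap0 + 1)^2`, `η0 = min β0 (1 / (C + 3))`; `η / e ≤ η' ≤ η e^{3 η β^2}`.
Walk: for `n ≥ 1` put `U n q = e^{-γ q} A (n-1)^q Vg A gm n q / ∏_{i<n} (e A i)`. Then `U n 0 = 0`,
`U n q = 0` for `q > n` (`Vg_eq_zero`), and for `n ≥ 1`
`U (n+1) (q+1) = Pois (fun k => (e^γ A n / A (n-1))^k U n k) q`.
`walk_upper`: for `1 ≤ n ≤ n0`, `e^{γ q} U n q ≤ exp (γ n^2)`; at `n0` compare with
`hf (A) (β n0) (η n0) q ≥ c η β` for `q ≥ 1`; from `n0` to `n1` use `step_both`; `hf ≤ C`; from `n1` to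
`b` use the supersolution `M exp (γ (n - n1) q)` and `pois_exp`, `e^a - 1 - a ≤ a^2` for `a ≤ 1`.
`walk_lower`: `γ = 0`. For `1 ≤ q ≤ n`, `Vg n q ≥ ∏_{q ≤ i < n} A i` (keep the term `k = 1` while
`q < n`, and `k = 0` for `q = n`), so `U n0 q ≥ (9 e)^{-n0}`; for `q > n0` the function
`hf (-A)` is `≤ 0`. Use `U ≥ 0` when replacing the ratio by `e^{-β^3}`. At the end keep `k = 1` in
`Vol`, and `φ β ≥ β / 2` for small `β`. -/

namespace Pool.Agent.Work.MP_5391ad_co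

open Real Finset

/-- eigenfunction plus corrector -/
noncomputable def hf (φ : ℝ → ℝ) (m A β η : ℝ) (q : ℕ) : ℝ :=
  φ (β * q) + A * η * (1 - exp (-(m * (β * q))))

/-- admissible scales on `[n0, n1]` -/
def Adm2 (η0 : ℝ) (β η : ℕ → ℝ) (n0 n1 : ℕ) : Prop :=
  (∀ n, n0 ≤ n → n ≤ n1 → 0 < β n ∧ β n ≤ η n ∧ η n ≤ η0) ∧
    ∀ n, n0 ≤ n → n < n1 → |log (β n / β (n + 1))| ≤ η (n + 1) * β (n + 1) ^ 2 ∧
      |log (η n / η (n + 1))| ≤ 3 * η (n + 1) * β (n + 1) ^ 2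

theorem awalk_exp_neg {t : ℝ} (ht : 0 ≤ t) : exp (-t) ≤ 1 - t + t ^ 2 := by
  have h1 := add_one_le_exp t
  rw [exp_neg, inv_le_iff_one_le_mul₀ (exp_pos t)]
  have h2 : 0 ≤ 1 - t + t ^ 2 := by linarith only [sq_nonneg (t - 1), sq_nonneg (t - (1 : ℝ)), sq_nonneg t]
  linarith only [h1, h2, ht, mul_le_mul_of_nonneg_left h1 h2, pow_nonneg ht 3]

theorem awalk_phi_nonneg {φ φ' : ℝ → ℝ} (h : IsPhi φ φ') {x : ℝ} (hx : 0 ≤ x) : 0 ≤ φ x := by
  rcases hx.eq_or_lt with rfl | hx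
  · exact h.zero.ge
  · exact (h.pos x hx).le

theorem awalk_psi {y : ℝ} (hy : 0 ≤ y) : 0 ≤ 1 - exp (-y) ∧ 1 - exp (-y) ≤ 1 :=
  ⟨sub_nonneg.2 (exp_le_one_iff.2 (by linarith)), by linarith [exp_pos (-y)]⟩

theorem awalk_phi_bd {φ φ' : ℝ → ℝ} (h : IsPhi φ φ') :
    ∃ B : ℝ, 1 ≤ B ∧ ∀ x, 0 ≤ x → φ x ≤ B * exp (-x) ∧ φ x ≤ B := by
  obtain ⟨B, hB⟩ := h.dec 1
  refine ⟨max B 1, le_max_right _ _, fun x hx => ?_⟩
  have h1 : φ x ≤ max B 1 * exp (-x) := by
    have := (le_abs_self _).trans (hB x hx).1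
    rw [one_mul] at this
    exact this.trans (mul_le_mul_of_nonneg_right (le_max_left _ _) (exp_pos _).le)
  refine ⟨h1, h1.trans (mul_le_of_le_one_right (zero_le_one.trans (le_max_right _ _)) ?_)⟩
  exact exp_le_one_iff.2 (by linarith)

theorem awalk_ratio {η η' t : ℝ} (h : 0 < η) (h' : 0 < η') (ht : |log (η' / η)| ≤ t) :
    η' ≤ η * exp t ∧ η ≤ η' * exp t := by
  obtain ⟨h1, h2⟩ := abs_le.1 ht
  have h3 : 0 < η' / η := div_pos h' h
  constructor
  · rwa [log_le_iff_le_exp h3, div_le_iff₀' h] at h2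
  · rw [le_log_iff_exp_le h3, le_div_iff₀ h, exp_neg, inv_mul_le_iff₀ (exp_pos t)] at h1
    linarith only [h1]

theorem step_both {φ φ' : ℝ → ℝ} (h : IsPhi φ φ') : ∃ m A C η1 : ℝ, 1 ≤ m ∧ 1 ≤ A ∧ 0 ≤ C ∧
    0 < η1 ∧ η1 ≤ 1 ∧ ∀ β β' η η' : ℝ, 0 < β → β ≤ η → η ≤ η1 → 0 < β' → 0 < η' →
    |log (β' / β)| ≤ η * β ^ 2 → |log (η' / η)| ≤ 3 * η * β ^ 2 → ∀ q : ℕ,
    Pois (fun k => exp (-(β ^ 3 * k)) * hf φ m A β' η' k) q ≤
        exp (-(kap0 * β ^ 2) + C * η * β ^ 2) * hf φ m A β η (q + 1) ∧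
      exp (-(kap0 * β ^ 2) - C * η * β ^ 2) * hf φ m (-A) β η (q + 1) ≤
        Pois (fun k => exp (-(β ^ 3 * k)) * hf φ m (-A) β' η' k) q := by
  obtain ⟨C1, hC1, H1⟩ := pois_phi h
  obtain ⟨m, C', β0, hm, hC', hβ0, H2⟩ := pois_cor h
  obtain ⟨B, hB1, hB⟩ := awalk_phi_bd h
  have hκ := kap0_pos
  obtain ⟨A, hA⟩ : ∃ A : ℝ, A = 3 * C1 + 1 := ⟨_, rfl⟩
  have hA1 : 1 ≤ A := by linarith only [hC1, hA]
  obtain ⟨C, hC⟩ : ∃ C : ℝ, C = 3 * A * C' + (kap0 + 1) ^ 2 := ⟨_, rfl⟩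
  have hAC : 0 ≤ 3 * A * C' := by positivity
  have hC0 : 0 ≤ C := by rw [hC]; positivity
  refine ⟨m, A, C, min β0 (1 / (C + 3)), hm, hA1, hC0, lt_min hβ0 (by positivity),
    (min_le_right _ _).trans ((div_le_one (by positivity)).2 (by linarith only [hC0])), ?_⟩
  intro β β' η η' hβ hβη hη1 hβ' hη' hl1 hl2 q
  have hη : 0 < η := hβ.trans_le hβη
  obtain ⟨hη2, hη3⟩ := le_min_iff.1 hη1
  rw [le_div_iff₀ (by positivity)] at hη3
  have hCη : 0 ≤ C * η := by positivity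
  have hη4 : η ≤ 1 / 3 := by linarith only [hη3, hCη]
  have hβ2 : β ^ 2 ≤ η := by linarith only [hβ, hβη, hη3, hCη, mul_nonneg_of_nonpos_of_nonpos (le_of_lt (Mathlib.Tactic.Linarith.sub_neg_of_lt hβ)) (Mathlib.Tactic.Linarith.sub_nonpos_of_le hβη), mul_nonneg_of_nonpos_of_nonpos (le_of_lt (Mathlib.Tactic.Linarith.sub_neg_of_lt hβ)) (Mathlib.Tactic.Linarith.sub_nonpos_of_le hη3), mul_nonneg_of_nonpos_of_nonpos (le_of_lt (Mathlib.Tactic.Linarith.sub_neg_of_lt hβ)) (Mathlib.Tactic.Linarith.sub_nonpos_of_le hCη)]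
  have hb : 0 < β ^ 2 := by positivity
  have hηb : 0 < η * β ^ 2 := by positivity
  have h1 := abs_le.1 (H1 β β' η hβ hβη (by linarith only [hβ, hβη, hη3, hCη]) hβ' hl1 q)
  have hηb1 : 3 * η * β ^ 2 ≤ β ^ 2 := mul_le_of_le_one_left hb.le (by linarith only [hη3, hCη])
  have hCb : (C + 3) * η * β ^ 2 ≤ β ^ 2 := mul_le_of_le_one_left hb.le (by linarith only [hη3])
  have h2 := H2 β β' hβ (hβη.trans hη2) hβ' (hl1.trans (by linarith only [hηb, hηb1])) q
  have hsplit : ∀ a : ℝ, Pois (fun k => exp (-(β ^ 3 * k)) * hf φ m a β' η' k) q =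
      Pois (fun k => exp (-(β ^ 3 * k)) * φ (β' * k)) q +
        a * η' * Pois (fun k => exp (-(β ^ 3 * k)) * (1 - exp (-(m * (β' * k))))) q := by
    clear * - β hβ φ β' η' m q B φ' h hβ' hB hm hB1 C
    intro a
    have he : ∀ k : ℕ, exp (-(β ^ 3 * k)) ≤ 1 := fun k =>
      exp_le_one_iff.2 (neg_nonpos.2 (by positivity))
    have := pois_add (C := B) (c := 0) (h := fun k => exp (-(β ^ 3 * k)) * φ (β' * k))
      (h' := fun k => exp (-(β ^ 3 * k)) * (1 - exp (-(m * (β' * k))))) (fun k => ?_) (fun k => ?_)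
      1 (a * η') q
    · rw [one_mul] at this
      rw [← this]
      congr 1
      funext k
      unfold hf
      ring
    · have h3 := awalk_phi_nonneg h (x := β' * k) (by positivity)
      rw [zero_mul, exp_zero, mul_one, abs_of_nonneg (by positivity)]
      exact (mul_le_of_le_one_left h3 (he k)).trans (hB _ (by positivity)).2
    · have h3 := awalk_psi (y := m * (β' * k)) (by positivity)
      rw [zero_mul, exp_zero, mul_one, abs_of_nonneg (mul_nonneg (exp_pos _).le h3.1)]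
      exact (mul_le_of_le_one_left h3.1 (he k)).trans (h3.2.trans hB1)
  rw [hsplit, hsplit]
  unfold hf
  push_cast
  have hφ := awalk_phi_nonneg h (x := β * (q + 1)) (by positivity)
  have hψ := (awalk_psi (y := m * (β * (q + 1))) (by positivity)).1
  generalize φ (β * (q + 1)) = F at *
  generalize 1 - exp (-(m * (β * (q + 1)))) = G at *
  generalize Pois (fun k => exp (-(β ^ 3 * k)) * φ (β' * k)) q = P1 at *
  generalize Pois (fun k => exp (-(β ^ 3 * k)) * (1 - exp (-(m * (β' * k))))) q = P2 at *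
  obtain ⟨r1, r2⟩ := awalk_ratio hη hη' hl2
  have he3 : exp (3 * η * β ^ 2) ≤ 3 :=
    (exp_le_exp.2 (by linarith only [hη3, hCη, hβ2, hηb, hηb1] : 3 * η * β ^ 2 ≤ 1)).trans exp_one_lt_three.le
  have r3 : η' ≤ 3 * η := by linarith only [r1, he3, hη, mul_le_mul_of_nonneg_left he3 hη.le]
  have r4 : η ≤ 3 * η' := by linarith only [r2, he3, hη', mul_le_mul_of_nonneg_left he3 hη'.le]
  have hE : η' * exp (-((kap0 + 2) * β ^ 2)) ≤ η * exp (-(kap0 * β ^ 2) - C * η * β ^ 2) := by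
    refine (mul_le_mul_of_nonneg_right r1 (exp_pos _).le).trans ?_
    rw [mul_assoc, ← exp_add]
    refine mul_le_mul_of_nonneg_left (exp_le_exp.2 ?_) hη.le
    linarith only [hηb, hηb1, hCb]
  have key : C1 * η * β ^ 2 + A * η' * P2 ≤
      A * η * (exp (-(kap0 * β ^ 2) - C * η * β ^ 2) * G) + 3 * A * C' * (η * β ^ 2) * F := by
    clear * - A η' P2 β G C' F h2 hA1 hη' η C hE hψ r3 hC' hβ hφ C1 r4 hC1 hA
    have k1 := mul_le_mul_of_nonneg_left h2 (by positivity : 0 ≤ A * η')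
    have k2 := mul_le_mul_of_nonneg_left hE (by positivity : 0 ≤ A * G)
    have k3 := mul_le_mul_of_nonneg_left r3 (by positivity : 0 ≤ A * C' * β ^ 2 * F)
    have k4 := mul_le_mul_of_nonneg_left r4 (by positivity : 0 ≤ C1 * β ^ 2)
    have k5 : 0 ≤ η' * β ^ 2 := by positivity
    have k6 : A * (η' * β ^ 2) = 3 * C1 * (η' * β ^ 2) + η' * β ^ 2 := by rw [hA]; ring
    linarith only [k1, k2, k3, k4, k5, k6]
  constructor
  · have k1 : 1 - kap0 * β ^ 2 + 3 * A * C' * (η * β ^ 2) ≤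
        exp (-(kap0 * β ^ 2) + C * η * β ^ 2) := by
      have := add_one_le_exp (-(kap0 * β ^ 2) + C * η * β ^ 2)
      have k2 : 0 ≤ (kap0 + 1) ^ 2 * (η * β ^ 2) := by positivity
      have k3 : C * η * β ^ 2 = 3 * A * C' * (η * β ^ 2) + (kap0 + 1) ^ 2 * (η * β ^ 2) := by
        rw [hC]; ring
      linarith only [this, k2, k3]
    have k2 : exp (-(kap0 * β ^ 2) - C * η * β ^ 2) ≤ exp (-(kap0 * β ^ 2) + C * η * β ^ 2) :=
      exp_le_exp.2 (by linarith only [hCη, hb, mul_nonneg hCη hb.le])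
    have k3 := mul_le_mul_of_nonneg_right k1 hφ
    have k4 := mul_le_mul_of_nonneg_left k2 (by positivity : 0 ≤ A * η * G)
    linarith only [h1, key, k3, k4, h1.2]
  · have k1 : exp (-(kap0 * β ^ 2) - C * η * β ^ 2) ≤
        1 - kap0 * β ^ 2 - 3 * A * C' * (η * β ^ 2) := by
      clear * - β C η hκ hβ hC0 hη A C' hC hηb hCb hβ2
      have k2 := awalk_exp_neg (t := kap0 * β ^ 2 + C * η * β ^ 2) (by positivity)
      rw [neg_add, ← sub_eq_add_neg] at k2
      have k3 : C * η * β ^ 2 = 3 * A * C' * (η * β ^ 2) + (kap0 + 1) ^ 2 * (η * β ^ 2) := by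
        rw [hC]; ring
      have k4 : kap0 * β ^ 2 + C * η * β ^ 2 ≤ (kap0 + 1) * β ^ 2 := by linarith only [hηb, hCb]
      have k5 : (kap0 * β ^ 2 + C * η * β ^ 2) ^ 2 ≤ ((kap0 + 1) * β ^ 2) ^ 2 :=
        pow_le_pow_left₀ (by positivity) k4 2
      have k6 := mul_le_mul_of_nonneg_left hβ2 (by positivity : 0 ≤ (kap0 + 1) ^ 2 * β ^ 2)
      linarith only [k2, k3, k5, k6]
    have k3 := mul_le_mul_of_nonneg_right k1 hφ
    linarith only [h1, key, k3, h1.1]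

theorem awalk_Vg_nonneg {A gm : ℕ → ℝ} (hA : ∀ n, 0 < A n) (hg : ∀ q, 0 ≤ gm q) :
    ∀ n q, 0 ≤ Vg A gm n q
  | 0, q => by
    unfold Vg
    split_ifs <;> norm_num
  | _ + 1, 0 => le_rfl
  | n + 1, q + 1 => by
    unfold Vg
    refine mul_nonneg (hg _) (sum_nonneg fun k _ => mul_nonneg ?_ (awalk_Vg_nonneg hA hg n _))
    have := hA n
    rw [smul_eq_mul]
    positivity

/-- the normalised walk -/
noncomputable def awalk_U (A : ℕ → ℝ) (γ : ℝ) (n q : ℕ) : ℝ :=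
  exp (-(γ * q)) * A (n - 1) ^ q * Vg A (fun q => exp (γ * q)) n q / ∏ i ∈ range n, (exp 1 * A i)

section
variable {A : ℕ → ℝ} {γ : ℝ}

theorem awalk_prod_pos (hA : ∀ n, 0 < A n) (n : ℕ) : 0 < ∏ i ∈ range n, (exp 1 * A i) :=
  prod_pos fun i _ => mul_pos (exp_pos 1) (hA i)

theorem awalk_U_nonneg (hA : ∀ n, 0 < A n) (n q : ℕ) : 0 ≤ awalk_U A γ n q :=
  div_nonneg (mul_nonneg (mul_nonneg (exp_pos _).le (pow_pos (hA _) _).le)
    (awalk_Vg_nonneg hA (fun _ => (exp_pos _).le) n q)) (awalk_prod_pos hA n).le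

theorem awalk_U_zero {n : ℕ} (hn : 1 ≤ n) : awalk_U A γ n 0 = 0 := by
  obtain ⟨n, rfl⟩ := Nat.exists_eq_add_of_le' hn
  simp [awalk_U, Vg]

theorem awalk_U_big {n q : ℕ} (h : n < q) : awalk_U A γ n q = 0 := by
  simp [awalk_U, Vg_eq_zero _ _ h]

theorem awalk_Vg_eq (hA : ∀ n, 0 < A n) (n q : ℕ) : Vg A (fun q => exp (γ * q)) n q =
    (∏ i ∈ range n, (exp 1 * A i)) * (exp γ / A (n - 1)) ^ q * awalk_U A γ n q := by
  unfold awalk_U
  have h1 := (awalk_prod_pos hA n).ne'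
  have h2 := (hA (n - 1)).ne'
  rw [exp_neg, mul_comm γ, exp_nat_mul, div_pow]
  field_simp

theorem awalk_U_step (hA : ∀ n, 0 < A n) (n q : ℕ) : awalk_U A γ (n + 1) (q + 1) =
    Pois (fun k => (exp γ * A n / A (n - 1)) ^ k * awalk_U A γ n k) q := by
  unfold Pois
  beta_reduce
  rw [tsum_eq_sum (s := range (n + 1)) fun k hk => by
    rw [awalk_U_big (by simp only [mem_range] at hk; omega), mul_zero, mul_zero]]
  conv_lhs => unfold awalk_U Vg
  rw [prod_range_succ, mul_sum, mul_sum, sum_div]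
  refine sum_congr rfl fun k _ => ?_
  have h1 := (awalk_prod_pos hA n).ne'
  have h2 := (hA (n - 1)).ne'
  have h3 := (hA n).ne'
  rw [awalk_Vg_eq hA n, smul_eq_mul, Nat.add_sub_cancel, exp_neg, exp_neg, div_pow, div_pow,
    mul_pow, pow_add (A n) q k, pow_succ]
  field_simp

theorem awalk_sum (r : ℝ) (n q : ℕ) : Summable fun k : ℕ =>
    exp (-1) / k.factorial * (r ^ (q + k) * awalk_U A γ n (q + k)) :=
  summable_of_ne_finset_zero (s := range (n + 1)) fun k hk => by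
    rw [awalk_U_big (by simp only [mem_range] at hk; omega), mul_zero, mul_zero]

theorem awalk_up (hA : ∀ n, 0 < A n) {n : ℕ} {g : ℕ → ℝ} {M C c : ℝ}
    (hg : ∀ k, |g k| ≤ C * exp (c * k))
    (h : ∀ k, (exp γ * A n / A (n - 1)) ^ k * awalk_U A γ n k ≤ M * g k) (q : ℕ) :
    awalk_U A γ (n + 1) (q + 1) ≤ M * Pois g q := by
  rw [awalk_U_step hA]
  unfold Pois
  rw [← tsum_mul_left]
  refine Summable.tsum_le_tsum (fun k => ?_) (awalk_sum _ n q) ((pois_summable hg q).mul_left M)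
  rw [mul_left_comm M]
  exact mul_le_mul_of_nonneg_left (h _) (by positivity)

theorem awalk_lo (hA : ∀ n, 0 < A n) {n : ℕ} {g : ℕ → ℝ} {M C c : ℝ}
    (hg : ∀ k, |g k| ≤ C * exp (c * k))
    (h : ∀ k, M * g k ≤ (exp γ * A n / A (n - 1)) ^ k * awalk_U A γ n k) (q : ℕ) :
    M * Pois g q ≤ awalk_U A γ (n + 1) (q + 1) := by
  rw [awalk_U_step hA]
  unfold Pois
  rw [← tsum_mul_left]
  refine Summable.tsum_le_tsum (fun k => ?_) ((pois_summable hg q).mul_left M) (awalk_sum _ n q)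
  rw [mul_left_comm M]
  exact mul_le_mul_of_nonneg_left (h _) (by positivity)

/-- comparison with exponential supersolutions -/
theorem awalk_up_exp (hA : ∀ n, 0 < A n) {n : ℕ} (hn : A n ≤ A (n - 1)) {M c : ℝ}
    (h : ∀ k, awalk_U A γ n k ≤ M * exp (c * k)) (q : ℕ) :
    awalk_U A γ (n + 1) (q + 1) ≤
      M * (exp ((c + γ) * (q + 1)) * exp (exp (c + γ) - 1 - (c + γ))) := by
  rw [← pois_exp]
  refine awalk_up hA (C := 1) (c := c + γ) (fun k => by rw [abs_of_pos (exp_pos _), one_mul])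
    (fun k => ?_) q
  have h1 : (exp γ * A n / A (n - 1)) ^ k ≤ exp γ ^ k := by
    have := hA n
    have := hA (n - 1)
    refine pow_le_pow_left₀ (by positivity) ?_ k
    rw [div_le_iff₀ (hA _)]
    exact mul_le_mul_of_nonneg_left hn (exp_pos _).le
  calc _ ≤ exp γ ^ k * (M * exp (c * k)) :=
        mul_le_mul h1 (h k) (awalk_U_nonneg hA _ _) (by positivity)
    _ = _ := by
        rw [add_mul, exp_add, mul_comm γ, exp_nat_mul]
        ring

theorem awalk_first (hA : ∀ n, 0 < A n) (hγ : 0 ≤ γ) {b : ℕ}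
    (hm : ∀ i j, i ≤ j → j < b → A j ≤ A i) :
    ∀ n, n ≤ b → ∀ q, awalk_U A γ n q ≤ exp (γ * n ^ 2) * exp (-γ * q) := by
  intro n
  induction n with
  | zero =>
    intro _ q
    rcases Nat.eq_zero_or_pos q with rfl | hq
    · simp [awalk_U, Vg]
    · rw [awalk_U_big hq]
      positivity
  | succ n ih =>
    intro hn q
    rcases q with _ | q
    · rw [awalk_U_zero (by omega)]
      positivity
    rcases Nat.lt_or_ge n q with hq | hq
    · rw [awalk_U_big (by omega)]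
      positivity
    refine (awalk_up_exp hA (hm _ _ (Nat.sub_le _ _) hn) (ih (by omega)) q).trans ?_
    rw [neg_add_cancel, zero_mul, exp_zero, sub_self, sub_zero, exp_zero, mul_one, mul_one,
      ← exp_add]
    refine exp_le_exp.2 ?_
    have h1 : (q : ℝ) ≤ n := by exact_mod_cast hq
    have h2 : (0 : ℝ) ≤ n := n.cast_nonneg
    push_cast
    linarith only [h1, hγ, h2, mul_le_mul_of_nonneg_left h1 hγ, mul_nonneg hγ h2]

theorem awalk_last (hA : ∀ n, 0 < A n) (hγ : 0 ≤ γ) {b n1 : ℕ}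
    (hm : ∀ i j, i ≤ j → j < b → A j ≤ A i) (hb : γ * b ≤ 1) {M : ℝ} (hM : 0 ≤ M)
    (h : ∀ q, awalk_U A γ n1 q ≤ M) : ∀ j, n1 + j ≤ b → ∀ q,
      awalk_U A γ (n1 + j) q ≤ M * exp (j * (γ * b) ^ 2) * exp (γ * j * q) := by
  intro j
  induction j with
  | zero => simpa using fun _ => h
  | succ j ih =>
    intro hj q
    rcases q with _ | q
    · rw [awalk_U_zero (by omega)]
      positivity
    refine (awalk_up_exp hA (hm _ _ (Nat.sub_le _ _) (by omega)) (ih (by omega)) q).trans ?_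
    have h1 : ((j : ℝ) + 1) ≤ b := by exact_mod_cast (by omega : j + 1 ≤ b)
    have h2 : γ * j + γ ≤ γ * b := by linarith only [hγ, h1, mul_nonneg_of_nonpos_of_nonpos (Mathlib.Tactic.Linarith.sub_nonpos_of_le hγ) (Mathlib.Tactic.Linarith.sub_nonpos_of_le h1)]
    have h3 : 0 ≤ γ * j + γ := by positivity
    have h4 := (abs_le.1 (abs_exp_sub_one_sub_id_le (x := γ * j + γ)
      (by rw [abs_of_nonneg h3]; linarith only [hb, h2]))).2
    have h5 : (γ * j + γ) ^ 2 ≤ (γ * b) ^ 2 := pow_le_pow_left₀ h3 h2 2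
    rw [mul_assoc, mul_assoc, ← exp_add, ← exp_add, ← exp_add]
    refine mul_le_mul_of_nonneg_left (exp_le_exp.2 ?_) hM
    push_cast
    linarith only [h4, h5]

theorem awalk_vol_le (hA : ∀ n, 0 < A n) {a0 M c : ℝ} (ha : 0 ≤ a0) (hM : 0 ≤ M) {b : ℕ}
    (h : ∀ q, awalk_U A γ b q ≤ M * exp (c * q)) : Vol a0 A (fun q => exp (γ * q)) b ≤
      (∏ i ∈ range b, (exp 1 * A i)) * M * exp (exp (c + γ) * a0 / A (b - 1)) := by
  have h1 := awalk_prod_pos hA b
  have h2 := hA (b - 1)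
  refine le_trans ?_ (mul_le_mul_of_nonneg_left (sum_le_exp_of_nonneg (by positivity) (b + 1))
    (by positivity))
  unfold Vol
  rw [mul_sum]
  refine sum_le_sum fun k _ => ?_
  rw [awalk_Vg_eq hA, smul_eq_mul]
  refine (mul_le_mul_of_nonneg_left (mul_le_mul_of_nonneg_left (h k) (by positivity))
    (by positivity)).trans (le_of_eq ?_)
  rw [mul_comm c, exp_nat_mul, exp_add, div_pow, div_pow, mul_pow, mul_pow]
  ring

theorem awalk_diag (hA : ∀ n, 0 < A n) : ∀ n, 1 ≤ Vg A (fun _ => 1) n n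
  | 0 => by simp [Vg]
  | n + 1 => by
    unfold Vg
    rw [one_mul]
    refine le_trans ?_ (single_le_sum (f := fun k => ((k.factorial : ℝ)⁻¹ • A n ^ k) *
      Vg A (fun _ => 1) n (n + k)) (fun k _ => ?_) (mem_range.2 n.succ_pos))
    · simpa using awalk_diag hA n
    · have := hA n
      have := awalk_Vg_nonneg hA (gm := fun _ => 1) (fun _ => zero_le_one) n (n + k)
      rw [smul_eq_mul]
      positivity

theorem awalk_Vg_ge (hA : ∀ n, 0 < A n) (q : ℕ) : ∀ n, q + 1 ≤ n →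
    ∏ i ∈ Ico (q + 1) n, A i ≤ Vg A (fun _ => 1) n (q + 1) := by
  intro n hn
  induction n, hn using Nat.le_induction with
  | base => simpa using awalk_diag hA (q + 1)
  | succ n hn ih =>
    unfold Vg
    rw [one_mul, prod_Ico_succ_top hn]
    refine le_trans ?_ (single_le_sum (f := fun k => ((k.factorial : ℝ)⁻¹ • A n ^ k) *
      Vg A (fun _ => 1) n (q + k)) (fun k _ => ?_) (mem_range.2 (by omega : 1 < n + 1)))
    · simp only [Nat.factorial_one, Nat.cast_one, inv_one, pow_one, one_smul]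
      rw [mul_comm]
      exact mul_le_mul_of_nonneg_left ih (hA n).le
    · have := hA n
      have := awalk_Vg_nonneg hA (gm := fun _ => 1) (fun _ => zero_le_one) n (q + k)
      rw [smul_eq_mul]
      positivity

theorem awalk_start (hA : ∀ n, 0 < A n) {n q : ℕ} (hm : ∀ i, i < n → A i ≤ A 0)
    (h9 : A 0 ≤ 9 * A (n - 1)) (h1 : 1 ≤ q) (hq : q ≤ n) :
    exp (-(4 * n)) ≤ awalk_U A 0 n q := by
  obtain ⟨q, rfl⟩ := Nat.exists_eq_add_of_le' h1
  have h2 := awalk_Vg_ge hA q n hq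
  have h3 := hA (n - 1)
  unfold awalk_U
  simp only [zero_mul, neg_zero, exp_zero, one_mul]
  rw [le_div_iff₀ (awalk_prod_pos hA n), prod_mul_distrib, prod_const, card_range,
    ← prod_range_mul_prod_Ico A hq]
  have h4 : ∏ i ∈ range (q + 1), A i ≤ 9 ^ n * A (n - 1) ^ (q + 1) := by
    calc ∏ i ∈ range (q + 1), A i ≤ ∏ i ∈ range (q + 1), 9 * A (n - 1) :=
          prod_le_prod (fun i _ => (hA i).le) fun i hi =>
            (hm i (by simp only [mem_range] at hi; omega)).trans h9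
      _ = 9 ^ (q + 1) * A (n - 1) ^ (q + 1) := by rw [prod_const, card_range, mul_pow]
      _ ≤ 9 ^ n * A (n - 1) ^ (q + 1) :=
          mul_le_mul_of_nonneg_right (pow_le_pow_right₀ (by norm_num) hq) (by positivity)
  have h5 : exp (-(4 * n)) * exp 1 ^ n * 9 ^ n ≤ 1 := by
    rw [show -(4 * (n : ℝ)) = n * -4 by ring, exp_nat_mul, ← mul_pow, ← mul_pow]
    refine pow_le_one₀ (by positivity) ?_
    rw [← exp_add, show (-4 + 1 : ℝ) = -3 by norm_num, exp_neg, inv_mul_le_iff₀ (exp_pos _),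
      mul_one, show (3 : ℝ) = (3 : ℕ) * 1 by norm_num, exp_nat_mul]
    have := pow_le_pow_left₀ (by norm_num) exp_one_gt_d9.le 3
    linarith only [this, show (9 : ℝ) ≤ 2.7182818283 ^ 3 by norm_num]
  have h6 : 0 < ∏ i ∈ Ico (q + 1) n, A i := prod_pos fun i _ => hA i
  calc _ ≤ exp (-(4 * n)) * (exp 1 ^ n * (9 ^ n * A (n - 1) ^ (q + 1) *
        Vg A (fun _ => 1) n (q + 1))) := by gcongr
    _ = exp (-(4 * n)) * exp 1 ^ n * 9 ^ n * (A (n - 1) ^ (q + 1) *
        Vg A (fun _ => 1) n (q + 1)) := by ring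
    _ ≤ _ := mul_le_of_le_one_left (mul_nonneg (by positivity) (h6.le.trans h2)) h5

end

theorem awalk_hf_zero {φ φ' : ℝ → ℝ} (h : IsPhi φ φ') (m A β η : ℝ) : hf φ m A β η 0 = 0 := by
  simp [hf, h.zero]

theorem awalk_hf_abs {φ φ' : ℝ → ℝ} (h : IsPhi φ φ') {B m a A β η : ℝ}
    (hB : ∀ x, 0 ≤ x → φ x ≤ B) (hm : 0 ≤ m) (ha : |a| ≤ A) (hβ : 0 ≤ β) (hη : 0 ≤ η)
    (hη1 : η ≤ 1) (k : ℕ) : |hf φ m a β η k| ≤ B + A := by
  unfold hf
  have h1 := awalk_psi (y := m * (β * k)) (by positivity)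
  refine (abs_add_le _ _).trans (add_le_add ?_ ?_)
  · rw [abs_of_nonneg (awalk_phi_nonneg h (by positivity))]
    exact hB _ (by positivity)
  · rw [mul_assoc, abs_mul, abs_of_nonneg (mul_nonneg hη h1.1)]
    exact (mul_le_of_le_one_right (abs_nonneg _) (mul_le_one₀ hη1 h1.1 h1.2)).trans ha

theorem awalk_g_abs {x B t : ℝ} (hx : |x| ≤ B) (ht : 0 ≤ t) (k : ℕ) :
    |exp (-(t * k)) * x| ≤ B * exp (0 * k) := by
  rw [zero_mul, exp_zero, mul_one, abs_mul, abs_of_pos (exp_pos _)]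
  exact (mul_le_of_le_one_left (abs_nonneg _)
    (exp_le_one_iff.2 (neg_nonpos.2 (by positivity)))).trans hx

theorem walk_upper : ∃ C η0 : ℝ, 1 ≤ C ∧ 0 < η0 ∧ η0 ≤ 1 ∧
    ∀ (a0 γ : ℝ) (A β η : ℕ → ℝ) (b n0 n1 : ℕ), 0 ≤ a0 → 0 ≤ γ → (∀ n, 0 < A n) →
    (∀ i j, i ≤ j → j < b → A j ≤ A i) → 1 ≤ n0 → n0 ≤ n1 → n1 ≤ b → γ * b ≤ 1 →
    Adm2 η0 β η n0 n1 → (∀ n, n0 ≤ n → n < n1 → A n * exp (β (n + 1) ^ 3 + γ) ≤ A (n - 1)) →
    Vol a0 A (fun q => exp (γ * q)) b ≤ (∏ i ∈ range b, (exp 1 * A i)) *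
      exp (-(kap0 * ∑ n ∈ Ioc n0 n1, β n ^ 2) + C * ∑ n ∈ Ioc n0 n1, η n * β n ^ 2 +
        γ * n0 ^ 2 + b * (γ * b) ^ 2 + exp 2 * a0 / A (b - 1)) * (C / (η n0 * β n0)) := by
  obtain ⟨φ, φ', h⟩ := exists_phi
  obtain ⟨m, D, C, η1, hm, hD, hC, hη0, hη1, H⟩ := step_both h
  obtain ⟨B, hB1, hB⟩ := awalk_phi_bd h
  refine ⟨C + 2 * (B + D), η1, by linarith only [hD, hC, hB1], hη0, hη1, ?_⟩
  intro a0 γ A β η b n0 n1 ha hγ hA hmo hn0 hn01 hn1 hγb hadm hrat
  obtain ⟨p1, p2, p3⟩ := hadm.1 n0 le_rfl hn01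
  have p4 : 0 < η n0 := p1.trans_le p2
  have habs : ∀ n, n0 ≤ n → n ≤ n1 → ∀ k, |hf φ m D (β n) (η n) k| ≤ B + D := fun n a b k => by
    obtain ⟨q1, q2, q3⟩ := hadm.1 n a b
    exact awalk_hf_abs h (fun x hx => (hB x hx).2) (by linarith only [hm])
      (abs_of_nonneg (by linarith only [hD])).le q1.le (by linarith only [q1, q2]) (by linarith only [hη1, q3]) k
  have mid : ∀ n, n0 ≤ n → n ≤ n1 → ∀ q, awalk_U A γ n q ≤ exp (γ * n0 ^ 2) * (2 / (η n0 * β n0)) *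
      exp (-(kap0 * ∑ i ∈ Ioc n0 n, β i ^ 2) + C * ∑ i ∈ Ioc n0 n, η i * β i ^ 2) *
        hf φ m D (β n) (η n) q := by
    intro n hn
    induction n, hn using Nat.le_induction with
    | base =>
      intro _ q
      rcases Nat.eq_zero_or_pos q with rfl | hq
      · rw [awalk_U_zero hn0, awalk_hf_zero h, mul_zero]
      refine (awalk_first hA hγ hmo n0 (hn01.trans hn1) q).trans ?_
      have hq' : (1 : ℝ) ≤ q := by exact_mod_cast hq
      have k1 : exp (-γ * q) ≤ 1 := exp_le_one_iff.2 (by linarith only [hγ, mul_nonneg hγ q.cast_nonneg])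
      have k2 : η n0 * β n0 / 2 ≤ hf φ m D (β n0) (η n0) q := by
        clear * - η n0 β φ m D q φ' h p1 hq hm hq' η1 hη1 p2 p3 hD p4
        unfold hf
        have k3 := awalk_phi_nonneg h (x := β n0 * q) (by positivity)
        have k4 : exp (-(m * (β n0 * q))) ≤ exp (-β n0) := by
          refine exp_le_exp.2 (neg_le_neg ?_)
          calc β n0 = 1 * (β n0 * 1) := by ring
            _ ≤ _ := by gcongr
        have k5 : exp (-β n0) ≤ 1 - β n0 / 2 := by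
          have k6 := add_one_le_exp (β n0)
          rw [exp_neg, inv_le_iff_one_le_mul₀ (exp_pos _)]
          have k7 : 0 ≤ 1 - β n0 / 2 := by linarith only [hη1, p2, p3]
          linarith only [k6, k7, p1, p2, p3, hη1, mul_le_mul_of_nonneg_left k6 k7,
            mul_le_of_le_one_left p1.le (p2.trans (p3.trans hη1))]
        have k8 : 1 * η n0 * (β n0 / 2) ≤ D * η n0 * (1 - exp (-(m * (β n0 * q)))) := by
          gcongr
          linarith only [k4, k5]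
        linarith only [k3, k8]
      simp only [Ioc_self, sum_empty, mul_zero, neg_zero, add_zero, exp_zero, mul_one]
      rw [mul_assoc]
      refine mul_le_mul_of_nonneg_left (k1.trans ?_) (exp_pos _).le
      rw [div_mul_eq_mul_div, one_le_div (by positivity)]
      linarith only [k2]
    | succ n hn ih =>
      intro hn' q
      rcases q with _ | q
      · rw [awalk_U_zero (by omega), awalk_hf_zero h, mul_zero]
      obtain ⟨q1, q2, q3⟩ := hadm.1 n hn (by omega)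
      obtain ⟨r1, r2, r3⟩ := hadm.1 (n + 1) (by omega) hn'
      obtain ⟨l1, l2⟩ := hadm.2 n hn hn'
      have k1 := (H _ _ _ _ r1 r2 r3 q1 (q1.trans_le q2) l1 l2 q).1
      refine (awalk_up hA (g := fun k => exp (-(β (n + 1) ^ 3 * k)) * hf φ m D (β n) (η n) k)
        (M := exp (γ * n0 ^ 2) * (2 / (η n0 * β n0)) *
          exp (-(kap0 * ∑ i ∈ Ioc n0 n, β i ^ 2) + C * ∑ i ∈ Ioc n0 n, η i * β i ^ 2))
        (fun k => awalk_g_abs (habs n hn (by omega) k) (by positivity) k) (fun k => ?_) q).trans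
        ((mul_le_mul_of_nonneg_left k1 ?_).trans (le_of_eq ?_))
      · rw [mul_left_comm]
        refine mul_le_mul ?_ (ih (by omega) k) (awalk_U_nonneg hA _ _) (exp_pos _).le
        rw [mul_comm _ (k : ℝ), ← mul_neg, exp_nat_mul]
        have := hA n
        have := hA (n - 1)
        refine pow_le_pow_left₀ (by positivity) ?_ k
        have k2 := hrat n hn hn'
        rw [exp_add] at k2
        rw [exp_neg, div_le_iff₀ (hA _), le_inv_mul_iff₀ (exp_pos _)]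
        linarith only [k2]
      · positivity
      · rw [sum_Ioc_succ_top hn, sum_Ioc_succ_top hn, ← mul_assoc, mul_assoc _ (exp _) (exp _),
          ← exp_add]
        congr 3
        ring
  obtain ⟨j, rfl⟩ := Nat.exists_eq_add_of_le hn1
  have last := awalk_last hA hγ hmo hγb (by positivity) (fun q => (mid n1 hn01 le_rfl q).trans
    (mul_le_mul_of_nonneg_left ((le_abs_self _).trans (habs n1 hn01 le_rfl q)) (by positivity)))
    j le_rfl
  refine (awalk_vol_le hA ha (by positivity) last).trans ?_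
  have hS : 0 ≤ ∑ n ∈ Ioc n0 n1, η n * β n ^ 2 := sum_nonneg fun n hn => by
    obtain ⟨q1, q2, _⟩ := hadm.1 n (mem_Ioc.1 hn).1.le (mem_Ioc.1 hn).2
    exact mul_nonneg (q1.le.trans q2) (sq_nonneg _)
  have hP := awalk_prod_pos hA (n1 + j)
  have hA' := hA (n1 + j - 1)
  have e1 : exp (γ * j + γ) * a0 / A (n1 + j - 1) ≤ exp 2 * a0 / A (n1 + j - 1) := by
    clear * - n1 n0 hn0 hn01 γ j a0 A hγb hγ ha hA'
    have k1 : (1 : ℝ) ≤ n1 := by exact_mod_cast hn0.trans hn01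
    push_cast at hγb
    gcongr
    linarith only [hγb, k1, hγ, mul_le_mul_of_nonneg_left k1 hγ]
  have e2 : j * (γ * (n1 + j : ℕ)) ^ 2 ≤ (n1 + j : ℕ) * (γ * (n1 + j : ℕ)) ^ 2 := by
    clear * - γ n1 j n0 hn0 hn01
    gcongr
    omega
  generalize exp (γ * j + γ) * a0 / A (n1 + j - 1) = t1 at *
  generalize exp 2 * a0 / A (n1 + j - 1) = t2 at *
  generalize j * (γ * (n1 + j : ℕ)) ^ 2 = t3 at *
  generalize (n1 + j : ℕ) * (γ * (n1 + j : ℕ)) ^ 2 = t4 at *
  generalize ∑ n ∈ Ioc n0 n1, η n * β n ^ 2 = S2 at *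
  generalize kap0 * ∑ n ∈ Ioc n0 n1, β n ^ 2 = S1 at *
  generalize ∏ i ∈ range (n1 + j), (exp 1 * A i) = P at *
  calc _ = P * exp (-S1 + C * S2 + γ * n0 ^ 2 + t3 + t1) * (2 * (B + D) / (η n0 * β n0)) := by
        rw [exp_add _ t1, exp_add _ t3, exp_add _ (γ * n0 ^ 2)]
        ring
    _ ≤ _ := by
        clear * - P S1 C S2 γ n0 t3 t1 B D t4 t2 η β hD hB1 hS e2 e1 hP hC p4 p1
        gcongr
        · linarith only [hD, hB1]
        · linarith only [hC]

theorem walk_lower : ∃ C η0 : ℝ, 1 ≤ C ∧ 0 < η0 ∧ η0 ≤ 1 ∧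
    ∀ (a0 : ℝ) (A β η : ℕ → ℝ) (b n0 : ℕ), 0 ≤ a0 → (∀ n, 0 < A n) →
    (∀ i j, i ≤ j → j < b → A j ≤ A i) → 1 ≤ n0 → n0 ≤ b →
    Adm2 η0 β η n0 b → (∀ n, n0 ≤ n → n < b → A (n - 1) ≤ A n * exp (β (n + 1) ^ 3)) →
    C * (1 + |log (η n0)|) ≤ β n0 * n0 → A 0 ≤ 9 * A (n0 - 1) →
    a0 / A (b - 1) * (∏ i ∈ range b, (exp 1 * A i)) *
      exp (-(kap0 * ∑ n ∈ Ioc n0 b, β n ^ 2) - C * ∑ n ∈ Ioc n0 b, η n * β n ^ 2 - 4 * n0) *
        (β b / C) ≤ Vol a0 A (fun _ => 1) b := by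
  obtain ⟨φ, φ', h⟩ := exists_phi
  obtain ⟨m, D, C, η1, hm, hD, hC, hη0, hη1, H⟩ := step_both h
  obtain ⟨B, hB1, hB⟩ := awalk_phi_bd h
  obtain ⟨δ, hδ, hφ⟩ : ∃ δ : ℝ, 0 < δ ∧ ∀ x, 0 < x → x ≤ δ → x / 2 ≤ φ x := by
    have h1 := (h.d1 0).isLittleO.def (c := 1 / 2) (by norm_num)
    obtain ⟨ε, hε, h2⟩ := Metric.eventually_nhds_iff.1 h1
    refine ⟨ε / 2, by positivity, fun x hx hx' => ?_⟩
    have h3 := h2 (y := x) (by rw [dist_zero_right, Real.norm_eq_abs, abs_of_pos hx]; linarith only [hx, hx'])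
    simp only [h.zero, h.one, sub_zero, smul_eq_mul, mul_one, Real.norm_eq_abs, abs_of_pos hx] at h3
    linarith only [h3, (abs_le.1 h3).1]
  refine ⟨C + 4 * B, min η1 (min δ (1 / (4 * D * m))), by linarith,
    lt_min hη0 (lt_min hδ (by positivity)), (min_le_left _ _).trans hη1, ?_⟩
  intro a0 A β η b n0 ha hA hmo hn0 hn1 hadm hrat hlog h9
  have hadm1 : ∀ n, n0 ≤ n → n ≤ b → 0 < β n ∧ β n ≤ η n ∧ η n ≤ η1 := fun n a b =>
    ⟨(hadm.1 n a b).1, (hadm.1 n a b).2.1, (hadm.1 n a b).2.2.trans (min_le_left _ _)⟩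
  have habs : ∀ n, n0 ≤ n → n ≤ b → ∀ k, |hf φ m (-D) (β n) (η n) k| ≤ B + D := fun n a b k => by
    obtain ⟨q1, q2, q3⟩ := hadm1 n a b
    exact awalk_hf_abs h (fun x hx => (hB x hx).2) (by linarith only [hm])
      (by rw [abs_neg, abs_of_nonneg (by linarith only [hD])]) q1.le (by linarith only [q1, q2]) (by linarith only [hη1, q3]) k
  have mid : ∀ n, n0 ≤ n → n ≤ b → ∀ q, exp (-(4 * n0)) / B *
      exp (-(kap0 * ∑ i ∈ Ioc n0 n, β i ^ 2) - C * ∑ i ∈ Ioc n0 n, η i * β i ^ 2) *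
        hf φ m (-D) (β n) (η n) q ≤ awalk_U A 0 n q := by
    intro n hn
    induction n, hn using Nat.le_induction with
    | base =>
      intro _ q
      rcases Nat.eq_zero_or_pos q with rfl | hq
      · rw [awalk_U_zero hn0, awalk_hf_zero h, mul_zero]
      obtain ⟨p1, p2, p3⟩ := hadm1 n0 le_rfl hn1
      have p4 : 0 < η n0 := p1.trans_le p2
      simp only [Ioc_self, sum_empty, mul_zero, neg_zero, sub_zero, exp_zero, mul_one]
      have k0 := hB (β n0 * q) (by positivity)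
      rcases le_or_gt q n0 with hq' | hq'
      · refine le_trans ?_ (awalk_start hA (fun i hi => hmo 0 i i.zero_le (by omega)) h9 hq hq')
        have k1 : hf φ m (-D) (β n0) (η n0) q ≤ B := by
          unfold hf
          have k2 := (awalk_psi (y := m * (β n0 * q)) (by positivity)).1
          have k3 : 0 ≤ D * η n0 * (1 - exp (-(m * (β n0 * q)))) := by positivity
          linarith only [k0, k3, k0.2]
        refine (mul_le_mul_of_nonneg_left k1 (by positivity)).trans (le_of_eq ?_)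
        field_simp
      · refine le_trans (mul_nonpos_of_nonneg_of_nonpos (by positivity) ?_)
          (awalk_U_nonneg hA _ _)
        unfold hf
        have k1 : β n0 * n0 ≤ β n0 * q := by gcongr
        have k2 := abs_nonneg (log (η n0))
        have k3 := neg_abs_le (log (η n0))
        generalize β n0 * q = x at *
        have k3' : 1 * |log (η n0)| ≤ (C + 4 * B) * |log (η n0)| :=
          mul_le_mul_of_nonneg_right (by linarith only [hC, hB1]) k2
        have k4 : 4 * B - log (η n0) ≤ x := by linarith only [hC, hlog, k3, k1, k3']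
        have k5 : 1 ≤ x := by linarith only [hC, hB1, hlog, k2, k1, k3']
        have k6 : exp (-x) ≤ exp (-(4 * B)) * η n0 := by
          rw [← exp_log p4, ← exp_add]
          exact exp_le_exp.2 (by linarith only [hC, hlog, k3, k1, k3'])
        have k7 : B * exp (-(4 * B)) ≤ 1 / 2 := by
          have := add_one_le_exp (4 * B)
          rw [exp_neg, ← div_eq_mul_inv, div_le_iff₀ (exp_pos _)]
          linarith only [hB1, this]
        have k8 : exp (-(m * x)) ≤ 1 / 2 := by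
          have := add_one_le_exp (m * x)
          rw [exp_neg, inv_le_iff_one_le_mul₀ (exp_pos _)]
          linarith only [this, hm, k5, one_le_mul_of_one_le_of_one_le hm k5]
        have k9 : 1 * η n0 * (1 / 2) ≤ D * η n0 * (1 - exp (-(m * x))) := by
          clear * - η n0 D m x hD p4 k8
          gcongr
          linarith only [k8]
        have k10 := mul_le_mul_of_nonneg_left k6 (by linarith only [hB1] : 0 ≤ B)
        have k11 := mul_le_mul_of_nonneg_right k7 p4.le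
        linarith only [k0, k9, k10, k11, k0.1]
    | succ n hn ih =>
      intro hn' q
      rcases q with _ | q
      · rw [awalk_U_zero (by omega), awalk_hf_zero h, mul_zero]
      obtain ⟨q1, q2, q3⟩ := hadm1 n hn (by omega)
      obtain ⟨r1, r2, r3⟩ := hadm1 (n + 1) (by omega) hn'
      obtain ⟨l1, l2⟩ := hadm.2 n hn hn'
      have k1 := (H _ _ _ _ r1 r2 r3 q1 (q1.trans_le q2) l1 l2 q).2
      refine le_trans ((le_of_eq ?_).trans (mul_le_mul_of_nonneg_left k1 ?_)) (awalk_lo hA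
        (g := fun k => exp (-(β (n + 1) ^ 3 * k)) * hf φ m (-D) (β n) (η n) k)
        (M := exp (-(4 * n0)) / B *
          exp (-(kap0 * ∑ i ∈ Ioc n0 n, β i ^ 2) - C * ∑ i ∈ Ioc n0 n, η i * β i ^ 2))
        (fun k => awalk_g_abs (habs n hn (by omega) k) (by positivity) k) (fun k => ?_) q)
      · rw [sum_Ioc_succ_top hn, sum_Ioc_succ_top hn, ← mul_assoc, mul_assoc _ (exp _) (exp _),
          ← exp_add]
        congr 3
        ring
      · positivity
      · rw [mul_left_comm]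
        refine (mul_le_mul_of_nonneg_left (ih (by omega) k) (exp_pos _).le).trans
          (mul_le_mul_of_nonneg_right ?_ (awalk_U_nonneg hA _ _))
        rw [mul_comm _ (k : ℝ), ← mul_neg, exp_nat_mul]
        refine pow_le_pow_left₀ (exp_pos _).le ?_ k
        have k2 := hrat n hn hn'
        rw [exp_neg, exp_zero, one_mul, le_div_iff₀ (hA _), inv_mul_le_iff₀ (exp_pos _)]
        linarith only [k2]
  have fin := mid b hn1 le_rfl 1
  obtain ⟨p1, p2, p3⟩ := hadm.1 b hn1 le_rfl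
  obtain ⟨_, p4⟩ := le_min_iff.1 p3
  obtain ⟨p5, p6⟩ := le_min_iff.1 p4
  have k1 : β b / 4 ≤ hf φ m (-D) (β b) (η b) 1 := by
    clear * - β b φ m D η hφ p1 δ p2 p5 hD hm p6
    unfold hf
    rw [Nat.cast_one, mul_one]
    have k2 := hφ (β b) p1 (p2.trans p5)
    have k3 := add_one_le_exp (-(m * β b))
    rw [le_div_iff₀ (by positivity)] at p6
    have k4 : D * η b * (1 - exp (-(m * β b))) ≤ D * η b * (m * β b) :=
      mul_le_mul_of_nonneg_left (by linarith only [k3]) (mul_nonneg (by linarith only [hD]) (by linarith only [p1, p2]))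
    linarith only [k2, k4, p6, p1, mul_le_mul_of_nonneg_right p6 p1.le]
  have hS : 0 ≤ ∑ n ∈ Ioc n0 b, η n * β n ^ 2 := sum_nonneg fun n hn => by
    obtain ⟨q1, q2, _⟩ := hadm1 n (mem_Ioc.1 hn).1.le (mem_Ioc.1 hn).2
    exact mul_nonneg (q1.le.trans q2) (sq_nonneg _)
  have hP := awalk_prod_pos hA b
  have hA' := hA (b - 1)
  have hV : a0 / A (b - 1) * (∏ i ∈ range b, (exp 1 * A i)) * awalk_U A 0 b 1 ≤
      Vol a0 A (fun _ => 1) b := by
    clear * - a0 A b hA ha n0 hn0 hn1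
    unfold Vol
    refine le_trans (le_of_eq ?_) (single_le_sum (f := fun k => ((k.factorial : ℝ)⁻¹ • a0 ^ k) *
      Vg A (fun _ => 1) b k) (fun k _ => ?_) (mem_range.2 (by omega : 1 < b + 1)))
    · have e := awalk_Vg_eq (γ := 0) hA b 1
      simp only [zero_mul, exp_zero] at e
      simp only [e, Nat.factorial_one, Nat.cast_one, inv_one, pow_one, one_smul]
      ring
    · have := awalk_Vg_nonneg hA (gm := fun _ => 1) (fun _ => zero_le_one) b k
      rw [smul_eq_mul]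
      positivity
  refine le_trans ?_ hV
  rw [mul_assoc]
  refine mul_le_mul_of_nonneg_left (le_trans ?_ fin) (by positivity)
  generalize ∑ n ∈ Ioc n0 b, η n * β n ^ 2 = S2 at *
  generalize kap0 * ∑ n ∈ Ioc n0 b, β n ^ 2 = S1 at *
  calc _ ≤ exp (-S1 - C * S2 - 4 * n0) * (β b / (4 * B)) := by
        clear * - S1 C B S2 n0 β b hB1 hS p1 hC
        gcongr
        · linarith only [hB1]
        · linarith only [hC]
    _ = exp (-(4 * n0)) / B * exp (-S1 - C * S2) * (β b / 4) := by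
        rw [sub_eq_add_neg _ (4 * (n0 : ℝ)), exp_add]
        field_simp
    _ ≤ _ := mul_le_mul_of_nonneg_left k1 (by positivity)

end Pool.Agent.Work.MP_5391ad_co
end

-- merged part: Pool.Agent.Work.MP_5391ad_co.AUp
section
/-! The upper bound for the rates of the tree function. `t = L⁻¹`, `σ = 1 - τ`,
`x n = y + b - n`, `A n = rate t y b n = Lam (x n) - Lam (x n - 1)`.
`volT_crude`: `walk_upper` with `n0 = n1 = 1`, `β = η = η0`; `Lam t y / A (b-1) ≤ y + τ(y)/t`,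
`τ(y)/t = e^{t y} e^τ ≤ e^2`; for `b = 0` the volume is `1`.
`volT_upper`: `η' = min (η/4) (1/100)`, `τ1 = L^(-1/2 + 2η')`, `x1` with `tau t x1 = τ1` (`tau_eq`;
`x1 = L (log τ1 - τ1 + log L)`), `n1 = ⌊y + b - x1⌋`, `n0` a large constant,
`β n = (eh (x n) - γ)^(1/3)`, `η n = 15 β n / tau (x n)`. On the range `eh ≥ t τ1 ≥ 2 γ`.
`A (n-1) ≥ A n exp (eh (x (n+1)))` by `incr_ratio`. Smallness: `(β/τ)^3 ≤ t/(τ^2 σ^2)`, which is
`≤ 4 t / τ1^2` if `τ ≤ 1/2`, and `eh x ≤ 1/(xc - x) ≤ 1/n0` (`sigma_bounds`) if `τ ≥ 1/2`.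
Regularity: `eh_ratio`, `d = 2 t / σ(x+1)^2 = 2 eh (x+1) / τ(x+1) ≤ 1`,
`(E1 - γ)/(E0 - γ) ≤ 1 + 4 d`, `d ≤ 4 e β^3/τ`. Sums: `η β^2 ≤ 15 t/σ^2 ≤ 60 t + 30/(xc - x)`, total
`O(log L)`; `E^(2/3) - (E - γ)^(2/3) ≤ γ E^(-1/3) ≤ L^(-1 + η')`; the terms with `x < x1` are at most
`(4 t τ1)^(2/3)` each; the last `n0` terms are at most `1` each; `b ≤ L log L`. -/

namespace Pool.Agent.Work.MP_5391ad_co

open Real Finset Filter

theorem aup_x_le (y : ℝ) (b : ℕ) {i j : ℕ} (hij : i ≤ j) :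
    y + (b - j : ℕ) ≤ y + (b - i : ℕ) :=
  add_le_add_right (Nat.cast_le.2 (Nat.sub_le_sub_left hij b)) y

theorem aup_x_lt {t y : ℝ} {b : ℕ} (h : y + b < xc t) (n : ℕ) : y + (b - n : ℕ) < xc t :=
  (aup_x_le y b (Nat.zero_le n)).trans_lt h

theorem rate_pos {t y : ℝ} {b : ℕ} (ht : 0 < t) (h : y + b < xc t) (n : ℕ) :
    t ≤ rate t y b n := by
  have h1 := aup_x_lt h n
  obtain ⟨h2, h3, -⟩ := tau_spec ht (show y + (b - n : ℕ) - 1 < xc t by linarith)
  refine le_trans ?_ (incr_bounds ht h1).1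
  rw [le_div_iff₀ (sub_pos.2 h3)]
  linarith only [ht, h2, mul_pos_of_neg_of_neg (Mathlib.Tactic.Linarith.sub_neg_of_lt ht) (Mathlib.Tactic.Linarith.sub_neg_of_lt h2)]

theorem rate_anti {t y : ℝ} {b : ℕ} (ht : 0 < t) (h : y + b < xc t) {i j : ℕ} (hij : i ≤ j) :
    rate t y b j ≤ rate t y b i := by
  have h1 := incr_mono (x := y + (b - j : ℕ) - 1) (x' := y + (b - i : ℕ) - 1) ht zero_le_one
    (sub_le_sub_right (aup_x_le y b hij) 1) (by rw [sub_add_cancel]; exact aup_x_lt h i)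
  rwa [sub_add_cancel, sub_add_cancel] at h1

theorem aup_a0 {t y : ℝ} {b : ℕ} (ht : 0 < t) (hy : 0 ≤ y) (hty : t * y ≤ 1) (h : y + b < xc t)
    (n : ℕ) : 0 ≤ Lam t y ∧ exp 2 * Lam t y / rate t y b n ≤ exp 2 * (y + exp 2) := by
  obtain ⟨h1, h2, h3⟩ := tau_spec ht (show y < xc t by linarith only [h, b.cast_nonneg (α := ℝ)])
  have h0 : 0 ≤ Lam t y := add_nonneg (mul_nonneg ht.le hy) h1.le
  have h4 : tau t y ≤ t * exp 2 := by
    rw [← exp_log h1, ← exp_log ht, ← exp_add, exp_log ht]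
    exact exp_le_exp.2 (by linarith)
  refine ⟨h0, ?_⟩
  rw [mul_div_assoc]
  refine mul_le_mul_of_nonneg_left ((div_le_div_of_nonneg_left h0 ht (rate_pos ht h n)).trans ?_)
    (exp_pos 2).le
  rw [div_le_iff₀' ht, Lam]
  linarith only [h4]

theorem aup_free {t y : ℝ} {b : ℕ} (ht : 0 < t) (h : y + b < xc t) : 0 ≤ FreeT t y b :=
  prod_nonneg fun i _ => mul_nonneg (exp_pos 1).le (ht.le.trans (rate_pos ht h i))

theorem volT_crude : ∃ C : ℝ, ∀ (L y γ : ℝ) (b : ℕ), 0 < L → 0 ≤ y → y ≤ L → 0 ≤ γ → γ * b ≤ 1 →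
    y + b < xc L⁻¹ → VolT L⁻¹ y γ b ≤ FreeT L⁻¹ y b * exp (b * (γ * b) ^ 2 + C * (y + 1)) := by
  obtain ⟨C, η0, hC, h0, -, hW⟩ := walk_upper
  have hq : 0 < C / (η0 * η0) := by positivity
  refine ⟨1 + exp 2 + exp 2 * exp 2 + |log (C / (η0 * η0))|, fun L y γ b hL hy hyL hγ hb h => ?_⟩
  have ht := inv_pos.2 hL
  rcases Nat.eq_zero_or_pos b with rfl | hb0
  · have h1 : VolT L⁻¹ y γ 0 = 1 := by simp [VolT, Vol, Vg]
    rw [h1, FreeT, prod_range_zero, one_mul]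
    exact one_le_exp (by positivity)
  obtain ⟨h1, h2⟩ := aup_a0 ht hy (by rwa [inv_mul_le_iff₀ hL, mul_one]) h (b - 1)
  refine (hW (Lam L⁻¹ y) γ (rate L⁻¹ y b) (fun _ => η0) (fun _ => η0) b 1 1 h1 hγ
    (fun n => ht.trans_le (rate_pos ht h n)) (fun i j hij _ => rate_anti ht h hij) le_rfl le_rfl
    hb0 hb ⟨fun _ _ _ => ⟨h0, le_rfl, le_rfl⟩, fun n h3 h4 => absurd h3 (not_le.2 h4)⟩
    fun n h3 h4 => absurd h3 (not_le.2 h4)).trans ?_
  rw [mul_assoc, ← exp_log hq, ← exp_add, log_exp]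
  refine mul_le_mul_of_nonneg_left (exp_le_exp.2 ?_) (aup_free ht h)
  have h3 : γ ≤ 1 := (le_mul_of_one_le_right hγ (Nat.one_le_cast.2 hb0)).trans hb
  have h4 := le_abs_self (log (C / (η0 * η0)))
  have h5 : 0 ≤ (1 + exp 2 * exp 2 + |log (C / (η0 * η0))|) * y := by positivity
  have h6 := exp_pos 2
  simp only [Ioc_self, sum_empty, mul_zero, neg_zero, Nat.cast_one, one_pow, mul_one, zero_add]
  linarith only [h2, h3, h4, h5, h6]

theorem aup_cube {a : ℝ} (ha : 0 ≤ a) : (a ^ (1 / 3 : ℝ)) ^ 3 = a := by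
  rw [← rpow_natCast, ← rpow_mul ha]
  norm_num

theorem aup_sq {a : ℝ} (ha : 0 ≤ a) : a ^ (2 / 3 : ℝ) = (a ^ (1 / 3 : ℝ)) ^ 2 := by
  rw [← rpow_natCast, ← rpow_mul ha]
  norm_num

theorem aup_le_sq {a w : ℝ} (ha : 0 ≤ a) (hw : 0 ≤ w) (h : a ≤ w ^ 3) : a ^ (2 / 3 : ℝ) ≤ w ^ 2 := by
  rw [aup_sq ha]
  exact pow_le_pow_left₀ (rpow_nonneg ha _)
    (le_of_pow_le_pow_left₀ three_ne_zero hw (by rwa [aup_cube ha])) 2

/-- the scale of the walk -/
noncomputable def aup_b (t γ x : ℝ) : ℝ := (eh t x - γ) ^ (1 / 3 : ℝ)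

/-- the relative error -/
noncomputable def aup_e (t γ x : ℝ) : ℝ := 15 * aup_b t γ x / tau t x

theorem aup_eh_ge {t x : ℝ} (ht : 0 < t) (hx : x < xc t) : t * tau t x ≤ eh t x := by
  obtain ⟨h1, h2, -⟩ := tau_spec ht hx
  exact le_div_self (mul_pos ht h1).le (pow_pos (sub_pos.2 h2) 2)
    (pow_le_one₀ (sub_pos.2 h2).le (by linarith))

theorem aup_eh_pos {t x : ℝ} (ht : 0 < t) (hx : x < xc t) : 0 < eh t x :=
  (mul_pos ht (tau_spec ht hx).1).trans_le (aup_eh_ge ht hx)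

theorem aup_eh_le {t x : ℝ} (ht : 0 < t) (hx : x < xc t) : eh t x ≤ 1 / (xc t - x) := by
  rw [eh, div_le_div_iff₀ (pow_pos (sub_pos.2 (tau_spec ht hx).2.1) 2) (sub_pos.2 hx)]
  linarith only [ht, hx, (sigma_bounds ht hx).2.1]

theorem aup_eh_div {t x : ℝ} (ht : 0 < t) (hx : x < xc t) :
    eh t x / tau t x = t / (1 - tau t x) ^ 2 := by
  have h := (tau_spec ht hx).1.ne'
  rw [eh]
  field_simp

theorem aup_half {t x : ℝ} (ht : 0 < t) (h : tau t x ≤ 1 / 2) : t / (1 - tau t x) ^ 2 ≤ 4 * t := by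
  rw [div_le_iff₀ (pow_pos (by linarith only [h]) 2)]
  linarith only [h, ht, mul_le_mul_of_nonneg_left (show 1 ≤ 4 * (1 - tau t x) ^ 2 by nlinarith) ht.le, mul_nonneg_of_nonpos_of_nonpos (Mathlib.Tactic.Linarith.sub_nonpos_of_le h) (Mathlib.Tactic.Linarith.sub_nonpos_of_le h)]

theorem aup_half' {t x : ℝ} (ht : 0 < t) (hx : x < xc t) (h : 1 / 2 ≤ tau t x) :
    t / (1 - tau t x) ^ 2 ≤ 2 / (xc t - x) := by
  have h1 := aup_eh_le ht hx
  have h2 := aup_eh_pos ht hx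
  rw [← aup_eh_div ht hx]
  refine (div_le_div₀ (h2.le.trans h1) h1 (by norm_num) h).trans_eq ?_
  ring

theorem aup_d {t x : ℝ} (ht : 0 < t) (hx : x < xc t) :
    t / (1 - tau t x) ^ 2 ≤ 4 * t + 2 / (xc t - x) := by
  rcases le_total (tau t x) (1 / 2) with h | h
  · exact (aup_half ht h).trans (le_add_of_nonneg_right (div_pos two_pos (sub_pos.2 hx)).le)
  · exact (aup_half' ht hx h).trans (le_add_of_nonneg_left (by positivity))

theorem aup_b_spec {t γ x : ℝ} (ht : 0 < t) (hx : x < xc t) (hγ : 2 * γ ≤ eh t x) :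
    0 < aup_b t γ x ∧ aup_b t γ x ^ 3 = eh t x - γ ∧ aup_b t γ x ≤ aup_e t γ x := by
  have h1 : 0 < eh t x - γ := by linarith only [hγ, ht, hx, aup_eh_pos ht hx]
  have h2 : 0 < aup_b t γ x := rpow_pos_of_pos h1 _
  obtain ⟨h3, h4, -⟩ := tau_spec ht hx
  refine ⟨h2, aup_cube h1.le, ?_⟩
  rw [aup_e, le_div_iff₀ h3]
  linarith only [h2, h4, mul_pos_of_neg_of_neg (Mathlib.Tactic.Linarith.sub_neg_of_lt h2) (Mathlib.Tactic.Linarith.sub_neg_of_lt h4)]

theorem aup_small {t γ x τ1 η0 : ℝ} (ht : 0 < t) (hx : x < xc t) (h0 : 0 ≤ γ)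
    (hγ : 2 * γ ≤ eh t x) (hτ : 0 < τ1) (hτx : τ1 ≤ tau t x) (hη : 0 < η0)
    (h1 : 4 * t / τ1 ^ 2 ≤ (η0 / 15) ^ 3) (h2 : 8 / (xc t - x) ≤ (η0 / 15) ^ 3) :
    aup_e t γ x ≤ η0 := by
  obtain ⟨h3, h4, -⟩ := aup_b_spec ht hx hγ
  have h5 := hτ.trans_le hτx
  have h6 : (aup_b t γ x / tau t x) ^ 3 ≤ t / (1 - tau t x) ^ 2 / tau t x ^ 2 := by
    rw [div_pow, h4, ← aup_eh_div ht hx, div_div, ← pow_succ']
    exact div_le_div_of_nonneg_right (by linarith only [h0]) (pow_pos h5 3).le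
  have h7 : (aup_b t γ x / tau t x) ^ 3 ≤ (η0 / 15) ^ 3 := by
    rcases le_total (tau t x) (1 / 2) with h | h
    · exact h6.trans ((div_le_div₀ (by positivity) (aup_half ht h) (pow_pos hτ 2)
        (pow_le_pow_left₀ hτ.le hτx 2)).trans h1)
    · refine h6.trans (le_trans ((div_le_div₀ (div_pos two_pos (sub_pos.2 hx)).le
        (aup_half' ht hx h) (by norm_num) (pow_le_pow_left₀ (by norm_num) h 2)).trans_eq ?_) h2)
      ring
  have h8 := le_of_pow_le_pow_left₀ three_ne_zero (by positivity) h7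
  rw [aup_e, mul_div_assoc]
  linarith only [h8]

theorem aup_reg {t γ x : ℝ} (ht : 0 < t) (hx : x + 1 < xc t) (h0 : 0 ≤ γ) (hγ : 2 * γ ≤ eh t x)
    (hd : 2 * t / (1 - tau t (x + 1)) ^ 2 ≤ 1) :
    |log (aup_b t γ (x + 1) / aup_b t γ x)| ≤ aup_e t γ x * aup_b t γ x ^ 2 ∧
      |log (aup_e t γ (x + 1) / aup_e t γ x)| ≤ 3 * aup_e t γ x * aup_b t γ x ^ 2 := by
  have hx0 : x < xc t := by linarith only [hx]
  have hE : eh t x ≤ eh t (x + 1) := eh_monotoneOn ht hx0 hx (by linarith)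
  have hτ : tau t x ≤ tau t (x + 1) := alam_mono ht (by linarith) hx
  have hE0 := aup_eh_pos ht hx0
  obtain ⟨a1, a2, -⟩ := aup_b_spec ht hx0 hγ
  obtain ⟨b1, b2, -⟩ := aup_b_spec ht hx (hγ.trans hE)
  obtain ⟨c1, -, -⟩ := tau_spec ht hx0
  obtain ⟨d1, d2, -⟩ := tau_spec ht hx
  obtain ⟨r1, r2⟩ := eh_ratio ht hx
  have d3 : 0 < 1 - tau t (x + 1) := sub_pos.2 d2
  obtain ⟨D, hD⟩ : ∃ D, D = 2 * t / (1 - tau t (x + 1)) ^ 2 := ⟨_, rfl⟩
  rw [← hD] at hd r1
  have hD0 : 0 ≤ D := by rw [hD]; positivity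
  have e1 : exp D ≤ 1 + 2 * D := by
    have h := (abs_le.1 (abs_exp_sub_one_le (x := D) (by rwa [abs_of_nonneg hD0]))).2
    rw [abs_of_nonneg hD0] at h
    linarith only [h]
  have e2 : exp D ≤ 11 / 4 := (exp_le_exp.2 hd).trans (exp_one_lt_d9.le.trans (by norm_num))
  obtain ⟨Q, hQ⟩ : ∃ Q, Q = aup_b t γ x ^ 3 / tau t x := ⟨_, rfl⟩
  have hQ' : aup_e t γ x * aup_b t γ x ^ 2 = 15 * Q := by
    rw [hQ, aup_e]
    ring
  have hDQ : D ≤ 11 * Q := by
    rw [hD, mul_div_assoc, ← aup_eh_div ht hx, hQ, a2, ← mul_div_assoc, ← mul_div_assoc]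
    refine div_le_div₀ (by linarith only [hγ, hE0]) ?_ c1 hτ
    linarith only [hγ, r1, e2, hE0, mul_le_mul_of_nonneg_left e2 hE0.le]
  have l1 : 3 * log (aup_b t γ (x + 1) / aup_b t γ x) = log ((eh t (x + 1) - γ) / (eh t x - γ)) := by
    rw [← a2, ← b2, ← div_pow, log_pow]
    norm_num
  have p0 : 0 < eh t x - γ := a2 ▸ pow_pos a1 3
  have l2 : 0 ≤ log ((eh t (x + 1) - γ) / (eh t x - γ)) :=
    log_nonneg ((one_le_div p0).2 (by linarith only [hE]))
  have l3 : log ((eh t (x + 1) - γ) / (eh t x - γ)) ≤ 4 * D := by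
    refine (log_le_sub_one_of_pos (div_pos (by linarith only [hE, p0]) p0)).trans ?_
    rw [sub_le_iff_le_add, div_le_iff₀ p0]
    linarith only [r1, e1, hE0, hγ, hD0, mul_le_mul_of_nonneg_left e1 hE0.le, mul_le_mul_of_nonneg_left hγ hD0]
  have m1 : 0 ≤ log (tau t (x + 1) / tau t x) := log_nonneg ((one_le_div c1).2 hτ)
  have m2 : log (tau t (x + 1) / tau t x) ≤ D := by
    rw [log_le_iff_le_exp (div_pos d1 c1), div_le_iff₀' c1]
    refine r2.trans (mul_le_mul_of_nonneg_left (exp_le_exp.2 ?_) c1.le)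
    rw [hD, div_le_div_iff₀ d3 (pow_pos d3 2)]
    linarith only [ht, d3, d1, mul_pos ht d3, mul_pos (mul_pos ht d3) d1]
  have m3 : log (aup_e t γ (x + 1) / aup_e t γ x) =
      log (aup_b t γ (x + 1) / aup_b t γ x) - log (tau t (x + 1) / tau t x) := by
    rw [← log_div (div_pos b1 a1).ne' (div_pos d1 c1).ne', aup_e, aup_e]
    congr 1
    field_simp
  rw [mul_assoc, hQ', m3]
  exact ⟨abs_le.2 ⟨by linarith only [hD0, hDQ, l1, l2], by linarith only [hD0, hDQ, l1, l3]⟩, abs_le.2 ⟨by linarith only [hD0, hDQ, l1, l2, m2], by linarith only [hD0, hDQ, l1, l3, m1]⟩⟩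

theorem aup_gap {t γ x w : ℝ} (ht : 0 < t) (hx : x < xc t) (h0 : 0 ≤ γ) (hγ : 2 * γ ≤ eh t x)
    (hw : 0 < w) (h : w ^ 3 ≤ eh t x) :
    eh t x ^ (2 / 3 : ℝ) ≤ aup_b t γ x ^ 2 + γ / w ∧ w / 2 ≤ aup_b t γ x := by
  obtain ⟨h1, h2, -⟩ := aup_b_spec ht hx hγ
  have hE := aup_eh_pos ht hx
  have h3 := aup_cube hE.le
  rw [aup_sq hE.le]
  have h4 := rpow_pos_of_pos hE (1 / 3 : ℝ)
  generalize eh t x ^ (1 / 3 : ℝ) = c at h3 h4
  have h5 : w ≤ c := le_of_pow_le_pow_left₀ three_ne_zero h4.le (by rwa [h3])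
  have h6 : aup_b t γ x ≤ c := le_of_pow_le_pow_left₀ three_ne_zero h4.le (by linarith only [h0, h2, h3])
  refine ⟨?_, le_of_pow_le_pow_left₀ three_ne_zero h1.le (by linarith only [hγ, h, h2, hE, pow_pos hw 3])⟩
  refine le_trans ?_ (add_le_add_right (div_le_div_of_nonneg_left h0 hw h5) _)
  rw [← sub_le_iff_le_add', le_div_iff₀ h4]
  linarith only [h2, h3, h6, mul_le_mul_of_nonneg_left h6 (sq_nonneg (aup_b t γ x)), sq_nonneg (aup_b t γ x)]

theorem aup_harm {m n : ℕ} (hm : 1 ≤ m) (h : m ≤ n) :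
    ∑ k ∈ Ioc m n, (1 / k : ℝ) ≤ log n - log m := by
  induction n, h using Nat.le_induction with
  | base => simp
  | succ n h ih =>
    have h1 : (0 : ℝ) < n := Nat.cast_pos.2 (hm.trans h)
    have h2 := one_sub_inv_le_log_of_pos (x := (n + 1) / n) (by positivity)
    have h3 : 1 - ((n + 1 : ℝ) / n)⁻¹ = 1 / (n + 1) := by
      field_simp
      ring
    rw [log_div (by positivity) h1.ne', h3] at h2
    rw [sum_Ioc_succ_top h]
    push_cast
    linarith only [ih, h2]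

theorem aup_reidx (f : ℕ → ℝ) (b : ℕ) : ∑ i ∈ range b, f i = ∑ n ∈ Ioc 0 b, f (b - n) := by
  have h : ∀ (g : ℕ → ℝ) (m : ℕ), ∑ n ∈ Ioc 0 m, g n = ∑ j ∈ range m, g (j + 1) := fun g m => by
    induction m with
    | zero => simp
    | succ m ih => rw [sum_Ioc_succ_top (Nat.zero_le m), sum_range_succ, ih]
  rw [h, ← sum_range_reflect]
  exact sum_congr rfl fun j _ => by rw [Nat.sub_sub, add_comm]

theorem aup_sum {f : ℕ → ℝ} {m n b : ℕ} {c : ℝ} (hc : 0 ≤ c) (hb : n ≤ b)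
    (h : ∀ k, m < k → k ≤ n → f k ≤ c) : ∑ k ∈ Ioc m n, f k ≤ b * c := by
  refine (sum_le_card_nsmul _ _ c fun k hk => h k (mem_Ioc.1 hk).1 (mem_Ioc.1 hk).2).trans ?_
  rw [nsmul_eq_mul, Nat.card_Ioc]
  exact mul_le_mul_of_nonneg_right (Nat.cast_le.2 ((Nat.sub_le _ _).trans hb)) hc

theorem aup_main : ∃ C η0 : ℝ, 1 ≤ C ∧ 0 < η0 ∧ η0 ≤ 1 ∧
    ∀ (t τ1 x1 y γ w w' : ℝ) (b n0 : ℕ), 0 < t → t ≤ 1 / 16 → 8 ≤ n0 → 8 / (n0 : ℝ) ≤ (η0 / 15) ^ 3 →
    tau t x1 = τ1 → 0 < τ1 → τ1 ≤ 1 / 2 → 4 * t / τ1 ^ 2 ≤ (η0 / 15) ^ 3 → 0 ≤ γ →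
    2 * γ ≤ t * τ1 → 0 ≤ y → t * y ≤ 1 → y ≤ x1 → x1 + n0 ≤ y + b → y + b + 1 ≤ xc t →
    γ * b ≤ 1 → 0 < w → w ^ 3 ≤ t * τ1 → 0 ≤ w' → 4 * t * τ1 ≤ w' ^ 3 →
    VolT t y γ b ≤ FreeT t y b * exp (-(kap0 * ∑ i ∈ range b, eh t (y + i) ^ (2 / 3 : ℝ)) +
      kap0 * (n0 + b * (γ / w) + b * w' ^ 2) + C * (b * (60 * t) + 30 * log b) + γ * n0 ^ 2 +
      b * (γ * b) ^ 2 + exp 2 * (y + exp 2)) * (C / (w / 2 * (w / 2))) := by
  obtain ⟨C, η0, hC, h0, h1, hW⟩ := walk_upper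
  refine ⟨C, η0, hC, h0, h1, fun t τ1 x1 y γ w w' b n0 ht ht' hn0 hn0' hx1 hτ hτ' hs hγ hγ' hy hty
    hyx hxb hb hγb hw hw3 hw' hw3' => ?_⟩
  have hlt : y + b < xc t := by linarith only [ht, ht', hb]
  have hn0r : (8 : ℝ) ≤ n0 := by exact_mod_cast hn0
  obtain ⟨n1, h01, h1b, hn1, hn1'⟩ : ∃ n1 : ℕ, n0 ≤ n1 ∧ n1 ≤ b ∧ (n1 : ℝ) ≤ y + b - x1 ∧
      y + b - x1 < n1 + 1 :=
    ⟨⌊y + b - x1⌋₊, Nat.le_floor (by linarith only [hxb]), Nat.floor_le_of_le (by linarith only [hyx]),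
      Nat.floor_le (by linarith only [ht, ht', hxb, hn0r]), Nat.lt_floor_add_one _⟩
  obtain ⟨x, hx⟩ : ∃ x : ℕ → ℝ, ∀ n, x n = y + (b - n : ℕ) := ⟨_, fun _ => rfl⟩
  have hxe : ∀ n, n ≤ b → x n = y + b - n := fun n hn => by
    rw [hx, Nat.cast_sub hn]
    ring
  have hxc : ∀ n, x n < xc t := fun n => hx n ▸ aup_x_lt hlt n
  have hgap : ∀ n, n ≤ b → (n : ℝ) + 1 ≤ xc t - x n := fun n hn => by linarith only [hb, hxe, hn, hxe n hn]
  have hx1c : x1 < xc t := by linarith only [ht, ht', hxb, hb, hn0r]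
  have hτn : ∀ n, n ≤ n1 → τ1 ≤ tau t (x n) := fun n hn => hx1 ▸ alam_mono ht (by
    linarith only [hn1, hxe, hn, h1b, hxe n (hn.trans h1b), (Nat.cast_le (α := ℝ)).2 hn]) (hxc n)
  have hEn : ∀ n, n ≤ n1 → t * τ1 ≤ eh t (x n) := fun n hn =>
    (mul_le_mul_of_nonneg_left (hτn n hn) ht.le).trans (aup_eh_ge ht (hxc n))
  have hγn : ∀ n, n ≤ n1 → 2 * γ ≤ eh t (x n) := fun n hn => hγ'.trans (hEn n hn)
  have hstep : ∀ n, n < b → x n = x (n + 1) + 1 := fun n hn => by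
    rw [hxe n hn.le, hxe (n + 1) hn]
    push_cast
    ring
  obtain ⟨ha, ha'⟩ := aup_a0 ht hy hty hlt (b - 1)
  have hV := hW (Lam t y) γ (rate t y b) (fun n => aup_b t γ (x n)) (fun n => aup_e t γ (x n))
    b n0 n1 ha hγ (fun n => ht.trans_le (rate_pos ht hlt n))
    (fun i j hij _ => rate_anti ht hlt hij) (by omega) h01 h1b hγb
    ⟨fun n h2 h3 => ⟨(aup_b_spec ht (hxc n) (hγn n h3)).1, (aup_b_spec ht (hxc n) (hγn n h3)).2.2,
      aup_small ht (hxc n) hγ (hγn n h3) hτ (hτn n h3) h0 hs (le_trans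
        (div_le_div_of_nonneg_left (by norm_num) (by linarith only [ht, ht', hn0r]) (by
          linarith only [ht, ht', hgap, h3, h1b, h2, hgap n (h3.trans h1b), (Nat.cast_le (α := ℝ)).2 h2])) hn0')⟩,
      fun n h2 h3 => by
        have h4 := hstep n (h3.trans_le h1b)
        have h5 := aup_d ht (hxc n)
        have h6 : 2 / (xc t - x n) ≤ 2 / 8 := div_le_div_of_nonneg_left (by norm_num) (by norm_num)
          (by linarith only [ht, ht', hn0r, hgap, h3, h1b, h2, hgap n (h3.le.trans h1b), (Nat.cast_le (α := ℝ)).2 h2])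
        have h7 := aup_reg ht (h4 ▸ hxc n) hγ (hγn (n + 1) h3) (by
          rw [← h4, mul_div_assoc]
          linarith only [ht', h5, h6])
        rwa [← h4] at h7⟩
    (fun n h2 h3 => by
      have h4 := hstep n (h3.trans_le h1b)
      have h5 := hstep (n - 1) (by omega)
      rw [Nat.sub_add_cancel (by omega : 1 ≤ n)] at h5
      have h6 := (incr_ratio ht (h5 ▸ hxc (n - 1))).1
      rw [(aup_b_spec ht (hxc _) (hγn (n + 1) h3)).2.1, sub_add_cancel, rate, rate, ← hx, ← hx,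
        h5, add_sub_cancel_right, mul_comm, eq_sub_of_add_eq h4.symm]
      exact h6)
  obtain ⟨-, hβ⟩ := aup_gap ht (hxc n0) hγ (hγn n0 h01) hw (hw3.trans (hEn n0 h01))
  have hβ' := hβ.trans (aup_b_spec ht (hxc n0) (hγn n0 h01)).2.2
  refine hV.trans (mul_le_mul (mul_le_mul_of_nonneg_left (exp_le_exp.2 ?_) (aup_free ht hlt))
    (div_le_div_of_nonneg_left (by linarith only [hC, ht, ht']) (by positivity)
      (mul_le_mul hβ' hβ (by positivity) (by linarith only [hw, hβ'])))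
    (div_nonneg (by linarith only [hC, ht, ht']) (mul_nonneg (by linarith only [hw, hβ']) (by linarith only [hw, hβ])))
    (mul_nonneg (aup_free ht hlt) (exp_pos _).le))
  have s1 : ∑ n ∈ Ioc 0 n0, eh t (x n) ^ (2 / 3 : ℝ) ≤ n0 * 1 :=
    aup_sum zero_le_one le_rfl fun k _ h3 => rpow_le_one (aup_eh_pos ht (hxc k)).le
      ((aup_eh_le ht (hxc k)).trans ((div_le_one (sub_pos.2 (hxc k))).2 (by
        linarith only [hgap, h3, h01, h1b, hgap k ((h3.trans h01).trans h1b), k.cast_nonneg (α := ℝ)]))) (by norm_num)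
  have s2 : ∑ n ∈ Ioc n0 n1, (eh t (x n) ^ (2 / 3 : ℝ) - aup_b t γ (x n) ^ 2) ≤ b * (γ / w) :=
    aup_sum (div_nonneg hγ hw.le) h1b fun k _ h3 =>
      sub_le_iff_le_add'.2 (aup_gap ht (hxc k) hγ (hγn k h3) hw (hw3.trans (hEn k h3))).1
  have s3 : ∑ n ∈ Ioc n1 b, eh t (x n) ^ (2 / 3 : ℝ) ≤ b * w' ^ 2 :=
    aup_sum (sq_nonneg _) le_rfl fun k h2 h3 => aup_le_sq (aup_eh_pos ht (hxc k)).le hw' (by
      have h4 : (n1 : ℝ) + 1 ≤ k := by exact_mod_cast h2
      refine (eh_monotoneOn ht (hxc k) hx1c (by linarith only [hn1', h4, hxe, h3, hxe k h3])).trans (le_trans ?_ hw3')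
      have h5 := mul_le_mul_of_nonneg_right (aup_half ht (hx1 ▸ hτ')) hτ.le
      rw [hx1] at h5
      rwa [eh, hx1, mul_div_right_comm])
  have s4 : ∑ n ∈ Ioc n0 n1, (aup_e t γ (x n) * aup_b t γ (x n) ^ 2 - 30 * (1 / n)) ≤
      b * (60 * t) :=
    aup_sum (by positivity) h1b fun k h2 h3 => by
      have h4 : aup_e t γ (x k) * aup_b t γ (x k) ^ 2 =
          15 * (aup_b t γ (x k) ^ 3 / tau t (x k)) := by
        rw [aup_e]
        ring
      have h5 : aup_b t γ (x k) ^ 3 / tau t (x k) ≤ eh t (x k) / tau t (x k) :=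
        div_le_div_of_nonneg_right (by linarith only [hγ, ht, hxc, hγn, h3, (aup_b_spec ht (hxc k) (hγn k h3)).2.1])
          (hτ.le.trans (hτn k h3))
      have h6 : 2 / (xc t - x k) ≤ 2 / k := div_le_div_of_nonneg_left (by norm_num)
        (Nat.cast_pos.2 (by omega)) (by linarith only [ht, ht', hgap, h3, h1b, hgap k (h3.trans h1b)])
      have h7 : (2 : ℝ) / k = 2 * (1 / k) := by ring
      rw [aup_eh_div ht (hxc k)] at h5
      linarith only [h4, h5, h6, h7, ht, hxc, aup_d ht (hxc k)]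
  have s5 := aup_harm (show 1 ≤ n0 by omega) h01
  have s6 : 0 ≤ log n0 := log_nonneg (by linarith only [ht, ht', hn0r])
  have s7 : log n1 ≤ log b := log_le_log (Nat.cast_pos.2 (by omega)) (Nat.cast_le.2 h1b)
  rw [sum_sub_distrib] at s2 s4
  rw [← mul_sum] at s4
  have s8 : ∑ i ∈ range b, eh t (y + i) ^ (2 / 3 : ℝ) ≤
      ∑ n ∈ Ioc n0 n1, aup_b t γ (x n) ^ 2 + (n0 + b * (γ / w) + b * w' ^ 2) := by
    rw [aup_reidx (fun i => eh t (y + i) ^ (2 / 3 : ℝ)), ← sum_Ioc_consecutive _ (Nat.zero_le n1) h1b,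
      ← sum_Ioc_consecutive _ (Nat.zero_le n0) h01]
    simp only [← hx]
    linarith only [s1, s2, s3]
  have s9 := mul_le_mul_of_nonneg_left s8 kap0_pos.le
  have s10 := mul_le_mul_of_nonneg_left (show ∑ n ∈ Ioc n0 n1, aup_e t γ (x n) * aup_b t γ (x n) ^ 2
    ≤ b * (60 * t) + 30 * log b by linarith only [s4, s5, s6, s7]) (zero_le_one.trans hC)
  linarith only [ha', s9, s10]

theorem aup_fin : ∃ K M : ℝ, 1 ≤ K ∧ ∀ (L u s y γ : ℝ) (b : ℕ), M ≤ L → M ≤ u → 0 < s → s ^ 2 = L →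
    u ^ 100 ≤ L → 7 ≤ log L → K * log L ^ 3 ≤ u ^ 2 → 0 ≤ y → y ≤ L → 0 ≤ γ → γ ≤ u / (L * s) →
    y + b + 1 ≤ xc L⁻¹ → xc L⁻¹ ≤ y + b + L →
    VolT L⁻¹ y γ b ≤ FreeT L⁻¹ y b *
      exp (-(kap0 * ∑ i ∈ range b, eh L⁻¹ (y + i) ^ (2 / 3 : ℝ)) + u ^ 4 + exp 2 * y) := by
  obtain ⟨C, η0, hC, h0, -, hW⟩ := aup_main
  have hk := kap0_pos
  have he : 0 < (η0 / 15) ^ 3 := by positivity
  obtain ⟨n0, hn0⟩ := exists_nat_ge (max 8 (8 / (η0 / 15) ^ 3))
  have hn8 : (8 : ℝ) ≤ n0 := (le_max_left _ _).trans hn0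
  have hC4 : 0 ≤ log (4 * C) := log_nonneg (by linarith only [hC])
  have hK : 0 ≤ kap0 * (n0 + 5) + 120 * C + n0 ^ 2 + exp 2 * exp 2 + log (4 * C) := by positivity
  refine ⟨kap0 * (n0 + 5) + 120 * C + n0 ^ 2 + exp 2 * exp 2 + log (4 * C) + 2,
    max 16 (max n0 (4 / (η0 / 15) ^ 3)), by linarith only [hK],
    fun L u s y γ b hL hu hs hsL huL hl hKl hy hyL hγ hγ' hb hb' => ?_⟩
  obtain ⟨hL16, hLn, -⟩ : 16 ≤ L ∧ n0 ≤ L ∧ 4 / (η0 / 15) ^ 3 ≤ L := by simpa using hL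
  obtain ⟨hu16, -, hue⟩ : 16 ≤ u ∧ n0 ≤ u ∧ 4 / (η0 / 15) ^ 3 ≤ u := by simpa using hu
  have hL0 : 0 < L := by linarith only [hL16]
  have hu0 : 0 < u := by linarith only [hu16]
  have hu1 : 1 ≤ u := by linarith only [hu16]
  have ht := inv_pos.2 hL0
  have hxc : xc L⁻¹ = L * (log L - 1) := by rw [xc, inv_inv]
  have hus : u ^ 3 ≤ s := le_of_pow_le_pow_left₀ two_ne_zero hs.le (by
    rw [← pow_mul, hsL]
    exact (pow_le_pow_right₀ hu1 (by norm_num)).trans huL)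
  obtain hlu : 100 * log u ≤ log L := by
    have h := log_le_log (pow_pos hu0 100) huL
    rwa [log_pow, Nat.cast_ofNat] at h
  have hls : log L = 2 * log s := by rw [← hsL, log_pow, Nat.cast_ofNat]
  have hlu0 : 0 ≤ log u := log_nonneg hu1
  have hτ : 0 < u ^ 2 / s := by positivity
  obtain hτ' : u ^ 2 / s ≤ 1 / 2 := by
    rw [div_le_iff₀ hs]
    linarith only [hs, hus, hu16, mul_le_mul_of_nonneg_left hu16 (sq_nonneg u), sq_nonneg u]
  obtain hlτ : log (u ^ 2 / s) = 2 * log u - log s := by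
    rw [log_div (by positivity) hs.ne', log_pow, Nat.cast_ofNat]
  obtain ⟨hx1, -⟩ := tau_eq (x := L * (log (u ^ 2 / s) - u ^ 2 / s + log L)) ht hτ (by linarith only [hτ, hτ']) (by
    rw [inv_mul_cancel_left₀ hL0.ne', log_inv]
    ring)
  have hl1 : 1 ≤ log L := by linarith only [hl, hτ, hτ']
  have hl3 : log L ≤ log L ^ 3 := le_self_pow₀ hl1 three_ne_zero
  have hlu2 : log L ≤ u ^ 2 :=
    (hl3.trans (le_mul_of_one_le_left (by linarith only [hl, hτ, hτ', hl3]) (by linarith only [hK, hτ, hτ']))).trans hKl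
  have hbL : (b : ℝ) ≤ L * log L := by linarith only [hy, hb, hL16, hxc, hτ, hτ']
  have hγb : γ * b ≤ u * log L / s :=
    (mul_le_mul hγ' hbL b.cast_nonneg (by positivity)).trans_eq (by field_simp)
  have hγb1 : γ * b ≤ 1 := hγb.trans ((div_le_one hs).2 (by
    linarith only [hus, hlu2, hu0, mul_le_mul_of_nonneg_left hlu2 hu0.le]))
  have hyx : y ≤ L * (log (u ^ 2 / s) - u ^ 2 / s + log L) :=
    hyL.trans (le_mul_of_one_le_right hL0.le (by linarith only [hl, hls, hlu0, hτ, hτ', hlτ]))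
  obtain hxb : L * (log (u ^ 2 / s) - u ^ 2 / s + log L) + n0 ≤ y + b := by
    clear * - L u s hl hlu hls hτ hτ' hlτ hL0 n0 y b hb' hLn hxc
    have h := mul_le_mul_of_nonneg_left
      (show log (u ^ 2 / s) - u ^ 2 / s + log L + 1 ≤ log L - 2 by linarith only [hl, hlu, hls, hτ, hτ', hlτ]) hL0.le
    linarith only [hb', hLn, hxc, h]
  have hb1 : (1 : ℝ) ≤ b := by linarith only [hn8, hτ, hτ', hyx, hxb]
  have htτ : L⁻¹ * (u ^ 2 / s) = u ^ 2 / (L * s) := by field_simp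
  refine (hW L⁻¹ (u ^ 2 / s) _ y γ s⁻¹ (2 * u / s) b n0 ht (by
      rw [one_div]
      exact inv_anti₀ (by norm_num) hL16) (by exact_mod_cast hn8)
    ((div_le_comm₀ (by linarith only [hn8, hτ, hτ']) he).2 ((le_max_right _ _).trans hn0)) hx1 hτ hτ' ?_ hγ ?_ hy
    (by rwa [inv_mul_le_iff₀ hL0, mul_one]) hyx hxb hb hγb1 (inv_pos.2 hs) ?_ (by positivity)
    ?_).trans ?_
  · have h : 4 * L⁻¹ / (u ^ 2 / s) ^ 2 = 4 / u ^ 4 := by
      rw [← hsL]
      field_simp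
    rw [h, div_le_comm₀ (by positivity) he]
    exact hue.trans (le_self_pow₀ hu1 four_ne_zero)
  · rw [htτ]
    refine (mul_le_mul_of_nonneg_left hγ' two_pos.le).trans ?_
    rw [← mul_div_assoc]
    exact div_le_div_of_nonneg_right (by linarith only [hu16, hτ, hτ', hu0, mul_le_mul_of_nonneg_left hu16 hu0.le])
      (by positivity)
  · rw [htτ, inv_pow, ← one_div, ← hsL, ← pow_succ]
    exact div_le_div_of_nonneg_right (one_le_pow₀ hu1) (by positivity)
  · rw [mul_assoc, htτ, div_pow, ← hsL, ← pow_succ, ← mul_div_assoc]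
    exact div_le_div_of_nonneg_right (by
      linarith only [hl, hτ, hτ', hlu2, hu16, mul_le_mul_of_nonneg_left hu16 (sq_nonneg u), sq_nonneg u]) (by positivity)
  obtain hq : C / (s⁻¹ / 2 * (s⁻¹ / 2)) = exp (log (4 * C) + log L) := by
    rw [exp_add, exp_log (by linarith only [hC, hτ, hτ']), exp_log hL0, ← hsL]
    field_simp
    norm_num
  rw [hq, mul_assoc, ← exp_add]
  refine mul_le_mul_of_nonneg_left (exp_le_exp.2 ?_) (aup_free ht (by linarith only [hb, hτ, hτ']))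
  obtain ⟨P, hP⟩ : ∃ P, P = u ^ 2 * log L ^ 3 := ⟨_, rfl⟩
  have hu2 : 1 ≤ u ^ 2 := one_le_pow₀ hu1
  have p1 : u ^ 2 * log L ≤ P := hP ▸ mul_le_mul_of_nonneg_left hl3 (by positivity)
  have p2 : log L ≤ P := (le_mul_of_one_le_left (by linarith only [hl, hτ, hτ']) hu2).trans p1
  have p3 : 1 ≤ P := hl1.trans p2
  obtain e1 : b * (γ / s⁻¹) ≤ P := by
    rw [div_inv_eq_mul, ← mul_assoc, mul_comm (b : ℝ)]
    refine ((le_div_iff₀ hs).1 hγb).trans (le_trans ?_ p1)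
    exact mul_le_mul_of_nonneg_right (le_self_pow₀ hu1 two_ne_zero) (by linarith only [hl, hτ, hτ'])
  obtain e2 : b * (2 * u / s) ^ 2 ≤ 4 * P := by
    refine (mul_le_mul_of_nonneg_right hbL (sq_nonneg _)).trans (le_trans (le_of_eq ?_)
      (mul_le_mul_of_nonneg_left p1 four_pos.le))
    rw [div_pow, hsL]
    field_simp
    norm_num
  obtain e3 : b * (60 * L⁻¹) ≤ 60 * P := by
    refine (mul_le_mul_of_nonneg_right hbL (by positivity)).trans (le_trans (le_of_eq ?_)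
      (mul_le_mul_of_nonneg_left p2 (by norm_num)))
    field_simp
  obtain e4 : log b ≤ 2 * P := by
    clear * - b L hbL hL0 n0 u s y hn8 hτ hτ' hyx hxb P p2
    have h1 : (b : ℝ) ≤ L ^ 2 := hbL.trans (by
      rw [sq]
      exact mul_le_mul_of_nonneg_left (log_le_self hL0.le) hL0.le)
    have h2 := log_le_log (by linarith only [hn8, hτ, hτ', hyx, hxb]) h1
    rw [log_pow, Nat.cast_ofNat] at h2
    linarith only [p2, h2]
  obtain e5 : γ * n0 ^ 2 ≤ n0 ^ 2 * P := by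
    rw [mul_comm]
    exact mul_le_mul_of_nonneg_left (((le_mul_of_one_le_right hγ hb1).trans hγb1).trans p3)
      (sq_nonneg _)
  obtain e6 : b * (γ * b) ^ 2 ≤ P := by
    clear * - b γ L u s P hbL hγ hb1 hγb hL16 hl hP hsL hu16
    refine (mul_le_mul hbL (pow_le_pow_left₀ (by positivity) hγb 2) (sq_nonneg _)
      (by positivity)).trans_eq ?_
    rw [hP, div_pow, hsL]
    field_simp
  have e7 : (n0 : ℝ) ≤ n0 * P := le_mul_of_one_le_right n0.cast_nonneg p3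
  have e8 : exp 2 * exp 2 ≤ exp 2 * exp 2 * P := le_mul_of_one_le_right (by positivity) p3
  have e9 : log (4 * C) ≤ log (4 * C) * P := le_mul_of_one_le_right hC4 p3
  have f1 := mul_le_mul_of_nonneg_left (show n0 + b * (γ / s⁻¹) + b * (2 * u / s) ^ 2 ≤
    n0 * P + 5 * P by linarith only [e1, e2, e7]) hk.le
  have f2 := mul_le_mul_of_nonneg_left (show b * (60 * L⁻¹) + 30 * log b ≤ 120 * P by linarith only [e3, e4])
    (zero_le_one.trans hC)
  have f3 := mul_le_mul_of_nonneg_left hKl (sq_nonneg u)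
  rw [mul_left_comm, ← hP] at f3
  linarith only [p2, e5, e6, e8, e9, f1, f2, f3]

theorem volT_upper {η : ℝ} (hη : 0 < η) : ∃ η' : ℝ, 0 < η' ∧ ∃ C : ℝ, ∀ᶠ L : ℝ in atTop,
    ∀ (y γ : ℝ) (b : ℕ), 0 ≤ y → y ≤ L → 0 ≤ γ → γ ≤ L ^ (-(3 / 2) + η') →
    y + b + 1 ≤ xc L⁻¹ → xc L⁻¹ ≤ y + b + L →
    VolT L⁻¹ y γ b ≤ FreeT L⁻¹ y b *
      exp (-(kap0 * ∑ i ∈ range b, eh L⁻¹ (y + i) ^ (2 / 3 : ℝ)) + L ^ η + C * y) := by
  obtain ⟨K, M, hK, h⟩ := aup_fin
  have h0 : 0 < min (η / 4) (1 / 100) := lt_min (by linarith only [hη]) (by norm_num)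
  have h1 := min_le_left (η / 4) (1 / 100)
  have h2 := min_le_right (η / 4) (1 / 100)
  generalize min (η / 4) (1 / 100) = ε at h0 h1 h2
  refine ⟨ε, h0, exp 2, ?_⟩
  filter_upwards [eventually_ge_atTop M, eventually_ge_atTop 1,
    (tendsto_rpow_atTop h0).eventually_ge_atTop M, tendsto_log_atTop.eventually_ge_atTop 7,
    (isLittleO_log_rpow_rpow_atTop (3 : ℕ) (show 0 < ε * (2 : ℕ) by positivity)).bound
      (show 0 < K⁻¹ by positivity)] with L hM hL hu hl hK' y γ b hy hyL hγ hγ' hb hb'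
  have hL0 : 0 < L := by linarith only [h0, h2, hL]
  have hp : ∀ (n : ℕ) (a : ℝ), ε * n ≤ a → (L ^ ε) ^ n ≤ L ^ a := fun n a ha => by
    rw [← rpow_mul_natCast hL0.le]
    exact rpow_le_rpow_of_exponent_le hL ha
  rw [rpow_natCast, rpow_mul_natCast hL0.le, norm_of_nonneg (by positivity),
    norm_of_nonneg (by positivity), le_inv_mul_iff₀ (by linarith only [hK, h0, h2])] at hK'
  refine (h L (L ^ ε) √L y γ b hM hu (sqrt_pos.2 hL0) (sq_sqrt hL0.le)
    ((hp 100 1 (by push_cast; linarith only [h2])).trans_eq (rpow_one L)) hl hK' hy hyL hγ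
    (hγ'.trans_eq ?_) hb hb').trans
    (mul_le_mul_of_nonneg_left (exp_le_exp.2 ?_) (aup_free (inv_pos.2 hL0) (by linarith only [h0, h2, hb])))
  · rw [add_comm, ← sub_eq_add_neg, rpow_sub hL0, sqrt_eq_rpow, show (3 / 2 : ℝ) = 1 + 1 / 2 by
      norm_num, rpow_add hL0, rpow_one]
  · linarith only [hp, h1, hp 4 η (by push_cast; linarith)]

end Pool.Agent.Work.MP_5391ad_co
end
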