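import Pool.Agent.Work.MP_5391ad_co.QTsum
import Pool.Agent.Work.MP_5391ad_co.AUp

-- merged part: Pool.Agent.Work.MP_5391ad_co.PBase
section
/-! Toolkit for walks, domination and bridges.
All proofs are inductions on `Relation.ReflTransGen`. The two splitting lemmas `av_first`,
`av_last` replace the use of simple paths. -/

namespace Pool.Agent.Work.MP_5391ad_co

open Finset
open scoped Classical

variable {α : Type*} {D : α → α → Prop} {s : α} {V : Finset α}

theorem av_refl {B : Set α} {x : α} (h : x ∉ B) : Av D B x x := ⟨h, Relation.ReflTransGen.refl⟩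

theorem Av.trans {B : Set α} {x y z : α} (h : Av D B x y) (h' : Av D B y z) : Av D B x z :=
  ⟨h.1, h.2.trans h'.2⟩

theorem Av.not_mem_right {B : Set α} {x y : α} (h : Av D B x y) : y ∉ B := by
  obtain ⟨h1, h2⟩ := h
  cases h2 with
  | refl => exact h1
  | tail _ k => exact k.2

theorem Av.mono {B B' : Set α} {D' : α → α → Prop} {x y : α} (h : Av D B x y) (hB : B' ⊆ B)
    (hD : ∀ a b, D a b → a ∉ B → b ∉ B → D' a b) : Av D' B' x y := by
  obtain ⟨h1, h2⟩ := h
  refine ⟨fun k => h1 (hB k), ?_⟩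
  induction h2 with
  | refl => exact .refl
  | tail k1 k2 ih =>
    exact ih.tail ⟨hD _ _ k2.1 (Av.not_mem_right ⟨h1, k1⟩) k2.2, fun k => k2.2 (hB k)⟩

theorem Av.tail {B : Set α} {x y z : α} (h : Av D B x y) (hyz : D y z) (hz : z ∉ B) :
    Av D B x z := ⟨h.1, h.2.tail ⟨hyz, hz⟩⟩

theorem Av.head {B : Set α} {x y z : α} (hx : x ∉ B) (hxy : D x y) (h : Av D B y z) :
    Av D B x z := ⟨hx, Relation.ReflTransGen.head ⟨hxy, h.1⟩ h.2⟩

theorem av_empty {x y : α} : Av D ∅ x y ↔ Relation.ReflTransGen D x y := by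
  simp [Av]

theorem pbase_rv {B : Set α} {x y : α} (h : Av D B x y) : Av (rv D) B y x := by
  obtain ⟨h1, h2⟩ := h
  induction h2 with
  | refl => exact av_refl h1
  | tail _ k2 ih => exact Av.head k2.2 k2.1 ih

theorem pbase_l {B C : Set α} {x y : α} (h : Av D (B ∪ C) x y) : Av D B x y :=
  h.mono Set.subset_union_left fun _ _ k _ _ => k

theorem pbase_r {B C : Set α} {x y : α} (h : Av D (B ∪ C) x y) : Av D C x y :=
  h.mono Set.subset_union_right fun _ _ k _ _ => k

theorem av_rv {B : Set α} {x y : α} : Av (rv D) B x y ↔ Av D B y x := by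
  exact ⟨pbase_rv, pbase_rv⟩

/-- cut a walk at its first vertex in `C` -/
theorem av_first {B : Set α} (C : Set α) {x y : α} (h : Av D B x y) :
    Av D (B ∪ C) x y ∨ (x ∈ C) ∨
      ∃ p c, c ∈ C ∧ Av D (B ∪ C) x p ∧ D p c ∧ Av D B c y := by
  obtain ⟨h1, h2⟩ := h
  induction h2 with
  | refl =>
    by_cases k : x ∈ C
    · exact Or.inr (Or.inl k)
    · exact Or.inl (av_refl fun k' => k'.elim h1 k)
  | @tail b c k1 k2 ih =>
    rcases ih with k | k | ⟨p, c', k3, k4, k5, k6⟩
    · by_cases k' : c ∈ C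
      · exact Or.inr (Or.inr ⟨b, c, k', k, k2.1, av_refl k2.2⟩)
      · exact Or.inl (k.tail k2.1 fun k'' => k''.elim k2.2 k')
    · exact Or.inr (Or.inl k)
    · exact Or.inr (Or.inr ⟨p, c', k3, k4, k5, k6.tail k2.1 k2.2⟩)

/-- cut a walk at its last vertex in `C` -/
theorem av_last {B : Set α} (C : Set α) {x y : α} (h : Av D B x y) :
    Av D (B ∪ C) x y ∨ (y ∈ C) ∨
      ∃ c p, c ∈ C ∧ Av D B x c ∧ D c p ∧ Av D (B ∪ C) p y := by
  rcases av_first C (av_rv.2 h) with k | k | ⟨p, c, k3, k4, k5, k6⟩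
  · exact Or.inl (av_rv.1 k)
  · exact Or.inr (Or.inl k)
  · exact Or.inr (Or.inr ⟨c, p, k3, av_rv.1 k6, k5, av_rv.1 k4⟩)

theorem pbase_cyc {B : Set α} {u : α} (h : CycA (rv D) B u) : CycA D B u := by
  obtain ⟨v, h1, h2⟩ := h
  have h3 := av_rv.1 h2
  rcases h3.2.cases_head with rfl | ⟨w, k1, k2⟩
  · exact ⟨u, h1, h3⟩
  · exact ⟨w, k1.1, Av.tail ⟨k1.2, k2⟩ h1 h3.1⟩

theorem pbase_mono {D' : α → α → Prop} {x y : α} (h : Relation.ReflTransGen D x y)
    (h' : ∀ a b, D a b → D' a b) : Relation.ReflTransGen D' x y :=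
  Relation.ReflTransGen.mono h' x y h

theorem dom_rv {z x : α} : dom (rv D) s z x ↔ pdom D s z x := by
  exact and_congr_right fun _ => not_congr av_rv
theorem pdom_rv {z x : α} : pdom (rv D) s z x ↔ dom D s z x := by
  exact and_congr_right fun _ => not_congr av_rv
theorem obr_rv {u v : α} : OBr (rv D) s v u ↔ IBr D s u v := by
  exact and_congr_right fun _ => not_congr
    ⟨fun k => pbase_mono k.swap fun _ _ e => ⟨e.1, fun e' => e.2 e'.symm⟩,
      fun k => pbase_mono k.swap fun _ _ e => ⟨e.1, fun e' => e.2 e'.symm⟩⟩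
theorem ibr_rv {u v : α} : IBr (rv D) s v u ↔ OBr D s u v := by
  exact (obr_rv (D := rv D)).symm
theorem cycA_rv {B : Set α} {u : α} : CycA (rv D) B u ↔ CycA D B u := by
  exact ⟨pbase_cyc, pbase_cyc (D := rv D)⟩
theorem sc_rv {x y : α} : Sc (rv D) s x y ↔ Sc D s x y := by
  exact ⟨fun k => ⟨av_rv.1 k.2, av_rv.1 k.1⟩, fun k => ⟨av_rv.2 k.2, av_rv.2 k.1⟩⟩
theorem snk_rv {x : α} : Snk (rv D) s x ↔ Src D s x := Iff.rfl
theorem src_rv {x : α} : Src (rv D) s x ↔ Snk D s x := Iff.rfl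
theorem isEar_rv {x : α} : IsEar (rv D) s x ↔ IsEar D s x := by
  constructor <;> rintro ⟨u, y, h1, h2, h3, h4⟩
  · exact ⟨y, u, h2, h1, mt obr_rv.2 h4, mt ibr_rv.2 h3⟩
  · exact ⟨y, u, h2, h1, mt ibr_rv.1 h4, mt obr_rv.1 h3⟩
theorem GR.rev (h : GR V D s) : GR V (rv D) s := by
  refine ⟨h.root, fun a b k => (h.mem b a k).symm, h.irr, fun x hx => (h.bwd x hx).swap,
    fun x hx => (h.fwd x hx).swap, fun u v k => (h.cr v u k).symm.imp obr_rv.2 ibr_rv.2,
    fun u k => ?_⟩
  obtain ⟨z, h1, h2, h3, h4⟩ := h.dg u (cycA_rv.1 k)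
  exact ⟨z, h1, h2, mt cycA_rv.1 h3, h4.symm.imp dom_rv.2 pdom_rv.2⟩
theorem narc_rv [Fintype α] : narc (rv D) = narc D := by
  unfold narc
  exact card_nbij' Prod.swap Prod.swap (fun p hp => by simpa [rv] using hp)
    (fun p hp => by simpa [rv] using hp) (fun _ _ => rfl) fun _ _ => rfl

theorem Sc.symm {x y : α} (h : Sc D s x y) : Sc D s y x := ⟨h.2, h.1⟩
theorem Sc.trans {x y z : α} (h : Sc D s x y) (h' : Sc D s y z) : Sc D s x z :=
  ⟨h.1.trans h'.1, h'.2.trans h.2⟩
theorem CycA.not_mem {B : Set α} {u : α} (h : CycA D B u) : u ∉ B := by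
  obtain ⟨v, -, k⟩ := h
  exact k.not_mem_right
theorem CycA.of_sc {u v : α} (h : CycA D {s} u) (h' : Sc D s u v) : CycA D {s} v := by
  rcases h'.2.2.cases_head with rfl | ⟨w, k1, k2⟩
  · exact h
  · exact ⟨w, k1.1, Av.trans ⟨k1.2, k2⟩ h'.1⟩
theorem CCase.of_sc {u v : α} (h : CCase D s u) (h' : Sc D s u v) : CCase D s v := by
  rcases h with ⟨g, h1, h2, h3⟩ | ⟨b, h1, h2, h3⟩
  · refine Or.inl ⟨g, h1, fun k => h2 (h'.trans k), fun e => h2 (e ▸ h'), fun k => ?_⟩
    rcases av_first {g} h'.1 with k1 | k1 | ⟨p, _, rfl, k1, k2, k3⟩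
    · exact h3.2 ((pbase_r k1).trans k)
    · exact h3.1 k1
    · exact h2 ⟨(pbase_l k1).tail k2 h1, k3.trans h'.2⟩
  · exact Or.inr ⟨b, h'.symm.trans h1, h2, fun x y k1 k2 k3 =>
      h3 x y (h'.trans k1) k2 fun k => k3 (h'.symm.trans k)⟩

theorem dom_root {x : α} (h : x ≠ s) : dom D s s x := by
  exact ⟨h, fun k => k.1 rfl⟩
theorem not_dom_root {z : α} : ¬ dom D s z s := by
  exact fun k => k.2 (av_refl k.1)

theorem pbase_split (h : GR V D s) {z x : α} (hx : x ∈ V) (hd : dom D s z x) :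
    ∃ p, D z p ∧ Av D {z} p x := by
  rcases av_last {z} (av_empty.2 (h.fwd x hx)) with k | k | ⟨_, p, rfl, -, k1, k2⟩
  · exact (hd.2 (pbase_r k)).elim
  · exact (hd.1 k).elim
  · exact ⟨p, k1, pbase_r k2⟩

/-- a dominated vertex of `V` is reached from its dominator without passing the root again -/
theorem GR.av_of_dom (h : GR V D s) {z x : α} (hx : x ∈ V) (hz : z ≠ s) (hd : dom D s z x) :
    z ∈ V ∧ Av D {s} z x := by
  obtain ⟨p, h1, h2⟩ := pbase_split h hx hd
  refine ⟨(h.mem _ _ h1).1, ?_⟩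
  rcases av_last {s} h2 with k | rfl | ⟨_, q, rfl, -, k1, k2⟩
  · exact Av.head hz h1 (pbase_r k)
  · exact (not_dom_root hd).elim
  · exact (hd.2 (Av.head hz.symm k1 (pbase_l k2))).elim

theorem GR.dom_asymm (h : GR V D s) {z x : α} (hx : x ∈ V) (h1 : dom D s z x) :
    ¬ dom D s x z := by
  intro h2
  rcases av_first ({z} ∪ {x}) (av_empty.2 (h.fwd x hx)) with k | (rfl | rfl) |
    ⟨p, _, rfl | rfl, k1, k2, -⟩
  · exact k.not_mem_right (Or.inr (Or.inr rfl))
  · exact not_dom_root h2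
  · exact not_dom_root h1
  · exact h2.2 ((pbase_r (pbase_r k1)).tail k2 h2.1)
  · exact h1.2 ((pbase_l (pbase_r k1)).tail k2 h1.1)

theorem GR.dom_trans (h : GR V D s) {x y z : α} (hz : z ∈ V) (h1 : dom D s x y)
    (h2 : dom D s y z) : dom D s x z := by
  refine ⟨fun e => h.dom_asymm hz h2 (e ▸ h1), fun k => ?_⟩
  rcases av_first {y} k with k | rfl | ⟨p, _, rfl, k1, k2, -⟩
  · exact h2.2 (pbase_r k)
  · exact not_dom_root h1
  · exact h1.2 ((pbase_l k1).tail k2 h1.1)

/-- two dominators of one vertex are comparable -/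
theorem GR.dom_total (h : GR V D s) {x y z : α} (hz : z ∈ V) (h1 : dom D s x z)
    (h2 : dom D s y z) : x = y ∨ dom D s x y ∨ dom D s y x := by
  by_contra! k
  obtain ⟨k1, k2, k3⟩ := k
  have k4 : Av D {x} s y := not_not.1 fun k => k2 ⟨k1.symm, k⟩
  have k5 : Av D {y} s x := not_not.1 fun k => k3 ⟨k1, k⟩
  rcases av_last ({x} ∪ {y}) (av_empty.2 (h.fwd z hz)) with k | (e | e) |
    ⟨_, p, rfl | rfl, -, k6, k7⟩
  · exact h1.2 (pbase_l (pbase_r k))
  · exact h1.1 e
  · exact h2.1 e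
  · exact h2.2 (k5.trans (Av.head k1 k6 (pbase_r (pbase_r k7))))
  · exact h1.2 (k4.trans (Av.head k1.symm k6 (pbase_l (pbase_r k7))))

/-- an arc into the dominated region comes from the region or from the dominator -/
theorem dom_of_arc {z w x : α} (hd : dom D s z x) (hw : D w x) : w = z ∨ dom D s z w := by
  exact or_iff_not_imp_left.2 fun e => ⟨e, fun k => hd.2 (k.tail hw hd.1)⟩

/-- if `y` dominates `z` there is a walk from `y` to `z` inside the region of `y` which avoids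
every vertex `x` dominating `y` -/
theorem GR.av_suffix (h : GR V D s) {x y z : α} (hz : z ∈ V) (h1 : dom D s x y)
    (h2 : dom D s y z) : Av D {x} y z := by
  obtain ⟨p, k1, k2⟩ := pbase_split h hz h2
  have k3 := h.dom_asymm (h.mem _ _ k1).1 h1
  rcases av_last {x} k2 with k | rfl | ⟨_, q, rfl, -, k4, k5⟩
  · exact Av.head h1.1 k1 (pbase_r k)
  · exact (k3 h2).elim
  · exact (k3 ⟨h1.1.symm, fun k => h2.2 (k.trans (Av.head h1.1.symm k4 (pbase_l k5)))⟩).elim

theorem pbase_obr {u v p : α} (h : OBr D s u v) (h1 : Av D {v} s p) (h2 : D p v) : p = u :=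
  not_not.1 fun e => h.2 ((pbase_mono h1.2 fun _ _ k => ⟨k.1, fun e' => k.2 e'.2⟩).tail
    ⟨h2, fun e' => e e'.1⟩)

theorem GR.obr_unique (h : GR V D s) {u u' v : α} (h1 : OBr D s u v) (h2 : OBr D s u' v) :
    u = u' := by
  rcases av_first {v} (av_empty.2 (h.fwd v (h.mem _ _ h1.1).2)) with k | rfl |
    ⟨p, _, rfl, k1, k2, -⟩
  · exact (k.not_mem_right (Or.inr rfl)).elim
  · exact (h1.2 .refl).elim
  · exact (pbase_obr h1 (pbase_r k1) k2).symm.trans (pbase_obr h2 (pbase_r k1) k2)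

theorem OBr.ne_root {u v : α} (h : OBr D s u v) : v ≠ s := by
  rintro rfl
  exact h.2 .refl

theorem GR.dom_of_obr (h : GR V D s) {u v : α} (h1 : OBr D s u v) : dom D s u v := by
  exact ⟨fun e => h.irr u (e ▸ h1.1), fun k => h1.2
    (av_empty.1 (k.mono (Set.empty_subset _) fun _ _ k1 k2 _ => ⟨k1, fun e => k2 e.1⟩))⟩

/-- the other in-neighbours of the head of an out-bridge are dominated by the head -/
theorem GR.dom_of_obr_other (h : GR V D s) {u u' v : α} (h1 : OBr D s u v) (h2 : D u' v)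
    (hne : u' ≠ u) : dom D s v u' := by
  exact ⟨fun e => h.irr v (e ▸ h2), fun k => hne (pbase_obr h1 k h2)⟩

theorem GR.obr_of_unique (h : GR V D s) {u v : α} (hv : v ≠ s) (hu : ∀ a, D a v ↔ a = u) :
    OBr D s u v := by
  refine ⟨(hu u).2 rfl, fun k => ?_⟩
  rcases k.cases_tail with e | ⟨a, -, k1, k2⟩
  · exact hv e
  · exact k2 ⟨(hu a).1 k1, rfl⟩

theorem GR.exists_in (h : GR V D s) {v : α} (hv : v ∈ V) (hs : v ≠ s) : ∃ u, D u v := by
  rcases (h.fwd v hv).cases_tail with e | ⟨a, -, k⟩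
  · exact (hs e).elim
  · exact ⟨a, k⟩

theorem pbase_br (h : GR V D s) {u u' y : α} (h1 : OBr D s u y) (h2 : D u' y) (h3 : u' ≠ u) :
    CycA D {s} y ∧ ∀ z, z ≠ s → dom D s z y → CycA D {s, z} y := by
  have k1 := h.dom_of_obr_other h1 h2 h3
  have k2 := (h.mem _ _ h2).1
  refine ⟨cycA_rv.1 ⟨u', h2, av_rv.2 (h.av_of_dom k2 h1.ne_root k1).2⟩, fun z z1 z2 => ?_⟩
  rcases av_last {s} (h.av_suffix k2 z2 k1) with k | rfl | ⟨_, q, rfl, -, k4, k5⟩
  · exact cycA_rv.1 ⟨u', h2, av_rv.2 (k.mono (fun _ e => e.symm) fun _ _ k _ _ => k)⟩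
  · exact (not_dom_root k1).elim
  · exact ((h.dom_trans k2 z2 k1).2 (Av.head z1.symm k4 (pbase_l k5))).elim

theorem pbase_one (h : GR V D s) {u u' y w : α} (h1 : OBr D s u y) (h2 : D u' y) (h3 : u' ≠ u)
    (h4 : D y w) (h5 : ¬ ∃ w', D y w' ∧ w' ≠ w) : OBr D s y w := by
  push Not at h5
  have k1 := h.dom_of_obr_other h1 h2 h3
  obtain ⟨p, k2, k3⟩ := pbase_split h (h.mem _ _ h2).1 k1
  obtain rfl := h5 p k2
  refine ⟨h4, fun k => ?_⟩
  rcases av_last {y} (av_empty.2 k) with k | e | ⟨_, q, rfl, -, k4, -⟩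
  · exact k1.2 (((pbase_r k).mono le_rfl fun _ _ e _ _ => e.1).trans k3)
  · exact k3.1 e
  · exact k4.2 ⟨rfl, h5 q k4.1⟩

/-- A vertex with an entering out-bridge and a leaving in-bridge which is not an out-bridge is
an ear or has a doubly critical entering arc. Cases: in-degree at least two (then by `dg` the
out-degree is one and the leaving arc is an out-bridge, compare `Good.not_bs_bs` and
`Good.both_of_bs` in Struct.lean), or out-degree at least two (mirror image). -/
theorem GR.full (h : GR V D s) {u y w : α} (h1 : OBr D s u y) (h2 : IBr D s y w)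
    (h3 : ¬ OBr D s y w) : IsEar D s y ∨ IBr D s u y := by
  have h2' := obr_rv.2 h2
  by_cases k1 : ∃ u', D u' y ∧ u' ≠ u <;> by_cases k2 : ∃ w', D y w' ∧ w' ≠ w
  · obtain ⟨u', k3, k4⟩ := k1
    obtain ⟨w', k5, k6⟩ := k2
    obtain ⟨c1, c2⟩ := pbase_br h h1 k3 k4
    obtain ⟨z, -, z2, z3, z4 | z4⟩ := h.dg y c1
    · exact (z3 (c2 z z2 z4)).elim
    · exact (z3 (cycA_rv.1 ((pbase_br h.rev h2' k5 k6).2 z z2 (dom_rv.2 z4)))).elim
  · obtain ⟨u', k3, k4⟩ := k1
    exact (h3 (pbase_one h h1 k3 k4 h2.1 k2)).elim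
  · obtain ⟨w', k5, k6⟩ := k2
    exact Or.inr (obr_rv.1 (pbase_one h.rev h2' k5 k6 h1.1 k1))
  · push Not at k1 k2
    exact or_iff_not_imp_right.2 fun k => ⟨u, w, fun a => ⟨k1 a, fun e => e ▸ h1.1⟩,
      fun a => ⟨k2 a, fun e => e ▸ h2.1⟩, k, h3⟩

end Pool.Agent.Work.MP_5391ad_co
end

-- merged part: Pool.Agent.Work.MP_5391ad_co.QDag
section
/-! Acyclic cores and target sets.

`GR.dag_core`: an arc `(s, v)` is not an in-bridge, so it is an out-bridge; another in-neighbour of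
`v` would be dominated by `v` and give a cycle avoiding `s`. Rank: number of vertices from which
the vertex is reachable in `D - s`. `rootD_good`: every vertex is reached from a source and
reaches a sink (induction on the rank).

`CDat.card_TT` (the datum is the row phase, i.e. the column phase of the reversed digraph). If `a`
has no unique out-arc in `D2` the left side is at most `1`. Otherwise use `uniq`. A target `y` is
in `M`, or in `V3 \ M` (same entering arcs in `D2` and `D3`; in-bridges persist by `ob`; for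
`g = s` use `dmu`), or in some `P b`, where it is a hub: a non-hub has the single entering arc
`(tgt y, y)` in `D2` and `tno` says it is not an in-bridge. `|M| ≤ ∑ |H|` since `dfc ≥ 1`.

`sum_TT_le`: for `a` with unique in-neighbour `g ≠ s` in the rooted digraph, `g` is a row node,
the targets other than `a` are row nodes equal to or dominated by `g`; at most `odeg g` such `a`.
For a source `a`: targets are `a` and row nodes dominated by `a`; if `a` is not a row node its
only out-neighbour has another in-neighbour, which is reachable from a source avoiding `a`, so `a`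
dominates nothing. -/

namespace Pool.Agent.Work.MP_5391ad_co

open Finset
open scoped Classical

variable {α : Type*} [Fintype α] {D : α → α → Prop} {s : α} {V : Finset α}

theorem IsDag.rev {W : Finset α} {Δ : α → α → Prop} (h : IsDag W Δ) : IsDag W (rv Δ) := by
  obtain ⟨rk, hrk⟩ := h.acyc
  refine ⟨fun a b k => (h.mem b a k).symm, ⟨fun a => univ.sup rk - rk a, fun a b k => ?_⟩,
    fun u v k => (h.rule v u k).symm⟩
  have h1 := hrk b a k
  have h2 : rk a ≤ univ.sup rk := le_sup (f := rk) (mem_univ a)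
  show univ.sup rk - rk a < univ.sup rk - rk b
  omega

omit [Fintype α] in
theorem rootD_rv (W : Finset α) (Δ : α → α → Prop) : rv (rootD s W Δ) = rootD s W (rv Δ) := by
  funext u v
  exact propext (or_congr_right or_comm)

omit [Fintype α] in
theorem qdag_in (h : GR V D s) (hc : ∀ u, ¬ CycA D {s} u) {u v w : α} (h1 : OBr D s u v)
    (h2 : D w v) : w = u := by
  by_contra k
  exact hc v (pbase_br h h1 h2 k).1

omit [Fintype α] in
theorem qdag_root (h : GR V D s) (hc : ∀ u, ¬ CycA D {s} u) {v : α} (h1 : D s v) :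
    v ∈ V.erase s ∧ ∀ w, D w v → w = s := by
  refine ⟨mem_erase.2 ⟨fun k => h.irr s (k ▸ h1), (h.mem _ _ h1).2⟩, fun w hw => ?_⟩
  rcases h.cr s v h1 with k | k
  · exact qdag_in h hc k hw
  · exact absurd Relation.ReflTransGen.refl k.2

theorem GR.dag_core (h : GR V D s) (hc : ∀ u, ¬ CycA D {s} u) :
    IsDag (V.erase s) (fun u v => D u v ∧ u ≠ s ∧ v ≠ s) ∧
      D = rootD s (V.erase s) (fun u v => D u v ∧ u ≠ s ∧ v ≠ s) := by
  have hc' : ∀ u, ¬ CycA (rv D) {s} u := fun u k => hc u (cycA_rv.1 k)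
  refine ⟨⟨fun a b k => ⟨mem_erase.2 ⟨k.2.1, (h.mem a b k.1).1⟩,
    mem_erase.2 ⟨k.2.2, (h.mem a b k.1).2⟩⟩,
    ⟨fun v => (univ.filter fun u => Av D {s} u v).card, fun a b k => card_lt_card ?_⟩,
    fun u v k => ?_⟩, funext₂ fun u v => propext ⟨fun k => ?_, ?_⟩⟩
  · refine (ssubset_iff_of_subset fun x hx => ?_).2 ⟨b, ?_, fun hb => ?_⟩
    · exact mem_filter.2 ⟨mem_univ _, (mem_filter.1 hx).2.tail k.1 k.2.2⟩
    · exact mem_filter.2 ⟨mem_univ _, av_refl k.2.2⟩
    · exact hc a ⟨b, k.1, (mem_filter.1 hb).2⟩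
  · rcases h.cr u v k.1 with k1 | k1
    · exact Or.inr fun w hw => qdag_in h hc k1 hw.1
    · exact Or.inl fun w hw => qdag_in h.rev hc' (obr_rv.2 k1) hw.1
  · by_cases hu : u = s
    · subst hu
      obtain ⟨k1, k2⟩ := qdag_root h hc k
      exact Or.inr (Or.inl ⟨rfl, k1, fun w hw => hw.2.1 (k2 w hw.1)⟩)
    · by_cases hv : v = s
      · subst hv
        obtain ⟨k1, k2⟩ := qdag_root h.rev hc' k
        exact Or.inr (Or.inr ⟨rfl, k1, fun w hw => hw.2.2 (k2 w hw.1)⟩)
      · exact Or.inl ⟨k, hu, hv⟩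
  · rintro (k | ⟨rfl, k1, k2⟩ | ⟨rfl, k1, k2⟩)
    · exact k.1
    · obtain ⟨w, hw⟩ := h.exists_in (mem_erase.1 k1).2 (mem_erase.1 k1).1
      by_cases k3 : w = u
      · exact k3 ▸ hw
      · exact absurd ⟨hw, k3, (mem_erase.1 k1).1⟩ (k2 w)
    · obtain ⟨w, hw⟩ := h.rev.exists_in (mem_erase.1 k1).2 (mem_erase.1 k1).1
      by_cases k3 : w = v
      · exact k3 ▸ hw
      · exact absurd ⟨hw, (mem_erase.1 k1).1, k3⟩ (k2 w)

omit [Fintype α] in
theorem qdag_arc {W : Finset α} {Δ : α → α → Prop} {u v : α} (h : rootD s W Δ u v) (hu : u ≠ s)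
    (hv : v ≠ s) : Δ u v := by
  rcases h with k | k | k
  · exact k
  · exact absurd k.1 hu
  · exact absurd k.1 hv

omit [Fintype α] in
theorem qdag_obr {u v : α} (hv : v ≠ s) (h1 : D u v) (h2 : ∀ a, D a v → a = u) :
    OBr D s u v := by
  refine ⟨h1, fun k => ?_⟩
  rcases k.cases_tail with k1 | ⟨b, -, k1⟩
  · exact hv k1
  · exact k1.2 ⟨h2 b k1.1, rfl⟩

omit [Fintype α] in
theorem qdag_fwd {W : Finset α} {Δ : α → α → Prop} (h : IsDag W Δ) :
    ∀ x ∈ insert s W, Relation.ReflTransGen (rootD s W Δ) s x := by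
  obtain ⟨rk, hrk⟩ := h.acyc
  intro x
  induction hn : rk x using Nat.strong_induction_on generalizing x with
  | _ n ih =>
    intro hx
    rcases mem_insert.1 hx with rfl | hx
    · exact .refl
    · by_cases k : ∃ w, Δ w x
      · obtain ⟨w, hw⟩ := k
        exact (ih _ (hn ▸ hrk _ _ hw) w rfl (mem_insert_of_mem (h.mem _ _ hw).1)).tail (Or.inl hw)
      · exact .single (Or.inr (Or.inl ⟨rfl, hx, not_exists.1 k⟩))

theorem rootD_good {W : Finset α} {Δ : α → α → Prop} (h : IsDag W Δ) (hs : s ∉ W) :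
    GR (insert s W) (rootD s W Δ) s ∧ ∀ u, ¬ CycA (rootD s W Δ) {s} u := by
  have hc : ∀ u, ¬ CycA (rootD s W Δ) {s} u := by
    obtain ⟨rk, hrk⟩ := h.acyc
    have key : ∀ x y, Av (rootD s W Δ) {s} x y → rk x ≤ rk y := by
      rintro x y ⟨h1, h2⟩
      induction h2 with
      | refl => exact le_rfl
      | tail k1 k2 ih =>
        exact ih.trans (hrk _ _ (qdag_arc k2.1
          (Av.not_mem_right (B := {s}) ⟨h1, k1⟩) k2.2)).le
    rintro u ⟨v, h1, h2⟩
    exact absurd (hrk _ _ (qdag_arc h1 h2.not_mem_right h2.1)) (not_lt.2 (key _ _ h2))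
  have hne : ∀ x ∈ W, x ≠ s := fun x hx k => hs (k ▸ hx)
  refine ⟨⟨mem_insert_self _ _, ?_, ?_, qdag_fwd h, fun x hx => ?_, fun u v k => ?_,
    fun u k => absurd k (hc u)⟩, hc⟩
  · rintro a b (k | ⟨rfl, k, -⟩ | ⟨rfl, k, -⟩)
    · exact ⟨mem_insert_of_mem (h.mem _ _ k).1, mem_insert_of_mem (h.mem _ _ k).2⟩
    · exact ⟨mem_insert_self _ _, mem_insert_of_mem k⟩
    · exact ⟨mem_insert_of_mem k, mem_insert_self _ _⟩
  · rintro a (k | ⟨rfl, k, -⟩ | ⟨rfl, k, -⟩)
    · obtain ⟨rk, hrk⟩ := h.acyc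
      exact lt_irrefl _ (hrk _ _ k)
    · exact hs k
    · exact hs k
  · have h1 := qdag_fwd (s := s) h.rev x hx
    rw [← rootD_rv] at h1
    exact h1.swap
  · have k0 := k
    rcases k with k | ⟨rfl, k1, k2⟩ | ⟨rfl, k1, k2⟩
    · obtain ⟨k1, k2⟩ := h.mem _ _ k
      rcases h.rule u v k with k3 | k3
      · refine Or.inr (obr_rv.1 (qdag_obr (hne u k1) k0 ?_))
        rintro a (k4 | ⟨k4, -⟩ | ⟨-, -, k4⟩)
        · exact k3 a k4
        · exact absurd k4 (hne u k1)
        · exact absurd k (k4 v)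
      · refine Or.inl (qdag_obr (hne v k2) k0 ?_)
        rintro a (k4 | ⟨-, -, k4⟩ | ⟨k4, -⟩)
        · exact k3 a k4
        · exact absurd k (k4 u)
        · exact absurd k4 (hne v k2)
    · refine Or.inl (qdag_obr (hne v k1) k0 ?_)
      rintro a (k4 | ⟨k4, -⟩ | ⟨k4, -⟩)
      · exact absurd k4 (k2 a)
      · exact k4
      · exact absurd k4 (hne v k1)
    · refine Or.inr (obr_rv.1 (qdag_obr (hne u k1) k0 ?_))
      rintro a (k4 | ⟨k4, -⟩ | ⟨k4, -⟩)
      · exact absurd k4 (k2 a)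
      · exact absurd k4 (hne u k1)
      · exact k4

theorem rootD_dom {W : Finset α} {Δ : α → α → Prop} (h : IsDag W Δ) (hs : s ∉ W) {u v : α}
    (hu : u ∈ W) (hv : v ∈ W) : dom (rootD s W Δ) s u v ↔ DomD W Δ u v := by
  refine and_congr_right fun _ => ⟨fun k r hr h1 h2 => k ?_, fun k h1 => ?_⟩
  · exact Av.head (fun k1 => hs ((Set.mem_singleton_iff.1 k1) ▸ hu))
      (Or.inr (Or.inl ⟨rfl, hr, h1⟩)) (h2.mono subset_rfl fun _ _ k1 _ _ => Or.inl k1)
  · have key : ∀ y, Relation.ReflTransGen (fun a b => rootD s W Δ a b ∧ b ∉ ({u} : Set α)) s y →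
        y = s ∨ ∃ r ∈ W, (∀ w, ¬ Δ w r) ∧ Av Δ {u} r y := by
      intro y hy
      induction hy with
      | refl => exact Or.inl rfl
      | tail _ k2 ih =>
        rcases k2.1 with k3 | ⟨-, k3, k4⟩ | ⟨k3, -⟩
        · rcases ih with rfl | ⟨r, r1, r2, r3⟩
          · exact absurd (h.mem _ _ k3).1 hs
          · exact Or.inr ⟨r, r1, r2, r3.tail k3 k2.2⟩
        · exact Or.inr ⟨_, k3, k4, av_refl k2.2⟩
        · exact Or.inl k3
    rcases key v h1.2 with rfl | ⟨r, r1, r2, r3⟩
    · exact hs hv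
    · exact k r r1 r2 r3

omit [Fintype α] in
theorem qdag_le_nsrc {S W : Finset α} {Δ : α → α → Prop} (h : ∀ x ∈ S, x ∈ W ∧ ∀ w, ¬ Δ w x) :
    S.card ≤ nsrc W Δ :=
  card_le_card fun x hx => mem_filter.2 (h x hx)

theorem card_src_le {W : Finset α} {Δ : α → α → Prop} (h : IsDag W Δ) (hs : s ∉ W) :
    (univ.filter fun x => Src (rootD s W Δ) s x).card ≤ nsrc W Δ ∧
    (univ.filter fun x => Snk (rootD s W Δ) s x).card ≤ nsrc W (rv Δ) := by
  constructor <;> refine qdag_le_nsrc fun x hx => ?_ <;>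
    rcases ((mem_filter.1 hx).2 s).2 rfl with k | k | k
  · exact absurd (h.mem _ _ k).1 hs
  · exact k.2
  · exact absurd k.2.1 hs
  · exact absurd (h.mem _ _ k).2 hs
  · exact absurd k.2.1 hs
  · exact k.2

theorem CDat.card_TT {V2 V3 M : Finset α} {D2 D3 : α → α → Prop} {g : α → α}
    {P : α → Finset α} {c : α → OCode α} (h2 : GR V2 D2 s)
    (h : CDat V2 (rv D2) s V3 (rv D3) M g P c) {a : α} (ha : a ∈ V3.erase s) :
    (TT V2 D2 s a).card ≤ (TT V3 D3 s a).card + 2 * ∑ b ∈ M, (c b).H.card := by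
  have _ := h2
  obtain ⟨has, ha⟩ := mem_erase.1 ha
  have hP : ∀ b ∈ M, ∀ y ∈ P b, y ∉ V3 := fun b hb y hy =>
    (mem_sdiff.1 (h.part ▸ mem_biUnion.2 ⟨b, hb, hy⟩ : y ∈ V2 \ V3)).2
  have harc : ∀ b ∈ M, ∀ y w, (c b).arc (g b) y w →
      y ∈ (c b).H ∨ y = b ∨ (y ∈ P b ∧ (c b).tgt y = some w) := by
    rintro b hb y w (k | k | k)
    · exact ((h.val b hb).parm _ _ k).imp_right Or.inl
    · refine Or.inr (Or.inr ⟨?_, k⟩)
      by_contra k1
      rw [((h.val b hb).out y k1).2] at k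
      cases k
    · exact ((h.val b hb).frcm _ k.1).imp_right Or.inl
  have hsub : TT V2 D2 s a ⊆ TT V3 D3 s a ∪ (M ∪ M.biUnion fun b => (c b).H) := by
    intro y hy
    obtain ⟨hy2, rfl | ⟨hys, k1, g0, k2, k3⟩⟩ := mem_filter.1 hy
    · exact mem_union_left _ (mem_filter.2 ⟨ha, Or.inl rfl⟩)
    by_cases hM : y ∈ M
    · exact mem_union_right _ (mem_union_left _ hM)
    by_cases hy3 : y ∈ V3
    · have e : ∀ w, D2 w y → D3 w y := fun w hw => by
        rcases (h.arcs y w).1 hw with ⟨b, hb, k⟩ | k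
        · rcases harc b hb y w k with k | k | k
          · exact absurd hy3 (hP b hb y ((h.val b hb).sub k))
          · exact absurd (k ▸ hb) hM
          · exact absurd hy3 (hP b hb y k.1)
        · exact k.1
      obtain ⟨u2, u3, u4, u5⟩ := h.uniq a ha has g0 k2
      refine mem_union_left _ (mem_filter.2 ⟨hy3, Or.inr ⟨hys, ?_, u2, u3, ?_⟩⟩)
      · rcases k1 with ⟨x, x', x1, x2, x3⟩ | ⟨u, hu⟩
        · exact Or.inl ⟨x, x', x1, e x x2, e x' x3⟩
        · exact Or.inr ⟨u, obr_rv.1 (h.ob y u (obr_rv.2 hu) (e u hu.1))⟩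
      · rcases k3 with ⟨k4, k5⟩ | ⟨k4, k5⟩
        · exact Or.inl ⟨fun k => k4 (u4.2 k),
            (u5 y hy3 (k5.imp_right dom_rv.2)).imp_right dom_rv.1⟩
        · exact Or.inr ⟨u4.1 k4, dom_rv.1 (h.dmu a ha y hy3 (dom_rv.2 k5))⟩
    · obtain ⟨b, hb, hyb⟩ := mem_biUnion.1 (h.part ▸ mem_sdiff.2 ⟨hy2, hy3⟩ : y ∈ M.biUnion P)
      refine mem_union_right _ (mem_union_right _ (mem_biUnion.2 ⟨b, hb, ?_⟩))
      by_contra hH
      have hb' : ∀ b' ∈ M, y ∈ P b' → b' = b := fun b' k k' => by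
        by_contra k4
        exact disjoint_left.1 (h.disj b' k b hb k4) k' hyb
      have e : ∀ w, D2 w y → (c b).tgt y = some w := fun w hw => by
        rcases (h.arcs y w).1 hw with ⟨b', hb1, k⟩ | k
        · rcases harc b' hb1 y w k with k | k | k
          · exact absurd (hb' b' hb1 ((h.val b' hb1).sub k) ▸ k) hH
          · exact absurd (k ▸ hb1) hM
          · exact hb' b' hb1 k.1 ▸ k.2
        · exact absurd (h.good.mem _ _ k.1).1 hy3
      rcases k1 with ⟨x, x', x1, x2, x3⟩ | ⟨u, hu⟩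
      · exact x1 (Option.some.inj ((e x x2).symm.trans (e x' x3)))
      · exact h.tno b hb y u (e u hu.1) (obr_rv.2 hu)
  have hM : M.card ≤ ∑ b ∈ M, (c b).H.card := by
    rw [card_eq_sum_ones]
    refine sum_le_sum fun b hb => card_pos.2 (nonempty_iff_ne_empty.2 fun k => ?_)
    have h1 := (h.val b hb).pos
    simp [OCode.dfc, k] at h1
  have h3 := card_le_card hsub
  have h4 := card_union_le (TT V3 D3 s a) (M ∪ M.biUnion fun b => (c b).H)
  have h5 := card_union_le M (M.biUnion fun b => (c b).H)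
  have h6 : (M.biUnion fun b => (c b).H).card ≤ ∑ b ∈ M, (c b).H.card := card_biUnion_le
  omega

omit [Fintype α] in
theorem qdag_mem_RN {W : Finset α} {Δ : α → α → Prop} {u : α} (hu : u ∈ W)
    (h : ∀ v, Δ u v → ¬ Br Δ v) : u ∈ RN W Δ :=
  mem_filter.2 ⟨hu, h⟩

theorem sum_TT_le {W : Finset α} {Δ : α → α → Prop} (h : IsDag W Δ) (hs : s ∉ W) :
    ∑ a ∈ W, (TT (insert s W) (rv (rootD s W Δ)) s a).card ≤ SR W Δ + W.card := by
  obtain ⟨hg, hc⟩ := rootD_good h hs
  have hne : ∀ x ∈ W, x ≠ s := fun x hx k => hs (k ▸ hx)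
  have hone : ∀ u v, Δ u v → Br Δ v → ∀ w, Δ u w → w = v := by
    rintro u v k ⟨x, x', x1, x2, x3⟩
    exact (h.rule u v k).resolve_right fun k1 => x1 ((k1 x x2).trans (k1 x' x3).symm)
  have hone' : ∀ u v, Δ u v → Br Δ v → ∀ w, rootD s W Δ u w → w = v := by
    rintro u v k k1 w (k2 | ⟨k2, -⟩ | ⟨-, -, k2⟩)
    · exact hone u v k k1 w k2
    · exact absurd k2 (hne u (h.mem _ _ k).1)
    · exact absurd k (k2 v)
  have hsub : ∀ a ∈ W, TT (insert s W) (rv (rootD s W Δ)) s a ⊆
      insert a (((RN W Δ).filter fun u => Δ u a ∨ a = u).biUnion fun u =>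
        (RN W Δ).filter fun v => v = u ∨ DomD W Δ u v) := by
    intro a ha y hy
    obtain ⟨hy2, rfl | ⟨hys, k1, g0, k2, k3⟩⟩ := mem_filter.1 hy
    · exact mem_insert_self _ _
    have hyW : y ∈ W := (mem_insert.1 hy2).resolve_left hys
    have hyR : y ∈ RN W Δ := by
      refine qdag_mem_RN hyW fun v hv hb => ?_
      rcases k1 with ⟨x, x', x1, x2, x3⟩ | ⟨u, hu⟩
      · exact x1 ((hone' y v hv hb x x2).trans (hone' y v hv hb x' x3).symm)
      · have hu' := ibr_rv.1 hu
        obtain rfl := hone' y v hv hb u hu'.1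
        obtain ⟨x, x', x1, x2, x3⟩ := hb
        exact x1 ((qdag_in hg hc hu' (Or.inl x2)).trans (qdag_in hg hc hu' (Or.inl x3)).symm)
    refine mem_insert_of_mem (mem_biUnion.2 ?_)
    rcases k3 with ⟨k4, k5⟩ | ⟨-, k5⟩
    · have k6 : Δ g0 a := qdag_arc ((k2 g0).2 rfl) k4 (hne a ha)
      have k7 := (h.mem _ _ k6).1
      refine ⟨g0, mem_filter.2 ⟨qdag_mem_RN k7 fun v hv hb => ?_, Or.inl k6⟩,
        mem_filter.2 ⟨hyR, k5.imp_right fun k => (rootD_dom h hs k7 hyW).1 (pdom_rv.1 k)⟩⟩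
      obtain rfl := hone g0 v hv hb a k6
      obtain ⟨x, x', x1, x2, x3⟩ := hb
      exact x1 (((k2 x).1 (Or.inl x2)).trans ((k2 x').1 (Or.inl x3)).symm)
    · have k6 := pdom_rv.1 k5
      refine ⟨a, mem_filter.2 ⟨qdag_mem_RN ha fun v hv hb => ?_, Or.inr rfl⟩,
        mem_filter.2 ⟨hyR, Or.inr ((rootD_dom h hs ha hyW).1 k6)⟩⟩
      obtain ⟨p, p1, p2⟩ := pbase_split hg hy2 k6
      obtain rfl := hone' a v hv hb p p1
      have k7 : dom (rootD s W Δ) s a p := ⟨p2.1, fun k => k6.2 (k.trans p2)⟩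
      obtain ⟨x, x1, x2⟩ := Good.exists_other (u := a) hb
      have k8 := (dom_of_arc k7 (Or.inl x2)).resolve_left x1
      have k9 := (hg.av_of_dom (mem_insert_of_mem (h.mem _ _ x2).1) (hne a ha) k8).2
      rcases k9.2.cases_head with k | ⟨q, q1, q2⟩
      · exact x1 k.symm
      · obtain rfl := hone' a p hv hb q q1.1
        exact hc x ⟨q, Or.inl x2, q1.2, q2⟩
  calc ∑ a ∈ W, (TT (insert s W) (rv (rootD s W Δ)) s a).card
      ≤ ∑ a ∈ W, (∑ u ∈ RN W Δ, (if Δ u a ∨ a = u then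
          ((RN W Δ).filter fun v => v = u ∨ DomD W Δ u v).card else 0) + 1) := by
        refine sum_le_sum fun a ha => (card_le_card (hsub a ha)).trans
          ((card_insert_le _ _).trans (Nat.add_le_add_right (card_biUnion_le.trans ?_) 1))
        rw [sum_filter]
    _ ≤ SR W Δ + W.card := by
        rw [sum_add_distrib, ← card_eq_sum_ones, sum_comm]
        refine Nat.add_le_add_right (sum_le_sum fun u _ => ?_) _
        rw [← sum_filter, sum_const, smul_eq_mul, filter_or]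
        refine Nat.mul_le_mul_right _ ((card_union_le _ _).trans (Nat.add_le_add ?_ ?_))
        · exact (by unfold odeg; convert le_rfl)
        · exact card_le_one.2 fun x hx x' hx' =>
            (mem_filter.1 hx).2.trans (mem_filter.1 hx').2.symm

theorem qdag_mem_dags {W : Finset α} {Δ : α → α → Prop} : Δ ∈ dags W ↔ IsDag W Δ := by
  simp [dags]

theorem card_dags (W : Finset α) : (dags W).card = numDag W.card := by
  obtain ⟨f, f1, f2⟩ : ∃ f : Fin W.card → α, Function.Injective f ∧ ∀ a, a ∈ W ↔ ∃ i, f i = a :=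
    ⟨fun i => W.equivFin.symm i, fun i j k => W.equivFin.symm.injective (Subtype.ext k),
      fun a => ⟨fun k => ⟨W.equivFin ⟨a, k⟩, by simp⟩, fun ⟨i, k⟩ => k ▸ (W.equivFin.symm i).2⟩⟩
  have e : ∀ (E : Fin W.card → Fin W.card → Prop) i j, Relation.Map E f f (f i) (f j) ↔ E i j :=
    fun E i j => Relation.map_apply_apply f1 f1 E i j
  refine card_nbij' (fun Δ i j => Δ (f i) (f j)) (fun E => Relation.Map E f f) (fun Δ k => ?_)
    (fun E k => ?_) (fun Δ k => ?_) fun E _ => funext₂ fun i j => propext (e E i j)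
  · have h := qdag_mem_dags.1 (mem_coe.1 k)
    obtain ⟨rk, hrk⟩ := h.acyc
    exact mem_coe.2 (qdag_mem_dags.2 ⟨fun _ _ _ => ⟨mem_univ _, mem_univ _⟩,
      ⟨rk ∘ f, fun a b k1 => hrk _ _ k1⟩, fun u v k1 => (h.rule _ _ k1).imp
        (fun k2 w k3 => f1 (k2 _ k3)) fun k2 w k3 => f1 (k2 _ k3)⟩)
  · have h := qdag_mem_dags.1 (mem_coe.1 k)
    obtain ⟨rk, hrk⟩ := h.acyc
    refine mem_coe.2 (qdag_mem_dags.2 ⟨?_, ⟨Function.extend f rk 0, ?_⟩, ?_⟩)
    · rintro _ _ ⟨i, j, -, rfl, rfl⟩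
      exact ⟨(f2 _).2 ⟨i, rfl⟩, (f2 _).2 ⟨j, rfl⟩⟩
    · rintro _ _ ⟨i, j, k1, rfl, rfl⟩
      rw [f1.extend_apply, f1.extend_apply]
      exact hrk _ _ k1
    · rintro _ _ ⟨i, j, k1, rfl, rfl⟩
      refine (h.rule i j k1).imp (fun k2 => ?_) fun k2 => ?_
      · rintro _ ⟨i', j', k3, k4, rfl⟩
        rw [k2 j' (f1 k4 ▸ k3)]
      · rintro _ ⟨i', j', k3, rfl, k4⟩
        rw [k2 i' (f1 k4 ▸ k3)]
  · have h := qdag_mem_dags.1 (mem_coe.1 k)
    refine funext₂ fun a b => propext ⟨?_, fun k1 => ?_⟩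
    · rintro ⟨i, j, k1, rfl, rfl⟩
      exact k1
    · obtain ⟨i, rfl⟩ := (f2 a).1 (h.mem _ _ k1).1
      obtain ⟨j, rfl⟩ := (f2 b).1 (h.mem _ _ k1).2
      exact ⟨i, j, k1, rfl, rfl⟩

end Pool.Agent.Work.MP_5391ad_co
end

-- merged part: Pool.Agent.Work.MP_5391ad_co.PChain
section
/-! Chains and fat links in a nontrivial strong component `K` of `D - s`.
Use `GR.rev`, `dom_rv`, `pdom_rv` to get the post-dominator versions of the toolkit.

`exists_top`: among the finitely many `z ∈ V` with `Sc q z` and (`z = x` or `dom z x`) take one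
whose dominated set `V.filter (dom D s z)` is largest.

`exists_chain`: `z(q)` from `dg` lies on a cycle through `q`, so in `K`; it is a post-dominator.
`b` = top post-dominator of `q` in `K`; `z(b)` dominates `b`; `a` = top dominator of `b` in `K`.
If `a ≠ q`: a walk `s ⇝ q` avoids `a`, so every walk `q ⇝ b` meets `a`, hence `a` post-dominates
`q`; `a`, `b` are comparable post-dominators of `q` and `b` is on top. `pd`: if `w` is not
dominated by `a`, glue `s ⇝ w` avoiding `a` with `w ⇝ b` avoiding `a` (`av_suffix` reversed).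
`dp`: `w` dominates `b`, so `w = a` or `a` dominates `w`; a walk `a ⇝ w` avoiding `b` followed by
a walk `w ⇝ s` must meet `b`.

`exists_flink`: take a vertex `q` of `K` without dominator in `K` (`exists_top`) and its chain.
Among pairs `(x, y)` in `K` with (`x = a` or `dom a x` and `pdom x a`), (`y = b` or `pdom b y` and
`dom y b`), `dom x y`, `pdom y x`, `x` has a post-dominator in `K` on all its cycles in `D - s`,
`y` has a dominator in `K` on all its cycles, choose one minimising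
`card (filter (dom x)) - card (filter (dom y))`. A vertex `w` strictly between (`dom x w`,
`dom w y`) also satisfies `pdom w x`, `pdom y w`, and could replace `x` or `y`. With nothing in
between, all cycles through `x` pass `y` and conversely. `p1`: a dominator `z ≠ x` of `y` in `K`
dominates `x`; then `z = a` or `dom a z`; a walk `a ⇝ z` avoids `x`, and `x = a` is impossible,
`x` post-dominates `a`, so it post-dominates `z`. -/

namespace Pool.Agent.Work.MP_5391ad_co

open Finset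
open scoped Classical

variable {α : Type*} {D : α → α → Prop} {s : α} {V : Finset α}

theorem pchain_mem (h : GR V D s) {B : Set α} {x y : α} (hx : x ∈ V) (hxy : Av D B x y) :
    y ∈ V := by
  rcases hxy with ⟨_, hr⟩
  rcases hr.cases_tail with rfl | ⟨c, _, hc⟩
  · exact hx
  · exact (h.mem _ _ hc.1).2

theorem pchain_cyc_mem (h : GR V D s) {B : Set α} {u : α} (hu : CycA D B u) : u ∈ V := by
  obtain ⟨v, huv, _⟩ := hu
  exact (h.mem _ _ huv).1

theorem pchain_mono {B B' : Set α} {x y : α} (h : Av D B x y) (hB : B' ⊆ B) : Av D B' x y :=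
  h.mono hB fun _ _ hab _ _ => hab

/-- a walk either avoids `c` or passes through it -/
theorem pchain_cut {B : Set α} (c : α) {x y : α} (h : Av D B x y) :
    Av D (B ∪ {c}) x y ∨ (Av D B x c ∧ Av D B c y) := by
  rcases av_first {c} h with h1 | h1 | ⟨p, c', hc', h1, h2, h3⟩
  · exact Or.inl h1
  · rw [Set.mem_singleton_iff] at h1
    subst h1
    exact Or.inr ⟨av_refl h.1, h⟩
  · rw [Set.mem_singleton_iff] at hc'
    subst hc'
    exact Or.inr ⟨(pchain_mono h1 Set.subset_union_left).tail h2 h3.1, h3⟩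

theorem pchain_dom_meet {B : Set α} {a x : α} (hd : dom D s a x) (h : Av D B s x) :
    Av D B s a ∧ Av D B a x := by
  rcases pchain_cut a h with h1 | h1
  · exact absurd (pchain_mono h1 Set.subset_union_right) hd.2
  · exact h1

theorem pchain_pdom_meet {B : Set α} {b x : α} (hd : pdom D s b x) (h : Av D B x s) :
    Av D B x b ∧ Av D B b s := by
  rcases pchain_cut b h with h1 | h1
  · exact absurd (pchain_mono h1 Set.subset_union_right) hd.2
  · exact h1

theorem pchain_not_dom {z x : α} (hne : x ≠ z) (h : ¬ dom D s z x) : Av D {z} s x := by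
  by_contra hc
  exact h ⟨hne, hc⟩

theorem pchain_not_pdom {z x : α} (hne : x ≠ z) (h : ¬ pdom D s z x) : Av D {z} x s := by
  by_contra hc
  exact h ⟨hne, hc⟩

theorem pchain_pdom_asymm (h : GR V D s) {z x : α} (hx : x ∈ V) (h1 : pdom D s z x) :
    ¬ pdom D s x z := fun h2 =>
  h.rev.dom_asymm hx (dom_rv.2 h1) (dom_rv.2 h2)

theorem pchain_pdom_trans (h : GR V D s) {x y z : α} (hz : z ∈ V) (h1 : pdom D s x y)
    (h2 : pdom D s y z) : pdom D s x z :=
  dom_rv.1 (h.rev.dom_trans hz (dom_rv.2 h1) (dom_rv.2 h2))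

theorem pchain_pdom_total (h : GR V D s) {x y z : α} (hz : z ∈ V) (h1 : pdom D s x z)
    (h2 : pdom D s y z) : x = y ∨ pdom D s x y ∨ pdom D s y x := by
  rcases h.rev.dom_total hz (dom_rv.2 h1) (dom_rv.2 h2) with h3 | h3 | h3
  · exact Or.inl h3
  · exact Or.inr (Or.inl (dom_rv.1 h3))
  · exact Or.inr (Or.inr (dom_rv.1 h3))

/-- a closed walk through `u` which cannot avoid `z` passes through `z` -/
theorem pchain_cyc_meet {B : Set α} {u z : α} (hu : CycA D B u) (hsB : s ∈ B)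
    (hz : ¬ CycA D {s, z} u) : Av D B u z ∧ Av D B z u := by
  have hn := hu.not_mem
  obtain ⟨v, huv, hv⟩ := hu
  rcases pchain_cut z hv with h1 | ⟨h1, h2⟩
  · refine absurd ⟨v, huv, pchain_mono h1 ?_⟩ hz
    intro t ht
    rcases ht with rfl | ht
    · exact Or.inl hsB
    · exact Or.inr ht
  · exact ⟨Av.head hn huv h1, h2⟩

theorem pchain_dg (h : GR V D s) {u : α} (hu : CycA D {s} u) :
    ∃ z, Sc D s u z ∧ ¬ CycA D {s, z} u ∧ (dom D s z u ∨ pdom D s z u) := by
  obtain ⟨z, _, _, h3, h4⟩ := h.dg u hu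
  exact ⟨z, pchain_cyc_meet hu rfl h3, h3, h4⟩

/-- a vertex between the ends of a link in the dominator order is between them in the
post-dominator order -/
theorem pchain_btw (h : GR V D s) {x w y : α} (hw : w ∈ V) (hy : y ∈ V) (h1 : dom D s x w)
    (h2 : dom D s w y) (h3 : pdom D s y x) : pdom D s y w ∧ pdom D s w x := by
  constructor
  · refine ⟨h2.1.symm, fun hc => ?_⟩
    have h4 : Av D {y} s w := pchain_not_dom h2.1.symm (h.dom_asymm hy h2)
    exact h3.2 ((pchain_dom_meet h1 h4).2.trans hc)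
  · refine ⟨h1.1.symm, fun hc => ?_⟩
    have h4 : Av D {w} s x := pchain_not_dom h1.1.symm (h.dom_asymm hw h1)
    exact h2.2 (h4.trans (pchain_pdom_meet h3 hc).1)

theorem pchain_btw' (h : GR V D s) {x w y : α} (hw : w ∈ V) (hy : y ∈ V) (h1 : pdom D s x w)
    (h2 : pdom D s w y) (h3 : dom D s y x) : dom D s y w ∧ dom D s w x := by
  have := pchain_btw h.rev hw hy (dom_rv.2 h1) (dom_rv.2 h2) (pdom_rv.2 h3)
  exact ⟨pdom_rv.1 this.1, pdom_rv.1 this.2⟩

theorem GR.exists_top (h : GR V D s) {q x : α} (hx : Sc D s q x) (hq : q ∈ V) :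
    ∃ a, Sc D s q a ∧ (a = x ∨ dom D s a x) ∧ ∀ z, Sc D s q z → ¬ dom D s z a := by
  have hxV : x ∈ V := pchain_mem h hq hx.1
  obtain ⟨a, ha, hmax⟩ := Finset.exists_max_image
    (V.filter fun z => Sc D s q z ∧ (z = x ∨ dom D s z x))
    (fun z => (V.filter (dom D s z)).card)
    ⟨x, by simp only [mem_filter]; exact ⟨hxV, hx, Or.inl trivial⟩⟩
  simp only [mem_filter] at ha
  obtain ⟨haV, hqa, hax⟩ := ha
  refine ⟨a, hqa, hax, fun z hz hza => ?_⟩
  have hzV : z ∈ V := pchain_mem h hq hz.1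
  have hzx : dom D s z x := by
    rcases hax with rfl | hax
    · exact hza
    · exact h.dom_trans hxV hza hax
  have h1 := hmax z (by simp only [mem_filter]; exact ⟨hzV, hz, Or.inr hzx⟩)
  have h2 : V.filter (dom D s a) ⊂ V.filter (dom D s z) := by
    rw [Finset.ssubset_iff_of_subset]
    · refine ⟨a, mem_filter.2 ⟨haV, hza⟩, fun hc => ?_⟩
      exact (mem_filter.1 hc).2.1 rfl
    · intro w hw
      rw [mem_filter] at hw ⊢
      exact ⟨hw.1, h.dom_trans hw.1 hza hw.2⟩
  exact absurd (Finset.card_lt_card h2) (not_lt.2 h1)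

theorem GR.exists_chain (h : GR V D s) {q : α} (hq : CycA D {s} q)
    (htop : ∀ z, Sc D s q z → ¬ dom D s z q) : ∃ a b, Chain D s q a b := by
  have hqV : q ∈ V := pchain_cyc_mem h hq
  have hqq : Sc D s q q := ⟨av_refl hq.not_mem, av_refl hq.not_mem⟩
  obtain ⟨z, hz1, _, hz3⟩ := pchain_dg h hq
  have hzq : pdom D s z q := hz3.resolve_left (htop z hz1)
  obtain ⟨b, hb1, hb2, hb3⟩ := h.rev.exists_top (sc_rv.2 hqq) hqV
  have hqb : Sc D s q b := sc_rv.1 hb1
  have topb : ∀ z, Sc D s q z → ¬ pdom D s z b := fun z hz hc =>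
    hb3 z (sc_rv.2 hz) (dom_rv.2 hc)
  have hbq : pdom D s b q := by
    rcases hb2 with rfl | hb2
    · exact absurd hzq (topb z hz1)
    · exact dom_rv.1 hb2
  have hbV : b ∈ V := pchain_mem h hqV hqb.1
  obtain ⟨z', hz1', _, hz3'⟩ := pchain_dg h (hq.of_sc hqb)
  have hzb : dom D s z' b := hz3'.resolve_right (topb z' (hqb.trans hz1'))
  obtain ⟨a, hqa, ha2, topa⟩ := h.exists_top hqb hqV
  have hab : dom D s a b := by
    rcases ha2 with rfl | ha2
    · exact absurd hzb (topa z' (hqb.trans hz1'))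
    · exact ha2
  have haV : a ∈ V := pchain_mem h hqV hqa.1
  have qa : a = q ∨ pdom D s a q := by
    by_cases haq : a = q
    · exact Or.inl haq
    · refine Or.inr ⟨Ne.symm haq, fun hc => ?_⟩
      have h4 : Av D {a} s q := pchain_not_dom (Ne.symm haq) (htop a hqa)
      exact hab.2 (h4.trans (pchain_pdom_meet hbq hc).1)
  have ba : pdom D s b a := by
    rcases qa with rfl | qa
    · exact hbq
    · rcases pchain_pdom_total h hqV qa hbq with h1 | h1 | h1
      · exact absurd h1.symm hab.1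
      · exact absurd h1 (topb a hqa)
      · exact h1
  refine ⟨a, b, hqa, hqb, qa, hab, ba, topa, topb, fun w hw hwa => ?_, fun w hw hwb => ?_⟩
  · rcases pchain_pdom_total h haV hwa ba with rfl | h1 | h1
    · exact hab
    · exact absurd h1 (topb w hw)
    · exact (pchain_btw' h (pchain_mem h hqV hw.1) haV h1 hwa hab).1
  · rcases h.dom_total hbV hwb hab with rfl | h1 | h1
    · exact ba
    · exact absurd h1 (topa w hw)
    · exact (pchain_btw h (pchain_mem h hqV hw.1) hbV h1 hwb ba).1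

/-- admissible pairs for the search of a fat link -/
structure pchain_Adm (D : α → α → Prop) (s q a b x y : α) : Prop where
  sx : Sc D s q x
  sy : Sc D s q y
  ax : x = a ∨ (dom D s a x ∧ pdom D s x a)
  yb : y = b ∨ (pdom D s b y ∧ dom D s y b)
  dm : dom D s x y
  pd : pdom D s y x
  zx : ∃ z, pdom D s z x ∧ ¬ CycA D {s, z} x
  zy : ∃ z, dom D s z y ∧ ¬ CycA D {s, z} y

theorem pchain_shrink (h : GR V D s) {q a b x y w : α} (hq : CycA D {s} q)
    (hA : pchain_Adm D s q a b x y) (hab : a ∈ V ∧ b ∈ V) (hw : w ∈ V) (h1 : dom D s x w)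
    (h2 : dom D s w y) : pchain_Adm D s q a b w y ∨ pchain_Adm D s q a b x w := by
  have hqV : q ∈ V := pchain_cyc_mem h hq
  have hyV : y ∈ V := pchain_mem h hqV hA.sy.1
  have hxs : x ≠ s := hA.sx.2.1
  have hws : w ≠ s := by
    rintro rfl
    exact not_dom_root h1
  have hqw : Sc D s q w :=
    ⟨hA.sx.1.trans (h.av_of_dom hw hxs h1).2, (h.av_of_dom hyV hws h2).2.trans hA.sy.2⟩
  obtain ⟨h3, h4⟩ := pchain_btw h hw hyV h1 h2 hA.pd
  obtain ⟨z, _, hz2, hz3⟩ := pchain_dg h (hq.of_sc hqw)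
  rcases hz3 with hz3 | hz3
  · refine Or.inr ⟨hA.sx, hqw, hA.ax, Or.inr ?_, h1, h4, hA.zx, z, hz3, hz2⟩
    rcases hA.yb with rfl | ⟨h5, h6⟩
    · exact ⟨h3, h2⟩
    · exact ⟨pchain_pdom_trans h hw h5 h3, h.dom_trans hab.2 h2 h6⟩
  · refine Or.inl ⟨hqw, hA.sy, Or.inr ?_, hA.yb, h2, h3, ⟨z, hz3, hz2⟩, hA.zy⟩
    rcases hA.ax with rfl | ⟨h5, h6⟩
    · exact ⟨h1, h4⟩
    · exact ⟨h.dom_trans hw h5 h1, pchain_pdom_trans h hab.1 h4 h6⟩

theorem pchain_min (h : GR V D s) {q a b : α} (hq : CycA D {s} q) (hab : a ∈ V ∧ b ∈ V) :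
    ∀ (n : ℕ) (x y : α), pchain_Adm D s q a b x y →
      (V.filter fun w => dom D s x w ∧ dom D s w y).card = n →
      ∃ x y, pchain_Adm D s q a b x y ∧ ∀ w ∈ V, dom D s x w → ¬ dom D s w y := by
  have hqV : q ∈ V := pchain_cyc_mem h hq
  intro n
  induction n using Nat.strong_induction_on with
  | _ n ih =>
    intro x y hA hn
    by_cases hex : ∀ w ∈ V, dom D s x w → ¬ dom D s w y
    · exact ⟨x, y, hA, hex⟩
    · push Not at hex
      obtain ⟨w, hw, h1, h2⟩ := hex
      have hyV : y ∈ V := pchain_mem h hqV hA.sy.1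
      rcases pchain_shrink h hq hA hab hw h1 h2 with hB | hB
      · refine ih _ ?_ w y hB rfl
        rw [← hn]
        apply Finset.card_lt_card
        rw [Finset.ssubset_iff_of_subset]
        · refine ⟨w, mem_filter.2 ⟨hw, h1, h2⟩, fun hc => ?_⟩
          exact (mem_filter.1 hc).2.1.1 rfl
        · intro v hv
          rw [mem_filter] at hv ⊢
          exact ⟨hv.1, h.dom_trans hv.1 h1 hv.2.1, hv.2.2⟩
      · refine ih _ ?_ x w hB rfl
        rw [← hn]
        apply Finset.card_lt_card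
        rw [Finset.ssubset_iff_of_subset]
        · refine ⟨w, mem_filter.2 ⟨hw, h1, h2⟩, fun hc => ?_⟩
          exact (mem_filter.1 hc).2.2.1 rfl
        · intro v hv
          rw [mem_filter] at hv ⊢
          exact ⟨hv.1, hv.2.1, h.dom_trans hyV hv.2.2 h2⟩

theorem GR.exists_flink (h : GR V D s) {u : α} (hu : CycA D {s} u) :
    ∃ x x', Sc D s u x ∧ FLink D s x x' := by
  have huV : u ∈ V := pchain_cyc_mem h hu
  have huu : Sc D s u u := ⟨av_refl hu.not_mem, av_refl hu.not_mem⟩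
  obtain ⟨q, huq, _, htop⟩ := h.exists_top huu huV
  have hq : CycA D {s} q := hu.of_sc huq
  have hqV : q ∈ V := pchain_cyc_mem h hq
  obtain ⟨a, b, hC⟩ := h.exists_chain hq fun z hz => htop z (huq.trans hz)
  have haV : a ∈ V := pchain_mem h hqV hC.sa.1
  have hbV : b ∈ V := pchain_mem h hqV hC.sb.1
  have hA0 : pchain_Adm D s q a b a b := by
    obtain ⟨z, hz1, hz2, hz3⟩ := pchain_dg h (hq.of_sc hC.sa)
    obtain ⟨z', hz1', hz2', hz3'⟩ := pchain_dg h (hq.of_sc hC.sb)
    exact ⟨hC.sa, hC.sb, Or.inl rfl, Or.inl rfl, hC.ab, hC.ba,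
      ⟨z, hz3.resolve_left (hC.topa z (hC.sa.trans hz1)), hz2⟩,
      ⟨z', hz3'.resolve_right (hC.topb z' (hC.sb.trans hz1')), hz2'⟩⟩
  obtain ⟨x, y, hA, hno⟩ := pchain_min h hq ⟨haV, hbV⟩ _ a b hA0 rfl
  have hxV : x ∈ V := pchain_mem h hqV hA.sx.1
  have hyV : y ∈ V := pchain_mem h hqV hA.sy.1
  have hno' : ∀ w ∈ V, pdom D s y w → ¬ pdom D s w x := fun w hw h1 h2 =>
    hno w hw (pchain_btw' h hw hxV h1 h2 hA.dm).1 (pchain_btw' h hw hxV h1 h2 hA.dm).2
  refine ⟨x, y, huq.trans hA.sx, hA.sx.symm.trans hA.sy, hA.dm, hA.pd, fun hc => ?_,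
    fun hc => ?_, fun z hz hzy => ?_, fun z hz hzx => ?_⟩
  · obtain ⟨z, hz1, hz2⟩ := hA.zx
    obtain ⟨h1, _⟩ := pchain_cyc_meet hc (Or.inl rfl) hz2
    have hzV : z ∈ V := pchain_mem h hxV h1
    have h2 : Av D {y} x z := pchain_mono h1 (fun t ht => Or.inr ht)
    have hzy : z ≠ y := h2.not_mem_right
    rcases pchain_pdom_total h hxV hz1 hA.pd with h3 | h3 | h3
    · exact hzy h3
    · exact hA.pd.2 (h2.trans (pchain_not_pdom hzy (pchain_pdom_asymm h hyV h3)))
    · exact hno' z hzV h3 hz1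
  · obtain ⟨z, hz1, hz2⟩ := hA.zy
    obtain ⟨h0, h1⟩ := pchain_cyc_meet hc (Or.inl rfl) hz2
    have hzV : z ∈ V := pchain_mem h hyV h0
    have h2 : Av D {x} z y := pchain_mono h1 (fun t ht => Or.inr ht)
    have hzx : z ≠ x := h2.1
    rcases h.dom_total hyV hz1 hA.dm with h3 | h3 | h3
    · exact hzx h3
    · exact hA.dm.2 ((pchain_not_dom hzx (h.dom_asymm hxV h3)).trans h2)
    · exact hno z hzV h3 hz1
  · have hqz : Sc D s q z := hA.sx.trans hz
    have hzV : z ∈ V := pchain_mem h hqV hqz.1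
    rcases h.dom_total hyV hzy hA.dm with h3 | h3 | h3
    · exact Or.inl h3
    · right
      rcases hA.ax with rfl | ⟨h5, h6⟩
      · exact absurd h3 (hC.topa z hqz)
      · rcases h.dom_total hxV h3 h5 with rfl | h7 | h7
        · exact h6
        · exact absurd h7 (hC.topa z hqz)
        · exact (pchain_btw h hzV hxV h7 h3 h6).1
    · exact absurd hzy (hno z hzV h3)
  · have hqz : Sc D s q z := hA.sx.trans hz
    have hzV : z ∈ V := pchain_mem h hqV hqz.1
    rcases pchain_pdom_total h hxV hzx hA.pd with h3 | h3 | h3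
    · exact Or.inl h3
    · right
      rcases hA.yb with rfl | ⟨h5, h6⟩
      · exact absurd h3 (hC.topb z hqz)
      · rcases pchain_pdom_total h hyV h3 h5 with rfl | h7 | h7
        · exact h6
        · exact absurd h7 (hC.topb z hqz)
        · exact (pchain_btw' h hzV hyV h7 h3 h6).1
    · exact absurd hzx (hno' z hzV h3)

end Pool.Agent.Work.MP_5391ad_co
end

-- merged part: Pool.Agent.Work.MP_5391ad_co.PCset
section
/-! The set deleted by a column event. `K` = strong component of `q`, chain `(a, b)`, `g` = the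
nearest post-dominator of `K` outside `K` (possibly the root `s`).
`P = {x ∈ V | dom a x, pdom g x, ¬ Av {s} g x}`.

`exists_gate`: post-dominators of `a` outside `K` form a chain containing `s` (`dom_total` for
`rv D`); take the one with the smallest post-dominated set.

`cev_closed`. (entering arcs) `D w x`, `x ∈ P`, `w ≠ a`: `dom a w`. If `w` had a walk to `s`
avoiding `g` (or `w = g`), every walk `a ⇝ w` avoiding `s` meets `g`, so `g ⇝ w → x` avoiding
`s`: contradiction (for `g = s` note `w ≠ s`). (arcs from `a`) let `D a y`, `y ∉ P`; `y ≠ s`,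
`y ≠ b`, `pdom b y`. If `dom a y` then `Av {s} g y`, `y ⇝ b` avoids `s`, so `g ∈ K`. Otherwise
`y ⇝ b` meets `a`; up to the first `a` no vertex is dominated by `a`; this is a cycle through `a`
avoiding `z(a)`, which is a post-dominator in `K`, hence dominated by `a` (`pd`). Such an arc
`(a, y)` is an out-bridge: if it is an in-bridge but some walk `s ⇝ y` avoids it, then
`a → y' ⇝ y` avoiding `a`, and `y ⇝ s` avoiding `a` (`y` post-dominates `a`), contradiction.
(exits) an exit `(p, y)` which is an out-bridge: `dom a y`, so `y = g` or `Av {s} g y` with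
`pdom g y`; in the second case every walk `s ⇝ g` uses `(p, y)` (continue `g ⇝ y` avoiding `p`),
so `y` post-dominates `a`, lies outside `K` and is nearer than `g`. For `y = g` all walks
`a ⇝ g` use `(p, g)`, so `p` post-dominates `a` and the arc is an in-bridge. An exit `(p, s)`:
`g = s`, `p ∈ K`, and by `CCase` it is the unique exit arc of `K`. In the case `g = s` everything
reachable from `K` avoiding `s` is in `K`, and `y ∈ K` not dominated by `a` is `a` or
post-dominated by `a` (its walks to `s` meet `b`, hence `a`).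
`cev_reach`: every `p ∈ P` is reached from `a` inside `P ∪ {a}` (last visit of `a`, then go
backwards using the entering arcs). -/

namespace Pool.Agent.Work.MP_5391ad_co

open Finset
open scoped Classical

variable {α : Type*} {D : α → α → Prop} {s : α} {V : Finset α}

/-- the nearest post-dominator outside the strong component -/
structure Gate (D : α → α → Prop) (s a g : α) : Prop where
  out : ¬ Sc D s a g
  pd : pdom D s g a
  near : ∀ y, ¬ Sc D s a y → pdom D s y a → y = g ∨ pdom D s y g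

/-- the deleted set -/
noncomputable def colP (V : Finset α) (D : α → α → Prop) (s a g : α) : Finset α :=
  V.filter fun x => dom D s a x ∧ pdom D s g x ∧ ¬ Av D {s} g x

/-- the digraph after a column event -/
def colD (V : Finset α) (D : α → α → Prop) (s a g : α) (u w : α) : Prop :=
  (u = a ∧ w = g) ∨ (D u w ∧ u ≠ a ∧ u ∉ colP V D s a g)

theorem pcset_memV (h : GR V D s) {B : Set α} {x y : α} (hx : x ∈ V) (hw : Av D B x y) :
    y ∈ V := by
  rcases hw.2.cases_tail with e | ⟨c, -, k⟩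
  · exact e ▸ hx
  · exact (h.mem _ _ k.1).2

theorem pcset_pav (h : GR V D s) {z x : α} (hx : x ∈ V) (hz : z ≠ s) (hd : pdom D s z x) :
    z ∈ V ∧ Av D {s} x z :=
  (h.rev.av_of_dom hx hz (dom_rv.2 hd)).imp id av_rv.1

theorem pcset_pasymm (h : GR V D s) {z x : α} (hx : x ∈ V) (h1 : pdom D s z x) :
    ¬ pdom D s x z := fun k => h.rev.dom_asymm hx (dom_rv.2 h1) (dom_rv.2 k)

theorem pcset_parc {z w x : α} (hd : pdom D s z x) (hw : D x w) : w = z ∨ pdom D s z w :=
  (dom_of_arc (D := rv D) (dom_rv.2 hd) hw).imp id dom_rv.1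

/-- a walk to the root from a post-dominated vertex meets the post-dominator -/
theorem pcset_pre {B : Set α} {z x : α} (hd : pdom D s z x) (hw : Av D B x s) : Av D B x z := by
  rcases av_first {z} hw with k | e | ⟨p, _, rfl, k1, k2, k3⟩
  · exact (hd.2 (pbase_r k)).elim
  · exact (hd.1 e).elim
  · exact (pbase_l k1).tail k2 k3.1

theorem GR.exists_gate (h : GR V D s) {a : α} (ha : a ∈ V) (hs : a ≠ s) :
    ∃ g ∈ V, Gate D s a g := by
  have hne : (V.filter fun y => ¬ Sc D s a y ∧ pdom D s y a).Nonempty :=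
    ⟨s, mem_filter.2 ⟨h.root, fun k => k.2.1 rfl, dom_rv.1 (dom_root hs)⟩⟩
  obtain ⟨g, hg, hmin⟩ := exists_min_image _ (fun y => (V.filter (pdom D s y)).card) hne
  obtain ⟨g1, g2, g3⟩ := mem_filter.1 hg
  refine ⟨g, g1, g2, g3, fun y y1 y2 => ?_⟩
  have hy : y ∈ V := by
    by_cases e : y = s
    · exact e ▸ h.root
    · exact (pcset_pav h ha e y2).1
  rcases h.rev.dom_total ha (dom_rv.2 y2) (dom_rv.2 g3) with k | k | k
  · exact Or.inl k
  · exact Or.inr (dom_rv.1 k)
  · refine absurd (hmin y (mem_filter.2 ⟨hy, y1, y2⟩)) (not_le.2 (card_lt_card ⟨?_, ?_⟩))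
    · intro w hw
      obtain ⟨w1, w2⟩ := mem_filter.1 hw
      exact mem_filter.2 ⟨w1, dom_rv.1 (h.rev.dom_trans w1 k (dom_rv.2 w2))⟩
    · intro k'
      exact (mem_filter.1 (k' (mem_filter.2 ⟨hy, dom_rv.1 k⟩))).2.1 rfl

theorem pcset_aV (h : GR V D s) {q a b : α} (hq : CycA D {s} q) (hch : Chain D s q a b) :
    a ∈ V := by
  obtain ⟨v, k, -⟩ := hq
  exact pcset_memV h (h.mem _ _ k).1 hch.sa.1

/-- the gate does not reach the component -/
theorem pcset_out (h : GR V D s) {a g x : α} (ha : a ∈ V) (hg : Gate D s a g)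
    (hx : Av D {s} x a) : ¬ Av D {s} g x := fun k =>
  hg.out ⟨(pcset_pav h ha k.1 hg.pd).2, k.trans hx⟩

theorem pcset_pd {a g x : α} (hg : Gate D s a g) (h1 : Av D {s} a x) (h2 : ¬ Av D {s} g x) :
    pdom D s g x := by
  refine ⟨fun e => h2 (e ▸ av_refl h1.not_mem_right), fun k => ?_⟩
  rcases av_first {g} h1 with k1 | e | ⟨p, _, rfl, -, -, k3⟩
  · exact hg.pd.2 ((pbase_r k1).trans k)
  · exact hg.pd.1 e
  · exact h2 k3

theorem pcset_mem (h : GR V D s) {a g x : α} (hs : a ≠ s) (hg : Gate D s a g) (hx : x ∈ V)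
    (h1 : dom D s a x) (h2 : ¬ Av D {s} g x) : x ∈ colP V D s a g :=
  mem_filter.2 ⟨hx, h1, pcset_pd hg (h.av_of_dom hx hs h1).2 h2, h2⟩

theorem pcset_of_mem {a g x : α} (hx : x ∈ colP V D s a g) :
    x ∈ V ∧ dom D s a x ∧ pdom D s g x ∧ ¬ Av D {s} g x := mem_filter.1 hx

theorem pcset_enter (h : GR V D s) {a g w x : α} (hs : a ≠ s) (hg : Gate D s a g)
    (hx : x ∈ colP V D s a g) (hw : D w x) : w ∈ colP V D s a g ∨ w = a := by
  obtain ⟨-, x2, -, x4⟩ := pcset_of_mem hx
  rcases dom_of_arc x2 hw with e | k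
  · exact Or.inr e
  · exact Or.inl (pcset_mem h hs hg (h.mem _ _ hw).1 k fun k' =>
      x4 (k'.tail hw fun e => not_dom_root (D := D) (s := s) (z := a) (e ▸ x2)))

theorem pcset_bmem (h : GR V D s) {q a b g : α} (hq : CycA D {s} q)
    (hch : Chain D s q a b) (hg : Gate D s a g) : b ∈ colP V D s a g := by
  have ha := pcset_aV h hq hch
  have hab := hch.sa.symm.trans hch.sb
  exact pcset_mem h hab.1.1 hg (pcset_memV h ha hab.1) hch.ab (pcset_out h ha hg hab.2)

theorem pcset_from_a (h : GR V D s) {q a b g y : α} (hq : CycA D {s} q)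
    (hch : Chain D s q a b) (hg : Gate D s a g) (hy : D a y) : y ∈ colP V D s a g := by
  have ha := pcset_aV h hq hch
  have hab := hch.sa.symm.trans hch.sb
  have hs : a ≠ s := hab.1.1
  have hbs : b ≠ s := hab.2.1
  have hyV := (h.mem _ _ hy).2
  rcases pcset_parc hch.ba hy with e | k
  · exact e ▸ pcset_bmem h hq hch hg
  have k1 : Av D {s} y b := (pcset_pav h hyV hbs k).2
  refine pcset_mem h hs hg hyV ⟨fun e => h.irr a (e ▸ hy), fun k2 => ?_⟩
    (pcset_out h ha hg (k1.trans hab.2))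
  have hca := hq.of_sc hch.sa
  obtain ⟨z, z1, z2, z3, z4⟩ := h.dg a hca
  have hz : Sc D s a z := by
    obtain ⟨v, v1, v2⟩ := hca
    rcases av_first {z} v2 with k3 | e | ⟨p, _, rfl, k3, k4, k5⟩
    · exact (z3 ⟨v, v1, k3.mono (fun _ e => e) fun _ _ k _ _ => k⟩).elim
    · obtain rfl : v = z := e
      exact ⟨Av.head hs v1 (av_refl z2), v2⟩
    · exact ⟨Av.head hs v1 ((pbase_l k3).tail k4 z2), k5⟩
  have hdz : dom D s a z :=
    hch.pd z (hch.sa.trans hz) (z4.resolve_left (hch.topa z (hch.sa.trans hz)))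
  rcases av_first {a} k1 with k3 | e | ⟨p, _, rfl, k3, k4, -⟩
  · exact hch.ab.2 (k2.trans (pbase_r k3))
  · exact k2.not_mem_right e
  · rcases av_first {z} k3 with k5 | e | ⟨p', _, rfl, k5, k6, -⟩
    · refine z3 ⟨y, hy, Av.tail (k5.mono ?_ fun _ _ k _ _ => k) k4 ?_⟩
      · rintro _ (e | e)
        · exact Or.inl (Or.inl e)
        · exact Or.inr e
      · rintro (e | e)
        · exact hs e
        · exact z1 (Eq.symm e)
    · obtain rfl : y = z := e
      exact hdz.2 k2
    · exact hdz.2 (k2.trans ((pbase_r (pbase_l k5)).tail k6 z1))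

theorem pcset_obr_a (h : GR V D s) {a y : α} (hy : D a y) (hd : dom D s a y) : OBr D s a y := by
  refine (h.cr a y hy).elim id fun hi => ⟨hy, fun k => ?_⟩
  have k1 : pdom D s y a := dom_rv.1 (h.rev.dom_of_obr (obr_rv.2 hi))
  have k2 : Av D {a} y s :=
    not_not.1 fun k' => pcset_pasymm h (h.mem _ _ hy).1 k1 ⟨hd.1, k'⟩
  rcases av_last {a} (av_empty.2 k) with k3 | e | ⟨_, p, rfl, -, k3, k4⟩
  · exact hd.2 ((pbase_r k3).mono le_rfl fun _ _ e _ _ => e.1)
  · exact hd.1 e
  · have k5 := ((pbase_r k4).mono le_rfl fun _ _ (e : _ ∧ _) _ _ => e.1).trans k2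
    exact hi.2 (Relation.ReflTransGen.head k3 (av_empty.1 (k5.mono (Set.empty_subset _)
      fun _ _ e1 e2 _ => ⟨e1, fun e => e2 e.1⟩)))

/-- an exit which is an out-bridge -/
theorem pcset_exit (h : GR V D s) {a g p y : α} (ha : a ∈ V) (hg : Gate D s a g)
    (hp : p ∈ colP V D s a g) (hs : a ≠ s) (hy : y ∉ colP V D s a g) (ho : OBr D s p y) :
    y = g ∧ IBr D s p g ∧ pdom D s p a := by
  obtain ⟨p1, p2, p3, p4⟩ := pcset_of_mem hp
  have hyV := (h.mem _ _ ho.1).2
  have k1 := h.dom_of_obr ho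
  have k2 := h.dom_trans hyV p2 k1
  have k3 : Av D {s} g y := not_not.1 fun k => hy (pcset_mem h hs hg hyV k2 k)
  have hyg : y = g := by
    rcases pcset_parc p3 ho.1 with e | k4
    · exact e
    have k5 : Av D {p} g y := by
      rcases av_first {p} k3 with k | e | ⟨c, _, rfl, k, k', -⟩
      · exact pbase_r k
      · exact (p3.1 (Eq.symm e)).elim
      · exact (p4 ((pbase_l k).tail k' fun e =>
          not_dom_root (D := D) (s := s) (z := a) (e ▸ p2))).elim
    have k6 : pdom D s y a := by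
      refine ⟨k2.1.symm, fun k => ?_⟩
      have k7 : Av D {y} s a := not_not.1 fun k' => h.dom_asymm hyV k2 ⟨k2.1.symm, k'⟩
      have k8 := k7.trans (pcset_pre hg.pd k)
      exact ho.2 ((av_empty.1 (k8.mono (Set.empty_subset _)
        fun _ _ e1 _ e2 => ⟨e1, fun e => e2 e.2⟩)).trans (av_empty.1 (k5.mono
        (Set.empty_subset _) fun _ _ e1 e2 _ => ⟨e1, fun e => e2 e.1⟩)))
    rcases hg.near y (fun k => pcset_out h ha hg k.2 k3) k6 with e | k
    · exact e
    · exact (pcset_pasymm h hyV k4 k).elim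
  subst hyg
  refine ⟨rfl, ⟨ho.1, fun k => ?_⟩, p2.1.symm, fun k => ?_⟩
  · have k4 : Av D {y} s p := not_not.1 fun k' => h.dom_asymm hyV k1 ⟨p3.1, k'⟩
    have k5 := av_empty.1 (k4.mono (D' := fun u v => D u v ∧ ¬ (u = p ∧ v = y))
      (Set.empty_subset _) fun _ _ e1 _ e2 => ⟨e1, fun e => e2 e.2⟩)
    rcases av_first {y} (av_empty.2 k) with k6 | e | ⟨c, _, rfl, k6, k7, -⟩
    · exact p3.2 ((pbase_r k6).mono le_rfl fun _ _ e _ _ => e.1)
    · exact p3.1 e
    · exact ho.2 ((k5.trans (av_empty.1 (pbase_l k6))).tail k7)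
  · have k4 : Av D {p} s a := not_not.1 fun k' => h.dom_asymm p1 p2 ⟨p2.1.symm, k'⟩
    exact k1.2 (k4.trans (pcset_pre hg.pd k))

/-- walks which do not use an exit arc stay in the component -/
theorem pcset_stay {a x y : α} {D' : α → α → Prop} (hx : Sc D s a x)
    (hD : ∀ u v, Sc D s a u → D' u v → Sc D s a v) (hw : Relation.ReflTransGen D' x y) :
    Sc D s a y := by
  induction hw with
  | refl => exact hx
  | tail _ k ih => exact hD _ _ ih k

theorem pcset_root {q a b : α} (hc : CCase D s q) (hch : Chain D s q a b) (hg : Gate D s a s) :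
    (∀ x y, Sc D s a x → D x y → ¬ Sc D s a y → x = b ∧ y = s) ∧
      ∀ x, Av D {s} a x → Sc D s a x ∧ (x = b ∨ pdom D s b x) ∧ IBr D s b s := by
  have hab := hch.sa.symm.trans hch.sb
  have hns : ¬ Sc D s a s := hg.out
  rcases hc.of_sc hch.sa with ⟨g', g1, g2, g3⟩ | ⟨b', b1, b2, b3⟩
  · rcases hg.near g' g2 g3 with e | k
    · exact (g1 e).elim
    · exact (not_dom_root (dom_rv.2 k)).elim
  have key : ∀ x, Sc D s a x → x = b' ∨ pdom D s b' x := fun x hx =>
    or_iff_not_imp_left.2 fun e => ⟨e, fun k => hns (pcset_stay hx (fun u v u1 u2 =>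
      not_not.1 fun u3 => u2.2 (b3 u v u1 u2.1 u3).1) (av_empty.1 (k.mono
        (D' := fun u v => D u v ∧ u ≠ b') (Set.empty_subset _) fun _ _ e1 e2 _ => ⟨e1, e2⟩)))⟩
  obtain rfl : b = b' := (key b hab).resolve_right (hch.topb b' (hch.sa.trans b1))
  refine ⟨b3, fun x hx => ?_⟩
  have k : Sc D s a x := pcset_stay ⟨av_refl hx.1, av_refl hx.1⟩
    (fun u v u1 u2 => not_not.1 fun u3 => u2.2 (b3 u v u1 u2.1 u3).2) hx.2
  exact ⟨k, key x k, b2, fun k' => hns (pcset_stay hab
    (fun u v u1 u2 => not_not.1 fun u3 => u2.2 (b3 u v u1 u2.1 u3)) k')⟩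

theorem GR.cev_closed (h : GR V D s) {q a b g : α} (hq : CycA D {s} q) (hc : CCase D s q)
    (hch : Chain D s q a b) (hg : Gate D s a g) :
    s ∉ colP V D s a g ∧ a ∉ colP V D s a g ∧ g ∉ colP V D s a g ∧ b ∈ colP V D s a g ∧
    (∀ w x, x ∈ colP V D s a g → D w x → w ∈ colP V D s a g ∨ w = a) ∧
    (∀ y, D a y → y ∈ colP V D s a g ∧ OBr D s a y) ∧
    (∀ p ∈ colP V D s a g, ∀ y, y ∉ colP V D s a g → D p y → (OBr D s p y ∨ y = s) →
      y = g ∧ IBr D s p g ∧ pdom D s p a) ∧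
    (∀ p ∈ colP V D s a g, ∀ y, y ∉ colP V D s a g → D p y → y ≠ s →
      (g ≠ s ∧ (y = g ∨ pdom D s g y)) ∨ (g = s ∧ (y = a ∨ pdom D s a y))) ∧
    (g = s → ∀ x, Av D {s} a x → Sc D s a x ∧ (x = b ∨ pdom D s b x) ∧ IBr D s b s) := by
  have ha := pcset_aV h hq hch
  have hs : a ≠ s := hch.sa.2.1
  have hb := pcset_bmem h hq hch hg
  refine ⟨fun k => not_dom_root (pcset_of_mem k).2.1, fun k => (pcset_of_mem k).2.1.1 rfl,
    fun k => (pcset_of_mem k).2.2.1.1 rfl, hb, fun w x hx hw => pcset_enter h hs hg hx hw,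
    fun y hy => ?_, fun p hp y hy hpy ho => ?_, fun p hp y hy hpy hys => ?_, ?_⟩
  · have k := pcset_from_a h hq hch hg hy
    exact ⟨k, pcset_obr_a h hy (pcset_of_mem k).2.1⟩
  · rcases ho with ho | rfl
    · exact pcset_exit h ha hg hp hs hy ho
    obtain ⟨p1, p2, p3, -⟩ := pcset_of_mem hp
    obtain rfl : y = g := (pcset_parc p3 hpy).resolve_right fun k => not_dom_root (dom_rv.2 k)
    obtain ⟨r1, r2⟩ := pcset_root hc hch hg
    obtain ⟨k1, -, k3⟩ := r2 p (h.av_of_dom p1 hs p2).2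
    obtain rfl : p = b := (r1 p y k1 hpy hg.out).1
    exact ⟨rfl, k3, hch.ba⟩
  · obtain ⟨p1, p2, p3, -⟩ := pcset_of_mem hp
    by_cases e : g = s
    · subst e
      refine Or.inr ⟨rfl, or_iff_not_imp_left.2 fun e => ⟨e, fun k => ?_⟩⟩
      obtain ⟨-, k2, -⟩ := (pcset_root hc hch hg).2 y ((h.av_of_dom p1 hs p2).2.tail hpy hys)
      have k3 : Av D {a} g y := not_not.1 fun k' =>
        hy (pcset_mem h hs hg (h.mem _ _ hpy).2 ⟨e, k'⟩ fun k'' => k''.1 rfl)
      rcases k2 with rfl | k2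
      · exact hy hb
      · exact hch.ab.2 (k3.trans (pcset_pre k2 k))
    · exact Or.inl ⟨e, pcset_parc p3 hpy⟩
  · rintro rfl
    exact (pcset_root hc hch hg).2

theorem GR.cev_reach (h : GR V D s) {q a b g : α} (hq : CycA D {s} q) (hc : CCase D s q)
    (hch : Chain D s q a b) (hg : Gate D s a g) {p : α} (hp : p ∈ colP V D s a g) :
    Av D {x | x ∉ colP V D s a g ∧ x ≠ a} a p := by
  have hs : a ≠ s := hch.sa.2.1
  obtain ⟨p1, p2, -, -⟩ := pcset_of_mem hp
  obtain ⟨c, c1, c2, c3⟩ := pbase_split h p1 p2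
  refine Av.head (fun k => k.2 rfl) c1 ?_
  clear c1
  suffices H : c ∈ colP V D s a g ∧ Av D {x | x ∉ colP V D s a g ∧ x ≠ a} c p from H.2
  induction c3 using Relation.ReflTransGen.head_induction_on with
  | refl => exact ⟨hp, av_refl fun k => k.1 hp⟩
  | head k1 _ ih =>
    obtain ⟨i1, i2⟩ := ih k1.2
    have k := (pcset_enter h hs hg i1 k1.1).resolve_right c2
    exact ⟨k, Av.head (fun k' => k'.1 k) k1.1 i2⟩

theorem pcset_A (h : GR V D s) {a g : α} (hs : a ≠ s) (hg : Gate D s a g) {B : Set α} {x u : α}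
    (hx : x ∉ colP V D s a g) (hw : Av D (B ∪ {a}) x u) :
    u ∉ colP V D s a g ∧ Av (colD V D s a g) B x u := by
  obtain ⟨h1, h2⟩ := hw
  induction h2 with
  | refl => exact ⟨hx, av_refl fun k => h1 (Or.inl k)⟩
  | @tail c d k1 k2 ih =>
    have hc : c ≠ a := fun e => Av.not_mem_right ⟨h1, k1⟩ (Or.inr e)
    exact ⟨fun k => (pcset_enter h hs hg k k2.1).elim ih.1 hc,
      ih.2.tail (Or.inr ⟨k2.1, hc, ih.1⟩) fun k => k2.2 (Or.inl k)⟩

theorem pcset_B (h : GR V D s) {a g : α} (hs : a ≠ s) (hg : Gate D s a g) {B : Set α} {x : α}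
    (hx : x ∉ colP V D s a g) (hw : Av D B x a) : Av (colD V D s a g) B x a := by
  rcases av_first {a} hw with k | e | ⟨p, _, rfl, k1, k2, k3⟩
  · exact (k.not_mem_right (Or.inr rfl)).elim
  · obtain rfl : x = a := e
    exact av_refl hw.1
  · obtain ⟨i1, i2⟩ := pcset_A h hs hg hx k1
    exact i2.tail (Or.inr ⟨k2, fun e => k1.not_mem_right (Or.inr e), i1⟩) k3.1

/-- Shortcut. Cut the walk at the first and at the last visit of `a`; after the last visit it
either meets `g` (and then never enters `P` again) or avoids `g`. -/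
theorem GR.cev_short (h : GR V D s) {q a b g : α} (hq : CycA D {s} q) (hc : CCase D s q)
    (hch : Chain D s q a b) (hg : Gate D s a g) {B : Set α} {x y : α}
    (hx : x ∉ colP V D s a g) (hy : y ∉ colP V D s a g) (hw : Av D B x y) :
    Av (colD V D s a g) B x y ∨
      (Av (colD V D s a g) B x a ∧ y ≠ a ∧ y ≠ g ∧ pdom D s g y ∧ Av D {s} a y) := by
  have hs : a ≠ s := hch.sa.2.1
  have hgP : g ∉ colP V D s a g := fun k => (pcset_of_mem k).2.2.1.1 rfl
  rcases av_last {a} hw with k | e | ⟨a', p, e, k1, k2, k3⟩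
  · exact Or.inl (pcset_A h hs hg hx k).2
  · obtain rfl : y = a := e
    exact Or.inl (pcset_B h hs hg hx hw)
  obtain rfl : a = a' := Eq.symm e
  have k4 := pcset_B h hs hg hx k1
  have fin : ∀ {c : α}, c ∈ ({g} : Set α) → Av D (B ∪ {a}) c y → Av (colD V D s a g) B x y := by
    intro c e k
    obtain rfl : g = c := Eq.symm e
    exact (k4.tail (Or.inl ⟨rfl, rfl⟩) fun k' => k.1 (Or.inl k')).trans (pcset_A h hs hg hgP k).2
  rcases av_first {g} k3 with k | e | ⟨_, c, e, -, -, k⟩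
  · have k5 : Av D {g} a y := Av.head hg.pd.1 k2 (pbase_r k)
    refine Or.inr ⟨k4, fun e => k3.not_mem_right (Or.inr e), k5.not_mem_right,
      ⟨k5.not_mem_right, fun k' => hg.pd.2 (k5.trans k')⟩, ?_⟩
    rcases av_first {s} k5 with k6 | e | ⟨c, _, rfl, k6, k7, k8⟩
    · exact pbase_r k6
    · exact (hs e).elim
    · exact (hg.pd.2 ((pbase_l k6).tail k7 k8.1)).elim
  · exact Or.inl (fin e k3)
  · exact Or.inl (fin e k)

/-- Bypass. If `z` post-dominates `g` use `av_suffix` for `rv D`. Otherwise, if all walks `a ⇝ g`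
met `z`, then `z` would post-dominate `a`; `z ∈ K` gives `z ∈ P` by `pd`, `z ∉ K` contradicts
`near`. -/
theorem GR.cev_bypass (h : GR V D s) {q a b g : α} (hq : CycA D {s} q) (hc : CCase D s q)
    (hch : Chain D s q a b) (hg : Gate D s a g) {z : α} (hz : z ∉ colP V D s a g)
    (hza : z ≠ a) (hzg : z ≠ g) : Av D {z} a g := by
  have ha := pcset_aV h hq hch
  have hs : a ≠ s := hch.sa.2.1
  by_cases k : pdom D s z g
  · exact av_rv.1 (h.rev.av_suffix ha (dom_rv.2 k) (dom_rv.2 hg.pd))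
  refine pcset_pre hg.pd (not_not.1 fun k1 => ?_)
  have k2 : pdom D s z a := ⟨hza.symm, k1⟩
  by_cases k3 : Sc D s a z
  · exact hz (pcset_mem h hs hg (pcset_memV h ha k3.1) (hch.pd z (hch.sa.trans k3) k2)
      (pcset_out h ha hg k3.2))
  · exact (hg.near z k3 k2).elim hzg k

theorem col_expand {a g : α} {B : Set α} {x y : α} (hag : g ∉ B → a ∉ B → Av D B a g)
    (hw : Av (colD V D s a g) B x y) : Av D B x y := by
  obtain ⟨h1, h2⟩ := hw
  induction h2 with
  | refl => exact av_refl h1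
  | tail _ k2 ih =>
    obtain ⟨⟨rfl, rfl⟩ | k, k3⟩ := k2
    · exact ih.trans (hag k3 ih.not_mem_right)
    · exact ih.tail k.1 k3

end Pool.Agent.Work.MP_5391ad_co
end

-- merged part: Pool.Agent.Work.MP_5391ad_co.PCode
section
/-! The code of a set `P` whose entering arcs all come from `P ∪ {a}`.
Put `H = P.filter (¬ IsEar)`, `par y = some u` iff `y ∈ P` and `OBr u y` (unique by
`obr_unique`; `u ∈ P ∪ {a}` by `hin`; `u` is not an ear because the out-arc of an ear is not an
out-bridge), `frc = f`, `tgt x = some y` iff `x ∈ P`, `D x y`, not (`y ∈ P` and `OBr x y`), not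
(`f = some x` and `y = g`); such an arc is an in-bridge and not an out-bridge (`cr`, `hex`), so
`y` is unique. A target inside `P` is a hub: an ear has in-degree one, so its entering arc is an
out-bridge (`obr_of_unique`).
`two`: a hub without parent has two entering arcs (in-degree one would give an out-bridge), both
are target arcs with tails in `P` (arcs from `a` into `P` are out-bridges); different heads have
different tails. `size`: a hub with parent `u` and target has, by `GR.full`, `IBr u y`; then `u`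
is `a` or a hub with `tgt u = none` (its unique in-bridge is a parent arc), and `y ↦ u` is
injective; so the number of full hubs is at most (hubs without target) + 1.
Arc count: parent arcs `≤ |P| - n0`, target arcs `≤ |P| - nc`, forced arc `≤ 1`. -/

namespace Pool.Agent.Work.MP_5391ad_co

open Finset
open scoped Classical

variable {α : Type*} [Fintype α] {D : α → α → Prop} {s : α} {V : Finset α}

omit [Fintype α] in
theorem pcode_opt (R : α → α → Prop) (h : ∀ x y y', R x y → R x y' → y = y') :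
    ∃ t : α → Option α, ∀ x y, t x = some y ↔ R x y := by
  refine ⟨fun x => if hh : ∃ y, R x y then some hh.choose else none, fun x y => ?_⟩
  dsimp only
  split_ifs with hh
  · exact ⟨fun e => Option.some.inj e ▸ hh.choose_spec,
      fun e => congrArg some (h x _ _ hh.choose_spec e)⟩
  · exact ⟨fun e => e.elim, fun e => hh ⟨y, e⟩⟩

omit [Fintype α] in
theorem pcode_ibr (h : GR V D s) {u v v' : α} (h1 : IBr D s u v) (h2 : IBr D s u v') : v = v' :=
  h.rev.obr_unique (obr_rv.2 h1) (obr_rv.2 h2)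

omit [Fintype α] in
theorem pcode_two (A P B : Finset α) (t : α → Option α)
    (h : ∀ y ∈ A, ∃ u ∈ P, ∃ u' ∈ P, u ≠ u' ∧ t u = some y ∧ t u' = some y) (hA : A ⊆ B) :
    2 * A.card ≤ (P.filter fun x => ∃ y ∈ B, t x = some y).card := by
  have h1 : (A.biUnion fun y => P.filter fun x => t x = some y) ⊆
      P.filter fun x => ∃ y ∈ B, t x = some y := by
    intro x hx
    obtain ⟨y, hy, hx⟩ := mem_biUnion.1 hx
    exact mem_filter.2 ⟨(mem_filter.1 hx).1, y, hA hy, (mem_filter.1 hx).2⟩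
  refine le_trans ?_ (card_le_card h1)
  rw [card_biUnion, mul_comm]
  · refine card_nsmul_le_sum A _ 2 fun y hy => ?_
    obtain ⟨u, hu, u', hu', h2, h3, h4⟩ := h y hy
    exact one_lt_card.2 ⟨u, mem_filter.2 ⟨hu, h3⟩, u', mem_filter.2 ⟨hu', h4⟩, h2⟩
  · intro y _ y' _ hne
    refine disjoint_filter.2 fun x _ e e' => hne ?_
    exact Option.some.inj (e.symm.trans e')

omit [Fintype α] in
theorem pcode_size (c : OCode α) (a : α) (R : α → α → Prop) (h : ∀ x y y', R x y → R x y' → y = y')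
    (h' : ∀ y ∈ c.H, ∀ u w, c.par y = some u → c.tgt y = some w →
      R u y ∧ (u = a ∨ (u ∈ c.H ∧ c.tgt u = none))) : c.H.card ≤ 2 * c.dfc + 1 := by
  have h1 : (c.H.filter fun y => c.par y ≠ none ∧ c.tgt y ≠ none).card ≤
      (insert a (c.H.filter fun x => c.tgt x = none)).card := by
    refine card_le_card_of_injOn (fun y => (c.par y).getD a) (fun y hy => ?_)
      fun y hy y' hy' e => ?_
    · obtain ⟨h2, h3, h4⟩ := mem_filter.1 (mem_coe.1 hy)
      obtain ⟨u, hu⟩ := Option.ne_none_iff_exists'.1 h3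
      obtain ⟨w, hw⟩ := Option.ne_none_iff_exists'.1 h4
      simp only [mem_coe, mem_insert, mem_filter, hu, Option.getD_some]
      exact (h' y h2 u w hu hw).2
    · obtain ⟨h2, h3, h4⟩ := mem_filter.1 (mem_coe.1 hy)
      obtain ⟨u, hu⟩ := Option.ne_none_iff_exists'.1 h3
      obtain ⟨w, hw⟩ := Option.ne_none_iff_exists'.1 h4
      obtain ⟨h2', h3', h4'⟩ := mem_filter.1 (mem_coe.1 hy')
      obtain ⟨u', hu'⟩ := Option.ne_none_iff_exists'.1 h3'
      obtain ⟨w', hw'⟩ := Option.ne_none_iff_exists'.1 h4'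
      simp only [hu, hu', Option.getD_some] at e
      subst e
      exact h u _ _ (h' y h2 u w hu hw).1 (h' y' h2' u w' hu' hw').1
  have h2 : c.H ⊆ (c.H.filter fun x => c.par x = none) ∪ (c.H.filter fun x => c.tgt x = none) ∪
      c.H.filter fun y => c.par y ≠ none ∧ c.tgt y ≠ none := by
    intro x hx
    simp only [mem_union, mem_filter]
    tauto
  have h3 := (card_le_card h2).trans ((card_union_le _ _).trans
    (add_le_add (card_union_le _ _) (h1.trans (card_insert_le _ _))))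
  unfold OCode.dfc
  omega

theorem pcode_count (c : OCode α) (a g : α) (P : Finset α) (hH : c.H ⊆ P)
    (h : ∀ x, x ∉ P → c.par x = none ∧ c.tgt x = none) :
    (univ.filter fun p : α × α => c.arc g p.1 p.2).card + c.dfc ≤ 2 * P.card + 1 := by
  have h1 : (univ.filter fun p : α × α => c.arc g p.1 p.2) ⊆
      (P.filter fun y => ¬ c.par y = none).image (fun y => ((c.par y).getD a, y)) ∪
        (P.filter fun x => ¬ c.tgt x = none).image (fun x => (x, (c.tgt x).getD a)) ∪
          {(c.frc.getD a, g)} := by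
    rintro ⟨u, w⟩ hp
    simp only [mem_union, mem_image, mem_filter, mem_singleton]
    rcases (mem_filter.1 hp).2 with e | e | ⟨e, e'⟩
    · refine Or.inl (Or.inl ⟨w, ⟨by_contra fun n => ?_, by simp [e]⟩, by simp [e]⟩)
      simp [(h w n).1] at e
    · refine Or.inl (Or.inr ⟨u, ⟨by_contra fun n => ?_, by simp [e]⟩, by simp [e]⟩)
      simp [(h u n).2] at e
    · exact Or.inr (by simp [e, ← e'])
  have h2 := (card_le_card h1).trans ((card_union_le _ _).trans (add_le_add
    ((card_union_le _ _).trans (add_le_add card_image_le card_image_le)) (card_singleton _).le))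
  have h3 := card_filter_add_card_filter_not (s := P) fun y => c.par y = none
  have h4 := card_filter_add_card_filter_not (s := P) fun y => c.tgt y = none
  have h5 := card_le_card (filter_subset_filter (fun y => c.par y = none) hH)
  have h6 := card_le_card (filter_subset_filter (fun y => c.tgt y = none) hH)
  unfold OCode.dfc
  omega

theorem GR.exists_code (h : GR V D s) {a g : α} {P Y : Finset α} {f : Option α}
    (hPV : P ⊆ V) (hs : s ∉ P) (ha : a ∉ P) (hg : g ∉ P)
    (hin : ∀ w x, x ∈ P → D w x → w ∈ P ∨ w = a)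
    (hroot : ∀ y, D a y → (y ∈ P ∧ OBr D s a y) ∨ (f = some a ∧ y = g))
    (hf : ∀ x, f = some x → D x g ∧ (x = a ∨ (x ∈ P ∧ ¬ IsEar D s x)))
    (hex : ∀ x ∈ P, ∀ y, y ∉ P → D x y →
      (f = some x ∧ y = g) ∨ (y ∈ Y ∧ ¬ OBr D s x y)) :
    ∃ c : OCode α, Val0 a P Y c ∧ c.frc = f ∧ (∀ x, x ∈ c.H ↔ x ∈ P ∧ ¬ IsEar D s x) ∧
      (∀ u y, c.par y = some u ↔ y ∈ P ∧ OBr D s u y) ∧
      (∀ x y, c.tgt x = some y ↔ x ∈ P ∧ D x y ∧ ¬ (y ∈ P ∧ OBr D s x y) ∧
        ¬ (f = some x ∧ y = g)) ∧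
      (∀ x y, c.tgt x = some y → IBr D s x y ∧ ¬ OBr D s x y) ∧
      (∀ u w, c.arc g u w ↔ (u ∈ P ∨ u = a) ∧ D u w) ∧
      (univ.filter fun p : α × α => (p.1 ∈ P ∨ p.1 = a) ∧ D p.1 p.2).card + c.dfc ≤
        2 * P.card + 1 := by
  have hT : ∀ x y, (x ∈ P ∧ D x y ∧ ¬ (y ∈ P ∧ OBr D s x y) ∧ ¬ (f = some x ∧ y = g)) →
      IBr D s x y ∧ ¬ OBr D s x y := by
    rintro x y ⟨h1, h2, h3, h4⟩
    have h5 : ¬ OBr D s x y := fun e => by
      by_cases hy : y ∈ P
      · exact h3 ⟨hy, e⟩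
      · exact ((hex x h1 y hy h2).resolve_left h4).2 e
    exact ⟨(h.cr x y h2).resolve_left h5, h5⟩
  obtain ⟨par, hpar⟩ := pcode_opt (fun y u => y ∈ P ∧ OBr D s u y)
    fun _ _ _ e e' => h.obr_unique e.2 e'.2
  obtain ⟨tgt, htgt⟩ := pcode_opt
    (fun x y => x ∈ P ∧ D x y ∧ ¬ (y ∈ P ∧ OBr D s x y) ∧ ¬ (f = some x ∧ y = g))
    fun _ _ _ e e' => pcode_ibr h (hT _ _ e).1 (hT _ _ e').1
  have hne : ∀ y ∈ P, y ≠ s := fun y hy e => hs (e ▸ hy)
  have hsub : (P.filter fun x => ¬ IsEar D s x) ⊆ P := filter_subset _ _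
  have hout : ∀ x, x ∉ P → par x = none ∧ tgt x = none := fun x hx =>
    ⟨Option.eq_none_iff_forall_ne_some.2 fun u e => hx ((hpar x u).1 e).1,
      Option.eq_none_iff_forall_ne_some.2 fun u e => hx ((htgt x u).1 e).1⟩
  have hparm : ∀ x u, par x = some u → u ∈ (P.filter fun x => ¬ IsEar D s x) ∨ u = a := by
    intro x u e
    obtain ⟨h1, h2⟩ := (hpar x u).1 e
    refine (hin u x h1 h2.1).imp_left fun hu => mem_filter.2 ⟨hu, ?_⟩
    rintro ⟨_, y, -, h3, -, h4⟩
    exact h4 ((h3 x).1 h2.1 ▸ h2)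
  have harc : ∀ u w, OCode.arc ⟨P.filter fun x => ¬ IsEar D s x, par, tgt, f⟩ g u w ↔
      (u ∈ P ∨ u = a) ∧ D u w := by
    intro u w
    constructor
    · rintro (e | e | ⟨e, rfl⟩)
      · obtain ⟨h1, h2⟩ := (hpar w u).1 e
        exact ⟨hin u w h1 h2.1, h2.1⟩
      · obtain ⟨h1, h2, -⟩ := (htgt u w).1 e
        exact ⟨Or.inl h1, h2⟩
      · obtain ⟨h1, h2⟩ := hf u e
        exact ⟨h2.symm.imp_left And.left, h1⟩
    · rintro ⟨hu | rfl, h1⟩
      · by_cases h2 : w ∈ P ∧ OBr D s u w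
        · exact Or.inl ((hpar w u).2 h2)
        by_cases h3 : f = some u ∧ w = g
        · exact Or.inr (Or.inr h3)
        exact Or.inr (Or.inl ((htgt u w).2 ⟨hu, h1, h2, h3⟩))
      · exact (hroot w h1).imp (hpar w u).2 Or.inr
  refine ⟨⟨P.filter fun x => ¬ IsEar D s x, par, tgt, f⟩,
    ⟨hsub, hout, hparm, ?_, ?_, ?_, ?_, ?_⟩, rfl, fun x => mem_filter, fun u y => hpar y u, htgt,
    fun x y e => hT x y ((htgt x y).1 e), harc, ?_⟩
  · intro x y e
    obtain ⟨h1, h2, h3, h4⟩ := (htgt x y).1 e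
    by_cases hy : y ∈ P
    · refine Or.inl (mem_filter.2 ⟨hy, ?_⟩)
      rintro ⟨u, _, h5, -⟩
      exact h3 ⟨hy, (h5 x).1 h2 ▸ h.obr_of_unique (hne y hy) h5⟩
    · exact Or.inr ((hex x h1 y hy h2).resolve_left h4).1
  · intro e he h1
    have h2 : IsEar D s e := by_contra fun n => h1 (mem_filter.2 ⟨he, n⟩)
    obtain ⟨u, y, h3, h4, -, h5⟩ := id h2
    refine ⟨Option.ne_none_iff_exists'.2 ⟨u, (hpar e u).2 ⟨he, h.obr_of_unique (hne e he) h3⟩⟩,
      Option.ne_none_iff_exists'.2 ⟨y, (htgt e y).2 ⟨he, (h4 y).2 rfl, fun n => h5 n.2, fun n => ?_⟩⟩⟩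
    exact (hf e n.1).2.elim (fun e' => ha (e' ▸ he)) fun e' => e'.2 h2
  · exact fun x e => (hf x e).2.symm.imp_left mem_filter.2
  · refine pcode_two _ P _ tgt (fun y hy => ?_) (filter_subset _ _)
    obtain ⟨h1, h2⟩ := mem_filter.1 hy
    have hy' := hsub h1
    have h3 : ∀ w, ¬ OBr D s w y := fun w e => by
      have := (hpar y w).2 ⟨hy', e⟩
      rw [show par y = none from h2] at this
      exact Option.some_ne_none _ this.symm
    have h4 : ∀ w, D w y → w ∈ P ∧ tgt w = some y := by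
      intro w hw
      have h5 : w ∈ P := (hin w y hy' hw).resolve_right fun e =>
        (hroot y (e ▸ hw)).elim (fun n => h3 _ n.2) fun n => hg (n.2 ▸ hy')
      exact ⟨h5, (htgt w y).2 ⟨h5, hw, fun n => h3 _ n.2, fun n => hg (n.2 ▸ hy')⟩⟩
    obtain ⟨u, hu⟩ := h.exists_in (hPV hy') (hne y hy')
    obtain ⟨u', hu', e⟩ : ∃ u', D u' y ∧ u ≠ u' := by
      by_contra! n
      exact h3 u (h.obr_of_unique (hne y hy') fun w => ⟨fun e => (n w e).symm, fun e => e ▸ hu⟩)
    exact ⟨u, (h4 u hu).1, u', (h4 u' hu').1, e, (h4 u hu).2, (h4 u' hu').2⟩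
  · refine pcode_size _ a (IBr D s) (fun _ _ _ => pcode_ibr h) fun y hy u w e e' => ?_
    have h1 := ((hpar y u).1 e).2
    have h2 := hT y w ((htgt y w).1 e')
    have h3 := (h.full h1 h2.1 h2.2).resolve_left (mem_filter.1 hy).2
    refine ⟨h3, (hparm y u e).symm.imp_right fun hu => ⟨hu, ?_⟩⟩
    refine Option.eq_none_iff_forall_ne_some.2 fun w' n => ?_
    have h4 := hT u w' ((htgt u w').1 n)
    exact h4.2 (pcode_ibr h h3 h4.1 ▸ h1)
  · have := pcode_count ⟨P.filter fun x => ¬ IsEar D s x, par, tgt, f⟩ a g P hsub hout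
    simp only [harc] at this
    convert this

end Pool.Agent.Work.MP_5391ad_co
end

-- merged part: Pool.Agent.Work.MP_5391ad_co.PGev
section
/-! One link event. `K` is the strong component of the fat link `(x, x')`, neither of the two
cases `CCase D`, `CCase (rv D)` holds. `X` = vertices other than `x` reachable from `x` avoiding
`x'`. The new digraph deletes `X`, the out-arcs of `x` and adds `(x, s)`, `(s, x')`.

`flink_closed`: out-arcs of `X ∪ {x}` go to `X ∪ {x'}` (not to `x` by `c1`, `s ∉ X` by `pd`).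
For an arc `(w, y)`, `y ∈ X ∪ {x'}`: `y ⇝ x'` avoiding `x` and `s`; so `w = x` or `dom x w`;
take `x ⇝ w` from the last visit of `x`; it avoids `x'` by `c2`.

`gev_good`: strong connectivity by replacing the part before the last `x'` by `(s, x')`, and the
part after the first `x` by `(x, s)`. An out-bridge `(u, w)` of `D` that is no longer one lies on
all walks `s ⇝ x'`, and `w ∈ K`; `u = s` or `u ∉ K` would give `CCase (rv D)`; so `u ∈ K`
dominates `x'`, by `p1` `x` post-dominates `u` or `u = x` (excluded), and `(u, w)` is an in-bridge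
of the new digraph. Mirror image for in-bridges. `dg`: a cycle of `D1 - s` is a cycle of `D - s`
avoiding `X, x, x'`; keep the same `z`. If `dom z u` fails in `D1` there is `x' ⇝ u` avoiding
`z`, so `z` dominates `x'`, `z ∈ K`, `x` post-dominates `z` (`p1`); the cycle gives `z ⇝ u`
avoiding `x`, so every walk `u ⇝ s` of `D` meets `x`, and `u ⇝ x` avoiding `z` would close a cycle
through `u` avoiding `z`: `pdom z u` in `D1`. Mirror image for `pdom`.

`gev`: code from `exists_code` with `a = x`, `g = x'`, `Y = {x'}`, `f` = the tail of the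
out-bridge into `x'` if there is one. All arcs into `x'` are in-bridges or that out-bridge; arcs
from `x` into `X` are out-bridges (an in-bridge `(x, y)` lies on all walks `x ⇝ s`, so on all
walks `s ⇝ y`... if it is not an out-bridge there is `x → y' ⇝ y` avoiding `x`, then
`x → y' ⇝ y ⇝ s` avoids the arc by `c1`); the arc `(x, x')`, if present, is an out-bridge by the
same argument. -/

namespace Pool.Agent.Work.MP_5391ad_co

open Finset
open scoped Classical

variable {α : Type*} [Fintype α] {D : α → α → Prop} {s : α} {V : Finset α}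

/-- the region between the ends of a fat link -/
noncomputable def linkX (V : Finset α) (D : α → α → Prop) (x x' : α) : Finset α :=
  V.filter fun y => y ≠ x ∧ Av D {x'} x y

/-- the digraph after a link event -/
def linkD (V : Finset α) (D : α → α → Prop) (s x x' : α) (u w : α) : Prop :=
  (u = x ∧ w = s) ∨ (u = s ∧ w = x') ∨ (D u w ∧ u ≠ x ∧ u ∉ linkX V D x x')

section aux

omit [Fintype α]

theorem pgev_cyc {B : Set α} {u v : α} (h1 : Av D B u v) (h2 : u ≠ v) (h3 : Av D B v u) :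
    CycA D B u := by
  rcases h1.2.cases_head with e | ⟨w, k1, k2⟩
  · exact (h2 e).elim
  · exact ⟨w, k1.1, Av.trans ⟨k1.2, k2⟩ h3⟩

theorem pgev_cyc' {B : Set α} {u v : α} (h1 : Av D B u v) (h2 : D v u) : CycA D B u :=
  cycA_rv.1 ⟨v, h2, av_rv.2 h1⟩

theorem pgev_sub {B B' : Set α} {x y : α} (h : Av D B x y) (hB : ∀ z ∈ B', z ∈ B) :
    Av D B' x y := h.mono hB fun _ _ k _ _ => k

theorem pgev_mem (h : GR V D s) {B : Set α} {u v : α} (h1 : Av D B u v) (h2 : u ≠ v) : u ∈ V := by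
  rcases h1.2.cases_head with e | ⟨w, k1, -⟩
  · exact (h2 e).elim
  · exact (h.mem _ _ k1.1).1

theorem pgev_rev {x x' : α} (h : FLink D s x x') : FLink (rv D) s x' x :=
  ⟨sc_rv.2 h.sc.symm, dom_rv.2 h.pd, pdom_rv.2 h.dm, mt cycA_rv.1 h.c2, mt cycA_rv.1 h.c1,
    fun z k1 k2 => (h.p2 z (h.sc.trans (sc_rv.1 k1)) (dom_rv.1 k2)).imp_right pdom_rv.2,
    fun z k1 k2 => (h.p1 z (h.sc.trans (sc_rv.1 k1)) (pdom_rv.1 k2)).imp_right dom_rv.2⟩

/-- cut a walk at the last use of an arc -/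
theorem pgev_arc (u w : α) {B : Set α} {a b : α} (h : Av D B a b) :
    Av (fun a b => D a b ∧ ¬ (a = u ∧ b = w)) B a b ∨
      Av (fun a b => D a b ∧ ¬ (a = u ∧ b = w)) B w b := by
  obtain ⟨h1, h2⟩ := h
  induction h2 with
  | refl => exact Or.inl (av_refl h1)
  | @tail p q _ k2 ih =>
    by_cases e : p = u ∧ q = w
    · exact Or.inr (e.2 ▸ av_refl k2.2)
    · exact ih.imp (·.tail ⟨k2.1, e⟩ k2.2) (·.tail ⟨k2.1, e⟩ k2.2)

theorem pgev_off {u w : α} {B : Set α} {a b : α} (h : Av D B a b) (hu : u ∈ B) :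
    Relation.ReflTransGen (fun a b => D a b ∧ ¬ (a = u ∧ b = w)) a b :=
  av_empty.1 (h.mono (Set.empty_subset _) fun _ _ k1 k2 _ => ⟨k1, fun e => k2 (e.1 ▸ hu)⟩)

/-- the first visit of `u` does not use an out-arc of `u` -/
theorem pgev_first (h : GR V D s) {u : α} (hu : u ∈ V) (w : α) :
    Relation.ReflTransGen (fun a b => D a b ∧ ¬ (a = u ∧ b = w)) s u := by
  rcases av_first {u} (av_empty.2 (h.fwd u hu)) with k | rfl | ⟨p, _, rfl, k1, k2, -⟩
  · exact (k.not_mem_right (Or.inr rfl)).elim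
  · exact .refl
  · exact (pgev_off k1 (Or.inr rfl)).tail ⟨k2, fun e => k1.not_mem_right (Or.inr e.1)⟩

theorem pgev_last {E1 E : α → α → Prop} {x' w : α} {B : Set α}
    (hE : ∀ a b, E1 a b → b = s ∨ (a = s ∧ b = x') ∨ E a b) (k : Av E1 B s w) :
    Av E B s w ∨ Av E (B ∪ {s}) x' w := by
  rcases av_last {s} k with k1 | rfl | ⟨_, p, rfl, -, k1, k2⟩
  · exact (k1.1 (Or.inr rfl)).elim
  · exact Or.inl (av_refl k.1)
  · have k3 := k2.mono (D' := E) le_rfl fun a b e ha hb =>
      ((hE a b e).resolve_left fun e => hb (Or.inr e)).resolve_left fun e => ha (Or.inr e.1)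
    rcases hE _ _ k1 with e | ⟨-, rfl⟩ | e
    · exact (k2.1 (Or.inr e)).elim
    · exact Or.inr k3
    · exact Or.inl (Av.head k.1 e (pbase_l k3))

theorem pgev_in {a b u : α} (h : Sc D s a b) (hu : ¬ Sc D s a u) (hs : u ≠ s) :
    Av D {u} a b := by
  rcases av_first {u} h.1 with k | rfl | ⟨p, _, rfl, k1, k2, k3⟩
  · exact pbase_r k
  · exact (hu ⟨av_refl hs, av_refl hs⟩).elim
  · exact (hu ⟨(pbase_l k1).tail k2 hs, k3.trans h.2⟩).elim

/-- the symmetric description of a link event -/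
structure pgev_S (V : Finset α) (D : α → α → Prop) (s x x' : α) (X : Finset α)
    (D1 : α → α → Prop) : Prop where
  gr : GR V D s
  fl : FLink D s x x'
  sX : s ∉ X
  xX : x ∉ X
  yX : x' ∉ X
  cl : ∀ w y, D w y → ((w = x ∨ w ∈ X) ↔ (y = x' ∨ y ∈ X))
  d1 : ∀ u w, D1 u w ↔ (u = x ∧ w = s) ∨ (u = s ∧ w = x') ∨ (D u w ∧ ¬ (u = x ∨ u ∈ X))

namespace pgev_S

variable {x x' : α} {X : Finset α} {D1 : α → α → Prop} (h : pgev_S V D s x x' X D1)
include h

theorem rev : pgev_S V (rv D) s x' x X (rv D1) := by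
  refine ⟨h.gr.rev, pgev_rev h.fl, h.sX, h.yX, h.xX, fun w y k => (h.cl y w k).symm,
    fun u w => (h.d1 w u).trans ?_⟩
  rw [or_left_comm, and_comm (a := w = s), and_comm (a := w = x)]
  exact or_congr_right (or_congr_right (and_congr_right fun k => not_congr (h.cl w u k)))

theorem xs : x ≠ s := h.fl.sc.1.1

theorem ys : x' ≠ s := h.fl.sc.2.1

theorem xy : x ≠ x' := h.fl.pd.1

theorem xV : x ∈ V := pgev_mem h.gr h.fl.sc.1 h.xy

theorem cas {a b : α} (k : D1 a b) : b = s ∨ (a = s ∧ b = x') ∨ D a b :=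
  ((h.d1 a b).1 k).imp And.right (Or.imp_right And.left)

theorem old {a b : α} (k : D1 a b) (ha : a ≠ s) (hb : b ≠ s) : D a b ∧ ¬ (a = x ∨ a ∈ X) :=
  (((h.d1 a b).1 k).resolve_left fun e => hb e.2).resolve_left fun e => ha e.1

theorem old' {a b : α} (k : D1 a b) (ha : a ≠ s) (ha' : a ≠ x) : D a b :=
  ((((h.d1 a b).1 k).resolve_left fun e => ha' e.1).resolve_left fun e => ha e.1).1

theorem avo {B : Set α} {a b : α} (k : Av D1 B a b) (hs : s ∈ B) : Av D B a b :=
  k.mono le_rfl fun _ _ e ha hb => (h.old e (fun e => ha (e ▸ hs)) fun e => hb (e ▸ hs)).1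

theorem avx {a b : α} (k : Av D1 {s} a b) (hb : b ≠ x) : Av D {x} a b := by
  rcases av_last {x} k with k1 | e | ⟨_, p, rfl, -, k1, k2⟩
  · exact pbase_r (h.avo k1 (Or.inl rfl))
  · exact (hb e).elim
  · exact ((h.old k1 h.xs fun e => k2.1 (Or.inl e)).2 (Or.inl rfl)).elim

theorem snk : Snk D1 s x := fun y =>
  (h.d1 x y).trans ⟨fun k => k.elim And.right fun k => k.elim (fun e => (h.xs e.1).elim)
    fun e => (e.2 (Or.inl rfl)).elim, fun e => Or.inl ⟨rfl, e⟩⟩

theorem new {B : Set α} {u w : α} (k : Av D B u w) (hB : x' ∈ B) (hw : w ∉ X) : Av D1 B u w := by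
  obtain ⟨h1, h2⟩ := k
  induction h2 with
  | refl => exact av_refl h1
  | @tail p q _ k2 ih =>
    have e : ¬ (p = x ∨ p ∈ X) := fun e =>
      ((h.cl p q k2.1).1 e).elim (fun e => k2.2 (e ▸ hB)) hw
    exact (ih fun e' => e (Or.inr e')).tail ((h.d1 p q).2 (Or.inr (Or.inr ⟨k2.1, e⟩))) k2.2

theorem fw {B : Set α} {w : α} (k : Av D B s w) (hw : w ∉ X) : Av D1 B s w := by
  have e : D1 s x' := (h.d1 _ _).2 (Or.inr (Or.inl ⟨rfl, rfl⟩))
  rcases av_last {x'} k with k1 | rfl | ⟨_, p, rfl, k1, k2, k3⟩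
  · exact pbase_l (h.new k1 (Or.inr rfl) hw)
  · exact (av_refl k.1).tail e k.not_mem_right
  · exact Av.head k.1 e (Av.head k1.not_mem_right ((h.d1 _ _).2 (Or.inr (Or.inr
      ⟨k2, fun e => e.elim h.xy.symm h.yX⟩))) (pbase_l (h.new k3 (Or.inr rfl) hw)))

theorem thru {B : Set α} (hB : ∀ u ∈ B, ¬ (u = x ∨ u ∈ X)) (hy : x' ∉ B) : Av D B x x' := by
  have key : ∀ p, Av D {x'} x p → (p = x ∨ p ∈ X) ∧ Av D B x p := by
    rintro p ⟨-, h2⟩
    induction h2 with
    | refl => exact ⟨Or.inl rfl, av_refl fun e => hB _ e (Or.inl rfl)⟩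
    | @tail p q _ k2 ih =>
      have e : q ∈ X := ((h.cl p q k2.1).1 ih.1).resolve_left k2.2
      exact ⟨Or.inr e, ih.2.tail k2.1 fun e' => hB _ e' (Or.inr e)⟩
  rcases av_first {x'} h.fl.sc.1 with k | e | ⟨p, _, rfl, k1, k2, -⟩
  · exact (k.not_mem_right (Or.inr rfl)).elim
  · exact (h.xy e).elim
  · exact (key p (pbase_r k1)).2.tail k2 hy

theorem ibr : IBr D1 s x s := by
  refine ⟨(h.snk s).2 rfl, fun k => ?_⟩
  rcases k.cases_head with e | ⟨a, ⟨k1, k2⟩, -⟩
  · exact h.xs e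
  · exact k2 ⟨rfl, (h.snk a).1 k1⟩

theorem br (h2 : ¬ CCase (rv D) s x) {u w : α} (hu : ¬ (u = x ∨ u ∈ X)) (hb : OBr D s u w) :
    OBr D1 s u w ∨ IBr D1 s u w := by
  have e1 : D1 u w := (h.d1 _ _).2 (Or.inr (Or.inr ⟨hb.1, hu⟩))
  refine or_iff_not_imp_left.2 fun k => ⟨e1, fun k' => ?_⟩
  have k1 := av_empty.2 (not_not.1 fun e => k ⟨e1, e⟩)
  have k2 := (pgev_last (E := fun a b => D a b ∧ ¬ (a = u ∧ b = w)) (x' := x')
    (fun a b e => (h.cas e.1).imp_right (Or.imp_right fun e' => ⟨e', e.2⟩)) k1).resolve_left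
    fun e => hb.2 (av_empty.1 e)
  have k3 : ¬ Relation.ReflTransGen (fun a b => D a b ∧ ¬ (a = u ∧ b = w)) s x' := fun e =>
    hb.2 (e.trans (av_empty.1 (pbase_l k2)))
  have k4 : Av D {s} w x' := by
    rcases av_last {s} (av_empty.2 (h.gr.fwd x' h.rev.xV)) with e | e | ⟨c, p, rfl, -, a1, a2⟩
    · exact (e.1 (Or.inr rfl)).elim
    · exact (h.ys e).elim
    · rcases pgev_arc u w a2 with e | e
      · by_cases e' : c = u ∧ p = w
        · exact e'.2 ▸ pbase_r a2
        · exact (k3 (.head ⟨a1, e'⟩ (av_empty.1 (pbase_l e)))).elim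
      · exact (pbase_r e).mono le_rfl fun _ _ e _ _ => e.1
  have k5 : Sc D s x w := h.fl.sc.trans ⟨(pbase_r k2).mono le_rfl fun _ _ e _ _ => e.1, k4⟩
  have k6 : Sc D s x u := by
    by_contra e
    by_cases e' : u = s
    · refine h2 (Or.inr ⟨w, sc_rv.2 k5, e' ▸ hb.1, fun a y a1 a2 a3 => ?_⟩)
      rw [sc_rv] at a1 a3
      by_contra a4
      have a5 : ¬ Relation.ReflTransGen (fun a b => D a b ∧ ¬ (a = u ∧ b = w)) s y := fun e =>
        k3 ((e.tail ⟨a2, fun e => a4 ⟨e.2, e.1.trans e'⟩⟩).trans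
          (pgev_off (a1.symm.trans h.fl.sc).1 e'))
      rcases pgev_arc u w (av_empty.2 (h.gr.fwd y (h.gr.mem _ _ a2).1)) with a6 | a6
      · exact a5 (av_empty.1 a6)
      rcases av_last {s} a6 with a7 | rfl | ⟨_, q, rfl, -, a7, a8⟩
      · exact a3 ⟨k5.1.trans ((pbase_r a7).mono le_rfl fun _ _ e _ _ => e.1),
          Av.head (pbase_r a7).not_mem_right a2 a1.2⟩
      · exact a5 .refl
      · exact a5 (.head a7 (av_empty.1 (pbase_l a8)))
    · exact h2 (Or.inl ⟨u, e', mt sc_rv.1 e, pdom_rv.2 ⟨fun e => hu (Or.inl e.symm), fun a =>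
        k3 (pgev_off (a.trans (pgev_in h.fl.sc e e')) rfl)⟩⟩)
  have k7 := pgev_first h.gr (h.gr.mem _ _ hb.1).1 w
  have k8 : x' ≠ u := fun e => k3 (e ▸ k7)
  have k9 := (h.fl.p1 u k6 ⟨k8, fun e => k3 (pgev_off e rfl)⟩).resolve_left fun e => hu (Or.inl e)
  rcases av_first ({x} ∪ {s}) (av_empty.2 k') with e | (e | e) | ⟨p, c, hc, a1, a2, -⟩
  · exact e.not_mem_right (Or.inr (Or.inr rfl))
  · exact hu (Or.inl e)
  · exact k6.2.1 e
  have a3 : Av (fun a b => D a b ∧ ¬ (a = u ∧ b = w)) ({x} ∪ {s}) u p :=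
    (pbase_r a1).mono le_rfl fun _ _ e ha hb =>
      ⟨(h.old e.1 (fun e => ha (Or.inr e)) fun e => hb (Or.inr e)).1, e.2⟩
  have a4 : D p c := h.old' a2.1 (fun e => a3.not_mem_right (Or.inr e))
    fun e => a3.not_mem_right (Or.inl e)
  rcases hc with rfl | rfl
  · refine k3 ((k7.trans ((av_empty.1 (pgev_sub a3 (Set.empty_subset _))).tail ⟨a4, a2.2⟩)).trans
      (pgev_off (h.thru (B := {u}) ?_ k8) rfl))
    rintro _ rfl
    exact hu
  · exact k9.2 (((pbase_l a3).mono le_rfl fun _ _ e _ _ => e.1).tail a4 h.xs.symm)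

theorem cyc {B : Set α} {u : α} (k : CycA D1 B u) (hs : s ∈ B) :
    CycA D B u ∧ ¬ (u = x ∨ u ∈ X) := by
  obtain ⟨v, k1, k2⟩ := k
  have e := h.old k1 (fun e => k2.not_mem_right (e ▸ hs)) fun e => k2.1 (e ▸ hs)
  exact ⟨⟨v, e.1, h.avo k2 hs⟩, e.2⟩

theorem dg {u z : α} (k : CycA D1 {s} u) (z1 : z ≠ u) (z2 : z ≠ s) (z3 : ¬ CycA D {s, z} u)
    (z4 : dom D s z u) : dom D1 s z u ∨ pdom D1 s z u := by
  refine or_iff_not_imp_left.2 fun a => ⟨z1.symm, fun a' => ?_⟩
  have ux : u ≠ x := fun e => (h.cyc k rfl).2 (Or.inl e)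
  have k1 := (pgev_last (fun a b => h.cas) (not_not.1 fun e => a ⟨z1.symm, e⟩)).resolve_left z4.2
  have k2 : dom D s z x' := ⟨fun e => k1.1 (Or.inl e), fun e => z4.2 (e.trans (pbase_l k1))⟩
  have k3 : Av D1 {s} u z ∧ Av D1 {s} z u := by
    obtain ⟨v, b1, b2⟩ := k
    rcases av_first {z} b2 with e | rfl | ⟨p, _, rfl, b3, b4, b5⟩
    · exact (z3 (h.cyc ⟨v, b1, pgev_sub e fun _ e => e⟩ (Or.inl rfl)).1).elim
    · exact ⟨(av_refl b2.not_mem_right).tail b1 z2, b2⟩
    · exact ⟨Av.head b2.not_mem_right b1 ((pbase_l b3).tail b4 z2), b5⟩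
  have k4 := (h.cyc (pgev_cyc k3.2 z1 k3.1) rfl).2
  have k5 : Sc D s x z := h.fl.sc.trans
    ⟨(pbase_r k1).trans (h.avo k3.1 rfl), (h.gr.av_of_dom h.rev.xV z2 k2).2⟩
  have k6 := (h.fl.p1 z k5 k2).resolve_left fun e => k4 (Or.inl e)
  rcases av_first ({x} ∪ {s}) a' with e | (e | e) | ⟨p, c, hc, a1, a2, -⟩
  · exact e.not_mem_right (Or.inr (Or.inr rfl))
  · exact ux e
  · exact k.not_mem e
  have a3 := h.avo a1 (Or.inr (Or.inr rfl))
  have a4 : D p c := h.old' a2 (fun e => a3.not_mem_right (Or.inr (Or.inr e)))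
    fun e => a3.not_mem_right (Or.inr (Or.inl e))
  rcases hc with rfl | rfl
  · refine z3 (pgev_cyc ((pgev_sub a3 ?_).tail a4 ?_) ux ((h.thru ?_ ?_).trans (pgev_sub k1 ?_)))
    · exact fun _ e => e.elim (fun e => Or.inr (Or.inr e)) Or.inl
    · exact fun e => e.elim h.xs fun e => k4 (Or.inl e.symm)
    · rintro _ (rfl | rfl)
      exacts [fun e => e.elim h.xs.symm h.sX, k4]
    · exact fun e => e.elim h.ys k2.1
    · exact fun _ e => e.symm
  · exact k6.2 ((h.avx k3.2 ux).trans ((pbase_l (pbase_r a3)).tail a4 h.xs.symm))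

theorem memr {a b : α} (k : D1 a b) : a ∈ V \ X := by
  rcases (h.d1 a b).1 k with ⟨rfl, -⟩ | ⟨rfl, -⟩ | ⟨k1, k2⟩
  · exact mem_sdiff.2 ⟨h.xV, h.xX⟩
  · exact mem_sdiff.2 ⟨h.gr.root, h.sX⟩
  · exact mem_sdiff.2 ⟨(h.gr.mem _ _ k1).1, fun e => k2 (Or.inr e)⟩

theorem fwd (y : α) (hy : y ∈ V \ X) : Relation.ReflTransGen D1 s y :=
  av_empty.1 (h.fw (av_empty.2 (h.gr.fwd y (mem_sdiff.1 hy).1)) (mem_sdiff.1 hy).2)

theorem good (h1 : ¬ CCase D s x) (h2 : ¬ CCase (rv D) s x) : GR (V \ X) D1 s := by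
  refine ⟨mem_sdiff.2 ⟨h.gr.root, h.sX⟩, fun a b k => ⟨h.memr k, h.rev.memr k⟩, fun a k => ?_,
    h.fwd, fun y hy => (h.rev.fwd y hy).swap, fun u w k => ?_, fun u k => ?_⟩
  · rcases (h.d1 a a).1 k with ⟨rfl, e⟩ | ⟨rfl, e⟩ | ⟨e, -⟩
    exacts [h.xs e, h.ys e.symm, h.gr.irr a e]
  · rcases (h.d1 u w).1 k with ⟨rfl, rfl⟩ | ⟨rfl, rfl⟩ | ⟨k1, k2⟩
    · exact Or.inr h.ibr
    · exact Or.inl (ibr_rv.1 h.rev.ibr)
    · rcases h.gr.cr u w k1 with e | e
      · exact h.br h2 k2 e
      · exact (h.rev.br (fun e => h1 (CCase.of_sc e h.fl.sc.symm)) (mt (h.cl u w k1).2 k2)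
          (obr_rv.2 e)).symm.imp ibr_rv.1 obr_rv.1
  · obtain ⟨z, z1, z2, z3, z4⟩ := h.gr.dg u (h.cyc k rfl).1
    refine ⟨z, z1, z2, fun e => z3 (h.cyc e (Or.inl rfl)).1, z4.elim (h.dg k z1 z2 z3) fun e => ?_⟩
    exact (h.rev.dg (cycA_rv.2 k) z1 z2 (mt cycA_rv.1 z3) (dom_rv.2 e)).symm.imp pdom_rv.1 dom_rv.1

end pgev_S

theorem pgev_obr (h : GR V D s) {x y : α} (h1 : D x y) (h2 : dom D s x y) : OBr D s x y := by
  refine (h.cr x y h1).elim id fun k => ⟨h1, fun k1 => ?_⟩
  rcases av_last {x} (av_empty.2 k1) with e | e | ⟨_, q, rfl, -, a1, a2⟩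
  · exact h2.2 ((pbase_r e).mono le_rfl fun _ _ e _ _ => e.1)
  · exact h2.1 e
  · exact k.2 (.head a1 ((av_empty.1 (pbase_l a2)).trans (av_empty.1
      ((pgev_arc _ y (av_empty.2 (h.bwd y (h.mem _ _ h1).2))).elim id id))))

end aux

theorem GR.flink_closed (h : GR V D s) {x x' : α} (hl : FLink D s x x') :
    s ∉ linkX V D x x' ∧ x ∉ linkX V D x x' ∧ x' ∉ linkX V D x x' ∧
    (∀ w y, (w = x ∨ w ∈ linkX V D x x') → D w y → y = x' ∨ y ∈ linkX V D x x') ∧
    (∀ w y, (y = x' ∨ y ∈ linkX V D x x') → D w y → w = x ∨ w ∈ linkX V D x x') ∧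
    (∀ y ∈ linkX V D x x', pdom D s x' y ∧ dom D s x y ∧ Av D {x, s} y x') := by
  have hX : ∀ y, y ∈ linkX V D x x' ↔ y ∈ V ∧ y ≠ x ∧ Av D {x'} x y := fun y => mem_filter
  have xs : x ≠ s := hl.sc.1.1
  have ys : x' ≠ s := hl.sc.2.1
  have up : ∀ w, Av D {x'} x w → Av D {s, x'} x w := fun w k => by
    rcases av_first {s} k with e | e | ⟨p, _, rfl, k1, k2, k3⟩
    · exact pgev_sub e fun _ e => e.symm
    · exact (xs e).elim
    · exact (hl.pd.2 ((pbase_l k1).tail k2 k3.1)).elim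
  have h6 : ∀ y ∈ linkX V D x x', Av D {x, s} y x' := fun y hy => by
    obtain ⟨y1, y2, y3⟩ := (hX y).1 hy
    rcases av_first ({s, x'} ∪ {x}) (av_empty.2 (h.bwd y y1)) with e | (e | e) |
      ⟨p, c, (rfl | rfl) | rfl, k1, k2, -⟩
    · exact (e.not_mem_right (Or.inr (Or.inl (Or.inl rfl)))).elim
    · exact ((up y y3).not_mem_right e).elim
    · exact (y2 e).elim
    · exact (hl.pd.2 (y3.trans ((pgev_sub k1 fun _ e => Or.inr (Or.inl (Or.inr e))).tail k2
        ys.symm))).elim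
    · exact (pgev_sub k1 fun _ e => Or.inr (e.elim Or.inr fun e => Or.inl (Or.inl e))).tail k2
        fun e => e.elim hl.dm.1 ys
    · exact (hl.c1 (pgev_cyc' ((up y y3).trans (pbase_l (pbase_r k1))) k2)).elim
  refine ⟨fun k => hl.pd.2 ((hX s).1 k).2.2, fun k => ((hX x).1 k).2.1 rfl,
    fun k => ((hX x').1 k).2.2.not_mem_right rfl, fun w y hw k => ?_, fun w y hy k => ?_,
    fun y hy => ?_⟩
  · have k1 : Av D {x'} x w := hw.elim (fun e => by rw [e]; exact av_refl hl.pd.1)
      fun e => ((hX w).1 e).2.2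
    refine or_iff_not_imp_left.2 fun e => (hX y).2 ⟨(h.mem _ _ k).2, ?_, k1.tail k e⟩
    rintro rfl
    exact hl.c1 (pgev_cyc' (up w k1) k)
  · have k1 : Av D {x, s} y x' :=
      hy.elim (fun e => by rw [e]; exact av_refl fun e => e.elim hl.dm.1 ys) (h6 y)
    have k2 : Av D {x} y x' := pgev_sub k1 fun _ => Or.inl
    have k3 : Av D {s, x} y x' := pgev_sub k1 fun _ e => e.symm
    refine or_iff_not_imp_left.2 fun e => (hX w).2 ⟨(h.mem _ _ k).1, e, ?_⟩
    rcases av_last ({s, x} ∪ {x'}) (av_empty.2 (h.fwd w (h.mem _ _ k).1)) with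
      e' | ((rfl | e') | rfl) | ⟨c, p, (rfl | rfl) | rfl, -, k4, k5⟩
    · exact (e'.1 (Or.inr (Or.inl (Or.inl rfl)))).elim
    · exact (hl.dm.2 (Av.head e k k2)).elim
    · exact (e e').elim
    · exact (hl.c2 ⟨y, k, k3⟩).elim
    · exact (hl.dm.2 (Av.head xs.symm k4 ((pgev_sub k5 fun _ e =>
        Or.inr (Or.inl (Or.inr e))).trans (Av.head e k k2)))).elim
    · exact Av.head hl.pd.1 k4 (pbase_r (pbase_r k5))
    · exact (hl.c2 ⟨p, k4, ((pbase_l (pbase_r k5)).tail k k3.1).trans k3⟩).elim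
  · obtain ⟨y1, y2, y3⟩ := (hX y).1 hy
    exact ⟨⟨y3.not_mem_right, fun e => hl.pd.2 (y3.trans e)⟩,
      ⟨y2, fun e => hl.dm.2 (e.trans (pgev_sub (h6 y hy) fun _ => Or.inl))⟩, h6 y hy⟩

theorem pgev_mk (h : GR V D s) {x x' : α} (hl : FLink D s x x') :
    pgev_S V D s x x' (linkX V D x x') (linkD V D s x x') := by
  obtain ⟨h1, h2, h3, h4, h5, -⟩ := h.flink_closed hl
  exact ⟨h, hl, h1, h2, h3, fun w y k => ⟨fun e => h4 w y e k, fun e => h5 w y e k⟩,
    fun u w => by rw [linkD, not_or]⟩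

theorem GR.gev_good (h : GR V D s) {x x' : α} (hl : FLink D s x x') (h1 : ¬ CCase D s x)
    (h2 : ¬ CCase (rv D) s x) : GR (V \ linkX V D x x') (linkD V D s x x') s := by
  exact (pgev_mk h hl).good h1 h2

theorem GR.gev (h : GR V D s) {x x' : α} (hl : FLink D s x x') (h1 : ¬ CCase D s x)
    (h2 : ¬ CCase (rv D) s x) :
    (∃ c : OCode α, GDat V D s (V \ linkX V D x x') (linkD V D s x x') {x} (fun _ => x')
      (fun _ => linkX V D x x') (fun _ => c)) ∧
    (∀ u, CycA (linkD V D s x x') {s} u → CycA D {s} u ∧ u ≠ x) ∧ CycA D {s} x := by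
  have S := pgev_mk h hl
  have h6 := (h.flink_closed hl).2.2.2.2.2
  have hV : linkX V D x x' ⊆ V := filter_subset _ _
  generalize linkX V D x x' = X at *
  generalize linkD V D s x x' = D1 at *
  refine ⟨?_, fun u k => ⟨(S.cyc k rfl).1, fun e => (S.cyc k rfl).2 (Or.inl e)⟩,
    pgev_cyc hl.sc.1 S.xy hl.sc.2⟩
  obtain ⟨f, hf⟩ : ∃ f : Option α, ∀ u, f = some u ↔ OBr D s u x' := by
    by_cases e : ∃ u, OBr D s u x'
    · obtain ⟨u, e⟩ := e
      exact ⟨some u, fun v => ⟨fun k => Option.some.inj k ▸ e,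
        fun k => congrArg _ (h.obr_unique e k)⟩⟩
    · exact ⟨none, fun v => ⟨fun k => (by cases k), fun k => (e ⟨v, k⟩).elim⟩⟩
  obtain ⟨c, c1, -, -, -, -, -, c2, c3⟩ := h.exists_code (a := x) (g := x') (P := X) (Y := {x'})
    (f := f) hV S.sX S.xX S.yX (fun w y hy k => ((S.cl w y k).2 (Or.inr hy)).symm)
    (fun y k => ((S.cl x y k).1 (Or.inl rfl)).elim
      (fun e => Or.inr ⟨(hf x).2 (pgev_obr h (e ▸ k) hl.dm), e⟩)
      fun e => Or.inl ⟨e, pgev_obr h k (h6 y e).2.1⟩)
    (fun u k => ⟨((hf u).1 k).1, ((S.cl u x' ((hf u).1 k).1).2 (Or.inl rfl)).imp_right fun e =>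
      ⟨e, fun ⟨_, y, _, k1, _, k2⟩ => k2 ((k1 x').1 ((hf u).1 k).1 ▸ (hf u).1 k)⟩⟩)
    (fun u hu y hy k => by
      obtain rfl := ((S.cl u y k).1 (Or.inr hu)).resolve_right hy
      exact (em _).imp (fun e => ⟨(hf u).2 e, rfl⟩) fun e => ⟨mem_singleton_self _, e⟩)
  have ns : ¬ (s = x ∨ s ∈ X) := fun e => e.elim S.xs.symm S.sX
  refine ⟨c, ⟨by simp, fun y hy => ?_, sdiff_subset, ?_, by simp, fun y hy => ?_, fun u w => ?_⟩,
    S.good h1 h2, fun z _ w hw k => ⟨k.1, fun e => k.2 (S.fw e (mem_sdiff.1 hw).2)⟩,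
    fun z _ w hw k => ⟨k.1, fun e => k.2 (av_rv.1 (S.rev.fw (av_rv.2 e) (mem_sdiff.1 hw).2))⟩,
    fun y hy => ?_, ?_⟩
  · obtain rfl := mem_singleton.1 hy
    exact ⟨S.snk, S.rev.snk⟩
  · rw [singleton_biUnion, Finset.sdiff_sdiff_eq_self hV]
  · obtain rfl := mem_singleton.1 hy
    exact c1
  · simp only [mem_singleton, exists_eq_left, c2]
    constructor
    · intro k
      by_cases e : u = x ∨ u ∈ X
      · exact Or.inl ⟨e.symm, k⟩
      · refine Or.inr ⟨(S.d1 u w).2 (Or.inr (Or.inr ⟨k, e⟩)), fun e' => e (Or.inl e'), ?_⟩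
        exact fun e' => e ((S.cl u w k).2 (Or.inl e'.2))
    · rintro (k | ⟨k1, k2, k3⟩)
      · exact k.2
      · exact ((((S.d1 u w).1 k1).resolve_left fun e => k2 e.1).resolve_left k3).1
  · obtain rfl := mem_singleton.1 hy
    exact ⟨S.xs, S.ys, hl.pd, hl.dm, fun z hz => ⟨(h6 z hz).1, (h6 z hz).2.1⟩⟩
  · have e1 := card_filter_add_card_filter_not (s := univ.filter fun p : α × α => D p.1 p.2)
      fun p => p.1 ∈ X ∨ p.1 = x
    rw [filter_filter, filter_filter] at e1
    have e2 : narc D1 = (univ.filter fun p : α × α => D p.1 p.2 ∧ ¬ (p.1 ∈ X ∨ p.1 = x)).card +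
        1 + 1 := by
      rw [← card_insert_of_notMem (a := (s, x')), ← card_insert_of_notMem (a := (x, s)), narc]
      · congr 1
        ext ⟨u, w⟩
        simp only [mem_filter, mem_univ, true_and, mem_insert, Prod.mk.injEq, S.d1,
          or_comm (a := u = x)]
      · simp [S.xs]
      · simp only [mem_filter, mem_univ, true_and]
        exact fun k => ns ((S.cl _ _ k.1).2 (Or.inl rfl))
    have e3 := card_sdiff_add_card_eq_card hV
    simp only [and_comm (a := D _ _)] at e1 e2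
    rw [card_singleton, sum_singleton, e2, narc]
    omega

end Pool.Agent.Work.MP_5391ad_co
end

-- merged part: Pool.Agent.Work.MP_5391ad_co.OCnt
section
/-! Counting codes with a given set of hubs, by tilting. Put `v = |H|`, `e = |P \ H|`,
`n0 = #{x ∈ H | par x = none}`, `nc = #{x ∈ H | tgt x = none}`, `j = #{x ∈ P | tgt x ∈ H}`.
For a valid code `σ ^ (v / 2) ≤ σ ^ (n0 + nc)` (`size`; with `pos` also `σ ^ 1`), and
`1 ≤ r ^ j / (r ^ 2) ^ n0` (`two`). So the left side is at most the sum over the codes of the weight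
`(σ / r^2)^n0 σ^nc r^j`, which is a product over the vertices. A code is determined by
`frc ∈ {none} ∪ H ∪ {a}` (at most `v + 2` values) and the pairs `(par x, tgt x)`, `x ∈ P`; embed
the codes in a `Fintype.piFinset` and use `Finset.prod_univ_sum` / `Finset.sum_prod_piFinset`.
`val0_card`: a hub has total weight `≤ (σ/r^2 + v + 1) (σ + r v + 1)`, an ear `≤ (v+1)(r v + 1)`.
`valC_card`: fix also the set `N ⊆ H` of hubs without target, `|N| = nc`. Let `S Y` be the family of
all `(frc, par, tgt)` with: hubs in `N` have no target, hubs in `H \ N` have a target in `H ∪ Y`,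
an ear has (parent in `insert a H`, target in `H`) or (parent in `N`, target in `Y \ H`). Valid codes
lie in `S Y \ S ∅` (`opn`, `ext`), `S ∅ ⊆ S Y`, the weight of `S Y` is
`f * (σ/r^2 + p)^v σ^nc (r v + l')^(v-nc) (p v r + nc l')^e` with `p = |insert a H| ≤ v + 1`,
`f = p + 1`, `l' = |Y \ H| ≤ l`, and `(A + x)^i (B + y)^e - A^i B^e` is monotone in
`B, x, y ≥ 0` (expand, or induct). -/

namespace Pool.Agent.Work.MP_5391ad_co

open Finset
open scoped Classical

/-- tilted bound for the codes of the link phase -/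
noncomputable def gB (σ r : ℝ) (e v : ℕ) : ℝ :=
  (v + 2) * (σ / r ^ 2 + v + 1) ^ v * (σ + r * v + 1) ^ v * ((v + 1) * (r * v + 1)) ^ e

/-- tilted bound for the codes of the column phase -/
noncomputable def cB (σ r l : ℝ) (e v : ℕ) : ℝ :=
  (v + 2) * (σ / r ^ 2 + v + 1) ^ v * ∑ nc ∈ range (v + 1), (v.choose nc : ℝ) * σ ^ nc *
    ((r * v + l) ^ (v - nc) * ((v + 1) * v * r + nc * l) ^ e -
      (r * v) ^ (v - nc) * ((v + 1) * v * r) ^ e)

variable {α : Type*} [Fintype α]

theorem ocnt_mono {A x x' B B' y y' : ℝ} (hA : 0 ≤ A) (hx : 0 ≤ x) (hx' : x ≤ x') (hB : 0 ≤ B)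
    (hB' : B ≤ B') (hy : 0 ≤ y) (hy' : y ≤ y') (i e : ℕ) :
    0 ≤ (A + x) ^ i * (B + y) ^ e - A ^ i * B ^ e ∧
      (A + x) ^ i * (B + y) ^ e - A ^ i * B ^ e ≤ (A + x') ^ i * (B' + y') ^ e - A ^ i * B' ^ e := by
  have h0 := hB.trans hB'
  have h1 : ∀ e : ℕ, 0 ≤ (B + y) ^ e - B ^ e := fun e => sub_nonneg.2 (by gcongr; linarith only [hy])
  have h2 : (B + y) ^ e - B ^ e ≤ (B' + y) ^ e - B' ^ e := by
    induction e with
    | zero => simp
    | succ e ih =>
      have h3 : ∀ B : ℝ, (B + y) ^ (e + 1) - B ^ (e + 1) =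
        (B + y) * ((B + y) ^ e - B ^ e) + y * B ^ e := fun B => by ring
      have := h1 e
      rw [h3, h3]
      gcongr
  have h3 : 0 ≤ (A + x) ^ i - A ^ i := sub_nonneg.2 (by gcongr; linarith)
  have h4 : ∀ B : ℝ, (A + x) ^ i * (B + y) ^ e - A ^ i * B ^ e =
    ((A + x) ^ i - A ^ i) * (B + y) ^ e + A ^ i * ((B + y) ^ e - B ^ e) := fun B => by ring
  have h5 := h1 e
  refine ⟨by rw [h4]; positivity, le_trans (b := (A + x) ^ i * (B' + y) ^ e - A ^ i * B' ^ e) ?_ ?_⟩
  · rw [h4, h4]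
    gcongr
  · have := hx.trans hx'
    gcongr

section

omit [Fintype α]

/-- weight of a parent option -/
noncomputable def ocnt_a (σ r : ℝ) (H : Finset α) (x : α) (p : Option α) : ℝ :=
  if x ∈ H ∧ p = none then σ / r ^ 2 else 1

/-- weight of a target option -/
noncomputable def ocnt_b (σ r : ℝ) (H : Finset α) (x : α) (t : Option α) : ℝ :=
  (if x ∈ H ∧ t = none then σ else 1) * if ∃ y ∈ H, t = some y then r else 1

/-- weight of an option -/
noncomputable def ocnt_w (σ r : ℝ) (H : Finset α) (x : α) (o : Option α × Option α) : ℝ :=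
  ocnt_a σ r H x o.1 * ocnt_b σ r H x o.2

/-- the options in the column phase -/
noncomputable def ocnt_O (a : α) (H Y N : Finset α) (x : α) : Finset (Option α × Option α) :=
  if x ∈ H then insertNone (insert a H) ×ˢ (if x ∈ N then {none} else (H ∪ Y).map .some)
  else (insert a H).map .some ×ˢ H.map .some ∪ N.map .some ×ˢ (Y \ H).map .some

theorem ocnt_nonneg {σ r : ℝ} (hσ : 1 ≤ σ) (hr : 1 ≤ r) (H : Finset α) (x : α)
    (o : Option α × Option α) : 0 ≤ ocnt_w σ r H x o := by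
  unfold ocnt_w ocnt_a ocnt_b
  split_ifs <;> positivity

theorem ocnt_some {o : Option α} {Z : Finset α} (h : o ≠ none) (h' : ∀ u, o = some u → u ∈ Z) :
    o ∈ Z.map .some := by
  obtain ⟨u, hu⟩ := Option.ne_none_iff_exists'.1 h
  exact mem_map.2 ⟨u, h' u hu, hu.symm⟩

variable (σ r : ℝ) {H : Finset α} {x : α}

theorem ocnt_prod (A B : Finset (Option α)) : ∑ o ∈ A ×ˢ B, ocnt_w σ r H x o =
    (∑ p ∈ A, ocnt_a σ r H x p) * ∑ t ∈ B, ocnt_b σ r H x t := by
  rw [sum_mul_sum, sum_product]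
  rfl

theorem ocnt_a1 (hx : x ∈ H) (A : Finset α) :
    ∑ p ∈ insertNone A, ocnt_a σ r H x p = σ / r ^ 2 + A.card := by
  simp [sum_insertNone, ocnt_a, hx]

theorem ocnt_a2 (A : Finset α) : ∑ p ∈ A.map .some, ocnt_a σ r H x p = A.card := by
  simp [ocnt_a]

theorem ocnt_b0 (hx : x ∈ H) : ocnt_b σ r H x none = σ := by
  simp [ocnt_b, hx]

theorem ocnt_b1 : ∑ t ∈ H.map .some, ocnt_b σ r H x t = H.card * r := by
  rw [sum_map, sum_congr rfl fun y hy => show _ = r by simp [ocnt_b, hy], sum_const, nsmul_eq_mul]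

theorem ocnt_b2 (Y : Finset α) : ∑ t ∈ (Y \ H).map .some, ocnt_b σ r H x t = (Y \ H).card := by
  rw [sum_map, sum_congr rfl fun y hy => show _ = (1 : ℝ) by simp [ocnt_b, (mem_sdiff.1 hy).2],
    sum_const, nsmul_eq_mul, mul_one]

theorem ocnt_b3 (Y : Finset α) :
    ∑ t ∈ (H ∪ Y).map .some, ocnt_b σ r H x t = r * H.card + (Y \ H).card := by
  rw [← union_sdiff_self_eq_union, map_union, sum_union ((disjoint_map _).2 disjoint_sdiff),
    ocnt_b1, ocnt_b2, mul_comm]

theorem ocnt_wt {σ r : ℝ} (hσ : 1 ≤ σ) (hr : 1 ≤ r) {a : α} {P Y : Finset α} {c : OCode α}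
    (h : Val0 a P Y c) : σ ^ c.dfc ≤ ∏ x ∈ P, ocnt_w σ r c.H x (c.par x, c.tgt x) := by
  have e : ∀ f : α → Option α, (P.filter fun x => x ∈ c.H ∧ f x = none) =
      c.H.filter fun x => f x = none := fun f => by
    ext x
    simp only [mem_filter]
    exact ⟨fun k => k.2, fun k => ⟨h.sub k.1, k⟩⟩
  simp only [ocnt_w, ocnt_a, ocnt_b, prod_mul_distrib, ← prod_filter, prod_const, e]
  rw [OCode.dfc, pow_add, div_pow, ← pow_mul, ← mul_assoc, div_mul_eq_mul_div,
    div_mul_eq_mul_div, le_div_iff₀ (by positivity)]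
  gcongr
  exact h.two

end

/-- all choices of options -/
noncomputable def ocnt_S (P : Finset α) (O : α → Finset (Option α × Option α)) :
    Finset (α → Option α × Option α) :=
  Fintype.piFinset fun x => if x ∈ P then O x else {(none, none)}

theorem ocnt_mem {a : α} {P Y : Finset α} {c : OCode α} (h : Val0 a P Y c)
    {O : α → Finset (Option α × Option α)} (hO : ∀ x ∈ P, (c.par x, c.tgt x) ∈ O x) :
    (fun x => (c.par x, c.tgt x)) ∈ ocnt_S P O := by
  refine Fintype.mem_piFinset.2 fun x => ?_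
  split_ifs with k
  · exact hO x k
  · rw [(h.out x k).1, (h.out x k).2, mem_singleton]

theorem ocnt_pi (P : Finset α) (O : α → Finset (Option α × Option α))
    (w : α → Option α × Option α → ℝ) :
    ∑ φ ∈ ocnt_S P O, ∏ x ∈ P, w x (φ x) = ∏ x ∈ P, ∑ o ∈ O x, w x o := by
  have h1 := prod_univ_sum (fun x => if x ∈ P then O x else {(none, none)})
    (fun x o => if x ∈ P then w x o else 1)
  simp only [prod_ite_mem, univ_inter] at h1
  rw [ocnt_S, ← h1, ← univ_inter P, ← prod_ite_mem, univ_inter]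
  refine prod_congr rfl fun v _ => ?_
  split_ifs with h
  · rfl
  · exact sum_singleton _ _

theorem ocnt_sum (σ r : ℝ) (a : α) (Y : Finset α) {P H N : Finset α} (hH : H ⊆ P) (hN : N ⊆ H) :
    ∑ φ ∈ ocnt_S P (ocnt_O a H Y N), ∏ x ∈ P, ocnt_w σ r H x (φ x) =
      (σ / r ^ 2 + (insert a H).card) ^ H.card * (σ ^ N.card *
        ((r * H.card + (Y \ H).card) ^ (H.card - N.card) *
          ((insert a H).card * H.card * r + N.card * (Y \ H).card) ^ (P.card - H.card))) := by
  have e1 : ∀ x ∈ P \ H, ∑ o ∈ ocnt_O a H Y N x, ocnt_w σ r H x o =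
      (insert a H).card * H.card * r + N.card * (Y \ H).card := fun x hx => by
    rw [ocnt_O, if_neg (mem_sdiff.1 hx).2,
      sum_union (disjoint_product.2 (Or.inr ((disjoint_map _).2 disjoint_sdiff))), ocnt_prod,
      ocnt_prod, ocnt_a2, ocnt_a2, ocnt_b1, ocnt_b2, mul_assoc]
  have e2 : ∀ x ∈ H \ N, ∑ o ∈ ocnt_O a H Y N x, ocnt_w σ r H x o =
      (σ / r ^ 2 + (insert a H).card) * (r * H.card + (Y \ H).card) := fun x hx => by
    rw [ocnt_O, if_pos (mem_sdiff.1 hx).1, if_neg (mem_sdiff.1 hx).2, ocnt_prod,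
      ocnt_a1 _ _ (mem_sdiff.1 hx).1, ocnt_b3]
  have e3 : ∀ x ∈ N, ∑ o ∈ ocnt_O a H Y N x, ocnt_w σ r H x o =
      (σ / r ^ 2 + (insert a H).card) * σ := fun x hx => by
    rw [ocnt_O, if_pos (hN hx), if_pos hx, ocnt_prod, ocnt_a1 _ _ (hN hx), sum_singleton,
      ocnt_b0 _ _ (hN hx)]
  rw [ocnt_pi, ← prod_sdiff hH, ← prod_sdiff hN, prod_congr rfl e1, prod_congr rfl e2,
    prod_congr rfl e3, prod_const, prod_const, prod_const, card_sdiff_of_subset hH,
    card_sdiff_of_subset hN, mul_pow, mul_pow,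
    ← pow_sub_mul_pow (σ / r ^ 2 + (insert a H).card) (card_le_card hN)]
  ring

theorem ocnt_le {σ r : ℝ} (hσ : 1 ≤ σ) (hr : 1 ≤ r) {a : α} {P H Y : Finset α} (_ : H ⊆ P)
    {Cs : Finset (OCode α)} {k : ℕ} (S : Finset (α → Option α × Option α))
    (h : ∀ c ∈ Cs, Val0 a P Y c ∧ c.H = H ∧ k ≤ c.dfc ∧ (fun x => (c.par x, c.tgt x)) ∈ S) :
    σ ^ k * (Cs.card : ℝ) ≤ (H.card + 2) * ∑ φ ∈ S, ∏ x ∈ P, ocnt_w σ r H x (φ x) := by
  have n : ∀ φ : α → Option α × Option α, 0 ≤ ∏ x ∈ P, ocnt_w σ r H x (φ x) := fun φ =>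
    prod_nonneg fun x _ => ocnt_nonneg hσ hr H x _
  calc σ ^ k * (Cs.card : ℝ) ≤ ∑ c ∈ Cs, ∏ x ∈ P, ocnt_w σ r H x (c.par x, c.tgt x) := by
        rw [mul_comm, ← nsmul_eq_mul]
        refine card_nsmul_le_sum _ _ _ fun c hc => ?_
        obtain ⟨h1, rfl, h3, -⟩ := h c hc
        exact (pow_le_pow_right₀ hσ h3).trans (ocnt_wt hσ hr h1)
    _ = ∑ q ∈ Cs.image fun c => (c.frc, fun x => (c.par x, c.tgt x)),
          ∏ x ∈ P, ocnt_w σ r H x (q.2 x) := by
        rw [sum_image]
        rintro ⟨a1, a2, a3, a4⟩ h1 ⟨b1, b2, b3, b4⟩ h2 e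
        obtain rfl : a1 = b1 := (h _ h1).2.1.trans (h _ h2).2.1.symm
        simp only [Prod.mk.injEq, funext_iff, forall_and] at e
        obtain ⟨rfl, e1, e2⟩ := e
        rw [funext e1, funext e2]
    _ ≤ ∑ q ∈ insertNone (insert a H) ×ˢ S, ∏ x ∈ P, ocnt_w σ r H x (q.2 x) := by
        refine sum_le_sum_of_subset_of_nonneg (image_subset_iff.2 fun c hc => ?_) fun q _ _ => n _
        obtain ⟨h1, rfl, -, h4⟩ := h c hc
        exact mem_product.2 ⟨mem_insertNone.2 fun u hu => mem_insert.2 (h1.frcm u hu).symm, h4⟩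
    _ ≤ _ := by
        rw [sum_product]
        simp only [sum_const, nsmul_eq_mul, card_insertNone]
        refine mul_le_mul_of_nonneg_right ?_ (sum_nonneg fun φ _ => n φ)
        exact_mod_cast Nat.succ_le_succ (card_insert_le a H)

theorem val0_card {σ r : ℝ} (hσ : 1 ≤ σ) (hr : 1 ≤ r) (a x' : α) {P H : Finset α} (hH : H ⊆ P) :
    σ ^ (H.card / 2) * ((univ.filter fun c : OCode α => Val0 a P {x'} c ∧ c.H = H).card : ℝ) ≤
      gB σ r (P.card - H.card) H.card := by
  have p1 : ((insert a H).card : ℝ) ≤ H.card + 1 := by exact_mod_cast card_insert_le a H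
  have p2 : (({x'} \ H).card : ℝ) ≤ 1 := by exact_mod_cast card_le_card (sdiff_subset (t := H))
  refine (ocnt_le hσ hr hH (a := a) (Y := {x'}) (ocnt_S P fun x => if x ∈ H then
    insertNone (insert a H) ×ˢ insertNone (H ∪ {x'}) else
      (insert a H).map .some ×ˢ (H ∪ {x'}).map .some) fun c hc => ?_).trans ?_
  · obtain ⟨h, rfl⟩ := (mem_filter.1 hc).2
    refine ⟨h, rfl, by have := h.size; omega, ocnt_mem h fun x hx => ?_⟩
    have k1 : ∀ u, c.par x = some u → u ∈ insert a c.H := fun u hu =>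
      mem_insert.2 (h.parm x u hu).symm
    have k2 : ∀ u, c.tgt x = some u → u ∈ c.H ∪ {x'} := fun u hu => mem_union.2 (h.tgtm x u hu)
    split_ifs with k
    · exact mem_product.2 ⟨mem_insertNone.2 k1, mem_insertNone.2 k2⟩
    · exact mem_product.2 ⟨ocnt_some (h.ear x hx k).1 k1, ocnt_some (h.ear x hx k).2 k2⟩
  rw [ocnt_pi, gB, mul_assoc, mul_assoc, ← mul_assoc (_ ^ _), ← mul_pow, ← prod_sdiff hH,
    mul_comm (∏ x ∈ P \ H, _), ← card_sdiff_of_subset hH, ← prod_const, ← prod_const]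
  have n1 := fun x (O : Finset (Option α × Option α)) =>
    sum_nonneg (s := O) fun o _ => ocnt_nonneg hσ hr H x o
  refine mul_le_mul_of_nonneg_left (mul_le_mul
    (prod_le_prod (fun x _ => n1 x _) fun x hx => ?_)
    (prod_le_prod (fun x _ => n1 x _) fun x hx => ?_) (prod_nonneg fun x _ => n1 x _)
    (prod_nonneg fun _ _ => by positivity)) (by positivity)
  · rw [if_pos hx, ocnt_prod, ocnt_a1 _ _ hx, sum_insertNone, ocnt_b0 _ _ hx,
      show ∑ y ∈ H ∪ {x'}, ocnt_b σ r H x (some y) = _ from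
        (sum_map _ .some _).symm.trans (ocnt_b3 σ r {x'}), add_assoc, add_assoc σ]
    gcongr
  · rw [if_neg (mem_sdiff.1 hx).2, ocnt_prod, ocnt_a2, ocnt_b3]
    gcongr

theorem valC_card {σ r l : ℝ} (hσ : 1 ≤ σ) (hr : 1 ≤ r) (a : α) {P H Y : Finset α} (hH : H ⊆ P)
    (hl : (Y.card : ℝ) ≤ l) :
    σ ^ (max 1 (H.card / 2)) *
        ((univ.filter fun c : OCode α => ValC a P Y c ∧ c.H = H).card : ℝ) ≤
      cB σ r l (P.card - H.card) H.card := by
  have p1 : ((insert a H).card : ℝ) ≤ H.card + 1 := by exact_mod_cast card_insert_le a H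
  have p2 : ((Y \ H).card : ℝ) ≤ l :=
    le_trans (by exact_mod_cast card_le_card sdiff_subset) hl
  rw [card_eq_sum_card_fiberwise (f := fun c : OCode α => H.filter fun x => c.tgt x = none)
    (t := H.powerset) fun c _ => mem_coe.2 (mem_powerset.2 (filter_subset _ _)), Nat.cast_sum,
    mul_sum, cB]
  simp only [← nsmul_eq_mul (H.card.choose _), smul_mul_assoc]
  rw [← sum_powerset_apply_card fun nc => σ ^ nc * ((r * H.card + l) ^ (H.card - nc) *
    ((H.card + 1) * H.card * r + nc * l) ^ (P.card - H.card) - (r * H.card) ^ (H.card - nc) *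
      ((H.card + 1) * H.card * r) ^ (P.card - H.card)), mul_sum]
  refine sum_le_sum fun N hN => ?_
  rw [mem_powerset] at hN
  refine (ocnt_le hσ hr hH (a := a) (Y := Y)
    (ocnt_S P (ocnt_O a H Y N) \ ocnt_S P (ocnt_O a H ∅ N)) fun c hc => ?_).trans ?_
  · obtain ⟨hc', rfl⟩ := mem_filter.1 hc
    obtain ⟨h, rfl⟩ := (mem_filter.1 hc').2
    refine ⟨h.toVal0, rfl, by have := h.size; have := h.pos; omega,
      mem_sdiff.2 ⟨ocnt_mem h.toVal0 fun x hx => ?_, fun k => ?_⟩⟩
    · have k1 : ∀ u, c.par x = some u → u ∈ insert a c.H := fun u hu =>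
        mem_insert.2 (h.parm x u hu).symm
      have k2 : ∀ u, c.tgt x = some u → u ∈ c.H ∪ Y := fun u hu => mem_union.2 (h.tgtm x u hu)
      unfold ocnt_O
      split_ifs with k k'
      · exact mem_product.2 ⟨mem_insertNone.2 k1, mem_singleton.2 (mem_filter.1 k').2⟩
      · exact mem_product.2 ⟨mem_insertNone.2 k1,
          ocnt_some (fun e => k' (mem_filter.2 ⟨k, e⟩)) k2⟩
      obtain ⟨e1, e2⟩ := h.ear x hx k
      obtain ⟨y, hy⟩ := Option.ne_none_iff_exists'.1 e2
      have k3 : ∀ {Z : Finset α}, y ∈ Z → c.tgt x ∈ Z.map .some := fun hZ =>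
        mem_map.2 ⟨y, hZ, hy.symm⟩
      by_cases k4 : y ∈ c.H
      · exact mem_union_left _ (mem_product.2 ⟨ocnt_some e1 k1, k3 k4⟩)
      · obtain ⟨u, u1, u2, u3⟩ := h.opn x hx k y hy k4
        exact mem_union_right _ (mem_product.2 ⟨mem_map.2 ⟨u, mem_filter.2 ⟨u1, u3⟩, u2.symm⟩,
          k3 (mem_sdiff.2 ⟨(h.tgtm x y hy).resolve_left k4, k4⟩)⟩)
    · obtain ⟨x, y, h1, h2⟩ := h.ext
      have := Fintype.mem_piFinset.1 k x
      unfold ocnt_O at this
      split_ifs at this <;> simp [h1, h2] at this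
  rw [sum_sdiff_eq_sub (s₁ := ocnt_S P (ocnt_O a H ∅ N)) (s₂ := ocnt_S P (ocnt_O a H Y N))
    (Fintype.piFinset_subset _ _ fun x => ?_), ocnt_sum σ r a Y hH hN,
    ocnt_sum σ r a ∅ hH hN, ← mul_sub, ← mul_sub, mul_assoc (H.card + 2 : ℝ)]
  · simp only [empty_sdiff, card_empty, Nat.cast_zero, mul_zero, add_zero]
    have p3 := ocnt_mono (A := r * H.card) (B := (insert a H).card * H.card * r)
      (B' := (H.card + 1) * H.card * r) (y := N.card * (Y \ H).card) (y' := N.card * l)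
      (by positivity) (Nat.cast_nonneg _) p2 (by positivity) (by gcongr) (by positivity)
      (by gcongr) (H.card - N.card) (P.card - H.card)
    rw [add_assoc (σ / r ^ 2)]
    exact mul_le_mul_of_nonneg_left (mul_le_mul (by gcongr)
      (mul_le_mul_of_nonneg_left p3.2 (by positivity)) (mul_nonneg (by positivity) p3.1)
      (by positivity)) (by positivity)
  · unfold ocnt_O
    split_ifs
    · exact subset_rfl
    · exact product_subset_product_right (map_subset_map.2 (by simp))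
    · exact union_subset_union_right (by simp)
    · exact subset_rfl

end Pool.Agent.Work.MP_5391ad_co
end

-- merged part: Pool.Agent.Work.MP_5391ad_co.OSum
section
/-! Generating functions of the codes. Put `a = z vm`, `c = z cap`, `X = cX`, `ρ = cR`, `σ = 1/ρ`
(`σ ≥ 1` by `h`, `X ≥ 10^5`), and for `1 ≤ v ≤ vm`: `r v = max 1 (1/(z v))`, so
`1 ≤ z r v ≤ 1 + a`, `σ / r^2 ≤ v + 1`, `z σ e^c ≤ 1`.
`exists_wC`: `w k v = ρ^(max 1 (v/2)) cB σ (r v) l (k - v) v` for `v ≥ 1`, `w k 0 = 0` (a code with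
`ValC` has `H ≠ ∅` by `pos`). With `k = v + e`, `z^k/k! C(k,v) = z^v/v! * z^e/e!`. Summing over `e`
(all terms are nonnegative; partial sums of `(B+y)^e/e! - B^e/e!` weighted as in `cB` are at most
the full sums): with `A = z r v ≥ 1`, `x = z l ≤ c`, `B = (v+1) z r v`, `y = nc x`,
`(A+x)^i e^(B+y) - A^i e^B ≤ (A+x)^i e^(B+y) (i x + y) ≤ (A+x)^i e^(B+y) v x`. Then
`∑_nc C(v,nc) (z σ e^x)^nc (A+x)^(v-nc) ≤ (1 + A + x)^v ≤ (2 (1+a)(1+c))^v`,
`(2(v+1))^v / v! ≤ (2 e^2)^v`, `e^B ≤ (e^2 e^(2a))^v`, `v + 2 ≤ 3^v`, `v ≤ 2^v`: the term of `v` is at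
most `X^v ρ^(max 1 (v/2)) z l`, and `∑_{v ≥ 1} X^v ρ^(max 1 (v/2)) ≤ 4 X^3 ρ`.
`exists_wG`: for `v = 0, 1` use `σ = r = 1`: the terms are `2 e^z` and `27 z e^(4z)`, and
`z ≤ ρ ≤ 10^(-15)`. For `v ≥ 2` as above the term is at most `X^v ρ^(v/2)`. -/

namespace Pool.Agent.Work.MP_5391ad_co

open Finset
open scoped Classical

theorem osum_shift {z : ℝ} (hz : 0 ≤ z) {f : ℕ → ℝ} (hf : ∀ e, 0 ≤ f e) (v K : ℕ) :
    ∑ k ∈ range K, z ^ k / k.factorial * ((k.choose v : ℝ) * f (k - v)) ≤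
      z ^ v / v.factorial * ∑ e ∈ range K, z ^ e / e.factorial * f e := by
  have h1 : ∑ k ∈ range K, z ^ k / k.factorial * ((k.choose v : ℝ) * f (k - v)) ≤
      ∑ k ∈ range (v + K), z ^ k / k.factorial * ((k.choose v : ℝ) * f (k - v)) :=
    sum_le_sum_of_subset_of_nonneg (range_subset_range.2 (Nat.le_add_left _ _)) fun k _ _ =>
      mul_nonneg (by positivity) (mul_nonneg (by positivity) (hf _))
  refine h1.trans (le_of_eq ?_)
  rw [sum_range_add, sum_eq_zero, zero_add, mul_sum]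
  · refine sum_congr rfl fun e _ => ?_
    rw [Nat.cast_add_choose, Nat.add_sub_cancel_left, pow_add]
    field_simp
  · intro k hk
    rw [Nat.choose_eq_zero_of_lt (mem_range.1 hk)]
    simp

theorem osum_exp_diff {p q B y : ℝ} (hq : 0 ≤ q) (hp : q ≤ p) (hB : 0 ≤ B) (hy : 0 ≤ y) (K : ℕ) :
    ∑ e ∈ range K, (p * (B + y) ^ e - q * B ^ e) / e.factorial ≤
      p * Real.exp (B + y) - q * Real.exp B := by
  have h1 := ((NormedSpace.expSeries_div_hasSum_exp (B + y)).mul_left p).sub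
    ((NormedSpace.expSeries_div_hasSum_exp B).mul_left q)
  rw [← Real.exp_eq_exp_ℝ] at h1
  have e : ∀ e : ℕ, (p * (B + y) ^ e - q * B ^ e) / e.factorial =
      p * ((B + y) ^ e / e.factorial) - q * (B ^ e / e.factorial) := fun e => by ring
  simp only [e]
  refine sum_le_hasSum _ (fun i _ => ?_) h1
  rw [← e]
  refine div_nonneg (sub_nonneg.2 ?_) (by positivity)
  have : B ≤ B + y := by linarith
  have := hq.trans hp
  gcongr

theorem osum_pow_diff {A x : ℝ} (hA : 1 ≤ A) (hx : 0 ≤ x) (i : ℕ) :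
    (A + x) ^ i - A ^ i ≤ i * x * (A + x) ^ i := by
  induction i with
  | zero => simp
  | succ i ih =>
    have h0 : 1 ≤ A + x := by linarith
    have h1 : A ^ i ≤ (A + x) ^ i := pow_le_pow_left₀ (by linarith) (by linarith) i
    have h2 : (A + x) ^ i ≤ (A + x) ^ (i + 1) := pow_le_pow_right₀ h0 (Nat.le_succ i)
    have h3 := mul_le_mul_of_nonneg_left ih (by linarith : 0 ≤ A + x)
    have h4 := mul_le_mul_of_nonneg_left (h1.trans h2) hx
    push_cast
    rw [pow_succ A] at *
    rw [pow_succ (A + x)] at *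
    linarith only [h3, h4]

theorem osum_key {A x B y : ℝ} (hA : 1 ≤ A) (hx : 0 ≤ x) (hy : 0 ≤ y) (i : ℕ) :
    (A + x) ^ i * Real.exp (B + y) - A ^ i * Real.exp B ≤
      (A + x) ^ i * Real.exp (B + y) * (i * x + y) := by
  have h1 := osum_pow_diff hA hx i
  have h2 : A ^ i ≤ (A + x) ^ i := pow_le_pow_left₀ (by linarith) (by linarith) i
  have h3 : Real.exp (B + y) - Real.exp B ≤ y * Real.exp (B + y) := by
    have h4 := Real.add_one_le_exp (-y)
    have h5 : Real.exp B = Real.exp (-y) * Real.exp (B + y) := by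
      rw [← Real.exp_add]
      congr 1
      ring
    have := mul_le_mul_of_nonneg_right h4 (Real.exp_pos (B + y)).le
    linarith
  have h6 := mul_le_mul_of_nonneg_right h1 (Real.exp_pos (B + y)).le
  have h7 : 0 ≤ A ^ i := pow_nonneg (by linarith) i
  have h8 := mul_le_mul_of_nonneg_left h3 h7
  have h9 := mul_le_mul_of_nonneg_right h2 (mul_nonneg hy (Real.exp_pos (B + y)).le)
  linarith only [h6, h8, h9]

theorem osum_hub {s : ℝ} {v : ℕ} (hv : 1 ≤ v) (h0 : 0 ≤ s) (hs : s ≤ v) :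
    ((v : ℝ) + 2) * (s + v + 1) ^ v / v.factorial ≤ 27 ^ v := by
  have hv' : (1 : ℝ) ≤ v := by exact_mod_cast hv
  have h1 : (v : ℝ) + 2 ≤ 3 ^ v := by
    have := one_add_mul_le_pow (by norm_num : (-2 : ℝ) ≤ 2) v
    norm_num at this
    linarith only [hv', this]
  have h2 : (s + v + 1) ^ v ≤ 3 ^ v * (v : ℝ) ^ v := by
    rw [← mul_pow]
    exact pow_le_pow_left₀ (by linarith only [h0, hv']) (by linarith) v
  have h3 : (v : ℝ) ^ v / v.factorial ≤ 3 ^ v := by
    refine (Real.pow_div_factorial_le_exp _ (by linarith) v).trans ?_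
    rw [← Real.exp_one_pow]
    exact pow_le_pow_left₀ (Real.exp_pos 1).le Real.exp_one_lt_three.le v
  calc ((v : ℝ) + 2) * (s + v + 1) ^ v / v.factorial
      ≤ 3 ^ v * (3 ^ v * (v : ℝ) ^ v) / v.factorial := by gcongr
    _ = 3 ^ v * 3 ^ v * ((v : ℝ) ^ v / v.factorial) := by ring
    _ ≤ 3 ^ v * 3 ^ v * 3 ^ v := by gcongr
    _ = 27 ^ v := by rw [← mul_pow, ← mul_pow]; norm_num

theorem osum_exp_le {t a : ℝ} {v m : ℕ} (h : t ≤ v * (m + 2 * a)) :
    Real.exp t ≤ (3 ^ m * Real.exp (2 * a)) ^ v := by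
  refine (Real.exp_le_exp.2 h).trans ?_
  rw [Real.exp_nat_mul, Real.exp_add, ← Real.exp_one_pow]
  gcongr
  exact Real.exp_one_lt_three.le

theorem osum_gB_nonneg {σ r : ℝ} (hσ : 0 ≤ σ) (hr : 0 ≤ r) (e v : ℕ) : 0 ≤ gB σ r e v := by
  unfold gB
  positivity

theorem osum_cB_nonneg {σ r l : ℝ} (hσ : 0 ≤ σ) (hr : 0 ≤ r) (hl : 0 ≤ l) (e v : ℕ) :
    0 ≤ cB σ r l e v := by
  unfold cB
  refine mul_nonneg (by positivity) (sum_nonneg fun nc _ => mul_nonneg (by positivity) ?_)
  refine sub_nonneg.2 ?_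
  have h1 : r * v ≤ r * v + l := by linarith
  have h2 : ((v : ℝ) + 1) * v * r ≤ (v + 1) * v * r + nc * l :=
    le_add_of_nonneg_right (by positivity)
  gcongr

theorem osum_gsum {z σ r : ℝ} (hz : 0 ≤ z) (hσ : 0 ≤ σ) (hr : 0 ≤ r) (v K : ℕ) :
    z ^ v / v.factorial * ∑ e ∈ range K, z ^ e / e.factorial * gB σ r e v ≤
      ((v : ℝ) + 2) * (σ / r ^ 2 + v + 1) ^ v / v.factorial * (z * (σ + r * v + 1)) ^ v *
        Real.exp (z * ((v + 1) * (r * v + 1))) := by
  have h1 := Real.sum_le_exp_of_nonneg (x := z * ((v + 1) * (r * v + 1))) (by positivity) K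
  refine le_trans (le_of_eq ?_) (mul_le_mul_of_nonneg_left h1 (by positivity))
  simp only [mul_sum]
  refine sum_congr rfl fun e _ => ?_
  unfold gB
  rw [mul_pow z, mul_pow z]
  ring

theorem osum_gterm {z σ r a : ℝ} {v : ℕ} (hv : 1 ≤ v) (hz : 0 ≤ z) (hz1 : z ≤ 1) (hσ : 0 ≤ σ)
    (hr : 0 ≤ r) (ha : 0 ≤ a) (hA : z * r * v ≤ 1 + a) (hs : σ / r ^ 2 ≤ v) (hzσ : z * σ ≤ 1)
    (K : ℕ) : z ^ v / v.factorial * ∑ e ∈ range K, z ^ e / e.factorial * gB σ r e v ≤
      (27 * (3 * (1 + a)) * (3 ^ 4 * Real.exp (2 * a))) ^ v := by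
  refine (osum_gsum hz hσ hr v K).trans ?_
  have hv' : (1 : ℝ) ≤ v := by exact_mod_cast hv
  have h1 := osum_hub hv (by positivity) hs
  have h2 : z * (σ + r * v + 1) ≤ 3 * (1 + a) := by linarith only [hz1, ha, hA, hzσ]
  have h3 : Real.exp (z * ((v + 1) * (r * v + 1))) ≤ (3 ^ 4 * Real.exp (2 * a)) ^ v := by
    refine osum_exp_le ?_
    have h4 : z * (r * v + 1) ≤ 2 + a := by linarith only [hz1, hA]
    have h5 : (v : ℝ) + 1 ≤ 2 * v := by linarith only [hv']
    calc z * ((v + 1) * (r * v + 1)) = (v + 1) * (z * (r * v + 1)) := by ring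
      _ ≤ (2 * v) * (2 + a) := by gcongr
      _ = v * ((4 : ℕ) + 2 * a) := by push_cast; ring
  rw [mul_pow _ (3 ^ 4 * Real.exp (2 * a)), mul_pow (27 : ℝ)]
  gcongr

theorem osum_cterm {z σ r l a c : ℝ} {v : ℕ} (hv : 1 ≤ v) (hz : 0 ≤ z) (hσ : 0 ≤ σ)
    (hl : 0 ≤ l) (ha : 0 ≤ a) (hA1 : 1 ≤ z * r * v) (hA : z * r * v ≤ 1 + a)
    (hc : z * l ≤ c) (hs : σ / r ^ 2 ≤ v) (hzσ : z * σ * Real.exp c ≤ 1) (K : ℕ) :
    z ^ v / v.factorial * ∑ e ∈ range K, z ^ e / e.factorial * cB σ r l e v ≤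
      (27 * (2 * (1 + a) * (1 + c)) * (3 ^ 2 * Real.exp (2 * a)) * 2) ^ v * (z * l) := by
  have hv' : (1 : ℝ) ≤ v := by exact_mod_cast hv
  have hx : 0 ≤ z * l := mul_nonneg hz hl
  have hc0 : 0 ≤ c := hx.trans hc
  have hid : z ^ v / v.factorial * ∑ e ∈ range K, z ^ e / e.factorial * cB σ r l e v =
      ((v : ℝ) + 2) * (σ / r ^ 2 + v + 1) ^ v / v.factorial *
        ∑ nc ∈ range (v + 1), (v.choose nc : ℝ) * (z * σ) ^ nc * ∑ e ∈ range K,
          ((z * r * v + z * l) ^ (v - nc) * ((v + 1) * (z * r * v) + nc * (z * l)) ^ e -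
            (z * r * v) ^ (v - nc) * ((v + 1) * (z * r * v)) ^ e) / e.factorial := by
    unfold cB
    simp only [mul_sum]
    rw [sum_comm]
    refine sum_congr rfl fun nc hnc => sum_congr rfl fun e _ => ?_
    have e1 : z * r * v + z * l = z * (r * v + l) := by ring
    have e2 : (v + 1) * (z * r * v) + nc * (z * l) = z * ((v + 1) * v * r + nc * l) := by ring
    have e3 : z * r * v = z * (r * v) := by ring
    have e4 : (v + 1) * (z * r * v) = z * ((v + 1) * v * r) := by ring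
    have e5 : z ^ v = z ^ nc * z ^ (v - nc) := by
      rw [← pow_add, Nat.add_sub_cancel' (Nat.lt_succ_iff.1 (mem_range.1 hnc))]
    rw [e1, e2, e4, e3, e5]
    simp only [mul_pow z]
    generalize (r * v + l) ^ (v - nc) = t1
    generalize (((v : ℝ) + 1) * v * r + nc * l) ^ e = t2
    generalize (r * v) ^ (v - nc) = t3
    generalize (((v : ℝ) + 1) * v * r) ^ e = t4
    generalize (σ / r ^ 2 + v + 1) ^ v = t5
    generalize z ^ (v - nc) = t6
    ring
  rw [hid]
  generalize z * r * v = A at *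
  generalize z * l = x at *
  have h1 := osum_hub hv (by positivity) hs
  have h2 : ∑ nc ∈ range (v + 1), (v.choose nc : ℝ) * (z * σ) ^ nc * ∑ e ∈ range K,
      ((A + x) ^ (v - nc) * ((v + 1) * A + nc * x) ^ e -
        A ^ (v - nc) * ((v + 1) * A) ^ e) / e.factorial ≤
      (z * σ * Real.exp x + (A + x)) ^ v * Real.exp ((v + 1) * A) * (v * x) := by
    rw [add_pow, sum_mul, sum_mul]
    refine sum_le_sum fun nc hnc => ?_
    have hle : nc ≤ v := Nat.lt_succ_iff.1 (mem_range.1 hnc)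
    have h3 := osum_exp_diff (p := (A + x) ^ (v - nc)) (q := A ^ (v - nc)) (B := (v + 1) * A)
      (y := nc * x) (by positivity) (pow_le_pow_left₀ (by linarith only [hA1]) (by linarith only [hx]) _)
      (by positivity) (by positivity) K
    have h4 := osum_key (B := (v + 1) * A) (y := nc * x) hA1 hx (by positivity) (v - nc)
    refine (mul_le_mul_of_nonneg_left (h3.trans h4) (by positivity)).trans (le_of_eq ?_)
    rw [Nat.cast_sub hle, Real.exp_add, Real.exp_nat_mul x nc, mul_pow (z * σ)]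
    generalize (A + x) ^ (v - nc) = t1
    generalize (z * σ) ^ nc = t2
    ring
  have h5 : z * σ * Real.exp x + (A + x) ≤ 2 * (1 + a) * (1 + c) := by
    have : z * σ * Real.exp x ≤ z * σ * Real.exp c := by gcongr
    linarith only [ha, hzσ, hc0, hA, hc, this, mul_nonneg ha hc0]
  have h6 : Real.exp ((v + 1) * A) ≤ (3 ^ 2 * Real.exp (2 * a)) ^ v := by
    refine osum_exp_le ?_
    have h7 : (v : ℝ) + 1 ≤ 2 * v := by linarith only [hv']
    calc (v + 1) * A ≤ (2 * v) * (1 + a) := by gcongr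
      _ = v * ((2 : ℕ) + 2 * a) := by push_cast; ring
  have h8 : (v : ℝ) ≤ 2 ^ v := by exact_mod_cast (Nat.lt_two_pow_self (n := v)).le
  have h9 : 0 ≤ z * σ * Real.exp x + (A + x) := by positivity
  calc _ ≤ ((v : ℝ) + 2) * (σ / r ^ 2 + v + 1) ^ v / v.factorial *
        ((z * σ * Real.exp x + (A + x)) ^ v * Real.exp ((v + 1) * A) * (v * x)) :=
        mul_le_mul_of_nonneg_left h2 (by positivity)
    _ ≤ 27 ^ v * ((2 * (1 + a) * (1 + c)) ^ v * (3 ^ 2 * Real.exp (2 * a)) ^ v * (2 ^ v * x)) := by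
        gcongr
    _ = _ := by
        rw [mul_pow _ (2 : ℝ), mul_pow _ (3 ^ 2 * Real.exp (2 * a)), mul_pow (27 : ℝ)]
        ring

theorem osum_pow_le {X ρ : ℝ} (hX : 1 ≤ X) (hρ : 0 ≤ ρ) (h : X ^ 3 * ρ ≤ 1 / 8) {v m : ℕ}
    (hm : 1 ≤ m) (hv : v ≤ 2 * m + 1) : ρ ^ m * X ^ v ≤ X ^ 3 * ρ := by
  obtain ⟨m, rfl⟩ := Nat.exists_eq_add_of_le' hm
  have h1 : X ^ 2 * ρ ≤ 1 := by
    have : X ^ 2 * ρ ≤ X ^ 3 * ρ :=
      mul_le_mul_of_nonneg_right (pow_le_pow_right₀ hX (by norm_num)) hρ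
    linarith only [h, this]
  have hX0 : 0 ≤ X := by linarith only [hX]
  calc ρ ^ (m + 1) * X ^ v ≤ ρ ^ (m + 1) * X ^ (2 * (m + 1) + 1) := by gcongr
    _ = X ^ 3 * ρ * (X ^ 2 * ρ) ^ m := by ring
    _ ≤ X ^ 3 * ρ * 1 := by
        gcongr
        exact pow_le_one₀ (by positivity) h1
    _ = X ^ 3 * ρ := mul_one _

/-- the parameters -/
theorem osum_par {z : ℝ} {vm cap : ℕ} (hz : 0 < z)
    (h : cX z vm cap ^ 3 * cR z vm cap ≤ 1 / 8) :
    100000 ≤ cX z vm cap ∧ 0 < cR z vm cap ∧ cR z vm cap ≤ 1 / 100 ∧ z ≤ cR z vm cap ∧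
      z * (cR z vm cap)⁻¹ * Real.exp (z * cap) ≤ 1 := by
  have ha : 0 ≤ z * vm := by positivity
  have hc : 0 ≤ z * cap := by positivity
  have e1 : 1 ≤ Real.exp (2 * (z * vm)) := Real.one_le_exp (by positivity)
  have e2 : 1 ≤ Real.exp (z * cap) := Real.one_le_exp hc
  have h1 : 100000 ≤ cX z vm cap := by
    unfold cX
    calc (100000 : ℝ) = 100000 * 1 * 1 * 1 := by norm_num
      _ ≤ _ := by gcongr <;> linarith only [ha, hc]
  have h2 : 0 < cR z vm cap := by
    unfold cR
    positivity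
  refine ⟨h1, h2, ?_, ?_, ?_⟩
  · have h3 : 100 ≤ cX z vm cap ^ 3 := by
      have := pow_le_pow_left₀ (by norm_num) h1 3
      linarith only [this, show (100 : ℝ) ≤ 100000 ^ 3 by norm_num]
    linarith only [h, h2, h3, mul_nonneg_of_nonpos_of_nonpos (le_of_lt (Mathlib.Tactic.Linarith.sub_neg_of_lt h2)) (Mathlib.Tactic.Linarith.sub_nonpos_of_le h3)]
  · unfold cR
    calc z = z * 1 * 1 := by ring
      _ ≤ _ := by gcongr; linarith only [ha]
  · unfold cR
    have : z * (z * Real.exp (z * cap) * (1 + z * vm))⁻¹ * Real.exp (z * cap) =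
        (1 + z * vm)⁻¹ := by field_simp
    rw [this]
    exact inv_le_one_of_one_le₀ (by linarith only [ha])

theorem osum_r {z σ : ℝ} {v vm : ℕ} (hz : 0 < z) (hv : 1 ≤ v) (hvm : v ≤ vm) (hσ : z * σ ≤ 1) :
    1 ≤ z * max 1 (1 / (z * v)) * v ∧ z * max 1 (1 / (z * v)) * v ≤ 1 + z * vm ∧
      σ / max 1 (1 / (z * v)) ^ 2 ≤ v := by
  have hv' : (1 : ℝ) ≤ v := by exact_mod_cast hv
  have hvm' : (v : ℝ) ≤ vm := by exact_mod_cast hvm
  have hzv : 0 < z * v := by positivity
  have h1 : 1 ≤ z * max 1 (1 / (z * v)) * v := by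
    calc (1 : ℝ) = z * (1 / (z * v)) * v := by field_simp
      _ ≤ _ := by gcongr; exact le_max_right _ _
  refine ⟨h1, ?_, ?_⟩
  · have h2 : z * v ≤ z * vm := by gcongr
    rcases max_choice 1 (1 / (z * v)) with h3 | h3 <;> rw [h3]
    · linarith only [h2]
    · have : z * (1 / (z * v)) * v = 1 := by field_simp
      linarith only [hzv, h2, this]
  · have h2 : (1 : ℝ) ≤ max 1 (1 / (z * v)) := le_max_left _ _
    generalize max 1 (1 / (z * v)) = r at *
    rw [div_le_iff₀ (by positivity)]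
    refine le_of_mul_le_mul_left ?_ hz
    (refine le_of_not_gt fun h_nl => ?_; linarith only [h_nl, h1, hσ, hzv, h2, mul_nonneg_of_nonpos_of_nonpos (Mathlib.Tactic.Linarith.sub_nonpos_of_le hσ) (le_of_lt (Mathlib.Tactic.Linarith.sub_neg_of_lt hzv)), mul_nonneg_of_nonpos_of_nonpos (le_of_lt (Mathlib.Tactic.Linarith.sub_neg_of_lt hzv)) (Mathlib.Tactic.Linarith.sub_nonpos_of_le h2), mul_pos_of_neg_of_neg (Mathlib.Tactic.Linarith.sub_neg_of_lt hzv) (Mathlib.Tactic.Linarith.sub_neg_of_lt h_nl), mul_nonneg_of_nonpos_of_nonpos (Mathlib.Tactic.Linarith.sub_nonpos_of_le h1) (Mathlib.Tactic.Linarith.sub_nonpos_of_le h1)])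

variable {α : Type*} [Fintype α]

theorem exists_wG {z : ℝ} {vm cap : ℕ} (hz : 0 < z) (h : cX z vm cap ^ 3 * cR z vm cap ≤ 1 / 8) :
    ∃ w : ℕ → ℕ → ℝ, (∀ k v, 0 ≤ w k v) ∧
      (∀ (a x' : α) (P H : Finset α), H ⊆ P → H.card ≤ vm →
        ((univ.filter fun c : OCode α => Val0 a P {x'} c ∧ c.H = H).card : ℝ) ≤ w P.card H.card) ∧
      ∀ K, ∑ k ∈ range K, z ^ k / k.factorial *
        ∑ v ∈ range (vm + 1), (k.choose v : ℝ) * w k v ≤ 4 := by
  obtain ⟨hX, hρ, hρ1, hzρ, hzσ⟩ := osum_par hz h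
  have hXd : 2 * (27 * (3 * (1 + z * vm)) * (3 ^ 4 * Real.exp (2 * (z * vm)))) ≤ cX z vm cap := by
    unfold cX
    have h1 : 0 ≤ (1 + z * vm) * Real.exp (2 * (z * vm)) := by positivity
    have h2 : 0 ≤ z * cap := by positivity
    linarith only [h1, h2, mul_nonneg h1 h2]
  have hzσ' : z * (cR z vm cap)⁻¹ ≤ 1 :=
    (le_mul_of_one_le_right (by positivity) (Real.one_le_exp (by positivity))).trans hzσ
  generalize cX z vm cap = X at *
  generalize cR z vm cap = ρ at *
  have hσ : 1 ≤ ρ⁻¹ := (one_le_inv₀ hρ).2 (by linarith only [hρ, hρ1])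
  obtain ⟨f, hf⟩ : ∃ f : ℕ → ℕ → ℝ, ∀ v e, f v e = if v ≤ 1 then gB 1 1 e v else
      ρ ^ (v / 2) * gB ρ⁻¹ (max 1 (1 / (z * v))) e v := ⟨_, fun _ _ => rfl⟩
  have hf0 : ∀ v e, 0 ≤ f v e := fun v e => by
    rw [hf]
    split_ifs
    · exact osum_gB_nonneg zero_le_one zero_le_one e v
    · exact mul_nonneg (by positivity) (osum_gB_nonneg (by positivity) (by positivity) e v)
  refine ⟨fun k v => f v (k - v), fun k v => hf0 _ _, fun a x' P H hH _ => ?_, fun K => ?_⟩
  · simp only [hf]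
    split_ifs
    · simpa using val0_card le_rfl le_rfl a x' hH
    · have h1 := val0_card hσ (le_max_left 1 (1 / (z * H.card))) a x' hH
      rw [inv_pow, inv_mul_le_iff₀ (by positivity)] at h1
      exact h1
  · have hE : Real.exp (4 * z) ≤ 4 / 3 := by
      refine (Real.exp_le_exp.2 (by linarith only [hρ, hρ1, hzρ] : 4 * z ≤ 1 / 4)).trans ?_
      refine (Real.exp_bound_div_one_sub_of_interval (by norm_num) (by norm_num)).trans ?_
      norm_num
    have key : ∀ v ∈ range (vm + 1), ∑ k ∈ range K, z ^ k / k.factorial *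
        ((k.choose v : ℝ) * f v (k - v)) ≤
        (if v = 0 then 8 / 3 else 0) + (if v = 1 then 1 / 2 else 0) + 1 / 8 * (1 / 2) ^ v := by
      intro v hv
      refine (osum_shift hz.le (hf0 v) v K).trans ?_
      simp only [hf]
      rcases Nat.lt_or_ge 1 v with h1 | h1
      · obtain ⟨r1, r2, r3⟩ := osum_r hz h1.le (Nat.lt_succ_iff.1 (mem_range.1 hv)) hzσ'
        have h2 := osum_gterm h1.le hz.le (by linarith only [hρ, hρ1, hzρ]) (by positivity) (by positivity)
          (by positivity) r2 r3 hzσ' K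
        have h3 := osum_pow_le (by linarith only [hX, hρ, hρ1]) hρ.le h (v := v) (m := v / 2) (by omega) (by omega)
        simp only [if_neg (not_le.2 h1), if_neg (show v ≠ 0 by omega), if_neg h1.ne', zero_add]
        calc _ = ρ ^ (v / 2) * (z ^ v / v.factorial * ∑ e ∈ range K, z ^ e / e.factorial *
              gB ρ⁻¹ (max 1 (1 / (z * v))) e v) := by
              simp only [mul_sum]
              exact sum_congr rfl fun e _ => by ring
          _ ≤ ρ ^ (v / 2) * (X * (1 / 2)) ^ v := by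
              refine mul_le_mul_of_nonneg_left (h2.trans ?_) (by positivity)
              exact pow_le_pow_left₀ (by positivity) (by linarith only [hXd]) v
          _ = ρ ^ (v / 2) * X ^ v * (1 / 2) ^ v := by rw [mul_pow, mul_assoc]
          _ ≤ 1 / 8 * (1 / 2) ^ v := mul_le_mul_of_nonneg_right (h3.trans h) (by positivity)
      · simp only [if_pos h1]
        refine (osum_gsum hz.le zero_le_one zero_le_one v K).trans ?_
        interval_cases v
        · have : Real.exp z ≤ Real.exp (4 * z) := Real.exp_le_exp.2 (by linarith only [hz])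
          norm_num
          linarith only [hρ, hρ1, hE, this]
        · have e : z * ((1 + 1) * (1 + 1)) = 4 * z := by ring
          have := mul_le_mul_of_nonneg_left hE hz.le
          simp only [Nat.cast_one, mul_one, e, one_pow, pow_one, Nat.factorial_one]
          norm_num
          linarith only [hρ, hρ1, hzρ, this]
    simp only [mul_sum]
    rw [sum_comm]
    refine (sum_le_sum key).trans ?_
    rw [sum_add_distrib, sum_add_distrib, sum_ite_eq', sum_ite_eq', ← mul_sum]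
    have := sum_geometric_two_le (vm + 1)
    split_ifs <;> linarith only [hρ, hρ1, this]

theorem exists_wC {z : ℝ} {vm cap : ℕ} (hz : 0 < z) (h : cX z vm cap ^ 3 * cR z vm cap ≤ 1 / 8)
    {l : ℕ} (hl : l ≤ cap) :
    ∃ w : ℕ → ℕ → ℝ, (∀ k v, 0 ≤ w k v) ∧
      (∀ (a : α) (P H Y : Finset α), H ⊆ P → H.card ≤ vm → Y.card ≤ l →
        ((univ.filter fun c : OCode α => ValC a P Y c ∧ c.H = H).card : ℝ) ≤ w P.card H.card) ∧
      ∀ K, ∑ k ∈ range K, z ^ k / k.factorial *
        ∑ v ∈ range (vm + 1), (k.choose v : ℝ) * 2 ^ v * w k v ≤ cG z vm cap * l := by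
  obtain ⟨hX, hρ, hρ1, hzρ, hzσ⟩ := osum_par hz h
  have hXd : 4 * (27 * (2 * (1 + z * vm) * (1 + z * cap)) * (3 ^ 2 * Real.exp (2 * (z * vm))) * 2)
      ≤ cX z vm cap := by
    unfold cX
    have h1 : 0 ≤ (1 + z * vm) * (1 + z * cap) * Real.exp (2 * (z * vm)) := by positivity
    linarith only [h1]
  have hzσ' : z * (cR z vm cap)⁻¹ ≤ 1 :=
    (le_mul_of_one_le_right (by positivity) (Real.one_le_exp (by positivity))).trans hzσ
  unfold cG
  generalize cX z vm cap = X at *
  generalize cR z vm cap = ρ at *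
  have hσ : 1 ≤ ρ⁻¹ := (one_le_inv₀ hρ).2 (by linarith only [hρ, hρ1])
  have hX0 : 0 ≤ X := by linarith only [hX, hρ, hρ1]
  obtain ⟨f, hf⟩ : ∃ f : ℕ → ℕ → ℝ, ∀ v e, f v e =
      ρ ^ (max 1 (v / 2)) * cB ρ⁻¹ (max 1 (1 / (z * v))) l e v := ⟨_, fun _ _ => rfl⟩
  have hf0 : ∀ v e, 0 ≤ f v e := fun v e => by
    rw [hf]
    exact mul_nonneg (by positivity)
      (osum_cB_nonneg (by positivity) (by positivity) (by positivity) e v)
  refine ⟨fun k v => f v (k - v), fun k v => hf0 _ _, fun a P H Y hH _ hY => ?_, fun K => ?_⟩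
  · simp only [hf]
    have h1 := valC_card (l := l) hσ (le_max_left 1 (1 / (z * H.card))) a hH
      (Y := Y) (by exact_mod_cast hY)
    rw [inv_pow, inv_mul_le_iff₀ (by positivity)] at h1
    exact h1
  · have key : ∀ v ∈ range (vm + 1), ∑ k ∈ range K, z ^ k / k.factorial *
        ((k.choose v : ℝ) * 2 ^ v * f v (k - v)) ≤ X ^ 3 * ρ * (z * l) * (1 / 2) ^ v := by
      intro v hv
      have h0 := osum_shift hz.le (f := fun e => 2 ^ v * f v e)
        (fun e => mul_nonneg (by positivity) (hf0 v e)) v K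
      simp only [← mul_assoc] at h0 ⊢
      refine h0.trans ?_
      simp only [hf]
      rcases Nat.eq_zero_or_pos v with rfl | h1
      · simp only [cB, zero_add, range_one, sum_singleton]
        simp only [Nat.sub_self, pow_zero, Nat.cast_zero, zero_mul, add_zero, sub_self, mul_zero,
          sum_const_zero]
        positivity
      · obtain ⟨r1, r2, r3⟩ := osum_r hz h1 (Nat.lt_succ_iff.1 (mem_range.1 hv)) hzσ'
        have h2 := osum_cterm (l := l) (c := z * cap) h1 hz.le (by positivity) (by positivity)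
          (by positivity) r1 r2 (by gcongr) r3 hzσ K
        have h3 := osum_pow_le (by linarith only [hX, hρ, hρ1]) hρ.le h (v := v) (m := max 1 (v / 2))
          (by omega) (by omega)
        calc _ = ρ ^ (max 1 (v / 2)) * 2 ^ v * (z ^ v / v.factorial *
              ∑ e ∈ range K, z ^ e / e.factorial * cB ρ⁻¹ (max 1 (1 / (z * v))) l e v) := by
              simp only [mul_sum]
              exact sum_congr rfl fun e _ => by ring
          _ ≤ ρ ^ (max 1 (v / 2)) * 2 ^ v * ((X * (1 / 4)) ^ v * (z * l)) := by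
              refine mul_le_mul_of_nonneg_left (h2.trans ?_) (by positivity)
              refine mul_le_mul_of_nonneg_right ?_ (by positivity)
              exact pow_le_pow_left₀ (by positivity) (by linarith only [hXd]) v
          _ = ρ ^ (max 1 (v / 2)) * X ^ v * (z * l * (2 * (1 / 4)) ^ v) := by
              rw [mul_pow, mul_pow]
              ring
          _ ≤ X ^ 3 * ρ * (z * l * (2 * (1 / 4)) ^ v) :=
              mul_le_mul_of_nonneg_right h3 (by positivity)
          _ = _ := by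
              rw [show (2 * (1 / 4) : ℝ) = 1 / 2 by norm_num]
              ring
    simp only [mul_sum]
    rw [sum_comm]
    refine (sum_le_sum key).trans ?_
    rw [← mul_sum]
    have h1 := mul_le_mul_of_nonneg_left (sum_geometric_two_le (vm + 1))
      (by positivity : 0 ≤ X ^ 3 * ρ * (z * l))
    have h2 : 0 ≤ X ^ 3 * ρ * (z * l) := by positivity
    linarith only [h1, h2]

end Pool.Agent.Work.MP_5391ad_co
end

-- merged part: Pool.Agent.Work.MP_5391ad_co.OPrd
section
/-! The labelled product and the count for the link phase.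
`sum_parts`: induction on `A` generalizing `U`; the part of the new index is a subset `S ⊆ U`,
`∑_{S ⊆ U} w |S| (K - |S|)! z^{-(K - |S|)} = K! z^{-K} ∑_k z^k w k / k!`.
`card_gred`: `D` is determined by `M`, `nx` on `M`, `P` on `M`, `c` on `M` (field `arcs`; normalise
the functions off `M`). For `|M| = k` there are at most `C(i,k) C(o,k) k!` pairs `(M, nx)`; for each
the number of `(P, c)` is at most `∑_P ∏_x ∑_{H ⊆ P x, |H| ≤ vm} w |P x| |H| ≤ K! z^{-K} 4^k` by
`exists_wG` and `sum_parts`. Finally `k! ≤ √(i!) √(o!)` for `k ≤ min i o` and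
`∑_k C(i,k) 2^k C(o,k) 2^k ≤ 3^i 3^o`. -/

namespace Pool.Agent.Work.MP_5391ad_co

open Finset
open scoped Classical

variable {α : Type*} [Fintype α]

/-- ordered partitions of `U` indexed by `A` -/
noncomputable def parts (A U : Finset α) : Finset (α → Finset α) :=
  (Fintype.piFinset fun a => if a ∈ A then U.powerset else {∅}).filter fun P =>
    A.biUnion P = U ∧ ∀ a ∈ A, ∀ b ∈ A, a ≠ b → Disjoint (P a) (P b)

theorem oprd_mem {A U : Finset α} {P : α → Finset α} : P ∈ parts A U ↔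
    (∀ a, a ∉ A → P a = ∅) ∧ A.biUnion P = U ∧
      ∀ a ∈ A, ∀ b ∈ A, a ≠ b → Disjoint (P a) (P b) := by
  unfold parts
  rw [mem_filter, Fintype.mem_piFinset]
  constructor
  · rintro ⟨h1, h2⟩
    refine ⟨fun a ha => ?_, h2⟩
    have := h1 a
    rwa [if_neg ha, mem_singleton] at this
  · rintro ⟨h1, h2⟩
    refine ⟨fun a => ?_, h2⟩
    split_ifs with ha
    · rw [mem_powerset, ← h2.1]
      exact subset_biUnion_of_mem P ha
    · rw [h1 a ha, mem_singleton]

theorem oprd_fiber {A U S : Finset α} {a : α} (ha : a ∉ A) (f : α → Finset α → ℝ)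
    (hf : ∀ b T, 0 ≤ f b T) :
    ∑ P ∈ (parts (insert a A) U).filter (fun P => P a = S), ∏ b ∈ insert a A, f b (P b) ≤
      f a S * ∑ Q ∈ parts A (U \ S), ∏ b ∈ A, f b (Q b) := by
  rw [mul_sum]
  have h1 : ∀ (P : α → Finset α), ∀ b ∈ A, Function.update P a ∅ b = P b := fun P b hb =>
    Function.update_of_ne (ne_of_mem_of_not_mem hb ha) _ _
  have hinj : Set.InjOn (fun P : α → Finset α => Function.update P a ∅)
      ((parts (insert a A) U).filter fun P => P a = S : Finset _) := by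
    intro P hP Q hQ h
    funext b
    by_cases hb : b = a
    · rw [hb, (mem_filter.1 hP).2, (mem_filter.1 hQ).2]
    · have := congrFun h b
      simpa only [Function.update_of_ne hb] using this
  calc _ = ∑ P ∈ (parts (insert a A) U).filter (fun P => P a = S),
        f a S * ∏ b ∈ A, f b (Function.update P a ∅ b) := by
        refine sum_congr rfl fun P hP => ?_
        rw [prod_insert ha, (mem_filter.1 hP).2]
        exact congrArg _ (prod_congr rfl fun b hb => by rw [h1 P b hb])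
    _ = ∑ Q ∈ ((parts (insert a A) U).filter fun P => P a = S).image
          (fun P => Function.update P a ∅), f a S * ∏ b ∈ A, f b (Q b) :=
        (sum_image (f := fun Q : α → Finset α => f a S * ∏ b ∈ A, f b (Q b)) hinj).symm
    _ ≤ _ := by
        refine sum_le_sum_of_subset_of_nonneg (fun Q hQ => ?_) fun Q _ _ =>
          mul_nonneg (hf _ _) (prod_nonneg fun b _ => hf _ _)
        obtain ⟨P, hP, rfl⟩ := mem_image.1 hQ
        obtain ⟨hP', rfl⟩ := mem_filter.1 hP
        obtain ⟨h2, h3, h4⟩ := oprd_mem.1 hP'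
        refine oprd_mem.2 ⟨fun b hb => ?_, ?_, fun b hb c hc hbc => ?_⟩
        · by_cases hba : b = a
          · rw [hba, Function.update_self]
          · rw [Function.update_of_ne hba]
            exact h2 b (by simp [hba, hb])
        · rw [biUnion_congr rfl (h1 P), ← h3, biUnion_insert, union_sdiff_cancel_left]
          exact (disjoint_biUnion_right _ _ _).2 fun b hb => h4 a (mem_insert_self _ _) b
            (mem_insert_of_mem hb) (ne_of_mem_of_not_mem hb ha).symm
        · rw [h1 P b hb, h1 P c hc]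
          exact h4 b (mem_insert_of_mem hb) c (mem_insert_of_mem hc) hbc

theorem sum_parts (A U : Finset α) {z : ℝ} (hz : 0 < z) (w : α → ℕ → ℝ) (hw : ∀ a k, 0 ≤ w a k)
    (E : α → ℝ) (hE : ∀ a ∈ A, ∀ K, ∑ k ∈ range K, z ^ k / k.factorial * w a k ≤ E a) :
    ∑ P ∈ parts A U, ∏ a ∈ A, w a (P a).card ≤
      U.card.factorial * z⁻¹ ^ U.card * ∏ a ∈ A, E a := by
  induction A using Finset.induction_on generalizing U with
  | empty =>
    simp only [prod_empty, sum_const, nsmul_eq_mul, mul_one]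
    by_cases hU : U = ∅
    · subst hU
      simp only [card_empty, Nat.factorial_zero, Nat.cast_one, pow_zero, mul_one,
        Nat.cast_le_one]
      refine card_le_one.2 fun P hP Q hQ => funext fun a => ?_
      rw [(oprd_mem.1 hP).1 a (notMem_empty a), (oprd_mem.1 hQ).1 a (notMem_empty a)]
    · have : parts ∅ U = ∅ := eq_empty_of_forall_notMem fun P hP =>
        hU ((oprd_mem.1 hP).2.1.symm.trans biUnion_empty)
      rw [this, card_empty, Nat.cast_zero]
      positivity
  | insert a A ha ih =>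
    have ih' := fun U => ih U fun b hb => hE b (mem_insert_of_mem hb)
    have hE0 : 0 ≤ ∏ b ∈ A, E b := prod_nonneg fun b hb => by
      simpa using hE b (mem_insert_of_mem hb) 0
    rw [← sum_fiberwise_of_maps_to (t := U.powerset) (g := fun P => P a) (fun P hP => by
      rw [mem_powerset, ← (oprd_mem.1 hP).2.1]
      exact subset_biUnion_of_mem P (mem_insert_self _ _))]
    calc _ ≤ ∑ S ∈ U.powerset, w a S.card *
          ((U.card - S.card).factorial * z⁻¹ ^ (U.card - S.card) * ∏ b ∈ A, E b) := by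
          refine sum_le_sum fun S hS => ?_
          refine (oprd_fiber ha (fun b T => w b T.card) fun b T => hw _ _).trans ?_
          rw [← card_sdiff_of_subset (mem_powerset.1 hS)]
          exact mul_le_mul_of_nonneg_left (ih' _) (hw _ _)
      _ = U.card.factorial * z⁻¹ ^ U.card * ((∑ k ∈ range (U.card + 1),
          z ^ k / k.factorial * w a k) * ∏ b ∈ A, E b) := by
          rw [sum_powerset_apply_card (fun k => w a k *
            ((U.card - k).factorial * z⁻¹ ^ (U.card - k) * ∏ b ∈ A, E b)), sum_mul, mul_sum]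
          refine sum_congr rfl fun k hk => ?_
          obtain ⟨j, hj⟩ := Nat.exists_eq_add_of_le (Nat.lt_succ_iff.1 (mem_range.1 hk))
          rw [hj, Nat.add_sub_cancel_left, ← Nat.add_choose_mul_factorial_mul_factorial,
            Nat.choose_symm_add, nsmul_eq_mul, pow_add, inv_pow z k]
          have h0 : (k.factorial : ℝ) ≠ 0 := by positivity
          push_cast
          field_simp
      _ ≤ _ := by
          rw [prod_insert ha]
          exact mul_le_mul_of_nonneg_left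
            (mul_le_mul_of_nonneg_right (hE a (mem_insert_self _ _) _) hE0) (by positivity)

theorem gam_mono : Monotone gam := by
  intro a b h
  unfold gam
  gcongr
  norm_num

/-- normalised injective maps from `M` to `T` -/
noncomputable def oprd_inj (M T : Finset α) : Finset (α → α) :=
  univ.filter fun f => (∀ x ∈ M, f x ∈ T) ∧ (∀ x, x ∉ M → f x = x) ∧ Set.InjOn f M

theorem oprd_inj_card (M T : Finset α) :
    (oprd_inj M T).card ≤ M.card.factorial * T.card.choose M.card := by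
  rw [← Nat.descFactorial_eq_factorial_mul_choose, ← Fintype.card_coe M, ← Fintype.card_coe T,
    ← Fintype.card_embedding_eq, ← Fintype.card_coe]
  refine Fintype.card_le_of_injective (fun f => ⟨fun x => ⟨f.1 x.1,
    (mem_filter.1 f.2).2.1 _ x.2⟩, fun x y h =>
      Subtype.ext ((mem_filter.1 f.2).2.2.2 x.2 y.2 (congrArg Subtype.val h))⟩) fun f g h => ?_
  refine Subtype.ext (funext fun x => ?_)
  by_cases hx : x ∈ M
  · exact congrArg Subtype.val (DFunLike.congr_fun h ⟨x, hx⟩)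
  · rw [(mem_filter.1 f.2).2.2.1 x hx, (mem_filter.1 g.2).2.2.1 x hx]

theorem oprd_choose (o k : ℕ) : (o.choose k : ℝ) * 2 ^ k ≤ 3 ^ o := by
  by_cases h : k ≤ o
  · have e : (3 : ℝ) ^ o = (2 + 1) ^ o := by norm_num
    rw [e, add_pow]
    refine le_trans (le_of_eq ?_) (single_le_sum (f := fun m => (2 : ℝ) ^ m * 1 ^ (o - m) *
      (o.choose m : ℝ)) (fun m _ => by positivity) (mem_range.2 (Nat.lt_succ_of_le h)))
    simp [mul_comm]
  · rw [Nat.choose_eq_zero_of_lt (not_le.1 h), Nat.cast_zero, zero_mul]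
    positivity

omit [Fintype α] in
theorem oprd_gam (S : Finset α) (o : ℕ) :
    ∑ M ∈ S.powerset, ((M.card.factorial * o.choose M.card : ℕ) : ℝ) * 4 ^ M.card ≤
      gam S.card * gam o := by
  have h1 : ∀ M ∈ S.powerset, ((M.card.factorial * o.choose M.card : ℕ) : ℝ) * 4 ^ M.card ≤
      2 ^ M.card * 1 ^ (S.card - M.card) * (√(S.card.factorial : ℝ) * gam o) := by
    intro M hM
    have h2 := card_le_card (mem_powerset.1 hM)
    generalize M.card = k at h2
    by_cases h : k ≤ o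
    · have h3 : (k.factorial : ℝ) ≤ √(S.card.factorial : ℝ) * √(o.factorial : ℝ) := by
        rw [← Real.mul_self_sqrt (Nat.cast_nonneg k.factorial)]
        gcongr
      have h4 := mul_le_mul h3 (oprd_choose o k) (by positivity) (by positivity)
      have e : (4 : ℝ) ^ k = 2 ^ k * 2 ^ k := by rw [← mul_pow]; norm_num
      unfold gam
      push_cast
      rw [e, one_pow]
      calc _ = 2 ^ k * ((k.factorial : ℝ) * ((o.choose k : ℝ) * 2 ^ k)) := by ring
        _ ≤ 2 ^ k * (√(S.card.factorial : ℝ) * √(o.factorial : ℝ) * 3 ^ o) :=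
          mul_le_mul_of_nonneg_left h4 (by positivity)
        _ = _ := by ring
    · rw [Nat.choose_eq_zero_of_lt (not_le.1 h), mul_zero, Nat.cast_zero, zero_mul]
      unfold gam
      positivity
  refine (sum_le_sum h1).trans (le_of_eq ?_)
  rw [← sum_mul, sum_pow_mul_eq_add_pow]
  unfold gam
  norm_num
  ring

theorem oprd_codes {vm : ℕ} {w : ℕ → ℕ → ℝ} (a x' : α) (P : Finset α)
    (h : ∀ H : Finset α, H ⊆ P → H.card ≤ vm →
      ((univ.filter fun c : OCode α => Val0 a P {x'} c ∧ c.H = H).card : ℝ) ≤ w P.card H.card) :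
    ((univ.filter fun c : OCode α => Val0 a P {x'} c ∧ c.H.card ≤ vm).card : ℝ) ≤
      ∑ v ∈ range (vm + 1), (P.card.choose v : ℝ) * w P.card v := by
  have h1 : (univ.filter fun c : OCode α => Val0 a P {x'} c ∧ c.H.card ≤ vm) ⊆
      (range (vm + 1)).biUnion fun v => (powersetCard v P).biUnion fun H =>
        univ.filter fun c : OCode α => Val0 a P {x'} c ∧ c.H = H := by
    intro c hc
    obtain ⟨h2, h3⟩ := (mem_filter.1 hc).2
    exact mem_biUnion.2 ⟨_, mem_range.2 (Nat.lt_succ_of_le h3), mem_biUnion.2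
      ⟨c.H, mem_powersetCard.2 ⟨h2.sub, rfl⟩, mem_filter.2 ⟨mem_univ _, h2, rfl⟩⟩⟩
  refine (Nat.cast_le.2 ((card_le_card h1).trans card_biUnion_le)).trans ?_
  rw [Nat.cast_sum]
  refine sum_le_sum fun v hv => (Nat.cast_le.2 card_biUnion_le).trans ?_
  rw [Nat.cast_sum, ← card_powersetCard, ← nsmul_eq_mul]
  refine sum_le_card_nsmul _ _ _ fun H hH => ?_
  obtain ⟨h2, rfl⟩ := mem_powersetCard.1 hH
  exact h H h2 (Nat.lt_succ_iff.1 (mem_range.1 hv))

/-- normalised families of codes -/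
noncomputable def oprd_fam (vm : ℕ) (M : Finset α) (nx : α → α) (P : α → Finset α) :
    Finset (α → OCode α) :=
  Fintype.piFinset fun x => if x ∈ M then
    univ.filter fun c : OCode α => Val0 x (P x) {nx x} c ∧ c.H.card ≤ vm
    else {⟨∅, fun _ => none, fun _ => none, none⟩}

theorem oprd_fam_card (vm : ℕ) (M : Finset α) (nx : α → α) (P : α → Finset α) :
    (oprd_fam vm M nx P).card = ∏ x ∈ M,
      (univ.filter fun c : OCode α => Val0 x (P x) {nx x} c ∧ c.H.card ≤ vm).card := by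
  unfold oprd_fam
  rw [Fintype.card_piFinset]
  simp only [apply_ite card, card_singleton]
  rw [Fintype.prod_ite_mem]

theorem oprd_sub (vm : ℕ) (V V1 : Finset α) (D1 : α → α → Prop) (s : α) :
    (univ.filter fun D : α → α → Prop => ∃ k, GRed V D s V1 D1 k vm) ⊆
      (univ.filter (Snk D1 s)).powerset.biUnion fun M =>
        (oprd_inj M (univ.filter (Src D1 s))).biUnion fun nx =>
          (parts M (V \ V1)).biUnion fun P => (oprd_fam vm M nx P).image fun c u w =>
            (∃ x ∈ M, (c x).arc (nx x) u w) ∨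
              (D1 u w ∧ u ∉ M ∧ ¬ (u = s ∧ ∃ x ∈ M, w = nx x)) := by
  intro D hD
  obtain ⟨k, M, nx, P, c, h, -, hv⟩ := (mem_filter.1 hD).2
  refine mem_biUnion.2 ⟨M, mem_powerset.2 fun x hx => mem_filter.2 ⟨mem_univ _, (h.ends x hx).1⟩,
    mem_biUnion.2 ⟨fun x => if x ∈ M then nx x else x, mem_filter.2 ⟨mem_univ _, ?_, ?_, ?_⟩,
    mem_biUnion.2 ⟨fun x => if x ∈ M then P x else ∅, oprd_mem.2 ⟨?_, ?_, ?_⟩,
    mem_image.2 ⟨fun x => if x ∈ M then c x else ⟨∅, fun _ => none, fun _ => none, none⟩,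
      ?_, ?_⟩⟩⟩⟩
  · intro x hx
    simp only [if_pos hx]
    exact mem_filter.2 ⟨mem_univ _, (h.ends x hx).2⟩
  · exact fun x hx => if_neg hx
  · intro x hx y hy hxy
    simp only [if_pos (mem_coe.1 hx), if_pos (mem_coe.1 hy)] at hxy
    exact h.inj hx hy hxy
  · exact fun x hx => if_neg hx
  · rw [h.part]
    exact biUnion_congr rfl fun x hx => if_pos hx
  · intro x hx y hy hxy
    simp only [if_pos hx, if_pos hy]
    exact h.disj x hx y hy hxy
  · refine Fintype.mem_piFinset.2 fun x => ?_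
    by_cases hx : x ∈ M
    · simp only [if_pos hx]
      exact mem_filter.2 ⟨mem_univ _, h.val x hx, hv x hx⟩
    · simp only [if_neg hx, mem_singleton]
  · funext u w
    rw [eq_iff_iff, h.arcs]
    refine or_congr (exists_congr fun x => and_congr_right fun hx => ?_)
      (and_congr_right fun _ => and_congr_right fun _ => not_congr (and_congr_right fun _ =>
        exists_congr fun x => and_congr_right fun hx => ?_))
    · simp only [if_pos hx]
    · simp only [if_pos hx]

theorem card_gred {z : ℝ} {vm cap : ℕ} (hz : 0 < z) (h : cX z vm cap ^ 3 * cR z vm cap ≤ 1 / 8)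
    (V V1 : Finset α) (D1 : α → α → Prop) (s : α) {i o : ℕ}
    (hi : (univ.filter (Snk D1 s)).card ≤ i) (ho : (univ.filter (Src D1 s)).card ≤ o) :
    ((univ.filter fun D : α → α → Prop => ∃ k, GRed V D s V1 D1 k vm).card : ℝ) ≤
      gam i * gam o * ((V \ V1).card.factorial * z⁻¹ ^ (V \ V1).card) := by
  obtain ⟨w, hw, h1, h2⟩ := exists_wG (α := α) hz h
  have hW : ∀ k, 0 ≤ ∑ v ∈ range (vm + 1), (k.choose v : ℝ) * w k v := fun k =>
    sum_nonneg fun v _ => mul_nonneg (Nat.cast_nonneg _) (hw _ _)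
  have h0 : (0 : ℝ) ≤ (V \ V1).card.factorial * z⁻¹ ^ (V \ V1).card := by positivity
  have hg : ∀ n, 0 ≤ gam n := fun n => by unfold gam; positivity
  refine le_trans ?_ (mul_le_mul_of_nonneg_right ((oprd_gam (univ.filter (Snk D1 s))
    (univ.filter (Src D1 s)).card).trans (mul_le_mul (gam_mono hi) (gam_mono ho) (hg _) (hg _))) h0)
  refine (Nat.cast_le.2 ((card_le_card (oprd_sub vm V V1 D1 s)).trans card_biUnion_le)).trans ?_
  rw [Nat.cast_sum, sum_mul]
  refine sum_le_sum fun M _ => (Nat.cast_le.2 card_biUnion_le).trans ?_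
  rw [Nat.cast_sum]
  refine (sum_le_card_nsmul _ _ (4 ^ M.card * ((V \ V1).card.factorial * z⁻¹ ^ (V \ V1).card))
    fun nx _ => (Nat.cast_le.2 card_biUnion_le).trans ?_).trans ?_
  · have h3 := sum_parts M (V \ V1) hz (fun _ k => ∑ v ∈ range (vm + 1), (k.choose v : ℝ) * w k v)
      (fun _ => hW) (fun _ => 4) fun _ _ => h2
    rw [prod_const, mul_comm] at h3
    rw [Nat.cast_sum]
    refine le_trans (sum_le_sum fun P _ => (Nat.cast_le.2 card_image_le).trans ?_) h3
    rw [oprd_fam_card, Nat.cast_prod]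
    exact prod_le_prod (fun x _ => Nat.cast_nonneg _) fun x _ =>
      oprd_codes x (nx x) (P x) (h1 x (nx x) (P x))
  · rw [nsmul_eq_mul, mul_assoc]
    exact mul_le_mul_of_nonneg_right (Nat.cast_le.2 (oprd_inj_card _ _)) (by positivity)

end Pool.Agent.Work.MP_5391ad_co
end

-- merged part: Pool.Agent.Work.MP_5391ad_co.OCc
section
/-! The count for the column phase. `D` is determined by `M`, `P` on `M`, `c` on `M` (`g a` is the
out-neighbour of `a` in `D2`, field `out`; then `arcs`). Fix `M ⊆ V2.erase s` with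
`l a = |TT a| + m ≤ cap` on `M`, a partition `P ∈ parts M (V \ V2)` and hub sets `H a ⊆ P a` with
`|H a| ≤ vm`, `∑ |H a| = m`. Then `Y a = TT a ∪ M.biUnion H` is determined and has at most `l a`
elements, so the number of `c` is at most `∏ w_a |P a| |H a| = 2^{-m} ∏ 2^{|H a|} w_a |P a| |H a|`
(`exists_wC` with `l = l a`; `choose` the functions `w_a`). Drop the condition on the sum, sum over
`H` (`Finset.prod_univ_sum`, `sum_powerset_apply_card`), use `sum_parts`, and sum over `M` with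
`Finset.prod_one_add` (or `prod_add_one`). -/

namespace Pool.Agent.Work.MP_5391ad_co

open Finset
open scoped Classical

variable {α : Type*} [Fintype α]

/-- decoding -/
def occ_dec (D2 : α → α → Prop) (M : Finset α) (c : M → OCode α) : α → α → Prop :=
  fun u w => (∃ a : M, ∃ g, (∀ y, D2 a y ↔ y = g) ∧ (c a).arc g u w) ∨ (D2 u w ∧ u ∉ M)

/-- all hub sets -/
noncomputable def occ_H0 (vm : ℕ) (M : Finset α) (P : α → Finset α) : Finset (M → Finset α) :=
  Fintype.piFinset fun a : M => (P a).powerset.filter fun S => S.card ≤ vm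

/-- hub sets with the right total size -/
noncomputable def occ_H (vm m : ℕ) (M : Finset α) (P : α → Finset α) : Finset (M → Finset α) :=
  (occ_H0 vm M P).filter fun H => ∑ a, (H a).card = m

/-- codes -/
noncomputable def occ_C (T : α → Finset α) (M : Finset α) (P : α → Finset α) (H : M → Finset α) :
    Finset (M → OCode α) :=
  Fintype.piFinset fun a : M =>
    univ.filter fun c : OCode α => ValC (a : α) (P a) (T a ∪ univ.biUnion H) c ∧ c.H = H a

/-- admissible location sets -/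
noncomputable def occ_S (T : α → Finset α) (A : Finset α) (m cap : ℕ) : Finset (Finset α) :=
  A.powerset.filter fun M => ∀ a ∈ M, (T a).card + m ≤ cap

theorem occ_cover (V V2 : Finset α) (D2 : α → α → Prop) (s : α) (m cap vm : ℕ) :
    (univ.filter fun D : α → α → Prop => CRed V D s V2 D2 m cap vm) ⊆
      (occ_S (TT V2 D2 s) (V2.erase s) m cap).biUnion fun M => (parts M (V \ V2)).biUnion fun P =>
        (occ_H vm m M P).biUnion fun H => (occ_C (TT V2 D2 s) M P H).image (occ_dec D2 M) := by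
  intro D hD
  obtain ⟨M, g, P, c, hE, hm, hc⟩ := (mem_filter.1 hD).2
  have hU : (univ : Finset M).biUnion (fun a => (c a).H) = M.biUnion fun b => (c b).H := by
    ext x
    simp only [mem_biUnion, mem_univ, true_and, Subtype.exists, exists_prop]
  simp only [mem_biUnion, mem_image]
  refine ⟨M, ?_, fun a => if a ∈ M then P a else ∅, ?_, fun a => (c a).H, ?_, fun a => c a, ?_, ?_⟩
  · exact mem_filter.2 ⟨mem_powerset.2 hE.mk2, fun a ha => (hc a ha).2⟩
  · refine mem_filter.2 ⟨Fintype.mem_piFinset.2 fun a => ?_, ?_, ?_⟩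
    · by_cases ha : a ∈ M
      · simp only [if_pos ha, mem_powerset]
        rw [hE.part]
        exact subset_biUnion_of_mem P ha
      · simp only [if_neg ha, mem_singleton]
    · rw [hE.part]
      exact biUnion_congr rfl fun a ha => if_pos ha
    · intro a ha b hb hab
      simp only [if_pos ha, if_pos hb]
      exact hE.disj a ha b hb hab
  · refine mem_filter.2 ⟨Fintype.mem_piFinset.2 fun a => ?_, ?_⟩
    · simp only [if_pos a.2, mem_filter, mem_powerset]
      exact ⟨(hE.val a a.2).sub, (hc a a.2).1⟩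
    · rw [← hm]
      exact Finset.sum_coe_sort M fun a => (c a).H.card
  · refine Fintype.mem_piFinset.2 fun a => ?_
    simp only [if_pos a.2, mem_filter, mem_univ, true_and, and_true]
    rw [hU]
    exact hE.val a a.2
  · funext u w
    apply propext
    rw [hE.arcs]
    refine or_congr ⟨?_, ?_⟩ Iff.rfl
    · rintro ⟨a, g', hg, ha⟩
      have : g' = g a := (hE.out a a.2 g').1 ((hg g').2 rfl)
      exact ⟨a, a.2, this ▸ ha⟩
    · rintro ⟨a, ha, h⟩
      exact ⟨⟨a, ha⟩, g a, hE.out a ha, h⟩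

omit [Fintype α] in
theorem occ_sum_pow (P : Finset α) (vm : ℕ) (f : ℕ → ℝ) :
    ∑ S ∈ P.powerset.filter (fun S => S.card ≤ vm), f S.card =
      ∑ v ∈ range (vm + 1), (P.card.choose v : ℝ) * f v := by
  have h : P.powerset.filter (fun S => S.card ≤ vm) =
      (range (vm + 1)).biUnion fun v => powersetCard v P := by
    ext S
    simp only [mem_filter, mem_powerset, mem_biUnion, mem_range, mem_powersetCard]
    constructor
    · rintro ⟨h1, h2⟩
      exact ⟨_, Nat.lt_succ_of_le h2, h1, rfl⟩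
    · rintro ⟨v, h1, h2, rfl⟩
      exact ⟨h2, Nat.le_of_lt_succ h1⟩
  rw [h, sum_biUnion ((pairwise_disjoint_powersetCard P).set_pairwise _)]
  refine sum_congr rfl fun v _ => ?_
  rw [sum_congr rfl (g := fun _ => f v) fun S hS => by rw [(mem_powersetCard.1 hS).2],
    sum_const, card_powersetCard, nsmul_eq_mul]

theorem occ_codes {vm cap m : ℕ} (T : α → Finset α) (w : α → ℕ → ℕ → ℝ)
    (hw : ∀ a (P H Y : Finset α), H ⊆ P → H.card ≤ vm → Y.card ≤ min cap ((T a).card + m) →
      ((univ.filter fun c : OCode α => ValC a P Y c ∧ c.H = H).card : ℝ) ≤ w a P.card H.card)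
    {M : Finset α} (hM : ∀ a ∈ M, (T a).card + m ≤ cap) (P : α → Finset α) {H : M → Finset α}
    (hH : H ∈ occ_H vm m M P) :
    ((occ_C T M P H).card : ℝ) ≤
      (2⁻¹ : ℝ) ^ m * ∏ a : M, (2 ^ (H a).card * w a (P a).card (H a).card) := by
  obtain ⟨h1, h2⟩ := mem_filter.1 hH
  rw [prod_mul_distrib, prod_pow_eq_pow_sum, h2, ← mul_assoc, ← mul_pow,
    inv_mul_cancel₀ two_ne_zero, one_pow, one_mul, occ_C, Fintype.card_piFinset, Nat.cast_prod]
  refine prod_le_prod (fun a _ => Nat.cast_nonneg _) fun a _ => ?_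
  have h3 := mem_filter.1 (Fintype.mem_piFinset.1 h1 a)
  refine hw a _ _ _ (mem_powerset.1 h3.1) h3.2 ?_
  rw [min_eq_right (hM a a.2)]
  refine (card_union_le _ _).trans (Nat.add_le_add_left ?_ _)
  rw [← h2]
  exact card_biUnion_le

theorem occ_hubs {vm cap m : ℕ} (T : α → Finset α) (w : α → ℕ → ℕ → ℝ) (hw0 : ∀ a k v, 0 ≤ w a k v)
    (hw : ∀ a (P H Y : Finset α), H ⊆ P → H.card ≤ vm → Y.card ≤ min cap ((T a).card + m) →
      ((univ.filter fun c : OCode α => ValC a P Y c ∧ c.H = H).card : ℝ) ≤ w a P.card H.card)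
    {M : Finset α} (hM : ∀ a ∈ M, (T a).card + m ≤ cap) (P : α → Finset α) :
    ∑ H ∈ occ_H vm m M P, ((occ_C T M P H).card : ℝ) ≤
      (2⁻¹ : ℝ) ^ m * ∏ a ∈ M, ∑ v ∈ range (vm + 1),
        ((P a).card.choose v : ℝ) * 2 ^ v * w a (P a).card v := by
  calc _ ≤ ∑ H ∈ occ_H vm m M P,
        (2⁻¹ : ℝ) ^ m * ∏ a : M, (2 ^ (H a).card * w a (P a).card (H a).card) :=
        sum_le_sum fun H hH => occ_codes T w hw hM P hH
    _ ≤ ∑ H ∈ occ_H0 vm M P,
        (2⁻¹ : ℝ) ^ m * ∏ a : M, (2 ^ (H a).card * w a (P a).card (H a).card) := by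
        refine sum_le_sum_of_subset_of_nonneg (filter_subset _ _) fun H _ _ => ?_
        exact mul_nonneg (by positivity)
          (prod_nonneg fun a _ => mul_nonneg (by positivity) (hw0 _ _ _))
    _ = _ := by
        rw [← mul_sum, occ_H0, ← prod_univ_sum (fun a : M => (P a).powerset.filter fun S => S.card ≤ vm)
          (fun (a : M) (S : Finset α) => (2 : ℝ) ^ S.card * w a (P a).card S.card),
          ← Finset.prod_coe_sort M]
        congr 1
        refine prod_congr rfl fun a _ => ?_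
        rw [occ_sum_pow (P a) vm fun v => 2 ^ v * w a (P a).card v]
        simp only [mul_assoc]

theorem card_cred {z : ℝ} {vm cap : ℕ} (hz : 0 < z) (h : cX z vm cap ^ 3 * cR z vm cap ≤ 1 / 8)
    (V V2 : Finset α) (D2 : α → α → Prop) (s : α) (m : ℕ) :
    ((univ.filter fun D : α → α → Prop => CRed V D s V2 D2 m cap vm).card : ℝ) ≤
      (V \ V2).card.factorial * z⁻¹ ^ (V \ V2).card * (2⁻¹ : ℝ) ^ m *
        ∏ a ∈ V2.erase s,
          (1 + cG z vm cap * (min cap ((TT V2 D2 s a).card + m) : ℕ)) := by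
  choose w hw0 hw1 hw2 using fun a =>
    exists_wC (α := α) hz h (min_le_left cap ((TT V2 D2 s a).card + m))
  set E : α → ℝ := fun a => cG z vm cap * (min cap ((TT V2 D2 s a).card + m) : ℕ) with hE
  have hE0 : ∀ a, 0 ≤ E a := fun a => by simpa [hE] using hw2 a 0
  set K : ℝ := (V \ V2).card.factorial * z⁻¹ ^ (V \ V2).card with hK
  have hK0 : 0 ≤ K := by positivity
  calc _ ≤ ∑ M ∈ occ_S (TT V2 D2 s) (V2.erase s) m cap, ∑ P ∈ parts M (V \ V2),
        ∑ H ∈ occ_H vm m M P, ((occ_C (TT V2 D2 s) M P H).card : ℝ) := by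
        have h1 := (card_le_card (occ_cover V V2 D2 s m cap vm)).trans
          (card_biUnion_le.trans (sum_le_sum fun M _ => card_biUnion_le.trans
            (sum_le_sum fun P _ => card_biUnion_le.trans (sum_le_sum fun H _ => card_image_le))))
        exact_mod_cast h1
    _ ≤ ∑ M ∈ occ_S (TT V2 D2 s) (V2.erase s) m cap, K * (2⁻¹ : ℝ) ^ m * ∏ a ∈ M, E a := by
        refine sum_le_sum fun M hM => ?_
        have hM' := (mem_filter.1 hM).2
        refine (sum_le_sum fun P _ =>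
          occ_hubs (TT V2 D2 s) w hw0 (fun a => hw1 a a) hM' P).trans ?_
        rw [← mul_sum, mul_comm K, mul_assoc]
        refine mul_le_mul_of_nonneg_left ?_ (by positivity)
        exact sum_parts M (V \ V2) hz
          (fun a k => ∑ v ∈ range (vm + 1), (k.choose v : ℝ) * 2 ^ v * w a k v)
          (fun a k => sum_nonneg fun v _ => mul_nonneg (by positivity) (hw0 _ _ _)) E
          fun a _ => hw2 a
    _ ≤ ∑ M ∈ (V2.erase s).powerset, K * (2⁻¹ : ℝ) ^ m * ∏ a ∈ M, E a :=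
        sum_le_sum_of_subset_of_nonneg (filter_subset _ _) fun M _ _ =>
          mul_nonneg (by positivity) (prod_nonneg fun a _ => hE0 a)
    _ = _ := by rw [← mul_sum, ← prod_one_add]

end Pool.Agent.Work.MP_5391ad_co
end

-- merged part: Pool.Agent.Work.MP_5391ad_co.QCrude
section
/-! Crude supersolutions. With `n` unserved vertices, `q` in the queue, `r = n - q` unborn:
`acys_crude`: the sum over completions is at most
`r! * (A (n-1))⁻¹ ^ q * ∏_{i<n} A i * exp (∑ ν over unserved)` (for `n ≥ 1`; `A` antitone, so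
`(A (n-2))⁻¹ ≤ (A (n-1))⁻¹`), because `∑_k (ν a)^k / k! ≤ exp (ν a)`.
`acys_level`: the same with the extra factor `∏ f c` over the stack entries,
`f c = 1 + (5/6)^M (6/5)^c`, and `exp (n (5/6)^M)`. With `δ = (5/6)^M`, `u = δ (6/5)^c`, serving an
entry with counter `c` gives the factor
`exp(η [M ≤ c]) (1 + (1 + 6u/5) ∑_{k≥1} (1+δ)^(k-1)/k!) / (1 + u)`, and
`∑_{k≥1} (1+δ)^(k-1)/k! ≤ (e-1) e^δ`, `(e-1) 6/5 ≤ 0.76 e`; for `M ≤ c` one has `u ≥ 1`. So the factor
is at most `e * e^δ`. The start costs `∑_k (2 a0 / A (b-1))^k / k!`. -/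

namespace Pool.Agent.Work.MP_5391ad_co

open Finset
open scoped Classical

variable {α : Type*} [Fintype α]

omit [Fintype α] in
theorem qcrude_push (f : ℕ → ℝ) (h0 : f 0 ≠ 0) (c : ℕ) (l : List α) (st : List (α × ℕ)) :
    ((push c l st).map fun p => f p.2).prod =
      (if l.length = 0 then 1 else f (c + 1) / f 0 * f 0 ^ l.length) *
        (st.map fun p => f p.2).prod := by
  induction l with
  | nil => simp [push]
  | cons x l ih =>
    cases l with
    | nil => simp [push, h0]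
    | cons y l =>
      rw [push, List.map_cons, List.prod_cons, ih]
      simp only [List.length_cons, Nat.succ_ne_zero, if_false]
      ring

omit [Fintype α] in
theorem qcrude_pow (T : Finset α) (g : ℕ → ℝ) :
    ∑ C ∈ T.powerset, ((T.card - C.card).factorial : ℝ) * g C.card =
      T.card.factorial * ∑ k ∈ range (T.card + 1), g k / k.factorial := by
  rw [sum_powerset_apply_card fun k => ((T.card - k).factorial : ℝ) * g k, mul_sum]
  refine sum_congr rfl fun k hk => ?_
  rw [← Nat.choose_mul_factorial_mul_factorial (Nat.lt_succ_iff.1 (mem_range.1 hk)), nsmul_eq_mul]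
  have : (k.factorial : ℝ) ≠ 0 := by positivity
  push_cast
  field_simp

theorem qcrude_exp {x y : ℝ} (hx : 0 ≤ x) (hy : 0 ≤ y) (r : ℕ) :
    ∑ k ∈ range (r + 1), (if k = 0 then 1 else y * x ^ k) / (k.factorial : ℝ) ≤
      1 + y * (Real.exp x - 1) := by
  have h := Real.sum_le_exp_of_nonneg hx (r + 1)
  rw [sum_range_succ'] at h ⊢
  simp only [Nat.succ_ne_zero, if_false, if_true, mul_div_assoc, ← mul_sum, pow_zero,
    Nat.factorial_zero, Nat.cast_one, div_one] at h ⊢
  rw [add_comm]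
  gcongr
  linarith only [h]

omit [Fintype α] in
theorem qcrude_sdiff {R B C : Finset α} (hC : C ⊆ R \ B) :
    (R \ (B ∪ C)).card = (R \ B).card - C.card := by
  rw [← card_sdiff_of_subset hC, sdiff_sdiff_left]
  rfl

theorem qcrude_born {R S B C : Finset α} {a : α} {φ0 ψ φ : α → Finset α} (hC : C ⊆ R \ B)
    (h0 : ∀ v ∈ B, φ0 v ⊆ S) (hψ : ψ ∈ Fintype.piFinset fun v => if v ∈ C then
      R.powerset.filter (fun o => id o ⊆ insert a S ∧ ¬ id o ⊆ S) else {φ0 v})
    (hφ : φ ∈ exts id R.powerset R (insert a S) (B ∪ C) ψ) : born R φ S a = C := by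
  obtain ⟨h1, -, h2⟩ := mem_filter.1 hφ
  ext v
  have h3 := Fintype.mem_piFinset.1 h1 v
  have h4 := Fintype.mem_piFinset.1 hψ v
  rw [born, mem_filter]
  by_cases hv : v ∈ C
  · rw [if_neg fun k => (mem_sdiff.1 k).2 (mem_union_right _ hv), mem_singleton] at h3
    rw [if_pos hv, mem_filter, ← h3] at h4
    exact iff_of_true ⟨(mem_sdiff.1 (hC hv)).1, h4.2⟩ hv
  · refine iff_of_false (fun ⟨k1, k2, k3⟩ => ?_) hv
    by_cases hB : v ∈ B
    · rw [if_neg fun k => (mem_sdiff.1 k).2 (mem_union_left _ hB), mem_singleton] at h3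
      rw [if_neg hv, mem_singleton, ← h3] at h4
      exact k3 (h4 ▸ h0 v hB)
    · exact h2 v (mem_sdiff.2 ⟨k1, fun k => (mem_union.1 k).elim hB hv⟩) k2

section
variable (R : Finset α) (w : Finset α → ℝ) (hw : ∀ T, 0 ≤ w T) (ν : α → ℝ) (hν : ∀ a, 0 ≤ ν a)
  (A : ℕ → ℝ) (hA0 : ∀ n, 0 < A n) (hAm : ∀ i j, i ≤ j → j < R.card → A j ≤ A i)
  (hA : ∀ S ⊆ R, ∀ a ∈ R, a ∉ S →
    ∑ o ∈ R.powerset.filter (fun o => o ⊆ insert a S ∧ ¬ o ⊆ S), w o ≤
      ν a * A (R.card - S.card - 1))
  (f G : ℕ → ℝ) (E : α → ℝ) (hf : ∀ c, 0 < f c) (hG : ∀ c, 0 ≤ G c) (hE : ∀ a, 0 ≤ E a)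
  (hfG : ∀ a c, G c * (1 + f (c + 1) / f 0 * (Real.exp (ν a * f 0) - 1)) ≤ E a * f c)
include hw hν hA0 hAm hA hf hG hE hfG

theorem qcrude_main (n : ℕ) : ∀ (S B : Finset α) (st : List (α × ℕ)) (φ0 : α → Finset α),
    S ⊆ B → B ⊆ R → (R \ S).card = n → (st.map Prod.fst).Nodup →
    (∀ v, v ∈ st.map Prod.fst ↔ v ∈ B ∧ v ∉ S) → (∀ v ∈ B, φ0 v ⊆ S) →
    ∑ φ ∈ exts id R.powerset R S B φ0, (∏ v ∈ R \ B, w (φ v)) *
        ((dfs R φ n S st).map fun p => G p.2).prod ≤
      (R \ B).card.factorial * ((A (n - 1))⁻¹ ^ st.length * ((∏ i ∈ range n, A i) *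
        (∏ u ∈ R \ S, E u) * (st.map fun p => f p.2).prod)) := by
  have hst : ∀ st : List (α × ℕ), 0 ≤ (st.map fun p => f p.2).prod := fun st =>
    List.prod_nonneg fun x hx => by
      obtain ⟨p, -, rfl⟩ := List.mem_map.1 hx
      exact (hf _).le
  have hK : ∀ (n : ℕ) (S : Finset α) (st : List (α × ℕ)), 0 ≤ (∏ i ∈ range n, A i) *
      (∏ u ∈ R \ S, E u) * (st.map fun p => f p.2).prod := fun n S st =>
    mul_nonneg (mul_nonneg (prod_nonneg fun i _ => (hA0 i).le) (prod_nonneg fun u _ => hE u))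
      (hst st)
  induction n with
  | zero =>
    intro S B st φ0 h1 h2 h3 h4 h5 h6
    obtain rfl : S = R := (h1.trans h2).antisymm (sdiff_eq_empty_iff_subset.1 (card_eq_zero.1 h3))
    obtain rfl : S = B := h1.antisymm h2
    obtain rfl : st = [] := by
      cases st with
      | nil => rfl
      | cons p st => exact absurd ((h5 p.1).1 (by simp)) (by simp)
    rw [exts_full]
    simp [dfs]
  | succ n ih =>
    intro S B st φ0 h1 h2 h3 h4 h5 h6
    cases st with
    | nil =>
      obtain rfl : S = B := h1.antisymm fun v hv => by simpa [hv] using h5 v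
      rw [exts_dead _ _ (card_pos.1 (h3 ▸ n.succ_pos)), sum_empty]
      exact mul_nonneg (Nat.cast_nonneg _) (mul_nonneg (pow_nonneg (inv_pos.2 (hA0 _)).le _)
        (hK _ _ _))
    | cons p st =>
      obtain ⟨a, c⟩ := p
      obtain ⟨ha, haS⟩ := (h5 a).1 (by simp)
      have hRS : R \ S = insert a (R \ insert a S) := by
        rw [sdiff_insert, insert_erase (mem_sdiff.2 ⟨h2 ha, haS⟩)]
      have haR : a ∉ R \ insert a S := by simp
      have hn : (R \ insert a S).card = n := by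
        rw [hRS, card_insert_of_notMem haR] at h3
        omega
      have hn' : R.card - S.card - 1 = n := by
        rw [← card_sdiff_of_subset (h1.trans h2), h3]
        rfl
      have hlt : A n ≤ A (n - 1) := hAm _ _ (Nat.sub_le _ _) (by
        have := card_le_card (sdiff_subset (s := R) (t := S))
        omega)
      have hAa := hA S (h1.trans h2) a (h2 ha) haS
      rw [hn'] at hAa
      rw [List.map_cons, List.nodup_cons] at h4
      rw [exts_step id R.powerset h1 h2 ha]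
      let K := (∏ i ∈ range n, A i) * (∏ u ∈ R \ insert a S, E u) * (st.map fun p => f p.2).prod
      refine le_trans (sum_le_sum (g := fun C => (((R \ B).card - C.card).factorial : ℝ) *
        ((if C.card = 0 then 1 else f (c + 1) / f 0 * (ν a * f 0) ^ C.card) *
          (G c * ((A n)⁻¹ ^ st.length * K)))) fun C hC => ?_) ?_
      · have hC' := mem_powerset.1 hC
        have hP : 0 ≤ if C.card = 0 then 1 else f (c + 1) / f 0 * f 0 ^ C.card := by
          have := hf 0
          have := hf (c + 1)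
          split_ifs <;> positivity
        have hX : 0 ≤ G c * ((((R \ B).card - C.card).factorial : ℝ) *
            ((A (n - 1))⁻¹ ^ (C.card + st.length) *
              ((if C.card = 0 then 1 else f (c + 1) / f 0 * f 0 ^ C.card) * K))) :=
          mul_nonneg (hG c) (mul_nonneg (Nat.cast_nonneg _) (mul_nonneg
            (pow_nonneg (inv_pos.2 (hA0 _)).le _) (mul_nonneg hP (hK _ _ _))))
        refine le_trans (sum_le_sum fun ψ hψ => mul_le_mul_of_nonneg_left (c := G c *
          ((((R \ B).card - C.card).factorial : ℝ) * ((A (n - 1))⁻¹ ^ (C.card + st.length) *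
            ((if C.card = 0 then 1 else f (c + 1) / f 0 * f 0 ^ C.card) * K)))) ?_
          (prod_nonneg fun v _ => hw _)) ?_
        · have h7 := ih (insert a S) (B ∪ C) (push c C.toList st) ψ
            (insert_subset (mem_union_left _ ha) (h1.trans subset_union_left))
            (union_subset h2 (hC'.trans sdiff_subset)) hn (by
              rw [map_fst_push]
              exact List.Nodup.append C.nodup_toList h4.2 fun v k1 k2 =>
                (mem_sdiff.1 (hC' (mem_toList.1 k1))).2 ((h5 v).1 (List.mem_cons_of_mem _ k2)).1)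
            (fun v => by
              have k1 := h5 v
              have k2 := @hC' v
              have k3 := @h1 v
              rw [List.map_cons, List.mem_cons] at k1
              rw [mem_sdiff] at k2
              rw [map_fst_push, List.mem_append, mem_toList, mem_union, mem_insert]
              by_cases e : v = a
              · subst e
                have := h4.1
                (clear * - h4 ha k1 k2 k3 this; grind)
              · (clear * - e h4 k1 k2 k3; grind))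
            (fun v hv => by
              have k1 := Fintype.mem_piFinset.1 hψ v
              by_cases e : v ∈ C
              · rw [if_pos e] at k1
                exact (mem_filter.1 k1).2.1
              · rw [if_neg e, mem_singleton] at k1
                exact k1 ▸ (h6 v ((mem_union.1 hv).resolve_right e)).trans (subset_insert _ _))
          rw [length_push, qcrude_push f (hf 0).ne', length_toList, qcrude_sdiff hC'] at h7
          refine le_trans (le_of_eq ?_) ((mul_le_mul_of_nonneg_left h7 (hG c)).trans (le_of_eq ?_))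
          · rw [mul_sum]
            refine sum_congr rfl fun φ hφ => ?_
            rw [dfs, qcrude_born hC' h6 hψ hφ, List.map_cons, List.prod_cons, mul_left_comm]
          · simp only [K]
            ring
        · rw [← sum_mul, sum_pi_born]
          refine (mul_le_mul_of_nonneg_right (pow_le_pow_left₀ (sum_nonneg fun o _ => hw o) hAa _)
            hX).trans ?_
          have h7 : A n ^ C.card * (A (n - 1))⁻¹ ^ (C.card + st.length) ≤ (A n)⁻¹ ^ st.length := by
            refine (mul_le_mul_of_nonneg_left (pow_le_pow_left₀ (inv_pos.2 (hA0 _)).le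
              (inv_anti₀ (hA0 n) hlt) _) (pow_nonneg (hA0 n).le _)).trans (le_of_eq ?_)
            rw [pow_add, ← mul_assoc, ← mul_pow, mul_inv_cancel₀ (hA0 n).ne', one_pow, one_mul]
          refine le_trans (le_of_eq ?_) ((mul_le_mul_of_nonneg_right h7 (a := ν a ^ C.card * (G c *
            ((((R \ B).card - C.card).factorial : ℝ) *
              ((if C.card = 0 then 1 else f (c + 1) / f 0 * f 0 ^ C.card) * K))))
            (mul_nonneg (pow_nonneg (hν a) _) (mul_nonneg (hG c) (mul_nonneg (Nat.cast_nonneg _)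
              (mul_nonneg hP (hK _ _ _)))))).trans (le_of_eq ?_))
          · ring
          · split_ifs with e
            · rw [e]
              ring
            · ring
      · rw [qcrude_pow (R \ B) fun k => (if k = 0 then 1 else f (c + 1) / f 0 * (ν a * f 0) ^ k) *
          (G c * ((A n)⁻¹ ^ st.length * K))]
        refine mul_le_mul_of_nonneg_left ?_ (Nat.cast_nonneg _)
        have h7 : 0 ≤ (A n)⁻¹ ^ st.length * K :=
          mul_nonneg (pow_nonneg (inv_pos.2 (hA0 _)).le _) (hK _ _ _)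
        simp only [mul_div_right_comm _ (G c * _), ← sum_mul]
        refine (mul_le_mul_of_nonneg_right (qcrude_exp (mul_nonneg (hν a) (hf 0).le)
          (div_pos (hf _) (hf 0)).le _) (mul_nonneg (hG c) h7)).trans ?_
        rw [← mul_assoc, mul_comm _ (G c)]
        refine (mul_le_mul_of_nonneg_right (hfG a c) h7).trans (le_of_eq ?_)
        rw [hRS, prod_insert haR, prod_range_succ, List.map_cons, List.prod_cons, List.length_cons,
          Nat.add_sub_cancel, pow_succ]
        have := (hA0 n).ne'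
        simp only [K]
        field_simp

theorem qcrude_start : ∑ φ ∈ acys id R.powerset ∅ R, (∏ v ∈ R, w (φ v)) *
      ((dfs0 R φ).map fun p => G p.2).prod ≤
    R.card.factorial * (Real.exp (w ∅ * f 0 / A (R.card - 1)) *
      ((∏ i ∈ range R.card, A i) * ∏ u ∈ R, E u)) := by
  have hK : 0 ≤ (∏ i ∈ range R.card, A i) * ∏ u ∈ R, E u :=
    mul_nonneg (prod_nonneg fun i _ => (hA0 i).le) (prod_nonneg fun u _ => hE u)
  have hO : R.powerset.filter (fun o => id o = ∅) = {∅} := by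
    ext o
    simp +contextual
  rw [acys_init, hO]
  refine le_trans (sum_le_sum (g := fun C => ((R.card - C.card).factorial : ℝ) *
    ((w ∅ * f 0 / A (R.card - 1)) ^ C.card * ((∏ i ∈ range R.card, A i) * ∏ u ∈ R, E u)))
    fun C hC => ?_) ?_
  · have hC' := mem_powerset.1 hC
    refine le_trans (sum_le_sum fun ψ hψ => mul_le_mul_of_nonneg_left
      (c := ((R.card - C.card).factorial : ℝ) * ((A (R.card - 1))⁻¹ ^ C.card *
        ((∏ i ∈ range R.card, A i) * (∏ u ∈ R, E u) * f 0 ^ C.card))) ?_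
      (prod_nonneg fun v _ => hw _)) (le_of_eq ?_)
    · have h0 : ∀ v, ψ v = ∅ := fun v => by simpa using Fintype.mem_piFinset.1 hψ v
      have h1 := qcrude_main R w hw ν hν A hA0 hAm hA f G E hf hG hE hfG R.card ∅ C
        (C.toList.map fun v => (v, 0)) ψ (empty_subset _) hC' (by rw [sdiff_empty])
        (by simpa [Function.comp_def] using C.nodup_toList) (by simp) fun v _ => (h0 v).le
      rw [card_sdiff_of_subset hC', sdiff_empty] at h1
      refine le_trans (le_of_eq (sum_congr rfl fun φ hφ => ?_)) (h1.trans (le_of_eq ?_))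
      · obtain ⟨k1, -, k2⟩ := mem_filter.1 hφ
        have e : R.filter (fun v => φ v = ∅) = C := by
          ext v
          have k3 := Fintype.mem_piFinset.1 k1 v
          rw [mem_filter]
          by_cases hv : v ∈ C
          · rw [if_neg fun k => (mem_sdiff.1 k).2 hv, mem_singleton, h0] at k3
            exact iff_of_true ⟨hC' hv, k3⟩ hv
          · exact iff_of_false (fun k => k2 v (mem_sdiff.2 ⟨k.1, hv⟩) k.2.le) hv
        rw [dfs0, e]
      · simp [Function.comp_def]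
    · rw [← sum_mul, sum_pi_born, sum_singleton]
      ring
  · rw [qcrude_pow R fun k => (w ∅ * f 0 / A (R.card - 1)) ^ k *
      ((∏ i ∈ range R.card, A i) * ∏ u ∈ R, E u)]
    refine mul_le_mul_of_nonneg_left ?_ (Nat.cast_nonneg _)
    simp only [mul_div_right_comm _ (_ * ∏ u ∈ R, E u), ← sum_mul]
    exact mul_le_mul_of_nonneg_right (Real.sum_le_exp_of_nonneg
      (div_nonneg (mul_nonneg (hw _) (hf 0).le) (hA0 _).le) _) hK

end

theorem qcrude_ineq {δ u g : ℝ} (h0 : 0 < δ) (hu : 0 ≤ u) (hg0 : 0 ≤ g)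
    (hg : g ≤ 1 ∨ g ≤ 20 / 19 ∧ 1 ≤ u) :
    g * (1 + (1 + u * (6 / 5)) / (1 + δ) * (Real.exp (1 + δ) - 1)) ≤
      Real.exp 1 * Real.exp δ * (1 + u) := by
  have e1 := Real.exp_one_gt_d9
  have e2 := Real.exp_one_lt_d9
  have h1 : 1 ≤ Real.exp δ := Real.one_le_exp h0.le
  have h2 : (1 - δ) * Real.exp δ ≤ 1 := by
    have := mul_le_mul_of_nonneg_right (Real.add_one_le_exp (-δ)) (Real.exp_pos δ).le
    rwa [← Real.exp_add, neg_add_cancel, Real.exp_zero, neg_add_eq_sub] at this
  have h3 : (Real.exp (1 + δ) - 1) / (1 + δ) ≤ (Real.exp 1 - 1) * Real.exp δ := by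
    rw [div_le_iff₀ (by linarith only [h0]), Real.exp_add]
    linarith only [h2, h0, e1, mul_nonneg (mul_nonneg h0.le (Real.exp_pos δ).le)
      (show 0 ≤ Real.exp 1 - 2 by linarith)]
  have h4 : 1 + (1 + u * (6 / 5)) / (1 + δ) * (Real.exp (1 + δ) - 1) ≤
      Real.exp 1 * Real.exp δ * (1 + 19 / 25 * u) := by
    rw [div_mul_comm]
    linarith only [h1, h3, hu, e2, mul_le_mul_of_nonneg_right h3 (show 0 ≤ 1 + u * (6 / 5) by positivity),
      mul_nonneg (mul_nonneg hu (Real.exp_pos δ).le)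
        (show 0 ≤ 19 / 25 * Real.exp 1 - 6 / 5 * (Real.exp 1 - 1) by linarith)]
  refine (mul_le_mul_of_nonneg_left h4 hg0).trans ?_
  rw [mul_left_comm]
  refine mul_le_mul_of_nonneg_left ?_ (by positivity)
  rcases hg with hg | ⟨hg, hu1⟩ <;> nlinarith

theorem qcrude_list (η : ℝ) (M : ℕ) (l : List (ℕ × ℕ)) :
    Real.exp (η * (l.filter fun p => M ≤ p.2).length) =
      (l.map fun p => if M ≤ p.2 then Real.exp η else 1).prod := by
  induction l with
  | nil => simp
  | cons p l ih =>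
    rw [List.map_cons, List.prod_cons, ← ih]
    by_cases h : M ≤ p.2
    · simp [h, mul_add, Real.exp_add, mul_comm]
    · simp [h]

theorem acys_crude (R : Finset α) (w : Finset α → ℝ) (hw : ∀ T, 0 ≤ w T) (ν : α → ℝ)
    (hν : ∀ a, 0 ≤ ν a) (A : ℕ → ℝ) (hA0 : ∀ n, 0 < A n)
    (hAm : ∀ i j, i ≤ j → j < R.card → A j ≤ A i)
    (hA : ∀ S ⊆ R, ∀ a ∈ R, a ∉ S →
      ∑ o ∈ R.powerset.filter (fun o => o ⊆ insert a S ∧ ¬ o ⊆ S), w o ≤
        ν a * A (R.card - S.card - 1)) :
    ∑ φ ∈ acys id R.powerset ∅ R, ∏ v ∈ R, w (φ v) ≤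
      R.card.factorial * Real.exp (w ∅ / A (R.card - 1)) * (∏ i ∈ range R.card, A i) *
        Real.exp (∑ u ∈ R, ν u) := by
  have h := qcrude_start R w hw ν hν A hA0 hAm hA (fun _ => 1) (fun _ => 1)
    (fun a => Real.exp (ν a)) (fun _ => one_pos) (fun _ => zero_le_one)
    (fun _ => (Real.exp_pos _).le) fun a c => by simp
  simpa [Real.exp_sum, mul_assoc] using h

theorem acys_level (R : Finset α) (w : Finset α → ℝ) (hw : ∀ T, 0 ≤ w T) (A : ℕ → ℝ)
    (hA0 : ∀ n, 0 < A n) (hAm : ∀ i j, i ≤ j → j < R.card → A j ≤ A i)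
    (hA : ∀ S ⊆ R, ∀ a ∈ R, a ∉ S →
      ∑ o ∈ R.powerset.filter (fun o => o ⊆ insert a S ∧ ¬ o ⊆ S), w o ≤
        A (R.card - S.card - 1)) (M : ℕ) {η : ℝ} (h0 : 0 ≤ η) (h1 : η ≤ 1 / 20) :
    ∑ φ ∈ acys id R.powerset ∅ R, (∏ v ∈ R, w (φ v)) *
        Real.exp (η * ((dfs0 R φ).filter fun p => M ≤ p.2).length) ≤
      R.card.factorial * Real.exp (2 * w ∅ / A (R.card - 1)) *
        (∏ i ∈ range R.card, (Real.exp 1 * A i)) * Real.exp (R.card * (5 / 6) ^ M) := by
  have hδ : (0 : ℝ) < (5 / 6) ^ M := by positivity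
  have hδ1 : (5 / 6 : ℝ) ^ M ≤ 1 := pow_le_one₀ (by norm_num) (by norm_num)
  have h := qcrude_start R w hw (fun _ => 1) (fun _ => zero_le_one) A hA0 hAm
    (fun S hS a ha haS => (hA S hS a ha haS).trans (one_mul _).ge)
    (fun c => 1 + (5 / 6) ^ M * (6 / 5) ^ c) (fun c => if M ≤ c then Real.exp η else 1)
    (fun _ => Real.exp 1 * Real.exp ((5 / 6) ^ M)) (fun _ => by positivity)
    (fun _ => by split_ifs <;> positivity) (fun _ => by positivity) fun _ c => by
      rw [pow_zero, mul_one, one_mul, pow_succ, ← mul_assoc]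
      refine qcrude_ineq hδ (by positivity) (by split_ifs <;> positivity) ?_
      split_ifs with e
      · refine Or.inr ⟨?_, ?_⟩
        · have h2 := mul_le_mul_of_nonneg_right (Real.add_one_le_exp (-η)) (Real.exp_pos η).le
          rw [← Real.exp_add, neg_add_cancel, Real.exp_zero] at h2
          (refine le_of_not_gt fun h_nl => ?_; linarith only [h_nl, h1, h2, Real.exp_pos η, mul_nonneg_of_nonpos_of_nonpos (Mathlib.Tactic.Linarith.sub_nonpos_of_le h1) (le_of_lt (Mathlib.Tactic.Linarith.sub_neg_of_lt h_nl))])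
        · refine le_trans (le_of_eq ?_) (mul_le_mul_of_nonneg_left
            (pow_le_pow_right₀ (by norm_num) e) hδ.le)
          rw [← mul_pow]
          norm_num
      · exact Or.inl le_rfl
  simp only [qcrude_list]
  refine h.trans ?_
  have h2 : Real.exp (w ∅ * (1 + (5 / 6) ^ M * (6 / 5) ^ 0) / A (R.card - 1)) ≤
      Real.exp (2 * w ∅ / A (R.card - 1)) := by
    refine Real.exp_le_exp.2 (div_le_div_of_nonneg_right ?_ (hA0 _).le)
    linarith only [hδ1, hw, hw ∅, mul_nonneg_of_nonpos_of_nonpos (Mathlib.Tactic.Linarith.sub_nonpos_of_le hδ1) (Mathlib.Tactic.Linarith.sub_nonpos_of_le (hw ∅))]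
  rw [mul_assoc, mul_assoc]
  refine mul_le_mul_of_nonneg_left (mul_le_mul h2 (le_of_eq ?_) (mul_nonneg
    (prod_nonneg fun i _ => (hA0 i).le) (prod_nonneg fun _ _ => by positivity))
    (Real.exp_pos _).le) (Nat.cast_nonneg _)
  rw [prod_mul_distrib, prod_mul_distrib, prod_const, prod_const, prod_const, card_range,
    Real.exp_nat_mul]
  ring

end Pool.Agent.Work.MP_5391ad_co
end

-- merged part: Pool.Agent.Work.MP_5391ad_co.MChain
section
/-! The chain of the three counts. Write `g = cG`, `n = card α`, `N = |W|`, `D3 = rootD s W Δ`,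
`V3 = insert s W`. Cover the set by the union over `W, Δ, mR, V2, D2, mC, V1, D1` (with
`V3 ⊆ V2 ⊆ V1`, `mC, mR ≤ n` because the hub sets are disjoint subsets of `univ`) and bound from
the inside: `card_gred` with `i = nsrc W (rv Δ)`, `o = nsrc W Δ` (`card_src_le`); `card_cred` for
`D1`: `∏ (1 + x) ≤ exp (∑ x)`, for `a ∈ W` use the last clause of `Red3` and `sum_TT_le` for
`rv Δ` (`rootD_rv`, `IsDag.rev`), for `a ∈ V2 \ V3` use `cap`; `card_cred` for `rv D2`
(`D2 ↦ rv D2` is a bijection) and `sum_TT_le`. The sums over `mC`, `mR` are geometric: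
`2⁻¹ e^{3 g n} ≤ 2/3`. For `K = n - 1 - N` the sum over `V3 ⊆ V2 ⊆ V1` of
`|univ \ V1|! |V1 \ V2|! |V2 \ V3|!` is at most `(K+1)^2 K! ≤ n^2 K!`. -/

namespace Pool.Agent.Work.MP_5391ad_co

open Finset
open scoped Classical

variable {α : Type*} [Fintype α]

/-- the weight of a core -/
noncomputable def coreW (g : ℝ) (W : Finset α) (Δ : α → α → Prop) : ℝ :=
  gam (nsrc W Δ) * gam (nsrc W (rv Δ)) * Real.exp (g * SR W Δ) * Real.exp (g * SR W (rv Δ))

/-- the number of points with a property -/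
noncomputable def mchain_cnt {β : Type*} [Fintype β] (p : β → Prop) : ℝ := (univ.filter p).card

theorem mchain_eq {β : Type*} [Fintype β] (p : β → Prop) [DecidablePred p] :
    mchain_cnt p = (univ.filter p).card := by
  unfold mchain_cnt
  congr

theorem mchain_cover {β γ : Type*} [Fintype β] {p : β → Prop} (T : Finset γ) (R : γ → β → Prop)
    (h : ∀ x, p x → ∃ t ∈ T, R t x) {b : γ → ℝ}
    (hb : ∀ t ∈ T, mchain_cnt (R t) ≤ b t) : mchain_cnt p ≤ ∑ t ∈ T, b t := by
  refine le_trans ?_ (sum_le_sum hb)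
  unfold mchain_cnt
  rw [← Nat.cast_sum, Nat.cast_le]
  refine le_trans (card_le_card fun x hx => ?_) card_biUnion_le
  obtain ⟨t, ht, h1⟩ := h x (mem_filter.1 hx).2
  exact mem_biUnion.2 ⟨t, ht, mem_filter.2 ⟨mem_univ _, h1⟩⟩

theorem mchain_fib {β γ : Type*} [Fintype β] [Fintype γ] {p : β → Prop} (q q' : γ → Prop)
    (R : γ → β → Prop) (h : ∀ x, p x → ∃ t, q t ∧ q' t ∧ R t x) {a b : ℝ} (h0 : 0 ≤ b)
    (ha : mchain_cnt q ≤ a) (hb : ∀ t, q' t → mchain_cnt (R t) ≤ b) : mchain_cnt p ≤ a * b := by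
  refine (mchain_cover (univ.filter fun t => q t ∧ q' t) R (fun x hx => ?_)
    fun t ht => hb t (mem_filter.1 ht).2.2).trans ?_
  · obtain ⟨t, h1, h2, h3⟩ := h x hx
    exact ⟨t, mem_filter.2 ⟨mem_univ _, h1, h2⟩, h3⟩
  · rw [sum_const, nsmul_eq_mul]
    refine mul_le_mul_of_nonneg_right (le_trans (Nat.cast_le.2 (card_le_card fun t ht => ?_)) ha) h0
    exact mem_filter.2 ⟨mem_univ _, (mem_filter.1 ht).2.1⟩

omit [Fintype α] in
theorem mchain_prod {g : ℝ} (hg : 0 ≤ g) (T : Finset α) (m : α → ℕ) {B : ℕ}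
    (h : ∑ a ∈ T, m a ≤ B) : ∏ a ∈ T, (1 + g * m a) ≤ Real.exp (g * B) := by
  refine le_trans (prod_le_prod (fun a _ => by positivity) fun a _ =>
    (add_comm _ _).trans_le (Real.add_one_le_exp (g * m a))) ?_
  rw [← Real.exp_sum, ← mul_sum, ← Nat.cast_sum]
  exact Real.exp_le_exp.2 (mul_le_mul_of_nonneg_left (Nat.cast_le.2 h) hg)

theorem mchain_sub {A B : Finset α} {s : α} (hs : s ∈ A) (h : A ⊆ B) :
    ∑ V ∈ Icc A B, ((B \ V).card.factorial : ℝ) * (V \ A).card.factorial ≤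
      Fintype.card α * (B \ A).card.factorial := by
  have h1 : ∑ V ∈ Icc A B, ((B \ V).card.factorial : ℝ) * (V \ A).card.factorial =
      ∑ C ∈ (B \ A).powerset, (((B \ A).card - C.card).factorial : ℝ) * C.card.factorial := by
    refine sum_nbij' (· \ A) (A ∪ ·) (fun V hV => ?_) (fun C hC => ?_) (fun V hV => ?_)
      (fun C hC => ?_) fun V hV => ?_
    · exact mem_powerset.2 (sdiff_subset_sdiff (mem_Icc.1 hV).2 subset_rfl)
    · exact mem_Icc.2 ⟨subset_union_left,
        union_subset h ((mem_powerset.1 hC).trans sdiff_subset)⟩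
    · exact union_sdiff_of_subset (mem_Icc.1 hV).1
    · exact union_sdiff_cancel_left (disjoint_sdiff.mono_right (mem_powerset.1 hC))
    · have h2 := card_le_card (mem_Icc.1 hV).1
      have h3 := card_le_card (mem_Icc.1 hV).2
      rw [card_sdiff_of_subset (mem_Icc.1 hV).1, card_sdiff_of_subset (mem_Icc.1 hV).2,
        card_sdiff_of_subset h, show B.card - A.card - (V.card - A.card) = B.card - V.card by omega]
  rw [h1, qcrude_pow (B \ A) fun k => k.factorial, mul_comm]
  refine mul_le_mul_of_nonneg_right ?_ (Nat.cast_nonneg _)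
  rw [sum_congr rfl fun k _ => div_self (Nat.cast_ne_zero.2 k.factorial_ne_zero), sum_const,
    card_range, nsmul_one, Nat.cast_le]
  exact card_lt_card (ssubset_univ_iff.2 fun e => (mem_sdiff.1 (e ▸ mem_univ s)).2 hs)

theorem mchain_geom (m : ℕ) : ∑ k ∈ range m, (2 / 3 : ℝ) ^ k ≤ 3 := by
  rw [geom_sum_eq (by norm_num), div_le_iff_of_neg (by norm_num)]
  have : (0 : ℝ) ≤ (2 / 3) ^ m := by positivity
  linarith only [this]

theorem mchain_exp {x : ℝ} (h : x < 1) : Real.exp x ≤ (1 - x)⁻¹ := by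
  rw [le_inv_comm₀ (Real.exp_pos x) (by linarith), ← Real.exp_neg]
  linarith [Real.add_one_le_exp (-x)]

theorem mchain_num {g y : ℝ} {N cap mR mC S S' K1 K2 K3 : ℕ} (hg0 : 0 ≤ g) (hy : 0 ≤ y)
    (hg : g * N ≤ 1 / 12) :
    y ^ K3 * 2⁻¹ ^ mR * Real.exp (g * (S + N + N * mR : ℕ)) * (y ^ K2 * 2⁻¹ ^ mC *
      Real.exp (g * (S' + N + N * (2 * mR + mC) + K3 * cap : ℕ))) * y ^ K1 ≤
    (2 / 3) ^ mR * (2 / 3) ^ mC * (6 / 5 * (y * Real.exp (g * cap)) ^ (K1 + K2 + K3) *
      Real.exp (g * S) * Real.exp (g * S')) := by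
  have h0 : 0 ≤ g * N := by positivity
  have h1 : Real.exp (2 * (g * N)) ≤ 6 / 5 :=
    (Real.exp_le_exp.2 (show _ ≤ 1 / 6 by linarith only [hg])).trans
      ((mchain_exp (by norm_num)).trans (by norm_num))
  have h2 : 2⁻¹ * Real.exp (3 * (g * N)) ≤ 2 / 3 := by
    linarith only [hg, (Real.exp_le_exp.2 (show 3 * (g * N) ≤ 1 / 4 by linarith)).trans
      ((mchain_exp (by norm_num)).trans (show _ ≤ 4 / 3 by norm_num))]
  have h3 : 2⁻¹ * Real.exp (g * N) ≤ 2 / 3 := by
    linarith only [h2, h0, Real.exp_le_exp.2 (show g * N ≤ 3 * (g * N) by linarith)]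
  have h4 : Real.exp (g * cap) ^ K3 ≤ Real.exp (g * cap) ^ (K1 + K2 + K3) :=
    pow_le_pow_right₀ (Real.one_le_exp (by positivity)) le_add_self
  calc _ = (2⁻¹ * Real.exp (3 * (g * N))) ^ mR * (2⁻¹ * Real.exp (g * N)) ^ mC *
        (Real.exp (2 * (g * N)) * (y ^ (K1 + K2 + K3) * Real.exp (g * cap) ^ K3) *
          Real.exp (g * S) * Real.exp (g * S')) := by
        have e : Real.exp (g * (S + N + N * mR : ℕ)) *
            Real.exp (g * (S' + N + N * (2 * mR + mC) + K3 * cap : ℕ)) =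
            Real.exp (3 * (g * N)) ^ mR * Real.exp (g * N) ^ mC * Real.exp (2 * (g * N)) *
              Real.exp (g * cap) ^ K3 * Real.exp (g * S) * Real.exp (g * S') := by
          simp only [← Real.exp_nat_mul, ← Real.exp_add]
          congr 1
          push_cast
          ring
        linear_combination (y ^ (K1 + K2 + K3) * 2⁻¹ ^ mR * 2⁻¹ ^ mC) * e
    _ ≤ _ := by
        rw [mul_pow y]
        gcongr

/-- the reductions with fixed vertex sets and numbers of hubs -/
def mchain_R (vm cap : ℕ) (s : α) (W : Finset α) (Δ : α → α → Prop) (mR mC : ℕ)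
    (V1 V2 : Finset α) (D : α → α → Prop) : Prop :=
  ∃ D2, CRed V2 (rv D2) s (insert s W) (rv (rootD s W Δ)) mR cap vm ∧
    (∀ a ∈ W, (TT V2 D2 s a).card ≤ (TT (insert s W) (rootD s W Δ) s a).card + 2 * mR) ∧
    ∃ D1, CRed V1 D1 s V2 D2 mC cap vm ∧ ((∀ x, Snk D1 s x → Snk (rootD s W Δ) s x) ∧
      ∀ x, Src D1 s x → Src (rootD s W Δ) s x) ∧ ∃ k, GRed univ D s V1 D1 k vm

theorem mchain_g {z : ℝ} (hz : 0 < z) (vm cap : ℕ) : 0 ≤ cG z vm cap := by
  unfold cG cX cR
  positivity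

theorem mchain_gam (o : ℕ) : 0 ≤ gam o := by
  unfold gam
  positivity

section
variable {z : ℝ} {vm cap : ℕ} (hz : 0 < z) (h : cX z vm cap ^ 3 * cR z vm cap ≤ 1 / 8) {s : α}
  {W : Finset α} {Δ : α → α → Prop} (hΔ : IsDag W Δ) (hs : s ∉ W)
  (hg : cG z vm cap * Fintype.card α ≤ 1 / 12)
include hz h hΔ hs hg

theorem mchain_term (mR mC : ℕ) {V1 V2 : Finset α} (h1 : V2 ⊆ V1) (h2 : insert s W ⊆ V2) :
    mchain_cnt (mchain_R vm cap s W Δ mR mC V1 V2) ≤
      (2 / 3) ^ mR * ((2 / 3) ^ mC * ((univ \ V1).card.factorial * ((V1 \ V2).card.factorial *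
        (V2 \ insert s W).card.factorial) * (6 / 5 *
          (z⁻¹ * Real.exp (cG z vm cap * cap)) ^ (Fintype.card α - 1 - W.card) *
            coreW (cG z vm cap) W Δ))) := by
  have hg0 := mchain_g hz vm cap
  have k1 := mchain_gam (nsrc W Δ)
  have k2 := mchain_gam (nsrc W (rv Δ))
  have k3 : (mchain_cnt fun D2 : α → α → Prop =>
      CRed V2 (rv D2) s (insert s W) (rv (rootD s W Δ)) mR cap vm) ≤
      (V2 \ insert s W).card.factorial * z⁻¹ ^ (V2 \ insert s W).card * 2⁻¹ ^ mR *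
        Real.exp (cG z vm cap * (SR W Δ + W.card + W.card * mR : ℕ)) := by
    refine le_trans (Nat.cast_le.2 (card_le_card_of_injOn rv (fun D hD => ?_) fun D _ D' _ e =>
      congrArg rv e)) ((card_cred hz h V2 (insert s W) (rv (rootD s W Δ)) s mR).trans
        (mul_le_mul_of_nonneg_left (mchain_prod hg0 _ _ ?_) (by positivity)))
    · simpa using hD
    · rw [erase_insert hs]
      refine (sum_le_sum fun a _ => min_le_right _ _).trans ?_
      rw [sum_add_distrib, sum_const, smul_eq_mul]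
      exact Nat.add_le_add_right (sum_TT_le hΔ hs) _
  refine (mchain_fib _ _ _ (fun D hD => hD) (b := (V1 \ V2).card.factorial *
    z⁻¹ ^ (V1 \ V2).card * 2⁻¹ ^ mC * Real.exp (cG z vm cap * (SR W (rv Δ) + W.card +
      W.card * (2 * mR + mC) + (V2 \ insert s W).card * cap : ℕ)) *
      (gam (nsrc W (rv Δ)) * gam (nsrc W Δ) * ((univ \ V1).card.factorial *
        z⁻¹ ^ (univ \ V1).card))) (by positivity) k3 fun D2 hD2 => ?_).trans ?_
  · refine mchain_fib _ _ _ (fun D hD => hD) (by positivity) ((card_cred hz h V1 V2 D2 s mC).trans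
      (mul_le_mul_of_nonneg_left (mchain_prod hg0 _ _ ?_) (by positivity))) fun D1 hD1 =>
        (mchain_eq _).trans_le (card_gred hz h univ V1 D1 s
          (le_trans (card_le_card ?_) (card_src_le hΔ hs).2)
          (le_trans (card_le_card ?_) (card_src_le hΔ hs).1))
    · refine (sum_le_sum_of_subset (t := W ∪ V2 \ insert s W) fun a ha => ?_).trans ?_
      · rw [mem_erase] at ha
        rw [mem_union, mem_sdiff, mem_insert]
        tauto
      · rw [sum_union (disjoint_sdiff.mono_left (subset_insert s W))]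
        refine Nat.add_le_add ((sum_le_sum fun a ha => (min_le_right _ _).trans
          ((Nat.add_le_add_right (hD2 a ha) mC).trans (add_assoc _ _ _).le)).trans ?_)
          ((sum_le_sum fun a _ => min_le_left _ _).trans (by rw [sum_const, smul_eq_mul]))
        have k4 := sum_TT_le hΔ.rev hs
        rw [rootD_rv] at k4
        rw [sum_add_distrib, sum_const, smul_eq_mul]
        exact Nat.add_le_add_right k4 _
    · exact monotone_filter_right _ fun x _ => hD1.1 x
    · exact monotone_filter_right _ fun x _ => hD1.2 x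
  · have k4 : Fintype.card α - 1 - W.card =
        (univ \ V1).card + (V1 \ V2).card + (V2 \ insert s W).card := by
      have e1 := card_le_card h1
      have e2 := card_le_card h2
      have e3 := card_le_univ V1
      rw [card_sdiff_of_subset h1, card_sdiff_of_subset h2, card_sdiff_of_subset (subset_univ _),
        card_univ]
      rw [card_insert_of_notMem hs] at e2 ⊢
      omega
    have k5 := mul_le_mul_of_nonneg_left (mchain_num (cap := cap) (mR := mR) (mC := mC)
      (S := SR W Δ) (S' := SR W (rv Δ)) (K1 := (univ \ V1).card) (K2 := (V1 \ V2).card)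
      (K3 := (V2 \ insert s W).card) hg0 (inv_pos.2 hz).le (le_trans (mul_le_mul_of_nonneg_left
        (Nat.cast_le.2 (card_le_univ W)) hg0) hg))
      (show 0 ≤ gam (nsrc W Δ) * gam (nsrc W (rv Δ)) * ((univ \ V1).card.factorial *
        ((V1 \ V2).card.factorial * (V2 \ insert s W).card.factorial)) by positivity)
    rw [k4, coreW]
    linarith only [k5]

theorem mchain_core : (mchain_cnt fun D => ∃ mR ∈ range (cap + 1), ∃ mC ∈ range (cap + 1),
      ∃ V1 ∈ Icc (insert s W) univ, ∃ V2 ∈ Icc (insert s W) V1,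
        mchain_R vm cap s W Δ mR mC V1 V2 D) ≤
    11 * (Fintype.card α : ℝ) ^ 2 * ((Fintype.card α - 1 - W.card).factorial *
      (z⁻¹ * Real.exp (cG z vm cap * cap)) ^ (Fintype.card α - 1 - W.card) *
        coreW (cG z vm cap) W Δ) := by
  refine (mchain_cover _ _ (fun _ k => k) fun mR _ => mchain_cover _ _ (fun _ k => k) fun mC _ =>
    mchain_cover _ _ (fun _ k => k) fun V1 _ => mchain_cover _ _ (fun _ k => k) fun V2 h2 =>
      mchain_term hz h hΔ hs hg mR mC (mem_Icc.1 h2).2 (mem_Icc.1 h2).1).trans ?_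
  have k0 : 0 ≤ (z⁻¹ * Real.exp (cG z vm cap * cap)) ^ (Fintype.card α - 1 - W.card) *
      coreW (cG z vm cap) W Δ := by
    have k1 := mchain_gam (nsrc W Δ)
    have k2 := mchain_gam (nsrc W (rv Δ))
    unfold coreW
    positivity
  have k1 : ∑ V1 ∈ Icc (insert s W) univ, ((univ \ V1).card.factorial : ℝ) *
      ∑ V2 ∈ Icc (insert s W) V1, ((V1 \ V2).card.factorial : ℝ) *
        (V2 \ insert s W).card.factorial ≤
      (Fintype.card α : ℝ) ^ 2 * (Fintype.card α - 1 - W.card).factorial := by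
    refine (sum_le_sum fun V1 h1 => mul_le_mul_of_nonneg_left
      (mchain_sub (mem_insert_self s W) (mem_Icc.1 h1).1) (Nat.cast_nonneg _)).trans ?_
    simp only [mul_left_comm _ (Fintype.card α : ℝ), ← mul_sum]
    refine (mul_le_mul_of_nonneg_left (mchain_sub (mem_insert_self s W) (subset_univ _))
      (Nat.cast_nonneg _)).trans (le_of_eq ?_)
    rw [card_sdiff_of_subset (subset_univ _), card_univ, card_insert_of_notMem hs, Nat.sub_sub,
      add_comm 1]
    ring
  simp only [← mul_sum, ← sum_mul]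
  have k2 := mchain_geom (cap + 1)
  refine (mul_le_mul k2 (mul_le_mul k2 (mul_le_mul_of_nonneg_right k1 (by
    rw [mul_assoc]
    positivity)) ?_ (by norm_num)) ?_ (by norm_num)).trans ?_
  · rw [mul_assoc]
    positivity
  · rw [mul_assoc]
    positivity
  · linarith only [k0, mul_nonneg (mul_nonneg (sq_nonneg (Fintype.card α : ℝ))
      (Nat.cast_nonneg (Fintype.card α - 1 - W.card).factorial)) k0, sq_nonneg ↑(Fintype.card α)]

end

omit [Fintype α] in
theorem mchain_le {V V2 : Finset α} {D D2 : α → α → Prop} {s : α} {m cap vm : ℕ}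
    (h : CRed V D s V2 D2 m cap vm) : m ∈ range (cap + 1) ∧ V2 ⊆ V := by
  obtain ⟨M, g, P, c, h1, h2, h3⟩ := h
  refine ⟨mem_range.2 (Nat.lt_succ_of_le ?_), h1.sub⟩
  rcases M.eq_empty_or_nonempty with rfl | ⟨a, ha⟩
  · simp [← h2]
  · exact le_add_self.trans (h3 a ha).2

theorem card_red3 {z : ℝ} {vm cap : ℕ} (hz : 0 < z) (h : cX z vm cap ^ 3 * cR z vm cap ≤ 1 / 8)
    (hg : cG z vm cap * Fintype.card α ≤ 1 / 12) (N0 : ℕ) (s : α)
    (E : Finset α → (α → α → Prop) → Prop) :
    ((univ.filter (Red3 vm cap N0 s E)).card : ℝ) ≤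
      11 * (Fintype.card α : ℝ) ^ 2 *
        ∑ W ∈ (univ.erase s).powerset.filter (fun W => N0 ≤ W.card),
          (Fintype.card α - 1 - W.card).factorial *
            (z⁻¹ * Real.exp (cG z vm cap * cap)) ^ (Fintype.card α - 1 - W.card) *
            ∑ Δ ∈ (dags W).filter (E W), coreW (cG z vm cap) W Δ := by
  rw [mul_sum, ← mchain_eq]
  refine mchain_cover _ (fun W D => ∃ Δ ∈ (dags W).filter (E W), ∃ mR ∈ range (cap + 1),
    ∃ mC ∈ range (cap + 1), ∃ V1 ∈ Icc (insert s W) univ, ∃ V2 ∈ Icc (insert s W) V1,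
      mchain_R vm cap s W Δ mR mC V1 V2 D) ?_ fun W hW => ?_
  · rintro D ⟨V1, D1, V2, D2, W, Δ, k, mC, mR, h1, h2, h3, h4, h5, h6, h7, h8, h9, h10⟩
    exact ⟨W, mem_filter.2 ⟨mem_powerset.2 (subset_erase.2 ⟨subset_univ _, h1⟩), h4⟩, Δ,
      mem_filter.2 ⟨qdag_mem_dags.2 h2, h3⟩, mR, (mchain_le h7).1, mC, (mchain_le h6).1, V1,
      mem_Icc.2 ⟨(mchain_le h7).2.trans (mchain_le h6).2, subset_univ _⟩, V2,
      mem_Icc.2 ⟨(mchain_le h7).2, (mchain_le h6).2⟩, D2, h7, h10, D1, h6, ⟨h8, h9⟩, k, h5⟩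
  · rw [mul_sum, mul_sum]
    exact mchain_cover _ _ (fun _ k => k) fun Δ hΔ => mchain_core hz h
      (qdag_mem_dags.1 (mem_filter.1 hΔ).1)
      (subset_erase.1 (mem_powerset.1 (mem_filter.1 hW).1)).2 hg

end Pool.Agent.Work.MP_5391ad_co
end

-- merged part: Pool.Agent.Work.MP_5391ad_co.QDfs
section
/-! Dominated regions are controlled by the depth first stack. Count pairs `(u, v)` with `v = u` or
`DomS φ u v` by the time `v` is served. Ghost state: to every stack entry with counter `c` attach a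
set of served vertices (its spine) of which at most `min c M` are ordinary; a served vertex is
exceptional if its counter was at least `M` when it was served. Invariant: the stack lists
`B \ S`, `B = {v ∈ R | φ v ⊆ S}`; for a served `u` and a stack entry `v` with `DomS φ u v`, `u` is
in the spine of an entry at or below `v`. When `a` is served with newborn set `C ≠ ∅`, `a` joins the
spine inherited by the lowest newborn entry. For `v ∈ C`: `a ∈ φ v`, and `DomS φ u v`, `u ≠ a` give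
`DomS φ u a`. For an old entry `v`, `DomS φ a v` is false, and for unserved `u ≠ v` on top
`DomS φ u v` is false: every born vertex is reached from a vertex with empty feed through served
vertices. So at the service of `v` the number of ordinary `u` is at most `M * length + 1`; each
exceptional `u` contributes at most `|R|` pairs in total. All of `R` is served (acyclicity). -/

namespace Pool.Agent.Work.MP_5391ad_co

open Finset
open scoped Classical

variable {α : Type*} [Fintype α]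

/-- ordinary dominators of the entries of a stack -/
noncomputable def qdfs_U (R : Finset α) (φ : α → Finset α) (E : Finset α) (st : List (α × ℕ)) :
    Finset α :=
  R.filter fun u => u ∉ E ∧ ∃ q ∈ st, DomS φ u q.1

/-- truncated counters -/
def qdfs_W (M : ℕ) (st : List (α × ℕ)) : ℕ := (st.map fun q => min q.2 M).sum

/-- every lower part of the stack has few ordinary dominators -/
def qdfs_inv (R : Finset α) (φ : α → Finset α) (E : Finset α) (M : ℕ) : List (α × ℕ) → Prop
  | [] => True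
  | p :: st => (qdfs_U R φ E (p :: st)).card ≤ qdfs_W M (p :: st) ∧ qdfs_inv R φ E M st

/-- pairs not yet paid for -/
noncomputable def qdfs_P (R : Finset α) (φ : α → Finset α) (E S : Finset α) : ℕ :=
  ∑ v ∈ R \ S, (R.filter fun u => u ∉ E ∧ (v = u ∨ DomS φ u v)).card

section

omit [Fintype α]

variable {R : Finset α} {φ : α → Finset α} {E E' : Finset α} {M : ℕ}

theorem qdfs_W_le (M : ℕ) (st : List (α × ℕ)) : qdfs_W M st ≤ M * st.length := by
  induction st with
  | nil => simp [qdfs_W]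
  | cons p st ih =>
    have h1 : min p.2 M ≤ M := min_le_right _ _
    simp only [qdfs_W, List.map_cons, List.sum_cons, List.length_cons] at ih ⊢
    linarith only [ih, h1]

theorem qdfs_inv_mono (hE : E ⊆ E') : ∀ {st : List (α × ℕ)}, qdfs_inv R φ E M st →
    qdfs_inv R φ E' M st
  | [], _ => trivial
  | _ :: _, h => ⟨(card_le_card fun u hu => by
      simp only [qdfs_U, mem_filter] at hu ⊢
      exact ⟨hu.1, fun e => hu.2.1 (hE e), hu.2.2⟩).trans h.1, qdfs_inv_mono hE h.2⟩

theorem qdfs_inv_start : ∀ l : List α, (∀ v ∈ l, φ v = ∅) →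
    qdfs_inv R φ E M (l.map fun v => (v, 0))
  | [], _ => trivial
  | x :: l, h => by
    refine ⟨?_, qdfs_inv_start l fun v hv => h v (List.mem_cons_of_mem _ hv)⟩
    rw [card_eq_zero.2]
    · exact Nat.zero_le _
    refine filter_eq_empty_iff.2 ?_
    rintro u - ⟨-, q, hq, h1, h2⟩
    have hq' : q ∈ (x :: l).map fun v => (v, 0) := hq
    obtain ⟨v, hv, rfl⟩ := List.mem_map.1 hq'
    exact h2 v (h v hv) ⟨h1, Relation.ReflTransGen.refl⟩

theorem qdfs_push_fst (c : ℕ) (st : List (α × ℕ)) : ∀ l : List α,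
    (push c l st).map Prod.fst = l ++ st.map Prod.fst
  | [] => rfl
  | [_] => rfl
  | x :: y :: l => by
    rw [push, List.map_cons, qdfs_push_fst c st (y :: l)]
    rfl

theorem qdfs_push_W (M c : ℕ) (st : List (α × ℕ)) : ∀ (l : List α) (x : α),
    qdfs_W M (push c (x :: l) st) = min (c + 1) M + qdfs_W M st
  | [], _ => rfl
  | y :: l, x => by
    rw [← qdfs_push_W M c st l y, push]
    simp [qdfs_W]

theorem qdfs_inv_push {c : ℕ} {st : List (α × ℕ)} (hst : qdfs_inv R φ E M st) {K : Finset α}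
    (hK : K.card ≤ min (c + 1) M + qdfs_W M st) : ∀ l : List α,
    (∀ u ∈ R, u ∉ E → ∀ v ∈ l ++ st.map Prod.fst, DomS φ u v → u ∈ K) →
    qdfs_inv R φ E M (push c l st) := by
  have key : ∀ (l : List α) (x : α),
      (∀ u ∈ R, u ∉ E → ∀ v ∈ (x :: l) ++ st.map Prod.fst, DomS φ u v → u ∈ K) →
      (qdfs_U R φ E (push c (x :: l) st)).card ≤ qdfs_W M (push c (x :: l) st) := by
    intro l x h
    rw [qdfs_push_W]
    refine (card_le_card fun u hu => ?_).trans hK
    obtain ⟨h1, h2, q, hq, h3⟩ := mem_filter.1 hu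
    exact h u h1 h2 q.1 (qdfs_push_fst c st (x :: l) ▸ List.mem_map_of_mem hq) h3
  intro l
  induction l with
  | nil => exact fun _ => hst
  | cons x l ih =>
    intro h
    have h1 := key l x h
    cases l with
    | nil => exact ⟨h1, hst⟩
    | cons y l => exact ⟨h1, ih fun u hu hu' v hv => h u hu hu' v (List.mem_cons_of_mem _ hv)⟩

theorem qdfs_dom {u a v : α} (h : DomS φ u v) (ha : a ∈ φ v) (hu : u ≠ a) : DomS φ u a :=
  ⟨hu.symm, fun r hr h1 => h.2 r hr ⟨h1.1, h1.2.tail ⟨ha, h.1⟩⟩⟩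

theorem qdfs_P_serve {S : Finset α} {a : α} {c : ℕ} {st : List (α × ℕ)} (ha : a ∈ R \ S)
    (h : qdfs_inv R φ E M ((a, c) :: st)) :
    qdfs_P R φ E S ≤ (M + 1) * (st.length + 1) + qdfs_P R φ E (insert a S) := by
  rw [qdfs_P, qdfs_P, sdiff_insert, ← add_sum_erase _ _ ha]
  refine Nat.add_le_add_right ?_ _
  have h1 : (R.filter fun u => u ∉ E ∧ (a = u ∨ DomS φ u a)) ⊆
      insert a (qdfs_U R φ E ((a, c) :: st)) := by
    intro u hu
    obtain ⟨h1, h2, h3 | h3⟩ := mem_filter.1 hu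
    · exact h3 ▸ mem_insert_self _ _
    · exact mem_insert_of_mem (mem_filter.2 ⟨h1, h2, _, List.mem_cons_self, h3⟩)
  have h2 := (card_le_card h1).trans (card_insert_le _ _)
  have h3 := h.1.trans (qdfs_W_le M _)
  rw [List.length_cons] at h3
  linarith only [h2, h3]

theorem qdfs_P_exc (S : Finset α) (a : α) :
    qdfs_P R φ E S ≤ R.card + qdfs_P R φ (insert a E) S := by
  have h1 : ∀ v ∈ R \ S, (R.filter fun u => u ∉ E ∧ (v = u ∨ DomS φ u v)).card ≤
      1 + (R.filter fun u => u ∉ insert a E ∧ (v = u ∨ DomS φ u v)).card := by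
    intro v _
    rw [add_comm]
    refine (card_le_card fun u hu => ?_).trans (card_insert_le a _)
    obtain ⟨h1, h2, h3⟩ := mem_filter.1 hu
    by_cases e : u = a
    · exact e ▸ mem_insert_self _ _
    · exact mem_insert_of_mem (mem_filter.2 ⟨h1, fun e' => (mem_insert.1 e').elim e h2, h3⟩)
  refine (sum_le_sum h1).trans ?_
  rw [sum_add_distrib, sum_const, smul_eq_mul, mul_one]
  exact Nat.add_le_add_right (card_le_card sdiff_subset) _

theorem qdfs_main {rk : α → ℕ} (hrk : ∀ v ∈ R, ∀ u ∈ φ v, u ∈ R ∧ rk u < rk v) (M : ℕ) :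
    ∀ (n : ℕ) (S E : Finset α) (st : List (α × ℕ)), (R \ S).card ≤ n → (∀ v ∈ S, φ v ⊆ S) →
      (st.map Prod.fst).Nodup → (∀ v, v ∈ st.map Prod.fst ↔ v ∈ R \ S ∧ φ v ⊆ S) →
      qdfs_inv R φ E M st → qdfs_P R φ E S ≤ (M + 1) * ((dfs R φ n S st).map Prod.fst).sum +
        R.card * ((dfs R φ n S st).filter fun p => M ≤ p.2).length := by
  intro n
  induction n with
  | zero =>
    intro S E st h _ _ _ _
    rw [qdfs_P, card_eq_zero.1 (Nat.le_zero.1 h), sum_empty]
    exact Nat.zero_le _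
  | succ n ih =>
    intro S E st h1 h2 h3 h4 h5
    cases st with
    | nil =>
      rcases (R \ S).eq_empty_or_nonempty with e | e
      · rw [qdfs_P, e, sum_empty]
        exact Nat.zero_le _
      obtain ⟨v, hv, hv'⟩ := exists_min_image _ rk e
      refine absurd ((h4 v).2 ⟨hv, fun u hu => ?_⟩) (by simp)
      have h6 := hrk v (mem_sdiff.1 hv).1 u hu
      by_contra h7
      exact absurd (hv' u (mem_sdiff.2 ⟨h6.1, h7⟩)) (by omega)
    | cons p st =>
      obtain ⟨a, c⟩ := p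
      obtain ⟨ha, ha'⟩ := (h4 a).1 List.mem_cons_self
      rw [List.map_cons, List.nodup_cons] at h3
      have hb : ∀ v, v ∈ (born R φ S a).toList ↔ v ∈ R ∧ φ v ⊆ insert a S ∧ ¬ φ v ⊆ S := by
        intro v
        rw [mem_toList, born, mem_filter]
      have hst : ∀ v, v ∈ st.map Prod.fst ↔ v ≠ a ∧ v ∈ R \ S ∧ φ v ⊆ S := by
        intro v
        rw [← h4 v, List.map_cons, List.mem_cons]
        exact ⟨fun hv => ⟨fun e => h3.1 (e ▸ hv), Or.inr hv⟩, fun hv => hv.2.resolve_left hv.1⟩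
      have step : ∀ E' : Finset α,
          qdfs_inv R φ E' M (push c (born R φ S a).toList st) →
          qdfs_P R φ E' (insert a S) ≤ _ := fun E' => ih (insert a S) E' _
        (by rw [sdiff_insert, card_erase_of_mem ha]; omega)
        (fun v hv => by
          rcases mem_insert.1 hv with rfl | hv
          · exact ha'.trans (subset_insert _ _)
          · exact (h2 v hv).trans (subset_insert _ _))
        (by
          rw [qdfs_push_fst]
          exact List.Nodup.append (nodup_toList _) h3.2 fun v hv hv' =>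
            ((hb v).1 hv).2.2 ((hst v).1 hv').2.2)
        (fun v => by
          rw [qdfs_push_fst, List.mem_append, hb, hst, mem_sdiff, mem_sdiff, mem_insert, not_or]
          constructor
          · rintro (⟨a1, a2, a3⟩ | ⟨a1, ⟨a2, a3⟩, a4⟩)
            · exact ⟨⟨a1, fun e => a3 (e ▸ ha'), fun e => a3 (h2 v e)⟩, a2⟩
            · exact ⟨⟨a2, a1, a3⟩, a4.trans (subset_insert _ _)⟩
          · rintro ⟨⟨a1, a2, a3⟩, a4⟩
            by_cases e : φ v ⊆ S
            · exact Or.inr ⟨a2, ⟨a1, a3⟩, e⟩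
            · exact Or.inl ⟨a1, a4, e⟩)
      have hdom : ∀ u ∈ R, u ∉ E → u ≠ a → ∀ v ∈ (born R φ S a).toList ++ st.map Prod.fst,
          DomS φ u v → u ∈ qdfs_U R φ E ((a, c) :: st) := by
        intro u hu hu' hua v hv hd
        refine mem_filter.2 ⟨hu, hu', ?_⟩
        rcases List.mem_append.1 hv with hv | hv
        · obtain ⟨-, a2, a3⟩ := (hb v).1 hv
          obtain ⟨w, hw, hw'⟩ := not_subset.1 a3
          have e : w = a := (mem_insert.1 (a2 hw)).resolve_right hw'
          exact ⟨(a, c), List.mem_cons_self, qdfs_dom hd (e ▸ hw) hua⟩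
        · obtain ⟨q, hq, rfl⟩ := List.mem_map.1 hv
          exact ⟨q, List.mem_cons_of_mem _ hq, hd⟩
      have hW : (qdfs_U R φ E ((a, c) :: st)).card ≤ min c M + qdfs_W M st := h5.1
      have h6 := qdfs_P_serve ha h5
      rw [dfs, List.map_cons, List.sum_cons, List.filter_cons]
      by_cases hc : M ≤ c
      · have h7 := step (insert a E) (qdfs_inv_push (qdfs_inv_mono (subset_insert _ _) h5.2)
          (K := qdfs_U R φ E ((a, c) :: st)) (by omega) _ fun u hu hu' v hv hd =>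
            hdom u hu (fun e => hu' (mem_insert_of_mem e))
              (fun e => hu' (e ▸ mem_insert_self _ _)) v hv hd)
        have h8 := qdfs_P_exc (R := R) (φ := φ) (E := E) (insert a S) a
        rw [if_pos (by simpa using hc), List.length_cons]
        simp only [mul_add, add_mul, mul_one, one_mul] at h6 h7 ⊢
        omega
      · have h7 := step E (qdfs_inv_push h5.2 (K := insert a (qdfs_U R φ E ((a, c) :: st)))
          ((card_insert_le _ _).trans (by omega)) _ fun u hu hu' v hv hd => by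
            by_cases e : u = a
            · exact e ▸ mem_insert_self _ _
            · exact mem_insert_of_mem (hdom u hu hu' e v hv hd))
        rw [if_neg (by simpa using hc)]
        simp only [mul_add, add_mul, mul_one, one_mul] at h6 h7 ⊢
        omega

end

theorem SS2_le {R : Finset α} {φ : α → Finset α} (h : φ ∈ acys id R.powerset ∅ R) (M : ℕ) :
    SS2 R φ ≤ (M + 1) * ((dfs0 R φ).map Prod.fst).sum +
      R.card * ((dfs0 R φ).filter fun p => M ≤ p.2).length := by
  obtain ⟨rk, hrk⟩ := (mem_filter.1 h).2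
  have e : ((R.filter fun v => φ v = ∅).toList.map fun v => (v, 0)).map Prod.fst =
      (R.filter fun v => φ v = ∅).toList := by
    rw [List.map_map]
    exact List.map_id _
  refine le_trans (le_of_eq ?_) (qdfs_main hrk M R.card ∅ ∅ _ (by simp) (by simp)
    (by rw [e]; exact nodup_toList _) (fun v => by rw [e]; simp) (qdfs_inv_start _ fun v hv => ?_))
  · simp only [SS2, qdfs_P, sdiff_empty, card_filter, notMem_empty, not_false_eq_true, true_and]
    exact sum_comm
  · exact (mem_filter.1 (mem_toList.1 hv)).2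

end Pool.Agent.Work.MP_5391ad_co
end

-- merged part: Pool.Agent.Work.MP_5391ad_co.QCol
section
/-! Colourings. A valid structure `F` gives the acyclic digraph `F.arc`. Given `Δ`, an arc with
head of in-degree at least two must be a column arc, an arc whose tail has out-degree at least two
must be a row arc, and each link (only arc out of its tail and into its head) can be coloured in
both ways; `F.one` is the number of links coloured as column arcs. So the fibre of `F ↦ F.arc`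
over `Δ` is in bijection with the subsets of the set of tails of links.
`exists_canon`: colour all links as row arcs. Domination: if every walk from a source to the row
node `v` meets `u`, the same holds in the feed structure: a walk `r ⇝ v` along feeds from a row node
`r` with empty feed, avoiding `u`, lifts to a walk in `Δ` from a source in the block of `r` (go
down the block to a vertex without entering column arc; it has no row parent) which meets no other
row nodes. -/

namespace Pool.Agent.Work.MP_5391ad_co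

open Finset
open scoped Classical

variable {α : Type*}

theorem qcol_in {W : Finset α} {F : FStr α} (h : IsF W F) {u v w : α} (h1 : F.1 v = some u)
    (h2 : F.arc w v) : w = u := by
  rcases h2 with h2 | h2
  · exact Option.some.inj (h2.symm.trans h1)
  · rw [(h.hq w v h2).2.2] at h1
    cases h1

theorem qcol_out {W : Finset α} {F : FStr α} (h : IsF W F) {u v w : α} (h1 : F.2 u = some v)
    (h2 : F.arc u w) : w = v := by
  rcases h2 with h2 | h2
  · rw [(h.hp u w h2).2.2] at h1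
    cases h1
  · exact Option.some.inj (h2.symm.trans h1)

theorem IsF.isDag {W : Finset α} {F : FStr α} (h : IsF W F) : IsDag W F.arc where
  mem a b hab := hab.elim (fun h1 => ⟨(h.hp a b h1).1, (h.hp a b h1).2.1⟩)
    fun h1 => ⟨(h.hq a b h1).1, (h.hq a b h1).2.1⟩
  acyc := h.acyc
  rule _ _ huv := huv.elim (fun h1 => Or.inr fun _ hw => qcol_in h h1 hw)
    fun h1 => Or.inl fun _ hw => qcol_out h h1 hw

/-- tails of links -/
noncomputable def qcol_L (W : Finset α) (Δ : α → α → Prop) : Finset α :=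
  W.filter fun u => ∃ v, (∀ w, Δ u w ↔ w = v) ∧ ∀ w, Δ w v ↔ w = u

/-- the colouring in which the links with tail in `S` are column arcs -/
noncomputable def qcol_mk (Δ : α → α → Prop) (S : Finset α) : FStr α :=
  (fun v => if h : ∃ u, Δ u v ∧ ¬ (Br Δ v ∨ u ∈ S) then some h.choose else none,
    fun u => if h : ∃ v, Δ u v ∧ (Br Δ v ∨ u ∈ S) then some h.choose else none)

section mk

variable {W S : Finset α} {Δ : α → α → Prop}

theorem qcol_nbr {u v w : α} (h : ¬ Br Δ v) (h1 : Δ u v) (h2 : Δ w v) : w = u := by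
  by_contra h3
  exact h ⟨w, u, h3, h2, h1⟩

theorem qcol_nbr' {u v : α} (h : ∀ w, Δ w v → w = u) : ¬ Br Δ v := by
  rintro ⟨a, a', h1, h2, h3⟩
  exact h1 ((h a h2).trans (h a' h3).symm)

theorem qcol_link (hS : S ⊆ qcol_L W Δ) {u v : α} (hu : u ∈ S) (h : Δ u v) :
    (∀ w, Δ u w → w = v) ∧ ∀ w, Δ w v → w = u := by
  obtain ⟨v', h1, h2⟩ := (mem_filter.1 (hS hu)).2
  obtain rfl := (h1 v).1 h
  exact ⟨fun w => (h1 w).1, fun w => (h2 w).1⟩

theorem qcol_col (h : IsDag W Δ) (hS : S ⊆ qcol_L W Δ) {u v w : α} (h1 : Δ u v)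
    (h2 : Br Δ v ∨ u ∈ S) (h3 : Δ u w) : w = v := by
  rcases h2 with h2 | h2
  · exact ((h.rule u v h1).resolve_right fun h4 => qcol_nbr' h4 h2) w h3
  · exact (qcol_link hS h2 h1).1 w h3

theorem qcol_mk1 {u v : α} :
    (qcol_mk Δ S).1 v = some u ↔ Δ u v ∧ ¬ (Br Δ v ∨ u ∈ S) := by
  simp only [qcol_mk]
  split_ifs with h1
  · have h2 := h1.choose_spec
    refine ⟨fun h3 => Option.some.inj h3 ▸ h2, fun h3 => congrArg some ?_⟩
    exact qcol_nbr (fun h4 => h3.2 (Or.inl h4)) h3.1 h2.1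
  · exact ⟨fun h2 => (by cases h2), fun h2 => (h1 ⟨u, h2⟩).elim⟩

theorem qcol_mk2 (h : IsDag W Δ) (hS : S ⊆ qcol_L W Δ) {u v : α} :
    (qcol_mk Δ S).2 u = some v ↔ Δ u v ∧ (Br Δ v ∨ u ∈ S) := by
  simp only [qcol_mk]
  split_ifs with h1
  · have h2 := h1.choose_spec
    exact ⟨fun h3 => Option.some.inj h3 ▸ h2, fun h3 => congrArg some
      (qcol_col h hS h3.1 h3.2 h2.1)⟩
  · exact ⟨fun h2 => (by cases h2), fun h2 => (h1 ⟨v, h2⟩).elim⟩

theorem qcol_arc (h : IsDag W Δ) (hS : S ⊆ qcol_L W Δ) : (qcol_mk Δ S).arc = Δ := by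
  funext u v
  rw [FStr.arc, qcol_mk1, qcol_mk2 h hS]
  exact propext (by tauto)

theorem qcol_isF (h : IsDag W Δ) (hS : S ⊆ qcol_L W Δ) : IsF W (qcol_mk Δ S) where
  hp u v h1 := by
    rw [qcol_mk1] at h1
    refine ⟨(h.mem u v h1.1).1, (h.mem u v h1.1).2, Option.eq_none_iff_forall_ne_some.2
      fun w h2 => ?_⟩
    rw [qcol_mk2 h hS] at h2
    obtain rfl := qcol_col h hS h2.1 h2.2 h1.1
    exact h1.2 h2.2
  hq u v h1 := by
    rw [qcol_mk2 h hS] at h1
    refine ⟨(h.mem u v h1.1).1, (h.mem u v h1.1).2, Option.eq_none_iff_forall_ne_some.2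
      fun w h2 => ?_⟩
    rw [qcol_mk1] at h2
    obtain rfl := qcol_nbr (fun h3 => h2.2 (Or.inl h3)) h1.1 h2.1
    exact h2.2 h1.2
  acyc := by
    rw [qcol_arc h hS]
    exact h.acyc

theorem qcol_one (h : IsDag W Δ) (hS : S ⊆ qcol_L W Δ) : (qcol_mk Δ S).one W = S.card := by
  have ex : ∀ u ∈ S, ∃ v, Δ u v := fun u hu => by
    obtain ⟨v, h1, -⟩ := (mem_filter.1 (hS hu)).2
    exact ⟨v, (h1 v).2 rfl⟩
  choose hd hhd using ex
  refine (card_bij hd (fun u hu => ?_) (fun u hu u' hu' e => ?_) fun v hv => ?_).symm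
  · refine mem_filter.2 ⟨(h.mem _ _ (hhd u hu)).2, card_eq_one.2 ⟨u, ?_⟩⟩
    ext w
    rw [mem_filter, mem_singleton, qcol_mk2 h hS]
    refine ⟨fun h1 => (qcol_link hS hu (hhd u hu)).2 w h1.2.1, ?_⟩
    rintro rfl
    exact ⟨(h.mem _ _ (hhd w hu)).1, hhd w hu, Or.inr hu⟩
  · exact (qcol_link hS hu' (hhd u' hu')).2 u (e ▸ hhd u hu)
  · obtain ⟨u, hu⟩ := card_eq_one.1 (mem_filter.1 hv).2
    have h1 : ∀ w, (w ∈ W ∧ Δ w v ∧ (Br Δ v ∨ w ∈ S)) ↔ w = u := fun w => by
      rw [← mem_singleton, ← hu, mem_filter, qcol_mk2 h hS]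
    obtain ⟨-, h2, h3⟩ := (h1 u).2 rfl
    have h4 : ¬ Br Δ v := fun h4 =>
      qcol_nbr' (fun w hw => (h1 w).1 ⟨(h.mem _ _ hw).1, hw, Or.inl h4⟩) h4
    have h5 := h3.resolve_left h4
    exact ⟨u, h5, (qcol_link hS h5 h2).1 _ (hhd u h5)⟩

theorem qcol_back (h : IsDag W Δ) (hS : S ⊆ qcol_L W Δ) :
    ((qcol_L W Δ).filter fun u => (qcol_mk Δ S).2 u ≠ none) = S := by
  ext u
  rw [mem_filter, Option.ne_none_iff_exists']
  simp only [qcol_mk2 h hS]
  refine ⟨fun ⟨h1, v, h2, h3⟩ => h3.resolve_left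
    (qcol_nbr' (qcol_link Subset.rfl h1 h2).2), fun h1 => ⟨hS h1, ?_⟩⟩
  obtain ⟨v, h2, -⟩ := (mem_filter.1 (hS h1)).2
  exact ⟨v, (h2 v).2 rfl, Or.inr h1⟩

theorem qcol_forth {F : FStr α} (h : IsF W F) :
    qcol_mk F.arc ((qcol_L W F.arc).filter fun u => F.2 u ≠ none) = F := by
  have row : ∀ u v, F.1 v = some u →
      ¬ (Br F.arc v ∨ u ∈ (qcol_L W F.arc).filter fun u => F.2 u ≠ none) := by
    rintro u v h1 (h2 | h2)
    · exact qcol_nbr' (fun w hw => qcol_in h h1 hw) h2
    · exact (mem_filter.1 h2).2 (h.hp u v h1).2.2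
  have col : ∀ u v, F.2 u = some v →
      Br F.arc v ∨ u ∈ (qcol_L W F.arc).filter fun u => F.2 u ≠ none := by
    intro u v h1
    refine or_iff_not_imp_left.2 fun h2 => mem_filter.2 ⟨mem_filter.2 ⟨(h.hq u v h1).1, v,
      fun w => ⟨qcol_out h h1, ?_⟩, fun w => ⟨qcol_nbr h2 (Or.inr h1), ?_⟩⟩, by simp [h1]⟩
    · rintro rfl
      exact Or.inr h1
    · rintro rfl
      exact Or.inr h1
  refine Prod.ext (funext fun v => Option.ext fun u => ?_) (funext fun u => Option.ext fun v => ?_)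
  · rw [qcol_mk1]
    exact ⟨fun h1 => h1.1.resolve_right fun h2 => h1.2 (col u v h2),
      fun h1 => ⟨Or.inl h1, row u v h1⟩⟩
  · rw [qcol_mk2 h.isDag (filter_subset _ _)]
    exact ⟨fun h1 => h1.1.resolve_left fun h2 => row u v h2 h1.2,
      fun h1 => ⟨Or.inr h1, col u v h1⟩⟩

theorem qcol_av {F : FStr α} {u x b : α} (hu : F.2 u = none) (hb : b ≠ u) (h : F.inb x b) :
    Av F.arc {u} x b := by
  induction h using Relation.ReflTransGen.head_induction_on with
  | refl => exact av_refl hb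
  | @head a c h1 _ ih =>
    refine Av.head (fun h2 => ?_) (Or.inr h1) ih
    rw [Set.mem_singleton_iff.1 h2, hu] at h1
    cases h1

theorem qcol_feed {F : FStr α} {a b : α} (h : a ∈ F.feed W b) :
    b ∈ F.rows W ∧ ∃ x, F.1 x = some a ∧ F.inb x b := by
  rw [FStr.feed] at h
  split_ifs at h with h1
  · exact ⟨h1, (mem_filter.1 h).2⟩
  · exact absurd h (notMem_empty _)

theorem qcol_dom {F : FStr α} (h : IsF W F) {u v : α} (hu : u ∈ F.rows W) (hv : v ∈ F.rows W)
    (hd : DomD W F.arc u v) : DomS (F.feed W) u v := by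
  refine ⟨hd.1, fun r hr hw => ?_⟩
  have hu' := (mem_filter.1 hu).2
  have h1 : r ∈ F.rows W := by
    rcases hw.2.cases_head with rfl | ⟨c, h1, -⟩
    · exact hv
    · obtain ⟨-, x, h2, -⟩ := qcol_feed h1.1
      exact mem_filter.2 ⟨(h.hp r x h2).1, (h.hp r x h2).2.2⟩
  have h2 : Av F.arc {u} r v := by
    obtain ⟨h2, h3⟩ := hw
    clear hv hd
    induction h3 with
    | refl => exact av_refl h2
    | tail _ h4 ih =>
      obtain ⟨-, x, h5, h6⟩ := qcol_feed h4.1
      exact ih.trans (Av.head ih.not_mem_right (Or.inl h5) (qcol_av hu' h4.2 h6))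
  obtain ⟨rk, hrk⟩ := h.acyc
  obtain ⟨x, hx, hm⟩ := exists_min_image (W.filter fun x => F.inb x r) rk
    ⟨r, mem_filter.2 ⟨(mem_filter.1 h1).1, Relation.ReflTransGen.refl⟩⟩
  obtain ⟨hx1, hx2⟩ := mem_filter.1 hx
  refine hd.2 x hx1 (fun w hw' => ?_) ((qcol_av hu' hw.1 hx2).trans h2)
  rcases hw' with h3 | h3
  · rw [FStr.feed, if_pos h1] at hr
    exact notMem_empty w (hr ▸ mem_filter.2 ⟨(h.hp w x h3).1, x, h3, hx2⟩)
  · exact (hm w (mem_filter.2 ⟨(h.hq w x h3).1, Relation.ReflTransGen.head h3 hx2⟩)).not_gt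
      (hrk w x (Or.inr h3))

theorem qcol_canon (h : IsDag W Δ) :
    ∃ F : FStr α, IsF W F ∧ F.arc = Δ ∧ F.one W = 0 ∧ F.rows W = RN W Δ ∧
      (∀ u ∈ RN W Δ, odeg W Δ u = (W.filter fun v => F.1 v = some u).card) ∧
      ∀ u ∈ RN W Δ, ∀ v ∈ RN W Δ, DomD W Δ u v → DomS (F.feed W) u v := by
  have hS : ∅ ⊆ qcol_L W Δ := empty_subset _
  have hr : (qcol_mk Δ ∅).rows W = RN W Δ := by
    refine filter_congr fun u _ => ?_
    rw [Option.eq_none_iff_forall_ne_some]
    simp only [Ne, qcol_mk2 h hS, notMem_empty, or_false, not_and]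
  refine ⟨qcol_mk Δ ∅, qcol_isF h hS, qcol_arc h hS, qcol_one h hS, hr, fun u hu => ?_,
    fun u hu v hv hd => ?_⟩
  · refine congrArg card (filter_congr fun v _ => ?_)
    rw [qcol_mk1]
    exact ⟨fun h1 => ⟨h1, fun h2 => h2.elim ((mem_filter.1 hu).2 v h1) (notMem_empty _)⟩,
      fun h1 => h1.1⟩
  · exact qcol_dom (qcol_isF h hS) (hr ▸ hu) (hr ▸ hv) (by rwa [qcol_arc h hS])

theorem qcol_nsnk {F : FStr α} (h : IsF W F) :
    nsrc W (rv F.arc) = ((F.rows W).filter fun u => ∀ v ∈ F.rows W, u ∉ F.feed W v).card := by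
  refine congrArg card (Finset.ext fun u => ?_)
  rw [mem_filter, mem_filter, FStr.rows, mem_filter, and_assoc]
  refine and_congr_right fun hu => ⟨fun h1 => ⟨Option.eq_none_iff_forall_ne_some.2
    fun w h2 => h1 w (Or.inr h2), fun v _ h2 => ?_⟩, fun h1 w h2 => ?_⟩
  · obtain ⟨-, x, h3, -⟩ := qcol_feed h2
    exact h1 x (Or.inl h3)
  · rcases h2 with h2 | h2
    · obtain ⟨rk, hrk⟩ := h.acyc
      obtain ⟨v, hv, hm⟩ := exists_max_image (W.filter fun v => F.inb w v) rk
        ⟨w, mem_filter.2 ⟨(h.hp u w h2).2.1, Relation.ReflTransGen.refl⟩⟩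
      obtain ⟨hv1, hv2⟩ := mem_filter.1 hv
      have h3 : v ∈ F.rows W := mem_filter.2 ⟨hv1, Option.eq_none_iff_forall_ne_some.2
        fun x h3 => (hm x (mem_filter.2 ⟨(h.hq v x h3).2.1, hv2.tail h3⟩)).not_gt
          (hrk v x (Or.inr h3))⟩
      refine h1.2 v h3 ?_
      rw [FStr.feed, if_pos h3]
      exact mem_filter.2 ⟨hu, w, h2, hv2⟩
    · rw [h1.1] at h2
      cases h2

end mk

variable [Fintype α]

theorem sum_F_eq (W : Finset α) (κ : ℝ) (f : (α → α → Prop) → ℝ) :
    ∑ F ∈ univ.filter (IsF W), κ ^ FStr.one W F * f F.arc =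
      ∑ Δ ∈ dags W, (1 + κ) ^ nlink W Δ * f Δ := by
  rw [← sum_fiberwise_of_maps_to (s := univ.filter (IsF W)) (t := dags W) (g := FStr.arc)
    fun F hF => mem_filter.2 ⟨mem_univ _, (mem_filter.1 hF).2.isDag⟩]
  refine sum_congr rfl fun Δ hΔ => ?_
  have h := (mem_filter.1 hΔ).2
  rw [show nlink W Δ = (qcol_L W Δ).card from rfl, ← prod_const, prod_one_add, sum_mul]
  refine (sum_bij (fun S _ => qcol_mk Δ S) (fun S hS => ?_) (fun S hS S' hS' e => ?_)
    (fun F hF => ?_) fun S hS => ?_).symm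
  · have hS' := mem_powerset.1 hS
    exact mem_filter.2 ⟨mem_filter.2 ⟨mem_univ _, qcol_isF h hS'⟩, qcol_arc h hS'⟩
  · rw [← qcol_back h (mem_powerset.1 hS), e, qcol_back h (mem_powerset.1 hS')]
  · obtain ⟨h1, rfl⟩ := mem_filter.1 hF
    exact ⟨_, mem_powerset.2 (filter_subset _ _), qcol_forth (mem_filter.1 h1).2⟩
  · rw [prod_const, qcol_one h (mem_powerset.1 hS), qcol_arc h (mem_powerset.1 hS)]

theorem exists_canon {W : Finset α} {Δ : α → α → Prop} (h : IsDag W Δ) :
    ∃ F : FStr α, IsF W F ∧ F.arc = Δ ∧ F.one W = 0 ∧ F.rows W = RN W Δ ∧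
      (∀ u ∈ RN W Δ, odeg W Δ u = (W.filter fun v => F.1 v = some u).card) ∧
      ∀ u ∈ RN W Δ, ∀ v ∈ RN W Δ, DomD W Δ u v → DomS (F.feed W) u v := by
  convert qcol_canon h

/-- sinks are the row nodes which feed nobody -/
theorem IsF.nsnk {W : Finset α} {F : FStr α} (h : IsF W F) :
    nsrc W (rv F.arc) = ((F.rows W).filter fun u => ∀ v ∈ F.rows W, u ∉ F.feed W v).card := by
  convert qcol_nsnk h

end Pool.Agent.Work.MP_5391ad_co
end

-- merged part: Pool.Agent.Work.MP_5391ad_co.BSum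
section
/-! Sums over two-coloured structures. Always split the sum according to `R = F.rows W ⊆ W`
(`sum_fiberwise_of_maps_to`), take the `t` given for `b = |R|`, the weights `w` of
`exists_blockGF` with `ν = 1`, apply `layer_le`, and use `C(N,b) (N-b)! b! = N!`.
`sumF_area`: `acys_sum_dfs` with `A = rate t y b`.
`sumF_exc`: `acys_level` with `A = rate t 0 b` (`incr_bounds`, `incr_mono`);
`w ∅ = tau t 0 = t e^τ ≤ e t` and every rate is at least `t`.
`sum_SR_le`: the map `Δ ↦ F` of `exists_canon` is injective; `outs + 1 ≤ Dm + (outs + 1 - Dm)`,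
the dominated regions have at most `N` elements, `SS2_le`. -/

namespace Pool.Agent.Work.MP_5391ad_co

open Finset Real
open scoped Classical

variable {α : Type*} [Fintype α]

theorem feed_mem_acys {W : Finset α} {F : FStr α} (h : IsF W F) :
    F.feed W ∈ acys id (F.rows W).powerset ∅ (F.rows W) := by
  exact qlay_feed h rfl

theorem bsum_split (W : Finset α) (g : FStr α → ℝ) (B : ℝ)
    (h : ∀ R ⊆ W, ∑ F ∈ fstrs W R, g F ≤
      ((W.card - R.card).factorial : ℝ) * R.card.factorial * B) :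
    ∑ F ∈ univ.filter (IsF W), g F ≤ (W.card + 1) * W.card.factorial * B := by
  rw [← sum_fiberwise_of_maps_to (g := FStr.rows W) (t := W.powerset)
    fun F _ => mem_powerset.2 (filter_subset _ _)]
  refine (sum_le_sum fun R hR => ?_).trans (le_of_eq ((sum_powerset_apply_card
    fun b => ((W.card - b).factorial : ℝ) * b.factorial * B).trans ?_))
  · rw [filter_filter]
    exact h R (mem_powerset.1 hR)
  · rw [sum_congr rfl (g := fun _ => (W.card.factorial : ℝ) * B), sum_const, card_range,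
      nsmul_eq_mul, Nat.cast_succ, mul_assoc]
    intro b hb
    rw [← Nat.choose_mul_factorial_mul_factorial (Nat.lt_succ_iff.1 (mem_range.1 hb)), nsmul_eq_mul]
    push_cast
    ring

omit [Fintype α] in
theorem bsum_rate (t y : ℝ) {R S : Finset α} {a : α} (hS : S ⊆ R) (ha : a ∈ R) (ha' : a ∉ S) :
    Lam t (y + ∑ _u ∈ S, (1 : ℝ) + 1) - Lam t (y + ∑ _u ∈ S, (1 : ℝ)) =
      rate t y R.card (R.card - S.card - 1) := by
  have h1 : S.card < R.card := card_lt_card ⟨hS, fun e => ha' (e ha)⟩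
  rw [rate, show R.card - (R.card - S.card - 1) = S.card + 1 by omega, sum_const, nsmul_eq_mul,
    mul_one, Nat.cast_succ, ← add_assoc, add_sub_cancel_right]

theorem bsum_list (γ : ℝ) (l : List (ℕ × ℕ)) :
    exp (γ * ((l.map Prod.fst).sum : ℕ)) = (l.map fun p => exp (γ * p.1)).prod := by
  induction l with
  | nil => simp
  | cons p l ih => simp only [List.map_cons, List.sum_cons, List.prod_cons, Nat.cast_add, mul_add,
      exp_add, ih]

theorem bsum_ge {t : ℝ} (ht : 0 < t) {b : ℕ} (hb : b < xc t) (n : ℕ) : t ≤ rate t 0 b n := by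
  have h1 : (0 : ℝ) + (b - n : ℕ) < xc t := by
    rw [zero_add]
    exact lt_of_le_of_lt (by exact_mod_cast Nat.sub_le b n) hb
  obtain ⟨h2, h3, -⟩ := tau_spec (x := 0 + (b - n : ℕ) - 1) ht (by linarith)
  exact le_trans (by rw [le_div_iff₀ (by linarith)]; linarith only [ht, h2, mul_pos_of_neg_of_neg (Mathlib.Tactic.Linarith.sub_neg_of_lt ht) (Mathlib.Tactic.Linarith.sub_neg_of_lt h2)]) (incr_bounds ht h1).1

theorem sumF_area (W : Finset α) {κ y γ Bd : ℝ} (hκ : 0 ≤ κ) (hy : 0 ≤ y)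
    (h : ∀ b ≤ W.card, ∃ t z : ℝ, 0 < t ∧ 0 < z ∧ t * (1 + (1 - κ) * z) = z ∧ y + b < xc t ∧
      z⁻¹ ^ W.card * VolT t y γ b ≤ Bd) :
    ∑ F ∈ univ.filter (IsF W), κ ^ FStr.one W F * (1 + y) ^ nsrc W F.arc * exp (γ * F.area W) ≤
      (W.card + 1) * W.card.factorial * Bd := by
  refine bsum_split W _ _ fun R hR => ?_
  obtain ⟨t, z, ht, hz, h1, h2, h3⟩ := h _ (card_le_card hR)
  obtain ⟨w, -, h4, h5, -, h6⟩ := exists_blockGF R (ν := fun _ => 1) hκ ht hz hy
    (fun _ => zero_le_one) h1 (by simpa using h2)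
  have h7 := layer_le hR hκ hy (fun _ => zero_le_one) hz w h4
    (fun φ => exp (γ * (((dfs0 R φ).map Prod.fst).sum : ℕ))) fun _ => (exp_pos _).le
  have h8 := acys_sum_dfs R w (rate t y R.card) (fun q => exp (γ * q)) fun S hS a ha ha' =>
    (h6 S hS a ha ha').trans (bsum_rate t y hS ha ha')
  simp only [← bsum_list, h5, smul_eq_mul] at h8
  rw [h8] at h7
  refine (le_of_eq (sum_congr rfl fun F hF => ?_)).trans (h7.trans ?_)
  · simp only [FStr.wt, FStr.area, (mem_filter.1 hF).2.2, one_pow, prod_const_one, mul_one]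
  · rw [mul_mul_mul_comm]
    exact mul_le_mul_of_nonneg_left h3 (by positivity)

theorem sumF_exc (W : Finset α) (M : ℕ) {η Bd : ℝ} (h0 : 0 ≤ η) (h1 : η ≤ 1 / 20)
    (h : ∀ b ≤ W.card, ∃ t : ℝ, 0 < t ∧ b < xc t ∧ t⁻¹ ^ W.card * FreeT t 0 b ≤ Bd) :
    ∑ F ∈ univ.filter (IsF W), exp (η * FStr.exc W M F) ≤
      (W.card + 1) * W.card.factorial * Bd * exp (2 * exp 1 + W.card * (5 / 6) ^ M) := by
  rw [mul_assoc _ Bd]
  refine bsum_split W _ _ fun R hR => ?_
  obtain ⟨t, ht, h2, h3⟩ := h _ (card_le_card hR)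
  obtain ⟨w, hw, h4, h5, -, h6⟩ := exists_blockGF R (κ := 1) (z := t) (y := 0) (ν := fun _ => 1)
    zero_le_one ht ht le_rfl (fun _ => zero_le_one) (by ring) (by simpa using h2)
  have h7 := layer_le hR zero_le_one le_rfl (fun _ => zero_le_one) ht w h4
    (fun φ => exp (η * ((dfs0 R φ).filter fun p => M ≤ p.2).length)) fun _ => (exp_pos _).le
  have hA := bsum_ge ht h2
  have h8 := acys_level R w hw (rate t 0 R.card) (fun n => ht.trans_le (hA n))
    (fun i j hij _ => by
      have h9 : ((R.card - j : ℕ) : ℝ) ≤ (R.card - i : ℕ) := by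
        exact_mod_cast Nat.sub_le_sub_left hij _
      have h10 : ((R.card - i : ℕ) : ℝ) ≤ R.card := by exact_mod_cast Nat.sub_le _ _
      simpa only [rate, sub_add_cancel] using incr_mono (x := 0 + (R.card - j : ℕ) - 1)
        (x' := 0 + (R.card - i : ℕ) - 1) ht zero_le_one (by linarith only [h9]) (by linarith only [h2, h10]))
    (fun S hS a ha ha' => ((h6 S hS a ha ha').trans (bsum_rate t 0 hS ha ha')).le) M h0 h1
  have h9 : w ∅ ≤ exp 1 * t := by
    have h10 := (sigma_bounds (x := 0) ht ((Nat.cast_nonneg _).trans_lt h2)).2.2.2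
    rw [sub_zero, alam_xc ht, neg_sub, sub_neg_eq_add, exp_add, exp_log ht] at h10
    rwa [h5, Lam, mul_zero, zero_add]
  have h10 : 2 * w ∅ / rate t 0 R.card (R.card - 1) ≤ 2 * exp 1 := by
    rw [div_le_iff₀ (ht.trans_le (hA _))]
    linarith only [h9, hA, hA (R.card - 1), exp_pos 1, mul_nonneg_of_nonpos_of_nonpos (Mathlib.Tactic.Linarith.sub_nonpos_of_le (hA (#R - (1 : ℕ)))) (le_of_lt (Mathlib.Tactic.Linarith.sub_neg_of_lt (exp_pos (1 : ℝ))))]
  have h11 : (R.card : ℝ) ≤ W.card := by exact_mod_cast card_le_card hR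
  have h12 : 0 ≤ t⁻¹ ^ W.card * FreeT t 0 R.card :=
    mul_nonneg (by positivity) (prod_nonneg fun i _ =>
      mul_nonneg (exp_pos _).le (ht.le.trans (hA i)))
  refine (le_of_eq (sum_congr rfl fun F hF => ?_)).trans (h7.trans
    ((mul_le_mul_of_nonneg_left h8 (by positivity)).trans ?_))
  · simp only [FStr.wt, FStr.exc, (mem_filter.1 hF).2.2, one_pow, prod_const_one, mul_one,
      add_zero, one_mul]
  · calc _ = ((W.card - R.card).factorial : ℝ) * R.card.factorial *
          (t⁻¹ ^ W.card * FreeT t 0 R.card * exp (2 * w ∅ / rate t 0 R.card (R.card - 1) +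
            R.card * (5 / 6) ^ M)) := by rw [exp_add, FreeT]; ring
      _ ≤ _ := by
        refine mul_le_mul_of_nonneg_left (mul_le_mul h3 (exp_le_exp.2 ?_) (exp_pos _).le
          (h12.trans h3)) (by positivity)
        gcongr

theorem sum_SR_le (W : Finset α) {g : ℝ} (hg : 0 ≤ g) (Dm M : ℕ) :
    ∑ Δ ∈ dags W, exp (g * SR W Δ) ≤ ∑ F ∈ univ.filter (IsF W),
      exp (g * Dm * (M + 1) * FStr.area W F + g * Dm * W.card * F.exc W M +
        g * W.card * ∑ u ∈ F.rows W, (F.outs W u + 1 - Dm : ℕ)) := by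
  choose! c hc using fun Δ (h : IsDag W Δ) => exists_canon h
  have hd : ∀ Δ ∈ dags W, IsDag W Δ := fun Δ h => (mem_filter.1 h).2
  refine le_trans (sum_le_sum fun Δ hΔ => ?_) ((sum_image (g := c) fun Δ h Δ' h' e => by
    rw [← (hc Δ (hd Δ h)).2.1, e, (hc Δ' (hd Δ' h')).2.1]).symm.le.trans
      (sum_le_sum_of_subset_of_nonneg (fun F hF => ?_) fun _ _ _ => (exp_pos _).le))
  · obtain ⟨h1, -, -, h2, h3, h4⟩ := hc Δ (hd Δ hΔ)
    generalize c Δ = F at h1 h2 h3 h4
    have h5 := SS2_le (feed_mem_acys h1) M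
    have h6 : (F.rows W).card ≤ W.card := card_filter_le _ _
    have h7 : SR W Δ ≤ Dm * SS2 (F.rows W) (F.feed W) +
        W.card * ∑ u ∈ F.rows W, (F.outs W u + 1 - Dm) := by
      rw [SR, SS2, ← h2, mul_sum, mul_sum, ← sum_add_distrib]
      rw [← h2] at h3 h4
      refine sum_le_sum fun u hu => ?_
      have h8 : ((F.rows W).filter fun v => v = u ∨ DomD W Δ u v).card ≤
          ((F.rows W).filter fun v => v = u ∨ DomS (F.feed W) u v).card :=
        card_le_card fun v hv => mem_filter.2 ⟨(mem_filter.1 hv).1,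
          (mem_filter.1 hv).2.imp_right (h4 u hu v (mem_filter.1 hv).1)⟩
      have h9 := (card_filter_le (F.rows W) fun v => v = u ∨ DomD W Δ u v).trans h6
      have h10 : odeg W Δ u + 1 ≤ Dm + (F.outs W u + 1 - Dm) := by
        rw [h3 u hu, FStr.outs]
        omega
      refine (Nat.mul_le_mul_right _ h10).trans ?_
      rw [add_mul, mul_comm W.card]
      exact add_le_add (Nat.mul_le_mul_left _ h8) (Nat.mul_le_mul_left _ h9)
    have h8 : SR W Δ ≤ Dm * (M + 1) * F.area W + Dm * W.card * F.exc W M +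
        W.card * ∑ u ∈ F.rows W, (F.outs W u + 1 - Dm) := by
      refine h7.trans (add_le_add_left ?_ _)
      rw [mul_assoc, mul_assoc, ← mul_add]
      exact Nat.mul_le_mul_left _ (h5.trans (add_le_add_right (Nat.mul_le_mul_right _ h6) _))
    have h9 := mul_le_mul_of_nonneg_left (Nat.cast_le (α := ℝ).2 h8) hg
    refine exp_le_exp.2 (h9.trans (le_of_eq ?_))
    simp only [Nat.cast_add, Nat.cast_mul, Nat.cast_one]
    ring
  · obtain ⟨Δ, hΔ, rfl⟩ := mem_image.1 hF
    exact mem_filter.2 ⟨mem_univ _, (hc Δ (hd Δ hΔ)).1⟩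

end Pool.Agent.Work.MP_5391ad_co
end
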