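import Mathlib

/-! Nearly decomposable Boolean matrices. -/

namespace Pool.Agent.Work.MP_5391ad_co

/-- An `n × n` Boolean matrix is partly decomposable if it has an all-zero `s × (n - s)` submatrix
for some `1 ≤ s ≤ n - 1`. -/
def PartlyDecomposable {n : ℕ} (A : Fin n → Fin n → Bool) : Prop :=
  ∃ R C : Finset (Fin n), R.Nonempty ∧ C.Nonempty ∧ R.card + C.card = n ∧
    ∀ i ∈ R, ∀ j ∈ C, A i j = false

/-- Fully indecomposable: not partly decomposable, and for `n = 1` the matrix is `(1)`. -/
def FullyIndecomposable {n : ℕ} (A : Fin n → Fin n → Bool) : Prop :=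
  ¬ PartlyDecomposable A ∧ (n = 1 → ∀ i j, A i j = true)

/-- Nearly decomposable: fully indecomposable, and changing any single entry `1` to `0` gives a
matrix that is not fully indecomposable. -/
def NearlyDecomposable {n : ℕ} (A : Fin n → Fin n → Bool) : Prop :=
  FullyIndecomposable A ∧ ∀ i j, A i j = true →
    ¬ FullyIndecomposable (fun a b => if a = i ∧ b = j then false else A a b)

/-- The number of nearly decomposable `n × n` Boolean matrices. -/
noncomputable def numND (n : ℕ) : ℕ :=
  Nat.card {A : Fin n → Fin n → Bool // NearlyDecomposable A}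

end Pool.Agent.Work.MP_5391ad_co
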