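import Pool.Agent.Work.MP_5391ad_co.QTsum
import Pool.Agent.Work.MP_5391ad_co.Defs
import Pool.Agent.Work.MP_5391ad_co.BSum
import Pool.Agent.Work.MP_5391ad_co.CExp

-- merged part: Pool.Agent.Work.MP_5391ad_co.Asymp
section
-- merged part: Pool.Agent.Work.MP_5391ad_co.Charge
section
/-! The charging argument: the deficiency `2n - #arcs` pays for the hubs. -/

namespace Pool.Agent.Work.MP_5391ad_co

open Finset
open scoped Classical

variable {V : Type*} [Fintype V] {D : V → V → Prop} {s : V}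

/-- arcs -/
noncomputable def arcs (D : V → V → Prop) : Finset (V × V) := univ.filter fun p => D p.1 p.2

/-- vertices of in-degree at least two -/
noncomputable def fB (D : V → V → Prop) : Finset V := univ.filter (Br D)

/-- vertices of in-degree at least two without entering out-bridge -/
noncomputable def fN (D : V → V → Prop) (s : V) : Finset V :=
  univ.filter fun v => Br D v ∧ ¬ Bs D s v

/-- heads of doubly critical arcs -/
noncomputable def fH (D : V → V → Prop) (s : V) : Finset V :=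
  univ.filter fun v => ∃ u, Both D s u v

/-- the deficiency -/
noncomputable def dd (D : V → V → Prop) (s : V) : ℕ :=
  (fN D s).card + (fN (rv D) s).card + (fH D s).card

theorem Good.card_fH (h : Good D) :
    (fH D s).card = (univ.filter fun p : V × V => Both D s p.1 p.2).card := by
  symm
  refine card_bij (fun p _ => p.2) ?_ ?_ ?_
  · intro p hp
    simp only [fH, mem_filter, mem_univ, true_and] at hp ⊢
    exact ⟨_, hp⟩
  · intro p hp q hq e
    simp only [mem_filter, mem_univ, true_and] at hp hq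
    have e' : p.2 = q.2 := e
    exact Prod.ext (h.ob_unique hp.1 (e' ▸ hq.1)) e'
  · intro v hv
    simp only [fH, mem_filter, mem_univ, true_and] at hv ⊢
    obtain ⟨u, hu⟩ := hv
    exact ⟨(u, v), hu, rfl⟩

theorem Good.card_fH_rv (h : Good D) : (fH (rv D) s).card = (fH D s).card := by
  rw [h.card_fH, h.rev.card_fH]
  refine card_bij (fun p _ => p.swap) ?_ ?_ ?_
  · intro p hp
    simp only [mem_filter, mem_univ, true_and] at hp ⊢
    exact both_rev.1 hp
  · intro p _ q _ e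
    exact Prod.swap_injective e
  · intro p hp
    simp only [mem_filter, mem_univ, true_and] at hp ⊢
    exact ⟨p.swap, both_rev.2 hp, rfl⟩

theorem Good.dd_rv (h : Good D) : dd (rv D) s = dd D s := by
  unfold dd
  rw [h.card_fH_rv]
  have : rv (rv D) = D := rfl
  rw [this]; ring

theorem Good.card_ob (h : Good D) :
    (univ.filter fun p : V × V => OB D s p.1 p.2).card + (fN D s).card ≤ Fintype.card V := by
  have h1 : (univ.filter fun p : V × V => OB D s p.1 p.2).card ≤ (fN D s)ᶜ.card := by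
    refine card_le_card_of_injOn (fun p => p.2) ?_ ?_
    · intro p hp
      simp only [fN, coe_filter, mem_univ, true_and, Set.mem_ofPred_eq, coe_compl,
        Set.mem_compl_iff, not_and, not_not] at hp ⊢
      exact fun hb => ⟨hb, _, hp⟩
    · intro p hp q hq e
      simp only [coe_filter, mem_univ, true_and, Set.mem_ofPred_eq] at hp hq
      have e' : p.2 = q.2 := e
      exact Prod.ext (h.ob_unique hp (e' ▸ hq)) e'
  have h2 := card_add_card_compl (fN D s)
  omega

theorem Good.card_arcs (h : Good D) (s : V) :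
    (arcs D).card + dd D s ≤ 2 * Fintype.card V := by
  have h1 := h.card_ob (s := s)
  have h2 := h.rev.card_ob (s := s)
  have h3 : (univ.filter fun p : V × V => OB (rv D) s p.1 p.2).card =
      (univ.filter fun p : V × V => OB (rv D) s p.2 p.1).card := by
    refine card_bij (fun p _ => p.swap) ?_ ?_ ?_
    · intro p hp
      simpa using hp
    · intro p _ q _ e
      exact Prod.swap_injective e
    · intro p hp
      exact ⟨p.swap, by simpa using hp, rfl⟩
  have h4 := card_union_add_card_inter (univ.filter fun p : V × V => OB D s p.1 p.2)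
    (univ.filter fun p : V × V => OB (rv D) s p.2 p.1)
  have h5 : (arcs D).card ≤ ((univ.filter fun p : V × V => OB D s p.1 p.2) ∪
      (univ.filter fun p : V × V => OB (rv D) s p.2 p.1)).card := by
    refine card_le_card fun p hp => ?_
    simp only [arcs, mem_filter, mem_univ, true_and, mem_union] at hp ⊢
    exact h.ob_or s hp
  have h6 : (univ.filter fun p : V × V => OB D s p.1 p.2) ∩
      (univ.filter fun p : V × V => OB (rv D) s p.2 p.1) =
      univ.filter fun p : V × V => Both D s p.1 p.2 := by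
    ext p; simp [Both]
  rw [h6, ← h.card_fH] at h4
  unfold dd
  omega

omit [Fintype V] in
theorem Good.exists_in (h : Good D) (v : V) : ∃ u, D u v := by
  obtain ⟨X, Y, z, a1, -, a3, -⟩ := h.dg v
  obtain ⟨a, b, -, hb, hab⟩ := h.sc {v} ⟨v, rfl⟩ ⟨z, fun e => a3 (by
    rw [Set.mem_singleton_iff.1 e]; exact a1)⟩
  obtain rfl : b = v := hb
  exact ⟨a, hab⟩

theorem Good.card_fB (h : Good D) (s : V) : (fB D).card ≤ dd D s := by
  have : fB D ⊆ fN D s ∪ fN (rv D) s ∪ fH (rv D) s := by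
    intro v hv
    simp only [fB, fN, fH, mem_filter, mem_univ, true_and, mem_union] at hv ⊢
    by_cases h1 : Bs D s v
    · by_cases h2 : Br (rv D) v
      · exact Or.inl (Or.inr ⟨h2, fun e => h.not_bs_bs h1 e⟩)
      · obtain ⟨w, hw⟩ := h.rev.exists_in v
        exact Or.inr ⟨w, both_rev.2 (h.both_of_bs h1 h2 hw)⟩
    · exact Or.inl (Or.inl ⟨hv, h1⟩)
  have h1 := card_le_card this
  have h2 := card_union_le (fN D s ∪ fN (rv D) s) (fH (rv D) s)
  have h3 := card_union_le (fN D s) (fN (rv D) s)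
  have h4 := h.card_fH_rv (s := s)
  unfold dd
  omega

/-- `u` and `y` are joined through a vertex of in- and out-degree one -/
def Hrel (D : V → V → Prop) (u y : V) : Prop :=
  Br (rv D) u ∧ Br D y ∧ ∃ x, ¬ Br D x ∧ ¬ Br (rv D) x ∧ D u x ∧ D x y

omit [Fintype V] in
theorem hrel_rv {u y : V} : Hrel (rv D) y u ↔ Hrel D u y := by
  constructor
  · rintro ⟨a, b, x, c, d, e, f⟩; exact ⟨b, a, x, d, c, f, e⟩
  · rintro ⟨a, b, x, c, d, e, f⟩; exact ⟨b, a, x, d, c, f, e⟩

/-- real hubs -/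
noncomputable def fR (D : V → V → Prop) (k : ℕ) : Finset V :=
  univ.filter fun y => k + 2 ≤ (univ.filter fun u => Hrel D u y).card

theorem br_of_mem_fR {k : ℕ} {y : V} (hy : y ∈ fR D k) : Br D y := by
  simp only [fR, mem_filter, mem_univ, true_and] at hy
  obtain ⟨u, hu⟩ := card_pos.1 (show 0 < (univ.filter fun u => Hrel D u y).card by omega)
  exact (mem_filter.1 hu).2.2.1

omit [Fintype V] in
theorem mul_card_le {F U : Finset V} {k : ℕ} (H : V → Finset V) (h1 : ∀ v ∈ F, k ≤ (H v).card)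
    (h2 : ∀ v ∈ F, H v ⊆ U) (h3 : ∀ v ∈ F, ∀ v' ∈ F, v ≠ v' → Disjoint (H v) (H v')) :
    k * F.card ≤ U.card := by
  have e : (F.biUnion H).card = ∑ v ∈ F, (H v).card := card_biUnion h3
  have e2 : (F.biUnion H).card ≤ U.card := card_le_card (biUnion_subset.2 h2)
  have e3 : F.card • k ≤ ∑ v ∈ F, (H v).card := card_nsmul_le_sum _ _ _ h1
  rw [smul_eq_mul] at e3
  linarith only [e, e2, e3]

/-- first exceptional family -/
noncomputable def fF1 (D : V → V → Prop) (s : V) (k : ℕ) : Finset V :=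
  univ.filter fun v => Bs D s v ∧ v ∈ fR (rv D) k

/-- second exceptional family -/
noncomputable def fF3 (D : V → V → Prop) (s : V) (k : ℕ) : Finset V :=
  univ.filter fun v => v ∈ fR D k ∧ ∃ u w, OB D s u v ∧ Br (rv D) w ∧
    ∀ a b, a ∈ SS D s u v → b ∉ SS D s u v → D a b → a = w

theorem Good.card_fF1 (h : Good D) (k : ℕ) : k * (fF1 D s k).card ≤ (fB D).card := by
  choose X Y z a1 a2 a3 a4 a5 a6 using h.dg
  refine mul_card_le (fun v => univ.filter fun y => Br D y ∧
    ∃ x ∈ X v, ¬ Br D x ∧ D v x ∧ D x y) ?_ ?_ ?_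
  · intro v hv
    simp only [fF1, fR, mem_filter, mem_univ, true_and] at hv
    have hsub : (univ.filter fun y => Hrel (rv D) y v) ⊆ (univ.filter fun y => Br D y ∧
        ∃ x ∈ X v, ¬ Br D x ∧ D v x ∧ D x y) ∪
        univ.filter fun y => ¬ Br (rv D) (z v) ∧ D (z v) y := by
      intro y hy
      simp only [mem_filter, mem_univ, true_and, mem_union] at hy ⊢
      obtain ⟨-, b, x, c, d, e, f⟩ := hrel_rv.1 hy
      rcases a5 v x with g | g | g
      · exact Or.inl ⟨b, x, g, c, e, f⟩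
      · exact absurd e (a6 v v x (a1 v) g)
      · exact Or.inr (g ▸ ⟨d, f⟩)
    have h1 := (card_le_card hsub).trans (card_union_le _ _)
    have h2 : (univ.filter fun y => ¬ Br (rv D) (z v) ∧ D (z v) y).card ≤ 1 := by
      refine card_le_one.2 fun y hy y' hy' => ?_
      simp only [mem_filter, mem_univ, true_and] at hy hy'
      exact eq_of_not_br (D := rv D) hy.1 hy.2 hy'.2
    omega
  · intro v _ y hy
    simp only [fB, mem_filter, mem_univ, true_and] at hy ⊢
    exact hy.1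
  · have key : ∀ v v' u', Br D v' → OB D s u' v' → v ∉ SS D s u' v' → ∀ y x x', ¬ Br D x →
        D v x → D x y → x' ∈ X v' → D x' y → False := by
      intro v v' u' hb hu' hv y x x' c e f g g'
      have p := h.diag_sub hb hu' (a1 v') (a2 v') (a5 v') (a6 v')
      have hy : y ∈ SS D s u' v' := by
        rcases a5 v' y with r | r | r
        · exact p.1 r
        · exact absurd g' (a6 v' x' y g r)
        · exact r ▸ p.2
      by_cases hx : x ∈ SS D s u' v'
      · exact c (((cut_SS D s u' v').2 v x hv hx e).2 ▸ hb)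
      · have := ((cut_SS D s u' v').2 x y hx hy f).2
        exact a6 v' x' y g (this ▸ a2 v') g'
    intro v hv v' hv' hne
    simp only [fF1, mem_filter, mem_univ, true_and] at hv hv'
    obtain ⟨⟨hb, u, hu⟩, -⟩ := hv
    obtain ⟨⟨hb', u', hu'⟩, -⟩ := hv'
    refine disjoint_left.2 fun y hy hy' => ?_
    simp only [mem_filter, mem_univ, true_and] at hy hy'
    obtain ⟨-, x, g, c, e, f⟩ := hy
    obtain ⟨-, x', g', c', e', f'⟩ := hy'
    rcases h.laminar hu hu' hne with r | r
    · exact key v v' u' hb' hu' r y x x' c e f g' f'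
    · exact key v' v u hb hu r y x' x c' e' f' g f

theorem Good.card_fF3 (h : Good D) (k : ℕ) : k * (fF3 D s k).card ≤ (fB (rv D)).card := by
  have hch : ∀ v, ∃ u w, v ∈ fF3 D s k → OB D s u v ∧ Br (rv D) w ∧
      ∀ a b, a ∈ SS D s u v → b ∉ SS D s u v → D a b → a = w := by
    intro v
    by_cases hv : v ∈ fF3 D s k
    · obtain ⟨u, w, hh⟩ := (mem_filter.1 hv).2.2
      exact ⟨u, w, fun _ => hh⟩
    · exact ⟨v, v, fun e => absurd e hv⟩
  choose u w huw using hch
  refine mul_card_le (fun v => univ.filter fun a => Hrel D a v ∧ a ∈ SS D s (u v) v ∧ a ≠ w v)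
    ?_ ?_ ?_
  · intro v hv
    obtain ⟨b1, b2, b3⟩ := huw v hv
    simp only [fF3, fR, mem_filter, mem_univ, true_and] at hv
    have hsub : (univ.filter fun a => Hrel D a v) ⊆
        ((univ.filter fun a => Hrel D a v ∧ a ∈ SS D s (u v) v ∧ a ≠ w v) ∪ {w v}) ∪
        univ.filter fun a => ¬ Br D (u v) ∧ D a (u v) := by
      intro a ha
      simp only [mem_filter, mem_univ, true_and, mem_union, mem_singleton] at ha ⊢
      by_cases e0 : a = w v
      · exact Or.inl (Or.inr e0)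
      obtain ⟨b, b', x, c, d, e, f⟩ := ha
      by_cases e1 : x = u v
      · exact Or.inr (e1 ▸ ⟨c, e⟩)
      have hx : x ∈ SS D s (u v) v := Good.mem_of_arc b1.2 f (fun r => e1 r.1)
      have ha' : a ∈ SS D s (u v) v := Good.mem_of_arc hx e (fun r => c (r.2 ▸ b'))
      exact Or.inl (Or.inl ⟨⟨b, b', x, c, d, e, f⟩, ha', e0⟩)
    have h1 := (card_le_card hsub).trans (card_union_le _ _)
    have h1' := card_union_le
      (univ.filter fun a => Hrel D a v ∧ a ∈ SS D s (u v) v ∧ a ≠ w v) {w v}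
    have h2 : (univ.filter fun a => ¬ Br D (u v) ∧ D a (u v)).card ≤ 1 := by
      refine card_le_one.2 fun y hy y' hy' => ?_
      simp only [mem_filter, mem_univ, true_and] at hy hy'
      exact eq_of_not_br hy.1 hy.2 hy'.2
    rw [card_singleton] at h1'
    omega
  · intro v _ a ha
    simp only [fB, mem_filter, mem_univ, true_and] at ha ⊢
    exact ha.1.1
  · have key : ∀ v v', v' ∈ fF3 D s k → v ∉ SS D s (u v') v' → ∀ a, Hrel D a v →
        a ∈ SS D s (u v') v' → a ≠ w v' → False := by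
      intro v v' hv' hv a ha ha' hne
      obtain ⟨b1, b2, b3⟩ := huw v' hv'
      obtain ⟨b, b', x, c, d, e, f⟩ := ha
      by_cases hx : x ∈ SS D s (u v') v'
      · exact d (b3 x v hx hv f ▸ b2)
      · exact hne (b3 a x ha' hx e)
    intro v hv v' hv' hne
    refine disjoint_left.2 fun a ha ha' => ?_
    simp only [mem_filter, mem_univ, true_and] at ha ha'
    rcases h.laminar (huw v hv).1 (huw v' hv').1 hne with r | r
    · exact key v v' hv' r a ha.1 ha'.2.1 ha'.2.2
    · exact key v' v hv r a ha'.1 ha.2.1 ha.2.2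

theorem Good.exists_end (h : Good D) (m : ℕ) : ∀ u v, OB D s u v → (SS D s u v).ncard ≤ m →
    ∃ w, Relation.ReflTransGen (Both D s) v w ∧ ∀ w', ¬ Both D s w w' := by
  induction m with
  | zero =>
    intro u v hu hm
    have := (Set.ncard_pos (Set.toFinite _)).2 ⟨v, hu.2⟩
    omega
  | succ m ih =>
    intro u v hu hm
    by_cases hv : ∃ w', Both D s v w'
    · obtain ⟨w', hw'⟩ := hv
      have hlt : (SS D s v w').ncard < (SS D s u v).ncard :=
        Set.ncard_lt_ncard ⟨sub_of_tail_mem hu.2, fun e => h.tail_not_mem hw'.1 (e hu.2)⟩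
      obtain ⟨w, h1, h2⟩ := ih v w' hw'.1 (by omega)
      exact ⟨w, h1.head hw', h2⟩
    · exact ⟨v, Relation.ReflTransGen.refl, fun w' e => hv ⟨w', e⟩⟩

/-- real hubs with an entering out-bridge and out-degree one -/
noncomputable def fb (D : V → V → Prop) (s : V) (k : ℕ) : Finset V :=
  univ.filter fun v => v ∈ fR D k ∧ Bs D s v ∧ ¬ Br (rv D) v

theorem Good.card_fb (h : Good D) (k : ℕ) :
    (fb D s k).card + (fb (rv D) s k).card ≤ (fH D s).card + (fF3 D s k).card := by
  have hch : ∀ v, ∃ w, v ∈ fb D s k →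
      Relation.ReflTransGen (Both D s) v w ∧ ∀ w', ¬ Both D s w w' := by
    intro v
    by_cases hv : v ∈ fb D s k
    · obtain ⟨u, hu⟩ := (mem_filter.1 hv).2.2.1.2
      obtain ⟨w, hw⟩ := h.exists_end _ u v hu le_rfl
      exact ⟨w, fun _ => hw⟩
    · exact ⟨v, fun e => absurd e hv⟩
  choose en hen using hch
  have htl : ∀ v ∈ fb D s k, ∃ w, Both D s v w := by
    intro v hv
    obtain ⟨w, hw⟩ := h.rev.exists_in v
    exact ⟨w, h.both_of_bs (mem_filter.1 hv).2.2.1 (mem_filter.1 hv).2.2.2 hw⟩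
  have hhd : fb (rv D) s k ⊆ fH D s := by
    intro v hv
    obtain ⟨w, hw⟩ := h.exists_in v
    simp only [fH, mem_filter, mem_univ, true_and]
    exact ⟨w, both_rev.1 (h.rev.both_of_bs (mem_filter.1 hv).2.2.1 (mem_filter.1 hv).2.2.2 hw)⟩
  have hdis : Disjoint (fb D s k) (fb (rv D) s k) := by
    refine disjoint_left.2 fun v hv hv' => ?_
    exact (mem_filter.1 hv').2.2.2 (mem_filter.1 hv).2.2.1.1
  have h1 : ((fb D s k \ fH D s) \ fF3 D s k).card ≤
      (fH D s \ (fb D s k ∪ fb (rv D) s k)).card := by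
    refine card_le_card_of_injOn en ?_ ?_
    · intro v hv
      simp only [coe_sdiff, Set.mem_sdiff, mem_coe, coe_union, Set.mem_union, not_or] at hv ⊢
      obtain ⟨⟨b1, b2⟩, b3⟩ := hv
      obtain ⟨c1, c2⟩ := hen v b1
      refine ⟨?_, fun e => ?_, fun e => b3 ?_⟩
      · simp only [fH, mem_filter, mem_univ, true_and]
        rcases c1.cases_tail with e | ⟨a, -, ha⟩
        · obtain ⟨w, hw⟩ := htl v b1
          rw [e] at c2
          exact absurd hw (c2 w)
        · exact ⟨a, ha⟩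
      · obtain ⟨w, hw⟩ := htl _ e
        exact c2 w hw
      · obtain ⟨hR, ⟨-, u, hu⟩, -⟩ := (mem_filter.1 b1).2
        obtain ⟨-, ⟨hw1, w', hw'⟩, -⟩ := (mem_filter.1 e).2
        have n1 : ¬ OB D s (en v) w' := fun r => c2 w' ⟨r, hw'⟩
        have n2 : ¬ OB (rv D) s v u := fun r => b2 (by
          simp only [fH, mem_filter, mem_univ, true_and]; exact ⟨u, hu, r⟩)
        have m1 : en v ∈ SS D s u v := chain_mem hu c1
        have m2 : v ∈ SS (rv D) s w' (en v) := by
          refine chain_mem hw' ?_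
          exact Relation.ReflTransGen.mono (fun a b r => both_rev.2 r) _ _ c1.swap
        have s1 := h.sub_of_ends (u := u) n1 m2
        have s2 : SS (rv D) s w' (en v) ⊆ SS D s u v := h.rev.sub_of_ends (u := w') n2 m1
        simp only [fF3, mem_filter, mem_univ, true_and]
        refine ⟨hR, u, en v, hu, hw1, fun a b ha hb hab => ?_⟩
        exact ((cut_SS (rv D) s w' (en v)).2 b a (fun r => hb (s2 r)) (s1 ha) hab).2
    · intro v hv v' hv' e
      simp only [coe_sdiff, Set.mem_sdiff, mem_coe] at hv hv'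
      have c1 := (hen v hv.1.1).1
      have c2 := (hen v' hv'.1.1).1
      rw [← e] at c2
      have hru : Relator.RightUnique (Function.swap (Both D s)) :=
        fun a b c hab hac => h.ob_unique hab.1 hac.1
      have nh : ∀ a b, b ∉ fH D s → Relation.ReflTransGen (Function.swap (Both D s)) b a →
          a = b := by
        intro a b hb r
        rcases r.cases_head with r | ⟨c, hc, -⟩
        · exact r.symm
        · exact absurd (by simp only [fH, mem_filter, mem_univ, true_and]; exact ⟨c, hc⟩) hb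
      rcases Relation.ReflTransGen.total_of_right_unique hru c1.swap c2.swap with r | r
      · exact (nh _ _ hv.1.2 r).symm
      · exact nh _ _ hv'.1.2 r
  have h2 : (fH D s \ (fb D s k ∪ fb (rv D) s k)).card + ((fb D s k ∩ fH D s).card +
      (fb (rv D) s k).card) ≤ (fH D s).card := by
    rw [← card_union_of_disjoint (hdis.mono_left inter_subset_left), ← card_union_of_disjoint]
    · refine card_le_card (union_subset sdiff_subset (union_subset inter_subset_right hhd))
    · refine disjoint_left.2 fun v hv hv' => (mem_sdiff.1 hv).2 ?_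
      rcases mem_union.1 hv' with r | r
      · exact mem_union_left _ (mem_inter.1 r).1
      · exact mem_union_right _ r
  have h3 := card_sdiff_add_card_inter (fb D s k) (fH D s)
  have h4 := card_le_card_sdiff_add_card (s := fb D s k \ fH D s) (t := fF3 D s k)
  omega

theorem Good.card_fR_aux (k : ℕ) : (fR D k).card ≤ (fR D k ∩ fN D s).card + (fb D s k).card +
    ((univ.filter fun v => Bs D s v ∧ Br (rv D) v) \ fR (rv D) k).card + (fF1 D s k).card := by
  have : fR D k ⊆ ((fR D k ∩ fN D s ∪ fb D s k) ∪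
      (univ.filter fun v => Bs D s v ∧ Br (rv D) v) \ fR (rv D) k) ∪ fF1 D s k := by
    intro v hv
    have hb := br_of_mem_fR hv
    simp only [fN, fb, fF1, mem_union, mem_inter, mem_sdiff, mem_filter, mem_univ, true_and]
    by_cases h1 : Bs D s v
    · by_cases h2 : Br (rv D) v
      · by_cases h3 : v ∈ fR (rv D) k
        · exact Or.inr ⟨h1, h3⟩
        · exact Or.inl (Or.inr ⟨⟨h1, h2⟩, h3⟩)
      · exact Or.inl (Or.inl (Or.inr ⟨hv, h1, h2⟩))
    · exact Or.inl (Or.inl (Or.inl ⟨hv, hb, h1⟩))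
  refine (card_le_card this).trans ((card_union_le _ _).trans ?_)
  gcongr
  refine (card_union_le _ _).trans ?_
  gcongr
  exact card_union_le _ _

theorem Good.card_fN_split (h : Good D) (k : ℕ) : (fR D k ∩ fN D s).card +
    ((univ.filter fun v => Bs (rv D) s v ∧ Br D v) \ fR D k).card ≤ (fN D s).card := by
  rw [← card_union_of_disjoint]
  · refine card_le_card (union_subset inter_subset_right fun v hv => ?_)
    simp only [fN, mem_sdiff, mem_filter, mem_univ, true_and] at hv ⊢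
    exact ⟨hv.1.2, fun e => h.not_bs_bs e hv.1.1⟩
  · exact disjoint_left.2 fun v hv hv' => (mem_sdiff.1 hv').2 (mem_inter.1 hv).1

theorem Good.card_fR (h : Good D) (s : V) (k : ℕ) :
    k * ((fR D k).card + (fR (rv D) k).card) ≤ (k + 3) * dd D s := by
  have a1 := Good.card_fR_aux (D := D) (s := s) k
  have a2 := Good.card_fR_aux (D := rv D) (s := s) k
  have a3 := h.card_fN_split (s := s) k
  have a4 := h.rev.card_fN_split (s := s) k
  have a5 := h.card_fb (s := s) k
  have b1 := h.card_fF1 (s := s) k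
  have b2 := h.rev.card_fF1 (s := s) k
  have b3 := h.card_fF3 (s := s) k
  have c1 := h.card_fB s
  have c2 := h.rev.card_fB s
  rw [h.dd_rv] at c2
  have e : rv (rv D) = D := rfl
  rw [e] at a2 a4
  have : (fR D k).card + (fR (rv D) k).card ≤
      dd D s + (fF1 D s k).card + (fF1 (rv D) s k).card + (fF3 D s k).card := by
    unfold dd; omega
  have := Nat.mul_le_mul_left k this
  clear * - k V D s b1 b2 b3 c1 c2 this
  linarith only [b1, b2, b3, c1, c2, this]

end Pool.Agent.Work.MP_5391ad_co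
end

-- merged part: Pool.Agent.Work.MP_5391ad_co.Encode
section
/-! The small core of a good digraph and the resulting counting bound. -/

namespace Pool.Agent.Work.MP_5391ad_co

open Finset
open scoped Classical

variable {V : Type*} [Fintype V] {D : V → V → Prop} {s : V}

/-- a linear vertex between an out-hub and an in-hub -/
def Gd (D : V → V → Prop) (x : V) : Prop :=
  ¬ Br D x ∧ ¬ Br (rv D) x ∧ ∃ u y, D u x ∧ D x y ∧ Br (rv D) u ∧ Br D y

theorem Good.card_thin (h : Good D) (s : V) :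
    (univ.filter fun x => ¬ Br D x ∧ ∃ u, D u x ∧ ¬ Br (rv D) u).card ≤ dd D s + 2 := by
  have : (univ.filter fun x => ¬ Br D x ∧ ∃ u, D u x ∧ ¬ Br (rv D) u) ⊆
      (fH D s ∪ {s}) ∪ univ.filter fun x => ¬ Br (rv D) s ∧ D s x := by
    intro x hx
    simp only [fH, mem_filter, mem_univ, true_and, mem_union, mem_singleton] at hx ⊢
    obtain ⟨h1, u, h2, h3⟩ := hx
    by_cases e1 : x = s
    · exact Or.inl (Or.inr e1)
    by_cases e2 : u = s
    · exact Or.inr (e2 ▸ ⟨h3, h2⟩)
    exact Or.inl (Or.inl ⟨u, h.ob_of_not_br h1 h2 e1, h.rev.ob_of_not_br h3 h2 e2⟩)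
  have h1 := (card_le_card this).trans (card_union_le _ _)
  have h2 := card_union_le (fH D s) {s}
  have h3 : (univ.filter fun x => ¬ Br (rv D) s ∧ D s x).card ≤ 1 := by
    refine card_le_one.2 fun y hy y' hy' => ?_
    simp only [mem_filter, mem_univ, true_and] at hy hy'
    exact eq_of_not_br (D := rv D) hy.1 hy.2 hy'.2
  rw [card_singleton] at h2
  unfold dd
  omega

theorem Good.card_not_gd (h : Good D) (s : V) :
    (univ.filter fun x => ¬ Gd D x).card ≤ 4 * dd D s + 4 := by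
  have : (univ.filter fun x => ¬ Gd D x) ⊆ ((fB D ∪ fB (rv D)) ∪
      univ.filter fun x => ¬ Br D x ∧ ∃ u, D u x ∧ ¬ Br (rv D) u) ∪
      univ.filter fun x => ¬ Br (rv D) x ∧ ∃ u, rv D u x ∧ ¬ Br (rv (rv D)) u := by
    intro x hx
    simp only [fB, mem_filter, mem_univ, true_and, mem_union] at hx ⊢
    by_cases e1 : Br D x
    · exact Or.inl (Or.inl (Or.inl e1))
    by_cases e2 : Br (rv D) x
    · exact Or.inl (Or.inl (Or.inr e2))
    obtain ⟨u, hu⟩ := h.exists_in x
    obtain ⟨y, hy⟩ := h.rev.exists_in x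
    by_cases e3 : Br (rv D) u
    · exact Or.inr ⟨e2, y, hy, fun e4 => hx ⟨e1, e2, u, y, hu, hy, e3, e4⟩⟩
    · exact Or.inl (Or.inr ⟨e1, u, hu, e3⟩)
  have h1 := (card_le_card this).trans (card_union_le _ _)
  have h2 := card_union_le (fB D ∪ fB (rv D))
    (univ.filter fun x => ¬ Br D x ∧ ∃ u, D u x ∧ ¬ Br (rv D) u)
  have h3 := card_union_le (fB D) (fB (rv D))
  have a1 := h.card_thin s
  have a2 := h.rev.card_thin s
  have c1 := h.card_fB s
  have c2 := h.rev.card_fB s
  rw [h.dd_rv] at c2 a2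
  omega

theorem card_low (k : ℕ) :
    (univ.filter fun p : V × V => Hrel D p.1 p.2 ∧ p.2 ∉ fR D k).card ≤ (k + 1) * (fB D).card := by
  refine card_le_mul_card_image_of_maps_to (f := fun p : V × V => p.2) ?_ _ ?_
  · intro p hp
    simp only [fB, mem_filter, mem_univ, true_and] at hp ⊢
    exact hp.1.2.1
  · intro y _
    by_cases hy : y ∈ fR D k
    · rw [card_eq_zero.2]
      · omega
      · ext p
        simp only [mem_filter, mem_univ, true_and, notMem_empty, iff_false, not_and, and_imp]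
        intro _ h2 e
        exact h2 (e ▸ hy)
    · simp only [fR, mem_filter, mem_univ, true_and, not_le] at hy
      refine le_trans (card_le_card_of_injOn (t := univ.filter fun u => Hrel D u y)
        (fun p => p.1) ?_ ?_) (by omega)
      · intro p hp
        simp only [coe_filter, mem_filter, mem_univ, true_and, Set.mem_ofPred_eq] at hp ⊢
        exact hp.2 ▸ hp.1.1
      · intro p hp q hq e
        simp only [coe_filter, mem_filter, mem_univ, true_and, Set.mem_ofPred_eq] at hp hq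
        exact Prod.ext e (hp.2.trans hq.2.symm)

/-- `x` has the single in-neighbour `u` and the single out-neighbour `y` -/
def Lin (D : V → V → Prop) (x : V) (p : V × V) : Prop :=
  (∀ a, D a x ↔ a = p.1) ∧ ∀ a, D x a ↔ a = p.2

omit [Fintype V] in
theorem lin_of {x u y : V} (h1 : ¬ Br D x) (h2 : ¬ Br (rv D) x) (hu : D u x) (hy : D x y) :
    Lin D x (u, y) :=
  ⟨fun _ => ⟨fun e => eq_of_not_br h1 e hu, fun e => e ▸ hu⟩,
    fun _ => ⟨fun e => eq_of_not_br (D := rv D) h2 e hy, fun e => e ▸ hy⟩⟩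

theorem card_arcs_split (N : Finset V) (h : ∀ x ∉ N, ∃ p : V × V, p.1 ∈ N ∧ p.2 ∈ N ∧ Lin D x p) :
    (arcs D ∩ N ×ˢ N).card + 2 * Nᶜ.card ≤ (arcs D).card := by
  have hch : ∀ x, ∃ p : V × V, x ∉ N → p.1 ∈ N ∧ p.2 ∈ N ∧ Lin D x p := by
    intro x
    by_cases hx : x ∈ N
    · exact ⟨(x, x), fun e => absurd hx e⟩
    · obtain ⟨p, hp⟩ := h x hx
      exact ⟨p, fun _ => hp⟩
  choose f hf using hch
  have e1 : (Nᶜ.image fun x => ((f x).1, x)).card = Nᶜ.card :=
    card_image_of_injective _ fun a b e => congrArg Prod.snd e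
  have e2 : (Nᶜ.image fun x => (x, (f x).2)).card = Nᶜ.card :=
    card_image_of_injective _ fun a b e => congrArg Prod.fst e
  have d1 : Disjoint (Nᶜ.image fun x => ((f x).1, x)) (Nᶜ.image fun x => (x, (f x).2)) := by
    refine disjoint_left.2 fun p hp hp' => ?_
    obtain ⟨x, hx, rfl⟩ := mem_image.1 hp
    obtain ⟨x', hx', e⟩ := mem_image.1 hp'
    have := (hf x (mem_compl.1 hx)).1
    rw [← congrArg Prod.fst e] at this
    exact mem_compl.1 hx' this
  have d2 : Disjoint (arcs D ∩ N ×ˢ N)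
      ((Nᶜ.image fun x => ((f x).1, x)) ∪ (Nᶜ.image fun x => (x, (f x).2))) := by
    refine disjoint_left.2 fun p hp hp' => ?_
    have := mem_product.1 (mem_inter.1 hp).2
    rcases mem_union.1 hp' with r | r
    · obtain ⟨x, hx, rfl⟩ := mem_image.1 r
      exact mem_compl.1 hx this.2
    · obtain ⟨x, hx, rfl⟩ := mem_image.1 r
      exact mem_compl.1 hx this.1
  have := card_union_of_disjoint d2
  rw [card_union_of_disjoint d1, e1, e2] at this
  rw [two_mul, ← this]
  refine card_le_card (union_subset inter_subset_left (union_subset ?_ ?_))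
  · intro p hp
    obtain ⟨x, hx, rfl⟩ := mem_image.1 hp
    simp only [arcs, mem_filter, mem_univ, true_and]
    exact ((hf x (mem_compl.1 hx)).2.2.1 _).2 rfl
  · intro p hp
    obtain ⟨x, hx, rfl⟩ := mem_image.1 hp
    simp only [arcs, mem_filter, mem_univ, true_and]
    exact ((hf x (mem_compl.1 hx)).2.2.2 _).2 rfl

theorem Good.core (h : Good D) (s : V) (k : ℕ) : ∃ (N R C : Finset V) (d : ℕ), R ⊆ N ∧ C ⊆ N ∧
    k * (R.card + C.card) ≤ (k + 3) * d ∧ N.card ≤ (2 * k + 6) * d + 4 ∧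
    (arcs D ∩ N ×ˢ N).card + d ≤ 2 * N.card ∧
    ∀ x ∉ N, ∃ p : V × V, p.1 ∈ N ∧ p.2 ∈ N ∧ Lin D x p ∧
      (p ∈ R ×ˢ C ∨ ∃ x' ∈ N, Lin D x' p) := by
  have hch : ∀ p : V × V, ∃ x, Hrel D p.1 p.2 → Lin D x p := by
    intro p
    by_cases hp : Hrel D p.1 p.2
    · obtain ⟨-, -, x, a, b, c, d⟩ := hp
      exact ⟨x, fun _ => lin_of a b c d⟩
    · exact ⟨s, fun e => absurd e hp⟩
  choose rep hrep using hch
  set L1 := univ.filter fun p : V × V => Hrel D p.1 p.2 ∧ p.2 ∉ fR D k with hL1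
  set L2 := univ.filter fun p : V × V => Hrel D p.1 p.2 ∧ p.1 ∉ fR (rv D) k with hL2
  set N := (univ.filter fun x => ¬ Gd D x) ∪ (L1 ∪ L2).image rep with hN
  have hB : ∀ x, Br D x → x ∈ N := fun x hx =>
    mem_union_left _ (mem_filter.2 ⟨mem_univ _, fun e => e.1 hx⟩)
  have hC : ∀ x, Br (rv D) x → x ∈ N := fun x hx =>
    mem_union_left _ (mem_filter.2 ⟨mem_univ _, fun e => e.2.1 hx⟩)
  have hlin : ∀ x ∉ N, ∃ p : V × V, p.1 ∈ N ∧ p.2 ∈ N ∧ Lin D x p ∧
      (p ∈ fR (rv D) k ×ˢ fR D k ∨ ∃ x' ∈ N, Lin D x' p) := by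
    intro x hx
    have hg : Gd D x := by
      by_contra e
      exact hx (mem_union_left _ (mem_filter.2 ⟨mem_univ _, e⟩))
    obtain ⟨a, b, u, y, c, d, e, f⟩ := hg
    refine ⟨(u, y), hC u e, hB y f, lin_of a b c d, ?_⟩
    have hr : Hrel D u y := ⟨e, f, x, a, b, c, d⟩
    by_cases e1 : y ∈ fR D k
    · by_cases e2 : u ∈ fR (rv D) k
      · exact Or.inl (mem_product.2 ⟨e2, e1⟩)
      · exact Or.inr ⟨rep (u, y), mem_union_right _ (mem_image_of_mem _
          (mem_union_right _ (mem_filter.2 ⟨mem_univ _, hr, e2⟩))), hrep (u, y) hr⟩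
    · exact Or.inr ⟨rep (u, y), mem_union_right _ (mem_image_of_mem _
        (mem_union_left _ (mem_filter.2 ⟨mem_univ _, hr, e1⟩))), hrep (u, y) hr⟩
  refine ⟨N, fR (rv D) k, fR D k, dd D s, fun x hx => hC x (br_of_mem_fR hx),
    fun x hx => hB x (br_of_mem_fR hx), ?_, ?_, ?_, hlin⟩
  · rw [add_comm (fR (rv D) k).card]; exact h.card_fR s k
  · have a1 := h.card_not_gd s
    have a2 := card_low (D := D) k
    have a3 := card_low (D := rv D) k
    have a4 : L2.card =
        (univ.filter fun p : V × V => Hrel (rv D) p.1 p.2 ∧ p.2 ∉ fR (rv D) k).card := by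
      refine card_bij (fun p _ => p.swap) ?_ ?_ ?_
      · intro p hp
        simp only [hL2, mem_filter, mem_univ, true_and] at hp ⊢
        exact ⟨hrel_rv.2 hp.1, hp.2⟩
      · intro p _ q _ e
        exact Prod.swap_injective e
      · intro p hp
        simp only [hL2, mem_filter, mem_univ, true_and] at hp ⊢
        exact ⟨p.swap, ⟨hrel_rv.1 hp.1, hp.2⟩, rfl⟩
    have c1 := h.card_fB s
    have c2 := h.rev.card_fB s
    rw [h.dd_rv] at c2
    have b1 : N.card ≤ _ := card_union_le _ _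
    have b2 : ((L1 ∪ L2).image rep).card ≤ L1.card + L2.card :=
      card_image_le.trans (card_union_le _ _)
    have c3 := Nat.mul_le_mul_left (k + 1) c1
    have c4 := Nat.mul_le_mul_left (k + 1) c2
    rw [← hL1] at a2
    clear * - V N k D s L1 L2 rep a1 a2 a3 a4 b1 b2 c3 c4
    linarith only [a1, a2, a3, a4, b1, b2, c3, c4]
  · have a1 := card_arcs_split (D := D) N fun x hx => by
      obtain ⟨p, b1, b2, b3, -⟩ := hlin x hx
      exact ⟨p, b1, b2, b3⟩
    have a2 := h.card_arcs s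
    have a3 := card_add_card_compl N
    omega

/-- the admissible pairs determined by the core -/
noncomputable def pairs (N R C : Finset V) (E : Finset (V × V)) : Finset (V × V) :=
  R ×ˢ C ∪ univ.filter fun p => ∃ x ∈ N, Lin (fun a b => (a, b) ∈ E) x p

theorem card_pairs (N R C : Finset V) (E : Finset (V × V)) :
    (pairs N R C E).card ≤ R.card * C.card + N.card := by
  refine (card_union_le _ _).trans ?_
  rw [card_product]
  gcongr
  have hch : ∀ p : V × V, ∃ x, (∃ x ∈ N, Lin (fun a b => (a, b) ∈ E) x p) →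
      x ∈ N ∧ Lin (fun a b => (a, b) ∈ E) x p := by
    intro p
    by_cases hp : ∃ x ∈ N, Lin (fun a b => (a, b) ∈ E) x p
    · obtain ⟨x, hx⟩ := hp
      exact ⟨x, fun _ => hx⟩
    · exact ⟨p.1, fun e => absurd e hp⟩
  choose f hf using hch
  refine card_le_card_of_injOn f ?_ ?_
  · intro p hp
    exact (hf p (mem_filter.1 hp).2).1
  · intro p hp q hq e
    have h1 := (hf p (mem_filter.1 hp).2).2
    have h2 := (hf q (mem_filter.1 hq).2).2
    rw [e] at h1
    exact Prod.ext ((h2.1 _).1 ((h1.1 _).2 rfl)) ((h2.2 _).1 ((h1.2 _).2 rfl))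

/-- all arc sets with a given core -/
noncomputable def fam (s : V) (N R C : Finset V) (E : Finset (V × V)) : Finset (Finset (V × V)) :=
  (Fintype.piFinset fun x => if x ∈ N then {(s, s)} else pairs N R C E).image fun f =>
    E ∪ (Nᶜ.image fun x => ((f x).1, x)) ∪ (Nᶜ.image fun x => (x, (f x).2))

theorem card_fam (s : V) (N R C : Finset V) (E : Finset (V × V)) :
    (fam s N R C E).card ≤ (R.card * C.card + N.card) ^ (Fintype.card V - N.card) := by
  refine card_image_le.trans ?_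
  rw [Fintype.card_piFinset, ← prod_mul_prod_compl N]
  rw [prod_congr rfl (g := fun _ => 1) (fun x hx => by simp [hx]), prod_const_one, one_mul,
    prod_congr rfl (g := fun _ => (pairs N R C E).card)
      (fun x hx => by simp [mem_compl.1 hx]), prod_const, card_compl]
  exact Nat.pow_le_pow_left (card_pairs N R C E) _

theorem mem_fam (s : V) {N R C : Finset V}
    (h : ∀ x ∉ N, ∃ p : V × V, p.1 ∈ N ∧ p.2 ∈ N ∧ Lin D x p ∧
      (p ∈ R ×ˢ C ∨ ∃ x' ∈ N, Lin D x' p)) :
    arcs D ∈ fam s N R C (arcs D ∩ N ×ˢ N) := by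
  have hch : ∀ x, ∃ p : V × V, (x ∈ N → p = (s, s)) ∧ (x ∉ N → p.1 ∈ N ∧ p.2 ∈ N ∧ Lin D x p ∧
      (p ∈ R ×ˢ C ∨ ∃ x' ∈ N, Lin D x' p)) := by
    intro x
    by_cases hx : x ∈ N
    · exact ⟨(s, s), fun _ => rfl, fun e => absurd hx e⟩
    · obtain ⟨p, hp⟩ := h x hx
      exact ⟨p, fun e => absurd e hx, fun _ => hp⟩
  choose f hf1 hf2 using hch
  refine mem_image.2 ⟨f, Fintype.mem_piFinset.2 fun x => ?_, ?_⟩
  · by_cases hx : x ∈ N
    · simp [hx, hf1 x hx]
    · rw [if_neg hx]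
      obtain ⟨b1, b2, -, b4 | ⟨x', c1, c2⟩⟩ := hf2 x hx
      · exact mem_union_left _ b4
      · refine mem_union_right _ (mem_filter.2 ⟨mem_univ _, x', c1, fun a => ?_, fun a => ?_⟩)
        · simp only [arcs, mem_inter, mem_filter, mem_univ, true_and, mem_product, c2.1 a]
          exact ⟨fun e => e.1, fun e => ⟨e, e ▸ b1, c1⟩⟩
        · simp only [arcs, mem_inter, mem_filter, mem_univ, true_and, mem_product, c2.2 a]
          exact ⟨fun e => e.1, fun e => ⟨e, c1, e ▸ b2⟩⟩
  · ext ⟨a, b⟩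
    simp only [arcs, mem_union, mem_inter, mem_filter, mem_univ, true_and, mem_product,
      mem_image, mem_compl, Prod.mk.injEq]
    constructor
    · rintro ((r | ⟨x, hx, rfl, rfl⟩) | ⟨x, hx, rfl, rfl⟩)
      · exact r.1
      · exact ((hf2 x hx).2.2.1.1 _).2 rfl
      · exact ((hf2 x hx).2.2.1.2 _).2 rfl
    · intro hab
      by_cases ha : a ∈ N
      · by_cases hb : b ∈ N
        · exact Or.inl (Or.inl ⟨hab, ha, hb⟩)
        · exact Or.inl (Or.inr ⟨b, hb, (((hf2 b hb).2.2.1.1 _).1 hab).symm, rfl⟩)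
      · exact Or.inr ⟨a, ha, rfl, (((hf2 a ha).2.2.1.2 _).1 hab).symm⟩

end Pool.Agent.Work.MP_5391ad_co
end

-- merged part: Pool.Agent.Work.MP_5391ad_co.Upper
section
/-! The counting upper bound. -/

namespace Pool.Agent.Work.MP_5391ad_co

open Finset
open scoped Classical

/-- good arc sets -/
noncomputable def goods (n : ℕ) : Finset (Finset (Fin n × Fin n)) :=
  univ.filter fun E => Good fun a b => (a, b) ∈ E

/-- arc sets with prescribed deficiency and core size -/
noncomputable def piece {n : ℕ} (s : Fin n) (k d v : ℕ) : Finset (Finset (Fin n × Fin n)) :=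
  (powersetCard v univ).biUnion fun N => (powerset N).biUnion fun R =>
    ((powerset N).filter fun C => k * (R.card + C.card) ≤ (k + 3) * d).biUnion fun C =>
      ((range (2 * v - d + 1)).biUnion fun j => powersetCard j (N ×ˢ N)).biUnion fun E =>
        fam s N R C E

theorem card_piece {n : ℕ} (s : Fin n) {k : ℕ} (hk : 0 < k) (d v : ℕ) :
    (piece s k d v).card ≤ n.choose v * (2 ^ v * (2 ^ v *
      ((∑ j ∈ range (2 * v - d + 1), (v * v).choose j) *
        (min (n ^ 2) (((k + 3) * d) ^ 2 / (4 * k ^ 2)) + v) ^ (n - v)))) := by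
  refine (card_biUnion_le_card_mul _ _ _ fun N hN => ?_).trans
    (by rw [card_powersetCard, card_univ, Fintype.card_fin])
  have hv : N.card = v := (mem_powersetCard.1 hN).2
  refine (card_biUnion_le_card_mul _ _ _ fun R hR => ?_).trans (by rw [card_powerset, hv])
  refine (card_biUnion_le_card_mul _ _ _ fun C hC => ?_).trans
    (Nat.mul_le_mul_right _ ((card_filter_le _ _).trans (by rw [card_powerset, hv])))
  refine (card_biUnion_le_card_mul _ _ _ fun E _ => ?_).trans
    (Nat.mul_le_mul_right _ (card_biUnion_le.trans (le_of_eq ?_)))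
  · refine (card_fam s N R C E).trans ?_
    rw [Fintype.card_fin, hv]
    refine Nat.pow_le_pow_left (Nat.add_le_add_right (le_min ?_ ?_) _) _
    · have h1 : R.card ≤ n := by simpa using card_le_univ R
      have h2 : C.card ≤ n := by simpa using card_le_univ C
      rw [sq]; exact Nat.mul_le_mul h1 h2
    · have h := (mem_filter.1 hC).2
      rw [Nat.le_div_iff_mul_le (by positivity)]
      have h2 := Nat.pow_le_pow_left h 2
      have h3 : 4 * (R.card * C.card) ≤ (R.card + C.card) ^ 2 := by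
        clear * - n R C
        zify; linarith only [sq_nonneg ((R.card : ℤ) - C.card), sq_nonneg (↑(#R) - ↑(#C))]
      have h4 := Nat.mul_le_mul_left (k ^ 2) h3
      clear * - n R C k d h2 h4
      linarith only [h2, h4]
  · refine sum_congr rfl fun j _ => ?_
    rw [card_powersetCard, card_product, hv]

theorem goods_subset {n : ℕ} (s : Fin n) (k : ℕ) : goods n ⊆
    (((range (2 * n + 1)) ×ˢ (range (n + 1))).filter fun p : ℕ × ℕ =>
      p.1 ≤ 2 * p.2 ∧ p.2 ≤ (2 * k + 6) * p.1 + 4).biUnion fun p => piece s k p.1 p.2 := by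
  intro E hE
  obtain ⟨N, R, C, d, a1, a2, a3, a4, a5, a6⟩ := (mem_filter.1 hE).2.core s k
  have hN : N.card ≤ n := by simpa using card_le_univ N
  have e : arcs (fun a b => (a, b) ∈ E) = E := by ext p; simp [arcs]
  have hm := mem_fam s a6
  rw [e] at hm a5
  obtain ⟨E', f1, a5, hm⟩ : ∃ E' ⊆ N ×ˢ N, E'.card + d ≤ 2 * N.card ∧ E ∈ fam s N R C E' :=
    ⟨_, fun x hx => by simpa using (show x ∈ E ∧ x.1 ∈ N ∧ x.2 ∈ N by simpa using hx).2, a5, hm⟩
  refine mem_biUnion.2 ⟨(d, N.card), ?_, ?_⟩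
  · simp only [mem_filter, mem_product, mem_range]
    omega
  · refine mem_biUnion.2 ⟨N, mem_powersetCard.2 ⟨subset_univ _, rfl⟩, mem_biUnion.2
      ⟨R, mem_powerset.2 a1, mem_biUnion.2 ⟨C, mem_filter.2 ⟨mem_powerset.2 a2, a3⟩,
      mem_biUnion.2 ⟨_, mem_biUnion.2 ⟨E'.card, ?_,
      mem_powersetCard.2 ⟨f1, rfl⟩⟩, hm⟩⟩⟩⟩
    simp only [mem_range]
    omega

theorem sum_choose_le {n v m : ℕ} (hn : 1 ≤ n) (hv : v ≤ n) :
    ((∑ j ∈ range (m + 1), (v * v).choose j : ℕ) : ℝ) ≤ (m + 1) * ((n : ℝ) ^ m * Real.exp v) := by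
  push_cast
  have : ∀ j ∈ range (m + 1), (((v * v).choose j : ℕ) : ℝ) ≤ (n : ℝ) ^ m * Real.exp v := by
    intro j hj
    have h1 : (((v * v).choose j : ℕ) : ℝ) ≤ ((v * v : ℕ) : ℝ) ^ j / (j.factorial : ℝ) := by
      have := Nat.choose_le_pow_div (α := ℝ) j (v * v)
      simpa using this
    have h2 := Real.pow_div_factorial_le_exp (v : ℝ) (Nat.cast_nonneg v) j
    have h3 : (v : ℝ) ^ j ≤ (n : ℝ) ^ m :=
      (pow_le_pow_left₀ (Nat.cast_nonneg v) (by exact_mod_cast hv) j).trans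
        (pow_le_pow_right₀ (by exact_mod_cast hn) (by simpa [Nat.lt_succ_iff] using hj))
    refine h1.trans ?_
    push_cast
    rw [mul_pow, mul_div_assoc]
    gcongr
  refine (sum_le_card_nsmul _ _ _ this).trans (le_of_eq ?_)
  simp

theorem card_goods_le {n k : ℕ} (hn : 1 ≤ n) (hk : 0 < k) {T : ℝ} (hT0 : 0 ≤ T)
    (hT : ∀ d v P : ℕ, v ≤ n → d ≤ 2 * v → v ≤ (2 * k + 6) * d + 4 → P ≤ n ^ 2 →
      P * (4 * k ^ 2) ≤ ((k + 3) * d) ^ 2 →
      (n.choose v : ℝ) * 4 ^ v * ((n : ℝ) ^ (2 * v - d) * Real.exp v) *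
        ((P : ℝ) + v) ^ (n - v) ≤ T) :
    ((goods n).card : ℝ) ≤ (2 * n + 1) ^ 3 * T := by
  have h1 := (card_le_card (goods_subset (⟨0, hn⟩ : Fin n) k)).trans card_biUnion_le
  have h2 : ((goods n).card : ℝ) ≤ ∑ p ∈ (((range (2 * n + 1)) ×ˢ (range (n + 1))).filter
      fun p : ℕ × ℕ => p.1 ≤ 2 * p.2 ∧ p.2 ≤ (2 * k + 6) * p.1 + 4),
      ((piece (⟨0, hn⟩ : Fin n) k p.1 p.2).card : ℝ) := by exact_mod_cast h1
  refine h2.trans ((sum_le_card_nsmul _ _ ((2 * n + 1) * T) ?_).trans ?_)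
  · rintro ⟨d, v⟩ hp
    simp only [mem_filter, mem_product, mem_range] at hp
    obtain ⟨⟨b1, b2⟩, b3, b4⟩ := hp
    have c1 : ((piece (⟨0, hn⟩ : Fin n) k d v).card : ℝ) ≤ _ :=
      Nat.cast_le.2 (card_piece (⟨0, hn⟩ : Fin n) hk d v)
    have c2 := hT d v (min (n ^ 2) (((k + 3) * d) ^ 2 / (4 * k ^ 2))) (by omega) b3 b4
      (min_le_left _ _) ((Nat.mul_le_mul_right _ (min_le_right _ _)).trans
        (Nat.div_mul_le_self _ _))
    have c3 := sum_choose_le (n := n) (v := v) (m := 2 * v - d) hn (by omega)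
    have c4 : ((2 * v - d : ℕ) : ℝ) + 1 ≤ 2 * n + 1 := by
      have : 2 * v - d ≤ 2 * n := by omega
      exact_mod_cast Nat.succ_le_succ this
    refine c1.trans ?_
    generalize min (n ^ 2) (((k + 3) * d) ^ 2 / (4 * k ^ 2)) = P at c2 ⊢
    generalize (∑ j ∈ range (2 * v - d + 1), (v * v).choose j) = W at c3 ⊢
    push_cast
    calc (n.choose v : ℝ) * (2 ^ v * (2 ^ v * ((W : ℝ) * ((P : ℝ) + v) ^ (n - v))))
        ≤ (n.choose v : ℝ) * (2 ^ v * (2 ^ v * (((2 * n + 1) *
          ((n : ℝ) ^ (2 * v - d) * Real.exp v)) * ((P : ℝ) + v) ^ (n - v)))) := by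
          clear * - n v W P d c3 c4 hn
          gcongr
          refine c3.trans ?_
          gcongr
      _ = (2 * n + 1) * ((n.choose v : ℝ) * 4 ^ v * ((n : ℝ) ^ (2 * v - d) * Real.exp v) *
          ((P : ℝ) + v) ^ (n - v)) := by
          rw [show (4 : ℝ) = 2 * 2 by norm_num, mul_pow]; ring
      _ ≤ _ := by gcongr
  · rw [nsmul_eq_mul]
    have : ((((range (2 * n + 1)) ×ˢ (range (n + 1))).filter
        fun p : ℕ × ℕ => p.1 ≤ 2 * p.2 ∧ p.2 ≤ (2 * k + 6) * p.1 + 4).card : ℝ) ≤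
        (2 * n + 1) * (2 * n + 1) := by
      have := card_filter_le ((range (2 * n + 1)) ×ˢ (range (n + 1)))
        fun p : ℕ × ℕ => p.1 ≤ 2 * p.2 ∧ p.2 ≤ (2 * k + 6) * p.1 + 4
      rw [card_product, card_range, card_range] at this
      have h3 : (2 * n + 1) * (n + 1) ≤ (2 * n + 1) * (2 * n + 1) := by gcongr; omega
      exact_mod_cast this.trans h3
    calc _ ≤ ((2 * n + 1) * (2 * n + 1)) * ((2 * n + 1) * T) := by gcongr
      _ = _ := by ring

theorem partly_perm {n : ℕ} {A : Fin n → Fin n → Bool} (π : Equiv.Perm (Fin n))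
    (h : PartlyDecomposable fun i j => A (π i) j) : PartlyDecomposable A := by
  obtain ⟨R, C, h1, h2, h3, h4⟩ := h
  refine ⟨R.map π.toEmbedding, C, by simpa using h1, h2, by simpa using h3, ?_⟩
  intro i hi j hj
  obtain ⟨i', hi', rfl⟩ := mem_map.1 hi
  exact h4 i' hi' j hj

theorem partly_perm_iff {n : ℕ} {A : Fin n → Fin n → Bool} (π : Equiv.Perm (Fin n)) :
    (PartlyDecomposable fun i j => A (π i) j) ↔ PartlyDecomposable A :=
  ⟨partly_perm π, fun h => partly_perm π.symm (by simpa using h)⟩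

theorem nearly_iff {n : ℕ} (hn : 2 ≤ n) {A : Fin n → Fin n → Bool} : NearlyDecomposable A ↔
    ¬ PartlyDecomposable A ∧ ∀ i j, A i j = true →
      PartlyDecomposable (fun a b => if a = i ∧ b = j then false else A a b) := by
  have : n ≠ 1 := by omega
  simp [NearlyDecomposable, FullyIndecomposable, this]

theorem nearly_perm {n : ℕ} (hn : 2 ≤ n) {A : Fin n → Fin n → Bool} (π : Equiv.Perm (Fin n))
    (h : NearlyDecomposable A) : NearlyDecomposable fun i j => A (π i) j := by
  rw [nearly_iff hn] at h ⊢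
  refine ⟨fun e => h.1 (partly_perm π e), fun i j hij => ?_⟩
  have := (partly_perm_iff π).2 (h.2 (π i) j hij)
  simpa using this

theorem exists_diag {n : ℕ} (hn : 2 ≤ n) {A : Fin n → Fin n → Bool}
    (h : ¬ PartlyDecomposable A) : ∃ π : Equiv.Perm (Fin n), ∀ j, A (π j) j = true := by
  have key : ∀ S : Finset (Fin n),
      S.card ≤ (S.biUnion fun j => univ.filter fun i => A i j = true).card := by
    intro S
    by_contra hlt
    push Not at hlt
    set T := S.biUnion fun j => univ.filter fun i => A i j = true with hT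
    have hS : S.card ≤ n := by simpa using card_le_univ S
    have hc : Tᶜ.card = n - T.card := by rw [card_compl, Fintype.card_fin]
    obtain ⟨R, hR, hR'⟩ := exists_subset_card_eq (s := Tᶜ) (n := max 1 (n - S.card)) (by omega)
    obtain ⟨C, hC, hC'⟩ := exists_subset_card_eq (s := S) (n := n - max 1 (n - S.card)) (by omega)
    refine h ⟨R, C, card_pos.1 (by omega), card_pos.1 (by omega), by omega, fun i hi j hj => ?_⟩
    by_contra e
    exact mem_compl.1 (hR hi) (mem_biUnion.2 ⟨j, hC hj, by simpa using e⟩)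
  obtain ⟨f, hf, hf'⟩ := (all_card_le_biUnion_card_iff_exists_injective _).1 key
  exact ⟨Equiv.ofBijective f hf.bijective_of_finite, fun j => by simpa using hf' j⟩

theorem good_of_nearly {n : ℕ} (hn : 2 ≤ n) {A : Fin n → Fin n → Bool} (h : NearlyDecomposable A)
    (hd : ∀ j, A j j = true) : Good fun a b => a ≠ b ∧ A a b = true := by
  rw [nearly_iff hn] at h
  refine ⟨fun a e => e.1 rfl, ?_, ?_, ?_⟩
  · intro S h1 h2
    by_contra hc
    push Not at hc
    refine h.1 ⟨S.toFinsetᶜ, S.toFinset, ?_, by simpa using h1, ?_, fun i hi j hj => ?_⟩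
    · obtain ⟨x, hx⟩ := h2
      exact ⟨x, by simpa using hx⟩
    · rw [add_comm, card_add_card_compl, Fintype.card_fin]
    · have hi' : i ∉ S := by simpa using hi
      have hj' : j ∈ S := by simpa using hj
      simpa using hc i j hi' hj' (fun e => hi' (e ▸ hj'))
  · rintro u v ⟨hne, huv⟩
    obtain ⟨R, C, h1, h2, h3, h4'⟩ := h.2 u v huv
    have h4 : ∀ i ∈ R, ∀ j ∈ C, ¬ (i = u ∧ j = v) → A i j = false := fun i hi j hj e => by
      have := h4' i hi j hj
      simp only [if_neg e] at this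
      exact this
    have hdis : Disjoint R C := by
      refine disjoint_left.2 fun x hx hx' => ?_
      have := h4 x hx x hx' (fun e => hne (e.1.symm.trans e.2))
      rw [hd] at this
      exact absurd this (by simp)
    have hu : R ∪ C = univ := eq_univ_of_card _ (by
      rw [card_union_of_disjoint hdis, h3, Fintype.card_fin])
    have hmem : u ∈ R ∧ v ∈ C := by
      by_contra e
      refine h.1 ⟨R, C, h1, h2, h3, fun i hi j hj => ?_⟩
      exact h4 i hi j hj (fun r => e ⟨r.1 ▸ hi, r.2 ▸ hj⟩)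
    refine ⟨C, hmem.2, disjoint_left.1 hdis hmem.1, fun a b ha hb hab => ?_⟩
    have haR : a ∈ R := (mem_union.1 (hu ▸ mem_univ a)).resolve_right ha
    by_contra e
    have := h4 a haR b hb e
    rw [hab.2] at this
    exact absurd this (by simp)
  · intro v
    obtain ⟨R, C, h1, h2, h3, h4'⟩ := h.2 v v (hd v)
    have h4 : ∀ i ∈ R, ∀ j ∈ C, ¬ (i = v ∧ j = v) → A i j = false := fun i hi j hj e => by
      have := h4' i hi j hj
      simp only [if_neg e] at this
      exact this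
    have hmem : v ∈ R ∧ v ∈ C := by
      by_contra e
      refine h.1 ⟨R, C, h1, h2, h3, fun i hi j hj => ?_⟩
      exact h4 i hi j hj (fun r => e ⟨r.1 ▸ hi, r.2 ▸ hj⟩)
    have hi : R ∩ C = {v} := by
      ext x
      simp only [mem_inter, mem_singleton]
      refine ⟨fun hx => ?_, fun e => e ▸ hmem⟩
      by_contra e
      have := h4 x hx.1 x hx.2 (fun r => e r.1)
      rw [hd] at this
      exact absurd this (by simp)
    have hc := card_union_add_card_inter R C
    rw [hi, card_singleton] at hc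
    have hc2 : (R ∪ C)ᶜ.card = 1 := by rw [card_compl, Fintype.card_fin]; omega
    obtain ⟨z, hz⟩ := card_eq_one.1 hc2
    have hz' : z ∉ R ∪ C := mem_compl.1 (hz ▸ mem_singleton_self z)
    refine ⟨R, C, z, hmem.1, hmem.2, fun e => hz' (mem_union_left _ e),
      fun e => hz' (mem_union_right _ e), fun x => ?_, fun a b ha hb hab => ?_⟩
    · by_cases e : x ∈ R ∪ C
      · rcases mem_union.1 e with e | e
        · exact Or.inl e
        · exact Or.inr (Or.inl e)
      · exact Or.inr (Or.inr (mem_singleton.1 (hz ▸ mem_compl.2 e)))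
    · have := h4 a ha b hb (fun r => hab.1 (r.1.trans r.2.symm))
      rw [hab.2] at this
      exact absurd this (by simp)

theorem numND_eq (n : ℕ) :
    numND n = (univ.filter fun A : Fin n → Fin n → Bool => NearlyDecomposable A).card := by
  rw [numND, Nat.card_eq_fintype_card, Fintype.card_subtype]

theorem numND_le {n : ℕ} (hn : 2 ≤ n) : numND n ≤ n.factorial * (goods n).card := by
  rw [numND_eq]
  have : (univ.filter fun A : Fin n → Fin n → Bool => NearlyDecomposable A) ⊆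
      ((univ : Finset (Equiv.Perm (Fin n))) ×ˢ goods n).image fun p i j =>
        decide (p.1.symm i = j ∨ (p.1.symm i, j) ∈ p.2) := by
    intro A hA
    have hA' := (mem_filter.1 hA).2
    obtain ⟨π, hπ⟩ := exists_diag hn ((nearly_iff hn).1 hA').1
    have hg := good_of_nearly hn (nearly_perm hn π hA') hπ
    refine mem_image.2 ⟨(π, univ.filter fun q : Fin n × Fin n =>
      q.1 ≠ q.2 ∧ A (π q.1) q.2 = true), mem_product.2 ⟨mem_univ _, ?_⟩, ?_⟩
    · refine mem_filter.2 ⟨mem_univ _, ?_⟩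
      simpa using hg
    · funext i j
      by_cases e : π.symm i = j
      · have := hπ j
        rw [← e, Equiv.apply_symm_apply] at this
        simp [e ▸ this, e]
      · simp [e]
  refine (card_le_card this).trans (card_image_le.trans (le_of_eq ?_))
  rw [card_product, card_univ, Fintype.card_perm, Fintype.card_fin]

end Pool.Agent.Work.MP_5391ad_co
end

-- merged part: Pool.Agent.Work.MP_5391ad_co.Lower
section
/-! The lower bound construction. -/

namespace Pool.Agent.Work.MP_5391ad_co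

open Finset
open scoped Classical

variable {n t : ℕ}

/-- the support of the matrix attached to two parent functions -/
def base (t : ℕ) (p q : Fin n → Fin n) (a b : Fin n) : Prop :=
  a = b ∨ (0 < b.1 ∧ b.1 + t < n ∧ a = p b) ∨ (t ≤ a.1 ∧ a.1 + 1 < n ∧ b = q a) ∨
    (a.1 + 1 = n ∧ b.1 = 0) ∨
    (a.1 < t ∧ b.1 + 1 = n ∧ ∀ k : Fin n, 0 < k.1 → k.1 + t < n → p k ≠ a) ∨
    (n ≤ b.1 + t ∧ a.1 = 0 ∧ ∀ k : Fin n, t ≤ k.1 → k.1 + 1 < n → q k ≠ b)

/-- admissible parameters -/
structure Adm (t : ℕ) (p q : Fin n → Fin n) : Prop where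
  t2 : 2 ≤ t
  tn : 2 * t ≤ n
  hp : ∀ k : Fin n, 0 < k.1 → k.1 + t < n → (p k).1 < t ∧ (p k).1 < k.1
  hq : ∀ k : Fin n, t ≤ k.1 → k.1 + 1 < n → n ≤ (q k).1 + t ∧ k.1 < (q k).1

variable {p q : Fin n → Fin n}

theorem Adm.child (h : Adm t p q) {a : Fin n} (ha : a.1 = 0) :
    ¬ ∀ k : Fin n, 0 < k.1 → k.1 + t < n → p k ≠ a := by
  intro e
  have := h.t2
  have := h.tn
  have h1 := h.hp ⟨1, by omega⟩ (by simp) (by simp; omega)
  exact e ⟨1, by omega⟩ (by simp) (by simp; omega) (Fin.ext (by simp at h1; omega))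

theorem Adm.parent (h : Adm t p q) {b : Fin n} (hb : b.1 + 1 = n) :
    ¬ ∀ k : Fin n, t ≤ k.1 → k.1 + 1 < n → q k ≠ b := by
  intro e
  have := h.t2
  have := h.tn
  have h1 := h.hq ⟨n - 2, by omega⟩ (by simp; omega) (by simp; omega)
  have h2 := (q ⟨n - 2, by omega⟩).2
  exact e ⟨n - 2, by omega⟩ (by simp; omega) (by simp; omega) (Fin.ext (by simp at h1; omega))

theorem Adm.col (h : Adm t p q) {a b : Fin n} (h0 : 0 < b.1) (h1 : b.1 + t < n)
    (hab : base t p q a b) : a = b ∨ a = p b := by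
  have := h.t2
  rcases hab with e | e | e | e | e | e
  · exact Or.inl e
  · exact Or.inr e.2.2
  · have := h.hq a e.1 e.2.1
    rw [← e.2.2] at this
    omega
  all_goals omega

theorem Adm.col0 (h : Adm t p q) {a b : Fin n} (h0 : b.1 = 0)
    (hab : base t p q a b) : a = b ∨ a.1 + 1 = n := by
  have := h.t2
  have := h.tn
  rcases hab with e | e | e | e | e | e
  · exact Or.inl e
  · omega
  · have := h.hq a e.1 e.2.1
    rw [← e.2.2] at this
    omega
  all_goals omega

theorem Adm.row (h : Adm t p q) {a b : Fin n} (h0 : t ≤ a.1) (h1 : a.1 + 1 < n)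
    (hab : base t p q a b) : b = a ∨ b = q a := by
  have := h.t2
  rcases hab with e | e | e | e | e | e
  · exact Or.inl e.symm
  · have := h.hp b e.1 e.2.1
    rw [← e.2.2] at this
    omega
  · exact Or.inr e.2.2
  all_goals omega

theorem Adm.rowl (h : Adm t p q) {a b : Fin n} (h0 : a.1 + 1 = n)
    (hab : base t p q a b) : b = a ∨ b.1 = 0 := by
  have := h.t2
  have := h.tn
  rcases hab with e | e | e | e | e | e
  · exact Or.inl e.symm
  · have := h.hp b e.1 e.2.1
    rw [← e.2.2] at this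
    omega
  all_goals omega

theorem Adm.lt (h : Adm t p q) {a b : Fin n} (hab : base t p q a b) (hlt : b.1 < a.1) :
    a.1 + 1 = n ∧ b.1 = 0 := by
  have := h.t2
  have := h.tn
  have := a.2
  rcases hab with e | e | e | e | e | e
  · rw [e] at hlt; omega
  · have := h.hp b e.1 e.2.1
    rw [← e.2.2] at this
    omega
  · have := h.hq a e.1 e.2.1
    rw [← e.2.2] at this
    omega
  all_goals omega

theorem Adm.not_corner (h : Adm t p q) {a b : Fin n} (ha : a.1 = 0) (hb : b.1 + 1 = n) :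
    ¬ base t p q a b := by
  have := h.t2
  have := h.tn
  rintro (e | e | e | e | e | e)
  · rw [e] at ha; omega
  · omega
  · omega
  · omega
  · exact h.child ha e.2.2
  · exact h.parent hb e.2.2

theorem partly_row (hn : 2 ≤ n) {A : Fin n → Fin n → Bool} {a b : Fin n} (b' : Fin n)
    (h : ∀ c, A a c = true → c = b ∨ c = b') :
    PartlyDecomposable fun x y => if x = a ∧ y = b then false else A x y := by
  have hc : (univ.erase b').card = n - 1 := by simp
  refine ⟨{a}, univ.erase b', singleton_nonempty a, card_pos.1 (by omega), by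
    rw [hc, card_singleton]; omega, fun i hi j hj => ?_⟩
  obtain rfl := mem_singleton.1 hi
  by_cases e : j = b
  · simp [e]
  · simp only [e, and_false, if_false]
    by_contra e'
    rcases h j (by simpa using e') with r | r
    · exact e r
    · exact (mem_erase.1 hj).1 r

theorem partly_col (hn : 2 ≤ n) {A : Fin n → Fin n → Bool} {a b : Fin n} (a' : Fin n)
    (h : ∀ c, A c b = true → c = a ∨ c = a') :
    PartlyDecomposable fun x y => if x = a ∧ y = b then false else A x y := by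
  have hc : (univ.erase a').card = n - 1 := by simp
  refine ⟨univ.erase a', {b}, card_pos.1 (by omega), singleton_nonempty b, by
    rw [hc, card_singleton]; omega, fun i hi j hj => ?_⟩
  obtain rfl := mem_singleton.1 hj
  by_cases e : i = a
  · simp [e]
  · simp only [e, false_and, if_false]
    by_contra e'
    rcases h i (by simpa using e') with r | r
    · exact e r
    · exact (mem_erase.1 hi).1 r

theorem Adm.closed (h : Adm t p q) {R : Finset (Fin n)} (hR : R.Nonempty)
    (hc : ∀ a ∈ R, ∀ b, base t p q a b → b ∈ R) (x : Fin n) : x ∈ R := by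
  have := h.t2
  have := h.tn
  have hl : (R.max' hR).1 + 1 = n := by
    by_contra e
    have h1 := (R.max' hR).2
    have key : ∀ b, base t p q (R.max' hR) b → b.1 ≤ (R.max' hR).1 :=
      fun b hb => R.le_max' b (hc _ (R.max'_mem hR) b hb)
    by_cases e1 : t ≤ (R.max' hR).1
    · have := key _ (Or.inr (Or.inr (Or.inl ⟨e1, by omega, rfl⟩)))
      have := h.hq _ e1 (by omega)
      omega
    · by_cases e2 : ∀ k : Fin n, 0 < k.1 → k.1 + t < n → p k ≠ R.max' hR
      · have := key ⟨n - 1, by omega⟩ (Or.inr (Or.inr (Or.inr (Or.inr (Or.inl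
          ⟨by omega, by simp; omega, e2⟩)))))
        simp only at this
        omega
      · push Not at e2
        obtain ⟨k, k1, k2, k3⟩ := e2
        have := key k (Or.inr (Or.inl ⟨k1, k2, k3.symm⟩))
        have := h.hp k k1 k2
        rw [k3] at this
        omega
  have h0 : (⟨0, by omega⟩ : Fin n) ∈ R :=
    hc _ (R.max'_mem hR) _ (Or.inr (Or.inr (Or.inr (Or.inl ⟨hl, rfl⟩))))
  have : ∀ m : ℕ, ∀ x : Fin n, x.1 = m → x ∈ R := by
    intro m
    induction m using Nat.strong_induction_on with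
    | _ m ih =>
      intro x hx
      by_cases e0 : x.1 = 0
      · rwa [show x = ⟨0, by omega⟩ from Fin.ext e0]
      by_cases e1 : x.1 + t < n
      · have := h.hp x (by omega) e1
        exact hc _ (ih _ (by omega) (p x) rfl) _ (Or.inr (Or.inl ⟨by omega, e1, rfl⟩))
      by_cases e2 : ∀ k : Fin n, t ≤ k.1 → k.1 + 1 < n → q k ≠ x
      · exact hc _ h0 _ (Or.inr (Or.inr (Or.inr (Or.inr (Or.inr ⟨by omega, rfl, e2⟩)))))
      · push Not at e2
        obtain ⟨k, k1, k2, k3⟩ := e2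
        have := h.hq k k1 k2
        rw [k3] at this
        exact hc _ (ih _ (by omega) k rfl) _ (Or.inr (Or.inr (Or.inl ⟨k1, k2, k3.symm⟩)))
  exact this _ x rfl

theorem Adm.nearly (h : Adm t p q) : NearlyDecomposable fun a b => decide (base t p q a b) := by
  have := h.t2
  have := h.tn
  have hn : 2 ≤ n := by omega
  rw [nearly_iff hn]
  constructor
  · rintro ⟨R, C, h1, h2, h3, h4⟩
    have hdis : Disjoint R C := by
      clear * - n R C t p q h4 this
      refine disjoint_left.2 fun x hx hx' => ?_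
      have := h4 x hx x hx'
      simp [base] at this
    have hu : R ∪ C = univ := eq_univ_of_card _ (by
      rw [card_union_of_disjoint hdis, h3, Fintype.card_fin])
    obtain ⟨y, hy⟩ := h2
    refine disjoint_left.1 hdis (h.closed h1 (fun a ha b hab => ?_) y) hy
    refine (mem_union.1 (hu ▸ mem_univ b)).resolve_right fun e => ?_
    have := h4 a ha b e
    simp [hab] at this
  · intro a b hab
    have hab' : base t p q a b := by simpa using hab
    have ha := a.2
    have hb := b.2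
    rcases hab' with e | e | e | e | e | e
    · subst e
      by_cases e0 : a.1 = 0
      · refine partly_col hn ⟨n - 1, by omega⟩ fun c hc => ?_
        rcases h.col0 e0 (by simpa using hc) with r | r
        · exact Or.inl r
        · exact Or.inr (Fin.ext (by simp; omega))
      by_cases e1 : a.1 + t < n
      · exact partly_col hn (p a) fun c hc => h.col (by omega) e1 (by simpa using hc)
      by_cases e2 : a.1 + 1 < n
      · exact partly_row hn (q a) fun c hc => h.row (by omega) e2 (by simpa using hc)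
      · refine partly_row hn ⟨0, by omega⟩ fun c hc => ?_
        rcases h.rowl (a := a) (by omega) (by simpa using hc) with r | r
        · exact Or.inl r
        · exact Or.inr (Fin.ext r)
    · refine partly_col hn b fun c hc => ?_
      rw [e.2.2]
      exact (h.col e.1 e.2.1 (by simpa using hc)).symm
    · refine partly_row hn a fun c hc => ?_
      rw [e.2.2]
      exact (h.row e.1 e.2.1 (by simpa using hc)).symm
    · refine partly_row hn a fun c hc => ?_
      rcases h.rowl e.1 (by simpa using hc) with r | r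
      · exact Or.inr r
      · exact Or.inl (Fin.ext (by omega))
    · refine partly_row hn a fun c hc => ?_
      have hc' : base t p q a c := by simpa using hc
      rcases hc' with r | r | r | r | r | r
      · exact Or.inr r.symm
      · exact absurd r.2.2.symm (e.2.2 c r.1 r.2.1)
      · omega
      · omega
      · exact Or.inl (Fin.ext (by omega))
      · exact absurd e.2.2 (h.child r.2.1)
    · refine partly_col hn b fun c hc => ?_
      have hc' : base t p q c b := by simpa using hc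
      rcases hc' with r | r | r | r | r | r
      · exact Or.inr r
      · omega
      · exact absurd r.2.2.symm (e.2.2 c r.1 r.2.1)
      · omega
      · exact absurd e.2.2 (h.parent r.2.1)
      · exact Or.inl (Fin.ext (by omega))

theorem Adm.row_inj {p' q' : Fin n → Fin n} (h : Adm t p q) (h' : Adm t p' q') {a a' : Fin n}
    (e : ∀ b, base t p q a b ↔ base t p' q' a' b) : a = a' := by
  rcases lt_trichotomy a.1 a'.1 with r | r | r
  · have := h'.lt ((e a).1 (Or.inl rfl)) r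
    exact absurd ((e a').2 (Or.inl rfl)) (h.not_corner this.2 this.1)
  · exact Fin.ext r
  · have := h.lt ((e a').2 (Or.inl rfl)) r
    exact absurd ((e a).1 (Or.inl rfl)) (h'.not_corner this.2 this.1)

/-- allowed values of the first parent function -/
noncomputable def alp (t : ℕ) (k : Fin n) : Finset (Fin n) :=
  if 0 < k.1 ∧ k.1 + t < n then univ.filter fun i => i.1 < t ∧ i.1 < k.1 else {k}

/-- allowed values of the second parent function -/
noncomputable def alq (t : ℕ) (k : Fin n) : Finset (Fin n) :=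
  if t ≤ k.1 ∧ k.1 + 1 < n then univ.filter fun i => n ≤ i.1 + t ∧ k.1 < i.1 else {k}

/-- number of allowed values -/
def gg (n t k : ℕ) : ℕ := if 0 < k ∧ k + t < n then min t k else 1

theorem card_alp (k : Fin n) : (alp t k).card = gg n t k := by
  unfold alp gg
  split_ifs with e
  · have := k.2
    have h := Fin.card_filter_val_lt (n := n) (m := min t k.1)
    rw [min_eq_right (show min t k.1 ≤ n by omega)] at h
    rw [← h]
    congr 1
    ext i
    simp
  · simp

theorem card_alq (k : Fin n) : (alq t k).card = gg n t k.rev := by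
  rw [← card_alp]
  have hk := k.2
  unfold alp alq
  by_cases e : t ≤ k.1 ∧ k.1 + 1 < n
  · rw [if_pos e, if_pos (by simp only [Fin.val_rev]; omega)]
    refine card_bij (fun i _ => i.rev) ?_ ?_ ?_
    · intro i hi
      have := i.2
      simp only [mem_filter, mem_univ, true_and, Fin.val_rev] at hi ⊢
      omega
    · intro i _ j _ e
      exact Fin.rev_injective e
    · intro i hi
      have := i.2
      refine ⟨i.rev, ?_, Fin.rev_rev i⟩
      simp only [mem_filter, mem_univ, true_and, Fin.val_rev] at hi ⊢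
      omega
  · rw [if_neg e, if_neg (by simp only [Fin.val_rev]; omega)]
    simp

theorem prod_gg (h1 : 1 ≤ t) (h2 : 2 * t ≤ n) :
    ∏ k ∈ range n, gg n t k = (t - 1).factorial * t ^ (n - 2 * t) := by
  rw [← prod_range_mul_prod_Ico _ (show n - t ≤ n by omega),
    ← prod_range_mul_prod_Ico _ (show t ≤ n - t by omega)]
  have a1 : ∏ k ∈ Ico (n - t) n, gg n t k = 1 :=
    prod_eq_one fun k hk => by
      have := mem_Ico.1 hk
      rw [gg, if_neg (by omega)]
  have a2 : ∏ k ∈ Ico t (n - t), gg n t k = t ^ (n - 2 * t) := by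
    rw [prod_congr rfl (g := fun _ => t), prod_const, Nat.card_Ico]
    · congr 1; omega
    · intro k hk
      have := mem_Ico.1 hk
      rw [gg, if_pos (by omega)]
      omega
  have a3 : ∏ k ∈ range t, gg n t k = (t - 1).factorial := by
    obtain ⟨u, rfl⟩ : ∃ u, t = u + 1 := ⟨t - 1, by omega⟩
    rw [prod_range_succ', Nat.add_sub_cancel, ← prod_range_add_one_eq_factorial]
    have : gg n (u + 1) 0 = 1 := by simp [gg]
    rw [this, mul_one]
    refine prod_congr rfl fun k hk => ?_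
    have := mem_range.1 hk
    rw [gg, if_pos (by omega)]
    omega
  rw [a1, a2, a3, mul_one]

theorem le_numND (h1 : 2 ≤ t) (h2 : 2 * t ≤ n) :
    n.factorial * ((t - 1).factorial * t ^ (n - 2 * t)) ^ 2 ≤ numND n := by
  have hadm : ∀ p ∈ Fintype.piFinset (alp (n := n) t), ∀ q ∈ Fintype.piFinset (alq (n := n) t),
      Adm t p q := by
    intro p hp q hq
    refine ⟨h1, h2, fun k k1 k2 => ?_, fun k k1 k2 => ?_⟩
    · have := Fintype.mem_piFinset.1 hp k
      rw [alp, if_pos ⟨k1, k2⟩] at this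
      exact (mem_filter.1 this).2
    · have := Fintype.mem_piFinset.1 hq k
      rw [alq, if_pos ⟨k1, k2⟩] at this
      exact (mem_filter.1 this).2
  have hc : ((univ : Finset (Equiv.Perm (Fin n))) ×ˢ (Fintype.piFinset (alp (n := n) t) ×ˢ
      Fintype.piFinset (alq (n := n) t))).card =
      n.factorial * ((t - 1).factorial * t ^ (n - 2 * t)) ^ 2 := by
    rw [card_product, card_product, card_univ, Fintype.card_perm, Fintype.card_fin,
      Fintype.card_piFinset, Fintype.card_piFinset]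
    simp only [card_alp, card_alq]
    have := Equiv.prod_comp Fin.revPerm fun k : Fin n => gg n t k
    simp only [Fin.revPerm_apply] at this
    rw [this, Fin.prod_univ_eq_prod_range (gg n t), prod_gg (by omega) h2, sq]
  rw [← hc, numND_eq]
  refine card_le_card_of_injOn
    (fun x i j => decide (base t x.2.1 x.2.2 (x.1 i) j)) ?_ ?_
  · rintro ⟨π, p, q⟩ hx
    simp only [coe_product, Set.mem_prod, mem_coe] at hx
    simp only [coe_filter, mem_univ, true_and, Set.mem_ofPred_eq]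
    exact nearly_perm (by omega) π (hadm p hx.2.1 q hx.2.2).nearly
  · rintro ⟨π, p, q⟩ hx ⟨π', p', q'⟩ hx' e
    simp only [coe_product, Set.mem_prod, mem_coe] at hx hx'
    have a := hadm p hx.2.1 q hx.2.2
    have a' := hadm p' hx'.2.1 q' hx'.2.2
    have e1 : ∀ i j, base t p q (π i) j ↔ base t p' q' (π' i) j := fun i j => by
      simpa using congrFun (congrFun e i) j
    have e2 : π = π' := Equiv.ext fun i => a.row_inj a' (e1 i)
    subst e2
    have e3 : ∀ i j, base t p q i j ↔ base t p' q' i j := fun i j => by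
      simpa using e1 (π.symm i) j
    have e4 : p = p' := by
      funext k
      by_cases hk : 0 < k.1 ∧ k.1 + t < n
      · refine (a'.col hk.1 hk.2 ((e3 _ _).1 (Or.inr (Or.inl ⟨hk.1, hk.2, rfl⟩)))).resolve_left
          fun r => ?_
        have := a.hp k hk.1 hk.2
        rw [r] at this
        omega
      · have b1 := Fintype.mem_piFinset.1 hx.2.1 k
        have b2 := Fintype.mem_piFinset.1 hx'.2.1 k
        rw [alp, if_neg hk, mem_singleton] at b1 b2
        rw [b1, b2]
    have e5 : q = q' := by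
      funext k
      by_cases hk : t ≤ k.1 ∧ k.1 + 1 < n
      · refine (a'.row hk.1 hk.2 ((e3 _ _).1
          (Or.inr (Or.inr (Or.inl ⟨hk.1, hk.2, rfl⟩))))).resolve_left fun r => ?_
        have := a.hq k hk.1 hk.2
        rw [r] at this
        omega
      · have b1 := Fintype.mem_piFinset.1 hx.2.2 k
        have b2 := Fintype.mem_piFinset.1 hx'.2.2 k
        rw [alq, if_neg hk, mem_singleton] at b1 b2
        rw [b1, b2]
    rw [e4, e5]

end Pool.Agent.Work.MP_5391ad_co
end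

-- merged part: Pool.Agent.Work.MP_5391ad_co.Asymp
section
/-! Asymptotic evaluation of the two bounds. -/

namespace Pool.Agent.Work.MP_5391ad_co

open Real Filter Topology

theorem le_log_factorial (n : ℕ) : (n : ℝ) * log n - n ≤ log n.factorial := by
  rcases Nat.eq_zero_or_pos n with rfl | hn
  · simp
  have h := Real.pow_div_factorial_le_exp (n : ℝ) (Nat.cast_nonneg n) n
  have hf : (0 : ℝ) < n.factorial := by exact_mod_cast n.factorial_pos
  have hn' : (0 : ℝ) < n := by exact_mod_cast hn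
  have := log_le_log (by positivity) h
  rw [log_div (by positivity) hf.ne', log_pow, log_exp] at this
  linarith only [this]

theorem log_factorial_le {n : ℕ} (hn : 1 ≤ n) :
    log n.factorial ≤ (n : ℝ) * log n - n + log n + 1 := by
  induction n, hn using Nat.le_induction with
  | base => simp
  | succ n hn ih =>
    have hn' : (0 : ℝ) < n := by exact_mod_cast hn
    have hf : (0 : ℝ) < n.factorial := by exact_mod_cast n.factorial_pos
    rw [Nat.factorial_succ]
    push_cast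
    rw [log_mul (by positivity) hf.ne']
    have h := Real.log_le_sub_one_of_pos (show 0 < (n : ℝ) / (n + 1) by positivity)
    rw [log_div hn'.ne' (by positivity)] at h
    have h2 : ((n : ℝ) + 1) * (log n - log (n + 1)) ≤ (n + 1) * (n / (n + 1) - 1) := by gcongr
    have h3 : ((n : ℝ) + 1) * (n / (n + 1) - 1) = -1 := by field_simp; ring
    linarith only [ih, h2, h3]

theorem two_le_exp : (2 : ℝ) ≤ exp 1 := by
  have := Real.add_one_le_exp (1 : ℝ); linarith

theorem two_pow_le (m : ℕ) : (2 : ℝ) ^ m ≤ exp m := by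
  rw [← Real.exp_one_pow]; gcongr; exact two_le_exp

theorem term_le {n k d v P : ℕ} (hk : 0 < k) (hl : 1 ≤ log (log n)) (hL : 2 ≤ log n)
    (h4 : log n ^ 4 ≤ n) (hv : v ≤ n) (hd : d ≤ 2 * v) (hv2 : v ≤ (2 * k + 6) * d + 4)
    (hP : P ≤ n ^ 2) (hP2 : P * (4 * k ^ 2) ≤ ((k + 3) * d) ^ 2) :
    (n.choose v : ℝ) * 4 ^ v * ((n : ℝ) ^ (2 * v - d) * exp v) * ((P : ℝ) + v) ^ (n - v) ≤
      exp (n * (2 * log n - 2 * log (log n) - 2 + 6 / k +
        (5 + (2 * k + 6) * 104) * (log (log n) ^ 2 / log n))) := by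
  set L := log n with hLdef
  set l := log L with hldef
  have hL0 : 0 < L := by linarith only [hL]
  have hn16 : (16 : ℝ) ≤ n := le_trans (by clear * - L hL h4 n; linarith only [hL, pow_le_pow_left₀ (by norm_num) hL 4]) h4
  have hn0 : (0 : ℝ) < n := by linarith only [hn16]
  have hk0 : (0 : ℝ) < k := by exact_mod_cast hk
  have hvn : (v : ℝ) ≤ n := by exact_mod_cast hv
  have hv0 : (0 : ℝ) ≤ v := Nat.cast_nonneg v
  have hd0 : (0 : ℝ) ≤ d := Nat.cast_nonneg d
  have e1 : (n : ℝ) ^ (2 * v - d) = exp ((2 * v - d) * L) := by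
    rw [show (2 * (v : ℝ) - d) = ((2 * v - d : ℕ) : ℝ) by rw [Nat.cast_sub hd]; push_cast; ring,
      Real.exp_nat_mul, exp_log hn0]
  have e2 : (4 : ℝ) ^ v ≤ exp (2 * v) := by
    have := two_pow_le (2 * v)
    rw [pow_mul] at this
    norm_num at this
    exact this
  have e3 : ∀ M : ℝ, 0 < M → (P : ℝ) + v ≤ M → ((P : ℝ) + v) ^ (n - v) ≤ exp ((n - v) * log M) := by
    intro M hM h
    rw [← Nat.cast_sub hv, Real.exp_nat_mul, exp_log hM]
    gcongr
  have hpos : 0 ≤ (n : ℝ) * (6 / k + (5 + (2 * k + 6) * 104) * (l ^ 2 / L)) := by positivity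
  by_cases hc : 2 * n * l + 10 * n ≤ d * L
  · have c1 : (n.choose v : ℝ) ≤ exp n := by
      refine le_trans ?_ (two_pow_le n)
      exact_mod_cast Nat.choose_le_two_pow n v
    have c2 := e3 (2 * n ^ 2) (by positivity) (by
      clear * - P n hP hn16 v hvn
      have : (P : ℝ) ≤ n ^ 2 := by exact_mod_cast hP
      have hnn : (n : ℝ) ≤ n ^ 2 := le_self_pow₀ (by linarith only [hn16]) (by norm_num)
      linarith only [hvn, this, hnn])
    rw [log_mul (by norm_num) (by positivity), log_pow] at c2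
    have c3 : log 2 ≤ 1 := by
      have := Real.log_le_sub_one_of_pos (show (0 : ℝ) < 2 by norm_num); linarith only [this]
    have c4 : 0 ≤ log 2 := log_nonneg (by norm_num)
    rw [e1]
    calc _ ≤ exp n * exp (2 * v) * (exp ((2 * v - d) * L) * exp v) *
          exp ((n - v) * (log 2 + (2 : ℕ) * L)) := by clear * - n v d L P c1 e2 c2; gcongr
      _ ≤ _ := by
        clear * - n v d L l k hn16 hvn hpos hc hv0 c4 c3 hn0
        simp only [← exp_add]
        refine exp_le_exp.2 ?_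
        push_cast
        linarith only [hn16, hvn, hpos, hc, hv0, c4, c3, hn0, mul_nonneg hv0 c4, mul_le_mul_of_nonneg_left c3 hn0.le]
  · push Not at hc
    have c1 : (n.choose v : ℝ) ≤ exp (v * l + n / L) := by
      have h1 : (n.choose v : ℝ) ≤ (n : ℝ) ^ v / v.factorial := Nat.choose_le_pow_div v n
      have h2 := Real.pow_div_factorial_le_exp (n / L) (by positivity) v
      rw [exp_add, Real.exp_nat_mul, exp_log hL0]
      refine h1.trans ?_
      calc (n : ℝ) ^ v / v.factorial = L ^ v * ((n / L) ^ v / v.factorial) := by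
            rw [div_pow]; field_simp
        _ ≤ _ := by gcongr
    set a : ℝ := (k + 3) / (2 * k) with ha
    set y : ℝ := d + 4 * n / L ^ 2 with hy
    have ha0 : 1 / 2 ≤ a := by rw [ha, le_div_iff₀ (by positivity)]; linarith only []
    have hy0 : 0 < y := by positivity
    have hP3 : (P : ℝ) ≤ (a * d) ^ 2 := by
      have : (P : ℝ) * (4 * k ^ 2) ≤ ((k + 3) * d) ^ 2 := by exact_mod_cast hP2
      rw [ha, div_mul_eq_mul_div, div_pow, le_div_iff₀ (by positivity)]
      linarith only [this]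
    have hw : (n : ℝ) ≤ (n / L ^ 2) ^ 2 := by
      rw [div_pow, le_div_iff₀ (by positivity)]
      linarith only [h4, hn0, mul_le_mul_of_nonneg_left h4 hn0.le]
    have hw0 : 0 < (n : ℝ) / L ^ 2 := by positivity
    have hM : (a * d) ^ 2 + (n / L ^ 2) ^ 2 ≤ (a * y) ^ 2 := by
      clear * - a y d n L hy k hw0 ha0 hk hn16 hL
      have : a * y = a * d + 4 * a * (n / L ^ 2) := by rw [hy]; ring
      rw [this]
      have h1 : (n : ℝ) / L ^ 2 ≤ 4 * a * (n / L ^ 2) :=
        le_mul_of_one_le_left hw0.le (by linarith only [ha0])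
      have h2 : 0 ≤ (a * d) * (4 * a * (n / L ^ 2)) := by positivity
      linarith only [h2, hw0, h1, pow_le_pow_left₀ hw0.le h1 2]
    have c2 := e3 ((a * y) ^ 2) (by positivity) (by clear * - P v a y n d L k hvn hP3 hw hM e3; linarith only [hvn, hP3, hw, hM])
    have c3 : 2 * L - 4 * l ≤ log ((a * y) ^ 2) := by
      clear * - n L a y hn16 hL P d k hP3 hM l hn0
      have := log_le_log (by positivity) (show ((n : ℝ) / L ^ 2) ^ 2 ≤ (a * y) ^ 2 by
        linarith only [hP3, hM, sq_nonneg (a * d)])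
      rw [log_pow, log_div hn0.ne' (by positivity), log_pow] at this
      push_cast at this
      linarith only [this]
    have c4 : n * log ((a * y) ^ 2) ≤ y * L - 2 * n + 2 * n * L - 2 * n * l + n * (6 / k) := by
      clear * - y L n d hn16 hL a k hk ha l hy0 hn0 hL0
      have h1 := Real.log_le_sub_one_of_pos (show 0 < y * L / (2 * n) by positivity)
      have h2 := Real.log_le_sub_one_of_pos (show 0 < 2 * a by positivity)
      have h3 : 2 * a - 1 = 3 / k := by rw [ha]; field_simp; ring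
      rw [log_div (by positivity) (by positivity), log_mul hy0.ne' hL0.ne',
        log_mul (by norm_num) hn0.ne'] at h1
      rw [log_mul (by norm_num) (by positivity), h3] at h2
      rw [log_pow, log_mul (by positivity) hy0.ne']
      have h5 := mul_le_mul_of_nonneg_left h1 (show 0 ≤ 2 * (n : ℝ) by positivity)
      have h6 : 2 * (n : ℝ) * (y * L / (2 * n) - 1) = y * L - 2 * n := by field_simp
      have h7 := mul_le_mul_of_nonneg_left h2 (show 0 ≤ 2 * (n : ℝ) by positivity)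
      have h8 : 2 * (n : ℝ) * (3 / k) = n * (6 / k) := by ring
      push_cast
      linarith only [h5, h6, h7, h8]
    have c5 : y * L = d * L + 4 * (n / L) := by rw [hy]; field_simp
    have c6 : (v : ℝ) ≤ (2 * k + 6) * 13 * l * (n / L) := by
      clear * - v k d hv2 l n L hL0 hc hl hn0 h4 hn16 hL hk0 hk
      have h1 : (v : ℝ) ≤ (2 * k + 6) * d + 4 := by exact_mod_cast hv2
      have h2 : (d : ℝ) ≤ 12 * l * (n / L) := by
        rw [← mul_div_assoc, le_div_iff₀ hL0]
        linarith only [hc, hl, hn0, mul_le_mul_of_nonneg_left hl hn0.le]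
      have h3 : 4 ≤ (n : ℝ) / L := by
        rw [le_div_iff₀ hL0]
        linarith only [h4, hn16, hL, hL0, mul_le_mul_of_nonneg_right (pow_le_pow_left₀ (by norm_num) hL 3) hL0.le]
      have h5 : (4 : ℝ) ≤ (2 * k + 6) * l * (n / L) := by
        have : (1 : ℝ) ≤ (2 * k + 6) * l := one_le_mul_of_one_le_of_one_le (by linarith only [hk0]) hl
        exact h3.trans (le_mul_of_one_le_left (by positivity) this)
      linarith only [h1, h5, h2, hk, mul_le_mul_of_nonneg_left h2 (show (0 : ℝ) ≤ 2 * k + 6 by positivity)]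
    have c7 : (v : ℝ) * (5 * l + 3) + 5 * (n / L) ≤ n * ((5 + (2 * k + 6) * 104) * (l ^ 2 / L)) := by
      clear * - v l k n L c6 hl hk hn16 hL
      have h1 : (v : ℝ) * (5 * l + 3) ≤ ((2 * k + 6) * 13 * l * (n / L)) * (8 * l) := by
        gcongr; linarith only [hl]
      have h2 : 5 * ((n : ℝ) / L) ≤ 5 * (n / L) * l ^ 2 :=
        le_mul_of_one_le_right (by positivity) (one_le_pow₀ hl)
      have h3 : n * ((5 + (2 * (k : ℝ) + 6) * 104) * (l ^ 2 / L)) =
          ((2 * k + 6) * 13 * l * (n / L)) * (8 * l) + 5 * (n / L) * l ^ 2 := by ring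
      linarith only [h1, h2, h3]
    rw [e1]
    calc _ ≤ exp (v * l + n / L) * exp (2 * v) * (exp ((2 * v - d) * L) * exp v) *
          exp ((n - v) * log ((a * y) ^ 2)) := by clear * - n v d L l P a y c1 e2 c2; gcongr
      _ ≤ _ := by
        clear * - v l n L d a y k c4 c5 c7 c3 hv0
        simp only [← exp_add]
        refine exp_le_exp.2 ?_
        linarith only [c4, c5, c7, c3, hv0, mul_le_mul_of_nonneg_left c3 hv0]

theorem log_le_aux {n : ℕ} (hl : 1 ≤ log (log n)) (hL : 2 ≤ log n) (h4 : log n ^ 4 ≤ n) :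
    log n ≤ n * (log (log n) ^ 2 / log n) ∧ (n : ℝ) / log n ≤ n * (log (log n) ^ 2 / log n) := by
  have h1 : (n : ℝ) / log n ≤ n * (log (log n) ^ 2 / log n) := by
    rw [← mul_div_assoc]
    gcongr
    exact le_mul_of_one_le_right (Nat.cast_nonneg n) (by linarith only [hl, mul_nonneg_of_nonpos_of_nonpos (Mathlib.Tactic.Linarith.sub_nonpos_of_le hl) (Mathlib.Tactic.Linarith.sub_nonpos_of_le hl)])
  refine ⟨le_trans ?_ h1, h1⟩
  rw [le_div_iff₀ (by linarith only [hL])]
  nlinarith only [h4, hL, pow_le_pow_left₀ (by norm_num) hL 2, sq_nonneg (log (n : ℝ))]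

theorem lower {n : ℕ} (hl : 1 ≤ log (log n)) (hL : 2 ≤ log n) (h4 : log n ^ 4 ≤ n) :
    0 < numND n ∧ n * (3 * log n - 2 * log (log n) - 3 - 8 * (log (log n) ^ 2 / log n)) ≤
      log (numND n) := by
  obtain ⟨b1, b2⟩ := log_le_aux hl hL h4
  set L := log n with hLdef
  set l := log L with hldef
  have hL0 : 0 < L := by linarith only [hL]
  have hn16 : (16 : ℝ) ≤ n := le_trans (by linarith only [hL, pow_le_pow_left₀ (by norm_num) hL 4]) h4
  have hn0 : (0 : ℝ) < n := by linarith only [hn16]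
  set t := ⌊(n : ℝ) / L⌋₊ with ht
  have t1 : (t : ℝ) ≤ n / L := Nat.floor_le (by positivity)
  have t2 : (n : ℝ) / L < t + 1 := Nat.lt_floor_add_one _
  have h3 : 4 ≤ (n : ℝ) / L := by
    rw [le_div_iff₀ hL0]
    linarith only [h4, hn16, hL, hL0, mul_le_mul_of_nonneg_right (pow_le_pow_left₀ (by norm_num) hL 3) hL0.le]
  have t3 : 2 ≤ t := by
    have : (2 : ℝ) < t := by linarith only [t2, h3]
    exact_mod_cast this.le
  have t3' : (2 : ℝ) ≤ t := by exact_mod_cast t3
  have t4' : (t : ℝ) * L ≤ n := by rwa [le_div_iff₀ hL0] at t1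
  have t4 : 2 * t ≤ n := by
    clear * - t n L t4' hL
    have : 2 * (t : ℝ) ≤ n := by linarith only [t4', hL, mul_nonneg_of_nonpos_of_nonpos (Mathlib.Tactic.Linarith.sub_nonpos_of_le (Mathlib.Tactic.Linarith.natCast_nonneg ℝ t)) (Mathlib.Tactic.Linarith.sub_nonpos_of_le hL)]
    exact_mod_cast this
  have key := le_numND t3 t4
  have hpos : 0 < n.factorial * ((t - 1).factorial * t ^ (n - 2 * t)) ^ 2 := by positivity
  refine ⟨hpos.trans_le key, ?_⟩
  have k2 := log_le_log (by exact_mod_cast hpos) (Nat.cast_le (α := ℝ).2 key)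
  have f0 : ∀ m : ℕ, (0 : ℝ) < m.factorial := fun m => by exact_mod_cast m.factorial_pos
  push_cast at k2
  rw [log_mul (f0 n).ne' (by have := f0 (t - 1); positivity), log_pow,
    log_mul (f0 _).ne' (by positivity), log_pow, Nat.cast_sub t4] at k2
  have k3 := le_log_factorial n
  have k4 := le_log_factorial t
  have k5 : log t.factorial = log t + log (t - 1).factorial := by
    conv_lhs => rw [← Nat.mul_factorial_pred (show t ≠ 0 by omega)]
    push_cast
    rw [log_mul (by positivity) (f0 _).ne']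
  have k6 : log t ≤ L := log_le_log (by linarith only [t2, h3]) (by clear * - t n L hn16 t4' hL; linarith only [hn16, t4', hL, mul_nonneg_of_nonpos_of_nonpos (Mathlib.Tactic.Linarith.sub_nonpos_of_le (Mathlib.Tactic.Linarith.natCast_nonneg ℝ t)) (Mathlib.Tactic.Linarith.sub_nonpos_of_le hL)])
  have k7 : 0 ≤ log t := log_nonneg (by linarith only [t2, h3])
  have k8 : n * (L - l - log t) ≤ 2 * L := by
    clear * - n L t hn16 hL t3 hL0 t2 t3' l hn0
    have h1 := Real.log_le_sub_one_of_pos (show 0 < (n : ℝ) / L / t by positivity)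
    rw [log_div (by positivity) (by positivity), log_div hn0.ne' hL0.ne'] at h1
    have h2 : (n : ℝ) / L / t - 1 ≤ 1 / t := by
      rw [sub_le_iff_le_add, div_le_iff₀ (by positivity)]
      field_simp
      rw [div_lt_iff₀ hL0] at t2
      linarith only [t2]
    have h5 : (n : ℝ) * (1 / t) ≤ 2 * L := by
      rw [mul_one_div, div_le_iff₀ (by positivity)]
      rw [div_lt_iff₀ hL0] at t2
      (refine le_of_not_gt fun h_nl => ?_; linarith only [h_nl, hn16, t3', t2, mul_nonneg_of_nonpos_of_nonpos (Mathlib.Tactic.Linarith.sub_nonpos_of_le (Mathlib.Tactic.Linarith.natCast_nonneg ℝ n)) (Mathlib.Tactic.Linarith.sub_nonpos_of_le t3'), mul_nonneg_of_nonpos_of_nonpos (Mathlib.Tactic.Linarith.sub_nonpos_of_le (Mathlib.Tactic.Linarith.natCast_nonneg ℝ t)) (le_of_lt (Mathlib.Tactic.Linarith.sub_neg_of_lt t2)), mul_nonneg_of_nonpos_of_nonpos (Mathlib.Tactic.Linarith.sub_nonpos_of_le (Mathlib.Tactic.Linarith.natCast_nonneg ℝ t)) (le_of_lt (Mathlib.Tactic.Linarith.sub_neg_of_lt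 h_nl))])
    linarith only [h5, h1, h2, hn0, mul_le_mul_of_nonneg_left (h1.trans h2) hn0.le]
  have k9 : (t : ℝ) * log t ≤ n := (mul_le_mul_of_nonneg_left k6 (by linarith only [t2, h3])).trans t4'
  push_cast at k2
  clear * - n L l t b1 b2 t1 k3 k4 k5 k6 k8 k9 k2
  linarith only [b1, b2, t1, k3, k4, k5, k6, k8, k9, k2]

theorem upper {n k : ℕ} (hk : 0 < k) (hl : 1 ≤ log (log n)) (hL : 2 ≤ log n)
    (h4 : log n ^ 4 ≤ n) :
    log (numND n) ≤ n * (3 * log n - 2 * log (log n) - 3 + 6 / k +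
        (16 + (2 * k + 6) * 104) * (log (log n) ^ 2 / log n)) := by
  obtain ⟨b1, -⟩ := log_le_aux hl hL h4
  have hn16 : (16 : ℝ) ≤ n := le_trans (by linarith only [hL, pow_le_pow_left₀ (by norm_num) hL 4]) h4
  have hn2 : 2 ≤ n := by
    have : (2 : ℝ) ≤ n := by linarith only [hn16]
    exact_mod_cast this
  have h1 := card_goods_le (n := n) (by omega) hk (exp_pos _).le
    fun d v P a1 a2 a3 a4 a5 => term_le hk hl hL h4 a1 a2 a3 a4 a5
  have h2 : (numND n : ℝ) ≤ n.factorial * (goods n).card := by exact_mod_cast numND_le hn2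
  have f0 : (0 : ℝ) < n.factorial := by exact_mod_cast n.factorial_pos
  have h3 := log_le_log (by exact_mod_cast (lower hl hL h4).1)
    (h2.trans (mul_le_mul_of_nonneg_left h1 f0.le))
  rw [log_mul f0.ne' (by positivity), log_mul (by positivity) (by positivity), log_exp,
    log_pow] at h3
  have h5 := log_factorial_le (n := n) (by omega)
  have h6 : log (2 * n + 1) ≤ 2 * log n := by
    clear * - n hn2 hn16
    have := log_le_log (by positivity) (show 2 * (n : ℝ) + 1 ≤ n ^ 2 by linarith only [hn16, mul_nonneg_of_nonpos_of_nonpos (Mathlib.Tactic.Linarith.sub_nonpos_of_le (Mathlib.Tactic.Linarith.natCast_nonneg ℝ n)) (Mathlib.Tactic.Linarith.sub_nonpos_of_le hn16)])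
    rwa [log_pow] at this
  push_cast at h3
  linarith only [hL, b1, h3, h5, h6]

theorem tendsto_err : Tendsto (fun n : ℕ => log (log n) ^ 2 / log n) atTop (𝓝 0) := by
  have h := (Real.isLittleO_pow_log_id_atTop (n := 2)).tendsto_div_nhds_zero
  exact h.comp (tendsto_log_atTop.comp tendsto_natCast_atTop_atTop)

theorem eventually_big : ∀ᶠ n : ℕ in atTop,
    1 ≤ log (log n) ∧ 2 ≤ log n ∧ log n ^ 4 ≤ n := by
  have h1 : Tendsto (fun n : ℕ => log n) atTop atTop :=
    tendsto_log_atTop.comp tendsto_natCast_atTop_atTop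
  have h2 : Tendsto (fun n : ℕ => log n ^ 4 / n) atTop (𝓝 0) :=
    (Real.isLittleO_pow_log_id_atTop (n := 4)).tendsto_div_nhds_zero.comp
      tendsto_natCast_atTop_atTop
  filter_upwards [(tendsto_log_atTop.comp h1).eventually_ge_atTop 1, h1.eventually_ge_atTop 2,
    h2.eventually_le_const one_pos, eventually_gt_atTop 0] with n a1 a2 a3 a4
  refine ⟨a1, a2, ?_⟩
  rwa [div_le_one (by exact_mod_cast a4)] at a3

theorem tendsto_log : Tendsto (fun n : ℕ =>
    log (numND n) / n - (3 * log n - 2 * log (log n) - 3)) atTop (𝓝 0) := by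
  rw [tendsto_order]
  constructor
  · intro ε hε
    have := (tendsto_err.const_mul 8).eventually_lt_const (show 8 * 0 < -ε by linarith)
    filter_upwards [eventually_big, this, eventually_gt_atTop 0] with n ⟨a1, a2, a3⟩ b c
    have hn : (0 : ℝ) < n := by exact_mod_cast c
    have := (lower a1 a2 a3).2
    rw [mul_comm, ← le_div_iff₀ hn] at this
    linarith only [b, this]
  · intro ε hε
    obtain ⟨k, hk⟩ := exists_nat_gt (12 / ε)
    have hk0 : (0 : ℝ) < k := lt_trans (by positivity) hk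
    have hk1 : 6 / (k : ℝ) < ε / 2 := by
      rw [div_lt_iff₀ hε] at hk
      rw [div_lt_iff₀ hk0]; linarith only [hk]
    have := (tendsto_err.const_mul (16 + (2 * (k : ℝ) + 6) * 104)).eventually_lt_const
      (show (16 + (2 * (k : ℝ) + 6) * 104) * 0 < ε / 2 by linarith only [hε])
    filter_upwards [eventually_big, this, eventually_gt_atTop 0] with n ⟨a1, a2, a3⟩ b c
    have hn : (0 : ℝ) < n := by exact_mod_cast c
    have := upper (k := k) (by exact_mod_cast hk0) a1 a2 a3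
    rw [mul_comm, ← div_le_iff₀ hn] at this
    linarith only [hk1, b, this]

theorem main : Tendsto (fun n : ℕ =>
    (numND n : ℝ) ^ (1 / (n : ℝ)) / ((n : ℝ) ^ 3 / (exp 3 * log n ^ 2))) atTop (𝓝 1) := by
  have h := (continuous_exp.tendsto 0).comp tendsto_log
  rw [exp_zero] at h
  refine h.congr' ?_
  filter_upwards [eventually_big, eventually_gt_atTop 0] with n ⟨a1, a2, a3⟩ c
  have hn : (0 : ℝ) < n := by exact_mod_cast c
  have h0 : (0 : ℝ) < numND n := by exact_mod_cast (lower a1 a2 a3).1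
  have hL : 0 < log n := by linarith only [a2]
  simp only [Function.comp]
  rw [exp_sub, exp_sub, exp_sub, rpow_def_of_pos h0, mul_one_div,
    show (3 : ℝ) * log n = (3 : ℕ) * log n by norm_num,
    show (2 : ℝ) * log (log n) = (2 : ℕ) * log (log n) by norm_num, Real.exp_nat_mul,
    Real.exp_nat_mul, exp_log hn, exp_log hL, div_div _ _ (exp 3), mul_comm (exp 3)]

end Pool.Agent.Work.MP_5391ad_co
end
end

-- merged part: Pool.Agent.Work.MP_5391ad_co.MGr
section
-- merged part: Pool.Agent.Work.MP_5391ad_co.PCgood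
section
/-! A column event keeps the class and the post-dominators. Notation as in PCset.lean,
`D1 = colD V D s a g`, `V1 = V \ P`. Tools: `cev_closed`, `cev_short`, `cev_bypass`, `col_expand`.

`cev_dom`: (post-dominators) shortcut of a walk ending at `s`: the second alternative of
`cev_short` is impossible for `y = s`; conversely expand with `cev_bypass`. (dominators) expand;
for the growth statement use the second alternative of `cev_short`, and for `g = s` the last part
of `cev_closed`. (bridges) a surviving arc `(u, w)` has `u ∉ P ∪ {a}`; replace `(a, g)` by a walk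
avoiding `u` (or, for `u = g`, by a walk up to the first `g`).
`cev_good`: `fwd`: if `y` is not dominated by `a`, a walk avoiding `a` avoids `P`. If `dom a y`,
`y ∉ P`: either `y = g` or `Av {s} g y` with `pdom g y`, or `¬ pdom g y`; in all cases apply
`cev_short` to `s ⇝ y`; in the second alternative `Av {s} g y`, and this walk avoids `a` because
`g ∉ K`, so it avoids `P`. `dg`: `a` is on no cycle of `D1 - s`; a cycle of `D1 - s` does not use
`(a, g)`, keep `z`, which lies on that cycle, so survives.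
`cev_case`: a cyclic vertex `u` of `D1` in `K` is post-dominated by `g` (`g ≠ s`) or by `a`
(`g = s`), which are not in its new component. For `u ∉ K` the component `K''` of `u` does not
meet `P` (it would be contained in `P`), is the same in `D` and `D1`, has the same exit arcs; a
dominator outside `K''` survives or can be replaced by `a`; a new arc `(a, g)` with `g ∈ K''`
contradicts the unique entry arc from `s`. -/

namespace Pool.Agent.Work.MP_5391ad_co

open Finset
open scoped Classical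

variable {α : Type*} {D : α → α → Prop} {s : α} {V : Finset α}

theorem pcgood_avoid {B : Set α} {u z x y : α} (hB : s ∈ B) (hz : ¬ Sc D s u z)
    (h1 : Av D {s} u x) (h2 : Av D B x y) (h3 : Av D {s} y u) : Av D (B ∪ {z}) x y := by
  have m : ∀ {x y}, Av D B x y → Av D {s} x y := fun k =>
    k.mono (Set.singleton_subset_iff.2 hB) fun _ _ e _ _ => e
  rcases av_first {z} h2 with k | rfl | ⟨p, _, rfl, k1, k2, k3⟩
  · exact k
  · exact (hz ⟨h1, (m h2).trans h3⟩).elim
  · exact (hz ⟨h1.trans (m ((pbase_l k1).tail k2 k3.1)), (m k3).trans h3⟩).elim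

section

variable (h : GR V D s) {q a b g : α} (hq : CycA D {s} q) (hc : CCase D s q)
  (hch : Chain D s q a b) (hg : Gate D s a g)
include h hq hc hch hg

theorem pcgood_basic : a ∈ V ∧ a ≠ s ∧ g ∈ V ∧ (g ≠ s → Av D {s} a g) := by
  have a2 : a ≠ s := hch.sa.2.1
  have a1 := (h.av_of_dom (mem_filter.1 (h.cev_closed hq hc hch hg).2.2.2.1).1 a2 hch.ab).1
  have a3 := fun e => h.rev.av_of_dom a1 e (dom_rv.2 hg.pd)
  refine ⟨a1, a2, ?_, fun e => av_rv.1 (a3 e).2⟩
  by_cases e : g = s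
  · exact e ▸ h.root
  · exact (a3 e).1

theorem pcgood_exp {z x y : α} (hz : z ∉ colP V D s a g) (k : Av (colD V D s a g) {z} x y) :
    Av D {z} x y :=
  col_expand (fun k1 k2 => h.cev_bypass hq hc hch hg hz (Ne.symm k2) (Ne.symm k1)) k

theorem pcgood_root {B : Set α} {x : α} (hx : x ∉ colP V D s a g) (k : Av D B x s) :
    Av (colD V D s a g) B x s :=
  (h.cev_short hq hc hch hg hx (h.cev_closed hq hc hch hg).1 k).resolve_right
    fun k1 => k1.2.2.2.2.not_mem_right rfl

theorem pcgood_ends {u w : α} (k : colD V D s a g u w) :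
    u ∉ colP V D s a g ∧ w ∉ colP V D s a g := by
  obtain ⟨-, c2, c3, -, c5, -⟩ := h.cev_closed hq hc hch hg
  rcases k with ⟨rfl, rfl⟩ | k
  · exact ⟨c2, c3⟩
  · exact ⟨k.2.2, fun e => (c5 _ _ e k.1).elim k.2.2 k.2.1⟩

theorem pcgood_out {B : Set α} {x y : α} (hx : x ∉ colP V D s a g)
    (k : Av (colD V D s a g) B x y) : Av (colD V D s a g) (B ∪ ↑(colP V D s a g)) x y :=
  ⟨fun e => e.elim k.1 hx, pbase_mono k.2 fun _ _ e =>
    ⟨e.1, fun e' => e'.elim e.2 (pcgood_ends h hq hc hch hg e.1).2⟩⟩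

theorem pcgood_up {B : Set α} {x y : α} (ha : a ∈ B) (hx : x ∉ colP V D s a g) (k : Av D B x y) :
    y ∉ colP V D s a g ∧ Av (colD V D s a g) B x y := by
  obtain ⟨k1, k2⟩ := k
  induction k2 with
  | refl => exact ⟨hx, av_refl k1⟩
  | tail _ k3 ih =>
    have k4 : colD V D s a g _ _ :=
      Or.inr ⟨k3.1, fun e => ih.2.not_mem_right (e ▸ ha), ih.1⟩
    exact ⟨(pcgood_ends h hq hc hch hg k4).2, ih.2.tail k4 k3.2⟩

theorem pcgood_arc {u w x y : α} (h1 : u ≠ a) (h2 : u ∉ colP V D s a g)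
    (k : Relation.ReflTransGen (fun x y => colD V D s a g x y ∧ ¬ (x = u ∧ y = w)) x y) :
    Relation.ReflTransGen (fun x y => D x y ∧ ¬ (x = u ∧ y = w)) x y := by
  have m : ∀ {x y}, Av D {u} x y →
      Relation.ReflTransGen (fun x y => D x y ∧ ¬ (x = u ∧ y = w)) x y := fun k =>
    av_empty.1 (k.mono (Set.empty_subset _) fun _ _ e e' _ => ⟨e, fun e'' => e' e''.1⟩)
  have k0 : Relation.ReflTransGen (fun x y => D x y ∧ ¬ (x = u ∧ y = w)) a g := by
    by_cases e : u = g
    · subst e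
      obtain ⟨p, k1, k2⟩ := pbase_split h.rev (pcgood_basic h hq hc hch hg).1 (dom_rv.2 hg.pd)
      exact (m (av_rv.1 k2)).tail ⟨k1, fun e => k2.1 e.1⟩
    · exact m (h.cev_bypass hq hc hch hg h2 h1 e)
  induction k with
  | refl => exact .refl
  | tail _ k3 ih =>
    rcases k3 with ⟨⟨rfl, rfl⟩ | k3, k4⟩
    · exact ih.trans k0
    · exact ih.tail ⟨k3.1, k4⟩

theorem pcgood_nsc {u : α} (hu : CycA (colD V D s a g) {s} u) :
    ¬ Sc (colD V D s a g) s u a := by
  intro k
  obtain ⟨v, ⟨-, rfl⟩ | k1, k2⟩ := hu.of_sc k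
  · exact hg.out ⟨(pcgood_basic h hq hc hch hg).2.2.2 k2.1,
      pcgood_exp h hq hc hch hg (h.cev_closed hq hc hch hg).1 k2⟩
  · exact k1.2.1 rfl

end

theorem GR.cev_dom (h : GR V D s) {q a b g : α} (hq : CycA D {s} q) (hc : CCase D s q)
    (hch : Chain D s q a b) (hg : Gate D s a g) :
    (∀ z ∈ V \ colP V D s a g, ∀ w ∈ V \ colP V D s a g,
      (pdom (colD V D s a g) s z w ↔ pdom D s z w) ∧
      (dom D s z w → dom (colD V D s a g) s z w) ∧
      (dom (colD V D s a g) s z w → dom D s z w ∨ (w ≠ a ∧ PDd D s w))) ∧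
    (∀ u w, OBr D s u w → colD V D s a g u w → OBr (colD V D s a g) s u w) ∧
    (∀ u w, IBr D s u w → colD V D s a g u w → IBr (colD V D s a g) s u w) ∧
    (∀ u w, u ≠ a → IBr (colD V D s a g) s u w → IBr D s u w) ∧
    (∀ y ∈ V \ colP V D s a g, (∃ u, OBr D s u y) → ∃ u, OBr (colD V D s a g) s u y) := by
  obtain ⟨c1, c2, c3, c4, c5, c6, c7, -, c9⟩ := h.cev_closed hq hc hch hg
  have ob : ∀ u w, OBr D s u w → colD V D s a g u w → OBr (colD V D s a g) s u w := by
    intro u w h1 h2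
    rcases h2 with ⟨rfl, rfl⟩ | h2
    · exact (c3 (c6 _ h1.1).1).elim
    · exact ⟨Or.inr h2, fun k => h1.2 (pcgood_arc h hq hc hch hg h2.2.1 h2.2.2 k)⟩
  refine ⟨fun z hz w hw => ⟨and_congr_right fun _ => not_congr ⟨?_, ?_⟩, fun k => ⟨k.1, ?_⟩,
    fun k => or_iff_not_imp_left.2 fun k1 => ?_⟩, ob, fun u w h1 h2 => ?_, fun u w h1 h2 => ?_,
    ?_⟩
  · exact pcgood_exp h hq hc hch hg (mem_sdiff.1 hz).2
  · exact pcgood_root h hq hc hch hg (mem_sdiff.1 hw).2
  · exact fun k1 => k.2 (pcgood_exp h hq hc hch hg (mem_sdiff.1 hz).2 k1)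
  · obtain ⟨-, k2, -, k3, k4⟩ := (h.cev_short hq hc hch hg c1 (mem_sdiff.1 hw).2
      (not_not.1 fun k2 => k1 ⟨k.1, k2⟩)).resolve_left k.2
    refine ⟨k2, Or.inl ?_⟩
    by_cases e : g = s
    · exact ⟨b, fun e' => c1 (e' ▸ c4),
        (c9 e w k4).2.1.resolve_left fun e' => (mem_sdiff.1 hw).2 (e' ▸ c4)⟩
    · exact ⟨g, e, k3⟩
  · rcases h2 with ⟨rfl, rfl⟩ | h2
    · exact (c3 (c6 _ h1.1).1).elim
    · exact ⟨Or.inr h2, fun k => h1.2 (pcgood_arc h hq hc hch hg h2.2.1 h2.2.2 k)⟩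
  · obtain ⟨k1, -, k2⟩ := h2.1.resolve_left fun e => h1 e.1
    refine ⟨k1, fun k => h2.2 ?_⟩
    rcases av_last {u} (av_empty.2 k) with k | rfl | ⟨_, p, rfl, -, k3, k4⟩
    · exact (k.1 (Or.inr rfl)).elim
    · exact .refl
    · have k5 := pcgood_root h hq hc hch hg (fun e => (c5 _ _ e k3.1).elim k2 h1)
        ((pbase_r k4).mono le_rfl fun _ _ e _ _ => e.1)
      exact .head ⟨Or.inr ⟨k3.1, h1, k2⟩, k3.2⟩ (av_empty.1
        (k5.mono (Set.empty_subset _) fun _ _ e e' _ => ⟨e, fun e'' => e' e''.1⟩))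
  · rintro y hy ⟨u, hu⟩
    by_cases k : u ∈ colP V D s a g
    · obtain ⟨rfl, -⟩ := c7 u k y (mem_sdiff.1 hy).2 hu.1 (Or.inl hu)
      refine ⟨a, Or.inl ⟨rfl, rfl⟩, fun k1 => hu.2 (pbase_mono k1 fun x z e => ?_)⟩
      have := e.1.resolve_left e.2
      exact ⟨this.1, fun e' => this.2.2 (e'.1 ▸ k)⟩
    · exact ⟨u, ob u y hu (Or.inr ⟨hu.1, fun e => (mem_sdiff.1 hy).2 (c6 y (e ▸ hu.1)).1, k⟩)⟩

theorem GR.cev_good (h : GR V D s) {q a b g : α} (hq : CycA D {s} q) (hc : CCase D s q)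
    (hch : Chain D s q a b) (hg : Gate D s a g) :
    GR (V \ colP V D s a g) (colD V D s a g) s ∧ ¬ CycA (colD V D s a g) {s} a ∧
      ∀ u, CycA (colD V D s a g) {s} u → CycA D {s} u := by
  obtain ⟨c1, c2, c3, c4, c5, c6, -⟩ := h.cev_closed hq hc hch hg
  obtain ⟨d1, d2, d3, -⟩ := h.cev_dom hq hc hch hg
  obtain ⟨a1, a2, a3, a4⟩ := pcgood_basic h hq hc hch hg
  have cy : ∀ u (B : Set α), s ∈ B → CycA (colD V D s a g) B u → CycA D B u := by
    rintro u B hB ⟨v, k1, k2⟩
    have k3 : Av (colD V D s a g) {s} v u :=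
      k2.mono (Set.singleton_subset_iff.2 hB) fun _ _ e _ _ => e
    have k4 := pcgood_nsc h hq hc hch hg ⟨v, k1, k3⟩
    have k5 := av_refl (D := colD V D s a g) k3.not_mem_right
    have k6 := pcgood_avoid hB k4 (k5.tail k1 k3.1) k2 k5
    exact ⟨v, (k1.resolve_left fun e => k6.not_mem_right (Or.inr e.1)).1,
      k6.mono Set.subset_union_left fun _ _ e e' _ =>
        (e.resolve_left fun e'' => e' (Or.inr e''.1)).1⟩
  have mem : ∀ u w, colD V D s a g u w → u ∈ V \ colP V D s a g ∧ w ∈ V \ colP V D s a g := by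
    intro u w k
    have k1 := pcgood_ends h hq hc hch hg k
    rcases k with ⟨rfl, rfl⟩ | k
    · exact ⟨mem_sdiff.2 ⟨a1, c2⟩, mem_sdiff.2 ⟨a3, c3⟩⟩
    · exact ⟨mem_sdiff.2 ⟨(h.mem _ _ k.1).1, k1.1⟩, mem_sdiff.2 ⟨(h.mem _ _ k.1).2, k1.2⟩⟩
  refine ⟨⟨mem_sdiff.2 ⟨h.root, c1⟩, mem, fun x k => ?_, fun y hy => ?_, fun y hy => ?_,
    fun u w k => ?_, fun u k => ?_⟩, fun k => pcgood_nsc h hq hc hch hg k
      ⟨av_refl a2, av_refl a2⟩, fun u => cy u _ rfl⟩
  · rcases k with ⟨rfl, e⟩ | k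
    · exact hg.pd.1 e
    · exact h.irr x k.1
  · obtain ⟨y1, y2⟩ := mem_sdiff.1 hy
    rcases h.cev_short hq hc hch hg c1 y2 (av_empty.2 (h.fwd y y1)) with k | ⟨k1, k2, -, k3, -⟩
    · exact av_empty.1 k
    by_cases k4 : Av D {a} s y
    · exact pbase_mono (pcgood_up h hq hc hch hg (B := {a}) rfl c1 k4).2.2 fun _ _ e => e.1
    have k5 : Av D {s} g y := not_not.1 fun k => y2 (mem_filter.2 ⟨y1, ⟨k2, k4⟩, k3, k⟩)
    rcases av_first {a} k5 with k | e | ⟨p, _, rfl, k6, k7, -⟩
    · exact ((av_empty.1 k1).tail (Or.inl ⟨rfl, rfl⟩)).trans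
        (pbase_mono (pcgood_up h hq hc hch hg (Or.inr rfl) c3 k).2.2 fun _ _ e => e.1)
    · exact (hg.pd.1 e.symm).elim
    · exact (hg.out ⟨a4 k5.1, (pbase_l k6).tail k7 a2⟩).elim
  · exact av_empty.1 (pcgood_root h hq hc hch hg (mem_sdiff.1 hy).2
      (av_empty.2 (h.bwd y (mem_sdiff.1 hy).1)))
  · rcases k with ⟨rfl, rfl⟩ | k
    · refine Or.inr ⟨Or.inl ⟨rfl, rfl⟩, fun k => ?_⟩
      rcases k.cases_head with e | ⟨p, ⟨e | e, k1⟩, -⟩
      · exact a2 e
      · exact k1 e
      · exact e.2.1 rfl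
    · exact (h.cr u w k.1).imp (d2 u w · (Or.inr k)) (d3 u w · (Or.inr k))
  · obtain ⟨z, z1, z2, z3, z4⟩ := h.dg u (cy u _ rfl k)
    have z5 := mt (cy u _ (Or.inl rfl)) z3
    obtain ⟨v, k1, k2⟩ := k
    have u1 := (mem _ _ k1).1
    have z6 : z ∈ V \ colP V D s a g := mem_sdiff.2 ⟨z4.elim
      (fun e => (h.av_of_dom (mem_sdiff.1 u1).1 z2 e).1)
      fun e => (h.rev.av_of_dom (mem_sdiff.1 u1).1 z2 (dom_rv.2 e)).1, fun e => z5 ⟨v, k1,
        (pcgood_out h hq hc hch hg (mem_sdiff.1 (mem _ _ k1).2).2 k2).mono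
          (by rintro _ (rfl | rfl); exacts [Or.inl rfl, Or.inr e]) fun _ _ e _ _ => e⟩⟩
    exact ⟨z, z1, z2, z5, z4.imp (d1 z z6 u u1).2.1 (d1 z z6 u u1).1.2⟩

theorem GR.cev_case (h : GR V D s) {q a b g : α} (hq : CycA D {s} q) (hc : CCase D s q)
    (hch : Chain D s q a b) (hg : Gate D s a g) {u : α} (hu : CycA (colD V D s a g) {s} u) :
    (CCase D s u ↔ CCase (colD V D s a g) s u) ∧
      (CCase (rv D) s u → CCase (colD V D s a g) s u ∨ CCase (rv (colD V D s a g)) s u) := by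
  obtain ⟨c1, c2, c3, c4, c5, c6, -, -, c9⟩ := h.cev_closed hq hc hch hg
  obtain ⟨d1, -⟩ := h.cev_dom hq hc hch hg
  obtain ⟨a1, a2, a3, a4⟩ := pcgood_basic h hq hc hch hg
  obtain ⟨h', -, -⟩ := h.cev_good hq hc hch hg
  have n1 := pcgood_nsc h hq hc hch hg hu
  have u0 := av_refl (D := D) hu.not_mem
  have u1 : u ∈ V \ colP V D s a g := hu.elim fun _ k => (h'.mem _ _ k.1).1
  obtain ⟨u2, u3⟩ := mem_sdiff.1 u1
  have u4 : u ≠ a := fun e => n1 (e ▸ ⟨av_refl hu.not_mem, av_refl hu.not_mem⟩)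
  have m1 : a ∈ V \ colP V D s a g := mem_sdiff.2 ⟨a1, c2⟩
  have sc : ∀ x, Sc (colD V D s a g) s u x → Sc D s u x := fun x k =>
    ⟨pcgood_exp h hq hc hch hg c1 k.1, pcgood_exp h hq hc hch hg c1 k.2⟩
  by_cases hK : Sc D s u a
  · have : CCase (colD V D s a g) s u := by
      by_cases e : g = s
      · refine Or.inl ⟨a, a2, n1, (d1 a m1 u u1).1.2 ⟨u4, fun k => ?_⟩⟩
        have k1 := (c9 e u hK.2).2.1.resolve_left fun e' => u3 (e' ▸ c4)
        have k2 : Av D {a} s u := not_not.1 fun k2 => u3 (mem_filter.2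
          ⟨u2, ⟨u4, k2⟩, e.symm ▸ dom_rv.1 (dom_root hu.not_mem), fun k3 => k3.1 e⟩)
        rcases av_first {b} k with k | e' | ⟨p, _, rfl, k3, k4, -⟩
        · exact k1.2 (pbase_r k)
        · exact k1.1 e'
        · exact hch.ab.2 (k2.trans ((pbase_l k3).tail k4 hch.ab.1))
      · have k1 : ¬ Sc D s u g := fun k => hg.out (hK.symm.trans k)
        refine Or.inl ⟨g, e, mt (sc g) k1, (d1 g (mem_sdiff.2 ⟨a3, c3⟩) u u1).1.2
          ⟨fun e' => k1 (e' ▸ ⟨u0, u0⟩), fun k => ?_⟩⟩
        exact hg.pd.2 ((pbase_r (pcgood_avoid (B := {s}) rfl k1 hK.1 hK.2 u0)).trans k)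
    exact ⟨iff_of_true (hc.of_sc (hch.sa.trans hK.symm)) this, fun _ => Or.inl this⟩
  have k1 : ∀ x, Sc D s u x → x ≠ a ∧ x ∉ colP V D s a g ∧ Sc (colD V D s a g) s u x := by
    intro x k
    obtain ⟨k2, k3⟩ := pcgood_up h hq hc hch hg (Or.inr rfl) u3 (pcgood_avoid (B := {s}) rfl hK u0 k.1 k.2)
    exact ⟨fun e => hK (e ▸ k), k2, pbase_l k3, pbase_l (pcgood_up h hq hc hch hg (Or.inr rfl) k2
      (pcgood_avoid (B := {s}) rfl hK k.1 k.2 u0)).2⟩
  have k2 : ∀ x, Sc (colD V D s a g) s u x ↔ Sc D s u x := fun x => ⟨sc x, fun k => (k1 x k).2.2⟩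
  have k3 : ∀ x y, Sc D s u x → (colD V D s a g x y ↔ D x y) := fun x y k =>
    ⟨fun e => (e.resolve_left fun e' => (k1 x k).1 e'.1).1,
      fun e => Or.inr ⟨e, (k1 x k).1, (k1 x k).2.1⟩⟩
  have k4 : ∀ z ∈ colP V D s a g, ∀ x y, x ∉ colP V D s a g → Av D {a} x y → Av D {z} x y :=
    fun z hz x y hx k => (pcgood_out h hq hc hch hg hx
      (pcgood_up h hq hc hch hg (B := {a}) rfl hx k).2).mono
      (by rintro _ rfl; exact Or.inr hz) fun _ _ e e' _ =>
        (e.resolve_left fun e'' => e' (Or.inl e''.1)).1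
  refine ⟨⟨?_, ?_⟩, fun k => Or.inr ?_⟩
  · rintro (⟨z, z1, z2, z3⟩ | ⟨z, z1, z2, z3⟩)
    · by_cases e : z ∈ colP V D s a g
      · exact Or.inl ⟨a, a2, n1, (d1 a m1 u u1).1.2 ⟨u4, fun k => z3.2 (k4 z e _ _ u3 k)⟩⟩
      · exact Or.inl ⟨z, z1, mt (sc z) z2, (d1 z (mem_sdiff.2
          ⟨(h.rev.av_of_dom u2 z1 (dom_rv.2 z3)).1, e⟩) u u1).1.2 z3⟩
    · exact Or.inr ⟨z, (k2 z).2 z1, (k3 z s z1).2 z2, fun x y x1 x2 x3 =>
        z3 x y (sc x x1) ((k3 x y (sc x x1)).1 x2) (mt (k2 y).2 x3)⟩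
  · rintro (⟨z, z1, z2, z3⟩ | ⟨z, z1, z2, z3⟩)
    · exact Or.inl ⟨z, z1, mt (k2 z).2 z2,
        (d1 z (h'.rev.av_of_dom u1 z1 (dom_rv.2 z3)).1 u u1).1.1 z3⟩
    · exact Or.inr ⟨z, sc z z1, (k3 z s (sc z z1)).1 z2, fun x y x1 x2 x3 =>
        z3 x y ((k2 x).2 x1) ((k3 x y x1).2 x2) (mt (sc y) x3)⟩
  · rcases k with ⟨z, z1, z2, z3⟩ | ⟨z, z1, z2, z3⟩
    · have z4 := pdom_rv.1 z3
      by_cases e : z ∈ colP V D s a g
      · exact Or.inl ⟨a, a2, mt sc_rv.1 n1,
          pdom_rv.2 ((d1 a m1 u u1).2.1 ⟨u4, fun k => z4.2 (k4 z e _ _ c1 k)⟩)⟩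
      · exact Or.inl ⟨z, z1, fun k => z2 (sc_rv.2 (sc z (sc_rv.1 k))), pdom_rv.2
          ((d1 z (mem_sdiff.2 ⟨(h.av_of_dom u2 z1 z4).1, e⟩) u u1).2.1 z4)⟩
    · refine Or.inr ⟨z, sc_rv.2 ((k2 z).2 (sc_rv.1 z1)), Or.inr ⟨z2, a2.symm, c1⟩,
        fun x y x1 x2 x3 => ?_⟩
      have x4 := sc x (sc_rv.1 x1)
      rcases x2 with ⟨rfl, rfl⟩ | x2
      · rcases av_first {w | Sc D s u w} (a4 x4.1.not_mem_right) with k | k | ⟨p, c, k5, k6, k7, -⟩
        · exact (k.not_mem_right (Or.inr x4)).elim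
        · exact (hK k).elim
        · exact (k6.not_mem_right (Or.inl (z3 c p (sc_rv.2 k5) k7
            fun k => k6.not_mem_right (Or.inr (sc_rv.1 k))).2)).elim
      · exact z3 x y (sc_rv.2 x4) x2.1 fun k => x3 (sc_rv.2 ((k2 y).2 (sc_rv.1 k)))

end Pool.Agent.Work.MP_5391ad_co
end

-- merged part: Pool.Agent.Work.MP_5391ad_co.PCev
section
/-! One column event as a datum, and the vertices it cannot delete.

`cev`: code from `exists_code` with `f = some p` iff `p ∈ P`, `D p g`, `IBr p g`, `pdom p a`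
(at most one such `p`: it is `b`; it is not an ear because `b` has two out-arcs: an out-arc inside
`K` exists and its head does not post-dominate `b`). `Y` = `TT ∪ H`. `nob`: an exit target `y`
with an out-bridge `(u, y)` dominates the tail `p` of the exit (`dom_of_obr_other`), so `y` and `a`
are comparable; `dom a y` and `dom y a` are impossible (for `dom a y`: `cev_reach` gives a walk
`s ⇝ a ⇝ p` avoiding `y`). Membership in `TT`: region from `cev_closed` and `cev_dom`; if `y ≠ a`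
has a unique entering arc `(u, y)` in `D1` it is `(a, g)` or an arc of `D` that is not an
out-bridge. `opn`: ear `e` with parent `u` and outside target `y`. `u = a` is impossible: `b`
post-dominates `y`, and as in `cev_closed` one gets `g ∈ K` or a cycle through `a` whose only
vertex dominated by `a` is `e`, so `e = z(a)` post-dominates `a` and `(a, e)` is an in-bridge. If
`u ∈ H` had a target arc `(u, w)` (in-bridge, not out-bridge, not forced), then `pdom u y`,
`y` is not dominated by `a`, so `y ⇝ u` meets `a`, `(u, w)` lies on all walks `a ⇝ s`; `w ∈ K`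
makes it an out-bridge (`pd`), `w ∉ K` makes `w = g` and the arc forced. `pos`: `tgt b = none`.
`uniq`: if the tail `u` of the unique entering arc of `x` is deleted, the arc is an out-bridge,
`x = g`, `u2 = a`; otherwise `x ≠ g` by `cev_bypass` and `u2 = u`.
`ext`: a walk `b ⇝ a` in `K` leaves `P` by an arc whose head is in `K`, so differs from `g`.

`cev_inert`: for an inert `a'` fix its walk; `a` lies on it only if `pdom a' a`, and then `g = a'`
or `pdom a' g` by `near` (`a' ∉ K`), so `a' ∉ P` and the walk can be shortcut. For the new mark: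
`q` is reached from `s` through vertices that are not cyclic column-case vertices, then continue
`q ⇝ a` up to the first `a` (all vertices post-dominated by `a`); this walk avoids `P`. -/

namespace Pool.Agent.Work.MP_5391ad_co

open Finset
open scoped Classical

variable {α : Type*} [Fintype α] {D : α → α → Prop} {s : α} {V : Finset α}

section aux

omit [Fintype α]

theorem pcev_keep {B C : Set α} {x y : α} (h : Av D B x y) (hC : ∀ c ∈ C, ¬ Av D B x c) :
    Av D C x y := by
  rcases av_first C h with k | k | ⟨p, c, k1, k2, k3, k4⟩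
  · exact pbase_r k
  · exact (hC x k (av_refl h.1)).elim
  · exact (hC c k1 ((pbase_l k2).tail k3 k4.1)).elim

/-- a walk ending at `y` up to the first visit of `y` -/
theorem pcev_first {B : Set α} {x y : α} (h : Av D B x y) (hxy : x ≠ y) :
    ∃ p, Av D (B ∪ {y}) x p ∧ D p y := by
  rcases av_first {y} h with k | k | ⟨p, _, rfl, k1, k2, -⟩
  · exact (k.not_mem_right (Or.inr rfl)).elim
  · exact (hxy k).elim
  · exact ⟨p, k1, k2⟩

theorem pcev_av {z x : α} (h : ¬ pdom D s z x) (hx : x ≠ z) : Av D {z} x s :=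
  not_not.1 fun k => h ⟨hx, k⟩

theorem pcev_asymm (h : GR V D s) {z x : α} (hx : x ∈ V) (h1 : pdom D s z x) : ¬ pdom D s x z :=
  fun h2 => h.rev.dom_asymm hx (dom_rv.2 h1) (dom_rv.2 h2)

theorem pcev_trans (h : GR V D s) {x y z : α} (hz : z ∈ V) (h1 : pdom D s x y)
    (h2 : pdom D s y z) : pdom D s x z :=
  dom_rv.1 (h.rev.dom_trans hz (dom_rv.2 h1) (dom_rv.2 h2))

theorem pcev_reach (h : GR V D s) {z x : α} (hx : x ∈ V) (hz : z ≠ s) (hd : pdom D s z x) :
    z ∈ V ∧ Av D {s} x z :=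
  (h.rev.av_of_dom hx hz (dom_rv.2 hd)).imp_right av_rv.1

theorem pcev_ibr (h : GR V D s) {u v : α} (h1 : IBr D s u v) : pdom D s v u :=
  dom_rv.1 (h.rev.dom_of_obr (obr_rv.2 h1))

theorem pcev_root {z : α} : ¬ pdom D s z s := fun k => k.2 (av_refl k.1)

/-- an arc cannot jump over a post-dominator -/
theorem pcev_jump (h : GR V D s) {p y g : α} (hg : g ∈ V) (h1 : pdom D s g p) (h2 : D p y) :
    ¬ pdom D s y g := fun h3 =>
  h1.2 (Av.head h1.1 h2 (pcev_av (pcev_asymm h hg h3) h3.1.symm))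

/-- a walk avoiding `u` does not use the arcs leaving `u` -/
theorem pcev_arc {u w x y : α} (h : Av D {u} x y) :
    Av (fun a b => D a b ∧ ¬ (a = u ∧ b = w)) ∅ x y :=
  h.mono (Set.empty_subset _) fun _ _ k1 k2 _ => ⟨k1, fun e => k2 e.1⟩

theorem pcev_split {R : α → α → Prop} (hR : ∀ a b, R a b → D a b) {x y z : α}
    (h : Av R ∅ x y) (hz : ¬ Av D {z} x y) : Av R ∅ z y := by
  rcases av_first {z} h with k | rfl | ⟨p, _, rfl, -, -, k⟩
  · exact (hz ((pbase_r k).mono le_rfl fun _ _ e _ _ => hR _ _ e)).elim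
  · exact h
  · exact k

theorem pcev_mem {a g x : α} : x ∈ colP V D s a g ↔
    x ∈ V ∧ dom D s a x ∧ pdom D s g x ∧ ¬ Av D {s} g x := mem_filter

variable {q a b g : α} (h : GR V D s) (hq : CycA D {s} q) (hc : CCase D s q)
  (hch : Chain D s q a b) (hg : Gate D s a g)

include h hq hch in
theorem pcev_a : a ∈ V ∧ a ≠ s ∧ b ∈ V ∧ b ≠ s := by
  obtain ⟨v, k, -⟩ := hq.of_sc hch.sa
  obtain ⟨w, k', -⟩ := hq.of_sc hch.sb
  exact ⟨(h.mem _ _ k).1, hch.sa.1.not_mem_right, (h.mem _ _ k').1, hch.sb.1.not_mem_right⟩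

include h hq hch hg in
theorem pcev_g : g ∈ V := by
  by_cases e : g = s
  · exact e ▸ h.root
  · exact (pcev_reach h (pcev_a h hq hch).1 e hg.pd).1

include h hq hch in
/-- `b` has an out-arc inside its component, and it is not the only out-arc -/
theorem pcev_b {y : α} (hy : ∀ w, D b w ↔ w = y) : False := by
  obtain ⟨v, k1, k2⟩ := hq.of_sc hch.sb
  obtain rfl := (hy v).1 k1
  refine hch.topb v (hch.sb.trans ⟨Av.head k2.not_mem_right k1 (av_refl k2.1), k2⟩)
    (pcev_ibr h (obr_rv.1 (h.rev.obr_of_unique (pcev_a h hq hch).2.2.2 hy)))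

include h hq hch hg in
theorem pcev_in {p : α} (hp : p ∈ colP V D s a g) (h1 : pdom D s p a) : Sc D s a p := by
  by_contra k
  have k1 := (pcev_mem.1 hp).2.2.1
  rcases hg.near p k h1 with rfl | k2
  · exact k1.1 rfl
  · exact pcev_asymm h (pcev_g h hq hch hg) k2 k1

include h hq hc hch hg

theorem pcev_eq {p : α} (hp : p ∈ colP V D s a g) (h1 : pdom D s p a) (h2 : D p g) : p = b := by
  have hb := (pcev_mem.1 (h.cev_closed hq hc hch hg).2.2.2.1).2.2.1
  rcases h.rev.dom_total (pcev_a h hq hch).1 (dom_rv.2 h1) (dom_rv.2 hch.ba) with k | k | k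
  · exact k
  · exact (hch.topb p (hch.sa.trans (pcev_in h hq hch hg hp h1)) (dom_rv.1 k)).elim
  · exact (pcev_jump h (pcev_a h hq hch).2.2.1 (dom_rv.1 k) h2 hb).elim

theorem pcev_forced {p y : α} (hp : p ∈ colP V D s a g) (hy : y ∉ colP V D s a g) (h1 : D p y)
    (h2 : OBr D s p y ∨ y = s) : p = b ∧ y = g ∧ IBr D s b g := by
  obtain ⟨k1, k2, k3⟩ := (h.cev_closed hq hc hch hg).2.2.2.2.2.2.1 p hp y hy h1 h2
  obtain rfl := pcev_eq h hq hc hch hg hp k3 k2.1
  exact ⟨rfl, k1, k2⟩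

theorem pcev_nob {p y u : α} (hp : p ∈ colP V D s a g) (hy : y ∉ colP V D s a g) (h1 : D p y)
    (h2 : ¬ OBr D s p y) (h3 : y ≠ a) : ¬ OBr D s u y := by
  intro k
  obtain ⟨p1, p2, -⟩ := pcev_mem.1 hp
  obtain ⟨a1, a2, -⟩ := pcev_a h hq hch
  refine (h.dom_of_obr_other k h1 fun e => h2 (e ▸ k)).2 (Av.trans (not_not.1 fun k1 => ?_)
    ((h.cev_reach hq hc hch hg hp).mono (by rintro _ rfl; exact ⟨hy, h3⟩) fun _ _ e _ _ => e))
  have k2 : dom D s y a := ⟨h3.symm, k1⟩
  exact hch.topa y (hch.sa.trans ⟨(h.av_of_dom p1 a2 p2).2.tail h1 k.ne_root,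
    (h.av_of_dom a1 k.ne_root k2).2⟩) k2

theorem pcev_out {y : α} : colD V D s a g a y ↔ y = g := by simp [colD]

theorem pcev_tt {p y : α} (hp : p ∈ colP V D s a g) (hy : y ∉ colP V D s a g) (h1 : D p y)
    (h2 : ¬ OBr D s p y) (h3 : y ≠ s) : y ∈ TT (V \ colP V D s a g) (colD V D s a g) s a := by
  obtain ⟨-, c2, c3, -, -, -, -, c8, -⟩ := h.cev_closed hq hc hch hg
  obtain ⟨d1, -, d3, -⟩ := h.cev_dom hq hc hch hg
  have h1' := (h.cev_good hq hc hch hg).1
  obtain ⟨a1, a2, -⟩ := pcev_a h hq hch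
  have hy1 := mem_sdiff.2 ⟨(h.mem _ _ h1).2, hy⟩
  refine mem_filter.2 ⟨hy1, or_iff_not_imp_left.2 fun h4 =>
    ⟨h3, ?_, g, fun _ => pcev_out h hq hc hch hg, ?_⟩⟩
  · obtain ⟨u, hu⟩ := h1'.exists_in hy1 h3
    refine Or.inr ⟨u, ?_⟩
    rcases id hu with ⟨rfl, rfl⟩ | ⟨k, -⟩
    · exact obr_rv.1 (h1'.rev.obr_of_unique a2 fun _ => pcev_out h hq hc hch hg)
    · exact d3 u y ((h.cr u y k).resolve_left (pcev_nob h hq hc hch hg hp hy h1 h2 h4)) hu
  · refine (c8 p hp y hy h1 h3).imp (And.imp_right (Or.imp_right ?_)) (And.imp_right fun k => ?_)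
    · exact (d1 g (mem_sdiff.2 ⟨pcev_g h hq hch hg, c3⟩) y hy1).1.2
    · exact (d1 a (mem_sdiff.2 ⟨a1, c2⟩) y hy1).1.2 (k.resolve_left h4)

omit hc in
/-- a vertex outside `P`, post-dominated by a vertex of `P`, is not dominated by `a` -/
theorem pcev_nd {u y : α} (hu : u ∈ colP V D s a g) (hy : y ∉ colP V D s a g) (hV : y ∈ V)
    (hs : u ≠ s) (h1 : pdom D s u y) : y = a ∨ Av D {a} s y := by
  obtain ⟨-, -, u2, u3⟩ := pcev_mem.1 hu
  by_contra! k
  exact hy (pcev_mem.2 ⟨hV, k, pcev_trans h hV u2 h1,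
    fun k1 => u3 (k1.trans (pcev_reach h hV hs h1).2)⟩)

theorem pcev_ear {e y : α} (he : e ∈ colP V D s a g) (hy : y ∉ colP V D s a g)
    (h1 : ∀ w, D w e ↔ w = a) (h2 : ∀ w, D e w ↔ w = y) : IBr D s a e := by
  obtain ⟨c1, c2, -, c4, -⟩ := h.cev_closed hq hc hch hg
  obtain ⟨a1, a2, b1, b2⟩ := pcev_a h hq hch
  have k1 := (h1 a).2 rfl
  have k2 := (h2 y).2 rfl
  have k3 : pdom D s b y := ⟨fun e => hy (e ▸ c4), fun k => hch.ba.2 (Av.head hch.ba.1 k1
    (Av.head (fun e' : e = b => pcev_b h hq hch (e' ▸ h2)) k2 k))⟩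
  have k4 := (pcev_reach h (h.mem _ _ k2).2 b2 k3).2.trans (hch.sb.2.trans hch.sa.1)
  obtain ⟨z, z1, z2, z3, z4⟩ := h.dg a (hq.of_sc hch.sa)
  have z5 : Sc D s a z := by
    obtain ⟨v, v1, v2⟩ := hq.of_sc hch.sa
    rcases av_first {z} v2 with k | rfl | ⟨p, _, rfl, k5, k6, k7⟩
    · exact (z3 ⟨v, v1, k⟩).elim
    · exact ⟨Av.head a2 v1 (av_refl z2), v2⟩
    · exact ⟨Av.head a2 v1 ((pbase_l k5).tail k6 z2), k7⟩
  have z6 := z4.resolve_left (hch.topa z (hch.sa.trans z5))
  have z7 := hch.pd z (hch.sa.trans z5) z6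
  have z8 : a ∉ ({s, z} : Set α) := fun k => k.elim a2 z1.symm
  have k5 : Av D {s, z} y a := by
    by_cases e' : y = a
    · rw [e']
      exact av_refl z8
    · obtain ⟨p, k5, k6⟩ := pcev_first k4 e'
      refine (pcev_keep k5 ?_).tail k6 z8
      rintro _ (rfl | rfl) k
      · exact k.not_mem_right (Or.inl rfl)
      · exact z7.2 (((pcev_nd h hq hch hg c4 hy (h.mem _ _ k2).2 b2 k3).resolve_left e').trans
          (pbase_r k))
  obtain rfl : e = z := by_contra fun e' =>
    z3 ⟨e, k1, Av.head (fun k => k.elim (fun k => c1 (k ▸ he)) e') k2 k5⟩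
  exact ⟨k1, fun k => z6.2 ⟨z6.1, pbase_mono k fun x x' k' =>
    ⟨k'.1, fun e' => k'.2 ⟨(h1 x).1 (e' ▸ k'.1), e'⟩⟩⟩⟩

theorem pcev_opn {e y u w : α} (hu : u ∈ colP V D s a g) (hy : y ∉ colP V D s a g) (h1 : D u e)
    (h2 : D e y) (h3 : IBr D s u w) (h4 : ¬ OBr D s u w) (h5 : e ≠ w) : u = b ∧ w = g := by
  obtain ⟨c1, c2, -⟩ := h.cev_closed hq hc hch hg
  obtain ⟨a1, a2, -⟩ := pcev_a h hq hch
  obtain ⟨-, u1, u2, -⟩ := pcev_mem.1 hu
  have hV := (h.mem _ _ h2).2
  have us : u ≠ s := fun e => c1 (e ▸ hu)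
  have k1 : pdom D s u y := ⟨fun e => hy (e ▸ hu), fun k => h3.2 (.head ⟨h1, fun e => h5 e.2⟩
    (av_empty.1 (pcev_arc (Av.head (fun e' : e = u => h.irr u (e' ▸ h1)) h2 k))))⟩
  have k2 : pdom D s u a := by
    rcases pcev_nd h hq hch hg hu hy hV us k1 with rfl | k
    · exact k1
    refine ⟨u1.1.symm, fun k2 => ?_⟩
    obtain ⟨p, k3, k4⟩ := pcev_first (pcev_reach h hV us k1).2 k1.1
    refine u1.2 (k.trans ((pcev_keep k3 ?_).tail k4 u1.1))
    rintro _ rfl k5
    exact k1.2 ((pbase_r k5).trans k2)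
  have k3 := pcev_ibr h h3
  have k4 := pcev_trans h a1 k3 k2
  by_cases k5 : Sc D s a w
  · refine (h4 ⟨h3.1, fun k => h3.2 (av_empty.1 (pcev_split (fun _ _ e => e.1) ?_ k2.2))⟩).elim
    exact (pcev_split (fun _ _ e => e.1) (av_empty.2 k) (hch.pd w (hch.sa.trans k5) k4).2).trans
      (pcev_arc (pcev_av (pcev_asymm h (h.mem _ _ h1).1 k3) k3.1.symm))
  · obtain rfl := (hg.near w k5 k4).resolve_right (pcev_jump h (pcev_g h hq hch hg) u2 h3.1)
    exact ⟨pcev_eq h hq hc hch hg hu k2 h3.1, rfl⟩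

theorem pcev_pos {y : α} (h1 : IBr D s b y) : y = g := by
  have k := pcev_ibr h h1
  exact (hg.near y (fun e => hch.topb y (hch.sa.trans e) k)
    (pcev_trans h (pcev_a h hq hch).1 k hch.ba)).resolve_right (pcev_jump h (pcev_g h hq hch hg)
      (pcev_mem.1 (h.cev_closed hq hc hch hg).2.2.2.1).2.2.1 h1.1)

theorem pcev_ext : ∃ p ∈ colP V D s a g, ∃ y, y ∉ colP V D s a g ∧ D p y ∧ y ≠ g := by
  obtain ⟨-, c2, -, c4, -⟩ := h.cev_closed hq hc hch hg
  have k := hch.sa.symm.trans hch.sb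
  rcases av_first {x | x ∉ colP V D s a g} k.2 with k1 | k1 | ⟨p, y, k1, k2, k3, k4⟩
  · exact (k1.not_mem_right (Or.inr c2)).elim
  · exact (k1 c4).elim
  · exact ⟨p, not_not.1 fun e => k2.not_mem_right (Or.inr e), y, k1, k3,
      fun e => hg.out (e ▸ ⟨k.1.trans ((pbase_l k2).tail k3 k4.1), k4⟩)⟩

theorem pcev_uniq {x u : α} (hx : ∀ w, D w x ↔ w = u) (h1 : u ∉ colP V D s a g) (h2 : u ≠ a)
    (w : α) : colD V D s a g w x ↔ w = u := by
  refine ⟨?_, fun e => Or.inr ⟨(hx _).2 e, e ▸ h2, e ▸ h1⟩⟩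
  rintro (⟨-, rfl⟩ | k)
  · have k := h.cev_bypass hq hc hch hg h1 h2 fun e => h.irr u (e ▸ (hx u).2 rfl)
    rcases k.2.cases_tail with e | ⟨p, k1, k2⟩
    · exact (hg.pd.1 e.symm).elim
    · exact (Av.not_mem_right ⟨k.1, k1⟩ ((hx p).1 k2.1)).elim
  · exact (hx w).1 k.1

theorem pcev_inert {a' : α} (h1 : a' ∈ V \ colP V D s a g) (h2 : ¬ CycA (colD V D s a g) {s} a')
    (h3 : Av (colD V D s a g)
      {x | x ≠ a' ∧ ¬ pdom D s a' x ∧ CycA D {s} x ∧ CCase D s x} s a') :
    Inert (colD V D s a g) s a' := by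
  obtain ⟨g1, -, g3⟩ := h.cev_good hq hc hch hg
  refine ⟨h2, h3.mono (fun x ⟨x1, x2, x3, x4⟩ => ⟨x1, fun k => x2 ?_, g3 x x3,
    (h.cev_case hq hc hch hg x3).1.2 x4⟩) fun _ _ k _ _ => k⟩
  obtain ⟨v, k1, -⟩ := x3
  exact ((h.cev_dom hq hc hch hg).1 a' h1 x (g1.mem _ _ k1).1).1.2 k

end aux

theorem pcev_count {a g : α} :
    narc D + 1 ≤ narc (colD V D s a g) +
      (univ.filter fun p : α × α => (p.1 ∈ colP V D s a g ∨ p.1 = a) ∧ D p.1 p.2).card := by
  have h1 : narc D ≤ (univ.filter fun p : α × α => D p.1 p.2 ∧ p.1 ≠ a ∧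
      p.1 ∉ colP V D s a g).card + (univ.filter fun p : α × α =>
        (p.1 ∈ colP V D s a g ∨ p.1 = a) ∧ D p.1 p.2).card := by
    refine le_trans (card_le_card fun p hp => ?_) (card_union_le _ _)
    simp only [mem_union, mem_filter, mem_univ, true_and] at hp ⊢
    tauto
  have h2 : (univ.filter fun p : α × α => D p.1 p.2 ∧ p.1 ≠ a ∧ p.1 ∉ colP V D s a g).card <
      narc (colD V D s a g) := by
    refine card_lt_card ((ssubset_iff_of_subset fun p hp => ?_).2 ⟨(a, g), ?_, by simp⟩)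
    · exact mem_filter.2 ⟨mem_univ _, Or.inr (mem_filter.1 hp).2⟩
    · exact mem_filter.2 ⟨mem_univ _, Or.inl ⟨rfl, rfl⟩⟩
  omega

theorem GR.cev (h : GR V D s) {q a b g : α} (hq : CycA D {s} q) (hc : CCase D s q)
    (hch : Chain D s q a b) (hg : Gate D s a g) :
    ∃ c : OCode α, CDat V D s (V \ colP V D s a g) (colD V D s a g) {a} (fun _ => g)
      (fun _ => colP V D s a g) (fun _ => c) := by
  obtain ⟨c1, c2, c3, c4, c5, c6, -, c8, c9⟩ := h.cev_closed hq hc hch hg
  obtain ⟨d1, d2, d3, -, d5⟩ := h.cev_dom hq hc hch hg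
  obtain ⟨a1, a2, b1, b2⟩ := pcev_a h hq hch
  have hPV : colP V D s a g ⊆ V := filter_subset _ _
  have hb : ¬ IsEar D s b := fun ⟨_, _, _, k, _⟩ => pcev_b h hq hch k
  obtain ⟨f, hf⟩ : ∃ f : Option α, ∀ x, f = some x ↔ x = b ∧ IBr D s b g := by
    by_cases k : IBr D s b g
    · exact ⟨some b, by simp [k, eq_comm]⟩
    · exact ⟨none, by simp [k]⟩
  obtain ⟨c, v0, -, vH, vp, vt, vi, va, vc⟩ := h.exists_code
    (Y := TT (V \ colP V D s a g) (colD V D s a g) s a) (f := f) hPV c1 c2 c3 c5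
    (fun y k => Or.inl (c6 y k))
    (fun x k => by
      obtain ⟨rfl, k1⟩ := (hf x).1 k
      exact ⟨k1.1, Or.inr ⟨c4, hb⟩⟩)
    fun x hx y hy k => by
      by_cases k1 : OBr D s x y ∨ y = s
      · obtain ⟨k2, k3, k4⟩ := pcev_forced h hq hc hch hg hx hy k k1
        exact Or.inl ⟨(hf x).2 ⟨k2, k4⟩, k3⟩
      · rw [not_or] at k1
        exact Or.inr ⟨pcev_tt h hq hc hch hg hx hy k k1.1 k1.2, k1.1⟩
  have hY : ∀ p y, c.tgt p = some y → y ∉ c.H → y ∉ colP V D s a g := fun p y k1 k2 =>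
    (mem_sdiff.1 (mem_filter.1 ((v0.tgtm p y k1).resolve_left k2)).1).2
  have ha1 := mem_sdiff.2 ⟨a1, c2⟩
  have hval : ValC a (colP V D s a g) (TT (V \ colP V D s a g) (colD V D s a g) s a ∪
      ({a} : Finset α).biUnion fun _ => c.H) c := by
    refine ⟨{ v0 with tgtm := fun x y k => (v0.tgtm x y k).imp_right (mem_union_left _) },
      fun e he k1 y k2 k3 => ?_, ?_, ?_⟩
    · obtain ⟨u, y', e1, e2, e3, -⟩ : IsEar D s e := not_not.1 fun k => k1 ((vH e).2 ⟨he, k⟩)
      obtain rfl := (e2 y).1 ((vt e y).1 k2).2.1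
      have k4 := h.obr_of_unique (ne_of_mem_of_not_mem he c1) e1
      have k5 := (vp u e).2 ⟨he, k4⟩
      rcases v0.parm e u k5 with k6 | rfl
      · refine ⟨u, k6, k5, Option.eq_none_iff_forall_ne_some.2 fun w k7 => ?_⟩
        obtain ⟨k8, k9⟩ := vi u w k7
        obtain ⟨rfl, rfl⟩ := pcev_opn h hq hc hch hg (v0.sub k6) (hY e y k2 k3) k4.1
          ((e2 y).2 rfl) k8 k9 fun e' => k9 (e' ▸ k4)
        exact ((vt _ _).1 k7).2.2.2 ⟨(hf _).2 ⟨rfl, k8⟩, rfl⟩
      · exact (e3 (pcev_ear h hq hc hch hg he (hY e y k2 k3) e1 e2)).elim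
    · refine le_add_left (card_pos.2 ⟨b, mem_filter.2 ⟨(vH b).2 ⟨c4, hb⟩,
        Option.eq_none_iff_forall_ne_some.2 fun y k => ?_⟩⟩)
      obtain rfl := pcev_pos h hq hc hch hg (vi b y k).1
      exact ((vt _ _).1 k).2.2.2 ⟨(hf _).2 ⟨rfl, (vi b y k).1⟩, rfl⟩
    · obtain ⟨p, k1, y, k2, k3, k4⟩ := pcev_ext h hq hc hch hg
      exact ⟨p, y, (vt p y).2 ⟨k1, k3, fun k => k2 k.1, fun k => k4 k.2⟩, fun k => k2 (v0.sub k)⟩
  refine ⟨c,
    { mk2 := singleton_subset_iff.2 (mem_erase.2 ⟨a2, ha1⟩)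
      out := fun _ k _ => mem_singleton.1 k ▸ pcev_out h hq hc hch hg
      sub := sdiff_subset
      part := by rw [singleton_biUnion, Finset.sdiff_sdiff_eq_self hPV]
      disj := fun _ k1 _ k2 k3 => (k3 ((mem_singleton.1 k1).trans (mem_singleton.1 k2).symm)).elim
      val := fun _ k => mem_singleton.1 k ▸ hval
      arcs := fun u w => ?_
      good := (h.cev_good hq hc hch hg).1
      pdm := fun z hz w hw => (d1 z hz w hw).1
      dmu := fun z hz w hw => (d1 z hz w hw).2.1
      dmg := fun z hz w hw k => ((d1 z hz w hw).2.2 k).imp_right And.right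
      ob := d2
      ib := d3
      av := fun _ _ _ _ => col_expand fun k _ => (pcev_reach h a1 k hg.pd).2
      loc := ?_
      obx := d5
      nob := ?_
      reg := ?_
      earn := fun _ _ e he k1 u k2 => ?_
      tno := fun _ _ p y k => (vi p y k).2
      uniq := fun x hx xs u hu => ?_
      cc := fun u k => (h.cev_case hq hc hch hg k).1.1
      rc := fun u k => (h.cev_case hq hc hch hg k).2
      snk := fun x hx y => ?_
      src := fun x hx => pcev_uniq h hq hc hch hg hx c1 a2.symm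
      defi := ?_ }⟩
  · simp only [mem_singleton, exists_eq_left, va, colD]
    (clear * - c9; tauto)
  · simp only [mem_singleton, forall_eq]
    refine ⟨hq.of_sc hch.sa, by_contra fun k => ?_, Or.inl ⟨b, b2, hch.ba⟩, hg.pd, fun y hy => ?_⟩
    · obtain ⟨p, k1, k2⟩ := cycA_rv.2 (hq.of_sc hch.sa)
      exact hch.topa p (hch.sa.trans ⟨av_rv.1 k2, Av.head k2.1 k1 (av_refl a2)⟩)
        (h.dom_of_obr (h.obr_of_unique a2 fun w =>
          ⟨fun k3 => not_not.1 fun e => k ⟨w, p, e, k3, k1⟩, fun e => e ▸ k1⟩))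
    · obtain ⟨y1, y2, y3, -⟩ := pcev_mem.1 hy
      have k := (h.av_of_dom y1 a2 y2).2
      refine ⟨?_, y3, k⟩
      by_cases e : g = s
      · obtain ⟨-, rfl | k1, k2⟩ := c9 e y k
        · exact Or.inr k2
        · exact Or.inl ⟨b, b2, k1⟩
      · exact Or.inl ⟨g, e, y3⟩
  · simp only [mem_singleton, forall_eq]
    exact fun p y k1 k2 => or_iff_not_imp_left.2 fun k3 u => pcev_nob h hq hc hch hg
      ((vt p y).1 k1).1 (hY p y k1 k2) (vi p y k1).1.1 (vi p y k1).2 k3
  · simp only [mem_singleton, forall_eq]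
    intro p y k1 k2
    obtain ⟨k3, k4, -, k5⟩ := (vt p y).1 k1
    have k6 : y ≠ s := fun e => by
      obtain ⟨k7, k8, k9⟩ := pcev_forced h hq hc hch hg k3 (hY p y k1 k2) k4 (Or.inr e)
      exact k5 ⟨(hf p).2 ⟨k7, k9⟩, k8⟩
    exact ⟨k6, c8 p k3 y (hY p y k1 k2) k4 k6⟩
  · obtain ⟨u', -, e1, -, e3, -⟩ : IsEar D s e := not_not.1 fun k => k1 ((vH e).2 ⟨he, k⟩)
    exact (e1 u).1 ((vp u e).1 k2).2.1 ▸ e3
  · have k1 := (hu u).2 rfl
    have x1 := (mem_sdiff.1 hx).2
    by_cases k2 : u ∈ colP V D s a g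
    · obtain ⟨-, rfl, -⟩ := pcev_forced h hq hc hch hg k2 x1 k1 (Or.inl (h.obr_of_unique xs hu))
      refine ⟨a, fun w => ⟨?_, fun e => Or.inl ⟨e, rfl⟩⟩,
        iff_of_false (fun e => c1 (e ▸ k2)) a2, fun y hy k3 => Or.inr ((d1 a ha1 y hy).2.1 ?_)⟩
      · rintro (k | k)
        · exact k.1
        · exact (k.2.2 ((hu w).1 k.1 ▸ k2)).elim
      · exact h.dom_trans (mem_sdiff.1 hy).1 (pcev_mem.1 k2).2.1
          (k3.resolve_left fun e => (mem_sdiff.1 hy).2 (e ▸ k2))
    · exact ⟨u, pcev_uniq h hq hc hch hg hu k2 fun e => x1 (c6 x (e ▸ k1)).1, Iff.rfl,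
        fun y hy => Or.imp_right (d1 u (mem_sdiff.2 ⟨(h.mem _ _ k1).1, k2⟩) y hy).2.1⟩
  · have k1 := (hx s).2 rfl
    have k2 : x ≠ a := fun e => c1 (c6 s (e ▸ k1)).1
    have k3 : x ∉ colP V D s a g := fun k =>
      pcev_b h hq hch ((pcev_forced h hq hc hch hg k c1 k1 (Or.inr rfl)).1 ▸ hx)
    simp only [colD, k2, k3, hx y, false_and, false_or, ne_eq, not_false_iff, and_true]
  · have k1 := pcev_count (V := V) (D := D) (s := s) (a := a) (g := g)
    have k2 := card_sdiff_add_card_eq_card hPV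
    rw [sum_singleton]
    omega

omit [Fintype α] in
theorem GR.cev_inert (h : GR V D s) {q a b g : α} (hq : CycA D {s} q) (hc : CCase D s q)
    (hch : Chain D s q a b) (hg : Gate D s a g) :
    (∀ a' ∈ V, Inert D s a' → a' ∉ colP V D s a g ∧ Inert (colD V D s a g) s a') ∧
    ((∃ p, D p q ∧ Av D {x | CycA D {s} x ∧ CCase D s x} s p) →
      Inert (colD V D s a g) s a) := by
  obtain ⟨c1, c2, c3, -⟩ := h.cev_closed hq hc hch hg
  obtain ⟨-, g2, g3⟩ := h.cev_good hq hc hch hg
  obtain ⟨a1, a2, -⟩ := pcev_a h hq hch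
  have ha := hq.of_sc hch.sa
  refine ⟨fun a' h1 ⟨h2, h3⟩ => ?_, fun ⟨p, h1, h2⟩ => ?_⟩
  · have k1 : a' ≠ a := fun e => h2 (e ▸ ha)
    have k2 : pdom D s a' a → a' = g ∨ ¬ pdom D s g a' := fun k =>
      (hg.near a' (fun e => h2 (ha.of_sc e)) k).imp_right (pcev_asymm h (pcev_g h hq hch hg))
    have k3 : a' ∉ colP V D s a g := fun k => by
      obtain ⟨-, k4, k5, -⟩ := pcev_mem.1 k
      refine k4.2 (h3.mono ?_ fun _ _ e _ _ => e)
      rintro _ rfl
      exact ⟨k1.symm, fun k6 => (k2 k6).elim k5.1 fun e => e k5, ha, hc.of_sc hch.sa⟩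
    refine ⟨k3, pcev_inert h hq hc hch hg (mem_sdiff.2 ⟨h1, k3⟩) (mt (g3 a') h2)
      ((h.cev_short hq hc hch hg c1 k3 h3).resolve_right fun ⟨k4, _, k5, k6, _⟩ => ?_)⟩
    exact k4.not_mem_right
      ⟨k1.symm, fun k7 => (k2 k7).elim k5 fun e => e k6, ha, hc.of_sc hch.sa⟩
  · refine pcev_inert h hq hc hch hg (mem_sdiff.2 ⟨a1, c2⟩) g2
      ((h.cev_short hq hc hch hg c1 c2 ?_).resolve_right fun k => k.2.1 rfl)
    have k1 : Av D {x | x ≠ a ∧ ¬ pdom D s a x ∧ CycA D {s} x ∧ CCase D s x} q a := by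
      by_cases e : q = a
      · exact e ▸ av_refl fun k => k.1 rfl
      · obtain ⟨r, k1, k2⟩ := pcev_first hch.sa.1 e
        refine (pcev_keep k1 fun x hx k => hx.2.1 ⟨hx.1, fun k3 => ?_⟩).tail k2 fun k => k.1 rfl
        exact (hch.qa.resolve_left (Ne.symm e)).2 ((pbase_r k).trans k3)
    exact ((h2.mono (fun x hx => hx.2.2) fun _ _ e _ _ => e).tail h1 k1.1).trans k1

end Pool.Agent.Work.MP_5391ad_co
end

-- merged part: Pool.Agent.Work.MP_5391ad_co.PGph
section
/-! The link phase: repeat link events while some cyclic vertex is in neither case.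
Induction on the number of vertices with `CycA D {s}`. `GDat.cons` glues the first event to the
rest: `x` and `x'` are not deleted and `x ∉ M`, `x' ∉ nx '' M` because of `loc` (a vertex whose only
out-arc goes to `s` has no post-dominator other than `s`; a vertex whose only in-arc comes from
`s` has no dominator other than `s`). New data: `Function.update`. The ends `Snk`, `Src` of the
first event persist (use `arcs` and `Val0` of the second datum: code arcs have their tail in
`P y ∪ {y}` and their head in `P y ∪ {nx y}`). -/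

namespace Pool.Agent.Work.MP_5391ad_co

open Finset
open scoped Classical

variable {α : Type*} [Fintype α] {D : α → α → Prop} {s : α} {V : Finset α}

theorem GDat.refl (h : GR V D s) (c : OCode α) :
    GDat V D s V D ∅ (fun x => x) (fun _ => ∅) (fun _ => c) where
  inj := by simp
  ends := by simp
  sub := Subset.rfl
  part := by simp
  disj := by simp
  val := by simp
  arcs := by simp
  good := h
  dm := fun _ _ _ _ h => h
  pdm := fun _ _ _ _ h => h
  loc := by simp
  defi := by simp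

omit [Fintype α] in
theorem pgph_arc {a g u w : α} {P : Finset α} {c : OCode α} (h : Val0 a P {g} c)
    (ha : c.arc g u w) : (u ∈ P ∨ u = a) ∧ (w ∈ P ∨ w = g) := by
  rcases ha with ha | ha | ⟨ha, rfl⟩
  · refine ⟨(h.parm _ _ ha).imp_left fun hu => h.sub hu, Or.inl ?_⟩
    by_contra hw
    rw [(h.out w hw).1] at ha
    cases ha
  · refine ⟨Or.inl ?_, (h.tgtm _ _ ha).imp (fun hu => h.sub hu) mem_singleton.1⟩
    by_contra hu
    rw [(h.out u hu).2] at ha
    cases ha
  · exact ⟨(h.frcm _ ha).imp_left fun hu => h.sub hu, Or.inr rfl⟩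

omit [Fintype α] in
theorem pgph_snk {x z : α} (h : D x s) (hz : z ≠ s) : ¬ pdom D s z x := fun hp =>
  hp.2 ((av_refl (B := {z}) hp.1).tail h hz.symm)

omit [Fintype α] in
theorem pgph_src {x z : α} (h : D s x) (hz : z ≠ s) : ¬ dom D s z x := fun hp =>
  hp.2 ((av_refl (B := {z}) hz.symm).tail h hp.1)

theorem GDat.cons (h : GR V D s) {V1 V2 X M : Finset α} {D1 D2 : α → α → Prop} {x x' : α}
    {c0 : OCode α} {nx : α → α} {P : α → Finset α} {c : α → OCode α}
    (h1 : GDat V D s V1 D1 {x} (fun _ => x') (fun _ => X) (fun _ => c0))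
    (h2 : GDat V1 D1 s V2 D2 M nx P c) :
    GDat V D s V2 D2 (insert x M) (Function.update nx x x') (Function.update P x X)
      (Function.update c x c0) := by
  have _ := h
  have hx := mem_singleton_self x
  obtain ⟨e1, e2⟩ := h1.ends x hx
  obtain ⟨l1, l2, l3, l4, l5⟩ := h1.loc x hx
  have hxs : D1 x s := (e1 s).2 rfl
  have hsx : D1 s x' := (e2 s).2 rfl
  have hxM : x ∉ M := fun hm => pgph_snk hxs (h2.loc x hm).2.1 (h2.loc x hm).2.2.1
  have hne : ∀ y ∈ M, y ≠ x := fun y hy e => hxM (e ▸ hy)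
  have hxP : ∀ y ∈ M, x ∉ P y := fun y hy hm =>
    pgph_snk hxs (h2.loc y hy).2.1 ((h2.loc y hy).2.2.2.2 x hm).1
  have hx'n : ∀ y ∈ M, x' ≠ nx y := fun y hy e =>
    pgph_src hsx (h2.loc y hy).1 (e ▸ (h2.loc y hy).2.2.2.1)
  have hx'P : ∀ y ∈ M, x' ∉ P y := fun y hy hm =>
    pgph_src hsx (h2.loc y hy).1 ((h2.loc y hy).2.2.2.2 x' hm).2
  have harc : ∀ y ∈ M, ∀ u w, (c y).arc (nx y) u w → u ≠ x ∧ w ≠ x' := fun y hy u w ha => by
    obtain ⟨a1, a2⟩ := pgph_arc (h2.val y hy) ha
    refine ⟨?_, ?_⟩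
    · rintro rfl
      exact a1.elim (hxP y hy) fun e => hxM (e ▸ hy)
    · rintro rfl
      exact a2.elim (hx'P y hy) (hx'n y hy)
  have hP : ∀ y ∈ M, P y ⊆ V1 := fun y hy z hz =>
    (mem_sdiff.1 (h2.part ▸ mem_biUnion.2 ⟨y, hy, hz⟩ : z ∈ V1 \ V2)).1
  have hM : ∀ y ∈ M, y ∈ V1 ∧ nx y ∈ V1 := fun y hy =>
    ⟨h2.sub (h2.good.mem _ _ (((h2.ends y hy).1 s).2 rfl)).1,
      h2.sub (h2.good.mem _ _ (((h2.ends y hy).2 s).2 rfl)).2⟩
  have hX : V \ V1 = X := by rw [h1.part, singleton_biUnion]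
  have u1 : ∀ y ∈ M, Function.update nx x x' y = nx y := fun y hy =>
    Function.update_of_ne (hne y hy) _ _
  have u2 : ∀ y ∈ M, Function.update P x X y = P y := fun y hy =>
    Function.update_of_ne (hne y hy) _ _
  have u3 : ∀ y ∈ M, Function.update c x c0 y = c y := fun y hy =>
    Function.update_of_ne (hne y hy) _ _
  have hd : ∀ y ∈ M, Disjoint X (P y) := fun y hy =>
    hX ▸ sdiff_disjoint.mono_right (hP y hy)
  refine
    { inj := ?_, ends := ?_, sub := h2.sub.trans h1.sub, part := ?_, disj := ?_, val := ?_,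
      arcs := ?_, good := h2.good
      dm := fun z hz w hw hd => h1.dm z (h2.sub hz) w (h2.sub hw) (h2.dm z hz w hw hd)
      pdm := fun z hz w hw hd => h1.pdm z (h2.sub hz) w (h2.sub hw) (h2.pdm z hz w hw hd)
      loc := ?_, defi := ?_ }
  · intro a ha b hb e
    rcases mem_insert.1 (mem_coe.1 ha) with ha' | ha' <;>
      rcases mem_insert.1 (mem_coe.1 hb) with hb' | hb'
    · rw [ha', hb']
    · rw [ha', Function.update_self, u1 b hb'] at e
      exact absurd e (hx'n b hb')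
    · rw [hb', Function.update_self, u1 a ha'] at e
      exact absurd e.symm (hx'n a ha')
    · rw [u1 a ha', u1 b hb'] at e
      exact h2.inj ha' hb' e
  · intro y hy
    rcases mem_insert.1 hy with rfl | hy
    · rw [Function.update_self]
      refine ⟨fun w => ?_, fun u => ?_⟩
      · rw [← e1 w, h2.arcs]
        refine ⟨fun hw => Or.inr ⟨hw, hxM, fun hc => l1 hc.1⟩, ?_⟩
        rintro (⟨z, hz, ha⟩ | hw)
        · exact absurd rfl (harc z hz _ _ ha).1
        · exact hw.1
      · rw [← e2 u, h2.arcs]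
        refine ⟨fun hw => Or.inr ⟨hw, fun hu => l2 (((h2.ends u hu).1 x').1 hw), ?_⟩, ?_⟩
        · rintro ⟨-, z, hz, e⟩
          exact hx'n z hz e
        · rintro (⟨z, hz, ha⟩ | hw)
          · exact absurd rfl (harc z hz _ _ ha).2
          · exact hw.1
    · rw [u1 y hy]
      exact h2.ends y hy
  · rw [biUnion_insert, Function.update_self, biUnion_congr rfl u2, ← h2.part, ← hX]
    exact (sdiff_union_sdiff_cancel h1.sub h2.sub).symm
  · intro a ha b hb hab
    rcases mem_insert.1 ha with ha' | ha' <;> rcases mem_insert.1 hb with hb' | hb'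
    · exact absurd (ha'.trans hb'.symm) hab
    · rw [ha', Function.update_self, u2 b hb']
      exact hd b hb'
    · rw [hb', Function.update_self, u2 a ha']
      exact (hd a ha').symm
    · rw [u2 a ha', u2 b hb']
      exact h2.disj a ha' b hb' hab
  · intro y hy
    rcases mem_insert.1 hy with rfl | hy
    · simp only [Function.update_self]
      exact h1.val y hx
    · rw [u1 y hy, u2 y hy, u3 y hy]
      exact h2.val y hy
  · intro u w
    have k1 : (∃ y ∈ insert x M, (Function.update c x c0 y).arc (Function.update nx x x' y) u w) ↔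
        c0.arc x' u w ∨ ∃ y ∈ M, (c y).arc (nx y) u w := by
      rw [exists_mem_insert, Function.update_self, Function.update_self]
      exact or_congr_right (exists_congr fun y => and_congr_right fun hy => by
        rw [u1 y hy, u3 y hy])
    have k2 : (∃ y ∈ insert x M, w = Function.update nx x x' y) ↔ w = x' ∨ ∃ y ∈ M, w = nx y := by
      rw [exists_mem_insert, Function.update_self]
      exact or_congr_right (exists_congr fun y => and_congr_right fun hy => by rw [u1 y hy])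
    rw [k1, k2, h1.arcs, h2.arcs]
    simp only [mem_singleton, exists_eq_left, mem_insert, not_or]
    constructor
    · rintro (ha | ⟨ha | ⟨a1, a2, a3⟩, b1, b2⟩)
      · exact Or.inl (Or.inl ha)
      · exact Or.inl (Or.inr ha)
      · exact Or.inr ⟨a1, ⟨b1, a2⟩, fun hc => hc.2.elim (fun e => b2 ⟨hc.1, e⟩)
          fun e => a3 ⟨hc.1, e⟩⟩
    · rintro ((ha | ⟨y, hy, ha⟩) | ⟨a1, ⟨a2, a3⟩, a4⟩)
      · exact Or.inl ha
      · exact Or.inr ⟨Or.inl ⟨y, hy, ha⟩, (harc y hy _ _ ha).1,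
          fun hc => (harc y hy _ _ ha).2 hc.2⟩
      · exact Or.inr ⟨Or.inr ⟨a1, a3, fun hc => a4 ⟨hc.1, Or.inr hc.2⟩⟩, a2,
          fun hc => a4 ⟨hc.1, Or.inl hc.2⟩⟩
  · intro y hy
    rcases mem_insert.1 hy with rfl | hy
    · simp only [Function.update_self]
      exact ⟨l1, l2, l3, l4, l5⟩
    · rw [u1 y hy, u2 y hy]
      obtain ⟨a1, a2, a3, a4, a5⟩ := h2.loc y hy
      obtain ⟨b1, b2⟩ := hM y hy
      exact ⟨a1, a2, h1.pdm _ b2 _ b1 a3, h1.dm _ b1 _ b2 a4, fun z hz =>
        ⟨h1.pdm _ b2 _ (hP y hy hz) (a5 z hz).1, h1.dm _ b1 _ (hP y hy hz) (a5 z hz).2⟩⟩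
  · have d1 := h1.defi
    have d2 := h2.defi
    rw [card_singleton, sum_singleton] at d1
    rw [card_insert_of_notMem hxM, sum_insert hxM, Function.update_self,
      sum_congr rfl fun y hy => congrArg OCode.dfc (u3 y hy)]
    omega

theorem GR.gphase (h : GR V D s) : ∃ V1 D1 M nx P c, GDat V D s V1 D1 M nx P c ∧
    ∀ u, CycA D1 {s} u → CCase D1 s u ∨ CCase (rv D1) s u := by
  generalize hn : (univ.filter fun u => CycA D {s} u).card = n
  induction n using Nat.strong_induction_on generalizing V D with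
  | _ n ih =>
    by_cases hall : ∀ u, CycA D {s} u → CCase D s u ∨ CCase (rv D) s u
    · exact ⟨_, _, _, _, _, _, GDat.refl h ⟨∅, fun _ => none, fun _ => none, none⟩, hall⟩
    push Not at hall
    obtain ⟨u, hu, c1, c2⟩ := hall
    obtain ⟨x, x', hux, hl⟩ := h.exists_flink hu
    obtain ⟨⟨c0, h1⟩, h2, h3⟩ := h.gev hl (fun hc => c1 (hc.of_sc hux.symm))
      fun hc => c2 (hc.of_sc (sc_rv.2 hux.symm))
    have hlt : (univ.filter fun u => CycA (linkD V D s x x') {s} u).card < n := by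
      rw [← hn]
      refine card_lt_card ⟨fun y hy => ?_, fun hc => ?_⟩
      · exact mem_filter.2 ⟨mem_univ _, (h2 y (mem_filter.1 hy).2).1⟩
      · exact (h2 x (mem_filter.1 (hc (mem_filter.2 ⟨mem_univ _, h3⟩))).2).2 rfl
    obtain ⟨V2, D2, M, nx, P, c, g1, g2⟩ := ih _ hlt h1.good rfl
    exact ⟨V2, D2, _, _, _, _, GDat.cons h h1 g1, g2⟩

end Pool.Agent.Work.MP_5391ad_co
end

-- merged part: Pool.Agent.Work.MP_5391ad_co.PCph
section
/-! The column phase. Induction on the number of cyclic vertices, with a protected set `Z` of inert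
vertices. In each step `q` is the first cyclic column-case vertex on a walk from `s`
(`av_first`); it has no dominator in its component. `CDat.cons` glues the first event to the rest.
`g ∈ V2` and `(a, g)` survives: an arc into `P a'` has its tail in `P a' ∪ {a'}` or in another
object, and `a ∈ V2 \ M`. Targets of the first object: let `y` be a target outside `H`. If
`y ∈ V2`: use `reg`, `pdm`, `nob`, `ib` to get `InT D2 s a y` (a unique entering arc of `y` in `D2`
has its tail in `M ∪ {a}`, where it is the only out-arc, or is an arc of `D`, not an out-bridge).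
If `y ∈ P a'` is not a hub of `c a'`, its parent arc `(u, y)` is an arc of `D` which is not an
in-bridge of `D1` (`earn`), so not of `D`, so an out-bridge of `D`, against `nob`.
For the fields of later marks use `obx`, `ib`, `pdm`, `av` of the first datum; `Br D a'`: if `a'`
had one entering arc `(y, a')` in `D`, then `y` ... it is enough to note that `a'` has two entering
arcs in `D1`; if one of them is the new arc `(a, g)`, `g = a'`, then a walk `a ⇝ g` in `D` ends
with some arc; if `D` has only the entering arc `(y, a')`, then `OBr D y a'`, `y` survives, so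
`OBr D1 y a'` by `ob`, and `a` is dominated by `a'` in `D1`, so `a' ⇝ a → a'` is a cycle through
`a` in `D1 - s`, which the hypothesis `hcyc` excludes. `PDd` transfers from `D1` to `D` by `pdm`
and `hib`. -/

namespace Pool.Agent.Work.MP_5391ad_co

open Finset
open scoped Classical

variable {α : Type*} [Fintype α] {D : α → α → Prop} {s : α} {V : Finset α}

theorem CDat.refl (h : GR V D s) (c : OCode α) :
    CDat V D s V D ∅ (fun x => x) (fun _ => ∅) (fun _ => c) where
  mk2 := empty_subset _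
  out := fun _ k => absurd k (notMem_empty _)
  sub := Subset.refl _
  part := by simp
  disj := fun _ k => absurd k (notMem_empty _)
  val := fun _ k => absurd k (notMem_empty _)
  arcs := by simp
  good := h
  pdm := fun _ _ _ _ => Iff.rfl
  dmu := fun _ _ _ _ k => k
  dmg := fun _ _ _ _ k => Or.inl k
  ob := fun _ _ k _ => k
  ib := fun _ _ k _ => k
  av := fun _ _ _ _ k => k
  loc := fun _ k => absurd k (notMem_empty _)
  obx := fun _ _ k => k
  nob := fun _ k => absurd k (notMem_empty _)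
  reg := fun _ k => absurd k (notMem_empty _)
  earn := fun _ k => absurd k (notMem_empty _)
  tno := fun _ k => absurd k (notMem_empty _)
  uniq := fun _ _ _ u k => ⟨u, k, Iff.rfl, fun _ _ e => e⟩
  cc := fun _ _ k => k
  rc := fun _ _ k => Or.inr k
  snk := fun _ k => k
  src := fun _ k => k
  defi := by simp

omit [Fintype α] in
theorem pcph_tail {a g u w : α} {P Y : Finset α} {c : OCode α} (h : Val0 a P Y c)
    (k : c.arc g u w) : u ∈ P ∨ u = a := by
  rcases k with k | k | ⟨k, -⟩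
  · exact (h.parm _ _ k).imp_left fun e => h.sub e
  · exact Or.inl (not_not.1 fun e => by simp [(h.out u e).2] at k)
  · exact (h.frcm _ k).imp_left fun e => h.sub e

omit [Fintype α] in
theorem pcph_val {a : α} {P Y Y' : Finset α} {c : OCode α} (h : ValC a P Y c)
    (k : ∀ x y, c.tgt x = some y → y ∉ c.H → y ∈ Y → y ∈ Y') : ValC a P Y' c :=
  { h with
    tgtm := fun x y e => or_iff_not_imp_left.2 fun e' =>
      k x y e e' ((h.tgtm x y e).resolve_left e') }

omit [Fintype α] in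
theorem pcph_mem {V2 M : Finset α} {D2 : α → α → Prop} {g : α → α} {P : α → Finset α}
    {c : α → OCode α} (h : CEnc V D s V2 D2 M g P c) {a y : α} (ha : a ∈ M) (hy : y ∈ P a) :
    y ∈ V ∧ y ∉ V2 :=
  mem_sdiff.1 (h.part ▸ mem_biUnion.2 ⟨a, ha, hy⟩)

omit [Fintype α] in
theorem pcph_same {V2 M : Finset α} {D2 : α → α → Prop} {g : α → α} {P : α → Finset α}
    {c : α → OCode α} (h : CEnc V D s V2 D2 M g P c) {u : α} (hu : u ∈ V2) (hM : u ∉ M) (w : α) :
    D u w ↔ D2 u w := by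
  rw [h.arcs]
  refine ⟨?_, fun k => Or.inr ⟨k, hM⟩⟩
  rintro (⟨a, ha, k⟩ | k)
  · rcases pcph_tail (h.val a ha).toVal0 k with e | rfl
    · exact absurd hu (pcph_mem h ha e).2
    · exact absurd ha hM
  · exact k.1

theorem pcph_cyc {V2 M : Finset α} {D2 : α → α → Prop} {g : α → α} {P : α → Finset α}
    {c : α → OCode α} (h : CDat V D s V2 D2 M g P c) {u : α} (hu : CycA D2 {s} u) :
    CycA D {s} u := by
  obtain ⟨v, k1, k2⟩ := hu
  obtain ⟨m1, m2⟩ := h.good.mem _ _ k1
  have k3 := h.av _ m1 _ m2 (Av.head k2.not_mem_right k1 (av_refl k2.1))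
  rcases k3.2.cases_head with rfl | ⟨w, k4, k5⟩
  · exact absurd k1 (h.good.irr _)
  · exact ⟨w, k4.1, Av.trans ⟨k4.2, k5⟩ (h.av _ m2 _ m1 k2)⟩

omit [Fintype α] in
theorem pcph_ibr (h : GR V D s) {u v : α} (hu : u ≠ s) (k : ∀ w, D u w ↔ w = v) : IBr D s u v :=
  obr_rv.1 (h.rev.obr_of_unique hu k)

theorem CDat.cons (h : GR V D s) {V1 V2 X M : Finset α} {D1 D2 : α → α → Prop} {a g0 : α}
    {c0 : OCode α} {g : α → α} {P : α → Finset α} {c : α → OCode α}
    (h1 : CDat V D s V1 D1 {a} (fun _ => g0) (fun _ => X) (fun _ => c0))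
    (h2 : CDat V1 D1 s V2 D2 M g P c) (ha : a ∈ V2) (hcyc : ¬ CycA D1 {s} a)
    (hib : ∀ u w, u ≠ a → IBr D1 s u w → IBr D s u w) :
    CDat V D s V2 D2 (insert a M) (Function.update g a g0) (Function.update P a X)
      (Function.update c a c0) := by
  have ma : a ∈ ({a} : Finset α) := mem_singleton_self a
  have hM : a ∉ M := fun k => hcyc (h2.loc a k).1
  have ne : ∀ b ∈ M, b ≠ a := fun b k e => hM (e ▸ k)
  have has : a ≠ s := (mem_erase.1 (h1.mk2 ma)).1
  have m2 : ∀ b ∈ M, b ∈ V2 := fun b k => (mem_erase.1 (h2.mk2 k)).2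
  have mg : ∀ b ∈ M, g b ∈ V2 := fun b k => (h2.good.mem _ _ ((h2.out b k _).2 rfl)).2
  have hX : V \ V1 = X := by rw [h1.part, singleton_biUnion]
  have up : ∀ {u w}, u ≠ a → D1 u w → D u w := fun k1 k2 =>
    (h1.arcs _ _).2 (Or.inr ⟨k2, fun e => k1 (mem_singleton.1 e)⟩)
  have out : ∀ y, D2 a y ↔ y = g0 := fun y =>
    (pcph_same h2.toCEnc ha hM y).symm.trans (h1.out a ma y)
  have mid : ∀ {u w}, D u w → D2 u w → D1 u w := fun {u w} k1 k2 => by
    by_cases e : u = a
    · subst e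
      exact (pcph_same h2.toCEnc ha hM w).2 k2
    · exact (pcph_same h1.toCEnc (h2.sub (h2.good.mem _ _ k2).1)
        (fun e' => e (mem_singleton.1 e')) w).1 k1
  have arc : ∀ b ∈ M, ∀ {u w}, (c b).arc (g b) u w → D1 u w ∧ u ≠ a := fun b hb u w k => by
    refine ⟨(h2.arcs _ _).2 (Or.inl ⟨b, hb, k⟩), ?_⟩
    rintro rfl
    rcases pcph_tail (h2.val b hb).toVal0 k with e | e
    · exact (pcph_mem h2.toCEnc hb e).2 ha
    · exact ne b hb e.symm
  have pdd : ∀ w ∈ V1, PDd D1 s w → PDd D s w := by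
    rintro w hw (⟨y, k1, k2⟩ | k)
    · exact Or.inl ⟨y, k1, (h1.pdm y (h1.good.rev.av_of_dom hw k1 (dom_rv.2 k2)).1 w hw).1 k2⟩
    · by_cases e : w = a
      · exact e ▸ (h1.loc a ma).2.2.1
      · exact Or.inr (hib _ _ e k)
  have br : ∀ b ∈ M, ∀ y, y ≠ a → D1 a b → D1 y b → Br D b := by
    intro b hb y k1 k2 k3
    have hs := (mem_erase.1 (h2.mk2 hb)).1
    by_contra k4
    have k5 := h.obr_of_unique hs (u := y) fun w =>
      ⟨fun e => eq_of_not_br k4 e (up k1 k3), fun e => e ▸ up k1 k3⟩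
    have k6 := h1.good.dom_of_obr_other (h1.ob _ _ k5 k3) k2 k1.symm
    exact hcyc ⟨b, k2, (h1.good.av_of_dom (h2.sub ha) hs k6).2⟩
  have hH : ∀ b ∈ M, ∀ y ∈ (c b).H,
      y ∈ (insert a M).biUnion fun b => (Function.update c a c0 b).H := fun b hb y hy =>
    mem_biUnion.2 ⟨b, mem_insert_of_mem hb, by rwa [Function.update_of_ne (ne b hb)]⟩
  refine
    { mk2 := insert_subset (mem_erase.2 ⟨has, ha⟩) h2.mk2
      out := forall_mem_insert _ _ _ |>.2 ⟨?_, fun b hb => ?_⟩
      sub := h2.sub.trans h1.sub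
      part := ?_
      disj := ?_
      val := forall_mem_insert _ _ _ |>.2 ⟨?_, fun b hb => ?_⟩
      arcs := fun u w => ?_
      good := h2.good
      pdm := fun z hz w hw => (h2.pdm z hz w hw).trans (h1.pdm z (h2.sub hz) w (h2.sub hw))
      dmu := fun z hz w hw k => h2.dmu z hz w hw (h1.dmu z (h2.sub hz) w (h2.sub hw) k)
      dmg := fun z hz w hw k => (h2.dmg z hz w hw k).elim (h1.dmg z (h2.sub hz) w (h2.sub hw))
        fun k => Or.inr (pdd w (h2.sub hw) k)
      ob := fun u w k1 k2 => h2.ob u w (h1.ob u w k1 (mid k1.1 k2)) k2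
      ib := fun u w k1 k2 => h2.ib u w (h1.ib u w k1 (mid k1.1 k2)) k2
      av := fun x hx y hy k => h1.av x (h2.sub hx) y (h2.sub hy) (h2.av x hx y hy k)
      loc := forall_mem_insert _ _ _ |>.2 ⟨?_, fun b hb => ?_⟩
      obx := fun y hy k => h2.obx y hy (h1.obx y (h2.sub hy) k)
      nob := forall_mem_insert _ _ _ |>.2 ⟨?_, fun b hb => ?_⟩
      reg := forall_mem_insert _ _ _ |>.2 ⟨?_, fun b hb => ?_⟩
      earn := forall_mem_insert _ _ _ |>.2 ⟨?_, fun b hb => ?_⟩
      tno := forall_mem_insert _ _ _ |>.2 ⟨?_, fun b hb => ?_⟩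
      uniq := fun x hx hs u k => ?_
      cc := fun u k1 k2 => h2.cc u k1 (h1.cc u (pcph_cyc h2 k1) k2)
      rc := fun u k1 k2 => (h1.rc u (pcph_cyc h2 k1) k2).elim (fun k => Or.inl (h2.cc u k1 k))
        (h2.rc u k1)
      snk := fun x k => h2.snk x (h1.snk x k)
      src := fun x k => h2.src x (h1.src x k)
      defi := ?_ }
  · rw [Function.update_self]
    exact out
  · rw [Function.update_of_ne (ne b hb)]
    exact h2.out b hb
  · rw [biUnion_insert, Function.update_self, biUnion_congr rfl fun b hb =>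
      Function.update_of_ne (ne b hb) X P, ← h2.part, ← hX, sdiff_union_sdiff_cancel h1.sub h2.sub]
  · have k : ∀ b ∈ M, Disjoint X (P b) := fun b hb => disjoint_left.2 fun y hy hy' =>
      (mem_sdiff.1 (hX ▸ hy)).2 (pcph_mem h2.toCEnc hb hy').1
    intro x hx y hy hxy
    rcases mem_insert.1 hx with e | hx' <;> rcases mem_insert.1 hy with e' | hy'
    · exact absurd (e.trans e'.symm) hxy
    · rw [e, Function.update_self, Function.update_of_ne (ne y hy')]
      exact k y hy'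
    · rw [e', Function.update_self, Function.update_of_ne (ne x hx')]
      exact (k x hx').symm
    · rw [Function.update_of_ne (ne x hx'), Function.update_of_ne (ne y hy')]
      exact h2.disj x hx' y hy' hxy
  · rw [Function.update_self, Function.update_self]
    refine pcph_val (h1.val a ma) fun p y k1 k2 k3 => ?_
    rw [singleton_biUnion] at k3
    obtain ⟨k4, k5⟩ := mem_filter.1 ((mem_union.1 k3).resolve_right k2)
    have nob := h1.nob a ma p y k1 k2
    by_cases hy : y ∈ V2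
    · refine mem_union_left _ (mem_filter.2 ⟨hy, ?_⟩)
      rcases k5 with k5 | ⟨k5, -, g', k6, k7⟩
      · exact Or.inl k5
      by_cases e : y = a
      · exact Or.inl e
      obtain rfl : g0 = g' := (k6 _).1 ((h1.out a ma _).2 rfl)
      refine Or.inr ⟨k5, Or.inr ?_, g0, out, k7.imp (And.imp_right (Or.imp_right ?_))
        (And.imp_right ?_)⟩
      · obtain ⟨u, hu⟩ := h2.good.exists_in hy k5
        refine ⟨u, ?_⟩
        by_cases e1 : u = a
        · subst e1
          exact pcph_ibr h2.good has fun w => by rw [out, (out y).1 hu]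
        by_cases e2 : u ∈ M
        · exact pcph_ibr h2.good (mem_erase.1 (h2.mk2 e2)).1 fun w => by
            rw [h2.out u e2, (h2.out u e2 y).1 hu]
        have k8 : D1 u y := (h2.arcs _ _).2 (Or.inr ⟨hu, e2⟩)
        exact h2.ib _ _ (h1.ib _ _ ((h.cr _ _ (up e1 k8)).resolve_left
          (nob.resolve_left e u)) k8) hu
      · exact (h2.pdm _ (h2.good.mem _ _ ((out _).2 rfl)).2 _ hy).2
      · exact (h2.pdm _ ha _ hy).2
    · obtain ⟨b, hb, k6⟩ := mem_biUnion.1 (h2.part ▸ mem_sdiff.2 ⟨k4, hy⟩)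
      refine mem_union_right _ (hH b hb y (not_not.1 fun k7 => ?_))
      obtain ⟨u, hu⟩ := Option.ne_none_iff_exists'.1 ((h2.val b hb).ear y k6 k7).1
      obtain ⟨k8, k9⟩ := arc b hb (Or.inl hu)
      exact h2.earn b hb y k6 k7 u hu (h1.ib _ _ ((h.cr _ _ (up k9 k8)).resolve_left
        (nob.resolve_left (fun e => hy (e ▸ ha)) u)) k8)
  · rw [Function.update_of_ne (ne b hb), Function.update_of_ne (ne b hb)]
    refine pcph_val (h2.val b hb) fun p y _ _ k => ?_
    rcases mem_union.1 k with k | k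
    · exact mem_union_left _ k
    · obtain ⟨b', hb', k⟩ := mem_biUnion.1 k
      exact mem_union_right _ (hH b' hb' y k)
  · constructor
    · intro k
      rcases (h1.arcs u w).1 k with ⟨_, -, k1⟩ | ⟨k1, k2⟩
      · exact Or.inl ⟨a, mem_insert_self _ _, by
          rwa [Function.update_self, Function.update_self]⟩
      · rcases (h2.arcs u w).1 k1 with ⟨b, hb, k3⟩ | ⟨k3, k4⟩
        · exact Or.inl ⟨b, mem_insert_of_mem hb, by
            rwa [Function.update_of_ne (ne b hb), Function.update_of_ne (ne b hb)]⟩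
        · exact Or.inr ⟨k3, fun e => (mem_insert.1 e).elim (fun e => k2 (mem_singleton.2 e)) k4⟩
    · rintro (⟨b, hb, k⟩ | ⟨k1, k2⟩)
      · rcases mem_insert.1 hb with rfl | hb
        · rw [Function.update_self, Function.update_self] at k
          exact (h1.arcs u w).2 (Or.inl ⟨b, ma, k⟩)
        · rw [Function.update_of_ne (ne b hb), Function.update_of_ne (ne b hb)] at k
          exact up (arc b hb k).2 (arc b hb k).1
      · exact up (fun e => k2 (mem_insert.2 (Or.inl e)))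
          ((h2.arcs u w).2 (Or.inr ⟨k1, fun e => k2 (mem_insert_of_mem e)⟩))
  · rw [Function.update_self, Function.update_self]
    exact h1.loc a ma
  · rw [Function.update_of_ne (ne b hb), Function.update_of_ne (ne b hb)]
    obtain ⟨k1, ⟨y, y', k2, k3, k4⟩, k5, k6, k7⟩ := h2.loc b hb
    have b1 := h2.sub (m2 b hb)
    have g1 := h2.sub (mg b hb)
    refine ⟨pcph_cyc h1 k1, ?_, pdd b b1 k5, (h1.pdm _ g1 _ b1).1 k6, fun y hy => ?_⟩
    · by_cases e : y = a
      · exact br b hb y' (e ▸ k2.symm) (e ▸ k3) k4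
      by_cases e' : y' = a
      · exact br b hb y e (e' ▸ k4) k3
      exact ⟨y, y', k2, up e k3, up e' k4⟩
    · have y1 := (pcph_mem h2.toCEnc hb hy).1
      obtain ⟨l1, l2, l3⟩ := k7 y hy
      exact ⟨pdd y y1 l1, (h1.pdm _ g1 _ y1).1 l2, h1.av _ b1 _ y1 l3⟩
  · rw [Function.update_self]
    exact h1.nob a ma
  · rw [Function.update_of_ne (ne b hb)]
    intro p y k1 k2
    refine (h2.nob b hb p y k1 k2).imp_right fun k u k3 => ?_
    obtain ⟨u', k4⟩ := h1.obx y (h1.good.mem _ _ (arc b hb (Or.inr (Or.inl k1))).1).2 ⟨u, k3⟩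
    exact k u' k4
  · rw [Function.update_self, Function.update_self]
    exact h1.reg a ma
  · rw [Function.update_of_ne (ne b hb), Function.update_of_ne (ne b hb)]
    intro p y k1 k2
    have y1 := (h1.good.mem _ _ (arc b hb (Or.inr (Or.inl k1))).1).2
    exact (h2.reg b hb p y k1 k2).imp_right (Or.imp
      (And.imp_right (Or.imp_right (h1.pdm _ (h2.sub (mg b hb)) _ y1).1))
      (And.imp_right (Or.imp_right (h1.pdm _ (h2.sub (m2 b hb)) _ y1).1)))
  · rw [Function.update_self, Function.update_self]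
    exact h1.earn a ma
  · rw [Function.update_of_ne (ne b hb), Function.update_of_ne (ne b hb)]
    exact fun e k1 k2 u k3 k4 =>
      h2.earn b hb e k1 k2 u k3 (h1.ib _ _ k4 (arc b hb (Or.inl k3)).1)
  · rw [Function.update_self]
    exact h1.tno a ma
  · rw [Function.update_of_ne (ne b hb)]
    exact fun p y k1 k2 =>
      h2.tno b hb p y k1 (h1.ob _ _ k2 (arc b hb (Or.inr (Or.inl k1))).1)
  · obtain ⟨u1, k1, k2, k3⟩ := h1.uniq x (h2.sub hx) hs u k
    obtain ⟨u2, k4, k5, k6⟩ := h2.uniq x hx hs u1 k1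
    exact ⟨u2, k4, k2.trans k5, fun y hy e => k6 y hy (k3 y (h2.sub hy) e)⟩
  · have k1 := h1.defi
    have k2 := h2.defi
    rw [sum_singleton] at k1
    rw [sum_insert hM, Function.update_self, sum_congr rfl fun b hb =>
      congrArg OCode.dfc (Function.update_of_ne (ne b hb) c0 c)]
    omega

theorem pcph_ind (n : ℕ) : ∀ (V : Finset α) (D : α → α → Prop), GR V D s →
    (univ.filter (CycA D {s})).card < n → ∃ V2 D2 M g P c, CDat V D s V2 D2 M g P c ∧
      (∀ u, CycA D2 {s} u → ¬ CCase D2 s u) ∧ ∀ a ∈ V, Inert D s a → a ∈ V2 := by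
  induction n with
  | zero => exact fun _ _ _ k => absurd k (Nat.not_lt_zero _)
  | succ n ih =>
    intro V D h hn
    by_cases hu : ∀ u, CycA D {s} u → ¬ CCase D s u
    · exact ⟨_, _, _, _, _, _, CDat.refl h ⟨∅, fun _ => none, fun _ => none, none⟩, hu,
        fun _ k _ => k⟩
    push Not at hu
    obtain ⟨u, u1, u2⟩ := hu
    have hV : ∀ {x}, CycA D {s} x → x ∈ V := fun ⟨_, k, _⟩ => (h.mem _ _ k).1
    rcases av_first {x | CycA D {s} x ∧ CCase D s x} (av_empty.2 (h.fwd u (hV u1))) with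
      k | k | ⟨p, q, ⟨q1, q2⟩, k1, k2, -⟩
    · exact absurd (Or.inr ⟨u1, u2⟩) k.not_mem_right
    · exact absurd rfl k.1.not_mem
    obtain ⟨a, b, hch⟩ := h.exists_chain q1 fun z hz k => k.2 (((pbase_r k1).mono
      (Set.singleton_subset_iff.2 ⟨q1.of_sc hz, q2.of_sc hz⟩) fun _ _ e _ _ => e).tail k2 k.1)
    have a1 := q1.of_sc hch.sa
    obtain ⟨g0, -, hg⟩ := h.exists_gate (hV a1) a1.not_mem
    obtain ⟨c0, h1⟩ := h.cev q1 q2 hch hg
    obtain ⟨g1, g2, g3⟩ := h.cev_good q1 q2 hch hg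
    obtain ⟨i1, i2⟩ := h.cev_inert q1 q2 hch hg
    obtain ⟨V2, D2, M, g, P, c, h2, h3, h4⟩ := ih _ _ g1 (lt_of_lt_of_le (card_lt_card
      ⟨fun x hx => mem_filter.2 ⟨mem_univ _, g3 x (mem_filter.1 hx).2⟩,
        fun k => g2 (mem_filter.1 (k (mem_filter.2 ⟨mem_univ _, a1⟩))).2⟩) (Nat.lt_succ_iff.1 hn))
    exact ⟨V2, D2, _, _, _, _, CDat.cons h h1 h2
      (h4 a (mem_erase.1 (h1.mk2 (mem_singleton_self a))).2 (i2 ⟨p, k2, pbase_r k1⟩)) g2
      (h.cev_dom q1 q2 hch hg).2.2.2.1, h3,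
      fun x hx k => h4 x (mem_sdiff.2 ⟨hx, (i1 x hx k).1⟩) (i1 x hx k).2⟩

theorem GR.cphase (h : GR V D s) : ∃ V2 D2 M g P c, CDat V D s V2 D2 M g P c ∧
    ∀ u, CycA D2 {s} u → ¬ CCase D2 s u := by
  obtain ⟨V2, D2, M, g, P, c, h1, h2, -⟩ := pcph_ind _ V D h (Nat.lt_succ_self _)
  exact ⟨V2, D2, M, g, P, c, h1, h2⟩

/-- the three phases end in a digraph without cycles avoiding the root -/
theorem GR.phases (h : GR V D s) :
    ∃ V1 D1 M1 nx P1 c1 V2 D2 M2 g2 P2 c2 V3 D3 M3 g3 P3 c3,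
      GDat V D s V1 D1 M1 nx P1 c1 ∧ CDat V1 D1 s V2 D2 M2 g2 P2 c2 ∧
      CDat V2 (rv D2) s V3 (rv D3) M3 g3 P3 c3 ∧ ∀ u, ¬ CycA D3 {s} u := by
  obtain ⟨V1, D1, M1, nx, P1, c1, h1, k1⟩ := h.gphase
  obtain ⟨V2, D2, M2, g2, P2, c2, h2, k2⟩ := h1.good.cphase
  obtain ⟨V3, D3, M3, g3, P3, c3, h3, k3⟩ := h2.good.rev.cphase
  refine ⟨V1, D1, M1, nx, P1, c1, V2, D2, M2, g2, P2, c2, V3, rv D3, M3, g3, P3, c3, h1, h2, h3,
    fun u hu => ?_⟩
  have u3 := cycA_rv.1 hu
  have u2 := cycA_rv.1 (pcph_cyc h3 u3)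
  refine k3 u u3 (h3.cc u u3 ?_)
  rcases k1 u (pcph_cyc h2 u2) with k | k
  · exact absurd (h2.cc u u2 k) (k2 u u2)
  · exact (h2.rc u u2 k).resolve_left (k2 u u2)

end Pool.Agent.Work.MP_5391ad_co
end

-- merged part: Pool.Agent.Work.MP_5391ad_co.MEnv
section
/-! Definitions for the structure side: environments, tight pairs, phase data. -/

namespace Pool.Agent.Work.MP_5391ad_co

open Finset
open scoped Classical

variable {α : Type*}

/-- the number of linear vertices from `S` to `W` -/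
noncomputable def ears [Fintype α] (D : α → α → Prop) (S W : Finset α) : ℕ :=
  (univ.filter fun x => ∃ u ∈ S, ∃ y ∈ W, Lin D x (u, y)).card

/-- `n / log n` -/
noncomputable def lam (n : ℕ) : ℝ := n / Real.log n

/-- the typical environment of a digraph -/
structure EnvR [Fintype α] (e : ℝ) (D : α → α → Prop) (R C : Finset α) : Prop where
  loR : (1 - e) * lam (Fintype.card α) ≤ R.card
  hiR : (R.card : ℝ) ≤ (1 + e) * lam (Fintype.card α)
  loC : (1 - e) * lam (Fintype.card α) ≤ C.card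
  hiC : (C.card : ℝ) ≤ (1 + e) * lam (Fintype.card α)
  defi : (2 * Fintype.card α : ℝ) ≤ narc D + (2 + e) * lam (Fintype.card α)
  few : ∀ S ⊆ R, ∀ W ⊆ C, e * lam (Fintype.card α) ≤ S.card →
    e * lam (Fintype.card α) ≤ W.card → 10 * lam (Fintype.card α) ≤ ears D S W
  big : ∀ S ⊆ R, ∀ W ⊆ C, (R.card : ℝ) ≤ S.card + 20 * e * lam (Fintype.card α) →
    (C.card : ℝ) ≤ W.card + 20 * e * lam (Fintype.card α) →
    (1 - 1000 * e) * Fintype.card α ≤ ears D S W

/-- the environment with integer parameters -/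
structure Env [Fintype α] (D : α → α → Prop) (R C : Finset α) (m j N : ℕ) : Prop where
  defi : 2 * Fintype.card α ≤ narc D + R.card + C.card + 3 * m
  few : ∀ S ⊆ R, ∀ W ⊆ C, m ≤ S.card → m ≤ W.card → j ≤ ears D S W
  big : ∀ S ⊆ R, ∀ W ⊆ C, R.card ≤ S.card + 10 * m → C.card ≤ W.card + 10 * m → N ≤ ears D S W

/-- the rows in `S` only see columns in `Y` -/
def Cl (B : α → α → Prop) (S Y : Finset α) : Prop := ∀ a ∈ S, ∀ b, B a b → b ∈ Y

/-- fully indecomposable -/
def FIr [Fintype α] (B : α → α → Prop) : Prop :=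
  ∀ S Y, Cl B S Y → S.Nonempty → Y ≠ univ → S.card + 1 ≤ Y.card

/-- tight pair -/
def Tight (B : α → α → Prop) (S Y : Finset α) : Prop := Cl B S Y ∧ Y.card = S.card + 1

/-- nearly decomposable -/
structure NDr [Fintype α] (B : α → α → Prop) : Prop where
  fi : FIr B
  cr : ∀ a b, B a b → ∃ S Y : Finset α, a ∈ S ∧ b ∉ Y ∧ Y.card = S.card ∧
    ∀ i ∈ S, ∀ j, B i j → j ∈ Y ∨ (i = a ∧ j = b)

/-- every tight pair containing the row `r` contains at least `τ` elements of `R` -/
def IsRoot (B : α → α → Prop) (R : Finset α) (τ : ℕ) (r : α) : Prop :=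
  ∀ S Y, Tight B S Y → r ∈ S → τ ≤ (S ∩ R).card

/-- no tight pair has a large zero block -/
def NoBlk (B : α → α → Prop) (R C : Finset α) (m : ℕ) : Prop :=
  ∀ S Y, Tight B S Y → (S ∩ R).card < m ∨ (C \ Y).card < m

/-- the digraph of `B` in the frame `π` -/
def dig (B : α → α → Prop) (π : Equiv.Perm α) (a b : α) : Prop := a ≠ b ∧ B (π a) b

/-- `π` matches all columns except `s` -/
def Frame (B : α → α → Prop) (π : Equiv.Perm α) (s : α) : Prop := ∀ j, j ≠ s → B (π j) j

/-- the matrix of a rooted digraph; the diagonal entry of the root is forced -/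
def mat (D : α → α → Prop) (s a b : α) : Prop :=
  D a b ∨ (a = b ∧ (a ≠ s ∨ ∃ z, z ≠ s ∧ ¬ CycA D {z} s))

/-- `z` and the vertices it post-dominates -/
noncomputable def reg [Fintype α] (D : α → α → Prop) (s z : α) : Finset α :=
  univ.filter fun y => y = z ∨ pdom D s z y

/-- all out-neighbours of `u` other than the root lie in one region -/
def NP (D : α → α → Prop) (s u : α) : Prop :=
  ∃ q, q ≠ s ∧ ∀ w, D u w → w = s ∨ w = q ∨ pdom D s q w

/-- in-degree at least two or an entering in-bridge -/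
noncomputable def TC [Fintype α] (D : α → α → Prop) (s : α) : Finset α :=
  univ.filter fun y => y ≠ s ∧ (Br D y ∨ ∃ u, IBr D s u y)

/-- the data of the three phases -/
structure Ph [Fintype α] (V : Finset α) (D : α → α → Prop) (s : α) where
  V1 : Finset α
  D1 : α → α → Prop
  M1 : Finset α
  nx : α → α
  P1 : α → Finset α
  c1 : α → OCode α
  V2 : Finset α
  D2 : α → α → Prop
  M2 : Finset α
  g2 : α → α
  P2 : α → Finset α
  c2 : α → OCode α
  V3 : Finset α
  D3 : α → α → Prop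
  M3 : Finset α
  g3 : α → α
  P3 : α → Finset α
  c3 : α → OCode α
  h1 : GDat V D s V1 D1 M1 nx P1 c1
  h2 : CDat V1 D1 s V2 D2 M2 g2 P2 c2
  h3 : CDat V2 (rv D2) s V3 (rv D3) M3 g3 P3 c3
  h4 : ∀ u, ¬ CycA D3 {s} u

/-- the acyclic core -/
def Ph.core [Fintype α] {V : Finset α} {D : α → α → Prop} {s : α} (p : Ph V D s) (u v : α) :
    Prop := p.D3 u v ∧ u ≠ s ∧ v ≠ s

theorem GR.ph [Fintype α] {V : Finset α} {D : α → α → Prop} {s : α} (h : GR V D s) :
    Nonempty (Ph V D s) := by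
  obtain ⟨V1, D1, M1, nx, P1, c1, V2, D2, M2, g2, P2, c2, V3, D3, M3, g3, P3, c3, h1, h2, h3,
    h4⟩ := h.phases
  exact ⟨⟨V1, D1, M1, nx, P1, c1, V2, D2, M2, g2, P2, c2, V3, D3, M3, g3, P3, c3, h1, h2, h3, h4⟩⟩

/-- the arc set built from a core `E` on `N` and the ends `f x` of the vertices `x ∉ N` -/
noncomputable def build [Fintype α] (N : Finset α) (E : Finset (α × α)) (f : α → α × α) :
    Finset (α × α) :=
  E ∪ (Nᶜ.image fun x => ((f x).1, x)) ∪ (Nᶜ.image fun x => (x, (f x).2))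

/-- the admissible end maps -/
noncomputable def ends [Fintype α] (s : α) (N R C : Finset α) (E : Finset (α × α)) :
    Finset (α → α × α) :=
  Fintype.piFinset fun x => if x ∈ N then {(s, s)} else pairs N R C E

end Pool.Agent.Work.MP_5391ad_co
end

-- merged part: Pool.Agent.Work.MP_5391ad_co.TDef
section
/-! Definitions for the events of the acyclic core. -/

namespace Pool.Agent.Work.MP_5391ad_co

open Finset Real
open scoped Classical

variable {α : Type*}

/-- row nodes dominated by `q` -/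
noncomputable def domR (W : Finset α) (Δ : α → α → Prop) (q : α) : ℕ :=
  ((RN W Δ).filter (DomD W Δ q)).card

/-- row nodes which are not descendants of `q` -/
noncomputable def freeR (W : Finset α) (Δ : α → α → Prop) (q : α) : ℕ :=
  ((RN W Δ).filter fun v => ¬ Relation.ReflTransGen Δ q v).card

/-- a source with a large region which ends late -/
def HeldA (W : Finset α) (Δ : α → α → Prop) : Prop :=
  ∃ q ∈ W, (∀ w, ¬ Δ w q) ∧ (W.card : ℝ) ^ (9 / 10 : ℝ) ≤ domR W Δ q ∧
    3 / 10 * lam W.card ≤ freeR W Δ q ∧ 6 / 10 * lam W.card ≤ freeR W Δ q + domR W Δ q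

/-- a source with a region of moderate size which starts very late -/
def HeldB (W : Finset α) (Δ : α → α → Prop) : Prop :=
  ∃ q ∈ W, (∀ w, ¬ Δ w q) ∧ (W.card : ℝ) ^ (1 / 10 : ℝ) ≤ domR W Δ q ∧
    97 / 100 * lam W.card ≤ freeR W Δ q

/-- the tree of the root: all ancestors are row nodes of in-degree at most one which are not
sinks -/
noncomputable def rtree (W : Finset α) (Δ : α → α → Prop) : Finset α :=
  W.filter fun v => ∀ u, Relation.ReflTransGen Δ u v → u ∈ RN W Δ ∧ ¬ Br Δ u ∧ ∃ w, Δ u w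

/-- the tree of the root, sinks included -/
noncomputable def rootT (W : Finset α) (Δ : α → α → Prop) : Finset α :=
  (RN W Δ).filter fun v => ∀ u, Relation.ReflTransGen Δ u v → ¬ Br Δ u

/-- a held vertex `z` of a feed structure: `S` lives without `z`, `D` lives on `z` alone -/
structure HeldS (R : Finset α) (φ : α → Finset α) (z : α) (S D : Finset α) : Prop where
  hz : z ∈ R
  hS : S ⊆ R.erase z
  hD : D ⊆ R.erase z \ S
  s0 : ∀ v ∈ S, φ v ⊆ S
  z0 : φ z ⊆ S
  d0 : ∀ v ∈ D, φ v ⊆ insert z D ∧ φ v ≠ ∅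
  r0 : ∀ v ∈ (R.erase z \ S) \ D, ¬ φ v ⊆ S ∧ ¬ (φ v ⊆ insert z D ∧ φ v ≠ ∅)

/-- the weight of a held vertex with `j` free and `d` dominated row nodes out of `b` -/
noncomputable def HV (t : ℝ) (b j d : ℕ) : ℝ :=
  Vol (Lam t 0) (rate t 0 j) (fun _ => 1) j * Lam t j *
    Vol (Lam t 1 - Lam t 0) (rate t 0 (d + 1)) (fun _ => 1) d *
    Vol (Lam t (j + d + 1) - Lam t j - (Lam t (d + 1) - Lam t 0)) (rate t 0 b) (fun _ => 1)
      (b - j - d - 1)

/-- the Airy sum over a window -/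
noncomputable def Ai (t : ℝ) (i j : ℕ) : ℝ := kap0 * ∑ x ∈ Ico i j, eh t x ^ (2 / 3 : ℝ)

/-- the sum of squares over a window -/
noncomputable def Sq (t : ℝ) (i j : ℕ) : ℝ := ∑ x ∈ Ico i j, tau t x ^ 2

/-- forests on `m` vertices, divided by `m!` -/
noncomputable def cT (m : ℕ) : ℝ := Vol 1 (fun _ => 1) (fun _ => 1) m

/-- the root tree as a power series -/
noncomputable def PT (m : ℕ) : PowerSeries ℝ :=
  Vol PowerSeries.X (fun _ => PowerSeries.X) (fun _ => 1) m

/-- the blocks with at least two vertices fed by `m` row nodes -/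
noncomputable def pM (m : ℕ) : PowerSeries ℝ := pLam m - ((1 : ℝ) + m) • PowerSeries.X

/-- their value -/
noncomputable def aM (L : ℝ) (m : ℕ) : ℝ := Lam L⁻¹ m - (1 + m) * (L - 1)⁻¹

/-- the part outside the root tree -/
noncomputable def PR (b m : ℕ) : PowerSeries ℝ := Vol (pM m) (pRate b) (fun _ => 1) (b - m)

/-- the same with a prescribed final queue -/
noncomputable def PRq (B m q0 : ℕ) : PowerSeries ℝ := VQg (pM m) (pRate B) (B - m) q0

/-- the value of `PT m * PR b m` -/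
noncomputable def TV (L : ℝ) (b m : ℕ) : ℝ :=
  (L - 1)⁻¹ ^ m * cT m * Vol (aM L m) (rate L⁻¹ 0 b) (fun _ => 1) (b - m)

/-- the value of `PT m * PRq B m 1` -/
noncomputable def TQ (L : ℝ) (B m : ℕ) : ℝ :=
  (L - 1)⁻¹ ^ m * cT m * VQg (aM L m) (rate L⁻¹ 0 B) (B - m) 1

end Pool.Agent.Work.MP_5391ad_co
end

-- merged part: Pool.Agent.Work.MP_5391ad_co.MGrp
section
/-! Few rows send their ears into a single region; the deficiency of an acyclic rooted digraph.
`exists_top`: among `q` and its post-dominators other than `s` take one with the largest region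
(`GR.dom_trans`, `GR.dom_asymm` for `rv D`). `reg_disj`: `GR.dom_total` for `rv D`.
`split_fibers`: take a smallest `Q` with at least `m` points. `group_lt`: choose `q u`, and its top
`f u`. For `S' ⊆ S` and `W ⊆ W0` disjoint from the regions of the `f u`, `u ∈ S'`, every ear from `S'`
to `W` is `s` or some `q u`, so there are at most `|S| + 1`. If a fiber of `f` has `m` points take it
as `S'`. Otherwise split; the unions of the regions of the two classes are disjoint, so one of them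
misses at least half of `W0`.
`acc_acyc`: let `O`, `I` be the sets of out- and in-bridges, `O ∪ I` is the arc set. Heads of `O` are
distinct (`GR.obr_unique`), in `V`, of in-degree one (`qdag_in`); same for the tails of `I`; a vertex
of `TC` has in-degree two or is the head of an arc of `O ∩ I` (`GR.obr_of_unique`). -/

namespace Pool.Agent.Work.MP_5391ad_co

open Finset
open scoped Classical

variable {α : Type*} [Fintype α] {V : Finset α} {D : α → α → Prop} {s : α}

omit [Fintype α] in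
theorem lin_rv {x u y : α} : Lin (rv D) x (y, u) ↔ Lin D x (u, y) :=
  ⟨fun h => ⟨h.2, h.1⟩, fun h => ⟨h.2, h.1⟩⟩

theorem ears_rv (S W : Finset α) : ears (rv D) W S = ears D S W := by
  unfold ears
  congr 1
  refine filter_congr fun x _ => ⟨?_, ?_⟩
  · rintro ⟨y, hy, u, hu, h⟩
    exact ⟨u, hu, y, hy, lin_rv.1 h⟩
  · rintro ⟨u, hu, y, hy, h⟩
    exact ⟨y, hy, u, hu, lin_rv.2 h⟩

theorem mgrp_mem {z y : α} : y ∈ reg D s z ↔ y = z ∨ pdom D s z y := by simp [reg]

omit [Fintype α] in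
theorem mgrp_trans (h : GR V D s) {x y z : α} (hz : z ∈ V) (h1 : pdom D s x y)
    (h2 : pdom D s y z) : pdom D s x z :=
  dom_rv.1 (h.rev.dom_trans hz (dom_rv.2 h1) (dom_rv.2 h2))

theorem exists_top (h : GR univ D s) {q : α} (hq : q ≠ s) :
    ∃ t, t ≠ s ∧ reg D s q ⊆ reg D s t ∧ ∀ z, z ≠ s → ¬ pdom D s z t := by
  obtain ⟨t, ht, hmax⟩ := exists_max_image (univ.filter fun t => t ≠ s ∧ reg D s q ⊆ reg D s t)
    (fun t => (reg D s t).card) ⟨q, mem_filter.2 ⟨mem_univ _, hq, Subset.refl _⟩⟩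
  obtain ⟨h1, h2⟩ := (mem_filter.1 ht).2
  refine ⟨t, h1, h2, fun z hz hp => ?_⟩
  have h3 : reg D s t ⊆ reg D s z := fun y hy => by
    rcases mgrp_mem.1 hy with rfl | k
    · exact mgrp_mem.2 (Or.inr hp)
    · exact mgrp_mem.2 (Or.inr (mgrp_trans h (mem_univ _) hp k))
  have h4 : z ∉ reg D s t := fun hy => by
    rcases mgrp_mem.1 hy with rfl | k
    · exact hp.1 rfl
    · exact h.rev.dom_asymm (mem_univ _) (dom_rv.2 hp) (dom_rv.2 k)
  have h5 := card_lt_card ((ssubset_iff_of_subset h3).2 ⟨z, mgrp_mem.2 (Or.inl rfl), h4⟩)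
  exact absurd (hmax z (mem_filter.2 ⟨mem_univ _, hz, h2.trans h3⟩)) (not_le.2 h5)

theorem reg_disj (h : GR univ D s) {t t' : α} (h1 : t ≠ s) (h2 : t' ≠ s) (h3 : t ≠ t')
    (k1 : ∀ z, z ≠ s → ¬ pdom D s z t) (k2 : ∀ z, z ≠ s → ¬ pdom D s z t') :
    Disjoint (reg D s t) (reg D s t') := by
  refine disjoint_left.2 fun y hy hy' => ?_
  rcases mgrp_mem.1 hy with rfl | a <;> rcases mgrp_mem.1 hy' with rfl | b
  · exact h3 rfl
  · exact k1 _ h2 b
  · exact k2 _ h1 a
  · rcases h.rev.dom_total (mem_univ _) (dom_rv.2 a) (dom_rv.2 b) with c | c | c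
    · exact h3 c
    · exact k2 _ h1 (dom_rv.1 c)
    · exact k1 _ h2 (dom_rv.1 c)

theorem split_fibers {S : Finset α} (f : α → α) {m : ℕ}
    (h : ∀ t, (S.filter fun u => f u = t).card < m) (hS : 3 * m ≤ S.card) :
    ∃ Q : Finset α, m ≤ (S.filter fun u => f u ∈ Q).card ∧
      m ≤ (S.filter fun u => f u ∉ Q).card := by
  obtain ⟨Q, hQ, hmin⟩ := exists_min_image
    (univ.filter fun Q : Finset α => m ≤ (S.filter fun u => f u ∈ Q).card) card
    ⟨univ, mem_filter.2 ⟨mem_univ _, by simp; omega⟩⟩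
  have h1 := (mem_filter.1 hQ).2
  refine ⟨Q, h1, ?_⟩
  rcases Q.eq_empty_or_nonempty with rfl | ⟨t, ht⟩
  · simp only [notMem_empty, filter_false, card_empty] at h1
    omega
  have h2 : (S.filter fun u => f u ∈ Q.erase t).card < m := by
    by_contra k
    have := hmin _ (mem_filter.2 ⟨mem_univ _, not_lt.1 k⟩)
    exact absurd (card_erase_lt_of_mem ht) (not_lt.2 this)
  have h3 : (S.filter fun u => f u ∈ Q) ⊆
      (S.filter fun u => f u ∈ Q.erase t) ∪ S.filter fun u => f u = t := by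
    intro u hu
    simp only [mem_filter, mem_union, mem_erase] at hu ⊢
    tauto
  have h4 := (card_le_card h3).trans (card_union_le _ _)
  have h5 := card_filter_add_card_filter_not (s := S) fun u => f u ∈ Q
  have h6 := h t
  omega

theorem group_lt (h : GR univ D s) {S W0 : Finset α} {m : ℕ}
    (he : ∀ S' ⊆ S, ∀ W ⊆ W0, m ≤ S'.card → m ≤ W.card → S.card + 2 ≤ ears D S' W)
    (h1 : ∀ z, z ≠ s → (W0 ∩ reg D s z).card + m ≤ W0.card) (h2 : 2 * m ≤ W0.card) (hm : 0 < m)
    (hS : ∀ u ∈ S, ∃ q, q ≠ s ∧ ∀ x, ∀ y ∈ W0, Lin D x (u, y) → x = s ∨ x = q ∨ y ∈ reg D s q) :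
    S.card < 3 * m := by
  by_contra hlt
  have hlt := not_lt.1 hlt
  choose! q hq1 hq2 using hS
  have ht : ∀ u ∈ S, ∃ t, t ≠ s ∧ reg D s (q u) ⊆ reg D s t ∧ ∀ z, z ≠ s → ¬ pdom D s z t :=
    fun u hu => exists_top h (hq1 u hu)
  choose! f hf1 hf2 hf3 using ht
  have key : ∀ S' ⊆ S, ∀ A : Finset α, (∀ u ∈ S', reg D s (f u) ⊆ A) → m ≤ S'.card →
      (W0 \ A).card < m := by
    intro S' hS' A hA k1
    by_contra k2
    have k3 := he S' hS' _ sdiff_subset k1 (not_lt.1 k2)
    have k4 : (univ.filter fun x => ∃ u ∈ S', ∃ y ∈ W0 \ A, Lin D x (u, y)) ⊆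
        insert s (S.image q) := by
      intro x hx
      obtain ⟨u, hu, y, hy, hl⟩ := (mem_filter.1 hx).2
      rcases hq2 u (hS' hu) x y (mem_sdiff.1 hy).1 hl with c | c | c
      · exact mem_insert.2 (Or.inl c)
      · exact mem_insert_of_mem (mem_image.2 ⟨u, hS' hu, c.symm⟩)
      · exact absurd (hA u hu (hf2 u (hS' hu) c)) (mem_sdiff.1 hy).2
    have k5 := (card_le_card k4).trans (card_insert_le _ _)
    have k6 : (S.image q).card ≤ S.card := card_image_le
    unfold ears at k3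
    omega
  by_cases hfib : ∀ t, (S.filter fun u => f u = t).card < m
  · obtain ⟨Q, a1, a2⟩ := split_fibers f hfib hlt
    have b1 := key _ (filter_subset _ _) _
      (fun u hu => subset_biUnion_of_mem (fun u => reg D s (f u)) hu) a1
    have b2 := key _ (filter_subset _ _) _
      (fun u hu => subset_biUnion_of_mem (fun u => reg D s (f u)) hu) a2
    have b3 : W0 ⊆ (W0 \ (S.filter fun u => f u ∈ Q).biUnion fun u => reg D s (f u)) ∪
        (W0 \ (S.filter fun u => f u ∉ Q).biUnion fun u => reg D s (f u)) := by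
      intro y hy
      by_contra k
      simp only [mem_union, mem_sdiff, hy, true_and, not_or, not_not, mem_biUnion,
        mem_filter] at k
      obtain ⟨⟨u, ⟨c1, c2⟩, c3⟩, u', ⟨c4, c5⟩, c6⟩ := k
      exact disjoint_left.1 (reg_disj h (hf1 u c1) (hf1 u' c4) (fun e => c5 (e ▸ c2)) (hf3 u c1)
        (hf3 u' c4)) c3 c6
    have b4 := (card_le_card b3).trans (card_union_le _ _)
    omega
  · obtain ⟨t, a1⟩ := not_forall.1 hfib
    have a1 := not_lt.1 a1
    obtain ⟨u, hu⟩ := card_pos.1 (hm.trans_le a1)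
    obtain ⟨c1, rfl⟩ := mem_filter.1 hu
    have b1 := key _ (filter_subset _ _) (reg D s (f u))
      (fun v hv => by rw [(mem_filter.1 hv).2]) a1
    have b2 := h1 _ (hf1 u c1)
    have b3 := card_sdiff_add_card_inter W0 (reg D s (f u))
    omega

theorem NP.ear {u : α} (h : NP D s u) :
    ∃ q, q ≠ s ∧ ∀ x y, Lin D x (u, y) → x = s ∨ x = q ∨ y ∈ reg D s q := by
  obtain ⟨q, h1, h2⟩ := h
  refine ⟨q, h1, fun x y hl => ?_⟩
  rcases h2 x ((hl.1 u).2 rfl) with c | c | c
  · exact Or.inl c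
  · exact Or.inr (Or.inl c)
  · refine Or.inr (Or.inr (mgrp_mem.2 ?_))
    exact (dom_of_arc (D := rv D) (dom_rv.2 c) ((hl.2 y).2 rfl)).imp_right dom_rv.1

theorem mgrp_obr (h : GR V D s) (hc : ∀ u, ¬ CycA D {s} u) (O : Finset (α × α))
    (a b : α × α → α) (hi : ∀ p q, a p = a q → b p = b q → p = q)
    (hO : ∀ p ∈ O, OBr D s (a p) (b p)) : O.card + (univ.filter (Br D)).card ≤ V.card := by
  have h1 : (O.image b).card = O.card := card_image_of_injOn fun p hp q hq e =>
    hi p q (h.obr_unique (hO p hp) (e ▸ hO q hq)) e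
  have h2 : Disjoint (O.image b) (univ.filter (Br D)) := by
    refine disjoint_left.2 fun y hy hy' => ?_
    obtain ⟨p, hp, rfl⟩ := mem_image.1 hy
    obtain ⟨u, u', k1, k2, k3⟩ := (mem_filter.1 hy').2
    exact k1 ((qdag_in h hc (hO p hp) k2).trans (qdag_in h hc (hO p hp) k3).symm)
  rw [← h1, ← card_union_of_disjoint h2]
  refine card_le_card (union_subset (fun y hy => ?_) fun y hy => ?_)
  · obtain ⟨p, hp, rfl⟩ := mem_image.1 hy
    exact (h.mem _ _ (hO p hp).1).2
  · obtain ⟨u, u', -, k2, -⟩ := (mem_filter.1 hy).2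
    exact (h.mem _ _ k2).2

theorem acc_acyc (h : GR V D s) (hc : ∀ u, ¬ CycA D {s} u) :
    narc D + (TC D s).card + (univ.filter (Br (rv D))).card ≤ 2 * V.card := by
  set O := univ.filter fun p : α × α => OBr D s p.1 p.2 with hO
  set I := univ.filter fun p : α × α => IBr D s p.1 p.2 with hI
  have h1 := mgrp_obr h hc O Prod.fst Prod.snd (fun p q a b => Prod.ext a b)
    fun p hp => (mem_filter.1 hp).2
  have h2 := mgrp_obr h.rev (fun u k => hc u (cycA_rv.1 k)) I Prod.snd Prod.fst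
    (fun p q a b => Prod.ext b a) fun p hp => obr_rv.2 (mem_filter.1 hp).2
  have h3 : narc D ≤ (O ∪ I).card := by
    refine card_le_card fun p hp => ?_
    rcases h.cr _ _ (mem_filter.1 hp).2 with c | c
    · exact mem_union_left _ (mem_filter.2 ⟨mem_univ _, c⟩)
    · exact mem_union_right _ (mem_filter.2 ⟨mem_univ _, c⟩)
  have h4 : TC D s ⊆ univ.filter (Br D) ∪ (O ∩ I).image Prod.snd := by
    intro y hy
    obtain ⟨c1, c2⟩ := (mem_filter.1 hy).2
    by_cases c3 : Br D y
    · exact mem_union_left _ (mem_filter.2 ⟨mem_univ _, c3⟩)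
    obtain ⟨u, c4⟩ := c2.resolve_left c3
    have c5 := h.obr_of_unique c1 fun a => ⟨fun e => eq_of_not_br c3 e c4.1, fun e => e ▸ c4.1⟩
    exact mem_union_right _ (mem_image.2 ⟨(u, y), mem_inter.2
      ⟨mem_filter.2 ⟨mem_univ _, c5⟩, mem_filter.2 ⟨mem_univ _, c4⟩⟩, rfl⟩)
  have h5 := (card_le_card h4).trans (card_union_le _ _)
  have h6 : ((O ∩ I).image Prod.snd).card ≤ (O ∩ I).card := card_image_le
  have h7 := card_union_add_card_inter O I
  omega

end Pool.Agent.Work.MP_5391ad_co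
end

-- merged part: Pool.Agent.Work.MP_5391ad_co.MPer
section
/-! What survives the three phases.
Object arcs of the link phase have their tail in `P x ∪ {x}` and head in `P x ∪ {nx x}`
(`pgph_arc`); by `loc` the tail is post-dominated by `nx x ≠ s` and the head is dominated by
`x ≠ s`; a vertex with a post-dominator other than `s` is `NP` (`dom_of_arc` for `rv`).
`np_of_pdd`: a post-dominator lies in `V1` (`GR.av_of_dom`), use `pdm`; for an in-bridge `(u, s)`
with `u ∉ M1` the out-arcs in `D` are arcs of `D1`, and the other out-neighbours are post-dominated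
by `u` (`GR.dom_of_obr_other` for `rv`). `ear2`: both arcs are arcs of `D1`, `x ∉ M1`, `x` is linear in
`D1` (`x = nx x0` would give `Src D1 s x`); tails of object arcs of the column phase are `PDd`
(`pcph_tail`, `loc`), so `D2 u x`; `x ∉ M2` because `Br D1 x` fails; `pcph_same`. `ear3`: the same
argument for `rv D2`. `dom2`: `dmg`, `np_of_pdd`, `dm`. `pdd2`: all in-neighbours of `y` in `D2` are
`s` or `q` or dominated by `q`; use `ear2`, `dom_of_arc`, `dom2`. `tc2`: as in `CDat.card_TT`.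
`tt2`, `tt3`: `z` is the out-neighbour `g` of `a` if `g ≠ s`, else `a`; `pdm` of the phases. -/

namespace Pool.Agent.Work.MP_5391ad_co

open Finset
open scoped Classical

variable {α : Type*} [Fintype α] {D : α → α → Prop} {s : α}

omit [Fintype α] in
theorem mper_np {q u : α} (hq : q ≠ s) (k : pdom D s q u) : NP D s u :=
  ⟨q, hq, fun _ hw => Or.inr (pcset_parc k hw)⟩

omit [Fintype α] in
theorem mper_pdd {V : Finset α} (h : GR V D s) {u : α} (hs : u ≠ s) (k : PDd D s u) :
    NP D s u := by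
  rcases k with ⟨q, hq, k⟩ | k
  · exact mper_np hq k
  · exact ⟨u, hs, fun w hw => or_iff_not_imp_left.2 fun e =>
      Or.inr (dom_rv.1 (h.rev.dom_of_obr_other (obr_rv.2 k) hw e))⟩

theorem mper_arc (p : Ph univ D s) {x u w : α} (hx : x ∈ p.M1) (k : (p.c1 x).arc (p.nx x) u w) :
    NP D s u ∧ NP (rv D) s w := by
  obtain ⟨a1, a2, a3, a4, a5⟩ := p.h1.loc x hx
  obtain ⟨b1, b2⟩ := pgph_arc (p.h1.val x hx) k
  refine ⟨mper_np a2 ?_, mper_np a1 (pdom_rv.2 ?_)⟩
  · exact b1.elim (fun e => (a5 u e).1) fun e => e ▸ a3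
  · exact b2.elim (fun e => (a5 w e).2) fun e => e ▸ a4

theorem mper_one (p : Ph univ D s) {u w : α} (h : ¬ NP D s u ∨ ¬ NP (rv D) s w) (k : D u w) :
    p.D1 u w ∧ u ∉ p.M1 := by
  rcases (p.h1.arcs u w).1 k with ⟨x, hx, k⟩ | k
  · exact h.elim (absurd (mper_arc p hx k).1) (absurd (mper_arc p hx k).2)
  · exact ⟨k.1, k.2.1⟩

theorem mper_ear1 (p : Ph univ D s) {u x y : α} (hu : ¬ NP D s u) (hus : u ≠ s)
    (hy : ¬ NP (rv D) s y) (hx : x ≠ s) (hl : Lin D x (u, y)) : Lin p.D1 x (u, y) := by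
  have a1 := (mper_one p (Or.inl hu) ((hl.1 u).2 rfl)).1
  obtain ⟨a2, a3⟩ := mper_one p (Or.inr hy) ((hl.2 y).2 rfl)
  refine ⟨fun w => ⟨fun k => (hl.1 w).1 ((p.h1.arcs w x).2 (Or.inr ⟨k, fun e => ?_, ?_⟩)),
    fun e => e ▸ a1⟩, fun w => ⟨fun k => (hl.2 w).1 ((p.h1.arcs x w).2
      (Or.inr ⟨k, a3, fun e => hx e.1⟩)), fun e => e ▸ a2⟩⟩
  · exact hx (((p.h1.ends w e).1 x).1 k)
  · rintro ⟨-, x0, e, rfl⟩
    exact hus (((p.h1.ends x0 e).2 u).1 a1)

/-- a vertex of in-degree one whose in-neighbour is not `PDd` survives the column phase -/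
theorem mper_col {V V2 M : Finset α} {D2 : α → α → Prop} {g : α → α} {P : α → Finset α}
    {c : α → OCode α} (h : CDat V D s V2 D2 M g P c) {u x : α} (hu : ¬ PDd D s u)
    (hl : ∀ w, D w x ↔ w = u) : D2 u x ∧ ∀ w, D x w ↔ D2 x w := by
  have a1 : D2 u x := by
    rcases (h.arcs u x).1 ((hl u).2 rfl) with ⟨a, ha, k⟩ | k
    · obtain ⟨-, -, b1, -, b2⟩ := h.loc a ha
      exact absurd ((pcph_tail (h.val a ha).toVal0 k).elim (fun e => (b2 u e).1)
        fun e => e ▸ b1) hu
    · exact k.1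
  refine ⟨a1, pcph_same h.toCEnc (h.good.mem _ _ a1).2 fun e => ?_⟩
  obtain ⟨a, a', b1, b2, b3⟩ := (h.loc x e).2.1
  exact b1 (((hl a).1 b2).trans ((hl a').1 b3).symm)

theorem mper_tt {V V2 M : Finset α} {D2 : α → α → Prop} {g : α → α} {P : α → Finset α}
    {c : α → OCode α} (h : CDat V D s V2 D2 M g P c) {a : α} (ha : a ∈ M) :
    ∃ z ∈ V2, z ≠ s ∧ ∀ y ∈ TT V2 D2 s a,
      y = a ∨ (y ∈ V2 ∧ y ≠ s ∧ y ∈ TC D2 s ∧ (y = z ∨ pdom D s z y)) := by
  obtain ⟨a1, a2⟩ := mem_erase.1 (h.mk2 ha)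
  have a3 := (h.good.mem _ _ ((h.out a ha _).2 rfl)).2
  have key : ∀ y ∈ TT V2 D2 s a, y = a ∨ (y ∈ V2 ∧ y ≠ s ∧ y ∈ TC D2 s ∧
      ((g a ≠ s ∧ (y = g a ∨ pdom D s (g a) y)) ∨ (g a = s ∧ pdom D s a y))) := by
    intro y hy
    obtain ⟨b1, b2 | ⟨b2, b3, g0, b4, b5⟩⟩ := mem_filter.1 hy
    · exact Or.inl b2
    obtain rfl : g0 = g a := (h.out a ha _).1 ((b4 _).2 rfl)
    exact Or.inr ⟨b1, b2, mem_filter.2 ⟨mem_univ _, b2, b3⟩,
      b5.imp (And.imp_right (Or.imp_right (h.pdm _ a3 _ b1).1))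
        (And.imp_right (h.pdm _ a2 _ b1).1)⟩
  by_cases e : g a = s
  · exact ⟨a, a2, a1, fun y hy => (key y hy).imp_right fun k =>
      ⟨k.1, k.2.1, k.2.2.1, Or.inr (k.2.2.2.resolve_left fun k' => k'.1 e).2⟩⟩
  · exact ⟨g a, a3, e, fun y hy => (key y hy).imp_right fun k =>
      ⟨k.1, k.2.1, k.2.2.1, (k.2.2.2.resolve_right fun k' => e k'.1).2⟩⟩

theorem Ph.np_of_pdd (h : GR univ D s) (p : Ph univ D s) {u : α} (hu : u ∈ p.V1) (hs : u ≠ s)
    (k : PDd p.D1 s u) : NP D s u := by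
  have _ := h
  have _ := hu
  by_contra e
  obtain ⟨q, hq, k⟩ := mper_pdd p.h1.good hs k
  refine e ⟨q, hq, fun w hw => ?_⟩
  have a1 := (mper_one p (Or.inl e) hw).1
  have a2 := (p.h1.good.mem _ _ a1).2
  exact (k w a1).imp_right (Or.imp_right fun k' =>
    p.h1.pdm q (pcset_pav p.h1.good a2 hq k').1 w a2 k')

theorem Ph.ear2 (h : GR univ D s) (p : Ph univ D s) {u x y : α} (hu : ¬ NP D s u) (hus : u ≠ s)
    (hy : ¬ NP (rv D) s y) (hx : x ≠ s) (hl : Lin D x (u, y)) :
    p.D2 u x ∧ ∀ w, p.D2 x w ↔ w = y := by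
  have a1 := mper_ear1 p hu hus hy hx hl
  obtain ⟨a2, a3⟩ := mper_col p.h2
    (fun k => hu (p.np_of_pdd h (p.h1.good.mem _ _ ((a1.1 u).2 rfl)).1 hus k)) a1.1
  exact ⟨a2, fun w => (a3 w).symm.trans (a1.2 w)⟩

theorem Ph.ear3 (h : GR univ D s) (p : Ph univ D s) {u x y : α} (hu : ¬ NP D s u) (hus : u ≠ s)
    (hy : ¬ NP (rv D) s y) (hy2 : ¬ PDd (rv p.D2) s y) (hx : x ≠ s) (hl : Lin D x (u, y)) :
    p.D3 u x ∧ p.D3 x y := by
  obtain ⟨a1, a2⟩ := p.ear2 h hu hus hy hx hl
  obtain ⟨a3, a4⟩ := mper_col p.h3 hy2 a2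
  exact ⟨(a4 u).1 a1, a3⟩

theorem Ph.dom2 (h : GR univ D s) (p : Ph univ D s) {u z : α} (hu : ¬ NP D s u) (hus : u ≠ s)
    (h1 : u ∈ p.V2) (h2 : z ∈ p.V2) (k : dom p.D2 s z u) : dom D s z u := p.h1.dm z (p.h2.sub h2) u (p.h2.sub h1) ((p.h2.dmg z h2 u h1 k).resolve_right fun e =>
    hu (p.np_of_pdd h (p.h2.sub h1) hus e))

theorem Ph.pdd2 (h : GR univ D s) (p : Ph univ D s) {y : α} (hy : ¬ NP (rv D) s y) (hys : y ≠ s)
    (k : PDd (rv p.D2) s y) : ∃ q, q ≠ s ∧ ∀ x u, ¬ NP D s u → u ≠ s → Lin D x (u, y) →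
      x = s ∨ x = q ∨ u ∈ reg (rv D) s q := by
  obtain ⟨q, hq, k⟩ := mper_pdd p.h2.good.rev hys k
  refine ⟨q, hq, fun x u hu hus hl => or_iff_not_imp_left.2 fun hx => ?_⟩
  obtain ⟨a1, a2⟩ := p.ear2 h hu hus hy hx hl
  have a3 := (p.h2.good.mem _ _ a1).1
  refine ((k x ((a2 y).2 rfl)).resolve_left hx).imp_right fun e => mem_filter.2 ⟨mem_univ _, ?_⟩
  exact (dom_of_arc (pdom_rv.1 e) a1).imp_right fun e' =>
    pdom_rv.2 (p.dom2 h hu hus a3 (p.h2.good.av_of_dom a3 hq e').1 e')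

theorem Ph.tc2 (p : Ph univ D s) :
    TC p.D2 s ⊆ TC p.D3 s ∪ (p.M3 ∪ p.M3.biUnion fun b => (p.c3 b).H) := by
  have h := p.h3
  intro y hy
  obtain ⟨-, hys, k1⟩ := mem_filter.1 hy
  have hy2 : y ∈ p.V2 := by
    rcases k1 with ⟨x, -, -, k, -⟩ | ⟨u, k⟩
    · exact (p.h2.good.mem _ _ k).2
    · exact (p.h2.good.mem _ _ k.1).2
  by_cases hM : y ∈ p.M3
  · exact mem_union_right _ (mem_union_left _ hM)
  by_cases hy3 : y ∈ p.V3
  · have e : ∀ w, p.D2 w y → p.D3 w y := fun w => (pcph_same h.toCEnc hy3 hM w).1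
    refine mem_union_left _ (mem_filter.2 ⟨mem_univ _, hys, ?_⟩)
    rcases k1 with ⟨x, x', x1, x2, x3⟩ | ⟨u, hu⟩
    · exact Or.inl ⟨x, x', x1, e x x2, e x' x3⟩
    · exact Or.inr ⟨u, obr_rv.1 (h.ob y u (obr_rv.2 hu) (e u hu.1))⟩
  obtain ⟨b, hb, hyb⟩ := mem_biUnion.1 (h.part ▸ mem_sdiff.2 ⟨hy2, hy3⟩ : y ∈ p.M3.biUnion p.P3)
  refine mem_union_right _ (mem_union_right _ (mem_biUnion.2 ⟨b, hb, ?_⟩))
  by_contra hH
  have e : ∀ w, p.D2 w y → (p.c3 b).tgt y = some w := fun w hw => by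
    rcases (h.arcs y w).1 hw with ⟨b', hb', k⟩ | k
    · obtain rfl : b' = b := by
        by_contra k4
        exact disjoint_left.1 (h.disj b' hb' b hb k4)
          ((pcph_tail (h.val b' hb').toVal0 k).resolve_right fun k5 => hM (k5 ▸ hb')) hyb
      rcases k with k | k | k
      · exact ((h.val b' hb).parm _ _ k).elim (absurd · hH) fun k5 => absurd (k5 ▸ hb) hM
      · exact k
      · exact ((h.val b' hb).frcm _ k.1).elim (absurd · hH) fun k5 => absurd (k5 ▸ hb) hM
    · exact absurd (h.good.mem _ _ k.1).1 hy3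
  rcases k1 with ⟨x, x', x1, x2, x3⟩ | ⟨u, hu⟩
  · exact x1 (Option.some.inj ((e x x2).symm.trans (e x' x3)))
  · exact h.tno b hb y u (e u hu.1) (obr_rv.2 hu)

theorem Ph.tt2 (p : Ph univ D s) {a : α} (ha : a ∈ p.M2) :
    ∃ z, z ≠ s ∧ TT p.V2 p.D2 s a ⊆ insert a (TC p.D2 s ∩ reg D s z) := by
  obtain ⟨z, a1, a2, k⟩ := mper_tt p.h2 ha
  refine ⟨z, a2, fun y hy => mem_insert.2 ((k y hy).imp_right fun e => ?_)⟩
  exact mem_inter.2 ⟨e.2.2.1, mem_filter.2 ⟨mem_univ _,
    e.2.2.2.imp_right (p.h1.pdm z (p.h2.sub a1) y (p.h2.sub e.1))⟩⟩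

theorem Ph.tt3 (h : GR univ D s) (p : Ph univ D s) {a : α} (ha : a ∈ p.M3) :
    ∃ z, z ≠ s ∧ ∀ y ∈ TT p.V3 (rv p.D3) s a, y = a ∨
      (y ∈ TC (rv p.D3) s ∧ (NP D s y ∨ y ∈ reg (rv D) s z)) := by
  obtain ⟨z, a1, a2, k⟩ := mper_tt p.h3 ha
  refine ⟨z, a2, fun y hy => (k y hy).imp_right fun e =>
    ⟨e.2.2.1, or_iff_not_imp_left.2 fun hn => mem_filter.2 ⟨mem_univ _, ?_⟩⟩⟩
  exact e.2.2.2.imp_right fun e' =>
    pdom_rv.2 (p.dom2 h hn e.2.1 (p.h3.sub e.1) (p.h3.sub a1) (pdom_rv.1 e'))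

end Pool.Agent.Work.MP_5391ad_co
end

-- merged part: Pool.Agent.Work.MP_5391ad_co.MRed
section
/-! A typical rooted digraph has a typical reduction.
`np_lt`: `group_lt` with `NP.ear`. `Ph.sets`: `Rp = {u ∈ R | u ≠ s, ¬ NP D s u}`,
`C0 = {y ∈ C | y ≠ s, ¬ NP (rv D) s y}` lose at most `3 m` each (`np_lt` for `D` and, with
`ears_rv`, for `rv D`); `Cp = {y ∈ C0 | ¬ PDd (rv D2) s y}` loses less than `3 m` more (`group_lt` for
`rv D`, `W0 = Rp`, `Ph.pdd2`); ears between `Rp` and `Cp` survive (`Ph.ear3`). If `S ⊆ Cp` consists of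
vertices of in-degree at most one in `D3` then at most `|S| + 1` ears go from `Rp` to `S`, so
`|S| < m`; same for rows. `Ph.small`: add the three fields `defi` (`narc_rv`), `acc_acyc` for `D3` or
`rv D3` (`h3.good`), `he.defi`; `C3 ⊆ TC D3 s`, `R3 ⊆ {Br (rv D3)}`. `Ph.red3`: `GR.dag_core`;
`|H| ≤ 2 dfc + 1` (`size`), `≤ 3 dfc` with `pos`; caps from `tt2`, `tc2`, `tt3`
(`|M3| ≤ ∑ dfc`): `1 + 14 m + 42 m + 14 m + t + 42 m`, and `1 + 14 m + 3 m + t + 42 m`; the ears
`x ≠ s` from `R3` to `C3` lie in `V3.erase s`; fields `snk`, `src`; `CDat.card_TT`. -/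

namespace Pool.Agent.Work.MP_5391ad_co

open Finset
open scoped Classical

variable {α : Type*} [Fintype α] {D : α → α → Prop} {s : α} {R C : Finset α} {m j N t : ℕ}

/-- a typical rooted digraph -/
structure TypD (D : α → α → Prop) (s : α) (R C : Finset α) (m j N t : ℕ) : Prop where
  gr : GR univ D s
  env : Env D R C m j N
  pos : 0 < m
  hj : R.card + C.card + 2 ≤ j
  capR : ∀ z, z ≠ s → (R ∩ reg (rv D) s z).card ≤ t
  capC : ∀ z, z ≠ s → (C ∩ reg D s z).card ≤ t
  tR : t + 4 * m ≤ R.card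
  tC : t + 4 * m ≤ C.card
  mR : 7 * m ≤ R.card
  mC : 7 * m ≤ C.card

theorem TypD.rev (h : TypD D s R C m j N t) : TypD (rv D) s C R m j N t :=
  ⟨h.gr.rev, ⟨by have := h.env.defi; rw [narc_rv]; omega,
    fun S hS W hW h1 h2 => by rw [ears_rv]; exact h.env.few W hW S hS h2 h1,
    fun S hS W hW h1 h2 => by rw [ears_rv]; exact h.env.big W hW S hS h2 h1⟩, h.pos,
    by have := h.hj; omega, h.capC, h.capR, h.tC, h.tR, h.mC, h.mR⟩

theorem TypD.np_lt (h : TypD D s R C m j N t) : (R.filter (NP D s)).card < 3 * m := by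
  have h1 := h.hj
  have h2 := h.tC
  have h3 := h.mC
  have h4 := card_filter_le R (NP D s)
  refine group_lt h.gr (W0 := C) (fun S hS W hW k1 k2 => ?_) (fun z hz => ?_) (by omega) h.pos
    fun u hu => ?_
  · have := h.env.few S (hS.trans (filter_subset _ _)) W hW k1 k2
    omega
  · have := h.capC z hz
    omega
  · obtain ⟨q, hq, k⟩ := (mem_filter.1 hu).2.ear
    exact ⟨q, hq, fun x y _ => k x y⟩

theorem mred_ears {E : α → α → Prop} {S W : Finset α} (hW : ∀ y ∈ W, ¬ Br E y)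
    (h : ∀ u ∈ S, ∀ y ∈ W, ∀ x, x ≠ s → Lin D x (u, y) → E x y) : ears D S W ≤ W.card + 1 := by
  have h1 : (univ.filter fun x => ∃ u ∈ S, ∃ y ∈ W, Lin D x (u, y)) ⊆
      insert s (W.biUnion fun y => univ.filter fun x => E x y) := by
    intro x hx
    obtain ⟨u, hu, y, hy, hl⟩ := (mem_filter.1 hx).2
    by_cases e : x = s
    · exact mem_insert.2 (Or.inl e)
    · exact mem_insert_of_mem (mem_biUnion.2 ⟨y, hy, mem_filter.2 ⟨mem_univ _, h u hu y hy x e hl⟩⟩)
  refine (card_le_card h1).trans ((card_insert_le _ _).trans (Nat.add_le_add_right ?_ _))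
  refine (card_biUnion_le_card_mul _ _ 1 fun y hy => card_le_one.2 fun a ha b hb => ?_).trans_eq
    (mul_one _)
  exact eq_of_not_br (hW y hy) (mem_filter.1 ha).2 (mem_filter.1 hb).2

theorem mred_good (h : TypD D s R C m j N t) :
    R.card ≤ (R.filter fun u => u ≠ s ∧ ¬ NP D s u).card + 3 * m := by
  have h1 : R ⊆ (R.filter fun u => u ≠ s ∧ ¬ NP D s u) ∪ insert s (R.filter (NP D s)) := by
    intro u hu
    simp only [mem_union, mem_filter, mem_insert]
    tauto
  have h2 := (card_le_card h1).trans (card_union_le _ _)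
  have h3 := card_insert_le s (R.filter (NP D s))
  have h4 := h.np_lt
  omega

theorem Ph.sets (h : TypD D s R C m j N t) (p : Ph univ D s) :
    ∃ R3 ⊆ R, ∃ C3 ⊆ C, R.card ≤ R3.card + 4 * m ∧ C.card ≤ C3.card + 7 * m ∧
      (∀ u ∈ R3, u ≠ s ∧ ¬ NP D s u ∧ Br (rv p.D3) u) ∧
      (∀ y ∈ C3, y ≠ s ∧ ¬ NP (rv D) s y ∧ Br p.D3 y) ∧
      ∀ u ∈ R3, ∀ y ∈ C3, ∀ x, x ≠ s → Lin D x (u, y) → p.D3 u x ∧ p.D3 x y := by
  have a1 := mred_good h
  have a2 := mred_good h.rev
  have a3 := h.hj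
  have a4 := h.tR
  have a5 := h.mR
  have a6 := h.mC
  obtain ⟨Rp, hRp⟩ : ∃ Rp, Rp = R.filter fun u => u ≠ s ∧ ¬ NP D s u := ⟨_, rfl⟩
  obtain ⟨C0, hC0⟩ : ∃ C0, C0 = C.filter fun y => y ≠ s ∧ ¬ NP (rv D) s y := ⟨_, rfl⟩
  rw [← hRp] at a1
  rw [← hC0] at a2
  have b1 : ∀ u, u ∈ Rp ↔ u ∈ R ∧ u ≠ s ∧ ¬ NP D s u := fun u => by rw [hRp, mem_filter]
  have b2 : ∀ y, y ∈ C0 ↔ y ∈ C ∧ y ≠ s ∧ ¬ NP (rv D) s y := fun u => by rw [hC0, mem_filter]
  have b3 : Rp ⊆ R := fun u hu => ((b1 u).1 hu).1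
  have b4 : C0 ⊆ C := fun u hu => ((b2 u).1 hu).1
  have b5 := card_le_card b3
  have b6 := card_le_card b4
  have c1 : (C0.filter (PDd (rv p.D2) s)).card < 3 * m := by
    have k0 := card_filter_le C0 (PDd (rv p.D2) s)
    refine group_lt h.gr.rev (W0 := Rp) (fun S hS W hW k1 k2 => ?_) (fun z hz => ?_) (by omega)
      h.pos fun y hy => ?_
    · have := h.env.few W (hW.trans b3) S (hS.trans ((filter_subset _ _).trans b4)) k2 k1
      rw [ears_rv]
      omega
    · have k1 := h.capR z hz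
      have k2 := card_le_card (inter_subset_inter_right (u := reg (rv D) s z) b3)
      omega
    · obtain ⟨k1, k2⟩ := mem_filter.1 hy
      obtain ⟨-, k3, k4⟩ := (b2 y).1 k1
      obtain ⟨q, hq, k⟩ := Ph.pdd2 h.gr p k4 k3 k2
      exact ⟨q, hq, fun x u hu hl => k x u ((b1 u).1 hu).2.2 ((b1 u).1 hu).2.1 (lin_rv.1 hl)⟩
  have c2 := card_filter_add_card_filter_not (s := C0) (PDd (rv p.D2) s)
  obtain ⟨Cp, hCp⟩ : ∃ Cp, Cp = C0.filter fun y => ¬ PDd (rv p.D2) s y := ⟨_, rfl⟩
  rw [← hCp] at c2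
  have c3 : ∀ y ∈ Cp, y ∈ C0 ∧ ¬ PDd (rv p.D2) s y := fun y hy => by rwa [hCp, mem_filter] at hy
  have c4 : Cp ⊆ C := fun y hy => b4 (c3 y hy).1
  have c5 : ∀ u ∈ Rp, ∀ y ∈ Cp, ∀ x, x ≠ s → Lin D x (u, y) → p.D3 u x ∧ p.D3 x y :=
    fun u hu y hy x hx hl => Ph.ear3 h.gr p ((b1 u).1 hu).2.2 ((b1 u).1 hu).2.1
      ((b2 y).1 (c3 y hy).1).2.2 (c3 y hy).2 hx hl
  have d1 : (Cp.filter fun y => ¬ Br p.D3 y).card < m := by
    by_contra k
    have k1 := h.env.few Rp b3 _ ((filter_subset _ _).trans c4) (by omega) (not_lt.1 k)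
    have k2 := mred_ears (D := D) (s := s) (S := Rp) (W := Cp.filter fun y => ¬ Br p.D3 y)
      (fun y hy => (mem_filter.1 hy).2) fun u hu y hy x hx hl =>
        (c5 u hu y (mem_filter.1 hy).1 x hx hl).2
    have k3 := card_le_card ((filter_subset (fun y => ¬ Br p.D3 y) _).trans c4)
    omega
  have d2 : (Rp.filter fun y => ¬ Br (rv p.D3) y).card < m := by
    by_contra k
    have k1 := h.env.few _ ((filter_subset _ _).trans b3) Cp c4 (not_lt.1 k) (by omega)
    have k2 := mred_ears (D := rv D) (s := s) (S := Cp) (W := Rp.filter fun y => ¬ Br (rv p.D3) y)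
      (fun y hy => (mem_filter.1 hy).2) fun y hy u hu x hx hl =>
        (c5 u (mem_filter.1 hu).1 y hy x hx (lin_rv.1 hl)).1
    have k3 := card_filter_le Rp fun y => ¬ Br (rv p.D3) y
    rw [ears_rv] at k2
    omega
  have d3 := card_filter_add_card_filter_not (s := Cp) (Br p.D3)
  have d4 := card_filter_add_card_filter_not (s := Rp) (Br (rv p.D3))
  refine ⟨Rp.filter (Br (rv p.D3)), (filter_subset _ _).trans b3, Cp.filter (Br p.D3),
    (filter_subset _ _).trans c4, by omega, by omega, fun u hu => ?_, fun y hy => ?_,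
    fun u hu y hy => c5 u (mem_filter.1 hu).1 y (mem_filter.1 hy).1⟩
  · obtain ⟨k1, k2⟩ := mem_filter.1 hu
    exact ⟨((b1 u).1 k1).2.1, ((b1 u).1 k1).2.2, k2⟩
  · obtain ⟨k1, k2⟩ := mem_filter.1 hy
    exact ⟨((b2 y).1 (c3 y k1).1).2.1, ((b2 y).1 (c3 y k1).1).2.2, k2⟩

theorem Ph.small (h : TypD D s R C m j N t) (p : Ph univ D s) :
    p.M1.card + ∑ x ∈ p.M1, (p.c1 x).dfc + ∑ x ∈ p.M2, (p.c2 x).dfc + ∑ x ∈ p.M3, (p.c3 x).dfc +
      (TC p.D3 s \ C).card ≤ 14 * m ∧ (TC (rv p.D3) s \ R).card ≤ 14 * m := by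
  obtain ⟨R3, a1, C3, a2, a3, a4, a5, a6, -⟩ := Ph.sets h p
  have b1 := p.h1.defi
  have b2 := p.h2.defi
  have b3 := p.h3.defi
  have b4 := h.env.defi
  have b5 : narc p.D3 + (TC p.D3 s).card + (univ.filter (Br (rv p.D3))).card ≤ 2 * p.V3.card :=
    acc_acyc p.h3.good.rev p.h4
  have b6 : narc (rv p.D3) + (TC (rv p.D3) s).card + (univ.filter (Br p.D3)).card ≤
      2 * p.V3.card := acc_acyc p.h3.good fun u hu => p.h4 u (cycA_rv.1 hu)
  rw [narc_rv, narc_rv] at b3
  rw [narc_rv] at b6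
  rw [card_univ] at b1
  have c1 := card_sdiff_add_card_inter (TC p.D3 s) C
  have c2 := card_sdiff_add_card_inter (TC (rv p.D3) s) R
  have c3 : C3.card ≤ (TC p.D3 s ∩ C).card := card_le_card fun y hy =>
    mem_inter.2 ⟨mem_filter.2 ⟨mem_univ _, (a6 y hy).1, Or.inl (a6 y hy).2.2⟩, a2 hy⟩
  have c4 : R3.card ≤ (TC (rv p.D3) s ∩ R).card := card_le_card fun y hy =>
    mem_inter.2 ⟨mem_filter.2 ⟨mem_univ _, (a5 y hy).1, Or.inl (a5 y hy).2.2⟩, a1 hy⟩
  have c5 : C3.card ≤ (univ.filter (Br p.D3)).card := card_le_card fun y hy =>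
    mem_filter.2 ⟨mem_univ _, (a6 y hy).2.2⟩
  have c6 : R3.card ≤ (univ.filter (Br (rv p.D3))).card := card_le_card fun y hy =>
    mem_filter.2 ⟨mem_univ _, (a5 y hy).2.2⟩
  omega

omit [Fintype α] in
theorem mred_hub {M Y : Finset α} {P : α → Finset α} {Z : α → Finset α} {c : α → OCode α}
    (h : ∀ a ∈ M, ValC a (P a) (Z a ∪ Y) (c a)) :
    M.card ≤ ∑ a ∈ M, (c a).dfc ∧ ∑ a ∈ M, (c a).H.card ≤ 3 * ∑ a ∈ M, (c a).dfc := by
  refine ⟨?_, ?_⟩
  · rw [card_eq_sum_ones]
    exact sum_le_sum fun a ha => (h a ha).pos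
  · rw [mul_sum]
    refine sum_le_sum fun a ha => ?_
    have h1 := (h a ha).pos
    have h2 := (h a ha).size
    omega

theorem Ph.red3 (h : TypD D s R C m j N t) (p : Ph univ D s) {vm cap N0 : ℕ} (h1 : 42 * m ≤ vm)
    (h2 : t + 120 * m ≤ cap) (h3 : N0 + 1 ≤ N) {E : Finset α → (α → α → Prop) → Prop}
    (hE : E (p.V3.erase s) p.core) : Red3 vm cap N0 s E D := by
  obtain ⟨R3, a1, C3, a2, a3, a4, -, -, a5⟩ := Ph.sets h p
  obtain ⟨b1, b2⟩ := Ph.small h p
  have g3 : GR p.V3 p.D3 s := p.h3.good.rev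
  obtain ⟨b3, b4⟩ := g3.dag_core p.h4
  have b5 : rootD s (p.V3.erase s) p.core = p.D3 := b4.symm
  obtain ⟨-, c2⟩ := mred_hub p.h2.val
  obtain ⟨c3, c4⟩ := mred_hub p.h3.val
  have c5 := h.pos
  have c6 := h.np_lt
  refine ⟨p.V1, p.D1, p.V2, p.D2, p.V3.erase s, p.core, p.M1.card, ∑ a ∈ p.M2, (p.c2 a).H.card,
    ∑ a ∈ p.M3, (p.c3 a).H.card, notMem_erase _ _, b3, hE, ?_, ?_⟩
  · have k1 := h.env.big R3 a1 C3 a2 (by omega) (by omega)
    have k2 : ears D R3 C3 ≤ (insert s (p.V3.erase s)).card := card_le_card fun x hx => by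
      obtain ⟨u, hu, y, hy, hl⟩ := (mem_filter.1 hx).2
      by_cases e : x = s
      · exact mem_insert.2 (Or.inl e)
      · exact mem_insert_of_mem (mem_erase.2 ⟨e, (g3.mem _ _ (a5 u hu y hy x e hl).1).2⟩)
    have k3 := card_insert_le s (p.V3.erase s)
    omega
  rw [b5, insert_erase g3.root]
  refine ⟨⟨p.M1, p.nx, p.P1, p.c1, p.h1.toGEnc, rfl, fun x hx => ?_⟩,
    ⟨p.M2, p.g2, p.P2, p.c2, p.h2.toCEnc, rfl, fun a ha => ?_⟩,
    ⟨p.M3, p.g3, p.P3, p.c3, p.h3.toCEnc, rfl, fun a ha => ?_⟩,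
    fun x hx => src_rv.1 (p.h3.src x (src_rv.2 (p.h2.snk x hx))),
    fun x hx => snk_rv.1 (p.h3.snk x (snk_rv.2 (p.h2.src x hx))),
    fun a ha => CDat.card_TT p.h2.good p.h3 ha⟩
  · have k1 := (p.h1.val x hx).size
    have k2 := single_le_sum (f := fun x => (p.c1 x).dfc) (fun _ _ => Nat.zero_le _) hx
    omega
  · have k1 := single_le_sum (f := fun x => (p.c2 x).H.card) (fun _ _ => Nat.zero_le _) ha
    obtain ⟨z, hz, k2⟩ := p.tt2 ha
    have k3 : TC p.D2 s ∩ reg D s z ⊆ (C ∩ reg D s z) ∪ ((TC p.D3 s \ C) ∪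
        (p.M3 ∪ p.M3.biUnion fun b => (p.c3 b).H)) := by
      intro y hy
      have k4 := mem_union.1 (p.tc2 (mem_inter.1 hy).1)
      have k5 := (mem_inter.1 hy).2
      rw [mem_union, mem_union, mem_inter, mem_sdiff]
      (clear * - k4 k5; tauto)
    have k4 := (card_le_card k2).trans (card_insert_le _ _)
    have k5 := (card_le_card k3).trans ((card_union_le _ _).trans (Nat.add_le_add_left
      ((card_union_le _ _).trans (Nat.add_le_add_left ((card_union_le _ _).trans
        (Nat.add_le_add_left card_biUnion_le _)) _)) _))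
    have k6 := h.capC z hz
    omega
  · have k1 := single_le_sum (f := fun x => (p.c3 x).H.card) (fun _ _ => Nat.zero_le _) ha
    obtain ⟨z, hz, k2⟩ := Ph.tt3 h.gr p ha
    have k3 : TT p.V3 (rv p.D3) s a ⊆ insert a ((TC (rv p.D3) s \ R) ∪
        (R.filter (NP D s) ∪ (R ∩ reg (rv D) s z))) := by
      intro y hy
      have k4 := k2 y hy
      rw [mem_insert, mem_union, mem_union, mem_inter, mem_sdiff, mem_filter]
      (clear * - k4; tauto)
    have k5 := (card_le_card k3).trans ((card_insert_le _ _).trans (Nat.add_le_add_right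
      ((card_union_le _ _).trans (Nat.add_le_add_left (card_union_le _ _) _)) _))
    have k6 := h.capR z hz
    omega

end Pool.Agent.Work.MP_5391ad_co
end

-- merged part: Pool.Agent.Work.MP_5391ad_co.MRoot
section
/-! Tight pairs and the root lemma.
Closed pairs (`Cl`) are stable under `(∩, ∩)` and `(∪, ∪)` and `g (S, Y) = |Y| - |S|` is modular. -/

namespace Pool.Agent.Work.MP_5391ad_co

open Finset
open scoped Classical

variable {α : Type*} [Fintype α] {B : α → α → Prop}

theorem cl_rv {S Y : Finset α} : Cl (rv B) Yᶜ Sᶜ ↔ Cl B S Y :=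
  ⟨fun h a ha b k => by_contra fun e => mem_compl.1 (h b (mem_compl.2 e) a k) ha,
    fun h b hb a k => mem_compl.2 fun e => mem_compl.1 hb (h a e b k)⟩

omit [Fintype α] in
theorem Cl.inter {S Y S' Y' : Finset α} (h : Cl B S Y) (h' : Cl B S' Y') :
    Cl B (S ∩ S') (Y ∩ Y') := fun a ha b k =>
  mem_inter.2 ⟨h a (mem_inter.1 ha).1 b k, h' a (mem_inter.1 ha).2 b k⟩

omit [Fintype α] in
theorem Cl.union {S Y S' Y' : Finset α} (h : Cl B S Y) (h' : Cl B S' Y') :
    Cl B (S ∪ S') (Y ∪ Y') := fun a ha b k =>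
  mem_union.2 ((mem_union.1 ha).imp (fun e => h a e b k) fun e => h' a e b k)

theorem FIr.le (h : FIr B) {S Y : Finset α} (hc : Cl B S Y) : S.card ≤ Y.card := by
  rcases S.eq_empty_or_nonempty with rfl | hS
  · simp
  by_cases hY : Y = univ
  · exact hY ▸ card_le_univ S
  · exact (Nat.le_succ _).trans (h S Y hc hS hY)

theorem FIr.succ_le (h : FIr B) {S Y : Finset α} (hc : Cl B S Y) (h1 : Y.Nonempty)
    (h2 : S ≠ univ) : S.card + 1 ≤ Y.card := by
  rcases S.eq_empty_or_nonempty with rfl | hS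
  · simpa using h1
  by_cases hY : Y = univ
  · exact hY ▸ (card_lt_iff_ne_univ S).2 h2
  · exact h S Y hc hS hY

theorem FIr.rev (h : FIr B) : FIr (rv B) := by
  intro W X hc h1 h2
  have k := h Xᶜ Wᶜ (cl_rv.1 (by simpa using hc)) (by
    rw [nonempty_iff_ne_empty]; simpa using h2) (by simpa using h1.ne_empty)
  have := card_add_card_compl X
  have := card_add_card_compl W
  omega

theorem tight_rv {S Y : Finset α} : Tight (rv B) Yᶜ Sᶜ ↔ Tight B S Y := by
  refine and_congr cl_rv ?_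
  have := card_add_card_compl S
  have := card_add_card_compl Y
  omega

theorem NoBlk.rev {R C : Finset α} {m : ℕ} (h : NoBlk B R C m) : NoBlk (rv B) C R m := by
  intro W X k
  have := h Xᶜ Wᶜ (tight_rv.1 (by simpa using k))
  rw [show C \ Wᶜ = W ∩ C by ext; simp [and_comm],
    show Xᶜ ∩ R = R \ X by ext; simp [and_comm]] at this
  exact this.symm

theorem NDr.rev (h : NDr B) : NDr (rv B) := by
  refine ⟨h.fi.rev, fun b a k => ?_⟩
  obtain ⟨S, Y, h1, h2, h3, h4⟩ := h.cr a b k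
  refine ⟨Yᶜ, Sᶜ, mem_compl.2 h2, by simpa using h1, by rw [card_compl, card_compl, h3],
    fun j hj i e => or_iff_not_imp_left.2 fun e' => ?_⟩
  exact ((h4 i (by simpa using e') j e).resolve_left (mem_compl.1 hj)).symm

theorem FIr.perm (h : FIr B) (π : Equiv.Perm α) : FIr fun a b => B (π a) b := by
  intro S Y hc h1 h2
  have := h (S.map π.toEmbedding) Y (fun a ha b k => by
    obtain ⟨a', ha', rfl⟩ := mem_map.1 ha
    exact hc a' ha' b k) (by simpa using h1) h2
  rwa [card_map] at this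

theorem NDr.perm (h : NDr B) (π : Equiv.Perm α) : NDr fun a b => B (π a) b := by
  refine ⟨h.fi.perm π, fun a b k => ?_⟩
  obtain ⟨S, Y, h1, h2, h3, h4⟩ := h.cr _ b k
  refine ⟨S.map π.symm.toEmbedding, Y, by simpa using h1, h2, by rw [card_map, h3],
    fun i hi j e => (h4 (π i) (by simpa using hi) j e).imp_right fun e' => ⟨π.injective e'.1, e'.2⟩⟩

theorem FIr.uncross (h : FIr B) {S Y S' Y' : Finset α} (h1 : Tight B S Y) (h2 : Tight B S' Y')
    (h3 : (Y ∩ Y').Nonempty) (h4 : S ∪ S' ≠ univ) :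
    Tight B (S ∩ S') (Y ∩ Y') ∧ Tight B (S ∪ S') (Y ∪ Y') := by
  have a1 := h.succ_le (h1.1.inter h2.1) h3 fun e =>
    h4 (eq_univ_of_forall fun x => mem_union_left _ (mem_inter.1 (e ▸ mem_univ x)).1)
  have a2 := h.succ_le (h1.1.union h2.1) (h3.mono inter_subset_union) h4
  have a3 := card_union_add_card_inter S S'
  have a4 := card_union_add_card_inter Y Y'
  have := h1.2
  have := h2.2
  exact ⟨⟨h1.1.inter h2.1, by omega⟩, h1.1.union h2.1, by omega⟩

theorem FIr.three_inter (h : FIr B) {S1 Y1 S2 Y2 S3 Y3 : Finset α} (h1 : Tight B S1 Y1)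
    (h2 : Tight B S2 Y2) (h3 : Tight B S3 Y3) (a1 : (Y1 ∩ Y2).Nonempty) (a2 : (Y1 ∩ Y3).Nonempty)
    (a3 : (Y2 ∩ Y3).Nonempty) (b1 : S1 ∪ S2 ≠ univ) (b2 : S1 ∪ S3 ≠ univ) (b3 : S2 ∪ S3 ≠ univ) :
    (Y1 ∩ Y2 ∩ Y3).Nonempty ∨ S1 ∪ S2 ∪ S3 = univ := by
  by_contra! k
  have t12 := (h.uncross h1 h2 a1 b1).2
  have t13 := (h.uncross h1 h3 a2 b2).1
  have t23 := (h.uncross h2 h3 a3 b3).1
  have c1 := h.succ_le (t12.1.union h3.1) ((a1.mono inter_subset_union).mono subset_union_left) k.2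
  have c2 := card_union_add_card_inter (S1 ∪ S2) S3
  have c3 := card_union_add_card_inter (Y1 ∪ Y2) Y3
  have c4 := card_union_le (S1 ∩ S3) (S2 ∩ S3)
  have c5 := card_union_add_card_inter (Y1 ∩ Y3) (Y2 ∩ Y3)
  have c6 : Y1 ∩ Y3 ∩ (Y2 ∩ Y3) = Y1 ∩ Y2 ∩ Y3 := by ext; simp only [mem_inter]; tauto
  rw [c6, k.1, card_empty, ← union_inter_distrib_right] at c5
  rw [← union_inter_distrib_right] at c4
  have := t12.2
  have := t13.2
  have := t23.2
  have := h3.2
  omega

theorem FIr.three_union (h : FIr B) {S1 Y1 S2 Y2 S3 Y3 : Finset α} (h1 : Tight B S1 Y1)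
    (h2 : Tight B S2 Y2) (h3 : Tight B S3 Y3) (a : (Y1 ∩ Y2 ∩ Y3).Nonempty)
    (b1 : S1 ∪ S2 ≠ univ) (b2 : S1 ∪ S3 ≠ univ) (b3 : S2 ∪ S3 ≠ univ) :
    S1 ∪ S2 ∪ S3 ≠ univ := by
  intro k
  obtain ⟨c, hc⟩ := a
  simp only [mem_inter] at hc
  have t12 := (h.uncross h1 h2 ⟨c, by simp [hc]⟩ b1).2
  have t13 := (h.uncross h1 h3 ⟨c, by simp [hc]⟩ b2).1
  have t23 := (h.uncross h2 h3 ⟨c, by simp [hc]⟩ b3).1
  have t := (h.uncross t13 t23 ⟨c, by simp [hc]⟩ fun e => b2 (eq_univ_of_forall fun x =>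
    mem_union_right _ ((mem_union.1 (e ▸ mem_univ x)).elim (fun e => (mem_inter.1 e).2)
      fun e => (mem_inter.1 e).2))).2.2
  rw [← union_inter_distrib_right, ← union_inter_distrib_right] at t
  have c1 := card_le_univ (Y1 ∪ Y2 ∪ Y3)
  have c2 := card_union_add_card_inter (S1 ∪ S2) S3
  have c3 := card_union_add_card_inter (Y1 ∪ Y2) Y3
  rw [k, card_univ] at c2
  have := t12.2
  have := h3.2
  omega

theorem mroot_ne {R S S' : Finset α} (h : (S ∩ R).card + (S' ∩ R).card < R.card) :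
    S ∪ S' ≠ univ := by
  intro e
  have := card_union_le (S ∩ R) (S' ∩ R)
  rw [← union_inter_distrib_right, e, univ_inter] at this
  omega

omit [Fintype α] in
theorem mroot_union (R S S' : Finset α) :
    ((S ∪ S') ∩ R).card ≤ (S ∩ R).card + (S' ∩ R).card := by
  rw [union_inter_distrib_right]
  exact card_union_le _ _

/-- all tight pairs through `c` of a family with proper pairwise unions lie in one tight pair -/
theorem FIr.exists_top (h : FIr B) (c : α) (F : Finset α → Finset α → Prop)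
    (hF : ∀ S Y, F S Y → Tight B S Y ∧ c ∈ Y)
    (h2 : ∀ S Y S' Y', F S Y → F S' Y' → S ∪ S' ≠ univ) :
    ∃ U Z, Tight B U Z ∧ c ∈ Z ∧ ∀ S Y, F S Y → S ⊆ U ∧ Y ⊆ Z := by
  obtain ⟨⟨U, Z⟩, k1, k2⟩ := exists_max_image (univ.filter fun p : Finset α × Finset α =>
    Tight B p.1 p.2 ∧ c ∈ p.2 ∧ ∀ S Y, F S Y → p.1 ∪ S ≠ univ) (fun p => p.1.card)
    ⟨(∅, {c}), mem_filter.2 ⟨mem_univ _, ⟨fun _ k => absurd k (notMem_empty _), by simp⟩,
      mem_singleton_self c, fun S Y k => by simpa using h2 S Y S Y k k⟩⟩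
  obtain ⟨a1, a2, a3⟩ := (mem_filter.1 k1).2
  refine ⟨U, Z, a1, a2, fun S Y k => ?_⟩
  obtain ⟨b1, b2⟩ := hF S Y k
  have t := (h.uncross a1 b1 ⟨c, mem_inter.2 ⟨a2, b2⟩⟩ (a3 S Y k)).2
  have := k2 (U ∪ S, Z ∪ Y) (mem_filter.2 ⟨mem_univ _, t, mem_union_left _ a2, fun S' Y' k' =>
    h.three_union a1 b1 (hF S' Y' k').1 ⟨c, by simp [a2, b2, (hF S' Y' k').2]⟩ (a3 S Y k)
      (a3 S' Y' k') (h2 S Y S' Y' k k')⟩)
  have e1 := t.2
  have e2 := a1.2
  have e3 := card_le_card (subset_union_left (s₁ := U) (s₂ := S))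
  have e4 := card_union_add_card_inter Z Y
  dsimp only at this e1 e2
  exact ⟨union_eq_left.1 (eq_of_subset_of_card_le subset_union_left this).symm,
    union_eq_left.1 (eq_of_subset_of_card_le subset_union_left (by omega)).symm⟩

/-- three light tight pairs which meet pairwise have a common column -/
theorem FIr.helly3 (h : FIr B) {R C : Finset α} {m τ : ℕ} (hb : NoBlk B R C m)
    (h2 : 2 * τ + m ≤ R.card) (h3 : 3 * m ≤ C.card) {S1 Y1 S2 Y2 S3 Y3 : Finset α}
    (t1 : Tight B S1 Y1) (t2 : Tight B S2 Y2) (t3 : Tight B S3 Y3) (l1 : (S1 ∩ R).card < τ)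
    (l2 : (S2 ∩ R).card < τ) (l3 : (S3 ∩ R).card < τ) (a1 : (Y1 ∩ Y2).Nonempty)
    (a2 : (Y1 ∩ Y3).Nonempty) (a3 : (Y2 ∩ Y3).Nonempty) : (Y1 ∩ Y2 ∩ Y3).Nonempty := by
  refine (h.three_inter t1 t2 t3 a1 a2 a3 (mroot_ne (R := R) (by omega))
    (mroot_ne (R := R) (by omega)) (mroot_ne (R := R) (by omega))).elim id fun e => ?_
  have c1 := mroot_union R (S1 ∪ S2) S3
  have c2 := mroot_union R S1 S2
  rw [e, univ_inter] at c1
  have d1 := (hb _ _ t1).resolve_left (by omega)
  have d2 := (hb _ _ t2).resolve_left (by omega)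
  have d3 := (hb _ _ t3).resolve_left (by omega)
  rw [nonempty_iff_ne_empty]
  intro k
  have : C ⊆ C \ Y1 ∪ C \ Y2 ∪ C \ Y3 := fun x hx => by
    have : x ∉ Y1 ∩ Y2 ∩ Y3 := k ▸ notMem_empty x
    simp only [mem_inter, mem_union, mem_sdiff] at this ⊢
    (clear * - hx this; tauto)
  have e1 := card_le_card this
  have e2 := card_union_le (C \ Y1 ∪ C \ Y2) (C \ Y3)
  have e3 := card_union_le (C \ Y1) (C \ Y2)
  omega

/-- a column common to a family of light tight pairs which meet pairwise -/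
theorem FIr.helly (h : FIr B) {R C : Finset α} {m τ : ℕ} (hb : NoBlk B R C m) (hm : 0 < m)
    (h2 : 2 * τ + m ≤ R.card) (h3 : 3 * m ≤ C.card)
    (F : Finset α → Finset α → Prop) (hF : ∀ S Y, F S Y → Tight B S Y ∧ (S ∩ R).card < τ)
    (hF2 : ∀ S Y S' Y', F S Y → F S' Y' → (Y ∩ Y').Nonempty) : ∃ c, ∀ S Y, F S Y → c ∈ Y := by
  by_cases h0 : ∃ S Y, F S Y
  swap
  · obtain ⟨c, -⟩ := card_pos.1 (show 0 < C.card by omega)
    exact ⟨c, fun S Y k => absurd ⟨S, Y, k⟩ h0⟩
  obtain ⟨S0, Y0, h0⟩ := h0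
  obtain ⟨⟨U, Z⟩, k1, k2⟩ := exists_min_image (univ.filter fun p : Finset α × Finset α =>
    Tight B p.1 p.2 ∧ (p.1 ∩ R).card < τ ∧ ∀ S Y, F S Y → (p.2 ∩ Y).Nonempty) (fun p => p.2.card)
    ⟨(S0, Y0), mem_filter.2 ⟨mem_univ _, (hF _ _ h0).1, (hF _ _ h0).2,
      fun S Y k => hF2 _ _ _ _ h0 k⟩⟩
  obtain ⟨a1, a2, a3⟩ := (mem_filter.1 k1).2
  dsimp only at a1 a2 a3
  obtain ⟨c, hc⟩ := card_pos.1 (show 0 < Z.card by have := a1.2; omega)
  refine ⟨c, fun S Y k => ?_⟩
  obtain ⟨b1, b2⟩ := hF S Y k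
  have t := (h.uncross a1 b1 (a3 S Y k) (mroot_ne (R := R) (by omega))).1
  have := k2 (U ∩ S, Z ∩ Y) (mem_filter.2 ⟨mem_univ _, t, lt_of_le_of_lt
    (card_le_card (inter_subset_inter_right inter_subset_left)) a2, fun S' Y' k' =>
      h.helly3 hb h2 h3 a1 b1 (hF _ _ k').1 a2 b2 (hF _ _ k').2 (a3 _ _ k) (a3 _ _ k')
        (hF2 _ _ _ _ k k')⟩)
  dsimp only at this
  rw [← eq_of_subset_of_card_le inter_subset_left this] at hc
  exact (mem_inter.1 hc).2

theorem FIr.exists_root (h : FIr B) {R C : Finset α} {m τ : ℕ} (hb : NoBlk B R C m) (hm : 0 < m)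
    (h1 : 2 * m ≤ τ) (h2 : 2 * τ + 2 * m ≤ R.card) (h3 : 3 * m ≤ C.card) :
    ∃ r, IsRoot B R τ r := by
  by_contra! hr
  simp only [IsRoot, not_forall, not_le] at hr
  obtain ⟨c, hc⟩ := h.helly hb hm (show 2 * τ + m ≤ R.card by omega) h3
    (fun S Y => Tight B S Y ∧ (S ∩ R).card < τ ∧ (C \ Y).card < m) (fun S Y k => ⟨k.1, k.2.1⟩)
    fun S Y S' Y' k k' => by
      rw [nonempty_iff_ne_empty]
      intro e
      have e1 := card_union_le (C \ Y) (C \ Y')
      rw [← sdiff_inter_distrib_right, e, sdiff_empty] at e1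
      omega
  have tiny : ∀ S Y, Tight B S Y → (S ∩ R).card < τ → c ∉ Y → (S ∩ R).card < m :=
    fun S Y k1 k2 k3 => (hb S Y k1).resolve_right fun k => k3 (hc S Y ⟨k1, k2, k⟩)
  obtain ⟨U, Z, u1, -, u3⟩ := h.exists_top c
    (fun S Y => Tight B S Y ∧ c ∈ Y ∧ (S ∩ R).card < τ + m) (fun S Y k => ⟨k.1, k.2.1⟩)
    fun S Y S' Y' k k' => mroot_ne (R := R) (by omega)
  let near : Finset α × Finset α → Prop := fun p => Tight B p.1 p.2 ∧ (p.1 ∩ R).card < τ ∧
    ∃ T X, Tight B T X ∧ (T ∩ R).card < τ ∧ c ∈ X ∧ (p.2 ∩ X).Nonempty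
  have n0 : ∀ S Y, Tight B S Y → (S ∩ R).card < τ → c ∈ Y → near (S, Y) := fun S Y k1 k2 k3 =>
    ⟨k1, k2, S, Y, k1, k2, k3, c, by simpa using k3⟩
  have n1 : ∀ p, near p → p.1 ⊆ U := by
    rintro ⟨S, Y⟩ ⟨k1, k2, T, X, k3, k4, k5, k6⟩
    dsimp only at k1 k2 k6 ⊢
    by_cases e : c ∈ Y
    · exact (u3 S Y ⟨k1, e, by omega⟩).1
    · have := tiny S Y k1 k2 e
      have := mroot_union R S T
      exact subset_union_left.trans (u3 (S ∪ T) (Y ∪ X) ⟨(h.uncross k1 k3 k6
        (mroot_ne (R := R) (by omega))).2, mem_union_right _ k5, by omega⟩).1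
  set S1 := (univ.filter near).biUnion Prod.fst with hS1
  set Y1 := (univ.filter near).biUnion Prod.snd with hY1
  have cY : c ∈ Y1 := mem_biUnion.2 ⟨(∅, {c}), mem_filter.2 ⟨mem_univ _, n0 _ _
    ⟨fun _ k => absurd k (notMem_empty _), by simp⟩ (by simp; omega) (by simp)⟩, by simp⟩
  have c1 : Cl B S1 Y1 := fun a ha b k => by
    obtain ⟨p, p1, p2⟩ := mem_biUnion.1 ha
    exact mem_biUnion.2 ⟨p, p1, (mem_filter.1 p1).2.1.1 a p2 b k⟩
  have c2 : Cl B S1ᶜ Y1ᶜ := fun a ha b k => mem_compl.2 fun hb' => mem_compl.1 ha <| by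
    obtain ⟨S, Y, k1, k2, k3⟩ := hr a
    obtain ⟨⟨S', Y'⟩, p1, p2⟩ := mem_biUnion.1 hb'
    obtain ⟨q1, q2, T, X, q3, q4, q5, q6⟩ := (mem_filter.1 p1).2
    dsimp only at q1 q2 q6 p2
    have hby := k1.1 a k2 b k
    by_cases e : c ∈ Y
    · exact mem_biUnion.2 ⟨(S, Y), mem_filter.2 ⟨mem_univ _, n0 _ _ k1 k3 e⟩, k2⟩
    by_cases e' : c ∈ Y'
    · exact mem_biUnion.2 ⟨(S, Y), mem_filter.2 ⟨mem_univ _, k1, k3, S', Y', q1, q2, e', b,
        mem_inter.2 ⟨hby, p2⟩⟩, k2⟩
    have := tiny S Y k1 k3 e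
    have := tiny S' Y' q1 q2 e'
    have := mroot_union R S S'
    exact mem_biUnion.2 ⟨(S ∪ S', Y ∪ Y'), mem_filter.2 ⟨mem_univ _, (h.uncross k1 q1
      ⟨b, mem_inter.2 ⟨hby, p2⟩⟩ (mroot_ne (R := R) (by omega))).2, by dsimp only; omega,
      T, X, q3, q4, q5, q6.mono (inter_subset_inter_right subset_union_right)⟩,
      mem_union_left _ k2⟩
  have c3 : S1 ≠ univ := fun e => by
    have e1 := card_le_card (show S1 ⊆ U from biUnion_subset.2 fun p k => n1 p (mem_filter.1 k).2)
    have e2 := card_le_univ Z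
    rw [e, card_univ] at e1
    have := u1.2
    omega
  have d1 := h.succ_le c1 ⟨c, cY⟩ c3
  have d2 := h.le c2
  have := card_add_card_compl S1
  have := card_add_card_compl Y1
  omega

theorem FIr.exists_frame (h : FIr B) (r c : α) :
    ∃ π : Equiv.Perm α, π c = r ∧ Frame B π c := by
  have key : ∀ W : Finset α, W.card ≤ (W.biUnion fun j =>
      if j = c then {r} else (univ.filter fun i => B i j).erase r).card := by
    intro W
    set T := W.biUnion fun j => if j = c then {r} else (univ.filter fun i => B i j).erase r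
    have c1 : Cl (rv B) (W.erase c) (insert r T) := fun j hj i k =>
      mem_insert.2 (or_iff_not_imp_left.2 fun e => mem_biUnion.2 ⟨j, (mem_erase.1 hj).2, by
        rw [if_neg (mem_erase.1 hj).1]
        exact mem_erase.2 ⟨e, mem_filter.2 ⟨mem_univ _, k⟩⟩⟩)
    have c2 := h.rev.succ_le c1 (insert_nonempty _ _) fun e => by
      simpa using eq_univ_iff_forall.1 e c
    by_cases hc : c ∈ W
    · rw [insert_eq_of_mem (mem_biUnion.2 ⟨c, hc, by simp⟩), card_erase_add_one hc] at c2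
      exact c2
    · have := card_insert_le r T
      rw [erase_eq_of_notMem hc] at c2
      omega
  obtain ⟨f, hf, hf'⟩ := (all_card_le_biUnion_card_iff_exists_injective _).1 key
  refine ⟨Equiv.ofBijective f hf.bijective_of_finite, by simpa using hf' c, fun j hj => ?_⟩
  have := hf' j
  rw [if_neg hj] at this
  exact (mem_filter.1 (mem_erase.1 this).2).2

theorem mroot_fi {n : ℕ} (hn : 2 ≤ n) {A : Fin n → Fin n → Bool} :
    ¬ PartlyDecomposable A ↔ FIr fun a b => A a b = true := by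
  constructor
  · intro h S Y hc h1 h2
    by_contra! k
    have e1 : Yᶜ.card = n - Y.card := by rw [card_compl, Fintype.card_fin]
    have e2 : Y.card < n := by simpa using (card_lt_iff_ne_univ Y).2 h2
    have e3 := card_pos.2 h1
    obtain ⟨R, hR, hR'⟩ := exists_subset_card_eq (s := S) (n := max 1 Y.card) (by omega)
    obtain ⟨C, hC, hC'⟩ := exists_subset_card_eq (s := Yᶜ) (n := n - max 1 Y.card) (by omega)
    refine h ⟨R, C, card_pos.1 (by omega), card_pos.1 (by omega), by omega, fun i hi j hj => ?_⟩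
    by_contra e
    exact mem_compl.1 (hC hj) (hc i (hR hi) j (by simpa using e))
  · rintro h ⟨R, C, h1, h2, h3, h4⟩
    have := h R Cᶜ (fun a ha b k => mem_compl.2 fun e => by simp [h4 a ha b e] at k) h1
      (by simpa using h2.ne_empty)
    rw [card_compl, Fintype.card_fin] at this
    omega

theorem nearly_iff_ndr {n : ℕ} (hn : 2 ≤ n) {A : Fin n → Fin n → Bool} :
    NearlyDecomposable A ↔ NDr fun a b => A a b = true := by
  rw [nearly_iff hn]
  constructor
  · rintro ⟨h1, h2⟩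
    refine ⟨(mroot_fi hn).1 h1, fun a b k => ?_⟩
    obtain ⟨R, C, c1, c2, c3, c4⟩ := h2 a b k
    have c5 : ∀ i ∈ R, ∀ j ∈ C, A i j = true → i = a ∧ j = b := fun i hi j hj e => by
      by_contra e'
      have := c4 i hi j hj
      simp only [if_neg e'] at this
      simp [this] at e
    have c6 : a ∈ R ∧ b ∈ C := by
      by_contra e
      refine h1 ⟨R, C, c1, c2, c3, fun i hi j hj => ?_⟩
      by_contra e'
      obtain ⟨rfl, rfl⟩ := c5 i hi j hj (by simpa using e')
      exact e ⟨hi, hj⟩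
    exact ⟨R, Cᶜ, c6.1, by simpa using c6.2, by rw [card_compl, Fintype.card_fin]; omega,
      fun i hi j e => or_iff_not_imp_left.2 fun e' => c5 i hi j (by simpa using e') e⟩
  · intro h
    refine ⟨(mroot_fi hn).2 h.fi, fun a b k => ?_⟩
    obtain ⟨S, Y, c1, c2, c3, c4⟩ := h.cr a b k
    have := card_add_card_compl Y
    rw [Fintype.card_fin] at this
    refine ⟨S, Yᶜ, ⟨a, c1⟩, ⟨b, mem_compl.2 c2⟩, by omega, fun i hi j hj => ?_⟩
    by_cases e : i = a ∧ j = b
    · simp [e]
    · simp only [if_neg e]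
      by_contra e'
      exact e ((c4 i hi j (by simpa using e')).resolve_left (mem_compl.1 hj))

theorem NDr.equiv {β : Type*} [Fintype β] (h : NDr B) (e f : β ≃ α) :
    NDr fun a b => B (e a) (f b) := by
  constructor
  · intro S Y hc h1 h2
    have := h.fi (S.map e.toEmbedding) (Y.map f.toEmbedding) (fun a ha b k => by
      obtain ⟨a', ha', rfl⟩ := mem_map.1 ha
      obtain ⟨b, rfl⟩ := f.surjective b
      exact mem_map_of_mem _ (hc a' ha' b k)) (by simpa using h1) fun k =>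
        h2 (eq_univ_of_forall fun x => by simpa using eq_univ_iff_forall.1 k (f x))
    rwa [card_map, card_map] at this
  · intro a b k
    obtain ⟨S, Y, h1, h2, h3, h4⟩ := h.cr _ _ k
    exact ⟨S.map e.symm.toEmbedding, Y.map f.symm.toEmbedding, by simpa using h1,
      by simpa using h2, by rw [card_map, card_map, h3], fun i hi j k' =>
      (h4 (e i) (by simpa using hi) _ k').imp (by simp) fun e' =>
        ⟨e.injective e'.1, f.injective e'.2⟩⟩

theorem card_ndr (hn : 2 ≤ Fintype.card α) :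
    (univ.filter fun B : α → α → Prop => NDr B).card = numND (Fintype.card α) := by
  rw [numND_eq]
  set e := Fintype.equivFin α
  symm
  refine card_bij (fun A _ a b => A (e a) (e b) = true) (fun A hA => mem_filter.2 ⟨mem_univ _,
    ((nearly_iff_ndr hn).1 (mem_filter.1 hA).2).equiv e e⟩) (fun A _ A' _ k => ?_) fun B hB => ?_
  · funext i j
    have := congrFun (congrFun k (e.symm i)) (e.symm j)
    simpa using this
  · refine ⟨fun i j => decide (B (e.symm i) (e.symm j)), mem_filter.2 ⟨mem_univ _,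
      (nearly_iff_ndr hn).2 ?_⟩, by funext a b; simp⟩
    simpa using (mem_filter.1 hB).2.equiv e.symm e.symm

end Pool.Agent.Work.MP_5391ad_co
end

-- merged part: Pool.Agent.Work.MP_5391ad_co.TSplit
section
/-! Static splitting of acyclic feed structures.
`acys_split`: `φ ↦ (φ` on `S`, `φ` on `R \ S)`, extended by `o0`, is a bijection
(`Finset.sum_mul_sum`, `sum_product'`, `sum_bij'`); for the glued structure take the rank `rk1` on
`S` and `M + rk2` off `S`, where `M` exceeds `rk1` on `S`.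
`held_sum`: put the conditions `d0`, `r0` into vertex dependent weights (indicator times `w`) and
apply `acys_split` three times: with `S`, then `{z}` in `R \ S`, then `D` in `R \ S \ {z}`. Evaluate
the factors by `acys_sum_one` (the factor of `{z}` directly, it is `∑_{o ⊆ S} w o`); the sums over
options are differences of sums over powersets (`hw`).
`exists_heldS`: every `v ∈ R` is reached along feeds from a vertex with empty feed (induction on
the rank); use the last step of a walk (`Relation.ReflTransGen.cases_tail`, `Av.tail`). -/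

namespace Pool.Agent.Work.MP_5391ad_co

open Finset Real
open scoped Classical

variable {α : Type*} [Fintype α]

theorem acys_split {Ω 𝕜 : Type*} [CommRing 𝕜] (fd : Ω → Finset α) (O : Finset Ω) (o0 : Ω)
    {R S : Finset α} (hS : S ⊆ R) (w : α → Ω → 𝕜) :
    ∑ φ ∈ (acys fd O o0 R).filter (fun φ => ∀ v ∈ S, fd (φ v) ⊆ S), ∏ v ∈ R, w v (φ v) =
      (∑ φ ∈ acys fd O o0 S, ∏ v ∈ S, w v (φ v)) *
        ∑ φ ∈ acys (fun o => fd o \ S) O o0 (R \ S), ∏ v ∈ R \ S, w v (φ v) := by
  rw [sum_mul_sum, ← sum_product']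
  refine sum_nbij' (fun φ => (fun v => if v ∈ S then φ v else o0, fun v => if v ∈ S then o0 else φ v))
    (fun q v => if v ∈ S then q.1 v else q.2 v) ?_ ?_ ?_ ?_ ?_
  · intro φ hφ
    obtain ⟨hφ, h4⟩ := mem_filter.1 hφ
    obtain ⟨⟨h1, h2⟩, rk, h3⟩ := (qstep_acys fd O).1 hφ
    refine mem_product.2 ⟨(qstep_acys _ O).2 ⟨⟨fun v hv => ?_, fun v hv => if_neg hv⟩, rk,
      fun v hv u hu => ?_⟩, (qstep_acys _ O).2 ⟨⟨fun v hv => ?_, fun v hv => ?_⟩, rk,
      fun v hv u hu => ?_⟩⟩
    · simp only [if_pos hv]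
      exact h1 v (hS hv)
    · simp only [if_pos hv] at hu
      exact ⟨h4 v hv hu, (h3 v (hS hv) u hu).2⟩
    · simp only [if_neg (mem_sdiff.1 hv).2]
      exact h1 v (mem_sdiff.1 hv).1
    · dsimp only
      split_ifs with h
      · rfl
      · exact h2 v fun h' => hv (mem_sdiff.2 ⟨h', h⟩)
    · simp only [if_neg (mem_sdiff.1 hv).2] at hu
      have h5 := h3 v (mem_sdiff.1 hv).1 u (mem_sdiff.1 hu).1
      exact ⟨mem_sdiff.2 ⟨h5.1, (mem_sdiff.1 hu).2⟩, h5.2⟩
  · rintro ⟨φ, ψ⟩ hq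
    obtain ⟨hφ, hψ⟩ := mem_product.1 hq
    obtain ⟨⟨h1, -⟩, rk, h3⟩ := (qstep_acys fd O).1 hφ
    obtain ⟨⟨g1, g2⟩, rk', g3⟩ := (qstep_acys _ O).1 hψ
    refine mem_filter.2 ⟨(qstep_acys fd O).2 ⟨⟨fun v hv => ?_, fun v hv => ?_⟩,
      fun v => if v ∈ S then rk v else S.sup rk + 1 + rk' v, fun v hv u hu => ?_⟩,
      fun v hv u hu => ?_⟩
    · dsimp only
      split_ifs with h
      · exact h1 v h
      · exact g1 v (mem_sdiff.2 ⟨hv, h⟩)
    · simp only [if_neg fun h => hv (hS h)]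
      exact g2 v fun h => hv (mem_sdiff.1 h).1
    · by_cases h : v ∈ S
      · simp only [if_pos h] at hu ⊢
        obtain ⟨h6, h7⟩ := h3 v h u hu
        exact ⟨hS h6, by rwa [if_pos h6]⟩
      · simp only [if_neg h] at hu ⊢
        by_cases h' : u ∈ S
        · have : rk u ≤ S.sup rk := le_sup h'
          exact ⟨hS h', by rw [if_pos h']; omega⟩
        · obtain ⟨h6, h7⟩ := g3 v (mem_sdiff.2 ⟨hv, h⟩) u (mem_sdiff.2 ⟨hu, h'⟩)
          exact ⟨(mem_sdiff.1 h6).1, by rw [if_neg h']; omega⟩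
    · simp only [if_pos hv] at hu
      exact (h3 v hv u hu).1
  · intro φ _
    funext v
    dsimp only
    split_ifs <;> rfl
  · rintro ⟨φ, ψ⟩ hq
    obtain ⟨hφ, hψ⟩ := mem_product.1 hq
    refine Prod.ext (funext fun v => ?_) (funext fun v => ?_)
    · dsimp only
      split_ifs with h
      · rfl
      · exact (((qstep_acys fd O).1 hφ).1.2 v h).symm
    · dsimp only
      split_ifs with h
      · exact (((qstep_acys _ O).1 hψ).1.2 v fun h' => (mem_sdiff.1 h').2 h).symm
      · rfl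
  · intro φ _
    rw [← prod_sdiff hS, mul_comm]
    exact congrArg₂ (· * ·) (prod_congr rfl fun v hv => by simp only [if_pos hv])
      (prod_congr rfl fun v hv => by simp only [if_neg (mem_sdiff.1 hv).2])

theorem tsplit_free {Ω : Type*} (fd : Ω → Finset α) (O : Finset Ω) (o0 : Ω)
    {R S : Finset α} (hS : S ⊆ R) (w : α → Ω → ℝ) (h : ∀ v ∈ S, ∀ o, w v o ≠ 0 → fd o ⊆ S) :
    ∑ φ ∈ acys fd O o0 R, ∏ v ∈ R, w v (φ v) =
      (∑ φ ∈ acys fd O o0 S, ∏ v ∈ S, w v (φ v)) *
        ∑ φ ∈ acys (fun o => fd o \ S) O o0 (R \ S), ∏ v ∈ R \ S, w v (φ v) := by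
  rw [← acys_split fd O o0 hS, sum_filter_of_ne]
  exact fun φ _ h0 v hv => h v hv _ (prod_ne_zero_iff.1 h0 v (hS hv))

omit [Fintype α] in
theorem tsplit_diff {R T T' : Finset α} {t : ℝ} {w : Finset α → ℝ}
    (hw : ∀ T ⊆ R, ∑ o ∈ T.powerset, w o = Lam t T.card) (h : T' ⊆ T) (h' : T ⊆ R)
    {Q : Finset α → Prop} [DecidablePred Q] (hQ : ∀ o, Q o ↔ o ⊆ T ∧ ¬ o ⊆ T') :
    ∑ o ∈ R.powerset.filter Q, w o = Lam t T.card - Lam t T'.card := by
  rw [← hw T h', ← hw T' (h.trans h'), ← sum_sdiff_eq_sub (powerset_mono.2 h)]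
  refine sum_congr ?_ fun _ _ => rfl
  ext o
  simp only [mem_filter, mem_powerset, mem_sdiff, hQ]
  exact ⟨fun k => k.2, fun k => ⟨k.1.trans h', k⟩⟩

omit [Fintype α] in
theorem tsplit_sub {R T : Finset α} {t : ℝ} {w : Finset α → ℝ}
    (hw : ∀ T ⊆ R, ∑ o ∈ T.powerset, w o = Lam t T.card) (h' : T ⊆ R)
    {Q : Finset α → Prop} [DecidablePred Q] (hQ : ∀ o, Q o ↔ o ⊆ T) :
    ∑ o ∈ R.powerset.filter Q, w o = Lam t T.card := by
  rw [← hw T h']
  refine sum_congr ?_ fun _ _ => rfl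
  ext o
  simp only [mem_filter, mem_powerset, hQ]
  exact ⟨fun k => k.2, fun k => ⟨k.trans h', k⟩⟩

theorem tsplit_eval {R T V : Finset α} {t : ℝ} {w : Finset α → ℝ}
    (hw : ∀ T ⊆ R, ∑ o ∈ T.powerset, w o = Lam t T.card) (fd : Finset α → Finset α)
    (P : Finset α → Prop) [DecidablePred P] {W : α → Finset α → ℝ}
    (hW : ∀ v ∈ T, ∀ o, W v o = if P o then w o else 0) (hV : V ⊆ R) (hT : T ⊆ R)
    (hd : Disjoint V T) {b : ℕ} (hb : b = V.card + T.card)
    (h : ∀ S ⊆ T, ∀ a ∈ T, a ∉ S → ∀ o, (fd o ⊆ insert a S ∧ ¬ fd o ⊆ S) ∧ P o ↔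
      o ⊆ V ∪ insert a S ∧ ¬ o ⊆ V ∪ S) {a0 : ℝ}
    (h0 : ∑ o ∈ R.powerset.filter (fun o => fd o = ∅ ∧ P o), w o = a0) :
    ∑ φ ∈ acys fd R.powerset ∅ T, ∏ v ∈ T, W v (φ v) =
      T.card.factorial * Vol a0 (rate t 0 b) (fun _ => 1) T.card := by
  rw [sum_congr rfl fun φ _ => prod_congr rfl fun v hv => hW v hv (φ v),
    acys_sum_one fd R.powerset ∅ T (fun o => if P o then w o else 0) (rate t 0 b), ← sum_filter,
    filter_filter, h0, smul_eq_mul]
  intro S hS a ha haS
  have h1 : insert a S ⊆ T := insert_subset ha hS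
  have h2 := card_le_card h1
  rw [card_insert_of_notMem haS] at h2
  rw [← sum_filter, filter_filter,
    tsplit_diff hw (union_subset_union_right (subset_insert a S)) (union_subset hV (h1.trans hT))
      (h S hS a ha haS), card_union_of_disjoint (hd.mono_right h1), card_union_of_disjoint (hd.mono_right hS),
    card_insert_of_notMem haS, rate,
    show b - (T.card - S.card - 1) = V.card + (S.card + 1) by omega]
  push_cast
  congr 2 <;> ring

omit [Fintype α] in
theorem tsplit_i3 {S D : Finset α} {z : α} (h : ∀ v ∈ D, v ∉ S) (o : Finset α) :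
    (o \ S) \ {z} = ∅ ∧ o ⊆ insert z D ∧ o ≠ ∅ ↔ o ⊆ {z} ∧ ¬ o ⊆ ∅ := by
  rw [subset_empty, sdiff_eq_empty_iff_subset]
  refine ⟨fun k => ⟨fun x hx => ?_, k.2.2⟩, fun k => ⟨sdiff_subset.trans k.1, k.1.trans (by simp), k.2⟩⟩
  rcases mem_insert.1 (k.2.1 hx) with e | e
  · exact mem_singleton.2 e
  · exact k.1 (mem_sdiff.2 ⟨hx, h x e⟩)

theorem held_sum {R S D : Finset α} {z : α} {t : ℝ} (w : Finset α → ℝ)
    (hw : ∀ T ⊆ R, ∑ o ∈ T.powerset, w o = Lam t T.card) (hz : z ∈ R) (hS : S ⊆ R.erase z)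
    (hD : D ⊆ R.erase z \ S) :
    ∑ φ ∈ (acys id R.powerset ∅ R).filter (fun φ => HeldS R φ z S D), ∏ v ∈ R, w (φ v) =
      (S.card.factorial * D.card.factorial * (R.card - S.card - D.card - 1).factorial : ℕ) *
        HV t R.card S.card D.card := by
  have hS1 : ∀ v ∈ S, v ∈ R ∧ v ≠ z := fun v hv => (mem_erase.1 (hS hv)).symm
  have hD1 : ∀ v ∈ D, v ∈ R ∧ v ≠ z ∧ v ∉ S := fun v hv =>
    ⟨(mem_erase.1 (mem_sdiff.1 (hD hv)).1).2, (mem_erase.1 (mem_sdiff.1 (hD hv)).1).1,
      (mem_sdiff.1 (hD hv)).2⟩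
  have hSR : S ⊆ R := fun v hv => (hS1 v hv).1
  have hzS : z ∉ S := fun h => (hS1 z h).2 rfl
  have hzD : z ∉ D := fun h => (hD1 z h).2.1 rfl
  have hzR : {z} ⊆ R \ S := by simp [hz, hzS]
  have hDR : D ⊆ (R \ S) \ {z} := fun v hv => by simp [hD1 v hv]
  have hDz : insert z D ⊆ R := insert_subset hz fun v hv => (hD1 v hv).1
  have hdj : Disjoint S (insert z D) := by
    simp only [disjoint_left, mem_insert]
    grind
  have hU : S ∪ insert z D ⊆ R := union_subset hSR hDz
  have hcz := card_insert_of_notMem hzD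
  have hcU : (S ∪ insert z D).card = S.card + D.card + 1 := by
    rw [card_union_of_disjoint hdj, hcz, add_assoc]
  have hcR : (((R \ S) \ {z}) \ D).card = R.card - S.card - D.card - 1 := by
    rw [card_sdiff_of_subset hDR, card_sdiff_of_subset hzR, card_sdiff_of_subset hSR, card_singleton]
    omega
  have hle := card_le_card hU
  obtain ⟨W, hW⟩ : ∃ W : α → Finset α → ℝ, ∀ v o, W v o = if (v ∈ S → o ⊆ S) ∧ (v = z → o ⊆ S) ∧
      (v ∈ D → o ⊆ insert z D ∧ o ≠ ∅) ∧ (v ∈ ((R \ S) \ {z}) \ D →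
        ¬ o ⊆ S ∧ ¬ (o ⊆ insert z D ∧ o ≠ ∅)) then w o else 0 := ⟨_, fun _ _ => rfl⟩
  have wS : ∀ v ∈ S, ∀ o, W v o = if o ⊆ S then w o else 0 := fun v hv o => by
    have : v ∉ D := fun h => (hD1 v h).2.2 hv
    simp [hW, hv, this, (hS1 v hv).2]
  have wz : ∀ o, W z o = if o ⊆ S then w o else 0 := fun o => by simp [hW, hzS, hzD]
  have wD : ∀ v ∈ D, ∀ o, W v o = if o ⊆ insert z D ∧ o ≠ ∅ then w o else 0 := fun v hv o => by
    simp [hW, hv, hD1 v hv]
  have wR : ∀ v ∈ ((R \ S) \ {z}) \ D, ∀ o, W v o =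
      if ¬ o ⊆ S ∧ ¬ (o ⊆ insert z D ∧ o ≠ ∅) then w o else 0 := fun v hv o => by
    have := hv
    simp only [mem_sdiff, mem_singleton] at this
    simp only [hW, hv, this, false_imp_iff, true_and, true_imp_iff]
  have e0 : ∑ φ ∈ (acys id R.powerset ∅ R).filter (fun φ => HeldS R φ z S D), ∏ v ∈ R, w (φ v) =
      ∑ φ ∈ acys id R.powerset ∅ R, ∏ v ∈ R, W v (φ v) := by
    rw [sum_filter]
    refine sum_congr rfl fun φ _ => ?_
    have hm : ∀ v, v ∈ (R.erase z \ S) \ D ↔ v ∈ ((R \ S) \ {z}) \ D := fun v => by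
      simp only [mem_sdiff, mem_singleton, mem_erase]
      tauto
    split_ifs with h
    · exact prod_congr rfl fun v _ => by
        rw [hW, if_pos ⟨h.s0 v, fun e => e ▸ h.z0, h.d0 v, fun k => h.r0 v ((hm v).2 k)⟩]
    · refine (not_not.1 fun k => h ?_ : _ = (0 : ℝ)).symm
      have k' := fun v hv => (ite_ne_right_iff.1 (hW v _ ▸ prod_ne_zero_iff.1 k v hv)).1
      exact ⟨hz, hS, hD, fun v hv => (k' v (hSR hv)).1 hv, (k' z hz).2.1 rfl,
        fun v hv => (k' v (hD1 v hv).1).2.2.1 hv, fun v hv => (k' v (mem_erase.1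
          (mem_sdiff.1 (mem_sdiff.1 hv).1).1).2).2.2.2 ((hm v).1 hv)⟩
  have e1 := tsplit_eval (T := S) (V := ∅) (b := S.card) (a0 := Lam t 0) hw id _ wS
    (empty_subset _) hSR (by simp) (by simp) (fun S' hS' a ha _ o => by
      simp only [id, empty_union, and_iff_left_iff_imp]
      exact fun k => k.1.trans (insert_subset ha hS')) (by
      rw [tsplit_sub hw (empty_subset _) fun o => by simp +contextual]
      simp)
  have e2 : ∑ φ ∈ acys (fun o => id o \ S) R.powerset ∅ {z}, ∏ v ∈ {z}, W v (φ v) =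
      Lam t S.card := by
    rw [sum_congr rfl fun φ _ => prod_congr rfl fun v hv =>
        (congrFun (congrArg W (mem_singleton.1 hv)) (φ v)).trans (wz (φ v)),
      acys_sum_one _ R.powerset ∅ {z} (fun o => if o ⊆ S then w o else 0) fun _ => 0, ← sum_filter,
      filter_filter, tsplit_sub hw hSR fun o => by simp]
    · simp [Vol, Vg, sum_range_succ]
    · exact fun S' _ a _ _ => sum_eq_zero fun o ho => if_neg fun k => (mem_filter.1 ho).2.2 (by
        rw [id, sdiff_eq_empty_iff_subset.2 k]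
        exact empty_subset _)
  have e3 := tsplit_eval (T := D) (V := {z}) (b := D.card + 1) (a0 := Lam t 1 - Lam t 0) hw
    (fun o => (id o \ S) \ {z}) _ wD (by simp [hz]) (fun v hv => (hD1 v hv).1) (by simp [hzD])
    (by simp [add_comm]) (fun S' hS' a ha _ o => by
      simp only [id, subset_iff, mem_sdiff, mem_union, mem_insert, mem_singleton, ne_eq,
        eq_empty_iff_forall_notMem] at *
      (clear * - hD1 hS' ha; grind)) (by
      refine (tsplit_diff hw (empty_subset {z}) (by simp [hz])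
        (tsplit_i3 fun v hv => (hD1 v hv).2.2)).trans ?_
      simp)
  have e4 := tsplit_eval (T := ((R \ S) \ {z}) \ D) (V := S ∪ insert z D) (b := R.card)
    (a0 := Lam t (S.card + D.card + 1) - Lam t S.card - (Lam t (D.card + 1) - Lam t 0)) hw
    (fun o => ((id o \ S) \ {z}) \ D) _ wR hU (fun v hv => by simp at hv; tauto)
    (by simp only [disjoint_left, mem_sdiff, mem_union, mem_insert, mem_singleton]; tauto)
    (by omega) (fun S' hS' a ha _ o => by
      simp only [id, subset_iff, mem_sdiff, mem_union, mem_insert, mem_singleton, ne_eq,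
        eq_empty_iff_forall_notMem] at *
      (clear * -; grind)) (by
      have k1 := tsplit_diff hw (subset_union_left (s₂ := insert z D)) hU fun _ => Iff.rfl
      have k2 := tsplit_diff hw (empty_subset _) hDz fun _ => Iff.rfl
      rw [hcU] at k1
      rw [hcz, card_empty] at k2
      push_cast at k1 k2
      rw [← k1, ← k2, ← sum_sdiff_eq_sub]
      · refine sum_congr ?_ fun _ _ => rfl
        ext o
        have : ((id o \ S) \ {z}) \ D = ∅ ↔ o ⊆ S ∪ insert z D := by
          rw [id, sdiff_sdiff_left, sdiff_sdiff_left, sdiff_eq_empty_iff_subset, insert_eq]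
          rfl
        simp only [mem_sdiff, mem_filter, this, subset_empty, ne_eq]
        (clear * - this; tauto)
      · intro o
        simp only [mem_filter]
        exact fun k => ⟨k.1, k.2.1.trans subset_union_right, fun k' => k.2.2
          (subset_empty.2 (disjoint_self_iff_empty _ |>.1 (hdj.mono k' k.2.1)))⟩)
  rw [e0, tsplit_free id _ ∅ hSR W, tsplit_free _ _ ∅ hzR W, tsplit_free _ _ ∅ hDR W, e1, e2, e3, e4,
    hcR, HV]
  · push_cast
    ring
  · intro v hv o h
    rw [wD v hv] at h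
    have := (ite_ne_right_iff.1 h).1.1
    simp only [id, subset_iff, mem_sdiff, mem_insert, mem_singleton] at *
    (clear * - this; grind)
  · intro v hv o h
    rw [mem_singleton.1 hv, wz] at h
    rw [id, sdiff_eq_empty_iff_subset.2 (ite_ne_right_iff.1 h).1]
    exact empty_subset _
  · intro v hv o h
    rw [wS v hv] at h
    exact (ite_ne_right_iff.1 h).1

theorem exists_heldS {R : Finset α} {φ : α → Finset α} (h : φ ∈ acys id R.powerset ∅ R) {z : α}
    (hz : z ∈ R) : HeldS R φ z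
      (R.filter fun v => ¬ Relation.ReflTransGen (fun a b => a ∈ φ b) z v)
      (R.filter (DomS φ z)) := by
  obtain ⟨⟨-, h2⟩, rk, h3⟩ := (qstep_acys _ _).1 h
  have k1 : ∀ v ∈ R, Relation.ReflTransGen (fun a b => a ∈ φ b) z v ∨
      ∃ r, φ r = ∅ ∧ Av (fun a b => a ∈ φ b) {z} r v := fun v => by
    induction hn : rk v using Nat.strong_induction_on generalizing v with
    | _ n ih =>
      intro hv
      by_cases e : v = z
      · exact Or.inl (e ▸ .refl)
      rcases (φ v).eq_empty_or_nonempty with h0 | ⟨u, hu⟩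
      · exact Or.inr ⟨v, h0, e, .refl⟩
      · exact (ih _ (hn ▸ (h3 v hv u hu).2) u rfl (h3 v hv u hu).1).imp (fun k => k.tail hu)
          fun ⟨r, h4, h5⟩ => ⟨r, h4, h5.tail hu e⟩
  have k2 : ∀ v, Relation.ReflTransGen (fun a b => a ∈ φ b) z v → rk z ≤ rk v := fun v hv => by
    induction hv with
    | refl => exact le_rfl
    | @tail b c _ hc ih =>
      refine ih.trans (h3 c (by_contra fun k => ?_) b hc).2.le
      simp [h2 c k] at hc
  refine ⟨hz, fun v hv => ?_, fun v hv => ?_, fun v hv u hu => ?_, fun u hu => ?_,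
    fun v hv => ⟨fun u hu => ?_, fun h0 => ?_⟩, fun v hv => ?_⟩
  · obtain ⟨h4, h5⟩ := mem_filter.1 hv
    exact mem_erase.2 ⟨fun e => h5 (e ▸ .refl), h4⟩
  · obtain ⟨h4, h5⟩ := mem_filter.1 hv
    exact mem_sdiff.2 ⟨mem_erase.2 ⟨h5.1, h4⟩, fun k =>
      (k1 v h4).elim (mem_filter.1 k).2 fun ⟨r, h6, h7⟩ => h5.2 r h6 h7⟩
  · obtain ⟨h4, h5⟩ := mem_filter.1 hv
    exact mem_filter.2 ⟨(h3 v h4 u hu).1, fun k => h5 (k.tail hu)⟩
  · exact mem_filter.2 ⟨(h3 z hz u hu).1, fun k => (k2 u k).not_gt (h3 z hz u hu).2⟩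
  · obtain ⟨h4, h5⟩ := mem_filter.1 hv
    by_cases e : u = z
    · exact e ▸ mem_insert_self _ _
    · exact mem_insert_of_mem (mem_filter.2 ⟨(h3 v h4 u hu).1, e,
        fun r h6 h7 => h5.2 r h6 (h7.tail hu h5.1)⟩)
  · obtain ⟨-, h5⟩ := mem_filter.1 hv
    exact h5.2 v h0 ⟨h5.1, .refl⟩
  · obtain ⟨h4, h5⟩ := mem_sdiff.1 hv
    obtain ⟨h4, h6⟩ := mem_sdiff.1 h4
    obtain ⟨h7, h4⟩ := mem_erase.1 h4
    refine ⟨fun k => ?_, fun k => h5 (mem_filter.2 ⟨h4, h7, fun r h8 h9 => ?_⟩)⟩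
    · rcases (not_not.1 fun k' => h6 (mem_filter.2 ⟨h4, k'⟩)).cases_tail with e | ⟨u, h8, h9⟩
      · exact h7 e
      · exact (mem_filter.1 (k h9)).2 h8
    · rcases h9.2.cases_tail with e | ⟨u, h10, h11⟩
      · exact k.2 (e ▸ h8)
      · have h12 : Av (fun a b => a ∈ φ b) {z} r u := ⟨h9.1, h10⟩
        rcases mem_insert.1 (k.1 h11.1) with e | e
        · exact h12.not_mem_right e
        · exact (mem_filter.1 e).2.2 r h8 h12

end Pool.Agent.Work.MP_5391ad_co
end

-- merged part: Pool.Agent.Work.MP_5391ad_co.BLow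
section
/-! The lower bound: one unused row node carries a giant block.
`hasSum_cf`: for a finite family of nonnegative summable series the product of the sums is the sum
over `m` of the terms with total index `m` (induction on `R`; `Finset.piAntidiag` or a direct
splitting, `Summable.tsum_mul_tsum_eq_tsum_sum_antidiagonal`); then `exists_blockGF` and
`acys_sum_one`.
`fstrs_giant`: `layer` with `f φ k = 1` if `r` feeds nobody and `0` otherwise, `acys_unused` with
`I = {r}`, `sum_blockW` for the block of `r` (note `acys id O ∅ R` is the same for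
`O = R.powerset` and `O = (insert r R).powerset`), and split `k` according to `m = ∑_{v ∈ R} k v`.
`sumF_lower`: for each `R' ⊆ W` with `b + 1` elements pick `r ∈ R'`. The terms with `M ≤ m + b` of
`hasSum_cf` at `t` are at most `e^{-θ M}` times the terms at `t e^θ`, so the terms with
`m + b < M` sum to at least `b! VolT / 2`; `C(N,b+1) (N-b-1)! b! = N!/(b+1)`.
`numF_sq_le`: `sum_F_eq` with `κ = 1, 3` and Cauchy-Schwarz. -/

namespace Pool.Agent.Work.MP_5391ad_co

open Finset Real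
open scoped Classical

variable {α : Type*} [Fintype α]

/-- structures on the row nodes `R` with `m` further vertices, exponentially weighted -/
noncomputable def cf (κ : ℝ) (R : Finset α) (m : ℕ) : ℝ :=
  ∑ φ ∈ acys id R.powerset ∅ R,
    ∑ k ∈ (Fintype.piFinset fun v => if v ∈ R then range (m + 1) else {0}).filter
        (fun k => ∑ v ∈ R, k v = m),
      ∏ v ∈ R, (blockW κ 0 (fun _ => 1) (k v) (φ v) / (k v).factorial)

omit [Fintype α] in
theorem blow_split {R : Finset α} {r : α} (hr : r ∉ R) (a : α → ℕ → ℝ) (m : ℕ) :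
    ∑ k ∈ piAntidiag (insert r R) m, ∏ v ∈ insert r R, a v (k v) =
      ∑ p ∈ antidiagonal m, a r p.1 * ∑ k ∈ piAntidiag R p.2, ∏ v ∈ R, a v (k v) := by
  rw [← cons_eq_insert r R hr, piAntidiag_cons hr, sum_disjiUnion]
  refine sum_congr rfl fun p _ => ?_
  rw [sum_map, mul_sum]
  refine sum_congr rfl fun k hk => ?_
  have h0 : k r = 0 := by_contra fun h => hr ((mem_piAntidiag.1 hk).2 r h)
  rw [prod_cons]
  congr 1
  · simp [h0]
  · refine prod_congr rfl fun v hv => ?_
    have : v ≠ r := fun e => hr (e ▸ hv)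
    simp [this]

omit [Fintype α] in
theorem blow_hasSum (R : Finset α) (a : α → ℕ → ℝ) (s : α → ℝ)
    (hs : ∀ v ∈ R, HasSum (a v) (s v)) :
    HasSum (fun m => ∑ k ∈ piAntidiag R m, ∏ v ∈ R, a v (k v)) (∏ v ∈ R, s v) := by
  induction R using Finset.induction_on with
  | empty =>
    have h := hasSum_single (f := fun m : ℕ => ∑ k ∈ piAntidiag (∅ : Finset α) m,
      ∏ v ∈ (∅ : Finset α), a v (k v)) 0 fun m hm => by
        rw [piAntidiag_empty_of_ne_zero hm, sum_empty]
    simpa using h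
  | insert r R hr ih =>
    have h1 := hs r (mem_insert_self r R)
    have h2 := ih fun v hv => hs v (mem_insert_of_mem hv)
    simp only [blow_split hr]
    rw [prod_insert hr, ← h1.tsum_eq, ← h2.tsum_eq,
      tsum_mul_tsum_eq_tsum_sum_antidiagonal_of_summable_norm h1.summable.norm h2.summable.norm]
    exact (summable_norm_sum_mul_antidiagonal_of_summable_norm h1.summable.norm
      h2.summable.norm).of_norm.hasSum

theorem blow_K (R : Finset α) {n m : ℕ} (h : m ≤ n) :
    (Fintype.piFinset fun v => if v ∈ R then range (n + 1) else {0}).filter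
      (fun k => ∑ v ∈ R, k v = m) = piAntidiag R m := by
  ext k
  rw [mem_filter, qlay_mem (t := fun _ => range (n + 1)), mem_piAntidiag]
  constructor
  · rintro ⟨⟨-, h1⟩, h2⟩
    exact ⟨h2, fun v hv => by_contra fun e => hv (h1 v e)⟩
  · rintro ⟨h1, h2⟩
    refine ⟨⟨fun v hv => mem_range.2 ?_, fun v hv => by_contra fun e => hv (h2 v e)⟩, h1⟩
    exact Nat.lt_succ_of_le
      ((single_le_sum (f := k) (fun _ _ => Nat.zero_le _) hv).trans (h1.le.trans h))

theorem blow_cf (κ : ℝ) (R : Finset α) (m : ℕ) : cf κ R m = ∑ φ ∈ acys id R.powerset ∅ R,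
    ∑ k ∈ piAntidiag R m, ∏ v ∈ R, (blockW κ 0 (fun _ => 1) (k v) (φ v) / (k v).factorial) := by
  rw [cf, blow_K R le_rfl]

theorem blow_layer {W R : Finset α} (hR : R ⊆ W) (κ : ℝ) (f : (α → Finset α) → ℝ) :
    ∑ F ∈ fstrs W R, κ ^ F.one W * f (F.feed W) =
      ((W.card - R.card).factorial : ℝ) * ∑ φ ∈ acys id R.powerset ∅ R,
        f φ * ∑ k ∈ piAntidiag R (W.card - R.card),
          ∏ v ∈ R, (blockW κ 0 (fun _ => 1) (k v) (φ v) / (k v).factorial) := by
  have h := layer hR κ 0 (fun _ => 1) fun φ _ => f φ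
  rw [blow_K R (Nat.sub_le _ _)] at h
  simp only [← mul_sum] at h
  rw [← h]
  refine sum_congr rfl fun F _ => ?_
  simp [FStr.wt]

theorem blow_acys {R : Finset α} (r : α) :
    acys id (insert r R).powerset ∅ R = acys id R.powerset ∅ R := by
  ext φ
  rw [qlay_acys, acys, mem_filter, qlay_mem (t := fun _ => (insert r R).powerset)]
  constructor
  · rintro ⟨⟨-, h1⟩, rk, h2⟩
    exact ⟨⟨fun v hv => mem_powerset.2 fun u hu => (h2 v hv u hu).1, h1⟩, rk, h2⟩
  · rintro ⟨⟨h0, h1⟩, rk, h2⟩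
    exact ⟨⟨fun v hv => mem_powerset.2 ((mem_powerset.1 (h0 v hv)).trans (subset_insert r R)),
      h1⟩, rk, h2⟩

theorem blow_xc {t θ x : ℝ} (ht : 0 < t) (hθ : 0 ≤ θ) (h0 : 0 ≤ x) (hx : x < xc (t * exp θ)) :
    x < xc t := by
  have h1 : t ≤ t * exp θ := le_mul_of_one_le_right ht.le (one_le_exp hθ)
  have h2 : 0 < t * exp θ := ht.trans_le h1
  have h3 : (t * exp θ)⁻¹ ≤ t⁻¹ := inv_anti₀ ht h1
  have h4 : log (t * exp θ)⁻¹ ≤ log t⁻¹ := log_le_log (inv_pos.2 h2) h3
  unfold xc at hx ⊢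
  have h5 : 0 < log (t * exp θ)⁻¹ - 1 := (mul_pos_iff_of_pos_left (inv_pos.2 h2)).1 (h0.trans_lt hx)
  exact hx.trans_le (mul_le_mul h3 (by linarith only [h4]) h5.le (inv_pos.2 ht).le)

theorem cf_nonneg {κ : ℝ} (hκ : 0 ≤ κ) (R : Finset α) (m : ℕ) : 0 ≤ cf κ R m :=
  sum_nonneg fun _ _ => sum_nonneg fun _ _ => prod_nonneg fun _ _ =>
    div_nonneg (blockW_nonneg hκ le_rfl (fun _ => zero_le_one) _ _) (Nat.cast_nonneg _)

theorem hasSum_cf (R : Finset α) {κ t z : ℝ} (hκ : 0 ≤ κ) (ht : 0 < t) (hz : 0 < z)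
    (htz : t * (1 + (1 - κ) * z) = z) (hc : (R.card : ℝ) < xc t) :
    HasSum (fun m => z ^ (m + R.card) * cf κ R m) (R.card.factorial * VolT t 0 0 R.card) := by
  obtain ⟨w, -, h1, h2, -, h3⟩ := exists_blockGF R (ν := fun _ => 1) hκ ht hz le_rfl
    (fun _ => zero_le_one) htz (by simpa using hc)
  have h4 := acys_sum_one id R.powerset ∅ R w (rate t 0 R.card) fun S hS a ha haS => by
    have h5 : S.card < R.card := card_lt_card ⟨hS, fun h => haS (h ha)⟩
    have h6 : R.card - (R.card - S.card - 1) = S.card + 1 := by omega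
    refine (h3 S hS a ha haS).trans ?_
    rw [rate, h6]
    simp
  have h5 : ∑ o ∈ R.powerset.filter (fun o => id o = ∅), w o = Lam t 0 := by
    rw [← h2]
    refine sum_eq_single_of_mem ∅ (by simp) fun o ho hne => absurd (mem_filter.1 ho).2 hne
  have h6 : (R.card.factorial : ℝ) * VolT t 0 0 R.card =
      ∑ φ ∈ acys id R.powerset ∅ R, ∏ v ∈ R, w (φ v) := by
    rw [h4, h5, VolT]
    simp
  rw [h6]
  simp only [blow_cf, mul_sum]
  refine hasSum_sum fun φ hφ => ?_
  have h7 := blow_hasSum R (fun v k => z ^ (k + 1) * blockW κ 0 (fun _ => 1) k (φ v) / k.factorial)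
    (fun v => w (φ v)) fun v hv => h1 _ (mem_powerset.1 ((qlay_acys.1 hφ).1.1 v hv))
  convert h7 using 2 with m
  refine sum_congr rfl fun k hk => ?_
  rw [← (mem_piAntidiag.1 hk).1, card_eq_sum_ones, ← sum_add_distrib, ← prod_pow_eq_pow_sum,
    ← prod_mul_distrib]
  exact prod_congr rfl fun v _ => (mul_div_assoc _ _ _).symm

theorem sum_fstrs_eq_cf {W R : Finset α} (hR : R ⊆ W) (κ : ℝ) :
    ∑ F ∈ fstrs W R, κ ^ F.one W = (W.card - R.card).factorial * cf κ R (W.card - R.card) := by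
  simpa [blow_cf] using blow_layer hR κ fun _ => 1

theorem fstrs_giant {W R : Finset α} {r : α} (hr : r ∉ R) (hR : insert r R ⊆ W) {κ : ℝ}
    (hκ : 0 ≤ κ) :
    ((W.card - R.card - 1).factorial : ℝ) * ∑ m ∈ range (W.card - R.card), cf κ R m *
        (treeW κ (1 + R.card) (W.card - R.card - 1 - m) / (W.card - R.card - 1 - m).factorial) ≤
      ∑ F ∈ fstrs W (insert r R), κ ^ F.one W := by
  have h1 := blow_layer hR κ fun φ =>
    if ∀ v ∈ insert r R, ∀ u ∈ ({r} : Finset α), u ∉ id (φ v) then 1 else 0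
  have h2 : (insert r R).card = R.card + 1 := card_insert_of_notMem hr
  have h3 : R.card + 1 ≤ W.card := h2 ▸ card_le_card hR
  obtain ⟨n, hn⟩ : ∃ n, W.card - R.card = n + 1 := ⟨W.card - R.card - 1, by omega⟩
  have h4 : W.card - (insert r R).card = n := by omega
  have h5 : insert r R \ {r} = R := by
    rw [sdiff_singleton_eq_erase, erase_insert hr]
  have h6 : (insert r R).powerset.filter (fun o => id o ⊆ R) = R.powerset := by
    ext o
    rw [mem_filter, mem_powerset, mem_powerset]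
    exact and_iff_right_of_imp fun h => Subset.trans h (subset_insert r R)
  refine le_trans (le_of_eq ?_) (h1.symm.le.trans (sum_le_sum fun F _ => ?_))
  · rw [h4, hn, Nat.add_sub_cancel]
    refine congrArg (fun x : ℝ => (n.factorial : ℝ) * x) ?_
    simp only [ite_mul, one_mul, zero_mul]
    rw [← sum_filter, acys_unused id _ (singleton_subset_iff.2 (mem_insert_self r R)), h5,
      blow_acys, h6]
    simp only [blow_cf, sum_mul]
    rw [sum_comm]
    refine sum_congr rfl fun φ _ => ?_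
    have h7 : ∀ ψ : α → Finset α, ∑ k ∈ piAntidiag (insert r R) n, ∏ v ∈ insert r R,
        (blockW κ 0 (fun _ => 1) (k v) (if v ∈ ({r} : Finset α) then ψ v else φ v) /
          (k v).factorial) = ∏ v ∈ ({r} : Finset α), ∑ p ∈ antidiagonal n,
            blockW κ 0 (fun _ => 1) p.1 (ψ v) / p.1.factorial * ∑ k ∈ piAntidiag R p.2,
              ∏ v ∈ R, (blockW κ 0 (fun _ => 1) (k v) (φ v) / (k v).factorial) := fun ψ => by
      rw [blow_split hr fun v k => blockW κ 0 (fun _ => 1) k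
        (if v ∈ ({r} : Finset α) then ψ v else φ v) / k.factorial, prod_singleton]
      refine sum_congr rfl fun p _ => ?_
      rw [if_pos (mem_singleton_self r)]
      refine congrArg (fun x : ℝ => _ * x) (sum_congr rfl fun k _ => prod_congr rfl fun v hv => ?_)
      rw [if_neg fun h : v ∈ ({r} : Finset α) => hr (mem_singleton.1 h ▸ hv)]
    simp only [h7]
    rw [← qlay_pi {r} (fun _ => R.powerset) ∅ fun _ o => ∑ p ∈ antidiagonal n,
      blockW κ 0 (fun _ => 1) p.1 o / p.1.factorial * ∑ k ∈ piAntidiag R p.2,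
        ∏ v ∈ R, (blockW κ 0 (fun _ => 1) (k v) (φ v) / (k v).factorial), prod_singleton,
      sum_comm, ← Nat.sum_antidiagonal_swap, Nat.sum_antidiagonal_eq_sum_range_succ_mk]
    refine sum_congr rfl fun m _ => ?_
    simp only [Prod.swap]
    rw [← sum_mul, ← sum_mul, ← sum_div, sum_blockW, mul_comm]
    simp
  · split_ifs
    · rw [mul_one]
    · rw [mul_zero]
      exact pow_nonneg hκ _

theorem blow_tail (R : Finset α) {N M : ℕ} {t θ : ℝ} (ht : 0 < t) (hθ : 0 ≤ θ) (hM : M ≤ N)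
    (hx : (R.card : ℝ) < xc (t * exp θ))
    (hV : exp (-(θ * M)) * VolT (t * exp θ) 0 0 R.card ≤ VolT t 0 0 R.card / 2) :
    R.card.factorial * (VolT t 0 0 R.card / 2) ≤ ∑ m ∈ range (N - R.card),
      if m + R.card < M then t ^ (m + R.card) * cf 1 R m else 0 := by
  have ht' : 0 < t * exp θ := mul_pos ht (exp_pos θ)
  have h1 := hasSum_cf R zero_le_one ht ht (by ring) (blow_xc ht hθ (Nat.cast_nonneg _) hx)
  have h2 := (hasSum_cf R zero_le_one ht' ht' (by ring) hx).mul_left (exp (-(θ * M)))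
  have h3 : HasSum (fun m => if m + R.card < M then t ^ (m + R.card) * cf 1 R m else 0)
      (∑ m ∈ range (N - R.card), if m + R.card < M then t ^ (m + R.card) * cf 1 R m else 0) :=
    hasSum_sum_of_ne_finset_zero fun m hm => if_neg (by
      rw [mem_range] at hm
      omega)
  have h4 := hasSum_le (fun m => ?_) h1 (h3.add h2)
  · have h5 := mul_le_mul_of_nonneg_left hV (Nat.cast_nonneg R.card.factorial)
    linarith only [h4, h5]
  · have h5 := cf_nonneg zero_le_one R m
    split_ifs with h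
    · exact le_add_of_nonneg_right (by positivity)
    · have h6 : (M : ℝ) ≤ (m + R.card : ℕ) := by exact_mod_cast not_lt.1 h
      have h7 : 1 ≤ exp (-(θ * M)) * exp θ ^ (m + R.card) := by
        rw [← exp_nat_mul, ← exp_add]
        refine one_le_exp ?_
        linarith only [h6, hθ, mul_le_mul_of_nonneg_left h6 hθ]
      rw [zero_add, mul_pow]
      calc t ^ (m + R.card) * cf 1 R m = 1 * (t ^ (m + R.card) * cf 1 R m) := (one_mul _).symm
        _ ≤ exp (-(θ * M)) * exp θ ^ (m + R.card) * (t ^ (m + R.card) * cf 1 R m) :=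
          mul_le_mul_of_nonneg_right h7 (by positivity)
        _ = _ := by ring

theorem sumF_lower (W : Finset α) {b M : ℕ} {t θ c : ℝ} (ht : 0 < t) (hθ : 0 ≤ θ) (hc : 0 ≤ c)
    (hb : b + 1 ≤ W.card) (hM : M ≤ W.card) (hx : (b : ℝ) < xc (t * exp θ))
    (hV : exp (-(θ * M)) * VolT (t * exp θ) 0 0 b ≤ VolT t 0 0 b / 2)
    (hT : ∀ k, W.card ≤ k + M → k ≤ W.card → c ≤ t ^ (k + 1) * treeW 1 (1 + b) k / k.factorial) :
    (W.card.factorial : ℝ) / (b + 1) * t⁻¹ ^ W.card * (VolT t 0 0 b / 2) * c ≤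
      (univ.filter (IsF W)).card := by
  have h1 : ∀ R' ∈ powersetCard (b + 1) W, ((W.card - b - 1).factorial : ℝ) *
      (b.factorial * (VolT t 0 0 b / 2) * (t⁻¹ ^ W.card * c)) ≤ (fstrs W R').card := by
    intro R' hR'
    obtain ⟨h2, h3⟩ := mem_powersetCard.1 hR'
    obtain ⟨r, hr⟩ : R'.Nonempty := card_pos.1 (by omega)
    obtain ⟨R, hrR, rfl⟩ : ∃ R, r ∉ R ∧ R' = insert r R :=
      ⟨R'.erase r, notMem_erase r R', (insert_erase hr).symm⟩
    rw [card_insert_of_notMem hrR, Nat.add_right_cancel_iff] at h3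
    subst h3
    have h4 := fstrs_giant hrR h2 zero_le_one
    simp only [one_pow, sum_const, nsmul_eq_mul, mul_one] at h4
    refine le_trans (mul_le_mul_of_nonneg_left ?_ (Nat.cast_nonneg _)) h4
    refine (mul_le_mul_of_nonneg_right (blow_tail R ht hθ hM hx hV) (by positivity)).trans ?_
    rw [sum_mul]
    refine sum_le_sum fun m hm => ?_
    have h5 := cf_nonneg zero_le_one R m
    have h6 : ∀ k, 0 ≤ treeW 1 (1 + R.card) k := fun k =>
      sum_nonneg fun _ _ => by positivity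
    split_ifs with h
    · have h7 := hT (W.card - R.card - 1 - m) (by omega) (by omega)
      have h8 : W.card = m + R.card + (W.card - R.card - 1 - m + 1) := by omega
      generalize W.card - R.card - 1 - m = k at h7 h8 ⊢
      rw [h8]
      calc t ^ (m + R.card) * cf 1 R m * (t⁻¹ ^ (m + R.card + (k + 1)) * c)
          = cf 1 R m * (t⁻¹ ^ (k + 1) * c) := by
            rw [pow_add t⁻¹, inv_pow, inv_pow]
            field_simp
        _ ≤ cf 1 R m * (t⁻¹ ^ (k + 1) * (t ^ (k + 1) * treeW 1 (1 + R.card) k / k.factorial)) := by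
            gcongr
        _ = _ := by
            rw [inv_pow]
            field_simp
    · rw [zero_mul]
      exact mul_nonneg h5 (div_nonneg (h6 _) (Nat.cast_nonneg _))
  have h2 : ∑ R' ∈ powersetCard (b + 1) W, (fstrs W R').card ≤ (univ.filter (IsF W)).card := by
    rw [← card_biUnion]
    · refine card_le_card fun F hF => ?_
      obtain ⟨R', -, h⟩ := mem_biUnion.1 hF
      exact mem_filter.2 ⟨mem_univ _, (mem_filter.1 h).2.1⟩
    · intro R _ R' _ hne
      refine disjoint_left.2 fun F h h' => hne ?_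
      exact (mem_filter.1 h).2.2.symm.trans (mem_filter.1 h').2.2
  have h3 := sum_le_sum h1
  rw [sum_const, card_powersetCard, nsmul_eq_mul, ← Nat.cast_sum] at h3
  refine le_trans (le_of_eq ?_) (h3.trans (Nat.cast_le.2 h2))
  have h4 : (W.card.factorial : ℝ) = (W.card.choose (b + 1) : ℝ) * ((b + 1) * b.factorial) *
      (W.card - b - 1).factorial := by
    rw [← Nat.choose_mul_factorial_mul_factorial hb, Nat.factorial_succ, Nat.sub_sub]
    push_cast
    ring
  rw [h4]
  field_simp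

theorem numF_sq_le (W : Finset α) : ((univ.filter (IsF W)).card : ℝ) ^ 2 ≤
    (dags W).card * ∑ F ∈ univ.filter (IsF W), (3 : ℝ) ^ FStr.one W F := by
  have h1 := sum_F_eq W 1 fun _ => 1
  have h2 := sum_F_eq W 3 fun _ => 1
  simp only [one_pow, mul_one, sum_const, nsmul_eq_mul] at h1 h2
  rw [h1, h2]
  refine sq_sum_le_card_mul_sum_sq.trans (le_of_eq ?_)
  congr 1
  refine sum_congr rfl fun Δ _ => ?_
  rw [← pow_mul, mul_comm, pow_mul]
  norm_num

end Pool.Agent.Work.MP_5391ad_co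
end

-- merged part: Pool.Agent.Work.MP_5391ad_co.CPs
section
/-! Power series with nonnegative coefficients.
`Ev.mul`: `PowerSeries.coeff_mul` and the Cauchy product of nonnegative summable series.
`Fl.mul`: `G1 G2 - F1 F2 = (G1 - F1) G2 + F1 (G2 - F2)`; the coefficient of `z^k` in `(G1 - F1) G2` is
at most `lam (g1 - f1) ∑ coeff G2 z^j ≤ lam (g1 - f1) g2`.
`Ev.vol`, `Fl.vol`: induction along `Vg`.
`numDag_eq`: `sum_F_eq` with `κ = 0`, split by `R = F.rows`, `sum_fstrs_eq_cf`; then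
`cf 0 R m = |R|! coeff (m + |R|) (PV |R|)` by `acys_sum_one` over `PowerSeries ℝ` with
`w T = mk (fun m => if m = 0 then 0 else blockW 0 0 1 (m-1) T / (m-1)!) = X * ...`, `sum_blockW`,
`PowerSeries.coeff_prod`.
`PV_split`: `Vg A 2 q = A 1 [q = 1] + [q = 2]`, then induction on the number of further steps,
with `Vg_eq_zero` to adjust the ranges. -/

namespace Pool.Agent.Work.MP_5391ad_co

open Real Finset PowerSeries

variable {z lam : ℝ}

theorem Ev.nonneg {F : PowerSeries ℝ} {v : ℝ} (hz : 0 ≤ z) (h : Ev z F v) : 0 ≤ v :=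
  h.2.nonneg fun k => mul_nonneg (h.1 k) (pow_nonneg hz k)

theorem Ev.sum_le {F : PowerSeries ℝ} {v : ℝ} (hz : 0 ≤ z) (h : Ev z F v) (s : Finset ℕ) :
    ∑ k ∈ s, coeff k F * z ^ k ≤ v :=
  sum_le_hasSum s (fun k _ => mul_nonneg (h.1 k) (pow_nonneg hz k)) h.2

theorem Ev.add {F G : PowerSeries ℝ} {f g : ℝ} (hF : Ev z F f) (hG : Ev z G g) :
    Ev z (F + G) (f + g) := by
  refine ⟨fun k => ?_, qtsum_congr (hF.2.add hG.2) fun k => ?_⟩
  · rw [map_add]
    exact add_nonneg (hF.1 k) (hG.1 k)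
  · rw [map_add, add_mul]

theorem cps_coeff_mul (F G : PowerSeries ℝ) (z : ℝ) (k : ℕ) : coeff k (F * G) * z ^ k =
    ∑ p ∈ antidiagonal k, (coeff p.1 F * z ^ p.1) * (coeff p.2 G * z ^ p.2) := by
  rw [coeff_mul, sum_mul]
  refine sum_congr rfl fun p hp => ?_
  rw [← mem_antidiagonal.1 hp, pow_add]
  ring

theorem Ev.mul {F G : PowerSeries ℝ} {f g : ℝ} (hz : 0 ≤ z) (hF : Ev z F f) (hG : Ev z G g) :
    Ev z (F * G) (f * g) := by
  refine ⟨fun k => ?_, ?_⟩
  · rw [coeff_mul]
    exact sum_nonneg fun p _ => mul_nonneg (hF.1 _) (hG.1 _)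
  · have h1 := hF.2
    have h2 := hG.2
    have h3 := (summable_norm_sum_mul_antidiagonal_of_summable_norm h1.summable.norm
      h2.summable.norm).of_norm.hasSum
    rw [← tsum_mul_tsum_eq_tsum_sum_antidiagonal_of_summable_norm h1.summable.norm
      h2.summable.norm, h1.tsum_eq, h2.tsum_eq] at h3
    exact qtsum_congr h3 fun k => cps_coeff_mul F G z k

theorem cps_ev_zero : Ev z 0 0 :=
  ⟨fun k => by rw [map_zero], qtsum_congr hasSum_zero fun k => by rw [map_zero, zero_mul]⟩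

theorem cps_ev_one : Ev z 1 1 := by
  refine ⟨fun k => ?_, ?_⟩
  · rw [coeff_one]
    split_ifs
    · exact zero_le_one
    · exact le_rfl
  · have h := hasSum_single (f := fun k => coeff k (1 : PowerSeries ℝ) * z ^ k) 0
      fun k hk => by rw [coeff_one, if_neg hk, zero_mul]
    rwa [coeff_one, if_pos rfl, pow_zero, mul_one] at h

theorem cps_ev_smul {F : PowerSeries ℝ} {v c : ℝ} (hc : 0 ≤ c) (h : Ev z F v) :
    Ev z (c • F) (c • v) := by
  refine ⟨fun k => ?_, qtsum_congr (h.2.mul_left c) fun k => ?_⟩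
  · rw [coeff_smul]
    exact mul_nonneg hc (h.1 k)
  · rw [coeff_smul, smul_eq_mul, mul_assoc]

theorem cps_fl_le {G F : PowerSeries ℝ} {g f : ℝ} (hz : 0 ≤ z) (h : Fl z lam G F g f) : f ≤ g :=
  hasSum_le (fun k => mul_le_mul_of_nonneg_right (h.2.2 k).1 (pow_nonneg hz k)) h.2.1.2 h.1.2

theorem cps_fl_self {F : PowerSeries ℝ} {v : ℝ} (h : Ev z F v) : Fl z lam F F v v :=
  ⟨h, h, fun k => ⟨le_rfl, by rw [sub_self, sub_self, zero_mul, mul_zero]⟩⟩

theorem cps_fl_add {G1 F1 G2 F2 : PowerSeries ℝ} {g1 f1 g2 f2 : ℝ}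
    (h1 : Fl z lam G1 F1 g1 f1) (h2 : Fl z lam G2 F2 g2 f2) :
    Fl z lam (G1 + G2) (F1 + F2) (g1 + g2) (f1 + f2) := by
  refine ⟨h1.1.add h2.1, h1.2.1.add h2.2.1, fun k => ?_⟩
  obtain ⟨a1, a2⟩ := h1.2.2 k
  obtain ⟨b1, b2⟩ := h2.2.2 k
  rw [map_add, map_add]
  exact ⟨add_le_add a1 b1, by linarith⟩

theorem cps_fl_smul {G F : PowerSeries ℝ} {g f c : ℝ} (hc : 0 ≤ c) (h : Fl z lam G F g f) :
    Fl z lam (c • G) (c • F) (c • g) (c • f) := by
  refine ⟨cps_ev_smul hc h.1, cps_ev_smul hc h.2.1, fun k => ?_⟩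
  obtain ⟨a1, a2⟩ := h.2.2 k
  have a3 := mul_le_mul_of_nonneg_left a2 hc
  simp only [coeff_smul, smul_eq_mul]
  exact ⟨mul_le_mul_of_nonneg_left a1 hc, by linarith⟩

theorem cps_fl_sum {ι : Type*} (s : Finset ι) {G F : ι → PowerSeries ℝ} {g f : ι → ℝ}
    (h : ∀ i ∈ s, Fl z lam (G i) (F i) (g i) (f i)) :
    Fl z lam (∑ i ∈ s, G i) (∑ i ∈ s, F i) (∑ i ∈ s, g i) (∑ i ∈ s, f i) := by
  induction s using Finset.cons_induction with
  | empty => exact cps_fl_self cps_ev_zero
  | cons a s ha ih =>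
    rw [sum_cons, sum_cons, sum_cons, sum_cons]
    exact cps_fl_add (h a (mem_cons_self a s)) (ih fun i hi => h i (mem_cons_of_mem hi))

theorem cps_conv {F G : PowerSeries ℝ} {g c : ℝ} (hz : 0 ≤ z) (hc : 0 ≤ c) (hG : Ev z G g)
    (hF : ∀ k, coeff k F * z ^ k ≤ c) (k : ℕ) : coeff k (F * G) * z ^ k ≤ c * g := by
  rw [cps_coeff_mul]
  refine (sum_le_sum fun p _ => mul_le_mul_of_nonneg_right (hF p.1)
    (mul_nonneg (hG.1 _) (pow_nonneg hz _))).trans ?_
  rw [← mul_sum]
  refine mul_le_mul_of_nonneg_left ?_ hc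
  have e := Nat.sum_antidiagonal_swap (n := k) (f := fun p => coeff p.1 G * z ^ p.1)
  simp only [Prod.fst_swap] at e
  rw [e, Nat.sum_antidiagonal_eq_sum_range_succ (f := fun i _ => coeff i G * z ^ i)]
  exact hG.sum_le hz _

theorem cps_fl_mul {G1 F1 G2 F2 : PowerSeries ℝ} {g1 f1 g2 f2 : ℝ} (hz : 0 ≤ z) (hl : 0 ≤ lam)
    (h1 : Fl z lam G1 F1 g1 f1) (h2 : Fl z lam G2 F2 g2 f2) :
    Fl z lam (G1 * G2) (F1 * F2) (g1 * g2) (f1 * f2) := by
  refine ⟨h1.1.mul hz h2.1, h1.2.1.mul hz h2.2.1, fun k => ⟨?_, ?_⟩⟩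
  · rw [coeff_mul, coeff_mul]
    exact sum_le_sum fun p _ => mul_le_mul (h1.2.2 _).1 (h2.2.2 _).1 (h2.2.1.1 _) (h1.1.1 _)
  · have a1 := cps_conv (F := G1 - F1) hz (mul_nonneg hl (sub_nonneg.2 (cps_fl_le hz h1))) h2.1
      (fun j => by rw [map_sub]; exact (h1.2.2 j).2) k
    have a2 := cps_conv (F := G2 - F2) hz (mul_nonneg hl (sub_nonneg.2 (cps_fl_le hz h2))) h1.2.1
      (fun j => by rw [map_sub]; exact (h2.2.2 j).2) k
    have a3 : G1 * G2 - F1 * F2 = (G1 - F1) * G2 + (G2 - F2) * F1 := by ring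
    rw [← map_sub, a3, map_add, add_mul]
    linarith

theorem cps_fl_pow {G F : PowerSeries ℝ} {g f : ℝ} (hz : 0 ≤ z) (hl : 0 ≤ lam)
    (h : Fl z lam G F g f) (k : ℕ) : Fl z lam (G ^ k) (F ^ k) (g ^ k) (f ^ k) := by
  induction k with
  | zero =>
    simp only [pow_zero]
    exact cps_fl_self cps_ev_one
  | succ k ih =>
    simp only [pow_succ]
    exact cps_fl_mul hz hl ih h

theorem cps_fl_vg {A A' : ℕ → PowerSeries ℝ} {α α' : ℕ → ℝ} (hz : 0 ≤ z) (hl : 0 ≤ lam) (b : ℕ)
    (h : ∀ n < b, Fl z lam (A n) (A' n) (α n) (α' n)) (q : ℕ) :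
    Fl z lam (Vg A (fun _ => 1) b q) (Vg A' (fun _ => 1) b q) (Vg α (fun _ => 1) b q)
      (Vg α' (fun _ => 1) b q) := by
  induction b generalizing q with
  | zero =>
    simp only [Vg]
    split_ifs
    · exact cps_fl_self cps_ev_one
    · exact cps_fl_self cps_ev_zero
  | succ b ih =>
    cases q with
    | zero =>
      simp only [Vg]
      exact cps_fl_self cps_ev_zero
    | succ q =>
      simp only [Vg, one_mul]
      exact cps_fl_sum _ fun k _ => cps_fl_mul hz hl
        (cps_fl_smul (inv_nonneg.2 (Nat.cast_nonneg _))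
          (cps_fl_pow hz hl (h b (Nat.lt_succ_self b)) k))
        (ih (fun n hn => h n (Nat.lt_succ_of_lt hn)) _)

theorem cps_fl_vol {a0 : PowerSeries ℝ} {A A' : ℕ → PowerSeries ℝ} {α0 : ℝ} {α α' : ℕ → ℝ} {b : ℕ}
    (hz : 0 ≤ z) (hl : 0 ≤ lam) (h0 : Ev z a0 α0)
    (h : ∀ n < b, Fl z lam (A n) (A' n) (α n) (α' n)) :
    Fl z lam (Vol a0 A (fun _ => 1) b) (Vol a0 A' (fun _ => 1) b) (Vol α0 α (fun _ => 1) b)
      (Vol α0 α' (fun _ => 1) b) :=
  cps_fl_sum _ fun k _ => cps_fl_mul hz hl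
    (cps_fl_smul (inv_nonneg.2 (Nat.cast_nonneg _)) (cps_fl_pow hz hl (cps_fl_self h0) k))
    (cps_fl_vg hz hl b h k)

theorem Ev.vol {a0 : PowerSeries ℝ} {A : ℕ → PowerSeries ℝ} {α0 : ℝ} {α : ℕ → ℝ} {b : ℕ}
    (hz : 0 ≤ z) (h0 : Ev z a0 α0) (h : ∀ n < b, Ev z (A n) (α n)) :
    Ev z (Vol a0 A (fun _ => 1) b) (Vol α0 α (fun _ => 1) b) :=
  (cps_fl_vol (lam := 0) hz le_rfl h0 fun n hn => cps_fl_self (h n hn)).1

theorem Ev.fl {F : PowerSeries ℝ} {v : ℝ} (h : Ev z F v) : Fl z lam F F v v := cps_fl_self h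

theorem Fl.mul {G1 F1 G2 F2 : PowerSeries ℝ} {g1 f1 g2 f2 : ℝ} (hz : 0 ≤ z) (hl : 0 ≤ lam)
    (h1 : Fl z lam G1 F1 g1 f1) (h2 : Fl z lam G2 F2 g2 f2) :
    Fl z lam (G1 * G2) (F1 * F2) (g1 * g2) (f1 * f2) := cps_fl_mul hz hl h1 h2

theorem Fl.vol {a0 : PowerSeries ℝ} {A A' : ℕ → PowerSeries ℝ} {α0 : ℝ} {α α' : ℕ → ℝ} {b : ℕ}
    (hz : 0 ≤ z) (hl : 0 ≤ lam) (h0 : Ev z a0 α0)
    (h : ∀ n < b, Fl z lam (A n) (A' n) (α n) (α' n)) :
    Fl z lam (Vol a0 A (fun _ => 1) b) (Vol a0 A' (fun _ => 1) b) (Vol α0 α (fun _ => 1) b)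
      (Vol α0 α' (fun _ => 1) b) := cps_fl_vol hz hl h0 h

theorem Fl.coeff_le {G F : PowerSeries ℝ} {g f : ℝ} (hz : 0 ≤ z) (hl : 0 ≤ lam)
    (h : Fl z lam G F g f) (k : ℕ) : coeff k G * z ^ k ≤ lam * g + f := by
  have a1 := (h.2.2 k).2
  have a2 := h.2.1.sum_le hz {k}
  have a3 := mul_nonneg hl (h.2.1.nonneg hz)
  rw [sum_singleton] at a2
  linarith

theorem pLam_mono {x y : ℝ} (hx : -1 ≤ x) (hxy : x ≤ y) (k : ℕ) :
    0 ≤ coeff k (pLam x) ∧ coeff k (pLam x) ≤ coeff k (pLam y) := by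
  have h0 : 0 ≤ 1 + x := by linarith
  simp only [pLam, coeff_mk]
  split_ifs
  · exact ⟨le_rfl, le_rfl⟩
  · refine ⟨div_nonneg (sum_nonneg fun τ _ => mul_nonneg (pow_nonneg le_rfl _) (pow_nonneg h0 _))
      (Nat.cast_nonneg _), div_le_div_of_nonneg_right (sum_le_sum fun τ _ =>
        mul_le_mul_of_nonneg_left (pow_le_pow_left₀ h0 (by linarith) _) (pow_nonneg le_rfl _))
      (Nat.cast_nonneg _)⟩

theorem ev_pLam {L x : ℝ} (hL1 : 1 < L) (h0 : 0 ≤ x) (hx : x < xc L⁻¹) :
    Ev (L - 1)⁻¹ (pLam x) (Lam L⁻¹ x) := by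
  have hL : 0 < L := by linarith
  have hL' : 0 < L - 1 := by linarith
  refine ⟨fun k => (pLam_mono (by linarith) le_rfl k).1, ?_⟩
  have h1 := hasSum_treeW (κ := 0) (t := L⁻¹) (z := (L - 1)⁻¹) le_rfl (inv_pos.2 hL)
    (inv_pos.2 hL') h0 (by field_simp; ring) hx
  rw [← hasSum_nat_add_iff' 1]
  have h2 : ∑ i ∈ range 1, coeff i (pLam x) * (L - 1)⁻¹ ^ i = 0 := by
    rw [sum_range_one, pLam, coeff_mk, if_pos rfl, zero_mul]
  rw [h2, sub_zero]
  refine qtsum_congr h1 fun k => ?_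
  rw [pLam, coeff_mk, if_neg k.succ_ne_zero, Nat.add_sub_cancel]
  ring

theorem ev_pRate {L : ℝ} {b n : ℕ} (hL1 : 1 < L) (hn : n < b) (hb : (b : ℝ) < xc L⁻¹) :
    Ev (L - 1)⁻¹ (pRate b n) (rate L⁻¹ 0 b n) := by
  have h1 : (1 : ℝ) ≤ (b - n : ℕ) := by exact_mod_cast Nat.sub_pos_of_lt hn
  have h2 : ((b - n : ℕ) : ℝ) ≤ b := Nat.cast_le.2 (Nat.sub_le b n)
  have h3 := ev_pLam (x := (b - n : ℕ)) hL1 (by linarith only [h1]) (by linarith only [hb, h2])
  have h4 := ev_pLam (x := (b - n : ℕ) - 1) hL1 (by linarith) (by linarith only [hb, h2])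
  refine ⟨fun k => ?_, ?_⟩
  · rw [pRate, map_sub]
    exact sub_nonneg.2 (pLam_mono (by linarith only [h1]) (by linarith) k).2
  · rw [rate, zero_add]
    refine qtsum_congr (h3.2.sub h4.2) fun k => ?_
    rw [pRate, map_sub, sub_mul]

theorem ev_PV {L : ℝ} {b : ℕ} (hL1 : 1 < L) (hb : (b : ℝ) < xc L⁻¹) :
    Ev (L - 1)⁻¹ (PV b) (VolT L⁻¹ 0 0 b) := by
  have h := Ev.vol (inv_pos.2 (sub_pos.2 hL1)).le
    (ev_pLam hL1 le_rfl ((Nat.cast_nonneg b).trans_lt hb)) fun n hn => ev_pRate hL1 hn hb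
  have e : (fun q : ℕ => exp (0 * (q : ℝ))) = fun _ => 1 :=
    funext fun q => by rw [zero_mul, Real.exp_zero]
  rw [VolT, e]
  exact h

theorem ev_PQ {L : ℝ} {B : ℕ} (hL1 : 1 < L) (hb : (B : ℝ) < xc L⁻¹) (q0 : ℕ) :
    Ev (L - 1)⁻¹ (PQ B q0) (VQ L⁻¹ B q0) := by
  refine Ev.vol (inv_pos.2 (sub_pos.2 hL1)).le
    (ev_pLam hL1 le_rfl ((Nat.cast_nonneg B).trans_lt hb)) fun n hn => ?_
  by_cases h : n < q0
  · rw [if_pos h, if_pos h]
    exact cps_ev_zero
  · rw [if_neg h, if_neg h]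
    exact ev_pRate hL1 (by omega) hb

section
open scoped Classical
variable {α : Type*}

theorem cps_coeff_prod (R : Finset α) (f : α → PowerSeries ℝ) (m : ℕ) :
    coeff m (∏ v ∈ R, f v) = ∑ k ∈ piAntidiag R m, ∏ v ∈ R, coeff (k v) (f v) := by
  induction R using Finset.induction_on generalizing m with
  | empty =>
    rw [prod_empty, coeff_one]
    split_ifs with hm
    · subst hm
      simp
    · rw [piAntidiag_empty_of_ne_zero hm, sum_empty]
  | insert r R hr ih =>
    rw [blow_split hr (fun v k => coeff k (f v)), prod_insert hr, coeff_mul]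
    exact sum_congr rfl fun p _ => by rw [ih]

variable [Fintype α]

/-- the generating function of the blocks with a given feed set, without the root -/
noncomputable def cps_u (T : Finset α) : PowerSeries ℝ :=
  PowerSeries.mk fun m => blockW 0 0 (fun _ => 1) m T / m.factorial

theorem cps_pw (S : Finset α) : ∑ T ∈ S.powerset, X * cps_u T = pLam S.card := by
  ext m
  rw [← mul_sum, pLam, coeff_mk]
  cases m with
  | zero => rw [if_pos rfl, coeff_zero_X_mul]
  | succ m =>
    rw [if_neg m.succ_ne_zero, coeff_succ_X_mul, map_sum, Nat.add_sub_cancel]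
    simp only [cps_u, coeff_mk]
    rw [← sum_div, sum_blockW, add_zero, sum_const, nsmul_eq_mul, mul_one]

theorem cps_cf (R : Finset α) (m : ℕ) :
    cf 0 R m = R.card.factorial * coeff (m + R.card) (PV R.card) := by
  have h4 := acys_sum_one id R.powerset ∅ R (fun T => X * cps_u T) (pRate R.card)
    fun S hS a ha haS => by
      have h5 : S.card < R.card := card_lt_card ⟨hS, fun h => haS (h ha)⟩
      have h6 : R.card - (R.card - S.card - 1) = S.card + 1 := by omega
      have hi : insert a S ⊆ R := insert_subset ha hS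
      have he : R.powerset.filter (fun o => id o ⊆ insert a S ∧ ¬ id o ⊆ S) =
          (insert a S).powerset \ S.powerset := by
        ext o
        simp only [mem_filter, mem_powerset, mem_sdiff, id]
        exact ⟨fun h => h.2, fun h => ⟨h.1.trans hi, h⟩⟩
      rw [he, sum_sdiff_eq_sub (powerset_mono.2 (subset_insert a S)), cps_pw, cps_pw, pRate, h6,
        card_insert_of_notMem haS, Nat.cast_succ, add_sub_cancel_right]
  have h5 : ∑ o ∈ R.powerset.filter (fun o => id o = ∅), X * cps_u o = pLam 0 := by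
    have h6 := cps_pw (∅ : Finset α)
    rw [powerset_empty, sum_singleton, card_empty, Nat.cast_zero] at h6
    rw [← h6]
    exact sum_eq_single_of_mem ∅ (by simp) fun o ho hne => absurd (mem_filter.1 ho).2 hne
  rw [h5] at h4
  have h6 := congrArg (coeff (m + R.card)) h4
  rw [coeff_smul, smul_eq_mul, map_sum] at h6
  rw [PV, ← h6, blow_cf]
  refine sum_congr rfl fun φ _ => ?_
  rw [prod_mul_distrib, prod_const, coeff_X_pow_mul, cps_coeff_prod]
  simp only [cps_u, coeff_mk]

theorem cps_dags (W : Finset α) : ((dags W).card : ℝ) =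
    W.card.factorial * ∑ b ∈ range (W.card + 1), coeff W.card (PV b) := by
  have h1 := sum_F_eq W 0 fun _ => 1
  simp only [add_zero, one_pow, mul_one, sum_const, nsmul_eq_mul] at h1
  rw [← h1, ← sum_fiberwise_of_maps_to (g := FStr.rows W) (t := W.powerset)
    fun F _ => mem_powerset.2 (filter_subset _ _), mul_sum]
  refine (sum_congr rfl fun R hR => ?_).trans ((sum_powerset_apply_card
    fun b => ((W.card - b).factorial : ℝ) * (b.factorial * coeff W.card (PV b))).trans ?_)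
  · have hR' := mem_powerset.1 hR
    rw [filter_filter]
    refine (sum_fstrs_eq_cf hR' 0).trans ?_
    rw [cps_cf, Nat.sub_add_cancel (card_le_card hR')]
  · refine sum_congr rfl fun b hb => ?_
    rw [← Nat.choose_mul_factorial_mul_factorial (Nat.lt_succ_iff.1 (mem_range.1 hb)), nsmul_eq_mul]
    push_cast
    ring

end

theorem numDag_eq (N : ℕ) :
    (numDag N : ℝ) = N.factorial * ∑ b ∈ range (N + 1), coeff N (PV b) := by
  have h := cps_dags (univ : Finset (Fin N))
  rw [card_univ, Fintype.card_fin] at h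
  exact h

section
variable {𝕜 : Type*} [CommRing 𝕜] [Algebra ℝ 𝕜]

theorem cps_vg_one (A : ℕ → 𝕜) (q : ℕ) :
    Vg A (fun _ => 1) 1 q = if q = 1 then 1 else 0 := by
  cases q with
  | zero => rw [Vg, if_neg zero_ne_one]
  | succ q => simp [Vg]

theorem cps_vg_two (A : ℕ → 𝕜) (q : ℕ) :
    Vg A (fun _ => 1) 2 q = A 1 * (if q = 1 then 1 else 0) + if q = 2 then 1 else 0 := by
  cases q with
  | zero => simp [Vg]
  | succ q =>
    rw [Vg, sum_range_succ, sum_range_one, cps_vg_one, cps_vg_one]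
    simp [add_comm]

theorem cps_vg_split {A A1 A2 : ℕ → 𝕜} (h0 : A2 1 = 0) (h1 : ∀ m, A1 (m + 1) = A (m + 2))
    (h2 : ∀ m, A2 (m + 2) = A (m + 2)) (m q : ℕ) :
    Vg A (fun _ => 1) (m + 2) q =
      A 1 * Vg A1 (fun _ => 1) (m + 1) q + Vg A2 (fun _ => 1) (m + 2) q := by
  induction m generalizing q with
  | zero =>
    rw [zero_add, zero_add, cps_vg_two, cps_vg_two, cps_vg_one, h0, zero_mul, zero_add]
  | succ m ih =>
    cases q with
    | zero => simp [Vg]
    | succ q =>
      have e1 : Vg A (fun _ => 1) (m + 1 + 2) (q + 1) = ∑ k ∈ range (m + 2 + 1),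
          ((k.factorial : ℝ)⁻¹ • A (m + 2) ^ k) * Vg A (fun _ => 1) (m + 2) (q + k) := by
        rw [show m + 1 + 2 = m + 2 + 1 from rfl, Vg, one_mul]
      have e2 : Vg A2 (fun _ => 1) (m + 1 + 2) (q + 1) = ∑ k ∈ range (m + 2 + 1),
          ((k.factorial : ℝ)⁻¹ • A (m + 2) ^ k) * Vg A2 (fun _ => 1) (m + 2) (q + k) := by
        rw [show m + 1 + 2 = m + 2 + 1 from rfl, Vg, one_mul, h2]
      have e3 : Vg A1 (fun _ => 1) (m + 1 + 1) (q + 1) = ∑ k ∈ range (m + 2 + 1),
          ((k.factorial : ℝ)⁻¹ • A (m + 2) ^ k) * Vg A1 (fun _ => 1) (m + 1) (q + k) := by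
        rw [Vg, one_mul, h1, sum_range_succ _ (m + 2),
          Vg_eq_zero A1 _ (by omega : m + 1 < q + (m + 2)), mul_zero, add_zero]
      rw [e1, e2, e3, mul_sum, ← sum_add_distrib]
      refine sum_congr rfl fun k _ => ?_
      rw [ih]
      ring

end

theorem PV_split (B : ℕ) : PV (B + 2) = pRate (B + 1) 0 * PQ B 1 + PQ B 2 := by
  have key := cps_vg_split (A := pRate (B + 2))
    (A1 := fun n => if n < 1 then 0 else pRate B (n - 1))
    (A2 := fun n => if n < 2 then 0 else pRate B (n - 2)) (if_pos one_lt_two)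
    (fun m => by
      rw [if_neg (by omega), pRate, pRate, show B + 2 - (m + 2) = B - (m + 1 - 1) by omega])
    (fun m => by
      rw [if_neg (by omega), pRate, pRate, show B + 2 - (m + 2) = B - (m + 2 - 2) by omega]) B
  have e : pRate (B + 2) 1 = pRate (B + 1) 0 := by
    rw [pRate, pRate, show B + 2 - 1 = B + 1 - 0 by omega]
  have e1 : PQ B 1 = ∑ k ∈ range (B + 2 + 1), ((k.factorial : ℝ)⁻¹ • pLam 0 ^ k) *
      Vg (fun n => if n < 1 then 0 else pRate B (n - 1)) (fun _ => 1) (B + 1) k := by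
    rw [sum_range_succ _ (B + 2), Vg_eq_zero _ _ (by omega : B + 1 < B + 2), mul_zero, add_zero]
    rfl
  rw [e1, PV, PQ, VQg, Vol, Vol, mul_sum, ← sum_add_distrib]
  refine sum_congr rfl fun k _ => ?_
  rw [key, e]
  ring

end Pool.Agent.Work.MP_5391ad_co
end

-- merged part: Pool.Agent.Work.MP_5391ad_co.TCan
section
/-! Canonical colourings.
`canon_unique`: if `F.2 u = some v` then `v` has at least two entering column arcs (`one = 0`), so
the arc cannot be a row arc of `F'` (`hq`: a vertex with a row parent has no entering column arc).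
`IsF.canon`: `exists_canon` for `F.arc` and `canon_unique` give the first two claims. A feed
`a ∈ feed b` lifts to a row arc followed by column arcs. For a row node `v`: `bsz v = 0` iff no
column arc enters `v` iff `¬ Br v`; then `feed v` is the set of row parents of `v`.
`domR_eq_zero`: the only out-neighbour `g` of `q` has another in-neighbour `w`, which is not a
descendant of `q`, so a walk from a source to `w` avoids `q`; see the proof of `sum_TT_le`.
`card_dags_le`: `sum_F_eq` with `κ = 0`, then split by `F.rows W` (see `bsum_split`, `cps_dags`).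
`card_rows`: `sum_F_eq`, `IsF.canon`, `sum_fstrs_eq_cf`, `cps_cf`; both sides vanish for
`b > |W|` (every factor of `PV b` has order at least one; or avoid this by the hypothesis). -/

namespace Pool.Agent.Work.MP_5391ad_co

open Finset Real PowerSeries
open scoped Classical

variable {α : Type*} [Fintype α]

omit [Fintype α] in
theorem tcan_mk {W : Finset α} {F : FStr α} (h : IsF W F) (h1 : F.one W = 0) :
    F = qcol_mk F.arc ∅ := by
  have h2 := qcol_one h.isDag (filter_subset (fun u => F.2 u ≠ none) (qcol_L W F.arc))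
  have h4 := qcol_forth h
  rw [h4, h1] at h2
  rw [card_eq_zero.1 h2.symm] at h4
  exact h4.symm

omit [Fintype α] in
theorem tcan_col {W : Finset α} {F : FStr α} (h : IsF W F) (h1 : F.one W = 0) {u v : α} :
    F.2 u = some v ↔ F.arc u v ∧ Br F.arc v := by
  have h2 := qcol_mk2 (u := u) (v := v) h.isDag (empty_subset (qcol_L W F.arc))
  rw [← tcan_mk h h1] at h2
  rw [h2]
  simp only [notMem_empty, or_false]

omit [Fintype α] in
theorem tcan_inb {F : FStr α} {x v : α} (h : F.inb x v) : Relation.ReflTransGen F.arc x v :=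
  pbase_mono h fun _ _ k => Or.inr k

omit [Fintype α] in
theorem tcan_feed {W : Finset α} {F : FStr α} {a b : α} (h : a ∈ F.feed W b) :
    Relation.ReflTransGen F.arc a b := by
  obtain ⟨-, x, h1, h2⟩ := qcol_feed h
  exact Relation.ReflTransGen.head (Or.inl h1) (tcan_inb h2)

omit [Fintype α] in
theorem tcan_rootT {W : Finset α} {Δ : α → α → Prop} {v : α} :
    v ∈ rootT W Δ ↔ v ∈ RN W Δ ∧ ∀ u, Relation.ReflTransGen Δ u v → ¬ Br Δ u :=
  mem_filter

omit [Fintype α] in
theorem tcan_rtree {W : Finset α} {Δ : α → α → Prop} {v : α} :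
    v ∈ rtree W Δ ↔ v ∈ W ∧
      ∀ u, Relation.ReflTransGen Δ u v → u ∈ RN W Δ ∧ ¬ Br Δ u ∧ ∃ w, Δ u w :=
  mem_filter

omit [Fintype α] in
theorem tcan_RN {W : Finset α} {Δ : α → α → Prop} {u : α} :
    u ∈ RN W Δ ↔ u ∈ W ∧ ∀ v, Δ u v → ¬ Br Δ v :=
  mem_filter

omit [Fintype α] in
theorem tcan_one {W : Finset α} {Δ : α → α → Prop} (h : IsDag W Δ) {u v w : α} (k : Δ u v)
    (hb : Br Δ v) (hw : Δ u w) : w = v :=
  ((h.rule u v k).resolve_right fun k1 => qcol_nbr' k1 hb) w hw

omit [Fintype α] in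
theorem tcan_root {W : Finset α} {F : FStr α} (h : IsF W F) (h1 : F.one W = 0)
    (hr : F.rows W = RN W F.arc) {v : α} (hv : v ∈ F.rows W) :
    v ∈ rootT W F.arc ↔ F.bsz W v = 0 ∧ F.feed W v ⊆ rootT W F.arc := by
  have hv' := (mem_filter.1 hv).2
  rw [FStr.bsz, if_pos hv, card_eq_zero, filter_eq_empty_iff, tcan_rootT]
  refine ⟨fun k => ⟨?_, fun u hu => ?_⟩, fun k => ⟨hr ▸ hv, fun u hu => ?_⟩⟩
  · rintro x - ⟨k1, k2⟩
    rcases k2.cases_tail with k3 | ⟨c, -, k3⟩
    · exact k1 k3.symm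
    · exact k.2 v Relation.ReflTransGen.refl ((tcan_col h h1).1 k3).2
  · obtain ⟨-, x, k1, -⟩ := qcol_feed hu
    refine tcan_rootT.2 ⟨hr ▸ mem_filter.2 ⟨(h.hp u x k1).1, (h.hp u x k1).2.2⟩,
      fun w hw => k.2 w (hw.trans (tcan_feed hu))⟩
  · have k1 : ∀ c, F.2 c ≠ some v := fun c k2 => by
      refine k.1 (h.hq c v k2).1 ⟨?_, Relation.ReflTransGen.single k2⟩
      rintro rfl
      rw [hv'] at k2
      cases k2
    rcases hu.cases_tail with k2 | ⟨c, k2, k3⟩
    · subst k2
      rintro ⟨a, a', a1, a2, a3⟩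
      exact k1 a ((tcan_col h h1).2 ⟨a2, a, a', a1, a2, a3⟩)
    · have k4 := k3.resolve_right (k1 c)
      have k5 : c ∈ F.feed W v := by
        rw [FStr.feed, if_pos hv]
        exact mem_filter.2 ⟨(h.hp c v k4).1, v, k4, Relation.ReflTransGen.refl⟩
      exact (tcan_rootT.1 (k.2 k5)).2 u k2

omit [Fintype α] in
theorem tcan_src {W : Finset α} {Δ : α → α → Prop} (h : IsDag W Δ) {q g : α} (k : Δ q g)
    (hb : Br Δ g) : ∀ v ∈ W, v ≠ q → ∃ r ∈ W, (∀ w, ¬ Δ w r) ∧ Av Δ {q} r v := by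
  obtain ⟨rk, hrk⟩ := h.acyc
  intro v
  induction hn : rk v using Nat.strong_induction_on generalizing v with
  | _ n ih =>
    intro hv hq
    by_cases k1 : ∃ w, Δ w v
    · obtain ⟨w, k2, k3⟩ : ∃ w, w ≠ q ∧ Δ w v := by
        obtain ⟨w, hw⟩ := k1
        by_cases k2 : w = q
        · subst k2
          obtain rfl := tcan_one h k hb hw
          exact Good.exists_other hb
        · exact ⟨w, k2, hw⟩
      obtain ⟨r, r1, r2, r3⟩ := ih (rk w) (hn ▸ hrk w v k3) w rfl (h.mem _ _ k3).1 k2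
      exact ⟨r, r1, r2, r3.tail k3 hq⟩
    · exact ⟨v, hv, fun w hw => k1 ⟨w, hw⟩, av_refl hq⟩

omit [Fintype α] in
theorem tcan_le_nsrc {S W : Finset α} {Δ : α → α → Prop}
    (h : ∀ x ∈ S, x ∈ W ∧ ∀ w, ¬ Δ w x) : S.card ≤ nsrc W Δ :=
  card_le_card fun x hx => mem_filter.2 (h x hx)

theorem tcan_card (W : Finset α) (E : (α → α → Prop) → Prop) [DecidablePred E] :
    (((dags W).filter E).card : ℝ) = ∑ R ∈ W.powerset, ∑ F ∈ fstrs W R,
      (0 : ℝ) ^ F.one W * if E F.arc then 1 else 0 := by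
  have h1 := sum_F_eq W 0 fun Δ => if E Δ then 1 else 0
  simp only [add_zero, one_pow, one_mul] at h1
  rw [natCast_card_filter, ← h1, ← sum_fiberwise_of_maps_to (g := FStr.rows W) (t := W.powerset)
    fun F _ => mem_powerset.2 (filter_subset _ _)]
  refine sum_congr rfl fun R _ => ?_
  rw [filter_filter]
  rfl

theorem tcan_fstrs {W R : Finset α} {F : FStr α} (h : F ∈ fstrs W R) :
    IsF W F ∧ F.rows W = R :=
  (mem_filter.1 h).2

theorem canon_unique {W : Finset α} {F F' : FStr α} (h : IsF W F) (h' : IsF W F')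
    (h1 : F.one W = 0) (h1' : F'.one W = 0) (e : F.arc = F'.arc) : F = F' := by
  exact (tcan_mk h h1).trans (e ▸ (tcan_mk h' h1').symm)

theorem IsF.canon {W : Finset α} {F : FStr α} (h : IsF W F) (h1 : F.one W = 0) :
    F.rows W = RN W F.arc ∧
    (∀ u ∈ RN W F.arc, ∀ v ∈ RN W F.arc, DomD W F.arc u v → DomS (F.feed W) u v) ∧
    (∀ u v, Relation.ReflTransGen (fun a b => a ∈ F.feed W b) u v →
      Relation.ReflTransGen F.arc u v) ∧
    ∀ v ∈ F.rows W, v ∈ rootT W F.arc ↔ F.bsz W v = 0 ∧ F.feed W v ⊆ rootT W F.arc := by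
  obtain ⟨F', k1, k2, k3, k4, -, k5⟩ := exists_canon h.isDag
  obtain rfl := canon_unique k1 h k3 h1 k2
  refine ⟨k4, k5, fun u v huv => ?_, fun v hv => tcan_root h h1 k4 hv⟩
  induction huv with
  | refl => exact Relation.ReflTransGen.refl
  | tail _ k6 ih => exact ih.trans (tcan_feed k6)

theorem domR_eq_zero {W : Finset α} {Δ : α → α → Prop} (h : IsDag W Δ) {q : α} (hq : q ∈ W)
    (hq' : q ∉ RN W Δ) : domR W Δ q = 0 := by
  rw [domR, card_eq_zero, filter_eq_empty_iff]
  intro v hv hd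
  obtain ⟨g, k1, k2⟩ : ∃ g, Δ q g ∧ Br Δ g := by
    by_contra k
    exact hq' (tcan_RN.2 ⟨hq, fun g k1 k2 => k ⟨g, k1, k2⟩⟩)
  obtain ⟨r, r1, r2, r3⟩ := tcan_src h k1 k2 v (tcan_RN.1 hv).1 hd.1
  exact hd.2 r r1 r2 r3

theorem rtree_card {W : Finset α} {Δ : α → α → Prop} (h : IsDag W Δ) :
    (rtree W Δ).card ≤ (rootT W Δ).card ∧
      (rootT W Δ).card ≤ (rtree W Δ).card + nsrc W (rv Δ) := by
  refine ⟨card_le_card fun v hv => tcan_rootT.2
    ⟨((tcan_rtree.1 hv).2 v Relation.ReflTransGen.refl).1,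
      fun u hu => ((tcan_rtree.1 hv).2 u hu).2.1⟩, ?_⟩
  refine (card_le_card_sdiff_add_card (s := rootT W Δ) (t := rtree W Δ)).trans ?_
  rw [add_comm]
  refine Nat.add_le_add_left (tcan_le_nsrc fun v hv => ?_) _
  obtain ⟨k1, k2⟩ := mem_sdiff.1 hv
  obtain ⟨k3, k4⟩ := tcan_rootT.1 k1
  have k5 := (tcan_RN.1 k3).1
  refine ⟨k5, fun w hw => k2 (tcan_rtree.2 ⟨k5, fun u hu => ?_⟩)⟩
  rcases hu.cases_head with k6 | ⟨c, k6, k7⟩
  · subst k6
    exact ⟨k3, k4 u hu, w, hw⟩
  · refine ⟨tcan_RN.2 ⟨(h.mem _ _ k6).1, fun x hx hb => ?_⟩, k4 u hu, c, k6⟩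
    obtain rfl := tcan_one h hx hb k6
    exact k4 c k7 hb

theorem card_dags_le (W : Finset α) (E : (α → α → Prop) → Prop) (g : FStr α → ℝ)
    (h0 : ∀ F, 0 ≤ g F) (h : ∀ F, IsF W F → F.one W = 0 → E F.arc → 1 ≤ g F) :
    (((dags W).filter E).card : ℝ) ≤
      ∑ R ∈ W.powerset, ∑ F ∈ fstrs W R, (0 : ℝ) ^ F.one W * g F := by
  rw [tcan_card]
  refine sum_le_sum fun R _ => sum_le_sum fun F hF => ?_
  by_cases k : F.one W = 0
  · refine mul_le_mul_of_nonneg_left ?_ (pow_nonneg le_rfl _)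
    split_ifs with k1
    · exact h F (tcan_fstrs hF).1 k k1
    · exact h0 F
  · rw [zero_pow k, zero_mul, zero_mul]

theorem card_rows (W : Finset α) {b : ℕ} (hb : b ≤ W.card) :
    (((dags W).filter fun Δ => (RN W Δ).card = b).card : ℝ) =
      W.card.factorial * coeff W.card (PV b) := by
  rw [tcan_card]
  refine (sum_congr rfl fun R hR => ?_).trans ((sum_powerset_apply_card fun c =>
    if c = b then ((W.card - c).factorial : ℝ) * (c.factorial * coeff W.card (PV c))
      else 0).trans ?_)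
  · have hR' := mem_powerset.1 hR
    have k := sum_fstrs_eq_cf hR' 0
    rw [cps_cf, Nat.sub_add_cancel (card_le_card hR')] at k
    rw [← k, ← mul_boole, sum_mul]
    refine sum_congr rfl fun F hF => ?_
    obtain ⟨k1, k2⟩ := tcan_fstrs hF
    by_cases k3 : F.one W = 0
    · rw [← (k1.canon k3).1, k2]
    · rw [zero_pow k3, zero_mul, zero_mul]
  · rw [sum_eq_single_of_mem b (mem_range.2 (Nat.lt_succ_of_le hb)) fun c _ hc => by
      rw [if_neg hc, smul_zero], if_pos rfl, ← Nat.choose_mul_factorial_mul_factorial hb,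
      nsmul_eq_mul]
    push_cast
    ring

end Pool.Agent.Work.MP_5391ad_co
end

-- merged part: Pool.Agent.Work.MP_5391ad_co.TCnt
section
/-! The two counts.
`held_count`: `card_dags_le` with `g F` the indicator of: `|rows| = b` and there are `z, S, D` with
`HeldS rows feed z S D` and `E |S| |D|` (`IsF.canon`, `feed_mem_acys`, `exists_heldS`; the sets of
`exists_heldS` have at least `freeR`, `domR` elements, use `mono`). For `|R| = b` apply `layer_le`
with `κ = y = 0`, `ν = 1`, `z = (L-1)⁻¹`, `t = L⁻¹` and `w` from `exists_blockGF`; bound the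
indicator by the sum over `z ∈ R`, `S ⊆ R.erase z`, `D ⊆ R.erase z \ S` with `E |S| |D|` and use
`held_sum`. Finally `∑_{S, D} |S|! |D|! (b - |S| - |D| - 1)! ≤ b^2 (b-1)!` (`sum_powerset_apply_card`,
`Nat.choose_mul_factorial_mul_factorial`) and `C(N,b) (N-b)! b! = N!`.
`tree_count`: `card_dags_le` with `g F = ∑_{T ⊆ rows, |T| = m}` of the indicator of `|rows| = b` and
`∀ v ∈ rows, v ∈ T ↔ bsz v = 0 ∧ feed v ⊆ T`. For fixed `R`, `T` use `layer` (and `blow_K`,
`cps_coeff_prod`) as in `cps_cf`: the vertex `v ∈ T` has the weight `X * C (coeff 0 (cps_u o))` for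
`o ⊆ T`, the vertex `v ∉ T` has `X * cps_u o` minus the same term if `o ⊆ T`;
`∑_{o ⊆ S} coeff 0 (cps_u o) = 1 + |S|` (`sum_blockW` with `k = 0`, or the coefficient of `X` in
`cps_pw`). Then `acys_split` and `acys_sum_one` over `PowerSeries ℝ`. -/

namespace Pool.Agent.Work.MP_5391ad_co

open Finset Real PowerSeries
open scoped Classical

variable {α : Type*} [Fintype α]

theorem tcnt_le (W : Finset α) (E : (α → α → Prop) → Prop) {i : DecidablePred E}
    (f : Finset α → (α → Finset α) → (α → ℕ) → ℝ) (h0 : ∀ R φ k, 0 ≤ f R φ k)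
    (h : ∀ F, IsF W F → F.one W = 0 → E F.arc → 1 ≤ f (F.rows W) (F.feed W) (F.bsz W))
    {b : ℕ} (hb : ∀ R φ k, R.card ≠ b → f R φ k = 0) {c : ℝ}
    (hc : ∀ R ⊆ W, R.card = b →
      ∑ F ∈ fstrs W R, F.wt W 0 0 (fun _ => 1) * f R (F.feed W) (F.bsz W) ≤ c) :
    (((@filter _ E i (dags W))).card : ℝ) ≤ W.card.choose b * c := by
  have h1 := card_dags_le W E (fun F => f (F.rows W) (F.feed W) (F.bsz W))
    (fun F => h0 _ _ _) h
  refine le_trans (Nat.cast_le.2 (card_le_card fun x hx => ?_)) (h1.trans ?_)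
  · simp only [mem_filter] at hx ⊢
    exact hx
  rw [← card_powersetCard, ← nsmul_eq_mul, ← sum_const, powersetCard_eq_filter, sum_filter]
  refine sum_le_sum fun R hR => ?_
  split_ifs with hRb
  · refine le_trans (le_of_eq (sum_congr rfl fun F hF => ?_)) (hc R (mem_powerset.1 hR) hRb)
    rw [(mem_filter.1 hF).2.2]
    simp [FStr.wt]
  · refine le_of_eq (sum_eq_zero fun F hF => ?_)
    rw [(mem_filter.1 hF).2.2, hb R _ _ hRb, mul_zero]

omit [Fintype α] in
theorem tcnt_fac (T : Finset α) : ∑ D ∈ T.powerset, D.card.factorial * (T.card - D.card).factorial =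
    (T.card + 1) * T.card.factorial := by
  rw [sum_powerset_apply_card fun d => d.factorial * (T.card - d).factorial,
    sum_congr rfl (g := fun _ => T.card.factorial), sum_const, card_range, smul_eq_mul]
  intro d hd
  rw [smul_eq_mul, ← mul_assoc,
    Nat.choose_mul_factorial_mul_factorial (Nat.lt_succ_iff.1 (mem_range.1 hd))]

omit [Fintype α] in
theorem tcnt_fac2 (R : Finset α) :
    ∑ z ∈ R, ∑ S ∈ (R.erase z).powerset, ∑ D ∈ (R.erase z \ S).powerset,
      S.card.factorial * D.card.factorial * (R.card - S.card - D.card - 1).factorial ≤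
      R.card ^ 2 * R.card.factorial := by
  have key : ∀ z ∈ R, ∑ S ∈ (R.erase z).powerset, ∑ D ∈ (R.erase z \ S).powerset,
      S.card.factorial * D.card.factorial * (R.card - S.card - D.card - 1).factorial ≤
      R.card ^ 2 * (R.card - 1).factorial := fun z hz => by
    have h1 := card_erase_of_mem hz
    have h2 : 0 < R.card := card_pos.2 ⟨z, hz⟩
    have h3 := tcnt_fac (R.erase z)
    rw [h1, Nat.sub_add_cancel h2] at h3
    rw [sq, mul_assoc, ← h3, mul_sum]
    refine sum_le_sum fun S hS => ?_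
    have h4 := tcnt_fac (R.erase z \ S)
    rw [card_sdiff_of_subset (mem_powerset.1 hS), h1] at h4
    calc _ = S.card.factorial * ∑ D ∈ (R.erase z \ S).powerset,
          D.card.factorial * (R.card - 1 - S.card - D.card).factorial := by
          rw [mul_sum]
          refine sum_congr rfl fun D _ => ?_
          rw [mul_assoc, show R.card - S.card - D.card - 1 = R.card - 1 - S.card - D.card by omega]
      _ ≤ _ := by
          rw [h4, mul_left_comm]
          exact Nat.mul_le_mul_right _ (by omega)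
  refine (sum_le_sum key).trans ?_
  rw [sum_const, smul_eq_mul, mul_left_comm]
  refine Nat.mul_le_mul_left _ ?_
  rcases Nat.eq_zero_or_pos R.card with h | h
  · rw [h, zero_mul]; exact Nat.zero_le _
  · exact (Nat.mul_factorial_pred h.ne').le

theorem tcnt_choose (N b : ℕ) : (N.choose b : ℝ) * ((N - b).factorial * b.factorial) ≤
    N.factorial := by
  rcases le_or_gt b N with h | h
  · rw [← Nat.choose_mul_factorial_mul_factorial h]
    push_cast
    exact le_of_eq (by ring)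
  · rw [Nat.choose_eq_zero_of_lt h, Nat.cast_zero, zero_mul]
    exact Nat.cast_nonneg _

theorem tcnt_held {R : Finset α} (E : ℕ → ℕ → Prop) {t Bd : ℝ} (h0 : 0 ≤ Bd)
    (h : ∀ j d, j + d + 1 ≤ R.card → E j d → HV t R.card j d ≤ Bd) (w : Finset α → ℝ)
    (hw0 : ∀ T, 0 ≤ w T) (hw : ∀ T ⊆ R, ∑ o ∈ T.powerset, w o = Lam t T.card) :
    ∑ φ ∈ acys id R.powerset ∅ R, (∏ v ∈ R, w (φ v)) *
        (if ∃ z S D, HeldS R φ z S D ∧ E S.card D.card then 1 else 0) ≤
      R.card ^ 2 * R.card.factorial * Bd := by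
  have hp : ∀ φ : α → Finset α, 0 ≤ ∏ v ∈ R, w (φ v) := fun φ => prod_nonneg fun _ _ => hw0 _
  calc _ ≤ ∑ φ ∈ acys id R.powerset ∅ R, ∑ z ∈ R, ∑ S ∈ (R.erase z).powerset,
        ∑ D ∈ (R.erase z \ S).powerset,
          if E S.card D.card then (if HeldS R φ z S D then ∏ v ∈ R, w (φ v) else 0) else 0 := by
        refine sum_le_sum fun φ _ => ?_
        have hn : ∀ z S D, (0 : ℝ) ≤
            if E (card S) (card D) then (if HeldS R φ z S D then ∏ v ∈ R, w (φ v) else 0)
            else 0 := fun z S D => by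
          split_ifs
          · exact hp φ
          · exact le_rfl
          · exact le_rfl
        split_ifs with he
        · obtain ⟨z, S, D, h1, h2⟩ := he
          refine le_trans ?_ (single_le_sum (fun z _ => sum_nonneg fun S _ =>
            sum_nonneg fun D _ => hn z S D) h1.hz)
          refine le_trans ?_ (single_le_sum (fun S _ => sum_nonneg fun D _ => hn z S D)
            (mem_powerset.2 h1.hS))
          refine le_trans ?_ (single_le_sum (fun D _ => hn z S D) (mem_powerset.2 h1.hD))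
          rw [if_pos h2, if_pos h1, mul_one]
        · rw [mul_zero]
          exact sum_nonneg fun z _ => sum_nonneg fun S _ => sum_nonneg fun D _ => hn z S D
    _ ≤ ∑ z ∈ R, ∑ S ∈ (R.erase z).powerset, ∑ D ∈ (R.erase z \ S).powerset,
        (S.card.factorial * D.card.factorial * (R.card - S.card - D.card - 1).factorial : ℕ) *
          Bd := by
        rw [sum_comm]
        refine sum_le_sum fun z hz => ?_
        rw [sum_comm]
        refine sum_le_sum fun S hS => ?_
        rw [sum_comm]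
        refine sum_le_sum fun D hD => ?_
        by_cases he : E S.card D.card
        · simp only [if_pos he]
          rw [← sum_filter, held_sum w hw hz (mem_powerset.1 hS) (mem_powerset.1 hD)]
          refine mul_le_mul_of_nonneg_left (h _ _ ?_ he) (Nat.cast_nonneg _)
          have h1 := card_le_card (mem_powerset.1 hD)
          have h2 := card_le_card (mem_powerset.1 hS)
          have h3 : 0 < R.card := card_pos.2 ⟨z, hz⟩
          rw [card_sdiff_of_subset (mem_powerset.1 hS)] at h1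
          rw [card_erase_of_mem hz] at h1 h2
          omega
        · simp only [if_neg he, sum_const_zero]
          exact mul_nonneg (Nat.cast_nonneg _) h0
    _ ≤ _ := by
        simp only [← sum_mul, ← Nat.cast_sum]
        refine mul_le_mul_of_nonneg_right ?_ h0
        exact_mod_cast tcnt_fac2 R

theorem held_count (W : Finset α) (E : ℕ → ℕ → Prop)
    (mono : ∀ j d j' d', j ≤ j' → d ≤ d' → E j d → E j' d') {b : ℕ} {L Bd : ℝ} (hL1 : 1 < L)
    (hb : (b : ℝ) < xc L⁻¹) (h0 : 0 ≤ Bd)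
    (h : ∀ j d, j + d + 1 ≤ b → E j d → HV L⁻¹ b j d ≤ Bd) :
    (((dags W).filter fun Δ => (RN W Δ).card = b ∧
        ∃ q ∈ RN W Δ, E (freeR W Δ q) (domR W Δ q)).card : ℝ) ≤
      W.card.factorial * ((b : ℝ) ^ 2 * (L - 1) ^ W.card * Bd) := by
  have hL : 0 < L := by linarith only [hL1]
  have hL' : 0 < L - 1 := by linarith
  refine (tcnt_le W _ (fun R φ _ => if R.card = b then
      (if ∃ z S D, HeldS R φ z S D ∧ E S.card D.card then 1 else 0) else 0)
    (fun R φ _ => by split_ifs <;> norm_num) (fun F hF h1 h2 => ?_) (b := b)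
    (fun R φ _ hR => if_neg hR)
    (c := (W.card - b).factorial * b.factorial * ((b : ℝ) ^ 2 * (L - 1) ^ W.card * Bd))
    fun R hR hRb => ?_).trans ?_
  · obtain ⟨h3, h4, h5, -⟩ := hF.canon h1
    obtain ⟨h6, q, hq, h7⟩ := h2
    have hq' : q ∈ F.rows W := h3 ▸ hq
    rw [if_pos (h3 ▸ h6), if_pos]
    refine ⟨_, _, _, exists_heldS (feed_mem_acys hF) hq', mono _ _ _ _ ?_ ?_ h7⟩
    · refine card_le_card fun v hv => ?_
      obtain ⟨h8, h9⟩ := mem_filter.1 hv
      exact mem_filter.2 ⟨h3 ▸ h8, fun h => h9 (h5 _ _ h)⟩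
    · refine card_le_card fun v hv => ?_
      obtain ⟨h8, h9⟩ := mem_filter.1 hv
      exact mem_filter.2 ⟨h3 ▸ h8, h4 _ hq _ h8 h9⟩
  · subst hRb
    obtain ⟨w, h1, h2, -, h3, -⟩ := exists_blockGF R (κ := 0) (y := 0) (ν := fun _ => 1) le_rfl
      (inv_pos.2 hL) (inv_pos.2 hL') le_rfl (fun _ => zero_le_one) (by field_simp; ring)
      (by simpa using hb)
    simp only [if_true]
    refine (layer_le hR le_rfl le_rfl (fun _ => zero_le_one) (inv_pos.2 hL') w h2
      (fun φ => if ∃ z S D, HeldS R φ z S D ∧ E S.card D.card then 1 else 0)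
      (fun φ => by split_ifs <;> norm_num)).trans ?_
    have h4 := tcnt_held E h0 h w h1 fun T hT => by simpa using h3 T hT
    rw [inv_inv]
    refine (mul_le_mul_of_nonneg_left h4 (by positivity)).trans (le_of_eq (by ring))
  · rw [← mul_assoc]
    exact mul_le_mul_of_nonneg_right (tcnt_choose _ _) (by positivity)

theorem tcnt_treeW (κ ω : ℝ) : treeW κ ω 0 = ω := by
  have h : trees 0 = univ := by
    ext τ
    simp only [trees, mem_filter, mem_univ, true_and, iff_true]
    exact ⟨fun _ => 0, fun a => a.elim0⟩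
  simp [treeW, h, nch]

/-- the blocks with one vertex fed from inside `T` -/
noncomputable def tcnt_c (T o : Finset α) : PowerSeries ℝ :=
  if o ⊆ T then X * C (coeff 0 (cps_u o)) else 0

theorem tcnt_c_sum {T S : Finset α} (h : S ⊆ T) :
    ∑ o ∈ S.powerset, tcnt_c T o = ((1 : ℝ) + S.card) • X := by
  rw [sum_congr rfl (f := tcnt_c T) (g := fun o => X * C (coeff 0 (cps_u o)))
    fun o ho => if_pos ((mem_powerset.1 ho).trans h), ← mul_sum, ← map_sum]
  simp only [cps_u, coeff_mk]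
  rw [← sum_div, sum_blockW, tcnt_treeW, add_zero, sum_const, nsmul_eq_mul, mul_one,
    Nat.factorial_zero, Nat.cast_one, div_one, mul_comm, smul_eq_C_mul]

theorem tcnt_c_sum' {T S : Finset α} (h : T ⊆ S) :
    ∑ o ∈ S.powerset, (X * cps_u o - tcnt_c T o) = pLam S.card - ((1 : ℝ) + T.card) • X := by
  rw [sum_sub_distrib, cps_pw, ← tcnt_c_sum (subset_refl T),
    sum_subset (f := tcnt_c T) (powerset_mono.2 h)
      fun o _ ho => if_neg fun h' => ho (mem_powerset.2 h')]

theorem tcnt_in {R T : Finset α} (h : T ⊆ R) :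
    ∑ φ ∈ acys id R.powerset ∅ T, ∏ v ∈ T, tcnt_c T (φ v) = (T.card.factorial : ℝ) • PT T.card := by
  have h4 := acys_sum_one id R.powerset ∅ T (tcnt_c T) (fun _ => X) fun S hS a ha haS => by
    have hi : insert a S ⊆ T := insert_subset ha hS
    have he : R.powerset.filter (fun o => id o ⊆ insert a S ∧ ¬ id o ⊆ S) =
        (insert a S).powerset \ S.powerset := by
      ext o
      simp only [mem_filter, mem_powerset, mem_sdiff, id]
      exact ⟨fun h => h.2, fun h' => ⟨h'.1.trans (hi.trans h), h'⟩⟩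
    rw [he, sum_sdiff_eq_sub (powerset_mono.2 (subset_insert a S)), tcnt_c_sum hi, tcnt_c_sum hS,
      card_insert_of_notMem haS, ← sub_smul, Nat.cast_succ, ← add_assoc, add_sub_cancel_left,
      one_smul]
  have h5 : ∑ o ∈ R.powerset.filter (fun o => id o = ∅), tcnt_c T o = X := by
    have h6 := tcnt_c_sum (empty_subset T)
    rw [powerset_empty, sum_singleton, card_empty, Nat.cast_zero, add_zero, one_smul] at h6
    rw [← h6]
    exact sum_eq_single_of_mem ∅ (by simp) fun o ho hne => absurd (mem_filter.1 ho).2 hne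
  rw [h5] at h4
  exact h4

theorem tcnt_out {R T : Finset α} (h : T ⊆ R) :
    ∑ φ ∈ acys (fun o => id o \ T) R.powerset ∅ (R \ T),
        ∏ v ∈ R \ T, (X * cps_u (φ v) - tcnt_c T (φ v)) =
      ((R.card - T.card).factorial : ℝ) • PR R.card T.card := by
  have hc := card_sdiff_of_subset h
  have h4 := acys_sum_one (fun o => id o \ T) R.powerset ∅ (R \ T)
    (fun o => X * cps_u o - tcnt_c T o) (pRate R.card) fun S hS a ha haS => by
    have hi : insert a S ⊆ R \ T := insert_subset ha hS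
    have he : R.powerset.filter (fun o => id o \ T ⊆ insert a S ∧ ¬ id o \ T ⊆ S) =
        (T ∪ insert a S).powerset \ (T ∪ S).powerset := by
      ext o
      have e : ∀ U : Finset α, o \ T ⊆ U ↔ o ⊆ T ∪ U := fun U => sdiff_le_iff
      simp only [mem_filter, mem_powerset, mem_sdiff, id, e]
      exact ⟨fun h => h.2, fun h' =>
        ⟨h'.1.trans (union_subset h (hi.trans sdiff_subset)), h'⟩⟩
    have h5 : S.card < (R \ T).card := card_lt_card ⟨hS, fun h => haS (h ha)⟩
    have h7 := card_le_card h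
    have h6 : R.card - ((R \ T).card - S.card - 1) = T.card + S.card + 1 := by omega
    rw [he, sum_sdiff_eq_sub (powerset_mono.2 (union_subset_union_right (subset_insert a S))),
      tcnt_c_sum' subset_union_left, tcnt_c_sum' subset_union_left,
      card_union_of_disjoint (disjoint_sdiff.mono_right hi),
      card_union_of_disjoint (disjoint_sdiff.mono_right hS), card_insert_of_notMem haS, pRate, h6,
      sub_sub_sub_cancel_right, ← add_assoc, Nat.cast_succ, add_sub_cancel_right]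
  have h5 : ∑ o ∈ R.powerset.filter (fun o => id o \ T = ∅), (X * cps_u o - tcnt_c T o) =
      pM T.card := by
    rw [pM, ← tcnt_c_sum' (subset_refl T)]
    refine sum_congr ?_ fun _ _ => rfl
    ext o
    simp only [mem_filter, mem_powerset, id, sdiff_eq_empty_iff_subset]
    exact ⟨fun h => h.2, fun h' => ⟨h'.trans h, h'⟩⟩
  rw [h5, hc] at h4
  exact h4

theorem tcnt_tree {R T : Finset α} (h : T ⊆ R) (n : ℕ) :
    ∑ φ ∈ acys id R.powerset ∅ R, ∑ k ∈ piAntidiag R n,
        (if ∀ v ∈ R, v ∈ T ↔ k v = 0 ∧ φ v ⊆ T then (1 : ℝ) else 0) *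
          ∏ v ∈ R, (blockW 0 0 (fun _ => 1) (k v) (φ v) / (k v).factorial) =
      T.card.factorial * (R.card - T.card).factorial *
        coeff (n + R.card) (PT T.card * PR R.card T.card) := by
  have h1 := acys_split id R.powerset ∅ h
    fun v o => if v ∈ T then tcnt_c T o else X * cps_u o - tcnt_c T o
  rw [sum_filter_of_ne, sum_congr rfl (s₁ := acys id R.powerset ∅ T)
      (g := fun φ => ∏ v ∈ T, tcnt_c T (φ v))
      fun φ _ => prod_congr rfl fun v hv => if_pos hv,
    sum_congr rfl (s₁ := acys (fun o => id o \ T) R.powerset ∅ (R \ T))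
      (g := fun φ => ∏ v ∈ R \ T, (X * cps_u (φ v) - tcnt_c T (φ v)))
      fun φ _ => prod_congr rfl fun v hv => if_neg (mem_sdiff.1 hv).2,
    tcnt_in h, tcnt_out h, smul_mul_smul_comm] at h1
  · have h2 := congrArg (coeff (n + R.card)) h1
    rw [coeff_smul, smul_eq_mul, map_sum] at h2
    rw [← h2]
    refine sum_congr rfl fun φ _ => ?_
    have h3 : ∀ v ∈ R, (if v ∈ T then tcnt_c T (φ v) else X * cps_u (φ v) - tcnt_c T (φ v)) =
        X * PowerSeries.mk fun k => if (v ∈ T ↔ k = 0 ∧ φ v ⊆ T) then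
          blockW 0 0 (fun _ => 1) k (φ v) / k.factorial else 0 := fun v _ => by
      by_cases hs : φ v ⊆ T
      · rw [tcnt_c, if_pos hs, ← mul_sub, ← mul_ite]
        congr 1
        ext k
        by_cases hv : v ∈ T <;> by_cases hk : k = 0 <;> simp [hv, hs, hk, cps_u, coeff_C]
      · rw [tcnt_c, if_neg hs, sub_zero, ← mul_zero X, ← mul_ite]
        congr 1
        ext k
        by_cases hv : v ∈ T <;> simp [hv, hs, cps_u]
    rw [prod_congr rfl h3, prod_mul_distrib, prod_const, coeff_X_pow_mul, cps_coeff_prod]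
    refine sum_congr rfl fun k _ => ?_
    simp only [coeff_mk]
    split_ifs with hk
    · rw [one_mul]
      exact prod_congr rfl fun v hv => (if_pos (hk v hv)).symm
    · obtain ⟨v, hv⟩ := not_forall.1 hk
      obtain ⟨hv, hv'⟩ := Classical.not_imp.1 hv
      rw [zero_mul]
      exact (prod_eq_zero hv (if_neg hv')).symm
  · intro φ _ hne v hv
    by_contra hs
    refine hne (prod_eq_zero (h hv) ?_)
    rw [if_pos hv]
    exact if_neg hs

theorem tree_count (W : Finset α) {b m : ℕ} (hb : b ≤ W.card) (hm : m ≤ b) :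
    (((dags W).filter fun Δ => (RN W Δ).card = b ∧ (rootT W Δ).card = m).card : ℝ) ≤
      W.card.factorial * coeff W.card (PT m * PR b m) := by
  refine (tcnt_le W _ (fun R φ k => if R.card = b then ∑ T ∈ powersetCard m R,
      (if ∀ v ∈ R, v ∈ T ↔ k v = 0 ∧ φ v ⊆ T then 1 else 0) else 0)
    (fun R φ _ => ?_) (fun F hF h1 h2 => ?_) (b := b) (fun R φ _ hR => if_neg hR)
    (c := (W.card - b).factorial * b.factorial * coeff W.card (PT m * PR b m))
    fun R hR hRb => le_of_eq ?_).trans (le_of_eq ?_)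
  · split_ifs
    · exact sum_nonneg fun _ _ => by split_ifs <;> norm_num
    · exact le_rfl
  · obtain ⟨h3, -, -, h4⟩ := hF.canon h1
    have h5 : rootT W F.arc ⊆ F.rows W := fun v hv => by
      simp only [rootT, mem_filter] at hv
      exact h3 ▸ hv.1
    rw [if_pos (h3 ▸ h2.1)]
    refine le_trans ?_ (single_le_sum (fun _ _ => by split_ifs <;> norm_num)
      (mem_powersetCard.2 ⟨h5, h2.2⟩))
    rw [if_pos h4]
  · subst hRb
    simp only [if_true]
    rw [layer hR 0 0 (fun _ => 1) fun φ k => ∑ T ∈ powersetCard m R,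
      (if ∀ v ∈ R, v ∈ T ↔ k v = 0 ∧ φ v ⊆ T then 1 else 0), blow_K R (Nat.sub_le _ _), mul_assoc]
    congr 1
    simp only [sum_mul]
    rw [sum_congr rfl fun φ _ => sum_comm, sum_comm,
      sum_congr rfl (g := fun _ => (m.factorial : ℝ) * (R.card - m).factorial *
        coeff W.card (PT m * PR R.card m)), sum_const, card_powersetCard, nsmul_eq_mul,
      ← Nat.choose_mul_factorial_mul_factorial hm]
    · push_cast
      ring
    · intro T hT
      obtain ⟨h1, h2⟩ := mem_powersetCard.1 hT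
      rw [tcnt_tree h1, h2, Nat.sub_add_cancel hb]
  · rw [← Nat.choose_mul_factorial_mul_factorial hb]
    push_cast
    ring

end Pool.Agent.Work.MP_5391ad_co
end

-- merged part: Pool.Agent.Work.MP_5391ad_co.MGr
section
/-! From a nearly decomposable matrix with a pair of roots to a good rooted digraph.
`gr_of_frame`. `fwd`: the set `T` of vertices reachable from `s` gives the closed pair
`(π T, T)`, so `T = univ` by `FIr`; `bwd`: the set `T` of vertices not reaching `s` gives a closed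
pair `(π T, T)` with `s ∉ T`, so `T = ∅`. A certificate `(S, Y)` of an entry `(a, b)` (field `cr`)
never has `π s ∈ S` and `s ∉ Y`: `(S, insert b Y)` is tight for `B`, `(Yᶜ, insert a Sᶜ)` is tight for
`rv B`, and `hb`, `hr`, `hc` contradict each other. Put `S' = π⁻¹ S`. For an arc `(u, v)`, entry
`(π u, v)`: `S' ⊆ Y` by the frame, so `S' = Y`, and the arc is the only arc leaving `S'`: an
out-bridge if `s ∈ S'`, an in-bridge otherwise. For the entry `(π u, u)`, `u ≠ s`:
`S' \ {u} ⊆ Y`, `Y = insert z (S' \ {u})`, every arc leaving `S'` ends in `Y`, so every walk from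
`S'` avoiding `z` stays in `S' \ {u}` after the first step; `z ≠ s` because of the cycle;
`dom z u` if `s ∈ S'`, `pdom z u` otherwise.
`reg_col`: for `X = {y | pdom z y}` the pair `(π X, reg z)` is tight (`dom_of_arc` for `rv`), use
`tight_rv`. `env_frame`: an ear `x ≠ s` of `dig B 1` with ends `(u, y)` has `π x = x` (then it is an
ear of `dig B π` with ends `(π⁻¹ u, y)`) or `π x = u`; both digraphs miss at most `card α` of the
entries, `dig B 1` exactly that many. `noBlk_of_env`: `Y = insert z S`, and an ear from `S` to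
`C \ Y` must be `z`. -/

namespace Pool.Agent.Work.MP_5391ad_co

open Finset
open scoped Classical

variable {α : Type*} [Fintype α] {B : α → α → Prop} {π : Equiv.Perm α} {s : α}

omit [Fintype α] in
theorem mgr_cl {T T' : Finset α} (h1 : T ⊆ T') (h2 : ∀ a ∈ T, ∀ b, dig B π a b → b ∈ T') :
    Cl B (T.map π.toEmbedding) T' := by
  intro i hi b hb
  obtain ⟨a, ha, rfl⟩ := mem_map.1 hi
  by_cases e : a = b
  · exact e ▸ h1 ha
  · exact h2 a ha b ⟨e, hb⟩

omit [Fintype α] in
theorem mgr_stay {D : α → α → Prop} {T : Finset α} (h : ∀ a ∈ T, ∀ b, D a b → b ∈ T) {x y : α}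
    (hx : x ∈ T) (w : Relation.ReflTransGen D x y) : y ∈ T := by
  induction w with
  | refl => exact hx
  | tail _ e ih => exact h _ ih _ e

/-- certificates in the frame -/
theorem mgr_cert (h : NDr B) {R C : Finset α} {m τ τ' : ℕ} (hb : NoBlk B R C m)
    (hf : Frame B π s) (hr : IsRoot B R τ (π s)) (hc : IsRoot (rv B) C τ' s) (h1 : m ≤ τ)
    (h2 : m < τ') {u v : α} (e : B (π u) v) :
    ∃ S Y : Finset α, u ∈ S ∧ v ∉ Y ∧ Y.card = S.card ∧
      (∀ x ∈ S, x ∈ Y ∨ (x = u ∧ x = v)) ∧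
      ∀ x ∈ S, ∀ y, dig B π x y → y ∈ Y ∨ (x = u ∧ y = v) := by
  obtain ⟨S, Y, hS, hY, hcard, hcl⟩ := h.cr _ _ e
  have key : π s ∈ S → s ∈ Y := by
    intro hs
    by_contra hs'
    have t1 : Tight B S (insert v Y) := by
      refine ⟨fun i hi j hj => ?_, by rw [card_insert_of_notMem hY, hcard]⟩
      rcases hcl i hi j hj with k | k
      · exact mem_insert_of_mem k
      · exact k.2 ▸ mem_insert_self _ _
    have t2 : Tight (rv B) Yᶜ (insert (π u) Sᶜ) := by
      refine ⟨fun j hj i hi => ?_, ?_⟩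
      · by_cases k : i ∈ S
        · rcases hcl i k j hi with k' | k'
          · exact absurd k' (mem_compl.1 hj)
          · exact k'.1 ▸ mem_insert_self _ _
        · exact mem_insert_of_mem (mem_compl.2 k)
      · rw [card_insert_of_notMem (by simpa using hS), card_compl, card_compl, hcard]
    have a1 := hr _ _ t1 hs
    have a2 := hc _ _ t2 (mem_compl.2 hs')
    have a3 : (Yᶜ ∩ C).card ≤ (C \ insert v Y).card + 1 := by
      refine le_trans (card_le_card fun x hx => ?_) (card_insert_le v _)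
      simp only [mem_inter, mem_compl, mem_insert, mem_sdiff] at hx ⊢
      tauto
    rcases hb _ _ t1 with k | k <;> omega
  refine ⟨S.map π.symm.toEmbedding, Y, by simpa using hS, hY, by rw [card_map, hcard],
    fun x hx => ?_, fun x hx y hy => ?_⟩
  · have hx' : π x ∈ S := by simpa using hx
    by_cases k : x = s
    · exact Or.inl (k ▸ key (k ▸ hx'))
    · exact (hcl _ hx' _ (hf x k)).imp_right fun k => ⟨π.injective k.1, k.2⟩
  · have hx' : π x ∈ S := by simpa using hx
    exact (hcl _ hx' _ hy.2).imp_right fun k => ⟨π.injective k.1, k.2⟩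

theorem gr_of_frame (h : NDr B) {R C : Finset α} {m τ τ' : ℕ} (hb : NoBlk B R C m)
    (hf : Frame B π s) (hr : IsRoot B R τ (π s)) (hc : IsRoot (rv B) C τ' s) (h1 : m ≤ τ)
    (h2 : m < τ') : GR univ (dig B π) s := by
  refine ⟨mem_univ _, fun a b _ => ⟨mem_univ _, mem_univ _⟩, fun a k => k.1 rfl, fun x _ => ?_,
    fun x _ => ?_, fun u v e => ?_, fun u hu => ?_⟩
  · by_contra hx
    have := h.fi _ _ (mgr_cl (B := B) (π := π)
      (T := univ.filter fun y => Relation.ReflTransGen (dig B π) s y) subset_rfl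
      fun a ha b e => mem_filter.2 ⟨mem_univ _, (mem_filter.1 ha).2.tail e⟩)
      ⟨π s, mem_map_of_mem _ (mem_filter.2 ⟨mem_univ _, .refl⟩)⟩
      fun k => hx (mem_filter.1 (k ▸ mem_univ x)).2
    rw [card_map] at this
    omega
  · by_contra hx
    have := h.fi _ _ (mgr_cl (B := B) (π := π)
      (T := univ.filter fun y => ¬ Relation.ReflTransGen (dig B π) y s) subset_rfl
      fun a ha b e => mem_filter.2 ⟨mem_univ _, fun k => (mem_filter.1 ha).2 (k.head e)⟩)
      ⟨π x, mem_map_of_mem _ (mem_filter.2 ⟨mem_univ _, hx⟩)⟩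
      fun k => by
        have k' := mem_univ s
        rw [← k] at k'
        exact (mem_filter.1 k').2 .refl
    rw [card_map] at this
    omega
  · obtain ⟨S, Y, hS, hY, hcard, k1, k2⟩ := mgr_cert h hb hf hr hc h1 h2 e.2
    have k3 : S = Y := eq_of_subset_of_card_le
      (fun x hx => (k1 x hx).resolve_right fun k => e.1 (k.1.symm.trans k.2)) hcard.le
    subst k3
    have k4 : ∀ a ∈ S, ∀ b, (dig B π a b ∧ ¬ (a = u ∧ b = v)) → b ∈ S :=
      fun a ha b k => (k2 a ha b k.1).resolve_right k.2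
    by_cases hs : s ∈ S
    · exact Or.inl ⟨e, fun w => hY (mgr_stay k4 hs w)⟩
    · exact Or.inr ⟨e, fun w => hs (mgr_stay k4 hS w)⟩
  · have hus : u ≠ s := hu.not_mem
    obtain ⟨S, Y, hS, hY, hcard, k1, k2⟩ := mgr_cert h hb hf hr hc h1 h2 (hf u hus)
    have k3 : S.erase u ⊆ Y := fun x hx =>
      (k1 x (mem_of_mem_erase hx)).resolve_right fun k => ne_of_mem_erase hx k.1
    obtain ⟨z, hz⟩ : ∃ z, Y \ S.erase u = {z} := by
      rw [← card_eq_one, card_sdiff_of_subset k3, card_erase_of_mem hS]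
      have := card_pos.2 ⟨u, hS⟩
      omega
    have hzY : z ∈ Y := (mem_sdiff.1 (hz ▸ mem_singleton_self z)).1
    have hzu : z ≠ u := fun k => hY (k ▸ hzY)
    have k4 : ∀ a ∈ S, ∀ b, dig B π a b → b ≠ z → b ∈ S.erase u := by
      intro a ha b k hb
      have hbY := (k2 a ha b k).resolve_right fun k' => k.1 (k'.1.trans k'.2.symm)
      by_contra k'
      exact hb (mem_singleton.1 (hz ▸ mem_sdiff.2 ⟨hbY, k'⟩))
    have k5 : ∀ A : Set α, z ∈ A → ∀ x ∈ S.erase u, ¬ Av (dig B π) A x u := fun A hA x hx w =>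
      notMem_erase u S (mgr_stay (fun a ha b k => k4 a (mem_of_mem_erase ha) b k.1
        fun k' => k.2 (k' ▸ hA)) hx w.2)
    have k6 : ∀ A : Set α, z ∈ A → ¬ CycA (dig B π) A u := fun A hA ⟨v, e, w⟩ =>
      k5 A hA v (k4 u hS v e fun k => w.1 (k ▸ hA)) w
    refine ⟨z, hzu, fun k => k6 {s} k hu, k6 _ (Or.inr rfl), ?_⟩
    by_cases hs : s ∈ S
    · exact Or.inl ⟨hzu.symm, k5 {z} rfl s (mem_erase.2 ⟨hus.symm, hs⟩)⟩
    · exact Or.inr ⟨hzu.symm, fun w => hs (mgr_stay
        (fun a ha b k => mem_of_mem_erase (k4 a ha b k.1 k.2)) hS w.2)⟩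

theorem mgr_reg (D : α → α → Prop) (s z : α) :
    (reg D s z).card = (univ.filter fun y => pdom D s z y).card + 1 := by
  have e : reg D s z = insert z (univ.filter fun y => pdom D s z y) := by
    ext y
    simp [reg]
  rw [e, card_insert_of_notMem fun k => (mem_filter.1 k).2.1 rfl]

theorem mgr_root (D : α → α → Prop) {s z : α} (hz : z ≠ s) : s ∉ reg D s z := fun k =>
  (mem_filter.1 k).2.elim (fun e => hz e.symm) fun e => e.2 (av_refl e.1)

theorem mgr_split (C T : Finset α) : (C ∩ T).card + (Tᶜ ∩ C).card = C.card := by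
  rw [inter_comm Tᶜ, ← sdiff_eq_inter_compl, card_inter_add_card_sdiff]

theorem reg_col {C : Finset α} {τ : ℕ} (hc : IsRoot (rv B) C τ s) {z : α} (hz : z ≠ s) :
    (C ∩ reg (dig B π) s z).card + τ ≤ C.card := by
  have t : Tight B ((univ.filter fun y => pdom (dig B π) s z y).map π.toEmbedding)
      (reg (dig B π) s z) := by
    refine ⟨mgr_cl (fun y hy => mem_filter.2 ⟨mem_univ _, Or.inr (mem_filter.1 hy).2⟩)
      fun a ha b e => mem_filter.2 ⟨mem_univ _, ?_⟩, by rw [card_map, mgr_reg]⟩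
    exact (dom_of_arc (D := rv (dig B π)) (dom_rv.2 (mem_filter.1 ha).2) e).imp_right dom_rv.1
  have a := hc _ _ (tight_rv.2 t) (mem_compl.2 (mgr_root _ hz))
  have b := mgr_split C (reg (dig B π) s z)
  omega

theorem reg_row {R : Finset α} {τ : ℕ} (hr : IsRoot B R τ (π s)) {z : α} (hz : z ≠ s) :
    (R.map π.symm.toEmbedding ∩ reg (rv (dig B π)) s z).card + τ ≤ R.card := by
  have t : Tight B ((reg (rv (dig B π)) s z)ᶜ.map π.toEmbedding)
      (univ.filter fun y => pdom (rv (dig B π)) s z y)ᶜ := by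
    refine ⟨mgr_cl (compl_subset_compl.2
      fun y hy => mem_filter.2 ⟨mem_univ _, Or.inr (mem_filter.1 hy).2⟩)
      fun a ha b e => mem_compl.2 fun k => mem_compl.1 ha (mem_filter.2 ⟨mem_univ _, ?_⟩), ?_⟩
    · exact (dom_of_arc (pdom_rv.1 (mem_filter.1 k).2) e).imp_right pdom_rv.2
    · have := card_le_univ (reg (rv (dig B π)) s z)
      rw [card_map, card_compl, card_compl, mgr_reg] at *
      omega
  have a := hr _ _ t (mem_map_of_mem _ (mem_compl.2 (mgr_root _ hz)))
  have b := mgr_split (R.map π.symm.toEmbedding) (reg (rv (dig B π)) s z)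
  have c : (reg (rv (dig B π)) s z)ᶜ.map π.toEmbedding ∩ R =
      ((reg (rv (dig B π)) s z)ᶜ ∩ R.map π.symm.toEmbedding).map π.toEmbedding := by
    ext x
    simp [mem_map_equiv]
  rw [c, card_map] at a
  rw [card_map] at b
  omega

theorem mgr_narc (hd : ∀ a, B a a) (π : Equiv.Perm α) : narc (dig B 1) ≤ narc (dig B π) := by
  have a : narc (dig B 1) + Fintype.card α ≤ (univ.filter fun p : α × α => B p.1 p.2).card := by
    rw [narc, ← card_univ, ← diag_card (s := univ), ← card_union_of_disjoint]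
    · refine card_le_card fun p hp => mem_filter.2 ⟨mem_univ _, ?_⟩
      rcases mem_union.1 hp with k | k
      · exact (mem_filter.1 k).2.2
      · rw [← (mem_diag.1 k).2]
        exact hd _
    · exact disjoint_left.2 fun p k k' => (mem_filter.1 k).2.1 (mem_diag.1 k').2
  have b : (univ.filter fun p : α × α => B p.1 p.2).card =
      (univ.filter fun p : α × α => B (π p.1) p.2).card :=
    (card_bijective (Prod.map π id) (π.bijective.prodMap Function.bijective_id)
      fun p => by simp).symm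
  have c : (univ.filter fun p : α × α => B (π p.1) p.2).card ≤
      narc (dig B π) + Fintype.card α := by
    rw [narc, ← card_univ, ← diag_card (s := univ)]
    refine le_trans (card_le_card fun p hp => ?_) (card_union_le _ _)
    by_cases k : p.1 = p.2
    · exact mem_union_right _ (mem_diag.2 ⟨mem_univ _, k⟩)
    · exact mem_union_left _ (mem_filter.2 ⟨mem_univ _, k, (mem_filter.1 hp).2⟩)
  omega

theorem mgr_ears (hf : Frame B π s) {R S : Finset α} (hS : S ⊆ R.map π.symm.toEmbedding)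
    (W : Finset α) :
    ears (dig B 1) (S.map π.toEmbedding) W ≤ ears (dig B π) S W + R.card + 1 := by
  rw [ears, ears, ← card_map π.symm.toEmbedding (s := R)]
  refine le_trans (card_le_card fun x hx => ?_)
    ((card_insert_le s _).trans (Nat.add_le_add_right (card_union_le _ _) 1))
  obtain ⟨u', hu', y, hy, l1, l2⟩ := (mem_filter.1 hx).2
  obtain ⟨u, hu, rfl⟩ := mem_map.1 hu'
  by_cases k : x = s
  · exact k ▸ mem_insert_self _ _
  refine mem_insert_of_mem ?_
  by_cases k' : π x = x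
  · refine mem_union_left _ (mem_filter.2 ⟨mem_univ _, u, hu, y, hy, fun a => ?_, fun a => ?_⟩)
    · have e : dig B π a x ↔ dig B 1 (π a) x :=
        and_congr (by rw [← π.injective.ne_iff, k']) Iff.rfl
      rw [e, l1]
      exact π.injective.eq_iff
    · have e : dig B π x a ↔ dig B 1 x a := by simp only [dig, k', Equiv.Perm.one_apply]
      rw [e, l2]
  · have e : π x = π u := (l1 _).1 ⟨k', hf x k⟩
    exact mem_union_right _ (hS (π.injective e ▸ hu))

theorem env_frame (hd : ∀ a, B a a) (hf : Frame B π s) {R C : Finset α} {m j N : ℕ}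
    (he : Env (dig B 1) R C m (j + R.card + 1) (N + R.card + 1)) :
    Env (dig B π) (R.map π.symm.toEmbedding) C m j N := by
  have sub : ∀ S ⊆ R.map π.symm.toEmbedding, S.map π.toEmbedding ⊆ R := by
    intro S hS x hx
    obtain ⟨a, ha, rfl⟩ := mem_map.1 hx
    simpa using hS ha
  refine ⟨?_, fun S hS W hW k1 k2 => ?_, fun S hS W hW k1 k2 => ?_⟩
  · have a := he.defi
    have b := mgr_narc hd π
    rw [card_map]
    omega
  · have a := he.few _ (sub S hS) W hW (by rwa [card_map]) k2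
    have b := mgr_ears hf hS W
    omega
  · rw [card_map] at k1
    have a := he.big _ (sub S hS) W hW (by rwa [card_map]) k2
    have b := mgr_ears hf hS W
    omega

theorem noBlk_of_env (hd : ∀ a, B a a) {R C : Finset α} {m j N : ℕ}
    (he : Env (dig B 1) R C m j N) (hj : 2 ≤ j) : NoBlk B R C m := by
  intro S Y t
  by_contra k
  push Not at k
  have a := he.few _ inter_subset_right _ sdiff_subset k.1 k.2
  have b : S ⊆ Y := fun x hx => t.1 x hx x (hd x)
  have c : ears (dig B 1) (S ∩ R) (C \ Y) ≤ (Y \ S).card := by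
    refine card_le_card fun x hx => ?_
    obtain ⟨u, hu, y, hy, l1, l2⟩ := (mem_filter.1 hx).2
    exact mem_sdiff.2 ⟨t.1 u (mem_inter.1 hu).1 x ((l1 u).2 rfl).2,
      fun k' => (mem_sdiff.1 hy).2 (t.1 x k' y ((l2 y).2 rfl).2)⟩
  rw [card_sdiff_of_subset b, t.2] at c
  omega

theorem eq_of_frame {B' : α → α → Prop} (hf : Frame B π s) (hf' : Frame B' π s)
    (h1 : dig B π = dig B' π) (h2 : B (π s) s ↔ B' (π s) s) : B = B' := by
  funext a b
  obtain ⟨a, rfl⟩ := π.surjective a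
  refine propext ?_
  by_cases e : a = b
  · subst e
    by_cases k : a = s
    · subst k
      exact h2
    · exact iff_of_true (hf a k) (hf' a k)
  · have := congrFun (congrFun h1 a) b
    simpa [dig, e] using this

end Pool.Agent.Work.MP_5391ad_co
end
end
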