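import Pool.Agent.Work.MP_5391ad_co.BSum
import Pool.Agent.Work.MP_5391ad_co.CExp
import Pool.Agent.Work.MP_5391ad_co.MGr
import Pool.Agent.Work.MP_5391ad_co.AGiant

-- merged part: Pool.Agent.Work.MP_5391ad_co.BOut
section
/-! Out-degrees, sources and sinks. Split by `R = F.rows W` as in `BSum`.
`sumF_out`: expand the product over `J ⊆ R` (`Finset.prod_one_add`); `∏_{u ∈ J} 2^outs` is `F.wt`
with `κ = 1`, `y = 0`, `ν = 2` on `J` and `1` elsewhere. Take `t` for `(b, s) = (|R|, |J|)`, `w` from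
`exists_blockGF`, `layer_le`, then `acys_crude` with `A = rate t s b`: by `incr_mono` the increment
of `Lam` of length `ν a` starting at `∑_S ν` is at most `ν a` times the unit increment starting at
`s + |S|`. `w ∅ ≤ e t ≤ e A (b-1)`; `∑_J (δ e K)^|J| ≤ exp (N δ e K)`.
`sumF_ends`: the sinks are the row nodes with `outs = 0`; `(1 + Y)^sinks = ∑_{I ⊆ sinks} Y^|I|`; for
`I ⊆ R` the indicator times `(1+y)^nsrc` is `F.wt` with `ν = 0` on `I`, `1` elsewhere. Take `t` for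
`|R \ I|`. The weights `w T` vanish when `T` meets `I` (compare the sums over `R.powerset` and
`(R \ I).powerset`), then `acys_unused`, `sum_pi_born` and `acys_sum_one` with `O = R.powerset` on
`R \ I`. Count: `C(N,b) C(b,m) (N-b)! (b-m)! = N!/m!`. -/

namespace Pool.Agent.Work.MP_5391ad_co

open Finset Real
open scoped Classical

variable {α : Type*} [Fintype α]

theorem bout_split (W : Finset α) (g : FStr α → ℝ) (c : ℝ)
    (h : ∀ R ⊆ W, ∑ F ∈ fstrs W R, g F ≤ (W.card - R.card).factorial * (R.card.factorial * c)) :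
    ∑ F ∈ univ.filter (IsF W), g F ≤ (W.card + 1) * W.card.factorial * c := by
  rw [← sum_fiberwise_of_maps_to (t := W.powerset) (g := FStr.rows W)
    fun F _ => mem_powerset.2 (filter_subset _ _)]
  refine (sum_le_sum fun R hR => ?_).trans
    (le_of_eq ((qcrude_pow W fun k => k.factorial * c).trans ?_))
  · rw [filter_filter]
    exact h R (mem_powerset.1 hR)
  · rw [sum_congr rfl fun k _ => mul_div_cancel_left₀ c (by positivity : (k.factorial : ℝ) ≠ 0),
      sum_const, card_range, nsmul_eq_mul]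
    push_cast
    ring

theorem bout_rate {t y : ℝ} {b : ℕ} (ht : 0 < t) (h : y + b < xc t) (n : ℕ) : t ≤ rate t y b n := by
  have h1 : ((b - n : ℕ) : ℝ) ≤ b := Nat.cast_le.2 (Nat.sub_le _ _)
  refine le_trans ?_ (incr_bounds ht (x := y + (b - n : ℕ)) (by linarith)).1
  obtain ⟨h2, h3, -⟩ := tau_spec ht (x := y + (b - n : ℕ) - 1) (by linarith)
  rw [le_div_iff₀ (by linarith)]
  linarith only [ht, h2, mul_pos_of_neg_of_neg (Mathlib.Tactic.Linarith.sub_neg_of_lt ht) (Mathlib.Tactic.Linarith.sub_neg_of_lt h2)]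

theorem bout_rate_eq (t y : ℝ) {b k : ℕ} (h : k < b) :
    rate t y b (b - k - 1) = Lam t (y + k + 1) - Lam t (y + k) := by
  have e : b - (b - k - 1) = k + 1 := by omega
  unfold rate
  rw [e, Nat.cast_succ, ← add_assoc, add_sub_cancel_right]

omit [Fintype α] in
theorem bout_card {S R : Finset α} {a : α} (hS : S ⊆ R) (ha : a ∈ R) (h : a ∉ S) :
    S.card < R.card := card_lt_card ⟨hS, fun h1 => h (h1 ha)⟩

omit [Fintype α] in
theorem bout_nu (J T : Finset α) :
    ∑ u ∈ T, (if u ∈ J then 2 else 1 : ℝ) = T.card + (T ∩ J).card := by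
  have e : ∀ u, (if u ∈ J then 2 else 1 : ℝ) = 1 + if u ∈ J then 1 else 0 := fun u => by
    split_ifs <;> norm_num
  simp only [e]
  rw [sum_add_distrib, sum_ite_mem]
  simp

theorem bout_one {W R J : Finset α} (hR : R ⊆ W) (hJ : J ⊆ R) {t : ℝ} (ht : 0 < t)
    (hx : (J.card : ℝ) + R.card < xc t) :
    ∑ F ∈ fstrs W R, ∏ u ∈ J, (2 : ℝ) ^ FStr.outs W F u ≤
      (W.card - R.card).factorial * (R.card.factorial * (exp (exp 1) * exp 1 ^ J.card *
        (t⁻¹ ^ W.card * FreeT t J.card R.card))) := by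
  have hν : ∀ u, (0 : ℝ) ≤ if u ∈ J then 2 else 1 := fun u => by split_ifs <;> norm_num
  have hs : ∑ u ∈ R, (if u ∈ J then 2 else 1 : ℝ) = R.card + J.card := by
    rw [bout_nu, inter_eq_right.2 hJ]
  obtain ⟨w, hw, h1, h2, -, h3⟩ := exists_blockGF R (κ := 1) (z := t) (y := 0) zero_le_one ht ht
    le_rfl hν (by ring) (by rw [hs]; linarith)
  have h4 := layer_le hR zero_le_one le_rfl hν ht w h1 (fun _ => 1) fun _ => zero_le_one
  have hA := bout_rate ht hx
  have h5 := acys_crude R w hw _ hν (rate t J.card R.card) (fun n => ht.trans_le (hA n))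
    (fun i j hij _ => by
      have h6 : ((R.card - j : ℕ) : ℝ) ≤ (R.card - i : ℕ) := Nat.cast_le.2 (by omega)
      have h7 : ((R.card - i : ℕ) : ℝ) ≤ R.card := Nat.cast_le.2 (Nat.sub_le _ _)
      have := incr_mono ht zero_le_one (x := J.card + (R.card - j : ℕ) - 1)
        (x' := J.card + (R.card - i : ℕ) - 1) (by linarith only [h6]) (by linarith only [hx, h7])
      rwa [sub_add_cancel, sub_add_cancel] at this)
    (fun S hS a ha haS => by
      clear * - α S R a hS ha haS J t ht hx w h3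
      have h6 := bout_card hS ha haS
      have h7 : (S.card : ℝ) + 1 ≤ R.card := by exact_mod_cast h6
      have h8 := fun x (hx' : x ≤ (J.card : ℝ) + S.card) =>
        incr_mono ht zero_le_one hx' (by linarith only [hx, h7])
      rw [h3 S hS a ha haS, bout_rate_eq _ _ h6, bout_nu, zero_add]
      split_ifs with haJ
      · have h9 : ((S ∩ J).card : ℝ) + 1 ≤ J.card := by
          exact_mod_cast bout_card inter_subset_right haJ fun h => haS (mem_inter.1 h).1
        have h10 := h8 (S.card + (S ∩ J).card) (by linarith only [h9])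
        have h11 := h8 (S.card + (S ∩ J).card + 1) (by linarith)
        rw [add_assoc _ (1 : ℝ) 1, one_add_one_eq_two] at h11
        linarith only [h10, h11]
      · have h9 : ((S ∩ J).card : ℝ) ≤ J.card := Nat.cast_le.2 (card_le_card inter_subset_right)
        rw [one_mul]
        exact h8 _ (by linarith))
  have h6 : w ∅ / rate t J.card R.card (R.card - 1) ≤ exp 1 := by
    obtain ⟨h7, h8, h9⟩ := tau_spec ht (x := 0) (by
      linarith only [hx, Nat.cast_nonneg (α := ℝ) J.card, Nat.cast_nonneg (α := ℝ) R.card])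
    rw [div_le_iff₀ (ht.trans_le (hA _)), h2, Lam, mul_zero, zero_add]
    refine le_trans ?_ (mul_le_mul_of_nonneg_left (hA _) (exp_pos _).le)
    rw [← exp_log h7, ← exp_log ht, ← exp_add, exp_log ht]
    exact exp_le_exp.2 (by linarith only [h8, h9])
  have h7 : 0 ≤ ∏ i ∈ range R.card, rate t J.card R.card i :=
    prod_nonneg fun i _ => ht.le.trans (hA i)
  simp only [mul_one] at h4
  calc _ = ∑ F ∈ fstrs W R, FStr.wt W 1 0 (fun u => if u ∈ J then 2 else 1) F := by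
        refine sum_congr rfl fun F _ => ?_
        simp only [FStr.wt, add_zero, one_pow, one_mul, ite_pow]
        rw [prod_ite_mem, inter_eq_right.2 (hJ.trans hR)]
        rfl
    _ ≤ _ := h4
    _ ≤ (W.card - R.card).factorial * t⁻¹ ^ W.card * (R.card.factorial * exp (exp 1) *
        (∏ i ∈ range R.card, rate t J.card R.card i) * exp (R.card + J.card)) := by
        clear * - α W R t w J h5 hs h6 h7 ht
        refine mul_le_mul_of_nonneg_left (h5.trans ?_) (by positivity)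
        rw [hs]
        gcongr
    _ = _ := by
        rw [FreeT, prod_mul_distrib, prod_const, card_range, exp_add, exp_one_pow, exp_one_pow]
        ring

theorem bout_two {W R I : Finset α} (hR : R ⊆ W) (hI : I ⊆ R) {t y : ℝ} (ht : 0 < t) (hy : 0 ≤ y)
    (hx : y + (R \ I).card < xc t) :
    ∑ F ∈ fstrs W R, (1 + y) ^ nsrc W (FStr.arc F) *
        (if ∀ v ∈ R, ∀ u ∈ I, u ∉ FStr.feed W F v then 1 else 0) ≤
      (W.card - R.card).factorial * ((R \ I).card.factorial * (Lam t (y + (R \ I).card) ^ I.card *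
        (t⁻¹ ^ W.card * VolT t y 0 (R \ I).card))) := by
  have hν : ∀ u, (0 : ℝ) ≤ if u ∈ I then 0 else 1 := fun u => by split_ifs <;> norm_num
  have hs : ∀ S ⊆ R \ I, ∑ u ∈ S, (if u ∈ I then 0 else 1 : ℝ) = S.card := fun S hS => by
    rw [sum_congr rfl fun u hu => if_neg (mem_sdiff.1 (hS hu)).2]
    simp
  have hs' : ∑ u ∈ R, (if u ∈ I then 0 else 1 : ℝ) = (R \ I).card := by
    rw [← sum_sdiff hI, hs _ subset_rfl, sum_congr rfl fun u hu => if_pos hu]
    simp
  obtain ⟨w, hw, h1, h2, h3, h4⟩ := exists_blockGF R (κ := 1) (z := t) zero_le_one ht ht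
    hy hν (by ring) (by rwa [hs'])
  have h5 := layer_le hR zero_le_one hy hν ht w h1
    (fun φ => if ∀ v ∈ R, ∀ u ∈ I, u ∉ φ v then 1 else 0) fun _ => by split_ifs <;> norm_num
  have h6 := acys_sum_one id R.powerset ∅ (R \ I) w (rate t y (R \ I).card) fun S hS a ha haS => by
    rw [bout_rate_eq _ _ (bout_card hS ha haS), ← hs S hS]
    have := h4 S (hS.trans sdiff_subset) a (mem_sdiff.1 ha).1 haS
    rw [if_neg (mem_sdiff.1 ha).2] at this
    exact this
  have e1 : R.powerset.filter (fun o => id o = ∅) = {∅} := by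
    ext o
    simp only [mem_filter, mem_powerset, id, mem_singleton, and_iff_right_iff_imp]
    rintro rfl
    exact empty_subset _
  have e2 : R.powerset.filter (fun o => id o ⊆ R \ I) = (R \ I).powerset := by
    ext o
    simp only [mem_filter, mem_powerset, id, and_iff_right_iff_imp]
    exact fun h => h.trans sdiff_subset
  rw [e1, sum_singleton, h2, smul_eq_mul] at h6
  have h7 : ∑ φ ∈ acys id R.powerset ∅ R, (∏ v ∈ R, w (φ v)) *
      (if ∀ v ∈ R, ∀ u ∈ I, u ∉ φ v then 1 else 0) = Lam t (y + (R \ I).card) ^ I.card *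
        ((R \ I).card.factorial * VolT t y 0 (R \ I).card) := by
    have h8 := acys_unused id R.powerset hI ∅ fun φ => ∏ v ∈ R, w (φ v)
    simp only [mul_ite, mul_one, mul_zero]
    rw [← sum_filter]
    refine h8.trans ?_
    simp only [VolT, zero_mul, exp_zero]
    rw [← h6, mul_sum, e2, ← hs _ subset_rfl, ← h3 _ sdiff_subset, ← sum_pi_born I _ (fun _ => ∅) w]
    refine sum_congr rfl fun φ _ => ?_
    rw [sum_mul]
    refine sum_congr rfl fun ψ _ => ?_
    rw [← prod_sdiff hI, mul_comm]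
    congr 1
    · exact prod_congr rfl fun v hv => by rw [if_pos hv]
    · exact prod_congr rfl fun v hv => by rw [if_neg (mem_sdiff.1 hv).2]
  refine le_trans (le_of_eq (sum_congr rfl fun F hF => ?_)) (h5.trans_eq (by rw [h7]; ring))
  obtain ⟨hF, hr⟩ := (mem_filter.1 hF).2
  split_ifs with h
  · simp only [FStr.wt, one_pow, one_mul, mul_one]
    rw [prod_eq_one, mul_one]
    intro u hu
    split_ifs with huI
    · rw [card_eq_zero.2, pow_zero]
      refine filter_eq_empty_iff.2 fun x hx' hxu => ?_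
      obtain ⟨v, hv, hxv⟩ := qlay_root hF hr hx'
      exact h v hv u huI ((qlay_mem_feed hr hv).2 ⟨hu, x, hxu, hxv⟩)
    · exact one_pow _
  · rw [mul_zero, mul_zero]

theorem sumF_out (W : Finset α) {δ K Bd : ℝ} (hδ : 0 ≤ δ) (hK : 0 ≤ K)
    (h : ∀ b ≤ W.card, ∀ s ≤ b, ∃ t : ℝ, 0 < t ∧ (s : ℝ) + b < xc t ∧
      t⁻¹ ^ W.card * FreeT t s b ≤ Bd * K ^ s) :
    ∑ F ∈ univ.filter (IsF W), ∏ u ∈ FStr.rows W F, (1 + δ * 2 ^ F.outs W u) ≤
      (W.card + 1) * W.card.factorial * Bd * exp (exp 1 + W.card * δ * exp 1 * K) := by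
  have hB : 0 ≤ Bd := by
    obtain ⟨t, ht, -, h1⟩ := h 0 (Nat.zero_le _) 0 le_rfl
    simp only [FreeT, range_zero, prod_empty, mul_one, pow_zero] at h1
    exact le_trans (by positivity) h1
  rw [mul_assoc _ Bd]
  refine bout_split W _ _ fun R hR => ?_
  have hc : 0 ≤ δ * exp 1 * K := by positivity
  calc _ = ∑ J ∈ R.powerset, δ ^ J.card * ∑ F ∈ fstrs W R, ∏ u ∈ J, (2 : ℝ) ^ FStr.outs W F u := by
        simp only [mul_sum]
        rw [sum_comm]
        refine sum_congr rfl fun F hF => ?_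
        rw [(mem_filter.1 hF).2.2, prod_one_add]
        exact sum_congr rfl fun J _ => by rw [prod_mul_distrib, prod_const]
    _ ≤ ∑ J ∈ R.powerset, (δ * exp 1 * K) ^ J.card * 1 ^ (R.card - J.card) *
        ((W.card - R.card).factorial * (R.card.factorial * (Bd * exp (exp 1)))) := by
        refine sum_le_sum fun J hJ => ?_
        obtain ⟨t, ht, h1, h2⟩ := h _ (card_le_card hR) _ (card_le_card (mem_powerset.1 hJ))
        refine (mul_le_mul_of_nonneg_left ((bout_one hR (mem_powerset.1 hJ) ht h1).trans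
          (mul_le_mul_of_nonneg_left (mul_le_mul_of_nonneg_left (mul_le_mul_of_nonneg_left h2
            (by positivity)) (by positivity)) (by positivity))) (by positivity)).trans_eq ?_
        rw [mul_pow, mul_pow, one_pow]
        ring
    _ = (δ * exp 1 * K + 1) ^ R.card *
        ((W.card - R.card).factorial * (R.card.factorial * (Bd * exp (exp 1)))) := by
        rw [← sum_mul, sum_pow_mul_eq_add_pow]
    _ ≤ exp (W.card * δ * exp 1 * K) *
        ((W.card - R.card).factorial * (R.card.factorial * (Bd * exp (exp 1)))) := by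
        refine mul_le_mul_of_nonneg_right ?_ (by positivity)
        refine (pow_le_pow_left₀ (by positivity) (add_one_le_exp _) _).trans ?_
        rw [← exp_nat_mul, mul_assoc (W.card : ℝ), mul_assoc (W.card : ℝ)]
        exact exp_le_exp.2 (mul_le_mul_of_nonneg_right (Nat.cast_le.2 (card_le_card hR)) hc)
    _ = _ := by
        rw [exp_add]
        ring

theorem sumF_ends (W : Finset α) {y Y Λ Bd : ℝ} (hy : 0 ≤ y) (hY : 0 ≤ Y)
    (h : ∀ b ≤ W.card, ∃ t : ℝ, 0 < t ∧ y + b < xc t ∧ Lam t (y + b) ≤ Λ ∧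
      t⁻¹ ^ W.card * VolT t y 0 b ≤ Bd) :
    ∑ F ∈ univ.filter (IsF W), (1 + y) ^ nsrc W (FStr.arc F) * (1 + Y) ^ nsrc W (rv F.arc) ≤
      (W.card + 1) * W.card.factorial * exp (Y * Λ) * Bd := by
  have hL : ∀ {t x : ℝ}, 0 < t → 0 ≤ x → x < xc t → 0 ≤ Lam t x := fun ht h0 hx =>
    add_nonneg (mul_nonneg ht.le h0) (tau_spec ht hx).1.le
  obtain ⟨hB, hΛ⟩ : 0 ≤ Bd ∧ 0 ≤ Λ := by
    obtain ⟨t, ht, h0, h1, h2⟩ := h 0 (Nat.zero_le _)
    refine ⟨le_trans ?_ h2, (hL ht (by positivity) h0).trans h1⟩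
    simp only [VolT, Vol, zero_add, range_one, sum_singleton, Vg]
    positivity
  rw [mul_assoc _ _ Bd]
  refine bout_split W _ _ fun R hR => ?_
  calc _ = ∑ I ∈ R.powerset, Y ^ I.card * ∑ F ∈ fstrs W R, (1 + y) ^ nsrc W (FStr.arc F) *
        (if ∀ v ∈ R, ∀ u ∈ I, u ∉ FStr.feed W F v then 1 else 0) := by
        simp only [mul_sum]
        rw [sum_comm]
        refine sum_congr rfl fun F hF => ?_
        obtain ⟨hF, hr⟩ := (mem_filter.1 hF).2
        rw [hF.nsnk, hr, ← prod_const, prod_one_add, mul_sum]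
        simp only [mul_ite, mul_one, mul_zero]
        rw [← sum_filter]
        refine sum_congr ?_ fun I _ => by rw [prod_const, mul_comm]
        ext I
        simp only [mem_powerset, mem_filter, subset_iff]
        exact ⟨fun h1 => ⟨fun u hu => (h1 hu).1, fun v hv u hu => (h1 hu).2 v hv⟩,
          fun h1 u hu => ⟨h1.1 hu, fun v hv => h1.2 v hv u hu⟩⟩
    _ ≤ ∑ I ∈ R.powerset, (R.card - I.card).factorial *
        ((Y * Λ) ^ I.card * ((W.card - R.card).factorial * Bd)) := by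
        refine sum_le_sum fun I hI => ?_
        obtain ⟨t, ht, h1, h2, h3⟩ := h (R \ I).card (card_le_card (sdiff_subset.trans hR))
        refine (mul_le_mul_of_nonneg_left ((bout_two hR (mem_powerset.1 hI) ht hy h1).trans
          (mul_le_mul_of_nonneg_left (mul_le_mul_of_nonneg_left
            ((mul_le_mul_of_nonneg_left h3 (pow_nonneg (hL ht (by positivity) h1) _)).trans
              (mul_le_mul_of_nonneg_right (pow_le_pow_left₀ (hL ht (by positivity) h1) h2 _) hB))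
            (by positivity)) (by positivity))) (by positivity)).trans_eq ?_
        rw [mul_pow, card_sdiff_of_subset (mem_powerset.1 hI)]
        ring
    _ = R.card.factorial * ((∑ k ∈ range (R.card + 1), (Y * Λ) ^ k / k.factorial) *
        ((W.card - R.card).factorial * Bd)) := by
        rw [qcrude_pow R fun k => (Y * Λ) ^ k * ((W.card - R.card).factorial * Bd), sum_mul]
        simp only [div_mul_eq_mul_div]
    _ ≤ R.card.factorial * (exp (Y * Λ) * ((W.card - R.card).factorial * Bd)) := by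
        gcongr
        exact sum_le_exp_of_nonneg (mul_nonneg hY hΛ) _
    _ = _ := by ring

end Pool.Agent.Work.MP_5391ad_co
end

-- merged part: Pool.Agent.Work.MP_5391ad_co.DUp
section
/-! Upper bounds for sums over acyclic cores.
`sumF_kappa`: `sumF_area` with `y = γ = 0`, `t = L⁻¹` from `vol_B0`, `z = t/(1 + (κ-1) t)`, so
`z⁻¹^N = L^N (1 + (κ-1)/L)^N ≤ L^N exp (2N/L)` and `N/L ≤ 4 log^2 N` (`div_log_le`, `ell_le`).
`numDag_upper`: `sum_F_eq` with `κ = 1`.
`sum_expSR`: `sum_SR_le` with `M = ⌈6 log N⌉`, `Dm = ⌈5 log N⌉ + 1` (so `δ = 2^(1 - Dm) ≤ N^(-3)`),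
`q = N^(1/3) ≥ 4`. With `X, Y, Z ≥ 0` the three terms and `C` from `free_B0`,
`X + Y + Z - 2 C = (1 - 2/q) (X/(1 - 2/q)) + (1/q)(q Y - q C) + (1/q)(q Z - q C)`, so
`exp (X + Y + Z) ≤ e^{2C} (exp (2 X) + e^{-q C} exp (q Y) + e^{-q C} exp (q Z))` (a convex
combination is at most the maximum). Use `sumF_area` (`κ = 1`, `y = 0`, `γ = 2 g Dm (M+1)`,
`vol_B0`), `sumF_exc` (`η = q g Dm N ≤ 1/20`, `N (5/6)^M ≤ 1`, `free_B0` with `s = 0`), `sumF_out`
(`exp (q g N k) ≤ 2^k ≤ 1 + δ 2^outs` for `k = outs + 1 - Dm`, `K = N`).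
`sum_gam`: group by `a = nsrc W Δ`, `b = nsrc W (rv Δ)`, both `≤ N`; the number of `Δ` is at most
`(1+y)^(-a) (1+Y)^(-b)` times `sumF_ends` with `y = a^(4/5)`, `Y = b^(4/5)`, `Λ = log N`
(`Lam t x ≤ t xc + 1 = log L`); `gam a ^ (3/2) ≤ 27^a a^(3a/4)`; `C log N a^(4/5) ≤ a + (C log N)^5`
and `c a - a log a / 20` is bounded above. -/

namespace Pool.Agent.Work.MP_5391ad_co

open Finset Real Filter
open scoped Classical

theorem dup_log {η : ℝ} (hη : 0 < η) (C : ℝ) :
    ∀ᶠ N : ℕ in atTop, C * log N ^ 5 ≤ (N : ℝ) ^ η := by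
  filter_upwards [tendsto_natCast_atTop_atTop.eventually
    ((isLittleO_log_rpow_rpow_atTop 5 hη).const_mul_left C).eventuallyLE] with N h
  rw [Real.norm_of_nonneg (by positivity : 0 ≤ (N : ℝ) ^ η), rpow_ofNat] at h
  exact (le_abs_self _).trans h

theorem dup_big : ∀ᶠ N : ℕ in atTop, (30 : ℝ) ≤ N ∧ 1 ≤ log N := by
  filter_upwards [eventually_ge_atTop 30] with N h
  have h1 : (30 : ℝ) ≤ N := by exact_mod_cast h
  exact ⟨h1, (le_log_iff_exp_le (by linarith only [h1])).2 (by linarith [exp_one_lt_three])⟩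

theorem dup_fin {η : ℝ} (hη : 0 < η) (C : ℝ) : ∀ᶠ N : ℕ in atTop, ∀ x S : ℝ, x ≤ C * log N ^ 5 →
    S ≤ (N + 1) ^ 3 * N.factorial * exp (FF N + (N : ℝ) ^ (η / 2) + x) →
    S ≤ N.factorial * exp (FF N + (N : ℝ) ^ η) := by
  filter_upwards [dup_log (half_pos hη) (C + 6), dup_log (half_pos hη) 2, dup_big]
    with N h1 h2 ⟨h3, h4⟩ x S hx hS
  have h5 : log N ≤ log N ^ 5 := le_self_pow₀ h4 (by norm_num)
  have h6 : (N : ℝ) + 1 ≤ exp (2 * log N) := by
    clear * - N h3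
    rw [two_mul, exp_add, exp_log (by linarith only [h3])]
    linarith only [h3, mul_nonneg_of_nonpos_of_nonpos (Mathlib.Tactic.Linarith.sub_nonpos_of_le (Mathlib.Tactic.Linarith.natCast_nonneg ℝ N)) (Mathlib.Tactic.Linarith.sub_nonpos_of_le h3)]
  have h7 : (N : ℝ) ^ η = (N : ℝ) ^ (η / 2) * (N : ℝ) ^ (η / 2) := by
    rw [← rpow_add (by linarith only [h3]), add_halves]
  calc S ≤ exp (2 * log N) ^ 3 * N.factorial * exp (FF N + (N : ℝ) ^ (η / 2) + x) :=
        hS.trans (by gcongr)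
    _ = N.factorial * exp (FF N + (N : ℝ) ^ (η / 2) + x + 3 * (2 * log N)) := by
        rw [exp_add _ (3 * _), ← exp_nat_mul, Nat.cast_ofNat]
        ring
    _ ≤ _ := by
        clear * - N η x C h1 h2 h4 hx h5 h7
        gcongr N.factorial * exp ?_
        linarith only [h1, h2, h4, hx, h5, h7, mul_nonneg_of_nonpos_of_nonpos (Mathlib.Tactic.Linarith.sub_nonpos_of_le h2) (Mathlib.Tactic.Linarith.sub_nonpos_of_le h2), mul_nonneg_of_nonpos_of_nonpos (Mathlib.Tactic.Linarith.sub_nonpos_of_le h2) (Mathlib.Tactic.Linarith.sub_nonpos_of_le h4), mul_nonneg_of_nonpos_of_nonpos (Mathlib.Tactic.Linarith.sub_nonpos_of_le h2) (Mathlib.Tactic.Linarith.sub_nonpos_of_le h5), mul_nonneg_of_nonpos_of_nonpos (Mathlib.Tactic.Linarith.sub_nonpos_of_le h4) (Mathlib.Tactic.Linarith.sub_nonpos_of_le h4), mul_nonneg_of_nonpos_of_nonpos (Mathlib.Tactic.Linarith.sub_nonpos_of_le h4) (Mathlib.Tactic.Linarith.sub_nonpos_of_le h5), mul_nonneg_of_nonpos_of_nonpos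 (Mathlib.Tactic.Linarith.sub_nonpos_of_le h5) (Mathlib.Tactic.Linarith.sub_nonpos_of_le h5)]

theorem dup_cube (N : ℕ) {x y : ℝ} (h : x ≤ y) (h0 : 0 ≤ x) :
    (N + 1) * N.factorial * x ≤ (N + 1) ^ 3 * N.factorial * y := by
  gcongr
  exact le_self_pow₀ (by simp) (by norm_num)

theorem dup_one {N L : ℝ} (h : ell N / 4 ≤ L) : 1 < L := by
  linarith only [h, le_ell N, quadratic_le_exp_of_nonneg (zero_le_two (α := ℝ))]

theorem dup_dag {α : Type} [Fintype α] (W : Finset α) {f : (α → α → Prop) → ℝ}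
    (h : ∀ Δ, 0 ≤ f Δ) : ∑ Δ ∈ dags W, f Δ ≤ ∑ F ∈ univ.filter (IsF W), f (FStr.arc F) := by
  have h1 := sum_F_eq W 1 f
  simp only [one_pow, one_mul] at h1
  exact (sum_le_sum fun Δ _ => le_mul_of_one_le_left (h Δ) (one_le_pow₀ (by norm_num))).trans h1.ge

theorem sumF_kappa {η : ℝ} (hη : 0 < η) : ∀ᶠ N : ℕ in atTop, ∀ (α : Type) [Fintype α]
    (W : Finset α), W.card = N → ∀ κ : ℝ, 0 ≤ κ → κ ≤ 3 →
    ∑ F ∈ univ.filter (IsF W), κ ^ FStr.one W F ≤ N.factorial * exp (FF N + (N : ℝ) ^ η) := by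
  obtain ⟨η', -, C, -, h⟩ := vol_B0 (half_pos hη)
  filter_upwards [h, dup_fin hη 8, dup_big] with N h1 h2 ⟨h3, h4⟩ α _ W hW κ k0 k1
  refine h2 (8 * log N ^ 2) _ (by gcongr; norm_num) ?_
  have h5 := sumF_area W (y := 0) (γ := 0) (Bd := exp (FF N + (N : ℝ) ^ (η / 2) + 8 * log N ^ 2)) k0
    le_rfl fun b hb => by
      obtain ⟨L, l1, l2, l3, l4⟩ := h1 0 0 b (hW ▸ hb) le_rfl (by positivity) le_rfl (by positivity)
      have l5 := dup_one l1
      have l6 : 0 < L + κ - 1 := by linarith only [k0, l5]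
      refine ⟨L⁻¹, (L + κ - 1)⁻¹, by positivity, by positivity, by field_simp; ring, l3, ?_⟩
      rcases le_total (VolT L⁻¹ 0 0 b) 0 with l7 | l7
      · exact (mul_nonpos_of_nonneg_of_nonpos (by positivity) l7).trans (exp_pos _).le
      have l8 : L + κ - 1 ≤ exp (2 / L) * L := by
        clear * - L l5 κ k1
        have := mul_le_mul_of_nonneg_right (add_one_le_exp (2 / L)) (by linarith : 0 ≤ L)
        rw [add_mul, div_mul_cancel₀ _ (by linarith only [l5])] at this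
        linarith only [k1, this]
      have l9 : N * (2 / L) ≤ 8 * log N ^ 2 := by
        clear * - N h3 L l5 l1
        have e0 : 1 ≤ ell N := (one_le_exp zero_le_two).trans (le_ell _)
        have e1 : log (ell N) ^ 2 ≤ log N ^ 2 :=
          pow_le_pow_left₀ (log_nonneg e0) (log_le_log (by linarith only [e0]) (ell_le h3)) 2
        rw [← mul_div_assoc, div_le_iff₀ (by linarith)]
        linarith only [h3, e1, e0, l1, (div_log_le h3).2, mul_le_mul_of_nonneg_left e1 (by linarith : 0 ≤ ell N),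
          mul_le_mul_of_nonneg_right l1 (sq_nonneg (log N)), sq_nonneg (log ↑N)]
      rw [mul_zero, zero_mul, add_zero] at l4
      rw [inv_inv, hW, exp_add _ (8 * _), mul_comm (exp _)]
      calc _ ≤ (exp (2 / L) * L) ^ N * VolT L⁻¹ 0 0 b := by gcongr
        _ = exp (N * (2 / L)) * (L ^ N * VolT L⁻¹ 0 0 b) := by rw [mul_pow, exp_nat_mul, mul_assoc]
        _ ≤ _ := by gcongr
  simp only [add_zero, one_pow, mul_one, zero_mul, exp_zero, hW] at h5
  exact h5.trans (dup_cube N le_rfl (exp_pos _).le)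

theorem numDag_upper {η : ℝ} (hη : 0 < η) : ∀ᶠ N : ℕ in atTop,
    (numDag N : ℝ) ≤ N.factorial * exp (FF N + (N : ℝ) ^ η) := by
  filter_upwards [sumF_kappa hη] with N h
  have h1 := (dup_dag (univ : Finset (Fin N)) (f := fun _ => 1) fun _ => zero_le_one).trans
    (by simpa only [one_pow] using h _ univ (by simp) 1 zero_le_one (by norm_num))
  simpa [numDag] using h1

theorem dup_split {X Y Z C q : ℝ} (hX : 0 ≤ X) (hq : 4 ≤ q) : exp (X + Y + Z) ≤
    exp (2 * C) * (exp (2 * X) + exp (-(C * q)) * exp (q * Y) + exp (-(C * q)) * exp (q * Z)) := by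
  have key : ∀ m, 2 * X ≤ m → -(C * q) + q * Y ≤ m → -(C * q) + q * Z ≤ m →
      exp (X + Y + Z) ≤ exp (2 * C) * exp m := fun m h1 h2 h3 => by
    rw [← exp_add, exp_le_exp]
    refine le_of_mul_le_mul_left ?_ (by linarith only [hq] : 0 < q)
    linarith only [h2, h3, h1, hq, hX, mul_le_mul_of_nonneg_left h1 (by linarith : 0 ≤ q),
      mul_le_mul_of_nonneg_right hq (by linarith : 0 ≤ m)]
  rw [← exp_add, ← exp_add]
  have h1 := exp_pos (2 * X)
  have h2 := exp_pos (-(C * q) + q * Y)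
  have h3 := exp_pos (-(C * q) + q * Z)
  refine (key (max (2 * X) (max (-(C * q) + q * Y) (-(C * q) + q * Z))) (le_max_left _ _)
    (le_max_of_le_right (le_max_left _ _)) (le_max_of_le_right (le_max_right _ _))).trans ?_
  gcongr
  simp only [max_def]
  split_ifs <;> linarith only [h1, h2, h3]

theorem dup_two {c : ℝ} (hc : c ≤ 1 / 20) (o M : ℕ) :
    exp (c * (o + 1 - (M + 1) : ℕ)) ≤ 1 + (1 / 2) ^ M * 2 ^ o := by
  rw [mul_comm, exp_nat_mul, Nat.add_sub_add_right]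
  refine (pow_le_pow_left₀ (exp_pos _).le ((le_log_iff_exp_le two_pos).1
    (by linarith only [hc, log_two_gt_d9])) _).trans ?_
  rcases le_total o M with h | h
  · rw [Nat.sub_eq_zero_of_le h, pow_zero]
    exact le_add_of_nonneg_right (by positivity)
  · rw [pow_sub₀ _ two_ne_zero h, one_div, inv_pow, mul_comm]
    linarith only []

theorem sum_expSR {η : ℝ} (hη : 0 < η) : ∃ η' : ℝ, 0 < η' ∧ ∀ᶠ N : ℕ in atTop,
    ∀ (α : Type) [Fintype α] (W : Finset α), W.card = N → ∀ g : ℝ, 0 ≤ g →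
    g ≤ (N : ℝ) ^ (-(3 / 2) + η') →
    ∑ Δ ∈ dags W, exp (g * SR W Δ) ≤ N.factorial * exp (FF N + (N : ℝ) ^ η) := by
  obtain ⟨η₁, hη₁, C, -, h⟩ := vol_B0 (half_pos hη)
  obtain ⟨C₀, hC₀, h'⟩ := free_B0
  refine ⟨min (η₁ / 2) (1 / 12), by positivity, ?_⟩
  filter_upwards [h, h', dup_fin hη (2 * C₀ + 9), dup_big, dup_log (half_pos hη₁) 128,
    dup_log (η := 1 / 12) (by norm_num) 160, dup_log (η := 1 / 3) (by norm_num) 4]
    with N h1 h2 h3 ⟨h4, h5⟩ h6 h7 h8 α _ W hW g g0 g1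
  have n0 : (0 : ℝ) < N := by linarith only [h4]
  have p5 : 1 ≤ log N ^ 5 := one_le_pow₀ h5
  obtain ⟨M, m1, m2⟩ : ∃ M : ℕ, 6 * log N ≤ M ∧ (M : ℝ) + 1 ≤ 8 * log N :=
    ⟨_, Nat.le_ceil _, by linarith only [h5, Nat.ceil_lt_add_one (by positivity : 0 ≤ 6 * log N)]⟩
  obtain ⟨q, hq⟩ : ∃ q, q = (N : ℝ) ^ (1 / 3 : ℝ) := ⟨_, rfl⟩
  rw [← hq] at h2 h8
  have q0 : 4 ≤ q := by linarith only [p5, h8]
  have m3 : ∀ r : ℝ, 0 ≤ r → r ≤ 5 / 6 → N * r ^ M ≤ 1 := fun r r0 r1 => by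
    clear * - r M r0 r1 N m1 n0
    have := pow_le_pow_left₀ r0 (by linarith only [r1, add_one_le_exp (-1 / 6 : ℝ)] : r ≤ exp (-1 / 6)) M
    rw [← exp_nat_mul] at this
    refine (mul_le_mul_of_nonneg_left (this.trans (exp_le_exp.2 (by linarith only [m1] : _ ≤ -log N)))
      n0.le).trans_eq ?_
    rw [exp_neg, exp_log n0, mul_inv_cancel₀ n0.ne']
  have g2 : 2 * g * (M + 1) * (M + 1) ≤ (N : ℝ) ^ (-(3 / 2) + η₁) := by
    clear * - g N η₁ g1 h4 h5 M n0 m2 g0 h6
    have e1 := g1.trans (rpow_le_rpow_of_exponent_le (by linarith only [h4])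
      (add_le_add_right (min_le_left _ _) _))
    have e2 : log N ^ 2 ≤ log N ^ 5 := pow_le_pow_right₀ h5 (by norm_num)
    rw [← add_halves η₁, ← add_assoc, rpow_add n0]
    calc _ = g * (2 * (M + 1) ^ 2) := by ring
      _ ≤ g * (2 * (8 * log N) ^ 2) := by gcongr
      _ ≤ _ := mul_le_mul e1 (by linarith only [h6, e2]) (by positivity) (by positivity)
  have g3 : q * g * N * (M + 1) ≤ 1 / 20 := by
    clear * - g N η₁ g1 h4 h5 q hq n0 M q0 h7 m2
    have e1 := g1.trans (rpow_le_rpow_of_exponent_le (by linarith only [h4])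
      (add_le_add_right (min_le_right _ _) _))
    have e2 : log N ≤ log N ^ 5 := le_self_pow₀ h5 (by norm_num)
    have e3 : q * (N : ℝ) ^ (-(3 / 2) + 1 / 12 : ℝ) * N * (N : ℝ) ^ (1 / 12 : ℝ) = 1 := by
      rw [hq, ← rpow_add n0, ← rpow_add_one n0.ne', ← rpow_add n0]
      norm_num
    calc _ ≤ q * (N : ℝ) ^ (-(3 / 2) + 1 / 12 : ℝ) * N * ((N : ℝ) ^ (1 / 12 : ℝ) / 20) := by
          gcongr
          linarith only [h7, m2, e2]
      _ = _ := by rw [← mul_div_assoc, e3]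
  have s1 := sumF_area W (κ := 1) (y := 0) (γ := 2 * g * (M + 1) * (M + 1))
    (Bd := exp (FF N + (N : ℝ) ^ (η / 2))) zero_le_one le_rfl fun b hb => by
      clear * - N b g M η C α W h1 hb hW h4 g0 g2
      obtain ⟨L, l1, -, l3, l4⟩ := h1 0 _ b (hW ▸ hb) le_rfl (by positivity) (by positivity) g2
      have l5 := inv_pos.2 (zero_lt_one.trans (dup_one l1))
      exact ⟨L⁻¹, L⁻¹, l5, l5, by ring, l3, by simpa [hW] using l4⟩
  have s2 := sumF_exc W M (Bd := exp (FF N + C₀ * q)) (by positivity) g3 fun b hb => by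
      obtain ⟨L, l1, -, l3, l4⟩ := h2 b (hW ▸ hb) 0 N.zero_le
      exact ⟨L⁻¹, inv_pos.2 (zero_lt_one.trans (dup_one l1)), by simpa using l3,
        by simpa [hW] using l4⟩
  have s3 := sumF_out W (δ := (1 / 2) ^ M) (Bd := exp (FF N + C₀ * q)) (by positivity) n0.le
    fun b hb s hs => by
      obtain ⟨L, l1, -, l3, l4⟩ := h2 b (hW ▸ hb) s (hs.trans (hW ▸ hb))
      exact ⟨L⁻¹, inv_pos.2 (zero_lt_one.trans (dup_one l1)), l3, by rwa [inv_inv, hW]⟩
  have s4 : (N : ℝ) * (1 / 2) ^ M * exp 1 * N ≤ 3 := by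
    clear * - N M m3 h4
    have e1 := m3 (5 / 6) (by norm_num) le_rfl
    have e2 := m3 (3 / 5) (by norm_num) (by norm_num)
    calc _ = N * (5 / 6 : ℝ) ^ M * (N * (3 / 5) ^ M) * exp 1 := by
          rw [show (1 / 2 : ℝ) = 5 / 6 * (3 / 5) by norm_num, mul_pow]
          ring
      _ ≤ 1 * 1 * 3 := by gcongr; exact exp_one_lt_three.le
      _ = 3 := by norm_num
  have s5 := (sum_SR_le W g0 (M + 1) M).trans (sum_le_sum (g := fun F => exp (2 * C₀) *
      (1 ^ FStr.one W F * (1 + 0) ^ nsrc W F.arc * exp (2 * g * (M + 1) * (M + 1) * F.area W) +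
        exp (-(C₀ * q)) * exp (q * g * N * (M + 1) * FStr.exc W M F) +
        exp (-(C₀ * q)) * ∏ u ∈ FStr.rows W F, (1 + (1 / 2) ^ M * 2 ^ F.outs W u))) fun F _ => by
    clear * - g M α W F C₀ q N g0 q0 hW h4 g3 C
    refine (dup_split (C := C₀) (by positivity) q0).trans ?_
    rw [hW, add_zero, one_pow, one_pow, one_mul, one_mul, Nat.cast_succ]
    gcongr _ * (exp ?_ + _ * exp ?_ + _ * ?_)
    · exact le_of_eq (by ring)
    · exact le_of_eq (by ring)
    · rw [Nat.cast_sum, ← mul_assoc, ← mul_assoc, mul_sum, exp_sum]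
      exact prod_le_prod (fun _ _ => (exp_pos _).le) fun u _ => dup_two
        ((le_mul_of_one_le_right (by positivity) (by simp)).trans g3) _ _)
  rw [← mul_sum, sum_add_distrib, sum_add_distrib, ← mul_sum, ← mul_sum] at s5
  rw [hW] at s1 s2 s3
  have s6 : ∀ x : ℝ, x ≤ 7 → exp (-(C₀ * q)) * ((N + 1) * N.factorial * exp (FF N + C₀ * q) * exp x) ≤
      (N + 1) * N.factorial * exp (FF N + (N : ℝ) ^ (η / 2) + 7) := fun x hx => by
    clear * - C₀ q N x η hx h4
    rw [mul_assoc, mul_left_comm, ← exp_add, ← exp_add]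
    gcongr _ * exp ?_
    linarith only [hx, h4, (by positivity : 0 ≤ (N : ℝ) ^ (η / 2))]
  have s7 := (mul_le_mul_of_nonneg_left s2 (exp_pos _).le).trans
    (s6 _ (by clear * - N M m3 s6; linarith only [m3, exp_one_lt_three, m3 (5 / 6) (by norm_num) le_rfl]))
  have s8 := (mul_le_mul_of_nonneg_left s3 (exp_pos _).le).trans
    (s6 _ (by clear * - N M s4 s6; linarith only [s4, exp_one_lt_three]))
  have s9 := s1.trans (mul_le_mul_of_nonneg_left (exp_le_exp.2
    (le_add_of_nonneg_right (by norm_num : (0 : ℝ) ≤ 7))) (by positivity))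
  refine h3 (7 + 2 * C₀ + 2) _ (by clear * - C₀ N p5 hC₀ h3 s5 s7 s8 s9 η; linarith only [p5, hC₀, mul_nonneg_of_nonpos_of_nonpos (Mathlib.Tactic.Linarith.sub_nonpos_of_le hC₀) (Mathlib.Tactic.Linarith.sub_nonpos_of_le p5)]) (s5.trans ((mul_le_mul_of_nonneg_left
    (add_le_add (add_le_add s9 s7) s8) (exp_pos _).le).trans (le_trans (le_of_eq ?_) (dup_cube N
      (x := exp (FF N + (N : ℝ) ^ (η / 2) + 7) * exp (2 * C₀) * 3) ?_ (by positivity)))))
  · ring
  · rw [← add_assoc, ← add_assoc, exp_add _ 2, exp_add _ (2 * C₀)]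
    gcongr
    linarith only [add_one_le_exp (2 : ℝ)]

theorem dup_nsrc {α : Type} (W : Finset α) (Δ : α → α → Prop) : nsrc W Δ ≤ W.card :=
  card_filter_le _ _

theorem dup_gam (a : ℕ) {Λ : ℝ} (hΛ : 0 ≤ Λ) : gam a ^ (3 / 2 : ℝ) ≤
    exp (Λ ^ 5 + 4 * exp 80 - (a : ℝ) ^ (4 / 5 : ℝ) * Λ) * (1 + (a : ℝ) ^ (4 / 5 : ℝ)) ^ a := by
  rcases a.eq_zero_or_pos with rfl | ha
  · simpa [gam] using (by positivity : 0 ≤ Λ ^ 5 + 4 * exp 80)
  have a0 : (0 : ℝ) < a := Nat.cast_pos.2 ha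
  have h1 : log a.factorial ≤ a * log a := by
    rw [← log_pow]
    exact log_le_log (by positivity) (by exact_mod_cast a.factorial_le_pow)
  have h2 : 4 / 5 * log a ≤ log (1 + (a : ℝ) ^ (4 / 5 : ℝ)) := by
    rw [← log_rpow a0]
    exact log_le_log (by positivity) (by linarith only [])
  have h3 : (a : ℝ) ^ (4 / 5 : ℝ) * Λ ≤ Λ ^ 5 + a := by
    obtain ⟨r, r0, r1, r2⟩ : ∃ r : ℝ, 0 ≤ r ∧ (a : ℝ) ^ (4 / 5 : ℝ) = r ^ 4 ∧ (a : ℝ) = r ^ 5 :=
      ⟨(a : ℝ) ^ (1 / 5 : ℝ), by positivity, by rw [← rpow_natCast, ← rpow_mul a0.le]; norm_num,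
        by rw [← rpow_natCast, ← rpow_mul a0.le]; norm_num⟩
    rw [r1, r2]
    rcases le_total r Λ with h | h
    · calc r ^ 4 * Λ ≤ Λ ^ 4 * Λ := by gcongr
        _ ≤ _ := by rw [← pow_succ]; exact le_add_of_nonneg_right (by positivity)
    · calc r ^ 4 * Λ ≤ r ^ 4 * r := by gcongr
        _ ≤ _ := by rw [← pow_succ]; exact le_add_of_nonneg_left (by positivity)
  have h4 : 4 * (a : ℝ) ≤ 4 * exp 80 + a * log a / 20 := by
    rcases le_total 80 (log a) with h | h
    · linarith only [h, exp_pos 80, mul_nonneg_of_nonpos_of_nonpos (Mathlib.Tactic.Linarith.sub_nonpos_of_le (Mathlib.Tactic.Linarith.natCast_nonneg ℝ a)) (Mathlib.Tactic.Linarith.sub_nonpos_of_le h)]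
    · linarith only [a0, h, (log_le_iff_le_exp a0).1 h, log_natCast_nonneg a, mul_nonneg_of_nonpos_of_nonpos (Mathlib.Tactic.Linarith.sub_nonpos_of_le (Mathlib.Tactic.Linarith.natCast_nonneg ℝ a)) (Mathlib.Tactic.Linarith.sub_nonpos_of_le (log_natCast_nonneg a))]
  have h5 : log 3 ≤ 2 := by linarith only [log_le_sub_one_of_pos (by norm_num : (0 : ℝ) < 3)]
  have g0 : 0 < gam a := by unfold gam; positivity
  rw [← log_le_log_iff (by positivity) (by positivity), log_rpow g0, gam,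
    log_mul (by positivity) (by positivity), log_mul (by positivity) (by positivity), log_pow,
    log_pow, log_sqrt (by positivity), log_exp]
  clear * - a Λ h1 h3 h4 h2 h5
  linarith only [h1, h3, h4, h2, h5, mul_nonneg_of_nonpos_of_nonpos (Mathlib.Tactic.Linarith.sub_nonpos_of_le (Mathlib.Tactic.Linarith.natCast_nonneg ℝ a)) (Mathlib.Tactic.Linarith.sub_nonpos_of_le h2), mul_nonneg_of_nonpos_of_nonpos (Mathlib.Tactic.Linarith.sub_nonpos_of_le (Mathlib.Tactic.Linarith.natCast_nonneg ℝ a)) (Mathlib.Tactic.Linarith.sub_nonpos_of_le h5)]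

theorem sum_gam {η : ℝ} (hη : 0 < η) : ∀ᶠ N : ℕ in atTop, ∀ (α : Type) [Fintype α]
    (W : Finset α), W.card = N →
    ∑ Δ ∈ dags W, (gam (nsrc W Δ) * gam (nsrc W (rv Δ))) ^ (3 / 2 : ℝ) ≤
      N.factorial * exp (FF N + (N : ℝ) ^ η) := by
  obtain ⟨η', -, C, hC, h⟩ := vol_B0 (half_pos hη)
  filter_upwards [h, dup_fin hη (C ^ 5 + 1 + 8 * exp 80), dup_big] with N h1 h2 ⟨h3, h4⟩ α _ W hW
  have g0 : ∀ a, 0 ≤ gam a := fun a => by unfold gam; positivity
  have p5 : 1 ≤ log N ^ 5 := one_le_pow₀ h4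
  obtain ⟨y, hy⟩ : ∃ y : ℕ → ℝ, ∀ a, y a = (a : ℝ) ^ (4 / 5 : ℝ) := ⟨_, fun _ => rfl⟩
  have y0 : ∀ a, 0 ≤ y a := fun a => by rw [hy]; positivity
  have n0 : ∀ Δ, nsrc W Δ ∈ range (N + 1) := fun Δ =>
    mem_range.2 (Nat.lt_succ_of_le (hW ▸ dup_nsrc W Δ))
  refine h2 ((C * log N) ^ 5 + 4 * exp 80 + (log N ^ 5 + 4 * exp 80)) _
    (by linarith only [p5, exp_pos 80, mul_nonneg_of_nonpos_of_nonpos (Mathlib.Tactic.Linarith.sub_nonpos_of_le p5) (le_of_lt (Mathlib.Tactic.Linarith.sub_neg_of_lt (exp_pos (80 : ℝ))))]) ((dup_dag W fun Δ => rpow_nonneg (mul_nonneg (g0 _) (g0 _)) _).trans ?_)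
  calc _ ≤ ∑ F ∈ univ.filter (IsF W), ∑ p ∈ range (N + 1) ×ˢ range (N + 1),
        exp ((C * log N) ^ 5 + 4 * exp 80 - y p.1 * (C * log N)) *
          exp (log N ^ 5 + 4 * exp 80 - y p.2 * log N) *
          ((1 + y p.1) ^ nsrc W (FStr.arc F) * (1 + y p.2) ^ nsrc W (rv F.arc)) := by
        refine sum_le_sum fun F _ => le_trans ?_ (single_le_sum (fun p _ => ?_)
          (mk_mem_product (n0 F.arc) (n0 (rv F.arc))))
        · rw [mul_rpow (g0 _) (g0 _), mul_mul_mul_comm, hy, hy]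
          exact mul_le_mul (dup_gam _ (by positivity)) (dup_gam _ (by positivity))
            (rpow_nonneg (g0 _) _) (by positivity)
        · have := y0 p.1
          have := y0 p.2
          positivity
    _ ≤ ∑ _p ∈ range (N + 1) ×ˢ range (N + 1), (N + 1) * N.factorial * exp (FF N + (N : ℝ) ^ (η / 2) +
        ((C * log N) ^ 5 + 4 * exp 80 + (log N ^ 5 + 4 * exp 80))) := by
        clear * - α W N C y η y0 h1 hW hy η' h3
        rw [sum_comm]
        refine sum_le_sum fun p hp => ?_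
        have s1 := sumF_ends W (Λ := log N) (Bd := exp (FF N + (N : ℝ) ^ (η / 2) + C * y p.1 * log N))
          (y0 p.1) (y0 p.2) fun b hb => by
            obtain ⟨L, l1, l2, l3, l4⟩ := h1 (y p.1) 0 b (hW ▸ hb) (y0 _) (by
              rw [hy]
              gcongr
              exact Nat.le_of_lt_succ (mem_range.1 (mem_product.1 hp).1)) le_rfl (by positivity)
            have l5 := zero_lt_one.trans (dup_one l1)
            have l6 := inv_pos.2 l5
            refine ⟨L⁻¹, l6, l3, ?_, by rwa [inv_inv, hW]⟩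
            have l7 := alam_xc l6
            rw [log_inv] at l7
            rw [Lam]
            linarith only [l7, l6, l3, l5, l2, (tau_spec l6 l3).2.1, mul_lt_mul_of_pos_left l3 l6, log_le_log l5 l2]
        rw [← mul_sum]
        refine (mul_le_mul_of_nonneg_left s1 (by positivity)).trans_eq ?_
        rw [hW, mul_assoc _ (exp _) (exp _), mul_left_comm, ← exp_add, ← exp_add, ← exp_add]
        congr 2
        ring
    _ = _ := by
        rw [sum_const, card_product, card_range, nsmul_eq_mul]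
        push_cast
        ring

end Pool.Agent.Work.MP_5391ad_co
end

-- merged part: Pool.Agent.Work.MP_5391ad_co.DLow
section
/-! The lower bound for the number of acyclic cores. `L = ell N`, `t = L⁻¹`,
`η1 = min (η/2) (1/40)`, `b = ⌊xc t - L^η1⌋`, `u = xc t - b ∈ [L^η1, L^η1 + 1)`,
`θ = u/(2 L log L)`, `L' = L e^{-θ}` (so `t e^θ = L'⁻¹`), `u' = xc L'⁻¹ - b`. Since
`(L (log L - 1))' = log L`: `u/2 ≤ u' ≤ u/2 + 1`. `hL L - hL L' ≤ (L - L')(log^2 L - π^2/6) ≤ θ N`
(`hasDerivAt_hL`, `ell_spec`), `κ (L^(1/3) - L'^(1/3)) ≤ 1`, and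
`(9/20) u log L ≤ θ N ≤ u log L / 2` eventually. By `vol_up` at `(L', u')` (`y = γ = 0`) and `vol_low`
at `(L, u)`, both with exponent `η1/2`, the ratio of the volumes is at most
`exp (θ N - u log L / 5) ≤ exp (3 θ N/5)`. With `M = ⌈9 N/10⌉` apply `sumF_lower` with
`c = exp (-(u N/(L (log L - 1))) - 3)/((N+1)^3 L)` (`giant_lower`; `k ≥ N - M ≥ 1`), and
`u N/(L (log L - 1)) ≤ 2 u log L`. Finally `N log L - hL L - κ L^(1/3) = FF N`.
`numDag_lower`: `numF_sq_le`, `sumF_kappa` with `κ = 3`, `card_dags`. -/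

namespace Pool.Agent.Work.MP_5391ad_co

open Finset Real Filter
open scoped Classical

theorem dlow_shift {L l u θ : ℝ} (hL : 0 < L) (h0 : 0 ≤ θ) (h1 : θ ≤ 1 / 10) (hl : 1 ≤ l)
    (h : θ * (2 * L * l) = u) :
    9 / 20 * u ≤ L * (l - 1) - L * exp (-θ) * (l - θ - 1) ∧
      L * (l - 1) - L * exp (-θ) * (l - θ - 1) ≤ u / 2 := by
  have e1 : 1 - θ ≤ exp (-θ) := by linarith only [add_one_le_exp (-θ)]
  have e2 : exp (-θ) ≤ 1 := exp_le_one_iff.2 (by linarith)
  have e3 : exp (-θ) * (θ + 1) ≤ 1 := by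
    have := mul_le_mul_of_nonneg_left (add_one_le_exp θ) (exp_pos (-θ)).le
    rwa [← exp_add, neg_add_cancel, exp_zero] at this
  generalize exp (-θ) = e at e1 e2 e3
  have a1 : 9 / 10 * (θ * l) ≤ l - 1 - e * (l - θ - 1) := by
    clear * - θ l e hl e3 h0 h1 e1
    linarith only [hl, e3, h0, h1, e1, mul_nonneg (sub_nonneg.2 hl) (sub_nonneg.2 e3),
      mul_nonneg (mul_nonneg h0 (zero_le_one.trans hl)) (show 0 ≤ e - 9 / 10 by linarith)]
  have a2 : l - 1 - e * (l - θ - 1) ≤ θ * l := by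
    clear * - l e θ e1 e3 hl e2 h0
    linarith only [e1, e3, hl, mul_nonneg (sub_nonneg.2 hl) (sub_nonneg.2 e1), mul_nonneg h0 (sub_nonneg.2 e2)]
  constructor
  · clear * - u L l e θ h a1 hL
    linarith only [h, a1, hL, mul_le_mul_of_nonneg_left a1 hL.le]
  · clear * - L l e θ u h a2 hL
    linarith only [h, a2, hL, mul_le_mul_of_nonneg_left a2 hL.le]

theorem dlow_log (K : ℝ) {a : ℝ} (ha : 0 < a) : ∀ᶠ L : ℝ in atTop, K * log L ≤ L ^ a := by
  filter_upwards [(isLittleO_log_rpow_atTop ha).const_mul_left K |>.eventuallyLE,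
    eventually_ge_atTop 0] with L h1 h2
  rw [Real.norm_eq_abs, Real.norm_of_nonneg (rpow_nonneg h2 _)] at h1
  exact (le_abs_self _).trans h1

theorem dlow_half (x : ℝ) : exp (x - 1) ≤ exp x / 2 := by
  rw [exp_sub]
  exact div_le_div_of_nonneg_left (exp_pos _).le two_pos (by linarith [add_one_le_exp (1 : ℝ)])

/-- the comparison of the two volumes -/
theorem dlow_ratio {n m L u a C1 C2 V : ℝ} {b : ℕ} (hn : 30 ≤ n) (hE : L = ell n) (ha : 0 ≤ a)
    (hm : 9 / 10 * n ≤ m) (h1 : 0 ≤ C1) (h2 : 0 ≤ C2)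
    (hl : 10 * (kappa ^ 2 + C1 + C2 + 4) ≤ log L) (hu : log L ≤ u) (hu1 : L ^ a ≤ u)
    (hu2 : u ≤ exp (1 + log L / 10)) (hb : b + u = xc L⁻¹)
    (hV : exp (-hL L - kappa * L ^ (1 / 3 : ℝ) + u / 2 * log L - C2 * u - L ^ a) ≤ V)
    (hup : ∀ L' u' : ℝ, exp (log L - 1) ≤ L' → 1 ≤ u' → u' ≤ L' → b + u' = xc L'⁻¹ →
      VolT L'⁻¹ 0 0 b ≤ exp (-hL L' - kappa * L' ^ (1 / 3 : ℝ) +
        u' / 2 * (log L' + log u') + C1 * u' + L' ^ a)) :
    ∃ θ : ℝ, 0 ≤ θ ∧ (b : ℝ) < xc (L⁻¹ * exp θ) ∧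
      exp (-(θ * m)) * VolT (L⁻¹ * exp θ) 0 0 b ≤ V / 2 := by
  have hL0 : 0 < L := hE ▸ (exp_pos 2).trans_le (le_ell n)
  have hk := sq_nonneg kappa
  have hl1 : 40 ≤ log L := by linarith only [h1, h2, hl, hk]
  have hu3 : u ≤ exp (log L - 1) := hu2.trans (exp_le_exp.2 (by linarith only [h1, h2, hl, hk]))
  have hu4 : u ≤ L := hu3.trans ((exp_le_exp.2 (by linarith only [])).trans_eq (exp_log hL0))
  obtain ⟨θ, hθ⟩ : ∃ θ, θ * (2 * L * log L) = u := ⟨_, div_mul_cancel₀ u (by positivity)⟩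
  have hp : 0 < 2 * L * log L := by positivity
  have h0 : 0 ≤ θ := le_of_mul_le_mul_right (by linarith only [h1, h2, hl, hu, hk, hθ]) hp
  have h3 : θ ≤ 1 / 10 := le_of_mul_le_mul_right
    (by linarith only [h1, h2, hl, hu, hk, hu4, hθ, hl1, hL0, mul_le_mul_of_nonneg_left hl1 hL0.le]) hp
  obtain ⟨h4, h5⟩ := dlow_shift hL0 h0 h3 (by linarith only [h1, h2, hl, hk]) hθ
  have hL1 : 0 < L * exp (-θ) := by positivity
  have e1 : log (L * exp (-θ)) = log L - θ := by
    rw [log_mul hL0.ne' (exp_pos _).ne', log_exp, sub_eq_add_neg]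
  have e2 : L⁻¹ * exp θ = (L * exp (-θ))⁻¹ := by rw [mul_inv, exp_neg, inv_inv]
  have h6 : exp (log L - 1) ≤ L * exp (-θ) :=
    (exp_le_exp.2 (by linarith only [h3, e1])).trans_eq (exp_log hL1)
  have h7 : L * exp (-θ) ≤ L := mul_le_of_le_one_right hL0.le (exp_le_one_iff.2 (by linarith only [h0]))
  rw [xc_inv hL0] at hb
  obtain ⟨u', hu'⟩ : ∃ u', b + u' = xc (L * exp (-θ))⁻¹ := ⟨_, add_sub_cancel _ _⟩
  have hu'' := hu'
  rw [xc_inv hL1, e1] at hu''
  have h8 : u / 2 ≤ u' := by linarith only [hb, h5, hu'']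
  have h9 : u' ≤ 11 / 20 * u := by clear * - u' u b L θ hb h4 hu''; linarith only [hb, h4, hu'']
  refine ⟨θ, h0, by clear * - b L θ e2 C1 C2 u u' h1 h2 hl hu hb hk h5 hu' hu'' h0; rw [e2]; linarith only [h1, h2, hl, hu, hb, hk, h5, hu', hu''], ?_⟩
  rw [e2]
  refine (mul_le_mul_of_nonneg_left (hup _ u' h6 (by clear * - u' C1 C2 L u b θ h1 h2 hl hu hb hk h5 hu'' h6 hu' hup; linarith only [h1, h2, hl, hu, hb, hk, h5, hu'']) (by clear * - u' L θ C1 C2 u b h1 h2 hl hu hb hk hu3 h4 h6 hu'' hu' hup; linarith only [h1, h2, hl, hu, hb, hk, hu3, h4, h6, hu'']) hu')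
    (exp_pos _).le).trans ?_
  rw [← exp_add]
  refine le_trans (exp_le_exp.2 ?_) ((dlow_half _).trans (div_le_div_of_nonneg_right hV two_pos.le))
  have p1 := (prof_le (L := L * exp (-θ)) hn ((one_le_exp (by clear * - L C1 C2 h1 h2 hl hk h6 hn θ; linarith)).trans h6)).2
  rw [FF_eq hn, prof_eq, prof_eq, ← hE, e1] at p1
  have p2 : (L * exp (-θ)) ^ a ≤ L ^ a := rpow_le_rpow hL1.le h7 ha
  have p3 : log u' ≤ 1 + log L / 10 :=
    (log_le_iff_le_exp (by clear * - u' C1 C2 L u b θ h1 h2 hl hu hb hk h5 hu'' hu2; linarith only [h1, h2, hl, hu, hb, hk, h5, hu''])).2 (le_trans (by clear * - u' u C1 C2 L b θ h1 h2 hl hu hb hk h4 hu'' hu2; linarith only [h1, h2, hl, hu, hb, hk, h4, hu'']) hu2)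
  have p4 : u' / 2 * (log L - θ + log u') ≤ 11 / 40 * u * (11 / 10 * log L + 1) :=
    (mul_le_mul_of_nonneg_left (show _ ≤ 11 / 10 * log L + 1 by clear * - L θ u' h0 p3; linarith only [h0, p3]) (by clear * - u' C1 C2 L u b θ h1 h2 hl hu hb hk h5 hu''; linarith only [h1, h2, hl, hu, hb, hk, h5, hu''])).trans
      (mul_le_mul_of_nonneg_right (by clear * - u' u b L θ hb h4 hu''; linarith only [hb, h4, hu'']) (by clear * - L C1 C2 h1 h2 hl hk; linarith only [h1, h2, hl, hk]))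
  have p5 : θ * n ≤ u * log L / 2 := by
    clear * - θ n hn h0 u L hθ hE
    have := mul_le_mul_of_nonneg_left (div_log_le hn).2 h0
    rw [← hE] at this
    rw [← hθ]
    linarith only [this]
  have p6 := mul_le_mul_of_nonneg_left hm h0
  have p7 := mul_le_mul_of_nonneg_left hl (show 0 ≤ u by clear * - u C1 C2 L h1 h2 hl hu hk; linarith)
  have p8 := mul_le_mul_of_nonneg_left (show u' ≤ u by clear * - u' u C1 C2 L b θ h1 h2 hl hu hb hk h4 hu''; linarith only [h1, h2, hl, hu, hb, hk, h4, hu'']) h1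
  have p9 := mul_le_mul_of_nonneg_left (show 1 ≤ u by clear * - u C1 C2 L h1 h2 hl hu hk; linarith) hk
  have p10 : 0 ≤ u * log L := mul_nonneg (by clear * - u C1 C2 L h1 h2 hl hu hk; linarith) (by clear * - L C1 C2 h1 h2 hl hk u; linarith)
  rw [e1]
  clear * - θ m L u' C1 a u C2 n h1 h2 hl hu hu1 hk p1 p2 p4 p5 p6 p7 p8 p9 p10
  linarith only [h1, h2, hl, hu, hu1, hk, p1, p2, p4, p5, p6, p7, p8, p9, p10]

theorem numF_lower {η : ℝ} (hη : 0 < η) : ∀ᶠ N : ℕ in atTop, ∀ (α : Type) [Fintype α]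
    (W : Finset α), W.card = N →
    N.factorial * exp (FF N - (N : ℝ) ^ η) ≤ (univ.filter (IsF W)).card := by
  obtain ⟨a, ha, ha1, ha2⟩ : ∃ a : ℝ, 0 < a ∧ a ≤ η / 2 ∧ a ≤ 1 / 10 :=
    ⟨min (η / 2) (1 / 10), lt_min (half_pos hη) (by norm_num), min_le_left _ _, min_le_right _ _⟩
  obtain ⟨η', -, C1, h1, hup⟩ := vol_up ha
  obtain ⟨u0, C2, -, h2, hlow⟩ := vol_low ha
  obtain ⟨L0, hup⟩ := eventually_atTop.1 hup
  have hev := hlow.and <| (tendsto_log_atTop.eventually_ge_atTop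
    (10 * (kappa ^ 2 + C1 + C2 + 4))).and <| (dlow_log 1 ha).and <|
    ((tendsto_rpow_atTop ha).eventually_ge_atTop u0).and <|
    (dlow_log (2 * (C2 + 24)) (half_pos hη)).and <|
    (tendsto_exp_atTop.comp (tendsto_atTop_add_const_right _ (-1)
      tendsto_log_atTop)).eventually_ge_atTop L0
  filter_upwards [(tendsto_ell.comp tendsto_natCast_atTop_atTop).eventually hev,
    eventually_ge_atTop 30] with N h3 hN α _ W hW
  have hn : (30 : ℝ) ≤ N := by exact_mod_cast hN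
  obtain ⟨L, hE⟩ : ∃ L, L = ell N := ⟨_, rfl⟩
  rw [Function.comp_apply, ← hE] at h3
  obtain ⟨hlow, hl, h3, h4, h5, h6⟩ := h3
  have hL0 : 0 < L := hE ▸ (exp_pos 2).trans_le (le_ell N)
  have hl1 : 40 ≤ log L := by linarith only [h1, h2, hl, sq_nonneg kappa]
  have hL1 : log L + 1 ≤ L := by linarith only [hL0, log_le_sub_one_of_pos hL0]
  have h7 : L ^ a ≤ exp (log L / 10) := by
    clear * - L a hL0 ha2 ha hl1
    rw [rpow_def_of_pos hL0, exp_le_exp]
    linarith only [ha2, ha, hl1, mul_le_mul_of_nonneg_left ha2 (show 0 ≤ log L by linarith)]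
  have h8 : 2 * exp (log L / 10) ≤ exp (1 + log L / 10) := by
    have := dlow_half (1 + log L / 10)
    rw [add_sub_cancel_left] at this
    linarith only [this]
  have h9 : exp (1 + log L / 10) ≤ L := (exp_le_exp.2 (by linarith only [ha, ha2, hl1])).trans_eq (exp_log hL0)
  have hx : 0 ≤ xc L⁻¹ - L ^ a := by
    rw [xc_inv hL0]
    linarith only [ha, ha2, h3, hl1, h7, h8, h9, hL0, exp_pos (log L / 10), mul_le_mul_of_nonneg_left hl1 hL0.le]
  obtain ⟨b, u, hb, hu1, hu2⟩ : ∃ (b : ℕ) (u : ℝ), b + u = xc L⁻¹ ∧ L ^ a ≤ u ∧ u ≤ 2 * L ^ a :=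
    ⟨⌊xc L⁻¹ - L ^ a⌋₊, _, add_sub_cancel _ _, by clear * - L a hx; linarith only [hx, Nat.floor_le hx],
      by linarith only [ha, ha2, h3, hl1, Nat.lt_floor_add_one (xc L⁻¹ - L ^ a)]⟩
  have hu : log L ≤ u := by linarith only [h3, hu1]
  have hV := hlow u b (by linarith only [h4, hu1]) (by linarith only [h7, h8, h9, hu2]) hb
  obtain ⟨θ, h10, h11, h12⟩ := dlow_ratio (m := (N - N / 10 : ℕ)) hn hE ha.le (by
      clear * - N hN α W hW h1 h2 hV hb hl hu hu1
      have : ((9 * N : ℕ) : ℝ) ≤ (10 * (N - N / 10) : ℕ) := Nat.cast_le.2 (by omega)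
      rw [Nat.cast_mul, Nat.cast_mul] at this
      push_cast at this ⊢
      linarith only [this]) h1 h2 hl hu hu1 (by linarith only [h7, h8, hu2]) hb hV fun L' u' a1 a2 a3 a4 => by
    have a5 : 0 ≤ L' := (exp_pos _).le.trans a1
    simpa using hup L' (h6.trans a1) 0 0 u' b le_rfl a5 le_rfl (rpow_nonneg a5 _) a2 a3
      (by rw [zero_add, a4])
  have hs := ell_spec hn
  have hs' := (div_log_le hn).2
  rw [← hE] at hs hs'
  have hbN : (b : ℝ) + 1 ≤ N := by
    clear * - L a ha ha2 hl1 hL0 b N u h3 h7 h8 h9 hb hu1 hs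
    have a1 : π ^ 2 ≤ 4 ^ 2 := pow_le_pow_left₀ pi_pos.le pi_le_four 2
    have a2 : log L ≤ log L ^ 2 - π ^ 2 / 6 := by
      linarith only [ha, ha2, hl1, a1, mul_le_mul_of_nonneg_left hl1 (show 0 ≤ log L by linarith)]
    have a3 := mul_le_mul_of_nonneg_left a2 hL0.le
    rw [xc_inv hL0] at hb
    linarith only [ha, ha2, h3, hl1, h7, h8, h9, hb, hu1, hs, a3]
  have hp : 0 < L * (log L - 1) := mul_pos hL0 (by linarith only [ha, ha2, hl1])
  have key := sumF_lower W (b := b) (M := N - N / 10) (t := L⁻¹)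
    (c := exp (-(u * N / (L * (log L - 1))) - 3) / ((N + 1) ^ 3 * L)) (inv_pos.2 hL0) h10
    (by positivity) (by rw [hW]; exact_mod_cast hbN) (by omega) h11 h12 fun k a1 a2 => by
      clear * - u N L k b α W a2 hW a ha ha2 h3 hl1 hu1 hp hL0 h7 h8 h9 hu2 hb hN a1
      refine le_trans ?_ (giant_lower ((exp_le_exp.2 (by linarith only [ha, ha2, hl1])).trans_eq (exp_log hL0))
        (by linarith only [ha, ha2, h3, hl1, hu1]) (by linarith only [h7, h8, h9, hu2]) hb (by omega))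
      have a3 : (k : ℝ) ≤ N := by exact_mod_cast hW ▸ a2
      have a4 : 0 ≤ u := by linarith only [ha, ha2, h3, hl1, hu1]
      gcongr
  refine le_trans ?_ key
  have e1 : L⁻¹⁻¹ ^ W.card = exp (N * log L) := by rw [inv_inv, hW, exp_nat_mul, exp_log hL0]
  have a1 : (N : ℝ) + 1 ≤ exp (4 * log L) := by
    clear * - L hL0 a ha ha2 hl1 h3 h7 h8 h9 N hn hs'
    have e2 : exp (4 * log L) = L ^ 4 := by
      rw [show (4 : ℝ) = (4 : ℕ) by norm_num, exp_nat_mul, exp_log hL0]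
    have a2 : log L ^ 2 ≤ L ^ 2 := pow_le_pow_left₀ (by linarith only [ha, ha2, hl1]) (by linarith only [ha, ha2, h3, hl1, h7, h8, h9]) 2
    have a3 := mul_le_mul_of_nonneg_left a2 hL0.le
    have a4 : 1 ≤ L ^ 3 := one_le_pow₀ (by linarith only [ha, ha2, h3, hl1, h7, h8, h9])
    rw [e2]
    linarith only [ha, ha2, hn, hs', a3, h3, hl1, h7, h8, h9, a4, mul_le_mul_of_nonneg_left (show 2 ≤ L by linarith) (zero_le_one.trans a4)]
  have a2 : exp (-(4 * log L)) ≤ ((b : ℝ) + 1)⁻¹ := by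
    clear * - L b a N ha ha2 hbN a1
    rw [exp_neg]
    exact inv_anti₀ (by positivity) (by linarith only [ha, ha2, hbN, a1])
  have a3 : exp (-(2 * (u * log L)) - 3 - 13 * log L) ≤
      exp (-(u * N / (L * (log L - 1))) - 3) / ((N + 1) ^ 3 * L) := by
    clear * - u N L hs' hL0 a ha ha2 hl1 hp h3 hu1 hN a1
    have a4 : u * N / (L * (log L - 1)) ≤ 2 * (u * log L) := by
      have a5 : (N : ℝ) ≤ 2 * log L * (L * (log L - 1)) := by
        linarith only [hs', hL0, ha, ha2, hl1, mul_nonneg (mul_nonneg hL0.le (show 0 ≤ log L by linarith))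
          (show 0 ≤ log L - 2 by linarith)]
      rw [div_le_iff₀ hp]
      linarith only [a5, ha, ha2, h3, hl1, hu1, mul_le_mul_of_nonneg_left a5 (show 0 ≤ u by linarith)]
    have a5 : ((N : ℝ) + 1) ^ 3 * L ≤ exp (13 * log L) := by
      rw [show 13 * log L = (3 : ℕ) * (4 * log L) + log L by push_cast; ring, exp_add, exp_nat_mul,
        exp_log hL0]
      gcongr
    rw [exp_sub _ (13 * log L)]
    gcongr
  have a4 := (dlow_half _).trans (div_le_div_of_nonneg_right hV two_pos.le)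
  have a5 : (C2 + 24) * (u * log L) ≤ (N : ℝ) ^ η :=
    calc (C2 + 24) * (u * log L) ≤ (C2 + 24) * (2 * L ^ a * log L) := by
          clear * - L a ha ha2 hl1 C2 u hu2 h2
          have : 0 ≤ log L := by linarith only [ha, ha2, hl1]
          gcongr
      _ = L ^ a * (2 * (C2 + 24) * log L) := by ring
      _ ≤ L ^ (η / 2) * L ^ (η / 2) :=
          mul_le_mul (rpow_le_rpow_of_exponent_le (by clear * - L a ha ha2 h3 hl1 h7 h8 h9 h5 ha1; linarith only [ha, ha2, h3, hl1, h7, h8, h9]) ha1) h5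
            (mul_nonneg (by clear * - C2 a ha ha2 h2; linarith) (by clear * - L a ha ha2 hl1; linarith)) (by positivity)
      _ = L ^ η := by rw [← rpow_add hL0, add_halves]
      _ ≤ _ := rpow_le_rpow hL0.le (hE ▸ ell_le hn) hη.le
  rw [e1, hW, div_eq_mul_inv (N.factorial : ℝ), mul_assoc, mul_assoc, mul_assoc]
  refine mul_le_mul_of_nonneg_left (le_trans ?_ (mul_le_mul a2 (mul_le_mul_of_nonneg_left
    (mul_le_mul a4 a3 (exp_pos _).le ((exp_pos _).le.trans a4)) (exp_pos _).le) (by positivity)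
    (by positivity))) (Nat.cast_nonneg _)
  rw [← exp_add, ← exp_add, ← exp_add, exp_le_exp, FF_eq hn, prof_eq, ← hE]
  have a6 : u ≤ u * log L := le_mul_of_one_le_right (by clear * - u a L ha ha2 h3 hl1 hu1; linarith only [ha, ha2, h3, hl1, hu1]) (by clear * - L a ha ha2 hl1 u; linarith)
  have a7 := mul_le_mul_of_nonneg_left a6 h2
  clear * - N L η u C2 a ha ha2 h3 hl1 hu1 a5 a6 a7
  linarith only [ha, ha2, h3, hl1, hu1, a5, a6, a7]

theorem numDag_lower {η : ℝ} (hη : 0 < η) : ∀ᶠ N : ℕ in atTop,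
    N.factorial * exp (FF N - (N : ℝ) ^ η) ≤ numDag N := by
  filter_upwards [numF_lower (half_pos hη), sumF_kappa (half_pos hη),
    ((tendsto_rpow_atTop (half_pos hη)).comp tendsto_natCast_atTop_atTop).eventually_ge_atTop 3,
    eventually_ge_atTop 1] with N h1 h2 h3 h4
  have hW : (univ : Finset (Fin N)).card = N := by simp
  have h5 := (pow_le_pow_left₀ (by positivity) (h1 _ _ hW) 2).trans ((numF_sq_le _).trans
    (mul_le_mul_of_nonneg_left (h2 _ _ hW 3 (by norm_num) le_rfl) (Nat.cast_nonneg _)))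
  rw [card_dags, hW] at h5
  have h6 : (0 : ℝ) < N.factorial * exp (FF N + (N : ℝ) ^ (η / 2)) := by positivity
  refine le_of_mul_le_mul_right (le_trans ?_ h5) h6
  have h7 : (N : ℝ) ^ η = (N : ℝ) ^ (η / 2) * (N : ℝ) ^ (η / 2) := by
    rw [← rpow_add (by exact_mod_cast h4), add_halves]
  rw [Function.comp_apply] at h3
  rw [mul_pow, sq, sq, mul_mul_mul_comm, ← exp_add, ← exp_add]
  refine mul_le_mul_of_nonneg_left (exp_le_exp.2 ?_) (by positivity)
  linarith only [h7, h3, mul_le_mul_of_nonneg_left h3 (show 0 ≤ (N : ℝ) ^ (η / 2) by linarith)]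

end Pool.Agent.Work.MP_5391ad_co
end

-- merged part: Pool.Agent.Work.MP_5391ad_co.Master
section
/-! The master inequality. Take `η'` from `sum_expSR` for `η/2`, `ε = min (η'/19) (1/100)`,
`L = ell n`, `z = (1 + 3ε)/L`, `vm = vmax ε n`, `cap = capn ε n`. By `div_log_le`,
`z vm ≤ 2 ε log L`, `z cap ≤ (1/2 + 3ε) log L`, so `cX ≤ 10^5 (1 + log L)^2 L^(4ε)`,
`cR ≤ 2 (1 + log L) L^(-1/2 + 3ε)`, `g = cG ≤ L^(-3/2 + 16 ε)` and with `rpow_le_ell`
`12 g ≤ n^(-3/2 + η') ≤ N^(-3/2 + η')`, `g n ≤ ε/4`. Apply `card_red3`. For each `W`, `N = |W|`,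
`T = N! exp (FF N)`, `p > 0` (for `p = 0` the filtered set is empty): the weighted
arithmetic-geometric mean inequality with weights `2/3, 1/12, 1/12, 1/6` gives
`a b c ≤ p^(1/6) (a^(3/2) + b^12 + c^12 + p⁻¹)`, so the inner sum is at most
`p^(1/6) (3 T exp (N^(η/2)) + T)` by `sum_gam`, `sum_expSR` (for `rv Δ` use the involution `rv` of
`dags W`, `IsDag.rev`). `ell N ≥ (1 - ε) L` (`mul_ell_le`, `ell_mono`) gives
`z⁻¹ e^{g cap} ≤ exp (log (ell N) - ε/4)`, then `FF_incr` twice (`N ≤ n - 1 ≤ n`), and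
`C(n-1, N) (n-1-N)! N! = (n-1)!`. -/

namespace Pool.Agent.Work.MP_5391ad_co

open Finset Real Filter
open scoped Classical

theorem master_amgm {a b c p : ℝ} (ha : 0 ≤ a) (hb : 0 ≤ b) (hc : 0 ≤ c) (hp : 0 < p) :
    a * b * c ≤ p ^ (1 / 6 : ℝ) * (a ^ (3 / 2 : ℝ) + b ^ 12 + c ^ 12 + p⁻¹) := by
  have h1 := rpow_nonneg ha (3 / 2)
  have h2 := pow_nonneg hb 12
  have h3 := pow_nonneg hc 12
  have h4 := (inv_pos.2 hp).le
  have h := geom_mean_le_arith_mean4_weighted (w₁ := 2 / 3) (w₂ := 1 / 12) (w₃ := 1 / 12)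
    (w₄ := 1 / 6) (by norm_num) (by norm_num) (by norm_num) (by norm_num) h1 h2 h3 h4 (by norm_num)
  have e : ∀ x : ℝ, 0 ≤ x → (x ^ 12) ^ (1 / 12 : ℝ) = x := fun x hx => by
    rw [← rpow_natCast, ← rpow_mul hx]
    norm_num
  rw [← rpow_mul ha, e b hb, e c hc, inv_rpow hp.le, show (3 / 2 * (2 / 3) : ℝ) = 1 by norm_num,
    rpow_one, ← div_eq_mul_inv, div_le_iff₀' (rpow_pos_of_pos hp _)] at h
  exact h.trans (mul_le_mul_of_nonneg_left (by linarith only [h1, h2, h3, h4]) (rpow_nonneg hp.le _))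

theorem master_inner {α : Type} [Fintype α] {W : Finset α} {E : (α → α → Prop) → Prop}
    {g p T B : ℝ} (hp : 0 ≤ p) (hT : T ≤ B) (hB : 0 ≤ B)
    (h1 : ∑ Δ ∈ dags W, (gam (nsrc W Δ) * gam (nsrc W (rv Δ))) ^ (3 / 2 : ℝ) ≤ B)
    (h2 : ∑ Δ ∈ dags W, exp (12 * g * SR W Δ) ≤ B)
    (h3 : (((dags W).filter E).card : ℝ) ≤ p * T) :
    ∑ Δ ∈ (dags W).filter E, coreW g W Δ ≤ p ^ (1 / 6 : ℝ) * (4 * B) := by
  rcases hp.eq_or_lt with rfl | hp
  · rw [zero_mul, Nat.cast_nonpos, card_eq_zero] at h3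
    rw [h3, sum_empty]
    positivity
  have h4 : ∑ Δ ∈ dags W, exp (12 * g * SR W (rv Δ)) ≤ B := by
    refine le_of_eq_of_le (sum_nbij' rv rv (fun Δ h => ?_) (fun Δ h => ?_) (fun _ _ => rfl)
      (fun _ _ => rfl) fun _ _ => rfl) h2
    all_goals exact mem_filter.2 ⟨mem_univ _, (mem_filter.1 h).2.rev⟩
  have e : ∀ x : ℕ, exp (g * x) ^ 12 = exp (12 * g * x) := fun x => by
    rw [← exp_nat_mul, mul_assoc]
    norm_num
  have hg : ∀ Δ, 0 ≤ gam (nsrc W Δ) * gam (nsrc W (rv Δ)) := fun Δ =>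
    mul_nonneg (mchain_gam _) (mchain_gam _)
  refine (sum_le_sum fun Δ _ => master_amgm (hg Δ) (exp_pos _).le (exp_pos _).le hp).trans ?_
  rw [← mul_sum]
  refine mul_le_mul_of_nonneg_left ?_ (rpow_nonneg hp.le _)
  simp only [sum_add_distrib, e, sum_const, nsmul_eq_mul]
  have k1 := (sum_le_sum_of_subset_of_nonneg (filter_subset E (dags W))
    fun Δ _ _ => rpow_nonneg (hg Δ) (3 / 2)).trans h1
  have k2 := (sum_le_sum_of_subset_of_nonneg (filter_subset E (dags W))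
    fun Δ _ _ => (exp_pos _).le).trans h2
  have k3 := (sum_le_sum_of_subset_of_nonneg (filter_subset E (dags W))
    fun Δ _ _ => (exp_pos _).le).trans h4
  have k4 : (((dags W).filter E).card : ℝ) * p⁻¹ ≤ T := by
    rw [← div_eq_mul_inv, div_le_iff₀' hp]
    exact h3
  linarith only [hT, k1, k2, k3, k4]

theorem master_c {ε l z : ℝ} {vm cap : ℕ} (hε : 0 < ε) (hε1 : ε ≤ 1 / 100) (hz0 : 0 < z)
    (hz : z ≤ 2 * exp (-l)) (h1 : z * vm ≤ 2 * ε * l) (h2 : z * cap ≤ (1 / 2 + 3 * ε) * l)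
    (hl0 : 0 ≤ l) (hl : 10 ^ 18 * (1 + l) ^ 7 ≤ exp (ε * l)) :
    cX z vm cap ^ 3 * cR z vm cap ≤ 1 / 8 ∧
      12 * cG z vm cap ≤ exp ((-(3 / 2) + 16 * ε) * l) := by
  have k1 : z * vm ≤ l := by clear * - z vm l ε h1 hl0 hε1; linarith only [h1, hl0, hε1, mul_nonneg_of_nonpos_of_nonpos (Mathlib.Tactic.Linarith.sub_nonpos_of_le hε1) (Mathlib.Tactic.Linarith.sub_nonpos_of_le hl0)]
  have k2 : z * cap ≤ l := by clear * - z cap l ε h2 hl0 hε1; linarith only [h2, hl0, hε1, mul_nonneg_of_nonpos_of_nonpos (Mathlib.Tactic.Linarith.sub_nonpos_of_le hε1) (Mathlib.Tactic.Linarith.sub_nonpos_of_le hl0)]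
  have hX : cX z vm cap ≤ 100000 * (1 + l) * (1 + l) * exp (2 * (2 * ε * l)) := by
    clear * - z vm cap l ε k1 k2 hz0 hl0 h1
    unfold cX
    gcongr
  have hR : cR z vm cap ≤ 2 * exp (-l) * exp ((1 / 2 + 3 * ε) * l) * (1 + l) := by
    unfold cR
    gcongr
  have hX0 : 0 ≤ cX z vm cap := by
    unfold cX
    positivity
  have hR0 : 0 ≤ cR z vm cap := by
    unfold cR
    positivity
  have e1 : exp (2 * (2 * ε * l)) ^ 3 * exp (-l) * exp ((1 / 2 + 3 * ε) * l) * exp (ε * l) =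
      exp ((-(1 / 2) + 16 * ε) * l) := by
    rw [← exp_nat_mul, ← exp_add, ← exp_add, ← exp_add]
    congr 1
    push_cast
    ring
  have h3 : cX z vm cap ^ 3 * cR z vm cap ≤ exp ((-(1 / 2) + 16 * ε) * l) / 500 := by
    refine (mul_le_mul (pow_le_pow_left₀ hX0 hX 3) hR hR0 (by positivity)).trans ?_
    have h4 := mul_le_mul_of_nonneg_left hl
      (by positivity : 0 ≤ exp (2 * (2 * ε * l)) ^ 3 * exp (-l) * exp ((1 / 2 + 3 * ε) * l))
    rw [e1] at h4
    refine le_of_eq_of_le ?_ (div_le_div_of_nonneg_right h4 (by norm_num))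
    ring
  refine ⟨h3.trans ?_, ?_⟩
  · have : exp ((-(1 / 2) + 16 * ε) * l) ≤ 1 := exp_le_one_iff.2 (by clear * - ε l cap z hz0 hε k2 hε1 h2 hl0; linarith only [hl0, hε1, mul_nonneg_of_nonpos_of_nonpos (Mathlib.Tactic.Linarith.sub_nonpos_of_le hε1) (Mathlib.Tactic.Linarith.sub_nonpos_of_le hl0)])
    clear * - ε l hε hε1 this
    linarith only [hε, hε1, this]
  · have e2 : exp ((-(3 / 2) + 16 * ε) * l) = exp ((-(1 / 2) + 16 * ε) * l) * exp (-l) := by
      rw [← exp_add]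
      congr 1
      ring
    have h4 := mul_le_mul h3 hz hz0.le (by positivity)
    have h5 := mul_pos (exp_pos ((-(1 / 2) + 16 * ε) * l)) (exp_pos (-l))
    rw [cG, e2]
    clear * - z vm cap ε l h4 h5
    linarith only [h4, h5]

theorem master_ev1 {ε : ℝ} (hε : 0 < ε) : ∀ᶠ l : ℝ in atTop,
    10 ^ 18 * (1 + l) ^ 7 ≤ exp (ε * l) := by
  filter_upwards [(isLittleO_pow_exp_pos_mul_atTop 7 hε).bound
    (by norm_num : (0 : ℝ) < 1 / (128 * 10 ^ 18)), eventually_ge_atTop 1] with l h h1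
  rw [norm_of_nonneg (by positivity), norm_of_nonneg (exp_pos _).le] at h
  have h2 : (1 + l) ^ 7 ≤ (2 * l) ^ 7 := pow_le_pow_left₀ (by linarith only [h1]) (by linarith only [h1]) 7
  linarith only [h, h2]

theorem master_ev2 {η : ℝ} (hη : 0 < η) : ∀ᶠ x : ℝ in atTop,
    44 * x ^ 3 * exp (x ^ (η / 2)) ≤ exp (x ^ η) := by
  filter_upwards [(isLittleO_log_rpow_atTop (half_pos hη)).bound (by norm_num : (0 : ℝ) < 1 / 4),
    (tendsto_rpow_atTop (half_pos hη)).eventually_ge_atTop 2, eventually_ge_atTop 44]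
    with x h h1 h2
  have h0 : 0 < x := by linarith only [h2]
  rw [norm_of_nonneg (log_nonneg (by linarith only [h2])), norm_of_nonneg (by positivity)] at h
  have e : x ^ η = x ^ (η / 2) * x ^ (η / 2) := by rw [← rpow_add h0, add_halves]
  have h3 : 44 * x ^ 3 ≤ exp (4 * log x) := by
    rw [show (4 : ℝ) * log x = (4 : ℕ) * log x by norm_num, exp_nat_mul, exp_log h0,
      pow_succ' x 3]
    exact mul_le_mul_of_nonneg_right h2 (by positivity)
  refine (mul_le_mul_of_nonneg_right h3 (exp_pos _).le).trans ?_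
  rw [← exp_add, e]
  exact exp_le_exp.2 (by linarith only [h, h1, mul_nonneg_of_nonpos_of_nonpos (Mathlib.Tactic.Linarith.sub_nonpos_of_le h1) (Mathlib.Tactic.Linarith.sub_nonpos_of_le h1)])

theorem master_par {ε : ℝ} (hε : 0 < ε) (hε1 : ε ≤ 1 / 100) : ∀ᶠ n : ℕ in atTop, ∃ z, 0 < z ∧
    cX z (vmax ε n) (capn ε n) ^ 3 * cR z (vmax ε n) (capn ε n) ≤ 1 / 8 ∧
    cG z (vmax ε n) (capn ε n) * n ≤ 1 / 12 ∧
    12 * cG z (vmax ε n) (capn ε n) ≤ (n : ℝ) ^ (-(3 / 2) + 19 * ε) ∧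
    z⁻¹ * exp (cG z (vmax ε n) (capn ε n) * capn ε n) ≤ (1 - ε) * ell n * exp (-(ε / 4)) := by
  have hn := tendsto_natCast_atTop_atTop (R := ℝ)
  filter_upwards [hn.eventually_ge_atTop 30,
    (tendsto_log_atTop.comp (tendsto_ell.comp hn)).eventually (master_ev1 hε),
    hn.eventually (rpow_le_ell hε), (tendsto_log_atTop.comp hn).eventually_ge_atTop (4 / ε)]
    with n h1 h2 h3 h4
  simp only [Function.comp_apply] at h2 h4
  have hn0 : (0 : ℝ) < n := by linarith only [hε, hε1, h1]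
  have hL := (exp_pos 2).trans_le (le_ell n)
  have hl : 2 ≤ log (ell n) := (le_log_iff_exp_le hL).2 (le_ell n)
  have hm : 4 ≤ ε * log n := by rwa [div_le_iff₀' hε] at h4
  have hm1 : 1 ≤ log n := by clear * - n ε hε1 hm hε; (refine le_of_not_gt fun h_nl => ?_; linarith only [h_nl, hε1, hm, hε, mul_pos_of_neg_of_neg (Mathlib.Tactic.Linarith.sub_neg_of_lt hε) (Mathlib.Tactic.Linarith.sub_neg_of_lt hε), mul_nonneg_of_nonpos_of_nonpos (le_of_lt (Mathlib.Tactic.Linarith.sub_neg_of_lt hε)) (Mathlib.Tactic.Linarith.sub_nonpos_of_le hε1), mul_pos_of_neg_of_neg (Mathlib.Tactic.Linarith.sub_neg_of_lt hε) (Mathlib.Tactic.Linarith.sub_neg_of_lt h_nl)])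
  have hd := (div_log_le h1).1
  have hz0 : 0 < (1 + 3 * ε) / ell n := by positivity
  have hv : (vmax ε n : ℝ) ≤ ε * (ell n * log (ell n)) :=
    (Nat.floor_le (by positivity)).trans (by rw [mul_div_assoc]; gcongr)
  have hc0 : (capn ε n : ℝ) ≤ (1 / 2 + ε) * (n / log n) :=
    (Nat.floor_le (by positivity)).trans (by rw [mul_div_assoc])
  have hc : (capn ε n : ℝ) ≤ (1 / 2 + ε) * (ell n * log (ell n)) := hc0.trans (by gcongr)
  have hcn : (capn ε n : ℝ) ≤ n := hc0.trans ((mul_le_of_le_one_left (by positivity)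
    (by linarith only [hε, hε1])).trans (div_le_self hn0.le hm1))
  have e : ∀ a : ℝ, (1 + 3 * ε) / ell n * (a * (ell n * log (ell n))) =
      (1 + 3 * ε) * a * log (ell n) := fun a => by field_simp
  obtain ⟨k1, k2⟩ := master_c (vm := vmax ε n) (cap := capn ε n) hε hε1 hz0
    (by clear * - ε n hL hε hε1; rw [exp_neg, exp_log hL, ← div_eq_mul_inv]; gcongr; linarith only [hε, hε1])
    ((mul_le_mul_of_nonneg_left hv hz0.le).trans (by clear * - ε n e hε hε1 hl hv hz0; rw [e]; gcongr; linarith only [hε, hε1]))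
    ((mul_le_mul_of_nonneg_left hc hz0.le).trans (by clear * - ε n e hε hε1 hl hc hz0; rw [e]; gcongr; linarith only [hε, hε1, mul_pos_of_neg_of_neg (Mathlib.Tactic.Linarith.sub_neg_of_lt hε) (Mathlib.Tactic.Linarith.sub_neg_of_lt hε), mul_nonneg_of_nonpos_of_nonpos (le_of_lt (Mathlib.Tactic.Linarith.sub_neg_of_lt hε)) (Mathlib.Tactic.Linarith.sub_nonpos_of_le hε1)]))
    (by linarith only [hε, hε1, hl]) h2
  have hg0 := mchain_g hz0 (vmax ε n) (capn ε n)
  refine ⟨_, hz0, k1, ?_⟩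
  generalize cG ((1 + 3 * ε) / ell n) (vmax ε n) (capn ε n) = g at k2 hg0 ⊢
  have h5 : (1 - ε) * log n ≤ log (ell n) := by
    rw [← log_rpow hn0]
    exact log_le_log (by positivity) h3
  have h6 : (-(3 / 2) + 16 * ε) * log (ell n) ≤ log n * (-(3 / 2) + 19 * ε) := by
    clear * - ε n h5 hε hε1 hm hm1
    have := mul_le_mul_of_nonneg_left h5 (by linarith only [hε, hε1] : 0 ≤ 3 / 2 - 16 * ε)
    linarith only [hε, hε1, hm, this, hm1, mul_pos hε (mul_pos hε (zero_lt_one.trans_le hm1))]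
  have k3 := k2.trans (exp_le_exp.2 h6)
  have k4 : 12 * g * n ≤ ε := by
    clear * - g n ε k3 hn0 hε1 hm hε
    have h7 := mul_le_mul_of_nonneg_right k3 hn0.le
    nth_rw 3 [← exp_log hn0] at h7
    rw [← exp_add] at h7
    refine h7.trans ((exp_le_exp.2 (by (refine le_of_not_gt fun h_nl => ?_; linarith only [h_nl, hε1, hm, hε, mul_pos_of_neg_of_neg (Mathlib.Tactic.Linarith.sub_neg_of_lt hε) (Mathlib.Tactic.Linarith.sub_neg_of_lt hε), mul_nonneg_of_nonpos_of_nonpos (le_of_lt (Mathlib.Tactic.Linarith.sub_neg_of_lt hε)) (Mathlib.Tactic.Linarith.sub_nonpos_of_le hε1), mul_pos_of_neg_of_neg (Mathlib.Tactic.Linarith.sub_neg_of_lt hε) (Mathlib.Tactic.Linarith.sub_neg_of_lt h_nl), mul_nonneg_of_nonpos_of_nonpos (Mathlib.Tactic.Linarith.sub_nonpos_of_le hε1) (Mathlib.Tactic.Linarith.sub_nonpos_of_le hm)]) : _ ≤ -(log n / 4))).trans ?_)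
    rw [exp_neg, inv_le_iff_one_le_mul₀ (exp_pos _)]
    linarith only [hm, hε, hε1, add_one_le_exp (log n / 4), mul_pos_of_neg_of_neg (Mathlib.Tactic.Linarith.sub_neg_of_lt hε) (Mathlib.Tactic.Linarith.sub_neg_of_lt hε), mul_nonneg_of_nonpos_of_nonpos (le_of_lt (Mathlib.Tactic.Linarith.sub_neg_of_lt hε)) (Mathlib.Tactic.Linarith.sub_nonpos_of_le hε1), mul_nonneg_of_nonpos_of_nonpos (le_of_lt (Mathlib.Tactic.Linarith.sub_neg_of_lt hε)) (Mathlib.Tactic.Linarith.sub_nonpos_of_le (add_one_le_exp (log ↑n / (4 : ℝ))))]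
  refine ⟨by clear * - g n ε hε hε1 k4 hn0; linarith only [hε, hε1, k4], by rwa [rpow_def_of_pos hn0], ?_⟩
  have k5 : g * capn ε n ≤ ε / 4 := by clear * - g ε n k4 hε hε1 h1 hcn; (refine le_of_not_gt fun h_nl => ?_; linarith only [h_nl, k4, hε, hε1, h1, hcn, mul_nonneg_of_nonpos_of_nonpos (Mathlib.Tactic.Linarith.sub_nonpos_of_le (Mathlib.Tactic.Linarith.natCast_nonneg ℝ n)) (le_of_lt (Mathlib.Tactic.Linarith.sub_neg_of_lt h_nl)), mul_nonneg_of_nonpos_of_nonpos (Mathlib.Tactic.Linarith.sub_nonpos_of_le (Mathlib.Tactic.Linarith.natCast_nonneg ℝ (capn ε n))) (Mathlib.Tactic.Linarith.sub_nonpos_of_le k4), mul_pos_of_neg_of_neg (Mathlib.Tactic.Linarith.sub_neg_of_lt hε) (Mathlib.Tactic.Linarith.sub_neg_of_lt hε), mul_nonneg_of_nonpos_of_nonpos (le_of_lt (Mathlib.Tactic.Linarith.sub_neg_of_lt hε)) (Mathlib.Tactic.Linarith.sub_nonpos_of_le hε1), mul_nonneg_of_nonpos_of_nonpos (le_of_lt (Mathlib.Tactic.Linarith.sub_neg_of_lt hε)) (Mathlib.Tactic.Linarith.sub_nonpos_of_le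 h1), mul_nonneg_of_nonpos_of_nonpos (le_of_lt (Mathlib.Tactic.Linarith.sub_neg_of_lt hε)) (Mathlib.Tactic.Linarith.sub_nonpos_of_le hcn)])
  have k6 : exp (ε / 4) * exp (ε / 4) ≤ (1 - ε) * (1 + 3 * ε) := by
    clear * - ε hε hε1
    rw [← exp_add]
    refine ((mchain_exp (by linarith only [hε, hε1])).trans (?_ : _ ≤ 1 + ε)).trans (by nlinarith)
    rw [inv_le_iff_one_le_mul₀ (by linarith only [hε, hε1])]
    linarith only [hε, hε1, mul_nonneg_of_nonpos_of_nonpos (le_of_lt (Mathlib.Tactic.Linarith.sub_neg_of_lt hε)) (Mathlib.Tactic.Linarith.sub_nonpos_of_le hε1)]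
  rw [inv_div, exp_neg, ← div_eq_mul_inv, div_mul_eq_mul_div, div_le_div_iff₀ (by positivity)
    (exp_pos _)]
  have k7 := mul_le_mul_of_nonneg_left
    ((mul_le_mul_of_nonneg_right (exp_le_exp.2 k5) (exp_pos _).le).trans k6) hL.le
  clear * - n g ε k7
  linarith only [k7]

theorem master {η : ℝ} (hη : 0 < η) : ∃ ε : ℝ, 0 < ε ∧ ε ≤ 1 / 100 ∧ ∀ᶠ n : ℕ in atTop,
    ∀ (α : Type) [Fintype α], Fintype.card α = n →
    ∀ (s : α) (E : Finset α → (α → α → Prop) → Prop) (p : ℝ), 0 ≤ p →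
    (∀ W : Finset α, s ∉ W → (1 - ε) * n ≤ W.card →
      (((dags W).filter (E W)).card : ℝ) ≤ p * (W.card.factorial * exp (FF W.card))) →
    ((univ.filter (TypRed ε s E)).card : ℝ) ≤
      p ^ (1 / 6 : ℝ) * ((n - 1).factorial * exp (FF n + (n : ℝ) ^ η)) := by
  obtain ⟨η', hη', hSR⟩ := sum_expSR (half_pos hη)
  obtain ⟨ε, hε, hε1, hε2⟩ : ∃ ε : ℝ, 0 < ε ∧ ε ≤ 1 / 100 ∧ 19 * ε ≤ η' :=
    ⟨min (η' / 19) (1 / 100), by positivity, min_le_right _ _, by
      linarith only [min_le_left (η' / 19) (1 / 100)]⟩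
  have hn := tendsto_natCast_atTop_atTop (R := ℝ)
  obtain ⟨N1, hN1⟩ := eventually_atTop.1 ((hSR.and (sum_gam (half_pos hη))).and
    (hn.eventually (FF_incr (by positivity : 0 < ε / 4))))
  refine ⟨ε, hε, hε1, ?_⟩
  filter_upwards [master_par hε hε1, hn.eventually (master_ev2 hη), hn.eventually_ge_atTop 30,
    hn.eventually_ge_atTop (2 * N1)] with n ⟨z, hz, k1, k2, k3, k4⟩ h2 h30 hN α _ hα s E p hp hE
  subst hα
  refine (card_red3 hz k1 k2 _ s E).trans ?_
  have hg0 := mchain_g hz (vmax ε (Fintype.card α)) (capn ε (Fintype.card α))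
  generalize cG z (vmax ε (Fintype.card α)) (capn ε (Fintype.card α)) = g at k3 k4 hg0 ⊢
  have hy0 : 0 ≤ z⁻¹ * exp (g * capn ε (Fintype.card α)) := by positivity
  generalize z⁻¹ * exp (g * capn ε (Fintype.card α)) = y at k4 hy0 ⊢
  have hT : (univ.erase s).card = Fintype.card α - 1 := by
    rw [card_erase_of_mem (mem_univ s), card_univ]
  have h1n : 1 ≤ Fintype.card α := Fintype.card_pos_iff.2 ⟨s⟩
  generalize Fintype.card α = n at *
  have key : ∀ W ∈ (univ.erase s).powerset.filter fun W => ⌈(1 - ε) * n⌉₊ ≤ W.card,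
      (n - 1 - W.card).factorial * y ^ (n - 1 - W.card) *
        ∑ Δ ∈ (dags W).filter (E W), coreW g W Δ ≤ (n - 1 - W.card).factorial *
          W.card.factorial * (p ^ (1 / 6 : ℝ) * (4 * exp (FF n + (n : ℝ) ^ (η / 2)))) := by
    intro W hW
    obtain ⟨hW1, hW2⟩ := mem_filter.1 hW
    rw [mem_powerset] at hW1
    rw [Nat.ceil_le] at hW2
    have hW3 : W.card ≤ n - 1 := hT ▸ card_le_card hW1
    have hW4 : (W.card : ℝ) ≤ n := Nat.cast_le.2 (by omega)
    have hW5 : (n : ℝ) / 2 ≤ W.card := le_trans (by clear * - n ε hε hε1 h30 W hW2; linarith only [hε, hε1, h30, mul_nonneg_of_nonpos_of_nonpos (Mathlib.Tactic.Linarith.sub_nonpos_of_le (Mathlib.Tactic.Linarith.natCast_nonneg ℝ n)) (Mathlib.Tactic.Linarith.sub_nonpos_of_le hε1)]) hW2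
    obtain ⟨⟨m1, m2⟩, m3⟩ := hN1 W.card (Nat.cast_le (α := ℝ).1 (by clear * - N1 α W n hN hW5 hN1; linarith))
    have m4 := master_inner (g := g) hp (mul_le_mul_of_nonneg_left (exp_le_exp.2
      (le_add_of_nonneg_right (rpow_nonneg (Nat.cast_nonneg _) _))) (Nat.cast_nonneg _))
      (by positivity) (m2 α W rfl) (m1 α W rfl (12 * g) (by positivity) (k3.trans
        ((rpow_le_rpow_of_nonpos (by clear * - α W ε n hε hε1 h30 hW5 hW4; linarith only [hε, hε1, h30, hW5]) hW4 (by clear * - ε hε hε1 hW4; linarith only [hε, hε1])).trans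
          (rpow_le_rpow_of_exponent_le (by clear * - α W ε n hε hε1 h30 hW5; linarith only [hε, hε1, h30, hW5]) (by clear * - ε η' hε2; linarith only [hε2])))))
      (hE W (fun h => by simpa using hW1 h) hW2)
    have hL := (exp_pos 2).trans_le (le_ell W.card)
    have hl : 2 ≤ log (ell W.card) := (le_log_iff_exp_le hL).2 (le_ell _)
    have m5 : y ≤ exp (log (ell W.card) - ε / 4) := by
      clear * - y α W ε hL n k4 hε hε1 h30 hW2
      rw [sub_eq_add_neg, exp_add, exp_log hL]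
      exact k4.trans (mul_le_mul_of_nonneg_right ((mul_ell_le (by linarith only [hε, hε1]) (by linarith) h30).trans
        (ell_mono hW2)) (exp_pos _).le)
    have m6 : ((n - 1 - W.card : ℕ) : ℝ) ≤ n - W.card := by
      rw [le_sub_iff_add_le, ← Nat.cast_add]
      exact Nat.cast_le.2 (by omega)
    have m7 : y ^ (n - 1 - W.card) * exp (FF W.card + (W.card : ℝ) ^ (η / 2)) ≤
        exp (FF n + (n : ℝ) ^ (η / 2)) := by
      clear * - y n α W η ε hy0 m5 m3 hW4 hη m6 hε hε1 hl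
      refine (mul_le_mul_of_nonneg_right (pow_le_pow_left₀ hy0 m5 _) (exp_pos _).le).trans ?_
      rw [← exp_nat_mul, ← exp_add]
      refine exp_le_exp.2 ?_
      linarith only [m3, hW4, hη, m6, hε, hε1, hl, m3 n hW4, rpow_le_rpow (Nat.cast_nonneg _) hW4 (half_pos hη).le,
        mul_le_mul_of_nonneg_right m6 (by linarith : 0 ≤ log (ell W.card) - ε / 4)]
    refine (mul_le_mul_of_nonneg_left m4 (by positivity)).trans ?_
    refine le_of_eq_of_le ?_ ((mul_le_mul_of_nonneg_left m7 (by positivity :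
      0 ≤ ((n - 1 - W.card).factorial : ℝ) * W.card.factorial * p ^ (1 / 6 : ℝ) * 4)).trans_eq ?_)
    all_goals ring
  have h3 := (sum_le_sum key).trans (sum_le_sum_of_subset_of_nonneg (filter_subset _ _)
    fun _ _ _ => by positivity)
  have h4 := qcrude_pow (univ.erase s) fun k => (k.factorial : ℝ)
  rw [hT, Nat.sub_add_cancel h1n, sum_congr rfl fun k _ => div_self
    (Nat.cast_ne_zero.2 k.factorial_ne_zero), sum_const, card_range, nsmul_one] at h4
  rw [← sum_mul, h4] at h3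
  refine (mul_le_mul_of_nonneg_left h3 (by positivity)).trans ?_
  rw [exp_add, exp_add]
  refine le_of_eq_of_le ?_ ((mul_le_mul_of_nonneg_left h2 (by positivity :
    0 ≤ p ^ (1 / 6 : ℝ) * (n - 1).factorial * exp (FF n))).trans_eq ?_)
  all_goals ring

end Pool.Agent.Work.MP_5391ad_co
end
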