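import Pool.Agent.Work.MP_5391ad_co.TVal
import Pool.Agent.Work.MP_5391ad_co.MGr
import Pool.Agent.Work.MP_5391ad_co.Master

-- merged part: Pool.Agent.Work.MP_5391ad_co.SCen
section
-- merged part: Pool.Agent.Work.MP_5391ad_co.MCnt
section
/-! Almost all good digraphs have a typical environment.
`exists_ends`: the proof of `mem_fam` in `Encode`. `sum_tilt`: `Finset.prod_univ_sum`.
`card_few`: union over `S, W`; `1 ≤ 2 ^ j * 2⁻¹ ^ i` for `i ≤ j`; `S ×ˢ W ⊆ pairs`, `card_pairs`.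
`card_big`: `1 ≤ 2⁻¹ ^ j * 2 ^ i` for `j ≤ i`; `pairs \ S ×ˢ W` has at most `v + y (a + b)` elements.
`card_goods_filter_le`: apply `Good.core`, replace `d` by `2 |N| - |E'|`; for fixed `d, v` there are at
most `C(n,v) 2^v 2^v C(v^2, 2v-d) ≤ C(n,v) 4^v n^(2v-d) e^v` cores (see `sum_choose_le`).
`card_bad`: `k = ⌈1000 / e^2⌉`, `T = exp (n (2 L - 2 l - 2 - e^2/20))`. If the sizes are bad use
`term_bad` and `|ends| ≤ (a b + v)^(n-v)` (as in `card_fam`). Otherwise `defi` holds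
(`card_arcs_split`; `narc` is the card of `arcs`), so `few` or `big` fails for `(R, C)`; the vertices
`x ∉ N` with `f x ∈ S ×ˢ W` are counted by `ears`; use `term_all`, `card_few`, `card_big`,
`ratio_few`, `ratio_big`, and `2 exp (-n e^2/5) ≤ exp (-n e^2/10)`. -/

namespace Pool.Agent.Work.MP_5391ad_co

open Finset Filter
open scoped Classical

variable {α : Type*} [Fintype α]

theorem exists_ends (s : α) {D : α → α → Prop} {N R C : Finset α}
    (h : ∀ x ∉ N, ∃ p : α × α, p.1 ∈ N ∧ p.2 ∈ N ∧ Lin D x p ∧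
      (p ∈ R ×ˢ C ∨ ∃ x' ∈ N, Lin D x' p)) :
    ∃ f ∈ ends s N R C (arcs D ∩ N ×ˢ N), arcs D = build N (arcs D ∩ N ×ˢ N) f ∧
      ∀ x ∉ N, (f x).1 ∈ N ∧ (f x).2 ∈ N ∧ Lin D x (f x) := by
    have hch : ∀ x, ∃ p : α × α, (x ∈ N → p = (s, s)) ∧ (x ∉ N → p.1 ∈ N ∧ p.2 ∈ N ∧ Lin D x p ∧
        (p ∈ R ×ˢ C ∨ ∃ x' ∈ N, Lin D x' p)) := by
      intro x
      by_cases hx : x ∈ N
      · exact ⟨(s, s), fun _ => rfl, fun e => absurd hx e⟩
      · obtain ⟨p, hp⟩ := h x hx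
        exact ⟨p, fun e => absurd e hx, fun _ => hp⟩
    choose f hf1 hf2 using hch
    refine ⟨f, Fintype.mem_piFinset.2 fun x => ?_, ?_,
      fun x hx => ⟨(hf2 x hx).1, (hf2 x hx).2.1, (hf2 x hx).2.2.1⟩⟩
    · by_cases hx : x ∈ N
      · simp [hx, hf1 x hx]
      · rw [if_neg hx]
        obtain ⟨b1, b2, -, b4 | ⟨x', c1, c2⟩⟩ := hf2 x hx
        · exact mem_union_left _ b4
        · refine mem_union_right _ (mem_filter.2 ⟨mem_univ _, x', c1, fun a => ?_, fun a => ?_⟩)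
          · simp only [arcs, mem_inter, mem_filter, mem_univ, true_and, mem_product, c2.1 a]
            exact ⟨fun e => e.1, fun e => ⟨e, e ▸ b1, c1⟩⟩
          · simp only [arcs, mem_inter, mem_filter, mem_univ, true_and, mem_product, c2.2 a]
            exact ⟨fun e => e.1, fun e => ⟨e, c1, e ▸ b2⟩⟩
    · ext ⟨a, b⟩
      simp only [build, arcs, mem_union, mem_inter, mem_filter, mem_univ, true_and, mem_product,
        mem_image, mem_compl, Prod.mk.injEq]
      constructor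
      · intro hab
        by_cases ha : a ∈ N
        · by_cases hb : b ∈ N
          · exact Or.inl (Or.inl ⟨hab, ha, hb⟩)
          · exact Or.inl (Or.inr ⟨b, hb, (((hf2 b hb).2.2.1.1 _).1 hab).symm, rfl⟩)
        · exact Or.inr ⟨a, ha, rfl, (((hf2 a ha).2.2.1.2 _).1 hab).symm⟩
      · rintro ((r | ⟨x, hx, rfl, rfl⟩) | ⟨x, hx, rfl, rfl⟩)
        · exact r.1
        · exact ((hf2 x hx).2.2.1.1 _).2 rfl
        · exact ((hf2 x hx).2.2.1.2 _).2 rfl

theorem sum_tilt {β : Type*} (N : Finset α) (o : β) (Q : Finset β) (p : β → Prop) (y : ℝ) :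
    ∑ f ∈ Fintype.piFinset fun x => if x ∈ N then {o} else Q,
        y ^ (Nᶜ.filter fun x => p (f x)).card =
      (((Q.filter fun b => ¬ p b).card : ℝ) + y * (Q.filter p).card) ^
        (Fintype.card α - N.card) := by
    have h1 := Finset.prod_univ_sum (R := ℝ) (fun x : α => if x ∈ N then ({o} : Finset β) else Q)
      (fun x b => if x ∈ N then 1 else if p b then y else 1)
    have h2 : ∀ f : α → β, ∏ x, (if x ∈ N then (1 : ℝ) else if p (f x) then y else 1) =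
        y ^ (Nᶜ.filter fun x => p (f x)).card := by
      intro f
      rw [← prod_mul_prod_compl N, prod_congr rfl (g := fun _ => 1) (fun x hx => by simp [hx]),
        prod_const_one, one_mul, prod_congr rfl (g := fun x => if p (f x) then y else 1)
          (fun x hx => by simp [mem_compl.1 hx]), prod_ite, prod_const_one, mul_one, prod_const]
    simp only [h2] at h1
    rw [← h1, ← prod_mul_prod_compl N,
      prod_congr rfl (g := fun _ => 1) (fun x hx => by simp [hx]), prod_const_one, one_mul,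
      prod_congr rfl (g := fun _ => ((Q.filter fun b => ¬ p b).card : ℝ) + y * (Q.filter p).card)
        (fun x hx => ?_), prod_const, card_compl]
    simp only [mem_compl.1 hx, if_false]
    rw [sum_ite, sum_const, sum_const, nsmul_eq_mul, nsmul_eq_mul]
    ring

omit [Fintype α] in
theorem mcnt_biUnion_le {β : Type*} [DecidableEq β] (s : Finset α) (t : α → Finset β) {M : ℝ}
    (h : ∀ a ∈ s, ((t a).card : ℝ) ≤ M) : ((s.biUnion t).card : ℝ) ≤ s.card * M := by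
  have h1 : ((s.biUnion t).card : ℝ) ≤ ∑ a ∈ s, ((t a).card : ℝ) := by
    exact_mod_cast card_biUnion_le
  refine h1.trans ((sum_le_card_nsmul _ _ _ h).trans (le_of_eq ?_))
  rw [nsmul_eq_mul]

theorem mcnt_markov {β : Type*} (X Z : Finset β) (hZ : Z ⊆ X) (w : β → ℝ)
    (h0 : ∀ f ∈ X, 0 ≤ w f) (h1 : ∀ f ∈ Z, 1 ≤ w f) : (Z.card : ℝ) ≤ ∑ f ∈ X, w f := by
  refine le_trans ?_ (sum_le_sum_of_subset_of_nonneg hZ fun f hf _ => h0 f hf)
  simpa using sum_le_sum h1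

omit [Fintype α] in
theorem mcnt_two (R C : Finset α) {β : Type*} (Y : Finset β)
    (q : Finset α → Finset α → β → Prop) {M : ℝ}
    (hY : ∀ f ∈ Y, ∃ S ⊆ R, ∃ W ⊆ C, q S W f)
    (h : ∀ S ⊆ R, ∀ W ⊆ C, ∀ Z ⊆ Y, (∀ f ∈ Z, q S W f) → (Z.card : ℝ) ≤ M) :
    (Y.card : ℝ) ≤ 2 ^ R.card * 2 ^ C.card * M := by
  have hs : Y ⊆ (R.powerset ×ˢ C.powerset).biUnion fun p => Y.filter (q p.1 p.2) := by
    intro f hf
    obtain ⟨S, hS, W, hW, h2⟩ := hY f hf
    exact mem_biUnion.2 ⟨(S, W), mem_product.2 ⟨mem_powerset.2 hS, mem_powerset.2 hW⟩,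
      mem_filter.2 ⟨hf, h2⟩⟩
  refine (Nat.cast_le.2 (card_le_card hs)).trans ((mcnt_biUnion_le _ _ (M := M) ?_).trans
    (le_of_eq ?_))
  · intro p hp
    obtain ⟨h1, h2⟩ := mem_product.1 hp
    exact h _ (mem_powerset.1 h1) _ (mem_powerset.1 h2) _ (filter_subset _ _)
      fun f hf => (mem_filter.1 hf).2
  · rw [card_product, card_powerset, card_powerset]
    push_cast
    ring

theorem mcnt_pairs (N R C : Finset α) (E : Finset (α × α)) {S W : Finset α} (hS : S ⊆ R)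
    (hW : W ⊆ C) (A B : Finset (α × α)) (hA : ∀ b, b ∈ A ↔ b ∈ pairs N R C E ∧ b ∈ S ×ˢ W)
    (hB : ∀ b, b ∈ B ↔ b ∈ pairs N R C E ∧ b ∉ S ×ˢ W) :
    (A.card : ℝ) = S.card * W.card ∧
      (B.card : ℝ) + S.card * W.card ≤ R.card * C.card + N.card := by
  have h1 : A = S ×ˢ W := by
    ext b
    rw [hA]
    exact ⟨fun h => h.2, fun h => ⟨mem_union_left _ (product_subset_product hS hW h), h⟩⟩
  have h2 : Disjoint A B := disjoint_left.2 fun b h h' => ((hB b).1 h').2 ((hA b).1 h).2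
  have h3 : A ∪ B ⊆ pairs N R C E :=
    union_subset (fun b h => ((hA b).1 h).1) fun b h => ((hB b).1 h).1
  have h4 := (card_le_card h3).trans (card_pairs N R C E)
  rw [card_union_of_disjoint h2, h1, card_product] at h4
  rw [h1, card_product]
  refine ⟨by push_cast; rfl, ?_⟩
  exact_mod_cast (by omega : B.card + S.card * W.card ≤ R.card * C.card + N.card)

theorem mcnt_tilt (s : α) (N R C : Finset α) (E : Finset (α × α)) (p : α × α → Prop)
    (Z : Finset (α → α × α)) (hZ : Z ⊆ ends s N R C E) {c y M : ℝ} (hc : 0 ≤ c) (hy : 0 ≤ y)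
    (h1 : ∀ f ∈ Z, 1 ≤ c * y ^ (Nᶜ.filter fun x => p (f x)).card)
    (h2 : (((pairs N R C E).filter fun b => ¬ p b).card : ℝ) +
      y * ((pairs N R C E).filter p).card ≤ M) :
    (Z.card : ℝ) ≤ c * M ^ (Fintype.card α - N.card) := by
  refine (mcnt_markov _ _ hZ (fun f => c * y ^ (Nᶜ.filter fun x => p (f x)).card)
    (fun f _ => by positivity) h1).trans ?_
  rw [← mul_sum]
  refine mul_le_mul_of_nonneg_left ?_ hc
  exact (sum_tilt N (s, s) (pairs N R C E) p y).le.trans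
    (pow_le_pow_left₀ (by positivity) h2 _)

theorem card_few (s : α) (N R C : Finset α) (E : Finset (α × α)) {y : ℝ} (hy : 0 ≤ y)
    (h1 : y ≤ R.card) (h2 : y ≤ C.card) (j : ℕ) :
    (((ends s N R C E).filter fun f => ∃ S ⊆ R, ∃ W ⊆ C, y ≤ S.card ∧ y ≤ W.card ∧
        (Nᶜ.filter fun x => f x ∈ S ×ˢ W).card ≤ j).card : ℝ) ≤
      2 ^ R.card * 2 ^ C.card * 2 ^ j *
        ((R.card : ℝ) * C.card + N.card - y ^ 2 / 2) ^ (Fintype.card α - N.card) := by
    have hM : 0 ≤ (R.card : ℝ) * C.card + N.card - y ^ 2 / 2 := by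
      have := mul_le_mul h1 h2 hy (Nat.cast_nonneg _)
      have h3 : (0 : ℝ) ≤ N.card := Nat.cast_nonneg _
      linarith only [this, sq_nonneg y, mul_self_nonneg y]
    rw [mul_assoc]
    refine mcnt_two R C _
      (fun S W f => y ≤ S.card ∧ y ≤ W.card ∧ (Nᶜ.filter fun x => f x ∈ S ×ˢ W).card ≤ j)
      (fun f hf => (mem_filter.1 hf).2) fun S hS W hW Z hZ hq => ?_
    rcases Z.eq_empty_or_nonempty with rfl | ⟨f0, hf0⟩
    · rw [card_empty, Nat.cast_zero]
      positivity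
    obtain ⟨p, hp⟩ : ∃ p : α × α → Prop, ∀ b, p b ↔ b ∈ S ×ˢ W := ⟨_, fun _ => Iff.rfl⟩
    refine mcnt_tilt s N R C E p Z (hZ.trans (filter_subset _ _)) (y := 2⁻¹) (by positivity)
      (by positivity) (fun f hf => ?_) ?_
    · have e : (Nᶜ.filter fun x => p (f x)) = Nᶜ.filter fun x => f x ∈ S ×ˢ W := by
        ext x
        rw [mem_filter, mem_filter, hp]
      obtain ⟨i, hi⟩ := Nat.exists_eq_add_of_le (hq f hf).2.2
      rw [e, hi, pow_add, mul_right_comm, ← mul_pow, mul_inv_cancel₀ two_ne_zero, one_pow, one_mul]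
      exact one_le_pow₀ one_le_two
    · obtain ⟨a1, a2⟩ := mcnt_pairs N R C E hS hW ((pairs N R C E).filter p)
        ((pairs N R C E).filter fun b => ¬ p b) (fun b => by rw [mem_filter, hp])
        (fun b => by rw [mem_filter, hp])
      have a3 := mul_le_mul (hq f0 hf0).1 (hq f0 hf0).2.1 hy (Nat.cast_nonneg _)
      rw [a1]
      linarith only [a2, a3]

theorem card_big (s : α) (N R C : Finset α) (E : Finset (α × α)) {y : ℝ} (hy : 0 ≤ y) (j : ℕ) :
    (((ends s N R C E).filter fun f => ∃ S ⊆ R, ∃ W ⊆ C, (R.card : ℝ) ≤ S.card + y ∧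
        (C.card : ℝ) ≤ W.card + y ∧ j ≤ (Nᶜ.filter fun x => f x ∉ S ×ˢ W).card).card : ℝ) ≤
      2 ^ R.card * 2 ^ C.card * 2⁻¹ ^ j *
        ((R.card : ℝ) * C.card + 2 * N.card + y * (R.card + C.card)) ^
          (Fintype.card α - N.card) := by
    rw [mul_assoc]
    refine mcnt_two R C _
      (fun S W f => (R.card : ℝ) ≤ S.card + y ∧ (C.card : ℝ) ≤ W.card + y ∧
        j ≤ (Nᶜ.filter fun x => f x ∉ S ×ˢ W).card)
      (fun f hf => (mem_filter.1 hf).2) fun S hS W hW Z hZ hq => ?_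
    rcases Z.eq_empty_or_nonempty with rfl | ⟨f0, hf0⟩
    · rw [card_empty, Nat.cast_zero]
      positivity
    obtain ⟨p, hp⟩ : ∃ p : α × α → Prop, ∀ b, p b ↔ b ∉ S ×ˢ W := ⟨_, fun _ => Iff.rfl⟩
    refine mcnt_tilt s N R C E p Z (hZ.trans (filter_subset _ _)) (y := 2) (by positivity)
      (by positivity) (fun f hf => ?_) ?_
    · have e : (Nᶜ.filter fun x => p (f x)) = Nᶜ.filter fun x => f x ∉ S ×ˢ W := by
        ext x
        rw [mem_filter, mem_filter, hp]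
      obtain ⟨i, hi⟩ := Nat.exists_eq_add_of_le (hq f hf).2.2
      rw [e, hi, pow_add, ← mul_assoc, ← mul_pow, inv_mul_cancel₀ two_ne_zero, one_pow, one_mul]
      exact one_le_pow₀ one_le_two
    · obtain ⟨a1, a2⟩ := mcnt_pairs N R C E hS hW ((pairs N R C E).filter fun b => ¬ p b)
        ((pairs N R C E).filter p) (fun b => by rw [mem_filter, hp, not_not])
        (fun b => by rw [mem_filter, hp])
      have b1 := (hq f0 hf0).1
      have b2 := (hq f0 hf0).2.1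
      have b3 : (S.card : ℝ) ≤ R.card := Nat.cast_le.2 (card_le_card hS)
      have b4 : (0 : ℝ) ≤ S.card := Nat.cast_nonneg _
      have b5 : (0 : ℝ) ≤ C.card := Nat.cast_nonneg _
      have c1 := mul_le_mul_of_nonneg_right b1 b5
      have c2 := mul_le_mul_of_nonneg_left b2 b4
      have c3 := mul_le_mul_of_nonneg_left b3 hy
      rw [a1]
      linarith only [a2, c1, c2, c3]

theorem mcnt_core (s : α) (k : ℕ) {A : Finset (α × α)} (h : Good fun a b => (a, b) ∈ A) :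
    ∃ (N R C : Finset α) (E : Finset (α × α)) (d : ℕ) (f : α → α × α), R ⊆ N ∧ C ⊆ N ∧
      E ⊆ N ×ˢ N ∧ k * (R.card + C.card) ≤ (k + 3) * d ∧ N.card ≤ (2 * k + 6) * d + 4 ∧
      E.card + d = 2 * N.card ∧ f ∈ ends s N R C E ∧ build N E f = A ∧
      (∀ p, p ∈ E ↔ p ∈ A ∧ p ∈ N ×ˢ N) ∧
      ∀ x ∉ N, (f x).1 ∈ N ∧ (f x).2 ∈ N ∧ Lin (fun a b => (a, b) ∈ A) x (f x) := by
  obtain ⟨N, R, C, d, a1, a2, a3, a4, a5, a6⟩ := h.core s k
  obtain ⟨f, b1, b2, b3⟩ := exists_ends s a6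
  have e : arcs (fun a b => (a, b) ∈ A) = A := by ext p; simp [arcs]
  rw [e] at a5 b1 b2
  obtain ⟨E, hE, c1, c2, c3⟩ : ∃ E : Finset (α × α), (∀ p, p ∈ E ↔ p ∈ A ∧ p ∈ N ×ˢ N) ∧
      E.card + d ≤ 2 * N.card ∧ f ∈ ends s N R C E ∧ A = build N E f :=
    ⟨_, fun _ => mem_inter, a5, b1, b2⟩
  have hd : d ≤ 2 * N.card - E.card := by omega
  exact ⟨N, R, C, E, 2 * N.card - E.card, f, a1, a2, fun p hp => ((hE p).1 hp).2,
    a3.trans (Nat.mul_le_mul_left _ hd),
    a4.trans (Nat.add_le_add_right (Nat.mul_le_mul_left _ hd) _), by omega, c2, c3.symm, hE, b3⟩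

theorem mcnt_choose_le {n v m : ℕ} (hv : v ≤ n) :
    (((v * v).choose m : ℕ) : ℝ) ≤ (n : ℝ) ^ m * Real.exp v := by
  have h1 : (((v * v).choose m : ℕ) : ℝ) ≤ ((v * v : ℕ) : ℝ) ^ m / (m.factorial : ℝ) := by
    have := Nat.choose_le_pow_div (α := ℝ) m (v * v)
    simpa using this
  have h2 := Real.pow_div_factorial_le_exp (v : ℝ) (Nat.cast_nonneg v) m
  have h3 : (v : ℝ) ^ m ≤ (n : ℝ) ^ m :=
    pow_le_pow_left₀ (Nat.cast_nonneg v) (by exact_mod_cast hv) m
  refine h1.trans ?_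
  push_cast
  rw [mul_pow, mul_div_assoc]
  gcongr

theorem card_goods_filter_le {n k : ℕ} (s : Fin n) (p : Finset (Fin n × Fin n) → Prop) {T : ℝ}
    (hT0 : 0 ≤ T)
    (hT : ∀ (N R C : Finset (Fin n)) (E : Finset (Fin n × Fin n)) (d : ℕ), R ⊆ N → C ⊆ N →
      E ⊆ N ×ˢ N → k * (R.card + C.card) ≤ (k + 3) * d → N.card ≤ (2 * k + 6) * d + 4 →
      E.card + d = 2 * N.card →
      (n.choose N.card : ℝ) * 4 ^ N.card * ((n : ℝ) ^ (2 * N.card - d) * Real.exp N.card) *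
        ((ends s N R C E).filter fun f => p (build N E f) ∧ build N E f ∩ N ×ˢ N = E ∧
          ∀ x ∉ N, (f x).1 ∈ N ∧ (f x).2 ∈ N ∧
            Lin (fun a b => (a, b) ∈ build N E f) x (f x)).card ≤ T) :
    (((goods n).filter p).card : ℝ) ≤ (2 * n + 1) ^ 3 * T := by
    have hn : 1 ≤ n := s.pos
    obtain ⟨G, hG⟩ : ∃ G : Finset (Fin n) → Finset (Fin n) → Finset (Fin n) →
        Finset (Fin n × Fin n) → Finset (Fin n → Fin n × Fin n), ∀ N R C E, G N R C E =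
        (ends s N R C E).filter fun f => p (build N E f) ∧ build N E f ∩ N ×ˢ N = E ∧
            ∀ x ∉ N, (f x).1 ∈ N ∧ (f x).2 ∈ N ∧
              Lin (fun a b => (a, b) ∈ build N E f) x (f x) := ⟨_, fun _ _ _ _ => rfl⟩
    simp only [← hG] at hT
    have hs : (goods n).filter p ⊆
        (((range (2 * n + 1)) ×ˢ (range (n + 1))).filter fun q : ℕ × ℕ =>
          q.1 ≤ 2 * q.2 ∧ q.2 ≤ (2 * k + 6) * q.1 + 4).biUnion fun q =>
        (powersetCard q.2 univ).biUnion fun N => (powerset N).biUnion fun R =>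
        ((powerset N).filter fun C => k * (R.card + C.card) ≤ (k + 3) * q.1).biUnion fun C =>
        (powersetCard (2 * q.2 - q.1) (N ×ˢ N)).biUnion fun E => (G N R C E).image (build N E) := by
      intro A hA
      obtain ⟨h1, h2⟩ := mem_filter.1 hA
      obtain ⟨N, R, C, E, d, f, a1, a2, a3, a4, a5, a6, a7, a8, a9, a10⟩ :=
        mcnt_core s k (mem_filter.1 h1).2
      have hN : N.card ≤ n := by simpa using card_le_univ N
      refine mem_biUnion.2 ⟨(d, N.card), ?_, mem_biUnion.2 ⟨N,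
        mem_powersetCard.2 ⟨subset_univ _, rfl⟩, mem_biUnion.2 ⟨R, mem_powerset.2 a1,
        mem_biUnion.2 ⟨C, mem_filter.2 ⟨mem_powerset.2 a2, a4⟩, mem_biUnion.2 ⟨E,
        mem_powersetCard.2 ⟨a3, ?_⟩, mem_image.2 ⟨f, ?_, a8⟩⟩⟩⟩⟩⟩
      · simp only [mem_filter, mem_product, mem_range]
        omega
      · simp only
        omega
      · rw [hG, mem_filter, a8]
        refine ⟨a7, h2, ?_, a10⟩
        ext q
        rw [mem_inter, a9]
    refine (Nat.cast_le.2 (card_le_card hs)).trans ((mcnt_biUnion_le _ _ (M := T) ?_).trans ?_)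
    · rintro ⟨d, v⟩ hq
      simp only [mem_filter, mem_product, mem_range] at hq
      obtain ⟨⟨b1, b2⟩, b3, b4⟩ := hq
      have hv : v ≤ n := by omega
      obtain ⟨K, hK⟩ : ∃ K : ℝ, K = (n.choose v : ℝ) * 4 ^ v *
        ((n : ℝ) ^ (2 * v - d) * Real.exp v) := ⟨_, rfl⟩
      have hK0 : 0 < K := by
        have := Nat.choose_pos hv
        rw [hK]
        positivity
      have hM : 0 ≤ T / K := by positivity
      refine (mcnt_biUnion_le _ _ (M := 2 ^ v * (2 ^ v *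
        (((n : ℝ) ^ (2 * v - d) * Real.exp v) * (T / K)))) fun N hN => ?_).trans (le_of_eq ?_)
      · have hc : N.card = v := (mem_powersetCard.1 hN).2
        refine (mcnt_biUnion_le _ _ (M := 2 ^ v *
          (((n : ℝ) ^ (2 * v - d) * Real.exp v) * (T / K))) fun R hR => ?_).trans (le_of_eq ?_)
        · refine (mcnt_biUnion_le _ _ (M := ((n : ℝ) ^ (2 * v - d) * Real.exp v) * (T / K))
            fun C hC => ?_).trans ?_
          · refine (mcnt_biUnion_le _ _ (M := T / K) fun E hE => ?_).trans ?_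
            · refine (Nat.cast_le.2 card_image_le).trans ?_
              have e1 := (mem_powersetCard.1 hE).2
              have := hT N R C E d (mem_powerset.1 hR) (mem_powerset.1 (mem_filter.1 hC).1)
                (mem_powersetCard.1 hE).1 (mem_filter.1 hC).2 (by omega) (by omega)
              rw [hc, ← hK] at this
              rw [le_div_iff₀ hK0, mul_comm]
              exact this
            · rw [card_powersetCard, card_product, hc]
              exact mul_le_mul_of_nonneg_right (mcnt_choose_le hv) hM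
          · refine mul_le_mul_of_nonneg_right ?_ (by positivity)
            have := (card_filter_le (powerset N)
              fun C => k * (R.card + C.card) ≤ (k + 3) * d).trans (card_powerset N).le
            rw [hc] at this
            exact_mod_cast this
        · rw [card_powerset, hc]
          push_cast
          rfl
      · rw [card_powersetCard, card_univ, Fintype.card_fin]
        have : T = K * (T / K) := by field_simp
        conv_rhs => rw [this]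
        generalize T / K = U
        rw [hK, show (4 : ℝ) = 2 * 2 by norm_num, mul_pow]
        ring
    · refine mul_le_mul_of_nonneg_right ?_ hT0
      have := card_filter_le ((range (2 * n + 1)) ×ˢ (range (n + 1)))
        fun q : ℕ × ℕ => q.1 ≤ 2 * q.2 ∧ q.2 ≤ (2 * k + 6) * q.1 + 4
      rw [card_product, card_range, card_range] at this
      have h3 : (2 * n + 1) * (n + 1) ≤ (2 * n + 1) ^ 3 := by
        calc (2 * n + 1) * (n + 1) ≤ (2 * n + 1) * ((2 * n + 1) * (2 * n + 1)) :=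
              Nat.mul_le_mul_left _ (by linarith only [hn, mul_nonneg_of_nonpos_of_nonpos (Mathlib.Tactic.Linarith.sub_nonpos_of_le (Mathlib.Tactic.Linarith.natCast_nonneg ℤ n)) (Mathlib.Tactic.Linarith.sub_nonpos_of_le (Mathlib.Tactic.Linarith.natCast_nonneg ℤ n))])
          _ = _ := by ring
      exact_mod_cast this.trans h3

theorem mcnt_ends (s : α) (N R C : Finset α) (E : Finset (α × α)) :
    ((ends s N R C E).card : ℝ) ≤ ((R.card : ℝ) * C.card + N.card) ^ (Fintype.card α - N.card) := by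
  have := mcnt_tilt s N R C E (fun _ => True) _ Subset.rfl (c := 1) (y := 1)
    (M := (R.card : ℝ) * C.card + N.card) zero_le_one zero_le_one (fun f _ => by simp) (by
      simp only [not_true, filter_false, filter_true, card_empty, Nat.cast_zero, zero_add, one_mul]
      exact_mod_cast card_pairs N R C E)
  rwa [one_mul] at this

theorem mcnt_ears {D : α → α → Prop} {N : Finset α} {f : α → α × α}
    (h : ∀ x ∉ N, Lin D x (f x)) (S W : Finset α) :
    (Nᶜ.filter fun x => f x ∈ S ×ˢ W).card ≤ ears D S W := by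
  refine card_le_card fun x hx => ?_
  obtain ⟨h1, h2⟩ := mem_filter.1 hx
  exact mem_filter.2 ⟨mem_univ _, (f x).1, (mem_product.1 h2).1, (f x).2, (mem_product.1 h2).2,
    h x (mem_compl.1 h1)⟩

theorem mcnt_split (s : α) {e : ℝ} (he : 0 < e) (he1 : e ≤ 1 / 100) (N R C : Finset α)
    (E : Finset (α × α)) {d : ℕ} (hd : E.card + d = 2 * N.card)
    (hl : 0 ≤ lam (Fintype.card α)) (h0 : (d : ℝ) ≤ (2 + e) * lam (Fintype.card α))
    (h1 : (1 - e) * lam (Fintype.card α) ≤ R.card)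
    (h2 : (R.card : ℝ) ≤ (1 + e) * lam (Fintype.card α))
    (h3 : (1 - e) * lam (Fintype.card α) ≤ C.card)
    (h4 : (C.card : ℝ) ≤ (1 + e) * lam (Fintype.card α))
    (Z : Finset (α → α × α)) (hZ : ∀ f ∈ Z, f ∈ ends s N R C E ∧
      ¬ EnvR e (fun a b => (a, b) ∈ build N E f) R C ∧
      (∀ q, q ∈ build N E f ∧ q ∈ N ×ˢ N ↔ q ∈ E) ∧
      ∀ x ∉ N, (f x).1 ∈ N ∧ (f x).2 ∈ N ∧ Lin (fun a b => (a, b) ∈ build N E f) x (f x)) :
    (Z.card : ℝ) ≤ 2 ^ R.card * 2 ^ C.card * 2 ^ ⌈10 * lam (Fintype.card α)⌉₊ *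
        ((R.card : ℝ) * C.card + N.card - (e * lam (Fintype.card α)) ^ 2 / 2) ^
          (Fintype.card α - N.card) +
      2 ^ R.card * 2 ^ C.card * 2⁻¹ ^ (⌈1000 * e * Fintype.card α⌉₊ - N.card) *
        ((R.card : ℝ) * C.card + 2 * N.card +
          20 * e * lam (Fintype.card α) * (R.card + C.card)) ^ (Fintype.card α - N.card) := by
  have hy : 0 ≤ e * lam (Fintype.card α) := by positivity
  have hle : e * lam (Fintype.card α) ≤ (1 - e) * lam (Fintype.card α) :=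
    mul_le_mul_of_nonneg_right (by linarith only [he, he1]) hl
  refine le_trans ?_ (add_le_add
    (card_few s N R C E hy (hle.trans h1) (hle.trans h3) ⌈10 * lam (Fintype.card α)⌉₊)
    (card_big s N R C E (y := 20 * e * lam (Fintype.card α)) (by positivity)
      (⌈1000 * e * Fintype.card α⌉₊ - N.card)))
  rw [← Nat.cast_add, Nat.cast_le]
  refine le_trans (card_le_card fun f hf => ?_) (card_union_le _ _)
  obtain ⟨a1, a2, a3, a4⟩ := hZ f hf
  by_contra hc
  rw [mem_union, mem_filter, mem_filter, not_or] at hc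
  have hlin : ∀ x ∉ N, Lin (fun a b => (a, b) ∈ build N E f) x (f x) := fun x hx => (a4 x hx).2.2
  have hcc := card_add_card_compl N
  refine a2 ⟨h1, h2, h3, h4, ?_, fun S hS W hW b1 b2 => ?_, fun S hS W hW b1 b2 => ?_⟩
  · have c1 := card_arcs_split (D := fun a b => (a, b) ∈ build N E f) N
      fun x hx => ⟨f x, a4 x hx⟩
    have c2 : arcs (fun a b => (a, b) ∈ build N E f) ∩ N ×ˢ N = E := by
      ext q
      rw [← a3, mem_inter]
      simp only [arcs, mem_filter, mem_univ, true_and]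
    rw [c2] at c1
    have c3 : 2 * Fintype.card α ≤ narc (fun a b => (a, b) ∈ build N E f) + d := by
      have : narc (fun a b => (a, b) ∈ build N E f) =
        (arcs fun a b => (a, b) ∈ build N E f).card := rfl
      omega
    have c4 : (2 * Fintype.card α : ℝ) ≤ narc (fun a b => (a, b) ∈ build N E f) + d := by
      exact_mod_cast c3
    linarith only [h0, c4]
  · by_contra hlt
    refine hc.1 ⟨a1, S, hS, W, hW, b1, b2, (mcnt_ears hlin S W).trans ?_⟩
    have := (not_le.1 hlt).le.trans (Nat.le_ceil _)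
    exact_mod_cast this
  · by_contra hlt
    refine hc.2 ⟨a1, S, hS, W, hW, b1, b2, ?_⟩
    have c1 := mcnt_ears hlin S W
    have c2 := card_filter_add_card_filter_not (s := Nᶜ) (fun x => f x ∈ S ×ˢ W)
    have c3 : ⌈1000 * e * Fintype.card α⌉₊ ≤ (Nᶜ.filter fun x => f x ∉ S ×ˢ W).card + N.card := by
      refine Nat.ceil_le.2 ?_
      have c4 : Fintype.card α ≤ ears (fun a b => (a, b) ∈ build N E f) S W +
          ((Nᶜ.filter fun x => f x ∉ S ×ˢ W).card + N.card) := by omega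
      have c5 : (Fintype.card α : ℝ) ≤ ears (fun a b => (a, b) ∈ build N E f) S W +
          (((Nᶜ.filter fun x => f x ∉ S ×ˢ W).card + N.card : ℕ) : ℝ) := by exact_mod_cast c4
      have := not_le.1 hlt
      linarith only [hlt, c5]
    omega

theorem card_bad {e : ℝ} (he : 0 < e) (he1 : e ≤ 1 / 100) : ∀ᶠ n : ℕ in atTop,
    (((goods n).filter fun E => ¬ ∃ R C, EnvR e (fun a b => (a, b) ∈ E) R C).card : ℝ) ≤
      (2 * n + 1) ^ 3 * Real.exp (n * (2 * Real.log n - 2 * Real.log (Real.log n) - 2 -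
        e ^ 2 / 20)) := by
    have hk : 1000 / e ^ 2 ≤ (⌈1000 / e ^ 2⌉₊ : ℕ) := Nat.le_ceil _
    generalize ⌈1000 / e ^ 2⌉₊ = k at hk
    have hbig : ∀ᶠ n : ℕ in atTop, 10 / e ^ 2 ≤ (n : ℝ) :=
      tendsto_natCast_atTop_atTop.eventually_ge_atTop _
    filter_upwards [term_bad he he1 hk, term_all he hk, ratio_few he he1 k, ratio_big he he1 k,
      hbig, eventually_ge_atTop 1] with n t1 t2 t3 t4 t5 hn
    obtain ⟨p, hp⟩ : ∃ p : Finset (Fin n × Fin n) → Prop,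
      ∀ E, p E ↔ ¬ ∃ R C, EnvR e (fun a b => (a, b) ∈ E) R C := ⟨_, fun _ => Iff.rfl⟩
    refine le_trans (Nat.cast_le.2 (card_le_card fun E hE => mem_filter.2
      ⟨(mem_filter.1 hE).1, (hp E).2 (mem_filter.1 hE).2⟩))
      (card_goods_filter_le (k := k) (⟨0, hn⟩ : Fin n) p (Real.exp_pos _).le ?_)
    intro N R C E d a1 a2 a3 a4 a5 a6
    have hN : N.card ≤ n := by simpa using card_le_univ N
    have hR : R.card ≤ n := by simpa using card_le_univ R
    have hC : C.card ≤ n := by simpa using card_le_univ C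
    have hd : d ≤ 2 * N.card := by omega
    by_cases hb : (2 + e) * lam n < d ∨ R.card < (1 - e) * lam n ∨ (1 + e) * lam n < R.card ∨
        C.card < (1 - e) * lam n ∨ (1 + e) * lam n < C.card
    · refine le_trans (mul_le_mul_of_nonneg_left ?_ (by positivity))
        (t1 d N.card R.card C.card hN hd a5 hR hC a4 hb)
      have := mcnt_ends (⟨0, hn⟩ : Fin n) N R C E
      rw [Fintype.card_fin] at this
      exact (Nat.cast_le.2 (card_filter_le _ _)).trans this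
    simp only [not_or, not_lt] at hb
    obtain ⟨b0, b1, b2, b3, b4⟩ := hb
    have hl : 0 ≤ lam n := div_nonneg (Nat.cast_nonneg _) (Real.log_natCast_nonneg _)
    have hv : (N.card : ℝ) ≤ (2 * k + 6) * (3 * lam n) + 4 := by
      have c1 : (N.card : ℝ) ≤ (2 * k + 6) * d + 4 := by exact_mod_cast a5
      have c2 : (d : ℝ) ≤ 3 * lam n := b0.trans (mul_le_mul_of_nonneg_right (by linarith only [he, he1]) hl)
      have c3 := mul_le_mul_of_nonneg_left c2 (by positivity : (0 : ℝ) ≤ 2 * k + 6)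
      linarith only [c1, c3]
    have r1 := t3 N.card R.card C.card hN hv b1 b2 b3 b4
    have r2 := t4 N.card R.card C.card (⌈1000 * e * n⌉₊ - N.card) hN hv b1 b2 b3 b4 (by
      refine (Nat.le_ceil _).trans ?_
      exact_mod_cast (by omega : ⌈1000 * e * n⌉₊ ≤ ⌈1000 * e * n⌉₊ - N.card + N.card))
    have r3 := t2 d N.card R.card C.card hN hd a5 hR hC a4
    have key : ∀ Z : Finset (Fin n → Fin n × Fin n), (∀ f ∈ Z, f ∈ ends ⟨0, hn⟩ N R C E ∧
        ¬ EnvR e (fun a b => (a, b) ∈ build N E f) R C ∧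
        (∀ q, q ∈ build N E f ∧ q ∈ N ×ˢ N ↔ q ∈ E) ∧
        ∀ x ∉ N, (f x).1 ∈ N ∧ (f x).2 ∈ N ∧ Lin (fun a b => (a, b) ∈ build N E f) x (f x)) →
        (Z.card : ℝ) ≤ 2 * Real.exp (-(n * (e ^ 2 / 5))) *
          ((R.card : ℝ) * C.card + N.card) ^ (n - N.card) := by
      intro Z hZ
      have := mcnt_split (⟨0, hn⟩ : Fin n) he he1 N R C E a6 (by rwa [Fintype.card_fin])
        (by rwa [Fintype.card_fin]) (by rwa [Fintype.card_fin]) (by rwa [Fintype.card_fin])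
        (by rwa [Fintype.card_fin]) (by rwa [Fintype.card_fin]) Z hZ
      rw [Fintype.card_fin] at this
      linarith only [r1, r2, this]
    refine (mul_le_mul_of_nonneg_left (key _ fun f hf => ?_) (by positivity)).trans ?_
    · obtain ⟨c1, c2, c3, c4⟩ := mem_filter.1 hf
      exact ⟨c1, fun h => (hp _).1 c2 ⟨R, C, h⟩, fun q => by rw [← mem_inter, c3], c4⟩
    · have h2 : (2 : ℝ) ≤ Real.exp (n * (e ^ 2 / 10)) := by
        refine two_le_exp.trans (Real.exp_le_exp.2 ?_)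
        rw [div_le_iff₀ (by positivity)] at t5
        linarith only [t5]
      rw [mul_left_comm]
      refine (mul_le_mul (mul_le_mul_of_nonneg_right h2 (Real.exp_pos _).le) r3 (by positivity)
        (by positivity)).trans ?_
      rw [← Real.exp_add, ← Real.exp_add]
      refine Real.exp_le_exp.2 ?_
      have : (0 : ℝ) ≤ n * e ^ 2 := by positivity
      linarith only [this]

end Pool.Agent.Work.MP_5391ad_co
end

-- merged part: Pool.Agent.Work.MP_5391ad_co.MTyp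
section
/-! The two statements of the structure side of stage A. -/

namespace Pool.Agent.Work.MP_5391ad_co

open Finset Filter
open scoped Classical

variable {α : Type*} [Fintype α] {B : α → α → Prop} {R C : Finset α} {m j N t : ℕ}

theorem Env.mono {D : α → α → Prop} (h : Env D R C m j N) {j' N' : ℕ} (h1 : j' ≤ j)
    (h2 : N' ≤ N) : Env D R C m j' N' :=
  ⟨h.defi, fun S a W b c d => h1.trans (h.few S a W b c d),
    fun S a W b c d => h2.trans (h.big S a W b c d)⟩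

theorem NDr.exists_typ (h : NDr B) (hd : ∀ a, B a a)
    (he : Env (dig B 1) R C m (j + R.card + 1) (N + R.card + 1)) (hm : 0 < m)
    (hj : R.card + C.card + 2 ≤ j) (h1 : R.card / 2 + 1 + m ≤ t) (h2 : C.card / 2 + 1 + m ≤ t)
    (h3 : t + 4 * m ≤ R.card) (h4 : t + 4 * m ≤ C.card) :
    ∃ π s, Frame B π s ∧ TypD (dig B π) s (R.map π.symm.toEmbedding) C m j N t := by
  have hb := noBlk_of_env hd he (by omega)
  obtain ⟨r, hr⟩ := h.fi.exists_root (τ := R.card / 2 - m) hb hm (by omega) (by omega) (by omega)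
  obtain ⟨s, hs⟩ := h.fi.rev.exists_root (τ := C.card / 2 - m) hb.rev hm (by omega) (by omega)
    (by omega)
  obtain ⟨π, rfl, hf⟩ := h.fi.exists_frame r s
  refine ⟨π, s, hf, gr_of_frame h hb hf hr hs (by omega) (by omega), env_frame hd hf he, hm,
    by rwa [card_map], fun z hz => ?_, fun z hz => ?_, by rwa [card_map], h4,
    by rw [card_map]; omega, by omega⟩
  · have := reg_row hr hz
    omega
  · have := reg_col (π := π) hs hz
    omega

theorem EnvR.env {e : ℝ} {D : α → α → Prop} (h : EnvR e D R C)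
    (h1 : 1 ≤ e * lam (Fintype.card α)) :
    Env D R C ⌈e * lam (Fintype.card α)⌉₊ ⌈10 * lam (Fintype.card α)⌉₊
      ⌈(1 - 1000 * e) * Fintype.card α⌉₊ := by
  have a1 := Nat.le_ceil (e * lam (Fintype.card α))
  have a2 := Nat.ceil_lt_add_one (show 0 ≤ e * lam (Fintype.card α) by linarith)
  refine ⟨?_, fun S a W b c d => Nat.ceil_le.2 (h.few S a W b (Nat.ceil_le.1 c)
    (Nat.ceil_le.1 d)), fun S a W b c d => Nat.ceil_le.2 (h.big S a W b ?_ ?_)⟩
  · have := h.defi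
    have := h.loR
    have := h.loC
    rify
    linarith
  · rify at c
    linarith only [h1, a2, c]
  · rify at d
    linarith only [h1, a2, d]

theorem tendsto_lam : Tendsto lam atTop atTop := by
  have h := (Real.isLittleO_log_id_atTop.tendsto_div_nhds_zero).comp
    (tendsto_natCast_atTop_atTop (R := ℝ))
  have h2 : Tendsto (fun n : ℕ => Real.log n / n) atTop (nhdsWithin 0 (Set.Ioi 0)) := by
    refine tendsto_nhdsWithin_iff.2 ⟨h, ?_⟩
    filter_upwards [eventually_gt_atTop 1] with n hn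
    have : (1 : ℝ) < n := by exact_mod_cast hn
    exact div_pos (Real.log_pos this) (by linarith only [this])
  refine (tendsto_inv_nhdsGT_zero.comp h2).congr fun n => ?_
  simp [lam]

theorem lam_le {c : ℝ} (hc : 0 < c) : ∀ᶠ n : ℕ in atTop, lam n ≤ c * n := by
  filter_upwards [(Real.tendsto_log_atTop.comp
    (tendsto_natCast_atTop_atTop (R := ℝ))).eventually_ge_atTop c⁻¹] with n hn
  have h1 : c⁻¹ ≤ Real.log n := hn
  rw [lam, div_le_iff₀ (lt_of_lt_of_le (by positivity) h1)]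
  have := mul_le_mul_of_nonneg_left h1 (show 0 ≤ c * n by positivity)
  rwa [mul_right_comm, mul_inv_cancel₀ hc.ne', one_mul] at this

theorem NDr.exists_diag (h : NDr B) (s : α) : ∃ σ : Equiv.Perm α, ∀ j, B (σ j) j := by
  obtain ⟨r, hr⟩ : ∃ r, B r s := by
    by_contra! k
    simpa using h.fi.rev.le (S := {s}) (Y := ∅) fun a ha b e =>
      (k b (mem_singleton.1 ha ▸ e)).elim
  obtain ⟨σ, rfl, hf⟩ := h.fi.exists_frame r s
  exact ⟨σ, fun j => if e : j = s then e ▸ hr else hf j e⟩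

theorem NDr.good {n : ℕ} (hn : 2 ≤ n) {B : Fin n → Fin n → Prop} (h : NDr B) (hd : ∀ a, B a a) :
    Good (dig B 1) := by
  have := good_of_nearly hn (A := fun a b => decide (B a b))
    ((nearly_iff_ndr hn).2 (by simpa using h)) (by simpa using hd)
  simpa [show dig B 1 = fun a b => a ≠ b ∧ B a b from rfl] using this

/-- matrices with a typical environment in some frame -/
def TypM (e : ℝ) (A : α → α → Prop) : Prop :=
  ∃ σ : Equiv.Perm α, (∀ j, A (σ j) j) ∧ ∃ R C, EnvR e (dig A σ) R C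

theorem card_not_typM {e : ℝ} (he : 0 < e) (he1 : e ≤ 1 / 100) : ∀ᶠ n : ℕ in atTop,
    ((univ.filter fun A : Fin n → Fin n → Prop => NDr A ∧ ¬ TypM e A).card : ℝ) ≤
      n.factorial * ((2 * n + 1) ^ 3 * Real.exp (n * (2 * Real.log n -
        2 * Real.log (Real.log n) - 2 - e ^ 2 / 20))) := by
  filter_upwards [card_bad he he1, eventually_ge_atTop 2] with n h hn
  refine le_trans ?_ (mul_le_mul_of_nonneg_left h (Nat.cast_nonneg _))
  have : (univ.filter fun A : Fin n → Fin n → Prop => NDr A ∧ ¬ TypM e A) ⊆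
      ((univ : Finset (Equiv.Perm (Fin n))) ×ˢ (goods n).filter fun E =>
        ¬ ∃ R C, EnvR e (fun a b => (a, b) ∈ E) R C).image fun p i j =>
        p.1.symm i = j ∨ (p.1.symm i, j) ∈ p.2 := by
    intro A hA
    obtain ⟨h1, h2⟩ := (mem_filter.1 hA).2
    obtain ⟨σ, hσ⟩ := h1.exists_diag ⟨0, by omega⟩
    have e1 : (fun a b => (a, b) ∈ arcs (dig A σ)) = dig A σ := by
      funext a b; simp [arcs]
    refine mem_image.2 ⟨(σ, arcs (dig A σ)), mem_product.2 ⟨mem_univ _, mem_filter.2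
      ⟨mem_filter.2 ⟨mem_univ _, ?_⟩, ?_⟩⟩, ?_⟩
    · rw [e1]
      exact (h1.perm σ).good hn hσ
    · rw [e1]
      exact fun k => h2 ⟨σ, hσ, k⟩
    · funext i j
      obtain ⟨i, rfl⟩ := σ.surjective i
      by_cases k : i = j
      · simp [k, hσ]
      · simp [k, arcs, dig]
  have h2 := (card_le_card this).trans card_image_le
  rw [card_product, card_univ, Fintype.card_perm, Fintype.card_fin] at h2
  exact_mod_cast h2

theorem TypM.typRed {ε : ℝ} (hε : 0 < ε) : ∀ᶠ n : ℕ in atTop, ∀ A : Fin n → Fin n → Prop,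
    NDr A → TypM (min ε 1 / 2000) A →
      ∃ ρ s, Frame A ρ s ∧ TypRed ε s (fun _ _ => True) (dig A ρ) := by
  have e0 : 0 < min ε 1 := lt_min hε one_pos
  have e1 : min ε 1 ≤ ε := min_le_left _ _
  have e2 : min ε 1 ≤ 1 := min_le_right _ _
  generalize min ε 1 = δ at *
  filter_upwards [tendsto_lam.eventually_ge_atTop (2000 / δ),
    lam_le (show 0 < δ / 10 by positivity)] with n a1 a2 A hA ⟨σ, hσ, R, C, h⟩
  rw [div_le_iff₀ e0] at a1
  have hn : (0 : ℝ) ≤ n := Nat.cast_nonneg n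
  have a0 : 0 ≤ lam n := by
    by_contra! k
    linarith only [a1, e0, k, mul_pos_of_neg_of_neg (Mathlib.Tactic.Linarith.sub_neg_of_lt e0) (Mathlib.Tactic.Linarith.sub_neg_of_lt k)]
  have a4 : δ * lam n ≤ lam n := mul_le_of_le_one_left a0 e2
  have a5 : δ * lam n ≤ ε * lam n := by gcongr
  have hE := h.env (by rw [Fintype.card_fin]; linarith only [a1])
  obtain ⟨b1, b2, b3, b4, -⟩ := h
  simp only [Fintype.card_fin] at hE b1 b2 b3 b4
  have c1 := Nat.ceil_lt_add_one (show 0 ≤ δ / 2000 * lam n by positivity)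
  have c2 := Nat.le_ceil (10 * lam n)
  have c3 := Nat.le_ceil ((1 - 1000 * (δ / 2000)) * n)
  have c4 : (⌈(1 - ε) * n⌉₊ : ℝ) ≤ (1 - δ) * n + 1 :=
    (Nat.cast_le.2 (Nat.ceil_mono (by gcongr))).trans
      (Nat.ceil_lt_add_one (mul_nonneg (by linarith only [e2]) hn)).le
  have c5 : 0 < ⌈δ / 2000 * lam n⌉₊ := Nat.ceil_pos.2 (by linarith only [a1])
  generalize ⌈δ / 2000 * lam n⌉₊ = m at *
  have d1 : ((max (R.card / 2) (C.card / 2) : ℕ) : ℝ) ≤ (1 + δ / 2000) * lam n / 2 := by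
    rw [Nat.cast_max]
    exact max_le (Nat.cast_div_le.trans (by push_cast; linarith only [b2]))
      (Nat.cast_div_le.trans (by push_cast; linarith only [b4]))
  have d2 := le_max_left (R.card / 2) (C.card / 2)
  have d3 := le_max_right (R.card / 2) (C.card / 2)
  generalize max (R.card / 2) (C.card / 2) = x at *
  obtain ⟨π, s, hf, ht⟩ := (hA.perm σ).exists_typ (R := R) (C := C) (m := m)
    (j := R.card + C.card + 2) (N := ⌈(1 - ε) * n⌉₊ + 1) (t := x + 1 + m) hσ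
    (Env.mono hE (by rify; linarith only [a1, a4, b2, b4, c2]) (by rify; linarith only [a1, a2, a4, b2, c3, c4])) c5 le_rfl (by omega) (by omega)
    (by rify; linarith only [a1, a4, b1, c1, d1]) (by rify; linarith only [a1, a4, b3, c1, d1])
  obtain ⟨p⟩ := ht.gr.ph
  refine ⟨σ * π, s, hf, p.red3 ht (Nat.le_floor ?_) (Nat.le_floor ?_) (by simp) trivial⟩
  · rw [Fintype.card_fin, mul_div_assoc, ← lam]
    push_cast
    linarith only [a1, a5, c1]
  · rw [Fintype.card_fin, mul_div_assoc, ← lam]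
    push_cast
    linarith only [a1, a5, c1, d1]

theorem card_frame_le [DecidableEq α] (s : α) (p : (α → α → Prop) → Prop) :
    (univ.filter fun A : α → α → Prop => ∃ ρ, Frame A ρ s ∧ p (dig A ρ)).card ≤
      2 * (Fintype.card α).factorial * (univ.filter p).card := by
  have : (univ.filter fun A : α → α → Prop => ∃ ρ, Frame A ρ s ∧ p (dig A ρ)) ⊆
      (((univ : Finset Bool) ×ˢ (univ : Finset (Equiv.Perm α))) ×ˢ univ.filter p).image
        fun q i j => if q.1.2.symm i = j then j ≠ s ∨ q.1.1 = true else q.2 (q.1.2.symm i) j := by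
    intro A hA
    obtain ⟨ρ, h1, h2⟩ := (mem_filter.1 hA).2
    refine mem_image.2 ⟨((decide (A (ρ s) s), ρ), dig A ρ), mem_product.2
      ⟨mem_product.2 ⟨mem_univ _, mem_univ _⟩, mem_filter.2 ⟨mem_univ _, h2⟩⟩, ?_⟩
    funext i j
    obtain ⟨i, rfl⟩ := ρ.surjective i
    by_cases k : i = j
    · by_cases k' : j = s
      · simp [k, k']
      · simp [k, k', h1 j k']
    · simp [k, dig]
  refine (card_le_card this).trans (card_image_le.trans (le_of_eq ?_))
  rw [card_product, card_product, card_univ, card_univ, Fintype.card_perm, Fintype.card_bool]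

theorem numND_le_typ {ε : ℝ} (hε : 0 < ε) : ∀ᶠ n : ℕ in atTop, ∃ s : Fin n,
    (numND n : ℝ) ≤ 4 * (n : ℝ) ^ 2 * n.factorial *
      (univ.filter (TypRed ε s fun _ _ => True)).card := by
  have e0 : 0 < min ε 1 / 2000 := div_pos (lt_min hε one_pos) (by norm_num)
  filter_upwards [TypM.typRed hε, card_not_typM e0 (by linarith only [min_le_right ε 1]),
    small_le_numND (show 0 < (min ε 1 / 2000) ^ 2 / 20 by positivity),
    eventually_ge_atTop 2] with n h1 h2 h3 hn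
  obtain ⟨s, -, hs⟩ := exists_max_image (univ : Finset (Fin n))
    (fun s => (univ.filter (TypRed ε s fun _ _ => True)).card) ⟨⟨0, by omega⟩, mem_univ _⟩
  refine ⟨s, ?_⟩
  have a1 : (univ.filter fun A : Fin n → Fin n → Prop => NDr A).card = numND n := by
    have k := card_ndr (α := Fin n) (by simpa using hn)
    rw [Fintype.card_fin] at k
    rw [← k]
    exact congrArg Finset.card (Finset.ext fun A => by simp only [mem_filter, mem_univ])
  have a2 : (univ.filter fun A : Fin n → Fin n → Prop => NDr A) ⊆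
      (univ.filter fun A : Fin n → Fin n → Prop => NDr A ∧ ¬ TypM (min ε 1 / 2000) A) ∪
        univ.biUnion fun s : Fin n => univ.filter fun A =>
          ∃ ρ, Frame A ρ s ∧ TypRed ε s (fun _ _ => True) (dig A ρ) := by
    intro A hA
    have k := (mem_filter.1 hA).2
    by_cases k' : TypM (min ε 1 / 2000) A
    · obtain ⟨ρ, s, k1⟩ := h1 A k k'
      exact mem_union_right _ (mem_biUnion.2 ⟨s, mem_univ _, mem_filter.2 ⟨mem_univ _, ρ, k1⟩⟩)
    · exact mem_union_left _ (mem_filter.2 ⟨mem_univ _, k, k'⟩)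
  have a3 := (card_le_card a2).trans ((card_union_le _ _).trans (Nat.add_le_add_left
    (card_biUnion_le_card_mul _ _ (2 * (Fintype.card (Fin n)).factorial *
      (univ.filter (TypRed ε s fun _ _ => True)).card) fun s' _ =>
      (card_frame_le s' (TypRed ε s' fun _ _ => True)).trans
        (Nat.mul_le_mul_left _ (hs s' (mem_univ _)))) _))
  rw [a1, card_univ, Fintype.card_fin] at a3
  rify at a3 hn
  generalize ((univ.filter (TypRed ε s fun _ _ => True)).card : ℝ) = X at a3 ⊢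
  have a4 : (numND n : ℝ) ≤ 4 * n * (n.factorial * X) := by linarith only [h2, h3, a3]
  have a5 : 0 ≤ n * (n.factorial * X) := by linarith only [h2, h3, a3, Nat.cast_nonneg (α := ℝ) (numND n)]
  linarith only [hn, h2, h3, a3, mul_nonneg_of_nonpos_of_nonpos (Mathlib.Tactic.Linarith.sub_nonpos_of_le (Mathlib.Tactic.Linarith.natCast_nonneg ℝ (numND n))) (Mathlib.Tactic.Linarith.sub_nonpos_of_le (Mathlib.Tactic.Linarith.natCast_nonneg ℝ n)), mul_nonneg_of_nonpos_of_nonpos (Mathlib.Tactic.Linarith.sub_nonpos_of_le (Mathlib.Tactic.Linarith.natCast_nonneg ℝ (numND n))) (Mathlib.Tactic.Linarith.sub_nonpos_of_le hn), mul_nonneg_of_nonpos_of_nonpos (Mathlib.Tactic.Linarith.sub_nonpos_of_le (Mathlib.Tactic.Linarith.natCast_nonneg ℝ n)) (Mathlib.Tactic.Linarith.sub_nonpos_of_le h2), mul_nonneg_of_nonpos_of_nonpos (Mathlib.Tactic.Linarith.sub_nonpos_of_le (Mathlib.Tactic.Linarith.natCast_nonneg ℝ n)) (Mathlib.Tactic.Linarith.sub_nonpos_of_le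 h3), mul_nonneg_of_nonpos_of_nonpos (Mathlib.Tactic.Linarith.sub_nonpos_of_le (Mathlib.Tactic.Linarith.natCast_nonneg ℝ n)) (Mathlib.Tactic.Linarith.sub_nonpos_of_le a3)]

theorem numDag_le_numND {n : ℕ} (hn : 1 ≤ n) : n.factorial * numDag n ≤ numND (n + 1) :=
  numDag_le_card hn

end Pool.Agent.Work.MP_5391ad_co
end

-- merged part: Pool.Agent.Work.MP_5391ad_co.SGood
section
/-! Matrices with an acyclic frame have many roots.
`a0_map`: walks, `RN`, `Br`, `rtree` transfer along `f` (all arcs lie in the image of `W'`).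
`cWt_eq`: as `card_dags`. `rtree_anc`, `rtree_total`: ancestors of a tree vertex have in-degree at
most one, so they are linearly ordered (induction from the end of the walk).
`Tri.move`: for a source `v` in the tree put `π' = π * swap s v` and
`Δ' u w := (u = v ∧ w ≠ v ∧ w ∈ W ∧ ∀ x, ¬ Δ x w) ∨ (u ≠ v ∧ Δ u w)`. The sources of `Δ'` are `v`
and its children (in-degree one since `v ∈ RN`). `v` is not a sink of `Δ`, and not of `Δ'`: the row
`π s` has at least two ones (`FIr`, entry zero), so `Δ` has a second source. Give `v` rank zero.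
A descendant `u ≠ v` of `v` in the tree stays in the tree and its ancestors in `Δ'` are ancestors
in `Δ` other than `v` (two different sources are not both ancestors). Let `y` have in-degree at
least two and lie in `rtree W (rv Δ)`. Its descendants are not sources, so differ from `v` and are
not children of `v` (such a child has the only in-neighbour `v` and is not `y`); the arcs at them,
and the arcs out of their in-neighbours, do not change.
`Tri.row`: induction on the number of ancestors. `Tri.tr`: transpose. `Tri.card_Rt`: for each of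
the `a0` rows `r` from `Tri.row` transpose, apply `Tri.row` again (`FIr.rev`, `a0_map`) and
transpose back. `card_good0`: the triples of `A` map onto `Rt A`, so each has weight at least
`1 / (number of triples)`; a triple determines `A`; `cWt_eq`. -/

namespace Pool.Agent.Work.MP_5391ad_co

open Finset
open scoped Classical

variable {α : Type*} {W : Finset α} {Δ : α → α → Prop}

theorem sgood_inv (π : Equiv.Perm α) (a : α) : π⁻¹ (π a) = a := π.symm_apply_apply a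

theorem sgood_rn {u : α} : u ∈ RN W Δ ↔ u ∈ W ∧ ∀ v, Δ u v → ¬ Br Δ v := mem_filter

theorem sgood_rt {v : α} : v ∈ rtree W Δ ↔
    v ∈ W ∧ ∀ u, Relation.ReflTransGen Δ u v → u ∈ RN W Δ ∧ ¬ Br Δ u ∧ ∃ w, Δ u w := mem_filter

theorem sgood_br {β : Type*} {f : β → α} (hf : Function.Injective f)
    (hm : ∀ a b, Δ a b → ∃ i, f i = a) (i : β) :
    Br (fun i j => Δ (f i) (f j)) i ↔ Br Δ (f i) := by
  refine ⟨fun ⟨a, b, k, k1, k2⟩ => ⟨f a, f b, hf.ne k, k1, k2⟩, fun ⟨a, b, k, k1, k2⟩ => ?_⟩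
  obtain ⟨a, rfl⟩ := hm _ _ k1
  obtain ⟨b, rfl⟩ := hm _ _ k2
  exact ⟨a, b, fun e => k (congrArg f e), k1, k2⟩

theorem sgood_dag {β : Type*} {f : β → α} (hf : Function.Injective f) {W' : Finset β}
    (hW : ∀ i, f i ∈ W → i ∈ W') (h : IsDag W Δ) : IsDag W' fun i j => Δ (f i) (f j) := by
  obtain ⟨rk, hrk⟩ := h.acyc
  exact ⟨fun _ _ k => (h.mem _ _ k).imp (hW _) (hW _), ⟨rk ∘ f, fun a b k1 => hrk _ _ k1⟩,
    fun u v k1 => (h.rule _ _ k1).imp (fun k2 w k3 => hf (k2 _ k3)) fun k2 w k3 => hf (k2 _ k3)⟩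

theorem a0_map {β : Type*} {f : β → α} (hf : Function.Injective f) {W' : Finset β}
    (hW : ∀ a, a ∈ W ↔ ∃ i ∈ W', f i = a) (h : IsDag W Δ) :
    a0 W' (fun i j => Δ (f i) (f j)) = a0 W Δ := by
  have m1 : ∀ a b, Δ a b → ∃ i, f i = a := fun a b k =>
    ((hW a).1 (h.mem a b k).1).imp fun _ k => k.2
  have m2 : ∀ a b, Δ a b → ∃ i, f i = b := fun a b k =>
    ((hW b).1 (h.mem a b k).2).imp fun _ k => k.2
  have w : ∀ i, i ∈ W' ↔ f i ∈ W := fun i =>
    ⟨fun k => (hW _).2 ⟨i, k, rfl⟩, fun k => by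
      obtain ⟨j, k1, k2⟩ := (hW _).1 k
      exact hf k2 ▸ k1⟩
  have b1 := sgood_br hf m1
  have b2 := sgood_br (Δ := rv Δ) hf fun a b k => m2 b a k
  have rn : ∀ i, i ∈ RN W' (fun i j => Δ (f i) (f j)) ↔ f i ∈ RN W Δ := fun i => by
    rw [sgood_rn, sgood_rn, w]
    refine and_congr_right fun _ => ⟨fun k v hv => ?_, fun k j hj => (b1 j).not.2 (k _ hj)⟩
    obtain ⟨j, rfl⟩ := m2 _ _ hv
    exact (b1 j).not.1 (k j hv)
  have lc : ∀ i, (i ∈ RN W' (fun i j => Δ (f i) (f j)) ∧ ¬ Br (fun i j => Δ (f i) (f j)) i ∧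
      ∃ j, Δ (f i) (f j)) ↔ f i ∈ RN W Δ ∧ ¬ Br Δ (f i) ∧ ∃ w, Δ (f i) w := fun i => by
    refine and_congr (rn i) (and_congr (b1 i).not ⟨fun ⟨j, k⟩ => ⟨_, k⟩, fun ⟨v, k⟩ => ?_⟩)
    obtain ⟨j, rfl⟩ := m2 _ _ k
    exact ⟨j, k⟩
  have rt : ∀ i, i ∈ rtree W' (fun i j => Δ (f i) (f j)) ↔ f i ∈ rtree W Δ := fun i => by
    rw [sgood_rt, sgood_rt, w]
    refine and_congr_right fun _ => ⟨fun k u hu => ?_, fun k j hj =>
      (lc j).2 (k _ (Relation.ReflTransGen.lift f (fun _ _ k => k) _ _ hj))⟩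
    have : ∃ j, f j = u ∧ Relation.ReflTransGen (fun i j => Δ (f i) (f j)) j i := by
      induction hu using Relation.ReflTransGen.head_induction_on with
      | refl => exact ⟨i, rfl, .refl⟩
      | head k1 _ ih =>
        obtain ⟨j, rfl, k2⟩ := ih
        obtain ⟨j', rfl⟩ := m1 _ _ k1
        exact ⟨j', rfl, k2.head k1⟩
    obtain ⟨j, rfl, k2⟩ := this
    exact (lc j).1 (k j k2)
  refine congrArg (1 + ·) (card_bij (fun i _ => f i) (fun i hi => ?_) (fun i _ j _ k => hf k)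
    fun a ha => ?_)
  · exact mem_filter.2 ⟨(rt i).1 (mem_filter.1 hi).1, (b2 i).1 (mem_filter.1 hi).2⟩
  · obtain ⟨i, -, rfl⟩ := (hW a).1 (sgood_rt.1 (mem_filter.1 ha).1).1
    exact ⟨i, mem_filter.2 ⟨(rt i).2 (mem_filter.1 ha).1, (b2 i).2 (mem_filter.1 ha).2⟩, rfl⟩

theorem rtree_anc {u v : α} (hv : v ∈ rtree W Δ) (k : Relation.ReflTransGen Δ u v) :
    u ∈ rtree W Δ :=
  sgood_rt.2 ⟨(sgood_rn.1 ((sgood_rt.1 hv).2 u k).1).1, fun x hx => (sgood_rt.1 hv).2 x (hx.trans k)⟩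

theorem rtree_total {a b v : α} (hv : v ∈ rtree W Δ) (ha : Relation.ReflTransGen Δ a v)
    (hb : Relation.ReflTransGen Δ b v) :
    Relation.ReflTransGen Δ a b ∨ Relation.ReflTransGen Δ b a := by
  induction ha with
  | refl => exact Or.inr hb
  | @tail c v k1 k2 ih =>
    rcases hb.cases_tail with rfl | ⟨c', k3, k4⟩
    · exact Or.inl (k1.tail k2)
    · have : c' = c := by
        by_contra k
        exact ((sgood_rt.1 hv).2 v .refl).2.1 ⟨c', c, k, k4, k2⟩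
      exact ih (rtree_anc hv (.single k2)) (this ▸ k3)

theorem rtree_le (h : IsDag W Δ) : (rtree W Δ).card + 1 ≤ a0 W Δ + nlink W Δ := by
  have _ := h
  have : rtree W Δ ⊆ (rtree W Δ).filter (Br (rv Δ)) ∪
      W.filter fun u => ∃ v, (∀ w, Δ u w ↔ w = v) ∧ ∀ w, Δ w v ↔ w = u := fun u hu => by
    by_cases k : Br (rv Δ) u
    · exact mem_union_left _ (mem_filter.2 ⟨hu, k⟩)
    obtain ⟨k1, -, v, k2⟩ := (sgood_rt.1 hu).2 u .refl
    refine mem_union_right _ (mem_filter.2 ⟨(sgood_rt.1 hu).1, v, fun w => ⟨fun k3 => ?_, ?_⟩,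
      fun w => ⟨fun k3 => ?_, ?_⟩⟩)
    · by_contra k4
      exact k ⟨w, v, k4, k3, k2⟩
    · rintro rfl
      exact k2
    · by_contra k4
      exact (sgood_rn.1 k1).2 v k2 ⟨w, u, k4, k3, k2⟩
    · rintro rfl
      exact k2
  have := (card_le_card this).trans (card_union_le _ _)
  unfold a0 nlink
  omega

variable [Fintype α] {A : α → α → Prop} {π : Equiv.Perm α} {s : α}

theorem cWt_eq (W : Finset α) : cWt W = cN W.card := by
  obtain ⟨f, f1, f2⟩ : ∃ f : Fin W.card → α, Function.Injective f ∧ ∀ a, a ∈ W ↔ ∃ i, f i = a :=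
    ⟨fun i => W.equivFin.symm i, fun i j k => W.equivFin.symm.injective (Subtype.ext k),
      fun a => ⟨fun k => ⟨W.equivFin ⟨a, k⟩, by simp⟩, fun ⟨i, k⟩ => k ▸ (W.equivFin.symm i).2⟩⟩
  have f3 : ∀ a, a ∈ W ↔ ∃ i ∈ (univ : Finset (Fin W.card)), f i = a := fun a => by simp [f2]
  have e : ∀ (E : Fin W.card → Fin W.card → Prop) i j, Relation.Map E f f (f i) (f j) ↔ E i j :=
    fun E i j => Relation.map_apply_apply f1 f1 E i j
  refine sum_nbij' (fun Δ i j => Δ (f i) (f j)) (fun E => Relation.Map E f f) (fun Δ k => ?_)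
    (fun E k => ?_) (fun Δ k => ?_) (fun E _ => funext₂ fun i j => propext (e E i j)) fun Δ k => ?_
  · exact qdag_mem_dags.2 (sgood_dag f1 (fun _ _ => mem_univ _) (qdag_mem_dags.1 k))
  · have h := qdag_mem_dags.1 k
    obtain ⟨rk, hrk⟩ := h.acyc
    refine qdag_mem_dags.2 ⟨?_, ⟨Function.extend f rk 0, ?_⟩, ?_⟩
    · rintro _ _ ⟨i, j, -, rfl, rfl⟩
      exact ⟨(f2 _).2 ⟨i, rfl⟩, (f2 _).2 ⟨j, rfl⟩⟩
    · rintro _ _ ⟨i, j, k1, rfl, rfl⟩
      rw [f1.extend_apply, f1.extend_apply]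
      exact hrk _ _ k1
    · rintro _ _ ⟨i, j, k1, rfl, rfl⟩
      refine (h.rule i j k1).imp (fun k2 => ?_) fun k2 => ?_
      · rintro _ ⟨i', j', k3, k4, rfl⟩
        rw [k2 j' (f1 k4 ▸ k3)]
      · rintro _ ⟨i', j', k3, rfl, k4⟩
        rw [k2 i' (f1 k4 ▸ k3)]
  · have h := qdag_mem_dags.1 k
    refine funext₂ fun a b => propext ⟨?_, fun k1 => ?_⟩
    · rintro ⟨i, j, k1, rfl, rfl⟩
      exact k1
    · obtain ⟨i, rfl⟩ := (f2 a).1 (h.mem _ _ k1).1
      obtain ⟨j, rfl⟩ := (f2 b).1 (h.mem _ _ k1).2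
      exact ⟨i, j, k1, rfl, rfl⟩
  · have h := qdag_mem_dags.1 k
    rw [← a0_map f1 f3 h, ← a0_map f1 f3 h.rev]
    rfl

theorem cN_nonneg (N : ℕ) : 0 ≤ cN N :=
  sum_nonneg fun _ _ => by positivity

theorem sgood_row0 (h : IsDag (univ.erase s) Δ) {b : α} :
    matV univ (rootD s (univ.erase s) Δ) s s b ↔ b ≠ s ∧ ∀ w, ¬ Δ w b := by
  have : ¬ Δ s b := fun k => ne_of_mem_erase (h.mem _ _ k).1 rfl
  simp [matV, rootD, this]

theorem sgood_row1 {a b : α} (ha : a ≠ s) : matV univ (rootD s (univ.erase s) Δ) s a b ↔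
    Δ a b ∨ (b = s ∧ ∀ w, ¬ Δ a w) ∨ a = b := by
  simp [matV, rootD, ha, or_assoc]

theorem Tri.move (hA : FIr A) (h : Tri A π s Δ) {v : α} (hv : v ∈ rtree (univ.erase s) Δ)
    (h0 : ∀ u, ¬ Δ u v) : ∃ Δ', Tri A (π * Equiv.swap s v) s Δ' ∧
      a0 (univ.erase s) (rv Δ) ≤ a0 (univ.erase s) (rv Δ') ∧
      ∀ u ∈ rtree (univ.erase s) Δ, Relation.ReflTransGen Δ v u → u ≠ v →
        u ∈ rtree (univ.erase s) Δ' ∧
        ∀ a, Relation.ReflTransGen Δ' a u → Relation.ReflTransGen Δ a u ∧ a ≠ v := by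
  obtain ⟨hd, hm⟩ := h
  obtain ⟨hW, hv'⟩ := sgood_rt.1 hv
  obtain ⟨v1, -, c, v3⟩ := hv' v .refl
  have hvs : v ≠ s := ne_of_mem_erase hW
  have v2 := (sgood_rn.1 v1).2
  obtain ⟨Δ', e1, e2⟩ : ∃ Δ' : α → α → Prop,
      (∀ w, Δ' v w ↔ w ≠ v ∧ w ≠ s ∧ ∀ x, ¬ Δ x w) ∧ ∀ u, u ≠ v → ∀ w, Δ' u w ↔ Δ u w :=
    ⟨fun u w => (u = v ∧ w ≠ v ∧ w ≠ s ∧ ∀ x, ¬ Δ x w) ∨ (u ≠ v ∧ Δ u w), by simp,
      fun u hu => by simp [hu]⟩
  have i1 : ∀ u w x, Δ' u w → Δ x w → u ≠ v := by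
    rintro u w x k k1 rfl
    exact ((e1 w).1 k).2.2 x k1
  have i2 : ∀ u w x, Δ' u w → Δ x w → Δ u w := fun u w x k k1 => (e2 u (i1 u w x k k1) w).1 k
  have i3 : ∀ u, ¬ Δ' u v := fun u k => by
    by_cases hu : u = v
    · exact ((e1 v).1 (hu ▸ k)).1 rfl
    · exact h0 u ((e2 u hu v).1 k)
  have br : ∀ x, Br Δ' x → Br Δ x := by
    rintro x ⟨p, q, k, k1, k2⟩
    by_cases hp : p = v
    · have hq : q ≠ v := fun e => k (hp.trans e.symm)
      exact absurd hp (i1 p x q k1 ((e2 q hq x).1 k2))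
    · have k3 := (e2 p hp x).1 k1
      exact ⟨p, q, k, k3, i2 q x p k2 k3⟩
  have hd' : IsDag (univ.erase s) Δ' := by
    obtain ⟨rk, hrk⟩ := hd.acyc
    refine ⟨fun a b k => ?_, ⟨fun a => if a = v then 0 else rk a + 1, fun a b k => ?_⟩,
      fun a b k => ?_⟩
    · by_cases ha : a = v
      · exact ⟨ha ▸ hW, mem_erase.2 ⟨((e1 b).1 (ha ▸ k)).2.1, mem_univ _⟩⟩
      · exact hd.mem a b ((e2 a ha b).1 k)
    · have hb : b ≠ v := fun e => i3 a (e ▸ k)
      by_cases ha : a = v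
      · simp [ha, hb]
      · simpa [ha, hb] using hrk a b ((e2 a ha b).1 k)
    · by_cases ha : a = v
      · refine Or.inr fun w k1 => ?_
        by_contra hw
        exact ((e1 b).1 (ha ▸ k)).2.2 w ((e2 w (ha ▸ hw) b).1 k1)
      · have k1 := (e2 a ha b).1 k
        exact (hd.rule a b k1).imp (fun k2 w k3 => k2 w ((e2 a ha w).1 k3))
          fun k2 w k3 => k2 w (i2 w b a k3 k1)
  have out : ∃ w, Δ' v w := by
    by_contra k
    have := hA {π s} {v} (fun a ha b k1 => by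
      rw [mem_singleton.1 ha, hm, sgood_row0 hd] at k1
      by_contra hb
      exact k ⟨b, (e1 b).2 ⟨fun e => hb (mem_singleton.2 e), k1⟩⟩) (singleton_nonempty _)
      fun e => hvs (mem_singleton.1 (e ▸ mem_univ s : s ∈ ({v} : Finset α))).symm
    simp at this
  refine ⟨Δ', ⟨hd', fun a b => ?_⟩, ?_, fun u hu k hne => ?_⟩
  · rw [Equiv.Perm.mul_apply, hm]
    by_cases ha : a = s
    · rw [ha, Equiv.swap_apply_left, sgood_row1 hvs, sgood_row0 hd']
      constructor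
      · rintro (k | ⟨-, k⟩ | rfl)
        · refine ⟨ne_of_mem_erase (hd.mem _ _ k).2, fun w k1 => ?_⟩
          exact v2 b k ⟨w, v, i1 w b v k1 k, i2 w b v k1 k, k⟩
        · exact absurd v3 (k c)
        · exact ⟨hvs, i3⟩
      · rintro ⟨k1, k2⟩
        by_cases hb : v = b
        · exact Or.inr (Or.inr hb)
        refine Or.inl ?_
        by_contra k3
        refine k2 v ((e1 b).2 ⟨Ne.symm hb, k1, fun x k4 => k2 x ((e2 x ?_ b).2 k4)⟩)
        rintro rfl
        exact k3 k4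
    by_cases hav : a = v
    · rw [hav, Equiv.swap_apply_right, sgood_row1 hvs, sgood_row0 hd, e1]
      constructor
      · intro k
        by_cases hb : v = b
        · exact Or.inr (Or.inr hb)
        · exact Or.inl ⟨Ne.symm hb, k⟩
      · rintro (k | ⟨-, k⟩ | rfl)
        · exact k.2
        · exact absurd out (not_exists.2 k)
        · exact ⟨hvs, h0⟩
    · rw [Equiv.swap_apply_of_ne_of_ne ha hav, sgood_row1 ha, sgood_row1 ha]
      simp only [e2 a hav]
  · refine Nat.add_le_add_left (card_le_card fun y hy => ?_) 1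
    obtain ⟨hy, p, q, hpq, hp, hq⟩ := mem_filter.1 hy
    obtain ⟨y1, y2⟩ := sgood_rt.1 hy
    have d1 : ∀ u, Relation.ReflTransGen (rv Δ) u y → u ≠ v := by
      rintro u k rfl
      obtain ⟨w, k1⟩ := (y2 u k).2.2
      exact h0 w k1
    have d2 : ∀ u, Relation.ReflTransGen (rv Δ) u y → ∀ x, Δ x u → x ≠ v := by
      rintro u k x k1 rfl
      rcases k.cases_head with rfl | ⟨z, k2, k3⟩
      · exact v2 u k1 ⟨p, q, hpq, hp, hq⟩
      · exact v2 u k1 ⟨z, x, d1 z k3, k2, k1⟩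
    have d3 : ∀ u, Relation.ReflTransGen (rv Δ') u y → Relation.ReflTransGen (rv Δ) u y := by
      intro u k
      induction k using Relation.ReflTransGen.head_induction_on with
      | refl => exact .refl
      | head k1 _ ih => exact ih.head ((e2 _ (d1 _ ih) _).1 k1)
    have d4 : ∀ x, x ≠ v → Br (rv Δ') x → Br (rv Δ) x := fun x hx ⟨a, b, k, k1, k2⟩ =>
      ⟨a, b, k, (e2 x hx a).1 k1, (e2 x hx b).1 k2⟩
    refine mem_filter.2 ⟨sgood_rt.2 ⟨y1, fun u k => ?_⟩, p, q, hpq,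
      (e2 p (d2 y .refl p hp) y).2 hp, (e2 q (d2 y .refl q hq) y).2 hq⟩
    have k1 := d3 u k
    obtain ⟨k2, k3, w, k4⟩ := y2 u k1
    refine ⟨sgood_rn.2 ⟨(sgood_rn.1 k2).1, fun x k5 k6 => ?_⟩, fun k5 => k3 (d4 u (d1 u k1) k5),
      w, (e2 w (d2 u k1 w k4) u).2 k4⟩
    exact (sgood_rn.1 k2).2 x (i2 x u w k5 k4) (d4 x (i1 x u w k5 k4) k6)
  · have d : ∀ a, Relation.ReflTransGen Δ' a u → Relation.ReflTransGen Δ a u ∧ a ≠ v := by
      intro a k1
      induction k1 using Relation.ReflTransGen.head_induction_on with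
      | refl => exact ⟨.refl, hne⟩
      | @head a z k1 _ ih =>
        have ha : a ≠ v := by
          rintro rfl
          rcases rtree_total hu k ih.1 with k2 | k2
          · rcases k2.cases_tail with e | ⟨x, -, k3⟩
            · exact ih.2 e
            · exact ((e1 z).1 k1).2.2 x k3
          · rcases k2.cases_tail with e | ⟨x, -, k3⟩
            · exact ih.2 e.symm
            · exact h0 x k3
        exact ⟨ih.1.head ((e2 a ha z).1 k1), ha⟩
    refine ⟨sgood_rt.2 ⟨(sgood_rt.1 hu).1, fun a k1 => ?_⟩, d⟩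
    obtain ⟨k2, ha⟩ := d a k1
    obtain ⟨k3, k4, w, k5⟩ := (sgood_rt.1 hu).2 a k2
    exact ⟨sgood_rn.2 ⟨(sgood_rn.1 k3).1, fun x k6 k7 =>
      (sgood_rn.1 k3).2 x ((e2 a ha x).1 k6) (br x k7)⟩, fun k6 => k4 (br a k6), w,
      (e2 a ha w).2 k5⟩

theorem Tri.row (hA : FIr A) (h : Tri A π s Δ) {u : α} (hu : u ∈ rtree (univ.erase s) Δ) :
    ∃ π' Δ', Tri A π' s Δ' ∧ π' s = π u ∧
      a0 (univ.erase s) (rv Δ) ≤ a0 (univ.erase s) (rv Δ') := by
  generalize hn : (univ.filter fun a => Relation.ReflTransGen Δ a u).card = n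
  induction n using Nat.strong_induction_on generalizing π Δ with
  | _ n ih =>
  obtain ⟨rk, hrk⟩ := h.1.acyc
  obtain ⟨v, hv, hmin⟩ := exists_min_image (univ.filter fun a => Relation.ReflTransGen Δ a u) rk
    ⟨u, mem_filter.2 ⟨mem_univ _, .refl⟩⟩
  have hv' := (mem_filter.1 hv).2
  obtain ⟨Δ', k1, k2, k3⟩ := h.move hA (rtree_anc hu hv') fun x k =>
    (hrk x v k).not_ge (hmin x (mem_filter.2 ⟨mem_univ _, hv'.head k⟩))
  by_cases e : u = v
  · exact ⟨_, Δ', k1, by rw [Equiv.Perm.mul_apply, Equiv.swap_apply_left, e], k2⟩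
  obtain ⟨k4, k5⟩ := k3 u hu hv' e
  obtain ⟨π', Δ'', k6, k7, k8⟩ := ih _ (hn ▸ card_lt_card ⟨fun a ha =>
    mem_filter.2 ⟨mem_univ _, (k5 a (mem_filter.1 ha).2).1⟩,
      fun k => (k5 v (mem_filter.1 (k hv)).2).2 rfl⟩) k1 k4 rfl
  refine ⟨π', Δ'', k6, ?_, k2.trans k8⟩
  rw [k7, Equiv.Perm.mul_apply,
    Equiv.swap_apply_of_ne_of_ne (ne_of_mem_erase (sgood_rt.1 hu).1) e]

theorem Tri.tr (h : Tri A π s Δ) :
    Tri (rv A) π⁻¹ (π s) fun a b => rv Δ (π⁻¹ a) (π⁻¹ b) := by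
  refine ⟨sgood_dag π⁻¹.injective (fun i k => mem_erase.2 ⟨?_, mem_univ _⟩) h.1.rev, fun a b => ?_⟩
  · rintro rfl
    exact ne_of_mem_erase k (sgood_inv π s)
  · obtain ⟨a, rfl⟩ := π.surjective a
    obtain ⟨b, rfl⟩ := π.surjective b
    have e : ∀ p : α → Prop, (∀ w, p (π⁻¹ w)) ↔ ∀ w, p w := fun p => π⁻¹.surjective.forall.symm
    have e1 := e fun w => ¬ Δ b w
    have e2 := e fun w => ¬ Δ w a
    simp only [rv, sgood_inv, h.2, matV, rootD, mem_erase, mem_univ, and_true,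
      true_and, ne_eq, EmbeddingLike.apply_eq_iff_eq, e1, e2]
    constructor
    · rintro ((k | k | k) | ⟨rfl, k⟩)
      exacts [Or.inl (Or.inl k), Or.inl (Or.inr (Or.inr k)), Or.inl (Or.inr (Or.inl k)),
        Or.inr ⟨rfl, k⟩]
    · rintro ((k | k | k) | ⟨rfl, k⟩)
      exacts [Or.inl (Or.inl k), Or.inl (Or.inr (Or.inr k)), Or.inl (Or.inr (Or.inl k)),
        Or.inr ⟨rfl, k⟩]

theorem sgood_rows (hA : FIr A) (h : Tri A π s Δ) : ∃ R : Finset α,
    a0 (univ.erase s) Δ ≤ R.card ∧ ∀ r ∈ R, ∃ π' Δ', Tri A π' s Δ' ∧ π' s = r ∧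
      a0 (univ.erase s) (rv Δ) ≤ a0 (univ.erase s) (rv Δ') := by
  refine ⟨(insert s (rtree (univ.erase s) Δ)).map π.toEmbedding, ?_, fun r hr => ?_⟩
  · rw [card_map, card_insert_of_notMem fun k => ne_of_mem_erase (sgood_rt.1 k).1 rfl, add_comm]
    exact Nat.add_le_add_left (card_filter_le _ _) 1
  · obtain ⟨u, hu, rfl⟩ := mem_map.1 hr
    rcases mem_insert.1 hu with rfl | hu
    · exact ⟨π, Δ, h, rfl, le_rfl⟩
    · exact h.row hA hu

/-- the roots with an acyclic frame -/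
noncomputable def Rt (A : α → α → Prop) : Finset (α × α) :=
  univ.filter fun q => ∃ π Δ, Tri A π q.2 Δ ∧ π q.2 = q.1

theorem Tri.card_Rt (hA : FIr A) (h : Tri A π s Δ) :
    a0 (univ.erase s) Δ * a0 (univ.erase s) (rv Δ) ≤ (Rt A).card := by
  obtain ⟨R, r1, r2⟩ := sgood_rows hA h
  have key : ∀ r ∈ R, a0 (univ.erase s) (rv Δ) ≤
      (((Rt A).filter fun q => q.1 ∈ R).filter fun q => q.1 = r).card := fun r hr => by
    obtain ⟨π', Δ', k1, rfl, k2⟩ := r2 r hr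
    obtain ⟨C, c1, c2⟩ := sgood_rows hA.rev k1.tr
    rw [a0_map π'⁻¹.injective (W := univ.erase s) (fun a => ⟨fun k => ⟨π' a, by simpa using k, by simp⟩,
      by rintro ⟨i, k, rfl⟩; simpa [Equiv.symm_apply_eq] using k⟩) k1.1.rev] at c1
    refine (k2.trans c1).trans (card_le_card_of_injOn (fun c => (π' s, c)) (fun c hc => ?_)
      fun c _ c' _ k => (Prod.ext_iff.1 k).2)
    obtain ⟨σ, E, k3, rfl, -⟩ := c2 c hc
    exact mem_coe.2 (mem_filter.2 ⟨mem_filter.2 ⟨mem_filter.2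
      ⟨mem_univ _, σ⁻¹, _, k3.tr, sgood_inv _ _⟩, hr⟩, rfl⟩)
  have := mul_card_image_le_card_of_maps_to (f := Prod.fst) (fun q hq => (mem_filter.1 hq).2) _ key
  rw [mul_comm]
  exact (Nat.mul_le_mul_left _ r1).trans (this.trans (card_filter_le _ _))

theorem card_good0 : ((univ.filter fun A : α → α → Prop => Good0 A).card : ℝ) ≤
    Fintype.card α * (Fintype.card α).factorial * cN (Fintype.card α - 1) := by
  let T := (univ : Finset (α × Equiv.Perm α)).sigma fun p => dags (univ.erase p.1)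
  let g : (Σ _ : α × Equiv.Perm α, α → α → Prop) → α → α → Prop := fun t x b =>
    matV univ (rootD t.1.1 (univ.erase t.1.1) t.2) t.1.1 (t.1.2⁻¹ x) b
  let w : (Σ _ : α × Equiv.Perm α, α → α → Prop) → ℝ := fun t =>
    ((a0 (univ.erase t.1.1) t.2 : ℝ) * a0 (univ.erase t.1.1) (rv t.2))⁻¹
  have hw : ∀ t, 0 ≤ w t := fun t => by positivity
  have hT : ∀ A t, t ∈ T.filter (fun t => g t = A) ↔ Tri A t.1.2 t.1.1 t.2 := fun A t => by
    rw [mem_filter, mem_sigma, qdag_mem_dags, and_iff_right (mem_univ _)]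
    refine and_congr_right fun _ => ⟨?_, fun k => funext₂ fun x b => propext ?_⟩
    · rintro rfl a b
      simp only [g, sgood_inv]
    · exact (k _ b).symm.trans (by simp)
  have h1 : ∑ t ∈ T, w t =
      Fintype.card α * (Fintype.card α).factorial * cN (Fintype.card α - 1) := by
    rw [sum_sigma, sum_congr rfl (g := fun _ => cN (Fintype.card α - 1)) fun p _ => by
      rw [← card_univ, ← card_erase_of_mem (mem_univ p.1), ← cWt_eq]; rfl]
    simp [Fintype.card_perm]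
  have h2 : ∀ A ∈ univ.filter fun A : α → α → Prop => Good0 A,
      (1 : ℝ) ≤ ∑ t ∈ T.filter fun t => g t = A, w t := fun A hA => by
    obtain ⟨hA, π, s, Δ, k⟩ := (mem_filter.1 hA).2
    have k1 : (Rt A).card ≤ (T.filter fun t => g t = A).card :=
      card_le_card_of_surjOn (fun t => (t.1.2 t.1.1, t.1.1)) fun q hq => by
        obtain ⟨σ, E, k1, k2⟩ := (mem_filter.1 (mem_coe.1 hq)).2
        exact ⟨⟨(q.2, σ), E⟩, mem_coe.2 ((hT A _).2 k1), Prod.ext k2 rfl⟩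
    have k2 : 0 < (T.filter fun t => g t = A).card :=
      card_pos.2 ⟨⟨(s, π), Δ⟩, (hT A _).2 k⟩
    have k3 := card_nsmul_le_sum (T.filter fun t => g t = A) w
      ((T.filter fun t => g t = A).card : ℝ)⁻¹ fun t ht => by
        refine inv_anti₀ ?_ ?_
        · unfold a0
          positivity
        · exact_mod_cast (((hT A t).1 ht).card_Rt hA).trans k1
    rwa [nsmul_eq_mul, mul_inv_cancel₀ (by exact_mod_cast k2.ne')] at k3
  rw [← h1, card_eq_sum_ones, Nat.cast_sum, Nat.cast_one]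
  exact (sum_le_sum h2).trans
    (sum_fiberwise_le_sum_of_sum_fiber_nonneg fun _ _ => sum_nonneg fun t _ => hw t)

end Pool.Agent.Work.MP_5391ad_co
end

-- merged part: Pool.Agent.Work.MP_5391ad_co.SFac
section
/-! From a typical core to the facts `Fac`.
`dag_closed`: let `N = Z \ RN`. A vertex of `N` has exactly one out-arc, into a vertex of in-degree
at least two (`rule`). A vertex of `N \ Q` without in-arc from `N` has an in-arc from `Z ∩ RN`
(at most `k |Z ∩ RN|` such vertices); one with an in-arc from `N` has two in-neighbours, both in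
`N`. Counting arcs out of `N`: `2 |I \ Q| ≤ |N|` for the set `I` of the second kind.
`Near.rn`: both out-arcs of `u ∉ X` are arcs of `rootD`, none goes to `s` (then `u` is a sink), so
the heads have in-degree one. `Near.held`: `Z ∩ W`, `J ∩ W`, `Q ∪ X` in `HS`; `lam_mono`; for the
second part add the sources to `Q` in `dag_closed`. `Near.card_lks`: a link with both ends outside `X`
is counted by `nlink`; both projections of `lks` are injective. `Near.deg`: an in-neighbour of `s`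
outside `X` is a sink. `tc_of`: `y ∈ TC D s \ X` with in-degree two lies in `TC E s`. Otherwise `y`
has one in-arc `(u, y)`, an in-bridge (`u ≠ s`), `y` post-dominates `u`, and `u` determines `y`
(`pcode_ibr`); either `(u, y)` is a link, or `u ∈ fB (rv D)` with `NP D s u`, and then `u ∈ X`,
`u ∈ TC (rv E) s \ R` or `u ∈ R.filter (NP D s)` (`np_lt`).
`fac_of`: `GR.ph`, `Ph.near` (`|X| ≤ 10 k` since fewer than `k` vertices are deleted), `Ph.small`;
for `ttC`, `ttR` take `GR.ph_triv`, `Ph.tt_sub`, `sum_TT_le` (`rootD_rv`), and bound `TT` by `n`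
for `a ∈ X`. -/

namespace Pool.Agent.Work.MP_5391ad_co

open Finset
open scoped Classical

theorem lam_mono {N n : ℕ} (h3 : 3 ≤ N) (h : N ≤ n) : lam N ≤ lam n := by
  have a1 : (3 : ℝ) ≤ N := by exact_mod_cast h3
  have a2 : (N : ℝ) ≤ n := by exact_mod_cast h
  have a3 : Real.exp 1 ≤ N := Real.exp_one_lt_three.le.trans a1
  have a4 := Real.log_div_self_antitoneOn a3 (a3.trans a2) a2
  rw [div_le_div_iff₀ (by linarith only [a1, a2]) (by linarith only [a1])] at a4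
  rw [lam, lam, div_le_div_iff₀ (Real.log_pos (by linarith only [a1])) (Real.log_pos (by linarith only [a1, a2]))]
  linarith only [a4]

variable {α : Type*} [Fintype α] {D Δ : α → α → Prop} {s : α} {W X : Finset α} {p : Par}

omit [Fintype α] in
theorem sfac_mem_RN {u : α} : u ∈ RN W Δ ↔ u ∈ W ∧ ∀ v, Δ u v → ¬ Br Δ v := mem_filter

omit [Fintype α] in
theorem sfac_nsrc (W : Finset α) (Δ : α → α → Prop) :
    ∃ S : Finset α, S.card = nsrc W Δ ∧ ∀ v, v ∈ W → (∀ w, ¬ Δ w v) → v ∈ S :=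
  ⟨_, rfl, fun _ h1 h2 => mem_filter.2 ⟨h1, h2⟩⟩

omit [Fintype α] in
theorem sfac_nlink (W : Finset α) (Δ : α → α → Prop) :
    ∃ S : Finset α, S.card = nlink W Δ ∧
      ∀ u v, u ∈ W → (∀ w, Δ u w ↔ w = v) → (∀ w, Δ w v ↔ w = u) → u ∈ S :=
  ⟨_, rfl, fun _ v h1 h2 h3 => mem_filter.2 ⟨h1, v, h2, h3⟩⟩

theorem dag_closed (h : IsDag W Δ) {Z Q : Finset α} {k : ℕ} (hZ : Z ⊆ W)
    (hd : ∀ u, odeg W Δ u ≤ k) (hc : ∀ v ∈ Z, v ∉ Q → (∃ u, Δ u v) ∧ ∀ u, Δ u v → u ∈ Z) :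
    Z.card ≤ (2 * k + 1) * (Z ∩ RN W Δ).card + 2 * Q.card := by
  have hone : ∀ u ∈ Z \ RN W Δ, ∃ v, Br Δ v ∧ ∀ w, Δ u w → w = v := fun u hu => by
    obtain ⟨h1, h2⟩ := mem_sdiff.1 hu
    simp only [RN, mem_filter, hZ h1, true_and, not_forall, not_not] at h2
    obtain ⟨v, k1, x, x', x1, x2, x3⟩ := h2
    exact ⟨v, ⟨x, x', x1, x2, x3⟩,
      (h.rule u v k1).resolve_right fun k => x1 ((k x x2).trans (k x' x3).symm)⟩
  let B := (Z ∩ RN W Δ).biUnion fun u => W.filter (Δ u)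
  let I := (Z \ RN W Δ) \ (Q ∪ B)
  have h1 : B.card ≤ (Z ∩ RN W Δ).card * k := card_biUnion_le_card_mul _ _ _ fun u _ => hd u
  have h2 : I.card * 2 ≤ (Z \ RN W Δ).card * 1 := by
    refine card_mul_le_card_mul (fun v u => Δ u v) (fun v hv => ?_) fun u hu => ?_
    · obtain ⟨a1, a2⟩ := mem_sdiff.1 hv
      obtain ⟨⟨u, hu⟩, a3⟩ := hc v (mem_sdiff.1 a1).1 fun k => a2 (mem_union_left _ k)
      have a4 : ∀ w, Δ w v → w ∈ Z \ RN W Δ := fun w hw => mem_sdiff.2 ⟨a3 w hw, fun k =>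
        a2 (mem_union_right _ (mem_biUnion.2 ⟨w, mem_inter.2 ⟨a3 w hw, k⟩,
          mem_filter.2 ⟨(h.mem _ _ hw).2, hw⟩⟩))⟩
      obtain ⟨v', ⟨x, x', x1, x2, x3⟩, a5⟩ := hone u (a4 u hu)
      rw [← a5 v hu] at x2 x3
      exact one_lt_card.2 ⟨x, mem_filter.2 ⟨a4 x x2, x2⟩, x', mem_filter.2 ⟨a4 x' x3, x3⟩, x1⟩
    · obtain ⟨v, -, a5⟩ := hone u hu
      exact card_le_one.2 fun a ha b hb =>
        (a5 a (mem_filter.1 ha).2).trans (a5 b (mem_filter.1 hb).2).symm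
  have h3 : (Z \ RN W Δ).card ≤ I.card + (Q ∪ B).card := card_le_card_sdiff_add_card
  have h4 := card_union_le Q B
  have h5 := card_sdiff_add_card_inter Z (RN W Δ)
  linarith only [h1, h2, h3, h4, h5]

theorem Near.rev (h : Near D s W Δ X) : Near (rv D) s W (rv Δ) X :=
  ⟨h.dag.rev, h.sW, h.sX, h.mem, fun u v k => by rw [← rootD_rv]; exact h.agr v u k.symm⟩

theorem Near.rn (h : Near D s W Δ X) {u : α} (hu : u ∉ X) (hb : u ∈ fB (rv D)) : u ∈ RN W Δ := by
  obtain ⟨a, a', h1, h2, h3⟩ := (mem_filter.1 hb).2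
  have h0 : u ≠ s := fun e => hu (e ▸ h.sX)
  have h4 := (h.agr u a (Or.inl hu)).1 h2
  have h5 := (h.agr u a' (Or.inl hu)).1 h3
  refine sfac_mem_RN.2 ⟨h.mem u hu, fun v k ⟨x, x', x1, x2, x3⟩ => ?_⟩
  have h6 := (h.dag.rule u v k).resolve_right fun k => x1 ((k x x2).trans (k x' x3).symm)
  have h7 : ∀ b, rootD s W Δ u b → b = v := by
    rintro b (k1 | k1 | k1)
    exacts [h6 b k1, absurd k1.1 h0, absurd k (k1.2.2 v)]
  exact h1 ((h7 a h4).trans (h7 a' h5).symm)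

theorem sfac_cl (h : Near D s W Δ X) {Z Q : Finset α} (hZ : InCl D s Z Q) :
    ∀ v ∈ Z ∩ W, v ∉ Q ∪ X → ∀ u, Δ u v → u ∈ Z ∩ W := fun v hv hQ u k =>
  have h1 := (h.dag.mem _ _ k).1
  mem_inter.2 ⟨(hZ v (mem_inter.1 hv).1 (fun k => hQ (mem_union_left _ k)) u
    ((h.agr u v (Or.inr fun k => hQ (mem_union_right _ k))).2 (Or.inl k))).resolve_left
      fun e => h.sW (e ▸ h1), h1⟩

theorem sfac_rn (h : Near D s W Δ X) (Z : Finset α) :
    (Z ∩ fB (rv D)).card ≤ (Z ∩ W ∩ RN W Δ).card + X.card := by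
  refine (card_le_card fun u hu => ?_).trans (card_union_le _ _)
  by_cases k : u ∈ X
  · exact mem_union_right _ k
  · exact mem_union_left _ (mem_inter.2 ⟨mem_inter.2 ⟨(mem_inter.1 hu).1, h.mem u k⟩,
      h.rn k (mem_inter.1 hu).2⟩)

theorem sfac_pow (W : Finset α) {e : ℝ} (he : 0 ≤ e) :
    (W.card : ℝ) ^ e ≤ (Fintype.card α : ℝ) ^ e :=
  Real.rpow_le_rpow (Nat.cast_nonneg _) (Nat.cast_le.2 (card_le_univ W)) he

theorem Near.held (h : Near D s W Δ X) (ok : p.Ok (Fintype.card α)) (hX : X.card ≤ 10 * p.k)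
    (hW : 3 ≤ W.card) (he : ¬ ExcH p.k W Δ) : Held p D s := by
  intro Z J Q _ _ hd hQ cZ cJ
  simp only [ExcH, not_or, not_le, not_exists] at he
  obtain ⟨e1, -, e3, -, e5⟩ := he
  have hQX : (Q ∪ X).card ≤ 35 * p.k := (card_union_le _ _).trans (by omega)
  have hs := fun k => e5 ⟨Z ∩ W, inter_subset_right, J ∩ W, inter_subset_right, Q ∪ X,
    hd.mono inter_subset_left inter_subset_left, by omega, sfac_cl h cZ, sfac_cl h cJ, k⟩
  have z1 : ((Z ∩ fB (rv D)).card : ℝ) ≤ (Z ∩ W ∩ RN W Δ).card + 10 * p.k := by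
    exact_mod_cast (sfac_rn h Z).trans (Nat.add_le_add_left hX _)
  have j1 : ((J ∩ fB (rv D)).card : ℝ) ≤ (J ∩ W ∩ RN W Δ).card + 10 * p.k := by
    exact_mod_cast (sfac_rn h J).trans (Nat.add_le_add_left hX _)
  have hl := lam_mono hW (card_le_univ W)
  refine ⟨fun b1 b2 => lt_of_not_ge fun b3 => hs (Or.inl ?_), fun b1 => lt_of_not_ge fun b2 => ?_⟩
  · have c1 : (p.a1 : ℝ) ≤ (Z ∩ fB (rv D)).card := by exact_mod_cast b1
    have c2 : (p.a2 : ℝ) ≤ (J ∩ fB (rv D)).card := by exact_mod_cast b2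
    have c3 : (p.a3 : ℝ) ≤ (Z ∩ fB (rv D)).card + (J ∩ fB (rv D)).card := by exact_mod_cast b3
    have c4 := sfac_pow W (e := 9 / 10) (by norm_num)
    exact ⟨by linarith only [z1, c1, c4, ok, ok.a1], by linarith only [j1, hl, c2, ok, ok.a2], by linarith only [z1, j1, hl, c3, ok, ok.a3]⟩
  · have c1 : (p.b2 : ℝ) ≤ (J ∩ fB (rv D)).card := by exact_mod_cast b1
    have c2 := sfac_pow W (e := 1 / 10) (by norm_num)
    have c3 : ((Z ∩ W ∩ RN W Δ).card : ℝ) ≤ (Fintype.card α : ℝ) ^ (1 / 10 : ℝ) :=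
      le_trans (le_of_not_ge fun k => hs (Or.inr ⟨k, by linarith only [j1, hl, c1, ok, ok.b2]⟩)) c2
    obtain ⟨S, hS, hS'⟩ := sfac_nsrc W Δ
    have c4 := dag_closed (Z := Z ∩ W) (Q := Q ∪ X ∪ S) h.dag
      inter_subset_right (fun u => (e3 u).le) fun v hv k =>
        ⟨by_contra fun k' => k (mem_union_right _
          (hS' v (mem_inter.1 hv).2 fun w hw => k' ⟨w, hw⟩)),
          sfac_cl h cZ v hv fun k' => k (mem_union_left _ k')⟩
    have c5 : (Q ∪ X ∪ S).card ≤ 35 * p.k + p.k :=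
      (card_union_le _ _).trans (add_le_add hQX (hS ▸ e1.le))
    have c6 : Z.card ≤ (Z ∩ W).card + X.card := by
      refine (card_le_card fun u hu => ?_).trans (card_union_le _ _)
      by_cases k : u ∈ X
      · exact mem_union_right _ k
      · exact mem_union_left _ (mem_inter.2 ⟨hu, h.mem u k⟩)
    have c7 : (p.Kb : ℝ) ≤ (2 * p.k + 1) * (Z ∩ W ∩ RN W Δ).card + 82 * p.k := by
      exact_mod_cast (by omega : p.Kb ≤ (2 * p.k + 1) * (Z ∩ W ∩ RN W Δ).card + 82 * p.k)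
    have c8 : (2 : ℝ) ≤ p.k := by exact_mod_cast ok.k0
    have c9 := mul_le_mul_of_nonneg_left c3 (by positivity : (0 : ℝ) ≤ 2 * p.k + 1)
    linarith only [c7, c8, c9, ok, ok.Kb]

theorem Near.card_lks (h : Near D s W Δ X) : (lks D s).card ≤ nlink W Δ + 2 * X.card := by
  have h1 : ((lks D s).filter fun q => q.2 ∈ X).card ≤ X.card :=
    card_le_card_of_injOn Prod.snd (fun q hq => (mem_filter.1 hq).2) fun q hq r hr e => by
      have a1 := (mem_filter.1 (mem_filter.1 hq).1).2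
      have a2 := (mem_filter.1 (mem_filter.1 hr).1).2
      exact Prod.ext ((a2.2.2.2 _).1 (e ▸ (a1.2.2.2 _).2 rfl)) e
  obtain ⟨S, hS, hS'⟩ := sfac_nlink W Δ
  have h2 : ((lks D s).filter fun q => ¬ q.2 ∈ X).card ≤ (S ∪ X).card := by
    refine card_le_card_of_injOn Prod.fst (fun q hq => ?_) fun q hq r hr e => ?_
    · obtain ⟨a1, a2⟩ := mem_filter.1 hq
      obtain ⟨b1, b2, b3, b4⟩ := (mem_filter.1 a1).2
      by_cases k : q.1 ∈ X
      · exact mem_union_right _ k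
      have b5 : Δ q.1 q.2 := by
        rcases (h.agr _ _ (Or.inl k)).1 ((b3 _).2 rfl) with k1 | k1 | k1
        exacts [k1, absurd k1.1 b1, absurd k1.1 b2]
      exact mem_union_left _ (hS' _ q.2 (h.mem _ k)
        (fun w => ⟨fun k1 => (b3 w).1 ((h.agr _ _ (Or.inl k)).2 (Or.inl k1)), fun e => e ▸ b5⟩)
        fun w => ⟨fun k1 => (b4 w).1 ((h.agr _ _ (Or.inr a2)).2 (Or.inl k1)), fun e => e ▸ b5⟩)
    · have a1 := (mem_filter.1 (mem_filter.1 hq).1).2
      have a2 := (mem_filter.1 (mem_filter.1 hr).1).2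
      exact Prod.ext e ((a2.2.2.1 _).1 (e ▸ (a1.2.2.1 _).2 rfl))
  have h3 := card_filter_add_card_filter_not (s := lks D s) fun q => q.2 ∈ X
  have h4 := h2.trans (card_union_le _ _)
  omega

theorem Near.deg (h : Near D s W Δ X) :
    (univ.filter fun u => D u s).card ≤ nsrc W (rv Δ) + X.card := by
  obtain ⟨S, hS, hS'⟩ := sfac_nsrc W (rv Δ)
  rw [← hS]
  refine (card_le_card fun u hu => ?_).trans (card_union_le _ _)
  by_cases k : u ∈ X
  · exact mem_union_right _ k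
  rcases (h.agr _ _ (Or.inl k)).1 (mem_filter.1 hu).2 with k1 | k1 | k1
  · exact absurd (h.dag.mem _ _ k1).2 h.sW
  · exact absurd k1.2.1 h.sW
  · exact mem_union_left _ (hS' u k1.2.1 k1.2.2)

theorem tc_of {R C : Finset α} {m j N t : ℕ} (h : TypD D s R C m j N t) {E : α → α → Prop}
    (hE : ∀ u v, u ∉ X ∨ v ∉ X → (D u v ↔ E u v)) (hs : s ∈ X)
    (h1 : (TC E s \ C).card ≤ 14 * m) (h2 : (TC (rv E) s \ R).card ≤ 14 * m) :
    (TC D s \ C).card ≤ 31 * m + 2 * X.card + (lks D s).card := by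
  have h3 : ((TC D s \ C) \ ((TC E s \ C) ∪ X)).card ≤
      ((lks D s).image Prod.fst ∪ X ∪ (TC (rv E) s \ R) ∪ R.filter (NP D s)).card := by
    refine card_le_card_of_forall_subsingleton (fun y u => IBr D s u y) (fun y hy => ?_)
      fun u _ y hy y' hy' => pcode_ibr h.gr hy.2 hy'.2
    simp only [mem_sdiff, mem_union, not_or, TC, mem_filter, mem_univ, true_and] at hy
    obtain ⟨⟨⟨a1, a2⟩, a3⟩, a4, a5⟩ := hy
    have a6 : ¬ Br D y := fun ⟨x, x', x1, x2, x3⟩ => a4 ⟨⟨a1, Or.inl ⟨x, x', x1,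
      (hE _ _ (Or.inr a5)).1 x2, (hE _ _ (Or.inr a5)).1 x3⟩⟩, a3⟩
    obtain ⟨u, hu⟩ := a2.resolve_left a6
    have a7 : u ≠ s := fun e => hu.2 (e ▸ Relation.ReflTransGen.refl)
    refine ⟨u, ?_, hu⟩
    simp only [mem_union]
    by_cases k : ∀ w, D u w → w = y
    · exact Or.inl (Or.inl (Or.inl (mem_image.2 ⟨(u, y), mem_filter.2 ⟨mem_univ _, a7, a1,
        fun w => ⟨k w, fun e => e ▸ hu.1⟩,
        fun w => ⟨fun k1 => by_contra fun e => a6 ⟨w, u, e, k1, hu.1⟩, fun e => e ▸ hu.1⟩⟩, rfl⟩)))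
    by_cases k1 : u ∈ X
    · exact Or.inl (Or.inl (Or.inr k1))
    by_cases k2 : u ∈ R
    · exact Or.inr (mem_filter.2 ⟨k2, y, a1, fun w hw => Or.inr
        ((dom_of_arc (h.gr.rev.dom_of_obr (obr_rv.2 hu)) hw).imp_right dom_rv.1)⟩)
    · obtain ⟨w, hw⟩ := not_forall.1 k
      obtain ⟨b1, b2⟩ := Classical.not_imp.1 hw
      exact Or.inl (Or.inr (mem_sdiff.2 ⟨mem_filter.2 ⟨mem_univ _, a7, Or.inl ⟨w, y, b2,
        (hE _ _ (Or.inl k1)).1 b1, (hE _ _ (Or.inl k1)).1 hu.1⟩⟩, k2⟩))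
  have h4 := card_union_le ((lks D s).image Prod.fst ∪ X ∪ (TC (rv E) s \ R)) (R.filter (NP D s))
  have h5 := card_union_le ((lks D s).image Prod.fst ∪ X) (TC (rv E) s \ R)
  have h6 := card_union_le ((lks D s).image Prod.fst) X
  have h7 := card_image_le (s := lks D s) (f := Prod.fst)
  have h8 := h.np_lt
  have h9 : (TC D s \ C).card ≤ _ + ((TC E s \ C) ∪ X).card := card_le_card_sdiff_add_card
  have h10 := card_union_le (TC E s \ C) X
  omega

theorem sfac_core (ok : p.Ok (Fintype.card α)) (q : Ph univ D s)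
    (he : ¬ Exc (Fintype.card α) p.k (q.V3.erase s) q.core) :
    ∃ X : Finset α, Near D s (q.V3.erase s) q.core X ∧ X.card ≤ 10 * p.k ∧
      3 ≤ (q.V3.erase s).card ∧ ¬ ExcH p.k (q.V3.erase s) q.core ∧
      ¬ ExcH p.k (q.V3.erase s) (rv q.core) ∧ q.D3 = rootD s (q.V3.erase s) q.core ∧
      ∀ u v, u ∉ X ∨ v ∉ X → (D u v ↔ q.D2 u v) := by
  obtain ⟨X, h1, h2, h3, h4⟩ := q.near
  simp only [Exc, ExcC, not_or, not_le] at he
  obtain ⟨e1, e2, e3⟩ := he
  have e4 : nsrc (q.V3.erase s) (rv q.core) < p.k := lt_of_not_ge fun k => e3 (Or.inl k)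
  have := ok.hn
  exact ⟨X, h1, by omega, by omega, e2, e3, h3, h4⟩

theorem sfac_sum (ok : p.Ok (Fintype.card α)) (hX : X.card ≤ 10 * p.k) (hW : ∀ a, a ∉ X → a ∈ W)
    (he : ¬ ExcH p.k W Δ) {f g : α → Finset α} (hf : ∀ a, a ∉ X → f a ⊆ g a ∪ X)
    (hg : ∑ a ∈ W, (g a).card ≤ SR W Δ + W.card) (T : Finset α) :
    ∑ a ∈ T, (f a).card ≤ p.S0 := by
  have h1 : ∑ a ∈ T ∩ X, (f a).card ≤ 10 * p.k * Fintype.card α :=
    (sum_le_card_nsmul _ _ _ fun a _ => card_le_univ _).trans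
      (Nat.mul_le_mul_right _ ((card_le_card inter_subset_right).trans hX))
  have h2 : ∑ a ∈ T \ X, (f a).card ≤ ∑ a ∈ W, ((g a).card + 10 * p.k) :=
    (sum_le_sum fun a ha => (card_le_card (hf a (mem_sdiff.1 ha).2)).trans
      ((card_union_le _ _).trans (Nat.add_le_add_left hX _))).trans
      (sum_le_sum_of_subset fun a ha => hW a (mem_sdiff.1 ha).2)
  rw [sum_add_distrib, sum_const, smul_eq_mul] at h2
  have h3 := sum_inter_add_sum_sdiff T X fun a => (f a).card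
  have h4 := card_le_univ W
  have h5 : W.card * (10 * p.k) ≤ Fintype.card α * (10 * p.k) := Nat.mul_le_mul_right _ h4
  have h6 : Fintype.card α ≤ p.k * Fintype.card α :=
    Nat.le_mul_of_pos_left _ (lt_of_lt_of_le two_pos ok.k0)
  have h7 : ∑ a ∈ T, (f a).card ≤ SR W Δ + 21 * p.k * Fintype.card α := by linarith only [hg, h1, h2, h3, h4, h5, h6]
  have h8 : (SR W Δ : ℝ) ≤ (W.card : ℝ) ^ (31 / 20 : ℝ) :=
    le_of_not_ge fun k => he (Or.inr (Or.inr (Or.inr (Or.inl k))))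
  have h9 := sfac_pow W (e := 31 / 20) (by norm_num)
  have h10 : ((SR W Δ + 21 * p.k * Fintype.card α : ℕ) : ℝ) ≤ p.S0 := by
    push_cast
    linarith only [h8, h9, ok, ok.S0]
  exact h7.trans (Nat.cast_le.1 h10)

theorem fac_of {R C : Finset α} {j N t : ℕ} (h : TypD D s R C p.m j N t)
    (ok : p.Ok (Fintype.card α))
    (he : ∀ q : Ph univ D s, ¬ Exc (Fintype.card α) p.k (q.V3.erase s) q.core) :
    Fac p D s R C := by
  obtain ⟨q⟩ := h.gr.ph
  obtain ⟨X, h1, h2, h3, h4, h5, h6, -⟩ := sfac_core ok q (he q)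
  obtain ⟨s1, s2⟩ := Ph.small h q
  have hE : ∀ u v, u ∉ X ∨ v ∉ X → (D u v ↔ q.D3 u v) := h6 ▸ h1.agr
  have e1 : nsrc _ q.core < p.k := lt_of_not_ge fun k => h4 (Or.inl k)
  have e2 : nsrc _ (rv q.core) < p.k := lt_of_not_ge fun k => h5 (Or.inl k)
  have e3 : nlink _ q.core < p.k := lt_of_not_ge fun k => h4 (Or.inr (Or.inl k))
  have l1 := h1.card_lks
  have l2 := card_lks_rv D s
  have d1 := h1.deg
  have d2 : (univ.filter fun u => D s u).card ≤ nsrc _ q.core + X.card := h1.rev.deg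
  have s3 : (TC q.D3 s \ C).card ≤ 14 * p.m := by omega
  have t1 := tc_of h hE h1.sX s3 s2
  have t2 := tc_of h.rev (E := rv q.D3) (fun u v k => hE v u k.symm) h1.sX s2 s3
  have := ok.km
  refine ⟨by omega, by omega, by omega, by omega, by omega, h1.held ok h2 h3 h4,
    h1.rev.held ok h2 h3 h5, fun hG => ?_, fun hG => ?_⟩ <;>
  obtain ⟨q, q1, q2⟩ := h.gr.ph_triv hG <;>
  obtain ⟨X, h1, h2, -, h4, h5, h6, h7⟩ := sfac_core ok q (he q) <;>
  have hV : insert s (q.V3.erase s) = q.V3 := insert_erase q.h3.good.root <;>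
  have hX : ∀ v, v ∉ X → v ∈ q.V3 := fun v k => mem_of_mem_erase (h1.mem v k)
  · refine sfac_sum ok h2 h1.mem h5 (fun a => q.tt_sub q1 q2 hX h7 (h6 ▸ h1.agr)) ?_ _
    have := sum_TT_le h1.dag.rev h1.sW
    rwa [hV, ← rootD_rv, ← h6] at this
  · refine sfac_sum ok h2 h1.mem h4 (fun a => q.tt_sub' q1 q2 hX h7 (h6 ▸ h1.agr)) ?_ _
    have := sum_TT_le h1.dag h1.sW
    rwa [hV, ← h6] at this

end Pool.Agent.Work.MP_5391ad_co
end

-- merged part: Pool.Agent.Work.MP_5391ad_co.SLow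
section
/-! The lower bound: a matrix has few acyclic frames with a typical core.
`Trm.unique`: `mlow_perm`, `mlow_le` as in `mlow_count`. `Trm.ones`: `acc_acyc` and the diagonal.
`Trm.two`: a source `b` has ones in the rows `π b` and `π s` only; a vertex of the tree with a
parent `u` in the rows `π b` and `π u` only. `Trm.thin`: let `π s = π0 v`, `v ≠ s0`. The row has
the one at `v` and exactly one more, at the only out-neighbour `w` of `v` in `rootD`; if `w = s0`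
then `v` is a sink, otherwise the column `w` has two ones (`Trm.two`), so `(v, w)` is a link.
`Trm.in_tree`: let `E a b` mean that `(a, b)` is the only arc of `rootD s0 W0 Δ0` into `b ≠ s0`, and
`Top v q := ReflTransGen E q v ∧ ∀ a, ¬ E a q`. Every vertex has a top (rank), which is `s0` or has
in-degree at least two in `Δ0`, and `E a b` gives `Top a q ↔ Top b q`. If a column has ones in
exactly two rows `π0 a`, `π0 b`, it is not `s0` (a hub), so it is `a` or `b`, and `E a b` or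
`E b a`. Hence all `π0⁻¹ (π u)`, `u` in `insert s (rtree ..)`, have the top `q` of
`v = π0⁻¹ (π s)` (induction along ancestors). If `q ≠ s0` take `Z` = vertices with top `q`,
`J = rtree W0 Δ0`, `Q = {q}` in `HS`: `Z` contains more than `lo - k` hub rows (`rtree_le`), which
are in `RN` (`Near.rn` with `X = {s0}`). So `q = s0`, and `v = s0` or `v` lies in the tree.
`lower_comb`: the fibres of `(s, π, Δ) ↦ A`, `A a b = mat .. (π⁻¹ a) b` (`rootD_good`,
`GR.ndr_mat`, `NDr.perm`, `card_ndr`) inject into the pairs `(π s, s)`; split according to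
`A (π s) s`, `π s ∈ hub A`, `s ∈ hub (rv A)`; use `Trm.tr`, `GoodD.map` for the columns. -/

namespace Pool.Agent.Work.MP_5391ad_co

open Finset
open scoped Classical

variable {α : Type*} [Fintype α] {A Δ Δ0 : α → α → Prop} {π π0 : Equiv.Perm α} {s s0 : α}
  {k lo hi : ℕ}

/-- an acyclic frame -/
def Trm (A : α → α → Prop) (π : Equiv.Perm α) (s : α) (Δ : α → α → Prop) : Prop :=
  IsDag (univ.erase s) Δ ∧ ∀ a b, A (π a) b ↔ mat (rootD s (univ.erase s) Δ) s a b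

omit [Fintype α] in
theorem slow_irr {W : Finset α} (h : IsDag W Δ) {a b : α} (k : Δ a b) : a ≠ b := by
  obtain ⟨rk, hrk⟩ := h.acyc
  rintro rfl
  exact lt_irrefl _ (hrk _ _ k)

omit [Fintype α] in
theorem slow_mem_rn {W : Finset α} {u : α} :
    u ∈ RN W Δ ↔ u ∈ W ∧ ∀ v, Δ u v → ¬ Br Δ v := mem_filter

omit [Fintype α] in
theorem slow_mem_rt {W : Finset α} {v : α} : v ∈ rtree W Δ ↔ v ∈ W ∧
    ∀ u, Relation.ReflTransGen Δ u v → u ∈ RN W Δ ∧ ¬ Br Δ u ∧ ∃ w, Δ u w := mem_filter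

omit [Fintype α] in
theorem slow_src (W : Finset α) (Δ : α → α → Prop) :
    ∃ S : Finset α, S.card = nsrc W Δ ∧ ∀ v, v ∈ S ↔ v ∈ W ∧ ∀ w, ¬ Δ w v :=
  ⟨_, rfl, fun _ => mem_filter⟩

omit [Fintype α] in
theorem slow_lnk (W : Finset α) (Δ : α → α → Prop) : ∃ S : Finset α, S.card = nlink W Δ ∧
    ∀ u, u ∈ S ↔ u ∈ W ∧ ∃ v, (∀ w, Δ u w ↔ w = v) ∧ ∀ w, Δ w v ↔ w = u :=
  ⟨_, rfl, fun _ => mem_filter⟩

omit [Fintype α] in
theorem slow_a0 (W : Finset α) (Δ : α → α → Prop) : ∃ S : Finset α, 1 + S.card = a0 W Δ ∧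
    ∀ u, u ∈ S ↔ u ∈ rtree W Δ ∧ Br (rv Δ) u :=
  ⟨_, rfl, fun _ => mem_filter⟩

theorem slow_ne (h : IsDag (univ.erase s) Δ) {a b : α} (k : Δ a b) : a ≠ s ∧ b ≠ s :=
  ⟨(mem_erase.1 (h.mem a b k).1).1, (mem_erase.1 (h.mem a b k).2).1⟩

theorem slow_gr (h : IsDag (univ.erase s) Δ) : GR univ (rootD s (univ.erase s) Δ) s := by
  have h1 := (rootD_good h (notMem_erase s univ)).1
  rwa [insert_erase (mem_univ s)] at h1

theorem Trm.unique (h : Trm A π s Δ) (h0 : Trm A π0 s Δ0) (e : π s = π0 s) : π = π0 ∧ Δ = Δ0 := by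
  have hs : s ∉ univ.erase s := notMem_erase s univ
  have h3 : ∀ a, (π.trans π0.symm) a = a := mlow_perm (s := s) (Δ := Δ) h0.1
    (by rw [Equiv.trans_apply, e, Equiv.symm_apply_apply])
    fun a b hab => by
      rw [Equiv.trans_apply, ← h0.2, Equiv.apply_symm_apply]
      exact (h.2 a b).2 hab
  obtain rfl : π = π0 := Equiv.ext fun a => by
    have h4 := h3 a
    rw [Equiv.trans_apply, Equiv.symm_apply_eq] at h4
    exact h4
  exact ⟨rfl, funext fun a => funext fun b => propext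
    ⟨mlow_le h.1 hs fun a b k => (h0.2 a b).1 ((h.2 a b).2 k),
      mlow_le h0.1 hs fun a b k => (h.2 a b).1 ((h0.2 a b).2 k)⟩⟩

theorem Trm.ones (h : Trm A π s Δ) :
    (univ.filter fun q : α × α => A q.1 q.2).card ≤ 3 * Fintype.card α := by
  have h1 := acc_acyc (slow_gr h.1) (rootD_good h.1 (notMem_erase s univ)).2
  rw [card_univ] at h1
  have h2 : (univ.filter fun q : α × α => A q.1 q.2).card ≤
      ((univ.filter fun q : α × α => rootD s (univ.erase s) Δ q.1 q.2) ∪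
        univ.image fun a : α => (a, a)).card := by
    refine card_le_card_of_injOn (fun q => (π.symm q.1, q.2)) (fun q hq => ?_) ?_
    · have k := (mem_filter.1 (mem_coe.1 hq)).2
      rw [← π.apply_symm_apply q.1, h.2] at k
      rcases k with k | k
      · exact mem_coe.2 (mem_union_left _ (mem_filter.2 ⟨mem_univ _, k⟩))
      · exact mem_coe.2 (mem_union_right _ (mem_image.2 ⟨q.2, mem_univ _, Prod.ext k.1.symm rfl⟩))
    · intro q _ q' _ e
      exact Prod.ext (π.symm.injective (Prod.mk.inj e).1) (Prod.mk.inj e).2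
  have h3 := card_union_le (univ.filter fun q : α × α => rootD s (univ.erase s) Δ q.1 q.2)
    (univ.image fun a : α => (a, a))
  have h4 : (univ.image fun a : α => (a, a)).card ≤ Fintype.card α := card_image_le
  unfold narc at h1
  omega

omit [Fintype α] in
theorem slow_cyc {D D' : α → α → Prop} {f : α → α} (hf : Function.Injective f)
    (hD : ∀ a b, D a b → D' (f a) (f b)) {z u : α} (k : CycA D {z} u) : CycA D' {f z} (f u) := by
  obtain ⟨v, h1, h2, h3⟩ := k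
  exact ⟨f v, hD _ _ h1, fun e => h2 (hf e),
    h3.lift f fun a b k => ⟨hD _ _ k.1, fun e => k.2 (hf e)⟩⟩

omit [Fintype α] in
theorem slow_mat {D D' : α → α → Prop} (σ : Equiv.Perm α) (hD : ∀ a b, D' (σ a) (σ b) ↔ D a b)
    (a b : α) : mat D' (σ s) (σ a) (σ b) ↔ mat D s a b := by
  refine or_congr (hD a b) (and_congr σ.injective.eq_iff (or_congr σ.injective.ne_iff
    ⟨fun ⟨z, h1, h2⟩ => ⟨σ.symm z, fun e => h1 (by rw [← e, Equiv.apply_symm_apply]), fun k => h2 ?_⟩,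
      fun ⟨z, h1, h2⟩ => ⟨σ z, σ.injective.ne h1, fun k => h2 ?_⟩⟩))
  · have := slow_cyc σ.injective (fun a b => (hD a b).2) k
    rwa [Equiv.apply_symm_apply] at this
  · have := slow_cyc (D' := D) σ.symm.injective (fun a b k => (hD _ _).1 (by
      rwa [Equiv.apply_symm_apply, Equiv.apply_symm_apply])) k
    rwa [Equiv.symm_apply_apply, Equiv.symm_apply_apply] at this

theorem slow_memW (σ : Equiv.Perm α) (a : α) : σ a ∈ univ.erase (σ s) ↔ a ∈ univ.erase s := by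
  rw [mem_erase, mem_erase, σ.injective.ne_iff]
  exact and_congr_right fun _ => iff_of_true (mem_univ _) (mem_univ _)

theorem slow_root {Δ' : α → α → Prop} (σ : Equiv.Perm α) (hD : ∀ a b, Δ' (σ a) (σ b) ↔ Δ a b)
    (a b : α) : rootD (σ s) (univ.erase (σ s)) Δ' (σ a) (σ b) ↔ rootD s (univ.erase s) Δ a b := by
  refine or_congr (hD a b) (or_congr (and_congr σ.injective.eq_iff (and_congr (slow_memW σ b) ?_))
    (and_congr σ.injective.eq_iff (and_congr (slow_memW σ a) ?_)))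
  · exact σ.surjective.forall.trans (forall_congr' fun w => not_congr (hD w b))
  · exact σ.surjective.forall.trans (forall_congr' fun w => not_congr (hD a w))

theorem slow_dag {Δ' : α → α → Prop} (σ : Equiv.Perm α) (hD : ∀ a b, Δ' (σ a) (σ b) ↔ Δ a b)
    (h : IsDag (univ.erase s) Δ) : IsDag (univ.erase (σ s)) Δ' := by
  obtain ⟨rk, hrk⟩ := h.acyc
  refine ⟨σ.surjective.forall₂.2 fun a b k => ?_, ⟨fun a => rk (σ.symm a),
    σ.surjective.forall₂.2 fun a b k => ?_⟩, σ.surjective.forall₂.2 fun a b k => ?_⟩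
  · rw [slow_memW, slow_memW]
    exact h.mem a b ((hD a b).1 k)
  · show rk (σ.symm (σ a)) < rk (σ.symm (σ b))
    rw [Equiv.symm_apply_apply, Equiv.symm_apply_apply]
    exact hrk a b ((hD a b).1 k)
  · exact (h.rule a b ((hD a b).1 k)).imp
      (fun e => σ.surjective.forall.2 fun w k' => congrArg σ (e w ((hD _ _).1 k')))
      fun e => σ.surjective.forall.2 fun w k' => congrArg σ (e w ((hD _ _).1 k'))

omit [Fintype α] in
theorem slow_hD (σ : Equiv.Perm α) (Δ : α → α → Prop) (a b : α) :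
    Δ (σ⁻¹ (σ a)) (σ⁻¹ (σ b)) ↔ Δ a b := by
  rw [Equiv.Perm.inv_def, Equiv.symm_apply_apply, Equiv.symm_apply_apply]

theorem Trm.tr (h : Trm A π s Δ) :
    Trm (rv A) π⁻¹ (π s) fun a b => rv Δ (π⁻¹ a) (π⁻¹ b) := by
  refine ⟨slow_dag π (slow_hD π (rv Δ)) h.1.rev, π.surjective.forall₂.2 fun a b => ?_⟩
  rw [slow_mat π (slow_root π (slow_hD π (rv Δ))), ← rootD_rv, Equiv.Perm.inv_def,
    Equiv.symm_apply_apply]
  refine (h.2 b a).trans (or_congr Iff.rfl ⟨?_, ?_⟩)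
  · rintro ⟨rfl, k⟩
    exact ⟨rfl, k.imp_right fun ⟨z, h1, h2⟩ => ⟨z, h1, mt cycA_rv.1 h2⟩⟩
  · rintro ⟨rfl, k⟩
    exact ⟨rfl, k.imp_right fun ⟨z, h1, h2⟩ => ⟨z, h1, mt cycA_rv.2 h2⟩⟩

omit [Fintype α] in
theorem GoodD.rev {W : Finset α} (h : GoodD k lo hi W Δ) : GoodD k lo hi W (rv Δ) := ⟨h.2, h.1⟩

omit [Fintype α] in
theorem slow_br {Δ' : α → α → Prop} (σ : Equiv.Perm α) (hD : ∀ a b, Δ' (σ a) (σ b) ↔ Δ a b)
    (v : α) : Br Δ' (σ v) ↔ Br Δ v :=
  σ.surjective.exists₂.trans (exists₂_congr fun a b =>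
    and_congr σ.injective.ne_iff (and_congr (hD a v) (hD b v)))

theorem slow_rn {Δ' : α → α → Prop} (σ : Equiv.Perm α) (hD : ∀ a b, Δ' (σ a) (σ b) ↔ Δ a b)
    (v : α) : σ v ∈ RN (univ.erase (σ s)) Δ' ↔ v ∈ RN (univ.erase s) Δ := by
  rw [slow_mem_rn, slow_mem_rn]
  exact and_congr (slow_memW σ v) (σ.surjective.forall.trans (forall_congr' fun w =>
    imp_congr (hD v w) (not_congr (slow_br σ hD w))))

theorem slow_rtree {Δ' : α → α → Prop} (σ : Equiv.Perm α) (hD : ∀ a b, Δ' (σ a) (σ b) ↔ Δ a b)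
    (v : α) : σ v ∈ rtree (univ.erase (σ s)) Δ' ↔ v ∈ rtree (univ.erase s) Δ := by
  rw [slow_mem_rt, slow_mem_rt]
  refine and_congr (slow_memW σ v) (σ.surjective.forall.trans (forall_congr' fun w =>
    imp_congr ⟨fun k => ?_, fun k => k.lift σ fun a b => (hD a b).2⟩ (and_congr (slow_rn σ hD w)
      (and_congr (not_congr (slow_br σ hD w))
        (σ.surjective.exists.trans (exists_congr fun x => hD w x))))))
  have : Relation.ReflTransGen Δ (σ.symm (σ w)) (σ.symm (σ v)) :=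
    k.lift σ.symm fun a b k => (hD _ _).1 (by
      rwa [Equiv.apply_symm_apply, Equiv.apply_symm_apply])
  rwa [Equiv.symm_apply_apply, Equiv.symm_apply_apply] at this

theorem slow_cardW (s : α) : (univ.erase s).card = Fintype.card α - 1 := by
  rw [card_erase_of_mem (mem_univ s), card_univ]

theorem slow_good {Δ' : α → α → Prop} (σ : Equiv.Perm α) (hD : ∀ a b, Δ' (σ a) (σ b) ↔ Δ a b)
    (h : GoodH k lo hi (univ.erase s) Δ) : GoodH k lo hi (univ.erase (σ s)) Δ' := by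
  obtain ⟨h1, h2, h3, h4, h5⟩ := h
  have e1 : nsrc (univ.erase s) Δ = nsrc (univ.erase (σ s)) Δ' := by
    obtain ⟨S, a, b⟩ := slow_src (univ.erase s) Δ
    obtain ⟨S', a', b'⟩ := slow_src (univ.erase (σ s)) Δ'
    rw [← a, ← a']
    refine card_equiv σ fun v => ?_
    rw [b, b']
    exact (and_congr (slow_memW σ v)
      (σ.surjective.forall.trans (forall_congr' fun w => not_congr (hD w v)))).symm
  have e2 : nlink (univ.erase s) Δ = nlink (univ.erase (σ s)) Δ' := by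
    obtain ⟨S, a, b⟩ := slow_lnk (univ.erase s) Δ
    obtain ⟨S', a', b'⟩ := slow_lnk (univ.erase (σ s)) Δ'
    rw [← a, ← a']
    refine card_equiv σ fun v => ?_
    rw [b, b']
    exact (and_congr (slow_memW σ v) (σ.surjective.exists.trans (exists_congr fun x => and_congr
      (σ.surjective.forall.trans (forall_congr' fun w => iff_congr (hD v w) σ.injective.eq_iff))
      (σ.surjective.forall.trans
        (forall_congr' fun w => iff_congr (hD w x) σ.injective.eq_iff))))).symm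
  have e3 : (rtree (univ.erase s) Δ).card = (rtree (univ.erase (σ s)) Δ').card :=
    card_equiv σ fun v => (slow_rtree σ hD v).symm
  refine ⟨e1 ▸ h1, e2 ▸ h2, fun ⟨Z, z1, J, j1, Q, d, q1, z2, j2, c⟩ => h3 ?_, e3 ▸ h4, e3 ▸ h5⟩
  have hm : ∀ (S : Finset α) v, v ∈ (univ.filter fun v => σ v ∈ S) ↔ σ v ∈ S := fun S v =>
    mem_filter.trans (and_iff_right (mem_univ v))
  have hc : ∀ S : Finset α, ((univ.filter fun v => σ v ∈ S) ∩ RN (univ.erase s) Δ).card =
      (S ∩ RN (univ.erase (σ s)) Δ').card := fun S => card_equiv σ fun v => by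
    rw [mem_inter, mem_inter, hm, slow_rn σ hD]
  refine ⟨univ.filter fun v => σ v ∈ Z, fun v hv => (slow_memW σ v).1 (z1 ((hm _ _).1 hv)),
    univ.filter fun v => σ v ∈ J, fun v hv => (slow_memW σ v).1 (j1 ((hm _ _).1 hv)),
    univ.filter fun v => σ v ∈ Q,
    disjoint_left.2 fun v a b => disjoint_left.1 d ((hm _ _).1 a) ((hm _ _).1 b),
    (card_equiv σ (hm Q)).trans_le q1,
    fun v a b u e => (hm _ _).2 (z2 _ ((hm _ _).1 a) (mt (hm _ _).2 b) _ ((hD _ _).2 e)),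
    fun v a b u e => (hm _ _).2 (j2 _ ((hm _ _).1 a) (mt (hm _ _).2 b) _ ((hD _ _).2 e)), ?_⟩
  rw [hc, hc, slow_cardW]
  rwa [slow_cardW] at c

theorem GoodH.map (σ : Equiv.Perm α) (h : GoodH k lo hi (univ.erase s) Δ) :
    GoodH k lo hi (univ.erase (σ s)) fun a b => Δ (σ⁻¹ a) (σ⁻¹ b) :=
  slow_good σ (slow_hD σ Δ) h

theorem GoodD.map (σ : Equiv.Perm α) (h : GoodD k lo hi (univ.erase s) Δ) :
    GoodD k lo hi (univ.erase (σ s)) fun a b => Δ (σ⁻¹ a) (σ⁻¹ b) :=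
  ⟨h.1.map σ, h.2.map σ⟩

theorem Trm.two (h : Trm A π s Δ) {b : α} (hb : b ≠ s) :
    ((∀ u, ¬ Δ u b) → ∀ i, A i b ↔ i = π b ∨ i = π s) ∧
      ∀ u, Δ u b → ¬ Br Δ b → ∀ i, A i b ↔ i = π b ∨ i = π u := by
  refine ⟨fun h0 => π.surjective.forall.2 fun a => ?_,
    fun u hu h0 => π.surjective.forall.2 fun a => ?_⟩
  · rw [h.2, π.injective.eq_iff, π.injective.eq_iff]
    constructor
    · rintro ((k | k | k) | k)
      · exact absurd k (h0 a)
      · exact Or.inr k.1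
      · exact absurd k.1 hb
      · exact Or.inl k.1
    · rintro (rfl | rfl)
      · exact Or.inr ⟨rfl, Or.inl hb⟩
      · exact Or.inl (Or.inr (Or.inl ⟨rfl, mem_erase.2 ⟨hb, mem_univ _⟩, h0⟩))
  · rw [h.2, π.injective.eq_iff, π.injective.eq_iff]
    constructor
    · rintro ((k | k | k) | k)
      · exact Or.inr (eq_of_not_br h0 k hu)
      · exact absurd hu (k.2.2 u)
      · exact absurd k.1 hb
      · exact Or.inl k.1
    · rintro (rfl | rfl)
      · exact Or.inr ⟨rfl, Or.inl hb⟩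
      · exact Or.inl (Or.inl hu)

theorem slow_hub {r a b c : α} (ha : A r a) (hb : A r b) (hc : A r c) (h1 : a ≠ b) (h2 : a ≠ c)
    (h3 : b ≠ c) : r ∈ hub A :=
  mem_filter.2 ⟨mem_univ _, two_lt_card_iff.2 ⟨a, b, c, mem_filter.2 ⟨mem_univ _, ha⟩,
    mem_filter.2 ⟨mem_univ _, hb⟩, mem_filter.2 ⟨mem_univ _, hc⟩, h1, h2, h3⟩⟩

theorem slow_of_hub {r : α} (h : r ∈ hub A) :
    ∃ a b c, A r a ∧ A r b ∧ A r c ∧ a ≠ b ∧ a ≠ c ∧ b ≠ c := by
  obtain ⟨a, b, c, ha, hb, hc, k⟩ := two_lt_card_iff.1 (mem_filter.1 h).2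
  exact ⟨a, b, c, (mem_filter.1 ha).2, (mem_filter.1 hb).2, (mem_filter.1 hc).2, k⟩

theorem Trm.thin (h0 : Trm A π0 s0 Δ0) : ∃ T : Finset α,
    T.card ≤ 1 + nsrc (univ.erase s0) (rv Δ0) + nlink (univ.erase s0) Δ0 ∧
    ∀ π s Δ, Trm A π s Δ → ¬ A (π s) s → π s ∉ hub A → π s ∈ T := by
  obtain ⟨S, s1, s2⟩ := slow_src (univ.erase s0) (rv Δ0)
  obtain ⟨L, l1, l2⟩ := slow_lnk (univ.erase s0) Δ0
  refine ⟨(insert s0 (S ∪ L)).image π0,
    card_image_le.trans ((card_insert_le _ _).trans ?_), fun π s Δ h h1 h2 => ?_⟩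
  · have := card_union_le S L
    omega
  obtain ⟨v, hv⟩ := π0.surjective (π s)
  refine mem_image.2 ⟨v, ?_, hv⟩
  by_cases e : v = s0
  · exact mem_insert.2 (Or.inl e)
  have hW : v ∈ univ.erase s0 := mem_erase.2 ⟨e, mem_univ _⟩
  refine mem_insert_of_mem (mem_union.2 ?_)
  by_cases e' : ∀ w, ¬ Δ0 v w
  · exact Or.inl ((s2 v).2 ⟨hW, e'⟩)
  obtain ⟨w, hw⟩ := not_forall_not.1 e'
  have a1 : ∀ y, Δ0 v y → A (π s) y := fun y k => hv ▸ (h0.2 v y).2 (Or.inl (Or.inl k))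
  have a2 : A (π s) v := hv ▸ (h0.2 v v).2 (Or.inr ⟨rfl, Or.inl e⟩)
  have hws : w ≠ s := fun k => h1 (k ▸ a1 w hw)
  have hsrc : ∀ u, ¬ Δ u w := by
    rcases (h.2 s w).1 (a1 w hw) with (k | k | k) | k
    · exact absurd rfl (slow_ne h.1 k).1
    · exact k.2.2
    · exact absurd k.1 hws
    · exact absurd k.1.symm hws
  have a3 := (h.two hws).1 hsrc
  have a4 : π0 w = π w := ((a3 _).1 ((h0.2 w w).2
    (Or.inr ⟨rfl, Or.inl (slow_ne h0.1 hw).2⟩))).resolve_right fun k =>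
      slow_irr h0.1 hw (π0.injective (hv.trans k.symm))
  refine Or.inr ((l2 v).2 ⟨hW, w, fun y => ⟨fun k => ?_, fun k => k ▸ hw⟩,
    fun u => ⟨fun k => ?_, fun k => k ▸ hw⟩⟩)
  · by_contra k'
    exact h2 (slow_hub a2 (a1 y k) (a1 w hw) (slow_irr h0.1 k) (slow_irr h0.1 hw) k')
  · rcases (a3 _).1 ((h0.2 u w).2 (Or.inl (Or.inl k))) with k' | k'
    · exact absurd (π0.injective (k'.trans a4.symm)) (slow_irr h0.1 k)
    · exact π0.injective (k'.trans hv.symm)

/-- the only arc into a vertex other than the root -/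
def slow_E (s : α) (Δ : α → α → Prop) (a b : α) : Prop :=
  b ≠ s ∧ ∀ u, rootD s (univ.erase s) Δ u b ↔ u = a

/-- the first vertex of the chain of such arcs -/
def slow_Top (s : α) (Δ : α → α → Prop) (q v : α) : Prop :=
  Relation.ReflTransGen (slow_E s Δ) q v ∧ ∀ a, ¬ slow_E s Δ a q

theorem slow_top_ex (h : IsDag (univ.erase s) Δ) (v : α) : ∃ q, slow_Top s Δ q v := by
  obtain ⟨rk, hrk⟩ := h.acyc
  induction hk : rk v using Nat.strong_induction_on generalizing v with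
  | _ n ih =>
    by_cases e : ∀ a, ¬ slow_E s Δ a v
    · exact ⟨v, .refl, e⟩
    obtain ⟨a, ha⟩ := not_forall_not.1 e
    by_cases e' : a = s
    · exact ⟨s, .single (e' ▸ ha), fun _ k => k.1 rfl⟩
    · obtain ⟨q, h1, h2⟩ := ih _ (hk ▸ hrk _ _ (qdag_arc ((ha.2 a).2 rfl) e' ha.1)) a rfl
      exact ⟨q, h1.tail ha, h2⟩

theorem slow_top_par {q u v : α} (h : slow_Top s Δ q v) (hv : v ≠ q)
    (k : rootD s (univ.erase s) Δ u v) : slow_Top s Δ q u ∧ slow_E s Δ u v := by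
  rcases h.1.cases_tail with e | ⟨c, h1, h2⟩
  · exact absurd e hv
  · obtain rfl : u = c := (h2.2 u).1 k
    exact ⟨⟨h1, h.2⟩, h2⟩

theorem slow_top_iff {q a b : α} (k : slow_E s Δ a b) : slow_Top s Δ q a ↔ slow_Top s Δ q b :=
  ⟨fun h => ⟨h.1.tail k, h.2⟩, fun h =>
    (slow_top_par h (fun e => h.2 a (e ▸ k)) ((k.2 a).2 rfl)).1⟩

theorem slow_col (h : Trm A π s Δ) {b x : α} (hb : b ≠ s) (hx : x ≠ b)
    (k : ∀ i, A i b ↔ i = π x ∨ i = π b) : slow_E s Δ x b := by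
  refine ⟨hb, fun u => ⟨fun e => ?_, ?_⟩⟩
  · rcases (k _).1 ((h.2 u b).2 (Or.inl e)) with e' | e'
    · exact π.injective e'
    · obtain rfl := π.injective e'
      exact absurd e ((slow_gr h.1).irr u)
  · rintro rfl
    exact ((h.2 u b).1 ((k _).2 (Or.inl rfl))).resolve_right fun e => hx e.1

theorem slow_same (h : Trm A π s Δ) (hc : s ∈ hub (rv A)) {b i j q : α} (hij : i ≠ j)
    (k : ∀ r, A r b ↔ r = i ∨ r = j) : slow_Top s Δ q (π⁻¹ i) ↔ slow_Top s Δ q (π⁻¹ j) := by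
  obtain ⟨x, rfl⟩ := π.surjective i
  obtain ⟨y, rfl⟩ := π.surjective j
  rw [Equiv.Perm.inv_def, Equiv.symm_apply_apply, Equiv.symm_apply_apply]
  have hxy : x ≠ y := fun e => hij (congrArg π e)
  have hb : b ≠ s := by
    rintro rfl
    obtain ⟨a1, a2, a3, h1, h2, h3, e1, e2, e3⟩ := slow_of_hub hc
    rcases (k _).1 h1 with rfl | rfl <;> rcases (k _).1 h2 with rfl | rfl <;>
      rcases (k _).1 h3 with rfl | rfl <;> contradiction
  rcases (k _).1 ((h.2 b b).2 (Or.inr ⟨rfl, Or.inl hb⟩)) with e | e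
  · obtain rfl := π.injective e
    exact (slow_top_iff (slow_col h hb hxy.symm fun r => (k r).trans or_comm)).symm
  · obtain rfl := π.injective e
    exact slow_top_iff (slow_col h hb hxy k)

theorem slow_tree (h0 : Trm A π0 s0 Δ0) (h : Trm A π s Δ) (hc : s0 ∈ hub (rv A)) {q : α}
    (hq : slow_Top s0 Δ0 q (π0⁻¹ (π s))) {u : α} (hu : u ∈ rtree (univ.erase s) Δ) :
    slow_Top s0 Δ0 q (π0⁻¹ (π u)) := by
  obtain ⟨rk, hrk⟩ := h.1.acyc
  induction hk : rk u using Nat.strong_induction_on generalizing u with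
  | _ n ih =>
    have h1 : u ≠ s := (mem_erase.1 (slow_mem_rt.1 hu).1).1
    by_cases e : ∀ w, ¬ Δ w u
    · exact (slow_same h0 hc (π.injective.ne h1) ((h.two h1).1 e)).2 hq
    obtain ⟨w, hw⟩ := not_forall_not.1 e
    exact (slow_same h0 hc (π.injective.ne (slow_irr h.1 hw).symm)
      ((h.two h1).2 w hw ((slow_mem_rt.1 hu).2 u .refl).2.1)).2
      (ih _ (hk ▸ hrk _ _ hw) (rtree_anc hu (.single hw)) rfl)

theorem slow_hub_rn (h : Trm A π s Δ) {x : α} (hx : x ≠ s) (k : π x ∈ hub A) :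
    x ∈ RN (univ.erase s) Δ ∧ ∃ w, Δ x w := by
  have a1 : ∀ y, A (π x) y → y ≠ x → Δ x y ∨ (y = s ∧ ∀ w, ¬ Δ x w) := fun y h1 h2 => by
    rcases (h.2 x y).1 h1 with (e | e | e) | e
    · exact Or.inl e
    · exact absurd e.1 hx
    · exact Or.inr ⟨e.1, e.2.2⟩
    · exact absurd e.1.symm h2
  have a2 : ∀ y y', A (π x) y → A (π x) y' → y ≠ x → y' ≠ x → y ≠ y' →
      ∃ y y', y ≠ y' ∧ Δ x y ∧ Δ x y' := fun y y' h1 h2 h3 h4 h5 => by
    rcases a1 y h1 h3 with e | e <;> rcases a1 y' h2 h4 with e' | e'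
    · exact ⟨y, y', h5, e, e'⟩
    · exact absurd e (e'.2 y)
    · exact absurd e' (e.2 y')
    · exact absurd (e.1.trans e'.1.symm) h5
  obtain ⟨y, y', h1, h2, h3⟩ : ∃ y y', y ≠ y' ∧ Δ x y ∧ Δ x y' := by
    obtain ⟨a, b, c, ha, hb, hc, e1, e2, e3⟩ := slow_of_hub k
    by_cases k1 : a = x
    · exact a2 b c hb hc (k1 ▸ e1.symm) (k1 ▸ e2.symm) e3
    by_cases k2 : b = x
    · exact a2 a c ha hc k1 (k2 ▸ e3.symm) e2
    · exact a2 a b ha hb k1 k2 e1
  refine ⟨slow_mem_rn.2 ⟨mem_erase.2 ⟨hx, mem_univ _⟩, fun v hv ⟨a, a', e1, e2, e3⟩ => ?_⟩, y, h2⟩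
  rcases h.1.rule x v hv with e | e
  · exact h1 ((e y h2).trans (e y' h3).symm)
  · exact e1 ((e a e2).trans (e a' e3).symm)

theorem slow_top_br {q : α} (hq : q ≠ s) (h : ∀ a, ¬ slow_E s Δ a q) : Br Δ q := by
  by_contra k
  by_cases e : ∀ w, ¬ Δ w q
  · refine h s ⟨hq, fun u => ⟨?_, ?_⟩⟩
    · rintro (e' | e' | e')
      · exact absurd e' (e u)
      · exact e'.1
      · exact absurd e'.1 hq
    · rintro rfl
      exact Or.inr (Or.inl ⟨rfl, mem_erase.2 ⟨hq, mem_univ _⟩, e⟩)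
  · obtain ⟨w, hw⟩ := not_forall_not.1 e
    refine h w ⟨hq, fun u => ⟨?_, fun e' => e' ▸ Or.inl hw⟩⟩
    rintro (e' | e' | e')
    · exact eq_of_not_br k e' hw
    · exact absurd hw (e'.2.2 w)
    · exact absurd e'.1 hq

theorem slow_walk {q v : α} (hq : q ≠ s) (h : Relation.ReflTransGen (slow_E s Δ) q v) :
    v ≠ s ∧ Relation.ReflTransGen Δ q v := by
  induction h with
  | refl => exact ⟨hq, .refl⟩
  | tail _ k ih => exact ⟨k.1, ih.2.tail (qdag_arc ((k.2 _).2 rfl) ih.1 k.1)⟩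

theorem slow_anc (h : IsDag (univ.erase s) Δ) {u v : α} (hv : v ≠ s) (ht : slow_Top s Δ s v)
    (k : Relation.ReflTransGen Δ u v) : u ≠ s ∧ slow_Top s Δ s u := by
  induction k using Relation.ReflTransGen.head_induction_on with
  | refl => exact ⟨hv, ht⟩
  | head k _ ih => exact ⟨(slow_ne h k).1, (slow_top_par ih.2 ih.1 (Or.inl k)).1⟩

theorem slow_nbr {v : α} (hv : v ≠ s) (ht : slow_Top s Δ s v) : ¬ Br Δ v := by
  rintro ⟨a, a', h1, h2, h3⟩
  exact h1 (((slow_top_par ht hv (Or.inl h3)).2.2 a).1 (Or.inl h2))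

theorem slow_in_rtree (h : IsDag (univ.erase s) Δ) {v : α} (hv : v ≠ s) (ht : slow_Top s Δ s v)
    (h1 : v ∈ RN (univ.erase s) Δ) (h2 : ∃ w, Δ v w) : v ∈ rtree (univ.erase s) Δ := by
  refine slow_mem_rt.2 ⟨mem_erase.2 ⟨hv, mem_univ _⟩, fun u k => ?_⟩
  obtain ⟨a1, a2⟩ := slow_anc h hv ht k
  rcases k.cases_head with rfl | ⟨y, k1, k2⟩
  · exact ⟨h1, slow_nbr a1 a2, h2⟩
  obtain ⟨b1, b2⟩ := slow_anc h hv ht k2
  refine ⟨slow_mem_rn.2 ⟨mem_erase.2 ⟨a1, mem_univ _⟩, fun x hx => ?_⟩, slow_nbr a1 a2, y, k1⟩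
  rcases h.rule u x hx with e | e
  · exact e y k1 ▸ slow_nbr b1 b2
  · rintro ⟨a, a', e1, e2, e3⟩
    exact e1 ((e a e2).trans (e a' e3).symm)

theorem Trm.in_tree (h0 : Trm A π0 s0 Δ0) (g0 : GoodD k lo hi (univ.erase s0) Δ0)
    (h : Trm A π s Δ) (g : GoodD k lo hi (univ.erase s) Δ)
    (h1 : ((Fintype.card α - 1 : ℕ) : ℝ) ^ (9 / 10 : ℝ) + k ≤ lo)
    (h2 : 3 / 10 * lam (Fintype.card α - 1) + 1 ≤ lo)
    (h3 : 6 / 10 * lam (Fintype.card α - 1) + 1 + k ≤ 2 * lo)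
    (hc : s0 ∈ hub (rv A)) (hr : π s ∈ hub A) :
    π0⁻¹ (π s) ∈ insert s0 (rtree (univ.erase s0) Δ0) := by
  have hπ : ∀ r, π0 (π0⁻¹ r) = r := fun r => by
    rw [Equiv.Perm.inv_def, Equiv.apply_symm_apply]
  obtain ⟨q, hq⟩ := slow_top_ex h0.1 (π0⁻¹ (π s))
  by_cases e : q = s0
  · subst e
    by_cases e' : π0⁻¹ (π s) = q
    · exact mem_insert.2 (Or.inl e')
    · obtain ⟨a1, a2⟩ := slow_hub_rn h0 e' ((hπ _).symm ▸ hr)
      exact mem_insert_of_mem (slow_in_rtree h0.1 e' hq a1 a2)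
  refine (g0.1.2.2.1 ?_).elim
  have hm : ∀ x, x ∈ (univ.filter (slow_Top s0 Δ0 q)) ↔ slow_Top s0 Δ0 q x := fun x =>
    mem_filter.trans (and_iff_right (mem_univ x))
  obtain ⟨S, s1, s2⟩ := slow_a0 (univ.erase s) Δ
  have c1 : (insert s S).card ≤
      (univ.filter (slow_Top s0 Δ0 q) ∩ RN (univ.erase s0) Δ0).card := by
    refine card_le_card_of_injOn (fun u => π0⁻¹ (π u)) (fun u hu => ?_)
      fun u _ u' _ k => π.injective (π0⁻¹.injective k)
    have a1 : slow_Top s0 Δ0 q (π0⁻¹ (π u)) ∧ π u ∈ hub A := by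
      rcases mem_insert.1 (mem_coe.1 hu) with rfl | hu
      · exact ⟨hq, hr⟩
      obtain ⟨b1, y, y', b2, b3, b4⟩ := (s2 u).1 hu
      exact ⟨slow_tree h0 h hc hq b1, slow_hub ((h.2 u u).2 (Or.inr ⟨rfl, Or.inl
        (slow_ne h.1 b3).1⟩)) ((h.2 u y).2 (Or.inl (Or.inl b3)))
        ((h.2 u y').2 (Or.inl (Or.inl b4))) (slow_irr h.1 b3) (slow_irr h.1 b4) b2⟩
    exact mem_coe.2 (mem_inter.2 ⟨(hm _).2 a1.1,
      (slow_hub_rn h0 (slow_walk e a1.1.1).1 ((hπ _).symm ▸ a1.2)).1⟩)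
  rw [card_insert_of_notMem fun k =>
    notMem_erase s univ (slow_mem_rt.1 ((s2 s).1 k).1).1] at c1
  have c2 := rtree_le h.1
  have c3 := g.1.2.1
  have c4 := g.1.2.2.2.1
  have c5 : lo ≤ (univ.filter (slow_Top s0 Δ0 q) ∩ RN (univ.erase s0) Δ0).card + k := by omega
  have c6 : lo ≤ (rtree (univ.erase s0) Δ0 ∩ RN (univ.erase s0) Δ0).card :=
    g0.1.2.2.2.1.trans (card_le_card fun x hx =>
      mem_inter.2 ⟨hx, ((slow_mem_rt.1 hx).2 x .refl).1⟩)
  have c7 : (lo : ℝ) ≤ (univ.filter (slow_Top s0 Δ0 q) ∩ RN (univ.erase s0) Δ0).card + k := by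
    exact_mod_cast c5
  have c8 : (lo : ℝ) ≤ (rtree (univ.erase s0) Δ0 ∩ RN (univ.erase s0) Δ0).card := by
    exact_mod_cast c6
  refine ⟨univ.filter (slow_Top s0 Δ0 q),
    fun x hx => mem_erase.2 ⟨(slow_walk e ((hm x).1 hx).1).1, mem_univ _⟩,
    rtree (univ.erase s0) Δ0, fun x hx => (slow_mem_rt.1 hx).1, {q},
    disjoint_left.2 fun x a b =>
      ((slow_mem_rt.1 b).2 q (slow_walk e ((hm x).1 a).1).2).2.1 (slow_top_br e hq.2),
    by rw [card_singleton]; omega,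
    fun v a b u k => (hm u).2 (slow_top_par ((hm v).1 a) (mt mem_singleton.2 b) (Or.inl k)).1,
    fun v a _ u k => rtree_anc a (.single k), Or.inl ?_⟩
  rw [slow_cardW]
  exact ⟨by linarith only [h1, c7], by linarith only [h2, c8], by linarith only [h3, c7, c8]⟩

omit [Fintype α] in
theorem slow_inv (π : Equiv.Perm α) (s : α) : π⁻¹ (π s) = s := by
  rw [Equiv.Perm.inv_def, Equiv.symm_apply_apply]

theorem slow_ones (A : α → α → Prop) : ∃ O : Finset (α × α), O.card ≤ 3 * Fintype.card α ∧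
    ∀ π s Δ, Trm A π s Δ → A (π s) s → (π s, s) ∈ O := by
  by_cases e : ∃ π s Δ, Trm A π s Δ
  · obtain ⟨π0, s0, Δ0, h0⟩ := e
    exact ⟨_, h0.ones, fun π s Δ _ k => mem_filter.2 ⟨mem_univ _, k⟩⟩
  · exact ⟨∅, Nat.zero_le _, fun π s Δ h _ => absurd ⟨π, s, Δ, h⟩ e⟩

theorem slow_thin (A : α → α → Prop) (k lo hi : ℕ) : ∃ T : Finset α, T.card ≤ 2 * k ∧
    ∀ π s Δ, Trm A π s Δ → GoodD k lo hi (univ.erase s) Δ → ¬ A (π s) s → π s ∉ hub A →
      π s ∈ T := by
  by_cases e : ∃ π s Δ, Trm A π s Δ ∧ GoodD k lo hi (univ.erase s) Δ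
  · obtain ⟨π0, s0, Δ0, h0, g0⟩ := e
    obtain ⟨T, t1, t2⟩ := h0.thin
    have a1 := g0.2.1
    have a2 := g0.1.2.1
    exact ⟨T, by omega, fun π s Δ h _ => t2 π s Δ h⟩
  · exact ⟨∅, Nat.zero_le _, fun π s Δ h g => absurd ⟨π, s, Δ, h, g⟩ e⟩

theorem slow_rows (A : α → α → Prop) (hi : ℕ)
    (h1 : ((Fintype.card α - 1 : ℕ) : ℝ) ^ (9 / 10 : ℝ) + k ≤ lo)
    (h2 : 3 / 10 * lam (Fintype.card α - 1) + 1 ≤ lo)
    (h3 : 6 / 10 * lam (Fintype.card α - 1) + 1 + k ≤ 2 * lo) :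
    ∃ R : Finset α, R.card ≤ hi + 1 ∧ ∀ π s Δ, Trm A π s Δ → GoodD k lo hi (univ.erase s) Δ →
      s ∈ hub (rv A) → π s ∈ hub A → π s ∈ R := by
  by_cases e : ∃ π s Δ, Trm A π s Δ ∧ GoodD k lo hi (univ.erase s) Δ ∧ s ∈ hub (rv A)
  · obtain ⟨π0, s0, Δ0, h0, g0, hc⟩ := e
    refine ⟨(insert s0 (rtree (univ.erase s0) Δ0)).image π0, card_image_le.trans
      ((card_insert_le _ _).trans (Nat.succ_le_succ g0.1.2.2.2.2)), fun π s Δ h g _ hr =>
      mem_image.2 ⟨_, h0.in_tree g0 h g h1 h2 h3 hc hr, ?_⟩⟩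
    rw [Equiv.Perm.inv_def, Equiv.apply_symm_apply]
  · exact ⟨∅, Nat.zero_le _, fun π s Δ h g k => absurd ⟨π, s, Δ, h, g, k⟩ e⟩

theorem slow_pairs (A : α → α → Prop) (hi : ℕ)
    (h1 : ((Fintype.card α - 1 : ℕ) : ℝ) ^ (9 / 10 : ℝ) + k ≤ lo)
    (h2 : 3 / 10 * lam (Fintype.card α - 1) + 1 ≤ lo)
    (h3 : 6 / 10 * lam (Fintype.card α - 1) + 1 + k ≤ 2 * lo) :
    ∃ P : Finset (α × α),
      P.card ≤ 3 * Fintype.card α + 2 * (2 * k * Fintype.card α) + (hi + 1) ^ 2 ∧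
      ∀ π s Δ, Trm A π s Δ → GoodD k lo hi (univ.erase s) Δ → (π s, s) ∈ P := by
  obtain ⟨O, o1, o2⟩ := slow_ones A
  obtain ⟨T, t1, t2⟩ := slow_thin A k lo hi
  obtain ⟨T', t1', t2'⟩ := slow_thin (rv A) k lo hi
  obtain ⟨R, r1, r2⟩ := slow_rows A hi h1 h2 h3
  obtain ⟨C, r1', r2'⟩ := slow_rows (rv A) hi h1 h2 h3
  refine ⟨O ∪ T ×ˢ univ ∪ univ ×ˢ T' ∪ R ×ˢ C, ?_, fun π s Δ h g => ?_⟩
  · have a1 := card_union_le (O ∪ T ×ˢ univ ∪ univ ×ˢ T') (R ×ˢ C)
    have a2 := card_union_le (O ∪ T ×ˢ univ) (univ ×ˢ T')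
    have a3 := card_union_le O (T ×ˢ univ)
    have a4 : (T ×ˢ (univ : Finset α)).card ≤ 2 * k * Fintype.card α := by
      rw [card_product, card_univ]
      exact Nat.mul_le_mul_right _ t1
    have a5 : ((univ : Finset α) ×ˢ T').card ≤ 2 * k * Fintype.card α := by
      rw [card_product, card_univ, mul_comm]
      exact Nat.mul_le_mul_right _ t1'
    have a6 : (R ×ˢ C).card ≤ (hi + 1) ^ 2 := by
      rw [card_product, sq]
      exact Nat.mul_le_mul r1 r1'
    omega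
  have b1 := t2' _ _ _ h.tr (g.rev.map π)
  have b2 := r2' _ _ _ h.tr (g.rev.map π)
  rw [slow_inv] at b1 b2
  by_cases e1 : A (π s) s
  · exact mem_union_left _ (mem_union_left _ (mem_union_left _ (o2 π s Δ h e1)))
  by_cases e2 : π s ∈ hub A
  · by_cases e3 : s ∈ hub (rv A)
    · exact mem_union_right _ (mem_product.2 ⟨r2 π s Δ h g e3 e2, b2 e2 e3⟩)
    · exact mem_union_left _ (mem_union_right _ (mem_product.2 ⟨mem_univ _, b1 e1 e3⟩))
  · exact mem_union_left _ (mem_union_left _ (mem_union_right _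
      (mem_product.2 ⟨t2 π s Δ h g e1 e2, mem_univ _⟩)))

theorem lower_comb (hn : 2 ≤ Fintype.card α)
    (h1 : ((Fintype.card α - 1 : ℕ) : ℝ) ^ (9 / 10 : ℝ) + k ≤ lo)
    (h2 : 3 / 10 * lam (Fintype.card α - 1) + 1 ≤ lo)
    (h3 : 6 / 10 * lam (Fintype.card α - 1) + 1 + k ≤ 2 * lo) :
    (Fintype.card α).factorial *
        ∑ s : α, ((dags (univ.erase s)).filter (GoodD k lo hi (univ.erase s))).card ≤
      numND (Fintype.card α) *
        (3 * Fintype.card α + 2 * (2 * k * Fintype.card α) + (hi + 1) ^ 2) := by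
  rw [← card_sigma, ← Fintype.card_perm, ← card_univ (α := Equiv.Perm α), ← card_product,
    ← card_ndr hn, mul_comm]
  have hm : ∀ x : Equiv.Perm α × (Σ _ : α, α → α → Prop), x ∈ (univ : Finset (Equiv.Perm α)) ×ˢ
      (univ.sigma fun s => (dags (univ.erase s)).filter (GoodD k lo hi (univ.erase s))) →
      IsDag (univ.erase x.2.1) x.2.2 ∧ GoodD k lo hi (univ.erase x.2.1) x.2.2 := fun x hx => by
    have a := mem_filter.1 (mem_sigma.1 (mem_product.1 hx).2).2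
    exact ⟨qdag_mem_dags.1 a.1, a.2⟩
  refine card_le_mul_card_image_of_maps_to
    (f := fun x a b => mat (rootD x.2.1 (univ.erase x.2.1) x.2.2) x.2.1 (x.1⁻¹ a) b)
    (fun x hx => mem_filter.2 ⟨mem_univ _, ((slow_gr (hm x hx).1).ndr_mat hn).perm x.1⁻¹⟩) _
    fun A _ => ?_
  obtain ⟨P, p1, p2⟩ := slow_pairs A hi h1 h2 h3
  have ht : ∀ x : Equiv.Perm α × (Σ _ : α, α → α → Prop), IsDag (univ.erase x.2.1) x.2.2 →
      (fun a b => mat (rootD x.2.1 (univ.erase x.2.1) x.2.2) x.2.1 (x.1⁻¹ a) b) = A →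
      Trm A x.1 x.2.1 x.2.2 := fun x a b => ⟨a, fun u v => by
        rw [← b]
        beta_reduce
        rw [slow_inv]⟩
  refine (card_le_card_of_injOn (fun x => (x.1 x.2.1, x.2.1)) (fun x hx => ?_) ?_).trans p1
  · obtain ⟨a, b⟩ := mem_filter.1 (mem_coe.1 hx)
    exact mem_coe.2 (p2 _ _ _ (ht x (hm x a).1 b) (hm x a).2)
  · rintro ⟨π, s, Δ⟩ hx ⟨π', s', Δ'⟩ hx' e
    obtain ⟨a, b⟩ := mem_filter.1 (mem_coe.1 hx)
    obtain ⟨a', b'⟩ := mem_filter.1 (mem_coe.1 hx')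
    obtain ⟨e1, e2⟩ := Prod.mk.inj e
    obtain rfl : s = s' := e2
    obtain ⟨e3, e4⟩ := (ht _ (hm _ a).1 b).unique (ht (π', ⟨s, Δ'⟩) (hm _ a').1 b') e1
    obtain rfl : π = π' := e3
    obtain rfl : Δ = Δ' := e4
    rfl

end Pool.Agent.Work.MP_5391ad_co
end

-- merged part: Pool.Agent.Work.MP_5391ad_co.SSmall
section
/-! Cores with a small root tree.
`forest_le`: let `L` be the vertices of `P` without in-neighbour in `P` (sources or children of
`T`), `I1`, `I2` those with one, at least two. A vertex of `I1` has in-degree one (an in-neighbour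
in `T ⊆ RN` excludes a second one), so its in-neighbour is a link tail; `|I1| + 2 |I2| ≤ |P|`.
`chain_le`: if the tree has more than `2 σ` vertices, two such `y` have a common descendant in the
tree and are comparable (`rtree_total`); the others are strict ancestors of the one of largest
rank, which are not its descendants.
`small_sur`: if all vertices outside the tree `T` have out-degree at most one, `forest_le` gives
`|W| ≤ σ + K`. So take `y ∉ T` of out-degree at least two and of minimal rank, and let `P` be its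
strict ancestors outside `T`; they have exactly one out-neighbour, in `insert y P`. Some vertex of
`insert y P` has in-degree at least two (as `y ∉ T`), with in-neighbours outside `RN`, so
`2 ≤ |P|`; all in-neighbours of `y` lie in `P`. Let `l ∈ P` have minimal rank, `o` its parent (in
`T`, or none), and `Δ' u w := (Δ u w ∧ u ∉ P ∧ w ∉ P) ∨ (Δ u l ∧ w = y)`. Then `y` is in the new
tree; tree vertices of `Δ'` which are not descendants of `y` lie in `T`; a vertex of `T` is such a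
vertex or a sink of `Δ'`; a sink of `Δ'` is a sink of `Δ` or in `T` (`rtree_le` for the last
bound). A vertex `v` of in-degree at least two in `Δ'` lies outside `T ∪ insert y P`, as do its
descendants, which are the same in both digraphs.
`sm_fiber`: choose `y` (`chain_le`), `l`, `tgt`, `par`; with `f = |feed|` there are at most
`j (j+2)^j (f+1)^(j-1)` codes, each of weight at most `(3k+3)/(f+1)` over `a0 W' (rv Δ')`, and
`a0 W' Δ' ≤ |W| + 1`. `small_tree`: sum over `W' ⊆ W` by the size of `W \ W'` (`cWt_eq`). -/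

namespace Pool.Agent.Work.MP_5391ad_co

open Finset
open scoped Classical

variable {α : Type*} {W : Finset α} {Δ : α → α → Prop} {k σ : ℕ}

theorem forest_le (h : IsDag W Δ) {P T : Finset α} (hP : P ⊆ W) (hT : T ⊆ RN W Δ)
    (h1 : ∀ p ∈ P, ¬ Br (rv Δ) p) (h2 : ∀ p ∈ P, ∀ u, Δ u p → u ∈ P ∨ u ∈ T)
    (hd : ∀ u, odeg W Δ u ≤ k) : P.card ≤ 2 * (k * T.card + nsrc W Δ) + nlink W Δ := by
  set L := P.filter fun p => ∀ u ∈ P, ¬ Δ u p with hL
  set I := P.filter fun p => (P.filter fun u => Δ u p).card = 1 with hI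
  have a1 : L.card ≤ k * T.card + nsrc W Δ := by
    have : L ⊆ T.biUnion (fun u => W.filter (Δ u)) ∪ W.filter fun v => ∀ w, ¬ Δ w v := by
      intro p hp
      obtain ⟨b1, b2⟩ := mem_filter.1 hp
      by_cases e : ∃ u, Δ u p
      · obtain ⟨u, e⟩ := e
        exact mem_union_left _ (mem_biUnion.2 ⟨u, (h2 p b1 u e).resolve_left fun e' => b2 u e' e,
          mem_filter.2 ⟨hP b1, e⟩⟩)
      · exact mem_union_right _ (mem_filter.2 ⟨hP b1, fun w e' => e ⟨w, e'⟩⟩)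
    refine (card_le_card this).trans ((card_union_le _ _).trans (Nat.add_le_add_right ?_ _))
    rw [mul_comm]
    exact card_biUnion_le_card_mul _ _ _ fun u _ => hd u
  have a2 : I.card ≤ nlink W Δ := by
    have : ∀ p ∈ I, ∃ q ∈ P, (∀ w, Δ q w ↔ w = p) ∧ ∀ w, Δ w p ↔ w = q := by
      intro p hp
      obtain ⟨b1, b2⟩ := mem_filter.1 hp
      obtain ⟨q, b3⟩ := card_eq_one.1 b2
      have b4 := mem_filter.1 (b3 ▸ mem_singleton_self q)
      refine ⟨q, b4.1, fun w => ⟨fun e => eq_of_not_br (h1 q b4.1) e b4.2, fun e => e ▸ b4.2⟩,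
        fun w => ⟨fun e => ?_, fun e => e ▸ b4.2⟩⟩
      rcases h2 p b1 w e with e' | e'
      · exact mem_singleton.1 (b3 ▸ mem_filter.2 ⟨e', e⟩)
      · exact eq_of_not_br ((mem_filter.1 (hT e')).2 p e) e b4.2
    choose! g g1 g2 g3 using this
    refine card_le_card_of_injOn g (fun p hp => mem_coe.2 (mem_filter.2 ⟨hP (g1 p hp), p, g2 p hp,
      g3 p hp⟩)) fun p hp p' hp' e => ?_
    exact (g2 p' hp' p).1 (e ▸ (g2 p hp p).2 rfl)
  have a3 : ∑ p ∈ P, (P.filter fun u => Δ u p).card ≤ P.card := by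
    simp only [card_filter]
    rw [sum_comm, card_eq_sum_ones]
    refine sum_le_sum fun q hq => ?_
    rw [← card_filter]
    exact card_le_one.2 fun a ha b hb =>
      eq_of_not_br (h1 q hq) (mem_filter.1 ha).2 (mem_filter.1 hb).2
  have a4 : ∑ _p ∈ P, 2 ≤ ∑ p ∈ P, ((P.filter fun u => Δ u p).card +
      2 * (if ∀ u ∈ P, ¬ Δ u p then 1 else 0) +
      if (P.filter fun u => Δ u p).card = 1 then 1 else 0) := by
    refine sum_le_sum fun p _ => ?_
    by_cases e : ∀ u ∈ P, ¬ Δ u p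
    · rw [if_pos e]
      omega
    · have : 0 < (P.filter fun u => Δ u p).card := by
        push Not at e
        obtain ⟨u, e1, e2⟩ := e
        exact card_pos.2 ⟨u, mem_filter.2 ⟨e1, e2⟩⟩
      split_ifs <;> omega
  rw [sum_add_distrib, sum_add_distrib, ← mul_sum, ← card_filter, ← card_filter, sum_const,
    smul_eq_mul, ← hL, ← hI] at a4
  omega

theorem ssmall_rk {rk : α → ℕ} (hr : ∀ a b, Δ a b → rk a < rk b) {a b : α}
    (k : Relation.ReflTransGen Δ a b) : a = b ∨ rk a < rk b := by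
  induction k with
  | refl => exact Or.inl rfl
  | tail _ e ih =>
    have := hr _ _ e
    rcases ih with rfl | ih
    · exact Or.inr this
    · exact Or.inr (ih.trans this)

theorem chain_le (h : IsDag W Δ) (σ : ℕ) : ((rtree W Δ).filter fun y =>
    ((rtree W Δ).filter fun v => ¬ Relation.ReflTransGen Δ y v).card ≤ σ).card ≤ 2 * σ + 1 := by
  obtain ⟨rk, hr⟩ := h.acyc
  set Y := (rtree W Δ).filter fun y =>
    ((rtree W Δ).filter fun v => ¬ Relation.ReflTransGen Δ y v).card ≤ σ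
  rcases Y.eq_empty_or_nonempty with e | e
  · simp [e]
  obtain ⟨y, h1, h2⟩ := exists_max_image Y rk e
  have : Y ⊆ insert y ((rtree W Δ).filter fun v => ¬ Relation.ReflTransGen Δ y v) := by
    intro v hv
    rw [mem_insert, or_iff_not_imp_left]
    refine fun e' => mem_filter.2 ⟨(mem_filter.1 hv).1, fun k => ?_⟩
    have := h2 v hv
    rcases ssmall_rk hr k with k' | k'
    · exact e' k'.symm
    · omega
  have a1 := card_le_card this
  have a2 := card_insert_le y ((rtree W Δ).filter fun v => ¬ Relation.ReflTransGen Δ y v)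
  have a3 := (mem_filter.1 h1).2
  omega

/-- possible parents of the deleted vertices -/
noncomputable def feed (W : Finset α) (Δ : α → α → Prop) (y : α) : Finset α :=
  ((rtree W Δ).filter fun v => ¬ Relation.ReflTransGen Δ y v) ∪ W.filter fun v => ∀ w, ¬ Δ v w

/-- removal of the first block after a small tree -/
def Sm (k σ : ℕ) (W : Finset α) (Δ : α → α → Prop) (W' : Finset α) (Δ' : α → α → Prop) : Prop :=
  a0 W' (rv Δ') ≤ a0 W (rv Δ) ∧ ∃ y ∈ rtree W' Δ',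
    ((rtree W' Δ').filter fun v => ¬ Relation.ReflTransGen Δ' y v).card ≤ σ ∧
    (feed W' Δ' y).card ≤ 2 * σ + k ∧ (feed W' Δ' y).card + 1 ≤ (3 * k + 3) * a0 W Δ ∧
    ∃ l ∈ W \ W', ∃ par tgt : α → Option α,
      (∀ p a, tgt p = some a → p ∈ W \ W' ∧ a ∈ insert y (W \ W')) ∧
      (∀ p a, par p = some a → p ∈ (W \ W').erase l ∧ a ∈ feed W' Δ' y) ∧
      ∀ u w, Δ u w ↔ tgt u = some w ∨ par w = some u ∨ (w = l ∧ Δ' u y) ∨ (Δ' u w ∧ w ≠ y)

/-- the first block after the tree -/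
structure ssmall_H (W : Finset α) (Δ : α → α → Prop) (y l : α) (P : Finset α) : Prop where
  dag : IsDag W Δ
  yT : y ∉ rtree W Δ
  yP : y ∉ P
  yR : y ∈ RN W Δ
  yo : ∃ w, Δ y w ∧ w ∉ P
  PW : P ⊆ W
  PT : ∀ p ∈ P, p ∉ rtree W Δ
  out : ∀ p ∈ P, ∀ w, Δ p w → w = y ∨ w ∈ P
  one : ∀ p ∈ P, ¬ Br (rv Δ) p
  inn : ∀ p ∈ P, ∀ u, Δ u p → u ∈ P ∨ u ∈ rtree W Δ
  iny : ∀ u, Δ u y → u ∈ P
  lP : l ∈ P
  inl : ∀ u, Δ u l → u ∈ rtree W Δ
  ly : Relation.ReflTransGen Δ l y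

/-- the digraph without the block -/
def ssmall_D (Δ : α → α → Prop) (y l : α) (P : Finset α) (u w : α) : Prop :=
  (Δ u w ∧ u ∉ P ∧ w ∉ P) ∨ (Δ u l ∧ w = y)

theorem ssmall_T {u : α} (h : u ∈ rtree W Δ) : u ∈ RN W Δ ∧ ¬ Br Δ u ∧ ∃ w, Δ u w :=
  (mem_filter.1 h).2 u .refl

theorem ssmall_W {u : α} (h : u ∈ rtree W Δ) : u ∈ W := (mem_filter.1 h).1

theorem ssmall_TR {u v : α} (h : u ∈ rtree W Δ) (k : Δ u v) : ¬ Br Δ v :=
  (mem_filter.1 (ssmall_T h).1).2 v k

theorem ssmall_opt {R : α → α → Prop} (h : ∀ u w w', R u w → R u w' → w = w') :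
    ∃ f : α → Option α, ∀ u w, f u = some w ↔ R u w := by
  refine ⟨fun u => if e : ∃ w, R u w then some e.choose else none, fun u w => ?_⟩
  by_cases e : ∃ w, R u w
  · simp only [dif_pos e, Option.some.injEq]
    exact ⟨fun k => k ▸ e.choose_spec, fun k => h u _ _ e.choose_spec k⟩
  · simp only [dif_neg e]
    exact ⟨fun k => (by cases k), fun k => (e ⟨w, k⟩).elim⟩

section
variable {y l : α} {P : Finset α}

theorem ssmall_old {a x : α} (k : ssmall_D Δ y l P a x) (e : x ≠ y) : Δ a x :=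
  k.elim (fun k => k.1) fun k => (e k.2).elim

theorem ssmall_H.new (h : ssmall_H W Δ y l P) {a x : α} (k : Δ a x) (e1 : x ∉ P) (e2 : x ≠ y) :
    ssmall_D Δ y l P a x :=
  Or.inl ⟨k, fun e => (h.out a e x k).elim e2 e1, e1⟩

theorem ssmall_H.toy (h : ssmall_H W Δ y l P) {a : α} (k : ssmall_D Δ y l P a y) : Δ a l :=
  k.elim (fun k => (k.2.1 (h.iny a k.1)).elim) fun k => k.1

theorem ssmall_H.nbl (h : ssmall_H W Δ y l P) : ¬ Br Δ l := fun k => by
  obtain ⟨a, _, _, e, _⟩ := id k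
  exact ssmall_TR (h.inl a e) e k

theorem ssmall_H.br (h : ssmall_H W Δ y l P) {v : α} (k : Br (ssmall_D Δ y l P) v) :
    v ≠ y ∧ Br Δ v := by
  obtain ⟨a, a', e, k1, k2⟩ := k
  have : v ≠ y := by
    rintro rfl
    exact h.nbl ⟨a, a', e, h.toy k1, h.toy k2⟩
  exact ⟨this, a, a', e, ssmall_old k1 this, ssmall_old k2 this⟩

theorem ssmall_H.br' (h : ssmall_H W Δ y l P) {v : α} (k : Br Δ v) (e1 : v ∉ P) (e2 : v ≠ y) :
    Br (ssmall_D Δ y l P) v := by
  obtain ⟨a, a', e, k1, k2⟩ := k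
  exact ⟨a, a', e, h.new k1 e1 e2, h.new k2 e1 e2⟩

theorem ssmall_H.isDag (h : ssmall_H W Δ y l P) : IsDag (W \ P) (ssmall_D Δ y l P) := by
  refine ⟨?_, ?_, ?_⟩
  · rintro a b (⟨k1, k2, k3⟩ | ⟨k1, rfl⟩)
    · exact ⟨mem_sdiff.2 ⟨(h.dag.mem a b k1).1, k2⟩, mem_sdiff.2 ⟨(h.dag.mem a b k1).2, k3⟩⟩
    · exact ⟨mem_sdiff.2 ⟨(h.dag.mem a l k1).1, fun e => h.PT a e (h.inl a k1)⟩,
        mem_sdiff.2 ⟨(mem_filter.1 h.yR).1, h.yP⟩⟩
  · obtain ⟨rk, hr⟩ := h.dag.acyc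
    refine ⟨rk, ?_⟩
    rintro a b (⟨k1, -, -⟩ | ⟨k1, rfl⟩)
    · exact hr a b k1
    · have := hr a l k1
      rcases ssmall_rk hr h.ly with e | e
      · exact e ▸ this
      · exact this.trans e
  · rintro a b (⟨k1, k2, k3⟩ | ⟨k1, rfl⟩)
    · refine (h.dag.rule a b k1).imp (fun e w k => ?_) fun e w k =>
        e w (ssmall_old k fun e' => k2 (h.iny a (e' ▸ k1)))
      rcases k with k | k
      · exact e w k.1
      · exact (k3 (e l k.1 ▸ h.lP)).elim
    · exact Or.inr fun w k => eq_of_not_br h.nbl (h.toy k) k1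

theorem ssmall_H.rn (h : ssmall_H W Δ y l P) {u : α} (k : u ∈ RN W Δ) (e : u ∉ P) :
    u ∈ RN (W \ P) (ssmall_D Δ y l P) :=
  mem_filter.2 ⟨mem_sdiff.2 ⟨(mem_filter.1 k).1, e⟩, fun v k1 k2 =>
    (mem_filter.1 k).2 v (ssmall_old k1 (h.br k2).1) (h.br k2).2⟩

theorem ssmall_H.rn' (h : ssmall_H W Δ y l P) {u : α} (k : u ∈ RN (W \ P) (ssmall_D Δ y l P)) :
    u ∈ RN W Δ := by
  obtain ⟨k1, k2⟩ := mem_filter.1 k
  obtain ⟨k3, k4⟩ := mem_sdiff.1 k1
  refine mem_filter.2 ⟨k3, fun v e b => ?_⟩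
  have e1 : v ∉ P := fun e' => ssmall_TR ((h.inn v e' u e).resolve_left k4) e b
  have e2 : v ≠ y := fun e' => k4 (h.iny u (e' ▸ e))
  exact k2 v (h.new e e1 e2) (h.br' b e1 e2)

theorem ssmall_H.anc (h : ssmall_H W Δ y l P) {u v : α}
    (k : Relation.ReflTransGen (ssmall_D Δ y l P) u v) (e : v = y ∨ v ∈ rtree W Δ) :
    u = v ∨ u ∈ rtree W Δ := by
  induction k using Relation.ReflTransGen.head_induction_on with
  | refl => exact Or.inl rfl
  | @head a b k1 _ ih =>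
    right
    have : b = y ∨ b ∈ rtree W Δ := ih.elim (fun e' => e' ▸ e) Or.inr
    rcases this with rfl | e'
    · exact h.inl a (h.toy k1)
    · exact rtree_anc e' (.single (ssmall_old k1 fun e'' => h.yT (e'' ▸ e')))

theorem ssmall_H.tree (h : ssmall_H W Δ y l P) {v : α} (e : v = y ∨ v ∈ rtree W Δ)
    (k : ∃ w, ssmall_D Δ y l P v w) : v ∈ rtree (W \ P) (ssmall_D Δ y l P) := by
  have a1 : ∀ u, u = y ∨ u ∈ rtree W Δ →
      u ∈ RN (W \ P) (ssmall_D Δ y l P) ∧ ¬ Br (ssmall_D Δ y l P) u := by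
    rintro u (rfl | e')
    · exact ⟨h.rn h.yR h.yP, fun b => (h.br b).1 rfl⟩
    · exact ⟨h.rn (ssmall_T e').1 fun e'' => h.PT u e'' e', fun b => (ssmall_T e').2.1 (h.br b).2⟩
  refine mem_filter.2 ⟨(mem_filter.1 (a1 v e).1).1, fun u ku => ?_⟩
  have a2 := a1 u ((h.anc ku e).elim (fun e' => e' ▸ e) Or.inr)
  refine ⟨a2.1, a2.2, ?_⟩
  rcases ku.cases_head with rfl | ⟨w, k', -⟩
  · exact k
  · exact ⟨w, k'⟩

theorem ssmall_H.walk (h : ssmall_H W Δ y l P) {u v : α} (k : Relation.ReflTransGen Δ u v)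
    (e : v ∉ P) : Relation.ReflTransGen (ssmall_D Δ y l P) y v ∨
      (u ∉ P ∧ Relation.ReflTransGen (ssmall_D Δ y l P) u v) := by
  induction k using Relation.ReflTransGen.head_induction_on with
  | refl => exact Or.inr ⟨e, .refl⟩
  | @head a b k1 _ ih =>
    rcases ih with ih | ⟨i1, i2⟩
    · exact Or.inl ih
    by_cases e' : a ∈ P
    · exact Or.inl (((h.out a e' b k1).resolve_right i1) ▸ i2)
    · exact Or.inr ⟨e', i2.head (Or.inl ⟨k1, e', i1⟩)⟩

theorem ssmall_H.back (h : ssmall_H W Δ y l P) {v : α} (k : v ∈ rtree (W \ P) (ssmall_D Δ y l P))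
    (e : ¬ Relation.ReflTransGen (ssmall_D Δ y l P) y v) : v ∈ rtree W Δ := by
  obtain ⟨k1, k2⟩ := mem_filter.1 k
  obtain ⟨k3, k4⟩ := mem_sdiff.1 k1
  refine mem_filter.2 ⟨k3, fun u ku => ?_⟩
  obtain ⟨a1, a2⟩ := (h.walk ku k4).resolve_left e
  obtain ⟨b1, b2, w, b3⟩ := k2 u a2
  exact ⟨h.rn' b1, fun b => b2 (h.br' b a1 fun e' => e (e' ▸ a2)),
    b3.elim (fun b => ⟨w, b.1⟩) fun b => ⟨l, b.1⟩⟩

theorem ssmall_H.feed_sub (h : ssmall_H W Δ y l P) :
    feed (W \ P) (ssmall_D Δ y l P) y ⊆ rtree W Δ ∪ W.filter fun v => ∀ w, ¬ rv Δ w v := by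
  intro v hv
  rcases mem_union.1 hv with k | k
  · exact mem_union_left _ (h.back (mem_filter.1 k).1 (mem_filter.1 k).2)
  obtain ⟨k1, k2⟩ := mem_filter.1 k
  obtain ⟨k3, k4⟩ := mem_sdiff.1 k1
  rw [mem_union, or_iff_not_imp_left]
  refine fun e => mem_filter.2 ⟨k3, fun w e' => k2 w (Or.inl ⟨e', k4, fun e'' => ?_⟩)⟩
  exact (h.inn w e'' v e').elim k4 e

theorem ssmall_H.mem_feed (h : ssmall_H W Δ y l P) {v : α} (k : v ∈ rtree W Δ) :
    v ∈ feed (W \ P) (ssmall_D Δ y l P) y := by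
  by_cases e : ∃ w, ssmall_D Δ y l P v w
  · refine mem_union_left _ (mem_filter.2 ⟨h.tree (Or.inr k) e, fun e' => h.yT ?_⟩)
    exact (h.anc e' (Or.inr k)).elim (fun e'' => e'' ▸ k) id
  · exact mem_union_right _ (mem_filter.2 ⟨mem_sdiff.2 ⟨(mem_filter.1 k).1,
      fun e' => h.PT v e' k⟩, fun w e' => e ⟨w, e'⟩⟩)

theorem ssmall_H.col (h : ssmall_H W Δ y l P) :
    a0 (W \ P) (rv (ssmall_D Δ y l P)) ≤ a0 W (rv Δ) := by
  refine Nat.add_le_add_left (card_le_card fun v hv => ?_) 1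
  obtain ⟨k1, k2⟩ := mem_filter.1 hv
  obtain ⟨k3, k4⟩ := mem_filter.1 k1
  obtain ⟨k5, k6⟩ := mem_sdiff.1 k3
  obtain ⟨k7, k8⟩ := h.br k2
  have a1 : ∀ u, u ∉ rtree W Δ ∧ u ∉ P ∧ u ≠ y → ∀ w, Δ u w →
      w ∉ rtree W Δ ∧ w ∉ P ∧ w ≠ y := fun u hu w e =>
    ⟨fun e' => hu.1 (rtree_anc e' (.single e)), fun e' => (h.inn w e' u e).elim hu.2.1 hu.1,
      fun e' => hu.2.1 (h.iny u (e' ▸ e))⟩
  have a2 : ∀ u, Relation.ReflTransGen (rv Δ) u v → (u ∉ rtree W Δ ∧ u ∉ P ∧ u ≠ y) ∧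
      Relation.ReflTransGen (rv (ssmall_D Δ y l P)) u v := by
    intro u k
    induction k using Relation.ReflTransGen.head_induction_on with
    | refl => exact ⟨⟨fun e => (ssmall_T e).2.1 k8, k6, k7⟩, .refl⟩
    | @head a b e _ ih =>
      have := a1 b ih.1 a e
      exact ⟨this, ih.2.head (h.new e this.2.1 this.2.2)⟩
  have a3 : ∀ u, Relation.ReflTransGen (rv Δ) u v → ¬ Br (rv Δ) u := by
    rintro u k ⟨a, a', e, e1, e2⟩
    have b1 := a1 u (a2 u k).1 a e1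
    have b2 := a1 u (a2 u k).1 a' e2
    exact (k4 u (a2 u k).2).2.1 ⟨a, a', e, h.new e1 b1.2.1 b1.2.2, h.new e2 b2.2.1 b2.2.2⟩
  refine mem_filter.2 ⟨mem_filter.2 ⟨k5, fun u k => ?_⟩, k8⟩
  obtain ⟨b1, -, w, b3⟩ := k4 u (a2 u k).2
  refine ⟨mem_filter.2 ⟨(mem_sdiff.1 (mem_filter.1 b1).1).1, fun x e b => ?_⟩, a3 u k, w,
    ssmall_old (Δ := Δ) b3 (a2 u k).1.2.2⟩
  rcases h.dag.rule x u e with r | r
  · obtain ⟨a, a', e', e1, e2⟩ := b
    exact e' ((r a e1).trans (r a' e2).symm)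
  · rcases k.cases_head with rfl | ⟨x', e1, e2⟩
    · obtain ⟨a, a', e', e1, e2⟩ := k8
      exact e' ((r a e1).trans (r a' e2).symm)
    · exact a3 x (r x' e1 ▸ e2) b

theorem ssmall_H.sm (h : ssmall_H W Δ y l P) (he : ¬ ExcC k W Δ) (h1 : (rtree W Δ).card ≤ σ) :
    Sm k σ W Δ (W \ P) (ssmall_D Δ y l P) := by
  have e1 : nlink W Δ < k := not_le.1 fun e => he (Or.inl (Or.inr (Or.inl e)))
  have e2 : nsrc W (rv Δ) < k := not_le.1 fun e => he (Or.inr (Or.inl e))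
  have e3 := (card_le_card h.feed_sub).trans (card_union_le _ _)
  change _ ≤ _ + nsrc W (rv Δ) at e3
  have e4 := rtree_le h.dag
  have e5 : 1 ≤ a0 W Δ := Nat.le_add_right _ _
  obtain ⟨tgt, ht⟩ := ssmall_opt (R := fun u w => u ∈ P ∧ Δ u w)
    fun u w w' a b => eq_of_not_br (h.one u a.1) a.2 b.2
  obtain ⟨par, hp⟩ := ssmall_opt (R := fun w u => w ∈ P.erase l ∧ u ∈ rtree W Δ ∧ Δ u w)
    fun w u u' a b => eq_of_not_br (ssmall_TR a.2.1 a.2.2) a.2.2 b.2.2
  refine ⟨h.col, y, h.tree (Or.inl rfl) ?_, le_trans (card_le_card fun v hv => ?_) h1, by omega,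
    by nlinarith only [e1, e2, e3, e4, e5], ?_⟩
  · obtain ⟨w, a1, a2⟩ := h.yo
    exact ⟨w, Or.inl ⟨a1, h.yP, a2⟩⟩
  · exact h.back (mem_filter.1 hv).1 (mem_filter.1 hv).2
  rw [Finset.sdiff_sdiff_eq_self h.PW]
  refine ⟨l, h.lP, par, tgt, fun p a e => ?_, fun p a e => ?_, fun u w => ?_⟩
  · obtain ⟨a1, a2⟩ := (ht p a).1 e
    exact ⟨a1, mem_insert.2 (h.out p a1 a a2)⟩
  · obtain ⟨a1, a2, -⟩ := (hp p a).1 e
    exact ⟨a1, h.mem_feed a2⟩
  rw [ht, hp]
  constructor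
  · intro e
    by_cases a1 : u ∈ P
    · exact Or.inl ⟨a1, e⟩
    right
    by_cases a2 : w ∈ P
    · by_cases a3 : w = l
      · exact Or.inr (Or.inl ⟨a3, Or.inr ⟨a3 ▸ e, rfl⟩⟩)
      · exact Or.inl ⟨mem_erase.2 ⟨a3, a2⟩, (h.inn w a2 u e).resolve_left a1, e⟩
    · exact Or.inr (Or.inr ⟨Or.inl ⟨e, a1, a2⟩, fun e' => a1 (h.iny u (e' ▸ e))⟩)
  · rintro (e | e | ⟨rfl, e⟩ | e)
    · exact e.2
    · exact e.2.2
    · exact h.toy e
    · exact ssmall_old e.1 e.2

end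

theorem ssmall_ex (h : IsDag W Δ) (hy : ∃ y ∈ W \ rtree W Δ, Br (rv Δ) y) :
    ∃ y l P, ssmall_H W Δ y l P ∧ 2 ≤ P.card := by
  obtain ⟨rk, hr⟩ := h.acyc
  obtain ⟨y, h1, h2⟩ := exists_min_image ((W \ rtree W Δ).filter (Br (rv Δ))) rk
    (hy.imp fun y k => mem_filter.2 k)
  obtain ⟨h3, h4⟩ := mem_filter.1 h1
  obtain ⟨h5, h6⟩ := mem_sdiff.1 h3
  set P := (W \ rtree W Δ).filter fun p => p ≠ y ∧ Relation.ReflTransGen Δ p y
  have mP : ∀ p, p ∈ P ↔ (p ∈ W ∧ p ∉ rtree W Δ) ∧ p ≠ y ∧ Relation.ReflTransGen Δ p y :=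
    fun p => by rw [mem_filter, mem_sdiff]
  have lt : ∀ p ∈ P, rk p < rk y := fun p k =>
    (ssmall_rk hr ((mP p).1 k).2.2).resolve_left ((mP p).1 k).2.1
  have one : ∀ p ∈ P, ¬ Br (rv Δ) p := fun p k b => by
    have := h2 p (mem_filter.2 ⟨(mem_filter.1 k).1, b⟩)
    have := lt p k
    omega
  have inn : ∀ p, p = y ∨ p ∈ P → ∀ u, Δ u p → u ∈ P ∨ u ∈ rtree W Δ := fun p k u e => by
    rw [or_iff_not_imp_right]
    have := hr u p e
    refine fun e' => (mP u).2 ⟨⟨(h.mem u p e).1, e'⟩, ?_⟩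
    rcases k with rfl | k
    · exact ⟨fun e'' => by rw [e''] at this; omega, .single e⟩
    · have t := lt p k
      exact ⟨fun e'' => by rw [e''] at this; omega, ((mP p).1 k).2.2.head e⟩
  have out : ∀ p ∈ P, ∀ w, Δ p w → w = y ∨ w ∈ P := fun p k w e => by
    obtain ⟨⟨-, a2⟩, a3, a4⟩ := (mP p).1 k
    obtain ⟨x, a5, a6⟩ := a4.cases_head.resolve_left a3
    obtain rfl : x = w := eq_of_not_br (one p k) a5 e
    rw [or_iff_not_imp_left]
    exact fun e' => (mP x).2 ⟨⟨(h.mem p x e).2, fun e'' => a2 (rtree_anc e'' (.single e))⟩, e', a6⟩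
  have yR : y ∈ RN W Δ := mem_filter.2 ⟨h5, fun v e b => by
    rcases h.rule y v e with r | r
    · obtain ⟨a, a', e', e1, e2⟩ := h4
      exact e' ((r a e1).trans (r a' e2).symm)
    · obtain ⟨a, a', e', e1, e2⟩ := b
      exact e' ((r a e1).trans (r a' e2).symm)⟩
  have yo : ∃ w, Δ y w ∧ w ∉ P := by
    obtain ⟨a, -, -, e, -⟩ := h4
    refine ⟨a, e, fun k => ?_⟩
    have := lt a k
    have := hr y a e
    omega
  have ex : ∃ v, (v = y ∨ v ∈ P) ∧ Br Δ v := by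
    by_contra! c
    refine h6 (mem_filter.2 ⟨h5, fun u k => ?_⟩)
    by_cases e : u ∈ rtree W Δ
    · exact ssmall_T e
    rcases k.cases_head with rfl | ⟨x, e1, -⟩
    · exact ⟨yR, c u (Or.inl rfl), yo.imp fun _ e => e.1⟩
    by_cases e' : u = y
    · exact ⟨e' ▸ yR, c u (Or.inl e'), x, e1⟩
    have uP := (mP u).2 ⟨⟨(h.mem u x e1).1, e⟩, e', k⟩
    exact ⟨mem_filter.2 ⟨(h.mem u x e1).1, fun v e2 => c v (out u uP v e2)⟩, c u (Or.inr uP), x, e1⟩
  have two : 2 ≤ P.card := by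
    obtain ⟨v, a1, b⟩ := ex
    obtain ⟨a, a', e, e1, e2⟩ := id b
    exact one_lt_card.2 ⟨a, (inn v a1 a e1).resolve_right fun e' => ssmall_TR e' e1 b, a',
      (inn v a1 a' e2).resolve_right fun e' => ssmall_TR e' e2 b, e⟩
  obtain ⟨l, l1, l2⟩ := exists_min_image P rk (card_pos.1 (by omega))
  refine ⟨y, l, P, ⟨h, h6, fun k => ((mP y).1 k).2.1 rfl, yR, yo, fun p k => ((mP p).1 k).1.1,
    fun p k => ((mP p).1 k).1.2, out, one, fun p k => inn p (Or.inr k), fun u e => ?_, l1,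
    fun u e => (inn l (Or.inr l1) u e).resolve_left fun k => ?_, ((mP l).1 l1).2.2⟩, two⟩
  · refine (inn y (Or.inl rfl) u e).resolve_right fun k => ?_
    obtain ⟨⟨-, a2⟩, a3, a4⟩ := (mP l).1 l1
    obtain ⟨x, a5, a6⟩ := a4.cases_tail.resolve_left a3.symm
    exact a2 (rtree_anc (eq_of_not_br (ssmall_TR k e) e a6 ▸ k) a5)
  · have := l2 u k
    have := hr u l e
    omega

theorem small_sur (h : IsDag W Δ) (he : ¬ ExcC k W Δ) (h1 : (rtree W Δ).card ≤ σ)
    (h2 : σ + (2 * (k * σ + k) + k) < W.card) : ∃ W' ⊆ W, ∃ Δ', IsDag W' Δ' ∧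
      2 ≤ (W \ W').card ∧ (W \ W').card ≤ 2 * (k * σ + k) + k ∧ Sm k σ W Δ W' Δ' := by
  have e1 : nlink W Δ < k := not_le.1 fun e => he (Or.inl (Or.inr (Or.inl e)))
  have e2 : nsrc W Δ < k := not_le.1 fun e => he (Or.inl (Or.inl e))
  have e3 : ∀ u, odeg W Δ u ≤ k := fun u =>
    (not_le.1 fun e => he (Or.inl (Or.inr (Or.inr (Or.inl ⟨u, e⟩))))).le
  have e4 := Nat.mul_le_mul_left k h1
  have hT : rtree W Δ ⊆ RN W Δ := fun u e => (ssmall_T e).1
  obtain ⟨y, l, P, a1, a2⟩ := ssmall_ex h (by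
    by_contra! c
    have := forest_le h sdiff_subset hT c (fun p _ u e => by
      rw [mem_sdiff, or_iff_not_imp_right]
      exact fun e' => ⟨(h.mem u p e).1, e'⟩) e3
    have := le_card_sdiff (rtree W Δ) W
    omega)
  have := forest_le h a1.PW hT a1.one a1.inn e3
  refine ⟨W \ P, sdiff_subset, _, a1.isDag, ?_, ?_, a1.sm he h1⟩
  · rwa [Finset.sdiff_sdiff_eq_self a1.PW]
  · rw [Finset.sdiff_sdiff_eq_self a1.PW]
    omega

variable [Fintype α]

omit [Fintype α] in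
theorem ssmall_cover {ι β : Type*} {s : Finset β} {Y : Finset ι} (t : ι → Finset β) {f : β → ℝ}
    (hf : ∀ x, 0 ≤ f x) (h : ∀ x ∈ s, ∃ y ∈ Y, x ∈ t y) :
    ∑ x ∈ s, f x ≤ ∑ y ∈ Y, ∑ x ∈ t y, f x := by
  calc ∑ x ∈ s, f x ≤ ∑ x ∈ s, ∑ y ∈ Y, if x ∈ t y then f x else 0 := sum_le_sum fun x hx => by
        obtain ⟨y, hy, k⟩ := h x hx
        refine le_trans (le_of_eq (if_pos k).symm) (single_le_sum
          (f := fun y => if x ∈ t y then f x else 0) (fun _ _ => ?_) hy)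
        split_ifs
        · exact hf x
        · exact le_rfl
    _ = ∑ y ∈ Y, ∑ x ∈ s, if x ∈ t y then f x else 0 := sum_comm
    _ ≤ _ := sum_le_sum fun y _ => by
        rw [← sum_filter]
        exact sum_le_sum_of_subset_of_nonneg (fun x hx => (mem_filter.1 hx).2) fun x _ _ => hf x

/-- option valued maps from `P` to `A` -/
noncomputable def ssmall_fun (P A : Finset α) : Finset (α → Option α) :=
  univ.filter fun f => ∀ p a, f p = some a → p ∈ P ∧ a ∈ A

theorem ssmall_fun_le (P A : Finset α) : (ssmall_fun P A).card ≤ (A.card + 1) ^ P.card := by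
  have : ssmall_fun P A ⊆ Fintype.piFinset fun p => if p ∈ P then insertNone A else {none} := by
    intro f hf
    have k := (mem_filter.1 hf).2
    refine Fintype.mem_piFinset.2 fun p => ?_
    split_ifs with e
    · exact mem_insertNone.2 fun a e' => (k p a e').2
    · rw [mem_singleton, Option.eq_none_iff_forall_ne_some]
      exact fun a e' => e (k p a e').1
  refine (card_le_card this).trans (le_of_eq ?_)
  rw [Fintype.card_piFinset]
  simp only [apply_ite card, card_insertNone, card_singleton]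
  rw [prod_ite_mem, univ_inter, prod_const]

/-- the decoded digraphs -/
noncomputable def ssmall_dec (P : Finset α) (Δ' : α → α → Prop) (y : α) (A : Finset α) :
    Finset (α → α → Prop) :=
  P.biUnion fun l => (ssmall_fun (P.erase l) A ×ˢ ssmall_fun P (insert y P)).image fun c u w =>
    c.2 u = some w ∨ c.1 w = some u ∨ (w = l ∧ Δ' u y) ∨ (Δ' u w ∧ w ≠ y)

theorem ssmall_card (P : Finset α) (Δ' : α → α → Prop) (y : α) (A : Finset α) :
    (ssmall_dec P Δ' y A).card ≤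
      P.card * ((A.card + 1) ^ (P.card - 1) * (P.card + 2) ^ P.card) := by
  refine card_biUnion_le_card_mul _ _ _ fun l hl => card_image_le.trans ?_
  rw [card_product, ← card_erase_of_mem hl]
  exact Nat.mul_le_mul (ssmall_fun_le _ _) ((ssmall_fun_le _ _).trans
    (Nat.pow_le_pow_left (Nat.succ_le_succ (card_insert_le _ _)) _))

theorem sm_fiber {W' : Finset α} {Δ' : α → α → Prop} (hW : W' ⊆ W) (h : IsDag W' Δ')
    (hj : 2 ≤ (W \ W').card) :
    ∑ Δ ∈ (dags W).filter (fun Δ => Sm k σ W Δ W' Δ'), ((a0 W Δ : ℝ) * a0 W (rv Δ))⁻¹ ≤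
      (2 * σ + 1) * (W \ W').card * ((W \ W').card + 2) ^ (W \ W').card *
        (2 * σ + k + 1) ^ ((W \ W').card - 2) * (3 * k + 3) * (W.card + 1) *
        ((a0 W' Δ' : ℝ) * a0 W' (rv Δ'))⁻¹ := by
  set P := W \ W' with hP
  set Y := ((rtree W' Δ').filter fun y => ((rtree W' Δ').filter fun v =>
    ¬ Relation.ReflTransGen Δ' y v).card ≤ σ).filter fun y => (feed W' Δ' y).card ≤ 2 * σ + k
  have hY : (Y.card : ℝ) ≤ 2 * σ + 1 := by
    exact_mod_cast (card_filter_le _ _).trans (chain_le h σ)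
  have p0 : ∀ (W : Finset α) (Δ : α → α → Prop), (0 : ℝ) < a0 W Δ := fun W Δ => by
    unfold a0
    positivity
  have p1 : (a0 W' Δ' : ℝ) ≤ W.card + 1 := by
    have : ((rtree W' Δ').filter (Br (rv Δ'))).card ≤ W.card :=
      card_le_card fun v hv => hW (ssmall_W (mem_filter.1 hv).1)
    unfold a0
    exact_mod_cast by omega
  refine (ssmall_cover (Y := Y) (fun y => (ssmall_dec P Δ' y (feed W' Δ' y)).filter fun Δ =>
    a0 W' (rv Δ') ≤ a0 W (rv Δ) ∧ (feed W' Δ' y).card + 1 ≤ (3 * k + 3) * a0 W Δ)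
    (fun _ => by positivity) fun Δ hΔ => ?_).trans ?_
  · obtain ⟨a1, y, a2, a3, a4, a5, l, a6, par, tgt, a7, a8, a9⟩ := (mem_filter.1 hΔ).2
    refine ⟨y, mem_filter.2 ⟨mem_filter.2 ⟨a2, a3⟩, a4⟩, mem_filter.2 ⟨?_, a1, a5⟩⟩
    refine mem_biUnion.2 ⟨l, a6, mem_image.2 ⟨(par, tgt), mem_product.2
      ⟨mem_filter.2 ⟨mem_univ _, a8⟩, mem_filter.2 ⟨mem_univ _, a7⟩⟩, ?_⟩⟩
    funext u w
    exact propext (a9 u w).symm
  refine (sum_le_card_nsmul _ _ (P.card * (P.card + 2) ^ P.card * (2 * σ + k + 1) ^ (P.card - 2) *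
    (3 * k + 3) * (W.card + 1) * ((a0 W' Δ' : ℝ) * a0 W' (rv Δ'))⁻¹) fun y hy => ?_).trans ?_
  swap
  · rw [nsmul_eq_mul]
    refine (mul_le_mul_of_nonneg_right hY (by positivity)).trans (le_of_eq ?_)
    ring
  set F : ℝ := (feed W' Δ' y).card + 1 with hF
  have F0 : 0 < F := by positivity
  have F1 : F ≤ 2 * σ + k + 1 := by
    have := (mem_filter.1 hy).2
    rw [hF]
    exact_mod_cast by omega
  refine (sum_le_card_nsmul _ _ ((3 * k + 3) / F * (a0 W' (rv Δ') : ℝ)⁻¹) fun Δ hΔ => ?_).trans ?_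
  · obtain ⟨a1, a2⟩ := (mem_filter.1 hΔ).2
    rw [mul_inv]
    refine mul_le_mul ?_ (inv_anti₀ (p0 _ _) (by exact_mod_cast a1)) (by positivity) (by positivity)
    rw [inv_eq_one_div, div_le_div_iff₀ (p0 _ _) F0, one_mul, hF]
    exact_mod_cast a2
  have c1 : (((ssmall_dec P Δ' y (feed W' Δ' y)).filter fun Δ =>
      a0 W' (rv Δ') ≤ a0 W (rv Δ) ∧ (feed W' Δ' y).card + 1 ≤ (3 * k + 3) * a0 W Δ).card : ℝ) ≤
      P.card * ((F ^ (P.card - 2) * F) * (P.card + 2) ^ P.card) := by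
    rw [← pow_succ, hF, show P.card - 2 + 1 = P.card - 1 by omega]
    exact_mod_cast (card_filter_le _ _).trans (ssmall_card P Δ' y _)
  have c2 : F ^ (P.card - 2) ≤ (2 * σ + k + 1) ^ (P.card - 2) := pow_le_pow_left₀ F0.le F1 _
  have c3 : (1 : ℝ) ≤ (W.card + 1) * (a0 W' Δ' : ℝ)⁻¹ := by
    rw [← div_eq_mul_inv, one_le_div (p0 _ _)]
    exact p1
  rw [nsmul_eq_mul]
  refine (mul_le_mul_of_nonneg_right c1 (by positivity)).trans ?_
  calc _ = P.card * (P.card + 2) ^ P.card * F ^ (P.card - 2) * (3 * k + 3) * 1 *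
        (a0 W' (rv Δ') : ℝ)⁻¹ := by field_simp
    _ ≤ P.card * (P.card + 2) ^ P.card * (2 * σ + k + 1) ^ (P.card - 2) * (3 * k + 3) *
        ((W.card + 1) * (a0 W' Δ' : ℝ)⁻¹) * (a0 W' (rv Δ') : ℝ)⁻¹ := by gcongr
    _ = _ := by rw [mul_inv]; ring

theorem small_tree (h2 : σ + (2 * (k * σ + k) + k) < W.card) :
    ∑ Δ ∈ (dags W).filter (fun Δ => ¬ ExcC k W Δ ∧ (rtree W Δ).card ≤ σ),
      ((a0 W Δ : ℝ) * a0 W (rv Δ))⁻¹ ≤
    ∑ j ∈ Icc 2 (2 * (k * σ + k) + k), (W.card.choose j : ℝ) * ((2 * σ + 1) * j * (j + 2) ^ j *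
      (2 * σ + k + 1) ^ (j - 2) * (3 * k + 3) * (W.card + 1)) * cN (W.card - j) := by
  refine (ssmall_cover (Y := (Icc 2 (2 * (k * σ + k) + k)).sigma fun j =>
      (powersetCard (W.card - j) W).sigma fun W' => dags W')
    (fun c => (dags W).filter fun Δ => Sm k σ W Δ c.2.1 c.2.2) (fun _ => by positivity)
    fun Δ hΔ => ?_).trans ?_
  · obtain ⟨a1, a2, a3⟩ := mem_filter.1 hΔ
    obtain ⟨W', b1, Δ', b2, b3, b4, b5⟩ := small_sur (qdag_mem_dags.1 a1) a2 a3 h2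
    refine ⟨⟨(W \ W').card, W', Δ'⟩, mem_sigma.2 ⟨mem_Icc.2 ⟨b3, b4⟩, mem_sigma.2
      ⟨mem_powersetCard.2 ⟨b1, ?_⟩, qdag_mem_dags.2 b2⟩⟩, mem_filter.2 ⟨a1, b5⟩⟩
    have := card_sdiff_add_card_eq_card b1
    simp only
    omega
  rw [sum_sigma]
  refine sum_le_sum fun j hj => ?_
  have hj' := mem_Icc.1 hj
  rw [sum_sigma, mul_assoc, ← Nat.choose_symm (by omega : j ≤ W.card), ← card_powersetCard,
    ← nsmul_eq_mul]
  refine sum_le_card_nsmul _ _ _ fun W' hW' => ?_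
  obtain ⟨b1, b2⟩ := mem_powersetCard.1 hW'
  have b3 : (W \ W').card = j := by
    have := card_sdiff_add_card_eq_card b1
    omega
  rw [← b2, ← cWt_eq, cWt, mul_sum]
  refine sum_le_sum fun Δ' h' => ?_
  have := sm_fiber (k := k) (σ := σ) b1 (qdag_mem_dags.1 h') (by omega)
  rwa [b3] at this

end Pool.Agent.Work.MP_5391ad_co
end

-- merged part: Pool.Agent.Work.MP_5391ad_co.SCen
section
/-! Central roots of regular matrices.
`noBlk_frame`: as `noBlk_of_env`; now `S \ {s} ⊆ Y`, so `Y \ S` has at most two elements.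
`FIr.exists_root2`: copy the proof of `FIr.exists_root`, with the column `c` given and `hP` for the
pairwise unions in `exists_top`. `held_union`: `S ⊆ Y`, so `Y = insert z S`, and `Sᶜ.erase s` is
only entered at `z` or from `s`; if `S ∪ S' = univ` apply `Held` to `Sᶜ.erase s`, `S'ᶜ.erase s`,
`{z, z'}`. `root_nonempty`: `exists_root2` with `τ = |R| - θ`, `TypD.col_lt` of the reverse,
`rts_of_isRoot`; `hub B ⊆ fB (rv (dig B 1)) ⊆ insert s (TC (rv (dig B 1)) s)`.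
`entry_zero`: `cr` gives `(S, Y)`; `(S, insert c Y)` is tight for `B` and `(Yᶜ, insert r Sᶜ)` for
`rv B`. `cyc_of_root`: let `S` be reached from `s` avoiding `z, z'`, with no arc into `s`; the rows
`π S` only see `Y = S.erase s ∪ {z, z'}`, which contradicts `FIr` if `z = z'` and is tight
otherwise (`tight_rv`). `Env.hub_lt`: a row with at most two ones has at most one out-arc.
`cen_diag`: as in `NDr.exists_typ` take weak roots, a frame `(π, s)` and `TypD` with `tw`; by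
`Ph.red3` and `hE` no core is exceptional, so `fac_of` applies. Use `root_nonempty` for
`B' a b = B (π a) b` (`dig B' 1 = dig B π` by `rfl`; tight pairs of `B'` map to tight pairs of
`B`, `tight_rv`) and for `rv B'` (`dig (rv B') 1 = rv (dig B' 1)`), then `mem_rts_perm`,
`rts_rv_perm`. For a central root use `isRoot_of_rts` with `|R| - τ - m`, `gr_of_frame`,
`env_frame`, `reg_row`, `reg_col`, `entry_zero`, `cyc_of_root`, `Ph.red3`, `fac_of`.
`cen_main`: `cen_diag` for `B a b = A (σ a) b`, `dig B π = dig A (σ * π)` by `rfl`. -/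

namespace Pool.Agent.Work.MP_5391ad_co

open Finset
open scoped Classical

variable {α : Type*} [Fintype α] {B : α → α → Prop} {s : α} {R C : Finset α} {p : Par}
  {m j N τ τ' : ℕ}

/-- numerical conditions; `r` and `c` are the sizes of `R` and `C` -/
structure Num (p : Par) (r c vm cap N0 tw θ τ0 τ1 : ℕ) : Prop where
  r1 : r / 2 + 1 + p.m ≤ tw
  c1 : c / 2 + 1 + p.m ≤ tw
  r2 : tw + 4 * p.m ≤ r
  c2 : tw + 4 * p.m ≤ c
  r3 : τ1 + 701 * p.m ≤ r
  c3 : τ1 + 701 * p.m ≤ c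
  r4 : p.y1 + 5 * p.m ≤ r
  c4 : p.y1 + 5 * p.m ≤ c
  hj : r + c + p.Kb + 12 ≤ p.j
  vm : 42 * p.m ≤ vm
  cap : tw + 120 * p.m ≤ cap
  tw : p.t ≤ tw
  N0 : N0 + 1 ≤ p.N
  a1 : p.a1 + 2 * p.m ≤ θ
  a2 : p.a2 + 2 * p.m ≤ θ
  a3 : p.a3 + 4 * p.m ≤ 2 * θ
  t0 : θ + 37 * p.m ≤ τ0
  t1 : τ0 ≤ τ1
  t2 : τ1 + p.m ≤ p.t

theorem noBlk_frame (hf : Frame B 1 s) (he : Env (dig B 1) R C m j N) (hj : 3 ≤ j) :
    NoBlk B R C m := by
  intro S Y t
  by_contra k
  push Not at k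
  have a := he.few _ inter_subset_right _ sdiff_subset k.1 k.2
  have b : S.erase s ⊆ Y := fun x hx =>
    t.1 x (mem_of_mem_erase hx) x (hf x (ne_of_mem_erase hx))
  have c : ears (dig B 1) (S ∩ R) (C \ Y) ≤ (Y \ S.erase s).card := by
    refine card_le_card fun x hx => ?_
    obtain ⟨u, hu, y, hy, l1, l2⟩ := (mem_filter.1 hx).2
    exact mem_sdiff.2 ⟨t.1 u (mem_inter.1 hu).1 x ((l1 u).2 rfl).2,
      fun k' => (mem_sdiff.1 hy).2 (t.1 x (mem_of_mem_erase k') y ((l2 y).2 rfl).2)⟩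
  rw [card_sdiff_of_subset b, t.2] at c
  have := pred_card_le_card_erase (s := S) (a := s)
  omega

theorem FIr.exists_root2 (h : FIr B) (hb : NoBlk B R C m) (hm : 0 < m) {c : α}
    (hc : ∀ S Y, Tight B S Y → (C \ Y).card < m → c ∈ Y) (h1 : 2 * m ≤ τ) (h2 : τ + m ≤ R.card)
    (hP : ∀ S Y S' Y', Tight B S Y → Tight B S' Y' → c ∈ Y → c ∈ Y' → (S ∩ R).card < τ + m →
      (S' ∩ R).card < τ + m → S ∪ S' ≠ univ) : ∃ r, IsRoot B R τ r := by
  by_contra! hr
  simp only [IsRoot, not_forall, not_le] at hr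
  have tiny : ∀ S Y, Tight B S Y → c ∉ Y → (S ∩ R).card < m :=
    fun S Y k1 k3 => (hb S Y k1).resolve_right fun k => k3 (hc S Y k1 k)
  obtain ⟨U, Z, u1, -, u3⟩ := h.exists_top c
    (fun S Y => Tight B S Y ∧ c ∈ Y ∧ (S ∩ R).card < τ + m) (fun S Y k => ⟨k.1, k.2.1⟩)
    fun S Y S' Y' k k' => hP S Y S' Y' k.1 k'.1 k.2.1 k'.2.1 k.2.2 k'.2.2
  let near : Finset α × Finset α → Prop := fun p => Tight B p.1 p.2 ∧ (p.1 ∩ R).card < τ ∧
    ∃ T X, Tight B T X ∧ (T ∩ R).card < τ ∧ c ∈ X ∧ (p.2 ∩ X).Nonempty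
  have n0 : ∀ S Y, Tight B S Y → (S ∩ R).card < τ → c ∈ Y → near (S, Y) := fun S Y k1 k2 k3 =>
    ⟨k1, k2, S, Y, k1, k2, k3, c, by simpa using k3⟩
  have n1 : ∀ p, near p → p.1 ⊆ U := by
    rintro ⟨S, Y⟩ ⟨k1, k2, T, X, k3, k4, k5, k6⟩
    dsimp only at k1 k2 k6 ⊢
    by_cases e : c ∈ Y
    · exact (u3 S Y ⟨k1, e, by omega⟩).1
    · have := tiny S Y k1 e
      have := mroot_union R S T
      exact subset_union_left.trans (u3 (S ∪ T) (Y ∪ X) ⟨(h.uncross k1 k3 k6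
        (mroot_ne (R := R) (by omega))).2, mem_union_right _ k5, by omega⟩).1
  set S1 := (univ.filter near).biUnion Prod.fst with hS1
  set Y1 := (univ.filter near).biUnion Prod.snd with hY1
  have cY : c ∈ Y1 := mem_biUnion.2 ⟨(∅, {c}), mem_filter.2 ⟨mem_univ _, n0 _ _
    ⟨fun _ k => absurd k (notMem_empty _), by simp⟩ (by simp; omega) (by simp)⟩, by simp⟩
  have c1 : Cl B S1 Y1 := fun a ha b k => by
    obtain ⟨p, p1, p2⟩ := mem_biUnion.1 ha
    exact mem_biUnion.2 ⟨p, p1, (mem_filter.1 p1).2.1.1 a p2 b k⟩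
  have c2 : Cl B S1ᶜ Y1ᶜ := fun a ha b k => mem_compl.2 fun hb' => mem_compl.1 ha <| by
    obtain ⟨S, Y, k1, k2, k3⟩ := hr a
    obtain ⟨⟨S', Y'⟩, p1, p2⟩ := mem_biUnion.1 hb'
    obtain ⟨q1, q2, T, X, q3, q4, q5, q6⟩ := (mem_filter.1 p1).2
    dsimp only at q1 q2 q6 p2
    have hby := k1.1 a k2 b k
    by_cases e : c ∈ Y
    · exact mem_biUnion.2 ⟨(S, Y), mem_filter.2 ⟨mem_univ _, n0 _ _ k1 k3 e⟩, k2⟩
    by_cases e' : c ∈ Y'
    · exact mem_biUnion.2 ⟨(S, Y), mem_filter.2 ⟨mem_univ _, k1, k3, S', Y', q1, q2, e', b,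
        mem_inter.2 ⟨hby, p2⟩⟩, k2⟩
    have := tiny S Y k1 e
    have := tiny S' Y' q1 e'
    have := mroot_union R S S'
    exact mem_biUnion.2 ⟨(S ∪ S', Y ∪ Y'), mem_filter.2 ⟨mem_univ _, (h.uncross k1 q1
      ⟨b, mem_inter.2 ⟨hby, p2⟩⟩ (mroot_ne (R := R) (by omega))).2, by dsimp only; omega,
      T, X, q3, q4, q5, q6.mono (inter_subset_inter_right subset_union_right)⟩,
      mem_union_left _ k2⟩
  have c3 : S1 ≠ univ := fun e => by
    have e1 := card_le_card (show S1 ⊆ U from biUnion_subset.2 fun p k => n1 p (mem_filter.1 k).2)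
    have e2 := card_le_univ Z
    rw [e, card_univ] at e1
    have := u1.2
    omega
  have d1 := h.succ_le c1 ⟨c, cY⟩ c3
  have d2 := h.le c2
  have := card_add_card_compl S1
  have := card_add_card_compl Y1
  omega

theorem scen_incl (hf : Frame B 1 s) {S Y : Finset α} (t : Tight B S Y) (hs : s ∈ Y) :
    ∃ z, ∀ Q : Finset α, z ∈ Q → InCl (dig B 1) s (Sᶜ.erase s) Q := by
  have b : S ⊆ Y := fun x hx => if e : x = s then e ▸ hs else t.1 x hx x (hf x e)
  obtain ⟨z, hz⟩ : ∃ z, Y \ S = {z} := by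
    rw [← card_eq_one, card_sdiff_of_subset b, t.2]
    omega
  refine ⟨z, fun Q hQ v hv hvQ u e => or_iff_not_imp_left.2 fun hu =>
    mem_erase.2 ⟨hu, mem_compl.2 fun k => hvQ ?_⟩⟩
  have : v ∈ Y \ S := mem_sdiff.2 ⟨t.1 u k v e.2, mem_compl.1 (mem_of_mem_erase hv)⟩
  rw [hz, mem_singleton] at this
  exact this ▸ hQ

theorem scen_cnt (R S F : Finset α) (s : α) :
    R.card ≤ (S ∩ R).card + (Sᶜ.erase s ∩ F).card + (R \ F).card + 1 := by
  have h1 : R ⊆ insert s (S ∩ R ∪ Sᶜ.erase s ∩ F ∪ R \ F) := fun x hx => by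
    simp only [mem_insert, mem_union, mem_inter, mem_erase, mem_compl, mem_sdiff]
    tauto
  have h2 := (card_le_card h1).trans (card_insert_le _ _)
  have h3 := card_union_le (S ∩ R ∪ Sᶜ.erase s ∩ F) (R \ F)
  have h4 := card_union_le (S ∩ R) (Sᶜ.erase s ∩ F)
  omega

theorem held_union (hf : Frame B 1 s) (hH : Held p (dig B 1) s) (hk : 1 ≤ p.k)
    (hR : (R \ fB (rv (dig B 1))).card < m) {θ : ℕ} (a1 : p.a1 + 2 * m ≤ θ)
    (a2 : p.a2 + 2 * m ≤ θ) (a3 : p.a3 + 4 * m ≤ 2 * θ) {S Y S' Y' : Finset α}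
    (t1 : Tight B S Y) (t2 : Tight B S' Y') (s1 : s ∈ Y) (s2 : s ∈ Y')
    (l1 : (S ∩ R).card + θ < R.card + m) (l2 : (S' ∩ R).card + θ < R.card + m) :
    S ∪ S' ≠ univ := by
  intro e
  obtain ⟨z, hz⟩ := scen_incl hf t1 s1
  obtain ⟨z', hz'⟩ := scen_incl hf t2 s2
  have h1 := (hH (Sᶜ.erase s) (S'ᶜ.erase s) {z, z'} (notMem_erase _ _) (notMem_erase _ _)
    (disjoint_left.2 fun x k k' => (mem_union.1 (e ▸ mem_univ x)).elim
      (mem_compl.1 (mem_of_mem_erase k)) (mem_compl.1 (mem_of_mem_erase k')))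
    (card_le_two.trans (by omega)) (hz _ (by simp)) (hz' _ (by simp))).1
  have h2 := scen_cnt R S (fB (rv (dig B 1))) s
  have h3 := scen_cnt R S' (fB (rv (dig B 1))) s
  have := h1 (by omega) (by omega)
  omega

theorem isRoot_of_rts {r : α} (hr : r ∈ rts univ B τ) (hR : (R \ hub B).card ≤ m)
    (h : τ' + τ + m ≤ R.card) : IsRoot B R τ' r := by
  intro S Y t hS
  have h1 := (mem_filter.1 hr).2 S (subset_univ _) Y (subset_univ _) t hS
  have h2 : R ⊆ S ∩ R ∪ hub B \ S ∪ R \ hub B := fun x hx => by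
    simp only [mem_union, mem_inter, mem_sdiff]
    tauto
  have h3 := (card_le_card h2).trans (card_union_le _ _)
  have h4 := card_union_le (S ∩ R) (hub B \ S)
  omega

theorem rts_of_isRoot {r : α} (hr : IsRoot B R τ' r) (h : (hub B \ R).card + R.card ≤ τ + τ') :
    r ∈ rts univ B τ := by
  refine mem_filter.2 ⟨mem_univ _, fun S _ Y _ t hS => ?_⟩
  have h1 := hr S Y t hS
  have h2 : hub B \ S ⊆ hub B \ R ∪ R \ S := fun x hx => by
    simp only [mem_union, mem_sdiff] at hx ⊢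
    tauto
  have h3 := (card_le_card h2).trans (card_union_le _ _)
  have h4 := card_sdiff_add_card_inter R S
  rw [inter_comm] at h4
  omega

theorem scen_hub {a : α} (h : a ∈ hub B) : Br (rv (dig B 1)) a := by
  have h1 := (mem_filter.1 h).2
  have h2 := pred_card_le_card_erase (s := univ.filter (B a)) (a := a)
  obtain ⟨b, hb, b', hb', e⟩ := one_lt_card.1
    (show 1 < ((univ.filter (B a)).erase a).card by omega)
  exact ⟨b, b', e, ⟨(ne_of_mem_erase hb).symm, (mem_filter.1 (mem_of_mem_erase hb)).2⟩,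
    (ne_of_mem_erase hb').symm, (mem_filter.1 (mem_of_mem_erase hb')).2⟩

theorem scen_hub' {a : α} (hd : B a a) (h : Br (rv (dig B 1)) a) : a ∈ hub B := by
  obtain ⟨b, b', e, h1, h2⟩ := h
  refine mem_filter.2 ⟨mem_univ _, two_lt_card_iff.2 ⟨a, b, b', ?_, ?_, ?_, h1.1, h2.1, e⟩⟩
  · exact mem_filter.2 ⟨mem_univ _, hd⟩
  · exact mem_filter.2 ⟨mem_univ _, h1.2⟩
  · exact mem_filter.2 ⟨mem_univ _, h2.2⟩

theorem root_nonempty (h : FIr B) (hf : Frame B 1 s) {t θ τ0 : ℕ}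
    (ht : TypD (dig B 1) s R C p.m j N t) (hF : Fac p (dig B 1) s R C) (hk : 1 ≤ p.k)
    (hc : ∀ S Y, Tight B S Y → (C \ Y).card < p.m → s ∈ Y) (a1 : p.a1 + 2 * p.m ≤ θ)
    (a2 : p.a2 + 2 * p.m ≤ θ) (a3 : p.a3 + 4 * p.m ≤ 2 * θ) (t0 : θ + 37 * p.m ≤ τ0)
    (hR : θ + 2 * p.m ≤ R.card) : (rts univ B τ0).Nonempty := by
  have b1 := ht.hj
  have b2 := ht.mR
  have b3 := ht.pos
  obtain ⟨r, hr⟩ := h.exists_root2 (τ := R.card - θ) (noBlk_frame hf ht.env (by omega)) b3 hc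
    (by omega) (by omega) fun S Y S' Y' t1 t2 s1 s2 l1 l2 =>
      held_union hf hF.heldR hk ht.rev.col_lt a1 a2 a3 t1 t2 s1 s2 (by omega) (by omega)
  refine ⟨r, rts_of_isRoot hr ?_⟩
  have c1 : hub B \ R ⊆ insert s (TC (rv (dig B 1)) s \ R) := fun x hx =>
    mem_insert.2 (or_iff_not_imp_left.2 fun e => mem_sdiff.2 ⟨mem_filter.2 ⟨mem_univ _, e,
      Or.inl (scen_hub (mem_sdiff.1 hx).1)⟩, (mem_sdiff.1 hx).2⟩)
  have c2 := (card_le_card c1).trans (card_insert_le _ _)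
  have c3 := hF.tcR
  omega

theorem entry_zero (h : NDr B) (hb : NoBlk B R C m) {r c : α} (hr : IsRoot B R τ r)
    (hc : IsRoot (rv B) C τ' c) (h1 : m ≤ τ) (h2 : m < τ') : ¬ B r c := by
  intro e
  obtain ⟨S, Y, hS, hY, hcard, hcl⟩ := h.cr _ _ e
  have t1 : Tight B S (insert c Y) := by
    refine ⟨fun i hi j hj => ?_, by rw [card_insert_of_notMem hY, hcard]⟩
    rcases hcl i hi j hj with k | k
    · exact mem_insert_of_mem k
    · exact k.2 ▸ mem_insert_self _ _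
  have t2 : Tight (rv B) Yᶜ (insert r Sᶜ) := by
    refine ⟨fun j hj i hi => ?_, ?_⟩
    · by_cases k : i ∈ S
      · rcases hcl i k j hi with k' | k'
        · exact absurd k' (mem_compl.1 hj)
        · exact k'.1 ▸ mem_insert_self _ _
      · exact mem_insert_of_mem (mem_compl.2 k)
    · rw [card_insert_of_notMem (by simpa using hS), card_compl, card_compl, hcard]
  have a1 := hr _ _ t1 hS
  have a2 := hc _ _ t2 (mem_compl.2 hY)
  have a3 : (Yᶜ ∩ C).card ≤ (C \ insert c Y).card + 1 := by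
    refine le_trans (card_le_card fun x hx => ?_) (card_insert_le c _)
    simp only [mem_inter, mem_compl, mem_insert, mem_sdiff] at hx ⊢
    tauto
  rcases hb _ _ t1 with k | k <;> omega

theorem scen_compl (C Y : Finset α) : Yᶜ ∩ C = C \ Y := by
  rw [inter_comm, ← sdiff_eq_inter_compl]

theorem cyc_of_root (h : FIr B) (hb : NoBlk B R C m) {π : Equiv.Perm α} (hf : Frame B π s)
    (h0 : ¬ B (π s) s) (hr : IsRoot B R τ (π s)) (hc : IsRoot (rv B) C τ' s) (h1 : m ≤ τ)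
    (h2 : m ≤ τ') {z z' : α} (hz : z ≠ s) (hz' : z' ≠ s) : CycA (dig B π) {z, z'} s := by
  by_contra hn
  have hs : s ∉ ({z, z'} : Set α) := fun k => k.elim (fun e => hz e.symm) fun e => hz' e.symm
  obtain ⟨S, hS⟩ : ∃ S : Finset α, ∀ x, x ∈ S ↔ Av (dig B π) {z, z'} s x :=
    ⟨univ.filter (Av (dig B π) {z, z'} s), fun x => by rw [mem_filter, and_iff_right (mem_univ x)]⟩
  have s1 : s ∈ S := (hS s).2 (av_refl hs)
  have c1 : Cl B (S.map π.toEmbedding) (S.erase s ∪ {z, z'}) := by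
    intro i hi b hb
    obtain ⟨a, ha, rfl⟩ := mem_map.1 hi
    by_cases e : a = b
    · subst e
      exact mem_union_left _ (mem_erase.2 ⟨fun e => h0 (by subst e; exact hb), ha⟩)
    by_cases k : b ∈ ({z, z'} : Set α)
    · exact mem_union_right _ (by simpa using k)
    have w := ((hS a).1 ha).tail (show dig B π a b from ⟨e, hb⟩) k
    refine mem_union_left _ (mem_erase.2 ⟨fun e' => hn ?_, (hS b).2 w⟩)
    subst e'
    rcases ((hS a).1 ha).2.cases_head with e2 | ⟨v, e2, w2⟩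
    · exact absurd e2.symm e
    · exact ⟨v, e2.1, Av.tail ⟨e2.2, w2⟩ (show dig B π a b from ⟨e, hb⟩) k⟩
  have s2 : s ∉ S.erase s ∪ {z, z'} := by simp [hz.symm, hz'.symm]
  have c2 := h _ _ c1 ⟨π s, mem_map_of_mem _ s1⟩ fun e => s2 (e ▸ mem_univ s)
  have c3 := card_union_le (S.erase s) {z, z'}
  have c4 : ({z, z'} : Finset α).card ≤ 2 := card_le_two
  have c5 := card_erase_add_one s1
  have t : Tight B (S.map π.toEmbedding) (S.erase s ∪ {z, z'}) := by
    refine ⟨c1, ?_⟩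
    rw [card_map] at c2 ⊢
    omega
  have a1 := hr _ _ t (mem_map_of_mem _ s1)
  have a2 := hc _ _ (tight_rv.2 t) (mem_compl.2 s2)
  rw [scen_compl] at a2
  rcases hb _ _ t with k | k <;> omega

theorem Env.hub_lt (hd : ∀ a, B a a) (he : Env (dig B 1) R C m j N) (hm : m ≤ C.card)
    (hj : R.card < j) : (R \ hub B).card < m := by
  by_contra k
  have h1 := he.few _ sdiff_subset C subset_rfl (not_lt.1 k) hm
  have h2 : ears (dig B 1) (R \ hub B) C ≤
      ((R \ hub B).biUnion fun u => univ.filter (dig B 1 u)).card := card_le_card fun x hx => by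
    obtain ⟨u, hu, y, -, l1, -⟩ := (mem_filter.1 hx).2
    exact mem_biUnion.2 ⟨u, hu, mem_filter.2 ⟨mem_univ _, (l1 u).2 rfl⟩⟩
  have h3 := card_biUnion_le_card_mul (R \ hub B) (fun u => univ.filter (dig B 1 u)) 1
    fun u hu => card_le_one.2 fun a ha b hb => eq_of_not_br (D := rv (dig B 1))
      (fun e => (mem_sdiff.1 hu).2 (scen_hub' (hd u) e)) (mem_filter.1 ha).2 (mem_filter.1 hb).2
  have h4 := card_le_card (sdiff_subset (s := R) (t := hub B))
  omega

omit [Fintype α] in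
theorem scen_dig (B : α → α → Prop) : dig (rv B) 1 = rv (dig B 1) := by
  funext a b
  exact propext (and_congr ne_comm Iff.rfl)

theorem Env.hub_lt' (hd : ∀ a, B a a) (he : Env (dig B 1) R C m j N) (hm : m ≤ R.card)
    (hj : C.card < j) : (C \ hub (rv B)).card < m := by
  refine Env.hub_lt (B := rv B) (C := R) (N := N) hd ?_ hm hj
  rw [scen_dig]
  exact ⟨by have := he.defi; rw [narc_rv]; omega,
    fun S hS W hW h1 h2 => by rw [ears_rv]; exact he.few W hW S hS h2 h1,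
    fun S hS W hW h1 h2 => by rw [ears_rv]; exact he.big W hW S hS h2 h1⟩

/-- what a regular matrix provides -/
def RegOut (p : Par) (A : α → α → Prop) (τ0 τ1 : ℕ) : Prop :=
  (rts univ A τ0).Nonempty ∧ (rts univ (rv A) τ0).Nonempty ∧
    ∀ τ, τ ≤ τ1 → ∀ (π : Equiv.Perm α) (s : α), π s ∈ rts univ A τ → s ∈ rts univ (rv A) τ →
      Frame A π s → (∀ a b, A (π a) b ↔ matV univ (dig A π) s a b) ∧ Cen univ (dig A π) s τ ∧
        τ + 7 * (100 * p.m) ≤ (fB (dig A π)).card ∧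
        τ + 7 * (100 * p.m) ≤ (fB (rv (dig A π))).card ∧ ∃ R' C', Nice p (dig A π) s R' C'

theorem scen_typ (h : NDr B) (hd : ∀ a, B a a)
    (he : Env (dig B 1) R C m (j + R.card + 1) (N + R.card + 1)) (hm : 0 < m)
    (hj : R.card + C.card + 2 ≤ j) {π : Equiv.Perm α} (hf : Frame B π s)
    (hr : IsRoot B R τ (π s)) (hc : IsRoot (rv B) C τ' s) (h1 : m ≤ τ) (h2 : m < τ') {t : ℕ}
    (h3 : R.card ≤ t + τ) (h4 : C.card ≤ t + τ') (h5 : t + 4 * m ≤ R.card)
    (h6 : t + 4 * m ≤ C.card) (h7 : 7 * m ≤ R.card) (h8 : 7 * m ≤ C.card) :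
    TypD (dig B π) s (R.map π.symm.toEmbedding) C m j N t := by
  refine ⟨gr_of_frame h (noBlk_of_env hd he (by omega)) hf hr hc h1 h2, env_frame hd hf he, hm,
    by rwa [card_map], fun z hz => ?_, fun z hz => ?_, by rwa [card_map], h6,
    by rwa [card_map], h8⟩
  · have := reg_row hr hz
    omega
  · have := reg_col (π := π) hc hz
    omega

omit [Fintype α] in
theorem scen_tight {π : Equiv.Perm α} {S Y : Finset α} (t : Tight (fun a b => B (π a) b) S Y) :
    Tight B (S.map π.toEmbedding) Y :=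
  ⟨fun a ha b k => by
    obtain ⟨a', ha', rfl⟩ := mem_map.1 ha
    exact t.1 a' ha' b k, by rw [card_map]; exact t.2⟩

theorem scen_pV (π : Equiv.Perm α) : π ∈ pV (univ : Finset α) :=
  smat_pV.2 fun a ha => absurd (mem_univ a) ha

theorem cen_diag (h : NDr B) (hd : ∀ a, B a a) (ok : p.Ok (Fintype.card α))
    (he : Env (dig B 1) R C p.m (p.j + R.card + 1) (p.N + R.card + 1))
    {vm cap N0 tw θ τ0 τ1 : ℕ} (hn : Num p R.card C.card vm cap N0 tw θ τ0 τ1)
    (hE : ∀ π s, Frame B π s → ¬ Red3 vm cap N0 s (Exc (Fintype.card α) p.k) (dig B π)) :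
    RegOut p B τ0 τ1 := by
  obtain ⟨r1, c1, r2, c2, r3, c3, r4, c4, hj, hvm, hcap, htw, hN0, a1, a2, a3, t0, t1, t2⟩ := hn
  have k0 := ok.k0
  have km := ok.km
  have hb := noBlk_of_env hd he (by omega)
  have fac : ∀ π s t, t ≤ tw → Frame B π s →
      TypD (dig B π) s (R.map π.symm.toEmbedding) C p.m p.j p.N t →
      Fac p (dig B π) s (R.map π.symm.toEmbedding) C := fun π s t k hf ht =>
    fac_of ht ok fun q hq => hE π s hf (q.red3 ht hvm (by omega) hN0 hq)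
  have main : (rts univ B τ0).Nonempty ∧ (rts univ (rv B) τ0).Nonempty := by
    obtain ⟨r, hr⟩ := h.fi.exists_root (τ := R.card / 2 - p.m) hb (by omega) (by omega)
      (by omega) (by omega)
    obtain ⟨s, hs⟩ := h.fi.rev.exists_root (τ := C.card / 2 - p.m) hb.rev (by omega) (by omega)
      (by omega) (by omega)
    obtain ⟨π, rfl, hf⟩ := h.fi.exists_frame r s
    have ht := scen_typ (t := tw) h hd he (by omega) (by omega) hf hr hs (by omega) (by omega)
      (by omega) (by omega) r2 c2 (by omega) (by omega)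
    have hF := fac π s tw le_rfl hf ht
    constructor
    · obtain ⟨r, hr'⟩ := root_nonempty (B := fun a b => B (π a) b) (h.fi.perm π) hf ht hF
        (by omega) (fun S Y t k => by
          by_contra e
          have := hs _ _ (tight_rv.2 (scen_tight t)) (mem_compl.2 e)
          rw [scen_compl] at this
          omega) a1 a2 a3 t0 (by rw [card_map]; omega)
      exact ⟨π r, (mem_rts_perm (scen_pV π) τ0 r).1 hr'⟩
    · rw [← rts_rv_perm (scen_pV π)]
      refine root_nonempty (B := rv fun a b => B (π a) b) (R := C)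
        (C := R.map π.symm.toEmbedding) (j := p.j) (N := p.N) (t := tw) (h.fi.perm π).rev hf
        (by rw [scen_dig]; exact ht.rev) (by rw [scen_dig]; exact hF.rev) (by omega)
        (fun S Y t k => ?_) a1 a2 a3 t0 (by omega)
      by_contra e
      have t' : Tight (fun a b => B (π a) b) Yᶜ Sᶜ := tight_rv.1 (by simpa using t)
      have b1 := hr _ _ (scen_tight t') (mem_map_of_mem _ (mem_compl.2 e))
      have b2 : Yᶜ.map π.toEmbedding ∩ R =
          (R.map π.symm.toEmbedding \ Y).map π.toEmbedding := by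
        ext x
        simp [mem_map_equiv, and_comm]
      rw [b2, card_map] at b1
      omega
  refine ⟨main.1, main.2, fun τ hτ π s h1 h2 hf => ?_⟩
  have hr := isRoot_of_rts (τ' := R.card - τ - p.m) h1
    (he.hub_lt hd (by omega) (by omega)).le (by omega)
  have hc := isRoot_of_rts (τ' := C.card - τ - p.m) h2
    (he.hub_lt' hd (by omega) (by omega)).le (by omega)
  have h0 := entry_zero h hb hr hc (by omega) (by omega)
  have ht := scen_typ (t := p.t) h hd he (by omega) (by omega) hf hr hc (by omega) (by omega)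
    (by omega) (by omega) (by omega) (by omega) (by omega) (by omega)
  have hcy : ∀ z z', z ≠ s → z' ≠ s → CycA (dig B π) {z, z'} s := fun z z' hz hz' =>
    cyc_of_root h.fi hb hf h0 hr hc (by omega) (by omega) hz hz'
  have hm : ∀ a b, B (π a) b ↔ matV univ (dig B π) s a b := fun a b => by
    refine ⟨fun k => ?_, ?_⟩
    · by_cases e : a = b
      · exact Or.inr ⟨e, mem_univ _, fun e' => h0 (by subst e e'; exact k)⟩
      · exact Or.inl ⟨e, k⟩
    · rintro (k | ⟨rfl, -, k⟩)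
      · exact k.2
      · exact hf a k
  have hm' : matV univ (dig B π) s = fun a b => B (π a) b := by
    funext a b
    exact propext (hm a b).symm
  have b1 := ht.col_lt
  have b2 := ht.rev.col_lt
  have b3 := card_le_card_sdiff_add_card (s := C) (t := fB (dig B π))
  have b4 := card_le_card_sdiff_add_card (s := R.map π.symm.toEmbedding)
    (t := fB (rv (dig B π)))
  rw [card_map] at b4
  refine ⟨hm, ⟨ht.gr, fun z hz => ?_, ?_, ?_⟩, by omega, by omega, _, _,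
    fac π s p.t htw hf ht, ok, ht, hcy, by rwa [card_map], by rwa [card_map], c4⟩
  · simpa using hcy z z hz hz
  · rw [hm']
    exact (mem_rts_perm (scen_pV π) τ s).2 h1
  · rw [hm', rts_rv_perm (scen_pV π)]
    exact h2

theorem cen_main {A : α → α → Prop} (h : NDr A) {σ : Equiv.Perm α} (hd : ∀ a, A (σ a) a)
    (ok : p.Ok (Fintype.card α))
    (he : Env (dig A σ) R C p.m (p.j + R.card + 1) (p.N + R.card + 1))
    {vm cap N0 tw θ τ0 τ1 : ℕ} (hn : Num p R.card C.card vm cap N0 tw θ τ0 τ1)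
    (hE : ∀ π s, Frame A π s → ¬ Red3 vm cap N0 s (Exc (Fintype.card α) p.k) (dig A π)) :
    RegOut p A τ0 τ1 := by
  obtain ⟨⟨r, h1⟩, h2, h3⟩ := cen_diag (B := fun a b => A (σ a) b) (h.perm σ) hd ok he hn
    fun π s hf => hE (σ * π) s hf
  rw [rts_rv_perm (scen_pV σ)] at h2
  refine ⟨⟨σ r, (mem_rts_perm (scen_pV σ) τ0 r).1 h1⟩, h2, fun τ hτ π s k1 k2 hf => ?_⟩
  obtain ⟨π, rfl⟩ : ∃ π', π = σ * π' := ⟨σ⁻¹ * π, by simp⟩
  exact h3 τ hτ π s ((mem_rts_perm (scen_pV σ) τ _).2 k1)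
    (by rw [rts_rv_perm (scen_pV σ)]; exact k2) hf

end Pool.Agent.Work.MP_5391ad_co
end
end

-- merged part: Pool.Agent.Work.MP_5391ad_co.SPar
section
/-! The parameters. `Λ = lam n`; all powers `n^c` with `c < 1` are `o(Λ)` (`pow_le_lam`), and
`Λ = o(n)` (`lam_le`). The inequalities follow from `Nat.le_ceil`, `Nat.ceil_lt_add_one`.
`par_num`: as in `TypM.typRed`; `EnvR.env`, `Env.mono`; `tw = max (|R|/2) (|C|/2) + 1 + m`.
`par_c`: as `master_c`, `master_par`: with `l = log (ell n)`, `z ≤ 2 exp (-l)`,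
`Λ ≤ ell n * l` (`div_log_le`), `z (100 m) ≤ ε l`, and `z cap ≤ (c + 3 ε + o(1)) l` if
`cap ≤ c Λ`, `c ≤ 1`; so `cX^3 cR ≤ C (1+l)^7 exp ((-1 + c + 10 ε) l)`, and `ell n ≥ n^(1-ε)`
(`rpow_le_ell`). `par_psi`: `M n^(2/M) = 4000 n^(1/2000)`, `k ≤ 2 n^(1/1000)`; `par_c` with
`c = 0.34` (weight `z S0 ≤ n^(-1 + ε + 1.55)`), `c = 0`, `c = 0.992` (`z cap ≤ l`); the last
surgery has `(4 Kb + 1)^4 (11 k + 2)^4 z ≤ n^(-1/2)`. -/

namespace Pool.Agent.Work.MP_5391ad_co

open Finset Filter Real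

/-- the parameters for matrices of size `n` -/
noncomputable def par (ε : ℝ) (n : ℕ) : Par where
  m := ⌈ε / 2000 * lam n⌉₊
  j := ⌈8 * lam n⌉₊
  N := ⌈(1 - ε) * n⌉₊ + 1
  t := ⌈331 / 1000 * lam n⌉₊
  k := ⌈(n : ℝ) ^ (1 / 1000 : ℝ)⌉₊
  a1 := ⌈2 * (n : ℝ) ^ (9 / 10 : ℝ)⌉₊
  a2 := ⌈301 / 1000 * lam n⌉₊
  a3 := ⌈601 / 1000 * lam n⌉₊
  b2 := ⌈971 / 1000 * lam n⌉₊
  Kb := ⌈(n : ℝ) ^ (11 / 100 : ℝ)⌉₊
  S0 := ⌈2 * (n : ℝ) ^ (31 / 20 : ℝ)⌉₊
  y1 := ⌈99 / 100 * lam n⌉₊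

/-- the first level -/
noncomputable def lev0 (n : ℕ) : ℕ := ⌈32 / 100 * lam n⌉₊

theorem pow_le_lam {c δ : ℝ} (hc : c < 1) (hδ : 0 < δ) :
    ∀ᶠ n : ℕ in atTop, (n : ℝ) ^ c ≤ δ * lam n := by
  have h := (tendsto_natCast_atTop_atTop (R := ℝ)).eventually
    ((isLittleO_log_rpow_atTop (sub_pos.2 hc)).bound hδ)
  filter_upwards [h, eventually_gt_atTop 1] with N h1 h2
  have h3 : (1 : ℝ) < N := by exact_mod_cast h2
  have h4 := log_pos h3
  have h5 : ∀ a : ℝ, (0 : ℝ) ≤ (N : ℝ) ^ a := fun a => rpow_nonneg (by linarith only [h3]) _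
  rw [norm_of_nonneg h4.le, norm_of_nonneg (h5 _)] at h1
  have h6 : (N : ℝ) ^ c * (N : ℝ) ^ (1 - c) = N := by
    rw [← rpow_add (by linarith only [h3])]
    norm_num
  rw [lam, ← mul_div_assoc, le_div_iff₀ h4]
  calc (N : ℝ) ^ c * log N ≤ (N : ℝ) ^ c * (δ * (N : ℝ) ^ (1 - c)) :=
        mul_le_mul_of_nonneg_left h1 (h5 _)
    _ = δ * N := by rw [mul_left_comm, h6]

theorem spar_pow {a b e : ℝ} (hab : a < b) (he : 0 < e) :
    ∀ᶠ N : ℕ in atTop, (N : ℝ) ^ a ≤ e * (N : ℝ) ^ b := by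
  have h := ((tendsto_rpow_neg_atTop (sub_pos.2 hab)).comp
    (tendsto_natCast_atTop_atTop (R := ℝ))).eventually (ge_mem_nhds he)
  filter_upwards [h, eventually_gt_atTop 0] with N h1 h2
  have h3 : (0 : ℝ) < N := by exact_mod_cast h2
  have h4 : (N : ℝ) ^ a = (N : ℝ) ^ (-(b - a)) * (N : ℝ) ^ b := by
    rw [← rpow_add h3]
    exact congrArg _ (by ring)
  rw [h4]
  exact mul_le_mul_of_nonneg_right h1 (rpow_nonneg h3.le _)

theorem spar_ceil {x : ℝ} (hx : 0 ≤ x) : x ≤ ⌈x⌉₊ ∧ (⌈x⌉₊ : ℝ) ≤ x + 1 :=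
  ⟨Nat.le_ceil x, (Nat.ceil_lt_add_one hx).le⟩

theorem spar_pw {n : ℕ} (hn : 1 ≤ n) {c : ℝ} (hc : 0 ≤ c) : (1 : ℝ) ≤ (n : ℝ) ^ c :=
  one_le_rpow (Nat.one_le_cast.2 hn) hc

theorem spar_fin {y k K S z A1 A2 A3 c : ℝ} (hy : 1 ≤ y) (k0 : 0 ≤ k) (K0 : 0 ≤ K) (z0 : 0 ≤ z)
    (a1 : 0 ≤ A1) (a2 : 0 ≤ A2) (a3 : 0 ≤ A3) (hk : k ≤ 2 * y ^ 2) (hK : K ≤ 2 * y ^ 220)
    (hS : S ≤ 5 * y ^ 3100) (hz : z * y ^ 1998 ≤ 2) (h1 : A1 * y ^ 1300 ≤ 1)
    (h2 : A2 * y ^ 1000 ≤ 1) (h3 : A3 * y ^ 14 ≤ 1) (hc : z * c ≤ y ^ 2) :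
    y * (4000 * y * (2 * (4 * A1 * z * S) + (21 * k + 1) * (100 * A2) +
      2 * ((11 * k + 1) * (4 * A3 * z * c)) +
      (4 * K + 1) ^ 2 * ((11 * k + 2) ^ 4 * ((4 * K + 1) ^ 2 * z)))) ≤ 10 ^ 14 := by
  have y0 : 0 ≤ y := by linarith only [hy]
  have p2 : 1 ≤ y ^ 2 := one_le_pow₀ hy
  have p3 : 1 ≤ y ^ 220 := one_le_pow₀ hy
  have t0 : y ^ 2 * (A1 * z * S) ≤ 10 := by
    calc y ^ 2 * (A1 * z * S) ≤ y ^ 2 * (A1 * z * (5 * y ^ 3100)) := by gcongr
      _ = 5 * ((A1 * y ^ 1300) * (z * y ^ 1802)) := by ring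
      _ ≤ 5 * (1 * (z * y ^ 1998)) := by gcongr; norm_num
      _ ≤ 10 := by linarith only [hz]
  have t2 : y ^ 2 * ((21 * k + 1) * A2) ≤ 43 := by
    calc y ^ 2 * ((21 * k + 1) * A2) ≤ y ^ 2 * ((43 * y ^ 2) * A2) := by
          gcongr
          linarith only [hk, p2]
      _ = 43 * (A2 * y ^ 4) := by ring
      _ ≤ 43 * (A2 * y ^ 1000) := by gcongr; norm_num
      _ ≤ 43 := by linarith only [h2]
  have t3 : y ^ 2 * ((11 * k + 1) * (A3 * (z * c))) ≤ 23 := by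
    calc y ^ 2 * ((11 * k + 1) * (A3 * (z * c))) ≤ y ^ 2 * ((11 * k + 1) * (A3 * y ^ 2)) := by
          gcongr
      _ ≤ y ^ 2 * ((23 * y ^ 2) * (A3 * y ^ 2)) := by
          gcongr
          linarith only [hk, p2]
      _ = 23 * (A3 * y ^ 6) := by ring
      _ ≤ 23 * (A3 * y ^ 14) := by gcongr; norm_num
      _ ≤ 23 := by linarith only [h3]
  have t5 : y ^ 2 * ((4 * K + 1) ^ 4 * (11 * k + 2) ^ 4 * z) ≤ 5 * 10 ^ 9 := by
    calc y ^ 2 * ((4 * K + 1) ^ 4 * (11 * k + 2) ^ 4 * z)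
        ≤ y ^ 2 * ((9 * y ^ 220) ^ 4 * (24 * y ^ 2) ^ 4 * z) := by gcongr <;> linarith only [hK, p3, hk, p2]
      _ = 9 ^ 4 * 24 ^ 4 * (z * y ^ 890) := by ring
      _ ≤ 9 ^ 4 * 24 ^ 4 * (z * y ^ 1998) := by gcongr; norm_num
      _ ≤ 5 * 10 ^ 9 := by linarith only [hz]
  linarith only [t0, t2, t3, t5]

variable {ε : ℝ} (hε : 0 < ε) (hε1 : ε ≤ 1 / 10 ^ 6)
include hε hε1

theorem par_ok : ∀ᶠ n : ℕ in atTop, (par ε n).Ok n := by
  filter_upwards [eventually_ge_atTop 20, tendsto_lam.eventually_ge_atTop 10000,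
    lam_le (c := 1) one_pos,
    pow_le_lam (c := 1 / 1000) (δ := ε / 40000) (by norm_num) (by positivity),
    pow_le_lam (c := 11 / 100) (δ := ε / 4000) (by norm_num) (by positivity),
    pow_le_lam (c := 901 / 1000) (δ := 1 / 10000) (by norm_num) (by positivity),
    spar_pow (a := 1 / 1000) (b := 9 / 10) (e := 1 / 20) (by norm_num) (by norm_num),
    spar_pow (a := 1 / 1000) (b := 11 / 100) (e := 1 / 400) (by norm_num) (by norm_num),
    spar_pow (a := 101 / 1000) (b := 11 / 100) (e := 1 / 10) (by norm_num) (by norm_num),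
    spar_pow (a := 1001 / 1000) (b := 31 / 20) (e := 1 / 42) (by norm_num) (by norm_num)]
    with n h1 h2 h3 h4 h5 h6 h7 h8 h9 h10
  have n0 : (20 : ℝ) ≤ n := by exact_mod_cast h1
  have n1 : (0 : ℝ) < n := by linarith only [hε, hε1, h2, h3]
  have l0 : 0 ≤ lam n := by linarith only [hε, hε1, h2]
  have l1 : ε * lam n ≤ 1 / 10 ^ 6 * lam n := mul_le_mul_of_nonneg_right hε1 l0
  have x1 := spar_pw (n := n) (by omega) (c := 1 / 1000) (by norm_num)
  have x2 := spar_pw (n := n) (by omega) (c := 11 / 100) (by norm_num)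
  have x3 := spar_pw (n := n) (by omega) (c := 9 / 10) (by norm_num)
  have x4 := spar_pw (n := n) (by omega) (c := 1 / 10) (by norm_num)
  have e1 : (n : ℝ) ^ (101 / 1000 : ℝ) = (n : ℝ) ^ (1 / 1000 : ℝ) * (n : ℝ) ^ (1 / 10 : ℝ) := by
    rw [← rpow_add n1]
    norm_num
  have e2 : (n : ℝ) ^ (1001 / 1000 : ℝ) = (n : ℝ) ^ (1 / 1000 : ℝ) * n := by
    rw [← rpow_add_one n1.ne']
    norm_num
  have e3 : (n : ℝ) ^ (901 / 1000 : ℝ) = (n : ℝ) ^ (1 / 1000 : ℝ) * (n : ℝ) ^ (9 / 10 : ℝ) := by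
    rw [← rpow_add n1]
    norm_num
  obtain ⟨m1, m2⟩ := spar_ceil (x := ε / 2000 * lam n) (by positivity)
  obtain ⟨t1, t2⟩ := spar_ceil (x := 331 / 1000 * lam n) (by positivity)
  obtain ⟨k1, k2⟩ := spar_ceil (x := (n : ℝ) ^ (1 / 1000 : ℝ)) (by positivity)
  obtain ⟨a1, a1'⟩ := spar_ceil (x := 2 * (n : ℝ) ^ (9 / 10 : ℝ)) (by positivity)
  obtain ⟨a2, a2'⟩ := spar_ceil (x := 301 / 1000 * lam n) (by positivity)
  obtain ⟨a3, a3'⟩ := spar_ceil (x := 601 / 1000 * lam n) (by positivity)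
  obtain ⟨b2, b2'⟩ := spar_ceil (x := 971 / 1000 * lam n) (by positivity)
  obtain ⟨K1, K2⟩ := spar_ceil (x := (n : ℝ) ^ (11 / 100 : ℝ)) (by positivity)
  obtain ⟨S1, -⟩ := spar_ceil (x := 2 * (n : ℝ) ^ (31 / 20 : ℝ)) (by positivity)
  obtain ⟨y1, -⟩ := spar_ceil (x := 99 / 100 * lam n) (by positivity)
  have k3 : (⌈(n : ℝ) ^ (1 / 1000 : ℝ)⌉₊ : ℝ) ≤ 2 * (n : ℝ) ^ (1 / 1000 : ℝ) := by
    linarith only [k2, x1]
  have p1 := mul_le_mul_of_nonneg_right (show 2 * (⌈(n : ℝ) ^ (1 / 1000 : ℝ)⌉₊ : ℝ) + 1 ≤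
    5 * (n : ℝ) ^ (1 / 1000 : ℝ) by linarith only [k3, x1]) (zero_le_one.trans x4)
  have p2 := mul_le_mul_of_nonneg_right k3 n1.le
  have p3 := mul_le_mul k3 (show (⌈2 * (n : ℝ) ^ (9 / 10 : ℝ)⌉₊ : ℝ) ≤
    3 * (n : ℝ) ^ (9 / 10 : ℝ) by linarith only [a1', x3]) (Nat.cast_nonneg _) (by positivity)
  refine ⟨Nat.lt_ceil.2 ?_, ?_, ?_, ?_, ?_, ?_, ?_, ?_, ?_, ?_, ?_, ?_, ?_⟩
  · exact_mod_cast one_lt_rpow (by linarith only [n0] : (1 : ℝ) < n)
      (by norm_num : (0 : ℝ) < 1 / 1000)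
  all_goals
    simp only [par]
    try rify
  · linarith only [k3, h4, m1]
  · linarith only [K2, x2, h5, m1]
  · linarith only [k3, h4, l1, h3, n0]
  · linarith only [a1, k3, h7]
  · linarith only [a2, k3, h4, l1, h2]
  · linarith only [a3, k3, h4, l1, h2]
  · linarith only [b2, k3, h4, l1, h2]
  · linarith only [p1, e1, h9, k3, h8, K1]
  · linarith only [p2, e2, h10, S1]
  · linarith only [p3, e3, h6, b2', y1, h2]
  · linarith only [a2', t2, m2, l1, y1, h2]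
  · linarith only [a3', y1, h2]

theorem par_num : ∀ᶠ n : ℕ in atTop, ∀ (α : Type) [Fintype α], Fintype.card α = n →
    ∀ (D : α → α → Prop) (R C : Finset α), EnvR (ε / 2000) D R C →
      Env D R C (par ε n).m ((par ε n).j + R.card + 1) ((par ε n).N + R.card + 1) ∧
      ∃ tw θ, Num (par ε n) R.card C.card (vmax ε n) (capn ε n) ⌈(1 - ε) * n⌉₊ tw θ (lev0 n)
        (lev0 n + 6 * (100 * (par ε n).m) * 4000) := by
  filter_upwards [eventually_ge_atTop 1, tendsto_lam.eventually_ge_atTop (10 ^ 10),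
    tendsto_lam.eventually_ge_atTop (2000 / ε), lam_le (c := ε / 10) (by positivity),
    pow_le_lam (c := 11 / 100) (δ := 1) (by norm_num) one_pos,
    pow_le_lam (c := 9 / 10) (δ := 1 / 10) (by norm_num) (by positivity)]
    with n h1 h2 h3 h4 h5 h6 α _ hα D R C h
  rw [div_le_iff₀ hε] at h3
  have l0 : 0 ≤ lam n := by linarith only [hε, hε1, h2]
  have l1 : ε * lam n ≤ 1 / 10 ^ 6 * lam n := mul_le_mul_of_nonneg_right hε1 l0
  have he := h.env (by rw [hα]; linarith only [h3])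
  have r1 := h.loR
  have r2 := h.hiR
  have c1 := h.loC
  have c2 := h.hiC
  rw [hα] at he r1 r2 c1 c2
  obtain ⟨m1, m2⟩ := spar_ceil (x := ε / 2000 * lam n) (by positivity)
  obtain ⟨j1, j2⟩ := spar_ceil (x := 8 * lam n) (by positivity)
  obtain ⟨-, N2⟩ := spar_ceil (x := (1 - ε) * n) (mul_nonneg (by linarith only [hε, hε1]) (Nat.cast_nonneg _))
  obtain ⟨t1, t2⟩ := spar_ceil (x := 331 / 1000 * lam n) (by positivity)
  obtain ⟨-, a1⟩ := spar_ceil (x := 2 * (n : ℝ) ^ (9 / 10 : ℝ)) (by positivity)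
  obtain ⟨-, a2⟩ := spar_ceil (x := 301 / 1000 * lam n) (by positivity)
  obtain ⟨-, a3⟩ := spar_ceil (x := 601 / 1000 * lam n) (by positivity)
  obtain ⟨-, K2⟩ := spar_ceil (x := (n : ℝ) ^ (11 / 100 : ℝ)) (by positivity)
  obtain ⟨-, y2⟩ := spar_ceil (x := 99 / 100 * lam n) (by positivity)
  obtain ⟨u1, u2⟩ := spar_ceil (x := 32 / 100 * lam n) (by positivity)
  obtain ⟨v1, v2⟩ := spar_ceil (x := 31 / 100 * lam n) (by positivity)
  have w1 := Nat.le_ceil (10 * lam n)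
  have w2 := Nat.le_ceil ((1 - 1000 * (ε / 2000)) * n)
  obtain ⟨q, q1, q2, q3, q4⟩ : ∃ q : ℕ, R.card / 2 ≤ q ∧ C.card / 2 ≤ q ∧
      2 * (q : ℝ) ≤ (1 + ε / 2000) * lam n ∧ (R.card : ℝ) ≤ 2 * q + 1 := by
    refine ⟨max (R.card / 2) (C.card / 2), le_max_left _ _, le_max_right _ _, ?_, ?_⟩
    · rcases max_choice (R.card / 2) (C.card / 2) with e | e <;> rw [e]
      · exact le_trans (by exact_mod_cast Nat.mul_div_le _ 2) r2
      · exact le_trans (by exact_mod_cast Nat.mul_div_le _ 2) c2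
    · have := le_max_left (R.card / 2) (C.card / 2)
      exact_mod_cast (by omega : R.card ≤ 2 * max (R.card / 2) (C.card / 2) + 1)
  refine ⟨he.mono ?_ ?_, q + 1 + (par ε n).m, ⌈31 / 100 * lam n⌉₊, by omega, by omega, ?_, ?_, ?_,
    ?_, ?_, ?_, ?_, Nat.le_floor ?_, Nat.le_floor ?_, ?_, le_rfl, ?_, ?_, ?_, ?_,
    Nat.le_add_right _ _, ?_⟩
  all_goals
    simp only [par, lev0, mul_div_assoc]
    try rw [← lam]
    rify
  · linarith only [j2, r2, w1, l1, h2]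
  · linarith only [N2, r2, w2, h4, l1, h2]
  · linarith only [q3, m2, r1, l1, h2]
  · linarith only [q3, m2, c1, l1, h2]
  · linarith only [u2, m2, r1, l1, h2]
  · linarith only [u2, m2, c1, l1, h2]
  · linarith only [y2, m2, r1, l1, h2]
  · linarith only [y2, m2, c1, l1, h2]
  · linarith only [r2, c2, K2, h5, j1, l1, h2]
  · linarith only [m2, h3]
  · linarith only [q3, m2, h3]
  · linarith only [t2, q4, r1, m1, h2, h3]
  · linarith only [a1, h6, m2, v1, l1, h2]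
  · linarith only [a2, m2, v1, l1, h2]
  · linarith only [a3, m2, v1, l1, h2]
  · linarith only [v2, m2, u1, l1, h2]
  · linarith only [u2, m2, t1, l1, h2]

theorem par_K : ∀ᶠ n : ℕ in atTop, ∃ K : ℕ, K + 2 ≤ n ∧ (K : ℝ) ≤ 2 * ε * n ∧
    ∀ k, k + (par ε n).N ≤ n + (par ε n).Kb + 10 → k ≤ K := by
  filter_upwards [(tendsto_natCast_atTop_atTop (R := ℝ)).eventually_ge_atTop (22 / ε),
    eventually_ge_atTop 4,
    spar_pow (a := 11 / 100) (b := 1) (e := ε / 2) (by norm_num) (by positivity)] with n h1 h2 h3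
  rw [div_le_iff₀ hε] at h1
  rw [rpow_one] at h3
  have n0 : (4 : ℝ) ≤ n := by exact_mod_cast h2
  have f1 := Nat.floor_le (show 0 ≤ 2 * ε * n by positivity)
  have l1 : ε * n ≤ 1 / 10 ^ 6 * n := mul_le_mul_of_nonneg_right hε1 (by linarith only [hε, hε1, n0])
  have N1 := Nat.le_ceil ((1 - ε) * n)
  obtain ⟨-, K2⟩ := spar_ceil (x := (n : ℝ) ^ (11 / 100 : ℝ)) (by positivity)
  refine ⟨⌊2 * ε * n⌋₊, ?_, f1, fun k hk => Nat.le_floor ?_⟩
  · rify
    linarith only [hε, hε1, h1, f1, l1]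
  · simp only [par] at hk
    rify at hk
    linarith only [hε, hε1, h1, h3, N1, K2, hk]

theorem par_c {c : ℝ} (hc : 0 ≤ c) (hc1 : c ≤ 1) : ∀ᶠ n : ℕ in atTop, ∀ cap : ℕ,
    (cap : ℝ) ≤ c * lam n → cX ((1 + 3 * ε) / ell n) (100 * (par ε n).m) cap ^ 3 *
      cR ((1 + 3 * ε) / ell n) (100 * (par ε n).m) cap ≤ (n : ℝ) ^ (-1 + c + 20 * ε) := by
  have hn := tendsto_natCast_atTop_atTop (R := ℝ)
  filter_upwards [hn.eventually_ge_atTop 30,
    (tendsto_log_atTop.comp (tendsto_ell.comp hn)).eventually (master_ev1 hε),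
    hn.eventually (rpow_le_ell hε), tendsto_lam.eventually_ge_atTop (2000 / ε)]
    with n h1 h2 h3 h4 cap hcap
  simp only [Function.comp_apply] at h2
  rw [div_le_iff₀ hε] at h4
  have hn0 : (0 : ℝ) < n := by linarith only [hε, hε1, h1]
  have hL := (exp_pos 2).trans_le (le_ell n)
  have hl : 2 ≤ log (ell n) := (le_log_iff_exp_le hL).2 (le_ell n)
  have hd : lam n ≤ ell n * log (ell n) := (div_log_le h1).1
  have l0 : 0 ≤ lam n := by
    by_contra! k
    linarith only [h4, mul_neg_of_neg_of_pos k hε]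
  have hz0 : 0 < (1 + 3 * ε) / ell n := by positivity
  have hv : ((100 * (par ε n).m : ℕ) : ℝ) ≤ ε / 10 * (ell n * log (ell n)) := by
    obtain ⟨-, m2⟩ := spar_ceil (x := ε / 2000 * lam n) (by positivity)
    have := mul_le_mul_of_nonneg_left hd (by positivity : 0 ≤ ε / 10)
    simp only [par]
    push_cast
    linarith only [h4, m2, this]
  have hc2 : (cap : ℝ) ≤ c * (ell n * log (ell n)) := hcap.trans (by gcongr)
  have e : ∀ a : ℝ, (1 + 3 * ε) / ell n * (a * (ell n * log (ell n))) =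
      (1 + 3 * ε) * a * log (ell n) := fun a => by field_simp
  have hz : (1 + 3 * ε) / ell n ≤ 2 * exp (-log (ell n)) := by
    rw [exp_neg, exp_log hL, ← div_eq_mul_inv]
    gcongr
    linarith only [hε, hε1]
  have z1 : (1 + 3 * ε) / ell n * (100 * (par ε n).m : ℕ) ≤ ε * log (ell n) :=
    (mul_le_mul_of_nonneg_left hv hz0.le).trans (by
      rw [e]
      gcongr
      linarith only [mul_le_mul_of_nonneg_left hε1 hε.le, hε])
  have z2 : (1 + 3 * ε) / ell n * cap ≤ (c + 3 * ε) * log (ell n) :=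
    (mul_le_mul_of_nonneg_left hc2 hz0.le).trans (by
      rw [e]
      gcongr
      linarith only [mul_le_mul_of_nonneg_left hc1 hε.le])
  have h5 : (1 - ε) * log n ≤ log (ell n) := by
    rw [← log_rpow hn0]
    exact log_le_log (by positivity) h3
  have h6 : log (ell n) ≤ log n := log_le_log hL (ell_le h1)
  generalize (1 + 3 * ε) / ell n = z at *
  generalize 100 * (par ε n).m = vm at *
  generalize log (ell n) = l at *
  have k0 := mul_le_mul_of_nonneg_right hε1 (zero_le_two.trans hl)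
  have k1 : z * vm ≤ l := by linarith only [z1, k0, hl]
  have k2 : 1 + z * cap ≤ 2 * (1 + l) := by
    linarith only [z2, k0, hl, mul_le_mul_of_nonneg_right hc1 (zero_le_two.trans hl)]
  have hX : cX z vm cap ≤ 100000 * (1 + l) * (2 * (1 + l)) * exp (2 * (ε * l)) := by
    unfold cX
    gcongr
  have hR : cR z vm cap ≤ 2 * exp (-l) * exp ((c + 3 * ε) * l) * (1 + l) := by
    unfold cR
    gcongr
  have hX0 : 0 ≤ cX z vm cap := by
    unfold cX
    positivity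
  have hR0 : 0 ≤ cR z vm cap := by
    unfold cR
    positivity
  have e1 : exp (2 * (ε * l)) ^ 3 * exp (-l) * exp ((c + 3 * ε) * l) * exp (ε * l) =
      exp ((-1 + c + 10 * ε) * l) := by
    rw [← exp_nat_mul, ← exp_add, ← exp_add, ← exp_add]
    congr 1
    push_cast
    ring
  refine (mul_le_mul (pow_le_pow_left₀ hX0 hX 3) hR hR0 (by positivity)).trans ?_
  have h7 := mul_le_mul_of_nonneg_left h2
    (by positivity : 0 ≤ exp (2 * (ε * l)) ^ 3 * exp (-l) * exp ((c + 3 * ε) * l))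
  rw [e1] at h7
  have h8 : exp ((-1 + c + 10 * ε) * l) ≤ (n : ℝ) ^ (-1 + c + 20 * ε) := by
    rw [rpow_def_of_pos hn0]
    refine exp_le_exp.2 ?_
    have g1 := mul_le_mul_of_nonneg_left h5 (sub_nonneg.2 hc1)
    have g2 := mul_le_mul_of_nonneg_left h6 hε.le
    have g3 : 0 ≤ c * (ε * log n) := mul_nonneg hc (mul_nonneg hε.le (by linarith only [hε, hε1, hl, h6]))
    have g4 : 0 ≤ ε * log n := mul_nonneg hε.le (by linarith only [hε, hε1, hl, h6])
    linarith only [h5, h6, g1, g2, g3]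
  have h9 : 0 ≤ exp (2 * (ε * l)) ^ 3 * exp (-l) * exp ((c + 3 * ε) * l) * (1 + l) ^ 7 := by
    positivity
  linarith only [h7, h8, h9]

theorem par_psi {δ : ℝ} (hδ : 0 < δ) : ∀ᶠ n : ℕ in atTop, ∀ p z, p = par ε n →
    z = (1 + 3 * ε) / ell n →
    cX z (100 * p.m) (p.t + 40 * p.m) ^ 3 * cR z (100 * p.m) (p.t + 40 * p.m) ≤ 1 / 8 ∧
    cX z (100 * p.m) 0 ^ 3 * cR z (100 * p.m) 0 ≤ 1 / 8 ∧
    cX z (100 * p.m) (p.y1 + 80 * p.m) ^ 3 * cR z (100 * p.m) (p.y1 + 80 * p.m) ≤ 1 / 8 ∧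
    ((4 * p.Kb + 1 : ℕ) : ℝ) ^ 2 * z ≤ 1 ∧ (∀ i, 0 ≤ surW p n z i) ∧
    (4000 : ℕ) * (n : ℝ) ^ (2 / (4000 : ℕ) : ℝ) *
      ∑ i, ((surX p i : ℝ) + 1) ^ 2 * surW p n z i ≤ δ := by
  have hn := tendsto_natCast_atTop_atTop (R := ℝ)
  filter_upwards [hn.eventually_ge_atTop 30, eventually_ge_atTop 1,
    tendsto_lam.eventually_ge_atTop (10 ^ 6),
    par_c hε hε1 (c := 34 / 100) (by norm_num) (by norm_num),
    par_c hε hε1 (c := 0) le_rfl (by norm_num),
    par_c hε hε1 (c := 992 / 1000) (by norm_num) (by norm_num),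
    hn.eventually (rpow_le_ell (δ := 1 / 1000) (by norm_num)),
    hn.eventually ((isLittleO_log_rpow_atTop (show (0 : ℝ) < 1 / 1000 by norm_num)).bound
      (show (0 : ℝ) < 1 / 2 by norm_num)),
    ((tendsto_rpow_atTop (show (0 : ℝ) < 1 / 2000 by norm_num)).comp hn).eventually_ge_atTop
      (max 200 (10 ^ 14 / δ))] with n h1 h1' h2 c1 c2 c3 h3 h4 h5 p z hp hz
  simp only [Function.comp_apply] at h5
  have n0 : (0 : ℝ) < n := by linarith only [hε, hε1, h1]
  have n1 : (1 : ℝ) ≤ n := by linarith only [hε, hε1, h1]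
  have l0 : 0 ≤ lam n := by linarith only [hε, hε1, h2]
  have l1 : ε * lam n ≤ 1 / 10 ^ 6 * lam n := mul_le_mul_of_nonneg_right hε1 l0
  have hL := (exp_pos 2).trans_le (le_ell n)
  have hl : 2 ≤ log (ell n) := (le_log_iff_exp_le hL).2 (le_ell n)
  have z0 : 0 < z := by
    rw [hz]
    positivity
  obtain ⟨-, m2⟩ := spar_ceil (x := ε / 2000 * lam n) (by positivity)
  obtain ⟨-, t2⟩ := spar_ceil (x := 331 / 1000 * lam n) (by positivity)
  obtain ⟨-, y2⟩ := spar_ceil (x := 99 / 100 * lam n) (by positivity)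
  obtain ⟨-, k2⟩ := spar_ceil (x := (n : ℝ) ^ (1 / 1000 : ℝ)) (by positivity)
  obtain ⟨-, K2⟩ := spar_ceil (x := (n : ℝ) ^ (11 / 100 : ℝ)) (by positivity)
  obtain ⟨-, S2⟩ := spar_ceil (x := 2 * (n : ℝ) ^ (31 / 20 : ℝ)) (by positivity)
  have cp : ((p.y1 + 80 * p.m : ℕ) : ℝ) ≤ 992 / 1000 * lam n := by
    simp only [hp, par]
    push_cast
    linarith only [y2, m2, l1, h2]
  have d1 := c1 (p.t + 40 * p.m) (by
    simp only [hp, par]
    push_cast
    linarith only [t2, m2, l1, h2])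
  have d2 := c2 0 (by simp)
  have d3 := c3 _ cp
  rw [← hp, ← hz] at d1 d2 d3
  obtain ⟨y, hy⟩ : ∃ y, y = (n : ℝ) ^ (1 / 2000 : ℝ) := ⟨_, rfl⟩
  have ey : ∀ i : ℕ, y ^ i = (n : ℝ) ^ (i / 2000 : ℝ) := fun i => by
    rw [hy, ← rpow_natCast, ← rpow_mul n0.le]
    congr 1
    ring
  have ez : ∀ {A a : ℝ} (i : ℕ), A ≤ (n : ℝ) ^ a → a + i / 2000 ≤ 0 → A * y ^ i ≤ 1 := by
    intro A a i u v
    rw [ey]
    refine (mul_le_mul_of_nonneg_right u (by positivity)).trans ?_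
    rw [← rpow_add n0]
    exact rpow_le_one_of_one_le_of_nonpos n1 v
  rw [← hy] at h5
  have y1 : 200 ≤ y := (le_max_left _ _).trans h5
  have y3 : 10 ^ 14 ≤ y * δ := (div_le_iff₀ hδ).1 ((le_max_right _ _).trans h5)
  have y0 : 1 ≤ y := by linarith only [y1]
  have f1 := ez 1300 d1 (by push_cast; linarith only [hε1])
  have f2 := ez 1000 d2 (by push_cast; linarith only [hε1])
  have f3 := ez 14 d3 (by push_cast; linarith only [hε1])
  have e2 : y ^ 2 = (n : ℝ) ^ (1 / 1000 : ℝ) := by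
    rw [ey]
    norm_num
  have e3 : y ^ 220 = (n : ℝ) ^ (11 / 100 : ℝ) := by
    rw [ey]
    norm_num
  have e4 : y ^ 3100 = (n : ℝ) ^ (31 / 20 : ℝ) := by
    rw [ey]
    norm_num
  have e5 : y ^ 1998 = (n : ℝ) ^ (1 - 1 / 1000 : ℝ) := by
    rw [ey]
    norm_num
  have hk : (p.k : ℝ) ≤ 2 * y ^ 2 := by
    have := spar_pw h1' (c := 1 / 1000) (by norm_num)
    simp only [hp, par, e2]
    linarith only [this, k2]
  have hK : (p.Kb : ℝ) ≤ 2 * y ^ 220 := by
    have := spar_pw h1' (c := 11 / 100) (by norm_num)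
    simp only [hp, par, e3]
    linarith only [this, K2]
  have hS : ((p.S0 + 2 * n : ℕ) : ℝ) ≤ 5 * y ^ 3100 := by
    have := rpow_le_rpow_of_exponent_le n1 (show (1 : ℝ) ≤ 31 / 20 by norm_num)
    rw [rpow_one] at this
    simp only [hp, par, e4]
    push_cast
    linarith only [this, S2, n1]
  have hz1 : z * y ^ 1998 ≤ 2 := by
    rw [e5, hz, div_mul_eq_mul_div, div_le_iff₀ hL]
    exact mul_le_mul (by linarith only [hε1]) h3 (by positivity) (by norm_num)
  have hc : z * (p.y1 + 80 * p.m : ℕ) ≤ y ^ 2 := by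
    rw [norm_of_nonneg (log_nonneg n1), norm_of_nonneg (by positivity)] at h4
    have g1 : lam n ≤ ell n * log (ell n) := (div_log_le h1).1
    have g2 : log (ell n) ≤ log n := log_le_log hL (ell_le h1)
    rw [e2, hz, div_mul_eq_mul_div, div_le_iff₀ hL]
    refine (mul_le_mul (show 1 + 3 * ε ≤ 2 by linarith only [hε1])
      (cp.trans (show _ ≤ ell n * log (ell n) by
      linarith only [g1, l0])) (Nat.cast_nonneg _) (by norm_num)).trans ?_
    linarith only [mul_le_mul_of_nonneg_left (g2.trans h4) hL.le]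
  have a0 : ∀ vm cap, 0 ≤ cX z vm cap ^ 3 * cR z vm cap := fun vm cap => by
    unfold cX cR
    positivity
  have b0 : ∀ {A : ℝ} (i : ℕ), 0 ≤ A → A * y ^ (i + 1) ≤ 1 → A ≤ 1 / 8 := by
    intro A i u v
    have w1 : A * y ≤ A * y ^ (i + 1) :=
      mul_le_mul_of_nonneg_left (le_self_pow₀ y0 (Nat.succ_ne_zero i)) u
    have w2 := mul_le_mul_of_nonneg_left y1 u
    linarith only [w1, w2, v]
  have g0 := mchain_g z0
  refine ⟨b0 1299 (a0 _ _) f1, b0 999 (a0 _ _) f2, b0 13 (a0 _ _) f3, ?_, fun i => ?_, ?_⟩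
  · have p3 : 1 ≤ y ^ 220 := one_le_pow₀ y0
    have g1 : ((4 * p.Kb + 1 : ℕ) : ℝ) ^ 2 * z ≤ (9 * y ^ 220) ^ 2 * z := by
      gcongr
      push_cast
      linarith only [hK, p3]
    have g2 : z * y ^ 441 ≤ z * y ^ 1998 := by gcongr; norm_num
    have g3 := mul_le_mul_of_nonneg_left y1 (show 0 ≤ z * y ^ 440 by positivity)
    linarith only [g1, g2, g3, hz1]
  · have := a0 (100 * p.m) 0
    have := g0 (100 * p.m) (p.t + 40 * p.m)
    have := g0 (100 * p.m) (p.y1 + 80 * p.m)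
    fin_cases i <;> simp only [surW, mul_assoc (100 : ℝ)] <;> simp <;> positivity
  · have g := spar_fin y0 (Nat.cast_nonneg _) (Nat.cast_nonneg _) z0.le (a0 _ _) (a0 _ _) (a0 _ _)
      hk hK hS hz1 f1 f2 f3 hc
    refine le_of_mul_le_mul_left (le_of_eq_of_le ?_ (g.trans y3)) (by linarith only [y0] : 0 < y)
    have e6 : (n : ℝ) ^ (2 / (4000 : ℕ) : ℝ) = y := by
      rw [hy]
      norm_num
    rw [e6, Fin.sum_univ_six]
    simp only [surW, surX, cG, Matrix.cons_val_zero, Matrix.cons_val_one, Matrix.cons_val]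
    push_cast
    ring

end Pool.Agent.Work.MP_5391ad_co
end
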