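import Pool.Agent.Work.MP_5391ad_co.CExp

-- merged part: Pool.Agent.Work.MP_5391ad_co.CProp
section
/-! Propagation through the adiabatic regime.
`step3`: with `λ = exp (-kap0 β^2 + β^3/6 - a β^2/2) ≥ exp (-(kap0 + 1) β^2)`, `C1` from `res_h0`,
`C'` from `res_gc`, `A = 4 C1 + 1`: the term `η' β^2 e^{-x}` absorbs `C1 a^2 β^2 e^{-x}` and the
differences between `φ` and `h0` (`|φ - h0| ≤ C a gc ≤ C a e^{-x}`, `phi_le_gc`) multiplied by
`O(η β^2)`.
`prop_both`: `η n = (η + C0 a n0) exp (- sS β n0 n) + 2 A (a n)^2`, where `|φ - h0 β a| ≤ C0 a gc`;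
`η n e^{-β^2} ≤ η (n+1) ≤ 2 η n` because `a n ≤ a (n+1) e^{β^2/2}` and conversely;
`∑ β^2 exp (- sS) ≤ 1` telescopes (`s e^{-s} ≤ 1 - e^{-s}`). Induction with `Tr_mono`, `Tr_lin`;
for the upper bound use `|Tr r f| ≤ Tr r g` if `|f| ≤ g`. At `q = 0` everything vanishes (the
hypotheses give `f 0 = 0`, respectively `0 ≤ f 0`).
`lgL_eq`: sum the fields `lb`, `lr` of `St3`; `β ≤ 2 a ≤ 1`. -/

namespace Pool.Agent.Work.MP_5391ad_co

open Real Finset

theorem St3.r_le {K a0 r β' a' β a : ℝ} (h : St3 K a0 r β' a' β a) (hK : 0 ≤ K)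
    (ha : K * a0 ^ 2 ≤ 1) : r ≤ 1 := by
  have h1 := (abs_le.1 h.lr).2
  have h2 := h.b0
  have h3 : 0 < a := by linarith only [h2, h, h.ba]
  have h4 : K * a ^ 2 ≤ 1 := (mul_le_mul_of_nonneg_left (by gcongr; exact h.aa) hK).trans ha
  have h5 : K * a ^ 2 * β ^ 3 ≤ β ^ 3 := mul_le_of_le_one_left (by positivity) h4
  exact (log_nonpos_iff h.r0.le).1 (by linarith)

theorem cprop_mono {K a0 a1 r β' a' β a : ℝ} (h : St3 K a0 r β' a' β a) (h1 : a0 ≤ a1) :
    St3 K a1 r β' a' β a :=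
  ⟨h.b0, h.ba, h.aa.trans h1, h.b0', h.lb, h.la, h.r0, h.lr⟩

theorem cprop_bdd_add {f g : ℕ → ℝ} (hf : Bdd f) (hg : Bdd g) : Bdd fun k => f k + g k := by
  obtain ⟨B, hB⟩ := hf
  obtain ⟨B', hB'⟩ := hg
  exact ⟨B + B', fun q => (abs_add_le _ _).trans (add_le_add (hB q) (hB' q))⟩

theorem cprop_bdd_mul {f : ℕ → ℝ} (hf : Bdd f) (c : ℝ) : Bdd fun k => c * f k := by
  obtain ⟨B, hB⟩ := hf
  exact ⟨|c| * B, fun q => by rw [abs_mul]; gcongr; exact hB q⟩

theorem cprop_bdd_le {f g : ℕ → ℝ} (hg : Bdd g) (h : ∀ q, |f q| ≤ g q) : Bdd f := by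
  obtain ⟨B, hB⟩ := hg
  exact ⟨B, fun q => (h q).trans ((le_abs_self _).trans (hB q))⟩

theorem cprop_bdd_gc {β : ℝ} (hβ : 0 ≤ β) : Bdd fun k => gc (β * k) := by
  refine ⟨1, fun q => ?_⟩
  have hx : 0 ≤ β * q := by positivity
  obtain ⟨h1, h2, -⟩ := gc_basic.2.2 _ hx
  rw [abs_of_nonneg h1]
  exact h2.trans (exp_le_one_iff.2 (by linarith))

theorem cprop_bdd_h0 {β : ℝ} (hβ : 0 ≤ β) (a : ℝ) : Bdd (h0 β a) := by
  obtain ⟨C, -, H⟩ := phi_le_gc
  have hg := cprop_bdd_mul (cprop_bdd_gc hβ) C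
  have hx : ∀ q : ℕ, 0 ≤ β * q := fun q => by positivity
  have h1 : Bdd fun q : ℕ => phi (β * q) := cprop_bdd_le hg fun q => by
    rw [abs_of_nonneg (H _ (hx q)).1]
    exact (H _ (hx q)).2.1
  have h2 : Bdd fun q : ℕ => (β * q - kap0) ^ 2 / 6 * phi (β * q) := cprop_bdd_le hg fun q => by
    rw [abs_of_nonneg (mul_nonneg (by positivity) (H _ (hx q)).1)]
    exact (H _ (hx q)).2.2.1
  have h3 : Bdd fun q : ℕ => (β * q) ^ 2 / 2 * phi (β * q) := cprop_bdd_le hg fun q => by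
    rw [abs_of_nonneg (mul_nonneg (by positivity) (H _ (hx q)).1)]
    exact (H _ (hx q)).2.2.2.1
  convert cprop_bdd_add (cprop_bdd_add h1 (cprop_bdd_mul h2 (-β))) (cprop_bdd_mul h3 (-a)) using 1
  funext q
  rw [h0]
  ring

theorem cprop_h0 : ∃ C : ℝ, 0 < C ∧ ∀ β a : ℝ, 0 < β → β ≤ 2 * a → ∀ q : ℕ,
    0 ≤ phi (β * q) ∧ |phi (β * q) - h0 β a q| ≤ C * a * gc (β * q) := by
  obtain ⟨C, hC, H⟩ := phi_le_gc
  refine ⟨3 * C, by linarith, fun β a hβ ha q => ?_⟩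
  obtain ⟨h1, -, h2, h3, -⟩ := H (β * q) (by positivity)
  have ha0 : 0 < a := by linarith only [hβ, ha]
  have h4 : β * ((β * q - kap0) ^ 2 / 6 * phi (β * q)) ≤ 2 * a * (C * gc (β * q)) := by gcongr
  have h5 : a * ((β * q) ^ 2 / 2 * phi (β * q)) ≤ a * (C * gc (β * q)) := by gcongr
  have h6 : 0 ≤ β * ((β * q - kap0) ^ 2 / 6 * phi (β * q)) := by positivity
  have h7 : 0 ≤ a * ((β * q) ^ 2 / 2 * phi (β * q)) := by positivity
  refine ⟨h1, ?_⟩
  rw [h0]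
  exact abs_le.2 ⟨by clear * - C a β q h4 h6 h7; linarith only [h4, h6, h7], by clear * - β q a C h4 h5; linarith only [h4, h5]⟩

theorem cprop_exp_neg {δ : ℝ} (h0 : 0 ≤ δ) (h1 : δ ≤ 1) : exp (-δ) ≤ 1 - δ / 2 := by
  have h2 := add_one_le_exp δ
  have h3 : exp δ * exp (-δ) = 1 := by rw [← exp_add]; simp
  have h4 := exp_pos (-δ)
  (refine le_of_not_gt fun h_nl => ?_; linarith only [h_nl, h3, h0, h1, h2, h4, mul_nonneg_of_nonpos_of_nonpos (Mathlib.Tactic.Linarith.sub_nonpos_of_le h0) (Mathlib.Tactic.Linarith.sub_nonpos_of_le h1), mul_nonneg_of_nonpos_of_nonpos (Mathlib.Tactic.Linarith.sub_nonpos_of_le h0) (le_of_lt (Mathlib.Tactic.Linarith.sub_neg_of_lt h_nl)), mul_nonneg_of_nonpos_of_nonpos (Mathlib.Tactic.Linarith.sub_nonpos_of_le h2) (le_of_lt (Mathlib.Tactic.Linarith.sub_neg_of_lt h4))])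

theorem step3 {K : ℝ} (hK : 0 ≤ K) : ∃ A C a1 η1 : ℝ, 1 ≤ A ∧ 0 ≤ C ∧ 0 < a1 ∧ 0 < η1 ∧
    ∀ r β' a' β a η η' : ℝ, St3 K a1 r β' a' β a → A * a ^ 2 ≤ η' → η' ≤ η1 →
    η' * exp (-(β ^ 2)) ≤ η → η ≤ 2 * η' → ∀ q : ℕ,
    Tr r (fun k => h0 β' a' k + η' * gc (β' * k)) q ≤
        exp (-(kap0 * β ^ 2) + β ^ 3 / 6 - a * β ^ 2 / 2 + C * η * β ^ 2) *
          (h0 β a q + η * gc (β * q)) ∧
      exp (-(kap0 * β ^ 2) + β ^ 3 / 6 - a * β ^ 2 / 2 - C * η * β ^ 2) *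
          (h0 β a q - η * gc (β * q)) ≤ Tr r (fun k => h0 β' a' k - η' * gc (β' * k)) q := by
  obtain ⟨C1, a11, hC1, ha11, H1⟩ := res_h0 hK
  obtain ⟨C2, a12, hC2, ha12, H2⟩ := res_gc hK
  obtain ⟨C0, hC0, H0⟩ := cprop_h0
  have hκ := kap0_pos
  set C := 2 * C2 * exp (kap0 + 2) with hC
  have hC' : 0 ≤ C := by positivity
  obtain ⟨a1, ha1, k1, k2, k3, k4, k5⟩ : ∃ a1 : ℝ, 0 < a1 ∧ a1 ≤ a11 ∧ a1 ≤ a12 ∧ a1 ≤ 1 / 2 ∧
      a1 ≤ 1 / (K + 1) ∧ a1 ≤ 1 / (8 * C * C0 + 1) :=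
    ⟨min a11 (min a12 (min (1 / 2) (min (1 / (K + 1)) (1 / (8 * C * C0 + 1))))), by positivity,
      by clear * - a11 a12 K C C0; simp, by clear * - a11 a12 K C C0; simp, by clear * - a11 a12 K C C0; simp, by clear * - a11 a12 K C C0; simp, by clear * - a11 a12 K C C0; simp⟩
  have k6 : K * a1 ^ 2 ≤ 1 := by
    clear * - K a1 k3 ha1 hK k4
    rw [le_div_iff₀ (by positivity)] at k4
    linarith only [k3, ha1, k4, mul_pos_of_neg_of_neg (Mathlib.Tactic.Linarith.sub_neg_of_lt ha1) (Mathlib.Tactic.Linarith.sub_neg_of_lt ha1), mul_nonneg_of_nonpos_of_nonpos (le_of_lt (Mathlib.Tactic.Linarith.sub_neg_of_lt ha1)) (Mathlib.Tactic.Linarith.sub_nonpos_of_le k3), mul_nonneg_of_nonpos_of_nonpos (le_of_lt (Mathlib.Tactic.Linarith.sub_neg_of_lt ha1)) (Mathlib.Tactic.Linarith.sub_nonpos_of_le k4)]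
  refine ⟨2 * C1 + 1, C, a1, 1 / (2 * C + 1), by linarith only [hC1], hC', ha1, by positivity, ?_⟩
  intro r β' a' β a η η' h hA hη1 hη2 hη3 q
  have hr0 := h.r0.le
  have hr1 := h.r_le hK k6
  have hβ := h.b0
  have ha : 0 < a := by linarith only [hβ, h, h.ba]
  have ha2 : a ≤ 1 / 2 := h.aa.trans k3
  have hβ1 : β ≤ 1 := by linarith only [ha2, h, h.ba]
  have hη' : 0 ≤ η' := le_trans (by positivity) hA
  have hη : 0 ≤ η := le_trans (by positivity) hη2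
  have e1 := Tr_lin hr0 hr1 (cprop_bdd_h0 h.b0'.le a') (cprop_bdd_gc h.b0'.le) 1 η' q
  have e2 := Tr_lin hr0 hr1 (cprop_bdd_h0 h.b0'.le a') (cprop_bdd_gc h.b0'.le) 1 (-η') q
  simp only [one_mul, neg_mul, ← sub_eq_add_neg] at e1 e2
  rw [e1, e2]
  rcases q with _ | q
  · simp [Tr, h0, phi_spec.zero, gc_basic.2.1]
  obtain ⟨t1, t2⟩ := abs_le.1 (H1 r β' a' β a (cprop_mono h k1) q)
  have t3 := mul_le_mul_of_nonneg_left (H2 r β' a' β a (cprop_mono h k2) q) hη'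
  obtain ⟨p0, p1⟩ := H0 β a hβ h.ba (q + 1)
  push_cast at p0 p1 ⊢
  obtain ⟨g0, g1, -⟩ := gc_basic.2.2 (β * (q + 1)) (by positivity)
  set L := -(kap0 * β ^ 2) + β ^ 3 / 6 - a * β ^ 2 / 2 with hL
  set E := exp (-(β * (q + 1)))
  set g := gc (β * (q + 1))
  set φ := phi (β * (q + 1))
  set w := h0 β a (q + 1)
  have hb2 : 0 < β ^ 2 := by positivity
  have hb1 : β ^ 2 ≤ 1 := pow_le_one₀ hβ.le hβ1
  have hL0 : L ≤ 0 := by
    clear * - β a K a1 r β' a' h hβ hκ ha L hL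
    have := h.ba
    have : β * β ^ 2 ≤ 2 * a * β ^ 2 := by gcongr
    have : 0 ≤ kap0 * β ^ 2 := by positivity
    have : 0 ≤ a * β ^ 2 := by positivity
    linarith
  have hL1 : -((kap0 + 1) * β ^ 2) ≤ L := by
    clear * - β hβ a ha2 L hL hb2
    have : 0 ≤ β ^ 3 := by positivity
    have : a * β ^ 2 ≤ 1 / 2 * β ^ 2 := by gcongr
    linarith
  have hCη : C * η ≤ 1 := by
    clear * - C η η' hη3 C2 hC2 hη1 hη'
    rw [le_div_iff₀ (by positivity)] at hη1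
    have : C * η ≤ C * (2 * η') := by gcongr
    linarith only [hη1, hη', this]
  have hδ0 : 0 ≤ C * η * β ^ 2 := by positivity
  have hδ1 : C * η * β ^ 2 ≤ β ^ 2 := mul_le_of_le_one_left hb2.le hCη
  have hδ2 : C * η * β ^ 2 ≤ 2 * C * η' * β ^ 2 := by
    clear * - C η β η' hη3 C2 hC2 hβ
    have : C * η * β ^ 2 ≤ C * (2 * η') * β ^ 2 := by gcongr
    linarith only [this]
  have hη4 : η' ≤ η * exp (β ^ 2) := by
    rwa [exp_neg, ← div_eq_mul_inv, div_le_iff₀ (exp_pos _)] at hη2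
  have s1 : ∀ δ, -(β ^ 2) ≤ δ → η' * (exp (-((kap0 + 3) * β ^ 2)) * g) ≤ exp (L + δ) * (η * g) := by
    clear * - β η' g η L hη4 g0 a hL1 hη
    intro δ hδ
    calc η' * (exp (-((kap0 + 3) * β ^ 2)) * g)
        ≤ η * exp (β ^ 2) * (exp (-((kap0 + 3) * β ^ 2)) * g) := by gcongr
      _ = exp (β ^ 2 + -((kap0 + 3) * β ^ 2)) * (η * g) := by rw [exp_add]; ring
      _ ≤ _ := by gcongr exp ?_ * _; linarith only [hL1, hδ]
  have s2 : ∀ u, C * η * β ^ 2 / 2 ≤ u → u ≤ 2 * (C * η * β ^ 2) →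
      C2 * η' * β ^ 2 * φ + C1 * a ^ 2 * β ^ 2 * E - η' * β ^ 2 * E ≤ exp L * u * w := by
    clear * - C η β C2 hC2 hη hβ E q η' L hκ hb1 a hL1 hη' hC hη2 hL0 hδ2 φ w C0 g p1 g1 hC0 ha a1
      K r β' a' h k5 C1 hA p0
    intro u hu1 hu2
    have hu : 0 ≤ u := le_trans (by positivity) hu1
    have hE : 0 ≤ E := (exp_pos _).le
    have v1 : C2 * η' * β ^ 2 ≤ exp L * u := by
      have : kap0 * β ^ 2 ≤ kap0 := mul_le_of_le_one_right hκ.le hb1
      have : (1 : ℝ) ≤ exp (L + (kap0 + 2) + -(β ^ 2)) := one_le_exp (by linarith only [hb1, hL1, this])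
      calc C2 * η' * β ^ 2 ≤ exp (L + (kap0 + 2) + -(β ^ 2)) * (C2 * η' * β ^ 2) :=
            le_mul_of_one_le_left (by positivity) this
        _ = exp L * (C * (η' * exp (-(β ^ 2))) * β ^ 2 / 2) := by rw [exp_add, exp_add, hC]; ring
        _ ≤ _ := by
            gcongr
            refine le_trans ?_ hu1
            gcongr
    have v2 : exp L * u ≤ 4 * C * η' * β ^ 2 :=
      (mul_le_of_le_one_left hu (exp_le_one_iff.2 hL0)).trans (by linarith only [hδ2, hu2])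
    have v3 : φ - w ≤ C0 * a * E := (le_abs_self _).trans (p1.trans (by gcongr))
    have v4 : exp L * u * (φ - w) ≤ 4 * C * η' * β ^ 2 * (C0 * a * E) :=
      (mul_le_mul_of_nonneg_left v3 (by positivity)).trans (by gcongr)
    have v5 : 8 * C * C0 * a ≤ 1 := by
      have := h.aa.trans k5
      rw [le_div_iff₀ (by positivity)] at this
      linarith only [ha, this]
    have v6 : 8 * C * C0 * a * (η' * β ^ 2 * E) ≤ η' * β ^ 2 * E :=
      mul_le_of_le_one_left (by positivity) v5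
    have v7 : 2 * C1 * a ^ 2 * (β ^ 2 * E) ≤ η' * (β ^ 2 * E) := by
      gcongr
      linarith only [hA, sq_nonneg a]
    have v8 := mul_le_mul_of_nonneg_right v1 p0
    linarith only [v4, v6, v7, v8]
  constructor
  · have a1 := s1 (C * η * β ^ 2) (by linarith only [hb2, hδ0])
    have a2 := s2 (exp (C * η * β ^ 2) - 1) (by linarith only [hδ0, add_one_le_exp (C * η * β ^ 2)])
      ((le_abs_self _).trans ((abs_exp_sub_one_le (by rw [abs_of_nonneg hδ0]; linarith only [hb1, hδ1])).trans_eq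
        (by rw [abs_of_nonneg hδ0])))
    rw [exp_add] at a1 ⊢
    linarith only [a1, a2, t2, t3]
  · have a1 := s1 (-(C * η * β ^ 2)) (by linarith only [hδ1])
    have a2 := s2 (1 - exp (-(C * η * β ^ 2))) (by
      have := cprop_exp_neg hδ0 (hδ1.trans hb1)
      linarith only [this]) (by linarith only [hδ0, add_one_le_exp (-(C * η * β ^ 2))])
    rw [sub_eq_add_neg L]
    rw [exp_add] at a1 ⊢
    linarith only [a1, a2, t1, t3]

theorem cprop_Tr_mul {r : ℝ} {f : ℕ → ℝ} (h0 : 0 ≤ r) (h1 : r ≤ 1) (hf : Bdd f) (c : ℝ) (q : ℕ) :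
    Tr r (fun k => c * f k) q = c * Tr r f q := by
  simpa using Tr_lin h0 h1 hf hf c 0 q

theorem cprop_Tr_abs {r c : ℝ} {f g : ℕ → ℝ} (h0 : 0 ≤ r) (h1 : r ≤ 1) (hg : Bdd g)
    (h : ∀ q, |f q| ≤ c * g q) (q : ℕ) : |Tr r f q| ≤ c * Tr r g q := by
  have hf : Bdd f := cprop_bdd_le (cprop_bdd_mul hg c) h
  have h2 := Tr_mono h0 h1 hf (cprop_bdd_mul hg c) (fun q => (le_abs_self _).trans (h q)) q
  have h3 := Tr_mono h0 h1 (cprop_bdd_mul hg (-c)) hf
    (fun q => by linarith [(abs_le.1 (h q)).1]) q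
  rw [cprop_Tr_mul h0 h1 hg] at h2 h3
  exact abs_le.2 ⟨by linarith, h2⟩

theorem cprop_aa {K a0 r β' a' β a : ℝ} (h : St3 K a0 r β' a' β a) (hK : 0 ≤ K)
    (h1 : a0 ≤ 1 / 2) (h2 : K * a0 ≤ 1 / 4) :
    a ^ 2 ≤ 2 * a' ^ 2 ∧ a' ^ 2 * exp (-(β ^ 2)) ≤ a ^ 2 := by
  have hβ := h.b0
  have ha : 0 < a := by linarith only [hβ, h, h.ba]
  have hβ1 : β ≤ 1 := by linarith only [h1, h, h.ba, h.aa]
  have hb : β ^ 2 ≤ 1 := by linarith only [hβ1, hβ, mul_nonneg_of_nonpos_of_nonpos (le_of_lt (Mathlib.Tactic.Linarith.sub_neg_of_lt hβ)) (Mathlib.Tactic.Linarith.sub_nonpos_of_le hβ1)]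
  have h3 : K * a ≤ 1 / 4 := (mul_le_mul_of_nonneg_left h.aa hK).trans h2
  have h4 : K * a * (a * β ^ 2) ≤ 1 / 4 * (a * β ^ 2) := by gcongr
  have h5 : a * β ^ 2 ≤ a := mul_le_of_le_one_right ha.le hb
  obtain ⟨h6, h7⟩ := abs_le.1 h.la
  have h8 : 3 / 4 * a ≤ a' := by clear * - a a' K β h4 h5 h6; linarith only [h4, h5, h6]
  refine ⟨by clear * - a a' β K hb ha h4 h6 h5; linarith only [hb, ha, h4, h6, h5, sq_nonneg a', mul_nonneg_of_nonpos_of_nonpos (Mathlib.Tactic.Linarith.sub_nonpos_of_le (sq_nonneg a)) (Mathlib.Tactic.Linarith.sub_nonpos_of_le hb), mul_nonneg_of_nonpos_of_nonpos (le_of_lt (Mathlib.Tactic.Linarith.sub_neg_of_lt ha)) (Mathlib.Tactic.Linarith.sub_nonpos_of_le h4), mul_nonneg_of_nonpos_of_nonpos (le_of_lt (Mathlib.Tactic.Linarith.sub_neg_of_lt ha)) (Mathlib.Tactic.Linarith.sub_nonpos_of_le h6), mul_nonneg_of_nonpos_of_nonpos (Mathlib.Tactic.Linarith.sub_nonpos_of_le h4) (Mathlib.Tactic.Linarith.sub_nonpos_of_le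 h4), mul_nonneg_of_nonpos_of_nonpos (Mathlib.Tactic.Linarith.sub_nonpos_of_le h4) (Mathlib.Tactic.Linarith.sub_nonpos_of_le h5), mul_nonneg_of_nonpos_of_nonpos (Mathlib.Tactic.Linarith.sub_nonpos_of_le h4) (Mathlib.Tactic.Linarith.sub_nonpos_of_le h6), mul_nonneg_of_nonpos_of_nonpos (Mathlib.Tactic.Linarith.sub_nonpos_of_le h5) (Mathlib.Tactic.Linarith.sub_nonpos_of_le h5), mul_nonneg_of_nonpos_of_nonpos (Mathlib.Tactic.Linarith.sub_nonpos_of_le h5) (Mathlib.Tactic.Linarith.sub_nonpos_of_le h6), mul_nonneg_of_nonpos_of_nonpos (Mathlib.Tactic.Linarith.sub_nonpos_of_le h6) (Mathlib.Tactic.Linarith.sub_nonpos_of_le h6)], ?_⟩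
  have h9 : a' ≤ a * exp (β ^ 2 / 2) := by
    clear * - a β ha hβ a' K h4 h6 h7
    have := mul_le_mul_of_nonneg_left (add_one_le_exp (β ^ 2 / 2)) ha.le
    have : 0 ≤ a * β ^ 2 := by positivity
    nlinarith
  have h10 : a' ^ 2 ≤ (a * exp (β ^ 2 / 2)) ^ 2 := by clear * - a' a β K ha h4 h5 h6 h9; gcongr; linarith only [ha, h4, h5, h6]
  rw [mul_pow, ← exp_nat_mul] at h10
  rw [exp_neg, ← div_eq_mul_inv, div_le_iff₀ (exp_pos _)]
  refine h10.trans_eq ?_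
  congr 2
  push_cast
  ring

theorem prop_both {K : ℝ} (hK : 0 ≤ K) : ∃ C a0 η0 : ℝ, 1 ≤ C ∧ 0 < a0 ∧ K * a0 ^ 2 ≤ 1 ∧
    a0 ≤ 1 / 2 ∧ 0 < η0 ∧ η0 ≤ 1 ∧ ∀ (r β a : ℕ → ℝ) (n0 n1 : ℕ) (f : ℕ → ℝ) (M η : ℝ),
    Adm3 K a0 r β a n0 n1 → 0 ≤ M → 0 ≤ η → η ≤ η0 →
    ((∀ q : ℕ, |f q| ≤ M * (phi (β n0 * q) + η * gc (β n0 * q))) → ∀ q : ℕ,
      |Sol r n0 f (n1 - n0) q| ≤ M * exp (lgL β a n0 n1 + C * (η + a n0 + sE β a n0 n1)) *
        (phi (β n1 * q) + C * ((η + a n0) * exp (-sS β n0 n1) + a n1) * gc (β n1 * q))) ∧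
    (Bdd f → (∀ q, 0 ≤ f q) → (∀ q : ℕ, M * (phi (β n0 * q) - η * gc (β n0 * q)) ≤ f q) →
      ∀ q : ℕ, M * exp (lgL β a n0 n1 - C * (η + a n0 + sE β a n0 n1)) *
        (phi (β n1 * q) - C * ((η + a n0) * exp (-sS β n0 n1) + a n1) * gc (β n1 * q)) ≤
          Sol r n0 f (n1 - n0) q) := by
  obtain ⟨A, C3, a1, η1, hA, hC3, ha1, hη1, H⟩ := step3 hK
  obtain ⟨C0, hC0, H0⟩ := cprop_h0
  obtain ⟨a0, ha0, k1, k3, k4, k5⟩ : ∃ a0 : ℝ, 0 < a0 ∧ a0 ≤ a1 ∧ a0 ≤ 1 / 2 ∧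
      a0 ≤ 1 / (4 * K + 1) ∧ a0 ≤ η1 / (2 * (C0 + 2 * A)) :=
    ⟨min a1 (min (1 / 2) (min (1 / (4 * K + 1)) (η1 / (2 * (C0 + 2 * A))))), by positivity,
      by clear * - a1 K η1 C0 A; simp, by clear * - a1 K η1 C0 A; simp, by clear * - a1 K η1 C0 A; simp, by clear * - a1 K η1 C0 A; simp⟩
  rw [le_div_iff₀ (by positivity)] at k4 k5
  have k6 : K * a0 ≤ 1 / 4 := by linarith only [ha0, k4]
  have k7 : K * a0 ^ 2 ≤ 1 := by clear * - K a0 k3 ha0 k4; linarith only [k3, ha0, k4, mul_pos_of_neg_of_neg (Mathlib.Tactic.Linarith.sub_neg_of_lt ha0) (Mathlib.Tactic.Linarith.sub_neg_of_lt ha0), mul_nonneg_of_nonpos_of_nonpos (le_of_lt (Mathlib.Tactic.Linarith.sub_neg_of_lt ha0)) (Mathlib.Tactic.Linarith.sub_nonpos_of_le k3), mul_nonneg_of_nonpos_of_nonpos (le_of_lt (Mathlib.Tactic.Linarith.sub_neg_of_lt ha0)) (Mathlib.Tactic.Linarith.sub_nonpos_of_le k4)]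
  set C := (C3 + 1) * (1 + C0 + 2 * A) with hC
  have c1 : 1 + C0 + 2 * A ≤ C := le_mul_of_one_le_left (by positivity) (by linarith only [hC3])
  refine ⟨C, a0, min 1 (η1 / 2), by linarith only [hA, hC0, ha0, k3, c1], ha0, k7, k3, by positivity, min_le_left _ _, ?_⟩
  intro r β a n0 n1 f M η h hM hη hη0
  replace hη0 : η ≤ η1 / 2 := hη0.trans (min_le_right _ _)
  have hpos : ∀ n, n0 ≤ n → n ≤ n1 → 0 < a n := fun n h1 h2 => by
    obtain ⟨b1, b2, -⟩ := h.pt n h1 h2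
    linarith only [b1, b2]
  have han0 := hpos n0 le_rfl h.le
  have han1 := hpos n1 h.le le_rfl
  set θ := η + C0 * a n0 with hθ
  have hθ0 : 0 ≤ θ := by positivity
  set e : ℕ → ℝ := fun n => θ * exp (-sS β n0 n) + 2 * A * a n ^ 2 with he
  set S : ℕ → ℝ := fun n => ∑ m ∈ Ioc n0 n, e m * β m ^ 2 with hS
  have hs0 : ∀ n, 0 ≤ sS β n0 n := fun n => sum_nonneg fun m _ => sq_nonneg _
  have hss : ∀ n, n0 ≤ n → sS β n0 (n + 1) = sS β n0 n + β (n + 1) ^ 2 := fun n hn =>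
    sum_Ioc_succ_top hn _
  have hstep : ∀ n, n0 ≤ n → n < n1 → ∀ q : ℕ,
      Tr (r n) (fun k => h0 (β n) (a n) k + e n * gc (β n * k)) q ≤
        exp (-(kap0 * β (n + 1) ^ 2) + β (n + 1) ^ 3 / 6 - a (n + 1) * β (n + 1) ^ 2 / 2 +
          C3 * e (n + 1) * β (n + 1) ^ 2) *
          (h0 (β (n + 1)) (a (n + 1)) q + e (n + 1) * gc (β (n + 1) * q)) ∧
      exp (-(kap0 * β (n + 1) ^ 2) + β (n + 1) ^ 3 / 6 - a (n + 1) * β (n + 1) ^ 2 / 2 -
          C3 * e (n + 1) * β (n + 1) ^ 2) *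
          (h0 (β (n + 1)) (a (n + 1)) q - e (n + 1) * gc (β (n + 1) * q)) ≤
        Tr (r n) (fun k => h0 (β n) (a n) k - e n * gc (β n * k)) q := by
    clear * - n0 n1 a β r e C3 K a0 h hK k3 k6 θ η C0 hη hC0 han0 A hA H a1 k1 he hθ0 hs0 hpos ha0
      η1 k5 hη0 hss
    intro n h1 h2
    obtain ⟨b1, b2⟩ := cprop_aa (h.st n h1 h2) hK k3 k6
    have b3 : 0 ≤ θ * exp (-sS β n0 n) := by positivity
    have b4 : A * a (n + 1) ^ 2 ≤ A * (2 * a n ^ 2) := by gcongr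
    refine H _ _ _ _ _ _ _ (cprop_mono (h.st n h1 h2) k1) ?_ ?_ ?_ ?_
    · simp only [he]
      linarith only [b3, b4]
    · have b5 : θ * exp (-sS β n0 n) ≤ θ :=
        mul_le_of_le_one_right hθ0 (exp_le_one_iff.2 (by linarith only [hs0, hs0 n]))
      have b6 := (h.pt n h1 h2.le).2.2
      have b7 := hpos n h1 h2.le
      have b8 : a n ^ 2 ≤ a0 := by (refine le_of_not_gt fun h_nl => ?_; linarith only [h_nl, k3, ha0, b6, b7, mul_nonneg_of_nonpos_of_nonpos (Mathlib.Tactic.Linarith.sub_nonpos_of_le (sq_nonneg (a n))) (Mathlib.Tactic.Linarith.sub_nonpos_of_le k3), mul_pos_of_neg_of_neg (Mathlib.Tactic.Linarith.sub_neg_of_lt ha0) (Mathlib.Tactic.Linarith.sub_neg_of_lt ha0), mul_nonneg_of_nonpos_of_nonpos (le_of_lt (Mathlib.Tactic.Linarith.sub_neg_of_lt ha0)) (Mathlib.Tactic.Linarith.sub_nonpos_of_le b6), mul_pos_of_neg_of_neg (Mathlib.Tactic.Linarith.sub_neg_of_lt ha0) (Mathlib.Tactic.Linarith.sub_neg_of_lt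 h_nl), mul_nonneg_of_nonpos_of_nonpos (Mathlib.Tactic.Linarith.sub_nonpos_of_le b6) (le_of_lt (Mathlib.Tactic.Linarith.sub_neg_of_lt b7))])
      have b9 : A * a n ^ 2 ≤ A * a0 := by gcongr
      have b10 : C0 * a n0 ≤ C0 * a0 := by gcongr; exact (h.pt n0 le_rfl h.le).2.2
      simp only [he]
      linarith only [k5, hη0, b5, b9, b10]
    · have b5 : A * (a n ^ 2 * exp (-(β (n + 1) ^ 2))) ≤ A * a (n + 1) ^ 2 := by gcongr
      simp only [he]
      rw [hss n h1, neg_add, exp_add]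
      linarith only [b5]
    · have b5 : θ * exp (-sS β n0 (n + 1)) ≤ θ * exp (-sS β n0 n) := by
        rw [hss n h1]
        gcongr
        linarith only [sq_nonneg (β (n + 1))]
      simp only [he]
      linarith only [b3, b4, b5]
  have hr : ∀ n, n0 ≤ n → n < n1 → 0 ≤ r n ∧ r n ≤ 1 := fun n h1 h2 =>
    ⟨(h.st n h1 h2).r0.le, (h.st n h1 h2).r_le hK k7⟩
  have hr' : ∀ n, n ≤ n1 → ∀ j < n - n0, 0 ≤ r (n0 + j) ∧ r (n0 + j) ≤ 1 := fun n hn j hj =>
    hr _ (by omega) (by omega)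
  have hsol : ∀ n, n0 ≤ n → Sol r n0 f (n + 1 - n0) = Tr (r n) (Sol r n0 f (n - n0)) := by
    intro n hn
    rw [Nat.sub_add_comm hn, Sol, Nat.add_sub_cancel' hn]
  have hexp : ∀ (s : ℝ) n, n0 ≤ n → exp (lgL β a n0 (n + 1) + s * S (n + 1)) =
      exp (lgL β a n0 n + s * S n) * exp (-(kap0 * β (n + 1) ^ 2) + β (n + 1) ^ 3 / 6 -
        a (n + 1) * β (n + 1) ^ 2 / 2 + s * e (n + 1) * β (n + 1) ^ 2) := by
    intro s n hn
    rw [← exp_add]
    simp only [lgL, hS, sum_Ioc_succ_top hn]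
    congr 1
    ring
  have hbdd : ∀ (t : ℝ) n, n0 ≤ n → n < n1 →
      Bdd fun k => h0 (β n) (a n) k + t * gc (β n * k) := fun t n h1 h2 =>
    cprop_bdd_add (cprop_bdd_h0 (h.pt n h1 h2.le).1.le _)
      (cprop_bdd_mul (cprop_bdd_gc (h.pt n h1 h2.le).1.le) t)
  have he0 : θ ≤ e n0 := by
    have : 0 ≤ A * a n0 ^ 2 := by positivity
    simp only [he, sS, Ioc_self, sum_empty, neg_zero, exp_zero]
    linarith only [this]
  have hbase : ∀ q : ℕ, |phi (β n0 * q) - h0 (β n0) (a n0) q| ≤ (e n0 - η) * gc (β n0 * q) := by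
    clear * - β n0 a a0 e η K r n1 h C0 H0 θ A he0
    intro q
    obtain ⟨b1, b2, -⟩ := h.pt n0 le_rfl h.le
    refine (H0 _ _ b1 b2 q).2.trans (mul_le_mul_of_nonneg_right (by linarith) ?_)
    exact (gc_basic.2.2 _ (by positivity)).1
  have hSle : ∀ n, n0 ≤ n → S n ≤ θ * (1 - exp (-sS β n0 n)) + 2 * A * sE β a n0 n := by
    clear * - n0 S θ β A a e hS hss hθ0 he η C0
    intro n hn
    induction n, hn using Nat.le_induction with
    | base => simp [hS, sS, sE]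
    | succ n hn ih =>
      have b1 : exp (-sS β n0 (n + 1)) * (β (n + 1) ^ 2 + 1) ≤ exp (-sS β n0 n) := by
        refine (mul_le_mul_of_nonneg_left (add_one_le_exp _) (exp_pos _).le).trans_eq ?_
        rw [← exp_add, hss n hn]
        congr 1
        ring
      have b2 := mul_le_mul_of_nonneg_left b1 hθ0
      simp only [hS, sE, sum_Ioc_succ_top hn] at ih ⊢
      simp only [he] at ih ⊢
      linarith only [b2, ih]
  have hE0 : 0 ≤ sE β a n0 n1 := sum_nonneg fun m _ => by positivity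
  have hθC : θ ≤ (1 + C0 + 2 * A) * (η + a n0) := by
    have : 0 ≤ (C0 + 2 * A) * η := by positivity
    have : 0 ≤ (1 + 2 * A) * a n0 := by positivity
    linarith
  have hfin1 : C3 * S n1 ≤ C * (η + a n0 + sE β a n0 n1) := by
    clear * - θ β n0 n1 η C0 a hη hC0 han0 hE0 S A hθC hSle K a0 r h C3 C hC3 ha0 k3 hA hC
    have b1 : 0 ≤ θ * exp (-sS β n0 n1) := by positivity
    have b2 : 0 ≤ (1 + C0) * sE β a n0 n1 := by positivity
    have b3 : S n1 ≤ (1 + C0 + 2 * A) * (η + a n0 + sE β a n0 n1) := by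
      linarith only [hθC, b1, b2, hSle, h, hSle n1 h.le]
    calc C3 * S n1 ≤ C3 * ((1 + C0 + 2 * A) * (η + a n0 + sE β a n0 n1)) := by gcongr
      _ ≤ (C3 + 1) * ((1 + C0 + 2 * A) * (η + a n0 + sE β a n0 n1)) := by gcongr; linarith only [ha0, k3]
      _ = _ := by rw [hC]; ring
  obtain ⟨b1, b2, b3⟩ := h.pt n1 h.le le_rfl
  have hfin2 : C0 * a n1 + e n1 ≤ C * ((η + a n0) * exp (-sS β n0 n1) + a n1) := by
    clear * - θ β n0 n1 C η a C0 A hθC c1 hη han0 a0 k3 ha0 han1 b3 hA e he C3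
    have b4 : θ * exp (-sS β n0 n1) ≤ C * (η + a n0) * exp (-sS β n0 n1) := by
      gcongr
      exact hθC.trans (by gcongr)
    have b5 : A * a n1 ^ 2 ≤ A * a n1 := by gcongr; (refine le_of_not_gt fun h_nl => ?_; linarith only [h_nl, k3, ha0, han1, b3, mul_nonneg_of_nonpos_of_nonpos (Mathlib.Tactic.Linarith.sub_nonpos_of_le (sq_nonneg (a n1))) (Mathlib.Tactic.Linarith.sub_nonpos_of_le k3), mul_pos_of_neg_of_neg (Mathlib.Tactic.Linarith.sub_neg_of_lt ha0) (Mathlib.Tactic.Linarith.sub_neg_of_lt han1), mul_pos_of_neg_of_neg (Mathlib.Tactic.Linarith.sub_neg_of_lt ha0) (Mathlib.Tactic.Linarith.sub_neg_of_lt h_nl), mul_nonneg_of_nonpos_of_nonpos (le_of_lt (Mathlib.Tactic.Linarith.sub_neg_of_lt han1)) (Mathlib.Tactic.Linarith.sub_nonpos_of_le b3)])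
    have b6 : (1 + C0 + 2 * A) * a n1 ≤ C * a n1 := by gcongr
    simp only [he]
    linarith only [han1, b4, b5, b6]
  have hfin3 : ∀ q : ℕ, 0 ≤ phi (β n1 * q) ∧ 0 ≤ gc (β n1 * q) ∧
      |phi (β n1 * q) - h0 (β n1) (a n1) q| ≤
        (C * ((η + a n0) * exp (-sS β n0 n1) + a n1) - e n1) * gc (β n1 * q) := fun q => by
    clear * - β n1 q b1 a C η n0 e C0 H0 b2 C3 A θ hfin2
    have g0 := (gc_basic.2.2 (β n1 * q) (by positivity)).1
    exact ⟨(H0 _ _ b1 b2 q).1, g0,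
      (H0 _ _ b1 b2 q).2.trans (mul_le_mul_of_nonneg_right (by linarith only [hfin2]) g0)⟩
  refine ⟨fun hf => ?_, fun hB hf0 hf => ?_⟩
  · have key : ∀ n, n0 ≤ n → n ≤ n1 → ∀ q : ℕ, |Sol r n0 f (n - n0) q| ≤
        M * exp (lgL β a n0 n + C3 * S n) * (h0 (β n) (a n) q + e n * gc (β n * q)) := by
      clear * - n0 n1 r f M β a C3 S e hS η hf C0 A θ hbase hM hsol hexp hr hbdd hstep
      intro n hn
      induction n, hn using Nat.le_induction with
      | base =>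
        intro _ q
        simp only [Nat.sub_self, Sol, lgL, hS, Ioc_self, sum_empty, mul_zero, add_zero, exp_zero,
          mul_one]
        refine (hf q).trans (mul_le_mul_of_nonneg_left ?_ hM)
        linarith only [hbase, (abs_le.1 (hbase q)).2]
      | succ n hn ih =>
        intro h2 q
        rw [hsol n hn, hexp C3 n hn, ← mul_assoc, mul_assoc _ (exp _) (_ + _)]
        refine (cprop_Tr_abs (hr n hn h2).1 (hr n hn h2).2 (hbdd _ n hn h2)
          (ih (by omega)) q).trans ?_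
        exact mul_le_mul_of_nonneg_left (hstep n hn h2 q).1 (by positivity)
    intro q
    obtain ⟨p0, g0, p1⟩ := hfin3 q
    refine (key n1 h.le le_rfl q).trans ?_
    have b4 : h0 (β n1) (a n1) q + e n1 * gc (β n1 * q) ≤ phi (β n1 * q) +
        C * ((η + a n0) * exp (-sS β n0 n1) + a n1) * gc (β n1 * q) := by
      linarith only [p1, (abs_le.1 p1).1]
    have : 0 ≤ C := by linarith only [hA, hC0, ha0, k3, c1]
    refine (mul_le_mul_of_nonneg_left b4 (by positivity)).trans ?_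
    gcongr
  · obtain ⟨B, hB'⟩ := id hB
    have key : ∀ n, n0 ≤ n → n ≤ n1 → ∀ q : ℕ,
        M * exp (lgL β a n0 n + -C3 * S n) * (h0 (β n) (a n) q + -e n * gc (β n * q)) ≤
          Sol r n0 f (n - n0) q := by
      clear * - n0 n1 M β a C3 S e r f hS η C0 A θ hbase hM hf hsol hexp hr hbdd hstep B hr' hB'
      intro n hn
      induction n, hn using Nat.le_induction with
      | base =>
        intro _ q
        simp only [Nat.sub_self, Sol, lgL, hS, Ioc_self, sum_empty, mul_zero, add_zero, exp_zero,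
          mul_one]
        refine (mul_le_mul_of_nonneg_left ?_ hM).trans (hf q)
        linarith only [hbase, (abs_le.1 (hbase q)).1]
      | succ n hn ih =>
        intro h2 q
        rw [hsol n hn, hexp (-C3) n hn, ← mul_assoc, mul_assoc _ (exp _) (_ + _)]
        refine le_trans ?_ (Tr_mono (hr n hn h2).1 (hr n hn h2).2
          (cprop_bdd_mul (hbdd _ n hn h2) _) ⟨B, Sol_bdd (hr' n (by omega)) hB'⟩ (ih (by omega)) q)
        rw [cprop_Tr_mul (hr n hn h2).1 (hr n hn h2).2 (hbdd _ n hn h2)]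
        refine mul_le_mul_of_nonneg_left ?_ (by positivity)
        simpa only [neg_mul, ← sub_eq_add_neg] using (hstep n hn h2 q).2
    intro q
    obtain ⟨p0, g0, p1⟩ := hfin3 q
    rcases le_total 0 (phi (β n1 * q) -
      C * ((η + a n0) * exp (-sS β n0 n1) + a n1) * gc (β n1 * q)) with b4 | b4
    · refine le_trans ?_ (key n1 h.le le_rfl q)
      gcongr
      · linarith only [hfin1]
      · linarith only [p1, (abs_le.1 p1).2]
    · refine (mul_nonpos_of_nonneg_of_nonpos (by positivity) b4).trans ?_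
      refine (abs_nonneg _).trans (Sol_mono (r := r) (r' := r) (fun j hj => ?_) hB hB
        (fun q => (abs_of_nonneg (hf0 q)).le) q)
      exact ⟨(hr' n1 le_rfl j hj).1, le_rfl, (hr' n1 le_rfl j hj).2⟩

theorem lgL_eq {K a0 : ℝ} {r β a : ℕ → ℝ} {n0 n1 : ℕ} (hK : 0 ≤ K) (ha : a0 ≤ 1 / 2)
    (h : Adm3 K a0 r β a n0 n1) :
    |lgL β a n0 n1 - (-(kap0 * sS β n0 n1) - log (∏ n ∈ Ico n0 n1, r n) / 6 -
      log (β n0 / β n1) / 2)| ≤ K * sE β a n0 n1 := by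
  have key : ∀ n, n0 ≤ n → n ≤ n1 → |lgL β a n0 n - (-(kap0 * sS β n0 n) -
      log (∏ n ∈ Ico n0 n, r n) / 6 - log (β n0 / β n) / 2)| ≤ K * sE β a n0 n := by
    intro n hn
    induction n, hn using Nat.le_induction with
    | base =>
      intro _
      simp [lgL, sS, sE, (h.pt n0 le_rfl h.le).1.ne']
    | succ n hn ih =>
      intro h2
      have s := h.st n hn h2
      have h3 : ∏ m ∈ Ico n0 n, r m ≠ 0 := prod_ne_zero_iff.2 fun m hm =>
        (h.st m (mem_Ico.1 hm).1 (by have := (mem_Ico.1 hm).2; omega)).r0.ne'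
      have h4 := (h.pt n0 le_rfl h.le).1.ne'
      have h5 := s.b0.ne'
      have h6 := s.b0'.ne'
      have h7 : log (β n0 / β (n + 1)) = log (β n0 / β n) + log (β n / β (n + 1)) := by
        rw [log_div h4 h5, log_div h4 h6, log_div h6 h5]
        ring
      have h8 : K * a (n + 1) ^ 2 * β (n + 1) ^ 3 ≤ K * a (n + 1) ^ 2 * β (n + 1) ^ 2 := by
        clear * - β n K a0 r a s ha hK
        have := s.b0
        have : β (n + 1) ≤ 1 := by linarith only [ha, s, s.ba, s.aa]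
        gcongr K * a (n + 1) ^ 2 * ?_
        linarith only [this, mul_nonneg_of_nonpos_of_nonpos (Mathlib.Tactic.Linarith.sub_nonpos_of_le (sq_nonneg (β (n + (1 : ℕ))))) (Mathlib.Tactic.Linarith.sub_nonpos_of_le this)]
      have h9 : 0 ≤ K * a (n + 1) ^ 2 * β (n + 1) ^ 2 := by positivity
      obtain ⟨i1, i2⟩ := abs_le.1 (ih (by omega))
      obtain ⟨i3, i4⟩ := abs_le.1 s.lb
      obtain ⟨i5, i6⟩ := abs_le.1 s.lr
      rw [prod_Ico_succ_top hn, log_mul h3 s.r0.ne', h7]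
      simp only [lgL, sS, sE, sum_Ioc_succ_top hn] at i1 i2 ⊢
      exact abs_le.2 ⟨by clear * - K n0 n a β r h8 h9 i1 i3 i5; linarith only [h8, h9, i1, i3, i5], by clear * - n0 n β a r K h8 h9 i2 i4 i6; linarith only [h8, h9, i2, i4, i6]⟩
  exact key n1 h.le le_rfl

theorem Adm3.sub {K a0 : ℝ} {r β a : ℕ → ℝ} {n0 n1 m0 m1 : ℕ} (h : Adm3 K a0 r β a n0 n1)
    (h0 : n0 ≤ m0) (h1 : m0 ≤ m1) (h2 : m1 ≤ n1) : Adm3 K a0 r β a m0 m1 := by
  exact ⟨h1, fun n a b => h.pt n (by omega) (by omega), fun n a b => h.st n (by omega) (by omega)⟩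

theorem Adm3.mono {K a0 a1 : ℝ} {r β a : ℕ → ℝ} {n0 n1 : ℕ} (h : Adm3 K a0 r β a n0 n1)
    (h0 : a0 ≤ a1) : Adm3 K a1 r β a n0 n1 := by
  exact ⟨h.le, fun n a b => ⟨(h.pt n a b).1, (h.pt n a b).2.1, (h.pt n a b).2.2.trans h0⟩,
    fun n a b => cprop_mono (h.st n a b) h0⟩

theorem lgL_add (β a : ℕ → ℝ) {n0 n1 n2 : ℕ} (h0 : n0 ≤ n1) (h1 : n1 ≤ n2) :
    lgL β a n0 n2 = lgL β a n0 n1 + lgL β a n1 n2 := by
  exact (sum_Ioc_consecutive _ h0 h1).symm

end Pool.Agent.Work.MP_5391ad_co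
end

-- merged part: Pool.Agent.Work.MP_5391ad_co.CRate
section
/-! Admissibility of the rates of the tree function. `t = L⁻¹`, `σ = 1 - τ`,
`D x = t (1 + τ)/σ^2 = (log eh)' x`, so `ap3 * bet^2 = D/3` at `x = B - n`. `|(log D)'| ≤ 3 D`
(`τ' = t τ/σ`), so `D (x+2) ≤ D x e^{6 D (x+2)}`, and `D (x+2) ≤ 1/10` on the range: `D ≤ 2 eh/τ`,
`eh x ≤ 1/(xc - x)`, `t/σ^2 ≤ 4t` for `τ ≤ 1/2` (see `aup_eh_le`, `aup_half`, `eh_ratio`).
`adm3_rs`: with `x = B - n - 1`: `log (bet n / bet (n+1)) = (1/3) ∫_x^{x+1} D`; `|(log ap3)'| ≤ 2 D`;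
`eh x ≤ -log (rs n) ≤ eh (x+2)` by `incr_ratio` at `x + 1`; `bet^2 ≤ bet ≤ 2 ap3`.
`rate_small`: `ap3 ≤ (2/3) bet/τ`, `(bet/τ)^3 = t/(τ^2 σ^2)`; for `τ ≤ 1/2`,
`ap3^2 bet^2 ≤ 7 t^(4/3) τ^(-2/3)` and `τ (x + i) ≥ τ x e^{t i}` (geometric sum); for `τ ≥ 1/2`,
`ap3^2 bet^2 ≤ 4 (xc - x)^(-4/3) ≤ 4 n^(-4/3)`.
`sigma_sharp`: `t (xc - x) = -σ - log (1 - σ) ≤ σ^2/(2 (1 - σ))`. -/

namespace Pool.Agent.Work.MP_5391ad_co

open Real Finset Filter

theorem sigma_sharp {t x : ℝ} (ht : 0 < t) (hx : x < xc t) :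
    2 * (t * (xc t - x)) * tau t x ≤ (1 - tau t x) ^ 2 := by
  obtain ⟨h1, h2, h3⟩ := tau_spec ht hx
  have hD : t * (xc t - x) = -1 - (log (tau t x) - tau t x) := by
    rw [mul_sub, alam_xc ht, h3]
    ring
  rw [hD]
  generalize tau t x = τ at h1 h2
  have h4 := sinh_le_self_iff.2 (log_nonpos h1.le h2.le)
  rw [sinh_log h1] at h4
  have h5 := mul_le_mul_of_nonneg_right h4 h1.le
  rw [div_mul_eq_mul_div, sub_mul, inv_mul_cancel₀ h1.ne'] at h5
  clear * - τ h5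
  linarith only [h5]

theorem tau_growth {t x y : ℝ} (ht : 0 < t) (hxy : x ≤ y) (hy : y ≤ xc t) :
    tau t x * exp (t * (y - x)) ≤ tau t y ∧
      tau t y = tau t x * exp (t * (y - x) + (tau t y - tau t x)) := by
  obtain ⟨a1, -, a3⟩ := alam_spec ht (hxy.trans hy)
  obtain ⟨b1, -, b3⟩ := alam_spec ht hy
  have m : tau t x ≤ tau t y := (tau_strictMonoOn ht).monotoneOn (hxy.trans hy) hy hxy
  have e : tau t y = tau t x * exp (t * (y - x) + (tau t y - tau t x)) := by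
    rw [show t * (y - x) + (tau t y - tau t x) = log (tau t y) - log (tau t x) by linarith only [a3, b3],
      exp_sub, exp_log a1, exp_log b1, mul_div_cancel₀ _ a1.ne']
  exact ⟨le_trans (mul_le_mul_of_nonneg_left (exp_le_exp.2 (by linarith)) a1.le) e.ge, e⟩

theorem crate_pos {t : ℝ} {B : ℕ} (ht : 0 < t) (h : (B : ℝ) < xc t) (n : ℕ) : 0 < rate t 0 B n :=
  ht.trans_le (rate_pos ht (by rwa [zero_add]) n)

theorem crate_rs {t : ℝ} {B n : ℕ} (h0 : 1 ≤ n) (h1 : n < B) :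
    rs t B n = rate t 0 B n / rate t 0 B (n - 1) := by
  rw [rs, rsA, if_neg (by omega), if_pos h1]

theorem rs_mem {t : ℝ} {B : ℕ} (ht : 0 < t) (hB : 1 ≤ B) (h : (B : ℝ) < xc t) (n : ℕ) :
    0 < rs t B n ∧ rs t B n ≤ 1 := by
  have hp := crate_pos ht h
  rw [rs, rsA]
  split_ifs with h1 h2
  · exact ⟨one_pos, le_rfl⟩
  · exact ⟨div_pos (hp _) (hp _), (div_le_one (hp _)).2
      (rate_anti ht (by rwa [zero_add]) (Nat.sub_le n 1))⟩
  · have hB' : (1 : ℝ) ≤ B := by exact_mod_cast hB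
    obtain ⟨a1, a2, a3⟩ := tau_spec ht (show 0 < xc t by linarith only [h, hB'])
    have e : Lam t 0 = tau t 0 := by simp [Lam]
    refine ⟨div_pos (e ▸ a1) (hp _), (div_le_one (hp _)).2 ?_⟩
    have b := (incr_bounds ht (show 1 < xc t by linarith only [h, hB'])).1
    rw [alow_rate_eq (Nat.sub_le B 1), Nat.cast_sub hB, Nat.cast_one, sub_sub_cancel]
    refine le_trans ?_ b
    rw [sub_self, e, le_div_iff₀ (by linarith only [a2])]
    have c : tau t 0 * exp (-tau t 0) = t := by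
      nth_rw 1 [← exp_log a1]
      rw [← exp_add, ← sub_eq_add_neg, a3, mul_zero, add_zero, exp_log ht]
    have d := mul_le_mul_of_nonneg_left (add_one_le_exp (-tau t 0)) a1.le
    linarith only [c, d]

theorem prod_rs {t : ℝ} {B n0 n1 : ℕ} (ht : 0 < t) (h : (B : ℝ) < xc t) (h0 : 1 ≤ n0)
    (h1 : n0 ≤ n1) (h2 : n1 ≤ B) :
    ∏ n ∈ Ico n0 n1, rs t B n = rate t 0 B (n1 - 1) / rate t 0 B (n0 - 1) := by
  have hp := crate_pos ht h
  induction n1, h1 using Nat.le_induction with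
  | base => rw [Ico_self, prod_empty, div_self (hp _).ne']
  | succ m hm ih =>
    rw [prod_Ico_succ_top hm, ih (by omega), crate_rs (by omega) (by omega), Nat.add_sub_cancel,
      mul_comm, div_mul_div_cancel₀ (hp _).ne']

/-- the adiabatic parameter at a real point -/
noncomputable def crate_a (t x : ℝ) : ℝ := (1 + tau t x) * alowB t x / (3 * tau t x)

theorem crate_ab {t x : ℝ} (ht : 0 < t) (hx : x < xc t) :
    alowB t x ≤ 2 * crate_a t x ∧ crate_a t x ≤ alowB t x / tau t x := by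
  obtain ⟨a1, a2, -⟩ := tau_spec ht hx
  have b := alow_B_pos ht hx
  rw [crate_a, ← mul_div_assoc, le_div_iff₀ (by positivity),
    div_le_div_iff₀ (by positivity) a1]
  constructor <;> (refine le_of_not_gt fun h_nl => ?_; linarith only [h_nl, b, a1, a2, mul_pos a1 b, mul_pos (mul_pos a1 b) (sub_pos.2 a2), mul_pos_of_neg_of_neg (Mathlib.Tactic.Linarith.sub_neg_of_lt a1) (Mathlib.Tactic.Linarith.sub_neg_of_lt h_nl)])

theorem crate_pt {t x m w : ℝ} (ht : 0 < t) (hx : x < xc t) (hm : 0 < m) (hw : 0 < w)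
    (h1 : 1 ≤ m ^ 3 * (xc t - x)) (h2 : t ≤ w ^ 3 * tau t x ^ 2) :
    crate_a t x ≤ 2 * (m + w) ∧ crate_a t x ^ 2 * alowB t x ^ 2 ≤ 4 * m ^ 4 + 8 * (t * w) := by
  obtain ⟨a1, a2, -⟩ := tau_spec ht hx
  have b := alow_B_pos ht hx
  have b3 := alow_B_cube ht hx
  obtain ⟨c1, c2⟩ := crate_ab ht hx
  have c0 : 0 ≤ crate_a t x := by linarith only [b, c1]
  have c3 := mul_le_mul_of_nonneg_right (pow_le_pow_left₀ c0 c2 2) (sq_nonneg (alowB t x))
  rcases le_total (tau t x) (1 / 2) with h | h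
  · have d1 : alowB t x ^ 3 / tau t x ≤ 4 * t := by
      rw [b3, aup_eh_div ht hx]
      exact aup_half ht h
    have d2 : alowB t x / tau t x ≤ 2 * w := by
      clear * - t x w hw a1 b ht h2 d1
      refine le_of_pow_le_pow_left₀ (n := 3) (by norm_num) (by positivity) ?_
      have e : (alowB t x / tau t x) ^ 3 = alowB t x ^ 3 / tau t x / tau t x ^ 2 := by
        field_simp
      rw [e, div_le_iff₀ (by positivity)]
      linarith only [ht, h2, d1, mul_pos (pow_pos hw 3) (pow_pos a1 2)]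
    have d3 : (alowB t x / tau t x) ^ 2 * alowB t x ^ 2 =
        alowB t x / tau t x * (alowB t x ^ 3 / tau t x) := by
      field_simp
    have d4 := mul_le_mul d2 d1 (by positivity) (by positivity)
    exact ⟨by linarith only [hm, c2, d2], by linarith only [c3, d3, d4, hm, pow_pos hm 4]⟩
  · have d1 : alowB t x ≤ m := by
      refine le_of_pow_le_pow_left₀ (n := 3) (by norm_num) hm.le ?_
      rw [b3]
      refine (aup_eh_le ht hx).trans ?_
      rwa [div_le_iff₀ (by linarith only [hx])]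
    have d2 : alowB t x / tau t x ≤ 2 * m := by
      clear * - t x m a1 d1 hm h
      rw [div_le_iff₀ a1]
      linarith only [d1, hm, h, mul_nonneg_of_nonpos_of_nonpos (le_of_lt (Mathlib.Tactic.Linarith.sub_neg_of_lt hm)) (Mathlib.Tactic.Linarith.sub_nonpos_of_le h)]
    have d3 := mul_le_mul (pow_le_pow_left₀ (by positivity) d2 2) (pow_le_pow_left₀ b.le d1 2)
      (by positivity) (by positivity)
    exact ⟨by linarith only [hw, c2, d2], by clear * - t x m w c3 d3 ht hw; linarith only [c3, d3, ht, hw, mul_pos ht hw]⟩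

theorem crate_tel {f F : ℕ → ℝ} {n0 n1 : ℕ} (h : n0 ≤ n1)
    (hf : ∀ n, n0 ≤ n → n < n1 → f (n + 1) ≤ F (n + 1) - F n) :
    ∑ n ∈ Ioc n0 n1, f n ≤ F n1 - F n0 := by
  induction n1, h using Nat.le_induction with
  | base => simp
  | succ m hm ih =>
    rw [sum_Ioc_succ_top hm]
    have a := ih fun n h1 h2 => hf n h1 (by omega)
    have b := hf m hm (by omega)
    linarith only [a, b]

theorem crate_cube {x : ℝ} (hx : 0 < x) :
    0 < x ^ (-(1 / 3) : ℝ) ∧ (x ^ (-(1 / 3) : ℝ)) ^ 3 * x = 1 := by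
  refine ⟨rpow_pos_of_pos hx _, ?_⟩
  rw [← rpow_natCast, ← rpow_mul hx.le, ← rpow_add_one hx.ne']
  norm_num

theorem crate_q {x : ℝ} (hx : 0 < x) : ((x + 1) ^ (-(1 / 3) : ℝ)) ^ 4 ≤
    3 * (x ^ (-(1 / 3) : ℝ) - (x + 1) ^ (-(1 / 3) : ℝ)) := by
  obtain ⟨p0, p1⟩ := crate_cube hx
  obtain ⟨q0, q1⟩ := crate_cube (show 0 < x + 1 by linarith only [hx])
  have h : (x + 1) ^ (-(1 / 3) : ℝ) ≤ x ^ (-(1 / 3) : ℝ) :=
    rpow_le_rpow_of_nonpos hx (by linarith only []) (by norm_num)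
  generalize x ^ (-(1 / 3) : ℝ) = p at *
  generalize (x + 1) ^ (-(1 / 3) : ℝ) = q at *
  have e : p ^ 3 - q ^ 3 = p ^ 3 * q ^ 3 := by linear_combination q ^ 3 * p1 - p ^ 3 * q1
  refine le_of_mul_le_mul_left ?_ (pow_pos p0 2)
  have a : p ^ 2 * q ^ 4 ≤ p ^ 3 * q ^ 3 := by
    have := mul_le_mul_of_nonneg_left h (show 0 ≤ p ^ 2 * q ^ 3 by positivity)
    linarith only [this]
  have b : 0 ≤ (p - q) ^ 2 * (2 * p + q) := by positivity
  linarith only [e, a, b]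

theorem rate_small : ∃ C : ℝ, 0 ≤ C ∧ ∀ (L c : ℝ) (B n0 n1 : ℕ), 1 ≤ L → 1 ≤ c →
    (B : ℝ) < xc L⁻¹ → 1 ≤ n0 → n0 ≤ n1 → c / √L ≤ tau L⁻¹ ((B : ℝ) - n1) →
    sE (bet L⁻¹ B) (ap3 L⁻¹ B) n0 n1 ≤ C * ((n0 : ℝ) ^ (-(1 / 3) : ℝ) + c ^ (-(2 / 3) : ℝ)) ∧
      ∀ n, n0 ≤ n → n ≤ n1 →
        ap3 L⁻¹ B n ≤ C * ((n0 : ℝ) ^ (-(1 / 3) : ℝ) + c ^ (-(2 / 3) : ℝ)) := by
  refine ⟨24, by norm_num, fun L c B n0 n1 hL hc hB h0 h1 hτ => ?_⟩
  have hL0 : 0 < L := by linarith only [hL]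
  have ht : 0 < L⁻¹ := inv_pos.2 hL0
  have ht1 : L⁻¹ ≤ 1 := inv_le_one_of_one_le₀ hL
  have hw : 0 < c ^ (-(2 / 3) : ℝ) := rpow_pos_of_pos (by linarith only [hc]) _
  have hw3 : (c ^ (-(2 / 3) : ℝ)) ^ 3 * c ^ 2 = 1 := by
    rw [← rpow_natCast, ← rpow_mul (by linarith only [hc]), ← rpow_natCast c 2, ← rpow_add (by linarith only [hc])]
    norm_num
  have hs : (c / √L) ^ 2 = c ^ 2 * L⁻¹ := by rw [div_pow, sq_sqrt hL0.le, div_eq_mul_inv]
  have hs0 : 0 ≤ c / √L := by positivity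
  generalize c ^ (-(2 / 3) : ℝ) = w at *
  generalize L⁻¹ = t at *
  have key : ∀ n : ℕ, n0 ≤ n → n ≤ n1 →
      ap3 t B n ≤ 2 * ((n : ℝ) ^ (-(1 / 3) : ℝ) + w * exp (-(2 / 3 * t * (n1 - n)))) ∧
      ap3 t B n ^ 2 * bet t B n ^ 2 ≤ 4 * ((n : ℝ) ^ (-(1 / 3) : ℝ)) ^ 4 +
        8 * (t * (w * exp (-(2 / 3 * t * (n1 - n))))) := by
    intro n a1 a2
    have n0' : (1 : ℝ) ≤ n := by exact_mod_cast h0.trans a1
    have a2' : (n : ℝ) ≤ n1 := by exact_mod_cast a2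
    obtain ⟨q0, q1⟩ := crate_cube (show (0 : ℝ) < n by linarith only [n0'])
    refine crate_pt ht (show (B : ℝ) - n < xc t by linarith only [hB, n0']) q0 (by positivity) ?_ ?_
    · exact q1.ge.trans (mul_le_mul_of_nonneg_left (by linarith only [hB]) (by positivity))
    · have g := (tau_growth ht (show (B : ℝ) - n1 ≤ B - n by linarith only [a2']) (by linarith only [hB, n0'])).1
      have g1 := pow_le_pow_left₀ (by positivity)
        ((mul_le_mul_of_nonneg_right hτ (exp_pos _).le).trans g) 2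
      refine le_trans (le_of_eq ?_) (mul_le_mul_of_nonneg_left g1 (by positivity))
      have e : exp (-(2 / 3 * t * (n1 - n))) ^ 3 * exp (t * (B - n - (B - n1))) ^ 2 = 1 := by
        rw [← exp_nat_mul, ← exp_nat_mul, ← exp_add, ← exp_zero]
        congr 1
        push_cast
        ring
      rw [mul_pow, mul_pow, hs]
      linear_combination -(w ^ 3 * c ^ 2 * t) * e - t * hw3
  have n00 : (0 : ℝ) < n0 := by exact_mod_cast h0
  have u0 := (crate_cube n00).1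
  refine ⟨?_, fun n a1 a2 => (key n a1 a2).1.trans ?_⟩
  · refine (crate_tel (F := fun n => -12 * (n : ℝ) ^ (-(1 / 3) : ℝ) +
      24 * (w * exp (-(2 / 3 * t * (n1 - n))))) h1 fun n a1 a2 => ?_).trans ?_
    · refine (key (n + 1) (by omega) a2).2.trans ?_
      have b1 := crate_q (show (0 : ℝ) < n by exact_mod_cast h0.trans a1)
      have b2 : exp (-(2 / 3 * t * (n1 - n))) =
          exp (-(2 / 3 * t * (n1 - (n + 1)))) * exp (-(2 / 3 * t)) := by
        rw [← exp_add]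
        congr 1
        ring
      have b3 := mul_le_mul_of_nonneg_left
        (cprop_exp_neg (δ := 2 / 3 * t) (by positivity) (by clear * - t ht1; linarith only [ht1]))
        (mul_pos hw (exp_pos (-(2 / 3 * t * (n1 - (n + 1)))))).le
      push_cast
      rw [b2]
      clear * - n t w n1 b1 b3
      linarith only [b1, b3]
    · have b1 : 0 ≤ (n1 : ℝ) ^ (-(1 / 3) : ℝ) := by positivity
      have b2 := mul_pos hw (exp_pos (-(2 / 3 * t * (n1 - n0))))
      simp only [sub_self, mul_zero, neg_zero, exp_zero, mul_one]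
      clear * - n1 w n0 t u0 b1 b2
      linarith only [u0, b1, b2]
  · have a1' : (n0 : ℝ) ≤ n := by exact_mod_cast a1
    have a2' : (n : ℝ) ≤ n1 := by exact_mod_cast a2
    have b1 : (n : ℝ) ^ (-(1 / 3) : ℝ) ≤ (n0 : ℝ) ^ (-(1 / 3) : ℝ) :=
      rpow_le_rpow_of_nonpos n00 a1' (by norm_num)
    have b2 : w * exp (-(2 / 3 * t * (n1 - n))) ≤ w :=
      mul_le_of_le_one_right hw.le (exp_le_one_iff.2 (by
        have := mul_nonneg ht.le (sub_nonneg.2 a2')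
        linarith only [this]))
    clear * - n w t n1 n0 hw u0 b1 b2
    linarith only [hw, u0, b1, b2]

/-- the logarithmic derivative of `eh` -/
noncomputable def crate_D (t x : ℝ) : ℝ := t * (1 + tau t x) / (1 - tau t x) ^ 2

theorem crate_D_pos {t x : ℝ} (ht : 0 < t) (hx : x < xc t) : 0 < crate_D t x := by
  obtain ⟨a1, a2, -⟩ := tau_spec ht hx
  have := sub_pos.2 a2
  rw [crate_D]
  positivity

theorem crate_D_mono {t x y : ℝ} (ht : 0 < t) (hxy : x ≤ y) (hy : y < xc t) :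
    crate_D t x ≤ crate_D t y := by
  obtain ⟨a1, a2, -⟩ := tau_spec ht hy
  have := sub_pos.2 a2
  have m := alam_mono ht hxy hy
  rw [crate_D, crate_D]
  gcongr

theorem crate_D_eq {t x : ℝ} (ht : 0 < t) (hx : x < xc t) :
    crate_D t x = 3 * (crate_a t x * alowB t x ^ 2) := by
  obtain ⟨a1, a2, -⟩ := tau_spec ht hx
  have := sub_pos.2 a2
  have e : crate_a t x * alowB t x ^ 2 = (1 + tau t x) * alowB t x ^ 3 / (3 * tau t x) := by
    rw [crate_a]
    ring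
  rw [e, alow_B_cube ht hx, crate_D, eh]
  field_simp

theorem crate_D_step {t x : ℝ} (ht : 0 < t) (hx : x + 1 < xc t) :
    (crate_D t x)⁻¹ - 2 ≤ (crate_D t (x + 1))⁻¹ := by
  have := (alam_unit (a := x) (p := -2) (q := 0)
    (f := fun u => (1 - tau t u) ^ 2 / (t * (1 + tau t u)))
    (f' := fun u => -(tau t u * (3 + tau t u) / (1 + tau t u) ^ 2))
    (fun u _ h => by
      have hu : u < xc t := by linarith
      obtain ⟨a1, a2, -⟩ := tau_spec ht hu
      have a3 := sub_pos.2 a2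
      have d := hasDerivAt_tau ht hu
      refine (((d.const_sub 1).fun_pow 2).fun_div ((d.const_add 1).const_mul t)
        (by positivity)).congr_deriv ?_
      field_simp
      ring)
    fun u _ h => by
      obtain ⟨a1, a2, -⟩ := tau_spec ht (show u < xc t by linarith)
      refine ⟨neg_le_neg ((div_le_iff₀ (by positivity)).2 (by linarith only [a2, sq_nonneg ((1 : ℝ) + tau t u)])), neg_nonpos.2 ?_⟩
      positivity).1
  rw [crate_D, crate_D, inv_div, inv_div]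
  linarith only [this]

theorem crate_leh {t x : ℝ} (ht : 0 < t) (hx : x + 1 < xc t) :
    crate_D t x ≤ log (eh t (x + 1)) - log (eh t x) ∧
      log (eh t (x + 1)) - log (eh t x) ≤ crate_D t (x + 1) := by
  have h2 : ∀ v, v < xc t →
      log (eh t v) = log t + (log (tau t v) + 2 * -log (1 - tau t v)) := by
    intro v hv
    obtain ⟨c1, c2, -⟩ := tau_spec ht hv
    have c3 : 0 < 1 - tau t v := sub_pos.2 c2
    rw [eh, log_div (by positivity) (by positivity), log_mul ht.ne' c1.ne', log_pow]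
    push_cast
    ring
  have h1 := alam_unit (a := x) (p := crate_D t x) (q := crate_D t (x + 1))
    (f := fun u => log (tau t u) + 2 * -log (1 - tau t u)) (f' := crate_D t)
    (fun v _ h => by
      have hv : v < xc t := by linarith
      obtain ⟨c1, c2, -⟩ := tau_spec ht hv
      have c3 : 0 < 1 - tau t v := sub_pos.2 c2
      refine ((alam_log_tau ht hv).add ((alam_log_sigma ht hv).const_mul 2)).congr_deriv ?_
      rw [crate_D, eh]
      field_simp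
      ring)
    fun v h6 h7 => ⟨crate_D_mono ht h6 (by linarith only [hx, h7]), crate_D_mono ht h7 hx⟩
  rw [h2 _ hx, h2 x (by linarith)]
  constructor <;> linarith only [h1, h1.1, h1.2]

theorem crate_la {t x : ℝ} (ht : 0 < t) (hx : x + 1 < xc t) :
    |log (crate_a t (x + 1)) - log (crate_a t x)| ≤ crate_D t (x + 1) := by
  have hx0 : x < xc t := by linarith only [hx]
  have h2 : ∀ v, v < xc t → log (crate_a t v) =
      log (1 + tau t v) + log (eh t v) / 3 - (log 3 + log (tau t v)) := by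
    intro v hv
    obtain ⟨c1, c2, -⟩ := tau_spec ht hv
    have c3 := alow_B_pos ht hv
    rw [crate_a, log_div (by positivity) (by positivity), log_mul (by positivity) c3.ne',
      log_mul (by norm_num) c1.ne', alowB, log_rpow (aup_eh_pos ht hv)]
    ring
  obtain ⟨a1, a2, -⟩ := tau_spec ht hx0
  obtain ⟨b1, b2, -⟩ := tau_spec ht hx
  have b3 := sub_pos.2 b2
  have m := alam_mono ht (show x ≤ x + 1 by linarith) hx
  have l1 := log_le_log b1 (eh_ratio ht hx).2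
  rw [log_mul a1.ne' (exp_pos _).ne', log_exp] at l1
  have l2 : t / (1 - tau t (x + 1)) ≤ crate_D t (x + 1) := by
    clear * - t x b3 b2 ht b1
    rw [crate_D, div_le_div_iff₀ b3 (by positivity)]
    linarith only [ht, b3, b1, mul_pos (mul_pos ht b3) b1]
  have l3 : log (1 + tau t x) ≤ log (1 + tau t (x + 1)) := log_le_log (by linarith only [a1, a2]) (by linarith only [m])
  have l4 : log ((1 + tau t (x + 1)) * tau t x) ≤ log ((1 + tau t x) * tau t (x + 1)) :=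
    log_le_log (by positivity) (by linarith only [m])
  rw [log_mul (by linarith only [a1, a2, b1]) a1.ne', log_mul (by linarith only [a1, a2]) b1.ne'] at l4
  obtain ⟨l5, l6⟩ := crate_leh ht hx
  have l7 := crate_D_pos ht hx0
  rw [h2 _ hx, h2 _ hx0, abs_le]
  constructor <;> linarith only [l1, l2, l3, l5, l7, l4, l6]

theorem crate_inv {d d' k : ℝ} (h0 : 0 < d) (h1 : 0 < d') (hk : 0 ≤ k) (h2 : k * d ≤ 1 / 2)
    (h : d⁻¹ - k ≤ d'⁻¹) : d' ≤ 2 * d ∧ d' ≤ d + 2 * k * d ^ 2 := by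
  have a := mul_le_mul_of_nonneg_left h (mul_pos h0 h1).le
  have e1 : d * d' * (d⁻¹ - k) = d' - k * d * d' := by field_simp
  have e2 : d * d' * d'⁻¹ = d := by field_simp
  rw [e1, e2] at a
  have b : d' ≤ 2 * d := by clear * - d' d k a h1 h2; linarith only [a, h1, h2, mul_nonneg_of_nonpos_of_nonpos (le_of_lt (Mathlib.Tactic.Linarith.sub_neg_of_lt h1)) (Mathlib.Tactic.Linarith.sub_nonpos_of_le h2)]
  exact ⟨b, by clear * - d' d k a b hk h0; linarith only [a, b, hk, h0, mul_le_mul_of_nonneg_left b (mul_nonneg hk h0.le)]⟩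

theorem crate_st {t x r a0 : ℝ} (ht : 0 < t) (hx : x + 1 + 1 < xc t) (ha : crate_a t x ≤ a0)
    (ha' : crate_a t x ≤ 1 / 10)
    (hr : r = (Lam t (x + 1) - Lam t (x + 1 - 1)) / (Lam t (x + 1 + 1) - Lam t (x + 1)))
    (hr0 : 0 < Lam t (x + 1) - Lam t (x + 1 - 1)) :
    St3 48 a0 r (alowB t (x + 1)) (crate_a t (x + 1)) (alowB t x) (crate_a t x) := by
  have hx1 : x + 1 < xc t := by linarith only [hx]
  have hx0 : x < xc t := by linarith only [hx]
  have b0 := alow_B_pos ht hx0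
  have b1 := alow_B_pos ht hx1
  have ab := (crate_ab ht hx0).1
  have ab1 := (crate_ab ht hx1).1
  have d0 := crate_D_pos ht hx0
  have d1 := crate_D_pos ht hx1
  have d2 := crate_D_pos ht hx
  have e := crate_D_eq ht hx0
  have s1 := crate_D_step ht hx1
  have s2 := crate_D_step ht hx
  obtain ⟨l1, l2⟩ := crate_leh ht hx1
  obtain ⟨l3, l4⟩ := crate_leh ht hx
  have l5 := crate_la ht hx1
  obtain ⟨i1, i2⟩ := incr_ratio ht hx
  have c1 : log (alowB t (x + 1) / alowB t x) = (log (eh t (x + 1)) - log (eh t x)) / 3 := by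
    rw [log_div b1.ne' b0.ne', alowB, alowB, log_rpow (aup_eh_pos ht hx1),
      log_rpow (aup_eh_pos ht hx0)]
    ring
  have p0 := aup_eh_pos ht hx0
  have p2 := aup_eh_pos ht hx
  have b3 := alow_B_cube ht hx0
  rw [add_sub_cancel_right] at i1 i2 hr hr0
  generalize crate_a t (x + 1) = a' at *
  generalize crate_a t x = a at *
  generalize alowB t (x + 1) = β' at *
  generalize alowB t x = β at *
  have a1 : 0 < a := by linarith only [b0, ab]
  have a2 : 0 < a' := by linarith only [b1, ab1]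
  have β1 : β ^ 2 ≤ 1 / 25 :=
    (pow_le_pow_left₀ b0.le (by linarith only [ha', ab] : β ≤ 1 / 5) 2).trans (by norm_num)
  have β2 : β ^ 2 ≤ 2 * a := by
    linarith only [ab, ha', a1, b0, mul_le_mul_of_nonneg_left (by linarith : β ≤ 1) b0.le]
  have ds : crate_D t x ≤ 1 / 8 := by
    clear * - t x a β ha' e a1 β1
    linarith only [ha', e, a1, β1, mul_le_mul ha' β1 (sq_nonneg _) (by norm_num)]
  obtain ⟨k1, k2⟩ := crate_inv (k := 2) d0 d1 (by norm_num) (by linarith only [ha', a1, ds]) s1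
  obtain ⟨k3, -⟩ := crate_inv (k := 4) d0 d2 (by norm_num) (by linarith only [ds]) (by linarith only [s1, s2])
  have q0 : 0 < a ^ 2 * β ^ 2 := by positivity
  have r2 : 0 < Lam t (x + 1 + 1) - Lam t (x + 1) := lt_of_lt_of_le (by positivity) i1
  refine ⟨b0, ab, ha, b1, ?_, ?_, hr ▸ div_pos hr0 r2, ?_⟩
  · have : crate_D t x ^ 2 ≤ 9 * (a ^ 2 * β ^ 2) := by
      rw [e]
      linarith only [q0, β1, mul_le_mul_of_nonneg_left β1 q0.le]
    rw [c1, abs_le]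
    constructor <;> linarith only [l1, e, q0, l2, k2, this]
  · have h1 := abs_exp_sub_one_le (l5.trans (by linarith only [ha', a1, ds, k1] : crate_D t (x + 1) ≤ 1))
    rw [exp_sub, exp_log a1, exp_log a2, div_sub_one a1.ne', abs_div, abs_of_pos a1,
      div_le_iff₀ a1] at h1
    have h2 := mul_le_mul_of_nonneg_right (l5.trans k1) a1.le
    rw [e] at h2
    linarith only [q0, h1, h2]
  · have h1 := log_le_log (by positivity) i1
    have h2 := log_le_log r2 i2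
    rw [log_mul (exp_pos _).ne' hr0.ne', log_exp] at h1 h2
    have h3 := abs_exp_sub_one_le (x := log (eh t (x + 1 + 1)) - log (eh t x))
      (abs_le.2 ⟨by linarith only [d0, d1, l1, l3, ha', a1], by linarith only [l2, l4, ha', a1, ds, k1, k3]⟩)
    rw [exp_sub, exp_log p0, exp_log p2, div_sub_one p0.ne', abs_div, abs_of_pos p0,
      div_le_iff₀ p0, abs_of_nonneg (by linarith only [d0, d1, l1, l3] : 0 ≤ log (eh t (x + 1 + 1)) - log (eh t x))] at h3
    have h4 := (le_abs_self _).trans h3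
    have h5 : (log (eh t (x + 1 + 1)) - log (eh t x)) * eh t x ≤ 24 * a ^ 2 * eh t x :=
      mul_le_mul_of_nonneg_right
        (by linarith only [l2, l4, e, k1, k3, β2, a1, mul_le_mul_of_nonneg_left β2 a1.le]) p0.le
    have h6 : 0 < a ^ 2 * eh t x := by positivity
    rw [hr, log_div hr0.ne' r2.ne', b3, abs_le]
    constructor <;> linarith only [h2, h4, h5, h1, h6]

theorem adm3_rs : ∃ K : ℝ, 0 ≤ K ∧ ∀ a0 : ℝ, 0 < a0 → ∃ (s0 : ℕ) (c0 : ℝ), 2 ≤ s0 ∧ 1 ≤ c0 ∧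
    ∀ᶠ L : ℝ in atTop, ∀ B n0 n1 : ℕ, (B : ℝ) < xc L⁻¹ → s0 ≤ n0 → n0 ≤ n1 → n1 < B →
      c0 / √L ≤ tau L⁻¹ ((B : ℝ) - n1) →
      Adm3 K a0 (rs L⁻¹ B) (bet L⁻¹ B) (ap3 L⁻¹ B) n0 n1 := by
  obtain ⟨C, hC, h⟩ := rate_small
  refine ⟨48, by norm_num, fun a0 ha0 => ?_⟩
  have hε : 0 < min a0 (1 / 10) / 2 := by positivity
  have ev : ∀ y : ℝ, 0 < y → ∃ X : ℝ, ∀ x, X ≤ x → C * x ^ (-y) ≤ min a0 (1 / 10) / 2 := by
    intro y hy
    have := (tendsto_rpow_neg_atTop hy).const_mul C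
    rw [mul_zero] at this
    exact eventually_atTop.1 (this.eventually (ge_mem_nhds hε))
  obtain ⟨X1, h1⟩ := ev (1 / 3) (by norm_num)
  obtain ⟨X2, h2⟩ := ev (2 / 3) (by norm_num)
  refine ⟨max 2 ⌈X1⌉₊, max 1 X2, le_max_left _ _, le_max_left _ _, ?_⟩
  filter_upwards [eventually_ge_atTop 1] with L hL B n0 n1 hB s0 s1 s2 hτ
  obtain ⟨s3, s4⟩ := max_le_iff.1 s0
  have ht : 0 < L⁻¹ := inv_pos.2 (by linarith only [hL])
  have k := (h L _ B n0 n1 hL (le_max_left _ _) hB (by omega) s1 hτ).2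
  have k1 := h1 n0 (Nat.ceil_le.1 s4)
  have k2 := h2 _ (le_max_right 1 X2)
  have ka : ∀ n, n0 ≤ n → n ≤ n1 → ap3 L⁻¹ B n ≤ a0 ∧ ap3 L⁻¹ B n ≤ 1 / 10 := fun n a1 a2 =>
    le_min_iff.1 ((k n a1 a2).trans (by clear * - C n0 X2 a0 k1 k2 a1 a2 k n; linarith only [k1, k2]))
  refine ⟨s1, fun n a1 a2 => ?_, fun n a1 a2 => ?_⟩
  · have hx : (B : ℝ) - n < xc L⁻¹ := by clear * - B n L hB a1 a2 ht ka; linarith only [hB, Nat.cast_nonneg (α := ℝ) n]
    exact ⟨alow_B_pos ht hx, (crate_ab ht hx).1, (ka n a1 a2).1⟩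
  · have n1' : 1 ≤ n := by omega
    have n1'' : (1 : ℝ) ≤ n := by exact_mod_cast n1'
    have e : (B : ℝ) - n = B - (n + 1 : ℕ) + 1 := by
      push_cast
      ring
    have e1 := alow_rate_eq (t := L⁻¹) (show n ≤ B by omega)
    have e2 := alow_rate_eq (t := L⁻¹) (show n - 1 ≤ B by omega)
    rw [Nat.cast_sub n1', Nat.cast_one, show (B : ℝ) - (n - 1) = B - n + 1 by ring,
      add_sub_cancel_right] at e2
    have := crate_st (x := (B : ℝ) - (n + 1 : ℕ)) (r := rs L⁻¹ B n) ht (by clear * - B n L e hB n1'' a2 e1 e2 ht ka n1'; rw [← e]; linarith only [hB, n1''])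
      (ka (n + 1) (by omega) a2).1 (ka (n + 1) (by omega) a2).2
      (by rw [← e, crate_rs n1' (by omega), e1, e2]) (by rw [← e, ← e1]; exact crate_pos ht hB n)
    rwa [← e] at this

end Pool.Agent.Work.MP_5391ad_co
end
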