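import Pool.Agent.Work.MP_5391ad_co.MGr
import Pool.Agent.Work.MP_5391ad_co.CRate

-- merged part: Pool.Agent.Work.MP_5391ad_co.SNear
section
-- merged part: Pool.Agent.Work.MP_5391ad_co.SDef
section
/-! Definitions for stage B: central roots, weights, surgeries, exceptional cores. -/

namespace Pool.Agent.Work.MP_5391ad_co

open Finset
open scoped Classical

variable {α : Type*}

/-- the permutations which fix the complement of `V` -/
noncomputable def pV [Fintype α] (V : Finset α) : Finset (Equiv.Perm α) :=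
  univ.filter fun σ => ∀ a, a ∉ V → σ a = a

/-- the matrix of a rooted digraph on `V`, with root entry zero -/
def matV (V : Finset α) (D : α → α → Prop) (s a b : α) : Prop :=
  D a b ∨ (a = b ∧ a ∈ V ∧ a ≠ s)

/-- nearly decomposable matrix supported on `V × V` -/
def NDV (V : Finset α) (B : α → α → Prop) : Prop :=
  (∀ a b, B a b → a ∈ V ∧ b ∈ V) ∧ NDr fun a b : V => B a b

/-- rows with at least three ones -/
noncomputable def hub [Fintype α] (B : α → α → Prop) : Finset α :=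
  univ.filter fun a => 3 ≤ (univ.filter (B a)).card

/-- central rows: every tight pair containing the row misses at most `τ` hubs -/
noncomputable def rts [Fintype α] (V : Finset α) (B : α → α → Prop) (τ : ℕ) : Finset α :=
  V.filter fun r => ∀ S ⊆ V, ∀ Y ⊆ V, Tight B S Y → r ∈ S → (hub B \ S).card ≤ τ

/-- matchings of all rows but `r` with all columns but `c` -/
noncomputable def frames [Fintype α] (V : Finset α) (B : α → α → Prop) (r c : α) :
    Finset (Equiv.Perm α) :=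
  (pV V).filter fun π => π c = r ∧ ∀ j ∈ V, j ≠ c → B (π j) j

/-- the weight of a central root with a frame -/
noncomputable def wt [Fintype α] (V : Finset α) (B : α → α → Prop) (τ : ℕ) (r c : α) : ℝ :=
  (((rts V B τ).card : ℝ) * (rts V (rv B) τ).card * (frames V B r c).card)⁻¹

/-- good rooted digraph whose root is central -/
structure Cen [Fintype α] (V : Finset α) (D : α → α → Prop) (s : α) (τ : ℕ) : Prop where
  gr : GR V D s
  cyc : ∀ z, z ≠ s → CycA D {z} s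
  row : s ∈ rts V (matV V D s) τ
  col : s ∈ rts V (rv (matV V D s)) τ

/-- comparison of the weights before and after a surgery -/
structure Cmp [Fintype α] (D : α → α → Prop) (V' : Finset α) (D' : α → α → Prop) (s : α)
    (τ w x : ℕ) : Prop where
  cen : Cen V' D' s (τ + 3 * w)
  row : (rts V' (matV V' D' s) (τ + 3 * w)).card ≤
    (x + 1) * (rts univ (matV univ D s) (τ + 6 * w)).card
  col : (rts V' (rv (matV V' D' s)) (τ + 3 * w)).card ≤
    (x + 1) * (rts univ (rv (matV univ D s)) (τ + 6 * w)).card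
  fr : (frames V' (matV V' D' s) s s).card ≤ (frames univ (matV univ D s) s s).card

/-- descendants in `D - s` -/
noncomputable def desc [Fintype α] (D : α → α → Prop) (s r : α) : Finset α :=
  univ.filter (Av D {s} r)

/-- many walks of length two between large subsets -/
def Ear [Fintype α] (D : α → α → Prop) (R C : Finset α) (m : ℕ) : Prop :=
  ∀ S ⊆ R, ∀ W ⊆ C, m ≤ S.card → m ≤ W.card →
    R.card + C.card + 2 ≤ (univ.filter fun e => ∃ u ∈ S, ∃ y ∈ W, D u e ∧ D e y).card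

/-- a surgery which keeps the central roots, up to `x` exceptions -/
structure Stab [Fintype α] (D : α → α → Prop) (V' : Finset α) (D' : α → α → Prop) (s : α)
    (w x m : ℕ) : Prop where
  gr : GR univ D s
  gr' : GR V' D' s
  hr : (fB (rv D') \ fB (rv D)).card ≤ w
  hc : (fB D' \ fB D).card ≤ w
  av : ∀ a b, Av D' {s} a b → Av D {s} a b
  cyc : ∀ z z', z ≠ s → z' ≠ s → CycA D' {z, z'} s
  dmg : ∃ G : Finset α, (G ∩ fB (rv D)).card ≤ w ∧
    ∀ z ∈ V', ∀ y ∈ V', z ≠ s → dom D' s z y → dom D s z y ∨ y ∈ G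
  pdg : ∃ G : Finset α, (G ∩ fB D).card ≤ w ∧
    ∀ z ∈ V', ∀ y ∈ V', z ≠ s → pdom D' s z y → pdom D s z y ∨ y ∈ G
  npr : ∃ X : Finset α, X.card ≤ x ∧ ∀ r ∈ V', r ∉ X → ∀ z, z ≠ s → pdom D s z r →
    (∃ z', z' ≠ s ∧ pdom D' s z' r) ∨ Snk D' s r
  npc : ∃ X : Finset α, X.card ≤ x ∧ ∀ r ∈ V', r ∉ X → ∀ z, z ≠ s → dom D s z r →
    (∃ z', z' ≠ s ∧ dom D' s z' r) ∨ Src D' s r
  ear : ∃ R' C' : Finset α, (fB (rv D) \ R').card ≤ w ∧ (fB D \ C').card ≤ w ∧ Ear D' R' C' m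
  fr : (frames V' (matV V' D' s) s s).card ≤ (frames univ (matV univ D s) s s).card

/-- a link: the only arc out of `w` and the only arc into `w'` -/
def Lk (D : α → α → Prop) (s w w' : α) : Prop :=
  w ≠ s ∧ w' ≠ s ∧ (∀ y, D w y ↔ y = w') ∧ ∀ u, D u w' ↔ u = w

/-- the set of links -/
noncomputable def lks [Fintype α] (D : α → α → Prop) (s : α) : Finset (α × α) :=
  univ.filter fun p => Lk D s p.1 p.2

/-- `q` lies in a cyclic component which is neither of column nor of row type -/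
def GT (D : α → α → Prop) (s q : α) : Prop :=
  CycA D {s} q ∧ ¬ CCase D s q ∧ ¬ CCase (rv D) s q

/-- all fat links of such components are links -/
def NoIso (D : α → α → Prop) (s : α) : Prop := ∀ x x', FLink D s x x' → GT D s x → Lk D s x x'

/-- a link which can be cut -/
structure CutH (D : α → α → Prop) (s w w' : α) : Prop where
  lk : Lk D s w w'
  pd : ∀ z, z ≠ s → pdom D s z w → z = w' ∨ dom D s w' z
  dm : ∀ z, z ≠ s → dom D s z w' → z = w ∨ pdom D s w z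
  ex : ∀ p, IBr D s p s → ¬ pdom D s p w
  en : ∀ v, OBr D s s v → ¬ dom D s v w'

/-- cut the link `(w, w')` -/
def cutD (D : α → α → Prop) (s w w' u v : α) : Prop :=
  (u = w ∧ v = s) ∨ (u = s ∧ v = w') ∨ (D u v ∧ u ≠ w)

/-- delete the vertices of `P` -/
def delD (D : α → α → Prop) (P : Finset α) (u v : α) : Prop := D u v ∧ u ∉ P ∧ v ∉ P

/-- contract the fat link `(x, x')` -/
def conD [Fintype α] (D : α → α → Prop) (x x' u v : α) : Prop :=
  (u = x ∧ v = x') ∨ (D u v ∧ u ≠ x ∧ u ∉ linkX univ D x x')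

/-- incomparable links -/
structure Inc (D : α → α → Prop) (s x x' w w' : α) : Prop where
  ne : w ≠ x
  d1 : ¬ dom D s w' x'
  d2 : ¬ dom D s x' w'
  p1 : ¬ pdom D s w x
  p2 : ¬ pdom D s x w

/-- non-ancestors of `a` and the regions of the link tails among its ancestors -/
noncomputable def Yset [Fintype α] (D : α → α → Prop) (s a : α) : Finset α :=
  univ.filter fun y => ¬ Av D {s} y a ∨ y ∈ reg D s a ∨
    ∃ w w', Lk D s w w' ∧ Av D {s} w a ∧ y ∈ reg D s w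

/-- possible targets of an object attached at the sink `a` -/
noncomputable def Y1 [Fintype α] (D : α → α → Prop) (s a : α) : Finset α :=
  insert a (insert s (TC D s ∩ Yset D s a ∪ univ.filter fun y => y ≠ s ∧ dom D s y a))

/-- `D` arises from `D'` by replacing the only arc `(a, g)` out of `a` by the object `c` -/
def Obj (D D' : α → α → Prop) (a g : α) (c : OCode α) : Prop :=
  (∀ y, D' a y ↔ y = g) ∧ ∀ u w, D u w ↔ c.arc g u w ∨ (D' u w ∧ u ≠ a)

/-- removal of an object of column type -/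
def SurC [Fintype α] (vm cap S : ℕ) (s : α) (D : α → α → Prop) (V' : Finset α)
    (D' : α → α → Prop) : Prop :=
  ∑ a ∈ V'.erase s, (TT V' D' s a).card ≤ S ∧ ∃ a ∈ V'.erase s, ∃ g c, Obj D D' a g c ∧
    ValC a V'ᶜ (TT V' D' s a) c ∧ c.H.card ≤ vm ∧ (TT V' D' s a).card ≤ cap

/-- contraction of a fat link -/
def SurI [Fintype α] (vm l : ℕ) (s : α) (D : α → α → Prop) (V' : Finset α)
    (D' : α → α → Prop) : Prop :=
  (lks D' s).card ≤ l ∧ ∃ a g c, Lk D' s a g ∧ Obj D D' a g c ∧ Val0 a V'ᶜ {g} c ∧ c.H.card ≤ vm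

/-- removal of the region dominated by a link -/
def SurG [Fintype α] (vm cap l : ℕ) (s : α) (D : α → α → Prop) (V' : Finset α)
    (D' : α → α → Prop) : Prop :=
  (univ.filter fun u => D' u s).card ≤ l ∧ ∃ a c, Obj D D' a s c ∧
    ValC a V'ᶜ (Y1 D' s a) c ∧ c.H.card ≤ vm ∧ (Y1 D' s a).card ≤ cap

/-- removal of a small set between two links -/
def SurZ [Fintype α] (l u : ℕ) (s : α) (D : α → α → Prop) (V' : Finset α)
    (D' : α → α → Prop) : Prop :=
  (univ.filter fun a => D' a s).card ≤ l ∧ (univ.filter fun a => D' s a).card ≤ l ∧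
    V'ᶜ.card ≤ u ∧ ∃ (x x' w w' : α) (par tgt : α → Option α), D' x s ∧ D' w s ∧ D' s x' ∧
      D' s w' ∧ (V' ∩ reg (rv D') s x').card ≤ u ∧ (V' ∩ reg D' s w).card ≤ u ∧
      (∀ p a, par p = some a → p ∉ V' ∧ (a ∉ V' ∨ a ∈ reg (rv D') s x')) ∧
      (∀ p a, tgt p = some a → p ∉ V' ∧ (a ∉ V' ∨ a ∈ reg D' s w)) ∧
      ∀ a b, D a b ↔ par b = some a ∨ tgt a = some b ∨ (a = x ∧ b = x') ∨ (a = w ∧ b = w') ∨
        (D' a b ∧ a ≠ x ∧ a ≠ w ∧ b ≠ x' ∧ b ≠ w')

/-- the integer parameters -/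
structure Par where
  m : ℕ
  j : ℕ
  N : ℕ
  t : ℕ
  k : ℕ
  a1 : ℕ
  a2 : ℕ
  a3 : ℕ
  b2 : ℕ
  Kb : ℕ
  S0 : ℕ
  y1 : ℕ

/-- the six surgeries -/
def Sur [Fintype α] (p : Par) :
    Fin 6 → α → (α → α → Prop) → Finset α → (α → α → Prop) → Prop :=
  ![SurC (100 * p.m) (p.t + 40 * p.m) (p.S0 + 2 * Fintype.card α),
    fun s D V' D' => SurC (100 * p.m) (p.t + 40 * p.m) (p.S0 + 2 * Fintype.card α) s (rv D) V'
      (rv D'),
    SurI (100 * p.m) (21 * p.k + 1),
    SurG (100 * p.m) (p.y1 + 80 * p.m) (11 * p.k + 1),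
    fun s D V' D' => SurG (100 * p.m) (p.y1 + 80 * p.m) (11 * p.k + 1) s (rv D) V' (rv D'),
    SurZ (11 * p.k + 2) (2 * p.Kb)]

/-- the number of exceptional roots of each surgery -/
def surX (p : Par) : Fin 6 → ℕ := ![0, 0, 0, 0, 0, 4 * p.Kb]

/-- the gain of each surgery -/
noncomputable def surW (p : Par) (n : ℕ) (z : ℝ) : Fin 6 → ℝ :=
  ![cG z (100 * p.m) (p.t + 40 * p.m) * (p.S0 + 2 * n : ℕ),
    cG z (100 * p.m) (p.t + 40 * p.m) * (p.S0 + 2 * n : ℕ),
    (21 * p.k + 1 : ℕ) * (100 * cX z (100 * p.m) 0 ^ 3 * cR z (100 * p.m) 0),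
    (11 * p.k + 1 : ℕ) * (cG z (100 * p.m) (p.y1 + 80 * p.m) * (p.y1 + 80 * p.m : ℕ)),
    (11 * p.k + 1 : ℕ) * (cG z (100 * p.m) (p.y1 + 80 * p.m) * (p.y1 + 80 * p.m : ℕ)),
    (11 * p.k + 2 : ℕ) ^ 4 * ((4 * p.Kb + 1 : ℕ) ^ 2 * z)]

/-- the inequalities between the parameters -/
structure Par.Ok (p : Par) (n : ℕ) : Prop where
  k0 : 2 ≤ p.k
  km : 10 * p.k ≤ p.m
  Km : p.Kb ≤ p.m
  hn : p.k + 4 ≤ n
  a1 : (n : ℝ) ^ (9 / 10 : ℝ) + 10 * p.k ≤ p.a1
  a2 : 3 / 10 * lam n + 1 + 10 * p.k ≤ p.a2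
  a3 : 6 / 10 * lam n + 1 + 20 * p.k ≤ p.a3
  b2 : 97 / 100 * lam n + 1 + 10 * p.k ≤ p.b2
  Kb : (2 * p.k + 1) * (n : ℝ) ^ (1 / 10 : ℝ) + 100 * p.k ≤ p.Kb
  S0 : (n : ℝ) ^ (31 / 20 : ℝ) + 21 * p.k * n ≤ p.S0
  d1 : 21 * p.k * p.a1 + p.b2 ≤ p.y1
  d2 : p.a2 + p.t + 40 * p.m ≤ p.y1
  d3 : p.a3 + 1 ≤ p.y1

/-- arcs entering `Z` outside `Q` come from `Z` or from the root -/
def InCl (D : α → α → Prop) (s : α) (Z Q : Finset α) : Prop :=
  ∀ v ∈ Z, v ∉ Q → ∀ u, D u v → u = s ∨ u ∈ Z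

/-- two disjoint sets with few entries are not both large -/
def Held [Fintype α] (p : Par) (D : α → α → Prop) (s : α) : Prop :=
  ∀ Z J Q : Finset α, s ∉ Z → s ∉ J → Disjoint Z J → Q.card ≤ 25 * p.k → InCl D s Z Q →
    InCl D s J Q → (p.a1 ≤ (Z ∩ fB (rv D)).card → p.a2 ≤ (J ∩ fB (rv D)).card →
      (Z ∩ fB (rv D)).card + (J ∩ fB (rv D)).card < p.a3) ∧
      (p.b2 ≤ (J ∩ fB (rv D)).card → Z.card < p.Kb)

/-- consequences of a typical core -/
structure Fac [Fintype α] (p : Par) (D : α → α → Prop) (s : α) (R C : Finset α) : Prop where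
  tcR : (TC (rv D) s \ R).card ≤ 36 * p.m
  tcC : (TC D s \ C).card ≤ 36 * p.m
  lk : (lks D s).card ≤ 21 * p.k
  dI : (univ.filter fun u => D u s).card ≤ 11 * p.k
  dO : (univ.filter fun u => D s u).card ≤ 11 * p.k
  heldR : Held p D s
  heldC : Held p (rv D) s
  ttC : (∀ q, ¬ GT D s q) → ∑ a ∈ univ.erase s, (TT univ D s a).card ≤ p.S0
  ttR : (∀ q, ¬ GT D s q) → ∑ a ∈ univ.erase s, (TT univ (rv D) s a).card ≤ p.S0

/-- the digraph of a regular matrix at a central root -/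
structure Nice [Fintype α] (p : Par) (D : α → α → Prop) (s : α) (R C : Finset α) : Prop
    extends Fac p D s R C where
  ok : p.Ok (Fintype.card α)
  typ : TypD D s R C p.m p.j p.N p.t
  cyc : ∀ z z', z ≠ s → z' ≠ s → CycA D {z, z'} s
  hj : R.card + C.card + p.Kb + 12 ≤ p.j
  yR : p.y1 + 5 * p.m ≤ R.card
  yC : p.y1 + 5 * p.m ≤ C.card

/-- the result of a surgery -/
structure Res [Fintype α] (p : Par) (D : α → α → Prop) (s : α) (V' : Finset α)
    (D' : α → α → Prop) (x : ℕ) : Prop where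
  pos : 1 ≤ V'ᶜ.card
  le : V'ᶜ.card + p.N ≤ Fintype.card α + p.Kb + 10
  stab : Stab D V' D' s (100 * p.m) x p.m

/-- `D` agrees with a rooted acyclic digraph outside `X` -/
structure Near (D : α → α → Prop) (s : α) (W : Finset α) (Δ : α → α → Prop) (X : Finset α) :
    Prop where
  dag : IsDag W Δ
  sW : s ∉ W
  sX : s ∈ X
  mem : ∀ v, v ∉ X → v ∈ W
  agr : ∀ u v, u ∉ X ∨ v ∉ X → (D u v ↔ rootD s W Δ u v)

/-- two large disjoint sets with few entries in the core -/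
def HS (k : ℕ) (W : Finset α) (Δ : α → α → Prop) : Prop :=
  ∃ Z ⊆ W, ∃ J ⊆ W, ∃ Q : Finset α, Disjoint Z J ∧ Q.card ≤ 40 * k ∧
    (∀ v ∈ Z, v ∉ Q → ∀ u, Δ u v → u ∈ Z) ∧ (∀ v ∈ J, v ∉ Q → ∀ u, Δ u v → u ∈ J) ∧
    (((W.card : ℝ) ^ (9 / 10 : ℝ) ≤ (Z ∩ RN W Δ).card ∧
        3 / 10 * lam W.card + 1 ≤ (J ∩ RN W Δ).card ∧
        6 / 10 * lam W.card + 1 ≤ (Z ∩ RN W Δ).card + (J ∩ RN W Δ).card) ∨
      ((W.card : ℝ) ^ (1 / 10 : ℝ) ≤ (Z ∩ RN W Δ).card ∧
        97 / 100 * lam W.card + 1 ≤ (J ∩ RN W Δ).card))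

/-- exceptional core, row side -/
def ExcH (k : ℕ) (W : Finset α) (Δ : α → α → Prop) : Prop :=
  k ≤ nsrc W Δ ∨ k ≤ nlink W Δ ∨ (∃ u, k ≤ odeg W Δ u) ∨
    (W.card : ℝ) ^ (31 / 20 : ℝ) ≤ SR W Δ ∨ HS k W Δ

/-- exceptional core -/
def ExcC (k : ℕ) (W : Finset α) (Δ : α → α → Prop) : Prop := ExcH k W Δ ∨ ExcH k W (rv Δ)

/-- many deleted vertices or exceptional core -/
def Exc (n k : ℕ) (W : Finset α) (Δ : α → α → Prop) : Prop := W.card + 1 + k ≤ n ∨ ExcC k W Δ

/-- the number of rows which can serve as root -/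
noncomputable def a0 (W : Finset α) (Δ : α → α → Prop) : ℕ :=
  1 + ((rtree W Δ).filter (Br (rv Δ))).card

/-- the weighted number of cores -/
noncomputable def cWt [Fintype α] (W : Finset α) : ℝ :=
  ∑ Δ ∈ dags W, ((a0 W Δ : ℝ) * a0 W (rv Δ))⁻¹

/-- the same on `N` labelled vertices -/
noncomputable def cN (N : ℕ) : ℝ := cWt (univ : Finset (Fin N))

/-- an acyclic frame with root entry zero -/
def Tri [Fintype α] (A : α → α → Prop) (π : Equiv.Perm α) (s : α) (Δ : α → α → Prop) : Prop :=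
  IsDag (univ.erase s) Δ ∧ ∀ a b, A (π a) b ↔ matV univ (rootD s (univ.erase s) Δ) s a b

/-- matrices with such a frame -/
def Good0 [Fintype α] (A : α → α → Prop) : Prop := FIr A ∧ ∃ π s Δ, Tri A π s Δ

/-- typical cores for the lower bound, row side -/
def GoodH (k lo hi : ℕ) (W : Finset α) (Δ : α → α → Prop) : Prop :=
  nsrc W Δ < k ∧ nlink W Δ < k ∧ ¬ HS k W Δ ∧ lo ≤ (rtree W Δ).card ∧ (rtree W Δ).card ≤ hi

/-- typical cores for the lower bound -/
def GoodD (k lo hi : ℕ) (W : Finset α) (Δ : α → α → Prop) : Prop :=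
  GoodH k lo hi W Δ ∧ GoodH k lo hi W (rv Δ)

/-- the main term -/
noncomputable def TN (n : ℕ) : ℝ := 4 * Real.log n ^ 2 * (n - 1).factorial * numDag (n - 1)

end Pool.Agent.Work.MP_5391ad_co
end

-- merged part: Pool.Agent.Work.MP_5391ad_co.MLow
section
/-! The matrix of a good rooted digraph is nearly decomposable; the lower bound.
`GR.ndr_mat`. `fi`: let `(S, Y)` be closed, `S ≠ ∅`, `Y ≠ univ`. If `S ⊆ Y` an arc leaves `S` (`D` is
strongly connected by `fwd`, `bwd`). Otherwise `s ∈ S \ Y`, `S \ {s} ⊆ Y` and the diagonal entry of `s`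
is missing; if `|Y| ≤ |S|` then `Y \ S` has at most one element `z`, walks from `s` avoiding `z` stay
in `S ∩ Y` after the first step, so `¬ CycA D {z} s` and the entry would be present; if `Y ⊆ S` then
`S = univ` and `s` has an in-arc. `cr`: for an out-bridge `(u, v)` take `S = Y =` the set reachable
from `s` without the arc, for an in-bridge the set reachable from `u` without the arc (cut a walk
from `v` to `s` at the last use). For a diagonal entry `(u, u)` there is `z ≠ u` with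
`¬ CycA D {z} u` (`z = s` if `¬ CycA D {s} u`; else `dg`: a cycle through `u` avoiding `z` and meeting
`s` contradicts `dom` or `pdom`; for `u = s` by definition); `S = {w | Av D {z} u w}`,
`Y = insert z (S.erase u)`.
`numDag_le_card`: the map `(σ, Δ) ↦ fun a b => mat (rootD s W Δ) s (σ a) b`, `W = univ.erase s`,
`σ s = s`, is injective: for `ρ = σ' σ⁻¹ ≠ 1` take a moved point `a` of minimal rank for `Δ'`; then
`Δ' (ρ a) a` and `ρ a` is moved. Use `rootD_good`, `NDr.perm`, `card_dags`, `card_ndr`; permutations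
fixing `0 : Fin (n + 1)` are `Equiv.Perm.decomposeFin.symm (0, e)`. -/

namespace Pool.Agent.Work.MP_5391ad_co

open Finset
open scoped Classical

variable {α : Type*} [Fintype α] {D : α → α → Prop} {s : α}

theorem mlow_closed (h : GR univ D s) {S : Finset α} (h1 : S.Nonempty)
    (h2 : ∀ a ∈ S, ∀ b, D a b → b ∈ S) : S = univ := by
  obtain ⟨x, hx⟩ := h1
  refine eq_univ_of_forall fun y => ?_
  have h3 : Relation.ReflTransGen D x y := (h.bwd x (mem_univ x)).trans (h.fwd y (mem_univ y))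
  induction h3 with
  | refl => exact hx
  | tail _ hbc ih => exact h2 _ ih _ hbc

theorem mlow_fi (h : GR univ D s) (hn : 2 ≤ Fintype.card α) : FIr (mat D s) := by
  intro S Y hc hS hY
  have hD : ∀ a ∈ S, ∀ b, D a b → b ∈ Y := fun a ha b hab => hc a ha b (Or.inl hab)
  by_cases h1 : S ⊆ Y
  · refine card_lt_card (Finset.ssubset_iff_subset_ne.2 ⟨h1, fun e => hY ?_⟩)
    subst e
    exact mlow_closed h hS hD
  have h2 : ∀ a ∈ S, a ≠ s → a ∈ Y := fun a ha hs => hc a ha a (Or.inr ⟨rfl, Or.inl hs⟩)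
  obtain ⟨a, ha, ha'⟩ := not_subset.1 h1
  obtain rfl : a = s := by_contra fun hs => ha' (h2 a ha hs)
  by_contra h3
  have h4 : S.erase a ⊆ Y := fun x hx => h2 x (mem_of_mem_erase hx) (ne_of_mem_erase hx)
  have h5 : (Y \ S.erase a).card ≤ 1 := by
    have h6 := card_sdiff_add_card_eq_card h4
    have h7 := card_erase_add_one ha
    omega
  by_cases h6 : Y ⊆ S
  · have h7 := mlow_closed h hS fun x hx y hxy => h6 (hD x hx y hxy)
    obtain ⟨x, hx⟩ := Fintype.exists_ne_of_one_lt_card (by omega : 1 < Fintype.card α) a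
    rcases (h.bwd x (mem_univ x)).cases_tail with e | ⟨p, -, hp⟩
    · exact hx e.symm
    · exact ha' (hD p (h7 ▸ mem_univ p) a hp)
  obtain ⟨z, hz, hz'⟩ := not_subset.1 h6
  have h7 : ∀ y ∈ Y, y ≠ z → y ∈ S := fun y hy hne => by_contra fun hy' =>
    hne (card_le_one.1 h5 y (mem_sdiff.2 ⟨hy, fun h => hy' (mem_of_mem_erase h)⟩) z
      (mem_sdiff.2 ⟨hz, fun h => hz' (mem_of_mem_erase h)⟩))
  have h8 : CycA D {z} a := by_contra fun h8 =>
    ha' (hc a ha a (Or.inr ⟨rfl, Or.inr ⟨z, fun e => hz' (e ▸ ha), h8⟩⟩))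
  obtain ⟨v, hv, hv1, hv2⟩ := h8
  have h9 : ∀ w, Relation.ReflTransGen (fun a b => D a b ∧ b ∉ ({z} : Set α)) v w →
      w ∈ Y ∧ w ∈ S := fun w hw => by
    induction hw with
    | refl => exact ⟨hD a ha v hv, h7 v (hD a ha v hv) hv1⟩
    | tail _ hbc ih => exact ⟨hD _ ih.2 _ hbc.1, h7 _ (hD _ ih.2 _ hbc.1) hbc.2⟩
  exact ha' (h9 a hv2).1

theorem mlow_arc {r u v : α}
    (h1 : Relation.ReflTransGen (fun a b => D a b ∧ ¬ (a = u ∧ b = v)) r u)
    (h2 : ¬ Relation.ReflTransGen (fun a b => D a b ∧ ¬ (a = u ∧ b = v)) r v) :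
    ∃ S Y : Finset α, u ∈ S ∧ v ∉ Y ∧ Y.card = S.card ∧
      ∀ i ∈ S, ∀ j, mat D s i j → j ∈ Y ∨ (i = u ∧ j = v) := by
  refine ⟨univ.filter fun w => Relation.ReflTransGen (fun a b => D a b ∧ ¬ (a = u ∧ b = v)) r w,
    _, mem_filter.2 ⟨mem_univ _, h1⟩, fun h => h2 (mem_filter.1 h).2, rfl, fun i hi j hij => ?_⟩
  rcases hij with hij | ⟨rfl, -⟩
  · by_cases e : i = u ∧ j = v
    · exact Or.inr e
    · exact Or.inl (mem_filter.2 ⟨mem_univ _, (mem_filter.1 hi).2.tail ⟨hij, e⟩⟩)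
  · exact Or.inl hi

omit [Fintype α] in
theorem mlow_first {x y : α} (u v : α) (h : Relation.ReflTransGen D x y) :
    Relation.ReflTransGen (fun a b => D a b ∧ ¬ (a = u ∧ b = v)) x y ∨
      Relation.ReflTransGen (fun a b => D a b ∧ ¬ (a = u ∧ b = v)) x u := by
  induction h with
  | refl => exact Or.inl .refl
  | @tail b c _ hbc ih =>
    rcases ih with ih | ih
    · by_cases e : b = u ∧ c = v
      · exact Or.inr (e.1 ▸ ih)
      · exact Or.inl (ih.tail ⟨hbc, e⟩)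
    · exact Or.inr ih

omit [Fintype α] in
theorem mlow_last {x y : α} (u v : α) (h : Relation.ReflTransGen D x y) :
    Relation.ReflTransGen (fun a b => D a b ∧ ¬ (a = u ∧ b = v)) x y ∨
      Relation.ReflTransGen (fun a b => D a b ∧ ¬ (a = u ∧ b = v)) v y := by
  induction h using Relation.ReflTransGen.head_induction_on with
  | refl => exact Or.inl .refl
  | @head b c hbc _ ih =>
    rcases ih with ih | ih
    · by_cases e : b = u ∧ c = v
      · exact Or.inr (e.2 ▸ ih)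
      · exact Or.inl (ih.head ⟨hbc, e⟩)
    · exact Or.inr ih

theorem mlow_cut (h : GR univ D s) {u : α} (hu : u ≠ s) : ∃ z, z ≠ u ∧ ¬ CycA D {z} u := by
  by_cases h1 : CycA D {s} u
  swap
  · exact ⟨s, hu.symm, h1⟩
  obtain ⟨z, hz1, hz2, hz3, hz4⟩ := h.dg u h1
  refine ⟨z, hz1, fun ⟨v, hv, hv'⟩ => ?_⟩
  have key : Av D {z} s u → Av D {z} v s → False := fun a1 a2 => by
    rcases hz4 with h2 | h2
    · exact h2.2 a1
    · exact h2.2 (Av.head hz1.symm hv a2)
  rcases av_first {s} hv' with h2 | h2 | ⟨p, c, hc, h2, h3, h4⟩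
  · refine hz3 ⟨v, hv, h2.mono ?_ fun _ _ h _ _ => h⟩
    rintro x (hx | hx)
    · exact Or.inr hx
    · exact Or.inl hx
  · obtain rfl : v = s := h2
    exact key hv' (av_refl hv'.1)
  · obtain rfl : c = s := hc
    exact key h4 ((pbase_l h2).tail h3 h4.1)

theorem mlow_diag (h : GR univ D s) {u z : α} (h1 : z ≠ u) (h2 : ¬ CycA D {z} u) :
    ∃ S Y : Finset α, u ∈ S ∧ u ∉ Y ∧ Y.card = S.card ∧
      ∀ i ∈ S, ∀ j, mat D s i j → j ∈ Y ∨ (i = u ∧ j = u) := by
  have hu : u ∈ univ.filter fun w => Av D {z} u w := mem_filter.2 ⟨mem_univ _, av_refl h1.symm⟩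
  refine ⟨univ.filter fun w => Av D {z} u w,
    insert z ((univ.filter fun w => Av D {z} u w).erase u), hu, ?_, ?_, fun i hi j hij => ?_⟩
  · simp [h1.symm]
  · rw [card_insert_of_notMem, card_erase_add_one hu]
    exact fun hz => (mem_filter.1 (mem_of_mem_erase hz)).2.not_mem_right rfl
  have hi' := (mem_filter.1 hi).2
  rcases hij with hij | ⟨rfl, -⟩
  · left
    by_cases e : j = z
    · exact mem_insert.2 (Or.inl e)
    refine mem_insert_of_mem (mem_erase.2 ⟨?_, mem_filter.2 ⟨mem_univ _, hi'.tail hij e⟩⟩)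
    rintro rfl
    rcases hi'.2.cases_head with rfl | ⟨v, hv, hv'⟩
    · exact h.irr _ hij
    · exact h2 ⟨v, hv.1, Av.tail ⟨hv.2, hv'⟩ hij e⟩
  · by_cases e : i = u
    · exact Or.inr ⟨e, e⟩
    · exact Or.inl (mem_insert_of_mem (mem_erase.2 ⟨e, hi⟩))

theorem GR.ndr_mat (h : GR univ D s) (hn : 2 ≤ Fintype.card α) : NDr (mat D s) := by
  refine ⟨mlow_fi h hn, fun u v huv => ?_⟩
  rcases huv with huv | ⟨rfl, huv⟩
  · rcases h.cr u v huv with h1 | h1
    · exact mlow_arc ((mlow_first u v (h.fwd u (mem_univ u))).elim id id) h1.2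
    · exact mlow_arc .refl fun h2 =>
        h1.2 (h2.trans ((mlow_last u v (h.bwd v (mem_univ v))).elim id id))
  · by_cases e : u = s
    · obtain ⟨z, hz, hz'⟩ := huv.resolve_left (not_not.2 e)
      subst e
      exact mlow_diag h hz hz'
    · obtain ⟨z, hz, hz'⟩ := mlow_cut h e
      exact mlow_diag h hz hz'

omit [Fintype α] in
theorem mlow_perm {W : Finset α} {Δ Δ' : α → α → Prop} (h : IsDag W Δ') {ρ : Equiv.Perm α}
    (hs : ρ s = s) (e : ∀ a b, mat (rootD s W Δ) s a b → mat (rootD s W Δ') s (ρ a) b) (a : α) :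
    ρ a = a := by
  obtain ⟨rk, hrk⟩ := h.acyc
  induction hk : rk a using Nat.strong_induction_on generalizing a with
  | _ k ih =>
    by_contra h1
    have h2 : a ≠ s := fun e => h1 (by rw [e, hs])
    have h3 : ρ a ≠ s := fun e => h2 (ρ.injective (e.trans hs.symm))
    rcases e a a (Or.inr ⟨rfl, Or.inl h2⟩) with h4 | h4
    · exact h1 (ρ.injective (ih _ (hk ▸ hrk _ _ (qdag_arc h4 h3 h2)) _ rfl))
    · exact h1 h4.1

omit [Fintype α] in
theorem mlow_le {W : Finset α} {Δ Δ' : α → α → Prop} (h : IsDag W Δ) (hs : s ∉ W)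
    (e : ∀ a b, mat (rootD s W Δ) s a b → mat (rootD s W Δ') s a b) {a b : α} (hab : Δ a b) :
    Δ' a b := by
  obtain ⟨rk, hrk⟩ := h.acyc
  obtain ⟨ha, hb⟩ := h.mem a b hab
  rcases e a b (Or.inl (Or.inl hab)) with h1 | ⟨rfl, -⟩
  · exact qdag_arc h1 (fun e => hs (e ▸ ha)) fun e => hs (e ▸ hb)
  · exact (lt_irrefl _ (hrk _ _ hab)).elim

theorem mlow_count (s : α) (hn : 2 ≤ Fintype.card α) (P : Finset (Equiv.Perm α))
    (hP : ∀ σ ∈ P, σ s = s) :
    P.card * numDag (Fintype.card α - 1) ≤ numND (Fintype.card α) := by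
  have hs : s ∉ univ.erase s := notMem_erase s univ
  have hW : (univ.erase s).card = Fintype.card α - 1 := by
    rw [card_erase_of_mem (mem_univ s), card_univ]
  rw [← hW, ← card_dags, ← card_ndr hn, ← card_product]
  refine card_le_card_of_injOn
    (fun p a b => mat (rootD s (univ.erase s) p.2) s (p.1 a) b) (fun p hp => ?_) ?_
  · have h1 := (rootD_good (qdag_mem_dags.1 (mem_product.1 hp).2) hs).1
    rw [insert_erase (mem_univ s)] at h1
    exact mem_coe.2 (mem_filter.2 ⟨mem_univ _, (h1.ndr_mat hn).perm p.1⟩)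
  · rintro ⟨σ, Δ⟩ hp ⟨σ', Δ'⟩ hp' e
    obtain ⟨h1, h2⟩ := mem_product.1 (mem_coe.1 hp)
    obtain ⟨h1', h2'⟩ := mem_product.1 (mem_coe.1 hp')
    have d := qdag_mem_dags.1 h2
    have d' := qdag_mem_dags.1 h2'
    have e' : ∀ a b, mat (rootD s (univ.erase s) Δ) s (σ a) b =
        mat (rootD s (univ.erase s) Δ') s (σ' a) b := fun a b => congrFun (congrFun e a) b
    have h3 : ∀ a, (σ.symm.trans σ') a = a := mlow_perm (s := s) (Δ := Δ) d'
      (by rw [Equiv.trans_apply, (Equiv.symm_apply_eq σ).2 (hP σ h1).symm]; exact hP σ' h1')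
      fun a b hab => by
        rw [Equiv.trans_apply, ← e', Equiv.apply_symm_apply]
        exact hab
    obtain rfl : σ = σ' := Equiv.ext fun a => by
      have h4 := h3 (σ a)
      rw [Equiv.trans_apply, Equiv.symm_apply_apply] at h4
      exact h4.symm
    have e'' : ∀ a b, mat (rootD s (univ.erase s) Δ) s a b =
        mat (rootD s (univ.erase s) Δ') s a b := fun a b => by
      have h4 := e' (σ.symm a) b
      rwa [Equiv.apply_symm_apply] at h4
    obtain rfl : Δ = Δ' := funext fun a => funext fun b => propext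
      ⟨mlow_le d hs fun a b h => (e'' a b).mp h, mlow_le d' hs fun a b h => (e'' a b).mpr h⟩
    rfl

theorem numDag_le_card {n : ℕ} (hn : 1 ≤ n) : n.factorial * numDag n ≤ numND (n + 1) := by
  have h := mlow_count (0 : Fin (n + 1)) (by rw [Fintype.card_fin]; omega)
    (univ.map ⟨fun e : Equiv.Perm (Fin n) => Equiv.Perm.decomposeFin.symm (0, e),
      fun e e' h => (Prod.mk.inj (Equiv.Perm.decomposeFin.symm.injective h)).2⟩)
    (fun σ hσ => by
      obtain ⟨e, -, rfl⟩ := mem_map.1 hσ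
      exact Equiv.Perm.decomposeFin_symm_apply_zero 0 e)
  rwa [card_map, card_univ, Fintype.card_perm, Fintype.card_fin, Fintype.card_fin,
    Nat.add_sub_cancel] at h

end Pool.Agent.Work.MP_5391ad_co
end

-- merged part: Pool.Agent.Work.MP_5391ad_co.SMat
section
/-! Matrices on a subset and the normalisation of the weights.
`card_pV`: `Equiv.Perm.subtypeEquivSubtypePerm`. `card_ndv`: restriction to the subtype `V` is a
bijection onto the `NDr` matrices on `V` (`card_ndr`). `GR.ndv`: restrict `D` to the subtype `V`;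
walks of any relation below `D` stay in `V` (`GR.mem`), so `Av`, `dom`, `pdom`, `OBr`, `IBr`, `CycA`
transfer and the restriction is `GR univ`; apply `GR.ndr_mat`; the root entry of `mat` is false by
`hc`. `NDV.perm`: `NDr.perm` with the restricted permutation. `mem_rts_perm`: a member of `pV V`
maps `V` to `V`; transport `S` by `σ` (`hub`, `Tight`). `card_frames_perm`: `π ↦ σ * π`.
`card_frames_rv`: `π ↦ π⁻¹`.
`norm_le`: for `σ ∈ pV V`, `s`, `D` put `B a b := matV V D s (σ⁻¹ a) b`, an `NDV` matrix with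
`σ s ∈ rts V B τ`, `s ∈ rts V (rv B) τ`, `σ ∈ frames V B (σ s) s` and
`wt V B τ (σ s) s = wt V (matV V D s) τ s s`. The map `(s, D, σ) ↦ (B, σ s, s, σ)` is injective
(`D a b ↔ a ≠ b ∧ B (σ a) b` by `irr`), and `sum_wt_le` bounds the weight of each `B` by one. -/

namespace Pool.Agent.Work.MP_5391ad_co

open Finset
open scoped Classical

variable {α : Type*} [Fintype α] {V : Finset α} {B D : α → α → Prop} {s : α}

omit [Fintype α] in
theorem matV_rv (V : Finset α) (D : α → α → Prop) (s : α) :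
    rv (matV V D s) = matV V (rv D) s := by
  funext a b
  apply propext
  constructor
  · rintro (h | ⟨rfl, h⟩)
    · exact Or.inl h
    · exact Or.inr ⟨rfl, h⟩
  · rintro (h | ⟨rfl, h⟩)
    · exact Or.inl h
    · exact Or.inr ⟨rfl, h⟩

theorem smat_pV {σ : Equiv.Perm α} : σ ∈ pV V ↔ ∀ a, a ∉ V → σ a = a := by
  simp [pV]

theorem smat_mem {σ : Equiv.Perm α} (hσ : σ ∈ pV V) (a : α) : σ a ∈ V ↔ a ∈ V := by
  have h := smat_pV.1 hσ
  constructor
  · intro k
    by_contra e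
    rw [h a e] at k
    exact e k
  · intro k
    by_contra e
    have := σ.injective (h _ e)
    rw [this] at e
    exact e k

theorem smat_inv {σ : Equiv.Perm α} (hσ : σ ∈ pV V) : σ⁻¹ ∈ pV V :=
  smat_pV.2 fun a ha => by
    rw [Equiv.Perm.inv_eq_iff_eq]
    exact (smat_pV.1 hσ a ha).symm

theorem card_pV (V : Finset α) : (pV V).card = V.card.factorial := by
  have h1 := Nat.card_congr (Equiv.Perm.subtypeEquivSubtypePerm fun a => a ∈ V)
  rw [Nat.card_perm, Nat.card_eq_finsetCard,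
    Nat.subtype_card (pV V) (fun σ => smat_pV)] at h1
  exact h1.symm

theorem card_ndv (hV : 2 ≤ V.card) :
    (univ.filter fun B : α → α → Prop => NDV V B).card = numND V.card := by
  have h := @card_ndr V (Finset.Subtype.fintype V) (by simpa using hV)
  rw [Fintype.card_coe] at h
  rw [← h]
  refine card_bij (fun B _ (a b : V) => B a b) (fun B hB => mem_filter.2 ⟨@mem_univ _ (_) _,
    (mem_filter.1 hB).2.2⟩) (fun B hB B' hB' k => ?_) fun C hC => ?_
  · funext a b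
    apply propext
    have h1 := (mem_filter.1 hB).2.1 a b
    have h2 := (mem_filter.1 hB').2.1 a b
    constructor
    · intro e
      have := congrFun (congrFun k ⟨a, (h1 e).1⟩) ⟨b, (h1 e).2⟩
      exact this ▸ e
    · intro e
      have := congrFun (congrFun k ⟨a, (h2 e).1⟩) ⟨b, (h2 e).2⟩
      exact this.symm ▸ e
  · have e : (fun a b : V => ∃ (ha : a.1 ∈ V) (hb : b.1 ∈ V), C ⟨a, ha⟩ ⟨b, hb⟩) = C := by
      funext a b
      exact propext ⟨fun ⟨_, _, k⟩ => k, fun k => ⟨a.2, b.2, k⟩⟩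
    refine ⟨fun a b => ∃ (ha : a ∈ V) (hb : b ∈ V), C ⟨a, ha⟩ ⟨b, hb⟩, mem_filter.2 ⟨mem_univ _,
      fun a b ⟨ha, hb, _⟩ => ⟨ha, hb⟩, ?_⟩, e⟩
    rw [e]
    exact (mem_filter.1 hC).2

omit [Fintype α] in
theorem smat_lift {R : α → α → Prop} (h : ∀ a b, R a b → a ∈ V) (x y : V) :
    Relation.ReflTransGen (fun a b : V => R a b) x y ↔ Relation.ReflTransGen R x y := by
  refine ⟨fun k => k.lift Subtype.val fun _ _ e => e, fun k => ?_⟩
  obtain ⟨y, hy⟩ := y
  change Relation.ReflTransGen R x y at k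
  induction k with
  | refl => exact .refl
  | tail _ e ih => exact (ih (h _ _ e)).tail e

omit [Fintype α] in
theorem smat_av (h : ∀ a b, D a b → a ∈ V ∧ b ∈ V) {B' : Set V} {B : Set α}
    (hB : ∀ x : V, x ∈ B' ↔ x.1 ∈ B) (x y : V) :
    Av (fun a b : V => D a b) B' x y ↔ Av D B x y := by
  unfold Av
  rw [← smat_lift (V := V) (R := fun a b => D a b ∧ b ∉ B) (fun a b k => (h a b k.1).1)]
  simp only [hB]

omit [Fintype α] in
theorem smat_cyc (h : ∀ a b, D a b → a ∈ V ∧ b ∈ V) {B' : Set V} {B : Set α}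
    (hB : ∀ x : V, x ∈ B' ↔ x.1 ∈ B) (u : V) :
    CycA (fun a b : V => D a b) B' u ↔ CycA D B u :=
  ⟨fun ⟨v, h1, h2⟩ => ⟨v, h1, (smat_av h hB _ _).1 h2⟩,
    fun ⟨v, h1, h2⟩ => ⟨⟨v, (h _ _ h1).2⟩, h1, (smat_av h hB _ _).2 h2⟩⟩

omit [Fintype α] in
theorem smat_br {u v x y : V}
    (k : Relation.ReflTransGen (fun a b : V => D a b ∧ ¬ (a = u ∧ b = v)) x y) :
    Relation.ReflTransGen (fun a b => D a b ∧ ¬ (a = u.1 ∧ b = v.1)) x.1 y.1 :=
  k.lift Subtype.val fun _ _ e => ⟨e.1, fun e' => e.2 ⟨Subtype.ext e'.1, Subtype.ext e'.2⟩⟩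

omit [Fintype α] in
theorem smat_gr (h : GR V D s) :
    GR (@univ V (Finset.Subtype.fintype V)) (fun a b : V => D a b) ⟨s, h.root⟩ := by
  refine ⟨mem_univ _, fun _ _ _ => ⟨mem_univ _, mem_univ _⟩, fun a => h.irr a,
    fun x _ => (smat_lift (fun a b k => (h.mem a b k).1) _ _).2 (h.fwd x x.2),
    fun x _ => (smat_lift (fun a b k => (h.mem a b k).1) _ _).2 (h.bwd x x.2),
    fun u v k => (h.cr u v k).imp (fun e => ⟨k, fun e' => e.2 (smat_br e')⟩)
      fun e => ⟨k, fun e' => e.2 (smat_br e')⟩, fun u k => ?_⟩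
  obtain ⟨z, h1, h2, h3, h4⟩ := h.dg u ((smat_cyc h.mem (B := {s})
    (fun x => by simp [Subtype.ext_iff]) _).1 k)
  have hz : z ∈ V := by
    by_contra e
    refine h3 ((smat_cyc h.mem (B := {s, z}) (fun x => ?_) _).1 k)
    have : x.1 ≠ z := fun e' => e (e' ▸ x.2)
    simp [Subtype.ext_iff, this]
  have hB : ∀ x : V, x ∈ ({⟨z, hz⟩} : Set V) ↔ x.1 ∈ ({z} : Set α) := fun x => by
    simp [Subtype.ext_iff]
  refine ⟨⟨z, hz⟩, fun e => h1 (congrArg Subtype.val e), fun e => h2 (congrArg Subtype.val e),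
    fun e => h3 ((smat_cyc h.mem (B := {s, z}) (fun x => ?_) _).1 e), h4.imp
      (fun e => ⟨fun e' => e.1 (congrArg Subtype.val e'),
        fun e' => e.2 ((smat_av h.mem hB _ _).1 e')⟩)
      fun e => ⟨fun e' => e.1 (congrArg Subtype.val e'),
        fun e' => e.2 ((smat_av h.mem hB _ _).1 e')⟩⟩
  simp [Subtype.ext_iff]

theorem GR.ndv (h : GR V D s) (hc : ∀ z, z ≠ s → CycA D {z} s) (hV : 2 ≤ V.card) :
    NDV V (matV V D s) := by
  refine ⟨fun a b k => k.elim (h.mem a b) fun e => ⟨e.2.1, e.1 ▸ e.2.1⟩, ?_⟩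
  have k := @GR.ndr_mat V (Finset.Subtype.fintype V) _ _ (smat_gr h) (by simpa using hV)
  have e : mat (fun a b : V => D a b) ⟨s, h.root⟩ = fun a b : V => matV V D s a b := by
    funext a b
    apply propext
    refine or_congr Iff.rfl ⟨fun ⟨e1, e2⟩ => ⟨congrArg _ e1, a.2, ?_⟩, fun ⟨e1, _, e3⟩ =>
      ⟨Subtype.ext e1, Or.inl fun e4 => e3 (congrArg Subtype.val e4)⟩⟩
    rcases e2 with e2 | ⟨z, e2, e3⟩
    · exact fun e4 => e2 (Subtype.ext e4)
    · refine absurd ((smat_cyc h.mem (B := {z.1}) (fun x => ?_) _).2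
        (hc z fun e4 => e2 (Subtype.ext e4))) e3
      exact Subtype.ext_iff
  rw [e] at k
  exact k

theorem NDV.perm (h : NDV V B) {σ : Equiv.Perm α} (hσ : σ ∈ pV V) :
    NDV V fun a b => B (σ a) b :=   ⟨fun a _ k => ⟨(smat_mem hσ a).1 (h.1 _ _ k).1, (h.1 _ _ k).2⟩,
    @NDr.perm V (Finset.Subtype.fintype V) _ h.2 (σ.subtypePerm (smat_mem hσ))⟩

theorem rts_mono {τ τ' : ℕ} (h : τ ≤ τ') : rts V B τ ⊆ rts V B τ' := fun _ k =>
  mem_filter.2 ⟨(mem_filter.1 k).1, fun S h1 Y h2 h3 h4 =>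
    ((mem_filter.1 k).2 S h1 Y h2 h3 h4).trans h⟩

theorem smat_rts {σ : Equiv.Perm α} (hσ : σ ∈ pV V) {τ : ℕ} {r : α} (k : σ r ∈ rts V B τ) :
    r ∈ rts V (fun a b => B (σ a) b) τ := by
  obtain ⟨k1, k2⟩ := mem_filter.1 k
  refine mem_filter.2 ⟨(smat_mem hσ r).1 k1, fun S h1 Y h2 h3 h4 => ?_⟩
  have := k2 (S.map σ.toEmbedding) (fun a ha => by
      obtain ⟨a', ha', rfl⟩ := mem_map.1 ha
      exact (smat_mem hσ a').2 (h1 ha')) Y h2 ⟨fun a ha b e => by
      obtain ⟨a', ha', rfl⟩ := mem_map.1 ha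
      exact h3.1 a' ha' b e, by rw [card_map]; exact h3.2⟩ (mem_map_of_mem _ h4)
  refine le_trans (le_of_eq (card_equiv σ fun a => ?_)) this
  simp [hub]

theorem mem_rts_perm {σ : Equiv.Perm α} (hσ : σ ∈ pV V) (τ : ℕ) (r : α) :
    r ∈ rts V (fun a b => B (σ a) b) τ ↔ σ r ∈ rts V B τ := by
  refine ⟨fun k => ?_, smat_rts hσ⟩
  have := smat_rts (smat_inv hσ) (B := fun a b => B (σ a) b) (r := σ r) (τ := τ) (by simpa using k)
  simpa using this

theorem card_rts_perm {σ : Equiv.Perm α} (hσ : σ ∈ pV V) (τ : ℕ) :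
    (rts V (fun a b => B (σ a) b) τ).card = (rts V B τ).card :=   card_equiv σ (mem_rts_perm hσ τ)

theorem smat_col {σ : Equiv.Perm α} (hσ : σ ∈ pV V) (τ : ℕ) :
    rts V B τ ⊆ rts V (fun a b => B a (σ b)) τ := by
  intro r k
  obtain ⟨k1, k2⟩ := mem_filter.1 k
  refine mem_filter.2 ⟨k1, fun S h1 Y h2 h3 h4 => ?_⟩
  have := k2 S h1 (Y.map σ.toEmbedding) (fun a ha => by
      obtain ⟨a', ha', rfl⟩ := mem_map.1 ha
      exact (smat_mem hσ a').2 (h2 ha')) ⟨fun a ha b e => by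
      obtain ⟨b, rfl⟩ := σ.surjective b
      exact mem_map_of_mem _ (h3.1 a ha b e), by rw [card_map]; exact h3.2⟩ h4
  have e : hub (fun a b => B a (σ b)) = hub B := by
    ext a
    have : (univ.filter fun b => B a (σ b)).card = (univ.filter (B a)).card :=
      card_equiv σ fun b => by simp
    simp only [hub, mem_filter, mem_univ, true_and, this]
  rwa [e]

theorem rts_rv_perm {σ : Equiv.Perm α} (hσ : σ ∈ pV V) (τ : ℕ) :
    rts V (rv fun a b => B (σ a) b) τ = rts V (rv B) τ := by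
  refine Subset.antisymm ?_ (smat_col (B := rv B) hσ τ)
  have := smat_col (smat_inv hσ) (B := rv fun a b => B (σ a) b) τ
  have e : (fun a b => rv (fun a b => B (σ a) b) a (σ⁻¹ b)) = rv B := by
    funext a b
    simp [rv]
  rwa [e] at this

theorem card_frames_perm {σ : Equiv.Perm α} (hσ : σ ∈ pV V) (r c : α) :
    (frames V (fun a b => B (σ a) b) r c).card = (frames V B (σ r) c).card := by
  refine card_equiv (Equiv.mulLeft σ) fun π => ?_
  have h := smat_pV.1 hσ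
  simp only [frames, mem_filter, smat_pV, Equiv.coe_mulLeft, Equiv.Perm.mul_apply,
    EmbeddingLike.apply_eq_iff_eq]
  refine and_congr_left' (forall_congr' fun a => imp_congr_right fun ha => ?_)
  constructor
  · intro e
    rw [e, h a ha]
  · intro e
    exact σ.injective (e.trans (h a ha).symm)

theorem smat_fr {r c : α} {π : Equiv.Perm α} (k : π ∈ frames V (rv B) c r) :
    π⁻¹ ∈ frames V B r c := by
  obtain ⟨k1, k2, k3⟩ := mem_filter.1 k
  refine mem_filter.2 ⟨smat_inv k1, by rw [← k2]; simp, fun j hj e => ?_⟩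
  have := k3 (π⁻¹ j) ((smat_mem (smat_inv k1) j).2 hj) fun e' => e (by rw [← k2, ← e']; simp)
  simpa [rv] using this

theorem card_frames_rv (V : Finset α) (B : α → α → Prop) (r c : α) :
    (frames V (rv B) c r).card = (frames V B r c).card := by
  refine card_equiv (Equiv.inv _) fun π => ⟨smat_fr, fun k => ?_⟩
  simpa using smat_fr (B := rv B) (π := π⁻¹) k

theorem wt_perm {σ : Equiv.Perm α} (hσ : σ ∈ pV V) (τ : ℕ) (r c : α) :
    wt V (fun a b => B (σ a) b) τ r c = wt V B τ (σ r) c := by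
  unfold wt
  rw [card_rts_perm hσ, rts_rv_perm hσ, card_frames_perm hσ]

theorem wt_nonneg (V : Finset α) (B : α → α → Prop) (τ : ℕ) (r c : α) : 0 ≤ wt V B τ r c := by
  unfold wt
  positivity

theorem sum_wt_le (V : Finset α) (B : α → α → Prop) (τ : ℕ) :
    ∑ r ∈ rts V B τ, ∑ c ∈ rts V (rv B) τ, ∑ _π ∈ frames V B r c, wt V B τ r c ≤ 1 := by
  refine le_trans (sum_le_sum fun r _ => sum_le_sum fun c _ => (?_ : _ ≤
    (((rts V B τ).card : ℝ) * (rts V (rv B) τ).card)⁻¹)) ?_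
  · rw [sum_const, nsmul_eq_mul, wt, mul_inv, mul_left_comm]
    exact mul_le_of_le_one_right (by positivity) mul_inv_le_one
  · rw [sum_const, sum_const, nsmul_eq_mul, nsmul_eq_mul, ← mul_assoc]
    exact mul_inv_le_one

theorem sum_wt_eq {τ : ℕ} (h1 : (rts V B τ).Nonempty) (h2 : (rts V (rv B) τ).Nonempty)
    (h3 : ∀ r c, (frames V B r c).Nonempty) :
    ∑ r ∈ rts V B τ, ∑ c ∈ rts V (rv B) τ, ∑ _π ∈ frames V B r c, wt V B τ r c = 1 := by
  have e1 : ((rts V B τ).card : ℝ) ≠ 0 := by exact_mod_cast h1.card_pos.ne'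
  have e2 : ((rts V (rv B) τ).card : ℝ) ≠ 0 := by exact_mod_cast h2.card_pos.ne'
  rw [sum_congr rfl fun r _ => sum_congr rfl fun c _ => (?_ : _ =
    (((rts V B τ).card : ℝ) * (rts V (rv B) τ).card)⁻¹)]
  · rw [sum_const, sum_const, nsmul_eq_mul, nsmul_eq_mul, ← mul_assoc]
    exact mul_inv_cancel₀ (mul_ne_zero e1 e2)
  · have e3 : ((frames V B r c).card : ℝ) ≠ 0 := by exact_mod_cast (h3 r c).card_pos.ne'
    rw [sum_const, nsmul_eq_mul, wt, mul_inv, mul_left_comm, mul_inv_cancel₀ e3, mul_one]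

theorem smat_inj {ι κ : Type*} {T : Finset ι} {U : Finset κ} (φ : ι → κ) {f : ι → ℝ} {g : κ → ℝ}
    (h1 : ∀ x ∈ T, φ x ∈ U) (h2 : ∀ x ∈ T, ∀ y ∈ T, φ x = φ y → x = y)
    (h3 : ∀ x ∈ T, f x = g (φ x)) (h4 : ∀ y, 0 ≤ g y) : ∑ x ∈ T, f x ≤ ∑ y ∈ U, g y := by
  rw [sum_congr rfl h3, ← sum_image (f := g) h2]
  exact sum_le_sum_of_subset_of_nonneg (image_subset_iff.2 h1) fun y _ _ => h4 y

theorem norm_le (hV : 2 ≤ V.card) (τ : ℕ) :
    (V.card.factorial : ℝ) * ∑ s ∈ V, ∑ D ∈ univ.filter (fun D : α → α → Prop => Cen V D s τ),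
      wt V (matV V D s) τ s s ≤ numND V.card := by
  have e1 : (V.card.factorial : ℝ) * ∑ s ∈ V,
      ∑ D ∈ univ.filter (fun D : α → α → Prop => Cen V D s τ), wt V (matV V D s) τ s s =
      ∑ x ∈ (pV V).sigma fun _ => V.sigma fun s =>
        univ.filter (fun D : α → α → Prop => Cen V D s τ),
        wt V (matV V x.2.2 x.2.1) τ x.2.1 x.2.1 := by
    rw [sum_sigma, ← card_pV, ← nsmul_eq_mul, ← sum_const]
    exact sum_congr rfl fun _ _ => sum_sigma' _ _ _
  have e2 : ∑ y ∈ (univ.filter fun B : α → α → Prop => NDV V B).sigma fun B =>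
      (rts V B τ).sigma fun r => (rts V (rv B) τ).sigma fun c => frames V B r c,
      wt V y.1 τ y.2.1 y.2.2.1 ≤ numND V.card := by
    rw [sum_sigma, ← card_ndv hV, card_eq_sum_ones, Nat.cast_sum]
    refine sum_le_sum fun B _ => ?_
    rw [sum_sigma, Nat.cast_one]
    refine le_trans (le_of_eq (sum_congr rfl fun r _ => ?_)) (sum_wt_le V B τ)
    rw [sum_sigma]
  rw [e1]
  refine le_trans (smat_inj (fun x => ⟨fun a b => matV V x.2.2 x.2.1 (x.1⁻¹ a) b, x.1 x.2.1,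
    x.2.1, x.1⟩) ?_ ?_ ?_ fun y => wt_nonneg _ _ _ _ _) e2
  · rintro ⟨σ, s, D⟩ hx
    simp only [mem_sigma, mem_filter, mem_univ, true_and] at hx ⊢
    obtain ⟨h1, h2, h3⟩ := hx
    refine ⟨(h3.gr.ndv h3.cyc hV).perm (smat_inv h1), ?_, ?_, ?_⟩
    · rw [mem_rts_perm (smat_inv h1)]
      simpa using h3.row
    · rw [rts_rv_perm (smat_inv h1)]
      exact h3.col
    · exact mem_filter.2 ⟨h1, rfl, fun j hj e => Or.inr ⟨by simp, by simpa using hj,
        by simpa using e⟩⟩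
  · rintro ⟨σ, s, D⟩ hx ⟨σ', s', D'⟩ hx' e
    simp only [mem_sigma, mem_filter, mem_univ, true_and] at hx hx'
    simp only [Sigma.mk.injEq, heq_eq_eq] at e
    obtain ⟨k, -, rfl, rfl⟩ := e
    have k2 : D = D' := by
      funext a b
      have k3 := congrFun (congrFun k (σ a)) b
      have k4 : σ⁻¹ (σ a) = a := by simp
      simp only [k4, matV, eq_iff_iff] at k3
      apply propext
      constructor
      · intro e
        exact (k3.1 (Or.inl e)).resolve_right fun e' => hx.2.2.gr.irr a (e'.1 ▸ e)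
      · intro e
        exact (k3.2 (Or.inl e)).resolve_right fun e' => hx'.2.2.gr.irr a (e'.1 ▸ e)
    rw [k2]
  · rintro ⟨σ, s, D⟩ hx
    simp only [mem_sigma] at hx
    simp only
    rw [wt_perm (smat_inv hx.1)]
    simp

end Pool.Agent.Work.MP_5391ad_co
end

-- merged part: Pool.Agent.Work.MP_5391ad_co.SCut
section
/-! Cutting a link and deleting vertices.
`cut_to`: follow the walk until it reaches `w` and jump to `s` (induction from the head).
`cut_from`: the reverse (`cutD_rv`). `cut_av`: the new arcs touch `s`. `cut_last`: after the last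
visit of `s` a walk of `cutD` is a walk of `D` from `s` or from `w'` (compare `pgev_last`).
`CutH.good`: `(w, s)` is the only arc out of `w`, `(s, w')` the only arc into `w'`. Let `(u, v)` be
an old arc (`u ≠ w`, `v ≠ w'`), an out-bridge of `D` but not of the cut. Then `D` has a walk from
`w'` to `v` without the arc, so every walk from `s` to `w'` uses it: `u`, `v` dominate `w'`
(`u ≠ w'`: first visit). `u = s` contradicts `en`. Otherwise `w` post-dominates `u` (`dm`), and a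
walk of the cut from `u` to `s` without the arc gives a walk of `D` from `u` to `w` without it,
hence one from `s` to `w'`: so the arc is an in-bridge of the cut. In-bridges: reverse. For `dg`:
a closed walk of the cut avoiding `s` avoids `w`, `w'`; the vertex `z` of `D` lies on it. Let `z`
dominate `u` in `D` but not in the cut: a walk from `w'` to `u` avoids `z, s`, so `z` dominates
`w'` and `w` post-dominates `z`. A walk of the cut from `u` to `s` avoiding `z` either reaches `w`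
(closed walk through `u` avoiding `s, z`, absurd) or avoids `w` (then so does a walk from `z`).
`CutH.second`: `cut_pdom`, `cut_dom`; if `w'` dominates `z` in `D` but not in the cut, a walk from
`x'` to `z` avoids `w'`, so `w'` dominates `x'` (`w' ≠ x'` since `w ≠ x`). An in-bridge `(p, s)` of
the cut has `p = x` or is an in-bridge of `D`.
`del_good`: bridges and domination persist; the vertex of `dg` lies on the surviving closed walk.
`FLink.cutH`: dominators and post-dominators other than `s` lie in the component (no `CCase`);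
an in-bridge `(p, s)` with `p` in the component is the unique exit arc, which gives `CCase`.
`fr_sub`: if `π j = i ≠ j` for a frame `π` of `D'` (`π s = s`), the orbit of `j` is a closed walk of
`D'` avoiding `s` through `i`. -/

namespace Pool.Agent.Work.MP_5391ad_co

open Finset
open scoped Classical

variable {α : Type*} [Fintype α] {V : Finset α} {D : α → α → Prop} {s w w' x x' : α}

theorem Lk.rev (h : Lk D s w w') : Lk (rv D) s w' w := by
  exact ⟨h.2.1, h.1, h.2.2.2, h.2.2.1⟩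

theorem CutH.rev (h : CutH D s w w') : CutH (rv D) s w' w := by
  exact ⟨h.lk.rev, fun z hz k => (h.dm z hz (pdom_rv.1 k)).imp_right dom_rv.2,
    fun z hz k => (h.pd z hz (dom_rv.1 k)).imp_right pdom_rv.2,
    fun p k => mt pdom_rv.1 (h.en p (ibr_rv.1 k)), fun v k => mt dom_rv.1 (h.ex v (obr_rv.1 k))⟩

theorem Inc.rev (h1 : Lk D s x x') (h2 : Lk D s w w') (h : Inc D s x x' w w') :
    Inc (rv D) s w' w x' x := by
  refine ⟨fun e => h.ne ?_, mt dom_rv.1 h.p2, mt dom_rv.1 h.p1, mt pdom_rv.1 h.d2,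
    mt pdom_rv.1 h.d1⟩
  exact ((h2.2.2.2 x).1 ((h1.2.2.1 w').2 e.symm)).symm

theorem GT.rev {q : α} (h : GT D s q) : GT (rv D) s q := by
  exact ⟨cycA_rv.2 h.1, h.2.2, h.2.1⟩

theorem GT.of_sc {q y : α} (h : GT D s q) (k : Sc D s q y) : GT D s y := by
  exact ⟨h.1.of_sc k, fun e => h.2.1 (e.of_sc k.symm), fun e => h.2.2 (e.of_sc (sc_rv.2 k.symm))⟩

theorem NoIso.rev (h : NoIso D s) : NoIso (rv D) s := by
  exact fun x x' hl hg => (h x' x (pgev_rev hl) (hg.of_sc hl.sc).rev).rev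

theorem cutD_rv (h : Lk D s w w') : rv (cutD D s w w') = cutD (rv D) s w' w := by
  funext u v
  refine propext ?_
  change (v = w ∧ u = s) ∨ (v = s ∧ u = w') ∨ (D v u ∧ v ≠ w) ↔
    (u = w' ∧ v = s) ∨ (u = s ∧ v = w) ∨ (D v u ∧ u ≠ w')
  rw [or_left_comm, and_comm (a := v = s), and_comm (a := v = w)]
  refine or_congr_right (or_congr_right (and_congr_right fun k => not_congr ⟨fun e => ?_, fun e => ?_⟩))
  · exact (h.2.2.1 u).1 (e ▸ k)
  · exact (h.2.2.2 v).1 (e ▸ k)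

theorem cut_to {B : Set α} {y : α} (k : Av D B y s) : Av (cutD D s w w') B y s := by
  have hs : s ∉ B := k.not_mem_right
  obtain ⟨h1, h2⟩ := k
  induction h2 using Relation.ReflTransGen.head_induction_on with
  | refl => exact av_refl h1
  | @head a c k1 _ ih =>
    by_cases e : a = w
    · exact (av_refl h1).tail (Or.inl ⟨e, rfl⟩) hs
    · exact Av.head h1 (Or.inr (Or.inr ⟨k1.1, e⟩)) (ih k1.2)

theorem cut_from (h : Lk D s w w') {B : Set α} {y : α} (k : Av D B s y) :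
    Av (cutD D s w w') B s y := by
  refine av_rv.1 ?_
  rw [cutD_rv h]
  exact cut_to (av_rv.2 k)

omit [Fintype α] in
theorem scut_old {a b : α} (k : cutD D s w w' a b) (ha : a ≠ s) (hb : b ≠ s) : D a b ∧ a ≠ w :=
  (k.resolve_left fun e => hb e.2).resolve_left fun e => ha e.1

omit [Fintype α] in
theorem scut_old' {a b : α} (k : cutD D s w w' a b) (ha : a ≠ s) (ha' : a ≠ w) : D a b :=
  ((k.resolve_left fun e => ha' e.1).resolve_left fun e => ha e.1).1

omit [Fintype α] in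
theorem scut_cas {a b : α} (k : cutD D s w w' a b) : b = s ∨ (a = s ∧ b = w') ∨ D a b :=
  k.imp And.right (Or.imp_right And.left)

omit [Fintype α] in
/-- a walk avoiding `v` does not use the arcs entering `v` -/
theorem scut_off {u v : α} {B : Set α} {a b : α} (h : Av D B a b) (hv : v ∈ B) :
    Relation.ReflTransGen (fun a b => D a b ∧ ¬ (a = u ∧ b = v)) a b :=
  av_empty.1 (h.mono (Set.empty_subset _) fun _ _ k1 _ k2 => ⟨k1, fun e => k2 (e.2 ▸ hv)⟩)

theorem cut_av {B : Set α} (hB : s ∈ B) {a b : α} (k : Av (cutD D s w w') B a b) : Av D B a b := by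
  exact k.mono le_rfl fun _ _ e ha hb =>
    (scut_old e (fun e => ha (e ▸ hB)) fun e => hb (e ▸ hB)).1

theorem cut_last {B : Set α} {y : α} (k : Av (cutD D s w w') B s y) :
    Av D B s y ∨ Av D (B ∪ {s}) w' y := by
  exact pgev_last (fun _ _ => scut_cas) k

theorem cut_first (h : Lk D s w w') {B : Set α} {y : α} (k : Av (cutD D s w w') B y s) :
    Av D B y s ∨ Av D (B ∪ {s}) y w := by
  have k1 := av_rv.2 k
  rw [cutD_rv h] at k1
  exact (cut_last k1).imp av_rv.1 av_rv.1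

theorem cut_dom (h : Lk D s w w') {z y : α} (k : dom (cutD D s w w') s z y) : dom D s z y := by
  exact ⟨k.1, fun e => k.2 (cut_from h e)⟩

theorem cut_pdom {z y : α} (k : pdom (cutD D s w w') s z y) : pdom D s z y := by
  exact ⟨k.1, fun e => k.2 (cut_to e)⟩

theorem cut_cyc (h : Lk D s w w') {B : Set α} (k : CycA D B s) : CycA (cutD D s w w') B s := by
  obtain ⟨v, k1, k2⟩ := k
  exact ⟨v, Or.inr (Or.inr ⟨k1, h.1.symm⟩), cut_to k2⟩

theorem scut_cyc {B : Set α} {u : α} (k : CycA (cutD D s w w') B u) (hs : s ∈ B) :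
    CycA D B u ∧ u ≠ w := by
  obtain ⟨v, k1, k2⟩ := k
  have e := scut_old k1 (fun e => k2.not_mem_right (e ▸ hs)) fun e => k2.1 (e ▸ hs)
  exact ⟨⟨v, e.1, cut_av hs k2⟩, e.2⟩

theorem scut_avx (h : Lk D s w w') {a b : α} (k : Av (cutD D s w w') {s} a b) (hb : b ≠ w) :
    Av D {w} a b := by
  rcases av_last {w} k with k1 | e | ⟨_, p, rfl, -, k1, k2⟩
  · exact pbase_r (cut_av (B := {s} ∪ {w}) (Or.inl rfl) k1)
  · exact (hb e).elim
  · exact ((scut_old k1 h.1 fun e => k2.1 (Or.inl e)).2 rfl).elim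

omit [Fintype α] in
theorem scut_ibr (h : Lk D s w w') : IBr (cutD D s w w') s w s := by
  refine ⟨Or.inl ⟨rfl, rfl⟩, fun k => ?_⟩
  rcases k.cases_head with e | ⟨a, ⟨k1, k2⟩, -⟩
  · exact h.1 e
  · rcases k1 with e | e | e
    exacts [k2 e, h.1 e.1, e.2 rfl]

theorem scut_br (h : GR V D s) (hc : CutH D s w w') {u v : α} (hu : u ≠ w) (hb : OBr D s u v) :
    OBr (cutD D s w w') s u v ∨ IBr (cutD D s w w') s u v := by
  have e1 : cutD D s w w' u v := Or.inr (Or.inr ⟨hb.1, hu⟩)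
  refine or_iff_not_imp_left.2 fun k => ⟨e1, fun k' => ?_⟩
  have k1 := av_empty.2 (not_not.1 fun e => k ⟨e1, e⟩)
  have k2 := (pgev_last (E := fun a b => D a b ∧ ¬ (a = u ∧ b = v)) (x' := w')
    (fun a b e => (scut_cas e.1).imp_right (Or.imp_right fun e' => ⟨e', e.2⟩)) k1).resolve_left
    fun e => hb.2 (av_empty.1 e)
  have k3 : ¬ Relation.ReflTransGen (fun a b => D a b ∧ ¬ (a = u ∧ b = v)) s w' := fun e =>
    hb.2 (e.trans (av_empty.1 (pbase_l k2)))
  have k6 : u ≠ s := fun e => hc.en v (e ▸ hb)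
    ⟨fun e' => hu ((hc.lk.2.2.2 u).1 (e' ▸ hb.1)), fun e' => k3 (scut_off e' rfl)⟩
  have k7 := pgev_first h (h.mem _ _ hb.1).1 v
  have k8 : w' ≠ u := fun e => k3 (e ▸ k7)
  have k9 := (hc.dm u k6 ⟨k8, fun e => k3 (pgev_off e rfl)⟩).resolve_left hu
  rcases av_first ({w} ∪ {s}) (av_empty.2 k') with e | (e | e) | ⟨p, c, hc', a1, a2, -⟩
  · exact e.not_mem_right (Or.inr (Or.inr rfl))
  · exact hu e
  · exact k6 e
  have a3 : Av (fun a b => D a b ∧ ¬ (a = u ∧ b = v)) ({w} ∪ {s}) u p :=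
    (pbase_r a1).mono le_rfl fun _ _ e ha hb =>
      ⟨(scut_old e.1 (fun e => ha (Or.inr e)) fun e => hb (Or.inr e)).1, e.2⟩
  have a4 : D p c := scut_old' a2.1 (fun e => a3.not_mem_right (Or.inr e))
    fun e => a3.not_mem_right (Or.inl e)
  rcases hc' with rfl | rfl
  · exact k3 ((k7.trans ((av_empty.1 (pgev_sub a3 (Set.empty_subset _))).tail ⟨a4, a2.2⟩)).tail
      ⟨(hc.lk.2.2.1 w').2 rfl, fun e => hu e.1.symm⟩)
  · exact k9.2 (((pbase_l a3).mono le_rfl fun _ _ e _ _ => e.1).tail a4 hc.lk.1.symm)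

theorem scut_dg (hc : CutH D s w w') {u z : α} (k : CycA (cutD D s w w') {s} u) (z1 : z ≠ u)
    (z2 : z ≠ s) (z3 : ¬ CycA D {s, z} u) (z4 : dom D s z u) :
    dom (cutD D s w w') s z u ∨ pdom (cutD D s w w') s z u := by
  refine or_iff_not_imp_left.2 fun a => ⟨z1.symm, fun a' => ?_⟩
  have ux : u ≠ w := (scut_cyc k rfl).2
  have k1 := (cut_last (not_not.1 fun e => a ⟨z1.symm, e⟩)).resolve_left z4.2
  have k2 : dom D s z w' := ⟨fun e => k1.1 (Or.inl e), fun e => z4.2 (e.trans (pbase_l k1))⟩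
  have k3 : Av (cutD D s w w') {s} u z ∧ Av (cutD D s w w') {s} z u := by
    obtain ⟨v, b1, b2⟩ := k
    rcases av_first {z} b2 with e | rfl | ⟨p, _, rfl, b3, b4, b5⟩
    · exact (z3 (scut_cyc ⟨v, b1, pgev_sub e fun _ e => e⟩ (Or.inl rfl)).1).elim
    · exact ⟨(av_refl b2.not_mem_right).tail b1 z2, b2⟩
    · exact ⟨Av.head b2.not_mem_right b1 ((pbase_l b3).tail b4 z2), b5⟩
  have k4 := (scut_cyc (pgev_cyc k3.2 z1 k3.1) rfl).2
  have k6 := (hc.dm z z2 k2).resolve_left k4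
  rcases av_first ({w} ∪ {s}) a' with e | (e | e) | ⟨p, c, hc', a1, a2, -⟩
  · exact e.not_mem_right (Or.inr (Or.inr rfl))
  · exact ux e
  · exact k.not_mem e
  have a3 := cut_av (B := {z} ∪ ({w} ∪ {s})) (Or.inr (Or.inr rfl)) a1
  have a4 : D p c := scut_old' a2 (fun e => a3.not_mem_right (Or.inr (Or.inr e)))
    fun e => a3.not_mem_right (Or.inr (Or.inl e))
  rcases hc' with rfl | rfl
  · have a5 : c ∉ ({s, z} : Set α) := fun e => e.elim hc.lk.1 fun e => k4 e.symm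
    refine z3 (pgev_cyc ((pgev_sub a3 ?_).tail a4 a5) ux
      (Av.head a5 ((hc.lk.2.2.1 w').2 rfl) (pgev_sub k1 ?_)))
    · exact fun _ e => e.elim (fun e => Or.inr (Or.inr e)) Or.inl
    · exact fun _ e => e.symm
  · exact k6.2 ((scut_avx hc.lk k3.2 ux).trans ((pbase_l (pbase_r a3)).tail a4 hc.lk.1.symm))

theorem CutH.good (h : GR V D s) (hc : CutH D s w w') : GR V (cutD D s w w') s := by
  have hw := h.mem _ _ ((hc.lk.2.2.1 w').2 rfl)
  have hr := cutD_rv hc.lk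
  refine ⟨h.root, fun a b k => ?_, fun a k => ?_,
    fun y hy => av_empty.1 (cut_from hc.lk (av_empty.2 (h.fwd y hy))),
    fun y hy => av_empty.1 (cut_to (av_empty.2 (h.bwd y hy))), fun u v k => ?_, fun u k => ?_⟩
  · rcases k with ⟨rfl, rfl⟩ | ⟨rfl, rfl⟩ | ⟨e, -⟩
    exacts [⟨hw.1, h.root⟩, ⟨h.root, hw.2⟩, h.mem _ _ e]
  · rcases k with ⟨rfl, e⟩ | ⟨rfl, e⟩ | ⟨e, -⟩
    exacts [hc.lk.1 e, hc.lk.2.1 e.symm, h.irr a e]
  · rcases k with ⟨rfl, rfl⟩ | ⟨rfl, rfl⟩ | ⟨k1, k2⟩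
    · exact Or.inr (scut_ibr hc.lk)
    · refine Or.inl (ibr_rv.1 ?_)
      rw [hr]
      exact scut_ibr hc.lk.rev
    · rcases h.cr u v k1 with e | e
      · exact scut_br h hc k2 e
      · have k3 := scut_br h.rev hc.rev (fun e' => k2 ((hc.lk.2.2.2 u).1 (e' ▸ k1))) (obr_rv.2 e)
        rw [← hr] at k3
        exact k3.symm.imp ibr_rv.1 obr_rv.1
  · obtain ⟨z, z1, z2, z3, z4⟩ := h.dg u (scut_cyc k rfl).1
    refine ⟨z, z1, z2, fun e => z3 (scut_cyc e (Or.inl rfl)).1,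
      z4.elim (scut_dg hc k z1 z2 z3) fun e => ?_⟩
    have k1 := cycA_rv.2 k
    rw [hr] at k1
    have k3 := scut_dg hc.rev k1 z1 z2 (mt cycA_rv.1 z3) (dom_rv.2 e)
    rw [← hr] at k3
    exact k3.symm.imp pdom_rv.1 dom_rv.1

theorem scut_ex (h1 : Lk D s x x') (h2 : ∀ p, IBr D s p s → ¬ pdom D s p w)
    (h3 : ¬ pdom D s x w) (p : α) (k : IBr (cutD D s x x') s p s) :
    ¬ pdom (cutD D s x x') s p w := by
  intro k'
  have k1 := cut_pdom k'
  have px : p ≠ x := fun e => h3 (e ▸ k1)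
  have k2 : D p s := ((k.1.resolve_left fun e => px e.1).resolve_left fun e => h1.2.1 e.2.symm).1
  refine h2 p ⟨k2, fun e => k.2 ?_⟩ k1
  refine pbase_mono (av_empty.1 (cut_to (w := x) (w' := x') (av_empty.2 e))) ?_
  rintro a b (⟨rfl, rfl⟩ | ⟨rfl, rfl⟩ | ⟨e1, e2⟩)
  · exact ⟨Or.inl ⟨rfl, rfl⟩, fun e => px e.1.symm⟩
  · exact ⟨Or.inr (Or.inl ⟨rfl, rfl⟩), fun e => h1.2.1 e.2⟩
  · exact ⟨Or.inr (Or.inr ⟨e1.1, e2⟩), e1.2⟩

theorem CutH.second (h : GR V D s) (h1 : CutH D s x x') (h2 : CutH D s w w')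
    (hi : Inc D s x x' w w') : CutH (cutD D s x x') s w w' := by
  have hne := (hi.rev h1.lk h2.lk).ne
  refine ⟨⟨h2.lk.1, h2.lk.2.1, fun y => ⟨fun k => ?_, fun k => ?_⟩, fun u => ⟨fun k => ?_, fun k => ?_⟩⟩,
    fun z hz k => (h2.pd z hz (cut_pdom k)).imp_right fun e => ⟨e.1, fun a => ?_⟩,
    fun z hz k => (h2.dm z hz (cut_dom h1.lk k)).imp_right fun e => ⟨e.1, fun a => ?_⟩,
    scut_ex h1.lk h2.ex hi.p2, fun v k k' => ?_⟩
  · exact (h2.lk.2.2.1 y).1 (scut_old' k h2.lk.1 hi.ne)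
  · exact Or.inr (Or.inr ⟨(h2.lk.2.2.1 y).2 k, hi.ne⟩)
  · exact (h2.lk.2.2.2 u).1
      ((k.resolve_left fun e => h2.lk.2.1 e.2).resolve_left fun e => hne e.2.symm).1
  · exact Or.inr (Or.inr ⟨(h2.lk.2.2.2 u).2 k, k ▸ hi.ne⟩)
  · have a1 := pbase_l ((cut_last a).resolve_left e.2)
    exact hi.d1 ⟨a1.1, fun a2 => e.2 (a2.trans a1)⟩
  · have a1 := pbase_l ((cut_first h1.lk a).resolve_left e.2)
    exact hi.p1 ⟨a1.not_mem_right, fun a2 => e.2 (a1.trans a2)⟩
  · have k1 := scut_ex h1.lk.rev h2.rev.ex (mt pdom_rv.1 hi.d2) v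
    rw [← cutD_rv h1.lk] at k1
    exact k1 (ibr_rv.2 k) (pdom_rv.2 k')

omit [Fintype α] in
theorem scut_del {P : Finset α} {B : Set α} {a b : α} (k : Av (delD D P) B a b) : Av D B a b :=
  k.mono le_rfl fun _ _ e _ _ => e.1

omit [Fintype α] in
theorem scut_del' {P : Finset α} {a b : α} (k : Av D P a b) :
    Relation.ReflTransGen (delD D P) a b :=
  av_empty.1 (k.mono (Set.empty_subset _) fun _ _ e ha hb => ⟨e, ha, hb⟩)

theorem del_good (h : GR V D s) {P : Finset α} (hs : s ∉ P)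
    (hc : ∀ v ∈ V, v ∉ P → Av D P s v ∧ Av D P v s) : GR (V \ P) (delD D P) s := by
  have cy : ∀ B u, CycA (delD D P) B u → CycA D B u := fun B u ⟨v, k1, k2⟩ =>
    ⟨v, k1.1, scut_del k2⟩
  refine ⟨mem_sdiff.2 ⟨h.root, hs⟩, fun a b k => ⟨mem_sdiff.2 ⟨(h.mem _ _ k.1).1, k.2.1⟩,
    mem_sdiff.2 ⟨(h.mem _ _ k.1).2, k.2.2⟩⟩, fun a k => h.irr a k.1,
    fun y hy => scut_del' (hc y (mem_sdiff.1 hy).1 (mem_sdiff.1 hy).2).1,
    fun y hy => scut_del' (hc y (mem_sdiff.1 hy).1 (mem_sdiff.1 hy).2).2, fun u v k => ?_,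
    fun u k => ?_⟩
  · exact (h.cr u v k.1).imp
      (fun e => ⟨k, fun a => e.2 (pbase_mono a fun _ _ b => ⟨b.1.1, b.2⟩)⟩)
      fun e => ⟨k, fun a => e.2 (pbase_mono a fun _ _ b => ⟨b.1.1, b.2⟩)⟩
  · obtain ⟨z, z1, z2, z3, z4⟩ := h.dg u (cy _ u k)
    exact ⟨z, z1, z2, mt (cy _ u) z3, z4.imp (fun e => ⟨e.1, fun a => e.2 (scut_del a)⟩)
      fun e => ⟨e.1, fun a => e.2 (scut_del a)⟩⟩

theorem del_av {P : Finset α} {B : Set α} {a b : α} (k : Av D (B ∪ P) a b) :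
    Av (delD D P) B a b := by
  exact k.mono Set.subset_union_left fun _ _ e ha hb =>
    ⟨e, fun e => ha (Or.inr e), fun e => hb (Or.inr e)⟩

theorem GT.dom_sc (h : GR V D s) {q z : α} (hq : GT D s q) (hz : z ≠ s) (k : dom D s z q) :
    Sc D s q z := by
  by_contra e
  exact hq.2.2 (Or.inl ⟨z, hz, mt sc_rv.1 e, pdom_rv.2 k⟩)

theorem GT.pdom_sc (h : GR V D s) {q z : α} (hq : GT D s q) (hz : z ≠ s) (k : pdom D s z q) :
    Sc D s q z := by
  by_contra e
  exact hq.2.1 (Or.inl ⟨z, hz, e, k⟩)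

theorem scut_exit (h : GR V D s) (hg : GT D s x) (p : α) (k : IBr D s p s) :
    ¬ pdom D s p x := by
  intro k'
  have ps : p ≠ s := by
    rintro rfl
    exact h.irr p k.1
  have k1 := hg.pdom_sc h ps k'
  refine hg.2.1 (Or.inr ⟨p, k1, k.1, fun a y a1 a2 a3 => ?_⟩)
  by_contra a4
  refine k.2 (((scut_off (k1.symm.trans a1).1 rfl).tail ⟨a2, a4⟩).trans ?_)
  rcases av_first {s} (av_empty.2 (h.bwd y (h.mem _ _ a2).2)) with e | rfl | ⟨q, _, rfl, b1, b2, -⟩
  · exact (e.not_mem_right (Or.inr rfl)).elim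
  · exact .refl
  · refine (scut_off b1 (Or.inr rfl)).tail ⟨b2, fun e => a3 ?_⟩
    exact ⟨a1.1.tail a2 (pbase_r b1).1, (e.1 ▸ pbase_r b1).trans k1.2⟩

theorem FLink.cutH (h : GR V D s) (hl : FLink D s x x') (hg : GT D s x) (hk : Lk D s x x') :
    CutH D s x x' := by
  exact ⟨hk, fun z hz k => hl.p2 z (hg.pdom_sc h hz k) k,
    fun z hz k => hl.p1 z (hl.sc.trans ((hg.of_sc hl.sc).dom_sc h hz k)) k, scut_exit h hg,
    fun v k k' => scut_exit h.rev (hg.of_sc hl.sc).rev v (ibr_rv.2 k) (pdom_rv.2 k')⟩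

theorem fr_sub {V' : Finset α} {D' : α → α → Prop} (h : GR V' D' s)
    (hD : ∀ u v, D' u v → u ≠ s → v ≠ s → CycA D' {s} u → D u v) :
    (frames V' (matV V' D' s) s s).card ≤ (frames univ (matV univ D s) s s).card := by
  refine card_le_card fun π hπ => ?_
  obtain ⟨h1, h2, h3⟩ := mem_filter.1 hπ
  have h4 := (mem_filter.1 h1).2
  have mv : ∀ i, π i ≠ i → π (π i) ≠ π i := fun i hi e => hi (π.injective e)
  have ns : ∀ i, π i ≠ i → i ≠ s := fun i hi e => hi (by rw [e, h2])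
  have arc : ∀ i, π i ≠ i → D' (π i) i := fun i hi =>
    (h3 i (not_not.1 fun e => hi (h4 i e)) (ns i hi)).resolve_right fun e => hi e.1
  refine mem_filter.2 ⟨mem_filter.2 ⟨mem_univ _, fun a ha => (ha (mem_univ a)).elim⟩, h2,
    fun j _ hj => ?_⟩
  by_cases e : π j = j
  · exact Or.inr ⟨e, mem_univ _, e.symm ▸ hj⟩
  have key : ∀ n : ℕ, π ((π ^ (n + 1)) j) ≠ (π ^ (n + 1)) j ∧ Av D' {s} ((π ^ (n + 1)) j) (π j) := by
    intro n
    induction n with
    | zero =>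
      rw [zero_add, pow_one]
      exact ⟨mv j e, av_refl (ns _ (mv j e))⟩
    | succ n ih =>
      rw [pow_succ' π (n + 1), Equiv.Perm.mul_apply]
      exact ⟨mv _ ih.1, Av.head (ns _ (mv _ ih.1)) (arc _ ih.1) ih.2⟩
  have k1 := (key (orderOf π - 1)).2
  rw [Nat.sub_add_cancel (orderOf_pos π), pow_orderOf_eq_one, Equiv.Perm.one_apply] at k1
  exact Or.inl (hD _ _ (arc j e) (ns _ (mv j e)) hj ⟨j, arc j e, k1⟩)

end Pool.Agent.Work.MP_5391ad_co
end

-- merged part: Pool.Agent.Work.MP_5391ad_co.SLink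
section
/-! Links of a component of general type.
`flink_of_chain`: the proof of `GR.exists_flink` from a given chain, keeping the field `ax` of
`pchain_Adm`. `top_link`: `GR.exists_chain` at `y`, then `flink_of_chain`, `NoIso`,
`FLink.cutH`; `a` has no dominator other than `s` by `GT.dom_sc` and `topa`.
`CutH.enter`: an arc into `reg (rv D) s x'` from outside ends in `x'` (`dom_of_arc`).
`CutH.up`: if `z = x'` or `x'` dominates `z`, and `z` post-dominates `r` outside the region, a walk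
from `s` to `r` avoids `x'`, so every walk from `r` to `s` meets `x'`, hence `x`.
`CutH.down`: `z` dominates `x'`, so `z = x` or `x` post-dominates `z`; after the last visit of `z`
a walk to `y` avoids `x'` (otherwise `x'` would dominate `y`), hence avoids `x` unless `y = x`.
`exit_cases`: a dominator `z ≠ s` of `y` equals or dominates `p`, is comparable with `x'`, and is
not in the region of `x'`, so it dominates `x'`: `CutH.down`. If `y` has no such dominator use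
`top_link` (`y` is in the component of `x`), and suppose `y ∉ reg D s x`. If `a` dominates `x'`
then `a ∈ reg D s x` (`dm`), absurd. `a` dominates `w'`. If `x'` dominates `w'` then `a`, `x'` are
comparable, so `a` dominates `x'`; the same if `w'` dominates `x'`; `x` does not post-dominate `w`;
if `w` post-dominates `x` then `w` is in the region of `x'`, so `x'` dominates `w'`.
`exists_pair`: a walk from `x'` to `x` avoiding `s` leaves the region of `x'` (`x` dominates `x'`)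
by an arc `(p, y)`, which is not an out-bridge, so `y` post-dominates `p`. -/

namespace Pool.Agent.Work.MP_5391ad_co

open Finset
open scoped Classical

variable {α : Type*} [Fintype α] {D : α → α → Prop} {s w w' x x' : α}

theorem slink_reg {z y : α} : y ∈ reg D s z ↔ y = z ∨ pdom D s z y := by
  simp only [reg, mem_filter, mem_univ, true_and]

theorem slink_rreg {z y : α} : y ∈ reg (rv D) s z ↔ y = z ∨ dom D s z y := by
  rw [slink_reg, pdom_rv]

omit [Fintype α] in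
/-- a walk avoiding the tail of a link avoids its head, unless it starts there -/
theorem slink_av (hl : ∀ u, D u x' → u = x) {r t : α} (k : Av D {x} r t) (hr : r ≠ x') :
    Av D {x'} r t := by
  obtain ⟨k0, k1⟩ := k
  induction k1 with
  | refl => exact av_refl hr
  | tail k2 k3 ih =>
    refine ih.tail k3.1 fun e => ?_
    have e' : _ = x' := e
    exact Av.not_mem_right ⟨k0, k2⟩ (hl _ (e' ▸ k3.1))

omit [Fintype α] in
theorem slink_av' (hl : ∀ y, D x y → y = x') {r t : α} (k : Av D {x'} r t) (ht : t ≠ x) :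
    Av D {x} r t :=
  av_rv.1 (slink_av (D := rv D) hl (av_rv.2 k) ht)

theorem slink_reg_trans (h : GR univ D s) {a b y : α} (h1 : y ∈ reg D s a)
    (h2 : a = b ∨ pdom D s b a) : y ∈ reg D s b := by
  rcases h2 with rfl | h2
  · exact h1
  · rcases slink_reg.1 h1 with rfl | h1
    · exact slink_reg.2 (Or.inr h2)
    · exact slink_reg.2 (Or.inr (pchain_pdom_trans h (mem_univ _) h2 h1))

theorem flink_of_chain {V : Finset α} (h : GR V D s) {q a b : α} (hq : CycA D {s} q)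
    (hC : Chain D s q a b) :
    ∃ x x', Sc D s q x ∧ FLink D s x x' ∧ (x = a ∨ (dom D s a x ∧ pdom D s x a)) := by
  have hqV : q ∈ V := pchain_cyc_mem h hq
  have haV : a ∈ V := pchain_mem h hqV hC.sa.1
  have hbV : b ∈ V := pchain_mem h hqV hC.sb.1
  have hA0 : pchain_Adm D s q a b a b := by
    obtain ⟨z, hz1, hz2, hz3⟩ := pchain_dg h (hq.of_sc hC.sa)
    obtain ⟨z', hz1', hz2', hz3'⟩ := pchain_dg h (hq.of_sc hC.sb)
    exact ⟨hC.sa, hC.sb, Or.inl rfl, Or.inl rfl, hC.ab, hC.ba,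
      ⟨z, hz3.resolve_left (hC.topa z (hC.sa.trans hz1)), hz2⟩,
      ⟨z', hz3'.resolve_right (hC.topb z' (hC.sb.trans hz1')), hz2'⟩⟩
  obtain ⟨x, y, hA, hno⟩ := pchain_min h hq ⟨haV, hbV⟩ _ a b hA0 rfl
  have hxV : x ∈ V := pchain_mem h hqV hA.sx.1
  have hyV : y ∈ V := pchain_mem h hqV hA.sy.1
  have hno' : ∀ w ∈ V, pdom D s y w → ¬ pdom D s w x := fun w hw h1 h2 =>
    hno w hw (pchain_btw' h hw hxV h1 h2 hA.dm).1 (pchain_btw' h hw hxV h1 h2 hA.dm).2
  refine ⟨x, y, hA.sx, ⟨hA.sx.symm.trans hA.sy, hA.dm, hA.pd, fun hc => ?_,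
    fun hc => ?_, fun z hz hzy => ?_, fun z hz hzx => ?_⟩, hA.ax⟩
  · obtain ⟨z, hz1, hz2⟩ := hA.zx
    obtain ⟨h1, _⟩ := pchain_cyc_meet hc (Or.inl rfl) hz2
    have hzV : z ∈ V := pchain_mem h hxV h1
    have h2 : Av D {y} x z := pchain_mono h1 (fun t ht => Or.inr ht)
    have hzy : z ≠ y := h2.not_mem_right
    rcases pchain_pdom_total h hxV hz1 hA.pd with h3 | h3 | h3
    · exact hzy h3
    · exact hA.pd.2 (h2.trans (pchain_not_pdom hzy (pchain_pdom_asymm h hyV h3)))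
    · exact hno' z hzV h3 hz1
  · obtain ⟨z, hz1, hz2⟩ := hA.zy
    obtain ⟨h0, h1⟩ := pchain_cyc_meet hc (Or.inl rfl) hz2
    have hzV : z ∈ V := pchain_mem h hyV h0
    have h2 : Av D {x} z y := pchain_mono h1 (fun t ht => Or.inr ht)
    have hzx : z ≠ x := h2.1
    rcases h.dom_total hyV hz1 hA.dm with h3 | h3 | h3
    · exact hzx h3
    · exact hA.dm.2 ((pchain_not_dom hzx (h.dom_asymm hxV h3)).trans h2)
    · exact hno z hzV h3 hz1
  · have hqz : Sc D s q z := hA.sx.trans hz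
    have hzV : z ∈ V := pchain_mem h hqV hqz.1
    rcases h.dom_total hyV hzy hA.dm with h3 | h3 | h3
    · exact Or.inl h3
    · right
      rcases hA.ax with rfl | ⟨h5, h6⟩
      · exact absurd h3 (hC.topa z hqz)
      · rcases h.dom_total hxV h3 h5 with rfl | h7 | h7
        · exact h6
        · exact absurd h7 (hC.topa z hqz)
        · exact (pchain_btw h hzV hxV h7 h3 h6).1
    · exact absurd hzy (hno z hzV h3)
  · have hqz : Sc D s q z := hA.sx.trans hz
    have hzV : z ∈ V := pchain_mem h hqV hqz.1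
    rcases pchain_pdom_total h hxV hzx hA.pd with h3 | h3 | h3
    · exact Or.inl h3
    · right
      rcases hA.yb with rfl | ⟨h5, h6⟩
      · exact absurd h3 (hC.topb z hqz)
      · rcases pchain_pdom_total h hyV h3 h5 with rfl | h7 | h7
        · exact h6
        · exact absurd h7 (hC.topb z hqz)
        · exact (pchain_btw' h hzV hyV h7 h3 h6).1
    · exact absurd hzx (hno' z hzV h3)

theorem top_link (h : GR univ D s) (hn : NoIso D s) {y : α} (hy : GT D s y)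
    (ht : ∀ z, z ≠ s → ¬ dom D s z y) :
    ∃ a w w', CutH D s w w' ∧ Sc D s y w ∧ y ∈ reg D s a ∧ a ≠ s ∧
      (∀ z, z ≠ s → ¬ dom D s z a) ∧ (w = a ∨ (dom D s a w ∧ pdom D s w a)) := by
  obtain ⟨a, b, hC⟩ := h.exists_chain hy.1 fun z hz => ht z hz.2.1
  obtain ⟨w, w', h1, h2, h3⟩ := flink_of_chain h hy.1 hC
  have hw : GT D s w := hy.of_sc h1
  refine ⟨a, w, w', h2.cutH h hw (hn w w' h2 hw), h1, slink_reg.2 (hC.qa.imp Eq.symm id),
    hC.sa.2.1, fun z hz k => hC.topa z (hC.sa.trans ((hy.of_sc hC.sa).dom_sc h hz k)) k, h3⟩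

omit [Fintype α] in
theorem slink_dom {V : Finset α} (h : GR V D s) (h1 : x' ≠ s) (h2 : ∀ u, D u x' ↔ u = x) :
    dom D s x x' := by
  refine ⟨fun e => h.irr x (e ▸ (h2 x).2 rfl), fun k => ?_⟩
  rcases k.2.cases_tail with e | ⟨c, k1, k2⟩
  · exact h1 e
  · exact Av.not_mem_right ⟨k.1, k1⟩ ((h2 c).1 k2.1)

theorem Lk.dm (h : GR univ D s) (hl : Lk D s x x') : dom D s x x' ∧ pdom D s x' x :=
  ⟨slink_dom h hl.2.1 hl.2.2.2, dom_rv.1 (slink_dom h.rev hl.1 hl.2.2.1)⟩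

theorem Lk.enter (hl : Lk D s x x') {u p : α} (hp : p ∈ reg (rv D) s x')
    (hu : u ∉ reg (rv D) s x') (k : D u p) : u = x ∧ p = x' := by
  rcases slink_rreg.1 hp with rfl | hp
  · exact ⟨(hl.2.2.2 u).1 k, rfl⟩
  · exact absurd (slink_rreg.2 (dom_of_arc hp k)) hu

theorem Lk.up (hl : Lk D s x x') {z r : α} (hz : z ∈ reg (rv D) s x') (k : pdom D s z r) :
    r ∈ reg (rv D) s x' ∨ r ∈ reg D s x := by
  by_contra hc
  rw [not_or, slink_rreg, slink_reg, not_or, not_or] at hc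
  obtain ⟨⟨h1, h2⟩, h3, h4⟩ := hc
  have h5 : Av D {x'} r s := slink_av (fun u => (hl.2.2.2 u).1) (pchain_not_pdom h3 h4) h1
  have h6 : Av D {x'} s z := (pchain_not_dom h1 h2).trans (pchain_pdom_meet k h5).1
  rcases slink_rreg.1 hz with e | e
  · exact h6.not_mem_right e
  · exact e.2 h6

theorem CutH.down (h : GR univ D s) (hc : CutH D s x x') {z y : α} (hz : z ≠ s)
    (h1 : dom D s z x') (h2 : dom D s z y) : y ∈ reg (rv D) s x' ∨ y ∈ reg D s x := by
  have _ := h.root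
  by_contra hn
  rw [not_or, slink_rreg, slink_reg, not_or, not_or] at hn
  obtain ⟨⟨h3, h4⟩, h5, h6⟩ := hn
  have h7 : Av D {x} z y := slink_av' (fun u => (hc.lk.2.2.1 u).1)
    (pchain_dom_meet h2 (pchain_not_dom h3 h4)).2 h5
  have h8 : Av D {x} z s := h7.trans (pchain_not_pdom h5 h6)
  rcases hc.dm z hz h1 with e | e
  · exact h8.1 e
  · exact e.2 h8

theorem exit_cases (h : GR univ D s) (hn : NoIso D s) (hc : CutH D s x x') (hg : GT D s x)
    {p y : α} (hp : p ∈ reg (rv D) s x') (hy : y ∉ reg (rv D) s x') (k : D p y)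
    (ha : Av D {s} y x) : y ∈ reg D s x ∨ ∃ w w', CutH D s w w' ∧ Sc D s x w ∧ y ∈ reg D s w ∧
      Inc D s x x' w w' := by
  have hp' := slink_rreg.1 hp
  have hy2 : ¬ dom D s x' y := fun e => hy (slink_rreg.2 (Or.inr e))
  by_cases hex : ∃ z, z ≠ s ∧ dom D s z y
  · obtain ⟨z, hz, hzy⟩ := hex
    have n1 : z ≠ x' := fun e => hy2 (e ▸ hzy)
    have n2 : ¬ dom D s x' z := fun e => hy2 (h.dom_trans (mem_univ _) e hzy)
    have hzx : dom D s z x' := by
      rcases dom_of_arc hzy k with rfl | e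
      · exact absurd hp' (not_or.2 ⟨n1, n2⟩)
      · rcases hp' with rfl | e'
        · exact e
        · exact ((h.dom_total (mem_univ _) e e').resolve_left n1).resolve_right n2
    exact Or.inl ((hc.down h hz hzx hzy).resolve_left hy)
  · have hx'p : Av D {s} x' p := by
      rcases hp' with rfl | e
      · exact av_refl hc.lk.2.1
      · exact (h.av_of_dom (mem_univ _) hc.lk.2.1 e).2
    have hxy : Sc D s x y :=
      ⟨Av.head hc.lk.1 ((hc.lk.2.2.1 x').2 rfl) (hx'p.tail k ha.1), ha⟩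
    obtain ⟨a, w, w', c1, c2, c3, c4, c5, c6⟩ :=
      top_link h hn (hg.of_sc hxy) fun z hz e => hex ⟨z, hz, e⟩
    by_cases hyx : y ∈ reg D s x
    · exact Or.inl hyx
    have hyw : y ∈ reg D s w := slink_reg_trans h c3 (c6.imp Eq.symm And.right)
    have hww := (c1.lk.dm h).1
    have hax : ¬ dom D s a x' := fun e => hyx (slink_reg_trans h c3 (hc.dm a c4 e))
    have haw : dom D s a w' := by
      rcases c6 with rfl | e
      · exact hww
      · exact h.dom_trans (mem_univ _) e.1 hww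
    have d2 : ¬ dom D s x' w' := by
      intro e
      rcases h.dom_total (mem_univ _) haw e with rfl | e' | e'
      · exact c5 x hc.lk.1 (hc.lk.dm h).1
      · exact hax e'
      · exact c5 x' hc.lk.2.1 e'
    refine Or.inr ⟨w, w', c1, hxy.trans c2, hyw, fun e => hyx (e ▸ hyw),
      fun e => hax (h.dom_trans (mem_univ _) haw e), d2, fun e => d2 ?_,
      fun e => hyx (slink_reg_trans h hyw (Or.inr e))⟩
    rcases hc.pd w c1.lk.1 e with rfl | e'
    · exact hww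
    · exact h.dom_trans (mem_univ _) e' hww

theorem exists_pair (h : GR univ D s) (hn : NoIso D s) (hc : CutH D s x x') (hg : GT D s x) :
    ∃ w w', CutH D s w w' ∧ Sc D s x w ∧ ((w = x ∧ w' = x') ∨ Inc D s x x' w w') ∧
      ∃ p, dom D s x' p ∧ pdom D s w p := by
  obtain ⟨d1, d2⟩ := hc.lk.dm h
  obtain ⟨v, hv, hw⟩ := hg.1
  rw [(hc.lk.2.2.1 v).1 hv] at hw
  have hx : x ∉ reg (rv D) s x' := fun e => by
    rcases slink_rreg.1 e with e | e
    · exact d1.1 e.symm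
    · exact h.dom_asymm (mem_univ _) d1 e
  rcases av_first {t | t ∉ reg (rv D) s x'} hw with k | k | ⟨p, y, hy, k1, k2, k3⟩
  · exact absurd (Or.inr hx) k.not_mem_right
  · exact absurd (slink_rreg.2 (Or.inl rfl)) k
  have hp : p ∈ reg (rv D) s x' := by
    by_contra e
    exact k1.not_mem_right (Or.inr e)
  have hyp : pdom D s y p := by
    rcases h.cr p y k2 with e | e
    · refine absurd (slink_rreg.2 (Or.inr ?_)) hy
      rcases slink_rreg.1 hp with rfl | e'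
      · exact h.dom_of_obr e
      · exact h.dom_trans (mem_univ _) e' (h.dom_of_obr e)
    · exact dom_rv.1 (h.rev.dom_of_obr (obr_rv.2 e))
  have key : ∀ w, y ∈ reg D s w → ¬ pdom D s w x → dom D s x' p ∧ pdom D s w p := by
    intro w h1 h2
    have h3 : pdom D s w p := by
      rcases slink_reg.1 h1 with rfl | e
      · exact hyp
      · exact pchain_pdom_trans h (mem_univ _) e hyp
    refine ⟨(slink_rreg.1 hp).resolve_left fun e => h2 ?_, h3⟩
    exact pchain_pdom_trans h (mem_univ _) (e ▸ h3) d2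
  rcases exit_cases h hn hc hg hp hy k2 k3 with e | ⟨w, w', c1, c2, c3, c4⟩
  · exact ⟨x, x', hc, ⟨av_refl hc.lk.1, av_refl hc.lk.1⟩, Or.inl ⟨rfl, rfl⟩, p,
      key x e fun e' => e'.1 rfl⟩
  · exact ⟨w, w', c1, c2, Or.inr c4, p, key w c3 c4.p1⟩

theorem empty_link (h : GR univ D s) (hl : FLink D s x x') (he : linkX univ D x x' = ∅) :
    Lk D s x x' := by
  obtain ⟨-, -, -, h1, h2, -⟩ := h.flink_closed hl
  rw [he] at h1 h2
  have k1 : ∀ y, D x y → y = x' := fun y e =>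
    (h1 x y (Or.inl rfl) e).resolve_right (notMem_empty _)
  have k2 : ∀ u, D u x' → u = x := fun u e =>
    (h2 u x' (Or.inl rfl) e).resolve_right (notMem_empty _)
  obtain ⟨y, hy⟩ := h.rev.exists_in (mem_univ x) hl.sc.1.1
  have k : D x x' := k1 y hy ▸ hy
  exact ⟨hl.sc.1.1, hl.sc.2.1, fun y => ⟨k1 y, fun e => e ▸ k⟩, fun u => ⟨k2 u, fun e => e ▸ k⟩⟩

end Pool.Agent.Work.MP_5391ad_co
end

-- merged part: Pool.Agent.Work.MP_5391ad_co.SG1a
section
/-! Removal of the region `P = reg (rv D) s x'` of a link ` (x, x')`; `x` becomes a sink. The arcs of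
`g1D` are ` (x, s)` and the arcs of `D` outside `P` (`g1_arc`). `P` is only entered by the link
(`Lk.enter`), so a walk which starts outside `P` meets `x` before `P`.
`g1_good`: `CutH.good`, `del_good`. `g1_tc`: an in-bridge ` (u, y)` of `g1D`, `y ≠ s`, has `u ≠ x`,
and `g1_to` for `D` without the arc shows that it is an in-bridge of `D`.
`g1_exit`: let ` (p, y)` leave `P`, `y ≠ s`, `y ≠ x`. `y` has an in-arc ` (u, y)` with `u ∉ P`
(a walk from `s` avoids `x'`), an arc of `g1D`. If it is an out-bridge then `y` dominates `p`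
(`GR.dom_of_obr_other`), hence `x'`, hence `x`, also in `g1D` (`g1_from'`). Otherwise it is an
in-bridge of `D` and of `g1D` (a walk from `u` to `x` without the arc would make `u` a
post-dominator of `x`, so `u ∈ P` by `pd`; `u ≠ s`), so `y ∈ TC`. For `Yset`: a non-ancestor stays
one (`g1_av`). For an ancestor use `exit_cases`: `reg D s x \ P ⊆ reg g1D s x`; for the other link
`w, w' ∉ P` (`Inc.d2`, `w' ≠ x'`, `Lk.dm`), it is a link of `g1D`, `g1_anc`, `g1_pdom'`.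
`g1_ys`: non-ancestors by `g1_anc`, regions by `g1_pdom`. A link ` (w, w')` of `g1D` with
`Av g1D {s} w x` has `w ≠ x` and `w'` is the only out-neighbour of `w` in `D`; either it is a link
of `D`, or `w'` has an in-arc from `P`, and `exit_cases` puts `w'` into the region of a link tail.
`g1_code`: `GR.exists_code` with `a = x`, `g = s`, `f = none`, `Y = Y1`; an exit arc is not an
out-bridge. `ext`: a walk from `x'` to `s` leaves `P`. `pos`: let `b` be a top post-dominator of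
`x'` (`exists_top` of MGrp); `b ∈ P` by `pd`; a target `y` of `b` post-dominates `b`, so `y = s`,
against `ex`; so `b ∈ H` by `Val0.ear`. `opn`: an ear `e` with target `y ∉ H` has `y ∉ P`; its
parent `u` is not `x` (that arc is an in-bridge), so `u ∈ H`. Let ` (u, y')` be the target arc of
`u`, an in-bridge, `y' ≠ e`. Then `u` post-dominates `y`; a walk from `y` to `s` meets `x` before
`u ∈ P`, so `u` post-dominates `x`; so does `y'`, `y' ≠ s` by `ex`, `y' ∈ P` by `pd`, and the arc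
is not an out-bridge: a walk from `x` to `y'` avoids it. If this walk avoids `u`, then `u`
post-dominates `y'`, absurd; otherwise `u` reaches `y'`, then `s`, without the arc. -/

namespace Pool.Agent.Work.MP_5391ad_co

open Finset
open scoped Classical

variable {α : Type*} [Fintype α] {D : α → α → Prop} {s x x' : α}

/-- cut the link and delete the region of its head -/
def g1D (D : α → α → Prop) (s x x' : α) : α → α → Prop :=
  delD (cutD D s x x') (reg (rv D) s x')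

theorem sg1a_mem {y : α} : y ∈ reg (rv D) s x' ↔ y = x' ∨ dom D s x' y := by
  rw [mgrp_mem, pdom_rv]

theorem sg1a_self : x' ∈ reg (rv D) s x' := sg1a_mem.2 (Or.inl rfl)

theorem sg1a_av {y : α} (hy : y ∉ reg (rv D) s x') : Av D {x'} s y := by
  by_contra k
  exact hy (sg1a_mem.2 (Or.inr ⟨fun e => hy (sg1a_mem.2 (Or.inl e)), k⟩))

theorem sg1a_av' {y : α} (k : Av D {x'} s y) : y ∉ reg (rv D) s x' := by
  intro hy
  rcases sg1a_mem.1 hy with e | e
  · exact k.not_mem_right e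
  · exact e.2 k

omit [Fintype α] in
theorem sg1a_arc {u v a b : α} (k : Av D {u} a b) :
    Relation.ReflTransGen (fun c d => D c d ∧ ¬ (c = u ∧ d = v)) a b := by
  have k' : Av (fun c d => D c d ∧ ¬ (c = u ∧ d = v)) ∅ a b :=
    k.mono (Set.empty_subset _) fun c d k1 k2 _ => ⟨k1, fun e => k2 e.1⟩
  exact av_empty.1 k'

omit [Fintype α] in
theorem sg1a_del {P : Finset α} {B : Set α} {a b : α} (k : Av (delD D P) B a b) (ha : a ∉ P) :
    Av D P a b := by
  refine ⟨ha, ?_⟩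
  obtain ⟨-, k⟩ := k
  induction k with
  | refl => exact .refl
  | tail _ k2 ih => exact ih.tail ⟨k2.1.1, k2.1.2.2⟩

theorem sg1a_ibr (h : GR univ D s) {u v : α} (k : IBr D s u v) : pdom D s v u :=
  dom_rv.1 (h.rev.dom_of_obr (obr_rv.2 k))

theorem sg1a_asymm (h : GR univ D s) {u v : α} (k : pdom D s u v) : ¬ pdom D s v u := fun k' =>
  h.rev.dom_asymm (mem_univ _) (dom_rv.2 k) (dom_rv.2 k')

theorem sg1a_reg (h : GR univ D s) {y a b : α} (k1 : y ∈ reg D s a) (k2 : a ∈ reg D s b) :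
    y ∈ reg D s b := by
  rcases mgrp_mem.1 k1 with rfl | k1
  · exact k2
  rcases mgrp_mem.1 k2 with rfl | k2
  · exact mgrp_mem.2 (Or.inr k1)
  · exact mgrp_mem.2 (Or.inr (mgrp_trans h (mem_univ _) k2 k1))

theorem sg1a_down (h : GR univ D s) {p y : α} (hp : p ∈ reg (rv D) s x') (k : dom D s p y) :
    dom D s x' y := by
  rcases sg1a_mem.1 hp with rfl | e
  · exact k
  · exact h.dom_trans (mem_univ _) e k

variable (h : GR univ D s) (hc : CutH D s x x')
include h hc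

theorem g1_mem : s ∉ reg (rv D) s x' ∧ x ∉ reg (rv D) s x' := by
  refine ⟨fun k => ?_, fun k => ?_⟩
  · rcases sg1a_mem.1 k with e | e
    · exact hc.lk.2.1 e.symm
    · exact not_dom_root e
  · rcases sg1a_mem.1 k with e | e
    · exact h.irr x ((hc.lk.2.2.1 x).2 e)
    · exact h.dom_asymm (mem_univ _) (hc.lk.dm h).1 e

theorem g1_arc {u v : α} : g1D D s x x' u v ↔
    (u = x ∧ v = s) ∨ (D u v ∧ u ∉ reg (rv D) s x' ∧ v ∉ reg (rv D) s x') := by
  obtain ⟨h1, h2⟩ := g1_mem h hc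
  constructor
  · rintro ⟨k | k | k, k1, k2⟩
    · exact Or.inl k
    · exact absurd (k.2 ▸ sg1a_self) k2
    · exact Or.inr ⟨k.1, k1, k2⟩
  · rintro (⟨rfl, rfl⟩ | ⟨k, k1, k2⟩)
    · exact ⟨Or.inl ⟨rfl, rfl⟩, h2, h1⟩
    · refine ⟨Or.inr (Or.inr ⟨k, fun e => k2 ?_⟩), k1, k2⟩
      rw [(hc.lk.2.2.1 v).1 (e ▸ k)]
      exact sg1a_self

theorem sg1a_walk (Q : α → α → Prop) {y z : α} (hy : y ∉ reg (rv D) s x')
    (k : Relation.ReflTransGen (fun a b => D a b ∧ Q a b) y z) :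
    (Relation.ReflTransGen (fun a b => g1D D s x x' a b ∧ Q a b) y z ∧ z ∉ reg (rv D) s x') ∨
      (Relation.ReflTransGen (fun a b => g1D D s x x' a b ∧ Q a b) y x ∧ Q x x' ∧
        Relation.ReflTransGen (fun a b => D a b ∧ Q a b) x' z) := by
  induction k with
  | refl => exact Or.inl ⟨.refl, hy⟩
  | @tail b c _ k2 ih =>
    rcases ih with ⟨k3, k4⟩ | ⟨k3, k4, k5⟩
    · by_cases e : c ∈ reg (rv D) s x'
      · obtain ⟨rfl, rfl⟩ := hc.lk.enter e k4 k2.1
        exact Or.inr ⟨k3, k2.2, .refl⟩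
      · exact Or.inl ⟨k3.tail ⟨(g1_arc h hc).2 (Or.inr ⟨k2.1, k4, e⟩), k2.2⟩, e⟩
    · exact Or.inr ⟨k3, k4, k5.tail k2⟩

theorem sg1a_back (Q : α → α → Prop) {y z : α}
    (k : Relation.ReflTransGen (fun a b => g1D D s x x' a b ∧ Q a b) y z) :
    Relation.ReflTransGen (fun a b => D a b ∧ Q a b) y z ∨
      Relation.ReflTransGen (fun a b => D a b ∧ Q a b) y x := by
  induction k with
  | refl => exact Or.inl .refl
  | @tail b c _ k2 ih =>
    rcases ih with k3 | k3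
    · rcases (g1_arc h hc).1 k2.1 with e | e
      · exact Or.inr (e.1 ▸ k3)
      · exact Or.inl (k3.tail ⟨e.1, k2.2⟩)
    · exact Or.inr k3

theorem sg1a_wk {B : Set α} {y z : α} (hy : y ∉ reg (rv D) s x') (k : Av D B y z) :
    Av (g1D D s x x') B y z ∨ (Av (g1D D s x x') B y x ∧ Av D B x' z) := by
  rcases sg1a_walk h hc (fun _ b => b ∉ B) hy k.2 with k1 | k1
  · exact Or.inl ⟨k.1, k1.1⟩
  · exact Or.inr ⟨⟨k.1, k1.1⟩, k1.2.1, k1.2.2⟩

theorem sg1a_in {B : Set α} (hB : s ∈ B) {a b : α} (k : Av (g1D D s x x') B a b) : Av D B a b :=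
  k.mono subset_rfl fun _ _ k1 _ k3 =>
    ((g1_arc h hc).1 k1).elim (fun e => absurd (e.2 ▸ hB) k3) fun e => e.1

omit h in
theorem sg1a_esc {z : α} (hz : z ∉ reg (rv D) s x') (hs : z ≠ s) (hx : x ≠ z) : Av D {z} x s := by
  by_contra k
  exact hz (sg1a_mem.2 (hc.pd z hs ⟨hx, k⟩))

theorem g1_to {B : Set α} {y : α} (hy : y ∉ reg (rv D) s x') (k : Av D B y s) :
    Av (g1D D s x x') B y s := by
  rcases sg1a_wk h hc hy k with k1 | k1
  · exact k1
  · exact k1.1.tail ((g1_arc h hc).2 (Or.inl ⟨rfl, rfl⟩)) k.not_mem_right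

theorem g1_from {B : Set α} {y : α} (k : Av D B s y) :
    Av (g1D D s x x') B s y ∨ y ∈ desc D s x := by
  obtain ⟨h1, h2⟩ := g1_mem h hc
  rcases av_last {s} k with k1 | k1 | ⟨c, p, k1, -, k3, k4⟩
  · exact absurd (Or.inr rfl) k1.1
  · rw [show y = s from k1]
    exact Or.inl (av_refl k.1)
  · rw [show c = s from k1] at k3
    have hp : p ∉ reg (rv D) s x' := fun e => hc.lk.1 (hc.lk.enter e h1 k3).1.symm
    rcases sg1a_wk h hc hp k4 with k5 | k5
    · exact Or.inl (Av.head k.1 ((g1_arc h hc).2 (Or.inr ⟨k3, h1, hp⟩)) (pbase_l k5))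
    · refine Or.inr (mem_filter.2 ⟨mem_univ _, ?_⟩)
      exact Av.head hc.lk.1 ((hc.lk.2.2.1 x').2 rfl) (pbase_r k5.2)

theorem g1_from' {B : Set α} {y : α} (k : Av (g1D D s x x') B s y) : Av D B s y := by
  rcases av_last {s} k with k1 | k1 | ⟨c, p, k1, -, k3, k4⟩
  · exact absurd (Or.inr rfl) k1.1
  · rw [show y = s from k1]
    exact av_refl k.1
  · rw [show c = s from k1] at k3
    rcases (g1_arc h hc).1 k3 with e | e
    · exact absurd e.1.symm hc.lk.1
    · exact Av.head k.1 e.1 (pbase_l (sg1a_in h hc (Or.inr rfl) k4))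

theorem g1_av {a b : α} (k : Av (g1D D s x x') {s} a b) : Av D {s} a b :=
  sg1a_in h hc (Set.mem_singleton s) k

theorem g1_anc {B : Set α} {y : α} (hy : y ∉ reg (rv D) s x') (k : Av D B y x) :
    Av (g1D D s x x') B y x :=
  (sg1a_wk h hc hy k).elim id fun k1 => k1.1

theorem g1_good : GR (univ \ reg (rv D) s x') (g1D D s x x') s := by
  obtain ⟨h1, -⟩ := g1_mem h hc
  refine del_good (hc.good h) h1 fun v _ hv => ⟨?_, ?_⟩
  · rcases sg1a_wk h hc h1 (sg1a_av hv) with k | k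
    · exact sg1a_del k h1
    · exact absurd rfl k.2.1
  · exact sg1a_del (g1_to h hc hv (av_empty.2 (h.bwd v (mem_univ _)))) hv

theorem g1_pdom {z y : α} (hy : y ∉ reg (rv D) s x') (k : pdom (g1D D s x x') s z y) :
    pdom D s z y := ⟨k.1, fun a => k.2 (g1_to h hc hy a)⟩

theorem g1_pdom' {z y : α} (hz : z ∉ reg (rv D) s x') (hs : z ≠ s) (k : pdom D s z y) :
    pdom (g1D D s x x') s z y := by
  refine ⟨k.1, fun a => k.2 ?_⟩
  rcases sg1a_back h hc (fun _ b => b ∉ ({z} : Set α)) a.2 with k1 | k1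
  · exact ⟨a.1, k1⟩
  · have k2 : Av D {z} y x := ⟨a.1, k1⟩
    exact k2.trans (sg1a_esc hc hz hs k2.not_mem_right)

theorem g1_tc : TC (g1D D s x x') s ⊆ TC D s \ reg (rv D) s x' := by
  intro y hy
  obtain ⟨hs, k⟩ := (mem_filter.1 hy).2
  have e : ∀ u, g1D D s x x' u y → D u y ∧ u ∉ reg (rv D) s x' ∧ y ∉ reg (rv D) s x' :=
    fun u k => ((g1_arc h hc).1 k).resolve_left fun e => hs e.2
  rcases k with ⟨a, a', k1, k2, k3⟩ | ⟨u, k1, k2⟩
  · exact mem_sdiff.2 ⟨mem_filter.2 ⟨mem_univ _, hs, Or.inl ⟨a, a', k1, (e a k2).1, (e a' k3).1⟩⟩,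
      (e a k2).2.2⟩
  · refine mem_sdiff.2 ⟨mem_filter.2 ⟨mem_univ _, hs, Or.inr ⟨u, (e u k1).1, fun k3 => k2 ?_⟩⟩,
      (e u k1).2.2⟩
    rcases sg1a_walk h hc (fun a b => ¬ (a = u ∧ b = y)) (e u k1).2.1 k3 with k4 | k4
    · exact k4.1
    · exact k4.1.tail ⟨(g1_arc h hc).2 (Or.inl ⟨rfl, rfl⟩), fun e => hs e.2.symm⟩

theorem sg1a_lk {w w' : α} (hl : Lk D s w w') (hi : Inc D s x x' w w') :
    w ∉ reg (rv D) s x' ∧ Lk (g1D D s x x') s w w' := by
  have a1 : w' ∉ reg (rv D) s x' := fun e => by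
    rcases sg1a_mem.1 e with e | e
    · exact hi.ne ((hc.lk.2.2.2 w).1 (e ▸ (hl.2.2.1 w').2 rfl))
    · exact hi.d2 e
  have a2 : w ∉ reg (rv D) s x' := fun e => hi.d2 (sg1a_down h e (hl.dm h).1)
  have a3 : g1D D s x x' w w' := (g1_arc h hc).2 (Or.inr ⟨(hl.2.2.1 w').2 rfl, a2, a1⟩)
  refine ⟨a2, hl.1, hl.2.1, fun y => ⟨fun k => ?_, fun k => k ▸ a3⟩,
    fun u => ⟨fun k => ?_, fun k => k ▸ a3⟩⟩
  · exact (hl.2.2.1 y).1 (((g1_arc h hc).1 k).resolve_left fun e => hi.ne e.1).1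
  · exact (hl.2.2.2 u).1 (((g1_arc h hc).1 k).resolve_left fun e => hl.2.1 e.2).1

theorem sg1a_regG {z y : α} (hz : z ∉ reg (rv D) s x') (hs : z ≠ s) (k : y ∈ reg D s z) :
    y ∈ reg (g1D D s x x') s z :=
  mgrp_mem.2 ((mgrp_mem.1 k).imp_right (g1_pdom' h hc hz hs))

theorem sg1a_regD {z y : α} (hy : y ∉ reg (rv D) s x') (k : y ∈ reg (g1D D s x x') s z) :
    y ∈ reg D s z :=
  mgrp_mem.2 ((mgrp_mem.1 k).imp_right (g1_pdom h hc hy))

theorem g1_exit (hn : NoIso D s) (hg : GT D s x) {p y : α} (hp : p ∈ reg (rv D) s x')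
    (hy : y ∉ reg (rv D) s x') (k : D p y) : y ∈ Y1 (g1D D s x x') s x := by
  obtain ⟨h1, h2⟩ := g1_mem h hc
  by_cases hx : y = x
  · exact mem_insert.2 (Or.inl hx)
  by_cases hs : y = s
  · exact mem_insert.2 (Or.inr (mem_insert.2 (Or.inl hs)))
  refine mem_insert.2 (Or.inr (mem_insert.2 (Or.inr (mem_union.2 ?_))))
  obtain ⟨u, hu, ku⟩ : ∃ u, u ∉ reg (rv D) s x' ∧ D u y := by
    obtain ⟨a1, a2⟩ := sg1a_av hy
    rcases a2.cases_tail with e | ⟨u, e1, e2⟩
    · exact absurd e hs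
    · exact ⟨u, sg1a_av' ⟨a1, e1⟩, e2.1⟩
  rcases h.cr u y ku with k1 | k1
  · have a1 : dom D s y p := h.dom_of_obr_other k1 k fun e => hu (e ▸ hp)
    have a2 : dom D s y x' := by
      rcases sg1a_mem.1 hp with e | e
      · exact e ▸ a1
      · rcases h.dom_total (mem_univ _) a1 e with e' | e' | e'
        · exact absurd (sg1a_mem.2 (Or.inl e')) hy
        · exact e'
        · exact absurd (sg1a_mem.2 (Or.inr e')) hy
    have a3 : dom D s y x :=
      (dom_of_arc a2 ((hc.lk.2.2.1 x').2 rfl)).resolve_left fun e => hx e.symm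
    exact Or.inr (mem_filter.2 ⟨mem_univ _, hs, a3.1, fun a => a3.2 (g1_from' h hc a)⟩)
  refine Or.inl (mem_inter.2 ⟨mem_filter.2 ⟨mem_univ _, hs, Or.inr ⟨u,
    (g1_arc h hc).2 (Or.inr ⟨ku, hu, hy⟩), fun a => k1.2 ?_⟩⟩, mem_filter.2 ⟨mem_univ _, ?_⟩⟩)
  · rcases sg1a_back h hc (fun a b => ¬ (a = u ∧ b = y)) a with k2 | k2
    · exact k2
    · refine k2.trans (sg1a_arc (sg1a_esc hc hu (fun e => k1.2 (e ▸ .refl)) fun e => hy ?_))
      rw [(hc.lk.2.2.1 y).1 (e ▸ ku)]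
      exact sg1a_self
  · by_cases ha : Av D {s} y x
    · rcases exit_cases h hn hc hg hp hy k ha with e | ⟨w, w', e1, e2, e3, e4⟩
      · exact Or.inr (Or.inl (sg1a_regG h hc h2 hc.lk.1 e))
      · obtain ⟨a1, a2⟩ := sg1a_lk h hc e1.lk e4
        exact Or.inr (Or.inr ⟨w, w', a2, g1_anc h hc a1 e2.2, sg1a_regG h hc a1 e1.lk.1 e3⟩)
    · exact Or.inl fun a => ha (g1_av h hc a)

theorem g1_ys (hn : NoIso D s) (hg : GT D s x) {y : α} (hy : y ∉ reg (rv D) s x')
    (k : y ∈ Yset (g1D D s x x') s x) : y ∈ Yset D s x := by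
  refine mem_filter.2 ⟨mem_univ _, ?_⟩
  rcases (mem_filter.1 k).2 with k1 | k1 | ⟨w, w', k1, k2, k3⟩
  · exact Or.inl fun a => k1 (g1_anc h hc hy a)
  · exact Or.inr (Or.inl (sg1a_regD h hc hy k1))
  obtain ⟨a1, a2, a3⟩ :=
    ((g1_arc h hc).1 ((k1.2.2.1 w').2 rfl)).resolve_left fun e => k1.2.1 e.2
  have a4 : w ≠ x := fun e => a3 (by
    rw [(hc.lk.2.2.1 w').1 (e ▸ a1)]
    exact sg1a_self)
  have a5 : ∀ v, D w v → v = w' := fun v kv => (k1.2.2.1 v).1
    ((g1_arc h hc).2 (Or.inr ⟨kv, a2, fun e => a4 (hc.lk.enter e a2 kv).1⟩))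
  have a6 := sg1a_regD h hc hy k3
  have a7 := g1_av h hc k2
  refine Or.inr ?_
  by_cases hu : ∀ u, D u w' → u = w
  · exact Or.inr ⟨w, w', ⟨k1.1, k1.2.1, fun v => ⟨a5 v, fun e => e ▸ a1⟩,
      fun u => ⟨hu u, fun e => e ▸ a1⟩⟩, a7, a6⟩
  obtain ⟨u, hu⟩ := not_forall.1 hu
  obtain ⟨b1, b2⟩ := Classical.not_imp.1 hu
  have b3 : u ∈ reg (rv D) s x' := by
    by_contra e
    exact b2 ((k1.2.2.2 u).1 ((g1_arc h hc).2 (Or.inr ⟨b1, e, a3⟩)))
  have b4 : Av D {s} w' x := by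
    rcases a7.2.cases_head with e | ⟨v, e1, e2⟩
    · exact absurd e a4
    · exact a5 v e1.1 ▸ ⟨e1.2, e2⟩
  have b5 : y ∈ reg D s w' := by
    refine sg1a_reg h a6 (mgrp_mem.2 (Or.inr ⟨fun e => h.irr w (e ▸ a1), fun a => ?_⟩))
    rcases a.2.cases_head with e | ⟨v, e1, -⟩
    · exact k1.1 e
    · exact e1.2 (a5 v e1.1)
  rcases exit_cases h hn hc hg b3 a3 b1 b4 with e | ⟨v, v', e1, e2, e3, -⟩
  · exact Or.inl (sg1a_reg h b5 e)
  · exact Or.inr ⟨v, v', e1.lk, e2.2, sg1a_reg h b5 e3⟩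

theorem sg1a_opn {e u y y' : α} (hu : u ∈ reg (rv D) s x') (hy : y ∉ reg (rv D) s x')
    (k1 : D u e) (k2 : D e y) (k3 : e ≠ y') (k4 : IBr D s u y') : OBr D s u y' := by
  obtain ⟨h1, h2⟩ := g1_mem h hc
  have hP : ({u} : Set α) ⊆ ∅ ∪ (reg (rv D) s x' : Set α) := by
    rintro a rfl
    exact Or.inr hu
  have a1 : ¬ Av D {u} y s := fun a => k4.2 (.head ⟨k1, fun e' => k3 e'.2⟩
    (.head ⟨k2, fun e' => h.irr u (e'.1 ▸ k1)⟩ (sg1a_arc a)))
  have a2 : pdom D s u x := by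
    refine ⟨fun e' => h2 (e' ▸ hu), fun a => a1 ?_⟩
    rcases av_first (reg (rv D) s x' : Set α) (av_empty.2 (h.bwd y (mem_univ _))) with
      b | b | ⟨p, c, b1, b2, b3, -⟩
    · exact b.mono hP fun _ _ k _ _ => k
    · exact absurd b hy
    · obtain ⟨rfl, -⟩ := hc.lk.enter b1 (fun e' => b2.not_mem_right (Or.inr e')) b3
      exact (b2.mono hP fun _ _ k _ _ => k).trans a
  have a3 := sg1a_ibr h k4
  have a4 : y' ∈ reg (rv D) s x' := sg1a_mem.2
    (hc.pd y' (fun e' => hc.ex u (e' ▸ k4) a2) (mgrp_trans h (mem_univ _) a3 a2))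
  have a5 : Av D {u} y' s := by
    by_contra a
    exact sg1a_asymm h a3 ⟨a3.1.symm, a⟩
  refine ⟨k4.1, fun a => ?_⟩
  rcases sg1a_walk h hc (fun a b => ¬ (a = u ∧ b = y')) h1 a with b | ⟨-, b1, b2⟩
  · exact b.2 a4
  have b3 : Av (fun a b => D a b ∧ ¬ (a = u ∧ b = y')) ∅ x y' :=
    av_empty.2 (.head ⟨(hc.lk.2.2.1 x').2 rfl, b1⟩ b2)
  rcases av_last {u} b3 with c | c | ⟨c, p, c1, -, c3, c4⟩
  · exact a2.2 (((pbase_r c).mono subset_rfl fun _ _ k _ _ => k.1).trans a5)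
  · exact a3.1 c.symm
  · rw [show c = u from c1] at c3
    exact k4.2 (.head c3 ((av_empty.1 (pbase_l c4)).trans (sg1a_arc a5)))

theorem g1_code (hn : NoIso D s) (hg : GT D s x) : ∃ c : OCode α, Obj D (g1D D s x x') x s c ∧
    ValC x (reg (rv D) s x') (Y1 (g1D D s x x') s x) c ∧
    ∀ y ∈ c.H, y ∈ reg (rv D) s x' ∧ ¬ IsEar D s y := by
  obtain ⟨h1, h2⟩ := g1_mem h hc
  have hx := (hc.lk.2.2.1 x').2 rfl
  obtain ⟨c, hV, -, hH, hp, ht, hb, ha, -⟩ := h.exists_code (a := x) (g := s)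
    (P := reg (rv D) s x') (Y := Y1 (g1D D s x x') s x) (f := none) (subset_univ _) h1 h2 h1
    (fun w p k1 k2 => by
      by_contra e
      exact e (Or.inr (hc.lk.enter k1 (fun e' => e (Or.inl e')) k2).1))
    (fun y k => by
      rw [(hc.lk.2.2.1 y).1 k]
      exact Or.inl ⟨sg1a_self, h.obr_of_unique hc.lk.2.1 hc.lk.2.2.2⟩)
    (fun _ k => nomatch k)
    (fun p k1 y k2 k3 => Or.inr ⟨g1_exit h hc hn hg k1 k2 k3, fun k4 =>
      k2 (sg1a_mem.2 (Or.inr (sg1a_down h k1 (h.dom_of_obr k4))))⟩)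
  refine ⟨c, ⟨fun y => ?_, fun u w => ?_⟩, ⟨hV, ?_, ?_, ?_⟩, fun y k => (hH y).1 k⟩
  · rw [g1_arc h hc]
    refine ⟨fun k => k.elim (fun e => e.2) fun e => absurd ?_ e.2.2, fun k => Or.inl ⟨rfl, k⟩⟩
    rw [(hc.lk.2.2.1 y).1 e.1]
    exact sg1a_self
  · rw [ha, g1_arc h hc]
    refine ⟨fun k => ?_, fun k => k.elim (fun e => e.2) fun e =>
      (e.1.resolve_left fun e' => e.2 e'.1).1⟩
    by_cases e : u ∈ reg (rv D) s x' ∨ u = x
    · exact Or.inl ⟨e, k⟩
    · obtain ⟨e1, e2⟩ := not_or.1 e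
      exact Or.inr ⟨Or.inr ⟨k, e1, fun e' => e2 (hc.lk.enter e' e1 k).1⟩, e2⟩
  · intro e he heH y k hy
    obtain ⟨u0, y0, e1, e2, e3, e4⟩ : IsEar D s e := by
      by_contra a
      exact heH ((hH e).2 ⟨he, a⟩)
    have d1 := ((ht e y).1 k).2.1
    have hyP : y ∉ reg (rv D) s x' := fun a => by
      obtain ⟨u1, y1, f1, -, -, -⟩ : IsEar D s y := by
        by_contra b
        exact hy ((hH y).2 ⟨a, b⟩)
      refine (hb e y k).2 (h.obr_of_unique (fun b => h1 (b ▸ a)) fun b => ?_)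
      rw [f1, (f1 e).1 d1]
    obtain ⟨u, hu⟩ := Option.ne_none_iff_exists'.1 (hV.ear e he heH).1
    have d2 := ((hp u e).1 hu).2.1
    obtain rfl : u = u0 := (e1 u).1 d2
    have huH : u ∈ c.H := (hV.parm e u hu).resolve_right fun b => e3 (by
      rw [b] at d2 ⊢
      rw [(hc.lk.2.2.1 e).1 d2]
      exact obr_rv.1 (h.rev.obr_of_unique hc.lk.1 hc.lk.2.2.1))
    refine ⟨u, huH, hu, ?_⟩
    by_contra a
    obtain ⟨y', a⟩ := Option.ne_none_iff_exists'.1 a
    obtain ⟨b1, b2⟩ := hb u y' a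
    exact b2 (sg1a_opn h hc (hV.sub huH) hyP d2 d1 (fun b => e3 (b ▸ b1)) b1)
  · obtain ⟨t, t1, t2, t3⟩ := exists_top h hc.lk.2.1
    have t4 : pdom D s t x := by
      rcases mgrp_mem.1 (t2 (mgrp_mem.2 (Or.inl rfl))) with e | e
      · exact e ▸ (hc.lk.dm h).2
      · exact mgrp_trans h (mem_univ _) e (hc.lk.dm h).2
    have t5 : t ∈ reg (rv D) s x' := sg1a_mem.2 (hc.pd t t1 t4)
    have t6 : c.tgt t = none := by
      by_contra a
      obtain ⟨y, a⟩ := Option.ne_none_iff_exists'.1 a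
      have b := (hb t y a).1
      by_cases e : y = s
      · exact hc.ex t (e ▸ b) t4
      · exact t3 y e (sg1a_ibr h b)
    have t7 : t ∈ c.H := by
      by_contra a
      exact (hV.ear t t5 a).2 t6
    exact le_add_left (card_pos.2 ⟨t, mem_filter.2 ⟨t7, t6⟩⟩)
  · rcases av_first (reg (rv D) s x' : Set α)ᶜ (av_empty.2 (h.bwd x' (mem_univ _))) with
      b | b | ⟨p, y, b1, b2, b3, -⟩
    · exact absurd (Or.inr h1) b.not_mem_right
    · exact absurd sg1a_self b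
    · refine ⟨p, y, (ht p y).2 ⟨?_, b3, fun e => b1 e.1, fun e => nomatch e.1⟩,
        fun e => b1 (hV.sub e)⟩
      by_contra e
      exact b2.not_mem_right (Or.inr e)

end Pool.Agent.Work.MP_5391ad_co
end

-- merged part: Pool.Agent.Work.MP_5391ad_co.SRoot
section
/-! Central roots in terms of the digraph, and stability under surgeries. In `matV V D s` a tight
pair `(S, Y)` inside `V` has `S \ {s} ⊆ Y` (diagonal), and arcs out of `S` end in `Y`.
`mem_hub`: a row `a ≠ s` has the diagonal one (if `a ∈ V`; an arc puts `a` into `V`) and its arcs.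
`root_cap`: `S` = vertices reached from `s` avoiding `z`, `Y = insert z S`.
`root_of_cap`: if `s ∈ Y` then `Y = insert z S` and `V \ S ⊆ reg (rv D) s z`; if `s ∉ Y` then
`Y = (S \ {s}) ∪ {z, z'}` and a closed walk through `s` avoiding `z, z'` stays in `S` and ends
with an arc from `S` into `s`, absurd.
`root_desc`: `S = desc D s r`, `Y = insert s S`. `root_pdom`: `S` = vertices reached from `r`
avoiding `z` (`z ∈ V` by `GR.av_of_dom` for the reverse), `Y = insert z S`, `S ⊆ reg D s z`.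
`root_of_desc`: for `s ∉ S`, `Y = insert z S`; if `z = s` then `desc D s r ⊆ S`, otherwise `z`
post-dominates `r`.
`Ear.col_lt`: a vertex outside `fB D` has at most one in-neighbour, so `W = C \ fB D` receives at most
`|W|` middle vertices. `Stab.rev`: swap the fields; `card_frames_rv`, `matV_rv`.
`Stab.row_cen`: `root_of_cap`; a hub of `D'` in `reg (rv D') s z` is in `fB (rv D') \ fB (rv D)`,
in `G ∩ fB (rv D)`, or a hub of `D` in `reg (rv D) s z` (`root_cap`): at most `τ + 2 w`.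
`Stab.row_le`: `rts' ⊆ rts (τ + 6 w) ∪ X` and `s ∈ rts (τ + 6 w)`. Let `r ≠ s` be central for `D'`,
`r ∉ X`. `|fB (rv D) \ fB (rv D')| ≤ w + m` (`Ear.col_lt` reversed), `desc D' s r ⊆ desc D s r`, so
at most `τ + 5 w + 1` hubs of `D` lie outside `desc D s r`. If `z ≠ s` post-dominates `r` in `D`:
`Snk D' s r` gives `desc D' s r = {r}`, too small; `pdom D' s z' r` gives `S` from `root_pdom` with
`m ≤ |S ∩ R'|`, while `W = C' \ reg D' s z'` has `m ≤ |W|` (`root_cap` for `rv D'` and `row_cen` of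
the reverse); a middle vertex `e ≠ z'` of `Ear` lies in `S`, so its head lies in `reg D' s z'`. -/

namespace Pool.Agent.Work.MP_5391ad_co

open Finset
open scoped Classical

variable {α : Type*} [Fintype α] {V V' : Finset α} {D D' : α → α → Prop} {s : α} {τ w x m : ℕ}

omit [Fintype α] in
theorem sroot_stay {E : α → α → Prop} {T : Finset α} (h : ∀ a ∈ T, ∀ b, E a b → b ∈ T) {a b : α}
    (hx : a ∈ T) (w : Relation.ReflTransGen E a b) : b ∈ T := by
  induction w with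
  | refl => exact hx
  | tail _ e ih => exact h _ ih _ e

theorem sroot_root (D : α → α → Prop) {s z : α} (hz : z ≠ s) : s ∉ reg D s z := fun k =>
  (mem_filter.1 k).2.elim (fun e => hz e.symm) fun e => e.2 (av_refl e.1)

theorem sroot_sub {a : α} (ha : a ∈ hub (matV V D s)) : a ∈ fB (rv D) := by
  have h1 : univ.filter (matV V D s a) ⊆ insert a (univ.filter (D a)) := by
    intro b hb
    rcases (mem_filter.1 hb).2 with k | k
    · exact mem_insert_of_mem (mem_filter.2 ⟨mem_univ _, k⟩)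
    · exact k.1 ▸ mem_insert_self _ _
  have h2 := (card_le_card h1).trans (card_insert_le _ _)
  have h3 := (mem_filter.1 ha).2
  obtain ⟨b, hb, b', hb', e⟩ := one_lt_card.1 (show 1 < (univ.filter (D a)).card by omega)
  exact mem_filter.2 ⟨mem_univ _, b, b', e, (mem_filter.1 hb).2, (mem_filter.1 hb').2⟩

theorem sroot_tight (h : GR V D s) {r z : α} (hr : r ∈ rts V (matV V D s) τ) (hz : z ∈ V)
    (hne : r ≠ z) : (hub (matV V D s) \ univ.filter (Av D {z} r)).card ≤ τ := by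
  obtain ⟨hV, hr⟩ := mem_filter.1 hr
  have sub : univ.filter (Av D {z} r) ⊆ V := fun y hy =>
    sroot_stay (fun a _ b k => (h.mem a b k.1).2) hV (mem_filter.1 hy).2.2
  refine hr _ sub (insert z (univ.filter (Av D {z} r))) (insert_subset hz sub) ⟨?_, ?_⟩
    (mem_filter.2 ⟨mem_univ _, av_refl hne⟩)
  · intro i hi j hj
    rcases hj with k | k
    · by_cases e : j = z
      · exact e ▸ mem_insert_self _ _
      · exact mem_insert_of_mem (mem_filter.2 ⟨mem_univ _, (mem_filter.1 hi).2.tail k e⟩)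
    · exact k.1 ▸ mem_insert_of_mem hi
  · exact card_insert_of_notMem fun k => (mem_filter.1 k).2.not_mem_right rfl

omit [Fintype α] in
theorem sroot_ins {S Y : Finset α} (ht : Tight (matV V D s) S Y) (hS : S ⊆ Y) :
    ∃ z ∈ Y, z ∉ S ∧ ∀ x ∈ S, ∀ y, Av D {z} x y → y ∈ S := by
  obtain ⟨z, hz, e⟩ := exists_eq_insert_iff.2 ⟨hS, ht.2.symm⟩
  refine ⟨z, e ▸ mem_insert_self _ _, hz, fun x hx y w => sroot_stay (fun a ha b k => ?_) hx w.2⟩
  have := ht.1 a ha b (Or.inl k.1)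
  rw [← e] at this
  exact (mem_insert.1 this).resolve_left k.2

theorem mem_hub (h : GR V D s) {a : α} (ha : a ≠ s) : a ∈ hub (matV V D s) ↔ a ∈ fB (rv D) := by
  refine ⟨sroot_sub, fun k => ?_⟩
  obtain ⟨b, b', e, k1, k2⟩ := (mem_filter.1 k).2
  have e1 : a ≠ b := fun e => h.irr a (e ▸ k1)
  have e2 : a ≠ b' := fun e => h.irr a (e ▸ k2)
  have h1 : ({a, b, b'} : Finset α) ⊆ univ.filter (matV V D s a) := by
    intro y hy
    simp only [mem_insert, mem_singleton] at hy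
    rcases hy with rfl | rfl | rfl
    · exact mem_filter.2 ⟨mem_univ _, Or.inr ⟨rfl, (h.mem _ _ k1).1, ha⟩⟩
    · exact mem_filter.2 ⟨mem_univ _, Or.inl k1⟩
    · exact mem_filter.2 ⟨mem_univ _, Or.inl k2⟩
  have h2 := card_le_card h1
  rw [card_eq_three.2 ⟨a, b, b', e1, e2, e, rfl⟩] at h2
  exact mem_filter.2 ⟨mem_univ _, h2⟩

theorem hub_sub (h : GR V D s) : hub (matV V D s) ⊆ fB (rv D) := by
  have _ := h
  exact fun _ => sroot_sub

theorem root_cap (h : GR V D s) (hr : s ∈ rts V (matV V D s) τ) {z : α} (hz : z ∈ V)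
    (hs : z ≠ s) : (hub (matV V D s) ∩ reg (rv D) s z).card ≤ τ := by
  refine le_trans (card_le_card fun y hy => ?_) (sroot_tight h hr hz hs.symm)
  obtain ⟨k1, k2⟩ := mem_inter.1 hy
  refine mem_sdiff.2 ⟨k1, fun k => ?_⟩
  rcases (mem_filter.1 k2).2 with e | e
  · exact (mem_filter.1 k).2.not_mem_right e
  · exact (pdom_rv.1 e).2 (mem_filter.1 k).2

theorem root_of_cap (h : GR V D s) (hc : ∀ z z', z ≠ s → z' ≠ s → CycA D {z, z'} s)
    (hr : ∀ z ∈ V, z ≠ s → (hub (matV V D s) ∩ reg (rv D) s z).card ≤ τ) :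
    s ∈ rts V (matV V D s) τ := by
  refine mem_filter.2 ⟨h.root, fun S hS Y hY ht hs => ?_⟩
  have sub : S.erase s ⊆ Y := fun a ha =>
    ht.1 a (mem_of_mem_erase ha) a (Or.inr ⟨rfl, hS (mem_of_mem_erase ha), ne_of_mem_erase ha⟩)
  by_cases hsY : s ∈ Y
  · obtain ⟨z, z1, z2, z3⟩ := sroot_ins ht fun a ha => by
      by_cases e : a = s
      · exact e ▸ hsY
      · exact sub (mem_erase.2 ⟨e, ha⟩)
    refine le_trans (card_le_card fun y hy => ?_) (hr z (hY z1) fun e => z2 (e ▸ hs))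
    obtain ⟨k1, k2⟩ := mem_sdiff.1 hy
    refine mem_inter.2 ⟨k1, mem_filter.2 ⟨mem_univ _, ?_⟩⟩
    by_cases e : y = z
    · exact Or.inl e
    · exact Or.inr (pdom_rv.2 ⟨e, fun w => k2 (z3 s hs y w)⟩)
  · exfalso
    obtain ⟨z, z', -, e⟩ : ∃ z z', z ≠ z' ∧ Y \ S.erase s = {z, z'} := by
      rw [← card_eq_two, card_sdiff_of_subset sub, card_erase_of_mem hs, ht.2]
      have := card_pos.2 ⟨s, hs⟩
      omega
    have hz : ∀ y, y = z ∨ y = z' → y ≠ s := by
      intro y hy k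
      have : y ∈ Y \ S.erase s := by
        rw [e]
        simpa using hy
      exact hsY (k ▸ (mem_sdiff.1 this).1)
    have st : ∀ a ∈ S, ∀ b, D a b → b ∉ ({z, z'} : Set α) → b ∈ S.erase s := by
      intro a ha b k1 k2
      by_contra k3
      have : b ∈ Y \ S.erase s := mem_sdiff.2 ⟨ht.1 a ha b (Or.inl k1), k3⟩
      rw [e] at this
      exact k2 (by simpa using this)
    obtain ⟨v, k1, k2⟩ := hc z z' (hz _ (Or.inl rfl)) (hz _ (Or.inr rfl))
    exact notMem_erase s S (sroot_stay (fun a ha b k => st a (mem_of_mem_erase ha) b k.1 k.2)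
      (st s hs v k1 k2.1) k2.2)

theorem root_desc (h : GR V D s) {r : α} (hs : r ≠ s) (hr : r ∈ rts V (matV V D s) τ) :
    (hub (matV V D s) \ desc D s r).card ≤ τ := sroot_tight h hr h.root hs

theorem root_pdom (h : GR V D s) {r z : α} (hr : r ∈ rts V (matV V D s) τ) (hz : z ≠ s)
    (hp : pdom D s z r) : ∃ S ⊆ reg D s z, (hub (matV V D s) \ S).card ≤ τ ∧
      ∀ u ∈ S, ∀ v, D u v → v = z ∨ v ∈ S := by
  have hV := (h.rev.av_of_dom (mem_filter.1 hr).1 hz (dom_rv.2 hp)).1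
  refine ⟨univ.filter (Av D {z} r), fun y hy => ?_, sroot_tight h hr hV hp.1, fun u hu v k => ?_⟩
  · have k := (mem_filter.1 hy).2
    exact mem_filter.2 ⟨mem_univ _, Or.inr ⟨k.not_mem_right, fun w => hp.2 (k.trans w)⟩⟩
  · by_cases e : v = z
    · exact Or.inl e
    · exact Or.inr (mem_filter.2 ⟨mem_univ _, (mem_filter.1 hu).2.tail k e⟩)

theorem root_of_desc (h : GR V D s) (hs : s ∈ rts V (matV V D s) τ) {r : α} (hr : r ∈ V)
    (hrs : r ≠ s) (h1 : (hub (matV V D s) \ desc D s r).card ≤ τ)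
    (h2 : ∀ z, z ≠ s → ¬ pdom D s z r) : r ∈ rts V (matV V D s) τ := by
  have _ := h
  have _ := hrs
  refine mem_filter.2 ⟨hr, fun S hS Y hY ht hrS => ?_⟩
  by_cases hsS : s ∈ S
  · exact (mem_filter.1 hs).2 S hS Y hY ht hsS
  obtain ⟨z, -, z2, z3⟩ := sroot_ins ht fun a ha =>
    ht.1 a ha a (Or.inr ⟨rfl, hS ha, fun e => hsS (e ▸ ha)⟩)
  by_cases e : z = s
  · subst e
    exact le_trans (card_le_card (sdiff_subset_sdiff subset_rfl fun y hy =>
      z3 r hrS y (mem_filter.1 hy).2)) h1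
  · exact (h2 z e ⟨fun k => z2 (k ▸ hrS), fun w => hsS (z3 r hrS s w)⟩).elim

theorem Ear.rev {R C : Finset α} (h : Ear D R C m) : Ear (rv D) C R m := by
  intro S hS W hW k1 k2
  rw [add_comm C.card]
  refine (h W hW S hS k2 k1).trans (card_le_card fun e he => ?_)
  obtain ⟨u, hu, y, hy, k3, k4⟩ := (mem_filter.1 he).2
  exact mem_filter.2 ⟨mem_univ _, y, hy, u, hu, k4, k3⟩

theorem Ear.col_lt {R C : Finset α} (h : Ear D R C m) (hR : m ≤ R.card) : (C \ fB D).card < m := by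
  by_contra hn
  have h1 := h R subset_rfl (C \ fB D) sdiff_subset hR (not_lt.1 hn)
  have h2 : (univ.filter fun e => ∃ u ∈ R, ∃ y ∈ C \ fB D, D u e ∧ D e y) ⊆
      (C \ fB D).biUnion fun y => univ.filter fun e => D e y := by
    intro e he
    obtain ⟨u, -, y, hy, -, k⟩ := (mem_filter.1 he).2
    exact mem_biUnion.2 ⟨y, hy, mem_filter.2 ⟨mem_univ _, k⟩⟩
  have h3 := (card_le_card h2).trans (card_biUnion_le_card_mul _ _ 1 fun y hy =>
    card_le_one.2 fun a ha b hb => by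
      by_contra e
      exact (mem_sdiff.1 hy).2
        (mem_filter.2 ⟨mem_univ _, a, b, e, (mem_filter.1 ha).2, (mem_filter.1 hb).2⟩))
  have h4 : (C \ fB D).card ≤ C.card := card_le_card sdiff_subset
  omega

theorem Cen.rev (h : Cen V D s τ) : Cen V (rv D) s τ := by
  refine ⟨h.gr.rev, fun z hz => cycA_rv.2 (h.cyc z hz), ?_, ?_⟩
  · rw [← matV_rv]
    exact h.col
  · rw [matV_rv]
    exact h.row

theorem Stab.rev (h : Stab D V' D' s w x m) : Stab (rv D) V' (rv D') s w x m := by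
  obtain ⟨G, g1, g2⟩ := h.dmg
  obtain ⟨G', g1', g2'⟩ := h.pdg
  obtain ⟨X, x1, x2⟩ := h.npr
  obtain ⟨X', x1', x2'⟩ := h.npc
  obtain ⟨R', C', e1, e2, e3⟩ := h.ear
  refine ⟨h.gr.rev, h.gr'.rev, h.hc, h.hr, fun a b k => av_rv.2 (h.av _ _ (av_rv.1 k)),
    fun z z' hz hz' => cycA_rv.2 (h.cyc z z' hz hz'),
    ⟨G', g1', fun z hz y hy k1 k2 => (g2' z hz y hy k1 (dom_rv.1 k2)).imp_left dom_rv.2⟩,
    ⟨G, g1, fun z hz y hy k1 k2 => (g2 z hz y hy k1 (pdom_rv.1 k2)).imp_left pdom_rv.2⟩,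
    ⟨X', x1', fun r hr k z hz k2 => (x2' r hr k z hz (pdom_rv.1 k2)).imp
      (fun ⟨z', k3, k4⟩ => ⟨z', k3, pdom_rv.2 k4⟩) snk_rv.2⟩,
    ⟨X, x1, fun r hr k z hz k2 => (x2 r hr k z hz (dom_rv.1 k2)).imp
      (fun ⟨z', k3, k4⟩ => ⟨z', k3, dom_rv.2 k4⟩) src_rv.2⟩,
    ⟨C', R', e2, e1, e3.rev⟩, ?_⟩
  rw [← matV_rv, ← matV_rv, card_frames_rv, card_frames_rv]
  exact h.fr

theorem Stab.row_cen (h : Stab D V' D' s w x m) (hc : Cen univ D s τ) :
    s ∈ rts V' (matV V' D' s) (τ + 3 * w) := by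
  obtain ⟨G, g1, g2⟩ := h.dmg
  refine root_of_cap h.gr' h.cyc fun z hz hs => ?_
  have a1 := root_cap h.gr hc.row (mem_univ z) hs
  have a2 := h.hr
  have a3 : hub (matV V' D' s) ∩ reg (rv D') s z ⊆ ((fB (rv D') \ fB (rv D)) ∪ (G ∩ fB (rv D))) ∪
      (hub (matV univ D s) ∩ reg (rv D) s z) := by
    intro y hy
    obtain ⟨k1, k2⟩ := mem_inter.1 hy
    have k3 := hub_sub h.gr' k1
    have k4 : y ≠ s := fun e => sroot_root _ hs (e ▸ k2)
    by_cases k5 : y ∈ fB (rv D)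
    swap
    · exact mem_union_left _ (mem_union_left _ (mem_sdiff.2 ⟨k3, k5⟩))
    have k6 := (mem_hub h.gr k4).2 k5
    obtain ⟨b, -, -, k7, -⟩ := (mem_filter.1 k3).2
    rcases (mem_filter.1 k2).2 with e | e
    · exact mem_union_right _ (mem_inter.2 ⟨k6, mem_filter.2 ⟨mem_univ _, Or.inl e⟩⟩)
    · rcases g2 z hz y (h.gr'.mem _ _ k7).1 hs (pdom_rv.1 e) with k | k
      · exact mem_union_right _
          (mem_inter.2 ⟨k6, mem_filter.2 ⟨mem_univ _, Or.inr (pdom_rv.2 k)⟩⟩)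
      · exact mem_union_left _ (mem_union_right _ (mem_inter.2 ⟨k, k5⟩))
  have a4 := (card_le_card a3).trans
    ((card_union_le _ _).trans (Nat.add_le_add_right (card_union_le _ _) _))
  omega

theorem sroot_out {D₀ : α → α → Prop} (h : GR V D s) (T : Finset α) :
    (fB (rv D₀) \ T).card ≤ (fB (rv D₀) \ fB (rv D)).card + (hub (matV V D s) \ T).card + 1 := by
  refine le_trans (card_le_card (t := insert s ((fB (rv D₀) \ fB (rv D)) ∪ (hub (matV V D s) \ T)))
    fun y hy => ?_) ((card_insert_le _ _).trans (Nat.add_le_add_right (card_union_le _ _) 1))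
  obtain ⟨k1, k2⟩ := mem_sdiff.1 hy
  by_cases e : y = s
  · exact e ▸ mem_insert_self _ _
  refine mem_insert_of_mem ?_
  by_cases k : y ∈ fB (rv D)
  · exact mem_union_right _ (mem_sdiff.2 ⟨(mem_hub h e).2 k, k2⟩)
  · exact mem_union_left _ (mem_sdiff.2 ⟨k1, k⟩)

omit [Fintype α] in
theorem sroot_tri (A B C : Finset α) : (A \ C).card ≤ (A \ B).card + (B \ C).card := by
  refine le_trans (card_le_card fun y hy => ?_) (card_union_le _ _)
  simp only [mem_sdiff, mem_union] at hy ⊢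
  tauto

theorem Stab.row_le (h : Stab D V' D' s w x m) (hc : Cen univ D s τ) (h1 : 1 ≤ m) (h2 : m ≤ w)
    (h3 : τ + 7 * w ≤ (fB D).card) (h4 : τ + 7 * w ≤ (fB (rv D)).card) :
    (rts V' (matV V' D' s) (τ + 3 * w)).card ≤
      (x + 1) * (rts univ (matV univ D s) (τ + 6 * w)).card := by
  obtain ⟨X, x1, x2⟩ := h.npr
  obtain ⟨R', C', e1, e2, e3⟩ := h.ear
  have hs : s ∈ rts univ (matV univ D s) (τ + 6 * w) := rts_mono (by omega) hc.row
  have b1 : (fB D).card ≤ (fB D \ C').card + C'.card := card_le_card_sdiff_add_card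
  have b2 : (fB (rv D)).card ≤ (fB (rv D) \ R').card + R'.card := card_le_card_sdiff_add_card
  have b3 := e3.col_lt (by omega)
  have b4 := e3.rev.col_lt (by omega)
  have b5 := sroot_tri (fB (rv D)) R' (fB (rv D'))
  have sub : rts V' (matV V' D' s) (τ + 3 * w) ⊆ rts univ (matV univ D s) (τ + 6 * w) ∪ X := by
    intro r hr
    by_cases hX : r ∈ X
    · exact mem_union_right _ hX
    refine mem_union_left _ ?_
    by_cases hrs : r = s
    · exact hrs ▸ hs
    have hV := (mem_filter.1 hr).1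
    have c1 := root_desc h.gr' hrs hr
    have c2 := sroot_out (D₀ := D) h.gr' (desc D' s r)
    refine root_of_desc h.gr hs (mem_univ r) hrs ?_ fun z hz hp => ?_
    · have c3 : (hub (matV univ D s) \ desc D s r).card ≤ (fB (rv D) \ desc D' s r).card :=
        card_le_card (sdiff_subset_sdiff (hub_sub h.gr) fun y hy =>
          mem_filter.2 ⟨mem_univ _, h.av _ _ (mem_filter.1 hy).2⟩)
      omega
    rcases x2 r hV hX z hz hp with ⟨z', hz', hp'⟩ | k
    · obtain ⟨S, s1, s2, s3⟩ := root_pdom h.gr' hr hz' hp'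
      have d1 := sroot_out (D₀ := D) h.gr' S
      have d2 : (fB (rv D)).card ≤
          (fB (rv D) \ S).card + (fB (rv D) \ R').card + (S ∩ R').card := by
        refine le_trans (card_le_card fun y hy => ?_)
          ((card_union_le _ _).trans (Nat.add_le_add_right (card_union_le _ _) _))
        simp only [mem_union, mem_sdiff, mem_inter]
        (clear * - hy; tauto)
      have d3 := root_cap h.gr'.rev (h.rev.row_cen hc.rev)
        (h.gr'.rev.av_of_dom hV hz' (dom_rv.2 hp')).1 hz'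
      have d4 : C'.card ≤ (C' \ fB D').card +
          (hub (matV V' (rv D') s) ∩ reg (rv (rv D')) s z').card + (C' \ reg D' s z').card := by
        refine le_trans (card_le_card fun y hy => ?_)
          ((card_union_le _ _).trans (Nat.add_le_add_right (card_union_le _ _) _))
        by_cases k1 : y ∈ reg D' s z'
        swap
        · exact mem_union_right _ (mem_sdiff.2 ⟨hy, k1⟩)
        refine mem_union_left _ ?_
        by_cases k2 : y ∈ fB D'
        · exact mem_union_right _ (mem_inter.2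
            ⟨(mem_hub h.gr'.rev fun e => sroot_root _ hz' (e ▸ k1)).2 k2, k1⟩)
        · exact mem_union_left _ (mem_sdiff.2 ⟨hy, k2⟩)
      have d5 := e3 (S ∩ R') inter_subset_right (C' \ reg D' s z') sdiff_subset (by omega)
        (by omega)
      have d6 : (univ.filter fun e => ∃ u ∈ S ∩ R', ∃ y ∈ C' \ reg D' s z', D' u e ∧ D' e y) ⊆
          {z'} := by
        intro e he
        obtain ⟨u, hu, y, hy, k1, k2⟩ := (mem_filter.1 he).2
        rcases s3 u (mem_inter.1 hu).1 e k1 with k | k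
        · exact mem_singleton.2 k
        · refine ((mem_sdiff.1 hy).2 ?_).elim
          rcases s3 e k y k2 with k' | k'
          · exact mem_filter.2 ⟨mem_univ _, Or.inl k'⟩
          · exact s1 k'
      have d7 := card_le_card d6
      rw [card_singleton] at d7
      omega
    · have d1 : desc D' s r ⊆ {r} := fun y hy =>
        sroot_stay (fun a ha b k' => by
          rw [mem_singleton.1 ha] at k'
          exact (k'.2 ((k b).1 k'.1)).elim) (mem_singleton_self r) (mem_filter.1 hy).2.2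
      have d2 := card_le_card d1
      rw [card_singleton] at d2
      have d3 : (fB (rv D)).card ≤ (fB (rv D) \ desc D' s r).card + (desc D' s r).card :=
        card_le_card_sdiff_add_card
      omega
  have f1 := (card_le_card sub).trans (card_union_le _ _)
  have f2 := card_pos.2 ⟨s, hs⟩
  nlinarith only [x1, f1, f2]

theorem Stab.cmp (h : Stab D V' D' s w x m) (hc : Cen univ D s τ) (h1 : 1 ≤ m) (h2 : m ≤ w)
    (h3 : τ + 7 * w ≤ (fB D).card) (h4 : τ + 7 * w ≤ (fB (rv D)).card) :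
    Cmp D V' D' s τ w x := by
  refine ⟨⟨h.gr', fun z hz => by simpa using h.cyc z z hz hz, h.row_cen hc, ?_⟩,
    h.row_le hc h1 h2 h3 h4, ?_, h.fr⟩
  · rw [matV_rv]
    exact h.rev.row_cen hc.rev
  · rw [matV_rv, matV_rv]
    exact h.rev.row_le hc.rev h1 h2 h4 h3

end Pool.Agent.Work.MP_5391ad_co
end

-- merged part: Pool.Agent.Work.MP_5391ad_co.SBase
section
/-! Common consequences of `Nice`.
`TypD.col_lt`: a vertex outside `fB D` has at most one in-neighbour, so `W = C \ fB D` receives at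
most `|W|` ears (`env.few` with `S = R`, `hj`). `nonear`: `GR.full`, or directly: outside
`TC D s ∪ TC (rv D) s` the vertex has one in-arc, not an in-bridge, and one out-arc, not an
out-bridge. `Nice.tc_np`: `tcR` and `TypD.np_lt`. `Nice.ear`, `Nice.size`: `env.few`, `env.big`;
the middle vertices outside `A` survive. `fB D ⊆ insert s (TC D s)`. -/

namespace Pool.Agent.Work.MP_5391ad_co

open Finset
open scoped Classical

variable {α : Type*} [Fintype α] {D : α → α → Prop} {s : α} {R C : Finset α} {p : Par}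

theorem card_lks_rv (D : α → α → Prop) (s : α) : (lks (rv D) s).card = (lks D s).card := by
  refine card_nbij' Prod.swap Prod.swap (fun p hp => ?_) (fun p hp => ?_) (fun _ _ => rfl)
    fun _ _ => rfl
  · exact mem_coe.2 (mem_filter.2 ⟨mem_univ _, Lk.rev (D := rv D) (mem_filter.1 hp).2⟩)
  · exact mem_coe.2 (mem_filter.2 ⟨mem_univ _, Lk.rev (mem_filter.1 hp).2⟩)

theorem Fac.rev (h : Fac p D s R C) : Fac p (rv D) s C R :=
  ⟨h.tcC, h.tcR, (card_lks_rv D s).trans_le h.lk, h.dO, h.dI, h.heldC, h.heldR,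
    fun k => h.ttR fun q g => k q g.rev, fun k => h.ttC fun q g => k q g.rev⟩

theorem Nice.rev (h : Nice p D s R C) : Nice p (rv D) s C R :=
  ⟨h.toFac.rev, h.ok, h.typ.rev, fun z z' a b => cycA_rv.2 (h.cyc z z' a b),
    by have := h.hj; omega, h.yC, h.yR⟩

theorem TypD.col_lt {m j N t : ℕ} (h : TypD D s R C m j N t) : (C \ fB D).card < m := by
  by_contra k
  have h1 := h.mR
  have h2 := h.env.few R subset_rfl (C \ fB D) sdiff_subset (by omega) (not_lt.1 k)
  have h3 := mred_ears (s := s) (D := D) (E := D) (S := R) (W := C \ fB D)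
    (fun y hy b => (mem_sdiff.1 hy).2 (mem_filter.2 ⟨mem_univ _, b⟩))
    fun u _ y _ x _ l => (l.2 y).2 rfl
  have h4 := card_le_card (sdiff_subset (s := C) (t := fB D))
  have h5 := h.hj
  omega

theorem nonear {V : Finset α} (h : GR V D s) {y : α} (hy : y ∈ V) (hs : y ≠ s)
    (he : ¬ IsEar D s y) : y ∈ TC D s ∪ TC (rv D) s := by
  by_contra k
  simp only [TC, mem_union, mem_filter, mem_univ, true_and, not_or, not_and, not_exists] at k
  obtain ⟨u, hu⟩ := h.exists_in hy hs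
  obtain ⟨w, hw⟩ := h.rev.exists_in hy hs
  have l := lin_of (k.1 hs).1 (k.2 hs).1 hu hw
  exact he ⟨u, w, l.1, l.2, (k.1 hs).2 u, fun o => (k.2 hs).2 w (ibr_rv.2 o)⟩

theorem Nice.tc_np (h : Nice p D s R C) :
    ((TC (rv D) s).filter (NP D s)).card ≤ 39 * p.m := by
  have h1 := h.tcR
  have h2 := h.typ.np_lt
  have h3 : (TC (rv D) s).filter (NP D s) ⊆ (TC (rv D) s \ R) ∪ R.filter (NP D s) := fun y hy => by
    simp only [mem_union, mem_sdiff, mem_filter] at hy ⊢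
    tauto
  have := (card_le_card h3).trans (card_union_le _ _)
  omega

omit [Fintype α] in
theorem sbase_tri (A B C : Finset α) :
    (A \ C).card ≤ (A \ B).card + (B \ C).card :=
  (card_le_card (sdiff_triangle A B C)).trans (card_union_le _ _)

theorem Nice.tc_fB (h : Nice p D s R C) : (TC D s \ fB D).card ≤ 37 * p.m := by
  have h1 := h.tcC
  have h2 := h.typ.col_lt
  have := sbase_tri (TC D s) C (fB D)
  omega

theorem Nice.fB_le (h : Nice p D s R C) : (fB D \ C).card ≤ 36 * p.m + 1 := by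
  have h3 : fB D \ C ⊆ insert s (TC D s \ C) := fun y hy => by
    simp only [fB, TC, mem_insert, mem_sdiff, mem_filter, mem_univ, true_and] at hy ⊢
    tauto
  exact (card_le_card h3).trans ((card_insert_le _ _).trans (Nat.succ_le_succ h.tcC))

theorem Nice.tc_reg (h : Nice p D s R C) {z : α} (hz : z ≠ s) :
    (TC D s ∩ reg D s z).card ≤ p.t + 36 * p.m := by
  have h1 := h.tcC
  have h2 := h.typ.capC z hz
  have h3 : TC D s ∩ reg D s z ⊆ (TC D s \ C) ∪ (C ∩ reg D s z) := fun y hy => by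
    simp only [mem_union, mem_sdiff, mem_inter] at hy ⊢
    tauto
  have := (card_le_card h3).trans (card_union_le _ _)
  omega

theorem Nice.hubs (h : Nice p D s R C) {H : Finset α}
    (hH : ∀ y ∈ H, y ≠ s ∧ ¬ IsEar D s y ∧ NP D s y ∧ NP (rv D) s y) : H.card ≤ 78 * p.m := by
  have h1 := h.tc_np
  have h2 : ((TC D s).filter (NP (rv D) s)).card ≤ 39 * p.m := h.rev.tc_np
  have h3 : H ⊆ (TC D s).filter (NP (rv D) s) ∪ (TC (rv D) s).filter (NP D s) := fun y hy => by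
    obtain ⟨a, b, c, d⟩ := hH y hy
    exact mem_union.2 ((mem_union.1 (nonear h.typ.gr (mem_univ y) a b)).imp
      (fun k => mem_filter.2 ⟨k, d⟩) fun k => mem_filter.2 ⟨k, c⟩)
  have := (card_le_card h3).trans (card_union_le _ _)
  omega

theorem sbase_ears {S W A T : Finset α}
    (h : ∀ u ∈ S, ∀ y ∈ W, ∀ e, e ∉ A → Lin D e (u, y) → e ∈ T) : ears D S W ≤ A.card + T.card := by
  refine (card_le_card fun e he => ?_).trans (card_union_le _ _)
  obtain ⟨u, hu, y, hy, l⟩ := (mem_filter.1 he).2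
  exact mem_union.2 (or_iff_not_imp_left.2 fun k => h u hu y hy e k l)

theorem Nice.ear (h : Nice p D s R C) {D' : α → α → Prop} {R' C' A : Finset α} (hR : R' ⊆ R)
    (hC : C' ⊆ C) (hA : A.card ≤ p.Kb + 10)
    (he : ∀ u ∈ R', ∀ y ∈ C', ∀ e, e ∉ A → Lin D e (u, y) → D' u e ∧ D' e y) :
    Ear D' R' C' p.m := by
  intro S hS W hW h1 h2
  have h3 := h.typ.env.few S (hS.trans hR) W (hW.trans hC) h1 h2
  have h4 := sbase_ears (D := D) (S := S) (W := W) (A := A)
    (T := univ.filter fun e => ∃ u ∈ S, ∃ y ∈ W, D' u e ∧ D' e y) fun u hu y hy e k l =>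
      mem_filter.2 ⟨mem_univ _, u, hu, y, hy, he u (hS hu) y (hW hy) e k l⟩
  have h5 := h.hj
  have h6 := card_le_card hR
  have h7 := card_le_card hC
  omega

theorem Nice.size (h : Nice p D s R C) {V' R' C' A : Finset α} (hR : R' ⊆ R) (hC : C' ⊆ C)
    (h1 : R.card ≤ R'.card + 10 * p.m) (h2 : C.card ≤ C'.card + 10 * p.m)
    (hA : A.card ≤ p.Kb + 10)
    (he : ∀ u ∈ R', ∀ y ∈ C', ∀ e, e ∉ A → Lin D e (u, y) → e ∈ V') :
    V'ᶜ.card + p.N ≤ Fintype.card α + p.Kb + 10 := by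
  have h3 := h.typ.env.big R' hR C' hC h1 h2
  have h4 := sbase_ears he
  have h5 := card_add_card_compl V'
  omega

theorem Res.rev {V' : Finset α} {D' : α → α → Prop} {x : ℕ} (h : Res p (rv D) s V' D' x) :
    Res p D s V' (rv D') x :=
  ⟨h.pos, h.le, h.stab.rev⟩

end Pool.Agent.Work.MP_5391ad_co
end

-- merged part: Pool.Agent.Work.MP_5391ad_co.SG1
section
/-! The surgery `SurG`. `P = reg (rv D) s x' ⊆ desc D s x`, and `x` dominates `P`, so `P` consists
of vertices with `NP (rv D) s` (`mper_np`).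
`g1_desc`: `W = C \ (Yset ∪ NP (rv D))` has at least `m` elements (`|C ∩ Yset| ≤ y1 + m` by
`TypD.col_lt`, `np_lt` of the reverse, `yC`). An ear `u → e → y` with `u ∈ desc D s x`, `y ∈ W`,
`e ≠ s` puts `y` (an ancestor of `x`, so `y ≠ s`) into the component of `x`; `y` has no dominator
other than `s`, so `top_link` puts `y` into `Yset`. Hence at most one ear, against `env.few`.
`g1_card`: `g1_tc`, `g1_ys`, `Nice.tc_fB`; a vertex `y ≠ s` which dominates `x` in `g1D` does so in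
`D` (`g1_anc`), is post-dominated by `x` (`dm`, `Lk.dm`), so `NP D s y`, and lies in `TC (rv D) s`:
if `v` is its only out-neighbour then `y` dominates `v` and `pgev_obr` applies; `Nice.tc_np`.
`g1_hubs`: `nonear`; `TC D s ∩ P` has at most `39 m` elements, `TC (rv D) s ∩ P` at most `37 m`.
`g1_res`: `R' = R \ desc D s x`, `C' = C`, `A = {x}`: an ear from `u ∉ insert x P` with middle
vertex `e ≠ x` avoids `P` (`Lk.enter`). `dmg`: `G = desc D s x` (`g1_from`; `s ∉ G`). `npr`: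
`g1_pdom'`; for `z ∈ P` use `Lk.up`. `npc`: `z ∉ P`, `g1_from'`. `fr_sub`. New hubs: only `s`. -/

namespace Pool.Agent.Work.MP_5391ad_co

open Finset
open scoped Classical

variable {α : Type*} [Fintype α] {D : α → α → Prop} {s x x' : α} {R C : Finset α} {p : Par}
  (h : Nice p D s R C) (hn : NoIso D s) (hc : CutH D s x x') (hg : GT D s x)
  (hy : (fB D ∩ Yset D s x).card ≤ p.y1)
include h hn hc hg hy

omit hn hc hg hy h in
theorem sg1_desc {y : α} : y ∈ desc D s x ↔ Av D {s} x y := by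
  rw [desc, mem_filter, and_iff_right (mem_univ y)]

omit hn hc hg hy h in
theorem sg1_fB {y : α} : y ∈ fB D ↔ Br D y := by
  rw [fB, mem_filter, and_iff_right (mem_univ y)]

omit hn hg hy in
theorem sg1_P {y : α} (k : y ∈ reg (rv D) s x') :
    y ≠ s ∧ NP (rv D) s y ∧ y ∈ desc D s x := by
  have gr := h.typ.gr
  have k1 : dom D s x y := by
    rcases mgrp_mem.1 k with rfl | k1
    · exact (hc.lk.dm gr).1
    · exact gr.dom_trans (mem_univ y) (hc.lk.dm gr).1 (pdom_rv.1 k1)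
  exact ⟨fun e => not_dom_root (e ▸ k1), mper_np hc.lk.1 (pdom_rv.2 k1),
    sg1_desc.2 (gr.av_of_dom (mem_univ y) hc.lk.1 k1).2⟩

omit hn hg hy in
theorem sg1_ear {u y e : α} (hu : u ∉ desc D s x) (he : e ≠ x) (k : Lin D e (u, y)) :
    e ∉ reg (rv D) s x' ∧ g1D D s x x' u e ∧ g1D D s x x' e y := by
  have gr := h.typ.gr
  have k1 : u ∉ reg (rv D) s x' := fun k1 => hu (sg1_P h hc k1).2.2
  have k2 : D u e := (k.1 u).2 rfl
  have k3 : D e y := (k.2 y).2 rfl
  have k4 : e ∉ reg (rv D) s x' := fun k4 =>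
    hu ((hc.lk.enter k4 k1 k2).1.symm ▸ sg1_desc.2 (av_refl (x := x) hc.lk.1))
  have k5 : y ∉ reg (rv D) s x' := fun k5 => he (hc.lk.enter k5 k4 k3).1
  exact ⟨k4, (g1_arc gr hc).2 (Or.inr ⟨k2, k1, k4⟩), (g1_arc gr hc).2 (Or.inr ⟨k3, k4, k5⟩)⟩

omit hn hg hy in
theorem sg1_snk : Snk (g1D D s x x') s x := fun y => by
  rw [g1_arc h.typ.gr hc]
  refine ⟨?_, fun k => Or.inl ⟨rfl, k⟩⟩
  rintro (k | k)
  · exact k.2
  · exact absurd (mgrp_mem.2 (Or.inl ((hc.lk.2.2.1 y).1 k.1))) k.2.2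

theorem g1_desc : (R ∩ desc D s x).card < p.m := by
  have gr := h.typ.gr
  by_contra k
  have k1 : C ⊆ (C.filter fun y => y ∉ Yset D s x ∧ ¬ NP (rv D) s y) ∪ (fB D ∩ Yset D s x ∪
      (C \ fB D ∪ C.filter (NP (rv D) s))) := fun y k1 => by
    simp only [mem_union, mem_filter, mem_inter, mem_sdiff]
    tauto
  have k2 := (card_le_card k1).trans ((card_union_le _ _).trans (Nat.add_le_add_left
    ((card_union_le _ _).trans (Nat.add_le_add_left (card_union_le _ _) _)) _))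
  have k3 := h.typ.col_lt
  have k4 := h.typ.rev.np_lt
  have k5 := h.yC
  have k6 := h.typ.env.few _ inter_subset_left _
    (filter_subset (fun y => y ∉ Yset D s x ∧ ¬ NP (rv D) s y) C) (not_lt.1 k) (by omega)
  have k7 := h.typ.hj
  have k8 : ears D (R ∩ desc D s x) (C.filter fun y => y ∉ Yset D s x ∧ ¬ NP (rv D) s y) ≤
      ({s} : Finset α).card := by
    refine card_le_card fun e he => mem_singleton.2 ?_
    obtain ⟨u, hu, y, hy', hl⟩ := (mem_filter.1 he).2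
    by_contra hes
    obtain ⟨-, y1, y2⟩ := mem_filter.1 hy'
    have y3 : Av D {s} y x := by
      by_contra y3
      exact y1 (mem_filter.2 ⟨mem_univ _, Or.inl y3⟩)
    have y4 : Av D {s} x y :=
      ((sg1_desc.1 (mem_inter.1 hu).2).tail ((hl.1 u).2 rfl) hes).tail ((hl.2 y).2 rfl) y3.1
    obtain ⟨a, w, w', a1, a2, a3, -, -, a4⟩ := top_link gr hn (hg.of_sc ⟨y4, y3⟩)
      fun z hz k9 => y2 (mper_np hz (pdom_rv.2 k9))
    refine y1 (mem_filter.2 ⟨mem_univ _, Or.inr (Or.inr ⟨w, w', a1.lk, a2.2.trans y3, ?_⟩)⟩)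
    rcases a4 with rfl | a4
    · exact a3
    · rcases mgrp_mem.1 a3 with rfl | a5
      · exact mgrp_mem.2 (Or.inr a4.2)
      · exact mgrp_mem.2 (Or.inr (mgrp_trans gr (mem_univ y) a4.2 a5))
  rw [card_singleton] at k8
  omega

theorem g1_card : (Y1 (g1D D s x x') s x).card ≤ p.y1 + 80 * p.m := by
  have gr := h.typ.gr
  have k1 : Y1 (g1D D s x x') s x ⊆ insert x (insert s ((fB D ∩ Yset D s x ∪ TC D s \ fB D) ∪
      (TC (rv D) s).filter (NP D s))) := by
    refine insert_subset_insert _ (insert_subset_insert _ (union_subset_union ?_ ?_))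
    · intro y k
      obtain ⟨k1, k2⟩ := mem_inter.1 k
      obtain ⟨k3, k4⟩ := mem_sdiff.1 (g1_tc gr hc k1)
      by_cases k5 : y ∈ fB D
      · exact mem_union_left _ (mem_inter.2 ⟨k5, g1_ys gr hc hn hg k4 k2⟩)
      · exact mem_union_right _ (mem_sdiff.2 ⟨k3, k5⟩)
    · intro y k
      obtain ⟨-, k1, k2⟩ := mem_filter.1 k
      have k3 : dom D s y x := ⟨k2.1, fun k3 => k2.2 (g1_anc gr hc (g1_mem gr hc).1 k3)⟩
      have k4 := (hc.dm y k1 (gr.dom_trans (mem_univ x') k3 (hc.lk.dm gr).1)).resolve_left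
        fun e => k2.1 e.symm
      obtain ⟨v, v1, v2⟩ := pbase_split gr (mem_univ x) k3
      have v3 : dom D s y v := ⟨v2.1, fun v3 => k3.2 (v3.trans v2)⟩
      exact mem_filter.2 ⟨mem_filter.2 ⟨mem_univ _, k1,
        Or.inr ⟨v, ibr_rv.2 (pgev_obr gr v1 v3)⟩⟩, mper_np hc.lk.1 k4⟩
  have k2 := (card_le_card k1).trans ((card_insert_le _ _).trans (Nat.add_le_add_right
    ((card_insert_le _ _).trans (Nat.add_le_add_right ((card_union_le _ _).trans
      (Nat.add_le_add_right (card_union_le _ _) _)) _)) _))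
  have k3 := h.tc_np
  have k4 := h.tc_fB
  have k5 := h.typ.pos
  omega

theorem g1_hubs {H : Finset α} (hH : ∀ y ∈ H, y ∈ reg (rv D) s x' ∧ ¬ IsEar D s y) :
    H.card ≤ 100 * p.m := by
  have k1 : H ⊆ (TC D s).filter (NP (rv D) s) ∪ (TC (rv D) s \ R ∪ R ∩ desc D s x) := by
    intro y k
    obtain ⟨k1, k2, k3⟩ := sg1_P h hc (hH y k).1
    rcases mem_union.1 (nonear h.typ.gr (mem_univ y) k1 (hH y k).2) with k4 | k4
    · exact mem_union_left _ (mem_filter.2 ⟨k4, k2⟩)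
    · refine mem_union_right _ ?_
      by_cases k5 : y ∈ R
      · exact mem_union_right _ (mem_inter.2 ⟨k5, k3⟩)
      · exact mem_union_left _ (mem_sdiff.2 ⟨k4, k5⟩)
  have k2 := (card_le_card k1).trans ((card_union_le _ _).trans
    (Nat.add_le_add_left (card_union_le _ _) _))
  have k3 : ((TC D s).filter (NP (rv D) s)).card ≤ 39 * p.m := h.rev.tc_np
  have k4 := h.tcR
  have k5 := g1_desc h hn hc hg hy
  omega

theorem g1_res : Res p D s (univ \ reg (rv D) s x') (g1D D s x x') 0 := by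
  have gr := h.typ.gr
  have k1 := g1_desc h hn hc hg hy
  have k2 := card_sdiff_add_card_inter R (desc D s x)
  have k3 := h.fB_le
  have k4 := h.rev.fB_le
  have k5 := h.typ.pos
  have hA : ({x} : Finset α).card ≤ p.Kb + 10 := by
    rw [card_singleton]
    omega
  have hV : ∀ y, y ∈ univ \ reg (rv D) s x' → y ∉ reg (rv D) s x' := fun y k => (mem_sdiff.1 k).2
  have k6 : (fB (rv D) \ R ∪ R ∩ desc D s x).card ≤ 100 * p.m :=
    (card_union_le _ _).trans (by omega)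
  refine ⟨card_pos.2 ⟨x', mem_compl.2 fun k => hV _ k (mgrp_mem.2 (Or.inl rfl))⟩,
    h.size (R' := R \ desc D s x) sdiff_subset Subset.rfl (by omega) (by omega) hA
      fun u hu y _ e he k => mem_sdiff.2 ⟨mem_univ _,
        (sg1_ear h hc (mem_sdiff.1 hu).2 (notMem_singleton.1 he) k).1⟩,
    gr, g1_good gr hc, ?_, ?_, fun a b => g1_av gr hc, fun z z' hz hz' => ?_,
    ⟨desc D s x, ?_, fun z _ y _ _ k => ?_⟩,
    ⟨∅, by rw [empty_inter, card_empty]; omega, fun z _ y k _ k' =>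
      Or.inl (g1_pdom gr hc (hV y k) k')⟩,
    ⟨∅, card_empty.le, fun r hr _ z hz k => ?_⟩,
    ⟨∅, card_empty.le, fun r _ _ z hz k =>
      Or.inl ⟨z, hz, k.1, fun k' => k.2 (g1_from' gr hc k')⟩⟩,
    ⟨R \ desc D s x, C, ?_, by omega, h.ear sdiff_subset Subset.rfl hA fun u hu y _ e he k =>
      (sg1_ear h hc (mem_sdiff.1 hu).2 (notMem_singleton.1 he) k).2⟩,
    fr_sub (g1_good gr hc) fun u v k _ hv _ =>
      (((g1_arc gr hc).1 k).resolve_left fun k' => hv k'.2).1⟩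
  · refine (card_le_card fun u hu => ?_).trans (card_empty.le.trans (Nat.zero_le _))
    obtain ⟨u1, u2⟩ := mem_sdiff.1 hu
    obtain ⟨a, a', a1, a2, a3⟩ := sg1_fB.1 u1
    by_cases e : u = x
    · subst e
      exact absurd (((sg1_snk h hc a).1 a2).trans ((sg1_snk h hc a').1 a3).symm) a1
    · exact absurd (sg1_fB.2 ⟨a, a', a1, (((g1_arc gr hc).1 a2).resolve_left fun k => e k.1).1,
        (((g1_arc gr hc).1 a3).resolve_left fun k => e k.1).1⟩) u2
  · refine (card_le_card fun u hu => mem_singleton.2 ?_).trans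
      ((card_singleton s).le.trans (by omega))
    obtain ⟨u1, u2⟩ := mem_sdiff.1 hu
    obtain ⟨a, a', a1, a2, a3⟩ := sg1_fB.1 u1
    by_contra e
    exact u2 (sg1_fB.2 ⟨a, a', a1, (((g1_arc gr hc).1 a2).resolve_left fun k => e k.2).1,
      (((g1_arc gr hc).1 a3).resolve_left fun k => e k.2).1⟩)
  · obtain ⟨v, v1, v2⟩ := h.cyc z z' hz hz'
    have v3 : v ∉ reg (rv D) s x' := fun v3 =>
      hc.lk.1 (hc.lk.enter v3 (g1_mem gr hc).1 v1).1.symm
    exact ⟨v, (g1_arc gr hc).2 (Or.inr ⟨v1, (g1_mem gr hc).1, v3⟩), g1_to gr hc v3 v2⟩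
  · refine (card_le_card fun y k => ?_).trans k6
    simp only [mem_union, mem_inter, mem_sdiff] at k ⊢
    tauto
  · by_cases k' : Av D {z} s y
    · exact Or.inr ((g1_from gr hc k').resolve_left k.2)
    · exact Or.inl ⟨k.1, k'⟩
  · by_cases e : z ∈ reg (rv D) s x'
    · rcases mgrp_mem.1 ((hc.lk.up e k).resolve_left (hV r hr)) with rfl | k'
      · exact Or.inr (sg1_snk h hc)
      · exact Or.inl ⟨x, hc.lk.1, g1_pdom' gr hc (g1_mem gr hc).2 hc.lk.1 k'⟩
    · exact Or.inl ⟨z, hz, g1_pdom' gr hc e hz k⟩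
  · refine (card_le_card fun y k => ?_).trans k6
    simp only [mem_union, mem_inter, mem_sdiff] at k ⊢
    (clear * - k; tauto)

theorem Nice.surG : ∃ V' D', SurG (100 * p.m) (p.y1 + 80 * p.m) (11 * p.k + 1) s D V' D' ∧
    Res p D s V' D' 0 := by
  have gr := h.typ.gr
  obtain ⟨c, c1, c2, c3⟩ := g1_code gr hc hn hg
  refine ⟨_, _, ⟨?_, x, c, c1, ?_, g1_hubs h hn hc hg hy c3, g1_card h hn hc hg hy⟩,
    g1_res h hn hc hg hy⟩
  · refine (card_le_card (t := insert x (univ.filter fun u => D u s)) fun u hu => ?_).trans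
      ((card_insert_le _ _).trans (Nat.add_le_add_right h.dI 1))
    rcases (g1_arc gr hc).1 (mem_filter.1 hu).2 with k | k
    · exact mem_insert.2 (Or.inl k.1)
    · exact mem_insert_of_mem (mem_filter.2 ⟨mem_univ _, k.1⟩)
  · rw [← compl_eq_univ_sdiff, compl_compl]
    exact c2

end Pool.Agent.Work.MP_5391ad_co
end

-- merged part: Pool.Agent.Work.MP_5391ad_co.SG0
section
/-! The surgery `SurZ`: cut the links `(x, x')`, `(w, w')` (equal or incomparable) and delete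
`P = g0P`, the vertices dominated by `x'` and post-dominated by `w`. Everything is symmetric under
`Pair.rev` (`g0P_rv`, `g0D_rv`).
`Pair.notMem`: `x'` dominates neither `x` nor `w` (`Lk.dm`, `Inc.d2`); reverse for `x'`, `w'`.
`Pair.conn`: if `x'` does not dominate `v`, a walk to `v` (stopped at the first visit if `v = x'`)
avoids `x'`, hence `P`. Otherwise go to `x'`, then from the last visit of `x'` to `v`: these
vertices are dominated by `x'`, so differ from `w`, and a vertex of `P` among them would make `w`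
a post-dominator of `v`. `Pair.map`: a walk to `s` avoiding `P` is cut at `x` or `w`.
`Pair.good`: `g0D` is `delD` of one cut or of two cuts (`CutH.second`). `Pair.to`: a walk from
`y ∉ reg (rv D) s x'` which meets `P` meets `x` before (`Lk.enter`); the part up to the first visit
of `x` avoids `P`; apply `Pair.map` after adding the arc (or argue by induction from the head).
`Pair.keep`: a walk of `g0D` from `r` to `s` avoiding `z` is a walk of `D`, or gives a walk of `D`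
to `x` or `w` avoiding `z`; then `z` post-dominates `x`, lies in `reg (rv D) s x'` (`pd`), and
`Lk.up` applies. `Pair.code`: `par p` is the tail of the out-bridge into `p ∈ P`, `tgt p` the head
of the in-bridge out of `p` (`pcode_opt`, `GR.obr_unique`, `pcode_ibr`). An arc `(u, p)` into `P`
from outside has `u ∈ reg (rv D) s x'` and is not an in-bridge (`w` would post-dominate `u`, or
`u = w`); tails of out-bridges into `P` lie in `reg (rv D) s x'`, and `Pair.dom'` carries this over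
to `g0D`. `surZ`: `dmg` with `G = reg D s w`, `pdg` with `G = reg (rv D) s x'` (`Pair.to`), the
exceptions are the four regions, `A = P ∪ {x, w}`, `R' = R \ A`, `C' = C \ A` (`Kb ≤ m`). -/

namespace Pool.Agent.Work.MP_5391ad_co

open Finset
open scoped Classical

variable {α : Type*} [Fintype α] {D : α → α → Prop} {s x x' w w' : α}

/-- two links which can both be cut -/
structure Pair (D : α → α → Prop) (s x x' w w' : α) : Prop where
  gr : GR univ D s
  c1 : CutH D s x x'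
  c2 : CutH D s w w'
  inc : (w = x ∧ w' = x') ∨ Inc D s x x' w w'

/-- the deleted set -/
noncomputable def g0P (D : α → α → Prop) (s x' w : α) : Finset α :=
  univ.filter fun p => dom D s x' p ∧ pdom D s w p

/-- the digraph after the surgery -/
def g0D (D : α → α → Prop) (s x x' w w' u v : α) : Prop :=
  ((u = x ∨ u = w) ∧ v = s) ∨ (u = s ∧ (v = x' ∨ v = w')) ∨
    (D u v ∧ u ≠ x ∧ u ≠ w ∧ u ∉ g0P D s x' w ∧ v ∉ g0P D s x' w)

theorem g0P_rv : g0P (rv D) s w x' = g0P D s x' w := by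
  ext p
  simp only [g0P, mem_filter, mem_univ, true_and, dom_rv, pdom_rv]
  exact and_comm

theorem sg0_mem {p : α} : p ∈ g0P D s x' w ↔ dom D s x' p ∧ pdom D s w p := by
  simp only [g0P, mem_filter, mem_univ, true_and]

theorem sg0_reg {z y : α} : y ∈ reg D s z ↔ y = z ∨ pdom D s z y := by
  simp only [reg, mem_filter, mem_univ, true_and]

theorem sg0_regr {z y : α} : y ∈ reg (rv D) s z ↔ y = z ∨ dom D s z y := by
  simp only [reg, mem_filter, mem_univ, true_and, pdom_rv]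

omit [Fintype α] in
/-- induction along a walk from the head -/
theorem sg0_head {B : Set α} {y : α} {M : α → Prop} (h0 : y ∉ B → M y)
    (hs : ∀ a b, a ∉ B → D a b → Av D B b y → M b → M a) {a : α} (k : Av D B a y) : M a := by
  obtain ⟨k1, k2⟩ := k
  induction k2 using Relation.ReflTransGen.head_induction_on with
  | refl => exact h0 k1
  | head e k3 ih => exact hs _ _ k1 e.1 ⟨e.2, k3⟩ (ih e.2)

/-- a walk from the root avoiding `x'` avoids the deleted set -/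
theorem sg0_free {v : α} (k : Av D {x'} s v) : Av D (g0P D s x' w) s v := by
  obtain ⟨k1, k2⟩ := k
  induction k2 with
  | refl => exact av_refl fun e => not_dom_root (sg0_mem.1 e).1
  | tail k3 e ih =>
    exact ih.tail e.1 fun e' => (sg0_mem.1 e').1.2 ⟨k1, k3.tail e⟩

/-- a walk of the new digraph to the root -/
theorem sg0_back {B : Set α} {a : α} (k : Av (g0D D s x x' w w') B a s) :
    Av D B a s ∨ Av D B a x ∨ Av D B a w := by
  refine sg0_head (M := fun a => Av D B a s ∨ Av D B a x ∨ Av D B a w)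
    (fun e => Or.inl (av_refl e)) (fun a b ha e _ ih => ?_) k
  rcases e with ⟨rfl | rfl, -⟩ | ⟨rfl, -⟩ | ⟨e, -⟩
  · exact Or.inr (Or.inl (av_refl ha))
  · exact Or.inr (Or.inr (av_refl ha))
  · exact Or.inl (av_refl ha)
  · exact ih.imp (Av.head ha e) (Or.imp (Av.head ha e) (Av.head ha e))

variable (h : Pair D s x x' w w')
include h

theorem Pair.rev : Pair (rv D) s w' w x' x :=
  ⟨h.gr.rev, h.c2.rev, h.c1.rev,
    h.inc.imp (fun e => ⟨e.2.symm, e.1.symm⟩) (Inc.rev h.c1.lk h.c2.lk)⟩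

theorem sg0_x {a b : α} (e : D a b) : a = x ↔ b = x' :=
  ⟨fun k => (h.c1.lk.2.2.1 b).1 (k ▸ e), fun k => (h.c1.lk.2.2.2 a).1 (k ▸ e)⟩

theorem sg0_w {a b : α} (e : D a b) : a = w ↔ b = w' :=
  ⟨fun k => (h.c2.lk.2.2.1 b).1 (k ▸ e), fun k => (h.c2.lk.2.2.2 a).1 (k ▸ e)⟩

theorem Pair.g0D_rv : rv (g0D D s x x' w w') = g0D (rv D) s w' w x' x := by
  funext u v
  refine propext ?_
  change g0D D s x x' w w' v u ↔ _
  unfold g0D
  rw [g0P_rv]
  constructor
  · rintro (⟨e1, e2⟩ | ⟨e1, e2⟩ | ⟨e1, e2, e3, e4, e5⟩)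
    · exact Or.inr (Or.inl ⟨e2, e1.symm⟩)
    · exact Or.inl ⟨e2.symm, e1⟩
    · exact Or.inr (Or.inr ⟨e1, mt (sg0_w h e1).2 e3, mt (sg0_x h e1).2 e2, e5, e4⟩)
  · rintro (⟨e1, e2⟩ | ⟨e1, e2⟩ | ⟨e1, e2, e3, e4, e5⟩)
    · exact Or.inr (Or.inl ⟨e2, e1.symm⟩)
    · exact Or.inl ⟨e2.symm, e1⟩
    · exact Or.inr (Or.inr ⟨e1, mt (sg0_x h e1).1 e3, mt (sg0_w h e1).1 e2, e5, e4⟩)

/-- the tails are outside the region of `x'` -/
theorem sg0_out : x ∉ reg (rv D) s x' ∧ w ∉ reg (rv D) s x' := by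
  have d1 := (h.c1.lk.dm h.gr).1
  have d2 := (h.c2.lk.dm h.gr).1
  have k : x ∉ reg (rv D) s x' := fun e => (sg0_regr.1 e).elim (fun e => d1.1 e.symm)
    fun e => h.gr.dom_asymm (mem_univ _) d1 e
  refine ⟨k, ?_⟩
  rcases h.inc with ⟨rfl, -⟩ | hi
  · exact k
  · intro e
    rcases sg0_regr.1 e with e | e
    · exact hi.d2 (e ▸ d2)
    · exact hi.d2 (h.gr.dom_trans (mem_univ _) e d2)

/-- the heads are outside the region of `w` -/
theorem sg0_out' : w' ∉ reg D s w ∧ x' ∉ reg D s w := sg0_out h.rev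

theorem Pair.notMem : s ∉ g0P D s x' w ∧ x ∉ g0P D s x' w ∧ x' ∉ g0P D s x' w ∧
    w ∉ g0P D s x' w ∧ w' ∉ g0P D s x' w :=
  ⟨fun e => not_dom_root (sg0_mem.1 e).1,
    fun e => (sg0_out h).1 (sg0_regr.2 (Or.inr (sg0_mem.1 e).1)),
    fun e => (sg0_mem.1 e).1.1 rfl, fun e => (sg0_mem.1 e).2.1 rfl,
    fun e => (sg0_out' h).1 (sg0_reg.2 (Or.inr (sg0_mem.1 e).2))⟩

theorem Pair.conn {v : α} (hv : v ∉ g0P D s x' w) : Av D (g0P D s x' w) s v := by
  have o := sg0_out h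
  have free : ∀ y, y ∉ reg (rv D) s x' → Av D (g0P D s x' w) s y := fun y hy =>
    sg0_free (not_not.1 fun e => hy (sg0_regr.2 (by
      by_cases e' : y = x'
      · exact Or.inl e'
      · exact Or.inr ⟨e', e⟩)))
  have hx : Av D (g0P D s x' w) s x' :=
    (free x o.1).tail ((h.c1.lk.2.2.1 x').2 rfl) h.notMem.2.2.1
  by_cases e : v ∈ reg (rv D) s x'
  · rcases sg0_regr.1 e with rfl | e
    · exact hx
    · obtain ⟨p, k1, k2⟩ := pbase_split h.gr (mem_univ _) e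
      have nw : ∀ q, dom D s x' q → q ≠ w := fun q hq e' =>
        o.2 (sg0_regr.2 (Or.inr (e' ▸ hq)))
      have hw : Av D {w} v s := not_not.1 fun e' => hv (sg0_mem.2 ⟨e, nw v e, e'⟩)
      have key := sg0_head
        (M := fun q => Av D {w} q s ∧ Av D (g0P D s x' w) q v) (fun _ => ⟨hw, av_refl hv⟩)
        (fun a b ha e1 e2 ih => by
          have da : dom D s x' a := ⟨ha, fun e3 => e.2 (e3.trans (Av.head ha e1 e2))⟩
          have k3 : Av D {w} a s := Av.head (nw a da) e1 ih.1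
          exact ⟨k3, Av.head (fun e3 => (sg0_mem.1 e3).2.2 k3) e1 ih.2⟩) k2
      exact hx.trans (Av.head h.notMem.2.2.1 k1 key.2)
  · exact free v e

theorem Pair.map {B : Set α} {y : α} (k : Av D (B ∪ g0P D s x' w) y s) :
    Av (g0D D s x x' w w') B y s := by
  have _ := h
  refine sg0_head (M := fun a => Av (g0D D s x x' w w') B a s)
    (fun e => av_refl fun e' => e (Or.inl e')) (fun a b ha e k1 ih => ?_) k
  have ha' : a ∉ B := fun e' => ha (Or.inl e')
  by_cases e1 : a = x ∨ a = w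
  · exact Av.head ha' (Or.inl ⟨e1, rfl⟩) (av_refl ih.not_mem_right)
  · exact Av.head ha' (Or.inr (Or.inr ⟨e, fun e' => e1 (Or.inl e'), fun e' => e1 (Or.inr e'),
      fun e' => ha (Or.inr e'), fun e' => k1.1 (Or.inr e')⟩)) ih

theorem sg0_conn' {v : α} (hv : v ∉ g0P D s x' w) : Av D (g0P D s x' w) v s := by
  have k := h.rev.conn (v := v) (by rwa [g0P_rv])
  rw [g0P_rv] at k
  exact av_rv.1 k

theorem Pair.good : GR (univ \ g0P D s x' w) (g0D D s x x' w w') s := by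
  obtain ⟨n1, n2, n3, n4, n5⟩ := h.notMem
  have g1 := h.c1.good h.gr
  rcases h.inc with ⟨rfl, rfl⟩ | hi
  · have e : g0D D s w w' w w' = delD (cutD D s w w') (g0P D s w' w) := by
      funext u v
      refine propext ⟨?_, ?_⟩
      · rintro (⟨e1, rfl⟩ | ⟨rfl, e2⟩ | ⟨e1, e2, -, e4, e5⟩)
        · obtain rfl := or_self_iff.1 e1
          exact ⟨Or.inl ⟨rfl, rfl⟩, n2, n1⟩
        · obtain rfl := or_self_iff.1 e2
          exact ⟨Or.inr (Or.inl ⟨rfl, rfl⟩), n1, n3⟩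
        · exact ⟨Or.inr (Or.inr ⟨e1, e2⟩), e4, e5⟩
      · rintro ⟨⟨e1, e2⟩ | ⟨e1, e2⟩ | ⟨e1, e2⟩, e4, e5⟩
        · exact Or.inl ⟨Or.inl e1, e2⟩
        · exact Or.inr (Or.inl ⟨e1, Or.inl e2⟩)
        · exact Or.inr (Or.inr ⟨e1, e2, e2, e4, e5⟩)
    rw [e]
    exact del_good g1 n1 fun v _ hv =>
      ⟨cut_from h.c1.lk (h.conn hv), cut_to (sg0_conn' h hv)⟩
  · have c2 := CutH.second h.gr h.c1 h.c2 hi
    have e : g0D D s x x' w w' =
        delD (cutD (cutD D s x x') s w w') (g0P D s x' w) := by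
      funext u v
      refine propext ⟨?_, ?_⟩
      · rintro (⟨rfl | rfl, rfl⟩ | ⟨rfl, rfl | rfl⟩ | ⟨e1, e2, e3, e4, e5⟩)
        · exact ⟨Or.inr (Or.inr ⟨Or.inl ⟨rfl, rfl⟩, hi.ne.symm⟩), n2, n1⟩
        · exact ⟨Or.inl ⟨rfl, rfl⟩, n4, n1⟩
        · exact ⟨Or.inr (Or.inr ⟨Or.inr (Or.inl ⟨rfl, rfl⟩), h.c2.lk.1.symm⟩), n1, n3⟩
        · exact ⟨Or.inr (Or.inl ⟨rfl, rfl⟩), n1, n5⟩
        · exact ⟨Or.inr (Or.inr ⟨Or.inr (Or.inr ⟨e1, e2⟩), e3⟩), e4, e5⟩
      · rintro ⟨⟨e1, e2⟩ | ⟨e1, e2⟩ | ⟨⟨e1, e2⟩ | ⟨e1, e2⟩ | ⟨e1, e2⟩, e3⟩, e4, e5⟩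
        · exact Or.inl ⟨Or.inr e1, e2⟩
        · exact Or.inr (Or.inl ⟨e1, Or.inr e2⟩)
        · exact Or.inl ⟨Or.inl e1, e2⟩
        · exact Or.inr (Or.inl ⟨e1, Or.inl e2⟩)
        · exact Or.inr (Or.inr ⟨e1, e2, e3, e4, e5⟩)
    rw [e]
    exact del_good (c2.good g1) n1 fun v _ hv =>
      ⟨cut_from c2.lk (cut_from h.c1.lk (h.conn hv)), cut_to (cut_to (sg0_conn' h hv))⟩

omit h in
theorem sg0_sub {p : α} (e : p ∈ g0P D s x' w) : p ∈ reg (rv D) s x' :=
  sg0_regr.2 (Or.inr (sg0_mem.1 e).1)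

omit h in
theorem sg0_sub' {p : α} (e : p ∈ g0P D s x' w) : p ∈ reg D s w :=
  sg0_reg.2 (Or.inr (sg0_mem.1 e).2)

theorem Pair.to {B : Set α} {y : α} (hy : y ∉ reg (rv D) s x') (k : Av D B y s) :
    Av (g0D D s x x' w w') B y s := by
  have hs := k.not_mem_right
  refine sg0_head (M := fun a => a ∉ reg (rv D) s x' → Av (g0D D s x x' w w') B a s)
    (fun e _ => av_refl e) (fun a b ha e _ ih hr => ?_) k hy
  by_cases e1 : a = x ∨ a = w
  · exact Av.head ha (Or.inl ⟨e1, rfl⟩) (av_refl hs)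
  · have hb : b ∉ reg (rv D) s x' := fun e' => e1 (Or.inl (h.c1.lk.enter e' hr e).1)
    exact Av.head ha (Or.inr (Or.inr ⟨e, fun e' => e1 (Or.inl e'), fun e' => e1 (Or.inr e'),
      fun e' => hr (sg0_sub e'), fun e' => hb (sg0_sub e')⟩)) (ih hb)

theorem sg0_from {B : Set α} {y : α} (hy : y ∉ reg D s w) (k : Av D B s y) :
    Av (g0D D s x x' w w') B s y := by
  have k1 := h.rev.to (B := B) (y := y) hy (av_rv.2 k)
  rw [← h.g0D_rv] at k1
  exact av_rv.1 k1

omit h in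
theorem sg0_old {a b : α} (e : g0D D s x x' w w' a b) (ha : a ≠ s) (hb : b ≠ s) : D a b := by
  rcases e with ⟨-, e⟩ | ⟨e, -⟩ | ⟨e, -⟩
  · exact (hb e).elim
  · exact (ha e).elim
  · exact e

theorem Pair.av {a b : α} (k : Av (g0D D s x x' w w') {s} a b) : Av D {s} a b := by
  have _ := h
  exact k.mono subset_rfl fun _ _ e ha hb => sg0_old e ha hb

theorem Pair.cyc {B : Set α} (k : CycA D B s) : CycA (g0D D s x x' w w') B s := by
  obtain ⟨v, k1, k2⟩ := k
  have hs : s ∉ reg (rv D) s x' := fun e =>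
    (sg0_regr.1 e).elim (fun e => h.c1.lk.2.1 e.symm) not_dom_root
  have hv : v ∉ reg (rv D) s x' := fun e => h.c1.lk.1 (h.c1.lk.enter e hs k1).1.symm
  exact ⟨v, Or.inr (Or.inr ⟨k1, h.c1.lk.1.symm, h.c2.lk.1.symm, h.notMem.1,
    fun e => hv (sg0_sub e)⟩), h.to hv k2⟩

omit h in
theorem sg0_keep (hc : CutH D s x x') {r z : α} (hz : z ≠ s) (k : pdom D s z r)
    (k1 : Av D {z} r x) : r ∈ reg (rv D) s x' ∨ r ∈ reg D s x := by
  have k2 : pdom D s z x := ⟨k1.not_mem_right, fun e => k.2 (k1.trans e)⟩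
  exact hc.lk.up (sg0_regr.2 (hc.pd z hz k2)) k

theorem Pair.keep {r z : α} (hz : z ≠ s) (k : pdom D s z r)
    (hr : r ∉ reg D s x ∪ reg (rv D) s x' ∪ reg D s w ∪ reg (rv D) s w') :
    pdom (g0D D s x x' w w') s z r := by
  simp only [mem_union, not_or] at hr
  refine ⟨k.1, fun e => ?_⟩
  rcases sg0_back e with e | e | e
  · exact k.2 e
  · exact (sg0_keep h.c1 hz k e).elim hr.1.1.2 hr.1.1.1
  · exact (sg0_keep h.c2 hz k e).elim hr.2 hr.1.2

theorem Pair.dom' {v : α} (k : dom D s x' v) : dom (g0D D s x x' w w') s x' v := by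
  refine ⟨k.1, fun e => ?_⟩
  have e1 := av_rv.2 e
  rw [h.g0D_rv] at e1
  rcases sg0_back e1 with e | e | e
  · exact k.2 (av_rv.1 e)
  · have e2 := av_rv.1 e
    rcases h.inc with ⟨-, rfl⟩ | hi
    · exact e2.1 rfl
    · exact k.2 ((not_not.1 fun e3 => hi.d2 ⟨e2.1, e3⟩ : Av D {x'} s w').trans e2)
  · exact (av_rv.1 e).1 rfl

theorem sg0_pdom' {v : α} (k : pdom D s w v) : pdom (g0D D s x x' w w') s w v := by
  have k1 := h.rev.dom' (dom_rv.2 k)
  rw [← h.g0D_rv] at k1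
  exact dom_rv.1 k1

/-- an arc into the deleted set from outside is not an in-bridge -/
theorem sg0_ent {a b : α} (ha : a ∉ g0P D s x' w) (hb : b ∈ g0P D s x' w) : ¬ IBr D s a b := by
  intro e
  obtain ⟨b1, b2⟩ := sg0_mem.1 hb
  have k : pdom D s w a := dom_rv.1 (h.gr.rev.dom_trans (mem_univ _) (dom_rv.2 b2)
    (h.gr.rev.dom_of_obr (obr_rv.2 e)))
  rcases dom_of_arc b1 e.1 with rfl | k1
  · exact (sg0_out' h).2 (sg0_reg.2 (Or.inr k))
  · exact ha (sg0_mem.2 ⟨k1, k⟩)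

theorem Pair.code : ∃ par tgt : α → Option α,
    (∀ p a, par p = some a → p ∈ g0P D s x' w ∧ a ∈ reg (rv (g0D D s x x' w w')) s x') ∧
    (∀ p a, tgt p = some a → p ∈ g0P D s x' w ∧ a ∈ reg (g0D D s x x' w w') s w) ∧
    ∀ a b, D a b ↔ par b = some a ∨ tgt a = some b ∨ (a = x ∧ b = x') ∨ (a = w ∧ b = w') ∨
      (g0D D s x x' w w' a b ∧ a ≠ x ∧ a ≠ w ∧ b ≠ x' ∧ b ≠ w') := by
  obtain ⟨par, hpar⟩ := pcode_opt (fun y u => y ∈ g0P D s x' w ∧ OBr D s u y)
    fun _ _ _ e e' => h.gr.obr_unique e.2 e'.2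
  obtain ⟨tgt, htgt⟩ := pcode_opt (fun u y => u ∈ g0P D s x' w ∧ IBr D s u y)
    fun _ _ _ e e' => pcode_ibr h.gr e.2 e'.2
  refine ⟨par, tgt, fun p a e => ?_, fun p a e => ?_, fun a b => ⟨fun e => ?_, ?_⟩⟩
  · obtain ⟨e1, e2⟩ := (hpar p a).1 e
    exact ⟨e1, sg0_regr.2 ((dom_of_arc (sg0_mem.1 e1).1 e2.1).imp_right h.dom')⟩
  · obtain ⟨e1, e2⟩ := (htgt p a).1 e
    refine ⟨e1, sg0_reg.2 ?_⟩
    exact (dom_of_arc (D := rv D) (dom_rv.2 (sg0_mem.1 e1).2) e2.1).imp_right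
      fun e3 => sg0_pdom' h (dom_rv.1 e3)
  · by_cases ha : a ∈ g0P D s x' w <;> by_cases hb : b ∈ g0P D s x' w
    · exact (h.gr.cr a b e).elim (fun k => Or.inl ((hpar b a).2 ⟨hb, k⟩))
        fun k => Or.inr (Or.inl ((htgt a b).2 ⟨ha, k⟩))
    · refine Or.inr (Or.inl ((htgt a b).2 ⟨ha, (h.gr.cr a b e).resolve_left fun k => ?_⟩))
      exact sg0_ent h.rev (by rwa [g0P_rv]) (by rwa [g0P_rv]) (ibr_rv.2 k)
    · exact Or.inl ((hpar b a).2 ⟨hb, (h.gr.cr a b e).resolve_right (sg0_ent h ha hb)⟩)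
    · refine Or.inr (Or.inr ?_)
      by_cases e1 : a = x
      · exact Or.inl ⟨e1, (sg0_x h e).1 e1⟩
      by_cases e2 : a = w
      · exact Or.inr (Or.inl ⟨e2, (sg0_w h e).1 e2⟩)
      exact Or.inr (Or.inr ⟨Or.inr (Or.inr ⟨e, e1, e2, ha, hb⟩), e1, e2,
        mt (sg0_x h e).2 e1, mt (sg0_w h e).2 e2⟩)
  · rintro (e | e | ⟨rfl, rfl⟩ | ⟨rfl, rfl⟩ | ⟨e, e1, e2, e3, e4⟩)
    · exact ((hpar b a).1 e).2.1
    · exact ((htgt a b).1 e).2.1
    · exact (h.c1.lk.2.2.1 _).2 rfl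
    · exact (h.c2.lk.2.2.1 _).2 rfl
    · rcases e with ⟨e, -⟩ | ⟨-, e⟩ | ⟨e, -⟩
      · exact (e.elim e1 e2).elim
      · exact (e.elim e3 e4).elim
      · exact e

omit h in
/-- only the root can gain out-degree -/
theorem sg0_hub : (fB (rv (g0D D s x x' w w')) \ fB (rv D)).card ≤ 1 := by
  refine le_trans (card_le_card fun u hu => ?_) (card_singleton s).le
  obtain ⟨k1, k2⟩ := mem_sdiff.1 hu
  obtain ⟨a, b, ab, ka, kb⟩ := (mem_filter.1 k1).2
  refine mem_singleton.2 (not_not.1 fun us => k2 (mem_filter.2 ⟨mem_univ _, a, b, ab, ?_⟩))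
  rcases ka with ⟨a1, a2⟩ | ⟨a1, -⟩ | ⟨a1, a2, a3, -⟩
  · rcases kb with ⟨-, b2⟩ | ⟨b1, -⟩ | ⟨-, b2, b3, -⟩
    · exact (ab (a2.trans b2.symm)).elim
    · exact (us b1).elim
    · exact (a1.elim b2 b3).elim
  · exact (us a1).elim
  · rcases kb with ⟨b1, -⟩ | ⟨b1, -⟩ | ⟨b1, -⟩
    · exact (b1.elim a2 a3).elim
    · exact (us b1).elim
    · exact ⟨a1, b1⟩

/-- the in-degree of the root -/
theorem sg0_deg : (univ.filter fun a => g0D D s x x' w w' a s).card ≤
    (univ.filter fun a => D a s).card + 2 := by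
  have e : (univ.filter fun a => g0D D s x x' w w' a s) ⊆
      insert x (insert w (univ.filter fun a => D a s)) := by
    intro a ha
    simp only [mem_insert, mem_filter, mem_univ, true_and]
    rcases (mem_filter.1 ha).2 with ⟨e, -⟩ | ⟨-, e | e⟩ | ⟨e, -⟩
    · exact e.imp_right Or.inl
    · exact (h.c1.lk.2.1 e.symm).elim
    · exact (h.c2.lk.2.1 e.symm).elim
    · exact Or.inr (Or.inr e)
  have e1 := card_le_card e
  have e2 := card_insert_le x (insert w (univ.filter fun a => D a s))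
  have e3 := card_insert_le w (univ.filter fun a => D a s)
  omega

theorem sg0_pdg {z y : α} (k : pdom (g0D D s x x' w w') s z y) :
    pdom D s z y ∨ y ∈ reg (rv D) s x' :=
  or_iff_not_imp_right.2 fun e => ⟨k.1, fun e' => k.2 (h.to e e')⟩

theorem sg0_dmg {z y : α} (k : dom (g0D D s x x' w w') s z y) :
    dom D s z y ∨ y ∈ reg D s w :=
  or_iff_not_imp_right.2 fun e => ⟨k.1, fun e' => k.2 (sg0_from h e e')⟩

theorem Pair.surZ {R C : Finset α} {p : Par} (hN : Nice p D s R C) (hP : (g0P D s x' w).Nonempty)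
    (h1 : (reg D s x).card < p.Kb) (h2 : (reg (rv D) s x').card < p.Kb)
    (h3 : (reg D s w).card < p.Kb) (h4 : (reg (rv D) s w').card < p.Kb) :
    ∃ V' D', SurZ (11 * p.k + 2) (2 * p.Kb) s D V' D' ∧ Res p D s V' D' (4 * p.Kb) := by
  obtain ⟨par, tgt, c1, c2, c3⟩ := h.code
  have hV : (univ \ g0P D s x' w)ᶜ = g0P D s x' w := by
    rw [← compl_eq_univ_sdiff, compl_compl]
  have hm : ∀ {q}, q ∈ g0P D s x' w → q ∉ univ \ g0P D s x' w := fun e e' => (mem_sdiff.1 e').2 e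
  have hPc : (g0P D s x' w).card < p.Kb := (card_le_card fun _ => sg0_sub').trans_lt h3
  have Km := hN.ok.Km
  have m0 := hN.typ.pos
  have u2 := card_union_le (reg (rv D) s x') (reg D s w)
  refine ⟨univ \ g0P D s x' w, g0D D s x x' w w', ⟨?_, ?_, ?_, x, x', w, w', par, tgt,
    Or.inl ⟨Or.inl rfl, rfl⟩, Or.inl ⟨Or.inr rfl, rfl⟩, Or.inr (Or.inl ⟨rfl, Or.inl rfl⟩),
    Or.inr (Or.inl ⟨rfl, Or.inr rfl⟩), ?_, ?_, fun q a e => ⟨hm (c1 q a e).1, Or.inr (c1 q a e).2⟩,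
    fun q a e => ⟨hm (c2 q a e).1, Or.inr (c2 q a e).2⟩, c3⟩, ?_, ?_, ?_⟩
  · exact (sg0_deg h).trans (Nat.add_le_add_right hN.dI 2)
  · have k := sg0_deg h.rev
    rw [← h.g0D_rv] at k
    exact le_trans k (Nat.add_le_add_right hN.dO 2)
  · rw [hV]
    omega
  · refine le_trans (card_le_card (t := reg (rv D) s x' ∪ reg D s w) fun y hy => ?_) (by omega)
    rcases sg0_regr.1 (mem_inter.1 hy).2 with e | e
    · exact mem_union_left _ (sg0_regr.2 (Or.inl e))
    · exact mem_union.2 ((sg0_dmg h e).imp_left fun e => sg0_regr.2 (Or.inr e))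
  · refine le_trans (card_le_card (t := reg (rv D) s x' ∪ reg D s w) fun y hy => ?_) (by omega)
    rcases sg0_reg.1 (mem_inter.1 hy).2 with e | e
    · exact mem_union_right _ (sg0_reg.2 (Or.inl e))
    · exact mem_union.2 ((sg0_pdg h e).imp_left fun e => sg0_reg.2 (Or.inr e)).symm
  · rw [hV]
    exact card_pos.2 hP
  · exact hN.size (A := g0P D s x' w) subset_rfl subset_rfl (Nat.le_add_right _ _)
      (Nat.le_add_right _ _) (by omega) fun _ _ _ _ e he _ => mem_sdiff.2 ⟨mem_univ _, he⟩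
  · have hX : (reg D s x ∪ reg (rv D) s x' ∪ reg D s w ∪ reg (rv D) s w').card ≤ 4 * p.Kb := by
      have a1 := card_union_le (reg D s x ∪ reg (rv D) s x' ∪ reg D s w) (reg (rv D) s w')
      have a2 := card_union_le (reg D s x ∪ reg (rv D) s x') (reg D s w)
      have a3 := card_union_le (reg D s x) (reg (rv D) s x')
      omega
    obtain ⟨A, hA⟩ : ∃ A, A = insert x (insert w (g0P D s x' w)) := ⟨_, rfl⟩
    have hA1 : A.card ≤ p.Kb + 1 := by
      have a1 := card_insert_le x (insert w (g0P D s x' w))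
      have a2 := card_insert_le w (g0P D s x' w)
      rw [hA]
      omega
    have hA2 : ∀ a b, D a b → a ∉ A → b ∉ A → g0D D s x x' w w' a b := by
      intro a b e ha hb
      simp only [hA, mem_insert, not_or] at ha hb
      exact Or.inr (Or.inr ⟨e, ha.1, ha.2.1, ha.2.2, hb.2.2⟩)
    have hA3 : ∀ S T : Finset α, (S \ T).card ≤ 36 * p.m + 1 →
        (S \ (T \ A)).card ≤ 100 * p.m := by
      intro S T k
      have a1 : S \ (T \ A) ⊆ (S \ T) ∪ A := by
        intro y hy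
        simp only [mem_sdiff, mem_union] at hy ⊢
        tauto
      have a2 := card_le_card a1
      have a3 := card_union_le (S \ T) A
      omega
    refine ⟨h.gr, h.good, sg0_hub.trans (by omega), ?_, fun _ _ => h.av,
      fun z z' e e' => h.cyc (hN.cyc z z' e e'),
      ⟨reg D s w, (card_le_card inter_subset_left).trans (by omega),
        fun _ _ _ _ _ k => sg0_dmg h k⟩,
      ⟨reg (rv D) s x', (card_le_card inter_subset_left).trans (by omega),
        fun _ _ _ _ _ k => sg0_pdg h k⟩,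
      ⟨_, hX, fun r _ hr z hz k => Or.inl ⟨z, hz, h.keep hz k hr⟩⟩,
      ⟨_, hX, fun r _ hr z hz k => Or.inl ⟨z, hz, ?_⟩⟩,
      ⟨R \ A, C \ A, hA3 _ _ hN.rev.fB_le, hA3 _ _ hN.fB_le,
        hN.ear (A := A) sdiff_subset sdiff_subset (by omega) fun u hu y hy e he k =>
          ⟨hA2 _ _ ((k.1 u).2 rfl) (mem_sdiff.1 hu).2 he,
            hA2 _ _ ((k.2 y).2 rfl) he (mem_sdiff.1 hy).2⟩⟩,
      fr_sub h.good fun _ _ e a b _ => sg0_old e a b⟩
    · have k := sg0_hub (D := rv D) (s := s) (x := w') (x' := w) (w := x') (w' := x)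
      rw [← h.g0D_rv] at k
      exact le_trans k (by omega)
    · have k1 := h.rev.keep hz (pdom_rv.2 k) (by
        simp only [mem_union, not_or] at hr ⊢
        exact ⟨⟨⟨hr.2, hr.1.2⟩, hr.1.1.2⟩, hr.1.1.1⟩)
      rw [← h.g0D_rv] at k1
      exact pdom_rv.1 k1

end Pool.Agent.Work.MP_5391ad_co
end

-- merged part: Pool.Agent.Work.MP_5391ad_co.SIso
section
/-! The surgery `SurI`: contract a fat link. `X = linkX univ D x x'`; use `GR.flink_closed` and
`pgev_mk` (arcs out of `insert x X` are the arcs into `insert x' X`; `pgev_S.thru` gives a walk from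
`x` to `x'` inside `X`).
`con_down`: a walk which enters `X` does so from `x` and leaves through `x'`. `con_up`: replace the
arc `(x, x')` by a walk through `X`. Both hold for `D` without a fixed arc `(u, v)`,
`u ∉ insert x X`, which gives `cr`. `dg`: if the vertex `z` of `D` lies in `X`, use `x'` for `u = x`
(`c1`), `x` for `u = x'` (`c2`); otherwise closed walks through `u` which meet `X` meet `x` and
`x'`; use `x'` if `z` dominates `u`, and `x` if it post-dominates `u`.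
`iso_perm`: induction on the walk from the head (`Relation.ReflTransGen.head_induction_on`),
strengthened to start at any vertex `a` of the walk; if the new vertex is already moved, shorten
(alternatively take a shortest walk as a list without repetition and `List.formPerm`).
`con_frames`: send `π` to `π * γ` if `π x' = x` and to `π` otherwise; if `γ = 1` then `D x x'`;
otherwise `π * γ` moves a point of `X`, while the members of `pV (univ \ X)` fix `X`.
`con_code`: `GR.exists_code` as in `GR.gev`. `surI`: `X` is dominated by `x` and post-dominated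
by `x'` (`mper_np`, `Nice.hubs`); a link of `conD` other than `(x, x')` is a link of `D`;
`R' = R \ insert x X` (`np_lt`), `C' = C`, `A = {x}`. For `z ∈ X` use `x'` in `npr` and `x` in
`npc`. No new hubs. -/

namespace Pool.Agent.Work.MP_5391ad_co

open Finset
open scoped Classical

variable {α : Type*} [Fintype α] {D : α → α → Prop} {s x x' : α}

section aux

omit [Fintype α]

theorem siso_down {E E' : α → α → Prop} {X : Finset α} (xX : x ∉ X)
    (cl : ∀ w y, E w y → ((w = x ∨ w ∈ X) ↔ (y = x' ∨ y ∈ X))) (h1 : E' x x')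
    (h2 : ∀ u w, E u w → ¬ (u = x ∨ u ∈ X) → E' u w) {B : Set α} {a b : α} (ha : a ∉ X)
    (k : Av E B a b) : (b ∉ X → Av E' B a b) ∧ (b ∈ X → Av E' B a x) := by
  obtain ⟨k1, k2⟩ := k
  induction k2 with
  | refl => exact ⟨fun _ => av_refl k1, fun e => (ha e).elim⟩
  | @tail p q _ k3 ih =>
    by_cases e : p = x ∨ p ∈ X
    · have k4 : Av E' B a x := e.elim (fun e => e ▸ ih.1 (e ▸ xX)) ih.2
      refine ⟨fun e' => ?_, fun _ => k4⟩
      obtain rfl := ((cl p q k3.1).1 e).resolve_right e'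
      exact k4.tail h1 k3.2
    · exact ⟨fun _ => (ih.1 fun e' => e (Or.inr e')).tail (h2 p q k3.1 e) k3.2,
        fun e' => (e ((cl p q k3.1).2 (Or.inr e'))).elim⟩

theorem siso_up {E E' : α → α → Prop} {B : Set α} (h1 : x ∉ B → x' ∉ B → Av E B x x')
    (h2 : ∀ u w, E' u w → (u = x ∧ w = x') ∨ E u w) {a b : α} (k : Av E' B a b) : Av E B a b := by
  obtain ⟨k1, k2⟩ := k
  induction k2 with
  | refl => exact av_refl k1
  | @tail p q _ k3 ih =>
    rcases h2 p q k3.1 with ⟨rfl, rfl⟩ | e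
    · exact ih.trans (h1 ih.not_mem_right k3.2)
    · exact ih.tail e k3.2

theorem siso_chain {X : Finset α} {p : α}
    (k : Relation.ReflTransGen (fun a b => D a b ∧ (b ∈ X ∨ b = x')) p x') (hp : p ∈ X ∨ p = x') :
    ∃ T : Set α, p ∈ T ∧ ∀ c ∈ T, ∃ γ : Equiv.Perm α, (∀ y, y ∉ T → γ y = y) ∧
      (∀ y, y ∉ X → y ≠ x' → γ y = y) ∧ γ c = x' ∧ ∀ y, y ∈ X ∨ y = x' → y ≠ c →
        (γ y = y ∧ y ≠ x') ∨ (γ y ∈ X ∧ D (γ y) y) := by
  induction k using Relation.ReflTransGen.head_induction_on with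
  | refl => exact ⟨{x'}, rfl, fun c hc => ⟨1, fun _ _ => rfl, fun _ _ _ => rfl, hc,
      fun y _ e => Or.inl ⟨rfl, fun e' => e (e'.trans hc.symm)⟩⟩⟩
  | @head a b k1 _ ih =>
    obtain ⟨T, hb, hT⟩ := ih k1.2
    by_cases ha : a ∈ T
    · exact ⟨T, ha, hT⟩
    obtain ⟨γ, g1, g2, g3, g4⟩ := hT b hb
    have ab : a ≠ b := fun e => ha (e ▸ hb)
    have aX : a ∈ X := hp.resolve_right fun e =>
      ab (γ.injective ((g1 a ha).trans (e.trans g3.symm)))
    refine ⟨insert a T, Or.inl rfl, fun c hc => ?_⟩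
    rcases hc with rfl | hc
    · refine ⟨γ * Equiv.swap c b, fun y hy => ?_, fun y y1 y2 => ?_, by simpa using g3,
        fun y y1 y2 => ?_⟩
      · rw [Equiv.Perm.mul_apply, Equiv.swap_apply_of_ne_of_ne (fun e => hy (Or.inl e))
          fun e => hy (Or.inr (e ▸ hb)), g1 y fun e => hy (Or.inr e)]
      · rw [Equiv.Perm.mul_apply, Equiv.swap_apply_of_ne_of_ne (fun e : y = c => y1 (e ▸ aX))
          fun e : y = b => k1.2.elim (fun e' => y1 (e ▸ e')) fun e' => y2 (e.trans e'),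
          g2 y y1 y2]
      · by_cases e : y = b
        · rw [e, Equiv.Perm.mul_apply, Equiv.swap_apply_right, g1 c ha]
          exact Or.inr ⟨aX, k1.1⟩
        · rw [Equiv.Perm.mul_apply, Equiv.swap_apply_of_ne_of_ne y2 e]
          exact g4 y y1 e
    · obtain ⟨δ, d1, d2⟩ := hT c hc
      exact ⟨δ, fun y hy => d1 y fun e => hy (Or.inr e), d2⟩

end aux

theorem iso_perm {X : Finset α} (hx : x ∉ X) (hx' : x' ∉ X) (hne : x ≠ x')
    (hw : Av D {y | y ∉ X ∧ y ≠ x ∧ y ≠ x'} x x') : ∃ γ : Equiv.Perm α,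
      (∀ y, y ∉ X → y ≠ x' → γ y = y) ∧ ∀ y, y ∈ X ∨ y = x' →
        (γ y = y ∧ y ≠ x') ∨ (γ y ∈ X ∧ D (γ y) y) ∨ (γ y = x' ∧ D x y) := by
  have _ := hx
  have _ := hx'
  rcases av_last {x} hw with k | e | ⟨c, p, e, -, k1, k2⟩
  · exact (k.1 (Or.inr rfl)).elim
  · exact (hne e.symm).elim
  rw [show c = x from e] at k1
  have key : ∀ b, b ∉ ({y | y ∉ X ∧ y ≠ x ∧ y ≠ x'} ∪ {x} : Set α) → b ∈ X ∨ b = x' := by
    intro b hb
    by_contra e
    exact hb (or_iff_not_imp_right.2 fun e' => ⟨fun k => e (Or.inl k), e', fun k => e (Or.inr k)⟩)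
  obtain ⟨T, hp, hT⟩ := siso_chain (pbase_mono k2.2 fun _ b e => ⟨e.1, key b e.2⟩) (key p k2.1)
  obtain ⟨γ, -, g2, g3, g4⟩ := hT p hp
  refine ⟨γ, g2, fun y hy => ?_⟩
  by_cases e : y = p
  · exact Or.inr (Or.inr ⟨e ▸ g3, e ▸ k1⟩)
  · exact (g4 y hy e).imp_right Or.inl

variable (h : GR univ D s) (hl : FLink D s x x')
include h hl

theorem siso_thru {B : Set α} (hB : ∀ y ∈ linkX univ D x x', y ∉ B) (h1 : x ∉ B) (h2 : x' ∉ B) :
    Av (fun a b => D a b ∧ (a = x ∨ a ∈ linkX univ D x x')) B x x' := by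
  have S := pgev_mk h hl
  have key : ∀ p, Av D {x'} x p → (p = x ∨ p ∈ linkX univ D x x') ∧
      Av (fun a b => D a b ∧ (a = x ∨ a ∈ linkX univ D x x')) B x p := by
    rintro p ⟨-, k⟩
    induction k with
    | refl => exact ⟨Or.inl rfl, av_refl h1⟩
    | @tail p q _ k2 ih =>
      have e := ((S.cl p q k2.1).1 ih.1).resolve_left k2.2
      exact ⟨Or.inr e, ih.2.tail ⟨k2.1, ih.1⟩ (hB q e)⟩
  rcases av_first {x'} hl.sc.1 with k | e | ⟨p, _, rfl, k1, k2, -⟩
  · exact (k.not_mem_right (Or.inr rfl)).elim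
  · exact (S.xy e).elim
  · exact (key p (pbase_r k1)).2.tail ⟨k2, (key p (pbase_r k1)).1⟩ h2

theorem siso_mem {a b : α} (k : conD D x x' a b) :
    a ∉ linkX univ D x x' ∧ b ∉ linkX univ D x x' := by
  have S := pgev_mk h hl
  rcases k with ⟨rfl, rfl⟩ | ⟨k1, k2, k3⟩
  · exact ⟨S.xX, S.yX⟩
  · exact ⟨k3, fun e => ((S.cl a b k1).2 (Or.inr e)).elim k2 k3⟩

theorem con_lk : Lk (conD D x x') s x x' := by
  have S := pgev_mk h hl
  refine ⟨S.xs, S.ys, fun y => ⟨fun k => k.elim And.right fun e => (e.2.1 rfl).elim,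
    fun e => Or.inl ⟨rfl, e⟩⟩, fun u => ⟨fun k => k.elim And.left fun e => ?_,
    fun e => Or.inl ⟨e, rfl⟩⟩⟩
  exact (((S.cl u x' e.1).2 (Or.inl rfl)).elim e.2.1 e.2.2).elim

theorem con_down {B : Set α} {a b : α} (ha : a ∉ linkX univ D x x') (hb : b ∉ linkX univ D x x')
    (k : Av D B a b) : Av (conD D x x') B a b :=
  (siso_down (pgev_mk h hl).xX (pgev_mk h hl).cl (Or.inl ⟨rfl, rfl⟩)
    (fun _ _ k1 k2 => Or.inr ⟨k1, not_or.1 k2⟩) ha k).1 hb

theorem con_up {B : Set α} (hB : ∀ y ∈ linkX univ D x x', y ∉ B) {a b : α}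
    (k : Av (conD D x x') B a b) : Av D B a b :=
  siso_up (fun h1 h2 => (siso_thru h hl hB h1 h2).mono le_rfl fun _ _ e _ _ => e.1)
    (fun _ _ e => e.imp_right And.left) k

theorem siso_irr (a : α) : ¬ conD D x x' a a := fun k =>
  k.elim (fun e => (pgev_mk h hl).xy (e.1.symm.trans e.2)) fun e => h.irr a e.1

theorem siso_cyc {B B' : Set α} (hB : ∀ a b, a ∉ linkX univ D x x' →
    Av (conD D x x') B' a b → Av D B a b) {u : α} (k : CycA (conD D x x') B' u) : CycA D B u := by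
  obtain ⟨v, k1, k2⟩ := k
  exact pgev_cyc (hB u v (siso_mem h hl k1).1 ((av_refl k2.not_mem_right).tail k1 k2.1))
    (fun e => siso_irr h hl u (e ▸ k1)) (hB v u (siso_mem h hl k1).2 k2)

/-- a vertex of the contracted digraph which blocks at least the walks blocked by `z` -/
theorem siso_rep {z u : α} (hz : z ≠ s) (hu : z ≠ u) : ∃ z', z' ≠ s ∧ z' ≠ u ∧
    ∀ B B' : Set α, z' ∈ B' → (∀ y ∈ B', y = s ∨ y = z') → (∀ y ∈ B, y = z ∨ y ∈ B') →
      ∀ a b, a ∉ linkX univ D x x' → Av (conD D x x') B' a b → Av D B a b := by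
  have S := pgev_mk h hl
  by_cases e : z ∈ linkX univ D x x'
  · obtain ⟨z', z1, z2, z3⟩ : ∃ z', z' ≠ s ∧ z' ≠ u ∧ (z' = x ∨ z' = x') := by
      by_cases e' : x = u
      · exact ⟨x', S.ys, fun k => S.xy (e'.trans k.symm), Or.inr rfl⟩
      · exact ⟨x, S.xs, e', Or.inl rfl⟩
    refine ⟨z', z1, z2, fun B B' b1 _ b3 a b ha k => ?_⟩
    obtain ⟨k1, k2⟩ := k
    induction k2 with
    | refl => exact av_refl fun k => (b3 a k).elim (fun e' => ha (e' ▸ e)) k1
    | @tail p q k2 k3 ih =>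
      have hp : p ∉ B' := Av.not_mem_right ⟨k1, k2⟩
      refine ih.tail (k3.1.resolve_left ?_).1 fun k =>
        (b3 q k).elim (fun e' => (siso_mem h hl k3.1).2 (e' ▸ e)) k3.2
      rintro ⟨rfl, rfl⟩
      exact z3.elim (fun e' => hp (e' ▸ b1)) fun e' => k3.2 (e' ▸ b1)
  · refine ⟨z, hz, hu, fun B B' b1 b2 b3 a b _ k => pgev_sub (con_up h hl (fun y hy k => ?_) k)
      fun y hy => (b3 y hy).elim (fun e' => e' ▸ b1) id⟩
    exact (b2 y k).elim (fun e' => S.sX (e' ▸ hy)) fun e' => e (e' ▸ hy)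

theorem siso_arc {u w a b : α} (hu : ¬ (u = x ∨ u ∈ linkX univ D x x'))
    (k : Relation.ReflTransGen (fun a b => conD D x x' a b ∧ ¬ (a = u ∧ b = w)) a b) :
    Relation.ReflTransGen (fun a b => D a b ∧ ¬ (a = u ∧ b = w)) a b :=
  av_empty.1 (siso_up (x := x) (x' := x') (fun h1 h2 =>
    (siso_thru h hl (fun _ _ => id) h1 h2).mono le_rfl
      fun _ _ e _ _ => ⟨e.1, fun e' => hu (e'.1 ▸ e.2)⟩)
    (fun _ _ e => e.1.imp_right fun e' => ⟨e'.1, e.2⟩) (av_empty.2 k))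

theorem con_good : GR (univ \ linkX univ D x x') (conD D x x') s := by
  have S := pgev_mk h hl
  have hV : ∀ a, a ∈ univ \ linkX univ D x x' ↔ a ∉ linkX univ D x x' := fun a => by simp
  refine ⟨(hV s).2 S.sX, fun a b k => ⟨(hV a).2 (siso_mem h hl k).1, (hV b).2 (siso_mem h hl k).2⟩,
    siso_irr h hl, fun y hy => av_empty.1 (con_down h hl S.sX ((hV y).1 hy)
      (av_empty.2 (h.fwd y (mem_univ y)))), fun y hy => av_empty.1 (con_down h hl ((hV y).1 hy) S.sX
      (av_empty.2 (h.bwd y (mem_univ y)))), fun u w k => ?_, fun u k => ?_⟩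
  · rcases id k with ⟨rfl, rfl⟩ | ⟨k1, k2⟩
    · refine Or.inl ⟨k, fun k' => ?_⟩
      rcases k'.cases_tail with e | ⟨a, -, a1, a2⟩
      · exact S.ys e
      · exact a2 ⟨((con_lk h hl).2.2.2 a).1 a1, rfl⟩
    · exact (h.cr u w k1).imp (fun e => ⟨k, fun e' => e.2 (siso_arc h hl (not_or.2 k2) e')⟩)
        fun e => ⟨k, fun e' => e.2 (siso_arc h hl (not_or.2 k2) e')⟩
  · obtain ⟨z, z1, z2, z3, z4⟩ := h.dg u (siso_cyc h hl (fun a b _ =>
      con_up h hl fun y hy (e : y = s) => S.sX (e ▸ hy)) k)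
    obtain ⟨z', y1, y2, y3⟩ := siso_rep h hl z2 z1
    have hu : u ∉ linkX univ D x x' := let ⟨_, k1, _⟩ := k; (siso_mem h hl k1).1
    have y4 := y3 {z} {z'} rfl (fun _ => Or.inr) fun _ => Or.inl
    exact ⟨z', y2, y1, fun e => z3 (siso_cyc h hl (y3 {s, z} {s, z'} (Or.inr rfl) (fun _ => id)
      fun _ e => e.symm.imp_right Or.inl) e),
      z4.imp (fun e => ⟨y2.symm, fun e' => e.2 (y4 _ _ S.sX e')⟩)
        fun e => ⟨y2.symm, fun e' => e.2 (y4 _ _ hu e')⟩⟩

theorem con_frames : (frames (univ \ linkX univ D x x')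
    (matV (univ \ linkX univ D x x') (conD D x x') s) s s).card ≤
      (frames univ (matV univ D s) s s).card := by
  have S := pgev_mk h hl
  obtain ⟨γ, g1, g2⟩ := iso_perm (D := D) S.xX S.yX S.xy
    ((siso_thru h hl (fun y hy e => e.1 hy) (fun e => e.2.1 rfl) fun e => e.2.2 rfl).mono le_rfl
      fun _ _ e _ _ => e.1)
  have hF : ∀ π ∈ frames (univ \ linkX univ D x x')
      (matV (univ \ linkX univ D x x') (conD D x x') s) s s,
      (∀ a ∈ linkX univ D x x', π a = a) ∧ π s = s ∧ ∀ j, j ∉ linkX univ D x x' → j ≠ s →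
        ¬ (π j = x ∧ j = x') → matV univ D s (π j) j := by
    intro π hπ
    obtain ⟨a1, a2, a3⟩ := mem_filter.1 hπ
    refine ⟨fun a ha => (mem_filter.1 a1).2 a (by simpa using ha), a2, fun j j1 j2 j3 => ?_⟩
    exact (a3 j (by simpa using j1) j2).imp (fun e => (e.resolve_left j3).1)
      fun e => ⟨e.1, mem_univ _, e.2.2⟩
  have hd : ∀ j, j ≠ s → matV univ D s j j := fun j e => Or.inr ⟨rfl, mem_univ _, e⟩
  have mix : ∀ π ρ : Equiv.Perm α, (∀ a ∈ linkX univ D x x', π a = a) →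
      (∀ a ∈ linkX univ D x x', ρ a = a) → π * γ = ρ → ρ x' = π x' := by
    intro π ρ h1 h2 e
    have h3 : ∀ y, y ≠ x' → γ y = y := fun y hy => by
      by_cases e' : y ∈ linkX univ D x x'
      · exact π.injective (by rw [h1 y e', ← Equiv.Perm.mul_apply, e, h2 y e'])
      · exact g1 y e' hy
    have h4 : γ x' = x' := by
      by_contra e'
      exact e' (γ.injective (h3 _ e'))
    rw [← e, Equiv.Perm.mul_apply, h4]
  refine card_le_card_of_injOn (fun π => if π x' = x then π * γ else π) (fun π hπ => ?_)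
    fun π hπ ρ hρ e => ?_
  · obtain ⟨a1, a2, a3⟩ := hF π hπ
    refine mem_filter.2 ⟨mem_filter.2 ⟨mem_univ _, fun a ha => (ha (mem_univ a)).elim⟩, ?_⟩
    dsimp only
    split_ifs with e
    · refine ⟨by rw [Equiv.Perm.mul_apply, g1 s S.sX S.ys.symm, a2], fun j _ hj => ?_⟩
      rw [Equiv.Perm.mul_apply]
      by_cases e' : j ∈ linkX univ D x x' ∨ j = x'
      · rcases g2 j e' with ⟨b1, b2⟩ | ⟨b1, b2⟩ | ⟨b1, b2⟩
        · rw [b1, a1 j (e'.resolve_right b2)]
          exact hd j hj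
        · rw [a1 _ b1]
          exact Or.inl b2
        · rw [b1, e]
          exact Or.inl b2
      · rw [g1 j (not_or.1 e').1 (not_or.1 e').2]
        exact a3 j (not_or.1 e').1 hj fun k => e' (Or.inr k.2)
    · refine ⟨a2, fun j _ hj => ?_⟩
      by_cases e' : j ∈ linkX univ D x x'
      · rw [a1 j e']
        exact hd j hj
      · exact a3 j e' hj fun k => e (k.2 ▸ k.1)
  · dsimp only at e
    split_ifs at e with e1 e2 e2
    · exact mul_right_cancel e
    · exact (e2 ((mix π ρ (hF π hπ).1 (hF ρ hρ).1 e).trans e1)).elim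
    · exact (e1 ((mix ρ π (hF ρ hρ).1 (hF π hπ).1 e.symm).trans e2)).elim
    · exact e

theorem con_code : ∃ c : OCode α, Obj D (conD D x x') x x' c ∧
    Val0 x (linkX univ D x x') {x'} c ∧ ∀ y ∈ c.H, y ∈ linkX univ D x x' ∧ ¬ IsEar D s y := by
  have S := pgev_mk h hl
  have h6 := (h.flink_closed hl).2.2.2.2.2
  obtain ⟨f, hf⟩ : ∃ f : Option α, ∀ u, f = some u ↔ OBr D s u x' := by
    by_cases e : ∃ u, OBr D s u x'
    · obtain ⟨u, e⟩ := e
      exact ⟨some u, fun v => ⟨fun k => Option.some.inj k ▸ e,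
        fun k => congrArg _ (h.obr_unique e k)⟩⟩
    · exact ⟨none, fun v => ⟨fun k => (by cases k), fun k => (e ⟨v, k⟩).elim⟩⟩
  obtain ⟨c, c1, -, c0, -, -, -, c2, -⟩ := h.exists_code (a := x) (g := x')
    (P := linkX univ D x x') (Y := {x'}) (f := f) (subset_univ _) S.sX S.xX S.yX
    (fun w y hy k => ((S.cl w y k).2 (Or.inr hy)).symm)
    (fun y k => ((S.cl x y k).1 (Or.inl rfl)).elim
      (fun e => Or.inr ⟨(hf x).2 (pgev_obr h (e ▸ k) hl.dm), e⟩)
      fun e => Or.inl ⟨e, pgev_obr h k (h6 y e).2.1⟩)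
    (fun u k => ⟨((hf u).1 k).1, ((S.cl u x' ((hf u).1 k).1).2 (Or.inl rfl)).imp_right fun e =>
      ⟨e, fun ⟨_, y, _, k1, _, k2⟩ => k2 ((k1 x').1 ((hf u).1 k).1 ▸ (hf u).1 k)⟩⟩)
    (fun u hu y hy k => by
      obtain rfl := ((S.cl u y k).1 (Or.inr hu)).resolve_right hy
      exact (em _).imp (fun e => ⟨(hf u).2 e, rfl⟩) fun e => ⟨mem_singleton_self _, e⟩)
  refine ⟨c, ⟨(con_lk h hl).2.2.1, fun u w => ?_⟩, c1, fun y hy => (c0 y).1 hy⟩
  rw [c2]
  constructor
  · intro k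
    by_cases e : u ∈ linkX univ D x x' ∨ u = x
    · exact Or.inl ⟨e, k⟩
    · exact Or.inr ⟨Or.inr ⟨k, (not_or.1 e).symm⟩, (not_or.1 e).2⟩
  · rintro (k | ⟨k1, k2⟩)
    · exact k.2
    · exact (k1.resolve_left fun e => k2 e.1).1

omit h in
theorem Nice.surI {R C : Finset α} {p : Par} (hN : Nice p D s R C)
    (hX : (linkX univ D x x').Nonempty) :
    ∃ V' D', SurI (100 * p.m) (21 * p.k + 1) s D V' D' ∧ Res p D s V' D' 0 := by
  have h := hN.typ.gr
  have S := pgev_mk h hl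
  have h6 := (h.flink_closed hl).2.2.2.2.2
  have L := con_lk h hl
  have hV : ∀ a, a ∈ univ \ linkX univ D x x' → a ∉ linkX univ D x x' := fun a => by simp
  have hc : (univ \ linkX univ D x x')ᶜ = linkX univ D x x' := by
    rw [← compl_eq_univ_sdiff, compl_compl]
  have hm := hN.typ.pos
  have hnp := hN.typ.np_lt
  have hR : ∀ u ∈ R, u ∉ R \ insert x (linkX univ D x x') → u ∈ R.filter (NP D s) := by
    intro u hu k
    refine mem_filter.2 ⟨hu, mper_np S.ys ?_⟩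
    rcases mem_insert.1 (not_not.1 fun e => k (mem_sdiff.2 ⟨hu, e⟩)) with rfl | e
    exacts [hl.pd, (h6 u e).1]
  have hE : ∀ u ∈ R \ insert x (linkX univ D x x'), ∀ e, D u e →
      conD D x x' u e ∧ e ∉ linkX univ D x x' := fun u hu e k =>
    have k1 : conD D x x' u e := Or.inr ⟨k, not_or.1 fun e' => (mem_sdiff.1 hu).2 (mem_insert.2 e')⟩
    ⟨k1, (siso_mem h hl k1).2⟩
  have out : ∀ u w, conD D x x' u w → u ≠ x → D u w := fun u w k e =>
    (k.resolve_left fun e' => e e'.1).1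
  have inn : ∀ u w, conD D x x' u w → w ≠ x' → D u w := fun u w k e =>
    (k.resolve_left fun e' => e e'.2).1
  have h0 : ∀ T : Finset α, (∅ ∩ T).card ≤ 100 * p.m := fun T => by simp
  obtain ⟨c, c1, c2, c3⟩ := con_code h hl
  refine ⟨univ \ linkX univ D x x', conD D x x', ⟨?_, x, x', c, L, c1, hc.symm ▸ c2, ?_⟩,
    hc.symm ▸ card_pos.2 hX, ?_, h, con_good h hl, ?_, ?_,
    fun a b => con_up h hl fun y hy (e : y = s) => S.sX (e ▸ hy), fun z z' z1 z2 => ?_,
    ⟨∅, h0 _, fun z _ y hy _ k => Or.inl ⟨k.1, fun e => k.2 (con_down h hl S.sX (hV y hy) e)⟩⟩,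
    ⟨∅, h0 _, fun z _ y hy _ k => Or.inl ⟨k.1, fun e => k.2 (con_down h hl (hV y hy) S.sX e)⟩⟩,
    ⟨∅, le_rfl, fun r hr _ z hz k => Or.inl ?_⟩, ⟨∅, le_rfl, fun r _ _ z hz k => Or.inl ?_⟩,
    ⟨R \ insert x (linkX univ D x x'), C, ?_, hN.fB_le.trans (by omega), ?_⟩, con_frames h hl⟩
  · refine (card_le_card (t := insert (x, x') (lks D s)) fun q hq => ?_).trans
      ((card_insert_le _ _).trans (Nat.succ_le_succ hN.lk))
    obtain ⟨w, w'⟩ := q
    obtain ⟨a1, a2, a3, a4⟩ : Lk (conD D x x') s w w' := (mem_filter.1 hq).2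
    have a5 := (a3 w').2 rfl
    refine mem_insert.2 (or_iff_not_imp_left.2 fun e => mem_filter.2 ⟨mem_univ _, a1, a2, ?_, ?_⟩)
    · have a6 : w ≠ x := fun e' => e (by rw [e', (L.2.2.1 w').1 (e' ▸ a5)])
      exact fun y => ⟨fun k => (a3 y).1 (Or.inr ⟨k, a6, (siso_mem h hl a5).1⟩),
        fun k => out _ _ ((a3 y).2 k) a6⟩
    · have a6 : w' ≠ x' := fun e' => e (by rw [e', (L.2.2.2 w).1 (e' ▸ a5)])
      exact fun u => ⟨fun k => (a4 u).1 (Or.inr ⟨k, not_or.1 fun e' =>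
        ((S.cl u w' k).1 e').elim a6 (siso_mem h hl a5).2⟩), fun k => inn _ _ ((a4 u).2 k) a6⟩
  · refine (hN.hubs fun y hy => ⟨fun e => S.sX (e ▸ (c3 y hy).1), (c3 y hy).2,
      mper_np S.ys (h6 y (c3 y hy).1).1, mper_np S.xs (pdom_rv.2 (h6 y (c3 y hy).1).2.1)⟩).trans
      (by omega)
  · refine hN.size (A := {x}) (sdiff_subset (t := insert x (linkX univ D x x'))) subset_rfl ?_
      (by omega) (by simp) fun u hu y _ e _ k => by simpa using (hE u hu e ((k.1 u).2 rfl)).2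
    refine (card_le_card (t := R \ insert x (linkX univ D x x') ∪ R.filter (NP D s))
      fun u hu => mem_union.2 (or_iff_not_imp_left.2 (hR u hu))).trans
      ((card_union_le _ _).trans (by omega))
  · refine (card_le_card (t := ∅) fun v hv => ?_).trans (by simp)
    obtain ⟨a, b, a1, a2, a3⟩ := (mem_filter.1 (mem_sdiff.1 hv).1).2
    have e : v ≠ x := fun e => a1 (((L.2.2.1 a).1 (e ▸ a2)).trans ((L.2.2.1 b).1 (e ▸ a3)).symm)
    exact ((mem_sdiff.1 hv).2 (mem_filter.2 ⟨mem_univ _, a, b, a1, out _ _ a2 e, out _ _ a3 e⟩)).elim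
  · refine (card_le_card (t := ∅) fun v hv => ?_).trans (by simp)
    obtain ⟨a, b, a1, a2, a3⟩ := (mem_filter.1 (mem_sdiff.1 hv).1).2
    have e : v ≠ x' := fun e => a1 (((L.2.2.2 a).1 (e ▸ a2)).trans ((L.2.2.2 b).1 (e ▸ a3)).symm)
    exact ((mem_sdiff.1 hv).2 (mem_filter.2 ⟨mem_univ _, a, b, a1, inn _ _ a2 e, inn _ _ a3 e⟩)).elim
  · obtain ⟨v, k1, k2⟩ := hN.cyc z z' z1 z2
    have k3 : conD D x x' s v := Or.inr ⟨k1, S.xs.symm, S.sX⟩
    exact ⟨v, k3, con_down h hl (siso_mem h hl k3).2 S.sX k2⟩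
  · obtain ⟨z', y1, y2, y3⟩ := siso_rep h hl hz k.1.symm
    exact ⟨z', y1, y2.symm, fun e =>
      k.2 (y3 {z} {z'} rfl (fun _ => Or.inr) (fun _ => Or.inl) _ _ (hV r hr) e)⟩
  · obtain ⟨z', y1, y2, y3⟩ := siso_rep h hl hz k.1.symm
    exact ⟨z', y1, y2.symm, fun e =>
      k.2 (y3 {z} {z'} rfl (fun _ => Or.inr) (fun _ => Or.inl) _ _ S.sX e)⟩
  · have := hN.rev.fB_le
    refine (card_le_card (t := fB (rv D) \ R ∪ R.filter (NP D s)) fun u hu => ?_).trans
      ((card_union_le _ _).trans (by omega))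
    by_cases e : u ∈ R
    · exact mem_union_right _ (hR u e (mem_sdiff.1 hu).2)
    · exact mem_union_left _ (mem_sdiff.2 ⟨(mem_sdiff.1 hu).1, e⟩)
  · refine hN.ear (A := {x}) sdiff_subset subset_rfl (by simp) fun u hu y _ e he k => ?_
    have k1 := hE u hu e ((k.1 u).2 rfl)
    exact ⟨k1.1, Or.inr ⟨(k.2 y).2 rfl, by simpa using he, k1.2⟩⟩

end Pool.Agent.Work.MP_5391ad_co
end

-- merged part: Pool.Agent.Work.MP_5391ad_co.SCev
section
/-! The surgery `SurC`: one column event, `P = colP univ D s a g`, `D' = colD univ D s a g`.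
`cev_code`: the first half of the proof of `GR.cev` (copy it), keeping the description of `c.H`.
`cev_tt`: for `a' ≠ a` in `V \ P` the out-arcs agree; in-degree two and in-bridges by
`GR.cev_dom` (only `g` gains an arc), post-domination agrees. `cev_ta`: `z = g` if `g ≠ s`, else
`z = a`. `cev_res`: `R' = R \ insert a P` (these vertices have `PDd`: `CDat.loc` of `GR.cev`,
`mper_pdd`, `np_lt`), `C' = C`, `A = {a}`; arcs into `P` come from `insert a P` (`cev_closed`).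
`av`: `CDat.av`. `cyc`: `pcgood_root`. `dmg`: `G` = vertices `y ≠ s` with `PDd D s y`, inside
`NP`; `Nice.tc_np`. `npr`: for `z ∈ P` use `g` if `g ≠ s`; if `g = s` then `r = a` is a sink, or
`a` post-dominates `r` since `P` is entered through `a`. `npc`: for `z ∈ P` use `a`. `fr_sub`:
`a` lies on no closed walk of `D'` avoiding `s` (`cev_good`). New hubs: only `g`.
`surC`: `GR.exists_top`, `GR.exists_chain`, `GR.exists_gate` as in `pcph_ind`; `P` is dominated by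
`a`, so `Nice.hubs` bounds `c.H`; `Nice.tc_reg`, `ttC`. -/

namespace Pool.Agent.Work.MP_5391ad_co

open Finset
open scoped Classical

variable {α : Type*} [Fintype α] {D : α → α → Prop} {s q a b g : α}

section
variable {V : Finset α} (h : GR V D s) (hq : CycA D {s} q) (hc : CCase D s q)
  (hch : Chain D s q a b) (hg : Gate D s a g)
include h hq hc hch hg

theorem cev_code : ∃ c : OCode α, Obj D (colD V D s a g) a g c ∧
    ValC a (colP V D s a g) (TT (V \ colP V D s a g) (colD V D s a g) s a) c ∧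
    ∀ y ∈ c.H, y ∈ colP V D s a g ∧ ¬ IsEar D s y := by
  obtain ⟨c1, c2, c3, c4, c5, c6, -⟩ := h.cev_closed hq hc hch hg
  have hPV : colP V D s a g ⊆ V := filter_subset _ _
  have hb : ¬ IsEar D s b := fun ⟨_, _, _, k, _⟩ => pcev_b h hq hch k
  obtain ⟨f, hf⟩ : ∃ f : Option α, ∀ x, f = some x ↔ x = b ∧ IBr D s b g := by
    by_cases k : IBr D s b g
    · exact ⟨some b, by simp [k, eq_comm]⟩
    · exact ⟨none, by simp [k]⟩
  obtain ⟨c, v0, -, vH, vp, vt, vi, va, -⟩ := h.exists_code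
    (Y := TT (V \ colP V D s a g) (colD V D s a g) s a) (f := f) hPV c1 c2 c3 c5
    (fun y k => Or.inl (c6 y k))
    (fun x k => by
      obtain ⟨rfl, k1⟩ := (hf x).1 k
      exact ⟨k1.1, Or.inr ⟨c4, hb⟩⟩)
    fun x hx y hy k => by
      by_cases k1 : OBr D s x y ∨ y = s
      · obtain ⟨k2, k3, k4⟩ := pcev_forced h hq hc hch hg hx hy k k1
        exact Or.inl ⟨(hf x).2 ⟨k2, k4⟩, k3⟩
      · rw [not_or] at k1
        exact Or.inr ⟨pcev_tt h hq hc hch hg hx hy k k1.1 k1.2, k1.1⟩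
  have hY : ∀ p y, c.tgt p = some y → y ∉ c.H → y ∉ colP V D s a g := fun p y k1 k2 =>
    (mem_sdiff.1 (mem_filter.1 ((v0.tgtm p y k1).resolve_left k2)).1).2
  refine ⟨c, ⟨fun _ => pcev_out h hq hc hch hg, fun u w => ?_⟩,
    ⟨v0, fun e he k1 y k2 k3 => ?_, ?_, ?_⟩, fun y hy => (vH y).1 hy⟩
  · simp only [va, colD]
    (clear * -; tauto)
  · obtain ⟨u, y', e1, e2, e3, -⟩ : IsEar D s e := not_not.1 fun k => k1 ((vH e).2 ⟨he, k⟩)
    obtain rfl := (e2 y).1 ((vt e y).1 k2).2.1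
    have k4 := h.obr_of_unique (ne_of_mem_of_not_mem he c1) e1
    have k5 := (vp u e).2 ⟨he, k4⟩
    rcases v0.parm e u k5 with k6 | rfl
    · refine ⟨u, k6, k5, Option.eq_none_iff_forall_ne_some.2 fun w k7 => ?_⟩
      obtain ⟨k8, k9⟩ := vi u w k7
      obtain ⟨rfl, rfl⟩ := pcev_opn h hq hc hch hg (v0.sub k6) (hY e y k2 k3) k4.1
        ((e2 y).2 rfl) k8 k9 fun e' => k9 (e' ▸ k4)
      exact ((vt _ _).1 k7).2.2.2 ⟨(hf _).2 ⟨rfl, k8⟩, rfl⟩
    · exact (e3 (pcev_ear h hq hc hch hg he (hY e y k2 k3) e1 e2)).elim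
  · refine le_add_left (card_pos.2 ⟨b, mem_filter.2 ⟨(vH b).2 ⟨c4, hb⟩,
      Option.eq_none_iff_forall_ne_some.2 fun y k => ?_⟩⟩)
    obtain rfl := pcev_pos h hq hc hch hg (vi b y k).1
    exact ((vt _ _).1 k).2.2.2 ⟨(hf _).2 ⟨rfl, (vi b y k).1⟩, rfl⟩
  · obtain ⟨p, k1, y, k2, k3, k4⟩ := pcev_ext h hq hc hch hg
    exact ⟨p, y, (vt p y).2 ⟨k1, k3, fun k => k2 k.1, fun k => k4 k.2⟩, fun k => k2 (v0.sub k)⟩

omit [Fintype α] h hq hc hch hg in
/-- only `g` gains an entering arc -/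
theorem scev_br {y : α} (hy : y ≠ g) (k : Br (colD V D s a g) y) : Br D y := by
  obtain ⟨u, u', e, k1, k2⟩ := k
  exact ⟨u, u', e, (k1.resolve_left fun k => hy k.2).1, (k2.resolve_left fun k => hy k.2).1⟩

omit [Fintype α] in
theorem scev_tc {y : α} (hy : y ≠ g)
    (k : Br (colD V D s a g) y ∨ ∃ u, IBr (colD V D s a g) s u y) : Br D y ∨ ∃ u, IBr D s u y := by
  refine k.imp (scev_br hy) fun ⟨u, k1⟩ => ⟨u, (h.cev_dom hq hc hch hg).2.2.2.1 u y ?_ k1⟩
  rintro rfl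
  exact hy ((pcev_out h hq hc hch hg).1 k1.1)

theorem cev_tt {a' : α} (h1 : a' ∉ colP V D s a g) (h2 : a' ≠ a) :
    TT (V \ colP V D s a g) (colD V D s a g) s a' ⊆ insert g (TT V D s a') := by
  intro y hy
  obtain ⟨d1, -⟩ := h.cev_dom hq hc hch hg
  obtain ⟨b1, b2⟩ := mem_filter.1 hy
  refine mem_insert.2 (or_iff_not_imp_left.2 fun e => mem_filter.2 ⟨(mem_sdiff.1 b1).1, ?_⟩)
  rcases b2 with b2 | ⟨b2, b3, g0, b4, b5⟩
  · exact Or.inl b2
  obtain ⟨m1, m2⟩ := (h.cev_good hq hc hch hg).1.mem _ _ ((b4 g0).2 rfl)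
  refine Or.inr ⟨b2, scev_tc h hq hc hch hg e b3, g0, fun w => Iff.trans ?_ (b4 w), ?_⟩
  · exact ⟨fun k => Or.inr ⟨k, h2, h1⟩, fun k => (k.resolve_left fun k' => h2 k'.1).1⟩
  · exact b5.imp (And.imp_right (Or.imp_right (d1 g0 m2 y b1).1.1))
      (And.imp_right (d1 a' m1 y b1).1.1)

theorem cev_ta : ∃ z, z ≠ s ∧ TT (V \ colP V D s a g) (colD V D s a g) s a ⊆
    insert a (insert g (TC D s ∩ reg D s z)) := by
  obtain ⟨d1, -⟩ := h.cev_dom hq hc hch hg
  obtain ⟨m1, m2⟩ := (h.cev_good hq hc hch hg).1.mem _ _ ((pcev_out h hq hc hch hg).2 rfl)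
  have key : ∀ z, (∀ y, (g ≠ s ∧ pdom D s g y) ∨ (g = s ∧ pdom D s a y) → pdom D s z y) →
      TT (V \ colP V D s a g) (colD V D s a g) s a ⊆ insert a (insert g (TC D s ∩ reg D s z)) := by
    intro z hz y hy
    obtain ⟨b1, b2 | ⟨b2, b3, g0, b4, b5⟩⟩ := mem_filter.1 hy
    · exact mem_insert.2 (Or.inl b2)
    obtain rfl : g = g0 := (b4 g).1 ((pcev_out h hq hc hch hg).2 rfl)
    refine mem_insert_of_mem (mem_insert.2 (or_iff_not_imp_left.2 fun e => mem_inter.2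
      ⟨mem_filter.2 ⟨mem_univ _, b2, scev_tc h hq hc hch hg e b3⟩, mgrp_mem.2 (Or.inr (hz y ?_))⟩))
    exact b5.imp (And.imp_right fun k => (d1 g m2 y b1).1.1 (k.resolve_left e))
      (And.imp_right (d1 a m1 y b1).1.1)
  by_cases e : g = s
  · exact ⟨a, (pcev_a h hq hch).2.1, key a fun y k => (k.resolve_left fun k' => k'.1 e).2⟩
  · exact ⟨g, e, key g fun y k => (k.resolve_right fun k' => e k'.1).2⟩

/-- the tails of the deleted arcs have all their out-neighbours in one region -/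
theorem scev_np {y : α} (hy : y ∈ insert a (colP V D s a g)) : NP D s y := by
  obtain ⟨c, k⟩ := h.cev hq hc hch hg
  obtain ⟨-, -, k1, -, k2⟩ := k.loc a (mem_singleton_self a)
  rcases mem_insert.1 hy with rfl | hy
  · exact mper_pdd h (pcev_a h hq hch).2.1 k1
  · exact mper_pdd h (ne_of_mem_of_not_mem hy (h.cev_closed hq hc hch hg).1) (k2 y hy).1

end

variable {R C : Finset α} {p : Par}

theorem cev_res (h : Nice p D s R C) (hq : CycA D {s} q) (hc : CCase D s q)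
    (hch : Chain D s q a b) (hg : Gate D s a g) :
    Res p D s (univ \ colP univ D s a g) (colD univ D s a g) 0 := by
  have h0 := h.typ.gr
  have hm := h.typ.pos
  obtain ⟨c1, c2, c3, c4, c5, -⟩ := h0.cev_closed hq hc hch hg
  obtain ⟨d1, -⟩ := h0.cev_dom hq hc hch hg
  obtain ⟨g1, g2, -⟩ := h0.cev_good hq hc hch hg
  have a2 := (pcev_a h0 hq hch).2.1
  have mem : ∀ {x}, x ∉ colP univ D s a g → x ∈ univ \ colP univ D s a g := fun k =>
    mem_sdiff.2 ⟨mem_univ _, k⟩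
  have hR : R ⊆ (R \ insert a (colP univ D s a g)) ∪ R.filter (NP D s) := fun y hy => by
    by_cases e : y ∈ insert a (colP univ D s a g)
    · exact mem_union_right _ (mem_filter.2 ⟨hy, scev_np h0 hq hc hch hg e⟩)
    · exact mem_union_left _ (mem_sdiff.2 ⟨hy, e⟩)
  have n1 := h.typ.np_lt
  have n2 := (card_le_card hR).trans (card_union_le _ _)
  have hA : ({a} : Finset α).card ≤ p.Kb + 10 := by
    rw [card_singleton]
    omega
  have he : ∀ u ∈ R \ insert a (colP univ D s a g), ∀ e, D u e →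
      u ≠ a ∧ u ∉ colP univ D s a g ∧ e ∉ colP univ D s a g := fun u hu e k => by
    have k1 := (mem_sdiff.1 hu).2
    rw [mem_insert, not_or] at k1
    exact ⟨k1.1, k1.2, fun k2 => (c5 u e k2 k).elim k1.2 k1.1⟩
  refine ⟨card_pos.2 ⟨b, mem_compl.2 fun k => (mem_sdiff.1 k).2 c4⟩,
    h.size (A := {a}) sdiff_subset Subset.rfl (by omega) (by omega) hA
      fun u hu y _ e _ hl => mem (he u hu e ((hl.1 u).2 rfl)).2.2,
    h0, g1, ?_, ?_, fun _ _ => pcgood_exp h0 hq hc hch hg c1, fun z z' hz hz' => ?_,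
    ⟨univ.filter fun y => y ≠ s ∧ PDd D s y, ?_, fun z hz y hy _ k => ?_⟩,
    ⟨∅, by simp, fun z hz y hy _ k => Or.inl ((d1 z hz y hy).1.1 k)⟩,
    ⟨∅, by simp, fun r hr _ z hz k => ?_⟩, ⟨∅, by simp, fun r hr _ z hz k => Or.inl ?_⟩,
    ⟨R \ insert a (colP univ D s a g), C, ?_, h.fB_le.trans (by omega), ?_⟩,
    fr_sub g1 fun u v k _ _ k' => (k.resolve_left fun e => g2 (e.1 ▸ k')).1⟩
  · refine le_trans (card_le_card (t := ∅) fun x hx => ?_) (by simp)
    obtain ⟨k1, k2⟩ := mem_sdiff.1 hx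
    obtain ⟨u, u', e, k3, k4⟩ := (mem_filter.1 k1).2
    have k5 : x ≠ a := by
      rintro rfl
      exact e (((pcev_out h0 hq hc hch hg).1 k3).trans ((pcev_out h0 hq hc hch hg).1 k4).symm)
    exact (k2 (mem_filter.2 ⟨mem_univ _, u, u', e, (Or.resolve_left k3 fun k => k5 k.1).1,
      (Or.resolve_left k4 fun k => k5 k.1).1⟩)).elim
  · refine le_trans (card_le_card (t := {g}) fun x hx => ?_) (by rw [card_singleton]; omega)
    obtain ⟨k1, k2⟩ := mem_sdiff.1 hx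
    exact mem_singleton.2 (not_not.1 fun e =>
      k2 (mem_filter.2 ⟨mem_univ _, scev_br e (mem_filter.1 k1).2⟩))
  · obtain ⟨v, k1, k2⟩ := h.cyc z z' hz hz'
    exact ⟨v, Or.inr ⟨k1, a2.symm, c1⟩,
      pcgood_root h0 hq hc hch hg (fun e => (c5 s v e k1).elim c1 a2.symm) k2⟩
  · refine le_trans (card_le_card fun y hy => ?_) (h.tc_np.trans (by omega))
    obtain ⟨k1, k2⟩ := mem_inter.1 hy
    obtain ⟨-, k3, k4⟩ := mem_filter.1 k1
    exact mem_filter.2 ⟨mem_filter.2 ⟨mem_univ _, k3, Or.inl (mem_filter.1 k2).2⟩,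
      mper_pdd h0 k3 k4⟩
  · exact ((d1 z hz y hy).2.2 k).imp_right fun e =>
      mem_filter.2 ⟨mem_univ _, fun e' => not_dom_root (e' ▸ k), e.2⟩
  · by_cases e : z ∈ colP univ D s a g
    · by_cases e1 : r = a
      · by_cases e2 : g = s
        · exact Or.inr fun y => e1 ▸ (pcev_out h0 hq hc hch hg).trans (by rw [e2])
        · exact Or.inl ⟨g, e2, (d1 g (mem c3) r hr).1.2 (e1 ▸ hg.pd)⟩
      · exact Or.inl ⟨a, a2, (d1 a (mem c2) r hr).1.2 ⟨e1, fun k1 =>
          (pcgood_up h0 hq hc hch hg (B := {a}) rfl (mem_sdiff.1 hr).2 (pcset_pre k k1)).1 e⟩⟩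
    · exact Or.inl ⟨z, hz, (d1 z (mem e) r hr).1.2 k⟩
  · by_cases e : z ∈ colP univ D s a g
    · exact ⟨a, a2, (d1 a (mem c2) r hr).2.1 (h0.dom_trans (mem_univ _) (pcev_mem.1 e).2.1 k)⟩
    · exact ⟨z, hz, (d1 z (mem e) r hr).2.1 k⟩
  · have k1 : fB (rv D) \ (R \ insert a (colP univ D s a g)) ⊆
        (fB (rv D) \ R) ∪ R.filter (NP D s) := fun y hy => by
      obtain ⟨k1, k2⟩ := mem_sdiff.1 hy
      by_cases e : y ∈ R
      · exact mem_union_right _ ((mem_union.1 (hR e)).resolve_left k2)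
      · exact mem_union_left _ (mem_sdiff.2 ⟨k1, e⟩)
    have k2 := (card_le_card k1).trans (card_union_le _ _)
    have k3 := h.rev.fB_le
    omega
  · refine h.ear (A := {a}) sdiff_subset Subset.rfl hA fun u hu y _ e k hl => ?_
    obtain ⟨k1, k2, k3⟩ := he u hu e ((hl.1 u).2 rfl)
    exact ⟨Or.inr ⟨(hl.1 u).2 rfl, k1, k2⟩,
      Or.inr ⟨(hl.2 y).2 rfl, fun e' => k (mem_singleton.2 e'), k3⟩⟩

theorem Nice.surC (h : Nice p D s R C) (hG : ∀ q, ¬ GT D s q) {u : α} (hu : CycA D {s} u)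
    (hc : CCase D s u) : ∃ V' D', SurC (100 * p.m) (p.t + 40 * p.m)
      (p.S0 + 2 * Fintype.card α) s D V' D' ∧ Res p D s V' D' 0 := by
  have h0 := h.typ.gr
  have hm := h.typ.pos
  obtain ⟨q, q1, -, q2⟩ := h0.exists_top (q := u) ⟨av_refl hu.not_mem, av_refl hu.not_mem⟩
    (mem_univ _)
  have hq := hu.of_sc q1
  have hc' := hc.of_sc q1
  obtain ⟨a, b, hch⟩ := h0.exists_chain hq fun z hz => q2 z (q1.trans hz)
  have a2 := (pcev_a h0 hq hch).2.1
  obtain ⟨g, -, hg⟩ := h0.exists_gate (mem_univ a) a2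
  obtain ⟨c1, c2, -⟩ := h0.cev_closed hq hc' hch hg
  obtain ⟨c, k1, k2, k3⟩ := cev_code h0 hq hc' hch hg
  obtain ⟨z, hz, k4⟩ := cev_ta h0 hq hc' hch hg
  have hP : (univ \ colP univ D s a g)ᶜ = colP univ D s a g := by
    ext x
    simp
  refine ⟨univ \ colP univ D s a g, colD univ D s a g, ⟨?_, a,
    mem_erase.2 ⟨a2, mem_sdiff.2 ⟨mem_univ _, c2⟩⟩, g, c, k1, hP.symm ▸ k2,
    le_trans (h.hubs fun y hy => ?_) (by omega), ?_⟩, cev_res h hq hc' hch hg⟩
  · have k5 : ∀ x ∈ (univ \ colP univ D s a g).erase s,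
        (TT (univ \ colP univ D s a g) (colD univ D s a g) s x).card ≤
          (TT univ D s x).card + 1 + if x = a then Fintype.card α else 0 := by
      intro x hx
      split_ifs with e
      · exact (card_le_univ _).trans (Nat.le_add_left _ _)
      · exact (card_le_card (cev_tt h0 hq hc' hch hg (mem_sdiff.1 (mem_erase.1 hx).2).2 e)).trans
          (card_insert_le _ _)
    refine (sum_le_sum k5).trans ?_
    rw [sum_add_distrib, sum_add_distrib, ← card_eq_sum_ones, sum_ite_eq']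
    have k6 : ∑ x ∈ (univ \ colP univ D s a g).erase s, (TT univ D s x).card ≤ p.S0 :=
      (sum_le_sum_of_subset (erase_subset_erase s sdiff_subset)).trans (h.ttC hG)
    have k7 := card_le_univ ((univ \ colP univ D s a g).erase s)
    split_ifs <;> omega
  · obtain ⟨y1, y2⟩ := k3 y hy
    exact ⟨ne_of_mem_of_not_mem y1 c1, y2, scev_np h0 hq hc' hch hg (mem_insert_of_mem y1),
      mper_np a2 (pdom_rv.2 (pcev_mem.1 y1).2.1)⟩
  · have k5 := (card_le_card k4).trans ((card_insert_le _ _).trans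
      (Nat.add_le_add_right (card_insert_le _ _) 1))
    have k6 := h.tc_reg hz
    omega

end Pool.Agent.Work.MP_5391ad_co
end

-- merged part: Pool.Agent.Work.MP_5391ad_co.SDich
section
/-! The case analysis.
`Nice.dich`: use `heldC` (arcs leaving the sets; `fB (rv (rv D)) = fB D` by `rfl`). Let `J0` be the
non-ancestors of `x` other than `s`; arcs leaving `J0` end in `s`; `reg D s x` consists of ancestors
of `x` and is only left at `x`. If `b2 ≤ |J0 ∩ fB D|` the second part of `Held` applies with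
`Q = {x}`. Otherwise let `T` be the set of link tails which are ancestors of `x` (`x ∈ T`,
`|T| ≤ 21 k`). `fB D ∩ Yset` lies in `insert s J0` and the regions of `T`, so these regions contain
at least `y1 + 1 - b2 > 21 k a1` elements of `fB D`, and one of them more than `a1`. Among the
`w ∈ T` with `a1 ≤ |reg D s w ∩ fB D|` choose one with the largest region; then no member of `T`
post-dominates `w`, so every region of `T` is contained in `Z = reg D s w` or disjoint from it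
(`pchain_pdom_total`). `J = Yset \ insert s Z` is only left at `Q = T` or towards `s`. With
`|Z ∩ fB D| ≤ t + 36 m` (`Nice.tc_reg`) and `d2`, `d3` the first part of `Held` is violated.
`Nice.surgery`: if no vertex is `GT`, use `surC` for `D` or for `rv D` (`Res.rev`). Otherwise, if
`NoIso` fails use `surI` (`empty_link`). Otherwise, if some link `(x, x')` with `CutH`, `GT x` has
`|fB D ∩ Yset D s x| ≤ y1` use `surG`; the same for the reverse; else `dich` makes all regions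
small: `GR.exists_flink`, `FLink.cutH`, `exists_pair`, `Pair.surZ`. The components of `Sur`, `surX`
unfold by `rfl` or `simp [Sur, surX]`. -/

namespace Pool.Agent.Work.MP_5391ad_co

open Finset
open scoped Classical

variable {α : Type*} [Fintype α] {D : α → α → Prop} {s : α} {R C : Finset α} {p : Par}

theorem sdich_mem {w y : α} : y ∈ reg D s w ↔ y = w ∨ pdom D s w y := by
  simp only [reg, mem_filter, mem_univ, true_and]

theorem sdich_root {w : α} (hw : w ≠ s) : s ∉ reg D s w := fun k =>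
  (sdich_mem.1 k).elim (fun e => hw e.symm) fun e => e.2 (av_refl e.1)

theorem sdich_anc (h : GR univ D s) {w y : α} (hw : w ≠ s) (hy : y ∈ reg D s w) :
    Av D {s} y w := by
  rcases sdich_mem.1 hy with rfl | k
  · exact av_refl hw
  · exact av_rv.1 (h.rev.av_of_dom (mem_univ y) hw (dom_rv.2 k)).2

theorem sdich_arc {w v u : α} (hv : v ∈ reg D s w) (hne : v ≠ w) (k : D v u) : u ∈ reg D s w :=
  sdich_mem.2 ((dom_of_arc (D := rv D) (dom_rv.2 ((sdich_mem.1 hv).resolve_left hne)) k).imp_right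
    dom_rv.1)

theorem sdich_incl {w : α} {Q : Finset α} (hw : w ∈ Q) : InCl (rv D) s (reg D s w) Q :=
  fun _ hv hQ _ k => Or.inr (sdich_arc hv (fun e => hQ (e ▸ hw)) k)

theorem sdich_sub (h : GR univ D s) {w w2 : α} (k : pdom D s w2 w) : reg D s w ⊆ reg D s w2 :=
  fun y hy => sdich_mem.2 (Or.inr ((sdich_mem.1 hy).elim (fun e => e ▸ k)
    (pchain_pdom_trans h (mem_univ y) k)))

theorem sdich_lt (h : GR univ D s) {w w2 : α} (k : pdom D s w2 w) :
    (reg D s w).card < (reg D s w2).card := by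
  refine card_lt_card ⟨sdich_sub h k, fun k2 => ?_⟩
  rcases sdich_mem.1 (k2 (sdich_mem.2 (Or.inl rfl))) with e | e
  · exact k.1 e.symm
  · exact pchain_pdom_asymm h (mem_univ w) k e

theorem sdich_meet (h : GR univ D s) {w w2 u : α} (hn : ¬ pdom D s w2 w) (h1 : u ∈ reg D s w)
    (h2 : u ∈ reg D s w2) : reg D s w2 ⊆ reg D s w := by
  rcases sdich_mem.1 h1 with rfl | k1 <;> rcases sdich_mem.1 h2 with k2 | k2
  · rw [k2]
  · exact absurd k2 hn
  · exact sdich_sub h (k2 ▸ k1)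
  · rcases pchain_pdom_total h (mem_univ u) k1 k2 with e | e | e
    · rw [e]
    · exact sdich_sub h e
    · exact absurd e hn

/-- link tails which are ancestors of `x` -/
noncomputable def sdich_T (D : α → α → Prop) (s x : α) : Finset α :=
  univ.filter fun w => (∃ w', Lk D s w w') ∧ Av D {s} w x

theorem sdich_memT {x w : α} : w ∈ sdich_T D s x ↔ (∃ w', Lk D s w w') ∧ Av D {s} w x := by
  simp only [sdich_T, mem_filter, mem_univ, true_and]

theorem sdich_card (x : α) : (sdich_T D s x).card ≤ (lks D s).card := by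
  refine le_trans (card_le_card fun w hw => ?_) (card_image_le (f := Prod.fst))
  obtain ⟨⟨w', k⟩, -⟩ := sdich_memT.1 hw
  exact mem_image.2 ⟨(w, w'), mem_filter.2 ⟨mem_univ _, k⟩, rfl⟩

theorem sdich_Y {x x' y : α} (hl : Lk D s x x') : y ∈ Yset D s x ↔
    ¬ Av D {s} y x ∨ ∃ w ∈ sdich_T D s x, y ∈ reg D s w := by
  simp only [Yset, mem_filter, mem_univ, true_and]
  refine or_congr_right ⟨?_, ?_⟩
  · rintro (k | ⟨w, w', k1, k2, k3⟩)
    · exact ⟨x, sdich_memT.2 ⟨⟨x', hl⟩, av_refl hl.1⟩, k⟩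
    · exact ⟨w, sdich_memT.2 ⟨⟨w', k1⟩, k2⟩, k3⟩
  · rintro ⟨w, hw, k⟩
    obtain ⟨⟨w', k1⟩, k2⟩ := sdich_memT.1 hw
    exact Or.inr ⟨w, w', k1, k2, k⟩

theorem sdich_big (h : Nice p D s R C) {x x' w : α} (hl : Lk D s x x')
    (hy : p.y1 < (fB D ∩ Yset D s x).card) (hw : w ∈ sdich_T D s x)
    (ha : p.a1 ≤ (reg D s w ∩ fB D).card) (hn : ∀ w2 ∈ sdich_T D s x, ¬ pdom D s w2 w) :
    False := by
  have gr := h.typ.gr
  obtain ⟨⟨w', hk⟩, hwx⟩ := sdich_memT.1 hw
  have hT := (sdich_card (D := D) (s := s) x).trans h.lk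
  have k := (h.heldC (reg D s w) (Yset D s x \ insert s (reg D s w)) (sdich_T D s x)
    (sdich_root hk.1) (fun e => (mem_sdiff.1 e).2 (mem_insert_self _ _))
    (disjoint_left.2 fun y k1 k2 => (mem_sdiff.1 k2).2 (mem_insert_of_mem k1)) (by omega)
    (sdich_incl hw) ?_).1
  · have h1 : (reg D s w ∩ fB D).card ≤ p.t + 36 * p.m := by
      refine le_trans (card_le_card fun y hy => ?_) (h.tc_reg hk.1)
      obtain ⟨k1, k2⟩ := mem_inter.1 hy
      exact mem_inter.2 ⟨mem_filter.2 ⟨mem_univ _, fun e => sdich_root hk.1 (e ▸ k1),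
        Or.inl (mem_filter.1 k2).2⟩, k1⟩
    have h2 : (fB D ∩ Yset D s x).card ≤ ((reg D s w ∩ fB D).card +
        ((Yset D s x \ insert s (reg D s w)) ∩ fB D).card) + 1 := by
      refine le_trans (card_le_card (t := insert s ((reg D s w ∩ fB D) ∪
        ((Yset D s x \ insert s (reg D s w)) ∩ fB D))) fun y hy => ?_)
        ((card_insert_le _ _).trans (Nat.add_le_add_right (card_union_le _ _) 1))
      obtain ⟨k1, k2⟩ := mem_inter.1 hy
      simp only [mem_insert, mem_union, mem_inter, mem_sdiff, k1, k2, and_true, true_and]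
      tauto
    have d2 := h.ok.d2
    have d3 := h.ok.d3
    have h3 : (reg D s w ∩ fB D).card + ((Yset D s x \ insert s (reg D s w)) ∩ fB D).card < p.a3 :=
      k ha (show p.a2 ≤ ((Yset D s x \ insert s (reg D s w)) ∩ fB D).card by omega)
    omega
  · intro v hv hQ u k
    obtain ⟨v1, v2⟩ := mem_sdiff.1 hv
    have hvs : v ≠ s := fun e => v2 (mem_insert.2 (Or.inl e))
    refine or_iff_not_imp_left.2 fun hus => ?_
    rcases (sdich_Y hl).1 v1 with k1 | ⟨w2, k1, k2⟩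
    · have k2 : ¬ Av D {s} u x := fun e => k1 (Av.head hvs k e)
      refine mem_sdiff.2 ⟨(sdich_Y hl).2 (Or.inl k2), fun e => ?_⟩
      exact k2 ((sdich_anc gr hk.1 ((mem_insert.1 e).resolve_left hus)).trans hwx)
    · have k3 := sdich_arc k2 (fun e => hQ (e ▸ k1)) k
      refine mem_sdiff.2 ⟨(sdich_Y hl).2 (Or.inr ⟨w2, k1, k3⟩), fun e => ?_⟩
      exact v2 (mem_insert_of_mem
        (sdich_meet gr (hn w2 k1) ((mem_insert.1 e).resolve_left hus) k3 k2))

omit [Fintype α] in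
theorem sdich_sc {w w' : α} (hl : Lk D s w w') (hc : CycA D {s} w) : Sc D s w w' := by
  obtain ⟨v, k1, k2⟩ := hc
  obtain rfl := (hl.2.2.1 v).1 k1
  exact ⟨(av_refl (B := {s}) hl.1).tail k1 hl.2.1, k2⟩

theorem Nice.dich (h : Nice p D s R C) {x x' : α} (hl : Lk D s x x')
    (hy : p.y1 < (fB D ∩ Yset D s x).card) : (reg D s x).card < p.Kb := by
  have gr := h.typ.gr
  have k0 := h.ok.k0
  have hT := (sdich_card (D := D) (s := s) x).trans h.lk
  by_cases hb : p.b2 ≤ ((univ.filter fun y => ¬ Av D {s} y x ∧ y ≠ s) ∩ fB D).card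
  · refine (h.heldC (reg D s x) (univ.filter fun y => ¬ Av D {s} y x ∧ y ≠ s) {x}
      (sdich_root hl.1) (fun e => (mem_filter.1 e).2.2 rfl)
      (disjoint_left.2 fun y k1 k2 => (mem_filter.1 k2).2.1 (sdich_anc gr hl.1 k1))
      (by rw [card_singleton]; omega) (sdich_incl (mem_singleton_self x)) ?_).2 hb
    intro v hv _ u k
    obtain ⟨v1, v2⟩ := (mem_filter.1 hv).2
    exact or_iff_not_imp_left.2 fun hus =>
      mem_filter.2 ⟨mem_univ _, fun e => v1 (Av.head v2 k e), hus⟩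
  exfalso
  have h1 : (fB D ∩ Yset D s x).card ≤
      (((univ.filter fun y => ¬ Av D {s} y x ∧ y ≠ s) ∩ fB D).card +
        ∑ w ∈ sdich_T D s x, (reg D s w ∩ fB D).card) + 1 := by
    refine le_trans (card_le_card (t := insert s
      (((univ.filter fun y => ¬ Av D {s} y x ∧ y ≠ s) ∩ fB D) ∪
        (sdich_T D s x).biUnion fun w => reg D s w ∩ fB D)) fun y hy => ?_)
      ((card_insert_le _ _).trans (Nat.add_le_add_right ((card_union_le _ _).trans
        (Nat.add_le_add_left card_biUnion_le _)) 1))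
    obtain ⟨k1, k2⟩ := mem_inter.1 hy
    refine mem_insert.2 (or_iff_not_imp_left.2 fun hs => mem_union.2 ?_)
    rcases (sdich_Y hl).1 k2 with k3 | ⟨w, k3, k4⟩
    · exact Or.inl (mem_inter.2 ⟨mem_filter.2 ⟨mem_univ _, k3, hs⟩, k1⟩)
    · exact Or.inr (mem_biUnion.2 ⟨w, k3, mem_inter.2 ⟨k4, k1⟩⟩)
  have h2 : ((sdich_T D s x).filter fun w => p.a1 ≤ (reg D s w ∩ fB D).card).Nonempty := by
    by_contra hc
    have h3 : ∑ w ∈ sdich_T D s x, (reg D s w ∩ fB D).card ≤ (sdich_T D s x).card * p.a1 :=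
      sum_le_card_nsmul _ _ _ fun w hw => le_of_not_ge fun e => hc ⟨w, mem_filter.2 ⟨hw, e⟩⟩
    have h4 := Nat.mul_le_mul_right p.a1 hT
    have d1 := h.ok.d1
    omega
  obtain ⟨w, hw, hm⟩ := exists_max_image _ (fun w => (reg D s w).card) h2
  obtain ⟨w1, w2⟩ := mem_filter.1 hw
  refine sdich_big h hl hy w1 w2 fun z hz k => ?_
  exact absurd (hm z (mem_filter.2 ⟨hz, w2.trans (card_le_card
    (inter_subset_inter_right (sdich_sub gr k)))⟩)) (not_le.2 (sdich_lt gr k))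

theorem Nice.surgery (h : Nice p D s R C) {u : α} (hu : CycA D {s} u) :
    ∃ i V' D', Sur p i s D V' D' ∧ Res p D s V' D' (surX p i) := by
  have gr := h.typ.gr
  by_cases hG : ∀ q, ¬ GT D s q
  · by_cases hc : CCase D s u
    · obtain ⟨V', D', k1, k2⟩ := h.surC hG hu hc
      exact ⟨0, V', D', k1, k2⟩
    · have hc' : CCase (rv D) s u := by_contra fun e => hG u ⟨hu, hc, e⟩
      obtain ⟨V', D', k1, k2⟩ := h.rev.surC (fun q e => hG q e.rev) (cycA_rv.2 hu) hc'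
      exact ⟨1, V', rv D', k1, k2.rev⟩
  obtain ⟨q, hq⟩ := not_forall_not.1 hG
  by_cases hn : NoIso D s
  swap
  · obtain ⟨x, x', hl, hk⟩ : ∃ x x', FLink D s x x' ∧ ¬ Lk D s x x' :=
      by_contra fun e => hn fun x x' k _ => by_contra fun e' => e ⟨x, x', k, e'⟩
    obtain ⟨V', D', k1, k2⟩ := Nice.surI hl h
      (nonempty_iff_ne_empty.2 fun e => hk (empty_link gr hl e))
    exact ⟨2, V', D', k1, k2⟩
  by_cases h1 : ∃ x x', CutH D s x x' ∧ GT D s x ∧ (fB D ∩ Yset D s x).card ≤ p.y1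
  · obtain ⟨x, x', hc, hg, hy⟩ := h1
    obtain ⟨V', D', k1, k2⟩ := Nice.surG h hn hc hg hy
    exact ⟨3, V', D', k1, k2⟩
  by_cases h2 : ∃ x x', CutH (rv D) s x x' ∧ GT (rv D) s x ∧
      (fB (rv D) ∩ Yset (rv D) s x).card ≤ p.y1
  · obtain ⟨x, x', hc, hg, hy⟩ := h2
    obtain ⟨V', D', k1, k2⟩ := Nice.surG h.rev hn.rev hc hg hy
    exact ⟨4, V', rv D', k1, k2.rev⟩
  have small : ∀ x x', CutH D s x x' → GT D s x →
      (reg D s x).card < p.Kb ∧ (reg (rv D) s x').card < p.Kb := fun x x' hc hg =>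
    ⟨h.dich hc.lk (not_le.1 fun e => h1 ⟨x, x', hc, hg, e⟩),
      h.rev.dich hc.rev.lk (not_le.1 fun e =>
        h2 ⟨x', x, hc.rev, (hg.of_sc (sdich_sc hc.lk hg.1)).rev, e⟩)⟩
  obtain ⟨x, x', hqx, hl⟩ := gr.exists_flink hq.1
  have hg := hq.of_sc hqx
  have hc := hl.cutH gr hg (hn x x' hl hg)
  obtain ⟨w, w', hc', hxw, hi, y, y1, y2⟩ := exists_pair gr hn hc hg
  obtain ⟨V', D', k1, k2⟩ := Pair.surZ ⟨gr, hc, hc', hi⟩ h ⟨y, mem_filter.2 ⟨mem_univ _, y1, y2⟩⟩
    (small x x' hc hg).1 (small x x' hc hg).2 (small w w' hc' (hg.of_sc hxw)).1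
    (small w w' hc' (hg.of_sc hxw)).2
  exact ⟨5, V', D', k1, k2⟩

end Pool.Agent.Work.MP_5391ad_co
end

-- merged part: Pool.Agent.Work.MP_5391ad_co.MTerm
section
/-! The terms of the crude count away from the maximum. Follow the proof of `term_le` in `Asymp`.
`L = log n`, `l = log L`, `Λ = n / L`. If `2 n l + 10 n ≤ d L` the crude case of `term_le` already
gives `exp (n (2 L - 2 l - 5))`. Otherwise the term is at most
`exp (n log M - d L + v (5 l + 3) + n / L)` with `M = (a + w) (b + w)`, `w = n / L ^ 2`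
(`v ≤ n ≤ w ^ 2`, `log M ≥ 2 L - 4 l`), and `v (5 l + 3) = o(n)` (`tendsto_err`). With
`r = (a + w) / Λ`, `c = (b + w) / Λ`, `x = d / Λ`: `log M = 2 L - 2 l + log r + log c`,
`log r ≤ 2 √r - 2`, `r + c ≤ (1 + 3 / k) x + 2 / L`. If `x ≤ 2 + e`:
`2 √r + 2 √c - 2 - x = -(√r - 1)^2 - (√c - 1)^2 + (r + c - x) ≤ -e^2/5`. If `x > 2 + e`: use
`2 √r ≤ (1 + η) + r / (1 + η)` with `η = e / 4`, which gives at most `-e^2/10 + 2 / L`.
`ratio_few`, `ratio_big`: `1 - y ≤ exp (-y)`, `1 + y ≤ exp y`, `v ≤ (2k+6)(3Λ) + 4 = o(n)`,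
`n = o(Λ^2)`, `a b + v ≤ 1.03 Λ^2`, `a b ≥ 0.98 Λ^2`. -/

namespace Pool.Agent.Work.MP_5391ad_co

open Real Filter

theorem mterm_sq {e ρ : ℝ} (he : 0 < e) (he1 : e ≤ 1 / 100) (h0 : 0 ≤ ρ)
    (h : ρ ^ 2 ≤ 1 - 9 / 10 * e ∨ 1 + e ≤ ρ ^ 2) : e ^ 2 / 5 ≤ (ρ - 1) ^ 2 := by
  have h2 : e ^ 2 / 5 ≤ (9 / 20 * e) ^ 2 := by linarith only [sq_nonneg e, sq_nonneg e]
  refine h2.trans ?_
  rcases h with h | h
  · have h3 : ρ ≤ 1 - 9 / 20 * e :=
      (pow_le_pow_iff_left₀ h0 (by linarith only [he, he1]) two_ne_zero).1 (by linarith only [h, sq_nonneg e, sq_nonneg e])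
    rw [← neg_sq (ρ - 1)]
    exact pow_le_pow_left₀ (by positivity) (by linarith only [h3]) 2
  · have h3 : 1 + 9 / 20 * e ≤ ρ :=
      (pow_le_pow_iff_left₀ (by positivity) h0 two_ne_zero).1 (by linarith only [h, he, he1, mul_pos_of_neg_of_neg (Mathlib.Tactic.Linarith.sub_neg_of_lt he) (Mathlib.Tactic.Linarith.sub_neg_of_lt he), mul_nonneg_of_nonpos_of_nonpos (le_of_lt (Mathlib.Tactic.Linarith.sub_neg_of_lt he)) (Mathlib.Tactic.Linarith.sub_nonpos_of_le he1)])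
    exact pow_le_pow_left₀ (by positivity) (by linarith only [h3]) 2

theorem mterm_key {e κ δ r c x : ℝ} (he : 0 < e) (he1 : e ≤ 1 / 100) (hκ0 : 0 ≤ κ)
    (hκ : κ ≤ 3 * e ^ 2 / 1000) (hδ : δ ≤ e ^ 2 / 100) (hr : 0 < r) (hc : 0 < c)
    (h : r + c ≤ (1 + κ) * x + δ)
    (hb : 2 + e < x ∨ r ≤ 1 - 9 / 10 * e ∨ 1 + e ≤ r ∨ c ≤ 1 - 9 / 10 * e ∨ 1 + e ≤ c) :
    log r + log c - x ≤ -2 - e ^ 2 / 10 := by
  obtain ⟨ρ, h1, rfl⟩ : ∃ ρ : ℝ, 0 < ρ ∧ r = ρ ^ 2 := ⟨√r, sqrt_pos.2 hr, (sq_sqrt hr.le).symm⟩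
  obtain ⟨γ, h2, rfl⟩ : ∃ ρ : ℝ, 0 < ρ ∧ c = ρ ^ 2 := ⟨√c, sqrt_pos.2 hc, (sq_sqrt hc.le).symm⟩
  have h3 := log_le_sub_one_of_pos h1
  have h4 := log_le_sub_one_of_pos h2
  rw [log_pow, log_pow]
  push_cast
  suffices hs : 2 * ρ + 2 * γ - 2 - x ≤ -(e ^ 2 / 10) by linarith only [h3, h4, hs]
  have he2 : e ^ 2 ≤ e / 100 := by linarith only [he, he1, mul_nonneg_of_nonpos_of_nonpos (le_of_lt (Mathlib.Tactic.Linarith.sub_neg_of_lt he)) (Mathlib.Tactic.Linarith.sub_nonpos_of_le he1)]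
  have he3 : 0 < e ^ 2 := by positivity
  rcases lt_or_ge (2 + e) x with hx | hx
  · have h5 : (κ - e / 4) * x ≤ (κ - e / 4) * (2 + e) :=
      mul_le_mul_of_nonpos_left hx.le (by linarith only [hκ, he2, he3])
    have h6 : κ * (2 + e) ≤ 3 * e ^ 2 / 1000 * 3 := by gcongr; linarith only [he1, he2, he3]
    have h7 : e * e ^ 2 ≤ 1 / 100 * e ^ 2 := by gcongr
    refine le_of_mul_le_mul_left ?_ (show 0 < 1 + e / 4 by positivity)
    linarith only [hδ, h, he3, h5, h6, h7, sq_nonneg (ρ - (1 + e / 4)), sq_nonneg (γ - (1 + e / 4)), sq_nonneg ((4 : ℝ) * γ - ((4 : ℝ) * (1 : ℝ) + (1 : ℝ) * e)), sq_nonneg ((4 : ℝ) * ρ - ((4 : ℝ) * (1 : ℝ) + (1 : ℝ) * e))]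
  · have h6 : κ * x ≤ 3 * e ^ 2 / 1000 * 3 :=
      (mul_le_mul_of_nonneg_left (show x ≤ 3 by linarith only [he1, he2, he3, hx]) hκ0).trans (by gcongr)
    have h7 : e ^ 2 / 5 ≤ (ρ - 1) ^ 2 + (γ - 1) ^ 2 := by
      rcases hb with hb | hb | hb | hb | hb
      · linarith only [hx, hb]
      · linarith only [he, he1, h1, hb, mterm_sq he he1 h1.le (Or.inl hb), sq_nonneg (γ - 1)]
      · linarith only [he, he1, h1, hb, mterm_sq he he1 h1.le (Or.inr hb), sq_nonneg (γ - 1)]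
      · linarith only [he, he1, h2, hb, mterm_sq he he1 h2.le (Or.inl hb), sq_nonneg (ρ - 1)]
      · linarith only [he, he1, h2, hb, mterm_sq he he1 h2.le (Or.inr hb), sq_nonneg (ρ - 1)]
    linarith only [hδ, h, he3, h6, h7]

theorem mterm_core {n k d v : ℕ} {P M : ℝ} (hl : 1 ≤ log (log n)) (hL : 2 ≤ log n)
    (h4 : log n ^ 4 ≤ n) (hv : v ≤ n) (hd : d ≤ 2 * v) (hv2 : v ≤ (2 * k + 6) * d + 4)
    (hP0 : 0 ≤ P) (hP : P ≤ (n : ℝ) ^ 2) (hM : P + (n / log n ^ 2) ^ 2 ≤ M) {T : ℝ}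
    (hT : n * (2 * log n - 2 * log (log n) - 5) ≤ T)
    (hT2 : n * log M - d * log n +
      n * ((1 + (2 * k + 6) * 104) * (log (log n) ^ 2 / log n)) ≤ T) :
    (n.choose v : ℝ) * 4 ^ v * ((n : ℝ) ^ (2 * v - d) * exp v) * (P + v) ^ (n - v) ≤ exp T := by
  set L := log n with hLdef
  set l := log L with hldef
  have hL0 : 0 < L := by linarith only [hL]
  have hn16 : (16 : ℝ) ≤ n := le_trans (by linarith only [hL, pow_le_pow_left₀ (by norm_num) hL 4]) h4
  have hn0 : (0 : ℝ) < n := by linarith only [hn16]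
  have hk0 : (0 : ℝ) ≤ k := Nat.cast_nonneg k
  have hvn : (v : ℝ) ≤ n := by exact_mod_cast hv
  have hv0 : (0 : ℝ) ≤ v := Nat.cast_nonneg v
  have hd0 : (0 : ℝ) ≤ d := Nat.cast_nonneg d
  have e1 : (n : ℝ) ^ (2 * v - d) = exp ((2 * v - d) * L) := by
    rw [show (2 * (v : ℝ) - d) = ((2 * v - d : ℕ) : ℝ) by rw [Nat.cast_sub hd]; push_cast; ring,
      Real.exp_nat_mul, exp_log hn0]
  have e2 : (4 : ℝ) ^ v ≤ exp (2 * v) := by
    have := two_pow_le (2 * v)
    rw [pow_mul] at this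
    norm_num at this
    exact this
  have e3 : ∀ M : ℝ, 0 < M → P + v ≤ M → (P + v) ^ (n - v) ≤ exp ((n - v) * log M) := by
    intro M hM h
    rw [← Nat.cast_sub hv, Real.exp_nat_mul, exp_log hM]
    gcongr
  by_cases hc : 2 * n * l + 10 * n ≤ d * L
  · have c1 : (n.choose v : ℝ) ≤ exp n := by
      refine le_trans ?_ (two_pow_le n)
      exact_mod_cast Nat.choose_le_two_pow n v
    have c2 := e3 (2 * n ^ 2) (by positivity) (by
      have hnn : (n : ℝ) ≤ n ^ 2 := le_self_pow₀ (by linarith only [hn16]) (by norm_num)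
      linarith only [hP, hvn, hnn])
    rw [log_mul (by norm_num) (by positivity), log_pow] at c2
    have c3 : log 2 ≤ 1 := by
      have := Real.log_le_sub_one_of_pos (show (0 : ℝ) < 2 by norm_num); linarith only [this]
    have c4 : 0 ≤ log 2 := log_nonneg (by norm_num)
    rw [e1]
    calc _ ≤ exp n * exp (2 * v) * (exp ((2 * v - d) * L) * exp v) *
          exp ((n - v) * (log 2 + (2 : ℕ) * L)) := by gcongr
      _ ≤ _ := by
        simp only [← exp_add]
        refine exp_le_exp.2 ?_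
        push_cast
        linarith only [hT, hvn, hc, hv0, c4, c3, hn0, mul_nonneg hv0 c4, mul_le_mul_of_nonneg_left c3 hn0.le]
  · push Not at hc
    have c1 : (n.choose v : ℝ) ≤ exp (v * l + n / L) := by
      have h1 : (n.choose v : ℝ) ≤ (n : ℝ) ^ v / v.factorial := Nat.choose_le_pow_div v n
      have h2 := Real.pow_div_factorial_le_exp (n / L) (by positivity) v
      rw [exp_add, Real.exp_nat_mul, exp_log hL0]
      refine h1.trans ?_
      calc (n : ℝ) ^ v / v.factorial = L ^ v * ((n / L) ^ v / v.factorial) := by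
            rw [div_pow]; field_simp
        _ ≤ _ := by gcongr
    have hw : (n : ℝ) ≤ (n / L ^ 2) ^ 2 := by
      rw [div_pow, le_div_iff₀ (by positivity)]
      linarith only [h4, hn0, mul_le_mul_of_nonneg_left h4 hn0.le]
    have c2 := e3 M (by linarith only [hP0, hM, hn16, hw]) (by linarith only [hM, hvn, hw])
    have c3 : 2 * L - 4 * l ≤ log M := by
      have := log_le_log (by positivity) (show ((n : ℝ) / L ^ 2) ^ 2 ≤ M by linarith only [hP0, hM])
      rw [log_pow, log_div hn0.ne' (by positivity), log_pow] at this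
      push_cast at this
      linarith only [this]
    have c6 : (v : ℝ) ≤ (2 * k + 6) * 13 * l * (n / L) := by
      have h1 : (v : ℝ) ≤ (2 * k + 6) * d + 4 := by exact_mod_cast hv2
      have h2 : (d : ℝ) ≤ 12 * l * (n / L) := by
        rw [← mul_div_assoc, le_div_iff₀ hL0]
        linarith only [hc, hl, hn0, mul_le_mul_of_nonneg_left hl hn0.le]
      have h3 : 4 ≤ (n : ℝ) / L := by
        rw [le_div_iff₀ hL0]
        linarith only [h4, hn16, hL, hL0, mul_le_mul_of_nonneg_right (pow_le_pow_left₀ (by norm_num) hL 3) hL0.le]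
      have h5 : (4 : ℝ) ≤ (2 * k + 6) * l * (n / L) := by
        have : (1 : ℝ) ≤ (2 * k + 6) * l := one_le_mul_of_one_le_of_one_le (by linarith only []) hl
        exact h3.trans (le_mul_of_one_le_left (by positivity) this)
      linarith only [h1, h5, h2, mul_le_mul_of_nonneg_left h2 (show (0 : ℝ) ≤ 2 * k + 6 by positivity)]
    have c7 : (v : ℝ) * (5 * l + 3) + n / L ≤ n * ((1 + (2 * k + 6) * 104) * (l ^ 2 / L)) := by
      have h1 : (v : ℝ) * (5 * l + 3) ≤ ((2 * k + 6) * 13 * l * (n / L)) * (8 * l) := by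
        gcongr; linarith only [hl]
      have h2 : (n : ℝ) / L ≤ (n / L) * l ^ 2 :=
        le_mul_of_one_le_right (by positivity) (one_le_pow₀ hl)
      have h3 : n * ((1 + (2 * (k : ℝ) + 6) * 104) * (l ^ 2 / L)) =
          ((2 * k + 6) * 13 * l * (n / L)) * (8 * l) + (n / L) * l ^ 2 := by ring
      linarith only [h1, h2, h3]
    rw [e1]
    calc _ ≤ exp (v * l + n / L) * exp (2 * v) * (exp ((2 * v - d) * L) * exp v) *
          exp ((n - v) * log M) := by gcongr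
      _ ≤ _ := by
        simp only [← exp_add]
        refine exp_le_exp.2 ?_
        linarith only [hT2, c7, c3, hv0, mul_le_mul_of_nonneg_left c3 hv0]

theorem mterm_err {C ε : ℝ} (hε : 0 < ε) :
    ∀ᶠ n : ℕ in atTop, C * (log (log n) ^ 2 / log n) ≤ ε :=
  (tendsto_err.const_mul C).eventually_le_const (by rwa [mul_zero])

theorem mterm_log (C : ℝ) : ∀ᶠ n : ℕ in atTop, C ≤ log n :=
  (tendsto_log_atTop.comp tendsto_natCast_atTop_atTop).eventually_ge_atTop C

theorem mterm_k {e : ℝ} (he : 0 < e) {k : ℕ} (hk : 1000 / e ^ 2 ≤ k) :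
    (0 : ℝ) < k ∧ 1 / (k : ℝ) ≤ e ^ 2 / 1000 := by
  have h0 : (0 : ℝ) < k := lt_of_lt_of_le (by positivity) hk
  refine ⟨h0, ?_⟩
  rw [div_le_iff₀ (by positivity)] at hk
  rw [div_le_iff₀ h0]
  linarith only [hk]

theorem mterm_lam {ε : ℝ} (hε : 0 < ε) :
    ∀ᶠ n : ℕ in atTop, 1 ≤ lam n ∧ n ≤ ε * lam n ^ 2 ∧ lam n ≤ ε * n := by
  filter_upwards [eventually_big, mterm_log (1 / ε)] with n ⟨_, hL, h4⟩ h5
  unfold lam
  set L := log n
  have hL0 : 0 < L := by linarith only [hL]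
  have hn0 : (0 : ℝ) < n := lt_of_lt_of_le (by positivity) h4
  rw [div_le_iff₀ hε] at h5
  have h6 : L ≤ L ^ 4 := le_self_pow₀ (by linarith) (by norm_num)
  refine ⟨(one_le_div hL0).2 (h6.trans h4), ?_, ?_⟩
  · rw [div_pow, ← mul_div_assoc, le_div_iff₀ (by positivity)]
    have h7 : L ^ 2 ≤ ε * L ^ 4 := by
      have h8 : 1 * 1 ≤ L * ε * L := by gcongr; linarith
      linarith only [h8, mul_le_mul_of_nonneg_left h8 (sq_nonneg L), sq_nonneg L]
    have h9 : L ^ 2 ≤ ε * n := h7.trans (by gcongr)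
    linarith only [h9, hn0, mul_le_mul_of_nonneg_left h9 hn0.le]
  · rw [div_le_iff₀ hL0]
    linarith only [h5, hn0, mul_le_mul_of_nonneg_left h5 hn0.le]

theorem term_bad {e : ℝ} (he : 0 < e) (he1 : e ≤ 1 / 100) {k : ℕ} (hk : 1000 / e ^ 2 ≤ k) :
    ∀ᶠ n : ℕ in atTop, ∀ d v a b : ℕ, v ≤ n → d ≤ 2 * v → v ≤ (2 * k + 6) * d + 4 → a ≤ n →
      b ≤ n → k * (a + b) ≤ (k + 3) * d →
      ((2 + e) * lam n < d ∨ a < (1 - e) * lam n ∨ (1 + e) * lam n < a ∨
        b < (1 - e) * lam n ∨ (1 + e) * lam n < b) →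
      (n.choose v : ℝ) * 4 ^ v * ((n : ℝ) ^ (2 * v - d) * exp v) * ((a : ℝ) * b + v) ^ (n - v) ≤
        exp (n * (2 * log n - 2 * log (log n) - 2 - e ^ 2 / 20)) := by
  obtain ⟨hk0, hk1⟩ := mterm_k he hk
  filter_upwards [eventually_big, mterm_log (200 / e ^ 2),
    mterm_err (C := 1 + (2 * k + 6) * 104) (ε := e ^ 2 / 20) (by positivity)] with n ⟨hl, hL, h4⟩
    h5 h6 d v a b hv hd hv2 ha hb hab hbad
  have hL0 : 0 < log n := by linarith only [he, he1, hL]
  have hn0 : (0 : ℝ) < n := lt_of_lt_of_le (by positivity) h4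
  have ha0 : (0 : ℝ) ≤ a := Nat.cast_nonneg a
  have hb0 : (0 : ℝ) ≤ b := Nat.cast_nonneg b
  have he2 : e ^ 2 ≤ e / 100 := by linarith only [he, he1, mul_nonneg_of_nonpos_of_nonpos (le_of_lt (Mathlib.Tactic.Linarith.sub_neg_of_lt he)) (Mathlib.Tactic.Linarith.sub_nonpos_of_le he1)]
  have hΛ : 0 < lam n := div_pos hn0 hL0
  have hδ : 1 / log n ≤ e ^ 2 / 200 := by
    rw [div_le_iff₀ (by positivity)] at h5
    rw [div_le_iff₀ hL0]
    linarith only [h5]
  have hδ0 : 0 < 1 / log n := by positivity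
  have hw : ∀ z : ℝ, z + n / log n ^ 2 = (z / lam n + 1 / log n) * lam n := by
    intro z
    rw [add_mul, div_mul_cancel₀ _ hΛ.ne', lam]
    field_simp
  have hr : 0 < a / lam n + 1 / log n := by positivity
  have hc : 0 < b / lam n + 1 / log n := by positivity
  have key := mterm_key (κ := 3 * (1 / k)) (δ := 2 * (1 / log n)) (x := d / lam n) he he1
    (by positivity) (by linarith only [hk1]) (by linarith only [hδ]) hr hc (by
      have h7 : (k : ℝ) * (a + b) ≤ (k + 3) * d := by exact_mod_cast hab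
      have h8 : (a : ℝ) + b ≤ (1 + 3 * (1 / k)) * d := by
        rw [show 1 + 3 * (1 / (k : ℝ)) = (k + 3) / k by field_simp, div_mul_eq_mul_div,
          le_div_iff₀ hk0]
        linarith only [h7]
      have h9 := div_le_div_of_nonneg_right h8 hΛ.le
      rw [add_div, mul_div_assoc] at h9
      linarith only [h9]) (by
      rcases hbad with h | h | h | h | h
      · exact Or.inl ((lt_div_iff₀ hΛ).2 h)
      · exact Or.inr (Or.inl (by linarith only [he2, hδ, hδ0, hΛ, h, (div_lt_iff₀ hΛ).2 h]))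
      · exact Or.inr (Or.inr (Or.inl (by linarith only [hδ0, hΛ, h, (lt_div_iff₀ hΛ).2 h])))
      · exact Or.inr (Or.inr (Or.inr (Or.inl (by linarith only [he2, hδ, hδ0, hΛ, h, (div_lt_iff₀ hΛ).2 h]))))
      · exact Or.inr (Or.inr (Or.inr (Or.inr (by linarith only [hδ0, hΛ, h, (lt_div_iff₀ hΛ).2 h])))))
  refine mterm_core (k := k) (M := (a + n / log n ^ 2) * (b + n / log n ^ 2)) hl hL h4 hv hd hv2
    (by positivity) ?_ ?_ ?_ ?_
  · rw [sq]
    gcongr
  · have hw0 : 0 ≤ (n : ℝ) / log n ^ 2 := by positivity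
    linarith only [ha0, hw0, hb0, mul_nonneg ha0 hw0, mul_nonneg hb0 hw0]
  · exact mul_le_mul_of_nonneg_left (by linarith only [he1, he2, hδ, hδ0]) hn0.le
  · have h7 : log (lam n) = log n - log (log n) := log_div hn0.ne' hL0.ne'
    have h8 : (d : ℝ) * log n = n * (d / lam n) := by
      rw [lam]
      field_simp
    rw [hw, hw, log_mul (by positivity) (by positivity), log_mul hr.ne' hΛ.ne',
      log_mul hc.ne' hΛ.ne', h7, h8, ← mul_sub, ← mul_add]
    exact mul_le_mul_of_nonneg_left (by linarith only [h6, key]) hn0.le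

theorem term_all {e : ℝ} (he : 0 < e) {k : ℕ} (hk : 1000 / e ^ 2 ≤ k) :
    ∀ᶠ n : ℕ in atTop, ∀ d v a b : ℕ, v ≤ n → d ≤ 2 * v → v ≤ (2 * k + 6) * d + 4 → a ≤ n →
      b ≤ n → k * (a + b) ≤ (k + 3) * d →
      (n.choose v : ℝ) * 4 ^ v * ((n : ℝ) ^ (2 * v - d) * exp v) * ((a : ℝ) * b + v) ^ (n - v) ≤
        exp (n * (2 * log n - 2 * log (log n) - 2 + e ^ 2 / 100)) := by
  obtain ⟨hk0, hk1⟩ := mterm_k he hk
  filter_upwards [eventually_big,
    mterm_err (C := 5 + (2 * k + 6) * 104) (ε := e ^ 2 / 250) (by positivity)] with n ⟨hl, hL, h4⟩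
    h6 d v a b hv hd hv2 ha hb hab
  have h1 := term_le (P := a * b) (by exact_mod_cast hk0) hl hL h4 hv hd hv2
    (by rw [sq]; exact Nat.mul_le_mul ha hb) (by
      refine le_trans ?_ (Nat.pow_le_pow_left hab 2)
      have h2 : 4 * (a * b) ≤ (a + b) ^ 2 := by
        zify
        linarith only [sq_nonneg ((a : ℤ) - b), sq_nonneg (↑a - ↑b)]
      calc a * b * (4 * k ^ 2) = k ^ 2 * (4 * (a * b)) := by ring
        _ ≤ k ^ 2 * (a + b) ^ 2 := Nat.mul_le_mul_left _ h2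
        _ = _ := by ring)
  rw [Nat.cast_mul] at h1
  refine h1.trans (exp_le_exp.2 (mul_le_mul_of_nonneg_left ?_ (Nat.cast_nonneg n)))
  rw [show 6 / (k : ℝ) = 6 * (1 / k) by ring]
  linarith only [hk1, h6]

theorem mterm_ab {e Λ a b : ℝ} (he : 0 < e) (he1 : e ≤ 1 / 100) (hΛ : 1 ≤ Λ)
    (a1 : (1 - e) * Λ ≤ a) (a2 : a ≤ (1 + e) * Λ) (b1 : (1 - e) * Λ ≤ b) (b2 : b ≤ (1 + e) * Λ) :
    49 / 50 * Λ ^ 2 ≤ a * b ∧ a * b ≤ 103 / 100 * Λ ^ 2 ∧ a + b ≤ 101 / 50 * Λ := by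
  have h1 : 99 / 100 * Λ ≤ (1 - e) * Λ := by gcongr; linarith only [he1]
  have h2 : (1 + e) * Λ ≤ 101 / 100 * Λ := by gcongr; linarith only [he1]
  have h3 : 99 / 100 * Λ * (99 / 100 * Λ) ≤ a * b := by gcongr <;> linarith only [he, he1, hΛ, a1, h1, b1]
  have h4 : a * b ≤ 101 / 100 * Λ * (101 / 100 * Λ) := by gcongr <;> linarith only [he, he1, hΛ, b1, h1, a2, b2]
  refine ⟨?_, ?_, by linarith only [a2, b2, h1]⟩ <;> linarith only [h3, h4, sq_nonneg Λ, sq_nonneg Λ]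

theorem mterm_pow {P Q y : ℝ} (hP : 0 ≤ P) (hQ : 0 ≤ Q) (h : Q ≤ P * (1 + y)) (m : ℕ) :
    Q ^ m ≤ exp (m * y) * P ^ m := by
  rw [Real.exp_nat_mul, ← mul_pow]
  refine pow_le_pow_left₀ hQ (h.trans ?_) m
  rw [mul_comm (exp y)]
  exact mul_le_mul_of_nonneg_left (by linarith [add_one_le_exp y]) hP

theorem mterm_v {ε : ℝ} (hε : 0 < ε) (k : ℕ) : ∀ᶠ n : ℕ in atTop,
    (2 * (k : ℝ) + 6) * (3 * lam n) + 4 ≤ ε * n := by
  have hk : (0 : ℝ) ≤ k := Nat.cast_nonneg k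
  filter_upwards [mterm_lam (ε := ε / (6 * k + 22)) (by positivity)] with n ⟨h1, _, h3⟩
  rw [div_mul_eq_mul_div, le_div_iff₀ (by positivity)] at h3
  linarith only [h1, h3]

theorem ratio_few {e : ℝ} (he : 0 < e) (he1 : e ≤ 1 / 100) (k : ℕ) :
    ∀ᶠ n : ℕ in atTop, ∀ v a b : ℕ, v ≤ n → (v : ℝ) ≤ (2 * k + 6) * (3 * lam n) + 4 →
      (1 - e) * lam n ≤ a → a ≤ (1 + e) * lam n → (1 - e) * lam n ≤ b → b ≤ (1 + e) * lam n →
      (2 : ℝ) ^ a * 2 ^ b * 2 ^ ⌈10 * lam n⌉₊ *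
          ((a : ℝ) * b + v - (e * lam n) ^ 2 / 2) ^ (n - v) ≤
        exp (-(n * (e ^ 2 / 5))) * ((a : ℝ) * b + v) ^ (n - v) := by
  filter_upwards [mterm_lam (ε := e ^ 2 / 70) (by positivity),
    mterm_v (ε := 1 / 10) (by positivity) k] with n ⟨h1, h2, h3⟩ h4 v a b hv hv2 a1 a2 b1 b2
  obtain ⟨h5, h6, h7⟩ := mterm_ab he he1 h1 a1 a2 b1 b2
  have hv0 : (0 : ℝ) ≤ v := Nat.cast_nonneg v
  have hvn : (v : ℝ) ≤ n := by exact_mod_cast hv
  have he2 : e ^ 2 ≤ 1 / 100 := by linarith only [he, he1, mul_nonneg_of_nonpos_of_nonpos (le_of_lt (Mathlib.Tactic.Linarith.sub_neg_of_lt he)) (Mathlib.Tactic.Linarith.sub_nonpos_of_le he1)]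
  have he3 : 0 < e ^ 2 := by positivity
  have hΛ2 : 0 ≤ lam n ^ 2 := sq_nonneg _
  have h8 : e ^ 2 * lam n ^ 2 ≤ 1 / 100 * lam n ^ 2 := by gcongr
  have h9 : e ^ 2 * ((a : ℝ) * b + v) ≤ e ^ 2 * (26 / 25 * lam n ^ 2) := by gcongr; linarith only [h2, h4, hv2, h5, h6, h8]
  have h10 := mterm_pow (P := (a : ℝ) * b + v) (Q := (a : ℝ) * b + v - (e * lam n) ^ 2 / 2)
    (y := -(12 / 25 * e ^ 2)) (by positivity) (by rw [mul_pow]; linarith only [h5, h6, h8])
    (by rw [mul_pow]; linarith only [h2, h9, mul_nonneg he3.le hΛ2]) (n - v)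
  have h11 : (⌈10 * lam n⌉₊ : ℝ) ≤ 10 * lam n + 1 := (Nat.ceil_lt_add_one (by linarith only [he, he1, h1])).le
  calc _ ≤ exp a * exp b * exp ⌈10 * lam n⌉₊ *
        (exp ((n - v : ℕ) * -(12 / 25 * e ^ 2)) * ((a : ℝ) * b + v) ^ (n - v)) := by
        have h12 : 0 ≤ (a : ℝ) * b + v - (e * lam n) ^ 2 / 2 := by rw [mul_pow]; linarith only [h5, h6, h8]
        gcongr <;> exact two_pow_le _
    _ ≤ _ := by
        rw [← mul_assoc]
        refine mul_le_mul_of_nonneg_right ?_ (by positivity)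
        simp only [← exp_add]
        rw [exp_le_exp, Nat.cast_sub hv]
        have h12 : e ^ 2 * (v : ℝ) ≤ e ^ 2 * (1 / 10 * n) := by gcongr; linarith only [h4, hv2]
        have h13 : 0 ≤ e ^ 2 * (n : ℝ) := by positivity
        linarith only [he, he1, h1, h3, h7, h11, h12]

theorem ratio_big {e : ℝ} (he : 0 < e) (he1 : e ≤ 1 / 100) (k : ℕ) :
    ∀ᶠ n : ℕ in atTop, ∀ v a b j : ℕ, v ≤ n → (v : ℝ) ≤ (2 * k + 6) * (3 * lam n) + 4 →
      (1 - e) * lam n ≤ a → a ≤ (1 + e) * lam n → (1 - e) * lam n ≤ b → b ≤ (1 + e) * lam n →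
      1000 * e * n ≤ j + v →
      (2 : ℝ) ^ a * 2 ^ b * 2⁻¹ ^ j *
          ((a : ℝ) * b + 2 * v + 20 * e * lam n * (a + b)) ^ (n - v) ≤
        exp (-(n * (e ^ 2 / 5))) * ((a : ℝ) * b + v) ^ (n - v) := by
  filter_upwards [mterm_lam (ε := e / 3) (by positivity),
    mterm_v he k] with n ⟨h1, h2, h3⟩ h4 v a b j hv hv2 a1 a2 b1 b2 hj
  obtain ⟨h5, h6, h7⟩ := mterm_ab he he1 h1 a1 a2 b1 b2
  have hv0 : (0 : ℝ) ≤ v := Nat.cast_nonneg v
  have hvn : (v : ℝ) ≤ n := by exact_mod_cast hv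
  have hΛ : 0 ≤ lam n := by linarith only [he, he1, h1]
  have h8 : 20 * e * lam n * (a + b) ≤ 20 * e * lam n * (101 / 50 * lam n) := by gcongr
  have h9 : e * (49 / 50 * lam n ^ 2) ≤ e * ((a : ℝ) * b + v) := by gcongr; linarith only [h5]
  have h10 := mterm_pow (P := (a : ℝ) * b + v)
    (Q := (a : ℝ) * b + 2 * v + 20 * e * lam n * (a + b)) (y := 42 * e) (by positivity)
    (by positivity) (by linarith only [h2, hvn, h8, h9, mul_nonneg he.le (sq_nonneg (lam n))]) (n - v)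
  have h11 : (2⁻¹ : ℝ) ^ j ≤ exp (j * -(1 / 2)) := by
    rw [Real.exp_nat_mul]
    refine pow_le_pow_left₀ (by positivity) ?_ j
    linarith only [add_one_le_exp (-(1 / 2) : ℝ)]
  calc _ ≤ exp a * exp b * exp (j * -(1 / 2)) *
        (exp ((n - v : ℕ) * (42 * e)) * ((a : ℝ) * b + v) ^ (n - v)) := by
        gcongr <;> exact two_pow_le _
    _ ≤ _ := by
        rw [← mul_assoc]
        refine mul_le_mul_of_nonneg_right ?_ (by positivity)
        simp only [← exp_add]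
        rw [exp_le_exp, Nat.cast_sub hv]
        have h12 : 0 ≤ e * (v : ℝ) := by positivity
        have h13 : 0 ≤ e * (n : ℝ) := by positivity
        have h14 : e * (e * (n : ℝ)) ≤ 1 * (e * n) := by gcongr; linarith only [he, he1]
        linarith only [he, he1, h1, h3, h4, hv2, hj, h7, h12, h14]

/-- from `lower`, `log_factorial_le`, `tendsto_err` -/
theorem small_le_numND {c : ℝ} (hc : 0 < c) : ∀ᶠ n : ℕ in atTop,
    2 * (n.factorial : ℝ) * ((2 * n + 1) ^ 3 *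
      exp (n * (2 * log n - 2 * log (log n) - 2 - c))) ≤ numND n := by
  filter_upwards [eventually_big, mterm_err (C := 16) hc] with n ⟨hl, hL, h4⟩ h5
  obtain ⟨b1, -⟩ := log_le_aux hl hL h4
  obtain ⟨l1, l2⟩ := lower hl hL h4
  have hn16 : (16 : ℝ) ≤ n := le_trans (by linarith only [hL, pow_le_pow_left₀ (by norm_num) hL 4]) h4
  have hn1 : 1 ≤ n := by
    have : (1 : ℝ) ≤ n := by linarith only [hn16]
    exact_mod_cast this
  have f0 : (0 : ℝ) < n.factorial := by exact_mod_cast n.factorial_pos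
  have h6 := log_factorial_le hn1
  have h7 : log (2 * n + 1) ≤ 2 * log n := by
    have := log_le_log (by positivity) (show 2 * (n : ℝ) + 1 ≤ n ^ 2 by linarith only [hn16, mul_nonneg_of_nonpos_of_nonpos (Mathlib.Tactic.Linarith.sub_nonpos_of_le (Mathlib.Tactic.Linarith.natCast_nonneg ℝ n)) (Mathlib.Tactic.Linarith.sub_nonpos_of_le hn16)])
    rwa [log_pow] at this
  have h8 : log 2 ≤ 1 := by linarith only [log_le_sub_one_of_pos two_pos]
  rw [← log_le_log_iff (by positivity) (by exact_mod_cast l1), log_mul (by positivity)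
    (by positivity), log_mul two_ne_zero f0.ne', log_mul (by positivity) (by positivity), log_exp,
    log_pow]
  push_cast
  linarith only [hL, b1, l2, h6, h7, h8, h5, mul_le_mul_of_nonneg_left h5 (Nat.cast_nonneg (α := ℝ) n)]

end Pool.Agent.Work.MP_5391ad_co
end

-- merged part: Pool.Agent.Work.MP_5391ad_co.SNear
section
/-! A digraph agrees with its core outside a small set.
`GEnc.agree`: object arcs have both ends in `insert x (P x)`, `insert (nx x) (P x)` (`pgph_arc`);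
`x ∈ M` is a sink. `CEnc.agree`: `X = (V \ V2) ∪ M ∪ g M ∪ T`, `T` the targets of the codes. An
object arc starts in `insert a (P a)` (`pcph_tail`) and ends in `P a`, `T` or at `g a`. Every `P a`
is nonempty (`ext`, `out`) and the `P a` are disjoint, so `M`, `g M`, `T` have at most `|V \ V2|`
elements (a target belongs to a vertex of `P a`). `Ph.near`: union of the three sets;
`D3 = rootD s W core` by `GR.dag_core` for `h3.good.rev`; `|M1| ≤ nsrc W (rv core)` since sinks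
persist (`snk`, then `src` of the reversed phase) and by `card_src_le`.
`GR.ph_triv`: as `GR.phases` with `GDat.refl`. `Ph.tt_sub`, `Ph.tt_sub'`: for `a, y ∉ X` all arcs
at `a` and at `y` agree in `D`, `D2`, `D3`; post-domination: `pdm`, then `dmu` of the reversed
phase; domination: `dmu`, then `pdm`; in-bridges: `ib`, then `ob`; out-bridges: `ob`, then `ib`.
The vertices `a`, `y`, `g` lie in `V3` (`g` as the end of an arc of `D3`). -/

namespace Pool.Agent.Work.MP_5391ad_co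

open Finset
open scoped Classical

variable {α : Type*} [Fintype α] {D : α → α → Prop} {s : α}

theorem GEnc.agree {V V1 M : Finset α} {D1 : α → α → Prop} {nx : α → α} {P : α → Finset α}
    {c : α → OCode α} (h : GEnc V D s V1 D1 M nx P c) {u v : α}
    (k : u ∉ insert s (V \ V1 ∪ M ∪ M.image nx) ∨ v ∉ insert s (V \ V1 ∪ M ∪ M.image nx)) :
    D u v ↔ D1 u v := by
  have a1 : ∀ x ∈ M, ∀ y ∈ P x, y ∈ insert s (V \ V1 ∪ M ∪ M.image nx) := fun x hx y hy =>
    mem_insert_of_mem (mem_union_left _ (mem_union_left _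
      (h.part ▸ mem_biUnion.2 ⟨x, hx, hy⟩)))
  have a2 : ∀ x ∈ M, x ∈ insert s (V \ V1 ∪ M ∪ M.image nx) := fun x hx =>
    mem_insert_of_mem (mem_union_left _ (mem_union_right _ hx))
  have a3 : ∀ x ∈ M, nx x ∈ insert s (V \ V1 ∪ M ∪ M.image nx) := fun x hx =>
    mem_insert_of_mem (mem_union_right _ (mem_image_of_mem _ hx))
  have a4 : s ∈ insert s (V \ V1 ∪ M ∪ M.image nx) := mem_insert_self _ _
  rw [← not_and_or] at k
  rw [h.arcs]
  constructor
  · rintro (⟨x, hx, ha⟩ | ha)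
    · obtain ⟨b1, b2⟩ := pgph_arc (h.val x hx) ha
      exact absurd ⟨b1.elim (a1 x hx u) fun e => e ▸ a2 x hx,
        b2.elim (a1 x hx v) fun e => e ▸ a3 x hx⟩ k
    · exact ha.1
  · refine fun ha => Or.inr ⟨ha, fun hu => k ⟨a2 u hu, ?_⟩, ?_⟩
    · rw [((h.ends u hu).1 v).1 ha]
      exact a4
    · rintro ⟨rfl, x, hx, rfl⟩
      exact k ⟨a4, a3 x hx⟩

theorem CEnc.agree {V V2 M : Finset α} {D2 : α → α → Prop} {g : α → α} {P : α → Finset α}
    {c : α → OCode α} (h : CEnc V D s V2 D2 M g P c) : ∃ X : Finset α, V \ V2 ⊆ X ∧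
      X.card ≤ 4 * (V \ V2).card ∧ ∀ u v, u ∉ X ∨ v ∉ X → (D u v ↔ D2 u v) := by
  have c1 : (M.sigma P).card = (V \ V2).card := by
    rw [h.part, card_sigma, card_biUnion fun x hx y hy e => h.disj x hx y hy e]
  have c2 : M.card ≤ (V \ V2).card := by
    rw [← c1, card_sigma, card_eq_sum_ones]
    refine sum_le_sum fun a ha => card_pos.2 ?_
    obtain ⟨x, y, h1, -⟩ := (h.val a ha).ext
    refine ⟨x, by_contra fun hx => ?_⟩
    rw [((h.val a ha).out x hx).2] at h1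
    cases h1
  obtain ⟨X, hX⟩ : ∃ X, X = V \ V2 ∪ M ∪ M.image g ∪
    (M.sigma P).image fun z => ((c z.1).tgt z.2).getD s := ⟨_, rfl⟩
  have a0 : V \ V2 ⊆ X := fun y hy =>
    hX ▸ mem_union_left _ (mem_union_left _ (mem_union_left _ hy))
  have a1 : ∀ x ∈ M, ∀ y ∈ P x, y ∈ X := fun x hx y hy => a0 (h.part ▸ mem_biUnion.2 ⟨x, hx, hy⟩)
  have a2 : ∀ x ∈ M, x ∈ X := fun x hx =>
    hX ▸ mem_union_left _ (mem_union_left _ (mem_union_right _ hx))
  have a3 : ∀ x ∈ M, g x ∈ X := fun x hx =>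
    hX ▸ mem_union_left _ (mem_union_right _ (mem_image_of_mem _ hx))
  refine ⟨X, a0, ?_, fun u v k => ?_⟩
  · have d1 := card_union_le (V \ V2 ∪ M ∪ M.image g)
      ((M.sigma P).image fun z => ((c z.1).tgt z.2).getD s)
    have d2 := card_union_le (V \ V2 ∪ M) (M.image g)
    have d3 := card_union_le (V \ V2) M
    have d4 : (M.image g).card ≤ M.card := card_image_le
    have d5 : ((M.sigma P).image fun z => ((c z.1).tgt z.2).getD s).card ≤ (M.sigma P).card :=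
      card_image_le
    rw [hX]
    omega
  rw [← not_and_or] at k
  rw [h.arcs]
  constructor
  · rintro (⟨a, ha, hc⟩ | hc)
    · refine absurd ⟨(pcph_tail (h.val a ha).toVal0 hc).elim (a1 a ha u) fun e => e ▸ a2 a ha, ?_⟩ k
      rcases hc with hc | hc | hc
      · refine a1 a ha v (by_contra fun hx => ?_)
        rw [((h.val a ha).out v hx).1] at hc
        cases hc
      · have hu : u ∈ P a := by_contra fun hx => by
          rw [((h.val a ha).out u hx).2] at hc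
          cases hc
        exact hX ▸ mem_union_right _ (mem_image.2 ⟨⟨a, u⟩, mem_sigma.2 ⟨ha, hu⟩, by rw [hc]; rfl⟩)
      · exact hc.2 ▸ a3 a ha
    · exact hc.1
  · exact fun hc => Or.inr ⟨hc, fun hu => k ⟨a2 u hu, (h.out u hu v).1 hc ▸ a3 u hu⟩⟩

theorem Ph.near (q : Ph univ D s) : ∃ X : Finset α, Near D s (q.V3.erase s) q.core X ∧
    X.card + 4 * (q.V3.erase s).card + 3 ≤
      4 * Fintype.card α + 2 * nsrc (q.V3.erase s) (rv q.core) ∧
    q.D3 = rootD s (q.V3.erase s) q.core ∧ ∀ u v, u ∉ X ∨ v ∉ X → (D u v ↔ q.D2 u v) := by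
  obtain ⟨X2, a1, a2, a3⟩ := q.h2.toCEnc.agree
  obtain ⟨X3, b1, b2, b3⟩ := q.h3.toCEnc.agree
  have hg : GR q.V3 q.D3 s := q.h3.good.rev
  obtain ⟨hd, he⟩ := hg.dag_core q.h4
  have hd' : IsDag (q.V3.erase s) q.core := hd
  have he' : q.D3 = rootD s (q.V3.erase s) q.core := he
  have hM : q.M1.card ≤ nsrc (q.V3.erase s) (rv q.core) := by
    refine le_trans (card_le_card fun x hx => mem_filter.2 ⟨mem_univ _, ?_⟩)
      (card_src_le hd' (notMem_erase s _)).2
    rw [← he']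
    exact src_rv.1 (q.h3.src x (src_rv.2 (q.h2.snk x (q.h1.ends x hx).1)))
  have k2 : ∀ u v, u ∉ insert s (univ \ q.V1 ∪ q.M1 ∪ q.M1.image q.nx) ∪ X2 ∪ X3 ∨
      v ∉ insert s (univ \ q.V1 ∪ q.M1 ∪ q.M1.image q.nx) ∪ X2 ∪ X3 → (D u v ↔ q.D2 u v) :=
    fun u v k => (q.h1.toGEnc.agree (k.imp (mt fun e => mem_union_left _ (mem_union_left _ e))
      (mt fun e => mem_union_left _ (mem_union_left _ e)))).trans
      (a3 u v (k.imp (mt fun e => mem_union_left _ (mem_union_right _ e))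
        (mt fun e => mem_union_left _ (mem_union_right _ e))))
  refine ⟨insert s (univ \ q.V1 ∪ q.M1 ∪ q.M1.image q.nx) ∪ X2 ∪ X3,
    ⟨hd', notMem_erase _ _, mem_union_left _ (mem_union_left _ (mem_insert_self _ _)),
      fun v hv => ?_, fun u v k => ?_⟩, ?_, he', k2⟩
  · simp only [mem_union, mem_insert, not_or, mem_sdiff, mem_univ, true_and, not_not] at hv
    obtain ⟨⟨⟨c1, ⟨c2, -⟩, -⟩, c3⟩, c4⟩ := hv
    have c5 : v ∈ q.V2 := by_contra fun e => c3 (a1 (mem_sdiff.2 ⟨c2, e⟩))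
    exact mem_erase.2 ⟨c1, by_contra fun e => c4 (b1 (mem_sdiff.2 ⟨c5, e⟩))⟩
  · rw [← he']
    exact (k2 u v k).trans (b3 v u (k.symm.imp (mt (mem_union_right _)) (mt (mem_union_right _))))
  · have d1 := card_union_le (insert s (univ \ q.V1 ∪ q.M1 ∪ q.M1.image q.nx) ∪ X2) X3
    have d2 := card_union_le (insert s (univ \ q.V1 ∪ q.M1 ∪ q.M1.image q.nx)) X2
    have d3 := card_insert_le s (univ \ q.V1 ∪ q.M1 ∪ q.M1.image q.nx)
    have d4 := card_union_le (univ \ q.V1 ∪ q.M1) (q.M1.image q.nx)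
    have d5 := card_union_le (univ \ q.V1) q.M1
    have d6 : (q.M1.image q.nx).card ≤ q.M1.card := card_image_le
    have d7 := card_sdiff_add_card_eq_card q.h1.sub
    have d8 := card_sdiff_add_card_eq_card q.h2.sub
    have d9 := card_sdiff_add_card_eq_card q.h3.sub
    have d0 := card_erase_add_one hg.root
    rw [card_univ] at d7
    omega

theorem GR.ph_triv (h : GR univ D s) (hG : ∀ u, ¬ GT D s u) :
    ∃ q : Ph univ D s, q.V1 = univ ∧ q.D1 = D := by
  obtain ⟨V2, D2, M2, g2, P2, c2, h2, k2⟩ := h.cphase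
  obtain ⟨V3, D3, M3, g3, P3, c3, h3, k3⟩ := h2.good.rev.cphase
  refine ⟨⟨univ, D, _, _, _, _, V2, D2, M2, g2, P2, c2, V3, rv D3, M3, g3, P3, c3,
    GDat.refl h ⟨∅, fun _ => none, fun _ => none, none⟩, h2, h3, fun u hu => ?_⟩, rfl, rfl⟩
  have u3 := cycA_rv.1 hu
  have u2 := cycA_rv.1 (pcph_cyc h3 u3)
  refine k3 u u3 (h3.cc u u3 ?_)
  by_cases k : CCase D s u
  · exact absurd (h2.cc u u2 k) (k2 u u2)
  · exact (h2.rc u u2 (by_contra fun k' => hG u ⟨pcph_cyc h2 u2, k, k'⟩)).resolve_left (k2 u u2)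

theorem snear_tt {V3 X : Finset α} {D3 : α → α → Prop} (hX : ∀ v, v ∉ X → v ∈ V3)
    (a3 : ∀ u v, u ∉ X ∨ v ∉ X → (D u v ↔ D3 u v)) (hm : ∀ u v, D3 u v → v ∈ V3)
    (hi : ∀ u y, y ∉ X → IBr D s u y → IBr D3 s u y)
    (hp : ∀ g ∈ V3, ∀ y ∈ V3, pdom D s g y → pdom D3 s g y) {a : α} (ha : a ∉ X) :
    TT univ D s a ⊆ TT V3 D3 s a ∪ X := fun y hy => by
  rw [mem_union, or_iff_not_imp_right]
  refine fun hyX => mem_filter.2 ⟨hX y hyX, (mem_filter.1 hy).2.imp_right ?_⟩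
  rintro ⟨b1, b2, g, b3, b4⟩
  have b5 : ∀ w, D3 a w ↔ w = g := fun w => (a3 a w (.inl ha)).symm.trans (b3 w)
  have b6 := hm a g ((b5 g).2 rfl)
  refine ⟨b1, b2.imp ?_ fun ⟨u, hu⟩ => ⟨u, hi u y hyX hu⟩, g, b5,
    b4.imp (fun e => ⟨e.1, e.2.imp_right (hp g b6 y (hX y hyX))⟩)
      fun e => ⟨e.1, hp a (hX a ha) y (hX y hyX) e.2⟩⟩
  rintro ⟨u, u', c1, c2, c3⟩
  exact ⟨u, u', c1, (a3 u y (.inr hyX)).1 c2, (a3 u' y (.inr hyX)).1 c3⟩

theorem Ph.tt_sub (q : Ph univ D s) (h1 : q.V1 = univ) (h2 : q.D1 = D) {X : Finset α}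
    (hX : ∀ v, v ∉ X → v ∈ q.V3) (a2 : ∀ u v, u ∉ X ∨ v ∉ X → (D u v ↔ q.D2 u v))
    (a3 : ∀ u v, u ∉ X ∨ v ∉ X → (D u v ↔ q.D3 u v)) {a : α} (ha : a ∉ X) :
    TT univ D s a ⊆ TT q.V3 q.D3 s a ∪ X := by
  obtain ⟨V1, D1, M1, nx, P1, c1, V2, D2, M2, g2, P2, c2, V3, D3, M3, g3, P3, c3, k1, k2, k3,
    k4⟩ := q
  dsimp only at h1 h2 hX a2 a3 ⊢
  subst h1 h2
  exact snear_tt hX a3 (fun u v h => (k3.good.mem v u h).1)
    (fun u y hy h => obr_rv.1 (k3.ob y u (obr_rv.2 (k2.ib u y h ((a2 u y (.inr hy)).1 h.1)))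
      ((a3 u y (.inr hy)).1 h.1)))
    (fun g hg y hy h => dom_rv.1 (k3.dmu g hg y hy
      (dom_rv.2 ((k2.pdm g (k3.sub hg) y (k3.sub hy)).2 h)))) ha

theorem Ph.tt_sub' (q : Ph univ D s) (h1 : q.V1 = univ) (h2 : q.D1 = D) {X : Finset α}
    (hX : ∀ v, v ∉ X → v ∈ q.V3) (a2 : ∀ u v, u ∉ X ∨ v ∉ X → (D u v ↔ q.D2 u v))
    (a3 : ∀ u v, u ∉ X ∨ v ∉ X → (D u v ↔ q.D3 u v)) {a : α} (ha : a ∉ X) :
    TT univ (rv D) s a ⊆ TT q.V3 (rv q.D3) s a ∪ X := by
  obtain ⟨V1, D1, M1, nx, P1, c1, V2, D2, M2, g2, P2, c2, V3, D3, M3, g3, P3, c3, k1, k2, k3,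
    k4⟩ := q
  dsimp only at h1 h2 hX a2 a3 ⊢
  subst h1 h2
  exact snear_tt hX (fun u v k => a3 v u k.symm) (fun u v h => (k3.good.mem u v h).2)
    (fun u y hy h => k3.ib u y (ibr_rv.2 (k2.ob y u (ibr_rv.1 h) ((a2 y u (.inl hy)).1 h.1)))
      ((a3 y u (.inl hy)).1 h.1))
    (fun g hg y hy h => (k3.pdm g hg y hy).2
      (pdom_rv.2 (k2.dmu g (k3.sub hg) y (k3.sub hy) (pdom_rv.1 h)))) ha

end Pool.Agent.Work.MP_5391ad_co
end
end

-- merged part: Pool.Agent.Work.MP_5391ad_co.TVal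
section
-- merged part: Pool.Agent.Work.MP_5391ad_co.TWin
section
/-! Upper bounds on a window of the exploration.
`walk_upper0`: the proof of `walk_upper` with `γ = 0`; finish with `awalk_vol_le` for `c = γ = 0`.
`vol_crude0`: `awalk_first`, `awalk_vol_le`.
`vol_win`: the proof of `aup_main`, `aup_fin`, `volT_upper` with `y = γ = 0` on the window: `n` runs
over `n < j - i`, `x n = j - n`, `n1 = min (j - i) ⌊j - x1⌋`. If `n1 < n0` use `vol_crude0`: then at
most `n0 + 1` terms of the Airy sum have `x ≥ x1` or the window has at most `n0` terms, and each term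
is at most `1` (`aup_eh_le`, `xc - x ≥ 1`); the terms with `x < x1` are at most `(4 t τ1)^(2/3)`.
`cost_le`: for `τ ≤ 1/2`, `eh ≤ 4 t τ` and `(t τ)^(2/3) ≤ ε τ^2 + C t` (weighted AM-GM); for
`τ ≥ 1/2`, `eh ≤ 1/d` with `d = xc - x ≥ 1` and `d^(-2/3) ≤ ε + C d^(-2)`; `j t ≤ log L`,
`∑ d^(-2) ≤ 2`.
`sq_ge`: keep the last `k` terms, `τ x ≥ t e^{t x}` (`tau_spec`). -/

namespace Pool.Agent.Work.MP_5391ad_co

open Finset Real Filter

theorem vol_crude0 {a0 : ℝ} {A : ℕ → ℝ} {b : ℕ} (h0 : 0 ≤ a0) (hA : ∀ n, 0 < A n)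
    (hm : ∀ i j, i ≤ j → j < b → A j ≤ A i) :
    Vol a0 A (fun _ => 1) b ≤ (∏ i ∈ range b, (exp 1 * A i)) * exp (a0 / A (b - 1)) := by
  have h := awalk_vol_le hA h0 (exp_pos _).le (awalk_first (γ := 0) hA le_rfl hm b le_rfl)
  simpa only [zero_mul, exp_zero, mul_one, neg_zero, add_zero, one_mul] using h

theorem walk_upper0 : ∃ C η0 : ℝ, 1 ≤ C ∧ 0 < η0 ∧ η0 ≤ 1 ∧
    ∀ (a0 : ℝ) (A β η : ℕ → ℝ) (b n0 n1 : ℕ), 0 ≤ a0 → (∀ n, 0 < A n) →
    (∀ i j, i ≤ j → j < b → A j ≤ A i) → 1 ≤ n0 → n0 ≤ n1 → n1 ≤ b →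
    Adm2 η0 β η n0 n1 → (∀ n, n0 ≤ n → n < n1 → A n * exp (β (n + 1) ^ 3) ≤ A (n - 1)) →
    Vol a0 A (fun _ => 1) b ≤ (∏ i ∈ range b, (exp 1 * A i)) *
      exp (-(kap0 * ∑ n ∈ Ioc n0 n1, β n ^ 2) + C * ∑ n ∈ Ioc n0 n1, η n * β n ^ 2 +
        a0 / A (b - 1)) * (C / (η n0 * β n0)) := by
  obtain ⟨φ, φ', h⟩ := exists_phi
  obtain ⟨m, D, C, η1, hm, hD, hC, hη0, hη1, H⟩ := step_both h
  obtain ⟨B, hB1, hB⟩ := awalk_phi_bd h
  refine ⟨C + 2 * (B + D), η1, by linarith only [hD, hC, hB1], hη0, hη1, ?_⟩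
  intro a0 A β η b n0 n1 ha hA hmo hn0 hn01 hn1 hadm hrat0
  obtain ⟨γ, hγ0⟩ : ∃ γ : ℝ, γ = 0 := ⟨_, rfl⟩
  have hγ : 0 ≤ γ := hγ0.ge
  have hγb : γ * b ≤ 1 := by rw [hγ0, zero_mul]; exact zero_le_one
  have hrat : ∀ n, n0 ≤ n → n < n1 → A n * exp (β (n + 1) ^ 3 + γ) ≤ A (n - 1) := by
    simpa only [hγ0, add_zero] using hrat0
  obtain ⟨p1, p2, p3⟩ := hadm.1 n0 le_rfl hn01
  have p4 : 0 < η n0 := p1.trans_le p2
  have habs : ∀ n, n0 ≤ n → n ≤ n1 → ∀ k, |hf φ m D (β n) (η n) k| ≤ B + D := fun n a b k => by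
    clear * - β n η η1 φ m D k B n0 n1 hadm a b φ' h hB hm hD hη1
    obtain ⟨q1, q2, q3⟩ := hadm.1 n a b
    exact awalk_hf_abs h (fun x hx => (hB x hx).2) (by linarith only [hm])
      (abs_of_nonneg (by linarith only [hD])).le q1.le (by linarith) (by linarith only [hη1, q3]) k
  have mid : ∀ n, n0 ≤ n → n ≤ n1 → ∀ q, awalk_U A γ n q ≤ exp (γ * n0 ^ 2) * (2 / (η n0 * β n0)) *
      exp (-(kap0 * ∑ i ∈ Ioc n0 n, β i ^ 2) + C * ∑ i ∈ Ioc n0 n, η i * β i ^ 2) *
        hf φ m D (β n) (η n) q := by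
    intro n hn
    induction n, hn using Nat.le_induction with
    | base =>
      intro _ q
      rcases Nat.eq_zero_or_pos q with rfl | hq
      · rw [awalk_U_zero hn0, awalk_hf_zero h, mul_zero]
      refine (awalk_first hA hγ hmo n0 (hn01.trans hn1) q).trans ?_
      have hq' : (1 : ℝ) ≤ q := by exact_mod_cast hq
      have k1 : exp (-γ * q) ≤ 1 := exp_le_one_iff.2 (by linarith only [hγ, mul_nonneg hγ q.cast_nonneg])
      have k2 : η n0 * β n0 / 2 ≤ hf φ m D (β n0) (η n0) q := by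
        clear * - η n0 β φ m D q φ' h p1 hq hm hq' η1 hη1 p2 p3 hD p4
        unfold hf
        have k3 := awalk_phi_nonneg h (x := β n0 * q) (by positivity)
        have k4 : exp (-(m * (β n0 * q))) ≤ exp (-β n0) := by
          refine exp_le_exp.2 (neg_le_neg ?_)
          calc β n0 = 1 * (β n0 * 1) := by ring
            _ ≤ _ := by gcongr
        have k5 : exp (-β n0) ≤ 1 - β n0 / 2 := by
          have k6 := add_one_le_exp (β n0)
          rw [exp_neg, inv_le_iff_one_le_mul₀ (exp_pos _)]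
          have k7 : 0 ≤ 1 - β n0 / 2 := by linarith only [hη1, p2, p3]
          linarith only [k6, k7, p1, p2, p3, hη1, mul_le_mul_of_nonneg_left k6 k7,
            mul_le_of_le_one_left p1.le (p2.trans (p3.trans hη1))]
        have k8 : 1 * η n0 * (β n0 / 2) ≤ D * η n0 * (1 - exp (-(m * (β n0 * q)))) := by
          gcongr
          linarith only [k4, k5]
        linarith only [k3, k8]
      simp only [Ioc_self, sum_empty, mul_zero, neg_zero, add_zero, exp_zero, mul_one]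
      rw [mul_assoc]
      refine mul_le_mul_of_nonneg_left (k1.trans ?_) (exp_pos _).le
      rw [div_mul_eq_mul_div, one_le_div (by positivity)]
      linarith only [k2]
    | succ n hn ih =>
      intro hn' q
      rcases q with _ | q
      · rw [awalk_U_zero (by omega), awalk_hf_zero h, mul_zero]
      obtain ⟨q1, q2, q3⟩ := hadm.1 n hn (by omega)
      obtain ⟨r1, r2, r3⟩ := hadm.1 (n + 1) (by omega) hn'
      obtain ⟨l1, l2⟩ := hadm.2 n hn hn'
      have k1 := (H _ _ _ _ r1 r2 r3 q1 (q1.trans_le q2) l1 l2 q).1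
      refine (awalk_up hA (g := fun k => exp (-(β (n + 1) ^ 3 * k)) * hf φ m D (β n) (η n) k)
        (M := exp (γ * n0 ^ 2) * (2 / (η n0 * β n0)) *
          exp (-(kap0 * ∑ i ∈ Ioc n0 n, β i ^ 2) + C * ∑ i ∈ Ioc n0 n, η i * β i ^ 2))
        (fun k => awalk_g_abs (habs n hn (by omega) k) (by positivity) k) (fun k => ?_) q).trans
        ((mul_le_mul_of_nonneg_left k1 ?_).trans (le_of_eq ?_))
      · rw [mul_left_comm]
        refine mul_le_mul ?_ (ih (by omega) k) (awalk_U_nonneg hA _ _) (exp_pos _).le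
        rw [mul_comm _ (k : ℝ), ← mul_neg, exp_nat_mul]
        have := hA n
        have := hA (n - 1)
        refine pow_le_pow_left₀ (by positivity) ?_ k
        have k2 := hrat n hn hn'
        rw [exp_add] at k2
        rw [exp_neg, div_le_iff₀ (hA _), le_inv_mul_iff₀ (exp_pos _)]
        linarith only [k2]
      · positivity
      · rw [sum_Ioc_succ_top hn, sum_Ioc_succ_top hn, ← mul_assoc, mul_assoc _ (exp _) (exp _),
          ← exp_add]
        congr 3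
        ring
  obtain ⟨j, rfl⟩ := Nat.exists_eq_add_of_le hn1
  have last := awalk_last hA hγ hmo hγb (by positivity) (fun q => (mid n1 hn01 le_rfl q).trans
    (mul_le_mul_of_nonneg_left ((le_abs_self _).trans (habs n1 hn01 le_rfl q)) (by positivity)))
    j le_rfl
  have fin := awalk_vol_le hA ha (by positivity) last
  simp only [hγ0, zero_mul, exp_zero, add_zero, one_mul, mul_one, ne_eq, OfNat.ofNat_ne_zero,
    not_false_eq_true, zero_pow, mul_zero] at fin
  refine fin.trans ?_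
  have hS : 0 ≤ ∑ n ∈ Ioc n0 n1, η n * β n ^ 2 := sum_nonneg fun n hn => by
    obtain ⟨q1, q2, _⟩ := hadm.1 n (mem_Ioc.1 hn).1.le (mem_Ioc.1 hn).2
    exact mul_nonneg (q1.le.trans q2) (sq_nonneg _)
  have hP := awalk_prod_pos hA (n1 + j)
  generalize a0 / A (n1 + j - 1) = t1 at *
  generalize ∑ n ∈ Ioc n0 n1, η n * β n ^ 2 = S2 at *
  generalize kap0 * ∑ n ∈ Ioc n0 n1, β n ^ 2 = S1 at *
  generalize ∏ i ∈ range (n1 + j), (exp 1 * A i) = P at *
  calc _ = P * exp (-S1 + C * S2 + t1) * (2 * (B + D) / (η n0 * β n0)) := by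
        rw [exp_add _ t1]
        ring
    _ ≤ _ := by
        clear * - P S1 C S2 t1 B D η n0 β hD hB1 hS hP hC p4 p1
        gcongr
        · linarith only [hD, hB1]
        · linarith

theorem twin_reidx (f : ℕ → ℝ) {i j : ℕ} (h : i ≤ j) :
    ∑ x ∈ Ico i j, f x = ∑ n ∈ Ioc 0 (j - i), f (j - n) := by
  rw [sum_Ico_eq_sum_range, aup_reidx fun k => f (i + k)]
  refine sum_congr rfl fun n hn => ?_
  have := (mem_Ioc.1 hn).2
  congr 1
  omega

theorem twin_main : ∃ C η0 : ℝ, 1 ≤ C ∧ 0 < η0 ∧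
    ∀ (t τ1 x1 a0 w w' : ℝ) (i j n0 : ℕ), 0 < t → t ≤ 1 / 16 → 8 ≤ n0 →
    8 / (n0 : ℝ) ≤ (η0 / 15) ^ 3 → tau t x1 = τ1 → x1 ≤ xc t → 0 < τ1 → τ1 ≤ 1 / 2 →
    4 * t / τ1 ^ 2 ≤ (η0 / 15) ^ 3 → 0 ≤ a0 → i ≤ j → (j : ℝ) + 1 ≤ xc t →
    0 < w → w ^ 3 ≤ t * τ1 → 0 ≤ w' → 4 * t * τ1 ≤ w' ^ 3 →
    Vol a0 (rate t 0 j) (fun _ => 1) (j - i) ≤ (∏ n ∈ range (j - i), (exp 1 * rate t 0 j n)) *
      exp (a0 / rate t 0 j (j - i - 1) - Ai t i j + kap0 * (n0 + j * w' ^ 2) +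
        C * (j * (60 * t) + 30 * log j)) * (C / (w / 2 * (w / 2))) := by
  obtain ⟨C, η0, hC, h0, h1, hW⟩ := walk_upper0
  refine ⟨C, η0, hC, h0, fun t τ1 x1 a0 w w' i j n0 ht ht' hn0 hn0' hx1 hx1c' hτ hτ' hs ha hij hb
    hw hw3 hw' hw3' => ?_⟩
  have hlt : 0 + (j : ℝ) < xc t := by linarith only [ht, ht', hb]
  have hn0r : (8 : ℝ) ≤ n0 := by exact_mod_cast hn0
  have hx1c : x1 < xc t := hx1c'.lt_of_ne fun e => by
    rw [e, tau_xc ht] at hx1
    linarith only [ht, ht', hx1, hτ']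
  rw [Ai, twin_reidx (fun x => eh t x ^ (2 / 3 : ℝ)) hij]
  obtain ⟨b, hbe⟩ : ∃ b, b = j - i := ⟨_, rfl⟩
  rw [← hbe]
  have hbj : b ≤ j := hbe ▸ Nat.sub_le j i
  obtain ⟨n1, h1b, hn1, hn1'⟩ : ∃ n1 : ℕ, n1 ≤ b ∧ (∀ n : ℕ, 1 ≤ n → n ≤ n1 → (n : ℝ) ≤ j - x1) ∧
      ∀ n : ℕ, n1 < n → n ≤ b → j - x1 ≤ n :=
    ⟨min b ⌊j - x1⌋₊, min_le_left _ _, fun n h2 h3 =>
      (Nat.le_floor_iff' (by omega)).1 (h3.trans (min_le_right _ _)), fun n h2 h3 =>
      ((Nat.floor_lt' (by omega)).1 (by omega)).le⟩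
  obtain ⟨x, hx⟩ : ∃ x : ℕ → ℝ, ∀ n, x n = 0 + (j - n : ℕ) := ⟨_, fun _ => rfl⟩
  have hx' : ∀ n, ((j - n : ℕ) : ℝ) = x n := fun n => by rw [hx, zero_add]
  simp only [hx']
  have hxe : ∀ n, n ≤ b → x n = j - n := fun n hn => by
    rw [← hx', Nat.cast_sub (hn.trans hbj)]
  have hxc : ∀ n, x n < xc t := fun n => hx n ▸ aup_x_lt hlt n
  have hgap : ∀ n, n ≤ b → (n : ℝ) + 1 ≤ xc t - x n := fun n hn => by linarith only [hb, hxe, hn, hxe n hn]
  have hA : ∀ n, 0 < rate t 0 j n := fun n => ht.trans_le (rate_pos ht hlt n)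
  have hP := awalk_prod_pos hA b
  have s1 : ∀ m, m ≤ n0 → m ≤ b → ∑ n ∈ Ioc 0 m, eh t (x n) ^ (2 / 3 : ℝ) ≤ n0 * 1 :=
    fun m h2 h3 => aup_sum zero_le_one h2 fun k _ h4 => rpow_le_one (aup_eh_pos ht (hxc k)).le
      ((aup_eh_le ht (hxc k)).trans ((div_le_one (sub_pos.2 (hxc k))).2 (by
        linarith only [hgap, h4, h3, hgap k (h4.trans h3), k.cast_nonneg (α := ℝ)]))) (by norm_num)
  have s3 : ∑ n ∈ Ioc n1 b, eh t (x n) ^ (2 / 3 : ℝ) ≤ j * w' ^ 2 :=
    aup_sum (sq_nonneg _) hbj fun k h2 h3 => aup_le_sq (aup_eh_pos ht (hxc k)).le hw' (by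
      refine (eh_monotoneOn ht (hxc k) hx1c (by linarith only [hxe, h3, hn1', h2, hxe k h3, hn1' k h2 h3])).trans
        (le_trans ?_ hw3')
      have h5 := mul_le_mul_of_nonneg_right (aup_half ht (hx1 ▸ hτ')) hτ.le
      rw [hx1] at h5
      rwa [eh, hx1, mul_div_right_comm])
  have s0 : 0 ≤ log j := log_natCast_nonneg j
  rw [← sum_Ioc_consecutive _ (Nat.zero_le n1) h1b]
  rcases lt_or_ge n1 n0 with h01 | h01
  · have hw1 : w ≤ 1 := le_of_pow_le_pow_left₀ three_ne_zero zero_le_one (by clear * - w t τ1 ht' hw3 ht hτ' C h01 h1b hA hP ha hij hlt i j n1 s1 s3; linarith only [ht', hw3, ht, hτ', mul_pos_of_neg_of_neg (Mathlib.Tactic.Linarith.sub_neg_of_lt ht) (Mathlib.Tactic.Linarith.sub_neg_of_lt ht), mul_nonneg_of_nonpos_of_nonpos (le_of_lt (Mathlib.Tactic.Linarith.sub_neg_of_lt ht)) (Mathlib.Tactic.Linarith.sub_nonpos_of_le ht'), mul_nonneg_of_nonpos_of_nonpos (le_of_lt (Mathlib.Tactic.Linarith.sub_neg_of_lt ht)) (Mathlib.Tactic.Linarith.sub_nonpos_of_le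 hτ')])
    refine (vol_crude0 ha hA fun i j hij _ => rate_anti ht hlt hij).trans
      (le_trans (mul_le_mul_of_nonneg_left (exp_le_exp.2 ?_) hP.le)
        (le_mul_of_one_le_right (by positivity) ((one_le_div (by positivity)).2 (by clear * - w C t hC hw1 ht' ht hw; (refine le_of_not_gt fun h_nl => ?_; linarith only [h_nl, hC, hw1, ht', ht, hw, mul_nonneg_of_nonpos_of_nonpos (Mathlib.Tactic.Linarith.sub_nonpos_of_le (mul_self_nonneg ((1 : ℝ) * w))) (Mathlib.Tactic.Linarith.sub_nonpos_of_le ht'), mul_nonneg_of_nonpos_of_nonpos (Mathlib.Tactic.Linarith.sub_nonpos_of_le hC) (le_of_lt (Mathlib.Tactic.Linarith.sub_neg_of_lt ht)), mul_pos_of_neg_of_neg (Mathlib.Tactic.Linarith.sub_neg_of_lt ht) (Mathlib.Tactic.Linarith.sub_neg_of_lt ht), mul_nonneg_of_nonpos_of_nonpos (le_of_lt (Mathlib.Tactic.Linarith.sub_neg_of_lt ht)) (Mathlib.Tactic.Linarith.sub_nonpos_of_le ht'), mul_pos_of_neg_of_neg (Mathlib.Tactic.Linarith.sub_neg_of_lt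 ht) (Mathlib.Tactic.Linarith.sub_neg_of_lt h_nl), mul_nonneg_of_nonpos_of_nonpos (Mathlib.Tactic.Linarith.sub_nonpos_of_le ht') (le_of_lt (Mathlib.Tactic.Linarith.sub_neg_of_lt h_nl)), mul_nonneg_of_nonpos_of_nonpos (le_of_lt (Mathlib.Tactic.Linarith.sub_neg_of_lt hw)) (Mathlib.Tactic.Linarith.sub_nonpos_of_le hw1)])))))
    have s9 := mul_le_mul_of_nonneg_left (add_le_add (s1 n1 h01.le h1b) s3) kap0_pos.le
    have s10 : 0 ≤ C * (j * (60 * t) + 30 * log j) := by positivity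
    clear * - a0 t j b n1 x n0 w' C s9 s10
    linarith only [s9, s10]
  have hτn : ∀ n, n0 ≤ n → n ≤ n1 → τ1 ≤ tau t (x n) := fun n h2 hn => hx1 ▸ alam_mono ht (by
    clear * - x1 x n j hxe n1 b hn h1b hn1 i n0 hn0 h2 hxc
    linarith only [hxe, hn, h1b, hn1, hn0, h2, hxe n (hn.trans h1b), hn1 n (by omega) hn]) (hxc n)
  have hEn : ∀ n, n0 ≤ n → n ≤ n1 → t * τ1 ≤ eh t (x n) := fun n h2 hn =>
    (mul_le_mul_of_nonneg_left (hτn n h2 hn) ht.le).trans (aup_eh_ge ht (hxc n))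
  have hγn : ∀ n, 2 * 0 ≤ eh t (x n) := fun n => by linarith only [ht, hxc, aup_eh_pos ht (hxc n)]
  have hstep : ∀ n, n < b → x n = x (n + 1) + 1 := fun n hn => by
    rw [hxe n hn.le, hxe (n + 1) hn]
    push_cast
    ring
  have hV := hW a0 (rate t 0 j) (fun n => aup_b t 0 (x n)) (fun n => aup_e t 0 (x n))
    b n0 n1 ha hA (fun i j hij _ => rate_anti ht hlt hij) (by omega) h01 h1b
    ⟨fun n h2 h3 => ⟨(aup_b_spec ht (hxc n) (hγn n)).1, (aup_b_spec ht (hxc n) (hγn n)).2.2,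
      aup_small ht (hxc n) le_rfl (hγn n) hτ (hτn n h2 h3) h0 hs (le_trans
        (div_le_div_of_nonneg_left (by norm_num) (by linarith only [ht, ht', hn0r]) (by
          linarith only [ht, ht', hgap, h3, h1b, h2, hgap n (h3.trans h1b), (Nat.cast_le (α := ℝ)).2 h2])) hn0')⟩,
      fun n h2 h3 => by
        clear * - x n hstep n1 b h3 h1b t ht hxc n0 ht' hn0r hgap h2 hγn
        have h4 := hstep n (h3.trans_le h1b)
        have h5 := aup_d ht (hxc n)
        have h6 : 2 / (xc t - x n) ≤ 2 / 8 := div_le_div_of_nonneg_left (by norm_num) (by norm_num)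
          (by linarith only [ht, ht', hn0r, hgap, h3, h1b, h2, hgap n (h3.le.trans h1b), (Nat.cast_le (α := ℝ)).2 h2])
        have h7 := aup_reg ht (h4 ▸ hxc n) le_rfl (hγn (n + 1)) (by
          rw [← h4, mul_div_assoc]
          linarith only [ht', h5, h6])
        rwa [← h4] at h7⟩
    (fun n h2 h3 => by
      have h4 := hstep n (h3.trans_le h1b)
      have h5 := hstep (n - 1) (by omega)
      rw [Nat.sub_add_cancel (by omega : 1 ≤ n)] at h5
      have h6 := (incr_ratio ht (h5 ▸ hxc (n - 1))).1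
      rw [(aup_b_spec ht (hxc _) (hγn (n + 1))).2.1, sub_zero, rate, rate, ← hx, ← hx,
        h5, add_sub_cancel_right, mul_comm, eq_sub_of_add_eq h4.symm]
      exact h6)
  obtain ⟨-, hβ⟩ := aup_gap ht (hxc n0) le_rfl (hγn n0) hw (hw3.trans (hEn n0 le_rfl h01))
  have hβ' := hβ.trans (aup_b_spec ht (hxc n0) (hγn n0)).2.2
  refine hV.trans (mul_le_mul (mul_le_mul_of_nonneg_left (exp_le_exp.2 ?_) hP.le)
    (div_le_div_of_nonneg_left (by clear * - C t hC ht ht' hβ hβ'; linarith only [hC, ht, ht']) (by positivity)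
      (mul_le_mul hβ' hβ (by positivity) (by clear * - t x n0 w hw hβ' hβ; linarith only [hw, hβ'])))
    (div_nonneg (by clear * - C t hC ht ht'; linarith only [hC, ht, ht']) (mul_nonneg (by clear * - t x n0 w hw hβ'; linarith only [hw, hβ']) (by clear * - t x n0 w hw hβ; linarith only [hw, hβ])))
    (mul_nonneg hP.le (exp_pos _).le))
  have s2 : ∑ n ∈ Ioc n0 n1, eh t (x n) ^ (2 / 3 : ℝ) ≤ ∑ n ∈ Ioc n0 n1, aup_b t 0 (x n) ^ 2 :=
    sum_le_sum fun k hk => by
      simpa only [zero_div, add_zero] using (aup_gap ht (hxc k) le_rfl (hγn k) hw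
        (hw3.trans (hEn k (mem_Ioc.1 hk).1.le (mem_Ioc.1 hk).2))).1
  have s4 : ∑ n ∈ Ioc n0 n1, (aup_e t 0 (x n) * aup_b t 0 (x n) ^ 2 - 30 * (1 / n)) ≤
      j * (60 * t) :=
    aup_sum (by positivity) (h1b.trans hbj) fun k h2 h3 => by
      clear * - t x k i j n0 hn0 b n1 h2 ht ht' hgap h3 h1b hxc hγn
      have h4 : aup_e t 0 (x k) * aup_b t 0 (x k) ^ 2 =
          15 * (aup_b t 0 (x k) ^ 3 / tau t (x k)) := by
        rw [aup_e]
        ring
      have h6 : 2 / (xc t - x k) ≤ 2 / k := div_le_div_of_nonneg_left (by norm_num)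
        (Nat.cast_pos.2 (by omega)) (by linarith only [ht, ht', hgap, h3, h1b, hgap k (h3.trans h1b)])
      have h7 : (2 : ℝ) / k = 2 * (1 / k) := by ring
      rw [(aup_b_spec ht (hxc k) (hγn k)).2.1, sub_zero, aup_eh_div ht (hxc k)] at h4
      linarith only [h4, h6, h7, ht, hxc, aup_d ht (hxc k)]
  have s5 := aup_harm (show 1 ≤ n0 by omega) h01
  have s6 : 0 ≤ log n0 := log_nonneg (by clear * - n0 t ht ht' hn0r; linarith only [ht, ht', hn0r])
  have s7 : log n1 ≤ log j := log_le_log (Nat.cast_pos.2 (by omega))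
    (Nat.cast_le.2 (h1b.trans hbj))
  rw [sum_sub_distrib, ← mul_sum] at s4
  rw [← sum_Ioc_consecutive _ (Nat.zero_le n0) h01]
  have s9 := mul_le_mul_of_nonneg_left
    (add_le_add (add_le_add (s1 n0 le_rfl (h01.trans h1b)) s2) s3) kap0_pos.le
  have s10 := mul_le_mul_of_nonneg_left (show ∑ n ∈ Ioc n0 n1, aup_e t 0 (x n) * aup_b t 0 (x n) ^ 2
    ≤ j * (60 * t) + 30 * log j by clear * - n0 n1 t x j s4 s5 s6 s7 hC; linarith only [s4, s5, s6, s7]) (zero_le_one.trans hC)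
  clear * - n0 n1 t x C a0 j b w' s9 s10
  linarith only [s9, s10]

theorem twin_fin : ∃ K M : ℝ, 1 ≤ K ∧ ∀ (L u s a0 : ℝ) (i j : ℕ), M ≤ L → M ≤ u → 0 < s →
    s ^ 2 = L → u ^ 100 ≤ L → 7 ≤ log L → K * log L ^ 3 ≤ u ^ 2 → 0 ≤ a0 → i ≤ j →
    (j : ℝ) + 1 ≤ xc L⁻¹ → Vol a0 (rate L⁻¹ 0 j) (fun _ => 1) (j - i) ≤
      (∏ n ∈ range (j - i), (exp 1 * rate L⁻¹ 0 j n)) *
        exp (a0 / rate L⁻¹ 0 j (j - i - 1) - Ai L⁻¹ i j + u ^ 4) := by
  obtain ⟨C, η0, hC, h0, hW⟩ := twin_main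
  have hk := kap0_pos
  have he : 0 < (η0 / 15) ^ 3 := by positivity
  obtain ⟨n0, hn0⟩ := exists_nat_ge (max 8 (8 / (η0 / 15) ^ 3))
  have hn8 : (8 : ℝ) ≤ n0 := (le_max_left _ _).trans hn0
  have hC4 : 0 ≤ log (4 * C) := log_nonneg (by linarith only [hC])
  have hK : 0 ≤ kap0 * (n0 + 4) + 120 * C + log (4 * C) := by positivity
  refine ⟨kap0 * (n0 + 4) + 120 * C + log (4 * C) + 1, max 16 (4 / (η0 / 15) ^ 3), by linarith only [hK],
    fun L u s a0 i b hL hu hs hsL huL hl hKl ha hib hb => ?_⟩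
  have hL16 : 16 ≤ L := (le_max_left _ _).trans hL
  obtain ⟨hu16, hue⟩ : 16 ≤ u ∧ 4 / (η0 / 15) ^ 3 ≤ u := max_le_iff.1 hu
  have hL0 : 0 < L := by linarith only [hL16]
  have hu0 : 0 < u := by linarith only [hu16]
  have hu1 : 1 ≤ u := by linarith only [hu16]
  have ht := inv_pos.2 hL0
  have hxc : xc L⁻¹ = L * (log L - 1) := by rw [xc, inv_inv]
  have hus : u ^ 3 ≤ s := le_of_pow_le_pow_left₀ two_ne_zero hs.le (by
    rw [← pow_mul, hsL]
    exact (pow_le_pow_right₀ hu1 (by norm_num)).trans huL)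
  have hτ : 0 < u ^ 2 / s := by positivity
  have hτ' : u ^ 2 / s ≤ 1 / 2 := by
    rw [div_le_iff₀ hs]
    linarith only [hs, hus, hu16, mul_le_mul_of_nonneg_left hu16 (sq_nonneg u), sq_nonneg u]
  obtain ⟨hx1, hx1'⟩ := tau_eq (x := L * (log (u ^ 2 / s) - u ^ 2 / s + log L)) ht hτ
    (by linarith only [hτ, hτ']) (by
      rw [inv_mul_cancel_left₀ hL0.ne', log_inv]
      ring)
  have hl1 : 1 ≤ log L := by linarith only [hl, hτ, hτ']
  have hl3 : log L ≤ log L ^ 3 := le_self_pow₀ hl1 three_ne_zero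
  have hbL : (b : ℝ) ≤ L * log L := by linarith only [hb, hL16, hxc, hτ, hτ']
  have htτ : L⁻¹ * (u ^ 2 / s) = u ^ 2 / (L * s) := by field_simp
  refine (hW L⁻¹ (u ^ 2 / s) _ a0 s⁻¹ (2 * u / s) i b n0 ht (by
      rw [one_div]
      exact inv_anti₀ (by norm_num) hL16) (by exact_mod_cast hn8)
    ((div_le_comm₀ (by clear * - n0 u s hn8 hτ hτ' ha he hib hn0 hx1 hx1'; linarith only [hn8, hτ, hτ']) he).2 ((le_max_right _ _).trans hn0)) hx1 hx1' hτ hτ' ?_ ha hib
    hb (inv_pos.2 hs) ?_ (by positivity) ?_).trans ?_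
  · have h : 4 * L⁻¹ / (u ^ 2 / s) ^ 2 = 4 / u ^ 4 := by
      rw [← hsL]
      field_simp
    rw [h, div_le_comm₀ (by positivity) he]
    exact hue.trans (le_self_pow₀ hu1 four_ne_zero)
  · rw [htτ, inv_pow, ← one_div, ← hsL, ← pow_succ]
    exact div_le_div_of_nonneg_right (one_le_pow₀ hu1) (by positivity)
  · rw [mul_assoc, htτ, div_pow, ← hsL, ← pow_succ, ← mul_div_assoc]
    exact div_le_div_of_nonneg_right (by
      clear * - u hu16
      linarith only [hu16, mul_le_mul_of_nonneg_left hu16 (sq_nonneg u), sq_nonneg u]) (by positivity)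
  have hq : C / (s⁻¹ / 2 * (s⁻¹ / 2)) = exp (log (4 * C) + log L) := by
    clear * - C s L u hC hτ hτ' hL0 hsL hs
    rw [exp_add, exp_log (by linarith only [hC, hτ, hτ']), exp_log hL0, ← hsL]
    field_simp
    norm_num
  rw [hq, mul_assoc, ← exp_add]
  refine mul_le_mul_of_nonneg_left (exp_le_exp.2 ?_) (awalk_prod_pos
    (fun n => ht.trans_le (rate_pos ht (by clear * - b L u s hb hτ hτ' ht n; linarith only [hb, hτ, hτ']) n)) _).le
  obtain ⟨P, hP⟩ : ∃ P, P = u ^ 2 * log L ^ 3 := ⟨_, rfl⟩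
  have hu2 : 1 ≤ u ^ 2 := one_le_pow₀ hu1
  have p1 : u ^ 2 * log L ≤ P := hP ▸ mul_le_mul_of_nonneg_left hl3 (by positivity)
  have p2 : log L ≤ P := (le_mul_of_one_le_left (by clear * - L u s hl hτ hτ' P hu2 p1; linarith only [hl, hτ, hτ']) hu2).trans p1
  have p3 : 1 ≤ P := hl1.trans p2
  have e2 : b * (2 * u / s) ^ 2 ≤ 4 * P := by
    refine (mul_le_mul_of_nonneg_right hbL (sq_nonneg _)).trans (le_trans (le_of_eq ?_)
      (mul_le_mul_of_nonneg_left p1 four_pos.le))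
    rw [div_pow, hsL]
    field_simp
    norm_num
  have e3 : b * (60 * L⁻¹) ≤ 60 * P := by
    refine (mul_le_mul_of_nonneg_right hbL (by positivity)).trans (le_trans (le_of_eq ?_)
      (mul_le_mul_of_nonneg_left p2 (by norm_num)))
    field_simp
  have e4 : log b ≤ 2 * P := by
    clear * - b P i L u s hl hτ hτ' p2 hib hb hbL e2 e3 hL0
    rcases Nat.eq_zero_or_pos b with rfl | hb0
    · rw [Nat.cast_zero, log_zero]
      linarith only [hl, hτ, hτ', p2]
    have h1 : (b : ℝ) ≤ L ^ 2 := hbL.trans (by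
      rw [sq]
      exact mul_le_mul_of_nonneg_left (log_le_self hL0.le) hL0.le)
    have h2 := log_le_log (Nat.cast_pos.2 hb0) h1
    rw [log_pow, Nat.cast_ofNat] at h2
    linarith only [p2, h2]
  have e7 : (n0 : ℝ) ≤ n0 * P := le_mul_of_one_le_right n0.cast_nonneg p3
  have e9 : log (4 * C) ≤ log (4 * C) * P := le_mul_of_one_le_right hC4 p3
  have f1 := mul_le_mul_of_nonneg_left (show n0 + b * (2 * u / s) ^ 2 ≤
    n0 * P + 4 * P by clear * - n0 b u s P e2 e7 hk; linarith only [e2, e7]) hk.le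
  have f2 := mul_le_mul_of_nonneg_left (show b * (60 * L⁻¹) + 30 * log b ≤ 120 * P by clear * - b L P e3 e4 hC; linarith only [e3, e4])
    (zero_le_one.trans hC)
  have f3 := mul_le_mul_of_nonneg_left hKl (sq_nonneg u)
  rw [mul_left_comm, ← hP] at f3
  clear * - a0 L b i n0 u s C P p2 e9 f1 f2 f3
  linarith only [p2, e9, f1, f2, f3]

theorem vol_win {η : ℝ} (hη : 0 < η) : ∀ᶠ L : ℝ in atTop, ∀ (a0 : ℝ) (i j : ℕ), 0 ≤ a0 → i ≤ j →
    (j : ℝ) + 1 ≤ xc L⁻¹ → Vol a0 (rate L⁻¹ 0 j) (fun _ => 1) (j - i) ≤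
      (∏ n ∈ range (j - i), (exp 1 * rate L⁻¹ 0 j n)) *
        exp (a0 / rate L⁻¹ 0 j (j - i - 1) - Ai L⁻¹ i j + L ^ η) := by
  obtain ⟨K, M, hK, h⟩ := twin_fin
  have h0 : 0 < min (η / 4) (1 / 100) := lt_min (by linarith only [hη]) (by norm_num)
  have h1 := min_le_left (η / 4) (1 / 100)
  have h2 := min_le_right (η / 4) (1 / 100)
  generalize min (η / 4) (1 / 100) = ε at h0 h1 h2
  filter_upwards [eventually_ge_atTop M, eventually_ge_atTop 1,
    (tendsto_rpow_atTop h0).eventually_ge_atTop M, tendsto_log_atTop.eventually_ge_atTop 7,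
    (isLittleO_log_rpow_rpow_atTop (3 : ℕ) (show 0 < ε * (2 : ℕ) by positivity)).bound
      (show 0 < K⁻¹ by positivity)] with L hM hL hu hl hK' a0 i j ha hij hb
  have hL0 : 0 < L := by linarith only [h0, h2, hL]
  have hp : ∀ (n : ℕ) (a : ℝ), ε * n ≤ a → (L ^ ε) ^ n ≤ L ^ a := fun n a ha => by
    rw [← rpow_mul_natCast hL0.le]
    exact rpow_le_rpow_of_exponent_le hL ha
  rw [rpow_natCast, rpow_mul_natCast hL0.le, norm_of_nonneg (by positivity),
    norm_of_nonneg (by positivity), le_inv_mul_iff₀ (by linarith only [hK, h0, h2])] at hK'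
  have ht := inv_pos.2 hL0
  refine (h L (L ^ ε) √L a0 i j hM hu (sqrt_pos.2 hL0) (sq_sqrt hL0.le)
    ((hp 100 1 (by push_cast; linarith only [h2])).trans_eq (rpow_one L)) hl hK' ha hij hb).trans
    (mul_le_mul_of_nonneg_left (exp_le_exp.2 ?_) (awalk_prod_pos
      (fun n => ht.trans_le (rate_pos ht (by linarith only [h0, h2, hb]) n)) _).le)
  linarith only [hp, h1, hp 4 η (by push_cast; linarith)]

theorem twin_pt {t x : ℝ} (ht : 0 < t) (hx : x < xc t) :
    kap0 * eh t x ^ (2 / 3 : ℝ) ≤ tau t x ^ 2 / 64 + (32 * kap0 * (kap0 + 1) * t +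
      65536 * kap0 ^ 3 * (1 / (xc t - x) ^ 2)) := by
  have hk := kap0_pos
  have hE := aup_eh_pos ht hx
  have h3 := aup_cube hE.le
  have hτ := (tau_spec ht hx).1
  have hd := sub_pos.2 hx
  rw [aup_sq hE.le]
  have h4 := rpow_pos_of_pos hE (1 / 3 : ℝ)
  generalize eh t x ^ (1 / 3 : ℝ) = a at h3 h4
  have q1 : 0 ≤ 32 * kap0 * (kap0 + 1) * t := by positivity
  have q2 : 0 ≤ 65536 * kap0 ^ 3 * (1 / (xc t - x) ^ 2) := by positivity
  rcases le_or_gt (kap0 * a ^ 2) (tau t x ^ 2 / 64) with h5 | h5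
  · linarith only [q1, q2, h5]
  have q3 : 0 ≤ tau t x ^ 2 / 64 := by positivity
  rcases le_total (tau t x) (1 / 2) with h | h
  · have h6 : a ^ 3 ≤ 4 * t * tau t x := by
      rw [h3, eh, mul_div_right_comm]
      exact mul_le_mul_of_nonneg_right (aup_half ht h) hτ.le
    have h7 : (a ^ 3) ^ 2 ≤ (4 * t * tau t x) ^ 2 := pow_le_pow_left₀ (by positivity) h6 2
    have h8 : (a ^ 2) ^ 2 * a ^ 2 ≤ (32 * (kap0 + 1) * t) ^ 2 * a ^ 2 := by
      clear * - t x a h5 ht q1 h4 h7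
      have h9 := mul_le_mul_of_nonneg_left h5.le (by positivity : 0 ≤ 1024 * t ^ 2)
      have h10 : kap0 * (t ^ 2 * a ^ 2) ≤ (kap0 + 1) ^ 2 * (t ^ 2 * a ^ 2) :=
        mul_le_mul_of_nonneg_right (by (refine le_of_not_gt fun h_nl => ?_; linarith only [h_nl, ht, q1, mul_nonneg_of_nonpos_of_nonpos (Mathlib.Tactic.Linarith.sub_nonpos_of_le (sq_nonneg ((1 : ℝ) * t))) (le_of_lt (Mathlib.Tactic.Linarith.sub_neg_of_lt h_nl)), mul_pos_of_neg_of_neg (Mathlib.Tactic.Linarith.sub_neg_of_lt ht) (Mathlib.Tactic.Linarith.sub_neg_of_lt ht), mul_nonneg_of_nonpos_of_nonpos (le_of_lt (Mathlib.Tactic.Linarith.sub_neg_of_lt ht)) (Mathlib.Tactic.Linarith.sub_nonpos_of_le q1)])) (by positivity)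
      linarith only [h7, h9, h10]
    have h9 := le_of_pow_le_pow_left₀ two_ne_zero (by positivity)
      (le_of_mul_le_mul_right h8 (by positivity))
    linarith only [q2, q3, h9, hk, mul_le_mul_of_nonneg_left h9 hk.le]
  · have h6 : (a ^ 3) ^ 2 ≤ 1 / (xc t - x) ^ 2 := by
      rw [← one_div_pow]
      exact pow_le_pow_left₀ (by positivity) (h3 ▸ aup_eh_le ht hx) 2
    have h7 : 1 ≤ 256 * (kap0 * a ^ 2) := by clear * - a t x h5 h hτ; linarith only [h5, h, hτ, mul_nonneg_of_nonpos_of_nonpos (le_of_lt (Mathlib.Tactic.Linarith.sub_neg_of_lt hτ)) (Mathlib.Tactic.Linarith.sub_nonpos_of_le h)]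
    have h8 := mul_le_mul_of_nonneg_left (one_le_pow₀ (n := 2) h7)
      (by positivity : 0 ≤ kap0 * a ^ 2)
    have h9 := mul_le_mul_of_nonneg_left h6 (by positivity : 0 ≤ 65536 * kap0 ^ 3)
    linarith only [q1, q3, h8, h9]

theorem twin_tel {X : ℝ} (j : ℕ) (h : (j : ℝ) + 1 ≤ X) :
    ∑ x ∈ range j, 1 / (X - x) ^ 2 ≤ 1 / (X - j) := by
  induction j with
  | zero => rw [sum_range_zero]; exact div_nonneg zero_le_one (by linarith)
  | succ j ih =>
    push_cast at h ⊢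
    rw [sum_range_succ]
    refine (add_le_add_left (ih (by linarith)) _).trans ?_
    have h1 : 0 < X - j := by linarith
    have h2 : 0 < X - (j + 1) := by linarith only [h]
    rw [div_add_div _ _ h1.ne' (pow_pos h1 2).ne', div_le_div_iff₀ (by positivity) h2]
    linarith only [h]

theorem cost_le : ∃ C : ℝ, ∀ᶠ L : ℝ in atTop, ∀ i j : ℕ, (j : ℝ) + 1 ≤ xc L⁻¹ →
    Ai L⁻¹ i j ≤ Sq L⁻¹ i j / 64 + C * log L := by
  have hk := kap0_pos
  refine ⟨32 * kap0 * (kap0 + 1) + 65536 * kap0 ^ 3, ?_⟩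
  filter_upwards [eventually_gt_atTop 0, tendsto_log_atTop.eventually_ge_atTop 1]
    with L hL hl i j hj
  have ht := inv_pos.2 hL
  have hxc : xc L⁻¹ = L * (log L - 1) := by rw [xc, inv_inv]
  have hs : Ico i j ⊆ range j := fun x hx => mem_range.2 (mem_Ico.1 hx).2
  have h1 : Ai L⁻¹ i j ≤ Sq L⁻¹ i j / 64 + ∑ x ∈ Ico i j, (32 * kap0 * (kap0 + 1) * L⁻¹ +
      65536 * kap0 ^ 3 * (1 / (xc L⁻¹ - x) ^ 2)) := by
    rw [Ai, Sq, mul_sum, sum_div, ← sum_add_distrib]
    refine sum_le_sum fun x hx => twin_pt ht ?_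
    have : (x : ℝ) < j := Nat.cast_lt.2 (mem_Ico.1 hx).2
    linarith only [hj, this]
  refine h1.trans (add_le_add_right ((sum_le_sum_of_subset_of_nonneg hs fun x _ _ => by
    positivity).trans ?_) _)
  rw [sum_add_distrib, sum_const, card_range, nsmul_eq_mul, ← mul_sum]
  have h2 : ∑ x ∈ range j, 1 / (xc L⁻¹ - x) ^ 2 ≤ log L :=
    (twin_tel j hj).trans (((div_le_one (by linarith only [hj])).2 (by linarith only [hj])).trans hl)
  have h3 : j * L⁻¹ ≤ log L := by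
    rw [mul_inv_le_iff₀' hL]
    linarith only [hL, hj, hxc]
  have h4 := mul_le_mul_of_nonneg_left h2 (by positivity : 0 ≤ 65536 * kap0 ^ 3)
  have h5 := mul_le_mul_of_nonneg_left h3 (by positivity : 0 ≤ 32 * kap0 * (kap0 + 1))
  linarith only [h4, h5]

theorem sq_ge {L : ℝ} {i j k : ℕ} (hL0 : 0 < L) (hj : (j : ℝ) < xc L⁻¹) (h1 : i + k ≤ j)
    (h2 : (k : ℝ) ≤ L) : k * (L⁻¹ ^ 2 * exp (2 * j / L - 2)) ≤ Sq L⁻¹ i j := by
  have ht := inv_pos.2 hL0
  refine le_trans ?_ (sum_le_sum_of_subset_of_nonneg (Ico_subset_Ico_left (show i ≤ j - k by omega))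
    fun x _ _ => sq_nonneg _)
  refine le_trans (le_of_eq ?_) (card_nsmul_le_sum _ _ (L⁻¹ ^ 2 * exp (2 * j / L - 2))
    fun x hx => ?_)
  · rw [Nat.card_Ico, nsmul_eq_mul, Nat.sub_sub_self (by omega)]
  obtain ⟨h3, h4⟩ := mem_Ico.1 hx
  have h5 : (x : ℝ) < j := Nat.cast_lt.2 h4
  have h6 : (j : ℝ) ≤ x + k := by exact_mod_cast (by omega : j ≤ x + k)
  obtain ⟨h7, -, h8⟩ := tau_spec ht (h5.trans hj)
  have h9 : (j : ℝ) / L - 1 ≤ L⁻¹ * x := by
    rw [sub_le_iff_le_add, div_le_iff₀' hL0, mul_add, mul_inv_cancel_left₀ hL0.ne']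
    linarith only [h2, h6]
  rw [← exp_log h7, ← exp_log ht, ← exp_nat_mul, ← exp_nat_mul, ← exp_add, exp_log ht]
  refine exp_le_exp.2 ?_
  rw [mul_div_assoc]
  push_cast
  linarith only [h7, h8, h9]

end Pool.Agent.Work.MP_5391ad_co
end

-- merged part: Pool.Agent.Work.MP_5391ad_co.TTree
section
/-! Serving the root tree first.
`vol_tree`: put `Φ n q c = ∑_{k ≤ n} c^k/k! Vg A 1 n (q + k)`. Then `Φ n 0 c = Vol c A 1 n` and, by
the binomial theorem (`(a + c)^k/k! = ∑ a^i/i! c^j/j!`) and `Vg_eq_zero`,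
`Φ (n+1) (q+1) c = ∑_{i ≤ n} (x n)^i/i! Φ n (q + i) (c + A n - x n)`. By induction on `n`, for all
`q, c`: `Φ n q c = ∑_{m ≤ n} Vg (fun i => x (i + (n - m))) 1 m q *
Vol (c + ∑_{j ∈ Ico (n-m) n} (A j - x j)) A 1 (n - m)`. Finally
`Vol a0 A 1 b = ∑_q x0^q/q! Φ b q (a0 - x0)`.
`cT_le`: `cT m = Wr 1 1 (m+1) 1 = (m+1)^(m-1)/m!` (`treeW_eq`, `card_trees`) and
`Stirling.le_factorial_stirling`. `PT_eq`: `Vg (fun _ => a) 1 n q = Vg 1 1 n q • a^(n-q)`.
`ev_pM`: the coefficient of `X` in `pLam m` is `treeW 0 (1+m) 0 = 1 + m`.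
`PR_split`: `cps_vg_split`. `sum_PRq_le`: `vol_tree` for `b = B + q0`, the shifted rates of `VQg`,
`x0 = X`, `x j = if j < q0 then 0 else X`; the sums telescope, the terms `m ≤ B` are
`PT m * PRq B m q0`, and all terms have nonnegative coefficients (for `m > B` the initial rate is
`pM B`; `Ev.vol`, `Ev.mul` with `z = 0` give nonnegativity). -/

namespace Pool.Agent.Work.MP_5391ad_co

open Finset Real PowerSeries

section
variable {𝕜 : Type*} [CommRing 𝕜] [Algebra ℝ 𝕜]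

/-- the volume with `q` vertices born and a pending rate `c` -/
noncomputable def ttree_Phi (A : ℕ → 𝕜) (n q : ℕ) (c : 𝕜) : 𝕜 :=
  ∑ k ∈ range (n + 1), ((k.factorial : ℝ)⁻¹ • c ^ k) * Vg A (fun _ => 1) n (q + k)

theorem ttree_ext (A f : ℕ → 𝕜) {n N M : ℕ} (q : ℕ) (h1 : n < q + M) (h2 : M ≤ N) :
    ∑ k ∈ range N, f k * Vg A (fun _ => 1) n (q + k) =
      ∑ k ∈ range M, f k * Vg A (fun _ => 1) n (q + k) := by
  refine (sum_subset (range_subset_range.2 h2) fun k _ hk => ?_).symm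
  rw [Vg_eq_zero A _ (by simp only [mem_range] at hk; omega), mul_zero]

theorem ttree_phi_zero (A : ℕ → 𝕜) (n : ℕ) (c : 𝕜) :
    ttree_Phi A n 0 c = Vol c A (fun _ => 1) n := by
  simp only [ttree_Phi, Vol, zero_add]

theorem ttree_vg_succ (A : ℕ → 𝕜) (n q : ℕ) :
    Vg A (fun _ => 1) (n + 1) (q + 1) = ttree_Phi A n q (A n) := by
  rw [Vg, one_mul, ttree_Phi]

theorem ttree_exp_add (a c : 𝕜) (k : ℕ) : (k.factorial : ℝ)⁻¹ • (a + c) ^ k =
    ∑ i ∈ range (k + 1), ((i.factorial : ℝ)⁻¹ • a ^ i) *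
      (((k - i).factorial : ℝ)⁻¹ • c ^ (k - i)) := by
  rw [add_pow, smul_sum]
  refine sum_congr rfl fun i hi => ?_
  have hi' := Nat.lt_succ_iff.1 (mem_range.1 hi)
  have e : (k.choose i : 𝕜) = (k.choose i : ℝ) • (1 : 𝕜) := by
    rw [Nat.cast_smul_eq_nsmul, nsmul_eq_mul, mul_one]
  rw [e, mul_smul_comm, mul_one, smul_smul, smul_mul_smul_comm]
  have h : (k.factorial : ℝ)⁻¹ * (k.choose i : ℝ) =
      (i.factorial : ℝ)⁻¹ * ((k - i).factorial : ℝ)⁻¹ := by
    rw [← Nat.choose_mul_factorial_mul_factorial hi']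
    have h1 : (i.factorial : ℝ) ≠ 0 := by positivity
    have h2 : ((k - i).factorial : ℝ) ≠ 0 := by positivity
    have h3 : (k.choose i : ℝ) ≠ 0 := by exact_mod_cast (Nat.choose_pos hi').ne'
    push_cast
    field_simp
  rw [h]

theorem ttree_phi_add (A : ℕ → 𝕜) (n q : ℕ) (a c : 𝕜) : ttree_Phi A n q (a + c) =
    ∑ i ∈ range (n + 1), ((i.factorial : ℝ)⁻¹ • a ^ i) * ttree_Phi A n (q + i) c := by
  have h1 : ttree_Phi A n q (a + c) = ∑ k ∈ range (n + 1), ∑ i ∈ range (k + 1),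
      (fun i j : ℕ => ((i.factorial : ℝ)⁻¹ • a ^ i) * (((j.factorial : ℝ)⁻¹ • c ^ j) *
        Vg A (fun _ => 1) n (q + i + j))) i (k - i) := by
    refine sum_congr rfl fun k _ => ?_
    rw [ttree_exp_add, sum_mul]
    refine sum_congr rfl fun i hi => ?_
    have hi' := Nat.lt_succ_iff.1 (mem_range.1 hi)
    rw [show q + k = q + i + (k - i) by omega, mul_assoc]
  rw [h1, sum_range_diag_flip (n + 1) (fun i j : ℕ => ((i.factorial : ℝ)⁻¹ • a ^ i) *
    (((j.factorial : ℝ)⁻¹ • c ^ j) * Vg A (fun _ => 1) n (q + i + j)))]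
  refine sum_congr rfl fun i hi => ?_
  have hi' := Nat.lt_succ_iff.1 (mem_range.1 hi)
  rw [← mul_sum, ttree_Phi,
    ttree_ext A _ (q + i) (by omega : n < q + i + (n + 1 - i)) (by omega : n + 1 - i ≤ n + 1)]

theorem ttree_phi_succ (A : ℕ → 𝕜) (n q : ℕ) (c : 𝕜) :
    ttree_Phi A (n + 1) (q + 1) c = ttree_Phi A n q (c + A n) := by
  rw [ttree_phi_add, ttree_Phi,
    ttree_ext A _ (q + 1) (by omega : n + 1 < q + 1 + (n + 1)) (by omega : n + 1 ≤ n + 1 + 1)]
  refine sum_congr rfl fun k _ => ?_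
  rw [show q + 1 + k = q + k + 1 by omega, ttree_vg_succ]

theorem ttree_main (A x : ℕ → 𝕜) (n : ℕ) : ∀ (q : ℕ) (c : 𝕜), ttree_Phi A n q c =
    ∑ m ∈ range (n + 1), Vg (fun i => x (i + (n - m))) (fun _ => 1) m q *
      Vol (c + ∑ j ∈ Ico (n - m) n, (A j - x j)) A (fun _ => 1) (n - m) := by
  induction n with
  | zero =>
    intro q c
    simp [ttree_Phi, Vol, Vg]
  | succ n ih =>
    intro q c
    cases q with
    | zero =>
      rw [ttree_phi_zero, sum_range_succ', sum_eq_zero fun m _ => by rw [Vg, zero_mul]]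
      simp [Vg]
    | succ q =>
      rw [ttree_phi_succ, show c + A n = x n + (c + A n - x n) by ring, ttree_phi_add,
        sum_range_succ' _ (n + 1), Vg, if_neg (Nat.succ_ne_zero q), zero_mul, add_zero]
      simp only [ih, mul_sum]
      rw [sum_comm]
      refine sum_congr rfl fun m hm => ?_
      have hm' := Nat.lt_succ_iff.1 (mem_range.1 hm)
      have e1 : n + 1 - (m + 1) = n - m := by omega
      have e2 : m + (n - m) = n := by omega
      rw [e1, ttree_vg_succ, e2, ttree_Phi, sum_Ico_succ_top (by omega : n - m ≤ n),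
        ← ttree_ext _ _ q (by omega : m < q + (m + 1)) (by omega : m + 1 ≤ n + 1), sum_mul]
      refine sum_congr rfl fun i _ => ?_
      rw [mul_assoc, show c + (∑ j ∈ Ico (n - m) n, (A j - x j) + (A n - x n)) =
        c + A n - x n + ∑ j ∈ Ico (n - m) n, (A j - x j) by ring]

theorem ttree_vg_const (a : 𝕜) (n : ℕ) : ∀ q : ℕ, Vg (fun _ => a) (fun _ => 1) n q =
    Vg (fun _ => (1 : ℝ)) (fun _ => 1) n q • a ^ (n - q) := by
  induction n with
  | zero =>
    intro q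
    simp only [Vg]
    split_ifs
    · simp
    · simp
  | succ n ih =>
    intro q
    cases q with
    | zero => simp [Vg]
    | succ q =>
      rw [Vg, Vg, one_mul, one_mul, sum_smul]
      refine sum_congr rfl fun k _ => ?_
      rw [ih]
      rcases le_or_gt (q + k) n with h | h
      · rw [smul_mul_smul_comm, ← pow_add, one_pow, smul_eq_mul, mul_one,
          show k + (n - (q + k)) = n + 1 - (q + 1) by omega]
      · rw [Vg_eq_zero _ _ h, zero_smul, mul_zero, mul_zero, zero_smul]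

theorem ttree_vol_const (a : 𝕜) (m : ℕ) :
    Vol a (fun _ => a) (fun _ => 1) m = Vg (fun _ => a) (fun _ => 1) (m + 1) 1 := by
  rw [← ttree_phi_zero, ← ttree_vg_succ (fun _ => a) m 0]

end

theorem vol_tree {𝕜 : Type*} [CommRing 𝕜] [Algebra ℝ 𝕜] (a0 x0 : 𝕜) (A x : ℕ → 𝕜) (b : ℕ) :
    Vol a0 A (fun _ => 1) b = ∑ m ∈ range (b + 1),
      Vol x0 (fun i => x (i + (b - m))) (fun _ => 1) m *
        Vol (a0 - x0 + ∑ j ∈ Ico (b - m) b, (A j - x j)) A (fun _ => 1) (b - m) := by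
  rw [← ttree_phi_zero, show a0 = x0 + (a0 - x0) by ring, ttree_phi_add, add_sub_cancel_left]
  simp only [ttree_main A x, mul_sum]
  rw [sum_comm]
  refine sum_congr rfl fun m hm => ?_
  have hm' := Nat.lt_succ_iff.1 (mem_range.1 hm)
  rw [← ttree_phi_zero (fun i => x (i + (b - m))), ttree_Phi,
    ← ttree_ext _ _ 0 (by omega : m < 0 + (m + 1)) (by omega : m + 1 ≤ b + 1), sum_mul]
  refine sum_congr rfl fun i _ => ?_
  rw [mul_assoc]

theorem ttree_vg_wr (n : ℕ) : ∀ q : ℕ,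
    Vg (fun _ => (1 : ℝ)) (fun _ => 1) n q = Wr 1 1 n q := by
  induction n with
  | zero => intro q; rw [Vg, Wr]
  | succ n ih =>
    intro q
    cases q with
    | zero => rw [Vg, Wr]
    | succ q =>
      rw [Vg, Wr, one_mul]
      refine sum_congr rfl fun k _ => ?_
      have e : cW 1 1 k = 1 := by
        unfold cW
        split_ifs <;> rfl
      rw [ih, e, one_pow, smul_eq_mul, mul_one, one_div]

theorem ttree_cT (m : ℕ) : cT m = ((m : ℝ) + 1) ^ m / (m + 1).factorial := by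
  have h := qtree_one (m + 1) 1 m (by omega)
  rw [cT, ttree_vol_const, ttree_vg_wr, eq_div_iff (by positivity), Nat.factorial_succ]
  push_cast at h ⊢
  linarith only [h]

theorem cT_le (m : ℕ) : 0 ≤ cT m ∧ cT m ≤ exp (m + 1) * ((m : ℝ) + 1) ^ (-(3 / 2) : ℝ) := by
  rw [ttree_cT]
  refine ⟨by positivity, ?_⟩
  have h := Stirling.le_factorial_stirling (m + 1)
  have hn : (0 : ℝ) < m + 1 := by positivity
  push_cast at h
  have h1 : √((m : ℝ) + 1) ≤ √(2 * π * (m + 1)) :=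
    sqrt_le_sqrt (by linarith only [pi_gt_three, mul_nonneg_of_nonpos_of_nonpos (Mathlib.Tactic.Linarith.sub_nonpos_of_le (Mathlib.Tactic.Linarith.natCast_nonneg ℝ m)) (le_of_lt (Mathlib.Tactic.Linarith.sub_neg_of_lt pi_gt_three))])
  have h2 : (((m : ℝ) + 1) / exp 1) ^ (m + 1) = ((m : ℝ) + 1) ^ (m + 1) / exp (m + 1) := by
    rw [div_pow, ← Real.exp_nat_mul]
    push_cast
    rw [mul_one]
  have h3 : ((m : ℝ) + 1) ^ (-(3 / 2) : ℝ) = (((m : ℝ) + 1) * √((m : ℝ) + 1))⁻¹ := by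
    rw [rpow_neg hn.le, sqrt_eq_rpow, show (3 / 2 : ℝ) = 1 + 1 / 2 by norm_num, rpow_add hn,
      rpow_one]
  have h4 : 0 < √((m : ℝ) + 1) := sqrt_pos.2 hn
  have h5 : √((m : ℝ) + 1) * (((m : ℝ) + 1) ^ (m + 1) / exp (m + 1)) ≤ (m + 1).factorial := by
    rw [← h2]
    exact (mul_le_mul_of_nonneg_right h1 (by positivity)).trans h
  rw [h3]
  refine (div_le_div_of_nonneg_left (by positivity) (by positivity) h5).trans (le_of_eq ?_)
  rw [pow_succ]
  field_simp

theorem PT_eq (m : ℕ) : PT m = cT m • X ^ m := by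
  rw [PT, cT, ttree_vol_const, ttree_vol_const, ttree_vg_const, Nat.add_sub_cancel]

theorem ttree_treeW (ω : ℝ) : treeW 0 ω 0 = ω := by
  rw [treeW_eq]
  simp [Wr, cW]

theorem pM_nonneg (m k : ℕ) : 0 ≤ coeff k (pM m) := by
  rw [pM, map_sub, coeff_smul, coeff_X]
  split_ifs with h
  · subst h
    rw [pLam, coeff_mk, if_neg one_ne_zero, Nat.sub_self, ttree_treeW]
    simp
  · rw [smul_zero, sub_zero]
    exact (pLam_mono (by linarith [Nat.cast_nonneg (α := ℝ) m]) le_rfl k).1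

theorem ttree_ev_X (z : ℝ) : Ev z X z := by
  refine ⟨fun k => ?_, ?_⟩
  · rw [coeff_X]
    split_ifs
    · exact zero_le_one
    · exact le_rfl
  · have h := hasSum_single (f := fun k => coeff k (X : PowerSeries ℝ) * z ^ k) 1
      fun k hk => by rw [coeff_X, if_neg hk, zero_mul]
    rwa [coeff_X, if_pos rfl, pow_one, one_mul] at h

theorem ev_pM {L : ℝ} {m : ℕ} (hL1 : 1 < L) (hm : (m : ℝ) < xc L⁻¹) :
    Ev (L - 1)⁻¹ (pM m) (aM L m) := by
  have h1 := ev_pLam hL1 (Nat.cast_nonneg m) hm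
  have h2 := cps_ev_smul (c := (1 : ℝ) + m) (by positivity) (ttree_ev_X (L - 1)⁻¹)
  refine ⟨pM_nonneg m, qtsum_congr (h1.2.sub h2.2) fun k => ?_⟩
  rw [pM, map_sub, sub_mul]

theorem ttree_ev_PT {z : ℝ} (hz : 0 ≤ z) (m : ℕ) : Ev z (PT m) (z ^ m * cT m) := by
  have h := cps_ev_smul (cT_le m).1
    (cps_fl_pow (lam := 0) hz le_rfl (cps_fl_self (ttree_ev_X z)) m).1
  rw [PT_eq, mul_comm]
  exact h

theorem ev_TV {L : ℝ} {b m : ℕ} (hL1 : 1 < L) (hm : m ≤ b) (hb : (b : ℝ) < xc L⁻¹) :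
    Ev (L - 1)⁻¹ (PT m * PR b m) (TV L b m) := by
  have hz := (inv_pos.2 (sub_pos.2 hL1)).le
  exact (ttree_ev_PT hz m).mul hz (Ev.vol hz (ev_pM hL1 ((Nat.cast_le.2 hm).trans_lt hb))
    fun n hn => ev_pRate hL1 (by omega) hb)

theorem ev_TQ {L : ℝ} {B m : ℕ} (hL1 : 1 < L) (hm : m ≤ B) (hb : (B : ℝ) < xc L⁻¹) :
    Ev (L - 1)⁻¹ (PT m * PRq B m 1) (TQ L B m) := by
  have hz := (inv_pos.2 (sub_pos.2 hL1)).le
  refine (ttree_ev_PT hz m).mul hz (Ev.vol hz (ev_pM hL1 ((Nat.cast_le.2 hm).trans_lt hb))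
    fun n hn => ?_)
  by_cases h : n < 1
  · rw [if_pos h, if_pos h]
    exact cps_ev_zero
  · rw [if_neg h, if_neg h]
    exact ev_pRate hL1 (by omega) hb

theorem PR_split {B m : ℕ} (hm : m ≤ B) :
    PR (B + 2) m = pRate (B + 1) 0 * PRq B m 1 + PRq B m 2 := by
  have key := cps_vg_split (A := pRate (B + 2))
    (A1 := fun n => if n < 1 then 0 else pRate B (n - 1))
    (A2 := fun n => if n < 2 then 0 else pRate B (n - 2)) (if_pos one_lt_two)
    (fun m => by
      rw [if_neg (by omega), pRate, pRate, show B + 2 - (m + 2) = B - (m + 1 - 1) by omega])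
    (fun m => by
      rw [if_neg (by omega), pRate, pRate, show B + 2 - (m + 2) = B - (m + 2 - 2) by omega])
    (B - m)
  have e : pRate (B + 2) 1 = pRate (B + 1) 0 := by
    rw [pRate, pRate, show B + 2 - 1 = B + 1 - 0 by omega]
  have e1 : PRq B m 1 = ∑ k ∈ range (B - m + 2 + 1), ((k.factorial : ℝ)⁻¹ • pM m ^ k) *
      Vg (fun n => if n < 1 then 0 else pRate B (n - 1)) (fun _ => 1) (B - m + 1) k := by
    rw [sum_range_succ _ (B - m + 2), Vg_eq_zero _ _ (by omega : B - m + 1 < B - m + 2),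
      mul_zero, add_zero]
    rfl
  rw [e1, PR, PRq, VQg, show B + 2 - m = B - m + 2 by omega, Vol, Vol, mul_sum, ← sum_add_distrib]
  refine sum_congr rfl fun k _ => ?_
  rw [key, e]
  ring

theorem ttree_ev_zero {F : PowerSeries ℝ} (h : ∀ k, 0 ≤ coeff k F) : Ev 0 F (coeff 0 F) := by
  refine ⟨h, ?_⟩
  have h1 := hasSum_single (f := fun k => coeff k F * (0 : ℝ) ^ k) 0
    fun k hk => by rw [zero_pow hk, mul_zero]
  rwa [pow_zero, mul_one] at h1

theorem ttree_vol_nonneg {a0 : PowerSeries ℝ} {A : ℕ → PowerSeries ℝ} (h0 : ∀ k, 0 ≤ coeff k a0)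
    (h : ∀ n k, 0 ≤ coeff k (A n)) (b : ℕ) : ∀ k, 0 ≤ coeff k (Vol a0 A (fun _ => 1) b) :=
  (Ev.vol (α := fun n => coeff 0 (A n)) le_rfl (ttree_ev_zero h0)
    fun n _ => ttree_ev_zero (h n)).1

theorem ttree_pRate_nonneg (b n k : ℕ) : 0 ≤ coeff k (pRate b n) := by
  rw [pRate, map_sub]
  exact sub_nonneg.2 (pLam_mono (by linarith [Nat.cast_nonneg (α := ℝ) (b - n)]) (by linarith) k).2

theorem ttree_tel (B q0 : ℕ) : ∀ m : ℕ, m ≤ B + q0 →
    pLam 0 - X + ∑ j ∈ Ico (B + q0 - m) (B + q0),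
      ((if j < q0 then 0 else pRate B (j - q0)) - if j < q0 then 0 else X) = pM (min m B) := by
  intro m
  induction m with
  | zero =>
    intro _
    simp [pM]
  | succ m ih =>
    intro hm
    rw [sum_eq_sum_Ico_succ_bot (by omega : B + q0 - (m + 1) < B + q0),
      show B + q0 - (m + 1) + 1 = B + q0 - m by omega, add_left_comm, ih (by omega)]
    by_cases h : m + 1 ≤ B
    · have h1 : ¬ B + q0 - (m + 1) < q0 := by omega
      rw [if_neg h1, if_neg h1, min_eq_left h, min_eq_left (by omega : m ≤ B), pRate,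
        show B - (B + q0 - (m + 1) - q0) = m + 1 by omega, pM, pM]
      push_cast
      rw [add_sub_cancel_right, ← add_assoc, add_smul ((1 : ℝ) + m), one_smul]
      ring
    · have h1 : B + q0 - (m + 1) < q0 := by omega
      rw [if_pos h1, if_pos h1, min_eq_right (by omega : B ≤ m + 1),
        min_eq_right (by omega : B ≤ m), sub_zero, zero_add]

theorem sum_PRq_le {B m1 : ℕ} (hm : m1 ≤ B) (q0 k : ℕ) :
    coeff k (∑ m ∈ range (m1 + 1), PT m * PRq B m q0) ≤ coeff k (PQ B q0) := by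
  have hX : ∀ k, 0 ≤ coeff k (X : PowerSeries ℝ) := (ttree_ev_X 0).1
  have hA : ∀ n k, 0 ≤ coeff k (if n < q0 then 0 else pRate B (n - q0)) := fun n k => by
    split_ifs
    · rw [map_zero]
    · exact ttree_pRate_nonneg _ _ _
  have hx : ∀ n k, 0 ≤ coeff k (if n < q0 then 0 else X : PowerSeries ℝ) := fun n k => by
    split_ifs
    · rw [map_zero]
    · exact hX k
  rw [PQ, VQg, vol_tree _ X _ fun j => if j < q0 then 0 else X, map_sum, map_sum]
  refine le_trans (le_of_eq (sum_congr rfl fun m hm1 => ?_))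
    (sum_le_sum_of_subset_of_nonneg (range_subset_range.2 (by omega : m1 + 1 ≤ B + q0 + 1))
      fun m hm1 _ => ?_)
  · have h1 : m ≤ B := (Nat.lt_succ_iff.1 (mem_range.1 hm1)).trans hm
    have e : (fun i => if i + (B + q0 - m) < q0 then 0 else X : ℕ → PowerSeries ℝ) =
        fun _ => X := funext fun i => if_neg (by omega)
    rw [ttree_tel B q0 m (by omega), min_eq_left h1, e, PT, PRq, VQg,
      show B + q0 - m = B - m + q0 by omega]
  · rw [ttree_tel B q0 m (Nat.lt_succ_iff.1 (mem_range.1 hm1))]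
    exact ((ttree_ev_zero (ttree_vol_nonneg hX (fun n => hx _) m)).mul le_rfl
      (ttree_ev_zero (ttree_vol_nonneg (pM_nonneg _) hA _))).1 k

end Pool.Agent.Work.MP_5391ad_co
end

-- merged part: Pool.Agent.Work.MP_5391ad_co.TVal
section
/-! The cost of a held vertex and of a large root tree. `t = L⁻¹`, `A x = Lam x - Lam (x - 1)`,
`FreeT t 0 b = ∏_{x=1}^b e A x`. By `freeT_sharp` and `airy_sum` with `y = 0`, `u = 1`:
`FreeT t 0 b * exp (-Ai 0 b) ≤ exp (-hL L - κ L^(1/3) + C log L)`.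
`tval_p`: `p e^{1-p} ≤ exp (-(1-p)^2/2)` for `0 < p ≤ 1`.
`hv_le`: `l = d + 1`. First factor: `vol_win` on `[0, j)`, `Lam 0/A ≤ e^2` (`aup_a0`); `Lam j ≤ log L`;
third factor: `vol_crude0`, at most `e ∏_{i=2}^l e A i ≤ L ∏_{i=1}^l e A i`; last factor: `vol_win`
on `[j + l, b)` with `a0 = ∑_{i=1}^l (A (j+i) - A i)`, and the rate in the denominator is at least
`A (j + i)` (`rate_anti`). With `p i = A i / A (j+i) ≤ (1 - τ (j+i-1))/(1 - τ i)` (`incr_bounds`):
`1 - p i ≥ τ (j+i-1) - τ i ≥ τ (j+i-1)/2` (`tau_growth`, `t (j-1) ≥ 0.9`). So the gain is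
`Sq j (j+l)/8`, the loss is `Ai j (j+l)` (`cost_le`).
`tv_le`: `z = (L-1)⁻¹ = t/(1-t)`, `p i = z/A i ≤ (1 - τ (i-1))/(1 - t) ≤ 1` because `τ x ≥ t e^{t x}`
for `x ≥ 0`; `1 - p i ≥ τ (i-1) - t ≥ τ (i-1)/2` for `i - 1 ≥ L`; `cT m ≤ e^(m+1)`;
`aM L m = (Lam 0 - z) + ∑_{i=1}^m (A i - z) ≥ 0`; `Sq 0 ⌈L⌉ ≤ 1` (`asum_start`). -/

namespace Pool.Agent.Work.MP_5391ad_co

open Finset Real Filter

/-- the rate of the service number `x + 1` -/
noncomputable def tval_a (t : ℝ) (x : ℕ) : ℝ := Lam t ((x : ℝ) + 1) - Lam t x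

theorem tval_p {p w : ℝ} (h0 : 0 < p) (hw : 0 ≤ w) (h : w ≤ 1 - p) :
    p * exp (1 - p) ≤ exp (-(w ^ 2 / 2)) := by
  have hu : |1 - p| < 1 := by
    rw [abs_lt]
    constructor <;> linarith only [hw, h, h0]
  have h1 := sum_le_hasSum (range 2) (fun n _ => by
    have : 0 ≤ 1 - p := by linarith
    positivity) (hasSum_pow_div_log_of_abs_lt_one hu)
  simp only [sum_range_succ, range_zero, sum_empty, sub_sub_cancel] at h1
  norm_num at h1
  rw [← exp_log h0, ← exp_add, exp_log h0]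
  apply exp_le_exp.2
  have h2 : w ^ 2 ≤ (1 - p) ^ 2 := pow_le_pow_left₀ hw h 2
  linarith only [h1, h2]

theorem tval_prod (s : Finset ℕ) {a c w : ℕ → ℝ} {R : ℝ} (ha : ∀ i ∈ s, 0 < a i)
    (hc : ∀ i ∈ s, 0 < c i ∧ c i ≤ R) (hw : ∀ i ∈ s, 0 ≤ w i ∧ a i ≤ (1 - w i) * c i) :
    (∏ i ∈ s, (exp 1 * a i)) * exp ((∑ i ∈ s, (c i - a i)) / R) ≤
      (∏ i ∈ s, (exp 1 * c i)) * exp (-((∑ i ∈ s, w i ^ 2) / 2)) := by
  rw [sum_div, sum_div, ← sum_neg_distrib, exp_sum, exp_sum, ← prod_mul_distrib,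
    ← prod_mul_distrib]
  refine prod_le_prod (fun i hi => ?_) fun i hi => ?_
  · have := ha i hi
    positivity
  · have h1 := ha i hi
    obtain ⟨h2, h3⟩ := hc i hi
    obtain ⟨h4, h5⟩ := hw i hi
    have h6 : w i ≤ 1 - a i / c i := by
      rw [le_sub_comm, div_le_iff₀ h2]
      exact h5
    have h7 := tval_p (div_pos h1 h2) h4 h6
    have h8 : (c i - a i) / R ≤ 1 - a i / c i := by
      have h9 : 0 ≤ c i - a i := by linarith only [h5, h2, h4, mul_nonneg_of_nonpos_of_nonpos (le_of_lt (Mathlib.Tactic.Linarith.sub_neg_of_lt h2)) (Mathlib.Tactic.Linarith.sub_nonpos_of_le h4)]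
      rw [one_sub_div h2.ne']
      exact div_le_div_of_nonneg_left h9 h2 h3
    calc exp 1 * a i * exp ((c i - a i) / R) ≤ exp 1 * a i * exp (1 - a i / c i) := by gcongr
      _ = exp 1 * c i * (a i / c i * exp (1 - a i / c i)) := by field_simp
      _ ≤ _ := by gcongr

theorem tval_rate {t : ℝ} {j n : ℕ} (h : n < j) : rate t 0 j n = tval_a t (j - n - 1) := by
  have e : ((j - n : ℕ) : ℝ) = ((j - n - 1 : ℕ) : ℝ) + 1 := by
    rw [← Nat.cast_succ]
    congr 1
    omega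
  rw [rate, tval_a, e, zero_add, add_sub_cancel_right]

theorem tval_F {t : ℝ} {i j : ℕ} :
    ∏ n ∈ range (j - i), (exp 1 * rate t 0 j n) = ∏ x ∈ Ico i j, (exp 1 * tval_a t x) := by
  rw [prod_Ico_eq_prod_range, ← prod_range_reflect (fun n => exp 1 * tval_a t (i + n))]
  refine prod_congr rfl fun n hn => ?_
  have := mem_range.1 hn
  rw [tval_rate (by omega)]
  congr 2
  omega

theorem tval_le_rate {t : ℝ} {b i x : ℕ} (ht : 0 < t) (hb : (b : ℝ) < xc t) (hx : x < i)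
    (hi : i ≤ b) : tval_a t x ≤ rate t 0 b (b - i - 1) := by
  have h1 : rate t 0 b (b - x - 1) = tval_a t x := by
    rw [tval_rate (by omega)]
    congr 1
    omega
  rw [← h1]
  exact rate_anti ht (by rwa [zero_add]) (by omega)

theorem tval_bounds {t : ℝ} {x : ℕ} (ht : 0 < t) (hx : (x : ℝ) + 1 < xc t) :
    t / (1 - tau t x) ≤ tval_a t x ∧ tval_a t x ≤ t / (1 - tau t ((x : ℝ) + 1)) := by
  have h := incr_bounds ht hx
  rwa [add_sub_cancel_right] at h

theorem tval_ge {t : ℝ} {x : ℕ} (ht : 0 < t) (hx : (x : ℝ) + 1 < xc t) : t ≤ tval_a t x := by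
  refine le_trans ?_ (tval_bounds ht hx).1
  obtain ⟨h1, h2, -⟩ := tau_spec ht (x := x) (by linarith)
  rw [le_div_iff₀ (by linarith)]
  linarith only [ht, h1, mul_pos_of_neg_of_neg (Mathlib.Tactic.Linarith.sub_neg_of_lt ht) (Mathlib.Tactic.Linarith.sub_neg_of_lt h1)]

theorem tval_sum (t : ℝ) (j l : ℕ) :
    ∑ x ∈ range l, tval_a t (j + x) = Lam t ((j : ℝ) + l) - Lam t j := by
  induction l with
  | zero => simp
  | succ l ih =>
    rw [sum_range_succ, ih, tval_a]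
    push_cast
    rw [add_assoc]
    ring

theorem tval_Ai (t : ℝ) {i j k : ℕ} (h1 : i ≤ j) (h2 : j ≤ k) :
    Ai t i k = Ai t i j + Ai t j k := by
  rw [Ai, Ai, Ai, ← mul_add, sum_Ico_consecutive _ h1 h2]

theorem tval_Sq (t : ℝ) (i j : ℕ) : 0 ≤ Sq t i j := sum_nonneg fun _ _ => sq_nonneg _

theorem tval_main : ∃ C : ℝ, ∀ᶠ L : ℝ in atTop, ∀ b : ℕ, (b : ℝ) + 1 = xc L⁻¹ →
    (∏ x ∈ Ico 0 b, (exp 1 * tval_a L⁻¹ x)) * exp (-Ai L⁻¹ 0 b) ≤
      exp (-hL L - kappa * L ^ (1 / 3 : ℝ) + C * log L) := by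
  obtain ⟨C1, h1⟩ := freeT_sharp
  obtain ⟨C2, h2⟩ := airy_sum
  refine ⟨1 + 2 * |C1| + |C2|, ?_⟩
  filter_upwards [h1, h2, eventually_ge_atTop (exp 1)] with L h1 h2 hL b hb
  have hl := ab0_log hL
  have hL1 : 1 ≤ L := le_trans (by linarith only [add_one_le_exp (1 : ℝ)]) hL
  have h3 := (h1 0 1 b le_rfl (by linarith) le_rfl hL1 (by linarith only [hb])).1
  have h4 := abs_le.1 (h2 0 1 b le_rfl (by linarith only [hL1]) le_rfl hL1 (by linarith only [hb]))
  have e1 : FreeT L⁻¹ 0 b = ∏ x ∈ Ico 0 b, (exp 1 * tval_a L⁻¹ x) := tval_F (i := 0)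
  have e2 : Ai L⁻¹ 0 b = kap0 * ∑ i ∈ range b, eh L⁻¹ (0 + i) ^ (2 / 3 : ℝ) := by
    simp only [Ai, zero_add, range_eq_Ico]
  rw [← e1, e2]
  refine (mul_le_mul_of_nonneg_right h3 (exp_pos _).le).trans ?_
  rw [← exp_add]
  apply exp_le_exp.2
  rw [log_one]
  have h5 : C1 * (1 + (1 + 0) * log L) ≤ |C1| * (1 + (1 + 0) * log L) :=
    mul_le_mul_of_nonneg_right (le_abs_self _) (by linarith only [hl])
  have h6 := le_abs_self C2
  have h7 := mul_le_mul_of_nonneg_left hl (abs_nonneg C1)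
  have h8 := mul_le_mul_of_nonneg_left hl (abs_nonneg C2)
  clear * - L C1 b C2 hl h4 h5 h6 h7 h8
  linarith only [hl, h4, h5, h6, h7, h8]

theorem tval_ev {η : ℝ} (hη : 0 < η) (C : ℝ) :
    ∀ᶠ L : ℝ in atTop, C * log L + 2 * L ^ (η / 2) ≤ L ^ η := by
  filter_upwards [ab0_pow (a := η / 2) (b := η) (by linarith only [hη]) (|C| + 2),
    eventually_ge_atTop (exp 1)] with L h hL
  have hl := ab0_log hL
  have hL1 : 1 ≤ L := le_trans (by linarith [add_one_le_exp (1 : ℝ)]) hL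
  have h1 : 1 ≤ L ^ (η / 2) := one_le_rpow hL1 (by linarith)
  have h2 : C * log L ≤ |C| * log L := mul_le_mul_of_nonneg_right (le_abs_self _) (by linarith)
  have h3 : |C| * log L ≤ |C| * (L ^ (η / 2) * log L) :=
    mul_le_mul_of_nonneg_left (by linarith only [h1, hl, mul_nonneg_of_nonpos_of_nonpos (Mathlib.Tactic.Linarith.sub_nonpos_of_le hl) (Mathlib.Tactic.Linarith.sub_nonpos_of_le h1)]) (abs_nonneg C)
  linarith only [h, hl, h2, h3, h1, mul_nonneg_of_nonpos_of_nonpos (Mathlib.Tactic.Linarith.sub_nonpos_of_le hl) (Mathlib.Tactic.Linarith.sub_nonpos_of_le h1)]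

theorem tval_a0 {t : ℝ} {b : ℕ} (ht : 0 < t) (hb : (b : ℝ) < xc t) (n : ℕ) :
    0 ≤ Lam t 0 ∧ Lam t 0 / rate t 0 b n ≤ exp 2 := by
  obtain ⟨h1, h2⟩ := aup_a0 (y := 0) ht le_rfl (by simp) (by rwa [zero_add]) n
  refine ⟨h1, ?_⟩
  rw [mul_div_assoc, zero_add] at h2
  exact le_of_mul_le_mul_left h2 (exp_pos 2)

theorem tval_vol_nonneg {a0 : ℝ} {A : ℕ → ℝ} (h0 : 0 ≤ a0) (hA : ∀ n, 0 ≤ A n) (b : ℕ) :
    0 ≤ Vol a0 A (fun _ => 1) b := by
  have h : ∀ n q, 0 ≤ Vg A (fun _ => (1 : ℝ)) n q := by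
    intro n
    induction n with
    | zero =>
      intro q
      rw [Vg]
      split_ifs <;> norm_num
    | succ n ih =>
      intro q
      cases q with
      | zero => rw [Vg]
      | succ q =>
        rw [Vg, one_mul]
        refine sum_nonneg fun k _ => mul_nonneg ?_ (ih _)
        have := hA n
        rw [smul_eq_mul]
        positivity
  refine sum_nonneg fun k _ => mul_nonneg ?_ (h _ _)
  rw [smul_eq_mul]
  positivity

theorem tval_gain {t : ℝ} {j x : ℕ} (ht : 0 < t) (hj : 1 / 2 ≤ t * ((j : ℝ) - 1))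
    (hx : (j : ℝ) + x + 1 < xc t) :
    tval_a t x ≤ (1 - tau t ((j + x : ℕ) : ℝ) / 3) * tval_a t (j + x) := by
  have hj1 : (1 : ℝ) ≤ j := by
    by_contra h
    linarith only [hj, ht, h, mul_pos_of_neg_of_neg (Mathlib.Tactic.Linarith.sub_neg_of_lt ht) (Mathlib.Tactic.Linarith.sub_neg_of_lt (lt_of_not_ge h))]
  have h1 := (tval_bounds (x := x) ht (by linarith only [hx, hj1])).2
  have h2 := (tval_bounds (x := j + x) ht (by push_cast; linarith only [hx])).1
  obtain ⟨p1, p2, -⟩ := tau_spec (x := (x : ℝ) + 1) ht (by linarith only [hx, hj1])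
  obtain ⟨q1, q2, -⟩ := tau_spec (x := ((j + x : ℕ) : ℝ)) ht (by push_cast; linarith only [hx, p1, p2])
  have h3 := (tau_growth (x := (x : ℝ) + 1) (y := ((j + x : ℕ) : ℝ)) ht (by push_cast; linarith only [hj1])
    (by push_cast; linarith only [hx, p1, p2])).1
  have e : ((j + x : ℕ) : ℝ) - (x + 1) = j - 1 := by
    push_cast
    ring
  rw [e] at h3
  have h4 := add_one_le_exp (t * ((j : ℝ) - 1))
  generalize tau t ((x : ℝ) + 1) = p at *
  generalize tau t ((j + x : ℕ) : ℝ) = q at *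
  have h5 : p * (3 / 2) ≤ q := le_trans (mul_le_mul_of_nonneg_left (by linarith only [hj, h4]) p1.le) h3
  refine h1.trans (le_trans ?_ (mul_le_mul_of_nonneg_left h2 (by linarith only [p1, q2, h5])))
  rw [← mul_div_assoc, div_le_div_iff₀ (by linarith only [p1, q2, h5]) (by linarith only [q2])]
  have h6 : 1 - q ≤ (1 - q / 3) * (1 - p) := by clear * - q p h5 p1 q1; linarith only [h5, p1, q1, mul_pos_of_neg_of_neg (Mathlib.Tactic.Linarith.sub_neg_of_lt p1) (Mathlib.Tactic.Linarith.sub_neg_of_lt q1)]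
  clear * - t q p ht h6
  linarith only [ht, h6, mul_nonneg_of_nonpos_of_nonpos (le_of_lt (Mathlib.Tactic.Linarith.sub_neg_of_lt ht)) (Mathlib.Tactic.Linarith.sub_nonpos_of_le h6)]

theorem hv_le {η : ℝ} (hη : 0 < η) : ∀ᶠ L : ℝ in atTop, ∀ b j d : ℕ, (b : ℝ) + 1 = xc L⁻¹ →
    j + d + 1 ≤ b → L ≤ j → HV L⁻¹ b j d ≤
      exp (-hL L - kappa * L ^ (1 / 3 : ℝ) + L ^ η - Sq L⁻¹ j (j + d + 1) / 64) := by
  obtain ⟨C1, h1⟩ := tval_main
  obtain ⟨C2, h2⟩ := cost_le
  filter_upwards [h1, h2, vol_win (half_pos hη), tval_ev hη (C1 + C2 + 2 + exp 2),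
    eventually_ge_atTop (exp 1)] with L h1 h2 h3 h4 hLe b j d hb hjd hLj
  have hl := ab0_log hLe
  have hL2 : 2 ≤ L := le_trans (by linarith only [add_one_le_exp (1 : ℝ)]) hLe
  have hL0 : 0 < L := by linarith only [hL2]
  have ht : 0 < L⁻¹ := inv_pos.2 hL0
  have hjd' : (j : ℝ) + d + 1 ≤ b := by exact_mod_cast hjd
  have hj0 : (0 : ℝ) ≤ j := Nat.cast_nonneg j
  have hd0 : (0 : ℝ) ≤ d := Nat.cast_nonneg d
  have hpos : ∀ x, x < b → 0 < tval_a L⁻¹ x := fun x hx => by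
    have : (x : ℝ) + 1 ≤ b := by exact_mod_cast hx
    exact ht.trans_le (tval_ge ht (by linarith only [hb, this]))
  have hP : ∀ i k, k ≤ b → 0 < ∏ x ∈ Ico i k, (exp 1 * tval_a L⁻¹ x) := fun i k hk =>
    prod_pos fun x hx => mul_pos (exp_pos 1) (hpos x (by have := (mem_Ico.1 hx).2; omega))
  have hr : ∀ k : ℕ, k ≤ b → ∀ n, 0 < rate L⁻¹ 0 k n := fun k hk n => by
    have : (k : ℝ) ≤ b := by exact_mod_cast hk
    exact crate_pos ht (by linarith only [hb, this]) n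
  -- first factor
  obtain ⟨a1, a2⟩ := tval_a0 (b := j) ht (by linarith only [hb, hjd']) (j - 0 - 1)
  have v1 : Vol (Lam L⁻¹ 0) (rate L⁻¹ 0 j) (fun _ => 1) j ≤
      (∏ x ∈ Ico 0 j, (exp 1 * tval_a L⁻¹ x)) * exp (exp 2 - Ai L⁻¹ 0 j + L ^ (η / 2)) := by
    clear * - L j η h3 a1 d b hb hjd' a2 hP hjd
    have h5 := h3 (Lam L⁻¹ 0) 0 j a1 (Nat.zero_le j) (by linarith only [hb, hjd'])
    rw [tval_F] at h5
    refine h5.trans (mul_le_mul_of_nonneg_left (exp_le_exp.2 (by linarith only [a2]))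
      (hP 0 j (by omega)).le)
  -- second factor
  obtain ⟨t1, t2, -⟩ := tau_spec (x := (j : ℝ)) ht (by linarith only [hb, hjd'])
  have v2 : 0 ≤ Lam L⁻¹ j ∧ Lam L⁻¹ j ≤ L := by
    clear * - L ht j d b hb hjd' t1 t2 hL0 hL2
    have h5 := alam_xc ht
    have h6 : L⁻¹ * j ≤ L⁻¹ * xc L⁻¹ := mul_le_mul_of_nonneg_left (by linarith only [hb, hjd', t1, t2]) ht.le
    have h7 := log_le_sub_one_of_pos hL0
    rw [log_inv] at h5
    have h8 : 0 ≤ L⁻¹ * j := by positivity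
    rw [Lam]
    constructor <;> linarith only [t1, h8, t2, h5, h6, h7]
  -- third factor
  have e3 : Lam L⁻¹ 1 - Lam L⁻¹ 0 = tval_a L⁻¹ 0 := by simp [tval_a]
  have v3 : Vol (Lam L⁻¹ 1 - Lam L⁻¹ 0) (rate L⁻¹ 0 (d + 1)) (fun _ => 1) d ≤
      L * ∏ x ∈ range (d + 1), (exp 1 * tval_a L⁻¹ x) := by
    clear * - d L b j hb hLj hL2 hjd' t1 t2 hpos hjd hr ht hL0 e3 hP
    have hd1 : ((d + 1 : ℕ) : ℝ) < xc L⁻¹ := by
      push_cast
      linarith only [hb, hLj, hL2, hjd', t1, t2]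
    have h5 := vol_crude0 (a0 := tval_a L⁻¹ 0) (A := rate L⁻¹ 0 (d + 1)) (b := d)
      (hpos 0 (by omega)).le (hr _ (by omega))
      (fun _ _ h _ => rate_anti ht (by rwa [zero_add]) h)
    have h6 := tval_F (t := L⁻¹) (i := 1) (j := d + 1)
    rw [Nat.add_sub_cancel] at h6
    have h7 := tval_le_rate (b := d + 1) (i := 1) (x := 0) ht hd1 Nat.one_pos (by omega)
    rw [Nat.add_sub_cancel] at h7
    have h8 : tval_a L⁻¹ 0 / rate L⁻¹ 0 (d + 1) (d - 1) ≤ 1 :=
      (div_le_one (hr _ (by omega) _)).2 h7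
    have h9 : 1 ≤ L * tval_a L⁻¹ 0 := by
      have := mul_le_mul_of_nonneg_left (tval_ge (x := 0) ht (by push_cast; linarith only [hb, hLj, hL2, hjd', t1, t2])) hL0.le
      rwa [mul_inv_cancel₀ hL0.ne'] at this
    rw [e3, range_eq_Ico, prod_eq_prod_Ico_succ_bot (Nat.succ_pos d)]
    rw [h6] at h5
    have h10 := hP 1 (d + 1) (by omega)
    calc _ ≤ _ := h5
      _ ≤ (∏ x ∈ Ico 1 (d + 1), (exp 1 * tval_a L⁻¹ x)) * exp 1 := by gcongr
      _ ≤ (∏ x ∈ Ico 1 (d + 1), (exp 1 * tval_a L⁻¹ x)) * exp 1 * (L * tval_a L⁻¹ 0) :=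
        le_mul_of_one_le_right (by positivity) h9
      _ = _ := by ring
  -- last factor
  have e4 : Lam L⁻¹ (j + d + 1) - Lam L⁻¹ j - (Lam L⁻¹ (d + 1) - Lam L⁻¹ 0) =
      ∑ x ∈ range (d + 1), (tval_a L⁻¹ (j + x) - tval_a L⁻¹ x) := by
    have h5 := tval_sum L⁻¹ 0 (d + 1)
    simp only [zero_add, Nat.cast_zero] at h5
    rw [sum_sub_distrib, tval_sum, h5]
    push_cast
    rw [add_assoc]
  have hg : ∀ x ∈ range (d + 1), 0 ≤ tau L⁻¹ ((j + x : ℕ) : ℝ) / 3 ∧
      tval_a L⁻¹ x ≤ (1 - tau L⁻¹ ((j + x : ℕ) : ℝ) / 3) * tval_a L⁻¹ (j + x) := fun x hx => by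
    clear * - x d hx L j ht b hb hjd' t1 t2 hL0 hLj hL2
    have hx' : (x : ℝ) ≤ d := by exact_mod_cast Nat.lt_succ_iff.1 (mem_range.1 hx)
    refine ⟨?_, tval_gain ht ?_ (by linarith only [hb, hjd', t1, t2, hx'])⟩
    · have := (tau_spec (x := ((j + x : ℕ) : ℝ)) ht (by push_cast; linarith only [hb, hjd', t1, t2, hx'])).1
      linarith only [this]
    · rw [inv_mul_eq_div, le_div_iff₀ hL0]
      linarith only [hLj, hL2]
  have a4 : 0 ≤ ∑ x ∈ range (d + 1), (tval_a L⁻¹ (j + x) - tval_a L⁻¹ x) :=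
    sum_nonneg fun x hx => by
      clear * - L j x hg hx hpos d b hjd t1 t2
      have h5 := hg x hx
      have h6 := hpos (j + x) (by have := mem_range.1 hx; omega)
      (refine le_of_not_gt fun h_nl => ?_; linarith only [h_nl, h5, t1, t2, h6, h5.1, h5.2, mul_pos_of_neg_of_neg (Mathlib.Tactic.Linarith.sub_neg_of_lt t1) (Mathlib.Tactic.Linarith.sub_neg_of_lt h_nl), mul_pos_of_neg_of_neg (Mathlib.Tactic.Linarith.sub_neg_of_lt t2) (Mathlib.Tactic.Linarith.sub_neg_of_lt h_nl), mul_nonneg_of_nonpos_of_nonpos (Mathlib.Tactic.Linarith.sub_nonpos_of_le h5.left) (le_of_lt (Mathlib.Tactic.Linarith.sub_neg_of_lt h6))])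
  have v4 := h3 _ (j + d + 1) b a4 hjd hb.le
  rw [tval_F] at v4
  have v5 := tval_prod (range (d + 1)) (a := fun x => tval_a L⁻¹ x)
    (c := fun x => tval_a L⁻¹ (j + x)) (w := fun x => tau L⁻¹ ((j + x : ℕ) : ℝ) / 3)
    (R := rate L⁻¹ 0 b (b - (j + d + 1) - 1))
    (fun x hx => hpos x (by have := mem_range.1 hx; omega))
    (fun x hx => by
      clear * - x d hx L j b hpos hjd ht hb t1 t2 hg
      have := mem_range.1 hx
      exact ⟨hpos _ (by omega), tval_le_rate ht (by linarith only [hb, t1, t2]) (by omega) hjd⟩) hg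
  have e5 : ∏ x ∈ range (d + 1), (exp 1 * tval_a L⁻¹ (j + x)) =
      ∏ x ∈ Ico j (j + d + 1), (exp 1 * tval_a L⁻¹ x) := by
    rw [prod_Ico_eq_prod_range, show j + d + 1 - j = d + 1 by omega]
  have e6 : ∑ x ∈ range (d + 1), (tau L⁻¹ ((j + x : ℕ) : ℝ) / 3) ^ 2 =
      Sq L⁻¹ j (j + d + 1) / 9 := by
    rw [Sq, sum_Ico_eq_sum_range, show j + d + 1 - j = d + 1 by omega, sum_div]
    refine sum_congr rfl fun x _ => by ring
  rw [e5, e6] at v5
  have e7 : ∏ x ∈ Ico 0 b, (exp 1 * tval_a L⁻¹ x) = (∏ x ∈ Ico 0 j, (exp 1 * tval_a L⁻¹ x)) *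
      (∏ x ∈ Ico j (j + d + 1), (exp 1 * tval_a L⁻¹ x)) *
        ∏ x ∈ Ico (j + d + 1) b, (exp 1 * tval_a L⁻¹ x) := by
    rw [prod_Ico_consecutive _ (Nat.zero_le j) (by omega),
      prod_Ico_consecutive _ (Nat.zero_le _) hjd]
  have e8 : Ai L⁻¹ 0 b = Ai L⁻¹ 0 j + Ai L⁻¹ j (j + d + 1) + Ai L⁻¹ (j + d + 1) b := by
    rw [tval_Ai L⁻¹ (Nat.zero_le _) hjd, tval_Ai L⁻¹ (Nat.zero_le j) (k := j + d + 1) (by omega)]
  have m1 := h1 b hb
  have m2 := h2 j (j + d + 1) (by clear * - j d L b hb hjd' h2; push_cast; linarith only [hb, hjd'])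
  have m3 := tval_Sq L⁻¹ j (j + d + 1)
  rw [e7, e8] at m1
  have n3 := tval_vol_nonneg (hpos 0 (by omega)).le (fun n => (hr (d + 1) (by omega) n).le) d
  have n4 := tval_vol_nonneg a4 (fun n => (hr b le_rfl n).le) (b - (j + d + 1))
  rw [HV, e4, show b - j - d - 1 = b - (j + d + 1) by omega]
  rw [e3] at v3 ⊢
  have q1 := hP 0 j (by omega)
  have q3 := hP (j + d + 1) b le_rfl
  have q0 : 0 < ∏ x ∈ range (d + 1), (exp 1 * tval_a L⁻¹ x) := by
    rw [range_eq_Ico]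
    exact hP 0 _ (by omega)
  generalize ∏ x ∈ Ico 0 j, (exp 1 * tval_a L⁻¹ x) = P1 at *
  generalize ∏ x ∈ Ico j (j + d + 1), (exp 1 * tval_a L⁻¹ x) = P2 at *
  generalize ∏ x ∈ Ico (j + d + 1) b, (exp 1 * tval_a L⁻¹ x) = P3 at *
  generalize ∏ x ∈ range (d + 1), (exp 1 * tval_a L⁻¹ x) = P0 at *
  generalize (∑ x ∈ range (d + 1), (tval_a L⁻¹ (j + x) - tval_a L⁻¹ x)) /
    rate L⁻¹ 0 b (b - (j + d + 1) - 1) = r at *
  generalize Sq L⁻¹ j (j + d + 1) = S at *
  generalize Ai L⁻¹ 0 j = A1 at *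
  generalize Ai L⁻¹ j (j + d + 1) = A2 at *
  generalize Ai L⁻¹ (j + d + 1) b = A3 at *
  have hE := mul_le_mul_of_nonneg_left hl (exp_pos 2).le
  calc _ ≤ P1 * exp (exp 2 - A1 + L ^ (η / 2)) * L * (L * P0) *
        (P3 * exp (r - A3 + L ^ (η / 2))) := by
        refine mul_le_mul (mul_le_mul (mul_le_mul v1 v2.2 v2.1 (by positivity)) v3 n3
          (by positivity)) v4 n4 (by positivity)
    _ = P0 * exp r * (P1 * P3 * exp (exp 2 - A1 - A3 + 2 * L ^ (η / 2) + 2 * log L)) := by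
        rw [show exp 2 - A1 - A3 + 2 * L ^ (η / 2) + 2 * log L = (exp 2 - A1 + L ^ (η / 2)) +
          (-A3 + L ^ (η / 2)) + log L + log L by ring,
          show r - A3 + L ^ (η / 2) = r + (-A3 + L ^ (η / 2)) by ring]
        simp only [exp_add, exp_log hL0]
        ring
    _ ≤ P2 * exp (-(S / 9 / 2)) *
        (P1 * P3 * exp (exp 2 - A1 - A3 + 2 * L ^ (η / 2) + 2 * log L)) := by gcongr
    _ = P1 * P2 * P3 * exp (-(A1 + A2 + A3)) *
        exp (-(S / 9 / 2) + A2 + exp 2 + 2 * L ^ (η / 2) + 2 * log L) := by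
        rw [mul_assoc (P1 * P2 * P3), ← exp_add, show -(A1 + A2 + A3) +
          (-(S / 9 / 2) + A2 + exp 2 + 2 * L ^ (η / 2) + 2 * log L) =
          -(S / 9 / 2) + (exp 2 - A1 - A3 + 2 * L ^ (η / 2) + 2 * log L) by ring,
          exp_add (-(S / 9 / 2))]
        ring
    _ ≤ exp (-hL L - kappa * L ^ (1 / 3 : ℝ) + C1 * log L) *
        exp (-(S / 9 / 2) + A2 + exp 2 + 2 * L ^ (η / 2) + 2 * log L) := by gcongr
    _ ≤ _ := by
        clear * - L C1 S A2 η C2 h4 m3 m2 hE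
        rw [← exp_add]
        apply exp_le_exp.2
        linarith only [h4, m3, m2, hE]

theorem tval_tgain {t : ℝ} {x : ℕ} {w : ℝ} (ht : 0 < t) (ht1 : t < 1) (hx : (x : ℝ) + 1 < xc t)
    (hw : 0 ≤ w) (h : w + t ≤ tau t x) : t / (1 - t) ≤ (1 - w) * tval_a t x := by
  have h2 := (tval_bounds ht hx).1
  obtain ⟨q1, q2, -⟩ := tau_spec (x := (x : ℝ)) ht (by linarith only [ht, ht1, hx])
  generalize tau t (x : ℝ) = q at *
  refine le_trans ?_ (mul_le_mul_of_nonneg_left h2 (by linarith))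
  rw [← mul_div_assoc, div_le_div_iff₀ (by linarith) (by linarith)]
  have h6 : 1 - q ≤ (1 - w) * (1 - t) := by linarith only [h, ht, hw, mul_nonneg_of_nonpos_of_nonpos (le_of_lt (Mathlib.Tactic.Linarith.sub_neg_of_lt ht)) (Mathlib.Tactic.Linarith.sub_nonpos_of_le hw)]
  linarith only [ht, h6, mul_nonneg_of_nonpos_of_nonpos (le_of_lt (Mathlib.Tactic.Linarith.sub_neg_of_lt ht)) (Mathlib.Tactic.Linarith.sub_nonpos_of_le h6)]

theorem tval_lam0 {t : ℝ} (ht : 0 < t) (ht1 : t < 1) (h : 0 < xc t) : t / (1 - t) ≤ Lam t 0 := by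
  obtain ⟨q1, -, q3⟩ := tau_spec ht h
  rw [Lam, mul_zero, zero_add, div_le_iff₀ (by linarith)]
  generalize tau t 0 = q at *
  have h1 : q = t * exp q := by
    have e : log q = log t + q := by linarith only [q3]
    calc q = exp (log q) := (exp_log q1).symm
      _ = _ := by rw [e, exp_add, exp_log ht]
  have h2 := mul_le_mul_of_nonneg_left (add_one_le_exp q) ht.le
  linarith

theorem tval_Sq0 {L : ℝ} {m : ℕ} (hL1 : 1 ≤ L) (hm : (m : ℝ) < xc L⁻¹) :
    Sq L⁻¹ 0 m ≤ Sq L⁻¹ ⌈L⌉₊ m + 2 * exp 2 := by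
  have hL0 : 0 < L := by linarith only [hL1]
  have h1 : ∀ k, k ≤ m → k ≤ ⌈L⌉₊ → Sq L⁻¹ 0 k ≤ 2 * exp 2 := fun k hk hk' => by
    have h2 : ∀ x ∈ Ico 0 k, tau L⁻¹ x ^ 2 ≤ exp 2 / L := fun x hx => by
      have hx1 := (mem_Ico.1 hx).2
      have hx2 : (x : ℝ) < L := Nat.lt_ceil.1 (by omega)
      have hx3 : (x : ℝ) ≤ m := by exact_mod_cast (by omega : x ≤ m)
      obtain ⟨q1, q2, -⟩ := tau_spec (x := (x : ℝ)) (inv_pos.2 hL0) (by linarith only [hm, hx3])
      have h3 := asum_start (x := (x : ℝ)) hL0 (by linarith only [hm, hx3]) hx2.le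
      rw [le_div_iff₀ hL0]
      have h4 : tau L⁻¹ x ^ 2 ≤ tau L⁻¹ x := by clear * - L x q1 q2; linarith only [q1, q2, mul_pos_of_neg_of_neg (Mathlib.Tactic.Linarith.sub_neg_of_lt q1) (Mathlib.Tactic.Linarith.sub_neg_of_lt q2)]
      clear * - L x h3 h4 hL1
      linarith only [h3, h4, hL1, mul_nonneg_of_nonpos_of_nonpos (Mathlib.Tactic.Linarith.sub_nonpos_of_le hL1) (Mathlib.Tactic.Linarith.sub_nonpos_of_le h4)]
    have h5 := sum_le_card_nsmul _ _ _ h2
    rw [Nat.card_Ico, Nat.sub_zero, nsmul_eq_mul] at h5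
    refine h5.trans ?_
    have h6 : (k : ℝ) ≤ ⌈L⌉₊ := by exact_mod_cast hk'
    have h7 := Nat.ceil_lt_add_one hL0.le
    rw [← mul_div_assoc, div_le_iff₀ hL0]
    have := exp_pos 2
    linarith only [hL1, this, h6, h7, mul_nonneg_of_nonpos_of_nonpos (Mathlib.Tactic.Linarith.sub_nonpos_of_le hL1) (le_of_lt (Mathlib.Tactic.Linarith.sub_neg_of_lt this)), mul_nonneg_of_nonpos_of_nonpos (Mathlib.Tactic.Linarith.sub_nonpos_of_le h6) (le_of_lt (Mathlib.Tactic.Linarith.sub_neg_of_lt this)), mul_pos_of_neg_of_neg (Mathlib.Tactic.Linarith.sub_neg_of_lt h7) (Mathlib.Tactic.Linarith.sub_neg_of_lt this)]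
  rcases le_total m ⌈L⌉₊ with h | h
  · linarith only [h1, h, h1 m le_rfl h, tval_Sq L⁻¹ ⌈L⌉₊ m]
  · have h2 := h1 _ h le_rfl
    have h3 : Sq L⁻¹ 0 m = Sq L⁻¹ 0 ⌈L⌉₊ + Sq L⁻¹ ⌈L⌉₊ m := by
      rw [Sq, Sq, Sq, sum_Ico_consecutive _ (Nat.zero_le _) h]
    linarith only [h2, h3]

theorem tv_le {η : ℝ} (hη : 0 < η) : ∀ᶠ L : ℝ in atTop, ∀ b m : ℕ, (b : ℝ) + 1 = xc L⁻¹ →
    m ≤ b → TV L b m ≤
      exp (-hL L - kappa * L ^ (1 / 3 : ℝ) + L ^ η - Sq L⁻¹ ⌈L⌉₊ m / 64) := by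
  obtain ⟨C1, h1⟩ := tval_main
  obtain ⟨C2, h2⟩ := cost_le
  filter_upwards [h1, h2, vol_win (half_pos hη), tval_ev hη (C1 + C2 + 1 + 2 * exp 2),
    eventually_ge_atTop (exp 1)] with L h1 h2 h3 h4 hLe b m hb hm
  have hl := ab0_log hLe
  have hL2 : 2 ≤ L := le_trans (by linarith only [add_one_le_exp (1 : ℝ)]) hLe
  have hL0 : 0 < L := by linarith only [hL2]
  have ht : 0 < L⁻¹ := inv_pos.2 hL0
  have ht1 : L⁻¹ < 1 := inv_lt_one_of_one_lt₀ (by linarith only [hL2])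
  have hm' : (m : ℝ) ≤ b := by exact_mod_cast hm
  have hb0 : (0 : ℝ) ≤ b := Nat.cast_nonneg b
  have hz : (L - 1)⁻¹ = L⁻¹ / (1 - L⁻¹) := by
    have : L - 1 ≠ 0 := by linarith only [hL2, ht, ht1]
    field_simp
  have hz0 : 0 < (L - 1)⁻¹ := inv_pos.2 (by linarith only [hL2, ht, ht1])
  have hpos : ∀ x, x < b → 0 < tval_a L⁻¹ x := fun x hx => by
    have : (x : ℝ) + 1 ≤ b := by exact_mod_cast hx
    exact ht.trans_le (tval_ge ht (by linarith only [hb, ht, ht1, this]))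
  have hP : ∀ i k, k ≤ b → 0 < ∏ x ∈ Ico i k, (exp 1 * tval_a L⁻¹ x) := fun i k hk =>
    prod_pos fun x hx => mul_pos (exp_pos 1) (hpos x (by have := (mem_Ico.1 hx).2; omega))
  have hr : ∀ n, 0 < rate L⁻¹ 0 b n := crate_pos ht (by linarith only [hb, ht, ht1])
  have hg : ∀ x ∈ range m, 0 ≤ (if ⌈L⌉₊ ≤ x then tau L⁻¹ x / 2 else 0) ∧
      (L - 1)⁻¹ ≤ (1 - if ⌈L⌉₊ ≤ x then tau L⁻¹ x / 2 else 0) * tval_a L⁻¹ x := fun x hx => by
    clear * - x m hx L ht b hb ht1 hm' hz hL2 hL0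
    have hx' : (x : ℝ) + 1 ≤ m := by exact_mod_cast mem_range.1 hx
    have hx0 : (0 : ℝ) ≤ x := Nat.cast_nonneg x
    have h5 := alow_tau0 ht hx0 (by linarith only [hb, ht, ht1, hm', hx'])
    have h6 : 0 ≤ (if ⌈L⌉₊ ≤ x then tau L⁻¹ x / 2 else 0) := by
      split_ifs <;> linarith only [ht, h5]
    refine ⟨h6, ?_⟩
    rw [hz]
    refine tval_tgain ht ht1 (by linarith only [hb, ht, ht1, hm', hx']) h6 ?_
    split_ifs with h7
    · have h8 : L ≤ x := Nat.ceil_le.1 h7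
      have h9 := (tau_growth (x := 0) (y := (x : ℝ)) ht hx0 (by linarith only [hb, ht, ht1, hm', hx'])).1
      have h10 := alow_tau0 ht le_rfl (by linarith only [hb, hL2, ht, ht1, hm', hx', h8])
      have h11 := add_one_le_exp (L⁻¹ * ((x : ℝ) - 0))
      have h12 : 1 ≤ L⁻¹ * ((x : ℝ) - 0) := by
        rw [sub_zero, inv_mul_eq_div, le_div_iff₀ hL0]
        linarith only [h8]
      have h13 : L⁻¹ * 2 ≤ tau L⁻¹ 0 * exp (L⁻¹ * ((x : ℝ) - 0)) :=
        mul_le_mul h10 (by linarith only [h11, h12]) (by norm_num) (by linarith only [ht, h10])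
      linarith only [h9, h13]
    · linarith only [h5]
  have a1 : 0 ≤ Lam L⁻¹ 0 - (L - 1)⁻¹ := by
    rw [hz, sub_nonneg]
    exact tval_lam0 ht ht1 (by linarith only [hb, ht, ht1])
  have a4 : 0 ≤ ∑ x ∈ range m, (tval_a L⁻¹ x - (L - 1)⁻¹) :=
    sum_nonneg fun x hx => by
      clear * - L x hg hx hpos m b hm ht ht1
      have h5 := hg x hx
      have h6 := hpos x (by have := mem_range.1 hx; omega)
      (refine le_of_not_gt fun h_nl => ?_; linarith only [h_nl, h5, ht, ht1, h6, h5.1, h5.2, mul_pos_of_neg_of_neg (Mathlib.Tactic.Linarith.sub_neg_of_lt ht) (Mathlib.Tactic.Linarith.sub_neg_of_lt h_nl), mul_pos_of_neg_of_neg (Mathlib.Tactic.Linarith.sub_neg_of_lt ht1) (Mathlib.Tactic.Linarith.sub_neg_of_lt h_nl), mul_nonneg_of_nonpos_of_nonpos (Mathlib.Tactic.Linarith.sub_nonpos_of_le h5.left) (le_of_lt (Mathlib.Tactic.Linarith.sub_neg_of_lt h6))])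
  have e4 : aM L m = Lam L⁻¹ 0 - (L - 1)⁻¹ + ∑ x ∈ range m, (tval_a L⁻¹ x - (L - 1)⁻¹) := by
    have h5 := tval_sum L⁻¹ 0 m
    simp only [zero_add, Nat.cast_zero] at h5
    rw [sum_sub_distrib, h5, sum_const, card_range, nsmul_eq_mul, aM]
    ring
  have a0 : 0 ≤ aM L m := by
    rw [e4]
    exact add_nonneg a1 a4
  have v4 := h3 _ m b a0 hm hb.le
  rw [tval_F] at v4
  have a2 : aM L m / rate L⁻¹ 0 b (b - m - 1) ≤ exp 2 +
      (∑ x ∈ range m, (tval_a L⁻¹ x - (L - 1)⁻¹)) / rate L⁻¹ 0 b (b - m - 1) := by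
    clear * - L m b e4 ht hb ht1 hz0 hr
    rw [e4, add_div]
    have h5 := (tval_a0 (b := b) ht (by linarith only [hb, ht, ht1]) (b - m - 1)).2
    have h6 : (Lam L⁻¹ 0 - (L - 1)⁻¹) / rate L⁻¹ 0 b (b - m - 1) ≤
        Lam L⁻¹ 0 / rate L⁻¹ 0 b (b - m - 1) :=
      div_le_div_of_nonneg_right (by linarith only [hz0]) (hr _).le
    linarith only [h5, h6]
  have v5 := tval_prod (range m) (a := fun _ => (L - 1)⁻¹) (c := fun x => tval_a L⁻¹ x)
    (w := fun x => if ⌈L⌉₊ ≤ x then tau L⁻¹ x / 2 else 0) (R := rate L⁻¹ 0 b (b - m - 1))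
    (fun _ _ => hz0)
    (fun x hx => by
      have := mem_range.1 hx
      exact ⟨hpos _ (by omega), tval_le_rate ht (by linarith only [hb, ht, ht1]) this hm⟩) hg
  have e6 : ∑ x ∈ range m, (if ⌈L⌉₊ ≤ x then tau L⁻¹ x / 2 else 0) ^ 2 =
      Sq L⁻¹ ⌈L⌉₊ m / 4 := by
    have e : Ico ⌈L⌉₊ m = (range m).filter fun x => ⌈L⌉₊ ≤ x := by
      ext x
      simp only [mem_Ico, mem_filter, mem_range, and_comm]
    rw [Sq, e, sum_filter, sum_div]
    refine sum_congr rfl fun x _ => ?_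
    split_ifs <;> ring
  rw [e6, prod_const, card_range, range_eq_Ico, ← range_eq_Ico m] at v5
  have v3 : (L - 1)⁻¹ ^ m * cT m ≤ exp 1 * (exp 1 * (L - 1)⁻¹) ^ m := by
    clear * - m L hz0
    have h5 : ((m : ℝ) + 1) ^ (-(3 / 2) : ℝ) ≤ 1 :=
      rpow_le_one_of_one_le_of_nonpos (by linarith [Nat.cast_nonneg (α := ℝ) m]) (by norm_num)
    have h6 : cT m ≤ exp (m + 1) :=
      (cT_le m).2.trans (mul_le_of_le_one_right (exp_pos _).le h5)
    calc _ ≤ (L - 1)⁻¹ ^ m * exp (m + 1) := by gcongr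
      _ = _ := by
        rw [mul_pow, exp_add, ← exp_nat_mul, mul_one]
        ring
  have e7 : ∏ x ∈ Ico 0 b, (exp 1 * tval_a L⁻¹ x) = (∏ x ∈ range m, (exp 1 * tval_a L⁻¹ x)) *
      ∏ x ∈ Ico m b, (exp 1 * tval_a L⁻¹ x) := by
    rw [range_eq_Ico, prod_Ico_consecutive _ (Nat.zero_le m) hm]
  have m1 := h1 b hb
  have m2 := h2 0 m (by clear * - m L b hb hm' h2; linarith only [hb, hm'])
  have m3 := tval_Sq L⁻¹ ⌈L⌉₊ m
  have m4 := tval_Sq0 (L := L) (m := m) (by clear * - L hL2 ht ht1 m; linarith) (by clear * - m L b hb ht ht1 hm'; linarith only [hb, ht, ht1, hm'])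
  rw [e7, tval_Ai L⁻¹ (Nat.zero_le m) hm] at m1
  have n4 := tval_vol_nonneg a0 (fun n => (hr n).le) (b - m)
  rw [TV]
  have q3 := hP m b le_rfl
  have q0 : 0 < (exp 1 * (L - 1)⁻¹) ^ m := by positivity
  generalize ∏ x ∈ range m, (exp 1 * tval_a L⁻¹ x) = P2 at *
  generalize ∏ x ∈ Ico m b, (exp 1 * tval_a L⁻¹ x) = P3 at *
  generalize (exp 1 * (L - 1)⁻¹) ^ m = P0 at *
  generalize (∑ x ∈ range m, (tval_a L⁻¹ x - (L - 1)⁻¹)) / rate L⁻¹ 0 b (b - m - 1) = r at *
  generalize Sq L⁻¹ ⌈L⌉₊ m = S at *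
  generalize Ai L⁻¹ 0 m = A2 at *
  generalize Ai L⁻¹ m b = A3 at *
  have hE := mul_le_mul_of_nonneg_left hl (exp_pos 2).le
  have hE0 := exp_pos 2
  calc _ ≤ exp 1 * P0 * (P3 * exp (exp 2 + r - A3 + L ^ (η / 2))) := by
        clear * - L m P0 b P3 r A3 η v3 v4 a2 q3 n4 q0
        refine mul_le_mul v3 (v4.trans ?_) n4 (by positivity)
        gcongr
    _ = P0 * exp r * (P3 * exp (1 + exp 2 - A3 + L ^ (η / 2))) := by
        rw [show exp 2 + r - A3 + L ^ (η / 2) = r + (exp 2 - A3 + L ^ (η / 2)) by ring,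
          show 1 + exp 2 - A3 + L ^ (η / 2) = 1 + (exp 2 - A3 + L ^ (η / 2)) by ring,
          exp_add r, exp_add 1]
        ring
    _ ≤ P2 * exp (-(S / 4 / 2)) * (P3 * exp (1 + exp 2 - A3 + L ^ (η / 2))) := by gcongr
    _ = P2 * P3 * exp (-(A2 + A3)) * exp (-(S / 4 / 2) + A2 + 1 + exp 2 + L ^ (η / 2)) := by
        rw [mul_assoc (P2 * P3), ← exp_add, show -(A2 + A3) +
          (-(S / 4 / 2) + A2 + 1 + exp 2 + L ^ (η / 2)) =
          -(S / 4 / 2) + (1 + exp 2 - A3 + L ^ (η / 2)) by ring, exp_add (-(S / 4 / 2))]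
        ring
    _ ≤ exp (-hL L - kappa * L ^ (1 / 3 : ℝ) + C1 * log L) *
        exp (-(S / 4 / 2) + A2 + 1 + exp 2 + L ^ (η / 2)) := by gcongr
    _ ≤ _ := by
        clear * - L C1 S A2 η hL0 C2 m h4 hl m3 m4 m2 hE hE0
        rw [← exp_add]
        apply exp_le_exp.2
        have := rpow_nonneg hL0.le (η / 2)
        linarith only [h4, hl, m3, m4, m2, hE, hE0, this]

end Pool.Agent.Work.MP_5391ad_co
end
end
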