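import Pool.Agent.Work.MP_5391ad_co.MGr
import Pool.Agent.Work.MP_5391ad_co.TVal
import Pool.Agent.Work.MP_5391ad_co.CLap
import Pool.Agent.Work.MP_5391ad_co.Master

/-! Events of very small probability. `ℓ = ell N`.
`lam_cmp`: `N = ℓ (log^2 ℓ - π^2/6)`, `log N = log ℓ + O(log log ℓ)`, `rpow_le_ell`.
`rows_out`: `card_rows`, `outside`, `(N+1) exp (-ℓ^(1/6)) ≤ exp (-N^(1/7))`.
`pick_L`: `exists_xc` with `L0 = e` and the first claim of `prof_taylor`; `prof_le`, `prof_eq`.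
`held_le`: split by `b = |RN|`; outside the window `rows_out`; inside take `L` from `pick_L` with
`x = b + 1`, use `domR_eq_zero` (`domR ≥ N^a > 0`), `held_count` with
`E j d = (N^a ≤ d ∧ δ lam ≤ j ∧ θ lam ≤ j + d)`, `hv_le`, and `sq_ge` with `k = min (d+1) ⌊L⌋`:
`Sq ≥ k L⁻² exp (2 (θ - ε) log L - 2)`, `k ≥ L^(a - ε)`.
`tree_big`: `tree_count`, `ev_TV`, `Ev.sum_le`, `tv_le`, `sq_ge` with `i = ⌈L⌉`, `k = ⌊L⌋`.
`snk_le`: `sum_gam`, `3^o ≤ gam o`, `1 ≤ gam o`. -/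

namespace Pool.Agent.Work.MP_5391ad_co

open Finset Real Filter PowerSeries
open scoped Classical

theorem tfin_pow {p q : ℝ} (h : p < q) (K : ℝ) :
    ∀ᶠ N : ℕ in atTop, K * (N : ℝ) ^ p ≤ (N : ℝ) ^ q := by
  have h1 := ((tendsto_rpow_atTop (sub_pos.2 h)).comp tendsto_natCast_atTop_atTop).eventually_ge_atTop K
  filter_upwards [h1, eventually_gt_atTop 0] with N h1 h2
  have h3 : (0 : ℝ) < N := Nat.cast_pos.2 h2
  have e : (N : ℝ) ^ q = (N : ℝ) ^ (q - p) * (N : ℝ) ^ p := by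
    rw [← rpow_add h3, sub_add_cancel]
  rw [e]
  exact mul_le_mul_of_nonneg_right h1 (rpow_nonneg h3.le _)

theorem tfin_const {q : ℝ} (h : 0 < q) (K : ℝ) : ∀ᶠ N : ℕ in atTop, K ≤ (N : ℝ) ^ q := by
  simpa using tfin_pow h K

theorem tfin_succ {q : ℝ} (h : 0 < q) : ∀ᶠ N : ℕ in atTop, (N : ℝ) + 1 ≤ exp ((N : ℝ) ^ q) := by
  filter_upwards [tfin_pow (half_lt_self h) (4 / q), eventually_ge_atTop 2] with N h1 h2
  have h3 : (2 : ℝ) ≤ N := by exact_mod_cast h2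
  have h4 := log_le_rpow_div (x := (N : ℝ)) (by linarith only [h3]) (half_pos h)
  have h5 : 2 * log N ≤ (N : ℝ) ^ q := by
    refine le_trans ?_ h1
    have : 4 / q * (N : ℝ) ^ (q / 2) = 2 * ((N : ℝ) ^ (q / 2) / (q / 2)) := by
      field_simp
      ring
    linarith only [h4, this]
  refine le_trans ?_ (exp_le_exp.2 h5)
  rw [two_mul, exp_add, exp_log (by linarith only [h3])]
  linarith only [h3, mul_nonneg_of_nonpos_of_nonpos (Mathlib.Tactic.Linarith.sub_nonpos_of_le (Mathlib.Tactic.Linarith.natCast_nonneg ℝ N)) (Mathlib.Tactic.Linarith.sub_nonpos_of_le h3)]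

theorem tfin_30 : ∀ᶠ N : ℕ in atTop, (30 : ℝ) ≤ N :=
  tendsto_natCast_atTop_atTop.eventually_ge_atTop 30

theorem tfin_ell : Tendsto (fun N : ℕ => ell N) atTop atTop :=
  tendsto_ell.comp tendsto_natCast_atTop_atTop

theorem tfin_small {ε : ℝ} (hε : 0 < ε) :
    ∀ᶠ N : ℕ in atTop, ell N ^ (3 / 5 : ℝ) ≤ ε * ell N := by
  have h1 := ((tendsto_rpow_atTop (show (0 : ℝ) < 2 / 5 by norm_num)).comp
    tfin_ell).eventually_ge_atTop ε⁻¹
  filter_upwards [h1] with N h1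
  have h0 : 0 < ell N := (exp_pos 2).trans_le (le_ell _)
  have e : ell N = ell N ^ (2 / 5 : ℝ) * ell N ^ (3 / 5 : ℝ) := by
    rw [← rpow_add h0]
    norm_num
  have h2 := mul_le_mul_of_nonneg_right h1 (rpow_nonneg h0.le (3 / 5 : ℝ))
  rw [Function.comp_apply, ← e, inv_mul_le_iff₀ hε] at h2
  exact h2

theorem tfin_mem {β : Type*} {s : Finset β} {p : β → Prop} {inst : DecidablePred p} {a : β} :
    a ∈ @Finset.filter β p inst s ↔ a ∈ s ∧ p a := mem_filter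

theorem tfin_zero {β : Type*} {S : Finset β} {B : ℝ} (h : ∀ x ∈ S, False) (hB : 0 ≤ B) :
    (S.card : ℝ) ≤ B := by
  rwa [eq_empty_of_forall_notMem h, card_empty, Nat.cast_zero]

theorem tfin_RN {β : Type*} (W : Finset β) (Δ : β → β → Prop) :
    (RN W Δ).card ≤ W.card ∧ (rootT W Δ).card ≤ (RN W Δ).card :=
  ⟨card_le_card fun _ h => (tfin_mem.1 h).1, card_le_card fun _ h => (tfin_mem.1 h).1⟩

theorem tfin_fib {β ι : Type*} [DecidableEq ι] (S : Finset β) (T : Finset ι) (f : β → ι) {B : ℝ}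
    (hf : ∀ x ∈ S, f x ∈ T) (h : ∀ i ∈ T, ((S.filter fun x => f x = i).card : ℝ) ≤ B) :
    (S.card : ℝ) ≤ T.card * B := by
  rw [card_eq_sum_card_fiberwise hf, Nat.cast_sum]
  simpa using sum_le_card_nsmul T _ B h

theorem lam_cmp {δ : ℝ} (hδ : 0 < δ) : ∀ᶠ N : ℕ in atTop, ∀ L : ℝ,
    |L - ell N| ≤ ell N ^ (3 / 5 : ℝ) → (1 - δ) * (L * log L) ≤ lam N ∧
      lam N ≤ (1 + δ) * (L * log L) ∧ (N : ℝ) ^ (1 - δ) ≤ L ∧ L ≤ N := by
  obtain ⟨ε, e0, e1, e2⟩ : ∃ ε : ℝ, 0 < ε ∧ ε ≤ 1 / 8 ∧ ε ≤ δ / 8 :=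
    ⟨min (1 / 8) (δ / 8), by positivity, min_le_left _ _, min_le_right _ _⟩
  filter_upwards [tfin_30, tfin_small e0,
    tendsto_natCast_atTop_atTop.eventually (rpow_le_ell e0),
    (tendsto_log_atTop.comp tfin_ell).eventually_ge_atTop ε⁻¹,
    tfin_pow (show 1 - δ < 1 - ε by linarith only [e0, e2]) 2] with N h30 hs hr hl h2 L hw
  have hN := ell_spec h30
  have h3 := aell_two (le_ell (N : ℝ))
  have h4 := aell_log (le_ell (N : ℝ))
  have h5 := ell_le h30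
  have h0 : 0 < ell N := (exp_pos 2).trans_le (le_ell _)
  have hp := aell_pi
  rw [Function.comp_apply, inv_le_iff_one_le_mul₀ e0] at hl
  unfold lam
  generalize ell N = y at *
  obtain ⟨a1, a2⟩ := abs_le.1 (hw.trans hs)
  have b1 : y / 2 ≤ L := by clear * - y L ε h0 a1 e1; linarith only [h0, a1, e1, mul_nonneg_of_nonpos_of_nonpos (Mathlib.Tactic.Linarith.sub_nonpos_of_le e1) (le_of_lt (Mathlib.Tactic.Linarith.sub_neg_of_lt h0))]
  have b2 : L ≤ 2 * y := by clear * - L y ε h0 a2 e1; linarith only [h0, a2, e1, mul_nonneg_of_nonpos_of_nonpos (Mathlib.Tactic.Linarith.sub_nonpos_of_le e1) (le_of_lt (Mathlib.Tactic.Linarith.sub_neg_of_lt h0))]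
  have L0 : 0 < L := by linarith only [h0, b1]
  have c0 : log 2 ≤ 1 := by clear * - ε e0 e1; linarith only [e0, e1, log_two_lt_d9]
  have c1 : log y - 1 ≤ log L := by
    clear * - y L h0 b1 c0
    have := log_le_log (by positivity) b1
    rw [log_div h0.ne' two_ne_zero] at this
    linarith
  have c2 : log L ≤ log y + 1 := by
    clear * - L y L0 b2 c0 h0
    have := log_le_log L0 b2
    rw [log_mul two_ne_zero h0.ne'] at this
    linarith
  have d1 : log y ≤ log N := log_le_log h0 h5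
  have d2 : (1 - ε) * log N ≤ log y := by
    clear * - ε N y e0 e1 h30 hr
    rw [← log_rpow (by linarith only [e0, e1, h30])]
    exact log_le_log (by positivity) hr
  generalize log y = l at *
  have d0 : 0 < log (N : ℝ) := by clear * - N ε l e0 e1 h4 d1; linarith only [e0, e1, h4, d1]
  have yl : 0 < y * l := by positivity
  have f1 : L * log L ≤ (1 + ε) ^ 2 * (y * l) := by
    clear * - L ε y l a2 hl c2 e0 e1 h4 c1 h0
    have := mul_le_mul (show L ≤ (1 + ε) * y by linarith) (show log L ≤ (1 + ε) * l by linarith)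
      (by linarith only [e0, e1, h4, c1]) (by positivity)
    linarith
  have f2 : (1 - ε) ^ 2 * (y * l) ≤ L * log L := by
    clear * - ε y l L a1 hl c1 e0 e1 h4 L0
    have := mul_le_mul (show (1 - ε) * y ≤ L by linarith) (show (1 - ε) * l ≤ log L by linarith)
      (mul_nonneg (by linarith only [e0, e1]) (by linarith only [e0, e1, h4])) L0.le
    linarith only [this]
  have g1 : (1 - ε) ^ 2 * (y * l) ≤ N / log N := by
    clear * - ε y l N d0 d2 e0 e1 yl hp hl h0 hN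
    rw [le_div_iff₀ d0]
    have u1 : (1 - ε) * (y * l) * ((1 - ε) * log N) ≤ (1 - ε) * (y * l) * l :=
      mul_le_mul_of_nonneg_left d2 (mul_nonneg (by linarith only [e0, e1]) yl.le)
    have u2 : (1 - ε) * l ^ 2 ≤ l ^ 2 - π ^ 2 / 6 := by (refine le_of_not_gt fun h_nl => ?_; linarith only [h_nl, e1, hp, hl, e0, mul_nonneg_of_nonpos_of_nonpos (Mathlib.Tactic.Linarith.sub_nonpos_of_le (sq_nonneg ((1 : ℝ) * π))) (Mathlib.Tactic.Linarith.sub_nonpos_of_le e1), mul_pos_of_neg_of_neg (Mathlib.Tactic.Linarith.sub_neg_of_lt e0) (Mathlib.Tactic.Linarith.sub_neg_of_lt e0), mul_nonneg_of_nonpos_of_nonpos (le_of_lt (Mathlib.Tactic.Linarith.sub_neg_of_lt e0)) (Mathlib.Tactic.Linarith.sub_nonpos_of_le e1), mul_pos_of_neg_of_neg (Mathlib.Tactic.Linarith.sub_neg_of_lt e0) (Mathlib.Tactic.Linarith.sub_neg_of_lt h_nl), mul_nonneg_of_nonpos_of_nonpos (Mathlib.Tactic.Linarith.sub_nonpos_of_le hl) (Mathlib.Tactic.Linarith.sub_nonpos_of_le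 hl)])
    have u3 := mul_le_mul_of_nonneg_left u2 h0.le
    linarith only [hN, u1, u3]
  have g2 : N / log N ≤ y * l := by
    clear * - N y l d0 d1 yl hN h0
    rw [div_le_iff₀ d0]
    have u1 := mul_le_mul_of_nonneg_left d1 yl.le
    linarith only [hN, u1, h0, mul_nonneg_of_nonpos_of_nonpos (Mathlib.Tactic.Linarith.sub_nonpos_of_le (sq_nonneg ((1 : ℝ) * π))) (le_of_lt (Mathlib.Tactic.Linarith.sub_neg_of_lt h0))]
  refine ⟨?_, ?_, by clear * - N δ L ε y h2 hr b1; linarith only [h2, hr, b1], by clear * - L N ε y l e1 h30 a2 hN h5 h3 e0 hp a1; (refine le_of_not_gt fun h_nl => ?_; linarith only [h_nl, e1, h30, h5, a2, hN, h3, e0, hp, a1, mul_nonneg_of_nonpos_of_nonpos (Mathlib.Tactic.Linarith.sub_nonpos_of_le (sq_nonneg ((1 : ℝ) * l))) (Mathlib.Tactic.Linarith.sub_nonpos_of_le a2), mul_nonneg_of_nonpos_of_nonpos (Mathlib.Tactic.Linarith.sub_nonpos_of_le (sq_nonneg ((1 : ℝ) * l))) (le_of_lt (Mathlib.Tactic.Linarith.sub_neg_of_lt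 h_nl)), mul_nonneg_of_nonpos_of_nonpos (Mathlib.Tactic.Linarith.sub_nonpos_of_le (sq_nonneg ((1 : ℝ) * π))) (le_of_lt (Mathlib.Tactic.Linarith.sub_neg_of_lt h_nl)), mul_nonneg_of_nonpos_of_nonpos (Mathlib.Tactic.Linarith.sub_nonpos_of_le (Mathlib.Tactic.Linarith.natCast_nonneg ℝ N)) (Mathlib.Tactic.Linarith.sub_nonpos_of_le e1), mul_nonneg_of_nonpos_of_nonpos (Mathlib.Tactic.Linarith.sub_nonpos_of_le (Mathlib.Tactic.Linarith.natCast_nonneg ℝ N)) (Mathlib.Tactic.Linarith.sub_nonpos_of_le h3), mul_pos_of_neg_of_neg (Mathlib.Tactic.Linarith.sub_neg_of_lt e0) (Mathlib.Tactic.Linarith.sub_neg_of_lt e0), mul_nonneg_of_nonpos_of_nonpos (le_of_lt (Mathlib.Tactic.Linarith.sub_neg_of_lt e0)) (Mathlib.Tactic.Linarith.sub_nonpos_of_le e1), mul_nonneg_of_nonpos_of_nonpos (le_of_lt (Mathlib.Tactic.Linarith.sub_neg_of_lt e0)) (Mathlib.Tactic.Linarith.sub_nonpos_of_le h5), Mathlib.Tactic.Linarith.mul_zero_eq (Mathlib.Tactic.Linarith.sub_neg_of_lt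 e0) (sub_eq_zero_of_eq hN), mul_nonneg_of_nonpos_of_nonpos (Mathlib.Tactic.Linarith.sub_nonpos_of_le hp.left) (Mathlib.Tactic.Linarith.sub_nonpos_of_le h5), mul_nonneg_of_nonpos_of_nonpos (Mathlib.Tactic.Linarith.sub_nonpos_of_le hp.right) (Mathlib.Tactic.Linarith.sub_nonpos_of_le a1)])⟩
  · rcases le_total δ 1 with h | h
    · have u1 := mul_le_mul_of_nonneg_left f1 (sub_nonneg.2 h)
      have u2 : (1 - δ) * (1 + ε) ^ 2 ≤ (1 - ε) ^ 2 := by clear * - δ ε y l L N h0 e0 e2 yl f1 f2 hl a1 a2 g1 h g2; (refine le_of_not_gt fun h_nl => ?_; linarith only [h_nl, h0, e0, e2, yl, f1, f2, hl, a1, a2, g1, h, g2, mul_pos_of_neg_of_neg (Mathlib.Tactic.Linarith.sub_neg_of_lt e0) (Mathlib.Tactic.Linarith.sub_neg_of_lt h0), mul_nonneg_of_nonpos_of_nonpos (Mathlib.Tactic.Linarith.sub_nonpos_of_le e2) (le_of_lt (Mathlib.Tactic.Linarith.sub_neg_of_lt yl)), mul_nonneg_of_nonpos_of_nonpos (Mathlib.Tactic.Linarith.sub_nonpos_of_le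 e2) (Mathlib.Tactic.Linarith.sub_nonpos_of_le f1), mul_nonneg_of_nonpos_of_nonpos (Mathlib.Tactic.Linarith.sub_nonpos_of_le e2) (Mathlib.Tactic.Linarith.sub_nonpos_of_le f2), mul_nonneg_of_nonpos_of_nonpos (le_of_lt (Mathlib.Tactic.Linarith.sub_neg_of_lt h0)) (Mathlib.Tactic.Linarith.sub_nonpos_of_le hl), mul_nonneg_of_nonpos_of_nonpos (Mathlib.Tactic.Linarith.sub_nonpos_of_le a1) (Mathlib.Tactic.Linarith.sub_nonpos_of_le hl), mul_nonneg_of_nonpos_of_nonpos (Mathlib.Tactic.Linarith.sub_nonpos_of_le a2) (Mathlib.Tactic.Linarith.sub_nonpos_of_le hl), mul_pos_of_neg_of_neg (Mathlib.Tactic.Linarith.sub_neg_of_lt yl) (Mathlib.Tactic.Linarith.sub_neg_of_lt h_nl), mul_nonneg_of_nonpos_of_nonpos (Mathlib.Tactic.Linarith.sub_nonpos_of_le g1) (Mathlib.Tactic.Linarith.sub_nonpos_of_le h), mul_nonneg_of_nonpos_of_nonpos (Mathlib.Tactic.Linarith.sub_nonpos_of_le g2) (Mathlib.Tactic.Linarith.sub_nonpos_of_le h)])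
      have u3 := mul_le_mul_of_nonneg_right u2 yl.le
      clear * - δ L N ε y l g1 u1 u3
      linarith only [g1, u1, u3]
    · have u1 : 0 ≤ (1 - ε) ^ 2 * (y * l) := by positivity
      clear * - δ L N ε y l f1 g1 f2 hδ u1 e0 e1 g2 e2
      (refine le_of_not_gt fun h_nl => ?_; linarith only [h_nl, f1, g1, f2, hδ, u1, e0, e1, g2, e2, mul_nonneg_of_nonpos_of_nonpos (Mathlib.Tactic.Linarith.sub_nonpos_of_le (sq_nonneg ((1 : ℝ) + ε))) (Mathlib.Tactic.Linarith.sub_nonpos_of_le f1), mul_nonneg_of_nonpos_of_nonpos (Mathlib.Tactic.Linarith.sub_nonpos_of_le (sq_nonneg ((1 : ℝ) + ε))) (Mathlib.Tactic.Linarith.sub_nonpos_of_le f2), mul_nonneg_of_nonpos_of_nonpos (le_of_lt (Mathlib.Tactic.Linarith.sub_neg_of_lt hδ)) (Mathlib.Tactic.Linarith.sub_nonpos_of_le f2), mul_nonneg_of_nonpos_of_nonpos (le_of_lt (Mathlib.Tactic.Linarith.sub_neg_of_lt hδ)) (Mathlib.Tactic.Linarith.sub_nonpos_of_le u1), mul_pos_of_neg_of_neg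 (Mathlib.Tactic.Linarith.sub_neg_of_lt e0) (Mathlib.Tactic.Linarith.sub_neg_of_lt h_nl), mul_nonneg_of_nonpos_of_nonpos (Mathlib.Tactic.Linarith.sub_nonpos_of_le e1) (Mathlib.Tactic.Linarith.sub_nonpos_of_le g1), mul_nonneg_of_nonpos_of_nonpos (Mathlib.Tactic.Linarith.sub_nonpos_of_le e1) (Mathlib.Tactic.Linarith.sub_nonpos_of_le g2), mul_nonneg_of_nonpos_of_nonpos (Mathlib.Tactic.Linarith.sub_nonpos_of_le e1) (le_of_lt (Mathlib.Tactic.Linarith.sub_neg_of_lt h_nl)), mul_nonneg_of_nonpos_of_nonpos (Mathlib.Tactic.Linarith.sub_nonpos_of_le e2) (Mathlib.Tactic.Linarith.sub_nonpos_of_le u1)])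
  · have u1 := mul_le_mul_of_nonneg_left f2 (show 0 ≤ 1 + δ by clear * - δ ε e0 e1 e2 f2 hδ yl; linarith only [e0, e1, e2])
    have u0 : ε * δ ≤ 1 / 8 * δ := mul_le_mul_of_nonneg_right e1 hδ.le
    have u2 : 1 ≤ (1 + δ) * (1 - ε) ^ 2 := by clear * - δ ε e0 e2 u0 hδ; linarith only [e0, e2, u0, hδ, mul_pos hδ (mul_pos e0 e0), mul_self_nonneg ε]
    have u3 := mul_le_mul_of_nonneg_right u2 yl.le
    clear * - N δ L y l ε g2 u1 u3
    linarith only [g2, u1, u3]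

theorem rows_out : ∀ᶠ N : ℕ in atTop, ∀ (α : Type) [Fintype α] (W : Finset α), W.card = N →
    (((dags W).filter fun Δ =>
      ell N ^ (3 / 5 : ℝ) - 3 ≤ |((RN W Δ).card : ℝ) - xc (ell N)⁻¹|).card : ℝ) ≤
      exp (-(N : ℝ) ^ (1 / 7 : ℝ)) * (N.factorial * exp (FF N)) := by
  filter_upwards [outside,
    tendsto_natCast_atTop_atTop.eventually (rpow_le_ell (show (0 : ℝ) < 1 / 10 by norm_num)),
    tfin_succ (show (0 : ℝ) < 1 / 7 by norm_num),
    tfin_pow (show (1 / 7 : ℝ) < 3 / 20 by norm_num) 2] with N h1 h2 h3 h4 α _ W hW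
  have h5 : (N : ℝ) ^ (3 / 20 : ℝ) ≤ ell N ^ (1 / 6 : ℝ) := by
    have := rpow_le_rpow (by positivity) h2 (show (0 : ℝ) ≤ 1 / 6 by norm_num)
    rw [← rpow_mul (Nat.cast_nonneg N)] at this
    norm_num at this ⊢
    exact this
  refine (tfin_fib _ (range (N + 1)) (fun Δ => (RN W Δ).card)
    (B := N.factorial * exp (FF N - ell N ^ (1 / 6 : ℝ))) (fun Δ _ => ?_) fun b hb => ?_).trans ?_
  · exact mem_range.2 (Nat.lt_succ_of_le (hW ▸ (tfin_RN W Δ).1))
  · have hb' := Nat.lt_succ_iff.1 (mem_range.1 hb)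
    by_cases hc : ell N ^ (3 / 5 : ℝ) - 3 ≤ |(b : ℝ) - xc (ell N)⁻¹|
    · have h6 := card_rows W (hW ▸ hb')
      rw [hW] at h6
      refine le_trans ?_ (h6.le.trans (mul_le_mul_of_nonneg_left (h1 b hb' hc) (by positivity)))
      refine Nat.cast_le.2 (card_le_card fun Δ hΔ => ?_)
      rw [mem_filter] at hΔ ⊢
      exact ⟨(mem_filter.1 hΔ.1).1, hΔ.2⟩
    · refine tfin_zero (fun Δ hΔ => ?_) (by positivity)
      obtain ⟨hΔ, e⟩ := mem_filter.1 hΔ
      exact hc (e ▸ (mem_filter.1 hΔ).2)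
  · rw [card_range, Nat.cast_succ, mul_left_comm, mul_left_comm (rexp _), ← exp_add]
    refine mul_le_mul_of_nonneg_left ?_ (by positivity)
    refine (mul_le_mul_of_nonneg_right h3 (exp_pos _).le).trans ?_
    rw [← exp_add]
    exact exp_le_exp.2 (by linarith only [h4, h5])

theorem pick_L : ∀ᶠ N : ℕ in atTop, ∀ x : ℝ, |x - xc (ell N)⁻¹| ≤ ell N ^ (3 / 5 : ℝ) →
    ∃ L : ℝ, xc L⁻¹ = x ∧ |L - ell N| ≤ ell N ^ (3 / 5 : ℝ) ∧
      (L - 1) ^ N * exp (-hL L - kappa * L ^ (1 / 3 : ℝ)) ≤ exp (FF N + kappa ^ 2) := by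
  filter_upwards [prof_taylor one_pos, tfin_30, tfin_small one_pos] with N h1 h2 h3 x hx
  have h0 : 0 < ell N := (exp_pos 2).trans_le (le_ell _)
  have h4 := aell_log (le_ell (N : ℝ))
  have e1 : 1 ≤ exp 1 := one_le_exp one_pos.le
  obtain ⟨L, hw, e⟩ := exists_xc (x := x) e1 (by
    have := (abs_le.1 hx).1
    rw [xc_inv h0] at this
    rw [xc_inv (exp_pos 1), log_exp]
    clear * - x N h3 this h0 h4
    linarith only [h3, this, h0, h4, mul_nonneg_of_nonpos_of_nonpos (le_of_lt (Mathlib.Tactic.Linarith.sub_neg_of_lt h0)) (Mathlib.Tactic.Linarith.sub_nonpos_of_le h4)])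
  have hL1 := e1.trans hw
  refine ⟨L, e, (h1 L hw (e ▸ hx)).1, le_trans ?_ (exp_le_exp.2 (prof_le h2 hL1).2)⟩
  rw [prof_eq, show N * log L - hL L - kappa * L ^ (1 / 3 : ℝ) =
    N * log L + (-hL L - kappa * L ^ (1 / 3 : ℝ)) by ring, exp_add, exp_nat_mul,
    exp_log (by linarith only [e1, hw])]
  exact mul_le_mul_of_nonneg_right (pow_le_pow_left₀ (by linarith only [e1, hw]) (by linarith only []) N) (exp_pos _).le

theorem tfin_win {c c' K : ℝ} (hc0 : 0 < c) (hc1 : c < 1 / 7) (hc : c < c') (hK : 0 < K) :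
    ∀ᶠ N : ℕ in atTop, ∀ (α : Type) [Fintype α] (W : Finset α), W.card = N →
    ∀ S ⊆ dags W, (∀ b ≤ N, ∀ L : ℝ, (b : ℝ) + 1 = xc L⁻¹ → |L - ell N| ≤ ell N ^ (3 / 5 : ℝ) →
      ((S.filter fun Δ => (RN W Δ).card = b).card : ℝ) ≤ N.factorial * (((N : ℝ) + 1) ^ 2 *
        (L - 1) ^ N * exp (-hL L - kappa * L ^ (1 / 3 : ℝ) + L ^ c - (N : ℝ) ^ c' / K))) →
    (S.card : ℝ) ≤ exp (-(N : ℝ) ^ c) * (N.factorial * exp (FF N)) := by
  filter_upwards [rows_out, pick_L, lam_cmp one_half_pos, tfin_succ hc0,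
    tfin_const hc0 (kappa ^ 2 + 1), tfin_pow hc (6 * K), tfin_pow hc1 2]
    with N h1 h2 h3 h4 h5 h6 h7 α _ W hW S hS H
  have k1 := card_filter_add_card_filter_not (s := S)
    fun Δ => ell N ^ (3 / 5 : ℝ) - 3 ≤ |((RN W Δ).card : ℝ) - xc (ell N)⁻¹|
  have k2 : ((S.filter fun Δ =>
      ell N ^ (3 / 5 : ℝ) - 3 ≤ |((RN W Δ).card : ℝ) - xc (ell N)⁻¹|).card : ℝ) ≤
      exp (-(N : ℝ) ^ c - 1) * (N.factorial * exp (FF N)) := by
    clear * - α N W S c hS h1 hW h5 h7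
    refine le_trans (Nat.cast_le.2 (card_le_card (filter_subset_filter _ hS)))
      ((h1 α W hW).trans (mul_le_mul_of_nonneg_right (exp_le_exp.2 ?_) (by positivity)))
    linarith only [h5, h7, sq_nonneg kappa, sq_nonneg kappa]
  have k3 : ((S.filter fun Δ =>
      ¬ ell N ^ (3 / 5 : ℝ) - 3 ≤ |((RN W Δ).card : ℝ) - xc (ell N)⁻¹|).card : ℝ) ≤
      exp (-(N : ℝ) ^ c - 1) * (N.factorial * exp (FF N)) := by
    refine (tfin_fib _ (range (N + 1)) (fun Δ => (RN W Δ).card)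
      (B := N.factorial * (((N : ℝ) + 1) ^ 2 *
        exp (FF N + kappa ^ 2 + ((N : ℝ) ^ c - (N : ℝ) ^ c' / K))))
      (fun Δ _ => ?_) fun b hb => ?_).trans ?_
    · exact mem_range.2 (Nat.lt_succ_of_le (hW ▸ (tfin_RN W Δ).1))
    · have hb' := Nat.lt_succ_iff.1 (mem_range.1 hb)
      by_cases hd : ell N ^ (3 / 5 : ℝ) - 3 ≤ |(b : ℝ) - xc (ell N)⁻¹|
      · refine tfin_zero (fun Δ hΔ => ?_) (by positivity)
        obtain ⟨hΔ, e⟩ := mem_filter.1 hΔ
        exact (mem_filter.1 hΔ).2 (e ▸ hd)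
      obtain ⟨u1, u2⟩ := abs_lt.1 (not_le.1 hd)
      obtain ⟨L, e, hw, hb2⟩ := h2 (b + 1) (abs_le.2 ⟨by clear * - N b c hc0 hc1 u1 h2; linarith only [hc0, hc1, u1], by clear * - b N c hc0 hc1 u2 h2; linarith only [hc0, hc1, u2]⟩)
      obtain ⟨-, -, v1, v2⟩ := h3 L hw
      have L0 : 0 ≤ L := le_trans (by positivity) v1
      refine le_trans (Nat.cast_le.2 (card_le_card (filter_subset_filter _ (filter_subset _ _))))
        ((H b hb' L e.symm hw).trans (mul_le_mul_of_nonneg_left ?_ (by positivity)))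
      rw [mul_assoc, add_sub_assoc, exp_add, exp_add (FF N + kappa ^ 2), ← mul_assoc (_ ^ N)]
      refine mul_le_mul_of_nonneg_left (mul_le_mul hb2 (exp_le_exp.2 ?_) (exp_pos _).le
        (exp_pos _).le) (by positivity)
      clear * - L c N c' K L0 v2 hc0
      linarith [rpow_le_rpow L0 v2 hc0.le]
    · rw [card_range, Nat.cast_succ, mul_left_comm, mul_left_comm (rexp _), ← exp_add,
        ← mul_assoc ((N : ℝ) + 1), ← pow_succ']
      refine mul_le_mul_of_nonneg_left ?_ (by positivity)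
      refine (mul_le_mul_of_nonneg_right (pow_le_pow_left₀ (by positivity) h4 3)
        (exp_pos _).le).trans ?_
      rw [← exp_nat_mul, ← exp_add]
      refine exp_le_exp.2 ?_
      have : 6 * (N : ℝ) ^ c ≤ (N : ℝ) ^ c' / K := by
        clear * - N c c' K hK h6
        rw [le_div_iff₀ hK]
        linarith
      push_cast
      clear * - N c c' K h5 this
      linarith only [h5, this]
  have k4 : exp (-(N : ℝ) ^ c - 1) * 2 ≤ exp (-(N : ℝ) ^ c) := by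
    clear * - N c
    rw [exp_sub, div_mul_eq_mul_div, div_le_iff₀ (exp_pos 1)]
    exact mul_le_mul_of_nonneg_left (by linarith [add_one_le_exp (1 : ℝ)]) (exp_pos _).le
  have k5 := mul_le_mul_of_nonneg_right k4
    (show (0 : ℝ) ≤ N.factorial * exp (FF N) by positivity)
  rw [← k1, Nat.cast_add]
  clear * - α N W S c k2 k3 k5
  linarith only [k2, k3, k5]

theorem tfin_sq {a θ c : ℝ} (ha : a ≤ 1) (hc0 : 0 < c) (hc : c < a + 2 * θ - 2) :
    ∃ c', c < c' ∧ ∀ᶠ N : ℕ in atTop, ∀ L : ℝ, |L - ell N| ≤ ell N ^ (3 / 5 : ℝ) →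
      ∀ i j d : ℕ, (j : ℝ) < xc L⁻¹ → θ * lam N ≤ j → i + min d ⌊L⌋₊ ≤ j → (N : ℝ) ^ a ≤ d →
        (N : ℝ) ^ c' / (2 * exp 2) ≤ Sq L⁻¹ i j := by
  have hθ : 0 < θ := by linarith
  obtain ⟨ε, e0, e1, e2⟩ : ∃ ε : ℝ, 0 < ε ∧ ε ≤ 1 / 2 ∧ ε * (1 + 4 * θ) < a + 2 * θ - 2 - c := by
    refine ⟨min (1 / 2) ((a + 2 * θ - 2 - c) / (2 * (1 + 4 * θ))),
      lt_min one_half_pos (div_pos (by linarith) (by positivity)), min_le_left _ _, ?_⟩
    have h1 := min_le_right (1 / 2) ((a + 2 * θ - 2 - c) / (2 * (1 + 4 * θ)))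
    rw [le_div_iff₀ (by positivity)] at h1
    linarith only [hc, h1]
  refine ⟨a - ε + -2 + 2 * θ * (1 - ε) ^ 2, by clear * - c a ε θ e2 hθ e0; linarith only [e2, hθ, e0, mul_pos hθ (mul_pos e0 e0)], ?_⟩
  filter_upwards [lam_cmp e0, tfin_30] with N h1 h30 L hw i j d hj h2 h3 h4
  obtain ⟨v1, -, v2, v3⟩ := h1 L hw
  have N1 : (1 : ℝ) ≤ N := by linarith only [e0, e1, h30]
  have N0 : (0 : ℝ) < N := by linarith only [e0, e1, h30]
  have L1 : 1 ≤ L := (one_le_rpow N1 (by linarith only [e0, e1])).trans v2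
  have L0 : 0 < L := by linarith only [e0, e1, L1]
  refine le_trans ?_ (sq_ge L0 hj h3
    ((Nat.cast_le.2 (min_le_right _ _)).trans (Nat.floor_le L0.le)))
  have w1 : (N : ℝ) ^ (a - ε) / 2 ≤ (min d ⌊L⌋₊ : ℕ) := by
    clear * - N a ε h30 N1 e0 ha L L1 d h4 v2
    have u0 : 0 ≤ (N : ℝ) ^ (a - ε) := by positivity
    have u1 : (N : ℝ) ^ (a - ε) ≤ (N : ℝ) ^ a := rpow_le_rpow_of_exponent_le N1 (by linarith)
    have u2 : (N : ℝ) ^ (a - ε) ≤ (N : ℝ) ^ (1 - ε) := rpow_le_rpow_of_exponent_le N1 (by linarith)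
    have u3 := Nat.lt_floor_add_one L
    have u4 : (1 : ℝ) ≤ ⌊L⌋₊ := by exact_mod_cast Nat.one_le_floor_iff L |>.2 L1
    rw [Nat.cast_min]
    exact le_min (by linarith only [h4, u1]) (by linarith only [v2, u2, u3, u4])
  have w2 : (N : ℝ) ^ (-2 : ℝ) ≤ L⁻¹ ^ 2 := by
    rw [rpow_neg N0.le, rpow_two, ← inv_pow]
    exact pow_le_pow_left₀ (by positivity) (inv_anti₀ L0 v3) 2
  have w3 : (N : ℝ) ^ (2 * θ * (1 - ε) ^ 2) / exp 2 ≤ exp (2 * j / L - 2) := by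
    clear * - N θ ε j L N0 h30 v2 hθ e0 e1 L0 v1 h2
    rw [rpow_def_of_pos N0, ← exp_sub]
    refine exp_le_exp.2 (sub_le_sub_right ?_ _)
    have u1 : (1 - ε) * log N ≤ log L := by
      rw [← log_rpow N0]
      exact log_le_log (by positivity) v2
    have u2 := mul_le_mul_of_nonneg_left u1 (show 0 ≤ θ * (1 - ε) * L from
      mul_nonneg (mul_nonneg hθ.le (by linarith only [e0, e1])) L0.le)
    have u3 := mul_le_mul_of_nonneg_left v1 hθ.le
    rw [le_div_iff₀ L0]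
    linarith only [h2, u2, u3]
  refine le_trans (le_of_eq ?_) (mul_le_mul w1 (mul_le_mul w2 w3 (by positivity) (by positivity))
    (by positivity) (by positivity))
  rw [rpow_add N0, rpow_add N0]
  ring

theorem tfin_big (K : ℝ) : ∀ᶠ N : ℕ in atTop, ∀ L : ℝ, |L - ell N| ≤ ell N ^ (3 / 5 : ℝ) →
    K ≤ L ∧ K * L ≤ lam N := by
  filter_upwards [lam_cmp one_half_pos, tfin_const (show (0 : ℝ) < 1 - 1 / 2 by norm_num)
    (max K (exp (2 * K)))] with N h1 h2 L hw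
  obtain ⟨v1, -, v2, -⟩ := h1 L hw
  obtain ⟨u1, u2⟩ := max_le_iff.1 (h2.trans v2)
  have L0 : 0 < L := (exp_pos _).trans_le u2
  have u3 := mul_le_mul_of_nonneg_left ((le_log_iff_exp_le L0).2 u2) L0.le
  exact ⟨u1, by linarith only [v1, u3]⟩

theorem held_le {a θ δ c : ℝ} (ha : a ≤ 1) (hδ : 0 < δ) (hc0 : 0 < c) (hc1 : c < 1 / 7)
    (hc : c < a + 2 * θ - 2) : ∀ᶠ N : ℕ in atTop,
    ∀ (α : Type) [Fintype α] (W : Finset α), W.card = N →
    (((dags W).filter fun Δ => ∃ q ∈ W, (N : ℝ) ^ a ≤ domR W Δ q ∧ δ * lam N ≤ freeR W Δ q ∧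
      θ * lam N ≤ freeR W Δ q + domR W Δ q).card : ℝ) ≤
      exp (-(N : ℝ) ^ c) * (N.factorial * exp (FF N)) := by
  obtain ⟨c', k1, k2⟩ := tfin_sq ha hc0 hc
  obtain ⟨L0, k3⟩ := eventually_atTop.1 (hv_le hc0)
  filter_upwards [k2, tfin_win hc0 hc1 k1 (show 0 < 2 * exp 2 * 64 by positivity), tfin_big L0,
    tfin_big δ⁻¹, tfin_big 2, tfin_30] with N h1 h2 h3 h4 h5 h30 α _ W hW
  refine h2 α W hW _ (filter_subset _ _) fun b hb L e hw => ?_
  have L2 := (h5 L hw).1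
  have h6 := held_count W
    (fun j d => (N : ℝ) ^ a ≤ d ∧ δ * lam N ≤ j ∧ θ * lam N ≤ (j : ℝ) + d)
    (fun j d j' d' hj hd h => by
      have hj' : (j : ℝ) ≤ j' := Nat.cast_le.2 hj
      have hd' : (d : ℝ) ≤ d' := Nat.cast_le.2 hd
      exact ⟨h.1.trans hd', h.2.1.trans hj', by linarith only [h, hj', hd', h.2.2]⟩)
    (b := b) (L := L)
    (Bd := exp (-hL L - kappa * L ^ (1 / 3 : ℝ) + L ^ c - (N : ℝ) ^ c' / (2 * exp 2 * 64)))
    (by linarith only [hc0, hc1, L2]) (by linarith only [hc0, hc1, e]) (exp_pos _).le (fun j d hj h => by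
      clear * - L j δ N h4 hw hδ θ d a h b hj c' h1 c hc0 hc1 e α W k3 L0 h3
      have u1 : L ≤ j := by
        have := (h4 L hw).2
        rw [inv_mul_le_iff₀ hδ] at this
        exact this.trans h.2.1
      have u2 : ((j + d + 1 : ℕ) : ℝ) ≤ b := Nat.cast_le.2 hj
      have u3 := h1 L hw j (j + d + 1) d (by linarith only [hc0, hc1, e, u2]) (by push_cast; linarith only [hc0, hc1, h, h.2.2])
        (by omega) h.1
      refine (k3 L (h3 L hw).1 b j d e hj u1).trans (exp_le_exp.2 ?_)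
      rw [← div_div]
      linarith only [u3])
  rw [hW] at h6
  refine le_trans (Nat.cast_le.2 (card_le_card fun Δ hΔ => ?_)) (h6.trans ?_)
  · obtain ⟨hΔ, eb⟩ := mem_filter.1 hΔ
    obtain ⟨hΔ, q, hq, h⟩ := mem_filter.1 hΔ
    refine tfin_mem.2 ⟨hΔ, eb, q, ?_, h⟩
    by_contra hq'
    have := h.1
    rw [domR_eq_zero (mem_filter.1 hΔ).2 hq hq', Nat.cast_zero] at this
    exact this.not_gt (rpow_pos_of_pos (by clear * - N c hc0 hc1 h30 a this; linarith only [hc0, hc1, h30]) a)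
  · have hb' : (b : ℝ) ≤ N := Nat.cast_le.2 hb
    refine mul_le_mul_of_nonneg_left (mul_le_mul_of_nonneg_right (mul_le_mul_of_nonneg_right
      (pow_le_pow_left₀ (by positivity) (by linarith only [hc0, hc1, hb']) 2) (pow_nonneg (by linarith only [hc0, hc1, L2]) N))
      (exp_pos _).le) (by positivity)

theorem tree_big {ε c : ℝ} (hc0 : 0 < c) (hc1 : c < 1 / 7) (hc : c < 2 * ε) : ∀ᶠ N : ℕ in atTop,
    ∀ (α : Type) [Fintype α] (W : Finset α), W.card = N →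
    (((dags W).filter fun Δ => (1 / 2 + ε) * lam N ≤ (rootT W Δ).card).card : ℝ) ≤
      exp (-(N : ℝ) ^ c) * (N.factorial * exp (FF N)) := by
  obtain ⟨c', k1, k2⟩ := tfin_sq (θ := 1 / 2 + ε) le_rfl hc0 (by linarith only [hc])
  obtain ⟨L0, k3⟩ := eventually_atTop.1 (tv_le hc0)
  filter_upwards [k2, tfin_win hc0 hc1 k1 (show 0 < 2 * exp 2 * 64 by positivity), tfin_big L0,
    tfin_big 6] with N h1 h2 h3 h5 α _ W hW
  refine h2 α W hW _ (filter_subset _ _) fun b hb L e hw => ?_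
  obtain ⟨L2, L3⟩ := h5 L hw
  have p0 : 0 < (L - 1) ^ N := pow_pos (by linarith only [hc0, hc1, L2]) N
  refine (tfin_fib _ (range (b + 1)) (fun Δ => (rootT W Δ).card) (B := N.factorial * ((L - 1) ^ N *
    exp (-hL L - kappa * L ^ (1 / 3 : ℝ) + L ^ c - (N : ℝ) ^ c' / (2 * exp 2 * 64))))
    (fun Δ hΔ => ?_) fun m hm => ?_).trans ?_
  · exact mem_range.2 (Nat.lt_succ_of_le ((mem_filter.1 hΔ).2 ▸ (tfin_RN W Δ).2))
  · have hm' := Nat.lt_succ_iff.1 (mem_range.1 hm)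
    by_cases hd : (1 / 2 + ε) * lam N ≤ m
    swap
    · refine tfin_zero (fun Δ hΔ => ?_) (by positivity)
      obtain ⟨hΔ, e⟩ := mem_filter.1 hΔ
      exact hd (e ▸ (mem_filter.1 (mem_filter.1 hΔ).1).2)
    have h6 := tree_count W (hW ▸ hb) hm'
    rw [hW] at h6
    refine le_trans (Nat.cast_le.2 (card_le_card fun Δ hΔ => ?_))
      (h6.trans (mul_le_mul_of_nonneg_left ?_ (by positivity)))
    · obtain ⟨hΔ, em⟩ := mem_filter.1 hΔ
      obtain ⟨hΔ, eb⟩ := mem_filter.1 hΔ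
      exact mem_filter.2 ⟨(mem_filter.1 hΔ).1, eb, em⟩
    have u1 := (ev_TV (L := L) (by linarith only [hc0, hc1, L2]) hm' (by linarith only [hc0, hc1, e])).sum_le
      (inv_nonneg.2 (by linarith only [hc0, hc1, L2])) {N}
    rw [sum_singleton, inv_pow, ← div_eq_mul_inv, div_le_iff₀' p0] at u1
    refine u1.trans (mul_le_mul_of_nonneg_left ?_ p0.le)
    have u2 : (m : ℝ) ≤ b := Nat.cast_le.2 hm'
    have u4 : ⌈L⌉₊ + ⌊L⌋₊ ≤ m := by
      clear * - L c hc0 hc1 L2 ε N hc L3 m hd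
      have t1 := Nat.ceil_lt_add_one (show 0 ≤ L by linarith only [hc0, hc1, L2])
      have t2 := Nat.floor_le (show 0 ≤ L by linarith only [hc0, hc1, L2])
      have t3 : 0 ≤ ε * lam N := mul_nonneg (by linarith only [hc0, hc]) (by linarith only [hc0, hc1, L2, L3])
      have t4 : ((⌈L⌉₊ + ⌊L⌋₊ : ℕ) : ℝ) ≤ m := by
        push_cast
        linarith only [hc0, hc1, L2, L3, hd, t1, t2, t3]
      exact_mod_cast t4
    have u3 := h1 L hw ⌈L⌉₊ m N (by linarith only [hc0, hc1, e, u2]) hd (by omega) (rpow_one _).le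
    refine (k3 L (h3 L hw).1 b m e hm').trans (exp_le_exp.2 ?_)
    rw [← div_div]
    clear * - L c m N c' u3
    linarith only [u3]
  · have hb' : (b : ℝ) ≤ N := Nat.cast_le.2 hb
    rw [card_range, Nat.cast_succ, mul_left_comm, mul_assoc (_ ^ 2)]
    have u1 : (b : ℝ) + 1 ≤ ((N : ℝ) + 1) ^ 2 := by clear * - b N hb' α; linarith only [hb', Nat.cast_nonneg (α := ℝ) b, mul_nonneg_of_nonpos_of_nonpos (Mathlib.Tactic.Linarith.sub_nonpos_of_le (Mathlib.Tactic.Linarith.natCast_nonneg ℝ N)) (Mathlib.Tactic.Linarith.sub_nonpos_of_le (Mathlib.Tactic.Linarith.natCast_nonneg ℝ N))]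
    exact mul_le_mul_of_nonneg_left (mul_le_mul_of_nonneg_right u1 (mul_pos p0 (exp_pos _)).le)
      (by positivity)

theorem snk_le {c : ℝ} (hc0 : 0 < c) : ∀ᶠ N : ℕ in atTop,
    ∀ (α : Type) [Fintype α] (W : Finset α), W.card = N →
    (((dags W).filter fun Δ => (N : ℝ) ^ c ≤ nsrc W (rv Δ)).card : ℝ) ≤
      exp (-(N : ℝ) ^ c) * (N.factorial * exp (FF N)) := by
  filter_upwards [sum_gam (half_pos hc0), tfin_pow (half_lt_self hc0) 2] with N h1 h2 α _ W hW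
  have g1 : ∀ o : ℕ, exp o ≤ gam o := fun o => by
    have u1 : exp o ≤ 3 ^ o := by
      rw [← exp_one_pow]
      exact pow_le_pow_left₀ (exp_pos 1).le (by linarith only [exp_one_lt_d9]) o
    have u2 : 1 ≤ √(o.factorial : ℝ) := one_le_sqrt.2 (by exact_mod_cast o.factorial_pos)
    exact u1.trans (le_mul_of_one_le_right (by positivity) u2)
  have g0 : ∀ o, 1 ≤ gam o := fun o => (one_le_exp (Nat.cast_nonneg o)).trans (g1 o)
  have h3 := card_nsmul_le_sum ((dags W).filter fun Δ => (N : ℝ) ^ c ≤ nsrc W (rv Δ))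
    (fun Δ => (gam (nsrc W Δ) * gam (nsrc W (rv Δ))) ^ (3 / 2 : ℝ)) (exp ((N : ℝ) ^ c * (3 / 2)))
    fun Δ hΔ => by
      rw [exp_mul]
      refine rpow_le_rpow (exp_pos _).le ?_ (by norm_num)
      exact ((exp_le_exp.2 (mem_filter.1 hΔ).2).trans (g1 _)).trans
        (le_mul_of_one_le_left (zero_le_one.trans (g0 _)) (g0 _))
  have h4 := (h3.trans (sum_le_sum_of_subset_of_nonneg (filter_subset _ _) fun Δ _ _ =>
    rpow_nonneg (mul_nonneg (zero_le_one.trans (g0 _)) (zero_le_one.trans (g0 _))) _)).trans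
    (h1 α W hW)
  rw [nsmul_eq_mul, ← le_div_iff₀ (exp_pos _), mul_div_assoc, ← exp_sub] at h4
  rw [mul_left_comm, ← exp_add]
  exact h4.trans (mul_le_mul_of_nonneg_left (exp_le_exp.2 (by linarith only [h2])) (by positivity))

end Pool.Agent.Work.MP_5391ad_co
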