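import Pool.Agent.Work.MP_5391ad_co.CRate

-- merged part: Pool.Agent.Work.MP_5391ad_co.CJun
section
/-! The junction with the start layer. Let `n1` be the largest `n ≤ B` with
`c/√L ≤ tau (B - n)` (`Nat.findGreatest`; `tau 0 ≤ e t < c/√L`, `tau (B - 2L) ≥ e^{-4}`). By
`tau_growth`, `τ1 = tau (B - n1) ≤ (c/√L) e^{2t}`, and `t (B - n1) = log τ1 - τ1 + log L`.
For `x = B - n1 - i`, `n1 + i < B`: `eh (x - 1) ≤ -log (rs (n1 + i)) ≤ eh (x + 1)` (`incr_ratio`),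
`t τ ≤ eh ≤ t τ/(1 - 2 τ1)^2`, `tau (x+1) ≤ 2 τ1 e^{-t i}` and
`tau x = τ1 exp (-t i - (τ1 - tau x))`. The last step `n1 + i = B`: `rs B = Lam 0 / rate (B-1)`,
`t e^{τ(0)} = Lam 0 ≤ rate (B-1) ≤ t/σ(1)`, so `-log ≤ -log (1 - τ(1)) - τ(0) ≤ 4 t τ(1)`; it has
`i δ^2 > K` for large `L`. -/

namespace Pool.Agent.Work.MP_5391ad_co

open Real Finset Filter

theorem cjun_exp3 : exp 2 ≤ 8 ∧ exp 3 ≤ 64 := by
  have h1 : exp 1 ≤ 2.72 := exp_one_lt_d9.le.trans (by norm_num)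
  have h0 : 0 < exp 1 := exp_pos 1
  have e2 : exp 2 = exp 1 * exp 1 := by rw [← exp_add]; norm_num
  have e3 : exp 3 = exp 2 * exp 1 := by rw [← exp_add]; norm_num
  have h2 : exp 2 ≤ 8 := by rw [e2]; linarith only [h1, h0, mul_nonneg_of_nonpos_of_nonpos (Mathlib.Tactic.Linarith.sub_nonpos_of_le h1) (le_of_lt (Mathlib.Tactic.Linarith.sub_neg_of_lt h0))]
  exact ⟨h2, by rw [e3]; linarith only [h2, h1, e2, mul_nonneg_of_nonpos_of_nonpos (Mathlib.Tactic.Linarith.sub_nonpos_of_le (mul_self_nonneg (rexp (1 : ℝ)))) (Mathlib.Tactic.Linarith.sub_nonpos_of_le h1), Mathlib.Tactic.Linarith.mul_zero_eq (Mathlib.Tactic.Linarith.sub_nonpos_of_le h1) (sub_eq_zero_of_eq e2)]⟩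

theorem cjun_step {t x : ℝ} (ht : 0 < t) (ht1 : t ≤ 1) (hx : x + 1 < xc t)
    (h : tau t x ≤ 1 / 16) : tau t (x + 1) ≤ tau t x * exp (2 * t) := by
  have s0 := tau_spec ht (show x < xc t by linarith only [hx])
  have s1 := tau_spec ht hx
  have g := (tau_growth ht (show x ≤ x + 1 by linarith only [h, s0]) hx.le).2
  have h2 : tau t (x + 1) ≤ 1 / 2 := by
    have h3 : exp (t * (x + 1 - x) + (tau t (x + 1) - tau t x)) ≤ exp 2 :=
      exp_le_exp.2 (by linarith only [ht1, s0, s1, s0.1, s1.2.1])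
    rw [g]
    have h4 := cjun_exp3.1
    linarith only [h3, h4, h, s0.1, exp_pos (t * (x + 1 - x) + (tau t (x + 1) - tau t x)), mul_nonneg_of_nonpos_of_nonpos (Mathlib.Tactic.Linarith.sub_nonpos_of_le h) (le_of_lt (Mathlib.Tactic.Linarith.sub_neg_of_lt (exp_pos (t * (x + (1 : ℝ) - x) + (tau t (x + (1 : ℝ)) - tau t x)))))]
  refine (eh_ratio ht hx).2.trans (mul_le_mul_of_nonneg_left (exp_le_exp.2 ?_) s0.1.le)
  rw [div_le_iff₀ (by linarith only [s1])]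
  linarith only [ht, h2, mul_nonneg_of_nonpos_of_nonpos (le_of_lt (Mathlib.Tactic.Linarith.sub_neg_of_lt ht)) (Mathlib.Tactic.Linarith.sub_nonpos_of_le h2)]

theorem cjun_eps {t : ℝ} {B n : ℕ} (ht : 0 < t) (hB : (B : ℝ) < xc t) (h1 : 1 ≤ n) (h2 : n < B) :
    eh t ((B : ℝ) - n - 1) ≤ -log (rs t B n) ∧ -log (rs t B n) ≤ eh t ((B : ℝ) - n + 1) := by
  have hn : (1 : ℝ) ≤ n := by exact_mod_cast h1
  have e1 : ((B - n : ℕ) : ℝ) = (B : ℝ) - n := by rw [Nat.cast_sub h2.le]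
  have e2 : ((B - (n - 1) : ℕ) : ℝ) = (B : ℝ) - n + 1 := by
    rw [Nat.cast_sub (by omega), Nat.cast_sub h1]
    push_cast
    ring
  have e : rs t B n = (Lam t ((B : ℝ) - n) - Lam t ((B : ℝ) - n - 1)) /
      (Lam t ((B : ℝ) - n + 1) - Lam t ((B : ℝ) - n)) := by
    unfold rs rsA
    rw [if_neg (by omega), if_pos h2]
    unfold rate
    rw [e1, e2]
    simp only [zero_add, add_sub_cancel_right]
  have hx : (B : ℝ) - n + 1 < xc t := by linarith only [hB, hn]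
  have r := incr_ratio ht hx
  have b := incr_bounds ht (show (B : ℝ) - n < xc t by linarith only [hB, hn])
  have s := tau_spec ht (show (B : ℝ) - n - 1 < xc t by linarith only [hB, hn])
  have p : 0 < Lam t ((B : ℝ) - n) - Lam t ((B : ℝ) - n - 1) :=
    lt_of_lt_of_le (div_pos ht (by linarith only [s, s.2.1])) b.1
  have q : 0 < Lam t ((B : ℝ) - n + 1) - Lam t ((B : ℝ) - n) :=
    lt_of_lt_of_le (mul_pos (exp_pos _) p) r.1
  have l1 := log_le_log (mul_pos (exp_pos _) p) r.1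
  have l2 := log_le_log q r.2
  rw [log_mul (exp_pos _).ne' p.ne', log_exp] at l1 l2
  rw [e, log_div p.ne' q.ne']
  constructor <;> linarith only [l1, l2]

theorem cjun_last {t : ℝ} {B : ℕ} (ht : 0 < t) (ht1 : t ≤ 1 / 8) (hB : (B : ℝ) < xc t)
    (h1 : 1 ≤ B) (h : tau t 1 ≤ 1 / 16) : -log (rs t B B) ≤ 5 * t * tau t 1 := by
  have hn : (1 : ℝ) ≤ B := by exact_mod_cast h1
  have e2 : ((B - (B - 1) : ℕ) : ℝ) = 1 := by
    rw [show B - (B - 1) = 1 by omega]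
    simp
  have e : rs t B B = tau t 0 / (Lam t 1 - Lam t (1 - 1)) := by
    unfold rs rsA
    rw [if_neg (by omega), if_neg (lt_irrefl _)]
    unfold rate
    rw [e2]
    simp [Lam]
  have hx : (1 : ℝ) < xc t := by linarith only [hB, hn]
  have s0 := tau_spec ht (show (0 : ℝ) < xc t by linarith only [ht, ht1, hB, hn])
  have s1 := tau_spec ht hx
  have b := incr_bounds ht hx
  have m01 : tau t 0 ≤ tau t 1 := alam_mono ht (by norm_num) hx
  have p : 0 < Lam t 1 - Lam t (1 - 1) := by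
    refine lt_of_lt_of_le (div_pos ht ?_) b.1
    rw [sub_self]
    linarith only [s0, s0.2.1]
  have hs : 0 < 1 - tau t 1 := by linarith only [h, s1]
  have l1 := log_le_log p b.2
  rw [log_div ht.ne' hs.ne'] at l1
  have l2 : -log (1 - tau t 1) ≤ tau t 1 + 2 * tau t 1 ^ 2 := by
    have h3 := log_le_sub_one_of_pos (inv_pos.2 hs)
    rw [log_inv] at h3
    refine h3.trans ?_
    rw [sub_le_iff_le_add, inv_le_iff_one_le_mul₀ hs]
    have h4 := mul_le_mul_of_nonneg_left h (mul_pos s1.1 s1.1).le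
    linarith only [h4, mul_pos s1.1 s1.1]
  have st := cjun_step ht (by linarith only [ht1, h, s1]) (show (0 : ℝ) + 1 < xc t by linarith only [hB, hn]) (by linarith only [h, m01])
  rw [zero_add] at st
  have l3 : tau t 1 * (1 - 2 * t) ≤ tau t 0 := by
    have h3 : 1 - 2 * t ≤ exp (-(2 * t)) := by linarith only [add_one_le_exp (-(2 * t))]
    have h4 : tau t 1 * exp (-(2 * t)) ≤ tau t 0 := by
      rw [exp_neg, ← div_eq_mul_inv, div_le_iff₀ (exp_pos _)]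
      exact st
    exact (mul_le_mul_of_nonneg_left h3 s1.1.le).trans h4
  have l4 : tau t 1 ≤ 3 / 2 * t := by
    have h3 : tau t 1 = t * exp (t + tau t 1) := by
      have h5 : log (tau t 1) = log t + (t + tau t 1) := by linarith only [s1, s1.2.2]
      have h8 := exp_log s1.1
      rw [h5, exp_add, exp_log ht] at h8
      exact h8.symm
    have h6 : exp (t + tau t 1) ≤ 3 / 2 := by
      have h7 : 1 - (t + tau t 1) ≤ exp (-(t + tau t 1)) := by
        linarith only [add_one_le_exp (-(t + tau t 1))]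
      rw [exp_neg, le_inv_comm₀ (by linarith only [ht1, h, s1]) (exp_pos _)] at h7
      refine h7.trans ?_
      rw [inv_le_comm₀ (by linarith only [ht1, h, s1]) (by norm_num)]
      linarith only [ht1, h]
    linarith only [h3, mul_le_mul_of_nonneg_left h6 ht.le]
  rw [e, log_div s0.1.ne' p.ne']
  have l5 := s0.2.2
  have l6 := mul_le_mul_of_nonneg_left l4 s1.1.le
  linarith only [l1, l2, l3, l5, l6]

theorem cjun_eh_le {t y u m : ℝ} (ht : 0 < t) (hy : y < xc t) (h1 : tau t y ≤ u)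
    (h2 : tau t y ≤ m) (h3 : m < 1) : t * tau t y ≤ eh t y ∧ eh t y ≤ t * u / (1 - m) ^ 2 := by
  have s := tau_spec ht hy
  have hs : 0 < 1 - tau t y := by linarith [s.2.1]
  unfold eh
  constructor
  · rw [le_div_iff₀ (by positivity)]
    have h4 : (1 - tau t y) ^ 2 ≤ 1 := by linarith only [s, h2, h3, s.1, mul_nonneg_of_nonpos_of_nonpos (Mathlib.Tactic.Linarith.sub_nonpos_of_le h2) (le_of_lt (Mathlib.Tactic.Linarith.sub_neg_of_lt s.left)), mul_pos_of_neg_of_neg (Mathlib.Tactic.Linarith.sub_neg_of_lt h3) (Mathlib.Tactic.Linarith.sub_neg_of_lt s.left)]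
    exact mul_le_of_le_one_right (mul_pos ht s.1).le h4
  · refine div_le_div₀ (mul_pos ht (s.1.trans_le h1)).le (mul_le_mul_of_nonneg_left h1 ht.le)
      (pow_pos (by linarith) 2) (pow_le_pow_left₀ (by linarith) (by linarith) 2)

theorem cjun_n1 {c δ t L : ℝ} {B : ℕ} (hc : 1 ≤ c) (hδ : 0 < δ) (ht : t = δ ^ 2)
    (hL : t = L⁻¹) (h2 : c * δ ≤ 1 / 64) (h9 : 4 ≤ log L) (g : Gap L B) :
    ∃ n1 : ℕ, L ≤ n1 ∧ n1 < B ∧ c * δ ≤ tau t ((B : ℝ) - n1) ∧
      tau t ((B : ℝ) - n1 - 1) ≤ c * δ := by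
  classical
  have t0 : 0 < t := by rw [ht]; positivity
  have L0 : 0 < L := by rw [← inv_pos, ← hL]; exact t0
  have tL : t * L = 1 := by rw [hL]; field_simp
  have d1 : δ ≤ 1 / 64 := by linarith only [mul_le_mul_of_nonneg_right hc hδ.le, h2]
  have t1 : t ≤ 1 / 64 := by linarith only [mul_le_mul_of_nonneg_right d1 hδ.le, ht, d1]
  have L1 : 64 ≤ L := by linarith only [mul_le_mul_of_nonneg_right t1 L0.le, tL]
  obtain ⟨g1, g2⟩ := g
  rw [← hL] at g1 g2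
  have hxc : xc t = L * (log L - 1) := by rw [xc, hL, inv_inv]
  have hB : L + 1 ≤ B := by
    linarith only [mul_le_mul_of_nonneg_left h9 L0.le, hxc, g2, L1]
  have hm : (⌈L⌉₊ : ℝ) < L + 1 := Nat.ceil_lt_add_one L0.le
  have hm0 : L ≤ (⌈L⌉₊ : ℝ) := Nat.le_ceil L
  have hmB : ⌈L⌉₊ ≤ B := by
    have h3 : (⌈L⌉₊ : ℝ) ≤ B := by linarith only [hB, hm]
    exact_mod_cast h3
  have Pm : c * δ ≤ tau t ((B : ℝ) - (⌈L⌉₊ : ℕ)) := by
    have h3 := (sigma_bounds t0 (show (B : ℝ) - (⌈L⌉₊ : ℕ) < xc t by linarith only [hδ, d1, L1, g1, hm0])).2.2.1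
    refine le_trans ?_ h3
    have h4 : exp (-3) ≤ exp (-1 - t * (xc t - ((B : ℝ) - (⌈L⌉₊ : ℕ)))) :=
      exp_le_exp.2 (by
        have h5 : xc t - ((B : ℝ) - (⌈L⌉₊ : ℕ)) ≤ 2 * L := by linarith only [g2, hm, L1]
        linarith only [mul_le_mul_of_nonneg_left h5 t0.le, tL])
    refine le_trans ?_ h4
    rw [exp_neg, le_inv_comm₀ (by positivity) (exp_pos _)]
    refine cjun_exp3.2.trans ?_
    rw [le_inv_comm₀ (by norm_num) (by positivity)]
    linarith only [h2]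
  have nB : ¬ c * δ ≤ tau t ((B : ℝ) - (B : ℕ)) := by
    rw [sub_self, not_le]
    have s0 := tau_spec t0 (show (0 : ℝ) < xc t by linarith only [hδ, d1, L1, g1, hB])
    have h5 : log (tau t 0) ≤ log t + 2 := by linarith only [hδ, d1, s0, s0.2.2, s0.2.1]
    have h6 : tau t 0 ≤ t * exp 2 := by
      have h7 := exp_le_exp.2 h5
      rwa [exp_log s0.1, exp_add, exp_log t0] at h7
    have h8 := cjun_exp3.1
    have h10 : t * exp 2 ≤ δ * (δ * 8) := by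
      linarith only [mul_le_mul_of_nonneg_left h8 t0.le, ht]
    linarith only [h6, h10, mul_le_mul_of_nonneg_left d1 hδ.le,
      mul_le_mul_of_nonneg_right hc hδ.le, hδ]
  have k1 := Nat.le_findGreatest (P := fun n : ℕ => c * δ ≤ tau t ((B : ℝ) - n)) hmB Pm
  have k2 := Nat.findGreatest_spec (P := fun n : ℕ => c * δ ≤ tau t ((B : ℝ) - n)) hmB Pm
  have k3 := Nat.findGreatest_le (P := fun n : ℕ => c * δ ≤ tau t ((B : ℝ) - n)) B
  have k4 := fun k => Nat.findGreatest_is_greatest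
    (P := fun n : ℕ => c * δ ≤ tau t ((B : ℝ) - n)) (n := B) (k := k)
  generalize Nat.findGreatest (fun n : ℕ => c * δ ≤ tau t ((B : ℝ) - n)) B = n1 at k1 k2 k3 k4
  have k5 : n1 < B := by
    rcases k3.lt_or_eq with h | h
    · exact h
    · rw [h] at k2
      exact absurd k2 nB
  refine ⟨n1, hm0.trans (by exact_mod_cast k1), k5, k2, ?_⟩
  have k6 := k4 (n1 + 1) (by omega) (by omega)
  rw [not_le] at k6
  push_cast at k6
  rw [sub_sub]
  exact k6.le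

theorem cjun_core {c K θ δ t L : ℝ} {B : ℕ} (hc : 1 ≤ c) (hθ : 0 < θ) (hδ : 0 < δ)
    (ht : t = δ ^ 2) (hL : t = L⁻¹)
    (h1 : c * (exp (4 * δ ^ 2) / (1 - 2 * c * δ) ^ 2) ≤ c + θ) (h2 : c * δ ≤ 1 / 64)
    (h3 : δ ≤ θ) (h4 : c * (δ ^ 2 + 2 * c * δ) ≤ θ) (h5 : θ⁻¹ + 1 ≤ log L / 2)
    (h6 : K + 2 ≤ log L / 2) (h7 : log (2 * c) + 1 ≤ log L) (h8 : log (2 * c) + 1 ≤ θ * log L)
    (h9 : 4 ≤ log L) (g : Gap L B) :
    ∃ n1 : ℕ, L ≤ n1 ∧ n1 < B ∧ c * δ ≤ tau t ((B : ℝ) - n1) ∧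
      tau t ((B : ℝ) - n1) ≤ (c + θ) * δ ∧
      StH c K θ δ (B + 1 - n1) (fun i => -log (rs t B (n1 + i))) ∧
      |(B + 1 - n1 : ℕ) * δ ^ 2 / log L - 1 / 2| ≤ θ ∧
      c ^ (1 / 3 : ℝ) * δ ≤ bet t B n1 ∧
      bet t B n1 ≤ (1 + θ) * c ^ (1 / 3 : ℝ) * δ ∧
      L * rate t 0 B (n1 - 1) ≤ 1 + θ := by
  obtain ⟨n1, k1, k2, k3, k4⟩ := cjun_n1 hc hδ ht hL h2 h9 g
  have t0 : 0 < t := by rw [ht]; positivity
  have L0 : 0 < L := by rw [← inv_pos, ← hL]; exact t0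
  have tL : t * L = 1 := by rw [hL]; field_simp
  have d1 : δ ≤ 1 / 64 := by linarith only [mul_le_mul_of_nonneg_right hc hδ.le, h2]
  have t1 : t ≤ 1 / 64 := by linarith only [mul_le_mul_of_nonneg_right d1 hδ.le, ht, d1]
  have L1 : 64 ≤ L := by linarith only [mul_le_mul_of_nonneg_right t1 L0.le, tL]
  have c0 : 0 < c := by linarith only [hc]
  have cδ : 0 < c * δ := mul_pos c0 hδ
  have δ3 : 0 < δ ^ 3 := pow_pos hδ 3
  have cδ3 : 0 < c * δ ^ 3 := mul_pos c0 δ3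
  have hB : (B : ℝ) < xc t := by
    have g1 := g.1
    rw [← hL] at g1
    linarith only [g1, L0]
  have n64 : (64 : ℝ) ≤ n1 := L1.trans k1
  have n1' : 1 ≤ n1 := by
    have h : (1 : ℝ) ≤ n1 := by linarith only [n64]
    exact_mod_cast h
  have nB : (n1 : ℝ) + 1 ≤ B := by exact_mod_cast k2
  rw [← ht] at h1 h4
  -- the exponential factors
  have e4 : exp (4 * t) ≤ 2 := by
    have h : 1 - 4 * t ≤ exp (-(4 * t)) := by linarith only [add_one_le_exp (-(4 * t))]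
    rw [exp_neg, le_inv_comm₀ (by linarith only [t1]) (exp_pos _)] at h
    refine h.trans ?_
    rw [inv_le_comm₀ (by linarith only [t1]) (by norm_num)]
    linarith only [t1]
  have e24 : exp (2 * t) ≤ exp (4 * t) := exp_le_exp.2 (by linarith only [t0])
  have e22 : exp (2 * t) * exp (2 * t) = exp (4 * t) := by rw [← exp_add]; ring_nf
  have e1 : 1 ≤ exp (4 * t) := one_le_exp (by linarith only [t0])
  have m0 : 0 < 1 - 2 * c * δ := by linarith only [h2]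
  have m1 : (1 - 2 * c * δ) ^ 2 ≤ 1 - 2 * c * δ := by
    rw [sq]
    exact mul_le_of_le_one_right m0.le (by linarith only [cδ])
  have m2 : 1 / 4 ≤ (1 - 2 * c * δ) ^ 2 := by
    have h := pow_le_pow_left₀ (by norm_num)
      (show 1 / 2 ≤ 1 - 2 * c * δ by linarith only [h2]) 2
    linarith only [h]
  set G := exp (4 * t) / (1 - 2 * c * δ) ^ 2 with hG
  have G1 : exp (4 * t) ≤ G := by
    rw [hG, le_div_iff₀ (pow_pos m0 2)]
    exact mul_le_of_le_one_right (exp_pos _).le (by linarith only [m1, cδ])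
  have G2 : G ≤ 1 + θ := by
    linarith only [mul_le_mul_of_nonneg_right hc (show 0 ≤ G - 1 by linarith only [G1, e1]), h1]
  have G8 : G ≤ 8 := by
    rw [hG, div_le_iff₀ (pow_pos m0 2)]
    linarith only [e4, m2]
  set x1 : ℝ := (B : ℝ) - n1 with hx1
  have x1c : x1 + 1 < xc t := by linarith only [hx1, hB, n64]
  have a1 : tau t x1 ≤ c * δ * exp (2 * t) := by
    have h := cjun_step t0 (by linarith only [t1])
      (show x1 - 1 + 1 < xc t by linarith only [x1c]) (by linarith only [k4, h2])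
    rw [sub_add_cancel] at h
    exact h.trans (mul_le_mul_of_nonneg_right k4 (exp_pos _).le)
  have a1' : tau t x1 ≤ c * δ * exp (4 * t) := a1.trans (mul_le_mul_of_nonneg_left e24 cδ.le)
  have a0 : c * δ * exp (4 * t) ≤ 2 * c * δ := by
    linarith only [mul_le_mul_of_nonneg_left e4 cδ.le]
  have a1'' : tau t x1 ≤ 2 * c * δ := a1'.trans a0
  have a2 : tau t (x1 + 1) ≤ c * δ * exp (4 * t) := by
    have h := cjun_step t0 (by linarith only [t1]) x1c (by linarith only [a1'', h2])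
    refine h.trans ?_
    rw [← e22, ← mul_assoc]
    exact mul_le_mul_of_nonneg_right a1 (exp_pos _).le
  have a2' : tau t (x1 + 1) ≤ 2 * c * δ := a2.trans a0
  have s1 := tau_spec t0 (show x1 < xc t by linarith only [x1c])
  have lt : log t = -log L := by rw [hL, log_inv]
  have ld : log δ = -log L / 2 := by
    have h : log t = 2 * log δ := by rw [ht, log_pow]; norm_num
    linarith only [h, lt]
  have b1 : log L / 2 - 1 ≤ t * x1 := by
    have h := log_le_log cδ k3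
    rw [log_mul c0.ne' hδ.ne'] at h
    have h' := log_nonneg hc
    linarith only [s1.2.2, s1.2.1, h, h', lt, ld]
  have b2 : t * x1 ≤ log L / 2 + log (2 * c) := by
    have h := log_le_log s1.1 a1''
    rw [log_mul (mul_pos two_pos c0).ne' hδ.ne'] at h
    linarith only [s1.2.2, s1.1, h, lt, ld]
  have cT : ((B + 1 - n1 : ℕ) : ℝ) = x1 + 1 := by
    rw [Nat.cast_sub (by omega)]
    push_cast
    ring
  have l2c : 0 ≤ log (2 * c) := log_nonneg (by linarith only [hc])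
  -- decay of the tree function along the start layer
  have dec : ∀ i : ℕ, tau t (x1 + 1 - i) ≤ c * δ * exp (4 * t) * exp (-(i * t)) := by
    intro i
    have h := (tau_growth t0 (show x1 + 1 - i ≤ x1 + 1 by
      linarith only [Nat.cast_nonneg (α := ℝ) i]) x1c.le).1
    rw [exp_neg, ← div_eq_mul_inv, le_div_iff₀ (exp_pos _)]
    refine le_trans (le_of_eq ?_) (h.trans a2)
    congr 2
    ring
  have up : ∀ i : ℕ, n1 + i < B →
      -log (rs t B (n1 + i)) ≤ c * G * δ ^ 3 * exp (-(i * t)) := by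
    intro i hi
    have h := (cjun_eps t0 hB (show 1 ≤ n1 + i by omega) hi).2
    have i0 : (0 : ℝ) ≤ i := Nat.cast_nonneg i
    have e : (B : ℝ) - (n1 + i : ℕ) + 1 = x1 + 1 - i := by
      push_cast
      ring
    rw [e] at h
    have h' := (cjun_eh_le (m := 2 * c * δ) t0 (show x1 + 1 - i < xc t by linarith only [x1c, i0])
      (dec i) ((alam_mono t0 (by linarith only [i0]) x1c).trans a2') (by linarith only [m0])).2
    refine h.trans (h'.trans (le_of_eq ?_))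
    rw [hG]
    nth_rewrite 1 [ht]
    ring
  have lo : ∀ i : ℕ, n1 + i < B →
      c * δ ^ 3 * exp (-(i * t)) * (1 - (t + 2 * c * δ)) ≤ -log (rs t B (n1 + i)) := by
    intro i hi
    have h := (cjun_eps t0 hB (show 1 ≤ n1 + i by omega) hi).1
    have i0 : (0 : ℝ) ≤ i := Nat.cast_nonneg i
    have e : (B : ℝ) - (n1 + i : ℕ) - 1 = x1 - i - 1 := by
      push_cast
      ring
    rw [e] at h
    have hy : x1 - i - 1 < xc t := by linarith only [x1c, i0]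
    have h' := (cjun_eh_le t0 hy le_rfl le_rfl (tau_spec t0 hy).2.1).1
    have gr := (tau_growth t0 (show x1 - i - 1 ≤ x1 by linarith only [i0])
      (by linarith only [x1c])).2
    have sy := tau_spec t0 hy
    have q1 : tau t (x1 - i - 1) = tau t x1 * exp (-(i * t)) *
        exp (-(t + (tau t x1 - tau t (x1 - i - 1)))) := by
      rw [mul_assoc, ← exp_add]
      nth_rewrite 1 [gr]
      rw [mul_assoc, ← exp_add]
      have z : t * (x1 - (x1 - i - 1)) + (tau t x1 - tau t (x1 - i - 1)) +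
          (-(i * t) + -(t + (tau t x1 - tau t (x1 - i - 1)))) = 0 := by ring
      rw [z, exp_zero, mul_one]
    have q2 : 1 - (t + 2 * c * δ) ≤ exp (-(t + (tau t x1 - tau t (x1 - i - 1)))) := by
      linarith only [add_one_le_exp (-(t + (tau t x1 - tau t (x1 - i - 1)))), sy.1, a1'']
    have q3 : c * δ * exp (-(i * t)) * (1 - (t + 2 * c * δ)) ≤ tau t (x1 - i - 1) := by
      rw [q1]
      exact mul_le_mul (mul_le_mul_of_nonneg_right k3 (exp_pos _).le) q2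
        (by linarith only [t1, h2])        (mul_pos s1.1 (exp_pos _)).le
    refine le_trans (le_of_eq ?_) ((mul_le_mul_of_nonneg_left q3 t0.le).trans (h'.trans h))
    nth_rewrite 3 [ht]
    ring
  have eh1 := cjun_eh_le (m := 2 * c * δ) t0 (show x1 < xc t by linarith only [x1c]) a1' a1''
    (by linarith only [m0])
  have c3 : (c * δ ^ 3) ^ (1 / 3 : ℝ) = c ^ (1 / 3 : ℝ) * δ := by
    rw [mul_rpow c0.le δ3.le, one_div]
    congr 1
    exact pow_rpow_inv_natCast (n := 3) hδ.le (by norm_num)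
  refine ⟨n1, k1, k2, k3, ?_, ⟨⟨hδ, h3, ?_, ?_, ?_⟩, ?_⟩, ?_, ?_, ?_, ?_⟩
  · refine a1'.trans ?_
    have h : c * exp (4 * t) ≤ c + θ :=
      (mul_le_mul_of_nonneg_left G1 (by linarith only [hc])).trans h1
    linarith only [mul_le_mul_of_nonneg_right h hδ.le]
  · rw [cT, ← ht]
    linarith only [b1, h5, t0]
  · rw [cT, ← ht, log_inv]
    linarith only [b2, ld, h7, t1, h9]
  · intro i hi
    have hr := rs_mem t0 (show 1 ≤ B by omega) hB (n1 + i)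
    refine ⟨neg_nonneg.2 (log_nonpos hr.1.le hr.2), ?_⟩
    rw [← ht]
    have p3 : 0 < c * δ ^ 3 * exp (-(i * t)) := mul_pos cδ3 (exp_pos _)
    rcases (show n1 + i ≤ B by omega).lt_or_eq with h | h
    · refine (up i h).trans ?_
      linarith only [mul_le_mul_of_nonneg_left G8 p3.le, p3]
    · have hi' : x1 + 1 - i = 1 := by
        rw [hx1, ← h]
        push_cast
        ring
      have d := dec i
      rw [hi'] at d
      have i0 : (0 : ℝ) ≤ i := Nat.cast_nonneg i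
      have d' : tau t 1 ≤ 1 / 16 := by
        have h' := (alam_mono t0 (show (1 : ℝ) ≤ x1 + 1 by linarith only [hi', i0]) x1c).trans a2'
        linarith only [h', h2]
      have la := cjun_last t0 (by linarith only [t1]) hB (by omega) d'
      simp only [h]
      refine la.trans ?_
      have d2 : tau t 1 ≤ c * δ * 2 * exp (-(i * t)) :=
        d.trans (mul_le_mul_of_nonneg_right (mul_le_mul_of_nonneg_left e4 cδ.le) (exp_pos _).le)
      refine (mul_le_mul_of_nonneg_left d2 (by linarith only [t0])).trans (le_of_eq ?_)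
      nth_rewrite 1 [ht]
      ring
  · intro i hi hK
    rw [← ht] at hK ⊢
    have i0 : (0 : ℝ) ≤ i := Nat.cast_nonneg i
    rcases (show n1 + i ≤ B by omega).lt_or_eq with h | h
    · have u := up i h
      have l := lo i h
      have ex : exp (-(i * t)) ≤ 1 := exp_le_one_iff.2 (by linarith only [mul_nonneg i0 t0.le])
      have ex0 := exp_pos (-(i * t))
      have w : θ * δ ^ 3 * exp (-(i * t)) ≤ θ * δ ^ 3 :=
        mul_le_of_le_one_right (mul_pos hθ δ3).le ex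
      have w1 : c * G * (δ ^ 3 * exp (-(i * t))) ≤ (c + θ) * (δ ^ 3 * exp (-(i * t))) :=
        mul_le_mul_of_nonneg_right h1 (mul_pos δ3 ex0).le
      have w2 : c * (t + 2 * c * δ) * (δ ^ 3 * exp (-(i * t))) ≤ θ * (δ ^ 3 * exp (-(i * t))) :=
        mul_le_mul_of_nonneg_right h4 (mul_pos δ3 ex0).le
      rw [abs_le]
      constructor <;> linarith only [u, l, w, w1, w2]
    · exfalso
      have hi' : x1 = i := by
        rw [hx1, ← h]
        push_cast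
        ring
      rw [hi'] at b1
      linarith only [b1, hK, h6]
  · rw [cT, ← ht, abs_le]
    have l0 : 0 < log L := by linarith only [h9]
    constructor
    · rw [le_sub_iff_add_le, le_div_iff₀ l0]
      linarith only [b1, h8, l2c, t0]
    · rw [sub_le_iff_le_add, div_le_iff₀ l0]
      linarith only [b2, h8, t1]
  · rw [← c3, bet]
    refine rpow_le_rpow cδ3.le (le_trans ?_ eh1.1) (by norm_num)
    refine le_trans (le_of_eq ?_) (mul_le_mul_of_nonneg_left k3 t0.le)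
    rw [ht]
    ring
  · have c4 : ((1 + θ) ^ 3 * (c * δ ^ 3)) ^ (1 / 3 : ℝ) = (1 + θ) * c ^ (1 / 3 : ℝ) * δ := by
      rw [mul_rpow (pow_pos (add_pos one_pos hθ) 3).le cδ3.le, c3, one_div, mul_assoc]
      congr 1
      exact pow_rpow_inv_natCast (n := 3) (by linarith only [hθ]) (by norm_num)
    rw [← c4, bet]
    refine rpow_le_rpow ((mul_pos t0 s1.1).le.trans eh1.1) (eh1.2.trans ?_) (by norm_num)
    have e : t * (c * δ * exp (4 * t)) / (1 - 2 * c * δ) ^ 2 = G * (c * δ ^ 3) := by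
      rw [hG]
      nth_rewrite 1 [ht]
      ring
    rw [e]
    refine mul_le_mul_of_nonneg_right (G2.trans ?_) cδ3.le
    exact le_self_pow₀ (by linarith only [hθ]) (by norm_num)
  · have e2 : ((B - (n1 - 1) : ℕ) : ℝ) = x1 + 1 := by
      rw [Nat.cast_sub (by omega), Nat.cast_sub n1']
      push_cast
      ring
    unfold rate
    rw [e2, zero_add]
    have b := (incr_bounds t0 x1c).2
    refine (mul_le_mul_of_nonneg_left b L0.le).trans ?_
    rw [← mul_div_assoc, mul_comm L t, tL]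
    refine le_trans ?_ G2
    rw [hG]
    exact div_le_div₀ (exp_pos _).le e1 (pow_pos m0 2) (by linarith only [m1, a2'])

theorem exists_junction {c K θ : ℝ} (hc : 1 ≤ c) (hθ : 0 < θ) : ∀ᶠ L : ℝ in atTop, ∀ B : ℕ,
    Gap L B → ∃ n1 : ℕ, L ≤ n1 ∧ n1 < B ∧ c / √L ≤ tau L⁻¹ ((B : ℝ) - n1) ∧
      tau L⁻¹ ((B : ℝ) - n1) ≤ (c + θ) / √L ∧
      StH c K θ (√L)⁻¹ (B + 1 - n1) (fun i => -log (rs L⁻¹ B (n1 + i))) ∧
      |(B + 1 - n1 : ℕ) * (√L)⁻¹ ^ 2 / log L - 1 / 2| ≤ θ ∧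
      c ^ (1 / 3 : ℝ) * (√L)⁻¹ ≤ bet L⁻¹ B n1 ∧
      bet L⁻¹ B n1 ≤ (1 + θ) * c ^ (1 / 3 : ℝ) * (√L)⁻¹ ∧
      L * rate L⁻¹ 0 B (n1 - 1) ≤ 1 + θ := by
  have hδ : Tendsto (fun L : ℝ => (√L)⁻¹) atTop (nhds 0) :=
    tendsto_inv_atTop_zero.comp tendsto_sqrt_atTop
  have ev : ∀ (F : ℝ → ℝ) (b : ℝ), ContinuousAt F 0 → F 0 < b →
      ∀ᶠ L : ℝ in atTop, F (√L)⁻¹ < b :=
    fun F b h1 h2 => (h1.tendsto.comp hδ).eventually (gt_mem_nhds h2)
  have ev1 := ev (fun δ => c * (exp (4 * δ ^ 2) / (1 - 2 * c * δ) ^ 2)) (c + θ)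
    (by fun_prop (disch := norm_num)) (by simpa using hθ)
  have ev2 := ev (fun δ => c * δ) (1 / 64) (by fun_prop) (by norm_num)
  have ev3 := ev (fun δ => δ) θ (by fun_prop) hθ
  have ev4 := ev (fun δ => c * (δ ^ 2 + 2 * c * δ)) θ (by fun_prop) (by simpa using hθ)
  have lg := fun M : ℝ => tendsto_log_atTop.eventually_ge_atTop M
  filter_upwards [ev1, ev2, ev3, ev4, lg (2 * (θ⁻¹ + 1)), lg (2 * (K + 2)), lg (log (2 * c) + 1),
    lg ((log (2 * c) + 1) / θ), lg 4, eventually_gt_atTop (0 : ℝ)] with L h1 h2 h3 h4 h5 h6 h7 h8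
    h9 L0 B g
  have s0 : 0 < √L := sqrt_pos.2 L0
  have e : L⁻¹ = (√L)⁻¹ ^ 2 := by rw [inv_pow, sq_sqrt L0.le]
  rw [div_le_iff₀ hθ] at h8
  have := cjun_core (K := K) hc hθ (inv_pos.2 s0) e rfl h1.le h2.le h3.le h4.le (by linarith only [h5])
    (by linarith only [h6]) h7 (by linarith only [h8]) h9 g
  simpa only [div_eq_mul_inv] using this

theorem sol_eq_stV {L : ℝ} {B n1 : ℕ} (hL1 : 1 < L) (hB : (B : ℝ) < xc L⁻¹) (h : n1 < B)
    (f : ℕ → ℝ) : Sol (rs L⁻¹ B) n1 f (B + 1 - n1) 1 =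
      (√L)⁻¹ / ((B + 1 - n1 : ℕ) * (√L)⁻¹ ^ 2) ^ (3 / 2 : ℝ) *
        stV (√L)⁻¹ (B + 1 - n1) (fun i => -log (rs L⁻¹ B (n1 + i))) f := by
  have t0 : 0 < L⁻¹ := inv_pos.2 (by linarith only [hL1])
  have s0 : 0 < (√L)⁻¹ := inv_pos.2 (sqrt_pos.2 (by linarith only [hL1]))
  have T0 : (0 : ℝ) < (B + 1 - n1 : ℕ) := by
    have h1 : 0 < B + 1 - n1 := by omega
    exact_mod_cast h1
  have p : 0 < (((B + 1 - n1 : ℕ) : ℝ) * (√L)⁻¹ ^ 2) ^ (3 / 2 : ℝ) := by positivity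
  have e : Sol (rs L⁻¹ B) n1 f (B + 1 - n1) =
      Sol (fun i => exp (-(-log (rs L⁻¹ B (n1 + i))))) 0 f (B + 1 - n1) := by
    refine Sol_congr fun j _ => ?_
    rw [neg_neg, zero_add, exp_log (rs_mem t0 (by omega) hB _).1]
  unfold stV
  rw [e]
  generalize (((B + 1 - n1 : ℕ) : ℝ) * (√L)⁻¹ ^ 2) ^ (3 / 2 : ℝ) = w at p
  generalize (√L)⁻¹ = δ at s0
  field_simp

end Pool.Agent.Work.MP_5391ad_co
end

-- merged part: Pool.Agent.Work.MP_5391ad_co.CAiry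
section
-- merged part: Pool.Agent.Work.MP_5391ad_co.CEnd
section
/-! The end layer. With `s = xc - x`: `2 t s τ ≤ σ^2 ≤ 2 t s`, `τ ≥ 1 - √(2 t s)`
(`sigma_bounds`, `sigma_sharp`), `rate t 0 B n = t + σ(B - n - 1) - σ(B - n)` and
`t/σ(x-1) ≤ Lam x - Lam (x-1) ≤ t/σ(x)`; for `s ≤ L + 3`, `τ ≥ e^{-3}`.
`end_lim`: `Sol_tendsto`, `Sol_dl_lower`; to pass from the filter `L → ∞` with `B` depending on
`L` use the filter `comap` on pairs `(L, B)` with `B + 1 = xc L⁻¹`, or write all quantities as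
functions of `L` alone through `σ(xc - s)`.
`end_data`: `Sol_dl_lower` with `ρ = 1/4` (`rs_end`), `Sol_bdd`, `Sol_supp`, `phi_far` with
`bet n0 * (n0 + 2) ≥ c n0^(2/3)`; `gc` is bounded below on `[c (n0+1)^(-1/3), C (n0 + 2)]`. -/

namespace Pool.Agent.Work.MP_5391ad_co

open Real Finset Filter

theorem cend_big : ∀ᶠ L : ℝ in atTop, ∀ B : ℕ, Gap L B → 3 ≤ L ∧ L + 1 ≤ B := by
  filter_upwards [eventually_ge_atTop (exp 3)] with L hL B hG
  have h1 : 3 ≤ L := le_trans (by linarith [add_one_le_exp 3]) hL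
  have h2 : 3 ≤ log L := (le_log_iff_exp_le (by linarith)).2 hL
  have h3 := hG.2
  rw [xc, inv_inv] at h3
  have h4 : L * 2 ≤ L * (log L - 1) := by gcongr; linarith
  exact ⟨h1, by linarith⟩

theorem cend_rate {t : ℝ} {B n : ℕ} (h : (n : ℝ) ≤ B) :
    rate t 0 B n = Lam t (B - n) - Lam t (B - n - 1) := by
  rw [rate, Nat.cast_sub (by exact_mod_cast h), zero_add]

theorem cend_bet {t : ℝ} {B n : ℕ} (ht : 0 < t) (h : (B : ℝ) - n < xc t) :
    bet t B n ^ 3 = eh t (B - n) := by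
  obtain ⟨a0, -⟩ := tau_spec ht h
  rw [bet, ← rpow_natCast, ← rpow_mul (by rw [eh]; positivity)]
  norm_num

theorem rate_theta : ∃ C : ℝ, 1 ≤ C ∧ ∀ᶠ L : ℝ in atTop, ∀ B n : ℕ, Gap L B → (n : ℝ) ≤ L →
    C⁻¹ ≤ √L * √(n + 1) * rate L⁻¹ 0 B n ∧ √L * √(n + 1) * rate L⁻¹ 0 B n ≤ C ∧
      C⁻¹ ≤ bet L⁻¹ B n ^ 3 * (n + 1) ∧ bet L⁻¹ B n ^ 3 * (n + 1) ≤ C := by
  have hE : 1 ≤ exp 3 := one_le_exp (by norm_num)
  have hE' : exp 3 * exp (-3) = 1 := by rw [← exp_add]; simp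
  refine ⟨4 * exp 3, by linarith only [hE], cend_big.mono fun L hL B n hG hn => ?_⟩
  obtain ⟨h3, hB⟩ := hL B hG
  obtain ⟨g1, g2⟩ := hG
  have hL0 : 0 < L := by linarith only [h3]
  have ht : 0 < L⁻¹ := inv_pos.2 hL0
  have htL : L * L⁻¹ = 1 := mul_inv_cancel₀ hL0.ne'
  have hn0 : (0 : ℝ) ≤ n := n.cast_nonneg
  have hx : (B : ℝ) - n < xc L⁻¹ := by linarith only [g1]
  have hx' : (B : ℝ) - n - 1 < xc L⁻¹ := by linarith only [g1]
  obtain ⟨a0, a1, -⟩ := tau_spec ht hx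
  obtain ⟨-, a1', -⟩ := tau_spec ht hx'
  obtain ⟨s1, s2, s3, -⟩ := sigma_bounds ht hx
  obtain ⟨s1', -⟩ := sigma_bounds ht hx'
  obtain ⟨i1, i2⟩ := incr_bounds ht hx
  have hτ : exp (-3) ≤ tau L⁻¹ (B - n) := by
    clear * - L B n hn h3 g2 a0 a1 htL s3
    refine le_trans (exp_le_exp.2 ?_) s3
    have : L⁻¹ * (xc L⁻¹ - (B - n)) ≤ L⁻¹ * (2 * L) := by gcongr; linarith only [hn, h3, g2, a0, a1]
    linarith only [htL, this]
  rw [cend_rate (by linarith only [hn, hB, a0, a1]), cend_bet ht hx, eh]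
  set τ := tau L⁻¹ (B - n)
  set τ' := tau L⁻¹ (B - n - 1)
  set s := xc L⁻¹ - (B - n) with hs
  have hs1 : (n + 1 : ℝ) / 4 ≤ s := by linarith
  have hs2 : s ≤ 2 * (n + 1) := by linarith only [g2]
  have hA0 : 0 < √L * √(n + 1) := by positivity
  have hA : (√L * √(n + 1) * L⁻¹) ^ 2 = L⁻¹ * (n + 1) := by
    rw [mul_pow, mul_pow, sq_sqrt hL0.le, sq_sqrt (by positivity)]
    linear_combination (L⁻¹ * (n + 1)) * htL
  have hP : 0 < L⁻¹ * (n + 1) := by positivity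
  have k1 : L⁻¹ * ((n + 1) / 4) * exp (-3) ≤ (1 - τ) ^ 2 := le_trans (by gcongr) s2
  refine ⟨le_trans ?_ (mul_le_mul_of_nonneg_left i1 hA0.le),
    le_trans (mul_le_mul_of_nonneg_left i2 hA0.le) ?_, ?_, ?_⟩
  · rw [← mul_div_assoc, le_div_iff₀ (by linarith only [a1']), inv_mul_le_iff₀ (by positivity)]
    refine le_of_sq_le_sq ?_ (by positivity)
    rw [mul_pow _ (_ * _), hA]
    have : L⁻¹ * (xc L⁻¹ - (B - n - 1)) ≤ L⁻¹ * (3 * (n + 1)) := by clear * - L B n g2 h3; gcongr; linarith only [g2]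
    have h6 : 6 ≤ (4 * exp 3) ^ 2 := by clear * - τ hE a0 a1; linarith only [hE, a0, a1, mul_nonneg_of_nonpos_of_nonpos (Mathlib.Tactic.Linarith.sub_nonpos_of_le hE) (Mathlib.Tactic.Linarith.sub_nonpos_of_le hE)]
    have := mul_le_mul_of_nonneg_right h6 hP.le
    linarith
  · rw [← mul_div_assoc, div_le_iff₀ (by linarith only [a1])]
    refine le_of_sq_le_sq ?_ (mul_nonneg (by positivity) (by linarith only [a1]))
    rw [hA, mul_pow]
    refine le_trans ?_ (mul_le_mul_of_nonneg_left k1 (sq_nonneg _))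
    have : (4 * exp 3) ^ 2 * (L⁻¹ * ((n + 1) / 4) * exp (-3)) = 4 * exp 3 * (L⁻¹ * (n + 1)) := by
      linear_combination (4 * exp 3 * (L⁻¹ * (n + 1))) * hE'
    rw [this]
    exact le_mul_of_one_le_left hP.le (by clear * - τ hE a0 a1 hP; linarith only [hE, a0, a1])
  · rw [div_mul_eq_mul_div, le_div_iff₀ (pow_pos (by linarith only [a1]) 2), inv_mul_le_iff₀ (by positivity)]
    have k2 : L⁻¹ * s ≤ L⁻¹ * (2 * (n + 1)) := by gcongr
    have k3 : 1 ≤ exp 3 * τ := hE'.ge.trans (by gcongr)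
    have k4 := mul_le_mul_of_nonneg_right k3 hP.le
    clear * - τ L n B s s1 k2 k4
    linarith only [s1, k2, k4]
  · rw [div_mul_eq_mul_div, div_le_iff₀ (pow_pos (by linarith only [a1]) 2)]
    have k2 : L⁻¹ * ((n + 1) / 4) * τ ≤ L⁻¹ * s * τ := by gcongr
    have k3 := mul_le_mul_of_nonneg_right hE (sq_nonneg (1 - τ))
    clear * - L τ n B s s2 k2 k3
    linarith only [s2, k2, k3]

theorem rs_end (n0 : ℕ) : ∀ᶠ L : ℝ in atTop, ∀ B : ℕ, Gap L B → ∀ n ≤ n0, 1 / 4 ≤ rs L⁻¹ B n := by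
  filter_upwards [cend_big, eventually_ge_atTop (11 * (n0 + 1 : ℝ))] with L hL hL' B hG n hn
  obtain ⟨h3, hB⟩ := hL B hG
  obtain ⟨g1, g2⟩ := hG
  have hL0 : 0 < L := by linarith only [hL']
  have ht : 0 < L⁻¹ := inv_pos.2 hL0
  rcases n with _ | n
  · simp only [rs, rsA, if_true]
    norm_num
  have hn0 : (0 : ℝ) ≤ n := n.cast_nonneg
  have hn1 : (n + 1 : ℝ) ≤ n0 := by exact_mod_cast hn
  have hnB : n + 1 < B := by
    have : (n + 1 : ℝ) < B := by linarith only [hL', hB, hn1]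
    exact_mod_cast this
  have hx : (B : ℝ) - n < xc L⁻¹ := by linarith only [g1]
  have hx1 : (B : ℝ) - (n + 1) < xc L⁻¹ := by linarith only [hx]
  have hx2 : (B : ℝ) - (n + 1) - 1 < xc L⁻¹ := by linarith only [hx]
  obtain ⟨a0, a1, -⟩ := tau_spec ht hx
  obtain ⟨-, a2, -⟩ := tau_spec ht hx2
  obtain ⟨j1, j2⟩ := incr_bounds ht hx
  obtain ⟨i1, -⟩ := incr_bounds ht hx1
  have j0 : 0 < L⁻¹ / (1 - tau L⁻¹ (B - n - 1)) :=
    div_pos ht (sub_pos.2 (tau_spec ht (by linarith only [hx])).2.1)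
  have s0 := sigma_sharp ht hx
  obtain ⟨s1, -⟩ := sigma_bounds ht hx
  obtain ⟨s2, -⟩ := sigma_bounds ht hx2
  simp only [rs, rsA, Nat.add_one_ne_zero, if_false, if_pos hnB, Nat.add_sub_cancel]
  rw [cend_rate (by clear * - n B n0 L hL' hB hn1; push_cast; linarith only [hL', hB, hn1]), cend_rate (by clear * - n B n0 L hL' hB hn1; linarith only [hL', hB, hn1]), le_div_iff₀ (by clear * - L B n j1 j0; linarith only [j1, j0])]
  push_cast
  refine le_trans ?_ i1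
  refine le_trans (mul_le_mul_of_nonneg_left j2 (by norm_num)) ?_
  set τ := tau L⁻¹ (B - n)
  set τ' := tau L⁻¹ (B - (n + 1) - 1)
  have k1 : L⁻¹ * (xc L⁻¹ - (B - n)) ≤ 1 / 11 := by
    rw [inv_mul_le_iff₀ hL0]
    linarith only [hL', g2, hn1]
  have k2 : 1 - τ ≤ 7 / 16 := le_of_sq_le_sq (by clear * - τ L B n s1 k1; linarith only [s1, k1]) (by norm_num)
  have k3 : L⁻¹ * (xc L⁻¹ - (B - (n + 1) - 1)) ≤ L⁻¹ * (9 * (xc L⁻¹ - (B - n))) := by
    clear * - L B n g1 h3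
    gcongr
    linarith only [g1]
  have k4 : L⁻¹ * (xc L⁻¹ - (B - n)) * (9 / 16) ≤ L⁻¹ * (xc L⁻¹ - (B - n)) * τ :=
    mul_le_mul_of_nonneg_left (by clear * - τ k2 ht; linarith only [k2]) (mul_nonneg ht.le (by clear * - L B n hx ht; linarith only [hx]))
  have k5 : 1 - τ' ≤ 4 * (1 - τ) := le_of_sq_le_sq (by clear * - τ' τ L B n s0 s2 k3 k4; linarith only [s0, s2, k3, k4]) (by clear * - τ a1 τ'; linarith)
  rw [← mul_div_assoc, div_le_div_iff₀ (by clear * - τ a1; linarith) (by clear * - τ' a2; linarith)]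
  have := mul_le_mul_of_nonneg_left k5 ht.le
  clear * - L τ' τ this
  linarith only [this]

theorem cend_tau {s : ℝ} (hs : 0 < s) :
    Tendsto (fun L : ℝ => tau L⁻¹ (xc L⁻¹ - s)) atTop (nhds 1) := by
  have h1 : Tendsto (fun L : ℝ => 1 - √(2 * (L⁻¹ * s))) atTop (nhds 1) := by
    simpa using ((tendsto_inv_atTop_zero.mul_const s).const_mul 2).sqrt.const_sub 1
  refine tendsto_of_tendsto_of_tendsto_of_le_of_le' h1 tendsto_const_nhds ?_ ?_ <;>
    filter_upwards [eventually_gt_atTop 0] with L hL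
  · have h2 := (sigma_bounds (inv_pos.2 hL) (sub_lt_self (xc L⁻¹) hs)).1
    rw [sub_sub_cancel] at h2
    linarith only [h2, le_sqrt_of_sq_le h2]
  · exact (tau_spec (inv_pos.2 hL) (sub_lt_self _ hs)).2.1.le

theorem cend_sq {s : ℝ} (hs : 0 < s) :
    Tendsto (fun L : ℝ => L * (1 - tau L⁻¹ (xc L⁻¹ - s)) ^ 2) atTop (nhds (2 * s)) := by
  have h1 := (cend_tau hs).const_mul (2 * s)
  rw [mul_one] at h1
  refine tendsto_of_tendsto_of_tendsto_of_le_of_le' h1 tendsto_const_nhds ?_ ?_ <;>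
    filter_upwards [eventually_gt_atTop 0] with L hL
  · have h2 := sigma_sharp (inv_pos.2 hL) (sub_lt_self (xc L⁻¹) hs)
    rw [sub_sub_cancel] at h2
    rw [← inv_mul_le_iff₀ hL]
    linarith only [h2]
  · have h2 := (sigma_bounds (inv_pos.2 hL) (sub_lt_self (xc L⁻¹) hs)).1
    rw [sub_sub_cancel] at h2
    rw [← le_inv_mul_iff₀ hL]
    linarith only [h2]

theorem cend_sig {s : ℝ} (hs : 0 < s) :
    Tendsto (fun L : ℝ => √L * (1 - tau L⁻¹ (xc L⁻¹ - s))) atTop (nhds (√2 * √s)) := by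
  rw [← sqrt_mul zero_le_two]
  refine (cend_sq hs).sqrt.congr' ?_
  filter_upwards [eventually_gt_atTop 0] with L hL
  rw [sqrt_mul hL.le, sqrt_sq (sub_nonneg.2 (tau_spec (inv_pos.2 hL) (sub_lt_self _ hs)).2.1.le)]

theorem cend_eh {s : ℝ} (hs : 0 < s) : Tendsto (fun L : ℝ => eh L⁻¹ (xc L⁻¹ - s) ^ (1 / 3 : ℝ))
    atTop (nhds ((2 * s) ^ (-(1 / 3) : ℝ))) := by
  rw [rpow_neg (by positivity), ← inv_rpow (by positivity), ← one_div (2 * s)]
  refine Tendsto.rpow_const (((cend_tau hs).div (cend_sq hs) (by positivity)).congr fun L => ?_)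
    (Or.inr (by norm_num))
  rw [eh, Pi.div_apply, div_mul_eq_div_div, div_eq_inv_mul _ L]

/-- the rescaled rate as a function of `L` alone -/
noncomputable def cend_G (n : ℕ) (L : ℝ) : ℝ :=
  √L * L⁻¹ + √L * (1 - tau L⁻¹ (xc L⁻¹ - (n + 2))) - √L * (1 - tau L⁻¹ (xc L⁻¹ - (n + 1)))

theorem cend_F (n : ℕ) : Tendsto (cend_G n) atTop (nhds (√2 * (√(n + 2) - √(n + 1)))) := by
  have h1 : Tendsto (fun L : ℝ => √L * L⁻¹) atTop (nhds 0) := by
    have h2 := (tendsto_inv_atTop_zero (𝕜 := ℝ)).sqrt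
    rw [sqrt_zero] at h2
    refine h2.congr fun L => ?_
    rw [sqrt_inv, ← div_eq_mul_inv, sqrt_div_self']
    exact (one_div _).symm
  have h2 := (h1.add (cend_sig (s := n + 2) (by positivity))).sub
    (cend_sig (s := n + 1) (by positivity))
  rwa [zero_add, ← mul_sub] at h2

theorem cend_F_eq {L : ℝ} {B n : ℕ} (hB : (B : ℝ) + 1 = xc L⁻¹) (h : (n : ℝ) ≤ B) :
    √L * rate L⁻¹ 0 B n = cend_G n L := by
  rw [cend_rate h, cend_G, Lam, Lam, show xc L⁻¹ - (n + 2) = B - n - 1 by linarith only [hB],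
    show xc L⁻¹ - (n + 1) = B - n by linarith only [hB]]
  ring

theorem cend_min {f : ℕ → ℝ} (h : ∀ j, 0 < f j) (n : ℕ) : ∃ c, 0 < c ∧ ∀ j < n, c ≤ f j := by
  induction n with
  | zero => exact ⟨1, one_pos, by simp⟩
  | succ n ih =>
    obtain ⟨c, hc, h1⟩ := ih
    refine ⟨min c (f n), lt_min hc (h n), fun j hj => ?_⟩
    rcases Nat.lt_succ_iff_lt_or_eq.1 hj with h2 | rfl
    · exact (min_le_left _ _).trans (h1 j h2)
    · exact min_le_right _ _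

theorem rate_lim (n : ℕ) {ζ : ℝ} (hζ : 0 < ζ) : ∀ᶠ L : ℝ in atTop, ∀ B : ℕ, (B : ℝ) + 1 = xc L⁻¹ →
    |√L * rate L⁻¹ 0 B n - √2 * (√(n + 2) - √(n + 1))| ≤ ζ ∧
      |bet L⁻¹ B n - (2 * (n + 1 : ℝ)) ^ (-(1 / 3) : ℝ)| ≤ ζ := by
  filter_upwards [cend_big, eventually_ge_atTop (n : ℝ),
    (Metric.tendsto_nhds.1 (cend_F n)) ζ hζ,
    (Metric.tendsto_nhds.1 (cend_eh (s := n + 1) (by positivity))) ζ hζ] with L hL hn h1 h2 B hB
  obtain ⟨-, h3⟩ := hL B ⟨by linarith only [hB], by linarith only [hB]⟩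
  rw [Real.dist_eq] at h1 h2
  refine ⟨?_, ?_⟩
  · rw [cend_F_eq hB (by linarith only [hn, h3])]
    exact h1.le
  · rw [bet, show (B : ℝ) - n = xc L⁻¹ - (n + 1) by linarith only [hB]]
    exact h2.le

theorem end_lim (n : ℕ) : ∃ u : ℝ, 0 < u ∧ ∀ ζ : ℝ, 0 < ζ → ∀ᶠ L : ℝ in atTop, ∀ B : ℕ,
    (B : ℝ) + 1 = xc L⁻¹ → |Sol (rs L⁻¹ B) 0 (dl 1) n 1 - u| ≤ ζ := by
  have hpos : ∀ i : ℕ, 0 < √2 * (√(i + 2) - √(i + 1)) := fun i =>
    mul_pos (by positivity) (sub_pos.2 (sqrt_lt_sqrt (by positivity) (by linarith)))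
  let ρ0 : ℕ → ℝ := fun i => if i = 0 then 1 else
    √2 * (√(i + 2) - √(i + 1)) / (√2 * (√((i - 1 : ℕ) + 2) - √((i - 1 : ℕ) + 1)))
  let ρ : ℝ → ℕ → ℝ := fun L i => if i = 0 then 1 else cend_G i L / cend_G (i - 1) L
  have h1 : Tendsto (fun L => Sol (ρ L) 0 (dl 1) n 1) atTop (nhds (Sol ρ0 0 (dl 1) n 1)) := by
    refine Sol_tendsto (fun j _ => ?_) 1 1
    simp only [ρ, ρ0]
    split_ifs
    · exact tendsto_const_nhds
    · exact (cend_F _).div (cend_F _) (hpos _).ne'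
  have h2 : ∀ i, 0 < ρ0 i := fun i => by
    simp only [ρ0]
    split_ifs
    · exact one_pos
    · exact div_pos (hpos _) (hpos _)
  have h3 : ∀ i, ρ0 i ≤ 1 := fun i => by
    rcases i with _ | i
    · exact le_rfl
    simp only [ρ0, Nat.add_one_ne_zero, if_false, Nat.add_sub_cancel]
    rw [div_le_one (hpos _)]
    push_cast
    rw [show (i : ℝ) + 1 + 1 = i + 2 by ring]
    have e1 := sq_sqrt (show (0 : ℝ) ≤ i + 1 + 2 by positivity)
    have e2 := sq_sqrt (show (0 : ℝ) ≤ i + 2 by positivity)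
    have e3 := sq_sqrt (show (0 : ℝ) ≤ i + 1 by positivity)
    have e4 : √(i + 1 + 2) + √(i + 1) ≤ 2 * √(i + 2) :=
      le_of_sq_le_sq (by clear * - i e1 e2 e3; linarith only [e1, e2, e3, sq_nonneg (√(i + 1 + 2) - √(i + 1)), sq_nonneg (√(↑i + (1 : ℝ) + (2 : ℝ)) - √(↑i + (1 : ℝ)))]) (by positivity)
    gcongr √2 * ?_
    linarith
  obtain ⟨c, hc, h4⟩ := cend_min h2 n
  refine ⟨_, lt_of_lt_of_le (by positivity) (Sol_dl_lower (r := ρ0) (n0 := 0) (i := n) hc.le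
    (fun j hj => ⟨by simpa using h4 j hj, h3 _⟩) le_rfl (by omega)), fun ζ hζ => ?_⟩
  filter_upwards [cend_big, eventually_ge_atTop (n : ℝ), (Metric.tendsto_nhds.1 h1) ζ hζ]
    with L hL hn h5 B hB
  obtain ⟨h6, h7⟩ := hL B ⟨by linarith only [hB], by linarith only [hB]⟩
  rw [Real.dist_eq] at h5
  rw [Sol_congr (r' := ρ L) (n1 := 0) fun j hj => ?_]
  · exact h5.le
  have h8 : (j : ℝ) < n := by exact_mod_cast hj
  have h9 : j < B := by
    have : (j : ℝ) < B := by linarith only [hn, h7, h8]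
    exact_mod_cast this
  have h10 : ((j - 1 : ℕ) : ℝ) ≤ j := by exact_mod_cast Nat.sub_le j 1
  simp only [zero_add, rs, rsA, ρ, if_pos h9]
  rw [← cend_F_eq hB (by linarith only [hn, h7, h8]), ← cend_F_eq hB (by linarith only [hn, h7, h8, h10]),
    mul_div_mul_left _ _ (sqrt_pos.2 (by linarith only [h6])).ne']

theorem end_data {η : ℝ} (hη : 0 < η) : ∃ s0 : ℕ, ∀ n0 : ℕ, s0 ≤ n0 → ∃ M D : ℝ, 0 < M ∧ 1 ≤ D ∧
    ∀ᶠ L : ℝ in atTop, ∀ B : ℕ, Gap L B →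
      (∀ q : ℕ, M * (phi (bet L⁻¹ B n0 * q) - η * gc (bet L⁻¹ B n0 * q)) ≤
        Sol (rs L⁻¹ B) 0 (dl 1) n0 q) ∧
      (∀ q : ℕ, Sol (rs L⁻¹ B) 0 (dl 1) n0 (q + 2) ≤ D * M * gc (bet L⁻¹ B n0 * (q + 1 : ℕ))) ∧
      ∀ q0 ≤ 2, ∀ q : ℕ, |Sol (rs L⁻¹ B) 0 (dl q0) n0 q| ≤ D * M * gc (bet L⁻¹ B n0 * q) := by
  obtain ⟨X, hX⟩ := phi_far hη
  obtain ⟨C, hC, H⟩ := rate_theta
  obtain ⟨C0, hC0, H0⟩ := phi_le_gc
  refine ⟨⌈C * |X| ^ 3⌉₊ + 1, fun n0 hn0 => ?_⟩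
  have hn : (0 : ℝ) ≤ n0 := n0.cast_nonneg
  have hn1 : C * |X| ^ 3 ≤ n0 + 1 := by
    have h1 : ((⌈C * |X| ^ 3⌉₊ + 1 : ℕ) : ℝ) ≤ n0 := by exact_mod_cast hn0
    push_cast at h1
    linarith only [h1, Nat.le_ceil (C * |X| ^ 3)]
  obtain ⟨m, hm, hm0⟩ : ∃ m : ℝ, m = (exp (-1) * (1 / 4) ^ (n0 + 1)) ^ n0 ∧ 0 < m :=
    ⟨_, rfl, by positivity⟩
  obtain ⟨b, hb, hb0⟩ : ∃ b : ℝ, b = C⁻¹ / (n0 + 1) ∧ 0 < b := ⟨_, rfl, by positivity⟩
  have hb1 : b ≤ 1 := by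
    rw [hb, div_le_one (by positivity)]
    linarith only [hC, inv_le_one_of_one_le₀ hC]
  obtain ⟨γ, hγ, hγ0⟩ : ∃ γ : ℝ, γ = exp (-(C * (n0 + 2))) * b / 2 ∧ 0 < γ :=
    ⟨_, rfl, by positivity⟩
  have hM : 0 < m / C0 := by positivity
  refine ⟨m / C0, max 1 (m / C0 * γ)⁻¹, hM, le_max_left _ _, ?_⟩
  filter_upwards [cend_big, H, rs_end n0, eventually_ge_atTop (n0 : ℝ)] with L hL h1 h2 h3 B hG
  obtain ⟨h4, h5⟩ := hL B hG
  have ht : 0 < L⁻¹ := inv_pos.2 (by linarith only [h4])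
  obtain ⟨-, -, h6, h7⟩ := h1 B n0 hG h3
  have hB1 : 1 ≤ B := by
    have : (1 : ℝ) ≤ B := by linarith only [h4, h5]
    exact_mod_cast this
  have hr := rs_mem ht hB1 (by linarith only [hG, hG.1])
  have hr' : ∀ j < n0, 0 ≤ rs L⁻¹ B (0 + j) ∧ rs L⁻¹ B (0 + j) ≤ 1 := fun j _ =>
    ⟨(hr _).1.le, (hr _).2⟩
  have hβ : 0 ≤ bet L⁻¹ B n0 := by
    clear * - L B n0 ht hG h4
    obtain ⟨a0, -⟩ := tau_spec ht (show (B : ℝ) - n0 < xc L⁻¹ by linarith only [hG, hG.1])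
    exact rpow_nonneg (by rw [eh]; positivity) _
  set β := bet L⁻¹ B n0
  have hβ1 : b ≤ β := by
    refine le_of_pow_le_pow_left₀ three_ne_zero hβ ((pow_le_of_le_one hb0.le hb1 three_ne_zero).trans ?_)
    rwa [hb, div_le_iff₀ (by positivity)]
  have hβ2 : β ≤ C := by
    clear * - β C hC n0 hβ h7
    refine le_of_pow_le_pow_left₀ three_ne_zero (by linarith)
      (le_trans ?_ (le_self_pow₀ hC three_ne_zero))
    exact (le_mul_of_one_le_right (by positivity) (by linarith)).trans h7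
  have hβ3 : X ≤ β * (n0 + 2) := by
    clear * - X β n0 hβ C hC hn1 h6
    refine (le_abs_self X).trans (le_of_pow_le_pow_left₀ three_ne_zero (by positivity) ?_)
    have k1 : |X| ^ 3 ≤ C⁻¹ * (n0 + 1) := by rwa [le_inv_mul_iff₀ (by linarith only [hC])]
    calc |X| ^ 3 ≤ C⁻¹ * (n0 + 1) := k1
      _ ≤ β ^ 3 * (n0 + 1) * (n0 + 1) := by gcongr
      _ = β ^ 3 * ((n0 + 1) * (n0 + 1) * 1) := by ring
      _ ≤ β ^ 3 * ((n0 + 2) * (n0 + 2) * (n0 + 2)) := by gcongr <;> linarith only []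
      _ = _ := by ring
  have hgc : ∀ q : ℕ, 0 ≤ gc (β * q) := fun q => (gc_basic.2.2 _ (by positivity)).1
  have key : ∀ q : ℕ, 1 ≤ q → q ≤ n0 + 2 → 1 ≤ max 1 (m / C0 * γ)⁻¹ * (m / C0) * gc (β * q) := by
    clear * - n0 γ β C b hγ hβ2 hC hβ1 hβ hb1 hb0 m C0 hm0 hC0 hγ0
    intro q q1 q2
    have q1' : (1 : ℝ) ≤ q := by exact_mod_cast q1
    have q2' : (q : ℝ) ≤ n0 + 2 := by exact_mod_cast q2
    have k1 : γ ≤ gc (β * q) := by
      refine le_trans ?_ (gc_basic.2.2 _ (by positivity)).2.2.2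
      rw [hγ]
      gcongr
      exact le_min (hβ1.trans (le_mul_of_one_le_right hβ q1')) hb1
    calc 1 = (m / C0 * γ)⁻¹ * (m / C0) * γ := by field_simp
      _ ≤ _ := by gcongr; exact le_max_right _ _
  have hdl : ∀ q0 q, |dl q0 q| ≤ 1 := fun q0 q => by
    rw [dl]
    split_ifs <;> simp
  have hsup : ∀ q0 q, q0 + n0 < q → Sol (rs L⁻¹ B) 0 (dl q0) n0 q = 0 := fun q0 q h =>
    Sol_supp (fun q hq => if_neg hq.ne') h
  have hD : 0 ≤ max 1 (m / C0 * γ)⁻¹ * (m / C0) := by positivity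
  refine ⟨fun q => ?_, fun q => ?_, fun q0 hq0 q => ?_⟩
  · have k0 : 0 ≤ Sol (rs L⁻¹ B) 0 (dl 1) n0 q := by
      refine (abs_nonneg _).trans (Sol_mono (r := rs L⁻¹ B) (r' := rs L⁻¹ B)
        (fun j hj => ⟨(hr' j hj).1, le_rfl, (hr' j hj).2⟩) ⟨1, hdl 1⟩ ⟨1, hdl 1⟩ (fun q => ?_) q)
      rw [dl]
      split_ifs <;> simp
    rcases Nat.eq_zero_or_pos q with rfl | q1
    · simpa [phi_spec.zero, gc_basic.2.1] using k0
    rcases le_or_gt q (n0 + 1) with q2 | q2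
    · refine le_trans ?_ (Sol_dl_lower (ρ := 1 / 4) (by norm_num)
        (fun j hj => ⟨h2 B hG _ (by omega), (hr _).2⟩) q1 q2)
      rw [← hm, div_mul_eq_mul_div, div_le_iff₀ (by linarith only [hC0])]
      have hx : 0 ≤ β * q := by positivity
      have k1 : gc (β * q) ≤ 1 := (gc_basic.2.2 _ hx).2.1.trans (exp_le_one_iff.2 (by linarith only [hx]))
      have k2 := mul_le_of_le_one_right (by linarith only [hC0] : 0 ≤ C0) k1
      have k3 := mul_nonneg hη.le (hgc q)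
      gcongr
      linarith only [k2, k3, H0, hx, (H0 _ hx).2.1]
    · refine le_trans (mul_nonpos_of_nonneg_of_nonpos hM.le (sub_nonpos.2 (hX _ ?_))) k0
      have : (n0 + 2 : ℝ) ≤ q := by exact_mod_cast q2
      exact hβ3.trans (by gcongr)
  · rcases le_or_gt (q + 2) (1 + n0) with q2 | q2
    · exact (le_abs_self _).trans ((Sol_bdd hr' (hdl 1) _).trans (key _ (by omega) (by omega)))
    · rw [hsup 1 _ q2]
      exact mul_nonneg hD (hgc _)
  · rcases Nat.eq_zero_or_pos q with rfl | q1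
    · obtain ⟨k, rfl⟩ : ∃ k, n0 = k + 1 := ⟨n0 - 1, by omega⟩
      simp [Sol, Tr, gc_basic.2.1]
    rcases le_or_gt q (q0 + n0) with q2 | q2
    · exact (Sol_bdd hr' (hdl q0) _).trans (key _ q1 (by omega))
    · rw [hsup q0 _ q2, abs_zero]
      exact mul_nonneg hD (hgc _)

end Pool.Agent.Work.MP_5391ad_co
end

-- merged part: Pool.Agent.Work.MP_5391ad_co.CAiry
section
/-! The Airy sum to precision `o(1)`. Use `asum2_B`, `asum2_J`, `asum2_symm` of `ASum2`: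
`J x = L^(1/3) B (tau x)`, `J' = eh^(2/3)` monotone, `bet n ^ 2 = eh (B - n)^(2/3)`, so
`J (B-n0-1) - J (B-n1-1) ≤ sS ≤ J (B-n0) - J (B-n1)`, and the two bounds differ by at most
`eh (B - n0)^(2/3) ≤ n0^(-2/3)`. For `0 ≤ τ ≤ 1/2`:
`(3/2) τ^(2/3) ≤ B τ ≤ (3/2) τ^(2/3) (1 - τ)^(-1/3)`; `B 1 - B τ = B (1 - τ)`, and
`σ(xc - s)^2 = 2 t s (1 + o(1))`, so `J xc - J (xc - s) → (3/2) (2 s)^(1/3)`. -/

namespace Pool.Agent.Work.MP_5391ad_co

open Real Finset Filter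

theorem cairy_B {τ : ℝ} (h0 : 0 ≤ τ) (h1 : τ < 1) :
    3 / 2 * τ ^ (2 / 3 : ℝ) ≤ asum2_B τ ∧ asum2_B τ * (1 - τ) ≤ 3 / 2 * τ ^ (2 / 3 : ℝ) := by
  have hi := asum2_int (Set.left_mem_Icc.2 zero_le_one) ⟨h0, h1.le⟩
  have hj : IntervalIntegrable (fun s : ℝ => s ^ (-(1 / 3) : ℝ)) MeasureTheory.volume 0 τ :=
    intervalIntegral.intervalIntegrable_rpow' (by norm_num)
  have e : ∫ s in (0 : ℝ)..τ, s ^ (-(1 / 3) : ℝ) = 3 / 2 * τ ^ (2 / 3 : ℝ) := by
    rw [integral_rpow (Or.inl (by norm_num)), show (-(1 / 3) + 1 : ℝ) = 2 / 3 by norm_num,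
      zero_rpow (by norm_num)]
    ring
  rw [← e, asum2_B, ← intervalIntegral.integral_mul_const]
  refine ⟨intervalIntegral.integral_mono_on h0 hj hi fun s hs => ?_,
    intervalIntegral.integral_mono_on h0 (hi.mul_const _) hj fun s hs => ?_⟩
  · exact le_mul_of_one_le_right (rpow_nonneg hs.1 _) (one_le_rpow_of_pos_of_le_one_of_nonpos
      (by linarith only [h1, hs, hs.2]) (by linarith only [hs, hs.1]) (by norm_num))
  · have h2 : 0 < 1 - s := by linarith only [h1, hs, hs.2]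
    have h3 : (1 - s) ^ (-(1 / 3) : ℝ) ≤ (1 - s) ^ (-1 : ℝ) :=
      rpow_le_rpow_of_exponent_ge h2 (by linarith only [hs, hs.1]) (by norm_num)
    rw [rpow_neg_one] at h3
    rw [asum2_f, mul_assoc]
    exact mul_le_of_le_one_right (rpow_nonneg hs.1 _) ((mul_le_mul h3 (sub_le_sub_left hs.2 1)
      (by linarith only [h1]) (by positivity)).trans_eq (inv_mul_cancel₀ h2.ne'))

theorem cairy_J {L τ θ w : ℝ} (hL : 0 < L) (h0 : 0 ≤ τ) (h1 : τ ≤ θ) (h2 : θ ≤ 1 / 2)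
    (hw : 0 ≤ w) : (w * (1 - θ) ^ 3 ≤ L * τ ^ 2 →
      3 / 2 * (w ^ (1 / 3 : ℝ) * (1 - θ)) ≤ L ^ (1 / 3 : ℝ) * asum2_B τ) ∧
    (L * τ ^ 2 ≤ w * (1 + θ) ^ 3 →
      L ^ (1 / 3 : ℝ) * asum2_B τ ≤ 3 / 2 * (w ^ (1 / 3 : ℝ) * (1 + 4 * θ))) := by
  have e1 : ∀ a : ℝ, 0 ≤ a → (w * a ^ 3) ^ (1 / 3 : ℝ) = w ^ (1 / 3 : ℝ) * a := fun a ha => by
    rw [mul_rpow hw (by positivity), ← rpow_natCast, ← rpow_mul ha]
    norm_num
  have e2 : (L * τ ^ 2) ^ (1 / 3 : ℝ) = L ^ (1 / 3 : ℝ) * τ ^ (2 / 3 : ℝ) := by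
    rw [mul_rpow hL.le (sq_nonneg τ), ← rpow_two, ← rpow_mul h0]
    norm_num
  have h3 : 0 ≤ L ^ (1 / 3 : ℝ) := by positivity
  obtain ⟨b1, b2⟩ := cairy_B h0 (by linarith only [h1, h2])
  replace b1 := mul_le_mul_of_nonneg_left b1 h3
  replace b2 := mul_le_mul_of_nonneg_left b2 h3
  refine ⟨fun h => ?_, fun h => ?_⟩
  · have h4 := rpow_le_rpow (mul_nonneg hw (pow_nonneg (by linarith only [h2]) _)) h
      (by norm_num : (0 : ℝ) ≤ 1 / 3)
    rw [e1 _ (by linarith only [h2]), e2] at h4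
    clear * - w θ L τ b1 h4
    linarith only [b1, h4]
  · have h4 := rpow_le_rpow (by positivity) h (by norm_num : (0 : ℝ) ≤ 1 / 3)
    rw [e1 _ (by clear * - θ τ h0 h1 e1 e2 h4; linarith only [h0, h1]), e2] at h4
    have h5 := mul_le_mul_of_nonneg_left (sub_le_sub_left h1 1)
      (mul_nonneg h3 (asum2_nonneg ⟨h0, by clear * - τ θ h1 h2 h0 h3; linarith only [h1, h2]⟩))
    have h6 := mul_le_mul_of_nonneg_left (show 1 + θ ≤ (1 + 4 * θ) * (1 - θ) by clear * - θ τ h0 h2 h1 hw; linarith only [h0, h2, h1, mul_nonneg_of_nonpos_of_nonpos (Mathlib.Tactic.Linarith.sub_nonpos_of_le h0) (Mathlib.Tactic.Linarith.sub_nonpos_of_le h2), mul_nonneg_of_nonpos_of_nonpos (Mathlib.Tactic.Linarith.sub_nonpos_of_le h1) (Mathlib.Tactic.Linarith.sub_nonpos_of_le h2)])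
      (rpow_nonneg hw (1 / 3))
    exact le_of_mul_le_mul_right (a := 1 - θ) (by clear * - L τ θ w b2 h4 h5 h6; linarith only [b2, h4, h5, h6]) (by clear * - θ h2; linarith only [h2])

theorem cairy_sum (g : ℝ → ℝ) (x : ℝ) (n0 b : ℕ) :
    ∑ n ∈ Ioc n0 (n0 + b), g (x - n) = ∑ i ∈ range b, g (x - (n0 + b : ℕ) + i) := by
  induction b with
  | zero => simp
  | succ b ih =>
    rw [← add_assoc, sum_Ioc_succ_top (Nat.le_add_right _ _), sum_range_succ', ih]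
    exact congrArg₂ (· + ·) (sum_congr rfl fun i _ => congrArg g (by push_cast; ring))
      (congrArg g (by push_cast; ring))

theorem airy_sharp {n0 : ℕ} {c ζ : ℝ} (h0 : 1 ≤ n0) (hc : 1 ≤ c) (hζ : 0 < ζ) :
    ∃ θ : ℝ, 0 < θ ∧ ∀ᶠ L : ℝ in atTop, ∀ B n1 : ℕ, Gap L B → n0 ≤ n1 →
      c / √L ≤ tau L⁻¹ ((B : ℝ) - n1) → tau L⁻¹ ((B : ℝ) - n1) ≤ (c + θ) / √L →
      |kap0 * sS (bet L⁻¹ B) n0 n1 - (kappa * L ^ (1 / 3 : ℝ) - kap0 * (3 / 2) *
        (c ^ (2 / 3 : ℝ) + (2 * (n0 + (xc L⁻¹ - B))) ^ (1 / 3 : ℝ)))| ≤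
        ζ + kap0 * (n0 : ℝ) ^ (-(2 / 3) : ℝ) := by
  have hk := kap0_pos
  have hn : (1 : ℝ) ≤ n0 := Nat.one_le_cast.2 h0
  have hA : 0 < c ^ (2 / 3 : ℝ) + (2 * (n0 + 2 : ℝ)) ^ (1 / 3 : ℝ) := by positivity
  obtain ⟨θ, t0, t1, t2⟩ : ∃ θ : ℝ, 0 < θ ∧ θ ≤ 1 / 2 ∧
      θ * (6 * kap0 * (c ^ (2 / 3 : ℝ) + (2 * (n0 + 2 : ℝ)) ^ (1 / 3 : ℝ))) ≤ ζ :=
    ⟨min (1 / 2) (ζ / _), lt_min one_half_pos (div_pos hζ (by positivity)), min_le_left _ _,
      (le_div_iff₀ (by positivity)).1 (min_le_right _ _)⟩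
  refine ⟨θ, t0, ?_⟩
  filter_upwards [eventually_ge_atTop (((c + θ) / θ) ^ 2),
    eventually_ge_atTop (2 * (n0 + 2) / θ ^ 2)] with L l1 l2 B n1 ⟨g1, g2⟩ hn1 c1 c2
  have hL : 0 < L := lt_of_lt_of_le (by positivity) l2
  have ht := inv_pos.2 hL
  have hq := sqrt_pos.2 hL
  have he : ∀ x, 0 ≤ eh L⁻¹ x := fun x =>
    div_nonneg (mul_nonneg ht.le (Real.sInf_nonneg fun _ h => h.1)) (sq_nonneg _)
  obtain ⟨b, rfl⟩ := Nat.exists_eq_add_of_le hn1
  have hb : (0 : ℝ) ≤ b := b.cast_nonneg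
  have e0 : sS (bet L⁻¹ B) n0 (n0 + b) = _ := (sum_congr rfl fun n _ => by
    rw [bet, ← rpow_natCast, ← rpow_mul (he _)]
    norm_num).trans (cairy_sum (fun x => eh L⁻¹ x ^ (2 / 3 : ℝ)) B n0 b)
  generalize hy : (B : ℝ) - (n0 + b : ℕ) = y at c1 c2 e0
  obtain ⟨x, hx⟩ : ∃ x, x = y + b := ⟨_, rfl⟩
  have e1 : n0 + (xc L⁻¹ - B) = xc L⁻¹ - x := by
    rw [hx, ← hy]
    push_cast
    ring
  have x1 : x < xc L⁻¹ := by clear * - x L n0 θ B hn t0 t1 g1 e1; linarith only [hn, t0, t1, g1, e1]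
  have y1 : y - 1 < xc L⁻¹ := by clear * - y L b n0 θ B x hn t0 t1 g1 hx e1; linarith only [hn, t0, t1, g1, hx, e1]
  have y2 : y < xc L⁻¹ := by clear * - y L b n0 θ B x hn t0 t1 g1 hx e1; linarith only [hn, t0, t1, g1, hx, e1]
  have S1 := (asum2_sum hL (b + 1) (y := y) (by clear * - y b L n0 θ B x hn t0 t1 g1 hx e1 hL; push_cast; linarith only [hn, t0, t1, g1, hx, e1])).1
  have S2 := (asum2_sum hL b (hx ▸ x1)).2
  rw [sum_range_succ, Nat.cast_succ, ← add_assoc, add_sub_cancel_right, ← e0, ← hx] at S1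
  rw [← e0, ← hx] at S2
  obtain ⟨a1, a2, -⟩ := tau_spec ht x1
  have a3 := asum2_symm ⟨a1.le, a2.le⟩
  obtain ⟨a4, a5, -⟩ := sigma_bounds ht x1
  have a6 := sigma_sharp ht x1
  have a7 : eh L⁻¹ x ^ (2 / 3 : ℝ) ≤ (n0 : ℝ) ^ (-(2 / 3) : ℝ) := by
    clear * - L x n0 h0 he a2 a5 θ B t0 t1 g1 e1 ht a1
    rw [rpow_neg (by positivity), ← inv_rpow (by positivity)]
    refine rpow_le_rpow (he _) ?_ (by norm_num)
    rw [eh, div_le_iff₀ (pow_pos (sub_pos.2 a2) _), le_inv_mul_iff₀ (by positivity)]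
    linarith only [a5, mul_le_mul_of_nonneg_right (show (n0 : ℝ) ≤ xc L⁻¹ - x by linarith only [t0, t1, g1, e1])
      (mul_pos ht a1).le]
  rw [mul_left_comm, le_inv_mul_iff₀ hL] at a4
  rw [mul_left_comm, mul_assoc, inv_mul_le_iff₀ hL] at a6
  have s1 : 0 ≤ 2 * (xc L⁻¹ - x) := by clear * - L x n0 θ B hn t0 t1 g1 e1; linarith only [hn, t0, t1, g1, e1]
  have s2 : 2 * (xc L⁻¹ - x) ≤ 2 * (n0 + 2) := by clear * - L x n0 B g2 e1; linarith only [g2, e1]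
  have a8 : 1 - tau L⁻¹ x ≤ θ := by
    clear * - L x θ a2 t0 n0 B l2 g2 e1 a4 hL
    rw [div_le_iff₀ (by positivity)] at l2
    exact (pow_le_pow_iff_left₀ (sub_pos.2 a2).le t0.le two_ne_zero).1
      (le_of_mul_le_mul_left (by linarith only [l2, g2, e1, a4]) hL)
  have u1 : (1 - θ) ^ 3 ≤ 1 - θ := pow_le_of_le_one (by clear * - θ t0 t1; linarith only [t0, t1]) (by clear * - θ t0; linarith) three_ne_zero
  have u2 : (1 + θ) ^ 2 ≤ (1 + θ) ^ 3 := pow_le_pow_right₀ (by clear * - θ t0; linarith) (by norm_num)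
  have u3 : 1 ≤ (1 + θ) ^ 2 := one_le_pow₀ (by clear * - θ t0; linarith)
  obtain ⟨b1, b2⟩ := cairy_J hL (sub_pos.2 a2).le a8 t1 s1
  replace b1 := b1 (le_trans (mul_le_mul_of_nonneg_left (by clear * - θ L x a8 u1 a6 b1 s1; linarith only [a8, u1]) s1) a6)
  replace b2 := b2 (a4.trans (le_mul_of_one_le_right s1 (u3.trans u2)))
  have c3 : (c + θ) / √L ≤ θ := by
    rw [div_le_comm₀ hq t0]
    exact le_sqrt_of_sq_le l1
  have c4 := alam_mono ht (sub_le_self y zero_le_one) y2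
  have c5 := (tau_spec ht y1).1.le
  rw [div_le_iff₀ hq] at c1
  have b3 := (cairy_J hL (c5.trans c4) (c2.trans c3) t1 (sq_nonneg c)).1 (by
    clear * - c L y θ hc t0 t1 c1 hL u1
    have := pow_le_pow_left₀ (by linarith only [hc, t0, t1]) c1 2
    rw [mul_pow, sq_sqrt hL.le] at this
    linarith only [this, mul_le_mul_of_nonneg_left (u1.trans (sub_le_self 1 t0.le)) (sq_nonneg c)])
  have b4 := (cairy_J hL c5 (c4.trans (c2.trans c3)) t1 (sq_nonneg c)).2 (by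
    have h1 := c4.trans c2
    rw [le_div_iff₀ hq] at h1
    have := pow_le_pow_left₀ (by positivity) (h1.trans (show _ ≤ c * (1 + θ) by
      linarith only [le_mul_of_one_le_left t0.le hc])) 2
    rw [mul_pow, mul_pow, sq_sqrt hL.le] at this
    linarith only [this, mul_le_mul_of_nonneg_left u2 (sq_nonneg c)])
  have e2 : (c ^ 2) ^ (1 / 3 : ℝ) = c ^ (2 / 3 : ℝ) := by
    clear * - c θ hc t0 t1
    rw [← rpow_natCast, ← rpow_mul (by linarith only [hc, t0, t1])]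
    norm_num
  have b5 := mul_le_mul_of_nonneg_left (rpow_le_rpow s1 s2 (by norm_num : (0 : ℝ) ≤ 1 / 3)) t0.le
  have b6 := mul_nonneg t0.le (rpow_nonneg s1 (1 / 3))
  have b7 : 0 ≤ θ * c ^ (2 / 3 : ℝ) := by positivity
  have b8 : 0 ≤ (n0 : ℝ) ^ (-(2 / 3) : ℝ) := by positivity
  rw [e2] at b3 b4
  rw [← a3, mul_sub] at b1 b2
  rw [show kappa = kap0 * asum2_B 1 by rw [asum2_one]; rfl, e1, mul_assoc, mul_assoc, ← mul_sub,
    ← mul_sub, abs_mul, abs_of_pos hk]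
  refine (mul_le_mul_of_nonneg_left (abs_le.2 ⟨?_, ?_⟩ : _ ≤ θ * (6 * (c ^ (2 / 3 : ℝ) +
    (2 * (n0 + 2 : ℝ)) ^ (1 / 3 : ℝ))) + (n0 : ℝ) ^ (-(2 / 3) : ℝ)) hk.le).trans ?_ <;> linarith only [S1, a7, b2, b4, b5, S2, b1, b3, b8, t2]

end Pool.Agent.Work.MP_5391ad_co
end
end
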