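import Pool.Agent.Work.MP_5391ad_co.CPos
import Pool.Agent.Work.MP_5391ad_co.CAiry

-- merged part: Pool.Agent.Work.MP_5391ad_co.CStart
section
/-! The start layer: an explicit approximate solution.
`block_step`: one block. `v x = √(x^2 + b^2)` is even, `0 ≤ v x - x ≤ b` for `x ≥ 0`, `|v'| ≤ 1`,
`|v''| ≤ 1/b`, `|v'''| ≤ 3/b^2`. Put `γ i = ∑_{j<i} ε j / δ ≤ e1`, `W i = Pg (i δ^2) G`,
`H i x = e^{-γ i v x} W i x`. Then `e^{-ε i k} H i (δ k)` and `F (δ k)`, `F = e^{-γ (i+1) v} W i`,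
differ by a factor between `1` and `e^{(ε i/δ) b}`; `pois_taylorW` for `F`, `pg_taylor` and `pg_add`
for `W`; `F'' - e^{-γ v} W'' = (e^{-γ v})'' W + 2 (e^{-γ v})' W'` is `O(γ (1 + 1/b) M1 / cosh)`.
The errors are bounded by multiples of `e^{-δ q}` and propagate by `Sol_exp`.
`start_approx`: choose `K ≥ 1` with `C 10 c 2M e^{K/2} e^{-K} ≤ ζ/4` (`fr_loss` for the steps after
time `K`, `e0 = 10 c e^{-K+1}`), then `b`, then `h = K/p` small, `c k = c (e^{-k h} - e^{-(k+1) h})`,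
`G 0 = Ψ`, `G (k+1) = e^{-c k v} Pg h (G k)`. The bound for `G k, (G k)'` is `M e^{K/2 + c}`,
independent of `b, p`; the bound for three derivatives is finite. Blocks end at
`i k = ⌊k h/δ^2⌋`; `|γ - c k| → 0` and `|m δ^2 - h| ≤ δ^2`; `|e^{-γ v} - e^{-c v}| ≤ |γ - c| / min γ c`,
`|Pg s G - Pg s' G| ≤ C |s - s'| M3/cosh`. So `|Sol (i p) q - G p (δ q)| ≤ ζ' e^{-δ q}`. Finish
with `fr_loss`, `fr_exp`, `fr_odd`, `pg_asym`, `StH0.small`; `S = (√(2π))⁻¹ ∫ x G p x`. -/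

namespace Pool.Agent.Work.MP_5391ad_co

open Real Finset

theorem cstart_v {b : ℝ} (hb : 0 < b) : ∃ v1 v2 v3 : ℝ → ℝ, ∀ x,
    HasDerivAt (fun x => √(x ^ 2 + b ^ 2)) (v1 x) x ∧ HasDerivAt v1 (v2 x) x ∧
      HasDerivAt v2 (v3 x) x ∧ |v1 x| ≤ 1 ∧ |v2 x| ≤ 1 / b ∧ |v3 x| ≤ 3 / b ^ 2 := by
  refine ⟨fun x => x / √(x ^ 2 + b ^ 2), fun x => b ^ 2 / √(x ^ 2 + b ^ 2) ^ 3,
    fun x => -(3 * b ^ 2 * x) / √(x ^ 2 + b ^ 2) ^ 5, fun x => ?_⟩
  have h0 : 0 < x ^ 2 + b ^ 2 := by positivity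
  have h1 : HasDerivAt (fun x => √(x ^ 2 + b ^ 2)) (x / √(x ^ 2 + b ^ 2)) x :=
    (((hasDerivAt_pow 2 x).add_const (b ^ 2)).sqrt h0.ne').congr_deriv (by
      rw [Nat.cast_ofNat, Nat.add_one_sub_one, pow_one, mul_div_mul_left _ _ two_ne_zero])
  have h2 := sq_sqrt h0.le
  have h3 : |x| ≤ √(x ^ 2 + b ^ 2) := abs_le_sqrt (by linarith only [sq_nonneg b])
  have h4 : b ≤ √(x ^ 2 + b ^ 2) := le_sqrt_of_sq_le (by linarith only [sq_nonneg x])
  have h5 : 0 < √(x ^ 2 + b ^ 2) := sqrt_pos.2 h0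
  have h6 := (hasDerivAt_id' x).fun_div h1 h5.ne'
  have h7 := (hasDerivAt_const x (b ^ 2)).fun_div (h1.fun_pow 3) (pow_pos h5 3).ne'
  beta_reduce
  generalize √(x ^ 2 + b ^ 2) = v at *
  refine ⟨h1, h6.congr_deriv ?_, h7.congr_deriv ?_, ?_, ?_, ?_⟩
  · field_simp
    linarith only [h2]
  · field_simp
    push_cast
    ring
  · rw [abs_div, abs_of_pos h5, div_le_one h5]
    exact h3
  · rw [abs_of_pos (by positivity), div_le_div_iff₀ (by positivity) hb, one_mul, ← pow_succ]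
    exact pow_le_pow_left₀ hb.le h4 3
  · rw [abs_div, abs_neg, abs_mul, abs_of_pos (pow_pos h5 5),
      abs_of_pos (by positivity : 0 < 3 * b ^ 2), div_le_div_iff₀ (by positivity) (by positivity)]
    calc 3 * b ^ 2 * |x| * b ^ 2 = 3 * (b ^ 4 * |x|) := by ring
      _ ≤ 3 * (v ^ 4 * v) := by gcongr
      _ = 3 * v ^ 5 := by ring

theorem cstart_E {b γ : ℝ} (hb : 0 < b) (hb1 : b ≤ 1) (hγ : 0 ≤ γ) : ∃ E1 E2 E3 : ℝ → ℝ, ∀ x,
    HasDerivAt (fun x => exp (-(γ * √(x ^ 2 + b ^ 2)))) (E1 x) x ∧ HasDerivAt E1 (E2 x) x ∧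
      HasDerivAt E2 (E3 x) x ∧ |E1 x| ≤ γ ∧ |E2 x| ≤ γ * (1 + γ) / b ∧
      |E3 x| ≤ (1 + γ) ^ 3 / b ^ 2 := by
  obtain ⟨v1, v2, v3, hv⟩ := cstart_v hb
  refine ⟨fun x => exp (-(γ * √(x ^ 2 + b ^ 2))) * -(γ * v1 x),
    fun x => exp (-(γ * √(x ^ 2 + b ^ 2))) * (γ ^ 2 * v1 x ^ 2 - γ * v2 x),
    fun x => exp (-(γ * √(x ^ 2 + b ^ 2))) *
      (3 * γ ^ 2 * (v1 x * v2 x) - γ ^ 3 * v1 x ^ 3 - γ * v3 x), fun x => ?_⟩
  obtain ⟨d1, d2, d3, b1, b2, b3⟩ := hv x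
  have e1 := (d1.const_mul γ).fun_neg.exp
  have hE : ∀ {a A : ℝ}, |a| ≤ A → |exp (-(γ * √(x ^ 2 + b ^ 2))) * a| ≤ A := fun h => by
    rw [abs_mul, abs_of_pos (exp_pos _)]
    exact (mul_le_of_le_one_left (abs_nonneg _)
      (exp_le_one_iff.2 (neg_nonpos.2 (by positivity)))).trans h
  have u1 : 1 ≤ 1 / b := one_le_one_div hb hb1
  refine ⟨e1, (e1.fun_mul (d2.const_mul γ).fun_neg).congr_deriv (by ring),
    (e1.fun_mul (((d2.fun_pow 2).const_mul (γ ^ 2)).fun_sub (d3.const_mul γ))).congr_deriv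
      (by push_cast; ring), hE ?_, hE ?_, hE ?_⟩
  · rw [abs_neg, abs_mul, abs_of_nonneg hγ]
    exact mul_le_of_le_one_right hγ b1
  · refine (abs_sub _ _).trans ?_
    rw [abs_mul, abs_mul, abs_pow, abs_pow, abs_of_nonneg hγ]
    calc γ ^ 2 * |v1 x| ^ 2 + γ * |v2 x| ≤ γ ^ 2 * (1 / b) + γ * (1 / b) := by
          gcongr
          exact (pow_le_one₀ (abs_nonneg _) b1).trans u1
      _ = γ * (1 + γ) / b := by ring
  · refine (abs_sub _ _).trans ((add_le_add_left (abs_sub _ _) _).trans ?_)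
    simp only [abs_mul, abs_pow, abs_of_nonneg hγ, Nat.abs_ofNat]
    have u2 : 1 / b ≤ (1 / b) ^ 2 := by linarith only [u1, mul_nonneg_of_nonpos_of_nonpos (Mathlib.Tactic.Linarith.sub_nonpos_of_le u1) (Mathlib.Tactic.Linarith.sub_nonpos_of_le u1)]
    calc 3 * γ ^ 2 * (|v1 x| * |v2 x|) + γ ^ 3 * |v1 x| ^ 3 + γ * |v3 x|
        ≤ 3 * γ ^ 2 * (1 * (1 / b) ^ 2) + γ ^ 3 * (1 / b) ^ 2 + γ * (3 / b ^ 2) := by
          clear * - γ v1 x v2 b v3 b1 b2 u2 u1 hγ b3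
          gcongr
          · exact b2.trans u2
          · exact (pow_le_one₀ (abs_nonneg _) b1).trans (u1.trans u2)
      _ = ((1 + γ) ^ 3 - 1) / b ^ 2 := by ring
      _ ≤ (1 + γ) ^ 3 / b ^ 2 := by
          gcongr
          exact sub_le_self _ zero_le_one

theorem cstart_nn {M : ℝ} {f : ℝ → ℝ} (h : Wb M f) : 0 ≤ M := by
  simpa using (abs_nonneg _).trans (h 0)

theorem cstart_wm {M M' : ℝ} {f : ℝ → ℝ} (h : Wb M f) (hM : M ≤ M') : Wb M' f :=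
  fun x => (h x).trans (div_le_div_of_nonneg_right hM (cosh_pos x).le)

theorem cstart_wle {M : ℝ} {f : ℝ → ℝ} (h : Wb M f) (x : ℝ) : |f x| ≤ M :=
  (h x).trans (div_le_self (cstart_nn h) (one_le_cosh x))

theorem cstart_wadd {M M' : ℝ} {f g : ℝ → ℝ} (h : Wb M f) (h' : Wb M' g) :
    Wb (M + M') fun x => f x + g x :=
  fun x => (abs_add_le _ _).trans (by rw [add_div]; exact add_le_add (h x) (h' x))

theorem cstart_wmul {A M : ℝ} {a f : ℝ → ℝ} (ha : ∀ x, |a x| ≤ A) (h : Wb M f) :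
    Wb (A * M) fun x => a x * f x := fun x => by
  rw [abs_mul, mul_div_assoc]
  exact mul_le_mul (ha x) (h x) (abs_nonneg _) ((abs_nonneg _).trans (ha x))

theorem cstart_cosh (x : ℝ) : 1 / cosh x ≤ 2 * exp (-x) := by
  rw [div_le_iff₀ (cosh_pos x), cosh_eq]
  have h := exp_pos (-x)
  have h1 : exp (-x) * exp x = 1 := by rw [← exp_add, neg_add_cancel, exp_zero]
  linarith only [h1, sq_nonneg (exp (-x)), sq_nonneg (rexp (-x))]

theorem cstart_wexp {M : ℝ} {f : ℝ → ℝ} (h : Wb M f) (x : ℝ) : |f x| ≤ 2 * M * exp (-x) := by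
  have h1 := mul_le_mul_of_nonneg_left (cstart_cosh x) (cstart_nn h)
  rw [mul_one_div] at h1
  linarith only [h1, h, h x]

theorem cstart_le_one {γ : ℝ} (hγ : 0 ≤ γ) (y : ℝ) : |exp (-(γ * √y))| ≤ 1 := by
  rw [abs_of_pos (exp_pos _)]
  exact exp_le_one_iff.2 (neg_nonpos.2 (by positivity))

theorem damp_odd3 {G G1 G2 G3 : ℝ → ℝ} {M1 M3 b γ : ℝ} (h : Odd3 G G1 G2 G3) (hb : 0 < b)
    (hb1 : b ≤ 1) (hγ : 0 ≤ γ) (h0 : Wb M1 G) (h1 : Wb M1 G1) (h2 : Wb M3 G2) (h3 : Wb M3 G3)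
    (hM : M1 ≤ M3) : ∃ F1 F2 F3 : ℝ → ℝ,
      Odd3 (fun x => exp (-(γ * √(x ^ 2 + b ^ 2))) * G x) F1 F2 F3 ∧
      Wb M1 (fun x => exp (-(γ * √(x ^ 2 + b ^ 2))) * G x) ∧ Wb ((1 + γ) * M1) F1 ∧
      Wb (20 * (1 + γ) ^ 3 / b ^ 2 * M3) F2 ∧ Wb (20 * (1 + γ) ^ 3 / b ^ 2 * M3) F3 ∧
      Wb (4 * γ * (1 + γ) / b * M1)
        (fun x => F2 x - exp (-(γ * √(x ^ 2 + b ^ 2))) * G2 x) := by
  obtain ⟨E1, E2, E3, hE⟩ := cstart_E hb hb1 hγ
  have e0 := fun x : ℝ => cstart_le_one hγ (x ^ 2 + b ^ 2)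
  have e1 := fun x => (hE x).2.2.2.1
  have e2 := fun x => (hE x).2.2.2.2.1
  have e3 := fun x => (hE x).2.2.2.2.2
  have hk : ∀ (k : ℝ) {a : ℝ → ℝ} {A : ℝ}, 0 ≤ k → (∀ x, |a x| ≤ A) → ∀ x, |k * a x| ≤ k * A :=
    fun k a A hk ha x => by
      rw [abs_mul, abs_of_nonneg hk]
      exact mul_le_mul_of_nonneg_left (ha x) hk
  have m1 := cstart_nn h0
  have m3 := m1.trans hM
  have u1 : 1 ≤ 1 / b := one_le_one_div hb hb1
  have u2 : γ ≤ γ * (1 + γ) / b := by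
    rw [div_eq_mul_one_div]
    linarith only [u1, hγ, mul_nonneg hγ hγ, mul_self_nonneg γ, mul_nonneg_of_nonpos_of_nonpos (Mathlib.Tactic.Linarith.sub_nonpos_of_le (mul_self_nonneg γ)) (Mathlib.Tactic.Linarith.sub_nonpos_of_le u1), mul_nonneg_of_nonpos_of_nonpos (Mathlib.Tactic.Linarith.sub_nonpos_of_le hγ) (Mathlib.Tactic.Linarith.sub_nonpos_of_le u1)]
  have u3 : γ * (1 + γ) / b ≤ (1 + γ) ^ 3 / b ^ 2 := by
    clear * - γ b hγ hb hb1
    refine div_le_div₀ (by positivity) ?_ (by positivity) (by nlinarith)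
    linarith only [hγ, mul_nonneg hγ hγ, mul_nonneg hγ (mul_nonneg hγ hγ), mul_self_nonneg γ]
  have u4 : 1 ≤ (1 + γ) ^ 3 / b ^ 2 := (one_le_div (by positivity)).2
    ((pow_le_one₀ hb.le hb1).trans (one_le_pow₀ (by linarith only [hγ])))
  have w2 := cstart_wadd (cstart_wmul e2 h0) (cstart_wmul (hk 2 two_pos.le e1) h1)
  refine ⟨fun x => E1 x * G x + exp (-(γ * √(x ^ 2 + b ^ 2))) * G1 x,
    fun x => E2 x * G x + 2 * E1 x * G1 x + exp (-(γ * √(x ^ 2 + b ^ 2))) * G2 x,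
    fun x => E3 x * G x + 3 * E2 x * G1 x + 3 * E1 x * G2 x + exp (-(γ * √(x ^ 2 + b ^ 2))) * G3 x,
    ⟨fun x => by rw [h.odd, neg_sq, mul_neg], fun x => (hE x).1.fun_mul (h.d1 x), fun x => ?_,
      fun x => ?_⟩, cstart_wm (cstart_wmul e0 h0) (one_mul _).le,
    cstart_wm (cstart_wadd (cstart_wmul e1 h0) (cstart_wmul e0 h1)) (le_of_eq (by ring)),
    cstart_wm (cstart_wadd w2 (cstart_wmul e0 h2)) ?_,
    cstart_wm (cstart_wadd (cstart_wadd (cstart_wadd (cstart_wmul e3 h0)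
      (cstart_wmul (hk 3 three_pos.le e2) h1)) (cstart_wmul (hk 3 three_pos.le e1) h2))
      (cstart_wmul e0 h3)) ?_, fun x => ?_⟩
  · exact (((hE x).2.1.fun_mul (h.d1 x)).fun_add ((hE x).1.fun_mul (h.d2 x))).congr_deriv (by ring)
  · exact ((((hE x).2.2.1.fun_mul (h.d1 x)).fun_add
      (((hE x).2.1.const_mul 2).fun_mul (h.d2 x))).fun_add
      ((hE x).1.fun_mul (h.d3 x))).congr_deriv (by ring)
  · rw [mul_div_assoc 20]
    generalize (1 + γ) ^ 3 / b ^ 2 = N at *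
    generalize γ * (1 + γ) / b = N' at *
    clear * - N' M1 γ M3 N hM m1 u3 u4 u2 m3
    linarith only [hM, m1, u3, u4, u2, m3, mul_le_mul u3 hM m1 (by linarith), mul_le_mul (u2.trans u3) hM m1 (by linarith),
      mul_le_mul_of_nonneg_right u4 m3]
  · rw [mul_div_assoc 20]
    generalize (1 + γ) ^ 3 / b ^ 2 = N at *
    generalize γ * (1 + γ) / b = N' at *
    clear * - N M1 N' γ M3 hM m1 u3 u4 u2 m3
    linarith only [hM, m1, u3, u4, u2, m3, mul_le_mul u3 hM m1 (by linarith), mul_le_mul_of_nonneg_right (u2.trans u3) m3,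
      mul_le_mul_of_nonneg_right u4 m3, mul_le_mul_of_nonneg_left hM (by linarith : 0 ≤ N)]
  · simp only [add_sub_cancel_right]
    refine cstart_wm w2 ?_ x
    rw [mul_assoc 4, mul_div_assoc 4]
    generalize γ * (1 + γ) / b = N' at *
    clear * - N' M1 γ u2 m1 hγ
    linarith only [u2, m1, hγ, mul_le_mul_of_nonneg_right u2 m1, mul_nonneg (hγ.trans u2) m1]

theorem cstart_bdd {A δ : ℝ} {f : ℕ → ℝ} (hδ : 0 ≤ δ) (h : ∀ q, |f q| ≤ A * exp (-(δ * q))) :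
    0 ≤ A ∧ Bdd f := by
  have h0 : 0 ≤ A := by simpa using (abs_nonneg _).trans (h 0)
  exact ⟨h0, A, fun q => (h q).trans
    (mul_le_of_le_one_right h0 (exp_le_one_iff.2 (neg_nonpos.2 (by positivity))))⟩

theorem cstart_sol {r f g : ℕ → ℝ} {n0 i : ℕ} {δ A : ℝ} (hδ : 0 ≤ δ)
    (hr : ∀ j < i, 0 ≤ r (n0 + j) ∧ r (n0 + j) ≤ 1) (hg : Bdd g)
    (h : ∀ q, |f q - g q| ≤ A * exp (-(δ * q))) (q : ℕ) :
    |Sol r n0 f i q - Sol r n0 g i q| ≤ A * exp (i * δ ^ 2 / 2) * exp (-(δ * q)) := by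
  have h1 := Sol_lin hr (cstart_bdd hδ h).2 hg 1 1 q
  simp only [one_mul, sub_add_cancel] at h1
  rw [show Sol r n0 f i q = _ from h1, add_sub_cancel_right]
  exact Sol_exp hδ hr h q

theorem cstart_gap {η x y b : ℝ} (hη : 0 ≤ η) (hx : 0 ≤ x) (h1 : x ≤ y) (h2 : y ≤ x + b) :
    |exp (-(η * x)) - exp (-(η * y))| ≤ η * b := by
  have e1 : exp (-(η * x)) ≤ 1 := exp_le_one_iff.2 (neg_nonpos.2 (by positivity))
  have e2 : exp (-(η * y)) = exp (-(η * x)) * exp (-(η * (y - x))) := by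
    rw [← exp_add]
    congr 1
    ring
  have e3 := add_one_le_exp (-(η * (y - x)))
  have e4 := exp_pos (-(η * x))
  have e5 : η * (y - x) ≤ η * b := mul_le_mul_of_nonneg_left (by linarith) hη
  have e6 : 0 ≤ η * (y - x) := mul_nonneg hη (by linarith)
  rw [abs_of_nonneg (sub_nonneg.2 (exp_le_exp.2 (by linarith only [e6]))), e2]
  linarith only [e5, e1, e6, e3, e4, mul_nonneg_of_nonpos_of_nonpos (Mathlib.Tactic.Linarith.sub_nonpos_of_le e1) (Mathlib.Tactic.Linarith.sub_nonpos_of_le e6), mul_nonneg_of_nonpos_of_nonpos (Mathlib.Tactic.Linarith.sub_nonpos_of_le e3) (le_of_lt (Mathlib.Tactic.Linarith.sub_neg_of_lt e4))]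

theorem cstart_step : ∃ C : ℝ, 0 ≤ C ∧ ∀ (W W1 W2 W3 : ℝ → ℝ) (M1 M3 b δ γ ε e1 A : ℝ)
    (f : ℕ → ℝ), Odd3 W W1 W2 W3 → Wb M1 W → Wb M1 W1 → Wb M3 W2 → Wb M3 W3 → M1 ≤ M3 → 0 < b →
    b ≤ 1 → 0 < δ → δ ≤ 1 → 0 ≤ γ → 0 ≤ ε → γ + ε / δ ≤ e1 → e1 ≤ 1 →
    (∀ k : ℕ, |f k - exp (-(γ * √((δ * k) ^ 2 + b ^ 2))) * W (δ * k)| ≤ A * exp (-(δ * k))) →
    ∀ q : ℕ, |Tr (exp (-ε)) f q -
      exp (-((γ + ε / δ) * √((δ * q) ^ 2 + b ^ 2))) * Pg (δ ^ 2) W (δ * q)| ≤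
      (A + C * (ε / δ * b * M1 + δ ^ 2 * e1 / b * M1 + δ ^ 3 / b ^ 2 * M3)) * exp (δ ^ 2 / 2) *
        exp (-(δ * q)) := by
  obtain ⟨Cp, Cp0, hp⟩ := pois_taylorW
  obtain ⟨Cg, Cg0, hg⟩ := pg_taylor
  refine ⟨8 + 160 * Cp + 2 * Cg, by positivity,
    fun W W1 W2 W3 M1 M3 b δ γ ε e1 A f h w0 w1 w2 w3 hM hb hb1 hδ hδ1 hγ hε he he1 hf q => ?_⟩
  have m1 := cstart_nn w0
  have m3 := m1.trans hM
  have hA := (cstart_bdd hδ.le hf).1
  have hη : 0 ≤ ε / δ := by positivity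
  have e0 : 0 ≤ e1 := by linarith only [hγ, he, hη]
  rcases q with _ | q
  · have h0 : Pg (δ ^ 2) W 0 = 0 := by
      have h1 := (pg_odd3 (s := δ ^ 2) h fun x => ⟨(cstart_wle w0 x).trans hM,
        (cstart_wle w1 x).trans hM, cstart_wle w2 x, cstart_wle w3 x⟩).odd 0
      rw [neg_zero] at h1
      linarith only [h1]
    rw [Tr, Nat.cast_zero, mul_zero, h0, mul_zero, sub_zero, abs_zero]
    clear * - A Cp Cg ε δ b M1 e1 M3 hA Cp0 Cg0 hε hδ hb m1 e0 m3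
    positivity
  obtain ⟨F1, F2, F3, hF, f0, -, -, f3, f4⟩ :=
    damp_odd3 h hb hb1 (add_nonneg hγ hη) w0 w1 w2 w3 hM
  have u1 : 1 ≤ 1 / b ^ 2 := one_le_one_div (by positivity) (pow_le_one₀ hb.le hb1)
  have f3' : Wb (160 / b ^ 2 * M3) F3 := cstart_wm f3 (by
    clear * - γ ε δ hγ hε hδ e1 he he1 M3 b hb m3
    have : (1 + (γ + ε / δ)) ^ 3 ≤ 2 ^ 3 := pow_le_pow_left₀ (by positivity) (by linarith only [he, he1]) 3
    gcongr
    linarith only [this])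
  have k1 := hp _ F1 F2 F3 (160 / b ^ 2 * M3) δ hδ hδ1 hF.d1 hF.d2 hF.d3 (fun x =>
    (cstart_wle f0 x).trans (by clear * - M1 b M3 hM m1 u1 f0 f3' q x; rw [div_eq_mul_one_div]; linarith only [hM, m1, u1, mul_nonneg_of_nonpos_of_nonpos (Mathlib.Tactic.Linarith.sub_nonpos_of_le hM) (Mathlib.Tactic.Linarith.sub_nonpos_of_le u1), mul_nonneg_of_nonpos_of_nonpos (Mathlib.Tactic.Linarith.sub_nonpos_of_le m1) (Mathlib.Tactic.Linarith.sub_nonpos_of_le u1)])) f3' q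
  have k2 := (hg W W1 W2 W3 M3 (δ ^ 2) (by positivity) (pow_le_one₀ hδ.le hδ1) h.d1 h.d2 h.d3
    fun x => (cstart_wle w0 x).trans hM).2 w3 (δ * (q + 1))
  have k3 := cstart_wexp f4 (δ * (q + 1))
  have k4 := cstart_sol (r := fun _ => 1) (n0 := 0) (i := 1) (f := fun k => exp (-ε) ^ k * f k)
    (g := fun k => exp (-((γ + ε / δ) * √((δ * k) ^ 2 + b ^ 2))) * W (δ * k))
    (A := A + 2 * (ε / δ * b * M1)) hδ.le (fun _ _ => ⟨zero_le_one, le_rfl⟩)
    ⟨M1, fun k => cstart_wle f0 _⟩ (fun k => by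
      clear * - δ k hδ ε hε b hη hb f γ W A M1 hγ w0 hf q
      have x0 : 0 ≤ δ * k := by positivity
      have r1 : exp (-ε) ^ k = exp (-(ε / δ * (δ * k))) := by
        rw [← exp_nat_mul]
        congr 1
        field_simp
      have r2 : |exp (-ε) ^ k| ≤ 1 := by
        rw [abs_of_pos (by positivity)]
        exact pow_le_one₀ (exp_pos _).le (exp_le_one_iff.2 (neg_nonpos.2 hε))
      have r3 := cstart_gap hη x0 (y := √((δ * k) ^ 2 + b ^ 2)) (b := b)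
        (le_sqrt_of_sq_le (by linarith only [sq_nonneg b])) (sqrt_le_iff.2 ⟨by positivity, by linarith only [hb, x0, mul_nonneg_of_nonpos_of_nonpos (le_of_lt (Mathlib.Tactic.Linarith.sub_neg_of_lt hb)) (Mathlib.Tactic.Linarith.sub_nonpos_of_le x0)]⟩)
      rw [add_mul γ, neg_add, exp_add, ← r1] at *
      have r4 := mul_le_mul (mul_le_mul r3 (cstart_le_one hγ ((δ * k) ^ 2 + b ^ 2)) (abs_nonneg _)
        (by positivity)) (cstart_wexp w0 (δ * k)) (abs_nonneg _) (by positivity)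
      have r5 := mul_le_mul r2 (hf k) (abs_nonneg _) zero_le_one
      rw [← abs_mul, ← abs_mul] at r4
      rw [← abs_mul] at r5
      refine le_trans (le_of_eq ?_) ((abs_add_le _ _).trans ((add_le_add r4 r5).trans_eq ?_))
      · congr 1
        ring
      · ring) (q + 1)
  rw [Nat.cast_one, one_mul] at k4
  simp only [Sol, Tr, one_pow, one_mul, Nat.cast_succ] at k4 ⊢
  rw [sqrt_sq hδ.le] at k2
  have k5 := mul_le_mul (cstart_le_one (add_nonneg hγ hη) ((δ * (q + 1)) ^ 2 + b ^ 2))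
    (k2.trans ((div_eq_mul_one_div _ _).trans_le (mul_le_mul_of_nonneg_left (cstart_cosh _)
      (by positivity)))) (abs_nonneg _) zero_le_one
  have k6 : δ ^ 2 / 2 * |F2 (δ * (q + 1)) - exp (-((γ + ε / δ) * √((δ * (q + 1)) ^ 2 + b ^ 2))) *
      W2 (δ * (q + 1))| ≤ δ ^ 2 / 2 * (2 * (4 * e1 * 2 / b * M1) * exp (-(δ * (q + 1)))) := by
    clear * - δ F2 q γ ε b W2 e1 M1 k3 he he1 hγ hε hδ e0 hb m1
    refine mul_le_mul_of_nonneg_left (k3.trans ?_) (by positivity)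
    gcongr
    linarith only [he, he1]
  rw [← abs_of_pos (show 0 < δ ^ 2 / 2 by positivity), ← abs_mul, abs_of_pos
    (show 0 < δ ^ 2 / 2 by positivity)] at k6
  rw [← abs_mul, ← abs_neg] at k5
  have k7 : 1 ≤ exp (δ ^ 2 / 2) := one_le_exp (by positivity)
  refine le_trans (le_of_eq ?_) (((abs_add_le _ _).trans (add_le_add ((abs_add_le _ _).trans
    (add_le_add ((abs_add_le _ _).trans (add_le_add k4 k1)) k6)) k5)).trans ?_)
  · congr 1
    ring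
  · have p1 : 0 ≤ ε / δ * b * M1 := by positivity
    have p2 : 0 ≤ δ ^ 2 * e1 / b * M1 := by positivity
    have p3 : δ ^ 3 * M3 ≤ δ ^ 3 / b ^ 2 * M3 := by
      rw [div_eq_mul_one_div]
      exact mul_le_mul_of_nonneg_right (le_mul_of_one_le_right (by positivity) u1) m3
    have p4 : 0 ≤ δ ^ 3 * M3 := by positivity
    generalize exp (δ ^ 2 / 2) = u at *
    have p5 := exp_pos (-(δ * (q + 1)))
    generalize exp (-(δ * (q + 1))) = E at *
    calc _ = ((A + 2 * (ε / δ * b * M1)) * u + (160 * Cp * (δ ^ 3 / b ^ 2 * M3) +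
          8 * (δ ^ 2 * e1 / b * M1) + 2 * Cg * (δ ^ 3 * M3)) * 1) * E := by ring
      _ ≤ ((A + 2 * (ε / δ * b * M1)) * u + (160 * Cp * (δ ^ 3 / b ^ 2 * M3) +
          8 * (δ ^ 2 * e1 / b * M1) + 2 * Cg * (δ ^ 3 / b ^ 2 * M3)) * u) * E := by clear * - E A ε δ b M1 u Cp M3 e1 Cg p3 Cg0 k7 Cp0 hδ hb m3 e0 m1 p5; gcongr
      _ ≤ _ := by
        clear * - A ε δ b M1 u Cp M3 e1 Cg E p4 p3 p1 Cp0 p2 Cg0 k7 p5
        rw [← add_mul]
        refine mul_le_mul_of_nonneg_right (mul_le_mul_of_nonneg_right ?_ (by linarith only [k7])) p5.le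
        replace p4 := p4.trans p3
        generalize ε / δ * b * M1 = X at *
        generalize δ ^ 2 * e1 / b * M1 = Y at *
        generalize δ ^ 3 / b ^ 2 * M3 = Z at *
        linarith only [p1, p4, Cp0, p2, Cg0, mul_nonneg Cp0 p1, mul_nonneg Cp0 p2, mul_nonneg Cg0 p1, mul_nonneg Cg0 p2]

theorem cstart_two {s : ℝ} (hs : s ≤ 1) : exp (s / 2) ≤ 2 := by
  have h1 : exp (s / 2) ^ 2 ≤ 2 ^ 2 := by
    rw [← exp_nat_mul]
    exact (exp_le_exp.2 (by push_cast; linarith only [hs])).trans (exp_one_lt_d9.le.trans (by norm_num))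
  exact le_of_sq_le_sq h1 two_pos.le

theorem cstart_pg {s M : ℝ} {f : ℝ → ℝ} (h0 : 0 ≤ s) (h1 : s ≤ 1) (h : Wb M f) :
    Wb (2 * M) (Pg s f) :=
  cstart_wm (pg_wb h0 h) (by linarith only [h1, h, cstart_two h1, cstart_nn h, mul_nonneg_of_nonpos_of_nonpos (Mathlib.Tactic.Linarith.sub_nonpos_of_le (cstart_two h1)) (Mathlib.Tactic.Linarith.sub_nonpos_of_le (cstart_nn h))])

theorem cstart_all {M1 M3 : ℝ} {G G1 G2 G3 : ℝ → ℝ} (w0 : Wb M1 G) (w1 : Wb M1 G1) (w2 : Wb M3 G2)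
    (w3 : Wb M3 G3) (hM : M1 ≤ M3) (x : ℝ) :
    |G x| ≤ M3 ∧ |G1 x| ≤ M3 ∧ |G2 x| ≤ M3 ∧ |G3 x| ≤ M3 :=
  ⟨(cstart_wle w0 x).trans hM, (cstart_wle w1 x).trans hM, cstart_wle w2 x, cstart_wle w3 x⟩

theorem cstart_meas {G G1 G2 G3 : ℝ → ℝ} (h : Odd3 G G1 G2 G3) : Measurable G :=
  (continuous_iff_continuousAt.2 fun x => (h.d1 x).continuousAt).measurable

theorem block_step : ∃ C : ℝ, 0 ≤ C ∧ ∀ (G G1 G2 G3 : ℝ → ℝ) (M1 M3 b δ e1 : ℝ) (m : ℕ)
    (ε : ℕ → ℝ), Odd3 G G1 G2 G3 → Wb M1 G → Wb M1 G1 → Wb M3 G2 → Wb M3 G3 → M1 ≤ M3 → 0 < b →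
    b ≤ 1 → 0 < δ → δ ≤ 1 → m * δ ^ 2 ≤ 1 → (∀ j < m, 0 ≤ ε j) →
    ∑ j ∈ range m, ε j / δ ≤ e1 → e1 ≤ 1 → ∀ q : ℕ,
    |Sol (fun j => exp (-ε j)) 0 (fun k => G (δ * k)) m q -
      exp (-((∑ j ∈ range m, ε j / δ) * √((δ * q) ^ 2 + b ^ 2))) * Pg (m * δ ^ 2) G (δ * q)| ≤
      C * (e1 * b * M1 + m * δ ^ 2 * e1 / b * M1 + m * δ ^ 3 / b ^ 2 * M3) * exp (-(δ * q)) := by
  obtain ⟨C, C0, hC⟩ := cstart_step
  refine ⟨4 * C, by positivity,
    fun G G1 G2 G3 M1 M3 b δ e1 m ε h w0 w1 w2 w3 hM hb hb1 hδ hδ1 hm hε he he1 => ?_⟩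
  have m1 := cstart_nn w0
  have m3 := m1.trans hM
  have hs : ∀ i ≤ m, 0 ≤ ∑ j ∈ range i, ε j / δ := fun i hi => sum_nonneg fun j hj =>
    div_nonneg (hε j ((mem_range.1 hj).trans_le hi)) hδ.le
  have e0 := (hs m le_rfl).trans he
  have key : ∀ i ≤ m, ∀ q : ℕ, |Sol (fun j => exp (-ε j)) 0 (fun k => G (δ * k)) i q -
      exp (-((∑ j ∈ range i, ε j / δ) * √((δ * q) ^ 2 + b ^ 2))) * Pg (i * δ ^ 2) G (δ * q)| ≤
      C * ((∑ j ∈ range i, ε j / δ) * b * (2 * M1) + i * (δ ^ 2 * e1 / b * (2 * M1)) +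
        i * (δ ^ 3 / b ^ 2 * (2 * M3))) * exp (i * δ ^ 2 / 2) * exp (-(δ * q)) := by
    intro i
    induction i with
    | zero => simp [Sol, pg_zero]
    | succ i ih =>
      intro hi q
      have s0 : 0 ≤ i * δ ^ 2 := by positivity
      have s1 : i * δ ^ 2 ≤ 1 := le_trans (by gcongr; omega) hm
      have h1 := hC _ _ _ _ (2 * M1) (2 * M3) b δ _ (ε i) e1 _ _
        (pg_odd3 (s := i * δ ^ 2) h (cstart_all w0 w1 w2 w3 hM)) (cstart_pg s0 s1 w0)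
        (cstart_pg s0 s1 w1) (cstart_pg s0 s1 w2) (cstart_pg s0 s1 w3) (by linarith only [hM]) hb hb1 hδ hδ1
        (hs i (by omega)) (hε i hi) (by
          rw [← sum_range_succ fun j => ε j / δ]
          exact (sum_le_sum_of_subset_of_nonneg (range_subset_range.2 hi) fun j hj _ =>
            div_nonneg (hε j (mem_range.1 hj)) hδ.le).trans he) he1 (ih (by omega)) q
      rw [pg_add (by positivity) s0 (cstart_meas h) (cstart_wle w0)] at h1
      rw [Sol, zero_add, sum_range_succ, Nat.cast_succ, add_mul (i : ℝ) 1 (δ ^ 2), one_mul,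
        add_comm (i * δ ^ 2), add_div, exp_add]
      refine h1.trans (mul_le_mul_of_nonneg_right ?_ (exp_pos _).le)
      have h2 : 1 ≤ exp (i * δ ^ 2 / 2) := one_le_exp (by positivity)
      have h3 : 0 ≤ C * (ε i / δ * b * (2 * M1) + δ ^ 2 * e1 / b * (2 * M1) +
        δ ^ 3 / b ^ 2 * (2 * M3)) := by
        clear * - ε i hε hi C δ b M1 e1 M3 C0 hδ hb m1 e0 m3
        have := hε i hi
        positivity
      refine (mul_le_mul_of_nonneg_right (add_le_add_right (le_mul_of_one_le_right h3 h2) _)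
        (exp_pos _).le).trans_eq ?_
      ring
  intro q
  refine (key m le_rfl q).trans (mul_le_mul_of_nonneg_right ?_ (exp_pos _).le)
  have h1 := hs m le_rfl
  calc _ ≤ C * (e1 * b * (2 * M1) + m * (δ ^ 2 * e1 / b * (2 * M1)) +
        m * (δ ^ 3 / b ^ 2 * (2 * M3))) * 2 := by
        clear * - C m ε δ b M1 e1 M3 he hb m1 C0 hm e0 hδ m3
        gcongr
        exact cstart_two hm
    _ = _ := by ring

theorem cstart_ediff {γ c v : ℝ} (hγ : 0 ≤ γ) (hc : 0 < c) (hv : 0 ≤ v) :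
    |exp (-(γ * v)) - exp (-(c * v))| ≤ |γ - c| / c := by
  have key : ∀ γ c : ℝ, 0 ≤ γ → γ ≤ c → c * |exp (-(γ * v)) - exp (-(c * v))| ≤ c - γ := by
    intro γ c hγ h
    have t1 := mul_le_mul_of_nonneg_left (add_one_le_exp (γ * v)) (exp_pos (-(γ * v))).le
    have t2 := mul_le_mul_of_nonneg_left (add_one_le_exp (-((c - γ) * v))) (exp_pos (-(γ * v))).le
    rw [← exp_add, neg_add_cancel, exp_zero] at t1
    rw [← exp_add, show -(γ * v) + -((c - γ) * v) = -(c * v) by ring] at t2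
    rw [abs_of_nonneg (sub_nonneg.2 (exp_le_exp.2 (by linarith only [hv, h, mul_nonneg_of_nonpos_of_nonpos (Mathlib.Tactic.Linarith.sub_nonpos_of_le hv) (Mathlib.Tactic.Linarith.sub_nonpos_of_le h)])))]
    linarith only [t1, h, t2, hγ, mul_le_mul_of_nonneg_left t1 (sub_nonneg.2 h), mul_le_mul_of_nonneg_left t2 hγ,
      mul_nonneg (sub_nonneg.2 h) (exp_pos (-(c * v))).le]
  rw [le_div_iff₀' hc]
  rcases le_total γ c with h | h
  · rw [abs_sub_comm γ, abs_of_nonneg (sub_nonneg.2 h)]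
    exact key γ c hγ h
  · rw [abs_of_nonneg (sub_nonneg.2 h), abs_sub_comm]
    exact (mul_le_mul_of_nonneg_right h (abs_nonneg _)).trans (key c γ hc.le h)

theorem cstart_pgd : ∃ C : ℝ, 0 ≤ C ∧ ∀ (G G1 G2 G3 : ℝ → ℝ) (M1 M3 s s' : ℝ), Odd3 G G1 G2 G3 →
    Wb M1 G → Wb M1 G1 → Wb M3 G2 → Wb M3 G3 → M1 ≤ M3 → 0 ≤ s → s ≤ 1 → 0 ≤ s' → s' ≤ 1 →
    ∀ x, |Pg s G x - Pg s' G x| ≤ C * |s - s'| * M3 * exp (-x) := by
  obtain ⟨C, C0, hC⟩ := pg_taylor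
  refine ⟨4 * C + 2, by positivity, fun G G1 G2 G3 M1 M3 s s' h w0 w1 w2 w3 hM a1 a2 b1 b2 x => ?_⟩
  wlog hs : s' ≤ s generalizing s s'
  · rw [abs_sub_comm, abs_sub_comm s]
    exact this s' s b1 b2 a1 a2 (le_of_not_ge hs)
  have m3 := cstart_nn w3
  have u0 := sub_nonneg.2 hs
  have ho := pg_odd3 (s := s') h (cstart_all w0 w1 w2 w3 hM)
  have h1 := (hC _ _ _ _ (2 * M3) (s - s') u0 (by linarith) ho.d1 ho.d2 ho.d3 fun x =>
    (cstart_wle (cstart_pg b1 b2 w0) x).trans (by linarith)).2 (cstart_pg b1 b2 w3) x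
  rw [pg_add u0 b1 (cstart_meas h) (cstart_wle w0), sub_add_cancel] at h1
  have h2 := mul_le_mul_of_nonneg_left (cstart_wexp (cstart_pg b1 b2 w2) x)
    (show 0 ≤ (s - s') / 2 by positivity)
  have h3 : √(s - s') ^ 3 ≤ s - s' := by
    rw [pow_succ, sq_sqrt u0]
    exact mul_le_of_le_one_right u0 (sqrt_le_one.2 (by linarith only [a2, b1]))
  have h4 : C * (2 * M3) * √(s - s') ^ 3 / cosh x ≤ C * (2 * M3) * (s - s') * (2 * exp (-x)) := by
    rw [div_eq_mul_one_div]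
    gcongr
    exact cstart_cosh x
  rw [← abs_of_nonneg (show 0 ≤ (s - s') / 2 by positivity), ← abs_mul,
    abs_of_nonneg (show 0 ≤ (s - s') / 2 by positivity)] at h2
  rw [abs_of_nonneg u0]
  refine le_trans (le_of_eq ?_) ((abs_add_le _ _).trans ((add_le_add (h1.trans h4) h2).trans_eq ?_))
  · rw [sub_add_cancel]
  · ring

theorem cstart_gam {δ θ c t h : ℝ} {a m : ℕ} {ε : ℕ → ℝ} (hδ : 0 < δ) (hδ1 : δ ≤ 1) (hc : 0 ≤ c)
    (hθ : 0 ≤ θ) (a1 : a * δ ^ 2 ≤ t) (a2 : t ≤ a * δ ^ 2 + δ ^ 2)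
    (b1 : (a + m : ℕ) * δ ^ 2 ≤ t + h) (b2 : t + h ≤ (a + m : ℕ) * δ ^ 2 + δ ^ 2)
    (hm : m * δ ^ 2 ≤ 1)
    (he : ∀ j < m, |ε j - c * δ ^ 3 * exp (-((a + j : ℕ) * δ ^ 2))| ≤ θ * δ ^ 3) :
    |∑ j ∈ range m, ε j / δ - c * (exp (-t) - exp (-(t + h)))| ≤ θ + 3 * c * δ ^ 2 := by
  have d2 : δ ^ 2 ≤ 1 := pow_le_one₀ hδ.le hδ1
  have h1 := cstart_gap zero_le_one (by positivity) a1 a2
  have h2 := cstart_gap zero_le_one (by positivity) b1 b2
  simp only [one_mul] at h1 h2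
  have h3 := sum_range_sub' (fun j => exp (-((a + j : ℕ) * δ ^ 2))) m
  have h4 : |∑ j ∈ range m, (ε j / δ - c * (exp (-((a + j : ℕ) * δ ^ 2)) -
      exp (-((a + (j + 1) : ℕ) * δ ^ 2))))| ≤ m * (θ * δ ^ 2 + c * (δ ^ 2) ^ 2) := by
    clear * - m ε δ c a θ he hδ d2 hc
    refine (abs_sum_le_sum_abs _ _).trans ((sum_le_card_nsmul _ _ _ fun j hj => ?_).trans_eq
      (by rw [card_range, nsmul_eq_mul]))
    have k1 := div_le_div_of_nonneg_right (he j (mem_range.1 hj)) hδ.le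
    have k2 := abs_exp_sub_one_sub_id_le (x := -δ ^ 2) (by rwa [abs_neg, abs_of_pos (by positivity)])
    have k3 : |c * exp (-((a + j : ℕ) * δ ^ 2))| ≤ c := by
      rw [abs_of_nonneg (by positivity)]
      exact mul_le_of_le_one_right hc (exp_le_one_iff.2 (neg_nonpos.2 (by positivity)))
    have k4 := mul_le_mul k3 k2 (abs_nonneg _) hc
    rw [← abs_mul] at k4
    rw [← abs_of_pos hδ, ← abs_div, abs_of_pos hδ] at k1
    rw [← add_assoc, Nat.cast_succ, add_mul _ 1, one_mul, neg_add, exp_add]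
    refine le_trans (le_of_eq ?_) ((abs_add_le _ _).trans ((add_le_add k1 k4).trans_eq ?_))
    · congr 1
      field_simp
      ring
    · field_simp
  rw [sum_sub_distrib, ← mul_sum, h3, add_zero] at h4
  have h5 := mul_le_mul_of_nonneg_left h1 hc
  have h6 := mul_le_mul_of_nonneg_left h2 hc
  rw [← abs_of_nonneg hc, ← abs_mul, abs_of_nonneg hc] at h5 h6
  rw [← abs_neg] at h6
  refine le_trans (le_of_eq ?_) ((abs_add_le _ _).trans ((add_le_add ((abs_add_le _ _).trans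
    (add_le_add h4 h5)) h6).trans ?_))
  · congr 1
    ring
  · linarith only [hm, hθ, hc, hδ, mul_le_mul_of_nonneg_left hm hθ,
      mul_le_mul_of_nonneg_left hm (show 0 ≤ c * δ ^ 2 by positivity)]

theorem cstart_floor {δ t : ℝ} (hδ : 0 < δ) (ht : 0 ≤ t) :
    ⌊t / δ ^ 2⌋₊ * δ ^ 2 ≤ t ∧ t ≤ ⌊t / δ ^ 2⌋₊ * δ ^ 2 + δ ^ 2 := by
  have h : 0 < δ ^ 2 := by positivity
  refine ⟨(le_div_iff₀ h).1 (Nat.floor_le (by positivity)), ?_⟩
  rw [← add_one_mul]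
  exact (div_le_iff₀ h).1 (Nat.lt_floor_add_one _).le

theorem cstart_le_T {c θ δ K : ℝ} {T n : ℕ} {ε : ℕ → ℝ} (H : StH0 c θ δ T ε) (hK : θ * K ≤ 1)
    (hn : n * δ ^ 2 ≤ K) : n ≤ T := by
  have h0 := H.d0
  have h1 : K ≤ θ⁻¹ := by
    rw [← one_div, le_div_iff₀' (h0.trans_le H.d1)]
    exact hK
  exact_mod_cast le_of_mul_le_mul_right (hn.trans (h1.trans H.t0)) (by positivity : 0 < δ ^ 2)

theorem cstart_r {c θ δ : ℝ} {T n0 i : ℕ} {ε : ℕ → ℝ} (H : StH0 c θ δ T ε) (h : n0 + i ≤ T) :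
    ∀ j < i, 0 ≤ exp (-ε (n0 + j)) ∧ exp (-ε (n0 + j)) ≤ 1 := fun j _ =>
  ⟨(exp_pos _).le, exp_le_one_iff.2 (neg_nonpos.2 (H.e0 _ (by omega)).1)⟩

theorem cstart_blk : ∃ C : ℝ, 0 ≤ C ∧ ∀ (G G1 G2 G3 : ℝ → ℝ) (M1 M3 b h c K t : ℝ),
    Odd3 G G1 G2 G3 → Wb M1 G → Wb M1 G1 → Wb M3 G2 → Wb M3 G3 → M1 ≤ M3 → 0 < b → b ≤ 1 →
    0 < h → h ≤ 1 / 2 → 0 < c → 20 * c * h ≤ 1 → 0 ≤ t → t + h ≤ K → ∃ L : ℝ, 0 ≤ L ∧
    ∀ (θ δ A : ℝ) (T : ℕ) (ε g : ℕ → ℝ), θ ≤ h → θ * K ≤ 1 → StH c K θ δ T ε →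
    (∀ q : ℕ, |g q - G (δ * q)| ≤ A * exp (-(δ * q))) → ∀ q : ℕ,
    |Sol (fun j => exp (-ε j)) ⌊t / δ ^ 2⌋₊ g (⌊(t + h) / δ ^ 2⌋₊ - ⌊t / δ ^ 2⌋₊) q -
      exp (-(c * (exp (-t) - exp (-(t + h))) * √((δ * q) ^ 2 + b ^ 2))) * Pg h G (δ * q)| ≤
      (A * exp h + C * (c * h * M1 * (b + h / b)) + L * θ) * exp (-(δ * q)) := by
  obtain ⟨C, C0, hC⟩ := block_step
  obtain ⟨D, D0, hD⟩ := cstart_pgd
  refine ⟨40 * C, by positivity,
    fun G G1 G2 G3 M1 M3 b h c K t ho w0 w1 w2 w3 hM hb hb1 hh hh1 hc hch ht hK => ?_⟩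
  have m1 := cstart_nn w0
  have m3 := m1.trans hM
  have ck : 0 < c * (exp (-t) - exp (-(t + h))) :=
    mul_pos hc (sub_pos.2 (exp_lt_exp.2 (by linarith only [hh])))
  generalize hk : c * (exp (-t) - exp (-(t + h))) = κ at ck
  refine ⟨C * (M3 / b ^ 2) + (1 + 3 * c) / κ * (4 * M1) + D * M3, by positivity,
    fun θ δ A T ε g hθ hθK H hg q => ?_⟩
  have hδ := H.d0
  have d1 := H.d1
  have hδ1 : δ ≤ 1 := by linarith only [hh, hh1, hθ, d1]
  have d2 : δ ^ 2 ≤ θ := by clear * - δ θ h d1 hh hδ hh1 hθ; linarith only [d1, hh, hδ, hh1, hθ, mul_pos_of_neg_of_neg (Mathlib.Tactic.Linarith.sub_neg_of_lt hh) (Mathlib.Tactic.Linarith.sub_neg_of_lt hδ), mul_nonneg_of_nonpos_of_nonpos (Mathlib.Tactic.Linarith.sub_nonpos_of_le hh1) (le_of_lt (Mathlib.Tactic.Linarith.sub_neg_of_lt hδ)), mul_nonneg_of_nonpos_of_nonpos (Mathlib.Tactic.Linarith.sub_nonpos_of_le hθ) (le_of_lt (Mathlib.Tactic.Linarith.sub_neg_of_lt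 hδ)), mul_nonneg_of_nonpos_of_nonpos (le_of_lt (Mathlib.Tactic.Linarith.sub_neg_of_lt hδ)) (Mathlib.Tactic.Linarith.sub_nonpos_of_le d1)]
  obtain ⟨a1, a2⟩ := cstart_floor hδ ht
  obtain ⟨b1, b2⟩ := cstart_floor hδ (add_nonneg ht hh.le)
  obtain ⟨m, hm⟩ := Nat.exists_eq_add_of_le (Nat.floor_mono (div_le_div_of_nonneg_right
    (le_add_of_nonneg_right hh.le : t ≤ t + h) (by positivity : 0 ≤ δ ^ 2)))
  rw [hm] at b1 b2 ⊢
  rw [Nat.add_sub_cancel_left]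
  generalize ⌊t / δ ^ 2⌋₊ = a at *
  have hT := cstart_le_T H.toStH0 hθK (b1.trans hK)
  have c1 : |m * δ ^ 2 - h| ≤ θ := by
    clear * - m δ h θ a t d2 a1 b2 a2 b1
    push_cast at b1 b2
    exact abs_le.2 ⟨by linarith, by linarith⟩
  have c2 : m * δ ^ 2 ≤ 2 * h := by linarith only [hθ, c1, (abs_le.1 c1).2]
  have c0 : 0 ≤ m * δ ^ 2 := by positivity
  have c3 : ∑ j ∈ range m, ε (a + j) / δ ≤ 20 * c * h := by
    clear * - m ε a δ c h hδ θ T K H t hT hc hh hh1 c2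
    refine (sum_le_card_nsmul _ _ (10 * c * δ ^ 2) fun j hj => ?_).trans ?_
    · rw [div_le_iff₀ hδ, mul_assoc, ← pow_succ]
      exact (H.e0 _ (by have := mem_range.1 hj; omega)).2.trans (mul_le_of_le_one_right
        (by positivity) (exp_le_one_iff.2 (neg_nonpos.2 (by positivity))))
    · rw [card_range, nsmul_eq_mul]
      (refine le_of_not_gt fun h_nl => ?_; linarith only [h_nl, hh, hh1, hc, c2, mul_pos_of_neg_of_neg (Mathlib.Tactic.Linarith.sub_neg_of_lt hh) (Mathlib.Tactic.Linarith.sub_neg_of_lt h_nl), mul_nonneg_of_nonpos_of_nonpos (Mathlib.Tactic.Linarith.sub_nonpos_of_le hh1) (le_of_lt (Mathlib.Tactic.Linarith.sub_neg_of_lt h_nl)), mul_nonneg_of_nonpos_of_nonpos (le_of_lt (Mathlib.Tactic.Linarith.sub_neg_of_lt hc)) (Mathlib.Tactic.Linarith.sub_nonpos_of_le c2)])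
  have hε : ∀ j < m, 0 ≤ ε (a + j) := fun j hj => (H.e0 _ (by omega)).1
  have k1 := cstart_sol (r := fun j => exp (-ε j)) hδ.le (cstart_r H.toStH0 hT)
    ⟨M1, fun k : ℕ => cstart_wle w0 (δ * k)⟩ hg q
  have k2 := hC G G1 G2 G3 M1 M3 b δ _ m (fun j => ε (a + j)) ho w0 w1 w2 w3 hM hb hb1 hδ hδ1
    (by linarith only [hh1, c2]) hε c3 hch q
  rw [← Sol_congr (r := fun j => exp (-ε j)) (n0 := a) fun j _ => by rw [zero_add]] at k2
  have k3 := cstart_gam (ε := fun j => ε (a + j)) hδ hδ1 hc.le (hδ.le.trans d1) a1 a2 b1 b2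
    (by linarith only [hh1, c2]) fun j hj => H.e1 _ (by omega) (le_trans (by gcongr) (b1.trans hK))
  rw [hk] at k3
  have k4 := mul_le_mul ((cstart_ediff (sum_nonneg fun j hj => div_nonneg (hε j (mem_range.1 hj))
    hδ.le) ck (sqrt_nonneg ((δ * q) ^ 2 + b ^ 2))).trans (div_le_div_of_nonneg_right
    (k3.trans (show _ ≤ (1 + 3 * c) * θ by clear * - θ c δ h hh hh1 hc d2 ck k3; (refine le_of_not_gt fun h_nl => ?_; linarith only [h_nl, hh, hh1, hc, d2, mul_pos_of_neg_of_neg (Mathlib.Tactic.Linarith.sub_neg_of_lt hh) (Mathlib.Tactic.Linarith.sub_neg_of_lt h_nl), mul_nonneg_of_nonpos_of_nonpos (Mathlib.Tactic.Linarith.sub_nonpos_of_le hh1) (le_of_lt (Mathlib.Tactic.Linarith.sub_neg_of_lt h_nl)), mul_nonneg_of_nonpos_of_nonpos (le_of_lt (Mathlib.Tactic.Linarith.sub_neg_of_lt hc)) (Mathlib.Tactic.Linarith.sub_nonpos_of_le d2)]))) ck.le))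
    (cstart_wexp (cstart_pg c0 (by linarith only [hh1, c2]) w0) (δ * q)) (abs_nonneg _)
    (div_nonneg (mul_nonneg (by positivity) (hδ.le.trans d1)) ck.le)
  have k5 := mul_le_mul (cstart_le_one ck.le ((δ * q) ^ 2 + b ^ 2))
    (hD G G1 G2 G3 M1 M3 _ h ho w0 w1 w2 w3 hM c0 (by linarith only [hh1, c2]) hh.le (by linarith only [hh, hh1]) (δ * q))
    (abs_nonneg _) zero_le_one
  rw [← abs_mul] at k4 k5
  have hA := (cstart_bdd hδ.le hg).1
  refine le_trans (le_of_eq ?_) ((abs_add_le _ _).trans ((add_le_add ((abs_add_le _ _).trans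
    (add_le_add ((abs_add_le _ _).trans (add_le_add k1 k2)) k4)) k5).trans ?_))
  · congr 1
    ring
  · have c4 : m * δ ^ 3 ≤ θ := by clear * - m δ θ h d1 hh hh1 hδ c2 A C D M1 M3 b c q κ; (refine le_of_not_gt fun h_nl => ?_; linarith only [h_nl, d1, hh, hh1, hδ, c2, mul_pos_of_neg_of_neg (Mathlib.Tactic.Linarith.sub_neg_of_lt hh) (Mathlib.Tactic.Linarith.sub_neg_of_lt h_nl), mul_nonneg_of_nonpos_of_nonpos (Mathlib.Tactic.Linarith.sub_nonpos_of_le hh1) (le_of_lt (Mathlib.Tactic.Linarith.sub_neg_of_lt hδ)), mul_nonneg_of_nonpos_of_nonpos (Mathlib.Tactic.Linarith.sub_nonpos_of_le hh1) (le_of_lt (Mathlib.Tactic.Linarith.sub_neg_of_lt h_nl)), mul_nonneg_of_nonpos_of_nonpos (le_of_lt (Mathlib.Tactic.Linarith.sub_neg_of_lt hδ)) (Mathlib.Tactic.Linarith.sub_nonpos_of_le c2)])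
    calc _ ≤ A * exp h * exp (-(δ * q)) + C * (40 * c * h * b * M1 + 2 * h * (20 * c * h) / b * M1 +
          θ / b ^ 2 * M3) * exp (-(δ * q)) + (1 + 3 * c) * θ / κ * (2 * (2 * M1) * exp (-(δ * q))) +
          1 * (D * θ * M3 * exp (-(δ * q))) := by
          clear * - A m δ q C c h b M1 M3 θ κ D c2 hA hc hh hb m1 c4 m3 C0 c1 D0
          gcongr
          · linarith only [c2]
          · norm_num
      _ = _ := by ring

theorem cstart_ind : ∃ C : ℝ, 0 ≤ C ∧ ∀ (Ψ Ψ1 Ψ2 Ψ3 : ℝ → ℝ) (M b h c K : ℝ), Odd3 Ψ Ψ1 Ψ2 Ψ3 →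
    Wb M Ψ → Wb M Ψ1 → Wb M Ψ2 → Wb M Ψ3 → 0 < b → b ≤ 1 → 0 < h → h ≤ 1 / 2 → 0 < c →
    20 * c * h ≤ 1 → ∀ k : ℕ, k * h ≤ K → ∃ (G G1 G2 G3 : ℝ → ℝ) (M3 L : ℝ), 0 ≤ L ∧
    Odd3 G G1 G2 G3 ∧ Wb (M * exp (k * h * (1 / 2 + c))) G ∧ Wb (M * exp (k * h * (1 / 2 + c))) G1 ∧
    Wb M3 G2 ∧ Wb M3 G3 ∧ M * exp (k * h * (1 / 2 + c)) ≤ M3 ∧
    ∀ (θ δ : ℝ) (T : ℕ) (ε : ℕ → ℝ), θ ≤ h → θ * K ≤ 1 → StH c K θ δ T ε → ∀ q : ℕ,
    |Sol (fun j => exp (-ε j)) 0 (fun q => Ψ (δ * q)) ⌊k * h / δ ^ 2⌋₊ q - G (δ * q)| ≤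
      (k * (C * (c * h * (M * exp (K * (1 / 2 + c))) * (b + h / b))) * exp (k * h) + L * θ) *
        exp (-(δ * q)) := by
  obtain ⟨C, C0, hC⟩ := cstart_blk
  refine ⟨C, C0, fun Ψ Ψ1 Ψ2 Ψ3 M b h c K ho w0 w1 w2 w3 hb hb1 hh hh1 hc hch k => ?_⟩
  have m0 := cstart_nn w0
  induction k with
  | zero =>
    exact fun _ => ⟨Ψ, Ψ1, Ψ2, Ψ3, M, 0, le_rfl, ho, by simpa using w0, by simpa using w1, w2, w3,
      by simp, fun θ δ T ε _ _ _ q => by simp [Sol]⟩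
  | succ k ih =>
    intro hk
    rw [Nat.cast_succ, add_one_mul] at hk ⊢
    obtain ⟨G, G1, G2, G3, M3, L, L0, go, g0, g1, g2, g3, hM, hG⟩ := ih (by linarith only [hh, hk])
    have t0 : 0 ≤ k * h := by positivity
    generalize k * h = t at *
    obtain ⟨L', L0', hL'⟩ := hC G G1 G2 G3 _ M3 b h c K t go g0 g1 g2 g3 hM hb hb1 hh hh1 hc hch
      t0 hk
    have ck : 0 ≤ c * (exp (-t) - exp (-(t + h))) :=
      mul_nonneg hc.le (sub_nonneg.2 (exp_le_exp.2 (by linarith only [hh])))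
    have ck1 : c * (exp (-t) - exp (-(t + h))) ≤ c * h := mul_le_mul_of_nonneg_left
      ((le_abs_self _).trans (by
        simpa using cstart_gap zero_le_one t0 (le_add_of_nonneg_right hh.le) le_rfl)) hc.le
    generalize c * (exp (-t) - exp (-(t + h))) = κ at *
    have e1 : M * exp (t * (1 / 2 + c)) * exp (h / 2) ≤ M3 * exp (h / 2) := by gcongr
    obtain ⟨F1, F2, F3, fo, f0, f1, f2, f3, -⟩ := damp_odd3
      (pg_odd3 (s := h) go (cstart_all g0 g1 g2 g3 hM)) hb hb1 ck (pg_wb hh.le g0) (pg_wb hh.le g1)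
      (pg_wb hh.le g2) (pg_wb hh.le g3) e1
    have e2 : (1 + κ) * (M * exp (t * (1 / 2 + c)) * exp (h / 2)) ≤
        M * exp ((t + h) * (1 / 2 + c)) := by
      clear * - κ M t c h ck1 m0
      rw [show (t + h) * (1 / 2 + c) = c * h + (t * (1 / 2 + c) + h / 2) by ring, exp_add, exp_add,
        mul_left_comm M, mul_assoc M]
      gcongr
      linarith [add_one_le_exp (c * h)]
    refine ⟨_, F1, F2, F3, max _ _, L * exp h + L', by positivity, fo, cstart_wm f0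
      ((le_mul_of_one_le_left (by positivity) (by linarith only [ck])).trans e2), cstart_wm f1 e2,
      cstart_wm f2 (le_max_left _ _), cstart_wm f3 (le_max_left _ _), le_max_right _ _,
      fun θ δ T ε h1 h2 H q => ?_⟩
    have k1 := hL' θ δ _ T ε _ h1 h2 H (hG θ δ T ε h1 h2 H) q
    have k2 := Sol_add (fun j => exp (-ε j)) 0 (fun q => Ψ (δ * q)) ⌊t / δ ^ 2⌋₊
      (⌊(t + h) / δ ^ 2⌋₊ - ⌊t / δ ^ 2⌋₊)
    rw [zero_add, Nat.add_sub_cancel' (Nat.floor_mono (div_le_div_of_nonneg_right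
      (le_add_of_nonneg_right hh.le) (sq_nonneg δ)))] at k2
    rw [k2]
    refine k1.trans (mul_le_mul_of_nonneg_right ?_ (exp_pos _).le)
    have k3 : C * (c * h * (M * exp (t * (1 / 2 + c))) * (b + h / b)) ≤
        C * (c * h * (M * exp (K * (1 / 2 + c))) * (b + h / b)) * exp (t + h) := by
      clear * - C c h M t b K hh hk hc m0 hb C0 t0
      refine le_trans ?_ (le_mul_of_one_le_right (by positivity) (one_le_exp (by positivity)))
      gcongr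
      linarith
    rw [exp_add] at k3 ⊢
    clear * - k C c h M K b t L θ L' k3
    linarith only [k3]

theorem cstart_rho {s t η : ℝ} (hs : 0 < s) (h1 : s ≤ t) (h2 : t ≤ (1 + η) * s) (h3 : η ≤ 1) :
    ∃ ρ : ℝ, 1 ≤ ρ ∧ ρ ≤ 1 + 3 * η ∧ t ^ (3 / 2 : ℝ) = ρ * s ^ (3 / 2 : ℝ) := by
  have e1 : 1 ≤ t / s := (one_le_div hs).2 h1
  have e2 : t / s ≤ 1 + η := (div_le_iff₀ hs).2 h2
  refine ⟨(t / s) ^ (3 / 2 : ℝ), one_le_rpow e1 (by norm_num),
    (rpow_le_rpow_of_exponent_le e1 (show (3 / 2 : ℝ) ≤ 2 by norm_num)).trans ?_, ?_⟩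
  · rw [rpow_two]
    linarith only [e2, h3, e1, mul_nonneg_of_nonpos_of_nonpos (Mathlib.Tactic.Linarith.sub_nonpos_of_le h3) (Mathlib.Tactic.Linarith.sub_nonpos_of_le e1), mul_nonneg_of_nonpos_of_nonpos (Mathlib.Tactic.Linarith.sub_nonpos_of_le e1) (Mathlib.Tactic.Linarith.sub_nonpos_of_le e2)]
  · rw [div_rpow (hs.le.trans h1) hs.le, div_mul_cancel₀ _ (rpow_pos_of_pos hs _).ne']

theorem cstart_small {X ζ : ℝ} (hX : 0 ≤ X) (hζ : 0 < ζ) : ∃ η : ℝ, 0 < η ∧ η ≤ 1 ∧ X * η ≤ ζ := by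
  refine ⟨min 1 (ζ / (X + 1)), by positivity, min_le_left _ _,
    (mul_le_mul_of_nonneg_left (min_le_right _ _) hX).trans ?_⟩
  rw [← mul_div_assoc, div_le_iff₀ (by positivity)]
  linarith only [hζ]

theorem cstart_fin : ∃ C : ℝ, 0 ≤ C ∧ ∀ (G G1 G2 G3 : ℝ → ℝ) (M3 K ζ : ℝ), Odd3 G G1 G2 G3 →
    Wb M3 G → Wb M3 G1 → Wb M3 G2 → Wb M3 G3 → 0 ≤ K → 0 < ζ → ∃ S θ : ℝ, 0 < θ ∧
    ∀ (c δ e0 Mg A : ℝ) (T n0 n : ℕ) (ε g : ℕ → ℝ), StH0 c θ δ T ε → T = n0 + n →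
    n0 * δ ^ 2 ≤ K → 0 ≤ e0 → (∀ j < n, ε (n0 + j) ≤ e0 * δ ^ 3 * exp (-(j * δ ^ 2))) →
    (∀ q : ℕ, |g q| ≤ Mg * exp (-(δ * q))) → (∀ q : ℕ, |g q - G (δ * q)| ≤ A * exp (-(δ * q))) →
    |(T * δ ^ 2) ^ (3 / 2 : ℝ) / δ * Sol (fun j => exp (-ε (n0 + j))) 0 g n 1 - S| ≤
      C * (e0 * Mg + A) + ζ := by
  obtain ⟨C1, p1, h1⟩ := fr_loss
  obtain ⟨C2, p2, h2⟩ := fr_exp
  obtain ⟨C3, p3, h3⟩ := fr_odd
  refine ⟨8 * (C1 + C2), by positivity, fun G G1 G2 G3 M3 K ζ ho w0 w1 w2 w3 hK hζ => ?_⟩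
  have m3 := cstart_nn w0
  obtain ⟨θa, a0, ha⟩ := pg_asym (cstart_meas ho) ho.odd (cstart_wle w0)
    (wb_integrable (cstart_meas ho) w0) (show 0 < ζ / 16 by positivity)
  generalize (√(2 * π))⁻¹ * ∫ x, x * G x = S at ha
  obtain ⟨σ, s0, s1, s2⟩ := cstart_small (mul_nonneg p3 m3) (show 0 < ζ / 16 by positivity)
  obtain ⟨η, e0, e1, e2⟩ := cstart_small (abs_nonneg S) (show 0 < ζ / 6 by positivity)
  obtain ⟨θs, b0, hb⟩ := StH0.small s0
  have r1 : 0 < θa⁻¹ := by positivity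
  have r2 : 0 ≤ K / η := by positivity
  refine ⟨S, min θs (K + 4 + θa⁻¹ + K / η)⁻¹, by positivity,
    fun c δ e Mg A T n0 n ε g H hT hn he hε hg hA => ?_⟩
  have hδ := H.d0
  have H2 := H.mono (min_le_right _ _)
  have hδ1 : δ ≤ 1 := H2.d1.trans (inv_le_one_of_one_le₀ (by linarith only [hK, r1, r2]))
  have t0 := H2.t0
  have k0 := hb c δ T ε (H.mono (min_le_left _ _))
  have t1 : T * δ ^ 2 = n0 * δ ^ 2 + n * δ ^ 2 := by rw [hT, Nat.cast_add, add_mul]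
  have t2 : 0 ≤ n0 * δ ^ 2 := by positivity
  rw [inv_inv] at t0
  have t3 : 4 ≤ n * δ ^ 2 := by linarith only [r1, r2, hn, t0, t1]
  obtain ⟨ρ, q1, q2, q3⟩ := cstart_rho (s := n * δ ^ 2) (t := T * δ ^ 2) (by linarith only [r1, r2, hn, t0, t1]) (by linarith only [t1, t2])
    (by clear * - T δ η n n0 K hn t1 e0 θa r1 t0 e1; linarith only [hn, t1, e0, r1, t0, (div_le_iff₀ e0).1 (show K / η ≤ n * δ ^ 2 by linarith)]) e1
  have hM := (cstart_bdd hδ.le hg).1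
  have hA0 := (cstart_bdd hδ.le hA).1
  have k1 := h1 δ Mg e n (fun j => ε (n0 + j)) g hδ hδ1 t3
    (fun j hj => ⟨(H.e0 _ (by omega)).1, hε j hj⟩) hg
  have k2 : |Fr n g 1 - Fr n (fun q => G (δ * q)) 1| ≤
      A * (C2 * δ / (n * δ ^ 2) ^ (3 / 2 : ℝ) + C2 * δ ^ 3 * √n) := by
    have hr : ∀ j < n, (0 : ℝ) ≤ 1 ∧ (1 : ℝ) ≤ 1 := fun _ _ => ⟨zero_le_one, le_rfl⟩
    have z0 : Bdd fun q : ℕ => exp (-(δ * q)) :=
      (cstart_bdd (A := 1) hδ.le fun q => by rw [one_mul, abs_of_pos (exp_pos _)]).2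
    have z1 := Sol_lin (r := fun _ => 1) (n0 := 0) hr (cstart_bdd hδ.le hA).2
      ⟨M3, fun k : ℕ => cstart_wle w0 (δ * k)⟩ 1 1 1
    have z2 := Sol_lin (r := fun _ => 1) (n0 := 0) hr z0 z0 A 0 1
    have z3 := Sol_mono (r := fun _ => 1) (r' := fun _ => 1) (n0 := 0) (i := n)
      (fun _ _ => ⟨zero_le_one, le_rfl, le_rfl⟩) (cstart_bdd hδ.le hA).2
      (cstart_bdd (A := A) hδ.le fun q => by rw [abs_of_nonneg (by positivity)]).2 hA 1
    simp only [one_mul, sub_add_cancel, zero_mul, add_zero] at z1 z2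
    rw [Fr, Fr, show Sol (fun _ => 1) 0 g n 1 = _ from z1, add_sub_cancel_right]
    exact z3.trans (z2.trans_le (mul_le_mul_of_nonneg_left (h2 δ n hδ hδ1 t3) hA0))
  have k3 := h3 G G1 G2 G3 M3 δ n ho (cstart_all w0 w1 w2 w3 le_rfl) hδ hδ1
  have k4 := ha (n * δ ^ 2) δ (by clear * - θa n δ K η n0 T r2 hn t0 t1 ha hδ hδ1; linarith only [r2, hn, t0, t1]) hδ hδ1
  have k5 : √n ≤ √T := by
    gcongr
    omega
  have u0 : 0 < (n * δ ^ 2) ^ (3 / 2 : ℝ) := rpow_pos_of_pos (by clear * - n δ θa K η n0 T r1 r2 hn t0 t1; linarith only [r1, r2, hn, t0, t1]) _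
  rw [q3] at k0 ⊢
  generalize (n * δ ^ 2) ^ (3 / 2 : ℝ) = u at *
  have k6 : u / δ * (δ ^ 3 * √n) ≤ σ := le_trans (by
    clear * - u δ ρ n T u0 q1 hδ k5 k0
    gcongr
    exact le_mul_of_one_le_left u0.le q1) k0
  have k7 := mul_le_mul_of_nonneg_left ((abs_add_le _ _).trans (add_le_add ((abs_add_le _ _).trans
    (add_le_add k1 k2)) k3)) (show 0 ≤ u / δ by positivity)
  rw [← abs_of_nonneg (show 0 ≤ u / δ by positivity), ← abs_mul,
    abs_of_nonneg (show 0 ≤ u / δ by positivity)] at k7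
  have k8 : |u / δ * Sol (fun j => exp (-ε (n0 + j))) 0 g n 1 - S| ≤
      2 * (C1 + C2) * (e * Mg + A) + ζ / 8 := by
    clear * - u δ ε n0 g n S G C1 C2 e Mg A ζ C3 M3 k7 k4 he hM σ u0 hδ p1 hA0 p2 p3 m3 hζ k6 s1
      s2
    refine le_trans (le_of_eq ?_) ((abs_add_le _ _).trans ((add_le_add k7 k4).trans ?_))
    · congr 1
      ring
    · have z1 : 0 ≤ e * Mg := by positivity
      calc _ = (C1 * (e * Mg) + C2 * A) * (1 + u / δ * (δ ^ 3 * √n)) +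
            C3 * M3 * (u / δ * (δ ^ 3 * √n)) + ζ / 16 := by
            field_simp
        _ ≤ (C1 * (e * Mg) + C2 * A) * (1 + 1) + C3 * M3 * σ + ζ / 16 := by
            gcongr
            exact k6.trans s1
        _ ≤ _ := by linarith only [s2, p1, hA0, p2, z1, mul_nonneg p1 hA0, mul_nonneg p2 z1]
  have k9 := mul_le_mul (show |ρ| ≤ 4 by clear * - ρ q1 η e1 q2 k8; rw [abs_of_pos (by clear * - ρ q1 k8; linarith only [q1])]; linarith only [e1, q2]) k8 (abs_nonneg _)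
    (by norm_num)
  have k10 := mul_le_mul_of_nonneg_right
    (show |ρ - 1| ≤ 3 * η by clear * - ρ η q1 q2 S; rw [abs_of_nonneg (by clear * - ρ q1 S η; linarith)]; linarith) (abs_nonneg S)
  rw [← abs_mul] at k9 k10
  refine le_trans (le_of_eq ?_) ((abs_add_le _ _).trans ((add_le_add k9 k10).trans ?_))
  · congr 1
    ring
  · linarith only [e2]

theorem start_approx {Ψ Ψ1 Ψ2 Ψ3 : ℝ → ℝ} {M c ζ : ℝ} (h : Odd3 Ψ Ψ1 Ψ2 Ψ3) (h0 : Wb M Ψ)
    (h1 : Wb M Ψ1) (h2 : Wb M Ψ2) (h3 : Wb M Ψ3) (hc : 0 < c) (hζ : 0 < ζ) :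
    ∃ S K θ : ℝ, 0 < θ ∧ ∀ (δ : ℝ) (T : ℕ) (ε : ℕ → ℝ), StH c K θ δ T ε →
      |stV δ T ε (fun q => Ψ (δ * q)) - S| ≤ ζ := by
  obtain ⟨Cf, f0, hf⟩ := cstart_fin
  obtain ⟨Ci, i0, hi⟩ := cstart_ind
  have m0 := cstart_nn h0
  obtain ⟨K, K1, hK⟩ : ∃ K : ℝ, 1 ≤ K ∧ Cf * (10 * c * exp (1 - K) * (2 * M * exp (K / 2))) ≤
      ζ / 4 := by
    clear * - Cf c M ζ f0 hc m0 hζ
    obtain ⟨η, e0, e1, e2⟩ := cstart_small (X := Cf * (20 * c * exp 1 * M)) (by positivity)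
      (show 0 < ζ / 4 by positivity)
    have e3 : 1 ≤ η⁻¹ := (one_le_inv₀ e0).2 e1
    refine ⟨2 * η⁻¹, by linarith only [e3], le_trans ?_ e2⟩
    have e4 : exp (-η⁻¹) ≤ η := by
      rw [exp_neg, inv_le_comm₀ (exp_pos _) e0]
      linarith only [add_one_le_exp η⁻¹]
    calc _ = Cf * (20 * c * M) * (exp (1 - 2 * η⁻¹) * exp (2 * η⁻¹ / 2)) := by ring
      _ = Cf * (20 * c * exp 1 * M) * exp (-η⁻¹) := by
          rw [← exp_add, show 1 - 2 * η⁻¹ + 2 * η⁻¹ / 2 = 1 + -η⁻¹ by ring, exp_add]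
          ring
      _ ≤ _ := by gcongr
  have K0 : 0 < K := by linarith only [K1]
  obtain ⟨b, b0, b1, b2⟩ := cstart_small
    (X := Cf * (K * Ci * c * (M * exp (K * (1 / 2 + c))) * exp K) * 2) (by positivity)
    (show 0 < ζ / 4 by positivity)
  obtain ⟨p, hp⟩ := exists_nat_ge (K / min (b ^ 2) (min (1 / 2) (1 / (20 * c))))
  have p0 : (0 : ℝ) < p := lt_of_lt_of_le (by positivity) hp
  rw [div_le_comm₀ (by positivity) p0, le_min_iff, le_min_iff] at hp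
  have hh : 0 < K / p := by positivity
  have e : p * (K / p) = K := mul_div_cancel₀ _ p0.ne'
  generalize K / p = h' at *
  obtain ⟨G, G1, G2, G3, M3, L, L0, go, g0, g1, g2, g3, hM, hG⟩ := hi Ψ Ψ1 Ψ2 Ψ3 M b h' c K h h0 h1
    h2 h3 b0 b1 hh hp.2.1 hc ((le_div_iff₀' (by positivity)).1 hp.2.2) p e.le
  obtain ⟨S, θ1, t1, hS⟩ := hf G G1 G2 G3 M3 K (ζ / 4) go (cstart_wm g0 hM) (cstart_wm g1 hM) g2 g3
    K0.le (by positivity)
  obtain ⟨θ2, t2, -, t3⟩ := cstart_small (mul_nonneg f0 L0) (show 0 < ζ / 4 by positivity)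
  refine ⟨S, K, min (min θ1 θ2) (min h' K⁻¹), by positivity, fun δ T ε H => ?_⟩
  have u1 := (min_le_left _ _).trans (min_le_left θ1 θ2) (a := min (min θ1 θ2) (min h' K⁻¹))
  have u2 := (min_le_left _ _).trans (min_le_right θ1 θ2) (a := min (min θ1 θ2) (min h' K⁻¹))
  have u3 := (min_le_right _ _).trans (min_le_left h' K⁻¹) (a := min (min θ1 θ2) (min h' K⁻¹))
  have u4 := (min_le_right _ _).trans (min_le_right h' K⁻¹) (a := min (min θ1 θ2) (min h' K⁻¹))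
  generalize min (min θ1 θ2) (min h' K⁻¹) = θ at *
  have u5 : θ * K ≤ 1 := by rwa [← one_div, le_div_iff₀ K0] at u4
  have hδ := H.d0
  have d2 : δ ^ 2 ≤ 1 := pow_le_one₀ hδ.le (by linarith only [hp, hh, u3, H, H.d1, hp.2.1])
  have k1 := hG θ δ T ε u3 u5 H
  obtain ⟨a1, a2⟩ := cstart_floor hδ K0.le
  rw [e] at k1
  generalize ⌊K / δ ^ 2⌋₊ = n0 at *
  obtain ⟨n, hn⟩ := Nat.exists_eq_add_of_le (cstart_le_T H.toStH0 u5 a1)
  have k2 := hS c δ (10 * c * exp (1 - K)) (2 * M * exp (K / 2)) _ T n0 n ε _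
    (H.toStH0.mono u1) hn a1 (by positivity) (fun j hj => (H.e0 _ (by omega)).2.trans (by
      clear * - c δ n0 j K d2 a2 hc hδ H M h0 k1
      rw [mul_right_comm (10 * c) (exp (1 - K)), mul_assoc _ (exp (1 - K)), ← exp_add, Nat.cast_add]
      gcongr
      linarith only [d2, a2])) (fun q => (Sol_exp (M := 2 * M) hδ.le (cstart_r H.toStH0 (by omega))
      (fun k : ℕ => cstart_wexp h0 (δ * k)) q).trans (by gcongr)) k1
  rw [stV, show Sol (fun i => exp (-ε i)) 0 (fun q => Ψ (δ * q)) T = _ by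
    rw [hn, Sol_add, Sol_congr (r' := fun j => exp (-ε (n0 + j))) (n1 := 0) fun j _ => by
      rw [zero_add, zero_add]]]
  refine k2.trans ?_
  have k3 : h' / b ≤ b := (div_le_iff₀ b0).2 (by clear * - h' b c hp b0; linarith only [hp, hp.1])
  have k4 : Cf * (p * (Ci * (c * h' * (M * exp (K * (1 / 2 + c))) * (b + h' / b))) * exp K) ≤
      ζ / 4 := by
    clear * - Cf p Ci c h' M K b ζ k3 f0 p0 hh i0 hc m0 e b2
    refine le_trans ?_ b2
    calc _ = Cf * (p * h' * Ci * c * (M * exp (K * (1 / 2 + c))) * exp K) * (b + h' / b) := by ring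
      _ ≤ Cf * (p * h' * Ci * c * (M * exp (K * (1 / 2 + c))) * exp K) * (b + b) := by gcongr
      _ = _ := by
          rw [e]
          ring
  linarith only [hK, t3, k4, u2, f0, L0, mul_le_mul_of_nonneg_left u2 (mul_nonneg f0 L0)]

end Pool.Agent.Work.MP_5391ad_co
end

-- merged part: Pool.Agent.Work.MP_5391ad_co.CFreeT
section
/-! The free volume to precision `1 + o(1)`. Use `asum_I`, `asum_l` of `ASum`. For `x < xc`:
`ω x = log ((Lam x - Lam (x-1))/t) - (I x - I (x-1))` satisfies `0 ≤ ω x ≤ eh(x)^2` if `eh x ≤ 1`, and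
`|ω x| ≤ eh x` always. Indeed with `μ = I x - I (x-1) ∈ [ℓ (x-1), ℓ x]`, `ℓ x - ℓ (x-1) ≤ eh x`
(`ℓ' = eh`), the function `u ↦ Lam u/t - e^μ (u + (I u - μ u))` has derivative
`e^ℓ - e^μ (1 + ℓ - μ) ∈ [0, e^μ eh^2]`. So
`log FreeT = B (1 - log L) + I B - I 0 + ∑_{x=1}^B ω x`, `∑_{x ≤ B - s0} ω x ≤ ∑_{s ≥ s0} s⁻²`,
`I 0 → 1` (`D τ/τ → 1`, `L tau 0 = e^τ → 1`).
`freeT_theta`: `asum_end`-type bounds for `I xc - I B`.
`freeT_lim`: `exists_lim` on the filter of pairs; for fixed `s0` the last `s0` factors are given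
by `rate_lim`, and `I xc - I (xc - v) = (v/2) log L - (1/2) ∫_0^v log (2 s) ds + o(1)` by
`sigma_bounds`, `sigma_sharp` (`|ℓ + log (2 t s)/2| ≤ -log τ / 2`). -/

namespace Pool.Agent.Work.MP_5391ad_co

open Real Finset Filter

/-- the defect of one factor -/
noncomputable def cfreet_w (t x : ℝ) : ℝ :=
  log (Lam t x - Lam t (x - 1)) - log t - (asum_I t x - asum_I t (x - 1))

theorem cfreet_l {t x : ℝ} (ht : 0 < t) (hx : x < xc t) :
    asum_l t x - asum_l t (x - 1) ≤ eh t x := by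
  have h := alam_unit (f := asum_l t) (f' := eh t) (a := x - 1) (p := 0) (q := eh t x)
    (fun u _ h2 => alam_log_sigma ht (by linarith))
    (fun u _ h2 => ⟨(aup_eh_pos ht (by linarith)).le,
      eh_monotoneOn ht (show u < xc t by linarith) hx (by linarith)⟩)
  rw [sub_add_cancel] at h
  exact h.2

theorem cfreet_mu {t x : ℝ} (ht : 0 < t) (hx : x < xc t) :
    asum_l t (x - 1) ≤ asum_I t x - asum_I t (x - 1) ∧
      asum_I t x - asum_I t (x - 1) ≤ asum_l t x := by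
  have h := asum_A (x := x - 1) ht (by linarith)
  rw [sub_add_cancel] at h
  exact ⟨h, asum_B ht hx⟩

theorem cfreet_pos {t x : ℝ} (ht : 0 < t) (hx : x < xc t) : 0 < Lam t x - Lam t (x - 1) := by
  refine lt_of_lt_of_le ?_ (incr_bounds ht hx).1
  rw [asum_l_exp ht (by linarith)]
  exact exp_pos _

theorem cfreet_w1 {t x : ℝ} (ht : 0 < t) (hx : x < xc t) : |cfreet_w t x| ≤ eh t x := by
  obtain ⟨h1, h2⟩ := incr_bounds ht hx
  rw [asum_l_exp ht (by linarith only [hx])] at h1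
  rw [asum_l_exp ht hx] at h2
  have h3 := (le_log_iff_exp_le (cfreet_pos ht hx)).2 h1
  have h4 := (log_le_iff_le_exp (cfreet_pos ht hx)).2 h2
  obtain ⟨h5, h6⟩ := cfreet_mu ht hx
  have h7 := cfreet_l ht hx
  rw [cfreet_w, abs_le]
  constructor <;> linarith only [h3, h6, h7, h4, h5]

theorem cfreet_w2 {t x : ℝ} (ht : 0 < t) (hx : x < xc t) (h1 : eh t x ≤ 1) :
    |cfreet_w t x| ≤ eh t x ^ 2 := by
  obtain ⟨h5, h6⟩ := cfreet_mu ht hx
  have h7 := cfreet_l ht hx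
  set m := asum_I t x - asum_I t (x - 1) with hm
  have h := alam_unit (f := fun u => Lam t u / t - exp m * (u + (asum_I t u - m * u)))
    (f' := fun u => exp (asum_l t u) - exp m * (1 + (asum_l t u - m))) (a := x - 1) (p := 0)
    (q := exp m * eh t x ^ 2)
    (fun u _ h2 => by
      have hu : u < xc t := by linarith
      refine (((hasDerivAt_Lam ht hu).div_const t).sub (((hasDerivAt_id' u).add
        ((asum_I_deriv ht hu).sub ((hasDerivAt_id' u).const_mul m))).const_mul (exp m))).congr_deriv ?_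
      rw [asum_l_exp ht hu, exp_add, exp_log ht, mul_div_cancel_left₀ _ ht.ne', mul_one])
    (fun u h2 h3 => by
      have hu : u < xc t := by linarith
      have h8 := asum_l_mono ht h2 hu
      have h9 := asum_l_mono ht (show u ≤ x by linarith) hx
      have h10 : |asum_l t u - m| ≤ eh t x := by rw [abs_le]; constructor <;> linarith only [h7, h6, h8, h5, h9]
      have h11 := (abs_le.1 (abs_exp_sub_one_sub_id_le (h10.trans h1))).2
      have h12 : (asum_l t u - m) ^ 2 ≤ eh t x ^ 2 := by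
        rw [← sq_abs]; exact pow_le_pow_left₀ (abs_nonneg _) h10 2
      have h13 := add_one_le_exp (asum_l t u - m)
      have h14 : exp (asum_l t u) = exp m * exp (asum_l t u - m) := by
        rw [← exp_add]; congr 1; ring
      have h15 := exp_pos m
      rw [h14, ← mul_sub]
      exact ⟨mul_nonneg h15.le (by linarith), mul_le_mul_of_nonneg_left (by linarith only [h11, h12]) h15.le⟩)
  rw [sub_add_cancel] at h
  have hp := cfreet_pos ht hx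
  have he : Lam t x / t - exp m * (x + (asum_I t x - m * x)) -
      (Lam t (x - 1) / t - exp m * (x - 1 + (asum_I t (x - 1) - m * (x - 1)))) =
      (Lam t x - Lam t (x - 1)) / t - exp m := by
    rw [show asum_I t x = m + asum_I t (x - 1) by rw [hm]; ring]
    ring
  rw [he] at h
  have hq : 0 < (Lam t x - Lam t (x - 1)) / t := div_pos hp ht
  have h2 := (le_log_iff_exp_le hq).2 (by linarith only [h, h.1] : exp m ≤ _)
  have h3 : log ((Lam t x - Lam t (x - 1)) / t) ≤ m + eh t x ^ 2 := by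
    rw [log_le_iff_le_exp hq, exp_add]
    have := mul_le_mul_of_nonneg_left (add_one_le_exp (eh t x ^ 2)) (exp_pos m).le
    linarith only [h, this, h.2]
  rw [log_div hp.ne' ht.ne'] at h2 h3
  rw [cfreet_w, abs_le, ← hm]
  constructor <;> linarith only [h2, h3, sq_nonneg (eh t x), sq_nonneg (eh t x)]

theorem cfreet_eq {t : ℝ} {b : ℕ} (ht : 0 < t) (h : (b : ℝ) < xc t) :
    FreeT t 0 b = exp (b * (1 + log t) + (asum_I t b - asum_I t 0) +
      ∑ i ∈ range b, cfreet_w t (b - i)) := by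
  have h1 := Finset.sum_range_sub' (fun i : ℕ => asum_I t (b - i)) b
  simp only [Nat.cast_zero, sub_zero, sub_self] at h1
  have h2 : (b : ℝ) * (1 + log t) = ∑ _i ∈ range b, (1 + log t) := by
    rw [sum_const, card_range, nsmul_eq_mul]
  rw [← h1, h2, ← sum_add_distrib, ← sum_add_distrib, exp_sum]
  refine Finset.prod_congr rfl fun i hi => ?_
  have hi' : (0 : ℝ) ≤ i := Nat.cast_nonneg i
  have hx : (b : ℝ) - i < xc t := by linarith
  rw [rate, Nat.cast_sub (mem_range.1 hi).le, zero_add, cfreet_w,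
    show (b : ℝ) - ((i + 1 : ℕ) : ℝ) = b - i - 1 by push_cast; ring,
    ← exp_log (cfreet_pos ht hx), ← exp_add, log_exp]
  congr 1
  ring

theorem cfreet_tail {t : ℝ} {b s : ℕ} (ht : 0 < t) (h : (b : ℝ) < xc t) (hs : 1 ≤ s) :
    |∑ i ∈ Ico s b, cfreet_w t (b - i)| ≤ 2 / s := by
  have hs' : (0 : ℝ) < s := Nat.cast_pos.2 hs
  rcases le_total b s with hb | hb
  · rw [Ico_eq_empty_of_le hb, sum_empty, abs_zero]; positivity
  have h1 : ∑ i ∈ Ico s b, (2 / (i : ℝ) - 2 / ((i + 1 : ℕ) : ℝ)) = 2 / s - 2 / b := by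
    rw [sum_Ico_eq_sum_range]
    have := Finset.sum_range_sub' (fun i : ℕ => 2 / ((s + i : ℕ) : ℝ)) (b - s)
    rw [Nat.add_zero, Nat.add_sub_cancel' hb] at this
    rw [← this]
    rfl
  refine (abs_sum_le_sum_abs _ _).trans ((sum_le_sum fun i hi => ?_).trans
    (h1.le.trans (sub_le_self _ (by positivity))))
  have hi : (1 : ℝ) ≤ i := by exact_mod_cast hs.trans (mem_Ico.1 hi).1
  have hx : (b : ℝ) - i < xc t := by linarith only [h, hi]
  have h2 : eh t (b - i) ≤ 1 / i :=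
    (aup_eh_le ht hx).trans (one_div_le_one_div_of_le (by linarith only [hi]) (by linarith only [h]))
  have h3 : 1 / (i : ℝ) ≤ 1 := by rw [div_le_one (by linarith only [hi])]; exact hi
  refine (cfreet_w2 ht hx (h2.trans h3)).trans
    ((pow_le_pow_left₀ (aup_eh_pos ht hx).le h2 2).trans ?_)
  push_cast
  rw [div_sub_div _ _ (by linarith only [hi]) (by linarith only [hi]), div_pow, div_le_div_iff₀ (by positivity)
    (by positivity)]
  clear * - i hi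
  linarith only [hi, mul_nonneg_of_nonpos_of_nonpos (Mathlib.Tactic.Linarith.sub_nonpos_of_le (Mathlib.Tactic.Linarith.natCast_nonneg ℝ i)) (Mathlib.Tactic.Linarith.sub_nonpos_of_le hi)]

theorem cfreet_all {t : ℝ} {b : ℕ} (ht : 0 < t) (h : (b : ℝ) + 1 / 4 ≤ xc t) :
    |∑ i ∈ range b, cfreet_w t (b - i)| ≤ 6 := by
  rcases Nat.eq_zero_or_pos b with rfl | hb
  · simp
  have hx : (b : ℝ) < xc t := by linarith only [h]
  rw [range_eq_Ico, sum_eq_sum_Ico_succ_bot hb]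
  have h1 := cfreet_tail (s := 0 + 1) ht hx le_rfl
  have h2 := cfreet_w1 ht hx
  have h3 : eh t b ≤ 1 / (1 / 4) :=
    (aup_eh_le ht hx).trans (one_div_le_one_div_of_le (by norm_num) (by linarith only [h]))
  refine (abs_add_le _ _).trans ?_
  simp only [Nat.cast_zero, sub_zero, zero_add, Nat.cast_one] at h1 ⊢
  linarith only [h2, h3, h1]

/-- the end piece without its main term -/
noncomputable def cfreet_J (L v : ℝ) : ℝ :=
  L * (π ^ 2 / 6 - 1) - asum_I L⁻¹ (xc L⁻¹ - v) - v * log L / 2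

theorem cfreet_log {L : ℝ} {B : ℕ} (hL0 : 0 < L) (h : (B : ℝ) < xc L⁻¹) :
    FreeT L⁻¹ 0 B = exp (-hL L) * L ^ ((xc L⁻¹ - B) / 2) *
      exp (-(xc L⁻¹ - B) - cfreet_J L (xc L⁻¹ - B) - asum_I L⁻¹ 0 +
        ∑ i ∈ range B, cfreet_w L⁻¹ (B - i)) := by
  rw [cfreet_eq (inv_pos.2 hL0) h, rpow_def_of_pos hL0, ← exp_add, ← exp_add, cfreet_J,
    sub_sub_cancel]
  congr 1
  linarith only [asum_hL L B]

theorem cfreet_xc (s : ℝ) : ∀ᶠ L : ℝ in atTop, s ≤ xc L⁻¹ := by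
  filter_upwards [eventually_ge_atTop (exp 2), eventually_ge_atTop s] with L h1 h2
  have hL0 : 0 < L := (exp_pos 2).trans_le h1
  have h4 : 2 ≤ log L := (le_log_iff_exp_le hL0).2 h1
  rw [xc, inv_inv]
  linarith only [h2, hL0, h4, mul_nonneg_of_nonpos_of_nonpos (le_of_lt (Mathlib.Tactic.Linarith.sub_neg_of_lt hL0)) (Mathlib.Tactic.Linarith.sub_nonpos_of_le h4)]

theorem cfreet_D {τ : ℝ} (h0 : 0 ≤ τ) (h1 : τ ≤ 1) : τ - τ ^ 2 / 2 ≤ asum_D τ := by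
  have := asum_mvt (f := fun s => asum_D s - (s - s ^ 2 / 2)) h0
    ((asum_D_cont.mono (Set.Icc_subset_Icc_right h1)).sub (by fun_prop))
    (fun u h2 h3 => (asum_D_deriv h2 (by linarith)).sub
      ((hasDerivAt_id' u).sub ((hasDerivAt_pow 2 u).div_const 2))) fun u h2 h3 => by
      have h4 : 0 < 1 - u := by linarith
      have h5 := mul_le_mul_of_nonneg_right (log_le_sub_one_of_pos h4) h4.le
      rw [sub_nonneg, le_div_iff₀ h2]
      norm_num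
      linarith only [h5]
  simp only [asum_D_zero] at this
  linarith only [this]

theorem cfreet_I0 : Tendsto (fun L : ℝ => asum_I L⁻¹ 0) atTop (nhds 1) := by
  have h0 : Tendsto (fun L : ℝ => tau L⁻¹ 0) atTop (nhds 0) := by
    have h1 : Tendsto (fun L : ℝ => exp 2 / L) atTop (nhds 0) := tendsto_const_nhds.div_atTop tendsto_id
    refine tendsto_of_tendsto_of_tendsto_of_le_of_le' tendsto_const_nhds h1 ?_ ?_
    · filter_upwards [cfreet_xc 0, eventually_gt_atTop 0] with L h2 h3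
      exact (alam_spec (inv_pos.2 h3) h2).1.le
    · filter_upwards [cfreet_xc 0, eventually_gt_atTop 0] with L h2 h3
      rw [le_div_iff₀' h3]
      exact asum_start h3 h2 h3.le
  have h1 : Tendsto (fun L : ℝ => exp (tau L⁻¹ 0)) atTop (nhds 1) := by
    simpa using h0.rexp
  have h2 : Tendsto (fun L : ℝ => exp (tau L⁻¹ 0) * (1 - tau L⁻¹ 0 / 2)) atTop (nhds 1) := by
    simpa using h1.mul ((h0.div_const 2).const_sub 1)
  have h3 : ∀ L : ℝ, 0 ≤ xc L⁻¹ → 0 < L → exp (tau L⁻¹ 0) = L * tau L⁻¹ 0 := fun L h4 h5 => by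
    obtain ⟨h6, -, h7⟩ := alam_spec (inv_pos.2 h5) h4
    rw [← exp_log (mul_pos h5 h6), log_mul h5.ne' h6.ne']
    rw [log_inv] at h7
    congr 1
    linarith only [h7]
  refine tendsto_of_tendsto_of_tendsto_of_le_of_le' h2 h1 ?_ ?_
  · filter_upwards [cfreet_xc 0, eventually_gt_atTop 0] with L h4 h5
    obtain ⟨h6, h7, -⟩ := alam_spec (inv_pos.2 h5) h4
    have h8 := mul_le_mul_of_nonneg_left (cfreet_D h6.le h7) h5.le
    rw [h3 L h4 h5, asum_I, inv_inv]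
    linarith only [h8]
  · filter_upwards [cfreet_xc 0, eventually_gt_atTop 0] with L h4 h5
    rw [h3 L h4 h5]
    exact (asum_I_bounds h5 h4).2.1

theorem cfreet_l_up {L s e : ℝ} (hL0 : 0 < L) (hs : 0 < s)
    (he : exp (-e) ≤ tau L⁻¹ (xc L⁻¹ - s)) :
    asum_l L⁻¹ (xc L⁻¹ - s) ≤ (log L - log 2 + e - log s) / 2 := by
  have ht := inv_pos.2 hL0
  have hx : xc L⁻¹ - s < xc L⁻¹ := by linarith only [hs]
  have h2 := sigma_sharp ht hx
  rw [sub_sub_cancel] at h2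
  have h7 : 2 * (L⁻¹ * s) * exp (-e) ≤ (1 - tau L⁻¹ (xc L⁻¹ - s)) ^ 2 :=
    (mul_le_mul_of_nonneg_left he (by positivity)).trans h2
  have h5 := log_le_log (by positivity) h7
  rw [log_pow, log_mul (by positivity) (exp_pos _).ne', log_mul two_ne_zero (by positivity),
    log_mul ht.ne' hs.ne', log_inv, log_exp] at h5
  unfold asum_l
  push_cast at h5
  linarith only [h5]

theorem cfreet_end_up {L v e : ℝ} (hL0 : 0 < L) (hv : 0 ≤ v)
    (he : exp (-e) ≤ tau L⁻¹ (xc L⁻¹ - v)) :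
    L * (π ^ 2 / 6 - 1) - asum_I L⁻¹ (xc L⁻¹ - v) ≤
      ((log L - log 2 + e + 1) * v - v * log v) / 2 := by
  have ht := inv_pos.2 hL0
  have hc : ContinuousOn (fun s => asum_I L⁻¹ (xc L⁻¹ - s)) (Set.Icc 0 v) :=
    (asum_I_cont ht).comp (by fun_prop) fun s hs => sub_le_self _ hs.1
  have hd : ∀ s, 0 < s → HasDerivAt (fun s => asum_I L⁻¹ (xc L⁻¹ - s))
      (asum_l L⁻¹ (xc L⁻¹ - s) * -1) s := fun s hs =>
    (asum_I_deriv ht (by linarith only [hs])).comp s ((hasDerivAt_id' s).const_sub _)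
  have hc2 : ∀ c : ℝ, ContinuousOn (fun s => (c * s - s * log s) / 2) (Set.Icc 0 v) := fun c =>
    (((continuous_const.mul continuous_id).sub continuous_mul_log).div_const 2).continuousOn
  have hd2 : ∀ c s : ℝ, 0 < s → HasDerivAt (fun s => (c * s - s * log s) / 2)
      ((c * 1 - (log s + 1)) / 2) s := fun c s hs =>
    (((hasDerivAt_id' s).const_mul c).sub (hasDerivAt_mul_log hs.ne')).div_const 2
  have := asum_mvt hv (hc.add (hc2 (log L - log 2 + e + 1)))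
    (fun s h1 _ => (hd s h1).add (hd2 _ s h1)) fun s h1 h2 => by
      linarith only [hL0, h1, he, ht, h2, cfreet_l_up hL0 h1 (he.trans (alam_mono ht (by linarith) (by linarith)))]
  simp only [Pi.add_apply, sub_zero, asum_I_xc hL0, mul_zero, zero_mul, zero_div] at this
  linarith only [this]

theorem cfreet_tau {v : ℝ} (hv : 0 < v) :
    Tendsto (fun L : ℝ => tau L⁻¹ (xc L⁻¹ - v)) atTop (nhds 1) := by
  have h1 : Tendsto (fun L : ℝ => 1 - √(2 * (L⁻¹ * v))) atTop (nhds 1) := by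
    simpa using ((tendsto_inv_atTop_zero.mul_const v).const_mul 2).sqrt.const_sub (1 : ℝ)
  refine tendsto_of_tendsto_of_tendsto_of_le_of_le' h1 tendsto_const_nhds ?_ ?_
  · filter_upwards [eventually_gt_atTop 0] with L hL0
    have h2 := (sigma_bounds (inv_pos.2 hL0) (show xc L⁻¹ - v < xc L⁻¹ by linarith)).1
    rw [sub_sub_cancel] at h2
    linarith only [h2, le_sqrt_of_sq_le h2]
  · filter_upwards [eventually_gt_atTop 0] with L hL0
    exact (alam_spec (inv_pos.2 hL0) (show xc L⁻¹ - v ≤ xc L⁻¹ by linarith)).2.1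

theorem cfreet_J_lim {v : ℝ} (hv : 0 < v) :
    Tendsto (fun L : ℝ => cfreet_J L v) atTop (nhds (((1 - log 2) * v - v * log v) / 2)) := by
  have h1 : Tendsto (fun L : ℝ => ((1 - log 2 - log (tau L⁻¹ (xc L⁻¹ - v))) * v - v * log v) / 2)
      atTop (nhds (((1 - log 2) * v - v * log v) / 2)) := by
    have h2 := (cfreet_tau hv).log one_ne_zero
    rw [log_one] at h2
    simpa using (((h2.const_sub (1 - log 2)).mul_const v).sub_const (v * log v)).div_const 2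
  refine tendsto_of_tendsto_of_tendsto_of_le_of_le' tendsto_const_nhds h1 ?_ ?_
  · filter_upwards [eventually_gt_atTop 0, eventually_ge_atTop v] with L hL0 h2
    have h3 := (asum_end hL0 hv.le (by linarith)).1
    rw [cfreet_J]
    linarith only [h3]
  · filter_upwards [eventually_gt_atTop 0] with L hL0
    have h4 := (alam_spec (inv_pos.2 hL0) (show xc L⁻¹ - v ≤ xc L⁻¹ by linarith)).1
    have h3 := cfreet_end_up (e := -log (tau L⁻¹ (xc L⁻¹ - v))) hL0 hv.le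
      (by rw [neg_neg, exp_log h4])
    rw [cfreet_J]
    linarith only [h3]

/-- the filter of pairs at distance one from the critical time -/
def cfreet_F : Filter (ℝ × ℕ) :=
  comap Prod.fst atTop ⊓ principal {p | (p.2 : ℝ) + 1 = xc p.1⁻¹}

theorem cfreet_ev {P : ℝ × ℕ → Prop} : (∀ᶠ p in cfreet_F, P p) ↔
    ∀ᶠ L : ℝ in atTop, ∀ B : ℕ, (B : ℝ) + 1 = xc L⁻¹ → P (L, B) := by
  rw [cfreet_F, eventually_inf_principal, eventually_comap]
  refine eventually_congr (Eventually.of_forall fun L => ⟨fun h B hB => h (L, B) rfl hB, ?_⟩)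
  rintro h ⟨L', B⟩ rfl hB
  exact h B hB

theorem cfreet_fst {f : ℝ → ℝ} {a : ℝ} (h : Tendsto f atTop (nhds a)) :
    Tendsto (fun p : ℝ × ℕ => f p.1) cfreet_F (nhds a) :=
  h.comp (tendsto_comap.mono_left inf_le_left)

theorem cfreet_w_lim (i : ℕ) : ∃ w : ℝ,
    Tendsto (fun p : ℝ × ℕ => cfreet_w p.1⁻¹ (p.2 - i)) cfreet_F (nhds w) := by
  have hi : (0 : ℝ) ≤ i := Nat.cast_nonneg i
  have h1 : Tendsto (fun p : ℝ × ℕ => √p.1 * rate p.1⁻¹ 0 p.2 i) cfreet_F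
      (nhds (√2 * (√(i + 2) - √(i + 1)))) := by
    refine Metric.tendsto_nhds.2 fun ε hε => cfreet_ev.2 ?_
    filter_upwards [rate_lim i (half_pos hε)] with L h B hB
    rw [Real.dist_eq]
    linarith only [hε, h, hB, (h B hB).1]
  have h2 : √2 * (√(i + 2) - √(i + 1)) ≠ 0 :=
    (mul_pos (by positivity) (sub_pos.2 (sqrt_lt_sqrt (by linarith) (by linarith)))).ne'
  refine ⟨_, ((h1.log h2).sub ((cfreet_fst (cfreet_J_lim (v := i + 2) (by linarith))).sub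
    (cfreet_fst (cfreet_J_lim (v := i + 1) (by linarith))))).congr' (cfreet_ev.2 ?_)⟩
  filter_upwards [eventually_gt_atTop 0, cfreet_xc (i + 1)] with L hL0 h3 B hB
  have h4 : i ≤ B := by
    have : (i : ℝ) ≤ B := by linarith only [h3, hB]
    exact_mod_cast this
  have h5 := cfreet_pos (inv_pos.2 hL0) (show (B : ℝ) - i < xc L⁻¹ by linarith only [hB])
  show log (√L * rate L⁻¹ 0 B i) - (cfreet_J L (i + 2) - cfreet_J L (i + 1)) = _
  rw [rate, Nat.cast_sub h4, zero_add, log_mul (sqrt_pos.2 hL0).ne' h5.ne', log_sqrt hL0.le,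
    cfreet_w, cfreet_J, cfreet_J, log_inv, show xc L⁻¹ - (i + 2) = B - i - 1 by linarith only [hB],
    show xc L⁻¹ - (i + 1) = B - i by linarith only [hB]]
  ring

theorem freeT_theta : ∃ C : ℝ, 1 ≤ C ∧ ∀ᶠ L : ℝ in atTop, ∀ B : ℕ, Gap L B →
    C⁻¹ * (exp (-hL L) * L ^ ((xc L⁻¹ - B) / 2)) ≤ FreeT L⁻¹ 0 B ∧
      FreeT L⁻¹ 0 B ≤ C * (exp (-hL L) * L ^ ((xc L⁻¹ - B) / 2)) := by
  refine ⟨exp (exp 2 + 14), one_le_exp (by positivity), ?_⟩
  filter_upwards [eventually_ge_atTop 1] with L hL1 B ⟨h1, h2⟩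
  have hL0 : 0 < L := by linarith only [hL1]
  have hB : (0 : ℝ) ≤ B := Nat.cast_nonneg B
  have h3 := abs_le.1 (cfreet_all (inv_pos.2 hL0) h1)
  obtain ⟨h4, h5, -⟩ := asum_I_bounds hL0 (x := 0) (by linarith only [h1])
  have h6 := asum_start hL0 (x := 0) (by linarith only [h1]) hL0.le
  rw [cfreet_log hL0 (by linarith only [h1]), cfreet_J]
  set v := xc L⁻¹ - B with hv
  have hv0 : 0 < v := by linarith only [h1]
  have hv2 : v ≤ 2 := by linarith only [h2]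
  obtain ⟨h7, h8⟩ := asum_end hL0 hv0.le (by linarith only [hL1, h2])
  have h9 : log 2 ≤ 1 := by linarith only [log_le_sub_one_of_pos two_pos]
  have h10 := mul_le_mul_of_nonneg_left (log_le_sub_one_of_pos hv0) hv0.le
  have h11 := mul_le_mul_of_nonneg_left (one_sub_inv_le_log_of_pos hv0) hv0.le
  rw [mul_sub, mul_inv_cancel₀ hv0.ne'] at h11
  have h12 := mul_nonneg (sub_nonneg.2 h9) hv0.le
  have h13 : 0 < exp (-hL L) * L ^ (v / 2) := by positivity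
  have h14 := exp_pos 2
  rw [← exp_neg, mul_comm (exp _) (_ * _), mul_comm (exp _) (_ * _)]
  constructor
  · refine mul_le_mul_of_nonneg_left (exp_le_exp.2 ?_) h13.le
    clear * - v L B h2 h3 h5 h6 h8 h11
    linarith only [h2, h3, h5, h6, h8, h11]
  · refine mul_le_mul_of_nonneg_left (exp_le_exp.2 ?_) h13.le
    clear * - v L B h3 h4 hv0 h7 h10 h12 h14 h1 h2
    linarith only [h3, h4, hv0, h7, h10, h12, h14, h1, h2, mul_nonneg_of_nonpos_of_nonpos (Mathlib.Tactic.Linarith.sub_nonpos_of_le h1) (Mathlib.Tactic.Linarith.sub_nonpos_of_le h2)]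

theorem freeT_lim : ∃ c : ℝ, 0 < c ∧ ∀ ζ : ℝ, 0 < ζ → ∀ᶠ L : ℝ in atTop, ∀ B : ℕ,
    (B : ℝ) + 1 = xc L⁻¹ → |FreeT L⁻¹ 0 B / (exp (-hL L) * √L) - c| ≤ ζ := by
  rcases cfreet_F.eq_or_neBot with h | h
  · refine ⟨1, one_pos, fun ζ _ => (cfreet_ev (P := fun p =>
      |FreeT p.1⁻¹ 0 p.2 / (exp (-hL p.1) * √p.1) - 1| ≤ ζ)).1 ?_⟩
    rw [h]
    exact eventually_bot
  choose w hw using cfreet_w_lim
  have h1 : ∀ ζ : ℝ, 0 < ζ → ∃ y : ℝ, ∀ᶠ p : ℝ × ℕ in cfreet_F,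
      |(-1 - cfreet_J p.1 1 - asum_I p.1⁻¹ 0 + ∑ i ∈ range p.2, cfreet_w p.1⁻¹ (p.2 - i)) - y| ≤
        ζ := fun ζ hζ => by
    obtain ⟨s, hs⟩ := exists_nat_ge (4 / ζ)
    have hs0 : (0 : ℝ) < s := lt_of_lt_of_le (by positivity) hs
    have hs1 : 1 ≤ s := Nat.cast_pos.1 hs0
    have hs2 : 2 / (s : ℝ) ≤ ζ / 2 := by
      rw [div_le_iff₀ hζ] at hs
      rw [div_le_iff₀ hs0]
      linarith only [hs]
    have h2 := (((cfreet_fst (cfreet_J_lim one_pos)).const_sub (-1)).sub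
      (cfreet_fst cfreet_I0)).add (tendsto_finsetSum (range s) fun i _ => hw i)
    refine ⟨-1 - ((1 - log 2) * 1 - 1 * log 1) / 2 - 1 + ∑ c ∈ range s, w c,
      ((Metric.tendsto_nhds.1 h2 _ (half_pos hζ)).and
      ((cfreet_ev (P := fun p => 0 < p.1 ∧ s ≤ p.2 ∧ (p.2 : ℝ) < xc p.1⁻¹)).2 ?_)).mono ?_⟩
    · filter_upwards [eventually_gt_atTop 0, cfreet_xc (s + 1)] with L hL0 h3 B hB
      have : (s : ℝ) ≤ B := by linarith only [h3, hB]
      exact ⟨hL0, by exact_mod_cast this, by linarith only [hB]⟩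
    · rintro p ⟨h3, hL0, h4, h5⟩
      have h6 := abs_le.1 (cfreet_tail (inv_pos.2 hL0) h5 hs1)
      rw [Real.dist_eq, abs_lt] at h3
      rw [← sum_range_add_sum_Ico _ h4, abs_le]
      constructor <;> linarith only [hs2, h3, h6, h3.1, h3.2, h6.1, h6.2]
  obtain ⟨y, hy⟩ := h1 1 one_pos
  obtain ⟨c, -, hc⟩ := exists_lim (c0 := y - 1)
    (hy.mono fun p hp => by linarith only [hp, (abs_le.1 hp).1]) h1
  refine ⟨exp c, exp_pos c, fun ζ hζ => ?_⟩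
  filter_upwards [cfreet_ev.1 (Metric.tendsto_nhds.1 hc.rexp ζ hζ), eventually_gt_atTop 0]
    with L h2 hL0 B hB
  have h3 := h2 B hB
  rw [Real.dist_eq] at h3
  rw [cfreet_log hL0 (by linarith only [hB]), show xc L⁻¹ - B = 1 by linarith only [hB], ← sqrt_eq_rpow,
    mul_div_cancel_left₀ _ (by positivity)]
  exact h3.le

end Pool.Agent.Work.MP_5391ad_co
end
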