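import Mathlib
import Pool.Agent.Work.MP_5391ad_co.MGr

-- merged part: Pool.Agent.Work.MP_5391ad_co.CLLT
section
/-! A quantitative local limit theorem. Let `χ θ = ∑ p k e^{i k θ}`. The coefficients `P n` of
`(mk p)^m` are nonnegative, summable, and `∑ P n e^{i n θ} = χ θ ^ m` (Cauchy product), so
`2 π P (m-1) = ∫_{-π}^{π} χ^m e^{-i (m-1) θ} = ∫ ψ^m e^{i θ}` with `ψ = χ e^{-i θ}`
(`hasSum_integral_of_summable_norm` / `intervalIntegral` version, orthogonality).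
`‖e^{i y} - 1 - i y + y^2/2‖ ≤ |y|^3/6` (or any constant, then shrink the range by hand: on
`|θ| ≤ v/ρ` one needs `‖ψ‖ ≤ e^{-v θ^2/3}`; prove the bound with `1/6` by integrating three times).
On `|θ| ≤ θ0 = v/ρ ≤ 1`: `v θ^2 ≤ 1`, `‖ψ - (1 - v θ^2/2)‖ ≤ ρ |θ|^3/6 ≤ v θ^2/6`,
`‖ψ - e^{-v θ^2/2}‖ ≤ ρ |θ|^3/3`, `‖ψ^m - e^{-m v θ^2/2}‖ ≤ m ρ |θ|^3/3 e^{-(m-1) v θ^2/3}`,
`‖e^{i θ} - 1‖ ≤ |θ|`. Gaussian integrals: `integral_gaussian`, `∫ |u|^k e^{-u^2/3} < ∞`; note
`θ0 √(v m) ≥ 1/c` and `√(v m) ≥ 1/c` because `v ≤ ρ`. -/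

namespace Pool.Agent.Work.MP_5391ad_co

open Real

open MeasureTheory Set

theorem cllt_taylor (y : ℝ) :
    ‖Complex.exp (y * Complex.I) - 1 - y * Complex.I + (y : ℂ) ^ 2 / 2‖ ≤ |y| ^ 3 / 6 := by
  have hl : ∀ t : ℝ, HasDerivAt (fun t : ℝ => (y : ℂ) * Complex.I * t) (y * Complex.I) t :=
    fun t => by simpa using (Complex.ofRealCLM.hasDerivAt (x := t)).const_mul (y * Complex.I)
  have hn : ‖(y : ℂ) * Complex.I‖ = |y| := by simp
  have d1 : ∀ t : ℝ, HasDerivAt (fun t : ℝ => Complex.exp (y * Complex.I * t) - 1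
      - y * Complex.I * t) (y * Complex.I * (Complex.exp (y * Complex.I * t) - 1)) t := fun t =>
    (((hl t).cexp.sub_const 1).sub (hl t)).congr_deriv (by ring)
  have b1 := image_norm_le_of_norm_deriv_right_le_deriv_boundary (a := 0) (b := 1)
    (B := fun t => |y| ^ 2 * (t ^ 2 / 2)) (B' := fun t => |y| ^ 2 * t)
    (fun t _ => (d1 t).continuousAt.continuousWithinAt) (fun t _ => (d1 t).hasDerivWithinAt)
    (by simp) (fun t => (((hasDerivAt_pow 2 t).div_const 2).const_mul _).congr_deriv (by simp))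
    (fun t ht => by
      have := norm_exp_I_mul_ofReal_sub_one_le (x := y * t)
      rw [norm_eq_abs, abs_mul, abs_of_nonneg ht.1,
        show Complex.I * ((y * t : ℝ) : ℂ) = y * Complex.I * t by push_cast; ring] at this
      rw [norm_mul, hn, sq, mul_assoc |y|]
      exact mul_le_mul_of_nonneg_left this (abs_nonneg y))
  have d2 : ∀ t : ℝ, HasDerivAt (fun t : ℝ => Complex.exp (y * Complex.I * t) - 1
      - y * Complex.I * t - (y * Complex.I * t) ^ 2 / 2)
      (y * Complex.I * (Complex.exp (y * Complex.I * t) - 1 - y * Complex.I * t)) t := fun t =>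
    ((d1 t).sub (((hl t).pow 2).div_const 2)).congr_deriv (by simp; ring)
  have b2 := image_norm_le_of_norm_deriv_right_le_deriv_boundary (a := 0) (b := 1)
    (B := fun t => |y| ^ 3 * (t ^ 3 / 6)) (B' := fun t => |y| ^ 3 * (t ^ 2 / 2))
    (fun t _ => (d2 t).continuousAt.continuousWithinAt) (fun t _ => (d2 t).hasDerivWithinAt)
    (by simp) (fun t => (((hasDerivAt_pow 3 t).div_const 6).const_mul _).congr_deriv
      (by norm_num; ring_nf; simp))
    (fun t ht => by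
      rw [norm_mul, hn, pow_succ' |y| 2, mul_assoc |y|]
      exact mul_le_mul_of_nonneg_left (b1 (Ico_subset_Icc_self ht)) (abs_nonneg y))
    (right_mem_Icc.2 zero_le_one)
  simp only [Complex.ofReal_one, mul_one, one_pow, mul_pow, Complex.I_sq] at b2
  rw [show Complex.exp (y * Complex.I) - 1 - y * Complex.I + (y : ℂ) ^ 2 / 2
    = Complex.exp (y * Complex.I) - 1 - y * Complex.I - (y : ℂ) ^ 2 * -1 / 2 by ring]
  linarith only [b2]

theorem cllt_pow_sub {a b : ℂ} {R : ℝ} (ha : ‖a‖ ≤ R) (hb : ‖b‖ ≤ R) (n : ℕ) :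
    ‖a ^ (n + 1) - b ^ (n + 1)‖ ≤ (n + 1) * ‖a - b‖ * R ^ n := by
  have hR : 0 ≤ R := (norm_nonneg a).trans ha
  induction n with
  | zero => simp
  | succ n ih =>
    have h1 : ‖a * (a ^ (n + 1) - b ^ (n + 1))‖ ≤ R * ((n + 1) * ‖a - b‖ * R ^ n) := by
      rw [norm_mul]
      exact mul_le_mul ha ih (norm_nonneg _) hR
    have h2 : ‖(a - b) * b ^ (n + 1)‖ ≤ ‖a - b‖ * R ^ (n + 1) := by
      rw [norm_mul, norm_pow]
      exact mul_le_mul_of_nonneg_left (pow_le_pow_left₀ (norm_nonneg b) hb _) (norm_nonneg _)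
    rw [show a ^ (n + 1 + 1) - b ^ (n + 1 + 1)
      = a * (a ^ (n + 1) - b ^ (n + 1)) + (a - b) * b ^ (n + 1) by ring]
    refine (norm_add_le _ _).trans ((add_le_add h1 h2).trans_eq ?_)
    push_cast
    ring

theorem cllt_gen {p : ℕ → ℝ} (hp : Summable fun k => |p k|) {z : ℂ} (hz : ‖z‖ = 1) (m : ℕ) :
    (Summable fun n => ‖((PowerSeries.coeff n (PowerSeries.mk p ^ m) : ℝ) : ℂ) * z ^ n‖) ∧
      ∑' n, ((PowerSeries.coeff n (PowerSeries.mk p ^ m) : ℝ) : ℂ) * z ^ n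
        = (∑' k, (p k : ℂ) * z ^ k) ^ m := by
  have hg : Summable fun k => ‖(p k : ℂ) * z ^ k‖ := by simpa [hz] using hp
  induction m with
  | zero =>
    have h0 : ∀ n, n ≠ 0 →
        ((PowerSeries.coeff n (PowerSeries.mk p ^ 0) : ℝ) : ℂ) * z ^ n = 0 := fun n hn => by
      simp [PowerSeries.coeff_one, hn]
    refine ⟨(hasSum_single 0 fun n hn => by rw [h0 n hn, norm_zero]).summable, ?_⟩
    rw [tsum_eq_single 0 h0]
    simp
  | succ m ih =>
    have e : ∀ n, ((PowerSeries.coeff n (PowerSeries.mk p ^ (m + 1)) : ℝ) : ℂ) * z ^ n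
        = ∑ kl ∈ Finset.HasAntidiagonal.antidiagonal n,
          ((PowerSeries.coeff kl.1 (PowerSeries.mk p ^ m) : ℝ) : ℂ) * z ^ kl.1 *
            ((p kl.2 : ℂ) * z ^ kl.2) := fun n => by
      rw [pow_succ, PowerSeries.coeff_mul, Complex.ofReal_sum, Finset.sum_mul]
      refine Finset.sum_congr rfl fun kl h => ?_
      rw [← Finset.HasAntidiagonal.mem_antidiagonal.1 h, PowerSeries.coeff_mk, pow_add]
      push_cast
      ring
    have k1 := summable_norm_sum_mul_antidiagonal_of_summable_norm ih.1 hg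
    have k2 := tsum_mul_tsum_eq_tsum_sum_antidiagonal_of_summable_norm ih.1 hg
    simp only [← e] at k1 k2
    exact ⟨k1, by rw [← k2, ih.2, pow_succ]⟩

theorem cllt_orth (n j : ℕ) :
    ∫ θ in Ioc (-π) π, Complex.exp (θ * Complex.I) ^ n * Complex.exp (-(θ * Complex.I)) ^ j
      = if n = j then (2 * π : ℂ) else 0 := by
  rw [← intervalIntegral.integral_of_le (by linarith only [pi_pos])]
  have e : ∀ θ : ℝ, Complex.exp (θ * Complex.I) ^ n * Complex.exp (-(θ * Complex.I)) ^ j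
      = Complex.exp (((n : ℂ) - j) * Complex.I * θ) := fun θ => by
    rw [← Complex.exp_nat_mul, ← Complex.exp_nat_mul, ← Complex.exp_add]
    congr 1
    ring
  simp only [e]
  split_ifs with h
  · simp [h, two_mul]
  · rw [integral_exp_mul_complex
      (mul_ne_zero (sub_ne_zero.2 (by exact_mod_cast h)) Complex.I_ne_zero), div_eq_zero_iff,
      sub_eq_zero]
    refine Or.inl (Complex.exp_eq_exp_iff_exists_int.2 ⟨(n : ℤ) - j, ?_⟩)
    push_cast
    ring

theorem cllt_inv {P : ℕ → ℝ} (hP : Summable fun n => |P n|) (j : ℕ) :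
    ∫ θ in Ioc (-π) π, (∑' n, (P n : ℂ) * Complex.exp (θ * Complex.I) ^ n) *
      Complex.exp (-(θ * Complex.I)) ^ j = 2 * π * P j := by
  have hn : ∀ n (θ : ℝ), ‖(P n : ℂ) * (Complex.exp (θ * Complex.I) ^ n *
      Complex.exp (-(θ * Complex.I)) ^ j)‖ = |P n| := fun n θ => by
    simp [Complex.norm_exp]
  have h := hasSum_integral_of_summable_integral_norm (μ := volume.restrict (Ioc (-π) π))
    (F := fun n (θ : ℝ) => (P n : ℂ) * (Complex.exp (θ * Complex.I) ^ n *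
      Complex.exp (-(θ * Complex.I)) ^ j))
    (fun n => (Continuous.integrableOn_Icc (by fun_prop)).mono_set Ioc_subset_Icc_self)
    (by
      simp only [hn, integral_const, smul_eq_mul]
      exact hP.mul_left _)
  simp only [integral_const_mul, cllt_orth] at h
  have h2 := hasSum_single (f := fun n => (P n : ℂ) * if n = j then (2 * π : ℂ) else 0) j
    fun n hn => by simp [hn]
  rw [if_pos rfl] at h2
  rw [mul_comm (2 * π : ℂ), ← h.unique h2]
  refine integral_congr_ae (Filter.Eventually.of_forall fun θ => ?_)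
  simp only [← mul_assoc]
  exact tsum_mul_right.symm

theorem cllt_psi {p : ℕ → ℝ} {v ρ : ℝ} (h0 : ∀ k, 0 ≤ p k) (h1 : HasSum p 1)
    (h2 : HasSum (fun k : ℕ => k * p k) 1) (h3 : HasSum (fun k : ℕ => ((k : ℝ) - 1) ^ 2 * p k) v)
    (h4 : ∀ s : Finset ℕ, ∑ k ∈ s, |(k : ℝ) - 1| ^ 3 * p k ≤ ρ) (θ : ℝ) :
    ‖(∑' k, (p k : ℂ) * Complex.exp (θ * Complex.I) ^ k) * Complex.exp (-(θ * Complex.I))
      - ((1 - v * θ ^ 2 / 2 : ℝ) : ℂ)‖ ≤ ρ * |θ| ^ 3 / 6 := by
  have hs : Summable fun k => (p k : ℂ) * Complex.exp (θ * Complex.I) ^ k :=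
    .of_norm (by simpa [Complex.norm_exp, abs_of_nonneg (h0 _)] using h1.summable)
  have a1 := Complex.hasSum_ofReal.2 h1
  have a2 := Complex.hasSum_ofReal.2 (h2.sub h1)
  have a3 := Complex.hasSum_ofReal.2 h3
  have a := (((hs.hasSum.mul_right (Complex.exp (-(θ * Complex.I)))).sub a1).sub
    (a2.mul_right (θ * Complex.I))).add (a3.mul_right ((θ : ℂ) ^ 2 / 2))
  have b : ∀ n, ‖∑ k ∈ Finset.range n, ((p k : ℂ) * Complex.exp (θ * Complex.I) ^ k *
      Complex.exp (-(θ * Complex.I)) - (p k : ℂ) - ((k * p k - p k : ℝ) : ℂ) * (θ * Complex.I)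
      + ((((k : ℝ) - 1) ^ 2 * p k : ℝ) : ℂ) * ((θ : ℂ) ^ 2 / 2))‖ ≤ ρ * |θ| ^ 3 / 6 := fun n => by
    refine (norm_sum_le_of_le _ (n := fun k : ℕ => |(k : ℝ) - 1| ^ 3 * p k * (|θ| ^ 3 / 6))
      fun k _ => ?_).trans ?_
    · have t := cllt_taylor (((k : ℝ) - 1) * θ)
      have e : Complex.exp (θ * Complex.I) ^ k * Complex.exp (-(θ * Complex.I))
          = Complex.exp (((((k : ℝ) - 1) * θ : ℝ) : ℂ) * Complex.I) := by
        rw [← Complex.exp_nat_mul, ← Complex.exp_add]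
        congr 1
        push_cast
        ring
      rw [← e, abs_mul, mul_pow] at t
      have t2 := mul_le_mul_of_nonneg_left t (h0 k)
      rw [← Complex.norm_of_nonneg (h0 k), ← norm_mul, Complex.norm_of_nonneg (h0 k)] at t2
      refine le_trans (le_of_eq ?_) (t2.trans_eq (by ring))
      congr 1
      push_cast
      ring
    · rw [← Finset.sum_mul, mul_div_assoc]
      exact mul_le_mul_of_nonneg_right (h4 _) (by positivity)
  refine le_trans (le_of_eq ?_) (le_of_tendsto' a.tendsto_sum_nat.norm b)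
  congr 1
  push_cast
  ring

theorem cllt_vle {p : ℕ → ℝ} {v ρ : ℝ} (h0 : ∀ k, 0 ≤ p k)
    (h3 : HasSum (fun k : ℕ => ((k : ℝ) - 1) ^ 2 * p k) v)
    (h4 : ∀ s : Finset ℕ, ∑ k ∈ s, |(k : ℝ) - 1| ^ 3 * p k ≤ ρ) : v ≤ ρ := by
  refine le_of_tendsto' h3.tendsto_sum_nat fun n => le_trans (Finset.sum_le_sum fun k _ => ?_)
    (h4 (Finset.range n))
  refine mul_le_mul_of_nonneg_right ?_ (h0 k)
  rcases k with _ | _ | k
  · simp
  · simp
  · rw [← sq_abs]
    refine pow_le_pow_right₀ (le_trans ?_ (le_abs_self _)) (by norm_num)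
    have : (0 : ℝ) ≤ k := k.cast_nonneg
    push_cast
    linarith

theorem cllt_poly (u : ℝ) :
    (u ^ 3 + u) * exp (-(u ^ 2 / 3)) ≤ 144 * exp (-(u ^ 2 / 6)) := by
  have h1 : 1 + u ^ 2 ≤ 12 * exp (u ^ 2 / 12) := by
    have := add_one_le_exp (u ^ 2 / 12)
    linarith only [this]
  have h2 : u ^ 3 + u ≤ (1 + u ^ 2) ^ 2 := by
    have : u ≤ 1 + u ^ 2 := by linarith only [sq_nonneg (u - 1), sq_nonneg (u - (1 : ℝ)), sq_nonneg u]
    linarith only [this, mul_le_mul_of_nonneg_right this (by positivity : 0 ≤ 1 + u ^ 2)]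
  have h3 : (1 + u ^ 2) ^ 2 ≤ (12 * exp (u ^ 2 / 12)) ^ 2 := pow_le_pow_left₀ (by positivity) h1 2
  refine (mul_le_mul_of_nonneg_right (h2.trans h3) (exp_pos _).le).trans_eq ?_
  rw [mul_pow, ← exp_nat_mul, mul_assoc, ← exp_add]
  congr 2
  · norm_num
  · push_cast
    ring

theorem cllt_centre {ψ : ℂ} {x δ : ℝ} (n : ℕ) (hx : 0 ≤ x) (hx1 : x ≤ 1) (hδ : δ ≤ x)
    (hx2 : x ^ 2 ≤ δ) (h : ‖ψ - ((1 - x / 2 : ℝ) : ℂ)‖ ≤ δ / 6) :
    ‖ψ ^ (n + 1) - ((exp (-((n + 1) * x / 2)) : ℝ) : ℂ)‖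
      ≤ (n + 1) * δ * exp (-((n + 1) * x / 3)) := by
  have h1 : ‖ψ‖ ≤ exp (-(x / 3)) := by
    have a := norm_add_le (ψ - ((1 - x / 2 : ℝ) : ℂ)) ((1 - x / 2 : ℝ) : ℂ)
    rw [sub_add_cancel, Complex.norm_of_nonneg (by linarith only [hx1])] at a
    have := add_one_le_exp (-(x / 3))
    linarith only [hδ, h, a, this]
  have h2 : ‖((exp (-(x / 2)) : ℝ) : ℂ)‖ ≤ exp (-(x / 3)) := by
    rw [Complex.norm_of_nonneg (exp_pos _).le]
    exact exp_le_exp.2 (by linarith only [hx])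
  have h3 : ‖ψ - ((exp (-(x / 2)) : ℝ) : ℂ)‖ ≤ δ / 2 := by
    clear * - ψ x hx1 hx δ hx2 h
    have a := norm_sub_le (ψ - ((1 - x / 2 : ℝ) : ℂ))
      ((exp (-(x / 2)) - 1 - -(x / 2) : ℝ) : ℂ)
    have b := abs_exp_sub_one_sub_id_le (x := -(x / 2)) (abs_le.2 ⟨by linarith only [hx1], by linarith only [hx]⟩)
    rw [Complex.norm_real, norm_eq_abs, show ψ - ((1 - x / 2 : ℝ) : ℂ)
      - ((exp (-(x / 2)) - 1 - -(x / 2) : ℝ) : ℂ) = ψ - ((exp (-(x / 2)) : ℝ) : ℂ) by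
        simp only [Complex.ofReal_sub, Complex.ofReal_neg]; ring] at a
    linarith only [hx2, h, a, b, sq_nonneg x]
  have h4 := cllt_pow_sub h1 h2 n
  have h5 : exp (-(x / 3)) ^ n ≤ 2 * exp (-((n + 1) * x / 3)) := by
    clear * - x n hx1
    have a := add_one_le_exp (-(x / 3))
    have b : exp (-((n + 1) * x / 3)) = exp (-(x / 3)) ^ n * exp (-(x / 3)) := by
      rw [← exp_nat_mul, ← exp_add]
      congr 1
      ring
    have c : 0 ≤ exp (-(x / 3)) ^ n := by positivity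
    rw [b]
    linarith only [c, hx1, a, mul_nonneg_of_nonpos_of_nonpos (Mathlib.Tactic.Linarith.sub_nonpos_of_le hx1) (Mathlib.Tactic.Linarith.sub_nonpos_of_le c), mul_nonneg_of_nonpos_of_nonpos (Mathlib.Tactic.Linarith.sub_nonpos_of_le a) (Mathlib.Tactic.Linarith.sub_nonpos_of_le c)]
  have e : exp (-((n + 1) * x / 2)) = exp (-(x / 2)) ^ (n + 1) := by
    rw [← exp_nat_mul]
    congr 1
    push_cast
    ring
  have hδ0 : 0 ≤ δ := le_trans (sq_nonneg x) hx2
  rw [e, Complex.ofReal_pow]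
  refine h4.trans ((mul_le_mul (mul_le_mul_of_nonneg_left h3 (by positivity)) h5 (by positivity)
    (by positivity)).trans_eq (by ring))

theorem cllt_point {χ : ℂ} {v ρ ν c σ θ : ℝ} (n : ℕ) (hv : 0 < v) (hvρ : v ≤ ρ)
    (h32 : v ^ 3 ≤ ρ ^ 2) (hσ : 0 < σ) (hσ2 : σ ^ 2 = v * (n + 1)) (hc : ρ ≤ c * v * σ)
    (h1 : ‖χ * Complex.exp (-(θ * Complex.I)) - ((1 - v * θ ^ 2 / 2 : ℝ) : ℂ)‖ ≤ ρ * |θ| ^ 3 / 6)
    (h2 : v / ρ ≤ |θ| → |θ| ≤ π → ‖χ‖ ≤ exp (-ν)) :
    ‖(Ioc (-π) π).indicator (fun _ => χ ^ (n + 1) * Complex.exp (-(θ * Complex.I)) ^ n) θ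
      - ((exp (-(σ ^ 2 / 2) * θ ^ 2) : ℝ) : ℂ)‖
      ≤ 144 * c * exp (-(σ ^ 2 / 6) * θ ^ 2)
        + (Ioc (-π) π).indicator (fun _ => exp (-((n + 1) * ν))) θ := by
  have hρ : 0 < ρ := hv.trans_le hvρ
  have ht : 0 ≤ |θ| := abs_nonneg θ
  have hcσ : 1 ≤ c * σ := le_of_mul_le_mul_left (by linarith only [hvρ, hc] : v * 1 ≤ v * (c * σ)) hv
  have hc0 : 0 < c := pos_of_mul_pos_left (by linarith only [hcσ] : 0 < c * σ) hσ.le
  have hp := mul_le_mul_of_nonneg_left (cllt_poly (σ * |θ|)) hc0.le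
  rw [mul_pow σ _ 2, sq_abs, show -(σ ^ 2 * θ ^ 2 / 6) = -(σ ^ 2 / 6) * θ ^ 2 by ring,
    ← mul_assoc c 144, mul_comm c 144] at hp
  have hG : exp (-(σ ^ 2 / 2) * θ ^ 2) ≤ exp (-(σ ^ 2 * θ ^ 2 / 3)) :=
    exp_le_exp.2 (by clear * - σ θ; linarith only [sq_nonneg (σ * θ), sq_nonneg (σ * θ)])
  have hE := (exp_pos (-(σ ^ 2 * θ ^ 2 / 3))).le
  have hG0 := (exp_pos (-(σ ^ 2 / 2) * θ ^ 2)).le
  have hI : 0 ≤ (Ioc (-π) π).indicator (fun _ => exp (-((n + 1) * ν))) θ :=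
    indicator_nonneg (fun _ _ => (exp_pos _).le) θ
  have hu3 : 0 ≤ c * (σ * |θ|) ^ 3 * exp (-(σ ^ 2 * θ ^ 2 / 3)) := by positivity
  by_cases h : |θ| ≤ v / ρ
  · have hv1 : v / ρ ≤ 1 := (div_le_one hρ).2 hvρ
    have hm : θ ∈ Ioc (-π) π := by
      clear * - θ v ρ h hv1
      have := abs_le.1 (h.trans hv1)
      have := pi_gt_three
      constructor <;> linarith [this]
    have h' : |θ| * ρ ≤ v := (le_div_iff₀ hρ).1 h
    have hx : 0 ≤ v * θ ^ 2 := by positivity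
    have hx1 : v * θ ^ 2 ≤ 1 := by
      clear * - θ ρ v hρ h' h32 hv
      have a : (|θ| * ρ) ^ 2 ≤ v ^ 2 := pow_le_pow_left₀ (by positivity) h' 2
      rw [mul_pow, sq_abs] at a
      refine le_of_mul_le_mul_right ?_ (by positivity : 0 < ρ ^ 2)
      linarith only [h32, a, hv, mul_le_mul_of_nonneg_left a hv.le]
    have hδ : ρ * |θ| ^ 3 ≤ v * θ ^ 2 := by
      clear * - ρ θ v h'
      rw [← sq_abs θ]
      nlinarith [mul_le_mul_of_nonneg_right h' (sq_nonneg |θ|)]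
    have hx2 : (v * θ ^ 2) ^ 2 ≤ ρ * |θ| ^ 3 := by
      clear * - v θ ρ hx hx1 h32 hρ
      refine le_of_sq_le_sq ?_ (by positivity)
      have a : ((v * θ ^ 2) ^ 2) ^ 2 ≤ (v * θ ^ 2) ^ 3 := by
        rw [← pow_mul]
        exact pow_le_pow_of_le_one hx hx1 (by norm_num)
      have b : (ρ * |θ| ^ 3) ^ 2 = ρ ^ 2 * (θ ^ 2) ^ 3 := by
        rw [← sq_abs θ]
        ring
      rw [b]
      refine a.trans ?_
      rw [mul_pow]
      exact mul_le_mul_of_nonneg_right h32 (by positivity)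
    have k := cllt_centre n hx hx1 hδ hx2 h1
    rw [show ((n : ℝ) + 1) * (v * θ ^ 2) = σ ^ 2 * θ ^ 2 by rw [hσ2]; ring,
      show -(σ ^ 2 * θ ^ 2 / 2) = -(σ ^ 2 / 2) * θ ^ 2 by ring] at k
    have e1 : Complex.exp (-(θ * Complex.I)) * Complex.exp (θ * Complex.I) = 1 := by
      rw [← Complex.exp_add, neg_add_cancel, Complex.exp_zero]
    have e2 : χ ^ (n + 1) * Complex.exp (-(θ * Complex.I)) ^ n
        - ((exp (-(σ ^ 2 / 2) * θ ^ 2) : ℝ) : ℂ)
        = ((χ * Complex.exp (-(θ * Complex.I))) ^ (n + 1)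
          - ((exp (-(σ ^ 2 / 2) * θ ^ 2) : ℝ) : ℂ)) * Complex.exp (θ * Complex.I)
          + ((exp (-(σ ^ 2 / 2) * θ ^ 2) : ℝ) : ℂ) * (Complex.exp (θ * Complex.I) - 1) := by
      rw [mul_pow]
      linear_combination (-χ ^ (n + 1) * Complex.exp (-(θ * Complex.I)) ^ n) * e1
    have e3 : ‖Complex.exp (θ * Complex.I) - 1‖ ≤ c * (σ * |θ|) := by
      clear * - θ c σ hcσ ht
      have := norm_exp_I_mul_ofReal_sub_one_le (x := θ)
      rw [mul_comm, norm_eq_abs] at this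
      linarith only [this, hcσ, ht, mul_le_mul_of_nonneg_right hcσ ht]
    have e4 : ((n : ℝ) + 1) * (ρ * |θ| ^ 3) ≤ c * (σ * |θ|) ^ 3 := by
      clear * - ρ n θ c v σ hc hσ2
      have := mul_le_mul_of_nonneg_right hc (by positivity : 0 ≤ ((n : ℝ) + 1) * |θ| ^ 3)
      refine le_trans (le_of_eq (by ring)) (this.trans_eq ?_)
      rw [mul_pow, pow_succ σ 2, hσ2]
      ring
    rw [indicator_of_mem hm, e2]
    refine (norm_add_le _ _).trans ?_
    rw [norm_mul, norm_mul, Complex.norm_exp_ofReal_mul_I, mul_one, Complex.norm_of_nonneg hG0]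
    have e5 := mul_le_mul hG e3 (norm_nonneg _) hE
    have e6 := mul_le_mul_of_nonneg_right e4 hE
    clear * - χ θ n σ c ν ρ hp hI k e5 e6
    linarith only [hp, hI, k, e5, e6]
  · have h' : v ≤ |θ| * ρ := (div_le_iff₀ hρ).1 (not_le.1 h).le
    have a : 1 ≤ c * (σ * |θ|) := by
      clear * - v c σ θ ρ h' hc ht hv
      refine le_of_mul_le_mul_left ?_ hv
      linarith only [h', hc, ht, mul_le_mul_of_nonneg_left hc ht]
    have b := mul_le_mul_of_nonneg_right a hE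
    have d : ‖(Ioc (-π) π).indicator
        (fun _ => χ ^ (n + 1) * Complex.exp (-(θ * Complex.I)) ^ n) θ‖
        ≤ (Ioc (-π) π).indicator (fun _ => exp (-((n + 1) * ν))) θ := by
      clear * - χ n θ ν h2 v ρ h
      by_cases hm : θ ∈ Ioc (-π) π
      · have := pow_le_pow_left₀ (norm_nonneg χ)
          (h2 (not_le.1 h).le (abs_le.2 ⟨hm.1.le, hm.2⟩)) (n + 1)
        rw [← exp_nat_mul] at this
        rw [indicator_of_mem hm, indicator_of_mem hm, norm_mul, norm_pow, norm_pow,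
          Complex.norm_exp]
        simpa using this
      · simp [indicator_of_notMem hm]
    refine (norm_sub_le _ _).trans ?_
    rw [Complex.norm_of_nonneg hG0]
    linarith only [hp, hG, hu3, b, d]

theorem llt_quant {ζ : ℝ} (hζ : 0 < ζ) : ∃ c : ℝ, 0 < c ∧ ∀ (p : ℕ → ℝ) (v ρ ν : ℝ) (m : ℕ),
    (∀ k, 0 ≤ p k) → HasSum p 1 → HasSum (fun k : ℕ => k * p k) 1 →
    HasSum (fun k : ℕ => ((k : ℝ) - 1) ^ 2 * p k) v →
    (∀ s : Finset ℕ, ∑ k ∈ s, |(k : ℝ) - 1| ^ 3 * p k ≤ ρ) → 0 < v → v ^ 3 ≤ ρ ^ 2 → 1 ≤ m →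
    ρ ≤ c * v * √(v * m) →
    (∀ θ : ℝ, v / ρ ≤ |θ| → |θ| ≤ π →
      ‖∑' k : ℕ, (p k : ℂ) * Complex.exp (k * θ * Complex.I)‖ ≤ exp (-ν)) →
    √(v * m) * exp (-(m * ν)) ≤ c →
    |PowerSeries.coeff (m - 1) (PowerSeries.mk p ^ m) * √(2 * π * v * m) - 1| ≤ ζ := by
  refine ⟨ζ / 730, by positivity, fun p v ρ ν m h0 h1 h2 h3 h4 hv h32 hm hc hχ hν => ?_⟩
  obtain ⟨n, rfl⟩ : ∃ n, m = n + 1 := ⟨m - 1, by omega⟩
  set c := ζ / 730 with hcd
  have hc0 : 0 < c := by positivity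
  have hπ := pi_pos
  rw [Nat.add_sub_cancel]
  push_cast at hc hν ⊢
  set σ := √(v * (n + 1)) with hσd
  have hσ : 0 < σ := sqrt_pos.2 (by positivity)
  have hσ2 : σ ^ 2 = v * (n + 1) := sq_sqrt (by positivity)
  have hp : Summable fun k => |p k| := h1.summable.abs
  set P : ℕ → ℝ := fun j => PowerSeries.coeff j (PowerSeries.mk p ^ (n + 1)) with hP
  have hPs : Summable fun j => |P j| := by
    simpa using (cllt_gen hp (z := 1) norm_one (n + 1)).1
  let χ : ℝ → ℂ := fun θ => ∑' k, (p k : ℂ) * Complex.exp (θ * Complex.I) ^ k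
  have hχc : Continuous χ := continuous_tsum (fun k => by fun_prop) hp fun k θ => by
    simp [Complex.norm_exp]
  let f : ℝ → ℂ := fun θ => χ θ ^ (n + 1) * Complex.exp (-(θ * Complex.I)) ^ n
  have hf : Integrable ((Ioc (-π) π).indicator f) :=
    (integrable_indicator_iff measurableSet_Ioc).2
      ((Continuous.integrableOn_Icc (by fun_prop)).mono_set Ioc_subset_Icc_self)
  have i1 : ∫ θ, (Ioc (-π) π).indicator f θ = ((2 * π * P n : ℝ) : ℂ) := by
    rw [integral_indicator measurableSet_Ioc]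
    push_cast
    rw [← cllt_inv hPs n]
    refine integral_congr_ae (Filter.Eventually.of_forall fun θ => ?_)
    simp only [f, χ, hP]
    rw [(cllt_gen hp (Complex.norm_exp_ofReal_mul_I θ) (n + 1)).2]
  have g2 := integrable_exp_neg_mul_sq (b := σ ^ 2 / 2) (by positivity)
  have g6 := integrable_exp_neg_mul_sq (b := σ ^ 2 / 6) (by positivity)
  have hI : Integrable ((Ioc (-π) π).indicator fun _ : ℝ => exp (-((n + 1) * ν))) :=
    (integrable_indicator_iff measurableSet_Ioc).2 (integrableOn_const (by simp))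
  have key := norm_integral_le_of_norm_le
    (f := fun θ => (Ioc (-π) π).indicator f θ - ((exp (-(σ ^ 2 / 2) * θ ^ 2) : ℝ) : ℂ))
    ((g6.const_mul (144 * c)).add hI) (Filter.Eventually.of_forall fun θ =>
      cllt_point (χ := χ θ) n hv (cllt_vle h0 h3 h4) h32 hσ hσ2 hc (cllt_psi h0 h1 h2 h3 h4 θ)
        fun a b => by simpa only [χ, ← Complex.exp_nat_mul, mul_assoc] using hχ θ a b)
  simp only [Pi.add_apply] at key
  have g3 : Integrable fun θ : ℝ => ((exp (-(σ ^ 2 / 2) * θ ^ 2) : ℝ) : ℂ) := g2.ofReal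
  rw [integral_sub hf g3, i1, integral_complex_ofReal, integral_gaussian,
    integral_add (g6.const_mul _) hI, integral_const_mul, integral_gaussian,
    integral_indicator measurableSet_Ioc, setIntegral_const,
    volume_real_Ioc_of_le (by linarith only [hπ]), smul_eq_mul] at key
  have s1 : √(π / (σ ^ 2 / 2)) = √(2 * π) / σ := by
    rw [show π / (σ ^ 2 / 2) = 2 * π / σ ^ 2 by field_simp, sqrt_div' _ (sq_nonneg σ),
      sqrt_sq hσ.le]
  have s2 : √(π / (σ ^ 2 / 6)) ≤ 5 / σ := by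
    clear * - σ hσ
    rw [show π / (σ ^ 2 / 6) = 6 * π / σ ^ 2 by field_simp, sqrt_div' _ (sq_nonneg σ),
      sqrt_sq hσ.le]
    exact div_le_div_of_nonneg_right (sqrt_le_iff.2 ⟨by norm_num, by linarith only [pi_le_four]⟩) hσ.le
  have s3 : √(2 * π * v * (n + 1)) = √(2 * π) * σ := by
    rw [mul_assoc (2 * π), sqrt_mul (by positivity)]
  have s4 : √(2 * π) ^ 2 = 2 * π := sq_sqrt (by positivity)
  have s5 : 1 ≤ √(2 * π) := one_le_sqrt.2 (by linarith only [hπ, pi_gt_three])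
  have k1 : |2 * π * P n - √(2 * π) / σ| ≤ 144 * c * (5 / σ) + 8 * exp (-((n + 1) * ν)) := by
    rw [s1] at key
    have a : ‖((2 * π * P n : ℝ) : ℂ) - ((√(2 * π) / σ : ℝ) : ℂ)‖ = |2 * π * P n - √(2 * π) / σ| := by
      rw [← Complex.ofReal_sub, Complex.norm_real, norm_eq_abs]
    have b := mul_le_mul_of_nonneg_left s2 (by positivity : 0 ≤ 144 * c)
    have d := mul_le_mul_of_nonneg_right (by linarith only [pi_le_four] : π - -π ≤ 8)
      (exp_pos (-((n + 1) * ν))).le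
    exact a.symm.trans_le (key.trans (add_le_add b d))
  have k2 : σ * |2 * π * P n - √(2 * π) / σ| ≤ ζ := by
    clear * - σ P n c ν k1 hσ ζ hcd hc0 hν
    have a := mul_le_mul_of_nonneg_left k1 hσ.le
    have b : σ * (144 * c * (5 / σ) + 8 * exp (-((n + 1) * ν)))
        = 720 * c + 8 * (σ * exp (-((n + 1) * ν))) := by
      field_simp
      ring
    linarith only [hcd, hc0, hν, a, b]
  have k3 : √(2 * π) * (P n * (√(2 * π) * σ) - 1) = σ * (2 * π * P n - √(2 * π) / σ) := by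
    rw [mul_sub σ, mul_div_cancel₀ _ hσ.ne']
    linear_combination (σ * P n) * s4
  have k4 := congrArg abs k3
  rw [abs_mul, abs_mul, abs_of_pos hσ, abs_of_nonneg (sqrt_nonneg _)] at k4
  rw [s3]
  clear * - n p σ ζ P k2 k4 s5
  linarith only [k2, k4, s5, mul_le_mul_of_nonneg_right s5 (abs_nonneg (P n * (√(2 * π) * σ) - 1))]

end Pool.Agent.Work.MP_5391ad_co
end

-- merged part: Pool.Agent.Work.MP_5391ad_co.CTree
section
/-! The coefficients of the block generating function.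
`wr_eq`: induction on `n`; with `ϕ = mk (cW k / k!)`,
`∑_k c k (q + k) coeff (n-q-k) ϕ^n = q coeff (n-q) ϕ^(n+1) + coeff (n-q) (X ϕ' ϕ^n)` and
`(n+1) ϕ' ϕ^n = (ϕ^(n+1))'` (`PowerSeries.derivative`); the case `q = 0` of the inner terms and
`n = 0` are separate.
`tree_llt`: `w = log L`, `x = xc L⁻¹ = L (w - 1)`, `ϕ(w) = e^w - w + x = (L - 1) w`,
`p k = cW 0 (1+x) k w^k/(k! ϕ(w))`; mean `1`, `v = E K(K-1) = w L/(L-1)`, `E K(K-1)(K-2) = w^2 L/(L-1)`,
`ρ = 4 w^2`, `v/ρ ≥ 1/(4w)`; `‖χ θ‖ ≤ (x + w + e^{w cos θ})/ϕ(w) ≤ 1 - 1/(200 w^2)` for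
`|θ| ≥ 1/(4 w)` (`1 - cos θ ≥ 2 θ^2/π^2`, `Real.cos_le_one_sub_mul_cos_sq` or
`Real.cos_quadratic_upper_bound`). `coeff (m-1) ϕ^m = ϕ(w)^m w^(1-m) coeff (m-1) (mk p)^m`
(`PowerSeries.rescale`), so `coeff m pLam (L-1)^(-m) = (w/m) coeff (m-1) (mk p)^m`. The function
`√(v m) exp (-m ν)` is small for all `m ≥ √L` because `exp (-y) ≤ 1/y`, or `≤ 2/y^2`. -/

namespace Pool.Agent.Work.MP_5391ad_co

open Real Finset Filter PowerSeries

theorem ctree_euler (φ : PowerSeries ℝ) (n r : ℕ) :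
    ((n : ℝ) + 1) * ∑ p ∈ antidiagonal r, p.1 * coeff p.1 φ * coeff p.2 (φ ^ n) =
      r * coeff r (φ ^ (n + 1)) := by
  cases r with
  | zero => simp
  | succ s =>
    have h := congrArg (coeff s) (PowerSeries.derivative_pow φ (n + 1))
    rw [coeff_derivative, Nat.add_sub_cancel, mul_assoc, mul_comm (φ ^ n),
      ← map_natCast (PowerSeries.C (R := ℝ)), coeff_C_mul, coeff_mul] at h
    rw [Finset.Nat.sum_antidiagonal_succ]
    push_cast at h ⊢
    rw [mul_comm ((s : ℝ) + 1), h, zero_mul, zero_mul, zero_add]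
    refine congrArg _ ?_
    refine sum_congr rfl fun p _ => ?_
    rw [coeff_derivative]
    ring

theorem ctree_wr (κ ω : ℝ) : ∀ n q r : ℕ, n = q + r → (n : ℝ) * Wr κ ω n q =
    q * coeff r (PowerSeries.mk (fun k => cW κ ω k / k.factorial) ^ n)
  | 0, q, r, h => by simp [show q = 0 by omega]
  | n + 1, 0, r, h => by simp [Wr]
  | n + 1, q + 1, r, h => by
    obtain rfl : n = q + r := by omega
    rcases Nat.eq_zero_or_pos (q + r) with e | e
    · obtain rfl : q = 0 := by omega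
      obtain rfl : r = 0 := by omega
      simp [Wr]
    set φ := PowerSeries.mk (fun k => cW κ ω k / (k.factorial : ℝ)) with hφ
    have h1 : ((q + r : ℕ) : ℝ) * Wr κ ω (q + r + 1) (q + 1) = q * coeff r (φ ^ (q + r + 1)) +
        ∑ p ∈ antidiagonal r, p.1 * coeff p.1 φ * coeff p.2 (φ ^ (q + r)) := by
      rw [Wr, ← sum_subset (range_subset_range.2 (by omega : r + 1 ≤ q + r + 1)) fun k _ hk => by
        rw [qtree_zero κ ω (by have := mem_range.not.1 hk; omega), mul_zero],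
        pow_succ' φ, coeff_mul, mul_sum, mul_sum, ← sum_add_distrib,
        Finset.Nat.sum_antidiagonal_eq_sum_range_succ_mk]
      refine sum_congr rfl fun k hk => ?_
      have := ctree_wr κ ω (q + r) (q + k) (r - k) (by have := mem_range.1 hk; omega)
      rw [mul_left_comm, this, ← hφ]
      simp only [hφ, coeff_mk]
      push_cast
      ring
    have h2 := ctree_euler φ (q + r) r
    have e' : (0 : ℝ) < ((q + r : ℕ) : ℝ) := Nat.cast_pos.2 e
    refine mul_left_cancel₀ e'.ne' ?_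
    push_cast at h1 h2 ⊢
    linear_combination ((q : ℝ) + r + 1) * h1 + h2

theorem wr_eq (κ ω : ℝ) {n q : ℕ} (h1 : 1 ≤ n) (hq : q ≤ n) : Wr κ ω n q =
    q / n * coeff (n - q) (PowerSeries.mk (fun k => cW κ ω k / k.factorial) ^ n) := by
  have h := ctree_wr κ ω n q (n - q) (by omega)
  have h0 : (n : ℝ) ≠ 0 := Nat.cast_ne_zero.2 (by omega)
  rw [div_mul_eq_mul_div, eq_div_iff h0, mul_comm, h]

/-- the offspring law -/
noncomputable def ctree_p (w x Φ : ℝ) (k : ℕ) : ℝ := cW 0 (1 + x) k * (w ^ k / k.factorial) / Φ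

theorem ctree_cw {E : Type*} [NormedAddCommGroup E] [NormedSpace ℝ E] {f : ℕ → E} {a : E} (x : ℝ)
    (h : HasSum f a) : HasSum (fun k => cW 0 (1 + x) k • f k) (a + x • f 0 - f 1) := by
  have h2 := (h.add (hasSum_ite_eq 0 (x • f 0))).sub (hasSum_ite_eq 1 (f 1))
  have e : (fun k => cW 0 (1 + x) k • f k) =
      fun k => (f k + if k = 0 then x • f 0 else 0) - if k = 1 then f 1 else 0 := by
    funext k
    rcases k with _ | _ | k <;> simp [cW, add_smul]
  rw [e]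
  exact h2

theorem ctree_shift {g : ℕ → ℝ} {w a : ℝ}
    (h : HasSum (fun k : ℕ => g (k + 1) * (w ^ k / k.factorial)) a) :
    HasSum (fun k : ℕ => k * g k * (w ^ k / k.factorial)) (w * a) := by
  rw [← hasSum_nat_add_iff' 1]
  simp only [range_one, sum_singleton, Nat.cast_zero, zero_mul, sub_zero]
  refine qtsum_congr (h.mul_left w) fun k => ?_
  rw [Nat.factorial_succ]
  push_cast
  field_simp
  ring

theorem ctree_mom (w x Φ : ℝ) :
    HasSum (ctree_p w x Φ) ((exp w + x - w) / Φ) ∧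
    HasSum (fun k : ℕ => k * ctree_p w x Φ k) ((w * exp w - w) / Φ) ∧
    HasSum (fun k : ℕ => k * (k - 1) * ctree_p w x Φ k) (w * (w * exp w) / Φ) ∧
    HasSum (fun k : ℕ => k * ((k - 1) * (k - 2)) * ctree_p w x Φ k)
      (w * (w * (w * exp w)) / Φ) := by
  have key : ∀ (g : ℕ → ℝ) (a : ℝ), HasSum (fun k : ℕ => g k * (w ^ k / k.factorial)) a →
      HasSum (fun k => g k * ctree_p w x Φ k) ((a + x * g 0 - g 1 * w) / Φ) := fun g a h => by
    have h1 := (ctree_cw x h).div_const Φ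
    simp only [smul_eq_mul, pow_zero, pow_one, Nat.factorial_zero, Nat.factorial_one, Nat.cast_one,
      div_one, mul_one] at h1
    refine qtsum_congr h1 fun k => ?_
    unfold ctree_p
    ring
  have h0 : HasSum (fun k : ℕ => 1 * (w ^ k / k.factorial)) (exp w) := by
    simp only [one_mul]
    rw [Real.exp_eq_exp_ℝ]
    exact NormedSpace.expSeries_div_hasSum_exp w
  have h1 := ctree_shift (g := fun _ => 1) h0
  have h2 := ctree_shift (g := fun k => (k : ℝ) - 1) (qtsum_congr h1 fun k => by push_cast; ring)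
  have h3 := ctree_shift (g := fun k => ((k : ℝ) - 1) * (k - 2))
    (qtsum_congr h2 fun k => by push_cast; ring)
  refine ⟨?_, ?_, ?_, ?_⟩
  · simpa using key _ _ h0
  · simpa using key _ _ h1
  · simpa using key _ _ h2
  · simpa using key _ _ h3

theorem ctree_chi {w x Φ : ℝ} (hw : 0 ≤ w) (hx : 0 ≤ x) (hΦ : 0 < Φ) (θ : ℝ) :
    ‖∑' k : ℕ, (ctree_p w x Φ k : ℂ) * Complex.exp (k * θ * Complex.I)‖ ≤
      (exp (w * cos θ) + x + w) / Φ := by
  have h0 := NormedSpace.expSeries_div_hasSum_exp ((w : ℂ) * Complex.exp (θ * Complex.I))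
  rw [← Complex.exp_eq_exp_ℂ] at h0
  have h1 := (ctree_cw x h0).div_const (Φ : ℂ)
  have e : (fun k : ℕ => (ctree_p w x Φ k : ℂ) * Complex.exp (k * θ * Complex.I)) = fun k : ℕ =>
      (cW 0 (1 + x) k • (((w : ℂ) * Complex.exp (θ * Complex.I)) ^ k / k.factorial)) / Φ := by
    funext k
    rw [mul_assoc, Complex.exp_nat_mul, mul_pow, Complex.real_smul]
    unfold ctree_p
    push_cast
    ring
  rw [e, h1.tsum_eq, norm_div, Complex.norm_real, Real.norm_of_nonneg hΦ.le]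
  refine div_le_div_of_nonneg_right ((norm_sub_le _ _).trans (add_le_add
    ((norm_add_le _ _).trans (add_le_add ?_ ?_)) ?_)) hΦ.le
  · rw [Complex.norm_exp, Complex.re_ofReal_mul, Complex.exp_ofReal_mul_I_re]
  · simp [abs_of_nonneg hx]
  · simp [abs_of_nonneg hw]

theorem ctree_ev {c : ℝ} (hc : 0 < c) : ∀ᶠ L : ℝ in atTop,
    2 ≤ √√L ∧ 1 ≤ log L ∧ 640 * log L ^ 3 ≤ c * √√L := by
  have t : Tendsto (fun L : ℝ => √√L) atTop atTop := tendsto_sqrt_atTop.comp tendsto_sqrt_atTop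
  have h := (isLittleO_pow_log_id_atTop (n := 3)).bound (show 0 < c / (640 * 64) by positivity)
  filter_upwards [t.eventually h, t.eventually_ge_atTop 2, tendsto_log_atTop.eventually_ge_atTop 1,
    eventually_ge_atTop 0] with L h1 h2 h3 h4
  refine ⟨h2, h3, ?_⟩
  rw [log_sqrt (sqrt_nonneg L), log_sqrt h4, id, Real.norm_of_nonneg (sqrt_nonneg _)] at h1
  have := (le_abs_self _).trans h1
  linarith only [this]

theorem ctree_far {L w θ : ℝ} (hw : 1 ≤ w) (hL : exp w = L) (h1 : 640 * w ^ 2 ≤ L)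
    (h2 : 1 / (4 * w) ≤ |θ|) (h3 : |θ| ≤ π) :
    (exp (w * cos θ) + L * (w - 1) + w) / ((L - 1) * w) ≤ exp (-(1 / (320 * w ^ 2))) := by
  have hw0 : 0 < w := by linarith only [hw]
  have hL1 : 0 < L - 1 := by linarith only [hw, h1, mul_nonneg_of_nonpos_of_nonpos (Mathlib.Tactic.Linarith.sub_nonpos_of_le hw) (Mathlib.Tactic.Linarith.sub_nonpos_of_le hw)]
  have a1 : (1 / (4 * w)) ^ 2 ≤ θ ^ 2 := by
    rw [← sq_abs θ]
    exact pow_le_pow_left₀ (by positivity) h2 2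
  have a2 : 1 / 5 ≤ 2 / π ^ 2 := by
    rw [div_le_div_iff₀ (by norm_num) (by positivity)]
    linarith only [pi_lt_d2, pi_pos, mul_pos_of_neg_of_neg (Mathlib.Tactic.Linarith.sub_neg_of_lt pi_lt_d2) (Mathlib.Tactic.Linarith.sub_neg_of_lt pi_pos)]
  have a3 : w * cos θ ≤ w + -(1 / (80 * w)) := by
    clear * - θ h3 w a2 a1 hw
    have b1 := cos_le_one_sub_mul_cos_sq h3
    have b2 : 1 / 5 * (1 / (4 * w)) ^ 2 ≤ 2 / π ^ 2 * θ ^ 2 :=
      mul_le_mul a2 a1 (by positivity) (by positivity)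
    have b3 : w * (1 / 5 * (1 / (4 * w)) ^ 2) = 1 / (80 * w) := by
      field_simp
      norm_num
    linarith only [b1, b2, b3, hw, mul_nonneg_of_nonpos_of_nonpos (Mathlib.Tactic.Linarith.sub_nonpos_of_le hw) (Mathlib.Tactic.Linarith.sub_nonpos_of_le b1), mul_nonneg_of_nonpos_of_nonpos (Mathlib.Tactic.Linarith.sub_nonpos_of_le hw) (Mathlib.Tactic.Linarith.sub_nonpos_of_le b2)]
  have a4 : exp (-(1 / (80 * w))) ≤ 1 - 1 / (160 * w) := by
    clear * - w hw
    have b0 : 0 < 1 / (80 * w) := by positivity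
    have b1 : 1 / (80 * w) ≤ 1 := by
      rw [div_le_one (by positivity)]
      linarith only [hw]
    have b2 : 1 / (160 * w) = 1 / (80 * w) / 2 := by
      field_simp
      norm_num
    have b3 := add_one_le_exp (1 / (80 * w))
    rw [b2, exp_neg, inv_le_comm₀ (exp_pos _) (by linarith only [b1])]
    refine le_trans ?_ b3
    rw [inv_le_iff_one_le_mul₀ (by linarith only [b1])]
    linarith only [b0, b1, mul_nonneg_of_nonpos_of_nonpos (le_of_lt (Mathlib.Tactic.Linarith.sub_neg_of_lt b0)) (Mathlib.Tactic.Linarith.sub_nonpos_of_le b1)]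
  have a5 : exp (w * cos θ) ≤ L * (1 - 1 / (160 * w)) := by
    refine (exp_le_exp.2 a3).trans ?_
    rw [exp_add, hL]
    exact mul_le_mul_of_nonneg_left a4 (by linarith only [hL1])
  refine le_trans ?_ (add_one_le_exp _)
  rw [div_le_iff₀ (by positivity)]
  have a6 : (-(1 / (320 * w ^ 2)) + 1) * ((L - 1) * w) - (L * (1 - 1 / (160 * w)) + L * (w - 1) + w)
      = (L + 1 - 640 * w ^ 2) / (320 * w) := by
    field_simp
    ring
  have a7 : 0 ≤ (L + 1 - 640 * w ^ 2) / (320 * w) := div_nonneg (by linarith only [h1]) (by positivity)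
  clear * - w θ L a5 a6 a7
  linarith only [a5, a6, a7]

theorem ctree_xc (L : ℝ) : xc L⁻¹ = L * (log L - 1) := by rw [xc, inv_inv]

theorem ctree_P {ζ : ℝ} (hζ : 0 < ζ) : ∀ᶠ L : ℝ in atTop, ∀ m : ℕ, √L ≤ m →
    |coeff (m - 1) (PowerSeries.mk (ctree_p (log L) (L * (log L - 1)) ((L - 1) * log L)) ^ m) *
      √(2 * π * (log L * L / (L - 1)) * m) - 1| ≤ ζ := by
  obtain ⟨c, hc, H⟩ := llt_quant hζ
  filter_upwards [ctree_ev hc, ctree_ev one_pos, eventually_ge_atTop 2] with L ⟨hy, hw, hb⟩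
    ⟨_, _, hb1⟩ hL2 m hm
  have hL : exp (log L) = L := exp_log (by linarith only [hL2])
  have hy2 : √√L ^ 2 = √L := sq_sqrt (sqrt_nonneg L)
  have hy4 : √L ^ 2 = L := sq_sqrt (by linarith)
  generalize log L = w at *
  generalize √√L = y at *
  have hw0 : 0 < w := by linarith
  have hL1 : 0 < L - 1 := by linarith
  have hΦ : 0 < (L - 1) * w := by positivity
  have hx : 0 ≤ L * (w - 1) := mul_nonneg (by linarith) (by linarith)
  obtain ⟨m0, m1, m2, m3⟩ := ctree_mom w (L * (w - 1)) ((L - 1) * w)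
  rw [hL] at m0 m1 m2 m3
  rw [show (L + L * (w - 1) - w) / ((L - 1) * w) = 1 by field_simp; ring] at m0
  rw [show (w * L - w) / ((L - 1) * w) = 1 by field_simp] at m1
  rw [show w * (w * L) / ((L - 1) * w) = w * L / (L - 1) by field_simp] at m2
  rw [show w * (w * (w * L)) / ((L - 1) * w) = w * (w * L / (L - 1)) by field_simp] at m3
  have hv1 : w ≤ w * L / (L - 1) := by
    clear * - w L hL1 hw
    rw [le_div_iff₀ hL1]
    linarith only [hw]
  have hv2 : w * L / (L - 1) ≤ 2 * w := by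
    clear * - w L hL1 hL2 hw
    rw [div_le_iff₀ hL1]
    nlinarith
  generalize w * L / (L - 1) = v at *
  have hp : ∀ k, 0 ≤ ctree_p w (L * (w - 1)) ((L - 1) * w) k := fun k =>
    div_nonneg (mul_nonneg (qtsum_cW_nonneg le_rfl (by linarith) k) (by positivity)) hΦ.le
  have m4 : HasSum (fun k : ℕ => ((k : ℝ) - 1) ^ 2 * ctree_p w (L * (w - 1)) ((L - 1) * w) k) v := by
    have := (m2.sub m1).add m0
    rw [sub_add_cancel] at this
    exact qtsum_congr this fun k => by ring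
  have hm2 : y ^ 2 ≤ m := hy2.le.trans hm
  have hm1 : (1 : ℝ) ≤ m := by clear * - m L y hL2 hm hy4 hy2; (refine le_of_not_gt fun h_nl => ?_; linarith only [h_nl, hL2, hm, hy4, hy2, mul_nonneg_of_nonpos_of_nonpos (Mathlib.Tactic.Linarith.sub_nonpos_of_le (sq_nonneg y)) (Mathlib.Tactic.Linarith.sub_nonpos_of_le hm), mul_nonneg_of_nonpos_of_nonpos (Mathlib.Tactic.Linarith.sub_nonpos_of_le (sq_nonneg y)) (le_of_lt (Mathlib.Tactic.Linarith.sub_neg_of_lt h_nl)), Mathlib.Tactic.Linarith.mul_zero_eq (Mathlib.Tactic.Linarith.sub_nonpos_of_le (Mathlib.Tactic.Linarith.natCast_nonneg ℝ m)) (sub_eq_zero_of_eq hy2), Mathlib.Tactic.Linarith.mul_zero_eq (Mathlib.Tactic.Linarith.sub_nonpos_of_le hm) (sub_eq_zero_of_eq hy2)])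
  have hs : y ≤ √m := le_sqrt_of_sq_le hm2
  have hs2 : √m ^ 2 = m := sq_sqrt (by linarith)
  refine H _ v (4 * w ^ 2) (1 / (320 * w ^ 2)) m hp m0 m1 m4 (fun s => ?_) (by linarith) ?_
    (by exact_mod_cast hm1) ?_ (fun θ h1 h2 => ?_) ?_
  · have e : ∀ k : ℕ, |(k : ℝ) - 1| ^ 3 ≤ k * ((k - 1) * (k - 2)) + ((k : ℝ) - 1) ^ 2 := fun k => by
      clear * - k
      rcases k with _ | _ | k
      · simp
      · simp
      · have : (0 : ℝ) ≤ k := k.cast_nonneg
        push_cast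
        rw [abs_of_nonneg (by linarith)]
        linarith only [mul_nonneg_of_nonpos_of_nonpos (Mathlib.Tactic.Linarith.sub_nonpos_of_le (Mathlib.Tactic.Linarith.natCast_nonneg ℝ k)) (Mathlib.Tactic.Linarith.sub_nonpos_of_le (Mathlib.Tactic.Linarith.natCast_nonneg ℝ k))]
    have e' : ∀ k : ℕ, |(k : ℝ) - 1| ^ 3 * ctree_p w (L * (w - 1)) ((L - 1) * w) k ≤
        k * ((k - 1) * (k - 2)) * ctree_p w (L * (w - 1)) ((L - 1) * w) k +
          ((k : ℝ) - 1) ^ 2 * ctree_p w (L * (w - 1)) ((L - 1) * w) k := fun k => by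
      rw [← add_mul]
      exact mul_le_mul_of_nonneg_right (e k) (hp k)
    refine (sum_le_sum fun k _ => e' k).trans ((sum_le_hasSum s (fun k _ => le_trans
      (mul_nonneg (by positivity) (hp k)) (e' k)) (m3.add m4)).trans ?_)
    clear * - w v hw hv2
    nlinarith
  · have : v ^ 3 ≤ (2 * w) ^ 3 := pow_le_pow_left₀ (by linarith) hv2 3
    have h3 : 0 < w ^ 3 := by positivity
    clear * - v w this h3 hw
    linarith only [this, h3, hw, mul_nonneg_of_nonpos_of_nonpos (Mathlib.Tactic.Linarith.sub_nonpos_of_le hw) (le_of_lt (Mathlib.Tactic.Linarith.sub_neg_of_lt h3))]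
  · have h1 : y ≤ √(v * m) := le_sqrt_of_sq_le (by clear * - y v m L w hm hy2 hw hv1 c hb hc hw0; linarith only [hm, hy2, hw, hv1, mul_nonneg_of_nonpos_of_nonpos (Mathlib.Tactic.Linarith.sub_nonpos_of_le (Mathlib.Tactic.Linarith.natCast_nonneg ℝ m)) (Mathlib.Tactic.Linarith.sub_nonpos_of_le hw), mul_nonneg_of_nonpos_of_nonpos (Mathlib.Tactic.Linarith.sub_nonpos_of_le (Mathlib.Tactic.Linarith.natCast_nonneg ℝ m)) (Mathlib.Tactic.Linarith.sub_nonpos_of_le hv1)])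
    have h2 : c * w * y ≤ c * v * √(v * m) :=
      mul_le_mul (mul_le_mul_of_nonneg_left hv1 hc.le) h1 (by linarith only [hy])
        (mul_nonneg hc.le (by linarith only [hw, hv1]))
    have h3 : w * (640 * w ^ 3) ≤ w * (c * y) := mul_le_mul_of_nonneg_left hb hw0.le
    have h4 : 1 ≤ w ^ 2 := one_le_pow₀ hw
    clear * - w c v m y h2 h3 h4
    linarith only [h2, h3, h4, mul_nonneg_of_nonpos_of_nonpos (Mathlib.Tactic.Linarith.sub_nonpos_of_le (sq_nonneg w)) (Mathlib.Tactic.Linarith.sub_nonpos_of_le h4)]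
  · refine (ctree_chi hw0.le hx hΦ θ).trans (ctree_far hw hL ?_ (le_trans ?_ h1) h2)
    · have h3 : w ^ 2 ≤ w ^ 3 := pow_le_pow_right₀ hw (by norm_num)
      have h4 : y ≤ √L := by clear * - y L w hw hy2 hb1 h3 hy; linarith only [hw, hy2, hb1, h3, hy, mul_nonneg_of_nonpos_of_nonpos (Mathlib.Tactic.Linarith.sub_nonpos_of_le hw) (Mathlib.Tactic.Linarith.sub_nonpos_of_le hw), mul_nonneg_of_nonpos_of_nonpos (Mathlib.Tactic.Linarith.sub_nonpos_of_le hy) (Mathlib.Tactic.Linarith.sub_nonpos_of_le hy)]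
      have h5 : √L ≤ L := by clear * - L y m hL2 hy4 hy2 hy h4 hm; linarith only [hL2, hy4, hy2, hy, h4, hm, mul_nonneg_of_nonpos_of_nonpos (Mathlib.Tactic.Linarith.sub_nonpos_of_le (sq_nonneg y)) (Mathlib.Tactic.Linarith.sub_nonpos_of_le hy), mul_nonneg_of_nonpos_of_nonpos (Mathlib.Tactic.Linarith.sub_nonpos_of_le (sq_nonneg y)) (Mathlib.Tactic.Linarith.sub_nonpos_of_le h4), Mathlib.Tactic.Linarith.mul_zero_eq (Mathlib.Tactic.Linarith.sub_nonpos_of_le (Mathlib.Tactic.Linarith.natCast_nonneg ℝ m)) (sub_eq_zero_of_eq hy2), Mathlib.Tactic.Linarith.mul_zero_eq (Mathlib.Tactic.Linarith.sub_nonpos_of_le hm) (sub_eq_zero_of_eq hy2)]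
      linarith only [hb1, h3, h4, h5]
    · rw [div_le_div_iff₀ (by positivity) (by positivity)]
      clear * - w v hv1 hw
      nlinarith
  · have h1 : √(v * m) ≤ 2 * w * √m := by
      clear * - v m w hw hm1 hs2 hv2
      refine sqrt_le_iff.2 ⟨by positivity, ?_⟩
      rw [mul_pow, hs2]
      exact mul_le_mul_of_nonneg_right (by linarith only [hw, hv2, mul_nonneg_of_nonpos_of_nonpos (Mathlib.Tactic.Linarith.sub_nonpos_of_le hw) (Mathlib.Tactic.Linarith.sub_nonpos_of_le hw)]) (by linarith)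
    have h2 : exp (-(m * (1 / (320 * w ^ 2)))) ≤ 320 * w ^ 2 / m := by
      have := add_one_le_exp (m * (1 / (320 * w ^ 2)))
      rw [exp_neg, inv_le_comm₀ (exp_pos _) (by positivity), inv_div, div_eq_mul_one_div]
      linarith only [this]
    refine (mul_le_mul h1 h2 (exp_pos _).le (by positivity)).trans ?_
    rw [← mul_div_assoc, div_le_iff₀ (by linarith only [hm1])]
    have h3 : c * y ≤ c * √m := mul_le_mul_of_nonneg_left hs hc.le
    have h4 : 640 * w ^ 3 * √m ≤ c * √m * √m :=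
      mul_le_mul_of_nonneg_right (hb.trans h3) (sqrt_nonneg _)
    clear * - w m c h4 hc hs2
    linarith only [h4, hc, hs2, Mathlib.Tactic.Linarith.mul_zero_eq (Mathlib.Tactic.Linarith.sub_neg_of_lt hc) (sub_eq_zero_of_eq hs2)]

theorem ctree_coeff (x : ℝ) {w d : ℝ} (hw : w ≠ 0) (hd : d ≠ 0) {m : ℕ} (hm : 1 ≤ m) :
    coeff m (pLam x) * d⁻¹ ^ m =
      w / m * coeff (m - 1) (PowerSeries.mk (ctree_p w x (d * w)) ^ m) := by
  obtain ⟨n, rfl⟩ : ∃ n, m = n + 1 := ⟨m - 1, by omega⟩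
  have e : PowerSeries.mk (ctree_p w x (d * w)) = PowerSeries.C (d * w)⁻¹ *
      rescale w (PowerSeries.mk fun k => cW 0 (1 + x) k / k.factorial) := by
    ext k
    rw [coeff_C_mul, coeff_rescale, coeff_mk, coeff_mk, ctree_p]
    ring
  have hf : (n.factorial : ℝ) ≠ 0 := Nat.cast_ne_zero.2 n.factorial_ne_zero
  rw [e, mul_pow, ← map_pow, ← map_pow, coeff_C_mul, coeff_rescale, pLam, coeff_mk,
    if_neg n.succ_ne_zero, Nat.add_sub_cancel, treeW_eq, wr_eq _ _ hm hm, Nat.add_sub_cancel,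
    mul_inv, mul_pow, pow_succ w⁻¹, inv_pow w]
  field_simp
  simp

theorem tree_llt {ζ : ℝ} (hζ : 0 < ζ) : ∀ᶠ L : ℝ in atTop, ∀ m : ℕ, √L ≤ m →
    |coeff m (pLam (xc L⁻¹)) * (L - 1)⁻¹ ^ m * (m : ℝ) ^ (3 / 2 : ℝ) / √(log L / (2 * π)) - 1| ≤
      ζ := by
  filter_upwards [ctree_P (half_pos hζ), eventually_ge_atTop 2, eventually_ge_atTop (2 / ζ)]
    with L H hL2 hζL m hm
  have hw : 0 < log L := log_pos (by linarith only [hL2])
  have hL1 : 0 < L - 1 := by linarith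
  have hm1 : (1 : ℝ) ≤ m := (one_le_sqrt.2 (by linarith)).trans hm
  have h := H m hm
  rw [ctree_xc, ctree_coeff _ hw.ne' hL1.ne' (by exact_mod_cast hm1)]
  generalize coeff (m - 1) (_ : PowerSeries ℝ) = P at h ⊢
  generalize log L = w at *
  have hm0 : (0 : ℝ) < m := by linarith only [hm1]
  have e1 : (m : ℝ) ^ (3 / 2 : ℝ) = m * √m := by
    rw [show (3 / 2 : ℝ) = 1 + 1 / 2 by norm_num, rpow_add hm0, rpow_one, sqrt_eq_rpow]
  have e2 : √(2 * π * (w * L / (L - 1)) * m) * √((L - 1) / L) * √(w / (2 * π)) = w * √m := by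
    rw [← sqrt_mul (by positivity), ← sqrt_mul (by positivity), ← sqrt_sq hw.le,
      ← sqrt_mul (by positivity), sqrt_sq hw.le]
    refine congrArg _ ?_
    field_simp
  have e3 : w / m * P * (m * √m) / √(w / (2 * π)) =
      P * √(2 * π * (w * L / (L - 1)) * m) * √((L - 1) / L) := by
    rw [div_eq_iff (by positivity), mul_assoc P, mul_assoc P, e2]
    field_simp
  have s1 : √((L - 1) / L) ≤ 1 := sqrt_le_one.2 (by clear * - L hL2; rw [div_le_one (by linarith)]; linarith)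
  have s2 : 1 - ζ / 2 ≤ √((L - 1) / L) := by
    clear * - L hL2 hL1 ζ hζ hζL
    have t1 : (L - 1) / L ≤ 1 := by rw [div_le_one (by linarith)]; linarith
    have t0 : 0 ≤ (L - 1) / L := by positivity
    have t2 : 1 - ζ / 2 ≤ (L - 1) / L := by
      rw [div_le_iff₀ hζ] at hζL
      rw [le_div_iff₀ (by linarith)]
      linarith only [hζL]
    exact t2.trans (le_sqrt_of_sq_le (by linarith only [t1, t0, mul_nonneg_of_nonpos_of_nonpos (Mathlib.Tactic.Linarith.sub_nonpos_of_le t1) (Mathlib.Tactic.Linarith.sub_nonpos_of_le t0)]))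
  rw [e1, e3]
  generalize P * √(2 * π * (w * L / (L - 1)) * m) = A at *
  have s0 := sqrt_nonneg ((L - 1) / L)
  generalize √((L - 1) / L) = s at *
  rw [abs_le] at h ⊢
  constructor <;> linarith only [s2, hζ, s1, h, s0, h.1, h.2, mul_nonneg_of_nonpos_of_nonpos (le_of_lt (Mathlib.Tactic.Linarith.sub_neg_of_lt hζ)) (Mathlib.Tactic.Linarith.sub_nonpos_of_le s1), mul_nonneg_of_nonpos_of_nonpos (Mathlib.Tactic.Linarith.sub_nonpos_of_le h.left) (Mathlib.Tactic.Linarith.sub_nonpos_of_le s0), mul_nonneg_of_nonpos_of_nonpos (le_of_lt (Mathlib.Tactic.Linarith.sub_neg_of_lt hζ)) (Mathlib.Tactic.Linarith.sub_nonpos_of_le s0), mul_nonneg_of_nonpos_of_nonpos (Mathlib.Tactic.Linarith.sub_nonpos_of_le h.left) (Mathlib.Tactic.Linarith.sub_nonpos_of_le s1)]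

theorem tree_up : ∀ᶠ L : ℝ in atTop, ∀ (x : ℝ) (m : ℕ), -1 ≤ x → x ≤ xc L⁻¹ → √L ≤ m →
    coeff m (pLam x) * (L - 1)⁻¹ ^ m ≤ √(log L) * (m : ℝ) ^ (-(3 / 2) : ℝ) := by
  filter_upwards [tree_llt one_pos, eventually_ge_atTop 2] with L H hL2 x m hx1 hx2 hm
  have hw : 0 < log L := log_pos (by linarith only [hL2])
  have hL1 : 0 < L - 1 := by linarith
  have hm0 : (0 : ℝ) < m := (sqrt_pos.2 (by linarith only [hL2])).trans_le hm
  have h := (abs_le.1 (H m hm)).2
  rw [sub_le_iff_le_add, div_le_iff₀ (by positivity)] at h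
  have h1 : (1 + 1) * √(log L / (2 * π)) ≤ √(log L) := by
    clear * - L hw
    refine le_sqrt_of_sq_le ?_
    rw [mul_pow, sq_sqrt (by positivity), ← mul_div_assoc, div_le_iff₀ (by positivity)]
    linarith only [hw, pi_gt_three, mul_pos_of_neg_of_neg (Mathlib.Tactic.Linarith.sub_neg_of_lt hw) (Mathlib.Tactic.Linarith.sub_neg_of_lt pi_gt_three)]
  rw [rpow_neg hm0.le, ← div_eq_mul_inv, le_div_iff₀ (by positivity)]
  refine le_trans ?_ (h.trans h1)
  exact mul_le_mul_of_nonneg_right (mul_le_mul_of_nonneg_right (pLam_mono hx1 hx2 m).2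
    (by positivity)) (by positivity)

end Pool.Agent.Work.MP_5391ad_co
end
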