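import Pool.Agent.Work.MP_5391ad_co.CLima
import Pool.Agent.Work.MP_5391ad_co.CFreeT
import Pool.Agent.Work.MP_5391ad_co.CTree

-- merged part: Pool.Agent.Work.MP_5391ad_co.CLim
section
/-! The limit of the normalised volume.
`sol_lim`: apply `exists_lim` to `G = Sol (B+1) 1 / mainS L` on the filter of pairs `(L, B)` with
`B + 1 = xc L⁻¹` (`comap` of `atTop` on the subtype; nontrivial by `exists_xc`); `sol_theta` bounds
`G` above and below. Given `ζ`, fix `ζ'` small, `n0`, `c` with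
`n0^(-1/3) + c^(-2/3)` small (`rate_small`), `M, D` from `end_data`, `s1 ≥ n0` with
`D rate (s1-1)/rate (n0-1) ≤ ζ'` (`prod_rs`, `rate_theta`). `mix_end` gives
`|U s1 - c1 φ| ≤ C ζ' c1 gc`, `c1 = U s1 1 / bet s1`, which converges (`end_lim`, `rate_lim`).
`prop_both` (both halves) up to the junction `n1` for `c`: `|U n1 - c1 Λ φ(β ·)| ≤ C ζ' c1 Λ gc`,
`Λ = exp (lgL s1 n1)`; replace `φ (β q)` by `Ψ (δ q)`, `Ψ` from `exists_phi_odd` with `l = c^(1/3)`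
(`phi_le_gc`, last clause). By `Sol_lin`, `tail_cmp` with `f' = 2 U n1/(c1 Λ)`, the error is at most
`C ζ' G`. Then `start_approx`, `sol_eq_stV`, `lgL_eq`, `prod_rs`, `airy_sharp`, `rate_lim`.
`vq_theta`, `vq_lim`: `vqg_eq`, `freeT_theta`, `freeT_lim`, `rate_theta`, `rate_lim`. -/

namespace Pool.Agent.Work.MP_5391ad_co

open Real Finset Filter

theorem clim_mainS {L : ℝ} (hL : 1 < L) : 0 < mainS L := by
  have := log_pos hL
  have : 0 < L := by linarith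
  unfold mainS
  positivity

theorem clim_psi {C l δ β θ z : ℝ} (hC : 0 ≤ C) (hl : 0 < l) (hδ : 0 < δ) (h1 : l * δ ≤ β)
    (h2 : β ≤ (1 + θ) * l * δ) (hθ : θ ≤ 1) (hz : θ ≤ z) (hz0 : 0 ≤ z)
    (h : ∀ x, 0 ≤ x → ∀ y, x ≤ y → y ≤ 2 * x → x * |phi y - phi x| ≤ C * (y - x) * gc y)
    (q : ℕ) : |phi (β * q) - phi (l * (δ * q))| ≤ C * z * gc (β * q) := by
  have ld := mul_pos hl hδ
  have g0 := (gc_basic.2.2 (β * q) (mul_nonneg (by linarith) (Nat.cast_nonneg _))).1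
  rcases Nat.eq_zero_or_pos q with rfl | hq
  · simp only [Nat.cast_zero, mul_zero, sub_self, abs_zero] at g0 ⊢
    positivity
  have q0 : (0 : ℝ) < q := by exact_mod_cast hq
  have x0 : 0 < l * (δ * q) := by positivity
  have a1 := mul_le_mul_of_nonneg_right h1 q0.le
  have a2 := mul_le_mul_of_nonneg_right h2 q0.le
  have a3 := mul_le_mul_of_nonneg_right hθ x0.le
  have a4 := mul_le_mul_of_nonneg_right hz x0.le
  have a5 := h _ x0.le (β * q) (by linarith) (by linarith)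
  have a6 : C * (β * q - l * (δ * q)) * gc (β * q) ≤ C * (z * (l * (δ * q))) * gc (β * q) :=
    mul_le_mul_of_nonneg_right (mul_le_mul_of_nonneg_left (by linarith) hC) g0
  refine le_of_mul_le_mul_left ?_ x0
  linarith

theorem clim_main : ∃ C z0 : ℝ, 0 < C ∧ 0 < z0 ∧ ∀ z : ℝ, 0 < z → z ≤ z0 → ∃ y : ℝ,
    ∀ᶠ L : ℝ in atTop, ∀ B : ℕ, (B : ℝ) + 1 = xc L⁻¹ →
      |Sol (rs L⁻¹ B) 0 (dl 1) (B + 1) 1 / mainS L - y| ≤ C * z := by
  obtain ⟨C1, z1, hC1, hz1, hsh⟩ := clim_shape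
  obtain ⟨Ct, ηt, ct, st, hCt, hηt, hηt1, -, -, htl⟩ := tail_cmp
  obtain ⟨Cφ, hCφ, hφ⟩ := phi_le_gc
  obtain ⟨C0, hC0, hth⟩ := sol_theta
  refine ⟨(C1 + Cφ) * Ct * C0 + 4 * C0 * (C1 + 7) + 1, min z1 (ηt / ((C1 + Cφ + 7) * Ct)),
    by positivity, by positivity, fun z hz hz0 => ?_⟩
  have hz2 := hz0.trans (min_le_right _ _)
  rw [le_div_iff₀ (by positivity)] at hz2
  have hz3 : z * (C1 + Cφ + 7) ≤ z * ((C1 + Cφ + 7) * Ct) :=
    mul_le_mul_of_nonneg_left (le_mul_of_one_le_right (by linarith) hCt) hz.le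
  have hz4 : 0 < Cφ * z := by positivity
  have hz5 : 0 < C1 * z := by positivity
  have hz6 : 0 < Ct * z := by positivity
  obtain ⟨s1, c, hs1, hk, hc, hc1, hsh⟩ := hsh z ct hz (hz0.trans (min_le_left _ _))
  have c0 : 0 < c := by linarith
  have l0 : 0 < c ^ (1 / 3 : ℝ) := by positivity
  obtain ⟨Ψ, Ψ1, Ψ2, Ψ3, M, hodd, w0, w1, w2, w3, hΨ⟩ := exists_phi_odd l0
  obtain ⟨u, hu, hend⟩ := end_lim s1
  set l := c ^ (1 / 3 : ℝ) with hl
  set b := (2 * (s1 + 1 : ℝ)) ^ (-(1 / 3) : ℝ) with hb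
  set ρ := √2 * (√((s1 - 1 : ℕ) + 2) - √((s1 - 1 : ℕ) + 1)) with hρ
  set A := kap0 * (3 / 2) * (c ^ (2 / 3 : ℝ) + (2 * (s1 + 1 : ℝ)) ^ (1 / 3 : ℝ)) with hA
  set P0 := exp (log u - 3 / 2 * log b + A + log ρ / 6 + log l / 2 - 3 / 2 * log (1 / 2))
    with hP0
  have P00 : 0 < P0 := exp_pos _
  have b0 : 0 < b := by positivity
  have ρ0 : 0 < ρ := mul_pos (by positivity) (sub_pos.2 (sqrt_lt_sqrt (by positivity)
    (by clear * - s1 ηt z C1 Cφ Ct hηt1 hz hz2 hz3 hz4 hz5; linarith)))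
  obtain ⟨S, K, θ1, hθ1, hst⟩ := start_approx hodd w0 w1 w2 w3 c0 (div_pos hz P00)
  obtain ⟨θ2, hθ2, hai⟩ := airy_sharp hs1 hc1 hz
  obtain ⟨ζu, hζu, lu⟩ := clim_log hu hz
  obtain ⟨ζb, hζb, lb⟩ := clim_log b0 hz
  obtain ⟨ζρ, hζρ, lρ⟩ := clim_log ρ0 hz
  obtain ⟨ζ1, hζ1, l1⟩ := clim_log one_pos hz
  obtain ⟨ζl, hζl, ll⟩ := clim_log l0 hz
  obtain ⟨ζh, hζh, lh⟩ := clim_log one_half_pos hz
  obtain ⟨θ, t0, t1, t2, t3, t4, t5, t6, t7⟩ : ∃ θ : ℝ, 0 < θ ∧ θ ≤ θ1 ∧ θ ≤ θ2 ∧ θ ≤ ζ1 ∧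
      θ ≤ ζl / l ∧ θ ≤ ζh ∧ θ ≤ z ∧ θ ≤ 1 :=
    ⟨min θ1 (min θ2 (min ζ1 (min (ζl / l) (min ζh (min z 1))))), by positivity, by clear * - θ1 θ2 ζ1 ζl l ζh z; simp, by clear * - θ1 θ2 ζ1 ζl l ζh z; simp,
      by clear * - θ1 θ2 ζ1 ζl l ζh z; simp, by clear * - θ1 θ2 ζ1 ζl l ζh z; simp, by clear * - θ1 θ2 ζ1 ζl l ζh z; simp, by clear * - θ1 θ2 ζ1 ζl l ζh z; simp, by clear * - θ1 θ2 ζ1 ζl l ζh z; simp⟩
  refine ⟨P0 * S, ?_⟩
  filter_upwards [hsh, htl, hth, hai, hend ζu hζu, rate_lim s1 hζb, rate_lim (s1 - 1) hζρ,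
    exists_junction (K := K) hc1 t0, clim_B, eventually_ge_atTop (s1 : ℝ),
    eventually_ge_atTop (st : ℝ)] with L hsh htl hth hai hend hrb hrρ hj hB hL hL' B hB1
  have hG := clim_gap hB1
  obtain ⟨L1, hB⟩ := hB
  obtain ⟨B1, hB⟩ := hB B hG
  have L0 : 0 < L := by clear * - L ηt z C1 Cφ Ct hηt1 hz hz2 hz3 hz4 hz5 L1; linarith
  have i0 : 0 < L⁻¹ := inv_pos.2 L0
  have s0 : 0 < √L := sqrt_pos.2 L0
  have δ0 : 0 < (√L)⁻¹ := inv_pos.2 s0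
  obtain ⟨n1, j1, j2, j3, j4, j5, j6, j7, j8, j9⟩ := hj B hG
  obtain ⟨k1, k2⟩ := hsh B n1 hG j1 j2 j3
  have hr := rs_mem i0 B1 hB
  have hsn : s1 ≤ n1 := by exact_mod_cast hL.trans j1
  obtain ⟨x1, x2⟩ := lu _ (hend B hB1)
  obtain ⟨x3, x4⟩ := lb _ (hrb B hB1).2
  obtain ⟨x5, x6⟩ := lρ _ (hrρ B hB1).1
  have r1 := rate_pos (y := 0) (b := B) i0 (by clear * - B L ηt z C1 Cφ Ct hηt1 hz hz2 hz3 hz4 hz5 hB1 b i0 n1; linarith) (n1 - 1)
  have r2 : 1 ≤ L * rate L⁻¹ 0 B (n1 - 1) := by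
    have := mul_le_mul_of_nonneg_left r1 L0.le
    rwa [mul_inv_cancel₀ L0.ne'] at this
  obtain ⟨-, x8⟩ := l1 (L * rate L⁻¹ 0 B (n1 - 1)) (by clear * - L B n1 ζ1 hζ1 r2 θ t3 j9 l1; rw [abs_le]; constructor <;> linarith)
  have y1 : l ≤ √L * bet L⁻¹ B n1 := by
    have := mul_le_mul_of_nonneg_left j7 s0.le
    rwa [mul_comm l, mul_inv_cancel_left₀ s0.ne'] at this
  have y2 : √L * bet L⁻¹ B n1 ≤ (1 + θ) * l := by
    have := mul_le_mul_of_nonneg_left j8 s0.le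
    rwa [mul_comm ((1 + θ) * l), mul_inv_cancel_left₀ s0.ne'] at this
  rw [le_div_iff₀ l0] at t4
  obtain ⟨-, x10⟩ := ll (√L * bet L⁻¹ B n1) (by clear * - L B n1 l ζl hζl y1 θ t4 y2 ll; rw [abs_le]; constructor <;> linarith)
  obtain ⟨x11, x12⟩ := lh _ (j6.trans t5)
  have σ0 := (div_pos_iff_of_pos_right (log_pos L1)).1 x11
  have β0 : 0 < bet L⁻¹ B n1 := (mul_pos l0 δ0).trans_le j7
  have ai := hai B n1 hG hsn j3 (j4.trans (div_le_div_of_nonneg_right (by clear * - c θ θ2 t2 B hG hai hsn j3 j4 n1 s0; linarith) s0.le))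
  rw [show xc L⁻¹ - B = 1 by clear * - L B hB1 ai; linarith] at ai
  have lp := clim_logP L1 σ0 x1 (i0.trans_le r1) ((mul_pos_iff_of_pos_left s0).1 x5) x3 β0 k1 x2
    x4 (A := A) (ai.trans (by clear * - z s1 hk A ai x10 x12 x4 x6 x8; linarith)) x8 x6 x10 x12
  set m := Sol (rs L⁻¹ B) 0 (dl 1) s1 1 / bet L⁻¹ B s1 *
    exp (lgL (bet L⁻¹ B) (ap3 L⁻¹ B) s1 n1) with hm
  have m0 : 0 < m := by positivity
  obtain ⟨v1, v2⟩ := clim_U hr 1 n1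
  have q0 : ∀ q : ℕ, 0 ≤ bet L⁻¹ B n1 * q := fun q => by positivity
  have g0 : ∀ q : ℕ, 0 ≤ gc (bet L⁻¹ B n1 * q) := fun q => (gc_basic.2.2 _ (q0 q)).1
  have bΨ : Bdd fun q : ℕ => Ψ ((√L)⁻¹ * q) := ⟨|M|, fun q => (w0 _).trans
    ((div_le_div_of_nonneg_right (le_abs_self M) (cosh_pos _).le).trans
      (div_le_self (abs_nonneg _) (one_le_cosh _)))⟩
  have cmp := clim_cmp (r := rs L⁻¹ B) (n1 := n1) (T := B + 1 - n1) (m := m) (Ct := Ct)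
    (z := (C1 + Cφ) * z) (g := fun q => gc (bet L⁻¹ B n1 * q))
    (fun j _ => ⟨(hr _).1.le, (hr _).2⟩) v1 bΨ m0 (by positivity)
    (fun q => by
      clear * - L B n1 q l Cφ z θ ηt C1 Ct hηt1 hCφ hz hz2 hz3 hz4 hz5 l0 δ0 j7 j8 t7 t6 hφ m Ψ hΨ
        L1 k2 m0 s1
      have a1 := clim_psi (by linarith) l0 δ0 j7 j8 t7 t6 hz.le
        (fun x hx => (hφ x hx).2.2.2.2.2) q
      rw [hΨ _ (by positivity)]
      have a2 := abs_le.1 (k2 q)
      have a3 := mul_le_mul_of_nonneg_left a1 m0.le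
      rw [← abs_of_pos m0, ← abs_mul, abs_of_pos m0] at a3
      have a4 := abs_le.1 a3
      rw [abs_le]
      constructor <;> linarith [a2.1, a2.2, a4.1, a4.2])
    (fun f hf => htl B n1 hG (by exact_mod_cast hL'.trans j1)
      ((div_le_div_of_nonneg_right hc s0.le).trans j3) f _ hf (cpos_bdd_lin v1 v1 _ _)
      (fun q => by clear * - L B n1 q v2 m s1 x1 x3; have := v2 q; positivity)
      (fun q => by
        clear * - C1 z m L B n1 q k2 ηt Cφ Ct hz hz2 hz3 hz4 g0 m0 s1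
        have a1 := (abs_le.1 (k2 q)).1
        have a2 : C1 * z * gc (bet L⁻¹ B n1 * q) ≤ ηt * gc (bet L⁻¹ B n1 * q) :=
          mul_le_mul_of_nonneg_right (by linarith) (g0 q)
        have a3 := mul_le_mul_of_nonneg_left a2 m0.le
        rw [zero_mul, add_zero, le_inv_mul_iff₀ m0]
        linarith))
  rw [clim_add _ _ (by omega), sol_eq_stV L1 hB j2] at cmp
  have M0 := clim_mainS L1
  have st' := hst _ _ _ ⟨j5.toStH0.mono t1, fun i hi hK => (j5.e1 i hi hK).trans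
    (mul_le_mul_of_nonneg_right t1 (by positivity))⟩
  have fin := clim_fin (G := Sol (rs L⁻¹ B) 0 (dl 1) (B + 1) 1 / mainS L) (C0 := C0)
    (z := (C1 + Cφ) * z * Ct) (div_nonneg ((clim_U hr 1 _).2 1) M0.le)
    ((div_le_iff₀ M0).2 ((hth B hG).2 1 one_le_two)) (by positivity) (by clear * - C1 Cφ z Ct ηt hηt1 hz2 hz6 B M0 hG hth; linarith)
    (by
      have := div_le_div_of_nonneg_right cmp M0.le
      rw [← abs_of_pos M0, ← abs_div, abs_of_pos M0] at this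
      refine (le_of_eq_of_le ?_ this).trans (le_of_eq (by ring))
      congr 1
      ring)
    (by clear * - m L B n1 s1 x1 x3 L1 σ0 M0 P00 lp st'; positivity) P00 lp (by clear * - C1 z ηt Cφ Ct hηt1 hz2 hz3 hz4 P00 lp st'; linarith) st'
  rw [mul_div_cancel₀ _ P00.ne'] at fin
  clear * - L B P0 S C1 Cφ Ct C0 z fin
  linarith

theorem sol_lim : ∃ c : ℝ, 0 < c ∧ ∀ ζ : ℝ, 0 < ζ → ∀ᶠ L : ℝ in atTop, ∀ B : ℕ,
    (B : ℝ) + 1 = xc L⁻¹ → |Sol (rs L⁻¹ B) 0 (dl 1) (B + 1) 1 / mainS L - c| ≤ ζ := by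
  obtain ⟨C0, hC0, hth⟩ := sol_theta
  obtain ⟨C, z0, hC, hz0, h⟩ := clim_main
  have := clim_ne
  obtain ⟨c, h1, h2⟩ := exists_lim (l := clim_F) (c0 := C0⁻¹)
    (G := fun p => Sol (rs p.1.1⁻¹ p.1.2) 0 (dl 1) (p.1.2 + 1) 1 / mainS p.1.1)
    ((clim_ev (Q := fun L B => C0⁻¹ ≤ Sol (rs L⁻¹ B) 0 (dl 1) (B + 1) 1 / mainS L)).2 (by
      filter_upwards [hth, eventually_gt_atTop 1] with L h1 h2 B hB
      exact (le_div_iff₀ (clim_mainS h2)).2 (h1 B (clim_gap hB)).1))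
    (fun ζ hζ => by
      obtain ⟨y, hy⟩ := h (min z0 (ζ / C)) (by positivity) (min_le_left _ _)
      refine ⟨y, (clim_ev (Q := fun L B =>
        |Sol (rs L⁻¹ B) 0 (dl 1) (B + 1) 1 / mainS L - y| ≤ ζ)).2 (hy.mono fun L h1 B hB =>
          (h1 B hB).trans ?_)⟩
      exact (le_div_iff₀' hC).1 (min_le_right _ _))
  exact ⟨c, (inv_pos.2 (by linarith)).trans_le h1, (clim_tend
    (G := fun L B => Sol (rs L⁻¹ B) 0 (dl 1) (B + 1) 1 / mainS L)).1 h2⟩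

theorem clim_vq {L : ℝ} {B q0 : ℕ} (hL : 0 < L) (h1 : 1 ≤ B) (hB : (B : ℝ) < xc L⁻¹)
    (hq : 1 ≤ q0) : VQ L⁻¹ B q0 = exp 1 * rate L⁻¹ 0 B 0 ^ q0 * FreeT L⁻¹ 0 B *
      Sol (rs L⁻¹ B) 0 (dl q0) (B + 1) 1 :=
  vqg_eq h1 hq fun n _ => (inv_pos.2 hL).trans_le (rate_pos (inv_pos.2 hL) (by linarith) n)

theorem vq_theta : ∃ C : ℝ, 1 ≤ C ∧ ∀ᶠ L : ℝ in atTop, ∀ B : ℕ, Gap L B →
    C⁻¹ * mainV L (xc L⁻¹ - B) ≤ VQ L⁻¹ B 1 ∧ VQ L⁻¹ B 1 ≤ C * mainV L (xc L⁻¹ - B) ∧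
      VQ L⁻¹ B 2 ≤ C * (√L)⁻¹ * mainV L (xc L⁻¹ - B) := by
  obtain ⟨C0, hC0, hth⟩ := sol_theta
  obtain ⟨C1, hC1, hfr⟩ := freeT_theta
  obtain ⟨C2, hC2, hra⟩ := rate_theta
  have e1 : 1 ≤ exp 1 := one_le_exp zero_le_one
  have c1 : 1 ≤ C1 * C0 := one_le_mul_of_one_le_of_one_le hC1 hC0
  have c2 : 1 ≤ C2 * (C1 * C0) := one_le_mul_of_one_le_of_one_le hC2 c1
  have c3 : 1 ≤ exp 1 * C2 := one_le_mul_of_one_le_of_one_le e1 hC2
  refine ⟨exp 1 * C2 * (C2 * (C1 * C0)), one_le_mul_of_one_le_of_one_le c3 c2, ?_⟩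
  filter_upwards [hth, hfr, hra, clim_B] with L hth hfr hra hB B hG
  obtain ⟨L1, hB⟩ := hB
  obtain ⟨B1, hB⟩ := hB B hG
  have L0 : 0 < L := by linarith
  have s0 : 0 < √L := sqrt_pos.2 L0
  have M0 := clim_mainS L1
  obtain ⟨a1, a2⟩ := hth B hG
  obtain ⟨b1, b2⟩ := hfr B hG
  obtain ⟨r1, r2, -⟩ := hra B 0 hG (by simpa using L0.le)
  simp only [Nat.cast_zero, zero_add, sqrt_one, mul_one] at r1 r2
  rw [← div_le_iff₀' s0] at r1
  rw [← le_div_iff₀' s0] at r2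
  set F := exp (-hL L) * L ^ ((xc L⁻¹ - B) / 2) with hF
  have F0 : 0 < F := by positivity
  have hV : mainV L (xc L⁻¹ - B) = F / √L * mainS L := by
    rw [mainV, hF, sqrt_eq_rpow, sub_div (xc L⁻¹ - B), rpow_sub L0]
    ring
  have hr := rs_mem (inv_pos.2 L0) B1 hB
  have R0 : 0 < rate L⁻¹ 0 B 0 := lt_of_lt_of_le (by positivity) r1
  have T0 : 0 < FreeT L⁻¹ 0 B := lt_of_lt_of_le (by positivity) b1
  have V0 : 0 < F / √L * mainS L := by positivity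
  rw [clim_vq L0 B1 hB le_rfl, clim_vq L0 B1 hB one_le_two, hV, pow_one]
  refine ⟨?_, ?_, ?_⟩
  · have k1 : 1 * (C2⁻¹ / √L) * (C1⁻¹ * F) * (C0⁻¹ * mainS L) ≤ exp 1 * rate L⁻¹ 0 B 0 *
        FreeT L⁻¹ 0 B * Sol (rs L⁻¹ B) 0 (dl 1) (B + 1) 1 := by clear * - C2 L C1 F B C0 e1 r1 hC2 L1 b1 hC1 R0 a1 hC0 M0 T0; gcongr
    refine le_trans ?_ k1
    have k2 : (exp 1 * C2 * (C2 * (C1 * C0)))⁻¹ ≤ (C2 * (C1 * C0))⁻¹ :=
      inv_anti₀ (by linarith) (le_mul_of_one_le_left (by linarith) c3)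
    refine (mul_le_mul_of_nonneg_right k2 V0.le).trans (le_of_eq ?_)
    field_simp
  · have k0 := (clim_U hr 1 (B + 1)).2 1
    have k3 := a2 1 one_le_two
    have k1 : exp 1 * rate L⁻¹ 0 B 0 * FreeT L⁻¹ 0 B * Sol (rs L⁻¹ B) 0 (dl 1) (B + 1) 1 ≤
        exp 1 * (C2 / √L) * (C1 * F) * (C0 * mainS L) := by clear * - L B C2 C1 F C0 r2 b2 T0 hC2 L1 k3 k0 hC1; gcongr
    refine k1.trans ?_
    have k2 : exp 1 * 1 * (C2 * (C1 * C0)) ≤ exp 1 * C2 * (C2 * (C1 * C0)) := by gcongr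
    refine le_of_eq_of_le ?_ (mul_le_mul_of_nonneg_right k2 V0.le)
    field_simp
  · have k0 := (clim_U hr 2 (B + 1)).2 1
    have k3 := a2 2 le_rfl
    have k1 : exp 1 * rate L⁻¹ 0 B 0 ^ 2 * FreeT L⁻¹ 0 B * Sol (rs L⁻¹ B) 0 (dl 2) (B + 1) 1 ≤
        exp 1 * (C2 / √L) ^ 2 * (C1 * F) * (C0 * mainS L) := by clear * - L B C2 C1 F C0 R0 r2 b2 T0 hC2 L1 k3 k0 hC1; gcongr
    refine k1.trans (le_of_eq ?_)
    field_simp

theorem vq_lim : ∃ c : ℝ, 0 < c ∧ ∀ ζ : ℝ, 0 < ζ → ∀ᶠ L : ℝ in atTop, ∀ B : ℕ,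
    (B : ℝ) + 1 = xc L⁻¹ → |VQ L⁻¹ B 1 / mainV L 1 - c| ≤ ζ := by
  obtain ⟨c1, hc1, h1⟩ := sol_lim
  obtain ⟨c2, hc2, h2⟩ := freeT_lim
  have t1 := (clim_tend (G := fun L B => Sol (rs L⁻¹ B) 0 (dl 1) (B + 1) 1 / mainS L)).2 h1
  have t2 := (clim_tend (G := fun L B => FreeT L⁻¹ 0 B / (exp (-hL L) * √L))).2 h2
  have t3 := (clim_tend (G := fun L B => √L * rate L⁻¹ 0 B 0)).2 fun ζ hζ =>
    (rate_lim 0 hζ).mono fun L h B hB => (h B hB).1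
  refine ⟨_, ?_, (clim_tend (G := fun L B => VQ L⁻¹ B 1 / mainV L 1)).1
    ((((t3.const_mul (exp 1)).mul t2).mul t1).congr' ?_)⟩
  · have : 0 < √(((0 : ℕ) : ℝ) + 2) - √(((0 : ℕ) : ℝ) + 1) :=
      sub_pos.2 (sqrt_lt_sqrt (by positivity) (by linarith))
    positivity
  · refine (clim_ev (Q := fun L B => exp 1 * (√L * rate L⁻¹ 0 B 0) *
      (FreeT L⁻¹ 0 B / (exp (-hL L) * √L)) * (Sol (rs L⁻¹ B) 0 (dl 1) (B + 1) 1 / mainS L) =
        VQ L⁻¹ B 1 / mainV L 1)).2 (clim_B.mono fun L h B hB => ?_)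
    obtain ⟨B1, hB⟩ := h.2 B (clim_gap hB)
    have L0 : 0 < L := by linarith [h.1]
    have s0 : 0 < √L := sqrt_pos.2 L0
    have M0 := clim_mainS h.1
    rw [clim_vq L0 B1 hB le_rfl, mainV, sub_self, zero_div, rpow_zero]
    field_simp

end Pool.Agent.Work.MP_5391ad_co
end

-- merged part: Pool.Agent.Work.MP_5391ad_co.CFlat
section
/-! Anti-concentration of the total size.
`tail_up`: `tail_two`; `lgL n0 n1 = lgL n0 n2 + lgL n2 n1` for a fixed `n0` from `end_data`;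
`lgL n0 n2 ≥ -(kap0 + 1) sS ≥ -C n2^(1/3)` (`rate_theta`); the lower half of `tail_two` at `n0` and
`sol_theta` bound `exp (lgL n0 n1) δ log^(-3/2)` by `C mainS`.
`small_mass`: evaluate at `L'' = L + 40 w/log L`, where `40 w ≤ xc L''⁻¹ - xc L⁻¹ ≤ 41 w`:
`rate L''⁻¹ ≤ t''/σ'' ≤ √t/√(81 w)` (`sigma_sharp`), `rate L⁻¹ ≥ t/σ(x-1) ≥ √t/√(4.5 w)`, and
`((L''-1)/(L-1))^M ≤ e^{0.51}`; `ev_pRate`, `Ev.sum_le`.
`flat_PQ`: `w = ⌊L^(1/25)⌋`, `M = ⌈L log L/(80 w)⌉`, `γ = 1/(20 w)`, `m n = exp (-γ (2w - n))` for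
`w ≤ n < 2w`, `1` otherwise, `A' n = m n * rate n`. For `w ≤ n < 2w` let `Big` be the part of
`pRate B n` of degree `≥ M`, of mass `μ ≥ rate/2`, and `F n = pRate B n - ϑ Big` with
`ϑ μ = (1 - m n) rate`, `ϑ ≤ 1`; `Fl` holds with `lam = L^(-91/100)` by `tree_up` and `rate_theta`.
`Fl.vol`, `Fl.coeff_le`, `vq_theta`. For the modified volume use `vqg_eq`: the tilts are `≤ 1`
(`-log rs n ≥ eh (B-n-1) ≥ γ`), equal to `rs` from `2w + 1` on, after `2w + 1` steps the solution is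
`≤ 1` with support in `[1, 2w + 3]`, so `≤ exp (C w^(2/3)) gc`; `tail_up`; `∏ m n ≤ exp (-w/40)`;
`freeT_theta`. -/

namespace Pool.Agent.Work.MP_5391ad_co

open Real Finset Filter PowerSeries

theorem cflat_cb {x : ℝ} (hx : 0 ≤ x) : (x ^ (1 / 3 : ℝ)) ^ 3 = x := by
  rw [← rpow_natCast, ← rpow_mul hx]; norm_num

theorem cflat_root {x C : ℝ} (hC : 1 ≤ C) (h : x ^ 3 ≤ C) : x ≤ C := by
  by_contra hx
  have h1 : 1 ≤ x := by linarith
  have h2 : x ^ 1 ≤ x ^ 3 := pow_le_pow_right₀ h1 (by norm_num)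
  linarith

theorem cflat_step {β C : ℝ} (n : ℕ) (hC : 1 ≤ C) (hβ : 0 ≤ β) (h : β ^ 3 * (n + 1) ≤ C) :
    β ^ 2 ≤ 3 * C ^ 2 * (((n + 1 : ℕ) : ℝ) ^ (1 / 3 : ℝ) - (n : ℝ) ^ (1 / 3 : ℝ)) := by
  have h1 := cflat_cb (x := ((n + 1 : ℕ) : ℝ)) (by positivity)
  have h2 := cflat_cb (x := (n : ℝ)) (by positivity)
  have h3 : (n : ℝ) ^ (1 / 3 : ℝ) ≤ ((n + 1 : ℕ) : ℝ) ^ (1 / 3 : ℝ) :=
    rpow_le_rpow (by positivity) (by push_cast; linarith) (by norm_num)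
  have h4 : 0 ≤ (n : ℝ) ^ (1 / 3 : ℝ) := by positivity
  generalize ((n + 1 : ℕ) : ℝ) ^ (1 / 3 : ℝ) = a at *
  generalize (n : ℝ) ^ (1 / 3 : ℝ) = b at *
  push_cast at h1
  have h5 : 1 ≤ 3 * a ^ 2 * (a - b) := by
    clear * - a b n h2 h1 h4 h3
    nlinarith [mul_nonneg (sq_nonneg (a - b)) (show 0 ≤ 2 * a + b by linarith)]
  have h6 : β * a ≤ C := cflat_root hC (by rw [mul_pow, h1]; exact h)
  have h7 : (β * a) ^ 2 ≤ C ^ 2 := pow_le_pow_left₀ (mul_nonneg hβ (h4.trans h3)) h6 2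
  calc β ^ 2 ≤ β ^ 2 * (3 * a ^ 2 * (a - b)) := le_mul_of_one_le_right (sq_nonneg β) h5
    _ = 3 * (β * a) ^ 2 * (a - b) := by ring
    _ ≤ _ := by gcongr

theorem cflat_mainS {L : ℝ} (hL : 1 ≤ L) : 0 ≤ mainS L := by
  have := log_nonneg hL
  unfold mainS
  positivity

theorem tail_up : ∃ (C : ℝ) (s0 : ℕ), ∀ᶠ L : ℝ in atTop, ∀ B n2 : ℕ, Gap L B → s0 ≤ n2 →
    (n2 : ℝ) ≤ L → ∀ f : ℕ → ℝ, (∀ q : ℕ, |f q| ≤ gc (bet L⁻¹ B n2 * q)) →
    |Sol (rs L⁻¹ B) n2 f (B + 1 - n2) 1| ≤ exp (C * (n2 : ℝ) ^ (1 / 3 : ℝ)) * mainS L := by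
  obtain ⟨K, C, η0, c0, s0, -, hC, hη, -, -, hs0, hT⟩ := tail_two
  obtain ⟨s1, hE⟩ := end_data hη
  obtain ⟨M, D, hM, -, hE⟩ := hE (max s0 s1) (le_max_right _ _)
  obtain ⟨C2, hC2, hS⟩ := sol_theta
  obtain ⟨C3, hC3, hR⟩ := rate_theta
  have hk := kap0_pos
  have h0 : s0 ≤ max s0 s1 := le_max_left _ _
  generalize max s0 s1 = n0 at *
  refine ⟨3 * (kap0 + 1) * C3 ^ 2 + C * (C * (M⁻¹ * C2)), n0, ?_⟩
  filter_upwards [hT 1 one_pos le_rfl, hE, hS, hR, cend_big] with L hT hE hS hR hB B n2 hG h2 h2L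
    f hf
  obtain ⟨hL3, hLB⟩ := hB B hG
  obtain ⟨n1, hn1, hn1B, -, -, -, -, -, hA, hT⟩ := hT B hG
  have h21 : n2 ≤ n1 := by exact_mod_cast h2L.trans hn1
  have ht : 0 < L⁻¹ := by positivity
  have hx : (B : ℝ) < xc L⁻¹ := by linarith [hG.1]
  have hr : ∀ n, 0 ≤ rs L⁻¹ B n ∧ rs L⁻¹ B n ≤ 1 := fun n =>
    ⟨(rs_mem ht (by omega) hx n).1.le, (rs_mem ht (by omega) hx n).2⟩
  have hd : Bdd (dl 1) := ⟨1, fun q => (cbase_dl 1 q).2⟩
  have hU : Bdd (Sol (rs L⁻¹ B) 0 (dl 1) n0) := cbase_bdd (fun j _ => hr _) hd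
  have hU0 : ∀ q, 0 ≤ Sol (rs L⁻¹ B) 0 (dl 1) n0 q := fun q => (abs_nonneg _).trans
    (Sol_mono (r := rs L⁻¹ B) (fun j _ => ⟨(hr _).1, le_rfl, (hr _).2⟩) hd hd
      (fun q => (abs_of_nonneg (cbase_dl 1 q).1).le) q)
  have hlow := (hT n0 h0 (h2.trans h21) fun k => M⁻¹ * Sol (rs L⁻¹ B) 0 (dl 1) n0 k +
    0 * Sol (rs L⁻¹ B) 0 (dl 1) n0 k).2 (cpos_bdd_lin hU hU _ _)
    (fun q => by have := hU0 q; positivity)
    (fun q => by
      rw [zero_mul, add_zero, le_inv_mul_iff₀ hM]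
      exact (hE B hG).1 q)
  have hadd := Sol_add (rs L⁻¹ B) 0 (dl 1) n0 (B + 1 - n0)
  rw [zero_add, show n0 + (B + 1 - n0) = B + 1 by omega] at hadd
  rw [Sol_lin (fun j _ => hr _) hU hU, ← hadd, zero_mul, add_zero, inv_mul_le_iff₀ (by linarith),
    lgL_add _ _ h2 h21, exp_add] at hlow
  have hup := (hT n2 (h0.trans h2) h21 f).1 hf
  have hlg : -lgL (bet L⁻¹ B) (ap3 L⁻¹ B) n0 n2 ≤
      3 * (kap0 + 1) * C3 ^ 2 * (n2 : ℝ) ^ (1 / 3 : ℝ) := by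
    clear * - L B n0 n2 C3 h2 K s0 n1 hA h0 h21 h2L hR hG hC3 hk
    rw [lgL, ← sum_neg_distrib]
    refine (crate_tel (F := fun n => 3 * (kap0 + 1) * C3 ^ 2 * (n : ℝ) ^ (1 / 3 : ℝ)) h2
      fun n hn hn' => ?_).trans (sub_le_self _ (by positivity))
    obtain ⟨p1, -, p3⟩ := hA.pt (n + 1) (by omega) (by omega)
    have hnL : ((n + 1 : ℕ) : ℝ) ≤ L := le_trans (by exact_mod_cast hn') h2L
    have p4 := (hR B (n + 1) hG hnL).2.2.2
    have p5 := cflat_step n hC3 p1.le (le_trans (by gcongr; linarith) p4)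
    have p6 := mul_le_mul_of_nonneg_left p5 (show 0 ≤ kap0 + 1 by linarith)
    have p7 := mul_le_mul_of_nonneg_right p3 (sq_nonneg (bet L⁻¹ B (n + 1)))
    have p8 := pow_pos p1 3
    have p9 := sq_nonneg (bet L⁻¹ B (n + 1))
    linarith
  have hm := cflat_mainS (show 1 ≤ L by linarith)
  have hW : 0 ≤ exp (lgL (bet L⁻¹ B) (ap3 L⁻¹ B) n2 n1) * (√L)⁻¹ * log L ^ (-(3 / 2) : ℝ) := by
    clear * - L hL3 B n2 n1
    have := log_nonneg (show 1 ≤ L by linarith)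
    positivity
  have h1 : (1 : ℝ) ≤ (n2 : ℝ) ^ (1 / 3 : ℝ) :=
    one_le_rpow (by exact_mod_cast (show 1 ≤ n2 by omega)) (by norm_num)
  have hc : 0 ≤ C * (C * (M⁻¹ * C2)) := by positivity
  have hc' : C * (C * (M⁻¹ * C2)) ≤ exp (C * (C * (M⁻¹ * C2)) * (n2 : ℝ) ^ (1 / 3 : ℝ)) := by
    clear * - C M C2 n2 hc h1
    have := add_one_le_exp (C * (C * (M⁻¹ * C2)) * (n2 : ℝ) ^ (1 / 3 : ℝ))
    have := le_mul_of_one_le_right hc h1
    linarith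
  have h3 : C * (M⁻¹ * Sol (rs L⁻¹ B) 0 (dl 1) (B + 1) 1) ≤ C * (M⁻¹ * (C2 * mainS L)) := by
    clear * - L B C2 hS hG C M hM hC
    have := (hS B hG).2 1 (by norm_num)
    gcongr
  rw [mul_assoc (exp _), mul_assoc (exp _)] at hlow
  generalize exp (lgL (bet L⁻¹ B) (ap3 L⁻¹ B) n2 n1) * (√L)⁻¹ * log L ^ (-(3 / 2) : ℝ) = W at *
  have h4 : W ≤ exp (-lgL (bet L⁻¹ B) (ap3 L⁻¹ B) n0 n2) * (C * (M⁻¹ * (C2 * mainS L))) := by
    rw [exp_neg, le_inv_mul_iff₀ (exp_pos _)]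
    exact hlow.trans h3
  rw [add_mul, exp_add]
  calc _ ≤ C * W := hup
    _ ≤ C * (exp (3 * (kap0 + 1) * C3 ^ 2 * (n2 : ℝ) ^ (1 / 3 : ℝ)) *
        (C * (M⁻¹ * (C2 * mainS L)))) := by
      clear * - C W C3 n2 M C2 L B n0 h4 hlg hC hM hC2 hm
      gcongr
      exact h4.trans (by gcongr)
    _ = exp (3 * (kap0 + 1) * C3 ^ 2 * (n2 : ℝ) ^ (1 / 3 : ℝ)) * (C * (C * (M⁻¹ * C2))) *
        mainS L := by ring
    _ ≤ _ := by gcongr

theorem cflat_rate {L L' : ℝ} {B w n : ℕ} (hL : 3 ≤ L) (hLL : L ≤ L') (hG : Gap L B)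
    (hx : xc L⁻¹ + 40 * w ≤ xc L'⁻¹) (hw : 8 ≤ w) (hwL : 82 ^ 2 * 81 * w ≤ L) (h1 : w ≤ n)
    (h2 : n < 2 * w) (hn : (n : ℝ) ≤ B) : rate L'⁻¹ 0 B n ≤ rate L⁻¹ 0 B n / 4 := by
  have ht : 0 < L⁻¹ := by positivity
  have hL' : 0 < L' := by linarith
  have ht' : 0 < L'⁻¹ := by positivity
  have htt : L'⁻¹ ≤ L⁻¹ := inv_anti₀ (by linarith) hLL
  have hw' : (8 : ℝ) ≤ w := by exact_mod_cast hw
  have h1' : (w : ℝ) ≤ n := by exact_mod_cast h1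
  have h2' : (n : ℝ) + 1 ≤ 2 * w := by exact_mod_cast h2
  obtain ⟨g1, g2⟩ := hG
  have x1 : (B : ℝ) - n < xc L'⁻¹ := by linarith
  have x2 : (B : ℝ) - n < xc L⁻¹ := by linarith
  have x3 : (B : ℝ) - n - 1 < xc L⁻¹ := by linarith
  have a1 := (incr_bounds ht' x1).2
  have a2 := (incr_bounds ht x2).1
  have a3 := sigma_sharp ht' x1
  have a4 := (sigma_bounds ht x3).1
  have s1 := sub_pos.2 (tau_spec ht' x1).2.1
  have s2 := sub_pos.2 (tau_spec ht x3).2.1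
  rw [cend_rate hn, cend_rate hn]
  refine a1.trans (le_trans ?_ (div_le_div_of_nonneg_right a2 (by norm_num)))
  have hwt : L⁻¹ * w ≤ 1 / (82 ^ 2 * 81) := by
    clear * - L w hwL hw'
    rw [inv_mul_le_iff₀ (by linarith)]
    linarith
  have b1 : 81 * (L'⁻¹ * w) ≤ (1 - tau L'⁻¹ (B - n)) ^ 2 := by
    clear * - L' B n w L htt hw' hwt hx h1' g1 s1 hL' x1 a3
    rcases le_total (1 / 82) (1 - tau L'⁻¹ (B - n)) with h | h
    · have := pow_le_pow_left₀ (by norm_num) h 2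
      have := mul_le_mul_of_nonneg_right htt (show (0 : ℝ) ≤ w by linarith)
      linarith
    · refine le_trans ?_ a3
      calc 81 * (L'⁻¹ * w) = 2 * (L'⁻¹ * (41 * w)) * (81 / 82) := by ring
        _ ≤ _ := by gcongr <;> linarith
  have b2 : (1 - tau L⁻¹ (B - n - 1)) ^ 2 ≤ 9 / 2 * (L⁻¹ * w) := by
    clear * - L B n w a4 hw' h2' g2 hL
    refine a4.trans ?_
    calc 2 * (L⁻¹ * (xc L⁻¹ - (B - n - 1))) ≤ 2 * (L⁻¹ * (9 / 4 * w)) := by gcongr; linarith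
      _ = _ := by ring
  generalize 1 - tau L'⁻¹ (B - n) = σ' at *
  generalize 1 - tau L⁻¹ (B - n - 1) = σ at *
  generalize L'⁻¹ = t' at *
  generalize L⁻¹ = t at *
  rw [div_div, div_le_div_iff₀ s1 (by positivity)]
  refine le_of_pow_le_pow_left₀ two_ne_zero (by positivity) ?_
  calc (t' * (σ * 4)) ^ 2 = 16 * t' ^ 2 * σ ^ 2 := by ring
    _ ≤ 16 * t' ^ 2 * (9 / 2 * (t * w)) := by gcongr
    _ = 72 * (t' * w) * t * t' := by ring
    _ ≤ 81 * (t' * w) * t * t := by clear * - t' w t ht' hw ht htt; gcongr; norm_num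
    _ ≤ σ' ^ 2 * t * t := by gcongr
    _ = _ := by ring

theorem small_mass : ∃ w0 : ℕ, ∀ᶠ L : ℝ in atTop, ∀ B w n : ℕ, Gap L B → w0 ≤ w → (w : ℝ) ≤ √L →
    w ≤ n → n < 2 * w → ∑ m ∈ range ⌈L * log L / (80 * w)⌉₊,
      coeff m (pRate B n) * (L - 1)⁻¹ ^ m ≤ rate L⁻¹ 0 B n / 2 := by
  refine ⟨8, ?_⟩
  filter_upwards [cend_big, eventually_ge_atTop ((82 ^ 2 * 81) ^ 2 : ℝ)] with L hB hL B w n hG hw
    hwL h1 h2
  obtain ⟨hL3, hLB⟩ := hB B hG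
  have hw' : (8 : ℝ) ≤ w := by exact_mod_cast hw
  have hs : 82 ^ 2 * 81 ≤ √L := le_sqrt_of_sq_le hL
  have hss := mul_self_sqrt (show 0 ≤ L by linarith)
  have hwL' : 82 ^ 2 * 81 * w ≤ L := by
    rw [← hss]
    exact mul_le_mul hs hwL (by linarith) (by linarith)
  have h2' : (n : ℝ) + 1 ≤ 2 * w := by exact_mod_cast h2
  have hn : (n : ℝ) < B := by linarith
  have hl : 0 < log L := log_pos (by linarith)
  have hd : 0 < 40 * w / log L := by positivity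
  obtain ⟨d, hdd⟩ : ∃ d, d = 40 * w / log L := ⟨_, rfl⟩
  rw [← hdd] at hd
  have hdl : d * log L = 40 * w := by rw [hdd]; field_simp
  have hx : xc L⁻¹ + 40 * w ≤ xc (L + d)⁻¹ := by
    clear * - L d hL hd w hdl
    have h := one_sub_inv_le_log_of_pos (show 0 < (L + d) / L by positivity)
    rw [inv_div, log_div (by positivity) (by positivity)] at h
    have h' := mul_le_mul_of_nonneg_left h (show 0 ≤ L + d by positivity)
    rw [mul_sub, mul_div_cancel₀ _ (by positivity)] at h'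
    simp only [xc, inv_inv]
    linarith
  have hr := cflat_rate hL3 (show L ≤ L + d by linarith) hG hx hw hwL' h1 h2 hn.le
  have hev := ev_pRate (L := L + d) (b := B) (n := n) (by linarith) (by exact_mod_cast hn)
    (by linarith [hG.1])
  have hL1 : 0 < L - 1 := by linarith
  have hsum := hev.sum_le (inv_nonneg.2 (by linarith)) (range ⌈L * log L / (80 * w)⌉₊)
  refine le_trans (sum_le_sum (g := fun m => 2 * (coeff m (pRate B n) * (L + d - 1)⁻¹ ^ m))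
    fun m hm => ?_) (by rw [← mul_sum]; linarith)
  have hm' : (m : ℝ) < L * log L / (80 * w) := Nat.lt_ceil.1 (mem_range.1 hm)
  have hmd : m * d ≤ L / 2 := by
    refine (mul_le_mul_of_nonneg_right hm'.le hd.le).trans (le_of_eq ?_)
    rw [hdd]
    field_simp
    norm_num
  have e : (L - 1)⁻¹ = (d / (L - 1) + 1) * (L + d - 1)⁻¹ := by
    have : L + d - 1 ≠ 0 := by linarith
    field_simp
    ring
  have h3 : (d / (L - 1) + 1) ^ m ≤ 2 := by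
    clear * - d L m hd hL1 hL hmd
    calc (d / (L - 1) + 1) ^ m ≤ exp (d / (L - 1)) ^ m := by gcongr; exact add_one_le_exp _
      _ = exp (m * (d / (L - 1))) := (exp_nat_mul _ _).symm
      _ ≤ exp (log 2) := by
        refine exp_le_exp.2 ?_
        rw [← mul_div_assoc, div_le_iff₀ hL1]
        have := mul_le_mul_of_nonneg_right log_two_gt_d9.le hL1.le
        linarith
      _ = 2 := exp_log two_pos
  have hz : 0 ≤ (L + d - 1)⁻¹ ^ m := pow_nonneg (inv_nonneg.2 (by linarith)) m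
  rw [e, mul_pow, mul_left_comm]
  exact mul_le_mul_of_nonneg_right h3 (mul_nonneg (hev.1 m) hz)

theorem cflat_fl {z lam g m : ℝ} {G : PowerSeries ℝ} {M : ℕ} (hl : 0 ≤ lam) (hG : Ev z G g)
    (hg : 0 < g) (hs : ∑ k ∈ range M, coeff k G * z ^ k ≤ g / 2) (hm : 1 / 2 ≤ m) (hm1 : m ≤ 1)
    (hk : ∀ k, M ≤ k → coeff k G * z ^ k ≤ lam * (g / 2)) : ∃ F, Fl z lam G F g (m * g) := by
  obtain ⟨S, hS⟩ : ∃ S, S = ∑ k ∈ range M, coeff k G * z ^ k := ⟨_, rfl⟩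
  rw [← hS] at hs
  have hμ : 0 < g - S := by linarith
  obtain ⟨ϑ, hϑ⟩ : ∃ ϑ, ϑ = (1 - m) * g / (g - S) := ⟨_, rfl⟩
  have h0 : 0 ≤ ϑ := by rw [hϑ]; exact div_nonneg (mul_nonneg (by linarith) hg.le) hμ.le
  have h1 : ϑ ≤ 1 := by rw [hϑ, div_le_one hμ]; nlinarith
  have h2 : ϑ * (g - S) = (1 - m) * g := by rw [hϑ, div_mul_cancel₀ _ hμ.ne']
  refine ⟨PowerSeries.mk fun k => if k < M then coeff k G else (1 - ϑ) * coeff k G, hG,
    ⟨fun k => ?_, ?_⟩, fun k => ?_⟩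
  · rw [coeff_mk]
    split_ifs
    exacts [hG.1 k, mul_nonneg (by linarith) (hG.1 k)]
  · have h3 : HasSum (fun k => if k < M then coeff k G * z ^ k else 0) S := by
      have h := hasSum_sum_of_ne_finset_zero (s := range M) (L := SummationFilter.unconditional ℕ)
        (f := fun k => if k < M then coeff k G * z ^ k else 0)
        fun k hk => if_neg (by simpa using hk)
      rwa [sum_congr rfl fun k hk => if_pos (mem_range.1 hk), ← hS] at h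
    have h4 := (hG.2.mul_left (1 - ϑ)).add (h3.mul_left ϑ)
    rw [show (1 - ϑ) * g + ϑ * S = m * g by linarith] at h4
    refine (congrArg (fun f : ℕ → ℝ => HasSum f (m * g)) (funext fun k => ?_)).mpr h4
    rw [coeff_mk]
    split_ifs <;> ring
  · rw [coeff_mk]
    split_ifs with h
    · refine ⟨le_rfl, ?_⟩
      rw [sub_self, zero_mul]
      exact mul_nonneg hl (by clear * - g m hg hm1 hl; nlinarith)
    · refine ⟨by clear * - ϑ k G h0 z g hG S h2 hk lam; nlinarith [hG.1 k], ?_⟩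
      have h5 := mul_le_mul_of_nonneg_left (hk k (by omega)) h0
      have h6 : ϑ * (lam * (g / 2)) ≤ ϑ * (lam * (g - S)) := by clear * - ϑ lam g S hs hl h0; gcongr; linarith
      calc _ = ϑ * (coeff k G * z ^ k) := by ring
        _ ≤ ϑ * (lam * (g - S)) := h5.trans h6
        _ = lam * (ϑ * (g - S)) := by ring
        _ = _ := by rw [h2]; ring

/-- the damping factors -/
noncomputable def cflat_m (γ : ℝ) (w n : ℕ) : ℝ :=
  if w ≤ n ∧ n < 2 * w then exp (-(γ * (2 * w - n))) else 1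

theorem cflat_m_pos (γ : ℝ) (w n : ℕ) : 0 < cflat_m γ w n := by
  unfold cflat_m
  split_ifs
  exacts [exp_pos _, one_pos]

theorem cflat_m_out {γ : ℝ} {w n : ℕ} (h : ¬(w ≤ n ∧ n < 2 * w)) : cflat_m γ w n = 1 := if_neg h

theorem cflat_m_mem {γ : ℝ} {w : ℕ} (h0 : 0 ≤ γ) (h1 : γ * w ≤ 1 / 2) (n : ℕ) :
    1 / 2 ≤ cflat_m γ w n ∧ cflat_m γ w n ≤ 1 := by
  unfold cflat_m
  split_ifs with h
  · have a1 : (w : ℝ) ≤ n := by exact_mod_cast h.1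
    have a2 : (n : ℝ) < 2 * w := by exact_mod_cast h.2
    have a3 : γ * (2 * w - n) ≤ γ * w := by gcongr; linarith
    have a4 : 0 ≤ γ * (2 * w - n) := mul_nonneg h0 (by linarith)
    have := add_one_le_exp (-(γ * (2 * w - n)))
    exact ⟨by linarith, exp_le_one_iff.2 (by linarith)⟩
  · norm_num

theorem cflat_m_step {γ : ℝ} {w : ℕ} (h0 : 0 ≤ γ) (h1 : γ * w ≤ 1 / 2) (i : ℕ) :
    cflat_m γ w (i + 1) ≤ exp γ * cflat_m γ w i := by
  by_cases h : w ≤ i ∧ i < 2 * w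
  · rw [cflat_m, cflat_m, if_pos h, ← exp_add]
    split_ifs with h'
    · refine le_of_eq (congrArg exp ?_)
      push_cast; ring
    · have : (2 * w : ℝ) = i + 1 := by exact_mod_cast (show 2 * w = i + 1 by omega)
      rw [this]
      simp
  · rw [cflat_m_out h, mul_one]
    exact (cflat_m_mem h0 h1 _).2.trans (one_le_exp h0)

theorem cflat_m_prod {γ : ℝ} {w B : ℕ} (h0 : 0 ≤ γ) (hB : 2 * w ≤ B) :
    ∏ i ∈ range B, cflat_m γ w i ≤ exp (-(γ * (w ^ 2 / 2))) := by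
  have h1 : ∀ k : ℕ, ∑ j ∈ range k, (j : ℝ) ≤ k ^ 2 / 2 := fun k => by
    induction k with
    | zero => simp
    | succ k ih => rw [sum_range_succ]; push_cast; linarith
  rw [← prod_subset (s₁ := Ico w (2 * w)) (fun i hi => by simp at hi ⊢; omega)
    fun i _ hi => cflat_m_out (by simpa using hi),
    prod_congr (f := cflat_m γ w) (g := fun i : ℕ => exp (-(γ * (2 * w - i)))) rfl
      fun i hi => if_pos (mem_Ico.1 hi), ← exp_sum, sum_neg_distrib, ← mul_sum,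
    sum_Ico_eq_sum_range, show 2 * w - w = w by omega]
  refine exp_le_exp.2 (neg_le_neg (mul_le_mul_of_nonneg_left ?_ h0))
  have := h1 w
  simp only [Nat.cast_add, sum_sub_distrib, sum_add_distrib, sum_const, card_range, nsmul_eq_mul]
  linarith

theorem cflat_gc {β C a : ℝ} {w q : ℕ} (hC : 1 ≤ C) (hβ : 0 ≤ β) (ha : 0 < a)
    (ha3 : a ^ 3 = 2 * w + 2) (h1 : C⁻¹ ≤ β ^ 3 * (2 * w + 2)) (h2 : β ^ 3 * (2 * w + 2) ≤ C)
    (hq : 1 ≤ q) (hq' : q ≤ 2 * w + 3) : (2 * C * a * exp (2 * C * a ^ 2))⁻¹ ≤ gc (β * q) := by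
  have hw : (0 : ℝ) ≤ w := Nat.cast_nonneg w
  have hq1 : (1 : ℝ) ≤ q := by exact_mod_cast hq
  have hq2 : (q : ℝ) ≤ 2 * w + 3 := by exact_mod_cast hq'
  rw [← ha3, ← mul_pow] at h1 h2
  have a1 : 1 ≤ a := by
    by_contra h
    have := pow_le_one₀ (n := 3) ha.le (not_le.1 h).le
    linarith
  have b1 : β * a ≤ C := cflat_root hC h2
  have hC1 : C⁻¹ ≤ 1 := inv_le_one_of_one_le₀ hC
  have b2 : C⁻¹ ≤ β * a := by
    by_contra h
    have := pow_le_pow_of_le_one (mul_nonneg hβ ha.le) (by linarith) (show 1 ≤ 3 by norm_num)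
    linarith
  have b3 : β * q ≤ 2 * C * a ^ 2 := by
    clear * - β q a C w ha3 hq2 hβ b1 ha
    calc β * q ≤ β * (2 * a ^ 3) := by gcongr; linarith
      _ = 2 * (β * a) * a ^ 2 := by ring
      _ ≤ _ := by gcongr
  have b4 : (C * a)⁻¹ ≤ min (β * q) 1 := by
    refine le_min ?_ (inv_le_one_of_one_le₀ (one_le_mul_of_one_le_of_one_le hC a1))
    rw [mul_inv, ← div_eq_mul_inv, div_le_iff₀ ha]
    exact b2.trans (by gcongr; exact le_mul_of_one_le_right hβ hq1)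
  refine le_trans ?_ (gc_basic.2.2 _ (by positivity)).2.2.2
  calc _ = exp (-(2 * C * a ^ 2)) * (C * a)⁻¹ / 2 := by rw [exp_neg]; field_simp
    _ ≤ _ := by gcongr

theorem cflat_mod {t C S a : ℝ} {B q0 w : ℕ} (ht : 0 < t) (hC : 1 ≤ C) (hB : (B : ℝ) < xc t)
    (hw : 1 ≤ w) (h2 : 2 * w + 2 ≤ B) (hq : 1 ≤ q0) (hq2 : q0 ≤ 2) (ha : 0 < a)
    (ha3 : a ^ 3 = 2 * w + 2)
    (hb : ∀ n : ℕ, n ≤ 2 * w + 1 → C⁻¹ ≤ bet t B n ^ 3 * (n + 1) ∧ bet t B n ^ 3 * (n + 1) ≤ C)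
    (hS : ∀ f : ℕ → ℝ, (∀ q : ℕ, |f q| ≤ gc (bet t B (2 * w + 1) * q)) →
      |Sol (rs t B) (2 * w + 1) f (B + 1 - (2 * w + 1)) 1| ≤ S) :
    VQg (Lam t 0) (fun n => cflat_m (4 * C * w)⁻¹ w n * rate t 0 B n) B q0 ≤
      exp 1 * rate t 0 B 0 ^ q0 * (exp (-(w / (8 * C))) * FreeT t 0 B) *
        (2 * C * a * exp (2 * C * a ^ 2) * S) := by
  have hw' : (1 : ℝ) ≤ w := by exact_mod_cast hw
  have h2' : (2 * w + 2 : ℝ) ≤ B := by exact_mod_cast h2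
  have hγ0 : 0 ≤ (4 * C * w)⁻¹ := by positivity
  have hγ1 : (4 * C * w)⁻¹ * w ≤ 1 / 2 := by
    clear * - C w hC hw hw'
    rw [inv_mul_le_iff₀ (by positivity)]; nlinarith
  have hγ2 : (4 * C * w)⁻¹ * (w ^ 2 / 2) = w / (8 * C) := by field_simp; norm_num
  have hγ3 : ∀ x y : ℝ, 0 ≤ x → y ≤ 4 * w → C⁻¹ ≤ x * y → (4 * C * w)⁻¹ ≤ x := fun x y hx hy h => by
    rw [show 4 * C * w = C * (4 * w) by ring, mul_inv, ← div_eq_mul_inv,
      div_le_iff₀ (by positivity)]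
    exact h.trans (by gcongr)
  have hp := cflat_m_prod hγ0 (show 2 * w ≤ B by omega)
  rw [hγ2] at hp
  generalize (4 * C * w)⁻¹ = γ at *
  have hρ := crate_pos ht hB
  have hm := cflat_m_pos γ w
  have hβ : ∀ n, 0 ≤ bet t B n := fun n => by
    have : (B : ℝ) - n < xc t := by linarith [Nat.cast_nonneg (α := ℝ) n]
    exact rpow_nonneg (aup_eh_pos ht this).le _
  rw [vqg_eq (by omega) hq fun n _ => mul_pos (hm n) (hρ n), cflat_m_out (n := 0) (by omega),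
    one_mul]
  obtain ⟨r', hr'⟩ : ∃ r', r' = rsA (Lam t 0) (fun n => cflat_m γ w n * rate t 0 B n) B := ⟨_, rfl⟩
  rw [← hr']
  have hr : ∀ n, 0 ≤ rs t B n ∧ rs t B n ≤ 1 := fun n =>
    ⟨(rs_mem ht (by omega) hB n).1.le, (rs_mem ht (by omega) hB n).2⟩
  have hr1 : ∀ j, 2 * w + 1 ≤ j → r' j = rs t B j := fun j hj => by
    rw [hr', rs, rsA, rsA, cflat_m_out (n := j) (by omega), cflat_m_out (n := j - 1) (by omega),
      cflat_m_out (n := B - 1) (by omega), one_mul, one_mul, one_mul]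
  have hr0 : ∀ j < 2 * w + 1, 0 ≤ r' (0 + j) ∧ r' (0 + j) ≤ 1 := fun j hj => by
    clear * - r' j t γ w B hr' hj q0 h2 hm hρ ht hB hγ3 hβ hw' C hb hγ0 hγ1 h2'
    rw [zero_add, hr', rsA]
    cases j with
    | zero => simp
    | succ i =>
      rw [if_neg (by omega), if_pos (by omega), Nat.add_sub_cancel]
      have p0 := mul_pos (hm i) (hρ i)
      refine ⟨div_nonneg (mul_pos (hm _) (hρ _)).le p0.le, (div_le_one p0).2 ?_⟩
      have hi : (i : ℝ) + 1 ≤ 2 * w := by exact_mod_cast (show i + 1 ≤ 2 * w by omega)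
      have hi0 : (0 : ℝ) ≤ i := Nat.cast_nonneg i
      have p1 := (incr_ratio ht (x := B - (i + 1 : ℕ)) (by push_cast; linarith)).1
      rw [← cend_rate (by push_cast; linarith), show (B : ℝ) - (i + 1 : ℕ) + 1 = B - i by
        push_cast; ring, show (B : ℝ) - (i + 1 : ℕ) - 1 = B - (i + 2 : ℕ) by push_cast; ring,
        ← cend_bet ht (by push_cast; linarith), show (B : ℝ) - (i + 1 : ℕ) = B - i - 1 by
        push_cast; ring, ← cend_rate (by linarith)] at p1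
      have p2 := hγ3 _ _ (pow_nonneg (hβ _) 3) (by push_cast; linarith) (hb (i + 2) (by omega)).1
      calc cflat_m γ w (i + 1) * rate t 0 B (i + 1)
          ≤ exp γ * cflat_m γ w i * rate t 0 B (i + 1) :=
            mul_le_mul_of_nonneg_right (cflat_m_step hγ0 hγ1 i) (hρ _).le
        _ = cflat_m γ w i * (exp γ * rate t 0 B (i + 1)) := by ring
        _ ≤ _ := mul_le_mul_of_nonneg_left
            ((mul_le_mul_of_nonneg_right (exp_le_exp.2 p2) (hρ _).le).trans p1) (hm i).le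
  have hU := Sol_bdd hr0 fun q => (cbase_dl q0 q).2
  have hU0 : Sol r' 0 (dl q0) (2 * w + 1) 0 = 0 := rfl
  have hU1 : ∀ q, q0 + (2 * w + 1) < q → Sol r' 0 (dl q0) (2 * w + 1) q = 0 := fun q hq =>
    Sol_supp (fun q hq => if_neg (by omega)) hq
  have hadd := Sol_add r' 0 (dl q0) (2 * w + 1) (B + 1 - (2 * w + 1))
  rw [zero_add, show 2 * w + 1 + (B + 1 - (2 * w + 1)) = B + 1 by omega,
    Sol_congr (r' := rs t B) (n1 := 2 * w + 1) fun j _ => hr1 _ (by omega)] at hadd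
  rw [hadd]
  generalize Sol r' 0 (dl q0) (2 * w + 1) = U at *
  have hE : 0 < 2 * C * a * exp (2 * C * a ^ 2) := by positivity
  have hgc := fun q => cflat_gc (q := q) hC (hβ (2 * w + 1)) ha ha3
    (by clear * - C t B w hb; have := (hb _ le_rfl).1; push_cast at this; linarith)
    (by have := (hb _ le_rfl).2; push_cast at this; linarith)
  generalize 2 * C * a * exp (2 * C * a ^ 2) = E at *
  have hUb : Bdd U := ⟨1, hU⟩
  have h3 := hS (fun k => E⁻¹ * U k + 0 * U k) fun q => by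
    rw [zero_mul, add_zero]
    have hg := (gc_basic.2.2 (bet t B (2 * w + 1) * q) (mul_nonneg (hβ _) (Nat.cast_nonneg q))).1
    rcases Nat.eq_zero_or_pos q with rfl | hq0
    · rwa [hU0, mul_zero, abs_zero]
    rcases lt_or_ge (q0 + (2 * w + 1)) q with h | h
    · rwa [hU1 q h, mul_zero, abs_zero]
    rw [abs_mul, abs_of_pos (inv_pos.2 hE)]
    exact (mul_le_of_le_one_right (inv_pos.2 hE).le (hU q)).trans (hgc q hq0 (by omega))
  rw [Sol_lin (fun j _ => hr _) hUb hUb, zero_mul, add_zero] at h3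
  have h4 := (inv_mul_le_iff₀ hE).1 ((le_abs_self _).trans h3)
  have h5 : 0 ≤ E * S := mul_nonneg hE.le ((abs_nonneg _).trans h3)
  have h6 : 0 ≤ FreeT t 0 B := prod_nonneg fun i _ => (mul_pos (exp_pos 1) (hρ i)).le
  have h7 : ∏ i ∈ range B, exp 1 * (cflat_m γ w i * rate t 0 B i) =
      (∏ i ∈ range B, cflat_m γ w i) * FreeT t 0 B := by
    rw [FreeT, ← prod_mul_distrib]
    exact prod_congr rfl fun i _ => by ring
  have h8 : 0 ≤ ∏ i ∈ range B, cflat_m γ w i := prod_nonneg fun i _ => (hm i).le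
  have h9 := hρ 0
  rw [h7]
  calc _ ≤ exp 1 * rate t 0 B 0 ^ q0 * ((∏ i ∈ range B, cflat_m γ w i) * FreeT t 0 B) * (E * S) :=
        mul_le_mul_of_nonneg_left h4 (by clear * - t B q0 γ w h9 h8 h6 h4; positivity)
    _ ≤ _ := by clear * - E S t B q0 γ w C hp h6 h9 h5; gcongr

theorem cflat_num {C K c a b L : ℝ} {w : ℕ} (hC : 1 ≤ C) (hK : 0 ≤ K) (ha3 : a ^ 3 = 2 * w + 2)
    (ha : 16 * C * (K + 77 + 2 * C + |c|) ≤ a) (hb0 : 0 ≤ b) (hb : b ≤ a) (hL0 : 0 ≤ L)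
    (hL : L ≤ (w + 1) ^ 25) :
    K * a * L * (exp (-(w / (8 * C))) * exp (2 * C * a ^ 2) * exp (c * b)) ≤ 1 := by
  have hc := abs_nonneg c
  have hw : (0 : ℝ) ≤ w := Nat.cast_nonneg w
  have a1 : 1 ≤ a := by clear * - a C K c hC hK ha hc; nlinarith
  have a2 : a ≤ a ^ 2 := by nlinarith
  have e1 : K ≤ exp K := by linarith [add_one_le_exp K]
  have e2 : a ≤ exp a := by linarith [add_one_le_exp a]
  have e3 : L ≤ exp (75 * a) := by
    clear * - L a w hL ha3 a1 e2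
    calc L ≤ (w + 1) ^ 25 := hL
      _ ≤ (a ^ 3) ^ 25 := by gcongr; linarith
      _ = a ^ 75 := by ring
      _ ≤ exp a ^ 75 := by gcongr
      _ = exp (75 * a) := by rw [← exp_nat_mul]; norm_num
  have e4 : c * b ≤ |c| * a ^ 2 := mul_le_mul (le_abs_self c) (hb.trans a2) hb0 hc
  have e5 : (K + 77 + 2 * C + |c|) * a ^ 2 - 1 ≤ w / (8 * C) := by
    clear * - K C c a w hC ha ha3
    rw [le_div_iff₀ (by positivity)]
    have := mul_le_mul_of_nonneg_right ha (sq_nonneg a)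
    nlinarith
  have e6 : K ≤ K * a ^ 2 := le_mul_of_one_le_right hK (a1.trans a2)
  calc _ ≤ exp K * exp a * exp (75 * a) *
        (exp (-(w / (8 * C))) * exp (2 * C * a ^ 2) * exp (c * b)) := by gcongr
    _ ≤ 1 := by
      simp only [← exp_add]
      exact exp_le_one_iff.2 (by linarith)

theorem cflat_lam {C v l ρ : ℝ} {w n k : ℕ} (hC : 1 ≤ C) (hv : 2880 * C ≤ v) (hl : 1 ≤ l)
    (hw : 1 ≤ w) (hwv : (w : ℝ) ≤ v ^ 4) (hn : n < 2 * w) (hk : v ^ 100 * l / (80 * w) ≤ k)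
    (hρ : C⁻¹ ≤ v ^ 50 * √(n + 1) * ρ) :
    v ^ 50 ≤ k ∧ √l * (k : ℝ) ^ (-(3 / 2) : ℝ) ≤ (v ^ 91)⁻¹ * (ρ / 2) := by
  have hw' : (1 : ℝ) ≤ w := by exact_mod_cast hw
  have hn' : (n : ℝ) + 1 ≤ 2 * w := by exact_mod_cast hn
  have v1 : 80 ≤ v := by linarith
  have v0 : 0 < v := by linarith
  have k1 : v ^ 96 * l / 80 ≤ k := by
    refine le_trans ?_ hk
    calc v ^ 96 * l / 80 = v ^ 100 * l / (80 * v ^ 4) := by field_simp
      _ ≤ _ := by gcongr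
  have k2 : v ^ 96 / 80 ≤ k := le_trans (by
    gcongr
    exact le_mul_of_one_le_right (by positivity) hl) k1
  have k0 : (0 : ℝ) < k := lt_of_lt_of_le (by positivity) k2
  have sl := sq_sqrt (show 0 ≤ l by linarith)
  have sl0 : 0 < √l := sqrt_pos.2 (by linarith)
  have k3 : v ^ 48 * √l / 9 ≤ √k := le_sqrt_of_sq_le (le_trans (by
    rw [div_pow, mul_pow, sl, ← pow_mul]
    gcongr
    norm_num) k1)
  have k4 : √(n + 1) ≤ 2 * v ^ 2 := sqrt_le_iff.2 ⟨by positivity, by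
    clear * - v v1 n w hwv hw' hn'
    have : 0 < v ^ 4 := by positivity
    linarith⟩
  have hρ0 : 0 < ρ := by
    clear * - ρ v n v1 C hC hρ
    by_contra h
    have := mul_nonpos_of_nonneg_of_nonpos (show 0 ≤ v ^ 50 * √(n + 1) by positivity) (not_lt.1 h)
    have : 0 < C⁻¹ := by positivity
    linarith
  refine ⟨le_trans ?_ k2, ?_⟩
  · rw [le_div_iff₀ (by norm_num)]
    calc v ^ 50 * 80 ≤ v ^ 50 * v := by gcongr
      _ = v ^ 51 := by ring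
      _ ≤ _ := pow_le_pow_right₀ (by linarith) (by norm_num)
  · have e : (k : ℝ) ^ (-(3 / 2) : ℝ) = (k * √k)⁻¹ := by
      rw [rpow_neg k0.le, sqrt_eq_rpow, ← rpow_one_add' k0.le (by norm_num)]
      norm_num
    have r1 : C⁻¹ / (v ^ 50 * (2 * v ^ 2)) ≤ ρ := by
      clear * - C v ρ v1 n hρ k4 hρ0
      rw [div_le_iff₀' (by positivity)]
      exact hρ.trans (by gcongr)
    rw [e]
    calc √l * (k * √k)⁻¹ ≤ √l * (v ^ 96 / 80 * (v ^ 48 * √l / 9))⁻¹ := by clear * - l k v v1 hl k2 k3 k0 C; gcongr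
      _ = (v ^ 143)⁻¹ / 4 * (v / 2880)⁻¹ := by field_simp; norm_num
      _ ≤ (v ^ 143)⁻¹ / 4 * C⁻¹ := by clear * - v C hC hv v1; gcongr; linarith
      _ = (v ^ 91)⁻¹ * (C⁻¹ / (v ^ 50 * (2 * v ^ 2)) / 2) := by field_simp; norm_num
      _ ≤ _ := by gcongr

theorem flat_PQ : ∀ᶠ L : ℝ in atTop, ∀ B q0 r : ℕ, Gap L B → 1 ≤ q0 → q0 ≤ 2 →
    coeff r (PQ B q0) * (L - 1)⁻¹ ^ r ≤
      L ^ (-(9 / 10) : ℝ) * (√L)⁻¹ ^ (q0 - 1) * mainV L (xc L⁻¹ - B) := by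
  obtain ⟨c, s0, hT⟩ := tail_up
  obtain ⟨w0, hM⟩ := small_mass
  obtain ⟨C1, hC1, hV⟩ := vq_theta
  obtain ⟨C, hC, hR⟩ := rate_theta
  obtain ⟨C4, hC4, hF⟩ := freeT_theta
  have hv := (tendsto_rpow_atTop (show (0 : ℝ) < 1 / 100 by norm_num)).eventually_ge_atTop
  obtain ⟨K, hK⟩ : ∃ K, K = 4 * exp 1 * C ^ 3 * C4 := ⟨_, rfl⟩
  have hK0 : 0 ≤ K := by rw [hK]; positivity
  filter_upwards [hT, hM, hV, hR, hF, tree_up, cend_big, eventually_ge_atTop 3, hv (2880 * C),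
    hv (2 * C1), hv (w0 + s0 + 1), hv ((16 * C * (K + 77 + 2 * C + |c|)) ^ 3)] with L hT hM hV hR hF
    hU hB hL3 v1 v2 v3 v4 B q0 r hG hq hq2
  have hLB := (hB B hG).2
  have hL0 : 0 < L := by linarith
  have hvL : (L ^ (1 / 100 : ℝ)) ^ 100 = L := by
    rw [← rpow_natCast, ← rpow_mul hL0.le]; norm_num
  have h90 : L ^ (-(9 / 10) : ℝ) = ((L ^ (1 / 100 : ℝ)) ^ 90)⁻¹ := by
    rw [← rpow_natCast, ← rpow_mul hL0.le, ← rpow_neg hL0.le]; norm_num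
  rw [h90]
  generalize L ^ (1 / 100 : ℝ) = v at *
  have v5 : 2880 ≤ v := by linarith
  have v0 : 0 < v := by linarith
  have hs : √L = v ^ 50 := by
    rw [← hvL, show v ^ 100 = (v ^ 50) ^ 2 by ring, sqrt_sq (by positivity)]
  have hpow : ∀ {i j : ℕ}, i ≤ j → v ^ i ≤ v ^ j := fun h => pow_le_pow_right₀ (by linarith) h
  obtain ⟨w, hw⟩ : ∃ w, w = ⌊v ^ 4⌋₊ := ⟨_, rfl⟩
  have w1 : (w : ℝ) ≤ v ^ 4 := hw ▸ Nat.floor_le (by positivity)
  have w2 : v ^ 4 < w + 1 := hw ▸ Nat.lt_floor_add_one _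
  have w3 : v < w + 1 := by linarith [hpow (show 1 ≤ 4 by norm_num), pow_one v]
  have w4 : w0 + s0 ≤ w := by exact_mod_cast (show (w0 + s0 : ℝ) ≤ w by linarith)
  have w5 : 1 ≤ w := by exact_mod_cast (show (1 : ℝ) ≤ w by linarith)
  have w6 : (2 * w + 2 : ℝ) ≤ L := by
    clear * - v v5 hpow w L C hC v1 hvL w1 w3
    have h1 := mul_le_mul_of_nonneg_left v5 (show 0 ≤ v ^ 4 by positivity)
    have h2 := hpow (show 5 ≤ 100 by norm_num)
    have h3 := hpow (show 0 ≤ 4 by norm_num)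
    rw [pow_zero] at h3
    rw [show v ^ 4 * v = v ^ 5 by ring] at h1
    linarith
  have w7 : 2 * w + 2 ≤ B := by exact_mod_cast (show (2 * w + 2 : ℝ) ≤ B by linarith)
  have w8 : (0 : ℝ) < w := by exact_mod_cast w5
  have ht : 0 < L⁻¹ := by positivity
  have hx : (B : ℝ) < xc L⁻¹ := by linarith [hG.1]
  have hL1 : 1 < L := by linarith
  have hz : 0 ≤ (L - 1)⁻¹ := inv_nonneg.2 (by linarith)
  have hlam : 0 ≤ (v ^ 91)⁻¹ := by positivity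
  have hρ := crate_pos ht hx
  have hlog : 1 ≤ log L := by
    rw [le_log_iff_exp_le hL0]
    linarith [exp_one_lt_d9]
  have hfl : ∀ n, ∃ F, n < B → Fl (L - 1)⁻¹ (v ^ 91)⁻¹ (pRate B n) F (rate L⁻¹ 0 B n)
      (cflat_m (4 * C * w)⁻¹ w n * rate L⁻¹ 0 B n) := by
    clear * - B L v C w hC w5 v1 w3 hlam hL1 s0 w0 q0 hw w7 hx hρ hM hG w4 hs w1 hpow hlog hvL hR
      w6 hz hU hF
    intro n
    by_cases h : w ≤ n ∧ n < 2 * w
    · have hn : (n : ℝ) < 2 * w := by exact_mod_cast h.2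
      have hm := cflat_m_mem (γ := (4 * C * w)⁻¹) (w := w) (by positivity) (by
        rw [inv_mul_le_iff₀ (by positivity)]; nlinarith) n
      refine (cflat_fl hlam (ev_pRate hL1 (by omega) hx) (hρ n) (hM B w n hG (by omega)
        (by rw [hs]; exact w1.trans (hpow (by norm_num))) h.1 h.2) hm.1 hm.2
        fun k hk => ?_).imp fun F hF _ => hF
      have p := cflat_lam (k := k) hC v1 hlog w5 w1 h.2 (by rw [hvL]; exact Nat.ceil_le.1 hk)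
        (by rw [← hs]; exact (hR B n hG (by linarith)).1)
      have hy : (0 : ℝ) ≤ (B - n : ℕ) := Nat.cast_nonneg _
      have hy' : ((B - n : ℕ) : ℝ) ≤ B := by exact_mod_cast Nat.sub_le B n
      refine le_trans (mul_le_mul_of_nonneg_right ?_ (pow_nonneg hz k))
        ((hU (B - n : ℕ) k (by linarith) (by linarith) (hs ▸ p.1)).trans p.2)
      rw [pRate, map_sub]
      exact sub_le_self _ (pLam_mono (by linarith) le_rfl k).1
    · exact ⟨pRate B n, fun hn => by rw [cflat_m_out h, one_mul]; exact (ev_pRate hL1 hn hx).fl⟩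
  choose F hF' using hfl
  have hvol := (Fl.vol (b := B + q0) (A := fun n => if n < q0 then 0 else pRate B (n - q0))
    (A' := fun n => if n < q0 then 0 else F (n - q0))
    (α := fun n => if n < q0 then 0 else rate L⁻¹ 0 B (n - q0))
    (α' := fun n => if n < q0 then 0 else
      cflat_m (4 * C * w)⁻¹ w (n - q0) * rate L⁻¹ 0 B (n - q0)) hz hlam
    (ev_pLam hL1 le_rfl (lt_of_le_of_lt (Nat.cast_nonneg B) hx)) fun n hn => by
      split_ifs with h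
      · exact Ev.fl ⟨fun k => by simp, by simp⟩
      · exact hF' _ (by omega)).coeff_le hz hlam r
  have ha3 := cflat_cb (show (0 : ℝ) ≤ 2 * w + 2 by positivity)
  have ha0 : 0 < (2 * w + 2 : ℝ) ^ (1 / 3 : ℝ) := by positivity
  have hb : ((2 * w + 1 : ℕ) : ℝ) ^ (1 / 3 : ℝ) ≤ (2 * w + 2 : ℝ) ^ (1 / 3 : ℝ) :=
    rpow_le_rpow (by positivity) (by clear * - w; push_cast; linarith) (by norm_num)
  generalize (2 * w + 2 : ℝ) ^ (1 / 3 : ℝ) = a at *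
  have hmod := cflat_mod ht hC hx w5 w7 hq hq2 ha0 ha3
    (fun n hn => (hR B n hG (by
      clear * - n w hn L w6 B hG hT
      have : (n : ℝ) ≤ 2 * w + 1 := by exact_mod_cast hn
      linarith)).2.2) (hT B (2 * w + 1) hG (by omega) (by push_cast; linarith))
  have hnum := cflat_num (L := L) hC hK0 ha3
    (le_of_pow_le_pow_left₀ three_ne_zero ha0.le (by clear * - C K c a w ha3 v hC v1 v4 w3 hL0 ha0 hb; rw [ha3]; linarith)) (by positivity) hb hL0.le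
    (by rw [← hvL, show v ^ 100 = (v ^ 4) ^ 25 by ring]; gcongr)
  have hmS := cflat_mainS hL1.le
  have hs0 : 0 < √L := by positivity
  have hr0 : rate L⁻¹ 0 B 0 ≤ C * (√L)⁻¹ := by
    have := (hR B 0 hG (by simpa using hL0.le)).2.1
    rw [← div_eq_mul_inv, le_div_iff₀' hs0]
    simpa using this
  have hr1 : rate L⁻¹ 0 B 0 ^ q0 ≤ C ^ 2 * ((√L)⁻¹ ^ (q0 - 1) * (√L)⁻¹) := by
    clear * - L B q0 C hq hρ hr0 hC hq2 hL3
    rw [← pow_succ, Nat.sub_add_cancel hq]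
    refine (pow_le_pow_left₀ (hρ 0).le hr0 q0).trans ?_
    rw [mul_pow]
    gcongr
  have hmV : mainV L (xc L⁻¹ - B) =
      exp (-hL L) * L ^ ((xc L⁻¹ - B) / 2) * (√L)⁻¹ * mainS L := by
    rw [mainV, sub_div _ (1 : ℝ), rpow_sub hL0, sqrt_eq_rpow]
    ring
  have hX : 0 ≤ (√L)⁻¹ ^ (q0 - 1) * mainV L (xc L⁻¹ - B) := by rw [hmV]; positivity
  have hVQ : VQ L⁻¹ B q0 ≤ C1 * ((√L)⁻¹ ^ (q0 - 1) * mainV L (xc L⁻¹ - B)) := by
    clear * - q0 L B C1 s0 w0 hq hq2 v w r C a c hV hG hvol hmod hr1 hX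
    obtain rfl | rfl : q0 = 1 ∨ q0 = 2 := by omega
    · simpa using (hV B hG).2.1
    · simpa [mul_assoc] using (hV B hG).2.2
  have h2 : VQg (Lam L⁻¹ 0) (fun n => cflat_m (4 * C * w)⁻¹ w n * rate L⁻¹ 0 B n) B q0 ≤
      L⁻¹ / 2 * ((√L)⁻¹ ^ (q0 - 1) * mainV L (xc L⁻¹ - B)) := by
    clear * - L B C4 hF hG C w q0 K a c hmod hρ hr1 hC hL3 ha0 hmS hmV hK hC4 hX hnum
    have := (hF B hG).2
    calc _ ≤ _ := hmod
      _ ≤ exp 1 * (C ^ 2 * ((√L)⁻¹ ^ (q0 - 1) * (√L)⁻¹)) * (exp (-(w / (8 * C))) *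
          (C4 * (exp (-hL L) * L ^ ((xc L⁻¹ - B) / 2)))) * (2 * C * a * exp (2 * C * a ^ 2) *
          (exp (c * ((2 * w + 1 : ℕ) : ℝ) ^ (1 / 3 : ℝ)) * mainS L)) := by
        have h6 : 0 ≤ FreeT L⁻¹ 0 B := prod_nonneg fun i _ => (mul_pos (exp_pos 1) (hρ i)).le
        gcongr
      _ = K * a * L * (exp (-(w / (8 * C))) * exp (2 * C * a ^ 2) *
          exp (c * ((2 * w + 1 : ℕ) : ℝ) ^ (1 / 3 : ℝ))) *
          (L⁻¹ / 2 * ((√L)⁻¹ ^ (q0 - 1) * mainV L (xc L⁻¹ - B))) := by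
        rw [hmV, hK]
        field_simp
        ring
      _ ≤ _ := mul_le_of_le_one_left (by positivity) hnum
  have h3 : (v ^ 91)⁻¹ * C1 + L⁻¹ / 2 ≤ (v ^ 90)⁻¹ := by
    clear * - L v v5 hpow hvL C1 v2
    have p1 : L⁻¹ ≤ (v ^ 90)⁻¹ := inv_anti₀ (by positivity) (hvL ▸ hpow (by norm_num))
    have p2 : (v ^ 91)⁻¹ * C1 ≤ (v ^ 90)⁻¹ / 2 := by
      calc (v ^ 91)⁻¹ * C1 ≤ (v ^ 91)⁻¹ * (v / 2) := by gcongr; linarith
        _ = _ := by field_simp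
    linarith
  calc _ ≤ (v ^ 91)⁻¹ * VQ L⁻¹ B q0 + VQg (Lam L⁻¹ 0)
        (fun n => cflat_m (4 * C * w)⁻¹ w n * rate L⁻¹ 0 B n) B q0 := hvol
    _ ≤ (v ^ 91)⁻¹ * (C1 * ((√L)⁻¹ ^ (q0 - 1) * mainV L (xc L⁻¹ - B))) +
        L⁻¹ / 2 * ((√L)⁻¹ ^ (q0 - 1) * mainV L (xc L⁻¹ - B)) := by clear * - v L B q0 C1 C w hVQ v5 h2; gcongr
    _ = ((v ^ 91)⁻¹ * C1 + L⁻¹ / 2) * ((√L)⁻¹ ^ (q0 - 1) * mainV L (xc L⁻¹ - B)) := by ring
    _ ≤ _ := by clear * - v C1 L q0 B h3 hX; rw [mul_assoc]; gcongr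

end Pool.Agent.Work.MP_5391ad_co
end
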