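import Pool.Agent.Work.MP_5391ad_co.TVal
import Pool.Agent.Work.MP_5391ad_co.CFlat

/-! Small root trees.
`Sol_linear`: `Tr r f (q+1) ≤ ∑ e⁻¹/k! s (q + k) = s (q + 1)`; induction on `i`.
`sol_lin`: as in the proof of `tail_up` (file `CFlat`). Take `n1` from `tail_three` with `θ = 1` and
`n0`, `M`, `D` from `end_data`; `n1 ≤ i` because `tau` is monotone and `c0 ≥ 1`. The first half of
`tail_three` gives `|Sol 0 (dl 1) n1 q| ≤ D M C exp (lgL n0 n1) (√L)⁻¹ q`; `Sol_add`, `Sol_linear`,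
`rs_mem`. The second half and `sol_theta` give
`M exp (lgL n0 n1) (√L)⁻¹ log^(-3/2) L ≤ C mainS L`.
`tq_le`: `A = rate t 0 B`, `i = B - m`. `vqg_eq` for `VQg (aM L m) A i 1` and for `VQ t B 1`. The last
step of `Sol (rsA a A i) 0 (dl 1) (i+1) 1` is `Pois (fun k => μ^k S k) 0` with `μ = a/A (i-1)` and
`S = Sol (rs t B) 0 (dl 1) i` (`Sol_congr`), at most `e⁻¹ s μ e^μ` if `S k ≤ s k`. With
`z = (L-1)⁻¹`, `a x = Lam x - Lam (x-1)`, `p x = z / a x ∈ (0, 1]`: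
`aM L m = (Lam 0 - z) + ∑_{x=1}^m (a x - z)`, `(Lam 0 - z)/A (i-1) ≤ e^{τ 0} - 1 ≤ 2 τ 0`,
`(a x - z)/A (i-1) ≤ 1 - p x ≤ τ x ≤ τ m` (`incr_bounds`, `t ≤ z`, `t ≤ τ`), so `μ ≤ 2 (m+1) τ m` and
`e^μ ∏ p x ≤ e^2` (`p e^{1-p} ≤ 1`). Use `cT_le`, `sol_theta`.
`sum_tq_le`: `τ m ≤ e t e^{t m} ≤ e L^(θ-1)`, `∑_{m ≤ m1} (m+1)^(-1/2) ≤ 2 √(m1+1)`. -/

namespace Pool.Agent.Work.MP_5391ad_co

open Finset Real Filter

theorem tail_three : ∃ (K C η0 c0 : ℝ) (s0 : ℕ), 0 ≤ K ∧ 1 ≤ C ∧ 0 < η0 ∧ η0 ≤ 1 ∧ 1 ≤ c0 ∧ 2 ≤ s0 ∧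
    ∀ θ : ℝ, 0 < θ → θ ≤ 1 → ∀ᶠ L : ℝ in atTop, ∀ B : ℕ, Gap L B → ∃ n1 : ℕ, L ≤ n1 ∧ n1 < B ∧
      c0 / √L ≤ tau L⁻¹ ((B : ℝ) - n1) ∧ tau L⁻¹ ((B : ℝ) - n1) ≤ (c0 + θ) / √L ∧
      (√L)⁻¹ ≤ bet L⁻¹ B n1 ∧ bet L⁻¹ B n1 ≤ C * (√L)⁻¹ ∧ L * rate L⁻¹ 0 B (n1 - 1) ≤ 2 ∧
      Adm3 K (1 / 2) (rs L⁻¹ B) (bet L⁻¹ B) (ap3 L⁻¹ B) s0 n1 ∧
      ∀ n2 : ℕ, s0 ≤ n2 → n2 ≤ n1 → ∀ f : ℕ → ℝ,
        ((∀ q : ℕ, |f q| ≤ gc (bet L⁻¹ B n2 * q)) → ∀ q : ℕ, |Sol (rs L⁻¹ B) n2 f (n1 - n2) q| ≤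
          C * (exp (lgL (bet L⁻¹ B) (ap3 L⁻¹ B) n2 n1) * (√L)⁻¹) * q) ∧
        (Bdd f → (∀ q, 0 ≤ f q) →
          (∀ q : ℕ, phi (bet L⁻¹ B n2 * q) - η0 * gc (bet L⁻¹ B n2 * q) ≤ f q) →
          C⁻¹ * (exp (lgL (bet L⁻¹ B) (ap3 L⁻¹ B) n2 n1) * (√L)⁻¹ * log L ^ (-(3 / 2) : ℝ)) ≤
            Sol (rs L⁻¹ B) n2 f (B + 1 - n2) 1) := by
  obtain ⟨K, hK, hadm⟩ := adm3_rs
  obtain ⟨C1, a0, η1, hC1, ha0, -, ha2, hη1, hη11, hprop⟩ := prop_both hK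
  obtain ⟨s1, c1, hs1, hc1, hadm⟩ := hadm a0 ha0
  obtain ⟨Cr, hCr, hrate⟩ := rate_small
  obtain ⟨Cp, hCp, hphi⟩ := phi_le_gc
  obtain ⟨θu, hθu⟩ : ∃ θu : ℝ, 0 < θu := ⟨1, one_pos⟩
  have hmm := cbase_mm
  obtain ⟨a, ha, haη, haC⟩ : ∃ a : ℝ, 0 < a ∧ a ≤ η1 ∧ C1 * (3 * a) * mm ≤ 1 / 4 := by
    clear * - η1 C1 hη1 hC1 hmm
    refine ⟨min η1 (1 / (12 * C1 * mm)), lt_min hη1 (by positivity), min_le_left _ _, ?_⟩
    have h := min_le_right η1 (1 / (12 * C1 * mm))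
    rw [le_div_iff₀ (by positivity)] at h
    linarith only [h]
  have haC1 : C1 * (3 * a) ≤ 1 := by (refine le_of_not_gt fun h_nl => ?_; linarith only [h_nl, hmm, haC, ha0, ha2, mul_pos (by linarith : 0 < C1) ha, mul_pos_of_neg_of_neg (Mathlib.Tactic.Linarith.sub_neg_of_lt ha0) (Mathlib.Tactic.Linarith.sub_neg_of_lt h_nl), mul_nonneg_of_nonpos_of_nonpos (Mathlib.Tactic.Linarith.sub_nonpos_of_le ha2) (le_of_lt (Mathlib.Tactic.Linarith.sub_neg_of_lt h_nl)), mul_nonneg_of_nonpos_of_nonpos (Mathlib.Tactic.Linarith.sub_nonpos_of_le hmm) (le_of_lt (Mathlib.Tactic.Linarith.sub_neg_of_lt h_nl))])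
  obtain ⟨x1, hx1⟩ := eventually_atTop.1
    (ctail_small (C := Cr) (show (0 : ℝ) < 1 / 3 by norm_num) (half_pos ha))
  obtain ⟨c0, hc0, hc01⟩ := ((ctail_small (C := Cr) (show (0 : ℝ) < 2 / 3 by norm_num)
    (half_pos ha)).and (eventually_ge_atTop c1)).exists
  have hc : 1 ≤ c0 := hc1.trans hc01
  obtain ⟨s0, hs01, hs0x⟩ : ∃ s0 : ℕ, s1 ≤ s0 ∧ x1 ≤ s0 :=
    ⟨max s1 ⌈x1⌉₊, le_max_left _ _, (Nat.le_ceil _).trans (by exact_mod_cast le_max_right _ _)⟩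
  obtain ⟨cp, θp, hcp, hθp, hpos⟩ := start_pos (c := c0) (l := 1 / (2 * Cp) / (2 * c0))
    (by linarith only [ha0, ha2, hc1, hc01]) (by positivity)
  have hA : 0 ≤ 6 * c0 * mm * (Cp + 1) / a := by positivity
  have hD : 0 ≤ 12 / cp := by positivity
  refine ⟨K, 2 * c0 + 6 * c0 * mm * (Cp + 1) / a + 12 / cp, a, c0, s0, hK, by linarith only [ha0, ha2, hc1, hc01, hA, hD], ha,
    haη.trans hη11, hc, hs1.trans hs01, fun θ hθ hθ1 => ?_⟩
  obtain ⟨θ', h0, h1, h2, h3, h4⟩ : ∃ θ' : ℝ, 0 < θ' ∧ θ' ≤ θ ∧ θ' ≤ θu ∧ θ' ≤ θp ∧ θ' ≤ 1 / 4 :=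
    ⟨min (min θ θu) (min θp (1 / 4)), by positivity, (min_le_left _ _).trans (min_le_left _ _),
      (min_le_left _ _).trans (min_le_right _ _), (min_le_right _ _).trans (min_le_left _ _),
      (min_le_right _ _).trans (min_le_right _ _)⟩
  filter_upwards [exists_junction (K := 0) hc h0, hadm, eventually_gt_atTop 1,
    eventually_ge_atTop (s0 : ℝ)] with L hJ hadm hL1 hLs B hG
  obtain ⟨n1, hn1, hn1B, ht1, ht2, hSt, hT, hb1, hb2, hr2⟩ := hJ B hG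
  have hBx : (B : ℝ) < xc L⁻¹ := by clear * - B L θ' h0 h4 hG; linarith only [h0, h4, hG, hG.1]
  have hL0 : 0 < L := by clear * - L θ' h0 h4 hL1; linarith
  have hsq : 0 < √L := sqrt_pos.2 hL0
  have hδ : 0 < (√L)⁻¹ := inv_pos.2 hsq
  have hs0n : s0 ≤ n1 := by exact_mod_cast hLs.trans hn1
  have hc3 : 1 ≤ c0 ^ (1 / 3 : ℝ) := one_le_rpow hc (by norm_num)
  have hc4 : c0 ^ (1 / 3 : ℝ) ≤ c0 := by
    simpa using rpow_le_rpow_of_exponent_le hc (show (1 / 3 : ℝ) ≤ 1 by norm_num)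
  have hb3 : (√L)⁻¹ ≤ bet L⁻¹ B n1 := le_trans (by clear * - L c0 θ' h0 h4 hδ hc3 B hb1 n1; (refine le_of_not_gt fun h_nl => ?_; linarith only [h_nl, h0, h4, hδ, hc3, mul_pos_of_neg_of_neg (Mathlib.Tactic.Linarith.sub_neg_of_lt h0) (Mathlib.Tactic.Linarith.sub_neg_of_lt h_nl), mul_nonneg_of_nonpos_of_nonpos (Mathlib.Tactic.Linarith.sub_nonpos_of_le h4) (le_of_lt (Mathlib.Tactic.Linarith.sub_neg_of_lt h_nl)), mul_nonneg_of_nonpos_of_nonpos (le_of_lt (Mathlib.Tactic.Linarith.sub_neg_of_lt hδ)) (Mathlib.Tactic.Linarith.sub_nonpos_of_le hc3)])) hb1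
  have hb4 : bet L⁻¹ B n1 ≤ 2 * c0 * (√L)⁻¹ :=
    hb2.trans (mul_le_mul_of_nonneg_right (by clear * - θ' c0 a0 c1 θ h4 hc4 ha0 ha2 hc1 hθ1 h1 hc01 h0 hb2 hδ; (refine le_of_not_gt fun h_nl => ?_; linarith only [h_nl, h4, hc4, ha0, ha2, hc1, hθ1, h1, hc01, h0, mul_pos_of_neg_of_neg (Mathlib.Tactic.Linarith.sub_neg_of_lt ha0) (Mathlib.Tactic.Linarith.sub_neg_of_lt h_nl), mul_nonneg_of_nonpos_of_nonpos (Mathlib.Tactic.Linarith.sub_nonpos_of_le ha2) (le_of_lt (Mathlib.Tactic.Linarith.sub_neg_of_lt h_nl)), mul_nonneg_of_nonpos_of_nonpos (Mathlib.Tactic.Linarith.sub_nonpos_of_le hc1) (Mathlib.Tactic.Linarith.sub_nonpos_of_le hθ1), mul_nonneg_of_nonpos_of_nonpos (Mathlib.Tactic.Linarith.sub_nonpos_of_le hc1) (Mathlib.Tactic.Linarith.sub_nonpos_of_le h1), mul_nonneg_of_nonpos_of_nonpos (Mathlib.Tactic.Linarith.sub_nonpos_of_le hc01) (Mathlib.Tactic.Linarith.sub_nonpos_of_le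 hθ1), mul_nonneg_of_nonpos_of_nonpos (Mathlib.Tactic.Linarith.sub_nonpos_of_le hc01) (Mathlib.Tactic.Linarith.sub_nonpos_of_le h1), mul_pos_of_neg_of_neg (Mathlib.Tactic.Linarith.sub_neg_of_lt h0) (Mathlib.Tactic.Linarith.sub_neg_of_lt h0), mul_nonneg_of_nonpos_of_nonpos (le_of_lt (Mathlib.Tactic.Linarith.sub_neg_of_lt h0)) (Mathlib.Tactic.Linarith.sub_nonpos_of_le h4), mul_nonneg_of_nonpos_of_nonpos (le_of_lt (Mathlib.Tactic.Linarith.sub_neg_of_lt h0)) (Mathlib.Tactic.Linarith.sub_nonpos_of_le hc4)])) hδ.le)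
  have hAd := hadm B s0 n1 hBx hs01 hs0n hn1B
    ((div_le_div_of_nonneg_right hc01 hsq.le).trans ht1)
  refine ⟨n1, hn1, hn1B, ht1, ht2.trans (div_le_div_of_nonneg_right (by clear * - c0 θ' θ h1 hAd ha2 hb3 hb4 hn1 hn1B hsq ht1 ht2 hδ n1; linarith only [h1]) hsq.le), hb3,
    hb4.trans (mul_le_mul_of_nonneg_right (by clear * - c0 Cp a cp hA hD hAd ha2 hb4 hδ; linarith only [hA, hD]) hδ.le), by clear * - L B n1 θ' h0 h4 hr2 hAd ha2 hb4 hδ; linarith only [h0, h4, hr2], hAd.mono ha2,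
    fun n2 h21 h22 f => ?_⟩
  have hrs : ∀ n : ℕ, 0 ≤ rs L⁻¹ B n ∧ rs L⁻¹ B n ≤ 1 := fun n =>
    ⟨(rs_mem (inv_pos.2 hL0) (by omega) hBx n).1.le, (rs_mem (inv_pos.2 hL0) (by omega) hBx n).2⟩
  obtain ⟨hsE, hap⟩ := hrate L c0 B n2 n1 hL1.le hc hBx (by omega) h22 ht1
  have hbd : Cr * ((n2 : ℝ) ^ (-(1 / 3) : ℝ) + c0 ^ (-(2 / 3) : ℝ)) ≤ a := by
    clear * - Cr n2 a hx1 x1 s0 hs0x h21 c0 hc0
    have := hx1 n2 (hs0x.trans (by exact_mod_cast h21))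
    linarith only [hc0, this]
  have hA2 := hAd.sub h21 h22 le_rfl
  have ha2' := (hap n2 le_rfl h22).trans hbd
  have ha1' := (hap n1 h22 le_rfl).trans hbd
  have hp2 := hA2.pt n2 le_rfl h22
  have hp1 := hA2.pt n1 h22 le_rfl
  have hsE1 := hsE.trans hbd
  have hsE0 : 0 ≤ sE (bet L⁻¹ B) (ap3 L⁻¹ B) n2 n1 := sum_nonneg fun _ _ => by positivity
  have hsS : exp (-sS (bet L⁻¹ B) n2 n1) ≤ 1 :=
    exp_le_one_iff.2 (neg_nonpos.2 (sum_nonneg fun _ _ => by positivity))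
  obtain ⟨hw0, hw⟩ := ctail_w hC1 ha ha1' ha2' hp1.1 hp2.1 hp1.2.1 hp2.2.1 (exp_pos _).le hsS
  have hx : C1 * (a + ap3 L⁻¹ B n2 + sE (bet L⁻¹ B) (ap3 L⁻¹ B) n2 n1) ≤ 1 :=
    (mul_le_mul_of_nonneg_left (by clear * - a L B n2 n1 Cr c0 hsE hbd ha2' haC1; linarith only [hsE, hbd, ha2']) (by clear * - C1 θ' hC1 h0 h4 haC1; linarith)).trans haC1
  obtain ⟨hy, hf1, hf2⟩ := ctail_fac (log_pos hL1) (hT.trans h4)
  have hsplit : Sol (rs L⁻¹ B) n2 f (B + 1 - n2) =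
      Sol (rs L⁻¹ B) n1 (Sol (rs L⁻¹ B) n2 f (n1 - n2)) (B + 1 - n1) := by
    clear * - L B n2 f n1 s1 s0 hn1B h22
    rw [show B + 1 - n2 = (n1 - n2) + (B + 1 - n1) by omega, Sol_add,
      show n2 + (n1 - n2) = n1 by omega]
  have hl3 : 0 < log L ^ (-(3 / 2) : ℝ) := rpow_pos_of_pos (log_pos hL1) _
  rw [hsplit]
  set Λ := exp (lgL (bet L⁻¹ B) (ap3 L⁻¹ B) n2 n1) with hΛ
  have hΛ0 : 0 < Λ := exp_pos _
  constructor
  · intro hf
    have hP := (hprop _ _ _ n2 n1 f a⁻¹ a hA2 (inv_pos.2 ha).le ha.le haη).1 (fun q => by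
      clear * - L B n2 q a0 hp2 a ha Cp hphi f hf
      have hq : 0 ≤ bet L⁻¹ B n2 * q := mul_nonneg hp2.1.le (Nat.cast_nonneg q)
      have := mul_nonneg (inv_pos.2 ha).le (hphi _ hq).1
      rw [mul_add, ← mul_assoc, inv_mul_cancel₀ ha.ne', one_mul]
      linarith only [this, hf, hf q])
    intro q
    have hq : 0 ≤ bet L⁻¹ B n1 * q := mul_nonneg hp1.1.le (Nat.cast_nonneg q)
    obtain ⟨g0, -, g1, -⟩ := gc_basic.2.2 _ hq
    obtain ⟨p0, p1, -⟩ := hphi _ hq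
    have g2 : mm * (bet L⁻¹ B n1 * q) ≤ mm * (2 * c0 * (√L)⁻¹ * q) :=
      mul_le_mul_of_nonneg_left (mul_le_mul_of_nonneg_right hb4 (Nat.cast_nonneg q)) (by clear * - θ' hmm h0 h4 hb4 q; linarith only [hmm, h0, h4])
    have g3 : exp (lgL (bet L⁻¹ B) (ap3 L⁻¹ B) n2 n1 +
        C1 * (a + ap3 L⁻¹ B n2 + sE (bet L⁻¹ B) (ap3 L⁻¹ B) n2 n1)) ≤ Λ * 3 := by
      rw [exp_add]
      exact mul_le_mul_of_nonneg_left ((exp_le_exp.2 hx).trans ctail_e.1) hΛ0.le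
    refine ((hP q).trans (mul_le_mul (mul_le_mul_of_nonneg_left g3 (inv_pos.2 ha).le)
      (ctail_up p1 g0 g1 g2 (hw.trans haC1) hCp) (add_nonneg p0 (mul_nonneg hw0 g0))
      (mul_pos (inv_pos.2 ha) (mul_pos hΛ0 three_pos)).le)).trans ?_
    calc _ = 6 * c0 * mm * (Cp + 1) / a * (Λ * (√L)⁻¹) * q := by ring
      _ ≤ _ := mul_le_mul_of_nonneg_right
        (mul_le_mul_of_nonneg_right (by clear * - c0 Cp a cp c1 θ' hc1 hc01 hD h0 h4 q; linarith only [hc1, hc01, hD, h0, h4]) (by positivity)) (Nat.cast_nonneg q)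
  · intro hfb hf0 hf
    have hP := (hprop _ _ _ n2 n1 f 1 a hA2 zero_le_one ha.le haη).2 hfb hf0
      (fun q => by simpa using hf q)
    have hgb : Bdd (Sol (rs L⁻¹ B) n2 f (n1 - n2)) := cbase_bdd (fun j _ => hrs _) hfb
    have hg0 : ∀ q, 0 ≤ Sol (rs L⁻¹ B) n2 f (n1 - n2) q :=
      ctail_nonneg (fun j _ => hrs _) hfb hf0
    have hV := hpos _ _ _ (fun k => 12 / Λ * Sol (rs L⁻¹ B) n2 f (n1 - n2) k)
      (hSt.toStH0.mono h3) (cfree_mul hgb _) (fun q => mul_nonneg (by positivity) (hg0 q))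
      (fun q hq => by
        clear * - L B n1 q a0 hp1 hb3 Λ n2 f C1 a Cp c0 hc hb4 hq hCp hphi hw hw0 haC hx hΛ0 hP
        have hq0 : 0 ≤ bet L⁻¹ B n1 * q := mul_nonneg hp1.1.le (Nat.cast_nonneg q)
        have hq2 : (√L)⁻¹ * q ≤ bet L⁻¹ B n1 * q :=
          mul_le_mul_of_nonneg_right hb3 (Nat.cast_nonneg q)
        obtain ⟨g0, -, g1, -⟩ := gc_basic.2.2 _ hq0
        have h5 := ctail_lo hq0 (ctail_x hc hb4 hq) hCp (hphi _ hq0).2.2.2.2.1 g0 g1 hw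
          (hw0.trans hw) haC
        have h6 : Λ * (1 / 3) ≤ 1 * exp (lgL (bet L⁻¹ B) (ap3 L⁻¹ B) n2 n1 -
            C1 * (a + ap3 L⁻¹ B n2 + sE (bet L⁻¹ B) (ap3 L⁻¹ B) n2 n1)) := by
          rw [one_mul, sub_eq_add_neg, exp_add]
          exact mul_le_mul_of_nonneg_left (ctail_e.2.trans (exp_le_exp.2 (neg_le_neg hx))) hΛ0.le
        have h7 := (mul_le_mul h6 h5 (div_nonneg hq0 four_pos.le)
          (mul_pos one_pos (exp_pos _)).le).trans (hP q)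
        refine hq2.trans (le_trans (le_of_eq ?_)
          (mul_le_mul_of_nonneg_left h7 (div_pos (by norm_num) hΛ0).le))
        field_simp
        ring)
    have hS := sol_eq_stV hL1 hBx hn1B (fun k => 12 / Λ * Sol (rs L⁻¹ B) n2 f (n1 - n2) k)
    rw [ctail_smul (fun j _ => hrs _) hgb, div_eq_mul_inv (√L)⁻¹] at hS
    have h8 : (√L)⁻¹ * log L ^ (-(3 / 2) : ℝ) * cp ≤ 12 / Λ *
        Sol (rs L⁻¹ B) n1 (Sol (rs L⁻¹ B) n2 f (n1 - n2)) (B + 1 - n1) 1 := by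
      rw [hS]
      exact mul_le_mul (mul_le_mul_of_nonneg_left hf1 hδ.le) hV hcp.le
        (mul_pos hδ (inv_pos.2 (rpow_pos_of_pos hy _))).le
    have h9 : (2 * c0 + 6 * c0 * mm * (Cp + 1) / a + 12 / cp)⁻¹ ≤ (12 / cp)⁻¹ :=
      inv_anti₀ (div_pos (by norm_num) hcp) (by clear * - cp c0 Cp a c1 θ' hc1 hc01 hA h0 h4 hcp; linarith only [hc1, hc01, hA, h0, h4])
    refine (mul_le_mul_of_nonneg_right h9 (mul_pos (mul_pos hΛ0 hδ) hl3).le).trans ?_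
    refine le_trans (le_of_eq ?_) ((mul_le_mul_of_nonneg_left h8
      (div_pos hΛ0 (by norm_num : (0 : ℝ) < 12)).le).trans (le_of_eq ?_))
    · field_simp
    · field_simp

theorem Sol_linear {r f : ℕ → ℝ} {n0 i : ℕ} {s : ℝ}
    (hr : ∀ j < i, 0 ≤ r (n0 + j) ∧ r (n0 + j) ≤ 1) (h : ∀ q : ℕ, |f q| ≤ s * q) (q : ℕ) :
    |Sol r n0 f i q| ≤ s * q := by
  have hs : 0 ≤ s := by simpa using (abs_nonneg _).trans (h 1)
  induction i generalizing q with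
  | zero => exact h q
  | succ i ih =>
    obtain ⟨h0, h1⟩ := hr i i.lt_succ_self
    cases q with
    | zero => simp [Sol, Tr]
    | succ q =>
      rw [Nat.cast_succ, ← one_mul (q : ℝ), Sol, Tr, Pois, ← Real.norm_eq_abs]
      refine tsum_of_norm_bounded (((aexp_m0.mul_right (q : ℝ)).add aexp_m1).mul_left s)
        fun k => ?_
      have h2 := mul_le_mul (pow_le_one₀ (n := q + k) h0 h1)
        (ih (fun j hj => hr j (by omega)) (q + k)) (abs_nonneg _) zero_le_one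
      rw [norm_mul, norm_mul, Real.norm_of_nonneg (aexp_p_nonneg k),
        Real.norm_of_nonneg (pow_nonneg h0 _), ← mul_add, mul_left_comm s, ← Nat.cast_add]
      exact mul_le_mul_of_nonneg_left (h2.trans_eq (one_mul _)) (aexp_p_nonneg k)

theorem sol_lin : ∃ C : ℝ, 1 ≤ C ∧ ∀ᶠ L : ℝ in atTop, ∀ B i : ℕ, Gap L B → i ≤ B →
    tau L⁻¹ ((B : ℝ) - i) < 1 / √L → ∀ q : ℕ,
      |Sol (rs L⁻¹ B) 0 (dl 1) i q| ≤ C * log L ^ (3 / 2 : ℝ) * mainS L * q := by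
  obtain ⟨K, C, η0, c0, s0, -, hC, hη, -, hc, -, hT⟩ := tail_three
  obtain ⟨s1, hE⟩ := end_data hη
  obtain ⟨n0, h0, h1⟩ : ∃ n0, s0 ≤ n0 ∧ s1 ≤ n0 := ⟨_, le_max_left _ _, le_max_right _ _⟩
  obtain ⟨M, D, hM, hD, hE⟩ := hE n0 h1
  obtain ⟨C2, hC2, hS⟩ := sol_theta
  have hC0 : 0 < C := by linarith only [hC]
  have hDM : 0 < D * M := mul_pos (by linarith only [hD]) hM
  refine ⟨D * C * C * C2, one_le_mul_of_one_le_of_one_le (one_le_mul_of_one_le_of_one_le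
    (one_le_mul_of_one_le_of_one_le hD hC) hC) hC2, ?_⟩
  filter_upwards [hT 1 one_pos le_rfl, hE, hS, eventually_gt_atTop 1, eventually_ge_atTop (n0 : ℝ)]
    with L hT hE hS hL1 hLn B i hG hi hτ q
  obtain ⟨n1, hn1, hn1B, ht1, -, -, -, -, -, hT⟩ := hT B hG
  obtain ⟨e1, -, e3⟩ := hE B hG
  have ht : 0 < L⁻¹ := by positivity
  have hx : (B : ℝ) < xc L⁻¹ := by linarith only [hG, hG.1]
  have h01 : n0 ≤ n1 := by exact_mod_cast hLn.trans hn1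
  have hr : ∀ n, 0 ≤ rs L⁻¹ B n ∧ rs L⁻¹ B n ≤ 1 := fun n =>
    ⟨(rs_mem ht (by omega) hx n).1.le, (rs_mem ht (by omega) hx n).2⟩
  have h1i : n1 ≤ i := by
    clear * - n1 i L B hτ c0 hc hL1 ht1 ht hx
    refine le_of_not_gt fun h => hτ.not_ge (le_trans (le_trans (by gcongr) ht1)
      (alam_mono ht (by gcongr) (by linarith only [hx, i.cast_nonneg (α := ℝ)])))
  have hd : Bdd (dl 1) := ⟨1, fun q => (cbase_dl 1 q).2⟩
  have hU : Bdd (Sol (rs L⁻¹ B) 0 (dl 1) n0) := cbase_bdd (fun j _ => hr _) hd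
  have hsp : ∀ {a b}, a ≤ b → Sol (rs L⁻¹ B) 0 (dl 1) b =
      Sol (rs L⁻¹ B) a (Sol (rs L⁻¹ B) 0 (dl 1) a) (b - a) := fun {a b} h => by
    conv_lhs => rw [← Nat.add_sub_cancel' h, Sol_add, Nat.zero_add]
  have k1 := (hT n0 h0 h01 fun k => M⁻¹ * Sol (rs L⁻¹ B) 0 (dl 1) n0 k).2
    (cfree_mul hU _) (fun q => mul_nonneg (inv_pos.2 hM).le
      (ctail_nonneg (fun j _ => hr _) hd (fun q => (cbase_dl 1 q).1) q))
    (fun q => (le_inv_mul_iff₀ hM).2 (e1 q))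
  rw [ctail_smul (fun j _ => hr _) hU, ← hsp (by omega), le_inv_mul_iff₀ hM] at k1
  have k2 := (hT n0 h0 h01 fun k => (D * M)⁻¹ * Sol (rs L⁻¹ B) 0 (dl 1) n0 k).1 fun q => by
    rw [abs_mul, abs_of_pos (inv_pos.2 hDM), inv_mul_le_iff₀ hDM]
    exact e3 1 one_le_two q
  simp only [ctail_smul (fun j _ => hr _) hU, ← hsp h01, abs_mul, abs_of_pos (inv_pos.2 hDM),
    inv_mul_le_iff₀ hDM, ← mul_assoc (D * M)] at k2
  rw [hsp h1i]
  refine (Sol_linear (fun j _ => hr _) k2 q).trans (mul_le_mul_of_nonneg_right ?_ q.cast_nonneg)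
  have hl : 0 < log L ^ (3 / 2 : ℝ) := rpow_pos_of_pos (log_pos hL1) _
  have k3 := mul_le_mul_of_nonneg_left (k1.trans ((hS B hG).2 1 one_le_two))
    (show 0 ≤ D * C * C * log L ^ (3 / 2 : ℝ) by positivity)
  rw [rpow_neg (log_pos hL1).le] at k3
  refine le_trans (le_of_eq ?_) (k3.trans_eq (by ring))
  field_simp

theorem tlin_tau {t x : ℝ} (ht : 0 < t) (hx : x < xc t) :
    tau t x = t * exp (t * x) * exp (tau t x) := by
  obtain ⟨h1, -, h3⟩ := tau_spec ht hx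
  rw [alam_exp ht, ← exp_add, ← h3, sub_add_cancel, exp_log h1]

theorem tlin_mu {t x : ℝ} (ht : 0 < t) (h0 : 0 ≤ x) (hx : x < xc t) :
    t ≤ tau t x ∧ tau t x - t ≤ t * (2 * (x + 1) * tau t x) := by
  obtain ⟨h1, h2, -⟩ := tau_spec ht hx
  have h3 := tlin_tau ht hx
  have h4 := one_le_exp (mul_nonneg ht.le h0)
  have h5 := one_le_exp h1.le
  have h6 := (abs_le.1 (abs_exp_sub_one_le (x := tau t x) (by rw [abs_of_pos h1]; exact h2.le))).2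
  have h7 := mul_le_mul_of_nonneg_left (add_one_le_exp (-(t * x))) h1.le
  have h8 : tau t x * exp (-(t * x)) = t * exp (tau t x) := by
    rw [exp_neg, mul_inv_eq_iff_eq_mul₀ (exp_pos _).ne', mul_right_comm]
    exact h3
  rw [abs_of_pos h1] at h6
  constructor
  · rw [h3, mul_assoc]
    exact le_mul_of_one_le_right ht.le (one_le_mul_of_one_le_of_one_le h4 h5)
  · clear * - t x h7 h8 h6 ht h0 h1
    linarith only [h7, h8, h6, ht, h0, h1, mul_le_mul_of_nonneg_left h6 ht.le, mul_nonneg (mul_nonneg ht.le h0) h1.le]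

theorem tlin_prod {L : ℝ} {B m : ℕ} (hL : 1 < L) (hB : (B : ℝ) < xc L⁻¹) (hm : m < B) {k : ℕ}
    (hk : k ≤ m) : exp (aM L k / rate L⁻¹ 0 B (B - m - 1)) * ((L - 1)⁻¹ * exp 1) ^ k *
      ∏ j ∈ range (B - k), exp 1 * rate L⁻¹ 0 B j ≤ exp 2 * ∏ j ∈ range B, exp 1 * rate L⁻¹ 0 B j := by
  have ht : 0 < L⁻¹ := by positivity
  have hz : 0 < (L - 1)⁻¹ := inv_pos.2 (sub_pos.2 hL)
  have hA := crate_pos ht hB
  have hP : ∀ n, 0 ≤ ∏ j ∈ range n, exp 1 * rate L⁻¹ 0 B j := fun n =>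
    prod_nonneg fun j _ => (mul_pos (exp_pos 1) (hA j)).le
  have h0 : (0 : ℝ) + B < xc L⁻¹ := by rwa [zero_add]
  induction k with
  | zero =>
    rw [pow_zero, mul_one, Nat.sub_zero]
    refine mul_le_mul_of_nonneg_right (exp_le_exp.2 ((div_le_iff₀ (hA _)).2 ?_)) (hP B)
    have h1 : (0 : ℝ) < xc L⁻¹ := B.cast_nonneg.trans_lt hB
    have h2 := mul_le_mul_of_nonneg_left (tau_spec ht h1).2.1.le ht.le
    have h3 : L⁻¹ ≤ (L - 1)⁻¹ := inv_anti₀ (sub_pos.2 hL) (by linarith only [])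
    simp only [aM, Lam, Nat.cast_zero]
    clear * - L B m h2 h3 ht h1 h0
    linarith only [h2, h3, ht, h1, h0, (tlin_mu ht le_rfl h1).2, rate_pos ht h0 (B - m - 1)]
  | succ k ih =>
    refine le_trans ?_ (ih (by omega))
    have h1 : ((k + 1 : ℕ) : ℝ) ≤ B := by exact_mod_cast (by omega : k + 1 ≤ B)
    have h2 : rate L⁻¹ 0 B (B - (k + 1)) = Lam L⁻¹ (k + 1 : ℕ) - Lam L⁻¹ k := by
      rw [rate, Nat.sub_sub_self (by omega), zero_add, Nat.cast_succ, add_sub_cancel_right]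
    have h3 := (incr_bounds ht (h1.trans_lt hB)).1
    rw [Nat.cast_succ] at h1
    rw [Nat.cast_succ, add_sub_cancel_right, ← Nat.cast_succ, ← h2] at h3
    have h4 : (L - 1)⁻¹ ≤ rate L⁻¹ 0 B (B - (k + 1)) := by
      clear * - L B k hL ht hB h1 h3
      refine le_trans (le_of_eq ?_) (le_trans (div_le_div_of_nonneg_left ht.le
        (sub_pos.2 (tau_spec ht (by linarith only [hB, h1])).2.1) (sub_le_sub_left
          (tlin_mu ht k.cast_nonneg (by linarith only [hB, h1])).1 1)) h3)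
      field_simp
    have h5 := rate_anti ht h0 (show B - m - 1 ≤ B - (k + 1) by omega)
    have h6 : aM L (k + 1) = aM L k + (rate L⁻¹ 0 B (B - (k + 1)) - (L - 1)⁻¹) := by
      rw [h2, aM, aM]
      push_cast
      ring
    have h7 := hA (B - (k + 1))
    rw [show B - k = B - (k + 1) + 1 by omega, prod_range_succ, h6, add_div, exp_add, pow_succ]
    generalize rate L⁻¹ 0 B (B - (k + 1)) = a at *
    have h8 : exp ((a - (L - 1)⁻¹) / rate L⁻¹ 0 B (B - m - 1)) * (L - 1)⁻¹ ≤ a := by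
      clear * - a L B m h4 h7 h5 hz
      have h9 := add_one_le_exp (-((a - (L - 1)⁻¹) / a))
      rw [exp_neg, le_inv_comm₀ (by rw [sub_div, div_self h7.ne']; simpa using div_pos hz h7)
        (exp_pos _), sub_div, div_self h7.ne', neg_sub, sub_add_cancel, inv_div, le_div_iff₀ hz] at h9
      refine le_trans (mul_le_mul_of_nonneg_right (exp_le_exp.2 ?_) hz.le) h9
      exact (div_le_div_of_nonneg_left (sub_nonneg.2 h4) h7 h5).trans_eq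
        (by rw [sub_div, div_self h7.ne'])
    have h9 := mul_le_mul_of_nonneg_left h8 (show 0 ≤ exp (aM L k / rate L⁻¹ 0 B (B - m - 1)) *
      ((L - 1)⁻¹ * exp 1) ^ k * ((∏ j ∈ range (B - (k + 1)), exp 1 * rate L⁻¹ 0 B j) * exp 1) from
      mul_nonneg (by positivity) (mul_nonneg (hP _) (exp_pos 1).le))
    clear * - L k B m a h9
    linarith only [h9]

theorem tlin_pois {μ s : ℝ} {S : ℕ → ℝ} (hμ : 0 ≤ μ) (h : ∀ q : ℕ, |S q| ≤ s * q) :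
    Tr μ S 1 ≤ s * μ * (exp (-1) * exp μ) := by
  have h1 := aexp_shift (f := fun k => μ ^ k) (aexp_congr ((aexp_hs μ).mul_left (exp (-1)))
    (fun k => by ring) rfl)
  rw [Tr, Pois]
  refine (le_norm_self _).trans (tsum_of_norm_bounded (h1.mul_left (s * μ)) fun k => ?_)
  rw [norm_mul, norm_mul, Real.norm_of_nonneg (aexp_p_nonneg k),
    Real.norm_of_nonneg (pow_nonneg hμ _), zero_add, mul_left_comm (s * μ)]
  refine mul_le_mul_of_nonneg_left ((mul_le_mul_of_nonneg_left (h k) (pow_nonneg hμ k)).trans_eq ?_)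
    (aexp_p_nonneg k)
  cases k with
  | zero => simp
  | succ k =>
    rw [Nat.add_sub_cancel]
    ring

theorem tq_le : ∃ C : ℝ, 1 ≤ C ∧ ∀ᶠ L : ℝ in atTop, ∀ B m : ℕ, Gap L B → m < B →
    tau L⁻¹ m < 1 / √L → TQ L B m ≤
      C * log L ^ (3 / 2 : ℝ) * (((m : ℝ) + 1) ^ (-(1 / 2) : ℝ) * tau L⁻¹ m) * VQ L⁻¹ B 1 := by
  obtain ⟨C, hC, h1⟩ := sol_lin
  obtain ⟨C2, hC2, h2⟩ := sol_theta
  refine ⟨C * C2 * (2 * exp 2), one_le_mul_of_one_le_of_one_le (one_le_mul_of_one_le_of_one_le hC hC2)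
    (by linarith only [one_le_exp (zero_le_two (α := ℝ))]), ?_⟩
  filter_upwards [h1, h2, eventually_gt_atTop 1] with L h1 h2 hL B m hG hm hτ
  have ht : 0 < L⁻¹ := by positivity
  have hx : (B : ℝ) < xc L⁻¹ := by linarith only [hG, hG.1]
  have hmx : (m : ℝ) < xc L⁻¹ := lt_trans (by exact_mod_cast hm) hx
  have hA := crate_pos ht hx
  have k1 := h1 B (B - m) hG (Nat.sub_le B m) (by rwa [Nat.cast_sub hm.le, sub_sub_cancel])
  have k2 := (inv_mul_le_iff₀ (by linarith only [hC2])).1 (h2 B hG).1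
  have k3 := tlin_prod hL hx hm le_rfl
  have a0 : 0 ≤ aM L m := (ev_pM hL hmx).2.nonneg fun k =>
    mul_nonneg (pM_nonneg m k) (pow_nonneg (inv_pos.2 (sub_pos.2 hL)).le k)
  have m0 := div_nonneg a0 (hA (B - m - 1)).le
  have m1 : aM L m / rate L⁻¹ 0 B (B - m - 1) ≤ 2 * (m + 1) * tau L⁻¹ m := by
    clear * - L hL m ht hmx B hA hx
    have h3 : L⁻¹ ≤ (L - 1)⁻¹ := inv_anti₀ (sub_pos.2 hL) (by linarith)
    have h4 := (tau_spec ht hmx).1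
    rw [div_le_iff₀' (hA _)]
    refine le_trans ?_ ((tlin_mu ht m.cast_nonneg hmx).2.trans (mul_le_mul_of_nonneg_right
      (rate_pos ht (by rwa [zero_add]) _) (by positivity)))
    rw [aM, Lam]
    linarith only [h3, m.cast_nonneg (α := ℝ), mul_nonneg_of_nonpos_of_nonpos (Mathlib.Tactic.Linarith.sub_nonpos_of_le (Mathlib.Tactic.Linarith.natCast_nonneg ℝ m)) (Mathlib.Tactic.Linarith.sub_nonpos_of_le h3)]
  have k4 := tlin_pois m0 k1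
  have e1 : Sol (rsA (aM L m) (rate L⁻¹ 0 B) (B - m)) 0 (dl 1) (B - m + 1) =
      Tr (aM L m / rate L⁻¹ 0 B (B - m - 1)) (Sol (rs L⁻¹ B) 0 (dl 1) (B - m)) := by
    rw [Sol, zero_add, rsA, if_neg (by omega), if_neg (lt_irrefl _),
      Sol_congr (r' := rs L⁻¹ B) (n1 := 0) fun j hj => by
        rw [zero_add, rs, rsA, rsA, if_pos hj, if_pos (show j < B by omega)]]
  have e2 : ((m : ℝ) + 1) ^ (-(1 / 2) : ℝ) = (m + 1) ^ (-(3 / 2) : ℝ) * (m + 1) := by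
    rw [← rpow_add_one (by positivity)]
    norm_num
  obtain ⟨c0, c1⟩ := cT_le m
  have hl : 0 < log L ^ (3 / 2 : ℝ) := rpow_pos_of_pos (log_pos hL) _
  have hM : 0 ≤ mainS L := by
    have := log_nonneg hL.le
    unfold mainS
    positivity
  have hP : ∀ n, 0 ≤ ∏ j ∈ range n, exp 1 * rate L⁻¹ 0 B j := fun n =>
    prod_nonneg fun j _ => (mul_pos (exp_pos 1) (hA j)).le
  have hz : 0 < (L - 1)⁻¹ := inv_pos.2 (sub_pos.2 hL)
  have h5 := hA 0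
  have h6 := hP B
  have h7 := hP (B - m)
  have h8 := (tau_spec ht hmx).1
  rw [TQ, VQ, vqg_eq (by omega) le_rfl fun n _ => hA n, vqg_eq (by omega) le_rfl fun n _ => hA n,
    e1, e2]
  change _ ≤ _ * (_ * Sol (rs L⁻¹ B) 0 (dl 1) (B + 1) 1)
  generalize aM L m / rate L⁻¹ 0 B (B - m - 1) = μ at *
  calc _ ≤ (L - 1)⁻¹ ^ m * (exp (m + 1) * (m + 1) ^ (-(3 / 2) : ℝ)) *
        (exp 1 * rate L⁻¹ 0 B 0 ^ 1 * (∏ j ∈ range (B - m), exp 1 * rate L⁻¹ 0 B j) *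
          (C * log L ^ (3 / 2 : ℝ) * mainS L * μ * (exp (-1) * exp μ))) := by
        clear * - L m B μ C k4 h5 h7 hL c0 c1 hC hl hM m0
        refine (mul_le_mul_of_nonneg_left (mul_le_mul_of_nonneg_left k4 (by positivity))
          (by positivity)).trans ?_
        gcongr
    _ = C * log L ^ (3 / 2 : ℝ) * (m + 1) ^ (-(3 / 2) : ℝ) * (exp 1 * rate L⁻¹ 0 B 0) * (μ *
        (exp μ * ((L - 1)⁻¹ * exp 1) ^ m * ∏ j ∈ range (B - m), exp 1 * rate L⁻¹ 0 B j) *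
          mainS L) := by
        clear * - L m B C μ hl hC hL
        rw [exp_add, exp_neg, mul_pow, exp_one_pow]
        field_simp
    _ ≤ C * log L ^ (3 / 2 : ℝ) * (m + 1) ^ (-(3 / 2) : ℝ) * (exp 1 * rate L⁻¹ 0 B 0) *
        (2 * (m + 1) * tau L⁻¹ m * (exp 2 * ∏ j ∈ range B, exp 1 * rate L⁻¹ 0 B j) *
          (C2 * Sol (rs L⁻¹ B) 0 (dl 1) (B + 1) 1)) := by clear * - C L m B μ C2 m1 k3 hL h7 h8 k2 hM h6 hC hl h5; gcongr
    _ = _ := by ring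

theorem tlin_sum (n : ℕ) : ∑ m ∈ range n, ((m : ℝ) + 1) ^ (-(1 / 2) : ℝ) ≤ 2 * √n := by
  induction n with
  | zero => simp
  | succ n ih =>
    have h1 : 0 < √((n : ℝ) + 1) := by positivity
    rw [sum_range_succ, rpow_neg (by positivity), ← sqrt_eq_rpow, Nat.cast_succ]
    refine (add_le_add_left ih _).trans ?_
    rw [← le_sub_iff_add_le', inv_eq_one_div, div_le_iff₀ h1]
    linarith only [sq_sqrt (n.cast_nonneg (α := ℝ)), sq_sqrt (show 0 ≤ (n : ℝ) + 1 by positivity),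
      sq_nonneg (√((n : ℝ) + 1) - √n), sq_nonneg (√(↑n + (1 : ℝ)) - √↑n)]

theorem sum_tq_le {θ δ : ℝ} (hθ : θ < 1 / 2) (hδ : 0 < δ) : ∀ᶠ L : ℝ in atTop, ∀ B m1 : ℕ,
    Gap L B → (m1 : ℝ) ≤ θ * (L * log L) → m1 < B ∧
      ∑ m ∈ range (m1 + 1), TQ L B m ≤ L ^ (θ - 1 / 2 + δ) * VQ L⁻¹ B 1 := by
  obtain ⟨C, hC, h1⟩ := tq_le
  obtain ⟨C2, hC2, h2⟩ := sol_theta
  have hC0 : 0 < C := by linarith only [hC]
  filter_upwards [h1, h2, eventually_ge_atTop (exp 4),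
    (isLittleO_log_rpow_rpow_atTop 2 hδ).bound (show 0 < (C * 6)⁻¹ by positivity),
    (tendsto_rpow_atTop (sub_pos.2 hθ)).eventually_gt_atTop 3] with L h1 h2 hL h3 h4 B m1 hG hm
  have l1 : 5 ≤ L := le_trans (by linarith only [add_one_le_exp 4]) hL
  have l0 : 0 < L := by linarith only [l1]
  have l2 : 4 ≤ log L := (le_log_iff_exp_le l0).2 hL
  have l3 : 0 < log L := by linarith only [l2]
  have ht : 0 < L⁻¹ := by positivity
  have hx : (B : ℝ) < xc L⁻¹ := by linarith only [hG, hG.1]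
  have g2 := hG.2
  rw [xc, inv_inv] at g2
  have m2 : (m1 : ℝ) ≤ 1 / 2 * (L * log L) := hm.trans (by gcongr)
  have hB : m1 < B := by
    clear * - m1 B L l1 l2 g2 m2
    have : (m1 : ℝ) < B := by linarith only [l1, l2, g2, m2, mul_nonneg_of_nonpos_of_nonpos (Mathlib.Tactic.Linarith.sub_nonpos_of_le l1) (Mathlib.Tactic.Linarith.sub_nonpos_of_le l2)]
    exact_mod_cast this
  have hA := crate_pos ht hx
  have hV : 0 ≤ VQ L⁻¹ B 1 := by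
    have h5 := hA 0
    have h6 : 0 ≤ mainS L := by
      unfold mainS
      positivity
    rw [VQ, vqg_eq (by omega) le_rfl fun n _ => hA n]
    exact mul_nonneg (mul_nonneg (by positivity) (prod_nonneg fun j _ =>
      (mul_pos (exp_pos 1) (hA j)).le)) (le_trans (by positivity) (h2 B hG).1)
  have hτ : ∀ m : ℕ, m ≤ m1 → tau L⁻¹ m ≤ 3 * L ^ (θ - 1) := fun m h => by
    have h5 : (m : ℝ) ≤ m1 := by exact_mod_cast h
    have h6 : (m : ℝ) < xc L⁻¹ := lt_trans (by exact_mod_cast h.trans_lt hB) hx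
    rw [tlin_tau ht h6, rpow_sub_one l0.ne', rpow_def_of_pos l0, mul_comm 3, div_eq_inv_mul]
    exact mul_le_mul (mul_le_mul_of_nonneg_left (exp_le_exp.2 ((inv_mul_le_iff₀ l0).2 (by linarith only [hm, h5])))
      ht.le) ((exp_le_exp.2 (tau_spec ht h6).2.1.le).trans ctail_e.1) (exp_pos _).le (by positivity)
  have h5 : 3 * L ^ (θ - 1) < 1 / √L := by
    rw [sqrt_eq_rpow, lt_div_iff₀ (by positivity), mul_assoc, ← rpow_add l0,
      show θ - 1 + 1 / 2 = -(1 / 2 - θ) by ring, rpow_neg l0.le, mul_inv_lt_iff₀ (by positivity),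
      one_mul]
    exact h4
  refine ⟨hB, (sum_le_sum fun m h => ?_).trans ((sum_mul _ _ _).symm.trans_le
    (mul_le_mul_of_nonneg_right (?_ : ∑ m ∈ range (m1 + 1), C * log L ^ (3 / 2 : ℝ) *
      (3 * L ^ (θ - 1)) * ((m : ℝ) + 1) ^ (-(1 / 2) : ℝ) ≤ _) hV))⟩
  · have h6 := Nat.lt_succ_iff.1 (mem_range.1 h)
    refine (h1 B m hG (by omega) ((hτ m h6).trans_lt h5)).trans
      (mul_le_mul_of_nonneg_right ?_ hV)
    rw [mul_assoc _ (3 * _), mul_comm (3 * _)]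
    gcongr
    exact hτ m h6
  · rw [Real.norm_of_nonneg (by positivity), Real.norm_of_nonneg (by positivity),
      le_inv_mul_iff₀ (by positivity)] at h3
    have h6 : √(m1 + 1 : ℕ) ≤ L ^ (1 / 2 : ℝ) * log L ^ (1 / 2 : ℝ) := by
      clear * - m1 L l0 l3 l1 l2 m2
      rw [← mul_rpow l0.le l3.le, ← sqrt_eq_rpow, Nat.cast_succ]
      exact sqrt_le_sqrt (by linarith only [l1, l2, m2, mul_nonneg_of_nonpos_of_nonpos (Mathlib.Tactic.Linarith.sub_nonpos_of_le l1) (Mathlib.Tactic.Linarith.sub_nonpos_of_le l2)])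
    rw [← mul_sum]
    calc _ ≤ C * log L ^ (3 / 2 : ℝ) * (3 * L ^ (θ - 1)) *
          (2 * (L ^ (1 / 2 : ℝ) * log L ^ (1 / 2 : ℝ))) := by
          gcongr
          exact (tlin_sum _).trans (by gcongr)
      _ = L ^ (θ - 1 + 1 / 2) * (C * 6 * log L ^ (3 / 2 + 1 / 2 : ℝ)) := by
          rw [rpow_add l0, rpow_add l3]
          ring
      _ ≤ _ := by
          rw [rpow_add l0 _ δ, show θ - 1 + 1 / 2 = θ - 1 / 2 by ring,
            show (3 / 2 + 1 / 2 : ℝ) = 2 by norm_num]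
          gcongr

end Pool.Agent.Work.MP_5391ad_co
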