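import Pool.Agent.Work.MP_5391ad_co.ADef

/-! The constant of the asymptotic formula. -/

namespace Pool.Agent.Work.MP_5391ad_co

open Real

/-- the volume of the polytope `0 ≤ u 1 ≤ … ≤ u n`, `u (i + 1) ≤ a i`, by its recursion -/
noncomputable def gon (a : ℕ → ℝ) : ℕ → ℝ
  | 0 => 1
  | n + 1 => ∑ i : Fin (n + 1), (-1) ^ (n - i) * a i ^ (n + 1 - i) / (n + 1 - i).factorial * gon a i
decreasing_by exact i.2

/-- the least `u ≥ 0` with `L u - e ^ u ≥ x` -/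
noncomputable def node (L x : ℝ) : ℝ := sInf {u | 0 ≤ u ∧ x ≤ L * u - exp u}

/-- the least `L ≥ e` with `L (log L - 1) ≥ b` -/
noncomputable def scl (b : ℝ) : ℝ := sInf {L | exp 1 ≤ L ∧ b ≤ L * (log L - 1)}

/-- the normalised volumes -/
noncomputable def cseq (b : ℕ) : ℝ :=
  gon (fun i => node (scl b) i) b *
    exp (scl b * (log (scl b) ^ 2 - 2 * log (scl b) + 2 - π ^ 2 / 6) + kappa * scl b ^ (1 / 3 : ℝ)) *
    scl b ^ (2 / 3 : ℝ) * log (scl b) ^ (3 / 2 : ℝ)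

end Pool.Agent.Work.MP_5391ad_co
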