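import Pool.Agent.Work.MP_5391ad_co.CJumpa
import Pool.Agent.Work.MP_5391ad_co.TLin
import Pool.Agent.Work.MP_5391ad_co.TFin
import Pool.Agent.Work.MP_5391ad_co.Master
import Pool.Agent.Work.MP_5391ad_co.CLap
import Pool.Agent.Work.MP_5391ad_co.TVal
import Pool.Agent.Work.MP_5391ad_co.SPar
import Pool.Agent.Work.MP_5391ad_co.AGiant
import Pool.Agent.Work.MP_5391ad_co.ZDef

-- merged part: Pool.Agent.Work.MP_5391ad_co.TJump
section
-- merged part: Pool.Agent.Work.MP_5391ad_co.CJump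
section
/-! One big block. `z = (L-1)⁻¹`, `p r = coeff r (PQ B 1)`, `α m = coeff m (pRate (B+1) 0)`,
`V = VQ L⁻¹ B 1 = ∑ p r z^r`.
`tilt`: `exists_xc`, `xc_inv`, mean value theorem for `L (log L - 1)` and `hL`; `N/(L log^2 L) → 1`.
`conc`: Markov with the tilts `c = 1/2` and `c = -1/2` (`ev_PQ` at `L'`, `vq_theta` at `L, L'`).
`big_jump`: `coeff N (A * P) z^N = ∑_{r ≤ N} p r z^r α (N-r) z^(N-r)`. For `|r - N/2| ≤ ε N` use
`tree_llt` for `pLam (B+1)` and `tree_up` at the tilt `c = 1` for `pLam B`. For the other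
`r ≤ (1-ε) N` use `tree_up` and `conc`. For `r > (1-ε) N`: `flat_PQ` at the tilt `c = 3/4` gives
`p r z^r ≤ L^(-5/4) V`, and `∑_{m ≤ ε N} α m z^m ≤ L^(-1/2 + ε)` (`ev_pRate`, `rate_theta` at the tilt
`c = -1/4`, where `Gap L' (B+1)`). The last claim: `flat_PQ` with `q0 = 2` at the tilt `3/4`. -/

namespace Pool.Agent.Work.MP_5391ad_co

open Real Finset Filter PowerSeries

theorem tilt {c ζ : ℝ} (h0 : -1 ≤ c) (h1 : c ≤ 1) (hζ : 0 < ζ) : ∀ᶠ N : ℕ in atTop, ∀ L : ℝ,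
    |L - ell N| ≤ ell N ^ (3 / 5 : ℝ) → ∃ L' : ℝ, |L' - L| ≤ 1 ∧ xc L'⁻¹ = xc L⁻¹ - c ∧
      |N * log ((L - 1) / (L' - 1)) - c * log L| ≤ ζ * log L ∧
      |log (mainV L' (1 - c)) - log (mainV L 1) - c / 2 * log L| ≤ ζ * log L :=
  cjump_tilt h0 h1 hζ

theorem cjump_pos {L : ℝ} (h : 1 < L) (g : ℝ) : 0 < mainV L g := by
  rw [cjump_mainV h]
  exact exp_pos _

/-- the tilt in exponential form -/
theorem cjump_tl {c ζ : ℝ} (h0 : -1 ≤ c) (h1 : c ≤ 1) (hζ : 0 < ζ) : ∀ᶠ N : ℕ in atTop, ∀ L : ℝ,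
    |L - ell N| ≤ ell N ^ (3 / 5 : ℝ) → ∃ L' a : ℝ, |L' - L| ≤ 1 ∧ xc L'⁻¹ = xc L⁻¹ - c ∧
      1 < L' ∧ log L - 1 ≤ log L' ∧ log L' ≤ log L + 1 ∧
      (∀ r : ℕ, (L - 1)⁻¹ ^ r = (L' - 1)⁻¹ ^ r * exp (-(r * a))) ∧
      (c - ζ) * log L ≤ N * a ∧ N * a ≤ (c + ζ) * log L ∧
      mainV L' (1 - c) ≤ exp ((c / 2 + ζ) * log L) * mainV L 1 := by
  filter_upwards [tilt h0 h1 hζ, cjump_near one_pos 3] with N hN hE L hl
  obtain ⟨L', a1, a2, a3, a4⟩ := hN L hl
  have b1 := (hE L hl).1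
  obtain ⟨d1, d2⟩ := abs_le.1 a1
  have p1 : 0 < L - 1 := by linarith
  have p2 : 0 < L' - 1 := by linarith
  obtain ⟨q1, q2⟩ := abs_le.1 ((cjump_lip (show 1 ≤ L' by linarith only [b1, d1])
    (show 1 ≤ L by linarith only [b1])).trans a1)
  obtain ⟨c1, c2⟩ := abs_le.1 a3
  refine ⟨L', _, a1, a2, by linarith, by linarith, by linarith, fun r => ?_, by linarith,
    by linarith, ?_⟩
  · rw [← mul_neg, exp_nat_mul, exp_neg, exp_log (div_pos p1 p2), ← mul_pow]
    refine congrArg (· ^ r) ?_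
    field_simp
  · rw [← exp_log (cjump_pos (show 1 < L' by linarith only [b1, d1]) (1 - c)),
      ← exp_log (cjump_pos (show 1 < L by linarith only [b1]) 1), ← exp_add]
    exact exp_le_exp.2 (by linarith only [a4, (abs_le.1 a4).2])

theorem cjump_markov {z z' a E v : ℝ} {F : PowerSeries ℝ} (hz : 0 ≤ z') (h : Ev z' F v)
    (e : ∀ r : ℕ, z ^ r = z' ^ r * exp (-(r * a))) (s : Finset ℕ)
    (hs : ∀ r ∈ s, -(r * a) ≤ E) : ∑ r ∈ s, coeff r F * z ^ r ≤ exp E * v := by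
  refine le_trans ?_ (mul_le_mul_of_nonneg_left (h.sum_le hz s) (exp_pos E).le)
  rw [mul_sum]
  refine sum_le_sum fun r hr => ?_
  rw [e, ← mul_assoc, mul_comm (exp E)]
  exact mul_le_mul_of_nonneg_left (exp_le_exp.2 (hs r hr)) (mul_nonneg (h.1 r) (pow_nonneg hz r))

theorem cjump_small {k δ : ℝ} (hk : 0 < k) (hδ : 0 < δ) (C : ℝ) :
    ∀ᶠ L : ℝ in atTop, C * exp (-(k * log L)) ≤ δ := by
  have h : Tendsto (fun L : ℝ => C * exp (-(k * log L))) atTop (nhds (C * 0)) :=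
    (tendsto_exp_neg_atTop_nhds_zero.comp (tendsto_log_atTop.const_mul_atTop hk)).const_mul C
  rw [mul_zero] at h
  exact h.eventually_le_const hδ

theorem cjump_ineq {ε θ c w n a r : ℝ} (hε : 0 < ε) (t1 : θ ≤ 1 / 4) (hw : 0 < w) (hn : 0 < n)
    (hc : c = 1 / 2 ∨ c = -(1 / 2)) (a5 : (c - θ) * w ≤ n * a) (a6 : n * a ≤ (c + θ) * w)
    (h : ε * n ≤ 2 * c * (r - n / 2)) :
    -(r * a) ≤ -(c / 2 + ε / 2) * w + (1 / 2 + ε) * θ * w := by
  have k := mul_le_mul_of_nonneg_right t1 hw.le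
  have k5 := mul_le_mul_of_nonneg_left a5 hε.le
  have k6 := mul_le_mul_of_nonneg_left a6 hε.le
  rcases hc with rfl | rfl
  · have ha : 0 ≤ a := (pos_of_mul_pos_left (show 0 < a * n by linarith only [hw, k, a5]) hn.le).le
    have h1 := mul_le_mul_of_nonneg_right h ha
    clear * - r a ε w θ n a5 k5 h1
    linarith only [a5, k5, h1]
  · have ha : 0 ≤ -a := (pos_of_mul_pos_left (show 0 < -a * n by linarith only [hw, k, a6]) hn.le).le
    have h1 := mul_le_mul_of_nonneg_right h ha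
    clear * - r a ε w θ n a5 k6 h1
    linarith only [a5, k6, h1]

theorem cjump_half {ε ζ c : ℝ} (hε : 0 < ε) (hζ : 0 < ζ) (hc : c = 1 / 2 ∨ c = -(1 / 2)) :
    ∀ᶠ N : ℕ in atTop, ∀ (L : ℝ) (B : ℕ),
    |L - ell N| ≤ ell N ^ (3 / 5 : ℝ) → (B : ℝ) + 1 = xc L⁻¹ → ∀ s : Finset ℕ,
    (∀ r ∈ s, ε * N ≤ 2 * c * ((r : ℝ) - N / 2)) →
    ∑ r ∈ s, coeff r (PQ B 1) * (L - 1)⁻¹ ^ r ≤ ζ * VQ L⁻¹ B 1 := by
  obtain ⟨C, hC, hV⟩ := vq_theta
  obtain ⟨θ, t0, t1, t2⟩ : ∃ θ : ℝ, 0 < θ ∧ θ ≤ 1 / 4 ∧ θ * (3 / 2 + ε) ≤ ε / 4 := by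
    refine ⟨ε / (4 * (3 / 2 + ε)), by positivity, ?_, le_of_eq (by field_simp)⟩
    rw [div_le_iff₀ (by positivity)]
    linarith only []
  have hc' : -(1 / 2) ≤ c ∧ c ≤ 1 / 2 := by rcases hc with rfl | rfl <;> norm_num
  filter_upwards [cjump_tl (c := c) (by linarith only [t0, t1, hc', hc'.1]) (by linarith only [t0, t1, hc', hc'.2]) t0, cjump_ev hV,
    cjump_ev (cjump_small (show 0 < ε / 4 by positivity) hζ (C * C)), cjump_near one_pos 3,
    eventually_gt_atTop 0] with N hN hV hs hE hN0 L B hl hB s hr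
  obtain ⟨L', a, a1, a2, a3, -, -, a4, a5, a6, a7⟩ := hN L hl
  have b1 := (hE L hl).1
  have hw : 0 < log L := log_pos (by linarith only [t0, t1, b1])
  have hN1 : (0 : ℝ) < N := Nat.cast_pos.2 hN0
  have v1 := (hV L hl L (by simp) B ⟨by linarith only [t0, t1, hB], by linarith only [t0, t1, hB]⟩).1
  have v2 := (hV L hl L' a1 B ⟨by linarith only [t0, t1, hc', hB, a2, hc'.2], by linarith only [t0, t1, hc', hB, a2, hc'.1]⟩).2.1
  rw [show xc L⁻¹ - B = 1 by clear * - L B hB v1; linarith only [hB]] at v1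
  rw [show xc L'⁻¹ - B = 1 - c by clear * - L' B c L hB a2 v2; linarith only [hB, a2]] at v2
  have v3 := hs L hl L (by simp)
  have m := cjump_markov (E := -(c / 2 + ε / 2) * log L + (1 / 2 + ε) * θ * log L)
    (inv_nonneg.2 (by linarith only [a3])) (ev_PQ (B := B) a3 (by linarith only [t0, t1, hc', hB, a2, hc'.2]) 1) a4 s fun r h =>
      cjump_ineq hε t1 hw hN1 hc a5 a6 (hr r h)
  have m0 := cjump_pos (show 1 < L by clear * - L θ t0 t1 b1; linarith only [t0, t1, b1]) 1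
  have hC0 : 0 < C := by clear * - C θ hC t0 t1; linarith only [hC, t0, t1]
  have v4 : mainV L 1 ≤ C * VQ L⁻¹ B 1 := by
    rwa [inv_mul_le_iff₀ hC0] at v1
  have v5 : 0 ≤ VQ L⁻¹ B 1 := le_trans (by positivity) v1
  calc _ ≤ _ := m
    _ ≤ exp (-(c / 2 + ε / 2) * log L + (1 / 2 + ε) * θ * log L) *
        (C * (exp ((c / 2 + θ) * log L) * (C * VQ L⁻¹ B 1))) := by
        clear * - c ε L θ L' B C v2 a7 v4 hC
        gcongr
        refine v2.trans ?_
        gcongr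
        exact a7.trans (by gcongr)
    _ = C * C * exp (-(ε / 2) * log L + θ * (3 / 2 + ε) * log L) * VQ L⁻¹ B 1 := by
        rw [show -(ε / 2) * log L + θ * (3 / 2 + ε) * log L = (-(c / 2 + ε / 2) * log L +
          (1 / 2 + ε) * θ * log L) + (c / 2 + θ) * log L by ring, exp_add (_ + _)]
        ring
    _ ≤ C * C * exp (-(ε / 4 * log L)) * VQ L⁻¹ B 1 := by
        clear * - L B C ε θ t2 hw hC v5
        gcongr
        linarith only [t2, hw, mul_le_mul_of_nonneg_right t2 hw.le]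
    _ ≤ _ := mul_le_mul_of_nonneg_right v3 v5

theorem conc {ε ζ : ℝ} (hε : 0 < ε) (hζ : 0 < ζ) : ∀ᶠ N : ℕ in atTop, ∀ (L : ℝ) (B : ℕ),
    |L - ell N| ≤ ell N ^ (3 / 5 : ℝ) → (B : ℝ) + 1 = xc L⁻¹ → ∀ s : Finset ℕ,
    (∀ r ∈ s, ε * N ≤ |(r : ℝ) - N / 2|) →
    ∑ r ∈ s, coeff r (PQ B 1) * (L - 1)⁻¹ ^ r ≤ ζ * VQ L⁻¹ B 1 := by
  filter_upwards [cjump_half hε (half_pos hζ) (Or.inl rfl),
    cjump_half hε (half_pos hζ) (Or.inr rfl)] with N h1 h2 L B hl hB s hs
  have a1 := h1 L B hl hB (s.filter fun r => N ≤ 2 * r) fun r hr => by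
    clear * - s r N ε hr hs
    obtain ⟨r1, r2⟩ := mem_filter.1 hr
    have r3 : (N : ℝ) ≤ 2 * r := by exact_mod_cast r2
    have := hs r r1
    rw [abs_of_nonneg (by linarith only [r3])] at this
    linarith only [this]
  have a2 := h2 L B hl hB (s.filter fun r => ¬ N ≤ 2 * r) fun r hr => by
    clear * - s r N ε hr hs
    obtain ⟨r1, r2⟩ := mem_filter.1 hr
    have r3 : 2 * (r : ℝ) ≤ N := by exact_mod_cast (not_le.1 r2).le
    have := hs r r1
    rw [abs_of_nonpos (by linarith only [r3])] at this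
    linarith only [this]
  rw [← sum_filter_add_sum_filter_not s fun r => N ≤ 2 * r]
  linarith only [a1, a2]

theorem cjump_A {ε δ : ℝ} (hε : 0 < ε) (hδ : 0 < δ) (hδ1 : δ ≤ 1) : ∀ᶠ N : ℕ in atTop,
    ∀ (L : ℝ) (B : ℕ), |L - ell N| ≤ ell N ^ (3 / 5 : ℝ) → (B : ℝ) + 1 = xc L⁻¹ → ∀ m : ℕ,
    ε * N ≤ m → coeff m (pRate (B + 1) 0) * (L - 1)⁻¹ ^ m ≤
        2 * (√(log L / (2 * π)) * (m : ℝ) ^ (-(3 / 2) : ℝ)) ∧
      ((N : ℝ) / 4 ≤ m → |coeff m (pRate (B + 1) 0) * (L - 1)⁻¹ ^ m -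
        √(log L / (2 * π)) * (m : ℝ) ^ (-(3 / 2) : ℝ)| ≤
        2 * δ * (√(log L / (2 * π)) * (m : ℝ) ^ (-(3 / 2) : ℝ))) := by
  filter_upwards [cjump_tl (c := 1) (by norm_num) le_rfl one_half_pos, cjump_ev (tree_llt hδ),
    cjump_ev tree_up, cjump_ev (cjump_small (show (0 : ℝ) < 1 / 8 by norm_num) hδ 4),
    cjump_near one_half_pos 3, cjump_ev (tendsto_log_atTop.eventually_ge_atTop (4 / ε + 1))]
    with N hN h1 h2 h3 h4 h5 L B hl hB m hm
  obtain ⟨L', a, a1, a2, a3, -, a4, a5, a6, -, -⟩ := hN L hl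
  obtain ⟨b1, b2⟩ := h4 L hl
  have b3 := h5 L hl L (by simp)
  have b4 := h3 L hl L (by simp)
  have b5 : 0 < 4 / ε := by positivity
  have hw : 1 ≤ log L := by linarith only [b3, b5]
  have b6 : 4 ≤ ε * log L ^ 2 := by
    clear * - ε hε L b3 b5
    have : ε * (4 / ε) = 4 := by field_simp
    (refine le_of_not_gt fun h_nl => ?_; linarith only [h_nl, b3, b5, this, Mathlib.Tactic.Linarith.mul_zero_eq (Mathlib.Tactic.Linarith.sub_nonpos_of_le (sq_nonneg (Real.log L))) (sub_eq_zero_of_eq this), mul_nonneg_of_nonpos_of_nonpos (Mathlib.Tactic.Linarith.sub_nonpos_of_le b3) (Mathlib.Tactic.Linarith.sub_nonpos_of_le b3), mul_nonneg_of_nonpos_of_nonpos (Mathlib.Tactic.Linarith.sub_nonpos_of_le b3) (le_of_lt (Mathlib.Tactic.Linarith.sub_neg_of_lt b5)), mul_pos_of_neg_of_neg (Mathlib.Tactic.Linarith.sub_neg_of_lt b5) (Mathlib.Tactic.Linarith.sub_neg_of_lt b5), mul_pos_of_neg_of_neg (Mathlib.Tactic.Linarith.sub_neg_of_lt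 b5) (Mathlib.Tactic.Linarith.sub_neg_of_lt h_nl)])
  have b7 : 2 * L ≤ m := by
    clear * - ε L N b2 hε b6 b1 m hm
    have u1 := mul_le_mul_of_nonneg_left (abs_le.1 b2).1 hε.le
    have u2 := mul_le_mul_of_nonneg_left b6 (show 0 ≤ L by linarith only [b1])
    linarith only [hm, u1, u2]
  have sq : ∀ x : ℝ, 1 ≤ x → √x ≤ x := fun x hx => sqrt_le_iff.2 ⟨by linarith only [hx], by clear * - x hx; nlinarith⟩
  have hm0 : (0 : ℝ) < m := by linarith only [b1, b7]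
  have c1 := h1 L hl L (by simp) m ((sq L (by linarith only [b1])).trans (by linarith only [b1, b7]))
  have c2 := h2 L hl L' a1 B m (by linarith only [B.cast_nonneg (α := ℝ)]) (by linarith only [hB, a2])
    ((sq L' a3.le).trans (by linarith only [b1, b7, a1, (abs_le.1 a1).2]))
  have c3 := (pLam_mono (x := B) (by linarith only [B.cast_nonneg (α := ℝ)]) le_rfl m).1
  have e : coeff m (pRate (B + 1) 0) = coeff m (pLam (xc L⁻¹)) - coeff m (pLam B) := by
    rw [pRate, map_sub, Nat.sub_zero, Nat.cast_add, Nat.cast_one, add_sub_cancel_right, hB]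
  have s0 : 0 < √(log L / (2 * π)) := sqrt_pos.2 (by positivity)
  have s1 : √(log L') ≤ 4 * √(log L / (2 * π)) := by
    clear * - L' L hw ε b3 b5 a4 a3
    rw [sqrt_le_left (by positivity), mul_pow, sq_sqrt (by positivity), ← mul_div_assoc,
      le_div_iff₀ (by positivity)]
    linarith only [b3, b5, a4, pi_le_four, pi_pos, log_pos a3, mul_nonneg_of_nonpos_of_nonpos (Mathlib.Tactic.Linarith.sub_nonpos_of_le a4) (le_of_lt (Mathlib.Tactic.Linarith.sub_neg_of_lt pi_pos)), mul_nonneg_of_nonpos_of_nonpos (Mathlib.Tactic.Linarith.sub_nonpos_of_le b3) (Mathlib.Tactic.Linarith.sub_nonpos_of_le pi_le_four), mul_nonneg_of_nonpos_of_nonpos (le_of_lt (Mathlib.Tactic.Linarith.sub_neg_of_lt b5)) (Mathlib.Tactic.Linarith.sub_nonpos_of_le pi_le_four)]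
  have p0 : 0 < (m : ℝ) ^ (-(3 / 2) : ℝ) := rpow_pos_of_pos hm0 _
  have p1 : (m : ℝ) ^ (3 / 2 : ℝ) = ((m : ℝ) ^ (-(3 / 2) : ℝ))⁻¹ := by
    rw [rpow_neg hm0.le, inv_inv]
  have z0 : 0 ≤ (L - 1)⁻¹ ^ m := pow_nonneg (inv_nonneg.2 (by clear * - L b1 m; linarith)) m
  rw [p1] at c1
  rw [e, sub_mul]
  have d0 := mul_nonneg c3 z0
  have d1 : (N : ℝ) / 4 ≤ m → coeff m (pLam B) * (L - 1)⁻¹ ^ m ≤
      δ * (√(log L / (2 * π)) * (m : ℝ) ^ (-(3 / 2) : ℝ)) := fun hq => by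
    clear * - a L N ε a6 b3 b5 m hq B δ L' a5 c2 s1 p0 hw hm0 b4
    have ha : 0 ≤ a := by
      by_contra h'
      linarith only [a6, b3, b5, h', mul_nonneg (N.cast_nonneg (α := ℝ)) (neg_pos.2 (not_le.1 h')).le]
    have u1 : exp (-(m * a)) ≤ exp (-(1 / 8 * log L)) :=
      exp_le_exp.2 (by linarith only [a6, hq, ha, mul_le_mul_of_nonneg_right hq ha])
    rw [a5, ← mul_assoc]
    calc _ ≤ 4 * √(log L / (2 * π)) * (m : ℝ) ^ (-(3 / 2) : ℝ) * exp (-(1 / 8 * log L)) :=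
          mul_le_mul (c2.trans (mul_le_mul_of_nonneg_right s1 p0.le)) u1 (exp_pos _).le
            (by positivity)
      _ = 4 * exp (-(1 / 8 * log L)) * (√(log L / (2 * π)) * (m : ℝ) ^ (-(3 / 2) : ℝ)) := by ring
      _ ≤ _ := mul_le_mul_of_nonneg_right b4 (by positivity)
  generalize coeff m (pLam B) * (L - 1)⁻¹ ^ m = y at *
  generalize coeff m (pLam (xc L⁻¹)) * (L - 1)⁻¹ ^ m = x at *
  generalize √(log L / (2 * π)) = σ at *
  generalize (m : ℝ) ^ (-(3 / 2) : ℝ) = u at *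
  have g0 : 0 < σ * u := mul_pos s0 p0
  have g1 : |x - σ * u| ≤ δ * (σ * u) := by
    clear * - x σ u δ g0 s0 p0 c1
    rw [show x * u⁻¹ / σ - 1 = (x - σ * u) / (σ * u) by field_simp, abs_div, abs_of_pos g0,
      div_le_iff₀ g0] at c1
    exact c1
  obtain ⟨g2, g3⟩ := abs_le.1 g1
  have g4 := mul_le_mul_of_nonneg_right hδ1 g0.le
  exact ⟨by clear * - x y σ u δ d0 g3 g4 d1; linarith, fun hq => abs_le.2 ⟨by clear * - δ σ u x y g2 d1 hq; linarith only [g2, d1, hq, d1 hq], by clear * - x y σ u δ d0 g2 g3 d1 hq; linarith only [d0, g2, g3, d1 hq]⟩⟩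

theorem cjump_sqrt {L L' : ℝ} (h : 0 < L') (h1 : log L - 1 ≤ log L') :
    (√L')⁻¹ ≤ exp (1 / 2 - log L / 2) := by
  rw [sqrt_eq_rpow, rpow_def_of_pos h, ← exp_neg]
  exact exp_le_exp.2 (by linarith only [h1])

theorem cjump_P : ∀ᶠ N : ℕ in atTop, ∀ (L : ℝ) (B : ℕ), |L - ell N| ≤ ell N ^ (3 / 5 : ℝ) →
    (B : ℝ) + 1 = xc L⁻¹ → ∀ q0 r : ℕ, 1 ≤ q0 → q0 ≤ 2 → 99 / 100 * (N : ℝ) ≤ r →
    coeff r (PQ B q0) * (L - 1)⁻¹ ^ r ≤
      exp (1 - 31 / 25 * log L) * exp (1 / 2 - log L / 2) ^ (q0 - 1) * mainV L 1 := by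
  filter_upwards [cjump_tl (c := 3 / 4) (ζ := 1 / 100) (by norm_num) (by norm_num) (by norm_num),
    cjump_ev flat_PQ, cjump_near one_pos 3] with N hN h1 h2 L B hl hB q0 r hq hq' hr
  obtain ⟨L', a, a1, a2, a3, a4, -, a5, a6, -, a7⟩ := hN L hl
  have b1 := (h2 L hl).1
  have hw : 0 < log L := log_pos (by linarith only [b1])
  have c1 := h1 L hl L' a1 B q0 r ⟨by linarith only [hB, a2], by linarith only [hB, a2]⟩ hq hq'
  rw [show xc L'⁻¹ - B = 1 - 3 / 4 by clear * - L' B L hB a2 c1; linarith only [hB, a2], rpow_def_of_pos (by linarith only [a3])] at c1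
  have ha : 0 ≤ a := by
    clear * - a L N a6 hw
    by_contra h'
    linarith only [a6, hw, h', mul_nonneg (N.cast_nonneg (α := ℝ)) (neg_pos.2 (not_le.1 h')).le]
  have u1 := mul_le_mul_of_nonneg_right hr ha
  have m0 := cjump_pos (show 1 < L by linarith only [b1]) 1
  have m1 := cjump_pos a3 (1 - 3 / 4)
  have s1 := cjump_sqrt (show 0 < L' by clear * - L' a3 a4; linarith) a4
  rw [a5, ← mul_assoc]
  calc _ ≤ exp (log L' * -(9 / 10)) * exp (1 / 2 - log L / 2) ^ (q0 - 1) *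
        (exp ((3 / 4 / 2 + 1 / 100) * log L) * mainV L 1) * exp (-(r * a)) := by
        clear * - r a B q0 L' L c1 a3 s1 a7 m1
        refine mul_le_mul_of_nonneg_right (c1.trans ?_) (exp_pos _).le
        gcongr
    _ = exp (log L' * -(9 / 10) + (3 / 4 / 2 + 1 / 100) * log L + -(r * a)) *
        exp (1 / 2 - log L / 2) ^ (q0 - 1) * mainV L 1 := by
        rw [exp_add, exp_add]
        ring
    _ ≤ _ := by
        clear * - L L' r a q0 N a4 a6 hw u1 m0
        gcongr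
        linarith only [a4, a6, hw, u1]

theorem cjump_S : ∃ C : ℝ, 0 < C ∧ ∀ᶠ N : ℕ in atTop, ∀ (L : ℝ) (B : ℕ),
    |L - ell N| ≤ ell N ^ (3 / 5 : ℝ) → (B : ℝ) + 1 = xc L⁻¹ →
    (∀ m, 0 ≤ coeff m (pRate (B + 1) 0)) ∧ ∀ s : Finset ℕ, (∀ m ∈ s, (m : ℝ) ≤ 1 / 100 * N) →
    ∑ m ∈ s, coeff m (pRate (B + 1) 0) * (L - 1)⁻¹ ^ m ≤ C * exp (1 / 2 - 49 / 100 * log L) := by
  obtain ⟨C, hC, hR⟩ := rate_theta
  refine ⟨C, by linarith, ?_⟩
  filter_upwards [cjump_tl (c := -(1 / 4)) (ζ := 1 / 8) (by norm_num) (by norm_num) (by norm_num),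
    cjump_ev hR, cjump_near one_pos 3] with N hN h1 h2 L B hl hB
  obtain ⟨L', a, a1, a2, a3, a4, -, a5, a6, a7, -⟩ := hN L hl
  have b1 := (h2 L hl).1
  have hw : 0 < log L := log_pos (by linarith only [b1])
  have hB' : ((B + 1 : ℕ) : ℝ) = B + 1 := by push_cast; rfl
  have c1 := (h1 L hl L' a1 (B + 1) 0 ⟨by linarith only [hB, a2, hB'], by linarith only [hB, a2, hB']⟩ (by
    rw [Nat.cast_zero]; linarith only [a3])).2.1
  rw [Nat.cast_zero, zero_add, sqrt_one, mul_one] at c1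
  have ev := ev_pRate (b := B + 1) a3 B.succ_pos (by linarith only [hB, a2, hB'])
  have ha : 0 ≤ -a := by
    clear * - a N L a7 hw
    by_contra h'
    linarith only [a7, hw, h', mul_nonneg (N.cast_nonneg (α := ℝ)) (neg_pos.2 (not_le.1 h')).le]
  refine ⟨ev.1, fun s hs => ?_⟩
  have m := cjump_markov (E := 1 / 100 * log L) (inv_nonneg.2 (by linarith only [a3])) ev a5 s
    fun r h => by clear * - r a L N a6 hw hs h ha; linarith only [a6, hw, hs, h, ha, mul_le_mul_of_nonneg_right (hs r h) ha]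
  have s0 : 0 < √L' := sqrt_pos.2 (by linarith only [a3])
  have c2 : rate L'⁻¹ 0 (B + 1) 0 ≤ (√L')⁻¹ * C := by
    rw [le_inv_mul_iff₀ s0]
    exact c1
  have s1 := cjump_sqrt (show 0 < L' by linarith only [a3]) a4
  calc _ ≤ _ := m
    _ ≤ exp (1 / 100 * log L) * (exp (1 / 2 - log L / 2) * C) := by
        gcongr
        exact c2.trans (by gcongr)
    _ = _ := by
        rw [← mul_assoc, ← exp_add, mul_comm]
        exact congrArg (fun x => C * exp x) (by ring)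

theorem cjump_G : ∀ᶠ N : ℕ in atTop, ∀ L : ℝ, |L - ell N| ≤ ell N ^ (3 / 5 : ℝ) →
    exp (-(8 / 5 * log L)) ≤ √(log L / (2 * π)) * ((N : ℝ) / 2) ^ (-(3 / 2) : ℝ) := by
  have e1 : ∀ᶠ w : ℝ in atTop, log w ≤ 1 / 30 * w := by
    filter_upwards [isLittleO_log_id_atTop.bound (show (0 : ℝ) < 1 / 30 by norm_num),
      eventually_ge_atTop 0] with w h h0
    rw [id, norm_of_nonneg h0] at h
    exact (le_abs_self _).trans h
  filter_upwards [cjump_near one_half_pos 3, cjump_ev (tendsto_log_atTop.eventually e1),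
    cjump_ev (tendsto_log_atTop.eventually_ge_atTop 8)] with N h1 h2 h3 L hl
  obtain ⟨b1, b2⟩ := h1 L hl
  have b3 := h2 L hl L (by simp)
  have b4 := h3 L hl L (by simp)
  obtain ⟨b5, b6⟩ := abs_le.1 b2
  have hL0 : 0 < L := by linarith only [b1]
  have hw : 0 < log L := by linarith only [b4]
  have p : 0 < L * log L ^ 2 := by positivity
  have s1 : 1 ≤ √(log L / (2 * π)) := by
    rw [one_le_sqrt, one_le_div (by positivity)]
    linarith only [b4, pi_le_four]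
  have s2 : (L * log L ^ 2) ^ (-(3 / 2) : ℝ) ≤ ((N : ℝ) / 2) ^ (-(3 / 2) : ℝ) :=
    rpow_le_rpow_of_nonpos (by linarith only [b5, p]) (by linarith only [b6, p]) (by norm_num)
  rw [rpow_def_of_pos p, log_mul hL0.ne' (by positivity), log_pow] at s2
  refine le_trans (le_trans (exp_le_exp.2 ?_) s2) (le_mul_of_one_le_left (by positivity) s1)
  push_cast
  clear * - L b3
  linarith only [b3]

theorem cjump_sum {P A : ℕ → ℝ} {V G δ δ' K M M' : ℝ} {N : ℕ} (p q : ℕ → Prop) [DecidablePred p]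
    [DecidablePred q] (hP : ∀ r, 0 ≤ P r) (hA : ∀ m, 0 ≤ A m) (hV : HasSum P V) (hG : 0 ≤ G)
    (hδ : 0 ≤ δ) (hK : 0 ≤ K) (hM : 0 ≤ M)
    (h1 : ∀ r, p r → r ≤ N ∧ |A (N - r) - G| ≤ δ * G)
    (h2 : ∀ s : Finset ℕ, (∀ r ∈ s, ¬ p r) → ∑ r ∈ s, P r ≤ δ' * V)
    (h3 : ∀ r ≤ N, q (N - r) → A (N - r) ≤ K * G) (h4 : ∀ r ≤ N, ¬ q (N - r) → P r ≤ M)
    (h5 : ∀ s : Finset ℕ, (∀ m ∈ s, ¬ q m) → ∑ m ∈ s, A m ≤ M') :
    |∑ r ∈ range (N + 1), P r * A (N - r) - V * G| ≤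
      (δ + δ' + K * δ') * (V * G) + M * M' := by
  have le : ∀ {t : ℕ → Prop} [DecidablePred t] {r : ℕ}, r ∈ (range (N + 1)).filter t → r ≤ N :=
    fun h => Nat.lt_succ_iff.1 (mem_range.1 (mem_filter.1 h).1)
  have a1 : ∑ r ∈ (range (N + 1)).filter p, P r ≤ V := sum_le_hasSum _ (fun r _ => hP r) hV
  have a2 : V ≤ ∑ r ∈ (range (N + 1)).filter p, P r + δ' * V := by
    refine hasSum_le_of_sum_le hV fun s => ?_
    rw [← sum_filter_add_sum_filter_not s p]
    refine add_le_add (sum_le_sum_of_subset_of_nonneg (fun r hr => ?_) fun r _ _ => hP r)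
      (h2 _ fun r hr => (mem_filter.1 hr).2)
    have := (mem_filter.1 hr).2
    exact mem_filter.2 ⟨mem_range.2 (Nat.lt_succ_iff.2 (h1 r this).1), this⟩
  have a0 : 0 ≤ δ' * V := by simpa using h2 ∅ (by simp)
  have b1 : |∑ r ∈ (range (N + 1)).filter p, P r * A (N - r) -
      (∑ r ∈ (range (N + 1)).filter p, P r) * G| ≤
      (∑ r ∈ (range (N + 1)).filter p, P r) * (δ * G) := by
    rw [sum_mul, sum_mul, ← sum_sub_distrib]
    refine (abs_sum_le_sum_abs _ _).trans (sum_le_sum fun r hr => ?_)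
    rw [← mul_sub, abs_mul, abs_of_nonneg (hP r)]
    exact mul_le_mul_of_nonneg_left (h1 r (mem_filter.1 hr).2).2 (hP r)
  have b2 : ∑ r ∈ ((range (N + 1)).filter fun r => ¬ p r).filter (fun r => q (N - r)),
      P r * A (N - r) ≤ δ' * V * (K * G) := by
    refine le_trans (sum_le_sum fun r hr => mul_le_mul_of_nonneg_left
      (h3 r (le (mem_filter.1 hr).1) (mem_filter.1 hr).2) (hP r)) ?_
    rw [← sum_mul]
    exact mul_le_mul_of_nonneg_right (h2 _ fun r hr => (mem_filter.1 (mem_filter.1 hr).1).2)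
      (mul_nonneg hK hG)
  have b3 : ∑ r ∈ ((range (N + 1)).filter fun r => ¬ p r).filter (fun r => ¬ q (N - r)),
      P r * A (N - r) ≤ M * M' := by
    refine le_trans (sum_le_sum fun r hr => mul_le_mul_of_nonneg_right
      (h4 r (le (mem_filter.1 hr).1) (mem_filter.1 hr).2) (hA _)) ?_
    rw [← mul_sum, ← sum_image (g := fun r => N - r) (f := A) fun x hx y hy h => by
      have := le (mem_filter.1 hx).1
      have := le (mem_filter.1 hy).1
      simp only at h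
      omega]
    refine mul_le_mul_of_nonneg_left (h5 _ fun m hm => ?_) hM
    obtain ⟨r, hr, rfl⟩ := mem_image.1 hm
    exact (mem_filter.1 hr).2
  have nn : ∀ s : Finset ℕ, 0 ≤ ∑ r ∈ s, P r * A (N - r) :=
    fun s => sum_nonneg fun r _ => mul_nonneg (hP r) (hA _)
  have n2 := nn (((range (N + 1)).filter fun r => ¬ p r).filter fun r => q (N - r))
  have n3 := nn (((range (N + 1)).filter fun r => ¬ p r).filter fun r => ¬ q (N - r))
  rw [← sum_filter_add_sum_filter_not (range (N + 1)) p,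
    ← sum_filter_add_sum_filter_not ((range (N + 1)).filter fun r => ¬ p r) fun r => q (N - r)]
  obtain ⟨b4, b5⟩ := abs_le.1 b1
  have c1 := mul_le_mul_of_nonneg_right a1 hG
  have c2 := mul_le_mul_of_nonneg_right a2 hG
  have c3 := mul_le_mul_of_nonneg_right a1 (mul_nonneg hδ hG)
  have c4 := mul_nonneg a0 hG
  exact abs_le.2 ⟨by linarith only [b2, b3, n2, n3, b4, c2, c3], by linarith only [b2, b3, b5, c1, c2, c3]⟩

theorem cjump_eps {δ : ℝ} (hδ : 0 < δ) : ∃ ε : ℝ, 0 < ε ∧ ε ≤ 1 / 100 ∧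
    ∀ x : ℝ, |x - 1| < 2 * ε → |x ^ (-(3 / 2) : ℝ) - 1| ≤ δ := by
  have h : ContinuousAt (fun x : ℝ => x ^ (-(3 / 2) : ℝ)) 1 :=
    continuousAt_rpow_const 1 _ (Or.inl one_ne_zero)
  obtain ⟨e, he, h⟩ := Metric.continuousAt_iff.1 h δ hδ
  refine ⟨min (e / 2) (1 / 100), by positivity, min_le_right _ _, fun x hx => ?_⟩
  have := h (x := x) (by rw [Real.dist_eq]; linarith only [hx, min_le_left (e / 2) (1 / 100)])
  rw [Real.dist_eq, one_rpow] at this
  exact this.le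

theorem big_jump {ζ : ℝ} (hζ : 0 < ζ) : ∀ᶠ N : ℕ in atTop, ∀ (L : ℝ) (B : ℕ),
    |L - ell N| ≤ ell N ^ (3 / 5 : ℝ) → (B : ℝ) + 1 = xc L⁻¹ →
    |coeff N (PV (B + 2)) / ((L - 1) ^ N * VQ L⁻¹ B 1 * √(log L / (2 * π)) *
      ((N : ℝ) / 2) ^ (-(3 / 2) : ℝ)) - 1| ≤ ζ := by
  obtain ⟨δ, hδ, hδ1, hδ2⟩ : ∃ δ : ℝ, 0 < δ ∧ δ ≤ 1 ∧ 8 * δ ≤ ζ :=
    ⟨min 1 (ζ / 8), by positivity, min_le_left _ _, by linarith only [min_le_right 1 (ζ / 8)]⟩
  obtain ⟨ε, hε, hε1, hx⟩ := cjump_eps hδ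
  obtain ⟨C, hC, hV⟩ := vq_theta
  obtain ⟨D, hD, hS⟩ := cjump_S
  have hK : 0 < 2 * (2 * ε) ^ (-(3 / 2) : ℝ) := by positivity
  have hδ' : 0 < δ / (1 + 2 * (2 * ε) ^ (-(3 / 2) : ℝ)) := by positivity
  filter_upwards [cjump_A hε hδ hδ1, cjump_P, hS, cjump_G, conc hε hδ', cjump_ev hV,
    cjump_ev (cjump_small (show (0 : ℝ) < 1 / 10 by norm_num) hδ (exp (3 / 2) * C * (D + 1))),
    cjump_near one_pos 3, eventually_gt_atTop 0] with N h1 h2 h3 h4 h5 h6 h7 h8 hN0 L B hl hB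
  have b1 := (h8 L hl).1
  have hw : 0 < log L := log_pos (by linarith only [hε, hε1, b1])
  have hN : (0 : ℝ) < N := Nat.cast_pos.2 hN0
  have v1 := (h6 L hl L (by simp) B ⟨by linarith only [hε, hε1, hB], by linarith only [hε, hε1, hB]⟩).1
  rw [show xc L⁻¹ - B = 1 by clear * - L B hB v1; linarith only [hB], inv_mul_le_iff₀ (by linarith only [hε, hε1, hC])] at v1
  have m0 := cjump_pos (show 1 < L by linarith only [hε, hε1, b1]) 1
  have v0 : 0 < VQ L⁻¹ B 1 := pos_of_mul_pos_right (m0.trans_le v1) (by linarith only [hε, hε1, hC])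
  have z0 : 0 < (L - 1)⁻¹ := inv_pos.2 (by linarith only [hε, hε1, b1])
  have ev := fun q0 => ev_PQ (L := L) (B := B) (by linarith only [hε, hε1, b1]) (by linarith only [hε, hε1, hB]) q0
  obtain ⟨s1, s2⟩ := h3 L B hl hB
  have g1 := h4 L hl
  have k1 := h7 L hl L (by simp)
  have s0 : 0 < √(log L / (2 * π)) := sqrt_pos.2 (by positivity)
  have n0 : 0 < ((N : ℝ) / 2) ^ (-(3 / 2) : ℝ) := by positivity
  have pw : ∀ m : ℝ, 0 ≤ m → m ^ (-(3 / 2) : ℝ) =
      ((N : ℝ) / 2) ^ (-(3 / 2) : ℝ) * (m / (N / 2)) ^ (-(3 / 2) : ℝ) := fun m hm => by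
    rw [← mul_rpow (by positivity) (by positivity), mul_div_cancel₀ _ (by positivity)]
  have key := cjump_sum (P := fun r => coeff r (PQ B 1) * (L - 1)⁻¹ ^ r)
    (A := fun m => coeff m (pRate (B + 1) 0) * (L - 1)⁻¹ ^ m) (N := N) (δ := 5 * δ)
    (G := √(log L / (2 * π)) * ((N : ℝ) / 2) ^ (-(3 / 2) : ℝ))
    (M := exp (1 - 31 / 25 * log L) * mainV L 1)
    (fun r => |(r : ℝ) - N / 2| < ε * N) (fun m => ε * N ≤ m)
    (fun r => mul_nonneg ((ev 1).1 r) (by positivity)) (fun m => mul_nonneg (s1 m) (by positivity))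
    (ev 1).2 (by positivity) (by positivity) hK.le (by positivity)
    (fun r hr => by
      clear * - ε N r B L δ hr hε1 hN h1 hl hB hx hN0 s0 n0 pw hδ1 hδ
      obtain ⟨r1, r2⟩ := abs_lt.1 hr
      have e1 := mul_le_mul_of_nonneg_right hε1 hN.le
      have r3 : r ≤ N := Nat.cast_le (α := ℝ).1 (by linarith only [r1, r2, e1])
      have r4 : ((N - r : ℕ) : ℝ) = N - r := Nat.cast_sub r3
      have c1 := (h1 L B hl hB (N - r) (by linarith only [r1, r2, e1, r4])).2 (by linarith only [r1, r2, e1, r4])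
      have c2 := hx (((N - r : ℕ) : ℝ) / (N / 2)) (by
        rw [div_sub_one (by positivity), abs_div, abs_of_pos (half_pos hN),
          div_lt_iff₀ (half_pos hN)]
        exact abs_lt.2 ⟨by linarith only [r2, r4], by linarith only [r1, r4]⟩)
      refine ⟨r3, ?_⟩
      rw [pw _ (Nat.cast_nonneg _), ← mul_assoc √(log L / (2 * π))] at c1
      have g0 := mul_pos s0 n0
      generalize √(log L / (2 * π)) * ((N : ℝ) / 2) ^ (-(3 / 2) : ℝ) = G at *
      generalize (((N - r : ℕ) : ℝ) / (N / 2)) ^ (-(3 / 2) : ℝ) = u at *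
      obtain ⟨c3, c4⟩ := abs_le.1 c1
      obtain ⟨c5, c6⟩ := abs_le.1 c2
      have d1 := mul_le_mul_of_nonneg_left c5 g0.le
      have d2 := mul_le_mul_of_nonneg_left c6 g0.le
      have d3 := mul_le_mul_of_nonneg_left (show u ≤ 2 by linarith only [hδ1, c6]) (mul_pos hδ g0).le
      exact abs_le.2 ⟨by linarith only [c3, d1, d3], by linarith only [c4, d2, d3]⟩)
    (fun s hs => h5 L B hl hB s fun r hr => not_lt.1 (hs r hr))
    (fun r _ hr => by
      clear * - N r B L ε δ h1 hl hB hr hε hN pw s0 n0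
      refine (h1 L B hl hB (N - r) hr).1.trans ?_
      have c2 : (((N - r : ℕ) : ℝ) / (N / 2)) ^ (-(3 / 2) : ℝ) ≤ (2 * ε) ^ (-(3 / 2) : ℝ) :=
        rpow_le_rpow_of_nonpos (by positivity) (by
          rw [le_div_iff₀ (half_pos hN)]
          linarith only [hr]) (by norm_num)
      rw [pw _ (Nat.cast_nonneg _)]
      linarith only [c2, s0, n0, mul_le_mul_of_nonneg_left c2 (mul_pos s0 n0).le])
    (fun r r3 hr => by
      clear * - N r r3 B L h2 hl hB ε hr hε1 hN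
      have r4 : ((N - r : ℕ) : ℝ) = N - r := Nat.cast_sub r3
      have c1 := h2 L B hl hB 1 r le_rfl one_le_two (by
        linarith only [hr, r4, hε1, hN, not_le.1 hr, mul_le_mul_of_nonneg_right hε1 hN.le])
      rwa [Nat.sub_self, pow_zero, mul_one] at c1)
    (fun s hs => s2 s fun m hm => by
      clear * - m N ε hs hm hε1 hN
      linarith only [hs, hm, hε1, hN, not_le.1 (hs m hm), mul_le_mul_of_nonneg_right hε1 hN.le])
  have q1 := h2 L B hl hB 2 N one_le_two le_rfl (by clear * - N hN B L h2 hB hl; linarith only [hN])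
  have q0 := mul_nonneg ((ev 2).1 N) (pow_pos z0 N).le
  have e : coeff N (PV (B + 2)) * (L - 1)⁻¹ ^ N = ∑ r ∈ range (N + 1),
      coeff r (PQ B 1) * (L - 1)⁻¹ ^ r * (coeff (N - r) (pRate (B + 1) 0) * (L - 1)⁻¹ ^ (N - r)) +
      coeff N (PQ B 2) * (L - 1)⁻¹ ^ N := by
    rw [PV_split, map_add, add_mul, mul_comm (pRate _ _), coeff_mul,
      Nat.sum_antidiagonal_eq_sum_range_succ_mk, sum_mul]
    refine congrArg (· + _) (sum_congr rfl fun r hr => ?_)
    rw [← pow_sub_mul_pow (L - 1)⁻¹ (Nat.lt_succ_iff.1 (mem_range.1 hr))]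
    ring
  have t1 : exp (1 - 31 / 25 * log L) * exp (1 / 2 - 49 / 100 * log L) ≤
      exp (3 / 2) * exp (-(1 / 10 * log L)) * exp (-(8 / 5 * log L)) := by
    clear * - L hw
    rw [← exp_add, ← exp_add, ← exp_add]
    exact exp_le_exp.2 (by linarith only [hw])
  have t2 : exp (1 / 2 - log L / 2) ≤ exp (1 / 2 - 49 / 100 * log L) := exp_le_exp.2 (by clear * - L hw; linarith only [hw])
  have t3 : exp (1 - 31 / 25 * log L) * mainV L 1 * (D * exp (1 / 2 - 49 / 100 * log L)) +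
      exp (1 - 31 / 25 * log L) * exp (1 / 2 - log L / 2) ^ (2 - 1) * mainV L 1 ≤
      δ * (VQ L⁻¹ B 1 * (√(log L / (2 * π)) * ((N : ℝ) / 2) ^ (-(3 / 2) : ℝ))) := by
    clear * - L D C B δ N t2 m0 t1 v1 hD k1 g1 v0 hδ
    calc _ ≤ exp (1 - 31 / 25 * log L) * mainV L 1 * (D * exp (1 / 2 - 49 / 100 * log L)) +
          exp (1 - 31 / 25 * log L) * exp (1 / 2 - 49 / 100 * log L) * mainV L 1 := by
          rw [show 2 - 1 = 1 from rfl, pow_one]
          gcongr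
      _ = exp (1 - 31 / 25 * log L) * exp (1 / 2 - 49 / 100 * log L) * mainV L 1 * (D + 1) := by
          ring
      _ ≤ exp (3 / 2) * exp (-(1 / 10 * log L)) * exp (-(8 / 5 * log L)) * (C * VQ L⁻¹ B 1) *
          (D + 1) := by gcongr
      _ = exp (3 / 2) * C * (D + 1) * exp (-(1 / 10 * log L)) *
          (VQ L⁻¹ B 1 * exp (-(8 / 5 * log L))) := by ring
      _ ≤ _ := by gcongr
  have t4 : 5 * δ + δ / (1 + 2 * (2 * ε) ^ (-(3 / 2) : ℝ)) + 2 * (2 * ε) ^ (-(3 / 2) : ℝ) *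
      (δ / (1 + 2 * (2 * ε) ^ (-(3 / 2) : ℝ))) = 6 * δ := by
    field_simp
    ring
  have w0 := mul_pos v0 (mul_pos s0 n0)
  rw [t4] at key
  have e2 : coeff N (PV (B + 2)) / ((L - 1) ^ N * VQ L⁻¹ B 1 * √(log L / (2 * π)) *
      ((N : ℝ) / 2) ^ (-(3 / 2) : ℝ)) = coeff N (PV (B + 2)) * (L - 1)⁻¹ ^ N /
      (VQ L⁻¹ B 1 * (√(log L / (2 * π)) * ((N : ℝ) / 2) ^ (-(3 / 2) : ℝ))) := by
    rw [inv_pow, ← div_eq_mul_inv, div_div, mul_assoc, mul_assoc]
  rw [e2, e, div_sub_one w0.ne', abs_div, abs_of_pos w0, div_le_iff₀ w0]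
  obtain ⟨k2, k3⟩ := abs_le.1 key
  have k4 := mul_le_mul_of_nonneg_right hδ2 w0.le
  have k5 := mul_pos hδ w0
  exact abs_le.2 ⟨by clear * - ζ L B N D δ q1 q0 t3 k2 k4 k5; linarith only [q1, q0, t3, k2, k4, k5], by clear * - N B L ζ D δ q1 t3 k3 k4 k5; linarith only [q1, t3, k3, k4, k5]⟩

end Pool.Agent.Work.MP_5391ad_co
end

-- merged part: Pool.Agent.Work.MP_5391ad_co.TJump
section
/-! Extraction of the coefficient for a dominated series. `z = (L-1)⁻¹`, `V = VQ L⁻¹ B 1`,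
`α m = coeff m (pRate (B+1) 0) ≤ coeff m (pLam (B+1))`. By `big_jump` with `ζ = 1/2`,
`coeff N (PV (B+2)) z^N ≥ V √(log L/(2π)) (N/2)^(-3/2)/2`.
`jump_up`: `coeff N (A * G1) z^N = ∑_{r ≤ N} (G1 r z^r) (α (N-r) z^(N-r))`. For `r ≤ 9N/10` use
`tree_up` (`α m z^m ≤ √(log L) (N/10)^(-3/2)`) and `Ev.sum_le`. For `r > 9N/10` use `G1 ≤ PQ B 1` and
argue as in `big_jump`: `tilt` with `c = 3/4` and `flat_PQ` give
`p r z^r ≤ L^(-9/10 + 3/8 - 27/40 + 2ζ) C V`, `tilt` with `c = -1/4` gives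
`∑_{m ≤ N/10} α m z^m ≤ C L^(-1/2 + 1/40 + ζ)`; the product has exponent `-1.675 + 3 ζ < -13/8` for
`ζ = 1/100`, and `N ≤ 2 L log^2 L`. The term `G2 ≤ PQ B 2` has exponent `-1.775 + 2 ζ`.
`tree_coeff`: `PR_split`, `sum_PRq_le`, `ev_TQ`, `sum_tq_le`, `jump_up`. -/

namespace Pool.Agent.Work.MP_5391ad_co

open Finset Real Filter PowerSeries

theorem tjump_low : ∀ᶠ N : ℕ in atTop, ∀ (L : ℝ) (B : ℕ),
    |L - ell N| ≤ ell N ^ (3 / 5 : ℝ) → (B : ℝ) + 1 = xc L⁻¹ → 0 < VQ L⁻¹ B 1 ∧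
    VQ L⁻¹ B 1 * (√(log L / (2 * π)) * ((N : ℝ) / 2) ^ (-(3 / 2) : ℝ)) ≤
      2 * (coeff N (PV (B + 2)) * (L - 1)⁻¹ ^ N) := by
  obtain ⟨C, hC, hV⟩ := vq_theta
  filter_upwards [big_jump one_half_pos, cjump_ev hV, cjump_near one_pos 3, eventually_gt_atTop 0]
    with N h1 h6 h8 hN0 L B hl hB
  have b1 := (h8 L hl).1
  have hw : 0 < log L := log_pos (by linarith only [b1])
  have hN : (0 : ℝ) < N := Nat.cast_pos.2 hN0
  have v1 := (h6 L hl L (by simp) B ⟨by linarith only [hB], by linarith only [hB]⟩).1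
  rw [show xc L⁻¹ - B = 1 by linarith only [hB], inv_mul_le_iff₀ (by linarith only [hC])] at v1
  have m0 := cjump_pos (show 1 < L by linarith only [b1]) 1
  have v0 : 0 < VQ L⁻¹ B 1 := pos_of_mul_pos_right (m0.trans_le v1) (by linarith only [hC])
  have s0 : 0 < √(log L / (2 * π)) := sqrt_pos.2 (by positivity)
  have n0 : 0 < ((N : ℝ) / 2) ^ (-(3 / 2) : ℝ) := by positivity
  have w0 := mul_pos v0 (mul_pos s0 n0)
  have e2 : coeff N (PV (B + 2)) / ((L - 1) ^ N * VQ L⁻¹ B 1 * √(log L / (2 * π)) *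
      ((N : ℝ) / 2) ^ (-(3 / 2) : ℝ)) = coeff N (PV (B + 2)) * (L - 1)⁻¹ ^ N /
      (VQ L⁻¹ B 1 * (√(log L / (2 * π)) * ((N : ℝ) / 2) ^ (-(3 / 2) : ℝ))) := by
    rw [inv_pow, ← div_eq_mul_inv, div_div, mul_assoc, mul_assoc]
  have k := (abs_le.1 (h1 L B hl hB)).1
  rw [e2, le_sub_iff_add_le, le_div_iff₀ w0] at k
  exact ⟨v0, by clear * - L B N k v0; linarith only [k]⟩

theorem tjump_ev {z : ℝ} (s : Finset ℕ) {F : ℕ → PowerSeries ℝ} {v : ℕ → ℝ}
    (h : ∀ i ∈ s, Ev z (F i) (v i)) : Ev z (∑ i ∈ s, F i) (∑ i ∈ s, v i) :=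
  (cps_fl_sum (lam := 0) s fun i hi => (h i hi).fl).1

theorem jump_up : ∃ C : ℝ, 0 ≤ C ∧ ∀ᶠ N : ℕ in atTop, ∀ (L : ℝ) (B : ℕ),
    |L - ell N| ≤ ell N ^ (3 / 5 : ℝ) → (B : ℝ) + 1 = xc L⁻¹ →
    ∀ (G1 G2 : PowerSeries ℝ) (g1 : ℝ), Ev (L - 1)⁻¹ G1 g1 →
    (∀ k, coeff k G1 ≤ coeff k (PQ B 1)) → (∀ k, coeff k G2 ≤ coeff k (PQ B 2)) →
    coeff N (pRate (B + 1) 0 * G1 + G2) ≤
      C * (g1 / VQ L⁻¹ B 1 + L ^ (-(1 / 8) : ℝ)) * coeff N (PV (B + 2)) := by
  obtain ⟨C, hC, hV⟩ := vq_theta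
  obtain ⟨D, hD, hS⟩ := cjump_S
  obtain ⟨K, hK, hK2⟩ : ∃ K : ℝ, 0 < K ∧ K = 2 * (2 * (1 / 100)) ^ (-(3 / 2) : ℝ) :=
    ⟨_, by positivity, rfl⟩
  have hC0 : 0 < C := by linarith only [hC]
  refine ⟨2 * (2 + K + exp (3 / 2) * C * (D + 1)), by positivity, ?_⟩
  filter_upwards [cjump_A (ε := 1 / 100) (by norm_num) one_pos le_rfl, cjump_P, hS, cjump_G,
    cjump_ev hV, tjump_low, cjump_near one_pos 3, eventually_gt_atTop 0]
    with N h1 h2 h3 h4 h6 h7 h8 hN0 L B hl hB G1 G2 g1 ev hG1 hG2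
  have b1 := (h8 L hl).1
  have hw : 0 < log L := log_pos (by linarith only [b1])
  have hN : (0 : ℝ) < N := Nat.cast_pos.2 hN0
  have v1 := (h6 L hl L (by simp) B ⟨by linarith only [hB], by linarith only [hB]⟩).1
  rw [show xc L⁻¹ - B = 1 by clear * - L B hB hC0 v1; linarith only [hB], inv_mul_le_iff₀ hC0] at v1
  have m0 := cjump_pos (show 1 < L by linarith only [b1]) 1
  obtain ⟨v0, lo⟩ := h7 L B hl hB
  have z0 : 0 < (L - 1)⁻¹ := inv_pos.2 (by linarith only [b1])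
  obtain ⟨s1, s2⟩ := h3 L B hl hB
  have g2 := h4 L hl
  have g0 := ev.nonneg z0.le
  have s0 : 0 < √(log L / (2 * π)) := sqrt_pos.2 (by positivity)
  have n0 : 0 < ((N : ℝ) / 2) ^ (-(3 / 2) : ℝ) := by positivity
  have pw : ∀ m : ℝ, 0 ≤ m → m ^ (-(3 / 2) : ℝ) =
      ((N : ℝ) / 2) ^ (-(3 / 2) : ℝ) * (m / (N / 2)) ^ (-(3 / 2) : ℝ) := fun m hm => by
    rw [← mul_rpow (by positivity) (by positivity), mul_div_cancel₀ _ (by positivity)]
  have key := cjump_sum (P := fun r => coeff r G1 * (L - 1)⁻¹ ^ r)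
    (A := fun m => coeff m (pRate (B + 1) 0) * (L - 1)⁻¹ ^ m) (N := N) (δ := 0) (δ' := 1) (K := K)
    (G := √(log L / (2 * π)) * ((N : ℝ) / 2) ^ (-(3 / 2) : ℝ))
    (M := exp (1 - 31 / 25 * log L) * mainV L 1)
    (fun _ => False) (fun m => 1 / 100 * (N : ℝ) ≤ m)
    (fun r => mul_nonneg (ev.1 r) (by positivity)) (fun m => mul_nonneg (s1 m) (by positivity))
    ev.2 (by positivity) le_rfl hK.le (by positivity) (fun r hr => hr.elim)
    (fun s _ => by rw [one_mul]; exact ev.sum_le z0.le s)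
    (fun r _ hr => by
      clear * - N r B L K h1 hl hB hr hN pw hK2 s0 n0
      refine (h1 L B hl hB (N - r) hr).1.trans ?_
      have c2 : (((N - r : ℕ) : ℝ) / (N / 2)) ^ (-(3 / 2) : ℝ) ≤
          (2 * (1 / 100)) ^ (-(3 / 2) : ℝ) :=
        rpow_le_rpow_of_nonpos (by positivity) (by
          rw [le_div_iff₀ (half_pos hN)]
          linarith only [hr]) (by norm_num)
      rw [pw _ (Nat.cast_nonneg _), hK2]
      linarith only [c2, s0, n0, mul_le_mul_of_nonneg_left c2 (mul_pos s0 n0).le])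
    (fun r r3 hr => by
      clear * - N r r3 B L h2 hl hB hr G1 hG1 z0
      have r4 : ((N - r : ℕ) : ℝ) = N - r := Nat.cast_sub r3
      have c1 := h2 L B hl hB 1 r le_rfl one_le_two (by linarith only [hr, r4, not_le.1 hr])
      rw [Nat.sub_self, pow_zero, mul_one] at c1
      exact (mul_le_mul_of_nonneg_right (hG1 r) (by positivity)).trans c1)
    (fun s hs => s2 s fun m hm => (not_le.1 (hs m hm)).le)
  have q1 := (mul_le_mul_of_nonneg_right (hG2 N) (pow_pos z0 N).le).trans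
    (h2 L B hl hB 2 N one_le_two le_rfl (by clear * - N hN B L h2 hB hl; linarith only [hN]))
  have e : coeff N (pRate (B + 1) 0 * G1 + G2) * (L - 1)⁻¹ ^ N = ∑ r ∈ range (N + 1),
      coeff r G1 * (L - 1)⁻¹ ^ r * (coeff (N - r) (pRate (B + 1) 0) * (L - 1)⁻¹ ^ (N - r)) +
      coeff N G2 * (L - 1)⁻¹ ^ N := by
    rw [map_add, add_mul, mul_comm (pRate _ _), coeff_mul,
      Nat.sum_antidiagonal_eq_sum_range_succ_mk, sum_mul]
    refine congrArg (· + _) (sum_congr rfl fun r hr => ?_)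
    rw [← pow_sub_mul_pow (L - 1)⁻¹ (Nat.lt_succ_iff.1 (mem_range.1 hr))]
    ring
  have t0 : L ^ (-(1 / 8) : ℝ) = exp (-(1 / 8 * log L)) := by
    clear * - L b1
    rw [rpow_def_of_pos (by linarith)]
    exact congrArg exp (by ring)
  have t1 : exp (1 - 31 / 25 * log L) * exp (1 / 2 - 49 / 100 * log L) ≤
      exp (3 / 2) * exp (-(1 / 8 * log L)) * exp (-(8 / 5 * log L)) := by
    clear * - L hw
    rw [← exp_add, ← exp_add, ← exp_add]
    exact exp_le_exp.2 (by linarith only [hw])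
  have t2 : exp (1 / 2 - log L / 2) ≤ exp (1 / 2 - 49 / 100 * log L) := exp_le_exp.2 (by clear * - L hw; linarith only [hw])
  have t3 : exp (1 - 31 / 25 * log L) * mainV L 1 * (D * exp (1 / 2 - 49 / 100 * log L)) +
      exp (1 - 31 / 25 * log L) * exp (1 / 2 - log L / 2) ^ (2 - 1) * mainV L 1 ≤
      exp (3 / 2) * C * (D + 1) * exp (-(1 / 8 * log L)) *
        (VQ L⁻¹ B 1 * (√(log L / (2 * π)) * ((N : ℝ) / 2) ^ (-(3 / 2) : ℝ))) := by
    clear * - L D C B N t2 m0 t1 v1 hD g2 v0 hC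
    calc _ ≤ exp (1 - 31 / 25 * log L) * mainV L 1 * (D * exp (1 / 2 - 49 / 100 * log L)) +
          exp (1 - 31 / 25 * log L) * exp (1 / 2 - 49 / 100 * log L) * mainV L 1 := by
          rw [show 2 - 1 = 1 from rfl, pow_one]
          gcongr
      _ = exp (1 - 31 / 25 * log L) * exp (1 / 2 - 49 / 100 * log L) * mainV L 1 * (D + 1) := by
          ring
      _ ≤ exp (3 / 2) * exp (-(1 / 8 * log L)) * exp (-(8 / 5 * log L)) * (C * VQ L⁻¹ B 1) *
          (D + 1) := by gcongr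
      _ = exp (3 / 2) * C * (D + 1) * exp (-(1 / 8 * log L)) *
          (VQ L⁻¹ B 1 * exp (-(8 / 5 * log L))) := by ring
      _ ≤ _ := by gcongr
  refine le_of_mul_le_mul_right ?_ (pow_pos z0 N)
  rw [e, t0, mul_assoc]
  have k3 := (abs_le.1 key).2
  have g3 := mul_pos s0 n0
  have hE : 0 < exp (3 / 2) * C * (D + 1) := by positivity
  have hx := exp_pos (-(1 / 8 * log L))
  generalize √(log L / (2 * π)) * ((N : ℝ) / 2) ^ (-(3 / 2) : ℝ) = G at *
  generalize coeff N (PV (B + 2)) * (L - 1)⁻¹ ^ N = Y at *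
  generalize exp (3 / 2) * C * (D + 1) = E at *
  generalize exp (-(1 / 8 * log L)) = x at *
  obtain ⟨y, rfl⟩ : ∃ y, g1 = y * VQ L⁻¹ B 1 := ⟨g1 / VQ L⁻¹ B 1,
    (div_mul_cancel₀ _ v0.ne').symm⟩
  have y0 : 0 ≤ y := nonneg_of_mul_nonneg_left g0 v0
  rw [mul_div_cancel_right₀ _ v0.ne']
  have w0 := mul_pos v0 g3
  calc _ ≤ ((2 + K) * y + E * x) * (VQ L⁻¹ B 1 * G) := by clear * - N G1 L B G2 K y E x G D q1 t3 k3 Y hE hK hx lo w0 y0; linarith only [q1, t3, k3]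
    _ ≤ ((2 + K + E) * (y + x)) * (2 * Y) := by
        clear * - K y E x L B G Y hx hE y0 hK lo w0
        refine mul_le_mul ?_ lo w0.le (by positivity)
        linarith only [hx, hE, y0, hK, mul_nonneg hE.le y0, mul_pos hK hx]
    _ = _ := by ring

theorem tree_coeff {θ δ : ℝ} (hθ : θ < 1 / 2) (hδ : 0 < δ) : ∀ᶠ N : ℕ in atTop,
    ∀ (L : ℝ) (B m1 : ℕ), |L - ell N| ≤ ell N ^ (3 / 5 : ℝ) → (B : ℝ) + 1 = xc L⁻¹ →
    (m1 : ℝ) ≤ θ * (L * log L) → m1 < B ∧
      ∑ m ∈ range (m1 + 1), coeff N (PT m * PR (B + 2) m) ≤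
        (L ^ (θ - 1 / 2 + δ) + L ^ (-(1 / 8) + δ)) * coeff N (PV (B + 2)) := by
  obtain ⟨C, hC, hJ⟩ := jump_up
  filter_upwards [hJ, cjump_ev (sum_tq_le hθ (half_pos hδ)), tjump_low, cjump_near one_pos 3,
    cjump_ev ((tendsto_rpow_atTop (half_pos hδ)).eventually_ge_atTop C), eventually_gt_atTop 0]
    with N h1 h2 h3 h4 h5 hN0 L B m1 hl hB hm
  have b1 := (h4 L hl).1
  have hL0 : 0 < L := by linarith only [b1]
  have hw : 0 < log L := log_pos (by linarith only [b1])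
  obtain ⟨c1, c2⟩ := h2 L hl L (by simp) B m1 ⟨by linarith only [hB], by linarith only [hB]⟩ hm
  obtain ⟨v0, lo⟩ := h3 L B hl hB
  have c3 : C ≤ L ^ (δ / 2) := h5 L hl L (by simp)
  have z0 : 0 < (L - 1)⁻¹ := inv_pos.2 (by linarith only [b1])
  have p0 : 0 ≤ coeff N (PV (B + 2)) := by
    have h := le_trans (by positivity) lo
    exact nonneg_of_mul_nonneg_left (nonneg_of_mul_nonneg_right h two_pos) (pow_pos z0 N)
  have le : ∀ m ∈ range (m1 + 1), m ≤ B := fun m h => by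
    have := mem_range.1 h
    omega
  have key := h1 L B hl hB _ _ _
    (tjump_ev (range (m1 + 1)) fun m h => ev_TQ (L := L) (by linarith only [b1]) (le m h) (by linarith only [hB]))
    (sum_PRq_le c1.le 1) (sum_PRq_le c1.le 2)
  have e : ∑ m ∈ range (m1 + 1), PT m * PR (B + 2) m =
      pRate (B + 1) 0 * ∑ m ∈ range (m1 + 1), PT m * PRq B m 1 +
        ∑ m ∈ range (m1 + 1), PT m * PRq B m 2 := by
    rw [mul_sum, ← sum_add_distrib]
    refine sum_congr rfl fun m h => ?_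
    rw [PR_split (le m h)]
    ring
  refine ⟨c1, ?_⟩
  rw [← map_sum, e]
  refine key.trans (mul_le_mul_of_nonneg_right ?_ p0)
  rw [← div_le_iff₀ v0] at c2
  have d1 : L ^ (δ / 2) * L ^ (θ - 1 / 2 + δ / 2) = L ^ (θ - 1 / 2 + δ) := by
    rw [← rpow_add hL0]
    exact congrArg (L ^ ·) (by ring)
  have d2 : L ^ (δ / 2) * L ^ (-(1 / 8) : ℝ) ≤ L ^ (-(1 / 8) + δ) := by
    clear * - L δ hL0 b1 hδ
    rw [← rpow_add hL0]
    exact rpow_le_rpow_of_exponent_le (by linarith) (by linarith only [hδ])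
  calc _ ≤ C * (L ^ (θ - 1 / 2 + δ / 2) + L ^ (-(1 / 8) : ℝ)) := by gcongr
    _ ≤ L ^ (δ / 2) * (L ^ (θ - 1 / 2 + δ / 2) + L ^ (-(1 / 8) : ℝ)) := by gcongr
    _ ≤ _ := by clear * - L δ θ d1 d2; rw [mul_add, d1]; linarith only [d2]

end Pool.Agent.Work.MP_5391ad_co
end
end

-- merged part: Pool.Agent.Work.MP_5391ad_co.ZFin
section
-- merged part: Pool.Agent.Work.MP_5391ad_co.TLow
section
/-! The lower tail of the root tree.
`rare_le`: `numDag_lower` with `η = c/2`.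
`tree_low`: decrease `δ` so that `θ' = θ (1 + δ') < 1/2` (if `θ < 0` the set is empty; `lam_cmp`).
Split by `b = |RN|`; outside the window use `rows_out`, `rare_le`; inside `b = B + 2`, take `L` from
`pick_L` with `x = B + 1`, `m1 = ⌊θ lam N⌋`, sum `tree_count` over `m ≤ m1` and use `tree_coeff`;
`L ≥ N^(1-δ')`; sum over `b` with `numDag_eq` (the coefficients of `PV b` are nonnegative, by
`card_rows`). -/

namespace Pool.Agent.Work.MP_5391ad_co

open Finset Real Filter PowerSeries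
open scoped Classical

theorem rare_le {c a : ℝ} (hc0 : 0 < c) : ∀ᶠ N : ℕ in atTop,
    exp (-(N : ℝ) ^ c) * (N.factorial * exp (FF N)) ≤ (N : ℝ) ^ (-a) * numDag N := by
  filter_upwards [numDag_lower (half_pos hc0),
    tendsto_natCast_atTop_atTop.eventually (dlow_log a (half_pos hc0)),
    ((tendsto_rpow_atTop (half_pos hc0)).comp tendsto_natCast_atTop_atTop).eventually_ge_atTop 2,
    eventually_ge_atTop 1] with N h1 h2 h3 h4
  have hN : (0 : ℝ) < N := by exact_mod_cast h4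
  refine le_trans ?_ (mul_le_mul_of_nonneg_left h1 (rpow_nonneg hN.le _))
  have h7 : (N : ℝ) ^ c = (N : ℝ) ^ (c / 2) * (N : ℝ) ^ (c / 2) := by
    rw [← rpow_add hN, add_halves]
  rw [rpow_def_of_pos hN (-a), mul_left_comm, mul_left_comm (exp _), ← exp_add, ← exp_add]
  refine mul_le_mul_of_nonneg_left (exp_le_exp.2 ?_) (Nat.cast_nonneg _)
  have h8 : (2 : ℝ) ≤ (N : ℝ) ^ (c / 2) := h3
  rw [h7]
  clear * - N c a h2 h8
  linarith only [h2, h8, mul_nonneg_of_nonpos_of_nonpos (Mathlib.Tactic.Linarith.sub_nonpos_of_le h8) (Mathlib.Tactic.Linarith.sub_nonpos_of_le h8)]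

theorem tlow_pow {n L d e : ℝ} (hn : 1 ≤ n) (hd : 0 ≤ d) (hL : n ^ (1 - d) ≤ L) (he : e ≤ 0)
    (he' : -1 ≤ e) : L ^ e ≤ n ^ (e + d) := by
  have h0 : 0 < n := zero_lt_one.trans_le hn
  refine (rpow_le_rpow_of_nonpos (rpow_pos_of_pos h0 _) hL he).trans ?_
  rw [← rpow_mul h0.le]
  exact rpow_le_rpow_of_exponent_le hn (by linarith only [hd, he', mul_nonneg_of_nonpos_of_nonpos (Mathlib.Tactic.Linarith.sub_nonpos_of_le hd) (Mathlib.Tactic.Linarith.sub_nonpos_of_le he')])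

theorem tlow_in {θ d : ℝ} (h0 : 0 ≤ θ) (hd : 0 < d) (hd1 : d ≤ 1 / 8)
    (hθ : θ * (1 + d) + d ≤ 1 / 2) : ∀ᶠ N : ℕ in atTop,
    ∀ (α : Type) [Fintype α] (W : Finset α), W.card = N → ∀ b ≤ N,
    |(b : ℝ) - xc (ell N)⁻¹| < ell N ^ (3 / 5 : ℝ) - 3 →
    ∑ m ∈ range (⌊θ * lam N⌋₊ + 1),
      (((dags W).filter fun Δ => (RN W Δ).card = b ∧ (rootT W Δ).card = m).card : ℝ) ≤
      ((N : ℝ) ^ (θ - 1 / 2 + 3 * d) + (N : ℝ) ^ (-(1 / 8) + 2 * d)) *
        (N.factorial * coeff N (PV b)) := by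
  have hd2 : 0 < 1 - d := by linarith only [hd, hd1]
  filter_upwards [pick_L, lam_cmp hd, tree_coeff (θ := θ * (1 + d)) (by linarith only [hd, hθ]) hd,
    ((tendsto_rpow_atTop hd2).comp tendsto_natCast_atTop_atTop).eventually_ge_atTop (exp 2),
    eventually_ge_atTop 1] with N h1 h2 h3 h4 h5 α _ W hW b hb hw
  have hN : (1 : ℝ) ≤ N := by exact_mod_cast h5
  obtain ⟨L, hx, hL, -⟩ := h1 (b - 1) (by
    clear * - b N d hd hd1 hw
    rw [abs_lt] at hw
    rw [abs_le]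
    constructor <;> linarith only [hd, hd1, hw, hw.1, hw.2])
  obtain ⟨-, h6, h7, -⟩ := h2 L hL
  have h8 : exp 2 ≤ L := le_trans h4 h7
  have h9 : 2 ≤ log L := (le_log_iff_exp_le ((exp_pos 2).trans_le h8)).2 h8
  have h10 : 1 ≤ L := (one_le_exp zero_le_two).trans h8
  have hb2 : 2 ≤ b := by
    clear * - b L hx h9 h10
    rw [xc, inv_inv] at hx
    have : (2 : ℝ) ≤ b := by linarith only [hx, h9, h10, mul_nonneg_of_nonpos_of_nonpos (Mathlib.Tactic.Linarith.sub_nonpos_of_le h9) (Mathlib.Tactic.Linarith.sub_nonpos_of_le h10)]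
    exact_mod_cast this
  obtain ⟨B, rfl⟩ := Nat.exists_eq_add_of_le' hb2
  have hl : 0 ≤ lam N := div_nonneg (Nat.cast_nonneg _) (log_natCast_nonneg _)
  obtain ⟨h11, h12⟩ := h3 L B ⌊θ * lam N⌋₊ hL (by rw [hx]; push_cast; ring)
    ((Nat.floor_le (mul_nonneg h0 hl)).trans (by
      rw [mul_assoc]
      exact mul_le_mul_of_nonneg_left h6 h0))
  have hc : 0 ≤ N.factorial * coeff N (PV (B + 2)) := by
    have := card_rows W (hW ▸ hb : B + 2 ≤ W.card)
    rw [hW] at this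
    rw [← this]
    exact Nat.cast_nonneg _
  refine (sum_le_sum fun m hm => tree_count W (hW ▸ hb) (by
    have := mem_range.1 hm
    omega)).trans ?_
  rw [hW, ← mul_sum]
  refine (mul_le_mul_of_nonneg_left h12 (Nat.cast_nonneg _)).trans ?_
  rw [mul_left_comm]
  refine mul_le_mul_of_nonneg_right (add_le_add ?_ ?_) hc
  · refine (tlow_pow hN hd.le h7 (by linarith only [hθ]) (by clear * - θ d h0 hd hd1 h7 hN; linarith only [h0, hd, hd1, mul_nonneg_of_nonpos_of_nonpos (Mathlib.Tactic.Linarith.sub_nonpos_of_le h0) (le_of_lt (Mathlib.Tactic.Linarith.sub_neg_of_lt hd))])).trans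
      (rpow_le_rpow_of_exponent_le hN (by clear * - θ d hd hd1 hθ hN; (refine le_of_not_gt fun h_nl => ?_; linarith only [h_nl, hd, hd1, hθ, mul_pos_of_neg_of_neg (Mathlib.Tactic.Linarith.sub_neg_of_lt hd) (Mathlib.Tactic.Linarith.sub_neg_of_lt hd), mul_nonneg_of_nonpos_of_nonpos (le_of_lt (Mathlib.Tactic.Linarith.sub_neg_of_lt hd)) (Mathlib.Tactic.Linarith.sub_nonpos_of_le hd1), mul_nonneg_of_nonpos_of_nonpos (le_of_lt (Mathlib.Tactic.Linarith.sub_neg_of_lt hd)) (Mathlib.Tactic.Linarith.sub_nonpos_of_le hθ), mul_pos_of_neg_of_neg (Mathlib.Tactic.Linarith.sub_neg_of_lt hd) (Mathlib.Tactic.Linarith.sub_neg_of_lt h_nl)])))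
  · refine (tlow_pow hN hd.le h7 (by linarith only [hd1]) (by linarith only [hd, hd1])).trans
      (rpow_le_rpow_of_exponent_le hN (by linarith only []))

theorem tree_low {θ δ : ℝ} (hθ : θ < 1 / 2) (hδ : 0 < δ) : ∀ᶠ N : ℕ in atTop,
    ∀ (α : Type) [Fintype α] (W : Finset α), W.card = N →
    (((dags W).filter fun Δ => ((rootT W Δ).card : ℝ) ≤ θ * lam N).card : ℝ) ≤
      ((N : ℝ) ^ (θ - 1 / 2 + δ) + (N : ℝ) ^ (-(1 / 8) + δ)) * numDag N := by
  rcases lt_or_ge θ 0 with h0 | h0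
  · filter_upwards [eventually_ge_atTop 2] with N hN α _ W hW
    have h1 : (1 : ℝ) < N := by exact_mod_cast hN
    have h2 : 0 < lam N := div_pos (by linarith only [h1]) (log_pos h1)
    rw [filter_false_of_mem fun Δ _ =>
      not_le.2 ((mul_neg_of_neg_of_pos h0 h2).trans_le (Nat.cast_nonneg _)), card_empty,
      Nat.cast_zero]
    positivity
  obtain ⟨d, hd, hd1, hd2, hd3⟩ : ∃ d : ℝ, 0 < d ∧ d ≤ 1 / 8 ∧ d ≤ δ / 4 ∧ d ≤ (1 / 2 - θ) / 2 :=
    ⟨min (1 / 8) (min (δ / 4) ((1 / 2 - θ) / 2)),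
      lt_min (by norm_num) (lt_min (by linarith only [hδ]) (by linarith only [hθ])), min_le_left _ _,
      (min_le_right _ _).trans (min_le_left _ _), (min_le_right _ _).trans (min_le_right _ _)⟩
  filter_upwards [tlow_in h0 hd hd1 (by linarith only [hd, hd3, hθ, mul_pos_of_neg_of_neg (Mathlib.Tactic.Linarith.sub_neg_of_lt hθ) (Mathlib.Tactic.Linarith.sub_neg_of_lt hd)]), rows_out,
    rare_le (a := 1) (by norm_num : (0 : ℝ) < 1 / 7),
    ((tendsto_rpow_atTop (half_pos hδ)).comp tendsto_natCast_atTop_atTop).eventually_ge_atTop 2,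
    eventually_ge_atTop 1] with N h1 h2 h3 h4 h5 α _ W hW
  have hN : (1 : ℝ) ≤ N := by exact_mod_cast h5
  have hN0 : (0 : ℝ) < N := zero_lt_one.trans_le hN
  have hc : ∀ b ∈ range (N + 1), 0 ≤ N.factorial * coeff N (PV b) := fun b hb => by
    have := card_rows W (hW ▸ Nat.lt_succ_iff.1 (mem_range.1 hb) : b ≤ W.card)
    rw [hW] at this
    rw [← this]
    exact Nat.cast_nonneg _
  have hs : ((dags W).filter fun Δ => ((rootT W Δ).card : ℝ) ≤ θ * lam N) ⊆
      ((dags W).filter fun Δ =>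
        ell N ^ (3 / 5 : ℝ) - 3 ≤ |((RN W Δ).card : ℝ) - xc (ell N)⁻¹|) ∪
      ((range (N + 1)).filter fun b : ℕ =>
        |(b : ℝ) - xc (ell N)⁻¹| < ell N ^ (3 / 5 : ℝ) - 3).biUnion fun b =>
        (range (⌊θ * lam N⌋₊ + 1)).biUnion fun m =>
          (dags W).filter fun Δ => (RN W Δ).card = b ∧ (rootT W Δ).card = m := fun Δ hΔ => by
    obtain ⟨h6, h7⟩ := mem_filter.1 hΔ
    rcases le_or_gt (ell N ^ (3 / 5 : ℝ) - 3) |((RN W Δ).card : ℝ) - xc (ell N)⁻¹| with h8 | h8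
    · exact mem_union_left _ (mem_filter.2 ⟨h6, h8⟩)
    · refine mem_union_right _ (mem_biUnion.2 ⟨_, mem_filter.2 ⟨mem_range.2 ?_, h8⟩,
        mem_biUnion.2 ⟨_, mem_range.2 (Nat.lt_succ_of_le (Nat.le_floor h7)),
          mem_filter.2 ⟨h6, rfl, rfl⟩⟩⟩)
      refine Nat.lt_succ_of_le (hW ▸ card_le_card fun u hu => ?_)
      simp only [RN, mem_filter] at hu
      exact hu.1
  have h6 := (card_le_card hs).trans ((card_union_le _ _).trans
    (add_le_add_right (card_biUnion_le.trans (sum_le_sum fun b _ => card_biUnion_le)) _))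
  have h7 := (Nat.cast_le (α := ℝ)).2 h6
  rw [Nat.cast_add, Nat.cast_sum] at h7
  simp only [Nat.cast_sum] at h7
  have h8 := add_le_add ((h2 α W hW).trans h3) ((sum_le_sum fun b hb =>
    h1 α W hW b (Nat.lt_succ_iff.1 (mem_range.1 (mem_filter.1 hb).1)) (mem_filter.1 hb).2).trans
    (sum_le_sum_of_subset_of_nonneg (filter_subset _ _) fun b hb _ =>
      mul_nonneg (by positivity) (hc b hb)))
  refine (h7.trans h8).trans ?_
  rw [← mul_sum, ← mul_sum, ← numDag_eq, ← add_mul]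
  refine mul_le_mul_of_nonneg_right ?_ (Nat.cast_nonneg _)
  have e1 : (N : ℝ) ^ (θ - 1 / 2 + 3 * d) ≤ (N : ℝ) ^ (θ - 1 / 2 + δ) :=
    rpow_le_rpow_of_exponent_le hN (by clear * - θ d δ hd hd2 hN; linarith only [hd, hd2])
  have e2 : (N : ℝ) ^ (-(1 / 8) + 2 * d) ≤ (N : ℝ) ^ (-(1 / 8) + δ / 2) :=
    rpow_le_rpow_of_exponent_le hN (by clear * - d δ hd2 hN; linarith only [hd2])
  have e3 : (N : ℝ) ^ (-1 : ℝ) ≤ (N : ℝ) ^ (-(1 / 8) + δ / 2) :=
    rpow_le_rpow_of_exponent_le hN (by clear * - δ d hd hd1 hd2 hN; linarith only [hd, hd1, hd2])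
  have e4 : (N : ℝ) ^ (-(1 / 8) + δ) = (N : ℝ) ^ (-(1 / 8) + δ / 2) * (N : ℝ) ^ (δ / 2) := by
    rw [← rpow_add hN0, add_assoc, add_halves]
  have e5 : (2 : ℝ) ≤ (N : ℝ) ^ (δ / 2) := h4
  have e6 := mul_le_mul_of_nonneg_left e5 (rpow_nonneg hN0.le (-(1 / 8) + δ / 2))
  clear * - N θ d δ e1 e2 e3 e4 e6
  linarith only [e1, e2, e3, e4, e6]

end Pool.Agent.Work.MP_5391ad_co
end

-- merged part: Pool.Agent.Work.MP_5391ad_co.StageC
section
/-! Stage C. `numDag_eq`; `ℓ = ell N`, `J = xc ℓ⁻¹`, `H = ℓ^(3/5)`. The terms `b = j + 1` with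
`|j - J| ≤ H` (`j = B + 1`, `L` from `exists_xc` with `xc L⁻¹ = j`) are evaluated by `big_jump`,
`vq_lim`, `prof_taylor`, with `L/ℓ → 1` uniformly, and summed by `gauss_sum` (`k = curv N`,
`curv_lim`); the other terms are bounded by `outside`, `(N+1) exp (-ℓ^(1/6)) = o(mainD/exp FF)`.
The constant is `c 2^(3/2) e^{π^2/6}`; `N ∼ ℓ log^2 ℓ`.
`mainD_ratio`: `FF_incr`-type estimates: `FF (n+1) - FF n - log (ell n) → 0` (`FF_incr`,
`FF_step`, `ell_sub_le`), and `log^2 (ell (n+1)) - log^2 (ell n) → 0`. -/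

namespace Pool.Agent.Work.MP_5391ad_co

open Real Finset Filter

theorem stagec_lim {ι : Type*} {l : Filter ι} {f : ι → ℝ} {a : ℝ} :
    Tendsto f l (nhds a) ↔ ∀ ζ : ℝ, 0 < ζ → ∀ᶠ x in l, |f x - a| ≤ ζ :=
  Metric.nhds_basis_closedBall.tendsto_right_iff

theorem stagec_log {ι : Type*} {l : Filter ι} {f : ι → ℝ} (h : Tendsto f l (nhds 1)) :
    Tendsto (fun x => log (f x)) l (nhds 0) := by
  simpa using h.log one_ne_zero

theorem stagec_loglog {ι : Type*} {l : Filter ι} {f g : ι → ℝ} (hg : Tendsto g l atTop)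
    (h : Tendsto (fun x => f x / g x) l (nhds 1)) :
    Tendsto (fun x => log (f x) / log (g x)) l (nhds 1) := by
  have h1 := ((stagec_log h).div_atTop (tendsto_log_atTop.comp hg)).add_const 1
  rw [zero_add] at h1
  refine h1.congr' ?_
  filter_upwards [hg.eventually_gt_atTop 1, h.eventually_ne one_ne_zero.symm.symm] with x h2 h3
  rw [log_div (fun h4 => h3 (by rw [h4, zero_div])) (by linarith), Function.comp_apply,
    div_add_one (log_pos h2).ne', sub_add_cancel]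

theorem stagec_ell : Tendsto (fun N : ℕ => ell N) atTop atTop :=
  tendsto_ell.comp tendsto_natCast_atTop_atTop

theorem stagec_N : Tendsto (fun N : ℕ => N / (ell N * log (ell N) ^ 2)) atTop (nhds 1) := by
  have h1 := ((tendsto_const_nhds (x := π ^ 2 / 6)).div_atTop ((tendsto_pow_atTop two_ne_zero).comp
    (tendsto_log_atTop.comp stagec_ell))).const_sub 1
  rw [sub_zero] at h1
  refine h1.congr' ?_
  filter_upwards [eventually_ge_atTop 30] with N hN
  have h2 := ell_spec (n := N) (by exact_mod_cast hN)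
  have h3 := aell_log (le_ell N)
  have h4 := aell_one (le_ell N)
  simp only [Function.comp_apply]
  generalize ell N = l at *
  rw [← h2]
  field_simp

theorem stagec_curv : Tendsto (fun N : ℕ => curv N * ell N) atTop (nhds 1) :=
  curv_lim.comp tendsto_natCast_atTop_atTop

theorem stagec_curv_pos : ∀ᶠ N : ℕ in atTop, 0 < curv N := by
  filter_upwards [stagec_curv.eventually_const_lt zero_lt_one] with N h
  exact (pos_iff_pos_of_mul_pos h).2 (zero_lt_one.trans_le (aell_one (le_ell N)))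

theorem stagec_mainD {n : ℝ} : mainD n =
    exp (FF n - log (ell n) ^ 2 - 5 / 3 * log (ell n) - 4 * log (log (ell n))) := by
  have h1 := aell_log (le_ell n)
  have h2 := aell_one (le_ell n)
  rw [mainD, rpow_def_of_pos (by linarith only [h2]), rpow_def_of_pos (by linarith), ← exp_add, ← exp_add]
  congr 1
  ring

theorem stagec_sqrt {x : ℝ} (h : 0 < x) : √x = exp (log x / 2) := by
  rw [sqrt_eq_rpow, rpow_def_of_pos h, mul_one_div]

theorem stagec_id {L k c V a d : ℝ} {N : ℕ} (hL1 : 1 < L) (hN : 0 < (N : ℝ)) (hk : 0 < k)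
    (hc : 0 < c) (hV : V ≠ 0) :
    a / ((L - 1) ^ N * V * √(log L / (2 * π)) * ((N : ℝ) / 2) ^ (-(3 / 2) : ℝ)) *
      (V / mainV L 1 / c) * exp ((N * log (L - 1) - hL L - kappa * L ^ (1 / 3 : ℝ) -
        (FF N - log (ell N) ^ 2 + π ^ 2 / 6 - k * d ^ 2 / 2)) - 2 / 3 * log (L / ell N) -
        log (log L / log (ell N)) - 3 / 2 * log (N / (ell N * log (ell N) ^ 2)) -
        1 / 2 * log (k * ell N)) =
    a / (c * exp (3 / 2 * log 2 + π ^ 2 / 6) * mainD N *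
      (exp (-(k * d ^ 2 / 2)) * √(k / (2 * π)))) := by
  have h1 := aell_log (le_ell N)
  have h2 := aell_one (le_ell N)
  have h3 := log_pos hL1
  have h4 : 0 < ell N := by linarith only [h2]
  have h5 : 0 < log (ell N) := by linarith
  have h6 : 0 < L := by linarith
  have h7 : ∀ x y v m E u : ℝ, E = x + y + v + m - u →
      a / (exp x * V * exp y * exp v) * (V / exp m / c) * exp E = a / (c * exp u) := by
    rintro x y v m E u rfl
    rw [exp_sub, exp_add, exp_add, exp_add]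
    field_simp
  have h8 : mainV L 1 = exp (-hL L - kappa * L ^ (1 / 3 : ℝ) - 2 / 3 * log L -
      3 / 2 * log (log L)) := by
    rw [mainV, mainS, sub_self, zero_div, rpow_zero, mul_one, rpow_def_of_pos h6 (-(2 / 3)),
      rpow_def_of_pos h3, ← exp_add, ← exp_add, ← exp_add]
    congr 1
    ring
  have h9 : 0 < 2 * π := by positivity
  rw [ab0_exp (sub_pos.2 hL1), stagec_sqrt (div_pos h3 h9), rpow_def_of_pos (half_pos hN), h8,
    stagec_mainD, stagec_sqrt (div_pos hk h9), mul_assoc c, mul_assoc c, ← exp_add, ← exp_add,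
    ← exp_add]
  refine h7 _ _ _ _ _ _ ?_
  rw [log_div h6.ne' h4.ne', log_div h3.ne' h5.ne', log_div hN.ne' (by positivity),
    log_mul h4.ne' (by positivity), log_pow, log_mul hk.ne' h4.ne', log_div h3.ne' h9.ne',
    log_div hN.ne' two_ne_zero, log_div hk.ne' h9.ne']
  push_cast
  ring

/-- the filter of the terms in the window -/
def stagec_F : Filter (ℕ × ℝ × ℕ) :=
  comap Prod.fst atTop ⊓ principal {p | exp 1 ≤ p.2.1 ∧ (p.2.2 : ℝ) + 1 = xc p.2.1⁻¹ ∧
    |xc p.2.1⁻¹ - xc (ell p.1)⁻¹| ≤ ell p.1 ^ (3 / 5 : ℝ)}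

theorem stagec_ev {Q : ℕ × ℝ × ℕ → Prop} : (∀ᶠ p in stagec_F, Q p) ↔
    ∀ᶠ N : ℕ in atTop, ∀ (L : ℝ) (B : ℕ), exp 1 ≤ L → (B : ℝ) + 1 = xc L⁻¹ →
      |xc L⁻¹ - xc (ell N)⁻¹| ≤ ell N ^ (3 / 5 : ℝ) → Q (N, L, B) := by
  rw [stagec_F, eventually_inf_principal, eventually_comap]
  refine eventually_congr (.of_forall fun N => ⟨fun h L B h1 h2 h3 => h (N, L, B) rfl ⟨h1, h2, h3⟩,
    ?_⟩)
  rintro h ⟨N, L, B⟩ rfl ⟨h1, h2, h3⟩
  exact h L B h1 h2 h3

theorem stagec_fst : Tendsto Prod.fst stagec_F atTop := tendsto_comap.mono_left inf_le_left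

theorem stagec_near : ∀ᶠ p in stagec_F, |p.2.1 - ell p.1| ≤ ell p.1 ^ (3 / 5 : ℝ) :=
  stagec_ev.2 ((prof_taylor one_pos).mono fun _ h L _ h1 _ h3 => (h L h1 h3).1)

theorem stagec_ratio : Tendsto (fun p : ℕ × ℝ × ℕ => p.2.1 / ell p.1) stagec_F (nhds 1) := by
  rw [tendsto_iff_dist_tendsto_zero]
  refine squeeze_zero' (.of_forall fun _ => dist_nonneg) ?_
    ((tendsto_rpow_neg_atTop (show (0 : ℝ) < 2 / 5 by norm_num)).comp (stagec_ell.comp stagec_fst))
  filter_upwards [stagec_near] with p h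
  have h1 := zero_lt_one.trans_le (aell_one (le_ell p.1))
  rw [Real.dist_eq, div_sub_one h1.ne', abs_div, abs_of_pos h1, div_le_iff₀ h1]
  refine h.trans_eq ?_
  rw [Function.comp_apply, Function.comp_apply, ← rpow_add_one h1.ne']
  norm_num

theorem stagec_L : Tendsto (fun p : ℕ × ℝ × ℕ => p.2.1) stagec_F atTop := by
  refine (stagec_ratio.pos_mul_atTop one_pos (stagec_ell.comp stagec_fst)).congr fun p => ?_
  exact div_mul_cancel₀ _ (zero_lt_one.trans_le (aell_one (le_ell p.1))).ne'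

/-- `c` is the limit of the normalised volumes -/
def VLim (c : ℝ) : Prop := ∀ ζ : ℝ, 0 < ζ → ∀ᶠ L : ℝ in atTop, ∀ B : ℕ,
  (B : ℝ) + 1 = xc L⁻¹ → |VQ L⁻¹ B 1 / mainV L 1 - c| ≤ ζ

theorem stagec_term {c : ℝ} (hc : 0 < c) (h : VLim c) : Tendsto (fun p : ℕ × ℝ × ℕ =>
    PowerSeries.coeff p.1 (PV (p.2.2 + 2)) / (c * exp (3 / 2 * log 2 + π ^ 2 / 6) * mainD p.1 *
      (exp (-(curv p.1 * (xc p.2.1⁻¹ - xc (ell p.1)⁻¹) ^ 2 / 2)) * √(curv p.1 / (2 * π)))))
      stagec_F (nhds 1) := by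
  have hB : ∀ᶠ p in stagec_F, (p.2.2 : ℝ) + 1 = xc p.2.1⁻¹ :=
    stagec_ev.2 (.of_forall fun _ _ _ _ h _ => h)
  have h1 : Tendsto (fun p : ℕ × ℝ × ℕ => PowerSeries.coeff p.1 (PV (p.2.2 + 2)) /
      ((p.2.1 - 1) ^ p.1 * VQ p.2.1⁻¹ p.2.2 1 * √(log p.2.1 / (2 * π)) *
        ((p.1 : ℝ) / 2) ^ (-(3 / 2) : ℝ))) stagec_F (nhds 1) := stagec_lim.2 fun ζ hζ => by
    filter_upwards [stagec_fst.eventually (big_jump hζ), stagec_near, hB] with p h1 h2 h3
    exact h1 _ _ h2 h3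
  have h2 : Tendsto (fun p : ℕ × ℝ × ℕ => VQ p.2.1⁻¹ p.2.2 1 / mainV p.2.1 1) stagec_F (nhds c) :=
    stagec_lim.2 fun ζ hζ => by
      filter_upwards [stagec_L.eventually (h ζ hζ), hB] with p h1 h2
      exact h1 _ h2
  have h3 : Tendsto (fun p : ℕ × ℝ × ℕ => p.1 * log (p.2.1 - 1) - hL p.2.1 -
      kappa * p.2.1 ^ (1 / 3 : ℝ) - (FF p.1 - log (ell p.1) ^ 2 + π ^ 2 / 6 -
        curv p.1 * (xc p.2.1⁻¹ - xc (ell p.1)⁻¹) ^ 2 / 2)) stagec_F (nhds 0) :=
    stagec_lim.2 fun ζ hζ => stagec_ev.2 ((prof_taylor hζ).mono fun _ h L _ h1 _ h3 => by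
      rw [sub_zero]
      exact (h L h1 h3).2)
  have h4 := (h1.mul (h2.div_const c)).mul ((((h3.sub ((stagec_log stagec_ratio).const_mul
    (2 / 3))).sub (stagec_log (stagec_loglog (stagec_ell.comp stagec_fst) stagec_ratio))).sub
    ((stagec_log (stagec_N.comp stagec_fst)).const_mul (3 / 2))).sub
    ((stagec_log (stagec_curv.comp stagec_fst)).const_mul (1 / 2))).rexp
  simp only [div_self hc.ne', mul_zero, sub_zero, exp_zero, mul_one] at h4
  refine h4.congr' ?_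
  filter_upwards [stagec_L.eventually_gt_atTop 1, stagec_fst.eventually_gt_atTop 0,
    stagec_fst.eventually stagec_curv_pos, h2.eventually_ne hc.ne'] with p h5 h6 h7 h8
  have h9 := stagec_id (a := PowerSeries.coeff p.1 (PV (p.2.2 + 2)))
    (d := xc p.2.1⁻¹ - xc (ell p.1)⁻¹) (V := VQ p.2.1⁻¹ p.2.2 1) h5 (Nat.cast_pos.2 h6) h7 hc
    fun h9 => h8 (by rw [h9, zero_div])
  simp only [Function.comp_apply]
  exact h9

theorem stagec_mainD_pos (n : ℝ) : 0 < mainD n := by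
  rw [stagec_mainD]
  exact exp_pos _

theorem stagec_big : ∀ᶠ N : ℕ in atTop, ell N ^ (3 / 5 : ℝ) < xc (ell N)⁻¹ ∧
    xc (ell N)⁻¹ + ell N ^ (3 / 5 : ℝ) < N ∧ (N : ℝ) + 1 ≤ ell N * log (ell N) ^ 2 := by
  filter_upwards [eventually_ge_atTop 30,
    (tendsto_log_atTop.comp stagec_ell).eventually_ge_atTop 3] with N hN h1
  have h2 := ell_spec (n := N) (by exact_mod_cast hN)
  have h3 := aell_one (le_ell N)
  have h4 : ell N ^ (3 / 5 : ℝ) ≤ ell N := by
    simpa using rpow_le_rpow_of_exponent_le h3 (show (3 / 5 : ℝ) ≤ 1 by norm_num)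
  have h5 := mul_le_mul_of_nonneg_left h1 (zero_le_one.trans h3)
  have h6 := mul_le_mul_of_nonneg_right h5 (show 0 ≤ log (ell N) from le_trans (by norm_num) h1)
  have h7 := mul_le_mul_of_nonneg_left aell_pi.1 (zero_le_one.trans h3)
  have h8 := mul_le_mul_of_nonneg_left aell_pi.2 (zero_le_one.trans h3)
  rw [xc_inv (by linarith only [h3])]
  simp only [Function.comp_apply] at h5 h6
  exact ⟨by linarith only [h3, h4, h5], by linarith only [h2, h3, h4, h5, h6, h8], by linarith only [h2, h3, h7]⟩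

open scoped Classical in
theorem stagec_gauss : Tendsto (fun N : ℕ => ∑ j ∈ (range N).filter (fun j : ℕ =>
    |(j : ℝ) - xc (ell N)⁻¹| ≤ ell N ^ (3 / 5 : ℝ)),
      exp (-(curv N * ((j : ℝ) - xc (ell N)⁻¹) ^ 2 / 2)) * √(curv N / (2 * π))) atTop (nhds 1) := by
  refine stagec_lim.2 fun ζ hζ => ?_
  obtain ⟨θ, hθ, h⟩ := gauss_sum hζ
  have h1 := (stagec_curv.div_atTop stagec_ell).eventually_le_const hθ
  have h2 := (stagec_curv.pos_mul_atTop one_pos ((tendsto_rpow_atTop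
    (show (0 : ℝ) < 1 / 5 by norm_num)).comp stagec_ell)).eventually_ge_atTop θ⁻¹
  filter_upwards [h1, h2, stagec_curv_pos, stagec_big] with N h1 h2 h3 h4
  have h5 := zero_lt_one.trans_le (aell_one (le_ell N))
  rw [← sum_mul]
  refine h _ _ _ _ h3 (by rwa [mul_div_cancel_right₀ _ h5.ne'] at h1) (rpow_pos_of_pos h5 _)
    (h2.trans_eq ?_) h4.1.le h4.2.1
  rw [Function.comp_apply, mul_assoc, ← rpow_one_add' h5.le (by norm_num), ← rpow_natCast,
    ← rpow_mul h5.le]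
  norm_num

open scoped Classical in
theorem stagec_in {c : ℝ} (hc : 0 < c) (hv : VLim c) :
    Tendsto (fun N : ℕ => (∑ j ∈ (range N).filter (fun j : ℕ =>
    |(j : ℝ) - xc (ell N)⁻¹| ≤ ell N ^ (3 / 5 : ℝ)), PowerSeries.coeff N (PV (j + 1))) / mainD N)
      atTop (nhds (c * exp (3 / 2 * log 2 + π ^ 2 / 6))) := by
  have h := stagec_term hc hv
  have hC : 0 < c * exp (3 / 2 * log 2 + π ^ 2 / 6) := by positivity
  generalize c * exp (3 / 2 * log 2 + π ^ 2 / 6) = C at h hC ⊢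
  suffices h1 : Tendsto (fun N : ℕ => (∑ j ∈ (range N).filter (fun j : ℕ =>
      |(j : ℝ) - xc (ell N)⁻¹| ≤ ell N ^ (3 / 5 : ℝ)), PowerSeries.coeff N (PV (j + 1))) /
        (C * mainD N)) atTop (nhds 1) by
    have h2 := h1.const_mul C
    rw [mul_one] at h2
    exact h2.congr fun N => by field_simp
  refine stagec_lim.2 fun ζ hζ => ?_
  have hη : 0 < min 1 (ζ / 3) := lt_min one_pos (by linarith only [hζ])
  have h1 := min_le_left 1 (ζ / 3)
  have h2 := min_le_right 1 (ζ / 3)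
  generalize min 1 (ζ / 3) = η at hη h1 h2
  filter_upwards [stagec_ev.1 (stagec_lim.1 h η hη), stagec_lim.1 stagec_gauss η hη, stagec_big,
    stagec_curv_pos] with N h3 h4 h5 h6
  have h7 := mul_pos hC (stagec_mainD_pos N)
  have h8 : ∀ j ∈ (range N).filter (fun j : ℕ => |(j : ℝ) - xc (ell N)⁻¹| ≤ ell N ^ (3 / 5 : ℝ)),
      |PowerSeries.coeff N (PV (j + 1)) / (C * mainD N) -
        exp (-(curv N * ((j : ℝ) - xc (ell N)⁻¹) ^ 2 / 2)) * √(curv N / (2 * π))| ≤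
      η * (exp (-(curv N * ((j : ℝ) - xc (ell N)⁻¹) ^ 2 / 2)) * √(curv N / (2 * π))) := by
    clear * - N C η h5 h3 h6
    intro j hj
    have h9 := (mem_filter.1 hj).2
    obtain ⟨L, h10, h11⟩ := exists_xc (L0 := exp 1) (x := j) (one_le_exp zero_le_one)
      (by rw [xc_inv (exp_pos 1), log_exp, sub_self, mul_zero]; exact j.cast_nonneg)
    obtain ⟨B, rfl⟩ : ∃ B, j = B + 1 := by
      refine Nat.exists_eq_succ_of_ne_zero fun h12 => ?_
      rw [h12, Nat.cast_zero, zero_sub, abs_neg] at h9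
      linarith only [h5, h9, le_abs_self (xc (ell N)⁻¹), h5.1]
    have h12 := h3 L B h10 (by rw [h11, Nat.cast_succ]) (by rwa [h11])
    have h13 : 0 < exp (-(curv N * (((B + 1 : ℕ) : ℝ) - xc (ell N)⁻¹) ^ 2 / 2)) *
        √(curv N / (2 * π)) := by positivity
    simp only [h11] at h12
    rwa [← div_div, div_sub_one h13.ne', abs_div, abs_of_pos h13, div_le_iff₀ h13] at h12
  have h9 := (abs_sum_le_sum_abs _ _).trans (sum_le_sum h8)
  rw [sum_sub_distrib, ← sum_div, ← mul_sum] at h9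
  rw [abs_le] at h4 h9 ⊢
  have h10 := mul_le_mul_of_nonneg_left h4.2 hη.le
  have h11 := mul_le_mul_of_nonneg_left h1 hη.le
  constructor <;> linarith only [h2, h4, h9, h10, h11, h4.1, h4.2, h9.1, h9.2]

theorem stagec_nonneg (N b : ℕ) : 0 ≤ PowerSeries.coeff N (PV b) := by
  obtain ⟨L, h1, h2⟩ := exists_xc (L0 := exp 1) (x := b + 1) (one_le_exp zero_le_one)
    (by rw [xc_inv (exp_pos 1), log_exp, sub_self, mul_zero]; positivity)
  exact (ev_PV (L := L) ((one_lt_exp_iff.2 one_pos).trans_le h1) (by rw [h2]; exact lt_add_one _)).1 N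

theorem stagec_small : Tendsto (fun N : ℕ =>
    ((N : ℝ) + 1) * exp (FF N - ell N ^ (1 / 6 : ℝ)) / mainD N) atTop (nhds 0) := by
  have h1 := tendsto_exp_neg_atTop_nhds_zero.comp
    (((tendsto_rpow_atTop (show (0 : ℝ) < 1 / 6 by norm_num)).comp stagec_ell).atTop_div_const
      two_pos)
  refine squeeze_zero' (.of_forall fun N => (div_pos (by positivity) (stagec_mainD_pos N)).le) ?_ h1
  filter_upwards [stagec_big, stagec_ell.eventually ((isLittleO_log_rpow_rpow_atTop 2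
    (show (0 : ℝ) < 1 / 6 by norm_num)).bound (show (0 : ℝ) < 1 / 20 by norm_num))] with N h2 h3
  have h4 := aell_one (le_ell N)
  have h5 := aell_log (le_ell N)
  rw [norm_of_nonneg (rpow_nonneg (zero_le_one.trans h4) _), rpow_two,
    norm_of_nonneg (sq_nonneg _)] at h3
  have h6 : (N : ℝ) + 1 ≤ exp (log (ell N) + 2 * log (log (ell N))) := by
    rw [exp_add, exp_log (by linarith only [h4]), two_mul, exp_add, exp_log (by linarith only [h5]), ← sq]
    exact h2.2.2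
  have h7 := log_le_self (show 0 ≤ log (ell N) by linarith only [h5])
  rw [stagec_mainD, mul_div_assoc, ← exp_sub]
  refine (mul_le_mul_of_nonneg_right h6 (exp_pos _).le).trans ?_
  rw [← exp_add]
  simp only [Function.comp_apply]
  refine exp_le_exp.2 ?_
  linarith only [h3, h5, h7, mul_nonneg_of_nonpos_of_nonpos (Mathlib.Tactic.Linarith.sub_nonpos_of_le h5) (Mathlib.Tactic.Linarith.sub_nonpos_of_le h5)]

theorem stageC_of {c : ℝ} (hc : 0 < c) (hv : VLim c) :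
    Tendsto (fun N : ℕ => (numDag N : ℝ) / (N.factorial * mainD N)) atTop
      (nhds (c * exp (3 / 2 * log 2 + π ^ 2 / 6))) := by
  classical
  have h := stagec_in hc hv
  have h1 : Tendsto (fun N : ℕ => (∑ j ∈ (range N).filter (fun j : ℕ =>
      ¬ |(j : ℝ) - xc (ell N)⁻¹| ≤ ell N ^ (3 / 5 : ℝ)), PowerSeries.coeff N (PV (j + 1)) +
        PowerSeries.coeff N (PV 0)) / mainD N) atTop (nhds 0) := by
    refine squeeze_zero' (.of_forall fun N => div_nonneg (add_nonneg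
      (sum_nonneg fun _ _ => stagec_nonneg _ _) (stagec_nonneg _ _)) (stagec_mainD_pos N).le) ?_
      stagec_small
    filter_upwards [outside, stagec_big] with N h1 h2
    refine div_le_div_of_nonneg_right ?_ (stagec_mainD_pos N).le
    rw [add_mul, one_mul]
    refine add_le_add ((sum_le_card_nsmul _ _ _ fun j hj => h1 (j + 1)
      (mem_range.1 (mem_filter.1 hj).1) ?_).trans ?_) (h1 0 N.zero_le ?_)
    · have h3 := not_le.1 (mem_filter.1 hj).2
      have h4 := abs_sub_abs_le_abs_sub ((j : ℝ) - xc (ell N)⁻¹) (((j + 1 : ℕ) : ℝ) - xc (ell N)⁻¹)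
      rw [sub_sub_sub_cancel_right, Nat.cast_succ, sub_add_cancel_left, abs_neg, abs_one] at h4
      rw [Nat.cast_succ]
      linarith only [h3, h4]
    · rw [nsmul_eq_mul]
      exact mul_le_mul_of_nonneg_right
        (Nat.cast_le.2 ((card_filter_le _ _).trans_eq (card_range N))) (exp_pos _).le
    · rw [Nat.cast_zero, zero_sub, abs_neg]
      linarith only [h2, le_abs_self (xc (ell N)⁻¹), h2.1]
  have h2 := h.add h1
  rw [add_zero] at h2
  refine h2.congr fun N => ?_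
  rw [← add_div, ← add_assoc, sum_filter_add_sum_filter_not, numDag_eq, sum_range_succ',
    mul_div_mul_left _ _ (Nat.cast_ne_zero.2 N.factorial_ne_zero)]

theorem stageC : ∃ C : ℝ, 0 < C ∧
    Tendsto (fun N : ℕ => (numDag N : ℝ) / (N.factorial * mainD N)) atTop (nhds C) := by
  obtain ⟨c, hc, h⟩ := vq_lim
  exact ⟨_, by positivity, stageC_of hc h⟩

theorem mainD_ratio : Tendsto (fun n : ℝ => mainD (n + 1) / (ell n * mainD n)) atTop (nhds 1) := by
  have h1 : Tendsto (fun n : ℝ => ell (n + 1) / ell n) atTop (nhds 1) := by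
    refine tendsto_of_tendsto_of_tendsto_of_le_of_le' tendsto_const_nhds
      (by simpa using (tendsto_inv_atTop_zero.comp tendsto_ell).add_const 1) ?_ ?_
    · refine .of_forall fun n => ?_
      exact (one_le_div (zero_lt_one.trans_le (aell_one (le_ell n)))).2 (ell_mono (by linarith))
    · filter_upwards [eventually_ge_atTop 30] with n hn
      have h1 := ell_sub_le hn (show n ≤ n + 1 by linarith)
      have h2 := zero_lt_one.trans_le (aell_one (le_ell n))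
      rw [div_le_iff₀ h2, add_mul, inv_mul_cancel₀ h2.ne']
      linarith
  have h0 : ∀ n, ell n ≠ 0 := fun n => (zero_lt_one.trans_le (aell_one (le_ell n))).ne'
  have h0' : ∀ n, log (ell n) ≠ 0 := fun n => (two_pos.trans_le (aell_log (le_ell n))).ne'
  have h2 := (stagec_log h1).congr fun n => log_div (h0 _) (h0 _)
  have h3 := (stagec_log (stagec_loglog tendsto_ell h1)).congr fun n => log_div (h0' _) (h0' _)
  have h4 : Tendsto (fun n : ℝ => (log (ell (n + 1)) - log (ell n)) * log (ell n)) atTop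
      (nhds 0) := by
    refine squeeze_zero' (.of_forall fun n => mul_nonneg (sub_nonneg.2 (log_le_log
      (zero_lt_one.trans_le (aell_one (le_ell n))) (ell_mono (by linarith))))
      (log_nonneg (aell_one (le_ell n)))) ?_
      (isLittleO_log_id_atTop.tendsto_div_nhds_zero.comp tendsto_ell)
    filter_upwards [eventually_ge_atTop 30] with n hn
    have h4 := ell_sub_le hn (show n ≤ n + 1 by linarith)
    have h5 := zero_lt_one.trans_le (aell_one (le_ell n))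
    have h6 := log_le_sub_one_of_pos (div_pos (zero_lt_one.trans_le (aell_one (le_ell (n + 1)))) h5)
    rw [log_div (h0 _) (h0 _), div_sub_one (h0 n)] at h6
    rw [Function.comp_apply, id, div_eq_inv_mul, ← one_div]
    exact mul_le_mul_of_nonneg_right (h6.trans (div_le_div_of_nonneg_right (by linarith) h5.le))
      (log_nonneg (aell_one (le_ell n)))
  have h5 : Tendsto (fun n : ℝ => FF (n + 1) - FF n - log (ell n)) atTop (nhds 0) := by
    refine stagec_lim.2 fun ζ hζ => ?_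
    filter_upwards [FF_incr hζ, h2.eventually_le_const hζ, eventually_ge_atTop 30] with n h5 h6 hn
    have h7 := h5 (n + 1) (by linarith)
    have h8 := FF_step hn (show n ≤ n + 1 by linarith)
    rw [sub_zero, abs_le]
    constructor <;> linarith only [h7, h6, h8]
  have h6 := (((h5.sub ((h4.const_mul 2).add (h2.mul h2))).sub (h2.const_mul (5 / 3))).sub
    (h3.const_mul 4)).rexp
  simp only [mul_zero, add_zero, sub_zero, exp_zero] at h6
  refine h6.congr fun n => ?_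
  rw [stagec_mainD, stagec_mainD, eq_div_iff (mul_ne_zero (h0 n) (exp_ne_zero _)), mul_left_comm,
    ← exp_add, ← exp_log (zero_lt_one.trans_le (aell_one (le_ell n))), ← exp_add, log_exp]
  congr 1
  ring

end Pool.Agent.Work.MP_5391ad_co
end

-- merged part: Pool.Agent.Work.MP_5391ad_co.SEv
section
/-! The events of the acyclic core which stage B needs; definitions in `TDef`.
`heldA_le`, `heldB_le`: `held_le` with `(a, θ) = (9/10, 6/10)` and `(1/10, 97/100)`.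
`tree_window`, `tree_small`: `rtree_card`, `snk_le` (`N^(1/2) ≤ ε' lam N`), `tree_big`, `tree_low`
(`θ = 31/100`, `δ = 1/100` for `tree_small`), `rare_le`.
`numDag_ratio`: `stageC` at `N` and `N + 1`, `mainD_ratio`. -/

namespace Pool.Agent.Work.MP_5391ad_co

open Finset Filter Real
open scoped Classical

theorem sev_card {β : Type*} (s : Finset β) {p p1 p2 p3 : β → Prop} {_ : DecidablePred p}
    {_ : DecidablePred p1} {_ : DecidablePred p2} {_ : DecidablePred p3}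
    (h : ∀ x ∈ s, p x → p1 x ∨ p2 x ∨ p3 x) :
    ((s.filter p).card : ℝ) ≤ (s.filter p1).card + (s.filter p2).card + (s.filter p3).card := by
  have h1 : s.filter p ⊆ (s.filter p1 ∪ s.filter p2) ∪ s.filter p3 := by
    intro x hx
    obtain ⟨h2, h3⟩ := mem_filter.1 hx
    rcases h x h2 h3 with h4 | h4 | h4
    · exact mem_union_left _ (mem_union_left _ (mem_filter.2 ⟨h2, h4⟩))
    · exact mem_union_left _ (mem_union_right _ (mem_filter.2 ⟨h2, h4⟩))
    · exact mem_union_right _ (mem_filter.2 ⟨h2, h4⟩)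
  have h2 := (card_le_card h1).trans ((card_union_le _ _).trans
    (Nat.add_le_add_right (card_union_le _ _) _))
  exact_mod_cast h2

theorem sev_pow {a b e : ℝ} (hab : a < b) (he : 0 < e) :
    ∀ᶠ N : ℕ in atTop, (N : ℝ) ^ a ≤ e * (N : ℝ) ^ b := by
  have h := ((tendsto_rpow_neg_atTop (sub_pos.2 hab)).comp
    (tendsto_natCast_atTop_atTop (R := ℝ))).eventually (ge_mem_nhds he)
  filter_upwards [h, eventually_gt_atTop 0] with N h1 h2
  have h3 : (0 : ℝ) < N := by exact_mod_cast h2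
  have h4 : (N : ℝ) ^ a = (N : ℝ) ^ (-(b - a)) * (N : ℝ) ^ b := by
    rw [← rpow_add h3]
    exact congrArg _ (by ring)
  rw [h4]
  exact mul_le_mul_of_nonneg_right h1 (rpow_nonneg h3.le _)

theorem sev_sqrt {e : ℝ} (he : 0 < e) :
    ∀ᶠ N : ℕ in atTop, (N : ℝ) ^ (1 / 2 : ℝ) ≤ e * lam N := by
  have h := (tendsto_natCast_atTop_atTop (R := ℝ)).eventually
    ((isLittleO_log_rpow_atTop (show (0 : ℝ) < 1 / 2 by norm_num)).bound he)
  filter_upwards [h, eventually_gt_atTop 1] with N h1 h2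
  have h3 : (1 : ℝ) < N := by exact_mod_cast h2
  have h4 := log_pos h3
  have h5 : (0 : ℝ) ≤ (N : ℝ) ^ (1 / 2 : ℝ) := rpow_nonneg (by linarith only [h3]) _
  rw [norm_of_nonneg h4.le, norm_of_nonneg h5] at h1
  have h6 : (N : ℝ) ^ (1 / 2 : ℝ) * (N : ℝ) ^ (1 / 2 : ℝ) = N := by
    rw [← rpow_add (by linarith only [h3])]
    norm_num
  rw [lam, ← mul_div_assoc, le_div_iff₀ h4]
  calc (N : ℝ) ^ (1 / 2 : ℝ) * log N ≤ (N : ℝ) ^ (1 / 2 : ℝ) * (e * (N : ℝ) ^ (1 / 2 : ℝ)) :=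
        mul_le_mul_of_nonneg_left h1 h5
    _ = e * N := by rw [mul_left_comm, h6]

theorem sev_low {α : Type} [Fintype α] {W : Finset α} {Δ : α → α → Prop} (h : Δ ∈ dags W)
    {x y : ℝ} (h1 : ((rtree W Δ).card : ℝ) ≤ x) :
    ((rootT W Δ).card : ℝ) ≤ x + y ∨ y ≤ nsrc W (rv Δ) := by
  have h2 : ((rootT W Δ).card : ℝ) ≤ (rtree W Δ).card + nsrc W (rv Δ) := by
    exact_mod_cast (rtree_card (mem_filter.1 h).2).2
  rcases le_total y (nsrc W (rv Δ)) with h3 | h3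
  · exact Or.inr h3
  · exact Or.inl (by linarith)

theorem sev_main (n : ℝ) : 0 < ell n ∧ 0 < mainD n := by
  have h1 : 0 < ell n := (exp_pos 2).trans_le (le_ell n)
  have h2 : 0 < log (ell n) := two_pos.trans_le (aell_log (le_ell n))
  exact ⟨h1, mul_pos (mul_pos (exp_pos _) (rpow_pos_of_pos h1 _)) (rpow_pos_of_pos h2 _)⟩

theorem heldA_le : ∀ᶠ N : ℕ in atTop, ∀ (α : Type) [Fintype α] (W : Finset α), W.card = N →
    (((dags W).filter (HeldA W)).card : ℝ) ≤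
      exp (-(N : ℝ) ^ (1 / 50 : ℝ)) * (N.factorial * exp (FF N)) := by
  filter_upwards [held_le (a := 9 / 10) (θ := 6 / 10) (δ := 3 / 10) (c := 1 / 50) (by norm_num)
    (by norm_num) (by norm_num) (by norm_num) (by norm_num)] with N h α _ W hW
  refine le_trans (Nat.cast_le.2 (card_le_card fun Δ hΔ => ?_)) (h α W hW)
  obtain ⟨h1, q, hq, -, h2⟩ := mem_filter.1 hΔ
  rw [hW] at h2
  exact mem_filter.2 ⟨h1, q, hq, h2⟩

theorem heldB_le : ∀ᶠ N : ℕ in atTop, ∀ (α : Type) [Fintype α] (W : Finset α), W.card = N →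
    (((dags W).filter (HeldB W)).card : ℝ) ≤
      exp (-(N : ℝ) ^ (1 / 50 : ℝ)) * (N.factorial * exp (FF N)) := by
  filter_upwards [held_le (a := 1 / 10) (θ := 97 / 100) (δ := 97 / 100) (c := 1 / 50)
    (by norm_num) (by norm_num) (by norm_num) (by norm_num) (by norm_num)] with N h α _ W hW
  refine le_trans (Nat.cast_le.2 (card_le_card fun Δ hΔ => ?_)) (h α W hW)
  obtain ⟨h1, q, hq, -, h2, h3⟩ := mem_filter.1 hΔ
  rw [hW] at h2 h3
  exact mem_filter.2 ⟨h1, q, hq, h2, h3, h3.trans (le_add_of_nonneg_right (Nat.cast_nonneg _))⟩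

theorem tree_window {ε δ : ℝ} (hε : 0 < ε) (hδ : 0 < δ) : ∀ᶠ N : ℕ in atTop,
    ∀ (α : Type) [Fintype α] (W : Finset α), W.card = N →
    (((dags W).filter fun Δ => ((rtree W Δ).card : ℝ) ≤ (1 / 2 - ε) * lam N ∨
      (1 / 2 + ε) * lam N ≤ (rtree W Δ).card).card : ℝ) ≤ δ * numDag N := by
  have hc0 : 0 < min ε (1 / 8) := lt_min hε (by norm_num)
  have hc1 := min_le_left ε (1 / 8)
  have hc2 := min_le_right ε (1 / 8)
  have hd : 0 < δ / 4 := by linarith only [hδ]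
  filter_upwards [tree_low (θ := 1 / 2 - ε / 2) (δ := min ε (1 / 8) / 4) (by linarith only [hε])
      (by linarith only [hc0]), snk_le (c := 1 / 2) (by norm_num),
    tree_big (ε := ε) hc0 (by linarith only [hc0, hc2]) (by linarith only [hε, hc1]),
    rare_le (c := 1 / 2) (a := 1) (by norm_num), rare_le (a := 1) hc0,
    sev_sqrt (half_pos hε),
    sev_pow (a := 1 / 2 - ε / 2 - 1 / 2 + min ε (1 / 8) / 4) (b := 0) (by linarith only [hε, hc1]) hd,
    sev_pow (a := -(1 / 8) + min ε (1 / 8) / 4) (b := 0) (by linarith only [hc0, hc2]) hd,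
    sev_pow (a := -1) (b := 0) (by norm_num) hd] with N h1 h2 h3 r1 r2 s1 p1 p2 p3 α _ W hW
  rw [rpow_zero, mul_one] at p1 p2 p3
  have h0 : (0 : ℝ) ≤ numDag N := Nat.cast_nonneg _
  refine (sev_card _ fun Δ hΔ h => ?_).trans ((add_le_add (add_le_add (h1 α W hW)
    ((h2 α W hW).trans r1)) ((h3 α W hW).trans r2)).trans ?_)
  · rcases h with h | h
    · rcases sev_low hΔ (y := (N : ℝ) ^ (1 / 2 : ℝ)) h with h4 | h4
      · exact Or.inl (by clear * - α W Δ ε N s1 h4; linarith only [s1, h4])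
      · exact Or.inr (Or.inl h4)
    · exact Or.inr (Or.inr (h.trans (Nat.cast_le.2 (rtree_card (mem_filter.1 hΔ).2).1)))
  · rw [← add_mul, ← add_mul]
    exact mul_le_mul_of_nonneg_right (by clear * - N ε δ p1 p2 p3 h0; linarith only [p1, p2, p3]) h0

theorem tree_small : ∀ᶠ N : ℕ in atTop, ∀ (α : Type) [Fintype α] (W : Finset α), W.card = N →
    (((dags W).filter fun Δ => ((rtree W Δ).card : ℝ) ≤ 3 / 10 * lam N).card : ℝ) ≤
      (N : ℝ) ^ (-(1 / 10) : ℝ) * numDag N := by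
  have hd : (0 : ℝ) < 1 / 4 := by norm_num
  filter_upwards [tree_low (θ := 31 / 100) (δ := 1 / 100) (by norm_num) (by norm_num),
    snk_le (c := 1 / 2) (by norm_num), rare_le (c := 1 / 2) (a := 1) (by norm_num),
    sev_sqrt (e := 1 / 100) (by norm_num),
    sev_pow (a := 31 / 100 - 1 / 2 + 1 / 100) (b := -(1 / 10)) (by norm_num) hd,
    sev_pow (a := -(1 / 8) + 1 / 100) (b := -(1 / 10)) (by norm_num) hd,
    sev_pow (a := -1) (b := -(1 / 10)) (by norm_num) hd] with N h1 h2 r1 s1 p1 p2 p3 α _ W hW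
  have h0 : (0 : ℝ) ≤ numDag N := Nat.cast_nonneg _
  refine (sev_card _ fun Δ hΔ h => ?_).trans ((add_le_add (add_le_add (h1 α W hW)
    ((h2 α W hW).trans r1)) ((h2 α W hW).trans r1)).trans ?_)
  · rcases sev_low hΔ (y := (N : ℝ) ^ (1 / 2 : ℝ)) h with h4 | h4
    · exact Or.inl (by clear * - α W Δ N s1 h4; linarith only [s1, h4])
    · exact Or.inr (Or.inl h4)
  · rw [← add_mul, ← add_mul]
    exact mul_le_mul_of_nonneg_right (by clear * - N p1 p2 p3 h0; linarith only [p1, p2, p3]) h0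

theorem numDag_ratio {δ : ℝ} (hδ : 0 < δ) : ∀ᶠ N : ℕ in atTop,
    (numDag N : ℝ) * ((N + 1) * ell N) ≤ (1 + δ) * numDag (N + 1) := by
  obtain ⟨C, hC, h⟩ := stageC
  have h1 := h.comp (tendsto_add_atTop_nat 1)
  have h2 := mainD_ratio.comp (tendsto_natCast_atTop_atTop (R := ℝ))
  have h3 := ((h1.mul h2).const_mul (1 + δ)).sub h
  have h4 : 0 < (1 + δ) * (C * 1) - C := by
    have := mul_pos hδ hC
    linarith
  filter_upwards [h3.eventually (lt_mem_nhds h4)] with N hN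
  simp only [Function.comp_apply, Nat.factorial_succ, Nat.cast_mul, Nat.cast_add,
    Nat.cast_one] at hN
  obtain ⟨e0, m0⟩ := sev_main N
  have m1 := (sev_main (N + 1)).2
  have f0 : (0 : ℝ) < N.factorial := by exact_mod_cast N.factorial_pos
  have n0 : (0 : ℝ) < N + 1 := by positivity
  have h5 := mul_le_mul_of_nonneg_right (sub_pos.1 hN).le
    (show 0 ≤ N.factorial * mainD N * ((N + 1) * ell N) by positivity)
  refine le_of_eq_of_le ?_ (h5.trans_eq ?_)
  · field_simp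
  · field_simp

end Pool.Agent.Work.MP_5391ad_co
end

-- merged part: Pool.Agent.Work.MP_5391ad_co.SHS
section
/-! The event `HS` is close to `HeldA` or `HeldB`.
`card_close`: `Δ` is determined by `Δ'` and the two difference sets, subsets of `W ×ˢ W` with at
most `r` elements; there are at most `(N^2 + 1)^r` of those (`∑_{i ≤ r} C(a, i) ≤ (a+1)^r`).
`hs_close`: add the sources to `Q` (`|Q| ≤ 41 k`), choose `e ∈ J` (`J` is not empty), and let
`Δ' u v := (Δ u v ∧ v ∉ Q ∧ u ≠ e ∧ v ≠ e) ∨ (u = e ∧ v ∈ Q ∩ Z)`. This is a `dag` (give `e` rank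
zero), `e` is a source, `RN W Δ ⊆ RN W Δ'`. Every `v ∈ Z` is dominated by `e`: going back along a
walk which avoids `e` we stay in `Z`, and no vertex of `Z` is a source of `Δ'`. No vertex of
`J \ {e}` is a descendant of `e`. At most `41 k^2 + 2 k` arcs are removed, at most `41 k` added.
`hs_le`: `r = 50 k^2 ≤ 450 N^(1/500)`, `2 r log (N^2 + 1) + log 2 ≤ N^(1/50) / 2` eventually. -/

namespace Pool.Agent.Work.MP_5391ad_co

open Finset Filter Real
open scoped Classical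

variable {α : Type*} [Fintype α]

/-- `Δ` has at most `r` arcs which are not in `Δ'` -/
def Few (r : ℕ) (Δ Δ' : α → α → Prop) : Prop :=
  (univ.filter fun p : α × α => Δ p.1 p.2 ∧ ¬ Δ' p.1 p.2).card ≤ r

theorem shs_mem {β : Type*} {s : Finset β} {p : β → Prop} {_ : DecidablePred p} {x : β} :
    x ∈ s.filter p ↔ x ∈ s ∧ p x := mem_filter

theorem shs_small {β : Type*} (s : Finset β) (r : ℕ) :
    (s.powerset.filter fun A => A.card ≤ r).card ≤ (s.card + 1) ^ r := by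
  induction r with
  | zero =>
    rw [pow_zero]
    refine card_le_one.2 fun A hA B hB => ?_
    rw [card_eq_zero.1 (Nat.le_zero.1 (shs_mem.1 hA).2),
      card_eq_zero.1 (Nat.le_zero.1 (shs_mem.1 hB).2)]
  | succ r ih =>
    have h1 : (s.powerset.filter fun A => A.card ≤ r + 1) ⊆
        (s.biUnion fun x => (s.powerset.filter fun A => A.card ≤ r).image (insert x)) ∪
          s.powerset.filter fun A => A.card ≤ r := by
      intro A hA
      obtain ⟨h2, h3⟩ := shs_mem.1 hA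
      by_cases h4 : A.card ≤ r
      · exact mem_union_right _ (shs_mem.2 ⟨h2, h4⟩)
      · obtain ⟨x, hx⟩ : A.Nonempty := card_pos.1 (by omega)
        refine mem_union_left _ (mem_biUnion.2 ⟨x, mem_powerset.1 h2 hx,
          mem_image.2 ⟨A.erase x, shs_mem.2 ⟨mem_powerset.2
            ((erase_subset _ _).trans (mem_powerset.1 h2)), ?_⟩, insert_erase hx⟩⟩)
        rw [card_erase_of_mem hx]
        omega
    have h2 := card_biUnion_le_card_mul s
      (fun x => (s.powerset.filter fun A => A.card ≤ r).image (insert x)) _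
      fun x _ => card_image_le.trans ih
    refine (card_le_card h1).trans ((card_union_le _ _).trans ((Nat.add_le_add h2 ih).trans ?_))
    rw [pow_succ]
    exact le_of_eq (by ring)

theorem card_close (W : Finset α) (r : ℕ) (E : (α → α → Prop) → Prop) :
    ((dags W).filter fun Δ => ∃ Δ' ∈ dags W, E Δ' ∧ Few r Δ Δ' ∧ Few r Δ' Δ).card ≤
      (W.card ^ 2 + 1) ^ (2 * r) * ((dags W).filter E).card := by
  set T := (W ×ˢ W).powerset.filter fun A => A.card ≤ r with hT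
  have h1 : T.card ≤ (W.card ^ 2 + 1) ^ r := by
    have h2 := shs_small (W ×ˢ W) r
    rwa [card_product, ← sq] at h2
  have h3 : ((dags W).filter fun Δ => ∃ Δ' ∈ dags W, E Δ' ∧ Few r Δ Δ' ∧ Few r Δ' Δ) ⊆
      ((T ×ˢ T) ×ˢ (dags W).filter E).image
        fun q u v => (u, v) ∈ q.1.1 ∨ (q.2 u v ∧ (u, v) ∉ q.1.2) := by
    intro Δ hΔ
    obtain ⟨h4, Δ', h5, h6, h7, h8⟩ := shs_mem.1 hΔ
    have k : ∀ D D' : α → α → Prop, D ∈ dags W → Few r D D' →
        (univ.filter fun p : α × α => D p.1 p.2 ∧ ¬ D' p.1 p.2) ∈ T := fun D D' hD hF => by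
      refine shs_mem.2 ⟨mem_powerset.2 fun p hp => ?_, hF⟩
      exact mem_product.2 ((shs_mem.1 hD).2.mem _ _ (shs_mem.1 hp).2.1)
    refine mem_image.2 ⟨((univ.filter fun p : α × α => Δ p.1 p.2 ∧ ¬ Δ' p.1 p.2,
      univ.filter fun p : α × α => Δ' p.1 p.2 ∧ ¬ Δ p.1 p.2), Δ'), mem_product.2
      ⟨mem_product.2 ⟨k _ _ h4 h7, k _ _ h5 h8⟩, shs_mem.2 ⟨h5, h6⟩⟩, ?_⟩
    funext u v
    simp only [mem_filter, mem_univ, true_and, eq_iff_iff]
    tauto
  refine (card_le_card h3).trans (card_image_le.trans ?_)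
  rw [card_product, card_product, two_mul, pow_add]
  exact Nat.mul_le_mul_right _ (Nat.mul_le_mul h1 h1)

theorem hs_close {W : Finset α} {Δ : α → α → Prop} {k : ℕ} (h : IsDag W Δ) (hs : HS k W Δ)
    (h1 : nsrc W Δ < k) (h2 : ∀ u, odeg W Δ u < k) (h3 : ∀ u, odeg W (rv Δ) u < k) :
    ∃ Δ' ∈ dags W, (HeldA W Δ' ∨ HeldB W Δ') ∧ Few (50 * k ^ 2) Δ Δ' ∧ Few (50 * k ^ 2) Δ' Δ := by
  obtain ⟨Z, hZ, J, hJ, Q0, hd, hQ0, cZ, cJ, hcase⟩ := hs
  have hl : 0 ≤ lam W.card := div_nonneg (Nat.cast_nonneg _) (log_natCast_nonneg _)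
  obtain ⟨e, he⟩ : (J ∩ RN W Δ).Nonempty := by
    clear * - α J W Δ Z hcase hl
    rw [← card_pos]
    have h4 : (0 : ℝ) < (J ∩ RN W Δ).card := by
      rcases hcase with h4 | h4
      · linarith only [hl, h4, h4.2.1]
      · linarith only [hl, h4, h4.2]
    exact_mod_cast h4
  have heJ : e ∈ J := (mem_inter.1 he).1
  have heZ : e ∉ Z := disjoint_right.1 hd heJ
  obtain ⟨Q1, hq1, hq2⟩ : ∃ Q1 : Finset α, Q1.card < k ∧ ∀ v ∈ W, (∀ w, ¬ Δ w v) → v ∈ Q1 :=
    ⟨_, h1, fun v hv h4 => shs_mem.2 ⟨hv, h4⟩⟩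
  set Q := Q0 ∪ Q1 with hQ
  have hQc : Q.card ≤ 41 * k := (card_union_le Q0 Q1).trans (by omega)
  have hQ1 : ∀ v, v ∉ Q → v ∉ Q0 := fun v hv h4 => hv (mem_union_left _ h4)
  have hQ2 : ∀ v ∈ W, v ∉ Q → ∃ w, Δ w v := fun v hv h4 => by
    by_contra h5
    exact h4 (mem_union_right _ (hq2 v hv fun w hw => h5 ⟨w, hw⟩))
  clear_value Q
  set Δ' : α → α → Prop :=
    fun u v => (Δ u v ∧ v ∉ Q ∧ u ≠ e ∧ v ≠ e) ∨ (u = e ∧ v ∈ Q ∧ v ∈ Z) with hΔ'
  have hD : ∀ u v, Δ' u v ↔ (Δ u v ∧ v ∉ Q ∧ u ≠ e ∧ v ≠ e) ∨ (u = e ∧ v ∈ Q ∧ v ∈ Z) :=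
    fun _ _ => Iff.rfl
  clear_value Δ'
  have hdag : IsDag W Δ' := by
    refine ⟨fun a b hab => ?_, ?_, fun u v huv => ?_⟩
    · rcases (hD _ _).1 hab with h4 | ⟨rfl, -, h4⟩
      · exact h.mem _ _ h4.1
      · exact ⟨hJ heJ, hZ h4⟩
    · obtain ⟨rk, hrk⟩ := h.acyc
      refine ⟨fun a => if a = e then 0 else rk a + 1, fun a b hab => ?_⟩
      rcases (hD _ _).1 hab with ⟨h4, -, h5, h6⟩ | ⟨h4, -, h5⟩
      · simp only [if_neg h5, if_neg h6]
        exact Nat.succ_lt_succ (hrk _ _ h4)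
      · have h6 : b ≠ e := fun h6 => heZ (h6 ▸ h5)
        simp only [if_pos h4, if_neg h6]
        exact Nat.succ_pos _
    · rcases (hD _ _).1 huv with ⟨h4, h5, h6, -⟩ | ⟨h4, h5, -⟩
      · rcases h.rule u v h4 with h7 | h7
        · refine Or.inl fun w hw => ?_
          rcases (hD _ _).1 hw with h8 | h8
          · exact h7 w h8.1
          · exact (h6 h8.1).elim
        · refine Or.inr fun w hw => ?_
          rcases (hD _ _).1 hw with h8 | h8
          · exact h7 w h8.1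
          · exact (h5 h8.2.1).elim
      · refine Or.inr fun w hw => ?_
        rcases (hD _ _).1 hw with h8 | h8
        · exact (h8.2.1 h5).elim
        · exact h8.1.trans h4.symm
  have hsrc : ∀ w, ¬ Δ' w e := fun w hw => by
    rcases (hD _ _).1 hw with h4 | h4
    · exact h4.2.2.2 rfl
    · exact heZ h4.2.2
  have hRN : RN W Δ ⊆ RN W Δ' := fun u hu => by
    obtain ⟨h4, h5⟩ := shs_mem.1 hu
    refine shs_mem.2 ⟨h4, fun v huv ⟨a, a', h6, h7, h8⟩ => ?_⟩
    rcases (hD _ _).1 h7 with h9 | h9 <;> rcases (hD _ _).1 h8 with h10 | h10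
    · rcases (hD _ _).1 huv with h11 | h11
      · exact h5 v h11.1 ⟨a, a', h6, h9.1, h10.1⟩
      · exact h9.2.1 h11.2.1
    · exact h9.2.1 h10.2.1
    · exact h10.2.1 h9.2.1
    · exact h6 (h9.1.trans h10.1.symm)
  have hdom : ∀ v ∈ Z, DomD W Δ' e v := fun v hv => by
    refine ⟨fun h4 => heZ (h4 ▸ hv), fun r hr h4 h0 => ?_⟩
    obtain ⟨h5, h6⟩ := h0
    have h7 : r ∈ Z := by
      induction h6 with
      | refl => exact hv
      | tail h8 h9 ih =>
        refine ih ?_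
        rcases (hD _ _).1 h9.1 with h10 | h10
        · exact cZ _ hv (hQ1 _ h10.2.1) _ h10.1
        · exact (Av.not_mem_right ⟨h5, h8⟩ h10.1).elim
    by_cases h8 : r ∈ Q
    · exact h4 e ((hD _ _).2 (Or.inr ⟨rfl, h8, h7⟩))
    · obtain ⟨w, hw⟩ := hQ2 r hr h8
      have h9 := cZ r h7 (hQ1 _ h8) w hw
      exact h4 w ((hD _ _).2 (Or.inl ⟨hw, h8, fun h10 => heZ (h10 ▸ h9), h5⟩))
  have hfree : ∀ v, Relation.ReflTransGen Δ' e v → v ∈ J → v = e := fun v hv => by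
    induction hv with
    | refl => exact fun _ => rfl
    | tail _ h5 ih =>
      intro h6
      rcases (hD _ _).1 h5 with h7 | h7
      · exact (h7.2.2.1 (ih (cJ _ h6 (hQ1 _ h7.2.1) _ h7.1))).elim
      · exact (disjoint_left.1 hd h7.2.2 h6).elim
  have k1 : ((Z ∩ RN W Δ).card : ℝ) ≤ domR W Δ' e := by
    refine Nat.cast_le.2 (card_le_card fun v hv => ?_)
    exact shs_mem.2 ⟨hRN (mem_inter.1 hv).2, hdom v (mem_inter.1 hv).1⟩
  have k2 : ((J ∩ RN W Δ).card : ℝ) ≤ freeR W Δ' e + 1 := by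
    have h4 : ((J ∩ RN W Δ).erase e).card ≤ freeR W Δ' e := by
      refine card_le_card fun v hv => ?_
      obtain ⟨h5, h6⟩ := mem_erase.1 hv
      exact shs_mem.2 ⟨hRN (mem_inter.1 h6).2, fun h7 => h5 (hfree v h7 (mem_inter.1 h6).1)⟩
    have h5 := card_erase_add_one he
    have h6 : (J ∩ RN W Δ).card ≤ freeR W Δ' e + 1 := by omega
    exact_mod_cast h6
  have hk : 1 ≤ k := by omega
  refine ⟨Δ', shs_mem.2 ⟨mem_univ _, hdag⟩, ?_, ?_, ?_⟩
  · rcases hcase with ⟨h4, h5, h6⟩ | ⟨h4, h5⟩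
    · exact Or.inl ⟨e, hJ heJ, hsrc, by linarith only [k1, h4], by linarith only [k2, h5], by linarith only [k1, k2, h6]⟩
    · exact Or.inr ⟨e, hJ heJ, hsrc, by linarith only [k1, h4], by linarith only [k2, h5]⟩
  · have h4 : (univ.filter fun p : α × α => Δ p.1 p.2 ∧ ¬ Δ' p.1 p.2) ⊆
        ((insert e Q).biUnion fun v => (W.filter (rv Δ v)).image fun u => (u, v)) ∪
          (W.filter (Δ e)).image fun v => (e, v) := by
      rintro ⟨u, v⟩ hp
      obtain ⟨h5, h6⟩ := (shs_mem.1 hp).2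
      have h7 := h.mem _ _ h5
      by_cases h8 : u = e
      · subst h8
        exact mem_union_right _ (mem_image.2 ⟨v, shs_mem.2 ⟨h7.2, h5⟩, rfl⟩)
      · refine mem_union_left _ (mem_biUnion.2 ⟨v, ?_,
          mem_image.2 ⟨u, shs_mem.2 ⟨h7.1, h5⟩, rfl⟩⟩)
        by_contra h9
        rw [mem_insert, not_or] at h9
        exact h6 ((hD _ _).2 (Or.inl ⟨h5, h9.2, h8, h9.1⟩))
    have h5 : ((insert e Q).biUnion fun v => (W.filter (rv Δ v)).image fun u => (u, v)).card ≤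
        (insert e Q).card * k :=
      card_biUnion_le_card_mul _ _ _ fun v _ => card_image_le.trans (h3 v).le
    have h6 : ((W.filter (Δ e)).image fun v => (e, v)).card ≤ k := card_image_le.trans (h2 e).le
    have h7 : (insert e Q).card * k ≤ (41 * k + 1) * k :=
      Nat.mul_le_mul_right _ ((card_insert_le _ _).trans (by omega))
    refine (card_le_card h4).trans ((card_union_le _ _).trans ?_)
    clear * - α e Q Δ W k h1 h5 h6 h7
    nlinarith only [h1, h5, h6, h7]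
  · have h4 : (univ.filter fun p : α × α => Δ' p.1 p.2 ∧ ¬ Δ p.1 p.2) ⊆
        Q.image fun v => (e, v) := by
      rintro ⟨u, v⟩ hp
      obtain ⟨h5, h6⟩ := (shs_mem.1 hp).2
      rcases (hD _ _).1 h5 with h7 | h7
      · exact (h6 h7.1).elim
      · exact mem_image.2 ⟨v, h7.2.1, Prod.ext h7.1.symm rfl⟩
    refine (card_le_card h4).trans (card_image_le.trans ?_)
    clear * - α Q k W Δ h1 hQc
    nlinarith only [h1, hQc]

theorem hs_le : ∀ᶠ N : ℕ in atTop, ∀ (α : Type) [Fintype α] (W : Finset α), W.card = N →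
    ∀ k : ℕ, (k : ℝ) ≤ 3 * (N : ℝ) ^ (1 / 1000 : ℝ) →
    (((dags W).filter fun Δ => HS k W Δ ∧ nsrc W Δ < k ∧ (∀ u, odeg W Δ u < k) ∧
      ∀ u, odeg W (rv Δ) u < k).card : ℝ) ≤
      exp (-(N : ℝ) ^ (1 / 50 : ℝ) / 2) * (N.factorial * exp (FF N)) := by
  filter_upwards [heldA_le, heldB_le, eventually_ge_atTop 2,
    sev_pow (a := 12 / 1000) (b := 1 / 50) (e := 1 / 540002) (by norm_num) (by norm_num)]
    with N hA hB h2 hp α _ W hW k hk
  have hN : (2 : ℝ) ≤ N := by exact_mod_cast h2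
  have h1 : ((dags W).filter fun Δ => HS k W Δ ∧ nsrc W Δ < k ∧ (∀ u, odeg W Δ u < k) ∧
      ∀ u, odeg W (rv Δ) u < k).card ≤ (N ^ 2 + 1) ^ (2 * (50 * k ^ 2)) *
        (((dags W).filter (HeldA W)).card + ((dags W).filter (HeldB W)).card) := by
    have h3 := card_close W (50 * k ^ 2) fun Δ => HeldA W Δ ∨ HeldB W Δ
    rw [hW] at h3
    refine le_trans (card_le_card fun Δ hΔ => ?_) (h3.trans (Nat.mul_le_mul_left _ ?_))
    · obtain ⟨h4, h5, h6, h7, h8⟩ := shs_mem.1 hΔ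
      exact shs_mem.2 ⟨h4, hs_close (shs_mem.1 h4).2 h5 h6 h7 h8⟩
    · refine le_trans (card_le_card fun Δ hΔ => ?_) (card_union_le _ _)
      obtain ⟨h4, h5 | h5⟩ := shs_mem.1 hΔ
      · exact mem_union_left _ (shs_mem.2 ⟨h4, h5⟩)
      · exact mem_union_right _ (shs_mem.2 ⟨h4, h5⟩)
  have h3 : (k : ℝ) ^ 2 ≤ 9 * (N : ℝ) ^ (2 / 1000 : ℝ) := by
    clear * - N hN k hk
    have h4 : (N : ℝ) ^ (2 / 1000 : ℝ) = ((N : ℝ) ^ (1 / 1000 : ℝ)) ^ 2 := by
      rw [sq, ← rpow_add (by linarith only [hN])]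
      norm_num
    rw [h4]
    have h5 := pow_le_pow_left₀ (Nat.cast_nonneg k) hk 2
    linarith only [h5, mul_pow (3 : ℝ) ((N : ℝ) ^ (1 / 1000 : ℝ)) 2]
  have h4 : (N : ℝ) ^ 2 + 1 ≤ exp (300 * (N : ℝ) ^ (1 / 100 : ℝ)) := by
    clear * - N hN
    have h5 := log_le_rpow_div (x := N) (ε := 1 / 100) (by linarith) (by norm_num)
    have h6 : (N : ℝ) ^ 3 = exp (3 * log N) := by
      rw [show (3 : ℝ) * log N = ((3 : ℕ) : ℝ) * log N by norm_num, exp_nat_mul,
        exp_log (by linarith only [hN])]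
    have h7 : (N : ℝ) ^ 2 + 1 ≤ (N : ℝ) ^ 3 := by linarith only [hN, mul_nonneg_of_nonpos_of_nonpos (Mathlib.Tactic.Linarith.sub_nonpos_of_le (sq_nonneg ↑N)) (Mathlib.Tactic.Linarith.sub_nonpos_of_le hN), mul_nonneg_of_nonpos_of_nonpos (Mathlib.Tactic.Linarith.sub_nonpos_of_le (Mathlib.Tactic.Linarith.natCast_nonneg ℝ N)) (Mathlib.Tactic.Linarith.sub_nonpos_of_le hN)]
    refine h7.trans (h6.trans_le (exp_le_exp.2 ?_))
    linarith only [h5]
  have h5 : (N : ℝ) ^ (2 / 1000 : ℝ) * (N : ℝ) ^ (1 / 100 : ℝ) = (N : ℝ) ^ (12 / 1000 : ℝ) := by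
    rw [← rpow_add (by linarith only [hN])]
    norm_num
  have h6 : (1 : ℝ) ≤ (N : ℝ) ^ (12 / 1000 : ℝ) := one_le_rpow (by linarith only [hN]) (by norm_num)
  have h7 : ((N : ℝ) ^ 2 + 1) ^ (2 * (50 * k ^ 2)) * 2 ≤ exp ((N : ℝ) ^ (1 / 50 : ℝ) / 2) := by
    clear * - N k h2 h4 h3 hp h6 h5
    have h8 := pow_le_pow_left₀ (by positivity) h4 (2 * (50 * k ^ 2))
    rw [← exp_nat_mul] at h8
    have h9 : (2 : ℝ) ≤ exp 1 := by linarith only [add_one_le_exp (1 : ℝ)]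
    refine (mul_le_mul h8 h9 (by norm_num) (exp_pos _).le).trans ?_
    rw [← exp_add]
    refine exp_le_exp.2 ?_
    have h10 := mul_le_mul_of_nonneg_right h3 (rpow_nonneg (Nat.cast_nonneg N) (1 / 100 : ℝ))
    rw [mul_assoc, h5] at h10
    push_cast
    linarith only [hp, h6, h10]
  have h8 := hA α W hW
  have h9 := hB α W hW
  have h10 : (0 : ℝ) ≤ N.factorial * exp (FF N) := by positivity
  generalize (N.factorial * exp (FF N) : ℝ) = X at h8 h9 h10
  have h11 : exp (-(N : ℝ) ^ (1 / 50 : ℝ) / 2) =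
      exp ((N : ℝ) ^ (1 / 50 : ℝ) / 2) * exp (-(N : ℝ) ^ (1 / 50 : ℝ)) := by
    rw [← exp_add]
    exact congrArg _ (by ring)
  refine (Nat.cast_le.2 h1).trans ?_
  push_cast
  rw [h11, mul_assoc]
  refine le_trans ?_ (mul_le_mul_of_nonneg_right h7 (by positivity))
  rw [mul_assoc]
  exact mul_le_mul_of_nonneg_left (by clear * - α W N X h8 h9; linarith only [h8, h9]) (by positivity)

end Pool.Agent.Work.MP_5391ad_co
end

-- merged part: Pool.Agent.Work.MP_5391ad_co.STail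
section
/-! Exceptional cores are rare. All bounds are Markov inequalities with `η = 1/2000` in the sums
of DUp, so that `N^η ≤ N^(1/1000) / 4` eventually.
`tail_src`: `sum_gam`, `3^o ≤ gam o`, `1 ≤ gam o`. `tail_link`: `sum_F_eq` with `κ = 3`, `f = 1`
and `sumF_kappa`. `tail_SR`: `sum_expSR` with `g = N^(-3/2)`. `deg_cut`: remove all arcs out of a
vertex `u` of out-degree at least `k ≥ 2`; its heads have in-degree one and become sources; `Δ` is
recovered from `Δ'`, `u` and a set of sources of `Δ'`. `tail_deg`: `2^o ≤ gam o ^ (3/2) (2/5)^k`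
for `o ≥ k` (`3^(3/2) ≥ 5`), `(2/5)^k ≤ exp (-0.9 k)`, `N ≤ exp (N^(1/1000) / 10)`.
`card_rv`: `rv` is a bijection of `dags W` (`IsDag.rev`). `excC_le`: union bound; `HS` is split
according to the other events (`hs_le`); `10 ≤ exp (N^(1/1000) / 4)`.
`excC_small`: `numDag_lower`. -/

namespace Pool.Agent.Work.MP_5391ad_co

open Finset Filter Real
open scoped Classical

theorem stail_rv {α : Type*} [Fintype α] (W : Finset α) (E : (α → α → Prop) → Prop)
    [DecidablePred E] [DecidablePred fun Δ => E (rv Δ)] :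
    ((dags W).filter fun Δ => E (rv Δ)).card = ((dags W).filter E).card :=
  card_nbij' rv rv
    (fun _ h => mem_coe.2 (mem_filter.2 ⟨qdag_mem_dags.2 (qdag_mem_dags.1
      (mem_filter.1 (mem_coe.1 h)).1).rev, (mem_filter.1 (mem_coe.1 h)).2⟩))
    (fun _ h => mem_coe.2 (mem_filter.2 ⟨qdag_mem_dags.2 (qdag_mem_dags.1
      (mem_filter.1 (mem_coe.1 h)).1).rev, (mem_filter.1 (mem_coe.1 h)).2⟩))
    (fun _ _ => rfl) fun _ _ => rfl

/-- the set of sources -/
noncomputable def stail_src {α : Type*} (W : Finset α) (Δ : α → α → Prop) : Finset α :=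
  W.filter fun v => ∀ w, ¬ Δ w v

theorem stail_mem {α : Type*} {W : Finset α} {Δ : α → α → Prop} {v : α} :
    v ∈ stail_src W Δ ↔ v ∈ W ∧ ∀ w, ¬ Δ w v := mem_filter

theorem card_rv {α : Type*} [Fintype α] (W : Finset α) (E : (α → α → Prop) → Prop) :
    ((dags W).filter fun Δ => E (rv Δ)).card = ((dags W).filter E).card := stail_rv W E

theorem deg_cut {α : Type*} [Fintype α] (W : Finset α) {k : ℕ} (hk : 2 ≤ k) :
    ((dags W).filter fun Δ => ∃ u, k ≤ odeg W Δ u).card ≤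
      W.card * ∑ Δ ∈ (dags W).filter (fun Δ => k ≤ nsrc W Δ), 2 ^ nsrc W Δ := by
  have e : ∑ Δ ∈ (dags W).filter (fun Δ => k ≤ nsrc W Δ), 2 ^ nsrc W Δ =
      (((dags W).filter fun Δ => k ≤ nsrc W Δ).sigma fun Δ => (stail_src W Δ).powerset).card := by
    rw [card_sigma]
    exact sum_congr rfl fun Δ _ => (card_powerset (stail_src W Δ)).symm
  rw [e, ← card_product]
  refine card_le_card_of_forall_subsingleton
    (fun Δ c => ∀ a b, Δ a b ↔ c.2.1 a b ∨ (a = c.1 ∧ b ∈ c.2.2)) (fun Δ hΔ => ?_)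
    fun c _ Δ h Δ' h' => ?_
  swap
  · funext a b
    exact propext ((h.2 a b).trans (h'.2 a b).symm)
  obtain ⟨h1, u, hu⟩ := mem_filter.1 hΔ
  have h := qdag_mem_dags.1 h1
  obtain ⟨v, hv, v', hv', hne⟩ := one_lt_card.1 (show 1 < (W.filter (Δ u)).card from hk.trans hu)
  have hs : W.filter (Δ u) ⊆ stail_src W fun a b => Δ a b ∧ a ≠ u := fun y hy => by
    refine stail_mem.2 ⟨(mem_filter.1 hy).1, fun w hw => ?_⟩
    rcases h.rule u y (mem_filter.1 hy).2 with h2 | h2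
    · exact hne ((h2 v (mem_filter.1 hv).2).trans (h2 v' (mem_filter.1 hv').2).symm)
    · exact hw.2 (h2 w hw.1)
  refine ⟨(u, ⟨fun a b => Δ a b ∧ a ≠ u, W.filter (Δ u)⟩), mem_product.2
    ⟨(h.mem u v (mem_filter.1 hv).2).1, mem_sigma.2 ⟨mem_filter.2 ⟨qdag_mem_dags.2
      ⟨fun a b k1 => h.mem a b k1.1, h.acyc.imp fun rk k1 a b k2 => k1 a b k2.1,
        fun a b k1 => (h.rule a b k1.1).imp (fun k2 w k3 => k2 w k3.1) fun k2 w k3 => k2 w k3.1⟩,
      hu.trans (card_le_card hs)⟩, mem_powerset.2 hs⟩⟩, fun a b => ⟨fun k1 => ?_, ?_⟩⟩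
  · by_cases k2 : a = u
    · exact Or.inr ⟨k2, mem_filter.2 ⟨(h.mem a b k1).2, k2 ▸ k1⟩⟩
    · exact Or.inl ⟨k1, k2⟩
  · rintro (k1 | ⟨rfl, k1⟩)
    · exact k1.1
    · exact (mem_filter.1 k1).2

theorem stail_markov {β : Type*} {s : Finset β} {p : β → Prop} [DecidablePred p] {f g : β → ℝ}
    {a F x y b : ℝ} (h0 : ∀ i, 0 ≤ f i) (h1 : ∀ i, p i → exp a * g i ≤ f i)
    (hB : ∑ i ∈ s, f i ≤ F * exp (x + y)) (hF : 0 ≤ F) (hb : y ≤ a + b) :
    ∑ i ∈ s.filter p, g i ≤ exp b * (F * exp x) := by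
  refine le_of_mul_le_mul_left ?_ (exp_pos a)
  calc exp a * ∑ i ∈ s.filter p, g i ≤ ∑ i ∈ s.filter p, f i := by
        rw [mul_sum]
        exact sum_le_sum fun i hi => h1 i (mem_filter.1 hi).2
    _ ≤ F * exp (x + y) :=
        (sum_le_sum_of_subset_of_nonneg (filter_subset _ _) fun i _ _ => h0 i).trans hB
    _ ≤ F * exp (x + (a + b)) := by gcongr
    _ = _ := by
        rw [exp_add, exp_add]
        ring

theorem stail_card {β : Type*} {s : Finset β} {p : β → Prop} [DecidablePred p] {f : β → ℝ}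
    {a F x y b : ℝ} (h0 : ∀ i, 0 ≤ f i) (h1 : ∀ i, p i → exp a ≤ f i)
    (hB : ∑ i ∈ s, f i ≤ F * exp (x + y)) (hF : 0 ≤ F) (hb : y ≤ a + b) :
    ((s.filter p).card : ℝ) ≤ exp b * (F * exp x) := by
  have := stail_markov (g := fun _ => 1) h0 (fun i hi => (mul_one _).trans_le (h1 i hi)) hB hF hb
  rwa [sum_const, nsmul_eq_mul, mul_one] at this

theorem stail_ev (c : ℝ) : ∀ᶠ N : ℕ in atTop, 1 ≤ (N : ℝ) ∧ 0 ≤ (N : ℝ) ^ (1 / 2000 : ℝ) ∧
    c ≤ (N : ℝ) ^ (1 / 2000 : ℝ) ∧ log N ≤ (N : ℝ) ^ (1 / 2000 : ℝ) ∧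
    c * (N : ℝ) ^ (1 / 2000 : ℝ) ≤ (N : ℝ) ^ (1 / 1000 : ℝ) := by
  filter_upwards [dup_log (η := 1 / 2000) (by norm_num) 1, dup_big,
    ((tendsto_rpow_atTop (y := 1 / 2000) (by norm_num)).comp
      tendsto_natCast_atTop_atTop).eventually_ge_atTop c] with N h1 ⟨h2, h3⟩ h4
  have h5 : c ≤ (N : ℝ) ^ (1 / 2000 : ℝ) := h4
  refine ⟨by linarith only [h2], by positivity, h5,
    (le_self_pow₀ h3 (by norm_num)).trans ((one_mul _).symm.trans_le h1), ?_⟩
  rw [show (1 / 1000 : ℝ) = 1 / 2000 + 1 / 2000 by norm_num, rpow_add (by linarith only [h2])]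
  gcongr

theorem stail_gam (o o' : ℕ) : (4 : ℝ) ^ o ≤ (gam o * gam o') ^ (3 / 2 : ℝ) := by
  have h1 : ∀ a : ℕ, (3 : ℝ) ^ a ≤ gam a := fun a =>
    le_mul_of_one_le_right (by positivity) (one_le_sqrt.2 (by exact_mod_cast a.factorial_pos))
  have h2 : (3 : ℝ) ^ o ≤ gam o * gam o' := (h1 o).trans (le_mul_of_one_le_right
    ((by positivity : (0 : ℝ) ≤ 3 ^ o).trans (h1 o)) ((one_le_pow₀ (by norm_num)).trans (h1 o')))
  refine le_trans ?_ (rpow_le_rpow (by positivity) h2 (by norm_num))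
  refine (pow_le_pow_iff_left₀ (by positivity) (by positivity) two_ne_zero).1 ?_
  rw [← rpow_natCast (_ ^ (3 / 2 : ℝ)), ← rpow_mul (by positivity),
    show (3 / 2 : ℝ) * (2 : ℕ) = (3 : ℕ) by norm_num, rpow_natCast, pow_right_comm,
    pow_right_comm 3]
  gcongr
  norm_num

theorem stail_exp {c T r : ℝ} {k o : ℕ} (hc : 0 ≤ c) (hr : exp c ≤ r) (h1 : T ≤ k) (h2 : k ≤ o) :
    exp (c * T) ≤ r ^ o := by
  refine le_trans ?_ (pow_le_pow_left₀ (exp_pos c).le hr o)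
  rw [← exp_nat_mul, mul_comm (o : ℝ)]
  gcongr
  exact h1.trans (Nat.cast_le.2 h2)

theorem stail_four : exp 1 ≤ 4 := by linarith [exp_one_lt_three]

theorem stail_or {β : Type*} {s : Finset β} {p q r : β → Prop} [DecidablePred p] [DecidablePred q]
    [DecidablePred r] {a b : ℝ} (ha : ((s.filter p).card : ℝ) ≤ a)
    (hb : ((s.filter q).card : ℝ) ≤ b) (h : ∀ i, r i → p i ∨ q i) :
    ((s.filter r).card : ℝ) ≤ a + b := by
  refine le_trans ?_ (add_le_add ha hb)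
  rw [← Nat.cast_add, Nat.cast_le]
  refine (card_le_card fun i hi => mem_union.2 ?_).trans (card_union_le _ _)
  exact (h i (mem_filter.1 hi).2).imp (fun k => mem_filter.2 ⟨(mem_filter.1 hi).1, k⟩)
    fun k => mem_filter.2 ⟨(mem_filter.1 hi).1, k⟩

theorem tail_src : ∀ᶠ N : ℕ in atTop, ∀ (α : Type) [Fintype α] (W : Finset α), W.card = N →
    ∀ k : ℕ, (N : ℝ) ^ (1 / 1000 : ℝ) ≤ k → (((dags W).filter fun Δ => k ≤ nsrc W Δ).card : ℝ) ≤
      exp (-(N : ℝ) ^ (1 / 1000 : ℝ) / 2) * (N.factorial * exp (FF N)) := by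
  filter_upwards [sum_gam (η := 1 / 2000) (by norm_num), stail_ev 2] with
    N h ⟨_, _, _, _, h1⟩ α _ W hW k hk
  exact stail_card (a := 1 * (N : ℝ) ^ (1 / 1000 : ℝ))
    (fun Δ => (by positivity : (0 : ℝ) ≤ _).trans (stail_gam _ _))
    (fun Δ h2 => (stail_exp zero_le_one stail_four hk h2).trans (stail_gam _ _)) (h α W hW)
    (Nat.cast_nonneg _) (by linarith only [h1])

theorem tail_link : ∀ᶠ N : ℕ in atTop, ∀ (α : Type) [Fintype α] (W : Finset α), W.card = N →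
    ∀ k : ℕ, (N : ℝ) ^ (1 / 1000 : ℝ) ≤ k → (((dags W).filter fun Δ => k ≤ nlink W Δ).card : ℝ) ≤
      exp (-(N : ℝ) ^ (1 / 1000 : ℝ) / 2) * (N.factorial * exp (FF N)) := by
  filter_upwards [sumF_kappa (η := 1 / 2000) (by norm_num), stail_ev 2] with
    N h ⟨_, _, _, _, h1⟩ α _ W hW k hk
  have h2 := sum_F_eq W 3 fun _ => 1
  simp only [mul_one] at h2
  exact stail_card (a := 1 * (N : ℝ) ^ (1 / 1000 : ℝ)) (f := fun Δ => (1 + 3) ^ nlink W Δ)
    (fun Δ => by positivity)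
    (fun Δ h3 => stail_exp zero_le_one (stail_four.trans (by norm_num)) hk h3)
    (h2.ge.trans (h α W hW 3 (by norm_num) le_rfl)) (Nat.cast_nonneg _) (by linarith only [h1])

theorem tail_deg : ∀ᶠ N : ℕ in atTop, ∀ (α : Type) [Fintype α] (W : Finset α), W.card = N →
    ∀ k : ℕ, (N : ℝ) ^ (1 / 1000 : ℝ) ≤ k →
    (((dags W).filter fun Δ => ∃ u, k ≤ odeg W Δ u).card : ℝ) ≤
      exp (-(N : ℝ) ^ (1 / 1000 : ℝ) / 2) * (N.factorial * exp (FF N)) := by
  filter_upwards [sum_gam (η := 1 / 2000) (by norm_num), stail_ev 20] with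
    N h ⟨h1, h2, h3, h4, h5⟩ α _ W hW k hk
  have h6 : 2 ≤ k := by
    have : (2 : ℝ) ≤ k := by linarith only [h3, h5, hk]
    exact_mod_cast this
  have h7 : exp (3 / 5) ≤ 2 := by
    rw [← le_log_iff_exp_le two_pos]
    linarith only [log_two_gt_d9]
  have h8 := stail_markov (a := 3 / 5 * (N : ℝ) ^ (1 / 1000 : ℝ))
    (b := -(N : ℝ) ^ (1 / 1000 : ℝ) / 2 - log N) (p := fun Δ => k ≤ nsrc W Δ)
    (g := fun Δ => 2 ^ nsrc W Δ) (fun Δ => (by positivity : (0 : ℝ) ≤ _).trans (stail_gam _ _))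
    (fun Δ h9 => le_trans (by
      rw [show (4 : ℝ) = 2 * 2 by norm_num, mul_pow]
      exact mul_le_mul_of_nonneg_right (stail_exp (by norm_num) h7 hk h9) (by positivity))
      (stail_gam _ _)) (h α W hW) (Nat.cast_nonneg _) (by linarith only [h4, h5])
  refine (Nat.cast_le.2 (deg_cut W h6)).trans ?_
  rw [exp_sub, exp_log (by linarith only [h1]), div_mul_eq_mul_div, le_div_iff₀' (by linarith only [h1])] at h8
  rw [hW]
  exact_mod_cast h8

theorem tail_SR : ∀ᶠ N : ℕ in atTop, ∀ (α : Type) [Fintype α] (W : Finset α), W.card = N →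
    (((dags W).filter fun Δ => (W.card : ℝ) ^ (31 / 20 : ℝ) ≤ SR W Δ).card : ℝ) ≤
      exp (-(N : ℝ) ^ (1 / 1000 : ℝ) / 2) * (N.factorial * exp (FF N)) := by
  obtain ⟨η, hη, h⟩ := sum_expSR (η := 1 / 2000) (by norm_num)
  filter_upwards [h, stail_ev 2] with N h ⟨h1, _, _, _, h2⟩ α _ W hW
  refine stail_card (a := (N : ℝ) ^ (1 / 1000 : ℝ)) (fun Δ => (exp_pos _).le)
    (fun Δ h3 => exp_le_exp.2 ?_) (h α W hW ((N : ℝ) ^ (-(3 / 2) : ℝ)) (by positivity)
      (rpow_le_rpow_of_exponent_le h1 (by linarith only [hη]))) (Nat.cast_nonneg _) (by linarith only [h2])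
  refine le_trans ?_ (mul_le_mul_of_nonneg_left h3 (by positivity))
  rw [hW, ← rpow_add (by linarith only [h1])]
  exact rpow_le_rpow_of_exponent_le h1 (by norm_num)

theorem excC_le : ∀ᶠ N : ℕ in atTop, ∀ (α : Type) [Fintype α] (W : Finset α), W.card = N →
    ∀ k : ℕ, (N : ℝ) ^ (1 / 1000 : ℝ) ≤ k → (k : ℝ) ≤ 3 * (N : ℝ) ^ (1 / 1000 : ℝ) →
    (((dags W).filter (ExcC k W)).card : ℝ) ≤
      exp (-(N : ℝ) ^ (1 / 1000 : ℝ) / 4) * (N.factorial * exp (FF N)) := by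
  filter_upwards [tail_src, tail_link, tail_deg, tail_SR, hs_le, stail_ev 7] with
    N a1 a2 a3 a4 a5 ⟨h1, h2, h3, _, h4⟩ α _ W hW k hk hk'
  have b3 := a3 α W hW k hk
  have b5 := (a5 α W hW k hk').trans (mul_le_mul_of_nonneg_right
    (exp_le_exp.2 (show _ ≤ -(N : ℝ) ^ (1 / 1000 : ℝ) / 2 by
      clear * - N h1
      linarith only [h1, rpow_le_rpow_of_exponent_le h1 (show (1 / 1000 : ℝ) ≤ 1 / 50 by norm_num)]))
    (by positivity))
  have b6 := (Nat.cast_le.2 (stail_rv W fun Δ => ∃ u, k ≤ odeg W Δ u).le).trans b3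
  have c1 := stail_or (r := fun Δ => HS k W Δ ∧ nsrc W Δ < k ∧ ∀ u, odeg W Δ u < k) b5 b6
    fun Δ h => (em (∃ u, k ≤ odeg W (rv Δ) u)).symm.imp_left
      fun h' => ⟨h.1, h.2.1, h.2.2, fun u => not_le.1 fun h5 => h' ⟨u, h5⟩⟩
  have c2 := stail_or (r := fun Δ => HS k W Δ ∧ nsrc W Δ < k ∨ ∃ u, k ≤ odeg W Δ u) c1 b3
    fun Δ h => (em (∃ u, k ≤ odeg W Δ u)).symm.imp_left fun h' =>
      ⟨(h.resolve_right h').1, (h.resolve_right h').2, fun u => not_le.1 fun h5 => h' ⟨u, h5⟩⟩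
  have c3 := stail_or (r := fun Δ => k ≤ nsrc W Δ ∨ HS k W Δ ∨ ∃ u, k ≤ odeg W Δ u) c2
    (a1 α W hW k hk) fun Δ h => (lt_or_ge (nsrc W Δ) k).imp_left fun h' =>
      (h.resolve_left (not_le.2 h')).imp_left fun h5 => ⟨h5, h'⟩
  have c4 := stail_or (r := ExcH k W) c3 (stail_or (a2 α W hW k hk) (a4 α W hW) fun _ h => h)
    fun Δ h => by
      rcases h with h | h | h | h | h
      exacts [Or.inl (Or.inl h), Or.inr (Or.inl h), Or.inl (Or.inr (Or.inr h)), Or.inr (Or.inr h),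
        Or.inl (Or.inr (Or.inl h))]
  have c5 := stail_or (r := ExcC k W) c4
    ((Nat.cast_le.2 (card_rv W (ExcH k W)).le).trans c4) fun _ h => h
  have h5 : 12 * exp (-(N : ℝ) ^ (1 / 1000 : ℝ) / 2) ≤ exp (-(N : ℝ) ^ (1 / 1000 : ℝ) / 4) := by
    clear * - N h3 h4
    rw [show -(N : ℝ) ^ (1 / 1000 : ℝ) / 4 =
      (N : ℝ) ^ (1 / 1000 : ℝ) / 4 + -(N : ℝ) ^ (1 / 1000 : ℝ) / 2 by ring, exp_add]
    gcongr
    linarith only [h3, h4, add_one_le_exp ((N : ℝ) ^ (1 / 1000 : ℝ) / 4)]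
  refine c5.trans (le_trans (le_of_eq ?_) (mul_le_mul_of_nonneg_right h5 (by positivity)))
  ring

theorem excC_small {δ : ℝ} (hδ : 0 < δ) : ∀ᶠ N : ℕ in atTop, ∀ (α : Type) [Fintype α]
    (W : Finset α), W.card = N → ∀ k : ℕ, (N : ℝ) ^ (1 / 1000 : ℝ) ≤ k →
    (k : ℝ) ≤ 3 * (N : ℝ) ^ (1 / 1000 : ℝ) →
    (((dags W).filter (ExcC k W)).card : ℝ) * (N : ℝ) ^ 2 ≤ δ * numDag N := by
  filter_upwards [excC_le, numDag_lower (η := 1 / 2000) (by norm_num), stail_ev 16,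
    stail_ev (-log δ)] with N a1 a2 ⟨h1, _, _, h2, h3⟩ ⟨_, _, h4, _⟩ α _ W hW k hk hk'
  refine (mul_le_mul_of_nonneg_right (a1 α W hW k hk hk') (by positivity)).trans
    (le_trans ?_ (mul_le_mul_of_nonneg_left a2 hδ.le))
  have h5 : exp (-(N : ℝ) ^ (1 / 1000 : ℝ) / 4 + FF N + (2 : ℕ) * log N) ≤
      exp (log δ + (FF N - (N : ℝ) ^ (1 / 2000 : ℝ))) := exp_le_exp.2 (by clear * - N δ h2 h3 h4; push_cast; linarith only [h2, h3, h4])
  rw [exp_add, exp_add, exp_add, exp_nat_mul, exp_log (by clear * - N h1 h5 hδ; linarith only [h1]), exp_log hδ] at h5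
  have h6 := mul_le_mul_of_nonneg_left h5 (Nat.cast_nonneg N.factorial : (0 : ℝ) ≤ _)
  clear * - N δ h6
  linarith only [h6]

end Pool.Agent.Work.MP_5391ad_co
end

-- merged part: Pool.Agent.Work.MP_5391ad_co.SMas
section
/-! Matrices with an exceptional frame are rare.
`master2`: copy the proof of `master` for every `ε ≤ min (η'/19) (1/100)`. Use `FF_incr` with
`ε / 8` instead of `ε / 4`, and `master_inner` with `p exp (ε/2 K)`, `K = n - 1 - |W|`; the factor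
`exp (ε/12 K)` is absorbed since `y ≤ exp (log (ell |W|) - ε/4)`.
`card_exc`: `master2` with `η = 1/2000` and `p = exp (-ε n^(1/1000) / 4)`. If `|W| + 1 + k ≤ n`
use `numDag_upper`, `card_dags` (`K ≥ k ≥ n^(1/1000)`); otherwise `Exc` is `ExcC` and `excC_le`
applies (`|W| ≥ n/2`, `k ≤ n^(1/1000) + 1 ≤ 3 |W|^(1/1000)`). Then `card_frame_le`, a union over
`s`, and `TN n ≥ (n-1)!^2 exp (FF (n-1) - n^(1/2000))` (`numDag_lower`), `FF_step`, `ell_le`.
`card_atyp`: `card_not_typM` and `small_le_numND` with `c = e^2 / 40`. -/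

namespace Pool.Agent.Work.MP_5391ad_co

open Finset Filter Real
open scoped Classical

theorem master2 {η : ℝ} (hη : 0 < η) : ∃ ε0 : ℝ, 0 < ε0 ∧ ∀ ε, 0 < ε → ε ≤ ε0 →
    ∀ᶠ n : ℕ in atTop, ∀ (α : Type) [Fintype α], Fintype.card α = n →
    ∀ (s : α) (E : Finset α → (α → α → Prop) → Prop) (p : ℝ), 0 ≤ p →
    (∀ W : Finset α, s ∉ W → (1 - ε) * n ≤ W.card → (((dags W).filter (E W)).card : ℝ) ≤
      p * exp (ε / 2 * (n - 1 - W.card : ℕ)) * (W.card.factorial * exp (FF W.card))) →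
    ((univ.filter (TypRed ε s E)).card : ℝ) ≤
      p ^ (1 / 6 : ℝ) * ((n - 1).factorial * exp (FF n + (n : ℝ) ^ η)) := by
  obtain ⟨η', hη', hSR⟩ := sum_expSR (half_pos hη)
  refine ⟨min (η' / 19) (1 / 100), by positivity, fun ε hε hε0 => ?_⟩
  have hε1 : ε ≤ 1 / 100 := hε0.trans (min_le_right _ _)
  have hε2 : 19 * ε ≤ η' := by linarith only [hε0, min_le_left (η' / 19) (1 / 100)]
  have hn := tendsto_natCast_atTop_atTop (R := ℝ)
  obtain ⟨N1, hN1⟩ := eventually_atTop.1 ((hSR.and (sum_gam (half_pos hη))).and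
    (hn.eventually (FF_incr (by positivity : 0 < ε / 6))))
  filter_upwards [master_par hε hε1, hn.eventually (master_ev2 hη), hn.eventually_ge_atTop 30,
    hn.eventually_ge_atTop (2 * N1)] with n ⟨z, hz, k1, k2, k3, k4⟩ h2 h30 hN α _ hα s E p hp hE
  subst hα
  refine (card_red3 hz k1 k2 _ s E).trans ?_
  have hg0 := mchain_g hz (vmax ε (Fintype.card α)) (capn ε (Fintype.card α))
  generalize cG z (vmax ε (Fintype.card α)) (capn ε (Fintype.card α)) = g at k3 k4 hg0 ⊢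
  have hy0 : 0 ≤ z⁻¹ * exp (g * capn ε (Fintype.card α)) := by positivity
  generalize z⁻¹ * exp (g * capn ε (Fintype.card α)) = y at k4 hy0 ⊢
  have hT : (univ.erase s).card = Fintype.card α - 1 := by
    rw [card_erase_of_mem (mem_univ s), card_univ]
  have h1n : 1 ≤ Fintype.card α := Fintype.card_pos_iff.2 ⟨s⟩
  generalize Fintype.card α = n at *
  have key : ∀ W ∈ (univ.erase s).powerset.filter fun W => ⌈(1 - ε) * n⌉₊ ≤ W.card,
      (n - 1 - W.card).factorial * y ^ (n - 1 - W.card) *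
        ∑ Δ ∈ (dags W).filter (E W), coreW g W Δ ≤ (n - 1 - W.card).factorial *
          W.card.factorial * (p ^ (1 / 6 : ℝ) * (4 * exp (FF n + (n : ℝ) ^ (η / 2)))) := by
    intro W hW
    obtain ⟨hW1, hW2⟩ := mem_filter.1 hW
    rw [mem_powerset] at hW1
    rw [Nat.ceil_le] at hW2
    have hW3 : W.card ≤ n - 1 := hT ▸ card_le_card hW1
    have hW4 : (W.card : ℝ) ≤ n := Nat.cast_le.2 (by omega)
    have hW5 : (n : ℝ) / 2 ≤ W.card := le_trans (by clear * - n ε hε hε1 h30 W hW2; linarith only [hε, hε1, h30, mul_nonneg_of_nonpos_of_nonpos (Mathlib.Tactic.Linarith.sub_nonpos_of_le (Mathlib.Tactic.Linarith.natCast_nonneg ℝ n)) (Mathlib.Tactic.Linarith.sub_nonpos_of_le hε1)]) hW2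
    obtain ⟨⟨m1, m2⟩, m3⟩ := hN1 W.card (Nat.cast_le (α := ℝ).1 (by clear * - N1 α W n hN hW5 hN1; linarith only [hN, hW5]))
    have m4 := master_inner (g := g) (mul_nonneg hp (exp_pos _).le)
      (mul_le_mul_of_nonneg_left (exp_le_exp.2
      (le_add_of_nonneg_right (rpow_nonneg (Nat.cast_nonneg _) _))) (Nat.cast_nonneg _))
      (by positivity) (m2 α W rfl) (m1 α W rfl (12 * g) (by positivity) (k3.trans
        ((rpow_le_rpow_of_nonpos (by linarith only [hε, hε1, h30, hW5]) hW4 (by clear * - ε hε hε1 hW4; linarith only [hε, hε1])).trans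
          (rpow_le_rpow_of_exponent_le (by linarith only [hε, hε1, h30, hW5]) (by clear * - ε η' hε2; linarith only [hε2])))))
      (hE W (fun h => by simpa using hW1 h) hW2)
    rw [mul_rpow hp (exp_pos _).le, ← exp_mul] at m4
    have hL := (exp_pos 2).trans_le (le_ell W.card)
    have hl : 2 ≤ log (ell W.card) := (le_log_iff_exp_le hL).2 (le_ell _)
    have m5 : y ≤ exp (log (ell W.card) - ε / 4) := by
      clear * - y α W ε hL n k4 hε hε1 h30 hW2
      rw [sub_eq_add_neg, exp_add, exp_log hL]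
      exact k4.trans (mul_le_mul_of_nonneg_right ((mul_ell_le (by linarith only [hε, hε1]) (by linarith only [hε]) h30).trans
        (ell_mono hW2)) (exp_pos _).le)
    have m6 : ((n - 1 - W.card : ℕ) : ℝ) ≤ n - W.card := by
      rw [le_sub_iff_add_le, ← Nat.cast_add]
      exact Nat.cast_le.2 (by omega)
    have m7 : y ^ (n - 1 - W.card) * exp (ε / 2 * (n - 1 - W.card : ℕ) * (1 / 6)) *
        exp (FF W.card + (W.card : ℝ) ^ (η / 2)) ≤ exp (FF n + (n : ℝ) ^ (η / 2)) := by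
      clear * - y n α W ε η hy0 m5 m3 hW4 hη m6 hε hε1 hl
      refine (mul_le_mul_of_nonneg_right (mul_le_mul_of_nonneg_right (pow_le_pow_left₀ hy0 m5 _)
        (exp_pos _).le) (exp_pos _).le).trans ?_
      rw [← exp_nat_mul, ← exp_add, ← exp_add]
      refine exp_le_exp.2 ?_
      linarith only [m3, hW4, hη, m6, hε, hε1, hl, m3 n hW4, rpow_le_rpow (Nat.cast_nonneg _) hW4 (half_pos hη).le,
        mul_le_mul_of_nonneg_right m6 (by linarith : 0 ≤ log (ell W.card) - ε / 6)]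
    refine (mul_le_mul_of_nonneg_left m4 (by positivity)).trans ?_
    refine le_of_eq_of_le ?_ ((mul_le_mul_of_nonneg_left m7 (by positivity :
      0 ≤ ((n - 1 - W.card).factorial : ℝ) * W.card.factorial * p ^ (1 / 6 : ℝ) * 4)).trans_eq ?_)
    all_goals ring
  have h3 := (sum_le_sum key).trans (sum_le_sum_of_subset_of_nonneg (filter_subset _ _)
    fun _ _ _ => by positivity)
  have h4 := qcrude_pow (univ.erase s) fun k => (k.factorial : ℝ)
  rw [hT, Nat.sub_add_cancel h1n, sum_congr rfl fun k _ => div_self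
    (Nat.cast_ne_zero.2 k.factorial_ne_zero), sum_const, card_range, nsmul_one] at h4
  rw [← sum_mul, h4] at h3
  refine (mul_le_mul_of_nonneg_left h3 (by positivity)).trans ?_
  rw [exp_add, exp_add]
  refine le_of_eq_of_le ?_ ((mul_le_mul_of_nonneg_left h2 (by positivity :
    0 ≤ p ^ (1 / 6 : ℝ) * (n - 1).factorial * exp (FF n))).trans_eq ?_)
  all_goals ring

/-- a small power is eventually below a multiple of its square -/
theorem smas_ev1 {c C : ℝ} (hc : 0 < c) : ∀ᶠ x : ℝ in atTop,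
    C * x ^ (1 / 2000 : ℝ) ≤ c * x ^ (1 / 1000 : ℝ) := by
  filter_upwards [(tendsto_rpow_atTop (by norm_num : (0 : ℝ) < 1 / 2000)).eventually_ge_atTop
    (C / c), eventually_gt_atTop 0] with x h h0
  have e : x ^ (1 / 1000 : ℝ) = x ^ (1 / 2000 : ℝ) * x ^ (1 / 2000 : ℝ) := by
    rw [← rpow_add h0]
    norm_num
  rw [div_le_iff₀' hc] at h
  rw [e, ← mul_assoc]
  exact mul_le_mul_of_nonneg_right h (by positivity)

theorem smas_ev2 {δ : ℝ} (hδ : 0 < δ) : ∀ᶠ x : ℝ in atTop,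
    2 * x ^ 3 ≤ δ * exp (x ^ (1 / 2000 : ℝ)) := by
  filter_upwards [master_ev2 (by norm_num : (0 : ℝ) < 1 / 2000),
    (tendsto_exp_atTop.comp (tendsto_rpow_atTop
      (by norm_num : (0 : ℝ) < 1 / 2000 / 2))).eventually_ge_atTop δ⁻¹, eventually_ge_atTop 0]
    with x h h1 h0
  simp only [Function.comp_apply] at h1
  rw [inv_le_iff_one_le_mul₀' hδ] at h1
  have h2 := mul_le_mul_of_nonneg_left h hδ.le
  have h3 := mul_le_mul_of_nonneg_left h1 (by positivity : 0 ≤ 44 * x ^ 3)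
  have h4 : 0 ≤ x ^ 3 := by positivity
  linarith only [h2, h3, h4]

/-- the exceptional cores of a given size -/
theorem smas_exc {ε : ℝ} (hε : 0 < ε) (hε1 : ε ≤ 1 / 100) : ∀ᶠ n : ℕ in atTop,
    ∀ (α : Type) [Fintype α] (W : Finset α), W.card + 1 ≤ n → (1 - ε) * n ≤ W.card →
    (((dags W).filter (Exc n ⌈(n : ℝ) ^ (1 / 1000 : ℝ)⌉₊ W)).card : ℝ) ≤
      exp (-(ε * (n : ℝ) ^ (1 / 1000 : ℝ) / 4)) * exp (ε / 2 * (n - 1 - W.card : ℕ)) *
        (W.card.factorial * exp (FF W.card)) := by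
  have hn := tendsto_natCast_atTop_atTop (R := ℝ)
  obtain ⟨N1, hN1⟩ := eventually_atTop.1 (excC_le.and
    (numDag_upper (by norm_num : (0 : ℝ) < 1 / 2000)))
  filter_upwards [hn.eventually (smas_ev1 (C := 1) (by positivity : 0 < ε / 4)),
    hn.eventually_ge_atTop (2 * N1), hn.eventually_ge_atTop 2] with n h1 hN h2 α _ W hW hW2
  have hW4 : (W.card : ℝ) ≤ n := Nat.cast_le.2 (by omega)
  have hW5 : (n : ℝ) / 2 ≤ W.card := le_trans (by clear * - n ε hε hε1 h2 W hW2; linarith only [hε, hε1, h2, mul_nonneg_of_nonpos_of_nonpos (Mathlib.Tactic.Linarith.sub_nonpos_of_le (Mathlib.Tactic.Linarith.natCast_nonneg ℝ n)) (Mathlib.Tactic.Linarith.sub_nonpos_of_le hε1)]) hW2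
  obtain ⟨m1, m2⟩ := hN1 W.card (Nat.cast_le (α := ℝ).1 (by linarith only [hN, hW5]))
  have hk := Nat.le_ceil ((n : ℝ) ^ (1 / 1000 : ℝ))
  have hk2 := (Nat.ceil_lt_add_one (rpow_nonneg (Nat.cast_nonneg (α := ℝ) n) (1 / 1000 : ℝ))).le
  generalize ⌈(n : ℝ) ^ (1 / 1000 : ℝ)⌉₊ = k at hk hk2 ⊢
  by_cases h : W.card + 1 + k ≤ n
  · refine (Nat.cast_le.2 (card_filter_le _ _)).trans ?_
    rw [card_dags]
    refine m2.trans ?_
    have h3 : (k : ℝ) ≤ (n - 1 - W.card : ℕ) := Nat.cast_le.2 (by omega)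
    have h4 := rpow_le_rpow (Nat.cast_nonneg _) hW4 (by norm_num : (0 : ℝ) ≤ 1 / 2000)
    rw [← exp_add, exp_add (FF _), ← mul_assoc, mul_comm]
    refine mul_le_mul_of_nonneg_right (exp_le_exp.2 ?_) (by positivity)
    clear * - α W ε n k h1 h4 hε hk h3
    linarith only [h1, h4, hε, hk, h3, mul_nonneg_of_nonpos_of_nonpos (le_of_lt (Mathlib.Tactic.Linarith.sub_neg_of_lt hε)) (Mathlib.Tactic.Linarith.sub_nonpos_of_le hk), mul_nonneg_of_nonpos_of_nonpos (le_of_lt (Mathlib.Tactic.Linarith.sub_neg_of_lt hε)) (Mathlib.Tactic.Linarith.sub_nonpos_of_le h3)]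
  · have e : (dags W).filter (Exc n k W) = (dags W).filter (ExcC k W) :=
      filter_congr fun Δ _ => or_iff_right h
    have h3 := rpow_le_rpow (Nat.cast_nonneg _) hW4 (by norm_num : (0 : ℝ) ≤ 1 / 1000)
    have h4 : (1 : ℝ) ≤ (W.card : ℝ) ^ (1 / 1000 : ℝ) := one_le_rpow (by linarith only [h2, hW5]) (by norm_num)
    have h5 : (n : ℝ) ^ (1 / 1000 : ℝ) ≤ 2 * (W.card : ℝ) ^ (1 / 1000 : ℝ) := by
      clear * - n α W hW5 h4
      refine (rpow_le_rpow (Nat.cast_nonneg _) (by linarith only [hW5] : (n : ℝ) ≤ 2 * W.card)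
        (by norm_num)).trans ?_
      rw [mul_rpow (by norm_num) (Nat.cast_nonneg _)]
      refine mul_le_mul_of_nonneg_right ?_ (by positivity)
      simpa using rpow_le_rpow_of_exponent_le (x := 2) (y := 1 / 1000) (z := 1) (by norm_num)
        (by norm_num)
    rw [e]
    refine (m1 α W rfl k (h3.trans hk) (by clear * - k α W n hk2 h4 h5 h3 hk m1; linarith only [hk2, h4, h5])).trans ?_
    rw [← exp_add]
    refine mul_le_mul_of_nonneg_right (exp_le_exp.2 ?_) (by positivity)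
    have h6 : (0 : ℝ) ≤ ε / 2 * (n - 1 - W.card : ℕ) := by positivity
    clear * - α W ε n k hε1 hk2 h4 h5 h6 hε hk
    linarith only [hε1, hk2, h4, h5, h6, hε, hk, mul_nonneg_of_nonpos_of_nonpos (Mathlib.Tactic.Linarith.sub_nonpos_of_le (Mathlib.Tactic.Linarith.natCast_nonneg ℝ k)) (Mathlib.Tactic.Linarith.sub_nonpos_of_le hε1), mul_pos_of_neg_of_neg (Mathlib.Tactic.Linarith.sub_neg_of_lt hε) (Mathlib.Tactic.Linarith.sub_neg_of_lt hε), mul_nonneg_of_nonpos_of_nonpos (le_of_lt (Mathlib.Tactic.Linarith.sub_neg_of_lt hε)) (Mathlib.Tactic.Linarith.sub_nonpos_of_le hε1), mul_nonneg_of_nonpos_of_nonpos (le_of_lt (Mathlib.Tactic.Linarith.sub_neg_of_lt hε)) (Mathlib.Tactic.Linarith.sub_nonpos_of_le hk)]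

theorem card_exc : ∃ ε0 : ℝ, 0 < ε0 ∧ ∀ ε, 0 < ε → ε ≤ ε0 → ∀ δ : ℝ, 0 < δ →
    ∀ᶠ n : ℕ in atTop, ∀ (α : Type) [Fintype α], Fintype.card α = n →
    ((univ.filter fun A : α → α → Prop => ∃ ρ s, Frame A ρ s ∧
      TypRed ε s (Exc n ⌈(n : ℝ) ^ (1 / 1000 : ℝ)⌉₊) (dig A ρ)).card : ℝ) ≤ δ * TN n := by
  obtain ⟨ε0, hε0, hm⟩ := master2 (by norm_num : (0 : ℝ) < 1 / 2000)
  refine ⟨min ε0 (1 / 100), by positivity, fun ε hε hε1 δ hδ => ?_⟩
  have hn := tendsto_natCast_atTop_atTop (R := ℝ)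
  filter_upwards [hm ε hε (hε1.trans (min_le_left _ _)), smas_exc hε (hε1.trans (min_le_right _ _)),
    (tendsto_sub_atTop_nat 1).eventually (numDag_lower (by norm_num : (0 : ℝ) < 1 / 2000)),
    hn.eventually (smas_ev1 (C := 3) (by positivity : 0 < ε / 24)), hn.eventually (smas_ev2 hδ),
    eventually_ge_atTop 31] with n h1 h2 h3 h4 h5 h31 α _ hα
  have h31' : (31 : ℝ) ≤ n := by exact_mod_cast h31
  have hs : ∀ s : α, ((univ.filter fun A : α → α → Prop => ∃ ρ, Frame A ρ s ∧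
      TypRed ε s (Exc n ⌈(n : ℝ) ^ (1 / 1000 : ℝ)⌉₊) (dig A ρ)).card : ℝ) ≤
      2 * n.factorial * (exp (-(ε * (n : ℝ) ^ (1 / 1000 : ℝ) / 4)) ^ (1 / 6 : ℝ) *
        ((n - 1).factorial * exp (FF n + (n : ℝ) ^ (1 / 2000 : ℝ)))) := fun s => by
    have k1 := h1 α hα s (Exc n ⌈(n : ℝ) ^ (1 / 1000 : ℝ)⌉₊) _ (exp_pos _).le fun W hW hW2 =>
      h2 α W (by
        rw [← hα, ← card_insert_of_notMem hW]
        exact card_le_univ _) hW2
    have k2 := (Nat.cast_le (α := ℝ)).2 (card_frame_le s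
      (TypRed ε s (Exc n ⌈(n : ℝ) ^ (1 / 1000 : ℝ)⌉₊)))
    rw [hα] at k2
    push_cast at k2
    exact k2.trans (mul_le_mul_of_nonneg_left k1 (by positivity))
  have hu : (univ.filter fun A : α → α → Prop => ∃ ρ s, Frame A ρ s ∧
      TypRed ε s (Exc n ⌈(n : ℝ) ^ (1 / 1000 : ℝ)⌉₊) (dig A ρ)) ⊆
      univ.biUnion fun s => univ.filter fun A : α → α → Prop => ∃ ρ, Frame A ρ s ∧
        TypRed ε s (Exc n ⌈(n : ℝ) ^ (1 / 1000 : ℝ)⌉₊) (dig A ρ) := fun A hA => by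
    obtain ⟨ρ, s, h⟩ := (mem_filter.1 hA).2
    exact mem_biUnion.2 ⟨s, mem_univ _, mem_filter.2 ⟨mem_univ _, ρ, h⟩⟩
  refine ((Nat.cast_le (α := ℝ)).2 ((card_le_card hu).trans card_biUnion_le)).trans ?_
  rw [Nat.cast_sum]
  refine (sum_le_sum fun s _ => hs s).trans ?_
  rw [sum_const, card_univ, hα, nsmul_eq_mul, ← exp_mul]
  have e1 : ((n - 1 : ℕ) : ℝ) = n - 1 := by
    rw [Nat.cast_sub (by omega), Nat.cast_one]
  have e2 : (n.factorial : ℝ) = n * (n - 1).factorial := by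
    exact_mod_cast (Nat.mul_factorial_pred (by omega)).symm
  rw [e1] at h3
  have k1 := FF_step (N := n - 1) (n := n) (by linarith only [h31']) (by linarith only [])
  have k2 : log (ell n) ≤ log n :=
    log_le_log ((exp_pos 2).trans_le (le_ell n)) (ell_le (by linarith only [h31']))
  have k3 := rpow_le_rpow (by linarith only [h31'] : (0 : ℝ) ≤ n - 1) (by linarith only [] : (n : ℝ) - 1 ≤ n)
    (by norm_num : (0 : ℝ) ≤ 1 / 2000)
  have k4 : 1 ≤ log n := by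
    clear * - n h31'
    rw [le_log_iff_exp_le (by linarith)]
    linarith [exp_one_lt_three]
  have k5 : exp (-(ε * (n : ℝ) ^ (1 / 1000 : ℝ) / 4) * (1 / 6)) *
      exp (FF n + (n : ℝ) ^ (1 / 2000 : ℝ)) * exp ((n : ℝ) ^ (1 / 2000 : ℝ)) ≤
      n * exp (FF (n - 1) - ((n : ℝ) - 1) ^ (1 / 2000 : ℝ)) := by
    clear * - ε n h31' h4 k1 k2 k3
    nth_rw 5 [← exp_log (by linarith only [h31'] : (0 : ℝ) < n)]
    rw [← exp_add, ← exp_add, ← exp_add]
    exact exp_le_exp.2 (by linarith only [h4, k1, k2, k3])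
  have k6 : (n - 1).factorial * ((n - 1).factorial *
      exp (FF (n - 1) - ((n : ℝ) - 1) ^ (1 / 2000 : ℝ))) ≤ TN n := by
    clear * - n h3 k4
    unfold TN
    refine (mul_le_mul_of_nonneg_left h3 (by positivity)).trans ?_
    rw [mul_assoc (4 * log n ^ 2)]
    exact le_mul_of_one_le_left (by positivity) (by linarith only [k4, mul_nonneg_of_nonpos_of_nonpos (Mathlib.Tactic.Linarith.sub_nonpos_of_le k4) (Mathlib.Tactic.Linarith.sub_nonpos_of_le k4)])
  refine le_trans ?_ (mul_le_mul_of_nonneg_left k6 hδ.le)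
  refine le_of_mul_le_mul_right ?_ (exp_pos ((n : ℝ) ^ (1 / 2000 : ℝ)))
  have k7 := mul_le_mul_of_nonneg_left k5
    (by positivity : (0 : ℝ) ≤ 2 * n ^ 2 * ((n - 1).factorial * (n - 1).factorial))
  have k8 := mul_le_mul_of_nonneg_right h5 (by positivity : (0 : ℝ) ≤ (n - 1).factorial *
    (n - 1).factorial * exp (FF (n - 1) - ((n : ℝ) - 1) ^ (1 / 2000 : ℝ)))
  rw [e2]
  clear * - n ε δ k7 k8
  linarith only [k7, k8]

theorem card_atyp {e δ : ℝ} (he : 0 < e) (he1 : e ≤ 1 / 100) (hδ : 0 < δ) : ∀ᶠ n : ℕ in atTop,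
    ((univ.filter fun A : Fin n → Fin n → Prop => NDr A ∧ ¬ TypM e A).card : ℝ) ≤
      δ * numND n := by
  have hc : 0 < e ^ 2 / 40 := by positivity
  filter_upwards [card_not_typM he he1, small_le_numND hc,
    (tendsto_exp_atTop.comp ((tendsto_natCast_atTop_atTop (R := ℝ)).atTop_mul_const
      hc)).eventually_ge_atTop δ⁻¹] with n h1 h2 h3
  simp only [Function.comp_apply] at h3
  rw [inv_le_iff_one_le_mul₀' hδ] at h3
  refine h1.trans (le_trans ?_ (mul_le_mul_of_nonneg_left h2 hδ.le))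
  have e1 : exp (n * (2 * log n - 2 * log (log n) - 2 - e ^ 2 / 40)) =
      exp (n * (e ^ 2 / 40)) * exp (n * (2 * log n - 2 * log (log n) - 2 - e ^ 2 / 20)) := by
    rw [← exp_add]
    congr 1
    ring
  rw [e1]
  have h4 : (0 : ℝ) ≤ n.factorial * ((2 * n + 1) ^ 3 *
    exp (n * (2 * log n - 2 * log (log n) - 2 - e ^ 2 / 20))) := by positivity
  have h5 := mul_le_mul_of_nonneg_right h3 h4
  clear * - n e δ h1 h5
  linarith only [h1, h5]

end Pool.Agent.Work.MP_5391ad_co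
end

-- merged part: Pool.Agent.Work.MP_5391ad_co.SAna
section
/-! Closing the inductions.
`closing`: with `δ = 1/2` a strong induction bounds `a` by some `B ≥ 0`; then use `δ / (1 + B)`.
`ratio_dag`: for `N/2 ≤ M < N`, `numDag_ratio` with `δ = 1` and `ell M ≥ ell (N/2) ≥ ell N / 2`
(`mul_ell_le`, `ell_mono`) give `(M+1) (ell N / 8) d M ≤ d (M+1) / 2`; induction on `j` (prove it
for `N - j` fixed or use `Nat.descFactorial_succ`). `ratio_TN`: put `r = (1 - 2ε)(1 + 3ε) > 1`,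
choose `δ > 0` with `q = (1+δ)^3 / r < 1` or so. For `n - 2 ε n < i ≤ n`:
`TN (i-1) (i-1)^2 ell (i-2) ≤ (1+δ) TN i` (`numDag_ratio` at `i - 2`, `log` is monotone),
`i^2 ≤ (1+δ) (i-1)^2`, and `ell (i-2) ≥ ell ((1 - 2ε) n / (1+δ)) ≥ (1 - 2ε) ell n / (1+δ)`.
`TN_pos`: `numDag_lower`, or the empty digraph is in `dags`. `lam_succ`: `lam (n-1) / lam n → 1`,
and `TN n lam n ^ 2 = 4 n n! d (n-1)`. -/

namespace Pool.Agent.Work.MP_5391ad_co

open Finset Filter Real

theorem closing (a : ℕ → ℝ) (L : ℝ) (h : ∀ δ : ℝ, 0 < δ → ∀ᶠ n : ℕ in atTop, ∀ B : ℝ, 0 ≤ B →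
    (∀ j, n ≤ 2 * j → j < n → a j ≤ B) → a n ≤ L + δ + δ * B) {δ : ℝ} (hδ : 0 < δ) :
    ∀ᶠ n : ℕ in atTop, a n ≤ L + δ := by
  obtain ⟨n0, h0⟩ := eventually_atTop.1 (h (1 / 2) one_half_pos)
  have h1 : 0 ≤ ∑ j ∈ range n0, |a j| := sum_nonneg fun _ _ => abs_nonneg _
  have h2 := le_abs_self (2 * L + 1)
  have h3 := abs_nonneg (2 * L + 1)
  obtain ⟨B, hB, hb⟩ : ∃ B, 0 ≤ B ∧ ∀ n, a n ≤ B := by
    refine ⟨|2 * L + 1| + ∑ j ∈ range n0, |a j|, by positivity, fun n => ?_⟩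
    induction n using Nat.strong_induction_on with
    | _ n ih =>
      rcases lt_or_ge n n0 with k | k
      · have := single_le_sum (f := fun j => |a j|) (fun _ _ => abs_nonneg _) (mem_range.2 k)
        linarith only [h3, this, le_abs_self (a n)]
      · have := h0 n k _ (by positivity) fun j _ hj => ih j hj
        linarith only [h1, h2, this]
  filter_upwards [h (δ / (1 + B)) (by positivity)] with n hn
  refine (hn B hB fun j _ _ => hb j).trans_eq ?_
  field_simp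
  ring

theorem numDag_pos (N : ℕ) : 0 < numDag N :=
  card_pos.2 ⟨fun _ _ => False, by
    simp only [dags, mem_filter, mem_univ, true_and]
    exact ⟨fun _ _ h => h.elim, ⟨fun _ => 0, fun _ _ h => h.elim⟩, fun _ _ h => h.elim⟩⟩

theorem TN_pos {n : ℕ} (hn : 2 ≤ n) : 0 < TN n := by
  have h1 : 0 < log (n : ℝ) := log_pos (by exact_mod_cast hn)
  have h2 : (0 : ℝ) < numDag (n - 1) := by exact_mod_cast numDag_pos _
  unfold TN
  positivity

theorem sana_chain {f : ℕ → ℝ} {n e : ℕ} {c q : ℝ} (hc : 0 ≤ c) (hq : 0 ≤ q) (k : ℕ)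
    (h : ∀ i < k, ((n - i : ℕ) : ℝ) ^ e * c * f (n - (i + 1)) ≤ q * f (n - i)) :
    (n.descFactorial k : ℝ) ^ e * c ^ k * f (n - k) ≤ q ^ k * f n := by
  induction k with
  | zero => simp
  | succ k ih =>
    calc (n.descFactorial (k + 1) : ℝ) ^ e * c ^ (k + 1) * f (n - (k + 1))
        = (n.descFactorial k : ℝ) ^ e * c ^ k * (((n - k : ℕ) : ℝ) ^ e * c * f (n - (k + 1))) := by
          rw [Nat.descFactorial_succ, Nat.cast_mul]; ring
      _ ≤ (n.descFactorial k : ℝ) ^ e * c ^ k * (q * f (n - k)) :=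
          mul_le_mul_of_nonneg_left (h k (Nat.lt_succ_self k)) (by positivity)
      _ = q * ((n.descFactorial k : ℝ) ^ e * c ^ k * f (n - k)) := by ring
      _ ≤ q * (q ^ k * f n) :=
          mul_le_mul_of_nonneg_left (ih fun i hi => h i (Nat.lt_succ_of_lt hi)) hq
      _ = q ^ (k + 1) * f n := by ring

theorem sana_sq {δ x : ℝ} (hx : 1 ≤ x) (h : 3 ≤ δ * x) : (x + 1) ^ 2 ≤ (1 + δ) * x ^ 2 := by
  linarith only [hx, h, mul_le_mul_of_nonneg_right h (zero_le_one.trans hx)]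

theorem ratio_dag : ∀ᶠ N : ℕ in atTop, ∀ j, 2 * j ≤ N →
    (N.descFactorial j : ℝ) * (ell N / 8) ^ j * numDag (N - j) ≤ (1 / 2) ^ j * numDag N := by
  obtain ⟨N0, h0⟩ := eventually_atTop.1 (numDag_ratio one_pos)
  filter_upwards [eventually_ge_atTop (2 * N0), eventually_ge_atTop 30] with N h1 h2 j hj
  have hl := (sev_main N).1
  have := sana_chain (f := fun M => (numDag M : ℝ)) (n := N) (e := 1) (c := ell N / 8) (q := 1 / 2)
    (by positivity) (by norm_num) j fun i hi => ?_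
  · simpa only [pow_one] using this
  obtain ⟨M, hM⟩ : ∃ M, N = M + (i + 1) := ⟨N - (i + 1), by omega⟩
  have e1 : N - i = M + 1 := by omega
  have e2 : N - (i + 1) = M := by omega
  have k1 := h0 M (by omega)
  have k2 : 1 / 2 * ell N ≤ ell M :=
    (mul_ell_le one_half_pos (by norm_num) (by exact_mod_cast h2)).trans (ell_mono (by
      clear * - N M N0 j hj i hi hM e1 e2
      have : (N : ℝ) ≤ 2 * M := by exact_mod_cast (by omega : N ≤ 2 * M)
      linarith only [this]))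
  have k3 : (0 : ℝ) ≤ numDag M * ((M : ℝ) + 1) := by positivity
  rw [e1, e2, pow_one, Nat.cast_succ]
  clear * - M N k1 k2 k3
  linarith only [k1, k2, k3, mul_le_mul_of_nonneg_left k2 k3]

theorem ratio_TN {ε : ℝ} (hε : 0 < ε) (hε1 : ε ≤ 1 / 100) : ∃ q : ℝ, 0 ≤ q ∧ q < 1 ∧
    ∀ᶠ n : ℕ in atTop, ∀ k : ℕ, (k : ℝ) ≤ 2 * ε * n →
      (n.descFactorial k : ℝ) ^ 2 * (ell n / (1 + 3 * ε)) ^ k * TN (n - k) ≤ q ^ k * TN n := by
  have hδ : 0 < ε / 10 := by positivity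
  have hc : 1 / 2 ≤ 1 - 21 / 10 * ε := by linarith only [hε, hε1]
  have hc0 : 0 < 1 - 21 / 10 * ε := by linarith only [hε, hε1]
  have hr : 0 < 1 + 3 * ε := by linarith only [hε, hε1]
  obtain ⟨N0, h0⟩ := eventually_atTop.1 (numDag_ratio hδ)
  refine ⟨(1 + ε / 10) ^ 2 / ((1 - 21 / 10 * ε) * (1 + 3 * ε)), by positivity,
    (div_lt_one (by positivity)).2 (by linarith only [hε, hε1, mul_pos_of_neg_of_neg (Mathlib.Tactic.Linarith.sub_neg_of_lt hε) (Mathlib.Tactic.Linarith.sub_neg_of_lt hε), mul_nonneg_of_nonpos_of_nonpos (le_of_lt (Mathlib.Tactic.Linarith.sub_neg_of_lt hε)) (Mathlib.Tactic.Linarith.sub_nonpos_of_le hε1)]), ?_⟩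
  filter_upwards [eventually_ge_atTop (2 * N0), eventually_ge_atTop 30,
    (tendsto_natCast_atTop_atTop.const_mul_atTop hδ).eventually_ge_atTop 6] with n h1 h2 h3 k hk
  have hl := (sev_main n).1
  have n30 : (30 : ℝ) ≤ n := by exact_mod_cast h2
  refine sana_chain (by positivity) (by positivity) k fun i hi => ?_
  have i1 : (i : ℝ) + 1 ≤ k := by exact_mod_cast hi
  have i2 : 2 * ε * n ≤ 2 * (1 / 100) * n := by gcongr
  have i3 : i + 2 ≤ n := by exact_mod_cast (by linarith only [hε, hε1, h3, hk, i1, i2] : (i : ℝ) + 2 ≤ n)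
  obtain ⟨M, hM⟩ : ∃ M, n = M + (i + 2) := ⟨n - (i + 2), by omega⟩
  have hM' : (n : ℝ) = M + (i + 2) := by exact_mod_cast hM
  have e1 : n - i = M + 2 := by omega
  have e2 : n - (i + 1) = M + 1 := by omega
  have m1 : (1 - 21 / 10 * ε) * n ≤ M := by clear * - ε n M k i hε hε1 h3 hk i1 hM'; linarith only [hε, hε1, h3, hk, i1, hM']
  have m2 : (n : ℝ) ≤ 2 * M := by clear * - n M ε k i hε hε1 h3 hk i1 i2 hM'; linarith only [hε, hε1, h3, hk, i1, i2, hM']
  have k1 := h0 M (by have : n ≤ 2 * M := by exact_mod_cast m2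
                      omega)
  have k2 : (1 - 21 / 10 * ε) * ell n ≤ ell M :=
    (mul_ell_le hc0 (by clear * - ε hε hc0 m1 n30; linarith only [hε]) n30).trans (ell_mono m1)
  have k3 : ((M : ℝ) + 1 + 1) ^ 2 ≤ (1 + ε / 10) * (M + 1) ^ 2 :=
    sana_sq (by clear * - M ε n k i hε hε1 h3 hk i1 i2 hM'; linarith only [hε, hε1, h3, hk, i1, i2, hM']) (by clear * - ε M n k i hε hε1 h3 hk i1 i2 hM'; (refine le_of_not_gt fun h_nl => ?_; linarith only [h_nl, hε, hε1, h3, hk, i1, i2, hM', mul_nonneg_of_nonpos_of_nonpos (Mathlib.Tactic.Linarith.sub_nonpos_of_le (Mathlib.Tactic.Linarith.natCast_nonneg ℝ n)) (le_of_lt (Mathlib.Tactic.Linarith.sub_neg_of_lt h_nl)), mul_nonneg_of_nonpos_of_nonpos (Mathlib.Tactic.Linarith.sub_nonpos_of_le (Mathlib.Tactic.Linarith.natCast_nonneg ℝ M)) (Mathlib.Tactic.Linarith.sub_nonpos_of_le h3)]))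
  have k4 : log ((M : ℝ) + 1) ^ 2 ≤ log (M + 1 + 1) ^ 2 := aell_sq (by clear * - M ε n k i hε hε1 h3 hk i1 i2 hM'; linarith only [hε, hε1, h3, hk, i1, i2, hM']) (by clear * - M ε hε hε1; linarith)
  have t1 : TN (M + 1) = 4 * log ((M : ℝ) + 1) ^ 2 * M.factorial * numDag M := by simp [TN]
  have t2 : TN (M + 2) =
      4 * log ((M : ℝ) + 1 + 1) ^ 2 * ((M + 1) * M.factorial) * numDag (M + 1) := by
    rw [TN, show M + 2 - 1 = M + 1 from rfl, Nat.factorial_succ]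
    push_cast
    rw [show (M : ℝ) + 2 = M + 1 + 1 by ring]
  have e3 : ((M + 2 : ℕ) : ℝ) = M + 1 + 1 := by push_cast; ring
  rw [e1, e2, t1, t2, e3]
  have k5 : ell n / (1 + 3 * ε) ≤ ell M / ((1 - 21 / 10 * ε) * (1 + 3 * ε)) := by
    clear * - n ε M hc0 k2 hr
    rw [← div_div]
    exact div_le_div_of_nonneg_right ((le_div_iff₀ hc0).2 (by linarith only [k2])) hr.le
  have hM0 := (sev_main M).1
  calc ((M : ℝ) + 1 + 1) ^ 2 * (ell n / (1 + 3 * ε)) *
        (4 * log ((M : ℝ) + 1) ^ 2 * M.factorial * numDag M)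
      ≤ ((1 + ε / 10) * (M + 1) ^ 2) * (ell M / ((1 - 21 / 10 * ε) * (1 + 3 * ε))) *
        (4 * log ((M : ℝ) + 1 + 1) ^ 2 * M.factorial * numDag M) := by clear * - M n ε k3 k5 hl hε k4 hM0 hc; gcongr
    _ = (1 + ε / 10) / ((1 - 21 / 10 * ε) * (1 + 3 * ε)) *
        (4 * log ((M : ℝ) + 1 + 1) ^ 2 * ((M + 1) * M.factorial)) *
        (numDag M * ((M + 1) * ell M)) := by ring
    _ ≤ (1 + ε / 10) / ((1 - 21 / 10 * ε) * (1 + 3 * ε)) *
        (4 * log ((M : ℝ) + 1 + 1) ^ 2 * ((M + 1) * M.factorial)) *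
        ((1 + ε / 10) * numDag (M + 1)) := mul_le_mul_of_nonneg_left k1 (by positivity)
    _ = _ := by ring

theorem TN_eq {n : ℕ} (hn : 2 ≤ n) : TN n * lam n ^ 2 = 4 * (n * n.factorial * numDag (n - 1)) := by
  have h1 : 0 < log (n : ℝ) := log_pos (by exact_mod_cast hn)
  obtain ⟨m, rfl⟩ : ∃ m, n = m + 1 := ⟨n - 1, by omega⟩
  rw [TN, lam, Nat.add_sub_cancel, Nat.factorial_succ, Nat.cast_mul]
  field_simp

theorem lam_succ {δ : ℝ} (hδ : 0 < δ) : ∀ᶠ n : ℕ in atTop,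
    lam n ^ 2 ≤ (1 + δ) * lam (n - 1) ^ 2 := by
  filter_upwards [eventually_ge_atTop 3,
    (tendsto_natCast_atTop_atTop.const_mul_atTop hδ).eventually_ge_atTop 6] with n h1 h2
  obtain ⟨m, rfl⟩ : ∃ m, n = m + 1 := ⟨n - 1, by omega⟩
  have m2 : (2 : ℝ) ≤ m := by exact_mod_cast (by omega : 2 ≤ m)
  have l1 : 0 < log (m : ℝ) := log_pos (by linarith only [m2])
  rw [Nat.cast_succ] at h2
  have k1 : ((m : ℝ) + 1) ^ 2 ≤ (1 + δ) * m ^ 2 := sana_sq (by linarith) (by (refine le_of_not_gt fun h_nl => ?_; linarith only [h_nl, m2, h2, mul_nonneg_of_nonpos_of_nonpos (Mathlib.Tactic.Linarith.sub_nonpos_of_le (Mathlib.Tactic.Linarith.natCast_nonneg ℝ m)) (Mathlib.Tactic.Linarith.sub_nonpos_of_le h2), mul_nonneg_of_nonpos_of_nonpos (Mathlib.Tactic.Linarith.sub_nonpos_of_le (Mathlib.Tactic.Linarith.natCast_nonneg ℝ m)) (le_of_lt (Mathlib.Tactic.Linarith.sub_neg_of_lt h_nl))]))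
  have k2 : log (m : ℝ) ^ 2 ≤ log (m + 1) ^ 2 := aell_sq (by linarith) (by linarith)
  rw [Nat.add_sub_cancel, lam, lam, div_pow, div_pow, Nat.cast_succ, ← mul_div_assoc]
  exact div_le_div₀ (by positivity) k1 (by positivity) k2

end Pool.Agent.Work.MP_5391ad_co
end

-- merged part: Pool.Agent.Work.MP_5391ad_co.ZGon
section
/-! The normalised volumes converge to the constant of `vq_lim`. -/

namespace Pool.Agent.Work.MP_5391ad_co

open Real Finset Filter

theorem zgon_zero (x : ℝ) (b : ℕ) :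
    Vol x (fun _ => 0) (fun _ => 1) b = x ^ b / b.factorial := by
  rw [Vol, sum_eq_single b]
  · rw [cbase_start fun _ _ => rfl, dl, if_pos rfl, mul_one, smul_eq_mul, div_eq_inv_mul]
  · intro k _ hk
    rw [cbase_start fun _ _ => rfl, dl, if_neg hk, mul_zero]
  · simp

theorem zgon_vg {A A' : ℕ → ℝ} : ∀ {n : ℕ}, (∀ i, 1 ≤ i → i < n → A i = A' i) → ∀ q,
    Vg A (fun _ => 1) n q = Vg A' (fun _ => 1) n q
  | 0, _, _ => rfl
  | _ + 1, _, 0 => rfl
  | n + 1, h, q + 1 => by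
    rw [Vg, Vg]
    refine congrArg _ (sum_congr rfl fun k hk => ?_)
    rw [zgon_vg fun i h1 h2 => h i h1 (by omega)]
    rcases n with _ | n
    · obtain rfl : k = 0 := by simpa using hk
      simp
    · rw [h (n + 1) (by omega) (by omega)]

theorem zgon_vol {A A' : ℕ → ℝ} {n : ℕ} (h : ∀ i, 1 ≤ i → i < n → A i = A' i) (a : ℝ) :
    Vol a A (fun _ => 1) n = Vol a A' (fun _ => 1) n :=
  sum_congr rfl fun _ _ => by rw [zgon_vg h]

theorem zgon_tel (a : ℕ → ℝ) {b m : ℕ} (h : m ≤ b) :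
    ∑ j ∈ Ico (b - m) b, (a (b - j) - a (b - j - 1)) = a m - a 0 := by
  induction m with
  | zero => simp
  | succ m ih =>
    rw [sum_eq_sum_Ico_succ_bot (by omega), show b - (m + 1) + 1 = b - m by omega, ih (by omega),
      show b - (b - (m + 1)) = m + 1 by omega, Nat.add_sub_cancel]
    ring

theorem vol_eq_gon (a : ℕ → ℝ) (b : ℕ) :
    Vol (a 0) (fun n => a (b - n) - a (b - n - 1)) (fun _ => 1) b = gon a b := by
  induction b using Nat.strong_induction_on with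
  | _ b ih =>
    rcases b with _ | n
    · simp [Vol, Vg, gon]
    have h := vol_tree (0 : ℝ) (a 0) (fun _ => 0) (fun j => a (n + 1 - j) - a (n + 1 - j - 1))
      (n + 1)
    rw [zgon_zero, zero_pow n.succ_ne_zero, zero_div, sum_range_succ, Nat.sub_self, zgon_zero,
      pow_zero, Nat.factorial_zero, Nat.cast_one, div_one, mul_one] at h
    simp only [add_zero] at h
    rw [gon, Fin.sum_univ_eq_sum_range
      (fun i => (-1) ^ (n - i) * a i ^ (n + 1 - i) / (n + 1 - i).factorial * gon a i),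
      eq_neg_of_add_eq_zero_right h.symm, ← sum_neg_distrib]
    refine sum_congr rfl fun m hm => ?_
    have hm' := mem_range.1 hm
    rw [zgon_zero, ← ih m hm', zgon_vol (A' := fun k => a (m - k) - a (m - k - 1))
      fun i _ hi => by rw [show n + 1 - (i + (n + 1 - m)) = m - i by omega]]
    simp only [zero_sub, sum_neg_distrib]
    rw [zgon_tel a hm'.le, show -a 0 + -(a m - a 0) = -1 * a m by ring, mul_pow,
      show n + 1 - m = n - m + 1 by omega, pow_succ (-1 : ℝ)]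
    ring

theorem node_eq {L x : ℝ} (hL : 0 < L) (h0 : 0 ≤ x) (hx : x < xc L⁻¹) : node L x = Lam L⁻¹ x := by
  obtain ⟨h1, h2, h3⟩ := tau_spec (inv_pos.2 hL) hx
  have h4 : exp (Lam L⁻¹ x) = L * tau L⁻¹ x := by
    rw [show Lam L⁻¹ x = log L + log (tau L⁻¹ x) by rw [Lam, log_inv] at *; linarith only [h3], exp_add,
      exp_log hL, exp_log h1]
  have h5 : L * Lam L⁻¹ x - exp (Lam L⁻¹ x) = x := by
    rw [h4, Lam, mul_add, mul_inv_cancel_left₀ hL.ne']
    ring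
  have h6 : 0 ≤ Lam L⁻¹ x := by rw [Lam]; positivity
  refine IsLeast.csInf_eq ⟨⟨h6, h5.ge⟩, fun u hu => not_lt.1 fun h => ?_⟩
  have h7 := add_one_le_exp (u - Lam L⁻¹ x)
  rw [exp_sub, le_div_iff₀ (exp_pos _), h4] at h7
  rw [h4] at h5
  clear * - L x u h5 h7 hu hL h h2
  linarith only [h5, h7, hu, hL, h, h2, hu.2, mul_pos (mul_pos hL (sub_pos.2 h)) (sub_pos.2 h2)]

theorem scl_spec {b : ℝ} (hb : 0 ≤ b) : exp 1 ≤ scl b ∧ xc (scl b)⁻¹ = b := by
  obtain ⟨L, h1, h2⟩ := exists_xc (L0 := exp 1) (x := b) (one_le_exp zero_le_one)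
    (by rwa [xc_inv (exp_pos 1), log_exp, sub_self, mul_zero])
  have h0 := (exp_pos 1).trans_le h1
  have h3 : scl b = L := by
    rw [xc_inv h0] at h2
    refine IsLeast.csInf_eq ⟨⟨h1, h2.ge⟩, fun u hu => not_lt.1 fun h => ?_⟩
    have h4 := (exp_pos 1).trans_le hu.1
    have h5 := log_lt_log h4 h
    have h6 := ab0_log hu.1
    linarith only [h2, hu, h0, h5, h, h6, hu.2, mul_pos_of_neg_of_neg (Mathlib.Tactic.Linarith.sub_neg_of_lt h0) (Mathlib.Tactic.Linarith.sub_neg_of_lt h5), mul_nonneg_of_nonpos_of_nonpos (le_of_lt (Mathlib.Tactic.Linarith.sub_neg_of_lt h)) (Mathlib.Tactic.Linarith.sub_nonpos_of_le h6)]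
  rw [h3]
  exact ⟨h1, h2⟩

theorem tendsto_scl : Tendsto (fun b : ℕ => scl b) atTop atTop := by
  refine tendsto_atTop_mono (fun b => ?_) (tendsto_sqrt_atTop.comp tendsto_natCast_atTop_atTop)
  obtain ⟨h1, h2⟩ := scl_spec b.cast_nonneg
  have h0 := (exp_pos 1).trans_le h1
  rw [xc_inv h0] at h2
  refine sqrt_le_iff.2 ⟨h0.le, ?_⟩
  (refine le_of_not_gt fun h_nl => ?_; linarith only [h_nl, h0, h2, log_le_sub_one_of_pos h0, mul_nonneg_of_nonpos_of_nonpos (Mathlib.Tactic.Linarith.sub_nonpos_of_le (sq_nonneg (scl ↑b))) (Mathlib.Tactic.Linarith.sub_nonpos_of_le (log_le_sub_one_of_pos h0)), Mathlib.Tactic.Linarith.zero_mul_eq (sub_eq_zero_of_eq h2) (Mathlib.Tactic.Linarith.sub_neg_of_lt h0), mul_pos_of_neg_of_neg (Mathlib.Tactic.Linarith.sub_neg_of_lt h0) (Mathlib.Tactic.Linarith.sub_neg_of_lt h0), mul_pos_of_neg_of_neg (Mathlib.Tactic.Linarith.sub_neg_of_lt h0) (Mathlib.Tactic.Linarith.sub_neg_of_lt h_nl)])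

theorem cseq_eq (B : ℕ) :
    cseq (B + 1) = VQ (scl (B + 1 : ℕ))⁻¹ B 1 / mainV (scl (B + 1 : ℕ)) 1 := by
  obtain ⟨h1, h2⟩ := scl_spec (B + 1).cast_nonneg
  rw [cseq]
  generalize scl (B + 1 : ℕ) = L at h1 h2 ⊢
  have h0 := (exp_pos 1).trans_le h1
  have h3 : 0 < log L := zero_lt_one.trans_le (ab0_log h1)
  have h4 : gon (fun i => node L i) (B + 1) = VQ L⁻¹ B 1 := by
    rw [← vol_eq_gon, VQ, VQg, node_eq h0 (Nat.cast_nonneg _) (by rw [h2]; exact_mod_cast B.succ_pos),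
      Nat.cast_zero]
    refine zgon_vol (fun i hi hi' => ?_) _
    have h5 : ∀ k ≤ B, node L k = Lam L⁻¹ k := fun k hk => node_eq h0 (Nat.cast_nonneg _)
      (by rw [h2]; exact_mod_cast Nat.lt_succ_of_le hk)
    rw [if_neg (by omega), h5 _ (by omega), h5 _ (by omega), rate, zero_add,
      show B - (i - 1) = B + 1 - i by omega, Nat.cast_pred (by omega)]
  rw [h4, mainV, mainS, hL, sub_self, zero_div, rpow_zero, rpow_neg h0.le, rpow_neg h3.le, exp_neg,
    exp_neg, exp_add]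
  field_simp

theorem cseq_lim : ∃ c : ℝ, 0 < c ∧ VLim c ∧ Tendsto cseq atTop (nhds c) := by
  obtain ⟨c, hc, h⟩ := vq_lim
  refine ⟨c, hc, h, (tendsto_add_atTop_iff_nat 1).1 (stagec_lim.2 fun ζ hζ => ?_)⟩
  filter_upwards [(tendsto_scl.comp (tendsto_add_atTop_nat 1)).eventually (h ζ hζ)] with B h1
  rw [cseq_eq]
  exact h1 B (by rw [Function.comp_apply, (scl_spec (B + 1).cast_nonneg).2, Nat.cast_succ])

end Pool.Agent.Work.MP_5391ad_co
end

-- merged part: Pool.Agent.Work.MP_5391ad_co.ZFin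
section
/-! The asymptotic formula from stage B and stage C. -/

namespace Pool.Agent.Work.MP_5391ad_co

open Real Finset Filter

theorem zfin_ell : Tendsto (fun n : ℝ => ell (n + 1) / ell n) atTop (nhds 1) := by
  refine tendsto_of_tendsto_of_tendsto_of_le_of_le' tendsto_const_nhds
    (by simpa using (tendsto_inv_atTop_zero.comp tendsto_ell).add_const 1) ?_ ?_
  · refine .of_forall fun n => ?_
    exact (one_le_div (zero_lt_one.trans_le (aell_one (le_ell n)))).2 (ell_mono (by linarith))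
  · filter_upwards [eventually_ge_atTop 30] with n hn
    have h1 := ell_sub_le hn (show n ≤ n + 1 by linarith)
    have h2 := zero_lt_one.trans_le (aell_one (le_ell n))
    rw [div_le_iff₀ h2, add_mul, inv_mul_cancel₀ h2.ne']
    linarith

theorem zfin_log : Tendsto (fun n : ℝ => log (ell n) / log n) atTop (nhds 1) := by
  refine stagec_lim.2 fun ζ hζ => ?_
  filter_upwards [rpow_le_ell hζ, eventually_ge_atTop 30] with n h1 h2
  have h3 : 0 < log n := log_pos (by linarith)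
  have h4 := log_le_log (rpow_pos_of_pos (by linarith) _) h1
  have h5 := log_le_log (zero_lt_one.trans_le (aell_one (le_ell n))) (ell_le h2)
  rw [log_rpow (by linarith)] at h4
  rw [abs_le, le_sub_iff_add_le, sub_le_iff_le_add, le_div_iff₀ h3, div_le_iff₀ h3]
  constructor <;> linarith only [h4, h5]

theorem final_of (hB : Tendsto (fun n : ℕ => (numND n : ℝ) /
    (4 * log n ^ 2 * (n - 1).factorial * numDag (n - 1))) atTop (nhds 1)) :
    ∃ c : ℝ, 0 < c ∧ Tendsto cseq atTop (nhds c) ∧ Tendsto (fun n : ℕ => (numND n : ℝ) /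
      (8 * √2 * exp (π ^ 2 / 6) * c * (n.factorial : ℝ) ^ 2 *
        exp ((n + 2 * ell n) * (log (ell n) - 1) - kappa * ell n ^ (1 / 3 : ℝ) - log (ell n) ^ 2) *
        ell n ^ (-(14 / 3) : ℝ) * log (ell n) ^ (-6 : ℝ))) atTop (nhds 1) := by
  obtain ⟨c, hc, hv, hl⟩ := cseq_lim
  refine ⟨c, hc, hl, (tendsto_add_atTop_iff_nat 1).1 ?_⟩
  have hn := tendsto_natCast_atTop_atTop (R := ℝ)
  have hs := tendsto_add_atTop_nat 1
  have h1 := stageC_of hc hv
  have e : exp (3 / 2 * log 2 + π ^ 2 / 6) = 2 * √2 * exp (π ^ 2 / 6) := by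
    rw [exp_add, stagec_sqrt two_pos, show 3 / 2 * log 2 = log 2 + log 2 / 2 by ring, exp_add,
      exp_log two_pos]
  rw [e] at h1
  have h2 := (((((hB.comp hs).mul (h1.div_const (c * (2 * √2 * exp (π ^ 2 / 6))))).mul
    ((mainD_ratio.comp hn).inv₀ one_ne_zero)).mul (zfin_ell.comp hn)).mul
    ((((zfin_log.comp hn).comp hs).inv₀ one_ne_zero).pow 2)).mul
    (((stagec_N.comp hs).inv₀ one_ne_zero).pow 2)
  rw [div_self (by positivity), inv_one, one_pow, mul_one, mul_one, mul_one, mul_one,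
    mul_one] at h2
  refine h2.congr' ?_
  filter_upwards [h1.eventually_ne (by positivity : c * (2 * √2 * exp (π ^ 2 / 6)) ≠ 0),
    eventually_ge_atTop 1] with n h3 h4
  have h5 : (numDag n : ℝ) ≠ 0 := fun h => h3 (by rw [h, zero_div])
  have h6 := (stagec_mainD_pos n).ne'
  have h7 := zero_lt_one.trans_le (aell_one (le_ell n))
  have h8 := zero_lt_one.trans_le (aell_one (le_ell (n + 1)))
  have h9 := two_pos.trans_le (aell_log (le_ell (n + 1)))
  have h10 : 0 < log (n + 1 : ℝ) := log_pos (by simpa using Nat.succ_le_iff.1 h4)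
  have h11 : (n.factorial : ℝ) ≠ 0 := Nat.cast_ne_zero.2 n.factorial_ne_zero
  have e1 : ell (n + 1) ^ (-(14 / 3) : ℝ) = ell (n + 1) ^ (-(5 / 3) : ℝ) / ell (n + 1) ^ 3 := by
    rw [← rpow_natCast, ← rpow_sub h8]
    norm_num
  have e2 : log (ell (n + 1)) ^ (-6 : ℝ) =
      log (ell (n + 1)) ^ (-4 : ℝ) / log (ell (n + 1)) ^ 2 := by
    rw [← rpow_natCast, ← rpow_sub h9]
    norm_num
  have h12 := (rpow_pos_of_pos h8 (-(5 / 3))).ne'
  have h13 := (rpow_pos_of_pos h9 (-4)).ne'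
  simp only [Function.comp_apply, Nat.add_sub_cancel, Nat.cast_succ, Nat.factorial_succ,
    Nat.cast_mul, mainD.eq_1 (n + 1), FF, e1, e2]
  field_simp
  ring

end Pool.Agent.Work.MP_5391ad_co
end
end
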