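import Pool.Agent.Work.MP_5391ad_co.CFlat

/-! The tilt of the scale: elementary estimates. -/

namespace Pool.Agent.Work.MP_5391ad_co

open Real Finset Filter PowerSeries

theorem cjump_lip {a b : ℝ} (ha : 1 ≤ a) (hb : 1 ≤ b) : |log a - log b| ≤ |a - b| := by
  have key : ∀ x y : ℝ, 1 ≤ x → 1 ≤ y → log x - log y ≤ |x - y| := fun x y hx hy => by
    have hy0 : 0 < y := by linarith only [hy]
    rw [← log_div (by linarith) hy0.ne']
    have h1 := log_le_sub_one_of_pos (div_pos (by linarith : 0 < x) hy0)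
    have h2 : x / y - 1 = (x - y) / y := by field_simp
    have h3 : (x - y) / y ≤ |x - y| / y := div_le_div_of_nonneg_right (le_abs_self _) hy0.le
    have h4 : |x - y| / y ≤ |x - y| := div_le_self (abs_nonneg _) hy
    linarith only [h1, h2, h3, h4]
  have h1 := key a b ha hb
  have h2 := key b a hb ha
  rw [abs_sub_comm b a] at h2
  exact abs_le.2 ⟨by linarith, h1⟩

theorem cjump_lr {x y : ℝ} (hx : 0 < x) (hy : 0 < y) :
    (x - y) / x ≤ log x - log y ∧ log x - log y ≤ (x - y) / y := by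
  have h1 := log_le_sub_one_of_pos (div_pos hx hy)
  have h2 := log_le_sub_one_of_pos (div_pos hy hx)
  rw [log_div hx.ne' hy.ne'] at h1
  rw [log_div hy.ne' hx.ne'] at h2
  have e1 : x / y - 1 = (x - y) / y := by field_simp
  have e2 : y / x - 1 = -((x - y) / x) := by field_simp; ring
  exact ⟨by linarith only [h2, e2], by linarith only [h1, e1]⟩

theorem cjump_near {η : ℝ} (hη : 0 < η) (L0 : ℝ) : ∀ᶠ N : ℕ in atTop, ∀ L : ℝ,
    |L - ell N| ≤ ell N ^ (3 / 5 : ℝ) →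
      L0 ≤ L ∧ |N - L * log L ^ 2| ≤ η * (L * log L ^ 2) := by
  obtain ⟨e, he0, he1, he2⟩ : ∃ e : ℝ, 0 < e ∧ e ≤ 1 / 20 ∧ 15 * e ≤ η :=
    ⟨min η 1 / 20, by positivity, by linarith only [min_le_right η 1], by
      linarith only [hη, min_le_left η 1, lt_min hη one_pos]⟩
  have ht : Tendsto (fun N : ℕ => ell N) atTop atTop :=
    tendsto_ell.comp tendsto_natCast_atTop_atTop
  have h1 := ((tendsto_rpow_neg_atTop (show (0 : ℝ) < 2 / 5 by norm_num)).comp ht).eventually_le_const he0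
  have h2 := ht.eventually_ge_atTop (2 * L0)
  have h3 := (tendsto_log_atTop.comp ht).eventually_ge_atTop (e⁻¹ + 2)
  have h4 := tendsto_natCast_atTop_atTop (R := ℝ).eventually_ge_atTop 30
  filter_upwards [h1, h2, h3, h4] with N h1 h2 h3 h4 L hL
  simp only [Function.comp] at h1 h3
  have hs := ell_spec h4
  have hl0 : 0 < ell N := (exp_pos 2).trans_le (le_ell _)
  generalize ell (N : ℝ) = l at *
  have e1 : l ^ (3 / 5 : ℝ) = l * l ^ (-(2 / 5) : ℝ) := by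
    rw [show (3 / 5 : ℝ) = 1 + -(2 / 5) by norm_num, rpow_add hl0, rpow_one]
  have hd : |L - l| ≤ e * l := by
    clear * - L l e e1 hL he0 he1 h1 hl0
    rw [e1] at hL
    (refine le_of_not_gt fun h_nl => ?_; linarith only [h_nl, hL, he0, he1, h1, hl0, mul_pos_of_neg_of_neg (Mathlib.Tactic.Linarith.sub_neg_of_lt he0) (Mathlib.Tactic.Linarith.sub_neg_of_lt h_nl), mul_nonneg_of_nonpos_of_nonpos (Mathlib.Tactic.Linarith.sub_nonpos_of_le he1) (le_of_lt (Mathlib.Tactic.Linarith.sub_neg_of_lt h_nl)), mul_nonneg_of_nonpos_of_nonpos (Mathlib.Tactic.Linarith.sub_nonpos_of_le h1) (le_of_lt (Mathlib.Tactic.Linarith.sub_neg_of_lt hl0))])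
  obtain ⟨d1, d2⟩ := abs_le.1 hd
  have hl2 : l ≤ 2 * L := by clear * - l L e hl0 d1 he1; linarith only [hl0, d1, he1, mul_nonneg_of_nonpos_of_nonpos (Mathlib.Tactic.Linarith.sub_nonpos_of_le he1) (le_of_lt (Mathlib.Tactic.Linarith.sub_neg_of_lt hl0))]
  have hL0 : 0 < L := by linarith only [hl0, hl2]
  obtain ⟨l1, l2⟩ := cjump_lr hL0 hl0
  have l3 : (L - l) / l ≤ 1 := by
    clear * - L l hl0 e d2 he1
    rw [div_le_one hl0]
    linarith only [hl0, d2, he1, mul_nonneg_of_nonpos_of_nonpos (Mathlib.Tactic.Linarith.sub_nonpos_of_le he1) (le_of_lt (Mathlib.Tactic.Linarith.sub_neg_of_lt hl0))]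
  have l4 : -1 ≤ (L - l) / L := by
    clear * - L l hL0 hl2
    rw [le_div_iff₀ hL0]
    nlinarith
  have hei : 0 < e⁻¹ := inv_pos.2 he0
  have hw1 : 1 ≤ log L := by linarith only [h3, l1, l4, hei]
  have hew : 1 ≤ e * log L := by
    clear * - e he0 L l he1 h3 l1 l4
    have : e * e⁻¹ = 1 := mul_inv_cancel₀ he0.ne'
    linarith only [this, he0, he1, h3, l1, l4, mul_pos_of_neg_of_neg (Mathlib.Tactic.Linarith.sub_neg_of_lt he0) (Mathlib.Tactic.Linarith.sub_neg_of_lt he0), mul_nonneg_of_nonpos_of_nonpos (le_of_lt (Mathlib.Tactic.Linarith.sub_neg_of_lt he0)) (Mathlib.Tactic.Linarith.sub_nonpos_of_le he1), mul_nonneg_of_nonpos_of_nonpos (le_of_lt (Mathlib.Tactic.Linarith.sub_neg_of_lt he0)) (Mathlib.Tactic.Linarith.sub_nonpos_of_le h3), mul_nonneg_of_nonpos_of_nonpos (le_of_lt (Mathlib.Tactic.Linarith.sub_neg_of_lt he0)) (Mathlib.Tactic.Linarith.sub_nonpos_of_le l1), mul_nonneg_of_nonpos_of_nonpos (le_of_lt (Mathlib.Tactic.Linarith.sub_neg_of_lt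 he0)) (Mathlib.Tactic.Linarith.sub_nonpos_of_le l4)]
  obtain ⟨p1, p2⟩ := aell_pi
  refine ⟨by clear * - L0 L l h2 hl2; linarith, ?_⟩
  generalize log L = w at *
  generalize log l = u at *
  have e2 : (N : ℝ) - L * w ^ 2 = -((L - l) * u ^ 2) + L * (u ^ 2 - w ^ 2) - l * (π ^ 2 / 6) := by
    rw [← hs]
    ring
  have b1 : |(L - l) * u ^ 2| ≤ 8 * e * (L * w ^ 2) := by
    clear * - L l u e w he1 l4 hew l1 he0 hw1 hei h3 hd hl2 hL0
    rw [abs_mul, abs_of_nonneg (sq_nonneg u)]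
    have hu : u ^ 2 ≤ 4 * w ^ 2 := by (refine le_of_not_gt fun h_nl => ?_; linarith only [h_nl, he1, l4, hew, l1, he0, hw1, hei, h3, mul_nonneg_of_nonpos_of_nonpos (Mathlib.Tactic.Linarith.sub_nonpos_of_le (sq_nonneg u)) (Mathlib.Tactic.Linarith.sub_nonpos_of_le he1), mul_pos_of_neg_of_neg (Mathlib.Tactic.Linarith.sub_neg_of_lt he0) (Mathlib.Tactic.Linarith.sub_neg_of_lt he0), mul_nonneg_of_nonpos_of_nonpos (le_of_lt (Mathlib.Tactic.Linarith.sub_neg_of_lt he0)) (Mathlib.Tactic.Linarith.sub_nonpos_of_le he1), mul_pos_of_neg_of_neg (Mathlib.Tactic.Linarith.sub_neg_of_lt he0) (Mathlib.Tactic.Linarith.sub_neg_of_lt h_nl), mul_nonneg_of_nonpos_of_nonpos (Mathlib.Tactic.Linarith.sub_nonpos_of_le he1) (Mathlib.Tactic.Linarith.sub_nonpos_of_le hw1), mul_nonneg_of_nonpos_of_nonpos (Mathlib.Tactic.Linarith.sub_nonpos_of_le l4) (le_of_lt (Mathlib.Tactic.Linarith.sub_neg_of_lt hei)), mul_nonneg_of_nonpos_of_nonpos (Mathlib.Tactic.Linarith.sub_nonpos_of_le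 l4) (Mathlib.Tactic.Linarith.sub_nonpos_of_le hw1), mul_nonneg_of_nonpos_of_nonpos (Mathlib.Tactic.Linarith.sub_nonpos_of_le l4) (Mathlib.Tactic.Linarith.sub_nonpos_of_le h3), mul_nonneg_of_nonpos_of_nonpos (le_of_lt (Mathlib.Tactic.Linarith.sub_neg_of_lt hei)) (Mathlib.Tactic.Linarith.sub_nonpos_of_le l1), mul_nonneg_of_nonpos_of_nonpos (Mathlib.Tactic.Linarith.sub_nonpos_of_le hw1) (Mathlib.Tactic.Linarith.sub_nonpos_of_le hew), mul_nonneg_of_nonpos_of_nonpos (Mathlib.Tactic.Linarith.sub_nonpos_of_le hw1) (Mathlib.Tactic.Linarith.sub_nonpos_of_le l1), mul_nonneg_of_nonpos_of_nonpos (Mathlib.Tactic.Linarith.sub_nonpos_of_le h3) (Mathlib.Tactic.Linarith.sub_nonpos_of_le l1)])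
    have hd' : |L - l| ≤ 2 * e * L := by linarith only [hd, he0, hl2, mul_nonneg_of_nonpos_of_nonpos (le_of_lt (Mathlib.Tactic.Linarith.sub_neg_of_lt he0)) (Mathlib.Tactic.Linarith.sub_nonpos_of_le hl2)]
    calc |L - l| * u ^ 2 ≤ 2 * e * L * (4 * w ^ 2) :=
          mul_le_mul hd' hu (sq_nonneg u) (by positivity)
      _ = _ := by ring
  have b2 : |L * (u ^ 2 - w ^ 2)| ≤ L * (3 * w) := by
    clear * - L u w hL0 e l he1 l3 hew l2 he0 hw1 hei h3 l4 l1
    rw [abs_mul, abs_of_pos hL0]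
    refine mul_le_mul_of_nonneg_left (abs_le.2 ⟨by (refine le_of_not_gt fun h_nl => ?_; linarith only [h_nl, he1, l3, hew, l2, he0, hw1, hei, h3, mul_pos_of_neg_of_neg (Mathlib.Tactic.Linarith.sub_neg_of_lt he0) (Mathlib.Tactic.Linarith.sub_neg_of_lt he0), mul_nonneg_of_nonpos_of_nonpos (le_of_lt (Mathlib.Tactic.Linarith.sub_neg_of_lt he0)) (Mathlib.Tactic.Linarith.sub_nonpos_of_le he1), mul_pos_of_neg_of_neg (Mathlib.Tactic.Linarith.sub_neg_of_lt he0) (Mathlib.Tactic.Linarith.sub_neg_of_lt h_nl), mul_nonneg_of_nonpos_of_nonpos (Mathlib.Tactic.Linarith.sub_nonpos_of_le he1) (Mathlib.Tactic.Linarith.sub_nonpos_of_le hw1), mul_nonneg_of_nonpos_of_nonpos (Mathlib.Tactic.Linarith.sub_nonpos_of_le he1) (le_of_lt (Mathlib.Tactic.Linarith.sub_neg_of_lt h_nl)), mul_nonneg_of_nonpos_of_nonpos (Mathlib.Tactic.Linarith.sub_nonpos_of_le l3) (le_of_lt (Mathlib.Tactic.Linarith.sub_neg_of_lt hei)), mul_nonneg_of_nonpos_of_nonpos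 (Mathlib.Tactic.Linarith.sub_nonpos_of_le l3) (Mathlib.Tactic.Linarith.sub_nonpos_of_le hw1), mul_nonneg_of_nonpos_of_nonpos (Mathlib.Tactic.Linarith.sub_nonpos_of_le l3) (Mathlib.Tactic.Linarith.sub_nonpos_of_le h3), mul_nonneg_of_nonpos_of_nonpos (le_of_lt (Mathlib.Tactic.Linarith.sub_neg_of_lt hei)) (Mathlib.Tactic.Linarith.sub_nonpos_of_le l2), mul_nonneg_of_nonpos_of_nonpos (Mathlib.Tactic.Linarith.sub_nonpos_of_le hw1) (Mathlib.Tactic.Linarith.sub_nonpos_of_le l2), mul_nonneg_of_nonpos_of_nonpos (Mathlib.Tactic.Linarith.sub_nonpos_of_le h3) (Mathlib.Tactic.Linarith.sub_nonpos_of_le l2)]), by (refine le_of_not_gt fun h_nl => ?_; linarith only [h_nl, he1, l4, hew, l1, he0, hw1, hei, h3, mul_pos_of_neg_of_neg (Mathlib.Tactic.Linarith.sub_neg_of_lt he0) (Mathlib.Tactic.Linarith.sub_neg_of_lt he0), mul_nonneg_of_nonpos_of_nonpos (le_of_lt (Mathlib.Tactic.Linarith.sub_neg_of_lt he0)) (Mathlib.Tactic.Linarith.sub_nonpos_of_le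 he1), mul_pos_of_neg_of_neg (Mathlib.Tactic.Linarith.sub_neg_of_lt he0) (Mathlib.Tactic.Linarith.sub_neg_of_lt h_nl), mul_nonneg_of_nonpos_of_nonpos (Mathlib.Tactic.Linarith.sub_nonpos_of_le he1) (Mathlib.Tactic.Linarith.sub_nonpos_of_le hw1), mul_nonneg_of_nonpos_of_nonpos (Mathlib.Tactic.Linarith.sub_nonpos_of_le he1) (le_of_lt (Mathlib.Tactic.Linarith.sub_neg_of_lt h_nl)), mul_nonneg_of_nonpos_of_nonpos (Mathlib.Tactic.Linarith.sub_nonpos_of_le l4) (Mathlib.Tactic.Linarith.sub_nonpos_of_le l4), mul_nonneg_of_nonpos_of_nonpos (Mathlib.Tactic.Linarith.sub_nonpos_of_le l4) (le_of_lt (Mathlib.Tactic.Linarith.sub_neg_of_lt hei)), mul_nonneg_of_nonpos_of_nonpos (Mathlib.Tactic.Linarith.sub_nonpos_of_le l4) (Mathlib.Tactic.Linarith.sub_nonpos_of_le h3), mul_nonneg_of_nonpos_of_nonpos (Mathlib.Tactic.Linarith.sub_nonpos_of_le l4) (Mathlib.Tactic.Linarith.sub_nonpos_of_le l1), mul_nonneg_of_nonpos_of_nonpos (le_of_lt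 (Mathlib.Tactic.Linarith.sub_neg_of_lt hei)) (Mathlib.Tactic.Linarith.sub_nonpos_of_le l1), mul_nonneg_of_nonpos_of_nonpos (Mathlib.Tactic.Linarith.sub_nonpos_of_le hw1) (Mathlib.Tactic.Linarith.sub_nonpos_of_le l1), mul_nonneg_of_nonpos_of_nonpos (Mathlib.Tactic.Linarith.sub_nonpos_of_le h3) (Mathlib.Tactic.Linarith.sub_nonpos_of_le l1)])⟩) hL0.le
  have b3 : 0 ≤ l * (π ^ 2 / 6) ∧ l * (π ^ 2 / 6) ≤ L * (4 * w) := ⟨by positivity, by clear * - l L w e u d1 he0 hL0 he1 hl0 hl2 l4 hei p2 h3 l1 hw1; (refine le_of_not_gt fun h_nl => ?_; linarith only [h_nl, hl0, d1, he0, he1, l4, hei, p2, h3, l1, hl2, hw1, mul_pos_of_neg_of_neg (Mathlib.Tactic.Linarith.sub_neg_of_lt he0) (Mathlib.Tactic.Linarith.sub_neg_of_lt h_nl), mul_nonneg_of_nonpos_of_nonpos (Mathlib.Tactic.Linarith.sub_nonpos_of_le he1) (le_of_lt (Mathlib.Tactic.Linarith.sub_neg_of_lt hl0)), mul_nonneg_of_nonpos_of_nonpos (Mathlib.Tactic.Linarith.sub_nonpos_of_le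 he1) (le_of_lt (Mathlib.Tactic.Linarith.sub_neg_of_lt h_nl)), mul_nonneg_of_nonpos_of_nonpos (le_of_lt (Mathlib.Tactic.Linarith.sub_neg_of_lt hl0)) (Mathlib.Tactic.Linarith.sub_nonpos_of_le l4), mul_pos_of_neg_of_neg (Mathlib.Tactic.Linarith.sub_neg_of_lt hl0) (Mathlib.Tactic.Linarith.sub_neg_of_lt hei), mul_nonneg_of_nonpos_of_nonpos (le_of_lt (Mathlib.Tactic.Linarith.sub_neg_of_lt hl0)) (Mathlib.Tactic.Linarith.sub_nonpos_of_le p2), mul_nonneg_of_nonpos_of_nonpos (le_of_lt (Mathlib.Tactic.Linarith.sub_neg_of_lt hl0)) (Mathlib.Tactic.Linarith.sub_nonpos_of_le h3), mul_nonneg_of_nonpos_of_nonpos (le_of_lt (Mathlib.Tactic.Linarith.sub_neg_of_lt hl0)) (Mathlib.Tactic.Linarith.sub_nonpos_of_le l1), mul_nonneg_of_nonpos_of_nonpos (Mathlib.Tactic.Linarith.sub_nonpos_of_le hl2) (Mathlib.Tactic.Linarith.sub_nonpos_of_le hw1)])⟩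
  have b4 : L * w ≤ e * (L * w ^ 2) := by
    clear * - L w e hew hL0 hw1
    have := mul_le_mul_of_nonneg_left hew (show 0 ≤ L * w by positivity)
    nlinarith
  have b5 : 15 * e * (L * w ^ 2) ≤ η * (L * w ^ 2) :=
    mul_le_mul_of_nonneg_right he2 (by positivity)
  obtain ⟨c1, c2⟩ := abs_le.1 b1
  obtain ⟨c3, c4⟩ := abs_le.1 b2
  rw [e2]
  exact abs_le.2 ⟨by clear * - η L w l u e b3 b4 b5 c2 c3; linarith only [b3, b4, b5, c2, c3, b3.1, b3.2], by clear * - L l u w η e b3 b4 b5 c1 c4; linarith only [b3, b4, b5, c1, c4, b3.1, b3.2]⟩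

theorem cjump_ev {P : ℝ → Prop} (h : ∀ᶠ L in atTop, P L) : ∀ᶠ N : ℕ in atTop, ∀ L : ℝ,
    |L - ell N| ≤ ell N ^ (3 / 5 : ℝ) → ∀ L', |L' - L| ≤ 1 → P L' := by
  obtain ⟨L0, h⟩ := eventually_atTop.1 h
  filter_upwards [cjump_near one_pos (L0 + 1)] with N hN L hL L' h'
  exact h L' (by linarith only [hN, hL, h', (hN L hL).1, (abs_le.1 h').1])

theorem cjump_g {L L' : ℝ} (h : 0 < L) (h' : 0 < L') :
    (L - L') - (L - L') ^ 2 / L ≤ L' * (log L - log L') ∧ L' * (log L - log L') ≤ L - L' := by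
  obtain ⟨l1, l2⟩ := cjump_lr h h'
  have a1 := mul_le_mul_of_nonneg_left l1 h'.le
  have a2 := mul_le_mul_of_nonneg_left l2 h'.le
  have e1 : L' * ((L - L') / L) = (L - L') - (L - L') ^ 2 / L := by field_simp; ring
  have e2 : L' * ((L - L') / L') = L - L' := by field_simp
  exact ⟨by linarith only [a1, e1], by linarith only [a2, e2]⟩

theorem cjump_t0 {c L : ℝ} (h0 : -1 ≤ c) (h1 : c ≤ 1) (hL : 10 ≤ L) (hw : 2 ≤ log L) :
    ∃ L' : ℝ, |L' - L| ≤ 1 ∧ xc L'⁻¹ = xc L⁻¹ - c ∧ |(L - L') * log L - c| ≤ 1 / L := by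
  have hL0 : 0 < L := by linarith only [hL]
  have hi : 1 / L ≤ 1 := by
    rw [div_le_one hL0]
    linarith
  obtain ⟨L', a1, a2⟩ : ∃ L', L - 1 ≤ L' ∧ xc L'⁻¹ = xc L⁻¹ - c := by
    refine exists_xc (by linarith only [hL]) ?_
    obtain ⟨g1, -⟩ := cjump_g hL0 (show 0 < L - 1 by linarith)
    rw [xc_inv hL0, xc_inv (show 0 < L - 1 by linarith only [hL])]
    have e : (L - (L - 1)) ^ 2 / L = 1 / L := by
      rw [sub_sub_cancel, one_pow]
    rw [e] at g1
    clear * - L c h1 hw hi g1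
    linarith only [h1, hw, hi, g1]
  have hL' : 0 < L' := by linarith
  obtain ⟨g1, g2⟩ := cjump_g hL0 hL'
  have a3 := a2
  rw [xc_inv hL0, xc_inv hL'] at a3
  have e : c = (L - L') * log L + (L' * (log L - log L') - (L - L')) := by linarith only [a3]
  have a4 : -1 ≤ L - L' := by
    clear * - L L' c h0 g2 a3 hw a1
    by_contra hc
    have hc := not_le.1 hc
    nlinarith
  have a5 : (L - L') ^ 2 / L ≤ 1 / L := div_le_div_of_nonneg_right (by clear * - L L' c a1 h0 hw g2 a3 hL0; (refine le_of_not_gt fun h_nl => ?_; linarith only [h_nl, a1, h0, hw, g2, a3, mul_nonneg_of_nonpos_of_nonpos (Mathlib.Tactic.Linarith.sub_nonpos_of_le h0) (Mathlib.Tactic.Linarith.sub_nonpos_of_le a1), mul_nonneg_of_nonpos_of_nonpos (Mathlib.Tactic.Linarith.sub_nonpos_of_le hw) (Mathlib.Tactic.Linarith.sub_nonpos_of_le a1), mul_nonneg_of_nonpos_of_nonpos (Mathlib.Tactic.Linarith.sub_nonpos_of_le hw) (le_of_lt (Mathlib.Tactic.Linarith.sub_neg_of_lt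 h_nl)), mul_nonneg_of_nonpos_of_nonpos (Mathlib.Tactic.Linarith.sub_nonpos_of_le a1) (Mathlib.Tactic.Linarith.sub_nonpos_of_le g2), Mathlib.Tactic.Linarith.mul_zero_eq (Mathlib.Tactic.Linarith.sub_nonpos_of_le a1) (sub_eq_zero_of_eq a3)])) hL0.le
  have a6 : 0 ≤ 1 / L := by positivity
  exact ⟨L', abs_le.2 ⟨by linarith only [a1], by linarith only [a4]⟩, a2, abs_le.2 ⟨by linarith only [g1, g2, a3, a5], by linarith only [g1, a3, a5]⟩⟩

theorem cjump_t1 {c L L' n η : ℝ} (hc : |c| ≤ 1) (hL : 10 ≤ L) (hw : 2 ≤ log L)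
    (hd : |L' - L| ≤ 1) (he : |(L - L') * log L - c| ≤ 1 / L) (hη : η ≤ 1)
    (hn : |n - L * log L ^ 2| ≤ η * (L * log L ^ 2)) :
    |n * log ((L - 1) / (L' - 1)) - c * log L| ≤ (17 / L + 2 * η) * log L := by
  have hL0 : 0 < L := by linarith only [hL]
  obtain ⟨d1, d2⟩ := abs_le.1 hd
  have p1 : 0 < L - 1 := by linarith only [hL]
  have p2 : 0 < L' - 1 := by linarith only [hL, d1]
  obtain ⟨l1, l2⟩ := cjump_lr p1 p2
  rw [log_div p1.ne' p2.ne']
  generalize log (L - 1) - log (L' - 1) = a at *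
  generalize log L = w at *
  obtain ⟨d, rfl⟩ : ∃ d, L' = L - d := ⟨L - L', by ring⟩
  rw [sub_sub_cancel] at he
  rw [show L - 1 - (L - d - 1) = d by ring] at l1 l2
  have hi : 1 / L ≤ 1 := by
    rw [div_le_one hL0]
    linarith only [hL]
  have hw0 : 0 < w := by linarith only [hw]
  have hD : |d| * w ≤ 2 := by
    have := abs_add_le (d * w - c) c
    rw [sub_add_cancel, abs_mul, abs_of_pos hw0] at this
    linarith only [hc, he, hi, this]
  have hD0 := abs_nonneg d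
  have b1 : |L * a - d| ≤ 4 * |d| / L := by
    clear * - L d a l1 hL0 l2 p1 p2 hD0 hL d1 d2
    have u1 := mul_le_mul_of_nonneg_left l1 hL0.le
    have u2 := mul_le_mul_of_nonneg_left l2 hL0.le
    have e1 : L * (d / (L - 1)) = d + d / (L - 1) := by field_simp; ring
    have e2 : L * (d / (L - d - 1)) = d + d * (d + 1) / (L - d - 1) := by field_simp; ring
    have v1 : -(4 * |d| / L) ≤ d / (L - 1) := by
      rw [← neg_div, div_le_div_iff₀ hL0 p1]
      linarith only [hD0, hL, neg_abs_le d, mul_nonneg_of_nonpos_of_nonpos (Mathlib.Tactic.Linarith.sub_nonpos_of_le hL) (Mathlib.Tactic.Linarith.sub_nonpos_of_le hD0), mul_nonneg_of_nonpos_of_nonpos (Mathlib.Tactic.Linarith.sub_nonpos_of_le hL) (Mathlib.Tactic.Linarith.sub_nonpos_of_le (neg_abs_le d))]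
    have v2 : d * (d + 1) / (L - d - 1) ≤ 4 * |d| / L := by
      rw [div_le_div_iff₀ p2 hL0]
      have : d * (d + 1) ≤ 2 * |d| := by linarith only [d1, hD0, d2, le_abs_self d, mul_nonneg_of_nonpos_of_nonpos (Mathlib.Tactic.Linarith.sub_nonpos_of_le d1) (Mathlib.Tactic.Linarith.sub_nonpos_of_le hD0), mul_nonneg_of_nonpos_of_nonpos (Mathlib.Tactic.Linarith.sub_nonpos_of_le d2) (Mathlib.Tactic.Linarith.sub_nonpos_of_le (le_abs_self d))]
      linarith only [hD0, this, hL, d1, mul_nonneg_of_nonpos_of_nonpos (Mathlib.Tactic.Linarith.sub_nonpos_of_le hL) (Mathlib.Tactic.Linarith.sub_nonpos_of_le hD0), mul_nonneg_of_nonpos_of_nonpos (Mathlib.Tactic.Linarith.sub_nonpos_of_le hL) (Mathlib.Tactic.Linarith.sub_nonpos_of_le this), mul_nonneg_of_nonpos_of_nonpos (Mathlib.Tactic.Linarith.sub_nonpos_of_le d1) (Mathlib.Tactic.Linarith.sub_nonpos_of_le hD0)]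
    exact abs_le.2 ⟨by linarith only [u1, e1, v1], by linarith only [u2, e2, v2]⟩
  obtain ⟨m, rfl⟩ : ∃ m, n = L * m := ⟨n / L, by field_simp⟩
  have hm : |m - w ^ 2| ≤ η * w ^ 2 := by
    rw [← mul_sub, abs_mul, abs_of_pos hL0] at hn
    exact le_of_mul_le_mul_left (by linarith only [hn]) hL0
  have hη0 : 0 ≤ η := by
    by_contra h
    have := mul_neg_of_neg_of_pos (not_le.1 h) (pow_pos hw0 2)
    linarith only [hm, this, abs_nonneg (m - w ^ 2)]
  have hm2 : |m| ≤ 2 * w ^ 2 := by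
    clear * - η w m hm hη
    obtain ⟨m1, m2⟩ := abs_le.1 hm
    exact abs_le.2 ⟨by linarith only [m1, hη, sq_nonneg w, sq_nonneg w, mul_nonneg_of_nonpos_of_nonpos (Mathlib.Tactic.Linarith.sub_nonpos_of_le (sq_nonneg w)) (Mathlib.Tactic.Linarith.sub_nonpos_of_le hη)], by linarith only [m2, hη, sq_nonneg w, mul_nonneg_of_nonpos_of_nonpos (Mathlib.Tactic.Linarith.sub_nonpos_of_le (sq_nonneg w)) (Mathlib.Tactic.Linarith.sub_nonpos_of_le hη)]⟩
  have e : L * m * a - c * w = m * (L * a - d) + (m - w ^ 2) * d + w * (d * w - c) := by ring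
  have c1 : |m * (L * a - d)| ≤ 16 / L * w := by
    clear * - m L a d w hm2 b1 hw hD hL
    rw [abs_mul]
    calc |m| * |L * a - d| ≤ 2 * w ^ 2 * (4 * |d| / L) :=
          mul_le_mul hm2 b1 (abs_nonneg _) (by positivity)
      _ = 8 / L * w * (|d| * w) := by ring
      _ ≤ 8 / L * w * 2 := mul_le_mul_of_nonneg_left hD (by positivity)
      _ = _ := by ring
  have c2 : |(m - w ^ 2) * d| ≤ 2 * η * w := by
    clear * - m w d η hm hD0 hD hη0 hw
    rw [abs_mul]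
    calc |m - w ^ 2| * |d| ≤ η * w ^ 2 * |d| := mul_le_mul_of_nonneg_right hm hD0
      _ = η * w * (|d| * w) := by ring
      _ ≤ η * w * 2 := mul_le_mul_of_nonneg_left hD (by positivity)
      _ = _ := by ring
  have c3 : |w * (d * w - c)| ≤ 1 / L * w := by
    rw [abs_mul, abs_of_pos hw0, mul_comm]
    exact mul_le_mul_of_nonneg_right he hw0.le
  rw [e]
  calc _ ≤ |m * (L * a - d)| + |(m - w ^ 2) * d| + |w * (d * w - c)| := abs_add_three _ _ _
    _ ≤ 16 / L * w + 2 * η * w + 1 / L * w := by linarith only [c1, c2, c3]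
    _ = _ := by ring

theorem cjump_mainV {L : ℝ} (h : 1 < L) (g : ℝ) : mainV L g = exp (-hL L + (g - 1) / 2 * log L -
    kappa * L ^ (1 / 3 : ℝ) - 2 / 3 * log L - 3 / 2 * log (log L)) := by
  have h0 : 0 < L := by linarith
  rw [mainV, mainS, rpow_def_of_pos h0 ((g - 1) / 2), rpow_def_of_pos h0 (-(2 / 3)),
    rpow_def_of_pos (log_pos h), ← exp_add, ← exp_add, ← exp_add, ← exp_add]
  exact congrArg exp (by ring)

theorem cjump_t2 {c L L' : ℝ} (hc : |c| ≤ 1) (hL0 : 10 ≤ L) (hw : 2 ≤ log L)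
    (hd : |L' - L| ≤ 1) (he : |(L - L') * log L - c| ≤ 1 / L) :
    |log (mainV L' (1 - c)) - log (mainV L 1) - c / 2 * log L| ≤ kappa + 18 := by
  have hL1 : 0 < L := by linarith only [hL0]
  obtain ⟨d1, d2⟩ := abs_le.1 hd
  have p1 : 1 ≤ L' := by linarith only [hL0, d1]
  have p2 : 1 ≤ L := by linarith only [hL0]
  have q1 : |log L' - log L| ≤ 1 := (cjump_lip p1 p2).trans hd
  obtain ⟨q2, q3⟩ := abs_le.1 q1
  have q4 : |log (log L') - log (log L)| ≤ 1 := (cjump_lip (by linarith only [hw, q2]) (by linarith only [hw])).trans q1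
  obtain ⟨g1, g2⟩ := cjump_g hL1 (show 0 < L' by linarith only [hL0, d1])
  have q5 : |kappa * L' ^ (1 / 3 : ℝ) - kappa * L ^ (1 / 3 : ℝ)| ≤ kappa := by
    clear * - L' L p1 p2 hd
    obtain ⟨a1, a2⟩ := aell_cube p1
    obtain ⟨b1, b2⟩ := aell_cube p2
    rw [← mul_sub, abs_mul, abs_of_pos kappa_pos]
    refine mul_le_of_le_one_right kappa_pos.le ?_
    generalize L' ^ (1 / 3 : ℝ) = x at *
    generalize L ^ (1 / 3 : ℝ) = y at *
    have e : L' - L = (x - y) * (x ^ 2 + x * y + y ^ 2) := by rw [← a2, ← b2]; ring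
    have s : 1 ≤ x ^ 2 + x * y + y ^ 2 := by linarith only [a1, b1, sq_nonneg y, mul_nonneg_of_nonpos_of_nonpos (Mathlib.Tactic.Linarith.sub_nonpos_of_le a1) (Mathlib.Tactic.Linarith.sub_nonpos_of_le a1), mul_nonneg_of_nonpos_of_nonpos (Mathlib.Tactic.Linarith.sub_nonpos_of_le a1) (Mathlib.Tactic.Linarith.sub_nonpos_of_le b1)]
    rw [e, abs_mul, abs_of_pos (by linarith : 0 < x ^ 2 + x * y + y ^ 2)] at hd
    (refine le_of_not_gt fun h_nl => ?_; linarith only [h_nl, a1, hd, b1, s, abs_nonneg (x - y), sq_nonneg y, mul_nonneg_of_nonpos_of_nonpos (Mathlib.Tactic.Linarith.sub_nonpos_of_le a1) (Mathlib.Tactic.Linarith.sub_nonpos_of_le a1), mul_nonneg_of_nonpos_of_nonpos (Mathlib.Tactic.Linarith.sub_nonpos_of_le a1) (Mathlib.Tactic.Linarith.sub_nonpos_of_le b1), mul_nonneg_of_nonpos_of_nonpos (Mathlib.Tactic.Linarith.sub_nonpos_of_le s) (le_of_lt (Mathlib.Tactic.Linarith.sub_neg_of_lt h_nl))])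
  have hw2 : log L ≤ L := by linarith only [hL1, log_le_sub_one_of_pos hL1]
  rw [cjump_mainV (by linarith only [hL0, d1]), cjump_mainV (by linarith only [hL0]), log_exp, log_exp, hL, hL]
  obtain ⟨k1, k2⟩ := aell_pi
  generalize log (log L') = v' at *
  generalize log (log L) = v at *
  generalize log L' = w' at *
  generalize log L = w at *
  generalize kappa * L' ^ (1 / 3 : ℝ) = x' at *
  generalize kappa * L ^ (1 / 3 : ℝ) = x at *
  generalize π ^ 2 / 6 = p at *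
  obtain ⟨d, rfl⟩ : ∃ d, L' = L - d := ⟨L - L', by ring⟩
  rw [sub_sub_cancel] at he g1 g2
  have hi : 1 / L ≤ 1 := by
    rw [div_le_one hL1]
    linarith only [hL0]
  have hw0 : 0 < w := by linarith only [hw]
  have hD : |d| * w ≤ 2 := by
    have := abs_add_le (d * w - c) c
    rw [sub_add_cancel, abs_mul, abs_of_pos hw0] at this
    linarith only [hc, he, hi, this]
  have hD1 : |d| ≤ 1 := abs_le.2 ⟨by linarith only [d2], by linarith only [d1]⟩
  have g3 : d ^ 2 / L ≤ |d| := by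
    clear * - d L p2 w hw hD
    refine (div_le_self (sq_nonneg d) p2).trans ?_
    rw [← sq_abs]
    linarith only [hw, hD, abs_nonneg d, mul_nonneg_of_nonpos_of_nonpos (Mathlib.Tactic.Linarith.sub_nonpos_of_le (sq_nonneg |d|)) (Mathlib.Tactic.Linarith.sub_nonpos_of_le hw), mul_nonneg_of_nonpos_of_nonpos (Mathlib.Tactic.Linarith.sub_nonpos_of_le hD) (Mathlib.Tactic.Linarith.sub_nonpos_of_le (abs_nonneg d))]
  obtain ⟨b, hb⟩ : ∃ b, b = (L - d) * (w - w') := ⟨_, rfl⟩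
  rw [← hb] at g1 g2
  have b1 : |b| ≤ 2 * |d| := abs_le.2 ⟨by linarith only [g3, g1, neg_abs_le d], by
    linarith only [g3, g2, g1, le_abs_self d, abs_nonneg d]⟩
  have c1 : |b * (w + w' - 2)| ≤ 8 := by
    clear * - b w w' hw q2 d b1 q3 hD
    rw [abs_mul, abs_of_nonneg (by linarith : 0 ≤ w + w' - 2)]
    calc |b| * (w + w' - 2) ≤ 2 * |d| * (2 * w) :=
          mul_le_mul b1 (by linarith) (by linarith) (by positivity)
      _ = 4 * (|d| * w) := by ring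
      _ ≤ 8 := by linarith
  have c2 : |w * (d * w - c)| ≤ 1 := by
    rw [abs_mul, abs_of_pos hw0]
    calc w * |d * w - c| ≤ L * (1 / L) := mul_le_mul hw2 he (abs_nonneg _) hL1.le
      _ = 1 := by field_simp
  have c3 : |d * w| ≤ 2 := by rwa [abs_mul, abs_of_pos hw0]
  have c4 : |d * (2 - p)| ≤ 1 := by
    clear * - d p hD1 k2 k1
    rw [abs_mul]
    exact mul_le_one₀ hD1 (abs_nonneg _) (abs_le.2 ⟨by linarith only [k2], by linarith only [k1]⟩)
  have c5 : |c * (w' - w)| ≤ 1 := by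
    rw [abs_mul]
    exact mul_le_one₀ hc (abs_nonneg _) q1
  have e : -((L - d) * (w' ^ 2 - 2 * w' + 2 - p)) + (1 - c - 1) / 2 * w' - x' - 2 / 3 * w' -
      3 / 2 * v' - (-(L * (w ^ 2 - 2 * w + 2 - p)) + (1 - 1) / 2 * w - x - 2 / 3 * w - 3 / 2 * v) -
      c / 2 * w = b * (w + w' - 2) + w * (d * w - c) - 2 * (d * w) + d * (2 - p) -
      c * (w' - w) / 2 - (x' - x) - 2 / 3 * (w' - w) - 3 / 2 * (v' - v) := by
    rw [hb]
    ring
  rw [e]
  have := abs_le.1 c1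
  have := abs_le.1 c2
  have := abs_le.1 c3
  have := abs_le.1 c4
  have := abs_le.1 c5
  have := abs_le.1 q4
  have := abs_le.1 q5
  exact abs_le.2 ⟨by linarith, by linarith⟩

theorem cjump_tilt {c ζ : ℝ} (h0 : -1 ≤ c) (h1 : c ≤ 1) (hζ : 0 < ζ) : ∀ᶠ N : ℕ in atTop, ∀ L : ℝ,
    |L - ell N| ≤ ell N ^ (3 / 5 : ℝ) → ∃ L' : ℝ, |L' - L| ≤ 1 ∧ xc L'⁻¹ = xc L⁻¹ - c ∧
      |N * log ((L - 1) / (L' - 1)) - c * log L| ≤ ζ * log L ∧
      |log (mainV L' (1 - c)) - log (mainV L 1) - c / 2 * log L| ≤ ζ * log L := by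
  have hc : |c| ≤ 1 := abs_le.2 ⟨h0, h1⟩
  have hη : 0 < min 1 (ζ / 4) := lt_min one_pos (by positivity)
  have e1 : ∀ᶠ L : ℝ in atTop, 10 ≤ L ∧ 2 ≤ log L ∧ 34 / ζ ≤ L ∧ (kappa + 18) / ζ ≤ log L := by
    filter_upwards [eventually_ge_atTop 10, tendsto_log_atTop.eventually_ge_atTop 2,
      eventually_ge_atTop (34 / ζ), tendsto_log_atTop.eventually_ge_atTop ((kappa + 18) / ζ)]
      with L a b c d using ⟨a, b, c, d⟩
  filter_upwards [cjump_near hη 0, cjump_ev e1] with N hN hE L hl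
  obtain ⟨a1, a2, a3, a4⟩ := hE L hl L (by simp)
  obtain ⟨L', b1, b2, b3⟩ := cjump_t0 h0 h1 a1 a2
  refine ⟨L', b1, b2, (cjump_t1 hc a1 a2 b1 b3 (min_le_left _ _) (hN L hl).2).trans ?_,
    (cjump_t2 hc a1 a2 b1 b3).trans ?_⟩
  · refine mul_le_mul_of_nonneg_right ?_ (by linarith only [a2])
    have : 17 / L ≤ ζ / 2 := by
      rw [div_le_iff₀ hζ] at a3
      rw [div_le_iff₀ (by linarith only [a1])]
      linarith only [a3]
    linarith only [this, min_le_right 1 (ζ / 4)]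
  · rw [div_le_iff₀ hζ] at a4
    linarith only [a4]

end Pool.Agent.Work.MP_5391ad_co
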