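import Pool.Agent.Work.MP_5391ad_co.CRate

/-! Mixing. Let `E i = Sol r n0 (dl 1) i`, `U i = Sol r n0 f i` with `f ≥ 0`, `f 0 = 0`.
`mix_tp2`: by `Tr_tp2`, `E i q * U i 1 ≤ E i 1 * U i q` for all `q`; applying `Tr` gives
`E (i+1) 1 * U i 1 ≤ E i 1 * U (i+1) 1`, so `ρ i = E i 1 / U i 1` decreases. Let
`Y i = Sol r n0 (fun q => if q = 0 then 0 else f (q+1)) i`, `R i = ∏_{j<i} r (n0+j)`, and
`Z i 0 = Z i 1 = 0`, `Z i (q+1) = R i * Y i q`. Then `Z (i+1) (q+2) = Tr r (Z i) (q+2)` (shift the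
summation index), and by induction on `j ≤ i`: `ρ i (U j q - Z j q) ≤ E j q` for all `q`.
`mix_end`: apply `mix_tp2` to `f` and to `f0 = φ (β n0 ·)`, with solutions `U`, `V`. By `prop_both`
(`η = 0`) `|V - Λ φ| ≤ C ζ Λ gc`, `Λ = exp lgL`, `ζ = a n0 + a n1 + sE`; the shifted data are at
most `C gc`, respectively `D M gc`, and `gc ≤ (φ + η0 gc)/η0`, so `Y ≤ C Λ gc (β q) ≤
C e Λ gc (β (q+1))` (`gc_shift`). With `κ = U 1 / V 1`: `κ (V - Z_V) ≤ U ≤ κ V + Z_U`, and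
`M Λ β ≤ C U 1` by the lower half of `prop_both`; shrink `η0` so that `C η0 mm ≤ 1/8`. -/

namespace Pool.Agent.Work.MP_5391ad_co

open Real Finset

theorem cmix_zero (r : ℕ → ℝ) (n0 i : ℕ) {f : ℕ → ℝ} (hz : f 0 = 0) : Sol r n0 f i 0 = 0 := by
  cases i with
  | zero => exact hz
  | succ i => rfl

theorem cmix_dl_bdd : Bdd (dl 1) :=
  ⟨1, fun q => by unfold dl; split_ifs <;> simp⟩

theorem cmix_sol_bdd {r : ℕ → ℝ} {n0 i : ℕ} {f : ℕ → ℝ}
    (hr : ∀ j < i, 0 ≤ r (n0 + j) ∧ r (n0 + j) ≤ 1) (hf : Bdd f) : Bdd (Sol r n0 f i) := by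
  obtain ⟨B, hB⟩ := hf
  exact ⟨B, Sol_bdd hr hB⟩

theorem cmix_bdd_lin {f g : ℕ → ℝ} (hf : Bdd f) (hg : Bdd g) (a b : ℝ) :
    Bdd fun k => a * f k + b * g k := by
  obtain ⟨B, hB⟩ := hf
  obtain ⟨B', hB'⟩ := hg
  refine ⟨|a| * B + |b| * B', fun q => (abs_add_le _ _).trans ?_⟩
  rw [abs_mul, abs_mul]
  exact add_le_add (mul_le_mul_of_nonneg_left (hB q) (abs_nonneg _))
    (mul_le_mul_of_nonneg_left (hB' q) (abs_nonneg _))

/-- the shifted sequence -/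
noncomputable def cmix_sh (c : ℝ) (Y : ℕ → ℝ) : ℕ → ℝ
  | 0 => 0
  | k + 1 => c * Y k

theorem cmix_sh_bdd (c : ℝ) {Y : ℕ → ℝ} (h : Bdd Y) : Bdd (cmix_sh c Y) := by
  obtain ⟨B, hB⟩ := h
  refine ⟨|c| * B, fun q => ?_⟩
  cases q with
  | zero =>
    simp only [cmix_sh, abs_zero]
    exact mul_nonneg (abs_nonneg _) ((abs_nonneg _).trans (hB 0))
  | succ q =>
    simp only [cmix_sh, abs_mul]
    exact mul_le_mul_of_nonneg_left (hB q) (abs_nonneg _)

theorem cmix_shift (r c : ℝ) (Y : ℕ → ℝ) (q : ℕ) :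
    Tr r (cmix_sh c Y) (q + 2) = c * r * Tr r Y (q + 1) := by
  simp only [Tr, Pois]
  rw [← tsum_mul_left]
  refine tsum_congr fun k => ?_
  rw [show q + 1 + k = q + k + 1 by omega]
  simp only [cmix_sh]
  ring

theorem cmix_tr_le {r a b c : ℝ} {f g h : ℕ → ℝ} (h0 : 0 ≤ r) (h1 : r ≤ 1) (hf : Bdd f)
    (hg : Bdd g) (hh : Bdd h) (H : ∀ q, a * f q + b * g q ≤ c * h q) (q : ℕ) :
    a * Tr r f q + b * Tr r g q ≤ c * Tr r h q := by
  have h2 := Tr_lin h0 h1 hh hh c 0 q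
  have h3 := Tr_mono h0 h1 (cmix_bdd_lin hf hg a b) (cmix_bdd_lin hh hh c 0)
    (fun k => by simpa using H k) q
  rw [Tr_lin h0 h1 hf hg, h2] at h3
  linarith only [h3]

theorem mix_tp2 {r : ℕ → ℝ} {n0 i : ℕ} {f : ℕ → ℝ} (hr : ∀ j < i, 0 < r (n0 + j) ∧ r (n0 + j) ≤ 1)
    (hf : Bdd f) (h0 : ∀ q, 0 ≤ f q) (hz : f 0 = 0) (h1 : 0 < f 1) (q : ℕ) :
    0 < Sol r n0 (dl 1) i 1 ∧ 0 < Sol r n0 f i 1 ∧
    Sol r n0 (dl 1) i (q + 1) * Sol r n0 f i 1 ≤ Sol r n0 (dl 1) i 1 * Sol r n0 f i (q + 1) ∧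
    Sol r n0 (dl 1) i 1 * (Sol r n0 f i (q + 1) - (∏ j ∈ range i, r (n0 + j)) *
        Sol r n0 (fun k => if k = 0 then 0 else f (k + 1)) i q) ≤
      Sol r n0 (dl 1) i (q + 1) * Sol r n0 f i 1 := by
  set g : ℕ → ℝ := fun k => if k = 0 then 0 else f (k + 1) with hg
  have hr' : ∀ j ≤ i, ∀ l < j, 0 ≤ r (n0 + l) ∧ r (n0 + l) ≤ 1 := fun j hj l hl =>
    ⟨(hr l (by omega)).1.le, (hr l (by omega)).2⟩
  have hgb : Bdd g := by
    obtain ⟨B, hB⟩ := hf
    refine ⟨B, fun k => ?_⟩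
    simp only [hg]
    split_ifs
    · simpa using (abs_nonneg _).trans (hB 0)
    · exact hB _
  have bE : ∀ j ≤ i, Bdd (Sol r n0 (dl 1) j) := fun j hj => cmix_sol_bdd (hr' j hj) cmix_dl_bdd
  have bU : ∀ j ≤ i, Bdd (Sol r n0 f j) := fun j hj => cmix_sol_bdd (hr' j hj) hf
  have bY : ∀ j ≤ i, Bdd (Sol r n0 g j) := fun j hj => cmix_sol_bdd (hr' j hj) hgb
  have pE : ∀ j ≤ i, 0 < Sol r n0 (dl 1) j 1 := by
    intro j hj
    have hρ : 0 < ∏ l ∈ range i, r (n0 + l) :=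
      prod_pos fun l hl => (hr l (mem_range.1 hl)).1
    refine lt_of_lt_of_le (by positivity) (Sol_dl_lower (i := j) hρ.le (fun l hl => ⟨?_,
      (hr l (by omega)).2⟩) le_rfl (by omega))
    rw [← mul_prod_erase _ _ (mem_range.2 (show l < i by omega))]
    refine mul_le_of_le_one_right (hr l (by omega)).1.le (prod_le_one (fun m hm => ?_)
      fun m hm => ?_)
    · exact (hr m (mem_range.1 (mem_of_mem_erase hm))).1.le
    · exact (hr m (mem_range.1 (mem_of_mem_erase hm))).2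
  have pU : ∀ j ≤ i, 0 < Sol r n0 f j 1 := by
    intro j hj
    have h2 := Sol_le (hr' j hj) (cmix_bdd_lin cmix_dl_bdd cmix_dl_bdd (f 1) 0) hf (fun k => by
      unfold dl
      split_ifs with hk
      · simp [hk]
      · simpa using h0 k) 1
    rw [Sol_lin (hr' j hj) cmix_dl_bdd cmix_dl_bdd] at h2
    linarith only [h2, h1, pE, hj, mul_pos h1 (pE j hj)]
  have tp : ∀ j ≤ i, ∀ k k', k ≤ k' →
      Sol r n0 (dl 1) j k' * Sol r n0 f j k ≤ Sol r n0 (dl 1) j k * Sol r n0 f j k' := by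
    intro j
    induction j with
    | zero =>
      intro _ k k' hk
      simp only [Sol, dl]
      split_ifs with a b b
      · rw [a, b]
      · rw [show k = 0 by omega, hz]
        simp
      · simpa using h0 k'
      · simp
    | succ j ih =>
      intro hj k k' hk
      exact Tr_tp2 (hr j (by omega)).1.le (hr j (by omega)).2 (bU j (by omega)) (bE j (by omega))
        (ih (by omega)) hk
  have tp1 : ∀ j ≤ i, ∀ k,
      Sol r n0 (dl 1) j k * Sol r n0 f j 1 ≤ Sol r n0 (dl 1) j 1 * Sol r n0 f j k := by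
    intro j hj k
    cases k with
    | zero => rw [cmix_zero r n0 j hz, cmix_zero r n0 j (f := dl 1) (by simp [dl])]; simp
    | succ k => exact tp j hj 1 (k + 1) (by omega)
  set ρ : ℕ → ℝ := fun j => Sol r n0 (dl 1) j 1 / Sol r n0 f j 1 with hρ
  have mono1 : ∀ j < i, ρ (j + 1) ≤ ρ j := by
    intro j hj
    have h2 := cmix_tr_le (a := Sol r n0 f j 1) (b := 0) (c := Sol r n0 (dl 1) j 1)
      (hr j hj).1.le (hr j hj).2 (bE j hj.le) (bE j hj.le) (bU j hj.le)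
      (fun k => by linarith only [tp1, hj, tp1 j hj.le k]) 1
    simp only [hρ]
    rw [div_le_div_iff₀ (pU (j + 1) hj) (pU j hj.le)]
    change Tr (r (n0 + j)) (Sol r n0 (dl 1) j) 1 * Sol r n0 f j 1 ≤
      Sol r n0 (dl 1) j 1 * Tr (r (n0 + j)) (Sol r n0 f j) 1
    linarith only [h2]
  have mono : ∀ j ≤ i, ρ i ≤ ρ j := by
    intro j hj
    induction hj using Nat.decreasingInduction with
    | self => exact le_rfl
    | of_succ j hj ih => exact ih.trans (mono1 j hj)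
  have one : ∀ j ≤ i, ρ i * Sol r n0 f j 1 ≤ 1 * Sol r n0 (dl 1) j 1 := by
    intro j hj
    have h2 := mono j hj
    rw [show ρ j = Sol r n0 (dl 1) j 1 / Sol r n0 f j 1 from rfl, le_div_iff₀ (pU j hj)] at h2
    linarith only [h2]
  have key : ∀ j ≤ i, ∀ k, ρ i * Sol r n0 f j k + -ρ i *
      cmix_sh (∏ l ∈ range j, r (n0 + l)) (Sol r n0 g j) k ≤ 1 * Sol r n0 (dl 1) j k := by
    intro j
    induction j with
    | zero =>
      intro hj k
      match k with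
      | 0 => simp [Sol, cmix_sh, hz, dl]
      | 1 => simpa [cmix_sh, Sol, hg] using one 0 hj
      | k + 2 => simp [Sol, cmix_sh, hg, dl]
    | succ j ih =>
      intro hj k
      match k with
      | 0 => simp [Sol, Tr, cmix_sh]
      | 1 =>
        have h2 : Sol r n0 g (j + 1) 0 = 0 := rfl
        simpa [cmix_sh, h2] using one (j + 1) hj
      | k + 2 =>
        have h2 := cmix_tr_le (hr j hj).1.le (hr j hj).2 (bU j (by omega))
          (cmix_sh_bdd _ (bY j (by omega))) (bE j (by omega)) (ih (by omega)) (k + 2)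
        rw [cmix_shift] at h2
        simp only [cmix_sh, prod_range_succ]
        exact h2
  refine ⟨pE i le_rfl, pU i le_rfl, tp1 i le_rfl _, ?_⟩
  have h2 := mul_le_mul_of_nonneg_right (key i le_rfl (q + 1)) (pU i le_rfl).le
  have h3 : ρ i * Sol r n0 f i 1 = Sol r n0 (dl 1) i 1 := div_mul_cancel₀ _ (pU i le_rfl).ne'
  simp only [cmix_sh] at h2
  rw [← h3]
  linarith only [h2]

theorem cmix_gc2 {x y : ℝ} (hy : 0 ≤ y) (hyx : y ≤ x) : gc (x + y) ≤ 2 * gc x := by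
  have hm : 0 ≤ mm := le_trans (by norm_num) gc_basic.1
  have hx : 0 ≤ x := hy.trans hyx
  have e1 : ∀ z, gc z = exp (-z) * (1 - exp (-(mm * z))) := fun z => by
    rw [gc, mul_sub, mul_one, ← exp_add]
    congr 2
    ring
  have h1 : exp (-(x + y)) ≤ exp (-x) := exp_le_exp.2 (by linarith)
  have h2 : exp (-(mm * x)) * exp (-(mm * x)) ≤ exp (-(mm * (x + y))) := by
    rw [← exp_add]
    exact exp_le_exp.2 (by linarith [mul_le_mul_of_nonneg_left hyx hm])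
  have h3 : exp (-(mm * (x + y))) ≤ 1 := exp_le_one_iff.2 (by
    have := mul_nonneg hm (add_nonneg hx hy)
    linarith)
  have h4 : exp (-(mm * x)) ≤ 1 := exp_le_one_iff.2 (by
    have := mul_nonneg hm hx
    linarith)
  rw [e1, e1]
  calc exp (-(x + y)) * (1 - exp (-(mm * (x + y)))) ≤ exp (-x) * (2 * (1 - exp (-(mm * x)))) :=
        mul_le_mul h1 (by linarith only [h2, mul_self_nonneg (1 - exp (-(mm * x)))]) (by linarith)
          (exp_pos _).le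
    _ = _ := by ring

theorem cmix_alg {E1 Eq U1 Uq V1 Vq y y0 L b p g c ζ : ℝ} (hE : 0 < E1) (hU : 0 < U1)
    (hV : 0 < V1) (hb : 0 < b) (hL : 0 < L) (hg : 0 ≤ g) (hp : 0 ≤ p) (hc : 0 ≤ c)
    (hpg : p ≤ c * g) (hζ : 0 ≤ ζ) (t1 : Eq * U1 ≤ E1 * Uq) (t2 : E1 * (Uq - y) ≤ Eq * U1)
    (t3 : Eq * V1 ≤ E1 * Vq) (t4 : E1 * (Vq - y0) ≤ Eq * V1)
    (hy : y ≤ c * ζ * (U1 / b) * g) (hy0 : y0 ≤ c * ζ * L * g)
    (hVq : |Vq - L * p| ≤ c * ζ * L * g) (hV1 : |V1 - L * b| ≤ c * ζ * L * b)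
    (hs : c * ζ ≤ 1 / 2) : |Uq - U1 / b * p| ≤ (4 * c + 2 * c ^ 2) * ζ * (U1 / b) * g := by
  obtain ⟨κ, hκ, rfl⟩ : ∃ κ, 0 < κ ∧ U1 = κ * V1 :=
    ⟨U1 / V1, div_pos hU hV, (div_mul_cancel₀ _ hV.ne').symm⟩
  have hW : 0 < κ * V1 / b := div_pos hU hb
  have hWb : κ * V1 / b * b = κ * V1 := div_mul_cancel₀ _ hb.ne'
  generalize κ * V1 / b = W at *
  obtain ⟨a1, a2⟩ := abs_le.1 hVq
  obtain ⟨b1, b2⟩ := abs_le.1 hV1
  have s0 : 0 ≤ c * ζ := mul_nonneg hc hζ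
  have c1 : κ * (Vq - y0) ≤ Uq := by
    refine le_of_mul_le_mul_left ?_ hE
    linarith only [t1, t4, hκ, mul_le_mul_of_nonneg_left t4 hκ.le]
  have c2 : Uq - y ≤ κ * Vq := by
    refine le_of_mul_le_mul_left ?_ hE
    linarith only [t2, t3, hκ, mul_le_mul_of_nonneg_left t3 hκ.le]
  have d1 : κ * L - W ≤ c * ζ * (κ * L) := by
    refine le_of_mul_le_mul_right ?_ hb
    linarith only [hWb, b1, hκ, mul_le_mul_of_nonneg_left b1 hκ.le]
  have d2 : W - κ * L ≤ c * ζ * (κ * L) := by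
    refine le_of_mul_le_mul_right ?_ hb
    linarith only [hWb, b2, hκ, mul_le_mul_of_nonneg_left b2 hκ.le]
  have d0 : 0 < κ * L := mul_pos hκ hL
  have d3 : κ * L ≤ 2 * W := by linarith only [d1, hs, d0, mul_le_mul_of_nonneg_right hs d0.le]
  have d4 : c * ζ * (κ * L) ≤ c * ζ * (2 * W) := mul_le_mul_of_nonneg_left d3 s0
  have d5 : c * ζ * (κ * L) * g ≤ c * ζ * (2 * W) * g := mul_le_mul_of_nonneg_right d4 hg
  have d6 : c * ζ * (2 * W) * p ≤ c * ζ * (2 * W) * (c * g) :=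
    mul_le_mul_of_nonneg_left hpg (by positivity)
  have d7 : (κ * L - W) * p ≤ c * ζ * (2 * W) * p := mul_le_mul_of_nonneg_right (by linarith only [d1, d4]) hp
  have d8 : (W - κ * L) * p ≤ c * ζ * (2 * W) * p := mul_le_mul_of_nonneg_right (by linarith only [d2, d4]) hp
  have d9 : 0 ≤ c * ζ * W * g := by positivity
  have e1 := mul_le_mul_of_nonneg_left a1 hκ.le
  have e2 := mul_le_mul_of_nonneg_left a2 hκ.le
  have e3 := mul_le_mul_of_nonneg_left hy0 hκ.le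
  rw [abs_le]
  constructor <;> linarith only [c1, d5, d6, d8, e1, e3, hy, c2, d7, d9, e2]

theorem cmix_two {v l C C1 a a' s e p g ζ : ℝ} (hC : 1 ≤ C) (ha : 0 ≤ a) (ha' : 0 ≤ a')
    (hs : 0 ≤ s) (hζ : a + a' + s ≤ ζ) (he0 : 0 ≤ e) (he1 : e ≤ 1) (hCζ : C * ζ ≤ 1)
    (hp : 0 ≤ p) (hg : 0 ≤ g) (hpg : p ≤ C1 * g)
    (hup : |v| ≤ 1 * exp (l + C * (0 + a + s)) * (p + C * ((0 + a) * e + a') * g))
    (hlo : 1 * exp (l - C * (0 + a + s)) * (p - C * ((0 + a) * e + a') * g) ≤ v) :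
    |v - exp l * p| ≤ (2 * C * C1 + 3 * C) * ζ * exp l * g := by
  have hL := exp_pos l
  have hC0 : 0 ≤ C := by linarith
  have z0 : 0 ≤ ζ := by linarith
  have x0 : 0 ≤ C * (0 + a + s) := by positivity
  have x1 : C * (0 + a + s) ≤ C * ζ := mul_le_mul_of_nonneg_left (by linarith) hC0
  have w0 : 0 ≤ C * ((0 + a) * e + a') := by positivity
  have w1 : C * ((0 + a) * e + a') ≤ C * ζ :=
    mul_le_mul_of_nonneg_left (by linarith [mul_le_mul_of_nonneg_left he1 ha]) hC0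
  generalize C * (0 + a + s) = x at *
  generalize C * ((0 + a) * e + a') = w at *
  have y0 : 0 ≤ C * ζ := mul_nonneg hC0 z0
  have e1 : exp x ≤ 1 + 2 * (C * ζ) := by
    have h := abs_exp_sub_one_le (x := x) (by rw [abs_of_nonneg x0]; linarith)
    rw [abs_of_nonneg x0] at h
    linarith only [x1, h, le_abs_self (exp x - 1)]
  have e2 : 1 - C * ζ ≤ exp (-x) := by linarith [add_one_le_exp (-x)]
  have e3 : exp (-x) ≤ 1 := exp_le_one_iff.2 (by linarith)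
  have f1 : w * g ≤ C * ζ * g := mul_le_mul_of_nonneg_right w1 hg
  have f2 : C * ζ * p ≤ C * ζ * (C1 * g) := mul_le_mul_of_nonneg_left hpg y0
  have f3 : C * ζ * (C * ζ * g) ≤ 1 * (C * ζ * g) :=
    mul_le_mul_of_nonneg_right hCζ (by positivity)
  have f4 : 0 ≤ C * ζ * g := by positivity
  have f5 : 0 ≤ C * ζ * p := by positivity
  have u1 : exp x * (p + w * g) ≤ p + (2 * C * C1 + 3 * C) * ζ * g :=
    calc exp x * (p + w * g) ≤ (1 + 2 * (C * ζ)) * (p + C * ζ * g) :=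
          mul_le_mul e1 (by linarith) (by positivity) (by positivity)
      _ ≤ _ := by linarith only [f2, f3]
  have u2 : p - (2 * C * C1 + 3 * C) * ζ * g ≤ exp (-x) * (p - w * g) := by
    have g1 := mul_le_mul_of_nonneg_right e2 hp
    have g2 := mul_le_mul_of_nonneg_right e3 (mul_nonneg w0 hg)
    linarith only [f1, f2, f4, f5, g1, g2]
  rw [one_mul, exp_add, mul_assoc] at hup
  rw [one_mul, sub_eq_add_neg l, exp_add, mul_assoc] at hlo
  have v1 := mul_le_mul_of_nonneg_left u1 hL.le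
  have v2 := mul_le_mul_of_nonneg_left u2 hL.le
  rw [abs_le]
  constructor <;> linarith only [hlo, v2, hup, v1, le_abs_self v]

theorem cmix_up {v N l C C1 η a a' s e p g : ℝ} (hC : 1 ≤ C) (hN : 0 ≤ N) (hη : 0 ≤ η)
    (hη1 : η ≤ 1) (ha : 0 ≤ a) (ha' : 0 ≤ a') (hs : 0 ≤ s) (hζ : a + a' + s ≤ 1) (he0 : 0 ≤ e)
    (he1 : e ≤ 1) (hp : 0 ≤ p) (hg : 0 ≤ g) (hpg : p ≤ C1 * g)
    (hup : |v| ≤ N * exp (l + C * (η + a + s)) * (p + C * ((η + a) * e + a') * g)) :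
    v ≤ N * exp l * (exp (2 * C) * (C1 + 2 * C)) * g := by
  have hC0 : 0 ≤ C := by linarith
  have x1 : C * (η + a + s) ≤ C * 2 := mul_le_mul_of_nonneg_left (by linarith) hC0
  have w1 : C * ((η + a) * e + a') ≤ C * 2 := mul_le_mul_of_nonneg_left
    (by linarith only [hη1, hs, hζ, he1, hη, ha, mul_le_mul_of_nonneg_left he1 (add_nonneg hη ha)]) hC0
  have w2 := mul_le_mul_of_nonneg_right w1 hg
  calc v ≤ _ := (le_abs_self v).trans hup
    _ ≤ N * exp (l + 2 * C) * ((C1 + 2 * C) * g) :=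
        mul_le_mul (mul_le_mul_of_nonneg_left (exp_le_exp.2 (by linarith)) hN) (by linarith only [hpg, w2])
          (by positivity) (by positivity)
    _ = _ := by rw [exp_add]; ring

theorem cmix_low {u M l C η a a' s e p g b m ζ : ℝ} (hC : 1 ≤ C) (hM : 0 ≤ M) (hη : 0 ≤ η)
    (hη1 : η ≤ 1) (ha : 0 ≤ a) (ha' : 0 ≤ a') (hs : 0 ≤ s) (hζ : a + a' + s ≤ ζ) (hζ1 : ζ ≤ 1)
    (he0 : 0 ≤ e) (he1 : e ≤ 1) (hb : 0 ≤ b) (hg : g ≤ m * b) (hp : 7 / 8 * b ≤ p)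
    (h1 : C * m * η ≤ 1 / 8) (h2 : C * m * ζ ≤ 1 / 8) (hm : 0 ≤ m)
    (hlo : M * exp (l - C * (η + a + s)) * (p - C * ((η + a) * e + a') * g) ≤ u) :
    M * exp l * b ≤ 2 * exp (2 * C) * u := by
  have hC0 : 0 ≤ C := by linarith only [hC]
  have x1 : C * (η + a + s) ≤ C * 2 := mul_le_mul_of_nonneg_left (by linarith only [hη1, ha', hζ, hζ1]) hC0
  have w0 : 0 ≤ C * ((η + a) * e + a') := by positivity
  have w1 : C * ((η + a) * e + a') ≤ C * (η + ζ) := mul_le_mul_of_nonneg_left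
    (by linarith only [hs, hζ, he1, hη, ha, mul_le_mul_of_nonneg_left he1 (add_nonneg hη ha)]) hC0
  have w2 : C * ((η + a) * e + a') * g ≤ C * (η + ζ) * (m * b) :=
    (mul_le_mul_of_nonneg_left hg w0).trans (mul_le_mul_of_nonneg_right w1 (by positivity))
  have w3 : C * (η + ζ) * m * b ≤ 1 / 4 * b := mul_le_mul_of_nonneg_right (by linarith only [h1, h2]) hb
  have w4 : M * exp (l - 2 * C) * (b / 2) ≤ u :=
    le_trans (mul_le_mul (mul_le_mul_of_nonneg_left (exp_le_exp.2 (by linarith only [x1])) hM)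
      (by linarith only [hb, hp, w2, w3]) (by positivity) (by positivity)) hlo
  calc M * exp l * b = 2 * exp (2 * C) * (M * exp (l - 2 * C) * (b / 2)) := by
        rw [exp_sub]
        field_simp
    _ ≤ _ := mul_le_mul_of_nonneg_left w4 (by positivity)

theorem mix_end {K : ℝ} (hK : 0 ≤ K) : ∃ C a0 η0 : ℝ, 1 ≤ C ∧ 0 < a0 ∧ 0 < η0 ∧ η0 ≤ 1 ∧
    ∀ (r β a : ℕ → ℝ) (n0 n1 : ℕ) (f : ℕ → ℝ) (M D ζ : ℝ), Adm3 K a0 r β a n0 n1 → 0 < M →
    1 ≤ D → Bdd f → f 0 = 0 → (∀ q, 0 ≤ f q) →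
    (∀ q : ℕ, M * (phi (β n0 * q) - η0 * gc (β n0 * q)) ≤ f q) →
    (∀ q : ℕ, f (q + 2) ≤ D * M * gc (β n0 * (q + 1 : ℕ))) →
    a n0 + a n1 + sE β a n0 n1 + D * ∏ n ∈ Ico n0 n1, r n ≤ ζ → C * ζ ≤ 1 →
    0 < Sol r n0 f (n1 - n0) 1 ∧ ∀ q : ℕ,
      |Sol r n0 f (n1 - n0) q - Sol r n0 f (n1 - n0) 1 / β n1 * phi (β n1 * q)| ≤
        C * ζ * (Sol r n0 f (n1 - n0) 1 / β n1) * gc (β n1 * q) := by
  obtain ⟨C0, a0, η1, hC0, ha0, hKa, -, hη1, hη11, H⟩ := prop_both hK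
  obtain ⟨C1, hC1, P⟩ := phi_le_gc
  obtain ⟨hm, hg0, G⟩ := gc_basic
  have hm0 : 0 < mm := by linarith only [hm]
  have hC00 : 0 < C0 := by linarith
  have hC10 : 0 < C1 := by linarith
  obtain ⟨C5, hC5⟩ : ∃ C5, C5 = η1⁻¹ * (exp (2 * C0) * (C1 + 2 * C0)) * exp 1 := ⟨_, rfl⟩
  obtain ⟨C2, hC2⟩ : ∃ C2, C2 = 2 * C0 * C1 + 3 * C0 := ⟨_, rfl⟩
  have hC50 : 0 ≤ C5 := by rw [hC5]; positivity
  have hC20 : 0 ≤ C2 := by rw [hC2]; positivity
  obtain ⟨c, k1, k2, k3, k4, k5, k6, k7⟩ := ((Filter.eventually_ge_atTop (16 * C1)).and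
    ((Filter.eventually_ge_atTop (2 * exp (2 * C0) * C5)).and
    ((Filter.eventually_ge_atTop (2 * C1 * C5)).and ((Filter.eventually_ge_atTop C2).and
    ((Filter.eventually_ge_atTop (2 * C1 + C2 * mm)).and
    ((Filter.eventually_ge_atTop (8 * (C0 * mm))).and
    (Filter.eventually_ge_atTop C0))))))).exists
  have hc1 : 1 ≤ c := by linarith only [hC1, k1]
  have hc0 : 0 ≤ c := by linarith only [hC1, k1]
  refine ⟨4 * c + 2 * c ^ 2, a0, min η1 (8 * (C0 * mm))⁻¹, by linarith only [hC1, k1, sq_nonneg c], ha0,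
    lt_min hη1 (by positivity), (min_le_left _ _).trans hη11, ?_⟩
  intro r β a n0 n1 f M D ζ adm hM hD hf hz h0 hlo hsh hζ hCζ
  have hη0 : 0 < min η1 (8 * (C0 * mm))⁻¹ := lt_min hη1 (by positivity)
  have hη01 : min η1 (8 * (C0 * mm))⁻¹ ≤ η1 := min_le_left _ _
  obtain hη02 : C0 * mm * min η1 (8 * (C0 * mm))⁻¹ ≤ 1 / 8 := by
    refine (mul_le_mul_of_nonneg_left (min_le_right _ _) (by positivity)).trans_eq ?_
    field_simp
  generalize min η1 (8 * (C0 * mm))⁻¹ = η0 at *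
  obtain ⟨b0, b1, -⟩ := adm.pt n0 le_rfl adm.le
  obtain ⟨b2, b3, -⟩ := adm.pt n1 adm.le le_rfl
  have hr : ∀ j < n1 - n0, 0 < r (n0 + j) ∧ r (n0 + j) ≤ 1 := fun j hj =>
    ⟨(adm.st _ (by omega) (by omega)).r0, (adm.st _ (by omega) (by omega)).r_le hK hKa⟩
  rw [prod_Ico_eq_prod_range] at hζ
  have hR : 0 < ∏ j ∈ range (n1 - n0), r (n0 + j) :=
    prod_pos fun j hj => (hr j (mem_range.1 hj)).1
  have hs : 0 ≤ sE β a n0 n1 := sum_nonneg fun n _ => by positivity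
  have he1 : exp (-sS β n0 n1) ≤ 1 :=
    exp_le_one_iff.2 (neg_nonpos.2 (sum_nonneg fun n _ => by positivity))
  have he0 := (exp_pos (-sS β n0 n1)).le
  have hL := exp_pos (lgL β a n0 n1)
  have a1 : 0 ≤ a n0 := by linarith only [b0, b1]
  have a2 : 0 ≤ a n1 := by linarith only [b2, b3]
  have hDR : ∏ j ∈ range (n1 - n0), r (n0 + j) ≤ D * ∏ j ∈ range (n1 - n0), r (n0 + j) :=
    le_mul_of_one_le_left hR.le hD
  have z1 : a n0 + a n1 + sE β a n0 n1 ≤ ζ := by linarith only [hζ, hR, hDR]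
  have z2 : D * ∏ j ∈ range (n1 - n0), r (n0 + j) ≤ ζ := by linarith only [hζ, b0, b1, b2, b3, hs]
  have z0 : 0 ≤ ζ := by linarith only [hζ, b0, b1, b2, b3, hR, hs, hDR]
  have z3 : c * ζ ≤ 1 / 4 := by linarith only [hCζ, z0, mul_nonneg (sq_nonneg c) z0]
  have z4 : ∀ x, x ≤ c → x * ζ ≤ 1 / 4 := fun x hx =>
    (mul_le_mul_of_nonneg_right hx z0).trans z3
  have z5 : ζ ≤ 1 / 4 := by linarith only [z4, hc1, z4 1 hc1]
  obtain P1 : ∀ x, 0 < x → x ≤ 2 * ζ → |phi x - x| ≤ 2 * C1 * ζ * x ∧ 7 / 8 * x ≤ phi x := by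
    clear * - ζ C1 P a n0 n1 β D r hζ b0 b1 b2 b3 hR hs hDR z5 hC1 z4 k1
    intro x hx hx2
    have h1 := (P x hx.le).2.2.2.2.1 (by linarith only [hζ, b0, b1, b2, b3, hR, hs, hDR, z5, hx2])
    obtain h2 : x ^ 2 ≤ 2 * ζ := by
      linarith only [hx2, hζ, b0, b1, b2, b3, hR, hs, hDR, z5, hx, mul_le_mul_of_nonneg_left (show x ≤ 1 by linarith) hx.le]
    have h3 : C1 * x ^ 2 * x ≤ C1 * (2 * ζ) * x := by gcongr
    have h4 : 16 * C1 * ζ * x ≤ 1 / 4 * x := mul_le_mul_of_nonneg_right (z4 _ k1) hx.le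
    constructor
    · linarith only [h1, h3]
    · linarith only [hx, h3, h4, h1, (abs_le.1 h1).1]
  obtain HY : ∀ (g : ℕ → ℝ) (N : ℝ), 0 ≤ N → (∀ q, 0 ≤ g q) →
      (∀ q : ℕ, g (q + 2) ≤ N * gc (β n0 * (q + 1 : ℕ))) → ∀ q : ℕ,
      Sol r n0 (fun k => if k = 0 then 0 else g (k + 1)) (n1 - n0) q ≤
        N * exp (lgL β a n0 n1) * C5 * gc (β n1 * (q + 1 : ℕ)) := by
    clear * - β n0 r n1 η1 a C0 H adm hη1 C1 P b0 G hC0 hη11 a1 a2 hs D ζ hζ b1 b2 b3 hR hDR z5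
      he0 he1 C5 hC1 hC5
    intro g N hN hg hg2 q
    have h1 := (H r β a n0 n1 (fun k => if k = 0 then 0 else g (k + 1)) (N * η1⁻¹) η1 adm
      (by positivity) hη1.le le_rfl).1 (fun k => by
        clear * - β n0 k C1 P b0 G g N η1 hN hη1 hg hg2 q
        have p1 := (P (β n0 * k) (by positivity)).1
        have p2 := (G (β n0 * k) (by positivity)).1
        cases k with
        | zero =>
          simp only [if_true, abs_zero]
          positivity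
        | succ k =>
          simp only [Nat.succ_ne_zero, if_false]
          rw [abs_of_nonneg (hg _)]
          refine (hg2 k).trans ?_
          have p3 : 0 ≤ N * η1⁻¹ * phi (β n0 * (k + 1 : ℕ)) := by positivity
          obtain p4 : N * η1⁻¹ * (η1 * gc (β n0 * (k + 1 : ℕ))) = N * gc (β n0 * (k + 1 : ℕ)) := by
            field_simp
          linarith only [p3, p4]) q
    have h2 := cmix_up hC0 (by positivity) hη1.le hη11 a1 a2 hs (by linarith only [hζ, b0, b1, b2, b3, hR, hs, hDR, z5]) he0 he1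
      (P _ (by positivity)).1 (G _ (by positivity)).1 (P _ (by positivity)).2.1 h1
    obtain h3 : gc (β n1 * q) ≤ exp 1 * gc (β n1 * (q + 1 : ℕ)) := by
      clear * - β n1 q b2 a n0 D r ζ hζ b0 b1 b3 hR hs hDR z5 G
      refine (gc_shift (by positivity) b2.le).trans ?_
      rw [show β n1 * (q + 1 : ℕ) = β n1 * q + β n1 by push_cast; ring]
      exact mul_le_mul_of_nonneg_right (exp_le_exp.2 (by linarith only [hζ, b0, b1, b2, b3, hR, hs, hDR, z5])) (G _ (by positivity)).1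
    refine h2.trans ((mul_le_mul_of_nonneg_left h3 (by positivity)).trans_eq ?_)
    rw [hC5]
    ring
  have f0b : Bdd fun q : ℕ => phi (β n0 * q) := ⟨C1, fun q => by
    clear * - β n0 q C1 P b0 G hC10
    have p1 := P (β n0 * q) (by positivity)
    have p2 := (G (β n0 * q) (by positivity)).2.1.trans
      (exp_le_one_iff.2 (neg_nonpos.2 (by positivity)))
    rw [abs_of_nonneg p1.1]
    exact p1.2.1.trans (mul_le_of_le_one_right hC10.le p2)⟩
  have f00 : ∀ q : ℕ, 0 ≤ phi (β n0 * q) := fun q => (P _ (by positivity)).1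
  obtain HV : ∀ q : ℕ, |Sol r n0 (fun q : ℕ => phi (β n0 * q)) (n1 - n0) q -
      exp (lgL β a n0 n1) * phi (β n1 * q)| ≤ C2 * ζ * exp (lgL β a n0 n1) * gc (β n1 * q) := by
    clear * - β n0 r n1 a C0 H adm η1 hη1 C2 ζ C1 hC2 hC0 a1 a2 hs z1 he0 he1 D hζ b0 b1 b2 b3 hR
      hDR z5 z4 k7 P G f00 f0b
    intro q
    have h1 := H r β a n0 n1 (fun q : ℕ => phi (β n0 * q)) 1 0 adm zero_le_one le_rfl hη1.le
    rw [hC2]
    exact cmix_two hC0 a1 a2 hs z1 he0 he1 (by linarith only [hζ, b0, b1, b2, b3, hR, hs, hDR, z5, z4, k7, z4 _ k7]) (P _ (by positivity)).1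
      (G _ (by positivity)).1 (P _ (by positivity)).2.1
      (h1.1 (fun k => by simp [abs_of_nonneg (f00 k)]) q) (h1.2 f0b f00 (fun k => by simp) q)
  obtain f1 : 0 < f 1 := by
    clear * - M β n0 η0 f hlo C1 ζ P1 b0 a n1 D r hζ b1 b2 b3 hR hs hDR G hη0 C0 hm hC0 hη02 hM
    have h1 := hlo 1
    rw [Nat.cast_one, mul_one] at h1
    have h2 := (P1 _ b0 (by linarith only [hζ, b1, b2, b3, hR, hs, hDR])).2
    have h3 := mul_le_mul_of_nonneg_left (G _ b0.le).2.2.1 hη0.le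
    have h4 : mm * η0 ≤ C0 * (mm * η0) := le_mul_of_one_le_left (by positivity) hC0
    have h5 : mm * η0 * β n0 ≤ 1 / 8 * β n0 := mul_le_mul_of_nonneg_right (by linarith only [hη02, h4]) b0.le
    exact lt_of_lt_of_le (mul_pos hM (by linarith only [b0, h2, h3, h5])) h1
  obtain HU : M * exp (lgL β a n0 n1) * β n1 ≤ 2 * exp (2 * C0) * Sol r n0 f (n1 - n0) 1 := by
    clear * - M β a n0 n1 C0 η0 r f H adm hM hη0 hη01 hf h0 hlo ζ hC0 η1 hη11 a1 a2 hs z1 D hζ b0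
      b1 b2 b3 hR hDR z5 he0 he1 G C1 P1 hη02 z4 k6 hm0
    have h1 := (H r β a n0 n1 f M η0 adm hM.le hη0.le hη01).2 hf h0 hlo 1
    rw [Nat.cast_one, mul_one] at h1
    exact cmix_low hC0 hM.le hη0.le (hη01.trans hη11) a1 a2 hs z1 (by linarith only [hζ, b0, b1, b2, b3, hR, hs, hDR, z5]) he0 he1 b2.le
      (G _ b2.le).2.2.1 (P1 _ b2 (by linarith only [hζ, b0, b1, b3, hR, hs, hDR])).2 hη02 (by linarith only [hζ, b0, b1, b2, b3, hR, hs, hDR, z5, z4, k6, z4 _ k6]) hm0.le h1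
  have hU := (mix_tp2 hr hf h0 hz f1 0).2.1
  refine ⟨hU, fun q => ?_⟩
  cases q with
  | zero => simp [cmix_zero r n0 _ hz, phi_spec.zero, hg0]
  | succ q =>
    obtain ⟨hE, -, t1, t2⟩ := mix_tp2 hr hf h0 hz f1 q
    obtain ⟨-, hV, t3, t4⟩ := mix_tp2 hr f0b f00 (by simpa using phi_spec.zero)
      (by simpa using phi_spec.pos _ b0) q
    have g1 := (G (β n1 * (q + 1 : ℕ)) (by positivity)).1
    have p1 := P (β n1 * (q + 1 : ℕ)) (by positivity)
    have hW : 0 < Sol r n0 f (n1 - n0) 1 / β n1 := div_pos hU b2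
    refine cmix_alg hE hU hV b2 hL g1 p1.1 hc0
      (p1.2.1.trans (mul_le_mul_of_nonneg_right (by clear * - C1 c a n0 n1 β D r ζ hC1 k1 hζ b0 b1 b2 b3 hR hs hDR z5 g1 p1 t1 t2 t3 t4 z0; linarith only [hC1, k1, hζ, b0, b1, b2, b3, hR, hs, hDR, z5]) g1)) z0 t1 t2 t3 t4 ?_ ?_
      ((HV (q + 1)).trans (by clear * - β n1 q C2 ζ a n0 c k4 z0 g1 HV; gcongr)) ?_ (by clear * - c ζ a n0 n1 β D r hζ b0 b1 b2 b3 hR hs hDR z3 z5 HV q; linarith only [hζ, b0, b1, b2, b3, hR, hs, hDR, z3, z5])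
    · have h1 := HY f (D * M) (by positivity) h0 hsh q
      obtain h2 : M * exp (lgL β a n0 n1) ≤ 2 * exp (2 * C0) * (Sol r n0 f (n1 - n0) 1 / β n1) := by
        rw [← mul_div_assoc, le_div_iff₀ b2]
        exact HU
      refine (mul_le_mul_of_nonneg_left h1 hR.le).trans ?_
      calc _ = (D * ∏ j ∈ range (n1 - n0), r (n0 + j)) * (M * exp (lgL β a n0 n1)) * C5 *
            gc (β n1 * (q + 1 : ℕ)) := by ring
        _ ≤ ζ * (2 * exp (2 * C0) * (Sol r n0 f (n1 - n0) 1 / β n1)) * C5 *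
            gc (β n1 * (q + 1 : ℕ)) := by clear * - β n1 q D n0 r M a C5 ζ C0 f z2 h2 hM z0 hC50 g1; gcongr
        _ = 2 * exp (2 * C0) * C5 * ζ * (Sol r n0 f (n1 - n0) 1 / β n1) *
            gc (β n1 * (q + 1 : ℕ)) := by ring
        _ ≤ _ := by clear * - β n1 q C0 C5 ζ r n0 f c k2 z0 hU b2 g1; gcongr
    · have h1 := HY (fun q : ℕ => phi (β n0 * q)) (2 * C1) (by positivity) f00 (fun k => by
        clear * - β n0 k b0 C1 P hC10 q
        have h2 := cmix_gc2 (x := β n0 * (k + 1 : ℕ)) b0.le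
          (le_mul_of_one_le_right b0.le (by exact_mod_cast Nat.succ_pos k))
        have h3 := (P (β n0 * (k + 2 : ℕ)) (by positivity)).2.1
        rw [show β n0 * (k + 1 : ℕ) + β n0 = β n0 * (k + 2 : ℕ) by push_cast; ring] at h2
        linarith only [h3, h2, hC10, mul_le_mul_of_nonneg_left h2 hC10.le]) q
      refine (mul_le_mul_of_nonneg_left h1 hR.le).trans ?_
      calc _ = 2 * C1 * C5 * (∏ j ∈ range (n1 - n0), r (n0 + j)) * exp (lgL β a n0 n1) *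
            gc (β n1 * (q + 1 : ℕ)) := by ring
        _ ≤ _ := by
          clear * - n1 n0 r ζ D hDR z2 β q C1 C5 a c k3 hR hc1 g1
          have := hDR.trans z2
          gcongr
    · have h1 := HV 1
      rw [Nat.cast_one, mul_one] at h1
      have h2 := (P1 _ b2 (by clear * - β n1 ζ a n0 D r hζ b0 b1 b3 hR hs hDR P1 b2; linarith only [hζ, b0, b1, b3, hR, hs, hDR])).1
      have h3 : C2 * ζ * exp (lgL β a n0 n1) * gc (β n1) ≤
          C2 * ζ * exp (lgL β a n0 n1) * (mm * β n1) :=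
        mul_le_mul_of_nonneg_left (G _ b2.le).2.2.1 (by positivity)
      obtain h4 : |exp (lgL β a n0 n1) * phi (β n1) - exp (lgL β a n0 n1) * β n1| ≤
          exp (lgL β a n0 n1) * (2 * C1 * ζ * β n1) := by
        rw [← mul_sub, abs_mul, abs_of_pos hL]
        exact mul_le_mul_of_nonneg_left h2 hL.le
      have h5 : (2 * C1 + C2 * mm) * ζ * exp (lgL β a n0 n1) * β n1 ≤
          c * ζ * exp (lgL β a n0 n1) * β n1 := by clear * - β n1 C1 C2 ζ a n0 c k5 z0 b2; gcongr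
      clear * - r n0 β n1 a c ζ C2 C1 h1 h3 h4 h5 q
      linarith only [h1, h3, h4, h5, abs_sub_le (Sol r n0 (fun q : ℕ => phi (β n0 * q)) (n1 - n0) 1)
        (exp (lgL β a n0 n1) * phi (β n1)) (exp (lgL β a n0 n1) * β n1)]

end Pool.Agent.Work.MP_5391ad_co
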