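import Pool.Agent.Work.MP_5391ad_co.CExp
import Pool.Agent.Work.MP_5391ad_co.CRate

-- merged part: Pool.Agent.Work.MP_5391ad_co.CGau
section
/-! The heat semigroup `Pg s f x = E f (x + √s Z)`.
`pg_wb`: `1/cosh (x+y) + 1/cosh (x-y) ≤ 2 cosh y / cosh x` (because
`cosh (x+y) cosh (x-y) = cosh^2 x + sinh^2 y`), symmetry of the Gaussian and
`E cosh (√s Z) = e^{s/2}` (`mgf_id_gaussianReal` or `integral_exp_mul` type lemmas).
`pg_deriv`: `hasDerivAt_integral_of_dominated_loc_of_deriv_le`; `f1 = deriv f` is measurable.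
`pg_add`: `gaussianReal_conv_gaussianReal` / `gaussianReal_add_gaussianReal_of_indepFun`, or
characteristic functions; `Pg s f x = ∫ f d(gaussianReal x s)` by `gaussianReal_map_*`.
`pg_taylor`: `E Z = 0`, `E Z^2 = 1`, remainder `M |y|^3 e^{|y|} / cosh x`, `1/cosh (x+y) ≤ e^{|y|}/cosh x`.
`pg_asym`, `pg_small`: for odd `G`,
`Pg s G δ = ∫ G η p_s(η) e^{-δ^2/2s} sinh (η δ/s) dη`, `p_s` the centred Gaussian density;
`|sinh y| ≤ |y| e^{|y|}` and `-η^2/2s - δ^2/2s + |η| δ/s ≤ 0`; dominated convergence.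
`exists_phi_odd`: `Ψ x = phi (l x)` for `x ≥ 0` and `-phi (-l x)` for `x < 0`; glue one-sided
derivatives at `0` (`phi 0 = 0`, `phi'' 0 = 0`). -/

namespace Pool.Agent.Work.MP_5391ad_co

open Real MeasureTheory ProbabilityTheory

theorem pg_zero (f : ℝ → ℝ) (x : ℝ) : Pg 0 f x = f x := by
  simp [Pg]

theorem pg_bdd {s M : ℝ} {f : ℝ → ℝ} (h : ∀ x, |f x| ≤ M) (x : ℝ) : |Pg s f x| ≤ M := by
  have := norm_integral_le_of_norm_le_const (μ := gaussianReal 0 1) (f := fun z => f (x + √s * z))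
    (C := M) (Filter.Eventually.of_forall fun z => h _)
  simpa [Pg] using this

theorem cgau_neg (g : ℝ → ℝ) :
    ∫ z, g (-z) ∂(gaussianReal 0 1) = ∫ z, g z ∂(gaussianReal 0 1) := by
  have h : MeasurePreserving (MeasurableEquiv.neg ℝ) (gaussianReal 0 1) (gaussianReal 0 1) :=
    ⟨measurable_neg, by simpa using gaussianReal_map_neg (μ := 0) (v := 1)⟩
  exact h.integral_comp' g

theorem cgau_exp (t : ℝ) : ∫ z, exp (t * z) ∂(gaussianReal 0 1) = exp (t ^ 2 / 2) := by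
  have := congrFun (mgf_fun_id_gaussianReal (μ := 0) (v := 1)) t
  simpa [mgf] using this

theorem cgau_int {f : ℝ → ℝ} {μ : Measure ℝ} [IsFiniteMeasure μ] (hm : Measurable f) {M : ℝ}
    (h : ∀ x, |f x| ≤ M) : Integrable f μ :=
  Integrable.of_bound hm.aestronglyMeasurable M (Filter.Eventually.of_forall h)

theorem cgau_cosh (x y : ℝ) : 1 / cosh (x + y) + 1 / cosh (x - y) ≤ 2 * cosh y / cosh x := by
  have h1 := cosh_pos (x + y)
  have h2 := cosh_pos (x - y)
  have h3 := cosh_pos x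
  have h4 := cosh_pos y
  have e1 : cosh (x + y) * cosh (x - y) = cosh x ^ 2 + sinh y ^ 2 := by
    rw [cosh_add, cosh_sub]
    have := cosh_sq x
    have := cosh_sq y
    have e : (cosh x * cosh y + sinh x * sinh y) * (cosh x * cosh y - sinh x * sinh y) =
        cosh x ^ 2 * cosh y ^ 2 - sinh x ^ 2 * sinh y ^ 2 := by ring
    rw [e, cosh_sq y, show sinh x ^ 2 = cosh x ^ 2 - 1 by linarith]
    ring
  have e2 : cosh (x - y) + cosh (x + y) = 2 * cosh x * cosh y := by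
    rw [cosh_add, cosh_sub]; ring
  rw [div_add_div _ _ h1.ne' h2.ne', one_mul, mul_one, e1, e2,
    div_le_div_iff₀ (by positivity) h3]
  have : 0 ≤ cosh y * sinh y ^ 2 := by positivity
  linarith only [this]

theorem cgau_wb_nonneg {M : ℝ} {f : ℝ → ℝ} (h : Wb M f) : 0 ≤ M := by
  simpa using (abs_nonneg _).trans (h 0)

theorem pg_wb {s M : ℝ} {f : ℝ → ℝ} (hs : 0 ≤ s) (h : Wb M f) : Wb (M * exp (s / 2)) (Pg s f) := by
  intro x
  have hM := cgau_wb_nonneg h
  have hi : ∀ c : ℝ, Integrable (fun z => 1 / cosh (x + c * z)) (gaussianReal 0 1) := fun c =>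
    cgau_int (M := 1) (by fun_prop) fun z => by
      rw [abs_of_pos (by have := cosh_pos (x + c * z); positivity)]
      exact div_le_one_of_le₀ (one_le_cosh _) (cosh_pos _).le
  have h1 : |Pg s f x| ≤ ∫ z, M * (1 / cosh (x + √s * z)) ∂(gaussianReal 0 1) :=
    norm_integral_le_of_norm_le (f := fun z => f (x + √s * z)) ((hi √s).const_mul M)
      (Filter.Eventually.of_forall fun z => by rw [mul_one_div]; exact h _)
  have h2 := cgau_neg fun z => 1 / cosh (x + √s * z)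
  have hc : Integrable (fun z => (exp (√s * z) + exp (-√s * z)) / cosh x) (gaussianReal 0 1) :=
    ((integrable_exp_mul_gaussianReal _).add (integrable_exp_mul_gaussianReal _)).div_const _
  have h3 : ∫ z, (1 / cosh (x + √s * z) + 1 / cosh (x + -√s * z)) ∂(gaussianReal 0 1) ≤
      ∫ z, (exp (√s * z) + exp (-√s * z)) / cosh x ∂(gaussianReal 0 1) := by
    refine integral_mono ((hi _).add (hi _)) hc fun z => ?_
    have := cgau_cosh x (√s * z)
    rw [cosh_eq (√s * z)] at this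
    simp only [neg_mul, ← sub_eq_add_neg]
    refine this.trans (le_of_eq ?_)
    ring
  rw [integral_add (hi _) (hi _), integral_div, integral_add (integrable_exp_mul_gaussianReal _)
    (integrable_exp_mul_gaussianReal _), cgau_exp, cgau_exp, neg_sq, sq_sqrt hs] at h3
  simp only [mul_neg, neg_mul] at h2 h3
  rw [h2] at h3
  rw [integral_const_mul] at h1
  refine h1.trans ?_
  rw [mul_div_assoc]
  refine mul_le_mul_of_nonneg_left ?_ hM
  rw [add_div] at h3
  linarith only [h3]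

theorem cgau_meas {f f1 : ℝ → ℝ} (hd : ∀ x, HasDerivAt f (f1 x) x) : Measurable f ∧ Measurable f1 :=
  ⟨(continuous_iff_continuousAt.2 fun x => (hd x).continuousAt).measurable, by
    rw [show f1 = deriv f from funext fun x => (hd x).deriv.symm]
    exact measurable_deriv f⟩

theorem pg_deriv {s M : ℝ} {f f1 : ℝ → ℝ} (hd : ∀ x, HasDerivAt f (f1 x) x) (h : ∀ x, |f x| ≤ M)
    (h1 : ∀ x, |f1 x| ≤ M) (x : ℝ) : HasDerivAt (Pg s f) (Pg s f1 x) x := by
  obtain ⟨m0, m1⟩ := cgau_meas hd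
  exact (hasDerivAt_integral_of_dominated_loc_of_deriv_le (μ := gaussianReal 0 1)
    (F := fun y z => f (y + √s * z)) (F' := fun y z => f1 (y + √s * z)) (bound := fun _ => M)
    (s := Set.univ) Filter.univ_mem
    (Filter.Eventually.of_forall fun y => (m0.comp (by fun_prop)).aestronglyMeasurable)
    (cgau_int (m0.comp (by fun_prop)) fun z => h _) (m1.comp (by fun_prop)).aestronglyMeasurable
    (Filter.Eventually.of_forall fun z y _ => h1 _) (integrable_const M)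
    (Filter.Eventually.of_forall fun z y _ => (hd _).comp_add_const y _)).2

theorem pg_odd3 {s M : ℝ} {f f1 f2 f3 : ℝ → ℝ} (h : Odd3 f f1 f2 f3)
    (hb : ∀ x, |f x| ≤ M ∧ |f1 x| ≤ M ∧ |f2 x| ≤ M ∧ |f3 x| ≤ M) :
    Odd3 (Pg s f) (Pg s f1) (Pg s f2) (Pg s f3) := by
  refine ⟨fun x => ?_, pg_deriv h.d1 (fun x => (hb x).1) fun x => (hb x).2.1,
    pg_deriv h.d2 (fun x => (hb x).2.1) fun x => (hb x).2.2.1,
    pg_deriv h.d3 (fun x => (hb x).2.2.1) fun x => (hb x).2.2.2⟩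
  unfold Pg
  rw [← cgau_neg, ← integral_neg]
  refine integral_congr_ae (Filter.Eventually.of_forall fun z => ?_)
  show f (-x + √s * -z) = -f (x + √s * z)
  rw [← h.odd]
  congr 1
  ring

theorem cgau_map {s : ℝ} (hs : 0 ≤ s) {f : ℝ → ℝ} (hm : Measurable f) (x : ℝ) :
    Pg s f x = ∫ y, f y ∂(gaussianReal x s.toNNReal) := by
  have h1 : (gaussianReal 0 1).map (fun z => x + √s * z) = gaussianReal x s.toNNReal := by
    have e : (fun z => x + √s * z) = (fun y => x + y) ∘ fun z => √s * z := rfl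
    rw [e, ← Measure.map_map (by fun_prop) (by fun_prop), gaussianReal_map_const_mul,
      gaussianReal_map_const_add]
    congr 1
    · simp
    · ext
      simp [hs]
  rw [← h1, integral_map (by fun_prop) hm.aestronglyMeasurable]
  rfl

theorem pg_add {s s' M : ℝ} {f : ℝ → ℝ} (hs : 0 ≤ s) (hs' : 0 ≤ s') (hm : Measurable f)
    (h : ∀ x, |f x| ≤ M) (x : ℝ) : Pg s (Pg s' f) x = Pg (s + s') f x := by
  have h1 : Measurable (Pg s' f) :=
    (StronglyMeasurable.integral_prod_right (ν := gaussianReal 0 1)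
      (f := fun y z => f (y + √s' * z)) (hm.comp (by fun_prop)).stronglyMeasurable).measurable
  have h2 : ∀ y, Pg s' f y = ∫ w, f (y + w) ∂(gaussianReal 0 s'.toNNReal) := fun y => by
    rw [← cgau_map hs' (f := fun w => f (y + w)) (hm.comp (by fun_prop))]
    simp [Pg]
  rw [cgau_map hs h1, cgau_map (add_nonneg hs hs') hm, Real.toNNReal_add hs hs']
  conv_rhs => rw [← add_zero x]
  rw [← gaussianReal_conv_gaussianReal, integral_conv (cgau_int hm h)]
  simp only [h2]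

theorem cgau_tay {f f1 f2 f3 : ℝ → ℝ} {M x y : ℝ} (h1 : ∀ x, HasDerivAt f (f1 x) x)
    (h2 : ∀ x, HasDerivAt f1 (f2 x) x) (h3 : ∀ x, HasDerivAt f2 (f3 x) x)
    (hM : ∀ t ∈ Set.uIcc x (x + y), |f3 t| ≤ M) :
    |f (x + y) - (f x + f1 x * y + f2 x / 2 * y ^ 2)| ≤ M * |y| ^ 3 := by
  have a2 := aexp_mvt (x := x) (y := x + y) h3 hM
  have a1 := aexp_mvt (f := fun t => f1 t - f2 x * t) (f' := fun t => f2 t - f2 x) (x := x)
    (y := x + y)
    (fun t => ((h2 t).fun_sub ((hasDerivAt_id' t).const_mul (f2 x))).congr_deriv (by ring)) a2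
  have a0 := aexp_mvt (f := fun t => f t - f1 x * t - f2 x / 2 * (t - x) ^ 2)
    (f' := fun t => f1 t - f2 x * t - (f1 x - f2 x * x)) (x := x) (y := x + y)
    (fun t => (((h1 t).fun_sub ((hasDerivAt_id' t).const_mul (f1 x))).fun_sub
        ((((hasDerivAt_id' t).sub_const x).fun_pow 2).const_mul (f2 x / 2))).congr_deriv
        (by push_cast; ring)) a1 (x + y) Set.right_mem_uIcc
  rw [add_sub_cancel_left] at a0
  calc _ = |f (x + y) - f1 x * (x + y) - f2 x / 2 * y ^ 2 -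
        (f x - f1 x * x - f2 x / 2 * (x - x) ^ 2)| := by congr 1; ring
    _ ≤ M * |y| * |y| * |y| := a0
    _ = _ := by ring

theorem cgau_cosh_le (t d : ℝ) : cosh (t + d) ≤ cosh t * exp |d| := by
  rw [cosh_eq, cosh_eq, exp_add, neg_add, exp_add]
  have h1 : exp d ≤ exp |d| := exp_le_exp.2 (le_abs_self d)
  have h2 : exp (-d) ≤ exp |d| := exp_le_exp.2 (neg_le_abs d)
  have h3 := mul_le_mul_of_nonneg_left h1 (exp_pos t).le
  have h4 := mul_le_mul_of_nonneg_left h2 (exp_pos (-t)).le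
  linarith only [h3, h4]

theorem cgau_tayW {f f1 f2 f3 : ℝ → ℝ} {M : ℝ} (h1 : ∀ x, HasDerivAt f (f1 x) x)
    (h2 : ∀ x, HasDerivAt f1 (f2 x) x) (h3 : ∀ x, HasDerivAt f2 (f3 x) x) (hM : Wb M f3) (x y : ℝ) :
    |f (x + y) - (f x + f1 x * y + f2 x / 2 * y ^ 2)| ≤ M / cosh x * exp |y| * |y| ^ 3 := by
  refine cgau_tay h1 h2 h3 fun t ht => (hM t).trans ?_
  have h4 := Set.abs_sub_left_of_mem_uIcc ht
  rw [add_sub_cancel_left, abs_sub_comm] at h4
  have h5 := cgau_cosh_le t (x - t)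
  rw [add_sub_cancel] at h5
  have h6 : cosh x ≤ cosh t * exp |y| :=
    h5.trans (mul_le_mul_of_nonneg_left (exp_le_exp.2 h4) (cosh_pos t).le)
  rw [div_mul_eq_mul_div, div_le_div_iff₀ (cosh_pos t) (cosh_pos x), mul_assoc, mul_comm (exp _)]
  exact mul_le_mul_of_nonneg_left h6 (cgau_wb_nonneg hM)

theorem cgau_weight (z : ℝ) : exp |z| * |z| ^ 3 ≤ exp (4 * z) + exp (-4 * z) := by
  have h1 : |z| ≤ exp |z| := by linarith only [add_one_le_exp |z|]
  have h2 : exp |z| * |z| ^ 3 ≤ exp (4 * |z|) := by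
    calc exp |z| * |z| ^ 3 ≤ exp |z| * exp |z| ^ 3 := by gcongr
      _ = exp (4 * |z|) := by rw [← exp_nat_mul, ← exp_add]; congr 1; push_cast; ring
  refine h2.trans ?_
  rcases abs_cases z with h | h <;> rw [h.1]
  · linarith [exp_pos (-4 * z)]
  · rw [show 4 * -z = -4 * z by ring]; linarith [exp_pos (4 * z)]

theorem cgau_main {g : ℝ → ℝ} (hm : Measurable g) {a b c v : ℝ} (hv : 0 ≤ v)
    (H : ∀ z, |g z - (a + b * z + c * z ^ 2)| ≤ v * (exp |z| * |z| ^ 3)) :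
    |∫ z, g z ∂(gaussianReal 0 1) - a - c| ≤ v * (2 * exp 8) := by
  have i1 : Integrable (fun z : ℝ => z) (gaussianReal 0 1) :=
    memLp_one_iff_integrable.1 (memLp_id_gaussianReal' 1 (by simp))
  have i2 : Integrable (fun z : ℝ => z ^ 2) (gaussianReal 0 1) :=
    (memLp_id_gaussianReal' 2 (by simp)).integrable_sq
  have e2 : ∫ z, z ^ 2 ∂(gaussianReal 0 1) = 1 := by
    have := variance_of_integral_eq_zero (μ := gaussianReal 0 1) (X := fun z : ℝ => z)
      (by fun_prop) (by simp)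
    rw [variance_fun_id_gaussianReal] at this
    simpa using this.symm
  have ip : Integrable (fun z : ℝ => a + b * z + c * z ^ 2) (gaussianReal 0 1) :=
    ((integrable_const a).add (i1.const_mul b)).add (i2.const_mul c)
  have ep : ∫ z, (a + b * z + c * z ^ 2) ∂(gaussianReal 0 1) = a + c := by
    rw [integral_add (f := fun z : ℝ => a + b * z) ((integrable_const a).add (i1.const_mul b))
      (i2.const_mul c), integral_add (integrable_const a) (i1.const_mul b), integral_const_mul, integral_const_mul, e2]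
    simp
  have iw : Integrable (fun z : ℝ => v * (exp (4 * z) + exp (-4 * z))) (gaussianReal 0 1) :=
    ((integrable_exp_mul_gaussianReal _).add (integrable_exp_mul_gaussianReal _)).const_mul v
  have hb : ∀ᵐ z ∂(gaussianReal 0 1), ‖g z - (a + b * z + c * z ^ 2)‖ ≤
      v * (exp (4 * z) + exp (-4 * z)) := Filter.Eventually.of_forall fun z =>
    (H z).trans (mul_le_mul_of_nonneg_left (cgau_weight z) hv)
  have ir := iw.mono' (hm.sub (by fun_prop)).aestronglyMeasurable hb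
  have h1 := norm_integral_le_of_norm_le iw hb
  have ig : Integrable g (gaussianReal 0 1) :=
    (ir.add ip).congr (Filter.Eventually.of_forall fun z => sub_add_cancel _ _)
  rw [integral_sub ig ip, ep, integral_const_mul, integral_add (integrable_exp_mul_gaussianReal _)
    (integrable_exp_mul_gaussianReal _), cgau_exp, cgau_exp, Real.norm_eq_abs] at h1
  norm_num at h1
  rw [sub_sub, two_mul]
  exact h1

theorem pg_taylor : ∃ C : ℝ, 0 ≤ C ∧ ∀ (f f1 f2 f3 : ℝ → ℝ) (M s : ℝ), 0 ≤ s → s ≤ 1 →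
    (∀ x, HasDerivAt f (f1 x) x) → (∀ x, HasDerivAt f1 (f2 x) x) →
    (∀ x, HasDerivAt f2 (f3 x) x) → (∀ x, |f x| ≤ M) →
    ((∀ x, |f3 x| ≤ M) → ∀ x, |Pg s f x - f x - s / 2 * f2 x| ≤ C * M * √s ^ 3) ∧
    (Wb M f3 → ∀ x, |Pg s f x - f x - s / 2 * f2 x| ≤ C * M * √s ^ 3 / cosh x) := by
  refine ⟨2 * exp 8, by positivity, fun f f1 f2 f3 M s hs hs1 h1 h2 h3 _ => ?_⟩
  have hm := (cgau_meas h1).1
  have hr := sqrt_nonneg s
  have hr1 : √s ≤ 1 := sqrt_le_one.2 hs1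
  have key : ∀ x v, 0 ≤ v → (∀ y, |f (x + y) - (f x + f1 x * y + f2 x / 2 * y ^ 2)| ≤
      v * exp |y| * |y| ^ 3) → |Pg s f x - f x - s / 2 * f2 x| ≤ v * √s ^ 3 * (2 * exp 8) := by
    intro x v hv H
    refine cgau_main (g := fun z => f (x + √s * z)) (hm.comp (by fun_prop)) (b := f1 x * √s)
      (by positivity) fun z => ?_
    have h4 := H (√s * z)
    rw [mul_pow, sq_sqrt hs, abs_mul, abs_of_nonneg hr] at h4
    calc _ = |f (x + √s * z) - (f x + f1 x * (√s * z) + f2 x / 2 * (s * z ^ 2))| := by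
          congr 1; ring
      _ ≤ v * exp (√s * |z|) * (√s * |z|) ^ 3 := h4
      _ ≤ v * exp |z| * (√s * |z|) ^ 3 := by
          gcongr
          exact mul_le_of_le_one_left (abs_nonneg z) hr1
      _ = _ := by ring
  constructor
  · intro hM x
    have hM0 : 0 ≤ M := (abs_nonneg _).trans (hM 0)
    refine (key x M hM0 fun y => (cgau_tay h1 h2 h3 fun t _ => hM t).trans ?_).trans_eq (by ring)
    gcongr
    exact le_mul_of_one_le_right hM0 (one_le_exp (abs_nonneg y))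
  · intro hM x
    exact (key x _ (div_nonneg (cgau_wb_nonneg hM) (cosh_pos x).le)
      (cgau_tayW h1 h2 h3 hM x)).trans_eq (by ring)

theorem cgau_pmain {h : ℕ → ℝ} {q : ℕ} {a b c v : ℝ}
    (H : ∀ k : ℕ, |h (q + k) - (a + b * (k - 1) + c * (k - 1) ^ 2)| ≤ v * exp 4 ^ k) :
    |Pois h q - (a + c)| ≤ v * exp (exp 4) := by
  have h1 : HasSum (fun k : ℕ => exp (-1) / (k.factorial : ℝ) *
      (a + b * (k - 1) + c * (k - 1) ^ 2)) (a + c) :=
    aexp_congr (((aexp_m0.mul_left (a - b + c)).add (aexp_m1.mul_left (b - c))).add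
      (aexp_m2.mul_left c)) (fun k => by ring) (by ring)
  have h2 := (aexp_hs (exp 4)).mul_left v
  have hb : ∀ k : ℕ, ‖exp (-1) / (k.factorial : ℝ) *
      (h (q + k) - (a + b * (k - 1) + c * (k - 1) ^ 2))‖ ≤ v * (exp 4 ^ k / k.factorial) := fun k => by
    rw [norm_mul, Real.norm_of_nonneg (aexp_p_nonneg k), Real.norm_eq_abs]
    have h3 : exp (-1) / (k.factorial : ℝ) ≤ 1 / k.factorial := by
      gcongr
      exact exp_le_one_iff.2 (by norm_num)
    refine (mul_le_mul h3 (H k) (abs_nonneg _) (by positivity)).trans_eq ?_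
    ring
  have h3 := Summable.of_norm_bounded h2.summable hb
  have h4 := tsum_of_norm_bounded h2 hb
  have h5 := (h3.hasSum.add h1).tsum_eq
  have h6 : Pois h q = ∑' k : ℕ, (exp (-1) / (k.factorial : ℝ) *
      (h (q + k) - (a + b * (k - 1) + c * (k - 1) ^ 2)) + exp (-1) / (k.factorial : ℝ) *
      (a + b * (k - 1) + c * (k - 1) ^ 2)) := tsum_congr fun k => by ring
  rw [h6, h5, add_sub_cancel_right]
  exact h4

theorem cgau_inv_cosh (x : ℝ) : 1 / cosh x ≤ 2 * exp (-x) := by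
  rw [div_le_iff₀ (cosh_pos x), cosh_eq]
  have h1 : exp (-x) * exp x = 1 := by rw [← exp_add]; simp
  linarith only [h1, mul_pos (exp_pos (-x)) (exp_pos (-x)), mul_self_nonneg (rexp (-x))]

theorem pois_taylorW : ∃ C : ℝ, 0 ≤ C ∧ ∀ (f f1 f2 f3 : ℝ → ℝ) (M δ : ℝ), 0 < δ → δ ≤ 1 →
    (∀ x, HasDerivAt f (f1 x) x) → (∀ x, HasDerivAt f1 (f2 x) x) →
    (∀ x, HasDerivAt f2 (f3 x) x) → (∀ x, |f x| ≤ M) → Wb M f3 → ∀ q : ℕ,
    |Pois (fun k => f (δ * k)) q - f (δ * (q + 1)) - δ ^ 2 / 2 * f2 (δ * (q + 1))| ≤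
      C * M * δ ^ 3 * exp (-(δ * (q + 1))) := by
  refine ⟨2 * exp 1 * exp (exp 4), by positivity, fun f f1 f2 f3 M δ hδ hδ1 h1 h2 h3 _ hM q => ?_⟩
  have hM0 := cgau_wb_nonneg hM
  set x := δ * (q + 1) with hx
  have := cgau_pmain (h := fun k => f (δ * k)) (q := q) (a := f x) (b := f1 x * δ)
    (c := δ ^ 2 / 2 * f2 x) (v := M * (2 * exp (-x)) * δ ^ 3 * exp 1) (fun k => by
      have h4 := cgau_tayW h1 h2 h3 hM x (δ * (k - 1))
      have e : x + δ * (k - 1) = δ * ((q + k : ℕ) : ℝ) := by rw [hx]; push_cast; ring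
      have hk : (0 : ℝ) ≤ k := Nat.cast_nonneg k
      have h5 : |(k : ℝ) - 1| ≤ k + 1 := by rw [abs_le]; constructor <;> linarith only []
      have h6 : |(k : ℝ) - 1| ≤ exp k := h5.trans (add_one_le_exp _)
      have h7 : M / cosh x ≤ M * (2 * exp (-x)) := by
        rw [← mul_one_div]; exact mul_le_mul_of_nonneg_left (cgau_inv_cosh x) hM0
      have h8 : δ * |(k : ℝ) - 1| ≤ k + 1 := (mul_le_of_le_one_left (abs_nonneg _) hδ1).trans h5
      rw [e, abs_mul, abs_of_pos hδ] at h4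
      calc _ = |f (δ * ((q + k : ℕ) : ℝ)) -
            (f x + f1 x * (δ * (k - 1)) + f2 x / 2 * (δ * (k - 1)) ^ 2)| := by congr 1; ring
        _ ≤ M / cosh x * exp (δ * |(k : ℝ) - 1|) * (δ * |(k : ℝ) - 1|) ^ 3 := h4
        _ ≤ M * (2 * exp (-x)) * exp (k + 1) * (δ * exp k) ^ 3 := by gcongr
        _ = _ := by
          rw [← exp_nat_mul, show (k : ℝ) * 4 = k + (3 : ℕ) * k by push_cast; ring, exp_add, exp_add,
            exp_nat_mul]
          ring)
  rw [sub_sub]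
  exact this.trans_eq (by ring)

/-- the odd kernel -/
noncomputable def cgau_D (s δ η : ℝ) : ℝ :=
  s / (2 * δ) * (exp (-(η - δ) ^ 2 / (2 * s)) - exp (-(-η - δ) ^ 2 / (2 * s)))

theorem cgau_D_pos {s δ η : ℝ} (hs : 0 < s) (hδ : 0 < δ) (hη : 0 ≤ η) :
    η * exp (-(η ^ 2 + δ ^ 2) / (2 * s)) ≤ cgau_D s δ η ∧ cgau_D s δ η ≤ η := by
  set a := -(η ^ 2 + δ ^ 2) / (2 * s) with ha
  set u := η * δ / s with hu
  have hu0 : 0 ≤ u := by positivity
  have e1 : -(η - δ) ^ 2 / (2 * s) = a + u := by rw [ha, hu]; field_simp; ring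
  have e2 : -(-η - δ) ^ 2 / (2 * s) = a + -u := by rw [ha, hu]; field_simp; ring
  have e3 : η = s / (2 * δ) * (2 * u) := by rw [hu]; field_simp
  have hc : 0 < s / (2 * δ) := by positivity
  unfold cgau_D
  rw [e1, e2]
  constructor
  · have h1 := self_le_sinh_iff.2 hu0
    rw [sinh_eq] at h1
    have h2 := mul_le_mul_of_nonneg_left h1 (exp_pos a).le
    calc η * exp a = s / (2 * δ) * (2 * u * exp a) := by rw [← mul_assoc, ← e3]
      _ ≤ _ := mul_le_mul_of_nonneg_left (by rw [exp_add, exp_add]; linarith only [h2]) hc.le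
  · have h1 : exp (a + u) ≤ 1 := by
      rw [← e1]
      exact exp_le_one_iff.2 (div_nonpos_of_nonpos_of_nonneg (neg_nonpos.2 (sq_nonneg _)) (by positivity))
    have h2 : exp (a + -u) = exp (a + u) * exp (-(2 * u)) := by rw [← exp_add]; congr 1; ring
    have h3 := add_one_le_exp (-(2 * u))
    have h4 : exp (a + u) * (1 - exp (-(2 * u))) ≤ 1 * (2 * u) :=
      mul_le_mul h1 (by linarith only [h3]) (sub_nonneg.2 (exp_le_one_iff.2 (by linarith only [hu0]))) zero_le_one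
    calc _ ≤ s / (2 * δ) * (2 * u) := mul_le_mul_of_nonneg_left (by rw [h2]; linarith only [h4]) hc.le
      _ = η := e3.symm

theorem cgau_D_abs {s δ : ℝ} (hs : 0 < s) (hδ : 0 < δ) (η : ℝ) : |cgau_D s δ η| ≤ |η| ∧
    |cgau_D s δ η - η| ≤ |η| * (1 - exp (-(η ^ 2 + δ ^ 2) / (2 * s))) := by
  have key : ∀ η, 0 ≤ η → |cgau_D s δ η| ≤ |η| ∧
      |cgau_D s δ η - η| ≤ |η| * (1 - exp (-(η ^ 2 + δ ^ 2) / (2 * s))) := by
    intro η hη
    obtain ⟨h1, h2⟩ := cgau_D_pos hs hδ hη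
    have h3 : 0 ≤ η * exp (-(η ^ 2 + δ ^ 2) / (2 * s)) := by positivity
    rw [abs_of_nonneg hη, abs_of_nonneg (h3.trans h1), abs_of_nonpos (sub_nonpos.2 h2)]
    exact ⟨h2, by linarith only [h1]⟩
  rcases le_total 0 η with h | h
  · exact key η h
  · have h1 := key (-η) (by linarith)
    have e : cgau_D s δ (-η) = -cgau_D s δ η := by unfold cgau_D; rw [neg_neg]; ring
    rwa [e, abs_neg, abs_neg, neg_sq, ← neg_sub', abs_neg] at h1

theorem cgau_repr {G : ℝ → ℝ} (hm : Measurable G) (ho : ∀ x, G (-x) = -G x) {M : ℝ}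
    (hb : ∀ x, |G x| ≤ M) {s δ : ℝ} (hs : 0 < s) (hδ : 0 < δ) :
    s ^ (3 / 2 : ℝ) / δ * Pg s G δ = (√(2 * π))⁻¹ * ∫ η, cgau_D s δ η * G η := by
  have hv : s.toNNReal ≠ 0 := by simpa using hs
  have hi : Integrable fun η => gaussianPDFReal δ s.toNNReal η * G η :=
    (integrable_gaussianPDFReal _ _).mul_bdd hm.aestronglyMeasurable (Filter.Eventually.of_forall hb)
  have hi' : Integrable fun η => gaussianPDFReal δ s.toNNReal (-η) * G η :=
    (integrable_gaussianPDFReal _ _).comp_neg.mul_bdd hm.aestronglyMeasurable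
      (Filter.Eventually.of_forall hb)
  have h1 : Pg s G δ = ∫ η, gaussianPDFReal δ s.toNNReal η * G η := by
    rw [cgau_map hs.le hm, integral_gaussianReal_eq_integral_smul hv]
    rfl
  have h2 : Pg s G δ = -∫ η, gaussianPDFReal δ s.toNNReal (-η) * G η := by
    rw [h1, ← integral_neg_eq_self, ← integral_neg]
    simp only [ho, mul_neg]
  have h3 : 2 * Pg s G δ = ∫ η, (gaussianPDFReal δ s.toNNReal η * G η -
      gaussianPDFReal δ s.toNNReal (-η) * G η) := by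
    rw [integral_sub hi hi']
    linarith only [h1, h2]
  have h4 : s ^ (3 / 2 : ℝ) = s * √s := by
    rw [sqrt_eq_rpow, show (3 / 2 : ℝ) = 1 + 1 / 2 by norm_num, rpow_add hs, rpow_one]
  have h5 : 0 < √s := sqrt_pos.2 hs
  have h6 : 0 < √(2 * π) := sqrt_pos.2 (by positivity)
  calc s ^ (3 / 2 : ℝ) / δ * Pg s G δ = s * √s / (2 * δ) * (2 * Pg s G δ) := by
        rw [h4]; field_simp
    _ = _ := by
      rw [h3, ← integral_const_mul, ← integral_const_mul]
      refine integral_congr_ae (Filter.Eventually.of_forall fun η => ?_)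
      simp only [gaussianPDFReal, cgau_D, Real.coe_toNNReal s hs.le]
      rw [sqrt_mul (by positivity : 0 ≤ 2 * π)]
      field_simp

theorem cgau_sqrt : (√(2 * π))⁻¹ ≤ 1 :=
  inv_le_one_of_one_le₀ (one_le_sqrt.2 (by linarith only [pi_gt_three]))

theorem pg_small {G : ℝ → ℝ} (hm : Measurable G) (ho : ∀ x, G (-x) = -G x) {M : ℝ}
    (hb : ∀ x, |G x| ≤ M) (hi : Integrable fun x => x * G x) {s δ : ℝ} (hs : 0 < s) (hδ : 0 < δ) :
    s ^ (3 / 2 : ℝ) / δ * |Pg s G δ| ≤ ∫ x, |x * G x| := by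
  have h1 : s ^ (3 / 2 : ℝ) / δ * |Pg s G δ| = |s ^ (3 / 2 : ℝ) / δ * Pg s G δ| := by
    rw [abs_mul, abs_of_pos (by positivity : 0 < s ^ (3 / 2 : ℝ) / δ)]
  rw [h1, cgau_repr hm ho hb hs hδ, abs_mul, abs_of_nonneg (by positivity : 0 ≤ (√(2 * π))⁻¹)]
  refine (mul_le_of_le_one_left (abs_nonneg _) cgau_sqrt).trans ?_
  rw [← Real.norm_eq_abs]
  refine norm_integral_le_of_norm_le hi.abs (Filter.Eventually.of_forall fun η => ?_)
  rw [Real.norm_eq_abs, abs_mul, abs_mul]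
  exact mul_le_mul_of_nonneg_right (cgau_D_abs hs hδ η).1 (abs_nonneg _)

theorem pg_asym {G : ℝ → ℝ} (hm : Measurable G) (ho : ∀ x, G (-x) = -G x) {M : ℝ}
    (hb : ∀ x, |G x| ≤ M) (hi : Integrable fun x => x * G x) {ζ : ℝ} (hζ : 0 < ζ) :
    ∃ θ : ℝ, 0 < θ ∧ ∀ s δ : ℝ, θ⁻¹ ≤ s → 0 < δ → δ ≤ 1 →
      |s ^ (3 / 2 : ℝ) / δ * Pg s G δ - (√(2 * π))⁻¹ * ∫ x, x * G x| ≤ ζ := by
  let F : ℕ → ℝ → ℝ := fun n η => |η * G η| * (1 - exp (-(η ^ 2 + 1) / 2 * (1 / ((n : ℝ) + 1))))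
  have hF0 : ∀ (n : ℕ) (η : ℝ), 0 ≤ 1 - exp (-(η ^ 2 + 1) / 2 * (1 / ((n : ℝ) + 1))) := fun n η =>
    sub_nonneg.2 (exp_le_one_iff.2 (mul_nonpos_of_nonpos_of_nonneg
      (by linarith only [sq_nonneg η, sq_nonneg η]) (by positivity)))
  have hFm : ∀ n, AEStronglyMeasurable (F n) volume := fun n =>
    (by fun_prop : Measurable (F n)).aestronglyMeasurable
  have hFb : ∀ n, ∀ᵐ η, ‖F n η‖ ≤ |η * G η| := fun n => Filter.Eventually.of_forall fun η => by
    rw [Real.norm_of_nonneg (mul_nonneg (abs_nonneg _) (hF0 n η))]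
    exact mul_le_of_le_one_right (abs_nonneg _) (by linarith only [exp_pos (-(η ^ 2 + 1) / 2 * (1 / ((n : ℝ) + 1)))])
  have hlim := tendsto_integral_of_dominated_convergence (F := F) (f := fun _ => (0 : ℝ)) _ hFm hi.abs
    hFb (Filter.Eventually.of_forall fun η => by
      have h1 := ((continuous_exp.tendsto _).comp
        (tendsto_one_div_add_atTop_nhds_zero_nat.const_mul (-(η ^ 2 + 1) / 2))).const_sub 1
      simpa [F] using h1.const_mul |η * G η|)
  rw [integral_zero] at hlim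
  obtain ⟨n, hn⟩ := (hlim.eventually (ge_mem_nhds hζ)).exists
  refine ⟨1 / ((n : ℝ) + 1), by positivity, fun s δ hs hδ hδ1 => ?_⟩
  rw [one_div, inv_inv] at hs
  have hs0 : 0 < s := lt_of_lt_of_le (by positivity) hs
  have hD : Integrable fun η => cgau_D s δ η * G η := by
    refine hi.abs.mono' (Measurable.mul (by unfold cgau_D; fun_prop) hm).aestronglyMeasurable
      (Filter.Eventually.of_forall fun η => ?_)
    rw [Real.norm_eq_abs, abs_mul, abs_mul]
    exact mul_le_mul_of_nonneg_right (cgau_D_abs hs0 hδ η).1 (abs_nonneg _)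
  rw [cgau_repr hm ho hb hs0 hδ, ← mul_sub, ← integral_sub hD hi, abs_mul,
    abs_of_nonneg (by positivity : 0 ≤ (√(2 * π))⁻¹)]
  refine (mul_le_of_le_one_left (abs_nonneg _) cgau_sqrt).trans (le_trans ?_ hn)
  rw [← Real.norm_eq_abs]
  refine norm_integral_le_of_norm_le (hi.abs.mono' (hFm n) (hFb n))
    (Filter.Eventually.of_forall fun η => ?_)
  have h1 : exp (-(η ^ 2 + 1) / 2 * (1 / ((n : ℝ) + 1))) ≤ exp (-(η ^ 2 + δ ^ 2) / (2 * s)) := by
    refine exp_le_exp.2 ?_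
    have h2 : (η ^ 2 + δ ^ 2) / (2 * s) ≤ (η ^ 2 + 1) / (2 * ((n : ℝ) + 1)) := by
      gcongr
      linarith only [hδ1, hδ, mul_nonneg_of_nonpos_of_nonpos (le_of_lt (Mathlib.Tactic.Linarith.sub_neg_of_lt hδ)) (Mathlib.Tactic.Linarith.sub_nonpos_of_le hδ1)]
    calc -(η ^ 2 + 1) / 2 * (1 / ((n : ℝ) + 1)) = -((η ^ 2 + 1) / (2 * ((n : ℝ) + 1))) := by
          field_simp
      _ ≤ _ := by rw [neg_div]; linarith only [h2]
  rw [Real.norm_eq_abs, ← sub_mul, abs_mul]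
  calc |cgau_D s δ η - η| * |G η| ≤ |η| * (1 - exp (-(η ^ 2 + δ ^ 2) / (2 * s))) * |G η| :=
        mul_le_mul_of_nonneg_right (cgau_D_abs hs0 hδ η).2 (abs_nonneg _)
    _ ≤ |η| * (1 - exp (-(η ^ 2 + 1) / 2 * (1 / ((n : ℝ) + 1)))) * |G η| := by gcongr
    _ = F n η := by simp only [F]; rw [abs_mul]; ring

theorem wb_integrable {G : ℝ → ℝ} (hm : Measurable G) {M : ℝ} (h : Wb M G) :
    Integrable fun x => x * G x := by
  have hM := cgau_wb_nonneg h
  refine (integrable_inv_one_add_sq.const_mul (12 * M)).mono' (measurable_id.mul hm).aestronglyMeasurable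
    (Filter.Eventually.of_forall fun x => ?_)
  have h1 : |x| * (1 + x ^ 2) ≤ 12 * cosh x := by
    have h2 := Real.sum_le_exp_of_nonneg (abs_nonneg x) 4
    simp only [Finset.sum_range_succ, Finset.range_zero, Finset.sum_empty, Nat.factorial] at h2
    rw [← cosh_abs, cosh_eq, ← sq_abs x]
    norm_num at h2
    linarith only [h2, exp_pos (-|x|), abs_nonneg x, sq_nonneg x, sq_abs x, sq_nonneg x]
  have h3 := cosh_pos x
  rw [Real.norm_eq_abs, abs_mul]
  calc |x| * |G x| ≤ |x| * (M / cosh x) := mul_le_mul_of_nonneg_left (h x) (abs_nonneg x)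
    _ ≤ 12 * M * (1 + x ^ 2)⁻¹ := by
      rw [← div_eq_mul_inv, ← mul_div_assoc, div_le_div_iff₀ h3 (by positivity)]
      linarith only [h1, hM, mul_le_mul_of_nonneg_left h1 hM]

/-- gluing at the origin -/
noncomputable def cgau_gl (u v : ℝ → ℝ) (x : ℝ) : ℝ := if 0 ≤ x then u x else v x

theorem cgau_gl_deriv {u v u' v' : ℝ → ℝ} (hu : ∀ x, HasDerivAt u (u' x) x)
    (hv : ∀ x, HasDerivAt v (v' x) x) (h0 : u 0 = v 0) (h1 : u' 0 = v' 0) (x : ℝ) :
    HasDerivAt (cgau_gl u v) (cgau_gl u' v' x) x := by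
  rcases lt_trichotomy x 0 with h | rfl | h
  · rw [cgau_gl, if_neg h.not_ge]
    exact (hv x).congr_of_eventuallyEq ((gt_mem_nhds h).mono fun y hy => if_neg hy.not_ge)
  · rw [cgau_gl, if_pos le_rfl]
    have a1 : HasDerivWithinAt (cgau_gl u v) (u' 0) (Set.Ici 0) 0 :=
      (hu 0).hasDerivWithinAt.congr (fun y hy => if_pos hy) (if_pos le_rfl)
    have a2 : HasDerivWithinAt (cgau_gl u v) (u' 0) (Set.Iic 0) 0 := by
      rw [h1]
      refine (hv 0).hasDerivWithinAt.congr (fun y hy => ?_) ((if_pos le_rfl).trans h0)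
      rcases (show y ≤ 0 from hy).eq_or_lt with rfl | hy
      · exact (if_pos le_rfl).trans h0
      · exact if_neg hy.not_ge
    have a3 := a2.union a1
    rwa [Set.Iic_union_Ici, hasDerivWithinAt_univ] at a3
  · rw [cgau_gl, if_pos h.le]
    exact (hu x).congr_of_eventuallyEq ((lt_mem_nhds h).mono fun y hy => if_pos hy.le)

theorem cgau_gl_wb {u v : ℝ → ℝ} {B : ℝ} (hu : ∀ x, 0 ≤ x → |u x| ≤ B * exp (-x))
    (hv : ∀ x, |v x| = |u (-x)|) : Wb B (cgau_gl u v) := by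
  have hB : 0 ≤ B := by simpa using (abs_nonneg _).trans (hu 0 le_rfl)
  have key : ∀ x, 0 ≤ x → |u x| ≤ B / cosh x := fun x hx => (hu x hx).trans (by
    have := cgau_cosh_le 0 x
    rw [zero_add, cosh_zero, one_mul, abs_of_nonneg hx] at this
    rw [exp_neg, ← div_eq_mul_inv]
    exact div_le_div_of_nonneg_left hB (cosh_pos x) this)
  intro x
  unfold cgau_gl
  split_ifs with h
  · exact key x h
  · rw [hv, ← cosh_neg]
    exact key _ (by linarith)

theorem cgau_scale {g g' : ℝ → ℝ} (h : ∀ x, HasDerivAt g (g' x) x) (c l x : ℝ) :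
    HasDerivAt (fun x => c * g (l * x)) (c * l * g' (l * x)) x :=
  (((h _).comp x ((hasDerivAt_id' x).const_mul l)).const_mul c).congr_deriv (by ring)

theorem exists_phi_odd {l : ℝ} (hl : 0 < l) : ∃ (Ψ Ψ1 Ψ2 Ψ3 : ℝ → ℝ) (M : ℝ),
    Odd3 Ψ Ψ1 Ψ2 Ψ3 ∧ Wb M Ψ ∧ Wb M Ψ1 ∧ Wb M Ψ2 ∧ Wb M Ψ3 ∧ ∀ x, 0 ≤ x → Ψ x = phi (l * x) := by
  have h := phi_spec
  have hκ := kap0_pos
  obtain ⟨C, hC⟩ := h.dec (1 / l + 1)
  have hC0 : 0 ≤ C := by simpa using (abs_nonneg _).trans (hC 0 le_rfl).1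
  set p2 : ℝ → ℝ := fun x => 2 * (x - kap0) * phi x with hp2
  set p3 : ℝ → ℝ := fun x => 2 * phi x + 2 * (x - kap0) * phi1 x with hp3
  have hd3 : ∀ x, HasDerivAt p2 (p3 x) x :=
    fun x => ((((hasDerivAt_id' x).sub_const kap0).const_mul 2).fun_mul (h.d1 x)).congr_deriv (by ring)
  set B := (4 + 2 * kap0) * C with hB
  have hb : ∀ x, 0 ≤ x → |phi (l * x)| ≤ B * exp (-x) ∧ |phi1 (l * x)| ≤ B * exp (-x) ∧
      |p2 (l * x)| ≤ B * exp (-x) ∧ |p3 (l * x)| ≤ B * exp (-x) := by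
    intro x hx
    set y := l * x with hy
    have hy0 : 0 ≤ y := by positivity
    obtain ⟨h1, h2⟩ := hC y hy0
    have e : exp (-((1 / l + 1) * y)) = exp (-y) * exp (-x) := by
      rw [← exp_add]; congr 1; rw [hy]; field_simp; ring
    rw [e, ← mul_assoc, mul_right_comm] at h1 h2
    set E := C * exp (-x) with hE
    have hE0 : 0 ≤ E := by positivity
    have a0 : exp (-y) ≤ 1 := exp_le_one_iff.2 (by linarith only [hy0])
    have a1 : |y - kap0| * exp (-y) ≤ 1 + kap0 := by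
      have a2 : |y - kap0| ≤ (1 + kap0) * exp y := by
        have := add_one_le_exp y
        rw [abs_le]
        constructor <;> linarith only [hy0, this, hκ, mul_nonneg_of_nonpos_of_nonpos (le_of_lt (Mathlib.Tactic.Linarith.sub_neg_of_lt hκ)) (Mathlib.Tactic.Linarith.sub_nonpos_of_le hy0), mul_nonneg_of_nonpos_of_nonpos (le_of_lt (Mathlib.Tactic.Linarith.sub_neg_of_lt hκ)) (Mathlib.Tactic.Linarith.sub_nonpos_of_le this)]
      rw [exp_neg, ← div_eq_mul_inv, div_le_iff₀ (exp_pos y)]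
      exact a2
    have a3 : ∀ w : ℝ, |w| ≤ E * exp (-y) → |w| ≤ E ∧ |2 * (y - kap0) * w| ≤ 2 * (1 + kap0) * E := by
      intro w hw
      refine ⟨hw.trans (mul_le_of_le_one_right hE0 a0), ?_⟩
      rw [abs_mul, abs_mul, abs_two]
      calc 2 * |y - kap0| * |w| ≤ 2 * |y - kap0| * (E * exp (-y)) := by gcongr
        _ = 2 * (|y - kap0| * exp (-y)) * E := by ring
        _ ≤ _ := by gcongr
    have e2 : B * exp (-x) = (4 + 2 * kap0) * E := by rw [hB, hE]; ring
    have a4 : 0 ≤ kap0 * E := by positivity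
    obtain ⟨b1, b2⟩ := a3 _ h1
    obtain ⟨b3, b4⟩ := a3 _ h2
    have b5 : |p3 y| ≤ 2 * |phi y| + |2 * (y - kap0) * phi1 y| := by
      have := abs_add_le (2 * phi y) (2 * (y - kap0) * phi1 y)
      rwa [abs_mul 2, abs_two] at this
    rw [e2]
    exact ⟨by linarith only [hE0, a4, b1], by linarith only [hE0, a4, b3], b2.trans (by linarith only [hE0]), by linarith only [b1, b4, b5]⟩
  have hB0 : 0 ≤ B := by positivity
  have hw : ∀ (g : ℝ → ℝ) (c c' : ℝ), 0 ≤ c → c ≤ (1 + l) ^ 3 → |c'| = c →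
      (∀ x, 0 ≤ x → |g (l * x)| ≤ B * exp (-x)) →
      Wb ((1 + l) ^ 3 * B) (cgau_gl (fun x => c * g (l * x)) fun x => c' * g (-l * x)) := by
    intro g c c' h1 h2 h3 h4
    refine cgau_gl_wb (fun x hx => ?_) fun x => ?_
    · rw [abs_mul, abs_of_nonneg h1, mul_assoc]
      exact mul_le_mul h2 (h4 x hx) (abs_nonneg _) (by positivity)
    · rw [abs_mul, abs_mul, h3, abs_of_nonneg h1, neg_mul, mul_neg]
  have hl2 : 0 < l * l := by positivity
  have hl3 : 0 < l * l * l := by positivity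
  refine ⟨cgau_gl (fun x => 1 * phi (l * x)) fun x => -1 * phi (-l * x),
    cgau_gl (fun x => 1 * l * phi1 (l * x)) fun x => -1 * -l * phi1 (-l * x),
    cgau_gl (fun x => 1 * l * l * p2 (l * x)) fun x => -1 * -l * -l * p2 (-l * x),
    cgau_gl (fun x => 1 * l * l * l * p3 (l * x)) fun x => -1 * -l * -l * -l * p3 (-l * x),
    (1 + l) ^ 3 * B, ⟨fun x => ?_,
      cgau_gl_deriv (cgau_scale h.d1 _ _) (cgau_scale h.d1 _ _) (by simp [h.zero]) (by simp),
      cgau_gl_deriv (cgau_scale h.d2 _ _) (cgau_scale h.d2 _ _) (by simp) (by simp [hp2, h.zero]),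
      cgau_gl_deriv (cgau_scale hd3 _ _) (cgau_scale hd3 _ _) (by simp [hp2, h.zero]) (by simp)⟩,
    hw _ _ _ zero_le_one (by linarith only [hl, hl2, hl3]) (by simp) fun x hx => (hb x hx).1,
    hw _ _ _ (by positivity) (by linarith only [hl, hl2, hl3]) (by simp [abs_of_pos hl]) fun x hx => (hb x hx).2.1,
    hw _ _ _ (by positivity) (by linarith only [hl, hl2, hl3]) (by simp [abs_mul, abs_of_pos hl])
      fun x hx => (hb x hx).2.2.1,
    hw _ _ _ (by positivity) (by linarith only [hl, hl2]) (by simp [abs_mul, abs_of_pos hl])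
      fun x hx => (hb x hx).2.2.2,
    fun x hx => (if_pos hx).trans (one_mul _)⟩
  unfold cgau_gl
  rcases lt_trichotomy x 0 with h1 | rfl | h1
  · rw [if_pos (by linarith), if_neg h1.not_ge]
    simp
  · simp [h.zero]
  · rw [if_neg (by linarith), if_pos h1.le]
    simp

end Pool.Agent.Work.MP_5391ad_co
end

-- merged part: Pool.Agent.Work.MP_5391ad_co.CFree
section
/-! The free killed walk `Fr n f = Sol 1 0 f n`.
`fr_surv`: with `l = 2/√(i+1)`, `ψ = e^{-l} - 1 + l ≥ l^2/3` (for `l ≤ 1`; small `i` are trivial),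
prove by induction on `i`, for all `0 ≤ c ≤ 1` and `q`:
`(1 - c e^{-ψ i}) Fr i 1 q ≤ 1 - c e^{-l q}` (use `c' = c e^{-ψ}` and `pois_exp`); put `c = 1`.
`fr_odd`: `H i q = Pg (i δ^2) G (δ q)` vanishes at `q = 0`; by `pois_taylor`, `pg_taylor`, `pg_add`,
`|Tr 1 (H i) q - H (i+1) q| ≤ C M δ^3`; the errors propagate as `Fr j 1 1 ≤ C/√(j+1)`.
`fr_w`: `w x = x/(1 + x^2)^2` is odd with bounded derivatives, `x w x` is integrable; use `fr_odd`,
`pg_small`; also `w ≤ x` and `Fr n (fun q => q) = id` in the form `Fr n (min q Q) q ≤ q`, or use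
`|Pg s w δ| ≤ δ sup |w'|` for all `s ≥ 0`.
`fr_exp`: with `m = ⌈δ⁻²⌉`, after `m` steps the solution is at most
`C min (δ q) (e^{-δ q}) ≤ C' w (δ q)` (`fr_surv`, `Sol_exp`); then `fr_w` for the remaining steps.
`fr_loss`: telescope `Sol r - Fr = ∑_j Fr (n-j-1) (Tr (r j) - Tr 1) Sol r j`;
`|1 - e^{-ε k}| ≤ ε k`, `|Sol r 0 f j k| ≤ M e^{j δ^2/2} e^{-δ k}`, `x e^{-x} ≤ C w x`, `fr_w`. Split
the sum at `j = n/2`; `δ^2 ∑_j e^{-j δ^2/2} ≤ 3`. -/

namespace Pool.Agent.Work.MP_5391ad_co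

open Real Finset

/-- the free walk -/
noncomputable def Fr (n : ℕ) (f : ℕ → ℝ) : ℕ → ℝ := Sol (fun _ => 1) 0 f n

theorem cfree_add (m n : ℕ) (f : ℕ → ℝ) : Fr (m + n) f = Fr n (Fr m f) := by
  unfold Fr
  rw [Sol_add]
  exact Sol_congr fun _ _ => rfl

theorem cfree_succ (n : ℕ) (f : ℕ → ℝ) : Fr (n + 1) f = Fr n (Tr 1 f) := by
  rw [add_comm, cfree_add]
  rfl

theorem cfree_bdd {f : ℕ → ℝ} (hf : Bdd f) (n : ℕ) : Bdd (Fr n f) :=
  hf.imp fun _ h => Sol_bdd (fun _ _ => ⟨zero_le_one, le_rfl⟩) h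

theorem cfree_const (a : ℝ) : Bdd fun _ => a := ⟨|a|, fun _ => le_rfl⟩

theorem cfree_mul {f : ℕ → ℝ} (hf : Bdd f) (a : ℝ) : Bdd fun k => a * f k := by
  obtain ⟨B, h⟩ := hf
  exact ⟨|a| * B, fun q => by
    rw [abs_mul]; exact mul_le_mul_of_nonneg_left (h q) (abs_nonneg _)⟩

theorem cfree_lin {f g : ℕ → ℝ} (hf : Bdd f) (hg : Bdd g) (a b : ℝ) (n q : ℕ) :
    Fr n (fun k => a * f k + b * g k) q = a * Fr n f q + b * Fr n g q :=
  Sol_lin (fun _ _ => ⟨zero_le_one, le_rfl⟩) hf hg a b q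

theorem cfree_smul {f : ℕ → ℝ} (hf : Bdd f) (a : ℝ) (n q : ℕ) :
    Fr n (fun k => a * f k) q = a * Fr n f q := by
  simpa using cfree_lin hf hf a 0 n q

theorem cfree_le {f g : ℕ → ℝ} (hf : Bdd f) (hg : Bdd g) (h : ∀ q, f q ≤ g q) (n q : ℕ) :
    Fr n f q ≤ Fr n g q :=
  Sol_le (fun _ _ => ⟨zero_le_one, le_rfl⟩) hf hg h q

theorem cfree_sub {f g e : ℕ → ℝ} (hf : Bdd f) (hg : Bdd g) (he : Bdd e)
    (h : ∀ q, |f q - g q| ≤ e q) (n q : ℕ) : |Fr n f q - Fr n g q| ≤ Fr n e q := by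
  have h1 := cfree_lin hf hg 1 (-1) n q
  have h2 : ∀ k, |1 * f k + -1 * g k| ≤ e k := fun k => by
    rw [one_mul, neg_one_mul, ← sub_eq_add_neg]; exact h k
  have h3 : |Fr n (fun k => 1 * f k + -1 * g k) q| ≤ Fr n e q := by
    refine Sol_mono (fun _ _ => ⟨zero_le_one, le_rfl, le_rfl⟩) ?_ he h2 q
    obtain ⟨B, hB⟩ := he
    exact ⟨B, fun k => (h2 k).trans ((le_abs_self _).trans (hB k))⟩
  rwa [h1, one_mul, neg_one_mul, ← sub_eq_add_neg] at h3

theorem cfree_duh (n : ℕ) : ∀ (A e : ℕ → ℕ → ℝ), (∀ j ≤ n, Bdd (A j)) → (∀ j < n, Bdd (e j)) →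
    (∀ j < n, ∀ q, |A (j + 1) q - Tr 1 (A j) q| ≤ e j q) → ∀ q,
    |A n q - Fr n (A 0) q| ≤ ∑ j ∈ range n, Fr (n - 1 - j) (e j) q := by
  induction n with
  | zero => intro A e _ _ _ q; simp [Fr, Sol]
  | succ n ih =>
    intro A e h1 h2 h3 q
    have a1 := ih (fun j => A (j + 1)) (fun j => e (j + 1)) (fun j hj => h1 _ (by omega))
      (fun j hj => h2 _ (by omega)) (fun j hj => h3 _ (by omega)) q
    have a2 := cfree_sub (h1 1 (by omega)) (cfree_bdd (h1 0 (by omega)) 1) (h2 0 (by omega))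
      (h3 0 (by omega)) n q
    rw [sum_range_succ', cfree_succ]
    have e1 : ∑ j ∈ range n, Fr (n + 1 - 1 - (j + 1)) (e (j + 1)) q =
        ∑ j ∈ range n, Fr (n - 1 - j) (e (j + 1)) q :=
      sum_congr rfl fun j _ => by rw [show n + 1 - 1 - (j + 1) = n - 1 - j by omega]
    rw [e1]
    exact (abs_sub_le _ _ _).trans (add_le_add a1 a2)

theorem cfree_texp (l : ℝ) (q : ℕ) : Tr 1 (fun k => exp (-l * k)) (q + 1) =
    exp (-l * (q + 1)) * exp (exp (-l) - 1 + l) := by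
  have := pois_exp (-l) q
  rw [sub_neg_eq_add] at this
  rw [← this]
  simp only [Tr, one_pow, one_mul]

theorem cfree_bexp {l : ℝ} (hl : 0 ≤ l) : Bdd fun k => exp (-l * k) :=
  ⟨1, fun k => by
    rw [abs_of_pos (exp_pos _), exp_le_one_iff, neg_mul, neg_nonpos]
    positivity⟩

theorem cfree_mart {l : ℝ} (hl : 0 ≤ l) (i : ℕ) : ∀ c : ℝ, 0 ≤ c → c ≤ 1 → ∀ q : ℕ,
    (1 - c * exp (-(exp (-l) - 1 + l) * i)) * Fr i (fun _ => 1) q ≤ 1 - c * exp (-l * q) := by
  have hψ : 0 ≤ exp (-l) - 1 + l := by linarith [add_one_le_exp (-l)]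
  induction i with
  | zero =>
    intro c h0 h1 q
    have : exp (-l * q) ≤ 1 := by
      rw [exp_le_one_iff, neg_mul, neg_nonpos]
      positivity
    have := mul_le_mul_of_nonneg_left this h0
    simp only [Fr, Sol, Nat.cast_zero, mul_zero, exp_zero, mul_one] at this ⊢
    linarith
  | succ i ih =>
    intro c h0 h1 q
    rcases q with _ | q
    · simpa [Fr, Sol, Tr] using h1
    have hb := cfree_bdd (cfree_const 1) i
    have hc : c * exp (-(exp (-l) - 1 + l)) ≤ 1 :=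
      mul_le_one₀ h1 (exp_pos _).le (exp_le_one_iff.2 (by linarith))
    have a1 := ih _ (by positivity) hc
    have a2 := cfree_le (cfree_mul hb _) (g := fun k => 1 * exp (-0 * k) +
      -(c * exp (-(exp (-l) - 1 + l))) * exp (-l * k)) ⟨2, fun k => ?_⟩
      (fun k => (a1 k).trans (le_of_eq (by simp [sub_eq_add_neg]))) 1 (q + 1)
    · rw [cfree_smul hb, cfree_lin (cfree_bexp le_rfl) (cfree_bexp hl)] at a2
      have e1 : Fr 1 (fun k => exp (-0 * k)) (q + 1) = 1 := by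
        refine (cfree_texp 0 q).trans ?_
        simp
      have e2 : Fr 1 (fun k => exp (-l * k)) (q + 1) = _ := cfree_texp l q
      rw [e1, e2, ← cfree_add] at a2
      have e3 : exp (-(exp (-l) - 1 + l)) * exp (exp (-l) - 1 + l) = 1 := by
        rw [← exp_add, neg_add_cancel, exp_zero]
      have e4 : exp (-(exp (-l) - 1 + l) * ((i + 1 : ℕ) : ℝ)) =
          exp (-(exp (-l) - 1 + l)) * exp (-(exp (-l) - 1 + l) * i) := by
        rw [← exp_add]
        push_cast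
        ring_nf
      rw [e4, ← mul_assoc]
      refine a2.trans (le_of_eq ?_)
      push_cast
      linear_combination (-(c * exp (-l * (q + 1)))) * e3
    · have b1 : exp (-l * k) ≤ 1 := by
        rw [exp_le_one_iff, neg_mul, neg_nonpos]
        positivity
      have b2 : c * exp (-(exp (-l) - 1 + l)) * exp (-l * k) ≤ 1 :=
        mul_le_one₀ hc (exp_pos _).le b1
      have b3 : 0 ≤ c * exp (-(exp (-l) - 1 + l)) * exp (-l * k) := by positivity
      simp only [neg_zero, zero_mul, exp_zero, abs_le]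
      constructor <;> linarith only [b2, b3]

theorem fr_surv : ∃ C : ℝ, 0 ≤ C ∧ ∀ i q : ℕ, 1 ≤ i → Fr i (fun _ => 1) q ≤ C * q / √(i + 1) := by
    refine ⟨9, by norm_num, fun i q hi => ?_⟩
    have hi' : (1 : ℝ) ≤ i := by exact_mod_cast hi
    have hs : 1 ≤ √((i : ℝ) + 1) := by
      rw [one_le_sqrt]
      linarith only [hi']
    obtain ⟨l, hl⟩ : ∃ l : ℝ, l = (√((i : ℝ) + 1))⁻¹ := ⟨_, rfl⟩
    have l0 : 0 ≤ l := by rw [hl]; positivity
    have l1 : l ≤ 1 := by rw [hl]; exact inv_le_one_of_one_le₀ hs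
    have l2 : l ^ 2 * (i + 1) = 1 := by
      rw [hl, inv_pow, sq_sqrt (by positivity)]
      field_simp
    have h1 := cfree_mart l0 i 1 zero_le_one le_rfl q
    have h2 := aexp_psi_ge l0 l1
    have h3 : 1 / 8 ≤ (exp (-l) - 1 + l) * i := by
      have := mul_le_mul_of_nonneg_right h2 (by positivity : (0 : ℝ) ≤ i)
      linarith only [l2, this, hi', sq_nonneg l, mul_nonneg_of_nonpos_of_nonpos (Mathlib.Tactic.Linarith.sub_nonpos_of_le (sq_nonneg l)) (Mathlib.Tactic.Linarith.sub_nonpos_of_le hi')]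
    have h4 : exp (-(exp (-l) - 1 + l) * i) ≤ 8 / 9 := by
      rw [neg_mul, exp_neg, inv_le_comm₀ (exp_pos _) (by norm_num)]
      linarith only [h3, add_one_le_exp ((exp (-l) - 1 + l) * i)]
    have h5 := add_one_le_exp (-l * q)
    have h6 : 0 ≤ Fr i (fun _ => 1) q := by
      have := cfree_sub (cfree_const 1) (cfree_const 1) (cfree_const 1) (fun _ => by simp) i q
      exact (abs_nonneg _).trans this
    rw [div_eq_mul_inv, ← hl]
    linarith only [h1, h5, h4, h6, mul_nonneg_of_nonpos_of_nonpos (Mathlib.Tactic.Linarith.sub_nonpos_of_le h4) (Mathlib.Tactic.Linarith.sub_nonpos_of_le h6)]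

theorem cfree_sqsum (n : ℕ) : ∑ j ∈ range n, (√((j : ℝ) + 1))⁻¹ ≤ 2 * √n := by
  induction n with
  | zero => simp
  | succ n ih =>
    rw [sum_range_succ]
    push_cast
    have h0 : 0 < √((n : ℝ) + 1) := by positivity
    have h1 := sq_sqrt (by positivity : (0 : ℝ) ≤ n + 1)
    have h2 := sq_sqrt (by positivity : (0 : ℝ) ≤ n)
    have : (√((n : ℝ) + 1))⁻¹ ≤ 2 * √((n : ℝ) + 1) - 2 * √n := by
      rw [inv_le_iff_one_le_mul₀ h0]
      linarith only [h1, h2, sq_nonneg (√((n : ℝ) + 1) - √n), sq_nonneg (√(↑n + (1 : ℝ)) - √↑n)]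
    linarith only [ih, this]

theorem cfree_zero {G G1 G2 G3 : ℝ → ℝ} (h : Odd3 G G1 G2 G3) : G 0 = 0 := by
  have := h.odd 0
  rw [neg_zero] at this
  linarith only [this]

theorem fr_odd : ∃ C : ℝ, 0 ≤ C ∧ ∀ (G G1 G2 G3 : ℝ → ℝ) (M δ : ℝ) (n : ℕ), Odd3 G G1 G2 G3 →
    (∀ x, |G x| ≤ M ∧ |G1 x| ≤ M ∧ |G2 x| ≤ M ∧ |G3 x| ≤ M) → 0 < δ → δ ≤ 1 →
    |Fr n (fun q => G (δ * q)) 1 - Pg (n * δ ^ 2) G δ| ≤ C * M * δ ^ 3 * √n := by
    obtain ⟨C0, hC0, h0⟩ := fr_surv
    obtain ⟨C1, h1⟩ := pois_taylor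
    obtain ⟨C2, hC2, h2⟩ := pg_taylor
    refine ⟨(|C1| + C2) * (C0 + 1) * 2, by positivity, fun G G1 G2 G3 M δ n hG hb hδ hδ1 => ?_⟩
    have hM : 0 ≤ M := (abs_nonneg _).trans (hb 0).1
    have hm : Measurable G :=
      (continuous_iff_continuousAt.2 fun x => (hG.d1 x).continuousAt).measurable
    have key := cfree_duh n (fun i q => Pg (i * δ ^ 2) G (δ * q))
      (fun _ _ => (|C1| + C2) * M * δ ^ 3 * 1)
      (fun j _ => ⟨M, fun q => pg_bdd (fun x => (hb x).1) _⟩) (fun _ _ => cfree_const _) ?_ 1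
    · simp only [Nat.cast_zero, zero_mul, pg_zero, Nat.cast_one, mul_one δ] at key
      rw [abs_sub_comm]
      refine key.trans ?_
      have h3 : ∀ j ∈ range n, Fr (n - 1 - j) (fun _ => (|C1| + C2) * M * δ ^ 3 * 1) 1 ≤
          (|C1| + C2) * M * δ ^ 3 * (C0 + 1) * (√(((n - 1 - j : ℕ) : ℝ) + 1))⁻¹ := by
        intro j _
        rw [cfree_smul (cfree_const 1), mul_assoc _ (C0 + 1)]
        refine mul_le_mul_of_nonneg_left ?_ (by positivity)
        generalize n - 1 - j = m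
        rcases Nat.eq_zero_or_pos m with rfl | hm
        · simp [Fr, Sol, hC0]
        · refine (h0 m 1 hm).trans ?_
          rw [Nat.cast_one, mul_one, div_eq_mul_inv]
          exact mul_le_mul_of_nonneg_right (by linarith only []) (by positivity)
      refine (sum_le_sum h3).trans ?_
      rw [← mul_sum, sum_range_reflect (fun j : ℕ => (√((j : ℝ) + 1))⁻¹) n]
      refine (mul_le_mul_of_nonneg_left (cfree_sqsum n) (by positivity)).trans (le_of_eq ?_)
      ring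
    · intro j _ q
      have hO : ∀ s, Odd3 (Pg s G) (Pg s G1) (Pg s G2) (Pg s G3) := fun s => pg_odd3 hG hb
      rcases q with _ | q
      · simp only [Nat.cast_zero, mul_zero, cfree_zero (hO _), Tr, sub_zero, abs_zero]
        positivity
      have a0 : ∀ x, |Pg (j * δ ^ 2) G x| ≤ M := pg_bdd fun x => (hb x).1
      have a3 : ∀ x, |Pg (j * δ ^ 2) G3 x| ≤ M := pg_bdd fun x => (hb x).2.2.2
      have a1 := h1 _ _ _ _ M δ hδ (hO (j * δ ^ 2)).d1 (hO _).d2 (hO _).d3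
        (fun x _ => ⟨a0 x, a3 x⟩) q
      have a2 := (h2 _ _ _ _ M (δ ^ 2) (by positivity) (pow_le_one₀ hδ.le hδ1)
        (hO (j * δ ^ 2)).d1 (hO _).d2 (hO _).d3 a0).1 a3 (δ * (q + 1))
      rw [pg_add (by positivity) (by positivity) hm (fun x => (hb x).1), sqrt_sq hδ.le] at a2
      have a4 : C1 * M * δ ^ 3 ≤ |C1| * M * δ ^ 3 := by
        gcongr
        exact le_abs_self _
      simp only [Tr, one_pow, one_mul]
      push_cast
      rw [show ((j : ℝ) + 1) * δ ^ 2 = δ ^ 2 + j * δ ^ 2 by ring]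
      rw [abs_le] at a1 a2 ⊢
      constructor <;> linarith only [a1, a2, a4, a1.1, a1.2, a2.1, a2.2]

theorem cfree_w3 : Odd3 (fun x => x / (1 + x ^ 2) ^ 2) (fun x => (1 - 3 * x ^ 2) / (1 + x ^ 2) ^ 3)
    (fun x => (12 * x ^ 3 - 12 * x) / (1 + x ^ 2) ^ 4)
    (fun x => (-60 * x ^ 4 + 120 * x ^ 2 - 12) / (1 + x ^ 2) ^ 5) := by
  have hu : ∀ (x : ℝ) (k : ℕ), HasDerivAt (fun x : ℝ => (1 + x ^ 2) ^ (k + 1))
      ((k + 1) * (1 + x ^ 2) ^ k * (2 * x)) x := fun x k =>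
    ((((hasDerivAt_id' x).fun_pow 2).const_add 1).fun_pow (k + 1)).congr_deriv (by
      push_cast
      simp)
  have h0 : ∀ x : ℝ, 1 + x ^ 2 ≠ 0 := fun x => by positivity
  refine ⟨fun x => by rw [neg_sq, neg_div], fun x => ?_, fun x => ?_, fun x => ?_⟩
  · refine ((hasDerivAt_id' x).fun_div (hu x 1) (pow_ne_zero _ (h0 x))).congr_deriv ?_
    have := h0 x
    field_simp
    ring
  · refine (((((hasDerivAt_id' x).fun_pow 2).const_mul 3).const_sub 1).fun_div (hu x 2)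
      (pow_ne_zero _ (h0 x))).congr_deriv ?_
    have := h0 x
    field_simp
    push_cast
    ring
  · refine (((((hasDerivAt_id' x).fun_pow 3).const_mul 12).fun_sub
      ((hasDerivAt_id' x).const_mul 12)).fun_div (hu x 3) (pow_ne_zero _ (h0 x))).congr_deriv ?_
    have := h0 x
    field_simp
    push_cast
    ring

theorem cfree_div {a x : ℝ} {j k : ℕ} (hjk : j ≤ k) (h : |a| ≤ 120 * (1 + x ^ 2) ^ j) :
    |a / (1 + x ^ 2) ^ k| ≤ 120 := by
  rw [abs_div, abs_of_pos (by positivity : 0 < (1 + x ^ 2) ^ k), div_le_iff₀ (by positivity)]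
  refine h.trans (mul_le_mul_of_nonneg_left (pow_le_pow_right₀ ?_ hjk) (by norm_num))
  linarith only [sq_nonneg x]

theorem cfree_wb (x : ℝ) : |x / (1 + x ^ 2) ^ 2| ≤ 120 ∧ |(1 - 3 * x ^ 2) / (1 + x ^ 2) ^ 3| ≤ 120 ∧
    |(12 * x ^ 3 - 12 * x) / (1 + x ^ 2) ^ 4| ≤ 120 ∧
    |(-60 * x ^ 4 + 120 * x ^ 2 - 12) / (1 + x ^ 2) ^ 5| ≤ 120 := by
  have h2 := sq_nonneg x
  have h4 : 0 ≤ x ^ 4 := by positivity
  refine ⟨cfree_div (j := 1) (by norm_num) (abs_le.2 ⟨?_, ?_⟩),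
    cfree_div (j := 1) (by norm_num) (abs_le.2 ⟨?_, ?_⟩),
    cfree_div (j := 2) (by norm_num) (abs_le.2 ⟨?_, ?_⟩),
    cfree_div (j := 2) (by norm_num) (abs_le.2 ⟨?_, ?_⟩)⟩
  · linarith only [sq_nonneg (x + 1), sq_nonneg (x + (1 : ℝ)), sq_nonneg x]
  · linarith only [sq_nonneg (x - 1), sq_nonneg (x - (1 : ℝ)), sq_nonneg x]
  · nlinarith
  · nlinarith
  · linarith only [h4, sq_nonneg (x ^ 2 + x), sq_nonneg (x - 1), sq_nonneg (x - (1 : ℝ)), sq_nonneg x, sq_nonneg (x ^ (2 : ℕ) + x)]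
  · linarith only [h4, sq_nonneg (x ^ 2 - x), sq_nonneg (x + 1), sq_nonneg (x + (1 : ℝ)), sq_nonneg x, sq_nonneg (x ^ (2 : ℕ) - x)]
  · linarith only [h4, sq_nonneg x]
  · linarith only [h4, sq_nonneg x]

theorem cfree_rp {a b : ℝ} (ha : 0 ≤ a) (hb : 0 ≤ b) (h : a ≤ 4 * b) :
    a ^ (3 / 2 : ℝ) ≤ 8 * b ^ (3 / 2 : ℝ) := by
  refine (rpow_le_rpow ha h (by norm_num)).trans (le_of_eq ?_)
  rw [mul_rpow (by norm_num) hb, show (4 : ℝ) = 2 ^ (2 : ℝ) by norm_num,
    ← rpow_mul (by norm_num)]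
  norm_num

theorem fr_w : ∃ C : ℝ, 0 ≤ C ∧ ∀ (δ : ℝ) (n : ℕ), 0 < δ → δ ≤ 1 →
    Fr n (fun q => δ * q / (1 + (δ * q) ^ 2) ^ 2) 1 ≤
      C * δ / (1 + n * δ ^ 2) ^ (3 / 2 : ℝ) + C * δ ^ 3 * √n := by
    obtain ⟨C0, hC0, h0⟩ := fr_odd
    obtain ⟨I, hI⟩ : ∃ I : ℝ, I = ∫ x : ℝ, |x * (x / (1 + x ^ 2) ^ 2)| := ⟨_, rfl⟩
    have hI0 : 0 ≤ I := hI ▸ MeasureTheory.integral_nonneg fun x => abs_nonneg _
    have hc : Continuous fun x : ℝ => x / (1 + x ^ 2) ^ 2 :=
      continuous_iff_continuousAt.2 fun x => (cfree_w3.d1 x).continuousAt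
    have hi : MeasureTheory.Integrable fun x : ℝ => x * (x / (1 + x ^ 2) ^ 2) := by
      refine integrable_inv_one_add_sq.mono' (continuous_id.mul hc).aestronglyMeasurable
        (Filter.Eventually.of_forall fun x => ?_)
      have h1 : 0 < 1 + x ^ 2 := by positivity
      rw [← mul_div_assoc, ← sq, norm_of_nonneg (by positivity), div_le_iff₀ (by positivity), sq (1 + _),
        ← mul_assoc, inv_mul_cancel₀ h1.ne']
      linarith only []
    refine ⟨C0 * 120 + 8 * I + 960, by positivity, fun δ n hδ hδ1 => ?_⟩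
    have h1 := (abs_le.1 (h0 _ _ _ _ 120 δ n cfree_w3 cfree_wb hδ hδ1)).2
    have hs : 0 ≤ n * δ ^ 2 := by positivity
    generalize n * δ ^ 2 = s at h1 hs ⊢
    have h2 : |Pg s (fun x => x / (1 + x ^ 2) ^ 2) δ| * (1 + s) ^ (3 / 2 : ℝ) ≤ (8 * I + 960) * δ := by
      rcases le_total s 1 with h | h
      · have hO := pg_odd3 (s := s) cfree_w3 cfree_wb
        have a1 := aexp_mvt (x := 0) (y := δ) hO.d1
          (fun t _ => pg_bdd (fun x => (cfree_wb x).2.1) t) δ Set.right_mem_uIcc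
        rw [cfree_zero hO, sub_zero, sub_zero, abs_of_pos hδ] at a1
        have a2 := cfree_rp (a := 1 + s) (b := 1) (by positivity) zero_le_one (by linarith only [h])
        rw [one_rpow] at a2
        have a3 := mul_le_mul a1 a2 (by positivity) (by positivity)
        have a4 : 0 ≤ I * δ := by positivity
        linarith only [a3, a4]
      · have a1 := pg_small hc.measurable cfree_w3.odd (fun x => (cfree_wb x).1) hi
          (s := s) (by linarith only [h]) hδ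
        rw [← hI, div_mul_eq_mul_div, div_le_iff₀ hδ] at a1
        have a2 := cfree_rp (a := 1 + s) (b := s) (by positivity) hs (by linarith only [h])
        have a3 := mul_le_mul_of_nonneg_left a2 (abs_nonneg (Pg s (fun x => x / (1 + x ^ 2) ^ 2) δ))
        linarith only [hδ, a1, a3]
    rw [← le_div_iff₀ (by positivity)] at h2
    have h3 : (8 * I + 960) * δ / (1 + s) ^ (3 / 2 : ℝ) ≤
        (C0 * 120 + 8 * I + 960) * δ / (1 + s) ^ (3 / 2 : ℝ) := by
      gcongr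
      have : 0 ≤ C0 * 120 := by positivity
      linarith only [hC0]
    have h4 : C0 * 120 * δ ^ 3 * √n ≤ (C0 * 120 + 8 * I + 960) * δ ^ 3 * √n := by
      gcongr
      linarith only [hI0]
    linarith only [h1, h2, h3, h4, le_abs_self (Pg s (fun x => x / (1 + x ^ 2) ^ 2) δ)]

theorem cfree_xe {x : ℝ} (hx : 0 ≤ x) : x * exp (-x) ≤ 24 * (x / (1 + x ^ 2) ^ 2) := by
  have h := Real.sum_le_exp_of_nonneg hx 5
  simp only [sum_range_succ, range_zero, sum_empty, Nat.factorial] at h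
  norm_num at h
  have h3 : 0 ≤ x ^ 3 := by positivity
  have h1 : (1 + x ^ 2) ^ 2 ≤ 24 * exp x := by linarith only [hx, h, h3, sq_nonneg x, sq_nonneg x]
  rw [exp_neg, ← mul_div_assoc, ← div_eq_mul_inv, div_le_div_iff₀ (exp_pos _) (by positivity)]
  linarith only [h1, hx, mul_le_mul_of_nonneg_left h1 hx]

theorem cfree_bw (δ : ℝ) : Bdd fun q => δ * q / (1 + (δ * q) ^ 2) ^ 2 :=
  ⟨120, fun q => (cfree_wb _).1⟩

theorem cfree_be {δ : ℝ} (hδ : 0 ≤ δ) : Bdd fun q => exp (-(δ * q)) := by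
  simpa only [neg_mul] using cfree_bexp hδ

theorem fr_exp : ∃ C : ℝ, 0 ≤ C ∧ ∀ (δ : ℝ) (n : ℕ), 0 < δ → δ ≤ 1 → 4 ≤ n * δ ^ 2 →
    Fr n (fun q => exp (-(δ * q))) 1 ≤
      C * δ / (n * δ ^ 2) ^ (3 / 2 : ℝ) + C * δ ^ 3 * √n := by
    obtain ⟨C0, hC0, h0⟩ := fr_surv
    obtain ⟨C1, hC1, h1⟩ := fr_w
    refine ⟨(4 * C0 + 72) * C1 * 8, by positivity, fun δ n hδ hδ1 hn => ?_⟩
    have hd2 : 0 < δ ^ 2 := by positivity
    have hd3 : δ ^ 2 ≤ 1 := pow_le_one₀ hδ.le hδ1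
    obtain ⟨m, m1, m2⟩ : ∃ m : ℕ, 1 ≤ m * δ ^ 2 ∧ m * δ ^ 2 ≤ 2 := by
      refine ⟨⌈(δ ^ 2)⁻¹⌉₊, ?_, ?_⟩
      · rw [← div_le_iff₀ hd2, one_div]
        exact Nat.le_ceil _
      · have := mul_le_mul_of_nonneg_right (Nat.ceil_lt_add_one (inv_pos.2 hd2).le).le hd2.le
        rw [add_mul, inv_mul_cancel₀ hd2.ne'] at this
        linarith only [hd3, this]
    have hm : 1 ≤ m := by
      rcases Nat.eq_zero_or_pos m with rfl | h
      · norm_num at m1
      · exact h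
    obtain ⟨k, rfl⟩ : ∃ k, n = m + k := by
      refine Nat.exists_eq_add_of_le ?_
      have : (m : ℝ) ≤ n := le_of_mul_le_mul_right (by linarith only [hn, m2]) hd2
      exact_mod_cast this
    have hb := cfree_be hδ.le
    have a1 : ∀ q : ℕ, Fr m (fun q => exp (-(δ * q))) q ≤
        (4 * C0 + 72) * (δ * q / (1 + (δ * q) ^ 2) ^ 2) := by
      intro q
      have hx : 0 ≤ δ * q := by positivity
      have hw : 0 ≤ δ * q / (1 + (δ * q) ^ 2) ^ 2 := by positivity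
      rcases le_total (δ * q) 1 with h | h
      · have b1 := (cfree_le hb (cfree_const 1) (fun k => exp_le_one_iff.2
          (neg_nonpos.2 (by positivity))) m q).trans (h0 m q hm)
        have b2 : C0 * q / √(m + 1) ≤ C0 * (δ * q) := by
          rw [div_le_iff₀ (by positivity)]
          have : 1 ≤ δ * √(m + 1) := by
            rw [← sqrt_sq hδ.le, ← sqrt_mul hd2.le, one_le_sqrt]
            linarith only [hd2, m1]
          have := mul_le_mul_of_nonneg_left this (by positivity : 0 ≤ C0 * q)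
          linarith only [this]
        have b3 : δ * q ≤ 4 * (δ * q / (1 + (δ * q) ^ 2) ^ 2) := by
          rw [← mul_div_assoc, le_div_iff₀ (by positivity)]
          have c1 : (δ * q) ^ 2 ≤ 1 := pow_le_one₀ hx h
          have c2 : (1 + (δ * q) ^ 2) ^ 2 ≤ 2 ^ 2 := pow_le_pow_left₀ (by positivity) (by linarith only [c1]) 2
          linarith only [c2, hx, mul_le_mul_of_nonneg_left c2 hx]
        linarith only [hw, b1, b2, b3, hC0, mul_le_mul_of_nonneg_left b3 hC0]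
      · have b1 := (le_abs_self _).trans (Sol_exp (r := fun _ => 1) (n0 := 0) (i := m) (M := 1)
          (f := fun q => exp (-(δ * q))) hδ.le (fun _ _ => ⟨zero_le_one, le_rfl⟩)
          (fun k => by rw [abs_of_pos (exp_pos _), one_mul]) q)
        have b2 : exp (m * δ ^ 2 / 2) ≤ 3 :=
          (exp_le_exp.2 (by linarith only [m2])).trans (exp_one_lt_d9.le.trans (by norm_num))
        have b3 := cfree_xe hx
        have b4 := exp_pos (-(δ * q))
        have b5 := mul_le_mul_of_nonneg_right b2 b4.le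
        have b6 := mul_le_mul_of_nonneg_right h b4.le
        have b7 := mul_nonneg hC0 hw
        unfold Fr
        linarith only [b1, b3, b5, b6, b7]
    have a2 := cfree_le (cfree_bdd hb m) (cfree_mul (cfree_bw δ) _) a1 k 1
    rw [cfree_smul (cfree_bw δ), ← cfree_add] at a2
    refine a2.trans ((mul_le_mul_of_nonneg_left (h1 δ k hδ hδ1) (by positivity)).trans ?_)
    have a3 := cfree_rp (a := ((m + k : ℕ) : ℝ) * δ ^ 2) (b := 1 + k * δ ^ 2) (by positivity)
      (by positivity) (by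
        have : 0 ≤ k * δ ^ 2 := by positivity
        push_cast
        linarith only [m2, this])
    have a4 : C1 * δ / (1 + k * δ ^ 2) ^ (3 / 2 : ℝ) ≤
        C1 * 8 * δ / (((m + k : ℕ) : ℝ) * δ ^ 2) ^ (3 / 2 : ℝ) := by
      rw [div_le_div_iff₀ (by positivity) (rpow_pos_of_pos (by linarith only [hn]) _)]
      have := mul_le_mul_of_nonneg_left a3 (by positivity : 0 ≤ C1 * δ)
      linarith only [this]
    have a5 : C1 * δ ^ 3 * √k ≤ C1 * 8 * δ ^ 3 * √((m + k : ℕ) : ℝ) := by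
      gcongr
      · linarith only [hC1]
      · omega
    have := mul_le_mul_of_nonneg_left (add_le_add a4 a5) (by positivity : 0 ≤ 4 * C0 + 72)
    refine this.trans (le_of_eq ?_)
    ring

theorem cfree_geo {x : ℝ} (hx : 0 ≤ x) (n : ℕ) :
    x * ∑ j ∈ range n, exp (-(j * x)) ≤ (1 + x) * (1 - exp (-(n * x))) := by
  induction n with
  | zero => simp
  | succ n ih =>
    rw [sum_range_succ]
    have h1 : exp (-(((n + 1 : ℕ) : ℝ) * x)) = exp (-(n * x)) * exp (-x) := by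
      rw [← exp_add]
      push_cast
      ring_nf
    have h2 : (1 + x) * exp (-x) ≤ 1 := by
      rw [exp_neg, ← div_eq_mul_inv, div_le_one (exp_pos _)]
      linarith [add_one_le_exp x]
    have h3 := mul_le_mul_of_nonneg_left h2 (exp_pos (-(n * x))).le
    rw [h1]
    linarith

theorem cfree_key {t u : ℝ} (ht : 0 ≤ t) (hu : 0 ≤ u) (h : 0 < t + u) :
    exp (-(t / 4)) / (1 + u) ^ (3 / 2 : ℝ) ≤ 32 / (t + u) ^ (3 / 2 : ℝ) := by
  have h1 : (t + u) ^ (3 / 2 : ℝ) ≤ (1 + t) ^ (3 / 2 : ℝ) * (1 + u) ^ (3 / 2 : ℝ) := by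
    rw [← mul_rpow (by positivity) (by positivity)]
    exact rpow_le_rpow h.le (by linarith only [ht, hu, mul_nonneg ht hu]) (by norm_num)
  have h2 : (1 + t) ^ (3 / 2 : ℝ) ≤ (1 + t) ^ 2 := by
    rw [← rpow_two]
    exact rpow_le_rpow_of_exponent_le (by linarith only [ht]) (by norm_num)
  have h3 := quadratic_le_exp_of_nonneg (by positivity : 0 ≤ t / 4)
  have h4 : exp (-(t / 4)) * (1 + t) ^ (3 / 2 : ℝ) ≤ 32 := by
    rw [exp_neg, ← div_eq_inv_mul, div_le_iff₀ (exp_pos _)]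
    linarith only [ht, h2, h3]
  rw [div_le_div_iff₀ (by positivity) (rpow_pos_of_pos h _)]
  refine (mul_le_mul_of_nonneg_left h1 (exp_pos _).le).trans ?_
  rw [← mul_assoc]
  exact mul_le_mul_of_nonneg_right h4 (by positivity)

theorem cfree_tr (r : ℝ) (f : ℕ → ℝ) : Tr r f = Fr 1 fun k => r ^ k * f k := by
  funext q
  rcases q with _ | q
  · rfl
  · simp only [Fr, Sol, Tr, one_pow, one_mul]

theorem fr_loss : ∃ C : ℝ, 0 ≤ C ∧ ∀ (δ M e0 : ℝ) (n : ℕ) (ε f : ℕ → ℝ), 0 < δ → δ ≤ 1 →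
    4 ≤ n * δ ^ 2 → (∀ j < n, 0 ≤ ε j ∧ ε j ≤ e0 * δ ^ 3 * exp (-(j * δ ^ 2))) →
    (∀ q, |f q| ≤ M * exp (-(δ * q))) →
    |Sol (fun j => exp (-ε j)) 0 f n 1 - Fr n f 1| ≤
      C * e0 * M * (δ / (n * δ ^ 2) ^ (3 / 2 : ℝ) + δ ^ 3 * √n) := by
    obtain ⟨C1, hC1, h1⟩ := fr_w
    refine ⟨24 * 32 * 5 * C1, by positivity, fun δ M e0 n ε f hδ hδ1 hn hε hf => ?_⟩
    have hM : 0 ≤ M := by simpa using (abs_nonneg _).trans (hf 0)
    have hn0 : 0 < n := by
      rcases Nat.eq_zero_or_pos n with rfl | h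
      · norm_num at hn
      · exact h
    have he : 0 ≤ e0 := by
      have := (hε 0 hn0).1.trans (hε 0 hn0).2
      rw [mul_assoc] at this
      exact nonneg_of_mul_nonneg_left this (by positivity)
    have hr : ∀ i ≤ n, ∀ j < i, 0 ≤ exp (-ε (0 + j)) ∧ exp (-ε (0 + j)) ≤ 1 := fun i hi j hj =>
      ⟨(exp_pos _).le, exp_le_one_iff.2 (neg_nonpos.2 (hε _ (by omega)).1)⟩
    have hf' : ∀ q, |f q| ≤ M := fun q => (hf q).trans
      (mul_le_of_le_one_right hM (exp_le_one_iff.2 (neg_nonpos.2 (by positivity))))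
    have hA : ∀ j ≤ n, Bdd (Sol (fun j => exp (-ε j)) 0 f j) := fun j hj =>
      ⟨M, Sol_bdd (hr j hj) hf'⟩
    have key := cfree_duh n (Sol (fun j => exp (-ε j)) 0 f)
      (fun j => Fr 1 fun k => 24 * e0 * M * δ ^ 2 * exp (-(j * δ ^ 2 / 2)) *
        (δ * k / (1 + (δ * k) ^ 2) ^ 2)) hA
      (fun j _ => cfree_bdd (cfree_mul (cfree_bw δ) _) 1) ?_ 1
    · refine key.trans ?_
      have h3 : ∀ j ∈ range n, Fr (n - 1 - j) (Fr 1 fun k => 24 * e0 * M * δ ^ 2 *
          exp (-(j * δ ^ 2 / 2)) * (δ * k / (1 + (δ * k) ^ 2) ^ 2)) 1 ≤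
          (24 * 32 * C1 * e0 * M * (δ / (n * δ ^ 2) ^ (3 / 2 : ℝ) + δ ^ 3 * √n)) * δ ^ 2 *
            exp (-(j * (δ ^ 2 / 4))) := by
        intro j hj
        obtain ⟨k, rfl⟩ := Nat.exists_eq_add_of_le (mem_range.1 hj).le
        rw [← cfree_add, cfree_smul (cfree_bw δ),
          show 1 + (j + k - 1 - j) = k by have := mem_range.1 hj; omega]
        refine (mul_le_mul_of_nonneg_left (h1 δ k hδ hδ1) (by positivity)).trans ?_
        have a1 := cfree_key (t := j * δ ^ 2) (u := k * δ ^ 2) (by positivity) (by positivity)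
          (by push_cast at hn; linarith only [hn])
        have a2 : exp (-(j * δ ^ 2 / 4)) * √k ≤ 32 * √((j + k : ℕ) : ℝ) := by
          refine mul_le_mul ((exp_le_one_iff.2 (neg_nonpos.2 (by positivity))).trans (by norm_num))
            (sqrt_le_sqrt (by exact_mod_cast Nat.le_add_left k j)) (by positivity) (by norm_num)
        have a3 : exp (-(j * δ ^ 2 / 2)) = exp (-(j * δ ^ 2 / 4)) * exp (-(j * δ ^ 2 / 4)) := by
          rw [← exp_add]
          ring_nf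
        have a4 := add_le_add (mul_le_mul_of_nonneg_left a1 hδ.le)
          (mul_le_mul_of_nonneg_left a2 (by positivity : 0 ≤ δ ^ 3))
        have a5 := mul_le_mul_of_nonneg_left a4
          (by positivity : 0 ≤ 24 * e0 * M * δ ^ 2 * C1 * exp (-(j * δ ^ 2 / 4)))
        rw [a3, ← mul_div_assoc (j : ℝ)]
        rw [← add_mul, ← Nat.cast_add] at a5
        refine (le_of_eq ?_).trans (a5.trans (le_of_eq ?_)) <;> ring
      refine (sum_le_sum h3).trans ?_
      rw [← mul_sum, mul_assoc _ (δ ^ 2)]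
      have h4 := cfree_geo (x := δ ^ 2 / 4) (by positivity) n
      have h5 : δ ^ 2 ≤ 1 := pow_le_one₀ hδ.le hδ1
      have h6 := mul_pos (by positivity : 0 < 1 + δ ^ 2 / 4) (exp_pos (-(n * (δ ^ 2 / 4))))
      have h7 : δ ^ 2 * ∑ j ∈ range n, exp (-(j * (δ ^ 2 / 4))) ≤ 5 := by linarith only [h4, h5, h6]
      refine (mul_le_mul_of_nonneg_left h7 (by positivity)).trans (le_of_eq ?_)
      ring
    · intro j hj q
      obtain ⟨B, hB⟩ := hA j hj.le
      have hp : ∀ k : ℕ, exp (-ε (0 + j)) ^ k ≤ 1 := fun k =>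
        pow_le_one₀ (exp_pos _).le (hr n le_rfl j hj).2
      change |Tr (exp (-ε (0 + j))) _ q - Fr 1 _ q| ≤ _
      rw [cfree_tr]
      refine cfree_sub ⟨B, fun k => ?_⟩ (hA j hj.le) (cfree_mul (cfree_bw δ) _) (fun k => ?_) 1 q
      · rw [abs_mul, abs_of_nonneg (by positivity)]
        exact (mul_le_of_le_one_left (abs_nonneg _) (hp k)).trans (hB k)
      · have a1 := Sol_exp (r := fun j => exp (-ε j)) (n0 := 0) hδ.le (hr j hj.le) hf k
        have a2 : |exp (-ε (0 + j)) ^ k - 1| ≤ e0 * δ ^ 3 * exp (-(j * δ ^ 2)) * k := by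
          rw [abs_sub_comm, abs_of_nonneg (sub_nonneg.2 (hp k)), ← exp_nat_mul, zero_add]
          have := mul_le_mul_of_nonneg_right (hε j hj).2 (Nat.cast_nonneg (α := ℝ) k)
          linarith only [this, add_one_le_exp (k * -ε j)]
        rw [← sub_one_mul, abs_mul]
        refine (mul_le_mul a2 a1 (abs_nonneg _) (by positivity)).trans ?_
        have a3 : exp (-(j * δ ^ 2 / 2)) = exp (-(j * δ ^ 2)) * exp (j * δ ^ 2 / 2) := by
          rw [← exp_add]
          ring_nf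
        have a4 := mul_le_mul_of_nonneg_left (cfree_xe (x := δ * k) (by positivity))
          (by positivity : 0 ≤ e0 * M * δ ^ 2 * (exp (-(j * δ ^ 2)) * exp (j * δ ^ 2 / 2)))
        rw [a3]
        refine (le_of_eq ?_).trans (a4.trans (le_of_eq ?_)) <;> ring

/-- the error term `δ ^ 3 √T` is negligible -/
theorem StH0.small {ζ : ℝ} (hζ : 0 < ζ) : ∃ θ : ℝ, 0 < θ ∧ ∀ (c δ : ℝ) (T : ℕ) (ε : ℕ → ℝ),
    StH0 c θ δ T ε → (T * δ ^ 2) ^ (3 / 2 : ℝ) / δ * (δ ^ 3 * √T) ≤ ζ := by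
    refine ⟨ζ / 162, by positivity, fun c δ T ε h => ?_⟩
    have hδ := h.d0
    have h0 := h.t0
    have h1 := h.t1
    have hs : 0 < T * δ ^ 2 := lt_of_lt_of_le (by positivity) h0
    have e : (T * δ ^ 2) ^ (3 / 2 : ℝ) / δ * (δ ^ 3 * √T) = (T * δ ^ 2) ^ 2 * δ := by
      rw [show (3 / 2 : ℝ) = 1 + 1 / 2 by norm_num, rpow_add hs, rpow_one, ← sqrt_eq_rpow,
        sqrt_mul (Nat.cast_nonneg T), sqrt_sq hδ.le]
      have := sq_sqrt (Nat.cast_nonneg (α := ℝ) T)
      field_simp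
      rw [this, sq]
    rw [e]
    generalize T * δ ^ 2 = s at h0 h1 hs
    have h2 := Real.pow_div_factorial_le_exp (log δ⁻¹) (by linarith only [h1, hs]) 3
    rw [exp_log (by positivity), div_le_iff₀ (by positivity), ← div_eq_inv_mul, le_div_iff₀ hδ] at h2
    have h3 : s ^ 3 ≤ (3 * log δ⁻¹) ^ 3 := pow_le_pow_left₀ hs.le h1 3
    have h4 := mul_le_mul_of_nonneg_right h3 hδ.le
    have h5 : s ^ 2 * δ * s ≤ 162 := by
      norm_num [Nat.factorial] at h2 h4 ⊢
      linarith only [h2, h4]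
    rw [inv_div, div_le_iff₀ hζ] at h0
    exact le_of_mul_le_mul_right (by linarith only [h0, h2, h4]) hs

theorem StH0.mono {c θ θ' δ : ℝ} {T : ℕ} {ε : ℕ → ℝ} (h : StH0 c θ δ T ε) (hθ : θ ≤ θ') :
    StH0 c θ' δ T ε := by
    exact ⟨h.d0, h.d1.trans hθ, (inv_anti₀ (h.d0.trans_le h.d1) hθ).trans h.t0, h.t1, h.e0⟩

theorem start_upper : ∃ C θ : ℝ, 0 ≤ C ∧ 0 < θ ∧ ∀ (c δ M : ℝ) (T : ℕ) (ε f : ℕ → ℝ),
    StH0 c θ δ T ε → (∀ q, |f q| ≤ M * exp (-(δ * q))) → |stV δ T ε f| ≤ C * M := by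
    obtain ⟨C, hC, h1⟩ := fr_exp
    obtain ⟨θ, hθ, h2⟩ := StH0.small one_pos
    refine ⟨2 * C, min θ (1 / 4), by positivity, by positivity, fun c δ M T ε f h hf => ?_⟩
    have a1 := h2 _ _ _ _ (h.mono (min_le_left _ _))
    have h' := h.mono (min_le_right _ _)
    have hδ := h.d0
    have hs : 4 ≤ T * δ ^ 2 := by simpa using h'.t0
    have hM : 0 ≤ M := by simpa using (abs_nonneg _).trans (hf 0)
    have a2 := h1 δ T hδ (by linarith only [h', h'.d1]) hs
    have hb := cfree_mul (cfree_be hδ.le) M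
    have a3 : |Sol (fun i => exp (-ε i)) 0 f T 1| ≤ Fr T (fun q => M * exp (-(δ * q))) 1 := by
      refine Sol_mono (fun j hj => ⟨(exp_pos _).le,
        exp_le_one_iff.2 (neg_nonpos.2 (h.e0 _ (by omega)).1), le_rfl⟩) ?_ hb hf 1
      obtain ⟨B, hB⟩ := hb
      exact ⟨B, fun q => (hf q).trans ((le_abs_self _).trans (hB q))⟩
    rw [cfree_smul (cfree_be hδ.le)] at a3
    have hp : 0 < (T * δ ^ 2) ^ (3 / 2 : ℝ) := rpow_pos_of_pos (by linarith only [hs]) _
    rw [stV, abs_mul, abs_of_pos (div_pos hp hδ)]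
    refine (mul_le_mul_of_nonneg_left (a3.trans (mul_le_mul_of_nonneg_left a2 hM))
      (div_pos hp hδ).le).trans ?_
    have a4 := mul_le_mul_of_nonneg_left a1 (mul_nonneg hM hC)
    have e : (T * δ ^ 2) ^ (3 / 2 : ℝ) / δ * (C * δ / (T * δ ^ 2) ^ (3 / 2 : ℝ)) = C := by
      field_simp
    linear_combination a4 + M * e

end Pool.Agent.Work.MP_5391ad_co
end

-- merged part: Pool.Agent.Work.MP_5391ad_co.CPos
section
/-! Positivity in the start layer. By convexity of the exponential, for `0 ≤ t ≤ 1` and all `m`,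
`e^{t m} Sol (e^{-t ε}) ≤ t e^m Sol (e^{-ε}) + (1 - t) Fr` (induction on the number of steps, with
`m - ε k` in place of `m`). For small `t` the left side is close to `e^{t m} Fr` by `fr_loss`, and
`Fr` is bounded below by `fr_odd`, `pg_asym` for `G x = x * bump x`. -/

namespace Pool.Agent.Work.MP_5391ad_co

open Real Finset

theorem cpos_tr (r : ℝ) (f : ℕ → ℝ) : Tr r f = Tr 1 (fun k => r ^ k * f k) := by
  funext q
  cases q with
  | zero => rfl
  | succ q => simp [Tr]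

theorem cpos_bdd_mul {r : ℝ} {g : ℕ → ℝ} (h0 : 0 ≤ r) (h1 : r ≤ 1) (hg : Bdd g) :
    Bdd (fun k => r ^ k * g k) := by
  obtain ⟨B, hB⟩ := hg
  refine ⟨B, fun q => ?_⟩
  rw [abs_mul, abs_of_nonneg (pow_nonneg h0 q)]
  have h2 : r ^ q ≤ 1 := pow_le_one₀ h0 h1
  have h3 := abs_nonneg (g q)
  have h4 := hB q
  linarith only [h4, h2, h3, pow_nonneg h0 q, mul_nonneg_of_nonpos_of_nonpos (Mathlib.Tactic.Linarith.sub_nonpos_of_le h2) (Mathlib.Tactic.Linarith.sub_nonpos_of_le h3)]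

theorem cpos_bdd_lin {f g : ℕ → ℝ} (hf : Bdd f) (hg : Bdd g) (a b : ℝ) :
    Bdd (fun k => a * f k + b * g k) := by
  obtain ⟨B, hB⟩ := hf
  obtain ⟨B', hB'⟩ := hg
  refine ⟨|a| * B + |b| * B', fun q => ?_⟩
  refine (abs_add_le _ _).trans ?_
  rw [abs_mul, abs_mul]
  exact add_le_add (mul_le_mul_of_nonneg_left (hB q) (abs_nonneg _))
    (mul_le_mul_of_nonneg_left (hB' q) (abs_nonneg _))

theorem cpos_exp {t m : ℝ} (h0 : 0 ≤ t) (h1 : t ≤ 1) : exp (t * m) ≤ t * exp m + (1 - t) := by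
  have h := convexOn_exp.2 (Set.mem_univ m) (Set.mem_univ 0) h0 (sub_nonneg.2 h1) (by ring)
  simpa using h

theorem cpos_conv {t : ℝ} (h0 : 0 ≤ t) (h1 : t ≤ 1) {ε f : ℕ → ℝ} (hf : Bdd f)
    (hp : ∀ q, 0 ≤ f q) (i : ℕ) (hε : ∀ j < i, 0 ≤ ε j) (m : ℝ) (q : ℕ) :
    exp (t * m) * Sol (fun j => exp (-(t * ε j))) 0 f i q ≤
      t * exp m * Sol (fun j => exp (-ε j)) 0 f i q + (1 - t) * Fr i f q := by
  induction i generalizing m q with
  | zero =>
    have h := mul_le_mul_of_nonneg_right (cpos_exp (m := m) h0 h1) (hp q)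
    simp only [Sol, Fr]
    linarith only [h]
  | succ i ih =>
    have hε' : ∀ j < i, 0 ≤ ε j := fun j hj => hε j (by omega)
    have hi : 0 ≤ ε i := hε i (by omega)
    obtain ⟨B, hB⟩ := hf
    have e1 : ∀ x : ℝ, 0 ≤ x → 0 ≤ exp (-x) ∧ exp (-x) ≤ 1 := fun x hx =>
      ⟨(exp_pos _).le, exp_le_one_iff.2 (by linarith)⟩
    have b1 : Bdd (Sol (fun j => exp (-(t * ε j))) 0 f i) :=
      ⟨B, Sol_bdd (fun j hj => e1 _ (mul_nonneg h0 (hε' _ (by omega)))) hB⟩
    have b2 : Bdd (Sol (fun j => exp (-ε j)) 0 f i) :=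
      ⟨B, Sol_bdd (fun j hj => e1 _ (hε' _ (by omega))) hB⟩
    have b3 : Bdd (Fr i f) := ⟨B, Sol_bdd (fun j hj => ⟨zero_le_one, le_rfl⟩) hB⟩
    have c1 := cpos_bdd_mul (e1 _ (mul_nonneg h0 hi)).1 (e1 _ (mul_nonneg h0 hi)).2 b1
    have c2 := cpos_bdd_mul (e1 _ hi).1 (e1 _ hi).2 b2
    have s1 : Sol (fun j => exp (-(t * ε j))) 0 f (i + 1) =
        Tr 1 (fun k => exp (-(t * ε i)) ^ k * Sol (fun j => exp (-(t * ε j))) 0 f i k) := by
      rw [← cpos_tr]; simp [Sol]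
    have s2 : Sol (fun j => exp (-ε j)) 0 f (i + 1) =
        Tr 1 (fun k => exp (-ε i) ^ k * Sol (fun j => exp (-ε j)) 0 f i k) := by
      rw [← cpos_tr]; simp [Sol]
    have s3 : Fr (i + 1) f = Tr 1 (Fr i f) := rfl
    rw [s1, s2, s3, ← Tr_lin zero_le_one le_rfl c2 b3]
    have l1 := Tr_lin zero_le_one le_rfl c1 c1 (exp (t * m)) 0 q
    rw [zero_mul, add_zero] at l1
    rw [← l1]
    refine Tr_mono zero_le_one le_rfl (cpos_bdd_lin c1 c1 _ _) (cpos_bdd_lin c2 b3 _ _)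
      (fun k => ?_) q
    have h := ih hε' (m - k * ε i) k
    have r1 : exp (t * (m - k * ε i)) = exp (t * m) * exp (-(t * ε i)) ^ k := by
      rw [← exp_nat_mul, ← exp_add]; congr 1; ring
    have r2 : exp (m - k * ε i) = exp m * exp (-ε i) ^ k := by
      rw [← exp_nat_mul, ← exp_add]; congr 1; ring
    rw [r1, r2] at h
    linarith only [h]

theorem cpos_bump {l : ℝ} (hl : 0 < l) : ∃ (G G1 G2 G3 : ℝ → ℝ) (M : ℝ), 0 ≤ M ∧
    Odd3 G G1 G2 G3 ∧
    (∀ x, |G x| ≤ M ∧ |G1 x| ≤ M ∧ |G2 x| ≤ M ∧ |G3 x| ≤ M) ∧ Measurable G ∧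
    MeasureTheory.Integrable (fun x => x * G x) ∧ 0 < ∫ x, x * G x ∧
    (∀ x, 0 ≤ x → 0 ≤ G x ∧ G x ≤ x) ∧ ∀ x, l ≤ x → G x = 0 := by
  let b : ContDiffBump (0 : ℝ) := ⟨l / 2, l, by linarith only [hl], by linarith⟩
  set G : ℝ → ℝ := fun x => x * b x with hG
  have cG : ContDiff ℝ 4 G := contDiff_id.mul b.contDiff
  have c1 : ContDiff ℝ 3 (deriv G) := cG.deriv'
  have c2 : ContDiff ℝ 2 (deriv (deriv G)) := c1.deriv'
  have c3 : ContDiff ℝ 1 (deriv (deriv (deriv G))) := c2.deriv'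
  have k0 : HasCompactSupport G := b.hasCompactSupport.mul_left
  have k1 := k0.deriv
  have k2 := k1.deriv
  have k3 := k2.deriv
  obtain ⟨M0, h0⟩ := cG.continuous.bounded_above_of_compact_support k0
  obtain ⟨M1, h1⟩ := c1.continuous.bounded_above_of_compact_support k1
  obtain ⟨M2, h2⟩ := c2.continuous.bounded_above_of_compact_support k2
  obtain ⟨M3, h3⟩ := c3.continuous.bounded_above_of_compact_support k3
  have p0 : 0 ≤ M0 := (norm_nonneg _).trans (h0 0)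
  have p1 : 0 ≤ M1 := (norm_nonneg _).trans (h1 0)
  have p2 : 0 ≤ M2 := (norm_nonneg _).trans (h2 0)
  have p3 : 0 ≤ M3 := (norm_nonneg _).trans (h3 0)
  have cx : Continuous fun x => x * G x := continuous_id.mul cG.continuous
  have kx : HasCompactSupport fun x => x * G x := k0.mul_left
  refine ⟨G, deriv G, deriv (deriv G), deriv (deriv (deriv G)), M0 + M1 + M2 + M3, by linarith,
    ⟨fun x => ?_, fun x => ?_, fun x => ?_, fun x => ?_⟩, fun x => ?_, cG.continuous.measurable,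
    cx.integrable_of_hasCompactSupport kx, ?_, fun x hx => ?_, fun x hx => ?_⟩
  · simp only [hG, b.neg]; ring
  · exact (cG.differentiable (by norm_num) x).hasDerivAt
  · exact (c1.differentiable (by norm_num) x).hasDerivAt
  · exact (c2.differentiable (by norm_num) x).hasDerivAt
  · have a0 := h0 x
    have a1 := h1 x
    have a2 := h2 x
    have a3 := h3 x
    rw [Real.norm_eq_abs] at a0 a1 a2 a3
    exact ⟨by linarith, by linarith, by linarith, by linarith⟩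
  · refine cx.integral_pos_of_hasCompactSupport_nonneg_nonzero kx (x := l / 2) (fun x => ?_) ?_
    · have : 0 ≤ b x := b.nonneg
      have h : x * G x = x ^ 2 * b x := by simp only [hG]; ring
      show 0 ≤ x * G x
      rw [h]; positivity
    · have : b (l / 2) = 1 := b.one_of_mem_closedBall (by
        simp only [Metric.mem_closedBall, dist_zero_right, Real.norm_eq_abs]
        rw [abs_of_pos (by linarith only [hl])])
      simp only [hG, this]
      positivity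
  · have a0 : 0 ≤ b x := b.nonneg
    have a1 : b x ≤ 1 := b.le_one
    simp only [hG]
    exact ⟨mul_nonneg hx a0, by linarith only [hx, a1, mul_nonneg_of_nonpos_of_nonpos (Mathlib.Tactic.Linarith.sub_nonpos_of_le hx) (Mathlib.Tactic.Linarith.sub_nonpos_of_le a1)]⟩
  · have : b x = 0 := b.zero_of_le_dist (by
      simp only [dist_zero_right, Real.norm_eq_abs]
      rw [abs_of_pos (by linarith)]; exact hx)
    simp only [hG, this, mul_zero]

theorem cpos_fin {t N S S0 S' F P I D E w : ℝ} (t0 : 0 < t) (t1 : t ≤ 1) (hN : 0 ≤ N)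
    (hS : S0 ≤ S) (hc : exp (t * t⁻¹) * S' ≤ t * exp t⁻¹ * S0 + (1 - t) * F)
    (hl : |S' - F| ≤ t * D * E) (hE : N * E ≤ 2) (hD : 0 ≤ D) (hE0 : 0 ≤ E)
    (ho : |F - P| ≤ w) (hw : N * w ≤ I / 4) (ha : |N * P - I| ≤ I / 4) (hI : 0 < I)
    (ht : t * D ≤ I / 24) : I / 4 * exp (-t⁻¹) ≤ N * S := by
  rw [mul_inv_cancel₀ t0.ne'] at hc
  have e2 : 2 ≤ exp 1 := by have := add_one_le_exp (1 : ℝ); linarith only [this]
  have e3 : exp 1 ≤ 3 := by have := exp_one_lt_d9; linarith only [this]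
  have a1 : N * (P - w) ≤ N * F := mul_le_mul_of_nonneg_left (by linarith only [ho, (abs_le.1 ho).1]) hN
  have a2 : I / 2 ≤ N * F := by linarith only [hw, a1, ha, (abs_le.1 ha).1]
  have a3 : N * (F - t * D * E) ≤ N * S' :=
    mul_le_mul_of_nonneg_left (by linarith only [hl, (abs_le.1 hl).1]) hN
  have tD : 0 ≤ t * D := mul_nonneg t0.le hD
  have a4 : t * D * (N * E) ≤ I / 12 := by linarith only [ht, hE, tD, mul_nonneg_of_nonpos_of_nonpos (Mathlib.Tactic.Linarith.sub_nonpos_of_le hE) (Mathlib.Tactic.Linarith.sub_nonpos_of_le tD)]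
  have a5 : N * F - I / 12 ≤ N * S' := by linarith only [a3, a4]
  have a6 : exp 1 * (N * S') ≤ t * exp t⁻¹ * (N * S0) + (1 - t) * (N * F) := by
    have := mul_le_mul_of_nonneg_left hc hN
    linarith only [this]
  have a7 : exp 1 * (N * F - I / 12) ≤ exp 1 * (N * S') :=
    mul_le_mul_of_nonneg_left a5 (exp_pos _).le
  have a8 : I / 4 ≤ t * exp t⁻¹ * (N * S0) := by linarith only [hI, a2, a6, a7, t0, e2, mul_pos_of_neg_of_neg (Mathlib.Tactic.Linarith.sub_neg_of_lt t0) (Mathlib.Tactic.Linarith.sub_neg_of_lt hI), mul_nonneg_of_nonpos_of_nonpos (le_of_lt (Mathlib.Tactic.Linarith.sub_neg_of_lt t0)) (Mathlib.Tactic.Linarith.sub_nonpos_of_le a2), mul_nonneg_of_nonpos_of_nonpos (le_of_lt (Mathlib.Tactic.Linarith.sub_neg_of_lt hI)) (Mathlib.Tactic.Linarith.sub_nonpos_of_le e2), mul_nonneg_of_nonpos_of_nonpos (Mathlib.Tactic.Linarith.sub_nonpos_of_le e2) (Mathlib.Tactic.Linarith.sub_nonpos_of_le a2)]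
  have a9 : 0 ≤ N * S0 := by
    by_contra h
    have h' : N * S0 < 0 := lt_of_not_ge h
    have : t * exp t⁻¹ * (N * S0) < 0 := mul_neg_of_pos_of_neg (mul_pos t0 (exp_pos _)) h'
    linarith only [hI, a8, this]
  have b1 : I / 4 ≤ exp t⁻¹ * (N * S0) := by
    have := mul_nonneg (exp_pos t⁻¹).le a9
    (refine le_of_not_gt fun h_nl => ?_; linarith only [h_nl, a8, t0, t1, hI, mul_pos_of_neg_of_neg (Mathlib.Tactic.Linarith.sub_neg_of_lt t0) (Mathlib.Tactic.Linarith.sub_neg_of_lt h_nl), mul_nonneg_of_nonpos_of_nonpos (Mathlib.Tactic.Linarith.sub_nonpos_of_le t1) (le_of_lt (Mathlib.Tactic.Linarith.sub_neg_of_lt hI))])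
  have b2 : N * S0 ≤ N * S := mul_le_mul_of_nonneg_left hS hN
  have b3 : exp (-t⁻¹) * exp t⁻¹ = 1 := by rw [← exp_add]; simp
  have b4 := mul_le_mul_of_nonneg_left b1 (exp_pos (-t⁻¹)).le
  rw [← mul_assoc, b3, one_mul] at b4
  linarith only [b2, b4]

theorem start_pos {c l : ℝ} (hc : 0 < c) (hl : 0 < l) : ∃ c0 θ : ℝ, 0 < c0 ∧ 0 < θ ∧
    ∀ (δ : ℝ) (T : ℕ) (ε f : ℕ → ℝ), StH0 c θ δ T ε → Bdd f → (∀ q, 0 ≤ f q) →
    (∀ q : ℕ, δ * q ≤ l → δ * q ≤ f q) → c0 ≤ stV δ T ε f := by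
  obtain ⟨G, G1, G2, G3, M, hM, hodd, hb, hm, hi, hpos, hle, hz⟩ := cpos_bump hl
  obtain ⟨C1, hC1, h1⟩ := fr_loss
  obtain ⟨C2, hC2, h2⟩ := fr_odd
  set I : ℝ := (√(2 * π))⁻¹ * ∫ x, x * G x with hI
  have I0 : 0 < I := by have := pi_pos; positivity
  obtain ⟨θ1, hθ1, h3⟩ := pg_asym hm hodd.odd (fun x => (hb x).1) hi (ζ := I / 4) (by positivity)
  obtain ⟨θ2, hθ2, h4⟩ := StH0.small (ζ := min 1 (I / (4 * (C2 * M + 1)))) (by positivity)
  set D : ℝ := C1 * (10 * c) * (l * exp l) with hD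
  have D0 : 0 ≤ D := by positivity
  set t : ℝ := min 1 (I / (24 * (D + 1))) with ht
  have t0 : 0 < t := by positivity
  have t1 : t ≤ 1 := min_le_left _ _
  have t2 : t * D ≤ I / 24 := by
    have a1 : t ≤ I / (24 * (D + 1)) := min_le_right _ _
    rw [le_div_iff₀ (by positivity)] at a1
    linarith only [t0, a1]
  refine ⟨I / 4 * exp (-t⁻¹), min (1 / 4) (min θ1 θ2), by positivity, by positivity,
    fun δ T ε f H hf hp hq => ?_⟩
  have H0 := H.mono (min_le_left _ _)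
  have H1 := H.mono ((min_le_right _ _).trans (min_le_left _ _))
  have H2 := H.mono ((min_le_right _ _).trans (min_le_right _ _))
  have d0 := H.d0
  have d1 : δ ≤ 1 := by linarith only [H0, H0.d1]
  have s4 : 4 ≤ T * δ ^ 2 := by have := H0.t0; norm_num at this; exact this
  have x0 : ∀ q : ℕ, 0 ≤ δ * q := fun q => by positivity
  have g0 : ∀ q : ℕ, 0 ≤ G (δ * q) := fun q => (hle _ (x0 q)).1
  have gb : Bdd fun q : ℕ => G (δ * q) := ⟨M, fun q => (hb _).1⟩
  have gf : ∀ q : ℕ, G (δ * q) ≤ f q := fun q => by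
    rcases le_total (δ * q) l with h | h
    · exact (hle _ (x0 q)).2.trans (hq q h)
    · rw [hz _ h]; exact hp q
  have ge : ∀ q : ℕ, |G (δ * q)| ≤ l * exp l * exp (-(δ * q)) := fun q => by
    rw [abs_of_nonneg (g0 q)]
    rcases le_total (δ * q) l with h | h
    · have a1 : 1 ≤ exp l * exp (-(δ * q)) := by
        rw [← exp_add]; exact one_le_exp (by linarith only [h])
      have a2 := (hle _ (x0 q)).2
      linarith only [h, a2, hl, a1, mul_nonneg_of_nonpos_of_nonpos (le_of_lt (Mathlib.Tactic.Linarith.sub_neg_of_lt hl)) (Mathlib.Tactic.Linarith.sub_nonpos_of_le a1)]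
    · rw [hz _ h]; positivity
  have hS := Sol_le (r := fun j => exp (-ε j)) (n0 := 0) (i := T) (fun j hj =>
    ⟨(exp_pos _).le, exp_le_one_iff.2 (by
      have := (H.e0 j hj).1; rw [zero_add]; linarith only [this])⟩) gb hf gf 1
  have hcv := cpos_conv t0.le t1 gb g0 T (fun j hj => (H.e0 j hj).1) t⁻¹ 1
  have hls := h1 δ (l * exp l) (t * (10 * c)) T (fun j => t * ε j) _ d0 d1 s4 (fun j hj =>
    ⟨mul_nonneg t0.le (H.e0 j hj).1, by
      have := mul_le_mul_of_nonneg_left (H.e0 j hj).2 t0.le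
      linarith only [this]⟩) ge
  have hod := h2 G G1 G2 G3 M δ T hodd hb d0 d1
  have has := h3 (T * δ ^ 2) δ H1.t0 d0 d1
  have hsm := h4 c δ T ε H2
  have sp : 0 < (T * δ ^ 2) ^ (3 / 2 : ℝ) := rpow_pos_of_pos (by linarith only [s4]) _
  have N0 : 0 ≤ (T * δ ^ 2) ^ (3 / 2 : ℝ) / δ := by positivity
  refine cpos_fin (D := D) (E := δ / (T * δ ^ 2) ^ (3 / 2 : ℝ) + δ ^ 3 * √T) t0 t1 N0 hS hcv
    (hls.trans (le_of_eq (by rw [hD]; ring))) ?_ D0 (by positivity) hod ?_ has I0 t2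
  · have a1 : (T * δ ^ 2) ^ (3 / 2 : ℝ) / δ * (δ / (T * δ ^ 2) ^ (3 / 2 : ℝ)) = 1 := by
      field_simp
    have a2 := hsm.trans (min_le_left _ _)
    rw [mul_add, a1]; linarith only [a2]
  · have a2 := hsm.trans (min_le_right _ _)
    rw [le_div_iff₀ (by positivity)] at a2
    have a3 : 0 ≤ (T * δ ^ 2) ^ (3 / 2 : ℝ) / δ * (δ ^ 3 * √T) := by positivity
    linarith only [a2, a3]

end Pool.Agent.Work.MP_5391ad_co
end
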