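import Pool.Agent.Work.MP_5391ad_co.CAiry
import Pool.Agent.Work.MP_5391ad_co.CPos
import Pool.Agent.Work.MP_5391ad_co.CMix

-- merged part: Pool.Agent.Work.MP_5391ad_co.CTail
section
/-! Two-sided bounds up to constants.
`tail_two`: take `K` from `adm3_rs`, `C, a0, η0` from `prop_both`; shrink `η0` and enlarge `s0, c0`
(`rate_small`) until `C (η0 + 2 a) mm ≤ 1/8` for all `a = ap3 n` on the range and `sE ≤ 1`. Let
`n1` be the junction for `c0` with `θ ≤ 1` below the `θ` of `start_upper` and `start_pos`. Upper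
bound: `gc ≤ (φ + η0 gc)/η0`, `prop_both`, `φ ≤ C gc ≤ C e^{-β q} ≤ C e^{-δ q}`, `start_upper`.
Lower bound: after `prop_both` the solution is at least `Λ/C' * β q ≥ Λ/C' * δ q` for `β q ≤ x0`,
`β ≤ 2 c0 δ`; `start_pos` for the rescaled solution (`Sol_lin`). `Sol_add`, `sol_eq_stV`.
`tail_cmp`: `c0 + 1` in place of `c0` forces `n2 ≤ n1` by monotonicity of `tau`.
`sol_theta`: `n2 ≥ s0` fixed, `end_data`, `lgL_eq`, `prod_rs`, `airy_sharp` (`ζ = 1`), `rate_theta`,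
`rate_pos`; the junction of `tail_two` has `tau ≤ (c0 + θ)/√L` for every given `θ`.
-/

namespace Pool.Agent.Work.MP_5391ad_co

open Real Finset Filter

theorem ctail_small {C p a : ℝ} (hp : 0 < p) (ha : 0 < a) :
    ∀ᶠ x : ℝ in atTop, C * x ^ (-p) ≤ a := by
  have h := (tendsto_rpow_neg_atTop hp).const_mul C
  rw [mul_zero] at h
  exact h.eventually (ge_mem_nhds ha)

theorem ctail_fac {y l : ℝ} (hl : 0 < l) (h : |y / l - 1 / 2| ≤ 1 / 4) :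
    0 < y ∧ l ^ (-(3 / 2) : ℝ) ≤ (y ^ (3 / 2 : ℝ))⁻¹ ∧
      (y ^ (3 / 2 : ℝ))⁻¹ ≤ 8 * l ^ (-(3 / 2) : ℝ) := by
  obtain ⟨h1, h2⟩ := abs_le.1 h
  have h3 : 1 / 4 ≤ y / l := by linarith only [h1]
  have h4 : y / l ≤ 1 := by linarith only [h2]
  rw [le_div_iff₀ hl] at h3
  rw [div_le_one hl] at h4
  have hy : 0 < y := by linarith only [hl, h3]
  have hy3 : 0 < y ^ (3 / 2 : ℝ) := rpow_pos_of_pos hy _
  have hl3 : 0 < l ^ (3 / 2 : ℝ) := rpow_pos_of_pos hl _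
  rw [rpow_neg hl.le]
  refine ⟨hy, inv_anti₀ hy3 (rpow_le_rpow hy.le h4 (by norm_num)), ?_⟩
  have h5 := cfree_rp hl.le hy.le (by linarith only [h3] : l ≤ 4 * y)
  rw [← div_eq_mul_inv, inv_eq_one_div, div_le_div_iff₀ hy3 hl3]
  clear * - l y h5
  linarith only [h5]

theorem ctail_smul {r : ℕ → ℝ} {n0 i : ℕ} {f : ℕ → ℝ}
    (hr : ∀ j < i, 0 ≤ r (n0 + j) ∧ r (n0 + j) ≤ 1) (hf : Bdd f) (a : ℝ) (q : ℕ) :
    Sol r n0 (fun k => a * f k) i q = a * Sol r n0 f i q := by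
  have h := Sol_lin hr hf hf a 0 q
  simpa using h

theorem ctail_nonneg {r : ℕ → ℝ} {n0 i : ℕ} {f : ℕ → ℝ}
    (hr : ∀ j < i, 0 ≤ r (n0 + j) ∧ r (n0 + j) ≤ 1) (hf : Bdd f) (h : ∀ q, 0 ≤ f q) (q : ℕ) :
    0 ≤ Sol r n0 f i q :=
  (abs_nonneg _).trans (Sol_mono (r := r) (f := fun _ => 0)
    (fun j hj => ⟨(hr j hj).1, le_rfl, (hr j hj).2⟩) (cfree_const 0) hf (by simpa using h) q)

theorem ctail_e : exp 1 ≤ 3 ∧ 1 / 3 ≤ exp (-1) := by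
  have h : exp 1 ≤ 3 := exp_one_lt_d9.le.trans (by norm_num)
  refine ⟨h, ?_⟩
  rw [exp_neg, one_div]
  exact inv_anti₀ (exp_pos _) h

theorem ctail_log {y C : ℝ} (hC : 1 ≤ C) (h1 : C⁻¹ ≤ y) (h2 : y ≤ C) :
    0 < y ∧ |log y| ≤ log C := by
  have hC0 : 0 < C := by linarith only [hC]
  have hy : 0 < y := (inv_pos.2 hC0).trans_le h1
  refine ⟨hy, abs_le.2 ⟨?_, log_le_log hy h2⟩⟩
  rw [← log_inv]
  exact log_le_log (inv_pos.2 hC0) h1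

theorem ctail_up {p g e e' C w : ℝ} (h1 : p ≤ C * g) (h2 : 0 ≤ g) (h3 : g ≤ e) (h4 : e ≤ e')
    (h5 : w ≤ 1) (h6 : 1 ≤ C) : p + w * g ≤ (C + 1) * e' := by
  linarith only [h1, h3, h4, h2, h5, h6, mul_nonneg_of_nonpos_of_nonpos (Mathlib.Tactic.Linarith.sub_nonpos_of_le h2) (Mathlib.Tactic.Linarith.sub_nonpos_of_le h5), mul_nonneg_of_nonpos_of_nonpos (Mathlib.Tactic.Linarith.sub_nonpos_of_le h3) (Mathlib.Tactic.Linarith.sub_nonpos_of_le h6), mul_nonneg_of_nonpos_of_nonpos (Mathlib.Tactic.Linarith.sub_nonpos_of_le h4) (Mathlib.Tactic.Linarith.sub_nonpos_of_le h6)]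

theorem ctail_lo {x p g w w' C m : ℝ} (h0 : 0 ≤ x) (h1 : x ≤ 1 / (2 * C)) (hC : 1 ≤ C)
    (h2 : x ≤ 1 → |p - x| ≤ C * x ^ 3) (g0 : 0 ≤ g) (g1 : g ≤ m * x) (hw : w ≤ w') (hw0 : 0 ≤ w')
    (hm : w' * m ≤ 1 / 4) : x / 4 ≤ p - w * g := by
  rw [le_div_iff₀ (by linarith only [hC])] at h1
  have hx : x ≤ 1 := by linarith only [h1, h0, hC, mul_nonneg_of_nonpos_of_nonpos (Mathlib.Tactic.Linarith.sub_nonpos_of_le h0) (Mathlib.Tactic.Linarith.sub_nonpos_of_le hC)]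
  have h3 := (abs_le.1 (h2 hx)).1
  have h4 : w * g ≤ w' * (m * x) :=
    (mul_le_mul_of_nonneg_right hw g0).trans (mul_le_mul_of_nonneg_left g1 hw0)
  have h5 : C * x ^ 3 ≤ x / 2 := by
    clear * - x C h0 hC h1
    have : x ^ 2 ≤ x := by nlinarith
    linarith only [this, h1, mul_le_mul_of_nonneg_left this (mul_nonneg (by linarith : 0 ≤ C) h0), mul_nonneg_of_nonpos_of_nonpos (Mathlib.Tactic.Linarith.sub_nonpos_of_le (sq_nonneg x)) (Mathlib.Tactic.Linarith.sub_nonpos_of_le h1)]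
  clear * - x p w g C w' m h3 h4 h5 h0 hm
  linarith only [h3, h4, h5, h0, hm, mul_nonneg_of_nonpos_of_nonpos (Mathlib.Tactic.Linarith.sub_nonpos_of_le h0) (Mathlib.Tactic.Linarith.sub_nonpos_of_le hm)]

theorem ctail_w {C a a1 a2 b1 b2 e : ℝ} (hC : 1 ≤ C) (ha : 0 < a) (h1 : a1 ≤ a) (h2 : a2 ≤ a)
    (hb1 : 0 < b1) (hb2 : 0 < b2) (h3 : b1 ≤ 2 * a1) (h4 : b2 ≤ 2 * a2) (e0 : 0 ≤ e) (e1 : e ≤ 1) :
    0 ≤ C * ((a + a2) * e + a1) ∧ C * ((a + a2) * e + a1) ≤ C * (3 * a) := by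
  have h5 : 0 ≤ a + a2 := by linarith only [ha, hb2, h4]
  have h6 := mul_le_of_le_one_right h5 e1
  have h7 := mul_nonneg h5 e0
  exact ⟨mul_nonneg (by linarith) (by linarith),
    mul_le_mul_of_nonneg_left (by linarith) (by linarith)⟩

theorem ctail_x {d β c C : ℝ} {q : ℕ} (hc : 1 ≤ c) (h : β ≤ 2 * c * d)
    (hq : d * q ≤ 1 / (2 * C) / (2 * c)) : β * q ≤ 1 / (2 * C) := by
  rw [le_div_iff₀ (by linarith only [hc])] at hq
  linarith only [hq, h, mul_le_mul_of_nonneg_right h (Nat.cast_nonneg (α := ℝ) q)]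

theorem ctail_sum {L r1 r2 b1 b2 m m' C : ℝ} (hL : 0 < L) (hm : 0 < m) (hm' : 0 < m') (hC : 1 ≤ C)
    (hb2 : 0 < b2) (h1 : C⁻¹ ≤ L * r1) (h1' : L * r1 ≤ C) (h2 : C⁻¹ ≤ √L * √m * r2)
    (h2' : √L * √m * r2 ≤ C) (h3 : C⁻¹ ≤ b2 ^ 3 * m') (h3' : b2 ^ 3 * m' ≤ C)
    (h4 : C⁻¹ ≤ √L * b1) (h4' : √L * b1 ≤ C) :
    |-(log (r1 / r2) / 6) - log (b2 / b1) / 2 + log L / 6| ≤ log C + |log m| + |log m'| := by
  obtain ⟨p1, q1⟩ := ctail_log hC h1 h1'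
  obtain ⟨p2, q2⟩ := ctail_log hC h2 h2'
  obtain ⟨-, q3⟩ := ctail_log hC h3 h3'
  obtain ⟨p4, q4⟩ := ctail_log hC h4 h4'
  have hs : 0 < √L := sqrt_pos.2 hL
  have hs' : 0 < √m := sqrt_pos.2 hm
  have hr1 : 0 < r1 := (mul_pos_iff_of_pos_left hL).1 p1
  have hr2 : 0 < r2 := (mul_pos_iff_of_pos_left (mul_pos hs hs')).1 p2
  have hb1 : 0 < b1 := (mul_pos_iff_of_pos_left hs).1 p4
  rw [log_mul hL.ne' hr1.ne'] at q1
  rw [log_mul (mul_pos hs hs').ne' hr2.ne', log_mul hs.ne' hs'.ne', log_sqrt hL.le,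
    log_sqrt hm.le] at q2
  rw [log_mul (pow_pos hb2 3).ne' hm'.ne', log_pow] at q3
  rw [log_mul hs.ne' hb1.ne', log_sqrt hL.le] at q4
  rw [log_div hr1.ne' hr2.ne', log_div hb2.ne' hb1.ne']
  push_cast at q3
  obtain ⟨a1, a2⟩ := abs_le.1 q1
  obtain ⟨a3, a4⟩ := abs_le.1 q2
  obtain ⟨a5, a6⟩ := abs_le.1 q3
  obtain ⟨a7, a8⟩ := abs_le.1 q4
  have := le_abs_self (log m)
  have := neg_abs_le (log m)
  have := le_abs_self (log m')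
  have := neg_abs_le (log m')
  have := abs_nonneg (log m)
  have := abs_nonneg (log m')
  exact abs_le.2 ⟨by linarith, by linarith⟩

theorem ctail_exp {L x y A : ℝ} (hL : 0 < L) (h : |x + y + log L / 6| ≤ A) :
    (exp A)⁻¹ * (exp (-y) * L ^ (-(2 / 3) : ℝ)) ≤ exp x * (√L)⁻¹ ∧
      exp x * (√L)⁻¹ ≤ exp A * (exp (-y) * L ^ (-(2 / 3) : ℝ)) := by
  obtain ⟨h1, h2⟩ := abs_le.1 h
  rw [sqrt_eq_rpow, rpow_def_of_pos hL, rpow_def_of_pos hL]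
  simp only [← exp_neg, ← exp_add, exp_le_exp]
  exact ⟨by linarith only [h1], by linarith only [h2]⟩

theorem tail_two : ∃ (K C η0 c0 : ℝ) (s0 : ℕ), 0 ≤ K ∧ 1 ≤ C ∧ 0 < η0 ∧ η0 ≤ 1 ∧ 1 ≤ c0 ∧ 2 ≤ s0 ∧
    ∀ θ : ℝ, 0 < θ → θ ≤ 1 → ∀ᶠ L : ℝ in atTop, ∀ B : ℕ, Gap L B → ∃ n1 : ℕ, L ≤ n1 ∧ n1 < B ∧
      c0 / √L ≤ tau L⁻¹ ((B : ℝ) - n1) ∧ tau L⁻¹ ((B : ℝ) - n1) ≤ (c0 + θ) / √L ∧
      (√L)⁻¹ ≤ bet L⁻¹ B n1 ∧ bet L⁻¹ B n1 ≤ C * (√L)⁻¹ ∧ L * rate L⁻¹ 0 B (n1 - 1) ≤ 2 ∧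
      Adm3 K (1 / 2) (rs L⁻¹ B) (bet L⁻¹ B) (ap3 L⁻¹ B) s0 n1 ∧
      ∀ n2 : ℕ, s0 ≤ n2 → n2 ≤ n1 → ∀ f : ℕ → ℝ,
        ((∀ q : ℕ, |f q| ≤ gc (bet L⁻¹ B n2 * q)) → |Sol (rs L⁻¹ B) n2 f (B + 1 - n2) 1| ≤
          C * (exp (lgL (bet L⁻¹ B) (ap3 L⁻¹ B) n2 n1) * (√L)⁻¹ * log L ^ (-(3 / 2) : ℝ))) ∧
        (Bdd f → (∀ q, 0 ≤ f q) →
          (∀ q : ℕ, phi (bet L⁻¹ B n2 * q) - η0 * gc (bet L⁻¹ B n2 * q) ≤ f q) →
          C⁻¹ * (exp (lgL (bet L⁻¹ B) (ap3 L⁻¹ B) n2 n1) * (√L)⁻¹ * log L ^ (-(3 / 2) : ℝ)) ≤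
            Sol (rs L⁻¹ B) n2 f (B + 1 - n2) 1) := by
  obtain ⟨K, hK, hadm⟩ := adm3_rs
  obtain ⟨C1, a0, η1, hC1, ha0, -, ha2, hη1, hη11, hprop⟩ := prop_both hK
  obtain ⟨s1, c1, hs1, hc1, hadm⟩ := hadm a0 ha0
  obtain ⟨Cr, hCr, hrate⟩ := rate_small
  obtain ⟨Cp, hCp, hphi⟩ := phi_le_gc
  obtain ⟨Cu, θu, hCu, hθu, hup⟩ := start_upper
  have hmm := cbase_mm
  obtain ⟨a, ha, haη, haC⟩ : ∃ a : ℝ, 0 < a ∧ a ≤ η1 ∧ C1 * (3 * a) * mm ≤ 1 / 4 := by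
    refine ⟨min η1 (1 / (12 * C1 * mm)), lt_min hη1 (by positivity), min_le_left _ _, ?_⟩
    have h := min_le_right η1 (1 / (12 * C1 * mm))
    rw [le_div_iff₀ (by positivity)] at h
    linarith only [h]
  have haC1 : C1 * (3 * a) ≤ 1 := by (refine le_of_not_gt fun h_nl => ?_; linarith only [h_nl, hmm, haC, ha0, ha2, mul_pos (by linarith : 0 < C1) ha, mul_pos_of_neg_of_neg (Mathlib.Tactic.Linarith.sub_neg_of_lt ha0) (Mathlib.Tactic.Linarith.sub_neg_of_lt h_nl), mul_nonneg_of_nonpos_of_nonpos (Mathlib.Tactic.Linarith.sub_nonpos_of_le ha2) (le_of_lt (Mathlib.Tactic.Linarith.sub_neg_of_lt h_nl)), mul_nonneg_of_nonpos_of_nonpos (Mathlib.Tactic.Linarith.sub_nonpos_of_le hmm) (le_of_lt (Mathlib.Tactic.Linarith.sub_neg_of_lt h_nl))])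
  obtain ⟨x1, hx1⟩ := eventually_atTop.1
    (ctail_small (C := Cr) (show (0 : ℝ) < 1 / 3 by norm_num) (half_pos ha))
  obtain ⟨c0, hc0, hc01⟩ := ((ctail_small (C := Cr) (show (0 : ℝ) < 2 / 3 by norm_num)
    (half_pos ha)).and (eventually_ge_atTop c1)).exists
  have hc : 1 ≤ c0 := hc1.trans hc01
  obtain ⟨s0, hs01, hs0x⟩ : ∃ s0 : ℕ, s1 ≤ s0 ∧ x1 ≤ s0 :=
    ⟨max s1 ⌈x1⌉₊, le_max_left _ _, (Nat.le_ceil _).trans (by exact_mod_cast le_max_right _ _)⟩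
  obtain ⟨cp, θp, hcp, hθp, hpos⟩ := start_pos (c := c0) (l := 1 / (2 * Cp) / (2 * c0))
    (by linarith only [ha0, ha2, hc1, hc01]) (by positivity)
  have hA : 0 ≤ 24 * Cu * (Cp + 1) / a := by positivity
  have hD : 0 ≤ 12 / cp := by positivity
  refine ⟨K, 2 * c0 + 24 * Cu * (Cp + 1) / a + 12 / cp, a, c0, s0, hK, by linarith only [ha0, ha2, hc1, hc01, hA, hD], ha,
    haη.trans hη11, hc, hs1.trans hs01, fun θ hθ hθ1 => ?_⟩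
  obtain ⟨θ', h0, h1, h2, h3, h4⟩ : ∃ θ' : ℝ, 0 < θ' ∧ θ' ≤ θ ∧ θ' ≤ θu ∧ θ' ≤ θp ∧ θ' ≤ 1 / 4 :=
    ⟨min (min θ θu) (min θp (1 / 4)), by positivity, (min_le_left _ _).trans (min_le_left _ _),
      (min_le_left _ _).trans (min_le_right _ _), (min_le_right _ _).trans (min_le_left _ _),
      (min_le_right _ _).trans (min_le_right _ _)⟩
  filter_upwards [exists_junction (K := 0) hc h0, hadm, eventually_gt_atTop 1,
    eventually_ge_atTop (s0 : ℝ)] with L hJ hadm hL1 hLs B hG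
  obtain ⟨n1, hn1, hn1B, ht1, ht2, hSt, hT, hb1, hb2, hr2⟩ := hJ B hG
  have hBx : (B : ℝ) < xc L⁻¹ := by clear * - B L θ' h0 h4 hG; linarith only [h0, h4, hG, hG.1]
  have hL0 : 0 < L := by clear * - L θ' h0 h4 hL1; linarith
  have hsq : 0 < √L := sqrt_pos.2 hL0
  have hδ : 0 < (√L)⁻¹ := inv_pos.2 hsq
  have hs0n : s0 ≤ n1 := by exact_mod_cast hLs.trans hn1
  have hc3 : 1 ≤ c0 ^ (1 / 3 : ℝ) := one_le_rpow hc (by norm_num)
  have hc4 : c0 ^ (1 / 3 : ℝ) ≤ c0 := by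
    simpa using rpow_le_rpow_of_exponent_le hc (show (1 / 3 : ℝ) ≤ 1 by norm_num)
  have hb3 : (√L)⁻¹ ≤ bet L⁻¹ B n1 := le_trans (by clear * - L c0 θ' h0 h4 hδ hc3 B hb1 n1; (refine le_of_not_gt fun h_nl => ?_; linarith only [h_nl, h0, h4, hδ, hc3, mul_pos_of_neg_of_neg (Mathlib.Tactic.Linarith.sub_neg_of_lt h0) (Mathlib.Tactic.Linarith.sub_neg_of_lt h_nl), mul_nonneg_of_nonpos_of_nonpos (Mathlib.Tactic.Linarith.sub_nonpos_of_le h4) (le_of_lt (Mathlib.Tactic.Linarith.sub_neg_of_lt h_nl)), mul_nonneg_of_nonpos_of_nonpos (le_of_lt (Mathlib.Tactic.Linarith.sub_neg_of_lt hδ)) (Mathlib.Tactic.Linarith.sub_nonpos_of_le hc3)])) hb1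
  have hb4 : bet L⁻¹ B n1 ≤ 2 * c0 * (√L)⁻¹ :=
    hb2.trans (mul_le_mul_of_nonneg_right (by clear * - θ' c0 a0 c1 θ h4 hc4 ha0 ha2 hc1 hθ1 h1 hc01 h0 hb2 hδ; (refine le_of_not_gt fun h_nl => ?_; linarith only [h_nl, h4, hc4, ha0, ha2, hc1, hθ1, h1, hc01, h0, mul_pos_of_neg_of_neg (Mathlib.Tactic.Linarith.sub_neg_of_lt ha0) (Mathlib.Tactic.Linarith.sub_neg_of_lt h_nl), mul_nonneg_of_nonpos_of_nonpos (Mathlib.Tactic.Linarith.sub_nonpos_of_le ha2) (le_of_lt (Mathlib.Tactic.Linarith.sub_neg_of_lt h_nl)), mul_nonneg_of_nonpos_of_nonpos (Mathlib.Tactic.Linarith.sub_nonpos_of_le hc1) (Mathlib.Tactic.Linarith.sub_nonpos_of_le hθ1), mul_nonneg_of_nonpos_of_nonpos (Mathlib.Tactic.Linarith.sub_nonpos_of_le hc1) (Mathlib.Tactic.Linarith.sub_nonpos_of_le h1), mul_nonneg_of_nonpos_of_nonpos (Mathlib.Tactic.Linarith.sub_nonpos_of_le hc01) (Mathlib.Tactic.Linarith.sub_nonpos_of_le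 hθ1), mul_nonneg_of_nonpos_of_nonpos (Mathlib.Tactic.Linarith.sub_nonpos_of_le hc01) (Mathlib.Tactic.Linarith.sub_nonpos_of_le h1), mul_pos_of_neg_of_neg (Mathlib.Tactic.Linarith.sub_neg_of_lt h0) (Mathlib.Tactic.Linarith.sub_neg_of_lt h0), mul_nonneg_of_nonpos_of_nonpos (le_of_lt (Mathlib.Tactic.Linarith.sub_neg_of_lt h0)) (Mathlib.Tactic.Linarith.sub_nonpos_of_le h4), mul_nonneg_of_nonpos_of_nonpos (le_of_lt (Mathlib.Tactic.Linarith.sub_neg_of_lt h0)) (Mathlib.Tactic.Linarith.sub_nonpos_of_le hc4)])) hδ.le)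
  have hAd := hadm B s0 n1 hBx hs01 hs0n hn1B
    ((div_le_div_of_nonneg_right hc01 hsq.le).trans ht1)
  refine ⟨n1, hn1, hn1B, ht1, ht2.trans (div_le_div_of_nonneg_right (by clear * - c0 θ' θ h1 hAd ha2 hb3 hb4 hn1 hn1B hsq ht1 ht2 hδ n1; linarith only [h1]) hsq.le), hb3,
    hb4.trans (mul_le_mul_of_nonneg_right (by clear * - c0 Cu Cp a cp hA hD hAd ha2 hb4 hδ; linarith only [hA, hD]) hδ.le), by clear * - L B n1 θ' h0 h4 hr2 hAd ha2 hb4 hδ; linarith only [h0, h4, hr2], hAd.mono ha2,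
    fun n2 h21 h22 f => ?_⟩
  have hrs : ∀ n : ℕ, 0 ≤ rs L⁻¹ B n ∧ rs L⁻¹ B n ≤ 1 := fun n =>
    ⟨(rs_mem (inv_pos.2 hL0) (by omega) hBx n).1.le, (rs_mem (inv_pos.2 hL0) (by omega) hBx n).2⟩
  obtain ⟨hsE, hap⟩ := hrate L c0 B n2 n1 hL1.le hc hBx (by omega) h22 ht1
  have hbd : Cr * ((n2 : ℝ) ^ (-(1 / 3) : ℝ) + c0 ^ (-(2 / 3) : ℝ)) ≤ a := by
    clear * - Cr n2 a hx1 x1 s0 hs0x h21 c0 hc0
    have := hx1 n2 (hs0x.trans (by exact_mod_cast h21))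
    linarith only [hc0, this]
  have hA2 := hAd.sub h21 h22 le_rfl
  have ha2' := (hap n2 le_rfl h22).trans hbd
  have ha1' := (hap n1 h22 le_rfl).trans hbd
  have hp2 := hA2.pt n2 le_rfl h22
  have hp1 := hA2.pt n1 h22 le_rfl
  have hsE1 := hsE.trans hbd
  have hsE0 : 0 ≤ sE (bet L⁻¹ B) (ap3 L⁻¹ B) n2 n1 := sum_nonneg fun _ _ => by positivity
  have hsS : exp (-sS (bet L⁻¹ B) n2 n1) ≤ 1 :=
    exp_le_one_iff.2 (neg_nonpos.2 (sum_nonneg fun _ _ => by positivity))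
  obtain ⟨hw0, hw⟩ := ctail_w hC1 ha ha1' ha2' hp1.1 hp2.1 hp1.2.1 hp2.2.1 (exp_pos _).le hsS
  have hx : C1 * (a + ap3 L⁻¹ B n2 + sE (bet L⁻¹ B) (ap3 L⁻¹ B) n2 n1) ≤ 1 :=
    (mul_le_mul_of_nonneg_left (by clear * - a L B n2 n1 Cr c0 hsE hbd ha2' haC1; linarith only [hsE, hbd, ha2']) (by clear * - C1 θ' hC1 h0 h4 haC1; linarith only [hC1, h0, h4])).trans haC1
  obtain ⟨hy, hf1, hf2⟩ := ctail_fac (log_pos hL1) (hT.trans h4)
  have hsplit : Sol (rs L⁻¹ B) n2 f (B + 1 - n2) =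
      Sol (rs L⁻¹ B) n1 (Sol (rs L⁻¹ B) n2 f (n1 - n2)) (B + 1 - n1) := by
    clear * - L B n2 f n1 s1 s0 hn1B h22
    rw [show B + 1 - n2 = (n1 - n2) + (B + 1 - n1) by omega, Sol_add,
      show n2 + (n1 - n2) = n1 by omega]
  have hl3 : 0 < log L ^ (-(3 / 2) : ℝ) := rpow_pos_of_pos (log_pos hL1) _
  rw [hsplit]
  set Λ := exp (lgL (bet L⁻¹ B) (ap3 L⁻¹ B) n2 n1) with hΛ
  have hΛ0 : 0 < Λ := exp_pos _
  constructor
  · intro hf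
    have hP := (hprop _ _ _ n2 n1 f a⁻¹ a hA2 (inv_pos.2 ha).le ha.le haη).1 (fun q => by
      clear * - L B n2 q a0 hp2 a ha Cp hphi f hf
      have hq : 0 ≤ bet L⁻¹ B n2 * q := mul_nonneg hp2.1.le (Nat.cast_nonneg q)
      have := mul_nonneg (inv_pos.2 ha).le (hphi _ hq).1
      rw [mul_add, ← mul_assoc, inv_mul_cancel₀ ha.ne', one_mul]
      linarith only [this, hf, hf q])
    have hU := hup c0 _ (a⁻¹ * (Λ * 3) * (Cp + 1)) _ _ _ (hSt.toStH0.mono h2) (fun q => by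
      have hq : 0 ≤ bet L⁻¹ B n1 * q := mul_nonneg hp1.1.le (Nat.cast_nonneg q)
      obtain ⟨g0, g1, -⟩ := gc_basic.2.2 _ hq
      obtain ⟨p0, p1, -⟩ := hphi _ hq
      have g2 : exp (-(bet L⁻¹ B n1 * q)) ≤ exp (-((√L)⁻¹ * q)) :=
        exp_le_exp.2 (neg_le_neg (mul_le_mul_of_nonneg_right hb3 (Nat.cast_nonneg q)))
      refine (hP q).trans ?_
      rw [mul_assoc _ (Cp + 1)]
      refine mul_le_mul (mul_le_mul_of_nonneg_left ?_ (inv_pos.2 ha).le)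
        (ctail_up p1 g0 g1 g2 (hw.trans haC1) hCp) (add_nonneg p0 (mul_nonneg hw0 g0))
        (mul_pos (inv_pos.2 ha) (mul_pos hΛ0 three_pos)).le
      rw [exp_add]
      exact mul_le_mul_of_nonneg_left ((exp_le_exp.2 hx).trans ctail_e.1) hΛ0.le)
    rw [sol_eq_stV hL1 hBx hn1B, abs_mul, abs_of_pos (div_pos hδ (rpow_pos_of_pos hy _)),
      div_eq_mul_inv]
    calc _ ≤ (√L)⁻¹ * (8 * log L ^ (-(3 / 2) : ℝ)) * (Cu * (a⁻¹ * (Λ * 3) * (Cp + 1))) :=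
          mul_le_mul (mul_le_mul_of_nonneg_left hf2 hδ.le) hU (abs_nonneg _) (by positivity)
      _ = 24 * Cu * (Cp + 1) / a * (Λ * (√L)⁻¹ * log L ^ (-(3 / 2) : ℝ)) := by ring
      _ ≤ _ := mul_le_mul_of_nonneg_right (by clear * - Cu Cp a c0 cp c1 θ' hc1 hc01 hD h0 h4; linarith only [hc1, hc01, hD, h0, h4]) (by positivity)
  · intro hfb hf0 hf
    have hP := (hprop _ _ _ n2 n1 f 1 a hA2 zero_le_one ha.le haη).2 hfb hf0
      (fun q => by simpa using hf q)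
    have hgb : Bdd (Sol (rs L⁻¹ B) n2 f (n1 - n2)) := cbase_bdd (fun j _ => hrs _) hfb
    have hg0 : ∀ q, 0 ≤ Sol (rs L⁻¹ B) n2 f (n1 - n2) q :=
      ctail_nonneg (fun j _ => hrs _) hfb hf0
    have hV := hpos _ _ _ (fun k => 12 / Λ * Sol (rs L⁻¹ B) n2 f (n1 - n2) k)
      (hSt.toStH0.mono h3) (cfree_mul hgb _) (fun q => mul_nonneg (by positivity) (hg0 q))
      (fun q hq => by
        clear * - L B n1 q a0 hp1 hb3 Λ n2 f C1 a Cp c0 hc hb4 hq hCp hphi hw hw0 haC hx hΛ0 hP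
        have hq0 : 0 ≤ bet L⁻¹ B n1 * q := mul_nonneg hp1.1.le (Nat.cast_nonneg q)
        have hq2 : (√L)⁻¹ * q ≤ bet L⁻¹ B n1 * q :=
          mul_le_mul_of_nonneg_right hb3 (Nat.cast_nonneg q)
        obtain ⟨g0, -, g1, -⟩ := gc_basic.2.2 _ hq0
        have h5 := ctail_lo hq0 (ctail_x hc hb4 hq) hCp (hphi _ hq0).2.2.2.2.1 g0 g1 hw
          (hw0.trans hw) haC
        have h6 : Λ * (1 / 3) ≤ 1 * exp (lgL (bet L⁻¹ B) (ap3 L⁻¹ B) n2 n1 -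
            C1 * (a + ap3 L⁻¹ B n2 + sE (bet L⁻¹ B) (ap3 L⁻¹ B) n2 n1)) := by
          rw [one_mul, sub_eq_add_neg, exp_add]
          exact mul_le_mul_of_nonneg_left (ctail_e.2.trans (exp_le_exp.2 (neg_le_neg hx))) hΛ0.le
        have h7 := (mul_le_mul h6 h5 (div_nonneg hq0 four_pos.le)
          (mul_pos one_pos (exp_pos _)).le).trans (hP q)
        refine hq2.trans (le_trans (le_of_eq ?_)
          (mul_le_mul_of_nonneg_left h7 (div_pos (by norm_num) hΛ0).le))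
        field_simp
        ring)
    have hS := sol_eq_stV hL1 hBx hn1B (fun k => 12 / Λ * Sol (rs L⁻¹ B) n2 f (n1 - n2) k)
    rw [ctail_smul (fun j _ => hrs _) hgb, div_eq_mul_inv (√L)⁻¹] at hS
    have h8 : (√L)⁻¹ * log L ^ (-(3 / 2) : ℝ) * cp ≤ 12 / Λ *
        Sol (rs L⁻¹ B) n1 (Sol (rs L⁻¹ B) n2 f (n1 - n2)) (B + 1 - n1) 1 := by
      rw [hS]
      exact mul_le_mul (mul_le_mul_of_nonneg_left hf1 hδ.le) hV hcp.le
        (mul_pos hδ (inv_pos.2 (rpow_pos_of_pos hy _))).le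
    have h9 : (2 * c0 + 24 * Cu * (Cp + 1) / a + 12 / cp)⁻¹ ≤ (12 / cp)⁻¹ :=
      inv_anti₀ (div_pos (by norm_num) hcp) (by clear * - cp c0 Cu Cp a c1 θ' hc1 hc01 hA h0 h4 hcp; linarith only [hc1, hc01, hA, h0, h4])
    refine (mul_le_mul_of_nonneg_right h9 (mul_pos (mul_pos hΛ0 hδ) hl3).le).trans ?_
    refine le_trans (le_of_eq ?_) ((mul_le_mul_of_nonneg_left h8
      (div_pos hΛ0 (by norm_num : (0 : ℝ) < 12)).le).trans (le_of_eq ?_))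
    · field_simp
    · field_simp

theorem tail_cmp : ∃ (C η0 c0 : ℝ) (s0 : ℕ), 1 ≤ C ∧ 0 < η0 ∧ η0 ≤ 1 ∧ 1 ≤ c0 ∧ 2 ≤ s0 ∧
    ∀ᶠ L : ℝ in atTop, ∀ B n2 : ℕ, Gap L B → s0 ≤ n2 → c0 / √L ≤ tau L⁻¹ ((B : ℝ) - n2) →
      ∀ f f' : ℕ → ℝ, (∀ q : ℕ, |f q| ≤ gc (bet L⁻¹ B n2 * q)) → Bdd f' → (∀ q, 0 ≤ f' q) →
        (∀ q : ℕ, phi (bet L⁻¹ B n2 * q) - η0 * gc (bet L⁻¹ B n2 * q) ≤ f' q) →
        |Sol (rs L⁻¹ B) n2 f (B + 1 - n2) 1| ≤ C * Sol (rs L⁻¹ B) n2 f' (B + 1 - n2) 1 := by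
  obtain ⟨K, C, η0, c0, s0, -, hC, h0, h1, hc, hs, h⟩ := tail_two
  refine ⟨C * C, η0, c0 + 1, s0, one_le_mul_of_one_le_of_one_le hC hC, h0, h1, by linarith only [hc], hs, ?_⟩
  filter_upwards [h (1 / 2) (by norm_num) (by norm_num), eventually_gt_atTop 0]
    with L h hL B n2 hG hs2 ht f f' hf hb h0' hf'
  obtain ⟨n1, -, -, -, ht2, -, -, -, -, h⟩ := h B hG
  have hsq : 0 < √L := sqrt_pos.2 hL
  have h21 : n2 ≤ n1 := by
    clear * - n2 n1 L B hL hG c0 hsq ht ht2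
    by_contra hlt
    have hlt' : (n1 : ℝ) ≤ n2 := by exact_mod_cast (not_le.1 hlt).le
    have hn1 : (0 : ℝ) ≤ n1 := Nat.cast_nonneg _
    have h3 := (tau_strictMonoOn (inv_pos.2 hL)).monotoneOn
      (show (B : ℝ) - n2 ∈ Set.Iic (xc L⁻¹) by simp only [Set.mem_Iic]; linarith only [hG, hG.1])
      (show (B : ℝ) - n1 ∈ Set.Iic (xc L⁻¹) by simp only [Set.mem_Iic]; linarith only [hG, hG.1])
      (by linarith only [hlt'])
    have h4 := (div_le_div_iff_of_pos_right hsq).1 (ht.trans (h3.trans ht2))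
    linarith only [h4]
  have h5 := (h n2 hs2 h21 f').2 hb h0' hf'
  have hC0 : 0 < C := by linarith only [hC]
  rw [inv_mul_le_iff₀ hC0] at h5
  rw [mul_assoc]
  exact ((h n2 hs2 h21 f).1 hf).trans (mul_le_mul_of_nonneg_left h5 hC0.le)

theorem sol_theta : ∃ C : ℝ, 1 ≤ C ∧ ∀ᶠ L : ℝ in atTop, ∀ B : ℕ, Gap L B →
    C⁻¹ * mainS L ≤ Sol (rs L⁻¹ B) 0 (dl 1) (B + 1) 1 ∧
      ∀ q0 ≤ 2, Sol (rs L⁻¹ B) 0 (dl q0) (B + 1) 1 ≤ C * mainS L := by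
  obtain ⟨K, C, η0, c0, s0, hK, hC, h0, -, hc, hs, htail⟩ := tail_two
  obtain ⟨s1, hend⟩ := end_data h0
  obtain ⟨n2, h20, h21⟩ : ∃ n2, s0 ≤ n2 ∧ s1 ≤ n2 := ⟨_, le_max_left _ _, le_max_right _ _⟩
  obtain ⟨M, D, hM, hD, hend⟩ := hend n2 h21
  obtain ⟨θ, hθ, hairy⟩ := airy_sharp (n0 := n2) (by omega) hc one_pos
  obtain ⟨Ct, hCt, htheta⟩ := rate_theta
  obtain ⟨Cr, hCr, hrate⟩ := rate_small
  obtain ⟨C', hC1, hC2, hC3⟩ : ∃ C' : ℝ, 2 ≤ C' ∧ C ≤ C' ∧ Ct ≤ C' :=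
    ⟨max 2 (max C Ct), le_max_left _ _, (le_max_left _ _).trans (le_max_right _ _),
      (le_max_right _ _).trans (le_max_right _ _)⟩
  have hn2 : (1 : ℝ) ≤ n2 := by exact_mod_cast (by omega : 1 ≤ n2)
  obtain ⟨A, hA⟩ : ∃ A : ℝ, A = K * (Cr * ((n2 : ℝ) ^ (-(1 / 3) : ℝ) + c0 ^ (-(2 / 3) : ℝ))) +
    (log C' + |log (((n2 - 1 : ℕ) : ℝ) + 1)| + |log ((n2 : ℝ) + 1)|) +
    (1 + kap0 * (n2 : ℝ) ^ (-(2 / 3) : ℝ)) +
    kap0 * (3 / 2) * (c0 ^ (2 / 3 : ℝ) + (2 * (n2 + 2)) ^ (1 / 3 : ℝ)) := ⟨_, rfl⟩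
  have hC0 : 0 < C := by linarith only [hC]
  have hDM : 0 < D * M := mul_pos (by linarith only [hD]) hM
  have hE : 0 < exp A := exp_pos _
  refine ⟨max 1 (max (M⁻¹ * C * exp A) (D * M * C * exp A)), le_max_left _ _, ?_⟩
  filter_upwards [htail (min θ 1) (lt_min hθ one_pos) (min_le_right _ _), hend, hairy, htheta,
    eventually_gt_atTop 1, eventually_ge_atTop (n2 : ℝ)] with L h hend hairy htheta hL1 hLn B hG
  obtain ⟨n1, hn1, hn1B, ht1, ht2, hb1, hb2, hr2, hAd, h⟩ := h B hG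
  obtain ⟨e1, -, e3⟩ := hend B hG
  have hL0 : 0 < L := by linarith only [hL1]
  have hsq : 0 < √L := sqrt_pos.2 hL0
  have hBx : (B : ℝ) < xc L⁻¹ := by clear * - B L hG; linarith only [hG, hG.1]
  have h21' : n2 ≤ n1 := by exact_mod_cast hLn.trans hn1
  have hrs : ∀ n : ℕ, 0 ≤ rs L⁻¹ B n ∧ rs L⁻¹ B n ≤ 1 := fun n =>
    ⟨(rs_mem (inv_pos.2 hL0) (by omega) hBx n).1.le, (rs_mem (inv_pos.2 hL0) (by omega) hBx n).2⟩
  have hA2 := hAd.sub h20 h21' le_rfl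
  have i1 := (lgL_eq hK le_rfl hA2).trans (mul_le_mul_of_nonneg_left
    (hrate L c0 B n2 n1 hL1.le hc hBx (by omega) h21' ht1).1 hK)
  rw [prod_rs (inv_pos.2 hL0) hBx (by omega) h21' hn1B.le] at i1
  have i2 := hairy B n1 hG h21' ht1
    (ht2.trans (div_le_div_of_nonneg_right (by clear * - c0 θ hsq ht2; linarith only [min_le_left θ 1]) hsq.le))
  have hCi : C'⁻¹ ≤ 1 := inv_le_one_of_one_le₀ (by clear * - C' hC1; linarith)
  have hCti : C'⁻¹ ≤ Ct⁻¹ := inv_anti₀ (by clear * - Ct hCt C' hC3; linarith) hC3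
  obtain ⟨t1, t2, -, -⟩ := htheta B (n2 - 1) hG
    (le_trans (by exact_mod_cast Nat.sub_le n2 1) hLn)
  obtain ⟨-, -, t3, t4⟩ := htheta B n2 hG hLn
  have i3 := ctail_sum (r1 := rate L⁻¹ 0 B (n1 - 1)) (b1 := bet L⁻¹ B n1) hL0
    (Nat.cast_add_one_pos (n2 - 1)) (Nat.cast_add_one_pos n2) (by clear * - C' hC1 n2; linarith : 1 ≤ C')
    (hA2.pt n2 le_rfl h21').1
    (hCi.trans ((inv_mul_le_iff₀ hL0).1 (by
      simpa using rate_pos (y := 0) (inv_pos.2 hL0) (by simpa using hBx) (n1 - 1))))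
    (hr2.trans hC1) (hCti.trans t1) (t2.trans hC3) (hCti.trans t3) (t4.trans hC3)
    (hCi.trans ((inv_mul_le_iff₀ hsq).1 (by simpa using hb1)))
    (le_trans (by rwa [← le_inv_mul_iff₀ hsq, mul_comm]) hC2)
  have i4 : 0 ≤ c0 ^ (2 / 3 : ℝ) + (2 * (n2 + (xc L⁻¹ - B))) ^ (1 / 3 : ℝ) :=
    add_nonneg (rpow_nonneg (by clear * - c0 hc; linarith) _) (rpow_nonneg (by clear * - n2 L B hn2 hBx; linarith only [hn2, hBx]) _)
  have i5 : c0 ^ (2 / 3 : ℝ) + (2 * (n2 + (xc L⁻¹ - B))) ^ (1 / 3 : ℝ) ≤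
      c0 ^ (2 / 3 : ℝ) + (2 * (n2 + 2)) ^ (1 / 3 : ℝ) :=
    add_le_add le_rfl (rpow_le_rpow (by clear * - n2 L B hn2 hBx hG; linarith only [hn2, hBx]) (by clear * - n2 L B hG; linarith only [hG, hG.2]) (by norm_num))
  have hk : 0 ≤ kap0 * (3 / 2) := mul_nonneg kap0_pos.le (by norm_num)
  have i6 := mul_nonneg hk i4
  have i7 := mul_le_mul_of_nonneg_left i5 hk
  have i8 : |lgL (bet L⁻¹ B) (ap3 L⁻¹ B) n2 n1 + kappa * L ^ (1 / 3 : ℝ) + log L / 6| ≤ A := by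
    clear * - K Cr n2 c0 L B n1 A i1 i2 C' i3 hA i6 i7
    obtain ⟨a1, a2⟩ := abs_le.1 i1
    obtain ⟨a3, a4⟩ := abs_le.1 i2
    obtain ⟨a5, a6⟩ := abs_le.1 i3
    exact abs_le.2 ⟨by linarith only [hA, i6, i7, a1, a4, a5], by linarith only [hA, i7, a2, a3, a6]⟩
  obtain ⟨j1, j2⟩ := ctail_exp hL0 i8
  have hl3 : 0 < log L ^ (-(3 / 2) : ℝ) := rpow_pos_of_pos (log_pos hL1) _
  have hm : 0 < mainS L := mul_pos (mul_pos (exp_pos _) (rpow_pos_of_pos hL0 _)) hl3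
  replace j1 := mul_le_mul_of_nonneg_right j1 hl3.le
  replace j2 := mul_le_mul_of_nonneg_right j2 hl3.le
  rw [mul_assoc] at j1
  rw [mul_assoc (exp A)] at j2
  change _ * mainS L ≤ _ at j1
  change _ ≤ _ * mainS L at j2
  have hsplit : ∀ q0, Sol (rs L⁻¹ B) 0 (dl q0) (B + 1) =
      Sol (rs L⁻¹ B) n2 (Sol (rs L⁻¹ B) 0 (dl q0) n2) (B + 1 - n2) := fun q0 => by
    conv_lhs => rw [show B + 1 = n2 + (B + 1 - n2) by omega, Sol_add, Nat.zero_add]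
  have hdb : ∀ q0, Bdd (dl q0) := fun q0 => ⟨1, fun q => (cbase_dl q0 q).2⟩
  have hgb : ∀ q0, Bdd (Sol (rs L⁻¹ B) 0 (dl q0) n2) := fun q0 =>
    cbase_bdd (fun j _ => hrs _) (hdb q0)
  constructor
  · have k1 := (h n2 h20 h21' fun k => M⁻¹ * Sol (rs L⁻¹ B) 0 (dl 1) n2 k).2
      (cfree_mul (hgb 1) _) (fun q => mul_nonneg (inv_pos.2 hM).le
        (ctail_nonneg (fun j _ => hrs _) (hdb 1) (fun q => (cbase_dl 1 q).1) q))
      (fun q => (le_inv_mul_iff₀ hM).2 (e1 q))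
    rw [ctail_smul (fun j _ => hrs _) (hgb 1), ← hsplit, le_inv_mul_iff₀ hM] at k1
    refine le_trans ?_ ((mul_le_mul_of_nonneg_left
      (mul_le_mul_of_nonneg_left j1 (inv_pos.2 hC0).le) hM.le).trans k1)
    rw [← mul_assoc, ← mul_assoc]
    refine mul_le_mul_of_nonneg_right ?_ hm.le
    refine (inv_anti₀ (mul_pos (mul_pos (inv_pos.2 hM) hC0) hE)
      ((le_max_left _ _).trans (le_max_right _ _))).trans (le_of_eq ?_)
    rw [mul_inv, mul_inv, inv_inv]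
  · intro q0 hq0
    have k1 := (h n2 h20 h21' fun k => (D * M)⁻¹ * Sol (rs L⁻¹ B) 0 (dl q0) n2 k).1 (fun q => by
      rw [abs_mul, abs_of_pos (inv_pos.2 hDM), inv_mul_le_iff₀ hDM]
      exact e3 q0 hq0 q)
    rw [ctail_smul (fun j _ => hrs _) (hgb q0), ← hsplit] at k1
    replace k1 := (inv_mul_le_iff₀ hDM).1 ((le_abs_self _).trans k1)
    refine (k1.trans (mul_le_mul_of_nonneg_left
      (mul_le_mul_of_nonneg_left j2 hC0.le) hDM.le)).trans ?_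
    rw [← mul_assoc, ← mul_assoc]
    exact mul_le_mul_of_nonneg_right ((le_max_right _ _).trans (le_max_right _ _)) hm.le

end Pool.Agent.Work.MP_5391ad_co
end

-- merged part: Pool.Agent.Work.MP_5391ad_co.CLima
section
/-! Auxiliary facts for the limit of the normalised volume. -/

namespace Pool.Agent.Work.MP_5391ad_co

open Real Finset Filter Topology

/-- pairs at distance one from the critical time -/
def clim_P : Type := {p : ℝ × ℕ // (p.2 : ℝ) + 1 = xc p.1⁻¹}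

/-- the filter of large pairs -/
def clim_F : Filter clim_P := comap (fun p => p.1.1) atTop

theorem clim_ev {Q : ℝ → ℕ → Prop} : (∀ᶠ p in clim_F, Q p.1.1 p.1.2) ↔
    ∀ᶠ L : ℝ in atTop, ∀ B : ℕ, (B : ℝ) + 1 = xc L⁻¹ → Q L B := by
  rw [clim_F, eventually_comap]
  refine ⟨fun h => h.mono fun L hL B hB => hL ⟨(L, B), hB⟩ rfl, fun h => h.mono ?_⟩
  rintro L hL ⟨⟨L', B⟩, hB⟩ rfl
  exact hL B hB

theorem clim_ne : clim_F.NeBot := by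
  refine comap_neBot fun s hs => ?_
  obtain ⟨L0, h0⟩ := mem_atTop_sets.1 hs
  obtain ⟨L, h1, h2⟩ := exists_xc (L0 := max L0 1) (x := (⌈xc (max L0 1)⁻¹⌉₊ : ℝ) + 1)
    (le_max_right _ _) ((Nat.le_ceil _).trans (by linarith only []))
  exact ⟨⟨(L, _), h2.symm⟩, h0 L ((le_max_left _ _).trans h1)⟩

theorem clim_tend {G : ℝ → ℕ → ℝ} {c : ℝ} :
    Tendsto (fun p : clim_P => G p.1.1 p.1.2) clim_F (𝓝 c) ↔ ∀ ζ : ℝ, 0 < ζ →
      ∀ᶠ L : ℝ in atTop, ∀ B : ℕ, (B : ℝ) + 1 = xc L⁻¹ → |G L B - c| ≤ ζ := by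
  rw [Metric.tendsto_nhds]
  constructor
  · intro h ζ hζ
    refine (clim_ev (Q := fun L B => |G L B - c| ≤ ζ)).1 ((h ζ hζ).mono fun p hp => ?_)
    rw [Real.dist_eq] at hp
    exact hp.le
  · intro h ζ hζ
    refine ((clim_ev (Q := fun L B => |G L B - c| ≤ ζ / 2)).2 (h _ (half_pos hζ))).mono
      fun p hp => ?_
    rw [Real.dist_eq]
    linarith only [hζ, hp]

theorem clim_gap {L : ℝ} {B : ℕ} (h : (B : ℝ) + 1 = xc L⁻¹) : Gap L B :=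
  ⟨by linarith only [h], by linarith only [h]⟩

theorem clim_B : ∀ᶠ L : ℝ in atTop, 1 < L ∧ ∀ B : ℕ, Gap L B → 1 ≤ B ∧ (B : ℝ) < xc L⁻¹ := by
  filter_upwards [eventually_ge_atTop (3 : ℝ), tendsto_log_atTop.eventually_ge_atTop 2] with
    L h1 h2
  refine ⟨by linarith only [h1], fun B hB => ⟨?_, by linarith only [hB, hB.1]⟩⟩
  have h3 := hB.2
  rw [xc_inv (by linarith)] at h3
  have h4 : (1 : ℝ) ≤ B := by linarith only [h1, h2, h3, mul_nonneg_of_nonpos_of_nonpos (Mathlib.Tactic.Linarith.sub_nonpos_of_le h1) (Mathlib.Tactic.Linarith.sub_nonpos_of_le h2)]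
  exact_mod_cast h4

theorem clim_log {u ω : ℝ} (hu : 0 < u) (hω : 0 < ω) : ∃ ζ : ℝ, 0 < ζ ∧ ∀ x, |x - u| ≤ ζ →
    0 < x ∧ |log x - log u| ≤ ω := by
  obtain ⟨d, hd, h⟩ := Metric.continuousAt_iff.1 (continuousAt_log hu.ne') ω hω
  refine ⟨min (d / 2) (u / 2), by positivity, fun x hx => ⟨?_, ?_⟩⟩
  · have := (abs_le.1 (hx.trans (min_le_right _ _))).1
    linarith only [hu, this]
  · have h1 := hx.trans (min_le_left _ _)
    have h2 := h (x := x) (by rw [Real.dist_eq]; linarith only [hd, h1])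
    rw [Real.dist_eq] at h2
    exact h2.le

theorem clim_small {C z p : ℝ} (hz : 0 < z) (hp : 0 < p) :
    ∀ᶠ x : ℝ in atTop, C * x ^ (-p) ≤ z := by
  have h := (tendsto_rpow_neg_atTop hp).const_mul C
  rw [mul_zero] at h
  exact h.eventually_le_const hz

theorem clim_cmp {r V Φ g : ℕ → ℝ} {n1 T : ℕ} {m z Ct : ℝ}
    (hr : ∀ j < T, 0 ≤ r (n1 + j) ∧ r (n1 + j) ≤ 1) (hV : Bdd V) (hΦ : Bdd Φ) (hm : 0 < m)
    (hz : 0 < z) (h : ∀ q, |V q - m * Φ q| ≤ z * m * g q)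
    (hc : ∀ f : ℕ → ℝ, (∀ q, |f q| ≤ g q) →
      |Sol r n1 f T 1| ≤ Ct * Sol r n1 (fun q => m⁻¹ * V q + 0 * V q) T 1) :
    |Sol r n1 V T 1 - m * Sol r n1 Φ T 1| ≤ z * Ct * Sol r n1 V T 1 := by
  have hzm := mul_pos hz hm
  have e : ∀ x y : ℝ, (z * m)⁻¹ * x + -z⁻¹ * y = (x - m * y) / (z * m) := fun x y => by
    field_simp
    ring
  have h1 := hc (fun q => (z * m)⁻¹ * V q + -z⁻¹ * Φ q) fun q => by
    rw [e, abs_div, abs_of_pos hzm, div_le_iff₀ hzm]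
    linarith [h q]
  rw [Sol_lin hr hV hΦ, Sol_lin hr hV hV, e, abs_div, abs_of_pos hzm, div_le_iff₀ hzm] at h1
  refine h1.trans (le_of_eq ?_)
  field_simp
  ring

theorem clim_two {W m E E0 η η0 φ g C : ℝ} (hm : 0 < m) (hE : 0 ≤ E) (hE0 : E ≤ E0) (h1 : E0 ≤ 1)
    (hη : 0 ≤ η) (hη0 : η ≤ η0) (hφ : 0 ≤ φ) (hg : 0 ≤ g) (hC : φ ≤ C * g)
    (hu : W ≤ m * exp E * (φ + η * g)) (hl : m * exp (-E) * (φ - η * g) ≤ W) :
    |W - m * φ| ≤ (2 * C * E0 + 3 * η0) * m * g := by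
  have a1 : exp E ≤ 1 + 2 * E := by
    have := (abs_le.1 (abs_exp_sub_one_le (x := E) (by rw [abs_of_nonneg hE]; linarith only [hE0, h1]))).2
    rw [abs_of_nonneg hE] at this
    linarith
  have a2 : 1 - E ≤ exp (-E) := by linarith [add_one_le_exp (-E)]
  have a3 : exp (-E) ≤ 1 := exp_le_one_iff.2 (by linarith)
  have ηg := mul_nonneg hη hg
  have b1 : η * g ≤ η0 * g := mul_le_mul_of_nonneg_right hη0 hg
  have b2 : E * φ ≤ E0 * (C * g) := mul_le_mul hE0 hC hφ (by linarith)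
  have b3 := mul_nonneg hE hφ
  have c1 : exp E * (φ + η * g) ≤ φ + (2 * C * E0 + 3 * η0) * g := by
    clear * - E φ η g a1 hφ ηg C E0 η0 b1 b2 hE0 h1
    have := mul_le_mul_of_nonneg_right a1 (add_nonneg hφ ηg)
    linarith only [b1, b2, this, hE0, ηg, h1, mul_nonneg_of_nonpos_of_nonpos (Mathlib.Tactic.Linarith.sub_nonpos_of_le hE0) (Mathlib.Tactic.Linarith.sub_nonpos_of_le ηg), mul_nonneg_of_nonpos_of_nonpos (Mathlib.Tactic.Linarith.sub_nonpos_of_le h1) (Mathlib.Tactic.Linarith.sub_nonpos_of_le ηg)]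
  have c2 : φ - (2 * C * E0 + 3 * η0) * g ≤ exp (-E) * (φ - η * g) := by
    clear * - E φ a2 hφ η g a3 ηg C E0 η0 b1 b2 b3
    have d1 := mul_le_mul_of_nonneg_right a2 hφ
    have d2 := mul_le_mul_of_nonneg_right a3 ηg
    linarith only [ηg, b1, b2, b3, d1, d2]
  have d1 := mul_le_mul_of_nonneg_left c1 hm.le
  have d2 := mul_le_mul_of_nonneg_left c2 hm.le
  rw [abs_le]
  constructor <;> linarith only [hl, d2, hu, d1]

theorem clim_fin {G P s P0 S z C0 ω ζ : ℝ} (h0 : 0 ≤ G) (h1 : G ≤ C0) (hz0 : 0 ≤ z) (hz : z ≤ 1)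
    (hG : |G - P * s| ≤ z * G) (hP : 0 < P) (hP0 : 0 < P0) (hl : |log P - log P0| ≤ ω)
    (hω : ω ≤ 1) (hs : |s - S| ≤ ζ) : |G - P0 * S| ≤ z * C0 + 4 * C0 * ω + P0 * ζ := by
  have a1 : |P * s| ≤ 2 * C0 := by
    clear * - z G P s hG C0 h0 h1 hz
    have := abs_le.1 hG
    rw [abs_le]
    constructor <;> linarith only [h0, h1, this, hz, mul_nonneg_of_nonpos_of_nonpos (Mathlib.Tactic.Linarith.sub_nonpos_of_le h0) (Mathlib.Tactic.Linarith.sub_nonpos_of_le hz)]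
  have a2 : P0 = P * exp (log P0 - log P) := by
    rw [exp_sub, exp_log hP, exp_log hP0]
    field_simp
  rw [abs_sub_comm] at hl
  have a3 := abs_exp_sub_one_le (x := log P0 - log P) (hl.trans hω)
  have a4 : |P0 * s - P * s| ≤ 4 * C0 * ω := by
    have : P0 * s - P * s = P * s * (exp (log P0 - log P) - 1) := by
      nth_rewrite 1 [a2]
      ring
    rw [this, abs_mul]
    have := mul_le_mul a1 (a3.trans (by linarith only [hl] : _ ≤ 2 * ω)) (abs_nonneg _) (by linarith)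
    linarith only [this]
  have a5 : |P0 * s - P0 * S| ≤ P0 * ζ := by
    rw [← mul_sub, abs_mul, abs_of_pos hP0]
    exact mul_le_mul_of_nonneg_left hs hP0.le
  have a6 : z * G ≤ z * C0 := mul_le_mul_of_nonneg_left h1 hz0
  have b1 := abs_le.1 hG
  have b2 := abs_le.1 a4
  have b3 := abs_le.1 a5
  rw [abs_le]
  constructor <;> linarith only [a6, b1, b2, b3]

theorem clim_logP {L x Λ s A R1 R0 b0 b1 σ u b ρ l k z : ℝ} (hL : 1 < L) (hσ : 0 < σ)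
    (hx : 0 < x) (hR1 : 0 < R1) (hR0 : 0 < R0) (hb0 : 0 < b0) (hb1 : 0 < b1)
    (h0 : |Λ - (-s - log (R1 / R0) / 6 - log (b0 / b1) / 2)| ≤ k)
    (h1 : |log x - log u| ≤ z) (h2 : |log b0 - log b| ≤ z)
    (h3 : |s - (kappa * L ^ (1 / 3 : ℝ) - A)| ≤ 2 * z) (h4 : |log (L * R1) - log 1| ≤ z)
    (h5 : |log (√L * R0) - log ρ| ≤ z) (h6 : |log (√L * b1) - log l| ≤ z)
    (h7 : |log (σ / log L) - log (1 / 2)| ≤ z) :
    |log (x / b0 * exp Λ * ((√L)⁻¹ / σ ^ (3 / 2 : ℝ)) / mainS L) -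
      log (exp (log u - 3 / 2 * log b + A + log ρ / 6 + log l / 2 - 3 / 2 * log (1 / 2)))| ≤
        k + 7 * z := by
  have L0 : 0 < L := by linarith only [hL]
  have l0 : 0 < log L := log_pos hL
  have s0 : 0 < √L := sqrt_pos.2 L0
  have p1 := rpow_pos_of_pos hσ (3 / 2)
  have p2 := rpow_pos_of_pos L0 (-(2 / 3))
  have p3 := rpow_pos_of_pos l0 (-(3 / 2))
  rw [log_div hR1.ne' hR0.ne', log_div hb0.ne' hb1.ne'] at h0
  rw [log_mul L0.ne' hR1.ne', log_one] at h4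
  rw [log_mul s0.ne' hR0.ne', log_sqrt L0.le] at h5
  rw [log_mul s0.ne' hb1.ne', log_sqrt L0.le] at h6
  rw [log_div hσ.ne' l0.ne'] at h7
  rw [log_exp, mainS, log_div (by positivity) (by positivity), log_mul (by positivity)
    (by positivity), log_mul (by positivity) (by positivity), log_div hx.ne' hb0.ne', log_exp,
    log_div (by positivity) p1.ne', log_inv, log_sqrt L0.le, log_rpow hσ,
    log_mul (by positivity) p3.ne', log_mul (by positivity) p2.ne', log_exp, log_rpow L0,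
    log_rpow l0]
  rw [abs_le] at *
  constructor <;> linarith only [h0, h1, h2, h3, h4, h5, h6, h7, h0.1, h0.2, h1.1, h1.2, h2.1, h2.2, h3.1, h3.2, h4.1, h4.2, h5.1,
    h5.2, h6.1, h6.2, h7.1, h7.2]

theorem clim_U {r : ℕ → ℝ} (hr : ∀ n, 0 < r n ∧ r n ≤ 1) (q0 n : ℕ) :
    Bdd (Sol r 0 (dl q0) n) ∧ ∀ q, 0 ≤ Sol r 0 (dl q0) n q := by
  have h1 : ∀ q, |dl q0 q| ≤ 1 := fun q => by
    unfold dl
    split_ifs <;> simp
  have h2 : ∀ q, |dl q0 q| ≤ dl q0 q := fun q => by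
    unfold dl
    split_ifs <;> simp
  exact ⟨⟨1, Sol_bdd (fun j _ => ⟨(hr _).1.le, (hr _).2⟩) h1⟩, fun q => (abs_nonneg _).trans
    (Sol_mono (fun j _ => ⟨(hr _).1.le, le_rfl, (hr _).2⟩) ⟨1, h1⟩ ⟨1, h1⟩ h2 q)⟩

theorem clim_add (r f : ℕ → ℝ) {n m : ℕ} (h : n ≤ m) :
    Sol r n (Sol r 0 f n) (m - n) = Sol r 0 f m := by
  have := Sol_add r 0 f n (m - n)
  rw [zero_add, Nat.add_sub_cancel' h] at this
  exact this.symm

theorem clim_ratio {C L R0 R1 D z : ℝ} {n0 s1 : ℕ} (hC : 1 ≤ C) (hL : 0 < L) (h0 : 1 ≤ n0)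
    (h1 : 1 ≤ s1) (hD : 0 ≤ D) (ha : C⁻¹ ≤ √L * √((n0 - 1 : ℕ) + 1) * R0)
    (hb : √L * √((s1 - 1 : ℕ) + 1) * R1 ≤ C)
    (hz : D * C ^ 2 * √n0 * (s1 : ℝ) ^ (-(1 / 2) : ℝ) ≤ z) : D * (R1 / R0) ≤ z := by
  have e : ∀ n : ℕ, 1 ≤ n → ((n - 1 : ℕ) : ℝ) + 1 = n := fun n hn => by
    rw [Nat.cast_sub hn]; simp
  rw [e _ h0] at ha
  rw [e _ h1] at hb
  have s0 : 0 < √L := sqrt_pos.2 hL
  have a0 : 0 < √(n0 : ℝ) := sqrt_pos.2 (by exact_mod_cast h0)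
  have b0 : 0 < √(s1 : ℝ) := sqrt_pos.2 (by exact_mod_cast h1)
  have C0 : 0 < C := by linarith only [hC]
  rw [rpow_neg (Nat.cast_nonneg _), ← sqrt_eq_rpow] at hz
  have a1 : C⁻¹ / (√L * √n0) ≤ R0 := by rw [div_le_iff₀ (by positivity)]; linarith only [ha]
  have b1 : R1 ≤ C / (√L * √s1) := by rw [le_div_iff₀ (by positivity)]; linarith only [hb]
  have c1 : R1 / R0 ≤ C / (√L * √s1) / (C⁻¹ / (√L * √n0)) :=
    div_le_div₀ (by positivity) b1 (by positivity) a1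
  refine (mul_le_mul_of_nonneg_left c1 hD).trans (le_of_eq_of_le ?_ hz)
  field_simp

theorem clim_shape : ∃ C z0 : ℝ, 1 ≤ C ∧ 0 < z0 ∧ ∀ (z c2 : ℝ), 0 < z → z ≤ z0 →
    ∃ (s1 : ℕ) (c : ℝ), 1 ≤ s1 ∧ kap0 * (s1 : ℝ) ^ (-(2 / 3) : ℝ) ≤ z ∧ c2 ≤ c ∧ 1 ≤ c ∧
    ∀ᶠ L : ℝ in atTop, ∀ B n1 : ℕ, Gap L B → L ≤ n1 → n1 < B →
      c / √L ≤ tau L⁻¹ ((B : ℝ) - n1) →
      |lgL (bet L⁻¹ B) (ap3 L⁻¹ B) s1 n1 - (-(kap0 * sS (bet L⁻¹ B) s1 n1) -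
        log (rate L⁻¹ 0 B (n1 - 1) / rate L⁻¹ 0 B (s1 - 1)) / 6 -
        log (bet L⁻¹ B s1 / bet L⁻¹ B n1) / 2)| ≤ C * z ∧ ∀ q : ℕ,
      |Sol (rs L⁻¹ B) 0 (dl 1) n1 q - Sol (rs L⁻¹ B) 0 (dl 1) s1 1 / bet L⁻¹ B s1 *
        exp (lgL (bet L⁻¹ B) (ap3 L⁻¹ B) s1 n1) * phi (bet L⁻¹ B n1 * q)| ≤
        C * z * (Sol (rs L⁻¹ B) 0 (dl 1) s1 1 / bet L⁻¹ B s1 *
          exp (lgL (bet L⁻¹ B) (ap3 L⁻¹ B) s1 n1)) * gc (bet L⁻¹ B n1 * q) := by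
  obtain ⟨K, hK, hadm⟩ := adm3_rs
  obtain ⟨Cm, am, ηm, hCm, ham, hηm, -, hmix⟩ := mix_end hK
  obtain ⟨Cp, ap, ηp, hCp, hap, -, hap2, hηp, hηp1, hprop⟩ := prop_both hK
  obtain ⟨Cφ, hCφ, hφ⟩ := phi_le_gc
  obtain ⟨Cr, hCr, hsm⟩ := rate_small
  obtain ⟨Cθ, hCθ, hθ⟩ := rate_theta
  obtain ⟨s0, c0, hs0, hc0, hadm⟩ := hadm (min am ap) (lt_min ham hap)
  obtain ⟨se, hend⟩ := end_data hηm
  have CC : 1 ≤ Cp * Cm := one_le_mul_of_one_le_of_one_le hCp hCm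
  refine ⟨K + (2 * Cφ + 3) * (6 * (Cp * Cm)), ηp / (6 * (Cp * Cm)), by clear * - K Cφ Cp Cm ap hK hap2 hCφ CC hap ηp; (refine le_of_not_gt fun h_nl => ?_; linarith only [h_nl, hK, hap2, hCφ, CC, hap, mul_pos_of_neg_of_neg (Mathlib.Tactic.Linarith.sub_neg_of_lt hap) (Mathlib.Tactic.Linarith.sub_neg_of_lt hap), mul_nonneg_of_nonpos_of_nonpos (le_of_lt (Mathlib.Tactic.Linarith.sub_neg_of_lt hap)) (Mathlib.Tactic.Linarith.sub_nonpos_of_le hap2), mul_pos_of_neg_of_neg (Mathlib.Tactic.Linarith.sub_neg_of_lt hap) (Mathlib.Tactic.Linarith.sub_neg_of_lt h_nl), mul_nonneg_of_nonpos_of_nonpos (Mathlib.Tactic.Linarith.sub_nonpos_of_le hap2) (le_of_lt (Mathlib.Tactic.Linarith.sub_neg_of_lt h_nl)), mul_nonneg_of_nonpos_of_nonpos (Mathlib.Tactic.Linarith.sub_nonpos_of_le hCφ) (Mathlib.Tactic.Linarith.sub_nonpos_of_le CC)]), by positivity,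
    fun z c2 hz hz0 => ?_⟩
  rw [le_div_iff₀ (by positivity)] at hz0
  obtain ⟨n0, hn1, hn2, hn3⟩ := ((tendsto_natCast_atTop_atTop.eventually
    (clim_small (C := Cr) (p := 1 / 3) (half_pos hz) (by norm_num))).and
    ((eventually_ge_atTop s0).and (eventually_ge_atTop se))).exists
  obtain ⟨c, hc1, hc2, hc3⟩ := ((clim_small (C := Cr) (p := 2 / 3) (half_pos hz) (by norm_num)).and
    ((eventually_ge_atTop c0).and (eventually_ge_atTop c2))).exists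
  obtain ⟨M, D, hM, hD, hend⟩ := hend n0 hn3
  obtain ⟨s1, hs1, hs2, hs3⟩ := ((tendsto_natCast_atTop_atTop.eventually
    (clim_small (C := D * Cθ ^ 2 * √n0) (p := 1 / 2) hz (by norm_num))).and
    ((tendsto_natCast_atTop_atTop.eventually
      (clim_small (C := kap0) (p := 2 / 3) hz (by norm_num))).and (eventually_ge_atTop n0))).exists
  refine ⟨s1, c, by omega, hs2, hc3, hc0.trans hc2, ?_⟩
  filter_upwards [hadm, hθ, hend, clim_B, eventually_ge_atTop (s1 : ℝ)] with L hadm hθ hend hB hL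
    B n1 hG h1 h2 h3
  obtain ⟨L1, hB⟩ := hB
  obtain ⟨B1, hB⟩ := hB B hG
  have L0 : 0 < L := by clear * - L ap hap hap2 L1; linarith only [hap, hap2, L1]
  have t0 : 0 < L⁻¹ := inv_pos.2 L0
  have hsn : s1 ≤ n1 := by exact_mod_cast hL.trans h1
  have A := hadm B n0 n1 hB hn2 (hs3.trans hsn) h2
    ((div_le_div_of_nonneg_right hc2 (sqrt_nonneg _)).trans h3)
  have hr := rs_mem t0 B1 hB
  obtain ⟨e1, e2⟩ := hsm L c B n0 n1 L1.le (hc0.trans hc2) hB (by omega) (hs3.trans hsn) h3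
  have ez : Cr * ((n0 : ℝ) ^ (-(1 / 3) : ℝ) + c ^ (-(2 / 3) : ℝ)) ≤ z := by clear * - Cr n0 c z hn1 hc1; linarith only [hn1, hc1]
  have a1 := (e2 n0 le_rfl (hs3.trans hsn)).trans ez
  have a2 := (e2 s1 hs3 hsn).trans ez
  have a3 := (e2 n1 (hs3.trans hsn) le_rfl).trans ez
  have sE0 : ∀ m0 m1, n0 ≤ m0 → m1 ≤ n1 → 0 ≤ sE (bet L⁻¹ B) (ap3 L⁻¹ B) m0 m1 ∧
      sE (bet L⁻¹ B) (ap3 L⁻¹ B) m0 m1 ≤ z := fun m0 m1 k0 k1 =>
    ⟨sum_nonneg fun n _ => by positivity, le_trans (sum_le_sum_of_subset_of_nonneg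
      (Ioc_subset_Ioc k0 k1) fun n _ _ => by positivity) (e1.trans ez)⟩
  have le1 : ∀ n : ℕ, n ≤ s1 → ((n - 1 : ℕ) : ℝ) ≤ L := fun n hn =>
    le_trans (by exact_mod_cast (by omega : n - 1 ≤ s1)) hL
  have a4 := clim_ratio hCθ L0 (show 1 ≤ n0 by omega) (show 1 ≤ s1 by omega) (by clear * - D ap hap hap2 hD B L0 hCθ hG hs1 hs3 hθ le1 n0 s1; linarith only [hap, hap2, hD])
    (hθ B (n0 - 1) hG (le1 _ hs3)).1 (hθ B (s1 - 1) hG (le1 _ le_rfl)).2.1 hs1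
  rw [← prod_rs t0 hB (by omega) hs3 (by omega)] at a4
  obtain ⟨d1, d2, -⟩ := hend B hG
  obtain ⟨u1, u2⟩ := clim_U hr 1 n0
  have u0 : Sol (rs L⁻¹ B) 0 (dl 1) n0 0 = 0 := by
    obtain ⟨k, rfl⟩ : ∃ k, n0 = k + 1 := ⟨n0 - 1, by omega⟩
    rfl
  have zz : 4 * (Cm * z) ≤ ηp := by clear * - Cm z ηp Cp hz0 ap hCm hap hap2 hz hCp hηp; (refine le_of_not_gt fun h_nl => ?_; linarith only [h_nl, hz0, hCm, hap, hap2, hz, hCp, hηp, mul_pos (by clear * - Cm ap hCm hap hap2 hz z ηp; linarith : 0 < Cm) hz, mul_nonneg_of_nonpos_of_nonpos (Mathlib.Tactic.Linarith.sub_nonpos_of_le hCp) (le_of_lt (Mathlib.Tactic.Linarith.sub_neg_of_lt hηp)), mul_nonneg_of_nonpos_of_nonpos (Mathlib.Tactic.Linarith.sub_nonpos_of_le hCp) (le_of_lt (Mathlib.Tactic.Linarith.sub_neg_of_lt h_nl))])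
  obtain ⟨m1, m2⟩ := hmix _ _ _ n0 s1 _ M D (4 * z)
    ((A.sub le_rfl hs3 hsn).mono (min_le_left _ _)) hM hD u1 u0 u2 d1 d2
    (by clear * - L B n0 s1 D z a1 a2 a4 sE0 hsn; linarith only [a1, a2, a4, sE0, hsn, (sE0 n0 s1 le_rfl hsn).2]) (by clear * - Cm z ηp hηp1 zz hsn n0 s1 sE0; linarith)
  rw [clim_add _ _ hs3] at m1 m2
  have A1 := (A.sub hs3 hsn le_rfl).mono (min_le_right _ _)
  obtain ⟨b1, b2, -⟩ := A1.pt s1 le_rfl hsn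
  obtain ⟨b3, b4, -⟩ := A1.pt n1 hsn le_rfl
  set c1 := Sol (rs L⁻¹ B) 0 (dl 1) s1 1 / bet L⁻¹ B s1 with hc1'
  have c10 : 0 < c1 := div_pos m1 b1
  obtain ⟨v1, v2⟩ := clim_U hr 1 s1
  have Cz : 0 < Cm * z := by positivity
  obtain ⟨p1, p2⟩ := hprop _ _ _ s1 n1 (Sol (rs L⁻¹ B) 0 (dl 1) s1) c1 (Cm * (4 * z)) A1 c10.le
    (by clear * - Cm z Cz; linarith) (by clear * - Cm z ηp zz; linarith)
  have p3 := p1 fun q => by
    clear * - L B s1 q c1 Cm z m2 v2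
    have := (abs_le.1 (m2 q)).2
    rw [abs_of_nonneg (v2 q)]
    linarith only [this]
  have p4 := p2 v1 v2 fun q => by
    clear * - Cm z c1 L B s1 q m2
    have := (abs_le.1 (m2 q)).1
    linarith only [this]
  rw [clim_add _ _ hsn] at p3 p4
  obtain ⟨f1, f2⟩ := sE0 s1 n1 hs3 le_rfl
  have zm : z ≤ Cm * z := by clear * - z Cm hCm hz; nlinarith
  refine ⟨?_, fun q => ?_⟩
  · have k1 := lgL_eq hK hap2 A1
    rw [prod_rs t0 hB (by omega) hsn h2.le] at k1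
    have k2 := mul_le_mul_of_nonneg_left f2 hK
    have k3 : 0 ≤ (2 * Cφ + 3) * (6 * (Cp * Cm)) * z := by positivity
    clear * - L B s1 n1 K Cφ Cp Cm z k1 k2 k3
    linarith only [k1, k2, k3]
  have x0 : 0 ≤ bet L⁻¹ B n1 * q := by positivity
  have g0 := (gc_basic.2.2 _ x0).1
  have x1 : exp (-sS (bet L⁻¹ B) s1 n1) ≤ 1 :=
    exp_le_one_iff.2 (neg_nonpos.2 (sum_nonneg fun n _ => by positivity))
  have x2 := exp_pos (-sS (bet L⁻¹ B) s1 n1)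
  have x3 : 0 ≤ Cm * (4 * z) + ap3 L⁻¹ B s1 := by clear * - Cm z L B s1 b1 b2 Cz; linarith only [b1, b2, Cz]
  have x4 := mul_le_mul_of_nonneg_left x1 x3
  have k := clim_two (W := Sol (rs L⁻¹ B) 0 (dl 1) n1 q)
    (m := c1 * exp (lgL (bet L⁻¹ B) (ap3 L⁻¹ B) s1 n1))
    (E := Cp * (Cm * (4 * z) + ap3 L⁻¹ B s1 + sE (bet L⁻¹ B) (ap3 L⁻¹ B) s1 n1))
    (E0 := Cp * (6 * (Cm * z))) (η0 := Cp * (6 * (Cm * z)))
    (η := Cp * ((Cm * (4 * z) + ap3 L⁻¹ B s1) * exp (-sS (bet L⁻¹ B) s1 n1) + ap3 L⁻¹ B n1))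
    (by positivity) (mul_nonneg (by clear * - Cp ηp Cm z hCp hηp1 zz Cz; linarith) (by clear * - Cm z L B s1 n1 b1 b2 Cz f1; linarith only [b1, b2, Cz, f1]))
    (mul_le_mul_of_nonneg_left (by clear * - Cm z L B s1 n1 a2 f2 zm; linarith only [a2, f2, zm]) (by clear * - Cp ηp Cm z hCp hηp1 zz Cz; linarith)) (by clear * - Cp Cm z ηp hηp1 hz0; linarith)
    (mul_nonneg (by clear * - Cp ηp Cm z hCp hηp1 zz Cz x2 x3; linarith only [hCp, hηp1, zz, Cz]) (add_nonneg (mul_nonneg x3 x2.le) (by clear * - L B n1 b3 b4 x2 x3; linarith only [b3, b4])))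
    (mul_le_mul_of_nonneg_left (by clear * - Cm z L B s1 n1 a2 a3 zm x4 g0 hφ x0; linarith only [a2, a3, zm, x4]) (by clear * - Cp ηp Cm z hCp hηp1 zz Cz g0 hφ x0; linarith only [hCp, hηp1, zz, Cz])) (hφ _ x0).1 g0 (hφ _ x0).2.1
    (by
      have := (le_abs_self _).trans (p3 q)
      rwa [exp_add, ← mul_assoc] at this)
    (by
      have := p4 q
      rwa [sub_eq_add_neg (lgL _ _ _ _), exp_add, ← mul_assoc] at this)
  refine k.trans (mul_le_mul_of_nonneg_right (mul_le_mul_of_nonneg_right ?_ (by positivity)) g0)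
  clear * - Cφ Cp Cm z K hK hz
  nlinarith [mul_nonneg hK hz.le]

end Pool.Agent.Work.MP_5391ad_co
end
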