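import Pool.Agent.Work.MP_5391ad_co.TVal
import Pool.Agent.Work.MP_5391ad_co.BSum
import Pool.Agent.Work.MP_5391ad_co.SPar
import Pool.Agent.Work.MP_5391ad_co.ZFin

-- merged part: Pool.Agent.Work.MP_5391ad_co.SWin
section
/-! The window lemma. Write `n = card α`, `τ i = τ0 + 6 w i` and, for a matrix `A`,
`X i = |rts univ A (τ i)| |rts univ (rv A) (τ i)|`, so `1 ≤ X 0` and `X M ≤ n^2`.
`win_level`: if `X (i+1) > q X i` for all `i < M` then `X M > q^M X 0`.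
With `q = n^(2/M)` (`q^M = n^2`) every `A ∈ Bad` has a level `i < M` with `X (i+1) ≤ q X i`.
Fix `i`, `τ = τ i`. By `sum_wt_eq` (frames exist by `FIr.exists_frame`; `π ∈ frames univ A r c`
means `π c = r` and `Frame A π c`), `1 = ∑ wt univ A τ (π s) s` over the central `(π, s)`. With
`D = dig A π` the matrix `fun a b => A (π a) b` is `matV univ D s`, so by `wt_perm`,
`card_rts_perm`, `rts_rv_perm` and `Cmp` the weight is at most
`q (x+1)^2 wt V' (matV V' D' s) (τ + 3 w) s s`; the frames of `matV V' D' s` contain `1` and its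
root sets contain `s`, so this weight is a genuine inverse. `A` is determined by `(π, s, D)`.
Hence the number of such `A` is at most
`n! q ∑ i, (x i + 1)^2 ∑ V', ∑ s ∈ V', ∑ D' (Cen), #{D | Sur i s D V' D'} wt'`; use `hc`,
`norm_le`, and `n! C(n,k) k! / (n-k)! = (n.descFactorial k)^2`. -/

namespace Pool.Agent.Work.MP_5391ad_co

open Finset
open scoped Classical

variable {α : Type*} [Fintype α]

theorem win_level {X : ℕ → ℝ} {q : ℝ} {M : ℕ} (hq : 0 ≤ q) (h0 : 1 ≤ X 0) (hM : X M ≤ q ^ M)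
    (hM0 : 0 < M) : ∃ i < M, X (i + 1) ≤ q * X i := by
  by_contra h
  push Not at h
  have key : ∀ i, i < M → q ^ (i + 1) < X (i + 1) := by
    intro i
    induction i with
    | zero =>
      intro hi
      have h1 := h 0 hi
      have h2 := mul_le_mul_of_nonneg_left h0 hq
      rw [zero_add, pow_one]
      rw [zero_add] at h1
      linarith only [h1, h2]
    | succ i ih =>
      intro hi
      have h1 := h (i + 1) hi
      have h2 := mul_le_mul_of_nonneg_left (ih (by omega)).le hq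
      rw [pow_succ']
      linarith only [h1, h2]
  obtain ⟨m, rfl⟩ : ∃ m, M = m + 1 := ⟨M - 1, by omega⟩
  linarith only [hM, key, key m (by omega)]

theorem swin_wt {A D' : α → α → Prop} {π : Equiv.Perm α} {s : α} {V' : Finset α} {τ w x : ℕ}
    {q : ℝ} (hq : 0 ≤ q) (h1 : ∀ a b, A (π a) b ↔ matV univ (dig A π) s a b)
    (hr : π s ∈ rts univ A τ) (hs : s ∈ rts univ (rv A) τ) (hf : π ∈ frames univ A (π s) s)
    (hc : Cmp (dig A π) V' D' s τ w x)
    (hX : ((rts univ A (τ + 6 * w)).card : ℝ) * (rts univ (rv A) (τ + 6 * w)).card ≤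
      q * ((rts univ A τ).card * (rts univ (rv A) τ).card)) :
    wt univ A τ (π s) s ≤ q * (((x : ℝ) + 1) ^ 2 * wt V' (matV V' D' s) (τ + 3 * w) s s) := by
  have e : matV univ (dig A π) s = fun a b => A (π a) b :=
    funext fun a => funext fun b => propext (h1 a b).symm
  have hπ : π ∈ pV (univ : Finset α) := by simp [pV]
  have c1 := hc.row
  have c2 := hc.col
  have c3 := hc.fr
  rw [e, card_rts_perm hπ] at c1
  rw [e, rts_rv_perm hπ] at c2
  rw [e, card_frames_perm hπ] at c3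
  have p1 : 0 < (rts V' (matV V' D' s) (τ + 3 * w)).card := card_pos.2 ⟨_, hc.cen.row⟩
  have p2 : 0 < (rts V' (rv (matV V' D' s)) (τ + 3 * w)).card := card_pos.2 ⟨_, hc.cen.col⟩
  have p3 : 0 < (frames V' (matV V' D' s) s s).card := by
    refine card_pos.2 ⟨1, mem_filter.2 ⟨mem_filter.2 ⟨mem_univ _, fun _ _ => rfl⟩, rfl, ?_⟩⟩
    exact fun j hj hjs => Or.inr ⟨rfl, hj, hjs⟩
  have p4 : 0 < (rts univ A τ).card := card_pos.2 ⟨_, hr⟩
  have p5 : 0 < (rts univ (rv A) τ).card := card_pos.2 ⟨_, hs⟩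
  have p6 : 0 < (frames univ A (π s) s).card := card_pos.2 ⟨_, hf⟩
  rw [wt, wt]
  generalize (rts V' (matV V' D' s) (τ + 3 * w)).card = a' at *
  generalize (rts V' (rv (matV V' D' s)) (τ + 3 * w)).card = b' at *
  generalize (frames V' (matV V' D' s) s s).card = f' at *
  generalize (rts univ A (τ + 6 * w)).card = a6 at *
  generalize (rts univ (rv A) (τ + 6 * w)).card = b6 at *
  generalize (rts univ A τ).card = a at *
  generalize (rts univ (rv A) τ).card = b at *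
  generalize (frames univ A (π s) s).card = f at *
  have d1 : (a' : ℝ) ≤ (x + 1) * a6 := by exact_mod_cast c1
  have d2 : (b' : ℝ) ≤ (x + 1) * b6 := by exact_mod_cast c2
  have d3 : (f' : ℝ) ≤ f := by exact_mod_cast c3
  rw [← mul_assoc, ← div_eq_mul_inv, inv_eq_one_div, div_le_div_iff₀ (by positivity) (by positivity)]
  calc (1 : ℝ) * (a' * b' * f') ≤ 1 * ((x + 1) * a6 * ((x + 1) * b6) * f) := by clear * - a' b' f' x a6 b6 f d1 d2 p2 d3 p3 a b q; gcongr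
    _ = ((x : ℝ) + 1) ^ 2 * (a6 * b6) * f := by ring
    _ ≤ ((x : ℝ) + 1) ^ 2 * (q * (a * b)) * f := by gcongr
    _ = _ := by ring

theorem swin_one {A : α → α → Prop} {τ : ℕ} (h0 : FIr A) (h1 : (rts univ A τ).Nonempty)
    (h2 : (rts univ (rv A) τ).Nonempty) {g : Equiv.Perm α → α → ℝ} (hg : ∀ π s, 0 ≤ g π s)
    (h : ∀ π s, π s ∈ rts univ A τ → s ∈ rts univ (rv A) τ → π ∈ frames univ A (π s) s →
      wt univ A τ (π s) s ≤ g π s) : 1 ≤ ∑ s, ∑ π, g π s := by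
  have h3 : ∀ r c, (frames univ A r c).Nonempty := fun r c => by
    obtain ⟨π, e, hf⟩ := h0.exists_frame r c
    exact ⟨π, mem_filter.2 ⟨by simp [pV], e, fun j _ hj => hf j hj⟩⟩
  rw [← sum_wt_eq h1 h2 h3, sum_comm]
  refine le_trans (sum_le_sum fun c hc => ?_) (sum_le_sum_of_subset_of_nonneg (subset_univ _)
    fun c _ _ => sum_nonneg fun π _ => hg π c)
  rw [← sum_fiberwise univ (fun π : Equiv.Perm α => π c) fun π => g π c]
  refine le_trans (sum_le_sum fun r hr => ?_) (sum_le_sum_of_subset_of_nonneg (subset_univ _)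
    fun r _ _ => sum_nonneg fun π _ => hg π c)
  refine le_trans (sum_le_sum fun π hπ => ?_) (sum_le_sum_of_subset_of_nonneg
    (fun π hπ => mem_filter.2 ⟨mem_univ _, (mem_filter.1 hπ).2.1⟩) fun π _ _ => hg π c)
  obtain rfl := (mem_filter.1 hπ).2.1
  exact h π c hr hc hπ

theorem swin_inj (B : Finset (α → α → Prop)) (π : Equiv.Perm α) (s : α)
    {F : (α → α → Prop) → ℝ} (hF : ∀ D, 0 ≤ F D) :
    ∑ A ∈ B, (if ∀ a b, A (π a) b ↔ matV univ (dig A π) s a b then F (dig A π) else 0) ≤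
      ∑ D, F D := by
  rw [← sum_filter, ← sum_image (f := F) (g := fun A => dig A π) fun A hA A' hA' e => ?_]
  · exact sum_le_sum_of_subset_of_nonneg (subset_univ _) fun D _ _ => hF D
  · funext a b
    obtain ⟨a, rfl⟩ := π.surjective a
    have e' : dig A π = dig A' π := e
    rw [eq_iff_iff, (mem_filter.1 hA).2, (mem_filter.1 hA').2, e']

theorem swin_sets (K : ℕ) (f : ℕ → ℝ) :
    ∑ V' ∈ (univ : Finset (Finset α)).filter (fun V' => V'ᶜ.card ∈ Icc 1 K), f V'ᶜ.card =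
      ∑ k ∈ Icc 1 K, ((Fintype.card α).choose k : ℝ) * f k := by
  rw [← sum_fiberwise_of_maps_to (t := Icc 1 K) (g := fun V' : Finset α => V'ᶜ.card)
    fun V' hV => (mem_filter.1 hV).2]
  refine sum_congr rfl fun k hk => ?_
  rw [sum_congr rfl fun V' hV => congrArg f (mem_filter.1 hV).2, sum_const, nsmul_eq_mul,
    ← card_univ, ← card_powersetCard]
  refine congrArg (fun n : ℕ => (n : ℝ) * f k) (card_bij (fun V' _ => V'ᶜ) (fun V' hV => ?_)
    (fun _ _ _ _ e => compl_injective e) fun W hW => ⟨Wᶜ, ?_, compl_compl W⟩)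
  · exact mem_powersetCard.2 ⟨subset_univ _, (mem_filter.1 hV).2⟩
  · have := (mem_powersetCard.1 hW).2
    refine mem_filter.2 ⟨mem_filter.2 ⟨mem_univ _, ?_⟩, ?_⟩ <;> rw [compl_compl, this]
    exact hk

theorem swin_norm {V' : Finset α} (hV : V'ᶜ.card + 2 ≤ Fintype.card α) (τ : ℕ) :
    ∑ s, ∑ D ∈ univ.filter (fun D : α → α → Prop => Cen V' D s τ), wt V' (matV V' D s) τ s s ≤
      numND (Fintype.card α - V'ᶜ.card) / (Fintype.card α - V'ᶜ.card).factorial := by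
  have e : Fintype.card α - V'ᶜ.card = V'.card := by
    have := card_add_card_compl V'
    omega
  rw [e, le_div_iff₀' (by positivity), ← sum_subset (subset_univ V') fun s _ hs =>
    sum_eq_zero fun D hD => absurd (mem_filter.1 hD).2.gr.root hs]
  exact norm_le (by omega) τ

theorem swin_level {ι : Type*} [Fintype ι] (B : Finset (α → α → Prop))
    (S : ι → α → (α → α → Prop) → Finset α → (α → α → Prop) → Prop) (x : ι → ℕ) (ψ : ι → ℝ)
    {y q : ℝ} {τ w K : ℕ} (hψ : ∀ i, 0 ≤ ψ i) (hy : 0 ≤ y) (hq : 0 ≤ q)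
    (hK : K + 2 ≤ Fintype.card α)
    (hA : ∀ A ∈ B, FIr A ∧ (rts univ A τ).Nonempty ∧ (rts univ (rv A) τ).Nonempty ∧
      (((rts univ A (τ + 6 * w)).card : ℝ) * (rts univ (rv A) (τ + 6 * w)).card ≤
        q * ((rts univ A τ).card * (rts univ (rv A) τ).card)) ∧
      ∀ (π : Equiv.Perm α) (s : α), π s ∈ rts univ A τ →
        s ∈ rts univ (rv A) τ → Frame A π s →
        (∀ a b, A (π a) b ↔ matV univ (dig A π) s a b) ∧ ∃ i V' D', S i s (dig A π) V' D' ∧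
          1 ≤ V'ᶜ.card ∧ V'ᶜ.card ≤ K ∧ Cmp (dig A π) V' D' s τ w (x i))
    (hc : ∀ i s (V' : Finset α) D', 1 ≤ V'ᶜ.card →
      ((univ.filter fun D => S i s D V' D').card : ℝ) ≤
        ψ i * (V'ᶜ.card.factorial * y ^ V'ᶜ.card)) :
    (B.card : ℝ) ≤ q * (∑ i, ((x i : ℝ) + 1) ^ 2 * ψ i) *
      ∑ k ∈ Icc 1 K, ((Fintype.card α).descFactorial k : ℝ) ^ 2 * y ^ k *
        numND (Fintype.card α - k) := by
  obtain ⟨T, hT⟩ : ∃ T, T = (univ : Finset (Finset α)).filter fun V' => V'ᶜ.card ∈ Icc 1 K :=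
    ⟨_, rfl⟩
  have hT' : ∀ V', V' ∈ T ↔ 1 ≤ V'ᶜ.card ∧ V'ᶜ.card ≤ K := fun V' => by
    rw [hT, mem_filter, mem_Icc, and_iff_right (mem_univ _)]
  obtain ⟨C, hC⟩ : ∃ C : Finset α → α → Finset (α → α → Prop),
      ∀ V' s, C V' s = univ.filter fun D => Cen V' D s (τ + 3 * w) := ⟨_, fun _ _ => rfl⟩
  obtain ⟨u, hu⟩ : ∃ u : Finset α → α → (α → α → Prop) → ℝ,
      ∀ V' s D', u V' s D' = wt V' (matV V' D' s) (τ + 3 * w) s s := ⟨_, fun _ _ _ => rfl⟩
  have u0 : ∀ V' s D', 0 ≤ u V' s D' := fun V' s D' => hu V' s D' ▸ wt_nonneg _ _ _ _ _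
  obtain ⟨G, hG⟩ : ∃ G : α → (α → α → Prop) → ι → Finset α → (α → α → Prop) → ℝ,
      ∀ s D i V' D', G s D i V' D' =
        if S i s D V' D' then ((x i : ℝ) + 1) ^ 2 * u V' s D' else 0 := ⟨_, fun _ _ _ _ _ => rfl⟩
  have G0 : ∀ s D i V' D', 0 ≤ G s D i V' D' := fun s D i V' D' => by
    rw [hG]
    have := u0 V' s D'
    positivity
  obtain ⟨F, hF⟩ : ∃ F : α → (α → α → Prop) → ℝ,
      ∀ s D, F s D = ∑ i, ∑ V' ∈ T, ∑ D' ∈ C V' s, G s D i V' D' := ⟨_, fun _ _ => rfl⟩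
  have F0 : ∀ s D, 0 ≤ F s D := fun s D => by
    rw [hF]
    exact sum_nonneg fun _ _ => sum_nonneg fun _ _ => sum_nonneg fun _ _ => G0 _ _ _ _ _
  have s1 : ∀ A ∈ B, (1 : ℝ) ≤ ∑ s, ∑ π : Equiv.Perm α,
      if ∀ a b, A (π a) b ↔ matV univ (dig A π) s a b then q * F s (dig A π) else 0 := by
    intro A hAB
    obtain ⟨h0, h1, h2, h3, h4⟩ := hA A hAB
    refine swin_one h0 h1 h2 (fun π s => ?_) fun π s hr hs hf => ?_
    · have := F0 s (dig A π)
      positivity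
    · obtain ⟨h5, i, V', D', h6, h7, h8, h9⟩ := h4 π s hr hs
        fun j hj => (mem_filter.1 hf).2.2 j (mem_univ j) hj
      rw [if_pos h5]
      refine (swin_wt hq h5 hr hs hf h9 h3).trans (mul_le_mul_of_nonneg_left ?_ hq)
      rw [hF]
      refine le_trans ?_ (single_le_sum (f := fun i => ∑ V' ∈ T, ∑ D' ∈ C V' s,
        G s (dig A π) i V' D') (fun _ _ => sum_nonneg fun _ _ => sum_nonneg fun _ _ =>
          G0 _ _ _ _ _) (mem_univ i))
      refine le_trans ?_ (single_le_sum (f := fun V' => ∑ D' ∈ C V' s, G s (dig A π) i V' D')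
        (fun _ _ => sum_nonneg fun _ _ => G0 _ _ _ _ _) (a := V') ((hT' V').2 ⟨h7, h8⟩))
      refine le_trans ?_ (single_le_sum (f := fun D' => G s (dig A π) i V' D')
        (fun _ _ => G0 _ _ _ _ _) (a := D') (hC V' s ▸ mem_filter.2 ⟨mem_univ _, h9.cen⟩))
      rw [hG, if_pos h6, hu]
  have s2 : (B.card : ℝ) ≤ (Fintype.card α).factorial * (q * ∑ s, ∑ D, F s D) := by
    calc (B.card : ℝ) = ∑ _A ∈ B, (1 : ℝ) := by rw [sum_const, nsmul_eq_mul, mul_one]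
      _ ≤ _ := sum_le_sum s1
      _ ≤ ∑ s, ∑ _π : Equiv.Perm α, ∑ D, q * F s D := by
        rw [sum_comm]
        refine sum_le_sum fun s _ => ?_
        rw [sum_comm]
        exact sum_le_sum fun π _ => swin_inj B π s (F := fun D => q * F s D)
          fun D => mul_nonneg hq (F0 s D)
      _ = _ := by
        simp only [sum_const, card_univ, Fintype.card_perm, nsmul_eq_mul, mul_sum]
  have s3 : ∀ s, ∑ D, F s D ≤ ∑ i, ∑ V' ∈ T, ((x i : ℝ) + 1) ^ 2 * ψ i *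
      (V'ᶜ.card.factorial * y ^ V'ᶜ.card * ∑ D' ∈ C V' s, u V' s D') := fun s => by
    simp only [hF]
    rw [sum_comm]
    refine sum_le_sum fun i _ => ?_
    rw [sum_comm]
    refine sum_le_sum fun V' hV => ?_
    rw [sum_comm, mul_sum, mul_sum]
    refine sum_le_sum fun D' _ => ?_
    simp only [hG]
    rw [← sum_filter, sum_const, nsmul_eq_mul]
    have h1 := hc i s V' D' ((hT' V').1 hV).1
    have h2 := u0 V' s D'
    refine (mul_le_mul_of_nonneg_right h1 (by positivity)).trans (le_of_eq ?_)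
    ring
  have s4 : ∑ s, ∑ D, F s D ≤ (∑ i, ((x i : ℝ) + 1) ^ 2 * ψ i) *
      ∑ k ∈ Icc 1 K, ((Fintype.card α).choose k : ℝ) * (k.factorial * y ^ k *
        (numND (Fintype.card α - k) / (Fintype.card α - k).factorial)) := by
    clear * - α F ι T x ψ y C u K s3 hT hT' τ w hK hψ hC hu hy
    refine (sum_le_sum fun s _ => s3 s).trans ?_
    rw [sum_comm, ← swin_sets K fun k => k.factorial * y ^ k *
      (numND (Fintype.card α - k) / (Fintype.card α - k).factorial), ← hT, sum_mul]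
    refine sum_le_sum fun i _ => ?_
    rw [sum_comm, mul_sum]
    refine sum_le_sum fun V' hV => ?_
    rw [← mul_sum, ← mul_sum]
    have h1 := ((hT' V').1 hV).2
    have h2 := swin_norm (V' := V') (by omega) (τ + 3 * w)
    have h3 := hψ i
    simp only [← hC, ← hu] at h2
    gcongr
  refine s2.trans ((mul_le_mul_of_nonneg_left (mul_le_mul_of_nonneg_left s4 hq)
    (Nat.cast_nonneg _)).trans (le_of_eq ?_))
  rw [← mul_assoc q, mul_left_comm, mul_sum (Icc 1 K)]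
  refine congrArg _ (sum_congr rfl fun k hk => ?_)
  have h1 : k ≤ Fintype.card α := by
    have := (mem_Icc.1 hk).2
    omega
  have h2 := Nat.factorial_mul_descFactorial h1
  have h3 := Nat.descFactorial_eq_factorial_mul_choose (Fintype.card α) k
  rw [← h2, pow_two]
  nth_rewrite 3 [h3]
  push_cast
  field_simp

theorem window {ι : Type*} [Fintype ι] (Bad : Finset (α → α → Prop))
    (S : ι → α → (α → α → Prop) → Finset α → (α → α → Prop) → Prop) (x : ι → ℕ) (ψ : ι → ℝ)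
    {y : ℝ} {τ0 w M K : ℕ} (hM : 0 < M) (hψ : ∀ i, 0 ≤ ψ i) (hy : 0 ≤ y)
    (hK : K + 2 ≤ Fintype.card α)
    (hA : ∀ A ∈ Bad, FIr A ∧ (rts univ A τ0).Nonempty ∧ (rts univ (rv A) τ0).Nonempty ∧
      ∀ τ, τ ≤ τ0 + 6 * w * M → ∀ (π : Equiv.Perm α) (s : α), π s ∈ rts univ A τ →
        s ∈ rts univ (rv A) τ → Frame A π s →
        (∀ a b, A (π a) b ↔ matV univ (dig A π) s a b) ∧ ∃ i V' D', S i s (dig A π) V' D' ∧
          1 ≤ V'ᶜ.card ∧ V'ᶜ.card ≤ K ∧ Cmp (dig A π) V' D' s τ w (x i))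
    (hc : ∀ i s (V' : Finset α) D', 1 ≤ V'ᶜ.card →
      ((univ.filter fun D => S i s D V' D').card : ℝ) ≤
        ψ i * (V'ᶜ.card.factorial * y ^ V'ᶜ.card)) :
    (Bad.card : ℝ) ≤ M * (Fintype.card α : ℝ) ^ (2 / M : ℝ) * (∑ i, ((x i : ℝ) + 1) ^ 2 * ψ i) *
      ∑ k ∈ Icc 1 K, ((Fintype.card α).descFactorial k : ℝ) ^ 2 * y ^ k *
        numND (Fintype.card α - k) := by
  obtain ⟨q, hq⟩ : ∃ q, q = (Fintype.card α : ℝ) ^ (2 / M : ℝ) := ⟨_, rfl⟩
  have hq0 : 0 ≤ q := hq ▸ Real.rpow_nonneg (Nat.cast_nonneg _) _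
  have hqM : q ^ M = (Fintype.card α : ℝ) * Fintype.card α := by
    rw [hq, ← Real.rpow_natCast, ← Real.rpow_mul (Nat.cast_nonneg _),
      div_mul_cancel₀ _ (Nat.cast_ne_zero.2 hM.ne'), Real.rpow_two, pow_two]
  obtain ⟨X, hX⟩ : ∃ X : (α → α → Prop) → ℕ → ℝ, ∀ A l, X A l =
      ((rts univ A (τ0 + 6 * w * l)).card : ℝ) * (rts univ (rv A) (τ0 + 6 * w * l)).card :=
    ⟨_, fun _ _ => rfl⟩
  have h1 : Bad ⊆ (range M).biUnion fun l => Bad.filter fun A => X A (l + 1) ≤ q * X A l := by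
    intro A hAB
    obtain ⟨-, h2, h3, -⟩ := hA A hAB
    obtain ⟨l, hl, h4⟩ := win_level (X := X A) hq0 (by
      rw [hX, mul_zero, add_zero]
      exact one_le_mul_of_one_le_of_one_le (Nat.one_le_cast.2 h2.card_pos)
        (Nat.one_le_cast.2 h3.card_pos)) (by
      rw [hX, hqM]
      exact mul_le_mul (Nat.cast_le.2 (card_le_univ _)) (Nat.cast_le.2 (card_le_univ _))
        (Nat.cast_nonneg _) (Nat.cast_nonneg _)) hM
    exact mem_biUnion.2 ⟨l, mem_range.2 hl, mem_filter.2 ⟨hAB, h4⟩⟩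
  have h2 : (Bad.card : ℝ) ≤
      ∑ l ∈ range M, ((Bad.filter fun A => X A (l + 1) ≤ q * X A l).card : ℝ) := by
    exact_mod_cast (card_le_card h1).trans card_biUnion_le
  rw [← hq, mul_assoc, mul_assoc, ← mul_assoc q]
  refine h2.trans ((sum_le_card_nsmul _ _ _ fun l hl => ?_).trans (le_of_eq (by
    rw [card_range, nsmul_eq_mul])))
  refine swin_level _ S x ψ (τ := τ0 + 6 * w * l) (w := w) hψ hy hq0 hK (fun A hAB => ?_) hc
  obtain ⟨hAB, h3⟩ := mem_filter.1 hAB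
  obtain ⟨a1, a2, a3, a4⟩ := hA A hAB
  refine ⟨a1, a2.mono (rts_mono (Nat.le_add_right _ _)), a3.mono (rts_mono (Nat.le_add_right _ _)),
    ?_, a4 _ (Nat.add_le_add_left (Nat.mul_le_mul_left _ (mem_range.1 hl).le) _)⟩
  rwa [hX, hX, mul_add_one, ← add_assoc] at h3

end Pool.Agent.Work.MP_5391ad_co
end

-- merged part: Pool.Agent.Work.MP_5391ad_co.SCnt
section
/-! Counting the preimages of the surgeries.
`valC_le`: `exists_wC` with `l = |Y|`; sum over `H ⊆ P` (`occ_sum_pow`, compare `oprd_codes`) and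
keep the single term `k = |P|` of the generating function. `val0_le`: repeat the proof of
`exists_wG` for the single term `k = |P| ≥ 1` or for the sum over `k ≥ 1`: with `X = cX`,
`ρ = cR`, `z ≤ ρ ≤ X^3 ρ`, the hub numbers `v = 0`, `v = 1`, `v ≥ 2` contribute at most
`2 (e^z - 1) ≤ 4 z`, `36 z` and `X^3 ρ ∑ 2^(-v)`. `obj_le`: `D` is determined by `(a, c)`, since
`g a` is the only out-neighbour of `a` in `D'`. `card_surZ`: four ends, and `par`, `tgt` are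
functions on `V'ᶜ` with at most `2 u + 1` values each; `(2u+1)^(2k) ≤ (2u+1)^2 z z⁻¹^k` for
`k ≥ 1`. `card_sur`: the reversed cases by the bijection `rv`. -/

namespace Pool.Agent.Work.MP_5391ad_co

open Finset
open scoped Classical

variable {α : Type*} [Fintype α] {z : ℝ} {vm cap : ℕ}

theorem scnt_single (hz : 0 < z) {k : ℕ} {W B : ℝ} (h : z ^ k / k.factorial * W ≤ B) :
    W ≤ B * (k.factorial * z⁻¹ ^ k) := by
  refine le_trans (le_of_eq ?_) (mul_le_mul_of_nonneg_right h (by positivity))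
  rw [inv_pow]
  field_simp

theorem scnt_if {β : Type*} [Fintype β] (p : β → Prop) {_ : DecidablePred p} {b : ℝ} (hb : 0 ≤ b)
    (h : ∀ x, p x → ((univ.filter p).card : ℝ) ≤ b) : ((univ.filter p).card : ℝ) ≤ b := by
  rcases (univ.filter p).eq_empty_or_nonempty with h0 | ⟨x, hx⟩
  · rw [h0, card_empty, Nat.cast_zero]
    exact hb
  · exact h x (mem_filter.1 hx).2

theorem scnt_le {β : Type*} [Fintype β] {p q : β → Prop} {_ : DecidablePred p}
    {_ : DecidablePred q}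
    (h : ∀ x, p x → q x) : ((univ.filter p).card : ℝ) ≤ (univ.filter q).card :=
  Nat.cast_le.2 (card_le_card fun x hx => mem_filter.2 ⟨mem_univ _, h x (mem_filter.1 hx).2⟩)

theorem scnt_codes {w : ℕ → ℝ} (a : α) (P Y : Finset α)
    (h : ∀ H : Finset α, H ⊆ P → H.card ≤ vm →
      ((univ.filter fun c : OCode α => ValC a P Y c ∧ c.H = H).card : ℝ) ≤ w H.card) :
    ((univ.filter fun c : OCode α => ValC a P Y c ∧ c.H.card ≤ vm).card : ℝ) ≤
      ∑ v ∈ range (vm + 1), (P.card.choose v : ℝ) * w v := by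
  have h1 : (univ.filter fun c : OCode α => ValC a P Y c ∧ c.H.card ≤ vm) ⊆
      (P.powerset.filter fun S => S.card ≤ vm).biUnion fun H =>
        univ.filter fun c : OCode α => ValC a P Y c ∧ c.H = H := by
    intro c hc
    obtain ⟨h2, h3⟩ := (mem_filter.1 hc).2
    exact mem_biUnion.2 ⟨c.H, mem_filter.2 ⟨mem_powerset.2 h2.sub, h3⟩,
      mem_filter.2 ⟨mem_univ _, h2, rfl⟩⟩
  refine (Nat.cast_le.2 ((card_le_card h1).trans card_biUnion_le)).trans ?_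
  rw [Nat.cast_sum, ← occ_sum_pow]
  exact sum_le_sum fun H hH => h H (mem_powerset.1 (mem_filter.1 hH).1) (mem_filter.1 hH).2

theorem valC_le (hz : 0 < z) (h : cX z vm cap ^ 3 * cR z vm cap ≤ 1 / 8) (a : α)
    (P Y : Finset α) (hY : Y.card ≤ cap) :
    ((univ.filter fun c : OCode α => ValC a P Y c ∧ c.H.card ≤ vm).card : ℝ) ≤
      cG z vm cap * Y.card * (P.card.factorial * z⁻¹ ^ P.card) := by
  obtain ⟨w, hw, h1, h2⟩ := exists_wC (α := α) hz h hY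
  refine (scnt_codes (w := w P.card) a P Y fun H hH hv => h1 a P H Y hH hv le_rfl).trans
    (scnt_single hz (le_trans ?_ (h2 (P.card + 1))))
  refine le_trans (mul_le_mul_of_nonneg_left (sum_le_sum fun v _ => ?_) (by positivity))
    (single_le_sum (f := fun k => z ^ k / k.factorial *
      ∑ v ∈ range (vm + 1), (k.choose v : ℝ) * 2 ^ v * w k v) (fun k _ => mul_nonneg
        (by positivity) (sum_nonneg fun v _ => mul_nonneg (by positivity) (hw _ _)))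
      (self_mem_range_succ _))
  exact mul_le_mul_of_nonneg_right
    (le_mul_of_one_le_right (Nat.cast_nonneg _) (one_le_pow₀ one_le_two)) (hw _ _)

theorem val0_le (hz : 0 < z) (h : cX z vm cap ^ 3 * cR z vm cap ≤ 1 / 8) (a g : α)
    {P : Finset α} (hP : 1 ≤ P.card) :
    ((univ.filter fun c : OCode α => Val0 a P {g} c ∧ c.H.card ≤ vm).card : ℝ) ≤
      100 * cX z vm cap ^ 3 * cR z vm cap * (P.card.factorial * z⁻¹ ^ P.card) := by
  obtain ⟨hX, hρ, hρ1, hzρ, hzσ⟩ := osum_par hz h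
  have hXd : 2 * (27 * (3 * (1 + z * vm)) * (3 ^ 4 * Real.exp (2 * (z * vm)))) ≤ cX z vm cap := by
    clear * - z vm cap hz
    unfold cX
    have h1 : 0 ≤ (1 + z * vm) * Real.exp (2 * (z * vm)) := by positivity
    have h2 : 0 ≤ z * cap := by positivity
    linarith only [h1, h2, mul_nonneg h1 h2]
  have hzσ' : z * (cR z vm cap)⁻¹ ≤ 1 :=
    (le_mul_of_one_le_right (by positivity) (Real.one_le_exp (by positivity))).trans hzσ
  generalize cX z vm cap = X at *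
  generalize cR z vm cap = ρ at *
  have hσ : 1 ≤ ρ⁻¹ := (one_le_inv₀ hρ).2 (by linarith only [hρ, hρ1])
  have hzX : z ≤ X ^ 3 * ρ := hzρ.trans (le_mul_of_one_le_left hρ.le (one_le_pow₀ (by linarith only [hX, hρ, hρ1])))
  obtain ⟨f, hf⟩ : ∃ f : ℕ → ℕ → ℝ, ∀ v e, f v e = if v ≤ 1 then gB 1 1 e v else
      ρ ^ (v / 2) * gB ρ⁻¹ (max 1 (1 / (z * v))) e v := ⟨_, fun _ _ => rfl⟩
  have hf0 : ∀ v e, 0 ≤ f v e := fun v e => by
    rw [hf]
    split_ifs
    · exact osum_gB_nonneg zero_le_one zero_le_one e v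
    · exact mul_nonneg (by positivity) (osum_gB_nonneg (by positivity) (by positivity) e v)
  refine (oprd_codes (w := fun k v => f v (k - v)) a g P fun H hH _ => ?_).trans
    (scnt_single hz ?_)
  · simp only [hf]
    split_ifs
    · simpa using val0_card le_rfl le_rfl a g hH
    · have h1 := val0_card hσ (le_max_left 1 (1 / (z * H.card))) a g hH
      rw [inv_pow, inv_mul_le_iff₀ (by positivity)] at h1
      exact h1
  generalize P.card = k at hP
  have hE : Real.exp (4 * z) ≤ 4 / 3 := by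
    refine (Real.exp_le_exp.2 (by linarith only [hρ, hρ1, hzρ] : 4 * z ≤ 1 / 4)).trans ?_
    refine (Real.exp_bound_div_one_sub_of_interval (by norm_num) (by norm_num)).trans ?_
    norm_num
  have key : ∀ v ∈ range (vm + 1), z ^ k / k.factorial * ((k.choose v : ℝ) * f v (k - v)) ≤
      (if v = 1 then 36 * z else 0) + 2 * (X ^ 3 * ρ) * (1 / 2) ^ v := by
    intro v hv
    rcases Nat.eq_zero_or_pos v with rfl | h0
    · have h1 : z ^ k ≤ z := pow_le_of_le_one hz.le (by linarith only [hρ, hρ1, hzρ]) (by omega)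
      have h2 : z ^ k / k.factorial ≤ z ^ k :=
        div_le_self (by positivity) (Nat.one_le_cast.2 k.factorial_pos)
      simp only [hf, gB]
      norm_num
      linarith only [hzX, h1, h2]
    refine ((single_le_sum (f := fun k => z ^ k / k.factorial * ((k.choose v : ℝ) * f v (k - v)))
      (fun k _ => mul_nonneg (by positivity) (mul_nonneg (by positivity) (hf0 _ _)))
      (self_mem_range_succ k)).trans (osum_shift hz.le (hf0 v) v _)).trans ?_
    simp only [hf]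
    rcases Nat.lt_or_ge 1 v with h1 | h1
    · obtain ⟨r1, r2, r3⟩ := osum_r hz h1.le (Nat.lt_succ_iff.1 (mem_range.1 hv)) hzσ'
      have h2 := osum_gterm h1.le hz.le (by linarith only [hρ, hρ1, hzρ]) (by positivity) (by positivity)
        (by positivity) r2 r3 hzσ' (k + 1)
      have h3 := osum_pow_le (by linarith only [hX, hρ, hρ1]) hρ.le h (v := v) (m := v / 2) (by omega) (by omega)
      simp only [if_neg (not_le.2 h1), if_neg h1.ne', zero_add]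
      calc _ = ρ ^ (v / 2) * (z ^ v / v.factorial * ∑ e ∈ range (k + 1), z ^ e / e.factorial *
            gB ρ⁻¹ (max 1 (1 / (z * v))) e v) := by
            simp only [mul_sum]
            exact sum_congr rfl fun e _ => by ring
        _ ≤ ρ ^ (v / 2) * (X * (1 / 2)) ^ v := by
            clear * - ρ v z k X vm h2 hz hXd hρ
            refine mul_le_mul_of_nonneg_left (h2.trans ?_) (by positivity)
            exact pow_le_pow_left₀ (by positivity) (by linarith only [hXd]) v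
        _ = ρ ^ (v / 2) * X ^ v * (1 / 2) ^ v := by rw [mul_pow, mul_assoc]
        _ ≤ _ := mul_le_mul_of_nonneg_right (by linarith only [hz, hzX, h3]) (by positivity)
    · simp only [if_pos h1]
      refine (osum_gsum hz.le zero_le_one zero_le_one v _).trans ?_
      obtain rfl : v = 1 := by omega
      have e : z * ((1 + 1) * (1 + 1)) = 4 * z := by ring
      have := mul_le_mul_of_nonneg_left hE hz.le
      simp only [Nat.cast_one, mul_one, e, one_pow, pow_one, Nat.factorial_one]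
      norm_num
      linarith only [hz, hzX, this]
  rw [mul_sum]
  refine (sum_le_sum key).trans ?_
  rw [sum_add_distrib, sum_ite_eq', ← mul_sum]
  have := mul_le_mul_of_nonneg_left (sum_geometric_two_le (vm + 1))
    (by linarith only [hz, hzX] : 0 ≤ 2 * (X ^ 3 * ρ))
  split_ifs <;> linarith only [hz, hzX, this]

theorem obj_le (D' : α → α → Prop) (L : Finset α) (q : α → OCode α → Prop) :
    (univ.filter fun D : α → α → Prop => ∃ a ∈ L, ∃ g c, Obj D D' a g c ∧ q a c).card ≤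
      ∑ a ∈ L, (univ.filter (q a)).card := by
  refine le_trans (card_le_card (t := L.biUnion fun a => (univ.filter (q a)).image
    fun c u w => (∃ g, (∀ y, D' a y ↔ y = g) ∧ c.arc g u w) ∨ (D' u w ∧ u ≠ a)) fun D hD => ?_)
    (card_biUnion_le.trans (sum_le_sum fun a _ => card_image_le))
  obtain ⟨a, ha, g, c, ⟨h1, h2⟩, h3⟩ := (mem_filter.1 hD).2
  refine mem_biUnion.2 ⟨a, ha, mem_image.2 ⟨c, mem_filter.2 ⟨mem_univ _, h3⟩, ?_⟩⟩
  funext u w
  rw [eq_iff_iff, h2]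
  refine or_congr_left ⟨?_, fun h => ⟨g, h1, h⟩⟩
  rintro ⟨g', h4, h5⟩
  rwa [(h4 g).1 ((h1 g).2 rfl)]

theorem scnt_obj (D' : α → α → Prop) (L : Finset α) (q : α → OCode α → Prop)
    {p : (α → α → Prop) → Prop} [DecidablePred p]
    (hp : ∀ D, p D → ∃ a ∈ L, ∃ g c, Obj D D' a g c ∧ q a c) {b : α → ℝ}
    (hb : ∀ a ∈ L, ((univ.filter (q a)).card : ℝ) ≤ b a) :
    ((univ.filter p).card : ℝ) ≤ ∑ a ∈ L, b a := by
  refine ((scnt_le hp).trans (Nat.cast_le.2 (obj_le D' L q))).trans ?_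
  rw [Nat.cast_sum]
  exact sum_le_sum hb

/-- maps supported on `P` with values in `Z` -/
noncomputable def scnt_fn (P Z : Finset α) : Finset (α → Option α) :=
  Fintype.piFinset fun p => if p ∈ P then insertNone Z else {none}

theorem scnt_fn_card (V' Z : Finset α) {u : ℕ} (h1 : V'ᶜ.card ≤ u) (h2 : (V' ∩ Z).card ≤ u) :
    (scnt_fn V'ᶜ (V'ᶜ ∪ V' ∩ Z)).card ≤ (2 * u + 1) ^ V'ᶜ.card := by
  unfold scnt_fn
  rw [Fintype.card_piFinset]
  simp only [apply_ite card, card_singleton]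
  rw [Fintype.prod_ite_mem, prod_const, card_insertNone]
  have := card_union_le V'ᶜ (V' ∩ Z)
  exact Nat.pow_le_pow_left (by omega) _

theorem scnt_fn_mem {V' Z : Finset α} {f : α → Option α}
    (h : ∀ p a, f p = some a → p ∉ V' ∧ (a ∉ V' ∨ a ∈ Z)) :
    f ∈ scnt_fn V'ᶜ (V'ᶜ ∪ V' ∩ Z) := by
  refine Fintype.mem_piFinset.2 fun p => ?_
  split_ifs with hp
  · refine mem_insertNone.2 fun a ha => ?_
    have := (h p a ha).2
    simp only [mem_union, mem_compl, mem_inter]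
    tauto
  · rw [mem_singleton]
    exact Option.eq_none_iff_forall_ne_some.2 fun a ha => hp (mem_compl.2 (h p a ha).1)

theorem scnt_rv (Q : (α → α → Prop) → Prop) [DecidablePred Q] [DecidablePred fun D => Q (rv D)] :
    ((univ.filter fun D => Q (rv D)).card : ℝ) ≤ (univ.filter Q).card :=
  Nat.cast_le.2 (card_le_card_of_injOn rv
    (fun _ hD => mem_coe.2 (mem_filter.2 ⟨mem_univ _, (mem_filter.1 hD).2⟩))
    fun _ _ _ _ h => congrArg rv h)

variable (s : α) (V' : Finset α) (D' : α → α → Prop)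

theorem card_surC (hz : 0 < z) (h : cX z vm cap ^ 3 * cR z vm cap ≤ 1 / 8) (S : ℕ) :
    ((univ.filter fun D => SurC vm cap S s D V' D').card : ℝ) ≤
      cG z vm cap * S * (V'ᶜ.card.factorial * z⁻¹ ^ V'ᶜ.card) := by
  have hg := mchain_g hz vm cap
  refine scnt_if _ (by positivity) fun _ h0 => (scnt_obj D' (V'.erase s) (fun a c =>
    ValC a V'ᶜ (TT V' D' s a) c ∧ c.H.card ≤ vm ∧ (TT V' D' s a).card ≤ cap) (fun D hD => hD.2)
    (b := fun a => cG z vm cap * (TT V' D' s a).card * (V'ᶜ.card.factorial * z⁻¹ ^ V'ᶜ.card))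
    fun a _ => scnt_if _ (by positivity) fun _ h1 =>
      (scnt_le fun c hc => ⟨hc.1, hc.2.1⟩).trans (valC_le hz h a _ _ h1.2.2)).trans ?_
  rw [← sum_mul, ← mul_sum, ← Nat.cast_sum]
  gcongr
  exact h0.1

theorem card_surI (hz : 0 < z) (h : cX z vm cap ^ 3 * cR z vm cap ≤ 1 / 8) (l : ℕ)
    (hV : 1 ≤ V'ᶜ.card) : ((univ.filter fun D => SurI vm l s D V' D').card : ℝ) ≤
      l * (100 * cX z vm cap ^ 3 * cR z vm cap) * (V'ᶜ.card.factorial * z⁻¹ ^ V'ᶜ.card) := by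
  obtain ⟨hX, hρ, -⟩ := osum_par hz h
  have hX0 : 0 ≤ cX z vm cap := by linarith only [hX]
  refine scnt_if _ (by positivity) fun _ h0 => (scnt_obj D' ((lks D' s).image Prod.fst)
    (fun a c => ∃ g, Lk D' s a g ∧ Val0 a V'ᶜ {g} c ∧ c.H.card ≤ vm) (fun D hD => ?_)
    (b := fun _ => 100 * cX z vm cap ^ 3 * cR z vm cap * (V'ᶜ.card.factorial * z⁻¹ ^ V'ᶜ.card))
    fun a _ => scnt_if _ (by positivity) fun _ ⟨g, h1, _⟩ =>
      (scnt_le fun c ⟨g', h2, h3⟩ => ?_).trans (val0_le hz h a g hV)).trans ?_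
  · obtain ⟨a, g, c, h1, h2, h3⟩ := hD.2
    exact ⟨a, mem_image.2 ⟨(a, g), mem_filter.2 ⟨mem_univ _, h1⟩, rfl⟩, g, c, h2, g, h1, h3⟩
  · rwa [(h2.2.2.1 g).1 ((h1.2.2.1 g).2 rfl)]
  · rw [sum_const, nsmul_eq_mul, ← mul_assoc]
    gcongr
    exact card_image_le.trans h0.1

theorem card_surG (hz : 0 < z) (h : cX z vm cap ^ 3 * cR z vm cap ≤ 1 / 8) (l : ℕ) :
    ((univ.filter fun D => SurG vm cap l s D V' D').card : ℝ) ≤
      l * (cG z vm cap * cap) * (V'ᶜ.card.factorial * z⁻¹ ^ V'ᶜ.card) := by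
  have hg := mchain_g hz vm cap
  refine scnt_if _ (by positivity) fun _ h0 => (scnt_obj D' (univ.filter fun u => D' u s)
    (fun a c => ValC a V'ᶜ (Y1 D' s a) c ∧ c.H.card ≤ vm ∧ (Y1 D' s a).card ≤ cap) (fun D hD => ?_)
    (b := fun _ => cG z vm cap * cap * (V'ᶜ.card.factorial * z⁻¹ ^ V'ᶜ.card))
    fun a _ => scnt_if _ (by positivity) fun _ h1 =>
      ((scnt_le fun c hc => ⟨hc.1, hc.2.1⟩).trans (valC_le hz h a _ _ h1.2.2)).trans ?_).trans ?_
  · obtain ⟨a, c, h1, h2⟩ := hD.2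
    exact ⟨a, mem_filter.2 ⟨mem_univ _, (h1.1 s).2 rfl⟩, s, c, h1, h2⟩
  · gcongr
    exact h1.2.2
  · rw [sum_const, nsmul_eq_mul, ← mul_assoc]
    gcongr
    exact h0.1

theorem card_surZ (hz : 0 < z) (l u : ℕ) (h : ((2 * u + 1 : ℕ) : ℝ) ^ 2 * z ≤ 1)
    (hV : 1 ≤ V'ᶜ.card) : ((univ.filter fun D => SurZ l u s D V' D').card : ℝ) ≤
      (l : ℝ) ^ 4 * ((2 * u + 1 : ℕ) ^ 2 * z) * (V'ᶜ.card.factorial * z⁻¹ ^ V'ᶜ.card) := by
  refine scnt_if _ (by positivity) fun _ ⟨h1, h2, h3, _⟩ => ?_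
  have h4 : (univ.filter fun D => SurZ l u s D V' D') ⊆
      ((((univ.filter fun a => D' a s) ×ˢ (univ.filter fun a => D' s a)) ×ˢ
        ((univ.filter fun a => D' a s) ×ˢ (univ.filter fun a => D' s a))).filter fun t =>
          (V' ∩ reg (rv D') s t.1.2).card ≤ u ∧ (V' ∩ reg D' s t.2.1).card ≤ u).biUnion fun t =>
        (scnt_fn V'ᶜ (V'ᶜ ∪ V' ∩ reg (rv D') s t.1.2) ×ˢ
          scnt_fn V'ᶜ (V'ᶜ ∪ V' ∩ reg D' s t.2.1)).image fun f a b =>
            f.1 b = some a ∨ f.2 a = some b ∨ (a = t.1.1 ∧ b = t.1.2) ∨ (a = t.2.1 ∧ b = t.2.2) ∨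
              (D' a b ∧ a ≠ t.1.1 ∧ a ≠ t.2.1 ∧ b ≠ t.1.2 ∧ b ≠ t.2.2) := by
    intro D hD
    obtain ⟨-, -, -, x, x', w, w', par, tgt, k1, k2, k3, k4, k5, k6, k7, k8, k9⟩ :=
      (mem_filter.1 hD).2
    refine mem_biUnion.2 ⟨((x, x'), (w, w')), mem_filter.2 ⟨?_, k5, k6⟩, mem_image.2
      ⟨(par, tgt), mem_product.2 ⟨scnt_fn_mem k7, scnt_fn_mem k8⟩, ?_⟩⟩
    · simp only [mem_product, mem_filter, mem_univ, true_and]
      exact ⟨⟨k1, k3⟩, k2, k4⟩
    · funext a b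
      exact propext (k9 a b).symm
  have h5 := (card_le_card h4).trans (card_biUnion_le_card_mul _ _
    ((2 * u + 1) ^ V'ᶜ.card * (2 * u + 1) ^ V'ᶜ.card) fun t ht => card_image_le.trans (by
      rw [card_product]
      exact Nat.mul_le_mul (scnt_fn_card _ _ h3 (mem_filter.1 ht).2.1)
        (scnt_fn_card _ _ h3 (mem_filter.1 ht).2.2)))
  have h6 := h5.trans (Nat.mul_le_mul_right (m := l * l * (l * l)) _
    ((card_filter_le _ _).trans (by
    rw [card_product, card_product]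
    exact Nat.mul_le_mul (Nat.mul_le_mul h1 h2) (Nat.mul_le_mul h1 h2))))
  refine (Nat.cast_le.2 h6).trans ?_
  rw [← mul_pow, ← sq (2 * u + 1), Nat.cast_mul, Nat.cast_pow, Nat.cast_pow, mul_assoc _ (_ * z)]
  refine mul_le_mul (le_of_eq (by push_cast; ring)) (scnt_single hz ?_) (by positivity)
    (by positivity)
  rw [div_mul_eq_mul_div, ← mul_pow, mul_comm z]
  exact (div_le_self (by positivity) (Nat.one_le_cast.2 (Nat.factorial_pos _))).trans
    (pow_le_of_le_one (by positivity) h (by omega))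

theorem card_sur (p : Par) (hz : 0 < z)
    (h1 : cX z (100 * p.m) (p.t + 40 * p.m) ^ 3 * cR z (100 * p.m) (p.t + 40 * p.m) ≤ 1 / 8)
    (h2 : cX z (100 * p.m) 0 ^ 3 * cR z (100 * p.m) 0 ≤ 1 / 8)
    (h3 : cX z (100 * p.m) (p.y1 + 80 * p.m) ^ 3 * cR z (100 * p.m) (p.y1 + 80 * p.m) ≤ 1 / 8)
    (h4 : ((4 * p.Kb + 1 : ℕ) : ℝ) ^ 2 * z ≤ 1) (i : Fin 6) (hV : 1 ≤ V'ᶜ.card) :
    ((univ.filter fun D => Sur p i s D V' D').card : ℝ) ≤
      surW p (Fintype.card α) z i * (V'ᶜ.card.factorial * z⁻¹ ^ V'ᶜ.card) := by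
  have h5 : 4 * p.Kb = 2 * (2 * p.Kb) := by ring
  fin_cases i
  · exact (scnt_le fun _ h => h).trans (card_surC s V' D' hz h1 _)
  · exact (scnt_rv fun D => SurC _ _ _ s D V' (rv D')).trans (card_surC s V' (rv D') hz h1 _)
  · exact (scnt_le fun _ h => h).trans (card_surI s V' D' hz h2 _ hV)
  · exact (scnt_le fun _ h => h).trans (card_surG s V' D' hz h3 _)
  · exact (scnt_rv fun D => SurG _ _ _ s D V' (rv D')).trans (card_surG s V' (rv D') hz h3 _)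
  · have h6 := card_surZ s V' D' hz (11 * p.k + 2) (2 * p.Kb) (h5 ▸ h4) hV
    rw [← h5] at h6
    exact (scnt_le fun _ h => h).trans h6

end Pool.Agent.Work.MP_5391ad_co
end

-- merged part: Pool.Agent.Work.MP_5391ad_co.SCn
section
/-! The weighted number of cores. Put `k = ⌈N^(1/1000)⌉`, `σ = ⌈N^(97/100)⌉`, `Λ = lam N`.
`cWt_split`: the weight is at most one on exceptional cores. Otherwise `nlink < k` on both sides
and `a0 ≥ |rtree| + 1 - k` (`rtree_le`). Cases: one tree has at most `σ` vertices (two sums, equal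
by the bijection `rv` of `dags W`); both exceed `σ` and one is at most `b`; both exceed `b` and one
is below `lo`; both are at least `lo`. (`card_rv`.)
`small_small`: `small_tree`; `K = 2 (k σ + k) + k ≤ N / 2`; `C(N,j) j! = N.descFactorial j`,
`j (j+2)^j ≤ j! 100^j` (`(j+2)^(j+2) / (j+2)! ≤ e^(j+2)`), and with `y = ell N / 8 ≥ N^(0.999) / 8`
(`rpow_le_ell`), `100 (2σ + k + 1) ≤ y`: the term of `j` is at most
`ψ N.descFactorial j y^j cN (N-j)`, `ψ = 10^4 (2σ+1)(3k+3)(N+1) / y^2 → 0`. Then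
`cN (N-j) ≤ B d (N-j) / lam (N-j)^2 ≤ 4 B d (N-j) / Λ^2` (`lam (N-j) ≥ Λ / 2`) and `ratio_dag`.
`cN_le`: `closing` for `a N = cN N Λ^2 / d N`, `L = 4`, with `b = ⌊3 Λ / 10⌋`,
`lo = ⌈(1/2 - ε) Λ⌉`: `excC_small`, `tree_small` (`N^(-1/10) Λ^2 / (σ - k)^2 → 0`), `tree_window`.
`goodD_ge`: the complement lies in `ExcC` and the two window events. -/

namespace Pool.Agent.Work.MP_5391ad_co

open Finset Filter Real
open scoped Classical

theorem scn_rv {α : Type*} [Fintype α] (W : Finset α) (f : (α → α → Prop) → ℝ) :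
    ∑ Δ ∈ dags W, f (rv Δ) = ∑ Δ ∈ dags W, f Δ :=
  sum_nbij' rv rv (fun _ h => mem_filter.2 ⟨mem_univ _, (mem_filter.1 h).2.rev⟩)
    (fun _ h => mem_filter.2 ⟨mem_univ _, (mem_filter.1 h).2.rev⟩) (fun _ _ => rfl)
    (fun _ _ => rfl) fun _ _ => rfl

theorem scn_inv {a a' r c k x : ℕ} (h1 : r + 1 ≤ a + k) (h2 : c + 1 ≤ a' + k) (hk : k ≤ x)
    (h3 : x ≤ r) (h4 : x ≤ c) : ((a : ℝ) * a')⁻¹ ≤ 1 / ((x : ℝ) + 1 - k) ^ 2 := by
  have e0 : (k : ℝ) ≤ x := Nat.cast_le.2 hk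
  have e1 : (x : ℝ) + 1 ≤ a + k := by exact_mod_cast (by omega : x + 1 ≤ a + k)
  have e2 : (x : ℝ) + 1 ≤ a' + k := by exact_mod_cast (by omega : x + 1 ≤ a' + k)
  rw [one_div, sq]
  exact inv_anti₀ (mul_pos (by linarith only [e0]) (by linarith only [e0]))
    (mul_le_mul (by linarith only [e1]) (by linarith only [e2]) (by linarith only [e0]) (by linarith only [e0, e1]))

theorem cWt_split {α : Type*} [Fintype α] (W : Finset α) {k σ b lo : ℕ} (h1 : k ≤ σ) (h2 : k ≤ b)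
    (h3 : k ≤ lo) : cWt W ≤ ((dags W).filter (ExcC k W)).card +
      2 * ∑ Δ ∈ (dags W).filter (fun Δ => ¬ ExcC k W Δ ∧ (rtree W Δ).card ≤ σ),
        ((a0 W Δ : ℝ) * a0 W (rv Δ))⁻¹ +
      2 * ((dags W).filter fun Δ => (rtree W Δ).card ≤ b).card / ((σ : ℝ) + 1 - k) ^ 2 +
      2 * ((dags W).filter fun Δ => (rtree W Δ).card < lo).card / ((b : ℝ) + 1 - k) ^ 2 +
      (dags W).card / ((lo : ℝ) + 1 - k) ^ 2 := by
  obtain ⟨g, hg⟩ : ∃ g : (α → α → Prop) → ℝ, ∀ Δ, g Δ =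
      (if ¬ ExcC k W Δ ∧ (rtree W Δ).card ≤ σ then ((a0 W Δ : ℝ) * a0 W (rv Δ))⁻¹ else 0) +
      (if (rtree W Δ).card ≤ b then 1 else 0) / ((σ : ℝ) + 1 - k) ^ 2 +
      (if (rtree W Δ).card < lo then 1 else 0) / ((b : ℝ) + 1 - k) ^ 2 := ⟨_, fun _ => rfl⟩
  have key : ∀ Δ ∈ dags W, ((a0 W Δ : ℝ) * a0 W (rv Δ))⁻¹ ≤
      (if ExcC k W Δ then 1 else 0) + g Δ + g (rv Δ) + 1 / ((lo : ℝ) + 1 - k) ^ 2 := by
    intro Δ hΔ
    have hd : IsDag W Δ := (mem_filter.1 hΔ).2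
    have g0 : ∀ Δ, 0 ≤ g Δ := fun Δ => by
      clear * - g Δ α k W σ b lo hg
      rw [hg]
      split_ifs <;> positivity
    have p0 : 0 ≤ 1 / ((lo : ℝ) + 1 - k) ^ 2 := by positivity
    have p1 := g0 Δ
    have p2 := g0 (rv Δ)
    by_cases he : ExcC k W Δ
    · have : ((a0 W Δ : ℝ) * a0 W (rv Δ))⁻¹ ≤ 1 := inv_le_one_of_one_le₀ <| by
        exact_mod_cast Nat.mul_pos (Nat.lt_add_right _ one_pos) (Nat.lt_add_right _ one_pos)
      rw [if_pos he]
      linarith only [p0, p1, p2, this]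
    have he' : ¬ ExcC k W (rv Δ) := fun h => he (Or.symm h)
    have l1 : ¬ k ≤ nlink W Δ := fun h => he (.inl (.inr (.inl h)))
    have l2 : ¬ k ≤ nlink W (rv Δ) := fun h => he (.inr (.inr (.inl h)))
    have r1 := rtree_le hd
    have r2 := rtree_le hd.rev
    have q : ∀ x, k ≤ x → x ≤ (rtree W Δ).card → x ≤ (rtree W (rv Δ)).card →
        ((a0 W Δ : ℝ) * a0 W (rv Δ))⁻¹ ≤ 1 / ((x : ℝ) + 1 - k) ^ 2 :=
      fun x => scn_inv (by omega) (by omega)
    have u1 : 0 ≤ 1 / ((σ : ℝ) + 1 - k) ^ 2 := by positivity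
    have u2 : 0 ≤ 1 / ((b : ℝ) + 1 - k) ^ 2 := by positivity
    have u3 : 0 ≤ ((a0 W Δ : ℝ) * a0 W (rv Δ))⁻¹ := by positivity
    have e : ((a0 W (rv Δ) : ℝ) * a0 W (rv (rv Δ)))⁻¹ = ((a0 W Δ : ℝ) * a0 W (rv Δ))⁻¹ :=
      congrArg _ (mul_comm _ _)
    have q1 := q σ h1
    have q2 := q b h2
    have q3 := q lo h3
    rw [if_neg he, hg, hg, e]
    simp only [he, he', not_false_eq_true, true_and, ite_div, zero_div]
    split_ifs <;>
      first
      | linarith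
      | linarith [q1 (by omega) (by omega)]
      | linarith [q2 (by omega) (by omega)]
      | linarith [q3 (by omega) (by omega)]
  refine (sum_le_sum key).trans_eq ?_
  simp only [sum_add_distrib, scn_rv W g]
  simp only [hg, sum_add_distrib, ← sum_div, sum_boole, ← sum_filter, sum_const, nsmul_eq_mul]
  ring

theorem scn_fac {j : ℕ} (hj : 2 ≤ j) : (j : ℝ) * (j + 2) ^ j ≤ j.factorial * 100 ^ j := by
  have h1 := pow_div_factorial_le_exp ((j : ℝ) + 2) (by positivity) (j + 2)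
  have h0 : (0 : ℝ) < j.factorial := Nat.cast_pos.2 j.factorial_pos
  have h2 : exp ((j : ℝ) + 2) ≤ 3 ^ j * 3 ^ j := by
    have : exp ((j : ℝ) + 2) = exp 1 ^ (j + 2) := by
      rw [← exp_nat_mul]; push_cast; ring_nf
    rw [this, ← pow_add]
    exact (pow_le_pow_left₀ (exp_pos 1).le exp_one_lt_three.le _).trans
      (pow_le_pow_right₀ (by norm_num) (by omega))
  have h3 : (j : ℝ) ≤ 2 ^ j := by exact_mod_cast j.lt_two_pow_self.le
  have h4 : ((j : ℝ) + 2) ^ j ≤ j.factorial * (3 ^ j * 3 ^ j) := by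
    rw [div_le_iff₀ (by positivity), Nat.factorial_succ, Nat.factorial_succ, pow_add] at h1
    push_cast at h1
    refine le_of_mul_le_mul_right (h1.trans ?_) (by positivity : 0 < ((j : ℝ) + 2) ^ 2)
    have h5 : ((j : ℝ) + 1 + 1) * ((j + 1) * j.factorial) ≤ (j + 2) * ((j + 2) * j.factorial) := by
      linarith only [h0, mul_nonneg (Nat.cast_nonneg (α := ℝ) j) h0.le]
    exact (mul_le_mul h2 h5 (by positivity) (by positivity)).trans_eq (by ring)
  calc _ ≤ 2 ^ j * (j.factorial * (3 ^ j * 3 ^ j) : ℝ) := by gcongr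
    _ = j.factorial * 18 ^ j := by
        rw [show (18 : ℝ) = 2 * (3 * 3) by norm_num, mul_pow, mul_pow]; ring
    _ ≤ _ := by gcongr; norm_num

theorem scn_lam {M N : ℕ} (h1 : N ≤ 2 * M) (h2 : M ≤ N) (h3 : 4 ≤ N) :
    lam N ^ 2 ≤ 4 * lam M ^ 2 := by
  have a1 : (1 : ℝ) < M := by exact_mod_cast (by omega : 1 < M)
  have a2 : (M : ℝ) ≤ N := Nat.cast_le.2 h2
  have a3 : (N : ℝ) ≤ 2 * M := by exact_mod_cast h1
  have a4 := log_pos a1
  have a5 : lam N ≤ 2 * lam M := by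
    rw [lam, lam, ← mul_div_assoc]
    exact div_le_div₀ (by linarith only [a1]) a3 a4 (log_le_log (by linarith only [a1]) a2)
  have a6 : 0 ≤ lam N := div_nonneg (Nat.cast_nonneg N) (log_natCast_nonneg N)
  clear * - N M a5 a6
  linarith only [a5, a6, mul_nonneg_of_nonpos_of_nonpos (Mathlib.Tactic.Linarith.sub_nonpos_of_le a5) (Mathlib.Tactic.Linarith.sub_nonpos_of_le a5), mul_nonneg_of_nonpos_of_nonpos (Mathlib.Tactic.Linarith.sub_nonpos_of_le a5) (Mathlib.Tactic.Linarith.sub_nonpos_of_le a6)]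

theorem scn_ceil {c : ℝ} (hc : 0 ≤ c) {N : ℕ} (hN : 1 ≤ N) :
    1 ≤ (N : ℝ) ^ c ∧ (N : ℝ) ^ c ≤ ⌈(N : ℝ) ^ c⌉₊ ∧ (⌈(N : ℝ) ^ c⌉₊ : ℝ) ≤ 2 * (N : ℝ) ^ c := by
  have h := one_le_rpow (Nat.one_le_cast.2 hN : (1 : ℝ) ≤ N) hc
  have := Nat.ceil_lt_add_one (zero_le_one.trans h)
  exact ⟨h, Nat.le_ceil _, by linarith only [h, this]⟩

theorem small_small {δ : ℝ} (hδ : 0 < δ) : ∀ᶠ N : ℕ in atTop, ∀ B : ℝ, 0 ≤ B →
    (∀ j, N ≤ 2 * j → j < N → cN j * lam j ^ 2 ≤ B * numDag j) →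
    ∀ (α : Type) [Fintype α] (W : Finset α), W.card = N →
    (∑ Δ ∈ (dags W).filter (fun Δ => ¬ ExcC ⌈(N : ℝ) ^ (1 / 1000 : ℝ)⌉₊ W Δ ∧
      (rtree W Δ).card ≤ ⌈(N : ℝ) ^ (97 / 100 : ℝ)⌉₊), ((a0 W Δ : ℝ) * a0 W (rv Δ))⁻¹) *
      lam N ^ 2 ≤ δ * B * numDag N := by
  filter_upwards [ratio_dag, eventually_ge_atTop 4,
    tendsto_natCast_atTop_atTop.eventually (rpow_le_ell (δ := 1 / 1000) (by norm_num)),
    sev_pow (a := 971 / 1000) (b := 1) (e := 1 / 100) (by norm_num) (by norm_num),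
    sev_pow (a := 97 / 100) (b := 999 / 1000) (e := 1 / 5600) (by norm_num) (by norm_num),
    sev_pow (a := 1971 / 1000) (b := 1998 / 1000) (e := δ / 10 ^ 9) (by norm_num) (by positivity)]
    with N h1 h2 h3 h4 h5 h6 B hB hj α _ W hW
  have n0 : (0 : ℝ) < N := by exact_mod_cast (by omega : 0 < N)
  have n1 : (1 : ℝ) ≤ N := by exact_mod_cast (by omega : 1 ≤ N)
  obtain ⟨k1, -, k2⟩ := scn_ceil (c := 1 / 1000) (by norm_num) (by omega : 1 ≤ N)
  obtain ⟨s1, -, s2⟩ := scn_ceil (c := 97 / 100) (by norm_num) (by omega : 1 ≤ N)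
  have e1 : (N : ℝ) ^ (971 / 1000 : ℝ) = (N : ℝ) ^ (1 / 1000 : ℝ) * (N : ℝ) ^ (97 / 100 : ℝ) := by
    rw [← rpow_add n0]; norm_num
  have e2 : (N : ℝ) ^ (1971 / 1000 : ℝ) = (N : ℝ) ^ (971 / 1000 : ℝ) * N := by
    rw [← rpow_add_one n0.ne']; norm_num
  have e3 : (N : ℝ) ^ (1998 / 1000 : ℝ) = ((N : ℝ) ^ (999 / 1000 : ℝ)) ^ 2 := by
    rw [← rpow_natCast, ← rpow_mul n0.le]; norm_num
  have e4 : (N : ℝ) ^ (1 / 1000 : ℝ) ≤ (N : ℝ) ^ (97 / 100 : ℝ) :=
    rpow_le_rpow_of_exponent_le n1 (by norm_num)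
  rw [rpow_one, e1] at h4
  rw [e2, e1, e3] at h6
  rw [show (1 - 1 / 1000 : ℝ) = 999 / 1000 by norm_num] at h3
  have t0 : 0 < (N : ℝ) ^ (999 / 1000 : ℝ) := rpow_pos_of_pos n0 _
  generalize (N : ℝ) ^ (999 / 1000 : ℝ) = t at *
  generalize ⌈(N : ℝ) ^ (1 / 1000 : ℝ)⌉₊ = k at *
  generalize ⌈(N : ℝ) ^ (97 / 100 : ℝ)⌉₊ = σ at *
  generalize (N : ℝ) ^ (1 / 1000 : ℝ) = u at *
  generalize (N : ℝ) ^ (97 / 100 : ℝ) = v at *
  have k0 : (0 : ℝ) ≤ k := Nat.cast_nonneg k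
  have s0 : (0 : ℝ) ≤ σ := Nat.cast_nonneg σ
  have m1 : (k : ℝ) * σ ≤ 4 * (u * v) := by
    clear * - k σ u v k2 s2 s0 k1
    linarith only [k2, s2, s0, k1, mul_le_mul k2 s2 s0 (by linarith)]
  have m2 : v ≤ u * v := le_mul_of_one_le_left (by linarith only [s1]) k1
  have hK : 2 * (σ + (2 * (k * σ + k) + k)) ≤ N := by
    clear * - σ k N u v k2 s1 s2 h4 e4 m1 m2
    rify
    linarith only [k2, s1, s2, h4, e4, m1, m2]
  obtain ⟨y, hy⟩ : ∃ y, y = ell N / 8 := ⟨_, rfl⟩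
  rw [← hy] at h1
  have y0 : 0 < y := by clear * - y t N v h3 s1 h5 hy; linarith only [h3, s1, h5, hy]
  have y1 : 100 * (2 * σ + k + 1 : ℝ) ≤ y := by clear * - σ k y t N u v h3 k2 s1 h5 s2 e4 hy; linarith only [h3, k2, s1, h5, s2, e4, hy]
  have y2 : (2 * σ + 1 : ℝ) * (3 * k + 3) * (N + 1) * 10 ^ 4 ≤ δ / 8 * y ^ 2 := by
    clear * - σ k N v u s1 s2 k1 k2 h4 m2 h2 t y t0 h3 hy δ hδ h6
    have a1 : (2 * σ + 1 : ℝ) * (3 * k + 3) * (N + 1) ≤ 5 * v * (9 * u) * (2 * N) := by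
      gcongr <;> linarith only [s1, s2, k1, k2, h4, m2]
    have a2 : (t / 8) ^ 2 ≤ y ^ 2 := by gcongr; linarith only [h3, hy]
    have a3 := mul_le_mul_of_nonneg_left a2 hδ.le
    have a4 : 0 ≤ δ * t ^ 2 := by positivity
    linarith only [h6, a1, a3, a4]
  subst hW
  refine (mul_le_mul_of_nonneg_right (small_tree (by omega)) (sq_nonneg _)).trans ?_
  rw [sum_mul]
  have hd : 0 ≤ δ / 2 * B * numDag W.card := by positivity
  have h7 : ∑ j ∈ Icc 2 (2 * (k * σ + k) + k), (1 / 2 : ℝ) ^ j ≤ 2 :=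
    (summable_geometric_two.sum_le_tsum _ fun _ _ => by positivity).trans_eq tsum_geometric_two
  refine le_trans (sum_le_sum fun j hj' => ?_) ((mul_sum _ _ _).ge.trans
    ((mul_le_mul_of_nonneg_left h7 hd).trans_eq (by ring)))
  obtain ⟨j1, j2⟩ := mem_Icc.1 hj'
  generalize W.card = N at *
  have c0 := cN_nonneg (N - j)
  have b1 : cN (N - j) * lam N ^ 2 ≤ 4 * (B * numDag (N - j)) := by
    clear * - N j B hj k σ j2 hK j1 h2 c0
    linarith only [hj, j2, hK, j1, h2, c0, hj (N - j) (by omega) (by omega),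
      mul_le_mul_of_nonneg_left (scn_lam (M := N - j) (by omega) (by omega) h2) c0]
  have b2 := h1 j (by omega)
  have b3 : (100 : ℝ) ^ j * (2 * σ + k + 1) ^ (j - 2) * y ^ 2 ≤ 10 ^ 4 * y ^ j := by
    clear * - j σ k y j1 N B y1 hj' j2 c0 b1 b2
    obtain ⟨i, rfl⟩ := Nat.exists_eq_add_of_le' j1
    have := mul_le_mul_of_nonneg_right (pow_le_pow_left₀ (by positivity) y1 i) (sq_nonneg y)
    rw [mul_pow] at this
    rw [Nat.add_sub_cancel, pow_add, pow_add]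
    linarith only [this]
  have b4 : (N.choose j : ℝ) * (j * (j + 2) ^ j) ≤ N.descFactorial j * 100 ^ j := by
    clear * - N j j1
    rw [Nat.descFactorial_eq_factorial_mul_choose, Nat.cast_mul]
    linarith only [j1, mul_le_mul_of_nonneg_left (scn_fac j1) (Nat.cast_nonneg (N.choose j))]
  refine le_of_mul_le_mul_right ?_ (pow_pos y0 2)
  calc _ = (N.choose j : ℝ) * (j * (j + 2) ^ j) * ((2 * σ + k + 1) ^ (j - 2) * y ^ 2) *
        ((2 * σ + 1) * (3 * k + 3) * (N + 1)) * (cN (N - j) * lam N ^ 2) := by ring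
    _ ≤ N.descFactorial j * 100 ^ j * ((2 * σ + k + 1) ^ (j - 2) * y ^ 2) *
        ((2 * σ + 1) * (3 * k + 3) * (N + 1)) * (4 * (B * numDag (N - j))) := by clear * - N j σ k y B b4 y0 h2 b1 c0; gcongr
    _ = N.descFactorial j * (100 ^ j * (2 * σ + k + 1) ^ (j - 2) * y ^ 2) *
        ((2 * σ + 1) * (3 * k + 3) * (N + 1)) * (4 * (B * numDag (N - j))) := by ring
    _ ≤ N.descFactorial j * (10 ^ 4 * y ^ j) *
        ((2 * σ + 1) * (3 * k + 3) * (N + 1)) * (4 * (B * numDag (N - j))) := by clear * - B N j σ k y b3 h2 hB; gcongr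
    _ = N.descFactorial j * y ^ j * numDag (N - j) *
        ((2 * σ + 1) * (3 * k + 3) * (N + 1) * 10 ^ 4) * (4 * B) := by ring
    _ ≤ (1 / 2) ^ j * numDag N * (δ / 8 * y ^ 2) * (4 * B) := by clear * - B N j y σ k δ b2 y2 h2 hB; gcongr
    _ = _ := by ring

theorem scn_div {x d y l c e : ℝ} (hd : 0 ≤ d) (hy : 0 < y) (h1 : x ≤ e * d)
    (h2 : e * l ≤ c * y ^ 2) (hl : 0 ≤ l) : x / y ^ 2 * l ≤ c * d := by
  rw [div_mul_eq_mul_div, div_le_iff₀ (pow_pos hy 2)]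
  linarith [mul_le_mul_of_nonneg_right h1 hl, mul_le_mul_of_nonneg_right h2 hd]

theorem cN_le {δ : ℝ} (hδ : 0 < δ) : ∀ᶠ N : ℕ in atTop,
    cN N * lam N ^ 2 ≤ (4 + δ) * numDag N := by
  have d0 : ∀ N, (0 : ℝ) < numDag N := fun N => Nat.cast_pos.2 (numDag_pos N)
  refine (closing (fun N => cN N * lam N ^ 2 / numDag N) 4 (fun δ hδ => ?_) hδ).mono
    fun N h => (div_le_iff₀ (d0 N)).1 h
  obtain ⟨ε, e1, e2, e3⟩ : ∃ ε : ℝ, 0 < ε ∧ ε ≤ δ / 100 ∧ ε ≤ 1 / 100 :=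
    ⟨min (δ / 100) (1 / 100), lt_min (by linarith only [hδ]) (by norm_num), min_le_left _ _,
      min_le_right _ _⟩
  filter_upwards [small_small (half_pos hδ), excC_small e1, tree_small, tree_window e1 e1,
    sev_sqrt (half_pos e1), eventually_ge_atTop 3, eventually_ge_atTop 1,
    sev_pow (a := 1 / 1000) (b := 97 / 100) (e := 1 / 4) (by norm_num) (by norm_num),
    sev_pow (a := 19 / 10) (b := 194 / 100) (e := ε / 8) (by norm_num) (by positivity)]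
    with N h1 h2 h3 h4 h5 h6 h7 h8 h9 B hB hj
  have hc : (univ : Finset (Fin N)).card = N := by rw [card_univ, Fintype.card_fin]
  have n1 : (1 : ℝ) ≤ N := Nat.one_le_cast.2 h7
  have n0 : (0 : ℝ) < N := by linarith only [e1, e3, n1]
  obtain ⟨k1, k2, k3⟩ := scn_ceil (c := 1 / 1000) (by norm_num) h7
  obtain ⟨s1, s2, -⟩ := scn_ceil (c := 97 / 100) (by norm_num) h7
  have e4 : (N : ℝ) ^ (1 / 1000 : ℝ) ≤ (N : ℝ) ^ (1 / 2 : ℝ) :=
    rpow_le_rpow_of_exponent_le n1 (by norm_num)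
  have e5 : (N : ℝ) ^ (19 / 10 : ℝ) = (N : ℝ) ^ (-(1 / 10) : ℝ) * N ^ 2 := by
    rw [← rpow_natCast, ← rpow_add n0]; norm_num
  have e6 : (N : ℝ) ^ (194 / 100 : ℝ) = ((N : ℝ) ^ (97 / 100 : ℝ)) ^ 2 := by
    rw [← rpow_natCast, ← rpow_mul n0.le]; norm_num
  rw [e5, e6] at h9
  have a1 := h1 B hB (fun j j1 j2 => (div_le_iff₀ (d0 j)).1 (hj j j1 j2)) _ _ hc
  have a2 := h2 _ _ hc _ k2 (by clear * - N ε e1 e3 k1 k3 h2 hc k2; linarith only [e1, e3, k1, k3])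
  have a3 := h3 _ _ hc
  have a4 := h4 _ _ hc
  have w0 : 0 ≤ (N : ℝ) ^ (-(1 / 10) : ℝ) := rpow_nonneg n0.le _
  clear h1 h2 h3 h4 hj e5 e6
  generalize ⌈(N : ℝ) ^ (1 / 1000 : ℝ)⌉₊ = k at *
  generalize ⌈(N : ℝ) ^ (97 / 100 : ℝ)⌉₊ = σ at *
  generalize (N : ℝ) ^ (97 / 100 : ℝ) = v at *
  generalize (N : ℝ) ^ (-(1 / 10) : ℝ) = w at *
  have l1 : (k : ℝ) ≤ ε * lam N := by clear * - k ε N h5 e4 k3; linarith only [h5, e4, k3]
  have l0 : 0 < lam N := (mul_pos_iff_of_pos_left e1).1 (by clear * - ε N e1 e3 h5 k1 e4; linarith only [e1, e3, h5, k1, e4])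
  have l2 := mul_le_mul_of_nonneg_right e3 l0.le
  have l3 : lam N ^ 2 ≤ (N : ℝ) ^ 2 := pow_le_pow_left₀ l0.le (div_le_self n0.le
    ((le_log_iff_exp_le n0).2 (exp_one_lt_three.le.trans (by exact_mod_cast h6)))) 2
  have c1 := Nat.le_ceil ((1 / 2 - ε) * lam N)
  have c2 := Nat.lt_floor_add_one (3 / 10 * lam N)
  have c3 := Nat.floor_le (show 0 ≤ 3 / 10 * lam N by positivity)
  have b0 := mul_le_mul_of_nonneg_right (cWt_split (univ : Finset (Fin N)) (k := k) (σ := σ)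
    (b := ⌊3 / 10 * lam N⌋₊) (lo := ⌈(1 / 2 - ε) * lam N⌉₊) (by clear * - k σ ε N v e1 e3 k1 k3 h8 s2; rify; linarith only [e1, e3, k1, k3, h8, s2])
    (Nat.le_floor (by clear * - k N ε e1 e3 h5 k1 e4 k3 l2; linarith only [e1, e3, h5, k1, e4, k3, l2])) (by clear * - k ε N e1 e3 h5 k1 e4 k3 l2 c1; rify; linarith only [e1, e3, h5, k1, e4, k3, l2, c1])) (sq_nonneg (lam N))
  have b1 := (mul_le_mul_of_nonneg_left l3 (Nat.cast_nonneg _)).trans a2
  have b2 : (((dags (univ : Finset (Fin N))).filter fun Δ =>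
      (rtree univ Δ).card ≤ ⌊3 / 10 * lam N⌋₊).card : ℝ) / ((σ : ℝ) + 1 - k) ^ 2 * lam N ^ 2 ≤
      ε / 2 * numDag N := by
    clear * - N σ k ε w d0 v e1 e3 k1 k3 h8 s2 c3 a3 s1 h9 l3 w0
    refine scn_div (d0 N).le (by linarith only [e1, e3, k1, k3, h8, s2]) (le_trans (Nat.cast_le.2 (card_le_card ?_)) a3) ?_
      (sq_nonneg _)
    · exact monotone_filter_right _ fun Δ _ h => (Nat.cast_le.2 h).trans c3
    · have : (v / 2) ^ 2 ≤ ((σ : ℝ) + 1 - k) ^ 2 := by gcongr; linarith only [e1, e3, k3, h8, s2]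
      linarith only [h9, l3, w0, this, e1, mul_le_mul_of_nonneg_left l3 w0, mul_le_mul_of_nonneg_left this e1.le]
  have b3 : (((dags (univ : Finset (Fin N))).filter fun Δ =>
      (rtree univ Δ).card < ⌈(1 / 2 - ε) * lam N⌉₊).card : ℝ) /
      ((⌊3 / 10 * lam N⌋₊ : ℝ) + 1 - k) ^ 2 * lam N ^ 2 ≤ 25 * ε * numDag N := by
    clear * - N ε k d0 e1 e3 h5 k1 e4 k3 l2 c2 a4 l0
    refine scn_div (d0 N).le (by linarith only [e1, e3, h5, k1, e4, k3, l2, c2])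
      (le_trans (Nat.cast_le.2 (card_le_card ?_)) a4) ?_ (sq_nonneg _)
    · exact monotone_filter_right _ fun Δ _ h => .inl (Nat.lt_ceil.1 h).le
    · have : (lam N / 5) ^ 2 ≤ ((⌊3 / 10 * lam N⌋₊ : ℝ) + 1 - k) ^ 2 := by gcongr; linarith only [e1, e3, h5, k1, e4, k3, l2, c2]
      linarith only [this, e1, mul_le_mul_of_nonneg_left this e1.le]
  have b4 : ((dags (univ : Finset (Fin N))).card : ℝ) /
      ((⌈(1 / 2 - ε) * lam N⌉₊ : ℝ) + 1 - k) ^ 2 * lam N ^ 2 ≤ (4 + 40 * ε) * numDag N := by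
    clear * - N ε k d0 e1 e3 h5 k1 e4 k3 l2 c1
    refine scn_div (d0 N).le (by linarith only [e1, e3, h5, k1, e4, k3, l2, c1]) (one_mul _).ge ?_ (sq_nonneg _)
    have f1 : ((1 / 2 - 2 * ε) * lam N) ^ 2 ≤ ((⌈(1 / 2 - ε) * lam N⌉₊ : ℝ) + 1 - k) ^ 2 :=
      pow_le_pow_left₀ (by linarith only [e1, e3, h5, k1, e4, l2]) (by linarith only [e1, e3, h5, e4, k3, c1]) 2
    have f2 : 1 ≤ (4 + 40 * ε) * (1 / 2 - 2 * ε) ^ 2 := by
      linarith only [mul_nonneg e1.le (sub_nonneg.2 e3), pow_pos e1 3, e1]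
    rw [mul_pow] at f1
    refine (mul_le_mul_of_nonneg_right f2 (sq_nonneg _)).trans ?_
    rw [mul_assoc]
    exact mul_le_mul_of_nonneg_left f1 (by linarith only [e1, e3])
  rw [div_le_iff₀ (d0 N), cN]
  have b5 := mul_le_mul_of_nonneg_right e2 (d0 N).le
  have b6 := mul_pos hδ (d0 N)
  rw [mul_div_assoc, mul_div_assoc] at b0
  clear * - N δ B k σ ε a1 b0 b1 b2 b3 b4 b5 b6
  linarith only [a1, b0, b1, b2, b3, b4, b5, b6]

theorem goodD_ge {ε δ : ℝ} (hε : 0 < ε) (hδ : 0 < δ) : ∀ᶠ N : ℕ in atTop,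
    ∀ (α : Type) [Fintype α] (W : Finset α), W.card = N → (1 - δ) * numDag N ≤
      ((dags W).filter (GoodD ⌈(N : ℝ) ^ (1 / 1000 : ℝ)⌉₊ ⌈(1 / 2 - ε) * lam N⌉₊
        ⌊(1 / 2 + ε) * lam N⌋₊ W)).card := by
  have hd : 0 < δ / 3 := by linarith only [hδ]
  filter_upwards [excC_small hd, tree_window hε hd, eventually_ge_atTop 1] with N h1 h2 h3 α _ W hW
  obtain ⟨k1, k2, k3⟩ := scn_ceil (c := 1 / 1000) (by norm_num) h3
  have a1 := (le_mul_of_one_le_right (Nat.cast_nonneg _)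
    (one_le_pow₀ (Nat.one_le_cast.2 h3))).trans (h1 α W hW _ k2 (by clear * - N k1 k3 W h1 h3 hW k2 α; linarith only [k1, k3]))
  have a2 := h2 α W hW
  obtain ⟨E, hE⟩ : ∃ E : (α → α → Prop) → Prop, ∀ Δ, E Δ ↔
      ((rtree W Δ).card : ℝ) ≤ (1 / 2 - ε) * lam N ∨ (1 / 2 + ε) * lam N ≤ (rtree W Δ).card :=
    ⟨_, fun _ => Iff.rfl⟩
  have a3 : (((dags W).filter E).card : ℝ) ≤ δ / 3 * numDag N :=
    le_trans (Nat.cast_le.2 (card_le_card (monotone_filter_right _ fun Δ _ h => (hE Δ).1 h))) a2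
  generalize ⌈(N : ℝ) ^ (1 / 1000 : ℝ)⌉₊ = k at *
  have key : ∀ Δ, ¬ ExcH k W Δ → ¬ E Δ →
      GoodH k ⌈(1 / 2 - ε) * lam N⌉₊ ⌊(1 / 2 + ε) * lam N⌋₊ W Δ := fun Δ g1 g2 => by
    rw [hE, not_or, not_le, not_le] at g2
    exact ⟨not_le.1 fun h => g1 (.inl h), not_le.1 fun h => g1 (.inr (.inl h)),
      fun h => g1 (.inr (.inr (.inr (.inr h)))), Nat.ceil_le.2 g2.1.le, Nat.le_floor g2.2.le⟩
  have a4 := stail_or (s := dags W) (r := fun Δ => E Δ ∨ E (rv Δ)) a3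
    ((Nat.cast_inj.2 (card_rv W E)).trans_le a3) fun _ h => h
  have a5 : (((dags W).filter fun _ => True).card : ℝ) ≤ ((dags W).filter
      (GoodD k ⌈(1 / 2 - ε) * lam N⌉₊ ⌊(1 / 2 + ε) * lam N⌋₊ W)).card +
      ((dags W).filter (ExcC k W)).card + ((dags W).filter fun Δ => E Δ ∨ E (rv Δ)).card :=
    sev_card (dags W) fun Δ _ _ => by
      by_contra h
      simp only [not_or] at h
      exact h.1 ⟨key Δ (fun g => h.2.1 (.inl g)) h.2.2.1, key _ (fun g => h.2.1 (.inr g)) h.2.2.2⟩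
  rw [filter_true, card_dags, hW] at a5
  clear * - δ N α k ε W E a1 a4 a5
  linarith only [a1, a4, a5]

end Pool.Agent.Work.MP_5391ad_co
end

-- merged part: Pool.Agent.Work.MP_5391ad_co.SFin
section
/-! Stage B. -/

namespace Pool.Agent.Work.MP_5391ad_co

open Finset Filter Real
open scoped Classical

theorem sfin_univ {β : Type*} {i j : Fintype β} {p : β → Prop} {d d' : DecidablePred p} :
    (@filter β p d (@univ β i)).card = (@filter β p d' (@univ β j)).card :=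
  congrArg card (by ext; simp)

theorem sfin_hA {α : Type*} [Fintype α] {p : Par} {A : α → α → Prop} {τ0 τ1 K : ℕ} (hN : NDr A)
    (hR : RegOut p A τ0 τ1) (hG : ¬ Good0 A) (hm : 1 ≤ p.m)
    (hK : ∀ k, k + p.N ≤ Fintype.card α + p.Kb + 10 → k ≤ K) :
    FIr A ∧ (rts univ A τ0).Nonempty ∧ (rts univ (rv A) τ0).Nonempty ∧
      ∀ τ, τ ≤ τ1 → ∀ (ρ : Equiv.Perm α) (s : α), ρ s ∈ rts univ A τ →
        s ∈ rts univ (rv A) τ → Frame A ρ s →
        (∀ a b, A (ρ a) b ↔ matV univ (dig A ρ) s a b) ∧ ∃ i V' D', Sur p i s (dig A ρ) V' D' ∧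
          1 ≤ V'ᶜ.card ∧ V'ᶜ.card ≤ K ∧ Cmp (dig A ρ) V' D' s τ (100 * p.m) (surX p i) := by
  refine ⟨hN.fi, hR.1, hR.2.1, fun τ hτ ρ s h1 h2 hf => ?_⟩
  obtain ⟨e, hc, b1, b2, R', C', hn⟩ := hR.2.2 τ hτ ρ s h1 h2 hf
  refine ⟨e, ?_⟩
  by_cases hu : ∃ u, CycA (dig A ρ) {s} u
  · obtain ⟨u, hu⟩ := hu
    obtain ⟨i, V', D', s1, s2⟩ := hn.surgery hu
    exact ⟨i, V', D', s1, s2.pos, hK _ s2.le, s2.stab.cmp hc hm (by omega) b1 b2⟩
  · obtain ⟨d1, d2⟩ := hc.gr.dag_core fun u k => hu ⟨u, k⟩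
    exact (hG ⟨hN.fi, ρ, s, _, d1, fun a b => by rw [← d2]; exact e a b⟩).elim

theorem sfin_sum {n K : ℕ} {y q B ε : ℝ} (hy : 0 ≤ y) (q0 : 0 ≤ q) (q1 : q < 1) (hB : 0 ≤ B)
    (hε : ε ≤ 1 / 4) (k1 : K + 2 ≤ n) (k2 : (K : ℝ) ≤ 2 * ε * n)
    (h : ∀ k : ℕ, (k : ℝ) ≤ 2 * ε * n →
      (n.descFactorial k : ℝ) ^ 2 * y ^ k * TN (n - k) ≤ q ^ k * TN n)
    (hj : ∀ j, n ≤ 2 * j → j < n → (numND j : ℝ) / TN j ≤ B) :
    ∑ k ∈ Icc 1 K, (n.descFactorial k : ℝ) ^ 2 * y ^ k * numND (n - k) ≤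
      (1 - q)⁻¹ * B * TN n := by
  have h0 := TN_pos (show 2 ≤ n by omega)
  have h1 : 2 * K ≤ n := by
    clear * - n K ε k2 hε
    have : (0 : ℝ) ≤ n := Nat.cast_nonneg n
    rify
    linarith only [k2, hε, mul_nonneg_of_nonpos_of_nonpos (Mathlib.Tactic.Linarith.sub_nonpos_of_le (Mathlib.Tactic.Linarith.natCast_nonneg ℝ n)) (Mathlib.Tactic.Linarith.sub_nonpos_of_le hε)]
  have h2 : ∑ k ∈ Icc 1 K, q ^ k ≤ (1 - q)⁻¹ := by
    rw [← tsum_geometric_of_lt_one q0 q1]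
    exact (summable_geometric_of_lt_one q0 q1).sum_le_tsum _ fun _ _ => pow_nonneg q0 _
  refine le_trans (sum_le_sum fun k hk => ?_) ((sum_mul _ _ (B * TN n)).ge.trans
    ((mul_le_mul_of_nonneg_right h2 (by positivity)).trans_eq (mul_assoc _ _ _).symm))
  obtain ⟨a1, a2⟩ := mem_Icc.1 hk
  have a3 := hj (n - k) (by omega) (by omega)
  rw [div_le_iff₀ (TN_pos (by omega))] at a3
  have a4 := mul_le_mul_of_nonneg_left (h k ((Nat.cast_le.2 a2).trans k2)) hB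
  have a5 := mul_le_mul_of_nonneg_left a3
    (by positivity : 0 ≤ (n.descFactorial k : ℝ) ^ 2 * y ^ k)
  linarith only [a4, a5]

theorem sfin_bad {ε δ : ℝ} (hε : 0 < ε) (hε1 : ε ≤ 1 / 10 ^ 6) (hδ : 0 < δ) :
    ∀ᶠ n : ℕ in atTop, ∀ (α : Type) [Fintype α], Fintype.card α = n → ∀ B : ℝ, 0 ≤ B →
    (∀ j, n ≤ 2 * j → j < n → (numND j : ℝ) / TN j ≤ B) →
    ((univ.filter fun A : α → α → Prop => NDr A ∧ TypM (ε / 2000) A ∧ ¬ Good0 A ∧
      ¬ ∃ ρ s, Frame A ρ s ∧ TypRed ε s (Exc n ⌈(n : ℝ) ^ (1 / 1000 : ℝ)⌉₊) (dig A ρ)).card : ℝ) ≤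
      δ * B * TN n := by
  obtain ⟨q, q0, q1, hq⟩ := ratio_TN hε (by linarith only [hε, hε1])
  have q2 : 0 < 1 - q := sub_pos.2 q1
  filter_upwards [hq, par_ok hε hε1, par_num hε hε1, par_K hε hε1,
    par_psi hε hε1 (mul_pos hδ q2)] with n h1 h2 h3 ⟨K, k1, k2, k3⟩ h4 α _ hα B hB hj
  subst hα
  obtain ⟨c1, c2, c3, c4, c5, c6⟩ := h4 _ _ rfl rfl
  have hL := (exp_pos 2).trans_le (le_ell (Fintype.card α))
  have hz : 0 < (1 + 3 * ε) / ell (Fintype.card α) := by positivity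
  have hm : 1 ≤ (par ε (Fintype.card α)).m := by
    have := h2.k0
    have := h2.km
    omega
  refine (window _ (Sur (par ε (Fintype.card α))) (surX (par ε (Fintype.card α))) (surW _ _ _)
    (M := 4000)
    (τ0 := lev0 (Fintype.card α)) (w := 100 * (par ε (Fintype.card α)).m) (by norm_num) c5
    (inv_pos.2 hz).le k1 (fun A hA => ?_)
    fun i s V' D' hV => card_sur s V' D' _ hz c1 c2 c3 c4 i hV).trans ?_
  · obtain ⟨a1, ⟨σ, a2, R, C, a3⟩, a4, a5⟩ := (mem_filter.1 hA).2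
    obtain ⟨b1, tw, θ, b2⟩ := h3 α rfl _ R C a3
    exact sfin_hA a1 (cen_main a1 a2 h2 b1 b2 fun ρ s f k => a5 ⟨ρ, s, f, k⟩) a4 hm k3
  · rw [inv_div]
    refine (mul_le_mul c6 (sfin_sum (by positivity) q0 q1 hB (by clear * - ε hε hε1 c6 h1 hB hj hδ k1 k2 q0 q1 q2; linarith only [hε, hε1]) k1 k2 h1 hj)
      (sum_nonneg fun _ _ => by positivity) (mul_pos hδ q2).le).trans_eq ?_
    field_simp

theorem sfin_good {δ : ℝ} (hδ : 0 < δ) : ∀ᶠ n : ℕ in atTop, ∀ (α : Type) [Fintype α],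
    Fintype.card α = n →
    ((univ.filter fun A : α → α → Prop => Good0 A).card : ℝ) ≤ (1 + δ) ^ 2 * TN n := by
  filter_upwards [(tendsto_sub_atTop_nat 1).eventually (cN_le (δ := 4 * δ) (by linarith only [hδ])),
    lam_succ hδ, eventually_ge_atTop 2, tendsto_lam.eventually_gt_atTop 0] with n h1 h2 h3 h4 α _ hα
  refine card_good0.trans (le_of_mul_le_mul_right ?_ (pow_pos h4 2))
  rw [hα, mul_assoc _ (TN n), TN_eq h3]
  have a0 := cN_nonneg (n - 1)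
  have a1 := (mul_le_mul_of_nonneg_left h2 a0).trans ((mul_left_comm _ _ _).le.trans
    (mul_le_mul_of_nonneg_left h1 (by linarith only [hδ])))
  have a2 := mul_le_mul_of_nonneg_left a1 (by positivity : (0 : ℝ) ≤ n * n.factorial)
  linarith only [a2]

theorem sfin_split {α : Type} [Fintype α] (hn : 2 ≤ Fintype.card α) (p q r : (α → α → Prop) → Prop) :
    (numND (Fintype.card α) : ℝ) ≤ (univ.filter fun A => NDr A ∧ ¬ p A).card +
      (univ.filter q).card + (univ.filter r).card +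
      (univ.filter fun A => NDr A ∧ p A ∧ ¬ q A ∧ ¬ r A).card := by
  rw [← card_ndr hn]
  have h : (univ.filter fun A : α → α → Prop => NDr A) ⊆ (univ.filter fun A => NDr A ∧ ¬ p A) ∪
      univ.filter q ∪ univ.filter r ∪ univ.filter fun A => NDr A ∧ p A ∧ ¬ q A ∧ ¬ r A := by
    intro A hA
    simp only [mem_union, mem_filter, mem_univ, true_and] at hA ⊢
    tauto
  exact_mod_cast (card_le_card h).trans ((card_union_le _ _).trans (Nat.add_le_add_right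
    ((card_union_le _ _).trans (Nat.add_le_add_right (card_union_le _ _) _)) _))

theorem sfin_up {ζ : ℝ} (hζ : 0 < ζ) : ∀ᶠ n : ℕ in atTop, (numND n : ℝ) / TN n ≤ 1 + ζ := by
  obtain ⟨ε0, e0, hE⟩ := card_exc
  obtain ⟨ε, e1, e2, e3⟩ : ∃ ε : ℝ, 0 < ε ∧ ε ≤ ε0 ∧ ε ≤ 1 / 10 ^ 6 :=
    ⟨min ε0 (1 / 10 ^ 6), lt_min e0 (by norm_num), min_le_left _ _, min_le_right _ _⟩
  refine closing (fun n => (numND n : ℝ) / TN n) 1 (fun δ hδ => ?_) hζ
  obtain ⟨η, g1, g2, g3⟩ : ∃ η : ℝ, 0 < η ∧ η ≤ δ / 20 ∧ η ≤ 1 / 2 :=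
    ⟨min (δ / 20) (1 / 2), lt_min (by linarith only [hδ]) (by norm_num), min_le_left _ _, min_le_right _ _⟩
  filter_upwards [hE ε e1 e2 η g1, sfin_bad e1 e3 g1, sfin_good g1,
    card_atyp (e := ε / 2000) (by linarith only [e1]) (by linarith only [e1, e3]) g1, eventually_ge_atTop 2]
    with n h1 h2 h3 h4 h5 B hB hj
  have hc := Fintype.card_fin n
  have a0 := TN_pos h5
  have a1 := sfin_split (α := Fin n) (by omega) (TypM (ε / 2000)) Good0 fun A => ∃ ρ s,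
    Frame A ρ s ∧ TypRed ε s (Exc n ⌈(n : ℝ) ^ (1 / 1000 : ℝ)⌉₊) (dig A ρ)
  rw [hc] at a1
  have a2 := a1.trans (add_le_add (add_le_add (add_le_add
    (le_of_eq_of_le (Nat.cast_inj.2 sfin_univ) h4)
    (le_of_eq_of_le (Nat.cast_inj.2 sfin_univ) (h3 _ hc)))
    (le_of_eq_of_le (Nat.cast_inj.2 sfin_univ) (h1 _ hc)))
    (le_of_eq_of_le (Nat.cast_inj.2 sfin_univ) (h2 _ hc B hB hj)))
  rw [div_le_iff₀ a0]
  refine le_of_mul_le_mul_left (?_ : (1 - η) * _ ≤ _) (by clear * - η ε e1 e3 g3; linarith only [e1, e3, g3])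
  have a3 : (1 + η) ^ 2 + η + η * B ≤ (1 - η) * (1 + δ + δ * B) := by
    clear * - η B δ g1 g2 hB hδ g3
    linarith only [g1, g2, hB, hδ, g3, mul_nonneg hB (sub_nonneg.2 g2), mul_nonneg (mul_nonneg hB hδ.le) (sub_nonneg.2 g3),
      mul_nonneg hδ.le (sub_nonneg.2 g3), mul_nonneg g1.le (sub_nonneg.2 g3), mul_nonneg hB g1.le]
  have a4 := mul_le_mul_of_nonneg_right a3 a0.le
  clear * - η n δ B a2 a4
  linarith only [a2, a4]

theorem sfin_low {ε : ℝ} (hε : 0 < ε) (hε1 : ε ≤ 1 / 100) : ∀ᶠ N : ℕ in atTop,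
    ∀ (α : Type) [Fintype α], Fintype.card α = N + 1 →
    (1 - ε) * TN (N + 1) ≤ (1 + 9 * ε) * numND (N + 1) := by
  have hs := tendsto_add_atTop_nat 1
  filter_upwards [goodD_ge hε hε, pow_le_lam (c := 9 / 10) (δ := 1 / 100) (by norm_num)
    (by norm_num), hs.eventually (pow_le_lam (c := 3 / 5) (by norm_num) hε),
    eventually_ge_atTop 3] with N h1 h2 h3 h4 α _ hα
  have n1 : (1 : ℝ) ≤ N := by exact_mod_cast (by omega : 1 ≤ N)
  have n2 : (1 : ℝ) ≤ (N + 1 : ℕ) := by exact_mod_cast (by omega : 1 ≤ N + 1)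
  have p0 : 1 ≤ (N : ℝ) ^ (1 / 1000 : ℝ) := one_le_rpow n1 (by norm_num)
  have p1 : (N : ℝ) ^ (1 / 1000 : ℝ) ≤ (N : ℝ) ^ (9 / 10 : ℝ) :=
    rpow_le_rpow_of_exponent_le n1 (by norm_num)
  have p2 : (N : ℝ) ^ (1 / 1000 : ℝ) ≤ ((N + 1 : ℕ) : ℝ) ^ (1 / 5 : ℝ) :=
    (rpow_le_rpow_of_exponent_le n1 (by norm_num)).trans
      (rpow_le_rpow (by linarith only [hε, hε1, n1]) (Nat.cast_le.2 N.le_succ) (by norm_num))
  have p3 : ((N + 1 : ℕ) : ℝ) ^ (1 / 5 : ℝ) * (N + 1 : ℕ) = (((N + 1 : ℕ) : ℝ) ^ (3 / 5 : ℝ)) ^ 2 := by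
    clear * - N ε hε hε1 n2
    rw [← rpow_add_one (by linarith), ← rpow_natCast, ← rpow_mul (by linarith)]
    norm_num
  have p4 : 1 ≤ ((N + 1 : ℕ) : ℝ) ^ (3 / 5 : ℝ) := one_le_rpow n2 (by norm_num)
  have l0 : 0 ≤ lam N := by clear * - N ε hε hε1 h2 p0 p1; linarith only [hε, hε1, h2, p0, p1]
  have l1 := lam_mono h4 N.le_succ
  have c1 := Nat.ceil_lt_add_one (zero_le_one.trans p0)
  have c2 := Nat.le_ceil ((1 / 2 - ε) * lam N)
  have c3 := Nat.floor_le (show 0 ≤ (1 / 2 + ε) * lam N by positivity)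
  have c4 := mul_le_mul_of_nonneg_right hε1 l0
  have hN : Fintype.card α - 1 = N := by omega
  have a1 := lower_comb (α := α) (k := ⌈(N : ℝ) ^ (1 / 1000 : ℝ)⌉₊) (lo := ⌈(1 / 2 - ε) * lam N⌉₊)
    (hi := ⌊(1 / 2 + ε) * lam N⌋₊) (by omega) (by clear * - α N ε hN hε hε1 h2 p0 p1 c1 c2 c4; rw [hN]; linarith only [hε, hε1, h2, p0, p1, c1, c2, c4]) (by clear * - α ε N hN hε hε1 h2 p0 p1 c2 c4; rw [hN]; linarith only [hε, hε1, h2, p0, p1, c2, c4])
    (by clear * - α N ε hN hε hε1 h2 p0 p1 c1 c2 c4; rw [hN]; linarith only [hε, hε1, h2, p0, p1, c1, c2, c4])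
  have a2 := sum_le_sum fun (s : α) (_ : s ∈ univ) =>
    h1 α (univ.erase s) (by rw [card_erase_of_mem (mem_univ s), card_univ, hN])
  rw [sum_const, card_univ, nsmul_eq_mul, ← Nat.cast_sum] at a2
  rw [hα] at a1 a2
  have a3 := (mul_le_mul_of_nonneg_left a2 (Nat.cast_nonneg (N + 1).factorial)).trans
    ((Nat.cast_mul _ _).ge.trans (Nat.cast_le.2 a1))
  have a4 := TN_eq (show 2 ≤ N + 1 by omega)
  rw [Nat.add_sub_cancel] at a4
  generalize ⌈(N : ℝ) ^ (1 / 1000 : ℝ)⌉₊ = k at *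
  generalize ⌊(1 / 2 + ε) * lam N⌋₊ = hi at *
  have b1 : (hi : ℝ) + 1 ≤ (1 / 2 + 2 * ε) * lam (N + 1) := by
    clear * - ε N l1 hε hε1 hi h3 p4 c3
    have := mul_le_mul_of_nonneg_left l1 (show 0 ≤ 1 / 2 + ε by linarith only [hε, hε1])
    linarith only [h3, p4, c3, this]
  have b2 := pow_le_pow_left₀ (by positivity) b1 2
  have b3 := pow_le_pow_left₀ (by clear * - N ε hε hε1 p4 h3; linarith only [hε, hε1, p4]) h3 2
  have b4 : 3 * ((N + 1 : ℕ) : ℝ) + 2 * (2 * k * (N + 1 : ℕ)) ≤ 11 * (ε * lam (N + 1)) ^ 2 := by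
    clear * - k N p0 p2 c1 n2 ε p3 b3
    have := mul_le_mul_of_nonneg_right (show 3 + 4 * (k : ℝ) ≤ 11 * ((N + 1 : ℕ) : ℝ) ^ (1 / 5 : ℝ)
      by linarith only [p0, p2, c1]) (zero_le_one.trans n2)
    linarith only [p3, b3, this]
  have l2 : 0 < lam (N + 1) ^ 2 := pow_pos (by clear * - N ε hε hε1 h2 p0 p1 l1; linarith only [hε, hε1, h2, p0, p1, l1]) 2
  have b5 : 4 * (11 * ε ^ 2 + (1 / 2 + 2 * ε) ^ 2) ≤ 1 + 9 * ε := by clear * - ε hε hε1; linarith only [hε, hε1, mul_pos_of_neg_of_neg (Mathlib.Tactic.Linarith.sub_neg_of_lt hε) (Mathlib.Tactic.Linarith.sub_neg_of_lt hε), mul_nonneg_of_nonpos_of_nonpos (le_of_lt (Mathlib.Tactic.Linarith.sub_neg_of_lt hε)) (Mathlib.Tactic.Linarith.sub_nonpos_of_le hε1)]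
  have b6 := mul_le_mul_of_nonneg_right b5 l2.le
  have b7 : ((3 * (N + 1) + 2 * (2 * k * (N + 1)) + (hi + 1) ^ 2 : ℕ) : ℝ) * 4 ≤
      (1 + 9 * ε) * lam (N + 1) ^ 2 := by
    clear * - N k hi ε b2 b4 b6
    rw [Nat.cast_add, Nat.cast_add, Nat.cast_pow, Nat.cast_add hi, Nat.cast_mul, Nat.cast_mul,
      Nat.cast_mul, Nat.cast_mul]
    simp only [Nat.cast_ofNat, Nat.cast_one]
    linarith only [b2, b4, b6]
  rw [Nat.cast_mul] at a3
  have b8 := mul_le_mul_of_nonneg_left b7 (Nat.cast_nonneg (α := ℝ) (numND (N + 1)))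
  refine le_of_mul_le_mul_right ?_ l2
  rw [mul_assoc, a4]
  clear * - ε N k hi a3 b8
  linarith only [a3, b8]

theorem stageB : Tendsto (fun n : ℕ => (numND n : ℝ) / TN n) atTop (nhds 1) := by
  refine (tendsto_add_atTop_iff_nat 1).1 (stagec_lim.2 fun ζ hζ => ?_)
  obtain ⟨ε, e1, e2, e3⟩ : ∃ ε : ℝ, 0 < ε ∧ ε ≤ ζ / 10 ∧ ε ≤ 1 / 100 :=
    ⟨min (ζ / 10) (1 / 100), lt_min (by linarith only [hζ]) (by norm_num), min_le_left _ _, min_le_right _ _⟩
  filter_upwards [(tendsto_add_atTop_nat 1).eventually (sfin_up hζ), sfin_low e1 e3,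
    eventually_ge_atTop 1] with N h1 h2 h3
  have a0 := TN_pos (show 2 ≤ N + 1 by omega)
  have a1 := h2 _ (Fintype.card_fin _)
  refine abs_le.2 ⟨?_, by linarith only [h1]⟩
  rw [le_sub_iff_add_le, le_div_iff₀ a0]
  refine le_of_mul_le_mul_left (le_trans ?_ a1) (by linarith only [e1, e3] : 0 < 1 + 9 * ε)
  rw [← mul_assoc]
  exact mul_le_mul_of_nonneg_right (by linarith only [e2, hζ, e1, mul_pos_of_neg_of_neg (Mathlib.Tactic.Linarith.sub_neg_of_lt hζ) (Mathlib.Tactic.Linarith.sub_neg_of_lt e1)]) a0.le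

end Pool.Agent.Work.MP_5391ad_co
end
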