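import Pool.Agent.Work.MP_5391ad_co.Master
import Pool.Agent.Work.MP_5391ad_co.DLow
import Pool.Agent.Work.MP_5391ad_co.MTyp

/-! Stage A. Upper bound: `numND_le_typ`, `master` with `E = True`, `p = exp (n^(η/2))`
(`numDag_upper`, `card_dags`). Lower bound: `numDag_le_numND`, `numDag_lower`, `FF_step`. -/

namespace Pool.Agent.Work.MP_5391ad_co

open Finset Real Filter

theorem stagea_upper {η : ℝ} (hη : 0 < η) : ∀ᶠ n : ℕ in atTop,
    (numND n : ℝ) ≤ 4 * (n : ℝ) ^ 2 * (n.factorial ^ 2 * exp (FF n + 2 * (n : ℝ) ^ η)) := by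
  obtain ⟨ε, hε, hε1, hm⟩ := master hη
  obtain ⟨N0, hN0⟩ := eventually_atTop.1 (numDag_upper hη)
  filter_upwards [hm, numND_le_typ hε, eventually_ge_atTop (2 * N0)] with n h1 h2 h3
  obtain ⟨s, hs⟩ := h2
  have hn0 : (0 : ℝ) ≤ (n : ℝ) ^ η := rpow_nonneg (Nat.cast_nonneg _) _
  have h4 := h1 (Fin n) (Fintype.card_fin n) s (fun _ _ => True) (exp ((n : ℝ) ^ η))
    (exp_pos _).le (fun W _ hW => by
      have h5 : W.card ≤ n := (card_le_univ W).trans_eq (Fintype.card_fin n)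
      have h6 : N0 ≤ W.card := by
        have h7 : (2 * N0 : ℝ) ≤ n := by exact_mod_cast h3
        have h8 : (0 : ℝ) ≤ n := Nat.cast_nonneg _
        have h9 : (N0 : ℝ) ≤ W.card := by nlinarith
        exact_mod_cast h9
      have h7 : (W.card : ℝ) ^ η ≤ (n : ℝ) ^ η :=
        rpow_le_rpow (Nat.cast_nonneg _) (Nat.cast_le.2 h5) hη.le
      rw [filter_true, card_dags]
      refine (hN0 _ h6).trans ?_
      rw [exp_add, mul_comm (exp ((n : ℝ) ^ η)), ← mul_assoc]
      exact mul_le_mul_of_nonneg_left (exp_le_exp.2 h7) (by positivity))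
  have h5 : exp ((n : ℝ) ^ η) ^ (1 / 6 : ℝ) ≤ exp ((n : ℝ) ^ η) := by
    rw [← exp_mul]
    exact exp_le_exp.2 (by linarith)
  have h6 : ((n - 1).factorial : ℝ) ≤ n.factorial :=
    Nat.cast_le.2 (Nat.factorial_le (Nat.sub_le n 1))
  have h7 : exp ((n : ℝ) ^ η) ^ (1 / 6 : ℝ) * ((n - 1).factorial * exp (FF n + (n : ℝ) ^ η)) ≤
      exp ((n : ℝ) ^ η) * (n.factorial * exp (FF n + (n : ℝ) ^ η)) :=
    mul_le_mul h5 (mul_le_mul_of_nonneg_right h6 (exp_pos _).le) (by positivity) (exp_pos _).le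
  have h8 : exp (FF n + 2 * (n : ℝ) ^ η) = exp ((n : ℝ) ^ η) * exp (FF n + (n : ℝ) ^ η) := by
    rw [← exp_add]
    congr 1
    ring
  refine hs.trans ((mul_le_mul_of_nonneg_left (le_trans (Nat.cast_le.2 (card_le_card
    fun D hD => ?_)) (h4.trans h7)) (by positivity)).trans_eq ?_)
  · simp only [mem_filter, mem_univ, true_and] at hD ⊢
    exact hD
  · rw [h8]
    ring

theorem stagea_lower {η : ℝ} (hη : 0 < η) : ∀ᶠ n : ℕ in atTop,
    exp (2 * log n.factorial + FF n - 3 * log n - (n : ℝ) ^ η) ≤ numND n := by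
  obtain ⟨N0, hN0⟩ := eventually_atTop.1 (numDag_lower hη)
  filter_upwards [eventually_ge_atTop (N0 + 31)] with n hn
  obtain ⟨N, rfl⟩ : ∃ N, n = N + 1 := ⟨n - 1, by omega⟩
  have h1 := hN0 N (by omega)
  have h2 : (N.factorial * numDag N : ℝ) ≤ numND (N + 1) := by
    exact_mod_cast numDag_le_numND (n := N) (by omega)
  have h30 : (30 : ℝ) ≤ N := by exact_mod_cast (by omega : 30 ≤ N)
  have hc : ((N + 1 : ℕ) : ℝ) = N + 1 := by push_cast; rfl
  have h3 := FF_step h30 (show (N : ℝ) ≤ N + 1 by linarith)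
  have h4 : log (ell ((N : ℝ) + 1)) ≤ log ((N : ℝ) + 1) :=
    log_le_log ((exp_pos 2).trans_le (le_ell _)) (ell_le (by linarith))
  have hf : (0 : ℝ) < N.factorial := Nat.cast_pos.2 N.factorial_pos
  have h5 : log ((N + 1).factorial : ℝ) = log ((N : ℝ) + 1) + log N.factorial := by
    rw [Nat.factorial_succ, Nat.cast_mul, log_mul (by positivity) hf.ne', hc]
  have h6 : (N : ℝ) ^ η ≤ ((N : ℝ) + 1) ^ η := rpow_le_rpow (by linarith) (by linarith) hη.le
  refine le_trans ?_ ((mul_le_mul_of_nonneg_left h1 hf.le).trans h2)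
  have h7 : (N.factorial : ℝ) * (N.factorial * exp (FF N - (N : ℝ) ^ η)) =
      exp (2 * log N.factorial + (FF N - (N : ℝ) ^ η)) := by
    rw [exp_add, two_mul, exp_add, exp_log hf]
    ring
  rw [h7, h5, hc]
  exact exp_le_exp.2 (by linarith)

theorem stageA {η : ℝ} (hη : 0 < η) : ∀ᶠ n : ℕ in atTop,
    |log (numND n) - (2 * log n.factorial + FF n)| ≤ (n : ℝ) ^ η := by
  have h2 : 0 < η / 2 := half_pos hη
  have ht : Tendsto (fun n : ℕ => (n : ℝ) ^ (η / 2)) atTop atTop :=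
    (tendsto_rpow_atTop h2).comp tendsto_natCast_atTop_atTop
  filter_upwards [stagea_upper h2, stagea_lower h2, ht.eventually_ge_atTop (5 + 3 / (η / 2)),
    eventually_ge_atTop 1] with n hu hl hm h1
  have hn : (1 : ℝ) ≤ n := by exact_mod_cast h1
  have hn0 : (0 : ℝ) < n := by linarith
  set m := (n : ℝ) ^ (η / 2) with hmd
  have hsq : (n : ℝ) ^ η = m * m := by
    rw [hmd, ← rpow_add hn0, add_halves]
  have hlog : log n ≤ m / (η / 2) := log_le_rpow_div hn0.le h2
  have hlog0 : 0 ≤ log (n : ℝ) := log_nonneg hn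
  have h3 : 0 < 3 / (η / 2) := by positivity
  have hm0 : 0 ≤ m := by linarith
  have h4 : (5 + 3 / (η / 2)) * m ≤ m * m := mul_le_mul_of_nonneg_right hm hm0
  have h5 : 3 / (η / 2) * m = 3 * (m / (η / 2)) := by ring
  have hpos : (0 : ℝ) < numND n := (exp_pos _).trans_le hl
  have hf : (0 : ℝ) < n.factorial := Nat.cast_pos.2 n.factorial_pos
  have h6 := (le_log_iff_exp_le hpos).2 hl
  have h7 := log_le_log hpos hu
  rw [log_mul (by positivity) (by positivity), log_mul (by positivity) (by positivity),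
    log_mul (by positivity) (by positivity), log_pow, log_pow, log_exp] at h7
  have h8 : log 4 ≤ 4 - 1 := log_le_sub_one_of_pos (by norm_num)
  push_cast at h7
  rw [hsq, abs_le]
  constructor <;> linarith

end Pool.Agent.Work.MP_5391ad_co
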